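import Pool.Agent.W986.Marks

/-!
# Planar graphs with the marked vertices in one face
-/

set_option autoImplicit false

open Finset

namespace Pool.Agent.W986

open Pool.Agent.DC76 Pool.Agent.W986.BT

/-- `G` with a new vertex which is joined to the vertices of `U`. -/
def apex {V : Type} (G : SimpleGraph V) (U : Set V) : SimpleGraph (Option V) where
  Adj x y := match x, y with
    | some a, some b => G.Adj a b
    | some a, none => a ∈ U
    | none, some b => b ∈ U
    | none, none => False
  symm := ⟨by
    rintro (_ | a) (_ | b) h
    · exact h
    · exact h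
    · exact h
    · exact SimpleGraph.Adj.symm (G := G) h⟩
  loopless := ⟨by
    rintro (_ | a) h
    · exact h
    · exact G.loopless.irrefl a h⟩

theorem ein_apex {V : Type} [Fintype V] [DecidableEq V] (G : SimpleGraph V) (U : Set V)
    [DecidablePred (· ∈ U)] (W : Finset V) :
    ein (apex G U) (insertNone W) = ein G W + (W.filter (· ∈ U)).card := by
  classical
  have h1 := E2_eq_ein (apex G U) (insertNone W)
  have h2 := E2_eq_ein G W
  have h3 : E2 (apex G U) (insertNone W) = E2 G W + 2 * (W.filter (· ∈ U)).card := by
    unfold E2
    simp only [card_filter]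
    rw [sum_insertNone]
    simp only [sum_insertNone]
    have e1 : (if (apex G U).Adj none none then 1 else 0) = 0 :=
      if_neg ((apex G U).loopless.irrefl none)
    have i2 : ∀ b, (apex G U).Adj none (some b) ↔ b ∈ U := fun b => Iff.rfl
    have i3 : ∀ b, (apex G U).Adj (some b) none ↔ b ∈ U := fun b => Iff.rfl
    have i4 : ∀ a b, (apex G U).Adj (some a) (some b) ↔ G.Adj a b := fun a b => Iff.rfl
    have e2 : ∀ b, (if (apex G U).Adj none (some b) then 1 else 0) = if b ∈ U then 1 else 0 := by
      intro b
      simp only [i2]
    have e3 : ∀ b, (if (apex G U).Adj (some b) none then 1 else 0) = if b ∈ U then 1 else 0 := by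
      intro b
      simp only [i3]
    have e4 : ∀ a b, (if (apex G U).Adj (some a) (some b) then 1 else 0) =
        if G.Adj a b then 1 else 0 := by
      intro a b
      simp only [i4]
    simp only [e1, e2, e3, e4, sum_add_distrib]
    ring
  omega

/-- Planar graphs with the marked vertices in one face. -/
theorem planar_apex {V : Type} [Finite V] {G : SimpleGraph V} {o : Prop} (U : Set V)
    (hG : Embeds o 2 (apex G U)) : ∃ c : V → Fin 4, Good G U c := by
  classical
  have : Fintype V := Fintype.ofFinite V
  have hG' : Embeds o 2 G := by
    have h := Embeds.comap (apex G U) some (Option.some_injective V) hG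
    have h1 : (apex G U).comap some = G := by
      ext x y
      rfl
    rw [h1] at h
    exact h
  refine planar_marks hG' U ?_
  intro W hW
  have hc := edge_bound (apex G U) 2 hG.onSurface (insertNone W) ⟨none, by simp⟩
  rw [ein_apex, card_insertNone] at hc
  have hq : (W.filter (· ∈ U)).card + (W.filter (· ∉ U)).card = W.card :=
    card_filter_add_card_filter_not _
  have hmono : ∀ X : Finset V, X.card ≤ 1 → ein G X = 0 := by
    intro X hX
    have h1 := E2_eq_ein G X
    have h2 : E2 G X = 0 := by
      unfold E2
      apply sum_eq_zero
      intro v hv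
      rw [card_eq_zero, filter_eq_empty_iff]
      intro u hu huv
      exact huv.ne (card_le_one.1 hX v hv u hu)
    omega
  have hpos : 0 < W.card := card_pos.2 hW
  by_cases h1 : W.card ≤ 1
  · refine ⟨W, Subset.refl _, ?_⟩
    rw [hmono W h1]
    omega
  · by_contra hcon
    push Not at hcon
    have h2 := hcon W (Subset.refl _)
    have h3 := hcon (W.filter (· ∉ U)) (filter_subset _ _)
    have h4 : (W.filter (· ∉ U)).filter (· ∉ U) = W.filter (· ∉ U) := by
      rw [filter_filter]
      congr 1
      ext x
      simp
    rw [h4] at h3
    push_cast at hc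
    omega

end Pool.Agent.W986
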