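import Mathlib

/-!
# Bradley-Terry weights

If `β : V → ℝ` satisfies `e(X) < β(X)` for all proper nonempty `X` and `e(V) = β(V)`, there are
positive weights `p` with `∑_{u ~ v} p u / (p u + p v) = β v` for all `v`.
-/

set_option autoImplicit false

namespace Pool.Agent.W986.BT

open Finset

variable {V : Type*} [Fintype V] [DecidableEq V] (G : SimpleGraph V) [DecidableRel G.Adj]

/-- Twice the number of edges inside `X`. -/
def E2 (X : Finset V) : ℕ := ∑ v ∈ X, #{u ∈ X | G.Adj v u}

/-- The limit functional. -/
noncomputable def val (β s : V → ℝ) : ℝ :=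
  ∑ v, β v * s v - (∑ v, ∑ u ∈ G.neighborFinset v, min (s u) (s v)) / 2

lemma E2_eq (X : Finset V) :
    (E2 G X : ℝ) = ∑ v, ∑ u ∈ G.neighborFinset v, if u ∈ X ∧ v ∈ X then (1 : ℝ) else 0 := by
  unfold E2
  push_cast
  rw [← Finset.sum_subset (Finset.subset_univ X)]
  · refine Finset.sum_congr rfl fun v hv => ?_
    rw [Finset.card_eq_sum_ones, ← Finset.sum_filter]
    push_cast
    refine Finset.sum_congr ?_ fun _ _ => rfl
    ext u
    simp [hv, and_comm]
  · intro v _ hv
    simp [hv]

/-- Lower bound of the limit functional. -/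
lemma val_lower (β : V → ℝ) (δ : ℝ) (hδ : 0 ≤ δ)
    (h : ∀ X : Finset V, X.Nonempty → X ≠ univ → δ ≤ ∑ v ∈ X, β v - (E2 G X : ℝ) / 2) :
    ∀ (k : ℕ) (s : V → ℝ), #{v | s v ≠ 0} ≤ k → (∀ v, 0 ≤ s v) → (∃ v, s v = 0) → ∀ w,
      δ * s w ≤ val G β s := by
  intro k
  induction k with
  | zero =>
    intro s hk _ _ w
    have h0 : ∀ v, s v = 0 := by
      intro v
      by_contra hv
      have h1 : v ∈ ({v | s v ≠ 0} : Finset V) := by simpa using hv
      have h2 := Finset.card_pos.mpr ⟨v, h1⟩
      omega
    simp [val, h0]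
  | succ k ih =>
    intro s hk hs hz w
    set X : Finset V := {v | s v ≠ 0} with hX
    have hmem : ∀ v, v ∈ X ↔ s v ≠ 0 := by intro v; simp [hX]
    by_cases hne : X.Nonempty
    · obtain ⟨x, hx, hmin⟩ := Finset.exists_min_image X s hne
      set m := s x with hm
      have hm0 : 0 < m := lt_of_le_of_ne (hs x) (Ne.symm ((hmem x).mp hx))
      obtain ⟨z, hz⟩ := hz
      have hXu : X ≠ univ := by
        intro hXu
        have : z ∈ X := by rw [hXu]; exact mem_univ z
        exact (hmem z).mp this hz
      set s' : V → ℝ := fun v => if s v ≠ 0 then s v - m else 0 with hs'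
      have hs'0 : ∀ v, 0 ≤ s' v := by
        intro v
        by_cases hv : s v ≠ 0
        · simp only [hs', if_pos hv]
          have := hmin v ((hmem v).mpr hv)
          linarith
        · simp only [hs', if_neg hv]; exact le_rfl
      have hcard : #{v | s' v ≠ 0} ≤ k := by
        have hsub : ({v | s' v ≠ 0} : Finset V) ⊆ X.erase x := by
          intro v hv
          simp only [mem_filter, mem_univ, true_and] at hv
          rw [Finset.mem_erase, hmem]
          constructor
          · rintro rfl
            apply hv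
            have h1 : s v ≠ 0 := (hmem v).mp hx
            simp only [hs', if_pos h1]
            rw [hm]; ring
          · intro h1
            apply hv
            simp [hs', h1]
        have h1 := Finset.card_le_card hsub
        rw [Finset.card_erase_of_mem hx] at h1
        omega
      have hz' : ∃ v, s' v = 0 := ⟨z, by simp [hs', hz]⟩
      have hih := ih s' hcard hs'0 hz' w
      have hval : val G β s = val G β s' + m * (∑ v ∈ X, β v - (E2 G X : ℝ) / 2) := by
        have hsv : ∀ v, s v = s' v + if v ∈ X then m else 0 := by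
          intro v
          by_cases hv : s v ≠ 0
          · have : v ∈ X := (hmem v).mpr hv
            simp only [hs', if_pos hv, if_pos this]; ring
          · have : v ∉ X := fun h => hv ((hmem v).mp h)
            simp only [hs', if_neg hv, if_neg this]
            push Not at hv
            rw [hv]; ring
        have hmin' : ∀ u v, min (s u) (s v) = min (s' u) (s' v) +
            m * if u ∈ X ∧ v ∈ X then 1 else 0 := by
          intro u v
          by_cases hu : u ∈ X
          · by_cases hv : v ∈ X
            · rw [hsv u, hsv v, if_pos hu, if_pos hv, if_pos ⟨hu, hv⟩, min_add_add_right]; ring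
            · have h1 : s v = 0 := by
                by_contra h1
                exact hv ((hmem v).mpr h1)
              have h2 : s' v = 0 := by simp [hs', h1]
              rw [h1, h2, min_eq_right (hs u), min_eq_right (hs'0 u)]
              simp [hv]
          · have h1 : s u = 0 := by
              by_contra h1
              exact hu ((hmem u).mpr h1)
            have h2 : s' u = 0 := by simp [hs', h1]
            rw [h1, h2, min_eq_left (hs v), min_eq_left (hs'0 v)]
            simp [hu]
        unfold val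
        rw [E2_eq]
        have e1 : ∑ v, β v * s v = ∑ v, β v * s' v + m * ∑ v ∈ X, β v := by
          have e0 : ∑ v ∈ X, β v = ∑ v, if v ∈ X then β v else 0 := by
            rw [← Finset.sum_filter]
            exact Finset.sum_congr (by ext v; simp) fun _ _ => rfl
          rw [e0, Finset.mul_sum, ← Finset.sum_add_distrib]
          refine Finset.sum_congr rfl fun v _ => ?_
          rw [hsv v]
          by_cases hv : v ∈ X
          · simp only [if_pos hv]; ring
          · simp only [if_neg hv]; ring
        have e2 : ∑ v, ∑ u ∈ G.neighborFinset v, min (s u) (s v) =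
            ∑ v, ∑ u ∈ G.neighborFinset v, min (s' u) (s' v) +
            m * ∑ v, ∑ u ∈ G.neighborFinset v, if u ∈ X ∧ v ∈ X then (1 : ℝ) else 0 := by
          rw [Finset.mul_sum, ← Finset.sum_add_distrib]
          refine Finset.sum_congr rfl fun v _ => ?_
          rw [Finset.mul_sum, ← Finset.sum_add_distrib]
          exact Finset.sum_congr rfl fun u _ => hmin' u v
        rw [e1, e2]; ring
      rw [hval]
      have h1 := h X hne hXu
      have h2 : s w ≤ s' w + m := by
        by_cases hw : s w ≠ 0
        · simp [hs', hw]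
        · push Not at hw
          rw [hw]
          have := hs'0 w
          linarith
      have h3 : m * δ ≤ m * (∑ v ∈ X, β v - (E2 G X : ℝ) / 2) :=
        mul_le_mul_of_nonneg_left h1 hm0.le
      have h4 : δ * s w ≤ δ * (s' w + m) := mul_le_mul_of_nonneg_left h2 hδ
      nlinarith
    · have h0 : ∀ v, s v = 0 := by
        intro v
        by_contra hv
        exact hne ⟨v, (hmem v).mpr hv⟩
      simp [val, h0]

/-- The convex functional whose critical points are the Bradley-Terry weights. -/
noncomputable def fn (β s : V → ℝ) : ℝ :=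
  (∑ v, ∑ u ∈ G.neighborFinset v, Real.log (Real.exp (s u) + Real.exp (s v))) / 2 -
    ∑ v, ((G.neighborFinset v).card - β v) * s v

lemma max_le_log (a b : ℝ) : max a b ≤ Real.log (Real.exp a + Real.exp b) := by
  have ha := Real.exp_pos a
  have hb := Real.exp_pos b
  refine max_le ?_ ?_
  · rw [Real.le_log_iff_exp_le (by positivity)]; linarith
  · rw [Real.le_log_iff_exp_le (by positivity)]; linarith

lemma sum_swap (f : V → V → ℝ) :
    ∑ v, ∑ u ∈ G.neighborFinset v, f u v = ∑ v, ∑ u ∈ G.neighborFinset v, f v u := by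
  have h1 : ∀ g : V → V → ℝ, ∑ v, ∑ u ∈ G.neighborFinset v, g u v =
      ∑ v, ∑ u, if G.Adj v u then g u v else 0 := by
    intro g
    refine Finset.sum_congr rfl fun v _ => ?_
    rw [← Finset.sum_filter]
    exact Finset.sum_congr (by ext u; simp) fun _ _ => rfl
  rw [h1 f, h1 (fun u v => f v u), Finset.sum_comm]
  refine Finset.sum_congr rfl fun v _ => Finset.sum_congr rfl fun u _ => ?_
  simp only [G.adj_comm]

lemma val_le_fn (β s : V → ℝ) : val G β s ≤ fn G β s := by
  unfold val fn
  have h1 : ∑ v, ∑ u ∈ G.neighborFinset v, max (s u) (s v) ≤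
      ∑ v, ∑ u ∈ G.neighborFinset v, Real.log (Real.exp (s u) + Real.exp (s v)) :=
    Finset.sum_le_sum fun v _ => Finset.sum_le_sum fun u _ => max_le_log _ _
  have h2 : ∑ v, ∑ u ∈ G.neighborFinset v, max (s u) (s v) +
      ∑ v, ∑ u ∈ G.neighborFinset v, min (s u) (s v) =
      2 * ∑ v, ((G.neighborFinset v).card : ℝ) * s v := by
    rw [← Finset.sum_add_distrib]
    have h3 : ∀ v, ∑ u ∈ G.neighborFinset v, max (s u) (s v) +
        ∑ u ∈ G.neighborFinset v, min (s u) (s v) =
        ∑ u ∈ G.neighborFinset v, s u + ∑ u ∈ G.neighborFinset v, s v := by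
      intro v
      rw [← Finset.sum_add_distrib, ← Finset.sum_add_distrib]
      exact Finset.sum_congr rfl fun u _ => max_add_min _ _
    rw [Finset.sum_congr rfl fun v _ => h3 v, Finset.sum_add_distrib,
      sum_swap G (fun u _ => s u)]
    simp only [Finset.sum_const, nsmul_eq_mul]
    ring
  have h4 : ∑ v, (((G.neighborFinset v).card : ℝ) - β v) * s v =
      ∑ v, ((G.neighborFinset v).card : ℝ) * s v - ∑ v, β v * s v := by
    rw [← Finset.sum_sub_distrib]
    exact Finset.sum_congr rfl fun v _ => by ring
  rw [h4]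
  linarith

lemma fn_shift (β s : V → ℝ) (hV : (E2 G univ : ℝ) = 2 * ∑ v, β v) (c : ℝ) :
    fn G β (fun v => s v + c) = fn G β s := by
  unfold fn
  have h1 : ∀ u v, Real.log (Real.exp (s u + c) + Real.exp (s v + c)) =
      Real.log (Real.exp (s u) + Real.exp (s v)) + c := by
    intro u v
    rw [Real.exp_add, Real.exp_add, ← add_mul,
      Real.log_mul (by positivity) (Real.exp_pos c).ne', Real.log_exp]
  have h2 : ∑ v, ∑ u ∈ G.neighborFinset v,
      Real.log (Real.exp (s u + c) + Real.exp (s v + c)) =
      ∑ v, ∑ u ∈ G.neighborFinset v, Real.log (Real.exp (s u) + Real.exp (s v)) +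
        (∑ v, ((G.neighborFinset v).card : ℝ)) * c := by
    rw [Finset.sum_mul, ← Finset.sum_add_distrib]
    refine Finset.sum_congr rfl fun v _ => ?_
    rw [Finset.sum_congr rfl fun u _ => h1 u v, Finset.sum_add_distrib]
    simp
  have h3 : (∑ v, ((G.neighborFinset v).card : ℝ)) = 2 * ∑ v, β v := by
    rw [← hV]
    unfold E2
    push_cast
    refine Finset.sum_congr rfl fun v _ => ?_
    congr 2
    ext u
    simp
  have h4 : ∑ v, (((G.neighborFinset v).card : ℝ) - β v) * (s v + c) =
      ∑ v, (((G.neighborFinset v).card : ℝ) - β v) * s v +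
        (∑ v, ((G.neighborFinset v).card : ℝ) - ∑ v, β v) * c := by
    rw [sub_mul, Finset.sum_mul, Finset.sum_mul, ← Finset.sum_sub_distrib,
      ← Finset.sum_add_distrib]
    exact Finset.sum_congr rfl fun v _ => by ring
  rw [h2, h4, h3]
  ring

lemma fn_continuous (β : V → ℝ) : Continuous (fn G β) := by
  unfold fn
  refine Continuous.sub (Continuous.div_const ?_ _) ?_
  · refine continuous_finsetSum _ fun v _ => continuous_finsetSum _ fun u _ => ?_
    refine Continuous.log (by fun_prop) fun s => ?_
    positivity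
  · fun_prop

/-- The functional has a global minimum. -/
lemma exists_min [Nonempty V] (β : V → ℝ) (hV : (E2 G univ : ℝ) = 2 * ∑ v, β v)
    (hX : ∀ X : Finset V, X.Nonempty → X ≠ univ → (E2 G X : ℝ) < 2 * ∑ v ∈ X, β v) :
    ∃ s : V → ℝ, ∀ s', fn G β s ≤ fn G β s' := by
  obtain ⟨δ, hδ0, hδ⟩ : ∃ δ : ℝ, 0 < δ ∧ ∀ X : Finset V, X.Nonempty → X ≠ univ →
      δ ≤ ∑ v ∈ X, β v - (E2 G X : ℝ) / 2 := by
    set T : Finset (Finset V) := {X | X.Nonempty ∧ X ≠ univ} with hT
    by_cases hne : T.Nonempty
    · obtain ⟨Y, hY, hmin⟩ := Finset.exists_min_image T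
        (fun X => ∑ v ∈ X, β v - (E2 G X : ℝ) / 2) hne
      refine ⟨∑ v ∈ Y, β v - (E2 G Y : ℝ) / 2, ?_, fun X h1 h2 => hmin X (by simp [hT, h1, h2])⟩
      simp only [hT, mem_filter, mem_univ, true_and] at hY
      have := hX Y hY.1 hY.2
      linarith
    · refine ⟨1, one_pos, fun X h1 h2 => ?_⟩
      exfalso
      exact hne ⟨X, by simp [hT, h1, h2]⟩
  set R : ℝ := |fn G β 0| / δ with hR
  have hR0 : 0 ≤ R := by positivity
  have hcomp : IsCompact (Set.Icc (0 : V → ℝ) (fun _ => R)) := isCompact_Icc
  have hne : (Set.Icc (0 : V → ℝ) (fun _ => R)).Nonempty := ⟨0, le_rfl, fun _ => hR0⟩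
  obtain ⟨s, hs, hmin⟩ := hcomp.exists_isMinOn hne (fn_continuous G β).continuousOn
  refine ⟨s, fun s' => ?_⟩
  obtain ⟨z, -, hz⟩ := Finset.exists_min_image univ s' univ_nonempty
  have h1 : fn G β s' = fn G β (fun v => s' v + -s' z) := (fn_shift G β s' hV _).symm
  rw [h1]
  set t : V → ℝ := fun v => s' v + -s' z with ht
  have ht0 : ∀ v, 0 ≤ t v := fun v => by
    have := hz v (mem_univ v)
    simp only [ht]; linarith
  have htz : t z = 0 := by simp [ht]
  by_cases hall : ∀ v, t v ≤ R
  · exact hmin ⟨fun v => ht0 v, fun v => hall v⟩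
  · push Not at hall
    obtain ⟨w, hw⟩ := hall
    have h2 := val_lower G β δ hδ0.le hδ _ t le_rfl ht0 ⟨z, htz⟩ w
    have h3 := val_le_fn G β t
    have h4 : fn G β s ≤ fn G β 0 := hmin ⟨le_rfl, fun _ => hR0⟩
    have h5 : fn G β 0 ≤ δ * R := by
      rw [hR, mul_div_cancel₀ _ hδ0.ne']
      exact le_abs_self _
    have h6 : δ * R ≤ δ * t w := mul_le_mul_of_nonneg_left hw.le hδ0.le
    linarith

/-- **Bradley-Terry weights exist.** -/
theorem bt_exists [Nonempty V] (β : V → ℝ) (hV : (E2 G univ : ℝ) = 2 * ∑ v, β v)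
    (hX : ∀ X : Finset V, X.Nonempty → X ≠ univ → (E2 G X : ℝ) < 2 * ∑ v ∈ X, β v) :
    ∃ p : V → ℝ, (∀ v, 0 < p v) ∧ ∀ v, ∑ u ∈ G.neighborFinset v, p u / (p u + p v) = β v := by
  obtain ⟨s, hs⟩ := exists_min G β hV hX
  refine ⟨fun v => Real.exp (s v), fun v => Real.exp_pos _, fun v => ?_⟩
  -- the function `t ↦ fn (s + t e_v)`
  set e : V → ℝ := Pi.single v 1 with he
  have hmin : IsLocalMin (fun t : ℝ => fn G β (fun a => s a + t * e a)) 0 := by
    refine Filter.Eventually.of_forall fun t => ?_
    simpa using hs (fun a => s a + t * e a)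
  have hder : HasDerivAt (fun t : ℝ => fn G β (fun a => s a + t * e a))
      ((∑ a, ∑ b ∈ G.neighborFinset a, (Real.exp (s b) * e b + Real.exp (s a) * e a) /
        (Real.exp (s b) + Real.exp (s a))) / 2 - ∑ a, (((G.neighborFinset a).card : ℝ) - β a) * e a)
      0 := by
    unfold fn
    refine HasDerivAt.sub (HasDerivAt.div_const ?_ _) ?_
    · refine HasDerivAt.fun_sum fun a _ => HasDerivAt.fun_sum fun b _ => ?_
      have hlin : ∀ c : V, HasDerivAt (fun t : ℝ => s c + t * e c) (e c) 0 := by
        intro c
        simpa using ((hasDerivAt_id (0 : ℝ)).mul_const (e c)).const_add (s c)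
      have hexp : ∀ c : V, HasDerivAt (fun t : ℝ => Real.exp (s c + t * e c))
          (Real.exp (s c) * e c) 0 := by
        intro c
        simpa using (hlin c).exp
      have hsum := (hexp b).add (hexp a)
      have hpos : Real.exp (s b + 0 * e b) + Real.exp (s a + 0 * e a) ≠ 0 := by positivity
      simpa using hsum.log hpos
    · refine HasDerivAt.fun_sum fun a _ => ?_
      have hlin : HasDerivAt (fun t : ℝ => s a + t * e a) (e a) 0 := by
        simpa using ((hasDerivAt_id (0 : ℝ)).mul_const (e a)).const_add (s a)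
      simpa using hlin.const_mul (((G.neighborFinset a).card : ℝ) - β a)
  have h0 := hmin.hasDerivAt_eq_zero hder
  have h1 : ∑ a, (((G.neighborFinset a).card : ℝ) - β a) * e a =
      ((G.neighborFinset v).card : ℝ) - β v := by
    rw [Finset.sum_eq_single v]
    · simp [he]
    · intro a _ ha
      simp [he, ha]
    · intro h; exact absurd (mem_univ v) h
  have h2 : ∑ a, ∑ b ∈ G.neighborFinset a, (Real.exp (s b) * e b + Real.exp (s a) * e a) /
        (Real.exp (s b) + Real.exp (s a)) =
      2 * ∑ u ∈ G.neighborFinset v, Real.exp (s v) / (Real.exp (s u) + Real.exp (s v)) := by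
    have h3 : ∑ a, ∑ b ∈ G.neighborFinset a, (Real.exp (s b) * e b + Real.exp (s a) * e a) /
        (Real.exp (s b) + Real.exp (s a)) =
        ∑ a, ∑ b ∈ G.neighborFinset a, Real.exp (s b) * e b / (Real.exp (s b) + Real.exp (s a)) +
        ∑ a, ∑ b ∈ G.neighborFinset a,
          Real.exp (s a) * e a / (Real.exp (s b) + Real.exp (s a)) := by
      rw [← Finset.sum_add_distrib]
      refine Finset.sum_congr rfl fun a _ => ?_
      rw [← Finset.sum_add_distrib]
      exact Finset.sum_congr rfl fun b _ => by rw [add_div]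
    have h4 : ∑ a, ∑ b ∈ G.neighborFinset a,
          Real.exp (s a) * e a / (Real.exp (s b) + Real.exp (s a)) =
        ∑ u ∈ G.neighborFinset v, Real.exp (s v) / (Real.exp (s u) + Real.exp (s v)) := by
      rw [Finset.sum_eq_single v]
      · simp [he]
      · intro a _ ha
        simp [he, ha]
      · intro h; exact absurd (mem_univ v) h
    have h5 : ∑ a, ∑ b ∈ G.neighborFinset a,
        Real.exp (s b) * e b / (Real.exp (s b) + Real.exp (s a)) =
        ∑ a, ∑ b ∈ G.neighborFinset a,
          Real.exp (s a) * e a / (Real.exp (s b) + Real.exp (s a)) := by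
      rw [sum_swap G (fun b a => Real.exp (s b) * e b / (Real.exp (s b) + Real.exp (s a)))]
      refine Finset.sum_congr rfl fun a _ => Finset.sum_congr rfl fun b _ => ?_
      rw [add_comm (Real.exp (s a))]
    rw [h3, h5, h4]; ring
  have h6 : ∑ u ∈ G.neighborFinset v, Real.exp (s u) / (Real.exp (s u) + Real.exp (s v)) +
      ∑ u ∈ G.neighborFinset v, Real.exp (s v) / (Real.exp (s u) + Real.exp (s v)) =
      (G.neighborFinset v).card := by
    rw [← Finset.sum_add_distrib, Finset.card_eq_sum_ones]
    push_cast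
    refine Finset.sum_congr rfl fun u _ => ?_
    rw [← add_div]
    exact div_self (by positivity)
  rw [h1, h2] at h0
  linarith

end Pool.Agent.W986.BT
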