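import Pool.Agent.W986.HubComp

/-!
# The bipartite bound on a surface
-/

set_option autoImplicit false

open Finset

namespace Pool.Agent.W986

open Pool.Agent.DC76

section sub

variable {V : Type} [Fintype V] [DecidableEq V]

/-- A bipartite subgraph `K` with all edges inside the nonempty set `Y` of a connected graph with
facial walks and `V - E + F = χ` has at most `2|Y| - 2χ` or at most `|Y| + 1 - χ` edges. -/
theorem sub_bound_bip {G : SimpleGraph V} (hG : Conn G Set.univ) {F : Type} [Fintype F]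
    (M : FacialWalks G F) (χ : ℤ)
    (hχ : (Fintype.card V : ℤ) - G.edgeSet.ncard + Fintype.card F = χ)
    (K : SimpleGraph V) (hKG : ∀ u v, K.Adj u v → G.Adj u v) (Y : Finset V) (hY : Y.Nonempty)
    (hK : ∀ u v, K.Adj u v → u ∈ Y ∧ v ∈ Y) {P : Set V}
    (hP : ∀ u v, K.Adj u v → (u ∈ P ↔ v ∉ P)) :
    (K.edgeSet.ncard : ℤ) ≤ 2 * Y.card - 2 * χ ∨ (K.edgeSet.ncard : ℤ) ≤ Y.card + 1 - χ := by
  classical
  have hfin : Fintype (Quotient (cls M K)) := Fintype.ofFinite _
  have h1 := finrank_Z_ge K Y hY hK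
  have h2 := finrank_Z hG ⟨hY.choose⟩
  have h3 := face_rank M
  have hle : Z K Set.univ ≤ Z G Set.univ := fun z hz =>
    ⟨hz.1, fun u v h => ⟨hKG u v (hz.2.1 u v h).1, Set.mem_univ _, Set.mem_univ _⟩, hz.2.2⟩
  have hWle : Submodule.span (ZMod 2) (Set.range (face M)) ≤ Z G Set.univ := by
    rw [Submodule.span_le]
    rintro _ ⟨f, rfl⟩
    exact face_mem M f
  have h4 := Submodule.finrank_sup_add_finrank_inf_eq
    (Submodule.span (ZMod 2) (Set.range (face M))) (Z K Set.univ)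
  have h5 := Submodule.finrank_mono (sup_le hWle hle)
  have h6 := Submodule.finrank_mono (inf_le_span M K)
  by_cases hn : (univ.filter fun j => bsum M K j ≠ 0).Nonempty
  · left
    have h7 := rank_le (bsum M K) (sum_bsum M K) hn
    have h8 := cnt_sum_le K (bsum M K) (fun j u v h => bsum_off M K j u v h) (bsum_cov M K)
    have h9 : 8 * (univ.filter fun j => bsum M K j ≠ 0).card ≤ ∑ j, cnt (bsum M K j) := by
      rw [mul_comm, ← smul_eq_mul, ← Finset.sum_const]
      refine le_trans (Finset.sum_le_sum fun j hj => ?_)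
        (Finset.sum_le_sum_of_subset (Finset.subset_univ _))
      exact eight_le_cnt hP (bsum_mem M K j) (mem_filter.1 hj).2
    omega
  · right
    have h7 : Submodule.span (ZMod 2) (Set.range (bsum M K)) = ⊥ := by
      rw [Submodule.span_eq_bot]
      rintro _ ⟨j, rfl⟩
      by_contra h
      exact hn ⟨j, mem_filter.2 ⟨mem_univ _, h⟩⟩
    rw [h7, finrank_bot] at h6
    omega

end sub

section surf

variable {U : Type}

/-- The edges between `Y` and `Z`. -/
def btwG (H : SimpleGraph U) (Y Z : Set U) : SimpleGraph U where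
  Adj u v := H.Adj u v ∧ ((u ∈ Y ∧ v ∈ Z) ∨ (u ∈ Z ∧ v ∈ Y))
  symm := ⟨fun _ _ h => ⟨h.1.symm, h.2.symm.imp (fun h => ⟨h.2, h.1⟩) (fun h => ⟨h.2, h.1⟩)⟩⟩
  loopless := ⟨fun x h => H.loopless.irrefl x h.1⟩

theorem onSurface_sub {χ : ℤ} {H K : SimpleGraph U} (hK : K ≤ H) (h : OnSurface χ H) :
    OnSurface χ K := by
  obtain ⟨V, F, i1, i2, i3, G, f, h1, h2, h3, h4, h5⟩ := h
  exact ⟨V, F, i1, i2, i3, G, f, h1, fun x y hxy => h2 x y (hK hxy), h3, h4, h5⟩

/-- A bipartite graph on a surface of Euler characteristic `χ` has at most `2|X| - 2χ` or at most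
`|X| + 1 - χ` edges inside every nonempty set `X`. -/
theorem edge_bound_bip (H : SimpleGraph U) (χ : ℤ) (h : OnSurface χ H) (X : Finset U)
    (hX : X.Nonempty) {P : Set U} (hP : ∀ u v, H.Adj u v → (u ∈ P ↔ v ∉ P)) :
    (ein H X : ℤ) ≤ 2 * X.card - 2 * χ ∨ (ein H X : ℤ) ≤ X.card + 1 - χ := by
  classical
  obtain ⟨V, F, _, _, _, G, f, hf, hHG, hG, ⟨M⟩, hM⟩ := h
  have hconn := conn_univ hG
  let K : SimpleGraph V :=
    { Adj := fun a b => ∃ x ∈ X, ∃ y ∈ X, H.Adj x y ∧ f x = a ∧ f y = b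
      symm := ⟨by
        rintro a b ⟨x, hx, y, hy, hxy, h1, h2⟩
        exact ⟨y, hy, x, hx, hxy.symm, h2, h1⟩⟩
      loopless := ⟨by
        rintro a ⟨x, hx, y, hy, hxy, h1, h2⟩
        exact hxy.ne (hf (h1.trans h2.symm))⟩ }
  have hcard : K.edgeSet.ncard = ein H X := by
    unfold ein
    rw [← Set.ncard_image_of_injective _ (Sym2.map.injective hf)]
    congr 1
    ext e
    constructor
    · intro he
      induction e using Sym2.ind with
      | _ a b =>
        obtain ⟨x, hx, y, hy, hxy, h1, h2⟩ := (K.mem_edgeSet).1 he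
        refine ⟨s(x, y), ⟨(H.mem_edgeSet).2 hxy, ?_⟩, ?_⟩
        · intro v hv
          rcases Sym2.mem_iff.1 hv with rfl | rfl
          · exact hx
          · exact hy
        · rw [Sym2.map_mk, h1, h2]
    · rintro ⟨e', ⟨he1, he2⟩, rfl⟩
      induction e' using Sym2.ind with
      | _ x y =>
        rw [Sym2.map_mk]
        exact (K.mem_edgeSet).2 ⟨x, he2 x (Sym2.mem_mk_left x y), y,
          he2 y (Sym2.mem_mk_right x y), (H.mem_edgeSet).1 he1, rfl, rfl⟩
  have h1 := sub_bound_bip hconn M χ hM K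
    (by
      rintro a b ⟨x, hx, y, hy, hxy, rfl, rfl⟩
      exact hHG x y hxy)
    (X.map ⟨f, hf⟩) (by simpa using hX)
    (by
      rintro a b ⟨x, hx, y, hy, hxy, rfl, rfl⟩
      exact ⟨Finset.mem_map.2 ⟨x, hx, rfl⟩, Finset.mem_map.2 ⟨y, hy, rfl⟩⟩)
    (P := f '' P)
    (by
      rintro a b ⟨x, hx, y, hy, hxy, rfl, rfl⟩
      have h2 : ∀ w, f w ∈ f '' P ↔ w ∈ P := fun w => by
        constructor
        · rintro ⟨w', h3, h4⟩
          rw [← hf h4]
          exact h3
        · exact fun h3 => ⟨w, h3, rfl⟩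
      rw [h2, h2]
      exact hP x y hxy)
  rw [hcard, Finset.card_map] at h1
  exact h1

open Classical in
/-- The number of edges between two disjoint sets. -/
theorem btw_ein (H : SimpleGraph U) {Y Z : Finset U} (hYZ : Disjoint Y Z) :
    ein (btwG H Y Z) (Y ∪ Z) = dd H Y Z := by
  have h1 := dd_ein (btwG H Y Z) (Y ∪ Z)
  rw [dd_union_left _ hYZ, dd_union_right _ hYZ, dd_union_right _ hYZ, dd_comm _ Z Y] at h1
  have h2 : dd (btwG H Y Z) Y Z = dd H Y Z := by
    unfold dd
    refine sum_congr rfl fun y hy => sum_congr rfl fun z hz => ?_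
    congr 1
    exact propext ⟨fun h => h.1, fun h => ⟨h, Or.inl ⟨hy, hz⟩⟩⟩
  have h3 : ∀ X : Finset U, (X = Y ∨ X = Z) → dd (btwG H Y Z) X X = 0 := by
    intro X hX
    unfold dd
    refine sum_eq_zero fun u hu => sum_eq_zero fun v hv => ib_neg ?_
    rintro ⟨_, ⟨h4, h5⟩ | ⟨h4, h5⟩⟩
    · rcases hX with rfl | rfl
      · exact Finset.disjoint_left.1 hYZ hv h5
      · exact Finset.disjoint_left.1 hYZ h4 hu
    · rcases hX with rfl | rfl
      · exact Finset.disjoint_left.1 hYZ hu h4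
      · exact Finset.disjoint_left.1 hYZ h5 hv
  rw [h2, h3 Y (Or.inl rfl), h3 Z (Or.inr rfl)] at h1
  omega

open Classical in
/-- At most `2(|Y| + |Z|) - 2χ` edges between disjoint sets `Y`, `Z`, for `χ = 1`. -/
theorem dd_le_proj {H : SimpleGraph U} {χ : ℤ} (hχ : 1 ≤ χ) (h : OnSurface χ H) {Y Z : Finset U}
    (hYZ : Disjoint Y Z) (hne : (Y ∪ Z).Nonempty) : dd H Y Z + 2 ≤ 2 * (Y.card + Z.card) := by
  have h1 := edge_bound_bip (btwG H Y Z) χ (onSurface_sub (fun _ _ h => h.1) h) (Y ∪ Z) hne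
    (P := (Y : Set U)) (by
      rintro u v ⟨_, ⟨h4, h5⟩ | ⟨h4, h5⟩⟩
      · exact ⟨fun _ h6 => Finset.disjoint_left.1 hYZ h6 h5, fun _ => h4⟩
      · exact ⟨fun h6 => absurd h4 (fun h7 => Finset.disjoint_left.1 hYZ h6 h7),
          fun h6 => absurd h5 h6⟩)
  rw [btw_ein H hYZ, Finset.card_union_of_disjoint hYZ] at h1
  have h2 : 0 < (Y ∪ Z).card := Finset.card_pos.2 hne
  rw [Finset.card_union_of_disjoint hYZ] at h2
  by_cases h3 : Y.card + Z.card = 1
  · have h4 : dd H Y Z = 0 := by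
      have h5 : Y.card = 0 ∨ Z.card = 0 := by omega
      unfold dd
      rcases h5 with h5 | h5
      · rw [Finset.card_eq_zero.1 h5, sum_empty]
      · rw [Finset.card_eq_zero.1 h5]
        exact sum_eq_zero fun _ _ => sum_empty
    omega
  · push_cast at h1
    omega

open Classical in
/-- At most `2(|Y| + |Z|)` edges between disjoint sets `Y`, `Z` on the torus. -/
theorem dd_le_torus {H : SimpleGraph U} {χ : ℤ} (hχ : 0 ≤ χ) (h : OnSurface χ H) {Y Z : Finset U}
    (hYZ : Disjoint Y Z) : dd H Y Z ≤ 2 * (Y.card + Z.card) := by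
  by_cases hne : (Y ∪ Z).Nonempty
  · have h1 := edge_bound_bip (btwG H Y Z) χ (onSurface_sub (fun _ _ h => h.1) h) (Y ∪ Z) hne
      (P := (Y : Set U)) (by
        rintro u v ⟨_, ⟨h4, h5⟩ | ⟨h4, h5⟩⟩
        · exact ⟨fun _ h6 => Finset.disjoint_left.1 hYZ h6 h5, fun _ => h4⟩
        · exact ⟨fun h6 => absurd h4 (fun h7 => Finset.disjoint_left.1 hYZ h6 h7),
            fun h6 => absurd h5 h6⟩)
    rw [btw_ein H hYZ, Finset.card_union_of_disjoint hYZ] at h1
    have h2 : 0 < (Y ∪ Z).card := Finset.card_pos.2 hne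
    rw [Finset.card_union_of_disjoint hYZ] at h2
    push_cast at h1
    omega
  · rw [Finset.not_nonempty_iff_eq_empty, Finset.union_eq_empty] at hne
    unfold dd
    rw [hne.1, sum_empty]
    exact Nat.zero_le _

end surf

end Pool.Agent.W986
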