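import Pool.Agent.W986.HubComp

/-!
# Sparse graphs with marked vertices: the statement (C2)

`pot G A X = 3|X| - e(X) - |A n X|`.  A pair `(G, A)` on the vertex set `U` is legal if
`pot G A X ≥ 2` for all nonempty `X ⊆ U`; it is colourable if there are four colours such that every
vertex has at most one neighbour of its own colour, and no marked vertex has such a neighbour.
All graphs live on one type `V`; the vertex set is a finset `U`.
-/

set_option autoImplicit false

open Finset

namespace Pool.Agent.W986.C2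

open Pool.Agent.W986

variable {V : Type}

/-- The number of marked vertices in `X`. -/
noncomputable def mk (A X : Finset V) : ℕ := ∑ x ∈ X, ib (x ∈ A)

/-- `3|X| - e(X) - |A n X|`. -/
noncomputable def pot (G : SimpleGraph V) (A X : Finset V) : ℤ :=
  3 * (X.card : ℤ) - (ein G X : ℤ) - (mk A X : ℤ)

theorem two_pot (G : SimpleGraph V) (A X : Finset V) :
    2 * pot G A X = 6 * (X.card : ℤ) - (dd G X X : ℤ) - 2 * (mk A X : ℤ) := by
  have h := dd_ein G X
  unfold pot
  have h' : (dd G X X : ℤ) = 2 * (ein G X : ℤ) := by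
    rw [h]
    push_cast
    ring
  rw [h']
  ring

open Classical in
/-- The number of neighbours of `v` in `X`. -/
noncomputable def nb (G : SimpleGraph V) (X : Finset V) (v : V) : ℕ :=
  (X.filter (fun y => G.Adj v y)).card

theorem nb_eq (G : SimpleGraph V) (X : Finset V) (v : V) [DecidablePred fun y => G.Adj v y] :
    nb G X v = (X.filter (fun y => G.Adj v y)).card := by
  unfold nb
  congr

theorem dd_single (G : SimpleGraph V) (X : Finset V) (v : V) : dd G {v} X = nb G X v := by
  classical
  unfold dd nb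
  rw [Finset.sum_singleton, card_ib]

theorem dd_eq_sum (G : SimpleGraph V) (X Y : Finset V) : dd G X Y = ∑ x ∈ X, nb G Y x := by
  classical
  unfold dd nb
  refine Finset.sum_congr rfl fun x _ => ?_
  rw [card_ib]

theorem nb_mono (G : SimpleGraph V) {X Y : Finset V} (h : X ⊆ Y) (v : V) : nb G X v ≤ nb G Y v := by
  classical
  unfold nb
  exact Finset.card_le_card (Finset.filter_subset_filter _ h)

/-- The potential of a disjoint union. -/
theorem pot_union [DecidableEq V] (G : SimpleGraph V) (A : Finset V) {X Y : Finset V}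
    (h : Disjoint X Y) : pot G A (X ∪ Y) = pot G A X + pot G A Y - (dd G X Y : ℤ) := by
  classical
  have h1 := two_pot G A (X ∪ Y)
  have h2 := two_pot G A X
  have h3 := two_pot G A Y
  have h4 : dd G (X ∪ Y) (X ∪ Y) = dd G X X + dd G Y Y + 2 * dd G X Y := by
    rw [dd_union_left G h, dd_union_right G h, dd_union_right G h, dd_comm G Y X]
    ring
  have h5 : (X ∪ Y).card = X.card + Y.card := Finset.card_union_of_disjoint h
  have h6 : mk A (X ∪ Y) = mk A X + mk A Y := by
    unfold mk
    exact Finset.sum_union h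
  rw [h4, h5, h6] at h1
  push_cast at h1
  linarith

/-- Submodularity with the missing edges. -/
theorem pot_inter_union [DecidableEq V] (G : SimpleGraph V) (A X Y : Finset V) :
    pot G A (X ∪ Y) + pot G A (X ∩ Y) + (dd G (X \ Y) (Y \ X) : ℤ) = pot G A X + pot G A Y := by
  classical
  have hX : X = (X \ Y) ∪ (X ∩ Y) := by
    ext a
    simp only [Finset.mem_union, Finset.mem_sdiff, Finset.mem_inter]
    tauto
  have hY : Y = (Y \ X) ∪ (X ∩ Y) := by
    ext a
    simp only [Finset.mem_union, Finset.mem_sdiff, Finset.mem_inter]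
    tauto
  have hd1 : Disjoint (X \ Y) (X ∩ Y) := by
    rw [Finset.disjoint_left]
    intro a h1 h2
    exact (Finset.mem_sdiff.1 h1).2 (Finset.mem_inter.1 h2).2
  have hd2 : Disjoint (Y \ X) (X ∩ Y) := by
    rw [Finset.disjoint_left]
    intro a h1 h2
    exact (Finset.mem_sdiff.1 h1).2 (Finset.mem_inter.1 h2).1
  have hU : X ∪ Y = (X \ Y) ∪ Y := by
    ext a
    simp only [Finset.mem_union, Finset.mem_sdiff]
    tauto
  have hd3 : Disjoint (X \ Y) Y := Finset.sdiff_disjoint
  have e1 : pot G A X = pot G A (X \ Y) + pot G A (X ∩ Y) - (dd G (X \ Y) (X ∩ Y) : ℤ) := by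
    conv_lhs => rw [hX]
    exact pot_union G A hd1
  have e3 : pot G A (X ∪ Y) = pot G A (X \ Y) + pot G A Y - (dd G (X \ Y) Y : ℤ) := by
    rw [hU]
    exact pot_union G A hd3
  have e4 : dd G (X \ Y) Y = dd G (X \ Y) (Y \ X) + dd G (X \ Y) (X ∩ Y) := by
    rw [← dd_union_right G hd2, ← hY]
  rw [e3, e1, e4]
  push_cast
  ring

theorem pot_submod [DecidableEq V] (G : SimpleGraph V) (A X Y : Finset V) :
    pot G A (X ∪ Y) + pot G A (X ∩ Y) ≤ pot G A X + pot G A Y := by
  have h := pot_inter_union G A X Y
  have h2 : (0 : ℤ) ≤ (dd G (X \ Y) (Y \ X) : ℤ) := Int.natCast_nonneg _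
  linarith

theorem pot_empty (G : SimpleGraph V) (A : Finset V) : pot G A ∅ = 0 := by
  classical
  have h := two_pot G A ∅
  have h2 : dd G ∅ ∅ = 0 := by
    unfold dd
    exact Finset.sum_empty
  have h3 : mk A ∅ = 0 := by
    unfold mk
    exact Finset.sum_empty
  rw [h2, h3, Finset.card_empty] at h
  push_cast at h
  linarith

theorem pot_singleton (G : SimpleGraph V) (A : Finset V) (v : V) :
    pot G A {v} = 3 - (ib (v ∈ A) : ℤ) := by
  have h := two_pot G A {v}
  have h2 : mk A {v} = ib (v ∈ A) := by
    unfold mk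
    exact Finset.sum_singleton _ _
  rw [dd_singleton_self, h2, Finset.card_singleton] at h
  push_cast at h
  linarith

open Classical in
/-- The potential after adding one vertex. -/
theorem pot_insert (G : SimpleGraph V) (A : Finset V) {X : Finset V} {v : V}
    (hv : v ∉ X) :
    pot G A (insert v X) = pot G A X + 3 - (nb G X v : ℤ) - (ib (v ∈ A) : ℤ) := by
  have hd : Disjoint ({v} : Finset V) X := Finset.disjoint_singleton_left.2 hv
  have h := pot_union G A hd
  rw [dd_single] at h
  have h3 := pot_singleton G A v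
  rw [Finset.insert_eq, h, h3]
  ring

/-- The potential only depends on the graph and the marks inside `X`. -/
theorem pot_congr {G G' : SimpleGraph V} {A A' X : Finset V}
    (hG : ∀ x ∈ X, ∀ y ∈ X, (G.Adj x y ↔ G'.Adj x y)) (hA : ∀ x ∈ X, (x ∈ A ↔ x ∈ A')) :
    pot G A X = pot G' A' X := by
  classical
  have h1 := two_pot G A X
  have h2 := two_pot G' A' X
  have h3 : dd G X X = dd G' X X := by
    unfold dd
    refine Finset.sum_congr rfl fun x hx => Finset.sum_congr rfl fun y hy => ?_
    by_cases h : G.Adj x y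
    · rw [ib_pos h, ib_pos ((hG x hx y hy).1 h)]
    · rw [ib_neg h, ib_neg (fun h' => h ((hG x hx y hy).2 h'))]
  have h4 : mk A X = mk A' X := by
    unfold mk
    refine Finset.sum_congr rfl fun x hx => ?_
    by_cases h : x ∈ A
    · rw [ib_pos h, ib_pos ((hA x hx).1 h)]
    · rw [ib_neg h, ib_neg (fun h' => h ((hA x hx).2 h'))]
  rw [h3, h4] at h1
  linarith

/-- Fewer edges and fewer marks: larger potential. -/
theorem pot_mono {G G' : SimpleGraph V} {A A' X : Finset V}
    (hG : ∀ x ∈ X, ∀ y ∈ X, G'.Adj x y → G.Adj x y) (hA : ∀ x ∈ X, x ∈ A' → x ∈ A) :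
    pot G A X ≤ pot G' A' X := by
  classical
  have h1 := two_pot G A X
  have h2 := two_pot G' A' X
  have h3 : dd G' X X ≤ dd G X X := by
    unfold dd
    refine Finset.sum_le_sum fun x hx => Finset.sum_le_sum fun y hy => ?_
    by_cases h : G'.Adj x y
    · rw [ib_pos h, ib_pos (hG x hx y hy h)]
    · rw [ib_neg h]
      exact Nat.zero_le _
  have h4 : mk A' X ≤ mk A X := by
    unfold mk
    refine Finset.sum_le_sum fun x hx => ?_
    by_cases h : x ∈ A'
    · rw [ib_pos h, ib_pos (hA x hx h)]
    · rw [ib_neg h]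
      exact Nat.zero_le _
  have h3' : (dd G' X X : ℤ) ≤ (dd G X X : ℤ) := by exact_mod_cast h3
  have h4' : (mk A' X : ℤ) ≤ (mk A X : ℤ) := by exact_mod_cast h4
  linarith

/-- The potential after marking one more vertex. -/
theorem pot_mark [DecidableEq V] (G : SimpleGraph V) (A X : Finset V) (z : V) :
    pot G A X - (ib (z ∈ X) : ℤ) ≤ pot G (insert z A) X := by
  have h : mk (insert z A) X ≤ mk A X + ib (z ∈ X) := by
    unfold mk
    have h1 : ∀ x ∈ X, ib (x ∈ insert z A) ≤ ib (x ∈ A) + ib (x = z) := by
      intro x _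
      by_cases hx : x = z
      · rw [ib_pos hx]
        exact (ib_le _).trans (Nat.le_add_left _ _)
      · by_cases hA : x ∈ A
        · rw [ib_pos hA]
          exact (ib_le _).trans (Nat.le_add_right _ _)
        · rw [ib_neg (p := x ∈ insert z A)]
          · exact Nat.zero_le _
          · intro h
            rcases Finset.mem_insert.1 h with h | h
            · exact hx h
            · exact hA h
    refine (Finset.sum_le_sum h1).trans ?_
    rw [Finset.sum_add_distrib]
    refine Nat.add_le_add_left ?_ _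
    by_cases hz : z ∈ X
    · rw [ib_pos hz, Finset.sum_eq_single z]
      · exact ib_le _
      · intro b _ hb
        exact ib_neg hb
      · intro h
        exact absurd hz h
    · rw [ib_neg hz]
      refine le_of_eq (Finset.sum_eq_zero fun x hx => ib_neg ?_)
      rintro rfl
      exact hz hx
  have h' : (mk (insert z A) X : ℤ) ≤ (mk A X : ℤ) + (ib (z ∈ X) : ℤ) := by exact_mod_cast h
  unfold pot
  linarith

/-- Legal pairs. -/
def Leg (G : SimpleGraph V) (A U : Finset V) : Prop :=
  ∀ X : Finset V, X ⊆ U → X.Nonempty → 2 ≤ pot G A X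

theorem Leg.mono {G : SimpleGraph V} {A U U' : Finset V} (h : Leg G A U) (hU : U' ⊆ U) :
    Leg G A U' := fun X hX hne => h X (hX.trans hU) hne

/-- Good colourings: every vertex has at most one neighbour of its own colour, a marked vertex has
none. -/
def Good (G : SimpleGraph V) (A U : Finset V) (c : V → Fin 4) : Prop :=
  (∀ v ∈ U, ∀ y ∈ U, ∀ z ∈ U, G.Adj v y → G.Adj v z → c y = c v → c z = c v → y = z) ∧
  (∀ v ∈ U, v ∈ A → ∀ y ∈ U, G.Adj v y → c y ≠ c v)

/-- The pair has a good colouring. -/
def Col (G : SimpleGraph V) (A U : Finset V) : Prop := ∃ c, Good G A U c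

theorem Good.mono {G G' : SimpleGraph V} {A A' U U' : Finset V} {c : V → Fin 4}
    (h : Good G A U c) (hU : U' ⊆ U) (hG : ∀ x ∈ U', ∀ y ∈ U', G'.Adj x y → G.Adj x y)
    (hA : ∀ x ∈ U', x ∈ A' → x ∈ A) : Good G' A' U' c := by
  refine ⟨?_, ?_⟩
  · intro v hv y hy z hz h1 h2 h3 h4
    exact h.1 v (hU hv) y (hU hy) z (hU hz) (hG v hv y hy h1) (hG v hv z hz h2) h3 h4
  · intro v hv hA' y hy h1
    exact h.2 v (hU hv) (hA v hv hA') y (hU hy) (hG v hv y hy h1)

/-- Permuting the colours. -/
theorem Good.perm {G : SimpleGraph V} {A U : Finset V} {c : V → Fin 4}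
    (h : Good G A U c) (σ : Fin 4 → Fin 4) (hσ : Function.Injective σ) :
    Good G A U (fun v => σ (c v)) := by
  refine ⟨?_, ?_⟩
  · intro v hv y hy z hz h1 h2 h3 h4
    exact h.1 v hv y hy z hz h1 h2 (hσ h3) (hσ h4)
  · intro v hv hA y hy h1 h2
    exact h.2 v hv hA y hy h1 (hσ h2)

/-- A critical pair: legal, not colourable, all legal pairs with fewer vertices are colourable, and
so are all legal pairs with the same number of vertices and larger potential. -/
structure Crit (G : SimpleGraph V) (A U : Finset V) : Prop where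
  leg : Leg G A U
  ncol : ¬ Col G A U
  sub : ∀ (G' : SimpleGraph V) (A' U' : Finset V), U'.card < U.card → Leg G' A' U' → Col G' A' U'
  top : ∀ (G' : SimpleGraph V) (A' U' : Finset V), U'.card = U.card → Leg G' A' U' →
    pot G A U < pot G' A' U' → Col G' A' U'

theorem pot_le_card (G : SimpleGraph V) (A X : Finset V) : pot G A X ≤ 3 * (X.card : ℤ) := by
  unfold pot
  have h1 : (0 : ℤ) ≤ (ein G X : ℤ) := Int.natCast_nonneg _
  have h2 : (0 : ℤ) ≤ (mk A X : ℤ) := Int.natCast_nonneg _
  linarith

/-- If some legal pair is not colourable, then there is a critical pair. -/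
theorem exists_crit {G : SimpleGraph V} {A U : Finset V} (h1 : Leg G A U) (h2 : ¬ Col G A U) :
    ∃ (G' : SimpleGraph V) (A' U' : Finset V), Crit G' A' U' := by
  classical
  have hex : ∃ n, ∃ (G' : SimpleGraph V) (A' U' : Finset V), Leg G' A' U' ∧ ¬ Col G' A' U' ∧
      U'.card = n := ⟨U.card, G, A, U, h1, h2, rfl⟩
  set n := Nat.find hex with hn
  have hn1 := Nat.find_spec hex
  have hex2 : ∃ k : ℕ, ∃ (G' : SimpleGraph V) (A' U' : Finset V), Leg G' A' U' ∧ ¬ Col G' A' U' ∧
      U'.card = n ∧ 3 * (n : ℤ) - pot G' A' U' = (k : ℤ) := by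
    obtain ⟨G', A', U', h3, h4, h5⟩ := hn1
    refine ⟨(3 * (n : ℤ) - pot G' A' U').toNat, G', A', U', h3, h4, h5, ?_⟩
    have h6 := pot_le_card G' A' U'
    rw [h5] at h6
    rw [Int.toNat_of_nonneg (by linarith)]
  set k := Nat.find hex2 with hk
  obtain ⟨G', A', U', h3, h4, h5, h6⟩ := Nat.find_spec hex2
  refine ⟨G', A', U', h3, h4, ?_, ?_⟩
  · intro G'' A'' U'' h7 h8
    by_contra h9
    have h10 := Nat.find_min' hex ⟨G'', A'', U'', h8, h9, rfl⟩
    rw [h5] at h7
    exact absurd h10 (by omega)
  · intro G'' A'' U'' h7 h8 h9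
    by_contra h10
    have h11 := pot_le_card G'' A'' U''
    rw [h7, h5] at h11
    have h12 := Nat.find_min' hex2 (m := (3 * (n : ℤ) - pot G'' A'' U'').toNat)
      ⟨G'', A'', U'', h8, h10, h7.trans h5, by rw [Int.toNat_of_nonneg (by linarith)]⟩
    have h13 : (k : ℤ) ≤ 3 * (n : ℤ) - pot G'' A'' U'' := by
      have h14 : ((3 * (n : ℤ) - pot G'' A'' U'').toNat : ℤ) = 3 * (n : ℤ) - pot G'' A'' U'' :=
        Int.toNat_of_nonneg (by linarith)
      rw [← h14]
      exact_mod_cast h12
    rw [← h6] at h13
    linarith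

section colour

variable [DecidableEq V] {G : SimpleGraph V} {A U : Finset V} {c : V → Fin 4}

/-- Give `v` a colour that does not occur at its neighbours. -/
theorem Good.free {v : V} {i : Fin 4} (h : Good G A (U.erase v) c)
    (hi : ∀ y ∈ U, G.Adj v y → c y ≠ i) : Good G A U (Function.update c v i) := by
  have hne : ∀ y ∈ U, G.Adj v y → Function.update c v i y = c y := by
    intro y _ hy
    exact Function.update_of_ne hy.ne' _ _
  have hv : Function.update c v i v = i := Function.update_self _ _ _
  refine ⟨?_, ?_⟩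
  · intro w hw y hy z hz h1 h2 h3 h4
    by_cases hwv : w = v
    · subst hwv
      rw [hne y hy h1, hv] at h3
      exact absurd h3 (hi y hy h1)
    · have hwc : Function.update c v i w = c w := Function.update_of_ne hwv _ _
      rw [hwc] at h3 h4
      have hyv : y ≠ v := by
        intro hyv
        subst hyv
        rw [hv] at h3
        exact hi w hw h1.symm h3.symm
      have hzv : z ≠ v := by
        intro hzv
        subst hzv
        rw [hv] at h4
        exact hi w hw h2.symm h4.symm
      rw [Function.update_of_ne hyv] at h3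
      rw [Function.update_of_ne hzv] at h4
      exact h.1 w (Finset.mem_erase.2 ⟨hwv, hw⟩) y (Finset.mem_erase.2 ⟨hyv, hy⟩) z
        (Finset.mem_erase.2 ⟨hzv, hz⟩) h1 h2 h3 h4
  · intro w hw hwA y hy h1 h2
    by_cases hwv : w = v
    · subst hwv
      rw [hne y hy h1, hv] at h2
      exact hi y hy h1 h2
    · rw [Function.update_of_ne hwv] at h2
      by_cases hyv : y = v
      · subst hyv
        rw [hv] at h2
        exact hi w hw h1.symm h2.symm
      · rw [Function.update_of_ne hyv] at h2
        exact h.2 w (Finset.mem_erase.2 ⟨hwv, hw⟩) hwA y (Finset.mem_erase.2 ⟨hyv, hy⟩) h1 h2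

/-- Give the unmarked vertex `v` the colour of its neighbour `z`, which is unmarked and has no
neighbour of its own colour so far, if no other neighbour of `v` has this colour. -/
theorem Good.host {v z : V} (h : Good G (insert z A) (U.erase v) c) (hv : v ∉ A)
    (hz : z ∉ A) (hzU : z ∈ U) (hvz : G.Adj v z)
    (hi : ∀ y ∈ U, G.Adj v y → c y = c z → y = z) :
    Good G A U (Function.update c v (c z)) := by
  have hvv : Function.update c v (c z) v = c z := Function.update_self _ _ _
  have hzv : z ≠ v := hvz.ne'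
  have hz' : z ∈ U.erase v := Finset.mem_erase.2 ⟨hzv, hzU⟩
  have hz2 := h.2 z hz' (Finset.mem_insert_self _ _)
  refine ⟨?_, ?_⟩
  · intro w hw y hy x hx h1 h2 h3 h4
    by_cases hwv : w = v
    · subst hwv
      rw [Function.update_of_ne h1.ne', hvv] at h3
      rw [Function.update_of_ne h2.ne', hvv] at h4
      rw [hi y hy h1 h3, hi x hx h2 h4]
    · rw [Function.update_of_ne hwv] at h3 h4
      have hw' : w ∈ U.erase v := Finset.mem_erase.2 ⟨hwv, hw⟩
      by_cases hwz : w = z
      · subst hwz
        have key : ∀ y ∈ U, G.Adj w y → Function.update c v (c w) y = c w → y = v := by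
          intro y hy h1 h3
          by_contra hyv
          rw [Function.update_of_ne hyv] at h3
          exact hz2 y (Finset.mem_erase.2 ⟨hyv, hy⟩) h1 h3
        rw [key y hy h1 h3, key x hx h2 h4]
      · have hyv : y ≠ v := by
          intro hyv
          subst hyv
          rw [hvv] at h3
          exact hwz (hi w hw h1.symm h3.symm)
        have hxv : x ≠ v := by
          intro hxv
          subst hxv
          rw [hvv] at h4
          exact hwz (hi w hw h2.symm h4.symm)
        rw [Function.update_of_ne hyv] at h3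
        rw [Function.update_of_ne hxv] at h4
        exact h.1 w hw' y (Finset.mem_erase.2 ⟨hyv, hy⟩) x (Finset.mem_erase.2 ⟨hxv, hx⟩)
          h1 h2 h3 h4
  · intro w hw hwA y hy h1 h2
    have hwv : w ≠ v := fun h => hv (h ▸ hwA)
    have hwz : w ≠ z := fun h => hz (h ▸ hwA)
    rw [Function.update_of_ne hwv] at h2
    have hw' : w ∈ U.erase v := Finset.mem_erase.2 ⟨hwv, hw⟩
    by_cases hyv : y = v
    · subst hyv
      rw [hvv] at h2
      exact hwz (hi w hw h1.symm h2.symm)
    · rw [Function.update_of_ne hyv] at h2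
      exact h.2 w hw' (Finset.mem_insert_of_mem hwA) y (Finset.mem_erase.2 ⟨hyv, hy⟩) h1 h2

end colour

end Pool.Agent.W986.C2
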