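import Pool.Agent.W986.C2Basic

/-!
# (C2): critical pairs

The palette lemma (replace a set by a marked complete graph on four vertices), degrees, unmarked
vertices of degree 4 and 5.
-/

set_option autoImplicit false

open Finset

namespace Pool.Agent.W986.C2

open Pool.Agent.W986

variable {V : Type}

theorem nb_lt (G : SimpleGraph V) {X : Finset V} {v : V} (hv : v ∈ X) : nb G X v + 1 ≤ X.card := by
  classical
  rw [nb_eq]
  have h : X.filter (fun y => G.Adj v y) ⊆ X.erase v := by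
    intro y hy
    rw [Finset.mem_filter] at hy
    exact Finset.mem_erase.2 ⟨hy.2.ne', hy.1⟩
  have h2 := Finset.card_le_card h
  rw [Finset.card_erase_of_mem hv] at h2
  have h3 : 0 < X.card := Finset.card_pos.2 ⟨v, hv⟩
  omega

theorem dd_le (G : SimpleGraph V) (X : Finset V) : dd G X X + X.card ≤ X.card * X.card := by
  rw [dd_eq_sum]
  have h : ∑ x ∈ X, (nb G X x + 1) ≤ ∑ _x ∈ X, X.card :=
    Finset.sum_le_sum fun x hx => nb_lt G hx
  rw [Finset.sum_add_distrib, Finset.sum_const, Finset.sum_const] at h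
  simpa using h

theorem mk_le (A X : Finset V) : mk A X ≤ X.card := by
  unfold mk
  rw [Finset.card_eq_sum_ones]
  exact Finset.sum_le_sum fun x _ => ib_le _

theorem mk_add_le {A X B : Finset V} (hB : B ⊆ X) (hBA : ∀ b ∈ B, b ∉ A) :
    mk A X + B.card ≤ X.card := by
  classical
  have h1 : mk A X = mk A B + mk A (X \ B) := by
    unfold mk
    rw [← Finset.sum_union Finset.disjoint_sdiff, Finset.union_sdiff_of_subset hB]
  have h2 : mk A B = 0 := by
    unfold mk
    exact Finset.sum_eq_zero fun b hb => ib_neg (hBA b hb)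
  have h3 := mk_le A (X \ B)
  have h4 : (X \ B).card + B.card = X.card := by
    rw [Finset.card_sdiff_of_subset hB]
    have := Finset.card_le_card hB
    omega
  omega

/-- Small sets: a set of at most four vertices has potential at least `2`, and at least one more
for some unmarked vertices. -/
theorem pot_small (G : SimpleGraph V) {A X B : Finset V} (h0 : X.Nonempty) (h4 : X.card ≤ 4)
    (hB : B ⊆ X) (hBA : ∀ b ∈ B, b ∉ A) : 2 + (B.card : ℤ) ≤ pot G A X := by
  have h1 := two_pot G A X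
  have h2 := dd_le G X
  have h3 := mk_add_le hB hBA
  have h5 : 0 < X.card := Finset.card_pos.2 h0
  have h2' : (dd G X X : ℤ) + X.card ≤ X.card * X.card := by exact_mod_cast h2
  have h3' : (mk A X : ℤ) + B.card ≤ X.card := by exact_mod_cast h3
  have h6 : (X.card : ℤ) * X.card + 4 ≤ 5 * X.card := by
    interval_cases h : X.card <;> norm_num
  linarith

/-- A colour missing in a small set. -/
theorem exists_color (S : Finset V) (c : V → Fin 4) (h : S.card ≤ 3) :
    ∃ i : Fin 4, ∀ y ∈ S, c y ≠ i := by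
  classical
  have h1 : (S.image c).card < (Finset.univ : Finset (Fin 4)).card := by
    refine lt_of_le_of_lt Finset.card_image_le ?_
    rw [Finset.card_univ, Fintype.card_fin]
    omega
  obtain ⟨i, -, hi⟩ := Finset.exists_mem_notMem_of_card_lt_card h1
  exact ⟨i, fun y hy h2 => hi (Finset.mem_image.2 ⟨y, hy, h2⟩)⟩

section crit

variable {G : SimpleGraph V} {A U : Finset V}

theorem Crit.two_le (h : Crit G A U) (hU : U.Nonempty) : 2 ≤ pot G A U :=
  h.leg U (Finset.Subset.refl _) hU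

theorem Crit.nonempty (h : Crit G A U) : U.Nonempty := by
  by_contra h0
  rw [Finset.not_nonempty_iff_eq_empty] at h0
  apply h.ncol
  refine ⟨fun _ => 0, ?_, ?_⟩
  · intro v hv
    rw [h0] at hv
    exact absurd hv (Finset.notMem_empty _)
  · intro v hv
    rw [h0] at hv
    exact absurd hv (Finset.notMem_empty _)

variable [DecidableEq V]

theorem Crit.four_le (h : Crit G A U) {v : V} (hv : v ∈ U) : 4 ≤ nb G U v := by
  classical
  by_contra h4
  obtain ⟨c, hc⟩ := h.sub G A (U.erase v) (Finset.card_erase_lt_of_mem hv)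
    (h.leg.mono (Finset.erase_subset _ _))
  obtain ⟨i, hi⟩ := exists_color (U.filter (fun y => G.Adj v y)) c (by
    rw [nb_eq] at h4
    omega)
  exact h.ncol ⟨_, hc.free fun y hy hvy => hi y (Finset.mem_filter.2 ⟨hy, hvy⟩)⟩

/-- The palette lemma. -/
theorem Crit.palette (h : Crit G A U) {Y : Finset V} (hY : Y ⊆ U) (hne : Y ≠ U)
    (h5 : 5 ≤ Y.card) : pot G A U + 1 ≤ pot G A Y := by
  classical
  by_contra hcon
  have hcon' : pot G A Y ≤ pot G A U := by linarith [Int.lt_iff_add_one_le.1 (not_le.1 hcon)]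
  -- choose a set of least potential
  set S : Finset (Finset V) := U.powerset.filter
    (fun Z => Z ≠ U ∧ 5 ≤ Z.card ∧ pot G A Z ≤ pot G A U) with hS
  have hSne : S.Nonempty :=
    ⟨Y, Finset.mem_filter.2 ⟨Finset.mem_powerset.2 hY, hne, h5, hcon'⟩⟩
  obtain ⟨Y, hYS, hmin⟩ := Finset.exists_min_image S (fun Z => pot G A Z) hSne
  obtain ⟨hYU, hYne, hY5, hYp⟩ := Finset.mem_filter.1 hYS
  rw [Finset.mem_powerset] at hYU
  have hmono : ∀ Z : Finset V, Z ⊆ U → Y ⊆ Z → pot G A Y ≤ pot G A Z := by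
    intro Z hZ hYZ
    by_cases hZU : Z = U
    · rw [hZU]
      exact hYp
    · by_cases hZp : pot G A Z ≤ pot G A U
      · exact hmin Z (Finset.mem_filter.2 ⟨Finset.mem_powerset.2 hZ, hZU,
          hY5.trans (Finset.card_le_card hYZ), hZp⟩)
      · linarith
  -- colour `Y`
  have hYlt : Y.card < U.card := Finset.card_lt_card (Finset.ssubset_iff_subset_ne.2 ⟨hYU, hYne⟩)
  obtain ⟨c₀, hc₀⟩ := h.sub G A Y hYlt (h.leg.mono hYU)
  -- the palette
  obtain ⟨P, hPY, hP4⟩ := Finset.exists_subset_card_eq (s := Y) (n := 4) (by omega)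
  let e := Finset.equivFinOfCardEq hP4
  let p : Fin 4 → V := fun i => (e.symm i : V)
  have hp : ∀ i, p i ∈ P := fun i => (e.symm i).2
  have hpinj : Function.Injective p := by
    intro i j hij
    exact e.symm.injective (Subtype.ext hij)
  have hpsurj : ∀ x ∈ P, ∃ i, p i = x := by
    intro x hx
    refine ⟨e ⟨x, hx⟩, ?_⟩
    show ((e.symm (e ⟨x, hx⟩) : {x // x ∈ P}) : V) = x
    rw [Equiv.symm_apply_apply]
  have hpY : ∀ i, p i ∈ Y := fun i => hPY (hp i)
  let G' : SimpleGraph V :=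
    { Adj := fun a b => (a ∉ Y ∧ b ∉ Y ∧ G.Adj a b) ∨ (∃ i j, i ≠ j ∧ a = p i ∧ b = p j) ∨
        (a ∉ Y ∧ ∃ y ∈ Y, G.Adj a y ∧ b = p (c₀ y)) ∨ (b ∉ Y ∧ ∃ y ∈ Y, G.Adj b y ∧ a = p (c₀ y))
      symm := ⟨by
        rintro a b (⟨h1, h2, h3⟩ | ⟨i, j, h1, h2, h3⟩ | h1 | h1)
        · exact Or.inl ⟨h2, h1, h3.symm⟩
        · exact Or.inr (Or.inl ⟨j, i, h1.symm, h3, h2⟩)
        · exact Or.inr (Or.inr (Or.inr h1))
        · exact Or.inr (Or.inr (Or.inl h1))⟩
      loopless := ⟨by
        rintro a (⟨h1, h2, h3⟩ | ⟨i, j, h1, h2, h3⟩ | ⟨h1, y, h2, h3, h4⟩ | ⟨h1, y, h2, h3, h4⟩)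
        · exact h3.ne rfl
        · exact h1 (hpinj (h2.symm.trans h3))
        · exact h1 (h4 ▸ hpY _)
        · exact h1 (h4 ▸ hpY _)⟩ }
  have hadj1 : ∀ a b, a ∉ Y → b ∉ Y → (G.Adj a b ↔ G'.Adj a b) := by
    intro a b ha hb
    constructor
    · intro h1
      exact Or.inl ⟨ha, hb, h1⟩
    · rintro (⟨h1, h2, h3⟩ | ⟨i, j, h1, h2, h3⟩ | ⟨h1, y, h2, h3, h4⟩ | ⟨h1, y, h2, h3, h4⟩)
      · exact h3
      · exact absurd (h2 ▸ hpY i) ha
      · exact absurd (h4 ▸ hpY _) hb
      · exact absurd (h4 ▸ hpY _) ha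
  have hadj2 : ∀ a b, a ∉ Y → b ∈ Y → G'.Adj a b → ∃ y ∈ Y, G.Adj a y ∧ b = p (c₀ y) := by
    rintro a b ha hb (⟨h1, h2, h3⟩ | ⟨i, j, h1, h2, h3⟩ | ⟨h1, h2⟩ | ⟨h1, h2⟩)
    · exact absurd hb h2
    · exact absurd (h2 ▸ hpY i) ha
    · exact h2
    · exact absurd hb h1
  set U' : Finset V := (U \ Y) ∪ P with hU'
  set A' : Finset V := A ∪ P with hA'
  have hdis : Disjoint (U \ Y) P := by
    rw [Finset.disjoint_left]
    intro a h1 h2
    exact (Finset.mem_sdiff.1 h1).2 (hPY h2)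
  have hcard : U'.card < U.card := by
    rw [hU', Finset.card_union_of_disjoint hdis, hP4, Finset.card_sdiff_of_subset hYU]
    omega
  have hleg : Leg G' A' U' := by
    intro X hX hXne
    set X1 := X \ P with hX1
    set X2 := X ∩ P with hX2
    have hXd : Disjoint X1 X2 := by
      rw [Finset.disjoint_left]
      intro a h1 h2
      exact (Finset.mem_sdiff.1 h1).2 (Finset.mem_inter.1 h2).2
    have hXu : X = X1 ∪ X2 := by
      ext a
      simp only [hX1, hX2, Finset.mem_union, Finset.mem_sdiff, Finset.mem_inter]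
      tauto
    have hX1U : X1 ⊆ U \ Y := by
      intro a ha
      have h1 := Finset.mem_sdiff.1 ha
      rcases Finset.mem_union.1 (hX h1.1) with h2 | h2
      · exact h2
      · exact absurd h2 h1.2
    have hX1Y : ∀ a ∈ X1, a ∉ Y := fun a ha => (Finset.mem_sdiff.1 (hX1U ha)).2
    have hX1p : pot G' A' X1 = pot G A X1 := by
      refine (pot_congr ?_ ?_).symm
      · intro x hx y hy
        exact hadj1 x y (hX1Y x hx) (hX1Y y hy)
      · intro x hx
        rw [hA', Finset.mem_union]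
        constructor
        · exact Or.inl
        · rintro (h1 | h1)
          · exact h1
          · exact absurd (hPY h1) (hX1Y x hx)
    by_cases hX2e : X2 = ∅
    · rw [hXu, hX2e, Finset.union_empty, hX1p]
      refine h.leg X1 (hX1U.trans Finset.sdiff_subset) ?_
      rw [hXu, hX2e, Finset.union_empty] at hXne
      exact hXne
    · have hX2ne : X2.Nonempty := Finset.nonempty_iff_ne_empty.2 hX2e
      have hX2P : X2 ⊆ P := Finset.inter_subset_right
      have h2 : 2 ≤ pot G' A' X2 := by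
        have := pot_small G' (A := A') (B := ∅) hX2ne
          ((Finset.card_le_card hX2P).trans (le_of_eq hP4)) (Finset.empty_subset _)
          (fun b hb => absurd hb (Finset.notMem_empty _))
        simpa using this
      have h3 : dd G' X1 X2 ≤ dd G X1 Y := by
        rw [dd_eq_sum, dd_eq_sum]
        refine Finset.sum_le_sum fun w hw => ?_
        unfold nb
        have h4 : X2.filter (fun y => G'.Adj w y)
            ⊆ (Y.filter (fun y => G.Adj w y)).image (fun y => p (c₀ y)) := by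
          intro b hb
          rw [Finset.mem_filter] at hb
          obtain ⟨y, hy, h5, h6⟩ := hadj2 w b (hX1Y w hw) (hPY (hX2P hb.1)) hb.2
          exact Finset.mem_image.2 ⟨y, Finset.mem_filter.2 ⟨hy, h5⟩, h6.symm⟩
        convert (Finset.card_le_card h4).trans Finset.card_image_le
      have h5 := pot_union G' A' hXd
      rw [← hXu, hX1p] at h5
      have hd2 : Disjoint X1 Y := by
        rw [Finset.disjoint_left]
        exact hX1Y
      have h6 := pot_union G A hd2
      have h7 := hmono (X1 ∪ Y) (Finset.union_subset (hX1U.trans Finset.sdiff_subset) hYU)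
        Finset.subset_union_right
      have h3' : (dd G' X1 X2 : ℤ) ≤ (dd G X1 Y : ℤ) := by exact_mod_cast h3
      linarith
  obtain ⟨c', hc'⟩ := h.sub G' A' U' hcard hleg
  -- permute the colours
  have hPU' : ∀ i, p i ∈ U' := fun i => Finset.mem_union_right _ (hp i)
  have hinj : Function.Injective fun i => c' (p i) := by
    intro i j hij
    by_contra hne'
    exact hc'.2 (p i) (hPU' i) (Finset.mem_union_right _ (hp i)) (p j) (hPU' j)
      (Or.inr (Or.inl ⟨i, j, hne', rfl, rfl⟩)) hij.symm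
  let σ : Fin 4 ≃ Fin 4 := Equiv.ofBijective _ (Finite.injective_iff_bijective.1 hinj)
  have hσ : ∀ i, σ.symm (c' (p i)) = i := fun i => σ.symm_apply_apply i
  have hc'' := hc'.perm σ.symm σ.symm.injective
  apply h.ncol
  refine ⟨fun w => if w ∈ Y then c₀ w else σ.symm (c' w), ?_⟩
  have key : ∀ w ∈ U, w ∉ Y → ∀ y ∈ Y, G.Adj w y → c₀ y ≠ σ.symm (c' w) := by
    intro w hw hwY y hy hwy h1
    have h2 := hc''.2 (p (c₀ y)) (hPU' _) (Finset.mem_union_right _ (hp _)) w
      (Finset.mem_union_left _ (Finset.mem_sdiff.2 ⟨hw, hwY⟩))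
      (Or.inr (Or.inr (Or.inr ⟨hwY, y, hy, hwy, rfl⟩)))
    apply h2
    show σ.symm (c' w) = σ.symm (c' (p (c₀ y)))
    rw [hσ, h1]
  have same : ∀ v ∈ U, ∀ y ∈ U, G.Adj v y →
      (if y ∈ Y then c₀ y else σ.symm (c' y)) = (if v ∈ Y then c₀ v else σ.symm (c' v)) →
      (v ∈ Y ∧ y ∈ Y ∧ c₀ y = c₀ v) ∨
      (v ∉ Y ∧ y ∉ Y ∧ σ.symm (c' y) = σ.symm (c' v)) := by
    intro v hv y hy hvy h1
    by_cases hvY : v ∈ Y
    · by_cases hyY : y ∈ Y
      · rw [if_pos hvY, if_pos hyY] at h1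
        exact Or.inl ⟨hvY, hyY, h1⟩
      · rw [if_pos hvY, if_neg hyY] at h1
        exact absurd h1.symm (key y hy hyY v hvY hvy.symm)
    · by_cases hyY : y ∈ Y
      · rw [if_neg hvY, if_pos hyY] at h1
        exact absurd h1 (key v hv hvY y hyY hvy)
      · rw [if_neg hvY, if_neg hyY] at h1
        exact Or.inr ⟨hvY, hyY, h1⟩
  refine ⟨?_, ?_⟩
  · intro v hv y hy z hz h1 h2 h3 h4
    rcases same v hv y hy h1 h3 with ⟨a1, a2, a3⟩ | ⟨a1, a2, a3⟩
    · rcases same v hv z hz h2 h4 with ⟨b1, b2, b3⟩ | ⟨b1, b2, b3⟩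
      · exact hc₀.1 v a1 y a2 z b2 h1 h2 a3 b3
      · exact absurd a1 b1
    · rcases same v hv z hz h2 h4 with ⟨b1, b2, b3⟩ | ⟨b1, b2, b3⟩
      · exact absurd b1 a1
      · exact hc''.1 v (Finset.mem_union_left _ (Finset.mem_sdiff.2 ⟨hv, a1⟩))
          y (Finset.mem_union_left _ (Finset.mem_sdiff.2 ⟨hy, a2⟩))
          z (Finset.mem_union_left _ (Finset.mem_sdiff.2 ⟨hz, b2⟩))
          ((hadj1 v y a1 a2).1 h1) ((hadj1 v z a1 b2).1 h2) a3 b3
  · intro v hv hA y hy h1 h2
    rcases same v hv y hy h1 h2 with ⟨a1, a2, a3⟩ | ⟨a1, a2, a3⟩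
    · exact hc₀.2 v a1 hA y a2 h1 a3
    · exact hc''.2 v (Finset.mem_union_left _ (Finset.mem_sdiff.2 ⟨hv, a1⟩))
        (Finset.mem_union_left _ hA)
        y (Finset.mem_union_left _ (Finset.mem_sdiff.2 ⟨hy, a2⟩))
        ((hadj1 v y a1 a2).1 h1) a3

/-- A proper set with an unmarked vertex has potential at least `3`. -/
theorem Crit.gap (h : Crit G A U) {X : Finset V} (hX : X ⊆ U) (hne : X ≠ U) {z : V} (hz : z ∈ X)
    (hzA : z ∉ A) : 3 ≤ pot G A X := by
  by_cases h4 : X.card ≤ 4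
  · have := pot_small G (A := A) (B := {z}) ⟨z, hz⟩ h4 (Finset.singleton_subset_iff.2 hz)
      (fun b hb => by rw [Finset.mem_singleton.1 hb]; exact hzA)
    rw [Finset.card_singleton] at this
    push_cast at this
    linarith
  · have h1 := h.palette hX hne (by omega)
    have h2 := h.two_le h.nonempty
    linarith

/-- One more mark is allowed outside a vertex. -/
theorem Crit.leg_mark (h : Crit G A U) {v z : V} (hv : v ∈ U) (hzA : z ∉ A) :
    Leg G (insert z A) (U.erase v) := by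
  classical
  intro X hX hXne
  have hXU : X ⊆ U := hX.trans (Finset.erase_subset _ _)
  have hXne' : X ≠ U := by
    rintro rfl
    exact Finset.notMem_erase v X (hX hv)
  have h1 := pot_mark G A X z
  by_cases hz : z ∈ X
  · have h2 := h.gap hXU hXne' hz hzA
    rw [ib_pos hz] at h1
    push_cast at h1
    linarith
  · rw [ib_neg hz] at h1
    have h2 := h.leg X hXU hXne
    push_cast at h1
    linarith

/-- All neighbours of an unmarked vertex of degree `4` are marked. -/
theorem Crit.four (h : Crit G A U) {v : V} (hv : v ∈ U) (hvA : v ∉ A) (h4 : nb G U v ≤ 4)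
    {z : V} (hz : z ∈ U) (hvz : G.Adj v z) : z ∈ A := by
  classical
  by_contra hzA
  obtain ⟨c, hc⟩ := h.sub G (insert z A) (U.erase v) (Finset.card_erase_lt_of_mem hv)
    (h.leg_mark hv hzA)
  apply h.ncol
  by_cases hi : ∃ i : Fin 4, ∀ y ∈ U, G.Adj v y → c y ≠ i
  · obtain ⟨i, hi⟩ := hi
    exact ⟨_, (hc.mono (Finset.Subset.refl _) (fun _ _ _ _ h => h)
      (fun _ _ h => Finset.mem_insert_of_mem h)).free hi⟩
  · refine ⟨_, hc.host hvA hzA hz hvz fun y hy hvy hyz => ?_⟩
    by_contra hne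
    -- the colours are not all used
    obtain ⟨i, hi'⟩ := exists_color ((U.filter (fun y => G.Adj v y)).erase y) c (by
      rw [nb_eq] at h4
      have h5 := Finset.card_erase_of_mem (s := U.filter (fun y => G.Adj v y))
        (Finset.mem_filter.2 ⟨hy, hvy⟩)
      omega)
    apply hi
    refine ⟨i, fun x hx hvx => ?_⟩
    by_cases hxy : x = y
    · rw [hxy, hyz]
      exact hi' z (Finset.mem_erase.2 ⟨fun h => hne h.symm, Finset.mem_filter.2 ⟨hz, hvz⟩⟩)
    · exact hi' x (Finset.mem_erase.2 ⟨hxy, Finset.mem_filter.2 ⟨hx, hvx⟩⟩)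

/-- Two marks outside a vertex, unless there is a set of potential `3` with both. -/
theorem Crit.leg_mark_two (h : Crit G A U) {v z₁ z₂ : V} (hv : v ∈ U) (h1 : z₁ ∉ A) (h2 : z₂ ∉ A)
    (hX : ∀ X : Finset V, X ⊆ U → v ∉ X → z₁ ∈ X → z₂ ∈ X → 5 ≤ X.card → pot G A X ≠ 3) :
    Leg G (insert z₁ (insert z₂ A)) (U.erase v) := by
  classical
  intro X hXU' hXne
  have hXU : X ⊆ U := hXU'.trans (Finset.erase_subset _ _)
  have hvX : v ∉ X := fun hvX => Finset.notMem_erase v U (hXU' hvX)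
  have hne : X ≠ U := fun hh => hvX (hh ▸ hv)
  have e1 := pot_mark G (insert z₂ A) X z₁
  have e2 := pot_mark G A X z₂
  have i1 : (ib (z₁ ∈ X) : ℤ) ≤ 1 := by exact_mod_cast ib_le _
  have i2 : (ib (z₂ ∈ X) : ℤ) ≤ 1 := by exact_mod_cast ib_le _
  by_cases hz1 : z₁ ∈ X
  · by_cases hz2 : z₂ ∈ X
    · have h3 := h.gap hXU hne hz1 h1
      by_cases h12 : z₁ = z₂
      · -- the same vertex
        subst h12
        rw [show insert z₁ (insert z₁ A) = insert z₁ A from Finset.insert_idem _ _]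
        rw [ib_pos hz1] at e2
        push_cast at e2
        linarith
      · by_cases h5 : 5 ≤ X.card
        · have h6 := hX X hXU hvX hz1 hz2 h5
          have h7 : 4 ≤ pot G A X := by omega
          linarith
        · have h6 := pot_small G (A := A) (B := {z₁, z₂}) hXne (by omega)
            (by
              intro b hb
              rcases Finset.mem_insert.1 hb with rfl | hb
              · exact hz1
              · rw [Finset.mem_singleton.1 hb]
                exact hz2)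
            (by
              intro b hb
              rcases Finset.mem_insert.1 hb with rfl | hb
              · exact h1
              · rw [Finset.mem_singleton.1 hb]
                exact h2)
          rw [Finset.card_pair h12] at h6
          push_cast at h6
          linarith
    · have h3 := h.gap hXU hne hz1 h1
      rw [ib_neg hz2] at e2
      push_cast at e2
      linarith
  · by_cases hz2 : z₂ ∈ X
    · have h3 := h.gap hXU hne hz2 h2
      rw [ib_neg hz1] at e1
      push_cast at e1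
      linarith
    · have h3 := h.leg X hXU hXne
      rw [ib_neg hz1] at e1
      rw [ib_neg hz2] at e2
      push_cast at e1 e2
      linarith

/-- Colouring an unmarked vertex of degree `5` with two adjacent unmarked neighbours. -/
theorem Good.five {v z₁ z₂ : V} {c : V → Fin 4}
    (hc : Good G (insert z₁ (insert z₂ A)) (U.erase v) c) (hvA : v ∉ A)
    (h5 : nb G U v ≤ 5) (hz1 : z₁ ∈ U) (hz2 : z₂ ∈ U) (h1 : z₁ ∉ A) (h2 : z₂ ∉ A)
    (hv1 : G.Adj v z₁) (hv2 : G.Adj v z₂) (h12 : G.Adj z₁ z₂) : Col G A U := by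
  classical
  by_cases hi : ∃ i : Fin 4, ∀ y ∈ U, G.Adj v y → c y ≠ i
  · obtain ⟨i, hi⟩ := hi
    exact ⟨_, (hc.mono (Finset.Subset.refl _) (fun _ _ _ _ h => h)
      (fun _ _ h => Finset.mem_insert_of_mem (Finset.mem_insert_of_mem h))).free hi⟩
  have hz1' : z₁ ∈ U.erase v := Finset.mem_erase.2 ⟨hv1.ne', hz1⟩
  have hz2' : z₂ ∈ U.erase v := Finset.mem_erase.2 ⟨hv2.ne', hz2⟩
  have hcc : c z₂ ≠ c z₁ := hc.2 z₁ hz1' (Finset.mem_insert_self _ _) z₂ hz2' h12
  have hc1 : Good G (insert z₁ A) (U.erase v) c :=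
    hc.mono (Finset.Subset.refl _) (fun _ _ _ _ h => h) (fun x _ h => by
      rcases Finset.mem_insert.1 h with rfl | h
      · exact Finset.mem_insert_self _ _
      · exact Finset.mem_insert_of_mem (Finset.mem_insert_of_mem h))
  have hc2 : Good G (insert z₂ A) (U.erase v) c :=
    hc.mono (Finset.Subset.refl _) (fun _ _ _ _ h => h) (fun x _ h => by
      rcases Finset.mem_insert.1 h with rfl | h
      · exact Finset.mem_insert_of_mem (Finset.mem_insert_self _ _)
      · exact Finset.mem_insert_of_mem (Finset.mem_insert_of_mem h))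
  by_cases ha : ∀ y ∈ U, G.Adj v y → c y = c z₁ → y = z₁
  · exact ⟨_, hc1.host hvA h1 hz1 hv1 ha⟩
  by_cases hb : ∀ y ∈ U, G.Adj v y → c y = c z₂ → y = z₂
  · exact ⟨_, hc2.host hvA h2 hz2 hv2 hb⟩
  exfalso
  push Not at ha hb
  obtain ⟨y₁, hy1, hvy1, hcy1, hne1⟩ := ha
  obtain ⟨y₂, hy2, hvy2, hcy2, hne2⟩ := hb
  have hyy : y₁ ≠ y₂ := by
    rintro rfl
    exact hcc (hcy2.symm.trans hcy1)
  have hy12 : y₁ ≠ z₂ := by
    rintro rfl
    exact hcc hcy1
  have hy21 : y₂ ≠ z₁ := by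
    rintro rfl
    exact hcc hcy2.symm
  obtain ⟨i, hi'⟩ := exists_color (((U.filter (fun y => G.Adj v y)).erase y₁).erase y₂) c (by
    rw [nb_eq] at h5
    have h6 := Finset.card_erase_of_mem (s := U.filter (fun y => G.Adj v y))
      (Finset.mem_filter.2 ⟨hy1, hvy1⟩)
    have h7 := Finset.card_erase_of_mem (s := (U.filter (fun y => G.Adj v y)).erase y₁)
      (Finset.mem_erase.2 ⟨fun h => hyy h.symm, Finset.mem_filter.2 ⟨hy2, hvy2⟩⟩)
    omega)
  apply hi
  have m1 : z₁ ∈ ((U.filter (fun y => G.Adj v y)).erase y₁).erase y₂ :=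
    Finset.mem_erase.2 ⟨fun h => hy21 h.symm, Finset.mem_erase.2 ⟨fun h => hne1 h.symm,
      Finset.mem_filter.2 ⟨hz1, hv1⟩⟩⟩
  have m2 : z₂ ∈ ((U.filter (fun y => G.Adj v y)).erase y₁).erase y₂ :=
    Finset.mem_erase.2 ⟨fun h => hne2 h.symm, Finset.mem_erase.2 ⟨fun h => hy12 h.symm,
      Finset.mem_filter.2 ⟨hz2, hv2⟩⟩⟩
  refine ⟨i, fun x hx hvx => ?_⟩
  by_cases hx1 : x = y₁
  · rw [hx1, hcy1]
    exact hi' z₁ m1
  · by_cases hx2 : x = y₂
    · rw [hx2, hcy2]
      exact hi' z₂ m2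
    · exact hi' x (Finset.mem_erase.2 ⟨hx2, Finset.mem_erase.2 ⟨hx1,
        Finset.mem_filter.2 ⟨hx, hvx⟩⟩⟩)

/-- An unmarked vertex of degree `5` with two adjacent unmarked neighbours: some set of potential
`3` contains both and not the vertex. -/
theorem Crit.five (h : Crit G A U) {v z₁ z₂ : V} (hv : v ∈ U) (hvA : v ∉ A)
    (h5 : nb G U v ≤ 5) (hz1 : z₁ ∈ U) (hz2 : z₂ ∈ U) (h1 : z₁ ∉ A) (h2 : z₂ ∉ A)
    (hv1 : G.Adj v z₁) (hv2 : G.Adj v z₂) (h12 : G.Adj z₁ z₂) :
    pot G A U = 2 ∧ ∃ X : Finset V, X ⊆ U ∧ v ∉ X ∧ z₁ ∈ X ∧ z₂ ∈ X ∧ 5 ≤ X.card ∧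
      pot G A X = 3 := by
  classical
  by_cases hX : ∃ X : Finset V, X ⊆ U ∧ v ∉ X ∧ z₁ ∈ X ∧ z₂ ∈ X ∧ 5 ≤ X.card ∧ pot G A X = 3
  · refine ⟨?_, hX⟩
    obtain ⟨X, hXU, hvX, -, -, h6, h7⟩ := hX
    have h8 := h.palette hXU (fun hh => hvX (hh ▸ hv)) h6
    have h9 := h.two_le h.nonempty
    omega
  · exfalso
    obtain ⟨c, hc⟩ := h.sub G (insert z₁ (insert z₂ A)) (U.erase v)
      (Finset.card_erase_lt_of_mem hv)
      (h.leg_mark_two hv h1 h2 fun X hXU hvX a b d e => hX ⟨X, hXU, hvX, a, b, d, e⟩)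
    exact h.ncol (hc.five hvA h5 hz1 hz2 h1 h2 hv1 hv2 h12)

end crit

end Pool.Agent.W986.C2
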