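import Pool.Agent.W986.Precise

/-!
# `K_7` in the torus
-/

set_option autoImplicit false

open Finset

namespace Pool.Agent.W986

open Pool.Agent.DC76

section tools

variable {V : Type} [DecidableEq V]

/-- If consecutive faces have a common edge, then the faces are connected through edges. -/
theorem dual_of_chain {n : ℕ} (T : Fin (n + 1) → V → V → ℕ)
    (htw : ∀ u v, (∃ f, T f u v ≠ 0) → ∑ f, T f u v = 2)
    (hch : ∀ i (h : i + 1 < n + 1), ∃ u v, T ⟨i, by omega⟩ u v = 1 ∧ T ⟨i + 1, h⟩ u v = 1)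
    (I : Finset (Fin (n + 1))) (hI : I.Nonempty) (hI' : I ≠ univ) :
    ∃ u v, ∑ f ∈ I, T f u v = 1 := by
  classical
  by_contra hcon
  push Not at hcon
  have hstep : ∀ i (h : i + 1 < n + 1), ((⟨i, by omega⟩ : Fin (n + 1)) ∈ I ↔
      (⟨i + 1, h⟩ : Fin (n + 1)) ∈ I) := by
    intro i h
    obtain ⟨u, v, h1, h2⟩ := hch i h
    have htot := htw u v ⟨⟨i, by omega⟩, by rw [h1]; exact one_ne_zero⟩
    have hne : (⟨i, by omega⟩ : Fin (n + 1)) ≠ ⟨i + 1, h⟩ := by
      intro h3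
      have := congrArg Fin.val h3
      simp at this
    have hsplit := Finset.sum_add_sum_compl I (fun f => T f u v)
    rw [htot] at hsplit
    by_contra hiff
    have hc : ((⟨i, by omega⟩ : Fin (n + 1)) ∈ I ∧ (⟨i + 1, h⟩ : Fin (n + 1)) ∉ I) ∨
        ((⟨i, by omega⟩ : Fin (n + 1)) ∉ I ∧ (⟨i + 1, h⟩ : Fin (n + 1)) ∈ I) := by tauto
    rcases hc with ⟨ha, hb⟩ | ⟨ha, hb⟩
    · have h3 : T ⟨i, by omega⟩ u v ≤ ∑ f ∈ I, T f u v :=
        Finset.single_le_sum (f := fun f => T f u v) (fun _ _ => Nat.zero_le _) ha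
      have h4 : T ⟨i + 1, h⟩ u v ≤ ∑ f ∈ Iᶜ, T f u v :=
        Finset.single_le_sum (f := fun f => T f u v) (fun _ _ => Nat.zero_le _)
          (Finset.mem_compl.2 hb)
      have h5 := hcon u v
      omega
    · have h3 : T ⟨i + 1, h⟩ u v ≤ ∑ f ∈ I, T f u v :=
        Finset.single_le_sum (f := fun f => T f u v) (fun _ _ => Nat.zero_le _) hb
      have h4 : T ⟨i, by omega⟩ u v ≤ ∑ f ∈ Iᶜ, T f u v :=
        Finset.single_le_sum (f := fun f => T f u v) (fun _ _ => Nat.zero_le _)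
          (Finset.mem_compl.2 ha)
      have h5 := hcon u v
      omega
  have hall : ∀ i (h : i < n + 1), ((⟨i, h⟩ : Fin (n + 1)) ∈ I ↔ (0 : Fin (n + 1)) ∈ I) := by
    intro i
    induction i with
    | zero => intro h; exact Iff.rfl
    | succ i ih =>
      intro h
      rw [← hstep i h]
      exact ih (by omega)
  obtain ⟨x, hx⟩ := hI
  have h0 : (0 : Fin (n + 1)) ∈ I := (hall x.1 x.2).1 hx
  exact hI' (Finset.eq_univ_of_forall fun y => (hall y.1 y.2).2 h0)

/-- If the neighbours of every vertex can be ordered so that consecutive ones form corners, then the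
links are cycles. -/
theorem link_of_rot {G : SimpleGraph V} {F : Type} [Fintype F] (M : FacialWalks G F) (k : ℕ)
    (ρ : V → ℕ → V) (h1 : ∀ v a, G.Adj v a → ∃ i, i ≤ k ∧ ρ v i = a)
    (h2 : ∀ v i, i < k → ∃ f t, t < M.len f ∧ M.walk f (t + 1) = v ∧ M.walk f t = ρ v i ∧
      M.walk f ((t + 1) % M.len f + 1) = ρ v (i + 1)) : Link M := by
  intro v N ⟨a, ha, hva⟩ ⟨b, hb, hvb⟩
  by_contra hcon
  push Not at hcon
  have hstep : ∀ i, i < k → (ρ v i ∈ N ↔ ρ v (i + 1) ∈ N) := by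
    intro i hi
    obtain ⟨f, t, ht, h3, h4, h5⟩ := h2 v i hi
    have h6 := hcon f t ht h3
    rw [h4, h5] at h6
    tauto
  have hall : ∀ i, i ≤ k → (ρ v i ∈ N ↔ ρ v 0 ∈ N) := by
    intro i
    induction i with
    | zero => intro _; exact Iff.rfl
    | succ i ih =>
      intro h
      rw [← hstep i (by omega)]
      exact ih (by omega)
  obtain ⟨i, hi, rfl⟩ := h1 v a hva
  obtain ⟨j, hj, rfl⟩ := h1 v b hvb
  exact hb ((hall j hj).2 ((hall i hi).1 ha))

end tools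

/-- the triangles of the torus with seven vertices -/
def tab7 : Fin 14 → Fin 3 → Fin 7 :=
  ![![0, 1, 3], ![0, 3, 2], ![6, 0, 2], ![6, 2, 1], ![5, 6, 1], ![5, 1, 0], ![4, 5, 0], ![4, 0, 6], ![3, 4, 6], ![3, 6, 5], ![2, 3, 5], ![2, 5, 4], ![1, 2, 4], ![1, 4, 3]]

def walk7 (f : Fin 14) (t : ℕ) : Fin 7 := tab7 f ⟨t % 3, Nat.mod_lt _ (by norm_num)⟩

/-- the rotation at the vertex `v` -/
def rot7 (v : Fin 7) (i : ℕ) : Fin 7 :=
  v + (![3, 1, 5, 4, 6, 2] : Fin 6 → Fin 7) ⟨i % 6, Nat.mod_lt _ (by norm_num)⟩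

theorem adj7 : ∀ f : Fin 14, ∀ t : Fin 3, walk7 f t.1 ≠ walk7 f (t.1 + 1) := by decide +kernel

theorem twice7 : ∀ u v : Fin 7, u ≠ v → ∑ f, trav 3 (walk7 f) u v = 2 := by decide +kernel

theorem oriented7 : ∀ u v : Fin 7, u ≠ v →
    ∑ f, ((range 3).filter fun t => walk7 f t = u ∧ walk7 f (t + 1) = v).card = 1 := by
  decide +kernel

theorem chain7 : ∀ i : Fin 13, ∃ u v : Fin 7, trav 3 (walk7 i.castSucc) u v = 1 ∧
    trav 3 (walk7 i.succ) u v = 1 := by decide +kernel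

theorem zero7 : ∀ u : Fin 7, ∀ f, trav 3 (walk7 f) u u = 0 := by decide +kernel

theorem nbr7 : ∀ v a : Fin 7, v ≠ a → ∃ i : Fin 6, rot7 v i.1 = a := by decide +kernel

theorem corner7 : ∀ v : Fin 7, ∀ i : Fin 5, ∃ f : Fin 14, ∃ t : Fin 3, walk7 f (t.1 + 1) = v ∧
    walk7 f t.1 = rot7 v i.1 ∧ walk7 f ((t.1 + 1) % 3 + 1) = rot7 v (i.1 + 1) := by
  decide +kernel

/-- the fourteen facial triangles of `K_7` in the torus -/
def facial7 : FacialWalks (⊤ : SimpleGraph (Fin 7)) (Fin 14) where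
  len _ := 3
  walk := walk7
  closed _ := rfl
  adj f t ht := by
    rw [SimpleGraph.top_adj]
    exact adj7 f ⟨t, ht⟩
  twice u v h := twice7 u v ((SimpleGraph.top_adj u v).1 h)
  dual I hI hI' := by
    refine dual_of_chain (n := 13) (fun f u v => trav 3 (walk7 f) u v) ?_ ?_ I hI hI'
    · rintro u v ⟨f, hf⟩
      refine twice7 u v fun huv => hf ?_
      rw [huv]
      exact zero7 v f
    · intro i h
      exact chain7 ⟨i, by omega⟩

theorem toroidal_K7 : Toroidal (⊤ : SimpleGraph (Fin 7)) := by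
  refine ⟨Fin 7, Fin 14, inferInstance, inferInstance, inferInstance, ⊤, id,
    Function.injective_id, fun x y h => h, SimpleGraph.connected_top, ⟨facial7, ?_, fun _ => ?_⟩, ?_⟩
  · refine link_of_rot facial7 5 rot7 ?_ ?_
    · intro v a h
      obtain ⟨i, hi⟩ := nbr7 v a ((SimpleGraph.top_adj v a).1 h)
      exact ⟨i.1, by omega, hi⟩
    · intro v i hi
      obtain ⟨f, t, h1, h2, h3⟩ := corner7 v ⟨i, hi⟩
      exact ⟨f, t.1, t.2, h1, h2, h3⟩
  · intro u v h
    exact oriented7 u v ((SimpleGraph.top_adj u v).1 h)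
  · have h1 : (⊤ : SimpleGraph (Fin 7)).edgeSet.ncard = 21 := by
      rw [← SimpleGraph.coe_edgeFinset, Set.ncard_coe_finset,
        SimpleGraph.card_edgeFinset_top_eq_card_choose_two]
      rfl
    rw [h1, Fintype.card_fin, Fintype.card_fin]
    norm_num

end Pool.Agent.W986
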