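import Pool.Agent.W986.L2
import Pool.Agent.W986.TorusK7

/-!
# Proper colourings: degeneracy and complete graphs
-/

set_option autoImplicit false

open Finset

namespace Pool.Agent.W986

open Pool.Agent.DC76

/-- Greedy colouring: if `2 e(X) < (m + 1) |X|` for all nonempty `X` then `G` has a proper colouring
with `m + 1` colours. -/
theorem greedy {V : Type} [Finite V] (G : SimpleGraph V) (m : ℕ)
    (h : ∀ X : Finset V, X.Nonempty → 2 * ein G X < (m + 1) * X.card) :
    ∃ c : V → Fin (m + 1), Defective G 0 c := by
  classical
  have : Fintype V := Fintype.ofFinite V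
  have key : ∀ n, ∀ X : Finset V, X.card = n → ∃ c : V → Fin (m + 1),
      ∀ u ∈ X, ∀ v ∈ X, G.Adj u v → c u ≠ c v := by
    intro n
    induction n with
    | zero =>
      intro X hX
      rw [Finset.card_eq_zero] at hX
      subst hX
      exact ⟨fun _ => 0, fun u hu => absurd hu (Finset.notMem_empty u)⟩
    | succ n ih =>
      intro X hX
      have hne : X.Nonempty := Finset.card_pos.1 (by omega)
      have h1 := h X hne
      rw [← E2_eq_ein] at h1
      have h2 : ∃ v ∈ X, #{u ∈ X | G.Adj v u} ≤ m := by
        by_contra hcon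
        push Not at hcon
        have h3 : (m + 1) * X.card ≤ BT.E2 G X := by
          unfold BT.E2
          rw [mul_comm, ← smul_eq_mul, ← Finset.sum_const]
          exact Finset.sum_le_sum fun v hv => hcon v hv
        omega
      obtain ⟨v, hv, hdeg⟩ := h2
      obtain ⟨c, hc⟩ := ih (X.erase v) (by rw [Finset.card_erase_of_mem hv]; omega)
      have h4 : ∃ a : Fin (m + 1), a ∉ (X.filter fun u => G.Adj v u).image c := by
        by_contra hcon
        push Not at hcon
        have h5 : (univ : Finset (Fin (m + 1))) ⊆ (X.filter fun u => G.Adj v u).image c :=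
          fun a _ => hcon a
        have h6 := Finset.card_le_card h5
        have h7 : ((X.filter fun u => G.Adj v u).image c).card ≤ m :=
          le_trans Finset.card_image_le hdeg
        rw [Finset.card_univ, Fintype.card_fin] at h6
        omega
      obtain ⟨a, ha⟩ := h4
      have ha' : ∀ u ∈ X, G.Adj v u → c u ≠ a := fun u hu hvu h5 =>
        ha (Finset.mem_image.2 ⟨u, Finset.mem_filter.2 ⟨hu, hvu⟩, h5⟩)
      refine ⟨Function.update c v a, fun x hx y hy hxy => ?_⟩
      by_cases hxv : x = v
      · subst hxv
        have hyx : y ≠ x := hxy.ne'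
        rw [Function.update_self, Function.update_of_ne hyx]
        exact (ha' y hy hxy).symm
      · rw [Function.update_of_ne hxv]
        by_cases hyv : y = v
        · subst hyv
          rw [Function.update_self]
          exact ha' x hx hxy.symm
        · rw [Function.update_of_ne hyv]
          exact hc x (Finset.mem_erase.2 ⟨hxv, hx⟩) y (Finset.mem_erase.2 ⟨hyv, hy⟩) hxy
  obtain ⟨c, hc⟩ := key _ univ rfl
  refine ⟨c, fun v => ?_⟩
  rw [Nat.le_zero, Set.ncard_eq_zero (Set.toFinite _)]
  ext u
  simp only [Set.mem_ofPred_eq, Set.mem_empty_iff_false, iff_false, not_and]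
  intro h1 h2
  exact hc v (mem_univ v) u (mem_univ u) h1 h2.symm

theorem finite_of_onSurface {U : Type} {H : SimpleGraph U} {χ : ℤ} (h : OnSurface χ H) :
    Finite U := by
  obtain ⟨V, F, _, _, _, G, f, hf, _⟩ := h
  exact Finite.of_injective f hf

/-- `7` colours suffice on a surface of Euler characteristic at least `0`. -/
theorem seven_colours {U : Type} (H : SimpleGraph U) (χ : ℤ) (hχ : 0 ≤ χ) (h : OnSurface χ H) :
    ∃ c : U → Fin 7, Defective H 0 c := by
  have := finite_of_onSurface h
  refine greedy H 6 fun X hX => ?_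
  have h1 := ein_le_three H χ hχ h X
  have h2 : 0 < X.card := Finset.card_pos.2 hX
  omega

/-- `6` colours suffice on a surface of Euler characteristic at least `1`. -/
theorem six_colours {U : Type} (H : SimpleGraph U) (χ : ℤ) (hχ : 1 ≤ χ) (h : OnSurface χ H) :
    ∃ c : U → Fin 6, Defective H 0 c := by
  have := finite_of_onSurface h
  refine greedy H 5 fun X hX => ?_
  have h1 := ein_le_three_sub H χ hχ h X hX
  omega

/-- A complete graph with a `(k, d)`-colouring has at most `k (d + 1)` vertices. -/
theorem card_le_of_complete (n k d : ℕ) (c : Fin n → Fin k)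
    (hc : Defective (⊤ : SimpleGraph (Fin n)) d c) : n ≤ k * (d + 1) := by
  classical
  have h1 : ∀ a : Fin k, (univ.filter fun v => c v = a).card ≤ d + 1 := by
    intro a
    by_cases hne : (univ.filter fun v => c v = a).Nonempty
    · obtain ⟨v, hv⟩ := hne
      have hva : c v = a := (mem_filter.1 hv).2
      have h2 := hc v
      have h3 : {u | (⊤ : SimpleGraph (Fin n)).Adj v u ∧ c u = c v} =
          (((univ.filter fun v => c v = a).erase v : Finset (Fin n)) : Set (Fin n)) := by
        ext u
        simp only [SimpleGraph.top_adj, Set.mem_ofPred_eq, coe_erase, coe_filter, mem_univ,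
          true_and, Set.mem_sdiff, Set.mem_singleton_iff, hva]
        constructor
        · rintro ⟨h4, h5⟩
          exact ⟨h5, fun h6 => h4 h6.symm⟩
        · rintro ⟨h4, h5⟩
          exact ⟨fun h6 => h5 h6.symm, h4⟩
      rw [h3, Set.ncard_coe_finset, Finset.card_erase_of_mem hv] at h2
      omega
    · rw [Finset.not_nonempty_iff_eq_empty] at hne
      rw [hne]
      simp
  have h2 := Finset.card_eq_sum_card_fiberwise (s := (univ : Finset (Fin n)))
    (t := (univ : Finset (Fin k))) (f := c) (fun x _ => mem_univ (c x))
  rw [Finset.card_univ, Fintype.card_fin] at h2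
  rw [h2]
  refine le_trans (Finset.sum_le_sum fun a _ => h1 a) ?_
  rw [Finset.sum_const, Finset.card_univ, Fintype.card_fin, smul_eq_mul]

/-- Defective colourings may be enlarged. -/
theorem Defective.mono {V : Type} [Finite V] {G : SimpleGraph V} {k k' d d' : ℕ} (hk : k ≤ k')
    (hd : d ≤ d') (h : ∃ c : V → Fin k, Defective G d c) : ∃ c : V → Fin k', Defective G d' c := by
  obtain ⟨c, hc⟩ := h
  refine ⟨fun v => Fin.castLE hk (c v), fun v => le_trans ?_ hd⟩
  refine le_trans (Set.ncard_le_ncard ?_ (Set.toFinite _)) (hc v)
  rintro u ⟨h1, h2⟩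
  exact ⟨h1, Fin.castLE_injective hk h2⟩

end Pool.Agent.W986
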