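import Pool.Agent.W986.BT

/-!
# Steps 1, 2 and assembly of the theorem (L2)

From the strongly connected tight case (`core`) to the general case: a proper tight set is coloured
first, the rest with the shrunken lists; a strict system is lowered at one vertex until it is tight.
-/

set_option autoImplicit false

namespace Pool.Agent.W986.Peel2

open Finset Pool.Agent.W986.BT

section E2

variable {V : Type*} [Fintype V] [DecidableEq V] (G : SimpleGraph V) [DecidableRel G.Adj]

lemma E2_union (X Y : Finset V) (h : Disjoint X Y) :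
    E2 G (X ∪ Y) = E2 G X + E2 G Y + 2 * ∑ v ∈ Y, #{u ∈ X | G.Adj v u} := by
  have h1 : ∀ v, #{u ∈ X ∪ Y | G.Adj v u} = #{u ∈ X | G.Adj v u} + #{u ∈ Y | G.Adj v u} := by
    intro v
    rw [Finset.filter_union, Finset.card_union_of_disjoint]
    exact Finset.disjoint_filter_filter h
  have h2 : ∑ v ∈ X, #{u ∈ Y | G.Adj v u} = ∑ v ∈ Y, #{u ∈ X | G.Adj v u} := by
    simp only [Finset.card_filter]
    rw [Finset.sum_comm]
    refine Finset.sum_congr rfl fun v _ => Finset.sum_congr rfl fun u _ => ?_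
    simp only [G.adj_comm]
  unfold E2
  rw [Finset.sum_union h]
  simp only [h1, Finset.sum_add_distrib, h2]
  ring

lemma E2_comap (W : Finset V) (Y : Finset {x // x ∈ W}) :
    E2 (G.comap (Subtype.val : {x // x ∈ W} → V)) Y
      = E2 G (Y.map (Function.Embedding.subtype _)) := by
  unfold E2
  rw [Finset.sum_map]
  refine Finset.sum_congr rfl fun v _ => ?_
  rw [Finset.filter_map, Finset.card_map]
  rfl

end E2

/-- The statement of `core` for all types of one universe. -/
def CoreStatement.{u, w} (C : Type w) [DecidableEq C] (C0 : Finset C) : Prop :=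
  ∀ (V : Type u) [Fintype V] [DecidableEq V] (G : SimpleGraph V) [DecidableRel G.Adj] (β : V → ℝ)
    (L : V → Finset C), Nonempty V →
    (E2 G univ : ℝ) = 2 * ∑ v, β v →
    (∀ X : Finset V, X.Nonempty → X ≠ univ → (E2 G X : ℝ) < 2 * ∑ v ∈ X, β v) →
    (∀ v, (L v).Nonempty) → (∀ v, 3 * β v ≤ 2 * (#(L v) : ℝ)) →
    (∀ v, 3 * β v = 2 * (#(L v) : ℝ) → L v = C0) →
    ∃ c : V → C, (∀ v, c v ∈ L v) ∧ ∀ v, #{u ∈ G.neighborFinset v | c u = c v} ≤ 1

universe u w

section main

variable {V : Type u} [Fintype V] [DecidableEq V] (G : SimpleGraph V) [DecidableRel G.Adj]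
variable {C : Type w} [DecidableEq C]

/-- A list colouring with defect 1 of the subgraph induced by `W`. -/
def GoodOn (W : Finset V) (L : V → Finset C) : Prop :=
  ∃ c : V → C, (∀ v ∈ W, c v ∈ L v) ∧ ∀ v ∈ W, #{u ∈ W | G.Adj v u ∧ c u = c v} ≤ 1

/-- The hypotheses on `W`. -/
structure Hyp (C0 : Finset C) (W : Finset V) (β : V → ℝ) (L : V → Finset C) : Prop where
  hb : ∀ X ⊆ W, (E2 G X : ℝ) ≤ 2 * ∑ v ∈ X, β v
  hL : ∀ v ∈ W, (L v).Nonempty
  h23 : ∀ v ∈ W, 3 * β v ≤ 2 * (#(L v) : ℝ)
  heq : ∀ v ∈ W, 3 * β v = 2 * (#(L v) : ℝ) → L v = C0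

/-- Step 1: a tight proper nonempty subset is split off. -/
lemma split (C0 : Finset C) (W X : Finset V) (β : V → ℝ) (L : V → Finset C)
    (h : Hyp G C0 W β L) (hXW : X ⊆ W) (ht : (E2 G X : ℝ) = 2 * ∑ v ∈ X, β v)
    (h1 : ∀ β' L', Hyp G C0 X β' L' → GoodOn G X L')
    (h2 : ∀ β' L', Hyp G C0 (W \ X) β' L' → GoodOn G (W \ X) L') : GoodOn G W L := by
  obtain ⟨c1, hc1, hd1⟩ := h1 β L
    ⟨fun Y hY => h.hb Y (hY.trans hXW), fun v hv => h.hL v (hXW hv), fun v hv => h.h23 v (hXW hv),
      fun v hv => h.heq v (hXW hv)⟩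
  set N : V → Finset V := fun v => {u ∈ X | G.Adj v u} with hN
  set β' : V → ℝ := fun v => β v - (#(N v) : ℝ) with hβ'
  set L' : V → Finset C := fun v => L v \ (N v).image c1 with hL'
  have hcard : ∀ v, (#(L v) : ℝ) - #(N v) ≤ #(L' v) := by
    intro v
    have h3 := Finset.le_card_sdiff ((N v).image c1) (L v)
    have h4 : #((N v).image c1) ≤ #(N v) := Finset.card_image_le
    have h5 : #(L v) ≤ #(L' v) + #(N v) := by
      simp only [hL']
      omega
    have h6 : (#(L v) : ℝ) ≤ #(L' v) + #(N v) := by exact_mod_cast h5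
    linarith
  have hsing : ∀ v ∈ W \ X, (#(N v) : ℝ) ≤ β v := by
    intro v hv
    obtain ⟨hvW, hvX⟩ := Finset.mem_sdiff.mp hv
    have h3 := h.hb (X ∪ {v}) (Finset.union_subset hXW (by simpa using hvW))
    have hdis : Disjoint X {v} := by simpa using hvX
    rw [E2_union G X {v} hdis, Finset.sum_union hdis] at h3
    push_cast at h3
    simp only [Finset.sum_singleton] at h3
    have h4 : (0:ℝ) ≤ (E2 G {v} : ℝ) := by positivity
    simp only [hN]
    linarith
  have hHyp : Hyp G C0 (W \ X) β' L' := by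
    refine ⟨?_, ?_, ?_, ?_⟩
    · intro Y hY
      have hdis : Disjoint X Y := by
        rw [Finset.disjoint_left]
        intro v hvX hvY
        exact (Finset.mem_sdiff.mp (hY hvY)).2 hvX
      have h3 := h.hb (X ∪ Y) (Finset.union_subset hXW (hY.trans Finset.sdiff_subset))
      rw [E2_union G X Y hdis, Finset.sum_union hdis] at h3
      push_cast at h3
      simp only [hβ', Finset.sum_sub_distrib]
      simp only [hN]
      linarith
    · intro v hv
      rcases Nat.eq_zero_or_pos #(N v) with h0 | h0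
      · have : N v = ∅ := Finset.card_eq_zero.mp h0
        simp only [hL', this, Finset.image_empty, Finset.sdiff_empty]
        exact h.hL v (Finset.mem_sdiff.mp hv).1
      · rw [← Finset.card_pos]
        have h3 := hcard v
        have h4 := hsing v hv
        have h5 := h.h23 v (Finset.mem_sdiff.mp hv).1
        have h6 : (1:ℝ) ≤ #(N v) := by exact_mod_cast h0
        have h7 : (0:ℝ) < #(L' v) := by linarith
        exact_mod_cast h7
    · intro v hv
      have h3 := hcard v
      have h5 := h.h23 v (Finset.mem_sdiff.mp hv).1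
      have h6 : (0:ℝ) ≤ #(N v) := by positivity
      simp only [hβ']
      linarith
    · intro v hv he
      have h3 := hcard v
      have h5 := h.h23 v (Finset.mem_sdiff.mp hv).1
      rcases Nat.eq_zero_or_pos #(N v) with h0 | h0
      · have hz : N v = ∅ := Finset.card_eq_zero.mp h0
        have hLv : L' v = L v := by simp [hL', hz]
        rw [hLv] at he ⊢
        refine h.heq v (Finset.mem_sdiff.mp hv).1 ?_
        rw [← he]
        simp [hβ', hz]
      · exfalso
        have h6 : (1:ℝ) ≤ #(N v) := by exact_mod_cast h0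
        simp only [hβ'] at he
        linarith
  obtain ⟨c2, hc2, hd2⟩ := h2 β' L' hHyp
  classical
  refine ⟨fun v => if v ∈ X then c1 v else c2 v, ?_, ?_⟩
  · intro v hv
    by_cases hvX : v ∈ X
    · simp only [hvX, if_true]
      exact hc1 v hvX
    · simp only [hvX, if_false]
      have := hc2 v (Finset.mem_sdiff.mpr ⟨hv, hvX⟩)
      exact (Finset.mem_sdiff.mp this).1
  · -- no conflict between `X` and the rest
    have hno : ∀ u ∈ X, ∀ v ∈ W \ X, G.Adj v u → c2 v ≠ c1 u := by
      intro u hu v hv hadj heq'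
      have h3 := (Finset.mem_sdiff.mp (hc2 v hv)).2
      apply h3
      rw [heq']
      exact Finset.mem_image_of_mem _ (by simp [hN, hu, hadj])
    intro v hv
    by_cases hvX : v ∈ X
    · refine le_trans (Finset.card_le_card ?_) (hd1 v hvX)
      intro u hu
      simp only [Finset.mem_filter, hvX, if_true] at hu ⊢
      obtain ⟨huW, hadj, hcu⟩ := hu
      by_cases huX : u ∈ X
      · simp only [huX, if_true] at hcu
        exact ⟨huX, hadj, hcu⟩
      · simp only [huX, if_false] at hcu
        exact absurd hcu (hno v hvX u (Finset.mem_sdiff.mpr ⟨huW, huX⟩) hadj.symm)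
    · have hv' : v ∈ W \ X := Finset.mem_sdiff.mpr ⟨hv, hvX⟩
      refine le_trans (Finset.card_le_card ?_) (hd2 v hv')
      intro u hu
      simp only [Finset.mem_filter, hvX, if_false] at hu ⊢
      obtain ⟨huW, hadj, hcu⟩ := hu
      by_cases huX : u ∈ X
      · simp only [huX, if_true] at hcu
        exact absurd hcu.symm (hno u huX v hv' hadj)
      · simp only [huX, if_false] at hcu
        exact ⟨Finset.mem_sdiff.mpr ⟨huW, huX⟩, hadj, hcu⟩

/-- The strongly connected tight case inside `V`. -/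
lemma coreOn {V : Type u} [Fintype V] [DecidableEq V] (G : SimpleGraph V) [DecidableRel G.Adj]
    (C0 : Finset C) (h2 : 2 ≤ #C0) (hcore : CoreStatement.{u, w} C C0) (W : Finset V)
    (β : V → ℝ) (L : V → Finset C) (h : Hyp G C0 W β L) (hne : W.Nonempty)
    (ht : (E2 G W : ℝ) = 2 * ∑ v ∈ W, β v)
    (hs : ∀ X ⊂ W, X.Nonempty → (E2 G X : ℝ) < 2 * ∑ v ∈ X, β v) : GoodOn G W L := by
  classical
  have hmap : (univ : Finset {x // x ∈ W}).map (Function.Embedding.subtype _) = W := by
    ext v; simp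
  have hsum : ∀ Y : Finset {x // x ∈ W},
      ∑ v ∈ Y.map (Function.Embedding.subtype _), β v = ∑ v ∈ Y, β v.1 := by
    intro Y
    rw [Finset.sum_map]; rfl
  obtain ⟨w0, hw0⟩ := hne
  obtain ⟨c, hc, hd⟩ := hcore {x // x ∈ W} (G.comap Subtype.val) (fun v => β v.1) (fun v => L v.1)
    ⟨⟨w0, hw0⟩⟩
    (by rw [E2_comap, ← hsum, hmap]; exact ht)
    (by
      intro X hX hXu
      rw [E2_comap, ← hsum]
      refine hs _ ?_ (by simpa using hX)
      rw [Finset.ssubset_iff_subset_ne]
      refine ⟨?_, ?_⟩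
      · intro v hv
        obtain ⟨x, _, rfl⟩ := Finset.mem_map.mp hv
        exact x.2
      · intro he
        apply hXu
        exact Finset.map_injective _ (he.trans hmap.symm))
    (fun v => h.hL v.1 v.2) (fun v => h.h23 v.1 v.2) (fun v => h.heq v.1 v.2)
  have hC0 : C0.Nonempty := Finset.card_pos.mp (by omega)
  obtain ⟨d0, _⟩ := hC0
  refine ⟨fun v => if hv : v ∈ W then c ⟨v, hv⟩ else d0, ?_, ?_⟩
  · intro v hv
    simp only [hv, dif_pos]
    exact hc ⟨v, hv⟩
  · intro v hv
    refine le_trans ?_ (hd ⟨v, hv⟩)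
    rw [← Finset.card_map (Function.Embedding.subtype (fun x => x ∈ W))]
    refine Finset.card_le_card ?_
    intro u hu
    simp only [Finset.mem_filter, hv, dif_pos] at hu
    obtain ⟨huW, hadj, hcu⟩ := hu
    simp only [huW, dif_pos] at hcu
    refine Finset.mem_map.mpr ⟨⟨u, huW⟩, ?_, rfl⟩
    simp only [Finset.mem_filter, SimpleGraph.mem_neighborFinset, SimpleGraph.comap_adj]
    exact ⟨hadj, hcu⟩

/-- Some nonempty subset of `W` is tight. -/
lemma tightCase {V : Type u} [Fintype V] [DecidableEq V] (G : SimpleGraph V) [DecidableRel G.Adj]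
    (C0 : Finset C) (h2 : 2 ≤ #C0) (hcore : CoreStatement.{u, w} C C0) (W : Finset V)
    (β : V → ℝ) (L : V → Finset C) (h : Hyp G C0 W β L)
    (ih : ∀ W' : Finset V, #W' < #W → ∀ β' L', Hyp G C0 W' β' L' → GoodOn G W' L')
    (X : Finset V) (hX : X ⊆ W) (hne : X.Nonempty) (ht : (E2 G X : ℝ) = 2 * ∑ v ∈ X, β v) :
    GoodOn G W L := by
  classical
  by_cases hex : ∃ Y ⊂ W, Y.Nonempty ∧ (E2 G Y : ℝ) = 2 * ∑ v ∈ Y, β v
  · obtain ⟨Y, hYW, hYne, hYt⟩ := hex
    refine split G C0 W Y β L h hYW.subset hYt (ih Y (Finset.card_lt_card hYW)) (ih (W \ Y) ?_)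
    refine Finset.card_lt_card ?_
    exact Finset.sdiff_ssubset hYW.subset hYne
  · push Not at hex
    have hXW : X = W := by
      by_contra hne'
      exact hex X (Finset.ssubset_iff_subset_ne.mpr ⟨hX, hne'⟩) hne ht
    subst hXW
    refine coreOn G C0 h2 hcore X β L h hne ht ?_
    intro Y hY hYne
    exact lt_of_le_of_ne (h.hb Y hY.subset) (hex Y hY hYne)

/-- The induction. -/
lemma all {V : Type u} [Fintype V] [DecidableEq V] (G : SimpleGraph V) [DecidableRel G.Adj]
    (C0 : Finset C) (h2 : 2 ≤ #C0) (hcore : CoreStatement.{u, w} C C0) :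
    ∀ (n : ℕ) (W : Finset V), #W ≤ n → ∀ (β : V → ℝ) (L : V → Finset C), Hyp G C0 W β L →
      GoodOn G W L := by
  classical
  intro n
  induction n with
  | zero =>
    intro W hW β L _
    have : W = ∅ := Finset.card_eq_zero.mp (by omega)
    subst this
    have hC0 : C0.Nonempty := Finset.card_pos.mp (by omega)
    obtain ⟨d0, _⟩ := hC0
    exact ⟨fun _ => d0, by simp, by simp⟩
  | succ n ihn =>
    intro W hW β L h
    have ih : ∀ W' : Finset V, #W' < #W → ∀ β' L', Hyp G C0 W' β' L' → GoodOn G W' L' :=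
      fun W' hW' β' L' h' => ihn W' (by omega) β' L' h'
    rcases W.eq_empty_or_nonempty with rfl | hne
    · exact ihn ∅ (by simp) β L h
    obtain ⟨v0, hv0⟩ := hne
    -- the least slack of a set containing `v0`
    set P : Finset (Finset V) := W.powerset.filter (fun X => v0 ∈ X) with hP
    have hPne : P.Nonempty := ⟨W, by simp [hP, hv0]⟩
    obtain ⟨X, hXP, hXmin⟩ := Finset.exists_min_image P
      (fun X => 2 * ∑ v ∈ X, β v - (E2 G X : ℝ)) hPne
    have hXW : X ⊆ W := by
      have := (Finset.mem_filter.mp hXP).1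
      exact Finset.mem_powerset.mp this
    have hv0X : v0 ∈ X := (Finset.mem_filter.mp hXP).2
    set δ : ℝ := (2 * ∑ v ∈ X, β v - (E2 G X : ℝ)) / 2 with hδ
    have hδ0 : 0 ≤ δ := by
      have := h.hb X hXW
      simp only [hδ]; linarith
    set β' : V → ℝ := fun v => β v - (if v = v0 then δ else 0) with hβ'
    have hsumβ : ∀ Y : Finset V, ∑ v ∈ Y, β' v = ∑ v ∈ Y, β v - (if v0 ∈ Y then δ else 0) := by
      intro Y
      simp only [hβ', Finset.sum_sub_distrib, Finset.sum_ite_eq']
    have hle : ∀ v, β' v ≤ β v := by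
      intro v
      simp only [hβ']
      split_ifs <;> linarith
    have h' : Hyp G C0 W β' L := by
      refine ⟨?_, h.hL, ?_, ?_⟩
      · intro Y hY
        rw [hsumβ]
        by_cases hY0 : v0 ∈ Y
        · have h3 := hXmin Y (by simp [hP, hY, hY0])
          simp only [hY0, if_true, hδ]
          linarith
        · have h3 := h.hb Y hY
          simp only [hY0, if_false]
          linarith
      · intro v hv
        have := h.h23 v hv
        have := hle v
        linarith
      · intro v hv he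
        refine h.heq v hv ?_
        have h3 := h.h23 v hv
        have h4 := hle v
        linarith
    refine tightCase G C0 h2 hcore W β' L h' ih X hXW ⟨v0, hv0X⟩ ?_
    rw [hsumβ]
    simp only [hv0X, if_true, hδ]
    ring

/-- Statement (A). -/
theorem statementA {V : Type u} [Fintype V] [DecidableEq V] (G : SimpleGraph V) [DecidableRel G.Adj]
    (C0 : Finset C) (h2 : 2 ≤ #C0) (hcore : CoreStatement.{u, w} C C0) (β : V → ℝ) (L : V → Finset C)
    (hb : ∀ X : Finset V, (E2 G X : ℝ) ≤ 2 * ∑ v ∈ X, β v)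
    (hL : ∀ v, (L v).Nonempty) (h23 : ∀ v, 3 * β v ≤ 2 * (#(L v) : ℝ))
    (heq : ∀ v, 3 * β v = 2 * (#(L v) : ℝ) → L v = C0) :
    ∃ c : V → C, (∀ v, c v ∈ L v) ∧ ∀ v, #{u ∈ G.neighborFinset v | c u = c v} ≤ 1 := by
  obtain ⟨c, hc, hd⟩ := all G C0 h2 hcore _ univ le_rfl β L
    ⟨fun X _ => hb X, fun v _ => hL v, fun v _ => h23 v, fun v _ => heq v⟩
  refine ⟨c, fun v => hc v (mem_univ v), fun v => ?_⟩
  refine le_trans (Finset.card_le_card ?_) (hd v (mem_univ v))
  intro u hu
  simp only [Finset.mem_filter, SimpleGraph.mem_neighborFinset, mem_univ, true_and] at hu ⊢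
  exact hu

/-- The corollary for `3` colours. -/
theorem three_one {V : Type u} [Fintype V] [DecidableEq V] (G : SimpleGraph V) [DecidableRel G.Adj]
    (hcore : CoreStatement.{u, 0} (Fin 3) univ)
    (hb : ∀ X : Finset V, E2 G X ≤ 4 * #X) :
    ∃ c : V → Fin 3, ∀ v, #{u ∈ G.neighborFinset v | c u = c v} ≤ 1 := by
  obtain ⟨c, _, hd⟩ := statementA G (univ : Finset (Fin 3)) (by simp) hcore (fun _ => 2)
    (fun _ => univ)
    (by
      intro X
      have := hb X
      have h3 : (E2 G X : ℝ) ≤ 4 * #X := by exact_mod_cast this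
      simp only [Finset.sum_const, nsmul_eq_mul]
      linarith)
    (fun v => by simp) (fun v => by simp; norm_num) (fun v _ => rfl)
  exact ⟨c, hd⟩

end main

end Pool.Agent.W986.Peel2
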