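import Pool.Agent.W986.Surface

/-!
# From one matching-like set and three colours to four colours
-/

set_option autoImplicit false

open Finset

namespace Pool.Agent.W986

open Pool.Agent.DC76

/-- Every finite graph with at most `2|X|` edges inside every set `X` has a `(3, 1)`-colouring. -/
def L2Stmt : Prop :=
  ∀ (V : Type) (_ : Finite V) (G : SimpleGraph V), (∀ X : Finset V, ein G X ≤ 2 * X.card) →
    ∃ c : V → Fin 3, Defective G 1 c

/-- `S` is a matching-like set of `G` such that `G - S` has at most `2|T|` edges inside `T`. -/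
def Peels {V : Type} (G : SimpleGraph V) (S : Set V) : Prop :=
  (∀ v ∈ S, {u | u ∈ S ∧ G.Adj v u}.ncard ≤ 1) ∧
    ∀ T : Finset V, (∀ v ∈ T, v ∉ S) → ein G T ≤ 2 * T.card

theorem ein_comap {V W : Type} (G : SimpleGraph V) (f : W → V) (hf : Function.Injective f)
    (X : Finset W) : ein (G.comap f) X = ein G (X.map ⟨f, hf⟩) := by
  unfold ein
  rw [← Set.ncard_image_of_injective _ (Sym2.map.injective hf)]
  congr 1
  ext e
  constructor
  · rintro ⟨e', ⟨he1, he2⟩, rfl⟩
    induction e' using Sym2.ind with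
    | _ x y =>
      rw [Sym2.map_mk]
      refine ⟨(G.mem_edgeSet).2 ((SimpleGraph.mem_edgeSet _).1 he1), ?_⟩
      intro v hv
      rcases Sym2.mem_iff.1 hv with rfl | rfl
      · exact Finset.mem_map.2 ⟨x, he2 x (Sym2.mem_mk_left x y), rfl⟩
      · exact Finset.mem_map.2 ⟨y, he2 y (Sym2.mem_mk_right x y), rfl⟩
  · rintro ⟨he1, he2⟩
    induction e using Sym2.ind with
    | _ a b =>
      obtain ⟨x, hx, hxa⟩ := Finset.mem_map.1 (he2 a (Sym2.mem_mk_left a b))
      obtain ⟨y, hy, hyb⟩ := Finset.mem_map.1 (he2 b (Sym2.mem_mk_right a b))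
      change f x = a at hxa
      change f y = b at hyb
      subst hxa
      subst hyb
      refine ⟨s(x, y), ⟨?_, ?_⟩, ?_⟩
      · exact (SimpleGraph.mem_edgeSet _).2 ((G.mem_edgeSet).1 he1)
      · intro v hv
        rcases Sym2.mem_iff.1 hv with rfl | rfl
        · exact hx
        · exact hy
      · rw [Sym2.map_mk]

/-- One peel and the theorem on three colours give four colours. -/
theorem four_of_peel (hL : L2Stmt) {U : Type} [Finite U] (H : SimpleGraph U) (S : Set U)
    (hS : Peels H S) : ∃ c : U → Fin 4, Defective H 1 c := by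
  classical
  obtain ⟨c', hc'⟩ := hL {v // v ∉ S} inferInstance (H.comap Subtype.val) (by
    intro X
    rw [ein_comap H Subtype.val Subtype.val_injective X]
    refine le_trans (hS.2 _ ?_) (by rw [Finset.card_map])
    intro v hv
    obtain ⟨x, _, rfl⟩ := Finset.mem_map.1 hv
    exact x.2)
  have hlt : ∀ v (h : v ∉ S), (⟨(c' ⟨v, h⟩).val, by omega⟩ : Fin 4) ≠ 3 := by
    intro v h h3
    have h4 := congrArg Fin.val h3
    have h5 := (c' ⟨v, h⟩).isLt
    change (c' ⟨v, h⟩).val = 3 at h4
    omega
  refine ⟨fun v => if h : v ∈ S then 3 else ⟨(c' ⟨v, h⟩).val, by omega⟩, fun v => ?_⟩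
  by_cases hv : v ∈ S
  · refine le_trans (Set.ncard_le_ncard ?_ (Set.toFinite _)) (hS.1 v hv)
    rintro u ⟨hu1, hu2⟩
    refine ⟨?_, hu1⟩
    by_contra hu
    beta_reduce at hu2
    rw [dif_neg hu, dif_pos hv] at hu2
    exact hlt u hu hu2
  · refine le_trans ?_ (hc' ⟨v, hv⟩)
    rw [← Set.ncard_image_of_injective _ (Subtype.val_injective (p := fun v => v ∉ S))]
    refine Set.ncard_le_ncard ?_ (Set.toFinite _)
    rintro u ⟨hu1, hu2⟩
    beta_reduce at hu2
    by_cases hu : u ∈ S
    · rw [dif_pos hu, dif_neg hv] at hu2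
      exact absurd hu2.symm (hlt v hv)
    · rw [dif_neg hu, dif_neg hv] at hu2
      refine ⟨⟨u, hu⟩, ⟨hu1, ?_⟩, rfl⟩
      exact Fin.ext (Fin.mk.inj hu2)

/-- If every finite graph with at most `3|X|` edges inside every set `X` can be peeled, then every
such graph has a `(4, 1)`-colouring; in particular every graph on a surface of Euler characteristic
at least `0`. -/
theorem surface_of_peel (hL : L2Stmt)
    (hS : ∀ (V : Type) (_ : Finite V) (G : SimpleGraph V), (∀ X : Finset V, ein G X ≤ 3 * X.card) →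
      ∃ S : Set V, Peels G S)
    {U : Type} (H : SimpleGraph U) (χ : ℤ) (hχ : 0 ≤ χ) (h : OnSurface χ H) :
    ∃ c : U → Fin 4, Defective H 1 c := by
  have hfin : Finite U := by
    obtain ⟨V, F, _, _, _, G, f, hf, _⟩ := h
    exact Finite.of_injective f hf
  obtain ⟨S, hS'⟩ := hS U hfin H (ein_le_three H χ hχ h)
  exact four_of_peel hL H S hS'

/-- The same for the projective plane, with the smaller number of edges. -/
theorem projective_of_peel (hL : L2Stmt)
    (hS : ∀ (V : Type) (_ : Finite V) (G : SimpleGraph V),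
      (∀ X : Finset V, X.Nonempty → ein G X + 3 ≤ 3 * X.card) → ∃ S : Set V, Peels G S)
    {U : Type} (H : SimpleGraph U) (χ : ℤ) (hχ : 1 ≤ χ) (h : OnSurface χ H) :
    ∃ c : U → Fin 4, Defective H 1 c := by
  have hfin : Finite U := by
    obtain ⟨V, F, _, _, _, G, f, hf, _⟩ := h
    exact Finite.of_injective f hf
  obtain ⟨S, hS'⟩ := hS U hfin H (ein_le_three_sub H χ hχ h)
  exact four_of_peel hL H S hS'

end Pool.Agent.W986
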