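import Pool.Agent.W986.Core
import Pool.Agent.W986.Peel2
import Pool.Agent.W986.Scaffold

/-!
# The theorem (L2)

`e(X) ≤ 2|X|` for all `X` implies a `(3, 1)`-colouring; list version.
-/

set_option autoImplicit false

namespace Pool.Agent.W986

open Finset Pool.Agent.W986.BT Pool.Agent.W986.Peel2 Pool.Agent.DC76

universe u w

theorem coreStatement {C : Type w} [DecidableEq C] (C0 : Finset C) (h2 : 2 ≤ #C0) :
    CoreStatement.{u, w} C C0 := by
  intro V _ _ G _ β L hne hV hX hL h23 heq
  exact Core.core G β L C0 h2 hV hX hL h23 heq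

/-- Real form: `e(X) ≤ β(X)` for all `X`, nonempty lists with `3 β v ≤ 2 |L v|`, equality only if
`L v` is one fixed list. -/
theorem listReal {V : Type u} [Fintype V] [DecidableEq V] (G : SimpleGraph V) [DecidableRel G.Adj]
    {C : Type w} [DecidableEq C] (C0 : Finset C) (h2 : 2 ≤ #C0) (β : V → ℝ) (L : V → Finset C)
    (hb : ∀ X : Finset V, (E2 G X : ℝ) ≤ 2 * ∑ v ∈ X, β v)
    (hL : ∀ v, (L v).Nonempty) (h23 : ∀ v, 3 * β v ≤ 2 * (#(L v) : ℝ))
    (heq : ∀ v, 3 * β v = 2 * (#(L v) : ℝ) → L v = C0) :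
    ∃ c : V → C, (∀ v, c v ∈ L v) ∧ ∀ v, #{u ∈ G.neighborFinset v | c u = c v} ≤ 1 :=
  statementA G C0 h2 (coreStatement C0 h2) β L hb hL h23 heq

theorem E2_eq_ein {V : Type} [Fintype V] [DecidableEq V] (G : SimpleGraph V) [DecidableRel G.Adj]
    (X : Finset V) : E2 G X = 2 * ein G X := by
  classical
  let H : SimpleGraph V :=
    { Adj := fun u v => G.Adj u v ∧ u ∈ X ∧ v ∈ X
      symm := ⟨fun u v h => ⟨h.1.symm, h.2.2, h.2.1⟩⟩
      loopless := ⟨fun u h => G.loopless.irrefl u h.1⟩ }
  have hset : {e ∈ G.edgeSet | ∀ v ∈ e, v ∈ X} = H.edgeSet := by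
    ext e
    induction e using Sym2.ind with
    | _ x y =>
      simp only [Set.mem_ofPred_eq, SimpleGraph.mem_edgeSet, Sym2.mem_iff, H]
      constructor
      · rintro ⟨h1, h2⟩
        exact ⟨h1, h2 x (Or.inl rfl), h2 y (Or.inr rfl)⟩
      · rintro ⟨h1, h2, h3⟩
        refine ⟨h1, ?_⟩
        rintro v (rfl | rfl)
        · exact h2
        · exact h3
  have h1 : ein G X = #H.edgeFinset := by
    unfold ein
    rw [hset, Set.ncard_eq_toFinset_card']
    rfl
  rw [h1, ← H.sum_degrees_eq_twice_card_edges]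
  unfold E2
  rw [← Finset.sum_subset (Finset.subset_univ X)]
  · refine Finset.sum_congr rfl fun v hv => ?_
    rw [← SimpleGraph.card_neighborFinset_eq_degree]
    congr 1
    ext u
    simp only [Finset.mem_filter, SimpleGraph.mem_neighborFinset, H]
    tauto
  · intro v _ hv
    rw [← SimpleGraph.card_neighborFinset_eq_degree, Finset.card_eq_zero]
    ext u
    simp only [SimpleGraph.mem_neighborFinset, H, Finset.notMem_empty, iff_false]
    tauto

/-- Every finite graph with at most `2|X|` edges inside every set `X` has a `(3, 1)`-colouring. -/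
theorem l2Stmt : L2Stmt := by
  intro V hfin G hb
  classical
  have : Fintype V := Fintype.ofFinite V
  obtain ⟨c, hc⟩ := three_one G (coreStatement univ (by simp)) (fun X => by
    rw [E2_eq_ein]
    have := hb X
    omega)
  refine ⟨c, fun v => ?_⟩
  refine le_trans (le_of_eq ?_) (hc v)
  rw [Set.ncard_eq_toFinset_card']
  congr 1
  ext u
  simp

end Pool.Agent.W986
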