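import Pool.Agent.W986.EarLink

/-!
# Embedded graphs grow by vertices joined to both ends of an edge
-/

set_option autoImplicit false

open Finset

namespace Pool.Agent.W986

open Pool.Agent.DC76

theorem ear_connected {V : Type} {G : SimpleGraph V} {u v : V} (hG : G.Connected) :
    (earG G u v).Connected := by
  let hom : G →g earG G u v := ⟨some, fun h => h⟩
  have h1 : ∀ a, (earG G u v).Reachable (some u) (some a) := fun a =>
    (hG.preconnected u a).map hom
  have h3 : (earG G u v).Adj (some u) none := Or.inl rfl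
  have h2 : ∀ a, (earG G u v).Reachable (some u) a := by
    rintro (_ | a)
    · exact h3.reachable
    · exact h1 a
  haveI : Nonempty (Option V) := ⟨none⟩
  exact SimpleGraph.Connected.mk fun a b => (h2 a).symm.trans (h2 b)

theorem ear_edges {V : Type} [Finite V] {G : SimpleGraph V} {u v : V} (huv : u ≠ v) :
    (earG G u v).edgeSet.ncard = G.edgeSet.ncard + 2 := by
  have h1 : (earG G u v).edgeSet =
      Sym2.map some '' G.edgeSet ∪ {s(none, some u), s(none, some v)} := by
    ext e
    induction e using Sym2.ind with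
    | _ a b =>
      rw [SimpleGraph.mem_edgeSet]
      constructor
      · intro h
        rcases a with _ | a <;> rcases b with _ | b
        · exact absurd h ((earG G u v).irrefl)
        · rcases (h : b = u ∨ b = v) with h | h
          · exact Or.inr (Or.inl (by rw [h]))
          · exact Or.inr (Or.inr (by rw [h, Set.mem_singleton_iff]))
        · rcases (h : a = u ∨ a = v) with h | h
          · exact Or.inr (Or.inl (by rw [h, Sym2.eq_swap]))
          · exact Or.inr (Or.inr (by rw [h, Set.mem_singleton_iff, Sym2.eq_swap]))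
        · exact Or.inl ⟨s(a, b), h, rfl⟩
      · rintro (⟨e', he', heq⟩ | h | h)
        · induction e' using Sym2.ind with
          | _ x y =>
            rw [Sym2.map_mk, Sym2.eq_iff] at heq
            rcases heq with ⟨rfl, rfl⟩ | ⟨rfl, rfl⟩
            · exact he'
            · exact G.symm.symm _ _ he'
        · rw [Sym2.eq_iff] at h
          rcases h with ⟨rfl, rfl⟩ | ⟨rfl, rfl⟩
          · exact Or.inl rfl
          · exact Or.inl rfl
        · rw [Set.mem_singleton_iff, Sym2.eq_iff] at h
          rcases h with ⟨rfl, rfl⟩ | ⟨rfl, rfl⟩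
          · exact Or.inr rfl
          · exact Or.inr rfl
  rw [h1, Set.ncard_union_eq _ (Set.toFinite _) (Set.toFinite _),
    Set.ncard_image_of_injective _ (Sym2.map.injective (Option.some_injective _)),
    Set.ncard_pair]
  · intro h
    rw [Sym2.eq_iff] at h
    rcases h with ⟨_, h⟩ | ⟨h, _⟩
    · exact huv (Option.some_injective _ h)
    · cases h
  · rw [Set.disjoint_left]
    rintro e ⟨e', _, rfl⟩ h
    induction e' using Sym2.ind with
    | _ x y =>
      rw [Sym2.map_mk] at h
      rcases h with h | h <;> simp [Sym2.eq_iff] at h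

/-- `G` is connected, has an edge and has a cellular embedding of Euler characteristic `χ`. -/
def IsBase (o : Prop) (χ : ℤ) {V : Type} (G : SimpleGraph V) : Prop :=
  ∃ (F : Type) (_ : Fintype V) (_ : DecidableEq V) (_ : Fintype F), G.Connected ∧
    (∃ a b, G.Adj a b) ∧ (∃ M : FacialWalks G F, Link M ∧ (o → Oriented M)) ∧
      (Fintype.card V : ℤ) - G.edgeSet.ncard + Fintype.card F = χ

theorem IsBase.ear {o : Prop} {χ : ℤ} {V : Type} {G : SimpleGraph V} (h : IsBase o χ G) {u v : V}
    (huv : G.Adj u v) : IsBase o χ (earG G u v) := by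
  obtain ⟨F, _, _, _, hG, _, ⟨M, hM1, hM2⟩, hχ⟩ := h
  have main : ∀ u v : V, G.Adj u v → (∃ f t, t < M.len f ∧ M.walk f t = u ∧
      M.walk f (t + 1) = v) → IsBase o χ (earG G u v) := by
    rintro u v huv ⟨f, t, ht, hu, hv⟩
    refine ⟨Option F, inferInstance, inferInstance, inferInstance, ear_connected hG,
      ⟨some u, some v, huv⟩, ⟨earM M huv ht hu hv, ear_link M huv ht hu hv hM1,
        fun ho => ear_oriented M huv ht hu hv (hM2 ho)⟩, ?_⟩
    rw [ear_edges huv.ne, Fintype.card_option, Fintype.card_option]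
    push_cast
    linarith
  obtain ⟨f, t, ht, h1 | h1⟩ := exists_step M huv
  · exact main u v huv ⟨f, t, ht, h1.1, h1.2⟩
  · have h2 := main v u huv.symm ⟨f, t, ht, h1.1, h1.2⟩
    have h3 : earG G v u = earG G u v := by
      ext a b
      rcases a with _ | a <;> rcases b with _ | b
      · exact Iff.rfl
      · exact or_comm
      · exact or_comm
      · exact Iff.rfl
    rw [h3] at h2
    exact h2

/-- The graph induced by `H` on `S` is a subgraph of a base graph. -/
def EmbedsOn (o : Prop) (χ : ℤ) {U : Type} (H : SimpleGraph U) (S : Set U) : Prop :=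
  ∃ (V : Type) (G : SimpleGraph V) (f : U → V), IsBase o χ G ∧ Set.InjOn f S ∧
    ∀ x ∈ S, ∀ y ∈ S, H.Adj x y → G.Adj (f x) (f y)

theorem IsBase.embedsOn {o : Prop} {χ : ℤ} {V : Type} {G : SimpleGraph V} (h : IsBase o χ G)
    {U : Type} (H : SimpleGraph U) : EmbedsOn o χ H ∅ := by
  obtain ⟨F, _, _, _, hG, ⟨a, b, hab⟩, hM, hχ⟩ := id h
  exact ⟨V, G, fun _ => a, h, by simp, by simp⟩

theorem IsBase.embeds {o : Prop} {χ : ℤ} {V : Type} {G : SimpleGraph V} (h : IsBase o χ G) :
    Embeds o χ G := by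
  obtain ⟨F, i1, i2, i3, hG, _, hM, hχ⟩ := h
  exact ⟨V, F, i1, i2, i3, G, id, Function.injective_id, fun _ _ h => h, hG, hM, hχ⟩

theorem EmbedsOn.embeds {o : Prop} {χ : ℤ} {U : Type} {H : SimpleGraph U}
    (h : EmbedsOn o χ H Set.univ) : Embeds o χ H := by
  obtain ⟨V, G, f, ⟨F, i1, i2, i3, hG, _, hM, hχ⟩, hf, hHG⟩ := h
  exact ⟨V, F, i1, i2, i3, G, f, Set.injOn_univ.1 hf,
    fun x y => hHG x (Set.mem_univ _) y (Set.mem_univ _), hG, hM, hχ⟩

/-- One more vertex, with at most two neighbours so far, which are adjacent. -/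
theorem EmbedsOn.insert {o : Prop} {χ : ℤ} {U : Type} {H : SimpleGraph U} {S : Set U}
    (h : EmbedsOn o χ H S) {x : U} (hx : x ∉ S)
    (hN : (∀ y ∈ S, ¬ H.Adj x y) ∨ (∃ u ∈ S, ∀ y ∈ S, H.Adj x y → y = u) ∨
      ∃ u ∈ S, ∃ v ∈ S, H.Adj u v ∧ ∀ y ∈ S, H.Adj x y → y = u ∨ y = v) :
    EmbedsOn o χ H (Insert.insert x S) := by
  classical
  obtain ⟨V, G, f, hB, hf, hHG⟩ := h
  have key : ∃ a b, G.Adj a b ∧ ∀ y ∈ S, H.Adj x y → f y = a ∨ f y = b := by
    obtain ⟨F, _, _, _, hG, ⟨a0, b0, hab0⟩, _⟩ := hB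
    rcases hN with hN | ⟨u, hu, hN⟩ | ⟨u, hu, v, hv, huv, hN⟩
    · exact ⟨a0, b0, hab0, fun y hy h => absurd h (hN y hy)⟩
    · have : ∃ b, G.Adj (f u) b := by
        haveI : Nontrivial V := ⟨a0, b0, hab0.ne⟩
        exact hG.preconnected.exists_adj_of_nontrivial (f u)
      obtain ⟨b, hb⟩ := this
      exact ⟨f u, b, hb, fun y hy h => Or.inl (by rw [hN y hy h])⟩
    · refine ⟨f u, f v, hHG u hu v hv huv, fun y hy h => ?_⟩
      rcases hN y hy h with h | h
      · exact Or.inl (by rw [h])
      · exact Or.inr (by rw [h])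
  obtain ⟨a, b, hab, hN⟩ := key
  have hne : ∀ y ∈ S, y ≠ x := fun y hy e => hx (e ▸ hy)
  refine ⟨Option V, earG G a b, fun y => if y = x then none else some (f y), hB.ear hab, ?_, ?_⟩
  · rintro y (rfl | hy) z (rfl | hz) hyz
    · rfl
    · beta_reduce at hyz
      rw [if_pos rfl, if_neg (hne z hz)] at hyz
      cases hyz
    · beta_reduce at hyz
      rw [if_pos rfl, if_neg (hne y hy)] at hyz
      cases hyz
    · beta_reduce at hyz
      rw [if_neg (hne y hy), if_neg (hne z hz)] at hyz
      exact hf hy hz (Option.some_injective _ hyz)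
  · rintro y (rfl | hy) z (rfl | hz) hyz
    · exact absurd hyz H.irrefl
    · beta_reduce
      rw [if_pos rfl, if_neg (hne z hz)]
      exact hN z hz hyz
    · beta_reduce
      rw [if_pos rfl, if_neg (hne y hy)]
      exact hN y hy hyz.symm
    · beta_reduce
      rw [if_neg (hne y hy), if_neg (hne z hz)]
      exact hHG y hy z hz hyz

end Pool.Agent.W986
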