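import Pool.Agent.W986.TorusK7
import Pool.Agent.W986.Extend

/-!
# `K_6` with four new vertices in the projective plane
-/

set_option autoImplicit false

open Finset

namespace Pool.Agent.W986

open Pool.Agent.DC76

/-- If the neighbours of every vertex can be ordered so that consecutive ones form corners, in
one of the two directions, then the links are cycles. -/
theorem link_of_rot' {V : Type} [DecidableEq V] {G : SimpleGraph V} {F : Type} [Fintype F]
    (M : FacialWalks G F) (k : ℕ) (ρ : V → ℕ → V) (h1 : ∀ v a, G.Adj v a → ∃ i, i ≤ k ∧ ρ v i = a)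
    (h2 : ∀ v i, i < k → ∃ f t, t < M.len f ∧ M.walk f (t + 1) = v ∧
      ((M.walk f t = ρ v i ∧ M.walk f ((t + 1) % M.len f + 1) = ρ v (i + 1)) ∨
        (M.walk f t = ρ v (i + 1) ∧ M.walk f ((t + 1) % M.len f + 1) = ρ v i))) : Link M := by
  intro v N ⟨a, ha, hva⟩ ⟨b, hb, hvb⟩
  by_contra hcon
  push Not at hcon
  have hstep : ∀ i, i < k → (ρ v i ∈ N ↔ ρ v (i + 1) ∈ N) := by
    intro i hi
    obtain ⟨f, t, ht, h3, h4⟩ := h2 v i hi
    have h6 := hcon f t ht h3
    rcases h4 with ⟨h4, h5⟩ | ⟨h4, h5⟩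
    · rw [h4, h5] at h6
      tauto
    · rw [h4, h5] at h6
      tauto
  have hall : ∀ i, i ≤ k → (ρ v i ∈ N ↔ ρ v 0 ∈ N) := by
    intro i
    induction i with
    | zero => intro _; exact Iff.rfl
    | succ i ih =>
      intro h
      rw [← hstep i (by omega)]
      exact ih (by omega)
  obtain ⟨i, hi, rfl⟩ := h1 v a hva
  obtain ⟨j, hj, rfl⟩ := h1 v b hvb
  exact hb ((hall j hj).2 ((hall i hi).1 ha))

/-- the triangles of the projective plane with ten vertices -/
def tabP : Fin 18 → Fin 3 → Fin 10 :=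
  ![![0, 1, 6], ![1, 2, 6], ![0, 2, 6], ![0, 2, 7], ![2, 3, 7], ![0, 3, 7], ![0, 3, 8], ![3, 4, 8], ![0, 4, 8], ![0, 4, 5], ![0, 5, 1], ![5, 1, 3], ![3, 4, 1], ![1, 2, 4], ![4, 5, 2], ![2, 5, 9], ![2, 3, 9], ![3, 5, 9]]

/-- the facial walks -/
def walkP (f : Fin 18) (t : ℕ) : Fin 10 := tabP f ⟨t % 3, Nat.mod_lt _ (by norm_num)⟩

/-- the neighbours of the vertices in their cyclic order -/
def listP : Fin 10 → List (Fin 10) :=
  ![[1, 6, 2, 7, 3, 8, 4, 5], [0, 6, 2, 4, 3, 5], [0, 6, 1, 4, 5, 9, 3, 7], [0, 7, 2, 9, 5, 1, 4, 8], [0, 8, 3, 1, 2, 5], [0, 4, 2, 9, 3, 1], [0, 1, 2], [0, 2, 3], [0, 3, 4], [2, 5, 3]]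

/-- the rotation at the vertex `v` -/
def rotP (v : Fin 10) (i : ℕ) : Fin 10 := (listP v).getD (i % (listP v).length) 0

/-- `K_6` with four new vertices, joined to the vertices of four triangles -/
def graphP : SimpleGraph (Fin 10) where
  Adj u v := u ≠ v ∧ v ∈ listP u
  symm := ⟨by
    intro u v h
    exact (by decide +kernel : ∀ u v : Fin 10, (u ≠ v ∧ v ∈ listP u) → (v ≠ u ∧ u ∈ listP v)) u v h⟩
  loopless := ⟨fun u h => h.1 rfl⟩

instance : DecidableRel graphP.Adj := fun u v => inferInstanceAs (Decidable (u ≠ v ∧ v ∈ listP u))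

theorem adjP : ∀ f : Fin 18, ∀ t : Fin 3, graphP.Adj (walkP f t.1) (walkP f (t.1 + 1)) := by
  decide +kernel

theorem twiceP : ∀ u v : Fin 10, graphP.Adj u v → ∑ f, trav 3 (walkP f) u v = 2 := by
  decide +kernel

theorem zeroP : ∀ u v : Fin 10, ¬ graphP.Adj u v → ∀ f, trav 3 (walkP f) u v = 0 := by
  decide +kernel

theorem chainP : ∀ i : Fin 17, ∃ u v : Fin 10, trav 3 (walkP i.castSucc) u v = 1 ∧
    trav 3 (walkP i.succ) u v = 1 := by decide +kernel

theorem nbrP : ∀ v a : Fin 10, graphP.Adj v a → ∃ i : Fin 8, rotP v i.1 = a := by decide +kernel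

theorem cornerP : ∀ v : Fin 10, ∀ i : Fin 7, ∃ f : Fin 18, ∃ t : Fin 3, walkP f (t.1 + 1) = v ∧
    ((walkP f t.1 = rotP v i.1 ∧ walkP f ((t.1 + 1) % 3 + 1) = rotP v (i.1 + 1)) ∨
      (walkP f t.1 = rotP v (i.1 + 1) ∧ walkP f ((t.1 + 1) % 3 + 1) = rotP v i.1)) := by
  decide +kernel

/-- the facial triangles in the projective plane -/
def facialP : FacialWalks graphP (Fin 18) where
  len _ := 3
  walk := walkP
  closed _ := rfl
  adj f t ht := adjP f ⟨t, ht⟩
  twice := twiceP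
  dual I hI hI' := by
    refine dual_of_chain (n := 17) (fun f u v => trav 3 (walkP f) u v) ?_ ?_ I hI hI'
    · rintro u v ⟨f, hf⟩
      by_contra h
      by_cases huv : graphP.Adj u v
      · exact h (twiceP u v huv)
      · exact hf (zeroP u v huv f)
    · intro i h
      exact chainP ⟨i, by omega⟩

theorem edgesP : graphP.edgeSet.ncard = 27 := by
  rw [← SimpleGraph.coe_edgeFinset, Set.ncard_coe_finset]
  decide +kernel

theorem connP : graphP.Connected := by
  have h0 : ∀ v : Fin 10, v = 0 ∨ graphP.Adj 0 v ∨ (graphP.Adj 0 2 ∧ graphP.Adj 2 v) := by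
    decide +kernel
  have h1 : ∀ v, graphP.Reachable 0 v := by
    intro v
    rcases h0 v with h | h | ⟨h, h'⟩
    · rw [h]
    · exact h.reachable
    · exact h.reachable.trans h'.reachable
  exact SimpleGraph.Connected.mk fun a b => (h1 a).symm.trans (h1 b)

theorem baseP : IsBase False 1 graphP := by
  refine ⟨Fin 18, inferInstance, inferInstance, inferInstance, connP, ⟨0, 1, by decide +kernel⟩,
    ⟨facialP, ?_, fun h => h.elim⟩, ?_⟩
  · refine link_of_rot' facialP 7 rotP ?_ ?_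
    · intro v a h
      obtain ⟨i, hi⟩ := nbrP v a h
      exact ⟨i.1, by omega, hi⟩
    · intro v i hi
      obtain ⟨f, t, h1, h2⟩ := cornerP v ⟨i, hi⟩
      exact ⟨f, t.1, t.2, h1, h2⟩
  · rw [edgesP, Fintype.card_fin, Fintype.card_fin]
    norm_num

theorem projectivePlanar_P : ProjectivePlanar graphP := baseP.embeds

/-- the first six vertices -/
def six (x : Fin 6) : Fin 10 := ⟨x.1, by omega⟩

theorem six_inj : Function.Injective six := by
  intro x y h
  have h1 : (six x).val = (six y).val := by rw [h]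
  exact Fin.ext h1

theorem six_adj : ∀ x y : Fin 6, x ≠ y → graphP.Adj (six x) (six y) := by decide +kernel

/-- `K_6` in the projective plane -/
theorem projectivePlanar_K6 : ProjectivePlanar (⊤ : SimpleGraph (Fin 6)) := by
  obtain ⟨V, F, i1, i2, i3, G, f, hf, hfG, hG, hM, hχ⟩ := projectivePlanar_P
  refine ⟨V, F, i1, i2, i3, G, fun x => f (six x), hf.comp six_inj, ?_, hG, hM, hχ⟩
  intro x y h
  exact hfG _ _ (six_adj x y ((SimpleGraph.top_adj x y).1 h))

/-- the four triangles with a new vertex -/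
def triP : Fin 4 → Fin 3 → Fin 6 :=
  ![![0, 1, 2], ![0, 2, 3], ![0, 3, 4], ![2, 3, 5]]

theorem triP_adj : ∀ (j : Fin 4) (t : Fin 3), graphP.Adj (six (triP j t))
    (⟨6 + j.1, by omega⟩ : Fin 10) := by decide +kernel

theorem col6 : ∀ a0 a1 a2 a3 a4 a5 : Fin 3,
    (∀ x y z : Fin 6, x ≠ y → x ≠ z → y ≠ z →
      ¬ (![a0, a1, a2, a3, a4, a5] x = ![a0, a1, a2, a3, a4, a5] y ∧
        ![a0, a1, a2, a3, a4, a5] x = ![a0, a1, a2, a3, a4, a5] z)) →
    ∃ j : Fin 4, ∀ s : Fin 3, ∃ (t : Fin 3) (y : Fin 6), triP j t ≠ y ∧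
      ![a0, a1, a2, a3, a4, a5] (triP j t) = s ∧ ![a0, a1, a2, a3, a4, a5] y = s := by
  decide +kernel

theorem two_same {V : Type} [Finite V] {G : SimpleGraph V} {k : ℕ} {c : V → Fin k}
    (hc : Defective G 1 c) {x y z : V} (hxy : G.Adj x y) (hxz : G.Adj x z) (hyz : y ≠ z) :
    ¬ (c y = c x ∧ c z = c x) := by
  rintro ⟨h1, h2⟩
  have h3 := hc x
  have h4 : ({y, z} : Set V) ⊆ {u | G.Adj x u ∧ c u = c x} := by
    rintro u (rfl | rfl)
    · exact ⟨hxy, h1⟩
    · exact ⟨hxz, h2⟩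
  have h5 := Set.ncard_le_ncard h4 (Set.toFinite _)
  rw [Set.ncard_pair hyz] at h5
  omega

/-- `K_6` with the four new vertices has no `(3, 1)`-colouring. -/
theorem graphP_not (c : Fin 10 → Fin 3) : ¬ Defective graphP 1 c := by
  intro hc
  have hvec : ∀ x : Fin 6, ![c (six 0), c (six 1), c (six 2), c (six 3), c (six 4), c (six 5)] x =
      c (six x) := by
    intro x
    fin_cases x <;> rfl
  obtain ⟨j, hj⟩ := col6 (c (six 0)) (c (six 1)) (c (six 2)) (c (six 3)) (c (six 4))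
    (c (six 5)) (by
      intro x y z hxy hxz hyz h
      rw [hvec, hvec, hvec] at h
      exact two_same hc (six_adj x y hxy) (six_adj x z hxz) (fun h1 => hyz (six_inj h1))
        ⟨h.1.symm, h.2.symm⟩)
  obtain ⟨t, y, h1, h2, h3⟩ := hj (c ⟨6 + j.1, by omega⟩)
  rw [hvec] at h2 h3
  refine two_same hc (six_adj _ _ h1) (triP_adj j t) ?_ ⟨h3.trans h2.symm, h2.symm⟩
  intro h4
  have h5 := congrArg Fin.val h4
  have h6 : (six y).val = y.val := rfl
  rw [h6] at h5
  have h7 := y.isLt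
  simp only at h5
  omega

end Pool.Agent.W986
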