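import Pool.Agent.W986.Cone
import Pool.Agent.W986.ProjK6
import Pool.Agent.W986.Degen
import Pool.Agent.W986.Scaffold
import Pool.Agent.W986.L2

/-!
# Toroidal and projective-planar graphs: the sets of pairs `(k, d)`
-/

set_option autoImplicit false

open Finset

namespace Pool.Agent.W986

open Pool.Agent.DC76

/-- Every graph of the class `C` has a `(k, d)`-colouring. -/
def AllCol (C : ∀ {U : Type}, SimpleGraph U → Prop) (k d : ℕ) : Prop :=
  ∀ (U : Type) (H : SimpleGraph U), C H → ∃ c : U → Fin k, Defective H d c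

theorem AllCol.mono {C : ∀ {U : Type}, SimpleGraph U → Prop}
    (hC : ∀ {U : Type} {H : SimpleGraph U}, C H → Finite U) {k k' d d' : ℕ} (hk : k ≤ k')
    (hd : d ≤ d') (h : AllCol C k d) : AllCol C k' d' := by
  intro U H hH
  have := hC hH
  exact Defective.mono hk hd (h U H hH)

theorem base7 : IsBase True 0 (⊤ : SimpleGraph (Fin 7)) := by
  refine ⟨Fin 14, inferInstance, inferInstance, inferInstance, SimpleGraph.connected_top,
    ⟨0, 1, (SimpleGraph.top_adj _ _).2 (by decide)⟩, ⟨facial7, ?_, fun _ => ?_⟩, ?_⟩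
  · refine link_of_rot facial7 5 rot7 ?_ ?_
    · intro v a h
      obtain ⟨i, hi⟩ := nbr7 v a ((SimpleGraph.top_adj v a).1 h)
      exact ⟨i.1, by omega, hi⟩
    · intro v i hi
      obtain ⟨f, t, h1, h2, h3⟩ := corner7 v ⟨i, hi⟩
      exact ⟨f, t.1, t.2, h1, h2, h3⟩
  · intro u v h
    exact oriented7 u v ((SimpleGraph.top_adj u v).1 h)
  · have h1 : (⊤ : SimpleGraph (Fin 7)).edgeSet.ncard = 21 := by
      rw [← SimpleGraph.coe_edgeFinset, Set.ncard_coe_finset,
        SimpleGraph.card_edgeFinset_top_eq_card_choose_two]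
      rfl
    rw [h1, Fintype.card_fin, Fintype.card_fin]
    norm_num

theorem toroidal_finite {U : Type} {H : SimpleGraph U} (h : Toroidal H) : Finite U :=
  finite_of_onSurface h.onSurface

theorem projective_finite {U : Type} {H : SimpleGraph U} (h : ProjectivePlanar H) : Finite U :=
  finite_of_onSurface h.onSurface

/-- The pairs `(k, d)` which are too small for the torus. -/
theorem torus_not {k d : ℕ} (h : AllCol @Toroidal k d) :
    (3 ≤ k ∧ 2 ≤ d) ∨ (4 ≤ k ∧ 1 ≤ d) ∨ 7 ≤ k := by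
  by_contra hcon
  by_cases h1 : k ≤ 2
  · obtain ⟨U, H, hH, hno⟩ := base7.no_two d
    obtain ⟨c, hc⟩ := (AllCol.mono toroidal_finite h1 le_rfl h) U H hH
    exact hno c hc
  · by_cases h2 : k = 3
    · obtain ⟨c, hc⟩ := (AllCol.mono toroidal_finite (k' := 3) (d' := 1) (by omega) (by omega) h)
        _ _ toroidal_K7
      have := card_le_of_complete 7 3 1 c hc
      omega
    · obtain ⟨c, hc⟩ := (AllCol.mono toroidal_finite (k' := 6) (d' := 0) (by omega) (by omega) h)
        _ _ toroidal_K7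
      have := card_le_of_complete 7 6 0 c hc
      omega

/-- The pairs `(k, d)` which are too small for the projective plane. -/
theorem projective_not {k d : ℕ} (h : AllCol @ProjectivePlanar k d) :
    (3 ≤ k ∧ 2 ≤ d) ∨ (4 ≤ k ∧ 1 ≤ d) ∨ 6 ≤ k := by
  by_contra hcon
  by_cases h1 : k ≤ 2
  · obtain ⟨U, H, hH, hno⟩ := baseP.no_two d
    obtain ⟨c, hc⟩ := (AllCol.mono projective_finite h1 le_rfl h) U H hH
    exact hno c hc
  · by_cases h2 : k = 3
    · obtain ⟨c, hc⟩ := (AllCol.mono projective_finite (k' := 3) (d' := 1) (by omega) (by omega) h)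
        _ _ projectivePlanar_P
      exact graphP_not c hc
    · obtain ⟨c, hc⟩ := (AllCol.mono projective_finite (k' := 5) (d' := 0) (by omega) (by omega) h)
        _ _ projectivePlanar_K6
      have := card_le_of_complete 6 5 0 c hc
      omega

/-- The answer for the torus, from `(4, 1)`. -/
theorem torus_iff (h41 : AllCol @Toroidal 4 1) (k d : ℕ) :
    AllCol @Toroidal k d ↔ (3 ≤ k ∧ 2 ≤ d) ∨ (4 ≤ k ∧ 1 ≤ d) ∨ 7 ≤ k := by
  refine ⟨torus_not, ?_⟩
  rintro (⟨h1, h2⟩ | ⟨h1, h2⟩ | h1)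
  · exact AllCol.mono toroidal_finite h1 h2 fun U H hH => main H 0 le_rfl hH.onSurface
  · exact AllCol.mono toroidal_finite h1 h2 h41
  · exact AllCol.mono toroidal_finite h1 (Nat.zero_le d)
      fun U H hH => seven_colours H 0 le_rfl hH.onSurface

/-- The answer for the projective plane, from `(4, 1)`. -/
theorem projective_iff (h41 : AllCol @ProjectivePlanar 4 1) (k d : ℕ) :
    AllCol @ProjectivePlanar k d ↔ (3 ≤ k ∧ 2 ≤ d) ∨ (4 ≤ k ∧ 1 ≤ d) ∨ 6 ≤ k := by
  refine ⟨projective_not, ?_⟩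
  rintro (⟨h1, h2⟩ | ⟨h1, h2⟩ | h1)
  · exact AllCol.mono projective_finite h1 h2 fun U H hH => main H 1 (by norm_num) hH.onSurface
  · exact AllCol.mono projective_finite h1 h2 h41
  · exact AllCol.mono projective_finite h1 (Nat.zero_le d)
      fun U H hH => six_colours H 1 le_rfl hH.onSurface

/-- The answer for both surfaces, from the theorem on three colours and the peeling of graphs with
at most `3|X|` edges inside every set `X`. -/
theorem both_of_peel (hL : L2Stmt)
    (hS : ∀ (V : Type) (_ : Finite V) (G : SimpleGraph V), (∀ X : Finset V, ein G X ≤ 3 * X.card) →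
      ∃ S : Set V, Peels G S) (k d : ℕ) :
    (AllCol @Toroidal k d ↔ (3 ≤ k ∧ 2 ≤ d) ∨ (4 ≤ k ∧ 1 ≤ d) ∨ 7 ≤ k) ∧
      (AllCol @ProjectivePlanar k d ↔ (3 ≤ k ∧ 2 ≤ d) ∨ (4 ≤ k ∧ 1 ≤ d) ∨ 6 ≤ k) :=
  ⟨torus_iff (fun _ H hH => surface_of_peel hL hS H 0 le_rfl hH.onSurface) k d,
    projective_iff (fun _ H hH => surface_of_peel hL hS H 1 (by norm_num) hH.onSurface) k d⟩

/-- The answer for the projective plane alone, from the theorem on three colours and the peeling of
graphs with at most `3|X| - 3` edges inside every nonempty set `X`. -/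
theorem projective_of_peel_iff (hL : L2Stmt)
    (hS : ∀ (V : Type) (_ : Finite V) (G : SimpleGraph V),
      (∀ X : Finset V, X.Nonempty → ein G X + 3 ≤ 3 * X.card) → ∃ S : Set V, Peels G S)
    (k d : ℕ) :
    AllCol @ProjectivePlanar k d ↔ (3 ≤ k ∧ 2 ≤ d) ∨ (4 ≤ k ∧ 1 ≤ d) ∨ 6 ≤ k :=
  projective_iff (fun _ H hH => projective_of_peel hL hS H 1 le_rfl hH.onSurface) k d

/-- The answer for both surfaces, from the peeling of graphs with at most `3|X|` edges inside
every set `X`. -/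
theorem both_of_onePeel
    (hS : ∀ (V : Type) (_ : Finite V) (G : SimpleGraph V), (∀ X : Finset V, ein G X ≤ 3 * X.card) →
      ∃ S : Set V, Peels G S) (k d : ℕ) :
    (AllCol @Toroidal k d ↔ (3 ≤ k ∧ 2 ≤ d) ∨ (4 ≤ k ∧ 1 ≤ d) ∨ 7 ≤ k) ∧
      (AllCol @ProjectivePlanar k d ↔ (3 ≤ k ∧ 2 ≤ d) ∨ (4 ≤ k ∧ 1 ≤ d) ∨ 6 ≤ k) :=
  both_of_peel l2Stmt hS k d

/-- The answer for the projective plane, from the peeling of graphs with at most `3|X| - 3` edges
inside every nonempty set `X`. -/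
theorem projective_of_onePeel
    (hS : ∀ (V : Type) (_ : Finite V) (G : SimpleGraph V),
      (∀ X : Finset V, X.Nonempty → ein G X + 3 ≤ 3 * X.card) → ∃ S : Set V, Peels G S)
    (k d : ℕ) :
    AllCol @ProjectivePlanar k d ↔ (3 ≤ k ∧ 2 ≤ d) ∨ (4 ≤ k ∧ 1 ≤ d) ∨ 6 ≤ k :=
  projective_of_peel_iff l2Stmt hS k d

end Pool.Agent.W986
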