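import Pool.Agent.W986.C2Crit
import Pool.Agent.W986.Final

/-!
# (C2) answers the question on the projective plane
-/

set_option autoImplicit false

open Finset

namespace Pool.Agent.W986.C2

open Pool.Agent.W986 Pool.Agent.DC76

/-- The statement (C2). -/
def C2Stmt : Prop :=
  ∀ (V : Type) (_ : Finite V) (G : SimpleGraph V) (A U : Finset V), Leg G A U → Col G A U

/-- The same for pairs of potential at least `3` on sets with at least two vertices. -/
def C3Stmt : Prop :=
  ∀ (V : Type) (_ : Finite V) (G : SimpleGraph V) (U : Finset V),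
    (∀ X : Finset V, X ⊆ U → X.Nonempty → 3 ≤ pot G ∅ X) → Col G ∅ U

theorem C3Stmt.of_C2 (h : C2Stmt) : C3Stmt := by
  intro V _ G U hU
  exact h V inferInstance G ∅ U fun X hX hne => by
    have := hU X hX hne
    linarith

theorem defective_of_good {V : Type} [Fintype V] {G : SimpleGraph V} {c : V → Fin 4}
    {A : Finset V} (h : Good G A Finset.univ c) : Defective G 1 c := by
  classical
  intro v
  rw [Set.ncard_le_one (Set.toFinite _)]
  intro y hy z hz
  exact h.1 v (Finset.mem_univ v) y (Finset.mem_univ y) z (Finset.mem_univ z) hy.1 hz.1 hy.2 hz.2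

/-- (C2), even only for `e(X) ≤ 3|X| - 3` and no marks, gives four colours with defect one on the
projective plane. -/
theorem projective_of_C3 (h : C3Stmt) : AllCol @ProjectivePlanar 4 1 := by
  intro U H hH
  have : Finite U := projective_finite hH
  have : Fintype U := Fintype.ofFinite U
  obtain ⟨c, hc⟩ := h U inferInstance H Finset.univ (by
    intro X _ hne
    have h1 := ein_le_three_sub H 1 le_rfl hH.onSurface X hne
    have h2 : mk (∅ : Finset U) X = 0 := by
      unfold mk
      exact Finset.sum_eq_zero fun x _ => ib_neg (Finset.notMem_empty x)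
    unfold pot
    rw [h2]
    have h1' : (ein H X : ℤ) + 3 ≤ 3 * (X.card : ℤ) := by exact_mod_cast h1
    push_cast
    linarith)
  exact ⟨c, defective_of_good hc⟩

theorem projective_of_C2 (h : C2Stmt) : AllCol @ProjectivePlanar 4 1 :=
  projective_of_C3 (C3Stmt.of_C2 h)

/-- The whole answer for the projective plane from (C2). -/
theorem projective_iff_of_C2 (h : C2Stmt) (k d : ℕ) :
    AllCol @ProjectivePlanar k d ↔ (3 ≤ k ∧ 2 ≤ d) ∨ (4 ≤ k ∧ 1 ≤ d) ∨ 6 ≤ k :=
  projective_iff (projective_of_C2 h) k d

end Pool.Agent.W986.C2
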