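import Pool.Agent.W986.Edge

/-!
# Merging the faces of a graph across the edges outside a subgraph
-/

set_option autoImplicit false

open Finset

namespace Pool.Agent.W986

open Pool.Agent.DC76

variable {V : Type} [Fintype V] [DecidableEq V] {G : SimpleGraph V} {F : Type} [Fintype F]

/-- Two faces with a common edge outside `K`. -/
def Rel (M : FacialWalks G F) (K : SimpleGraph V) (f g : F) : Prop :=
  ∃ u v, ¬ K.Adj u v ∧ face M f u v ≠ 0 ∧ face M g u v ≠ 0

/-- The equivalence relation generated by `Rel`. -/
def cls (M : FacialWalks G F) (K : SimpleGraph V) : Setoid F := Relation.EqvGen.setoid (Rel M K)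

open Classical in
/-- The sum of the faces of one class. -/
noncomputable def bsum (M : FacialWalks G F) (K : SimpleGraph V) (j : Quotient (cls M K)) :
    V → V → ZMod 2 :=
  ∑ f, if Quotient.mk (cls M K) f = j then face M f else 0

theorem sum_face (M : FacialWalks G F) (u v : V) : ∑ f, face M f u v = 0 := by
  by_cases h : G.Adj u v
  · have h1 := M.twice u v h
    have h2 : ∑ f, face M f u v = ((∑ f, trav (M.len f) (M.walk f) u v : ℕ) : ZMod 2) := by
      rw [Nat.cast_sum]
      rfl
    rw [h2, h1]
    rfl
  · refine Finset.sum_eq_zero fun f _ => ?_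
    by_contra h1
    exact h ((face_mem M f).2.1 u v h1).1

open Classical in
theorem bsum_apply (M : FacialWalks G F) (K : SimpleGraph V) (j : Quotient (cls M K)) (u v : V) :
    bsum M K j u v = ∑ f, if Quotient.mk (cls M K) f = j then face M f u v else 0 := by
  classical
  unfold bsum
  rw [Finset.sum_apply, Finset.sum_apply]
  refine Finset.sum_congr rfl fun f _ => ?_
  by_cases h : Quotient.mk (cls M K) f = j
  · simp [h]
  · simp [h]

theorem cls_of (M : FacialWalks G F) (K : SimpleGraph V) {f g : F} (h : Rel M K f g) :
    Quotient.mk (cls M K) f = Quotient.mk (cls M K) g :=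
  Quotient.sound (Relation.EqvGen.rel f g h)

theorem bsum_off (M : FacialWalks G F) (K : SimpleGraph V) (j : Quotient (cls M K)) (u v : V)
    (h : ¬ K.Adj u v) : bsum M K j u v = 0 := by
  classical
  rw [bsum_apply]
  by_cases h1 : ∃ f, Quotient.mk (cls M K) f = j ∧ face M f u v ≠ 0
  · obtain ⟨f0, hf0, hf1⟩ := h1
    refine Eq.trans ?_ (sum_face M u v)
    refine Finset.sum_congr rfl fun f _ => ?_
    by_cases h2 : Quotient.mk (cls M K) f = j
    · rw [if_pos h2]
    · rw [if_neg h2]
      by_contra h3
      apply h2
      rw [← hf0]
      exact (cls_of M K ⟨u, v, h, hf1, fun h4 => h3 h4.symm⟩).symm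
  · refine Finset.sum_eq_zero fun f _ => ?_
    by_cases h2 : Quotient.mk (cls M K) f = j
    · rw [if_pos h2]
      by_contra h3
      exact h1 ⟨f, h2, h3⟩
    · rw [if_neg h2]

theorem bsum_mem (M : FacialWalks G F) (K : SimpleGraph V) (j : Quotient (cls M K)) :
    bsum M K j ∈ Z K Set.univ := by
  classical
  have h1 : bsum M K j ∈ Z G Set.univ := by
    unfold bsum
    refine Submodule.sum_mem _ fun f _ => ?_
    by_cases h2 : Quotient.mk (cls M K) f = j
    · rw [if_pos h2]
      exact face_mem M f
    · rw [if_neg h2]
      exact Submodule.zero_mem _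
  refine ⟨h1.1, fun u v h => ⟨?_, Set.mem_univ _, Set.mem_univ _⟩, h1.2.2⟩
  by_contra h2
  exact h (bsum_off M K j u v h2)

theorem inf_le_span (M : FacialWalks G F) (K : SimpleGraph V) :
    Submodule.span (ZMod 2) (Set.range (face M)) ⊓ Z K Set.univ ≤
      Submodule.span (ZMod 2) (Set.range (bsum M K)) := by
  classical
  rintro z ⟨hz1, hz2⟩
  obtain ⟨c, hc⟩ := (Submodule.mem_span_range_iff_exists_fun (ZMod 2)).1 hz1
  have hresp : ∀ f g, Relation.EqvGen (Rel M K) f g → c f = c g := by
    intro f g h
    induction h with
    | rel f g h =>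
      obtain ⟨u, v, h1, h2, h3⟩ := h
      by_cases hfg : f = g
      · rw [hfg]
      · have h4 : z u v = 0 := by
          by_contra h5
          exact h1 (hz2.2.1 u v h5).1
        rw [← hc, Finset.sum_apply, Finset.sum_apply] at h4
        have h5 : ∀ x, face M x u v ≠ 0 → x = f ∨ x = g := by
          intro x hx
          by_contra hx2
          push Not at hx2
          have h6 := face_cov M u v
          have h7 : ((({f, g, x} : Finset F) : Finset F) : Set F).ncard ≤
              {f | face M f u v ≠ 0}.ncard := by
            refine Set.ncard_le_ncard ?_ (Set.toFinite _)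
            intro y hy
            simp only [Finset.coe_insert, Finset.coe_singleton, Set.mem_insert_iff,
              Set.mem_singleton_iff] at hy
            rcases hy with rfl | rfl | rfl
            · exact h2
            · exact h3
            · exact hx
          rw [Set.ncard_coe_finset] at h7
          have h8 : ({f, g, x} : Finset F).card = 3 := by
            rw [Finset.card_eq_three]
            exact ⟨f, g, x, hfg, fun h => hx2.1 h.symm, fun h => hx2.2 h.symm, rfl⟩
          omega
        rw [← Finset.sum_subset (Finset.subset_univ ({f, g} : Finset F))] at h4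
        · rw [Finset.sum_pair hfg] at h4
          simp only [Pi.smul_apply, smul_eq_mul] at h4
          revert h4 h2 h3
          generalize face M f u v = a
          generalize face M g u v = b
          generalize c f = p
          generalize c g = q
          revert a b p q
          decide
        · intro x _ hx
          simp only [Finset.mem_insert, Finset.mem_singleton] at hx
          have h6 : face M x u v = 0 := by
            by_contra h7
            exact hx (h5 x h7)
          simp only [Pi.smul_apply, smul_eq_mul]
          rw [h6, mul_zero]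
    | refl f => rfl
    | symm f g _ ih => exact ih.symm
    | trans f g k _ _ ih1 ih2 => exact ih1.trans ih2
  let c' : Quotient (cls M K) → ZMod 2 := Quotient.lift c hresp
  have hfin : Fintype (Quotient (cls M K)) := Fintype.ofFinite _
  have h6 : z = ∑ j, c' j • bsum M K j := by
    rw [← hc]
    funext u v
    rw [Finset.sum_apply, Finset.sum_apply, Finset.sum_apply, Finset.sum_apply]
    simp only [Pi.smul_apply, smul_eq_mul, bsum_apply, Finset.mul_sum]
    rw [Finset.sum_comm]
    refine Finset.sum_congr rfl fun f _ => ?_
    rw [Finset.sum_eq_single (Quotient.mk (cls M K) f)]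
    · rw [if_pos rfl]
      rfl
    · intro j _ hj
      rw [if_neg (fun h => hj h.symm), mul_zero]
    · intro h
      exact absurd (Finset.mem_univ _) h
  rw [h6]
  exact Submodule.sum_mem _ fun j _ => Submodule.smul_mem _ _ (Submodule.subset_span ⟨j, rfl⟩)

theorem bsum_cov (M : FacialWalks G F) (K : SimpleGraph V) (u v : V) :
    {j | bsum M K j u v ≠ 0}.ncard ≤ 2 := by
  classical
  refine le_trans ?_ (face_cov M u v)
  refine le_trans (Set.ncard_le_ncard (t := (Quotient.mk (cls M K)) '' {f | face M f u v ≠ 0}) ?_
    (Set.toFinite _)) (Set.ncard_image_le (Set.toFinite _))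
  intro j hj
  rw [Set.mem_ofPred_eq, bsum_apply] at hj
  obtain ⟨f, _, hf⟩ := Finset.exists_ne_zero_of_sum_ne_zero hj
  by_cases h : Quotient.mk (cls M K) f = j
  · rw [if_pos h] at hf
    exact ⟨f, hf, h⟩
  · rw [if_neg h] at hf
    exact absurd rfl hf

theorem sum_bsum (M : FacialWalks G F) (K : SimpleGraph V) [Fintype (Quotient (cls M K))] :
    ∑ j, bsum M K j = 0 := by
  classical
  funext u v
  rw [Finset.sum_apply, Finset.sum_apply]
  simp only [bsum_apply]
  rw [Finset.sum_comm]
  refine Eq.trans ?_ (sum_face M u v)
  refine Finset.sum_congr rfl fun f _ => ?_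
  rw [Finset.sum_eq_single (Quotient.mk (cls M K) f)]
  · rw [if_pos rfl]
  · intro j _ hj
    rw [if_neg (Ne.symm hj)]
  · intro h
    exact absurd (Finset.mem_univ _) h

end Pool.Agent.W986
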