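import Pool.Agent.W986.Cocycle

/-!
# Half-spaces in the double cover

A set `N` of vertices of the double cover which contains exactly one of the two vertices over every
vertex outside `S`, and whose members have pairwise adjacent opposite neighbours, gives a seam.
-/

set_option autoImplicit false

open Finset

namespace Pool.Agent.W986

open Pool.Agent.DC76

/-- The neighbours of `y` in `K` are pairwise adjacent. -/
def Fine {W : Type} (H : SimpleGraph W) (K : Set W) (y : W) : Prop :=
  ∀ a ∈ K, ∀ b ∈ K, H.Adj y a → H.Adj y b → a ≠ b → H.Adj a b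

theorem Fine.mono {W : Type} {H : SimpleGraph W} {K K' : Set W} {y : W} (h : Fine H K y)
    (hle : K' ⊆ K) : Fine H K' y := fun a ha b hb h1 h2 h3 => h a (hle ha) b (hle hb) h1 h2 h3

section cover

variable {V : Type} [DecidableEq V] {G : SimpleGraph V} {F : Type} [Fintype F]

/-- The antipodal map of the double cover. -/
def anti (p : V × ZMod 2) : V × ZMod 2 := (p.1, p.2 + 1)

omit [DecidableEq V] in
theorem anti_anti (p : V × ZMod 2) : anti (anti p) = p := by
  obtain ⟨x, a⟩ := p
  change (x, a + 1 + 1) = (x, a)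
  rw [zadd_self]

omit [DecidableEq V] in
theorem anti_ne (p : V × ZMod 2) : anti p ≠ p := by
  obtain ⟨x, a⟩ := p
  intro h
  have h1 : ∀ a : ZMod 2, a + 1 ≠ a := by decide
  exact h1 a (congrArg Prod.snd h)

omit [DecidableEq V] in
theorem eq_or_anti {p q : V × ZMod 2} (h : p.1 = q.1) : p = q ∨ p = anti q := by
  obtain ⟨x, a⟩ := p
  obtain ⟨y, b⟩ := q
  obtain rfl : x = y := h
  have h1 : a = b ∨ a = b + 1 := by
    revert a b
    decide
  rcases h1 with rfl | rfl
  · exact Or.inl rfl
  · exact Or.inr rfl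

omit [DecidableEq V] in
theorem anti_adj {X : V → V → ZMod 2} {hX : ∀ x y, X x y = X y x} {p q : V × ZMod 2} :
    (cover G X hX).Adj (anti p) (anti q) ↔ (cover G X hX).Adj p q := by
  obtain ⟨x, a⟩ := p
  obtain ⟨y, b⟩ := q
  change G.Adj x y ∧ b + 1 = a + 1 + X x y ↔ G.Adj x y ∧ b = a + X x y
  have h : b + 1 = a + 1 + X x y ↔ b = a + X x y := by
    generalize X x y = c
    revert a b c
    decide
  rw [h]

omit [DecidableEq V] in
/-- No vertex is adjacent to two antipodal vertices. -/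
theorem not_adj_anti {X : V → V → ZMod 2} {hX : ∀ x y, X x y = X y x} {p q : V × ZMod 2}
    (h : (cover G X hX).Adj p q) : ¬ (cover G X hX).Adj p (anti q) := by
  obtain ⟨x, a⟩ := p
  obtain ⟨y, b⟩ := q
  rintro ⟨_, h2⟩
  obtain ⟨_, h3⟩ := h
  change b + 1 = a + X x y at h2
  change b = a + X x y at h3
  rw [← h3] at h2
  have h4 : ∀ a : ZMod 2, a + 1 ≠ a := by decide
  exact h4 b h2

omit [DecidableEq V] in
theorem not_adj_self_anti {X : V → V → ZMod 2} {hX : ∀ x y, X x y = X y x} {p : V × ZMod 2} :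
    ¬ (cover G X hX).Adj p (anti p) := by
  obtain ⟨x, a⟩ := p
  rintro ⟨h, _⟩
  exact G.loopless.irrefl x h

/-- Adding a coboundary. -/
theorem isSeam_of_half (M : FacialWalks G F) {X : V → V → ZMod 2} (hX : ∀ x y, X x y = X y x)
    (heven : ∀ f, ∑ t ∈ range (M.len f), X (M.walk f t) (M.walk f (t + 1)) = 0)
    (hodd : ¬ ∃ h : V → ZMod 2, ∀ x y, G.Adj x y → h x + h y = X x y)
    {S : Set V} {N : Set (V × ZMod 2)} (hN : ∀ p : V × ZMod 2, p.1 ∉ S → (p ∈ N ↔ anti p ∉ N))
    (hfan : ∀ p ∈ N, p.1 ∉ S → Fine (cover G X hX) {q | q ∉ N ∧ q.1 ∉ S} p) :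
    ∃ h : V → ZMod 2, (∀ x, x ∉ S → (x, h x) ∈ N) ∧
      IsSeam M S (fun x y => X x y + (h x + h y)) := by
  classical
  -- the sheet of `N` over `x`
  let h : V → ZMod 2 := fun x => if (x, 0) ∈ N then 0 else 1
  have h01 : ∀ x, x ∉ S → ∀ a, (x, a) ∈ N ↔ a = h x := by
    intro x hx a
    have h1 := hN (x, 0) hx
    rw [show anti ((x, 0) : V × ZMod 2) = (x, 1) from rfl] at h1
    by_cases h2 : (x, (0 : ZMod 2)) ∈ N
    · have h3 : h x = 0 := if_pos h2
      rw [h3]
      rcases zcases a with rfl | rfl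
      · simp [h2]
      · simp [h1.1 h2]
    · have h3 : h x = 1 := if_neg h2
      rw [h3]
      have h4 : (x, (1 : ZMod 2)) ∈ N := by
        by_contra h5
        exact h2 (h1.2 h5)
      rcases zcases a with rfl | rfl
      · simp [h2]
      · simp [h4]
  refine ⟨h, fun x hx => (h01 x hx _).2 rfl, fun x y => ?_, fun f => ?_, ?_, ?_⟩
  · rw [hX x y, add_comm (h x)]
  · rw [sum_add_distrib, heven f, zero_add, sum_add_distrib]
    have h1 := sum_range_succ (fun t => h (M.walk f t)) (M.len f)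
    have h2 := sum_range_succ' (fun t => h (M.walk f t)) (M.len f)
    rw [h1, M.closed] at h2
    rw [add_right_cancel h2, CharTwo.add_self_eq_zero]
  · rintro ⟨g, hg⟩
    refine hodd ⟨fun x => g x + h x, fun x y hxy => ?_⟩
    have h1 := hg x y hxy
    have h2 : ∀ a b c d e : ZMod 2, a + b = e + (c + d) → a + c + (b + d) = e := by decide
    exact h2 _ _ _ _ _ h1
  · intro x hx y hy y' hy' hne h1 h2 h3 h4
    beta_reduce at h3 h4 ⊢
    have h5 := hfan (x, h x) ((h01 x hx _).2 rfl) hx
    have key : ∀ z, z ∉ S → G.Adj x z → X x z + (h x + h z) ≠ 0 →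
        (z, h x + X x z) ∈ {q : V × ZMod 2 | q ∉ N ∧ q.1 ∉ S} := by
      intro z hz h6 h7
      refine ⟨fun h8 => h7 ?_, hz⟩
      rw [h01 z hz] at h8
      rw [← h8]
      generalize X x z = a
      generalize h x = b
      revert a b
      decide
    have h6 := h5 (y, h x + X x y) (key y hy h1 h3) (y', h x + X x y') (key y' hy' h2 h4)
      ⟨h1, rfl⟩ ⟨h2, rfl⟩ (fun h => hne (congrArg Prod.fst h))
    obtain ⟨h7, h8⟩ := h6
    refine ⟨h7, ?_⟩
    change h x + X x y' = h x + X x y + X y y' at h8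
    have h9 : ∀ a b c d e : ZMod 2, b + (a + d) ≠ 0 → c + (a + e) ≠ 0 →
        a + c = a + b + X y y' → X y y' + (d + e) = 0 := by
      generalize X y y' = f
      revert f
      decide
    exact h9 _ _ _ _ _ h3 h4 h8

end cover

end Pool.Agent.W986
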