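import Pool.Agent.W986.HubComp
import Pool.Agent.W986.Half

/-!
# The closure of a set of vertices

`Clo H st T K`: the set `K` avoids the connected set `T`, its complement is connected, and every
vertex `y` with `st y` outside `K` and `T` has pairwise adjacent neighbours in `K`.
-/

set_option autoImplicit false

open Finset

namespace Pool.Agent.W986

open Pool.Agent.DC76

section closure

variable {W : Type} {H : SimpleGraph W} {st : W → Prop} {T K K' A N : Set W}

theorem lnk_mono {a b : W} (h : Lnk H K a b) (hle : K ⊆ K') : Lnk H K' a b :=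
  Relation.ReflTransGen.mono (fun _ _ h => ⟨hle h.1, h.2⟩) _ _ h

/-- A set is connected if every vertex is connected with a vertex of a connected subset. -/
theorem conn_of_lnk {B C : Set W} (hB : Conn H B) (hBC : B ⊆ C)
    (h : ∀ y ∈ C, ∃ b ∈ B, Lnk H C y b) : Conn H C := by
  intro x hx y hy
  obtain ⟨b, hb, h1⟩ := h x hx
  obtain ⟨c, hc, h2⟩ := h y hy
  exact (h1.trans (lnk_mono (hB b hb c hc) hBC)).trans (h2.symm hy)

theorem conn_union' {B C : Set W} (hB : Conn H B) (hC : Conn H C) {t : W} (htB : t ∈ B)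
    (htC : t ∈ C) : Conn H (B ∪ C) := by
  refine conn_of_lnk hB Set.subset_union_left ?_
  rintro y (hy | hy)
  · exact ⟨y, hy, Relation.ReflTransGen.refl⟩
  · exact ⟨t, htB, lnk_mono (hC y hy t htC) Set.subset_union_right⟩

/-- The members of the family. -/
structure Clo (H : SimpleGraph W) (st : W → Prop) (T K : Set W) : Prop where
  disj : ∀ x ∈ K, x ∉ T
  co : Conn H Kᶜ
  fine : ∀ y, st y → y ∉ K → y ∉ T → Fine H K y

theorem clo_compl (hT : Conn H T) : Clo H st T Tᶜ := by
  refine ⟨fun x hx => hx, ?_, fun y _ h1 h2 => absurd h2 h1⟩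
  rw [compl_compl]
  exact hT

theorem Clo.inter (hT : T.Nonempty) (h : Clo H st T K) (h' : Clo H st T K') :
    Clo H st T (K ∩ K') := by
  obtain ⟨t, ht⟩ := hT
  refine ⟨fun x hx => h.disj x hx.1, ?_, fun y h1 h2 h3 => ?_⟩
  · rw [Set.compl_inter]
    exact conn_union' h.co h'.co (fun h1 => h.disj t h1 ht) (fun h1 => h'.disj t h1 ht)
  · by_cases h4 : y ∈ K
    · exact (h'.fine y h1 (fun h5 => h2 ⟨h4, h5⟩) h3).mono Set.inter_subset_right
    · exact (h.fine y h1 h4 h3).mono Set.inter_subset_left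

/-- The closure: the least member which contains `A`. -/
def cl (H : SimpleGraph W) (st : W → Prop) (T A : Set W) : Set W :=
  {x | ∀ K, A ⊆ K → Clo H st T K → x ∈ K}

theorem sub_cl : A ⊆ cl H st T A := fun _ hx _ h _ => h hx

theorem cl_sub (h : A ⊆ K) (hK : Clo H st T K) : cl H st T A ⊆ K := fun _ hx => hx K h hK

theorem cl_mono {A' : Set W} (h : A ⊆ A') : cl H st T A ⊆ cl H st T A' :=
  fun _ hx K h1 h2 => hx K (h.trans h1) h2

variable [Finite W]

theorem cl_clo (hT : Conn H T) (hTn : T.Nonempty) (hA : ∀ x ∈ A, x ∉ T) :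
    Clo H st T (cl H st T A) := by
  classical
  -- a member of the least size
  have hex : ∃ n, ∃ K, A ⊆ K ∧ Clo H st T K ∧ K.ncard = n := ⟨_, Tᶜ, hA, clo_compl hT, rfl⟩
  obtain ⟨K, h1, h2, h3⟩ := Nat.find_spec hex
  have h4 : cl H st T A = K := by
    refine Set.Subset.antisymm (cl_sub h1 h2) ?_
    intro x hx K' h5 h6
    have h7 := h2.inter hTn h6
    have h8 := Nat.find_min' hex ⟨K ∩ K', Set.subset_inter h1 h5, h7, rfl⟩
    have h9 : K ∩ K' = K :=
      Set.eq_of_subset_of_ncard_le Set.inter_subset_left (by omega) (Set.toFinite _)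
    rw [← h9] at hx
    exact hx.2
  rw [h4]
  exact h2

/-- The closure is idempotent: a vertex in the closure of `A` adds nothing. -/
theorem cl_least (hT : Conn H T) (hTn : T.Nonempty) (hA : ∀ x ∈ A, x ∉ T) {A' : Set W}
    (h : A' ⊆ cl H st T A) : cl H st T A' ⊆ cl H st T A :=
  cl_sub h (cl_clo hT hTn hA)

/-- The closure of a connected set is connected. -/
theorem cl_conn (hH : Conn H Set.univ) (hT : Conn H T) (hTn : T.Nonempty)
    (hA : ∀ x ∈ A, x ∉ T) (hAc : Conn H A) (hAn : A.Nonempty) : Conn H (cl H st T A) := by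
  obtain ⟨a, ha⟩ := hAn
  obtain ⟨t, ht⟩ := hTn
  have hc := cl_clo (st := st) hT ⟨t, ht⟩ hA
  set K := cl H st T A with hK
  have haK : a ∈ K := sub_cl ha
  have key : Clo H st T (comp H K a) := by
    refine ⟨fun x hx => hc.disj x (comp_sub haK hx), ?_, fun y h1 h2 h3 => ?_⟩
    · refine conn_of_lnk hc.co (Set.compl_subset_compl.2 (comp_sub haK)) ?_
      intro y hy
      have hp : ∀ z, Relation.ReflTransGen (fun a b => b ∈ (Set.univ : Set W) ∧ H.Adj a b) z t →
          z ∉ comp H K a → ∃ b ∈ Kᶜ, Lnk H (comp H K a)ᶜ z b := by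
        intro z hz
        induction hz using Relation.ReflTransGen.head_induction_on with
        | refl => exact fun _ => ⟨t, fun h => hc.disj t h ht, Relation.ReflTransGen.refl⟩
        | @head z z' h1 _ ih =>
          intro hz
          by_cases hzK : z ∈ K
          · have hz' : z' ∉ comp H K a := fun h2 => hz (comp_adj h2 hzK h1.2.symm)
            obtain ⟨b, hb, h3⟩ := ih hz'
            exact ⟨b, hb, Relation.ReflTransGen.head ⟨hz', h1.2⟩ h3⟩
          · exact ⟨z, hzK, Relation.ReflTransGen.refl⟩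
      exact hp y (hH y (Set.mem_univ _) t (Set.mem_univ _)) hy
    · by_cases h4 : y ∈ K
      · intro b hb c hc' h5 _ _
        exact absurd (comp_adj hb h4 h5.symm) h2
      · exact (hc.fine y h1 h4 h3).mono (comp_sub haK)
  have h1 : K ⊆ comp H K a := cl_sub (conn_sub_comp hAc sub_cl ha comp_self) key
  have h2 : K = comp H K a := Set.Subset.antisymm h1 (comp_sub haK)
  rw [h2]
  exact comp_conn haK

/-- The vertices which are added to a member of the family together with `x` are connected. -/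
theorem cl_diff_conn (hT : Conn H T) (hTn : T.Nonempty) (hN : Clo H st T N) {x : W}
    (hxT : x ∉ T) (hxN : x ∉ N) : Conn H (cl H st T (insert x N) \ N) := by
  obtain ⟨t, ht⟩ := hTn
  have hA : ∀ y ∈ insert x N, y ∉ T := by
    rintro y (rfl | hy)
    · exact hxT
    · exact hN.disj y hy
  have hc := cl_clo (st := st) hT ⟨t, ht⟩ hA
  set K := cl H st T (insert x N) with hK
  have hxK : x ∈ K \ N := ⟨sub_cl (Set.mem_insert _ _), hxN⟩
  have hNK : N ⊆ K := (Set.subset_insert _ _).trans sub_cl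
  have hsub : N ∪ comp H (K \ N) x ⊆ K := by
    rintro y (hy | hy)
    · exact hNK hy
    · exact (comp_sub hxK hy).1
  have key : Clo H st T (N ∪ comp H (K \ N) x) := by
    refine ⟨fun y hy => hc.disj y (hsub hy), ?_, fun y h1 h2 h3 => ?_⟩
    · refine conn_of_lnk hc.co (Set.compl_subset_compl.2 hsub) ?_
      intro y hy
      have hp : ∀ z, Lnk H Nᶜ z t → z ∉ N → z ∉ comp H (K \ N) x →
          ∃ b ∈ Kᶜ, Lnk H (N ∪ comp H (K \ N) x)ᶜ z b := by
        intro z hz
        induction hz using Relation.ReflTransGen.head_induction_on with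
        | refl => exact fun _ _ => ⟨t, fun h => hc.disj t h ht, Relation.ReflTransGen.refl⟩
        | @head z z' h1 _ ih =>
          intro hzN hz
          by_cases hzK : z ∈ K
          · have hz' : z' ∉ comp H (K \ N) x := fun h2 => hz (comp_adj h2 ⟨hzK, hzN⟩ h1.2.symm)
            obtain ⟨b, hb, h3⟩ := ih h1.1 hz'
            exact ⟨b, hb, Relation.ReflTransGen.head ⟨fun h => h.elim h1.1 hz', h1.2⟩ h3⟩
          · exact ⟨z, hzK, Relation.ReflTransGen.refl⟩
      have hyN : y ∉ N := fun h => hy (Or.inl h)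
      exact hp y (hN.co y hyN t (fun h => hN.disj t h ht)) hyN (fun h => hy (Or.inr h))
    · have hyN : y ∉ N := fun h => h2 (Or.inl h)
      by_cases h4 : y ∈ K
      · have h5 : ∀ b ∈ N ∪ comp H (K \ N) x, H.Adj y b → b ∈ N := by
          rintro b (hb | hb) h6
          · exact hb
          · exact absurd (Or.inr (comp_adj hb ⟨h4, hyN⟩ h6.symm)) h2
        intro b hb c hc' h6 h7 h8
        exact hN.fine y h1 hyN h3 b (h5 b hb h6) c (h5 c hc' h7) h6 h7 h8
      · exact (hc.fine y h1 h4 h3).mono hsub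
  have h1 : K ⊆ N ∪ comp H (K \ N) x := by
    refine cl_sub ?_ key
    rintro y (rfl | hy)
    · exact Or.inr comp_self
    · exact Or.inl hy
  have h2 : K \ N = comp H (K \ N) x := by
    refine Set.Subset.antisymm ?_ (comp_sub hxK)
    rintro y ⟨hy, hyN⟩
    exact (h1 hy).resolve_left hyN
  rw [h2]
  exact comp_conn hxK

end closure

section half

variable {W : Type} {H : SimpleGraph W} {τ : W → W} {st : W → Prop} {N : Set W}

/-- A half-space: a connected set `N` with connected complement, without antipodal vertices, such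
that every vertex `y` with `st y` outside `N` has pairwise adjacent neighbours in `N`. -/
structure HalfSp (H : SimpleGraph W) (τ : W → W) (st : W → Prop) (N : Set W) : Prop where
  ne : N.Nonempty
  disj : ∀ x ∈ N, τ x ∉ N
  conn : Conn H N
  co : Conn H Nᶜ
  fine : ∀ y, st y → y ∉ N → Fine H N y

/-- The antipodal set. -/
def antS (τ : W → W) (N : Set W) : Set W := {x | τ x ∈ N}

theorem conn_antS (hτ : ∀ x, τ (τ x) = x) (hadj : ∀ x y, H.Adj (τ x) (τ y) ↔ H.Adj x y)
    (h : Conn H N) : Conn H (antS τ N) := by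
  intro x hx y hy
  have h1 := h (τ x) hx (τ y) hy
  have h2 : ∀ a b, Lnk H N a b → Lnk H (antS τ N) (τ a) (τ b) := by
    intro a b hab
    induction hab with
    | refl => exact Relation.ReflTransGen.refl
    | @tail c d _ h2 ih =>
      refine ih.tail ⟨?_, (hadj _ _).2 h2.2⟩
      change τ (τ d) ∈ N
      rw [hτ]
      exact h2.1
  have h3 := h2 _ _ h1
  rw [hτ, hτ] at h3
  exact h3

theorem HalfSp.clo (h : HalfSp H τ st N) : Clo H st (antS τ N) N :=
  ⟨fun x hx => h.disj x hx, h.co, fun y h1 h2 _ => h.fine y h1 h2⟩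

theorem HalfSp.antS_ne (hτ : ∀ x, τ (τ x) = x) (h : HalfSp H τ st N) : (antS τ N).Nonempty := by
  obtain ⟨x, hx⟩ := h.ne
  refine ⟨τ x, ?_⟩
  change τ (τ x) ∈ N
  rw [hτ]
  exact hx

/-- The antipodal set of a half-space is a half-space. -/
theorem HalfSp.antip (hτ : ∀ x, τ (τ x) = x) (hadj : ∀ x y, H.Adj (τ x) (τ y) ↔ H.Adj x y)
    (hst : ∀ x, st (τ x) ↔ st x) (h : HalfSp H τ st N) : HalfSp H τ st (antS τ N) := by
  refine ⟨h.antS_ne hτ, ?_, conn_antS hτ hadj h.conn, ?_, ?_⟩
  · intro x hx h1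
    change τ (τ x) ∈ N at h1
    exact h.disj _ hx h1
  · exact conn_antS (N := Nᶜ) hτ hadj h.co
  · intro y h1 h2 a ha b hb h3 h4 h5
    have h6 := h.fine (τ y) ((hst y).2 h1) h2 (τ a) ha (τ b) hb ((hadj _ _).2 h3)
      ((hadj _ _).2 h4) (fun h => h5 (by rw [← hτ a, h, hτ]))
    exact (hadj _ _).1 h6

/-- There is a maximal half-space which contains a given one. -/
theorem HalfSp.exists_max [Finite W] (h : HalfSp H τ st N) :
    ∃ N', N ⊆ N' ∧ HalfSp H τ st N' ∧ ∀ N'', N' ⊆ N'' → HalfSp H τ st N'' → N'' = N' := by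
  classical
  obtain ⟨N', h1, h2⟩ := Set.Finite.exists_le_maximal (s := {N' | HalfSp H τ st N'})
    (Set.toFinite _) h
  exact ⟨N', h1, h2.1, fun N'' h3 h4 => h2.eq_of_ge h4 h3⟩

/-- The closure of a half-space and an adjacent vertex: it is a larger half-space, or it contains
two antipodal vertices, or a vertex of the antipodal set has two neighbours in it which are not
adjacent. -/
theorem HalfSp.step [Finite W] (hH : Conn H Set.univ) (hτ : ∀ x, τ (τ x) = x)
    (hadj : ∀ x y, H.Adj (τ x) (τ y) ↔ H.Adj x y) (h : HalfSp H τ st N) {x n : W}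
    (hx : x ∉ N) (hx' : τ x ∉ N) (hn : n ∈ N) (hxn : H.Adj x n) :
    HalfSp H τ st (cl H st (antS τ N) (insert x N)) ∨
      (∃ y ∈ cl H st (antS τ N) (insert x N),
        τ y ∈ cl H st (antS τ N) (insert x N)) ∨
      ∃ y, st y ∧ τ y ∈ N ∧ ¬ Fine H (cl H st (antS τ N) (insert x N)) y := by
  have hA : ∀ y ∈ insert x N, y ∉ antS τ N := by
    rintro y (rfl | hy)
    · exact hx'
    · exact h.disj y hy
  have hT := conn_antS hτ hadj h.conn
  have hc := cl_clo (st := st) hT (h.antS_ne hτ) hA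
  have hAc : Conn H (insert x N) := by
    refine conn_of_lnk h.conn (Set.subset_insert _ _) ?_
    rintro y (rfl | hy)
    · exact ⟨n, hn, Relation.ReflTransGen.single ⟨Or.inr hn, hxn⟩⟩
    · exact ⟨y, hy, Relation.ReflTransGen.refl⟩
  have hconn := cl_conn (st := st) hH hT (h.antS_ne hτ) hA hAc (Set.insert_nonempty _ _)
  by_cases h1 : ∃ y ∈ cl H st (antS τ N) (insert x N),
      τ y ∈ cl H st (antS τ N) (insert x N)
  · exact Or.inr (Or.inl h1)
  · by_cases h2 : ∃ y, st y ∧ τ y ∈ N ∧
        ¬ Fine H (cl H st (antS τ N) (insert x N)) y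
    · exact Or.inr (Or.inr h2)
    · left
      push Not at h1 h2
      refine ⟨⟨x, sub_cl (Set.mem_insert _ _)⟩, h1, hconn, hc.co, fun y h3 h4 => ?_⟩
      by_cases h5 : τ y ∈ N
      · exact h2 y h3 h5
      · exact hc.fine y h3 h4 h5

/-- The vertices between a maximal half-space and its antipodal set. -/
theorem HalfSp.block [Finite W] (hH : Conn H Set.univ) (hτ : ∀ x, τ (τ x) = x)
    (hadj : ∀ x y, H.Adj (τ x) (τ y) ↔ H.Adj x y) (h : HalfSp H τ st N)
    (hmax : ∀ N'', N ⊆ N'' → HalfSp H τ st N'' → N'' = N) {x n : W}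
    (hx : x ∉ N) (hx' : τ x ∉ N) (hn : n ∈ N) (hxn : H.Adj x n) :
    (∃ y ∈ cl H st (antS τ N) (insert x N),
        τ y ∈ cl H st (antS τ N) (insert x N)) ∨
      ∃ y, st y ∧ τ y ∈ N ∧ ¬ Fine H (cl H st (antS τ N) (insert x N)) y := by
  rcases h.step hH hτ hadj hx hx' hn hxn with h1 | h1
  · exfalso
    have h2 := hmax _ ((Set.subset_insert _ _).trans sub_cl) h1
    apply hx
    rw [← h2]
    exact sub_cl (Set.mem_insert _ _)
  · exact h1

end half

end Pool.Agent.W986
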