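import Pool.Agent.W986.Core

/-!
# Sparse graphs: list colourings with small monochromatic trees, the colouring

`G` with positive weights such that the flow out of every vertex is at most `q`, and lists of at
least `k` colours: there is a list colouring with at most `(q / k) |X|` monochromatic edges inside
every set `X` of vertices.
-/

set_option autoImplicit false
set_option linter.unusedSectionVars false

namespace Pool.Agent.W986.Cluster

open Finset Pool.Agent.W986.BT Pool.Agent.W986.Core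

variable {V C : Type*} [Fintype V] [DecidableEq V] [DecidableEq C] (G : SimpleGraph V)
  [DecidableRel G.Adj]

/-- The graph of the monochromatic edges. -/
def mono (c : V → C) : SimpleGraph V where
  Adj u v := G.Adj u v ∧ c u = c v
  symm := ⟨fun _ _ h => ⟨h.1.symm, h.2.symm⟩⟩
  loopless := ⟨fun u h => G.loopless.irrefl u h.1⟩

instance (c : V → C) : DecidableRel (mono G c).Adj := fun u v =>
  inferInstanceAs (Decidable (G.Adj u v ∧ c u = c v))

lemma own_le_of (p : V → ℝ) (hp : ∀ v, 0 < p v) (q : ℝ)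
    (hq : ∀ v, ∑ u ∈ G.neighborFinset v, p u / (p u + p v) ≤ q) (L : V → Finset C) (k : ℕ)
    (hL : ∀ v, k ≤ #(L v)) (c : V → C) (hc : IsMin G p L c) (v : V) :
    k * fl G p c v (c v) ≤ q := by
  have h1 : ∑ a ∈ L v, fl G p c v (c v) ≤ ∑ a ∈ L v, fl G p c v a :=
    Finset.sum_le_sum fun a ha => own_le G p L hp c hc v a ha
  have h2 : ∑ a ∈ L v, fl G p c v a ≤ q := by
    rw [sum_fl]
    refine le_trans (Finset.sum_le_sum fun u _ => ?_) (hq v)
    split_ifs
    · exact le_rfl
    · exact (f_pos p hp u v).le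
  have h3 : 0 ≤ fl G p c v (c v) := Finset.sum_nonneg fun u _ => (f_pos p hp u v).le
  rw [Finset.sum_const, nsmul_eq_mul] at h1
  have h4 : (k : ℝ) ≤ #(L v) := by exact_mod_cast hL v
  calc (k : ℝ) * fl G p c v (c v) ≤ #(L v) * fl G p c v (c v) := mul_le_mul_of_nonneg_right h4 h3
    _ ≤ q := h1.trans h2

lemma E2_mono_le (p : V → ℝ) (hp : ∀ v, 0 < p v) (c : V → C) (X : Finset V) :
    (E2 (mono G c) X : ℝ) ≤ 2 * ∑ v ∈ X, fl G p c v (c v) := by
  have h1 : ∑ v ∈ X, ∑ u ∈ X with (mono G c).Adj v u, p u / (p u + p v) ≤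
      ∑ v ∈ X, fl G p c v (c v) := by
    refine Finset.sum_le_sum fun v _ => ?_
    unfold fl
    refine Finset.sum_le_sum_of_subset_of_nonneg ?_ fun u _ _ => (f_pos p hp u v).le
    intro u hu
    rw [Finset.mem_filter] at hu
    rw [mem_nb]
    exact ⟨hu.2.1, hu.2.2.symm⟩
  have h2 : ∑ v ∈ X, ∑ u ∈ X with (mono G c).Adj v u, p u / (p u + p v) =
      ∑ v ∈ X, ∑ u ∈ X with (mono G c).Adj v u, p v / (p v + p u) := by
    simp only [Finset.sum_filter]
    rw [Finset.sum_comm]
    refine Finset.sum_congr rfl fun v _ => Finset.sum_congr rfl fun u _ => ?_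
    simp only [(mono G c).adj_comm]
  have h3 : (E2 (mono G c) X : ℝ) = ∑ v ∈ X, ∑ u ∈ X with (mono G c).Adj v u,
      (p u / (p u + p v) + p v / (p v + p u)) := by
    unfold E2
    push_cast
    refine Finset.sum_congr rfl fun v _ => ?_
    rw [Finset.card_eq_sum_ones]
    push_cast
    exact Finset.sum_congr rfl fun u _ => (f_add p hp u v).symm
  rw [h3]
  simp only [Finset.sum_add_distrib]
  rw [← h2]
  linarith

/-- **The colouring.** -/
theorem exists_col (p : V → ℝ) (hp : ∀ v, 0 < p v) (q : ℝ)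
    (hq : ∀ v, ∑ u ∈ G.neighborFinset v, p u / (p u + p v) ≤ q) (L : V → Finset C) (k : ℕ)
    (hk : 1 ≤ k) (hL : ∀ v, k ≤ #(L v)) :
    ∃ c : V → C, (∀ v, c v ∈ L v) ∧
      ∀ X : Finset V, k * (E2 (mono G c) X : ℝ) ≤ 2 * q * #X := by
  obtain ⟨c, hc, hmin⟩ := Finset.exists_min_image (Fintype.piFinset L) (Phi G p)
    (Fintype.piFinset_nonempty.mpr fun v => Finset.card_pos.mp (by have := hL v; omega))
  have hc' : IsMin G p L c := ⟨fun v => Fintype.mem_piFinset.mp hc v,
    fun c' hc' => hmin c' (Fintype.mem_piFinset.mpr hc')⟩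
  refine ⟨c, hc'.1, fun X => ?_⟩
  have h1 := E2_mono_le G p hp c X
  have h2 : k * ∑ v ∈ X, fl G p c v (c v) ≤ q * #X := by
    rw [Finset.mul_sum]
    refine le_trans (Finset.sum_le_sum fun v _ => own_le_of G p hp q hq L k hL c hc' v) ?_
    rw [Finset.sum_const, nsmul_eq_mul, mul_comm]
  have h3 : (0 : ℝ) ≤ k := Nat.cast_nonneg k
  calc (k : ℝ) * (E2 (mono G c) X : ℝ) ≤ k * (2 * ∑ v ∈ X, fl G p c v (c v)) :=
        mul_le_mul_of_nonneg_left h1 h3
    _ = 2 * (k * ∑ v ∈ X, fl G p c v (c v)) := by ring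
    _ ≤ 2 * (q * #X) := by linarith
    _ = 2 * q * #X := by ring

end Pool.Agent.W986.Cluster
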