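import Pool.Agent.W986.BT

/-!
# Sparse graphs are forests with small components

If every nonempty vertex set `X` spans fewer than `N / (N + 1) * |X|` edges, then the graph is a
forest and all its components have at most `N` vertices.
-/

set_option autoImplicit false

namespace Pool.Agent.W986.Cluster

open Finset

/-- A cycle gives a vertex set with at least as many edges as vertices. -/
lemma two_card_le_of_cycle {V : Type*} [Fintype V] [DecidableEq V] (H : SimpleGraph V)
    [DecidableRel H.Adj] {v : V} (c : H.Walk v v) (hc : c.IsCycle) :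
    2 * c.support.toFinset.card ≤ BT.E2 H c.support.toFinset := by
  unfold BT.E2
  rw [mul_comm, ← smul_eq_mul]
  refine Finset.card_nsmul_le_sum _ _ _ fun x hx => ?_
  have hx' : x ∈ c.support := by simpa using hx
  have h2 := hc.ncard_neighborSet_toSubgraph_eq_two hx'
  rw [← h2]
  have hsub : c.toSubgraph.neighborSet x ⊆
      (({u ∈ c.support.toFinset | H.Adj x u} : Finset V) : Set V) := by
    intro u hu
    rw [SimpleGraph.Subgraph.mem_neighborSet] at hu
    have h3 : u ∈ c.support := by
      have := c.toSubgraph.edge_vert hu.symm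
      rwa [SimpleGraph.Walk.verts_toSubgraph] at this
    simp only [Finset.coe_filter, List.mem_toFinset, Set.mem_ofPred_eq]
    exact ⟨h3, hu.adj_sub⟩
  have h4 := Set.ncard_le_ncard hsub (Finset.finite_toSet _)
  rwa [Set.ncard_coe_finset] at h4

/-- A component with `m` vertices has at least `m - 1` edges. -/
lemma card_le_of_component {V : Type*} [Fintype V] [DecidableEq V] (H : SimpleGraph V)
    [DecidableRel H.Adj] (C : H.ConnectedComponent) (X : Finset V)
    (hX : ∀ v, v ∈ X ↔ v ∈ C.supp) :
    2 * X.card ≤ BT.E2 H X + 2 := by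
  classical
  have hconn := C.connected_toSimpleGraph
  have h1 := hconn.card_vert_le_card_edgeSet_add_one
  have _ : Fintype C := Fintype.ofFinite _
  have hcard : Nat.card C = X.card := by
    rw [← Nat.card_eq_of_bijective (fun x : X => (⟨x.1, (hX _).mp x.2⟩ : C))
      ⟨fun a b hab => Subtype.ext (by simpa using congrArg Subtype.val hab),
        fun y => ⟨⟨y.1, (hX _).mpr y.2⟩, rfl⟩⟩]
    simp
  have h2 := C.toSimpleGraph.sum_degrees_eq_twice_card_edges
  have h3 : Nat.card C.toSimpleGraph.edgeSet = C.toSimpleGraph.edgeFinset.card := by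
    rw [Nat.card_eq_fintype_card, SimpleGraph.edgeFinset_card]
  have h4 : ∑ v : C, C.toSimpleGraph.degree v = BT.E2 H X := by
    unfold BT.E2
    rw [← Finset.sum_coe_sort X]
    refine Finset.sum_bij' (fun a _ => (⟨a.1, (hX _).mpr a.2⟩ : X))
      (fun a _ => (⟨a.1, (hX _).mp a.2⟩ : C)) ?_ ?_ ?_ ?_ ?_
    · intro a _; exact Finset.mem_univ _
    · intro a _; exact Finset.mem_univ _
    · intro a _; rfl
    · intro a _; rfl
    · intro a _
      rw [← SimpleGraph.card_neighborFinset_eq_degree]
      refine Finset.card_bij (fun u _ => u.1) ?_ ?_ ?_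
      · intro u hu
        rw [SimpleGraph.mem_neighborFinset] at hu
        rw [Finset.mem_filter]
        exact ⟨(hX _).mpr u.2, hu⟩
      · intro u _ w _ huw
        exact Subtype.ext huw
      · intro u hu
        rw [Finset.mem_filter] at hu
        refine ⟨⟨u, (hX _).mp hu.1⟩, ?_, rfl⟩
        rw [SimpleGraph.mem_neighborFinset]
        exact hu.2
  have h5 : Nat.card C ≤ Nat.card C.toSimpleGraph.edgeSet + 1 := h1
  rw [hcard, h3] at h5
  rw [h4] at h2
  omega

/-- **Sparse graphs are forests with small components.** -/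
theorem forest_of_sparse {V : Type*} [Fintype V] [DecidableEq V] (H : SimpleGraph V)
    [DecidableRel H.Adj] (N : ℕ)
    (h : ∀ X : Finset V, X.Nonempty → (N + 1) * BT.E2 H X < 2 * N * X.card) :
    H.IsAcyclic ∧ ∀ C : H.ConnectedComponent, C.supp.ncard ≤ N := by
  classical
  constructor
  · intro v c hc
    have h1 := two_card_le_of_cycle H c hc
    have h2 := h c.support.toFinset ⟨v, by simp⟩
    have h3 : (N + 1) * (2 * c.support.toFinset.card) ≤
        (N + 1) * BT.E2 H c.support.toFinset := Nat.mul_le_mul_left _ h1
    nlinarith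
  · intro C
    set X : Finset V := {v | v ∈ C.supp} with hXdef
    have hX : ∀ v, v ∈ X ↔ v ∈ C.supp := by intro v; simp [hXdef]
    have hne : X.Nonempty := by
      obtain ⟨v, hv⟩ := C.nonempty_supp
      exact ⟨v, (hX v).mpr hv⟩
    have h1 := card_le_of_component H C X hX
    have h2 := h X hne
    have h3 : C.supp.ncard = X.card := by
      rw [← Set.ncard_coe_finset]
      congr 1
      ext v
      rw [Finset.mem_coe, hX]
    rw [h3]
    by_contra hlt
    rw [not_le] at hlt
    have h4 : (N + 1) * (2 * X.card) ≤ (N + 1) * (BT.E2 H X + 2) := Nat.mul_le_mul_left _ h1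
    nlinarith

end Pool.Agent.W986.Cluster
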