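import Pool.Agent.W986.Surface

/-!
# Toroidal and projective-planar graphs
-/

set_option autoImplicit false

open Finset

namespace Pool.Agent.W986

open Pool.Agent.DC76

section

variable {V : Type} [DecidableEq V] {G : SimpleGraph V} {F : Type} [Fintype F]

/-- The corners of the facial walks at a vertex `v` form one cycle through the neighbours of `v`:
every set `N` which contains some but not all of the neighbours of `v` is split by a corner
`walk t, walk (t + 1) = v, walk (t + 2)` of a face (with the indices read cyclically). So the
surface obtained by gluing a disc into every facial walk has no pinched points. -/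
def Link (M : FacialWalks G F) : Prop :=
  ∀ (v : V) (N : Set V), (∃ a ∈ N, G.Adj v a) → (∃ a, a ∉ N ∧ G.Adj v a) →
    ∃ f t, t < M.len f ∧ M.walk f (t + 1) = v ∧
      ¬ (M.walk f t ∈ N ↔ M.walk f ((t + 1) % M.len f + 1) ∈ N)

/-- The facial walks are oriented: every edge is traversed exactly once in each direction. So the
surface obtained by gluing a disc into every facial walk is orientable. -/
def Oriented (M : FacialWalks G F) : Prop :=
  ∀ u v, G.Adj u v →
    ∑ f, ((range (M.len f)).filter fun t => M.walk f t = u ∧ M.walk f (t + 1) = v).card = 1

end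

/-- `H` is a subgraph of a connected graph which has a cellular embedding, with Euler
characteristic `V - E + F = χ`, in a closed surface, which is orientable if `o` holds. -/
def Embeds (o : Prop) (χ : ℤ) {U : Type} (H : SimpleGraph U) : Prop :=
  ∃ (V F : Type) (_ : Fintype V) (_ : DecidableEq V) (_ : Fintype F) (G : SimpleGraph V)
    (f : U → V), Function.Injective f ∧ (∀ x y, H.Adj x y → G.Adj (f x) (f y)) ∧ G.Connected ∧
      (∃ M : FacialWalks G F, Link M ∧ (o → Oriented M)) ∧
      (Fintype.card V : ℤ) - G.edgeSet.ncard + Fintype.card F = χ

/-- `H` embeds in the torus, the closed orientable surface of Euler characteristic `0`. -/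
def Toroidal {U : Type} (H : SimpleGraph U) : Prop := Embeds True 0 H

/-- `H` embeds in the projective plane, the closed surface of Euler characteristic `1`. -/
def ProjectivePlanar {U : Type} (H : SimpleGraph U) : Prop := Embeds False 1 H

theorem Embeds.onSurface {o : Prop} {χ : ℤ} {U : Type} {H : SimpleGraph U} (h : Embeds o χ H) :
    OnSurface χ H := by
  obtain ⟨V, F, i1, i2, i3, G, f, h1, h2, h3, ⟨M, _⟩, h4⟩ := h
  exact ⟨V, F, i1, i2, i3, G, f, h1, h2, h3, ⟨M⟩, h4⟩

theorem Toroidal.onSurface {U : Type} {H : SimpleGraph U} (h : Toroidal H) : OnSurface 0 H :=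
  Embeds.onSurface h

theorem ProjectivePlanar.onSurface {U : Type} {H : SimpleGraph U} (h : ProjectivePlanar H) :
    OnSurface 1 H :=
  Embeds.onSurface h

end Pool.Agent.W986
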