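import Pool.Agent.W986.Cluster
import Pool.Agent.W986.Weights
import Pool.Agent.W986.Forest
import Pool.Agent.W986.L2
import Pool.Agent.W986.Precise

/-!
# Sparse graphs: list colourings with small monochromatic trees
-/

set_option autoImplicit false

open Finset

namespace Pool.Agent.W986.Cluster

open Pool.Agent.W986.BT Pool.Agent.DC76

/-- Every component of the graph of the monochromatic edges of the colouring `c` of `G` is a tree
with at most `N` vertices. -/
def SmallTrees {V C : Type} (G : SimpleGraph V) (N : ℕ) (c : V → C) : Prop :=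
  (mono G c).IsAcyclic ∧ ∀ K : (mono G c).ConnectedComponent, K.supp.ncard ≤ N

/-- From all lists of at least `k` colours there is a colouring of `G` such that every component of
the graph of the monochromatic edges is a tree with at most `N` vertices. -/
def TreeChoosable {V : Type} (G : SimpleGraph V) (k N : ℕ) : Prop :=
  ∀ (C : Type) (L : V → Finset C), (∀ v, k ≤ (L v).card) →
    ∃ c : V → C, (∀ v, c v ∈ L v) ∧ SmallTrees G N c

/-- Every finite graph with at most `(a / b) |X|` edges inside every set `X` of vertices has, from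
all lists of at least `k` colours, a colouring with at most `(a / (k b)) |X|` monochromatic edges
inside every set `X` of vertices. -/
theorem density {V : Type} [Finite V] (G : SimpleGraph V) (k a b : ℕ) (hk : 1 ≤ k) (hb : 1 ≤ b)
    (h : ∀ X : Finset V, b * ein G X ≤ a * X.card) (C : Type) (L : V → Finset C)
    (hL : ∀ v, k ≤ (L v).card) :
    ∃ c : V → C, (∀ v, c v ∈ L v) ∧
      ∀ X : Finset V, k * b * ein (mono G c) X ≤ a * X.card := by
  classical
  have : Fintype V := Fintype.ofFinite V
  set n : ℕ := Fintype.card V with hn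
  have hb0 : (0 : ℝ) < b := by exact_mod_cast hb
  have hn1 : (0 : ℝ) < n + 1 := by positivity
  set q : ℝ := (a + 1 / (n + 1)) / b with hq
  have hX : ∀ X : Finset V, X.Nonempty → (E2 G X : ℝ) < 2 * ∑ v ∈ X, (fun _ => q) v := by
    intro X hX
    have h1 : (b : ℝ) * ein G X ≤ a * #X := by exact_mod_cast h X
    have h2 : (0 : ℝ) < #X := by exact_mod_cast Finset.card_pos.mpr hX
    rw [E2_eq_ein, Finset.sum_const, nsmul_eq_mul]
    push_cast
    have h3 : (ein G X : ℝ) < #X * q := by
      rw [hq, mul_div_assoc', lt_div_iff₀ hb0]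
      have h4 : (0 : ℝ) < #X * (1 / (n + 1)) := by positivity
      nlinarith
    linarith
  obtain ⟨p, hp, hpq⟩ := exists_weights G (fun _ => q) hX
  obtain ⟨c, hcL, hc⟩ := exists_col G p hp q hpq L k hk hL
  refine ⟨c, hcL, fun X => ?_⟩
  have h1 := hc X
  rw [E2_eq_ein] at h1
  push_cast at h1
  have h3 : (#X : ℝ) < n + 1 := by
    have := Finset.card_le_univ X
    rw [← hn] at this
    exact_mod_cast Nat.lt_succ_of_le this
  have h4 : (#X : ℝ) * (1 / (n + 1)) < 1 := by
    rw [mul_one_div, div_lt_one hn1]; exact h3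
  have h5 : (b : ℝ) * q = a + 1 / (n + 1) := by
    rw [hq, mul_div_cancel₀ _ hb0.ne']
  have h6 : (k : ℝ) * b * ein (mono G c) X < a * #X + 1 := by
    calc (k : ℝ) * b * ein (mono G c) X = b * (k * (2 * ein (mono G c) X)) / 2 := by ring
      _ ≤ b * (2 * q * #X) / 2 := by
          have := mul_le_mul_of_nonneg_left h1 hb0.le
          linarith
      _ = (b * q) * #X := by ring
      _ = a * #X + #X * (1 / (n + 1)) := by rw [h5]; ring
      _ < a * #X + 1 := by linarith
  have h7 : k * b * ein (mono G c) X < a * #X + 1 := by exact_mod_cast h6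
  exact Nat.lt_succ_iff.mp h7

/-- A finite graph with fewer than `(k N / (N + 1)) |X|` edges inside every nonempty set `X` of
vertices has, from all lists of at least `k` colours, a colouring whose monochromatic components
are trees with at most `N` vertices. -/
theorem sparse {V : Type} [Finite V] (G : SimpleGraph V) (k N : ℕ) (hk : 1 ≤ k)
    (h : ∀ X : Finset V, X.Nonempty → (N + 1) * ein G X < k * N * X.card) :
    TreeChoosable G k N := by
  classical
  have : Fintype V := Fintype.ofFinite V
  intro C L hL
  set n : ℕ := Fintype.card V with hn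
  set q : ℝ := (k * N - 1 / (n + 1)) / (N + 1) with hq
  have hN : (0 : ℝ) < N + 1 := by positivity
  have hn1 : (0 : ℝ) < n + 1 := by positivity
  have hX : ∀ X : Finset V, X.Nonempty → (E2 G X : ℝ) < 2 * ∑ v ∈ X, (fun _ => q) v := by
    intro X hX
    have h1 := h X hX
    rw [E2_eq_ein, Finset.sum_const, nsmul_eq_mul]
    push_cast
    have h2 : ((N : ℝ) + 1) * ein G X + 1 ≤ k * N * #X := by exact_mod_cast h1
    have h3 : (#X : ℝ) < n + 1 := by
      have := Finset.card_le_univ X
      rw [← hn] at this
      exact_mod_cast Nat.lt_succ_of_le this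
    have h4 : (#X : ℝ) * (1 / (n + 1)) < 1 := by
      rw [mul_one_div, div_lt_one hn1]; exact h3
    have h5 : (#X : ℝ) * q = (k * N * #X - #X * (1 / (n + 1))) / (N + 1) := by
      rw [hq]; ring
    have h6 : (ein G X : ℝ) < #X * q := by
      rw [h5, lt_div_iff₀ hN]
      linarith
    linarith
  obtain ⟨p, hp, hpq⟩ := exists_weights G (fun _ => q) hX
  obtain ⟨c, hcL, hc⟩ := exists_col G p hp q hpq L k hk hL
  refine ⟨c, hcL, forest_of_sparse (mono G c) N fun X hX => ?_⟩
  have h1 := hc X
  have h2 : (0 : ℝ) < #X := by exact_mod_cast Finset.card_pos.mpr hX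
  have h3 : (0 : ℝ) < k := by exact_mod_cast hk
  have h4 : ((N : ℝ) + 1) * q < k * N := by
    rw [hq, mul_div_cancel₀ _ hN.ne']
    have : (0 : ℝ) < 1 / (n + 1) := by positivity
    linarith
  have h5 : (k : ℝ) * (((N : ℝ) + 1) * E2 (mono G c) X) < k * (2 * N * #X) := by
    calc (k : ℝ) * (((N : ℝ) + 1) * E2 (mono G c) X)
        = (N + 1) * (k * E2 (mono G c) X) := by ring
      _ ≤ (N + 1) * (2 * q * #X) := mul_le_mul_of_nonneg_left h1 hN.le
      _ = 2 * #X * ((N + 1) * q) := by ring
      _ < 2 * #X * (k * N) := mul_lt_mul_of_pos_left h4 (by positivity)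
      _ = k * (2 * N * #X) := by ring
  have h6 := lt_of_mul_lt_mul_left h5 h3.le
  exact_mod_cast h6

theorem OnSurface.finite {U : Type} {H : SimpleGraph U} {χ : ℤ} (h : OnSurface χ H) :
    Finite U := by
  obtain ⟨V, F, i1, _, _, G, f, hf, _⟩ := h
  exact Finite.of_injective f hf

/-- Sphere and projective plane. -/
theorem proj {U : Type} (H : SimpleGraph U) (χ : ℤ) (hχ : 1 ≤ χ) (h : OnSurface χ H) :
    TreeChoosable H 4 3 := by
  have := OnSurface.finite h
  refine sparse H 4 3 (by norm_num) fun X hX => ?_
  have h1 := ein_le_three_sub H χ hχ h X hX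
  omega

/-- Torus and Klein bottle. -/
theorem torus {U : Type} (H : SimpleGraph U) (χ : ℤ) (hχ : 0 ≤ χ) (h : OnSurface χ H) :
    TreeChoosable H 4 4 := by
  have := OnSurface.finite h
  refine sparse H 4 4 (by norm_num) fun X hX => ?_
  have h1 := ein_le_three H χ hχ h X
  have h2 := Finset.card_pos.mpr hX
  omega

end Pool.Agent.W986.Cluster
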