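import Pool.Agent.W986.Cluster
import Pool.Agent.W986.Forest
import Pool.Agent.W986.Peel2

/-!
# The strongly connected case: monochromatic components with at most three vertices

`G` with `e(X) < β(X)` for proper nonempty `X`, `e(V) = β(V)`, `β ≤ 3`, lists with at least `β + 1`
colours, and, if `e(V) = 3|V|`, every vertex in a triangle: there is a list colouring with fewer
than `(3/4)|X|` monochromatic edges inside every nonempty set `X`.
-/

set_option autoImplicit false
set_option linter.unusedSectionVars false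

namespace Pool.Agent.W986.Core3

open Finset Pool.Agent.W986.BT Pool.Agent.W986.Core Pool.Agent.W986.Cluster

variable {V C : Type*} [Fintype V] [DecidableEq V] [DecidableEq C] (G : SimpleGraph V)
  [DecidableRel G.Adj]

open Classical in
/-- The monochromatic component of `x`. -/
noncomputable def comp (c : V → C) (x : V) : Finset V :=
  univ.filter fun z => (mono G c).Reachable x z

lemma mem_comp (c : V → C) (x z : V) : z ∈ comp G c x ↔ (mono G c).Reachable x z := by
  simp [comp]

lemma self_mem (c : V → C) (x : V) : x ∈ comp G c x :=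
  (mem_comp G c x x).mpr (SimpleGraph.Reachable.refl x)

lemma comp_eq (c : V → C) (x z : V) (h : z ∈ comp G c x) : comp G c z = comp G c x := by
  rw [mem_comp] at h
  ext w
  rw [mem_comp, mem_comp]
  exact ⟨fun hw => h.trans hw, fun hw => h.symm.trans hw⟩

lemma adj_mem (c : V → C) (x z w : V) (h : z ∈ comp G c x) (hzw : (mono G c).Adj z w) :
    w ∈ comp G c x := by
  rw [mem_comp] at h ⊢
  exact h.trans hzw.reachable

/-- An induction principle for the membership in a component. -/
lemma comp_induct (c : V → C) (x : V) (S : V → Prop) (hx : S x)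
    (hs : ∀ z w, S z → (mono G c).Adj z w → S w) : ∀ z ∈ comp G c x, S z := by
  intro z hz
  rw [mem_comp, SimpleGraph.reachable_iff_reflTransGen] at hz
  induction hz with
  | refl => exact hx
  | tail _ h ih => exact hs _ _ ih h

lemma card_comp (c : V → C) (x : V) :
    2 * #(comp G c x) ≤ E2 (mono G c) (comp G c x) + 2 := by
  refine card_le_of_component (mono G c) ((mono G c).connectedComponentMk x) (comp G c x) ?_
  intro v
  rw [mem_comp, SimpleGraph.ConnectedComponent.mem_supp_iff, SimpleGraph.ConnectedComponent.eq]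
  exact ⟨fun h => h.symm, fun h => h.symm⟩

section main

variable (p : V → ℝ) (β : V → ℝ) (L : V → Finset C)

/-- The vertices in components with four vertices. -/
noncomputable def bs (c : V → C) : Finset V := {x | #(comp G c x) = 4}

lemma mem_bs (c : V → C) (x : V) : x ∈ bs G c ↔ #(comp G c x) = 4 := by
  simp [bs]

lemma own_le34 (hp : ∀ v, 0 < p v)
    (hβ : ∀ v, ∑ u ∈ G.neighborFinset v, p u / (p u + p v) = β v)
    (h34 : ∀ v, 4 * β v ≤ 3 * #(L v)) (c : V → C) (hc : IsMin G p L c) (v : V) :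
    4 * fl G p c v (c v) ≤ 3 := by
  have h1 : ∑ a ∈ L v, fl G p c v (c v) ≤ ∑ a ∈ L v, fl G p c v a :=
    Finset.sum_le_sum fun a ha => own_le G p L hp c hc v a ha
  have h2 := sum_le G p β hp hβ c v (L v)
  rw [Finset.sum_const, nsmul_eq_mul] at h1
  have h3 := h34 v
  have h4 : (0 : ℝ) < #(L v) := by
    exact_mod_cast Finset.card_pos.mpr ⟨c v, hc.1 v⟩
  by_contra h5
  push Not at h5
  nlinarith

lemma own_eq3 (hp : ∀ v, 0 < p v)
    (hβ : ∀ v, ∑ u ∈ G.neighborFinset v, p u / (p u + p v) = β v)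
    (h34 : ∀ v, 4 * β v ≤ 3 * #(L v)) (c : V → C) (hc : IsMin G p L c) (v : V)
    (h : 4 * fl G p c v (c v) = 3) :
    4 * β v = 3 * #(L v) ∧ (∀ a ∈ L v, fl G p c v a = fl G p c v (c v)) ∧
      ∀ u, G.Adj v u → c u ∈ L v := by
  have h1 : ∀ a ∈ L v, fl G p c v (c v) ≤ fl G p c v a := fun a ha =>
    own_le G p L hp c hc v a ha
  have h1' : ∑ a ∈ L v, fl G p c v (c v) ≤ ∑ a ∈ L v, fl G p c v a := Finset.sum_le_sum h1
  have h2 := sum_le G p β hp hβ c v (L v)
  have h3 := h34 v
  have hc' : ∑ a ∈ L v, fl G p c v (c v) = #(L v) * fl G p c v (c v) := by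
    rw [Finset.sum_const, nsmul_eq_mul]
  have h5 : #(L v) * fl G p c v (c v) = (3 / 4) * #(L v) := by
    have : fl G p c v (c v) = 3 / 4 := by linarith
    rw [this]; ring
  have hb : 4 * β v = 3 * #(L v) := by linarith
  refine ⟨hb, ?_, ?_⟩
  · have h6 : ∑ a ∈ L v, fl G p c v (c v) = ∑ a ∈ L v, fl G p c v a := by linarith
    intro a ha
    exact ((Finset.sum_eq_sum_iff_of_le h1).mp h6 a ha).symm
  · intro u hu
    by_contra hcu
    have h7 : ∑ a ∈ L v, fl G p c v a < β v := by
      rw [sum_fl, ← hβ v]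
      refine Finset.sum_lt_sum (fun x _ => ?_) ⟨u, by simpa using hu, ?_⟩
      · split_ifs
        · exact le_rfl
        · exact (f_pos p hp x v).le
      · rw [if_neg hcu]; exact f_pos p hp u v
    linarith

lemma E2_le (hp : ∀ v, 0 < p v)
    (hβ : ∀ v, ∑ u ∈ G.neighborFinset v, p u / (p u + p v) = β v)
    (h34 : ∀ v, 4 * β v ≤ 3 * #(L v)) (c : V → C) (hc : IsMin G p L c) (X : Finset V) :
    2 * E2 (mono G c) X ≤ 3 * #X := by
  have h1 := E2_mono_le G p hp c X
  have h2 : 4 * ∑ v ∈ X, fl G p c v (c v) ≤ 3 * #X := by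
    rw [Finset.mul_sum]
    refine le_trans (Finset.sum_le_sum fun v _ => own_le34 G p β L hp hβ h34 c hc v) ?_
    rw [Finset.sum_const, nsmul_eq_mul, mul_comm]
  have h3 : (2 : ℝ) * E2 (mono G c) X ≤ 3 * #X := by linarith
  exact_mod_cast h3

lemma card_comp_le (hp : ∀ v, 0 < p v)
    (hβ : ∀ v, ∑ u ∈ G.neighborFinset v, p u / (p u + p v) = β v)
    (h34 : ∀ v, 4 * β v ≤ 3 * #(L v)) (c : V → C) (hc : IsMin G p L c) (x : V) :
    #(comp G c x) ≤ 4 := by
  have h1 := card_comp G c x
  have h2 := E2_le G p β L hp hβ h34 c hc (comp G c x)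
  omega

/-- In a component with four vertices the flows are all equal to `3/4`. -/
lemma own_of_bad (hp : ∀ v, 0 < p v)
    (hβ : ∀ v, ∑ u ∈ G.neighborFinset v, p u / (p u + p v) = β v)
    (h34 : ∀ v, 4 * β v ≤ 3 * #(L v)) (c : V → C) (hc : IsMin G p L c) (x : V)
    (hx : #(comp G c x) = 4) : 4 * fl G p c x (c x) = 3 := by
  have h1 := card_comp G c x
  have h2 := E2_mono_le G p hp c (comp G c x)
  have h3 : (6 : ℝ) ≤ E2 (mono G c) (comp G c x) := by
    have : 6 ≤ E2 (mono G c) (comp G c x) := by omega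
    exact_mod_cast this
  have h4 : ∀ v ∈ comp G c x, fl G p c v (c v) ≤ 3 / 4 := fun v _ => by
    have := own_le34 G p β L hp hβ h34 c hc v
    linarith
  have h5 : ∑ v ∈ comp G c x, fl G p c v (c v) ≤ ∑ v ∈ comp G c x, (3 / 4 : ℝ) :=
    Finset.sum_le_sum h4
  have h6 : ∑ v ∈ comp G c x, (3 / 4 : ℝ) = 3 := by
    rw [Finset.sum_const, hx, nsmul_eq_mul]; norm_num
  have h7 : ∑ v ∈ comp G c x, fl G p c v (c v) = ∑ v ∈ comp G c x, (3 / 4 : ℝ) := by linarith
  have h8 := (Finset.sum_eq_sum_iff_of_le h4).mp h7 x (self_mem G c x)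
  rw [h8]; norm_num

/-- `c` minimises `Phi` and then the number of vertices in components with four vertices. -/
def IsMin3 (c : V → C) : Prop :=
  IsMin G p L c ∧ ∀ c' : V → C, IsMin G p L c' → #(bs G c) ≤ #(bs G c')

lemma reach_update (c : V → C) (x : V) (a : C) (z : V)
    (hz : x ∉ comp G (Function.update c x a) z) :
    comp G (Function.update c x a) z ⊆ comp G c z := by
  have h := comp_induct G (Function.update c x a) z
    (fun w => w ∈ comp G c z ∧ w ∈ comp G (Function.update c x a) z)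
    ⟨self_mem G c z, self_mem G _ z⟩ (by
      rintro b w ⟨hb1, hb2⟩ hbw
      have hw2 := adj_mem G _ z b w hb2 hbw
      refine ⟨adj_mem G c z b w hb1 ?_, hw2⟩
      have hbx : b ≠ x := by rintro rfl; exact hz hb2
      have hwx : w ≠ x := by rintro rfl; exact hz hw2
      have h1 := hbw.2
      rw [Function.update_of_ne hbx, Function.update_of_ne hwx] at h1
      exact ⟨hbw.1, h1⟩)
  exact fun w hw => (h w hw).1

lemma spread (hp : ∀ v, 0 < p v)
    (hβ : ∀ v, ∑ u ∈ G.neighborFinset v, p u / (p u + p v) = β v)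
    (h34 : ∀ v, 4 * β v ≤ 3 * #(L v)) (c : V → C) (hc : IsMin3 G p L c) (x : V)
    (hx : #(comp G c x) = 4) (a : C) (ha : a ∈ L x) :
    IsMin3 G p L (Function.update c x a) ∧ #(comp G (Function.update c x a) x) = 4 := by
  set c' := Function.update c x a with hc'
  have hoe := own_eq3 G p β L hp hβ h34 c hc.1 x (own_of_bad G p β L hp hβ h34 c hc.1 x hx)
  have hmin : IsMin G p L c' := by
    refine ⟨fun y => ?_, fun d hd => ?_⟩
    · by_cases hy : y = x
      · subst hy; rw [hc', Function.update_self]; exact ha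
      · rw [hc', Function.update_of_ne hy]; exact hc.1.1 y
    · rw [hc', phi_update, hoe.2.1 a ha]
      have := hc.1.2 d hd
      linarith
  have hsubx : comp G c x ⊆ bs G c := by
    intro z hz
    rw [mem_bs, comp_eq G c x z hz]; exact hx
  have hA : ∀ z, z ∈ bs G c' → z ∉ comp G c' x → z ∈ bs G c \ comp G c x := by
    intro z hz hzx
    rw [mem_bs] at hz
    have h1 : x ∉ comp G c' z := by
      intro h2
      exact hzx (by rw [comp_eq G c' z x h2]; exact self_mem G c' z)
    have h2 := reach_update G c x a z h1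
    have h3 := card_comp_le G p β L hp hβ h34 c hc.1 z
    have h4 : comp G c' z = comp G c z := Finset.eq_of_subset_of_card_le h2 (by
      rw [hz]; exact h3)
    rw [Finset.mem_sdiff, mem_bs]
    refine ⟨by rw [← h4]; exact hz, fun h5 => h1 ?_⟩
    rw [h4, comp_eq G c x z h5]
    exact self_mem G c x
  have hcard : #(bs G c \ comp G c x) = #(bs G c) - 4 := by
    rw [Finset.card_sdiff_of_subset hsubx, hx]
  have hge : 4 ≤ #(bs G c) := by rw [← hx]; exact Finset.card_le_card hsubx
  have hbad : #(comp G c' x) = 4 := by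
    by_contra hnb
    have hsub : bs G c' ⊆ bs G c \ comp G c x := by
      intro z hz
      refine hA z hz fun h1 => hnb ?_
      rw [mem_bs, comp_eq G c' x z h1] at hz
      exact hz
    have h1 := Finset.card_le_card hsub
    have h2 := hc.2 c' hmin
    omega
  refine ⟨⟨hmin, fun d hd => ?_⟩, hbad⟩
  refine le_trans ?_ (hc.2 d hd)
  have hsub : bs G c' ⊆ (bs G c \ comp G c x) ∪ comp G c' x := by
    intro z hz
    rw [Finset.mem_union]
    by_cases h1 : z ∈ comp G c' x
    · exact Or.inr h1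
    · exact Or.inl (hA z hz h1)
  have h1 := Finset.card_le_card hsub
  have h2 := Finset.card_union_le (bs G c \ comp G c x) (comp G c' x)
  omega

/-- A vertex of minimum weight in a component with four vertices has exactly one neighbour of each
colour, of three times the weight. -/
lemma one_nb (hp : ∀ v, 0 < p v)
    (hβ : ∀ v, ∑ u ∈ G.neighborFinset v, p u / (p u + p v) = β v)
    (h34 : ∀ v, 4 * β v ≤ 3 * #(L v)) (c : V → C) (hc : IsMin G p L c) (x : V)
    (hx : #(comp G c x) = 4) (hmin : ∀ v, p x ≤ p v) (a : C) (ha : a ∈ L x) :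
    ∃ u, nb G c x a = {u} ∧ p u = 3 * p x := by
  have h1 := own_of_bad G p β L hp hβ h34 c hc x hx
  have h2 := (own_eq3 G p β L hp hβ h34 c hc x h1).2.1 a ha
  have h3 : fl G p c x a = 3 / 4 := by linarith
  have hhalf : ∀ u, 1 / 2 ≤ p u / (p u + p x) := by
    intro u
    have h4 := hp u
    have h5 := hp x
    rw [div_le_div_iff₀ (by norm_num) (by positivity)]
    have := hmin u
    linarith
  have h4 : (#(nb G c x a) : ℝ) * (1 / 2) ≤ 3 / 4 := by
    rw [← h3, ← nsmul_eq_mul]
    exact Finset.card_nsmul_le_sum _ _ _ fun u _ => hhalf u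
  have h5 : #(nb G c x a) ≤ 1 := by
    by_contra h6
    push Not at h6
    have h7 : (2 : ℝ) ≤ #(nb G c x a) := by exact_mod_cast h6
    linarith
  have h6 : (nb G c x a).Nonempty := by
    by_contra h7
    rw [Finset.not_nonempty_iff_eq_empty] at h7
    unfold fl at h3
    rw [h7, Finset.sum_empty] at h3
    norm_num at h3
  have h7 : #(nb G c x a) = 1 := le_antisymm h5 (Finset.card_pos.mpr h6)
  obtain ⟨u, hu⟩ := Finset.card_eq_one.mp h7
  refine ⟨u, hu, ?_⟩
  unfold fl at h3
  rw [hu, Finset.sum_singleton] at h3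
  have h8 := hp u
  have h9 := hp x
  rw [div_eq_div_iff (by positivity) (by norm_num)] at h3
  linarith

/-- Without components with four vertices the colouring is good. -/
lemma good_of_no_bad (hp : ∀ v, 0 < p v)
    (hβ : ∀ v, ∑ u ∈ G.neighborFinset v, p u / (p u + p v) = β v)
    (h34 : ∀ v, 4 * β v ≤ 3 * #(L v)) (c : V → C) (hc : IsMin G p L c)
    (hnb : ∀ x, #(comp G c x) ≠ 4) (X : Finset V) (hX : X.Nonempty) :
    2 * E2 (mono G c) X < 3 * #X := by
  obtain ⟨x, hx⟩ := hX
  set K := comp G c x with hK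
  have h1 := E2_le G p β L hp hβ h34 c hc (X \ K)
  have h2 := E2_le G p β L hp hβ h34 c hc (X ∩ K)
  have h3 : #(X ∩ K) ≤ 3 := by
    have h4 := card_comp_le G p β L hp hβ h34 c hc x
    have h5 := hnb x
    have h6 : #(X ∩ K) ≤ #(comp G c x) := Finset.card_le_card Finset.inter_subset_right
    omega
  have h4 : 0 < #(X ∩ K) := Finset.card_pos.mpr ⟨x, Finset.mem_inter.mpr ⟨hx, self_mem G c x⟩⟩
  have h5 : E2 (mono G c) (X ∩ K) ≤ #(X ∩ K) * (#(X ∩ K) - 1) := by
    unfold E2
    rw [← smul_eq_mul, ← Finset.sum_const]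
    refine Finset.sum_le_sum fun v hv => ?_
    rw [← Finset.card_erase_of_mem hv]
    refine Finset.card_le_card fun u hu => ?_
    rw [Finset.mem_filter] at hu
    exact Finset.mem_erase.mpr ⟨hu.2.ne', hu.1⟩
  have h6 : E2 (mono G c) X = E2 (mono G c) (X \ K) + E2 (mono G c) (X ∩ K) := by
    have h7 : X = (X \ K) ∪ (X ∩ K) := by
      ext v
      rw [Finset.mem_union, Finset.mem_sdiff, Finset.mem_inter]
      tauto
    have h8 : Disjoint (X \ K) (X ∩ K) := by
      rw [Finset.disjoint_left]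
      intro v hv hv'
      exact (Finset.mem_sdiff.mp hv).2 (Finset.mem_inter.mp hv').2
    have h9 : ∑ v ∈ X ∩ K, #{u ∈ X \ K | (mono G c).Adj v u} = 0 := by
      refine Finset.sum_eq_zero fun v hv => ?_
      rw [Finset.card_eq_zero, Finset.filter_eq_empty_iff]
      intro u hu hvu
      exact (Finset.mem_sdiff.mp hu).2
        (adj_mem G c x v u (Finset.mem_inter.mp hv).2 hvu)
    conv_lhs => rw [h7]
    rw [Peel2.E2_union _ _ _ h8, h9]
    ring
  have h7 : #X = #(X \ K) + #(X ∩ K) := by
    have := Finset.card_sdiff_add_card_inter X K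
    omega
  have h8 : 2 * E2 (mono G c) (X ∩ K) < 3 * #(X ∩ K) := by
    interval_cases hm : #(X ∩ K) <;> omega
  omega

/-- The contradiction at an edge between two neighbours of a vertex of minimum weight. -/
lemma no_tri (hp : ∀ v, 0 < p v)
    (hβ : ∀ v, ∑ u ∈ G.neighborFinset v, p u / (p u + p v) = β v)
    (h34 : ∀ v, 4 * β v ≤ 3 * #(L v)) (d : V → C) (hd : IsMin3 G p L d) (x : V)
    (hx : #(comp G d x) = 4) (hmin : ∀ v, p x ≤ p v) (u w : V) (hxu : G.Adj x u)
    (hxw : G.Adj x w) (huw : G.Adj u w) : False := by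
  have hd1 := own_eq3 G p β L hp hβ h34 d hd.1 x (own_of_bad G p β L hp hβ h34 d hd.1 x hx)
  have hdu : d u ∈ L x := hd1.2.2 u hxu
  -- put `x` into the colour of `u`
  obtain ⟨hc, hcx⟩ := spread G p β L hp hβ h34 d hd x hx (d u) hdu
  set c := Function.update d x (d u) with hcdef
  have hcu : c u = c x := by
    rw [hcdef, Function.update_self, Function.update_of_ne hxu.ne']
  have hc1 := own_eq3 G p β L hp hβ h34 c hc.1 x (own_of_bad G p β L hp hβ h34 c hc.1 x hcx)
  obtain ⟨u1, hu1, hpu1⟩ := one_nb G p β L hp hβ h34 c hc.1 x hcx hmin (c u) (hc1.2.2 u hxu)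
  have hu1u : u = u1 := by
    have : u ∈ nb G c x (c u) := (mem_nb G c x (c u) u).mpr ⟨hxu, rfl⟩
    rw [hu1, Finset.mem_singleton] at this
    exact this
  subst hu1u
  obtain ⟨w1, hw1, hpw1⟩ := one_nb G p β L hp hβ h34 c hc.1 x hcx hmin (c w) (hc1.2.2 w hxw)
  have hw1w : w = w1 := by
    have : w ∈ nb G c x (c w) := (mem_nb G c x (c w) w).mpr ⟨hxw, rfl⟩
    rw [hw1, Finset.mem_singleton] at this
    exact this
  subst hw1w
  have hne : c w ≠ c u := by
    intro h
    rw [h, hu1] at hw1
    exact huw.ne (Finset.singleton_injective hw1)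
  -- the component of `w`
  set K := comp G c w with hK
  have hKcol : ∀ z ∈ K, c z = c w := comp_induct G c w (fun z => c z = c w) rfl
    fun z z' hz hzz' => by rw [← hzz'.2]; exact hz
  have huK : u ∉ K := fun h => hne (hKcol u h).symm
  -- `x` into the colour of `w`
  obtain ⟨-, h1x⟩ := spread G p β L hp hβ h34 c hc x hcx (c w) (hc1.2.2 w hxw)
  have hsub1 : comp G (Function.update c x (c w)) x ⊆ insert x K := by
    intro z hz
    have h := comp_induct G (Function.update c x (c w)) x (fun z => z ∈ insert x K)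
      (Finset.mem_insert_self x K) (by
        intro b z hb hbz
        rw [Finset.mem_insert] at hb ⊢
        by_cases hzx : z = x
        · exact Or.inl hzx
        right
        have h2 := hbz.2
        rw [Function.update_of_ne hzx] at h2
        by_cases hbx : b = x
        · subst hbx
          rw [Function.update_self] at h2
          have h3 : z ∈ nb G c b (c w) := (mem_nb G c b (c w) z).mpr ⟨hbz.1, h2.symm⟩
          rw [hw1, Finset.mem_singleton] at h3
          rw [h3]
          exact self_mem G c w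
        · rw [Function.update_of_ne hbx] at h2
          rcases hb with hb | hb
          · exact absurd hb hbx
          · exact adj_mem G c w b z hb ⟨hbz.1, h2⟩)
    exact h z hz
  have hK3 : 3 ≤ #K := by
    have h2 := Finset.card_le_card hsub1
    have h3 := Finset.card_insert_le x K
    omega
  -- `u` is bad
  have hucomp : u ∈ comp G c x := adj_mem G c x x u (self_mem G c x) ⟨hxu, hcu.symm⟩
  have hcu4 : #(comp G c u) = 4 := by rw [comp_eq G c x u hucomp]; exact hcx
  have hcu1 := own_of_bad G p β L hp hβ h34 c hc.1 u hcu4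
  have hcu2 := own_eq3 G p β L hp hβ h34 c hc.1 u hcu1
  have hwL : c w ∈ L u := hcu2.2.2 w huw
  have hflw : fl G p c u (c w) = 3 / 4 := by
    have := hcu2.2.1 (c w) hwL
    linarith
  obtain ⟨y, hyu, hyw⟩ : ∃ y ∈ nb G c u (c w), y ≠ w := by
    by_contra hno
    push Not at hno
    have h2 : nb G c u (c w) = {w} := by
      ext y
      rw [Finset.mem_singleton]
      refine ⟨fun h => hno y h, ?_⟩
      rintro rfl
      exact (mem_nb G c u (c y) y).mpr ⟨huw, rfl⟩
    unfold fl at hflw
    rw [h2, Finset.sum_singleton, hpu1, hpw1] at hflw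
    have h3 := hp x
    rw [div_eq_div_iff (by positivity) (by norm_num)] at hflw
    linarith
  rw [mem_nb] at hyu
  -- `u` into the colour of `w`
  obtain ⟨hc2, h2u⟩ := spread G p β L hp hβ h34 c hc u hcu4 (c w) hwL
  set c2 := Function.update c u (c w) with hc2def
  have hc2u : c2 u = c w := by rw [hc2def, Function.update_self]
  have hc2n : ∀ z, z ≠ u → c2 z = c z := fun z hz => by rw [hc2def, Function.update_of_ne hz]
  have hKadj : ∀ z ∈ K, ∀ z' ∈ K, (mono G c).Adj z z' → (mono G c2).Adj z z' := by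
    intro z hz z' hz' hzz'
    have h3 : z ≠ u := by rintro rfl; exact huK hz
    have h4 : z' ≠ u := by rintro rfl; exact huK hz'
    refine ⟨hzz'.1, ?_⟩
    rw [hc2n z h3, hc2n z' h4]
    exact hzz'.2
  have hsub2 : insert u K ⊆ comp G c2 u := by
    intro z hz
    rw [Finset.mem_insert] at hz
    rcases hz with rfl | hz
    · exact self_mem G c2 z
    · have h := comp_induct G c w (fun z => z ∈ K ∧ z ∈ comp G c2 u)
        ⟨self_mem G c w, adj_mem G c2 u u w (self_mem G c2 u) ⟨huw, by
          rw [hc2u, hc2n w huw.ne']⟩⟩ (by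
          rintro b z ⟨hb1, hb2⟩ hbz
          have h3 := adj_mem G c w b z hb1 hbz
          exact ⟨h3, adj_mem G c2 u b z hb2 (hKadj b hb1 z h3 hbz)⟩)
      exact (h z hz).2
  have heq : insert u K = comp G c2 u := Finset.eq_of_subset_of_card_le hsub2 (by
    rw [h2u, Finset.card_insert_of_notMem huK]; omega)
  have hyK : y ∈ K := by
    have h3 : y ∈ comp G c2 u := adj_mem G c2 u u y (self_mem G c2 u) ⟨hyu.1, by
      rw [hc2u, hc2n y hyu.1.ne', hyu.2]⟩
    rw [← heq, Finset.mem_insert] at h3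
    rcases h3 with h3 | h3
    · exact absurd h3 hyu.1.ne'
    · exact h3
  have hKcard : #K = 3 := by
    have h3 : #(insert u K) = 4 := by rw [heq]; exact h2u
    rw [Finset.card_insert_of_notMem huK] at h3
    omega
  -- count the edges
  have hE := E2_le G p β L hp hβ h34 c2 hc2.1 (comp G c2 u)
  have hE2 : E2 (mono G c2) (comp G c2 u) =
      E2 (mono G c2) K + E2 (mono G c2) {u} + 2 * #{z ∈ K | (mono G c2).Adj u z} := by
    have h3 : comp G c2 u = K ∪ {u} := by
      rw [← heq]
      ext z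
      rw [Finset.mem_insert, Finset.mem_union, Finset.mem_singleton]
      tauto
    rw [h3, Peel2.E2_union _ _ _ (by simpa using huK), Finset.sum_singleton]
  have hE3 : E2 (mono G c) K ≤ E2 (mono G c2) K := by
    unfold E2
    refine Finset.sum_le_sum fun z hz => Finset.card_le_card fun z' hz' => ?_
    rw [Finset.mem_filter] at hz' ⊢
    exact ⟨hz'.1, hKadj z hz z' hz'.1 hz'.2⟩
  have hE4 : 2 * #K ≤ E2 (mono G c) K + 2 := card_comp G c w
  have hE5 : 2 ≤ #{z ∈ K | (mono G c2).Adj u z} := by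
    rw [← Finset.card_pair hyw]
    refine Finset.card_le_card fun z hz => ?_
    rw [Finset.mem_insert, Finset.mem_singleton] at hz
    rw [Finset.mem_filter]
    rcases hz with rfl | rfl
    · exact ⟨hyK, hyu.1, by rw [hc2u, hc2n z hyu.1.ne', hyu.2]⟩
    · exact ⟨self_mem G c z, huw, by rw [hc2u, hc2n z huw.ne']⟩
  rw [h2u] at hE
  omega

end main

/-- **The strongly connected case.** -/
theorem core3 [Nonempty V] (β : V → ℝ) (L : V → Finset C)
    (hV : (E2 G univ : ℝ) = 2 * ∑ v, β v)
    (hX : ∀ X : Finset V, X.Nonempty → X ≠ univ → (E2 G X : ℝ) < 2 * ∑ v ∈ X, β v)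
    (h3 : ∀ v, β v ≤ 3) (hL : ∀ v, β v + 1 ≤ (#(L v) : ℝ))
    (htri : E2 G univ = 6 * Fintype.card V → ∀ x, ∃ u w, G.Adj x u ∧ G.Adj x w ∧ G.Adj u w) :
    ∃ c : V → C, (∀ v, c v ∈ L v) ∧
      ∀ X : Finset V, X.Nonempty → 2 * E2 (mono G c) X < 3 * #X := by
  classical
  obtain ⟨p, hp, hβ⟩ := bt_exists G β hV hX
  have h34 : ∀ v, 4 * β v ≤ 3 * #(L v) := fun v => by
    have := h3 v
    have := hL v
    linarith
  have hβ0 : ∀ v, 0 ≤ β v := fun v => by
    rw [← hβ v]
    exact Finset.sum_nonneg fun u _ => (f_pos p hp u v).le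
  have hLne : ∀ v, (L v).Nonempty := fun v => by
    rw [← Finset.card_pos]
    have h1 := hL v
    have h2 := hβ0 v
    have h4 : (0 : ℝ) < #(L v) := by linarith
    exact_mod_cast h4
  -- minimisers
  obtain ⟨c1, hc1⟩ : ∃ c, IsMin G p L c := by
    obtain ⟨c, hc, hmin⟩ := Finset.exists_min_image (Fintype.piFinset L) (Phi G p)
      (Fintype.piFinset_nonempty.mpr hLne)
    exact ⟨c, fun v => Fintype.mem_piFinset.mp hc v,
      fun c' hc' => hmin c' (Fintype.mem_piFinset.mpr hc')⟩
  obtain ⟨c, hc⟩ : ∃ c, IsMin3 G p L c := by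
    obtain ⟨c, hc, hmin⟩ := Finset.exists_min_image
      ((Fintype.piFinset L).filter fun c => IsMin G p L c) (fun c => #(bs G c))
      ⟨c1, Finset.mem_filter.mpr ⟨Fintype.mem_piFinset.mpr hc1.1, hc1⟩⟩
    refine ⟨c, (Finset.mem_filter.mp hc).2, fun c' hc' => hmin c' ?_⟩
    exact Finset.mem_filter.mpr ⟨Fintype.mem_piFinset.mpr hc'.1, hc'⟩
  refine ⟨c, hc.1.1, good_of_no_bad G p β L hp hβ h34 c hc.1 ?_⟩
  intro v hv
  -- special vertices
  set S : Finset V := {x | ∃ d, IsMin3 G p L d ∧ #(comp G d x) = 4} with hS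
  have hvS : v ∈ S := by
    simp only [hS, mem_filter, mem_univ, true_and]
    exact ⟨c, hc, hv⟩
  have hSuniv : S = univ := closed_univ G β hV hX S ⟨v, hvS⟩ (by
    intro x hx y hxy
    simp only [hS, mem_filter, mem_univ, true_and] at hx ⊢
    obtain ⟨d, hd, hbad⟩ := hx
    have h1 := own_eq3 G p β L hp hβ h34 d hd.1 x (own_of_bad G p β L hp hβ h34 d hd.1 x hbad)
    obtain ⟨h2, h4⟩ := spread G p β L hp hβ h34 d hd x hbad (d y) (h1.2.2 y hxy)
    refine ⟨_, h2, ?_⟩
    have h5 : y ∈ comp G (Function.update d x (d y)) x :=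
      adj_mem G _ x x y (self_mem G _ x) ⟨hxy, by
        rw [Function.update_self, Function.update_of_ne hxy.ne']⟩
    rw [comp_eq G _ x y h5]
    exact h4)
  have hall : ∀ x, ∃ d, IsMin3 G p L d ∧ #(comp G d x) = 4 := fun x => by
    have : x ∈ S := by rw [hSuniv]; exact mem_univ x
    simpa [hS] using this
  have hβ3 : ∀ x, β x = 3 := by
    intro x
    obtain ⟨d, hd, hbad⟩ := hall x
    have h1 := own_eq3 G p β L hp hβ h34 d hd.1 x (own_of_bad G p β L hp hβ h34 d hd.1 x hbad)
    have h2 := h3 x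
    have h4 := hL x
    linarith
  have hE : E2 G univ = 6 * Fintype.card V := by
    have h1 : (E2 G univ : ℝ) = 6 * Fintype.card V := by
      rw [hV, Finset.sum_congr rfl fun x _ => hβ3 x, Finset.sum_const, nsmul_eq_mul,
        Finset.card_univ]
      ring
    exact_mod_cast h1
  obtain ⟨x, -, hxmin⟩ := Finset.exists_min_image univ p ⟨v, mem_univ v⟩
  obtain ⟨d, hd, hbad⟩ := hall x
  obtain ⟨u, w, hxu, hxw, huw⟩ := htri hE x
  exact no_tri G p β L hp hβ h34 d hd x hbad (fun y => hxmin y (mem_univ y)) u w hxu hxw huw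

end Pool.Agent.W986.Core3
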