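import Pool.Agent.W986.Peel2
import Pool.Agent.W986.Cluster

/-!
# Monochromatic forests with components on at most three vertices: reduction to the tight,
strongly connected case
-/

set_option autoImplicit false

namespace Pool.Agent.W986.Peel3

open Finset Pool.Agent.W986.BT Pool.Agent.W986.Peel2 Pool.Agent.W986.Cluster

lemma E2_congr {V : Type*} [Fintype V] [DecidableEq V] (G H : SimpleGraph V)
    [DecidableRel G.Adj] [DecidableRel H.Adj] (X : Finset V)
    (h : ∀ v ∈ X, ∀ u ∈ X, (G.Adj v u ↔ H.Adj v u)) : E2 G X = E2 H X := by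
  unfold E2
  refine Finset.sum_congr rfl fun v hv => ?_
  congr 1
  ext u
  simp only [Finset.mem_filter]
  constructor
  · rintro ⟨hu, h1⟩
    exact ⟨hu, (h v hv u hu).1 h1⟩
  · rintro ⟨hu, h1⟩
    exact ⟨hu, (h v hv u hu).2 h1⟩

/-- The tight, strongly connected case for all types of one universe. -/
def CoreStatement3.{u, w} (C : Type w) [DecidableEq C] : Prop :=
  ∀ (V : Type u) [Fintype V] [DecidableEq V] (G : SimpleGraph V) [DecidableRel G.Adj] (β : V → ℝ)
    (L : V → Finset C), Nonempty V →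
    (E2 G univ : ℝ) = 2 * ∑ v, β v →
    (∀ X : Finset V, X.Nonempty → X ≠ univ → (E2 G X : ℝ) < 2 * ∑ v ∈ X, β v) →
    (∀ v, β v ≤ 3) → (∀ v, β v + 1 ≤ (#(L v) : ℝ)) →
    (E2 G univ = 6 * Fintype.card V → ∀ x, ∃ u w, G.Adj x u ∧ G.Adj x w ∧ G.Adj u w) →
    ∃ c : V → C, (∀ v, c v ∈ L v) ∧
      ∀ X : Finset V, X.Nonempty → 2 * E2 (mono G c) X < 3 * #X

universe u w

section main

variable {V : Type u} [Fintype V] [DecidableEq V] (G : SimpleGraph V) [DecidableRel G.Adj]
variable {C : Type w} [DecidableEq C]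

/-- A list colouring of `W` whose monochromatic subgraph has fewer than `3/4 |X|` edges inside
every nonempty `X`. -/
def GoodOn (W : Finset V) (L : V → Finset C) : Prop :=
  ∃ c : V → C, (∀ v ∈ W, c v ∈ L v) ∧
    ∀ X ⊆ W, X.Nonempty → 2 * E2 (mono G c) X < 3 * #X

/-- The hypotheses on `W`. -/
structure Hyp (W : Finset V) (β : V → ℝ) (L : V → Finset C) : Prop where
  hb : ∀ X ⊆ W, (E2 G X : ℝ) ≤ 2 * ∑ v ∈ X, β v
  h3 : ∀ v ∈ W, β v ≤ 3
  hL : ∀ v ∈ W, β v + 1 ≤ (#(L v) : ℝ)

/-- Step 1: a tight proper nonempty subset is split off. -/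
lemma split (W X : Finset V) (β : V → ℝ) (L : V → Finset C)
    (h : Hyp G W β L) (hXW : X ⊆ W) (ht : (E2 G X : ℝ) = 2 * ∑ v ∈ X, β v)
    (h1 : ∀ (β' : V → ℝ) (L' : V → Finset C), Hyp G X β' L' → GoodOn G X L')
    (h2 : ∀ (β' : V → ℝ) (L' : V → Finset C), Hyp G (W \ X) β' L' → GoodOn G (W \ X) L') : GoodOn G W L := by
  obtain ⟨c1, hc1, hd1⟩ := h1 β L
    ⟨fun Y hY => h.hb Y (hY.trans hXW), fun v hv => h.h3 v (hXW hv), fun v hv => h.hL v (hXW hv)⟩
  set N : V → Finset V := fun v => {u ∈ X | G.Adj v u} with hN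
  set β' : V → ℝ := fun v => β v - (#(N v) : ℝ) with hβ'
  set L' : V → Finset C := fun v => L v \ (N v).image c1 with hL'
  have hcard : ∀ v, (#(L v) : ℝ) - #(N v) ≤ #(L' v) := by
    intro v
    have h3 := Finset.le_card_sdiff ((N v).image c1) (L v)
    have h4 : #((N v).image c1) ≤ #(N v) := Finset.card_image_le
    have h5 : #(L v) ≤ #(L' v) + #(N v) := by
      simp only [hL']
      omega
    have h6 : (#(L v) : ℝ) ≤ #(L' v) + #(N v) := by exact_mod_cast h5
    linarith
  have hHyp : Hyp G (W \ X) β' L' := by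
    refine ⟨?_, ?_, ?_⟩
    · intro Y hY
      have hdis : Disjoint X Y := by
        rw [Finset.disjoint_left]
        intro v hvX hvY
        exact (Finset.mem_sdiff.mp (hY hvY)).2 hvX
      have h3 := h.hb (X ∪ Y) (Finset.union_subset hXW (hY.trans Finset.sdiff_subset))
      rw [E2_union G X Y hdis, Finset.sum_union hdis] at h3
      push_cast at h3
      simp only [hβ', Finset.sum_sub_distrib]
      simp only [hN]
      linarith
    · intro v hv
      have h5 := h.h3 v (Finset.mem_sdiff.mp hv).1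
      have h6 : (0:ℝ) ≤ #(N v) := by positivity
      simp only [hβ']
      linarith
    · intro v hv
      have h3 := hcard v
      have h5 := h.hL v (Finset.mem_sdiff.mp hv).1
      simp only [hβ']
      linarith
  obtain ⟨c2, hc2, hd2⟩ := h2 β' L' hHyp
  set c : V → C := fun v => if v ∈ X then c1 v else c2 v with hc
  have hcX : ∀ v ∈ X, c v = c1 v := fun v hv => by simp only [hc, hv, if_true]
  have hcY : ∀ v, v ∉ X → c v = c2 v := fun v hv => by simp only [hc, hv, if_false]
  refine ⟨c, ?_, ?_⟩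
  · intro v hv
    by_cases hvX : v ∈ X
    · rw [hcX v hvX]
      exact hc1 v hvX
    · rw [hcY v hvX]
      have := hc2 v (Finset.mem_sdiff.mpr ⟨hv, hvX⟩)
      exact (Finset.mem_sdiff.mp this).1
  · -- no conflict between `X` and the rest
    have hno : ∀ u ∈ X, ∀ v ∈ W \ X, G.Adj v u → c v ≠ c u := by
      intro u hu v hv hadj heq'
      rw [hcX u hu, hcY v (Finset.mem_sdiff.mp hv).2] at heq'
      have h3 := (Finset.mem_sdiff.mp (hc2 v hv)).2
      apply h3
      rw [heq']
      exact Finset.mem_image_of_mem _ (by simp [hN, hu, hadj])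
    intro Z hZ hZne
    have hdis : Disjoint (Z ∩ X) (Z \ X) := by
      rw [Finset.disjoint_left]
      intro v h3 h4
      exact (Finset.mem_sdiff.mp h4).2 (Finset.mem_inter.mp h3).2
    have hun : (Z ∩ X) ∪ (Z \ X) = Z := by
      ext v
      simp only [Finset.mem_union, Finset.mem_inter, Finset.mem_sdiff]
      tauto
    have hE := E2_union (mono G c) (Z ∩ X) (Z \ X) hdis
    rw [hun] at hE
    have hcross : ∑ v ∈ Z \ X, #{u ∈ Z ∩ X | (mono G c).Adj v u} = 0 := by
      refine Finset.sum_eq_zero fun v hv => ?_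
      rw [Finset.card_eq_zero, Finset.filter_eq_empty_iff]
      intro u hu hadj
      obtain ⟨hvZ, hvX⟩ := Finset.mem_sdiff.mp hv
      exact hno u (Finset.mem_inter.mp hu).2 v (Finset.mem_sdiff.mpr ⟨hZ hvZ, hvX⟩) hadj.1 hadj.2
    rw [hcross] at hE
    have hcards : #(Z ∩ X) + #(Z \ X) = #Z := by
      rw [← Finset.card_union_of_disjoint hdis, hun]
    have hE1 : E2 (mono G c) (Z ∩ X) = E2 (mono G c1) (Z ∩ X) := by
      refine E2_congr _ _ _ fun v hv u hu => ?_
      change (G.Adj v u ∧ c v = c u) ↔ (G.Adj v u ∧ c1 v = c1 u)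
      rw [hcX v (Finset.mem_inter.mp hv).2, hcX u (Finset.mem_inter.mp hu).2]
    have hE2' : E2 (mono G c) (Z \ X) = E2 (mono G c2) (Z \ X) := by
      refine E2_congr _ _ _ fun v hv u hu => ?_
      change (G.Adj v u ∧ c v = c u) ↔ (G.Adj v u ∧ c2 v = c2 u)
      rw [hcY v (Finset.mem_sdiff.mp hv).2, hcY u (Finset.mem_sdiff.mp hu).2]
    have hA : (Z ∩ X).Nonempty → 2 * E2 (mono G c1) (Z ∩ X) < 3 * #(Z ∩ X) :=
      fun hne => hd1 _ Finset.inter_subset_right hne
    have hB : (Z \ X).Nonempty → 2 * E2 (mono G c2) (Z \ X) < 3 * #(Z \ X) :=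
      fun hne => hd2 _ (Finset.sdiff_subset_sdiff hZ (Finset.Subset.refl X)) hne
    rw [hE1, hE2'] at hE
    have hpos : 0 < #Z := Finset.card_pos.mpr hZne
    rcases Finset.eq_empty_or_nonempty (Z ∩ X) with he1 | he1
    · rcases Finset.eq_empty_or_nonempty (Z \ X) with he2 | he2
      · rw [he1, he2] at hcards
        simp only [Finset.card_empty] at hcards
        omega
      · have h5 := hB he2
        have h6 : E2 (mono G c1) (Z ∩ X) = 0 := by
          rw [he1]
          simp [E2]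
        omega
    · have h5 := hA he1
      rcases Finset.eq_empty_or_nonempty (Z \ X) with he2 | he2
      · have h6 : E2 (mono G c2) (Z \ X) = 0 := by
          rw [he2]
          simp [E2]
        omega
      · have h6 := hB he2
        omega

/-- The strongly connected tight case inside `V`. -/
lemma coreOn {V : Type u} [Fintype V] [DecidableEq V] (G : SimpleGraph V) [DecidableRel G.Adj]
    (hcore : CoreStatement3.{u, w} C)
    (htri : ∀ X : Finset V, X.Nonempty → E2 G X = 6 * #X →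
      ∀ x ∈ X, ∃ u ∈ X, ∃ w ∈ X, G.Adj x u ∧ G.Adj x w ∧ G.Adj u w)
    (W : Finset V) (β : V → ℝ) (L : V → Finset C) (h : Hyp G W β L) (hne : W.Nonempty)
    (ht : (E2 G W : ℝ) = 2 * ∑ v ∈ W, β v)
    (hs : ∀ X ⊂ W, X.Nonempty → (E2 G X : ℝ) < 2 * ∑ v ∈ X, β v) : GoodOn G W L := by
  classical
  have hmap : (univ : Finset {x // x ∈ W}).map (Function.Embedding.subtype _) = W := by
    ext v; simp
  have hsum : ∀ Y : Finset {x // x ∈ W},
      ∑ v ∈ Y.map (Function.Embedding.subtype _), β v = ∑ v ∈ Y, β v.1 := by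
    intro Y
    rw [Finset.sum_map]; rfl
  obtain ⟨w0, hw0⟩ := hne
  obtain ⟨c, hc, hd⟩ := hcore {x // x ∈ W} (G.comap Subtype.val) (fun v => β v.1) (fun v => L v.1)
    ⟨⟨w0, hw0⟩⟩
    (by rw [E2_comap, ← hsum, hmap]; exact ht)
    (by
      intro X hX hXu
      rw [E2_comap, ← hsum]
      refine hs _ ?_ (by simpa using hX)
      rw [Finset.ssubset_iff_subset_ne]
      refine ⟨?_, ?_⟩
      · intro v hv
        obtain ⟨x, _, rfl⟩ := Finset.mem_map.mp hv
        exact x.2
      · intro he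
        apply hXu
        exact Finset.map_injective _ (he.trans hmap.symm))
    (fun v => h.h3 v.1 v.2) (fun v => h.hL v.1 v.2)
    (by
      intro he x
      rw [E2_comap, hmap, Fintype.card_coe] at he
      obtain ⟨u, hu, w, hw, h1, h2, h3⟩ := htri W ⟨w0, hw0⟩ he x.1 x.2
      exact ⟨⟨u, hu⟩, ⟨w, hw⟩, h1, h2, h3⟩)
  refine ⟨fun v => if hv : v ∈ W then c ⟨v, hv⟩ else c ⟨w0, hw0⟩, ?_, ?_⟩
  · intro v hv
    simp only [hv, dif_pos]
    exact hc ⟨v, hv⟩
  · intro X hX hXne
    set c' : V → C := fun v => if hv : v ∈ W then c ⟨v, hv⟩ else c ⟨w0, hw0⟩ with hc'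
    set Y : Finset {x // x ∈ W} := univ.filter (fun x => x.1 ∈ X) with hY
    have hYX : Y.map (Function.Embedding.subtype _) = X := by
      ext v
      simp only [hY, Finset.mem_map, Finset.mem_filter, Finset.mem_univ, true_and,
        Function.Embedding.coe_subtype]
      constructor
      · rintro ⟨x, hx, rfl⟩
        exact hx
      · intro hv
        exact ⟨⟨v, hX hv⟩, hv, rfl⟩
    have hYcard : #Y = #X := by
      rw [← hYX, Finset.card_map]
    have hYne : Y.Nonempty := by
      rw [← Finset.card_pos, hYcard]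
      exact Finset.card_pos.mpr hXne
    have h5 := hd Y hYne
    have h6 : E2 (mono G c') X = E2 (mono (G.comap Subtype.val) c) Y := by
      rw [← hYX, ← E2_comap]
      refine E2_congr _ _ _ fun v _ u _ => ?_
      change (G.Adj v.1 u.1 ∧ c' v.1 = c' u.1) ↔ (G.Adj v.1 u.1 ∧ c v = c u)
      have e1 : c' v.1 = c v := by
        simp only [hc', v.2, dif_pos]
      have e2 : c' u.1 = c u := by
        simp only [hc', u.2, dif_pos]
      rw [e1, e2]
    rw [h6, ← hYcard]
    exact h5

/-- Some nonempty subset of `W` is tight. -/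
lemma tightCase {V : Type u} [Fintype V] [DecidableEq V] (G : SimpleGraph V) [DecidableRel G.Adj]
    (hcore : CoreStatement3.{u, w} C)
    (htri : ∀ X : Finset V, X.Nonempty → E2 G X = 6 * #X →
      ∀ x ∈ X, ∃ u ∈ X, ∃ w ∈ X, G.Adj x u ∧ G.Adj x w ∧ G.Adj u w)
    (W : Finset V) (β : V → ℝ) (L : V → Finset C) (h : Hyp G W β L)
    (ih : ∀ W' : Finset V, #W' < #W → ∀ (β' : V → ℝ) (L' : V → Finset C), Hyp G W' β' L' →
      GoodOn G W' L')
    (X : Finset V) (hX : X ⊆ W) (hne : X.Nonempty) (ht : (E2 G X : ℝ) = 2 * ∑ v ∈ X, β v) :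
    GoodOn G W L := by
  classical
  by_cases hex : ∃ Y ⊂ W, Y.Nonempty ∧ (E2 G Y : ℝ) = 2 * ∑ v ∈ Y, β v
  · obtain ⟨Y, hYW, hYne, hYt⟩ := hex
    refine split G W Y β L h hYW.subset hYt (ih Y (Finset.card_lt_card hYW)) (ih (W \ Y) ?_)
    refine Finset.card_lt_card ?_
    exact Finset.sdiff_ssubset hYW.subset hYne
  · push Not at hex
    have hXW : X = W := by
      by_contra hne'
      exact hex X (Finset.ssubset_iff_subset_ne.mpr ⟨hX, hne'⟩) hne ht
    subst hXW
    refine coreOn G hcore htri X β L h hne ht ?_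
    intro Y hY hYne
    exact lt_of_le_of_ne (h.hb Y hY.subset) (hex Y hY hYne)

/-- The induction. -/
lemma all {V : Type u} [Fintype V] [DecidableEq V] (G : SimpleGraph V) [DecidableRel G.Adj]
    (d0 : C) (hcore : CoreStatement3.{u, w} C)
    (htri : ∀ X : Finset V, X.Nonempty → E2 G X = 6 * #X →
      ∀ x ∈ X, ∃ u ∈ X, ∃ w ∈ X, G.Adj x u ∧ G.Adj x w ∧ G.Adj u w) :
    ∀ (n : ℕ) (W : Finset V), #W ≤ n → ∀ (β : V → ℝ) (L : V → Finset C), Hyp G W β L →
      GoodOn G W L := by
  classical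
  intro n
  induction n with
  | zero =>
    intro W hW β L _
    have : W = ∅ := Finset.card_eq_zero.mp (by omega)
    subst this
    refine ⟨fun _ => d0, by simp, ?_⟩
    intro X hX hXne
    exact absurd (Finset.subset_empty.mp hX) hXne.ne_empty
  | succ n ihn =>
    intro W hW β L h
    have ih : ∀ W' : Finset V, #W' < #W → ∀ (β' : V → ℝ) (L' : V → Finset C), Hyp G W' β' L' →
        GoodOn G W' L' :=
      fun W' hW' β' L' h' => ihn W' (by omega) β' L' h'
    rcases W.eq_empty_or_nonempty with rfl | hne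
    · exact ihn ∅ (by simp) β L h
    obtain ⟨v0, hv0⟩ := hne
    -- the least slack of a set containing `v0`
    set P : Finset (Finset V) := W.powerset.filter (fun X => v0 ∈ X) with hP
    have hPne : P.Nonempty := ⟨W, by simp [hP, hv0]⟩
    obtain ⟨X, hXP, hXmin⟩ := Finset.exists_min_image P
      (fun X => 2 * ∑ v ∈ X, β v - (E2 G X : ℝ)) hPne
    have hXW : X ⊆ W := by
      have := (Finset.mem_filter.mp hXP).1
      exact Finset.mem_powerset.mp this
    have hv0X : v0 ∈ X := (Finset.mem_filter.mp hXP).2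
    set δ : ℝ := (2 * ∑ v ∈ X, β v - (E2 G X : ℝ)) / 2 with hδ
    have hδ0 : 0 ≤ δ := by
      have := h.hb X hXW
      simp only [hδ]; linarith
    set β' : V → ℝ := fun v => β v - (if v = v0 then δ else 0) with hβ'
    have hsumβ : ∀ Y : Finset V, ∑ v ∈ Y, β' v = ∑ v ∈ Y, β v - (if v0 ∈ Y then δ else 0) := by
      intro Y
      simp only [hβ', Finset.sum_sub_distrib, Finset.sum_ite_eq']
    have hle : ∀ v, β' v ≤ β v := by
      intro v
      simp only [hβ']
      split_ifs <;> linarith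
    have h' : Hyp G W β' L := by
      refine ⟨?_, ?_, ?_⟩
      · intro Y hY
        rw [hsumβ]
        by_cases hY0 : v0 ∈ Y
        · have h3 := hXmin Y (by simp [hP, hY, hY0])
          simp only [hY0, if_true, hδ]
          linarith
        · have h3 := h.hb Y hY
          simp only [hY0, if_false]
          linarith
      · intro v hv
        have := h.h3 v hv
        have := hle v
        linarith
      · intro v hv
        have := h.hL v hv
        have := hle v
        linarith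
    refine tightCase G hcore htri W β' L h' ih X hXW ⟨v0, hv0X⟩ ?_
    rw [hsumβ]
    simp only [hv0X, if_true, hδ]
    ring

/-- Statement (A) for `N = 3`. -/
theorem statementA3 {V : Type u} [Fintype V] [DecidableEq V] (G : SimpleGraph V)
    [DecidableRel G.Adj] (hcore : CoreStatement3.{u, w} C)
    (htri : ∀ X : Finset V, X.Nonempty → E2 G X = 6 * #X →
      ∀ x ∈ X, ∃ u ∈ X, ∃ w ∈ X, G.Adj x u ∧ G.Adj x w ∧ G.Adj u w)
    (β : V → ℝ) (L : V → Finset C)
    (hb : ∀ X : Finset V, (E2 G X : ℝ) ≤ 2 * ∑ v ∈ X, β v)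
    (h3 : ∀ v, β v ≤ 3) (hL : ∀ v, β v + 1 ≤ (#(L v) : ℝ)) :
    ∃ c : V → C, (∀ v, c v ∈ L v) ∧
      ∀ X : Finset V, X.Nonempty → 2 * E2 (mono G c) X < 3 * #X := by
  classical
  rcases isEmpty_or_nonempty V with hV | ⟨⟨v0⟩⟩
  · refine ⟨fun v => isEmptyElim v, fun v => isEmptyElim v, ?_⟩
    rintro X ⟨x, _⟩
    exact isEmptyElim x
  · have h1 := hb {v0}
    rw [Finset.sum_singleton] at h1
    have h2 : (0:ℝ) ≤ (E2 G {v0} : ℝ) := by positivity
    have h4 := hL v0
    have h5 : (0:ℝ) < (#(L v0) : ℝ) := by linarith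
    have h6 : 0 < #(L v0) := by exact_mod_cast h5
    obtain ⟨d0, _⟩ := Finset.card_pos.mp h6
    obtain ⟨c, hc, hd⟩ := all G d0 hcore htri _ univ le_rfl β L
      ⟨fun X _ => hb X, fun v _ => h3 v, fun v _ => hL v⟩
    exact ⟨c, fun v => hc v (mem_univ v), fun X hX => hd X (Finset.subset_univ X) hX⟩

end main

end Pool.Agent.W986.Peel3
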