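import Pool.Agent.W986.Surface

/-!
# Graphs on a surface with the largest number of edges: every vertex lies in a triangle
-/

set_option autoImplicit false

open Finset

namespace Pool.Agent.W986

open Pool.Agent.DC76

section

variable {V : Type} [Fintype V] [DecidableEq V]

/-- A nonzero cycle with only three edges is a triangle. -/
theorem tri_of_six {K : SimpleGraph V} {z : V → V → ZMod 2} (hz : z ∈ Z K Set.univ)
    {u v : V} (huv : z u v ≠ 0) (h6 : cnt z ≤ 6) : ∃ w, K.Adj u w ∧ K.Adj v w := by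
  obtain ⟨hz1, hz2, hz3⟩ := hz
  obtain ⟨w, hw, huw⟩ := row_two huv (hz3 u)
  have hne1 : u ≠ v := (hz2 u v huv).1.ne
  have hne2 : u ≠ w := (hz2 u w huw).1.ne
  have hvu : z v u ≠ 0 := by rw [hz1 v u]; exact huv
  obtain ⟨y, hy, hvy⟩ := row_two hvu (hz3 v)
  have hne3 : v ≠ y := (hz2 v y hvy).1.ne
  by_cases hyw : y = w
  · rw [hyw] at hvy
    exact ⟨w, (hz2 u w huw).1, (hz2 v w hvy).1⟩
  · exfalso
    have r1 := row_card huv (hz3 u)
    have r2 := row_card hvu (hz3 v)
    have r3 := row_card (u := w) (v := u) (by rw [hz1 w u]; exact huw) (hz3 w)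
    have r4 := row_card (u := y) (v := v) (by rw [hz1 y v]; exact hvy) (hz3 y)
    have h2 : ∑ x ∈ ({u, v, w, y} : Finset V), (univ.filter fun t => z x t ≠ 0).card ≤ cnt z :=
      Finset.sum_le_sum_of_subset (Finset.subset_univ _)
    have hwy : w ≠ y := fun h => hyw h.symm
    rw [Finset.sum_insert (by simp [hne1, hne2, hy.symm]),
      Finset.sum_insert (by simp [hw.symm, hne3]), Finset.sum_pair hwy] at h2
    omega

omit [DecidableEq V] in
/-- If an edge is in no class, then the count of the classes is not sharp. -/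
theorem cnt_sum_lt (K : SimpleGraph V) {ι : Type} [Fintype ι] (b : ι → V → V → ZMod 2)
    (hK : ∀ j u v, ¬ K.Adj u v → b j u v = 0) (hc : ∀ u v, {j | b j u v ≠ 0}.ncard ≤ 2)
    {u0 v0 : V} (h0 : K.Adj u0 v0) (hz : ∀ j, b j u0 v0 = 0) :
    ∑ j, cnt (b j) < 4 * K.edgeSet.ncard := by
  classical
  have h1 : ∑ j, cnt (b j) = ∑ u, ∑ v, (univ.filter fun j => b j u v ≠ 0).card := by
    unfold cnt
    simp only [Finset.card_filter]
    rw [Finset.sum_comm]
    refine Finset.sum_congr rfl fun u _ => ?_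
    rw [Finset.sum_comm]
  have h2 : ∀ u v, (univ.filter fun j => b j u v ≠ 0).card ≤ if K.Adj u v then 2 else 0 := by
    intro u v
    by_cases h : K.Adj u v
    · rw [if_pos h]
      refine le_trans (le_of_eq ?_) (hc u v)
      rw [← Set.ncard_coe_finset]
      congr 1
      ext j
      simp
    · rw [if_neg h]
      rw [Nat.le_zero, Finset.card_eq_zero, Finset.filter_eq_empty_iff]
      intro j _
      rw [not_not]
      exact hK j u v h
  have h3 : ∑ u, ∑ v, (if K.Adj u v then 2 else 0) = 4 * K.edgeSet.ncard := by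
    have h4 : ∀ u, ∑ v, (if K.Adj u v then 2 else 0) = 2 * K.degree u := by
      intro u
      rw [← Finset.sum_filter, Finset.sum_const, smul_eq_mul, mul_comm]
      congr 2
      ext v
      simp
    rw [Finset.sum_congr rfl fun u _ => h4 u, ← Finset.mul_sum,
      K.sum_degrees_eq_twice_card_edges]
    have h5 : K.edgeFinset.card = K.edgeSet.ncard := by
      rw [Set.ncard_eq_toFinset_card']
      congr 1
    rw [h5]
    ring
  have h6 : (univ.filter fun j => b j u0 v0 ≠ 0).card < if K.Adj u0 v0 then 2 else 0 := by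
    rw [if_pos h0]
    have : (univ.filter fun j => b j u0 v0 ≠ 0) = ∅ := by
      rw [Finset.filter_eq_empty_iff]
      intro j _
      rw [not_not]
      exact hz j
    rw [this, Finset.card_empty]
    exact Nat.zero_lt_two
  rw [h1, ← h3]
  refine Finset.sum_lt_sum (fun u _ => Finset.sum_le_sum fun v _ => h2 u v)
    ⟨u0, Finset.mem_univ _, ?_⟩
  exact Finset.sum_lt_sum (fun v _ => h2 u0 v) ⟨v0, Finset.mem_univ _, h6⟩

/-- A subgraph with `3|Y|` edges inside `Y` on a surface of characteristic at least `0`: every edge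
lies in a triangle. -/
theorem sub_eq {G : SimpleGraph V} (hG : Conn G Set.univ) {F : Type} [Fintype F]
    (M : FacialWalks G F) (χ : ℤ) (hχ0 : 0 ≤ χ)
    (hχ : (Fintype.card V : ℤ) - G.edgeSet.ncard + Fintype.card F = χ)
    (K : SimpleGraph V) (hKG : ∀ u v, K.Adj u v → G.Adj u v) (Y : Finset V) (hY : Y.Nonempty)
    (hK : ∀ u v, K.Adj u v → u ∈ Y ∧ v ∈ Y) (he : (K.edgeSet.ncard : ℤ) = 3 * Y.card) :
    ∀ u v, K.Adj u v → ∃ w, K.Adj u w ∧ K.Adj v w := by
  classical
  have hfin : Fintype (Quotient (cls M K)) := Fintype.ofFinite _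
  have h1 := finrank_Z_ge K Y hY hK
  have h2 := finrank_Z hG ⟨hY.choose⟩
  have h3 := face_rank M
  have hle : Z K Set.univ ≤ Z G Set.univ := fun z hz =>
    ⟨hz.1, fun u v h => ⟨hKG u v (hz.2.1 u v h).1, Set.mem_univ _, Set.mem_univ _⟩, hz.2.2⟩
  have hWle : Submodule.span (ZMod 2) (Set.range (face M)) ≤ Z G Set.univ := by
    rw [Submodule.span_le]
    rintro _ ⟨f, rfl⟩
    exact face_mem M f
  have h4 := Submodule.finrank_sup_add_finrank_inf_eq
    (Submodule.span (ZMod 2) (Set.range (face M))) (Z K Set.univ)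
  have h5 := Submodule.finrank_mono (sup_le hWle hle)
  have h6 := Submodule.finrank_mono (inf_le_span M K)
  have hYpos : 0 < Y.card := Finset.card_pos.2 hY
  by_cases hn : (univ.filter fun j => bsum M K j ≠ 0).Nonempty
  · have h7 := rank_le (bsum M K) (sum_bsum M K) hn
    have h8 := cnt_sum_le K (bsum M K) (fun j u v h => bsum_off M K j u v h) (bsum_cov M K)
    have h9 : ∑ j ∈ univ.filter (fun j => bsum M K j ≠ 0), cnt (bsum M K j) ≤
        ∑ j, cnt (bsum M K j) := Finset.sum_le_sum_of_subset (Finset.subset_univ _)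
    have h10 : ∀ j ∈ univ.filter (fun j => bsum M K j ≠ 0), 6 ≤ cnt (bsum M K j) :=
      fun j hj => six_le_cnt (bsum_mem M K j) (mem_filter.1 hj).2
    have h11 : ∑ _j ∈ univ.filter (fun j => bsum M K j ≠ 0), 6 =
        6 * (univ.filter fun j => bsum M K j ≠ 0).card := by
      rw [Finset.sum_const, smul_eq_mul, mul_comm]
    intro u v huv
    have h12 : ∃ j, bsum M K j u v ≠ 0 := by
      by_contra hcon
      push Not at hcon
      have h13 := cnt_sum_lt K (bsum M K) (fun j u v h => bsum_off M K j u v h) (bsum_cov M K)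
        huv hcon
      have h14 := Finset.sum_le_sum h10
      rw [h11] at h14
      omega
    obtain ⟨j, hj⟩ := h12
    refine tri_of_six (bsum_mem M K j) hj ?_
    by_contra hcon
    push Not at hcon
    have hj0 : j ∈ univ.filter (fun j => bsum M K j ≠ 0) := by
      refine mem_filter.2 ⟨mem_univ _, fun h => hj ?_⟩
      rw [h]
      rfl
    have h15 := Finset.sum_lt_sum h10 ⟨j, hj0, hcon⟩
    rw [h11] at h15
    omega
  · exfalso
    have h7 : Submodule.span (ZMod 2) (Set.range (bsum M K)) = ⊥ := by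
      rw [Submodule.span_eq_bot]
      rintro _ ⟨j, rfl⟩
      by_contra h
      exact hn ⟨j, mem_filter.2 ⟨mem_univ _, h⟩⟩
    rw [h7, finrank_bot] at h6
    omega

end

/-- If `X` induces `3|X|` edges in a graph on a surface of Euler characteristic at least `0`, then
every edge inside `X` lies in a triangle inside `X`. -/
theorem edge_tri_of_eq {U : Type} (H : SimpleGraph U) (χ : ℤ) (hχ : 0 ≤ χ) (h : OnSurface χ H)
    (X : Finset U) (hX : X.Nonempty) (he : ein H X = 3 * X.card) :
    ∀ x ∈ X, ∀ u ∈ X, H.Adj x u → ∃ w ∈ X, H.Adj x w ∧ H.Adj u w := by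
  classical
  obtain ⟨V, F, _, _, _, G, f, hf, hHG, hG, ⟨M⟩, hM⟩ := h
  have hconn := conn_univ hG
  let K : SimpleGraph V :=
    { Adj := fun a b => ∃ x ∈ X, ∃ y ∈ X, H.Adj x y ∧ f x = a ∧ f y = b
      symm := ⟨by
        rintro a b ⟨x, hx, y, hy, hxy, h1, h2⟩
        exact ⟨y, hy, x, hx, hxy.symm, h2, h1⟩⟩
      loopless := ⟨by
        rintro a ⟨x, hx, y, hy, hxy, h1, h2⟩
        exact hxy.ne (hf (h1.trans h2.symm))⟩ }
  have hcard : K.edgeSet.ncard = ein H X := by
    unfold ein
    rw [← Set.ncard_image_of_injective _ (Sym2.map.injective hf)]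
    congr 1
    ext e
    constructor
    · intro he
      induction e using Sym2.ind with
      | _ a b =>
        obtain ⟨x, hx, y, hy, hxy, h1, h2⟩ := (K.mem_edgeSet).1 he
        refine ⟨s(x, y), ⟨(H.mem_edgeSet).2 hxy, ?_⟩, ?_⟩
        · intro v hv
          rcases Sym2.mem_iff.1 hv with rfl | rfl
          · exact hx
          · exact hy
        · rw [Sym2.map_mk, h1, h2]
    · rintro ⟨e', ⟨he1, he2⟩, rfl⟩
      induction e' using Sym2.ind with
      | _ x y =>
        rw [Sym2.map_mk]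
        exact (K.mem_edgeSet).2 ⟨x, he2 x (Sym2.mem_mk_left x y), y,
          he2 y (Sym2.mem_mk_right x y), (H.mem_edgeSet).1 he1, rfl, rfl⟩
  have h1 := sub_eq hconn M χ hχ hM K
    (by
      rintro a b ⟨x, hx, y, hy, hxy, rfl, rfl⟩
      exact hHG x y hxy)
    (X.map ⟨f, hf⟩) (by simpa using hX)
    (by
      rintro a b ⟨x, hx, y, hy, hxy, rfl, rfl⟩
      exact ⟨Finset.mem_map.2 ⟨x, hx, rfl⟩, Finset.mem_map.2 ⟨y, hy, rfl⟩⟩)
    (by
      rw [hcard, he, Finset.card_map]
      push_cast
      ring)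
  intro x hx u hu hxu
  obtain ⟨w, ⟨x', hx', w', hw', h2, h3, h4⟩, ⟨u', hu', w'', hw'', h5, h6, h7⟩⟩ :=
    h1 (f x) (f u) ⟨x, hx, u, hu, hxu, rfl, rfl⟩
  have h8 : w'' = w' := hf (h7.trans h4.symm)
  rw [hf h3] at h2
  rw [hf h6, h8] at h5
  exact ⟨w', hw', h2, h5⟩

/-- If `X` induces `3|X|` edges in a graph on a surface of Euler characteristic at least `0`, then
every vertex of `X` lies in a triangle inside `X`. -/
theorem tri_of_eq {U : Type} (H : SimpleGraph U) (χ : ℤ) (hχ : 0 ≤ χ) (h : OnSurface χ H)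
    (X : Finset U) (hX : X.Nonempty) (he : ein H X = 3 * X.card) :
    ∀ x ∈ X, ∃ u ∈ X, ∃ w ∈ X, H.Adj x u ∧ H.Adj x w ∧ H.Adj u w := by
  classical
  intro x hx
  have h1 : ∃ u ∈ X, H.Adj x u := by
    by_contra hcon
    push Not at hcon
    have h2 := ein_le_three H χ hχ h (X.erase x)
    have h3 : ein H (X.erase x) = ein H X := by
      unfold ein
      congr 1
      ext e
      constructor
      · rintro ⟨h4, h5⟩
        exact ⟨h4, fun v hv => Finset.mem_of_mem_erase (h5 v hv)⟩
      · rintro ⟨h4, h5⟩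
        refine ⟨h4, fun v hv => Finset.mem_erase.2 ⟨?_, h5 v hv⟩⟩
        rintro rfl
        induction e using Sym2.ind with
        | _ a b =>
          have h6 := (H.mem_edgeSet).1 h4
          rcases Sym2.mem_iff.1 hv with h7 | h7
          · exact hcon b (h5 b (Sym2.mem_mk_right a b)) (by rw [h7]; exact h6)
          · exact hcon a (h5 a (Sym2.mem_mk_left a b)) (by rw [h7]; exact h6.symm)
    have h4 := Finset.card_erase_of_mem hx
    have h5 : 0 < X.card := Finset.card_pos.2 hX
    omega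
  obtain ⟨u, hu, hxu⟩ := h1
  obtain ⟨w, hw, h2, h3⟩ := edge_tri_of_eq H χ hχ h X hX he x hx u hu hxu
  exact ⟨u, hu, w, hw, hxu, h2, h3⟩

end Pool.Agent.W986
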