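import Pool.Agent.W986.ClusterMain
import Pool.Agent.W986.Core3
import Pool.Agent.W986.Peel3
import Pool.Agent.W986.TriEq

/-!
# Surfaces of nonnegative Euler characteristic: 4-choosable with monochromatic paths on at most
three vertices
-/

set_option autoImplicit false

open Finset

namespace Pool.Agent.W986.Cluster

open Pool.Agent.W986.BT Pool.Agent.DC76

/-- Every graph on a closed surface of Euler characteristic at least `0` has, from all lists of at
least four colours, a colouring whose monochromatic components are paths with at most three
vertices. -/
theorem surface {U : Type} (H : SimpleGraph U) (χ : ℤ) (hχ : 0 ≤ χ) (h : OnSurface χ H) :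
    TreeChoosable H 4 3 := by
  classical
  have hfin := OnSurface.finite h
  have : Fintype U := Fintype.ofFinite U
  intro C L hL
  obtain ⟨c, hcL, hc⟩ := Peel3.statementA3 H
    (fun V _ _ G _ β L hne hV hX h3 hL htri => Core3.core3 G β L hV hX h3 hL htri)
    (fun X hX he => tri_of_eq H χ hχ h X hX (by
      rw [E2_eq_ein] at he
      omega)) (fun _ => 3) L
    (fun X => by
      have h1 := ein_le_three H χ hχ h X
      rw [E2_eq_ein, Finset.sum_const, nsmul_eq_mul]
      push_cast
      have h2 : (ein H X : ℝ) ≤ 3 * #X := by exact_mod_cast h1
      linarith)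
    (fun _ => le_rfl) (fun v => by
      have h1 : (4 : ℝ) ≤ #(L v) := by exact_mod_cast hL v
      linarith)
  refine ⟨c, hcL, forest_of_sparse (mono H c) 3 fun X hX => ?_⟩
  have := hc X hX
  omega

end Pool.Agent.W986.Cluster
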