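import Pool.Agent.W986.Final2

/-!
# The projective plane has a cocycle which is not a coboundary
-/

set_option autoImplicit false

open Finset

namespace Pool.Agent.W986

open Pool.Agent.DC76

section

variable {V : Type} [Fintype V]

/-- A sum over all ordered pairs as a sum over all unordered pairs. -/
theorem sum_pairs {n : ℕ} (e : V ≃ Fin n) (g : V → V → ZMod 2) (hg : ∀ x, g x x = 0) :
    ∑ x, ∑ y, g x y = ∑ x, ∑ y, if e x < e y then g x y + g y x else 0 := by
  have h1 : ∀ x y, g x y = (if e x < e y then g x y else 0) + (if e y < e x then g x y else 0) := by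
    intro x y
    rcases lt_trichotomy (e x) (e y) with h | h | h
    · rw [if_pos h, if_neg (not_lt.2 h.le), add_zero]
    · rw [e.injective h, hg, if_neg (lt_irrefl _), add_zero]
    · rw [if_neg (not_lt.2 h.le), if_pos h, zero_add]
  have h2 : ∑ x, ∑ y, g x y = ∑ x, ∑ y, (if e x < e y then g x y else 0) +
      ∑ x, ∑ y, (if e y < e x then g x y else 0) := by
    rw [← sum_add_distrib]
    refine sum_congr rfl fun x _ => ?_
    rw [← sum_add_distrib]
    exact sum_congr rfl fun y _ => h1 x y
  rw [h2, sum_comm (f := fun x y => if e y < e x then g x y else 0), ← sum_add_distrib]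
  refine sum_congr rfl fun x _ => ?_
  rw [← sum_add_distrib]
  refine sum_congr rfl fun y _ => ?_
  by_cases h : e x < e y
  · rw [if_pos h, if_pos h, if_pos h]
  · rw [if_neg h, if_neg h, if_neg h, add_zero]

variable [DecidableEq V] {G : SimpleGraph V} {F : Type} [Fintype F]

/-- A graph with facial walks of Euler characteristic `1` has a cocycle which is not a
coboundary. -/
theorem exists_cocycle (M : FacialWalks G F)
    (hχ : (Fintype.card V : ℤ) - G.edgeSet.ncard + Fintype.card F = 1) (hE : ∃ x y, G.Adj x y) :
    ∃ X : V → V → ZMod 2, (∀ x y, X x y = X y x) ∧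
      (∀ f, ∑ t ∈ range (M.len f), X (M.walk f t) (M.walk f (t + 1)) = 0) ∧
      ¬ ∃ h : V → ZMod 2, ∀ x y, G.Adj x y → h x + h y = X x y := by
  classical
  have hF : Nonempty F := by
    obtain ⟨x, y, hxy⟩ := hE
    by_contra hcon
    rw [not_nonempty_iff] at hcon
    have h1 := M.twice x y hxy
    rw [Fintype.sum_empty] at h1
    omega
  have hV : (univ : Finset V).Nonempty := by
    obtain ⟨x, _⟩ := hE
    exact ⟨x, mem_univ _⟩
  have h1 := finrank_Z_ge G univ hV (fun _ _ _ => ⟨mem_univ _, mem_univ _⟩)
  rw [card_univ] at h1
  have hF' : 0 < Fintype.card F := Fintype.card_pos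
  have h2 : Module.finrank (ZMod 2) (Bnd M) + 1 ≤ Fintype.card F := by
    by_cases hne : (univ.filter fun f => face M f ≠ 0).Nonempty
    · refine le_trans (rank_le (face M) (funext fun u => funext fun v => ?_) hne)
        (card_le_univ _)
      rw [Finset.sum_apply, Finset.sum_apply]
      exact sum_face M u v
    · rw [not_nonempty_iff_eq_empty, filter_eq_empty_iff] at hne
      have h3 : Bnd M = ⊥ := by
        rw [Submodule.span_eq_bot]
        rintro _ ⟨f, rfl⟩
        by_contra h
        exact hne (mem_univ f) h
      rw [h3, finrank_bot]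
      omega
  obtain ⟨z, hz, hz'⟩ : ∃ z ∈ Z G Set.univ, z ∉ Bnd M := by
    by_contra hcon
    push Not at hcon
    have h3 : Z G Set.univ ≤ Bnd M := hcon
    have h4 := Submodule.finrank_mono h3
    omega
  obtain ⟨φ, hφz, hφ⟩ := Submodule.exists_dual_map_eq_bot_of_notMem hz' inferInstance
  have hφ0 : ∀ y ∈ Bnd M, φ y = 0 := by
    intro y hy
    have h3 : φ y ∈ (Bnd M).map φ := Submodule.mem_map_of_mem hy
    rw [hφ] at h3
    exact (Submodule.mem_bot _).1 h3
  let X' : V → V → ZMod 2 := fun x y => φ (Pi.single x (Pi.single y 1))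
  have hφX : ∀ y : V → V → ZMod 2, φ y = ∑ x, ∑ u, y x u * X' x u := by
    intro y
    have h3 : y = ∑ x, ∑ u, y x u • (Pi.single x (Pi.single u 1) : V → V → ZMod 2) := by
      funext a b
      rw [Finset.sum_apply, Finset.sum_apply, Finset.sum_eq_single a]
      · rw [Finset.sum_apply, Finset.sum_apply, Finset.sum_eq_single b]
        · simp
        · intro u _ hu
          simp [hu.symm]
        · intro h
          exact absurd (mem_univ _) h
      · intro x _ hx
        rw [Finset.sum_apply, Finset.sum_apply]
        refine Finset.sum_eq_zero fun u _ => ?_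
        rw [Pi.smul_apply, Pi.smul_apply, Pi.single_eq_of_ne hx.symm, Pi.zero_apply, smul_zero]
      · intro h
        exact absurd (mem_univ _) h
    conv_lhs => rw [h3]
    rw [map_sum]
    refine sum_congr rfl fun x _ => ?_
    rw [map_sum]
    refine sum_congr rfl fun u _ => ?_
    rw [map_smul, smul_eq_mul]
  refine ⟨fun x y => X' x y + X' y x, fun x y => add_comm _ _, fun f => ?_, ?_⟩
  · have h3 := hφ0 (face M f) (Submodule.subset_span ⟨f, rfl⟩)
    rw [hφX] at h3
    rw [← h3]
    have h4 : ∀ x u, face M f x u * X' x u = ∑ t ∈ range (M.len f),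
        ((if M.walk f t = x then if M.walk f (t + 1) = u then X' x u else 0 else 0) +
          (if M.walk f (t + 1) = x then if M.walk f t = u then X' x u else 0 else 0)) := by
      intro x u
      change ((trav (M.len f) (M.walk f) x u : ℕ) : ZMod 2) * X' x u = _
      unfold trav
      rw [card_filter, Nat.cast_sum, sum_mul]
      refine sum_congr rfl fun t ht => ?_
      have hne : M.walk f t ≠ M.walk f (t + 1) := (M.adj f t (mem_range.1 ht)).ne
      by_cases ha : M.walk f t = x ∧ M.walk f (t + 1) = u
      · rw [if_pos (Or.inl ha), if_pos ha.1, if_pos ha.2, if_neg, add_zero, Nat.cast_one, one_mul]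
        intro h
        exact hne (ha.1.trans h.symm)
      · by_cases hb : M.walk f t = u ∧ M.walk f (t + 1) = x
        · rw [if_pos (Or.inr hb), if_pos hb.2, if_pos hb.1, if_neg, zero_add, Nat.cast_one, one_mul]
          intro h
          exact hne (h.trans hb.2.symm)
        · rw [if_neg (by tauto), Nat.cast_zero, zero_mul]
          have h5 : (if M.walk f t = x then if M.walk f (t + 1) = u then X' x u else 0 else 0) = 0 := by
            by_cases h6 : M.walk f t = x
            · rw [if_pos h6, if_neg fun h7 => ha ⟨h6, h7⟩]
            · rw [if_neg h6]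
          have h6 : (if M.walk f (t + 1) = x then if M.walk f t = u then X' x u else 0 else 0) = 0 := by
            by_cases h7 : M.walk f (t + 1) = x
            · rw [if_pos h7, if_neg fun h8 => hb ⟨h8, h7⟩]
            · rw [if_neg h7]
          rw [h5, h6, add_zero]
    have h5 : ∑ x, ∑ u, face M f x u * X' x u = ∑ x, ∑ u, ∑ t ∈ range (M.len f),
        ((if M.walk f t = x then if M.walk f (t + 1) = u then X' x u else 0 else 0) +
          (if M.walk f (t + 1) = x then if M.walk f t = u then X' x u else 0 else 0)) :=
      sum_congr rfl fun x _ => sum_congr rfl fun u _ => h4 x u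
    rw [h5]
    have h6 : ∑ x, ∑ u, ∑ t ∈ range (M.len f),
        ((if M.walk f t = x then if M.walk f (t + 1) = u then X' x u else 0 else 0) +
          (if M.walk f (t + 1) = x then if M.walk f t = u then X' x u else 0 else 0)) =
        ∑ t ∈ range (M.len f), ∑ x, ∑ u,
        ((if M.walk f t = x then if M.walk f (t + 1) = u then X' x u else 0 else 0) +
          (if M.walk f (t + 1) = x then if M.walk f t = u then X' x u else 0 else 0)) := by
      symm
      rw [sum_comm]
      exact sum_congr rfl fun x _ => sum_comm
    rw [h6]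
    refine sum_congr rfl fun t _ => ?_
    simp only [sum_add_distrib, sum_ite_irrel, sum_ite_eq, sum_const_zero, mem_univ, if_true]
  · rintro ⟨h, hh⟩
    apply hφz
    rw [hφX]
    let e := Fintype.equivFin V
    have hz0 : ∀ x, z x x = 0 := by
      intro x
      by_contra h0
      exact G.loopless.irrefl x (hz.2.1 x x h0).1
    rw [sum_pairs e (fun x y => z x y * X' x y) (fun x => by rw [hz0, zero_mul])]
    have h3 : ∀ x y, z x y * X' x y + z y x * X' y x = z x y * h x + z y x * h y := by
      intro x y
      rw [hz.1 y x, ← mul_add, ← mul_add]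
      by_cases h0 : z x y = 0
      · rw [h0, zero_mul, zero_mul]
      · rw [hh x y (hz.2.1 x y h0).1]
    simp only [h3]
    rw [← sum_pairs e (fun x y => z x y * h x) (fun x => by rw [hz0, zero_mul])]
    refine sum_eq_zero fun x _ => ?_
    rw [← sum_mul, hz.2.2 x, zero_mul]

end

end Pool.Agent.W986
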