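import Pool.Agent.W986.Extend

/-!
# Two colours are never enough
-/

set_option autoImplicit false

open Finset

namespace Pool.Agent.W986

open Pool.Agent.DC76

/-- A vertex `none` joined to all the vertices of `m` stars with the centres `some (i, none)` and
the leaves `some (i, some j)`, `j < n`. -/
def coneStars (m n : ℕ) : SimpleGraph (Option (Fin m × Option (Fin n))) where
  Adj a b := match a, b with
    | none, none => False
    | none, some _ => True
    | some _, none => True
    | some (_, none), some (_, none) => False
    | some (i, none), some (j, some _) => i = j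
    | some (i, some _), some (j, none) => i = j
    | some (_, some _), some (_, some _) => False
  symm := ⟨by
    rintro (_ | ⟨i, _ | j⟩) (_ | ⟨i', _ | j'⟩) h
    · exact h
    · trivial
    · trivial
    · trivial
    · exact h
    · exact Eq.symm h
    · trivial
    · exact Eq.symm h
    · exact h⟩
  loopless := ⟨by
    rintro (_ | ⟨i, _ | j⟩) h
    · exact h
    · exact h
    · exact h⟩

theorem coneStars_embedsOn {o : Prop} {χ : ℤ} {V : Type} {G : SimpleGraph V}
    (hG : IsBase o χ G) (m n : ℕ) : EmbedsOn o χ (coneStars m n) Set.univ := by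
  classical
  -- the vertex joined to all
  have h0 : EmbedsOn o χ (coneStars m n) {none} := by
    have h1 := (hG.embedsOn (coneStars m n)).insert (x := none) (by simp)
      (Or.inl (by simp))
    simpa using h1
  -- the centres
  have h1 : ∀ T : Finset (Fin m), EmbedsOn o χ (coneStars m n)
      {x | x = none ∨ ∃ i ∈ T, x = some (i, none)} := by
    intro T
    induction T using Finset.induction_on with
    | empty => simpa using h0
    | insert a T ha ih =>
      have h2 := ih.insert (x := some (a, none)) (by
        rintro (h | ⟨i, hi, h⟩)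
        · cases h
        · simp only [Option.some.injEq, Prod.mk.injEq, and_true] at h
          exact ha (h ▸ hi)) (Or.inr (Or.inl ⟨none, Or.inl rfl, by
            rintro y (h | ⟨i, hi, h⟩) hy
            · exact h
            · rw [h] at hy
              exact absurd hy id⟩))
      convert h2 using 1
      ext x
      simp only [Set.mem_setOf_eq, Set.mem_insert_iff, Finset.mem_insert]
      constructor
      · rintro (h | ⟨i, rfl | hi, h⟩)
        · exact Or.inr (Or.inl h)
        · exact Or.inl h
        · exact Or.inr (Or.inr ⟨i, hi, h⟩)
      · rintro (h | h | ⟨i, hi, h⟩)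
        · exact Or.inr ⟨a, Or.inl rfl, h⟩
        · exact Or.inl h
        · exact Or.inr ⟨i, Or.inr hi, h⟩
  -- the leaves
  have h2 : ∀ T : Finset (Fin m × Fin n), EmbedsOn o χ (coneStars m n)
      {x | x = none ∨ (∃ i, x = some (i, none)) ∨ ∃ p ∈ T, x = some (p.1, some p.2)} := by
    intro T
    induction T using Finset.induction_on with
    | empty =>
      convert h1 univ using 1
      ext x
      simp
    | insert a T ha ih =>
      have h3 := ih.insert (x := some (a.1, some a.2)) (by
        rintro (h | ⟨i, h⟩ | ⟨i, hi, h⟩)
        · cases h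
        · simp at h
        · simp only [Option.some.injEq, Prod.mk.injEq] at h
          exact ha (Prod.ext h.1 h.2 ▸ hi)) (Or.inr (Or.inr ⟨none, Or.inl rfl,
            some (a.1, none), Or.inr (Or.inl ⟨_, rfl⟩), trivial, by
            rintro y (h | ⟨i, h⟩ | ⟨i, hi, h⟩) hy
            · exact Or.inl h
            · rw [h] at hy
              right
              rw [h, (hy : a.1 = i)]
            · rw [h] at hy
              exact absurd hy id⟩))
      convert h3 using 1
      ext x
      simp only [Set.mem_setOf_eq, Set.mem_insert_iff, Finset.mem_insert]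
      constructor
      · rintro (h | h | ⟨i, rfl | hi, h⟩)
        · exact Or.inr (Or.inl h)
        · exact Or.inr (Or.inr (Or.inl h))
        · exact Or.inl h
        · exact Or.inr (Or.inr (Or.inr ⟨i, hi, h⟩))
      · rintro (h | h | h | ⟨i, hi, h⟩)
        · exact Or.inr (Or.inr ⟨a, Or.inl rfl, h⟩)
        · exact Or.inl h
        · exact Or.inr (Or.inl h)
        · exact Or.inr (Or.inr ⟨i, Or.inr hi, h⟩)
  convert h2 univ using 1
  ext x
  rcases x with _ | ⟨i, _ | j⟩ <;> simp

/-- The cone over `d + 1` stars with `d + 1` leaves has no `(2, d)`-colouring. -/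
theorem coneStars_not (d : ℕ) (c : Option (Fin (d + 1) × Option (Fin (d + 1))) → Fin 2) :
    ¬ Defective (coneStars (d + 1) (d + 1)) d c := by
  intro hc
  have h1 : ∃ i, ∀ x, c (some (i, x)) ≠ c none := by
    by_contra hcon
    push Not at hcon
    choose g hg using hcon
    have h2 := hc none
    have h3 : (Set.range fun i => (some (i, g i) : Option (Fin (d + 1) × Option (Fin (d + 1))))) ⊆
        {u | (coneStars (d + 1) (d + 1)).Adj none u ∧ c u = c none} := by
      rintro _ ⟨i, rfl⟩
      exact ⟨trivial, hg i⟩
    have h4 := Set.ncard_le_ncard h3 (Set.toFinite _)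
    have h5 : (Set.range fun i =>
        (some (i, g i) : Option (Fin (d + 1) × Option (Fin (d + 1))))).ncard = d + 1 := by
      rw [← Set.image_univ, Set.ncard_image_of_injective, Set.ncard_univ, Nat.card_eq_fintype_card,
        Fintype.card_fin]
      intro i j hij
      simp only [Option.some.injEq, Prod.mk.injEq] at hij
      exact hij.1
    omega
  obtain ⟨i, hi⟩ := h1
  have h2 : ∀ x, c (some (i, x)) = c (some (i, none)) := by
    intro x
    have h3 := hi x
    have h4 := hi none
    omega
  have h3 := hc (some (i, none))
  have h4 : (Set.range fun j => (some (i, some j) : Option (Fin (d + 1) × Option (Fin (d + 1))))) ⊆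
      {u | (coneStars (d + 1) (d + 1)).Adj (some (i, none)) u ∧ c u = c (some (i, none))} := by
    rintro _ ⟨j, rfl⟩
    exact ⟨(rfl : i = i), h2 _⟩
  have h5 := Set.ncard_le_ncard h4 (Set.toFinite _)
  have h6 : (Set.range fun j =>
      (some (i, some j) : Option (Fin (d + 1) × Option (Fin (d + 1))))).ncard = d + 1 := by
    rw [← Set.image_univ, Set.ncard_image_of_injective, Set.ncard_univ, Nat.card_eq_fintype_card,
      Fintype.card_fin]
    intro i j hij
    simpa using hij
  omega

/-- If a surface has a base graph, then for every `d` there is a graph on it with no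
`(2, d)`-colouring. -/
theorem IsBase.no_two {o : Prop} {χ : ℤ} {V : Type} {G : SimpleGraph V} (hG : IsBase o χ G)
    (d : ℕ) : ∃ (U : Type) (H : SimpleGraph U), Embeds o χ H ∧
      ∀ c : U → Fin 2, ¬ Defective H d c :=
  ⟨_, coneStars (d + 1) (d + 1), (coneStars_embedsOn hG _ _).embeds, coneStars_not d⟩

/-- The complete graph on `n > k (d + 1)` vertices has no `(k, d)`-colouring. -/
theorem complete_not {n k d : ℕ} (h : k * (d + 1) < n) (c : Fin n → Fin k) :
    ¬ Defective (⊤ : SimpleGraph (Fin n)) d c := by
  classical
  intro hc
  obtain ⟨y, _, hy⟩ := Finset.exists_lt_card_fiber_of_mul_lt_card_of_maps_to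
    (s := (univ : Finset (Fin n))) (t := (univ : Finset (Fin k))) (f := c) (n := d + 1)
    (fun _ _ => mem_univ _) (by simpa using h)
  obtain ⟨v, hv⟩ := Finset.card_pos.1 (by omega : 0 < (univ.filter fun x => c x = y).card)
  have h1 := hc v
  have h2 : ((((univ.filter fun x => c x = y).erase v : Finset (Fin n)) : Set (Fin n))) ⊆
      {u | (⊤ : SimpleGraph (Fin n)).Adj v u ∧ c u = c v} := by
    intro u hu
    simp only [coe_erase, coe_filter, mem_univ, true_and, Set.mem_diff, Set.mem_setOf_eq,
      Set.mem_singleton_iff] at hu
    have hv2 : c v = y := by simpa using hv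
    exact ⟨by simpa [SimpleGraph.top_adj] using fun e => hu.2 e.symm, by rw [hu.1, hv2]⟩
  have h3 := Set.ncard_le_ncard h2 (Set.toFinite _)
  rw [Set.ncard_coe_finset, card_erase_of_mem hv] at h3
  omega

end Pool.Agent.W986
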