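import Pool.Agent.W986.BT

/-!
# The strongly connected case of the list theorem

`G` with `e(X) < β(X)` for proper nonempty `X`, `e(V) = β(V)` and lists with `3 β v ≤ 2 |L v|`,
equality only for the full list `C0`: there is a list colouring in which every vertex has at most
one neighbour of its own colour.
-/

set_option autoImplicit false
set_option linter.unusedSectionVars false

namespace Pool.Agent.W986.Core

open Finset Pool.Agent.W986.BT

variable {V C : Type*} [Fintype V] [DecidableEq V] [DecidableEq C] (G : SimpleGraph V)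
  [DecidableRel G.Adj] (p : V → ℝ)

/-- The neighbours of `v` of colour `a`. -/
def nb (c : V → C) (v : V) (a : C) : Finset V := {u ∈ G.neighborFinset v | c u = a}

lemma mem_nb (c : V → C) (v : V) (a : C) (u : V) : u ∈ nb G c v a ↔ G.Adj v u ∧ c u = a := by
  simp [nb]

/-- The flow from `v` to colour `a`. -/
noncomputable def fl (c : V → C) (v : V) (a : C) : ℝ := ∑ u ∈ nb G c v a, p u / (p u + p v)

/-- The weight of a pair. -/
noncomputable def wt (u v : V) : ℝ := p u * p v / (p u + p v)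

lemma wt_comm (u v : V) : wt p u v = wt p v u := by
  unfold wt; rw [mul_comm, add_comm]

/-- The monochromatic part. -/
noncomputable def hh (c : V → C) (x y : V) : ℝ :=
  if G.Adj x y ∧ c y = c x then wt p x y else 0

/-- Twice the weight of the monochromatic edges. -/
noncomputable def Phi (c : V → C) : ℝ := ∑ x, ∑ y, hh G p c x y

lemma hh_comm (c : V → C) (x y : V) : hh G p c x y = hh G p c y x := by
  unfold hh
  rw [wt_comm]
  have h : (G.Adj x y ∧ c y = c x) ↔ (G.Adj y x ∧ c x = c y) := by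
    rw [G.adj_comm, @eq_comm _ (c y)]
  by_cases h1 : G.Adj x y ∧ c y = c x
  · rw [if_pos h1, if_pos (h.mp h1)]
  · rw [if_neg h1, if_neg (fun h2 => h1 (h.mpr h2))]

lemma hh_self (c : V → C) (x : V) : hh G p c x x = 0 := by
  simp [hh]

lemma sym_split (h : V → V → ℝ) (hs : ∀ x y, h x y = h y x) (h0 : ∀ x, h x x = 0) (v : V) :
    ∑ x, ∑ y, h x y = 2 * ∑ y, h v y + ∑ x ∈ univ.erase v, ∑ y ∈ univ.erase v, h x y := by
  rw [← Finset.add_sum_erase univ (fun x => ∑ y, h x y) (mem_univ v)]
  have h1 : ∀ x, ∑ y, h x y = h x v + ∑ y ∈ univ.erase v, h x y := fun x =>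
    (Finset.add_sum_erase univ (fun y => h x y) (mem_univ v)).symm
  rw [Finset.sum_congr rfl (fun x (_ : x ∈ univ.erase v) => h1 x), Finset.sum_add_distrib]
  have h2 : ∑ x ∈ univ.erase v, h x v = ∑ y, h v y := by
    rw [← Finset.add_sum_erase univ (fun y => h v y) (mem_univ v), h0 v, zero_add]
    exact Finset.sum_congr rfl fun x _ => hs x v
  rw [h2]; ring

lemma row_eq (c : V → C) (v : V) : ∑ y, hh G p c v y = p v * fl G p c v (c v) := by
  unfold hh fl nb wt
  rw [Finset.mul_sum, ← Finset.sum_filter]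
  have hset : ({y | G.Adj v y ∧ c y = c v} : Finset V) =
      {u ∈ G.neighborFinset v | c u = c v} := by
    ext y; simp
  rw [hset]
  refine Finset.sum_congr rfl fun y _ => ?_
  rw [add_comm]; ring

lemma nb_update_self (c : V → C) (v : V) (a b : C) :
    nb G (Function.update c v a) v b = nb G c v b := by
  ext u
  rw [mem_nb, mem_nb]
  constructor
  · rintro ⟨h1, h2⟩
    refine ⟨h1, ?_⟩
    rwa [Function.update_of_ne h1.ne'] at h2
  · rintro ⟨h1, h2⟩
    refine ⟨h1, ?_⟩
    rwa [Function.update_of_ne h1.ne']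

lemma phi_update (c : V → C) (v : V) (a : C) :
    Phi G p (Function.update c v a) =
      Phi G p c + 2 * (p v * fl G p c v a - p v * fl G p c v (c v)) := by
  unfold Phi
  rw [sym_split (hh G p c) (hh_comm G p c) (hh_self G p c) v,
    sym_split (hh G p (Function.update c v a)) (hh_comm G p _) (hh_self G p _) v,
    row_eq, row_eq]
  have h1 : fl G p (Function.update c v a) v (Function.update c v a v) = fl G p c v a := by
    unfold fl
    rw [nb_update_self, Function.update_self]
  have h2 : ∑ x ∈ univ.erase v, ∑ y ∈ univ.erase v, hh G p (Function.update c v a) x y =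
      ∑ x ∈ univ.erase v, ∑ y ∈ univ.erase v, hh G p c x y := by
    refine Finset.sum_congr rfl fun x hx => Finset.sum_congr rfl fun y hy => ?_
    unfold hh
    rw [Function.update_of_ne (Finset.ne_of_mem_erase hx),
      Function.update_of_ne (Finset.ne_of_mem_erase hy)]
  rw [h1, h2]; ring

lemma sum_fl (c : V → C) (v : V) (A : Finset C) :
    ∑ a ∈ A, fl G p c v a = ∑ u ∈ G.neighborFinset v, if c u ∈ A then p u / (p u + p v) else 0 := by
  unfold fl nb
  simp only [Finset.sum_filter]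
  rw [Finset.sum_comm]
  refine Finset.sum_congr rfl fun u _ => ?_
  rw [Finset.sum_ite_eq]

section main

variable (β : V → ℝ) (L : V → Finset C)

lemma f_pos (hp : ∀ v, 0 < p v) (u v : V) : 0 < p u / (p u + p v) :=
  div_pos (hp u) (add_pos (hp u) (hp v))

lemma f_add (hp : ∀ v, 0 < p v) (u v : V) : p u / (p u + p v) + p v / (p v + p u) = 1 := by
  have h1 := hp u
  have h2 := hp v
  rw [add_comm (p v) (p u), ← add_div]
  exact div_self (by positivity)

/-- `c` is a list colouring minimising `Phi`. -/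
def IsMin (c : V → C) : Prop :=
  (∀ v, c v ∈ L v) ∧ ∀ c' : V → C, (∀ v, c' v ∈ L v) → Phi G p c ≤ Phi G p c'

lemma own_le (hp : ∀ v, 0 < p v) (c : V → C) (hc : IsMin G p L c) (v : V) (a : C) (ha : a ∈ L v) :
    fl G p c v (c v) ≤ fl G p c v a := by
  have h1 := hc.2 (Function.update c v a) (fun x => by
    by_cases hx : x = v
    · subst hx; rw [Function.update_self]; exact ha
    · rw [Function.update_of_ne hx]; exact hc.1 x)
  rw [phi_update] at h1
  have h2 : p v * fl G p c v (c v) ≤ p v * fl G p c v a := by linarith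
  exact le_of_mul_le_mul_left h2 (hp v)

lemma sum_le (hp : ∀ v, 0 < p v)
    (hβ : ∀ v, ∑ u ∈ G.neighborFinset v, p u / (p u + p v) = β v) (c : V → C) (v : V)
    (A : Finset C) : ∑ a ∈ A, fl G p c v a ≤ β v := by
  rw [sum_fl, ← hβ v]
  refine Finset.sum_le_sum fun u _ => ?_
  split_ifs
  · exact le_rfl
  · exact (f_pos p hp u v).le

lemma own_le_two_thirds (hp : ∀ v, 0 < p v)
    (hβ : ∀ v, ∑ u ∈ G.neighborFinset v, p u / (p u + p v) = β v)
    (h23 : ∀ v, 3 * β v ≤ 2 * #(L v)) (c : V → C) (hc : IsMin G p L c) (v : V) :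
    3 * fl G p c v (c v) ≤ 2 := by
  have h1 : ∑ a ∈ L v, fl G p c v (c v) ≤ ∑ a ∈ L v, fl G p c v a :=
    Finset.sum_le_sum fun a ha => own_le G p L hp c hc v a ha
  have h2 := sum_le G p β hp hβ c v (L v)
  rw [Finset.sum_const, nsmul_eq_mul] at h1
  have h3 := h23 v
  have h4 : (0 : ℝ) < #(L v) := by
    exact_mod_cast Finset.card_pos.mpr ⟨c v, hc.1 v⟩
  by_contra h5
  push Not at h5
  nlinarith

/-- What equality means. -/
lemma own_eq (hp : ∀ v, 0 < p v)
    (hβ : ∀ v, ∑ u ∈ G.neighborFinset v, p u / (p u + p v) = β v)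
    (h23 : ∀ v, 3 * β v ≤ 2 * #(L v)) (c : V → C) (hc : IsMin G p L c) (v : V)
    (h : 3 * fl G p c v (c v) = 2) :
    3 * β v = 2 * #(L v) ∧ (∀ a ∈ L v, fl G p c v a = fl G p c v (c v)) ∧
      ∀ u, G.Adj v u → c u ∈ L v := by
  have h1 : ∀ a ∈ L v, fl G p c v (c v) ≤ fl G p c v a := fun a ha =>
    own_le G p L hp c hc v a ha
  have h1' : ∑ a ∈ L v, fl G p c v (c v) ≤ ∑ a ∈ L v, fl G p c v a := Finset.sum_le_sum h1
  have h2 := sum_le G p β hp hβ c v (L v)
  have h3 := h23 v
  have hc' : ∑ a ∈ L v, fl G p c v (c v) = #(L v) * fl G p c v (c v) := by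
    rw [Finset.sum_const, nsmul_eq_mul]
  have h5 : #(L v) * fl G p c v (c v) = (2 / 3) * #(L v) := by
    have : fl G p c v (c v) = 2 / 3 := by linarith
    rw [this]; ring
  have hb : 3 * β v = 2 * #(L v) := by linarith
  refine ⟨hb, ?_, ?_⟩
  · have h6 : ∑ a ∈ L v, fl G p c v (c v) = ∑ a ∈ L v, fl G p c v a := by linarith
    intro a ha
    exact ((Finset.sum_eq_sum_iff_of_le h1).mp h6 a ha).symm
  · intro u hu
    by_contra hcu
    have h7 : ∑ a ∈ L v, fl G p c v a < β v := by
      rw [sum_fl, ← hβ v]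
      refine Finset.sum_lt_sum (fun x _ => ?_) ⟨u, by simpa using hu, ?_⟩
      · split_ifs
        · exact le_rfl
        · exact (f_pos p hp x v).le
      · rw [if_neg hcu]; exact f_pos p hp u v
    linarith

lemma fl_sub (hp : ∀ v, 0 < p v) (c : V → C) (v : V) (a : C) (S : Finset V)
    (hS : S ⊆ nb G c v a) : ∑ u ∈ S, p u / (p u + p v) ≤ fl G p c v a ∧
      (fl G p c v a ≤ ∑ u ∈ S, p u / (p u + p v) → nb G c v a = S) := by
  constructor
  · exact Finset.sum_le_sum_of_subset_of_nonneg hS fun u _ _ => (f_pos p hp u v).le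
  · intro h
    by_contra hne
    obtain ⟨y, hy, hyS⟩ : ∃ y ∈ nb G c v a, y ∉ S := by
      by_contra h1
      push Not at h1
      exact hne (Finset.Subset.antisymm h1 hS)
    have := Finset.sum_lt_sum_of_subset hS hy hyS (f_pos p hp y v)
      (fun u _ _ => (f_pos p hp u v).le)
    unfold fl at h
    linarith

/-- The structure of a bad path. -/
lemma path (hp : ∀ v, 0 < p v)
    (hβ : ∀ v, ∑ u ∈ G.neighborFinset v, p u / (p u + p v) = β v)
    (h23 : ∀ v, 3 * β v ≤ 2 * #(L v)) (c : V → C) (hc : IsMin G p L c) (v u u' : V)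
    (hu : u ∈ nb G c v (c v)) (hu' : u' ∈ nb G c v (c v)) (hne : u ≠ u') :
    nb G c v (c v) = {u, u'} ∧ nb G c u (c u) = {v} ∧ p v = 2 * p u ∧
      3 * fl G p c v (c v) = 2 ∧ 3 * fl G p c u (c u) = 2 := by
  have hvu : ∀ x, x ∈ nb G c v (c v) → {v} ⊆ nb G c x (c x) := by
    intro x hx
    rw [mem_nb] at hx
    rw [Finset.singleton_subset_iff, mem_nb]
    exact ⟨hx.1.symm, hx.2.symm⟩
  have h1 := fl_sub G p hp c v (c v) {u, u'} (by
    intro x hx
    rw [Finset.mem_insert, Finset.mem_singleton] at hx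
    rcases hx with rfl | rfl
    · exact hu
    · exact hu')
  have h2 := fl_sub G p hp c u (c u) {v} (hvu u hu)
  have h3 := fl_sub G p hp c u' (c u') {v} (hvu u' hu')
  rw [Finset.sum_pair hne] at h1
  rw [Finset.sum_singleton] at h2 h3
  have t1 := own_le_two_thirds G p β L hp hβ h23 c hc v
  have t2 := own_le_two_thirds G p β L hp hβ h23 c hc u
  have t3 := own_le_two_thirds G p β L hp hβ h23 c hc u'
  have a1 := f_add p hp u v
  have a2 := f_add p hp u' v
  refine ⟨h1.2 (by linarith), h2.2 (by linarith), ?_, by linarith, by linarith⟩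
  have h4 : p v / (p v + p u) = 2 / 3 := by linarith
  have h5 := hp v
  have h6 := hp u
  rw [div_eq_div_iff (by positivity) (by norm_num)] at h4
  linarith

/-- `x` lies in a bad path of `c`. -/
def Bad (c : V → C) (x : V) : Prop :=
  ∃ v u u', u ≠ u' ∧ u ∈ nb G c v (c v) ∧ u' ∈ nb G c v (c v) ∧ (x = v ∨ x = u)

lemma bad_props (hp : ∀ v, 0 < p v)
    (hβ : ∀ v, ∑ u ∈ G.neighborFinset v, p u / (p u + p v) = β v)
    (h23 : ∀ v, 3 * β v ≤ 2 * #(L v)) (c : V → C) (hc : IsMin G p L c) (x : V)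
    (hx : Bad G c x) : 3 * fl G p c x (c x) = 2 ∧
      ∀ y ∈ nb G c x (c x), Bad G c y ∧ (p x = 2 * p y ∨ p y = 2 * p x) := by
  obtain ⟨v, u, u', hne, hu, hu', hxv⟩ := hx
  have h := path G p β L hp hβ h23 c hc v u u' hu hu' hne
  have h' := path G p β L hp hβ h23 c hc v u' u hu' hu hne.symm
  rcases hxv with rfl | rfl
  · refine ⟨h.2.2.2.1, fun y hy => ?_⟩
    rw [h.1, Finset.mem_insert, Finset.mem_singleton] at hy
    rcases hy with rfl | rfl
    · exact ⟨⟨x, y, u', hne, hu, hu', Or.inr rfl⟩, Or.inl h.2.2.1⟩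
    · exact ⟨⟨x, y, u, hne.symm, hu', hu, Or.inr rfl⟩, Or.inl h'.2.2.1⟩
  · refine ⟨h.2.2.2.2, fun y hy => ?_⟩
    rw [h.2.1, Finset.mem_singleton] at hy
    subst hy
    exact ⟨⟨y, x, u', hne, hu, hu', Or.inl rfl⟩, Or.inr h.2.2.1⟩

/-- The vertices with at least two neighbours of their own colour. -/
def cen (c : V → C) : Finset V := {v | 1 < #(nb G c v (c v))}

lemma mem_cen (c : V → C) (v : V) : v ∈ cen G c ↔
    ∃ u u', u ≠ u' ∧ u ∈ nb G c v (c v) ∧ u' ∈ nb G c v (c v) := by
  unfold cen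
  rw [Finset.mem_filter, Finset.one_lt_card]
  constructor
  · rintro ⟨-, a, ha, b, hb, hab⟩
    exact ⟨a, b, hab, ha, hb⟩
  · rintro ⟨a, b, hab, ha, hb⟩
    exact ⟨mem_univ v, a, ha, b, hb, hab⟩

/-- `c` minimises `Phi` and then the number of centres. -/
def IsMin2 (c : V → C) : Prop :=
  IsMin G p L c ∧ ∀ c' : V → C, IsMin G p L c' → #(cen G c) ≤ #(cen G c')

lemma spread (hp : ∀ v, 0 < p v)
    (hβ : ∀ v, ∑ u ∈ G.neighborFinset v, p u / (p u + p v) = β v)
    (h23 : ∀ v, 3 * β v ≤ 2 * #(L v)) (c : V → C) (hc : IsMin2 G p L c) (x : V)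
    (hx : Bad G c x) (a : C) (ha : a ∈ L x) :
    IsMin2 G p L (Function.update c x a) ∧ Bad G (Function.update c x a) x := by
  by_cases hax : a = c x
  · subst hax
    rw [Function.update_eq_self]
    exact ⟨hc, hx⟩
  set c' := Function.update c x a with hc'
  have hc'x : c' x = a := by rw [hc', Function.update_self]
  have hc'y : ∀ y, y ≠ x → c' y = c y := fun y hy => by rw [hc', Function.update_of_ne hy]
  have hbp := bad_props G p β L hp hβ h23 c hc.1 x hx
  have hoe := own_eq G p β L hp hβ h23 c hc.1 x hbp.1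
  have hmin : IsMin G p L c' := by
    refine ⟨fun y => ?_, fun d hd => ?_⟩
    · by_cases hy : y = x
      · subst hy; rw [hc'x]; exact ha
      · rw [hc'y y hy]; exact hc.1.1 y
    · rw [hc', phi_update, hoe.2.1 a ha]
      have := hc.1.2 d hd
      linarith
  obtain ⟨v0, u0, u0', hne0, hu0, hu0', hxv0⟩ := hx
  have hpath0 := path G p β L hp hβ h23 c hc.1 v0 u0 u0' hu0 hu0' hne0
  have hv0 : v0 ∈ cen G c := (mem_cen G c v0).mpr ⟨u0, u0', hne0, hu0, hu0'⟩
  -- centres of `c'` away from `x`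
  have key : ∀ z, z ≠ x → x ∉ nb G c' z (c' z) → z ∈ cen G c' → z ∈ (cen G c).erase v0 := by
    intro z hzx hxz hz
    obtain ⟨w, w', hww, hw, hw'⟩ := (mem_cen G c' z).mp hz
    have hsub : ∀ y ∈ nb G c' z (c' z), y ∈ nb G c z (c z) ∧ y ≠ x := by
      intro y hy
      have hyx : y ≠ x := by rintro rfl; exact hxz hy
      rw [mem_nb, hc'y y hyx, hc'y z hzx] at hy
      exact ⟨(mem_nb G c z (c z) y).mpr hy, hyx⟩
    rw [Finset.mem_erase]
    refine ⟨?_, (mem_cen G c z).mpr ⟨w, w', hww, (hsub w hw).1, (hsub w' hw').1⟩⟩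
    rintro rfl
    rcases hxv0 with rfl | rfl
    · exact hzx rfl
    · have h1 := (hsub w hw)
      have h2 := (hsub w' hw')
      rw [hpath0.1, Finset.mem_insert, Finset.mem_singleton] at h1 h2
      have h3 : w = u0' := by
        rcases h1.1 with h | h
        · exact absurd h h1.2
        · exact h
      have h4 : w' = u0' := by
        rcases h2.1 with h | h
        · exact absurd h h2.2
        · exact h
      exact hww (h3.trans h4.symm)
  have hbad : Bad G c' x := by
    by_contra hnb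
    have hsub : cen G c' ⊆ (cen G c).erase v0 := by
      intro z hz
      have hz' := hz
      obtain ⟨w, w', hww, hw, hw'⟩ := (mem_cen G c' z).mp hz
      refine key z ?_ ?_ hz'
      · rintro rfl
        exact hnb ⟨z, w, w', hww, hw, hw', Or.inl rfl⟩
      · intro hxz
        by_cases hwx : w = x
        · subst hwx
          exact hnb ⟨z, w, w', hww, hw, hw', Or.inr rfl⟩
        · exact hnb ⟨z, x, w, fun h => hwx h.symm, hxz, hw, Or.inr rfl⟩
    have h1 := Finset.card_le_card hsub
    rw [Finset.card_erase_of_mem hv0] at h1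
    have h2 := hc.2 c' hmin
    have h3 := Finset.card_pos.mpr ⟨v0, hv0⟩
    omega
  refine ⟨⟨hmin, fun d hd => ?_⟩, hbad⟩
  have h4 := hc.2 d hd
  refine le_trans ?_ h4
  obtain ⟨z0, w0, w0', hnew, hw0, hw0', hxz0⟩ := hbad
  have hpw := path G p β L hp hβ h23 c' hmin z0 w0 w0' hw0 hw0' hnew
  have hpw' := path G p β L hp hβ h23 c' hmin z0 w0' w0 hw0' hw0 hnew.symm
  have hsub : cen G c' ⊆ insert z0 ((cen G c).erase v0) := by
    intro z hz
    rw [Finset.mem_insert]
    by_cases hzz : z = z0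
    · exact Or.inl hzz
    right
    obtain ⟨w, w', hww, hw, hw'⟩ := (mem_cen G c' z).mp hz
    refine key z ?_ ?_ hz
    · rintro rfl
      rcases hxz0 with h | h
      · exact hzz h
      · rw [h, hpw.2.1, Finset.mem_singleton] at hw hw'
        exact hww (hw.trans hw'.symm)
    · intro hxz
      have hzx : z ∈ nb G c' x (c' x) := by
        rw [mem_nb] at hxz ⊢
        exact ⟨hxz.1.symm, hxz.2.symm⟩
      rcases hxz0 with h | h
      · rw [h, hpw.1, Finset.mem_insert, Finset.mem_singleton] at hzx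
        rcases hzx with h5 | h5
        · rw [h5, hpw.2.1, Finset.mem_singleton] at hw hw'
          exact hww (hw.trans hw'.symm)
        · rw [h5, hpw'.2.1, Finset.mem_singleton] at hw hw'
          exact hww (hw.trans hw'.symm)
      · rw [h, hpw.2.1, Finset.mem_singleton] at hzx
        exact hzz hzx
  have h5 := Finset.card_le_card hsub
  have h6 := Finset.card_insert_le z0 ((cen G c).erase v0)
  rw [Finset.card_erase_of_mem hv0] at h6
  have h7 := Finset.card_pos.mpr ⟨v0, hv0⟩
  omega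

/-- A nonempty set closed under adjacency is everything. -/
lemma closed_univ (hV : (E2 G univ : ℝ) = 2 * ∑ v, β v)
    (hX : ∀ X : Finset V, X.Nonempty → X ≠ univ → (E2 G X : ℝ) < 2 * ∑ v ∈ X, β v)
    (S : Finset V) (hS : S.Nonempty) (hcl : ∀ x ∈ S, ∀ y, G.Adj x y → y ∈ S) : S = univ := by
  by_contra hne
  have hc : (Sᶜ).Nonempty := by
    rw [Finset.nonempty_iff_ne_empty]
    intro h
    exact hne ((Finset.compl_eq_empty_iff S).mp h)
  have hc' : Sᶜ ≠ univ := by
    intro h
    obtain ⟨x, hx⟩ := hS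
    have : x ∈ Sᶜ := by rw [h]; exact mem_univ x
    exact (Finset.mem_compl.mp this) hx
  have h1 := hX S hS hne
  have h2 := hX Sᶜ hc hc'
  have h3 : E2 G univ = E2 G S + E2 G Sᶜ := by
    unfold E2
    rw [← Finset.sum_add_sum_compl S]
    congr 1
    · refine Finset.sum_congr rfl fun v hv => ?_
      congr 1
      ext u
      simp only [mem_filter, mem_univ, true_and]
      exact ⟨fun h => ⟨hcl v hv u h, h⟩, fun h => h.2⟩
    · refine Finset.sum_congr rfl fun v hv => ?_
      congr 1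
      ext u
      simp only [mem_filter, mem_univ, true_and, mem_compl]
      refine ⟨fun h => ⟨fun hu => ?_, h⟩, fun h => h.2⟩
      exact (Finset.mem_compl.mp hv) (hcl u hu v h.symm)
  have h4 : ∑ v, β v = ∑ v ∈ S, β v + ∑ v ∈ Sᶜ, β v := (Finset.sum_add_sum_compl S β).symm
  have h5 : (E2 G univ : ℝ) = E2 G S + E2 G Sᶜ := by exact_mod_cast h3
  linarith

end main

/-- **The strongly connected case.** -/
theorem core [Nonempty V] (β : V → ℝ) (L : V → Finset C) (C0 : Finset C) (hC0 : 2 ≤ #C0)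
    (hV : (E2 G univ : ℝ) = 2 * ∑ v, β v)
    (hX : ∀ X : Finset V, X.Nonempty → X ≠ univ → (E2 G X : ℝ) < 2 * ∑ v ∈ X, β v)
    (hL : ∀ v, (L v).Nonempty) (h23 : ∀ v, 3 * β v ≤ 2 * #(L v))
    (heq : ∀ v, 3 * β v = 2 * #(L v) → L v = C0) :
    ∃ c : V → C, (∀ v, c v ∈ L v) ∧ ∀ v, #{u ∈ G.neighborFinset v | c u = c v} ≤ 1 := by
  classical
  obtain ⟨p, hp, hβ⟩ := bt_exists G β hV hX
  -- minimisers
  obtain ⟨c1, hc1⟩ : ∃ c, IsMin G p L c := by
    obtain ⟨c, hc, hmin⟩ := Finset.exists_min_image (Fintype.piFinset L) (Phi G p)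
      (Fintype.piFinset_nonempty.mpr hL)
    exact ⟨c, fun v => Fintype.mem_piFinset.mp hc v,
      fun c' hc' => hmin c' (Fintype.mem_piFinset.mpr hc')⟩
  obtain ⟨c, hc⟩ : ∃ c, IsMin2 G p L c := by
    obtain ⟨c, hc, hmin⟩ := Finset.exists_min_image
      ((Fintype.piFinset L).filter fun c => IsMin G p L c) (fun c => #(cen G c))
      ⟨c1, Finset.mem_filter.mpr ⟨Fintype.mem_piFinset.mpr hc1.1, hc1⟩⟩
    refine ⟨c, (Finset.mem_filter.mp hc).2, fun c' hc' => hmin c' ?_⟩
    exact Finset.mem_filter.mpr ⟨Fintype.mem_piFinset.mpr hc'.1, hc'⟩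
  refine ⟨c, hc.1.1, fun v => ?_⟩
  by_contra hv
  push Not at hv
  have hvc : v ∈ cen G c := by
    unfold cen nb
    exact Finset.mem_filter.mpr ⟨mem_univ v, hv⟩
  obtain ⟨u, u', hne, hu, hu'⟩ := (mem_cen G c v).mp hvc
  -- special vertices
  set S : Finset V := {x | ∃ d, IsMin2 G p L d ∧ Bad G d x} with hS
  have hvS : v ∈ S := by
    simp only [hS, mem_filter, mem_univ, true_and]
    exact ⟨c, hc, ⟨v, u, u', hne, hu, hu', Or.inl rfl⟩⟩
  have hprop : ∀ x ∈ S, L x = C0 ∧ ∀ y, G.Adj x y → y ∈ S ∧ (p x = 2 * p y ∨ p y = 2 * p x) := by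
    intro x hx
    simp only [hS, mem_filter, mem_univ, true_and] at hx
    obtain ⟨d, hd, hbad⟩ := hx
    have h1 := bad_props G p β L hp hβ h23 d hd.1 x hbad
    have h2 := own_eq G p β L hp hβ h23 d hd.1 x h1.1
    refine ⟨heq x h2.1, fun y hxy => ?_⟩
    have hdy : d y ∈ L x := h2.2.2 y hxy
    have h3 := spread G p β L hp hβ h23 d hd x hbad (d y) hdy
    have h4 := (bad_props G p β L hp hβ h23 _ h3.1.1 x h3.2).2 y (by
      rw [mem_nb, Function.update_self, Function.update_of_ne hxy.ne']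
      exact ⟨hxy, rfl⟩)
    refine ⟨?_, h4.2⟩
    simp only [hS, mem_filter, mem_univ, true_and]
    exact ⟨_, h3.1, h4.1⟩
  have hSuniv : S = univ := closed_univ G β hV hX S ⟨v, hvS⟩ fun x hx y hxy =>
    ((hprop x hx).2 y hxy).1
  have hall : ∀ x, x ∈ S := fun x => by rw [hSuniv]; exact mem_univ x
  -- the exponents
  have hexp : ∀ x, ∃ n : ℤ, p x = p v * (2 : ℝ) ^ n := by
    set T : Finset V := {x | ∃ n : ℤ, p x = p v * (2 : ℝ) ^ n} with hT
    have hTu : T = univ := by
      refine closed_univ G β hV hX T ⟨v, ?_⟩ ?_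
      · simp only [hT, mem_filter, mem_univ, true_and]
        exact ⟨0, by simp⟩
      · intro x hx y hxy
        simp only [hT, mem_filter, mem_univ, true_and] at hx ⊢
        obtain ⟨n, hn⟩ := hx
        rcases ((hprop x (hall x)).2 y hxy).2 with h | h
        · refine ⟨n - 1, ?_⟩
          rw [zpow_sub_one₀ (by norm_num)]
          have : p y = p x / 2 := by linarith
          rw [this, hn]; ring
        · refine ⟨n + 1, ?_⟩
          rw [zpow_add_one₀ (by norm_num)]
          rw [h, hn]; ring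
    intro x
    have : x ∈ T := by rw [hTu]; exact mem_univ x
    simpa [hT] using this
  choose n hn using hexp
  obtain ⟨a, ha, b, hb, hab⟩ := Finset.one_lt_card.mp (show 1 < #C0 by omega)
  set e : V → C := fun x => if Even (n x) then a else b with he
  have heL : ∀ x, e x ∈ L x := by
    intro x
    rw [(hprop x (hall x)).1]
    simp only [he]
    split_ifs
    · exact ha
    · exact hb
  have hpar : ∀ x y, G.Adj x y → e x ≠ e y := by
    intro x y hxy
    have hstep : ∀ x y, p x = 2 * p y → n x = n y + 1 := by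
      intro x y h
      rw [hn x, hn y] at h
      have h1 : (2 : ℝ) ^ (n x) = (2 : ℝ) ^ (n y + 1) := by
        rw [zpow_add_one₀ (by norm_num)]
        have hpv := hp v
        have : p v * (2 : ℝ) ^ (n x) = p v * ((2 : ℝ) ^ (n y) * 2) := by rw [h]; ring
        exact mul_left_cancel₀ hpv.ne' this
      exact zpow_right_injective₀ (by norm_num) (by norm_num) h1
    have hpx : Even (n x) ↔ ¬ Even (n y) := by
      rcases ((hprop x (hall x)).2 y hxy).2 with h | h
      · rw [hstep x y h, Int.even_add_one]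
      · rw [hstep y x h, Int.even_add_one, not_not]
    simp only [he]
    by_cases h1 : Even (n x)
    · rw [if_pos h1, if_neg (hpx.mp h1)]; exact hab
    · rw [if_neg h1, if_pos (by by_contra h2; exact h1 (hpx.mpr h2))]; exact hab.symm
  have hPe : Phi G p e = 0 := by
    unfold Phi
    refine Finset.sum_eq_zero fun x _ => Finset.sum_eq_zero fun y _ => ?_
    unfold hh
    rw [if_neg]
    rintro ⟨h1, h2⟩
    exact hpar x y h1 h2.symm
  have hwt : ∀ x y, 0 < wt p x y := fun x y => by
    have h1 := hp x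
    have h2 := hp y
    unfold wt
    positivity
  have hh0 : ∀ x y, 0 ≤ hh G p c x y := fun x y => by
    unfold hh
    split_ifs
    · exact (hwt x y).le
    · exact le_rfl
  have hPc : 0 < Phi G p c := by
    unfold Phi
    refine Finset.sum_pos' (fun x _ => Finset.sum_nonneg fun y _ => hh0 x y) ⟨v, mem_univ v, ?_⟩
    refine Finset.sum_pos' (fun y _ => hh0 v y) ⟨u, mem_univ u, ?_⟩
    rw [mem_nb] at hu
    unfold hh
    rw [if_pos hu]
    exact hwt v u
  have := hc.1.2 e heL
  linarith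

end Pool.Agent.W986.Core
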