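import Pool.Agent.W986.Classes

/-!
# The number of edges of a graph on a surface: the count
-/

set_option autoImplicit false

open Finset

namespace Pool.Agent.W986

open Pool.Agent.DC76

variable {V : Type} [Fintype V] [DecidableEq V]

/-- the number of pairs in the support -/
def cnt (z : V → V → ZMod 2) : ℕ := ∑ u, (univ.filter fun v => z u v ≠ 0).card

theorem row_two {z : V → V → ZMod 2} {u v : V} (h : z u v ≠ 0) (hs : ∑ w, z u w = 0) :
    ∃ w, w ≠ v ∧ z u w ≠ 0 := by
  by_contra h1
  push Not at h1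
  rw [Finset.sum_eq_single v (fun w _ hw => h1 w hw) (fun h => absurd (mem_univ v) h)] at hs
  exact h hs

theorem row_card {z : V → V → ZMod 2} {u v : V} (h : z u v ≠ 0) (hs : ∑ w, z u w = 0) :
    2 ≤ (univ.filter fun w => z u w ≠ 0).card := by
  obtain ⟨w, hw, hw2⟩ := row_two h hs
  have : 1 < (univ.filter fun w => z u w ≠ 0).card := by
    rw [Finset.one_lt_card]
    exact ⟨v, mem_filter.2 ⟨mem_univ _, h⟩, w, mem_filter.2 ⟨mem_univ _, hw2⟩, hw.symm⟩
  exact this

theorem six_le_cnt {K : SimpleGraph V} {z : V → V → ZMod 2} (hz : z ∈ Z K Set.univ)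
    (h0 : z ≠ 0) : 6 ≤ cnt z := by
  obtain ⟨hz1, hz2, hz3⟩ := hz
  have h1 : ∃ u v, z u v ≠ 0 := by
    by_contra h
    push Not at h
    exact h0 (funext fun u => funext fun v => h u v)
  obtain ⟨u, v, huv⟩ := h1
  obtain ⟨w, hw, huw⟩ := row_two huv (hz3 u)
  have hne1 : u ≠ v := (hz2 u v huv).1.ne
  have hne2 : u ≠ w := (hz2 u w huw).1.ne
  have r1 := row_card huv (hz3 u)
  have r2 := row_card (u := v) (v := u) (by rw [hz1 v u]; exact huv) (hz3 v)
  have r3 := row_card (u := w) (v := u) (by rw [hz1 w u]; exact huw) (hz3 w)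
  have h2 : ∑ x ∈ ({u, v, w} : Finset V), (univ.filter fun y => z x y ≠ 0).card ≤ cnt z :=
    Finset.sum_le_sum_of_subset (Finset.subset_univ _)
  rw [Finset.sum_insert (by simp [hne1, hne2]), Finset.sum_pair hw.symm] at h2
  omega

theorem cnt_sum_le (K : SimpleGraph V) {ι : Type} [Fintype ι] (b : ι → V → V → ZMod 2)
    (hK : ∀ j u v, ¬ K.Adj u v → b j u v = 0) (hc : ∀ u v, {j | b j u v ≠ 0}.ncard ≤ 2) :
    ∑ j, cnt (b j) ≤ 4 * K.edgeSet.ncard := by
  classical
  have h1 : ∑ j, cnt (b j) = ∑ u, ∑ v, (univ.filter fun j => b j u v ≠ 0).card := by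
    unfold cnt
    simp only [Finset.card_filter]
    rw [Finset.sum_comm]
    refine Finset.sum_congr rfl fun u _ => ?_
    rw [Finset.sum_comm]
  have h2 : ∀ u v, (univ.filter fun j => b j u v ≠ 0).card ≤ if K.Adj u v then 2 else 0 := by
    intro u v
    by_cases h : K.Adj u v
    · rw [if_pos h]
      refine le_trans (le_of_eq ?_) (hc u v)
      rw [← Set.ncard_coe_finset]
      congr 1
      ext j
      simp
    · rw [if_neg h]
      rw [Nat.le_zero, Finset.card_eq_zero, Finset.filter_eq_empty_iff]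
      intro j _
      rw [not_not]
      exact hK j u v h
  have h3 : ∑ u, ∑ v, (if K.Adj u v then 2 else 0) = 4 * K.edgeSet.ncard := by
    have h4 : ∀ u, ∑ v, (if K.Adj u v then 2 else 0) = 2 * K.degree u := by
      intro u
      rw [← Finset.sum_filter, Finset.sum_const, smul_eq_mul, mul_comm]
      congr 2
      ext v
      simp
    rw [Finset.sum_congr rfl fun u _ => h4 u, ← Finset.mul_sum,
      K.sum_degrees_eq_twice_card_edges]
    have h5 : K.edgeFinset.card = K.edgeSet.ncard := by
      rw [Set.ncard_eq_toFinset_card']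
      congr 1
    rw [h5]
    ring
  rw [h1, ← h3]
  exact Finset.sum_le_sum fun u _ => Finset.sum_le_sum fun v _ => h2 u v

theorem add_eq_zero_fun {x y : V → V → ZMod 2} (hxy : x + y = 0) : x = y := by
  funext u v
  have h6 := congrFun (congrFun hxy u) v
  simp only [Pi.add_apply, Pi.zero_apply] at h6
  exact CharTwo.add_eq_zero.1 h6

theorem rank_aux {ι : Type} [DecidableEq ι] (J : Finset ι) (j0 : ι) (hj0 : j0 ∈ J)
    (S : Finset (V → V → ZMod 2)) (hS : S.card ≤ (J.erase j0).card)
    (T : Submodule (ZMod 2) (V → V → ZMod 2))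
    (hsub : T ≤ Submodule.span (ZMod 2) (S : Set (V → V → ZMod 2))) :
    Module.finrank (ZMod 2) T + 1 ≤ J.card := by
  have h6 := Submodule.finrank_mono hsub
  have h7 : Module.finrank (ZMod 2) (Submodule.span (ZMod 2) (S : Set (V → V → ZMod 2))) ≤
    S.card := finrank_span_finset_le_card (R := ZMod 2) S
  have h9 := Finset.card_erase_of_mem hj0
  have h10 : 0 < J.card := Finset.card_pos.2 ⟨j0, hj0⟩
  omega

open Classical in
theorem rank_le {ι : Type} [Fintype ι] (b : ι → V → V → ZMod 2) (hb : ∑ j, b j = 0)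
    (hn : (univ.filter fun j => b j ≠ 0).Nonempty) :
    Module.finrank (ZMod 2) (Submodule.span (ZMod 2) (Set.range b)) + 1 ≤
      (univ.filter fun j => b j ≠ 0).card := by
  obtain ⟨j0, hj0⟩ := hn
  refine rank_aux _ j0 hj0 (((univ.filter fun j => b j ≠ 0).erase j0).image b)
    Finset.card_image_le _ ?_
  have hmem : ∀ j ∈ (univ.filter fun j => b j ≠ 0).erase j0,
      b j ∈ Submodule.span (ZMod 2)
        ((((univ.filter fun j => b j ≠ 0).erase j0).image b : Finset (V → V → ZMod 2)) :
          Set (V → V → ZMod 2)) :=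
    fun j hj => Submodule.subset_span (Finset.mem_coe.2 (Finset.mem_image_of_mem b hj))
  rw [Submodule.span_le]
  rintro _ ⟨j, rfl⟩
  by_cases h1 : b j = 0
  · rw [h1]
    exact Submodule.zero_mem _
  · by_cases h2 : j = j0
    · have h3 : b j0 = ∑ j ∈ (univ.filter fun j => b j ≠ 0).erase j0, b j := by
        have h4 : ∑ j ∈ univ.filter (fun j => b j ≠ 0), b j = 0 := by
          refine Eq.trans (Finset.sum_subset (Finset.subset_univ _) fun x _ hx => ?_) hb
          by_contra h
          exact hx (mem_filter.2 ⟨mem_univ _, h⟩)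
        rw [← Finset.add_sum_erase _ b hj0] at h4
        exact add_eq_zero_fun h4
      rw [h2, SetLike.mem_coe, h3]
      exact Submodule.sum_mem _ fun j hj => hmem j hj
    · exact hmem j (Finset.mem_erase.2 ⟨h2, mem_filter.2 ⟨mem_univ _, h1⟩⟩)

/-- A subgraph `K` with all edges inside the nonempty set `Y` of a connected graph with facial walks
and `V - E + F = χ` has at most `3|Y| - 3χ` or at most `|Y| + 1 - χ` edges. -/
theorem sub_bound {G : SimpleGraph V} (hG : Conn G Set.univ) {F : Type} [Fintype F]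
    (M : FacialWalks G F) (χ : ℤ)
    (hχ : (Fintype.card V : ℤ) - G.edgeSet.ncard + Fintype.card F = χ)
    (K : SimpleGraph V) (hKG : ∀ u v, K.Adj u v → G.Adj u v) (Y : Finset V) (hY : Y.Nonempty)
    (hK : ∀ u v, K.Adj u v → u ∈ Y ∧ v ∈ Y) :
    (K.edgeSet.ncard : ℤ) ≤ 3 * Y.card - 3 * χ ∨ (K.edgeSet.ncard : ℤ) ≤ Y.card + 1 - χ := by
  classical
  have hfin : Fintype (Quotient (cls M K)) := Fintype.ofFinite _
  have h1 := finrank_Z_ge K Y hY hK
  have h2 := finrank_Z hG ⟨hY.choose⟩
  have h3 := face_rank M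
  have hle : Z K Set.univ ≤ Z G Set.univ := fun z hz =>
    ⟨hz.1, fun u v h => ⟨hKG u v (hz.2.1 u v h).1, Set.mem_univ _, Set.mem_univ _⟩, hz.2.2⟩
  have hWle : Submodule.span (ZMod 2) (Set.range (face M)) ≤ Z G Set.univ := by
    rw [Submodule.span_le]
    rintro _ ⟨f, rfl⟩
    exact face_mem M f
  have h4 := Submodule.finrank_sup_add_finrank_inf_eq
    (Submodule.span (ZMod 2) (Set.range (face M))) (Z K Set.univ)
  have h5 := Submodule.finrank_mono (sup_le hWle hle)
  have h6 := Submodule.finrank_mono (inf_le_span M K)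
  by_cases hn : (univ.filter fun j => bsum M K j ≠ 0).Nonempty
  · left
    have h7 := rank_le (bsum M K) (sum_bsum M K) hn
    have h8 := cnt_sum_le K (bsum M K) (fun j u v h => bsum_off M K j u v h) (bsum_cov M K)
    have h9 : 6 * (univ.filter fun j => bsum M K j ≠ 0).card ≤ ∑ j, cnt (bsum M K j) := by
      rw [mul_comm, ← smul_eq_mul, ← Finset.sum_const]
      refine le_trans (Finset.sum_le_sum fun j hj => ?_)
        (Finset.sum_le_sum_of_subset (Finset.subset_univ _))
      exact six_le_cnt (bsum_mem M K j) (mem_filter.1 hj).2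
    omega
  · right
    have h7 : Submodule.span (ZMod 2) (Set.range (bsum M K)) = ⊥ := by
      rw [Submodule.span_eq_bot]
      rintro _ ⟨j, rfl⟩
      by_contra h
      exact hn ⟨j, mem_filter.2 ⟨mem_univ _, h⟩⟩
    rw [h7, finrank_bot] at h6
    omega

end Pool.Agent.W986
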