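import Pool.Agent.W986.StripEx

/-!
# Triangulated spheres without separating triangles

The neighbours of a vertex which are adjacent are consecutive; a vertex whose neighbours in `N` are
pairwise adjacent has at most two of them, and they are consecutive; a vertex whose neighbours in
`N` are consecutive can be added to `N`.
-/

set_option autoImplicit false

open Finset

namespace Pool.Agent.W986

open Pool.Agent.DC76

section nosep

variable {W : Type} {H : SimpleGraph W} {T : W → W → W → Prop}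

/-- Three pairwise adjacent vertices always form a triangle. -/
def NoSep (H : SimpleGraph W) (T : W → W → W → Prop) : Prop :=
  ∀ x y z, H.Adj x y → H.Adj y z → H.Adj z x → T x y z

variable {x y : W} {d : ℕ} {ν : ℕ → W}

variable [Fintype W]

theorem Rotn.adj_next (hH : TriSphere H T) (h : Rotn H T x d ν) (i : ℕ) :
    H.Adj (ν i) (ν (i + 1)) := (hH.adj2 (h.tri_next i)).2.1

/-- The neighbours of `x` which are adjacent to the neighbour `y` are the two third vertices of
the triangles at `xy`. -/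
theorem TriSphere.common (hH : TriSphere H T) (hs : NoSep H T) {x y z : W} (hxy : H.Adj x y) :
    (H.Adj x z ∧ H.Adj y z) ↔ T x y z := by
  constructor
  · rintro ⟨h1, h2⟩
    exact hs _ _ _ hxy h2 h1.symm
  · intro h1
    obtain ⟨_, h2, h3⟩ := hH.adj2 h1
    exact ⟨h3.symm, h2⟩

/-- The neighbours of `x` which are adjacent are consecutive. -/
theorem Rotn.adj_iff (hH : TriSphere H T) (hs : NoSep H T) (h : Rotn H T x d ν) {i j : ℕ}
    (hij : i < j) (hj : j < i + d) : H.Adj (ν i) (ν j) ↔ j = i + 1 ∨ j = i + d - 1 := by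
  have hd : 3 ≤ d := h.three
  constructor
  · intro h1
    have h2 : T x (ν i) (ν j) := hs _ _ _ (h.adj_nu i) h1 (h.adj_nu j).symm
    have e : ν i = ν (i + d - 1 + 1) := by
      rw [show i + d - 1 + 1 = i + d by omega, h.per]
    rw [e] at h2
    rcases (h.tri _ _).1 h2 with h3 | h3
    · right
      by_contra hcon
      exact h.ne (show j < i + d - 1 by omega) (by omega) h3
    · left
      rw [show i + d - 1 + 2 = i + 1 + d by omega, h.per] at h3
      by_contra hcon
      exact h.ne (show i + 1 < j by omega) (by omega) h3.symm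
  · rintro (rfl | rfl)
    · exact h.adj_next hH i
    · have h1 := h.adj_next hH (i + d - 1)
      rw [show i + d - 1 + 1 = i + d by omega, h.per] at h1
      exact h1.symm

/-- A vertex of degree at least four whose neighbours in `N` are pairwise adjacent has at most two
neighbours in `N`, and they are consecutive. -/
theorem Rotn.fine (hH : TriSphere H T) (hs : NoSep H T) (h : Rotn H T y d ν) (hd : 4 ≤ d)
    {N : Set W} (hf : Fine H N y) (hn : ∃ a ∈ N, H.Adj y a) :
    ∃ i, ν i ∈ N ∧ ∀ j, i + 1 < j → j < i + d → ν j ∉ N := by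
  obtain ⟨a, ha, hya⟩ := hn
  obtain ⟨i, hi, rfl⟩ := (h.adj a).1 hya
  have key : ∀ i j, i < j → j < i + d → ν i ∈ N → ν j ∈ N → j = i + 1 ∨ j = i + d - 1 := by
    intro i j h1 h2 h3 h4
    refine (h.adj_iff hH hs h1 h2).1 (hf _ h3 _ h4 (h.adj_nu i) (h.adj_nu j) (h.ne h1 h2))
  by_cases h1 : ν (i + d - 1) ∈ N
  · refine ⟨i + d - 1, h1, fun j h2 h3 h4 => ?_⟩
    have h5 : ν (j - d) ∈ N := by
      rw [← h.per (j - d), show j - d + d = j by omega]
      exact h4
    rcases key i (j - d) (by omega) (by omega) ha h5 with h6 | h6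
    · rcases key (j - d) (i + d - 1) (by omega) (by omega) h5 h1 with h7 | h7 <;> omega
    · omega
  · refine ⟨i, ha, fun j h2 h3 h4 => ?_⟩
    rcases key i j (by omega) h3 ha h4 with h6 | h6
    · omega
    · rw [h6] at h4
      exact h1 h4

theorem Fine.ncard_le (hH : TriSphere H T) (hs : NoSep H T) (h : Rotn H T y d ν) (hd : 4 ≤ d)
    {N : Set W} (hf : Fine H N y) : {a | a ∈ N ∧ H.Adj y a}.ncard ≤ 2 := by
  by_cases hn : ∃ a ∈ N, H.Adj y a
  · obtain ⟨i, hi, h1⟩ := h.fine hH hs hd hf hn
    have h2 : {a | a ∈ N ∧ H.Adj y a} ⊆ ({ν i, ν (i + 1)} : Set W) := by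
      rintro a ⟨ha, hya⟩
      obtain ⟨m, h3, h4, rfl⟩ := h.window i hya
      by_cases h5 : i + 1 < m
      · exact absurd ha (h1 m h5 h4)
      · obtain rfl | rfl : m = i ∨ m = i + 1 := by omega
        · exact Or.inl rfl
        · exact Or.inr rfl
    refine (Set.ncard_le_ncard h2 (Set.toFinite _)).trans ?_
    refine (Set.ncard_insert_le _ _).trans ?_
    rw [Set.ncard_singleton]
  · have h1 : {a | a ∈ N ∧ H.Adj y a} = ∅ := by
      ext a
      simp only [Set.mem_ofPred_eq, Set.mem_empty_iff_false, iff_false]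
      exact fun h => hn ⟨a, h.1, h.2⟩
    rw [h1, Set.ncard_empty]
    omega

/-- An interval of the link of a vertex is connected. -/
theorem Rotn.conn_Ico (hH : TriSphere H T) (h : Rotn H T x d ν) (i j : ℕ) :
    Conn H {z | ∃ m, i ≤ m ∧ m < j ∧ ν m = z} := by
  have key : ∀ n m, i ≤ m → m + n < j → Lnk H {z | ∃ m, i ≤ m ∧ m < j ∧ ν m = z} (ν m)
      (ν (m + n)) := by
    intro n
    induction n with
    | zero => exact fun m _ _ => Relation.ReflTransGen.refl
    | succ n ih =>
      intro m h1 h2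
      exact (ih m h1 (by omega)).tail ⟨⟨m + n + 1, by omega, by omega, rfl⟩,
        h.adj_next hH (m + n)⟩
  rintro a ⟨m, h1, h2, rfl⟩ b ⟨p, h3, h4, rfl⟩
  rcases le_total m p with h5 | h5
  · have h6 := key (p - m) m h1 (by omega)
    rwa [show m + (p - m) = p by omega] at h6
  · have h6 := key (m - p) p h3 (by omega)
    rw [show p + (m - p) = m by omega] at h6
    exact h6.symm ⟨p, h3, h4, rfl⟩

/-- Deleting from a connected set a vertex whose other neighbours are consecutive. -/
theorem TriSphere.conn_del (hH : TriSphere H T) {C : Set W} (hC : Conn H C) (hy : y ∈ C)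
    (h : Rotn H T y d ν) {i l : ℕ} (hin : ∀ j, i ≤ j → j < i + l → ν j ∉ C)
    (hout : ∀ j, i + l ≤ j → j < i + d → ν j ∈ C) : Conn H (C \ {y}) := by
  have hB : Conn H {z | ∃ m, i + l ≤ m ∧ m < i + d ∧ ν m = z} := h.conn_Ico hH _ _
  refine conn_of_lnk hB ?_ ?_
  · rintro z ⟨m, h1, h2, rfl⟩
    exact ⟨hout m h1 h2, (h.adj_nu m).ne'⟩
  · rintro z ⟨hz, hzy⟩
    have h1 := hC z hz y hy
    induction h1 using Relation.ReflTransGen.head_induction_on with
    | refl => exact absurd rfl hzy
    | @head z z' h1 _ ih =>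
      by_cases h2 : z' = y
      · rw [h2] at h1
        obtain ⟨m, h3, h4, h5⟩ := h.window i h1.2.symm
        refine ⟨z, ⟨m, ?_, h4, h5⟩, Relation.ReflTransGen.refl⟩
        by_contra h6
        refine hin m h3 (by omega) ?_
        rw [h5]
        exact hz
      · obtain ⟨b, hb, h3⟩ := ih h1.1 h2
        exact ⟨b, hb, Relation.ReflTransGen.head ⟨⟨h1.1, h2⟩, h1.2⟩ h3⟩

/-- The complement of a vertex is connected. -/
theorem TriSphere.conn_compl (hH : TriSphere H T) (x : W) : Conn H {x}ᶜ := by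
  obtain ⟨d, ν, h⟩ := hH.rotation x
  have h1 := hH.conn_del hH.conn (Set.mem_univ x) h (i := 0) (l := 0)
    (fun j _ h2 => absurd h2 (by omega)) (fun j _ _ => Set.mem_univ _)
  rwa [← Set.compl_eq_univ_sdiff] at h1

/-- Adding to a set with connected complement a vertex with consecutive neighbours in the set. -/
theorem TriSphere.co_insert (hH : TriSphere H T) {N : Set W} (hNc : Conn H Nᶜ) (hy : y ∉ N)
    (h : Rotn H T y d ν) {i l : ℕ} (hin : ∀ j, i ≤ j → j < i + l → ν j ∈ N)
    (hout : ∀ j, i + l ≤ j → j < i + d → ν j ∉ N) : Conn H (insert y N)ᶜ := by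
  have h1 := hH.conn_del hNc hy h (i := i) (l := l) (fun j h2 h3 h4 => h4 (hin j h2 h3)) hout
  have h2 : (insert y N)ᶜ = Nᶜ \ {y} := by
    ext z
    simp only [Set.mem_compl_iff, Set.mem_insert_iff, Set.mem_sdiff, Set.mem_singleton_iff]
    tauto
  rwa [h2]

omit [Fintype W] in
theorem conn_insert {N : Set W} (hN : Conn H N) {a : W} (ha : a ∈ N) (hya : H.Adj y a) :
    Conn H (insert y N) := by
  refine conn_of_lnk hN (Set.subset_insert y N) ?_
  rintro z (rfl | hz)
  · exact ⟨a, ha, Relation.ReflTransGen.single ⟨Set.mem_insert_of_mem _ ha, hya⟩⟩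
  · exact ⟨z, hz, Relation.ReflTransGen.refl⟩

/-- Adding to a set a vertex whose neighbours in the set are pairwise adjacent. -/
theorem TriSphere.insert_fine (hH : TriSphere H T) (hs : NoSep H T) {N : Set W} (hN : Conn H N)
    (hNc : Conn H Nᶜ) (hy : y ∉ N) (h : Rotn H T y d ν) (hd : 4 ≤ d) (hf : Fine H N y)
    (hn : ∃ a ∈ N, H.Adj y a) : Conn H (insert y N) ∧ Conn H (insert y N)ᶜ := by
  obtain ⟨i, hi, h1⟩ := h.fine hH hs hd hf hn
  refine ⟨conn_insert hN hi (h.adj_nu i), ?_⟩
  by_cases h2 : ν (i + 1) ∈ N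
  · refine hH.co_insert hNc hy h (i := i) (l := 2) (fun j h3 h4 => ?_)
      (fun j h3 h4 => h1 j (by omega) h4)
    obtain rfl | rfl : j = i ∨ j = i + 1 := by omega
    · exact hi
    · exact h2
  · refine hH.co_insert hNc hy h (i := i) (l := 1) (fun j h3 h4 => ?_) (fun j h3 h4 => ?_)
    · obtain rfl : j = i := by omega
      exact hi
    · rcases Nat.eq_or_lt_of_le h3 with h5 | h5
      · rw [← h5]
        exact h2
      · exact h1 j h5 h4

omit [Fintype W] in
theorem conn_single (x : W) : Conn H {x} := by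
  rintro a rfl b rfl
  exact Relation.ReflTransGen.refl

/-- One vertex is a half-space. -/
theorem TriSphere.halfSp_single (hH : TriSphere H T) {τ : W → W} {st : W → Prop} {x : W}
    (hx : τ x ≠ x) : HalfSp H τ st {x} := by
  refine ⟨⟨x, rfl⟩, ?_, conn_single x, hH.conn_compl x, ?_⟩
  · rintro a rfl
    exact hx
  · rintro y _ _ a rfl b rfl _ _ h
    exact absurd rfl h

/-- The other neighbours of a vertex whose neighbours in `N` are pairwise adjacent are connected
outside `N`. -/
theorem Fine.out (hH : TriSphere H T) (hs : NoSep H T) (h : Rotn H T y d ν) (hd : 4 ≤ d)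
    {N : Set W} (hf : Fine H N y) : Conn H {a | a ∉ N ∧ H.Adj y a} := by
  have key : ∃ i l, (∀ j, i ≤ j → j < i + l → ν j ∈ N) ∧
      ∀ j, i + l ≤ j → j < i + d → ν j ∉ N := by
    by_cases hn : ∃ a ∈ N, H.Adj y a
    · obtain ⟨i, hi, h1⟩ := h.fine hH hs hd hf hn
      by_cases h2 : ν (i + 1) ∈ N
      · refine ⟨i, 2, fun j h3 h4 => ?_, fun j h3 h4 => h1 j (by omega) h4⟩
        obtain rfl | rfl : j = i ∨ j = i + 1 := by omega
        · exact hi
        · exact h2
      · refine ⟨i, 1, fun j h3 h4 => ?_, fun j h3 h4 => ?_⟩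
        · obtain rfl : j = i := by omega
          exact hi
        · rcases Nat.eq_or_lt_of_le h3 with h5 | h5
          · rw [← h5]
            exact h2
          · exact h1 j h5 h4
    · exact ⟨0, 0, fun j _ h1 => absurd h1 (by omega),
        fun j _ _ h1 => hn ⟨_, h1, h.adj_nu j⟩⟩
  obtain ⟨i, l, h1, h2⟩ := key
  have h3 : {a | a ∉ N ∧ H.Adj y a} = {z | ∃ m, i + l ≤ m ∧ m < i + d ∧ ν m = z} := by
    ext z
    constructor
    · rintro ⟨h3, h4⟩
      obtain ⟨m, h5, h6, rfl⟩ := h.window i h4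
      refine ⟨m, ?_, h6, rfl⟩
      by_contra h7
      exact h3 (h1 m h5 (by omega))
    · rintro ⟨m, h5, h6, rfl⟩
      exact ⟨h2 m h5 h6, h.adj_nu m⟩
  rw [h3]
  exact h.conn_Ico hH _ _

end nosep

end Pool.Agent.W986
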