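import Pool.Agent.W986.TriDefs

/-!
# A graph with triangular faces on the sphere is a triangulated sphere
-/

set_option autoImplicit false

open Finset

namespace Pool.Agent.W986

open Pool.Agent.DC76

section

variable {V : Type} [DecidableEq V] {G : SimpleGraph V} {F : Type} [Fintype F]

/-- The vertices of a triangular face. -/
def vs (M : FacialWalks G F) (f : F) : Finset V := {M.walk f 0, M.walk f 1, M.walk f 2}

theorem vs_card (M : FacialWalks G F) {f : F} (h3 : M.len f = 3) : (vs M f).card = 3 := by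
  have h01 := (M.adj f 0 (by omega)).ne
  have h12 := (M.adj f 1 (by omega)).ne
  have h20 := (M.adj f 2 (by omega)).ne
  have hc := M.closed f
  rw [h3] at hc
  rw [show 2 + 1 = 3 from rfl, hc] at h20
  exact card_eq_three.2 ⟨_, _, _, h01, h20.symm, h12, rfl⟩

theorem at_iff (M : FacialWalks G F) {f : F} (h3 : M.len f = 3) (x y : V) :
    At M f x y ↔ x ≠ y ∧ x ∈ vs M f ∧ y ∈ vs M f := by
  have h01 := (M.adj f 0 (by omega)).ne
  have h12 := (M.adj f 1 (by omega)).ne
  have h20 := (M.adj f 2 (by omega)).ne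
  have hc := M.closed f
  rw [h3] at hc
  rw [show 2 + 1 = 3 from rfl, hc] at h20
  unfold At
  rw [h3]
  unfold trav
  rw [Finset.card_ne_zero, filter_nonempty_iff]
  unfold vs
  simp only [mem_insert, mem_singleton]
  constructor
  · rintro ⟨t, ht, h⟩
    rw [mem_range] at ht
    have ht' : t = 0 ∨ t = 1 ∨ t = 2 := by omega
    rcases ht' with rfl | rfl | rfl
    · rcases h with ⟨rfl, rfl⟩ | ⟨rfl, rfl⟩
      · exact ⟨h01, Or.inl rfl, Or.inr (Or.inl rfl)⟩
      · exact ⟨h01.symm, Or.inr (Or.inl rfl), Or.inl rfl⟩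
    · rcases h with ⟨rfl, rfl⟩ | ⟨rfl, rfl⟩
      · exact ⟨h12, Or.inr (Or.inl rfl), Or.inr (Or.inr rfl)⟩
      · exact ⟨h12.symm, Or.inr (Or.inr rfl), Or.inr (Or.inl rfl)⟩
    · rw [show 2 + 1 = 3 from rfl, hc] at h
      rcases h with ⟨rfl, rfl⟩ | ⟨rfl, rfl⟩
      · exact ⟨h20, Or.inr (Or.inr rfl), Or.inl rfl⟩
      · exact ⟨h20.symm, Or.inl rfl, Or.inr (Or.inr rfl)⟩
  · rintro ⟨hne, hx, hy⟩
    rcases hx with rfl | rfl | rfl
    · rcases hy with rfl | rfl | rfl
      · exact absurd rfl hne
      · exact ⟨0, by simp, Or.inl ⟨rfl, rfl⟩⟩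
      · exact ⟨2, by simp, Or.inr ⟨rfl, hc⟩⟩
    · rcases hy with rfl | rfl | rfl
      · exact ⟨0, by simp, Or.inr ⟨rfl, rfl⟩⟩
      · exact absurd rfl hne
      · exact ⟨1, by simp, Or.inl ⟨rfl, rfl⟩⟩
    · rcases hy with rfl | rfl | rfl
      · exact ⟨2, by simp, Or.inl ⟨rfl, hc⟩⟩
      · exact ⟨1, by simp, Or.inr ⟨rfl, rfl⟩⟩
      · exact absurd rfl hne

/-- The triangles. -/
def Tri (M : FacialWalks G F) (x y z : V) : Prop := ∃ f, At M f x y ∧ At M f y z ∧ At M f z x

theorem tri_vs (M : FacialWalks G F) (h3 : ∀ f, M.len f = 3) (x y z : V) :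
    Tri M x y z ↔ x ≠ y ∧ y ≠ z ∧ z ≠ x ∧ ∃ f, vs M f = {x, y, z} := by
  constructor
  · rintro ⟨f, h1, h2, h4⟩
    rw [at_iff M (h3 f)] at h1 h2 h4
    refine ⟨h1.1, h2.1, h4.1, f, ?_⟩
    symm
    refine eq_of_subset_of_card_le ?_ ?_
    · intro w hw
      simp only [mem_insert, mem_singleton] at hw
      rcases hw with rfl | rfl | rfl
      · exact h1.2.1
      · exact h1.2.2
      · exact h4.2.1
    · rw [vs_card M (h3 f), card_eq_three.2 ⟨x, y, z, h1.1, h4.1.symm, h2.1, rfl⟩]
  · rintro ⟨h1, h2, h4, f, hf⟩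
    refine ⟨f, ?_, ?_, ?_⟩
    · rw [at_iff M (h3 f), hf]
      exact ⟨h1, by simp, by simp⟩
    · rw [at_iff M (h3 f), hf]
      exact ⟨h2, by simp, by simp⟩
    · rw [at_iff M (h3 f), hf]
      exact ⟨h4, by simp, by simp⟩

theorem adj_of_at (M : FacialWalks G F) {f : F} {x y : V} (h : At M f x y) : G.Adj x y := by
  unfold At trav at h
  rw [Finset.card_ne_zero, filter_nonempty_iff] at h
  obtain ⟨t, ht, h1⟩ := h
  rcases h1 with ⟨rfl, rfl⟩ | ⟨rfl, rfl⟩
  · exact M.adj f t (mem_range.1 ht)
  · exact (M.adj f t (mem_range.1 ht)).symm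

theorem at_of_rot {M : FacialWalks G F} {v : V} {d : ℕ} {ν : ℕ → V} {fc : ℕ → F}
    (h : IsRot M v d ν fc) (i : ℕ) : At M (fc i) v (ν i) := by
  have h3 := h.three
  have h1 := h.at_right (i + d - 1)
  rw [show i + d - 1 + 1 = i + d by omega, h.per, h.perf] at h1
  exact h1

theorem rot_ne {M : FacialWalks G F} {v : V} {d : ℕ} {ν : ℕ → V} {fc : ℕ → F}
    (h : IsRot M v d ν fc) {i j : ℕ} (hij : i < j) (hj : j < i + d) : ν i ≠ ν j := by
  have hd : 0 < d := by have := h.three; omega
  have hper : ∀ k j, ν (j + d * k) = ν j := by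
    intro k
    induction k with
    | zero => intro j; rfl
    | succ k ih =>
      intro j
      rw [Nat.mul_succ, ← add_assoc, h.per]
      exact ih j
  have hmod : ∀ i, ν i = ν (i % d) := by
    intro i
    have h1 := hper (i / d) (i % d)
    rw [Nat.mod_add_div] at h1
    exact h1
  intro heq
  rw [hmod i, hmod j] at heq
  have h1 := h.inj _ (Nat.mod_lt _ hd) _ (Nat.mod_lt _ hd) heq
  have h2 : (j - i) % d = 0 := by
    rw [← Nat.ModEq.eq_1] at h1
    exact Nat.sub_mod_eq_zero_of_mod_eq h1.symm
  have h4 : (j - i) % d = j - i := Nat.mod_eq_of_lt (by omega)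
  omega

theorem rot_tri_iff {M : FacialWalks G F} (h3 : ∀ f, M.len f = 3) {v : V} {d : ℕ} {ν : ℕ → V}
    {fc : ℕ → F} (h : IsRot M v d ν fc) (i : ℕ) (y : V) :
    Tri M v (ν (i + 1)) y ↔ y = ν i ∨ y = ν (i + 2) := by
  classical
  have hd := h.three
  -- the vertices of the faces
  have hvs : ∀ j, vs M (fc j) = {v, ν j, ν (j + 1)} := by
    intro j
    have h1 := at_of_rot h j
    have h2 := h.at_left j
    rw [at_iff M (h3 _)] at h1 h2
    symm
    refine eq_of_subset_of_card_le ?_ ?_
    · intro w hw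
      simp only [mem_insert, mem_singleton] at hw
      rcases hw with rfl | rfl | rfl
      · exact h1.2.1
      · exact h1.2.2
      · exact h2.2.2
    · rw [vs_card M (h3 _), card_eq_three.2 ⟨_, _, _, h1.1, h2.1,
        rot_ne h (show j < j + 1 by omega) (by omega), rfl⟩]
  constructor
  · rintro ⟨f, h1, h2, h4⟩
    rw [at_iff M (h3 f)] at h2 h4
    have h5 : f = fc i ∨ f = fc (i + 1) := by
      by_contra hcon
      push Not at hcon
      have h6 := h.bd_eq {f} i
      rw [if_neg (by rw [mem_singleton]; exact hcon.1.symm),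
        if_neg (by rw [mem_singleton]; exact hcon.2.symm)] at h6
      unfold bd at h6
      rw [sum_singleton] at h6
      exact h1 h6
    rcases h5 with rfl | rfl
    · have h6 := h2.2.2
      rw [hvs] at h6
      simp only [mem_insert, mem_singleton] at h6
      rcases h6 with h6 | h6 | h6
      · exact absurd h6 h4.1
      · exact Or.inl h6
      · exact absurd h6.symm h2.1
    · have h6 := h2.2.2
      rw [hvs] at h6
      simp only [mem_insert, mem_singleton] at h6
      rcases h6 with h6 | h6 | h6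
      · exact absurd h6 h4.1
      · exact absurd h6.symm h2.1
      · exact Or.inr h6
  · rintro (rfl | rfl)
    · rw [tri_vs M h3]
      refine ⟨(h.adj' _).ne, (rot_ne h (show i < i + 1 by omega) (by omega)).symm,
        (h.adj' _).ne.symm, fc i, ?_⟩
      rw [hvs]
      congr 1
      exact Finset.pair_comm _ _
    · rw [tri_vs M h3]
      exact ⟨(h.adj' _).ne, rot_ne h (show i + 1 < i + 2 by omega) (by omega),
        (h.adj' _).ne.symm, fc (i + 1), hvs _⟩

end

section count

variable {V : Type} [DecidableEq V] [Fintype V]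

theorem sum_trav {n : ℕ} {w : ℕ → V} (hw : ∀ t, t < n → w t ≠ w (t + 1)) :
    ∑ x, ∑ y, trav n w x y = 2 * n := by
  classical
  unfold trav
  simp only [card_filter]
  have h1 : ∑ x : V, ∑ y : V, ∑ t ∈ range n,
      (if (w t = x ∧ w (t + 1) = y) ∨ (w t = y ∧ w (t + 1) = x) then 1 else 0) =
      ∑ t ∈ range n, ∑ x : V, ∑ y : V,
      (if (w t = x ∧ w (t + 1) = y) ∨ (w t = y ∧ w (t + 1) = x) then 1 else 0) := by
    symm
    rw [sum_comm]
    exact sum_congr rfl fun x _ => sum_comm
  rw [h1]
  have h2 : ∀ t ∈ range n, ∑ x : V, ∑ y : V,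
      (if (w t = x ∧ w (t + 1) = y) ∨ (w t = y ∧ w (t + 1) = x) then 1 else 0) = 2 := by
    intro t ht
    have hne := hw t (mem_range.1 ht)
    have h3 : ∀ x y : V, (if (w t = x ∧ w (t + 1) = y) ∨ (w t = y ∧ w (t + 1) = x) then 1 else 0) =
        (if w t = x then if w (t + 1) = y then 1 else 0 else 0) +
        (if w (t + 1) = x then if w t = y then 1 else 0 else 0) := by
      intro x y
      by_cases h4 : w t = x
      · have h5 : w (t + 1) ≠ x := fun h => hne (h4.trans h.symm)
        rw [if_pos h4, if_neg h5, add_zero]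
        by_cases h6 : w (t + 1) = y
        · rw [if_pos (Or.inl ⟨h4, h6⟩), if_pos h6]
        · rw [if_neg (by tauto), if_neg h6]
      · rw [if_neg h4, zero_add]
        by_cases h5 : w (t + 1) = x
        · rw [if_pos h5]
          by_cases h6 : w t = y
          · rw [if_pos (Or.inr ⟨h6, h5⟩), if_pos h6]
          · rw [if_neg (by tauto), if_neg h6]
        · rw [if_neg (by tauto), if_neg h5]
    simp only [h3, sum_add_distrib, sum_ite_irrel, sum_ite_eq, sum_const_zero, mem_univ, if_true]
  rw [sum_congr rfl h2, sum_const, card_range, smul_eq_mul, mul_comm]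

variable {G : SimpleGraph V} {F : Type} [Fintype F]

omit [DecidableEq V] in
theorem sum_deg (G : SimpleGraph V) : ∑ x, {y | G.Adj x y}.ncard = 2 * G.edgeSet.ncard := by
  classical
  have h2 := G.sum_degrees_eq_twice_card_edges
  have h6 : G.edgeSet.ncard = G.edgeFinset.card := by
    rw [← SimpleGraph.coe_edgeFinset, Set.ncard_coe_finset]
  rw [h6, ← h2]
  refine sum_congr rfl fun x _ => ?_
  rw [← SimpleGraph.card_neighborFinset_eq_degree, ← Set.ncard_coe_finset]
  congr 1
  ext y
  simp

/-- Every facial walk has length three: `3F = 2E`. -/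
theorem three_faces (M : FacialWalks G F) (h3 : ∀ f, M.len f = 3) :
    3 * Fintype.card F = 2 * G.edgeSet.ncard := by
  classical
  have h1 : ∑ x, ∑ y, ∑ f, trav (M.len f) (M.walk f) x y = 6 * Fintype.card F := by
    have h2 : ∑ x, ∑ y, ∑ f, trav (M.len f) (M.walk f) x y =
        ∑ f, ∑ x, ∑ y, trav (M.len f) (M.walk f) x y := by
      symm
      rw [sum_comm]
      exact sum_congr rfl fun x _ => sum_comm
    rw [h2, sum_congr rfl fun f _ => sum_trav fun t ht => (M.adj f t ht).ne]
    simp only [h3, sum_const, card_univ, smul_eq_mul]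
    omega
  have h2 : ∀ x y, ∑ f, trav (M.len f) (M.walk f) x y = if G.Adj x y then 2 else 0 := by
    intro x y
    by_cases h : G.Adj x y
    · rw [if_pos h]
      exact M.twice x y h
    · rw [if_neg h]
      refine sum_eq_zero fun f _ => ?_
      by_contra h4
      exact h (adj_of_at M h4)
  simp only [h2] at h1
  have h4 : ∀ x, ∑ y, (if G.Adj x y then 2 else 0) = 2 * {y | G.Adj x y}.ncard := by
    intro x
    rw [← sum_filter, sum_const, smul_eq_mul, mul_comm]
    congr 1
    rw [← Set.ncard_coe_finset]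
    congr 1
    ext y
    simp
  rw [sum_congr rfl fun x _ => h4 x, ← mul_sum, sum_deg] at h1
  omega

/-- On a surface the Euler characteristic is at most two. -/
theorem euler_le_two (M : FacialWalks G F) (hG : G.Connected) :
    (Fintype.card V : ℤ) - G.edgeSet.ncard + Fintype.card F ≤ 2 := by
  have h1 : Fintype.card F ≤ Module.finrank (ZMod 2) (Bnd M) + 1 := face_rank M
  obtain ⟨r⟩ := hG.nonempty
  have h2 := finrank_Z (conn_univ hG) ⟨r⟩
  have h3 := Submodule.finrank_mono (Bnd_le M)
  omega

/-- On the sphere every cocycle is a coboundary. -/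
theorem coboundary_of_even (M : FacialWalks G F) (hL : Link M) (hG : G.Connected)
    (hχ : (Fintype.card V : ℤ) - G.edgeSet.ncard + Fintype.card F = 2)
    {X : V → V → ZMod 2} (hX : ∀ x y, X x y = X y x)
    (hf : ∀ f, ∑ t ∈ range (M.len f), X (M.walk f t) (M.walk f (t + 1)) = 0) :
    ∃ h : V → ZMod 2, ∀ x y, G.Adj x y → h x + h y = X x y := by
  by_contra hodd
  obtain ⟨M', _⟩ := exists_cover M hL hG hX hf hodd
  have h1 := euler_le_two M' (cover_connected (hX := hX) hG hodd)
  have h2 := cover_euler (G := G) (X := X) (hX := hX) (F := F)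
  omega

theorem triSphere_of_walks (M : FacialWalks G F) (hL : Link M) (hG : G.Connected)
    (hχ : (Fintype.card V : ℤ) - G.edgeSet.ncard + Fintype.card F = 2) (h3 : ∀ f, M.len f = 3)
    (hd : ∀ v a b : V, ∃ c, G.Adj v c ∧ c ≠ a ∧ c ≠ b) : TriSphere G (Tri M) := by
  classical
  refine ⟨?_, ?_, ?_, ?_, ?_, ?_, conn_univ hG, ?_⟩
  · rintro x y z ⟨f, h1, h2, h4⟩
    exact ⟨f, h2, h4, h1⟩
  · rintro x y z ⟨f, h1, h2, h4⟩
    exact ⟨f, h1.symm, h4.symm, h2.symm⟩
  · rintro x y z ⟨f, h1, _⟩
    exact adj_of_at M h1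
  · intro x
    obtain ⟨d, ν, fc, h⟩ := exists_rot M hL (hd x)
    exact ⟨d, ν, h.three, h.per, h.inj, h.adj, rot_tri_iff h3 h⟩
  · intro X hX hT
    refine coboundary_of_even M hL hG hχ hX fun f => ?_
    have h01 := (M.adj f 0 (by rw [h3]; omega)).ne
    have h12 := (M.adj f 1 (by rw [h3]; omega)).ne
    have h20 := (M.adj f 2 (by rw [h3]; omega)).ne
    have hc := M.closed f
    rw [h3] at hc
    rw [show 2 + 1 = 3 from rfl, hc] at h20
    have h4 := hT (M.walk f 0) (M.walk f 1) (M.walk f 2)
      ((tri_vs M h3 _ _ _).2 ⟨h01, h12, h20, f, rfl⟩)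
    rw [h3, sum_range_succ, sum_range_succ, sum_range_succ, range_zero, sum_empty, zero_add, hc]
    exact h4
  · intro z hz
    have heq : Bnd M = Z G Set.univ := by
      refine Submodule.eq_of_le_of_finrank_le (Bnd_le M) ?_
      have h1 : Fintype.card F ≤ Module.finrank (ZMod 2) (Bnd M) + 1 := face_rank M
      obtain ⟨r⟩ := hG.nonempty
      have h2 := finrank_Z (conn_univ hG) ⟨r⟩
      omega
    rw [← heq, mem_Bnd] at hz
    obtain ⟨I, rfl⟩ := hz
    refine ⟨fun x y w => if ∃ f ∈ I, vs M f = {x, y, w} then 1 else 0, ?_, ?_, ?_⟩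
    · intro x y w
      have h1 : ({x, y, w} : Finset V) = {y, w, x} := by
        ext u
        simp only [mem_insert, mem_singleton]
        tauto
      beta_reduce
      rw [h1]
    · intro x y w
      have h1 : ({x, y, w} : Finset V) = {y, x, w} := by
        ext u
        simp only [mem_insert, mem_singleton]
        tauto
      beta_reduce
      rw [h1]
    · intro x y a b hab ha hb
      beta_reduce
      rw [tri_vs M h3] at ha hb
      obtain ⟨hxy, hya, hax, f, hf⟩ := ha
      obtain ⟨_, hyb, hbx, g, hg⟩ := hb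
      have hfxy : At M f x y := by
        rw [at_iff M (h3 f), hf]
        exact ⟨hxy, by simp, by simp⟩
      have hgxy : At M g x y := by
        rw [at_iff M (h3 g), hg]
        exact ⟨hxy, by simp, by simp⟩
      have hne : ∀ f' g', vs M f' = {x, y, a} → vs M g' = {x, y, b} → f' ≠ g' := by
        rintro f' g' h1 h2 rfl
        have h4 : a ∈ ({x, y, b} : Finset V) := by
          rw [← h2, h1]
          simp
        simp only [mem_insert, mem_singleton] at h4
        rcases h4 with h4 | h4 | h4
        · exact hax h4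
        · exact hya h4.symm
        · exact hab h4
      have hfg : f ≠ g := hne f g hf hg
      have htw := M.twice x y (adj_of_at M hfxy)
      -- only the faces `f` and `g` contain the edge
      have honly : ∀ f', At M f' x y → f' = f ∨ f' = g := by
        intro f' h1
        by_contra hcon
        push Not at hcon
        have h2 : ({f', f, g} : Finset F).sum (fun f => trav (M.len f) (M.walk f) x y) ≤ 2 := by
          rw [← htw]
          exact sum_le_sum_of_subset (subset_univ _)
        rw [sum_insert (by simp [hcon.1, hcon.2]), sum_pair hfg] at h2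
        unfold At at h1 hfxy hgxy
        omega
      have h1 : ∀ J : Finset F, ∑ h ∈ J, trav (M.len h) (M.walk h) x y =
          (if f ∈ J then 1 else 0) + (if g ∈ J then 1 else 0) := by
        have h2 : trav (M.len f) (M.walk f) x y = 1 ∧ trav (M.len g) (M.walk g) x y = 1 := by
          have h4 : ({f, g} : Finset F).sum (fun f => trav (M.len f) (M.walk f) x y) ≤ 2 := by
            rw [← htw]
            exact sum_le_sum_of_subset (subset_univ _)
          rw [sum_pair hfg] at h4
          unfold At at hfxy hgxy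
          omega
        intro J
        have h5 : ∀ h ∈ J, trav (M.len h) (M.walk h) x y =
            (if h = f then 1 else 0) + (if h = g then 1 else 0) := by
          intro h _
          by_cases h6 : h = f
          · rw [if_pos h6, if_neg (fun h7 => hfg (h6.symm.trans h7)), h6, h2.1]
          · by_cases h7 : h = g
            · rw [if_neg h6, if_pos h7, h7, h2.2]
            · rw [if_neg h6, if_neg h7]
              by_contra h8
              rcases honly h h8 with h9 | h9
              · exact h6 h9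
              · exact h7 h9
        rw [sum_congr rfl h5, sum_add_distrib, sum_ite_eq', sum_ite_eq']
      rw [← bd_cast]
      unfold bd
      rw [h1]
      have h4 : (∃ h ∈ I, vs M h = {x, y, a}) ↔ f ∈ I := by
        constructor
        · rintro ⟨h, h5, h6⟩
          have h7 : At M h x y := by
            rw [at_iff M (h3 h), h6]
            exact ⟨hxy, by simp, by simp⟩
          rcases honly h h7 with h8 | h8
          · rw [← h8]
            exact h5
          · exact absurd h8 (hne h g h6 hg)
        · intro h5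
          exact ⟨f, h5, hf⟩
      have h5 : (∃ h ∈ I, vs M h = {x, y, b}) ↔ g ∈ I := by
        constructor
        · rintro ⟨h, h5, h6⟩
          have h7 : At M h x y := by
            rw [at_iff M (h3 h), h6]
            exact ⟨hxy, by simp, by simp⟩
          rcases honly h h7 with h8 | h8
          · exact absurd h8.symm (hne f h hf h6)
          · rw [← h8]
            exact h5
        · intro h5
          exact ⟨g, h5, hg⟩
      simp only [h4, h5]
      by_cases h6 : f ∈ I
      · by_cases h7 : g ∈ I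
        · rw [if_pos h6, if_pos h7, if_pos h6, if_pos h7]
          rfl
        · simp [h6, h7]
      · by_cases h7 : g ∈ I
        · simp [h6, h7]
        · simp [h6, h7]
  · have h1 := three_faces M h3
    rw [sum_deg]
    omega

end count

section cover

variable {V : Type} [DecidableEq V] {G : SimpleGraph V} {F : Type} [Fintype F]
  {X : V → V → ZMod 2} {hX : ∀ x y, X x y = X y x}

/-- The triangles of the cover project to triangles. -/
theorem tri_proj {M : FacialWalks G F} (h3 : ∀ f, M.len f = 3)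
    {M' : FacialWalks (cover G X hX) (F × ZMod 2)} (hlen : ∀ g, M'.len g = M.len g.1)
    (hwalk : ∀ g, M'.walk g = lft X (M.walk g.1) g.2) {p q r : V × ZMod 2} (h : Tri M' p q r) :
    Tri M p.1 q.1 r.1 := by
  have h3' : ∀ g, M'.len g = 3 := fun g => (hlen g).trans (h3 _)
  rw [tri_vs M' h3'] at h
  obtain ⟨h1, h2, h4, g, hg⟩ := h
  have hadj : ∀ u v, At M' g u v → u.1 ≠ v.1 := fun u v h => (adj_of_at M' h).1.ne
  have hat : At M' g p q ∧ At M' g q r ∧ At M' g r p := by
    refine ⟨?_, ?_, ?_⟩
    · rw [at_iff M' (h3' g), hg]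
      exact ⟨h1, by simp, by simp⟩
    · rw [at_iff M' (h3' g), hg]
      exact ⟨h2, by simp, by simp⟩
    · rw [at_iff M' (h3' g), hg]
      exact ⟨h4, by simp, by simp⟩
  rw [tri_vs M h3]
  refine ⟨hadj _ _ hat.1, hadj _ _ hat.2.1, hadj _ _ hat.2.2, g.1, ?_⟩
  have h5 : vs M g.1 = (vs M' g).image Prod.fst := by
    unfold vs
    rw [image_insert, image_insert, image_singleton, hwalk]
    rfl
  rw [h5, hg, image_insert, image_insert, image_singleton]

/-- The triangles of the cover are the lifts of the triangles. -/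
theorem tri_lift {M : FacialWalks G F} (h3 : ∀ f, M.len f = 3)
    (hf : ∀ f, ∑ t ∈ range (M.len f), X (M.walk f t) (M.walk f (t + 1)) = 0)
    {M' : FacialWalks (cover G X hX) (F × ZMod 2)} (hlen : ∀ g, M'.len g = M.len g.1)
    (hwalk : ∀ g, M'.walk g = lft X (M.walk g.1) g.2) {p q r : V × ZMod 2}
    (hT : Tri M p.1 q.1 r.1) (hpq : (cover G X hX).Adj p q) (hqr : (cover G X hX).Adj q r)
    (hrp : (cover G X hX).Adj r p) : Tri M' p q r := by
  have h3' : ∀ g, M'.len g = 3 := fun g => (hlen g).trans (h3 _)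
  rw [tri_vs M h3] at hT
  obtain ⟨h1, h2, h4, f, hfv⟩ := hT
  have hpair : ∀ u ∈ ({p, q, r} : Finset (V × ZMod 2)), ∀ v ∈ ({p, q, r} : Finset (V × ZMod 2)),
      u.1 ≠ v.1 → (cover G X hX).Adj u v := by
    intro u hu v hv hne
    simp only [mem_insert, mem_singleton] at hu hv
    rcases hu with rfl | rfl | rfl
    · rcases hv with rfl | rfl | rfl
      · exact absurd rfl hne
      · exact hpq
      · exact hrp.symm
    · rcases hv with rfl | rfl | rfl
      · exact hpq.symm
      · exact absurd rfl hne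
      · exact hqr
    · rcases hv with rfl | rfl | rfl
      · exact hrp
      · exact hqr.symm
      · exact absurd rfl hne
  have hmem : ∀ w ∈ vs M f, ∃ u ∈ ({p, q, r} : Finset (V × ZMod 2)), u.1 = w := by
    intro w hw
    rw [hfv] at hw
    simp only [mem_insert, mem_singleton] at hw
    rcases hw with rfl | rfl | rfl
    · exact ⟨p, by simp, rfl⟩
    · exact ⟨q, by simp, rfl⟩
    · exact ⟨r, by simp, rfl⟩
  obtain ⟨p0, hp0, hp1⟩ := hmem (M.walk f 0) (by simp [vs])
  obtain ⟨q0, hq0, hq1⟩ := hmem (M.walk f 1) (by simp [vs])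
  obtain ⟨r0, hr0, hr1⟩ := hmem (M.walk f 2) (by simp [vs])
  have h01 := (M.adj f 0 (by rw [h3]; omega)).ne
  have h12 := (M.adj f 1 (by rw [h3]; omega)).ne
  have h20 := (M.adj f 2 (by rw [h3]; omega)).ne
  have hc := M.closed f
  rw [h3] at hc
  rw [show 2 + 1 = 3 from rfl, hc] at h20
  have ha := hpair p0 hp0 q0 hq0 (by rw [hp1, hq1]; exact h01)
  have hb := hpair q0 hq0 r0 hr0 (by rw [hq1, hr1]; exact h12)
  rw [tri_vs M' h3']
  refine ⟨fun h => h1 (congrArg Prod.fst h), fun h => h2 (congrArg Prod.fst h),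
    fun h => h4 (congrArg Prod.fst h), (f, p0.2), ?_⟩
  have h5 : vs M' (f, p0.2) = {p0, q0, r0} := by
    unfold vs
    rw [hwalk]
    have e0 : lft X (M.walk f) p0.2 0 = p0 := by
      unfold lft
      rw [range_zero, sum_empty, add_zero, ← hp1]
    have e1 : lft X (M.walk f) p0.2 1 = q0 := by
      have e := lft_succ X (M.walk f) p0.2 0
      rw [e0] at e
      refine e.trans (Prod.ext hq1.symm ?_)
      change p0.2 + X (M.walk f 0) (M.walk f 1) = q0.2
      rw [ha.2, hp1, hq1]
    have e2 : lft X (M.walk f) p0.2 2 = r0 := by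
      have e := lft_succ X (M.walk f) p0.2 1
      rw [e1] at e
      refine e.trans (Prod.ext hr1.symm ?_)
      change q0.2 + X (M.walk f 1) (M.walk f 2) = r0.2
      rw [hb.2, hq1, hr1]
    rw [e0, e1, e2]
  rw [h5]
  refine eq_of_subset_of_card_le ?_ ?_
  · intro u hu
    simp only [mem_insert, mem_singleton] at hu
    rcases hu with rfl | rfl | rfl
    · exact hp0
    · exact hq0
    · exact hr0
  · have e1 : ({p0, q0, r0} : Finset (V × ZMod 2)).card = 3 := by
      refine card_eq_three.2 ⟨p0, q0, r0, ?_, ?_, ?_, rfl⟩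
      · rintro rfl
        exact h01 (hp1.symm.trans hq1)
      · rintro rfl
        exact h20 (hr1.symm.trans hp1)
      · rintro rfl
        exact h12 (hq1.symm.trans hr1)
    rw [e1]
    exact card_le_three

omit [DecidableEq V] in
/-- A cycle of length three in the cover projects to a contractible one. -/
theorem cover_three {p q r : V × ZMod 2} (h1 : (cover G X hX).Adj p q)
    (h2 : (cover G X hX).Adj q r) (h3 : (cover G X hX).Adj r p) :
    X p.1 q.1 + X q.1 r.1 + X r.1 p.1 = 0 := by
  have e1 := h1.2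
  have e2 := h2.2
  have e3 := h3.2
  rw [e2, e1] at e3
  have h : ∀ a b c d : ZMod 2, a = a + b + c + d → b + c + d = 0 := by decide
  exact h _ _ _ _ e3

variable [Fintype V]

/-- **The double cover of a triangulation of the projective plane** is a triangulated sphere, and
its triangles are the lifts of the triangles. -/
theorem cover_triSphere (M : FacialWalks G F) (hL : Link M) (hG : G.Connected)
    (hχ : (Fintype.card V : ℤ) - G.edgeSet.ncard + Fintype.card F = 1) (h3 : ∀ f, M.len f = 3)
    (hd : ∀ v a b : V, ∃ c, G.Adj v c ∧ c ≠ a ∧ c ≠ b) (hX : ∀ x y, X x y = X y x)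
    (hf : ∀ f, ∑ t ∈ range (M.len f), X (M.walk f t) (M.walk f (t + 1)) = 0)
    (hodd : ¬ ∃ h : V → ZMod 2, ∀ x y, G.Adj x y → h x + h y = X x y) :
    ∃ T : V × ZMod 2 → V × ZMod 2 → V × ZMod 2 → Prop, TriSphere (cover G X hX) T ∧
      (∀ p q r, T p q r ↔ Tri M p.1 q.1 r.1 ∧ (cover G X hX).Adj p q ∧ (cover G X hX).Adj q r ∧
        (cover G X hX).Adj r p) ∧
      (∀ p q r, T (anti p) (anti q) (anti r) ↔ T p q r) := by
  obtain ⟨M', hL', hlen, hwalk⟩ := exists_cover M hL hG hX hf hodd
  have h3' : ∀ g, M'.len g = 3 := fun g => (hlen g).trans (h3 _)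
  have key : ∀ p q r, Tri M' p q r ↔ Tri M p.1 q.1 r.1 ∧ (cover G X hX).Adj p q ∧
      (cover G X hX).Adj q r ∧ (cover G X hX).Adj r p := by
    intro p q r
    constructor
    · intro h
      refine ⟨tri_proj h3 hlen hwalk h, ?_⟩
      obtain ⟨g, h1, h2, h4⟩ := h
      exact ⟨adj_of_at M' h1, adj_of_at M' h2, adj_of_at M' h4⟩
    · rintro ⟨h1, h2, h4, h5⟩
      exact tri_lift h3 hf hlen hwalk h1 h2 h4 h5
  refine ⟨Tri M', triSphere_of_walks M' hL' (cover_connected hG hodd) ?_ h3' ?_, key, ?_⟩
  · have h2 := cover_euler (G := G) (X := X) (hX := hX) (F := F)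
    omega
  · rintro ⟨v, s⟩ a b
    obtain ⟨c, h1, h2, h4⟩ := hd v a.1 b.1
    exact ⟨(c, s + X v c), ⟨h1, rfl⟩, fun h => h2 (by rw [← h]), fun h => h4 (by rw [← h])⟩
  · intro p q r
    rw [key, key, anti_adj, anti_adj, anti_adj]
    rfl

end cover

end Pool.Agent.W986
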