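import Pool.Agent.W986.MinDeg
import Pool.Agent.W986.NoSep
import Pool.Agent.W986.Sphere

/-!
# The cover of a triangulation without contractible separating triangles

`cover_all`: in the context of `TriCol` the double cover is a triangulated sphere in which three
pairwise adjacent vertices always form a triangle and every vertex has at least four neighbours.
-/

set_option autoImplicit false

open Finset

namespace Pool.Agent.W986

open Pool.Agent.DC76

section

variable {V : Type} [DecidableEq V] {G : SimpleGraph V} {F : Type} [Fintype F]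

theorem tri_of_facial (M : FacialWalks G F) (h3 : ∀ f, M.len f = 3) {x y z : V} (hxy : x ≠ y)
    (hyz : y ≠ z) (hzx : z ≠ x) (h : Facial M x y z) : Tri M x y z := by
  obtain ⟨f, hf⟩ := h
  refine (tri_vs M h3 x y z).2 ⟨hxy, hyz, hzx, f, ?_⟩
  refine eq_of_subset_of_card_le ?_ ?_
  · intro w hw
    have h1 : ∀ t < 3, M.walk f t ∈ ({x, y, z} : Finset V) := by
      intro t ht
      have h2 := hf t ht
      simpa using h2
    unfold vs at hw
    rw [mem_insert, mem_insert, mem_singleton] at hw
    rcases hw with rfl | rfl | rfl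
    · exact h1 0 (by omega)
    · exact h1 1 (by omega)
    · exact h1 2 (by omega)
  · rw [vs_card M (h3 f)]
    exact card_le_three

variable {X : V → V → ZMod 2} {hX : ∀ x y, X x y = X y x}

theorem cover_noSep (M : FacialWalks G F) (h3 : ∀ f, M.len f = 3)
    (htri : ∀ x y z, G.Adj x y → G.Adj y z → G.Adj z x → X x y + X y z + X z x = 0 →
      Facial M x y z)
    {T : V × ZMod 2 → V × ZMod 2 → V × ZMod 2 → Prop}
    (hT : ∀ p q r, T p q r ↔ Tri M p.1 q.1 r.1 ∧ (cover G X hX).Adj p q ∧
      (cover G X hX).Adj q r ∧ (cover G X hX).Adj r p) : NoSep (cover G X hX) T := by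
  intro p q r h1 h2 h4
  refine (hT p q r).2 ⟨?_, h1, h2, h4⟩
  exact tri_of_facial M h3 h1.1.ne h2.1.ne h4.1.ne (htri _ _ _ h1.1 h2.1 h4.1 (cover_three h1 h2 h4))

omit [DecidableEq V] in
/-- The neighbours in the cover. -/
theorem cover_ncard (p : V × ZMod 2) :
    {q | (cover G X hX).Adj p q}.ncard = {y | G.Adj p.1 y}.ncard := by
  have h1 : {q | (cover G X hX).Adj p q} = (fun y => (y, p.2 + X p.1 y)) '' {y | G.Adj p.1 y} := by
    ext ⟨y, b⟩
    constructor
    · rintro ⟨h1, h2⟩
      exact ⟨y, h1, Prod.ext rfl h2.symm⟩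
    · rintro ⟨y', h1, h2⟩
      obtain ⟨rfl, rfl⟩ := Prod.mk.inj h2
      exact ⟨h1, rfl⟩
  rw [h1]
  exact Set.ncard_image_of_injective _ fun y y' h => (Prod.mk.inj h).1

/-- **The cover of a minimal triangulation.** -/
theorem cover_all [Fintype V] (M : FacialWalks G F) (hL : Link M) (hG : G.Connected)
    (h3 : ∀ f, M.len f = 3)
    (hχ : (Fintype.card V : ℤ) - G.edgeSet.ncard + Fintype.card F = 1)
    (hX : ∀ x y, X x y = X y x)
    (hf : ∀ f, ∑ t ∈ range (M.len f), X (M.walk f t) (M.walk f (t + 1)) = 0)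
    (hodd : ¬ ∃ h : V → ZMod 2, ∀ x y, G.Adj x y → h x + h y = X x y)
    (htri : ∀ x y z, G.Adj x y → G.Adj y z → G.Adj z x → X x y + X y z + X z x = 0 →
      Facial M x y z) :
    ∃ T : V × ZMod 2 → V × ZMod 2 → V × ZMod 2 → Prop, TriSphere (cover G X hX) T ∧
      (∀ p q r, T p q r ↔ Tri M p.1 q.1 r.1 ∧ (cover G X hX).Adj p q ∧ (cover G X hX).Adj q r ∧
        (cover G X hX).Adj r p) ∧
      (∀ p q r, T (anti p) (anti q) (anti r) ↔ T p q r) ∧ NoSep (cover G X hX) T ∧
      ∀ p, 4 ≤ {q | (cover G X hX).Adj p q}.ncard := by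
  -- there is an edge
  have hedge : ∀ v, ∃ w, G.Adj v w := by
    intro v
    by_contra hcon
    push Not at hcon
    apply hodd
    refine ⟨fun _ => 0, fun x y hxy => ?_⟩
    exfalso
    obtain ⟨p⟩ := hG.preconnected v x
    cases p with
    | nil => exact hcon _ hxy
    | cons h _ => exact hcon _ h
  have hd : ∀ v a b c : V, ∃ d, G.Adj v d ∧ d ≠ a ∧ d ≠ b ∧ d ≠ c := by
    intro v a b c
    obtain ⟨w, hw⟩ := hedge v
    exact four_nbrs hG M h3 hχ hX hf htri hw a b c
  obtain ⟨T, h1, h2, h4⟩ := cover_triSphere (X := X) M hL hG hχ h3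
    (fun v a b => by
      obtain ⟨d, h5, h6, h7, _⟩ := hd v a b b
      exact ⟨d, h5, h6, h7⟩) hX hf hodd
  refine ⟨T, h1, h2, h4, cover_noSep M h3 htri h2, fun p => ?_⟩
  rw [cover_ncard]
  by_contra hcon
  push Not at hcon
  classical
  have h5 : ({y | G.Adj p.1 y} : Set V).ncard ≤ 3 := by omega
  obtain ⟨a, b, c, h6⟩ : ∃ a b c : V, ({y | G.Adj p.1 y} : Set V) ⊆ {a, b, c} := by
    obtain ⟨w, hw⟩ := hedge p.1
    have key : ∀ s : Finset V, s.card ≤ 3 → ∃ a b c : V, (s : Set V) ⊆ {a, b, c} := by
      intro s hs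
      rcases s.eq_empty_or_nonempty with rfl | ⟨a, ha⟩
      · exact ⟨w, w, w, by simp⟩
      · rcases (s.erase a).eq_empty_or_nonempty with h7 | ⟨b, hb⟩
        · refine ⟨a, a, a, fun x hx => ?_⟩
          by_contra hne
          have : x ∈ s.erase a := mem_erase.2 ⟨fun h => hne (by simp [h]), hx⟩
          rw [h7] at this
          exact absurd this (notMem_empty x)
        · rcases ((s.erase a).erase b).eq_empty_or_nonempty with h7 | ⟨c, hc⟩
          · refine ⟨a, b, b, fun x hx => ?_⟩
            by_contra hne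
            have : x ∈ (s.erase a).erase b :=
              mem_erase.2 ⟨fun h => hne (by simp [h]),
                mem_erase.2 ⟨fun h => hne (by simp [h]), hx⟩⟩
            rw [h7] at this
            exact absurd this (notMem_empty x)
          · refine ⟨a, b, c, fun x hx => ?_⟩
            by_contra hne
            have : x ∈ ((s.erase a).erase b).erase c :=
              mem_erase.2 ⟨fun h => hne (by simp [h]), mem_erase.2 ⟨fun h => hne (by simp [h]),
                mem_erase.2 ⟨fun h => hne (by simp [h]), hx⟩⟩⟩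
            have h8 := card_pos.2 ⟨x, this⟩
            rw [card_erase_of_mem hc, card_erase_of_mem hb, card_erase_of_mem ha] at h8
            omega
    have h8 := key (Set.toFinite {y | G.Adj p.1 y}).toFinset
      (by rw [← Set.ncard_eq_toFinset_card]; exact h5)
    obtain ⟨a, b, c, h9⟩ := h8
    refine ⟨a, b, c, fun x hx => h9 ?_⟩
    simpa using hx
  obtain ⟨d, h7, h8, h9, h10⟩ := hd p.1 a b c
  rcases h6 h7 with h | h | h
  · exact h8 h
  · exact h9 h
  · exact h10 h

end

end Pool.Agent.W986
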