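import Pool.Agent.W986.Seam

/-!
# The double cover of a graph with facial walks
-/

set_option autoImplicit false

open Finset

namespace Pool.Agent.W986

open Pool.Agent.DC76

theorem zadd_self (a b : ZMod 2) : a + b + b = a := by
  revert a b
  decide

theorem zcases (a : ZMod 2) : a = 0 ∨ a = 1 := by
  revert a
  decide

/-- The lift of a walk. -/
def lft {V : Type} (X : V → V → ZMod 2) (w : ℕ → V) (s : ZMod 2) (t : ℕ) : V × ZMod 2 :=
  (w t, s + ∑ i ∈ range t, X (w i) (w (i + 1)))

theorem lft_succ {V : Type} (X : V → V → ZMod 2) (w : ℕ → V) (s : ZMod 2) (t : ℕ) :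
    lft X w s (t + 1) = (w (t + 1), (lft X w s t).2 + X (w t) (w (t + 1))) := by
  unfold lft
  rw [sum_range_succ, add_assoc]

section

variable {V : Type} {G : SimpleGraph V} {X : V → V → ZMod 2} {hX : ∀ x y, X x y = X y x}

theorem cover_adj {x y : V} {a b : ZMod 2} :
    (cover G X hX).Adj (x, a) (y, b) ↔ G.Adj x y ∧ b = a + X x y := Iff.rfl

/-- The shift to the other sheet. -/
theorem cover_shift {p q : V × ZMod 2} (s : ZMod 2) (h : (cover G X hX).Reachable p q) :
    (cover G X hX).Reachable (p.1, p.2 + s) (q.1, q.2 + s) := by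
  obtain ⟨w⟩ := h
  induction w with
  | nil => exact SimpleGraph.Reachable.refl _
  | @cons u v t h w ih =>
    refine SimpleGraph.Reachable.trans (SimpleGraph.Adj.reachable ?_) ih
    obtain ⟨h1, h2⟩ := h
    refine ⟨h1, ?_⟩
    change v.2 + s = u.2 + s + X u.1 v.1
    rw [h2]
    ring

theorem cover_lift {x y : V} (h : G.Reachable x y) (a : ZMod 2) :
    ∃ b, (cover G X hX).Reachable (x, a) (y, b) := by
  obtain ⟨w⟩ := h
  induction w generalizing a with
  | nil => exact ⟨a, SimpleGraph.Reachable.refl _⟩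
  | @cons u v t h w ih =>
    obtain ⟨b, hb⟩ := ih (a + X u v)
    exact ⟨b, SimpleGraph.Reachable.trans (SimpleGraph.Adj.reachable ⟨h, rfl⟩) hb⟩

/-- The cover is connected if `X` is not a coboundary. -/
theorem cover_connected (hG : G.Connected)
    (hodd : ¬ ∃ h : V → ZMod 2, ∀ x y, G.Adj x y → h x + h y = X x y) :
    (cover G X hX).Connected := by
  classical
  obtain ⟨r⟩ := hG.nonempty
  have key : ∀ p : V × ZMod 2, (cover G X hX).Reachable (r, 0) p := by
    by_cases h1 : (cover G X hX).Reachable (r, 0) (r, 1)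
    · rintro ⟨x, a⟩
      obtain ⟨b, hb⟩ := cover_lift (hX := hX) (hG.preconnected r x) (X := X) 0
      by_cases hab : b = a
      · rw [← hab]
        exact hb
      · have h2 : a = b + 1 := by
          clear hb
          revert hab
          revert a b
          decide
        have h3 := cover_shift 1 hb
        simp only [zero_add] at h3
        rw [h2]
        exact h1.trans h3
    · exfalso
      apply hodd
      choose h hh using fun x => cover_lift (hX := hX) (hG.preconnected r x) (X := X) 0
      refine ⟨h, fun x y hxy => ?_⟩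
      have h2 : (cover G X hX).Reachable (r, 0) (y, h x + X x y) :=
        (hh x).trans (SimpleGraph.Adj.reachable ⟨hxy, rfl⟩)
      have h3 : h x + X x y = h y := by
        by_contra hne
        have h4 : h x + X x y = h y + 1 := by
          revert hne
          generalize h x + X x y = a
          generalize h y = b
          revert a b
          decide
        apply h1
        have h5 := cover_shift 1 (hh y)
        simp only [zero_add] at h5
        rw [h4] at h2
        exact h2.trans h5.symm
      rw [← h3, ← add_assoc]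
      generalize h x = a
      generalize X x y = b
      revert a b
      decide
  have : Nonempty (V × ZMod 2) := ⟨(r, 0)⟩
  exact ⟨fun p q => (key p).symm.trans (key q)⟩

/-- `X` is not a coboundary if it is odd on a closed walk. -/
theorem odd_of_walk {n : ℕ} {w : ℕ → V} (hc : w n = w 0) (ha : ∀ t, t < n → G.Adj (w t) (w (t + 1)))
    (h1 : ∑ t ∈ range n, X (w t) (w (t + 1)) = 1) :
    ¬ ∃ h : V → ZMod 2, ∀ x y, G.Adj x y → h x + h y = X x y := by
  rintro ⟨h, hh⟩
  have h2 : ∀ m, m ≤ n → ∑ t ∈ range m, X (w t) (w (t + 1)) = h (w 0) + h (w m) := by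
    intro m
    induction m with
    | zero =>
      intro _
      rw [range_zero, sum_empty]
      generalize h (w 0) = a
      revert a
      decide
    | succ m ih =>
      intro hm
      rw [sum_range_succ, ih (by omega), ← hh _ _ (ha m (by omega))]
      generalize h (w 0) = a
      generalize h (w m) = b
      generalize h (w (m + 1)) = c
      revert a b c
      decide
  have h3 := h2 n le_rfl
  rw [h1, hc] at h3
  generalize h (w 0) = a at h3
  revert h3
  revert a
  decide

end

section

variable {V : Type} [Fintype V] {G : SimpleGraph V} {X : V → V → ZMod 2}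
  {hX : ∀ x y, X x y = X y x}

theorem cover_edges : (cover G X hX).edgeSet.ncard = 2 * G.edgeSet.ncard := by
  classical
  have h1 := (cover G X hX).sum_degrees_eq_twice_card_edges
  have h2 := G.sum_degrees_eq_twice_card_edges
  have h3 : ∀ p : V × ZMod 2, (cover G X hX).degree p = G.degree p.1 := by
    rintro ⟨x, a⟩
    rw [← SimpleGraph.card_neighborFinset_eq_degree, ← SimpleGraph.card_neighborFinset_eq_degree]
    symm
    refine card_bij (fun y _ => (y, a + X x y)) ?_ ?_ ?_
    · intro y hy
      rw [SimpleGraph.mem_neighborFinset] at hy ⊢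
      exact ⟨hy, rfl⟩
    · intro y _ z _ h
      exact congrArg Prod.fst h
    · rintro ⟨y, b⟩ hy
      rw [SimpleGraph.mem_neighborFinset] at hy
      refine ⟨y, ?_, ?_⟩
      · rw [SimpleGraph.mem_neighborFinset]
        exact hy.1
      · exact Prod.ext rfl hy.2.symm
  have h4 : ∑ p : V × ZMod 2, (cover G X hX).degree p = 2 * ∑ x, G.degree x := by
    rw [Fintype.sum_prod_type, mul_sum]
    refine sum_congr rfl fun x _ => ?_
    rw [sum_congr rfl fun a _ => h3 (x, a)]
    change ∑ _a : ZMod 2, G.degree x = _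
    rw [sum_const, card_univ, ZMod.card, smul_eq_mul]
  have h5 : (cover G X hX).edgeSet.ncard = (cover G X hX).edgeFinset.card := by
    rw [← SimpleGraph.coe_edgeFinset, Set.ncard_coe_finset]
  have h6 : G.edgeSet.ncard = G.edgeFinset.card := by
    rw [← SimpleGraph.coe_edgeFinset, Set.ncard_coe_finset]
  rw [h5, h6]
  omega

/-- The Euler characteristic is doubled. -/
theorem cover_euler {F : Type} [Fintype F] :
    (Fintype.card (V × ZMod 2) : ℤ) - (cover G X hX).edgeSet.ncard + Fintype.card (F × ZMod 2) =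
      2 * ((Fintype.card V : ℤ) - G.edgeSet.ncard + Fintype.card F) := by
  rw [cover_edges (G := G) (X := X) (hX := hX), Fintype.card_prod, Fintype.card_prod, ZMod.card]
  push_cast
  ring

end

section

variable {V : Type} [DecidableEq V] {G : SimpleGraph V} {F : Type} [Fintype F]

/-- All the facial walks are non-empty, if there is an edge. -/
theorem len_pos (M : FacialWalks G F) (hE : ∃ x y, G.Adj x y) (f : F) : 0 < M.len f := by
  classical
  by_contra h0
  have h0 : M.len f = 0 := by omega
  have ht : ∀ u v, trav (M.len f) (M.walk f) u v = 0 := by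
    intro u v
    rw [h0]
    rfl
  by_cases h1 : ({f} : Finset F) = univ
  · obtain ⟨x, y, hxy⟩ := hE
    have h2 := M.twice x y hxy
    rw [← h1, sum_singleton, ht] at h2
    omega
  · obtain ⟨u, v, h2⟩ := M.dual {f} (singleton_nonempty f) h1
    rw [sum_singleton, ht] at h2
    omega

theorem trav_pos_of {n : ℕ} {w : ℕ → V} {t : ℕ} (ht : t < n) :
    1 ≤ trav n w (w t) (w (t + 1)) := by
  unfold trav
  exact card_pos.2 ⟨t, mem_filter.2 ⟨mem_range.2 ht, Or.inl ⟨rfl, rfl⟩⟩⟩

end

section

variable {V : Type} [DecidableEq V] {G : SimpleGraph V} {F : Type} [Fintype F]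

/-- Closed walks which traverse every edge twice and whose corners at every vertex form one cycle:
if the graph is connected, the faces are connected through edges. -/
theorem dual_of_link (len : F → ℕ) (walk : F → ℕ → V)
    (adj : ∀ f t, t < len f → G.Adj (walk f t) (walk f (t + 1)))
    (closed : ∀ f, walk f (len f) = walk f 0)
    (twice : ∀ u v, G.Adj u v → ∑ f, trav (len f) (walk f) u v = 2)
    (hlen : ∀ f, 0 < len f) (hG : G.Connected)
    (hL : ∀ (v : V) (N : Set V), (∃ a ∈ N, G.Adj v a) → (∃ a, a ∉ N ∧ G.Adj v a) →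
      ∃ f t, t < len f ∧ walk f (t + 1) = v ∧
        ¬ (walk f t ∈ N ↔ walk f ((t + 1) % len f + 1) ∈ N))
    (I : Finset F) (hI : I.Nonempty) (hI' : I ≠ univ) :
    ∃ u v, ∑ f ∈ I, trav (len f) (walk f) u v = 1 := by
  classical
  by_contra hcon
  push Not at hcon
  have hsub : ∀ u v, ∑ f ∈ I, trav (len f) (walk f) u v +
      ∑ f ∈ Iᶜ, trav (len f) (walk f) u v = ∑ f, trav (len f) (walk f) u v := fun u v =>
    sum_add_sum_compl I _
  have hin : ∀ f ∈ I, ∀ t, t < len f →
      ∑ g ∈ I, trav (len g) (walk g) (walk f t) (walk f (t + 1)) ≠ 0 := by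
    intro f hf t ht h0
    have h1 := trav_pos_of (w := walk f) ht
    rw [Finset.sum_eq_zero_iff] at h0
    have h2 := h0 f hf
    omega
  have hout : ∀ f, f ∉ I → ∀ t, t < len f →
      ∑ g ∈ I, trav (len g) (walk g) (walk f t) (walk f (t + 1)) = 0 := by
    intro f hf t ht
    have h1 := trav_pos_of (w := walk f) ht
    have h2 := hsub (walk f t) (walk f (t + 1))
    rw [twice _ _ (adj f t ht)] at h2
    have h3 : trav (len f) (walk f) (walk f t) (walk f (t + 1)) ≤
        ∑ g ∈ Iᶜ, trav (len g) (walk g) (walk f t) (walk f (t + 1)) :=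
      single_le_sum (f := fun g => trav (len g) (walk g) (walk f t) (walk f (t + 1)))
        (fun _ _ => Nat.zero_le _) (mem_compl.2 hf)
    have h4 := hcon (walk f t) (walk f (t + 1))
    omega
  have hcomm : ∀ u v, ∑ g ∈ I, trav (len g) (walk g) u v = ∑ g ∈ I, trav (len g) (walk g) v u := by
    intro u v
    refine sum_congr rfl fun g _ => ?_
    unfold trav
    congr 1
    ext t
    simp only [mem_filter]
    tauto
  -- all or none of the edges at a vertex
  have hall : ∀ v x y, G.Adj v x → G.Adj v y → ∑ g ∈ I, trav (len g) (walk g) v x ≠ 0 →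
      ∑ g ∈ I, trav (len g) (walk g) v y ≠ 0 := by
    intro v x y hx hy hx0 hy0
    obtain ⟨f, t, ht, hv, hN⟩ := hL v {z | ∑ g ∈ I, trav (len g) (walk g) v z ≠ 0}
      ⟨x, hx0, hx⟩ ⟨y, fun h => h hy0, hy⟩
    apply hN
    have h1 : (t + 1) % len f < len f := Nat.mod_lt _ (hlen f)
    have h2 : walk f ((t + 1) % len f) = v := by
      by_cases h3 : t + 1 < len f
      · rw [Nat.mod_eq_of_lt h3]
        exact hv
      · have h4 : t + 1 = len f := by omega
        rw [h4, Nat.mod_self, ← closed f, ← h4]
        exact hv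
    by_cases hf : f ∈ I
    · have h5 := hin f hf t ht
      have h6 := hin f hf _ h1
      rw [hv, hcomm] at h5
      rw [h2] at h6
      exact ⟨fun _ => h6, fun _ => h5⟩
    · have h5 := hout f hf t ht
      have h6 := hout f hf _ h1
      rw [hv, hcomm] at h5
      rw [h2] at h6
      exact ⟨fun h => absurd h5 h, fun h => absurd h6 h⟩
  obtain ⟨f0, hf0⟩ := hI
  obtain ⟨f1, hf1⟩ : ∃ f1, f1 ∉ I := by
    by_contra h
    push Not at h
    exact hI' (eq_univ_iff_forall.2 h)
  have hreach : ∀ u v, G.Walk u v →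
      (∃ x, G.Adj u x ∧ ∑ g ∈ I, trav (len g) (walk g) u x ≠ 0) →
      ∃ x, G.Adj v x ∧ ∑ g ∈ I, trav (len g) (walk g) v x ≠ 0 := by
    intro u v w
    induction w with
    | nil => exact fun h => h
    | @cons a b c h w ih =>
      rintro ⟨x, hx, hx0⟩
      refine ih ⟨a, h.symm, ?_⟩
      rw [hcomm]
      exact hall a x b hx h hx0
  obtain ⟨w⟩ := hG.preconnected (walk f0 0) (walk f1 0)
  obtain ⟨x, hx, hx0⟩ := hreach _ _ w ⟨_, adj f0 0 (hlen f0), hin f0 hf0 0 (hlen f0)⟩
  exact hall _ x _ hx (adj f1 0 (hlen f1)) hx0 (hout f1 hf1 0 (hlen f1))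

/-- The lifts of a walk traverse the two lifts of an edge as often as the walk traverses the
edge. -/
theorem sum_trav_lft {X : V → V → ZMod 2} (hX : ∀ x y, X x y = X y x) {n : ℕ} {w : ℕ → V}
    {x y : V} (hxy : x ≠ y) (a : ZMod 2) :
    ∑ s, trav n (lft X w s) (x, a) (y, a + X x y) = trav n w x y := by
  unfold trav
  simp only [card_filter]
  rw [sum_comm]
  refine sum_congr rfl fun t _ => ?_
  simp only [lft_succ]
  simp only [lft, Prod.mk.injEq]
  generalize (∑ i ∈ range t, X (w i) (w (i + 1))) = σ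
  by_cases h1 : w t = x ∧ w (t + 1) = y
  · rw [if_pos (Or.inl h1)]
    have h2 : ∀ s : ZMod 2, ((w t = x ∧ s + σ = a) ∧ w (t + 1) = y ∧
        s + σ + X (w t) (w (t + 1)) = a + X x y ∨ (w t = y ∧ s + σ = a + X x y) ∧
        w (t + 1) = x ∧ s + σ + X (w t) (w (t + 1)) = a) ↔ s = a + σ := by
      intro s
      rw [h1.1, h1.2]
      constructor
      · rintro (h | h)
        · rw [← h.1.2, zadd_self]
        · exact absurd h.1.1 hxy
      · intro h
        left
        rw [h, zadd_self]
        exact ⟨⟨rfl, rfl⟩, rfl, rfl⟩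
    simp only [h2]
    rw [Finset.sum_ite_eq' univ (a + σ) (fun _ => 1), if_pos (mem_univ _)]
  · by_cases h3 : w t = y ∧ w (t + 1) = x
    · rw [if_pos (Or.inr h3)]
      have h2 : ∀ s : ZMod 2, ((w t = x ∧ s + σ = a) ∧ w (t + 1) = y ∧
          s + σ + X (w t) (w (t + 1)) = a + X x y ∨ (w t = y ∧ s + σ = a + X x y) ∧
          w (t + 1) = x ∧ s + σ + X (w t) (w (t + 1)) = a) ↔ s = a + X x y + σ := by
        intro s
        rw [h3.1, h3.2]
        constructor
        · rintro (h | h)
          · exact absurd h.1.1.symm hxy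
          · rw [← h.1.2, zadd_self]
        · intro h
          right
          rw [h, zadd_self, hX y x, zadd_self]
          exact ⟨⟨rfl, rfl⟩, rfl, rfl⟩
      simp only [h2]
      rw [Finset.sum_ite_eq' univ (a + X x y + σ) (fun _ => 1), if_pos (mem_univ _)]
    · rw [if_neg (by tauto)]
      refine sum_eq_zero fun s _ => ?_
      rw [if_neg (by tauto)]

/-- The facial walks of the double cover. -/
theorem exists_cover (M : FacialWalks G F) (hL : Link M) (hG : G.Connected)
    {X : V → V → ZMod 2} (hX : ∀ x y, X x y = X y x)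
    (hf : ∀ f, ∑ t ∈ range (M.len f), X (M.walk f t) (M.walk f (t + 1)) = 0)
    (hodd : ¬ ∃ h : V → ZMod 2, ∀ x y, G.Adj x y → h x + h y = X x y) :
    ∃ M' : FacialWalks (cover G X hX) (F × ZMod 2), Link M' ∧
      (∀ g, M'.len g = M.len g.1) ∧ ∀ g, M'.walk g = lft X (M.walk g.1) g.2 := by
  have hE : ∃ x y, G.Adj x y := by
    by_contra hcon
    push Not at hcon
    exact hodd ⟨fun _ => 0, fun x y h => absurd h (hcon x y)⟩
  have hlen := len_pos M hE
  have hadj : ∀ (g : F × ZMod 2) t, t < M.len g.1 →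
      (cover G X hX).Adj (lft X (M.walk g.1) g.2 t) (lft X (M.walk g.1) g.2 (t + 1)) := by
    intro g t ht
    rw [lft_succ]
    exact ⟨M.adj g.1 t ht, rfl⟩
  have hclosed : ∀ g : F × ZMod 2,
      lft X (M.walk g.1) g.2 (M.len g.1) = lft X (M.walk g.1) g.2 0 := by
    intro g
    unfold lft
    rw [hf, M.closed, range_zero, sum_empty]
  have htwice : ∀ u v, (cover G X hX).Adj u v →
      ∑ g : F × ZMod 2, trav (M.len g.1) (lft X (M.walk g.1) g.2) u v = 2 := by
    rintro ⟨x, a⟩ ⟨y, b⟩ ⟨h1, h2⟩
    change b = a + X x y at h2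
    rw [h2, Fintype.sum_prod_type]
    refine Eq.trans (sum_congr rfl fun f _ => ?_) (M.twice x y h1)
    exact sum_trav_lft hX h1.ne a
  have hlink : ∀ (v : V × ZMod 2) (N : Set (V × ZMod 2)), (∃ a ∈ N, (cover G X hX).Adj v a) →
      (∃ a, a ∉ N ∧ (cover G X hX).Adj v a) →
      ∃ (g : F × ZMod 2) (t : ℕ), t < M.len g.1 ∧ lft X (M.walk g.1) g.2 (t + 1) = v ∧
        ¬ (lft X (M.walk g.1) g.2 t ∈ N ↔
          lft X (M.walk g.1) g.2 ((t + 1) % M.len g.1 + 1) ∈ N) := by
    rintro ⟨v, a⟩ N ⟨⟨x, b⟩, hx, hx1, hx2⟩ ⟨⟨y, c⟩, hy, hy1, hy2⟩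
    change b = a + X v x at hx2
    change c = a + X v y at hy2
    obtain ⟨f, t, ht, hv, hN⟩ := hL v {z | (z, a + X v z) ∈ N}
      ⟨x, by rw [Set.mem_ofPred_eq, ← hx2]; exact hx, hx1⟩
      ⟨y, by rw [Set.mem_ofPred_eq, ← hy2]; exact hy, hy1⟩
    refine ⟨(f, a + ∑ i ∈ range (t + 1), X (M.walk f i) (M.walk f (i + 1))), t, ht, ?_, ?_⟩
    · unfold lft
      rw [hv, zadd_self]
    · have h1 : lft X (M.walk f) (a + ∑ i ∈ range (t + 1), X (M.walk f i) (M.walk f (i + 1))) t =
          (M.walk f t, a + X v (M.walk f t)) := by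
        unfold lft
        rw [sum_range_succ, hv, hX v (M.walk f t)]
        congr 1
        have h5 : ∀ p q r : ZMod 2, p + (q + r) + q = p + r := by decide
        exact h5 _ _ _
      have h2 : lft X (M.walk f) (a + ∑ i ∈ range (t + 1), X (M.walk f i) (M.walk f (i + 1)))
          ((t + 1) % M.len f) = (v, a) := by
        by_cases h3 : t + 1 < M.len f
        · rw [Nat.mod_eq_of_lt h3]
          unfold lft
          rw [hv, zadd_self]
        · have h4 : t + 1 = M.len f := by omega
          rw [h4, Nat.mod_self]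
          unfold lft
          rw [hf, range_zero, sum_empty, ← M.closed f, ← h4, hv]
          simp
      have h3 := lft_succ X (M.walk f)
        (a + ∑ i ∈ range (t + 1), X (M.walk f i) (M.walk f (i + 1))) ((t + 1) % M.len f)
      have h4 : M.walk f ((t + 1) % M.len f) = v := congrArg Prod.fst h2
      rw [h2, h4] at h3
      change ¬ (lft X (M.walk f) _ t ∈ N ↔ lft X (M.walk f) _ ((t + 1) % M.len f + 1) ∈ N)
      rw [h1, h3]
      exact hN
  refine ⟨⟨fun g => M.len g.1, fun g => lft X (M.walk g.1) g.2, hclosed, hadj, htwice, ?_⟩,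
    hlink, fun _ => rfl, fun _ => rfl⟩
  exact dual_of_link (fun g : F × ZMod 2 => M.len g.1) (fun g => lft X (M.walk g.1) g.2) hadj
    hclosed htwice (fun g => hlen g.1) (cover_connected hG hodd) hlink

end

end Pool.Agent.W986
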