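import Pool.Agent.W986.Disjoint

/-!
# Crossing closed curves through a vertex
-/

set_option autoImplicit false

open Finset

namespace Pool.Agent.W986

open Pool.Agent.DC76

variable {V : Type} [Fintype V] [DecidableEq V] {G : SimpleGraph V} {F : Type} [Fintype F]

/-- `z` is a closed curve through `v`, with the two edges `va`, `vb` at `v`, all other vertices
in `K`. -/
structure Curve (G : SimpleGraph V) (K : Set V) (v a b : V) (z : V → V → ZMod 2) : Prop where
  cyc : z ∈ Z G Set.univ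
  supp : ∀ x y, z x y ≠ 0 → x ∈ K ∨ x = v
  at_v : ∀ x, z v x ≠ 0 ↔ x = a ∨ x = b

/-- The relation of `G` inside `K`. -/
def Lnk (G : SimpleGraph V) (K : Set V) (a b : V) : Prop :=
  Relation.ReflTransGen (fun x y => y ∈ K ∧ G.Adj x y) a b

omit [Fintype V] [DecidableEq V] in
theorem Lnk.mem {K : Set V} {a b : V} (h : Lnk G K a b) (ha : a ∈ K) : b ∈ K := by
  rcases h.cases_tail with h1 | ⟨c, _, h1⟩
  · rw [h1]
    exact ha
  · exact h1.1

omit [Fintype V] [DecidableEq V] in
theorem Lnk.both {K : Set V} {a b : V} (h : Lnk G K a b) (ha : a ∈ K) :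
    Relation.ReflTransGen (fun x y => G.Adj x y ∧ x ∈ K ∧ y ∈ K) a b := by
  induction h with
  | refl => exact Relation.ReflTransGen.refl
  | @tail c d h1 h2 ih => exact ih.tail ⟨h2.2, Lnk.mem h1 ha, h2.1⟩

omit [Fintype V] [DecidableEq V] in
theorem Lnk.symm {K : Set V} {a b : V} (h : Lnk G K a b) (ha : a ∈ K) : Lnk G K b a := by
  have h1 := h.both ha
  clear h
  induction h1 with
  | refl => exact Relation.ReflTransGen.refl
  | tail _ h3 ih => exact Relation.ReflTransGen.head ⟨h3.2.1, h3.1.symm⟩ ih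

theorem exists_curve {K : Set V} {v a b : V} (hv : v ∉ K) (ha : a ∈ K) (hab : a ≠ b)
    (hva : G.Adj v a) (hvb : G.Adj v b) (h : Lnk G K a b) : ∃ z, Curve G K v a b z := by
  obtain ⟨J, hJ1, hJ2, hJ3⟩ := join_path (H := fun x y => G.Adj x y ∧ x ∈ K ∧ y ∈ K)
    (fun x y h => ⟨h.1.symm, h.2.2, h.2.1⟩) (fun x h => G.irrefl h.1) (h.both ha)
  have hbK : b ∈ K := h.mem ha
  refine ⟨J + ed v a + ed v b, ⟨fun x y => ?_, fun x y h => ⟨?_, Set.mem_univ _, Set.mem_univ _⟩,
    fun x => ?_⟩, fun x y h => ?_, fun x => ?_⟩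
  · simp only [Pi.add_apply]
    rw [hJ1 x y, ed_symm v a x y, ed_symm v b x y]
  · by_contra hcon
    have h1 : J x y = 0 := by
      by_contra h2
      exact hcon (hJ2 x y h2).1
    have h2 : ed v a x y = 0 := by
      by_contra h3
      rcases ed_eq h3 with ⟨rfl, rfl⟩ | ⟨rfl, rfl⟩
      · exact hcon hva
      · exact hcon hva.symm
    have h3 : ed v b x y = 0 := by
      by_contra h3
      rcases ed_eq h3 with ⟨rfl, rfl⟩ | ⟨rfl, rfl⟩
      · exact hcon hvb
      · exact hcon hvb.symm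
    apply h
    simp only [Pi.add_apply]
    rw [h1, h2, h3]
    rfl
  · simp only [Pi.add_apply]
    rw [Finset.sum_add_distrib, Finset.sum_add_distrib, hJ3, ed_bd hva.ne x, ed_bd hvb.ne x]
    have h4 : ∀ p q s : ZMod 2, p + q + (s + p) + (s + q) = 0 := by decide
    exact h4 _ _ _
  · by_contra hcon
    push Not at hcon
    have h1 : J x y = 0 := by
      by_contra h2
      exact hcon.1 (hJ2 x y h2).2.1
    have h2 : ed v a x y = 0 := by
      by_contra h3
      rcases ed_eq h3 with ⟨h4, _⟩ | ⟨h4, _⟩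
      · exact hcon.2 h4
      · exact hcon.1 (h4 ▸ ha)
    have h3 : ed v b x y = 0 := by
      by_contra h3
      rcases ed_eq h3 with ⟨h4, _⟩ | ⟨h4, _⟩
      · exact hcon.2 h4
      · exact hcon.1 (h4 ▸ hbK)
    apply h
    simp only [Pi.add_apply]
    rw [h1, h2, h3]
    rfl
  · have h1 : J v x = 0 := by
      by_contra h2
      exact hv (hJ2 v x h2).2.1
    have key : ∀ c, v ≠ c → (ed v c v x ≠ 0 ↔ x = c) := by
      intro c hc
      constructor
      · intro h3
        rcases ed_eq h3 with ⟨_, h4⟩ | ⟨h4, _⟩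
        · exact h4
        · exact absurd h4 hc
      · rintro rfl
        rw [ed_left]
        exact one_ne_zero
    simp only [Pi.add_apply]
    rw [h1, zero_add]
    by_cases hxa : x = a
    · have h3 : ed v b v x = 0 := by
        by_contra h3
        exact hab (hxa.symm.trans ((key b hvb.ne).1 h3))
      rw [h3, add_zero]
      constructor
      · intro _
        exact Or.inl hxa
      · intro _
        exact (key a hva.ne).2 hxa
    · have h3 : ed v a v x = 0 := by
        by_contra h3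
        exact hxa ((key a hva.ne).1 h3)
      rw [h3, zero_add, key b hvb.ne]
      constructor
      · intro h4
        exact Or.inr h4
      · rintro (h4 | h4)
        · exact absurd h4 hxa
        · exact h4

omit [Fintype V] in
theorem IsRot.ne {M : FacialWalks G F} {v : V} {d : ℕ} {ν : ℕ → V} {fc : ℕ → F}
    (h : IsRot M v d ν fc) {i j : ℕ} (h1 : i < j) (h2 : j < i + d) : ν i ≠ ν j := by
  intro hij
  have hd : 0 < d := by have := h.three; omega
  have hper : ∀ k j, ν (j + d * k) = ν j := by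
    intro k
    induction k with
    | zero => intro j; rfl
    | succ k ih =>
      intro j
      rw [Nat.mul_succ, ← add_assoc, h.per]
      exact ih j
  have hmod : ∀ j, ν (j % d) = ν j := by
    intro j
    have h3 := hper (j / d) (j % d)
    rw [Nat.mod_add_div] at h3
    exact h3.symm
  rw [← hmod i, ← hmod j] at hij
  have h3 := h.inj _ (Nat.mod_lt _ hd) _ (Nat.mod_lt _ hd) hij
  have h4 : i ≡ j [MOD d] := h3
  have h5 := (Nat.modEq_iff_dvd' h1.le).1 h4
  have h6 := Nat.le_of_dvd (by omega) h5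
  omega

/-- If connected sets `K`, `L` outside `v` are disjoint and contain neighbours of `v` which
interleave in the rotation at `v`, then the closed curves through `v` and `K` are not boundaries. -/
theorem Curve.not_bnd {M : FacialWalks G F} {v : V} {d : ℕ} {ν : ℕ → V} {fc : ℕ → F}
    (h : IsRot M v d ν fc) (hL : Link M) {K L : Set V} (hKL : Disjoint K L) (hvL : v ∉ L)
    {p j q k : ℕ} (hpj : p < j) (hjq : j < q) (hqk : q < k) (hkp : k < p + d)
    (hjL : ν j ∈ L) (hjk : Lnk G L (ν j) (ν k)) {z : V → V → ZMod 2}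
    (hz : Curve G K v (ν p) (ν q) z) : z ∉ Bnd M := by
  intro hB
  obtain ⟨I, hI⟩ := (mem_Bnd M z).1 hB
  have hbd : ∀ x y, ((bd M I x y : ℕ) : ZMod 2) = z x y := by
    intro x y
    rw [bd_cast, ← hI]
  refine noncross h hL I p q (by omega) ?_ ?_ L ?_ j k hpj hjq hqk hkp hjL hjk
  · have h1 : z v (ν q) ≠ 0 := (hz.at_v (ν q)).2 (Or.inr rfl)
    have h2 := bd_le M I (h.adj' q)
    have h3 := hbd v (ν q)
    have h4 : bd M I v (ν q) = 0 ∨ bd M I v (ν q) = 1 ∨ bd M I v (ν q) = 2 := by omega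
    rcases h4 with h4 | h4 | h4
    · rw [h4, Nat.cast_zero] at h3
      exact absurd h3.symm h1
    · exact h4
    · rw [h4] at h3
      exact absurd (h3.symm.trans (by decide)) h1
  · intro i h1 h2 h3 h4
    have h5 := hbd v (ν i)
    rw [h4, Nat.cast_one] at h5
    have h6 : z v (ν i) ≠ 0 := by
      rw [← h5]
      exact one_ne_zero
    rcases (hz.at_v (ν i)).1 h6 with h7 | h7
    · exact h.ne h1 h2 h7.symm
    · rcases Nat.lt_or_gt_of_ne h3 with h8 | h8
      · exact h.ne h8 (by omega) h7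
      · exact h.ne h8 (by omega) h7.symm
  · intro x hx y _ h4
    have h5 := hbd x y
    rw [h4, Nat.cast_one] at h5
    have h6 : z x y ≠ 0 := by
      rw [← h5]
      exact one_ne_zero
    rcases hz.supp x y h6 with h7 | h7
    · exact Set.disjoint_left.1 hKL h7 hx
    · exact hvL (h7 ▸ hx)

/-- On the sphere every cycle is a boundary. -/
theorem sphere_Bnd (hG : Conn G Set.univ) (M : FacialWalks G F) (hV : Nonempty V)
    (hχ : (2 : ℤ) ≤ (Fintype.card V : ℤ) - G.edgeSet.ncard + Fintype.card F)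
    {z : V → V → ZMod 2} (hz : z ∈ Z G Set.univ) : z ∈ Bnd M := by
  have h1 : Fintype.card F ≤ Module.finrank (ZMod 2) (Bnd M) + 1 := face_rank M
  have h2 := finrank_Z hG hV
  have h3 : Bnd M = Z G Set.univ := Submodule.eq_of_le_of_finrank_le (Bnd_le M) (by omega)
  rw [h3]
  exact hz

/-- On the sphere Kempe chains do not cross. -/
theorem sphere_noncross (hG : Conn G Set.univ) {M : FacialWalks G F}
    (hχ : (2 : ℤ) ≤ (Fintype.card V : ℤ) - G.edgeSet.ncard + Fintype.card F)
    {v : V} {d : ℕ} {ν : ℕ → V} {fc : ℕ → F} (h : IsRot M v d ν fc) (hL : Link M) {K L : Set V}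
    (hKL : Disjoint K L) (hvK : v ∉ K) (hvL : v ∉ L) {p j q k : ℕ} (hpj : p < j) (hjq : j < q)
    (hqk : q < k) (hkp : k < p + d) (hpK : ν p ∈ K) (hpq : Lnk G K (ν p) (ν q))
    (hjL : ν j ∈ L) (hjk : Lnk G L (ν j) (ν k)) : False := by
  obtain ⟨z, hz⟩ := exists_curve hvK hpK (h.ne (show p < q by omega) (by omega)) (h.adj' p)
    (h.adj' q) hpq
  exact hz.not_bnd h hL hKL hvL hpj hjq hqk hkp hjL hjk (sphere_Bnd hG M ⟨v⟩ hχ hz.cyc)

/-- On the projective plane: if disjoint connected sets `K ⊆ P`, `L ⊆ Q` cross at `v`, then the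
closed curves through `v` and `K`, and through `v` and `L`, are not boundaries, and all the cycles
inside `P` and inside `Q` are boundaries (`v` is pivotal for `P | Q`). -/
theorem pivotal (hG : Conn G Set.univ) {M : FacialWalks G F}
    (hχ : (1 : ℤ) ≤ (Fintype.card V : ℤ) - G.edgeSet.ncard + Fintype.card F)
    {v : V} {d : ℕ} {ν : ℕ → V} {fc : ℕ → F} (h : IsRot M v d ν fc) (hL : Link M)
    {P Q K L : Set V} (hPQ : Disjoint P Q) (hvP : v ∉ P) (hvQ : v ∉ Q) (hKP : K ⊆ P) (hLQ : L ⊆ Q)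
    {p j q k : ℕ} (hpj : p < j) (hjq : j < q) (hqk : q < k) (hkp : k < p + d) (hpK : ν p ∈ K)
    (hpq : Lnk G K (ν p) (ν q)) (hjL : ν j ∈ L) (hjk : Lnk G L (ν j) (ν k)) :
    (∀ z, Curve G K v (ν p) (ν q) z → z ∉ Bnd M) ∧ (∀ z, Curve G L v (ν j) (ν k) z → z ∉ Bnd M) ∧
      (∀ z ∈ Z G Set.univ, (∀ x y, z x y ≠ 0 → x ∈ P) → z ∈ Bnd M) ∧
      (∀ z ∈ Z G Set.univ, (∀ x y, z x y ≠ 0 → x ∈ Q) → z ∈ Bnd M) := by
  have hKL : Disjoint K L := Set.disjoint_of_subset hKP hLQ hPQ
  have hvK : v ∉ K := fun h1 => hvP (hKP h1)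
  have hvL : v ∉ L := fun h1 => hvQ (hLQ h1)
  have h1 : ∀ z, Curve G K v (ν p) (ν q) z → z ∉ Bnd M := fun z hz =>
    hz.not_bnd h hL hKL hvL hpj hjq hqk hkp hjL hjk
  have h2 : ∀ z, Curve G L v (ν j) (ν k) z → z ∉ Bnd M := by
    intro z hz
    have hqK : ν q ∈ K := hpq.mem hpK
    refine hz.not_bnd h hL hKL.symm hvK (p := j) (j := q) (q := k) (k := p + d) hjq hqk hkp
      (by omega) hqK ?_
    rw [h.per]
    exact hpq.symm hpK
  refine ⟨h1, h2, ?_, ?_⟩
  · intro z hz hzP
    obtain ⟨y, hy⟩ := exists_curve hvL hjL (h.ne (show j < k by omega) (by omega)) (h.adj' j)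
      (h.adj' k) hjk
    have hsep : ∀ a b, y a b ≠ 0 → a ∉ P := by
      intro a b hab
      rcases hy.supp a b hab with h4 | h4
      · exact fun h5 => Set.disjoint_left.1 hPQ h5 (hLQ h4)
      · rw [h4]
        exact hvP
    rcases disjoint_cycles hG M hχ P hz hy.cyc hzP hsep with h3 | h3
    · exact h3
    · exact absurd h3 (h2 y hy)
  · intro z hz hzQ
    obtain ⟨y, hy⟩ := exists_curve hvK hpK (h.ne (show p < q by omega) (by omega)) (h.adj' p)
      (h.adj' q) hpq
    have hsep : ∀ a b, y a b ≠ 0 → a ∉ Q := by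
      intro a b hab
      rcases hy.supp a b hab with h4 | h4
      · exact fun h5 => Set.disjoint_left.1 hPQ (hKP h4) h5
      · rw [h4]
        exact hvQ
    rcases disjoint_cycles hG M hχ Q hz hy.cyc hzQ hsep with h3 | h3
    · exact h3
    · exact absurd h3 (h1 y hy)

end Pool.Agent.W986
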