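import Mathlib.Data.Nat.Notation
import Mathlib.Util.CompileInductive

/-!
# Certificate trees for local configurations: the Boolean functions

The functions of `SubTree.lean` which are evaluated by the kernel. This file does not import the
topological part, so that the modules with the certificates do not depend on it. The definitions
use the recursors, for the evaluation by the kernel.
-/

set_option autoImplicit false

namespace Pool.Agent.W986

namespace ST

/-- The value of `f` at `n`, where `n` is evaluated first. -/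
def frc {α : Type} (n : ℕ) (f : ℕ → α) : α :=
  @Nat.rec (fun _ => α) (f 0) (fun p _ => f (Nat.succ p)) n

/-- The value of `f` at the list `l`, which is evaluated first. -/
def frcH {α : Type} (l : List ℕ) (f : List ℕ → α) : α :=
  @List.rec ℕ (fun _ => α) (f []) (fun x t _ => f (x :: t)) l

/-- `if b then x else y` -/
def cf {α : Type} (b : Bool) (x y : α) : α := @Bool.rec (fun _ => α) y x b

/-- The entry number `n` of a list. -/
def lnth (l : List ℕ) : ℕ → ℕ :=
  @List.rec ℕ (fun _ => ℕ → ℕ) (fun _ => 0)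
    (fun x _ ih n => @Nat.rec (fun _ => ℕ) x (fun m _ => ih m) n) l

/-- The length. -/
def len (l : List ℕ) : ℕ := @List.rec ℕ (fun _ => ℕ) 0 (fun _ _ ih => Nat.succ ih) l

/-- Append. -/
def app (a b : List ℕ) : List ℕ := @List.rec ℕ (fun _ => List ℕ) b (fun x _ ih => x :: ih) a

/-- Drop. -/
def drp (l : List ℕ) : ℕ → List ℕ :=
  @List.rec ℕ (fun _ => ℕ → List ℕ) (fun _ => [])
    (fun x l ih n => @Nat.rec (fun _ => List ℕ) (x :: l) (fun m _ => ih m) n) l

/-- Take. -/
def tke (l : List ℕ) : ℕ → List ℕ :=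
  @List.rec ℕ (fun _ => ℕ → List ℕ) (fun _ => [])
    (fun x _ ih n => @Nat.rec (fun _ => List ℕ) [] (fun m _ => x :: ih m) n) l

/-- Map. -/
def mpL (g : ℕ → ℕ) (l : List ℕ) : List ℕ :=
  @List.rec ℕ (fun _ => List ℕ) [] (fun x _ ih => g x :: ih) l

/-- The reversed list, in front of another list. -/
def rvs (l : List ℕ) : List ℕ → List ℕ :=
  @List.rec ℕ (fun _ => List ℕ → List ℕ) (fun a => a) (fun x _ ih a => ih (x :: a)) l

/-- The position of `v`. -/
def posn (l : List ℕ) (v : ℕ) : ℕ :=
  @List.rec ℕ (fun _ => ℕ) 0 (fun x _ ih => cf (Nat.beq x v) 0 (Nat.succ ih)) l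

/-- `p` is a beginning of the list `l`. -/
def pre (p : List ℕ) : List ℕ → Bool :=
  @List.rec ℕ (fun _ => List ℕ → Bool) (fun _ => true)
    (fun x _ ih l => @List.rec ℕ (fun _ => Bool) false
      (fun y l' _ => cf (Nat.beq x y) (ih l') false) l) p

/-- The lists `l`, `p` are equal up to rotation and reflection. -/
def same (l p : List ℕ) : Bool :=
  @List.rec ℕ (fun _ => Bool) false
    (fun x p' _ =>
      cf (Nat.beq (len l) (Nat.succ (len p')))
        (frc (posn l x) fun i => frcH (drp (app l l) i) fun r =>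
          cf (pre (x :: p') r) true (pre (x :: rvs p' []) r)) false) p

/-- What is known around a vertex: the rotation at the labels of `lk`, lower bounds for the
degrees, and bounds for `kap`; all labels are smaller than `n`. -/
structure Patch where
  /-- number of labels -/
  n : ℕ
  /-- rotations -/
  lk : List (ℕ × List ℕ)
  /-- lower bounds for the degrees -/
  lb : List (ℕ × ℕ)
  /-- upper bounds for `kap` -/
  kb : List (ℕ × ℕ)
  /-- lower bounds for `kap` -/
  kg : List (ℕ × ℕ)

/-- The list at the label `v`. -/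
def findL (lk : List (ℕ × List ℕ)) (v : ℕ) : List ℕ :=
  @List.rec (ℕ × List ℕ) (fun _ => List ℕ) []
    (fun p _ ih => @Prod.rec ℕ (List ℕ) (fun _ => List ℕ) (fun a l => cf (Nat.beq a v) l ih) p) lk

/-- The lower bound at the label `v`. -/
def findB (lb : List (ℕ × ℕ)) (v : ℕ) : ℕ :=
  @List.rec (ℕ × ℕ) (fun _ => ℕ) 4
    (fun p _ ih => @Prod.rec ℕ ℕ (fun _ => ℕ) (fun a l => cf (Nat.beq a v) l ih) p) lb

/-- The lower bound which is known. -/
def loP (lk : List (ℕ × List ℕ)) (lb : List (ℕ × ℕ)) (v : ℕ) : ℕ :=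
  @List.rec ℕ (fun _ => ℕ) (findB lb v) (fun _ l _ => Nat.succ (len l)) (findL lk v)

/-- Is the rotation known? -/
def exP (lk : List (ℕ × List ℕ)) (v : ℕ) : Bool :=
  @List.rec ℕ (fun _ => Bool) false (fun _ _ _ => true) (findL lk v)

/-- `a`, `v`, `c` or `c`, `v`, `a` are consecutive in the list `x, y, ..`; the first `v` counts. -/
def scn (v a c : ℕ) (l : List ℕ) : ℕ → ℕ → Bool :=
  @List.rec ℕ (fun _ => ℕ → ℕ → Bool) (fun _ _ => false)
    (fun z _ ih x y => cf (Nat.beq y v)
      (cf (Nat.beq x a) (Nat.beq z c) (cf (Nat.beq x c) (Nat.beq z a) false)) (ih y z)) l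

/-- `a`, `v`, `c` are consecutive in the cyclic list, in one of the two orders. -/
def scn2 (v a c : ℕ) (l : List ℕ) : Bool :=
  @List.rec ℕ (fun _ => Bool) false (fun x l' _ =>
    @List.rec ℕ (fun _ => Bool) false (fun y l'' _ =>
      scn v a c (app l'' (x :: y :: [])) x y) l') l

/-- The list is a walk in the link of `v`, without turning back. -/
def arcW (lk : List (ℕ × List ℕ)) (v : ℕ) (l : List ℕ) : ℕ → ℕ → Bool :=
  @List.rec ℕ (fun _ => ℕ → ℕ → Bool) (fun _ _ => true)
    (fun c _ ih a b => cf (scn2 v a c (findL lk b)) (ih b c) false) l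

/-- The list is a walk in the link of `v`, without turning back. -/
def arcOK (lk : List (ℕ × List ℕ)) (v : ℕ) (l : List ℕ) : Bool :=
  @List.rec ℕ (fun _ => Bool) false (fun a l' _ =>
    @List.rec ℕ (fun _ => Bool) false (fun b l'' _ => arcW lk v l'' a b) l') l

/-- New labels. -/
def news (k : ℕ) : ℕ → List ℕ :=
  @Nat.rec (fun _ => ℕ → List ℕ) (fun _ => []) (fun _ ih n => n :: ih (Nat.succ n)) k

/-- The value at a list which is evaluated first. -/
def frcL {α : Type} (l : List ℕ) : (List ℕ → α) → α :=
  @List.rec ℕ (fun _ => (List ℕ → α) → α) (fun k => k [])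
    (fun x _ ih k => frc x fun x => ih fun l => k (x :: l)) l

/-- The same for lists of pairs. -/
def frcB {α : Type} (l : List (ℕ × ℕ)) : (List (ℕ × ℕ) → α) → α :=
  @List.rec (ℕ × ℕ) (fun _ => (List (ℕ × ℕ) → α) → α) (fun k => k [])
    (fun p _ ih k => frc p.1 fun a => frc p.2 fun b => ih fun l => k ((a, b) :: l)) l

/-- The same for lists of lists. -/
def frcK {α : Type} (l : List (ℕ × List ℕ)) : (List (ℕ × List ℕ) → α) → α :=
  @List.rec (ℕ × List ℕ) (fun _ => (List (ℕ × List ℕ) → α) → α) (fun k => k [])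
    (fun p _ ih k => frc p.1 fun a => frcL p.2 fun b => ih fun l => k ((a, b) :: l)) l

/-- The list of the first `k` digits (base 4096). -/
def dgs (k : ℕ) : ℕ → List ℕ :=
  @Nat.rec (fun _ => ℕ → List ℕ) (fun _ => [])
    (fun _ ih x => frc (Nat.land x 4095) fun a => frc (Nat.shiftRight x 12) fun x => a :: ih x) k

/-- The digit number `j`. -/
def dgt (x j : ℕ) : ℕ := Nat.land (Nat.shiftRight x (Nat.mul 12 j)) 4095

/-- All entries are smaller than `n`. -/
def allLt (n : ℕ) (l : List ℕ) : Bool :=
  @List.rec ℕ (fun _ => Bool) true (fun x _ ih => cf (Nat.ble (Nat.succ x) n) ih false) l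

/-- Replace `a` by `b`. -/
def rpl (a b x : ℕ) : ℕ := cf (Nat.beq x a) b x

/-- A patch which does not occur (`imp = true`), or for which the conclusion holds. -/
structure Fact where
  /-- the patch does not occur -/
  imp : Bool
  /-- the patch -/
  P : Patch

/-- The fact number `n`. -/
def fnth (l : List Fact) : ℕ → Option Fact :=
  @List.rec Fact (fun _ => ℕ → Option Fact) (fun _ => none)
    (fun x _ ih n => @Nat.rec (fun _ => Option Fact) (some x) (fun m _ => ih m) n) l

/-- Some entry `(v, b)` with `c ≤ b`. -/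
def hasGe (v c : ℕ) (l : List (ℕ × ℕ)) : Bool :=
  @List.rec (ℕ × ℕ) (fun _ => Bool) false
    (fun p _ ih => cf (Nat.beq p.1 v) (cf (Nat.ble c p.2) true ih) ih) l

/-- Some entry `(v, b)` with `b ≤ c`. -/
def hasLe (v c : ℕ) (l : List (ℕ × ℕ)) : Bool :=
  @List.rec (ℕ × ℕ) (fun _ => Bool) false
    (fun p _ ih => cf (Nat.beq p.1 v) (cf (Nat.ble p.2 c) true ih) ih) l

/-- The links of the fact occur in the patch. -/
def emb (lk : List (ℕ × List ℕ)) (m : ℕ → ℕ) (l : List (ℕ × List ℕ)) : Bool :=
  @List.rec (ℕ × List ℕ) (fun _ => Bool) true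
    (fun p _ ih => frc (m p.1) fun a => frcL (mpL m p.2) fun b => frcH (findL lk a) fun c =>
      cf (same c b) ih false) l

/-- The lower bounds of the fact are known. -/
def embB (lk : List (ℕ × List ℕ)) (lb : List (ℕ × ℕ)) (m : ℕ → ℕ) (l : List (ℕ × ℕ)) : Bool :=
  @List.rec (ℕ × ℕ) (fun _ => Bool) true
    (fun p _ ih => frc (m p.1) fun a => cf (Nat.ble p.2 (loP lk lb a)) ih false) l

/-- The bounds of the fact are known. -/
def embK (g : ℕ → ℕ → Bool) (m : ℕ → ℕ) (l : List (ℕ × ℕ)) : Bool :=
  @List.rec (ℕ × ℕ) (fun _ => Bool) true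
    (fun p _ ih => frc (m p.1) fun a => cf (g a p.2) ih false) l

/-- `m` fixes the labels below `n`. -/
def fixes (m : ℕ → ℕ) (n : ℕ) : Bool :=
  @Nat.rec (fun _ => Bool) true (fun n ih => cf (Nat.beq (m n) n) ih false) n

/-- The fact `F` applies to the patch `P`; facts with `imp = false` may be used if `q` is true. -/
def applies (n0 : ℕ) (q : Bool) (P : Patch) (m : ℕ → ℕ) (F : Fact) : Bool :=
  cf (emb P.lk m F.P.lk)
    (cf (embB P.lk P.lb m F.P.lb)
      (cf (embK (fun v c => hasGe v c P.kb) m F.P.kb)
        (cf (embK (fun v c => hasLe v c P.kg) m F.P.kg)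
          (cf F.imp true (cf q (fixes m n0) false)) false) false) false) false

/-- The rotation at `v` becomes known, then `k`. -/
def closeP (P : Patch) (v t : ℕ) (a : List ℕ) (k : Patch → List ℕ) : List ℕ :=
  frc (len a) fun m =>
    cf (Nat.ble m t)
      (frcL (app a (news (Nat.sub t m) P.n)) fun l => frc (Nat.add P.n (Nat.sub t m)) fun n =>
        k ⟨n, (v, l) :: P.lk, P.lb, P.kb, P.kg⟩)
      (cf (Nat.beq m (Nat.succ t))
        (frc (lnth a t) fun x => frc (lnth a 0) fun y =>
          frcK (((v, a.take t) :: P.lk).map fun p => (rpl x y p.1, p.2.map (rpl x y))) fun lk =>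
            frcB (P.lb.map fun p => (rpl x y p.1, p.2)) fun lb =>
              frcB (P.kb.map fun p => (rpl x y p.1, p.2)) fun kb =>
                frcB (P.kg.map fun p => (rpl x y p.1, p.2)) fun kg => k ⟨P.n, lk, lb, kb, kg⟩)
        [])

/-- `x`, `y` are at different places of the list. -/
def differ (l : List ℕ) (x y : ℕ) : Bool :=
  frc (len l) fun n => frc (posn l x) fun i => frc (posn l y) fun j =>
    cf (Nat.ble (Nat.succ i) n) (cf (Nat.ble (Nat.succ j) n) (cf (Nat.beq i j) false true) false)
      false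

/-- Continue with the second part. -/
def andThen (s : List ℕ) (k : List ℕ → List ℕ) : List ℕ :=
  @List.rec ℕ (fun _ => List ℕ) [] (fun x t _ => k (x :: t)) s

/-- Case distinction for the degree of `v`. -/
def split (P : Patch) (v t : ℕ) (a : List ℕ) (ih : Patch → List ℕ → List ℕ) (s : List ℕ) :
    List ℕ :=
  cf (Nat.ble t 11) (cf (Nat.ble 3 (len a)) (cf (Nat.ble (Nat.succ v) P.n) (cf (allLt P.n a)
    (cf (arcOK P.lk v a)
      (andThen (closeP P v t a fun Q => ih Q s) fun s' => frc (Nat.succ t) fun t' =>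
        ih ⟨P.n, P.lk, (v, t') :: P.lb, P.kb, P.kg⟩ s')
      []) []) []) []) []

/-- The degree `t` of `v` is impossible. -/
def nosplit (P : Patch) (v t : ℕ) (a : List ℕ) (j w : ℕ) (ih : Patch → List ℕ → List ℕ)
    (s : List ℕ) : List ℕ :=
  cf (Nat.ble t 11) (cf (Nat.ble 3 (len a)) (cf (Nat.ble (Nat.succ v) P.n)
    (cf (Nat.ble (Nat.succ (Nat.add j t)) (len a))
      (cf (differ (findL P.lk w) (lnth a j) (lnth a (Nat.add j t)))
        (cf (arcOK P.lk v a)
          (frc (Nat.succ t) fun t' => ih ⟨P.n, P.lk, (v, t') :: P.lb, P.kb, P.kg⟩ s)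
          []) []) []) []) []) []

/-- Case distinction for `kap`. -/
def kdich (P : Patch) (y c : ℕ) (ih : Patch → List ℕ → List ℕ) (s : List ℕ) : List ℕ :=
  cf (Nat.ble (Nat.succ y) P.n)
    (andThen (ih ⟨P.n, P.lk, P.lb, (y, c) :: P.kb, P.kg⟩ s) fun s' =>
      ih ⟨P.n, P.lk, P.lb, P.kb, (y, c) :: P.kg⟩ s')
    []

/-- A label occurs twice in the list. -/
def dupL (l : List ℕ) : Bool :=
  @List.rec ℕ (fun _ => Bool) false
    (fun x l ih => frc (posn l x) fun i => frc (len l) fun n => cf (Nat.ble (Nat.succ i) n) true ih)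
    l

/-- The rotation at `v` is known and impossible: a label occurs twice or is `v`, or the degree is
too small. -/
def badAt (P : Patch) (v : ℕ) : Bool :=
  frcH (findL P.lk v) fun l => frc (len l) fun n => cf (Nat.beq n 0) false
    (cf (dupL l) true (frc (posn l v) fun i =>
      cf (Nat.ble (Nat.succ i) n) true (hasGe v (Nat.succ n) P.lb)))

/-- One step of the check: `x` is the first number of the certificate, `s` the rest. -/
def stepF (n0 : ℕ) (q : Bool) (leaf : Patch → Bool) (fl : ℕ → Option Fact) (bd : ℕ)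
    (ih : Patch → List ℕ → List ℕ) (P : Patch) (x : ℕ) (s : List ℕ) : List ℕ :=
  frc (Nat.land x 4095) fun op => frc (Nat.shiftRight x 12) fun x =>
    cf (Nat.beq op 0) (cf (leaf P) s [])
    (cf (Nat.beq op 1)
      (frc (Nat.land x 4095) fun c => frc (Nat.shiftRight x 24) fun x =>
        @Option.rec Fact (fun _ => List ℕ) []
          (fun F => cf (cf (Nat.ble (Nat.succ c) bd) (applies n0 q P (dgt x) F) false) s [])
          (fl c))
    (cf (Nat.beq op 2)
      (frc (Nat.land x 4095) fun v => frc (dgt x 1) fun k =>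
        frcL (dgs k (Nat.shiftRight x 24)) fun a => frc (findB P.lb v) fun t =>
          split P v t a ih s)
    (cf (Nat.beq op 3)
      (frc (Nat.land x 4095) fun v => frc (dgt x 1) fun k =>
        frcL (dgs k (Nat.shiftRight x 24)) fun a =>
          frc (dgt x (Nat.add 2 k)) fun j => frc (dgt x (Nat.add 3 k)) fun w =>
            frc (findB P.lb v) fun t => nosplit P v t a j w ih s)
    (cf (Nat.beq op 4)
      (frc (Nat.land x 4095) fun y => frc (dgt x 1) fun c => kdich P y c ih s)
    (cf (Nat.beq op 5)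
      (frc (Nat.land x 16777215) fun c => frc (Nat.shiftRight x 36) fun x =>
        @Option.rec Fact (fun _ => List ℕ) []
          (fun F => cf (cf (Nat.ble (Nat.succ c) bd) (applies n0 q P (dgt x) F) false) s [])
          (fl c))
    (cf (Nat.beq op 6)
      (frc (Nat.land x 4095) fun v => cf (badAt P v) s [])
    []))))))

/-- The check; the result is the rest of the certificate, or `[]`. The facts are given by the
function `fl`. -/
def chkF (n0 : ℕ) (q : Bool) (leaf : Patch → Bool) (fl : ℕ → Option Fact) (bd : ℕ) (fuel : ℕ) :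
    Patch → List ℕ → List ℕ :=
  @Nat.rec (fun _ => Patch → List ℕ → List ℕ) (fun _ _ => [])
    (fun _ ih P s => @List.rec ℕ (fun _ => List ℕ) []
      (fun x s _ => stepF n0 q leaf fl bd ih P x s) s) fuel

/-- The check; the result is the rest of the certificate, or `[]`. -/
def chk (n0 : ℕ) (q : Bool) (leaf : Patch → Bool) (fs : List Fact) (bd : ℕ) (fuel : ℕ) :
    Patch → List ℕ → List ℕ := chkF n0 q leaf (fnth fs) bd fuel

/-- All labels of the links are smaller than `n`. -/
def okL (n : ℕ) (l : List (ℕ × List ℕ)) : Bool :=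
  @List.rec (ℕ × List ℕ) (fun _ => Bool) true
    (fun p _ ih => cf (Nat.ble (Nat.succ p.1) n) (cf (allLt n p.2) ih false) false) l

/-- All labels of the bounds are smaller than `n`. -/
def okB (n : ℕ) (l : List (ℕ × ℕ)) : Bool :=
  @List.rec (ℕ × ℕ) (fun _ => Bool) true
    (fun p _ ih => cf (Nat.ble (Nat.succ p.1) n) ih false) l

/-- The list is not empty. -/
def cons? (l : List ℕ) : Bool := @List.rec ℕ (fun _ => Bool) false (fun _ _ _ => true) l

/-- The facts number `a`, `a + 1`, ... are proved by the certificates of the list; each certificate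
is followed by one more number. The facts are given by the function `fl`. -/
def runF (n0 : ℕ) (leafI leafF : Patch → Bool) (fl : ℕ → Option Fact) (fuel : ℕ)
    (l : List (List ℕ)) : ℕ → Bool :=
  @List.rec (List ℕ) (fun _ => ℕ → Bool) (fun _ => true)
    (fun s _ ih a => frc a fun a => @Option.rec Fact (fun _ => Bool) false
      (fun F =>
        cf (cf (okL F.P.n F.P.lk) (cf (okB F.P.n F.P.lb) (cf (okB F.P.n F.P.kb)
          (cf (okB F.P.n F.P.kg) (Nat.ble n0 F.P.n) false) false) false) false)
          (cf (cons? (cf F.imp (chkF 0 false leafI fl a fuel F.P s)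
            (chkF n0 true leafF fl a fuel F.P s))) (ih (Nat.succ a)) false) false)
      (fl a)) l

/-- The facts number `a`, `a + 1`, ... are proved by the certificates of the list; each certificate
is followed by one more number. -/
def run (n0 : ℕ) (leafI leafF : Patch → Bool) (fs : List Fact) (fuel : ℕ)
    (l : List (List ℕ)) (a : ℕ) : Bool := runF n0 leafI leafF (fnth fs) fuel l a

/-- The list number `n` of a list of lists. -/
def tnth (l : List (List Fact)) : ℕ → List Fact :=
  @List.rec (List Fact) (fun _ => ℕ → List Fact) (fun _ => [])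
    (fun x _ ih n => @Nat.rec (fun _ => List Fact) x (fun m _ => ih m) n) l

/-- The fact number `n` of a long list, given by the list `ts` of its ends from the numbers
`0`, `64`, `128`, ... on. -/
def fidx (ts : List (List Fact)) (n : ℕ) : Option Fact :=
  frc (Nat.shiftRight n 6) fun i => frc (Nat.land n 63) fun j => fnth (tnth ts i) j

end ST

end Pool.Agent.W986
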