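import Pool.Agent.W986.SubDef
import Pool.Agent.W986.SubTreeB

/-!
# Configurations: a check by covers

The colourings of the first `P` classes are treated one after the other, up to the names of the
colours; the colourings of the other `N` classes are the binary digits of numbers. The certificate
is a tree of colourings of the inner vertices; the colourings of the classes which are extended by
one of them are crossed out. All functions use the recursors, for the evaluation by the kernel.
-/

set_option autoImplicit false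

namespace Pool.Agent.W986

namespace Cov

open ST

/-- The colour number `j` of a code. -/
def dg (code j : ℕ) : ℕ := Nat.land (Nat.shiftRight code (Nat.mul 2 j)) 3

/-- All colourings. -/
def fl (N : ℕ) : ℕ := Nat.sub (Nat.pow 2 (Nat.pow 4 N)) 1

/-- Four copies. -/
def rp (n x : ℕ) : ℕ :=
  frc x fun x => Nat.lor (Nat.lor x (Nat.shiftLeft x n))
    (Nat.lor (Nat.shiftLeft x (Nat.mul 2 n)) (Nat.shiftLeft x (Nat.mul 3 n)))

/-- The colourings in which the place `j` has the colour `t`. -/
def mk (N j t : ℕ) : ℕ :=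
  @Nat.rec (fun _ => ℕ) 0 (fun k ih => cf (Nat.beq j k)
    (Nat.shiftLeft (fl k) (Nat.mul t (Nat.pow 4 k))) (rp (Nat.pow 4 k) ih)) N

/-- The elements of `A` which are not in `X`. -/
def kil (A X : ℕ) : ℕ := Nat.xor A (Nat.land A X)

/-- The colourings in which the class `c` has the colour `t`; `w` is the code of the colours of the
classes below `P`. -/
def em (P N w c t : ℕ) : ℕ :=
  cf (Nat.ble (Nat.succ c) P) (cf (Nat.beq (dg w c) t) (fl N) 0)
    (frc (Nat.sub c P) fun j => mk N j t)

/-- The colourings in which the classes `A`, `B` have the same colour. -/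
def eqm (P N w A B : ℕ) : ℕ :=
  Nat.lor (Nat.lor (Nat.land (em P N w A 0) (em P N w B 0)) (Nat.land (em P N w A 1) (em P N w B 1)))
    (Nat.lor (Nat.land (em P N w A 2) (em P N w B 2)) (Nat.land (em P N w A 3) (em P N w B 3)))

/-- Membership. -/
def mm (x : ℕ) (l : List ℕ) : Bool :=
  @List.rec ℕ (fun _ => Bool) false (fun y _ ih => cf (Nat.beq y x) true ih) l

/-- Membership of a pair. -/
def mm2 (x y : ℕ) (l : List (ℕ × ℕ)) : Bool :=
  @List.rec (ℕ × ℕ) (fun _ => Bool) false
    (fun p _ ih => cf (Nat.beq p.1 x) (cf (Nat.beq p.2 y) true ih) ih) l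

/-- A union. -/
def orL {α : Type} (f : α → ℕ) (l : List α) : ℕ :=
  @List.rec α (fun _ => ℕ) 0 (fun x _ ih => Nat.lor (f x) ih) l

/-- What has to be checked when the inner vertex `n` gets the colour `t`. -/
structure LevC where
  /-- pairs of inner vertices before `n`, not both of the colour `t` -/
  A : List (ℕ × ℕ)
  /-- inner vertices before `n` and classes, not both of the colour `t` -/
  B : List (ℕ × ℕ)
  /-- pairs of classes, not both of the colour `t` -/
  C : List (ℕ × ℕ)
  /-- classes, not of the colour `t` -/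
  E : List ℕ
  /-- ring vertices, with their classes and some classes joined to them by new edges -/
  S : List (ℕ × ℕ × List ℕ)

/-- The certificate. -/
structure CovD where
  /-- number of the first classes -/
  P : ℕ
  /-- number of the other classes -/
  N : ℕ
  /-- ring vertices which get no new mates -/
  pl : List ℕ
  /-- the levels -/
  lev : List LevC
  /-- edges `rs` of the ring, with the classes of `r`, `s` -/
  Ta : List ((ℕ × ℕ) × ℕ × ℕ)
  /-- edges `rs`, `rs'` of the ring, with the classes of `r`, `s`, `s'` -/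
  Tb : List ((ℕ × ℕ × ℕ) × ℕ × ℕ × ℕ)
  /-- new edges from `A` to `B`, `B'` -/
  Tc : List (ℕ × ℕ × ℕ)
  /-- a new edge from `A` to `B` and an edge `rs` of the ring with `r` in `A`, and the class of
  `s` -/
  Td : List ((ℕ × ℕ) × (ℕ × ℕ) × ℕ)
  /-- the trees -/
  G : List (List ℕ)

section

variable (P N : ℕ) (p : List ℕ) (w : ℕ)

/-- The colourings in which the ring vertex is saturated and has the colour `t`. -/
def lockm (e : ℕ × ℕ × List ℕ) (t : ℕ) : ℕ :=
  cf (mm e.1 p) (kil (em P N w e.2.1 t) (orL (fun B => em P N w B t) e.2.2)) 0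

/-- The part which does not depend on the inner vertices. -/
def stat (lv : LevC) (t : ℕ) : ℕ :=
  Nat.lor (orL (fun c => em P N w c t) lv.E)
    (Nat.lor (orL (fun c : ℕ × ℕ => Nat.land (em P N w c.1 t) (em P N w c.2 t)) lv.C)
      (orL (fun e => lockm P N p w e t) lv.S))

/-- Some pair has the colour `t`. -/
def anyP (code t : ℕ) (l : List (ℕ × ℕ)) : Bool :=
  @List.rec (ℕ × ℕ) (fun _ => Bool) false
    (fun p _ ih => cf (Nat.beq (dg code p.1) t) (cf (Nat.beq (dg code p.2) t) true ih) ih) l

/-- The excluded colourings, from inner vertices. -/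
def orB (code t : ℕ) (l : List (ℕ × ℕ)) : ℕ :=
  @List.rec (ℕ × ℕ) (fun _ => ℕ) 0
    (fun p _ ih => cf (Nat.beq (dg code p.1) t) (Nat.lor (em P N w p.2 t) ih) ih) l

/-- The colour `t` for the inner vertex `n`. -/
def child (lv : LevC) (ih : ℕ → ℕ → ℕ → ℕ → ℕ → ℕ × ℕ) (n code R t : ℕ) (s : ℕ × ℕ) : ℕ × ℕ :=
  cf (anyP code t lv.A) s
    (frc (kil R (Nat.lor (orB P N w code t lv.B) (stat P N p w lv t))) fun R =>
      frc (Nat.add code (Nat.mul t (Nat.pow 4 n))) fun code =>
        @Prod.rec ℕ ℕ (fun _ => ℕ × ℕ) (fun U g => ih (Nat.succ n) code R U g) s)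

/-- The search; `U` are the colourings which are not covered, `g` is the code of the tree. -/
def gd (lev : List LevC) : ℕ → ℕ → ℕ → ℕ → ℕ → ℕ × ℕ :=
  @List.rec LevC (fun _ => ℕ → ℕ → ℕ → ℕ → ℕ → ℕ × ℕ)
    (fun _ _ R U g => frc (kil U R) fun U => (U, g))
    (fun lv _ ih n code R U g => frc n fun n => frc (Nat.land g 15) fun m =>
      frc (Nat.shiftRight g 4) fun g =>
        @Prod.rec ℕ ℕ (fun _ => ℕ × ℕ) (fun U g =>
          @Prod.rec ℕ ℕ (fun _ => ℕ × ℕ) (fun U g =>
            @Prod.rec ℕ ℕ (fun _ => ℕ × ℕ) (fun U g =>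
              cf (Nat.beq (Nat.land m 8) 8) (child P N p w lv ih n code R 3 (U, g)) (U, g))
            (cf (Nat.beq (Nat.land m 4) 4) (child P N p w lv ih n code R 2 (U, g)) (U, g)))
          (cf (Nat.beq (Nat.land m 2) 2) (child P N p w lv ih n code R 1 (U, g)) (U, g)))
        (cf (Nat.beq (Nat.land m 1) 1) (child P N p w lv ih n code R 0 (U, g)) (U, g))) lev

end

/-- The colourings of the classes which are not possible, whatever is saturated. -/
def bad1 (F : CovD) (P N w : ℕ) : ℕ :=
  Nat.lor (orL (fun x : (ℕ × ℕ × ℕ) × ℕ × ℕ × ℕ => Nat.land (eqm P N w x.2.1 x.2.2.1)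
      (eqm P N w x.2.1 x.2.2.2)) F.Tb)
    (Nat.lor (orL (fun x : ℕ × ℕ × ℕ => Nat.land (eqm P N w x.1 x.2.1) (eqm P N w x.1 x.2.2)) F.Tc)
      (orL (fun x : (ℕ × ℕ) × (ℕ × ℕ) × ℕ => Nat.land (eqm P N w x.1.1 x.1.2)
        (eqm P N w x.1.1 x.2.2)) F.Td))

/-- The colourings of the classes which are not possible if only members of `p` are saturated. -/
def bad (F : CovD) (P N : ℕ) (p : List ℕ) (w : ℕ) : ℕ :=
  Nat.lor (orL (fun x : (ℕ × ℕ) × ℕ × ℕ => cf (mm x.1.1 p) 0 (eqm P N w x.2.1 x.2.2)) F.Ta)
    (bad1 F P N w)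

/-- One tree. -/
def one (F : CovD) (P N : ℕ) (p : List ℕ) (w g : ℕ) : Bool :=
  frc (kil (fl N) (bad F P N p w)) fun U =>
    @Prod.rec ℕ ℕ (fun _ => Bool) (fun U _ => Nat.beq U 0)
      (gd P N p w F.lev 0 0 (fl N) U g)

/-- The colourings of the first `n` classes up to the names of the colours, with the number of the
colours. -/
def can (n : ℕ) : List (ℕ × ℕ) :=
  @Nat.rec (fun _ => List (ℕ × ℕ)) [(0, 0)]
    (fun n ih => ih.flatMap fun x => (List.range (Nat.succ (min x.2 3))).map fun t =>
      (x.1 + 4 ^ n * t, max x.2 (t + 1))) n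

/-- The trees of a list. -/
def oneL (f : ℕ → ℕ → Bool) (ws : List (ℕ × ℕ)) : List ℕ → Bool :=
  @List.rec (ℕ × ℕ) (fun _ => List ℕ → Bool) (fun _ => true)
    (fun x _ ih l => @List.rec ℕ (fun _ => Bool) false
      (fun g gs _ => cf (frc x.1 fun w => frc g fun g => f w g) (ih gs) false) l) ws

/-- The trees of a list of lists. -/
def oneP (f : List ℕ → List ℕ → Bool) (ps : List (List ℕ)) : List (List ℕ) → Bool :=
  @List.rec (List ℕ) (fun _ => List (List ℕ) → Bool) (fun _ => true)
    (fun p _ ih l => @List.rec (List ℕ) (fun _ => Bool) false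
      (fun g gs _ => cf (frcL p fun p => f p g) (ih gs) false) l) ps

/-! ### The lists are complete -/

/-- All elements. -/
def al {α : Type} (f : α → Bool) (l : List α) : Bool :=
  @List.rec α (fun _ => Bool) true (fun x _ ih => cf (f x) ih false) l

/-- All pairs of different places. -/
def al2 (f : ℕ → ℕ → Bool) (l : List ℕ) : Bool :=
  @List.rec ℕ (fun _ => Bool) true (fun x l ih => cf (al (f x) l) ih false) l

/-- All numbers below `n`. -/
def alN (f : ℕ → Bool) (n : ℕ) : Bool :=
  @Nat.rec (fun _ => Bool) true (fun k ih => cf (f k) ih false) n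

/-- The second entries of the pairs with first entry `i`. -/
def nb (i : ℕ) (l : List (ℕ × ℕ)) : List ℕ :=
  @List.rec (ℕ × ℕ) (fun _ => List ℕ) [] (fun p _ ih => cf (Nat.beq p.1 i) (p.2 :: ih) ih) l

/-- The first entries of the pairs with second entry `r`. -/
def nb' (r : ℕ) (l : List (ℕ × ℕ)) : List ℕ :=
  @List.rec (ℕ × ℕ) (fun _ => List ℕ) [] (fun p _ ih => cf (Nat.beq p.2 r) (p.1 :: ih) ih) l

/-- The level `n`. -/
def lvn (l : List LevC) : ℕ → LevC :=
  @List.rec LevC (fun _ => ℕ → LevC) (fun _ => ⟨[], [], [], [], []⟩)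
    (fun x _ ih n => @Nat.rec (fun _ => LevC) x (fun m _ => ih m) n) l

/-- Membership of an unordered pair. -/
def ms (x y : ℕ) (l : List (ℕ × ℕ)) : Bool := cf (mm2 x y l) true (mm2 y x l)

/-- The inner vertices `i`, `j`, `j'` have not the same colour. -/
def okA (F : CovD) (i j j' : ℕ) : Bool :=
  cf (Nat.ble (Nat.succ i) j)
    (cf (Nat.ble (Nat.succ j) j') (ms i j (lvn F.lev j').A)
      (cf (Nat.ble (Nat.succ j') j) (ms i j' (lvn F.lev j).A) false))
    (cf (Nat.ble (Nat.succ i) j') (cf (Nat.ble (Nat.succ j) i) (ms i j (lvn F.lev j').A) false)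
      (cf (Nat.ble (Nat.succ j) i) (cf (Nat.ble (Nat.succ j') i) (ms j j' (lvn F.lev i).A) false)
        false))

/-- The inner vertices `i`, `j` and the class `c` have not the same colour. -/
def okB' (F : CovD) (i j c : ℕ) : Bool :=
  cf (Nat.ble (Nat.succ i) j) (mm2 i c (lvn F.lev j).B)
    (cf (Nat.ble (Nat.succ j) i) (mm2 j c (lvn F.lev i).B) false)

/-- The ring vertex `r` is treated at the inner vertex `i`. -/
def okS (D : KData) (F : CovD) (i r : ℕ) : Bool :=
  cf (mm r F.pl) (mm (D.q r) (lvn F.lev i).E)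
    (@List.rec (ℕ × ℕ × List ℕ) (fun _ => Bool) false
      (fun e _ ih => cf (Nat.beq e.1 r) (cf (Nat.beq e.2.1 (D.q r)) true ih) ih) (lvn F.lev i).S)

/-- The inner vertex `i`. -/
def okI (D : KData) (F : CovD) (i : ℕ) : Bool :=
  frcL (nb i D.inn) fun NI => frcL (nb i D.mix) fun NR =>
    cf (al2 (okA F i) NI)
      (cf (al (fun r => cf (mm r F.pl) true (frc (D.q r) fun c => al (fun j => okB' F i j c) NI)) NR)
        (cf (al2 (fun r r' => cf (mm r F.pl) true (cf (mm r' F.pl) true
          (ms (D.q r) (D.q r') (lvn F.lev i).C))) NR)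
          (al (okS D F i) NR) false) false) false

/-- The ring vertex `r`. -/
def okR (D : KData) (F : CovD) (r : ℕ) : Bool :=
  cf (Nat.ble (Nat.succ (D.q r)) D.k)
    (cf (mm r F.pl) true (frcL (nb' r D.mix) fun l => frc (D.q r) fun c =>
      al2 (fun i i' => okB' F i i' c) l)) false

/-- The chord classes of the levels are right. -/
def okC (D : KData) (lv : LevC) : Bool :=
  al (fun e : ℕ × ℕ × List ℕ => al (fun B => mm2 e.2.1 B D.chq) e.2.2) lv.S

/-- The lists are right. -/
def wf (D : KData) (F : CovD) : Bool :=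
  cf (Nat.beq (Nat.add F.P F.N) D.k) (cf (Nat.beq F.lev.length D.a)
    (cf (alN (okI D F) D.a) (cf (alN (okR D F) D.L)
      (cf (al (okC D) F.lev)
        (cf (al (fun p : ℕ × ℕ => cf (Nat.ble (Nat.succ p.1) D.L) (Nat.ble (Nat.succ p.2) D.L)
            false) D.rng)
          (cf (al (fun p : ℕ × ℕ => cf (Nat.ble (Nat.succ p.1) D.k) (Nat.ble (Nat.succ p.2) D.k)
              false) D.chq)
            (cf (al (fun p : ℕ × ℕ => cf (Nat.ble (Nat.succ p.1) D.a) (Nat.ble (Nat.succ p.2) D.a)
                false) D.inn)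
              (cf (al (fun p : ℕ × ℕ => cf (Nat.ble (Nat.succ p.1) D.a) (Nat.ble (Nat.succ p.2) D.L)
                  false) D.mix)
                (cf (al (fun x : (ℕ × ℕ) × ℕ × ℕ => cf (mm2 x.1.1 x.1.2 D.rng)
                    (cf (Nat.beq (D.q x.1.1) x.2.1) (Nat.beq (D.q x.1.2) x.2.2) false) false) F.Ta)
                  (cf (al (fun x : (ℕ × ℕ × ℕ) × ℕ × ℕ × ℕ => cf (mm2 x.1.1 x.1.2.1 D.rng)
                      (cf (mm2 x.1.1 x.1.2.2 D.rng) (cf (Nat.beq x.1.2.1 x.1.2.2) false
                        (cf (Nat.beq (D.q x.1.1) x.2.1) (cf (Nat.beq (D.q x.1.2.1) x.2.2.1)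
                          (Nat.beq (D.q x.1.2.2) x.2.2.2) false) false)) false) false) F.Tb)
                    (cf (al (fun x : ℕ × ℕ × ℕ => cf (mm2 x.1 x.2.1 D.chq)
                        (cf (mm2 x.1 x.2.2 D.chq) (cf (Nat.beq x.2.1 x.2.2) false true) false)
                          false) F.Tc)
                      (al (fun x : (ℕ × ℕ) × (ℕ × ℕ) × ℕ => cf (mm2 x.1.1 x.1.2 D.chq)
                        (cf (mm2 x.2.1.1 x.2.1.2 D.rng) (cf (Nat.beq (D.q x.2.1.1) x.1.1)
                          (Nat.beq (D.q x.2.1.2) x.2.2) false) false) false) F.Td)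
                      false) false) false) false) false) false) false) false) false) false)
    false) false

/-- The check. -/
def check (D : KData) (F : CovD) : Bool :=
  cf (wf D F) (frc F.P fun P => frc F.N fun N =>
    oneP (fun p l => oneL (fun w g => one F P N p w g) (can P) l)
      (pats ((List.range D.k).map D.mem)) F.G) false

end Cov

end Pool.Agent.W986
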