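import Pool.Agent.W986.SubDef

/-!
# Configurations: a fast check by the kernel

`KData.checkF` goes through the colourings of the first `P` classes of a configuration, up to the
names of the colours. The colours of the remaining `qq` classes (ring vertices which are not merged
and have no new edges) and of the inner vertices are treated at the same time: a set of such
colourings is one number with `4 ^ (qq + a)` binary digits.
-/

set_option autoImplicit false

namespace Pool.Agent.W986

namespace SubF

/-! ### Definitions -/

/-- Entry of a list of lists. -/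
def nthL : List (List ℕ) → ℕ → List ℕ
  | [], _ => []
  | x :: _, 0 => x
  | _ :: l, n + 1 => nthL l n

/-- The first entries of the pairs with second entry `r`. -/
def nbr (r : ℕ) : List (ℕ × ℕ) → List ℕ
  | [] => []
  | p :: l => bif Nat.beq p.2 r then p.1 :: nbr r l else nbr r l

/-- The elements of the second list which are in the first list. -/
def inter (l : List ℕ) : List ℕ → List ℕ
  | [] => []
  | x :: l' => bif mem1 x l then x :: inter l l' else inter l l'

/-- Some element satisfies `f`. -/
def anyT {α : Type} (f : α → Bool) : List α → Bool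
  | [] => false
  | x :: l => bif f x then true else anyT f l

/-- Choice by the colour `t`. -/
def sel4 (t x0 x1 x2 x3 : ℕ) : ℕ :=
  bif Nat.beq t 0 then x0 else bif Nat.beq t 1 then x1 else bif Nat.beq t 2 then x2 else x3

/-- The colourings with the same colour at `i` and `j`. -/
def same (N i j : ℕ) : ℕ :=
  Nat.lor (Nat.lor (Nat.land (msk N i 0) (msk N j 0)) (Nat.land (msk N i 1) (msk N j 1)))
    (Nat.lor (Nat.land (msk N i 2) (msk N j 2)) (Nat.land (msk N i 3) (msk N j 3)))

/-- The elements of `A` which are not in `X`. -/
def kill (A X : ℕ) : ℕ := Nat.xor A (Nat.land A X)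

/-- The colourings of the first `qq` places which have an extension to `a` more places in `X`. -/
def foldD (qq : ℕ) : ℕ → ℕ → ℕ
  | 0, X => X
  | a + 1, X => foldD qq a (Nat.land (Nat.lor (Nat.lor X (Nat.shiftRight X (4 ^ (qq + a))))
      (Nat.lor (Nat.shiftRight X (2 * 4 ^ (qq + a))) (Nat.shiftRight X (3 * 4 ^ (qq + a)))))
      (fullSet (qq + a)))

/-- Reasons why a colouring of the classes is impossible. -/
inductive Tst
  /-- the edge `rs` of the ring has ends of the same colour and `r` is not saturated -/
  | a (r s : ℕ)
  /-- so have the edges `rs`, `rs'` of the ring -/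
  | b (r s s' : ℕ)
  /-- so have the new edges between `A` and `B`, `B'` -/
  | c (A B B' : ℕ)
  /-- so have the new edge between `A` and `B` and the edge `rs` of the ring, where `r` is in `A` -/
  | d (A B r s : ℕ)

/-- What is done when a class has got its colour: tests, and ring vertices which are treated. -/
structure Row where
  /-- tests -/
  ts : List Tst
  /-- ring vertices -/
  ap : List ℕ

/-- The plan of the search. -/
structure FData where
  /-- number of classes which get their colours one after the other -/
  P : ℕ
  /-- number of the other classes -/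
  qq : ℕ
  /-- the steps -/
  rows : List Row
  /-- the tests at the end -/
  leaf : List Tst
  /-- ring vertices to be compared with a ring vertex -/
  pv : List (List ℕ)
  /-- classes joined to the class of a ring vertex by new edges -/
  chl : List (List ℕ)

/-- All branches: the colours at most `u`. -/
def four (br : ℕ → ℕ → Bool) (u : ℕ) : Bool :=
  bif br 0 (bif Nat.beq 0 u then 1 else u) then
    bif Nat.ble u 0 then true else
      bif br 1 (bif Nat.beq 1 u then 2 else u) then
        bif Nat.ble u 1 then true else
          bif br 2 (bif Nat.beq 2 u then 3 else u) then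
            bif Nat.ble u 2 then true else br 3 4
          else false
      else false
  else false

end SubF

open SubF

namespace KData

variable (D : KData) (F : FData)

/-- Some inner vertex in `l` has the colour `t`. -/
def K1 (N t : ℕ) (l : List ℕ) : ℕ := or1 (fun i => msk N (F.qq + i) t) l

/-- Two inner vertices in `l` have the colour `t`. -/
def K2 (N t : ℕ) : List ℕ → ℕ
  | [] => 0
  | i :: l => Nat.lor (Nat.land (msk N (F.qq + i) t) (K1 F N t l)) (K2 N t l)

/-- An inner vertex in `l` and one of its inner neighbours have the colour `t`. -/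
def KV (N t : ℕ) (l : List ℕ) : ℕ :=
  or1 (fun i => Nat.land (msk N (F.qq + i) t) (K1 F N t (nbr i D.inn))) l

/-- What is removed at a ring vertex `r` of colour `t` which is not saturated. -/
def K0 (N w r t : ℕ) : ℕ :=
  Nat.lor (Nat.lor (K2 F N t (nbr r D.mix)) (KV D F N t (nbr r D.mix)))
    (or1 (fun r' => bif Nat.beq (sdg w (D.q r')) t then
      K1 F N t (inter (nbr r D.mix) (nbr r' D.mix)) else 0) (nthL F.pv r))

/-- The ring vertex `r` of colour `t` may be saturated. -/
def satq (p : List ℕ) (w r t : ℕ) : Bool :=
  bif mem1 r p then !(anyT (fun B => Nat.beq (sdg w B) t) (nthL F.chl r)) else false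

/-- What is removed at the ring vertex `r` of colour `t`. -/
def appK (N : ℕ) (p : List ℕ) (w r t : ℕ) : ℕ :=
  bif satq F p w r t then K1 F N t (nbr r D.mix) else K0 D F N w r t

/-- The ring vertices of a list are treated. -/
def appl (N : ℕ) (p : List ℕ) (w : ℕ) : List ℕ → ℕ → ℕ
  | [], A => A
  | r :: l, A => appl N p w l (kill A
      (sel4 (sdg w (D.q r)) (appK D F N p w r 0) (appK D F N p w r 1) (appK D F N p w r 2)
        (appK D F N p w r 3)))

/-- The classes `A`, `B` have the same colour. -/
def eqc (w A B : ℕ) : Bool := Nat.beq (sdg w A) (sdg w B)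

/-- The test holds. -/
def hold (p : List ℕ) (w : ℕ) : Tst → Bool
  | .a r s => bif mem1 r p then false else eqc w (D.q r) (D.q s)
  | .b r s s' => bif eqc w (D.q r) (D.q s) then eqc w (D.q r) (D.q s') else false
  | .c A B B' => bif eqc w A B then eqc w A B' else false
  | .d A B r s => bif eqc w A B then eqc w (D.q r) (D.q s) else false

/-- The colourings with the same colour at the classes `A`, `B`. -/
def eqm (w A B : ℕ) : ℕ :=
  bif Nat.blt A F.P then
    (bif Nat.blt B F.P then (bif eqc w A B then fullSet F.qq else 0) else
      sel4 (sdg w A) (msk F.qq (B - F.P) 0) (msk F.qq (B - F.P) 1) (msk F.qq (B - F.P) 2)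
        (msk F.qq (B - F.P) 3))
  else
    (bif Nat.blt B F.P then
      sel4 (sdg w B) (msk F.qq (A - F.P) 0) (msk F.qq (A - F.P) 1) (msk F.qq (A - F.P) 2)
        (msk F.qq (A - F.P) 3)
    else same F.qq (A - F.P) (B - F.P))

/-- The colourings for which the test holds. -/
def hm (p : List ℕ) (w : ℕ) : Tst → ℕ
  | .a r s => bif mem1 r p then 0 else eqm F w (D.q r) (D.q s)
  | .b r s s' => Nat.land (eqm F w (D.q r) (D.q s)) (eqm F w (D.q r) (D.q s'))
  | .c A B B' => Nat.land (eqm F w A B) (eqm F w A B')
  | .d A B r s => Nat.land (eqm F w A B) (eqm F w (D.q r) (D.q s))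

/-- The union of sets. -/
def orT (f : Tst → ℕ) : List Tst → ℕ
  | [] => 0
  | x :: l => Nat.lor (f x) (orT f l)

/-- The end of the search. -/
def leafOk (p : List ℕ) (w A : ℕ) : Bool :=
  Nat.beq (Nat.lor (foldD F.qq D.a A) (orT (D.hm F p w) F.leaf)) (fullSet F.qq)

/-- One branch. -/
def branch (p : List ℕ) (row : Row) (ih : ℕ → ℕ → ℕ → ℕ → Bool) (n w A t u' : ℕ) : Bool :=
  fce (w + t * 4 ^ n) fun w' =>
    bif anyT (D.hold p w') row.ts then true else
      ih (n + 1) u' w' (D.appl F (F.qq + D.a) p w' row.ap A)

/-- The search. -/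
noncomputable def goF (p : List ℕ) (rows : List Row) : ℕ → ℕ → ℕ → ℕ → Bool :=
  List.rec (motive := fun _ => ℕ → ℕ → ℕ → ℕ → Bool)
    (fun _ _ w A => D.leafOk F p w A)
    (fun row _ ih n u w A => four (fun t u' => D.branch F p row ih n w A t u') u)
    rows

/-- The colourings without conflicts between inner vertices and with classes from `P` on. -/
def A0 : ℕ :=
  kill (fullSet (F.qq + D.a)) (Nat.lor
    (or2 (fun i j => or2 (fun i' j' => bif (bif Nat.beq i i' then Nat.blt j j' else false) then
      Nat.land (same (F.qq + D.a) (F.qq + i) (F.qq + j))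
        (same (F.qq + D.a) (F.qq + i) (F.qq + j')) else 0) D.inn) D.inn)
    (or2 (fun i r => bif Nat.blt (D.q r) F.P then 0 else
      same (F.qq + D.a) (F.qq + i) (D.q r - F.P)) D.mix))

/-- The test is legitimate. -/
def tOk : Tst → Bool
  | .a r s => mem2 r s D.rng
  | .b r s s' => mem2 r s D.rng && mem2 r s' D.rng && !Nat.beq s s'
  | .c A B B' => mem2 A B D.chq && mem2 A B' D.chq && !Nat.beq B B'
  | .d A B r s => mem2 A B D.chq && mem2 r s D.rng && Nat.beq A (D.q r)

/-- All classes of the test are at most `n`. -/
def tLe (n : ℕ) : Tst → Bool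
  | .a r s => Nat.ble (D.q r) n && Nat.ble (D.q s) n
  | .b r s s' => Nat.ble (D.q r) n && Nat.ble (D.q s) n && Nat.ble (D.q s') n
  | .c A B B' => Nat.ble A n && Nat.ble B n && Nat.ble B' n
  | .d A B r s => Nat.ble A n && Nat.ble B n && Nat.ble (D.q r) n && Nat.ble (D.q s) n

/-- A ring vertex may be treated in step `n`. -/
def aOk (n r : ℕ) : Bool :=
  Nat.ble (D.q r) n && (nthL F.pv r).all (fun r' => Nat.ble (D.q r') n) &&
    (nthL F.chl r).all (fun B => mem2 (D.q r) B D.chq && Nat.ble B n)

/-- The steps are legitimate. -/
def rowsOk : ℕ → List Row → Bool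
  | _, [] => true
  | n, row :: rows => row.ts.all (fun t => D.tOk t && D.tLe n t) &&
      row.ap.all (fun r => D.aOk F n r) && rowsOk (n + 1) rows

/-- The lists are complete. -/
def wfF : Bool :=
  Nat.beq (F.P + F.qq) D.k && Nat.beq F.rows.length F.P &&
    (List.range D.L).all (fun r => Nat.blt (D.q r) D.k) &&
    all2 (fun r s => Nat.blt r D.L && Nat.blt s D.L) D.rng &&
    all2 (fun A B => Nat.blt A D.k && Nat.blt B D.k) D.chq &&
    all2 (fun i j => Nat.blt i D.a && Nat.blt j D.a && mem2 j i D.inn) D.inn &&
    all2 (fun i r => Nat.blt i D.a && Nat.blt r D.L) D.mix &&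
    D.rowsOk F 0 F.rows && F.leaf.all (fun t => D.tOk t) &&
    (List.range D.L).all (fun r => Nat.ble F.P (D.q r) || F.rows.any fun row => mem1 r row.ap) &&
    all2 (fun i r => all2 (fun i' r' => bif (bif Nat.beq i i' then Nat.blt r r' else false) then
      Nat.ble F.P (D.q r) || Nat.ble F.P (D.q r') || mem1 r' (nthL F.pv r) ||
        mem1 r (nthL F.pv r') else true) D.mix) D.mix

/-- The check. -/
noncomputable def checkF : Bool :=
  D.wfF F && CData.allL (fun p => D.goF F p F.rows 0 0 0 (D.A0 F))
    (pats ((List.range D.k).map D.mem))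

end KData

end Pool.Agent.W986
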