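import Pool.Agent.W986.SubDef

/-!
# The checks of a configuration, fast version

The Boolean `SCfg.fastb` checks the same things as `fitb`, `planb` and `legb`. All functions are
written with recursors, and sets of labels are numbers, so that the kernel evaluates them quickly.
A pair of labels `x, y < 32` has the number `32 x + y`.
-/

set_option autoImplicit false

namespace Pool.Agent.W986

namespace GF

/-- The value of `f` at `n`, where `n` is evaluated first. -/
noncomputable def frc {α : Type} (n : ℕ) (f : ℕ → α) : α :=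
  Nat.rec (f 0) (fun m _ => f (Nat.succ m)) n

/-- Conjunction. -/
noncomputable def an (b c : Bool) : Bool := Bool.rec false c b

/-- Disjunction. -/
noncomputable def orb (b c : Bool) : Bool := Bool.rec c true b

/-- The bit `i` of `m`. -/
noncomputable def tb (m i : ℕ) : Bool := Nat.beq (Nat.land (Nat.shiftRight m i) 1) 1

/-- The number with the bit `i`. -/
noncomputable def sgl (i : ℕ) : ℕ := Nat.shiftLeft 1 i

/-- The number of a pair. -/
noncomputable def ix (x y : ℕ) : ℕ := Nat.add (Nat.mul 32 x) y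

/-- A condition for all entries of a list. -/
noncomputable def rall {α : Type} (p : α → Bool) (l : List α) : Bool :=
  List.rec true (fun x _ ih => an (p x) ih) l

/-- A condition for all numbers below `n`. -/
noncomputable def nall (p : ℕ → Bool) (n : ℕ) : Bool :=
  Nat.rec true (fun i ih => an (p i) ih) n

/-- The length of a list. -/
noncomputable def rlen {α : Type} (l : List α) : ℕ := List.rec 0 (fun _ _ ih => Nat.succ ih) l

/-- An entry of a list. -/
noncomputable def rget (l : List ℕ) : ℕ → ℕ :=
  List.rec (fun _ => 0) (fun x _ ih i => Nat.rec x (fun j _ => ih j) i) l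

/-- The union of the numbers `f x`. -/
noncomputable def orm {α : Type} (f : α → ℕ) (l : List α) : ℕ :=
  List.rec 0 (fun x _ ih => Nat.lor (f x) ih) l

/-- `l.map g ++ r`. -/
noncomputable def app {α β : Type} (g : α → β) (r : List β) (l : List α) : List β :=
  List.rec r (fun x _ ih => g x :: ih) l

/-- The pairs `(i, x)`, where `x` is an entry of the list number `i`. -/
noncomputable def prs (ls : List (List ℕ)) : ℕ → List (ℕ × ℕ) :=
  List.rec (fun _ => []) (fun l _ ih i => app (fun x => (i, x)) (ih (Nat.succ i)) l) ls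

/-- The pairs of consecutive entries of `p :: l ++ [z]`. -/
noncomputable def cpt (z : ℕ) (l : List ℕ) : ℕ → List (ℕ × ℕ) :=
  List.rec (fun p => [(p, z)]) (fun y _ ih p => (p, y) :: ih y) l

/-- The pairs of consecutive entries of a cyclic list. -/
noncomputable def cps (l : List ℕ) : List (ℕ × ℕ) := List.rec [] (fun x t _ => cpt x t x) l

/-- The triples `(i, x, y)`, where `x, y` are consecutive in the list number `i`. -/
noncomputable def trs (ls : List (List ℕ)) : ℕ → List (ℕ × ℕ × ℕ) :=
  List.rec (fun _ => []) (fun l _ ih i => app (fun p => (i, p)) (ih (Nat.succ i)) (cps l)) ls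

/-! ### The tables -/

/-- The pairs `(i, x)`. -/
noncomputable def bLk (pr : List (ℕ × ℕ)) : ℕ := orm (fun p => sgl (ix p.1 p.2)) pr

/-- The pairs `(x, i)`. -/
noncomputable def bKl (pr : List (ℕ × ℕ)) : ℕ := orm (fun p => sgl (ix p.2 p.1)) pr

/-- The pairs of consecutive entries. -/
noncomputable def bCo (tr : List (ℕ × ℕ × ℕ)) : ℕ :=
  orm (fun t => Nat.lor (sgl (ix t.2.1 t.2.2)) (sgl (ix t.2.2 t.2.1))) tr

/-- The triangles. -/
noncomputable def bTr (tr : List (ℕ × ℕ × ℕ)) : ℕ :=
  orm (fun t => Nat.lor (sgl (ix (ix t.1 t.2.1) t.2.2)) (sgl (ix (ix t.1 t.2.2) t.2.1))) tr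

/-- The rows of a list of numbers below `2 ^ 32`, as one number. -/
noncomputable def cat (l : List ℕ) : ℕ :=
  List.rec 0 (fun m _ ih => Nat.lor m (Nat.shiftLeft ih 32)) l

/-- The classes of the pairs `(i, x)`. -/
noncomputable def bQ (fin : List ℕ) (pr : List (ℕ × ℕ)) : ℕ :=
  orm (fun p => frc (rget fin p.1) fun A => frc (rget fin p.2) fun B =>
    Nat.lor (sgl (ix A B)) (sgl (ix B A))) pr

/-- The classes of the consecutive ring labels. -/
noncomputable def bRR (a : ℕ) (fin : List ℕ) (tr : List (ℕ × ℕ × ℕ)) : ℕ :=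
  orm (fun t => Bool.rec 0 (frc (rget fin t.2.1) fun A => frc (rget fin t.2.2) fun B =>
    Nat.lor (sgl (ix A B)) (sgl (ix B A))) (an (Nat.ble a t.2.1) (Nat.ble a t.2.2))) tr

/-- The chords. -/
noncomputable def bCh (chd : List (ℕ × ℕ)) : ℕ :=
  orm (fun p => Nat.lor (sgl (ix p.1 p.2)) (sgl (ix p.2 p.1))) chd

/-! ### The contractions -/

/-- The union of the numbers `nb l`, where `σ l = x`. -/
noncomputable def orX (x : ℕ) (nb : List ℕ) : List ℕ → ℕ :=
  List.rec (fun _ => 0) (fun m _ ih σ =>
    List.rec 0 (fun c t _ => Bool.rec (ih t) (Nat.lor m (ih t)) (Nat.beq c x)) σ) nb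

/-- The classes of the labels in `m`. -/
noncomputable def clsOf (σ : List ℕ) : ℕ → ℕ :=
  List.rec (fun _ => 0) (fun c _ ih m => frc (Nat.div m 2) fun m' =>
    Bool.rec (ih m') (Nat.lor (sgl c) (ih m')) (Nat.beq (Nat.mod m 2) 1)) σ

/-- Adds the bit `z` if `b` is true. -/
noncomputable def c3 (b : Bool) (z r : ℕ) : ℕ := Bool.rec r (Nat.lor (sgl z) r) b

/-- The third vertices of the triangles with the vertices `x`, `y`. -/
noncomputable def thirds (x y : ℕ) (τ : List (ℕ × ℕ × ℕ)) : ℕ :=
  List.rec 0 (fun t _ ih =>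
    c3 (orb (an (Nat.beq t.1 x) (Nat.beq t.2.1 y)) (an (Nat.beq t.1 y) (Nat.beq t.2.1 x))) t.2.2
    (c3 (orb (an (Nat.beq t.1 x) (Nat.beq t.2.2 y)) (an (Nat.beq t.1 y) (Nat.beq t.2.2 x))) t.2.1
    (c3 (orb (an (Nat.beq t.2.1 x) (Nat.beq t.2.2 y)) (an (Nat.beq t.2.1 y) (Nat.beq t.2.2 x)))
      t.1 ih))) τ

/-- `y` becomes `x`. -/
noncomputable def mv (x y c : ℕ) : ℕ := Bool.rec c x (Nat.beq c y)

/-- `y` becomes `x` in a list. -/
noncomputable def mvl (x y : ℕ) (σ : List ℕ) : List ℕ :=
  List.rec [] (fun c _ ih => frc (mv x y c) fun c' => c' :: ih) σ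

/-- `y` becomes `x` in a list of triples. -/
noncomputable def mvt (x y : ℕ) (τ : List (ℕ × ℕ × ℕ)) : List (ℕ × ℕ × ℕ) :=
  List.rec [] (fun t _ ih => frc (mv x y t.1) fun p => frc (mv x y t.2.1) fun q =>
    frc (mv x y t.2.2) fun r => (p, q, r) :: ih) τ

/-- The check of one contraction. -/
noncomputable def stepF (P : Plan) (σ : List ℕ) (τ : List (ℕ × ℕ × ℕ)) (x y : ℕ) : Bool :=
  an (Bool.rec true false (Nat.beq x y)) (an (Nat.blt x P.N) (an (Nat.blt y P.N)
    (an (Nat.beq (rget P.fin x) (rget P.fin y))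
      (frc (clsOf σ (orX x P.nb σ)) fun cX => frc (clsOf σ (orX y P.nb σ)) fun cY =>
        frc (Nat.land cX cY) fun Z => an (tb cX y)
          (Nat.beq (Nat.land Z (Nat.lor (thirds x y τ) (Nat.lor (sgl x) (sgl y)))) Z)))))

/-- The two lists are equal. -/
noncomputable def eql (l : List ℕ) : List ℕ → Bool :=
  List.rec (fun m => List.rec true (fun _ _ _ => false) m)
    (fun x _ ih m => List.rec false (fun y t _ => an (Nat.beq x y) (ih t)) m) l

/-- The check of the contractions. -/
noncomputable def runF (P : Plan) (st : List (ℕ × ℕ)) : List ℕ → List (ℕ × ℕ × ℕ) → Bool :=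
  List.rec (fun σ _ => eql σ P.fin)
    (fun s _ ih σ τ => an (stepF P σ τ s.1 s.2) (ih (mvl s.1 s.2 σ) (mvt s.1 s.2 τ))) st

/-- The numbers `k, k + 1, ..`. -/
noncomputable def upto (n : ℕ) : ℕ → List ℕ :=
  Nat.rec (fun _ => []) (fun _ ih k => frc k fun k => k :: ih (Nat.succ k)) n

/-- The first labels of the triples are smaller than `a`, the others smaller than `n`, and the
triples are in the table. -/
noncomputable def triF (T n : ℕ) (tri : List (ℕ × ℕ × ℕ)) : Bool :=
  rall (fun t => an (Nat.blt t.1 n) (an (Nat.blt t.2.1 n) (an (Nat.blt t.2.2 n)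
    (tb T (ix (ix t.1 t.2.1) t.2.2))))) tri

/-- Adjacent classes are joined by a chord or an edge of the ring. -/
noncomputable def joinF (a J : ℕ) (fin : List ℕ) (tr : List (ℕ × ℕ × ℕ)) : Bool :=
  rall (fun t => frc (rget fin t.1) fun A => frc (rget fin t.2.1) fun B =>
    an (orb (Nat.beq A B) (tb J (ix A B)))
      (orb (an (Nat.ble a t.2.1) (Nat.ble a t.2.2))
        (frc (rget fin t.2.2) fun D => orb (Nat.beq B D) (tb J (ix B D))))) tr

/-! ### The legality -/

/-- Negation. -/
noncomputable def nt (b : Bool) : Bool := Bool.rec true false b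

/-- The pairs (label, class) of the labels from `a` on. -/
noncomputable def lcf (a : ℕ) (fin : List ℕ) : ℕ → List (ℕ × ℕ) :=
  List.rec (fun _ => []) (fun c _ ih i => frc i fun i =>
    Bool.rec (ih (Nat.succ i)) ((i, c) :: ih (Nat.succ i)) (Nat.ble a i)) fin

/-- The pairs of different labels in a class. -/
noncomputable def dps (lc : List (ℕ × ℕ)) : List (ℕ × ℕ) :=
  List.rec [] (fun p _ ih => List.rec ih (fun q _ ih' =>
    Bool.rec ih' ((p.1, q.1) :: ih') (an (Nat.beq p.2 q.2) (nt (Nat.beq p.1 q.1)))) lc) lc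

/-- The lists as numbers. -/
noncomputable def msk (ls : List (List ℕ)) : List ℕ :=
  List.rec [] (fun l _ ih => frc (orm sgl l) fun m => m :: ih) ls

/-- The union of the lists of the labels in `l`. -/
noncomputable def uni (ms : List ℕ) (a : ℕ) (l : List ℕ) : ℕ :=
  orm (fun j => Bool.rec 0 (rget ms j) (Nat.blt j a)) l

/-- The pairs of labels with distance at most three. -/
noncomputable def bNR (a : ℕ) (ls : List (List ℕ)) : ℕ :=
  orm (fun l => frc (Nat.lor (orm sgl l) (uni (msk ls) a l)) fun E =>
    orm (fun x => Nat.shiftLeft E (Nat.mul 32 x)) l) ls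

/-- The neighbours of the classes. -/
noncomputable def bCR (nb : List ℕ) (lc : List (ℕ × ℕ)) : ℕ :=
  orm (fun p => Nat.shiftLeft (orm (fun q => Bool.rec 0 (rget nb q.1) (Nat.beq q.2 p.2)) lc)
    (Nat.mul 32 p.1)) lc

/-- Some list contains both labels. -/
noncomputable def comF (ls : List (List ℕ)) (x y : ℕ) : Bool :=
  List.rec false (fun l _ ih => frc (orm sgl l) fun m => orb (an (tb m x) (tb m y)) ih) ls

end GF

namespace SCfg

open GF

variable (C : SCfg)

/-- The sizes of the lists. -/
noncomputable def szF (a L N k : ℕ) : Bool :=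
  an (Nat.beq C.P.a a) (an (Nat.beq C.P.N N) (an (Nat.ble N 32)
    (an (Nat.beq (rlen C.links) a) (an (Nat.beq (rlen C.P.fin) N) (an (Nat.beq (rlen C.D.cl) L)
      (an (Nat.beq (rlen C.rep) k) (an (Nat.beq (rlen C.P.nb) N)
        (an (rall (fun x => Nat.blt x N) C.P.fin) (an (rall (fun x => Nat.blt x k) C.D.cl)
          (an (rall (fun x => Nat.blt x N) C.rep)
            (an (rall (fun m => an (Nat.blt 0 m) (Nat.blt m (Nat.shiftLeft 1 N))) C.P.nb)
              (rall (fun l => rall (fun x => Nat.blt x N) l) C.links))))))))))))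

/-- The classes. -/
noncomputable def clF (a L k : ℕ) : Bool :=
  an (nall (fun r => Nat.beq (rget C.P.fin (Nat.add a r)) (rget C.rep (rget C.D.cl r))) L)
    (nall (fun A => frc (rget C.rep A) fun x =>
      nall (fun B => Bool.rec true false (Nat.beq (rget C.rep B) x)) A) k)

/-- The lists of `D`. -/
noncomputable def liF (a L k B co Q um : ℕ) : Bool :=
  an (Nat.beq (Nat.lor (orm (fun p => sgl (ix p.1 p.2)) C.D.inn)
      (orm (fun p => sgl (ix p.1 (Nat.add a p.2))) C.D.mix)) B)
    (an (rall (fun p => an (Nat.blt p.1 a) (Nat.blt p.2 a)) C.D.inn)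
      (an (rall (fun p => an (Nat.blt p.1 a) (Nat.blt p.2 L)) C.D.mix)
        (an (rall (fun p => an (Nat.blt p.2 L) (tb co (ix (Nat.add a p.1) (Nat.add a p.2)))) C.D.rng)
          (an (nall (fun r => tb um (Nat.add a r)) L)
            (rall (fun p => an (an (Nat.blt p.1 k) (Nat.blt p.2 k))
              (an (Bool.rec true false (Nat.beq p.1 p.2))
                (tb Q (ix (rget C.rep p.1) (rget C.rep p.2))))) C.D.chq)))))

/-- The part of the check without the tables of the legality. -/
noncomputable def fastA : Bool :=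
  frc C.D.a fun a => frc C.D.L fun L => frc (Nat.add a L) fun N => frc C.D.k fun k =>
    an (C.szF a L N k) (an (C.clF a L k)
      (frc (bLk (prs C.links 0)) fun B => frc (bKl (prs C.links 0)) fun B' =>
        frc (bCo (trs C.links 0)) fun co => frc (bTr (trs C.links 0)) fun T =>
          frc (bQ C.P.fin (prs C.links 0)) fun Q =>
            an (C.liF a L k B co Q (orm (fun p => sgl p.2) (prs C.links 0)))
              (an (Nat.beq (cat C.P.nb) (Nat.lor (Nat.lor B B') co))
                (an (triF T N C.P.tri) (an (Nat.ble (Nat.add (rlen C.P.steps) 4) N)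
                  (an (Nat.blt 0 (rlen C.P.steps))
                    (an (rall (fun p => an (Nat.blt p.1 N) (Nat.blt p.2 N)) C.P.chd)
                      (an (frc (Nat.lor (bCh C.P.chd) (bRR a C.P.fin (trs C.links 0))) fun J =>
                        joinF a J C.P.fin (trs C.links 0))
                        (runF C.P C.P.steps (upto N 0) C.P.tri)))))))))

/-- The legality. -/
noncomputable def legF (na nc : ℕ → ℕ → Bool) : Bool :=
  frc C.D.a fun a =>
    an (rall (fun p => an (na p.1 p.2) (an (nc p.1 p.2) (comF C.links p.1 p.2)))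
        (dps (lcf a C.P.fin 0)))
      (an (rall (fun p => rall (fun q => orb (na p.1 q.1) (na p.2 q.2)) (dps (lcf a C.P.fin 0)))
          (dps (lcf a C.P.fin 0)))
        (an (rall (fun p => frc (rget C.rep p.1) fun x => frc (rget C.rep p.2) fun y =>
            rall (fun t => orb (nt (Nat.beq t.2 x))
              (rall (fun u => orb (nt (Nat.beq u.2 y)) (na t.1 u.1)) (lcf a C.P.fin 0)))
              (lcf a C.P.fin 0)) C.D.chq)
          (an (frc (orm (fun p => sgl (ix (rget C.rep p.1) (rget C.rep p.2))) C.D.chq) fun M =>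
              rall (fun p => tb M (ix p.1 p.2)) C.P.chd)
            (frc (bNR a C.links) fun NR => frc (bCR C.P.nb (lcf a C.P.fin 0)) fun CR =>
              frc (bQ C.P.fin (prs C.links 0)) fun Q =>
                rall (fun r => rall (fun s => orb (Nat.beq r.2 s.2) (orb (tb NR (ix r.1 s.1))
                  (orb (tb CR (ix r.1 s.1)) (orb (tb CR (ix s.1 r.1))
                    (an (nt (tb Q (ix r.2 s.2)))
                      (rall (fun p => orb (nt (Nat.beq p.1 r.1)) (rall (fun q =>
                        orb (nt (Nat.beq q.1 s.1)) (na p.2 q.2)) (dps (lcf a C.P.fin 0))))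
                        (dps (lcf a C.P.fin 0)))))))) (lcf a C.P.fin 0)) (lcf a C.P.fin 0)))))

end SCfg

end Pool.Agent.W986
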