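import Mathlib.Data.Nat.Notation
import Mathlib.Util.CompileInductive

/-!
# Legality: the functions which are evaluated by the kernel

The cyclic lists of the neighbours of some vertices are given (`lk`). Two tables of pairs of labels
are computed: labels of different vertices, and labels of vertices which are not adjacent. A table
is one number, the bit `32 x + y` belongs to the pair `x, y`. The functions use the recursors, for
the evaluation by the kernel. The proofs are in `SubLegS`.
-/

set_option autoImplicit false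

namespace Pool.Agent.W986.LegF

/-- The value of `f` at `n`, where `n` is evaluated first. -/
def frc {α : Type} (n : ℕ) (f : ℕ → α) : α :=
  @Nat.rec (fun _ => α) (f 0) (fun p _ => f (Nat.succ p)) n

theorem frc_eq {α : Type} (n : ℕ) (f : ℕ → α) : frc n f = f n := by
  cases n <;> rfl

/-- `if b then x else y` -/
def cf {α : Type} (b : Bool) (x y : α) : α := @Bool.rec (fun _ => α) y x b

theorem cf_true {α : Type} (x y : α) : cf true x y = x := rfl
theorem cf_false {α : Type} (x y : α) : cf false x y = y := rfl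

/-- The bit `i` of `m`. -/
def sb (m i : ℕ) : Bool := Nat.beq (Nat.land (Nat.shiftRight m i) 1) 1

/-- The number of the pair `x, y`. -/
def ix (x y : ℕ) : ℕ := Nat.add (Nat.mul 32 x) y

/-- The row `x` of a table. -/
def row (M x : ℕ) : ℕ := Nat.land (Nat.shiftRight M (Nat.mul 32 x)) 4294967295

/-- The set with the only element `i`. -/
def bt (i : ℕ) : ℕ := Nat.shiftLeft 1 i

/-- The elements of `N` which are not in `A`. -/
def diff (N A : ℕ) : ℕ := Nat.xor (Nat.lor N A) A

/-- Put the pairs `x, y` and `y, x` into the table `M`, for all `y` in `N`. -/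
def addS (x fuel : ℕ) : ℕ → ℕ → ℕ :=
  @Nat.rec (fun _ => ℕ → ℕ → ℕ) (fun _ M => M)
    (fun _ ih N M => cf (Nat.beq N 0) M
      (frc (Nat.log2 N) fun y => frc (Nat.lor M (Nat.lor (bt (ix x y)) (bt (ix y x)))) fun M' =>
        frc (Nat.xor N (bt y)) fun N' => ih N' M')) fuel

/-- The union of the rows `z` of `A` with `z` in `m`. -/
def orRows (A fuel : ℕ) : ℕ → ℕ → ℕ :=
  @Nat.rec (fun _ => ℕ → ℕ → ℕ) (fun _ acc => acc)
    (fun _ ih m acc => cf (Nat.beq m 0) acc
      (frc (Nat.log2 m) fun z => frc (Nat.lor acc (row A z)) fun acc' =>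
        frc (Nat.xor m (bt z)) fun m' => ih m' acc')) fuel

/-- New pairs of different vertices: `x` and `y` are different if a neighbour of `x` is not
adjacent to `y`. -/
def stepE (J A n : ℕ) : ℕ → ℕ :=
  @Nat.rec (fun _ => ℕ → ℕ) (fun E => E)
    (fun x ih E => frc (diff (orRows A 32 (row J x) 0) (row E x)) fun N =>
      frc (addS x 32 N E) fun E' => ih E') n

/-- The intersection of the rows `z` of `E`, for `z` in the list. -/
def andRows (E : ℕ) (l : List ℕ) : ℕ → ℕ :=
  @List.rec ℕ (fun _ => ℕ → ℕ) (fun acc => acc)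
    (fun z _ ih acc => frc (Nat.land acc (row E z)) fun a => ih a) l

/-- New pairs which are not adjacent: `u` and `y` are not adjacent if `y` is different from all
neighbours of `u`. -/
def stepL (E : ℕ) (lk : List (ℕ × List ℕ)) : ℕ → ℕ :=
  @List.rec (ℕ × List ℕ) (fun _ => ℕ → ℕ) (fun A => A)
    (fun p _ ih A =>
      frc (addS p.1 32 (diff (andRows E p.2 4294967295) (row A p.1)) A) fun A' => ih A') lk

/-- The elements `y` of `Y` such that no vertex in `C` is adjacent to all of the vertices of the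
4-cycle with `y`, and to no others. -/
def cLoop (J E A EU fuel : ℕ) : ℕ → ℕ → ℕ :=
  @Nat.rec (fun _ => ℕ → ℕ → ℕ) (fun _ _ => 0)
    (fun _ ih C Y => cf (Nat.beq C 0) Y (cf (Nat.beq Y 0) 0
      (frc (Nat.log2 C) fun c =>
        frc (Nat.land Y (Nat.lor (Nat.lor (row A c) (bt c))
          (orRows E 32 (Nat.land (row J c) EU) 0))) fun Y' =>
        frc (Nat.xor C (bt c)) fun C' => ih C' Y'))) fuel

/-- The 4-cycles `u`, `x`, `y`, `v`, for `v` in `V`. -/
def vLoop (J E Lf u x fuel : ℕ) : ℕ → ℕ → ℕ :=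
  @Nat.rec (fun _ => ℕ → ℕ → ℕ) (fun _ A => A)
    (fun _ ih V A => cf (Nat.beq V 0) A
      (frc (Nat.log2 V) fun v => frc (Nat.xor V (bt v)) fun V' =>
        frc (diff (Nat.land (row J v) (Nat.land (row A u) (row E u))) (row A x)) fun Y =>
        cf (Nat.beq Y 0) (ih V' A)
          (frc (diff Lf (Nat.lor (Nat.lor (row A x) (row A v)) (Nat.lor (bt x) (bt v)))) fun C =>
            frc (cLoop J E A (Nat.land (Nat.land (row E u) (row E x)) (row E v)) 32 C Y) fun Y' =>
            frc (addS x 32 Y' A) fun A' => ih V' A'))) fuel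

/-- The 4-cycles `u`, `x`, `y`, `v`, for `x` in the list. -/
def xLoop (J E Lf u : ℕ) (l : List ℕ) : ℕ → ℕ :=
  @List.rec ℕ (fun _ => ℕ → ℕ) (fun A => A)
    (fun x _ ih A =>
      frc (vLoop J E Lf u x 32 (Nat.land (row J u) (Nat.land (row A x) (row E x))) A)
        fun A' => ih A') l

/-- The set of the elements of a list. -/
def orB (l : List ℕ) : ℕ := @List.rec ℕ (fun _ => ℕ) 0 (fun x _ ih => Nat.lor (bt x) ih) l

/-- New pairs which are not adjacent, because of 4-cycles. -/
def stepS (J E F : ℕ) (lk : List (ℕ × List ℕ)) : ℕ → ℕ :=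
  @List.rec (ℕ × List ℕ) (fun _ => ℕ → ℕ) (fun A => A)
    (fun p _ ih A => frc (Nat.land (orB p.2) F) fun Lf =>
      frc (xLoop J E Lf p.1 p.2 A) fun A' => ih A') lk

/-- Rounds of the computation, then a test of the tables. -/
def rounds (J F n : ℕ) (lk : List (ℕ × List ℕ)) (k : ℕ → ℕ → ℕ → Bool) (m : ℕ) :
    ℕ → ℕ → Bool :=
  @Nat.rec (fun _ => ℕ → ℕ → Bool) (fun E A => k J E A)
    (fun _ ih E A => frc (stepE J A n E) fun E' => frc (stepL E' lk A) fun A1 =>
      frc (stepS J E' F lk A1) fun A2 => cf (Nat.beq A2 A) (k J E' A2) (ih E' A2)) m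

/-- The first element of a list. -/
def hd (l : List ℕ) (a : ℕ) : ℕ := @List.rec ℕ (fun _ => ℕ) a (fun x _ _ => x) l

/-- Put the pairs of neighbours in the list into the table; `a` follows the last element. -/
def prs (a : ℕ) (l : List ℕ) : ℕ → ℕ :=
  @List.rec ℕ (fun _ => ℕ → ℕ) (fun M => M)
    (fun x t ih M =>
      frc (Nat.lor M (Nat.lor (bt (ix x (hd t a))) (bt (ix (hd t a) x)))) fun M' => ih M') l

/-- Different elements of the list `l` with the set `L` belong to different vertices. -/
def rowsE (L : ℕ) (l : List ℕ) : ℕ → ℕ :=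
  @List.rec ℕ (fun _ => ℕ → ℕ) (fun M => M)
    (fun x _ ih M => frc (Nat.lor M (Nat.shiftLeft (diff L (bt x)) (Nat.mul 32 x)))
      fun M' => ih M') l

/-- Elements of the list `l` with the set `L` which are not neighbours in the list are not
adjacent. -/
def rowsA (L N : ℕ) (l : List ℕ) : ℕ → ℕ :=
  @List.rec ℕ (fun _ => ℕ → ℕ) (fun M => M)
    (fun x _ ih M =>
      frc (Nat.lor M (Nat.shiftLeft (diff L (Nat.lor (row N x) (bt x))) (Nat.mul 32 x)))
        fun M' => ih M') l

/-- The first tables. -/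
def ini (lk : List (ℕ × List ℕ)) (k : ℕ → ℕ → ℕ → Bool) : ℕ → ℕ → ℕ → Bool :=
  @List.rec (ℕ × List ℕ) (fun _ => ℕ → ℕ → ℕ → Bool) (fun J E A => k J E A)
    (fun p _ ih J E A => frc (orB p.2) fun L => frc (prs (hd p.2 0) p.2 0) fun N =>
      frc (Nat.lor J (Nat.lor N (addS p.1 32 L 0))) fun J' =>
      frc (rowsE L p.2 E) fun E' => frc (rowsA L N p.2 A) fun A' => ih J' E' A') lk

/-- The table of the pairs `x, x`. -/
def diag (n : ℕ) : ℕ :=
  @Nat.rec (fun _ => ℕ) 0 (fun x ih => Nat.lor (bt (ix x x)) ih) n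

/-- The table of the pairs of the list, in both orders. -/
def prs0 (l : List (ℕ × ℕ)) : ℕ :=
  @List.rec (ℕ × ℕ) (fun _ => ℕ) 0
    (fun p _ ih => Nat.lor (Nat.lor (bt (ix p.1 p.2)) (bt (ix p.2 p.1))) ih) l

/-- The length. -/
def len (l : List ℕ) : ℕ := @List.rec ℕ (fun _ => ℕ) 0 (fun _ _ ih => Nat.succ ih) l

/-- The labels with a list whose length is not 4. -/
def not4 (lk : List (ℕ × List ℕ)) : ℕ :=
  @List.rec (ℕ × List ℕ) (fun _ => ℕ) 0
    (fun p _ ih => cf (Nat.beq (len p.2) 4) ih (Nat.lor (bt p.1) ih)) lk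

/-- The labels with a lower bound of at least 5 for the degree. -/
def big5 (lb : List (ℕ × ℕ)) : ℕ :=
  @List.rec (ℕ × ℕ) (fun _ => ℕ) 0
    (fun p _ ih => cf (Nat.ble 5 p.2) (Nat.lor (bt p.1) ih) ih) lb

/-- The labels which may belong to inner vertices of degree 4. -/
def f4 (lk : List (ℕ × List ℕ)) (lb : List (ℕ × ℕ)) : ℕ :=
  diff 4294967295 (Nat.lor (not4 lk) (big5 lb))

/-- All elements are smaller than `n`. -/
def allLt (n : ℕ) (l : List ℕ) : Bool :=
  @List.rec ℕ (fun _ => Bool) true (fun x _ ih => cf (Nat.ble (Nat.succ x) n) ih false) l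

/-- All labels of the lists are smaller than `n`. -/
def allLk (n : ℕ) (lk : List (ℕ × List ℕ)) : Bool :=
  @List.rec (ℕ × List ℕ) (fun _ => Bool) true
    (fun p _ ih => cf (Nat.ble (Nat.succ p.1) n) (cf (allLt n p.2) ih false) false) lk

/-- All labels of the pairs are smaller than `n`. -/
def allPr (n : ℕ) (l : List (ℕ × ℕ)) : Bool :=
  @List.rec (ℕ × ℕ) (fun _ => Bool) true
    (fun p _ ih => cf (Nat.ble (Nat.succ p.1) n) (cf (Nat.ble (Nat.succ p.2) n) ih false) false) l

/-- **The tables.** `lk`: the cyclic lists of the neighbours of some labels, `lb`: lower bounds for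
the degrees, `ne0`: pairs of labels which are assumed to be different, `k`: the test of the tables
`J` (edges), `E` (different vertices), `A` (not adjacent). -/
def clo (n : ℕ) (lk : List (ℕ × List ℕ)) (lb ne0 : List (ℕ × ℕ)) (k : ℕ → ℕ → ℕ → Bool) : Bool :=
  cf (Nat.ble n 32) (cf (allLk n lk) (cf (allPr n ne0)
    (frc (f4 lk lb) fun F => ini lk (fun J E A =>
      frc (Nat.lor (Nat.lor E J) (prs0 ne0)) fun E' => frc (Nat.lor A (diag n)) fun A' =>
      rounds J F n lk k 8 E' A') 0 0 0) false) false) false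

/-- The tables are contradictory. -/
def bad (n J E A : ℕ) : Bool :=
  cf (Nat.beq (Nat.land (Nat.land J A) (Nat.sub (bt 1024) 1)) 0)
    (cf (Nat.beq (Nat.land E (diag n)) 0) false true) true

/-- The lists are contradictory. -/
def contra (n : ℕ) (lk : List (ℕ × List ℕ)) (lb ne0 : List (ℕ × ℕ)) : Bool :=
  clo n lk lb ne0 fun J E A => bad n J E A

/-- All pairs of labels below `n` are in the table. -/
def allNe (n E : ℕ) : Bool :=
  @Nat.rec (fun _ => Bool) true
    (fun x ih => cf (Nat.beq (diff (Nat.sub (bt n) 1) (Nat.lor (row E x) (bt x))) 0) ih false) n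

/-- The set of the labels with a list. -/
def keys (lk : List (ℕ × List ℕ)) : ℕ :=
  @List.rec (ℕ × List ℕ) (fun _ => ℕ) 0 (fun p _ ih => Nat.lor (bt p.1) ih) lk

/-- For the labels `c` in `R` with a list of length 4, all elements of the list are in `B`. -/
def ncIn (R B : ℕ) (lk : List (ℕ × List ℕ)) : Bool :=
  @List.rec (ℕ × List ℕ) (fun _ => Bool) true
    (fun p _ ih => cf (sb R p.1) (cf (Nat.beq (len p.2) 4)
      (cf (Nat.beq (diff (orB p.2) B) 0) ih false) ih) ih) lk

/-- Every common neighbour of `x` and `y` has a list: `lk0` are all lists, `K` the labels with a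
list; `lk` is the rest of the lists which are tried. -/
def nc (lk0 : List (ℕ × List ℕ)) (K E A x y : ℕ) (lk : List (ℕ × List ℕ)) : Bool :=
  cf (sb A (ix x y)) (cf (sb E (ix x y))
    (frc (Nat.lor (Nat.lor (row A x) (row A y)) (Nat.lor (bt x) (bt y))) fun B =>
      @List.rec (ℕ × List ℕ) (fun _ => Bool) false
        (fun p _ ih => frc (orB p.2) fun L => cf (sb L x) (cf (sb L y)
          (frc (diff L B) fun R => cf (Nat.beq (diff R K) 0)
            (cf (ncIn R (Nat.lor (Nat.lor K B) (bt p.1)) lk0) true ih) ih) ih) ih) lk)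
    false) false

end Pool.Agent.W986.LegF
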