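import Pool.Agent.W986.SubDef
import Pool.Agent.W986.SubTreeB

/-!
# The patch of a configuration: the Boolean check
-/

set_option autoImplicit false

namespace Pool.Agent.W986

namespace SCfg

/-- The entries of `q` are the entries of the first list with their numbers. -/
def lkB (l : List (List ℕ)) : List (ℕ × List ℕ) → ℕ → Bool :=
  @List.rec (List ℕ) (fun _ => List (ℕ × List ℕ) → ℕ → Bool)
    (fun q _ => @List.rec (ℕ × List ℕ) (fun _ => Bool) true (fun _ _ _ => false) q)
    (fun m _ ih q i => @List.rec (ℕ × List ℕ) (fun _ => Bool) false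
      (fun p q' _ => ST.cf (Nat.beq p.1 i) (ST.cf (Nat.beq (ST.len p.2) (ST.len m))
        (ST.cf (ST.pre p.2 m) (ih q' (Nat.succ i)) false) false) false) q) l

/-- The number of the lists. -/
def lenL (l : List (List ℕ)) : ℕ :=
  @List.rec (List ℕ) (fun _ => ℕ) 0 (fun _ _ ih => Nat.succ ih) l

/-- The patch is the patch of the configuration, with some bounds. -/
def patB (C : SCfg) (P : ST.Patch) : Bool :=
  ST.cf (Nat.beq P.n (Nat.add C.D.a C.D.L)) (ST.cf (Nat.beq (lenL C.links) C.D.a)
    (lkB C.links P.lk 0) false) false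

end SCfg

end Pool.Agent.W986
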