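import Pool.Agent.W986.SubVarB
import Pool.Agent.W986.SubPatB
import Pool.Agent.W986.SubFast47
import Pool.Agent.W986.SubGlueFastB
import Pool.Agent.W986.SubLegB
import Pool.Agent.W986.SubCovB

/-!
# Entries of the table of configurations: the Boolean functions

An entry: the configuration, the data for the colourings, and the reasons why labels which are far
from each other belong to different vertices: walks whose ends are different because of the degree
of the middle vertex, different degrees, and certificates which show that the configuration with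
two labels identified does not occur. Only the functions which are evaluated by the kernel, and
lemmas for the modules with the data.
-/

set_option autoImplicit false

namespace Pool.Agent.W986

namespace ST

/-- An entry of the table. -/
structure Ent where
  /-- the configuration -/
  C : SCfg
  /-- the data for the colourings -/
  F : SubF.FData
  /-- walks in links whose ends are different -/
  arcs : List (ℕ × List ℕ)
  /-- labels with different degrees -/
  degs : List (ℕ × ℕ)
  /-- labels which do not coincide, with certificates -/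
  far : List (ℕ × ℕ × List ℕ)

/-- The ends of the walks are different, because of the degree. -/
def arcsOK (P : Patch) (l : List (ℕ × List ℕ)) : Bool :=
  @List.rec (ℕ × List ℕ) (fun _ => Bool) true
    (fun v _ ih => cf (Nat.ble 3 (len v.2)) (cf (Nat.ble (len v.2) (loP P.lk P.lb v.1))
      (cf (arcOK P.lk v.1 v.2) ih false) false) false) l

/-- The certificate `s` and the facts below `c` show that the labels `x`, `y` do not coincide. -/
def pairF (leafI : Patch → Bool) (fl : ℕ → Option Fact) (fuel c : ℕ) (P : Patch) (x y : ℕ)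
    (s : List ℕ) : Bool :=
  cf (Nat.ble (Nat.succ x) P.n) (cons? (subP x y P fun Q => chkF 0 false leafI fl c fuel Q s))
    false

/-- All the certificates are correct. -/
def pairsF (leafI : Patch → Bool) (fl : ℕ → Option Fact) (fuel c : ℕ) (P : Patch)
    (vs : List (ℕ × ℕ × List ℕ)) : Bool :=
  @List.rec (ℕ × ℕ × List ℕ) (fun _ => Bool) true
    (fun v _ ih => cf (pairF leafI fl fuel c P v.1 v.2.1 v.2.2) ih false) vs

/-- The ends of the walk `a` in the link of `m` are different: otherwise `a` is the whole link, and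
there is a certificate. -/
def farmF (leafI : Patch → Bool) (fl : ℕ → Option Fact) (fuel c : ℕ) (P : Patch)
    (l : List (ℕ × List ℕ × List ℕ)) : Bool :=
  @List.rec (ℕ × List ℕ × List ℕ) (fun _ => Bool) true
    (fun v _ ih => frc (len v.2.1) fun d => cf (Nat.ble 3 d) (cf (Nat.ble d 8)
      (cf (allLt P.n v.2.1) (cf (Nat.ble (Nat.succ v.1) P.n) (cf (arcOK P.lk v.1 v.2.1)
        (cf (pairF leafI fl fuel c
          ⟨P.n, (v.1, tke v.2.1 (Nat.pred d)) :: P.lk, P.lb, P.kb, P.kg⟩
          (lnth v.2.1 0) (lnth v.2.1 (Nat.pred d)) v.2.2) ih false)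
        false) false) false) false) false) l

/-- The degree of the first label is known and smaller than the degree of the second label. -/
def degsOK (P : Patch) (l : List (ℕ × ℕ)) : Bool :=
  @List.rec (ℕ × ℕ) (fun _ => Bool) true
    (fun v _ ih => cf (exP P.lk v.1) (cf (Nat.ble (Nat.succ (loP P.lk P.lb v.1))
      (loP P.lk P.lb v.2)) ih false) false) l

/-- The pairs of labels which are different. -/
def ne0 (arcs : List (ℕ × List ℕ)) (degs : List (ℕ × ℕ)) (far : List (ℕ × ℕ × List ℕ)) :
    List (ℕ × ℕ) :=
  @List.rec (ℕ × List ℕ) (fun _ => List (ℕ × ℕ))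
    (@List.rec (ℕ × ℕ × List ℕ) (fun _ => List (ℕ × ℕ)) degs
      (fun v _ ih => (v.1, v.2.1) :: ih) far)
    (fun v _ ih => (lnth v.2 0, lnth v.2 (Nat.pred (len v.2))) :: ih) arcs

/-- The ends of the walks, in front of another list. -/
def neM (farm : List (ℕ × List ℕ × List ℕ)) (l : List (ℕ × ℕ)) : List (ℕ × ℕ) :=
  @List.rec (ℕ × List ℕ × List ℕ) (fun _ => List (ℕ × ℕ)) l
    (fun v _ ih => (lnth v.2.1 0, lnth v.2.1 (Nat.pred (len v.2.1))) :: ih) farm

/-- The certificates for the pairs of labels. -/
def sepF (leafI : Patch → Bool) (fl : ℕ → Option Fact) (fuel c : ℕ)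
    (farm : List (ℕ × List ℕ × List ℕ)) (arcs : List (ℕ × List ℕ)) (degs : List (ℕ × ℕ))
    (far : List (ℕ × ℕ × List ℕ)) (P : Patch) : Bool :=
  cf (okP P) (cf (pairsF leafI fl fuel c P far) (cf (farmF leafI fl fuel c P farm)
    (cf (arcsOK P arcs) (degsOK P degs) false) false) false) false

/-- The labels are different, and the contraction is legal. -/
noncomputable def legC (C : SCfg) (P : Patch) (ne : List (ℕ × ℕ)) : Bool :=
  frc (LegF.keys P.lk) fun K => LegF.clo P.n P.lk P.lb ne fun _ E A =>
    cf (LegF.allNe P.n E) (C.legF (fun x y => LegF.sb A (LegF.ix x y))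
      (fun x y => LegF.nc P.lk K E A x y P.lk)) false

/-- The patch is contradictory, if the labels of the pairs are different. -/
def ctrC (P : Patch) (ne : List (ℕ × ℕ)) : Bool := LegF.contra P.n P.lk P.lb ne

/-- The patch is contradictory. -/
def leafC (P : Patch) : Bool := ctrC P []

/-- The check of an entry for the fact `F` number `c`. -/
noncomputable def entFM (fl : ℕ → Option Fact) (fuel c : ℕ) (farm : List (ℕ × List ℕ × List ℕ))
    (e : Ent) (F : Fact) : Bool :=
  cf (e.C.patB F.P) (cf (sepF leafC fl fuel c farm e.arcs e.degs e.far F.P) (cf e.C.fastA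
    (frcB (neM farm (ne0 e.arcs e.degs e.far)) fun ne => legC e.C F.P ne) false) false) false

/-- The check of the entry number `c`, with certificates for walks. The facts are given by the
function `fl`. -/
noncomputable def entM (fl : ℕ → Option Fact) (fuel c : ℕ) (farm : List (ℕ × List ℕ × List ℕ))
    (e : Ent) : Bool :=
  @Option.rec Fact (fun _ => Bool) false (fun F => entFM fl fuel c farm e F) (fl c)

/-- The fact number `c` contradicts itself, if the labels of certain pairs are different. -/
def ctrM (fl : ℕ → Option Fact) (fuel c : ℕ) (farm : List (ℕ × List ℕ × List ℕ))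
    (arcs : List (ℕ × List ℕ)) (degs : List (ℕ × ℕ)) (far : List (ℕ × ℕ × List ℕ)) : Bool :=
  @Option.rec Fact (fun _ => Bool) false (fun F =>
    cf (sepF leafC fl fuel c farm arcs degs far F.P)
      (frcB (neM farm (ne0 arcs degs far)) fun ne => ctrC F.P ne) false) (fl c)

/-- The check of the entry number `c`. -/
noncomputable def entF (fl : ℕ → Option Fact) (fuel c : ℕ) (e : Ent) : Bool :=
  entM fl fuel c [] e

/-- The check of a contradictory fact. -/
def ctrF (fl : ℕ → Option Fact) (fuel c : ℕ) (arcs : List (ℕ × List ℕ)) (degs : List (ℕ × ℕ))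
    (far : List (ℕ × ℕ × List ℕ)) : Bool := ctrM fl fuel c [] arcs degs far

/-- There is a correct entry number `c`, or the fact number `c` contradicts itself; the colourings
of the configuration are checked by `col`. -/
def GoodG (col : KData → Prop) (fl : ℕ → Option Fact) (fuel c : ℕ) : Prop :=
  (∃ (farm : List (ℕ × List ℕ × List ℕ)) (e : Ent), col e.C.D ∧ entM fl fuel c farm e = true) ∨
    ∃ farm arcs degs far, ctrM fl fuel c farm arcs degs far = true

/-- The colourings are checked by `checkF` or by a cover. -/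
def ColF (D : KData) : Prop := (∃ F, D.checkF F = true) ∨ ∃ F : Cov.CovD, Cov.check D F = true

/-- No data for `checkF`. -/
def noF : SubF.FData := ⟨0, 0, [], [], [], []⟩

/-- There is a correct entry number `c`, or the fact number `c` contradicts itself. -/
def GoodF (fl : ℕ → Option Fact) (fuel c : ℕ) : Prop := GoodG ColF fl fuel c

section

variable {col : KData → Prop} {fl : ℕ → Option Fact} {fuel c : ℕ}

theorem GoodG.of (e : Ent) (h : col e.C.D) (h' : entF fl fuel c e = true) :
    GoodG col fl fuel c := Or.inl ⟨[], e, h, h'⟩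

theorem GoodG.ofM (farm : List (ℕ × List ℕ × List ℕ)) (e : Ent) (h : col e.C.D)
    (h' : entM fl fuel c farm e = true) : GoodG col fl fuel c := Or.inl ⟨farm, e, h, h'⟩

theorem GoodG.ofC (arcs : List (ℕ × List ℕ)) (degs : List (ℕ × ℕ))
    (far : List (ℕ × ℕ × List ℕ)) (h : ctrF fl fuel c arcs degs far = true) :
    GoodG col fl fuel c := Or.inr ⟨[], arcs, degs, far, h⟩

theorem GoodG.ofCM (farm : List (ℕ × List ℕ × List ℕ)) (arcs : List (ℕ × List ℕ))
    (degs : List (ℕ × ℕ)) (far : List (ℕ × ℕ × List ℕ))
    (h : ctrM fl fuel c farm arcs degs far = true) : GoodG col fl fuel c :=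
  Or.inr ⟨farm, arcs, degs, far, h⟩

theorem GoodG.mono {col' : KData → Prop} (hc : ∀ D, col D → col' D) (h : GoodG col fl fuel c) :
    GoodG col' fl fuel c :=
  h.elim (fun ⟨farm, e, h1, h2⟩ => Or.inl ⟨farm, e, hc _ h1, h2⟩) Or.inr

theorem GoodF.of (e : Ent) (h : e.C.D.checkF e.F = true) (h' : entF fl fuel c e = true) :
    GoodF fl fuel c := GoodG.of e (Or.inl ⟨e.F, h⟩) h'

theorem GoodF.ofV (F : Cov.CovD) (e : Ent) (h : Cov.check e.C.D F = true)
    (h' : entF fl fuel c e = true) : GoodF fl fuel c := GoodG.of e (Or.inr ⟨F, h⟩) h'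

theorem GoodF.ofVM (F : Cov.CovD) (farm : List (ℕ × List ℕ × List ℕ)) (e : Ent)
    (h : Cov.check e.C.D F = true) (h' : entM fl fuel c farm e = true) : GoodF fl fuel c :=
  GoodG.ofM farm e (Or.inr ⟨F, h⟩) h'

theorem GoodF.ofM (farm : List (ℕ × List ℕ × List ℕ)) (e : Ent) (h : e.C.D.checkF e.F = true)
    (h' : entM fl fuel c farm e = true) : GoodF fl fuel c :=
  GoodG.ofM farm e (Or.inl ⟨e.F, h⟩) h'

theorem GoodF.ofC (arcs : List (ℕ × List ℕ)) (degs : List (ℕ × ℕ))
    (far : List (ℕ × ℕ × List ℕ)) (h : ctrF fl fuel c arcs degs far = true) :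
    GoodF fl fuel c := GoodG.ofC arcs degs far h

theorem GoodF.ofCM (farm : List (ℕ × List ℕ × List ℕ)) (arcs : List (ℕ × List ℕ))
    (degs : List (ℕ × ℕ)) (far : List (ℕ × ℕ × List ℕ))
    (h : ctrM fl fuel c farm arcs degs far = true) : GoodF fl fuel c :=
  GoodG.ofCM farm arcs degs far h

end

/-! ### The facts are given by a list -/

/-- There is a correct entry number `c`, or the fact number `c` contradicts itself. -/
def Good (fs : List Fact) (fuel c : ℕ) : Prop := GoodF (fnth fs) fuel c

/-- The check of the entry number `c`. -/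
noncomputable def entB (fs : List Fact) (fuel c : ℕ) (e : Ent) : Bool := entF (fnth fs) fuel c e

/-- The check of the entry number `c`, with certificates for walks. -/
noncomputable def entBM (fs : List Fact) (fuel c : ℕ) (farm : List (ℕ × List ℕ × List ℕ))
    (e : Ent) : Bool := entM (fnth fs) fuel c farm e

/-- The check of a contradictory fact. -/
def ctrB (fs : List Fact) (fuel c : ℕ) (arcs : List (ℕ × List ℕ)) (degs : List (ℕ × ℕ))
    (far : List (ℕ × ℕ × List ℕ)) : Bool := ctrF (fnth fs) fuel c arcs degs far

/-- The check of a contradictory fact, with certificates for walks. -/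
def ctrBM (fs : List Fact) (fuel c : ℕ) (farm : List (ℕ × List ℕ × List ℕ))
    (arcs : List (ℕ × List ℕ)) (degs : List (ℕ × ℕ)) (far : List (ℕ × ℕ × List ℕ)) : Bool :=
  ctrM (fnth fs) fuel c farm arcs degs far

theorem Good.of {fs : List Fact} {fuel c : ℕ} (e : Ent) (h : e.C.D.checkF e.F = true)
    (h' : entB fs fuel c e = true) : Good fs fuel c := GoodF.of e h h'

theorem Good.ofM {fs : List Fact} {fuel c : ℕ} (farm : List (ℕ × List ℕ × List ℕ)) (e : Ent)
    (h : e.C.D.checkF e.F = true) (h' : entBM fs fuel c farm e = true) : Good fs fuel c :=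
  GoodF.ofM farm e h h'

theorem Good.ofC {fs : List Fact} {fuel c : ℕ} (arcs : List (ℕ × List ℕ))
    (degs : List (ℕ × ℕ)) (far : List (ℕ × ℕ × List ℕ))
    (h : ctrB fs fuel c arcs degs far = true) : Good fs fuel c := GoodF.ofC arcs degs far h

theorem Good.ofCM {fs : List Fact} {fuel c : ℕ} (farm : List (ℕ × List ℕ × List ℕ))
    (arcs : List (ℕ × List ℕ)) (degs : List (ℕ × ℕ)) (far : List (ℕ × ℕ × List ℕ))
    (h : ctrBM fs fuel c farm arcs degs far = true) : Good fs fuel c :=
  GoodF.ofCM farm arcs degs far h

/-! ### Ranges -/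

/-- `p` holds for the numbers from `a` on, smaller than `b`. -/
def Rng (p : ℕ → Prop) (a b : ℕ) : Prop := ∀ c, a ≤ c → c < b → p c

theorem Rng.nil (p : ℕ → Prop) (a : ℕ) : Rng p a a :=
  fun _ h1 h2 => absurd (Nat.lt_of_lt_of_le h2 h1) (Nat.lt_irrefl _)

theorem Rng.snoc {p : ℕ → Prop} {a b b' : ℕ} (h : Rng p a b) (hb : p b) (hb' : Nat.succ b = b') :
    Rng p a b' := by
  intro c h1 h2
  subst hb'
  rcases Nat.lt_or_ge c b with h3 | h3
  · exact h c h1 h3
  · have h4 : c = b := Nat.le_antisymm (Nat.le_of_lt_succ h2) h3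
    rw [h4]
    exact hb

theorem Rng.cat {p : ℕ → Prop} {a b c : ℕ} (h : Rng p a b) (h' : Rng p b c) : Rng p a c := by
  intro d h1 h2
  rcases Nat.lt_or_ge d b with h3 | h3
  · exact h d h1 h3
  · exact h' d h3 h2

end ST

end Pool.Agent.W986
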