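import Pool.Agent.W986.SubTreeB
import Pool.Agent.W986.SubLegB

/-!
# Contradictory patches: the test
-/

set_option autoImplicit false

namespace Pool.Agent.W986

/-- The closure of the lists of the patch, with the pairs `ne` of different labels, is
contradictory. -/
def LegF.ctr (P : ST.Patch) (ne : List (Nat × Nat)) : Bool := LegF.contra P.n P.lk P.lb ne

/-- The closure of the lists of the patch is contradictory. -/
def LegF.leafI (P : ST.Patch) : Bool := LegF.contra P.n P.lk P.lb []

end Pool.Agent.W986
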