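import Pool.Agent.W986.SubLeafB
import Pool.Agent.W986.SubLegPB

/-!
# The leaves of the trees
-/

set_option autoImplicit false

namespace Pool.Agent.W986.ST

/-- The leaf for impossible patches, without numbers. -/
def lC (P : Patch) : Bool := LegF.leafI P

/-- The leaf for impossible patches. -/
def lI (P : Patch) : Bool := cf (LB.leafI P) true (LegF.leafI P)

/-- The leaf for the inequality at the hub. -/
def lF (P : Patch) : Bool := cf (LB.leafB LB.ctrU LB.exU P) true (LegF.leafI P)

/-- The facts below `b` and those from `n` on: the table for the second run. -/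
def flm (fl : ℕ → Option Fact) (b n c : ℕ) : Option Fact :=
  cf (Nat.ble (Nat.succ c) b) (fl c) (cf (Nat.ble n c) (fl c) none)

end Pool.Agent.W986.ST
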