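import Pool.Agent.W986.SubLegal
import Pool.Agent.W986.SubLegB

/-!
# Legality: the fast tables are correct

The hypotheses are collected in `LegF.Hyp`; the result is `LegF.Hyp.clo_sound`.
-/

set_option autoImplicit false

open Finset

namespace Pool.Agent.W986.LegF

/-! ### Bits -/

theorem beq_iff (x y : ℕ) : Nat.beq x y = true ↔ x = y :=
  ⟨Nat.eq_of_beq_eq_true, fun h => h ▸ Nat.beq_refl x⟩

theorem sb_eq (m i : ℕ) : sb m i = m.testBit i := Leg.sb_eq m i

theorem ix_eq (x y : ℕ) : ix x y = 32 * x + y := rfl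

theorem ix_inj {x y x' y' : ℕ} (hy : y < 32) (hy' : y' < 32) (h : ix x y = ix x' y') :
    x = x' ∧ y = y' := by
  rw [ix_eq, ix_eq] at h
  omega

theorem tb_row {M x y : ℕ} : (row M x).testBit y = true ↔ y < 32 ∧ M.testBit (ix x y) = true := by
  change ((M >>> (32 * x)) &&& 4294967295).testBit y = true ↔ _
  rw [show (4294967295 : ℕ) = 2 ^ 32 - 1 by norm_num, Nat.testBit_and, Bool.and_eq_true,
    Nat.testBit_two_pow_sub_one, decide_eq_true_eq, Nat.testBit_shiftRight, ix_eq]
  exact and_comm

theorem tb_bt {i j : ℕ} : (bt i).testBit j = true ↔ i = j := by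
  change (1 <<< i).testBit j = true ↔ i = j
  rw [Nat.testBit_shiftLeft, Bool.and_eq_true, decide_eq_true_eq,
    Nat.testBit_one_eq_true_iff_self_eq_zero]
  omega

theorem tb_lor {a b i : ℕ} : (Nat.lor a b).testBit i = true ↔
    a.testBit i = true ∨ b.testBit i = true := by
  change (a ||| b).testBit i = true ↔ _
  rw [Nat.testBit_or, Bool.or_eq_true]

theorem tb_land {a b i : ℕ} : (Nat.land a b).testBit i = true ↔
    a.testBit i = true ∧ b.testBit i = true := by
  change (a &&& b).testBit i = true ↔ _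
  rw [Nat.testBit_and, Bool.and_eq_true]

theorem tb_diff {a b i : ℕ} : (diff a b).testBit i = true ↔
    a.testBit i = true ∧ b.testBit i = false := by
  change ((a ||| b) ^^^ b).testBit i = true ↔ _
  rw [Nat.testBit_xor, Nat.testBit_or]
  cases a.testBit i <;> cases b.testBit i <;> decide

theorem tb_xor {a i j : ℕ} : (Nat.xor a (bt i)).testBit j = true ↔
    (i ≠ j ∧ a.testBit j = true) ∨ (i = j ∧ a.testBit j = false) := by
  change (a ^^^ bt i).testBit j = true ↔ _
  rw [Nat.testBit_xor]
  by_cases h : i = j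
  · rw [tb_bt.2 h]
    cases a.testBit j <;> simp [h]
  · have h1 : (bt i).testBit j = false := by
      rw [← Bool.not_eq_true]
      exact fun h2 => h (tb_bt.1 h2)
    rw [h1]
    cases a.testBit j <;> simp [h]

theorem tb_shl {a b i : ℕ} : (Nat.shiftLeft a b).testBit i = true ↔
    b ≤ i ∧ a.testBit (i - b) = true := by
  change (a <<< b).testBit i = true ↔ _
  rw [Nat.testBit_shiftLeft, Bool.and_eq_true, decide_eq_true_eq]

theorem not_tb {a i : ℕ} (h : a.testBit i = false) : ¬ a.testBit i = true := by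
  rw [h]
  decide

/-- A table whose pairs have the property `P`. -/
def Gd (P : ℕ → ℕ → Prop) (M : ℕ) : Prop :=
  ∀ x y, x < 32 → y < 32 → M.testBit (ix x y) = true → P x y

theorem Gd.zero (P : ℕ → ℕ → Prop) : Gd P 0 := by
  intro x y _ _ h
  rw [Nat.zero_testBit] at h
  exact absurd h (by decide)

theorem Gd.lor {P : ℕ → ℕ → Prop} {M N : ℕ} (h : Gd P M) (h' : Gd P N) : Gd P (Nat.lor M N) := by
  intro x y hx hy h1
  rcases tb_lor.1 h1 with h2 | h2
  · exact h x y hx hy h2
  · exact h' x y hx hy h2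

theorem Gd.bt {P : ℕ → ℕ → Prop} {a b : ℕ} (hb : b < 32) (h : P a b) : Gd P (bt (ix a b)) := by
  intro x y _ hy h1
  obtain ⟨rfl, rfl⟩ := ix_inj hb hy (tb_bt.1 h1)
  exact h

theorem Gd.row {P : ℕ → ℕ → Prop} {M x y : ℕ} (h : Gd P M) (hx : x < 32)
    (h1 : (row M x).testBit y = true) : y < 32 ∧ P x y := by
  have h2 := tb_row.1 h1
  exact ⟨h2.1, h x y hx h2.1 h2.2⟩

theorem Gd.addS {P : ℕ → ℕ → Prop} {x : ℕ} (hx : x < 32) (fuel : ℕ) :
    ∀ N M, Gd P M → (∀ y, N.testBit y = true → y < 32 ∧ P x y ∧ P y x) →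
      Gd P (addS x fuel N M) := by
  induction fuel with
  | zero => exact fun N M h _ => h
  | succ m ih =>
    intro N M h hN
    change Gd P (cf (Nat.beq N 0) M
      (frc (Nat.log2 N) fun y => frc (Nat.lor M (Nat.lor (LegF.bt (ix x y)) (LegF.bt (ix y x))))
        fun M' => frc (Nat.xor N (LegF.bt y)) fun N' => LegF.addS x m N' M'))
    cases hb : Nat.beq N 0 with
    | true => exact h
    | false =>
      rw [cf_false, frc_eq, frc_eq, frc_eq]
      have h0 : N ≠ 0 := by
        rintro rfl
        exact absurd hb (by decide)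
      have h1 := Nat.testBit_log2 h0
      obtain ⟨h2, h3, h4⟩ := hN _ h1
      refine ih _ _ (h.lor ((Gd.bt h2 h3).lor (Gd.bt hx h4))) fun y hy => hN y ?_
      rcases tb_xor.1 hy with h5 | h5
      · exact h5.2
      · rw [← h5.1, h1] at h5
        exact absurd h5.2 (by decide)

theorem orRows_spec {A y : ℕ} (fuel : ℕ) : ∀ m acc, (orRows A fuel m acc).testBit y = true →
    acc.testBit y = true ∨ ∃ z, m.testBit z = true ∧ (row A z).testBit y = true := by
  induction fuel with
  | zero => exact fun m acc h => Or.inl h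
  | succ n ih =>
    intro m acc h
    change (cf (Nat.beq m 0) acc
      (frc (Nat.log2 m) fun z => frc (Nat.lor acc (row A z)) fun acc' =>
        frc (Nat.xor m (bt z)) fun m' => orRows A n m' acc')).testBit y = true at h
    cases hb : Nat.beq m 0 with
    | true =>
      rw [hb, cf_true] at h
      exact Or.inl h
    | false =>
      rw [hb, cf_false, frc_eq, frc_eq, frc_eq] at h
      have h0 : m ≠ 0 := by
        rintro rfl
        exact absurd hb (by decide)
      have h1 := Nat.testBit_log2 h0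
      rcases ih _ _ h with h2 | ⟨z, h2, h3⟩
      · rcases tb_lor.1 h2 with h3 | h3
        · exact Or.inl h3
        · exact Or.inr ⟨_, h1, h3⟩
      · rcases tb_xor.1 h2 with h5 | h5
        · exact Or.inr ⟨z, h5.2, h3⟩
        · rw [← h5.1, h1] at h5
          exact absurd h5.2 (by decide)

theorem andRows_spec {E y : ℕ} (l : List ℕ) : ∀ acc, (andRows E l acc).testBit y = true →
    acc.testBit y = true ∧ ∀ z ∈ l, (row E z).testBit y = true := by
  induction l with
  | nil => exact fun acc h => ⟨h, fun z hz => absurd hz List.not_mem_nil⟩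
  | cons x l ih =>
    intro acc h
    change (frc (Nat.land acc (row E x)) fun a => andRows E l a).testBit y = true at h
    rw [frc_eq] at h
    obtain ⟨h1, h2⟩ := ih _ h
    obtain ⟨h3, h4⟩ := tb_land.1 h1
    refine ⟨h3, fun z hz => ?_⟩
    rcases List.mem_cons.1 hz with rfl | hz
    · exact h4
    · exact h2 z hz

/-- What `cLoop` gives. -/
theorem cLoop_spec {J E A EU y : ℕ} (fuel : ℕ) : ∀ C Y,
    (cLoop J E A EU fuel C Y).testBit y = true →
    Y.testBit y = true ∧ ∀ c, C.testBit c = true → (row A c).testBit y = true ∨ c = y ∨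
      ∃ w, (row J c).testBit w = true ∧ EU.testBit w = true ∧ (row E w).testBit y = true := by
  induction fuel with
  | zero =>
    intro C Y h
    change (0 : ℕ).testBit y = true at h
    rw [Nat.zero_testBit] at h
    exact absurd h (by decide)
  | succ n ih =>
    intro C Y h
    change (cf (Nat.beq C 0) Y (cf (Nat.beq Y 0) 0
      (frc (Nat.log2 C) fun c =>
        frc (Nat.land Y (Nat.lor (Nat.lor (row A c) (bt c))
          (orRows E 32 (Nat.land (row J c) EU) 0))) fun Y' =>
        frc (Nat.xor C (bt c)) fun C' => cLoop J E A EU n C' Y'))).testBit y = true at h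
    cases hb : Nat.beq C 0 with
    | true =>
      rw [hb, cf_true] at h
      have h0 := Nat.eq_of_beq_eq_true hb
      subst h0
      refine ⟨h, fun c hc => ?_⟩
      rw [Nat.zero_testBit] at hc
      exact absurd hc (by decide)
    | false =>
      rw [hb, cf_false] at h
      cases hb' : Nat.beq Y 0 with
      | true =>
        rw [hb', cf_true, Nat.zero_testBit] at h
        exact absurd h (by decide)
      | false =>
        rw [hb', cf_false, frc_eq, frc_eq, frc_eq] at h
        obtain ⟨h1, h2⟩ := ih _ _ h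
        obtain ⟨h3, h4⟩ := tb_land.1 h1
        refine ⟨h3, fun c hc => ?_⟩
        by_cases hcc : Nat.log2 C = c
        · rw [hcc] at h4
          rcases tb_lor.1 h4 with h5 | h5
          · rcases tb_lor.1 h5 with h6 | h6
            · exact Or.inl h6
            · exact Or.inr (Or.inl (tb_bt.1 h6))
          · rcases orRows_spec _ _ _ h5 with h6 | ⟨w, h6, h7⟩
            · rw [Nat.zero_testBit] at h6
              exact absurd h6 (by decide)
            · obtain ⟨h8, h9⟩ := tb_land.1 h6
              exact Or.inr (Or.inr ⟨w, h8, h9, h7⟩)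
        · exact h2 c (tb_xor.2 (Or.inl ⟨hcc, hc⟩))

theorem mem_orB {l : List ℕ} {x : ℕ} : (orB l).testBit x = true ↔ x ∈ l := by
  induction l with
  | nil =>
    change (0 : ℕ).testBit x = true ↔ _
    rw [Nat.zero_testBit]
    simp
  | cons y l ih =>
    change (Nat.lor (bt y) (orB l)).testBit x = true ↔ _
    rw [tb_lor, tb_bt, ih, List.mem_cons, eq_comm]

theorem Gd.shl {P : ℕ → ℕ → Prop} {N x : ℕ} (h : ∀ y, N.testBit y = true → y < 32 ∧ P x y) :
    Gd P (Nat.shiftLeft N (Nat.mul 32 x)) := by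
  intro x' y' _ hy' h1
  obtain ⟨h2, h3⟩ := tb_shl.1 h1
  obtain ⟨h4, h5⟩ := h _ h3
  change 32 * x ≤ 32 * x' + y' at h2
  change 32 * x' + y' - 32 * x < 32 at h4
  change P x (32 * x' + y' - 32 * x) at h5
  have h6 : x' = x := by omega
  subst h6
  rw [show 32 * x' + y' - 32 * x' = y' by omega] at h5
  exact h5

/-! ### Pairs of neighbours in a list -/

theorem hd_eq (l : List ℕ) : hd l 0 = l.getD 0 0 := by
  cases l <;> rfl

theorem lab_pos {l pre t : List ℕ} {x : ℕ} (h : l = pre ++ x :: t) :
    lab l pre.length = x ∧ lab l (pre.length + 1) = hd t (hd l 0) := by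
  have hlen : l.length = pre.length + (t.length + 1) := by
    rw [h, List.length_append, List.length_cons]
  constructor
  · unfold lab
    rw [Nat.mod_eq_of_lt (by omega), h, List.getD_append_right _ _ _ _ (le_refl _), Nat.sub_self]
    rfl
  · unfold lab
    cases t with
    | nil =>
      rw [List.length_nil] at hlen
      rw [show pre.length + 1 = l.length by omega, Nat.mod_self]
      exact (hd_eq l).symm
    | cons y t =>
      rw [List.length_cons] at hlen
      rw [Nat.mod_eq_of_lt (by omega), h, List.getD_append_right _ _ _ _ (by omega),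
        Nat.add_sub_cancel_left]
      rfl

theorem prs_cons (a x : ℕ) (t : List ℕ) (M : ℕ) : prs a (x :: t) M =
    prs a t (Nat.lor M (Nat.lor (bt (ix x (hd t a))) (bt (ix (hd t a) x)))) := by
  change frc (Nat.lor M (Nat.lor (bt (ix x (hd t a))) (bt (ix (hd t a) x)))) _ = _
  rw [frc_eq]
  rfl

theorem prs_mono {a i : ℕ} (s : List ℕ) : ∀ M : ℕ, M.testBit i = true →
    (prs a s M).testBit i = true := by
  induction s with
  | nil => exact fun M h => h
  | cons x t ih =>
    intro M h
    rw [prs_cons]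
    exact ih _ (tb_lor.2 (Or.inl h))

theorem prs_at {a x : ℕ} {t : List ℕ} (pre : List ℕ) : ∀ M : ℕ,
    (prs a (pre ++ x :: t) M).testBit (ix x (hd t a)) = true ∧
      (prs a (pre ++ x :: t) M).testBit (ix (hd t a) x) = true := by
  induction pre with
  | nil =>
    intro M
    rw [List.nil_append, prs_cons]
    exact ⟨prs_mono _ _ (tb_lor.2 (Or.inr (tb_lor.2 (Or.inl (tb_bt.2 rfl))))),
      prs_mono _ _ (tb_lor.2 (Or.inr (tb_lor.2 (Or.inr (tb_bt.2 rfl)))))⟩
  | cons y pre ih =>
    intro M
    rw [List.cons_append, prs_cons]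
    exact ih _

theorem Gd.prs {P : ℕ → ℕ → Prop} {a : ℕ} (s : List ℕ) : ∀ M : ℕ, Gd P M →
    (∀ pre x t, s = pre ++ x :: t → x < 32 ∧ hd t a < 32 ∧ P x (hd t a) ∧ P (hd t a) x) →
      Gd P (prs a s M) := by
  induction s with
  | nil => exact fun M h _ => h
  | cons x t ih =>
    intro M h hs
    rw [prs_cons]
    obtain ⟨h1, h2, h3, h4⟩ := hs [] x t rfl
    refine ih _ (h.lor ((Gd.bt h2 h3).lor (Gd.bt h1 h4))) fun pre y t' ht => ?_
    exact hs (x :: pre) y t' (by rw [ht]; rfl)

/-! ### The hypotheses -/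

/-- What is known about the vertices of the labels. -/
structure Hyp {V : Type} (G : SimpleGraph V) (T : V → V → V → Prop) (I : Finset V) (f : ℕ → V)
    (lk : List (ℕ × List ℕ)) (lb ne0 : List (ℕ × ℕ)) : Prop where
  rot : ∀ p ∈ lk, Rotn G T (f p.1) p.2.length (fun t => f (lab p.2 t))
  rel : TriRel G T
  mem : ∀ p ∈ lk, f p.1 ∈ I
  three : ∀ a ∈ I, ∀ b c, G.Adj a b → G.Adj b c → G.Adj c a → T a b c
  four : ∀ a ∈ I, ∀ b c d, a ≠ c → b ≠ d → G.Adj a b → G.Adj b c → G.Adj c d → G.Adj d a →
    G.Adj a c ∨ G.Adj b d ∨ ∃ m ∈ I, ∀ x, G.Adj m x ↔ x = a ∨ x = b ∨ x = c ∨ x = d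
  lb : ∀ p ∈ lb, f p.1 ∈ I → p.2 ≤ {y | G.Adj (f p.1) y}.ncard
  ne0 : ∀ p ∈ ne0, f p.1 ≠ f p.2

/-- The labels are small. -/
structure Wf (n : ℕ) (lk : List (ℕ × List ℕ)) (ne0 : List (ℕ × ℕ)) : Prop where
  hn : n ≤ 32
  hlk : ∀ p ∈ lk, p.1 < n ∧ ∀ x ∈ p.2, x < n
  hne : ∀ p ∈ ne0, p.1 < n ∧ p.2 < n

theorem allLt_spec {n : ℕ} {l : List ℕ} (h : allLt n l = true) : ∀ x ∈ l, x < n := by
  induction l with
  | nil => exact fun x hx => absurd hx List.not_mem_nil
  | cons y l ih =>
    change cf (Nat.ble (Nat.succ y) n) (allLt n l) false = true at h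
    cases hb : Nat.ble (Nat.succ y) n with
    | false => rw [hb] at h; exact absurd h Bool.false_ne_true
    | true =>
      rw [hb, cf_true] at h
      intro x hx
      rcases List.mem_cons.1 hx with rfl | hx
      · exact Nat.le_of_ble_eq_true hb
      · exact ih h x hx

theorem allLk_spec {n : ℕ} {lk : List (ℕ × List ℕ)} (h : allLk n lk = true) :
    ∀ p ∈ lk, p.1 < n ∧ ∀ x ∈ p.2, x < n := by
  induction lk with
  | nil => exact fun x hx => absurd hx List.not_mem_nil
  | cons q lk ih =>
    change cf (Nat.ble (Nat.succ q.1) n) (cf (allLt n q.2) (allLk n lk) false) false = true at h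
    cases hb : Nat.ble (Nat.succ q.1) n with
    | false => rw [hb] at h; exact absurd h Bool.false_ne_true
    | true =>
      rw [hb, cf_true] at h
      cases hc : allLt n q.2 with
      | false => rw [hc] at h; exact absurd h Bool.false_ne_true
      | true =>
        rw [hc, cf_true] at h
        intro p hp
        rcases List.mem_cons.1 hp with rfl | hp
        · exact ⟨Nat.le_of_ble_eq_true hb, allLt_spec hc⟩
        · exact ih h p hp

theorem allPr_spec {n : ℕ} {l : List (ℕ × ℕ)} (h : allPr n l = true) :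
    ∀ p ∈ l, p.1 < n ∧ p.2 < n := by
  induction l with
  | nil => exact fun x hx => absurd hx List.not_mem_nil
  | cons q l ih =>
    change cf (Nat.ble (Nat.succ q.1) n) (cf (Nat.ble (Nat.succ q.2) n) (allPr n l) false) false =
      true at h
    cases hb : Nat.ble (Nat.succ q.1) n with
    | false => rw [hb] at h; exact absurd h Bool.false_ne_true
    | true =>
      rw [hb, cf_true] at h
      cases hc : Nat.ble (Nat.succ q.2) n with
      | false => rw [hc] at h; exact absurd h Bool.false_ne_true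
      | true =>
        rw [hc, cf_true] at h
        intro p hp
        rcases List.mem_cons.1 hp with rfl | hp
        · exact ⟨Nat.le_of_ble_eq_true hb, Nat.le_of_ble_eq_true hc⟩
        · exact ih h p hp

section snd

variable {V : Type} {G : SimpleGraph V} {T : V → V → V → Prop} {I : Finset V} {f : ℕ → V}
  {lk : List (ℕ × List ℕ)} {lb ne0 : List (ℕ × ℕ)} {n : ℕ}

/-- The pair belongs to adjacent vertices. -/
def PJ (G : SimpleGraph V) (f : ℕ → V) (x y : ℕ) : Prop := G.Adj (f x) (f y)

/-- The pair belongs to different vertices. -/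
def PE (f : ℕ → V) (x y : ℕ) : Prop := f x ≠ f y

/-- The pair belongs to vertices which are not adjacent. -/
def PA (G : SimpleGraph V) (f : ℕ → V) (x y : ℕ) : Prop := ¬ G.Adj (f x) (f y)

theorem Hyp.adj_iff (h : Hyp G T I f lk lb ne0) {p : ℕ × List ℕ} (hp : p ∈ lk) {v : V} :
    G.Adj (f p.1) v ↔ ∃ x ∈ p.2, f x = v := by
  have h1 := h.rot p hp
  rw [h1.adj]
  have hd := h1.three
  constructor
  · rintro ⟨t, ht, hv⟩
    exact ⟨_, mem_lab t (by omega), hv⟩
  · rintro ⟨x, hx, hv⟩
    obtain ⟨t, ht, h2⟩ := lab_mem hx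
    exact ⟨t, ht, by rw [h2, hv]⟩

theorem Hyp.inj (h : Hyp G T I f lk lb ne0) {p : ℕ × List ℕ} (hp : p ∈ lk) {x y : ℕ}
    (hx : x ∈ p.2) (hy : y ∈ p.2) (hxy : f x = f y) : x = y := by
  obtain ⟨t, ht, h2⟩ := lab_mem hx
  obtain ⟨s, hs, h3⟩ := lab_mem hy
  have h1 := (h.rot p hp).inj t ht s hs (by rw [h2, h3, hxy])
  rw [← h2, ← h3, h1]

theorem Hyp.nxt (h : Hyp G T I f lk lb ne0) {p : ℕ × List ℕ} (hp : p ∈ lk) {pre t : List ℕ}
    {x : ℕ} (hd' : p.2 = pre ++ x :: t) : T (f p.1) (f x) (f (hd t (hd p.2 0))) ∧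
      x ∈ p.2 ∧ hd t (hd p.2 0) ∈ p.2 := by
  have h1 := (h.rot p hp).tri_next pre.length
  have h2 := (h.rot p hp).three
  obtain ⟨h3, h4⟩ := lab_pos hd'
  beta_reduce at h1
  rw [h3, h4] at h1
  refine ⟨h1, ?_, ?_⟩
  · rw [← h3]
    exact mem_lab _ (by omega)
  · rw [← h4]
    exact mem_lab _ (by omega)

/-- Two neighbours of a vertex which form a triangle with it are neighbours in the list. -/
theorem Hyp.tri (h : Hyp G T I f lk lb ne0) {p : ℕ × List ℕ} (hp : p ∈ lk) {x y : ℕ}
    (hx : x ∈ p.2) (hy : y ∈ p.2) (hT : T (f p.1) (f x) (f y)) (M : ℕ) :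
    (prs (hd p.2 0) p.2 M).testBit (ix x y) = true := by
  obtain ⟨t, ht, h2⟩ := lab_mem hx
  have h1 := h.rot p hp
  have hd' := h1.three
  have h3 := h1.tri (t + p.2.length - 1) (f y)
  beta_reduce at h3
  rw [show t + p.2.length - 1 + 1 = t + p.2.length by omega, lab_per, h2,
    show t + p.2.length - 1 + 2 = t + 1 + p.2.length by omega, lab_per] at h3
  have key : ∀ s, s < p.2.length →
      (prs (hd p.2 0) p.2 M).testBit (ix (lab p.2 s) (lab p.2 (s + 1))) = true ∧
      (prs (hd p.2 0) p.2 M).testBit (ix (lab p.2 (s + 1)) (lab p.2 s)) = true := by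
    intro s hs
    have h4 : p.2 = p.2.take s ++ p.2[s] :: p.2.drop (s + 1) := by
      rw [List.getElem_cons_drop, List.take_append_drop]
    have h5 := lab_pos h4
    have h6 : (p.2.take s).length = s := by
      rw [List.length_take]
      omega
    rw [h6] at h5
    have h7 := prs_at (a := hd p.2 0) (x := p.2[s]) (t := p.2.drop (s + 1)) (p.2.take s) M
    rw [← h4] at h7
    rw [h5.1, h5.2]
    exact h7
  rcases h3.1 hT with h4 | h4
  · have h5 := h.inj hp hy (mem_lab (l := p.2) (t + p.2.length - 1) (by omega)) h4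
    have h6 := (key ((t + p.2.length - 1) % p.2.length) (Nat.mod_lt _ (by omega))).2
    have h7 : lab p.2 ((t + p.2.length - 1) % p.2.length) = y := by
      rw [h5]
      exact lab_congr _ (Nat.mod_mod _ _)
    have h8 : lab p.2 ((t + p.2.length - 1) % p.2.length + 1) = x := by
      rw [← h2, ← lab_per p.2 t]
      apply lab_congr
      rw [Nat.add_mod, Nat.mod_mod, ← Nat.add_mod, show t + p.2.length - 1 + 1 =
        t + p.2.length by omega]
    rw [h7, h8] at h6
    exact h6
  · have h5 := h.inj hp hy (mem_lab (l := p.2) (t + 1) (by omega)) h4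
    have h6 := (key t ht).1
    rw [h2, ← h5] at h6
    exact h6

theorem Gd.stepE {J A : ℕ} (hJ : Gd (PJ G f) J) (hA : Gd (PA G f) A) (n : ℕ) :
    n ≤ 32 → ∀ E, Gd (PE f) E → Gd (PE f) (stepE J A n E) := by
  induction n with
  | zero => exact fun _ E h => h
  | succ x ih =>
    intro hn E h
    change Gd (PE f) (frc (diff (orRows A 32 (LegF.row J x) 0) (LegF.row E x)) fun N =>
      frc (LegF.addS x 32 N E) fun E' => LegF.stepE J A x E')
    rw [frc_eq, frc_eq]
    refine ih (by omega) _ (h.addS (by omega) _ _ _ fun y hy => ?_)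
    rcases orRows_spec _ _ _ (tb_diff.1 hy).1 with h1 | ⟨z, h1, h2⟩
    · rw [Nat.zero_testBit] at h1
      exact absurd h1 (by decide)
    · obtain ⟨hz, h3⟩ := hJ.row (by omega) h1
      obtain ⟨hy', h4⟩ := hA.row hz h2
      have h5 : f x ≠ f y := by
        intro h6
        apply h4
        change G.Adj (f x) (f z) at h3
        rw [h6] at h3
        exact h3.symm
      exact ⟨hy', h5, h5.symm⟩

theorem tb_full {y : ℕ} (h : (4294967295 : ℕ).testBit y = true) : y < 32 := by
  rw [show (4294967295 : ℕ) = 2 ^ 32 - 1 by norm_num, Nat.testBit_two_pow_sub_one,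
    decide_eq_true_eq] at h
  exact h

theorem Hyp.stepL (h : Hyp G T I f lk lb ne0) (hw : Wf n lk ne0) {E : ℕ} (hE : Gd (PE f) E)
    (lk' : List (ℕ × List ℕ)) : (∀ p ∈ lk', p ∈ lk) → ∀ A, Gd (PA G f) A →
      Gd (PA G f) (stepL E lk' A) := by
  induction lk' with
  | nil => exact fun _ A h => h
  | cons p lk' ih =>
    intro hs A hA
    change Gd (PA G f) (frc (addS p.1 32 (diff (andRows E p.2 4294967295) (row A p.1)) A)
      fun A' => LegF.stepL E lk' A')
    rw [frc_eq]
    have hp := hs p List.mem_cons_self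
    have hn := hw.hn
    have hpn := hw.hlk p hp
    refine ih (fun q hq => hs q (List.mem_cons_of_mem _ hq)) _ (hA.addS (by omega) _ _ _
      fun y hy => ?_)
    obtain ⟨h1, h2⟩ := andRows_spec _ _ (tb_diff.1 hy).1
    have h3 : ¬ G.Adj (f p.1) (f y) := by
      intro h4
      obtain ⟨z, hz, hzy⟩ := (h.adj_iff hp).1 h4
      have h5 := hpn.2 z hz
      exact (hE.row (by omega) (h2 z hz)).2 hzy
    exact ⟨tb_full h1, h3, fun h4 => h3 h4.symm⟩

theorem len_eq (l : List ℕ) : len l = l.length := by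
  induction l with
  | nil => rfl
  | cons x l ih =>
    change Nat.succ (len l) = _
    rw [ih, List.length_cons]

theorem not4_spec {lk : List (ℕ × List ℕ)} {c : ℕ} (h : (not4 lk).testBit c = true) :
    ∃ p ∈ lk, p.1 = c ∧ p.2.length ≠ 4 := by
  induction lk with
  | nil =>
    change (0 : ℕ).testBit c = true at h
    rw [Nat.zero_testBit] at h
    exact absurd h (by decide)
  | cons q lk ih =>
    change (cf (Nat.beq (len q.2) 4) (not4 lk) (Nat.lor (bt q.1) (not4 lk))).testBit c = true at h
    cases hb : Nat.beq (len q.2) 4 with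
    | true =>
      rw [hb, cf_true] at h
      obtain ⟨p, hp, h1⟩ := ih h
      exact ⟨p, List.mem_cons_of_mem _ hp, h1⟩
    | false =>
      rw [hb, cf_false] at h
      rcases tb_lor.1 h with h1 | h1
      · refine ⟨q, List.mem_cons_self, tb_bt.1 h1, fun h2 => ?_⟩
        rw [len_eq, h2] at hb
        exact absurd hb (by decide)
      · obtain ⟨p, hp, h1⟩ := ih h1
        exact ⟨p, List.mem_cons_of_mem _ hp, h1⟩

theorem big5_spec {lb : List (ℕ × ℕ)} {c : ℕ} (h : (big5 lb).testBit c = true) :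
    ∃ p ∈ lb, p.1 = c ∧ 5 ≤ p.2 := by
  induction lb with
  | nil =>
    change (0 : ℕ).testBit c = true at h
    rw [Nat.zero_testBit] at h
    exact absurd h (by decide)
  | cons q lb ih =>
    change (cf (Nat.ble 5 q.2) (Nat.lor (bt q.1) (big5 lb)) (big5 lb)).testBit c = true at h
    cases hb : Nat.ble 5 q.2 with
    | false =>
      rw [hb, cf_false] at h
      obtain ⟨p, hp, h1⟩ := ih h
      exact ⟨p, List.mem_cons_of_mem _ hp, h1⟩
    | true =>
      rw [hb, cf_true] at h
      rcases tb_lor.1 h with h1 | h1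
      · exact ⟨q, List.mem_cons_self, tb_bt.1 h1, Nat.le_of_ble_eq_true hb⟩
      · obtain ⟨p, hp, h1⟩ := ih h1
        exact ⟨p, List.mem_cons_of_mem _ hp, h1⟩

/-- The labels of inner vertices of degree 4 are in the set `f4`. -/
theorem Hyp.f4 (h : Hyp G T I f lk lb ne0) {c : ℕ} (hc : c < 32) (hI : f c ∈ I)
    (h4 : {y | G.Adj (f c) y}.ncard = 4) : (LegF.f4 lk lb).testBit c = true := by
  refine tb_diff.2 ⟨?_, ?_⟩
  · rw [show (4294967295 : ℕ) = 2 ^ 32 - 1 by norm_num, Nat.testBit_two_pow_sub_one,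
      decide_eq_true_eq]
    exact hc
  · rw [← Bool.not_eq_true]
    intro h1
    rcases tb_lor.1 h1 with h2 | h2
    · obtain ⟨p, hp, rfl, h3⟩ := not4_spec h2
      exact h3 (by rw [← (h.rot p hp).card, h4])
    · obtain ⟨p, hp, rfl, h3⟩ := big5_spec h2
      have h5 := h.lb p hp hI
      omega

/-- No inner vertex of degree 4 has the neighbours `u`, `x`, `v`, `y`. -/
theorem Hyp.no4 (h : Hyp G T I f lk lb ne0) (hw : Wf n lk ne0) {J E A : ℕ}
    (hJ : Gd (PJ G f) J) (hE : Gd (PE f) E) (hA : Gd (PA G f) A) {p : ℕ × List ℕ} (hp : p ∈ lk)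
    {x v y C : ℕ} (hx : x < 32) (hv : v < 32) (hy : y < 32)
    (hC : C = diff (Nat.land (orB p.2) (LegF.f4 lk lb))
      (Nat.lor (Nat.lor (row A x) (row A v)) (Nat.lor (bt x) (bt v))))
    (hc : ∀ c, C.testBit c = true → (row A c).testBit y = true ∨ c = y ∨
      ∃ w, (row J c).testBit w = true ∧
        (Nat.land (Nat.land (row E p.1) (row E x)) (row E v)).testBit w = true ∧
        (row E w).testBit y = true)
    {m : V} (hmI : m ∈ I) (hN : ∀ z, G.Adj m z ↔ z = f p.1 ∨ z = f x ∨ z = f v ∨ z = f y)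
    (h1 : f p.1 ≠ f x) (h2 : f p.1 ≠ f v) (h3 : f p.1 ≠ f y) (h4 : f x ≠ f v) (h5 : f x ≠ f y)
    (h6 : f v ≠ f y) : False := by
  obtain ⟨c, hcp, rfl⟩ := (h.adj_iff hp).1 ((hN _).2 (Or.inl rfl)).symm
  have hn := hw.hn
  have hpn := hw.hlk p hp
  have hcn := hpn.2 c hcp
  have ax : G.Adj (f c) (f x) := (hN _).2 (Or.inr (Or.inl rfl))
  have av : G.Adj (f c) (f v) := (hN _).2 (Or.inr (Or.inr (Or.inl rfl)))
  have ay : G.Adj (f c) (f y) := (hN _).2 (Or.inr (Or.inr (Or.inr rfl)))
  have hCc : C.testBit c = true := by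
    rw [hC]
    refine tb_diff.2 ⟨tb_land.2 ⟨mem_orB.2 hcp, h.f4 (by omega) hmI
      (SLeg.ncard_four hN h1 h2 h3 h4 h5 h6)⟩, ?_⟩
    rw [← Bool.not_eq_true]
    intro h7
    rcases tb_lor.1 h7 with h8 | h8
    · rcases tb_lor.1 h8 with h9 | h9
      · exact (hA.row hx h9).2 ax.symm
      · exact (hA.row hv h9).2 av.symm
    · rcases tb_lor.1 h8 with h9 | h9
      · rw [tb_bt.1 h9] at ax
        exact G.loopless.irrefl _ ax
      · rw [tb_bt.1 h9] at av
        exact G.loopless.irrefl _ av
  rcases hc c hCc with h7 | h7 | ⟨w, h7, h8, h9⟩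
  · exact (hA.row (by omega) h7).2 ay
  · rw [h7] at ay
    exact G.loopless.irrefl _ ay
  · obtain ⟨hw1, k1⟩ := hJ.row (by omega) h7
    obtain ⟨k2, k3⟩ := tb_land.1 h8
    obtain ⟨k4, k5⟩ := tb_land.1 k2
    have e1 := (hE.row (by omega) k4).2
    have e2 := (hE.row hx k5).2
    have e3 := (hE.row hv k3).2
    have e4 := (hE.row hw1 h9).2
    rcases (hN _).1 k1 with k6 | k6 | k6 | k6
    · exact e1 k6.symm
    · exact e2 k6.symm
    · exact e3 k6.symm
    · exact e4 k6

theorem Hyp.vLoop (h : Hyp G T I f lk lb ne0) (hw : Wf n lk ne0) {J E : ℕ}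
    (hJ : Gd (PJ G f) J) (hE : Gd (PE f) E) {p : ℕ × List ℕ} (hp : p ∈ lk) {x : ℕ}
    (hx : x ∈ p.2) (fuel : ℕ) : ∀ W A, Gd (PA G f) A →
      (∀ v, W.testBit v = true → v < 32 ∧ G.Adj (f p.1) (f v) ∧ ¬ G.Adj (f x) (f v) ∧
        f x ≠ f v) →
      Gd (PA G f) (vLoop J E (Nat.land (orB p.2) (LegF.f4 lk lb)) p.1 x fuel W A) := by
  have hn := hw.hn
  have hpn := hw.hlk p hp
  have hxn := hpn.2 x hx
  induction fuel with
  | zero => exact fun W A hA _ => hA
  | succ fuel ih =>
    intro W A hA hW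
    change Gd (PA G f) (cf (Nat.beq W 0) A
      (frc (Nat.log2 W) fun v => frc (Nat.xor W (bt v)) fun V' =>
        frc (diff (Nat.land (row J v) (Nat.land (row A p.1) (row E p.1))) (row A x)) fun Y =>
        cf (Nat.beq Y 0) (LegF.vLoop J E (Nat.land (orB p.2) (LegF.f4 lk lb)) p.1 x fuel V' A)
          (frc (diff (Nat.land (orB p.2) (LegF.f4 lk lb))
            (Nat.lor (Nat.lor (row A x) (row A v)) (Nat.lor (bt x) (bt v)))) fun C =>
            frc (cLoop J E A (Nat.land (Nat.land (row E p.1) (row E x)) (row E v)) 32 C Y) fun Y' =>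
            frc (addS x 32 Y' A) fun A' =>
              LegF.vLoop J E (Nat.land (orB p.2) (LegF.f4 lk lb)) p.1 x fuel V' A')))
    cases hb : Nat.beq W 0 with
    | true => exact hA
    | false =>
      have h0 : W ≠ 0 := by
        rintro rfl
        exact absurd hb (by decide)
      have hlog := Nat.testBit_log2 h0
      rw [cf_false, frc_eq, frc_eq, frc_eq]
      generalize Nat.log2 W = v at hlog
      obtain ⟨hv, a1, a2, a3⟩ := hW v hlog
      have hW' : ∀ w, (Nat.xor W (bt v)).testBit w = true → w < 32 ∧ G.Adj (f p.1) (f w) ∧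
          ¬ G.Adj (f x) (f w) ∧ f x ≠ f w := by
        intro w hw'
        refine hW w ?_
        rcases tb_xor.1 hw' with h5 | h5
        · exact h5.2
        · rw [← h5.1, hlog] at h5
          exact absurd h5.2 (by decide)
      cases hb' : Nat.beq (diff (Nat.land (row J v) (Nat.land (row A p.1) (row E p.1)))
          (row A x)) 0 with
      | true => exact ih _ _ hA hW'
      | false =>
        rw [cf_false, frc_eq, frc_eq, frc_eq]
        refine ih _ _ (hA.addS (by omega) _ _ _ fun y hy => ?_) hW'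
        obtain ⟨h1, h2⟩ := cLoop_spec _ _ _ hy
        obtain ⟨h3, h4⟩ := tb_land.1 (tb_diff.1 h1).1
        obtain ⟨h5, h6⟩ := tb_land.1 h4
        obtain ⟨hy', b1⟩ := hJ.row hv h3
        have b2 := (hA.row (by omega) h5).2
        have b3 := (hE.row (by omega) h6).2
        have a0 : G.Adj (f p.1) (f x) := (h.adj_iff hp).2 ⟨x, hx, rfl⟩
        have key : ¬ G.Adj (f x) (f y) := by
          intro hxy
          rcases h.four (f p.1) (h.mem p hp) (f x) (f y) (f v) b3 a3 a0 hxy b1.symm a1.symm with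
            h7 | h7 | ⟨m, hm, hN⟩
          · exact b2 h7
          · exact a2 h7
          · refine h.no4 hw hJ hE hA hp (by omega) hv hy' rfl h2 hm (fun z => ?_) a0.ne a1.ne b3 a3
              hxy.ne b1.ne
            rw [hN z]
            constructor
            · rintro (h | h | h | h)
              · exact Or.inl h
              · exact Or.inr (Or.inl h)
              · exact Or.inr (Or.inr (Or.inr h))
              · exact Or.inr (Or.inr (Or.inl h))
            · rintro (h | h | h | h)
              · exact Or.inl h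
              · exact Or.inr (Or.inl h)
              · exact Or.inr (Or.inr (Or.inr h))
              · exact Or.inr (Or.inr (Or.inl h))
        exact ⟨hy', key, fun h7 => key h7.symm⟩

theorem Hyp.xLoop (h : Hyp G T I f lk lb ne0) (hw : Wf n lk ne0) {J E : ℕ}
    (hJ : Gd (PJ G f) J) (hE : Gd (PE f) E) {p : ℕ × List ℕ} (hp : p ∈ lk) (l : List ℕ) :
    (∀ x ∈ l, x ∈ p.2) → ∀ A, Gd (PA G f) A →
      Gd (PA G f) (xLoop J E (Nat.land (orB p.2) (LegF.f4 lk lb)) p.1 l A) := by
  have hn := hw.hn
  have hpn := hw.hlk p hp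
  induction l with
  | nil => exact fun _ A hA => hA
  | cons x l ih =>
    intro hl A hA
    change Gd (PA G f) (frc (LegF.vLoop J E (Nat.land (orB p.2) (LegF.f4 lk lb)) p.1 x 32
      (Nat.land (row J p.1) (Nat.land (row A x) (row E x))) A)
        fun A' => LegF.xLoop J E (Nat.land (orB p.2) (LegF.f4 lk lb)) p.1 l A')
    rw [frc_eq]
    have hx := hl x List.mem_cons_self
    have hxn := hpn.2 x hx
    refine ih (fun z hz => hl z (List.mem_cons_of_mem _ hz)) _
      (h.vLoop hw hJ hE hp hx _ _ _ hA fun v hv => ?_)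
    obtain ⟨h1, h2⟩ := tb_land.1 hv
    obtain ⟨h3, h4⟩ := tb_land.1 h2
    obtain ⟨h5, h6⟩ := hJ.row (by omega) h1
    exact ⟨h5, h6, (hA.row (by omega) h3).2, (hE.row (by omega) h4).2⟩

theorem Hyp.stepS (h : Hyp G T I f lk lb ne0) (hw : Wf n lk ne0) {J E : ℕ}
    (hJ : Gd (PJ G f) J) (hE : Gd (PE f) E) (lk' : List (ℕ × List ℕ)) :
    (∀ p ∈ lk', p ∈ lk) → ∀ A, Gd (PA G f) A →
      Gd (PA G f) (stepS J E (LegF.f4 lk lb) lk' A) := by
  induction lk' with
  | nil => exact fun _ A hA => hA
  | cons p lk' ih =>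
    intro hs A hA
    change Gd (PA G f) (frc (Nat.land (orB p.2) (LegF.f4 lk lb)) fun Lf =>
      frc (LegF.xLoop J E Lf p.1 p.2 A) fun A' => LegF.stepS J E (LegF.f4 lk lb) lk' A')
    rw [frc_eq, frc_eq]
    exact ih (fun q hq => hs q (List.mem_cons_of_mem _ hq)) _
      (h.xLoop hw hJ hE (hs p List.mem_cons_self) _ (fun x hx => hx) _ hA)

theorem Hyp.rounds (h : Hyp G T I f lk lb ne0) (hw : Wf n lk ne0) {J : ℕ}
    (hJ : Gd (PJ G f) J) {k : ℕ → ℕ → ℕ → Bool} (m : ℕ) : ∀ E A, Gd (PE f) E → Gd (PA G f) A →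
      rounds J (LegF.f4 lk lb) n lk k m E A = true →
      ∃ E' A', Gd (PE f) E' ∧ Gd (PA G f) A' ∧ k J E' A' = true := by
  induction m with
  | zero => exact fun E A hE hA hk => ⟨E, A, hE, hA, hk⟩
  | succ m ih =>
    intro E A hE hA hk
    change (frc (LegF.stepE J A n E) fun E' => frc (LegF.stepL E' lk A) fun A1 =>
      frc (LegF.stepS J E' (LegF.f4 lk lb) lk A1) fun A2 =>
        cf (Nat.beq A2 A) (k J E' A2) (LegF.rounds J (LegF.f4 lk lb) n lk k m E' A2)) = true at hk
    rw [frc_eq, frc_eq, frc_eq] at hk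
    have h1 := hJ.stepE hA n hw.hn E hE
    have h2 := h.stepL hw h1 lk (fun _ hp => hp) A hA
    have h3 := h.stepS hw hJ h1 lk (fun _ hp => hp) _ h2
    cases hb : Nat.beq (LegF.stepS J (LegF.stepE J A n E) (LegF.f4 lk lb) lk
        (LegF.stepL (LegF.stepE J A n E) lk A)) A with
    | true =>
      rw [hb, cf_true] at hk
      exact ⟨_, _, h1, h3, hk⟩
    | false =>
      rw [hb, cf_false] at hk
      exact ih _ _ h1 h3 hk

theorem rowsE_gd {P : ℕ → ℕ → Prop} {L : ℕ} (l : List ℕ) : ∀ M : ℕ, Gd P M →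
    (∀ x ∈ l, ∀ y, L.testBit y = true → x ≠ y → y < 32 ∧ P x y) → Gd P (rowsE L l M) := by
  induction l with
  | nil => exact fun M h _ => h
  | cons x l ih =>
    intro M h hl
    change Gd P (frc (Nat.lor M (Nat.shiftLeft (diff L (bt x)) (Nat.mul 32 x)))
      fun M' => rowsE L l M')
    rw [frc_eq]
    refine ih _ (h.lor (Gd.shl fun y hy => ?_)) fun z hz => hl z (List.mem_cons_of_mem _ hz)
    obtain ⟨h1, h2⟩ := tb_diff.1 hy
    refine hl x List.mem_cons_self y h1 fun h3 => ?_
    rw [tb_bt.2 h3] at h2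
    exact absurd h2 (by decide)

theorem rowsA_gd {P : ℕ → ℕ → Prop} {L N : ℕ} (l : List ℕ) : ∀ M : ℕ, Gd P M →
    (∀ x ∈ l, ∀ y, L.testBit y = true → x ≠ y → ¬ (row N x).testBit y = true →
      y < 32 ∧ P x y) → Gd P (rowsA L N l M) := by
  induction l with
  | nil => exact fun M h _ => h
  | cons x l ih =>
    intro M h hl
    change Gd P (frc (Nat.lor M (Nat.shiftLeft (diff L (Nat.lor (row N x) (bt x)))
      (Nat.mul 32 x))) fun M' => rowsA L N l M')
    rw [frc_eq]
    refine ih _ (h.lor (Gd.shl fun y hy => ?_)) fun z hz => hl z (List.mem_cons_of_mem _ hz)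
    obtain ⟨h1, h2⟩ := tb_diff.1 hy
    refine hl x List.mem_cons_self y h1 (fun h3 => ?_) fun h3 => ?_
    · rw [tb_lor.2 (Or.inr (tb_bt.2 h3))] at h2
      exact absurd h2 (by decide)
    · rw [tb_lor.2 (Or.inl h3)] at h2
      exact absurd h2 (by decide)

theorem Hyp.ini (h : Hyp G T I f lk lb ne0) (hw : Wf n lk ne0) {k : ℕ → ℕ → ℕ → Bool}
    (lk' : List (ℕ × List ℕ)) : (∀ p ∈ lk', p ∈ lk) → ∀ J E A, Gd (PJ G f) J → Gd (PE f) E →
      Gd (PA G f) A → ini lk' k J E A = true →
      ∃ J' E' A', Gd (PJ G f) J' ∧ Gd (PE f) E' ∧ Gd (PA G f) A' ∧ k J' E' A' = true := by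
  have hn := hw.hn
  induction lk' with
  | nil => exact fun _ J E A hJ hE hA hk => ⟨J, E, A, hJ, hE, hA, hk⟩
  | cons p lk' ih =>
    intro hs J E A hJ hE hA hk
    change (frc (orB p.2) fun L => frc (prs (hd p.2 0) p.2 0) fun N =>
      frc (Nat.lor J (Nat.lor N (addS p.1 32 L 0))) fun J' =>
      frc (rowsE L p.2 E) fun E' => frc (rowsA L N p.2 A) fun A' =>
        LegF.ini lk' k J' E' A') = true at hk
    rw [frc_eq, frc_eq, frc_eq, frc_eq, frc_eq] at hk
    have hp := hs p List.mem_cons_self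
    have hpn := hw.hlk p hp
    refine ih (fun q hq => hs q (List.mem_cons_of_mem _ hq)) _ _ _ ?_ ?_ ?_ hk
    · refine hJ.lor ((Gd.prs _ _ (Gd.zero _) fun pre x t ht => ?_).lor
        (Gd.addS (by omega) _ _ _ (Gd.zero _) fun y hy => ?_))
      · obtain ⟨h1, h2, h3⟩ := h.nxt hp ht
        have h4 := hpn.2 _ h2
        have h5 := hpn.2 _ h3
        have h6 : G.Adj (f x) (f (hd t (hd p.2 0))) := h.rel.adj _ _ _ (h.rel.rot _ _ _ h1)
        exact ⟨by omega, by omega, h6, h6.symm⟩
      · have h1 := mem_orB.1 hy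
        have h2 := hpn.2 y h1
        have h3 : G.Adj (f p.1) (f y) := (h.adj_iff hp).2 ⟨y, h1, rfl⟩
        exact ⟨by omega, h3, h3.symm⟩
    · refine rowsE_gd _ _ hE fun x hx y hy hxy => ?_
      have h1 := mem_orB.1 hy
      have h2 := hpn.2 y h1
      exact ⟨by omega, fun h3 => hxy (h.inj hp hx h1 h3)⟩
    · refine rowsA_gd _ _ hA fun x hx y hy hxy hN => ?_
      have h1 := mem_orB.1 hy
      have h2 := hpn.2 y h1
      refine ⟨by omega, fun h3 => hN ?_⟩
      have h4 := h.three _ (h.mem p hp) _ _ ((h.adj_iff hp).2 ⟨x, hx, rfl⟩) h3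
        ((h.adj_iff hp).2 ⟨y, h1, rfl⟩).symm
      exact tb_row.2 ⟨by omega, h.tri hp hx h1 h4 _⟩

theorem diag_gd (m : ℕ) : m ≤ 32 → Gd (PA G f) (diag m) := by
  induction m with
  | zero => exact fun _ => Gd.zero _
  | succ m ih =>
    intro hm
    exact (Gd.bt (by omega) (G.loopless.irrefl _)).lor (ih (by omega))

theorem diag_spec {i : ℕ} (m : ℕ) (h : (diag m).testBit i = true) : ∃ x < m, i = ix x x := by
  induction m with
  | zero =>
    change (0 : ℕ).testBit _ = true at h
    rw [Nat.zero_testBit] at h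
    exact absurd h (by decide)
  | succ m ih =>
    rcases tb_lor.1 h with h1 | h1
    · exact ⟨m, by omega, (tb_bt.1 h1).symm⟩
    · obtain ⟨x, hx, h2⟩ := ih h1
      exact ⟨x, by omega, h2⟩

theorem prs0_gd {P : ℕ → ℕ → Prop} {l : List (ℕ × ℕ)}
    (h : ∀ p ∈ l, p.1 < 32 ∧ p.2 < 32 ∧ P p.1 p.2 ∧ P p.2 p.1) : Gd P (prs0 l) := by
  induction l with
  | nil => exact Gd.zero _
  | cons p l ih =>
    obtain ⟨h1, h2, h3, h4⟩ := h p List.mem_cons_self
    exact ((Gd.bt h2 h3).lor (Gd.bt h1 h4)).lor (ih fun q hq => h q (List.mem_cons_of_mem _ hq))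

/-- The labels are small, if the tables are computed. -/
theorem clo_wf {k : ℕ → ℕ → ℕ → Bool} (hk : clo n lk lb ne0 k = true) : Wf n lk ne0 := by
  unfold clo at hk
  cases h1 : Nat.ble n 32 with
  | false => rw [h1] at hk; exact absurd hk Bool.false_ne_true
  | true =>
    rw [h1, cf_true] at hk
    cases h2 : allLk n lk with
    | false => rw [h2] at hk; exact absurd hk Bool.false_ne_true
    | true =>
      rw [h2, cf_true] at hk
      cases h3 : allPr n ne0 with
      | false => rw [h3] at hk; exact absurd hk Bool.false_ne_true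
      | true => exact ⟨Nat.le_of_ble_eq_true h1, allLk_spec h2, allPr_spec h3⟩

/-- **The tables are correct.** -/
theorem Hyp.clo_sound (h : Hyp G T I f lk lb ne0) {k : ℕ → ℕ → ℕ → Bool}
    (hk : clo n lk lb ne0 k = true) :
    ∃ J E A, Gd (PJ G f) J ∧ Gd (PE f) E ∧ Gd (PA G f) A ∧ k J E A = true := by
  have hw := clo_wf hk
  have hn := hw.hn
  unfold clo at hk
  cases h1 : Nat.ble n 32 with
  | false => rw [h1] at hk; exact absurd hk Bool.false_ne_true
  | true =>
    rw [h1, cf_true] at hk
    cases h2 : allLk n lk with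
    | false => rw [h2] at hk; exact absurd hk Bool.false_ne_true
    | true =>
      rw [h2, cf_true] at hk
      cases h3 : allPr n ne0 with
      | false => rw [h3] at hk; exact absurd hk Bool.false_ne_true
      | true =>
        rw [h3, cf_true, frc_eq] at hk
        obtain ⟨J, E, A, hJ, hE, hA, hk⟩ := h.ini hw lk (fun _ hp => hp) _ _ _ (Gd.zero _)
          (Gd.zero _) (Gd.zero _) hk
        rw [frc_eq, frc_eq] at hk
        have hE' : Gd (PE f) (Nat.lor (Nat.lor E J) (prs0 ne0)) := by
          refine (hE.lor fun x y hx hy hxy => ?_).lor (prs0_gd fun p hp => ?_)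
          · exact (hJ x y hx hy hxy).ne
          · have h4 := hw.hne p hp
            exact ⟨by omega, by omega, h.ne0 p hp, (h.ne0 p hp).symm⟩
        obtain ⟨E', A', h5, h6, h7⟩ := h.rounds hw hJ 8 _ _ hE' (hA.lor (diag_gd n hn)) hk
        exact ⟨J, E', A', hJ, h5, h6, h7⟩

theorem exists_bit {m : ℕ} (h : Nat.beq m 0 = false) : ∃ i, m.testBit i = true := by
  apply Nat.exists_testBit_of_ne_zero
  rintro rfl
  exact absurd h (by decide)

/-- **Contradictory lists do not occur.** -/
theorem Hyp.contra (h : Hyp G T I f lk lb ne0) (hc : contra n lk lb ne0 = true) : False := by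
  have hw := clo_wf hc
  have hn := hw.hn
  obtain ⟨J, E, A, hJ, hE, hA, hk⟩ := h.clo_sound hc
  change bad n J E A = true at hk
  unfold bad at hk
  cases h1 : Nat.beq (Nat.land (Nat.land J A) (Nat.sub (bt 1024) 1)) 0 with
  | false =>
    obtain ⟨i, hi⟩ := exists_bit h1
    obtain ⟨h2, h3⟩ := tb_land.1 hi
    obtain ⟨h4, h5⟩ := tb_land.1 h2
    change (1 <<< 1024 - 1).testBit i = true at h3
    rw [Nat.one_shiftLeft, Nat.testBit_two_pow_sub_one, decide_eq_true_eq] at h3
    have h6 : i = ix (i / 32) (i % 32) := by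
      rw [ix_eq]
      omega
    rw [h6] at h4 h5
    exact hA _ _ (by omega) (by omega) h5 (hJ _ _ (by omega) (by omega) h4)
  | true =>
    rw [h1, cf_true] at hk
    cases h2 : Nat.beq (Nat.land E (diag n)) 0 with
    | true => rw [h2] at hk; exact absurd hk Bool.false_ne_true
    | false =>
      obtain ⟨i, hi⟩ := exists_bit h2
      obtain ⟨h3, h4⟩ := tb_land.1 hi
      obtain ⟨x, hx, rfl⟩ := diag_spec n h4
      exact hE x x (by omega) (by omega) h3 rfl

theorem allNe_spec {E : ℕ} (m n : ℕ) : m ≤ n → n ≤ 32 →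
    (@Nat.rec (fun _ => Bool) true (fun x ih => cf (Nat.beq (diff (Nat.sub (bt n) 1)
      (Nat.lor (row E x) (bt x))) 0) ih false) m) = true →
    ∀ x < m, ∀ y < n, x ≠ y → E.testBit (ix x y) = true := by
  induction m with
  | zero => exact fun _ _ _ x hx => absurd hx (by omega)
  | succ m ih =>
    intro hm hn h x hx y hy hxy
    change cf (Nat.beq (diff (Nat.sub (bt n) 1) (Nat.lor (row E m) (bt m))) 0)
      (@Nat.rec (fun _ => Bool) true (fun x ih => cf (Nat.beq (diff (Nat.sub (bt n) 1)
      (Nat.lor (row E x) (bt x))) 0) ih false) m) false = true at h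
    cases hb : Nat.beq (diff (Nat.sub (bt n) 1) (Nat.lor (row E m) (bt m))) 0 with
    | false => rw [hb] at h; exact absurd h Bool.false_ne_true
    | true =>
      rw [hb, cf_true] at h
      by_cases hxm : x = m
      · subst hxm
        have h0 := Nat.eq_of_beq_eq_true hb
        have h1 : (Nat.sub (bt n) 1).testBit y = true := by
          change (1 <<< n - 1).testBit y = true
          rw [Nat.one_shiftLeft, Nat.testBit_two_pow_sub_one, decide_eq_true_eq]
          exact hy
        cases h2 : (Nat.lor (row E x) (bt x)).testBit y with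
        | false =>
          have h3 := tb_diff.2 ⟨h1, h2⟩
          rw [h0, Nat.zero_testBit] at h3
          exact absurd h3 (by decide)
        | true =>
          rcases tb_lor.1 h2 with h3 | h3
          · exact (tb_row.1 h3).2
          · exact absurd (tb_bt.1 h3) hxy
      · exact ih (by omega) hn h x (by omega) y hy hxy

/-- All labels belong to different vertices. -/
theorem allNe_inj {E : ℕ} (hE : Gd (PE f) E) (hn : n ≤ 32) (h : allNe n E = true) :
    ∀ x y, x < n → y < n → f x = f y → x = y := by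
  intro x y hx hy hxy
  by_contra hne
  exact hE x y (by omega) (by omega) (allNe_spec n n (le_refl _) hn h x hx y hy hne) hxy

theorem keys_spec {lk : List (ℕ × List ℕ)} {c : ℕ} (h : (keys lk).testBit c = true) :
    ∃ p ∈ lk, p.1 = c := by
  induction lk with
  | nil =>
    change (0 : ℕ).testBit c = true at h
    rw [Nat.zero_testBit] at h
    exact absurd h (by decide)
  | cons q lk ih =>
    rcases tb_lor.1 h with h1 | h1
    · exact ⟨q, List.mem_cons_self, tb_bt.1 h1⟩
    · obtain ⟨p, hp, h2⟩ := ih h1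
      exact ⟨p, List.mem_cons_of_mem _ hp, h2⟩

theorem ncIn_spec {R B : ℕ} {lk : List (ℕ × List ℕ)} (h : ncIn R B lk = true) :
    ∀ p ∈ lk, R.testBit p.1 = true → p.2.length = 4 → ∀ w ∈ p.2, B.testBit w = true := by
  induction lk with
  | nil => exact fun p hp => absurd hp List.not_mem_nil
  | cons q lk ih =>
    change cf (sb R q.1) (cf (Nat.beq (len q.2) 4)
      (cf (Nat.beq (diff (orB q.2) B) 0) (ncIn R B lk) false) (ncIn R B lk)) (ncIn R B lk) =
        true at h
    have h0 : ncIn R B lk = true := by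
      cases h1 : sb R q.1 with
      | false => rw [h1, cf_false] at h; exact h
      | true =>
        rw [h1, cf_true] at h
        cases h2 : Nat.beq (len q.2) 4 with
        | false => rw [h2, cf_false] at h; exact h
        | true =>
          rw [h2, cf_true] at h
          cases h3 : Nat.beq (diff (orB q.2) B) 0 with
          | false => rw [h3] at h; exact absurd h Bool.false_ne_true
          | true => rw [h3, cf_true] at h; exact h
    intro p hp hR hlen w hw
    rcases List.mem_cons.1 hp with rfl | hp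
    · rw [sb_eq, hR, cf_true, len_eq, hlen] at h
      change cf (Nat.beq (diff (orB p.2) B) 0) (ncIn R B lk) false = true at h
      cases h3 : Nat.beq (diff (orB p.2) B) 0 with
      | false => rw [h3] at h; exact absurd h Bool.false_ne_true
      | true =>
        have h4 := Nat.eq_of_beq_eq_true h3
        cases h5 : B.testBit w with
        | true => rfl
        | false =>
          have h6 := tb_diff.2 ⟨mem_orB.2 hw, h5⟩
          rw [h4, Nat.zero_testBit] at h6
          exact absurd h6 (by decide)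
    · exact ih h0 p hp hR hlen w hw

/-- The loop of `nc`. -/
theorem nc_loop {lk0 lk : List (ℕ × List ℕ)} {K B x y : ℕ}
    (h : @List.rec (ℕ × List ℕ) (fun _ => Bool) false
        (fun p _ ih => frc (orB p.2) fun L => cf (sb L x) (cf (sb L y)
          (frc (diff L B) fun R => cf (Nat.beq (diff R K) 0)
            (cf (ncIn R (Nat.lor (Nat.lor K B) (bt p.1)) lk0) true ih) ih) ih) ih) lk = true) :
    ∃ p ∈ lk, x ∈ p.2 ∧ y ∈ p.2 ∧ diff (diff (orB p.2) B) K = 0 ∧
      ncIn (diff (orB p.2) B) (Nat.lor (Nat.lor K B) (bt p.1)) lk0 = true := by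
  induction lk with
  | nil => exact absurd h Bool.false_ne_true
  | cons q lk ih =>
    change (frc (orB q.2) fun L => cf (sb L x) (cf (sb L y)
          (frc (diff L B) fun R => cf (Nat.beq (diff R K) 0)
            (cf (ncIn R (Nat.lor (Nat.lor K B) (bt q.1)) lk0) true _) _) _) _) = true at h
    rw [frc_eq, frc_eq] at h
    have hrest : ∀ b, b = true → b = @List.rec (ℕ × List ℕ) (fun _ => Bool) false
        (fun p _ ih => frc (orB p.2) fun L => cf (sb L x) (cf (sb L y)
          (frc (diff L B) fun R => cf (Nat.beq (diff R K) 0)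
            (cf (ncIn R (Nat.lor (Nat.lor K B) (bt p.1)) lk0) true ih) ih) ih) ih) lk →
        ∃ p ∈ q :: lk, x ∈ p.2 ∧ y ∈ p.2 ∧ diff (diff (orB p.2) B) K = 0 ∧
          ncIn (diff (orB p.2) B) (Nat.lor (Nat.lor K B) (bt p.1)) lk0 = true := by
      intro b hb hb'
      obtain ⟨p, hp, h1⟩ := ih (hb'.symm.trans hb)
      exact ⟨p, List.mem_cons_of_mem _ hp, h1⟩
    cases h1 : sb (orB q.2) x with
    | false => rw [h1] at h; exact hrest _ h rfl
    | true =>
      cases h2 : sb (orB q.2) y with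
      | false => rw [h1, h2] at h; exact hrest _ h rfl
      | true =>
        cases h3 : Nat.beq (diff (diff (orB q.2) B) K) 0 with
        | false => rw [h1, h2, h3] at h; exact hrest _ h rfl
        | true =>
          cases h4 : ncIn (diff (orB q.2) B) (Nat.lor (Nat.lor K B) (bt q.1)) lk0 with
          | false => rw [h1, h2, h3, h4] at h; exact hrest _ h rfl
          | true =>
            rw [sb_eq] at h1 h2
            exact ⟨q, List.mem_cons_self, mem_orB.1 h1, mem_orB.1 h2,
              Nat.eq_of_beq_eq_true h3, h4⟩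

/-- **Common neighbours.** -/
theorem Hyp.nc_sound (h : Hyp G T I f lk lb ne0) (hw : Wf n lk ne0) {E A : ℕ}
    (hE : Gd (PE f) E) (hA : Gd (PA G f) A) {x y : ℕ} (hx : x < 32) (hy : y < 32)
    (hnc : nc lk (keys lk) E A x y lk = true) {v : V} (hvx : G.Adj v (f x))
    (hvy : G.Adj v (f y)) : ∃ p ∈ lk, f p.1 = v := by
  have hn := hw.hn
  unfold nc at hnc
  cases h1 : sb A (ix x y) with
  | false => rw [h1] at hnc; exact absurd hnc Bool.false_ne_true
  | true =>
    rw [h1, cf_true] at hnc
    cases h2 : sb E (ix x y) with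
    | false => rw [h2] at hnc; exact absurd hnc Bool.false_ne_true
    | true =>
      rw [h2, cf_true, frc_eq] at hnc
      rw [sb_eq] at h1 h2
      have hna := hA x y hx hy h1
      have hne := hE x y hx hy h2
      obtain ⟨p, hp, hxp, hyp, h3, h4⟩ := nc_loop hnc
      have hpn := hw.hlk p hp
      by_cases hvu : v = f p.1
      · exact ⟨p, hp, hvu.symm⟩
      have a1 : G.Adj (f p.1) (f x) := (h.adj_iff hp).2 ⟨x, hxp, rfl⟩
      have a2 : G.Adj (f p.1) (f y) := (h.adj_iff hp).2 ⟨y, hyp, rfl⟩
      -- a label in the list which is adjacent to both is a label with a list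
      have key : ∀ c ∈ p.2, G.Adj (f c) (f x) → G.Adj (f c) (f y) →
          (diff (orB p.2) (Nat.lor (Nat.lor (row A x) (row A y))
            (Nat.lor (bt x) (bt y)))).testBit c = true ∧ ∃ q ∈ lk, q.1 = c := by
        intro c hc hcx hcy
        have h5 : (diff (orB p.2) (Nat.lor (Nat.lor (row A x) (row A y))
            (Nat.lor (bt x) (bt y)))).testBit c = true := by
          refine tb_diff.2 ⟨mem_orB.2 hc, ?_⟩
          rw [← Bool.not_eq_true]
          intro h7
          rcases tb_lor.1 h7 with h8 | h8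
          · rcases tb_lor.1 h8 with h9 | h9
            · exact (hA.row hx h9).2 hcx.symm
            · exact (hA.row hy h9).2 hcy.symm
          · rcases tb_lor.1 h8 with h9 | h9
            · rw [tb_bt.1 h9] at hcx
              exact G.loopless.irrefl _ hcx
            · rw [tb_bt.1 h9] at hcy
              exact G.loopless.irrefl _ hcy
        refine ⟨h5, ?_⟩
        cases h6 : (keys lk).testBit c with
        | true => exact keys_spec h6
        | false =>
          have h7 := tb_diff.2 ⟨h5, h6⟩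
          rw [h3, Nat.zero_testBit] at h7
          exact absurd h7 (by decide)
      rcases h.four (f p.1) (h.mem p hp) (f x) v (f y) (Ne.symm hvu) hne a1 hvx.symm hvy a2.symm
        with h6 | h6 | ⟨m, hm, hN⟩
      · obtain ⟨c, hc, rfl⟩ := (h.adj_iff hp).1 h6
        obtain ⟨q, hq, hqc⟩ := (key c hc hvx hvy).2
        exact ⟨q, hq, by rw [hqc]⟩
      · exact absurd h6 hna
      · obtain ⟨c, hc, rfl⟩ := (h.adj_iff hp).1 ((hN _).2 (Or.inl rfl)).symm
        have b1 : G.Adj (f c) (f x) := (hN _).2 (Or.inr (Or.inl rfl))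
        have b2 : G.Adj (f c) (f y) := (hN _).2 (Or.inr (Or.inr (Or.inr rfl)))
        have b3 : G.Adj (f c) v := (hN _).2 (Or.inr (Or.inr (Or.inl rfl)))
        obtain ⟨h7, q, hq, hqc⟩ := key c hc b1 b2
        subst hqc
        have hlen : q.2.length = 4 := by
          rw [← (h.rot q hq).card]
          exact SLeg.ncard_four hN a1.ne (Ne.symm hvu) a2.ne hvx.ne' hne hvy.ne
        obtain ⟨w, hwq, rfl⟩ := (h.adj_iff hq).1 b3
        have h8 := ncIn_spec h4 q hq h7 hlen w hwq
        have hwn := (hw.hlk q hq).2 w hwq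
        rcases tb_lor.1 h8 with h9 | h9
        · rcases tb_lor.1 h9 with h10 | h10
          · obtain ⟨r, hr, hrw⟩ := keys_spec h10
            exact ⟨r, hr, by rw [hrw]⟩
          · exfalso
            rcases tb_lor.1 h10 with h11 | h11
            · rcases tb_lor.1 h11 with h12 | h12
              · exact (hA.row hx h12).2 hvx.symm
              · exact (hA.row hy h12).2 hvy.symm
            · rcases tb_lor.1 h11 with h12 | h12
              · rw [tb_bt.1 h12] at hvx
                exact G.loopless.irrefl _ hvx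
              · rw [tb_bt.1 h12] at hvy
                exact G.loopless.irrefl _ hvy
        · exact absurd (by rw [tb_bt.1 h9]) hvu

end snd

end Pool.Agent.W986.LegF
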