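import Pool.Agent.W986.SubSatOcc
import Pool.Agent.W986.SubLegS
import Pool.Agent.W986.SubLegPB

/-!
# Contradictory patches do not occur in a region
-/

set_option autoImplicit false

open Finset

namespace Pool.Agent.W986

open Pool.Agent.DC76

section env

variable {V : Type} {χ : ℤ} {S I : Finset V} {G : SimpleGraph V} {T : V → V → V → Prop}

/-- The hypotheses of the tables, from a patch which is realised in a region. -/
theorem LegF.Hyp.of_sat (hT : TriOn χ S G T) (R : Region S G T I) (s : ℤ) {P : ST.Patch}
    {f : ℕ → V} (h : (regEnv hT R s).Sat P f) {ne0 : List (ℕ × ℕ)}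
    (hne : ∀ p ∈ ne0, f p.1 ≠ f p.2) : LegF.Hyp G T I f P.lk P.lb ne0 where
  rot p hp := by
    have h1 := (h.real.1 p hp).2
    have h2 : (fun i => f (ST.lnth p.2 (i % p.2.length))) = fun t => f (lab p.2 t) := by
      funext t
      rw [lnth_eq_getD]
      rfl
    rw [h2] at h1
    exact h1
  rel := ⟨hT.rot, hT.swap, hT.adj⟩
  mem p hp := (h.real.1 p hp).1
  three := R.three
  four := R.four
  lb p hp hI := by
    have h1 := h.real.2 p hp
    rw [regEnv_D, dgI_mem hI] at h1
    exact h1
  ne0 := hne

/-- **Contradictory patches do not occur in a region.** -/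
theorem LegF.leafI_sound (hT : TriOn χ S G T) (R : Region S G T I) (s : ℤ) {P : ST.Patch}
    {f : ℕ → V} (hP : LegF.leafI P = true) : ¬ (regEnv hT R s).Sat P f := fun h =>
  (LegF.Hyp.of_sat hT R s h (ne0 := []) fun _ hp => absurd hp List.not_mem_nil).contra hP

end env

end Pool.Agent.W986
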