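import Pool.Agent.W986.SubRegRed
import Pool.Agent.W986.SubLegEnv
import Pool.Agent.W986.SubLeavesB

/-!
# The leaves of the trees are correct
-/

set_option autoImplicit false

open Finset

namespace Pool.Agent.W986

open Pool.Agent.DC76 ST

/-- The leaves are correct in the environments of the regions. -/
theorem leavesOK : LeavesOK lC lI lF :=
  leavesOK_std.or fun _ _ _ _ _ _ _ _ hT R _ _ h => LegF.leafI_sound hT R 6 h

end Pool.Agent.W986
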