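import Pool.Agent.W986.SubBigB
import Pool.Agent.W986.SubLegPB

/-!
# The leaf of the trees for big hubs
-/

set_option autoImplicit false

namespace Pool.Agent.W986.ST

/-- The leaf for the local inequality at a neighbour of a big hub. -/
def lG (P : Patch) : Bool := cf (LB.leafG P) true (LegF.leafI P)

end Pool.Agent.W986.ST
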