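import Pool.Agent.W986.SubBigOK
import Pool.Agent.W986.SubLeaves
import Pool.Agent.W986.SubLeavesG

/-!
# Big hubs: the leaf `lG` is correct
-/

set_option autoImplicit false

namespace Pool.Agent.W986

open Pool.Agent.DC76 ST

/-- The leaf of the second run is correct. -/
theorem lG_ok : LeafGOK lG :=
  leafGOK.or fun _ _ _ _ _ _ _ _ hT R _ _ h => LegF.leafI_sound hT R 6 h

end Pool.Agent.W986
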