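import Pool.Agent.DC76.Defs

/-!
# `MP_986d1b_co`: numbers of edges inside vertex sets
-/

set_option autoImplicit false

namespace Pool.Agent.W986

/-- The number of edges of `G` with both ends in `X`. -/
noncomputable def ein {V : Type} (G : SimpleGraph V) (X : Finset V) : ℕ :=
  {e ∈ G.edgeSet | ∀ v ∈ e, v ∈ X}.ncard

end Pool.Agent.W986
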