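import Pool.Agent.W986.Proj

/-!
# Two disjoint cycles of a projective plane are not both one-sided
-/

set_option autoImplicit false

open Finset

namespace Pool.Agent.W986

open Pool.Agent.DC76

variable {V : Type} [Fintype V] [DecidableEq V] {G : SimpleGraph V} {F : Type} [Fintype F]

/-- A functional which vanishes on the cycles is given by a potential. -/
theorem exists_potential (hG : Conn G Set.univ) (r : V)
    (ψ : (V → V → ZMod 2) →ₗ[ZMod 2] ZMod 2) (hψ : ∀ y ∈ Z G Set.univ, ψ y = 0) :
    ∃ h : V → ZMod 2, ∀ x y, G.Adj x y → h x + h y = ψ (ed x y) := by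
  classical
  have hpath : ∀ x, ∃ J : V → V → ZMod 2, (∀ u v, J u v = J v u) ∧
      (∀ u v, J u v ≠ 0 → G.Adj u v) ∧
      ∀ v, ∑ w, J v w = (if v = r then 1 else 0) + (if v = x then 1 else 0) := by
    intro x
    have h1 : Relation.ReflTransGen G.Adj r x :=
      Relation.ReflTransGen.mono (p := G.Adj) (r := fun a b => b ∈ Set.univ ∧ G.Adj a b)
        (fun a b h => h.2) _ _ (hG r (Set.mem_univ r) x (Set.mem_univ x))
    exact join_path (H := G.Adj) (fun u v h => h.symm) (fun u h => G.irrefl h) h1
  choose J hJ1 hJ2 hJ3 using hpath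
  refine ⟨fun x => ψ (J x), fun x y hxy => ?_⟩
  have hmem : J x + J y + ed x y ∈ Z G Set.univ := by
    refine ⟨fun u v => ?_, fun u v h => ⟨?_, Set.mem_univ _, Set.mem_univ _⟩, fun v => ?_⟩
    · simp only [Pi.add_apply]
      rw [hJ1 x u v, hJ1 y u v, ed_symm x y u v]
    · by_contra hcon
      have h1 : J x u v = 0 := by
        by_contra h2
        exact hcon (hJ2 x u v h2)
      have h2 : J y u v = 0 := by
        by_contra h2
        exact hcon (hJ2 y u v h2)
      have h3 : ed x y u v = 0 := by
        by_contra h3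
        rcases ed_eq h3 with ⟨rfl, rfl⟩ | ⟨rfl, rfl⟩
        · exact hcon hxy
        · exact hcon hxy.symm
      apply h
      simp only [Pi.add_apply]
      rw [h1, h2, h3]
      rfl
    · simp only [Pi.add_apply]
      rw [Finset.sum_add_distrib, Finset.sum_add_distrib, hJ3, hJ3, ed_bd hxy.ne v]
      have h4 : ∀ p q s : ZMod 2, p + q + (p + s) + (q + s) = 0 := by decide
      exact h4 _ _ _
  have h1 := hψ _ hmem
  rw [map_add, map_add] at h1
  exact CharTwo.add_eq_zero.1 h1

theorem At.mem_walk {M : FacialWalks G F} {f : F} {x y : V} (h : At M f x y) :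
    ∃ t, t ≤ M.len f ∧ M.walk f t = x := by
  unfold At trav at h
  obtain ⟨t, ht⟩ := card_ne_zero.1 h
  rw [mem_filter, mem_range] at ht
  rcases ht.2 with ⟨h1, _⟩ | ⟨_, h1⟩
  · exact ⟨t, ht.1.le, h1⟩
  · exact ⟨t + 1, ht.1, h1⟩

theorem at_step (M : FacialWalks G F) (f : F) {t : ℕ} (ht : t < M.len f) :
    At M f (M.walk f t) (M.walk f (t + 1)) := by
  unfold At trav
  exact card_ne_zero.2 ⟨t, mem_filter.2 ⟨mem_range.2 ht, Or.inl ⟨rfl, rfl⟩⟩⟩

/-- On a surface of Euler characteristic at least `1`: if the cycle `z` has all its vertices in `A`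
and the cycle `z'` has all its vertices outside `A`, then one of them is a boundary. -/
theorem disjoint_cycles (hG : Conn G Set.univ) (M : FacialWalks G F)
    (hχ : (1 : ℤ) ≤ (Fintype.card V : ℤ) - G.edgeSet.ncard + Fintype.card F) (A : Set V)
    {z z' : V → V → ZMod 2} (hz : z ∈ Z G Set.univ) (hz' : z' ∈ Z G Set.univ)
    (hA : ∀ x y, z x y ≠ 0 → x ∈ A) (hA' : ∀ x y, z' x y ≠ 0 → x ∉ A) :
    z ∈ Bnd M ∨ z' ∈ Bnd M := by
  classical
  by_contra hcon
  push Not at hcon
  obtain ⟨h, h'⟩ := hcon
  have hz0 : z ≠ 0 := fun h0 => h (h0 ▸ Submodule.zero_mem _)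
  have hr : ∃ r x, z r x ≠ 0 := by
    by_contra hcon
    push Not at hcon
    exact hz0 (funext fun x => funext fun y => hcon x y)
  obtain ⟨r, _, _⟩ := hr
  obtain ⟨I, hI⟩ := (mem_Bnd M _).1 (add_mem_Bnd hG M hχ ⟨r⟩ hz hz' h h')
  have hbd : ∀ x y, ((bd M I x y : ℕ) : ZMod 2) = z x y + z' x y := by
    intro x y
    rw [bd_cast, ← hI]
    rfl
  -- edges between `A` and its complement are not in the boundary of `I`
  have hb : ∀ x u, x ∈ A → u ∉ A → bd M I x u ≠ 1 := by
    intro x u hx hu h1
    have h2 := hbd x u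
    rw [h1, Nat.cast_one] at h2
    have h3 : z x u = 0 := by
      by_contra h3
      rw [hz.1] at h3
      exact hu (hA u x h3)
    have h4 : z' x u = 0 := by
      by_contra h4
      exact hA' x u h4 hx
    rw [h3, h4] at h2
    exact absurd h2 (by decide)
  -- the functional vanishes on all cycles
  have hψ' : psi M I A z' = 0 := by
    rw [psi_apply]
    refine Finset.sum_eq_zero fun x _ => Finset.sum_eq_zero fun u _ => ?_
    by_cases h1 : x ∈ A ∧ u ∉ A ∧ side M I x u
    · rw [if_pos h1]
      by_contra h2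
      exact hA' x u h2 h1.1
    · rw [if_neg h1]
  have hψ : ∀ y ∈ Z G Set.univ, psi M I A y = 0 := by
    intro y hy
    by_cases h1 : y ∈ Bnd M
    · exact psi_Bnd M I A hb h1
    · have h2 := psi_Bnd M I A hb (add_mem_Bnd hG M hχ ⟨r⟩ hy hz' h1 h')
      rw [map_add, hψ', add_zero] at h2
      exact h2
  obtain ⟨k, hk⟩ := exists_potential hG r _ hψ
  -- the value along a face
  have hstep : ∀ f t, t < M.len f →
      k (M.walk f t) + (if f ∈ I ∧ M.walk f t ∈ A then 1 else 0) =
      k (M.walk f (t + 1)) + (if f ∈ I ∧ M.walk f (t + 1) ∈ A then 1 else 0) := by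
    intro f t ht
    have h1 := M.adj f t ht
    have h2 := hk _ _ h1
    rw [psi_ed M I A h1.ne] at h2
    have hAt := at_step M f ht
    by_cases ha : M.walk f t ∈ A
    · by_cases hb' : M.walk f (t + 1) ∈ A
      · rw [if_neg (by tauto)] at h2
        have h3 := CharTwo.add_eq_zero.1 h2
        rw [h3]
        simp [ha, hb']
      · by_cases hf : f ∈ I
        · rw [if_pos ⟨Or.inl ⟨ha, hb'⟩, f, hf, hAt⟩] at h2
          rw [if_pos ⟨hf, ha⟩, if_neg fun h3 => hb' h3.2]
          revert h2
          generalize k (M.walk f t) = p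
          generalize k (M.walk f (t + 1)) = q
          revert p q
          decide
        · rw [if_neg] at h2
          · have h3 := CharTwo.add_eq_zero.1 h2
            rw [h3, if_neg fun h3 => hf h3.1, if_neg fun h3 => hf h3.1]
          · rintro ⟨_, h3⟩
            exact hf ((mem_iff_side M I h1 (hb _ _ ha hb') hAt).2 h3)
    · by_cases hb' : M.walk f (t + 1) ∈ A
      · by_cases hf : f ∈ I
        · rw [if_pos ⟨Or.inr ⟨hb', ha⟩, f, hf, hAt⟩] at h2
          rw [if_neg fun h3 => ha h3.2, if_pos ⟨hf, hb'⟩]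
          revert h2
          generalize k (M.walk f t) = p
          generalize k (M.walk f (t + 1)) = q
          revert p q
          decide
        · rw [if_neg] at h2
          · have h3 := CharTwo.add_eq_zero.1 h2
            rw [h3, if_neg fun h3 => hf h3.1, if_neg fun h3 => hf h3.1]
          · rintro ⟨_, h3⟩
            refine hf ((mem_iff_side M I h1 ?_ hAt).2 h3)
            rw [bd_comm]
            exact hb _ _ hb' ha
      · rw [if_neg (by tauto)] at h2
        have h3 := CharTwo.add_eq_zero.1 h2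
        rw [h3]
        simp [ha, hb']
  have hval : ∀ f t, t ≤ M.len f →
      k (M.walk f t) + (if f ∈ I ∧ M.walk f t ∈ A then 1 else 0) =
      k (M.walk f 0) + (if f ∈ I ∧ M.walk f 0 ∈ A then 1 else 0) := by
    intro f t
    induction t with
    | zero => intro _; rfl
    | succ t ih =>
      intro ht
      rw [← hstep f t ht]
      exact ih (by omega)
  -- `z` is a boundary
  apply h
  refine (Submodule.mem_span_range_iff_exists_fun (ZMod 2)).2
    ⟨fun f => k (M.walk f 0) + (if f ∈ I ∧ M.walk f 0 ∈ A then 1 else 0), ?_⟩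
  funext x y
  rw [Finset.sum_apply, Finset.sum_apply]
  have h1 : ∀ f, ((k (M.walk f 0) + (if f ∈ I ∧ M.walk f 0 ∈ A then 1 else 0)) • face M f) x y =
      k x * face M f x y + (if x ∈ A then (if f ∈ I then face M f x y else 0) else 0) := by
    intro f
    simp only [Pi.smul_apply, smul_eq_mul]
    by_cases h2 : face M f x y = 0
    · rw [h2]
      simp
    · have hAt : At M f x y := by
        intro h3
        apply h2
        unfold face
        rw [h3, Nat.cast_zero]
      obtain ⟨t, ht, rfl⟩ := hAt.mem_walk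
      rw [← hval f t ht, add_mul]
      congr 1
      by_cases h3 : M.walk f t ∈ A
      · by_cases h4 : f ∈ I
        · rw [if_pos ⟨h4, h3⟩, if_pos h3, if_pos h4, one_mul]
        · rw [if_neg fun h5 => h4 h5.1, if_pos h3, if_neg h4, zero_mul]
      · rw [if_neg fun h5 => h3 h5.2, if_neg h3, zero_mul]
  rw [Finset.sum_congr rfl fun f _ => h1 f, Finset.sum_add_distrib, ← Finset.mul_sum, sum_face,
    mul_zero, zero_add]
  by_cases hx : x ∈ A
  · simp only [if_pos hx]
    rw [← Finset.sum_filter, Finset.filter_mem_eq_inter, Finset.univ_inter]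
    have h2 := hbd x y
    rw [bd_cast, Finset.sum_apply, Finset.sum_apply] at h2
    rw [h2]
    have h3 : z' x y = 0 := by
      by_contra h3
      exact hA' x y h3 hx
    rw [h3, add_zero]
  · simp only [if_neg hx, Finset.sum_const_zero]
    by_contra h2
    exact hx (hA x y (fun h3 => h2 h3.symm))

end Pool.Agent.W986
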