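import Pool.Agent.W986.Precise

/-!
# A new vertex joined to both ends of an edge
-/

set_option autoImplicit false

open Finset

namespace Pool.Agent.W986

open Pool.Agent.DC76

variable {V : Type}

/-- The graph `G` with a new vertex joined to `u` and `v`. -/
def earG (G : SimpleGraph V) (u v : V) : SimpleGraph (Option V) where
  Adj a b := match a, b with
    | some a, some b => G.Adj a b
    | none, some b => b = u ∨ b = v
    | some a, none => a = u ∨ a = v
    | none, none => False
  symm := ⟨by
    rintro (_ | a) (_ | b) h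
    · exact h
    · exact h
    · exact h
    · exact SimpleGraph.Adj.symm (G := G) h⟩
  loopless := ⟨by
    rintro (_ | a) h
    · exact h
    · exact G.irrefl h⟩

theorem earG_ss (G : SimpleGraph V) (u v a b : V) :
    (earG G u v).Adj (some a) (some b) ↔ G.Adj a b := Iff.rfl

theorem earG_ns (G : SimpleGraph V) (u v b : V) :
    (earG G u v).Adj none (some b) ↔ b = u ∨ b = v := Iff.rfl

theorem earG_sn (G : SimpleGraph V) (u v a : V) :
    (earG G u v).Adj (some a) none ↔ a = u ∨ a = v := Iff.rfl

/-- The sum of `h` over the steps of the walk `w` of length `n`. -/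
def tot {A : Type} (n : ℕ) (w : ℕ → A) (h : A → A → ℕ) : ℕ :=
  ∑ t ∈ range n, h (w t) (w (t + 1))

theorem trav_eq {A : Type} [DecidableEq A] (n : ℕ) (w : ℕ → A) (u v : A) :
    trav n w u v =
      tot n w (fun a b => if (a = u ∧ b = v) ∨ (a = v ∧ b = u) then 1 else 0) := by
  unfold trav tot
  rw [card_filter]

theorem dir_eq {A : Type} [DecidableEq A] (n : ℕ) (w : ℕ → A) (u v : A) :
    ((range n).filter fun t => w t = u ∧ w (t + 1) = v).card =
      tot n w (fun a b => if a = u ∧ b = v then 1 else 0) := by
  unfold tot
  rw [card_filter]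

/-- The walk `w` with the new vertex inserted into the step number `s`. -/
def insWalk (w : ℕ → V) (s t : ℕ) : Option V :=
  if t ≤ s then some (w t) else if t = s + 1 then none else some (w (t - 1))

/-- The triangle through `u`, `v` and the new vertex. -/
def triWalk (u v : V) (t : ℕ) : Option V :=
  if t = 0 then some u else if t = 1 then some v else if t = 2 then none else some u

theorem tot_ins {n s : ℕ} (w : ℕ → V) (h : Option V → Option V → ℕ) (hs : s < n) :
    tot (n + 1) (insWalk w s) h + h (some (w s)) (some (w (s + 1))) =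
      tot n w (fun a b => h (some a) (some b)) + h (some (w s)) none +
        h none (some (w (s + 1))) := by
  obtain ⟨r, rfl⟩ : ∃ r, n = s + 1 + r := ⟨n - s - 1, by omega⟩
  unfold tot
  have L1 : ∀ g : ℕ → ℕ, ∑ t ∈ range (s + 1 + r + 1), g t =
      ∑ t ∈ range s, g t + g s + g (s + 1) + ∑ x ∈ range r, g (s + 2 + x) := by
    intro g
    have e1 : s + 1 + r + 1 = s + 2 + r := by omega
    rw [e1, sum_range_add, sum_range_succ, sum_range_succ]
  have L2 : ∀ g : ℕ → ℕ, ∑ t ∈ range (s + 1 + r), g t =
      ∑ t ∈ range s, g t + g s + ∑ x ∈ range r, g (s + 1 + x) := by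
    intro g
    rw [sum_range_add, sum_range_succ]
  rw [L1, L2]
  have h1 : ∀ t ∈ range s, h (insWalk w s t) (insWalk w s (t + 1)) =
      h (some (w t)) (some (w (t + 1))) := by
    intro t ht
    have ht := mem_range.1 ht
    unfold insWalk
    rw [if_pos (by omega), if_pos (by omega)]
  have h2 : ∀ x ∈ range r, h (insWalk w s (s + 2 + x)) (insWalk w s (s + 2 + x + 1)) =
      h (some (w (s + 1 + x))) (some (w (s + 1 + x + 1))) := by
    intro x _
    unfold insWalk
    rw [if_neg (by omega), if_neg (by omega), if_neg (by omega), if_neg (by omega)]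
    congr 3 <;> omega
  rw [sum_congr rfl h1, sum_congr rfl h2]
  have h3 : insWalk w s s = some (w s) := by
    unfold insWalk
    rw [if_pos le_rfl]
  have h4 : insWalk w s (s + 1) = none := by
    unfold insWalk
    rw [if_neg (by omega), if_pos rfl]
  have h5 : insWalk w s (s + 1 + 1) = some (w (s + 1)) := by
    unfold insWalk
    rw [if_neg (by omega), if_neg (by omega)]
    congr 1
  rw [h3, h4, h5]
  ring

theorem tot_tri (u v : V) (h : Option V → Option V → ℕ) :
    tot 3 (triWalk u v) h =
      h (some u) (some v) + h (some v) none + h none (some u) := by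
  unfold tot
  rw [sum_range_succ, sum_range_succ, sum_range_succ, sum_range_zero]
  simp [triWalk]

theorem ins_before {s t : ℕ} (w : ℕ → V) :
    insWalk w s (if t < s then t else t + 1) = if t = s then none else some (w t) := by
  unfold insWalk
  by_cases h : t < s
  · rw [if_pos h, if_pos (by omega), if_neg (by omega)]
  · rw [if_neg h, if_neg (by omega)]
    by_cases h2 : t = s
    · rw [if_pos (by omega), if_pos h2]
    · rw [if_neg (by omega), if_neg h2]
      congr 1

theorem ins_mid {s t : ℕ} (w : ℕ → V) :
    insWalk w s ((if t < s then t else t + 1) + 1) = some (w (t + 1)) := by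
  unfold insWalk
  by_cases h : t < s
  · rw [if_pos h, if_pos (by omega)]
  · rw [if_neg h, if_neg (by omega), if_neg (by omega)]
    congr 1

theorem ins_after {n s t : ℕ} (w : ℕ → V) (ht : t < n) (hs : s < n) :
    insWalk w s (((if t < s then t else t + 1) + 1) % (n + 1) + 1) =
      if (t + 1) % n = s then none else some (w ((t + 1) % n + 1)) := by
  unfold insWalk
  by_cases h : t < s
  · rw [if_pos h]
    have e1 : (t + 1) % (n + 1) = t + 1 := Nat.mod_eq_of_lt (by omega)
    have e2 : (t + 1) % n = t + 1 := Nat.mod_eq_of_lt (by omega)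
    rw [e1, e2]
    by_cases h2 : t + 1 = s
    · rw [if_neg (by omega), if_pos (by omega), if_pos h2]
    · rw [if_pos (by omega), if_neg h2]
  · rw [if_neg h]
    by_cases h3 : t + 1 = n
    · have e1 : (t + 1 + 1) % (n + 1) = 0 := by rw [h3, Nat.mod_self]
      have e2 : (t + 1) % n = 0 := by rw [h3, Nat.mod_self]
      rw [e1, e2]
      by_cases h4 : s = 0
      · rw [if_neg (by omega), if_pos (by omega), if_pos h4.symm]
      · rw [if_pos (by omega), if_neg (by omega)]
    · have e1 : (t + 1 + 1) % (n + 1) = t + 1 + 1 := Nat.mod_eq_of_lt (by omega)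
      have e2 : (t + 1) % n = t + 1 := Nat.mod_eq_of_lt (by omega)
      rw [e1, e2, if_neg (by omega), if_neg (by omega), if_neg (by omega)]
      congr 1

section faces

variable {G : SimpleGraph V} {F : Type}

open Classical in
/-- The new lengths. -/
noncomputable def nlen (len : F → ℕ) (f₀ : F) : Option F → ℕ
  | none => 3
  | some f => if f = f₀ then len f + 1 else len f

open Classical in
/-- The new walks. -/
noncomputable def nwalk (walk : F → ℕ → V) (f₀ : F) (s : ℕ) (u v : V) :
    Option F → ℕ → Option V
  | none => triWalk u v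
  | some f => if f = f₀ then insWalk (walk f) s else fun t => some (walk f t)

theorem tot_new_ne (len : F → ℕ) (walk : F → ℕ → V) (f₀ : F) (s : ℕ) (u v : V)
    (h : Option V → Option V → ℕ) {f : F} (hf : f ≠ f₀) :
    tot (nlen len f₀ (some f)) (nwalk walk f₀ s u v (some f)) h =
      tot (len f) (walk f) (fun a b => h (some a) (some b)) := by
  simp only [nlen, nwalk, if_neg hf, tot]

theorem tot_new_eq (len : F → ℕ) (walk : F → ℕ → V) (f₀ : F) (s : ℕ) (u v : V)
    (h : Option V → Option V → ℕ) (hs : s < len f₀) (hu : walk f₀ s = u)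
    (hv : walk f₀ (s + 1) = v) :
    tot (nlen len f₀ (some f₀)) (nwalk walk f₀ s u v (some f₀)) h + h (some u) (some v) =
      tot (len f₀) (walk f₀) (fun a b => h (some a) (some b)) + h (some u) none +
        h none (some v) := by
  have h1 := tot_ins (walk f₀) h hs
  rw [hu, hv] at h1
  have e1 : nlen len f₀ (some f₀) = len f₀ + 1 := by simp [nlen]
  have e2 : nwalk walk f₀ s u v (some f₀) = insWalk (walk f₀) s := by simp [nwalk]
  rw [e1, e2]
  exact h1

theorem tot_new_none (len : F → ℕ) (walk : F → ℕ → V) (f₀ : F) (s : ℕ) (u v : V)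
    (h : Option V → Option V → ℕ) :
    tot (nlen len f₀ none) (nwalk walk f₀ s u v none) h =
      h (some u) (some v) + h (some v) none + h none (some u) :=
  tot_tri u v h

/-- The sum over a set of faces which does not contain the changed face. -/
theorem tot_sum_out (len : F → ℕ) (walk : F → ℕ → V) (f₀ : F) (s : ℕ) (u v : V)
    (h : Option V → Option V → ℕ) (I : Finset F) (hI : f₀ ∉ I) :
    ∑ f ∈ I, tot (nlen len f₀ (some f)) (nwalk walk f₀ s u v (some f)) h =
      ∑ f ∈ I, tot (len f) (walk f) (fun a b => h (some a) (some b)) :=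
  sum_congr rfl fun f hf => tot_new_ne len walk f₀ s u v h (fun e => hI (e ▸ hf))

/-- The sum over a set of faces which contains the changed face. -/
theorem tot_sum_in (len : F → ℕ) (walk : F → ℕ → V) (f₀ : F) (s : ℕ) (u v : V)
    (h : Option V → Option V → ℕ) (hs : s < len f₀) (hu : walk f₀ s = u)
    (hv : walk f₀ (s + 1) = v) (I : Finset F) (hI : f₀ ∈ I) :
    ∑ f ∈ I, tot (nlen len f₀ (some f)) (nwalk walk f₀ s u v (some f)) h +
        h (some u) (some v) =
      ∑ f ∈ I, tot (len f) (walk f) (fun a b => h (some a) (some b)) + h (some u) none +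
        h none (some v) := by
  classical
  rw [← add_sum_erase I _ hI, ← add_sum_erase I
    (fun f => tot (len f) (walk f) (fun a b => h (some a) (some b))) hI]
  have h1 := tot_new_eq len walk f₀ s u v h hs hu hv
  have h2 := tot_sum_out len walk f₀ s u v h (I.erase f₀) (notMem_erase f₀ I)
  rw [h2]
  omega

end faces

end Pool.Agent.W986
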