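import Pool.Agent.W986.EarMap

/-!
# The corners of a graph with a new vertex joined to both ends of an edge
-/

set_option autoImplicit false

open Finset

namespace Pool.Agent.W986

open Pool.Agent.DC76

variable {V : Type} [DecidableEq V] {G : SimpleGraph V} {F : Type} [Fintype F]

theorem ear_oriented (M : FacialWalks G F) {u v : V} (hG : G.Adj u v) {f₀ : F} {s : ℕ}
    (hs : s < M.len f₀) (hu : M.walk f₀ s = u) (hv : M.walk f₀ (s + 1) = v) (h : Oriented M) :
    Oriented (earM M hG hs hu hv) := by
  have huv := hG.ne
  intro a b hab
  simp only [dir_eq]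
  have h1 := tot_all M hs hu hv (fun x y => if x = a ∧ y = b then 1 else 0)
  change ∑ x : Option F, tot (nlen M.len f₀ x) (nwalk M.walk f₀ s u v x)
    (fun x y => if x = a ∧ y = b then 1 else 0) = 1
  rw [h1]
  rcases a with _ | a <;> rcases b with _ | b
  · exact absurd hab ((earG G u v).irrefl)
  · have hb : b = u ∨ b = v := hab
    have h0 : ∀ f, tot (M.len f) (M.walk f) (fun x y => if some x = (none : Option V) ∧
        some y = some b then 1 else 0) = 0 := by
      intro f
      simp [tot]
    simp only [h0, sum_const_zero]
    rcases hb with rfl | rfl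
    · simp [huv.symm]
    · simp [huv]
  · have hb : a = u ∨ a = v := hab
    have h0 : ∀ f, tot (M.len f) (M.walk f) (fun x y => if some x = some a ∧
        some y = (none : Option V) then 1 else 0) = 0 := by
      intro f
      simp [tot]
    simp only [h0, sum_const_zero]
    rcases hb with rfl | rfl
    · simp [huv.symm]
    · simp [huv]
  · have h2 := h a b hab
    simp only [dir_eq] at h2
    simp only [Option.some.injEq]
    rw [h2]
    simp

/-- The corner of the triangle at `v`, at the new vertex and at `u`. -/
theorem tri_corner (u v : V) (j : ℕ) (hj : j < 3) :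
    triWalk u v j = (if j = 0 then some u else if j = 1 then some v else none) ∧
    triWalk u v (j + 1) = (if j = 0 then some v else if j = 1 then none else some u) ∧
    triWalk u v ((j + 1) % 3 + 1) = (if j = 0 then none else if j = 1 then some u else some v) := by
  interval_cases j
  · exact ⟨rfl, rfl, rfl⟩
  · exact ⟨rfl, rfl, rfl⟩
  · exact ⟨rfl, rfl, rfl⟩

theorem ear_link (M : FacialWalks G F) {u v : V} (hG : G.Adj u v) {f₀ : F} {s : ℕ}
    (hs : s < M.len f₀) (hu : M.walk f₀ s = u) (hv : M.walk f₀ (s + 1) = v) (h : Link M) :
    Link (earM M hG hs hu hv) := by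
  classical
  have huv := hG.ne
  have hlen : 2 ≤ M.len f₀ := two_le_len M (by omega)
  intro b N hin hout
  -- the three corners of the triangle
  have tri0 : ¬ (some u ∈ N ↔ (none : Option V) ∈ N) → b = some v →
      ∃ f t, t < (earM M hG hs hu hv).len f ∧ (earM M hG hs hu hv).walk f (t + 1) = b ∧
      ¬ ((earM M hG hs hu hv).walk f t ∈ N ↔
        (earM M hG hs hu hv).walk f ((t + 1) % (earM M hG hs hu hv).len f + 1) ∈ N) := by
    intro h1 h2
    refine ⟨none, 0, by change 0 < 3; omega, h2.symm, ?_⟩
    change ¬ (triWalk u v 0 ∈ N ↔ triWalk u v ((0 + 1) % 3 + 1) ∈ N)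
    exact h1
  have tri1 : ¬ (some v ∈ N ↔ some u ∈ N) → b = none →
      ∃ f t, t < (earM M hG hs hu hv).len f ∧ (earM M hG hs hu hv).walk f (t + 1) = b ∧
      ¬ ((earM M hG hs hu hv).walk f t ∈ N ↔
        (earM M hG hs hu hv).walk f ((t + 1) % (earM M hG hs hu hv).len f + 1) ∈ N) := by
    intro h1 h2
    refine ⟨none, 1, by change 1 < 3; omega, h2.symm, ?_⟩
    change ¬ (triWalk u v 1 ∈ N ↔ triWalk u v ((1 + 1) % 3 + 1) ∈ N)
    exact h1
  have tri2 : ¬ ((none : Option V) ∈ N ↔ some v ∈ N) → b = some u →
      ∃ f t, t < (earM M hG hs hu hv).len f ∧ (earM M hG hs hu hv).walk f (t + 1) = b ∧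
      ¬ ((earM M hG hs hu hv).walk f t ∈ N ↔
        (earM M hG hs hu hv).walk f ((t + 1) % (earM M hG hs hu hv).len f + 1) ∈ N) := by
    intro h1 h2
    refine ⟨none, 2, by change 2 < 3; omega, h2.symm, ?_⟩
    have e : (earM M hG hs hu hv).len none = 3 := rfl
    rw [e]
    exact h1
  rcases b with _ | b
  · -- the new vertex
    refine tri1 ?_ rfl
    obtain ⟨a, ha, haN⟩ := hin
    obtain ⟨c, hc, hcN⟩ := hout
    rcases a with _ | a
    · exact absurd haN ((earG G u v).irrefl)
    · rcases c with _ | c
      · exact absurd hcN ((earG G u v).irrefl)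
      · rcases (haN : a = u ∨ a = v) with h5 | h5 <;>
        rcases (hcN : c = u ∨ c = v) with h6 | h6 <;> rw [h5] at ha <;> rw [h6] at hc
        · exact absurd ha hc
        · intro h1
          exact hc (h1.2 ha)
        · intro h1
          exact hc (h1.1 ha)
        · exact absurd ha hc
  · by_cases hold : (∃ a, some a ∈ N ∧ G.Adj b a) ∧ (∃ a, some a ∉ N ∧ G.Adj b a)
    · -- an old corner
      obtain ⟨⟨a1, ha1, ha1b⟩, ⟨a2, ha2, ha2b⟩⟩ := hold
      obtain ⟨f, t, ht, hmid, hsp⟩ := h b {a | some a ∈ N} ⟨a1, ha1, ha1b⟩ ⟨a2, ha2, ha2b⟩
      have hsp : ¬ (some (M.walk f t) ∈ N ↔ some (M.walk f ((t + 1) % M.len f + 1)) ∈ N) := hsp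
      by_cases hf : f = f₀
      · subst hf
        by_cases h1 : t = s
        · -- the corner `u v q`
          have hb : b = v := by rw [← hmid, h1, hv]
          by_cases h2 : (some u ∈ N ↔ (none : Option V) ∈ N)
          · refine ⟨some f, if t < s then t else t + 1, ?_, ?_, ?_⟩
            · change _ < nlen M.len f (some f)
              simp only [nlen, if_true]
              split_ifs <;> omega
            · change nwalk M.walk f s u v (some f) _ = _
              simp only [nwalk, if_true]
              rw [ins_mid, hmid]
            · change ¬ (nwalk M.walk f s u v (some f) _ ∈ N ↔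
                nwalk M.walk f s u v (some f) (_ % nlen M.len f (some f) + 1) ∈ N)
              simp only [nwalk, nlen, if_true]
              rw [ins_before, ins_after _ ht hs, if_pos h1, if_neg, ← h2]
              · rw [h1, hu] at hsp
                rw [h1]
                exact hsp
              · intro h3
                rw [h1] at h3
                by_cases h4 : s + 1 = M.len f
                · rw [h4, Nat.mod_self] at h3
                  omega
                · rw [Nat.mod_eq_of_lt (by omega)] at h3
                  omega
          · exact tri0 h2 (by rw [hb])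
        · by_cases h3 : (t + 1) % M.len f = s
          · -- the corner `p u v`
            have hb : b = u := by
              rw [← hmid, ← hu, ← h3]
              by_cases h4 : t + 1 = M.len f
              · rw [h4, Nat.mod_self, M.closed f]
              · rw [Nat.mod_eq_of_lt (by omega)]
            by_cases h2 : ((none : Option V) ∈ N ↔ some v ∈ N)
            · refine ⟨some f, if t < s then t else t + 1, ?_, ?_, ?_⟩
              · change _ < nlen M.len f (some f)
                simp only [nlen, if_true]
                split_ifs <;> omega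
              · change nwalk M.walk f s u v (some f) _ = _
                simp only [nwalk, if_true]
                rw [ins_mid, hmid]
              · change ¬ (nwalk M.walk f s u v (some f) _ ∈ N ↔
                  nwalk M.walk f s u v (some f) (_ % nlen M.len f (some f) + 1) ∈ N)
                simp only [nwalk, nlen, if_true]
                rw [ins_before, ins_after _ ht hs, if_neg h1, if_pos h3, h2]
                rw [h3, hv] at hsp
                exact hsp
            · exact tri2 h2 (by rw [hb])
          · refine ⟨some f, if t < s then t else t + 1, ?_, ?_, ?_⟩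
            · change _ < nlen M.len f (some f)
              simp only [nlen, if_true]
              split_ifs <;> omega
            · change nwalk M.walk f s u v (some f) _ = _
              simp only [nwalk, if_true]
              rw [ins_mid, hmid]
            · change ¬ (nwalk M.walk f s u v (some f) _ ∈ N ↔
                nwalk M.walk f s u v (some f) (_ % nlen M.len f (some f) + 1) ∈ N)
              simp only [nwalk, nlen, if_true]
              rw [ins_before, ins_after _ ht hs, if_neg h1, if_neg h3]
              exact hsp
      · refine ⟨some f, t, ?_, ?_, ?_⟩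
        · change t < nlen M.len f₀ (some f)
          simp only [nlen, if_neg hf]
          exact ht
        · change nwalk M.walk f₀ s u v (some f) (t + 1) = some b
          simp only [nwalk, if_neg hf]
          rw [hmid]
        · change ¬ (nwalk M.walk f₀ s u v (some f) t ∈ N ↔
            nwalk M.walk f₀ s u v (some f) ((t + 1) % nlen M.len f₀ (some f) + 1) ∈ N)
          simp only [nwalk, nlen, if_neg hf]
          exact hsp
    · -- the new vertex is separated from all the old neighbours
      obtain ⟨a, ha, haN⟩ := hin
      obtain ⟨c, hc, hcN⟩ := hout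
      have key : (b = u ∨ b = v) ∧ ∀ x, G.Adj b x → ¬ ((none : Option V) ∈ N ↔ some x ∈ N) := by
        rcases a with _ | a
        · rcases c with _ | c
          · exact absurd ha hc
          · refine ⟨haN, fun x hx h1 => ?_⟩
            have hx2 := h1.1 ha
            exact hold ⟨⟨x, hx2, hx⟩, ⟨c, hc, hcN⟩⟩
        · rcases c with _ | c
          · refine ⟨hcN, fun x hx h1 => ?_⟩
            have hx2 : some x ∉ N := fun h2 => hc (h1.2 h2)
            exact hold ⟨⟨a, ha, haN⟩, ⟨x, hx2, hx⟩⟩
          · exact absurd ⟨⟨a, ha, haN⟩, ⟨c, hc, hcN⟩⟩ hold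
      obtain ⟨hb, hk⟩ := key
      rcases hb with hb | hb
      · exact tri2 (hk v (hb ▸ hG)) (by rw [hb])
      · exact tri0 (fun h1 => hk u (hb ▸ hG.symm) h1.symm) (by rw [hb])

end Pool.Agent.W986
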