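import Pool.Agent.W986.Ear

/-!
# The facial walks of a graph with a new vertex joined to both ends of an edge
-/

set_option autoImplicit false

open Finset

namespace Pool.Agent.W986

open Pool.Agent.DC76

variable {V : Type} [DecidableEq V] {G : SimpleGraph V} {F : Type} [Fintype F]

theorem exists_step (M : FacialWalks G F) {u v : V} (h : G.Adj u v) :
    ∃ f t, t < M.len f ∧ ((M.walk f t = u ∧ M.walk f (t + 1) = v) ∨
      (M.walk f t = v ∧ M.walk f (t + 1) = u)) := by
  by_contra hcon
  have h2 := M.twice u v h
  have h3 : ∑ f, trav (M.len f) (M.walk f) u v = 0 := by
    refine sum_eq_zero fun f _ => ?_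
    unfold trav
    rw [card_eq_zero, filter_eq_empty_iff]
    intro t ht h4
    exact hcon ⟨f, t, mem_range.1 ht, h4⟩
  omega

theorem two_le_len (M : FacialWalks G F) {f : F} (h : 0 < M.len f) : 2 ≤ M.len f := by
  by_contra hlt
  have e : M.len f = 1 := by omega
  have h1 := M.adj f 0 h
  have h2 := M.closed f
  rw [e] at h2
  rw [zero_add, h2] at h1
  exact G.irrefl h1

theorem sum_option_finset [DecidableEq F] (I : Finset (Option F)) (g : Option F → ℕ) :
    ∑ x ∈ I, g x = (if none ∈ I then g none else 0) +
      ∑ f ∈ (univ.filter fun f : F => some f ∈ I), g (some f) := by
  have h1 : ∑ x ∈ I, g x = ∑ x : Option F, if x ∈ I then g x else 0 := by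
    rw [← sum_filter]
    congr 1
    ext x
    simp
  rw [h1, Fintype.sum_option, sum_filter]

theorem tot_all (M : FacialWalks G F) {u v : V} {f₀ : F} {s : ℕ} (hs : s < M.len f₀)
    (hu : M.walk f₀ s = u) (hv : M.walk f₀ (s + 1) = v) (h : Option V → Option V → ℕ) :
    ∑ x : Option F, tot (nlen M.len f₀ x) (nwalk M.walk f₀ s u v x) h =
      ∑ f, tot (M.len f) (M.walk f) (fun a b => h (some a) (some b)) +
        (h (some u) none + h none (some v) + h (some v) none + h none (some u)) := by
  rw [Fintype.sum_option, tot_new_none]
  have h1 := tot_sum_in M.len M.walk f₀ s u v h hs hu hv univ (mem_univ _)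
  omega

open Classical in
/-- The facial walks of the graph with a new vertex joined to `u` and `v`. -/
noncomputable def earM (M : FacialWalks G F) {u v : V} (hG : G.Adj u v) {f₀ : F} {s : ℕ}
    (hs : s < M.len f₀) (hu : M.walk f₀ s = u) (hv : M.walk f₀ (s + 1) = v) :
    FacialWalks (earG G u v) (Option F) where
  len := nlen M.len f₀
  walk := nwalk M.walk f₀ s u v
  closed := by
    rintro (_ | f)
    · simp [nlen, nwalk, triWalk]
    · by_cases hf : f = f₀
      · subst hf
        simp only [nlen, nwalk, if_true]
        unfold insWalk
        rw [if_neg (by omega), if_neg (by omega), if_pos (by omega), ← M.closed f]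
        congr 1
      · simp only [nlen, nwalk, if_neg hf]
        rw [M.closed f]
  adj := by
    rintro (_ | f) t ht
    · have ht : t < 3 := ht
      interval_cases t
      · change (earG G u v).Adj (some u) (some v)
        exact hG
      · change (earG G u v).Adj (some v) none
        exact Or.inr rfl
      · change (earG G u v).Adj none (some u)
        exact Or.inl rfl
    · by_cases hf : f = f₀
      · subst hf
        simp only [nlen, nwalk, if_true] at ht ⊢
        unfold insWalk
        by_cases h1 : t < s
        · rw [if_pos (by omega), if_pos (by omega)]
          exact M.adj f t (by omega)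
        · by_cases h2 : t = s
          · subst h2
            rw [if_pos le_rfl, if_neg (by omega), if_pos rfl]
            exact Or.inl hu
          · by_cases h3 : t = s + 1
            · subst h3
              rw [if_neg (by omega), if_pos rfl, if_neg (by omega), if_neg (by omega)]
              exact Or.inr hv
            · rw [if_neg (by omega), if_neg (by omega), if_neg (by omega), if_neg (by omega)]
              have h4 := M.adj f (t - 1) (by omega)
              have e : t - 1 + 1 = t + 1 - 1 := by omega
              rw [e] at h4
              exact h4
      · simp only [nlen, nwalk, if_neg hf] at ht ⊢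
        exact M.adj f t ht
  twice := by
    have huv := hG.ne
    intro a b hab
    simp only [trav_eq]
    rw [tot_all M hs hu hv]
    rcases a with _ | a <;> rcases b with _ | b
    · exact absurd hab ((earG G u v).irrefl)
    · have hb : b = u ∨ b = v := hab
      have h0 : ∀ f, tot (M.len f) (M.walk f) (fun x y => if (some x = (none : Option V) ∧
          some y = some b) ∨ (some x = some b ∧ some y = (none : Option V)) then 1 else 0) = 0 := by
        intro f
        simp [tot]
      simp only [h0, sum_const_zero]
      rcases hb with rfl | rfl
      · simp [huv.symm]
      · simp [huv]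
    · have hb : a = u ∨ a = v := hab
      have h0 : ∀ f, tot (M.len f) (M.walk f) (fun x y => if (some x = some a ∧
          some y = (none : Option V)) ∨ (some x = (none : Option V) ∧ some y = some a)
            then 1 else 0) = 0 := by
        intro f
        simp [tot]
      simp only [h0, sum_const_zero]
      rcases hb with rfl | rfl
      · simp [huv.symm]
      · simp [huv]
    · have h1 := M.twice a b hab
      simp only [trav_eq] at h1
      simp only [Option.some.injEq]
      rw [h1]
      simp
  dual := by
    have huv := hG.ne
    intro I hI1 hI2
    by_cases hn : none ∈ I
    · by_cases h0 : some f₀ ∈ I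
      · obtain ⟨a, b, hab⟩ := M.dual (univ.filter fun f : F => some f ∈ I)
          ⟨f₀, by simpa using h0⟩ (by
            intro h
            apply hI2
            ext x
            rcases x with _ | x
            · simp [hn]
            · have := (Finset.ext_iff.1 h) x
              simpa using this)
        refine ⟨some a, some b, ?_⟩
        simp only [trav_eq] at hab ⊢
        rw [sum_option_finset, if_pos hn, tot_new_none]
        have h1 := tot_sum_in M.len M.walk f₀ s u v (fun x y => if (x = some a ∧ y = some b) ∨
          (x = some b ∧ y = some a) then 1 else 0) hs hu hv (univ.filter fun f : F => some f ∈ I)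
          (by simpa using h0)
        simp only [Option.some.injEq, reduceCtorEq, and_false, false_and, or_self, if_false]
          at h1 ⊢
        omega
      · refine ⟨some u, none, ?_⟩
        simp only [trav_eq]
        rw [sum_option_finset, if_pos hn, tot_new_none,
          tot_sum_out M.len M.walk f₀ s u v _ _ (by simpa using h0)]
        simp [tot, huv.symm]
    · by_cases h0 : some f₀ ∈ I
      · refine ⟨some u, none, ?_⟩
        simp only [trav_eq]
        rw [sum_option_finset, if_neg hn]
        have h1 := tot_sum_in M.len M.walk f₀ s u v (fun x y => if (x = some u ∧ y = none) ∨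
          (x = none ∧ y = some u) then 1 else 0) hs hu hv (univ.filter fun f : F => some f ∈ I)
          (by simpa using h0)
        have h2 : ∑ f ∈ (univ.filter fun f : F => some f ∈ I), tot (M.len f) (M.walk f)
            (fun a b => if (some a = some u ∧ some b = (none : Option V)) ∨
              (some a = (none : Option V) ∧ some b = some u) then 1 else 0) = 0 := by
          simp [tot]
        rw [h2] at h1
        simp [huv.symm] at h1
        simpa using h1
      · obtain ⟨a, b, hab⟩ := M.dual (univ.filter fun f : F => some f ∈ I) (by
            obtain ⟨x, hx⟩ := hI1
            rcases x with _ | x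
            · exact absurd hx hn
            · exact ⟨x, by simpa using hx⟩) (by
            intro h
            apply h0
            have := (Finset.ext_iff.1 h) f₀
            simpa using this)
        refine ⟨some a, some b, ?_⟩
        simp only [trav_eq] at hab ⊢
        rw [sum_option_finset, if_neg hn,
          tot_sum_out M.len M.walk f₀ s u v _ _ (by simpa using h0)]
        simp only [Option.some.injEq]
        omega

end Pool.Agent.W986
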