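import Pool.Agent.W986.Defs
import Pool.Agent.DC76.FaceRank
import Pool.Agent.DC76.Euler

/-!
# The number of edges of a graph on a surface
-/

set_option autoImplicit false

open Finset

namespace Pool.Agent.W986

open Pool.Agent.DC76

variable {V : Type} [Fintype V] [DecidableEq V]

/-- The cycle space of a graph whose edges lie inside `Y` has dimension at least
`E - |Y| + 1`. -/
theorem finrank_Z_ge (K : SimpleGraph V) (Y : Finset V) (hY : Y.Nonempty)
    (hK : ∀ u v, K.Adj u v → u ∈ Y ∧ v ∈ Y) :
    K.edgeSet.ncard + 1 ≤ Y.card + Module.finrank (ZMod 2) (Z K Set.univ) := by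
  classical
  have h1 := LinearMap.finrank_range_add_finrank_ker (bdE K)
  rw [Module.finrank_fintype_fun_eq_card] at h1
  have hE : Fintype.card K.edgeSet = K.edgeSet.ncard := by
    rw [Set.ncard_eq_toFinset_card', Set.toFinset_card]
  -- the kernel
  have h2 : Module.finrank (ZMod 2) (LinearMap.ker (bdE K)) ≤
      Module.finrank (ZMod 2) (Z K Set.univ) := by
    let Ψ : LinearMap.ker (bdE K) →ₗ[ZMod 2] (Z K Set.univ) :=
      { toFun := fun c => ⟨fun u v => if h : K.Adj u v then c.1 ⟨s(u, v), (K.mem_edgeSet).2 h⟩ else 0, by
          refine ⟨fun u v => ?_, fun u v h => ?_, fun v => ?_⟩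
          · beta_reduce
            by_cases h : K.Adj u v
            · rw [dif_pos h, dif_pos h.symm]
              exact congrArg c.1 (Subtype.ext Sym2.eq_swap)
            · rw [dif_neg h, dif_neg (fun h' => h h'.symm)]
          · refine ⟨?_, Set.mem_univ _, Set.mem_univ _⟩
            by_contra h'
            beta_reduce at h
            rw [dif_neg h'] at h
            exact h rfl
          · exact congrFun (LinearMap.mem_ker.1 c.2) v⟩
        map_add' := by
          intro y z
          apply Subtype.ext
          funext u v
          by_cases h : K.Adj u v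
          · simp [h]
          · simp [h]
        map_smul' := by
          intro c z
          apply Subtype.ext
          funext u v
          by_cases h : K.Adj u v
          · simp [h]
          · simp [h] }
    refine LinearMap.finrank_le_finrank_of_injective (f := Ψ) ?_
    rw [← LinearMap.ker_eq_bot, LinearMap.ker_eq_bot']
    intro c hc
    apply Subtype.ext
    funext e
    obtain ⟨e, he⟩ := e
    induction e using Sym2.ind with
    | _ u v =>
      have h3 := congrFun (congrFun (congrArg Subtype.val hc) u) v
      have hadj : K.Adj u v := (K.mem_edgeSet).1 he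
      have h4 : (if h : K.Adj u v then c.1 ⟨s(u, v), (K.mem_edgeSet).2 h⟩ else 0) = 0 := h3
      rw [dif_pos hadj] at h4
      exact h4
  -- the range
  have h3 : Module.finrank (ZMod 2) (LinearMap.range (bdE K)) + 1 ≤ Y.card := by
    -- the functions supported on `Y`
    let Φ : (V → ZMod 2) →ₗ[ZMod 2] ZMod 2 :=
      { toFun := fun x => ∑ v, x v
        map_add' := fun x y => by simp [Finset.sum_add_distrib]
        map_smul' := fun c x => by simp [Finset.mul_sum] }
    have hsum : ∀ c : K.edgeSet → ZMod 2, ∑ v, bdE K c v = 0 := by
      intro c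
      have hs : ∀ u v, (if h : K.Adj u v then c ⟨s(u, v), (K.mem_edgeSet).2 h⟩ else 0) =
          (if h : K.Adj v u then c ⟨s(v, u), (K.mem_edgeSet).2 h⟩ else 0) := by
        intro u v
        by_cases h : K.Adj u v
        · rw [dif_pos h, dif_pos h.symm]
          congr 1
          apply Subtype.ext
          exact Sym2.eq_swap
        · rw [dif_neg h, dif_neg (fun h' => h h'.symm)]
      have hd : ∀ u, (if h : K.Adj u u then c ⟨s(u, u), (K.mem_edgeSet).2 h⟩ else 0) = 0 := by
        intro u
        rw [dif_neg K.irrefl]
      change ∑ v, ∑ w, (if h : K.Adj v w then c ⟨s(v, w), (K.mem_edgeSet).2 h⟩ else 0) = 0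
      rw [← Finset.sum_product']
      refine Finset.sum_involution (fun p _ => (p.2, p.1)) ?_ ?_ ?_ ?_
      · rintro ⟨u, v⟩ _
        simp only
        rw [hs v u]
        exact CharTwo.add_self_eq_zero _
      · rintro ⟨u, v⟩ _ hne heq
        apply hne
        simp only [Prod.mk.injEq] at heq
        simp only
        rw [heq.1]
        exact hd _
      · intro p _
        simp
      · rintro ⟨u, v⟩ _
        rfl
    obtain ⟨r, hr⟩ := hY
    -- embed the range into functions on `Y.erase r`
    let Θ : LinearMap.range (bdE K) →ₗ[ZMod 2] (↥(Y.erase r) → ZMod 2) :=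
      { toFun := fun x v => x.1 v.1
        map_add' := fun x y => rfl
        map_smul' := fun c x => rfl }
    have hΘ : Function.Injective Θ := by
      rw [← LinearMap.ker_eq_bot, LinearMap.ker_eq_bot']
      rintro ⟨x, c, hc⟩ hx
      have h5 : ∀ v, v ≠ r → x v = 0 := by
        intro v hv
        by_cases hvY : v ∈ Y
        · exact congrFun hx ⟨v, Finset.mem_erase.2 ⟨hv, hvY⟩⟩
        · rw [← hc]
          change ∑ w, (if h : K.Adj v w then c ⟨s(v, w), (K.mem_edgeSet).2 h⟩ else 0) = 0
          refine Finset.sum_eq_zero fun w _ => ?_
          rw [dif_neg]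
          intro h
          exact hvY (hK v w h).1
      have h6 : x r = 0 := by
        have h7 := hsum c
        rw [hc] at h7
        rw [Finset.sum_eq_single r (fun v _ hv => h5 v hv) (fun h => absurd (Finset.mem_univ r) h)] at h7
        exact h7
      apply Subtype.ext
      funext v
      by_cases hv : v = r
      · rw [hv]
        exact h6
      · exact h5 v hv
    have h8 := LinearMap.finrank_le_finrank_of_injective hΘ
    rw [Module.finrank_fintype_fun_eq_card, Fintype.card_coe, Finset.card_erase_of_mem hr] at h8
    have h9 : 0 < Y.card := Finset.card_pos.2 ⟨r, hr⟩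
    omega
  omega

end Pool.Agent.W986
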