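import Pool.Agent.W986.MinorCount

/-!
# Gluing along a triangle
-/

set_option autoImplicit false

open Finset

namespace Pool.Agent.W986

open Pool.Agent.DC76

/-- At most three marked vertices, one of which need not be a hole. -/
theorem few_marks {V : Type} [Finite V] {H : SimpleGraph V} {A : Set V} (hH : SphereMinor H A)
    (x y z : V) (hA : ∀ v, v ≠ x → v ∈ A) : ∃ c : V → Fin 4, Good H {x, y, z} c := by
  classical
  have hbd : ∀ X : Finset V, X.Nonempty → ein H X + 1 ≤ X.card ∨ ein H X + 6 ≤ 3 * X.card :=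
    fun X hX => hH.ein_le X hX
  refine minor_marks hH ?_ {x, y, z} ?_
  · intro u w hu hw h
    have h1 : u = x := by
      by_contra h2
      exact hu (hA u h2)
    have h2 : w = x := by
      by_contra h2
      exact hw (hA w h2)
    exact h.ne (h1.trans h2.symm)
  · rintro W ⟨v, hv, hvA⟩
    have hWn : W.Nonempty := ⟨v, hv⟩
    have hW := hbd W hWn
    have hc1 : 1 ≤ W.card := card_pos.2 hWn
    by_cases hsmall : W.card ≤ 9
    · by_cases hT : (W.erase x).Nonempty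
      · refine ⟨W.erase x, erase_subset _ _, fun u hu => hA u (ne_of_mem_erase hu), ?_⟩
        have h1 := hbd _ hT
        have h2 : W.card - 1 ≤ (W.erase x).card := pred_card_le_card_erase
        have h3 : 1 ≤ (W.erase x).card := card_pos.2 hT
        have h4 : (W.erase x).card ≤ W.card := card_le_card (erase_subset _ _)
        omega
      · rw [not_nonempty_iff_eq_empty] at hT
        have h2 : W.card - 1 ≤ (W.erase x).card := pred_card_le_card_erase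
        rw [hT, card_empty] at h2
        have h4 : ∀ u ∈ W, u ∈ A := by
          intro u hu
          have h5 := card_le_one.1 (by omega : W.card ≤ 1) u hu v hv
          rw [h5]
          exact hvA
        refine ⟨W, subset_rfl, h4, ?_⟩
        omega
    · let T : Finset V := W.filter (· ∉ ({x, y, z} : Set V))
      have hTT : T.filter (· ∉ ({x, y, z} : Set V)) = T := by
        rw [filter_eq_self]
        intro u hu
        exact (mem_filter.1 hu).2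
      have h1 : W.card ≤ T.card + 3 := by
        have h2 : W ⊆ T ∪ {x, y, z} := by
          intro u hu
          rw [mem_union]
          by_cases h3 : u ∈ ({x, y, z} : Set V)
          · right
            simpa using h3
          · exact Or.inl (mem_filter.2 ⟨hu, h3⟩)
        exact (card_le_card h2).trans ((card_union_le _ _).trans
          (Nat.add_le_add_left card_le_three _))
      have hTn : T.Nonempty := card_pos.1 (by omega)
      refine ⟨T, filter_subset _ _, fun u hu => hA u ?_, ?_⟩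
      · rintro rfl
        exact (mem_filter.1 hu).2 (by simp)
      · rw [hTT]
        have h2 := hbd T hTn
        omega

/-- Three different colours can be permuted into three given different colours. -/
theorem exists_perm3 {a b c a' b' c' : Fin 4} (hab : a ≠ b) (hbc : b ≠ c) (hac : a ≠ c)
    (hab' : a' ≠ b') (hbc' : b' ≠ c') (hac' : a' ≠ c') :
    ∃ σ : Equiv.Perm (Fin 4), σ a = a' ∧ σ b = b' ∧ σ c = c' := by
  let σ1 := Equiv.swap a a'
  have h1 : σ1 a = a' := Equiv.swap_apply_left _ _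
  let σ2 := Equiv.swap (σ1 b) b'
  have hb1 : σ1 b ≠ a' := by
    rw [← h1]
    exact fun h => hab (σ1.injective h).symm
  have h2 : σ2 a' = a' := Equiv.swap_apply_of_ne_of_ne hb1.symm hab'
  have h3 : σ2 (σ1 b) = b' := Equiv.swap_apply_left _ _
  let σ3 := Equiv.swap (σ2 (σ1 c)) c'
  have hc1 : σ2 (σ1 c) ≠ a' := by
    rw [← h2, ← h1]
    exact fun h => hac (σ1.injective (σ2.injective h)).symm
  have hc2 : σ2 (σ1 c) ≠ b' := by
    rw [← h3]
    exact fun h => hbc (σ1.injective (σ2.injective h)).symm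
  refine ⟨(σ1.trans σ2).trans σ3, ?_, ?_, ?_⟩
  · change σ3 (σ2 (σ1 a)) = a'
    rw [h1, h2]
    exact Equiv.swap_apply_of_ne_of_ne hc1.symm hac'
  · change σ3 (σ2 (σ1 b)) = b'
    rw [h3]
    exact Equiv.swap_apply_of_ne_of_ne hc2.symm hbc'
  · exact Equiv.swap_apply_left _ _

section

variable {V : Type} [Finite V] {G : SimpleGraph V}

/-- Two colourings of the two parts of a graph. -/
theorem glue (P Q : Set V) (hPQ : ∀ v, v ∈ P ∨ v ∈ Q)
    (hcl : ∀ v w, G.Adj v w → v ∈ P → v ∉ Q → w ∈ P) (c1 c2 : V → Fin 4)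
    (hag : ∀ v ∈ P, v ∈ Q → c1 v = c2 v)
    (h1 : ∀ v ∈ P, v ∉ Q → {u | u ∈ P ∧ G.Adj v u ∧ c1 u = c1 v}.ncard ≤ 1)
    (h1' : ∀ v ∈ P, v ∈ Q → ∀ u ∈ P, u ∉ Q → G.Adj v u → c1 u ≠ c1 v)
    (h2 : ∀ v ∈ Q, {u | u ∈ Q ∧ G.Adj v u ∧ c2 u = c2 v}.ncard ≤ 1) :
    ∃ c : V → Fin 4, Defective G 1 c := by
  classical
  refine ⟨fun v => if v ∈ Q then c2 v else c1 v, fun v => ?_⟩
  have hP : ∀ u ∈ P, (if u ∈ Q then c2 u else c1 u) = c1 u := by
    intro u hu
    by_cases h : u ∈ Q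
    · rw [if_pos h, hag u hu h]
    · rw [if_neg h]
  by_cases hv : v ∈ Q
  · refine (Set.ncard_le_ncard ?_ (Set.toFinite _)).trans (h2 v hv)
    rintro u ⟨hu, hc⟩
    change (if u ∈ Q then c2 u else c1 u) = (if v ∈ Q then c2 v else c1 v) at hc
    rw [if_pos hv] at hc
    by_cases h : u ∈ Q
    · rw [if_pos h] at hc
      exact ⟨h, hu, hc⟩
    · exfalso
      rw [if_neg h] at hc
      have huP : u ∈ P := (hPQ u).resolve_right h
      have hvP := hcl u v hu.symm huP h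
      exact h1' v hvP hv u huP h hu (hc.trans (hag v hvP hv).symm)
  · have hvP : v ∈ P := (hPQ v).resolve_right hv
    refine (Set.ncard_le_ncard ?_ (Set.toFinite _)).trans (h1 v hvP hv)
    rintro u ⟨hu, hc⟩
    change (if u ∈ Q then c2 u else c1 u) = (if v ∈ Q then c2 v else c1 v) at hc
    have huP := hcl v u hu hvP hv
    rw [hP u huP, hP v hvP] at hc
    exact ⟨huP, hu, hc⟩

/-- The sphere part, three different colours. -/
theorem sphere_three {P : Set V}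
    (hS : SphereMinor (G.comap (Subtype.val : {v // v ∈ P} → V)) Set.univ)
    {x y z : V} (hx : x ∈ P) (hy : y ∈ P) (hz : z ∈ P) (hxy : G.Adj x y) (hyz : G.Adj y z)
    (hzx : G.Adj z x) {a b c : Fin 4} (hab : a ≠ b) (hbc : b ≠ c) (hac : a ≠ c) :
    ∃ c1 : V → Fin 4, c1 x = a ∧ c1 y = b ∧ c1 z = c ∧
      (∀ v ∈ P, {u | u ∈ P ∧ G.Adj v u ∧ c1 u = c1 v}.ncard ≤ 1) ∧
      ∀ v ∈ ({x, y, z} : Set V), ∀ u ∈ P, G.Adj v u → c1 u ≠ c1 v := by
  classical
  obtain ⟨c0, h1, h2⟩ := few_marks hS ⟨x, hx⟩ ⟨y, hy⟩ ⟨z, hz⟩ (fun _ _ => Set.mem_univ _)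
  have e1 : c0 ⟨y, hy⟩ ≠ c0 ⟨x, hx⟩ := h2 _ (by simp) ⟨y, hy⟩ hxy
  have e2 : c0 ⟨z, hz⟩ ≠ c0 ⟨y, hy⟩ := h2 _ (by simp) ⟨z, hz⟩ hyz
  have e3 : c0 ⟨x, hx⟩ ≠ c0 ⟨z, hz⟩ := h2 _ (by simp) ⟨x, hx⟩ hzx
  obtain ⟨σ, s1, s2, s3⟩ := exists_perm3 e1.symm e2.symm e3 hab hbc hac
  let c1 : V → Fin 4 := fun v => if h : v ∈ P then σ (c0 ⟨v, h⟩) else 0
  have hc1 : ∀ v (h : v ∈ P), c1 v = σ (c0 ⟨v, h⟩) := fun v h => dif_pos h
  refine ⟨c1, by rw [hc1 x hx, s1], by rw [hc1 y hy, s2], by rw [hc1 z hz, s3], ?_, ?_⟩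
  · intro v hv
    apply ncard_le_one_of
    rintro u ⟨hu, hu1, hu2⟩ w ⟨hw, hw1, hw2⟩
    rw [hc1 u hu, hc1 v hv] at hu2
    rw [hc1 w hw, hc1 v hv] at hw2
    have h3 := h1 ⟨v, hv⟩
    rw [Set.ncard_le_one (Set.toFinite _)] at h3
    have h4 := h3 ⟨u, hu⟩ ⟨hu1, σ.injective hu2⟩ ⟨w, hw⟩ ⟨hw1, σ.injective hw2⟩
    exact congrArg Subtype.val h4
  · intro v hv u hu huv
    have hvP : v ∈ P := by
      simp only [Set.mem_insert_iff, Set.mem_singleton_iff] at hv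
      rcases hv with rfl | rfl | rfl
      · exact hx
      · exact hy
      · exact hz
    rw [hc1 u hu, hc1 v hvP]
    intro h
    refine h2 ⟨v, hvP⟩ ?_ ⟨u, hu⟩ huv (σ.injective h)
    simp only [Set.mem_insert_iff, Set.mem_singleton_iff] at hv ⊢
    rcases hv with rfl | rfl | rfl
    · exact Or.inl rfl
    · exact Or.inr (Or.inl rfl)
    · exact Or.inr (Or.inr rfl)

/-- The sphere part, where `x` and `y` have the same colour. -/
theorem sphere_two {P : Set V}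
    (hS : SphereMinor (G.comap (Subtype.val : {v // v ∈ P} → V)) Set.univ)
    {x y z : V} (hx : x ∈ P) (hy : y ∈ P) (hz : z ∈ P) (hxy : G.Adj x y) (hyz : G.Adj y z)
    (hzx : G.Adj z x) {a b : Fin 4} (hab : a ≠ b) :
    ∃ c1 : V → Fin 4, c1 x = a ∧ c1 y = a ∧ c1 z = b ∧
      (∀ v ∈ P, v ∉ ({x, y, z} : Set V) → {u | u ∈ P ∧ G.Adj v u ∧ c1 u = c1 v}.ncard ≤ 1) ∧
      ∀ v ∈ ({x, y, z} : Set V), ∀ u ∈ P, u ∉ ({x, y, z} : Set V) → G.Adj v u → c1 u ≠ c1 v := by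
  classical
  obtain ⟨V', F, i1, i2, i3, K, f, hf1, hf2, hf3, hf4, hf5, hK, hM, hχ⟩ := hS
  -- the contracted graph
  let W := {v : V // v ∈ P ∧ v ≠ y}
  let H : SimpleGraph W :=
    { Adj := fun u w => u ≠ w ∧ (G.Adj u.1 w.1 ∨ (u.1 = x ∧ G.Adj y w.1) ∨ (w.1 = x ∧ G.Adj y u.1))
      symm := ⟨by
        rintro u w ⟨h1, h2⟩
        refine ⟨h1.symm, ?_⟩
        rcases h2 with h2 | h2 | h2
        · exact Or.inl h2.symm
        · exact Or.inr (Or.inr h2)
        · exact Or.inr (Or.inl h2)⟩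
      loopless := ⟨fun u h => h.1 rfl⟩ }
  let g : W → Set V' := fun u => if u.1 = x then f ⟨x, hx⟩ ∪ f ⟨y, hy⟩ else f ⟨u.1, u.2.1⟩
  have hgx : ∀ u : W, u.1 = x → g u = f ⟨x, hx⟩ ∪ f ⟨y, hy⟩ := fun u hu => if_pos hu
  have hgn : ∀ u : W, u.1 ≠ x → g u = f ⟨u.1, u.2.1⟩ := fun u hu => if_neg hu
  have hsub : ∀ u : W, f ⟨u.1, u.2.1⟩ ⊆ g u := by
    intro u
    by_cases hu : u.1 = x
    · rw [hgx u hu]
      have : (⟨u.1, u.2.1⟩ : {v // v ∈ P}) = ⟨x, hx⟩ := Subtype.ext hu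
      rw [this]
      exact Set.subset_union_left
    · rw [hgn u hu]
  have hsuby : ∀ u : W, u.1 = x → f ⟨y, hy⟩ ⊆ g u := by
    intro u hu
    rw [hgx u hu]
    exact Set.subset_union_right
  have hH : SphereMinor H {u | u.1 ≠ x} := by
    refine ⟨V', F, i1, i2, i3, K, g, ?_, ?_, ?_, ?_, ?_, hK, hM, hχ⟩
    · intro u
      exact (hf1 _).mono (hsub u)
    · intro u
      by_cases hu : u.1 = x
      · rw [hgx u hu]
        obtain ⟨p, hp, q, hq, hpq⟩ := hf4 ⟨x, hx⟩ ⟨y, hy⟩ hxy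
        have hl : ∀ a ∈ f ⟨x, hx⟩, ∀ b ∈ f ⟨x, hx⟩, Relation.ReflTransGen
            (fun a b => b ∈ f ⟨x, hx⟩ ∪ f ⟨y, hy⟩ ∧ K.Adj a b) a b := by
          intro a ha b hb
          refine Relation.ReflTransGen.mono ?_ _ _ (hf2 _ a ha b hb)
          rintro s t ⟨h1, h2⟩
          exact ⟨Or.inl h1, h2⟩
        have hr : ∀ a ∈ f ⟨y, hy⟩, ∀ b ∈ f ⟨y, hy⟩, Relation.ReflTransGen
            (fun a b => b ∈ f ⟨x, hx⟩ ∪ f ⟨y, hy⟩ ∧ K.Adj a b) a b := by
          intro a ha b hb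
          refine Relation.ReflTransGen.mono ?_ _ _ (hf2 _ a ha b hb)
          rintro s t ⟨h1, h2⟩
          exact ⟨Or.inr h1, h2⟩
        rintro a (ha | ha) b (hb | hb)
        · exact hl a ha b hb
        · exact ((hl a ha p hp).tail ⟨Or.inr hq, hpq⟩).trans (hr q hq b hb)
        · exact ((hr a ha q hq).tail ⟨Or.inl hp, hpq.symm⟩).trans (hl p hp b hb)
        · exact hr a ha b hb
      · rw [hgn u hu]
        exact hf2 _
    · have hd : ∀ u w : {v // v ∈ P}, u ≠ w → Disjoint (f u) (f w) := hf3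
      intro u w huw
      have hne : u.1 ≠ w.1 := fun h => huw (Subtype.ext h)
      by_cases hu : u.1 = x
      · have hw : w.1 ≠ x := fun h => hne (hu.trans h.symm)
        rw [hgx u hu, hgn w hw, Set.disjoint_union_left]
        exact ⟨hd _ _ fun h => hw (congrArg Subtype.val h).symm,
          hd _ _ fun h => w.2.2 (congrArg Subtype.val h).symm⟩
      · rw [hgn u hu]
        by_cases hw : w.1 = x
        · rw [hgx w hw, Set.disjoint_union_right]
          exact ⟨hd _ _ fun h => hu (congrArg Subtype.val h),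
            hd _ _ fun h => u.2.2 (congrArg Subtype.val h)⟩
        · rw [hgn w hw]
          exact hd _ _ fun h => hne (by
            have h' := congrArg Subtype.val h
            exact h')
    · rintro u w ⟨hne, h | ⟨h1, h2⟩ | ⟨h1, h2⟩⟩
      · obtain ⟨p, hp, q, hq, hpq⟩ := hf4 ⟨u.1, u.2.1⟩ ⟨w.1, w.2.1⟩ h
        exact ⟨p, hsub u hp, q, hsub w hq, hpq⟩
      · obtain ⟨p, hp, q, hq, hpq⟩ := hf4 ⟨y, hy⟩ ⟨w.1, w.2.1⟩ h2
        exact ⟨p, hsuby u h1 hp, q, hsub w hq, hpq⟩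
      · obtain ⟨p, hp, q, hq, hpq⟩ := hf4 ⟨y, hy⟩ ⟨u.1, u.2.1⟩ h2
        exact ⟨q, hsub u hq, p, hsuby w h1 hp, hpq.symm⟩
    · intro u hu
      rw [hgn u hu]
      exact hf5 _ (Set.mem_univ _)
  have hfin : Finite W := Subtype.finite
  obtain ⟨c0, h1, h2⟩ := few_marks hH ⟨x, hx, hxy.ne⟩ ⟨z, hz, hyz.ne'⟩ ⟨z, hz, hyz.ne'⟩
    (fun v hv h => hv (Subtype.ext h))
  have e1 : c0 ⟨z, hz, hyz.ne'⟩ ≠ c0 ⟨x, hx, hxy.ne⟩ :=
    h2 ⟨x, hx, hxy.ne⟩ (by simp) ⟨z, hz, hyz.ne'⟩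
      ⟨fun h => hzx.ne (congrArg Subtype.val h).symm, Or.inl hzx.symm⟩
  obtain ⟨σ, s1, s2⟩ : ∃ σ : Equiv.Perm (Fin 4), σ (c0 ⟨x, hx, hxy.ne⟩) = a ∧
      σ (c0 ⟨z, hz, hyz.ne'⟩) = b := by
    obtain ⟨d, hd1, hd2⟩ : ∃ d : Fin 4, d ≠ c0 ⟨x, hx, hxy.ne⟩ ∧ d ≠ c0 ⟨z, hz, hyz.ne'⟩ := by
      generalize c0 ⟨x, hx, hxy.ne⟩ = p
      generalize c0 ⟨z, hz, hyz.ne'⟩ = q
      revert p q
      decide
    obtain ⟨d', hd1', hd2'⟩ : ∃ d : Fin 4, d ≠ a ∧ d ≠ b := by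
      clear hab
      revert a b
      decide
    obtain ⟨σ, s1, s2, _⟩ := exists_perm3 e1.symm hd2.symm hd1.symm hab hd2'.symm hd1'.symm
    exact ⟨σ, s1, s2⟩
  let c1 : V → Fin 4 := fun v => if v = y then a else if h : v ∈ P ∧ v ≠ y then σ (c0 ⟨v, h⟩) else 0
  have hc1y : c1 y = a := if_pos rfl
  have hc1 : ∀ v (h : v ∈ P) (h' : v ≠ y), c1 v = σ (c0 ⟨v, h, h'⟩) := by
    intro v h h'
    change (if v = y then a else if h : v ∈ P ∧ v ≠ y then σ (c0 ⟨v, h⟩) else 0) = _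
    rw [if_neg h', dif_pos ⟨h, h'⟩]
  have hc1x : c1 x = a := by rw [hc1 x hx hxy.ne, s1]
  -- the neighbours of `x` and `y`
  have hnx : ∀ u ∈ P, u ∉ ({x, y, z} : Set V) → (G.Adj x u ∨ G.Adj y u) → c1 u ≠ a := by
    intro u hu huT huv
    simp only [Set.mem_insert_iff, Set.mem_singleton_iff, not_or] at huT
    rw [hc1 u hu huT.2.1, ← s1]
    intro h
    refine h2 ⟨x, hx, hxy.ne⟩ (by simp) ⟨u, hu, huT.2.1⟩
      ⟨fun h => huT.1 (congrArg Subtype.val h).symm, ?_⟩ (σ.injective h)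
    rcases huv with h3 | h3
    · exact Or.inl h3
    · exact Or.inr (Or.inl ⟨rfl, h3⟩)
  refine ⟨c1, hc1x, hc1y, by rw [hc1 z hz hyz.ne', s2], ?_, ?_⟩
  · intro v hv hvT
    apply ncard_le_one_of
    have hvT' := hvT
    simp only [Set.mem_insert_iff, Set.mem_singleton_iff, not_or] at hvT'
    have key : ∀ u, u ∈ P → G.Adj v u → c1 u = c1 v → u ≠ y := by
      rintro u hu h3 h4 rfl
      rw [hc1y] at h4
      exact hnx v hv hvT (Or.inr h3.symm) h4.symm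
    rintro u ⟨hu, hu1, hu2⟩ w ⟨hw, hw1, hw2⟩
    have hu3 := key u hu hu1 hu2
    have hw3 := key w hw hw1 hw2
    rw [hc1 u hu hu3, hc1 v hv hvT'.2.1] at hu2
    rw [hc1 w hw hw3, hc1 v hv hvT'.2.1] at hw2
    have h3 := h1 ⟨v, hv, hvT'.2.1⟩
    rw [Set.ncard_le_one (Set.toFinite _)] at h3
    have h4 := h3 ⟨u, hu, hu3⟩ ⟨⟨fun h => hu1.ne (congrArg Subtype.val h), Or.inl hu1⟩,
      σ.injective hu2⟩ ⟨w, hw, hw3⟩ ⟨⟨fun h => hw1.ne (congrArg Subtype.val h), Or.inl hw1⟩,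
      σ.injective hw2⟩
    exact congrArg Subtype.val h4
  · intro v hv u hu huT huv
    simp only [Set.mem_insert_iff, Set.mem_singleton_iff] at hv
    rcases hv with rfl | rfl | rfl
    · rw [hc1x]
      exact hnx u hu huT (Or.inl huv)
    · rw [hc1y]
      exact hnx u hu huT (Or.inr huv)
    · have huT' := huT
      simp only [Set.mem_insert_iff, Set.mem_singleton_iff, not_or] at huT'
      rw [hc1 u hu huT'.2.1, hc1 v hz hyz.ne']
      intro h
      exact h2 ⟨v, hz, hyz.ne'⟩ (by simp) ⟨u, hu, huT'.2.1⟩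
        ⟨fun h => huT'.2.2 (congrArg Subtype.val h).symm, Or.inl huv⟩ (σ.injective h)

end

end Pool.Agent.W986
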