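import Pool.Agent.W986.Split
import Pool.Agent.W986.Glue

/-!
# Separating triangles
-/

set_option autoImplicit false

open Finset

namespace Pool.Agent.W986

open Pool.Agent.DC76

section

variable {V : Type} [DecidableEq V] {G : SimpleGraph V} {F : Type} [Fintype F]
  {M : FacialWalks G F} {I : Finset F} {x y z : V}

/-- The facial walks of a part. -/
theorem exists_part (hc : Cut M I {x, y, z}) (hL : Link M) (h3 : ∀ f, M.len f = 3)
    (hG : G.Connected) (hxy : G.Adj x y) (hyz : G.Adj y z) (hzx : G.Adj z x) :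
    ∃ M' : FacialWalks (G.comap (Subtype.val : {v // v ∈ part M I {x, y, z}} → V))
      (Option {f // f ∈ I}), Link M' ∧ ∀ f, M'.len f = 3 := by
  have hclosed : ∀ f, pwalk M h3 I x y z f 3 = pwalk M h3 I x y z f 0 := by
    rintro (_ | f) <;> rfl
  have hadj := fun f t ht => pwalk_adj (M := M) (I := I) h3 hxy hyz hzx f t ht
  have htwice := fun u v huv => pwalk_twice hc hL h3 hxy hyz hzx u v huv
  have hlink := fun v N h1 h2 => pwalk_link hc hL h3 v N h1 h2
  refine ⟨⟨fun _ => 3, pwalk M h3 I x y z, hclosed, hadj, htwice, ?_⟩, hlink, fun _ => rfl⟩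
  exact dual_of_link (fun _ => 3) (pwalk M h3 I x y z) hadj hclosed htwice (fun _ => by omega)
    (part_connected hc hL hG hxy hzx) hlink

end

section

variable {V : Type} [Fintype V] [DecidableEq V] {G : SimpleGraph V} {F : Type} [Fintype F]

/-- In a connected graph with facial walks `V - E + F ≤ 2`. -/
theorem euler_le_two_of_walks (hG : G.Connected) (M : FacialWalks G F) :
    (Fintype.card V : ℤ) - G.edgeSet.ncard + Fintype.card F ≤ 2 := by
  obtain ⟨r⟩ := hG.nonempty
  have h := edge_bound G _ ⟨V, F, inferInstance, inferInstance, inferInstance, G, id,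
    Function.injective_id, fun _ _ h => h, hG, ⟨M⟩, rfl⟩ {r} (singleton_nonempty r)
  have h1 : (0 : ℤ) ≤ (ein G {r} : ℤ) := Int.natCast_nonneg _
  rw [card_singleton] at h
  push_cast at h
  rcases h with h | h <;> omega

/-- Three times the number of faces is twice the number of edges. -/
theorem tri_edges (M : FacialWalks G F) (h3 : ∀ f, M.len f = 3) :
    3 * Fintype.card F = 2 * G.edgeSet.ncard := by
  rw [← sum_len M.len M.walk M.adj M.twice, sum_congr rfl fun f _ => h3 f, sum_const, card_univ,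
    smul_eq_mul, mul_comm]

variable {M : FacialWalks G F} {I : Finset F} {x y z : V}

open Classical in
theorem part_card (hc : Cut M I {x, y, z}) (hL : Link M) (hG : G.Connected)
    (hxy : G.Adj x y) (hyz : G.Adj y z) (hzx : G.Adj z x) :
    Fintype.card {v // v ∈ part M I {x, y, z}} + Fintype.card {v // v ∈ part M Iᶜ {x, y, z}} =
      Fintype.card V + 3 := by
  have hnb : ∀ v, ∃ w, G.Adj v w := by
    intro v
    by_cases hv : v = x
    · exact ⟨y, hv ▸ hxy⟩
    · obtain ⟨p⟩ := hG.preconnected v x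
      cases p with
      | nil => exact absurd rfl hv
      | cons h _ => exact ⟨_, h⟩
  rw [Fintype.card_subtype, Fintype.card_subtype, ← card_union_add_card_inter]
  have h1 : (univ.filter fun v => v ∈ part M I {x, y, z}) ∪
      (univ.filter fun v => v ∈ part M Iᶜ {x, y, z}) = univ := by
    rw [eq_univ_iff_forall]
    intro v
    obtain ⟨w, hw⟩ := hnb v
    rw [mem_union, mem_filter, mem_filter]
    rcases part_union M I {x, y, z} hw with h | h
    · exact Or.inl ⟨mem_univ _, h⟩
    · exact Or.inr ⟨mem_univ _, h⟩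
  have h2 : (univ.filter fun v => v ∈ part M I {x, y, z}) ∩
      (univ.filter fun v => v ∈ part M Iᶜ {x, y, z}) = {x, y, z} := by
    ext v
    rw [mem_inter, mem_filter, mem_filter]
    constructor
    · rintro ⟨⟨_, ha⟩, ⟨_, hb⟩⟩
      obtain ⟨w, hw⟩ := hnb v
      have h := part_inter hc hL hw ha hb
      simpa using h
    · intro h
      have h' : v ∈ ({x, y, z} : Set V) := by simpa using h
      exact ⟨⟨mem_univ _, Or.inl h'⟩, ⟨mem_univ _, Or.inl h'⟩⟩
  rw [h1, h2, card_univ]
  congr 1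
  rw [card_insert_of_notMem, card_insert_of_notMem, card_singleton]
  · rw [mem_singleton]
    exact hyz.ne
  · rw [mem_insert, mem_singleton, not_or]
    exact ⟨hxy.ne, hzx.ne'⟩

open Classical in
/-- One of the two parts is a sphere, the other one a projective plane. -/
theorem part_euler (hc : Cut M I {x, y, z}) (hL : Link M) (h3 : ∀ f, M.len f = 3)
    (hG : G.Connected) (hxy : G.Adj x y) (hyz : G.Adj y z) (hzx : G.Adj z x)
    (hχ : (Fintype.card V : ℤ) - G.edgeSet.ncard + Fintype.card F = 1) :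
    ∃ J : Finset F, Cut M J {x, y, z} ∧
      (Fintype.card {v // v ∈ part M J {x, y, z}} : ℤ) -
        (G.comap (Subtype.val : {v // v ∈ part M J {x, y, z}} → V)).edgeSet.ncard +
          Fintype.card (Option {f // f ∈ J}) = 2 ∧
      (Fintype.card {v // v ∈ part M Jᶜ {x, y, z}} : ℤ) -
        (G.comap (Subtype.val : {v // v ∈ part M Jᶜ {x, y, z}} → V)).edgeSet.ncard +
          Fintype.card (Option {f // f ∈ Jᶜ}) = 1 := by
  obtain ⟨M1, hM1, h31⟩ := exists_part hc hL h3 hG hxy hyz hzx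
  obtain ⟨M2, hM2, h32⟩ := exists_part hc.compl hL h3 hG hxy hyz hzx
  have c1 := part_connected hc hL hG hxy hzx
  have c2 := part_connected hc.compl hL hG hxy hzx
  have e1 := euler_le_two_of_walks c1 M1
  have e2 := euler_le_two_of_walks c2 M2
  have t1 := tri_edges M1 h31
  have t2 := tri_edges M2 h32
  have t := tri_edges M h3
  have hcard := part_card hc hL hG hxy hyz hzx
  have hF : Fintype.card {f // f ∈ I} + Fintype.card {f // f ∈ Iᶜ} = Fintype.card F := by
    rw [Fintype.card_coe, Fintype.card_coe, card_add_card_compl]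
  rw [Fintype.card_option] at e1 e2 t1 t2
  by_cases h : (Fintype.card {v // v ∈ part M I {x, y, z}} : ℤ) -
        (G.comap (Subtype.val : {v // v ∈ part M I {x, y, z}} → V)).edgeSet.ncard +
          (Fintype.card {f // f ∈ I} + 1 : ℕ) = 2
  · refine ⟨I, hc, ?_, ?_⟩
    · rw [Fintype.card_option]
      exact h
    · rw [Fintype.card_option]
      push_cast at *
      omega
  · refine ⟨Iᶜ, hc.compl, ?_, ?_⟩
    · rw [Fintype.card_option]
      push_cast at *
      omega
    · rw [compl_compl, Fintype.card_option]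
      push_cast at *
      omega

end

section

variable {V : Type} [Fintype V] [DecidableEq V] {G : SimpleGraph V}

omit [DecidableEq V] in
theorem glue_two (P Q T : Set V) (hPQ : ∀ v, v ∈ P ∨ v ∈ Q) (hint : ∀ v ∈ P, v ∈ Q → v ∈ T)
    (hcl : ∀ v w, G.Adj v w → v ∈ P → v ∉ Q → w ∈ P)
    (hS : SphereMinor (G.comap (Subtype.val : {v // v ∈ P} → V)) Set.univ) {x y z : V}
    (hT : T = {x, y, z}) (hTP : T ⊆ P) (hTQ : T ⊆ Q) (hxy : G.Adj x y) (hyz : G.Adj y z)
    (hzx : G.Adj z x) {c2 : V → Fin 4}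
    (h2 : ∀ v ∈ Q, {u | u ∈ Q ∧ G.Adj v u ∧ c2 u = c2 v}.ncard ≤ 1) (hc : c2 x = c2 y) :
    ∃ c : V → Fin 4, Defective G 1 c := by
  subst hT
  have hx : x ∈ ({x, y, z} : Set V) := by simp
  have hy : y ∈ ({x, y, z} : Set V) := by simp
  have hz : z ∈ ({x, y, z} : Set V) := by simp
  have hne : c2 x ≠ c2 z := by
    intro h
    have h3 := h2 x (hTQ hx)
    rw [Set.ncard_le_one (Set.toFinite _)] at h3
    exact hyz.ne (h3 y ⟨hTQ hy, hxy, hc.symm⟩ z ⟨hTQ hz, hzx.symm, h.symm⟩)
  obtain ⟨c1, a1, a2, a3, a4, a5⟩ := sphere_two hS (hTP hx) (hTP hy) (hTP hz) hxy hyz hzx hne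
  refine glue P Q hPQ hcl c1 c2 ?_ ?_ ?_ h2
  · intro v hv hv'
    have h := hint v hv hv'
    simp only [Set.mem_insert_iff, Set.mem_singleton_iff] at h
    rcases h with rfl | rfl | rfl
    · exact a1
    · exact a2.trans hc
    · exact a3
  · intro v hv hv'
    exact a4 v hv fun h => hv' (hTQ h)
  · intro v hv hv' u hu hu' huv
    exact a5 v (hint v hv hv') u hu (fun h => hu' (hTQ h)) huv

omit [DecidableEq V] in
theorem glue_all (P Q T : Set V) (hPQ : ∀ v, v ∈ P ∨ v ∈ Q) (hint : ∀ v ∈ P, v ∈ Q → v ∈ T)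
    (hcl : ∀ v w, G.Adj v w → v ∈ P → v ∉ Q → w ∈ P)
    (hS : SphereMinor (G.comap (Subtype.val : {v // v ∈ P} → V)) Set.univ) {x y z : V}
    (hT : T = {x, y, z}) (hTP : T ⊆ P) (hTQ : T ⊆ Q) (hxy : G.Adj x y) (hyz : G.Adj y z)
    (hzx : G.Adj z x) {cQ : {v // v ∈ Q} → Fin 4}
    (hcQ : Defective (G.comap (Subtype.val : {v // v ∈ Q} → V)) 1 cQ) :
    ∃ c : V → Fin 4, Defective G 1 c := by
  classical
  let c2 : V → Fin 4 := fun v => if h : v ∈ Q then cQ ⟨v, h⟩ else 0
  have hc2 : ∀ v (h : v ∈ Q), c2 v = cQ ⟨v, h⟩ := fun v h => dif_pos h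
  have h2 : ∀ v ∈ Q, {u | u ∈ Q ∧ G.Adj v u ∧ c2 u = c2 v}.ncard ≤ 1 := by
    intro v hv
    apply ncard_le_one_of
    rintro u ⟨hu, hu1, hu2⟩ w ⟨hw, hw1, hw2⟩
    rw [hc2 u hu, hc2 v hv] at hu2
    rw [hc2 w hw, hc2 v hv] at hw2
    have h3 := hcQ ⟨v, hv⟩
    rw [Set.ncard_le_one (Set.toFinite _)] at h3
    exact congrArg Subtype.val (h3 ⟨u, hu⟩ ⟨hu1, hu2⟩ ⟨w, hw⟩ ⟨hw1, hw2⟩)
  by_cases hab : c2 x = c2 y
  · exact glue_two P Q T hPQ hint hcl hS hT hTP hTQ hxy hyz hzx h2 hab
  by_cases hbc : c2 y = c2 z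
  · refine glue_two P Q T hPQ hint hcl hS (x := y) (y := z) (z := x) ?_ hTP hTQ hyz hzx hxy h2 hbc
    rw [hT]
    ext v
    simp only [Set.mem_insert_iff, Set.mem_singleton_iff]
    tauto
  by_cases hac : c2 z = c2 x
  · refine glue_two P Q T hPQ hint hcl hS (x := z) (y := x) (z := y) ?_ hTP hTQ hzx hxy hyz h2 hac
    rw [hT]
    ext v
    simp only [Set.mem_insert_iff, Set.mem_singleton_iff]
    tauto
  subst hT
  have hx : x ∈ ({x, y, z} : Set V) := by simp
  have hy : y ∈ ({x, y, z} : Set V) := by simp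
  have hz : z ∈ ({x, y, z} : Set V) := by simp
  obtain ⟨c1, a1, a2, a3, a4, a5⟩ := sphere_three hS (hTP hx) (hTP hy) (hTP hz) hxy hyz hzx hab hbc
    (fun h => hac h.symm)
  refine glue P Q hPQ hcl c1 c2 ?_ ?_ ?_ h2
  · intro v hv hv'
    have h := hint v hv hv'
    simp only [Set.mem_insert_iff, Set.mem_singleton_iff] at h
    rcases h with rfl | rfl | rfl
    · exact a1
    · exact a2
    · exact a3
  · intro v hv _
    exact a4 v hv
  · intro v hv hv' u hu _ huv
    exact a5 v (hint v hv hv') u hu huv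

variable {F : Type} [Fintype F]

/-- The triangle `xyz` is a face. -/
def Facial (M : FacialWalks G F) (x y z : V) : Prop :=
  ∃ f, ∀ t < 3, M.walk f t ∈ ({x, y, z} : Set V)

/-- A triangle which bounds a set of faces and is not a face is reducible. -/
theorem septri {M : FacialWalks G F} {I : Finset F} {x y z : V} (hc : Cut M I {x, y, z})
    (hL : Link M) (h3 : ∀ f, M.len f = 3) (hG : G.Connected) (hxy : G.Adj x y) (hyz : G.Adj y z)
    (hzx : G.Adj z x) (hχ : (Fintype.card V : ℤ) - G.edgeSet.ncard + Fintype.card F = 1)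
    (hnf : ¬ Facial M x y z)
    (hmin : ∀ (V' F' : Type) [Fintype V'] [DecidableEq V'] [Fintype F'] (G' : SimpleGraph V')
      (M' : FacialWalks G' F'), Fintype.card V' < Fintype.card V → G'.Connected → Link M' →
      (∀ f, M'.len f = 3) → (Fintype.card V' : ℤ) - G'.edgeSet.ncard + Fintype.card F' = 1 →
      ∃ c : V' → Fin 4, Defective G' 1 c) :
    ∃ c : V → Fin 4, Defective G 1 c := by
  classical
  obtain ⟨J, hJ, hs, hp⟩ := part_euler hc hL h3 hG hxy hyz hzx hχ
  obtain ⟨M1, hM1, h31⟩ := exists_part hJ hL h3 hG hxy hyz hzx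
  obtain ⟨M2, hM2, h32⟩ := exists_part hJ.compl hL h3 hG hxy hyz hzx
  have c1 := part_connected hJ hL hG hxy hzx
  have c2 := part_connected hJ.compl hL hG hxy hzx
  have hnb : ∀ v, ∃ w, G.Adj v w := by
    intro v
    by_cases hv : v = x
    · exact ⟨y, hv ▸ hxy⟩
    · obtain ⟨p⟩ := hG.preconnected v x
      cases p with
      | nil => exact absurd rfl hv
      | cons h _ => exact ⟨_, h⟩
  have hint : ∀ v ∈ part M J {x, y, z}, v ∈ part M Jᶜ {x, y, z} → v ∈ ({x, y, z} : Set V) := by
    intro v hv hv'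
    obtain ⟨w, hw⟩ := hnb v
    exact part_inter hJ hL hw hv hv'
  -- the projective part is smaller
  obtain ⟨v, hv, hvT⟩ : ∃ v ∈ part M J {x, y, z}, v ∉ ({x, y, z} : Set V) := by
    have h1 := (hJ x y hxy).2 ⟨by simp, by simp⟩
    obtain ⟨f, hf, _⟩ := exists_ne_zero_of_sum_ne_zero (s := J)
      (f := fun f => trav (M.len f) (M.walk f) x y) (by
        unfold bd at h1
        omega)
    by_contra hcon
    push Not at hcon
    exact hnf ⟨f, fun t ht => hcon _ (mem_part M hf (by rw [h3]; exact ht))⟩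
  have hlt : Fintype.card {v // v ∈ part M Jᶜ {x, y, z}} < Fintype.card V :=
    Fintype.card_subtype_lt (x := v) fun h => hvT (hint v hv h)
  obtain ⟨cQ, hcQ⟩ := hmin _ _ _ M2 hlt c2 hM2 h32 hp
  have hS : SphereMinor (G.comap (Subtype.val : {v // v ∈ part M J {x, y, z}} → V)) Set.univ := by
    refine ⟨_, _, inferInstance, inferInstance, inferInstance, _, fun u => {u}, ?_, ?_, ?_, ?_, ?_,
      c1, ⟨M1, hM1⟩, hs⟩
    · intro u
      exact Set.singleton_nonempty u
    · rintro u a rfl b rfl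
      exact Relation.ReflTransGen.refl
    · intro u w huw
      exact Set.disjoint_singleton.2 huw
    · intro u w huw
      exact ⟨u, rfl, w, rfl, huw⟩
    · intro u _
      exact ⟨u, rfl⟩
  refine glue_all _ _ {x, y, z} ?_ hint ?_ hS rfl (fun _ h => Or.inl h) (fun _ h => Or.inl h)
    hxy hyz hzx hcQ
  · intro v
    obtain ⟨w, hw⟩ := hnb v
    exact part_union M J {x, y, z} hw
  · intro v w hvw hv hv'
    exact hJ.closed hL (fun h => hv' (Or.inl h)) hv hvw

end

end Pool.Agent.W986
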