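import Pool.Agent.W986.Sphere
import Pool.Agent.W986.SepTri

/-!
# The minimum degree
-/

set_option autoImplicit false

open Finset

namespace Pool.Agent.W986

open Pool.Agent.DC76

theorem ise_excl {V : Type} {a b c x y : V} (hab : a ≠ b) (hca : c ≠ a) (h1 : ise a b x y)
    (h2 : ise b c x y) : False := by
  rcases h1 with ⟨rfl, rfl⟩ | ⟨rfl, rfl⟩
  · rcases h2 with ⟨h3, _⟩ | ⟨_, h4⟩
    · exact hab h3.symm
    · exact hca h4
  · rcases h2 with ⟨_, h4⟩ | ⟨h3, _⟩
    · exact hca h4
    · exact hab h3.symm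

section

variable {V : Type} [DecidableEq V] {G : SimpleGraph V} {F : Type} [Fintype F]

/-- How often a triangular face traverses an edge. -/
theorem trav_face (M : FacialWalks G F) {f : F} (h3 : M.len f = 3) (x y : V) :
    trav (M.len f) (M.walk f) x y = if x ≠ y ∧ x ∈ vs M f ∧ y ∈ vs M f then 1 else 0 := by
  by_cases h : x ≠ y ∧ x ∈ vs M f ∧ y ∈ vs M f
  · rw [if_pos h]
    have h1 := (at_iff M h3 x y).2 h
    unfold At at h1
    have h01 := (M.adj f 0 (by omega)).ne
    have h12 := (M.adj f 1 (by omega)).ne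
    have h20 := (M.adj f 2 (by omega)).ne
    have hc := M.closed f
    rw [h3] at hc
    rw [show 2 + 1 = 3 from rfl, hc] at h20
    rw [h3] at h1 ⊢
    rw [trav_three, hc] at h1 ⊢
    by_cases ha : ise (M.walk f 0) (M.walk f 1) x y
    · have hb : ¬ ise (M.walk f 1) (M.walk f 2) x y := fun hb => ise_excl h01 h20 ha hb
      have hd : ¬ ise (M.walk f 2) (M.walk f 0) x y := fun hd => ise_excl h20 h12 hd ha
      rw [if_pos ha, if_neg hb, if_neg hd]
    · by_cases hb : ise (M.walk f 1) (M.walk f 2) x y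
      · have hd : ¬ ise (M.walk f 2) (M.walk f 0) x y := fun hd => ise_excl h12 h01 hb hd
        rw [if_neg ha, if_pos hb, if_neg hd]
      · rw [if_neg ha, if_neg hb] at h1 ⊢
        by_cases hd : ise (M.walk f 2) (M.walk f 0) x y
        · rw [if_pos hd]
        · rw [if_neg hd] at h1
          exact absurd rfl h1
  · rw [if_neg h]
    by_contra h1
    exact h ((at_iff M h3 x y).1 h1)

/-- Every edge is in exactly two faces. -/
theorem card_faces (M : FacialWalks G F) (h3 : ∀ f, M.len f = 3) {x y : V} (hxy : G.Adj x y) :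
    (univ.filter fun f => x ∈ vs M f ∧ y ∈ vs M f).card = 2 := by
  rw [← M.twice x y hxy, card_filter]
  refine sum_congr rfl fun f _ => ?_
  rw [trav_face M (h3 f)]
  have hne := hxy.ne
  by_cases h : x ∈ vs M f ∧ y ∈ vs M f
  · rw [if_pos h, if_pos ⟨hne, h⟩]
  · rw [if_neg h, if_neg fun h' => h h'.2]

/-- Two different vertices of a face are adjacent. -/
theorem adj_of_vs (M : FacialWalks G F) (h3 : ∀ f, M.len f = 3) {f : F} {x y : V}
    (hx : x ∈ vs M f) (hy : y ∈ vs M f) (hne : x ≠ y) : G.Adj x y :=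
  adj_of_at M ((at_iff M (h3 f) x y).2 ⟨hne, hx, hy⟩)

/-- A set of faces which is closed is everything. -/
theorem eq_univ_of_closed (M : FacialWalks G F) (h3 : ∀ f, M.len f = 3) (I : Finset F)
    (hI : I.Nonempty)
    (hcl : ∀ x y, x ≠ y → (I.filter fun f => x ∈ vs M f ∧ y ∈ vs M f).card ≠ 1) : I = univ := by
  by_contra hne
  obtain ⟨u, v, h⟩ := M.dual I hI hne
  have h1 : ∑ f ∈ I, trav (M.len f) (M.walk f) u v =
      if u ≠ v then (I.filter fun f => u ∈ vs M f ∧ v ∈ vs M f).card else 0 := by
    by_cases huv : u ≠ v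
    · rw [if_pos huv, card_filter]
      refine sum_congr rfl fun f _ => ?_
      rw [trav_face M (h3 f)]
      by_cases h : u ∈ vs M f ∧ v ∈ vs M f
      · rw [if_pos h, if_pos ⟨huv, h⟩]
      · rw [if_neg h, if_neg fun h' => h h'.2]
    · rw [if_neg huv]
      refine sum_eq_zero fun f _ => ?_
      rw [trav_face M (h3 f), if_neg fun h' => huv h'.1]
  rw [h1] at h
  by_cases huv : u ≠ v
  · rw [if_pos huv] at h
    exact hcl u v huv h
  · rw [if_neg huv] at h
    exact absurd h (by omega)

end

section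

variable {V : Type} [Fintype V] [DecidableEq V] {G : SimpleGraph V} {F : Type} [Fintype F]

/-- Two faces have different vertices. -/
theorem vs_inj (M : FacialWalks G F) (h3 : ∀ f, M.len f = 3)
    (hχ : (Fintype.card V : ℤ) - G.edgeSet.ncard + Fintype.card F = 1) {f g : F} (hfg : f ≠ g) :
    vs M f ≠ vs M g := by
  classical
  intro h
  have h1 : ({f, g} : Finset F) = univ := by
    refine eq_univ_of_closed M h3 _ ⟨f, by simp⟩ fun x y hxy => ?_
    rw [filter_insert, filter_singleton, h]
    by_cases h2 : x ∈ vs M g ∧ y ∈ vs M g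
    · rw [if_pos h2, if_pos h2, card_insert_of_notMem, card_singleton]
      · omega
      · rw [mem_singleton]
        exact hfg
    · rw [if_neg h2, if_neg h2, card_empty]
      omega
  have h2 : Fintype.card F = 2 := by
    rw [← card_univ, ← h1, card_pair hfg]
  have h4 := tri_edges M h3
  have h5 : 3 ≤ Fintype.card V := by
    rw [← vs_card M (h3 f)]
    exact card_le_univ _
  omega

/-- The two faces at an edge. -/
theorem two_faces (M : FacialWalks G F) (h3 : ∀ f, M.len f = 3)
    (hχ : (Fintype.card V : ℤ) - G.edgeSet.ncard + Fintype.card F = 1) {x y : V}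
    (hxy : G.Adj x y) : ∃ p q f g, p ≠ q ∧ f ≠ g ∧ vs M f = {x, y, p} ∧ vs M g = {x, y, q} ∧
      G.Adj x p ∧ G.Adj y p ∧ G.Adj x q ∧ G.Adj y q ∧
      ∀ h, x ∈ vs M h → y ∈ vs M h → h = f ∨ h = g := by
  classical
  have h1 := card_faces M h3 hxy
  obtain ⟨f, g, hfg, h2⟩ := card_eq_two.1 h1
  have key : ∀ f, x ∈ vs M f → y ∈ vs M f → ∃ p, vs M f = {x, y, p} ∧ G.Adj x p ∧ G.Adj y p := by
    intro f hx hy
    have h4 := vs_card M (h3 f)
    have h5 : ({x, y} : Finset V) ⊆ vs M f := by
      intro a ha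
      rw [mem_insert, mem_singleton] at ha
      rcases ha with rfl | rfl
      · exact hx
      · exact hy
    have h6 : (vs M f \ {x, y}).card = 1 := by
      rw [card_sdiff_of_subset h5, h4, card_pair hxy.ne]
    obtain ⟨p, hp⟩ := card_eq_one.1 h6
    have hp' : p ∈ vs M f \ {x, y} := by
      rw [hp]
      exact mem_singleton_self p
    rw [mem_sdiff, mem_insert, mem_singleton, not_or] at hp'
    refine ⟨p, ?_, adj_of_vs M h3 hx hp'.1 (Ne.symm hp'.2.1), adj_of_vs M h3 hy hp'.1
      (Ne.symm hp'.2.2)⟩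
    ext a
    rw [mem_insert, mem_insert, mem_singleton]
    constructor
    · intro ha
      by_cases h7 : a = x
      · exact Or.inl h7
      · by_cases h8 : a = y
        · exact Or.inr (Or.inl h8)
        · have h9 : a ∈ vs M f \ {x, y} := by
            rw [mem_sdiff, mem_insert, mem_singleton, not_or]
            exact ⟨ha, h7, h8⟩
          rw [hp] at h9
          exact Or.inr (Or.inr (mem_singleton.1 h9))
    · rintro (rfl | rfl | rfl)
      · exact hx
      · exact hy
      · exact hp'.1
  have hf : f ∈ univ.filter fun f => x ∈ vs M f ∧ y ∈ vs M f := by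
    rw [h2]
    exact mem_insert_self _ _
  have hg : g ∈ univ.filter fun f => x ∈ vs M f ∧ y ∈ vs M f := by
    rw [h2]
    exact mem_insert_of_mem (mem_singleton_self _)
  obtain ⟨p, hp, hp1, hp2⟩ := key f (mem_filter.1 hf).2.1 (mem_filter.1 hf).2.2
  obtain ⟨q, hq, hq1, hq2⟩ := key g (mem_filter.1 hg).2.1 (mem_filter.1 hg).2.2
  refine ⟨p, q, f, g, ?_, hfg, hp, hq, hp1, hp2, hq1, hq2, ?_⟩
  · rintro rfl
    exact vs_inj M h3 hχ hfg (hp.trans hq.symm)
  · intro h hx hy
    have h4 : h ∈ univ.filter fun f => x ∈ vs M f ∧ y ∈ vs M f := mem_filter.2 ⟨mem_univ _, hx, hy⟩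
    rw [h2, mem_insert, mem_singleton] at h4
    exact h4

/-- In a triangulation of the projective plane every vertex has at least three neighbours. -/
theorem three_nbrs (M : FacialWalks G F) (h3 : ∀ f, M.len f = 3)
    (hχ : (Fintype.card V : ℤ) - G.edgeSet.ncard + Fintype.card F = 1) {v w : V}
    (hvw : G.Adj v w) (a b : V) : ∃ c, G.Adj v c ∧ c ≠ a ∧ c ≠ b := by
  obtain ⟨p, q, f, g, hpq, _, _, _, h1, h2, h4, h5, _⟩ := two_faces M h3 hχ hvw
  by_contra hcon
  push Not at hcon
  have hw : w = a ∨ w = b := by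
    by_contra h
    push Not at h
    exact h.2 (hcon w hvw h.1)
  have hp : p = a ∨ p = b := by
    by_contra h
    push Not at h
    exact h.2 (hcon p h1 h.1)
  have hq : q = a ∨ q = b := by
    by_contra h
    push Not at h
    exact h.2 (hcon q h4 h.1)
  have h6 := h2.ne
  have h7 := h5.ne
  rcases hw with hw | hw <;> rcases hp with hp | hp <;> rcases hq with hq | hq
  · exact hpq (hp.trans hq.symm)
  · exact h6 (hw.trans hp.symm)
  · exact h7 (hw.trans hq.symm)
  · exact hpq (hp.trans hq.symm)
  · exact hpq (hp.trans hq.symm)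
  · exact h7 (hw.trans hq.symm)
  · exact h6 (hw.trans hp.symm)
  · exact hpq (hp.trans hq.symm)

/-- If every even triangle is a face, every vertex has at least four neighbours. -/
theorem four_nbrs (hG : G.Connected) (M : FacialWalks G F) (h3 : ∀ f, M.len f = 3)
    (hχ : (Fintype.card V : ℤ) - G.edgeSet.ncard + Fintype.card F = 1) {X : V → V → ZMod 2}
    (hX : ∀ x y, X x y = X y x)
    (hf : ∀ f, ∑ t ∈ range (M.len f), X (M.walk f t) (M.walk f (t + 1)) = 0)
    (htri : ∀ x y z, G.Adj x y → G.Adj y z → G.Adj z x → X x y + X y z + X z x = 0 →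
      Facial M x y z) {v w : V} (hvw : G.Adj v w) (a b c : V) :
    ∃ d, G.Adj v d ∧ d ≠ a ∧ d ≠ b ∧ d ≠ c := by
  classical
  by_contra hcon
  push Not at hcon
  have hno : ∀ d, G.Adj v d → d = a ∨ d = b ∨ d = c := by
    intro d hd
    by_contra h
    push Not at h
    exact h.2.2 (hcon d hd h.1 h.2.1)
  -- all three are neighbours, and different
  obtain ⟨c', hc', hca, hcb⟩ := three_nbrs M h3 hχ hvw a b
  have hcc : c' = c := by
    rcases hno c' hc' with h | h | h
    · exact absurd h hca
    · exact absurd h hcb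
    · exact h
  subst hcc
  obtain ⟨b', hb', hba, hbc⟩ := three_nbrs M h3 hχ hvw a c'
  have hbb : b' = b := by
    rcases hno b' hb' with h | h | h
    · exact absurd h hba
    · exact h
    · exact absurd h hbc
  subst hbb
  obtain ⟨a', ha', hab, hac⟩ := three_nbrs M h3 hχ hvw b' c'
  have haa : a' = a := by
    rcases hno a' ha' with h | h | h
    · exact h
    · exact absurd h hab
    · exact absurd h hac
  subst haa
  -- the faces at `v`
  have key : ∀ x y z : V, G.Adj v x → x ≠ y → x ≠ z → y ≠ z →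
      (∀ d, G.Adj v d → d = x ∨ d = y ∨ d = z) → ∃ f g, vs M f = {v, x, y} ∧
        vs M g = {v, x, z} ∧ G.Adj x y ∧ G.Adj x z ∧ ∀ h, v ∈ vs M h → x ∈ vs M h → h = f ∨ h = g := by
    intro x y z hx hxy hxz hyz hall
    obtain ⟨p, q, f, g, hpq, _, e1, e2, h1, h2, h4, h5, h6⟩ := two_faces M h3 hχ hx
    have hp : p = y ∨ p = z := (hall p h1).resolve_left h2.ne'
    have hq : q = y ∨ q = z := (hall q h4).resolve_left h5.ne'
    rcases hp with rfl | rfl <;> rcases hq with rfl | rfl
    · exact absurd rfl hpq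
    · exact ⟨f, g, e1, e2, h2, h5, h6⟩
    · exact ⟨g, f, e2, e1, h5, h2, fun h hh hh' => (h6 h hh hh').symm⟩
    · exact absurd rfl hpq
  obtain ⟨f1, f2, e1, e2, j1, j2, u1⟩ := key a' b' c' ha' hab hac hbc.symm.symm hno
  obtain ⟨f3, f4, e3, e4, j3, j4, u2⟩ := key b' a' c' hb' hab.symm hbc hac
    (fun d hd => by
      rcases hno d hd with h | h | h
      · exact Or.inr (Or.inl h)
      · exact Or.inl h
      · exact Or.inr (Or.inr h))
  -- the triangle `a' b' c'` is even
  have hev : ∀ f (x y z : V), vs M f = {x, y, z} → x ≠ y → y ≠ z → z ≠ x →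
      X x y + X y z + X z x = 0 := by
    intro f x y z he hxy hyz hzx
    have h1 := hf f
    have hc := M.closed f
    rw [h3, sum_range_succ, sum_range_succ, sum_range_succ, range_zero, sum_empty, zero_add] at h1
    rw [h3] at hc
    rw [show 2 + 1 = 3 from rfl, hc] at h1
    have h01 := (M.adj f 0 (by rw [h3]; omega)).ne
    have h12 := (M.adj f 1 (by rw [h3]; omega)).ne
    have h20 := (M.adj f 2 (by rw [h3]; omega)).ne
    rw [show 2 + 1 = 3 from rfl, hc] at h20
    have m0 : M.walk f 0 ∈ vs M f := by simp [vs]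
    have m1 : M.walk f 1 ∈ vs M f := by simp [vs]
    have m2 : M.walk f 2 ∈ vs M f := by simp [vs]
    rw [he] at m0 m1 m2
    simp only [mem_insert, mem_singleton] at m0 m1 m2
    generalize M.walk f 0 = w0 at *
    generalize M.walk f 1 = w1 at *
    generalize M.walk f 2 = w2 at *
    have hcm : ∀ p q r : ZMod 2, p + q + r = 0 → q + r + p = 0 ∧ r + p + q = 0 ∧ r + q + p = 0 ∧
        q + p + r = 0 ∧ p + r + q = 0 := by decide
    have hh := hcm _ _ _ h1
    rcases m0 with rfl | rfl | rfl <;> rcases m1 with rfl | rfl | rfl <;>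
      rcases m2 with rfl | rfl | rfl <;>
      first
      | exact absurd rfl h01
      | exact absurd rfl h12
      | exact absurd rfl h20
      | (simp only [hX w0 w1, hX w1 w2, hX w2 w0] at hh h1 ⊢; tauto)
  have hx0 : X a' b' + X b' c' + X c' a' = 0 := by
    have g1 := hev f1 v a' b' e1 ha'.ne j1.ne hb'.ne'
    have g2 := hev f2 v a' c' e2 ha'.ne j2.ne hc'.ne'
    have g3 := hev f4 v b' c' e4 hb'.ne j4.ne hc'.ne'
    rw [hX b' v] at g1
    rw [hX c' v] at g2 g3
    rw [hX c' a']
    revert g1 g2 g3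
    generalize X v a' = p
    generalize X v b' = q
    generalize X v c' = r
    generalize X a' b' = s
    generalize X a' c' = t
    generalize X b' c' = u
    clear * -
    revert p q r s t u
    decide
  obtain ⟨g0, hg0⟩ := htri a' b' c' j1 j4 j2.symm hx0
  -- all the faces are inside these four vertices
  have hK : ∀ h, v ∈ vs M h → vs M h ⊆ {v, a', b', c'} := by
    intro h hv x hx
    rw [mem_insert, mem_insert, mem_insert, mem_singleton]
    by_cases hxv : x = v
    · exact Or.inl hxv
    · exact Or.inr (hno x (adj_of_vs M h3 hv hx (Ne.symm hxv)))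
  have hg : vs M g0 ⊆ {a', b', c'} := by
    intro x hx
    unfold vs at hx
    rw [mem_insert, mem_insert, mem_singleton] at hx ⊢
    have h0 := hg0 0 (by omega)
    have h1 := hg0 1 (by omega)
    have h2 := hg0 2 (by omega)
    simp only [Set.mem_insert_iff, Set.mem_singleton_iff] at h0 h1 h2
    rcases hx with rfl | rfl | rfl
    · exact h0
    · exact h1
    · exact h2
  have hgc : vs M g0 = {a', b', c'} := by
    refine eq_of_subset_of_card_le hg ?_
    rw [vs_card M (h3 g0)]
    exact card_le_three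
  have hvg : v ∉ vs M g0 := by
    rw [hgc, mem_insert, mem_insert, mem_singleton, not_or, not_or]
    exact ⟨ha'.ne, hb'.ne, hc'.ne⟩
  -- the faces at an edge of the triangle
  have hedge : ∀ x y : V, x ∈ ({a', b', c'} : Finset V) → y ∈ ({a', b', c'} : Finset V) → x ≠ y →
      (∃ f, v ∈ vs M f ∧ x ∈ vs M f ∧ y ∈ vs M f) →
      ∀ h, x ∈ vs M h → y ∈ vs M h → vs M h ⊆ {v, a', b', c'} := by
    rintro x y hx hy hxy ⟨f, hf1, hf2, hf3⟩ h hh1 hh2
    rw [← hgc] at hx hy
    obtain ⟨p, q, k, l, _, _, _, _, _, _, _, _, hkl⟩ := two_faces M h3 hχ (adj_of_vs M h3 hx hy hxy)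
    have hfg : f ≠ g0 := by
      rintro rfl
      exact hvg hf1
    have h1 := hkl f hf2 hf3
    have h2 := hkl g0 hx hy
    have h4 := hkl h hh1 hh2
    have h5 : h = f ∨ h = g0 := by
      rcases h1 with h1 | h1 <;> rcases h2 with h2 | h2 <;> rcases h4 with h4 | h4
      · exact absurd (h1.trans h2.symm) hfg
      · exact absurd (h1.trans h2.symm) hfg
      · exact Or.inl (h4.trans h1.symm)
      · exact Or.inr (h4.trans h2.symm)
      · exact Or.inr (h4.trans h2.symm)
      · exact Or.inl (h4.trans h1.symm)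
      · exact absurd (h1.trans h2.symm) hfg
      · exact absurd (h1.trans h2.symm) hfg
    rcases h5 with rfl | rfl
    · exact hK _ hf1
    · rw [hgc]
      exact subset_insert _ _
  have hall : ∀ x y : V, x ∈ ({v, a', b', c'} : Finset V) → y ∈ ({v, a', b', c'} : Finset V) →
      x ≠ y → ∀ h, x ∈ vs M h → y ∈ vs M h → vs M h ⊆ {v, a', b', c'} := by
    intro x y hx hy hxy h h1 h2
    by_cases hxv : x = v
    · rw [hxv] at h1
      exact hK h h1
    by_cases hyv : y = v
    · rw [hyv] at h2
      exact hK h h2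
    rw [mem_insert] at hx hy
    have hx' := hx.resolve_left hxv
    have hy' := hy.resolve_left hyv
    refine hedge x y hx' hy' hxy ?_ h h1 h2
    rw [mem_insert, mem_insert, mem_singleton] at hx' hy'
    rcases hx' with rfl | rfl | rfl <;> rcases hy' with rfl | rfl | rfl
    · exact absurd rfl hxy
    · exact ⟨f1, by simp [e1], by simp [e1], by simp [e1]⟩
    · exact ⟨f2, by simp [e2], by simp [e2], by simp [e2]⟩
    · exact ⟨f1, by simp [e1], by simp [e1], by simp [e1]⟩
    · exact absurd rfl hxy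
    · exact ⟨f4, by simp [e4], by simp [e4], by simp [e4]⟩
    · exact ⟨f2, by simp [e2], by simp [e2], by simp [e2]⟩
    · exact ⟨f4, by simp [e4], by simp [e4], by simp [e4]⟩
    · exact absurd rfl hxy
  have hI : (univ.filter fun f => vs M f ⊆ ({v, a', b', c'} : Finset V)) = univ := by
    refine eq_univ_of_closed M h3 _ ⟨f1, mem_filter.2 ⟨mem_univ _, hK f1 (by simp [e1])⟩⟩ ?_
    intro x y hxy h
    rw [filter_filter] at h
    obtain ⟨k, hk⟩ := card_eq_one.1 h
    have hk' : k ∈ univ.filter fun f => vs M f ⊆ ({v, a', b', c'} : Finset V) ∧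
        (x ∈ vs M f ∧ y ∈ vs M f) := by
      rw [hk]
      exact mem_singleton_self k
    rw [mem_filter] at hk'
    obtain ⟨_, hk1, hk2, hk3⟩ := hk'
    have hadj := adj_of_vs M h3 hk2 hk3 hxy
    have h2 := card_faces M h3 hadj
    have h4 : (univ.filter fun f => vs M f ⊆ ({v, a', b', c'} : Finset V) ∧
        (x ∈ vs M f ∧ y ∈ vs M f)) = univ.filter fun f => x ∈ vs M f ∧ y ∈ vs M f := by
      refine filter_congr fun f _ => ?_
      constructor
      · exact fun h => h.2
      · exact fun h => ⟨hall x y (hk1 hk2) (hk1 hk3) hxy f h.1 h.2, h⟩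
    rw [h4] at h
    omega
  have hVle : Fintype.card V ≤ 4 := by
    have h1 : (univ : Finset V) ⊆ {v, a', b', c'} := by
      intro x _
      -- every vertex lies in a face
      by_contra hx
      have hsub : ∀ f, vs M f ⊆ ({v, a', b', c'} : Finset V) := by
        intro f
        have h2 : f ∈ univ.filter fun f => vs M f ⊆ ({v, a', b', c'} : Finset V) := by
          rw [hI]
          exact mem_univ f
        exact (mem_filter.1 h2).2
      have hxv : x ≠ v := by
        rintro rfl
        exact hx (mem_insert_self _ _)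
      obtain ⟨p⟩ := hG.preconnected x v
      cases p with
      | nil => exact hxv rfl
      | cons h _ =>
        obtain ⟨p, q, f, _, _, _, e, _⟩ := two_faces M h3 hχ h
        exact hx (hsub f (by simp [e]))
    rw [← card_univ]
    exact (card_le_card h1).trans card_le_four
  have h5 := tri_edges M h3
  have h6 : G.edgeSet.ncard ≤ (Fintype.card V).choose 2 := by
    rw [← SimpleGraph.coe_edgeFinset, Set.ncard_coe_finset]
    exact SimpleGraph.card_edgeFinset_le_card_choose_two
  have h7 : (Fintype.card V).choose 2 ≤ 6 := (Nat.choose_le_choose 2 hVle).trans (by decide)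
  have h8 : 3 ≤ Fintype.card V := by
    rw [← vs_card M (h3 g0)]
    exact card_le_univ _
  have h9 : Fintype.card V = 3 ∨ Fintype.card V = 4 := by omega
  rcases h9 with h9 | h9
  · rw [h9] at h6
    have h10 : (3 : ℕ).choose 2 = 3 := by decide
    omega
  · omega

/-- Every vertex has a third neighbour. -/
theorem exists_third (M : FacialWalks G F) (_ : Link M) (hG : G.Connected)
    (hχ : (Fintype.card V : ℤ) - G.edgeSet.ncard + Fintype.card F = 1)
    (hlen : ∀ f, M.len f = 3) (hF : Nonempty F) (x a b : V) :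
    ∃ c, G.Adj x c ∧ c ≠ a ∧ c ≠ b := by
  obtain ⟨f⟩ := hF
  have h := M.adj f 0 (by rw [hlen]; omega)
  obtain ⟨y, hy⟩ : ∃ y, G.Adj x y := by
    by_cases hx : x = M.walk f 0
    · exact ⟨_, hx ▸ h⟩
    · obtain ⟨p⟩ := hG.preconnected x (M.walk f 0)
      cases p with
      | nil => exact absurd rfl hx
      | cons h _ => exact ⟨_, h⟩
  exact three_nbrs M hlen hχ hy a b

end

end Pool.Agent.W986
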