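import Pool.Agent.W986.Tri8
import Pool.Agent.W986.MinDeg

/-!
MP_986d1b_co, Q2. Let `G` be a graph which triangulates the projective plane, in which no vertex of
degree at least `8` has two neighbours of degree at least `7`. Then every subgraph of `G` has a
`(4, 1)`-colouring.

`FacialWalks G F` (file `Pool/Agent/DC76/Defs.lean`): closed walks in `G`, one for every face, which
together traverse every edge exactly twice, such that the faces cannot be divided into two classes
without a common edge. `Link M` (file `Pool/Agent/W986/Precise.lean`): the corners of the facial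
walks at every vertex form one cycle through its neighbours, so the surface has no pinched points.
`Defective H d c`: every vertex has at most `d` neighbours of its own colour.
-/

set_option autoImplicit false

namespace Pool.Agent.W986.EightApart

open Pool.Agent.DC76 Pool.Agent.W986

/-- `G` triangulates the projective plane: it is connected and has facial walks without pinched
points, all of length `3`, with `V - E + F = 1`. -/
def TriangulatesP2 {V : Type} [Fintype V] [DecidableEq V] (G : SimpleGraph V) : Prop :=
  G.Connected ∧ ∃ (F : Type) (_ : Fintype F) (M : FacialWalks G F), Link M ∧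
    (∀ f, M.len f = 3) ∧ (Fintype.card V : ℤ) - G.edgeSet.ncard + Fintype.card F = 1

theorem eight_apart {V : Type} [Fintype V] [DecidableEq V] (G : SimpleGraph V) (hG : TriangulatesP2 G)
    (hd : ∀ x y z, G.Adj x y → G.Adj x z → y ≠ z → 8 ≤ {u | G.Adj x u}.ncard →
      7 ≤ {u | G.Adj y u}.ncard → {u | G.Adj z u}.ncard ≤ 6)
    {U : Type} (H : SimpleGraph U) (f : U → V) (hf : Function.Injective f)
    (hH : ∀ x y, H.Adj x y → G.Adj (f x) (f y)) : ∃ c : U → Fin 4, Defective H 1 c := by
  classical
  obtain ⟨hconn, F, _, M, hL, hlen, hχ⟩ := hG
  have key : ∃ c : V → Fin 4, Defective G 1 c := by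
    by_cases hF : Nonempty F
    · exact tri_colour M hL hconn hχ hlen (fun x a b => exists_third M hL hconn hχ hlen hF x a b)
        hd
    · rw [not_nonempty_iff] at hF
      refine ⟨fun _ => 0, fun v => ?_⟩
      have h1 : {u | G.Adj v u ∧ (0 : Fin 4) = 0} = ∅ := by
        ext u
        simp only [Set.mem_setOf_eq, Set.mem_empty_iff_false, iff_false]
        rintro ⟨h2, -⟩
        have h3 := M.twice v u h2
        simp at h3
      rw [h1, Set.ncard_empty]
      exact Nat.zero_le 1
  obtain ⟨c, hc⟩ := key
  refine ⟨fun u => c (f u), fun u => ?_⟩
  refine le_trans ?_ (hc (f u))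
  rw [← Set.ncard_image_of_injective _ hf]
  refine Set.ncard_le_ncard ?_ (Set.toFinite _)
  rintro w ⟨w', ⟨h1, h2⟩, rfl⟩
  exact ⟨hH _ _ h1, h2⟩

end Pool.Agent.W986.EightApart
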