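import Pool.Agent.W986.Precise

/-!
# The corners of the facial walks at a vertex
-/

set_option autoImplicit false

open Finset

namespace Pool.Agent.W986

open Pool.Agent.DC76

variable {V : Type} [DecidableEq V]

/-- The ends of the corners at `v` of one closed walk: the corner number `t` is
`w t, w (t + 1) = v, w (t + 2)` (read cyclically); it has the end `w t` (`true`) and the end
`w (t + 2)` (`false`). -/
def nb (n : ℕ) (w : ℕ → V) (e : ℕ × Bool) : V := if e.2 then w e.1 else w ((e.1 + 1) % n + 1)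

def fends (n : ℕ) (w : ℕ → V) (v x : V) : Finset (ℕ × Bool) :=
  ((range n) ×ˢ (univ : Finset Bool)).filter fun e => w (e.1 + 1) = v ∧ nb n w e = x

theorem shift_closed {n : ℕ} {w : ℕ → V} (hc : w n = w 0) {t : ℕ} (ht : t < n) :
    w ((t + 1) % n) = w (t + 1) := by
  by_cases h : t + 1 < n
  · rw [Nat.mod_eq_of_lt h]
  · have : t + 1 = n := by omega
    rw [this, Nat.mod_self, hc]

theorem card_shift (n : ℕ) (p : ℕ → Prop) [DecidablePred p] :
    ((range n).filter fun t => p ((t + 1) % n)).card = ((range n).filter p).card := by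
  refine Finset.card_bij (fun t _ => (t + 1) % n) ?_ ?_ ?_
  · intro t ht
    rw [mem_filter, mem_range] at ht
    rw [mem_filter, mem_range]
    exact ⟨Nat.mod_lt _ (by omega), ht.2⟩
  · intro a ha b hb hab
    rw [mem_filter, mem_range] at ha hb
    have h1 : a + 1 ≡ b + 1 [MOD n] := hab
    have h2 : a ≡ b [MOD n] := Nat.ModEq.add_right_cancel' 1 h1
    have h3 := h2
    unfold Nat.ModEq at h3
    rwa [Nat.mod_eq_of_lt ha.1, Nat.mod_eq_of_lt hb.1] at h3
  · intro s hs
    rw [mem_filter, mem_range] at hs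
    have h0 : 0 < n := by omega
    by_cases h : s = 0
    · refine ⟨n - 1, ?_, ?_⟩
      · rw [mem_filter, mem_range]
        refine ⟨by omega, ?_⟩
        rw [Nat.sub_add_cancel h0, Nat.mod_self, ← h]
        exact hs.2
      · rw [Nat.sub_add_cancel h0, Nat.mod_self, h]
    · refine ⟨s - 1, ?_, ?_⟩
      · rw [mem_filter, mem_range]
        refine ⟨by omega, ?_⟩
        rw [Nat.sub_add_cancel (by omega), Nat.mod_eq_of_lt hs.1]
        exact hs.2
      · rw [Nat.sub_add_cancel (by omega), Nat.mod_eq_of_lt hs.1]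

theorem card_fends {n : ℕ} {w : ℕ → V} (hc : w n = w 0) {v x : V} (hne : v ≠ x) :
    (fends n w v x).card = trav n w v x := by
  have h1 : (fends n w v x).card =
      ((range n).filter fun t => w (t + 1) = v ∧ w t = x).card +
      ((range n).filter fun t => w (t + 1) = v ∧ w ((t + 1) % n + 1) = x).card := by
    unfold fends
    rw [card_filter, sum_product, card_filter, card_filter, ← sum_add_distrib]
    refine sum_congr rfl fun t _ => ?_
    rw [Fintype.sum_bool]
    rfl
  have h2 : ((range n).filter fun t => w (t + 1) = v ∧ w ((t + 1) % n + 1) = x).card =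
      ((range n).filter fun t => w t = v ∧ w (t + 1) = x).card := by
    rw [← card_shift n fun t => w t = v ∧ w (t + 1) = x]
    congr 1
    refine filter_congr fun t ht => ?_
    rw [shift_closed hc (mem_range.1 ht)]
  have h3 : trav n w v x = ((range n).filter fun t => w t = v ∧ w (t + 1) = x).card +
      ((range n).filter fun t => w (t + 1) = v ∧ w t = x).card := by
    unfold trav
    rw [filter_or, card_union_of_disjoint]
    · congr 1
      congr 1
      refine filter_congr fun t _ => ?_
      exact and_comm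
    · rw [disjoint_filter]
      rintro t _ ⟨h4, _⟩ ⟨h5, _⟩
      exact hne (h4.symm.trans h5)
  omega

section

variable {G : SimpleGraph V} {F : Type} [Fintype F]

/-- All the ends at the neighbour `x` of `v`. -/
def ends (M : FacialWalks G F) (v x : V) : Finset (Σ _ : F, ℕ × Bool) :=
  univ.sigma fun f => fends (M.len f) (M.walk f) v x

/-- the neighbour of `v` at an end -/
def nbr (M : FacialWalks G F) (e : Σ _ : F, ℕ × Bool) : V := nb (M.len e.1) (M.walk e.1) e.2

/-- the other end of the corner -/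
def opp (e : Σ _ : F, ℕ × Bool) : Σ _ : F, ℕ × Bool := ⟨e.1, (e.2.1, !e.2.2)⟩

theorem opp_opp (e : Σ _ : F, ℕ × Bool) : opp (opp e) = e := by
  unfold opp
  simp

theorem opp_ne (e : Σ _ : F, ℕ × Bool) : opp e ≠ e := by
  intro h
  have h1 : (opp e).2.2 = e.2.2 := by rw [h]
  unfold opp at h1
  simp at h1

theorem mem_ends (M : FacialWalks G F) (v x : V) (e : Σ _ : F, ℕ × Bool) :
    e ∈ ends M v x ↔ e.2.1 < M.len e.1 ∧ M.walk e.1 (e.2.1 + 1) = v ∧ nbr M e = x := by
  unfold ends fends nbr
  rw [mem_sigma, mem_filter, mem_product, mem_range]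
  simp

theorem opp_mem (M : FacialWalks G F) {v x : V} {e : Σ _ : F, ℕ × Bool} (h : e ∈ ends M v x) :
    opp e ∈ ends M v (nbr M (opp e)) := by
  rw [mem_ends] at h ⊢
  exact ⟨h.1, h.2.1, rfl⟩

theorem adj_nbr (M : FacialWalks G F) {v x : V} {e : Σ _ : F, ℕ × Bool} (h : e ∈ ends M v x) :
    G.Adj v x := by
  rw [mem_ends] at h
  obtain ⟨h1, h2, h3⟩ := h
  rw [← h3, ← h2]
  unfold nbr nb
  by_cases hb : e.2.2 = true
  · rw [if_pos hb]
    exact (M.adj e.1 e.2.1 h1).symm
  · rw [if_neg hb, ← shift_closed (M.closed e.1) h1]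
    exact M.adj e.1 _ (Nat.mod_lt _ (by omega))

theorem card_ends_filter (M : FacialWalks G F) [DecidableEq F] (I : Finset F) {v x : V}
    (hne : v ≠ x) :
    ((ends M v x).filter fun e => e.1 ∈ I).card = ∑ f ∈ I, trav (M.len f) (M.walk f) v x := by
  classical
  have h1 : (ends M v x).filter (fun e => e.1 ∈ I) =
      I.sigma fun f => fends (M.len f) (M.walk f) v x := by
    ext e
    unfold ends
    simp only [mem_filter, mem_sigma, mem_univ, true_and]
    exact and_comm
  rw [h1, card_sigma]
  exact sum_congr rfl fun f _ => card_fends (M.closed f) hne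

theorem card_ends (M : FacialWalks G F) {v x : V} (h : G.Adj v x) : (ends M v x).card = 2 := by
  classical
  rw [← M.twice v x h]
  unfold ends
  rw [card_sigma]
  exact sum_congr rfl fun f _ => card_fends (M.closed f) h.ne

/-- The link of `v`. -/
def Lk (M : FacialWalks G F) (v : V) : SimpleGraph V where
  Adj x y := x ≠ y ∧ ∃ e, e ∈ ends M v x ∧ nbr M (opp e) = y
  symm := ⟨by
    rintro x y ⟨h1, e, h2, h3⟩
    refine ⟨h1.symm, opp e, ?_, ?_⟩
    · rw [← h3]
      exact opp_mem M h2
    · rw [opp_opp]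
      exact ((mem_ends M v x e).1 h2).2.2⟩
  loopless := ⟨fun x h => h.1 rfl⟩

/-- If `N` contains some but not all of the neighbours of `v`, then there is an end in `N` whose
opposite end is not in `N`. -/
theorem link_split (M : FacialWalks G F) (hL : Link M) (v : V) (N : Set V)
    (h1 : ∃ a ∈ N, G.Adj v a) (h2 : ∃ a, a ∉ N ∧ G.Adj v a) :
    ∃ x ∈ N, ∃ e ∈ ends M v x, nbr M (opp e) ∉ N := by
  obtain ⟨f, t, ht, hv, hN⟩ := hL v N h1 h2
  by_cases h3 : M.walk f t ∈ N
  · refine ⟨_, h3, ⟨f, (t, true)⟩, ?_, ?_⟩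
    · rw [mem_ends]
      exact ⟨ht, hv, rfl⟩
    · intro h4
      exact hN ⟨fun _ => h4, fun _ => h3⟩
  · have h4 : M.walk f ((t + 1) % M.len f + 1) ∈ N := by
      by_contra h4
      exact hN ⟨fun h => absurd h h3, fun h => absurd h h4⟩
    refine ⟨_, h4, ⟨f, (t, false)⟩, ?_, h3⟩
    rw [mem_ends]
    exact ⟨ht, hv, rfl⟩

end

end Pool.Agent.W986
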