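import Pool.Agent.W986.Cocycle
import Pool.Agent.W986.SepTri

/-!
# Even closed walks are boundaries
-/

set_option autoImplicit false

open Finset

namespace Pool.Agent.W986

open Pool.Agent.DC76

section

variable {V : Type} [Fintype V] [DecidableEq V] {G : SimpleGraph V} {F : Type} [Fintype F]

/-- The edges of a walk modulo `2`. -/
def chain (n : ℕ) (w : ℕ → V) : V → V → ZMod 2 := fun u v => (trav n w u v : ZMod 2)

theorem chain_mem {n : ℕ} {w : ℕ → V} (hn : w n = w 0)
    (ha : ∀ t, t < n → G.Adj (w t) (w (t + 1))) : chain n w ∈ Z G Set.univ := by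
  have hw : ∀ t, t < n → w t ≠ w (t + 1) := fun t ht => (ha t ht).ne
  have key : ∀ v, ∑ x, (trav n w v x : ZMod 2) = 0 := by
    intro v
    have h1 : ∀ x, (trav n w v x : ZMod 2) = ∑ t ∈ range n,
        ((if w t = v then (if w (t + 1) = x then (1 : ZMod 2) else 0) else 0) +
          (if w (t + 1) = v then (if w t = x then (1 : ZMod 2) else 0) else 0)) := by
      intro x
      unfold trav
      rw [card_filter, Nat.cast_sum]
      refine sum_congr rfl fun t ht => ?_
      have hne := hw t (mem_range.1 ht)
      by_cases ha : w t = v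
      · have hb : w (t + 1) ≠ v := fun h => hne (ha.trans h.symm)
        rw [if_pos ha, if_neg hb, add_zero]
        by_cases hc : w (t + 1) = x
        · rw [if_pos hc, if_pos (Or.inl ⟨ha, hc⟩), Nat.cast_one]
        · rw [if_neg hc, if_neg, Nat.cast_zero]
          rintro (h | h)
          · exact hc h.2
          · exact hb h.2
      · rw [if_neg ha, zero_add]
        by_cases hb : w (t + 1) = v
        · rw [if_pos hb]
          by_cases hc : w t = x
          · rw [if_pos hc, if_pos (Or.inr ⟨hc, hb⟩), Nat.cast_one]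
          · rw [if_neg hc, if_neg, Nat.cast_zero]
            rintro (h | h)
            · exact ha h.1
            · exact hc h.1
        · rw [if_neg hb, if_neg, Nat.cast_zero]
          rintro (h | h)
          · exact ha h.1
          · exact hb h.2
    have h2 : ∀ t, ∑ x, ((if w t = v then (if w (t + 1) = x then (1 : ZMod 2) else 0) else 0) +
          (if w (t + 1) = v then (if w t = x then (1 : ZMod 2) else 0) else 0)) =
        (if w t = v then 1 else 0) + (if w (t + 1) = v then 1 else 0) := by
      intro t
      rw [sum_add_distrib]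
      congr 1
      · by_cases h : w t = v
        · simp only [if_pos h, sum_ite_eq, mem_univ, if_true]
        · simp only [if_neg h, sum_const_zero]
      · by_cases h : w (t + 1) = v
        · simp only [if_pos h, sum_ite_eq, mem_univ, if_true]
        · simp only [if_neg h, sum_const_zero]
    have h4 : ∑ t ∈ range n, (if w (t + 1) = v then (1 : ZMod 2) else 0) =
        ∑ t ∈ range n, (if w t = v then (1 : ZMod 2) else 0) := by
      have e1 := sum_range_succ (fun t => if w t = v then (1 : ZMod 2) else 0) n
      have e2 := sum_range_succ' (fun t => if w t = v then (1 : ZMod 2) else 0) n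
      rw [e1] at e2
      simp only [hn] at e2
      exact (add_right_cancel e2).symm
    rw [sum_congr rfl fun x _ => h1 x, sum_comm, sum_congr rfl fun t _ => h2 t, sum_add_distrib,
      h4]
    exact CharTwo.add_self_eq_zero _
  refine ⟨fun u v => ?_, fun u v h => ?_, key⟩
  · unfold chain
    rw [trav_comm]
  · refine ⟨?_, Set.mem_univ _, Set.mem_univ _⟩
    have h1 : trav n w u v ≠ 0 := by
      intro h0
      apply h
      unfold chain
      rw [h0, Nat.cast_zero]
    unfold trav at h1
    obtain ⟨t, ht⟩ := card_ne_zero.1 h1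
    rw [mem_filter, mem_range] at ht
    have hadj := ha t ht.1
    rcases ht.2 with ⟨ha, hb⟩ | ⟨ha, hb⟩
    · rw [ha, hb] at hadj
      exact hadj
    · rw [ha, hb] at hadj
      exact hadj.symm

/-- The pairing with a symmetric function. -/
noncomputable def pr (X : V → V → ZMod 2) : (V → V → ZMod 2) →ₗ[ZMod 2] ZMod 2 where
  toFun z := ∑ x, ∑ y, if Fintype.equivFin V x < Fintype.equivFin V y then z x y * X x y else 0
  map_add' y z := by
    rw [← sum_add_distrib]
    refine sum_congr rfl fun a _ => ?_
    rw [← sum_add_distrib]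
    refine sum_congr rfl fun b _ => ?_
    by_cases h : Fintype.equivFin V a < Fintype.equivFin V b
    · rw [if_pos h, if_pos h, if_pos h, Pi.add_apply, Pi.add_apply, add_mul]
    · rw [if_neg h, if_neg h, if_neg h, add_zero]
  map_smul' c z := by
    rw [RingHom.id_apply, smul_eq_mul, mul_sum]
    refine sum_congr rfl fun a _ => ?_
    rw [mul_sum]
    refine sum_congr rfl fun b _ => ?_
    by_cases h : Fintype.equivFin V a < Fintype.equivFin V b
    · rw [if_pos h, if_pos h, Pi.smul_apply, Pi.smul_apply, smul_eq_mul, mul_assoc]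
    · rw [if_neg h, if_neg h, mul_zero]

theorem pr_chain {X : V → V → ZMod 2} (hX : ∀ x y, X x y = X y x) {n : ℕ} {w : ℕ → V}
    (hw : ∀ t, t < n → w t ≠ w (t + 1)) :
    pr X (chain n w) = ∑ t ∈ range n, X (w t) (w (t + 1)) := by
  have h1 : ∀ x y, (trav n w x y : ZMod 2) = ∑ t ∈ range n,
      ((if w t = x then (if w (t + 1) = y then (1 : ZMod 2) else 0) else 0) +
        (if w t = y then (if w (t + 1) = x then (1 : ZMod 2) else 0) else 0)) := by
    intro x y
    unfold trav
    rw [card_filter, Nat.cast_sum]
    refine sum_congr rfl fun t ht => ?_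
    have hne := hw t (mem_range.1 ht)
    by_cases ha : w t = x ∧ w (t + 1) = y
    · have hb : ¬ (w t = y ∧ w (t + 1) = x) := fun h => hne (ha.1.trans h.2.symm)
      rw [if_pos (Or.inl ha), if_pos ha.1, if_pos ha.2]
      by_cases h3 : w t = y
      · rw [if_pos h3, if_neg fun h4 => hb ⟨h3, h4⟩, add_zero, Nat.cast_one]
      · rw [if_neg h3, add_zero, Nat.cast_one]
    · by_cases hb : w t = y ∧ w (t + 1) = x
      · rw [if_pos (Or.inr hb), if_pos hb.1, if_pos hb.2]
        by_cases h3 : w t = x
        · rw [if_pos h3, if_neg fun h4 => ha ⟨h3, h4⟩, zero_add, Nat.cast_one]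
        · rw [if_neg h3, zero_add, Nat.cast_one]
      · rw [if_neg (by tauto)]
        have h5 : (if w t = x then (if w (t + 1) = y then (1 : ZMod 2) else 0) else 0) = 0 := by
          by_cases h3 : w t = x
          · rw [if_pos h3, if_neg fun h4 => ha ⟨h3, h4⟩]
          · rw [if_neg h3]
        have h6 : (if w t = y then (if w (t + 1) = x then (1 : ZMod 2) else 0) else 0) = 0 := by
          by_cases h3 : w t = y
          · rw [if_pos h3, if_neg fun h4 => hb ⟨h3, h4⟩]
          · rw [if_neg h3]
        rw [h5, h6, add_zero, Nat.cast_zero]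
  have h2 : ∀ t ∈ range n, X (w t) (w (t + 1)) = ∑ x, ∑ y,
      if Fintype.equivFin V x < Fintype.equivFin V y then
        ((if w t = x then (if w (t + 1) = y then (1 : ZMod 2) else 0) else 0) +
          (if w t = y then (if w (t + 1) = x then (1 : ZMod 2) else 0) else 0)) * X x y
      else 0 := by
    intro t ht
    have hne := hw t (mem_range.1 ht)
    have h3 := sum_pairs (Fintype.equivFin V)
      (fun x y => (if w t = x then (if w (t + 1) = y then (1 : ZMod 2) else 0) else 0) * X x y)
      (by
        intro x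
        by_cases h4 : w t = x
        · rw [if_pos h4, if_neg fun h5 => hne (h4.trans h5.symm), zero_mul]
        · rw [if_neg h4, zero_mul])
    have h4 : ∑ x, ∑ y, (if w t = x then (if w (t + 1) = y then (1 : ZMod 2) else 0) else 0) *
        X x y = X (w t) (w (t + 1)) := by
      rw [Finset.sum_eq_single (w t), Finset.sum_eq_single (w (t + 1))]
      · rw [if_pos rfl, if_pos rfl, one_mul]
      · intro y _ hy
        rw [if_pos rfl, if_neg fun h => hy h.symm, zero_mul]
      · intro h
        exact absurd (mem_univ _) h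
      · intro x _ hx
        refine Finset.sum_eq_zero fun y _ => ?_
        rw [if_neg fun h => hx h.symm, zero_mul]
      · intro h
        exact absurd (mem_univ _) h
    rw [h4] at h3
    rw [h3]
    refine sum_congr rfl fun x _ => sum_congr rfl fun y _ => ?_
    by_cases h5 : Fintype.equivFin V x < Fintype.equivFin V y
    · rw [if_pos h5, if_pos h5, hX y x, ← add_mul]
    · rw [if_neg h5, if_neg h5]
  rw [sum_congr rfl h2]
  change (∑ x, ∑ y, if Fintype.equivFin V x < Fintype.equivFin V y then
    (trav n w x y : ZMod 2) * X x y else 0) = _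
  rw [sum_comm]
  have h3 : ∀ y x, (if Fintype.equivFin V x < Fintype.equivFin V y then
      (trav n w x y : ZMod 2) * X x y else 0) = ∑ t ∈ range n,
      if Fintype.equivFin V x < Fintype.equivFin V y then
        ((if w t = x then (if w (t + 1) = y then (1 : ZMod 2) else 0) else 0) +
          (if w t = y then (if w (t + 1) = x then (1 : ZMod 2) else 0) else 0)) * X x y
      else 0 := by
    intro y x
    by_cases h5 : Fintype.equivFin V x < Fintype.equivFin V y
    · simp only [if_pos h5]
      rw [h1, sum_mul]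
    · simp only [if_neg h5, sum_const_zero]
  calc ∑ y, ∑ x, (if Fintype.equivFin V x < Fintype.equivFin V y then
        (trav n w x y : ZMod 2) * X x y else 0)
      = ∑ y, ∑ x, ∑ t ∈ range n, (if Fintype.equivFin V x < Fintype.equivFin V y then
        ((if w t = x then (if w (t + 1) = y then (1 : ZMod 2) else 0) else 0) +
          (if w t = y then (if w (t + 1) = x then (1 : ZMod 2) else 0) else 0)) * X x y
        else 0) := sum_congr rfl fun y _ => sum_congr rfl fun x _ => h3 y x
    _ = ∑ x, ∑ y, ∑ t ∈ range n, (if Fintype.equivFin V x < Fintype.equivFin V y then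
        ((if w t = x then (if w (t + 1) = y then (1 : ZMod 2) else 0) else 0) +
          (if w t = y then (if w (t + 1) = x then (1 : ZMod 2) else 0) else 0)) * X x y
        else 0) := sum_comm
    _ = ∑ x, ∑ t ∈ range n, ∑ y, (if Fintype.equivFin V x < Fintype.equivFin V y then
        ((if w t = x then (if w (t + 1) = y then (1 : ZMod 2) else 0) else 0) +
          (if w t = y then (if w (t + 1) = x then (1 : ZMod 2) else 0) else 0)) * X x y
        else 0) := sum_congr rfl fun x _ => sum_comm
    _ = _ := sum_comm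

omit [Fintype V] [DecidableEq V] in
/-- A cocycle which is not a coboundary is odd on some closed walk. -/
theorem exists_odd_walk (hG : G.Connected) {X : V → V → ZMod 2} (hX : ∀ x y, X x y = X y x)
    (hodd : ¬ ∃ h : V → ZMod 2, ∀ x y, G.Adj x y → h x + h y = X x y) :
    ∃ (n : ℕ) (w : ℕ → V), w n = w 0 ∧ (∀ t, t < n → G.Adj (w t) (w (t + 1))) ∧
      ∑ t ∈ range n, X (w t) (w (t + 1)) = 1 := by
  have hc := cover_connected (hX := hX) hG hodd
  obtain ⟨r⟩ := hG.nonempty
  obtain ⟨p⟩ := hc.preconnected (r, 0) (r, 1)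
  refine ⟨p.length, fun t => (p.getVert t).1, ?_, ?_, ?_⟩
  · change (p.getVert p.length).1 = (p.getVert 0).1
    rw [p.getVert_length, p.getVert_zero]
  · intro t ht
    exact (p.adj_getVert_succ ht).1
  · have h1 : ∀ m, m ≤ p.length →
        ∑ t ∈ range m, X (p.getVert t).1 (p.getVert (t + 1)).1 = (p.getVert m).2 := by
      intro m
      induction m with
      | zero =>
        intro _
        rw [range_zero, sum_empty, p.getVert_zero]
      | succ m ih =>
        intro hm
        rw [sum_range_succ, ih (by omega)]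
        exact ((p.adj_getVert_succ (by omega : m < p.length)).2).symm
    have h2 := h1 p.length le_rfl
    rw [p.getVert_length] at h2
    exact h2

/-- The closed walks which are even for a cocycle which is not a coboundary are boundaries. -/
theorem even_mem_Bnd (M : FacialWalks G F) (hG : G.Connected)
    (hχ : (Fintype.card V : ℤ) - G.edgeSet.ncard + Fintype.card F = 1) {X : V → V → ZMod 2}
    (hX : ∀ x y, X x y = X y x)
    (hf : ∀ f, ∑ t ∈ range (M.len f), X (M.walk f t) (M.walk f (t + 1)) = 0)
    (hodd : ¬ ∃ h : V → ZMod 2, ∀ x y, G.Adj x y → h x + h y = X x y) {n : ℕ} {w : ℕ → V}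
    (hw : w n = w 0) (ha : ∀ t, t < n → G.Adj (w t) (w (t + 1)))
    (h0 : ∑ t ∈ range n, X (w t) (w (t + 1)) = 0) : chain n w ∈ Bnd M := by
  by_contra hcon
  obtain ⟨m, v, hv, hva, hv1⟩ := exists_odd_walk hG hX hodd
  have hpr : ∀ z ∈ Bnd M, pr X z = 0 := by
    intro z hz
    obtain ⟨I, rfl⟩ := (mem_Bnd M z).1 hz
    rw [map_sum]
    refine Finset.sum_eq_zero fun f _ => ?_
    have h1 : face M f = chain (M.len f) (M.walk f) := rfl
    rw [h1, pr_chain hX fun t ht => (M.adj f t ht).ne]
    exact hf f
  have h1 : chain m v ∉ Bnd M := by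
    intro h
    have h2 := hpr _ h
    rw [pr_chain hX fun t ht => (hva t ht).ne, hv1] at h2
    exact one_ne_zero h2
  have h2 := add_mem_Bnd (conn_univ hG) M (by rw [hχ]) hG.nonempty (chain_mem hw ha)
    (chain_mem hv hva) hcon h1
  have h3 := hpr _ h2
  rw [map_add, pr_chain hX fun t ht => (ha t ht).ne, pr_chain hX fun t ht => (hva t ht).ne, h0,
    hv1, zero_add] at h3
  exact one_ne_zero h3

/-- An even triangle is the boundary of a set of faces. -/
theorem exists_cut (M : FacialWalks G F) (hG : G.Connected)
    (hχ : (Fintype.card V : ℤ) - G.edgeSet.ncard + Fintype.card F = 1) {X : V → V → ZMod 2}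
    (hX : ∀ x y, X x y = X y x)
    (hf : ∀ f, ∑ t ∈ range (M.len f), X (M.walk f t) (M.walk f (t + 1)) = 0)
    (hodd : ¬ ∃ h : V → ZMod 2, ∀ x y, G.Adj x y → h x + h y = X x y) {x y z : V}
    (hxy : G.Adj x y) (hyz : G.Adj y z) (hzx : G.Adj z x) (h0 : X x y + X y z + X z x = 0) :
    ∃ I : Finset F, Cut M I {x, y, z} := by
  have h1 : chain 3 (tw x y z) ∈ Bnd M := by
    refine even_mem_Bnd M hG hχ hX hf hodd rfl ?_ ?_
    · intro t ht
      have h : t = 0 ∨ t = 1 ∨ t = 2 := by omega
      rcases h with rfl | rfl | rfl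
      · exact hxy
      · exact hyz
      · exact hzx
    · rw [sum_range_succ, sum_range_succ, sum_range_succ, range_zero, sum_empty, zero_add]
      exact h0
  obtain ⟨I, hI⟩ := (mem_Bnd M _).1 h1
  refine ⟨I, fun u v huv => ?_⟩
  have h2 : ((bd M I u v : ℕ) : ZMod 2) = ((trav 3 (tw x y z) u v : ℕ) : ZMod 2) := by
    rw [bd_cast, ← hI]
    rfl
  have h3 := bd_le M I huv
  have hne := huv.ne
  have n1 := hxy.ne
  have n2 := hyz.ne
  have n3 := hzx.ne
  have n1' := hxy.ne'
  have n2' := hyz.ne'
  have n3' := hzx.ne'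
  have h41 : u ∈ ({x, y, z} : Set V) → v ∈ ({x, y, z} : Set V) → trav 3 (tw x y z) u v = 1 := by
    intro hu hv
    rw [trav_tw]
    simp only [Set.mem_insert_iff, Set.mem_singleton_iff] at hu hv
    unfold ise
    rcases hu with hu | hu | hu <;> rcases hv with hv | hv | hv <;>
      first
      | exact absurd (hu.trans hv.symm) hne
      | simp [hu, hv, n1, n2, n3, n1', n2', n3']
  have h40 : ¬ (u ∈ ({x, y, z} : Set V) ∧ v ∈ ({x, y, z} : Set V)) →
      trav 3 (tw x y z) u v = 0 := by
    intro h
    rw [trav_tw]
    have h7 : ∀ a ∈ ({x, y, z} : Set V), ∀ b ∈ ({x, y, z} : Set V), ¬ ise a b u v := by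
      rintro a ha b hb (⟨h1, h2⟩ | ⟨h1, h2⟩)
      · exact h ⟨h1 ▸ ha, h2 ▸ hb⟩
      · exact h ⟨h2 ▸ hb, h1 ▸ ha⟩
    rw [if_neg (h7 x (by simp) y (by simp)), if_neg (h7 y (by simp) z (by simp)),
      if_neg (h7 z (by simp) x (by simp))]
  by_cases h5 : u ∈ ({x, y, z} : Set V) ∧ v ∈ ({x, y, z} : Set V)
  · rw [h41 h5.1 h5.2] at h2
    refine ⟨fun _ => h5, fun _ => ?_⟩
    have h6 : bd M I u v = 0 ∨ bd M I u v = 1 ∨ bd M I u v = 2 := by omega
    rcases h6 with h6 | h6 | h6
    · rw [h6] at h2
      exact absurd h2 (by decide)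
    · exact h6
    · rw [h6] at h2
      exact absurd h2 (by decide)
  · rw [h40 h5] at h2
    refine ⟨fun h6 => ?_, fun h => absurd h h5⟩
    rw [h6] at h2
    exact absurd h2 (by decide)

end

end Pool.Agent.W986
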