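import Pool.Agent.W986.C2Basic

/-!
# Elimination orders with private hosts

A finite graph with `e(X) + 3 ≤ 3|X|` for nonempty `X` and `e(Y, Z) + 2 ≤ 2(|Y| + |Z|)` for disjoint
`Y`, `Z`, not both empty, has a linear order in which every vertex has at most five higher
neighbours, and every vertex with exactly five has a private higher neighbour with at most four.
-/

set_option autoImplicit false

open Finset

namespace Pool.Agent.W986.Ex5

open Pool.Agent.W986 Pool.Agent.W986.C2

variable {V : Type} [DecidableEq V] (G : SimpleGraph V)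

/-- The number of higher neighbours in `Z` plus the number of neighbours in `R`. -/
noncomputable def up (o : V → ℕ) (Z R : Finset V) (v : V) : ℕ :=
  C2.nb G (Z.filter fun w => o v < o w) v + C2.nb G R v

/-- The counting invariant: roots `R`, marked vertices `M`. -/
def Inv (Z R M : Finset V) : Prop :=
  ∀ Y, Y ⊆ Z → dd G Y Y + 2 * dd G Y R + 2 * mk M Y ≤ 6 * Y.card

/-- The order `o` on `Z` below the roots `R`, with hosts `x` outside `M`. -/
structure Res (Z R M : Finset V) (o : V → ℕ) (x : V → V) : Prop where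
  lt : ∀ v ∈ Z, o v < Z.card
  inj : ∀ v ∈ Z, ∀ w ∈ Z, o v = o w → v = w
  five : ∀ v ∈ Z, up G o Z R v ≤ 5
  mark : ∀ v ∈ Z, v ∈ M → up G o Z R v ≤ 4
  host : ∀ v ∈ Z, up G o Z R v = 5 →
    x v ∈ Z ∧ x v ∉ M ∧ G.Adj v (x v) ∧ o v < o (x v) ∧ up G o Z R (x v) ≤ 4
  uniq : ∀ v ∈ Z, ∀ w ∈ Z, up G o Z R v = 5 → up G o Z R w = 5 → x v = x w → v = w

variable {G}

theorem nb_union {X Y : Finset V} (h : Disjoint X Y) (v : V) :
    C2.nb G (X ∪ Y) v = C2.nb G X v + C2.nb G Y v := by
  rw [← dd_single, ← dd_single, ← dd_single, dd_union_right G h]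

theorem mk_le_one (M Y : Finset V) (y : V) : mk (insert y M) Y ≤ mk M Y + 1 := by
  classical
  have h1 : ∀ A : Finset V, mk A Y = (Y.filter fun z => z ∈ A).card := fun A => by
    unfold C2.mk
    rw [card_ib]
  rw [h1, h1]
  refine le_trans (card_le_card (t := insert y (Y.filter fun z => z ∈ M)) fun z hz => ?_)
    (card_insert_le _ _)
  simp only [mem_filter, mem_insert] at hz ⊢
  tauto

theorem mk_same {M Y : Finset V} {y : V} (h : y ∉ Y) : mk (insert y M) Y = mk M Y := by
  unfold C2.mk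
  refine sum_congr rfl fun z hz => ?_
  have h1 : z ≠ y := fun h2 => h (h2 ▸ hz)
  by_cases h2 : z ∈ M
  · rw [ib_pos h2, ib_pos (mem_insert_of_mem h2)]
  · rw [ib_neg h2, ib_neg (by simp [h1, h2])]

/-- Remove a lowest vertex. -/
theorem Res.cons {Z R M M' : Finset V} {v : V} (hv : v ∈ Z) {o : V → ℕ} {x : V → V} {y : V}
    (hMM : M ⊆ M') (h : Res G (Z.erase v) R M' o x)
    (h5 : C2.nb G Z v + C2.nb G R v ≤ 5) (hm : v ∈ M → C2.nb G Z v + C2.nb G R v ≤ 4)
    (hy : C2.nb G Z v + C2.nb G R v ≤ 4 ∨ (y ∈ Z ∧ y ∉ M ∧ y ∈ M' ∧ G.Adj v y)) :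
    Res G Z R M (fun w => if w = v then 0 else o w + 1) (fun w => if w = v then y else x w) := by
  have hc : (Z.erase v).card + 1 = Z.card := card_erase_add_one hv
  have hu1 : ∀ w ∈ Z, w ≠ v →
      up G (fun w => if w = v then 0 else o w + 1) Z R w = up G o (Z.erase v) R w := by
    intro w _ hwv
    unfold up
    congr 2
    ext z
    simp only [mem_filter, mem_erase, if_neg hwv]
    by_cases hz : z = v
    · simp [hz]
    · simp [hz]
  have hu2 : up G (fun w => if w = v then 0 else o w + 1) Z R v ≤ C2.nb G Z v + C2.nb G R v := by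
    unfold up
    exact Nat.add_le_add_right (nb_mono G (filter_subset _ _) v) _
  have he : ∀ w ∈ Z, w ≠ v → w ∈ Z.erase v := fun w h1 h2 => mem_erase.2 ⟨h2, h1⟩
  refine ⟨?_, ?_, ?_, ?_, ?_, ?_⟩
  · intro w hw
    by_cases hwv : w = v
    · simp only [hwv, if_true]
      omega
    · simp only [if_neg hwv]
      have := h.lt w (he w hw hwv)
      omega
  · intro w hw w' hw' h1
    by_cases hwv : w = v <;> by_cases hwv' : w' = v
    · rw [hwv, hwv']
    · simp [hwv, hwv'] at h1
    · simp [hwv, hwv'] at h1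
    · simp only [if_neg hwv, if_neg hwv'] at h1
      exact h.inj w (he w hw hwv) w' (he w' hw' hwv') (by omega)
  · intro w hw
    by_cases hwv : w = v
    · subst hwv
      exact hu2.trans h5
    · rw [hu1 w hw hwv]
      exact h.five w (he w hw hwv)
  · intro w hw hwM
    by_cases hwv : w = v
    · subst hwv
      exact hu2.trans (hm hwM)
    · rw [hu1 w hw hwv]
      exact h.mark w (he w hw hwv) (hMM hwM)
  · intro w hw h1
    by_cases hwv : w = v
    · subst hwv
      simp only [if_true]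
      rcases hy with hy | ⟨y1, y2, y3, y4⟩
      · omega
      · refine ⟨y1, y2, y4, ?_, ?_⟩
        · rw [if_neg y4.ne']
          omega
        · rw [hu1 y y1 y4.ne']
          exact h.mark y (he y y1 y4.ne') y3
    · rw [hu1 w hw hwv] at h1
      obtain ⟨a1, a2, a3, a4, a5⟩ := h.host w (he w hw hwv) h1
      simp only [if_neg hwv]
      have hxv : x w ≠ v := (mem_erase.1 a1).1
      refine ⟨mem_of_mem_erase a1, fun h2 => a2 (hMM h2), a3, ?_, ?_⟩
      · rw [if_neg hxv]
        omega
      · rw [hu1 _ (mem_of_mem_erase a1) hxv]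
        exact a5
  · intro w hw w' hw' h1 h2 h3
    by_cases hwv : w = v <;> by_cases hwv' : w' = v
    · rw [hwv, hwv']
    · exfalso
      rw [hu1 w' hw' hwv'] at h2
      subst hwv
      simp only [if_true, if_neg hwv'] at h3
      rcases hy with hy | ⟨y1, y2, y3, y4⟩
      · omega
      · exact (h.host w' (he w' hw' hwv') h2).2.1 (h3 ▸ y3)
    · exfalso
      rw [hu1 w hw hwv] at h1
      subst hwv'
      simp only [if_true, if_neg hwv] at h3
      rcases hy with hy | ⟨y1, y2, y3, y4⟩
      · omega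
      · exact (h.host w (he w hw hwv) h1).2.1 (h3 ▸ y3)
    · rw [hu1 w hw hwv] at h1
      rw [hu1 w' hw' hwv'] at h2
      simp only [if_neg hwv, if_neg hwv'] at h3
      exact h.uniq w (he w hw hwv) w' (he w' hw' hwv') h1 h2 h3

/-- Put `Z \ T` below `T`. -/
theorem Res.append {Z R M T : Finset V} (hZR : Disjoint Z R) (hT : T ⊆ Z) {o1 o2 : V → ℕ}
    {x1 x2 : V → V} (h1 : Res G (Z \ T) (R ∪ T) M o1 x1) (h2 : Res G T R M o2 x2) :
    Res G Z R M (fun w => if w ∈ T then (Z \ T).card + o2 w else o1 w)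
      (fun w => if w ∈ T then x2 w else x1 w) := by
  have hc : (Z \ T).card + T.card = Z.card := card_sdiff_add_card_eq_card hT
  have hRT : Disjoint R T := (Disjoint.mono_left hT hZR).symm
  have hs : ∀ w ∈ Z, w ∉ T → w ∈ Z \ T := fun w a b => mem_sdiff.2 ⟨a, b⟩
  have hu2 : ∀ w ∈ T, up G (fun w => if w ∈ T then (Z \ T).card + o2 w else o1 w) Z R w =
      up G o2 T R w := by
    intro w hw
    unfold up
    congr 2
    ext z
    simp only [mem_filter, if_pos hw]
    by_cases hz : z ∈ T
    · simp [hz, hT hz]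
    · simp only [hz, if_false, false_and, iff_false, not_and, not_lt]
      intro hzZ
      have := h1.lt z (hs z hzZ hz)
      omega
  have hu1 : ∀ w ∈ Z, w ∉ T → up G (fun w => if w ∈ T then (Z \ T).card + o2 w else o1 w) Z R w =
      up G o1 (Z \ T) (R ∪ T) w := by
    intro w hw hwT
    unfold up
    have h3 : (Z.filter fun z => (if w ∈ T then (Z \ T).card + o2 w else o1 w) <
        (if z ∈ T then (Z \ T).card + o2 z else o1 z)) =
        ((Z \ T).filter fun z => o1 w < o1 z) ∪ T := by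
      ext z
      simp only [mem_filter, mem_union, mem_sdiff, if_neg hwT]
      by_cases hz : z ∈ T
      · have := h1.lt w (hs w hw hwT)
        simp only [hz, if_true, hT hz, true_and, not_true, false_and, false_or, iff_true]
        omega
      · simp [hz]
    rw [h3, nb_union, nb_union hRT]
    · ring
    · rw [disjoint_left]
      intro z hz hz2
      exact (mem_sdiff.1 (mem_filter.1 hz).1).2 hz2
  refine ⟨?_, ?_, ?_, ?_, ?_, ?_⟩
  · intro w hw
    by_cases hwT : w ∈ T
    · simp only [if_pos hwT]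
      have := h2.lt w hwT
      omega
    · simp only [if_neg hwT]
      have := h1.lt w (hs w hw hwT)
      omega
  · intro w hw w' hw' h3
    by_cases hwT : w ∈ T <;> by_cases hwT' : w' ∈ T
    · simp only [if_pos hwT, if_pos hwT'] at h3
      exact h2.inj w hwT w' hwT' (by omega)
    · exfalso
      simp only [if_pos hwT, if_neg hwT'] at h3
      have := h1.lt w' (hs w' hw' hwT')
      omega
    · exfalso
      simp only [if_neg hwT, if_pos hwT'] at h3
      have := h1.lt w (hs w hw hwT)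
      omega
    · simp only [if_neg hwT, if_neg hwT'] at h3
      exact h1.inj w (hs w hw hwT) w' (hs w' hw' hwT') h3
  · intro w hw
    by_cases hwT : w ∈ T
    · rw [hu2 w hwT]
      exact h2.five w hwT
    · rw [hu1 w hw hwT]
      exact h1.five w (hs w hw hwT)
  · intro w hw hwM
    by_cases hwT : w ∈ T
    · rw [hu2 w hwT]
      exact h2.mark w hwT hwM
    · rw [hu1 w hw hwT]
      exact h1.mark w (hs w hw hwT) hwM
  · intro w hw h3
    by_cases hwT : w ∈ T
    · rw [hu2 w hwT] at h3
      obtain ⟨a1, a2, a3, a4, a5⟩ := h2.host w hwT h3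
      simp only [if_pos hwT, if_pos a1]
      refine ⟨hT a1, a2, a3, by omega, ?_⟩
      rw [hu2 _ a1]
      exact a5
    · rw [hu1 w hw hwT] at h3
      obtain ⟨a1, a2, a3, a4, a5⟩ := h1.host w (hs w hw hwT) h3
      have a6 := mem_sdiff.1 a1
      simp only [if_neg hwT, if_neg a6.2]
      refine ⟨a6.1, a2, a3, a4, ?_⟩
      rw [hu1 _ a6.1 a6.2]
      exact a5
  · intro w hw w' hw' h3 h4 h5
    by_cases hwT : w ∈ T <;> by_cases hwT' : w' ∈ T
    · rw [hu2 w hwT] at h3
      rw [hu2 w' hwT'] at h4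
      simp only [if_pos hwT, if_pos hwT'] at h5
      exact h2.uniq w hwT w' hwT' h3 h4 h5
    · exfalso
      rw [hu2 w hwT] at h3
      rw [hu1 w' hw' hwT'] at h4
      simp only [if_pos hwT, if_neg hwT'] at h5
      have h6 := (h1.host w' (hs w' hw' hwT') h4).1
      rw [← h5] at h6
      exact (mem_sdiff.1 h6).2 (h2.host w hwT h3).1
    · exfalso
      rw [hu1 w hw hwT] at h3
      rw [hu2 w' hwT'] at h4
      simp only [if_neg hwT, if_pos hwT'] at h5
      have h6 := (h1.host w (hs w hw hwT) h3).1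
      rw [h5] at h6
      exact (mem_sdiff.1 h6).2 (h2.host w' hwT' h4).1
    · rw [hu1 w hw hwT] at h3
      rw [hu1 w' hw' hwT'] at h4
      simp only [if_neg hwT, if_neg hwT'] at h5
      exact h1.uniq w (hs w hw hwT) w' (hs w' hw' hwT') h3 h4 h5

omit [DecidableEq V] in
theorem Inv.mono {Z Z' R M : Finset V} (h : Inv G Z R M) (hZ : Z' ⊆ Z) : Inv G Z' R M :=
  fun Y hY => h Y (hY.trans hZ)

theorem Inv.sdiff {Z R M T : Finset V} (h : Inv G Z R M) (hZR : Disjoint Z R) (hT : T ⊆ Z)
    (ht : dd G T T + 2 * dd G T R + 2 * mk M T = 6 * T.card) : Inv G (Z \ T) (R ∪ T) M := by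
  intro Y hY
  have hYT : Disjoint Y T := by
    rw [disjoint_left]
    intro z hz hz2
    exact (mem_sdiff.1 (hY hz)).2 hz2
  have hRT : Disjoint R T := (Disjoint.mono_left hT hZR).symm
  have h1 := h (Y ∪ T) (union_subset (hY.trans sdiff_subset) hT)
  rw [dd_union_left G hYT, dd_union_left G hYT, dd_union_right G hYT, dd_union_right G hYT,
    card_union_of_disjoint hYT, dd_comm G T Y] at h1
  have h2 : mk M (Y ∪ T) = mk M Y + mk M T := by
    unfold C2.mk
    exact sum_union hYT
  rw [dd_union_right G hRT]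
  omega

/-- The last case of the induction is impossible. -/
theorem last {Z R M : Finset V} (hZ : Z.Nonempty)
    (h3 : ∀ X : Finset V, X.Nonempty → dd G X X + 6 ≤ 6 * X.card)
    (h2 : ∀ Y X : Finset V, Disjoint Y X → (Y ∪ X).Nonempty →
      dd G Y X + 2 ≤ 2 * (Y.card + X.card))
    (h : Inv G Z R M)
    (hb1 : ∀ v ∈ Z, 5 ≤ C2.nb G Z v + C2.nb G R v)
    (hb2 : ∀ v ∈ Z, v ∉ M → C2.nb G Z v + C2.nb G R v ≤ 5 → ∀ y ∈ Z, G.Adj v y → y ∈ M) :
    False := by
  classical
  have hZZ := h Z (Subset.refl Z)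
  set Y : Finset V := Z.filter fun v => v ∉ M ∧ C2.nb G Z v = 5 ∧ C2.nb G R v = 0 with hY
  set N : Finset V := Z.filter fun v => v ∈ M with hN
  have hmk : mk M Z = N.card := by
    unfold C2.mk
    rw [hN, card_ib]
  have hYc : Y.card = ∑ v ∈ Z, ib (v ∉ M ∧ C2.nb G Z v = 5 ∧ C2.nb G R v = 0) := by
    rw [hY, card_ib]
  have hsum : 6 * Z.card + mk M Z ≤ dd G Z Z + 2 * dd G Z R + 2 * mk M Z + Y.card := by
    rw [hYc, dd_eq_sum, dd_eq_sum]
    unfold C2.mk
    rw [mul_sum, mul_sum, ← sum_add_distrib, ← sum_add_distrib, ← sum_add_distrib,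
      show 6 * Z.card = ∑ v ∈ Z, 6 by rw [sum_const, smul_eq_mul, mul_comm], ← sum_add_distrib]
    refine sum_le_sum fun v hv => ?_
    have h5 := hb1 v hv
    by_cases hvM : v ∈ M
    · rw [ib_pos hvM]
      omega
    · rw [ib_neg hvM]
      by_cases h6 : C2.nb G Z v = 5 ∧ C2.nb G R v = 0
      · rw [ib_pos ⟨hvM, h6⟩]
        omega
      · rw [ib_neg (fun h7 => h6 h7.2)]
        omega
  have hle : N.card ≤ Y.card := by omega
  by_cases hYne : Y.Nonempty
  · have hdis : Disjoint Y N := by
      rw [disjoint_left]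
      intro z hz hz2
      exact (mem_filter.1 hz).2.1 (mem_filter.1 hz2).2
    have h4 : dd G Y N = 5 * Y.card := by
      rw [dd_eq_sum, mul_comm, ← smul_eq_mul, ← sum_const]
      refine sum_congr rfl fun v hv => ?_
      obtain ⟨v1, v2, v3, v4⟩ := mem_filter.1 hv
      rw [← v3]
      unfold C2.nb
      congr 1
      ext z
      simp only [hN, mem_filter]
      constructor
      · rintro ⟨⟨a, _⟩, b⟩
        exact ⟨a, b⟩
      · rintro ⟨a, b⟩
        exact ⟨⟨a, hb2 v v1 v2 (by omega) z a b⟩, b⟩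
    have h5 := h2 Y N hdis (hYne.mono subset_union_left)
    have h6 : 0 < Y.card := card_pos.2 hYne
    omega
  · rw [not_nonempty_iff_eq_empty] at hYne
    have hY0 : Y.card = 0 := by rw [hYne, card_empty]
    have hN0 : N = ∅ := card_eq_zero.1 (by omega)
    have hM : ∀ v ∈ Z, v ∉ M := by
      intro v hv hvM
      have : v ∈ N := mem_filter.2 ⟨hv, hvM⟩
      rw [hN0] at this
      exact notMem_empty v this
    have hge : ∀ v ∈ Z, 6 ≤ C2.nb G Z v + 2 * C2.nb G R v := by
      intro v hv
      have h5 := hb1 v hv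
      by_contra hcon
      have h6 : v ∈ Y := mem_filter.2 ⟨hv, hM v hv, by omega, by omega⟩
      rw [hYne] at h6
      exact notMem_empty v h6
    have hmk0 : mk M Z = 0 := by omega
    have htot : ∑ v ∈ Z, (C2.nb G Z v + 2 * C2.nb G R v) ≤ ∑ v ∈ Z, 6 := by
      rw [sum_add_distrib, ← mul_sum, ← dd_eq_sum, ← dd_eq_sum, sum_const, smul_eq_mul]
      omega
    have heq : ∀ v ∈ Z, 6 = C2.nb G Z v + 2 * C2.nb G R v :=
      (sum_eq_sum_iff_of_le hge).1 (le_antisymm (sum_le_sum hge) htot)
    have h6 : ∀ v ∈ Z, C2.nb G Z v = 6 := by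
      intro v hv
      have h7 := heq v hv
      have h8 := hb1 v hv
      by_contra hcon
      have h9 : C2.nb G Z v = 4 := by omega
      have h10 : 0 < C2.nb G Z v := by omega
      unfold C2.nb at h10
      obtain ⟨y, hy⟩ := card_pos.1 h10
      rw [mem_filter] at hy
      exact hM y hy.1 (hb2 v hv (hM v hv) (by omega) y hy.1 hy.2)
    have h7 := h3 Z hZ
    rw [dd_eq_sum, sum_congr rfl h6, sum_const, smul_eq_mul] at h7
    omega

theorem main (h3 : ∀ X : Finset V, X.Nonempty → dd G X X + 6 ≤ 6 * X.card)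
    (h2 : ∀ Y X : Finset V, Disjoint Y X → (Y ∪ X).Nonempty →
      dd G Y X + 2 ≤ 2 * (Y.card + X.card)) :
    ∀ (n : ℕ) (Z R M : Finset V), Z.card = n → Disjoint Z R → Inv G Z R M →
      ∃ o x, Res G Z R M o x := by
  classical
  intro n
  induction n using Nat.strong_induction_on with
  | _ n ih =>
    intro Z R M hn hZR h
    by_cases hZ : Z.Nonempty
    swap
    · rw [not_nonempty_iff_eq_empty] at hZ
      subst hZ
      refine ⟨fun _ => 0, id, ?_, ?_, ?_, ?_, ?_, ?_⟩ <;> intro v hv <;>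
        exact absurd hv (notMem_empty v)
    by_cases ha : ∃ T, T ⊂ Z ∧ T.Nonempty ∧ dd G T T + 2 * dd G T R + 2 * mk M T = 6 * T.card
    · obtain ⟨T, hT, hTne, ht⟩ := ha
      have hc : (Z \ T).card + T.card = Z.card := card_sdiff_add_card_eq_card hT.1
      have hT0 : 0 < T.card := card_pos.2 hTne
      have hTZ : T.card < Z.card := card_lt_card hT
      obtain ⟨o1, x1, r1⟩ := ih _ (by omega) (Z \ T) (R ∪ T) M rfl (by
        rw [disjoint_left]
        intro z hz hz2
        rw [mem_sdiff] at hz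
        rcases mem_union.1 hz2 with hz3 | hz3
        · exact disjoint_left.1 hZR hz.1 hz3
        · exact hz.2 hz3) (h.sdiff hZR hT.1 ht)
      obtain ⟨o2, x2, r2⟩ := ih _ (by omega) T R M rfl (Disjoint.mono_left hT.1 hZR) (h.mono hT.1)
      exact ⟨_, _, r1.append hZR hT.1 r2⟩
    by_cases hb1 : ∃ v ∈ Z, C2.nb G Z v + C2.nb G R v ≤ 4
    · obtain ⟨v, hv, hv4⟩ := hb1
      have hc : (Z.erase v).card + 1 = Z.card := card_erase_add_one hv
      obtain ⟨o, x, r⟩ := ih _ (by omega) (Z.erase v) R M rfl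
        (Disjoint.mono_left (erase_subset v Z) hZR) (h.mono (erase_subset v Z))
      exact ⟨_, _, r.cons (y := v) hv (Subset.refl M) (by omega) (fun _ => hv4) (Or.inl hv4)⟩
    by_cases hb2 : ∃ v ∈ Z, v ∉ M ∧ C2.nb G Z v + C2.nb G R v ≤ 5 ∧ ∃ y ∈ Z, G.Adj v y ∧ y ∉ M
    · obtain ⟨v, hv, hvM, hv5, y, hy, hvy, hyM⟩ := hb2
      have hc : (Z.erase v).card + 1 = Z.card := card_erase_add_one hv
      obtain ⟨o, x, r⟩ := ih _ (by omega) (Z.erase v) R (insert y M) rfl
        (Disjoint.mono_left (erase_subset v Z) hZR) (by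
          intro Y hY
          have h4 := h Y (hY.trans (erase_subset v Z))
          by_cases hyY : y ∈ Y
          · have h5 : Y ⊂ Z := by
              refine ⟨hY.trans (erase_subset v Z), fun h6 => ?_⟩
              exact (mem_erase.1 (hY (h6 hv))).1 rfl
            have h6 : dd G Y Y + 2 * dd G Y R + 2 * mk M Y ≠ 6 * Y.card := fun h7 =>
              ha ⟨Y, h5, ⟨y, hyY⟩, h7⟩
            have h7 := dd_ein G Y
            have h8 := mk_le_one M Y y
            omega
          · rw [mk_same hyY]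
            exact h4)
      exact ⟨_, _, r.cons (y := y) hv (subset_insert y M) hv5 (fun h4 => absurd h4 hvM)
        (Or.inr ⟨hy, hyM, mem_insert_self y M, hvy⟩)⟩
    push Not at hb1 hb2
    exact (last hZ h3 h2 h (fun v hv => hb1 v hv) hb2).elim

/-- Existence of elimination orders with private hosts. -/
theorem exists_order [Fintype V]
    (h3 : ∀ X : Finset V, X.Nonempty → dd G X X + 6 ≤ 6 * X.card)
    (h2 : ∀ Y X : Finset V, Disjoint Y X → (Y ∪ X).Nonempty →
      dd G Y X + 2 ≤ 2 * (Y.card + X.card)) :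
    ∃ (o : V → ℕ) (x : V → V), Function.Injective o ∧
      (∀ v, C2.nb G (univ.filter fun w => o v < o w) v ≤ 5) ∧
      (∀ v, C2.nb G (univ.filter fun w => o v < o w) v = 5 → G.Adj v (x v) ∧ o v < o (x v) ∧
        C2.nb G (univ.filter fun w => o (x v) < o w) (x v) ≤ 4) ∧
      (∀ v w, C2.nb G (univ.filter fun z => o v < o z) v = 5 →
        C2.nb G (univ.filter fun z => o w < o z) w = 5 → x v = x w → v = w) := by
  classical
  obtain ⟨o, x, r⟩ := main h3 h2 _ univ ∅ ∅ rfl (disjoint_empty_right _) (by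
    intro Y _
    have h4 : dd G Y ∅ = 0 := by
      unfold dd
      simp
    have h5 : mk ∅ Y = 0 := by
      unfold C2.mk
      exact sum_eq_zero fun z _ => ib_neg (notMem_empty z)
    rw [h4, h5]
    by_cases hY : Y.Nonempty
    · have := h3 Y hY
      omega
    · rw [not_nonempty_iff_eq_empty] at hY
      subst hY
      unfold dd
      simp)
  have hup : ∀ v, up G o univ ∅ v = C2.nb G (univ.filter fun w => o v < o w) v := by
    intro v
    unfold up
    have h4 : C2.nb G ∅ v = 0 := by
      unfold C2.nb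
      simp
    rw [h4, add_zero]
  refine ⟨o, x, fun v w hvw => r.inj v (mem_univ v) w (mem_univ w) hvw, ?_, ?_, ?_⟩
  · intro v
    rw [← hup]
    exact r.five v (mem_univ v)
  · intro v hv
    rw [← hup] at hv
    obtain ⟨_, _, a3, a4, a5⟩ := r.host v (mem_univ v) hv
    rw [hup] at a5
    exact ⟨a3, a4, a5⟩
  · intro v w hv hw
    rw [← hup] at hv hw
    exact r.uniq v (mem_univ v) w (mem_univ w) hv hw

end Pool.Agent.W986.Ex5
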