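import Pool.Agent.W986.MinPair

/-!
# On a surface of Euler characteristic one there is a cocycle which is not a coboundary
-/

set_option autoImplicit false

open Finset

namespace Pool.Agent.W986

open Pool.Agent.DC76

variable {V : Type} [Fintype V] [DecidableEq V] {G : SimpleGraph V} {F : Type} [Fintype F]

theorem sum_faces (M : FacialWalks G F) : ∑ f, face M f = 0 := by
  funext x y
  rw [Finset.sum_apply, Finset.sum_apply]
  by_cases h : G.Adj x y
  · have h1 := M.twice x y h
    have h2 : ∑ f, face M f x y = ((∑ f, trav (M.len f) (M.walk f) x y : ℕ) : ZMod 2) := by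
      rw [Nat.cast_sum]
      rfl
    rw [h2, h1]
    rfl
  · refine sum_eq_zero fun f _ => ?_
    by_contra h1
    exact h ((face_mem M f).2.1 x y h1).1

open Classical in
/-- The symmetric function given by a function on the edges. -/
noncomputable def exE (G : SimpleGraph V) : (G.edgeSet → ZMod 2) →ₗ[ZMod 2] (V → V → ZMod 2) where
  toFun X x y := if h : G.Adj x y then X ⟨s(x, y), h⟩ else 0
  map_add' X Y := by
    funext x y
    simp only [Pi.add_apply]
    split
    · rfl
    · rw [add_zero]
  map_smul' c X := by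
    funext x y
    simp only [Pi.smul_apply, RingHom.id_apply, smul_eq_mul]
    split
    · rfl
    · rw [mul_zero]

omit [Fintype V] [DecidableEq V] in
theorem exE_adj {X : G.edgeSet → ZMod 2} {x y : V} (h : G.Adj x y) :
    exE G X x y = X ⟨s(x, y), h⟩ := by
  classical
  exact dif_pos h

omit [Fintype V] [DecidableEq V] in
theorem exE_symm (X : G.edgeSet → ZMod 2) (x y : V) : exE G X x y = exE G X y x := by
  by_cases h : G.Adj x y
  · rw [exE_adj h, exE_adj h.symm]
    congr 1
    exact Subtype.ext Sym2.eq_swap
  · have h1 : exE G X x y = 0 := dif_neg h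
    have h2 : exE G X y x = 0 := dif_neg (fun h3 => h (G.symm.symm _ _ h3))
    rw [h1, h2]

theorem exists_coc (M : FacialWalks G F) (hF : Nonempty F) (hV : Nonempty V)
    (hχ : (Fintype.card V : ℤ) - G.edgeSet.ncard + Fintype.card F = 1) : ∃ X, Coc M X := by
  classical
  have hE : Fintype.card G.edgeSet = G.edgeSet.ncard := by
    rw [Set.ncard_eq_toFinset_card', Set.toFinset_card]
  -- the sums over the faces
  let A : (G.edgeSet → ZMod 2) →ₗ[ZMod 2] (F → ZMod 2) :=
    LinearMap.pi fun f => ∑ t ∈ range (M.len f),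
      (LinearMap.proj (M.walk f (t + 1))).comp ((LinearMap.proj (M.walk f t)).comp (exE G))
  have hA : ∀ X f, A X f = ∑ t ∈ range (M.len f), exE G X (M.walk f t) (M.walk f (t + 1)) := by
    intro X f
    change (∑ t ∈ range (M.len f), (LinearMap.proj (M.walk f (t + 1))).comp
      ((LinearMap.proj (M.walk f t)).comp (exE G))) X = _
    rw [LinearMap.sum_apply]
    rfl
  let B : (V → ZMod 2) →ₗ[ZMod 2] (G.edgeSet → ZMod 2) :=
    { toFun := fun h e => Sym2.lift ⟨fun x y => h x + h y, fun x y => add_comm _ _⟩ e.1
      map_add' := by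
        intro h k
        funext e
        obtain ⟨e, he⟩ := e
        induction e using Sym2.ind with
        | _ u v =>
          change (h + k) u + (h + k) v = (h u + h v) + (k u + k v)
          rw [Pi.add_apply, Pi.add_apply]
          ring
      map_smul' := by
        intro c h
        funext e
        obtain ⟨e, he⟩ := e
        induction e using Sym2.ind with
        | _ u v =>
          change (c • h) u + (c • h) v = c • (h u + h v)
          rw [Pi.smul_apply, Pi.smul_apply, smul_add] }
  -- the rank of `A`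
  have h1 := LinearMap.finrank_range_add_finrank_ker A
  rw [Module.finrank_fintype_fun_eq_card, hE] at h1
  have h2 : LinearMap.range A ≤ LinearMap.ker (∑ f, LinearMap.proj f : (F → ZMod 2) →ₗ[ZMod 2] ZMod 2) := by
    rintro _ ⟨X, rfl⟩
    rw [LinearMap.mem_ker, LinearMap.sum_apply]
    have h3 : ∀ f, (LinearMap.proj f : (F → ZMod 2) →ₗ[ZMod 2] ZMod 2) (A X) =
        ev (exE G X) (face M f) := by
      intro f
      rw [ev_face M (exE_symm X) f, ← hA]
      rfl
    rw [sum_congr rfl fun f _ => h3 f, ← map_sum, sum_faces, map_zero]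
  have h3 := Submodule.finrank_mono h2
  have h4 := LinearMap.finrank_range_add_finrank_ker
    (∑ f, LinearMap.proj f : (F → ZMod 2) →ₗ[ZMod 2] ZMod 2)
  rw [Module.finrank_fintype_fun_eq_card] at h4
  have h5 : 1 ≤ Module.finrank (ZMod 2)
      (LinearMap.range (∑ f, LinearMap.proj f : (F → ZMod 2) →ₗ[ZMod 2] ZMod 2)) := by
    obtain ⟨f0⟩ := hF
    rw [Nat.one_le_iff_ne_zero, Ne, Submodule.finrank_eq_zero]
    intro h6
    have h7 : (∑ f, LinearMap.proj f : (F → ZMod 2) →ₗ[ZMod 2] ZMod 2) (Pi.single f0 1) = 0 := by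
      rw [LinearMap.range_eq_bot.1 h6, LinearMap.zero_apply]
    rw [LinearMap.sum_apply] at h7
    simp at h7
  -- the rank of `B`
  have h6 := LinearMap.finrank_range_add_finrank_ker B
  rw [Module.finrank_fintype_fun_eq_card] at h6
  have h7 : 1 ≤ Module.finrank (ZMod 2) (LinearMap.ker B) := by
    rw [Nat.one_le_iff_ne_zero, Ne, Submodule.finrank_eq_zero]
    intro h8
    have h9 : (fun _ => 1 : V → ZMod 2) ∈ LinearMap.ker B := by
      rw [LinearMap.mem_ker]
      funext e
      obtain ⟨e, he⟩ := e
      induction e using Sym2.ind with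
      | _ u v =>
        change (1 : ZMod 2) + 1 = 0
        decide
    rw [h8, Submodule.mem_bot] at h9
    obtain ⟨v⟩ := hV
    exact one_ne_zero (congrFun h9 v)
  -- a cocycle which is not a coboundary
  have h8 : ¬ LinearMap.ker A ≤ LinearMap.range B := by
    intro h8
    have h9 := Submodule.finrank_mono h8
    omega
  obtain ⟨X, hX1, hX2⟩ := SetLike.not_le_iff_exists.1 h8
  refine ⟨exE G X, exE_symm X, fun f => ?_, ?_⟩
  · rw [← hA, LinearMap.mem_ker.1 hX1]
    rfl
  · rintro ⟨h, hh⟩
    apply hX2
    refine ⟨h, ?_⟩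
    funext e
    obtain ⟨e, he⟩ := e
    induction e using Sym2.ind with
    | _ u v =>
      change h u + h v = X ⟨s(u, v), he⟩
      rw [hh u v ((G.mem_edgeSet).1 he), exE_adj]

end Pool.Agent.W986
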