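import Pool.Agent.W986.Cover

/-!
# A seam in the projective plane gives a colouring
-/

set_option autoImplicit false

open Finset

namespace Pool.Agent.W986

open Pool.Agent.DC76

/-- The theorem about a hub: if `P` is a planar graph with a vertex `h`, then every subgraph of `P`
has a colouring in which `h` and all the neighbours of `h` in `P` have no neighbour of their own
colour. -/
def HubMarks : Prop :=
  ∀ {V : Type} [Finite V] {G P : SimpleGraph V} {h : V}, SphereMinor P {x | x ≠ h} → G ≤ P →
    ∃ c : V → Fin 4, Good G {x | x = h ∨ P.Adj h x} c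

section

variable {V : Type} [DecidableEq V] {G : SimpleGraph V} {F : Type} [Fintype F]

/-- A seam: a set `X` of edges, with an even number of edges on every facial walk, which is not the
coboundary of a set of vertices, such that outside `S` any two `X`-neighbours of a vertex are joined
by an edge which is not in `X`. -/
structure IsSeam (M : FacialWalks G F) (S : Set V) (X : V → V → ZMod 2) : Prop where
  symm : ∀ x y, X x y = X y x
  even : ∀ f, ∑ t ∈ range (M.len f), X (M.walk f t) (M.walk f (t + 1)) = 0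
  odd : ¬ ∃ h : V → ZMod 2, ∀ x y, G.Adj x y → h x + h y = X x y
  fans : ∀ x, x ∉ S → ∀ y, y ∉ S → ∀ y', y' ∉ S → y ≠ y' → G.Adj x y → G.Adj x y' →
    X x y ≠ 0 → X x y' ≠ 0 → G.Adj y y' ∧ X y y' = 0

/-- Adding the coboundary of `C`, if all the edges which leave `C` are in `X`. -/
theorem IsSeam.reduce {M : FacialWalks G F} {S : Set V} {X : V → V → ZMod 2} (h : IsSeam M S X)
    (σ : V → ZMod 2) (hσ : ∀ x y, G.Adj x y → σ x ≠ σ y → X x y ≠ 0) :
    IsSeam M S (fun x y => X x y + (σ x + σ y)) := by
  have hle : ∀ x y, G.Adj x y → X x y + (σ x + σ y) ≠ 0 → X x y ≠ 0 := by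
    intro x y hxy h1 h2
    apply h1
    by_cases h3 : σ x = σ y
    · rw [h2, h3, CharTwo.add_self_eq_zero, add_zero]
    · exact absurd h2 (hσ x y hxy h3)
  refine ⟨fun x y => ?_, fun f => ?_, ?_, ?_⟩
  · rw [h.symm x y, add_comm (σ x)]
  · rw [sum_add_distrib, h.even f, zero_add, sum_add_distrib]
    have h1 := sum_range_succ (fun t => σ (M.walk f t)) (M.len f)
    have h2 := sum_range_succ' (fun t => σ (M.walk f t)) (M.len f)
    rw [h1, M.closed] at h2
    have h3 := add_right_cancel h2
    rw [h3, CharTwo.add_self_eq_zero]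
  · rintro ⟨g, hg⟩
    refine h.odd ⟨fun x => g x + σ x, fun x y hxy => ?_⟩
    have h1 := hg x y hxy
    have h2 : ∀ a b c d e : ZMod 2, a + b = e + (c + d) → a + c + (b + d) = e := by decide
    exact h2 _ _ _ _ _ h1
  · intro x hx y hy y' hy' hne h1 h2 h3 h4
    obtain ⟨h5, h6⟩ := h.fans x hx y hy y' hy' hne h1 h2 (hle _ _ h1 h3) (hle _ _ h2 h4)
    refine ⟨h5, ?_⟩
    by_contra h7
    exact hle _ _ h5 h7 h6

/-- There is a seam such that the graph remains connected. -/
theorem IsSeam.exists_conn [Fintype V] {M : FacialWalks G F} (hG : G.Connected) {S : Set V}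
    {X : V → V → ZMod 2} (h : IsSeam M S X) :
    ∃ X, IsSeam M S X ∧
      ∀ x y, Relation.ReflTransGen (fun a b => G.Adj a b ∧ X a b = 0) x y := by
  classical
  have key : ∀ n, ∀ X, IsSeam M S X →
      (univ.filter fun p : V × V => G.Adj p.1 p.2 ∧ X p.1 p.2 ≠ 0).card = n →
      ∃ X, IsSeam M S X ∧
        ∀ x y, Relation.ReflTransGen (fun a b => G.Adj a b ∧ X a b = 0) x y := by
    intro n
    induction n using Nat.strong_induction_on with
    | _ n ih =>
      intro X h hn
      by_cases hc : ∀ x y, Relation.ReflTransGen (fun a b => G.Adj a b ∧ X a b = 0) x y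
      · exact ⟨X, h, hc⟩
      push Not at hc
      obtain ⟨r, q, hrq⟩ := hc
      let σ : V → ZMod 2 := fun x =>
        if Relation.ReflTransGen (fun a b => G.Adj a b ∧ X a b = 0) r x then 1 else 0
      have hσ : ∀ x y, G.Adj x y → σ x ≠ σ y → X x y ≠ 0 := by
        intro x y hxy hne h0
        apply hne
        have h1 : Relation.ReflTransGen (fun a b => G.Adj a b ∧ X a b = 0) r x ↔
            Relation.ReflTransGen (fun a b => G.Adj a b ∧ X a b = 0) r y := by
          constructor
          · intro h2
            exact h2.tail ⟨hxy, h0⟩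
          · intro h2
            refine h2.tail ⟨hxy.symm, ?_⟩
            rw [h.symm]
            exact h0
        change (if _ then (1 : ZMod 2) else 0) = if _ then 1 else 0
        simp only [h1]
      -- an edge which leaves the component
      have hedge : ∃ x y, G.Adj x y ∧ σ x ≠ σ y := by
        by_contra hcon
        push Not at hcon
        have h1 : ∀ u v, G.Walk u v → σ u = σ v := by
          intro u v w
          induction w with
          | nil => rfl
          | cons h w ih => exact (hcon _ _ h).trans ih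
        obtain ⟨w⟩ := hG.preconnected r q
        have h2 := h1 r q w
        change (if _ then (1 : ZMod 2) else 0) = if _ then 1 else 0 at h2
        rw [if_pos Relation.ReflTransGen.refl, if_neg hrq] at h2
        exact one_ne_zero h2
      obtain ⟨x0, y0, hxy0, hne0⟩ := hedge
      have h' := h.reduce σ hσ
      refine ih _ ?_ _ h' rfl
      rw [← hn]
      refine card_lt_card ⟨?_, ?_⟩
      · intro p hp
        rw [mem_filter] at hp ⊢
        refine ⟨mem_univ _, hp.2.1, fun h0 => ?_⟩
        by_cases h3 : σ p.1 = σ p.2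
        · apply hp.2.2
          rw [h0, h3, CharTwo.add_self_eq_zero, add_zero]
        · exact hσ _ _ hp.2.1 h3 h0
      · intro hsub
        have h3 : ((x0, y0) : V × V) ∈
            univ.filter fun p : V × V => G.Adj p.1 p.2 ∧ X p.1 p.2 ≠ 0 := by
          rw [mem_filter]
          exact ⟨mem_univ _, hxy0, hσ _ _ hxy0 hne0⟩
        have h4 := (mem_filter.1 (hsub h3)).2.2
        apply h4
        have h5 : ∀ a b c : ZMod 2, a ≠ 0 → b ≠ c → a + (b + c) = 0 := by decide
        exact h5 _ _ _ (hσ _ _ hxy0 hne0) hne0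
  exact key _ X h rfl

/-- **Seam theorem.** A graph with a seam in the projective plane has a colouring with four colours
in which every vertex has at most one neighbour of its own colour. -/
theorem seam_final (hub : HubMarks) [Fintype V] (M : FacialWalks G F) (hL : Link M)
    (hG : G.Connected) (hχ : (Fintype.card V : ℤ) - G.edgeSet.ncard + Fintype.card F = 1)
    {S : Set V} (hS : ∀ v ∈ S, {u | u ∈ S ∧ G.Adj v u}.ncard ≤ 1) {X : V → V → ZMod 2}
    (hX : IsSeam M S X) : ∃ c : V → Fin 4, Defective G 1 c := by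
  classical
  obtain ⟨X, h, hconn⟩ := hX.exists_conn hG
  -- the vertices of `S` which have an edge in `X`
  let S' : Set V := {s | s ∈ S ∧ ∃ y, G.Adj s y ∧ X s y ≠ 0}
  have hout : ∀ x, x ∉ S' → ∀ y, G.Adj x y → X x y ≠ 0 → x ∉ S := fun x hx y h1 h2 h3 =>
    hx ⟨h3, y, h1, h2⟩
  have hS' : ∀ v ∈ S', {u | u ∈ S' ∧ G.Adj v u}.ncard ≤ 1 := by
    intro v hv
    refine le_trans (Set.ncard_le_ncard ?_ (Set.toFinite _)) (hS v hv.1)
    rintro u ⟨h1, h2⟩
    exact ⟨h1.1, h2⟩
  have hcov : (cover G X h.symm).Connected := cover_connected hG h.odd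
  obtain ⟨M', hL', _⟩ := exists_cover M hL hG h.symm h.even h.odd
  have hχ' : (Fintype.card (V × ZMod 2) : ℤ) - (cover G X h.symm).edgeSet.ncard +
      Fintype.card (F × ZMod 2) = 2 := by
    rw [cover_euler, hχ]
    norm_num
  have hm : SphereMinor (seamPlus G X S') {x | x ≠ none} :=
    seam_minor h.symm hcov ⟨M', hL'⟩ hχ' hconn hG.nonempty fun s hs => hs.2
  obtain ⟨c, hc⟩ := hub hm le_rfl
  refine seam_colouring h.symm hS' (seamPlus G X S') (seamGraph_le_plus G X S') ?_
    (c := c) ⟨hc.1, ?_⟩
  · rintro x hx ⟨y, hy⟩ ⟨y', hy'⟩ hne h1 h2 h3 h4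
    obtain ⟨h5, h6⟩ := h.fans x (hout x hx y h1 h3) y
      (hout y hy x h1.symm (by rw [h.symm]; exact h3)) y'
      (hout y' hy' x h2.symm (by rw [h.symm]; exact h4)) (fun h => hne (Subtype.ext h)) h1 h2 h3 h4
    exact ⟨h5, h6, by rw [h.symm]; exact h6⟩
  · rintro (_ | a) ha
    · exact hc.2 none (Or.inl rfl)
    · exact hc.2 (some a) (Or.inr (Or.inr ha))

end

end Pool.Agent.W986
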