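import Pool.Agent.W986.Final2

/-!
# Seams with deleted vertices
-/

set_option autoImplicit false

open Finset

namespace Pool.Agent.W986

open Pool.Agent.DC76

/-- The graph on the vertices outside `T` and a hub `none`: the edges of `X` are deleted, the hub is
joined to the neighbours of `S`. -/
def delGraph {V : Type} (G : SimpleGraph V) (X : V → V → ZMod 2) (S T : Set V) :
    SimpleGraph (Option {v : V // v ∉ T}) where
  Adj x y := match x, y with
    | some a, some b => G.Adj a b ∧ X a b = 0 ∧ X b a = 0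
    | some a, none => ∃ s ∈ S, G.Adj a s
    | none, some b => ∃ s ∈ S, G.Adj b s
    | none, none => False
  symm := ⟨by
    rintro (_ | a) (_ | b) h
    · exact h
    · exact h
    · exact h
    · exact ⟨h.1.symm, h.2.2, h.2.1⟩⟩
  loopless := ⟨by
    rintro (_ | a) h
    · exact h
    · exact G.loopless.irrefl a.1 h.1⟩

theorem delGraph_le_plus {V : Type} (G : SimpleGraph V) (X : V → V → ZMod 2) {S T : Set V}
    (hST : S ⊆ T) : delGraph G X S T ≤ seamPlus G X T := by
  rintro (_ | a) (_ | b) h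
  · exact h
  · obtain ⟨s, hs, h1⟩ := h
    exact Or.inl ⟨s, hST hs, h1⟩
  · obtain ⟨s, hs, h1⟩ := h
    exact Or.inl ⟨s, hST hs, h1⟩
  · exact h

/-- A good colouring of `delGraph` gives a colouring of `G - D` in which the vertices next to `D`
have only `X`-neighbours of their own colour. -/
theorem del_colouring {V : Type} [Finite V] {G : SimpleGraph V} {X : V → V → ZMod 2}
    (hX : ∀ x y, X x y = X y x) {S D : Set V}
    (hS : ∀ v ∈ S, {u | u ∈ S ∧ G.Adj v u}.ncard ≤ 1)
    (hF : ∀ x, x ∉ S ∪ D → ∀ y, y ∉ S ∪ D → ∀ y', y' ∉ S ∪ D → y ≠ y' → G.Adj x y → G.Adj x y' →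
      X x y ≠ 0 → X x y' ≠ 0 → G.Adj y y' ∧ X y y' = 0)
    {c : Option {v : V // v ∉ S ∪ D} → Fin 4} (hc : Good (delGraph G X S (S ∪ D))
      {x | x = none ∨ (seamPlus G X (S ∪ D)).Adj none x} c) :
    ∃ (c : V → Fin 4) (a : Fin 4), (∀ s ∈ S, c s = a) ∧
      (∀ v, v ∉ D → {u | u ∉ D ∧ G.Adj v u ∧ c u = c v}.ncard ≤ 1) ∧
      ∀ v, v ∉ S ∪ D → ((∃ t ∈ S ∪ D, G.Adj v t) ∨ ∃ y, y ∉ S ∪ D ∧ G.Adj v y ∧ X v y ≠ 0) →
        ∀ u, u ∉ D → G.Adj v u → c u = c v → X v u ≠ 0 ∧ u ∉ S := by
  classical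
  let c' : V → Fin 4 := fun x => if h : x ∉ S ∪ D then c (some ⟨x, h⟩) else c none
  have hin : ∀ x, x ∈ S → c' x = c none := fun x hx => dif_neg (fun h => h (Or.inl hx))
  have hout : ∀ x (hx : x ∉ S ∪ D), c' x = c (some ⟨x, hx⟩) := fun x hx => dif_pos hx
  -- no monochromatic edge between `S` and its complement
  have hhub : ∀ x, x ∉ S ∪ D → ∀ s ∈ S, G.Adj x s → c' x ≠ c' s := by
    intro x hx s hs hxs
    rw [hin s hs, hout x hx]
    exact hc.2 none (Or.inl rfl) (some ⟨x, hx⟩)
      (show (delGraph G X S (S ∪ D)).Adj none (some ⟨x, hx⟩) from ⟨s, hs, hxs⟩)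
  have hcase : ∀ x, x ∉ D → x ∉ S ∪ D ∨ x ∈ S := by
    intro x hx
    by_cases h : x ∈ S
    · exact Or.inr h
    · exact Or.inl fun h1 => h1.elim h hx
  have hmark : ∀ v (hv : v ∉ S ∪ D), ((∃ t ∈ S ∪ D, G.Adj v t) ∨
      ∃ y, y ∉ S ∪ D ∧ G.Adj v y ∧ X v y ≠ 0) →
      (some ⟨v, hv⟩ : Option {v : V // v ∉ S ∪ D}) ∈
        {x | x = none ∨ (seamPlus G X (S ∪ D)).Adj none x} := by
    intro v hv h
    rcases h with h | ⟨y, h1, h2, h3⟩
    · exact Or.inr (Or.inl h)
    · exact Or.inr (Or.inr ⟨hv, y, h1, h2, h3⟩)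
  have hkey : ∀ v, v ∉ S ∪ D → ((∃ t ∈ S ∪ D, G.Adj v t) ∨
      ∃ y, y ∉ S ∪ D ∧ G.Adj v y ∧ X v y ≠ 0) →
        ∀ u, u ∉ D → G.Adj v u → c' u = c' v → X v u ≠ 0 ∧ u ∉ S := by
    intro v hv h u hu huv hcu
    rcases hcase u hu with h1 | h1
    · refine ⟨fun h0 => ?_, fun h2 => h1 (Or.inl h2)⟩
      rw [hout u h1, hout v hv] at hcu
      exact hc.2 _ (hmark v hv h) (some ⟨u, h1⟩)
        (show (delGraph G X S (S ∪ D)).Adj (some ⟨v, hv⟩) (some ⟨u, h1⟩) from
          ⟨huv, h0, by rw [hX]; exact h0⟩) hcu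
    · exact absurd hcu.symm (hhub v hv u h1 huv)
  refine ⟨c', c none, hin, ?_, hkey⟩
  intro v hv
  apply ncard_le_one_of
  rintro x ⟨hxD, hx, hcx⟩ y ⟨hyD, hy, hcy⟩
  rcases hcase v hv with hv' | hv'
  · rcases hcase x hxD with hx' | hx'
    swap
    · exact absurd hcx.symm (hhub v hv' x hx' hx)
    rcases hcase y hyD with hy' | hy'
    swap
    · exact absurd hcy.symm (hhub v hv' y hy' hy)
    by_contra hne
    by_cases h1 : X v x = 0
    · by_cases h2 : X v y = 0
      · have h3 := hc.1 (some ⟨v, hv'⟩)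
        have h4 : ({some ⟨x, hx'⟩, some ⟨y, hy'⟩} : Set (Option {v : V // v ∉ S ∪ D})) ⊆
            {u | (delGraph G X S (S ∪ D)).Adj (some ⟨v, hv'⟩) u ∧ c u = c (some ⟨v, hv'⟩)} := by
          rw [hout x hx', hout v hv'] at hcx
          rw [hout y hy', hout v hv'] at hcy
          rintro w (rfl | rfl)
          · exact ⟨⟨hx, h1, by rw [hX]; exact h1⟩, hcx⟩
          · exact ⟨⟨hy, h2, by rw [hX]; exact h2⟩, hcy⟩
        have h5 := Set.ncard_le_ncard h4 (Set.toFinite _)
        rw [Set.ncard_pair (by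
          intro h
          apply hne
          have h6 := Option.some_injective _ h
          exact congrArg Subtype.val h6)] at h5
        omega
      · exact (hkey v hv' (Or.inr ⟨y, hy', hy, h2⟩) x hxD hx hcx).1 h1
    · have h2 := (hkey v hv' (Or.inr ⟨x, hx', hx, h1⟩) y hyD hy hcy).1
      obtain ⟨h3, h4⟩ := hF v hv' x hx' y hy' hne hx hy h1 h2
      exact (hkey x hx' (Or.inr ⟨v, hv', hx.symm, by rw [hX]; exact h1⟩) y hyD h3
        (hcy.trans hcx.symm)).1 h4
  · have hx' : x ∈ S := by
      rcases hcase x hxD with h | h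
      · exact absurd hcx (hhub x h v hv' hx.symm)
      · exact h
    have hy' : y ∈ S := by
      rcases hcase y hyD with h | h
      · exact absurd hcy (hhub y h v hv' hy.symm)
      · exact h
    by_contra hne
    have h1 := hS v hv'
    have h2 : ({x, y} : Set V) ⊆ {u | u ∈ S ∧ G.Adj v u} := by
      rintro w (rfl | rfl)
      · exact ⟨hx', hx⟩
      · exact ⟨hy', hy⟩
    have h3 := Set.ncard_le_ncard h2 (Set.toFinite _)
    rw [Set.ncard_pair hne] at h3
    omega

section

variable {V : Type} [DecidableEq V] {G : SimpleGraph V} {F : Type} [Fintype F]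

/-- There is a seam inside a given one such that the graph remains connected. -/
theorem IsSeam.exists_conn_le [Fintype V] {M : FacialWalks G F} (hG : G.Connected) {S : Set V}
    {X : V → V → ZMod 2} (h : IsSeam M S X) :
    ∃ X', IsSeam M S X' ∧ (∀ x y, G.Adj x y → X' x y ≠ 0 → X x y ≠ 0) ∧
      ∀ x y, Relation.ReflTransGen (fun a b => G.Adj a b ∧ X' a b = 0) x y := by
  classical
  have key : ∀ n, ∀ X, IsSeam M S X →
      (univ.filter fun p : V × V => G.Adj p.1 p.2 ∧ X p.1 p.2 ≠ 0).card = n →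
      ∃ X', IsSeam M S X' ∧ (∀ x y, G.Adj x y → X' x y ≠ 0 → X x y ≠ 0) ∧
        ∀ x y, Relation.ReflTransGen (fun a b => G.Adj a b ∧ X' a b = 0) x y := by
    intro n
    induction n using Nat.strong_induction_on with
    | _ n ih =>
      intro X h hn
      by_cases hc : ∀ x y, Relation.ReflTransGen (fun a b => G.Adj a b ∧ X a b = 0) x y
      · exact ⟨X, h, fun _ _ _ h1 => h1, hc⟩
      push Not at hc
      obtain ⟨r, q, hrq⟩ := hc
      let σ : V → ZMod 2 := fun x =>
        if Relation.ReflTransGen (fun a b => G.Adj a b ∧ X a b = 0) r x then 1 else 0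
      have hσ : ∀ x y, G.Adj x y → σ x ≠ σ y → X x y ≠ 0 := by
        intro x y hxy hne h0
        apply hne
        have h1 : Relation.ReflTransGen (fun a b => G.Adj a b ∧ X a b = 0) r x ↔
            Relation.ReflTransGen (fun a b => G.Adj a b ∧ X a b = 0) r y := by
          constructor
          · intro h2
            exact h2.tail ⟨hxy, h0⟩
          · intro h2
            refine h2.tail ⟨hxy.symm, ?_⟩
            rw [h.symm]
            exact h0
        change (if _ then (1 : ZMod 2) else 0) = if _ then 1 else 0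
        simp only [h1]
      -- an edge which leaves the component
      have hedge : ∃ x y, G.Adj x y ∧ σ x ≠ σ y := by
        by_contra hcon
        push Not at hcon
        have h1 : ∀ u v, G.Walk u v → σ u = σ v := by
          intro u v w
          induction w with
          | nil => rfl
          | cons h w ih => exact (hcon _ _ h).trans ih
        obtain ⟨w⟩ := hG.preconnected r q
        have h2 := h1 r q w
        change (if _ then (1 : ZMod 2) else 0) = if _ then 1 else 0 at h2
        rw [if_pos Relation.ReflTransGen.refl, if_neg hrq] at h2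
        exact one_ne_zero h2
      obtain ⟨x0, y0, hxy0, hne0⟩ := hedge
      have h' := h.reduce σ hσ
      have hle : ∀ x y, G.Adj x y → X x y + (σ x + σ y) ≠ 0 → X x y ≠ 0 := by
        intro x y hxy h1 h2
        apply h1
        by_cases h3 : σ x = σ y
        · rw [h2, h3, CharTwo.add_self_eq_zero, add_zero]
        · exact absurd h2 (hσ x y hxy h3)
      obtain ⟨X', h1, h2, h3⟩ := ih _ (by
        rw [← hn]
        refine card_lt_card ⟨?_, ?_⟩
        · intro p hp
          rw [mem_filter] at hp ⊢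
          exact ⟨mem_univ _, hp.2.1, hle _ _ hp.2.1 hp.2.2⟩
        · intro hsub
          have h3 : ((x0, y0) : V × V) ∈
              univ.filter fun p : V × V => G.Adj p.1 p.2 ∧ X p.1 p.2 ≠ 0 := by
            rw [mem_filter]
            exact ⟨mem_univ _, hxy0, hσ _ _ hxy0 hne0⟩
          have h4 := (mem_filter.1 (hsub h3)).2.2
          apply h4
          have h5 : ∀ a b c : ZMod 2, a ≠ 0 → b ≠ c → a + (b + c) = 0 := by decide
          exact h5 _ _ _ (hσ _ _ hxy0 hne0) hne0) _ h' rfl
      exact ⟨X', h1, fun x y h4 h5 => hle x y h4 (h2 x y h4 h5), h3⟩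
  exact key _ X h rfl

/-- **Seam theorem with deleted vertices.** `S ∪ D` and `X` form a seam in the projective plane, and
`S` spans at most a matching. Then there are a smaller seam `X'`, `S'`, `D'` and a colouring of
`G - D'`, in which every vertex has at most one neighbour of its own colour, all the vertices of
`S'` have the same colour, and a vertex outside `S'` and `D'` which is adjacent to `S'` or `D'` or
has an edge in `X'` to a vertex outside `S'` and `D'` has only neighbours of its own colour which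
are outside `S'` and joined to it by an edge in `X'`. -/
theorem seam_del (hub : HubMarks) [Fintype V] (M : FacialWalks G F) (hL : Link M)
    (hG : G.Connected) (hχ : (Fintype.card V : ℤ) - G.edgeSet.ncard + Fintype.card F = 1)
    {S D : Set V} (hS : ∀ v ∈ S, {u | u ∈ S ∧ G.Adj v u}.ncard ≤ 1)
    {X : V → V → ZMod 2} (hX : IsSeam M (S ∪ D) X) :
    ∃ (X' : V → V → ZMod 2) (S' D' : Set V) (c : V → Fin 4) (a : Fin 4),
      IsSeam M (S' ∪ D') X' ∧ (∀ x y, G.Adj x y → X' x y ≠ 0 → X x y ≠ 0) ∧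
      S' ⊆ S ∧ D' ⊆ D ∧
      (∀ t ∈ S ∪ D, t ∉ S' ∪ D' → ∀ y, G.Adj t y → X' t y = 0) ∧
      (∀ t ∈ S' ∪ D', ∃ y, G.Adj t y ∧ X' t y ≠ 0) ∧
      (∀ s ∈ S', c s = a) ∧
      (∀ v, v ∉ D' → {u | u ∉ D' ∧ G.Adj v u ∧ c u = c v}.ncard ≤ 1) ∧
      ∀ v, v ∉ S' ∪ D' →
        ((∃ t ∈ S' ∪ D', G.Adj v t) ∨ ∃ y, y ∉ S' ∪ D' ∧ G.Adj v y ∧ X' v y ≠ 0) →
        ∀ u, u ∉ D' → G.Adj v u → c u = c v → X' v u ≠ 0 ∧ u ∉ S' := by
  classical
  obtain ⟨X, h, hle, hconn⟩ := hX.exists_conn_le hG
  let S' : Set V := {s | s ∈ S ∧ ∃ y, G.Adj s y ∧ X s y ≠ 0}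
  let D' : Set V := {s | s ∈ D ∧ ∃ y, G.Adj s y ∧ X s y ≠ 0}
  have hout : ∀ x, x ∉ S' ∪ D' → ∀ y, G.Adj x y → X x y ≠ 0 → x ∉ S ∪ D := by
    intro x hx y h1 h2 h3
    rcases h3 with h3 | h3
    · exact hx (Or.inl ⟨h3, y, h1, h2⟩)
    · exact hx (Or.inr ⟨h3, y, h1, h2⟩)
  have hT : ∀ t ∈ S' ∪ D', ∃ y, G.Adj t y ∧ X t y ≠ 0 := by
    rintro t (ht | ht)
    · exact ht.2
    · exact ht.2
  have hS' : ∀ v ∈ S', {u | u ∈ S' ∧ G.Adj v u}.ncard ≤ 1 := by
    intro v hv
    refine le_trans (Set.ncard_le_ncard ?_ (Set.toFinite _)) (hS v hv.1)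
    rintro u ⟨h1, h2⟩
    exact ⟨h1.1, h2⟩
  have hfans : ∀ x, x ∉ S' ∪ D' → ∀ y, y ∉ S' ∪ D' → ∀ y', y' ∉ S' ∪ D' → y ≠ y' → G.Adj x y →
      G.Adj x y' → X x y ≠ 0 → X x y' ≠ 0 → G.Adj y y' ∧ X y y' = 0 := by
    intro x hx y hy y' hy' hne h1 h2 h3 h4
    exact h.fans x (hout x hx y h1 h3) y (hout y hy x h1.symm (by rw [h.symm]; exact h3)) y'
      (hout y' hy' x h2.symm (by rw [h.symm]; exact h4)) hne h1 h2 h3 h4
  have hcov : (cover G X h.symm).Connected := cover_connected hG h.odd
  obtain ⟨M', hL', _⟩ := exists_cover M hL hG h.symm h.even h.odd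
  have hχ' : (Fintype.card (V × ZMod 2) : ℤ) - (cover G X h.symm).edgeSet.ncard +
      Fintype.card (F × ZMod 2) = 2 := by
    rw [cover_euler, hχ]
    norm_num
  have hm : SphereMinor (seamPlus G X (S' ∪ D')) {x | x ≠ none} :=
    seam_minor h.symm hcov ⟨M', hL'⟩ hχ' hconn hG.nonempty hT
  obtain ⟨c, hc⟩ := hub hm (delGraph_le_plus G X (S := S') (T := S' ∪ D') Set.subset_union_left)
  obtain ⟨c', a, h1, h2, h3⟩ := del_colouring h.symm (S := S') (D := D') hS' hfans hc
  refine ⟨X, S', D', c', a, ⟨h.symm, h.even, h.odd, hfans⟩, hle, fun s hs => hs.1,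
    fun s hs => hs.1, ?_, hT, h1, h2, h3⟩
  intro t ht ht' y hty
  by_contra h0
  exact hout t ht' y hty h0 ht

/-- A neighbour `v` of the deleted vertex `x` which may have a neighbour of its own colour when `x`
is coloured. -/
def Risky (G : SimpleGraph V) (X : V → V → ZMod 2) (S D : Set V) (x v : V) : Prop :=
  v ∈ D ∨ (v ∈ S ∧ ∃ s ∈ S, G.Adj v s) ∨
    (v ∉ S ∧ ∃ y, y ∉ S ∪ D ∧ G.Adj v y ∧ X v y ≠ 0) ∨ ∃ x' ∈ D, x' ≠ x ∧ G.Adj v x'

/-- **Seam theorem with deleted vertices of small degree.** -/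
theorem seam_final_del (hub : HubMarks) [Fintype V] (M : FacialWalks G F) (hL : Link M)
    (hG : G.Connected) (hχ : (Fintype.card V : ℤ) - G.edgeSet.ncard + Fintype.card F = 1)
    {S D : Set V} (hS : ∀ v ∈ S, {u | u ∈ S ∧ G.Adj v u}.ncard ≤ 1)
    {X : V → V → ZMod 2} (hX : IsSeam M (S ∪ D) X)
    (hD : ∀ x ∈ D, {v | G.Adj x v}.ncard + {v | G.Adj x v ∧ Risky G X S D x v}.ncard ≤ 7) :
    ∃ c : V → Fin 4, Defective G 1 c := by
  classical
  obtain ⟨X', S', D', c, a, h, hle, hSS, hDD, hrest, _, _, hc1, hc2⟩ :=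
    seam_del hub M hL hG hχ hS hX
  have hrest' : ∀ v u, G.Adj v u → X' v u ≠ 0 → v ∉ S' ∪ D' → v ∉ S ∪ D := by
    intro v u h1 h2 h3 h4
    exact h2 (hrest v h4 h3 u h1)
  have key : ∀ C : Finset V, (∀ x ∈ C, x ∈ D') → ∃ c2 : V → Fin 4, (∀ v, v ∉ D' → c2 v = c v) ∧
      ∀ v, (v ∉ D' ∨ v ∈ C) → {u | (u ∉ D' ∨ u ∈ C) ∧ G.Adj v u ∧ c2 u = c2 v}.ncard ≤ 1 := by
    intro C
    induction C using Finset.induction_on with
    | empty =>
      intro _
      refine ⟨c, fun _ _ => rfl, fun v hv => ?_⟩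
      have hv' : v ∉ D' := by
        rcases hv with hv | hv
        · exact hv
        · exact absurd hv (notMem_empty v)
      refine le_trans (Set.ncard_le_ncard ?_ (Set.toFinite _)) (hc1 v hv')
      rintro u ⟨h1, h2⟩
      refine ⟨?_, h2⟩
      rcases h1 with h1 | h1
      · exact h1
      · exact absurd h1 (notMem_empty u)
    | @insert x C hxC ih =>
      intro hC
      have hxD : x ∈ D' := hC x (mem_insert_self x C)
      obtain ⟨c2, h1, h2⟩ := ih fun y hy => hC y (mem_insert_of_mem hy)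
      have hCD : ∀ y ∈ C, y ∈ D' := fun y hy => hC y (mem_insert_of_mem hy)
      -- a saturated neighbour is risky
      have hrisk : ∀ v, (v ∉ D' ∨ v ∈ C) → G.Adj x v →
          (∃ u, (u ∉ D' ∨ u ∈ C) ∧ G.Adj v u ∧ c2 u = c2 v) → Risky G X S D x v := by
        rintro v hv hxv ⟨u, hu, hvu, hcu⟩
        by_cases hvD : v ∈ D
        · exact Or.inl hvD
        have hvD' : v ∉ D' := fun h => hvD (hDD h)
        by_cases huC : u ∈ C
        · exact Or.inr (Or.inr (Or.inr ⟨u, hDD (hCD u huC), fun h => hxC (h ▸ huC), hvu⟩))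
        have huD' : u ∉ D' := by
          rcases hu with hu | hu
          · exact hu
          · exact absurd hu huC
        rw [h1 u huD', h1 v hvD'] at hcu
        by_cases hvS : v ∈ S'
        · by_cases huS : u ∈ S'
          · exact Or.inr (Or.inl ⟨hSS hvS, u, hSS huS, hvu⟩)
          · have h3 : u ∉ S' ∪ D' := by
              rintro (h | h)
              · exact huS h
              · exact huD' h
            exact absurd hvS (hc2 u h3 (Or.inl ⟨v, Or.inl hvS, hvu.symm⟩) v hvD' hvu.symm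
              hcu.symm).2
        · have h3 : v ∉ S' ∪ D' := by
            rintro (h | h)
            · exact hvS h
            · exact hvD' h
          obtain ⟨h4, h5⟩ := hc2 v h3 (Or.inl ⟨x, Or.inr hxD, hxv.symm⟩) u huD' hvu hcu
          have h6 : u ∉ S' ∪ D' := by
            rintro (h | h)
            · exact h5 h
            · exact huD' h
          have h7 := hrest' v u hvu h4 h3
          have h8 := hrest' u v hvu.symm (by rw [h.symm]; exact h4) h6
          exact Or.inr (Or.inr (Or.inl ⟨fun h => h7 (Or.inl h), u, h8, hvu, hle v u hvu h4⟩))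
      -- the neighbours which are coloured
      let A : Finset V := univ.filter fun v => (v ∉ D' ∨ v ∈ C) ∧ G.Adj x v
      have hA : ∀ v, v ∈ A ↔ (v ∉ D' ∨ v ∈ C) ∧ G.Adj x v := by
        intro v
        simp only [A, mem_filter, mem_univ, true_and]
      obtain ⟨i, hi⟩ : ∃ i, (A.filter fun v => c2 v = i).card +
          ((A.filter fun v => Risky G X S D x v).filter fun v => c2 v = i).card ≤ 1 := by
        by_contra hcon
        push Not at hcon
        have h3 : A.card = ∑ i : Fin 4, (A.filter fun v => c2 v = i).card :=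
          card_eq_sum_card_fiberwise fun v _ => mem_univ (c2 v)
        have h4 : (A.filter fun v => Risky G X S D x v).card =
            ∑ i : Fin 4, ((A.filter fun v => Risky G X S D x v).filter fun v => c2 v = i).card :=
          card_eq_sum_card_fiberwise fun v _ => mem_univ (c2 v)
        have h5 : ∑ _i : Fin 4, 2 ≤ ∑ i : Fin 4, ((A.filter fun v => c2 v = i).card +
            ((A.filter fun v => Risky G X S D x v).filter fun v => c2 v = i).card) :=
          sum_le_sum fun i _ => hcon i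
        rw [sum_add_distrib, ← h3, ← h4] at h5
        have h6 : A.card ≤ {v | G.Adj x v}.ncard := by
          rw [← Set.ncard_coe_finset]
          refine Set.ncard_le_ncard ?_ (Set.toFinite _)
          intro v hv
          exact ((hA v).1 hv).2
        have h7 : (A.filter fun v => Risky G X S D x v).card ≤
            {v | G.Adj x v ∧ Risky G X S D x v}.ncard := by
          rw [← Set.ncard_coe_finset]
          refine Set.ncard_le_ncard ?_ (Set.toFinite _)
          intro v hv
          rw [mem_coe, mem_filter] at hv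
          exact ⟨((hA v).1 hv.1).2, hv.2⟩
        have h8 := hD x (hDD hxD)
        simp only [sum_const, card_univ, Fintype.card_fin, smul_eq_mul] at h5
        omega
      -- at most one neighbour has the colour `i`, and it is not saturated
      have hone : ∀ v w, v ∈ A → w ∈ A → c2 v = i → c2 w = i → v = w := by
        intro v w hv hw hcv hcw
        have h3 : (A.filter fun v => c2 v = i).card ≤ 1 := by omega
        exact card_le_one.1 h3 v (mem_filter.2 ⟨hv, hcv⟩) w (mem_filter.2 ⟨hw, hcw⟩)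
      have hfree : ∀ v, v ∈ A → c2 v = i → ∀ u, (u ∉ D' ∨ u ∈ C) → G.Adj v u → c2 u ≠ c2 v := by
        intro v hv hcv u hu hvu hcu
        have h3 : 0 < (A.filter fun v => c2 v = i).card :=
          card_pos.2 ⟨v, mem_filter.2 ⟨hv, hcv⟩⟩
        have h4 : 0 < ((A.filter fun v => Risky G X S D x v).filter fun v => c2 v = i).card :=
          card_pos.2 ⟨v, mem_filter.2 ⟨mem_filter.2 ⟨hv, hrisk v ((hA v).1 hv).1 ((hA v).1 hv).2
            ⟨u, hu, hvu, hcu⟩⟩, hcv⟩⟩
        omega
      have hins : ∀ u, (u ∉ D' ∨ u ∈ insert x C) → u ≠ x → (u ∉ D' ∨ u ∈ C) := by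
        intro u hu hux
        rcases hu with hu | hu
        · exact Or.inl hu
        · exact Or.inr (mem_of_mem_insert_of_ne hu hux)
      refine ⟨Function.update c2 x i, fun v hv => ?_, fun v hv => ?_⟩
      · rw [Function.update_of_ne (fun h => hv (by rw [h]; exact hxD)), h1 v hv]
      · apply ncard_le_one_of
        rintro p ⟨hp1, hp2, hp3⟩ q ⟨hq1, hq2, hq3⟩
        by_cases hvx : v = x
        · rw [hvx] at hp2 hq2 hp3 hq3
          rw [Function.update_self, Function.update_of_ne hp2.ne'] at hp3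
          rw [Function.update_self, Function.update_of_ne hq2.ne'] at hq3
          exact hone p q ((hA p).2 ⟨hins p hp1 hp2.ne', hp2⟩) ((hA q).2 ⟨hins q hq1 hq2.ne', hq2⟩)
            hp3 hq3
        · rw [Function.update_of_ne hvx] at hp3 hq3
          have hv' := hins v hv hvx
          by_cases hpx : p = x
          · by_cases hqx : q = x
            · rw [hpx, hqx]
            · exfalso
              rw [hpx, Function.update_self] at hp3
              rw [Function.update_of_ne hqx] at hq3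
              rw [hpx] at hp2
              exact hfree v ((hA v).2 ⟨hv', hp2.symm⟩) hp3.symm q (hins q hq1 hqx) hq2 hq3
          · by_cases hqx : q = x
            · exfalso
              rw [hqx, Function.update_self] at hq3
              rw [Function.update_of_ne hpx] at hp3
              rw [hqx] at hq2
              exact hfree v ((hA v).2 ⟨hv', hq2.symm⟩) hq3.symm p (hins p hp1 hpx) hp2 hp3
            · rw [Function.update_of_ne hpx] at hp3
              rw [Function.update_of_ne hqx] at hq3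
              have h3 := h2 v hv'
              by_contra hne
              have h4 : ({p, q} : Set V) ⊆
                  {u | (u ∉ D' ∨ u ∈ C) ∧ G.Adj v u ∧ c2 u = c2 v} := by
                rintro w (rfl | rfl)
                · exact ⟨hins w hp1 hpx, hp2, hp3⟩
                · exact ⟨hins w hq1 hqx, hq2, hq3⟩
              have h5 := Set.ncard_le_ncard h4 (Set.toFinite _)
              rw [Set.ncard_pair hne] at h5
              omega
  obtain ⟨c2, _, h2⟩ := key (univ.filter fun x => x ∈ D') fun x hx => (mem_filter.1 hx).2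
  have hall : ∀ v, v ∉ D' ∨ v ∈ (univ.filter fun x => x ∈ D' : Finset V) := by
    intro v
    by_cases hv : v ∈ D'
    · exact Or.inr (mem_filter.2 ⟨mem_univ v, hv⟩)
    · exact Or.inl hv
  refine ⟨c2, fun v => ?_⟩
  refine le_trans (Set.ncard_le_ncard ?_ (Set.toFinite _)) (h2 v (hall v))
  rintro u ⟨h3, h4⟩
  exact ⟨hall u, h3, h4⟩

end

end Pool.Agent.W986
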