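import Pool.Agent.W986.Lay

/-!
# Layered graphs on the projective plane: ties
-/

set_option autoImplicit false
set_option linter.unusedSectionVars false

open Finset

namespace Pool.Agent.W986.Lay

open Pool.Agent.DC76 Pool.Agent.W986

variable {V : Type} [Fintype V] [DecidableEq V] {G : SimpleGraph V} {F : Type} [Fintype F]
  {U : Type} [Fintype U] [DecidableEq U] {H : SimpleGraph U} {ρ : U → ℕ} {M : FacialWalks G F}
  {f : U → V} {S : Set U} {Q : (U → Fin 4) → Prop} {E : Finset (Sym2 U)} {r : ℕ}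

theorem Good.step_free (h : Good H ρ M f S Q E r) {v : U} (hv : v ∉ S) (hnl : ¬ Light H ρ v)
    (hlow : ∀ y ∈ S, H.Adj v y → ρ v < ρ y)
    (hfree : ∃ φ, Q φ ∧ ∃ c, ∀ y ∈ S, H.Adj v y → φ y ≠ c) :
    ∃ Q', Good H ρ M f (insert v S) Q' E r := by
  refine ⟨fun φ => Q φ ∧ ∀ y ∈ S, H.Adj v y → φ v ≠ φ y, ⟨?_, ?_, ?_, ?_, ?_, ?_, ?_, h.cr, ?_⟩⟩
  · obtain ⟨φ, hφ, c, hc⟩ := hfree
    refine ⟨Function.update φ v c, h.cl φ _ hφ fun a ha b hb _ => ?_, fun y hy hvy => ?_⟩
    · rw [Function.update_of_ne (by rintro rfl; exact hv ha),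
        Function.update_of_ne (by rintro rfl; exact hv hb)]
    · rw [Function.update_self, Function.update_of_ne (by rintro rfl; exact hv hy)]
      exact (hc y hy hvy).symm
  · rintro φ ψ ⟨hφ, h1⟩ h2
    refine ⟨h.cl φ ψ hφ fun x hx y hy => h2 x (Or.inr hx) y (Or.inr hy), fun y hy hvy h3 => ?_⟩
    exact h1 y hy hvy ((h2 v (Or.inl rfl) y (Or.inr hy) hvy).2 h3)
  · rintro φ ⟨hφ, h1⟩ x (rfl | hx) hl l
    · exact absurd hl hnl
    · exact h.mn φ hφ x hx hl l
  · rintro φ ⟨hφ, h1⟩ x (rfl | hx) hl l h2 h3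
    · exact absurd hl hnl
    · refine ⟨h.ex φ hφ x hx hl l h2 fun w hw => h3 w (Or.inr hw), fun y hy hvy => ?_⟩
      have hvx : v ≠ x := by
        rintro rfl
        exact hv hx
      rw [Function.update_of_ne hvx]
      by_cases hyx : y = x
      · subst hyx
        rw [Function.update_self]
        exact (h3 v (Or.inl rfl) hvy.symm (hlow y hy hvy)).2
      · rw [Function.update_of_ne hyx]
        exact h1 y hy hvy
  · rintro φ ⟨hφ, h1⟩ x (rfl | hx) y (rfl | hy) hxy h2
    · exact absurd hxy (H.irrefl)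
    · exact absurd h2 (h1 y hy hxy)
    · exact absurd h2.symm (h1 x hx hxy.symm)
    · exact h.tm φ hφ x hx y hy hxy h2
  · rintro φ ⟨hφ, h1⟩ x y hxy
    obtain ⟨h2, h3, h4⟩ := h.eS φ hφ x y hxy
    exact ⟨Or.inr h2, Or.inr h3, h4⟩
  · rintro φ ⟨hφ, h1⟩ x (rfl | hx) y (rfl | hy) z (rfl | hz) hxy hxz h2 h3
    · rfl
    · exact absurd hxy H.irrefl
    · exact absurd hxz H.irrefl
    · exact absurd h2.symm (h1 y hy hxy)
    · rfl
    · exact absurd h2 (h1 x hx hxy.symm)
    · exact absurd h3 (h1 x hx hxz.symm)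
    · exact h.mt φ hφ x hx y hy z hz hxy hxz h2 h3
  · rintro φ ⟨hφ, _⟩
    obtain ⟨D, h1, h2⟩ := h.dt φ hφ
    exact ⟨D, h1, fun s hs => (h2 s hs).mono (Set.subset_insert _ _)⟩

theorem unique_of_rainbow {N : Finset U} (hN : N.card ≤ 4) {φ : U → Fin 4}
    (h : ∀ c, ∃ y ∈ N, φ y = c) : ∀ y ∈ N, ∀ y' ∈ N, φ y = φ y' → y = y' := by
  have h1 : N.image φ = univ := by
    ext c
    simp only [mem_image, mem_univ, iff_true]
    exact h c
  have h2 : (N.image φ).card = N.card := by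
    have h3 : (N.image φ).card = 4 := by
      rw [h1]
      rfl
    have h4 := card_image_le (s := N) (f := φ)
    omega
  exact fun y hy y' hy' h3 => card_image_iff.1 h2 hy hy' h3

theorem link (h : Good H ρ M f S Q E r) {N : Finset U} (hNS : ∀ y ∈ N, y ∈ S) (hN : N.card ≤ 4)
    (hr : ∀ φ, Q φ → ∀ c, ∃ y ∈ N, φ y = c) {φ : U → Fin 4} (hφ : Q φ) (x : Fin 4 → U)
    (hx : ∀ i, x i ∈ N) (hxφ : ∀ i, φ (x i) = i) (i j : Fin 4) (hij : i ≠ j) :
    Relation.ReflTransGen (fun a b => (b ∈ S ∧ (φ b = i ∨ φ b = j)) ∧ H.Adj a b) (x i) (x j) := by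
  classical
  by_contra hcon
  let X : Set U := {y | Relation.ReflTransGen
    (fun a b => (b ∈ S ∧ (φ b = i ∨ φ b = j)) ∧ H.Adj a b) (x i) y}
  have hX : ∀ y ∈ X, y ∈ S ∧ (φ y = i ∨ φ y = j) := by
    intro y hy
    rcases Relation.ReflTransGen.cases_tail hy with h1 | ⟨c, _, h1⟩
    · rw [h1]
      exact ⟨hNS _ (hx i), Or.inl (hxφ i)⟩
    · exact h1.1
  have hstep : ∀ a ∈ X, ∀ b ∈ S, H.Adj a b → (φ b = i ∨ φ b = j) → b ∈ X := by
    intro a ha b hb hab h1
    exact Relation.ReflTransGen.tail ha ⟨⟨hb, h1⟩, hab⟩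
  let ψ : U → Fin 4 := fun y => if y ∈ X then Equiv.swap i j (φ y) else φ y
  have hψX : ∀ y, y ∈ X → ψ y = Equiv.swap i j (φ y) := fun y hy => if_pos hy
  have hψn : ∀ y, y ∉ X → ψ y = φ y := fun y hy => if_neg hy
  have hsw : ∀ c : Fin 4, (c = i ∨ c = j) → (Equiv.swap i j c = i ∨ Equiv.swap i j c = j) := by
    rintro c (rfl | rfl)
    · exact Or.inr (Equiv.swap_apply_left _ _)
    · exact Or.inl (Equiv.swap_apply_right _ _)
  have hψ : Q ψ := by
    refine h.cl φ ψ hφ fun a ha b hb hab => ?_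
    by_cases h1 : a ∈ X <;> by_cases h2 : b ∈ X
    · rw [hψX a h1, hψX b h2]
      exact (Equiv.swap i j).injective.eq_iff.symm
    · rw [hψX a h1, hψn b h2]
      have h3 : ¬ (φ b = i ∨ φ b = j) := fun h3 => h2 (hstep a h1 b hb hab h3)
      constructor
      · intro h4
        exact absurd (h4 ▸ (hX a h1).2) h3
      · intro h4
        exact absurd (h4 ▸ hsw _ (hX a h1).2) h3
    · rw [hψn a h1, hψX b h2]
      have h3 : ¬ (φ a = i ∨ φ a = j) := fun h3 => h1 (hstep b h2 a ha hab.symm h3)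
      constructor
      · intro h4
        exact absurd (h4.symm ▸ (hX b h2).2) h3
      · intro h4
        exact absurd (h4.symm ▸ hsw _ (hX b h2).2) h3
    · rw [hψn a h1, hψn b h2]
  have huniq := unique_of_rainbow hN (hr φ hφ)
  obtain ⟨y, hyN, hy⟩ := hr ψ hψ i
  by_cases h1 : y ∈ X
  · rw [hψX y h1] at hy
    rcases (hX y h1).2 with h2 | h2
    · rw [h2, Equiv.swap_apply_left] at hy
      exact hij hy.symm
    · have h3 : y = x j := huniq y hyN _ (hx j) (by rw [h2, hxφ])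
      rw [h3] at h1
      exact hcon h1
  · rw [hψn y h1] at hy
    have h3 : y = x i := huniq y hyN _ (hx i) (by rw [hy, hxφ])
    rw [h3] at h1
    exact h1 Relation.ReflTransGen.refl

theorem Good.step_rigid (hf : Function.Injective f)
    (hHG : ∀ x y, H.Adj x y → G.Adj (f x) (f y)) (hG : Conn G Set.univ) (hL : Link M)
    (hχ : (1 : ℤ) ≤ (Fintype.card V : ℤ) - G.edgeSet.ncard + Fintype.card F)
    (h : Good H ρ M f S Q E r) {v : U} (hv : v ∉ S) (hnl : ¬ Light H ρ v) (N : Finset U)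
    (hN : ∀ y, y ∈ N ↔ y ∈ S ∧ H.Adj v y) (hNc : N.card = 4) (hlow : ∀ y ∈ N, ρ v < ρ y)
    (B : Finset U) (hB : B.card ≤ 1) (hsafe : ∀ y ∈ N, y ∉ B → Safe H ρ y)
    (hr : ∀ φ, Q φ → ∀ c, ∃ y ∈ N, φ y = c) :
    ∃ Q' E' r', Good H ρ M f (insert v S) Q' E' r' := by
  classical
  have huniq : ∀ φ, Q φ → ∀ y ∈ N, ∀ y' ∈ N, φ y = φ y' → y = y' := fun φ hφ =>
    unique_of_rainbow hNc.le (hr φ hφ)
  have hvN : v ∉ N := fun h1 => hv ((hN v).1 h1).1
  have hcross : ∀ φ, Q φ → ∃ s, ¬ Det M f S φ s ∧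
      ∀ ψ : U → Fin 4, (∀ y ∈ S, ψ y = φ y) → Det M f (insert v S) ψ s := by
    intro φ hφ
    choose x hx hxφ using hr φ hφ
    exact cross f hf hHG hG hL hχ hv x (fun i => ((hN _).1 (hx i)).1)
      (fun i => ((hN _).1 (hx i)).2) hxφ
      (fun i j hij => link h (fun y hy => ((hN y).1 hy).1) hNc.le hr hφ x hx hxφ i j hij)
  obtain ⟨φ0, hφ0⟩ := h.ne
  have hr2 : r ≤ 2 := by
    obtain ⟨s, hs, _⟩ := hcross φ0 hφ0
    obtain ⟨D, hD1, hD2⟩ := h.dt φ0 hφ0
    have h1 : D ⊆ univ.erase s := by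
      intro s' hs'
      refine mem_erase.2 ⟨?_, mem_univ _⟩
      rintro rfl
      exact hs (hD2 _ hs')
    have h2 := card_le_card h1
    rw [card_erase_of_mem (mem_univ s), card_univ, Fintype.card_fin] at h2
    omega
  -- covered neighbours
  have hcov : (N.filter fun y => ∃ e ∈ E, y ∈ e).card ≤ E.card := by
    have h1 : ∀ y, y ∈ N.filter (fun y => ∃ e ∈ E, y ∈ e) → ∃ e, e ∈ E ∧ y ∈ e := fun y hy =>
      (mem_filter.1 hy).2
    choose g hg1 hg2 using h1
    refine card_le_card_of_injOn (fun y => if hy : y ∈ N.filter (fun y => ∃ e ∈ E, y ∈ e) then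
      g y hy else s(v, v)) ?_ ?_
    · intro y hy
      have hy' : y ∈ N.filter (fun y => ∃ e ∈ E, y ∈ e) := hy
      simp only [hy', dif_pos]
      exact hg1 y hy'
    · intro y hy y' hy' hyy
      have h3 : y ∈ N.filter (fun y => ∃ e ∈ E, y ∈ e) := hy
      have h4 : y' ∈ N.filter (fun y => ∃ e ∈ E, y ∈ e) := hy'
      simp only [h3, h4, dif_pos] at hyy
      by_contra hne
      have h5 : g y h3 = s(y, y') :=
        ((Sym2.mem_and_mem_iff hne).1 ⟨hg2 y h3, by rw [hyy]; exact hg2 y' h4⟩)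
      have h6 : s(y, y') ∈ E := h5 ▸ hg1 y h3
      exact hne (huniq φ0 hφ0 y (mem_filter.1 h3).1 y' (mem_filter.1 h4).1 (h.eS φ0 hφ0 y y' h6).2.2)
  obtain ⟨x0, hx0N, hx0B, hx0E⟩ : ∃ x0 ∈ N, x0 ∉ B ∧ ∀ e ∈ E, x0 ∉ e := by
    by_contra hcon
    push Not at hcon
    have h1 : N ⊆ B ∪ N.filter (fun y => ∃ e ∈ E, y ∈ e) := by
      intro y hy
      by_cases hyB : y ∈ B
      · exact mem_union_left _ hyB
      · exact mem_union_right _ (mem_filter.2 ⟨hy, hcon y hy hyB⟩)
    have h2 := card_le_card h1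
    have h3 := card_union_le B (N.filter (fun y => ∃ e ∈ E, y ∈ e))
    have h4 := h.cr
    omega
  obtain ⟨hx0S, hvx0⟩ := (hN x0).1 hx0N
  have hnm : ∀ φ, Q φ → ∀ y ∈ S, H.Adj x0 y → φ y ≠ φ x0 := by
    intro φ' hφ' y hy hxy hcol'
    have hxv : x0 ≠ v := by
      rintro rfl
      exact hv hx0S
    have hyv : y ≠ v := by
      rintro rfl
      exact hv hy
    -- give `v` the colour of `x0`
    obtain ⟨φ, hφ, hφv, hcol⟩ : ∃ φ, Q φ ∧ φ v = φ x0 ∧ φ y = φ x0 := by
      refine ⟨Function.update φ' v (φ' x0), h.cl φ' _ hφ' fun a ha b hb _ => ?_, ?_, ?_⟩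
      · rw [Function.update_of_ne (by rintro rfl; exact hv ha),
          Function.update_of_ne (by rintro rfl; exact hv hb)]
      · rw [Function.update_self, Function.update_of_ne hxv]
      · rw [Function.update_of_ne hyv, Function.update_of_ne hxv, hcol']
    have hρ : ρ y = ρ x0 := by
      rcases h.tm φ hφ x0 hx0S y hy hxy hcol.symm with h1 | h1
      · exact h1.symm
      · exact absurd (Sym2.mem_mk_left x0 y) (hx0E _ h1)
    have hns : 1 ≤ ns H ρ x0 := card_pos.2 ⟨y, by simp [sm, hxy, hρ]⟩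
    have hsf : 2 * nu H ρ x0 + ns H ρ x0 + nl H ρ x0 ≤ 7 := by
      rcases hsafe x0 hx0N hx0B with h1 | h1
      · omega
      · exact h1
    have hlt : Light H ρ x0 := by
      unfold Light
      omega
    have hmn := h.mn φ hφ x0 hx0S hlt
    have hown1 := own_le_one hlt hmn
    have hown2 : 1 ≤ own H ρ φ x0 (φ x0) := by
      have h1 := cnt_pos (p := sm H ρ x0) (φ := φ) (l := φ x0) (w := y) ⟨hxy, hρ⟩ hcol
      unfold own
      omega
    have hlo : 1 ≤ cnt (lo H ρ x0) φ (φ x0) :=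
      cnt_pos (p := lo H ρ x0) (w := v) ⟨hvx0.symm, hlow x0 hx0N⟩ hφv
    have hsum : ∑ l, (own H ρ φ x0 l + cnt (lo H ρ x0) φ l) ≤ 7 := by
      rw [sum_add_distrib, sum_own, sum_cnt]
      exact hsf
    obtain ⟨l, hl⟩ : ∃ l, own H ρ φ x0 l + cnt (lo H ρ x0) φ l ≤ 1 := by
      by_contra hcon
      push Not at hcon
      have h1 : ∑ _l : Fin 4, 2 ≤ ∑ l, (own H ρ φ x0 l + cnt (lo H ρ x0) φ l) :=
        sum_le_sum fun l _ => hcon l
      simp only [sum_const, card_univ, Fintype.card_fin, smul_eq_mul] at h1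
      omega
    have hla : l ≠ φ x0 := by
      rintro rfl
      omega
    have hml := hmn l
    have hQ := h.ex φ hφ x0 hx0S hlt l (by omega) (fun w hw hxw hρw => by
      refine ⟨fun h1 => ?_, cnt_zero (p := lo H ρ x0) (by omega) ⟨hxw, hρw⟩⟩
      rcases h.tm φ hφ x0 hx0S w hw hxw h1.symm with h2 | h2
      · omega
      · exact hx0E _ h2 (Sym2.mem_mk_left x0 w))
    obtain ⟨y', hy'N, hy'⟩ := hr _ hQ (φ x0)
    by_cases h1 : y' = x0
    · rw [h1, Function.update_self] at hy'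
      exact hla hy'
    · rw [Function.update_of_ne h1] at hy'
      exact h1 (huniq φ hφ y' hy'N x0 hx0N hy')
  have hlow' : ∀ y ∈ S, H.Adj v y → ρ v < ρ y := fun y hy hvy => hlow y ((hN y).2 ⟨hy, hvy⟩)
  refine ⟨fun φ => Q φ ∧ ∀ y ∈ S, H.Adj v y → (φ v = φ y ↔ y = x0), insert s(v, x0) E, r + 1,
    ⟨?_, ?_, ?_, ?_, ?_, ?_, ?_, ?_, ?_⟩⟩
  · refine ⟨Function.update φ0 v (φ0 x0), h.cl φ0 _ hφ0 fun a ha b hb _ => ?_,
      fun y hy hvy => ?_⟩
    · rw [Function.update_of_ne (by rintro rfl; exact hv ha),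
        Function.update_of_ne (by rintro rfl; exact hv hb)]
    · rw [Function.update_self, Function.update_of_ne (by rintro rfl; exact hv hy)]
      constructor
      · intro h1
        exact huniq φ0 hφ0 y ((hN y).2 ⟨hy, hvy⟩) x0 hx0N h1.symm
      · rintro rfl
        rfl
  · rintro φ ψ ⟨hφ, h1⟩ h2
    refine ⟨h.cl φ ψ hφ fun x hx y hy => h2 x (Or.inr hx) y (Or.inr hy), fun y hy hvy => ?_⟩
    rw [← h2 v (Or.inl rfl) y (Or.inr hy) hvy]
    exact h1 y hy hvy
  · rintro φ ⟨hφ, h1⟩ x (rfl | hx) hl l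
    · exact absurd hl hnl
    · exact h.mn φ hφ x hx hl l
  · rintro φ ⟨hφ, h1⟩ x (rfl | hx) hl l h2 h3
    · exact absurd hl hnl
    · refine ⟨h.ex φ hφ x hx hl l h2 fun w hw => h3 w (Or.inr hw), fun y hy hvy => ?_⟩
      have hvx : v ≠ x := by
        rintro rfl
        exact hv hx
      rw [Function.update_of_ne hvx]
      by_cases hyx : y = x
      · subst hyx
        rw [Function.update_self]
        obtain ⟨h4, h5⟩ := h3 v (Or.inl rfl) hvy.symm (hlow' y hy hvy)
        constructor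
        · intro h6
          exact absurd h6 h5
        · intro h6
          exact absurd ((h1 y hy hvy).2 h6) h4
      · rw [Function.update_of_ne hyx]
        exact h1 y hy hvy
  · rintro φ ⟨hφ, h1⟩ x (rfl | hx) y (rfl | hy) hxy h2
    · exact absurd hxy H.irrefl
    · rw [(h1 y hy hxy).1 h2]
      exact Or.inr (mem_insert_self _ _)
    · rw [(h1 x hx hxy.symm).1 h2.symm, Sym2.eq_swap]
      exact Or.inr (mem_insert_self _ _)
    · rcases h.tm φ hφ x hx y hy hxy h2 with h3 | h3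
      · exact Or.inl h3
      · exact Or.inr (mem_insert_of_mem h3)
  · rintro φ ⟨hφ, h1⟩ x y hxy
    rcases mem_insert.1 hxy with h2 | h2
    · rcases Sym2.eq_iff.1 h2 with ⟨rfl, rfl⟩ | ⟨rfl, rfl⟩
      · exact ⟨Or.inl rfl, Or.inr hx0S, (h1 y hx0S hvx0).2 rfl⟩
      · exact ⟨Or.inr hx0S, Or.inl rfl, ((h1 x hx0S hvx0).2 rfl).symm⟩
    · obtain ⟨h3, h4, h5⟩ := h.eS φ hφ x y h2
      exact ⟨Or.inr h3, Or.inr h4, h5⟩
  · rintro φ ⟨hφ, h1⟩ x (rfl | hx) y (rfl | hy) z (rfl | hz) hxy hxz h2 h3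
    · rfl
    · exact absurd hxy H.irrefl
    · exact absurd hxz H.irrefl
    · rw [(h1 y hy hxy).1 h2.symm, (h1 z hz hxz).1 h3.symm]
    · rfl
    · have h4 := (h1 x hx hxy.symm).1 h2
      subst h4
      exact absurd h3 (hnm φ hφ z hz hxz)
    · have h4 := (h1 x hx hxz.symm).1 h3
      subst h4
      exact absurd h2 (hnm φ hφ y hy hxy)
    · exact h.mt φ hφ x hx y hy z hz hxy hxz h2 h3
  · have h1 := card_insert_le s(v, x0) E
    have h2 := h.cr
    omega
  · rintro φ ⟨hφ, _⟩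
    obtain ⟨D, h1, h2⟩ := h.dt φ hφ
    obtain ⟨s, hs1, hs2⟩ := hcross φ hφ
    refine ⟨insert s D, ?_, fun s' hs' => ?_⟩
    · rw [card_insert_of_notMem fun h3 => hs1 (h2 s h3)]
      omega
    · rcases mem_insert.1 hs' with rfl | h3
      · exact hs2 φ fun _ _ => rfl
      · exact (h2 s' h3).mono (Set.subset_insert _ _)

theorem layers (hf : Function.Injective f)
    (hHG : ∀ x y, H.Adj x y → G.Adj (f x) (f y)) (hG : Conn G Set.univ) (hL : Link M)
    (hχ : (1 : ℤ) ≤ (Fintype.card V : ℤ) - G.edgeSet.ncard + Fintype.card F)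
    (hyp : ∀ v, Light H ρ v ∨ (nu H ρ v = 4 ∧ ns H ρ v = 0 ∧
      ∃ B : Finset U, B.card ≤ 1 ∧ ∀ w, up H ρ v w → w ∉ B → Safe H ρ w)) :
    ∃ c : U → Fin 4, Defective H 1 c := by
  classical
  have hns : ∀ v, ns H ρ v = 0 → ∀ w, H.Adj v w → ρ w ≠ ρ v := by
    intro v h1 w hvw h2
    have h3 : 0 < ns H ρ v := card_pos.2 ⟨w, by simp [sm, hvw, h2]⟩
    omega
  have key : ∀ k t, (∀ v, ρ v < t + k) → ∃ Q E r, Good H ρ M f {y | t ≤ ρ y} Q E r := by
    intro k
    induction k with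
    | zero =>
      intro t ht
      refine ⟨fun _ => True, ∅, 0, ?_⟩
      have h1 : {y : U | t ≤ ρ y} = ∅ := by
        ext y
        simp only [Set.mem_ofPred_eq, Set.mem_empty_iff_false, iff_false]
        have := ht y
        omega
      rw [h1]
      exact good_empty M f
    | succ k ih =>
      intro t ht
      obtain ⟨Q, E, r, hg⟩ := ih (t + 1) (fun v => by have := ht v; omega)
      obtain ⟨Q1, hg1⟩ := hg.step_class (t := t) (fun y => by
        simp only [Set.mem_ofPred_eq]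
        omega) (univ.filter fun x => ρ x = t ∧ Light H ρ x) (fun x hx => (mem_filter.1 hx).2.1)
        (fun x hx w hxw hw => by
          refine mem_filter.2 ⟨mem_univ _, hw, ?_⟩
          rcases hyp w with h1 | h1
          · exact h1
          · exact absurd ((mem_filter.1 hx).2.1.trans hw.symm) (hns w h1.2.1 x hxw.symm))
        (fun x hx => (mem_filter.1 hx).2.2)
      have hT : ∀ T : Finset U, T ⊆ univ.filter (fun x => ρ x = t ∧ ¬ Light H ρ x) →
          ∃ Q E r, Good H ρ M f (({y | t + 1 ≤ ρ y} ∪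
            ↑(univ.filter fun x => ρ x = t ∧ Light H ρ x)) ∪ (T : Set U)) Q E r := by
        intro T
        induction T using Finset.induction_on with
        | empty =>
          intro _
          refine ⟨Q1, E, r, ?_⟩
          rw [coe_empty, Set.union_empty]
          exact hg1
        | insert v T hvT ihT =>
          intro hTs
          obtain ⟨Q2, E2, r2, hg2⟩ := ihT fun x hx => hTs (mem_insert_of_mem hx)
          have hvt := (mem_filter.1 (hTs (mem_insert_self v T))).2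
          have hins : (({y | t + 1 ≤ ρ y} ∪
              ↑(univ.filter fun x => ρ x = t ∧ Light H ρ x)) ∪ ((insert v T : Finset U) : Set U)) =
              insert v (({y | t + 1 ≤ ρ y} ∪
              ↑(univ.filter fun x => ρ x = t ∧ Light H ρ x)) ∪ (T : Set U)) := by
            rw [coe_insert, Set.union_insert]
          rw [hins]
          have hge : ∀ y ∈ (({y | t + 1 ≤ ρ y} ∪
              ↑(univ.filter fun x => ρ x = t ∧ Light H ρ x)) ∪ (T : Set U)), t ≤ ρ y := by
            rintro y ((hy | hy) | hy)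
            · have h1 : t + 1 ≤ ρ y := hy
              omega
            · exact (mem_filter.1 hy).2.1.ge
            · exact (mem_filter.1 (hTs (mem_insert_of_mem hy))).2.1.ge
          have hvS : v ∉ (({y | t + 1 ≤ ρ y} ∪
              ↑(univ.filter fun x => ρ x = t ∧ Light H ρ x)) ∪ (T : Set U)) := by
            rintro ((hy | hy) | hy)
            · have h1 : t + 1 ≤ ρ v := hy
              omega
            · exact hvt.2 (mem_filter.1 hy).2.2
            · exact hvT hy
          rcases hyp v with h1 | ⟨h1, h2, B, hB, hBs⟩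
          · exact absurd h1 hvt.2
          have hlow : ∀ y ∈ (({y | t + 1 ≤ ρ y} ∪
              ↑(univ.filter fun x => ρ x = t ∧ Light H ρ x)) ∪ (T : Set U)), H.Adj v y →
              ρ v < ρ y := by
            intro y hy hvy
            have h3 := hge y hy
            have h4 := hns v h2 y hvy
            omega
          by_cases hfree : ∃ φ, Q2 φ ∧ ∃ c, ∀ y ∈ (({y | t + 1 ≤ ρ y} ∪
              ↑(univ.filter fun x => ρ x = t ∧ Light H ρ x)) ∪ (T : Set U)), H.Adj v y → φ y ≠ c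
          · obtain ⟨Q3, hg3⟩ := hg2.step_free hvS hvt.2 hlow hfree
            exact ⟨Q3, E2, r2, hg3⟩
          · push Not at hfree
            have hN : ∀ y, y ∈ (univ.filter fun w => up H ρ v w) ↔ y ∈ (({y | t + 1 ≤ ρ y} ∪
                ↑(univ.filter fun x => ρ x = t ∧ Light H ρ x)) ∪ (T : Set U)) ∧ H.Adj v y := by
              intro y
              simp only [mem_filter, mem_univ, true_and]
              constructor
              · intro h3
                refine ⟨Or.inl (Or.inl ?_), h3.1⟩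
                have h4 := h3.2
                change t + 1 ≤ ρ y
                omega
              · intro h3
                exact ⟨h3.2, hlow y h3.1 h3.2⟩
            refine hg2.step_rigid hf hHG hG hL hχ hvS hvt.2 (univ.filter fun w => up H ρ v w) hN h1
              (fun y hy => (mem_filter.1 hy).2.2) B hB (fun y hy => hBs y (mem_filter.1 hy).2)
              (fun φ hφ c => ?_)
            obtain ⟨y, hy, hvy, hyc⟩ := hfree φ hφ c
            exact ⟨y, (hN y).2 ⟨hy, hvy⟩, hyc⟩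
      obtain ⟨Q3, E3, r3, hg3⟩ := hT _ (subset_refl _)
      refine ⟨Q3, E3, r3, ?_⟩
      have hset : {y : U | t ≤ ρ y} = (({y | t + 1 ≤ ρ y} ∪
          ↑(univ.filter fun x => ρ x = t ∧ Light H ρ x)) ∪
          ((univ.filter (fun x => ρ x = t ∧ ¬ Light H ρ x) : Finset U) : Set U)) := by
        ext y
        simp only [Set.mem_ofPred_eq, Set.mem_union, coe_filter, mem_univ, true_and]
        by_cases hy : Light H ρ y
        · simp only [hy, and_true, not_true_eq_false, and_false, or_false]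
          omega
        · simp only [hy, and_false, or_false, not_false_eq_true, and_true]
          omega
      rw [hset]
      exact hg3
  obtain ⟨Q, E, r, hg⟩ := key (univ.sup ρ + 1) 0 (fun v => by
    have := le_sup (f := ρ) (mem_univ v)
    omega)
  obtain ⟨φ, hφ⟩ := hg.ne
  refine ⟨φ, fun v => ?_⟩
  rw [Set.ncard_le_one (Set.toFinite _)]
  rintro x ⟨hvx, hx⟩ y ⟨hvy, hy⟩
  exact hg.mt φ hφ v (Nat.zero_le _) x (Nat.zero_le _) y (Nat.zero_le _) hvx hvy hx hy

end Pool.Agent.W986.Lay
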