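import Pool.Agent.W986.Defs

/-!
# Layered graphs with owned hosts

A graph with a layering in which every vertex `v` has `2 u + s ≤ 7 + p`, where `u` and `s` are the
numbers of its neighbours in higher layers and in its own layer and `p` is the number of higher
neighbours owned by `v`, is `(4,1)`-colourable if the owners of each vertex are pairwise adjacent
and joined to the vertices which may share its colour from above.
-/

set_option autoImplicit false

open Finset

namespace Pool.Agent.W986.PGL

open Pool.Agent.DC76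

section energy

variable {V : Type} [Fintype V] [DecidableEq V] {C : Type} [DecidableEq C]

/-- the energy of a colouring -/
def quad (A : V → V → ℤ) (φ : V → C) : ℤ := ∑ x, ∑ y, if φ x = φ y then A x y else 0

theorem quad_split (A : V → V → ℤ) (hs : ∀ x y, A x y = A y x) (hd : ∀ x, A x x = 0)
    (φ : V → C) (v : V) :
    quad A φ = 2 * (∑ x ∈ univ.erase v, if φ x = φ v then A v x else 0) +
      ∑ x ∈ univ.erase v, ∑ y ∈ univ.erase v, if φ x = φ y then A x y else 0 := by
  unfold quad
  rw [← add_sum_erase univ _ (mem_univ v)]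
  have h1 : (∑ y, if φ v = φ y then A v y else 0) =
      ∑ x ∈ univ.erase v, if φ x = φ v then A v x else 0 := by
    rw [← add_sum_erase univ _ (mem_univ v), hd, ite_self, zero_add]
    exact sum_congr rfl fun x _ => by simp only [eq_comm]
  have h2 : ∀ x ∈ univ.erase v, (∑ y, if φ x = φ y then A x y else 0) =
      (if φ x = φ v then A v x else 0) +
        ∑ y ∈ univ.erase v, if φ x = φ y then A x y else 0 := by
    intro x _
    rw [← add_sum_erase univ _ (mem_univ v), hs x v]
  rw [h1, sum_congr rfl h2, sum_add_distrib]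
  ring

theorem quad_update (A : V → V → ℤ) (hs : ∀ x y, A x y = A y x) (hd : ∀ x, A x x = 0)
    (φ : V → C) (v : V) (l : C) :
    quad A (Function.update φ v l) + 2 * (∑ x, if φ x = φ v then A v x else 0) =
      quad A φ + 2 * (∑ x, if φ x = l then A v x else 0) := by
  have h0 : ∀ c : C, (∑ x, if φ x = c then A v x else 0) =
      ∑ x ∈ univ.erase v, if φ x = c then A v x else 0 := by
    intro c
    rw [← add_sum_erase univ _ (mem_univ v), hd, ite_self, zero_add]
  rw [h0, h0, quad_split A hs hd φ v, quad_split A hs hd (Function.update φ v l) v]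
  have h1 : (∑ x ∈ univ.erase v,
      if Function.update φ v l x = Function.update φ v l v then A v x else 0) =
      ∑ x ∈ univ.erase v, if φ x = l then A v x else 0 := by
    refine sum_congr rfl fun x hx => ?_
    rw [Function.update_of_ne (ne_of_mem_erase hx), Function.update_self]
  have h2 : (∑ x ∈ univ.erase v, ∑ y ∈ univ.erase v,
      if Function.update φ v l x = Function.update φ v l y then A x y else 0) =
      ∑ x ∈ univ.erase v, ∑ y ∈ univ.erase v, if φ x = φ y then A x y else 0 := by
    refine sum_congr rfl fun x hx => sum_congr rfl fun y hy => ?_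
    rw [Function.update_of_ne (ne_of_mem_erase hx), Function.update_of_ne (ne_of_mem_erase hy)]
  rw [h1, h2]
  ring

/-- A colouring in which no vertex can lower its cost towards its own and the higher layers. -/
theorem exists_stable [Finite C] [Nonempty C] (lam : V → ℕ) (A : V → V → ℤ)
    (hs : ∀ x y, A x y = A y x) (hd : ∀ x, A x x = 0) :
    ∃ φ : V → C, ∀ v l,
      (∑ x, if φ x = φ v then (if lam v ≤ lam x then A v x else 0) else 0) ≤
        ∑ x, if φ x = l then (if lam v ≤ lam x then A v x else 0) else 0 := by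
  classical
  have key : ∀ m : ℕ, ∃ φ : V → C, ∀ v, (univ.sup lam + 1) ≤ lam v + m → ∀ l,
      (∑ x, if φ x = φ v then (if lam v ≤ lam x then A v x else 0) else 0) ≤
        ∑ x, if φ x = l then (if lam v ≤ lam x then A v x else 0) else 0 := by
    intro m
    induction m with
    | zero =>
      obtain ⟨c⟩ := ‹Nonempty C›
      refine ⟨fun _ => c, fun v hv => ?_⟩
      have := le_sup (f := lam) (mem_univ v)
      omega
    | succ m ih =>
      obtain ⟨φ₀, h₀⟩ := ih
      set k := univ.sup lam - m with hk
      by_cases hm : m ≤ univ.sup lam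
      swap
      · refine ⟨φ₀, fun v hv l => h₀ v (by omega) l⟩
      let B : V → V → ℤ := fun x y => if min (lam x) (lam y) = k then A x y else 0
      have hBs : ∀ x y, B x y = B y x := fun x y => by
        simp only [B, min_comm (lam x), hs x y]
      have hBd : ∀ x, B x x = 0 := fun x => by simp only [B, hd, ite_self]
      have := Fintype.ofFinite C
      obtain ⟨φ, hφ, hmin⟩ := exists_min_image
        (univ.filter fun ψ : V → C => ∀ x, k < lam x → ψ x = φ₀ x) (fun ψ => quad B ψ)
        ⟨φ₀, by simp⟩
      simp only [mem_filter, mem_univ, true_and] at hφ hmin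
      refine ⟨φ, fun v hv l => ?_⟩
      by_cases hvk : k < lam v
      · have h1 := h₀ v (by omega) l
        have h2 : ∀ c : C, (∑ x, if φ x = c then (if lam v ≤ lam x then A v x else 0) else 0) =
            ∑ x, if φ₀ x = c then (if lam v ≤ lam x then A v x else 0) else 0 := by
          intro c
          refine sum_congr rfl fun x _ => ?_
          by_cases hx : lam v ≤ lam x
          · rw [hφ x (by omega)]
          · simp [hx]
        rw [h2, h2, hφ v hvk]
        exact h1
      · have hvk' : lam v = k := by omega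
        have h1 := hmin (Function.update φ v l) (fun x hx => by
          rw [Function.update_of_ne]
          · exact hφ x hx
          · rintro rfl
            exact hvk hx)
        have h2 := quad_update B hBs hBd φ v l
        have h3 : ∀ c : C, (∑ x, if φ x = c then (if lam v ≤ lam x then A v x else 0) else 0) =
            ∑ x, if φ x = c then B v x else 0 := by
          intro c
          refine sum_congr rfl fun x _ => ?_
          have hB : B v x = if lam v ≤ lam x then A v x else 0 := by
            simp only [B]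
            by_cases hx : lam v ≤ lam x
            · rw [if_pos hx, if_pos (by rw [min_eq_left hx, hvk'])]
            · rw [if_neg hx, if_neg (by rw [min_eq_right (by omega)]; omega)]
          rw [hB]
        rw [h3, h3]
        linarith
  obtain ⟨φ, h⟩ := key (univ.sup lam + 1)
  exact ⟨φ, fun v l => h v (by omega) l⟩

end energy

section main

variable {V : Type} [Fintype V] (G : SimpleGraph V)

open Classical in
/-- the higher neighbours of colour `l` with the property `p` -/
noncomputable def cn (p : V → Prop) (φ : V → Fin 4) (l : Fin 4) : ℕ := #{x | p x ∧ φ x = l}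

theorem sum_cn (p : V → Prop) [DecidablePred p] (φ : V → Fin 4) :
    cn p φ 0 + cn p φ 1 + cn p φ 2 + cn p φ 3 = #{x | p x} := by
  classical
  have h : #{x | p x} = ∑ l, cn p φ l := by
    rw [card_eq_sum_card_fiberwise (f := φ) (t := univ) (fun _ _ => by simp)]
    refine sum_congr rfl fun l _ => ?_
    unfold cn
    rw [filter_filter]
    congr 1
    ext x
    simp
  rw [h, Fin.sum_univ_four]

theorem cn_pos {p : V → Prop} {φ : V → Fin 4} {l : Fin 4} {x : V} (h1 : p x) (h2 : φ x = l) :
    1 ≤ cn p φ l := by
  classical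
  exact card_pos.2 ⟨x, by simp [h1, h2]⟩

theorem cn_two {p : V → Prop} {φ : V → Fin 4} {l : Fin 4} {x y : V} (h1 : p x) (h2 : φ x = l)
    (h3 : p y) (h4 : φ y = l) (h5 : x ≠ y) : 2 ≤ cn p φ l := by
  classical
  unfold cn
  rw [← card_pair h5]
  refine card_le_card fun z hz => ?_
  rcases mem_insert.1 hz with rfl | hz
  · simp [h1, h2]
  · rw [mem_singleton.1 hz]
    simp [h3, h4]

theorem cn_le {p : V → Prop} {φ : V → Fin 4} {l : Fin 4} : cn p φ l ≤ Fintype.card V := by
  classical
  exact card_le_univ _

theorem cn_mono {p q : V → Prop} (h : ∀ x, p x → q x) {φ : V → Fin 4} {l : Fin 4} :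
    cn p φ l ≤ cn q φ l := by
  classical
  unfold cn
  refine card_le_card fun z hz => ?_
  simp only [mem_filter, mem_univ, true_and] at hz ⊢
  exact ⟨h z hz.1, hz.2⟩

/-- the arithmetic of one vertex: four colours `0..3`, costs `2 U + S`, discounts `P` -/
theorem arith {U S P : Fin 4 → ℕ} {D : ℕ} {i : Fin 4} (hPU : ∀ l, P l ≤ U l)
    (hD : ∀ l, P l < D)
    (hst : ∀ l, (D : ℤ) * (2 * U i + S i) - P i ≤ (D : ℤ) * (2 * U l + S l) - P l)
    (hsum : 2 * (U 0 + U 1 + U 2 + U 3) + (S 0 + S 1 + S 2 + S 3) ≤ 7 + (P 0 + P 1 + P 2 + P 3)) :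
    U i + S i ≤ 1 ∧ P i = U i ∧
      (1 ≤ U i + S i → 4 ≤ (U 0 + U 1 + U 2 + U 3) + (S 0 + S 1 + S 2 + S 3)) := by
  have h1 : ∀ l, 2 * U i + S i ≤ 2 * U l + S l := by
    intro l
    by_contra hcon
    have h2 : 2 * (U l : ℤ) + S l + 1 ≤ 2 * U i + S i := by
      have : 2 * U l + S l + 1 ≤ 2 * U i + S i := by omega
      exact_mod_cast this
    have h3 := hst l
    have h4 := hD i
    have h5 : (0 : ℤ) ≤ D := by positivity
    have h6 : (P i : ℤ) < D := by exact_mod_cast h4
    have h7 : (0 : ℤ) ≤ P l := by positivity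
    nlinarith [mul_le_mul_of_nonneg_left h2 h5]
  have h2 : ∀ l, 2 * U i + S i = 2 * U l + S l → P l ≤ P i := by
    intro l hl
    have h3 := hst l
    have h4 : 2 * (U i : ℤ) + S i = 2 * U l + S l := by exact_mod_cast hl
    rw [h4] at h3
    have : (P l : ℤ) ≤ P i := by linarith
    exact_mod_cast this
  have ci := hPU i
  by_cases hr : 2 * U i + S i ≤ 1
  · refine ⟨by omega, by omega, fun h => ?_⟩
    have a0 := h1 0
    have a1 := h1 1
    have a2 := h1 2
    have a3 := h1 3
    omega
  · have h3 : ∃ l, 2 * U l + S l ≤ 1 + P l := by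
      by_contra hcon
      push Not at hcon
      have a0 := hcon 0
      have a1 := hcon 1
      have a2 := hcon 2
      have a3 := hcon 3
      omega
    obtain ⟨l, hl⟩ := h3
    have h4 := h1 l
    have h5 := hPU l
    have h6 : 2 * U i + S i = 2 * U l + S l := by omega
    have h7 := h2 l h6
    refine ⟨by omega, by omega, fun h => ?_⟩
    have a0 := h1 0
    have a1 := h1 1
    have a2 := h1 2
    have a3 := h1 3
    omega

open Classical in
/-- Layered graphs with owned hosts (`PGL+`). -/
theorem pgl_plus (lam : V → ℕ) (Own : V → V → Prop)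
    (hown : ∀ v x, Own v x → G.Adj v x ∧ lam v < lam x)
    (hcount : ∀ v, 2 * #{x | G.Adj v x ∧ lam v < lam x} + #{x | G.Adj v x ∧ lam x = lam v} ≤
      7 + #{x | Own v x})
    (hclique : ∀ v w x, Own v x → Own w x → v ≠ w → G.Adj v w)
    (hnear : ∀ v x, Own v x →
      4 ≤ #{y | G.Adj x y ∧ lam x < lam y} + #{y | G.Adj x y ∧ lam y = lam x} →
      ∀ y, (G.Adj x y ∧ lam y = lam x ∨ Own x y) → G.Adj v y) :
    ∃ c : V → Fin 4, Defective G 1 c := by
  set D : ℕ := Fintype.card V + 1 with hDdef
  let W : V → V → ℤ := fun v x => if G.Adj v x then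
      (if lam v < lam x then 2 * (D : ℤ) - (if Own v x then 1 else 0)
       else if lam x < lam v then 2 * (D : ℤ) - (if Own x v then 1 else 0) else (D : ℤ)) else 0
  have hWs : ∀ x y, W x y = W y x := by
    intro x y
    simp only [W, G.adj_comm x y]
    by_cases h1 : lam x < lam y
    · rw [if_pos h1, if_neg (by omega : ¬ lam y < lam x), if_pos h1]
    · by_cases h2 : lam y < lam x
      · rw [if_neg h1, if_pos h2, if_pos h2]
      · rw [if_neg h1, if_neg h2, if_neg h2, if_neg h1]
  have hWd : ∀ x, W x x = 0 := fun x => by simp [W]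
  obtain ⟨φ, hφ⟩ := exists_stable (C := Fin 4) lam W hWs hWd
  -- costs in terms of numbers of neighbours
  have hcost : ∀ v l, (∑ x, if φ x = l then (if lam v ≤ lam x then W v x else 0) else 0) =
      (D : ℤ) * (2 * cn (fun x => G.Adj v x ∧ lam v < lam x) φ l +
        cn (fun x => G.Adj v x ∧ lam x = lam v) φ l) - cn (fun x => Own v x) φ l := by
    intro v l
    unfold cn
    simp only [card_filter]
    push_cast
    rw [mul_add, ← mul_assoc, mul_sum, mul_sum, ← sum_add_distrib, ← sum_sub_distrib]
    refine sum_congr rfl fun x _ => ?_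
    simp only [W]
    by_cases h1 : φ x = l
    · simp only [h1, and_true, if_true]
      by_cases h2 : G.Adj v x
      · simp only [h2, true_and, if_true]
        rcases lt_trichotomy (lam v) (lam x) with h3 | h3 | h3
        · rw [if_pos h3.le, if_pos h3, if_pos h3, if_neg (by omega : ¬ lam x = lam v)]
          ring
        · have h4 : ¬ Own v x := fun h => by have := (hown v x h).2; omega
          rw [if_pos h3.le, if_neg (by omega : ¬ lam v < lam x),
            if_neg (by omega : ¬ lam x < lam v), if_pos h3.symm, if_neg h4,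
            if_neg (by omega : ¬ lam v < lam x)]
          ring
        · have h4 : ¬ Own v x := fun h => by have := (hown v x h).2; omega
          rw [if_neg (by omega : ¬ lam v ≤ lam x), if_neg (by omega : ¬ lam v < lam x),
            if_neg (by omega : ¬ lam x = lam v), if_neg h4]
          ring
      · have h4 : ¬ Own v x := fun h => h2 (hown v x h).1
        simp [h2, h4]
    · simp [h1]
  have hF : ∀ v,
      cn (fun x => G.Adj v x ∧ lam v < lam x) φ (φ v) +
        cn (fun x => G.Adj v x ∧ lam x = lam v) φ (φ v) ≤ 1 ∧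
      cn (fun x => Own v x) φ (φ v) = cn (fun x => G.Adj v x ∧ lam v < lam x) φ (φ v) ∧
      (1 ≤ cn (fun x => G.Adj v x ∧ lam v < lam x) φ (φ v) +
        cn (fun x => G.Adj v x ∧ lam x = lam v) φ (φ v) →
        4 ≤ #{x | G.Adj v x ∧ lam v < lam x} + #{x | G.Adj v x ∧ lam x = lam v}) := by
    intro v
    have h1 := arith (U := cn (fun x => G.Adj v x ∧ lam v < lam x) φ)
      (S := cn (fun x => G.Adj v x ∧ lam x = lam v) φ) (P := cn (fun x => Own v x) φ)
      (D := D) (i := φ v) (fun l => cn_mono fun x hx => hown v x hx)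
      (fun l => Nat.lt_succ_of_le cn_le)
      (fun l => by rw [← hcost, ← hcost]; exact hφ v l)
      (by rw [sum_cn, sum_cn, sum_cn]; exact hcount v)
    rw [sum_cn, sum_cn] at h1
    exact h1
  have F1 : ∀ v x y, G.Adj v x → G.Adj v y → lam v ≤ lam x → lam v ≤ lam y → φ x = φ v →
      φ y = φ v → x = y := by
    intro v x y h1 h2 h3 h4 h5 h6
    by_contra hxy
    have h7 := (hF v).1
    rcases h3.lt_or_eq with h3 | h3
    · rcases h4.lt_or_eq with h4 | h4
      · have := cn_two (p := fun x => G.Adj v x ∧ lam v < lam x) ⟨h1, h3⟩ h5 ⟨h2, h4⟩ h6 hxy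
        omega
      · have h8 := cn_pos (p := fun x => G.Adj v x ∧ lam v < lam x) ⟨h1, h3⟩ h5
        have h9 := cn_pos (p := fun x => G.Adj v x ∧ lam x = lam v) ⟨h2, h4.symm⟩ h6
        omega
    · rcases h4.lt_or_eq with h4 | h4
      · have h8 := cn_pos (p := fun x => G.Adj v x ∧ lam v < lam x) ⟨h2, h4⟩ h6
        have h9 := cn_pos (p := fun x => G.Adj v x ∧ lam x = lam v) ⟨h1, h3.symm⟩ h5
        omega
      · have := cn_two (p := fun x => G.Adj v x ∧ lam x = lam v) ⟨h1, h3.symm⟩ h5
          ⟨h2, h4.symm⟩ h6 hxy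
        omega
  have F2 : ∀ v x, G.Adj v x → lam v < lam x → φ x = φ v → Own v x := by
    intro v x h1 h2 h3
    have h4 := cn_pos (p := fun x => G.Adj v x ∧ lam v < lam x) ⟨h1, h2⟩ h3
    have h5 := (hF v).2.1
    have h6 : 0 < cn (fun x => Own v x) φ (φ v) := by omega
    obtain ⟨y, hy⟩ := card_pos.1 h6
    simp only [mem_filter, mem_univ, true_and] at hy
    have h7 := hown v y hy.1
    have h8 := F1 v x y h1 h7.1 h2.le h7.2.le h3 hy.2
    rw [h8]
    exact hy.1
  have F3 : ∀ v x, G.Adj v x → lam v ≤ lam x → φ x = φ v →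
      4 ≤ #{x | G.Adj v x ∧ lam v < lam x} + #{x | G.Adj v x ∧ lam x = lam v} := by
    intro v x h1 h2 h3
    refine (hF v).2.2 ?_
    rcases h2.lt_or_eq with h2 | h2
    · have := cn_pos (p := fun x => G.Adj v x ∧ lam v < lam x) ⟨h1, h2⟩ h3
      omega
    · have := cn_pos (p := fun x => G.Adj v x ∧ lam x = lam v) ⟨h1, h2.symm⟩ h3
      omega
  -- no vertex has two mates
  have low2 : ∀ x z z', G.Adj x z → G.Adj x z' → z ≠ z' → φ z = φ x → φ z' = φ x →
      lam z < lam x → lam z' < lam x → lam z ≤ lam z' → False := by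
    intro x z z' h1 h2 h3 h4 h5 h6 h7 h8
    have h9 := F2 z x h1.symm h6 h4.symm
    have h10 := F2 z' x h2.symm h7 h5.symm
    have h11 := hclique z z' x h9 h10 h3
    have h12 := F1 z x z' h1.symm h11 h6.le h8 h4.symm (h5.trans h4.symm)
    exact h2.ne h12
  have low1 : ∀ x z z', G.Adj x z → G.Adj x z' → z ≠ z' → φ z = φ x → φ z' = φ x →
      lam x ≤ lam z → lam z' < lam x → False := by
    intro x z z' h1 h2 h3 h4 h5 h6 h7
    have h8 := F2 z' x h2.symm h7 h5.symm
    have h9 := F3 x z h1 h6 h4
    have h10 : G.Adj z' z := by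
      refine hnear z' x h8 h9 z ?_
      rcases h6.lt_or_eq with h6 | h6
      · exact Or.inr (F2 x z h1 h6 h4)
      · exact Or.inl ⟨h1, h6.symm⟩
    have h12 := F1 z' x z h2.symm h10 h7.le (by omega) h5.symm (h4.trans h5.symm)
    exact h1.ne h12
  have two : ∀ x z z', G.Adj x z → G.Adj x z' → φ z = φ x → φ z' = φ x → z = z' := by
    intro x z z' h1 h2 h4 h5
    by_contra h3
    by_cases h6 : lam x ≤ lam z
    · by_cases h7 : lam x ≤ lam z'
      · exact h3 (F1 x z z' h1 h2 h6 h7 h4 h5)
      · exact low1 x z z' h1 h2 h3 h4 h5 h6 (by omega)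
    · by_cases h7 : lam x ≤ lam z'
      · exact low1 x z' z h2 h1 (Ne.symm h3) h5 h4 h7 (by omega)
      · rcases le_total (lam z) (lam z') with h8 | h8
        · exact low2 x z z' h1 h2 h3 h4 h5 (by omega) (by omega) h8
        · exact low2 x z' z h2 h1 (Ne.symm h3) h5 h4 (by omega) (by omega) h8
  refine ⟨φ, fun x => ?_⟩
  rw [Set.ncard_le_one_iff_subsingleton]
  intro z hz z' hz'
  exact two x z z' hz.1 hz'.1 hz.2 hz'.2

end main

end Pool.Agent.W986.PGL
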