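import Pool.Agent.W986.Pot
import Pool.Agent.W986.C2Basic
import Pool.Agent.W986.PGL
import Pool.Agent.W986.Lay2

/-!
# Colourings of graphs with an elimination order of degree five
-/

set_option autoImplicit false
set_option linter.unusedSectionVars false

open Finset

namespace Pool.Agent.W986.Five

open Pool.Agent.DC76 Pool.Agent.W986 Pool.Agent.W986.Lay

/-- `Built H S T`: the vertices of `S` can be placed one after the other (or, for a set `L` without
earlier neighbours, together), such that every vertex has at most five earlier neighbours, and a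
vertex with five has a private host among them; `T` contains the vertices which may get a mate. -/
inductive Built {U : Type} [DecidableEq U] (H : SimpleGraph U) : Finset U → Finset U → Prop
  | nil : Built H ∅ ∅
  | four {S T : Finset U} (v : U) : Built H S T → v ∉ S → C2.nb H S v ≤ 4 →
      Built H (insert v S) T
  | five {S T : Finset U} (v y : U) : Built H S T → v ∉ S → C2.nb H S v ≤ 5 → y ∈ S →
      H.Adj v y → y ∉ T → Built H (insert v S) (insert v (insert y T))
  | cls {S T : Finset U} (L : Finset U) : Built H S T → Disjoint L S →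
      (∀ v ∈ L, ∀ w ∈ S, ¬ H.Adj v w) → (∀ v ∈ L, C2.nb H L v ≤ 7) → Built H (S ∪ L) (T ∪ L)

section pat

variable {U : Type} {H : SimpleGraph U} {S : Set U}

/-- The two colourings have the same monochromatic edges inside `S`. -/
def Pat (H : SimpleGraph U) (S : Set U) (φ ψ : U → Fin 4) : Prop :=
  ∀ x ∈ S, ∀ y ∈ S, H.Adj x y → (φ x = φ y ↔ ψ x = ψ y)

theorem Pat.refl (φ : U → Fin 4) : Pat H S φ φ := fun _ _ _ _ _ => Iff.rfl

theorem Pat.trans {φ ψ χ : U → Fin 4} (h1 : Pat H S φ ψ) (h2 : Pat H S ψ χ) : Pat H S φ χ :=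
  fun x hx y hy hxy => (h1 x hx y hy hxy).trans (h2 x hx y hy hxy)

theorem Pat.mono {S' : Set U} (h : S ⊆ S') {φ ψ : U → Fin 4} (h1 : Pat H S' φ ψ) : Pat H S φ ψ :=
  fun x hx y hy hxy => h1 x (h hx) y (h hy) hxy

theorem Pat.of_eq {φ ψ : U → Fin 4} (h : ∀ x ∈ S, φ x = ψ x) : Pat H S φ ψ :=
  fun x hx y hy _ => by rw [h x hx, h y hy]

/-- Kempe changes link a rainbow set which stays rainbow. -/
theorem link [Fintype U] [DecidableEq U] {N : Finset U} (hNS : ∀ y ∈ N, y ∈ S) (hN : N.card ≤ 4)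
    {φ0 : U → Fin 4} (hr : ∀ φ, Pat H S φ0 φ → ∀ c, ∃ y ∈ N, φ y = c) {φ : U → Fin 4}
    (hφ : Pat H S φ0 φ) (x : Fin 4 → U) (hx : ∀ i, x i ∈ N) (hxφ : ∀ i, φ (x i) = i)
    (i j : Fin 4) (hij : i ≠ j) :
    Relation.ReflTransGen (fun a b => (b ∈ S ∧ (φ b = i ∨ φ b = j)) ∧ H.Adj a b) (x i) (x j) := by
  classical
  by_contra hcon
  let X : Set U := {y | Relation.ReflTransGen
    (fun a b => (b ∈ S ∧ (φ b = i ∨ φ b = j)) ∧ H.Adj a b) (x i) y}
  have hX : ∀ y ∈ X, y ∈ S ∧ (φ y = i ∨ φ y = j) := by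
    intro y hy
    rcases Relation.ReflTransGen.cases_tail hy with h1 | ⟨c, _, h1⟩
    · rw [h1]
      exact ⟨hNS _ (hx i), Or.inl (hxφ i)⟩
    · exact h1.1
  have hstep : ∀ a ∈ X, ∀ b ∈ S, H.Adj a b → (φ b = i ∨ φ b = j) → b ∈ X := by
    intro a ha b hb hab h1
    exact Relation.ReflTransGen.tail ha ⟨⟨hb, h1⟩, hab⟩
  let ψ : U → Fin 4 := fun y => if y ∈ X then Equiv.swap i j (φ y) else φ y
  have hψX : ∀ y, y ∈ X → ψ y = Equiv.swap i j (φ y) := fun y hy => if_pos hy
  have hψn : ∀ y, y ∉ X → ψ y = φ y := fun y hy => if_neg hy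
  have hsw : ∀ c : Fin 4, (c = i ∨ c = j) → (Equiv.swap i j c = i ∨ Equiv.swap i j c = j) := by
    rintro c (rfl | rfl)
    · exact Or.inr (Equiv.swap_apply_left _ _)
    · exact Or.inl (Equiv.swap_apply_right _ _)
  have hψ : Pat H S φ0 ψ := by
    refine hφ.trans fun a ha b hb hab => ?_
    by_cases h1 : a ∈ X <;> by_cases h2 : b ∈ X
    · rw [hψX a h1, hψX b h2]
      exact (Equiv.swap i j).injective.eq_iff.symm
    · rw [hψX a h1, hψn b h2]
      have h3 : ¬ (φ b = i ∨ φ b = j) := fun h3 => h2 (hstep a h1 b hb hab h3)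
      constructor
      · intro h4
        exact absurd (h4 ▸ (hX a h1).2) h3
      · intro h4
        exact absurd (h4 ▸ hsw _ (hX a h1).2) h3
    · rw [hψn a h1, hψX b h2]
      have h3 : ¬ (φ a = i ∨ φ a = j) := fun h3 => h1 (hstep b h2 a ha hab.symm h3)
      constructor
      · intro h4
        exact absurd (h4.symm ▸ (hX b h2).2) h3
      · intro h4
        exact absurd (h4.symm ▸ hsw _ (hX b h2).2) h3
    · rw [hψn a h1, hψn b h2]
  have huniq := unique_of_rainbow hN (hr φ hφ)
  obtain ⟨y, hyN, hy⟩ := hr ψ hψ i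
  by_cases h1 : y ∈ X
  · rw [hψX y h1] at hy
    rcases (hX y h1).2 with h2 | h2
    · rw [h2, Equiv.swap_apply_left] at hy
      exact hij hy.symm
    · have h3 : y = x j := huniq y hyN _ (hx j) (by rw [h2, hxφ])
      rw [h3] at h1
      exact hcon h1
  · rw [hψn y h1] at hy
    have h3 : y = x i := huniq y hyN _ (hx i) (by rw [hy, hxφ])
    rw [h3] at h1
    exact h1 Relation.ReflTransGen.refl

end pat

section lovasz

variable {U : Type} [Fintype U] [DecidableEq U] (H : SimpleGraph U)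

/-- Lovász: four colours with at most one mate for degrees at most seven. -/
theorem lovasz (L : Finset U) (h : ∀ v ∈ L, C2.nb H L v ≤ 7) :
    ∃ φ : U → Fin 4, ∀ x ∈ L, ∀ y ∈ L, ∀ z ∈ L, H.Adj x y → H.Adj x z → φ y = φ x → φ z = φ x →
      y = z := by
  classical
  obtain ⟨φ, hφ⟩ := PGL.exists_stable (C := Fin 4) (fun _ : U => 0)
    (fun x y => if H.Adj x y ∧ x ∈ L ∧ y ∈ L then (1 : ℤ) else 0)
    (fun x y => by simp only [H.adj_comm x y, and_comm])
    (fun x => by simp)
  refine ⟨φ, fun x hx y hy z hz hxy hxz h1 h2 => ?_⟩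
  by_contra hne
  have key : ∀ c : Fin 4, (∑ w, if φ w = c then (if (0 : ℕ) ≤ 0 then
      (if H.Adj x w ∧ x ∈ L ∧ w ∈ L then (1 : ℤ) else 0) else 0) else 0) =
      ((L.filter fun w => H.Adj x w ∧ φ w = c).card : ℤ) := by
    intro c
    rw [Finset.card_filter, Nat.cast_sum, ← Finset.sum_filter_add_sum_filter_not univ (· ∈ L)]
    have h3 : ∑ w ∈ univ.filter (fun w => ¬ w ∈ L), (if φ w = c then (if (0 : ℕ) ≤ 0 then
      (if H.Adj x w ∧ x ∈ L ∧ w ∈ L then (1 : ℤ) else 0) else 0) else 0) = 0 := by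
      refine Finset.sum_eq_zero fun w hw => ?_
      rw [mem_filter] at hw
      simp [hw.2]
    rw [h3, add_zero]
    have h4 : univ.filter (fun w => w ∈ L) = L := by
      ext w
      simp
    rw [h4]
    refine Finset.sum_congr rfl fun w hw => ?_
    by_cases h5 : φ w = c <;> by_cases h6 : H.Adj x w <;> simp [h5, h6, hx, hw]
  have h3 : ∀ l, (L.filter fun w => H.Adj x w ∧ φ w = φ x).card ≤
      (L.filter fun w => H.Adj x w ∧ φ w = l).card := by
    intro l
    have h4 := hφ x l
    rw [key, key] at h4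
    exact_mod_cast h4
  have h4 : ∑ l : Fin 4, (L.filter fun w => H.Adj x w ∧ φ w = l).card = C2.nb H L x := by
    unfold C2.nb
    rw [card_eq_sum_card_fiberwise (f := φ) (t := univ) (fun _ _ => by simp)]
    refine sum_congr rfl fun l _ => ?_
    rw [filter_filter]
  have h5 := h x hx
  have h6 : 2 ≤ (L.filter fun w => H.Adj x w ∧ φ w = φ x).card := by
    rw [← card_pair hne]
    refine card_le_card fun w hw => ?_
    rcases mem_insert.1 hw with rfl | hw
    · simp [hy, hxy, h1]
    · rw [mem_singleton.1 hw]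
      simp [hz, hxz, h2]
  rw [Fin.sum_univ_four] at h4
  have a0 := h3 0
  have a1 := h3 1
  have a2 := h3 2
  have a3 := h3 3
  omega

end lovasz

section state

variable {V : Type} [Fintype V] [DecidableEq V] {G : SimpleGraph V} {F : Type} [Fintype F]
  {U : Type} [Fintype U] [DecidableEq U]

/-- The state of the colouring of `S`: the monochromatic edges outside `E` are a matching inside
`T`. -/
structure St (H : SimpleGraph U) (M : FacialWalks G F) (f : U → V) (S T : Finset U)
    (E : Finset (Sym2 U)) (φ : U → Fin 4) : Prop where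
  inT : ∀ x ∈ S, ∀ y ∈ S, H.Adj x y → φ x = φ y → s(x, y) ∉ E → x ∈ T
  mat : ∀ x ∈ S, ∀ y ∈ S, ∀ z ∈ S, H.Adj x y → H.Adj x z → φ y = φ x → φ z = φ x →
    s(x, y) ∉ E → s(x, z) ∉ E → y = z
  eS : ∀ x y, s(x, y) ∈ E → x ∈ S ∧ y ∈ S ∧ H.Adj x y ∧ φ x = φ y
  dj : E.card ≤ 3 → ∀ x y z, s(x, y) ∈ E → s(x, z) ∈ E → y = z
  dt : ∀ ψ, Pat H S φ ψ → E.card ≤ pot M f S ψ

variable {H : SimpleGraph U} {M : FacialWalks G F} {f : U → V} {S T : Finset U}
  {E : Finset (Sym2 U)} {φ : U → Fin 4}

theorem St.pat (h : St H M f S T E φ) {ψ : U → Fin 4} (hp : Pat H S φ ψ) : St H M f S T E ψ where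
  inT := fun x hx y hy hxy h1 h2 => h.inT x hx y hy hxy ((hp x hx y hy hxy).2 h1) h2
  mat := fun x hx y hy z hz hxy hxz h1 h2 h3 h4 =>
    h.mat x hx y hy z hz hxy hxz ((hp x hx y hy hxy).2 h1.symm).symm
      ((hp x hx z hz hxz).2 h2.symm).symm h3 h4
  eS := fun x y hxy => by
    obtain ⟨h1, h2, h3, h4⟩ := h.eS x y hxy
    exact ⟨h1, h2, h3, (hp x h1 y h2 h3).1 h4⟩
  dj := h.dj
  dt := fun χ hχ => h.dt χ (hp.trans hχ)

theorem St.mono (h : St H M f S T E φ) {T' : Finset U} (hT : T ⊆ T') : St H M f S T' E φ :=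
  { h with inT := fun x hx y hy hxy h1 h2 => hT (h.inT x hx y hy hxy h1 h2) }

theorem update_eq {v : U} (hv : v ∉ S) (φ : U → Fin 4) (c : Fin 4) :
    ∀ x ∈ S, Function.update φ v c x = φ x := fun x hx =>
  Function.update_of_ne (by rintro rfl; exact hv hx) _ _

/-- A new vertex whose colour occurs at most at the host. -/
theorem St.step_host (h : St H M f S T E φ) {v y0 : U} (hv : v ∉ S) (c : Fin 4)
    (hc : ∀ y ∈ S, H.Adj v y → φ y = c → y = y0) (hy0 : y0 ∉ T) :
    St H M f (insert v S) (insert v (insert y0 T)) E (Function.update φ v c) := by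
  have hu := update_eq hv φ c
  have hvv : Function.update φ v c v = c := Function.update_self _ _ _
  refine ⟨?_, ?_, ?_, h.dj, ?_⟩
  · intro x hx y hy hxy h1 h2
    replace hx := mem_insert.1 hx
    rcases hx with rfl | hx
    · exact mem_insert_self _ _
    · replace hy := mem_insert.1 hy
      rcases hy with rfl | hy
      · rw [hu x hx, hvv] at h1
        rw [hc x hx hxy.symm h1]
        exact mem_insert_of_mem (mem_insert_self _ _)
      · rw [hu x hx, hu y hy] at h1
        exact mem_insert_of_mem (mem_insert_of_mem (h.inT x hx y hy hxy h1 h2))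
  · intro x hx y hy z hz hxy hxz h1 h2 h3 h4
    replace hx := mem_insert.1 hx
    rcases hx with rfl | hx
    · replace hy := mem_insert.1 hy
      rcases hy with rfl | hy
      · exact absurd hxy H.irrefl
      · replace hz := mem_insert.1 hz
        rcases hz with rfl | hz
        · exact absurd hxz H.irrefl
        · rw [hu y hy, hvv] at h1
          rw [hu z hz, hvv] at h2
          rw [hc y hy hxy h1, hc z hz hxz h2]
    · replace hy := mem_insert.1 hy
      rcases hy with rfl | hy
      · replace hz := mem_insert.1 hz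
        rcases hz with rfl | hz
        · rfl
        · rw [hvv, hu x hx] at h1
          rw [hu z hz, hu x hx] at h2
          have h5 := hc x hx hxy.symm h1.symm
          exact absurd (h.inT x hx z hz hxz h2.symm h4) (h5 ▸ hy0)
      · replace hz := mem_insert.1 hz
        rcases hz with rfl | hz
        · rw [hvv, hu x hx] at h2
          rw [hu y hy, hu x hx] at h1
          have h5 := hc x hx hxz.symm h2.symm
          exact absurd (h.inT x hx y hy hxy h1.symm h3) (h5 ▸ hy0)
        · rw [hu y hy, hu x hx] at h1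
          rw [hu z hz, hu x hx] at h2
          exact h.mat x hx y hy z hz hxy hxz h1 h2 h3 h4
  · intro x y hxy
    obtain ⟨h1, h2, h3, h4⟩ := h.eS x y hxy
    exact ⟨mem_insert_of_mem h1, mem_insert_of_mem h2, h3, by rw [hu x h1, hu y h2, h4]⟩
  · intro ψ hψ
    have h1 : Pat H S φ ψ := (Pat.of_eq fun x hx => (hu x hx).symm).trans
      (hψ.mono (by rw [coe_insert]; exact Set.subset_insert _ _))
    refine (h.dt ψ h1).trans (pot_mono ?_)
    rw [coe_insert]
    exact Set.subset_insert _ _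

/-- A new vertex with a free colour. -/
theorem St.step_free (h : St H M f S T E φ) {v : U} (hv : v ∉ S) (c : Fin 4)
    (hc : ∀ y ∈ S, H.Adj v y → φ y ≠ c) :
    St H M f (insert v S) T E (Function.update φ v c) := by
  have hu := update_eq hv φ c
  have hvv : Function.update φ v c v = c := Function.update_self _ _ _
  refine ⟨?_, ?_, ?_, h.dj, ?_⟩
  · intro x hx y hy hxy h1 h2
    replace hx := mem_insert.1 hx
    rcases hx with rfl | hx
    · replace hy := mem_insert.1 hy
      rcases hy with rfl | hy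
      · exact absurd hxy H.irrefl
      · rw [hvv, hu y hy] at h1
        exact absurd h1.symm (hc y hy hxy)
    · replace hy := mem_insert.1 hy
      rcases hy with rfl | hy
      · rw [hu x hx, hvv] at h1
        exact absurd h1 (hc x hx hxy.symm)
      · rw [hu x hx, hu y hy] at h1
        exact h.inT x hx y hy hxy h1 h2
  · intro x hx y hy z hz hxy hxz h1 h2 h3 h4
    replace hx := mem_insert.1 hx
    rcases hx with rfl | hx
    · replace hy := mem_insert.1 hy
      rcases hy with rfl | hy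
      · exact absurd hxy H.irrefl
      · rw [hvv, hu y hy] at h1
        exact absurd h1 (hc y hy hxy)
    · replace hy := mem_insert.1 hy
      rcases hy with rfl | hy
      · rw [hvv, hu x hx] at h1
        exact absurd h1.symm (hc x hx hxy.symm)
      · replace hz := mem_insert.1 hz
        rcases hz with rfl | hz
        · rw [hvv, hu x hx] at h2
          exact absurd h2.symm (hc x hx hxz.symm)
        · rw [hu y hy, hu x hx] at h1
          rw [hu z hz, hu x hx] at h2
          exact h.mat x hx y hy z hz hxy hxz h1 h2 h3 h4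
  · intro x y hxy
    obtain ⟨h1, h2, h3, h4⟩ := h.eS x y hxy
    exact ⟨mem_insert_of_mem h1, mem_insert_of_mem h2, h3, by rw [hu x h1, hu y h2, h4]⟩
  · intro ψ hψ
    have h1 : Pat H S φ ψ := (Pat.of_eq fun x hx => (hu x hx).symm).trans
      (hψ.mono (by rw [coe_insert]; exact Set.subset_insert _ _))
    refine (h.dt ψ h1).trans (pot_mono ?_)
    rw [coe_insert]
    exact Set.subset_insert _ _

/-- A set of vertices without earlier neighbours, of degrees at most seven. -/
theorem St.step_cls (h : St H M f S T E φ) (L : Finset U) (hL : Disjoint L S)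
    (hLS : ∀ v ∈ L, ∀ w ∈ S, ¬ H.Adj v w) (h7 : ∀ v ∈ L, C2.nb H L v ≤ 7) :
    ∃ ψ, St H M f (S ∪ L) (T ∪ L) E ψ := by
  obtain ⟨χ, hχ⟩ := lovasz H L h7
  let ψ : U → Fin 4 := fun x => if x ∈ L then χ x else φ x
  have hψL : ∀ x ∈ L, ψ x = χ x := fun x hx => if_pos hx
  have hψS : ∀ x ∈ S, ψ x = φ x := fun x hx => if_neg fun h1 => disjoint_left.1 hL h1 hx
  refine ⟨ψ, ?_, ?_, ?_, h.dj, ?_⟩
  · intro x hx y hy hxy h1 h2
    rcases mem_union.1 hx with hx | hx
    · rcases mem_union.1 hy with hy | hy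
      · rw [hψS x hx, hψS y hy] at h1
        exact mem_union_left _ (h.inT x hx y hy hxy h1 h2)
      · exact absurd hxy.symm (hLS y hy x hx)
    · exact mem_union_right _ hx
  · intro x hx y hy z hz hxy hxz h1 h2 h3 h4
    rcases mem_union.1 hx with hx | hx
    · have hyS : y ∈ S := (mem_union.1 hy).resolve_right fun h5 => hLS y h5 x hx hxy.symm
      have hzS : z ∈ S := (mem_union.1 hz).resolve_right fun h5 => hLS z h5 x hx hxz.symm
      rw [hψS x hx, hψS y hyS] at h1
      rw [hψS x hx, hψS z hzS] at h2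
      exact h.mat x hx y hyS z hzS hxy hxz h1 h2 h3 h4
    · have hyL : y ∈ L := (mem_union.1 hy).resolve_left fun h5 => hLS x hx y h5 hxy
      have hzL : z ∈ L := (mem_union.1 hz).resolve_left fun h5 => hLS x hx z h5 hxz
      rw [hψL x hx, hψL y hyL] at h1
      rw [hψL x hx, hψL z hzL] at h2
      exact hχ x hx y hyL z hzL hxy hxz h1 h2
  · intro x y hxy
    obtain ⟨h1, h2, h3, h4⟩ := h.eS x y hxy
    exact ⟨mem_union_left _ h1, mem_union_left _ h2, h3, by rw [hψS x h1, hψS y h2, h4]⟩
  · intro ψ' hψ'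
    have hsub : (S : Set U) ⊆ ((S ∪ L : Finset U) : Set U) := by
      rw [coe_union]
      exact Set.subset_union_left
    have h1 : Pat H S φ ψ' := (Pat.of_eq fun x hx => (hψS x hx).symm).trans (hψ'.mono hsub)
    exact (h.dt ψ' h1).trans (pot_mono hsub)

/-- A new vertex which sees all colours, in every colouring with the same monochromatic edges, in a
set `N` of four neighbours. -/
theorem St.step_piv (hf : Function.Injective f) (hHG : ∀ x y, H.Adj x y → G.Adj (f x) (f y))
    (hL : Link M) (h : St H M f S T E φ) {v : U} (hv : v ∉ S) (N : Finset U) (y0 : U)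
    (hN : ∀ y ∈ N, y ∈ S ∧ H.Adj v y) (hNc : N.card ≤ 4)
    (hN' : ∀ y ∈ S, H.Adj v y → y ∈ N ∨ y = y0)
    (hr : ∀ ψ, Pat H S φ ψ → ∀ c, ∃ y ∈ N, ψ y = c) :
    ∃ E' ψ, St H M f (insert v S) T E' ψ := by
  classical
  have huniq : ∀ ψ, Pat H S φ ψ → ∀ y ∈ N, ∀ y' ∈ N, ψ y = ψ y' → y = y' := fun ψ hψ =>
    unique_of_rainbow hNc (hr ψ hψ)
  have hup : ∀ ψ, Pat H S φ ψ → ∀ χ : U → Fin 4, (∀ y ∈ S, χ y = ψ y) →
      pot M f S ψ + 1 ≤ pot M f (insert v (S : Set U)) χ := by
    intro ψ hψ
    choose x hx hxψ using hr ψ hψ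
    exact cross_pot f hf hHG hL (S := (S : Set U)) (v := v) (fun h1 => hv h1) x
      (fun i => (hN _ (hx i)).1) (fun i => (hN _ (hx i)).2) hxψ
      (fun i j hij => link (S := (S : Set U)) (fun y hy => (hN y hy).1) hNc hr hψ x hx hxψ i j hij)
  set K : Finset U := N.filter fun z => φ z ≠ φ y0 with hK
  have hKc : 3 ≤ K.card := by
    have h1 : N.image φ = univ := by
      ext c
      simp only [mem_image, mem_univ, iff_true]
      exact hr φ (Pat.refl φ) c
    have h2 : (N.image φ).card ≤ N.card := card_image_le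
    have h3 : (N.image φ).card = 4 := by
      rw [h1]
      rfl
    have h4 : (N.filter fun z => φ z = φ y0).card ≤ 1 := by
      rw [card_le_one]
      intro a ha b hb
      rw [mem_filter] at ha hb
      exact huniq φ (Pat.refl φ) a ha.1 b hb.1 (ha.2.trans hb.2.symm)
    have h5 := card_filter_add_card_filter_not (s := N) (fun z => φ z = φ y0)
    rw [hK]
    have h6 : (N.filter fun z => φ z ≠ φ y0) = N.filter fun z => ¬ φ z = φ y0 := rfl
    rw [h6]
    omega
  have hcov : (K.filter fun y => ∃ e ∈ E, y ∈ e).card ≤ E.card := by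
    have h1 : ∀ y, y ∈ K.filter (fun y => ∃ e ∈ E, y ∈ e) → ∃ e, e ∈ E ∧ y ∈ e := fun y hy =>
      (mem_filter.1 hy).2
    choose g hg1 hg2 using h1
    refine card_le_card_of_injOn (fun y => if hy : y ∈ K.filter (fun y => ∃ e ∈ E, y ∈ e) then
      g y hy else s(v, v)) ?_ ?_
    · intro y hy
      have hy' : y ∈ K.filter (fun y => ∃ e ∈ E, y ∈ e) := hy
      simp only [hy', dif_pos]
      exact hg1 y hy'
    · intro y hy y' hy' hyy
      have h3 : y ∈ K.filter (fun y => ∃ e ∈ E, y ∈ e) := hy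
      have h4 : y' ∈ K.filter (fun y => ∃ e ∈ E, y ∈ e) := hy'
      simp only [h3, h4, dif_pos] at hyy
      by_contra hne
      have h5 : g y h3 = s(y, y') :=
        ((Sym2.mem_and_mem_iff hne).1 ⟨hg2 y h3, by rw [hyy]; exact hg2 y' h4⟩)
      have h6 : s(y, y') ∈ E := h5 ▸ hg1 y h3
      exact hne (huniq φ (Pat.refl φ) y (mem_filter.1 (mem_filter.1 h3).1).1 y'
        (mem_filter.1 (mem_filter.1 h4).1).1 (h.eS y y' h6).2.2.2)
  obtain ⟨z0, hz0K, hz0E⟩ : ∃ z0 ∈ K, E.card ≤ 2 → ∀ e ∈ E, z0 ∉ e := by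
    by_cases hE : E.card ≤ 2
    · by_contra hcon
      push Not at hcon
      have h1 : K ⊆ K.filter (fun y => ∃ e ∈ E, y ∈ e) := by
        intro y hy
        obtain ⟨_, e, he, hye⟩ := hcon y hy
        exact mem_filter.2 ⟨hy, e, he, hye⟩
      have h2 := card_le_card h1
      omega
    · have h1 : K.Nonempty := card_pos.1 (by omega)
      obtain ⟨z0, hz0⟩ := h1
      exact ⟨z0, hz0, fun h2 => absurd h2 hE⟩
  rw [hK, mem_filter] at hz0K
  obtain ⟨hz0N, hz0y⟩ := hz0K
  obtain ⟨hz0S, hvz0⟩ := hN z0 hz0N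
  have hc : ∀ y ∈ S, H.Adj v y → φ y = φ z0 → y = z0 := by
    intro y hy hvy h1
    rcases hN' y hy hvy with h2 | h2
    · exact huniq φ (Pat.refl φ) y h2 z0 hz0N h1
    · rw [h2] at h1
      exact absurd h1.symm hz0y
  have hu := update_eq hv φ (φ z0)
  have hvv : Function.update φ v (φ z0) v = φ z0 := Function.update_self _ _ _
  have hnew : ∀ y ∈ S, H.Adj v y → φ y = φ z0 → s(v, y) ∈ insert s(v, z0) E := by
    intro y hy hvy h1
    rw [hc y hy hvy h1]
    exact mem_insert_self _ _
  have hnew' : ∀ y ∈ S, H.Adj y v → φ y = φ z0 → s(y, v) ∈ insert s(v, z0) E := by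
    intro y hy hvy h1
    rw [hc y hy hvy.symm h1]
    exact mem_insert.2 (Or.inl Sym2.eq_swap)
  have hvE : s(v, z0) ∉ E := fun h1 => hv (h.eS v z0 h1).1
  refine ⟨insert s(v, z0) E, Function.update φ v (φ z0), ?_, ?_, ?_, ?_, ?_⟩
  · intro x hx y hy hxy h1 h2
    replace hx := mem_insert.1 hx
    rcases hx with rfl | hx
    · replace hy := mem_insert.1 hy
      rcases hy with rfl | hy
      · exact absurd hxy H.irrefl
      · rw [hvv, hu y hy] at h1
        exact absurd (hnew y hy hxy h1.symm) h2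
    · replace hy := mem_insert.1 hy
      rcases hy with rfl | hy
      · rw [hu x hx, hvv] at h1
        exact absurd (hnew' x hx hxy h1) h2
      · rw [hu x hx, hu y hy] at h1
        exact h.inT x hx y hy hxy h1 fun h3 => h2 (mem_insert_of_mem h3)
  · intro x hx y hy z hz hxy hxz h1 h2 h3 h4
    replace hx := mem_insert.1 hx
    rcases hx with rfl | hx
    · replace hy := mem_insert.1 hy
      rcases hy with rfl | hy
      · exact absurd hxy H.irrefl
      · rw [hvv, hu y hy] at h1
        exact absurd (hnew y hy hxy h1) h3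
    · replace hy := mem_insert.1 hy
      rcases hy with rfl | hy
      · rw [hvv, hu x hx] at h1
        exact absurd (hnew' x hx hxy h1.symm) h3
      · replace hz := mem_insert.1 hz
        rcases hz with rfl | hz
        · rw [hvv, hu x hx] at h2
          exact absurd (hnew' x hx hxz h2.symm) h4
        · rw [hu y hy, hu x hx] at h1
          rw [hu z hz, hu x hx] at h2
          exact h.mat x hx y hy z hz hxy hxz h1 h2 (fun h5 => h3 (mem_insert_of_mem h5))
            fun h5 => h4 (mem_insert_of_mem h5)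
  · intro x y hxy
    rcases mem_insert.1 hxy with h1 | h1
    · rcases Sym2.eq_iff.1 h1 with ⟨rfl, rfl⟩ | ⟨rfl, rfl⟩
      · exact ⟨mem_insert_self _ _, mem_insert_of_mem hz0S, hvz0, by rw [hvv, hu _ hz0S]⟩
      · exact ⟨mem_insert_of_mem hz0S, mem_insert_self _ _, hvz0.symm, by rw [hvv, hu _ hz0S]⟩
    · obtain ⟨h2, h3, h4, h5⟩ := h.eS x y h1
      exact ⟨mem_insert_of_mem h2, mem_insert_of_mem h3, h4, by rw [hu x h2, hu y h3, h5]⟩
  · intro hE' x y z hxy hxz
    rw [card_insert_of_notMem hvE] at hE'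
    have hE2 : E.card ≤ 2 := by omega
    have hz0 := hz0E hE2
    have hvE' : ∀ w, s(v, w) ∉ E := fun w h1 => hv (h.eS v w h1).1
    have hzE' : ∀ w, s(z0, w) ∉ E := fun w h1 => hz0 _ h1 (Sym2.mem_mk_left _ _)
    rcases mem_insert.1 hxy with h1 | h1
    · rcases mem_insert.1 hxz with h2 | h2
      · exact Sym2.congr_right.1 (h1.trans h2.symm)
      · rcases Sym2.eq_iff.1 h1 with ⟨rfl, rfl⟩ | ⟨rfl, rfl⟩
        · exact absurd h2 (hvE' z)
        · exact absurd h2 (hzE' z)
    · rcases mem_insert.1 hxz with h2 | h2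
      · rcases Sym2.eq_iff.1 h2 with ⟨rfl, rfl⟩ | ⟨rfl, rfl⟩
        · exact absurd h1 (hvE' y)
        · exact absurd h1 (hzE' y)
      · exact h.dj (by omega) x y z h1 h2
  · intro ψ hψ
    have h1 : Pat H S φ ψ := (Pat.of_eq fun x hx => (hu x hx).symm).trans
      (hψ.mono (by rw [coe_insert]; exact Set.subset_insert _ _))
    have h2 := h.dt ψ h1
    have h3 := hup ψ h1 ψ fun _ _ => rfl
    rw [card_insert_of_notMem hvE, coe_insert]
    omega

/-- The colouring which follows the order. -/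
theorem colour (hf : Function.Injective f) (hHG : ∀ x y, H.Adj x y → G.Adj (f x) (f y))
    (hL : Link M) (hB : Built H S T) : ∃ E φ, St H M f S T E φ := by
  classical
  induction hB with
  | nil =>
    refine ⟨∅, fun _ => 0, ⟨?_, ?_, ?_, ?_, ?_⟩⟩
    · intro x hx
      exact absurd hx (notMem_empty _)
    · intro x hx
      exact absurd hx (notMem_empty _)
    · intro x y hxy
      exact absurd hxy (notMem_empty _)
    · intro _ x y z hxy
      exact absurd hxy (notMem_empty _)
    · intro ψ _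
      exact Nat.zero_le _
  | @four S T v hB hv h4 ih =>
    obtain ⟨E, φ, h⟩ := ih
    by_cases hfree : ∃ ψ, Pat H S φ ψ ∧ ∃ c, ∀ y ∈ S, H.Adj v y → ψ y ≠ c
    · obtain ⟨ψ, hψ, c, hc⟩ := hfree
      exact ⟨E, _, (h.pat hψ).step_free hv c hc⟩
    · push Not at hfree
      refine St.step_piv hf hHG hL h hv (S.filter fun y => H.Adj v y) v (fun y hy => ?_) ?_
        (fun y hy hvy => ?_) fun ψ hψ c => ?_
      · exact mem_filter.1 hy
      · rw [C2.nb_eq] at h4
        exact h4
      · exact Or.inl (mem_filter.2 ⟨hy, hvy⟩)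
      · obtain ⟨y, hy, hvy, h1⟩ := hfree ψ hψ c
        exact ⟨y, mem_filter.2 ⟨hy, hvy⟩, h1⟩
  | @five S T v y0 hB hv h5 hy0 hvy0 hy0T ih =>
    obtain ⟨E, φ, h⟩ := ih
    by_cases hfree : ∃ ψ, Pat H S φ ψ ∧ ∃ c, ∀ y ∈ S, H.Adj v y → ψ y = c → y = y0
    · obtain ⟨ψ, hψ, c, hc⟩ := hfree
      exact ⟨E, _, (h.pat hψ).step_host hv c hc hy0T⟩
    · push Not at hfree
      obtain ⟨E', ψ', h'⟩ := St.step_piv hf hHG hL h hv ((S.filter fun y => H.Adj v y).erase y0) y0
        (fun y hy => mem_filter.1 (mem_of_mem_erase hy)) (by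
          have h6 : (S.filter fun y => H.Adj v y).card ≤ 5 := by
            rw [C2.nb_eq] at h5
            exact h5
          have h7 : ((S.filter fun y => H.Adj v y).erase y0).card =
              (S.filter fun y => H.Adj v y).card - 1 :=
            card_erase_of_mem (mem_filter.2 ⟨hy0, hvy0⟩)
          omega)
        (fun y hy hvy => by
          by_cases h1 : y = y0
          · exact Or.inr h1
          · exact Or.inl (mem_erase.2 ⟨h1, mem_filter.2 ⟨hy, hvy⟩⟩))
        (fun ψ hψ c => by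
          obtain ⟨y, hy, hvy, h1, h2⟩ := hfree ψ hψ c
          exact ⟨y, mem_erase.2 ⟨h2, mem_filter.2 ⟨hy, hvy⟩⟩, h1⟩)
      exact ⟨E', ψ', h'.mono fun x hx => mem_insert_of_mem (mem_insert_of_mem hx)⟩
  | @cls S T L hB hLS hno h7 ih =>
    obtain ⟨E, φ, h⟩ := ih
    obtain ⟨ψ, hψ⟩ := h.step_cls L hLS hno h7
    exact ⟨E, ψ, hψ⟩

end state

end Pool.Agent.W986.Five
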