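import Pool.Agent.W986.Cross
import Pool.Agent.W986.Precise

/-!
# Rainbow vertices on the projective plane
-/

set_option autoImplicit false

open Finset

namespace Pool.Agent.W986.Lay

open Pool.Agent.DC76 Pool.Agent.W986

/-- The three ways to split four colours into two pairs. -/
def sd (s : Fin 3) (c : Fin 4) : Bool := c.val == 0 || c.val == s.val + 1

theorem split_aux : ∀ p q : Fin 4, p ≠ q → ∃ s : Fin 3, ∀ c, sd s c = sd s p ↔ (c = p ∨ c = q) := by
  decide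

theorem split (p q j k : Fin 4) (h1 : p ≠ q) (h2 : p ≠ j) (h3 : p ≠ k) (h4 : q ≠ j) (h5 : q ≠ k)
    (h6 : j ≠ k) :
    ∃ s : Fin 3, (∀ c, sd s c = sd s p ↔ (c = p ∨ c = q)) ∧
      (∀ c, sd s c = sd s j ↔ (c = j ∨ c = k)) ∧ sd s p ≠ sd s j := by
  obtain ⟨s, hs⟩ := split_aux p q h1
  have hj : sd s j ≠ sd s p := by
    intro h
    rcases (hs j).1 h with h7 | h7
    · exact h2 h7.symm
    · exact h4 h7.symm
  refine ⟨s, hs, fun c => ?_, hj.symm⟩
  have h7 : sd s c = sd s j ↔ ¬ sd s c = sd s p := by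
    revert hj
    generalize sd s c = a
    generalize sd s j = b
    generalize sd s p = e
    revert a b e
    decide
  rw [h7, hs c]
  constructor
  · intro h8
    push Not at h8
    omega
  · rintro (rfl | rfl) (h8 | h8)
    · exact h2 h8.symm
    · exact h4 h8.symm
    · exact h3 h8.symm
    · exact h5 h8.symm

variable {V : Type} [Fintype V] [DecidableEq V] {G : SimpleGraph V} {F : Type} [Fintype F]
  {U : Type} {H : SimpleGraph U}

/-- One side of the split `s` contains a closed curve which is not a boundary. -/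
def Det (M : FacialWalks G F) (f : U → V) (S : Set U) (φ : U → Fin 4) (s : Fin 3) : Prop :=
  ∃ b : Bool, ∃ z ∈ Z G Set.univ, z ∉ Bnd M ∧
    ∀ x y, z x y ≠ 0 → ∃ u ∈ S, f u = x ∧ sd s (φ u) = b

theorem Det.mono {M : FacialWalks G F} {f : U → V} {S T : Set U} (hST : S ⊆ T)
    {φ : U → Fin 4} {s : Fin 3} (h : Det M f S φ s) : Det M f T φ s := by
  obtain ⟨b, z, hz, hzB, h1⟩ := h
  exact ⟨b, z, hz, hzB, fun x y hxy => by
    obtain ⟨u, hu, h2⟩ := h1 x y hxy
    exact ⟨u, hST hu, h2⟩⟩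

theorem cross (f : U → V) (hf : Function.Injective f) (hHG : ∀ x y, H.Adj x y → G.Adj (f x) (f y))
    (hG : Conn G Set.univ) {M : FacialWalks G F} (hL : Link M)
    (hχ : (1 : ℤ) ≤ (Fintype.card V : ℤ) - G.edgeSet.ncard + Fintype.card F)
    {S : Set U} {v : U} (hv : v ∉ S) {φ : U → Fin 4} (x : Fin 4 → U) (hx : ∀ i, x i ∈ S)
    (hvx : ∀ i, H.Adj v (x i)) (hφ : ∀ i, φ (x i) = i)
    (hlink : ∀ i j, i ≠ j → Relation.ReflTransGen
      (fun a b => (b ∈ S ∧ (φ b = i ∨ φ b = j)) ∧ H.Adj a b) (x i) (x j)) :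
    ∃ s, ¬ Det M f S φ s ∧ ∀ ψ : U → Fin 4, (∀ y ∈ S, ψ y = φ y) → Det M f (insert v S) ψ s := by
  have hxinj : Function.Injective x := by
    intro i j hij
    rw [← hφ i, ← hφ j, hij]
  obtain ⟨d, ν, fc, hrot⟩ := exists_rot M hL (v := f v) (by
    intro a b
    by_contra hcon
    push Not at hcon
    have h1 : ∀ i, f (x i) = a ∨ f (x i) = b := fun i => by
      by_cases h2 : f (x i) = a
      · exact Or.inl h2
      · exact Or.inr (hcon _ (hHG _ _ (hvx i)) h2)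
    have h2 : ∀ i j : Fin 4, i ≠ j → f (x i) ≠ f (x j) := fun i j hij h3 => hij (hxinj (hf h3))
    have h01 := h2 0 1 (by decide)
    have h02 := h2 0 2 (by decide)
    have h12 := h2 1 2 (by decide)
    rcases h1 0 with h3 | h3 <;> rcases h1 1 with h4 | h4 <;> rcases h1 2 with h5 | h5 <;>
      simp_all)
  choose t ht using fun i => (hrot.adj (f (x i))).1 (hHG _ _ (hvx i))
  have htinj : Function.Injective t := by
    intro i j hij
    apply hxinj
    apply hf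
    rw [← (ht i).2, ← (ht j).2, hij]
  have hsm : StrictMono (t ∘ Tuple.sort t) :=
    (Tuple.monotone_sort t).strictMono_of_injective (htinj.comp (Tuple.sort t).injective)
  obtain ⟨σ, hσ⟩ : ∃ σ : Equiv.Perm (Fin 4), StrictMono (t ∘ σ) := ⟨Tuple.sort t, hsm⟩
  have h01 : t (σ 0) < t (σ 1) := hσ (show (0 : Fin 4) < 1 by decide)
  have h12 : t (σ 1) < t (σ 2) := hσ (show (1 : Fin 4) < 2 by decide)
  have h23 : t (σ 2) < t (σ 3) := hσ (show (2 : Fin 4) < 3 by decide)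
  have hne : ∀ i j : Fin 4, i ≠ j → σ i ≠ σ j := fun i j hij h => hij (σ.injective h)
  obtain ⟨s, hs1, hs2, hs3⟩ := split (σ 0) (σ 2) (σ 1) (σ 3) (hne _ _ (by decide))
    (hne _ _ (by decide)) (hne _ _ (by decide)) (hne _ _ (by decide)) (hne _ _ (by decide))
    (hne _ _ (by decide))
  let P : Set V := {y | ∃ u ∈ S, f u = y ∧ (φ u = σ 0 ∨ φ u = σ 2)}
  let Q : Set V := {y | ∃ u ∈ S, f u = y ∧ (φ u = σ 1 ∨ φ u = σ 3)}
  have hPQ : Disjoint P Q := by
    rw [Set.disjoint_left]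
    rintro y ⟨u, _, rfl, h2⟩ ⟨u', _, h3, h4⟩
    have h5 := hf h3
    subst h5
    apply hs3
    rw [← (hs1 (φ u')).2 h2, (hs2 (φ u')).2 h4]
  have hvP : f v ∉ P := by
    rintro ⟨u, hu, h1, _⟩
    rw [hf h1] at hu
    exact hv hu
  have hvQ : f v ∉ Q := by
    rintro ⟨u, hu, h1, _⟩
    rw [hf h1] at hu
    exact hv hu
  have hlift : ∀ i j, i ≠ j → Lnk G {y | ∃ u ∈ S, f u = y ∧ (φ u = i ∨ φ u = j)}
      (f (x i)) (f (x j)) := by
    intro i j hij
    refine (hlink i j hij).lift f fun a b hab => ⟨⟨b, hab.1.1, rfl, hab.1.2⟩, hHG _ _ hab.2⟩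
  have hpP : ν (t (σ 0)) ∈ P := ⟨x (σ 0), hx _, (ht _).2.symm, Or.inl (hφ _)⟩
  have hjQ : ν (t (σ 1)) ∈ Q := ⟨x (σ 1), hx _, (ht _).2.symm, Or.inl (hφ _)⟩
  have hPl : Lnk G P (ν (t (σ 0))) (ν (t (σ 2))) := by
    rw [(ht _).2, (ht _).2]
    exact hlift _ _ (hne _ _ (by decide))
  have hQl : Lnk G Q (ν (t (σ 1))) (ν (t (σ 3))) := by
    rw [(ht _).2, (ht _).2]
    exact hlift _ _ (hne _ _ (by decide))
  have hkp : t (σ 3) < t (σ 0) + d := by
    have := (ht (σ 3)).1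
    omega
  obtain ⟨p1, p2, p3, p4⟩ := pivotal hG hχ hrot hL hPQ hvP hvQ (subset_refl P) (subset_refl Q)
    h01 h12 h23 hkp hpP hPl hjQ hQl
  have hside : ∀ b : Bool, b = sd s (σ 0) ∨ b = sd s (σ 1) := by
    intro b
    revert hs3
    generalize sd s (σ 0) = b1
    generalize sd s (σ 1) = b2
    revert b b1 b2
    decide
  refine ⟨s, ?_, ?_⟩
  · rintro ⟨b, z, hz, hzB, hsupp⟩
    rcases hside b with rfl | rfl
    · refine hzB (p3 z hz fun a b hab => ?_)
      obtain ⟨u, hu, h1, h2⟩ := hsupp a b hab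
      exact ⟨u, hu, h1, (hs1 _).1 h2⟩
    · refine hzB (p4 z hz fun a b hab => ?_)
      obtain ⟨u, hu, h1, h2⟩ := hsupp a b hab
      exact ⟨u, hu, h1, (hs2 _).1 h2⟩
  · intro ψ hψ
    rcases hside (sd s (ψ v)) with hb | hb
    · obtain ⟨z, hz⟩ := exists_curve hvP hpP (hrot.ne (show t (σ 0) < t (σ 2) by omega) (by omega))
        (hrot.adj' _) (hrot.adj' _) hPl
      refine ⟨sd s (σ 0), z, hz.cyc, p1 z hz, fun a b hab => ?_⟩
      rcases hz.supp a b hab with ⟨u, hu, h1, h2⟩ | h1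
      · exact ⟨u, Set.mem_insert_of_mem _ hu, h1, by rw [hψ u hu]; exact (hs1 _).2 h2⟩
      · exact ⟨v, Set.mem_insert _ _, h1.symm, hb⟩
    · obtain ⟨z, hz⟩ := exists_curve hvQ hjQ (hrot.ne (show t (σ 1) < t (σ 3) by omega) (by omega))
        (hrot.adj' _) (hrot.adj' _) hQl
      refine ⟨sd s (σ 1), z, hz.cyc, p2 z hz, fun a b hab => ?_⟩
      rcases hz.supp a b hab with ⟨u, hu, h1, h2⟩ | h1
      · exact ⟨u, Set.mem_insert_of_mem _ hu, h1, by rw [hψ u hu]; exact (hs2 _).2 h2⟩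
      · exact ⟨v, Set.mem_insert _ _, h1.symm, hb⟩

end Pool.Agent.W986.Lay
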