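import Pool.Agent.W986.FivePlan
import Pool.Agent.W986.LayTop

/-!
# Graphs on surfaces are `(4, 1)`-colourable up to `3 (2 - χ)` edges
-/

set_option autoImplicit false

open Finset

namespace Pool.Agent.W986.Five

open Pool.Agent.DC76 Pool.Agent.W986 Pool.Agent.W986.Lay

/-- Every graph which embeds in a closed surface of Euler characteristic `χ ≥ 0` has a colouring
with four colours and a set `E` of at most `3 (2 - χ)` edges such that every vertex has at most one
neighbour of its own colour when the edges in `E` are deleted. If `E` has at most three edges, they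
are pairwise disjoint. -/
theorem extra {U : Type} (H : SimpleGraph U) {o : Prop} {χ : ℤ} (hχ0 : 0 ≤ χ)
    (h : Embeds o χ H) :
    ∃ (c : U → Fin 4) (E : Finset (Sym2 U)), (E : Set (Sym2 U)) ⊆ H.edgeSet ∧
      (E.card : ℤ) ≤ 3 * (2 - χ) ∧
      (E.card ≤ 3 → ∀ x y z, s(x, y) ∈ E → s(x, z) ∈ E → y = z) ∧
      Defective (H.deleteEdges E) 1 c := by
  classical
  have hS := h.onSurface
  obtain ⟨V, F, _, _, _, G, f, hf, hHG, hG, ⟨M, hL, _⟩, hχ⟩ := h
  have _ : Fintype U := Fintype.ofInjective f hf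
  obtain ⟨T, hB⟩ := exists_built (H := H) (fun X => by
    have h1 := ein_le_three H χ hχ0 hS X
    have h2 := dd_ein H X
    omega) (fun Y Z hYZ => by
    have h1 := dd_le_torus hχ0 hS hYZ
    exact h1)
  obtain ⟨E, φ, hE⟩ := colour hf hHG hL hB
  refine ⟨φ, E, ?_, ?_, hE.dj, ?_⟩
  · intro e he
    induction e using Sym2.ind with
    | _ x y => exact (hE.eS x y he).2.2.1
  · have h1 := pot_le f hf (conn_univ hG) M χ hχ.ge hG.nonempty (univ : Finset U) φ
    have h2 := hE.dt φ (Pat.refl φ)
    have h3 : (E.card : ℤ) ≤ (pot M f ((univ : Finset U) : Set U) φ : ℤ) := by exact_mod_cast h2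
    exact h3.trans h1
  · intro v
    rw [Set.ncard_le_one (Set.toFinite _)]
    rintro x ⟨hvx, hx⟩ y ⟨hvy, hy⟩
    rw [SimpleGraph.deleteEdges_adj] at hvx hvy
    exact hE.mat v (mem_univ v) x (mem_univ x) y (mem_univ y) hvx.1 hvy.1 hx hy hvx.2 hvy.2

end Pool.Agent.W986.Five
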