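import Pool.Agent.W986.MGLPlan
import Pool.Agent.W986.Five

/-!
# Graphs on surfaces of Euler characteristic at least `0` are `Built`
-/

set_option autoImplicit false

open Finset

namespace Pool.Agent.W986.Five

open Pool.Agent.DC76 Pool.Agent.W986 Pool.Agent.W986.MGL

variable {U : Type} [DecidableEq U] {H : SimpleGraph U}

omit [DecidableEq U] in
theorem nb_eq_dg (A : Finset U) (v : U) : C2.nb H A v = MGL.dg H A v := by
  classical
  unfold C2.nb MGL.dg
  rw [← card_ib]

theorem exists_built_aux
    (h2 : ∀ Y Z : Finset U, Disjoint Y Z → dd H Y Z ≤ 2 * (Y.card + Z.card)) :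
    ∀ (n : ℕ) (R M Z T0 : Finset U), Z.card = n → Disjoint R Z → Ok H R M Z → T0 ⊆ R →
      Built H R T0 → ∃ T, Built H (R ∪ Z) T ∧ T ⊆ T0 ∪ Z ∧ ∀ x ∈ M, x ∈ Z → x ∉ T := by
  intro n
  induction n using Nat.strong_induction_on with
  | _ n ih =>
    intro R M Z T0 hn hRZ hok hT0 hB
    by_cases hZ : Z = ∅
    · subst hZ
      exact ⟨T0, by rwa [union_empty], subset_union_left, fun x _ hx => absurd hx (notMem_empty _)⟩
    by_cases ha : ∃ T ⊆ Z, T.Nonempty ∧ T ≠ Z ∧
        dd H T T + 2 * dd H T R + 2 * (M ∩ T).card = 6 * T.card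
    · obtain ⟨T, hT, hTne, hTZ, htight⟩ := ha
      have hc : T.card < Z.card := card_lt_card (hT.ssubset_of_ne hTZ)
      have hc2 : (Z \ T).card < Z.card := by
        have h4 := card_sdiff_add_card_eq_card hT
        have h5 := card_pos.2 hTne
        omega
      obtain ⟨T1, h11, h12, h13⟩ := ih _ (by omega) R M T T0 rfl
        (disjoint_of_subset_right hT hRZ) (hok.mono hT) hT0 hB
      obtain ⟨T2, h21, h22, h23⟩ := ih _ (by omega) (R ∪ T) M (Z \ T) T1 rfl (by
        rw [disjoint_union_left]
        exact ⟨disjoint_of_subset_right sdiff_subset hRZ, disjoint_sdiff⟩)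
        (hok.above hRZ hT htight) (h12.trans (union_subset_union_left hT0)) h11
      refine ⟨T2, ?_, ?_, ?_⟩
      · rwa [union_assoc, union_sdiff_of_subset hT] at h21
      · refine h22.trans (union_subset (h12.trans (union_subset_union_right hT)) ?_)
        exact sdiff_subset.trans subset_union_right
      · intro x hxM hxZ hx2
        by_cases hxT : x ∈ T
        · rcases mem_union.1 (h22 hx2) with h4 | h4
          · exact h13 x hxM hxT h4
          · exact (mem_sdiff.1 h4).2 hxT
        · exact h23 x hxM (mem_sdiff.2 ⟨hxZ, hxT⟩) hx2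
    push Not at ha
    have hdg : ∀ v ∈ Z, C2.nb H (R ∪ Z.erase v) v = MGL.dg H Z v + MGL.dg H R v := by
      intro v hv
      rw [nb_eq_dg, dg_union (disjoint_of_subset_right (erase_subset _ _) hRZ), dg_erase, add_comm]
    have hvR : ∀ v ∈ Z, v ∉ R := fun v hv h1 => disjoint_left.1 hRZ h1 hv
    have hvn : ∀ v ∈ Z, v ∉ R ∪ Z.erase v := by
      intro v hv h1
      rcases mem_union.1 h1 with h2 | h2
      · exact hvR v hv h2
      · exact notMem_erase _ _ h2
    have hins : ∀ v ∈ Z, insert v (R ∪ Z.erase v) = R ∪ Z := by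
      intro v hv
      rw [← union_insert, insert_erase hv]
    by_cases hb : ∃ v ∈ Z, MGL.dg H Z v + MGL.dg H R v ≤ 4
    · obtain ⟨v, hv, h4⟩ := hb
      obtain ⟨T1, h11, h12, h13⟩ := ih _ (by
        rw [← hn]
        exact card_erase_lt_of_mem hv) R M (Z.erase v) T0 rfl
        (disjoint_of_subset_right (erase_subset _ _) hRZ) (hok.mono (erase_subset _ _)) hT0 hB
      refine ⟨T1, ?_, h12.trans (union_subset_union_right (erase_subset _ _)), ?_⟩
      · have h5 := Built.four v h11 (hvn v hv) (by rw [hdg v hv]; exact h4)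
        rwa [hins v hv] at h5
      · intro x hxM hxZ hx1
        by_cases hxv : x = v
        · subst hxv
          rcases mem_union.1 (h12 hx1) with h5 | h5
          · exact hvR x hxZ (hT0 h5)
          · exact notMem_erase _ _ h5
        · exact h13 x hxM (mem_erase.2 ⟨hxv, hxZ⟩) hx1
    push Not at hb
    by_cases hc : ∃ v ∈ Z, v ∉ M ∧ MGL.dg H Z v + MGL.dg H R v = 5 ∧ ∃ x ∈ Z, H.Adj v x ∧ x ∉ M
    · obtain ⟨v, hv, hvM, h4, x, hx, hvx, hxM⟩ := hc
      have hxe : x ∈ Z.erase v := mem_erase.2 ⟨hvx.ne', hx⟩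
      obtain ⟨T1, h11, h12, h13⟩ := ih _ (by
        rw [← hn]
        exact card_erase_lt_of_mem hv) R (insert x M) (Z.erase v) T0 rfl
        (disjoint_of_subset_right (erase_subset _ _) hRZ) (by
          intro Y hY
          have h5 := hok Y (hY.trans (erase_subset _ _))
          by_cases hxY : x ∈ Y
          · have h6 := ha Y (hY.trans (erase_subset _ _)) ⟨x, hxY⟩ (by
              rintro rfl
              exact notMem_erase v Y (hY hv))
            have h7 : ((insert x M) ∩ Y).card = (M ∩ Y).card + 1 := by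
              rw [insert_inter_of_mem hxY, card_insert_of_notMem fun h8 => hxM (mem_inter.1 h8).1]
            have h8 := dd_ein H Y
            omega
          · rw [insert_inter_of_notMem hxY]
            exact h5) hT0 hB
      have hx1 : x ∉ T1 := h13 x (mem_insert_self _ _) hxe
      refine ⟨insert v (insert x T1), ?_, ?_, ?_⟩
      · have h5 := Built.five v x h11 (hvn v hv) (by rw [hdg v hv]; exact h4.le)
          (mem_union_right _ hxe) hvx hx1
        rwa [hins v hv] at h5
      · intro y hy
        rcases mem_insert.1 hy with rfl | hy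
        · exact mem_union_right _ hv
        · rcases mem_insert.1 hy with rfl | hy
          · exact mem_union_right _ hx
          · exact union_subset_union_right (erase_subset _ _) (h12 hy)
      · intro y hyM hyZ hy
        rcases mem_insert.1 hy with rfl | hy
        · exact hvM hyM
        · rcases mem_insert.1 hy with rfl | hy
          · exact hxM hyM
          · have hyv : y ≠ v := by
              rintro rfl
              exact hvM hyM
            exact h13 y (mem_insert_of_mem hyM) (mem_erase.2 ⟨hyv, hyZ⟩) hy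
    push Not at hc
    -- the count
    let Y : Finset U := Z.filter fun v => v ∉ M ∧ MGL.dg H Z v = 5 ∧ MGL.dg H R v = 0
    have hsum : dd H Z Z + 2 * dd H Z R + 2 * (M ∩ Z).card ≤ 6 * Z.card := hok Z subset_rfl
    have hMZ : (M ∩ Z).card = ∑ v ∈ Z, ib (v ∈ M) := by
      classical
      rw [← card_ib]
      congr 1
      ext v
      simp only [mem_inter, mem_filter, and_comm]
    have hYc : Y.card = ∑ v ∈ Z, ib (v ∉ M ∧ MGL.dg H Z v = 5 ∧ MGL.dg H R v = 0) := card_ib _ _
    have hMY : (M ∩ Z).card ≤ Y.card := by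
      have h4 : ∑ v ∈ Z, (6 + ib (v ∈ M)) ≤ ∑ v ∈ Z, (MGL.dg H Z v + 2 * MGL.dg H R v + 2 * ib (v ∈ M) +
          ib (v ∉ M ∧ MGL.dg H Z v = 5 ∧ MGL.dg H R v = 0)) := by
        refine sum_le_sum fun v hv => ?_
        have h5 := hb v hv
        by_cases hvM : v ∈ M
        · rw [ib_pos hvM]
          omega
        · rw [ib_neg hvM]
          by_cases h6 : MGL.dg H Z v = 5 ∧ MGL.dg H R v = 0
          · rw [ib_pos ⟨hvM, h6⟩]
            omega
          · omega
      rw [sum_add_distrib, sum_add_distrib, sum_add_distrib, sum_add_distrib, ← mul_sum, ← mul_sum,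
        ← hMZ, ← hYc, ← dd_sum, ← dd_sum, sum_const, smul_eq_mul] at h4
      omega
    by_cases hYe : Y.card = 0
    · have hM0 : ∀ v ∈ Z, v ∉ M := by
        intro v hv hvM
        have h4 : 0 < (M ∩ Z).card := card_pos.2 ⟨v, mem_inter.2 ⟨hvM, hv⟩⟩
        omega
      have h6 : ∀ v ∈ Z, 6 ≤ MGL.dg H Z v + 2 * MGL.dg H R v ∧
          (MGL.dg H Z v + 2 * MGL.dg H R v = 6 → MGL.dg H Z v = 6) := by
        intro v hv
        have h5 := hb v hv
        by_cases h7 : MGL.dg H Z v + MGL.dg H R v = 5
        · have h8 : MGL.dg H Z v = 0 := by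
            by_contra h9
            obtain ⟨x, hx, hvx⟩ := dg_pos (H := H) (A := Z) (v := v) (by omega)
            exact hM0 x hx (hc v hv (hM0 v hv) h7 x hx hvx)
          omega
        · omega
      have h7 : ∑ _v ∈ Z, 6 = ∑ v ∈ Z, (MGL.dg H Z v + 2 * MGL.dg H R v) := by
        apply le_antisymm
        · exact sum_le_sum fun v hv => (h6 v hv).1
        · rw [sum_add_distrib, ← mul_sum, ← dd_sum, ← dd_sum, sum_const, smul_eq_mul]
          omega
      have h8 := (sum_eq_sum_iff_of_le fun v hv => (h6 v hv).1).1 h7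
      have h9 : ∀ v ∈ Z, MGL.dg H Z v = 6 ∧ MGL.dg H R v = 0 := by
        intro v hv
        have h10 := (h6 v hv).2 (h8 v hv).symm
        have h11 := h8 v hv
        omega
      refine ⟨T0 ∪ Z, Built.cls Z hB hRZ.symm ?_ ?_, subset_rfl, fun x hxM hxZ =>
        absurd hxM (hM0 x hxZ)⟩
      · intro v hv w hw hvw
        have h10 := (h9 v hv).2
        unfold MGL.dg at h10
        have h11 := (sum_eq_zero_iff.1 h10) w hw
        rw [ib_pos hvw] at h11
        exact one_ne_zero h11
      · intro v hv
        rw [nb_eq_dg, (h9 v hv).1]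
        omega
    · exfalso
      have hdis : Disjoint Y (M ∩ Z) := by
        rw [disjoint_left]
        intro v hv hv2
        exact (mem_filter.1 hv).2.1 (mem_inter.1 hv2).1
      have h4 : dd H Y (M ∩ Z) = 5 * Y.card := by
        rw [dd_sum, sum_congr rfl (g := fun _ => 5) fun v hv => ?_, sum_const, smul_eq_mul,
          mul_comm]
        obtain ⟨hvZ, hvM, h5, h6⟩ := mem_filter.1 hv
        rw [← h5]
        refine dg_congr fun x hvx => ⟨fun h7 => (mem_inter.1 h7).2, fun h7 => mem_inter.2
          ⟨hc v hvZ hvM (by omega) x h7 hvx, h7⟩⟩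
      have h5 := h2 Y (M ∩ Z) hdis
      omega

theorem exists_built [Fintype U] (h3 : ∀ X : Finset U, dd H X X ≤ 6 * X.card)
    (h2 : ∀ Y Z : Finset U, Disjoint Y Z → dd H Y Z ≤ 2 * (Y.card + Z.card)) :
    ∃ T, Built H univ T := by
  obtain ⟨T, h, _⟩ := exists_built_aux h2 _ ∅ ∅ univ ∅ rfl (disjoint_empty_left _) (by
    intro Y _
    have h1 := h3 Y
    have h4 : dd H Y ∅ = 0 := by
      rw [dd_sum]
      refine sum_eq_zero fun v _ => ?_
      unfold MGL.dg
      exact sum_empty
    rw [h4, empty_inter, card_empty]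
    omega) (empty_subset _) Built.nil
  rw [empty_union] at h
  exact ⟨T, h⟩

end Pool.Agent.W986.Five
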