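import Pool.Agent.W986.Disjoint

/-!
# Cycles in two disjoint sets of vertices: dimensions modulo boundaries
-/

set_option autoImplicit false

open Finset

namespace Pool.Agent.W986

open Pool.Agent.DC76

variable {V : Type} [Fintype V] [DecidableEq V] {G : SimpleGraph V} {F : Type} [Fintype F]

omit [DecidableEq V] in
theorem mem_Z_iff {A : Set V} {z : V → V → ZMod 2} :
    z ∈ Z G A ↔ z ∈ Z G Set.univ ∧ ∀ x y, z x y ≠ 0 → x ∈ A := by
  constructor
  · rintro ⟨h1, h2, h3⟩
    exact ⟨⟨h1, fun u v h => ⟨(h2 u v h).1, trivial, trivial⟩, h3⟩, fun x y h => (h2 x y h).2.1⟩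
  · rintro ⟨⟨h1, h2, h3⟩, h4⟩
    refine ⟨h1, fun u v h => ⟨(h2 u v h).1, h4 u v h, h4 v u ?_⟩, h3⟩
    rw [h1]
    exact h

omit [DecidableEq V] in
theorem Z_mono {A B : Set V} (h : A ⊆ B) : Z G A ≤ Z G B := by
  intro z hz
  rw [mem_Z_iff] at hz ⊢
  exact ⟨hz.1, fun x y hxy => h (hz.2 x y hxy)⟩

/-- If the pairing with the part of a boundary inside `A` vanishes on all cycles, then this part is
a boundary. -/
theorem mem_Bnd_of_psi (hG : Conn G Set.univ) (M : FacialWalks G F) (A : Set V) (r : V)
    {z z' : V → V → ZMod 2}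
    (hA : ∀ x y, z x y ≠ 0 → x ∈ A) (hA' : ∀ x y, z' x y ≠ 0 → x ∉ A) (hs : ∀ x y, z x y = z y x)
    (I : Finset F) (hI : z + z' = ∑ f ∈ I, face M f)
    (hψ : ∀ y ∈ Z G Set.univ, psi M I A y = 0) : z ∈ Bnd M := by
  classical
  have hbd : ∀ x y, ((bd M I x y : ℕ) : ZMod 2) = z x y + z' x y := by
    intro x y
    rw [bd_cast, ← hI]
    rfl
  have hb : ∀ x u, x ∈ A → u ∉ A → bd M I x u ≠ 1 := by
    intro x u hx hu h1
    have h2 := hbd x u
    rw [h1, Nat.cast_one] at h2
    have h3 : z x u = 0 := by
      by_contra h3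
      rw [hs] at h3
      exact hu (hA u x h3)
    have h4 : z' x u = 0 := by
      by_contra h4
      exact hA' x u h4 hx
    rw [h3, h4] at h2
    exact absurd h2 (by decide)
  obtain ⟨k, hk⟩ := exists_potential hG r _ hψ
  have hstep : ∀ f t, t < M.len f →
      k (M.walk f t) + (if f ∈ I ∧ M.walk f t ∈ A then 1 else 0) =
      k (M.walk f (t + 1)) + (if f ∈ I ∧ M.walk f (t + 1) ∈ A then 1 else 0) := by
    intro f t ht
    have h1 := M.adj f t ht
    have h2 := hk _ _ h1
    rw [psi_ed M I A h1.ne] at h2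
    have hAt := at_step M f ht
    by_cases ha : M.walk f t ∈ A
    · by_cases hb' : M.walk f (t + 1) ∈ A
      · rw [if_neg (by tauto)] at h2
        have h3 := CharTwo.add_eq_zero.1 h2
        rw [h3]
        simp [ha, hb']
      · by_cases hf : f ∈ I
        · rw [if_pos ⟨Or.inl ⟨ha, hb'⟩, f, hf, hAt⟩] at h2
          rw [if_pos ⟨hf, ha⟩, if_neg fun h3 => hb' h3.2]
          revert h2
          generalize k (M.walk f t) = p
          generalize k (M.walk f (t + 1)) = q
          revert p q
          decide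
        · rw [if_neg] at h2
          · have h3 := CharTwo.add_eq_zero.1 h2
            rw [h3, if_neg fun h3 => hf h3.1, if_neg fun h3 => hf h3.1]
          · rintro ⟨_, h3⟩
            exact hf ((mem_iff_side M I h1 (hb _ _ ha hb') hAt).2 h3)
    · by_cases hb' : M.walk f (t + 1) ∈ A
      · by_cases hf : f ∈ I
        · rw [if_pos ⟨Or.inr ⟨hb', ha⟩, f, hf, hAt⟩] at h2
          rw [if_neg fun h3 => ha h3.2, if_pos ⟨hf, hb'⟩]
          revert h2
          generalize k (M.walk f t) = p
          generalize k (M.walk f (t + 1)) = q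
          revert p q
          decide
        · rw [if_neg] at h2
          · have h3 := CharTwo.add_eq_zero.1 h2
            rw [h3, if_neg fun h3 => hf h3.1, if_neg fun h3 => hf h3.1]
          · rintro ⟨_, h3⟩
            refine hf ((mem_iff_side M I h1 ?_ hAt).2 h3)
            rw [bd_comm]
            exact hb _ _ hb' ha
      · rw [if_neg (by tauto)] at h2
        have h3 := CharTwo.add_eq_zero.1 h2
        rw [h3]
        simp [ha, hb']
  have hval : ∀ f t, t ≤ M.len f →
      k (M.walk f t) + (if f ∈ I ∧ M.walk f t ∈ A then 1 else 0) =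
      k (M.walk f 0) + (if f ∈ I ∧ M.walk f 0 ∈ A then 1 else 0) := by
    intro f t
    induction t with
    | zero => intro _; rfl
    | succ t ih =>
      intro ht
      rw [← hstep f t ht]
      exact ih (by omega)
  refine (Submodule.mem_span_range_iff_exists_fun (ZMod 2)).2
    ⟨fun f => k (M.walk f 0) + (if f ∈ I ∧ M.walk f 0 ∈ A then 1 else 0), ?_⟩
  funext x y
  rw [Finset.sum_apply, Finset.sum_apply]
  have h1 : ∀ f, ((k (M.walk f 0) + (if f ∈ I ∧ M.walk f 0 ∈ A then 1 else 0)) • face M f) x y =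
      k x * face M f x y + (if x ∈ A then (if f ∈ I then face M f x y else 0) else 0) := by
    intro f
    simp only [Pi.smul_apply, smul_eq_mul]
    by_cases h2 : face M f x y = 0
    · rw [h2]
      simp
    · have hAt : At M f x y := by
        intro h3
        apply h2
        unfold face
        rw [h3, Nat.cast_zero]
      obtain ⟨t, ht, rfl⟩ := hAt.mem_walk
      rw [← hval f t ht, add_mul]
      congr 1
      by_cases h3 : M.walk f t ∈ A
      · by_cases h4 : f ∈ I
        · rw [if_pos ⟨h4, h3⟩, if_pos h3, if_pos h4, one_mul]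
        · rw [if_neg fun h5 => h4 h5.1, if_pos h3, if_neg h4, zero_mul]
      · rw [if_neg fun h5 => h3 h5.2, if_neg h3, zero_mul]
  rw [Finset.sum_congr rfl fun f _ => h1 f, Finset.sum_add_distrib, ← Finset.mul_sum, sum_face,
    mul_zero, zero_add]
  by_cases hx : x ∈ A
  · simp only [if_pos hx]
    rw [← Finset.sum_filter, Finset.filter_mem_eq_inter, Finset.univ_inter]
    have h2 := hbd x y
    rw [bd_cast, Finset.sum_apply, Finset.sum_apply] at h2
    rw [h2]
    have h3 : z' x y = 0 := by
      by_contra h3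
      exact hA' x y h3 hx
    rw [h3, add_zero]
  · simp only [if_neg hx, Finset.sum_const_zero]
    by_contra h2
    exact hx (hA x y (fun h3 => h2 h3.symm))


open Classical in
/-- The restriction of a function on pairs to the first entries in `A`. -/
noncomputable def res (A : Set V) : (V → V → ZMod 2) →ₗ[ZMod 2] (V → V → ZMod 2) where
  toFun z := fun x y => if x ∈ A then z x y else 0
  map_add' y z := by
    funext a b
    simp only [Pi.add_apply]
    by_cases h : a ∈ A <;> simp [h]
  map_smul' c z := by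
    funext a b
    simp only [Pi.smul_apply, RingHom.id_apply, smul_eq_mul]
    by_cases h : a ∈ A <;> simp [h]

open Classical in
/-- The value at one of the faces which contain the edge `xu`. -/
noncomputable def ev (M : FacialWalks G F) (x u : V) (c : F → ZMod 2) : ZMod 2 :=
  if h : ∃ f, At M f x u then c h.choose else 0

omit [Fintype V] in
theorem ev_add (M : FacialWalks G F) (x u : V) (c d : F → ZMod 2) :
    ev M x u (c + d) = ev M x u c + ev M x u d := by
  unfold ev
  split_ifs
  · rfl
  · rw [add_zero]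

omit [Fintype V] in
theorem ev_smul (M : FacialWalks G F) (x u : V) (a : ZMod 2) (c : F → ZMod 2) :
    ev M x u (a • c) = a * ev M x u c := by
  unfold ev
  split_ifs
  · rfl
  · rw [mul_zero]

open Classical in
/-- The bilinear pairing of a set of faces and a cycle along the edges leaving `A`. -/
noncomputable def pair (M : FacialWalks G F) (A : Set V) :
    (F → ZMod 2) →ₗ[ZMod 2] (V → V → ZMod 2) →ₗ[ZMod 2] ZMod 2 :=
  LinearMap.mk₂ (ZMod 2)
    (fun c y => ∑ x, ∑ u, if x ∈ A ∧ u ∉ A then ev M x u c * y x u else 0)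
    (by
      intro c d y
      rw [← Finset.sum_add_distrib]
      refine Finset.sum_congr rfl fun x _ => ?_
      rw [← Finset.sum_add_distrib]
      refine Finset.sum_congr rfl fun u _ => ?_
      by_cases h : x ∈ A ∧ u ∉ A
      · rw [if_pos h, if_pos h, if_pos h, ev_add, add_mul]
      · rw [if_neg h, if_neg h, if_neg h, add_zero])
    (by
      intro a c y
      rw [smul_eq_mul, Finset.mul_sum]
      refine Finset.sum_congr rfl fun x _ => ?_
      rw [Finset.mul_sum]
      refine Finset.sum_congr rfl fun u _ => ?_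
      by_cases h : x ∈ A ∧ u ∉ A
      · rw [if_pos h, if_pos h, ev_smul, mul_assoc]
      · rw [if_neg h, if_neg h, mul_zero])
    (by
      intro c y z
      rw [← Finset.sum_add_distrib]
      refine Finset.sum_congr rfl fun x _ => ?_
      rw [← Finset.sum_add_distrib]
      refine Finset.sum_congr rfl fun u _ => ?_
      by_cases h : x ∈ A ∧ u ∉ A
      · rw [if_pos h, if_pos h, if_pos h, Pi.add_apply, Pi.add_apply, mul_add]
      · rw [if_neg h, if_neg h, if_neg h, add_zero])
    (by
      intro a c y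
      rw [smul_eq_mul, Finset.mul_sum]
      refine Finset.sum_congr rfl fun x _ => ?_
      rw [Finset.mul_sum]
      refine Finset.sum_congr rfl fun u _ => ?_
      by_cases h : x ∈ A ∧ u ∉ A
      · rw [if_pos h, if_pos h, Pi.smul_apply, Pi.smul_apply, smul_eq_mul, mul_left_comm]
      · rw [if_neg h, if_neg h, mul_zero])

open Classical in
theorem pair_apply (M : FacialWalks G F) (A : Set V) (c : F → ZMod 2) (y : V → V → ZMod 2) :
    pair M A c y = ∑ x, ∑ u, if x ∈ A ∧ u ∉ A then ev M x u c * y x u else 0 := rfl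

omit [Fintype V] in
theorem exists_at (M : FacialWalks G F) {x u : V} (h : G.Adj x u) : ∃ f, At M f x u := by
  by_contra hcon
  push Not at hcon
  have h1 := M.twice x u h
  have h2 : ∑ f, trav (M.len f) (M.walk f) x u = 0 := by
    refine Finset.sum_eq_zero fun f _ => ?_
    by_contra h3
    exact hcon f h3
  omega

open Classical in
theorem pair_eq_psi (M : FacialWalks G F) (A : Set V) (c : F → ZMod 2)
    (hb : ∀ x u, x ∈ A → u ∉ A → bd M (univ.filter fun f => c f ≠ 0) x u ≠ 1)
    {y : V → V → ZMod 2} (hy : y ∈ Z G Set.univ) :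
    pair M A c y = psi M (univ.filter fun f => c f ≠ 0) A y := by
  have h01 : ∀ x : ZMod 2, x ≠ 0 → x = 1 := by decide
  rw [pair_apply, psi_apply]
  refine Finset.sum_congr rfl fun x _ => Finset.sum_congr rfl fun u _ => ?_
  by_cases h : x ∈ A ∧ u ∉ A
  · rw [if_pos h]
    by_cases h1 : y x u = 0
    · rw [h1, mul_zero]
      split_ifs <;> rfl
    · have h2 : G.Adj x u := (hy.2.1 x u h1).1
      have h3 := exists_at M h2
      have h4 := mem_iff_side M (univ.filter fun f => c f ≠ 0) h2 (hb x u h.1 h.2) h3.choose_spec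
      unfold ev
      rw [dif_pos h3]
      by_cases h5 : c h3.choose = 0
      · rw [h5, zero_mul, if_neg]
        rintro ⟨_, _, h6⟩
        have h7 := h4.2 h6
        simp only [mem_filter, mem_univ, true_and] at h7
        exact h7 h5
      · rw [h01 _ h5, one_mul, if_pos]
        refine ⟨h.1, h.2, h4.1 ?_⟩
        simp only [mem_filter, mem_univ, true_and]
        exact h5
  · rw [if_neg h, if_neg fun h1 => h ⟨h1.1, h1.2.1⟩]

/-- Cycles inside `A` and outside `A`: the dimensions modulo boundaries. -/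
theorem dim_disjoint (hG : Conn G Set.univ) (M : FacialWalks G F) (A : Set V) (r : V) :
    Module.finrank (ZMod 2) (Z G A ⊔ Bnd M : Submodule (ZMod 2) (V → V → ZMod 2)) +
      Module.finrank (ZMod 2) (Z G Aᶜ ⊔ Bnd M : Submodule (ZMod 2) (V → V → ZMod 2)) ≤
    Module.finrank (ZMod 2) (Z G Set.univ) + Module.finrank (ZMod 2) (Bnd M) := by
  classical
  set Y : Submodule (ZMod 2) (V → V → ZMod 2) := Z G Aᶜ ⊔ Bnd M with hY
  set X : Submodule (ZMod 2) (V → V → ZMod 2) := Z G A ⊔ Bnd M with hX
  set L : (F → ZMod 2) →ₗ[ZMod 2] (V → V → ZMod 2) :=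
    Fintype.linearCombination (ZMod 2) (face M) with hL
  let C : Submodule (ZMod 2) (F → ZMod 2) := Submodule.comap L (Z G A ⊔ Z G Aᶜ)
  let Θ : C →ₗ[ZMod 2] ((V → V → ZMod 2) ⧸ Bnd M) := (Bnd M).mkQ ∘ₗ res A ∘ₗ L ∘ₗ C.subtype
  let Ψ : C →ₗ[ZMod 2] Module.Dual (ZMod 2) (Z G Set.univ) :=
    (Submodule.dualRestrict (Z G Set.univ)) ∘ₗ pair M A ∘ₗ C.subtype
  -- facts about the elements of `C`
  have hres : ∀ z z' : V → V → ZMod 2, z ∈ Z G A → z' ∈ Z G Aᶜ → res A (z + z') = z := by
    intro z z' hz hz'
    funext x y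
    change (if x ∈ A then (z + z') x y else 0) = z x y
    rw [Pi.add_apply, Pi.add_apply]
    by_cases hx : x ∈ A
    · rw [if_pos hx]
      have h1 : z' x y = 0 := by
        by_contra h1
        exact (mem_Z_iff.1 hz').2 x y h1 hx
      rw [h1, add_zero]
    · rw [if_neg hx]
      by_contra h1
      exact hx ((mem_Z_iff.1 hz).2 x y fun h2 => h1 h2.symm)
  have hLI : ∀ c : F → ZMod 2, L c = ∑ f ∈ univ.filter (fun f => c f ≠ 0), face M f := by
    intro c
    have h01 : ∀ x : ZMod 2, x ≠ 0 → x = 1 := by decide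
    rw [hL, Fintype.linearCombination_apply, Finset.sum_filter]
    refine Finset.sum_congr rfl fun f _ => ?_
    by_cases h : c f = 0
    · rw [h, zero_smul, if_neg (by simp)]
    · rw [h01 _ h, one_smul, if_pos (by simp)]
  have hC : ∀ c ∈ C, ∃ z ∈ Z G A, ∃ z' ∈ Z G Aᶜ, z + z' = L c := by
    intro c hc
    exact Submodule.mem_sup.1 hc
  have hb : ∀ c ∈ C, ∀ x u, x ∈ A → u ∉ A → bd M (univ.filter fun f => c f ≠ 0) x u ≠ 1 := by
    intro c hc x u hx hu h1
    obtain ⟨z, hz, z', hz', hzz⟩ := hC c hc
    have h2 : ((bd M (univ.filter fun f => c f ≠ 0) x u : ℕ) : ZMod 2) = z x u + z' x u := by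
      rw [bd_cast, ← hLI, ← hzz]
      rfl
    rw [h1, Nat.cast_one] at h2
    have h3 : z x u = 0 := by
      by_contra h3
      rw [hz.1] at h3
      exact hu ((mem_Z_iff.1 hz).2 u x h3)
    have h4 : z' x u = 0 := by
      by_contra h4
      exact (mem_Z_iff.1 hz').2 x u h4 hx
    rw [h3, h4] at h2
    exact absurd h2 (by decide)
  -- the kernel
  have hker : LinearMap.ker Ψ ≤ LinearMap.ker Θ := by
    intro c hc
    rw [LinearMap.mem_ker] at hc ⊢
    obtain ⟨z, hz, z', hz', hzz⟩ := hC c.1 c.2
    have h1 : z ∈ Bnd M := by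
      refine mem_Bnd_of_psi hG M A r (z := z) (z' := z') (mem_Z_iff.1 hz).2
        (fun x y h => (mem_Z_iff.1 hz').2 x y h) hz.1
        (univ.filter fun f => c.1 f ≠ 0) (by rw [hzz, hLI]) fun y hy => ?_
      rw [← pair_eq_psi M A c.1 (hb c.1 c.2) hy]
      exact LinearMap.congr_fun hc ⟨y, hy⟩
    change (Bnd M).mkQ (res A (L c.1)) = 0
    rw [← hzz, hres z z' hz hz', Submodule.mkQ_apply, Submodule.Quotient.mk_eq_zero]
    exact h1
  have hΘΨ : Module.finrank (ZMod 2) (LinearMap.range Θ) ≤
      Module.finrank (ZMod 2) (LinearMap.range Ψ) := by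
    have h1 := LinearMap.finrank_range_add_finrank_ker Θ
    have h2 := LinearMap.finrank_range_add_finrank_ker Ψ
    have h3 := Submodule.finrank_mono hker
    omega
  -- the range of `Ψ`
  have hrange : Module.finrank (ZMod 2) (LinearMap.range Ψ) +
      Module.finrank (ZMod 2) (X ⊔ Y : Submodule (ZMod 2) (V → V → ZMod 2)) ≤
      Module.finrank (ZMod 2) (Z G Set.univ) := by
    have hXY : X ⊔ Y ≤ Z G Set.univ := by
      refine sup_le (sup_le (Z_mono (Set.subset_univ _)) (Bnd_le M))
        (sup_le (Z_mono (Set.subset_univ _)) (Bnd_le M))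
    set W : Submodule (ZMod 2) (Z G Set.univ) := Submodule.comap (Z G Set.univ).subtype (X ⊔ Y)
      with hW
    have h1 : LinearMap.range Ψ ≤ W.dualAnnihilator := by
      rintro _ ⟨c, rfl⟩
      rw [Submodule.mem_dualAnnihilator]
      intro w hw
      have h2 : (w : V → V → ZMod 2) ∈ X ⊔ Y := hw
      change pair M A c.1 w.1 = 0
      rw [pair_eq_psi M A c.1 (hb c.1 c.2) w.2]
      have h3 : X ⊔ Y ≤ LinearMap.ker (psi M (univ.filter fun f => c.1 f ≠ 0) A) := by
        have h4 : Bnd M ≤ LinearMap.ker (psi M (univ.filter fun f => c.1 f ≠ 0) A) := fun y hy =>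
          LinearMap.mem_ker.2 (psi_Bnd M _ A (hb c.1 c.2) hy)
        refine sup_le (sup_le (fun y hy => ?_) h4) (sup_le (fun y hy => ?_) h4)
        · rw [LinearMap.mem_ker, psi_apply]
          refine Finset.sum_eq_zero fun x _ => Finset.sum_eq_zero fun u _ => ?_
          split_ifs with h5
          · by_contra h6
            rw [hy.1] at h6
            exact h5.2.1 ((mem_Z_iff.1 hy).2 u x h6)
          · rfl
        · rw [LinearMap.mem_ker, psi_apply]
          refine Finset.sum_eq_zero fun x _ => Finset.sum_eq_zero fun u _ => ?_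
          split_ifs with h5
          · by_contra h6
            exact (mem_Z_iff.1 hy).2 x u h6 h5.1
          · rfl
      exact LinearMap.mem_ker.1 (h3 h2)
    have h2 := Submodule.finrank_mono h1
    have h3 := Subspace.finrank_add_finrank_dualAnnihilator_eq W
    have h4 : Module.finrank (ZMod 2) W =
        Module.finrank (ZMod 2) (X ⊔ Y : Submodule (ZMod 2) (V → V → ZMod 2)) :=
      (Submodule.comapSubtypeEquivOfLe hXY).finrank_eq
    omega
  -- the range of `Θ`
  have hΘ : Module.finrank (ZMod 2) (X ⊓ Y : Submodule (ZMod 2) (V → V → ZMod 2)) ≤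
      Module.finrank (ZMod 2) (LinearMap.range Θ) + Module.finrank (ZMod 2) (Bnd M) := by
    have h1 : Submodule.map (Bnd M).mkQ (X ⊓ Y) ≤ LinearMap.range Θ := by
      rintro _ ⟨w, ⟨hw1, hw2⟩, rfl⟩
      obtain ⟨z, hz, b, hbb, hzb⟩ := Submodule.mem_sup.1 hw1
      obtain ⟨z', hz', b', hb', hzb'⟩ := Submodule.mem_sup.1 hw2
      have h2 : z + z' ∈ Bnd M := by
        have h3 : z + z' = b + b' := by
          have h4 : z + b = z' + b' := hzb.trans hzb'.symm
          funext x y
          have h5 := congrFun (congrFun h4 x) y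
          simp only [Pi.add_apply] at h5 ⊢
          revert h5
          generalize z x y = p1
          generalize z' x y = p2
          generalize b x y = p3
          generalize b' x y = p4
          revert p1 p2 p3 p4
          decide
        rw [h3]
        exact Submodule.add_mem _ hbb hb'
      obtain ⟨c, hc⟩ := (Submodule.mem_span_range_iff_exists_fun (ZMod 2)).1 h2
      have hLc : L c = z + z' := by
        rw [hL, Fintype.linearCombination_apply]
        exact hc
      have hcC : c ∈ C := by
        change L c ∈ Z G A ⊔ Z G Aᶜ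
        rw [hLc]
        exact Submodule.add_mem_sup hz hz'
      refine ⟨⟨c, hcC⟩, ?_⟩
      change (Bnd M).mkQ (res A (L c)) = (Bnd M).mkQ w
      rw [hLc, hres z z' hz hz', ← sub_eq_zero, ← map_sub, Submodule.mkQ_apply,
        Submodule.Quotient.mk_eq_zero, ← hzb]
      have h6 : z - (z + b) = -b := by abel
      rw [h6]
      exact Submodule.neg_mem _ hbb
    have h2 := Submodule.finrank_mono h1
    have h3 := LinearMap.finrank_range_add_finrank_ker ((Bnd M).mkQ.domRestrict (X ⊓ Y))
    have h4 : LinearMap.range ((Bnd M).mkQ.domRestrict (X ⊓ Y)) =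
        Submodule.map (Bnd M).mkQ (X ⊓ Y) := LinearMap.range_domRestrict _ _
    have h5 : LinearMap.ker ((Bnd M).mkQ.domRestrict (X ⊓ Y)) =
        Submodule.comap (X ⊓ Y).subtype (Bnd M) := by
      rw [LinearMap.ker_domRestrict, Submodule.ker_mkQ]
    have h6 : Bnd M ≤ X ⊓ Y := le_inf le_sup_right le_sup_right
    have h7 : Module.finrank (ZMod 2) (Submodule.comap (X ⊓ Y).subtype (Bnd M)) =
        Module.finrank (ZMod 2) (Bnd M) := (Submodule.comapSubtypeEquivOfLe h6).finrank_eq
    rw [h4, h5, h7] at h3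
    omega
  have h8 := Submodule.finrank_sup_add_finrank_inf_eq X Y
  omega

end Pool.Agent.W986
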