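import Pool.Agent.W986.HubComp

/-!
# The count for a graph on the sphere with a hub
-/

set_option autoImplicit false

open Finset

namespace Pool.Agent.W986

open Pool.Agent.DC76

section hub

variable {U : Type} [Fintype U] {H : SimpleGraph U}

/-- A connected part `A` of a connected set `J`, attached at one vertex, such that no vertex of `A`
cuts `J`. -/
theorem sel2 {J NP : Set U} (hJ : Conn H J) (hNP : NP.ncard ≤ 3)
    (hNPJ : ∀ u ∈ NP, ∃ x ∈ J, H.Adj u x) :
    (∀ a ∈ J, Conn H (J \ {a})) ∨ ∃ c ∈ J, ∃ A : Set U, A ⊆ J ∧ A.Nonempty ∧ c ∉ A ∧ Conn H A ∧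
      Conn H (J \ A) ∧ (∀ x ∈ A, ∀ y ∈ J, H.Adj x y → y ∈ A ∨ y = c) ∧ (∃ x ∈ A, H.Adj x c) ∧
      {u | u ∈ NP ∧ ∀ x ∈ J, H.Adj u x → x ∈ A}.ncard ≤ 1 ∧ ∀ a ∈ A, Conn H (J \ {a}) := by
  classical
  by_cases hall : ∀ a ∈ J, Conn H (J \ {a})
  · exact Or.inl hall
  right
  let P : U × U → Prop := fun t => t.1 ∈ J ∧ t.2 ∈ J \ {t.1} ∧
    (∃ m ∈ J \ {t.1}, m ∉ comp H (J \ {t.1}) t.2) ∧
      {u | u ∈ NP ∧ ∀ x ∈ J, H.Adj u x → x ∈ comp H (J \ {t.1}) t.2}.ncard ≤ 1
  have hex : ∃ t, P t := by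
    push Not at hall
    obtain ⟨a0, ha0, hnc⟩ := hall
    unfold Conn at hnc
    push Not at hnc
    obtain ⟨x, hx, y, hy, hxy⟩ := hnc
    have hxy1 : y ∉ comp H (J \ {a0}) x := hxy
    have hxy2 : x ∉ comp H (J \ {a0}) y := fun h1 => hxy1 (comp_symm hy h1)
    have hdis : ∀ z, z ∈ comp H (J \ {a0}) x → z ∈ comp H (J \ {a0}) y → False := by
      intro z hz hz'
      exact hxy1 (comp_trans hz (comp_symm hy hz'))
    have h1 : Disjoint {u | u ∈ NP ∧ ∀ z ∈ J, H.Adj u z → z ∈ comp H (J \ {a0}) x}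
        {u | u ∈ NP ∧ ∀ z ∈ J, H.Adj u z → z ∈ comp H (J \ {a0}) y} := by
      rw [Set.disjoint_left]
      rintro u ⟨hu, hu1⟩ ⟨_, hu2⟩
      obtain ⟨z, hz, huz⟩ := hNPJ u hu
      exact hdis z (hu1 z hz huz) (hu2 z hz huz)
    have h2 := Set.ncard_union_eq h1 (Set.toFinite _) (Set.toFinite _)
    have h3 : ({u | u ∈ NP ∧ ∀ z ∈ J, H.Adj u z → z ∈ comp H (J \ {a0}) x} ∪
        {u | u ∈ NP ∧ ∀ z ∈ J, H.Adj u z → z ∈ comp H (J \ {a0}) y}).ncard ≤ NP.ncard := by
      refine Set.ncard_le_ncard ?_ (Set.toFinite _)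
      rintro u (hu | hu)
      · exact hu.1
      · exact hu.1
    by_cases h4 : {u | u ∈ NP ∧ ∀ z ∈ J, H.Adj u z → z ∈ comp H (J \ {a0}) x}.ncard ≤ 1
    · exact ⟨(a0, x), ha0, hx, ⟨y, hy, hxy1⟩, h4⟩
    · refine ⟨(a0, y), ha0, hy, ⟨x, hx, hxy2⟩, ?_⟩
      change {u | u ∈ NP ∧ ∀ z ∈ J, H.Adj u z → z ∈ comp H (J \ {a0}) y}.ncard ≤ 1
      omega
  obtain ⟨⟨c, k⟩, ht, hmin⟩ := Finset.exists_min_image (univ.filter P)
    (fun t => (comp H (J \ {t.1}) t.2).ncard)
    (by
      obtain ⟨t, ht⟩ := hex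
      exact ⟨t, mem_filter.2 ⟨mem_univ _, ht⟩⟩)
  obtain ⟨hc, hk, ⟨m, hm, hmA⟩, hn1⟩ := (mem_filter.1 ht).2
  simp only at hc hk hm hmA hn1
  set A := comp H (J \ {c}) k with hA
  have hAJ : A ⊆ J \ {c} := comp_sub hk
  have hcA : c ∉ A := fun h1 => (hAJ h1).2 rfl
  have hclA : ∀ x ∈ A, ∀ y ∈ J, H.Adj x y → y ∈ A ∨ y = c := by
    intro x hx y hy hxy
    by_cases hyc : y = c
    · exact Or.inr hyc
    · exact Or.inl (comp_adj hx ⟨hy, hyc⟩ hxy)
  refine ⟨c, hc, A, fun x hx => (hAJ hx).1, ⟨k, comp_self⟩, hcA, comp_conn hk, ?_, hclA, ?_, hn1, ?_⟩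
  · -- the rest is connected
    have h1 : ∀ z, Lnk H J c z → z ∈ A ∨ (z ∈ J \ A ∧ Lnk H (J \ A) c z) := by
      intro z hz
      induction hz with
      | refl => exact Or.inr ⟨⟨hc, hcA⟩, Relation.ReflTransGen.refl⟩
      | @tail p q _ hpq ih =>
        by_cases hq : q ∈ A
        · exact Or.inl hq
        · right
          refine ⟨⟨hpq.1, hq⟩, ?_⟩
          rcases ih with h2 | h2
          · rcases hclA p h2 q hpq.1 hpq.2 with h3 | h3
            · exact absurd h3 hq
            · rw [h3]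
              exact Relation.ReflTransGen.refl
          · exact h2.2.tail ⟨⟨hpq.1, hq⟩, hpq.2⟩
    have h2 : ∀ z ∈ J \ A, Lnk H (J \ A) c z := by
      intro z hz
      rcases h1 z (hJ c hc z hz.1) with h3 | h3
      · exact absurd h3 hz.2
      · exact h3.2
    intro x hx y hy
    exact (Lnk.symm (h2 x hx) ⟨hc, hcA⟩).trans (h2 y hy)
  · -- `c` has a neighbour in `A`
    by_contra hcon
    push Not at hcon
    have h1 := conn_closed (T := A) hJ hk.1 comp_self (by
      intro y hy z hz hyz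
      rcases hclA y hy z hz hyz with h1 | h1
      · exact h1
      · exact absurd (h1 ▸ hyz) (hcon y hy))
    exact hcA (h1 hc)
  · -- no vertex of `A` cuts `J`
    intro a ha
    by_contra hnc
    unfold Conn at hnc
    push Not at hnc
    obtain ⟨x, hx, y, hy, hxy⟩ := hnc
    have hca : c ∈ J \ {a} := ⟨hc, fun h1 => hcA (h1 ▸ ha)⟩
    obtain ⟨z, hz, hcz⟩ : ∃ z ∈ J \ {a}, c ∉ comp H (J \ {a}) z := by
      by_cases h1 : c ∈ comp H (J \ {a}) x
      · refine ⟨y, hy, ?_⟩
        intro h2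
        exact hxy (comp_trans h1 (comp_symm hy h2))
      · exact ⟨x, hx, h1⟩
    set K' := comp H (J \ {a}) z with hK'
    have hK'J : K' ⊆ J \ {a} := comp_sub hz
    have haK' : a ∉ K' := fun h1 => (hK'J h1).2 rfl
    -- a vertex of `K'` next to `a`
    obtain ⟨x', hx', hx'a⟩ : ∃ x' ∈ K', H.Adj x' a := by
      by_contra hcon
      push Not at hcon
      have h1 := conn_closed (T := K') hJ hz.1 comp_self (by
        intro p hp q hq hpq
        by_cases hqa : q = a
        · exact absurd (hqa ▸ hpq) (hcon p hp)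
        · exact comp_adj hp ⟨hq, hqa⟩ hpq)
      exact hcz (h1 hc)
    have hK'c : K' ⊆ J \ {c} := by
      intro p hp
      refine ⟨(hK'J hp).1, ?_⟩
      intro h1
      exact hcz (h1 ▸ hp)
    have hx'A : x' ∈ A := comp_adj ha (hK'c hx') hx'a.symm
    have hK'A : K' ⊆ A := conn_sub_comp (comp_conn hz) hK'c hx' hx'A
    have hlt : K'.ncard < A.ncard :=
      Set.ncard_lt_ncard ⟨hK'A, fun h1 => haK' (h1 ha)⟩ (Set.toFinite _)
    have h1 := hmin (a, z) (mem_filter.2 ⟨mem_univ _, (hAJ ha).1, hz, ⟨c, hca, hcz⟩, by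
      refine le_trans (Set.ncard_le_ncard ?_ (Set.toFinite _)) hn1
      rintro u ⟨hu, hu1⟩
      exact ⟨hu, fun p hp hup => hK'A (hu1 p hp hup)⟩⟩)
    simp only at h1
    exact absurd hlt (not_lt.2 h1)

open Classical in
/-- The numbers for a part `A` of a connected set `J = A ∪ C`. -/
theorem hub_numbers {B : Set U} (hH : SphereMinor H B) {h : U}
    (hdeg : ∀ v, v ≠ h → 5 ≤ ∑ w, ib (H.Adj v w)) {j : U} (hj : j ∈ inn H h)
    (A : Finset U) (C : Set U) (hA : A.Nonempty) (hAC : ∀ a ∈ A, a ∉ C)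
    (hJ : ∀ x, x ∈ comp H (inn H h) j ↔ x ∈ A ∨ x ∈ C) (hAc : Conn H (A : Set U))
    (hCc : Conn H C) (hcut : ∀ a ∈ A, Conn H (comp H (inn H h) j \ {a}))
    (c : U) (hc : ∀ a ∈ A, ∀ y ∈ C, H.Adj a y → y = c)
    (hcnt : 20 * A.card ≤ 3 * dd H A A + 4 * dd H A Aᶜ) :
    ∃ e X n s n1 D : ℕ, e + 2 * X + 6 ≤ 6 * A.card + 2 * n ∧
      (C.Nonempty → e + 2 * X + 2 * D + 2 * s ≤ 6 * A.card + 2 * n) ∧
      X ≤ 2 * A.card + n1 ∧ 2 * n ≤ X + s + n1 ∧ 20 * A.card ≤ 3 * e + 4 * X + 4 * D ∧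
      s ≤ 2 ∧ (¬ C.Nonempty → s = 0 ∧ D = 0) ∧
      ((∃ a ∈ A, ∃ y ∈ C, H.Adj a y) → 1 ≤ D) ∧
      n1 ≤ {u | (u ∈ nbh H h (comp H (inn H h) j) ∧
        ∃ x ∈ rst H h (comp H (inn H h) j), H.Adj u x) ∧
        ∀ x ∈ comp H (inn H h) j, H.Adj u x → x ∈ A}.ncard := by
  set J := comp H (inn H h) j with hJdef
  have hJc : Conn H J := comp_conn hj
  have hJI : J ⊆ inn H h := comp_sub hj
  have hhJ : h ∉ J := fun hh => (hJI hh).1 rfl
  have hAJ : ∀ a ∈ A, a ∈ J := fun a ha => (hJ a).2 (Or.inl ha)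
  have hCJ : ∀ a ∈ C, a ∈ J := fun a ha => (hJ a).2 (Or.inr ha)
  have hNJ : ∀ u, H.Adj h u → u ∉ J := fun u hu hu2 => (hJI hu2).2 hu
  set N : Finset U := univ.filter fun u => H.Adj h u ∧ ∃ x ∈ A, H.Adj u x with hN
  have hNh : ∀ u ∈ N, H.Adj h u := fun u hu => (mem_filter.1 hu).2.1
  have hNx : ∀ u ∈ N, ∃ x ∈ A, H.Adj u x := fun u hu => (mem_filter.1 hu).2.2
  have hNA : ∀ u ∈ N, u ∉ A := fun u hu h1 => hNJ u (hNh u hu) (hAJ u h1)
  have hNC : ∀ u ∈ N, u ∉ C := fun u hu h1 => hNJ u (hNh u hu) (hCJ u h1)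
  set S : Finset U := N.filter fun u => ∃ x ∈ C, H.Adj u x with hS
  set N1 : Finset U := N.filter fun u => (¬ ∃ x ∈ C, H.Adj u x) ∧ ∑ a ∈ A, ib (H.Adj u a) = 1
    with hN1
  have hhA : h ∉ A := fun hh => hhJ (hAJ h hh)
  have hhC : h ∉ C := fun hh => hhJ (hCJ h hh)
  refine ⟨dd H A A, dd H A N, N.card, S.card, N1.card, ∑ a ∈ A, ib (∃ x ∈ C, H.Adj a x),
    ?_, ?_, ?_, ?_, ?_, ?_, ?_, ?_, ?_⟩
  · -- the inequality for `A`
    obtain ⟨a0, ha0⟩ := hA
    have h1 := hH.eplus (A := A.erase a0) (N := N) (C := {a0}) (h := h) ⟨a0, rfl⟩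
      (conn_singleton a0) (fun a ha h1 => (mem_erase.1 ha).1 h1)
      (fun hh => hhA (mem_erase.1 hh).2) (fun hh => hhA ((Set.mem_singleton_iff.1 hh) ▸ ha0)) hNh
      (fun u hu h1 => hNA u hu (mem_erase.1 h1).2)
      (fun u hu h1 => hNA u hu ((Set.mem_singleton_iff.1 h1) ▸ ha0))
      (by
        have h2 : {x | x ∈ A.erase a0 ∨ x ∈ ({a0} : Set U)} = (A : Set U) := by
          ext x
          simp only [mem_erase, Set.mem_singleton_iff, mem_coe]
          constructor
          · rintro (h3 | h3)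
            · exact h3.2
            · rw [h3]
              exact ha0
          · intro h3
            by_cases h4 : x = a0
            · exact Or.inr h4
            · exact Or.inl ⟨h4, h3⟩
        rw [h2]
        exact hAc)
      (by
        intro u hu
        obtain ⟨x, hx, hux⟩ := hNx u hu
        refine ⟨x, ?_, hux⟩
        by_cases h4 : x = a0
        · exact Or.inr h4
        · exact Or.inl (mem_erase.2 ⟨h4, hx⟩))
    have hdis : Disjoint ({a0} : Finset U) (A.erase a0) := by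
      rw [Finset.disjoint_singleton_left]
      exact Finset.notMem_erase a0 A
    have hAe : A = {a0} ∪ A.erase a0 := by
      rw [← Finset.insert_eq, Finset.insert_erase ha0]
    have e1 : dd H A A = dd H (A.erase a0) (A.erase a0) + 2 * dd H {a0} (A.erase a0) := by
      conv_lhs => rw [hAe]
      rw [dd_union_left H hdis, dd_union_right H hdis, dd_union_right H hdis, dd_singleton_self,
        dd_comm H (A.erase a0) {a0}]
      ring
    have e2 : dd H A N = dd H (A.erase a0) N + dd H {a0} N := by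
      conv_lhs => rw [hAe]
      rw [dd_union_left H hdis]
      ring
    have e3 : ∀ Y : Finset U, ∑ a ∈ Y, ib (∃ x ∈ ({a0} : Set U), H.Adj a x) = dd H {a0} Y := by
      intro Y
      unfold dd
      rw [Finset.sum_singleton]
      refine Finset.sum_congr rfl fun a _ => ?_
      congr 1
      apply propext
      constructor
      · rintro ⟨x, hx, h3⟩
        rw [Set.mem_singleton_iff] at hx
        rw [hx] at h3
        exact h3.symm
      · intro h3
        exact ⟨a0, rfl, h3.symm⟩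
    rw [e3, e3] at h1
    have e4 := Finset.card_erase_of_mem ha0
    have e5 : 0 < A.card := card_pos.2 ⟨a0, ha0⟩
    omega
  · -- the inequality for `A` and `C`
    intro hCne
    have h1 := hH.eplus (A := A) (N := N) (C := C) (h := h) hCne hCc hAC hhA hhC hNh hNA hNC
      (by
        have h2 : {x | x ∈ A ∨ x ∈ C} = J := by
          ext x
          exact (hJ x).symm
        rw [h2]
        exact hJc)
      (by
        intro u hu
        obtain ⟨x, hx, hux⟩ := hNx u hu
        exact ⟨x, Or.inl hx, hux⟩)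
    rw [← card_ib N (fun a => ∃ x ∈ C, H.Adj a x)] at h1
    omega
  · -- common neighbours of `a` and the rest of `J`
    have h1 : ∀ a ∈ A, ∑ u ∈ N, ib (H.Adj a u ∧ ∃ y ∈ J \ {a}, H.Adj u y) ≤ 2 := by
      intro a ha
      by_cases hne : (J \ {a}).Nonempty
      · have h2 := hH.common_le (h := h) (X := {a}) (Y := J \ {a}) ⟨a, rfl⟩ (conn_singleton a) hne
          (hcut a ha) (Set.disjoint_left.2 fun z hz hz' => hz'.2 hz)
          (fun hh => hhA ((Set.mem_singleton_iff.1 hh) ▸ ha)) (fun hh => hhJ hh.1)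
        rw [← card_ib]
        refine le_trans ?_ h2
        rw [← Set.ncard_coe_finset]
        refine Set.ncard_le_ncard ?_ (Set.toFinite _)
        intro u hu
        have hu2 := mem_filter.1 (mem_coe.1 hu)
        refine ⟨hNh u hu2.1, ?_, fun h3 => hNJ u (hNh u hu2.1) h3.1, ⟨a, rfl, hu2.2.1.symm⟩,
          hu2.2.2⟩
        intro h3
        exact hNA u hu2.1 ((Set.mem_singleton_iff.1 h3) ▸ ha)
      · have h2 : ∑ u ∈ N, ib (H.Adj a u ∧ ∃ y ∈ J \ {a}, H.Adj u y) = 0 := by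
          refine Finset.sum_eq_zero fun u _ => ib_neg ?_
          rintro ⟨_, y, hy, _⟩
          exact hne ⟨y, hy⟩
        omega
    have h2 : ∀ a ∈ A, ∀ u ∈ N, ib (H.Adj a u) ≤
        ib (H.Adj a u ∧ ∃ y ∈ J \ {a}, H.Adj u y) + ib (H.Adj a u ∧ u ∈ N1) := by
      intro a ha u hu
      by_cases h3 : H.Adj a u
      · by_cases h4 : ∃ y ∈ J \ {a}, H.Adj u y
        · rw [ib_pos (⟨h3, h4⟩ : H.Adj a u ∧ ∃ y ∈ J \ {a}, H.Adj u y), ib_pos h3]
          exact Nat.le_add_right _ _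
        · have h5 : u ∈ N1 := by
            refine mem_filter.2 ⟨hu, ?_, ?_⟩
            · rintro ⟨x, hx, hux⟩
              exact h4 ⟨x, ⟨hCJ x hx, fun h6 => hAC a ha ((Set.mem_singleton_iff.1 h6) ▸ hx)⟩, hux⟩
            · rw [Finset.sum_eq_single a]
              · exact ib_pos h3.symm
              · intro b hb hba
                refine ib_neg fun h6 => h4 ⟨b, ⟨hAJ b hb, hba⟩, h6⟩
              · intro h6
                exact absurd ha h6
          rw [ib_pos (⟨h3, h5⟩ : H.Adj a u ∧ u ∈ N1), ib_pos h3]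
          exact Nat.le_add_left _ _
      · rw [ib_neg h3]
        exact Nat.zero_le _
    have h3 : ∑ a ∈ A, ∑ u ∈ N, ib (H.Adj a u ∧ u ∈ N1) = N1.card := by
      rw [Finset.sum_comm, hN1, Finset.card_filter]
      refine Finset.sum_congr rfl fun u hu => ?_
      by_cases h4 : (¬ ∃ x ∈ C, H.Adj u x) ∧ ∑ a ∈ A, ib (H.Adj u a) = 1
      · rw [if_pos h4]
        refine Eq.trans (Finset.sum_congr rfl fun a _ => ?_) h4.2
        congr 1
        apply propext
        constructor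
        · intro h5
          exact h5.1.symm
        · intro h5
          exact ⟨h5.symm, mem_filter.2 ⟨hu, h4⟩⟩
      · rw [if_neg h4]
        refine Finset.sum_eq_zero fun a _ => ib_neg ?_
        rintro ⟨_, h5⟩
        exact h4 (mem_filter.1 h5).2
    calc dd H A N ≤ ∑ a ∈ A, ∑ u ∈ N, (ib (H.Adj a u ∧ ∃ y ∈ J \ {a}, H.Adj u y) +
          ib (H.Adj a u ∧ u ∈ N1)) :=
          Finset.sum_le_sum fun a ha => Finset.sum_le_sum fun u hu => h2 a ha u hu
      _ = ∑ a ∈ A, ∑ u ∈ N, ib (H.Adj a u ∧ ∃ y ∈ J \ {a}, H.Adj u y) + N1.card := by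
          rw [← h3, ← Finset.sum_add_distrib]
          exact Finset.sum_congr rfl fun a _ => Finset.sum_add_distrib
      _ ≤ 2 * A.card + N1.card := by
          refine Nat.add_le_add_right ?_ _
          rw [mul_comm, ← smul_eq_mul, ← Finset.sum_const]
          exact Finset.sum_le_sum h1
  · -- at least two neighbours in `A`
    rw [dd_comm]
    have h1 : ∀ u ∈ N, 2 ≤ ∑ a ∈ A, ib (H.Adj u a) + (ib (∃ x ∈ C, H.Adj u x) +
        ib ((¬ ∃ x ∈ C, H.Adj u x) ∧ ∑ a ∈ A, ib (H.Adj u a) = 1)) := by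
      intro u hu
      have h2 : 1 ≤ ∑ a ∈ A, ib (H.Adj u a) := by
        obtain ⟨x, hx, hux⟩ := hNx u hu
        refine le_trans (le_of_eq (ib_pos hux).symm) ?_
        exact Finset.single_le_sum (f := fun a => ib (H.Adj u a)) (fun _ _ => Nat.zero_le _) hx
      by_cases h3 : ∃ x ∈ C, H.Adj u x
      · rw [ib_pos h3]
        omega
      · by_cases h4 : ∑ a ∈ A, ib (H.Adj u a) = 1
        · rw [ib_pos (⟨h3, h4⟩ : (¬ ∃ x ∈ C, H.Adj u x) ∧ ∑ a ∈ A, ib (H.Adj u a) = 1)]
          omega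
        · omega
    have h2 := Finset.sum_le_sum h1
    rw [Finset.sum_const, smul_eq_mul, Finset.sum_add_distrib, Finset.sum_add_distrib, ← card_ib,
      ← card_ib] at h2
    change N.card * 2 ≤ dd H N A + (S.card + N1.card) at h2
    omega
  · -- the count
    have h1 : dd H A Aᶜ ≤ dd H A N + ∑ a ∈ A, ib (∃ x ∈ C, H.Adj a x) := by
      unfold dd
      rw [← Finset.sum_add_distrib]
      refine Finset.sum_le_sum fun a ha => ?_
      have h2 : ∑ y ∈ Aᶜ, ib (H.Adj a y) ≤ ∑ y ∈ N, ib (H.Adj a y) +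
          ∑ y ∈ {c}, ib (H.Adj a y ∧ y ∈ C) := by
        have h3 : ∀ y ∈ Aᶜ, ib (H.Adj a y) = ib (H.Adj a y ∧ y ∈ N) + ib (H.Adj a y ∧ y ∈ C) := by
          intro y hy
          by_cases h4 : H.Adj a y
          · have h5 : y ∈ N ∨ y ∈ C := by
              rcases inn_adj hj (hAJ a ha) h4 with h5 | h5
              · rcases (hJ y).1 h5 with h6 | h6
                · exact absurd h6 (mem_compl.1 hy)
                · exact Or.inr h6
              · exact Or.inl (mem_filter.2 ⟨mem_univ _, h5.1, a, ha, h4.symm⟩)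
            by_cases h6 : y ∈ C
            · have h7 : y ∉ N := fun h7 => hNC y h7 h6
              rw [ib_pos h4, ib_neg (fun h8 : H.Adj a y ∧ y ∈ N => h7 h8.2), ib_pos ⟨h4, h6⟩]
            · have h7 : y ∈ N := by tauto
              rw [ib_pos h4, ib_pos (⟨h4, h7⟩ : H.Adj a y ∧ y ∈ N),
                ib_neg (fun h8 : H.Adj a y ∧ y ∈ C => h6 h8.2)]
          · rw [ib_neg h4, ib_neg (fun h8 : H.Adj a y ∧ y ∈ N => h4 h8.1),
              ib_neg (fun h8 : H.Adj a y ∧ y ∈ C => h4 h8.1)]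
        rw [Finset.sum_congr rfl h3, Finset.sum_add_distrib]
        refine Nat.add_le_add ?_ ?_
        · rw [← card_ib, ← card_ib]
          refine card_le_card ?_
          intro y hy
          have h4 := (mem_filter.1 hy).2
          exact mem_filter.2 ⟨h4.2, h4.1⟩
        · rw [← card_ib, ← card_ib]
          refine card_le_card ?_
          intro y hy
          have h4 := (mem_filter.1 hy).2
          exact mem_filter.2 ⟨mem_singleton.2 (hc a ha y h4.2 h4.1), h4⟩
      refine le_trans h2 (Nat.add_le_add_left ?_ _)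
      rw [Finset.sum_singleton]
      by_cases h4 : H.Adj a c ∧ c ∈ C
      · rw [ib_pos h4, ib_pos (⟨c, h4.2, h4.1⟩ : ∃ x ∈ C, H.Adj a x)]
      · rw [ib_neg h4]
        exact Nat.zero_le _
    omega
  · -- `s ≤ 2`
    by_cases hCne : C.Nonempty
    · have h2 := hH.common_le (h := h) (X := (A : Set U)) (Y := C) hA hAc hCne hCc
        (Set.disjoint_left.2 fun z hz hz' => hAC z hz hz') hhA hhC
      refine le_trans ?_ h2
      rw [← Set.ncard_coe_finset]
      refine Set.ncard_le_ncard ?_ (Set.toFinite _)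
      intro u hu
      have hu2 := mem_filter.1 (mem_coe.1 hu)
      exact ⟨hNh u hu2.1, hNA u hu2.1, hNC u hu2.1, hNx u hu2.1, hu2.2⟩
    · have h2 : S = ∅ := by
        rw [hS, Finset.filter_eq_empty_iff]
        rintro u _ ⟨x, hx, _⟩
        exact hCne ⟨x, hx⟩
      rw [h2, card_empty]
      exact Nat.zero_le _
  · intro hCne
    constructor
    · rw [card_eq_zero, hS, Finset.filter_eq_empty_iff]
      rintro u _ ⟨x, hx, _⟩
      exact hCne ⟨x, hx⟩
    · refine Finset.sum_eq_zero fun a _ => ib_neg ?_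
      rintro ⟨x, hx, _⟩
      exact hCne ⟨x, hx⟩
  · rintro ⟨a, ha, y, hy, hay⟩
    refine le_trans (le_of_eq (ib_pos (⟨y, hy, hay⟩ : ∃ x ∈ C, H.Adj a x)).symm) ?_
    exact Finset.single_le_sum (f := fun a => ib (∃ x ∈ C, H.Adj a x))
      (fun _ _ => Nat.zero_le _) ha
  · rw [← Set.ncard_coe_finset]
    refine Set.ncard_le_ncard ?_ (Set.toFinite _)
    intro u hu
    obtain ⟨huN, huC, hu1⟩ := mem_filter.1 (mem_coe.1 hu)
    have hnbh : u ∈ nbh H h J := by
      obtain ⟨x, hx, hux⟩ := hNx u huN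
      exact ⟨hNh u huN, x, hAJ x hx, hux⟩
    have hin : ∀ x ∈ J, H.Adj u x → x ∈ A := by
      intro x hx hux
      rcases (hJ x).1 hx with h1 | h1
      · exact h1
      · exact absurd ⟨x, h1, hux⟩ huC
    refine ⟨⟨hnbh, ?_⟩, hin⟩
    by_contra hcon
    push Not at hcon
    have huh : u ≠ h := (hNh u huN).ne'
    have h5 := hdeg u huh
    have h2 := hH.common_le (h := h) (X := {u}) (Y := J) ⟨u, rfl⟩ (conn_singleton u)
      ⟨j, comp_self⟩ hJc (Set.disjoint_singleton_left.2 (hNJ u (hNh u huN)))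
      (fun hh => huh (Set.mem_singleton_iff.1 hh).symm) hhJ
    have hfT : {w | H.Adj h w ∧ w ∉ ({u} : Set U) ∧ w ∉ J ∧ (∃ x ∈ ({u} : Set U), H.Adj w x) ∧
      ∃ y ∈ J, H.Adj w y}.Finite := Set.toFinite _
    rw [Set.ncard_eq_toFinset_card _ hfT] at h2
    have h3 : ∑ w, ib (H.Adj u w) ≤ (insert h ((A.filter fun a => H.Adj u a) ∪
        hfT.toFinset)).card := by
      rw [← card_ib]
      refine card_le_card ?_
      intro w hw
      have huw := (mem_filter.1 hw).2
      by_cases h4 : w = h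
      · rw [h4]
        exact mem_insert_self _ _
      · refine mem_insert_of_mem ?_
        by_cases h6 : w ∈ J
        · exact mem_union_left _ (mem_filter.2 ⟨hin w h6 huw, huw⟩)
        · refine mem_union_right _ (hfT.mem_toFinset.2 ?_)
          have h7 : w ∈ nbh H h J := by
            by_contra h7
            exact hcon w ⟨h4, h6, h7⟩ huw
          exact ⟨h7.1, fun h8 => H.loopless.irrefl u ((Set.mem_singleton_iff.1 h8) ▸ huw), h6,
            ⟨u, rfl, huw.symm⟩, h7.2⟩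
    have h4 := le_trans h3 (le_trans (card_insert_le _ _)
      (Nat.add_le_add_right (card_union_le _ _) 1))
    rw [card_ib A (fun a => H.Adj u a), hu1] at h4
    omega

/-- The count. -/
theorem hub_false {B : Set U} (hH : SphereMinor H B) {h : U}
    (hdeg : ∀ v, v ≠ h → 5 ≤ ∑ w, ib (H.Adj v w)) [inst : DecidableEq U]
    (hcnt : ∀ A : Finset U, A.Nonempty → (∀ a ∈ A, a ∈ inn H h) →
      20 * A.card ≤ 3 * dd H A A + 4 * dd H A Aᶜ) (hne : ∃ v, v ≠ h) : False := by
  have hi : inst = fun a b => Classical.propDecidable (a = b) := Subsingleton.elim _ _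
  subst hi
  classical
  obtain ⟨j, hj, hNP⟩ := sel1 hH hdeg hne
  set J := comp H (inn H h) j with hJdef
  have hJc : Conn H J := comp_conn hj
  have hJI : J ⊆ inn H h := comp_sub hj
  rcases sel2 hJc hNP (by
    rintro u ⟨hu, _⟩
    exact hu.2) with hcut | ⟨c, hc, A, hAJ, hA, hcA, hAc, hCc, hcl, ⟨x, hx, hxc⟩, hn1, hcut⟩
  · have hfJ : J.Finite := Set.toFinite _
    obtain ⟨e, X, n, s, n1, D, h1, _, h3, h4, h5, _, h7, _, h9⟩ := hub_numbers hH hdeg hj
      hfJ.toFinset ∅ ⟨j, hfJ.mem_toFinset.2 comp_self⟩ (fun a _ h1 => h1)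
      (by
        intro x
        rw [hfJ.mem_toFinset]
        exact ⟨fun h1 => Or.inl h1, fun h1 => h1.elim id fun h1 => absurd h1 (Set.notMem_empty x)⟩)
      (by
        rw [Set.Finite.coe_toFinset]
        exact hJc)
      (fun x hx => absurd hx (Set.notMem_empty x))
      (fun a ha => hcut a (hfJ.mem_toFinset.1 ha)) h (fun a _ y hy => absurd hy (Set.notMem_empty y))
      (by
        have h1 := hcnt hfJ.toFinset ⟨j, hfJ.mem_toFinset.2 comp_self⟩
          (fun a ha => hJI (hfJ.mem_toFinset.1 ha))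
        exact h1)
    obtain ⟨h7a, h7b⟩ := h7 Set.not_nonempty_empty
    have h10 : n1 ≤ 3 := by
      refine le_trans h9 (le_trans (Set.ncard_le_ncard ?_ (Set.toFinite _)) hNP)
      rintro u ⟨hu, _⟩
      exact hu
    omega
  · have hfA : A.Finite := Set.toFinite _
    obtain ⟨e, X, n, s, n1, D, h1, h2, h3, h4, h5, h6, _, h8, h9⟩ := hub_numbers hH hdeg hj
      hfA.toFinset (J \ A) (by
        obtain ⟨x, hx⟩ := hA
        exact ⟨x, hfA.mem_toFinset.2 hx⟩) (fun a ha h1 => h1.2 (hfA.mem_toFinset.1 ha))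
      (by
        intro x
        rw [hfA.mem_toFinset]
        constructor
        · intro h1
          by_cases h2 : x ∈ A
          · exact Or.inl h2
          · exact Or.inr ⟨h1, h2⟩
        · rintro (h1 | h1)
          · exact hAJ h1
          · exact h1.1)
      (by
        rw [Set.Finite.coe_toFinset]
        exact hAc)
      hCc (fun a ha => hcut a (hfA.mem_toFinset.1 ha)) c
      (by
        intro a ha y hy hay
        rcases hcl a (hfA.mem_toFinset.1 ha) y hy.1 hay with h1 | h1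
        · exact absurd h1 hy.2
        · exact h1)
      (by
        have h1 := hcnt hfA.toFinset (by
          obtain ⟨x, hx⟩ := hA
          exact ⟨x, hfA.mem_toFinset.2 hx⟩)
          (fun a ha => hJI (hAJ (hfA.mem_toFinset.1 ha)))
        exact h1)
    have h2' := h2 ⟨c, hc, hcA⟩
    have h8' := h8 ⟨x, hfA.mem_toFinset.2 hx, c, ⟨hc, hcA⟩, hxc⟩
    have h10 : n1 ≤ 1 := by
      refine le_trans h9 (le_trans (Set.ncard_le_ncard ?_ (Set.toFinite _)) hn1)
      rintro u ⟨hu, hu2⟩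
      exact ⟨hu, fun x hx hux => hfA.mem_toFinset.1 (hu2 x hx hux)⟩
    omega

end hub

end Pool.Agent.W986
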