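import Pool.Agent.W986.HubEdge

/-!
# Components and the choice of a connected set near a hub
-/

set_option autoImplicit false

open Finset

namespace Pool.Agent.W986

open Pool.Agent.DC76

section comp

variable {U : Type} {H : SimpleGraph U} {K : Set U} {a b : U}

/-- The component of `a` in `K`. -/
def comp (H : SimpleGraph U) (K : Set U) (a : U) : Set U := {b | Lnk H K a b}

theorem comp_self : a ∈ comp H K a := Relation.ReflTransGen.refl

theorem comp_sub (ha : a ∈ K) : comp H K a ⊆ K := fun _ hb => Lnk.mem hb ha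

theorem comp_adj {x y : U} (hx : x ∈ comp H K a) (hy : y ∈ K) (hxy : H.Adj x y) :
    y ∈ comp H K a := Relation.ReflTransGen.tail hx ⟨hy, hxy⟩

theorem lnk_comp {x y : U} (hx : x ∈ comp H K a) (h : Lnk H K x y) :
    y ∈ comp H K a ∧ Lnk H (comp H K a) x y := by
  induction h with
  | refl => exact ⟨hx, Relation.ReflTransGen.refl⟩
  | @tail c d _ h2 ih =>
    have h3 := comp_adj ih.1 h2.1 h2.2
    exact ⟨h3, ih.2.tail ⟨h3, h2.2⟩⟩

theorem comp_conn (ha : a ∈ K) : Conn H (comp H K a) := by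
  intro x hx y hy
  exact (lnk_comp hx ((Lnk.symm hx ha).trans hy)).2

theorem comp_symm (ha : a ∈ K) (hb : b ∈ comp H K a) : a ∈ comp H K b := Lnk.symm hb ha

theorem comp_trans {c : U} (hb : b ∈ comp H K a) (hc : c ∈ comp H K b) : c ∈ comp H K a :=
  Relation.ReflTransGen.trans hb hc

theorem conn_sub_comp {S : Set U} (hS : Conn H S) (hSK : S ⊆ K) {x : U} (hx : x ∈ S)
    (hxa : x ∈ comp H K a) : S ⊆ comp H K a := by
  intro y hy
  refine comp_trans hxa ?_
  exact Relation.ReflTransGen.mono (fun p q h => ⟨hSK h.1, h.2⟩) _ _ (hS x hx y hy)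

/-- A set which is closed in a connected set contains it. -/
theorem conn_closed {S T : Set U} (hS : Conn H S) {x : U} (hx : x ∈ S) (hxT : x ∈ T)
    (hT : ∀ y ∈ T, ∀ z ∈ S, H.Adj y z → z ∈ T) : S ⊆ T := by
  intro y hy
  have h := hS x hx y hy
  clear hy
  induction h with
  | refl => exact hxT
  | @tail c d _ h2 ih => exact hT c ih d h2.1 h2.2

end comp

section dd

variable {U : Type} (H : SimpleGraph U)

theorem dd_comm (X Y : Finset U) : dd H X Y = dd H Y X := by
  unfold dd
  rw [Finset.sum_comm]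
  refine Finset.sum_congr rfl fun x _ => Finset.sum_congr rfl fun y _ => ?_
  rw [show H.Adj y x ↔ H.Adj x y from ⟨fun h => h.symm, fun h => h.symm⟩]

theorem dd_union_left [DecidableEq U] {X Y : Finset U} (hXY : Disjoint X Y) (Z : Finset U) :
    dd H (X ∪ Y) Z = dd H X Z + dd H Y Z := by
  unfold dd
  exact Finset.sum_union hXY

theorem dd_union_right [DecidableEq U] {X Y : Finset U} (hXY : Disjoint X Y) (Z : Finset U) :
    dd H Z (X ∪ Y) = dd H Z X + dd H Z Y := by
  rw [dd_comm, dd_union_left H hXY, dd_comm H X, dd_comm H Y]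

theorem dd_singleton_all {h : U} {Y : Finset U} (hY : ∀ y ∈ Y, H.Adj h y) :
    dd H {h} Y = Y.card := by
  unfold dd
  rw [Finset.sum_singleton, Finset.card_eq_sum_ones]
  exact Finset.sum_congr rfl fun y hy => ib_pos (hY y hy)

theorem dd_singleton_self (h : U) : dd H {h} {h} = 0 := by
  unfold dd
  rw [Finset.sum_singleton, Finset.sum_singleton]
  exact ib_neg (H.loopless.irrefl h)

theorem dd_insert_hub [DecidableEq U] {h : U} {Y : Finset U} (hY : ∀ y ∈ Y, H.Adj h y) :
    dd H (insert h Y) (insert h Y) = dd H Y Y + 2 * Y.card := by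
  have hdis : Disjoint ({h} : Finset U) Y := by
    rw [Finset.disjoint_singleton_left]
    intro hh
    exact H.loopless.irrefl h (hY h hh)
  rw [Finset.insert_eq, dd_union_left H hdis, dd_union_right H hdis, dd_union_right H hdis,
    dd_singleton_self, dd_singleton_all H hY, dd_comm H Y {h}, dd_singleton_all H hY]
  ring

theorem dd_row {X Y : Finset U} {k : ℕ} (h : ∀ x ∈ X, k ≤ ∑ y ∈ Y, ib (H.Adj x y)) :
    k * X.card ≤ dd H X Y := by
  unfold dd
  rw [mul_comm, ← smul_eq_mul, ← Finset.sum_const]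
  exact Finset.sum_le_sum h

end dd

section hub

variable {U : Type} [Fintype U] {H : SimpleGraph U}

/-- No set of neighbours of the hub has at most two neighbours outside, if the degrees are at
least five. -/
theorem nOnly {B : Set U} (hH : SphereMinor H B) {h : U}
    (hdeg : ∀ v, v ≠ h → 5 ≤ ∑ w, ib (H.Adj v w)) [DecidableEq U] {O D : Finset U}
    (hO : O.Nonempty) (hON : ∀ x ∈ O, H.Adj h x) (hDN : ∀ x ∈ D, H.Adj h x) (hOD : Disjoint O D)
    (hD : D.card ≤ 2) (hcl : ∀ x ∈ O, ∀ y, H.Adj x y → y = h ∨ y ∈ O ∨ y ∈ D) : False := by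
  have hhO : h ∉ O := fun hh => H.loopless.irrefl h (hON h hh)
  have hhD : h ∉ D := fun hh => H.loopless.irrefl h (hDN h hh)
  have h1 : 5 * O.card ≤ dd H O (insert h (O ∪ D)) := by
    refine dd_row H fun x hx => ?_
    refine le_trans (hdeg x (fun hh => hhO (hh ▸ hx))) (le_of_eq ?_)
    symm
    refine Finset.sum_subset (Finset.subset_univ _) fun y _ hy => ib_neg ?_
    intro hxy
    apply hy
    rcases hcl x hx y hxy with h1 | h1 | h1
    · rw [h1]
      exact mem_insert_self _ _
    · exact mem_insert_of_mem (mem_union_left _ h1)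
    · exact mem_insert_of_mem (mem_union_right _ h1)
  have hdis : Disjoint ({h} : Finset U) (O ∪ D) := by
    rw [Finset.disjoint_singleton_left, mem_union]
    tauto
  have h2 : dd H O (insert h (O ∪ D)) = O.card + (dd H O O + dd H O D) := by
    rw [Finset.insert_eq, dd_union_right H hdis, dd_union_right H hOD, dd_comm H O {h},
      dd_singleton_all H hON]
  have h3 := hH.ein_le (insert h (O ∪ D)) ⟨h, mem_insert_self _ _⟩
  have h4 := dd_ein H (insert h (O ∪ D))
  rw [dd_insert_hub H (by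
    intro y hy
    rcases mem_union.1 hy with h5 | h5
    · exact hON y h5
    · exact hDN y h5), dd_union_left H hOD, dd_union_right H hOD, dd_union_right H hOD,
    dd_comm H D O, card_union_of_disjoint hOD] at h4
  rw [card_insert_of_notMem (by rw [mem_union]; tauto), card_union_of_disjoint hOD] at h3
  have h5 := hH.ein_le (insert h O) ⟨h, mem_insert_self _ _⟩
  have h6 := dd_ein H (insert h O)
  rw [dd_insert_hub H hON] at h6
  rw [card_insert_of_notMem hhO] at h5
  have h7 : 0 < O.card := card_pos.2 hO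
  omega

/-- The vertices which are neither `h` nor adjacent to `h`. -/
def inn (H : SimpleGraph U) (h : U) : Set U := {x | x ≠ h ∧ ¬ H.Adj h x}

/-- The neighbours of `h` with a neighbour in `J`. -/
def nbh (H : SimpleGraph U) (h : U) (J : Set U) : Set U := {u | H.Adj h u ∧ ∃ x ∈ J, H.Adj u x}

/-- The other vertices. -/
def rst (H : SimpleGraph U) (h : U) (J : Set U) : Set U := {x | x ≠ h ∧ x ∉ J ∧ x ∉ nbh H h J}

omit [Fintype U] in
theorem inn_adj {h j x y : U} (hj : j ∈ inn H h) (hx : x ∈ comp H (inn H h) j) (hxy : H.Adj x y) :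
    y ∈ comp H (inn H h) j ∨ y ∈ nbh H h (comp H (inn H h) j) := by
  by_cases hy : H.Adj h y
  · exact Or.inr ⟨hy, x, hx, hxy.symm⟩
  · refine Or.inl (comp_adj hx ⟨?_, hy⟩ hxy)
    rintro rfl
    exact (comp_sub hj hx).2 hxy.symm

omit [Fintype U] in
theorem rst_adj {h j x y : U} (hj : j ∈ inn H h) (hx : x ∈ comp H (inn H h) j)
    (hy : y ∈ rst H h (comp H (inn H h) j)) : ¬ H.Adj y x := by
  intro hyx
  rcases inn_adj hj hx hyx.symm with h1 | h1
  · exact hy.2.1 h1
  · exact hy.2.2 h1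

open Classical in
theorem sel1 {B : Set U} (hH : SphereMinor H B) {h : U}
    (hdeg : ∀ v, v ≠ h → 5 ≤ ∑ w, ib (H.Adj v w)) (hne : ∃ v, v ≠ h) :
    ∃ j ∈ inn H h, {u | u ∈ nbh H h (comp H (inn H h) j) ∧
      ∃ x ∈ rst H h (comp H (inn H h) j), H.Adj u x}.ncard ≤ 3 := by
  -- there is a vertex which is not adjacent to the hub
  have hI : ∃ j, j ∈ inn H h := by
    by_contra hc
    push Not at hc
    obtain ⟨v, hv⟩ := hne
    have hN : ∀ x, x ≠ h → H.Adj h x := by
      intro x hx
      by_contra hx2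
      exact hc x ⟨hx, hx2⟩
    refine nOnly hH hdeg (O := univ.erase h) (D := ∅) ⟨v, mem_erase.2 ⟨hv, mem_univ _⟩⟩ ?_ ?_ ?_
      ?_ ?_
    · intro x hx
      exact hN x (mem_erase.1 hx).1
    · intro x hx
      simp at hx
    · simp
    · simp
    · intro x _ y _
      by_cases hy : y = h
      · exact Or.inl hy
      · exact Or.inr (Or.inl (mem_erase.2 ⟨hy, mem_univ _⟩))
  let P : U × U × U → Prop := fun t => t.1 ∈ inn H h ∧ t.2.1 ∈ rst H h (comp H (inn H h) t.1) ∧
    t.2.2 ∈ nbh H h (comp H (inn H h) t.1) ∧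
      ∃ y ∈ comp H (rst H h (comp H (inn H h) t.1)) t.2.1, H.Adj t.2.2 y
  by_cases hex : ∃ t, P t
  swap
  · obtain ⟨j, hj⟩ := hI
    refine ⟨j, hj, ?_⟩
    have h0 : {u | u ∈ nbh H h (comp H (inn H h) j) ∧
      ∃ x ∈ rst H h (comp H (inn H h) j), H.Adj u x} = ∅ := by
      rw [Set.eq_empty_iff_forall_notMem]
      rintro u ⟨hu, x, hx, hux⟩
      exact hex ⟨(j, x, u), hj, hx, hu, x, comp_self, hux⟩
    rw [h0, Set.ncard_empty]
    exact Nat.zero_le _
  obtain ⟨⟨j, o, w⟩, ht, hmax⟩ := Finset.exists_max_image (univ.filter P)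
    (fun t => (comp H (rst H h (comp H (inn H h) t.1)) t.2.1).ncard)
    (by
      obtain ⟨t, ht⟩ := hex
      exact ⟨t, mem_filter.2 ⟨mem_univ _, ht⟩⟩)
  obtain ⟨hj, ho, hw, y0, hy0, hwy0⟩ := (mem_filter.1 ht).2
  simp only at hj ho hw hy0 hwy0
  set J := comp H (inn H h) j with hJ
  have hJc : Conn H J := comp_conn hj
  have hJI : J ⊆ inn H h := comp_sub hj
  have hhJ : h ∉ J := fun hh => (hJI hh).1 rfl
  -- `w` has a neighbour in every component with a neighbour in `nbh H h J`
  have claim : ∀ x ∈ rst H h J, (∃ u ∈ nbh H h J, ∃ y ∈ comp H (rst H h J) x, H.Adj u y) →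
      ∃ y ∈ comp H (rst H h J) x, H.Adj w y := by
    intro x hx hux
    by_contra hcon
    push Not at hcon
    obtain ⟨u, hu, y, hy, huy⟩ := hux
    set O' := comp H (rst H h J) x with hO'
    have hO'R : O' ⊆ rst H h J := comp_sub hx
    have hO'c : Conn H O' := comp_conn hx
    have hhO' : h ∉ O' := fun hh => (hO'R hh).1 rfl
    -- a vertex of `O'` which is not adjacent to the hub
    obtain ⟨j', hj'O, hj'⟩ : ∃ j' ∈ O', ¬ H.Adj h j' := by
      by_contra hc
      push Not at hc
      have hfO : O'.Finite := Set.toFinite _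
      have hfD : {z | H.Adj h z ∧ z ∉ J ∧ z ∉ O' ∧ (∃ p ∈ J, H.Adj z p) ∧
        ∃ q ∈ O', H.Adj z q}.Finite := Set.toFinite _
      have hK1 := hH.common_le (h := h) (X := J) (Y := O') ⟨j, comp_self⟩ hJc ⟨x, comp_self⟩ hO'c
        (Set.disjoint_left.2 fun z hz hz' => (hO'R hz').2.1 hz) hhJ hhO'
      refine nOnly hH hdeg (O := hfO.toFinset) (D := hfD.toFinset) ?_ ?_ ?_ ?_ ?_ ?_
      · exact ⟨x, hfO.mem_toFinset.2 comp_self⟩
      · intro z hz
        exact hc z (hfO.mem_toFinset.1 hz)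
      · intro z hz
        exact (hfD.mem_toFinset.1 hz).1
      · rw [Finset.disjoint_left]
        intro z hz hz'
        exact (hfD.mem_toFinset.1 hz').2.2.1 (hfO.mem_toFinset.1 hz)
      · rw [← Set.ncard_eq_toFinset_card _ hfD]
        exact hK1
      · intro z hz z' hzz'
        have hz1 := hfO.mem_toFinset.1 hz
        by_cases h1 : z' = h
        · exact Or.inl h1
        · by_cases h2 : z' ∈ O'
          · exact Or.inr (Or.inl (hfO.mem_toFinset.2 h2))
          · refine Or.inr (Or.inr (hfD.mem_toFinset.2 ?_))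
            have h3 : z' ∉ J := fun h3 => rst_adj hj h3 (hO'R hz1) hzz'
            have h4 : z' ∈ nbh H h J := by
              by_contra h4
              exact h2 (comp_adj hz1 ⟨h1, h3, h4⟩ hzz')
            exact ⟨h4.1, h3, h2, h4.2, z, hz1, hzz'.symm⟩
    have hj'I : j' ∈ inn H h := ⟨(hO'R hj'O).1, hj'⟩
    set J' := comp H (inn H h) j' with hJ'
    have hJ'I : J' ⊆ inn H h := comp_sub hj'I
    have hJJ' : ∀ z, z ∈ J → z ∈ J' → False := by
      intro z hz hz'
      exact (hO'R hj'O).2.1 (comp_trans hz (comp_symm hj'I hz'))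
    have hJ'R : J' ⊆ rst H h J := by
      intro z hz
      exact ⟨(hJ'I hz).1, fun h1 => hJJ' z h1 hz, fun h1 => (hJ'I hz).2 h1.1⟩
    have hJ'O : J' ⊆ O' := conn_sub_comp (comp_conn hj'I) hJ'R comp_self hj'O
    have hwR : w ∈ rst H h J' := by
      refine ⟨fun hh => H.loopless.irrefl h (hh ▸ hw.1), fun h1 => (hJ'I h1).2 hw.1, ?_⟩
      rintro ⟨_, z, hz, hwz⟩
      exact hcon z (hJ'O hz) hwz
    set O := comp H (rst H h J) o with hO
    have hOO' : ∀ z, z ∈ O → z ∈ O' → False := by
      intro z hz hz'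
      have h1 : y0 ∈ O' := comp_trans hz' (comp_trans (comp_symm ho hz) hy0)
      exact hcon y0 h1 hwy0
    have hOR : O ⊆ rst H h J' := by
      intro z hz
      have hz1 := comp_sub ho hz
      refine ⟨hz1.1, fun h1 => hOO' z hz (hJ'O h1), ?_⟩
      rintro ⟨_, p, hp, hzp⟩
      exact hOO' z hz (comp_adj (hJ'O hp) hz1 hzp.symm)
    have hOw : O ⊆ comp H (rst H h J') w :=
      conn_sub_comp (comp_conn ho) hOR hy0 (comp_adj comp_self (hOR hy0) hwy0)
    have hwO : w ∉ O := fun h1 => (comp_sub ho h1).2.2 hw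
    have hlt : O.ncard < (comp H (rst H h J') w).ncard := by
      refine Set.ncard_lt_ncard ⟨hOw, fun h1 => hwO (h1 comp_self)⟩ (Set.toFinite _)
    have hJR : J ⊆ rst H h J' := by
      intro z hz
      exact ⟨(hJI hz).1, fun h1 => hJJ' z hz h1, fun h1 => (hJI hz).2 h1.1⟩
    have hJw : J ⊆ comp H (rst H h J') w := by
      obtain ⟨p, hp, hwp⟩ := hw.2
      exact conn_sub_comp hJc hJR hp (comp_adj comp_self (hJR hp) hwp)
    -- a vertex in `nbh H h J'` next to the component of `w`
    have hw' : ∃ w' ∈ nbh H h J', ∃ q ∈ comp H (rst H h J') w, H.Adj w' q := by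
      by_contra hc
      push Not at hc
      have hclosed : ∀ z ∈ comp H (rst H h J') w, ∀ z', z' ≠ h → H.Adj z z' →
          z' ∈ comp H (rst H h J') w := by
        intro z hz z' hz' hzz'
        refine comp_adj hz ⟨hz', ?_, ?_⟩ hzz'
        · intro h1
          exact rst_adj hj'I h1 (comp_sub hwR hz) hzz'
        · intro h1
          exact hc z' h1 z hz hzz'.symm
      have huQ : u ∈ comp H (rst H h J') w := by
        obtain ⟨p, hp, hup⟩ := hu.2
        refine hclosed p (hJw hp) u ?_ hup.symm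
        rintro rfl
        exact H.loopless.irrefl u hu.1
      have hyQ : y ∈ comp H (rst H h J') w := hclosed u huQ y (fun h1 => hhO' (h1 ▸ hy)) huy
      have h1 := conn_closed hO'c hy hyQ
        (fun z hz z' hz' hzz' => hclosed z hz z' (fun h1 => hhO' (h1 ▸ hz')) hzz')
      exact (comp_sub hwR (h1 hj'O)).2.1 comp_self
    obtain ⟨w', hw'1, q, hq, hw'q⟩ := hw'
    have h1 := hmax (j', w, w') (mem_filter.2 ⟨mem_univ _, hj'I, hwR, hw'1, q, hq, hw'q⟩)
    simp only at h1
    exact absurd hlt (not_lt.2 h1)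
  refine ⟨j, hj, ?_⟩
  -- the union of the components and `w`
  let Y : Set U := {x | x = w ∨ (x ∈ rst H h J ∧ ∃ y ∈ comp H (rst H h J) x, H.Adj w y)}
  have hwY : w ∈ Y := Or.inl rfl
  have hYw : ∀ x ∈ Y, Lnk H Y x w := by
    rintro x (rfl | ⟨hx, y, hy, hwy⟩)
    · exact Relation.ReflTransGen.refl
    · have h1 : comp H (rst H h J) x ⊆ Y := by
        intro z hz
        exact Or.inr ⟨comp_sub hx hz, y, comp_trans (comp_symm hx hz) hy, hwy⟩
      have h2 : Lnk H Y x y :=
        Relation.ReflTransGen.mono (fun p q h => ⟨h1 h.1, h.2⟩) _ _ (comp_conn hx x comp_self y hy)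
      exact Relation.ReflTransGen.tail h2 ⟨hwY, hwy.symm⟩
  have hYc : Conn H Y := by
    intro x hx y hy
    exact (hYw x hx).trans (Lnk.symm (hYw y hy) hy)
  have hYJ : ∀ x ∈ Y, x ∉ J := by
    rintro x (rfl | hx)
    · intro h1
      exact (hJI h1).2 hw.1
    · exact hx.1.2.1
  have hhY : h ∉ Y := by
    rintro (h1 | h1)
    · exact H.loopless.irrefl h (h1 ▸ hw.1)
    · exact h1.1.1 rfl
  have hK1 := hH.common_le (h := h) (X := J) (Y := Y) ⟨j, comp_self⟩ hJc ⟨w, hwY⟩ hYc
    (Set.disjoint_left.2 fun z hz hz' => hYJ z hz' hz) hhJ hhY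
  have hsub : {u | u ∈ nbh H h J ∧ ∃ x ∈ rst H h J, H.Adj u x} ⊆
      insert w {z | H.Adj h z ∧ z ∉ J ∧ z ∉ Y ∧ (∃ p ∈ J, H.Adj z p) ∧ ∃ q ∈ Y, H.Adj z q} := by
    rintro u ⟨hu, x, hx, hux⟩
    by_cases huw : u = w
    · exact Or.inl huw
    · right
      refine ⟨hu.1, fun h1 => (hJI h1).2 hu.1, ?_, hu.2, x, ?_, hux⟩
      · rintro (h1 | h1)
        · exact huw h1
        · exact h1.1.2.2 hu
      · exact Or.inr ⟨hx, claim x hx ⟨u, hu, x, comp_self, hux⟩⟩
  refine le_trans (Set.ncard_le_ncard hsub (Set.toFinite _)) ?_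
  refine le_trans (Set.ncard_insert_le _ _) ?_
  omega

end hub

end Pool.Agent.W986
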