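import Pool.Agent.W986.MinorCount

/-!
# Edges of a minor of a graph on the sphere with a hub
-/

set_option autoImplicit false

open Finset

namespace Pool.Agent.W986

open Pool.Agent.DC76

/-- A minor of a minor. -/
theorem SphereMinor.minor {U W : Type} {H : SimpleGraph U} {A : Set U} (hH : SphereMinor H A)
    {H' : SimpleGraph W} (g : W → Set U) (hg1 : ∀ w, (g w).Nonempty) (hg2 : ∀ w, Conn H (g w))
    (hg3 : ∀ w w', w ≠ w' → Disjoint (g w) (g w'))
    (hg4 : ∀ w w', H'.Adj w w' → ∃ x ∈ g w, ∃ y ∈ g w', H.Adj x y) : SphereMinor H' ∅ := by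
  obtain ⟨V, F, i1, i2, i3, G, f, h1, h2, h3, h4, h5, h⟩ := hH
  have huniq : ∀ u w y, y ∈ f u → y ∈ f w → u = w := by
    intro u w y hu hw
    by_contra hne
    exact Set.disjoint_left.1 (h3 u w hne) hu hw
  refine ⟨V, F, i1, i2, i3, G, fun w => ⋃ u ∈ g w, f u, ?_, ?_, ?_, ?_, ?_, h⟩
  · intro w
    obtain ⟨u, hu⟩ := hg1 w
    obtain ⟨x, hx⟩ := h1 u
    exact ⟨x, Set.mem_biUnion hu hx⟩
  · intro w x hx y hy
    simp only [Set.mem_iUnion] at hx hy
    obtain ⟨u, hu, hxu⟩ := hx
    obtain ⟨u', hu', hyu⟩ := hy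
    exact Lnk.minor h2 h4 hu (hg2 w u hu u' hu') x hxu y hyu
  · intro w w' hww
    rw [Set.disjoint_left]
    intro x hx hx'
    simp only [Set.mem_iUnion] at hx hx'
    obtain ⟨u, hu, hxu⟩ := hx
    obtain ⟨u', hu', hxu'⟩ := hx'
    rw [huniq _ _ _ hxu hxu'] at hu
    exact Set.disjoint_left.1 (hg3 w w' hww) hu hu'
  · intro w w' hww
    obtain ⟨x, hx, y, hy, hxy⟩ := hg4 w w' hww
    obtain ⟨p, hp, q, hq, hpq⟩ := h4 x y hxy
    exact ⟨p, Set.mem_biUnion hx hp, q, Set.mem_biUnion hy hq, hpq⟩
  · intro u hu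
    exact absurd hu (Set.notMem_empty u)

open Classical in
/-- The number `1` if `p` holds, and `0` otherwise. -/
noncomputable def ib (p : Prop) : ℕ := if p then 1 else 0

theorem ib_pos {p : Prop} (h : p) : ib p = 1 := if_pos h

theorem ib_neg {p : Prop} (h : ¬ p) : ib p = 0 := if_neg h

theorem ib_true : ib True = 1 := if_pos trivial

theorem ib_false : ib False = 0 := if_neg id

theorem ib_le (p : Prop) : ib p ≤ 1 := by
  by_cases h : p
  · rw [ib_pos h]
  · rw [ib_neg h]
    exact Nat.zero_le 1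

theorem card_ib {U : Type} (X : Finset U) (p : U → Prop) [DecidablePred p] :
    (X.filter p).card = ∑ x ∈ X, ib (p x) := by
  rw [Finset.card_filter]
  refine Finset.sum_congr rfl fun x _ => ?_
  by_cases h : p x
  · rw [if_pos h, ib_pos h]
  · rw [if_neg h, ib_neg h]

/-- The number of pairs of adjacent vertices in `X`, `Y`. -/
noncomputable def dd {U : Type} (H : SimpleGraph U) (X Y : Finset U) : ℕ :=
  ∑ x ∈ X, ∑ y ∈ Y, ib (H.Adj x y)

open Classical in
theorem dd_univ {U : Type} [Fintype U] (H : SimpleGraph U) :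
    dd H univ univ = 2 * H.edgeSet.ncard := by
  have h4 : ∀ u, ∑ v, ib (H.Adj u v) = H.degree u := by
    intro u
    rw [← card_ib]
    unfold SimpleGraph.degree
    congr 1
    ext v
    simp
  unfold dd
  rw [Finset.sum_congr rfl fun u _ => h4 u, H.sum_degrees_eq_twice_card_edges]
  have h5 : H.edgeFinset.card = H.edgeSet.ncard := by
    rw [Set.ncard_eq_toFinset_card']
    congr 1
  rw [h5]

section count

variable {U : Type} [Fintype U] [DecidableEq U]

/-- If the neighbours of `h` are independent, then a cycle has at least `3 + r / 2` edges, where `r`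
is the number of its edges at `h`. -/
theorem cnt_hub {K : SimpleGraph U} {h : U} (hind : ∀ u v, K.Adj h u → K.Adj h v → ¬ K.Adj u v)
    {z : U → U → ZMod 2} (hz : z ∈ Z K Set.univ) (h0 : z ≠ 0) :
    6 + (univ.filter fun w => z h w ≠ 0).card ≤ cnt z := by
  classical
  have h6 := six_le_cnt hz h0
  obtain ⟨hz1, hz2, hz3⟩ := hz
  set R : Finset U := univ.filter fun w => z h w ≠ 0 with hR
  by_cases hR0 : R = ∅
  · rw [hR0, card_empty]
    exact h6
  · obtain ⟨w0, hw0⟩ := Finset.nonempty_iff_ne_empty.2 hR0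
    have hw0' : z h w0 ≠ 0 := (mem_filter.1 hw0).2
    have hr2 : 2 ≤ R.card := row_card hw0' (hz3 h)
    have hRh : h ∉ R := by
      intro hh
      exact K.loopless.irrefl h (hz2 h h (mem_filter.1 hh).2).1
    -- the rows
    let row : U → Finset U := fun u => univ.filter fun v => z u v ≠ 0
    have hrow : ∀ w ∈ R, 2 ≤ (row w).card := by
      intro w hw
      exact row_card (u := w) (v := h) (by rw [hz1]; exact (mem_filter.1 hw).2) (hz3 w)
    -- the other vertices
    set Q : Finset U := (univ \ R).erase h with hQ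
    have hcnt : cnt z = R.card + ∑ w ∈ R, (row w).card + ∑ x ∈ Q, (row x).card := by
      have e1 : cnt z = ∑ u, (row u).card := rfl
      rw [e1, ← Finset.sum_sdiff (Finset.subset_univ R),
        ← Finset.add_sum_erase (univ \ R) (fun u => (row u).card)
          (mem_sdiff.2 ⟨mem_univ h, hRh⟩)]
      have e2 : (row h).card = R.card := rfl
      rw [e2]
      ring
    have hQR : ∀ w ∈ R, (row w).card ≤ 1 + (Q.filter fun x => z x w ≠ 0).card := by
      intro w hw
      have e1 : row w ⊆ insert h (Q.filter fun x => z x w ≠ 0) := by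
        intro x hx
        have hx' : z w x ≠ 0 := (mem_filter.1 hx).2
        by_cases hxh : x = h
        · rw [hxh]
          exact mem_insert_self _ _
        · refine mem_insert_of_mem (mem_filter.2 ⟨?_, by rw [hz1]; exact hx'⟩)
          rw [hQ, mem_erase, mem_sdiff]
          refine ⟨hxh, mem_univ _, ?_⟩
          intro hxR
          exact hind w x (hz2 h w (mem_filter.1 hw).2).1 (hz2 h x (mem_filter.1 hxR).2).1
            (hz2 w x hx').1
      refine le_trans (card_le_card e1) (le_trans (card_insert_le _ _) ?_)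
      omega
    have hswap : ∑ w ∈ R, (Q.filter fun x => z x w ≠ 0).card ≤ ∑ x ∈ Q, (row x).card := by
      have e1 : ∑ w ∈ R, (Q.filter fun x => z x w ≠ 0).card =
          ∑ x ∈ Q, (R.filter fun w => z x w ≠ 0).card := by
        simp only [card_filter]
        exact Finset.sum_comm
      rw [e1]
      refine Finset.sum_le_sum fun x _ => card_le_card ?_
      intro w hw
      exact mem_filter.2 ⟨mem_univ _, (mem_filter.1 hw).2⟩
    have h7 : ∑ w ∈ R, (row w).card ≤ R.card + ∑ w ∈ R, (Q.filter fun x => z x w ≠ 0).card := by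
      refine le_trans (Finset.sum_le_sum hQR) ?_
      rw [Finset.sum_add_distrib, Finset.sum_const, smul_eq_mul, mul_one]
    have h8 : 2 * R.card ≤ ∑ w ∈ R, (row w).card := by
      rw [mul_comm, ← smul_eq_mul, ← Finset.sum_const]
      exact Finset.sum_le_sum hrow
    omega

/-- Edges of a graph with a family of cycles and a hub with independent neighbours. -/
theorem Fam.hub {K : SimpleGraph U} {ι : Type} [Fintype ι] {b : ι → U → U → ZMod 2}
    (hb : Fam K b) {h : U} (hind : ∀ u v, K.Adj h u → K.Adj h v → ¬ K.Adj u v) {n : ℕ}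
    (hn : 0 < n) (S : Finset U) (hS : n ≤ S.card)
    (hcyc : ∀ u ∈ S, ∃ z ∈ Z K Set.univ, z h u ≠ 0) :
    K.edgeSet.ncard + 6 + n ≤ 3 * Fintype.card U := by
  classical
  have h1 := finrank_Z_ge K univ ⟨h, mem_univ _⟩ (fun u v _ => ⟨mem_univ _, mem_univ _⟩)
  rw [card_univ] at h1
  have h2 := Submodule.finrank_mono hb.gen
  -- every edge of `S` is covered twice
  have h3 : ∀ u ∈ S, 2 ≤ (univ.filter fun j => b j h u ≠ 0).card := by
    intro u hu
    obtain ⟨z, hz, hzu⟩ := hcyc u hu
    have e1 : ∃ j, b j h u ≠ 0 := by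
      by_contra hc
      push Not at hc
      apply hzu
      have e2 : Submodule.span (ZMod 2) (Set.range b) ≤
          LinearMap.ker ((LinearMap.proj u : (U → ZMod 2) →ₗ[ZMod 2] ZMod 2) ∘ₗ
            (LinearMap.proj h : (U → U → ZMod 2) →ₗ[ZMod 2] (U → ZMod 2))) := by
        rw [Submodule.span_le]
        rintro _ ⟨j, rfl⟩
        exact hc j
      exact e2 (hb.gen hz)
    obtain ⟨j, hj⟩ := e1
    have e3 : ∑ i, b i h u = 0 := by
      have e4 := congrFun (congrFun hb.sum h) u
      rw [Finset.sum_apply, Finset.sum_apply] at e4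
      exact e4
    obtain ⟨k, hk, hku⟩ : ∃ k, k ≠ j ∧ b k h u ≠ 0 := by
      by_contra hc
      push Not at hc
      rw [Finset.sum_eq_single j (fun w _ hw => hc w hw) (fun h => absurd (mem_univ j) h)] at e3
      exact hj e3
    have : 1 < (univ.filter fun j => b j h u ≠ 0).card := by
      rw [Finset.one_lt_card]
      exact ⟨j, mem_filter.2 ⟨mem_univ _, hj⟩, k, mem_filter.2 ⟨mem_univ _, hku⟩, hk.symm⟩
    exact this
  have hSne : S.Nonempty := by
    rw [← Finset.card_pos]
    omega
  have hne : (univ.filter fun j => b j ≠ 0).Nonempty := by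
    obtain ⟨u, hu⟩ := hSne
    have e1 := h3 u hu
    have e2 : 0 < (univ.filter fun j => b j h u ≠ 0).card := by omega
    obtain ⟨j, hj⟩ := Finset.card_pos.1 e2
    refine ⟨j, mem_filter.2 ⟨mem_univ _, ?_⟩⟩
    intro h0
    exact (mem_filter.1 hj).2 (by rw [h0]; rfl)
  have h7 := rank_le b hb.sum hne
  have h8 := cnt_sum_le K b (fun j u v h => by
    by_contra hc
    exact h ((hb.mem j).2.1 u v hc).1) hb.cov
  have h9 : 6 * (univ.filter fun j => b j ≠ 0).card +
      ∑ j, (univ.filter fun w => b j h w ≠ 0).card ≤ ∑ j, cnt (b j) := by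
    have e1 : ∑ j, (univ.filter fun w => b j h w ≠ 0).card =
        ∑ j ∈ univ.filter (fun j => b j ≠ 0), (univ.filter fun w => b j h w ≠ 0).card := by
      symm
      refine Finset.sum_subset (Finset.subset_univ _) fun j _ hj => ?_
      have e2 : b j = 0 := by
        by_contra hc
        exact hj (mem_filter.2 ⟨mem_univ _, hc⟩)
      rw [e2, Finset.card_eq_zero, Finset.filter_eq_empty_iff]
      intro w _ hw
      exact hw rfl
    rw [e1, mul_comm, ← smul_eq_mul, ← Finset.sum_const, ← Finset.sum_add_distrib]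
    refine le_trans (Finset.sum_le_sum fun j hj => ?_)
      (Finset.sum_le_sum_of_subset (Finset.subset_univ _))
    exact cnt_hub hind (hb.mem j) (mem_filter.1 hj).2
  have h10 : 2 * n ≤ ∑ j, (univ.filter fun w => b j h w ≠ 0).card := by
    have e1 : ∑ j, (univ.filter fun w => b j h w ≠ 0).card =
        ∑ w, (univ.filter fun j => b j h w ≠ 0).card := by
      simp only [card_filter]
      exact Finset.sum_comm
    rw [e1]
    refine le_trans ?_ (Finset.sum_le_sum_of_subset (Finset.subset_univ S))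
    refine le_trans (Nat.mul_le_mul_left 2 hS) ?_
    rw [mul_comm, ← smul_eq_mul, ← Finset.sum_const]
    exact Finset.sum_le_sum h3
  omega

end count

/-- Two vertices (or connected sets) have at most two common neighbours among the neighbours
of a third vertex. -/
theorem SphereMinor.common_le {U : Type} [Finite U] {H : SimpleGraph U} {A : Set U}
    (hH : SphereMinor H A) {h : U} {X Y : Set U} (hX : X.Nonempty) (hXc : Conn H X)
    (hY : Y.Nonempty) (hYc : Conn H Y) (hXY : Disjoint X Y) (hhX : h ∉ X) (hhY : h ∉ Y) :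
    {w | H.Adj h w ∧ w ∉ X ∧ w ∉ Y ∧ (∃ x ∈ X, H.Adj w x) ∧ ∃ y ∈ Y, H.Adj w y}.ncard ≤ 2 := by
  classical
  by_contra hcon
  rw [not_le, Set.two_lt_ncard_iff (Set.toFinite _)] at hcon
  obtain ⟨a, b, c, ha, hb, hc, hab, hac, hbc⟩ := hcon
  let w : Fin 3 → U := ![a, b, c]
  have hw : ∀ i, H.Adj h (w i) ∧ w i ∉ X ∧ w i ∉ Y ∧ (∃ x ∈ X, H.Adj (w i) x) ∧
      ∃ y ∈ Y, H.Adj (w i) y := by
    intro i
    fin_cases i
    · exact ha
    · exact hb
    · exact hc
  have hwi : ∀ i j, i ≠ j → w i ≠ w j := by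
    intro i j hij
    fin_cases i <;> fin_cases j
    · exact absurd rfl hij
    · exact hab
    · exact hac
    · exact hab.symm
    · exact absurd rfl hij
    · exact hbc
    · exact hac.symm
    · exact hbc.symm
    · exact absurd rfl hij
  let P : Fin 3 → Set U := ![{h}, X, Y]
  have hP1 : ∀ i, (P i).Nonempty := by
    intro i
    fin_cases i
    · exact ⟨h, rfl⟩
    · exact hX
    · exact hY
  have hP2 : ∀ i, Conn H (P i) := by
    intro i
    fin_cases i
    · intro x hx y hy
      rw [show x = y from (Set.mem_singleton_iff.1 hx).trans (Set.mem_singleton_iff.1 hy).symm]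
    · exact hXc
    · exact hYc
  have hP3 : ∀ i j, i ≠ j → Disjoint (P i) (P j) := by
    intro i j hij
    fin_cases i <;> fin_cases j
    · exact absurd rfl hij
    · exact Set.disjoint_singleton_left.2 hhX
    · exact Set.disjoint_singleton_left.2 hhY
    · exact Set.disjoint_singleton_right.2 hhX
    · exact absurd rfl hij
    · exact hXY
    · exact Set.disjoint_singleton_right.2 hhY
    · exact hXY.symm
    · exact absurd rfl hij
  have hP4 : ∀ i j, w j ∉ P i := by
    intro i j
    fin_cases i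
    · intro hc
      exact (hw j).1.ne (Set.mem_singleton_iff.1 hc).symm
    · exact (hw j).2.1
    · exact (hw j).2.2.1
  have hP5 : ∀ i j, ∃ x ∈ P i, H.Adj x (w j) := by
    intro i j
    fin_cases i
    · exact ⟨h, rfl, (hw j).1⟩
    · obtain ⟨x, hx, h1⟩ := (hw j).2.2.2.1
      exact ⟨x, hx, h1.symm⟩
    · obtain ⟨x, hx, h1⟩ := (hw j).2.2.2.2
      exact ⟨x, hx, h1.symm⟩
  have hK : SphereMinor (completeBipartiteGraph (Fin 3) (Fin 3)) ∅ := by
    refine hH.minor (Sum.elim P fun j => {w j}) ?_ ?_ ?_ ?_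
    · rintro (i | j)
      · exact hP1 i
      · exact ⟨w j, rfl⟩
    · rintro (i | j)
      · exact hP2 i
      · intro x hx y hy
        rw [show x = y from (Set.mem_singleton_iff.1 hx).trans (Set.mem_singleton_iff.1 hy).symm]
    · rintro (i | i) (j | j) hij
      · exact hP3 i j (fun h => hij (congrArg _ h))
      · exact Set.disjoint_singleton_right.2 (hP4 i j)
      · exact Set.disjoint_singleton_left.2 (hP4 j i)
      · exact Set.disjoint_singleton.2 (hwi i j (fun h => hij (congrArg _ h)))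
    · rintro (i | i) (j | j) hij
      · simp at hij
      · obtain ⟨x, hx, h1⟩ := hP5 i j
        exact ⟨x, hx, w j, rfl, h1⟩
      · obtain ⟨x, hx, h1⟩ := hP5 j i
        exact ⟨w i, rfl, x, hx, h1.symm⟩
      · simp at hij
  have h1 := hK.edges_bip ⟨Sum.inl 0⟩ (P := Set.range Sum.inl) (by
    rintro (i | i) (j | j) hij
    · simp at hij
    · simp
    · simp
    · simp at hij)
  have h2 := dd_univ (completeBipartiteGraph (Fin 3) (Fin 3))
  have h3 : dd (completeBipartiteGraph (Fin 3) (Fin 3)) univ univ = 18 := by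
    unfold dd
    simp [Fintype.sum_sum_type, ib_true, ib_false]
  rw [h3] at h2
  simp only [Fintype.card_sum, Fintype.card_fin] at h1
  omega

open Classical in
theorem dd_ein {U : Type} (H : SimpleGraph U) (X : Finset U) : dd H X X = 2 * ein H X := by
  have h1 := dd_univ (H.comap (Subtype.val : {u // u ∈ X} → U))
  rw [ein_comap_subtype] at h1
  rw [← h1]
  unfold dd
  rw [← Finset.sum_coe_sort X]
  refine Finset.sum_congr rfl fun x _ => ?_
  rw [← Finset.sum_coe_sort X]
  rfl

section eplus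

variable {U : Type} (H : SimpleGraph U) (A N : Finset U) (C : Set U)

/-- The graph with the vertices `C` (contracted), `A`, a hub, and `N`. -/
def epG : SimpleGraph (Option {x // x ∈ A} ⊕ Option {x // x ∈ N}) where
  Adj x y := match x, y with
    | Sum.inl none, Sum.inl none => False
    | Sum.inl none, Sum.inl (some a) => ∃ x ∈ C, H.Adj a x
    | Sum.inl (some a), Sum.inl none => ∃ x ∈ C, H.Adj a x
    | Sum.inl (some a), Sum.inl (some b) => H.Adj a b
    | Sum.inl none, Sum.inr none => False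
    | Sum.inl (some _), Sum.inr none => False
    | Sum.inr none, Sum.inl none => False
    | Sum.inr none, Sum.inl (some _) => False
    | Sum.inl none, Sum.inr (some u) => ∃ x ∈ C, H.Adj u x
    | Sum.inr (some u), Sum.inl none => ∃ x ∈ C, H.Adj u x
    | Sum.inl (some a), Sum.inr (some u) => H.Adj a u
    | Sum.inr (some u), Sum.inl (some a) => H.Adj a u
    | Sum.inr none, Sum.inr (some _) => True
    | Sum.inr (some _), Sum.inr none => True
    | Sum.inr none, Sum.inr none => False
    | Sum.inr (some _), Sum.inr (some _) => False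
  symm := ⟨by
    rintro ((_ | a) | (_ | a)) ((_ | b) | (_ | b)) h
    · exact h
    · exact h
    · exact h
    · exact h
    · exact h
    · exact h.symm
    · exact h
    · exact h
    · exact h
    · exact h
    · exact h
    · exact h
    · exact h
    · exact h
    · exact h
    · exact h⟩
  loopless := ⟨by
    rintro ((_ | a) | (_ | a)) h
    · exact h
    · exact H.loopless.irrefl a.1 h
    · exact h
    · exact h⟩

/-- The branch sets. -/
def epF (h : U) : Option {x // x ∈ A} ⊕ Option {x // x ∈ N} → Set U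
  | Sum.inl none => C
  | Sum.inl (some a) => {a.1}
  | Sum.inr none => {h}
  | Sum.inr (some u) => {u.1}

variable {H A N C}

theorem conn_singleton (x : U) : Conn H {x} := by
  intro a ha b hb
  rw [show a = b from (Set.mem_singleton_iff.1 ha).trans (Set.mem_singleton_iff.1 hb).symm]

theorem ep_minor {B : Set U} (hH : SphereMinor H B) {h : U} (hCne : C.Nonempty) (hC : Conn H C)
    (hAC : ∀ a ∈ A, a ∉ C) (hhA : h ∉ A) (hhC : h ∉ C) (hN : ∀ u ∈ N, H.Adj h u)
    (hNA : ∀ u ∈ N, u ∉ A) (hNC : ∀ u ∈ N, u ∉ C) : SphereMinor (epG H A N C) ∅ := by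
  have hhN : ∀ u : {x // x ∈ N}, u.1 ≠ h := fun u => (hN u.1 u.2).ne'
  have hAh : ∀ a : {x // x ∈ A}, a.1 ≠ h := by
    rintro ⟨a, ha⟩ rfl
    exact hhA ha
  have hAN : ∀ (a : {x // x ∈ A}) (u : {x // x ∈ N}), a.1 ≠ u.1 := by
    rintro ⟨a, ha⟩ ⟨u, hu⟩ rfl
    exact hNA _ hu ha
  refine hH.minor (epF A N C h) ?_ ?_ ?_ ?_
  · rintro ((_ | a) | (_ | a))
    · exact hCne
    · exact ⟨_, rfl⟩
    · exact ⟨_, rfl⟩
    · exact ⟨_, rfl⟩
  · rintro ((_ | a) | (_ | a))
    · exact hC
    · exact conn_singleton _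
    · exact conn_singleton _
    · exact conn_singleton _
  · rintro ((_ | a) | (_ | a)) ((_ | b) | (_ | b)) hne
    · exact absurd rfl hne
    · exact Set.disjoint_singleton_right.2 (hAC _ b.2)
    · exact Set.disjoint_singleton_right.2 hhC
    · exact Set.disjoint_singleton_right.2 (hNC _ b.2)
    · exact Set.disjoint_singleton_left.2 (hAC _ a.2)
    · exact Set.disjoint_singleton.2 (fun h => hne (by rw [Subtype.ext h]))
    · exact Set.disjoint_singleton.2 (hAh a)
    · exact Set.disjoint_singleton.2 (hAN a b)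
    · exact Set.disjoint_singleton_left.2 hhC
    · exact Set.disjoint_singleton.2 (hAh b).symm
    · exact absurd rfl hne
    · exact Set.disjoint_singleton.2 (hhN b).symm
    · exact Set.disjoint_singleton_left.2 (hNC _ a.2)
    · exact Set.disjoint_singleton.2 (hAN b a).symm
    · exact Set.disjoint_singleton.2 (hhN a)
    · exact Set.disjoint_singleton.2 (fun h => hne (by rw [Subtype.ext h]))
  · rintro ((_ | a) | (_ | a)) ((_ | b) | (_ | b)) hab
    · exact absurd hab id
    · obtain ⟨x, hx, h1⟩ := hab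
      exact ⟨x, hx, _, rfl, h1.symm⟩
    · exact absurd hab id
    · obtain ⟨x, hx, h1⟩ := hab
      exact ⟨x, hx, _, rfl, h1.symm⟩
    · obtain ⟨x, hx, h1⟩ := hab
      exact ⟨_, rfl, x, hx, h1⟩
    · exact ⟨_, rfl, _, rfl, hab⟩
    · exact absurd hab id
    · exact ⟨_, rfl, _, rfl, hab⟩
    · exact absurd hab id
    · exact absurd hab id
    · exact absurd hab id
    · exact ⟨_, rfl, _, rfl, hN _ b.2⟩
    · obtain ⟨x, hx, h1⟩ := hab
      exact ⟨_, rfl, x, hx, h1⟩
    · exact ⟨_, rfl, _, rfl, (show H.Adj b.1 a.1 from hab).symm⟩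
    · exact ⟨_, rfl, _, rfl, (hN _ a.2).symm⟩
    · exact absurd hab id

theorem sub_sum (X : Finset U) (g : U → ℕ) : ∑ x : {x // x ∈ X}, g x.1 = ∑ x ∈ X, g x :=
  Finset.sum_coe_sort X g

theorem sub_sum_two (X Y : Finset U) (g : U → U → ℕ) :
    ∑ x : {x // x ∈ X}, ∑ y : {y // y ∈ Y}, g x.1 y.1 = ∑ x ∈ X, ∑ y ∈ Y, g x y := by
  rw [← Finset.sum_coe_sort X]
  exact Finset.sum_congr rfl fun x _ => Finset.sum_coe_sort Y (fun y => g x.1 y)

/-- The number of pairs in the graph `epG` without the hub. -/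
theorem ep_dd_small : dd ((epG H A N C).comap (Sum.map id some)) univ univ =
    dd H A A + 2 * dd H A N + 2 * (∑ a ∈ A, ib (∃ x ∈ C, H.Adj a x)) +
      2 * ∑ a ∈ N, ib (∃ x ∈ C, H.Adj a x) := by
  unfold dd
  rw [Fintype.sum_sum_type, Fintype.sum_option]
  simp only [Fintype.sum_sum_type, Fintype.sum_option, Sum.map_inl, Sum.map_inr, id,
    SimpleGraph.comap_adj, epG, Finset.sum_add_distrib, ib_false, Finset.sum_const_zero]
  rw [sub_sum A (fun x => ib (∃ y ∈ C, H.Adj x y)),
    sub_sum N (fun x => ib (∃ y ∈ C, H.Adj x y)),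
    sub_sum_two A A (fun x y => ib (H.Adj x y)),
    sub_sum_two A N (fun x y => ib (H.Adj x y)),
    sub_sum_two N A (fun x y => ib (H.Adj y x)),
    Finset.sum_comm (s := N) (t := A)]
  ring

/-- The number of pairs in the graph `epG`. -/
theorem ep_dd : dd (epG H A N C) univ univ =
    dd H A A + 2 * dd H A N + 2 * (∑ a ∈ A, ib (∃ x ∈ C, H.Adj a x)) +
      2 * (∑ a ∈ N, ib (∃ x ∈ C, H.Adj a x)) + 2 * N.card := by
  unfold dd
  rw [Fintype.sum_sum_type, Fintype.sum_option]
  simp only [Fintype.sum_sum_type, Fintype.sum_option, epG, Finset.sum_add_distrib, ib_false,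
    ib_true, Finset.sum_const_zero, Finset.sum_const, Finset.card_univ, Fintype.card_coe,
    smul_eq_mul, mul_one]
  rw [sub_sum A (fun x => ib (∃ y ∈ C, H.Adj x y)),
    sub_sum N (fun x => ib (∃ y ∈ C, H.Adj x y)),
    sub_sum_two A A (fun x y => ib (H.Adj x y)),
    sub_sum_two A N (fun x y => ib (H.Adj x y)),
    sub_sum_two N A (fun x y => ib (H.Adj y x)),
    Finset.sum_comm (s := N) (t := A)]
  ring

/-- Two vertices of `N` can be joined in `epG` without the hub. -/
theorem ep_join (hB : Conn H {x | x ∈ A ∨ x ∈ C})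
    (hNadj : ∀ u ∈ N, ∃ x, (x ∈ A ∨ x ∈ C) ∧ H.Adj u x) (u w : {x // x ∈ N}) :
    Relation.ReflTransGen (fun p q => (epG H A N C).Adj p q ∧ p ≠ Sum.inr none ∧ q ≠ Sum.inr none)
      (Sum.inr (some u)) (Sum.inr (some w)) := by
  classical
  let π : U → Option {x // x ∈ A} := fun x => if h : x ∈ A ∧ x ∉ C then some ⟨x, h.1⟩ else none
  have hπ : ∀ x y, (x ∈ A ∨ x ∈ C) → (y ∈ A ∨ y ∈ C) → H.Adj x y →
      π x = π y ∨ (epG H A N C).Adj (Sum.inl (π x)) (Sum.inl (π y)) := by
    intro x y hx hy hxy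
    by_cases h1 : x ∈ C
    · have e1 : π x = none := dif_neg (fun h => h.2 h1)
      by_cases h2 : y ∈ C
      · have e2 : π y = none := dif_neg (fun h => h.2 h2)
        left
        rw [e1, e2]
      · have hyA : y ∈ A := by tauto
        have e2 : π y = some ⟨y, hyA⟩ := dif_pos ⟨hyA, h2⟩
        right
        rw [e1, e2]
        exact ⟨x, h1, hxy.symm⟩
    · have hxA : x ∈ A := by tauto
      have e1 : π x = some ⟨x, hxA⟩ := dif_pos ⟨hxA, h1⟩
      by_cases h2 : y ∈ C
      · have e2 : π y = none := dif_neg (fun h => h.2 h2)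
        right
        rw [e1, e2]
        exact ⟨y, h2, hxy⟩
      · have hyA : y ∈ A := by tauto
        have e2 : π y = some ⟨y, hyA⟩ := dif_pos ⟨hyA, h2⟩
        right
        rw [e1, e2]
        exact hxy
  have hπN : ∀ (v : {x // x ∈ N}) x, (x ∈ A ∨ x ∈ C) → H.Adj v.1 x →
      (epG H A N C).Adj (Sum.inr (some v)) (Sum.inl (π x)) := by
    intro v x hx hvx
    by_cases h1 : x ∈ C
    · have e1 : π x = none := dif_neg (fun h => h.2 h1)
      rw [e1]
      exact ⟨x, h1, hvx⟩
    · have hxA : x ∈ A := by tauto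
      have e1 : π x = some ⟨x, hxA⟩ := dif_pos ⟨hxA, h1⟩
      rw [e1]
      exact hvx.symm
  obtain ⟨x, hx, hux⟩ := hNadj u.1 u.2
  obtain ⟨y, hy, hwy⟩ := hNadj w.1 w.2
  have hne : ∀ p : Option {x // x ∈ A}, (Sum.inl p : Option {x // x ∈ A} ⊕ Option {x // x ∈ N}) ≠
      Sum.inr none := fun p h => by simp at h
  have hne2 : ∀ v : {x // x ∈ N}, (Sum.inr (some v) : Option {x // x ∈ A} ⊕
      Option {x // x ∈ N}) ≠ Sum.inr none := fun p h => by simp at h
  have key : ∀ y, Relation.ReflTransGen (fun a b => b ∈ {x | x ∈ A ∨ x ∈ C} ∧ H.Adj a b) x y →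
      (y ∈ A ∨ y ∈ C) ∧ Relation.ReflTransGen
        (fun p q => (epG H A N C).Adj p q ∧ p ≠ Sum.inr none ∧ q ≠ Sum.inr none)
        (Sum.inr (some u)) (Sum.inl (π y)) := by
    intro y hy
    induction hy with
    | refl => exact ⟨hx, Relation.ReflTransGen.single ⟨hπN u x hx hux, hne2 _, hne _⟩⟩
    | @tail b c _ hbc ih =>
      refine ⟨hbc.1, ?_⟩
      rcases hπ b c ih.1 hbc.1 hbc.2 with h1 | h1
      · rw [← h1]
        exact ih.2
      · exact ih.2.tail ⟨h1, hne _, hne _⟩
  exact (key y (hB x hx y hy)).2.tail ⟨(hπN w y hy hwy).symm, hne _, hne2 _⟩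

/-- The inequality for a connected set `A ∪ C` and its neighbours among the neighbours
of a vertex `h`. -/
theorem SphereMinor.eplus {B : Set U} (hH : SphereMinor H B) {h : U} (hCne : C.Nonempty)
    (hC : Conn H C) (hAC : ∀ a ∈ A, a ∉ C) (hhA : h ∉ A) (hhC : h ∉ C) (hN : ∀ u ∈ N, H.Adj h u)
    (hNA : ∀ u ∈ N, u ∉ A) (hNC : ∀ u ∈ N, u ∉ C) (hB : Conn H {x | x ∈ A ∨ x ∈ C})
    (hNadj : ∀ u ∈ N, ∃ x, (x ∈ A ∨ x ∈ C) ∧ H.Adj u x) :
    dd H A A + 2 * dd H A N + 2 * (∑ a ∈ A, ib (∃ x ∈ C, H.Adj a x)) +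
      2 * (∑ a ∈ N, ib (∃ x ∈ C, H.Adj a x)) ≤ 6 * A.card + 2 * N.card := by
  classical
  have hK := ep_minor (N := N) hH hCne hC hAC hhA hhC hN hNA hNC
  by_cases hn : 2 ≤ N.card
  · obtain ⟨ι, _, b, hb⟩ := hK.exists_fam
    have hcyc : ∀ u : {x // x ∈ N}, ∃ z ∈ Z (epG H A N C) Set.univ,
        z (Sum.inr none) (Sum.inr (some u)) ≠ 0 := by
      intro u
      obtain ⟨w, hw, hwu⟩ := Finset.exists_mem_ne (by omega : 1 < N.card) u.1
      have hne : u ≠ ⟨w, hw⟩ := fun h => hwu (congrArg Subtype.val h).symm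
      obtain ⟨J, hJ1, hJ2, hJ3⟩ := join_path
        (H := fun p q => (epG H A N C).Adj p q ∧ p ≠ Sum.inr none ∧ q ≠ Sum.inr none)
        (fun p q h => ⟨h.1.symm, h.2.2, h.2.1⟩) (fun p h => (epG H A N C).loopless.irrefl p h.1)
        (ep_join hB hNadj u ⟨w, hw⟩)
      have a1 : (epG H A N C).Adj (Sum.inr none) (Sum.inr (some u)) := trivial
      have a2 : (epG H A N C).Adj (Sum.inr none) (Sum.inr (some ⟨w, hw⟩)) := trivial
      refine ⟨fun p q => J p q + (ed (Sum.inr none) (Sum.inr (some u)) p q +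
        ed (Sum.inr none) (Sum.inr (some ⟨w, hw⟩)) p q), ⟨?_, ?_, ?_⟩, ?_⟩
      · intro p q
        change J p q + (_ + _) = J q p + (_ + _)
        rw [hJ1, ed_symm (Sum.inr none) (Sum.inr (some u)) p q,
          ed_symm (Sum.inr none) (Sum.inr (some ⟨w, hw⟩)) p q]
      · intro p q hpq
        refine ⟨?_, Set.mem_univ _, Set.mem_univ _⟩
        change J p q + (_ + _) ≠ 0 at hpq
        by_cases h1 : J p q = 0
        · by_cases h2 : ed (Sum.inr none) (Sum.inr (some u)) p q = 0
          · rw [h1, h2, zero_add, zero_add] at hpq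
            rcases ed_eq hpq with ⟨h3, h4⟩ | ⟨h3, h4⟩
            · rw [h3, h4]
              exact a2
            · rw [h3, h4]
              exact a2.symm
          · rcases ed_eq h2 with ⟨h3, h4⟩ | ⟨h3, h4⟩
            · rw [h3, h4]
              exact a1
            · rw [h3, h4]
              exact a1.symm
        · exact (hJ2 p q h1).1
      · intro p
        change ∑ q, (J p q + (ed (Sum.inr none) (Sum.inr (some u)) p q +
          ed (Sum.inr none) (Sum.inr (some ⟨w, hw⟩)) p q)) = 0
        rw [Finset.sum_add_distrib, Finset.sum_add_distrib, hJ3, ed_bd a1.ne, ed_bd a2.ne]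
        have e : ∀ a b c : ZMod 2, a + b + (c + a + (c + b)) = 0 := by decide
        exact e _ _ _
      · change J (Sum.inr none) (Sum.inr (some u)) +
          (ed (Sum.inr none) (Sum.inr (some u)) (Sum.inr none) (Sum.inr (some u)) +
          ed (Sum.inr none) (Sum.inr (some ⟨w, hw⟩)) (Sum.inr none) (Sum.inr (some u))) ≠ 0
        have e1 : J (Sum.inr none) (Sum.inr (some u)) = 0 := by
          by_contra hc
          exact (hJ2 _ _ hc).2.1 rfl
        have e2 : ed (Sum.inr none : Option {x // x ∈ A} ⊕ Option {x // x ∈ N})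
            (Sum.inr (some ⟨w, hw⟩)) (Sum.inr none) (Sum.inr (some u)) = 0 := by
          by_contra hc
          rcases ed_eq hc with ⟨_, h4⟩ | ⟨h3, h4⟩
          · exact hne (Option.some_injective _ (Sum.inr_injective h4))
          · simp at h3
        rw [e1, e2, ed_left, zero_add, add_zero]
        exact one_ne_zero
    have h1 := hb.hub (h := Sum.inr none) (by
      rintro ((_ | a) | (_ | a)) ((_ | b) | (_ | b)) h1 h2 h3
      all_goals first | exact h1 | exact h2 | exact h3) (n := N.card) (by omega)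
      ((univ : Finset {x // x ∈ N}).map ⟨fun u => Sum.inr (some u), fun u v h => by
        exact Option.some_injective _ (Sum.inr_injective h)⟩) (by
        rw [card_map, card_univ, Fintype.card_coe]) (by
        intro p hp
        obtain ⟨u, _, rfl⟩ := mem_map.1 hp
        exact hcyc u)
    have h2 := dd_univ (epG H A N C)
    rw [ep_dd] at h2
    simp only [Fintype.card_sum, Fintype.card_option, Fintype.card_coe] at h1
    omega
  · have hK' := hK.comap (W := Option {x // x ∈ A} ⊕ {x // x ∈ N}) (Sum.map id some)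
      (Sum.map_injective.2 ⟨Function.injective_id, Option.some_injective _⟩)
    have h1 := hK'.edges ⟨Sum.inl none⟩
    have h2 := dd_univ ((epG H A N C).comap (Sum.map id some))
    rw [ep_dd_small] at h2
    simp only [Fintype.card_sum, Fintype.card_option, Fintype.card_coe] at h1
    omega

end eplus

end Pool.Agent.W986
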