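import Pool.Agent.W986.Hub

/-!
# The count for subgraphs of a graph on the sphere with a hub
-/

set_option autoImplicit false

open Finset

namespace Pool.Agent.W986

open Pool.Agent.DC76

theorem dd_comap {U W : Type} (H : SimpleGraph U) (f : W ↪ U) (X Y : Finset W) :
    dd (H.comap f) X Y = dd H (X.map f) (Y.map f) := by
  unfold dd
  rw [Finset.sum_map]
  refine Finset.sum_congr rfl fun x _ => ?_
  rw [Finset.sum_map]
  rfl

theorem dd_mono_right {U : Type} (H : SimpleGraph U) (X : Finset U) {Y Z : Finset U}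
    (hYZ : Y ⊆ Z) : dd H X Y ≤ dd H X Z :=
  Finset.sum_le_sum fun _ _ => Finset.sum_le_sum_of_subset hYZ

/-- A minor of a graph on the sphere, a vertex `h`, and a set `M` of marked vertices, which are all
equal or adjacent to `h`: every set `W` with an element other than `h` contains a set `T` as in
`minor_marks`. -/
theorem hub_count {U : Type} [DecidableEq U] {H : SimpleGraph U} {B : Set U}
    (hH : SphereMinor H B) (h : U) (M : Set U) [DecidablePred (· ∈ M)]
    (hM : ∀ v ∈ M, v = h ∨ H.Adj h v) (W : Finset U) (hW : ∃ v ∈ W, v ≠ h) :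
    ∃ T ⊆ W, h ∉ T ∧ 2 * ein H T + 2 * ein H W <
      10 * T.card + ein H (T.filter (· ∉ M)) + 2 * ein H (W \ T) := by
  classical
  by_contra hcon
  push Not at hcon
  -- the condition in terms of degrees
  have key : ∀ T ⊆ W, h ∉ T → 10 * T.card + ein H (T.filter (· ∉ M)) ≤ 2 * dd H T W := by
    intro T hT hhT
    have h1 := hcon T hT hhT
    have hdis : Disjoint T (W \ T) := Finset.disjoint_sdiff
    have hWT : T ∪ W \ T = W := Finset.union_sdiff_of_subset hT
    have h2 : dd H W W = dd H T T + 2 * dd H T (W \ T) + dd H (W \ T) (W \ T) := by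
      conv_lhs => rw [← hWT]
      rw [dd_union_left H hdis, dd_union_right H hdis, dd_union_right H hdis,
        dd_comm H (W \ T) T]
      ring
    have h3 : dd H T W = dd H T T + dd H T (W \ T) := by
      conv_lhs => rw [← hWT]
      rw [dd_union_right H hdis]
    have e1 := dd_ein H W
    have e2 := dd_ein H T
    have e3 := dd_ein H (W \ T)
    omega
  let W' : Finset U := insert h W
  have hhW' : h ∈ W' := mem_insert_self _ _
  let f : {x // x ∈ W'} ↪ U := ⟨Subtype.val, Subtype.val_injective⟩
  have hK : SphereMinor (H.comap f) (f ⁻¹' B) := hH.comap f f.injective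
  have hmem : ∀ v : {x // x ∈ W'}, v ≠ ⟨h, hhW'⟩ → v.1 ∈ W ∧ v.1 ≠ h := by
    intro v hv
    have h1 : v.1 ≠ h := fun h1 => hv (Subtype.ext h1)
    exact ⟨Finset.mem_of_mem_insert_of_ne v.2 h1, h1⟩
  refine hub_false hK (h := ⟨h, hhW'⟩) ?_ ?_ ?_
  · intro v hv
    obtain ⟨h1, h2⟩ := hmem v hv
    have h3 := key {v.1} (Finset.singleton_subset_iff.2 h1) (fun h4 => h2 (mem_singleton.1 h4).symm)
    rw [card_singleton] at h3
    have h4 : dd H {v.1} W ≤ ∑ w, ib ((H.comap f).Adj v w) := by
      refine le_trans (dd_mono_right H _ (Finset.subset_insert h W)) (le_of_eq ?_)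
      unfold dd
      rw [Finset.sum_singleton]
      exact (Finset.sum_coe_sort W' (fun w => ib (H.Adj v.1 w))).symm
    omega
  · intro A hA hAI
    set T := A.map f with hT
    have hTh : ∀ x ∈ T, x ∈ W ∧ x ≠ h ∧ ¬ H.Adj h x := by
      intro x hx
      obtain ⟨a, ha, rfl⟩ := mem_map.1 hx
      obtain ⟨h1, h2⟩ := hAI a ha
      obtain ⟨h3, h4⟩ := hmem a h1
      exact ⟨h3, h4, h2⟩
    have hTM : T.filter (· ∉ M) = T := by
      rw [Finset.filter_eq_self]
      intro x hx hxM
      rcases hM x hxM with h1 | h1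
      · exact (hTh x hx).2.1 h1
      · exact (hTh x hx).2.2 h1
    have h1 := key T (fun x hx => (hTh x hx).1) (fun h1 => (hTh h h1).2.1 rfl)
    rw [hTM] at h1
    have h2 : (Aᶜ).map f = W' \ T := by
      ext x
      simp only [mem_map, mem_compl, mem_sdiff]
      constructor
      · rintro ⟨a, ha, rfl⟩
        refine ⟨a.2, ?_⟩
        intro h3
        obtain ⟨b, hb, hab⟩ := mem_map.1 h3
        exact ha (f.injective hab ▸ hb)
      · rintro ⟨h3, h4⟩
        refine ⟨⟨x, h3⟩, ?_, rfl⟩
        intro h5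
        exact h4 (mem_map.2 ⟨_, h5, rfl⟩)
    have hTW : T ⊆ W' := fun x hx => mem_insert_of_mem (hTh x hx).1
    have hdis : Disjoint T (W' \ T) := Finset.disjoint_sdiff
    have h3 : dd H T W' = dd H T T + dd H T (W' \ T) := by
      conv_lhs => rw [← Finset.union_sdiff_of_subset hTW]
      rw [dd_union_right H hdis]
    have h4 : dd H T W ≤ dd H T W' := dd_mono_right H _ (Finset.subset_insert h W)
    have h5 := dd_ein H T
    have h6 : A.card = T.card := (card_map f).symm
    rw [dd_comap, dd_comap, ← hT, h2, h6]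
    omega
  · obtain ⟨v, hv, hvh⟩ := hW
    exact ⟨⟨v, mem_insert_of_mem hv⟩, fun h1 => hvh (congrArg Subtype.val h1)⟩

end Pool.Agent.W986
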