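import Pool.Agent.W986.HubMain
import Pool.Agent.W986.Final2

/-!
# Colourings of planar graphs in which a vertex and all its neighbours are unsaturated
-/

set_option autoImplicit false

open Finset

namespace Pool.Agent.W986

open Pool.Agent.DC76

/-- If `P` is planar and `h` is a vertex, then every subgraph of `P` has a `(4, 1)`-colouring in
which `h` and all its neighbours in `P` have no neighbour of their own colour. -/
theorem hubMarks : HubMarks := by
  intro V _ G P h hP hle
  classical
  obtain ⟨c, hc1, hc2⟩ := minor_marks hP (fun u w hu hw huw => by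
    have h1 : u = h := by
      by_contra h1
      exact hu h1
    have h2 : w = h := by
      by_contra h2
      exact hw h2
    rw [h1, h2] at huw
    exact P.loopless.irrefl h huw) {x | x = h ∨ P.Adj h x} (fun W hW => by
    obtain ⟨T, hT1, hT2, hT3⟩ := hub_count hP h {x | x = h ∨ P.Adj h x} (fun v hv => hv) W hW
    exact ⟨T, hT1, fun v hv hvh => hT2 (hvh ▸ hv), hT3⟩)
  refine ⟨c, fun v => ?_, fun u hu w huw => hc2 u hu w (hle huw)⟩
  refine le_trans (Set.ncard_le_ncard ?_ (Set.toFinite _)) (hc1 v)
  rintro u ⟨h1, h2⟩
  exact ⟨hle h1, h2⟩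

end Pool.Agent.W986
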