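import Pool.Agent.W986.Rot
import Pool.Agent.DC76.FaceRank

/-!
# Sides of a boundary and non-crossing
-/

set_option autoImplicit false

open Finset

namespace Pool.Agent.W986

open Pool.Agent.DC76

variable {V : Type} [DecidableEq V] {G : SimpleGraph V} {F : Type} [Fintype F]

theorem trav_comm (n : ℕ) (w : ℕ → V) (u v : V) : trav n w u v = trav n w v u := by
  unfold trav
  congr 1
  refine filter_congr fun t _ => ?_
  exact or_comm

/-- The number of times the faces of `I` traverse the edge `xy`. -/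
def bd (M : FacialWalks G F) (I : Finset F) (x y : V) : ℕ :=
  ∑ f ∈ I, trav (M.len f) (M.walk f) x y

theorem bd_comm (M : FacialWalks G F) (I : Finset F) (x y : V) : bd M I x y = bd M I y x :=
  sum_congr rfl fun _ _ => trav_comm _ _ _ _

theorem bd_le (M : FacialWalks G F) (I : Finset F) {x y : V} (h : G.Adj x y) : bd M I x y ≤ 2 := by
  rw [← M.twice x y h]
  exact sum_le_sum_of_subset (subset_univ I)

/-- The face `f` contains the edge `xy`. -/
def At (M : FacialWalks G F) (f : F) (x y : V) : Prop := trav (M.len f) (M.walk f) x y ≠ 0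

theorem At.symm {M : FacialWalks G F} {f : F} {x y : V} (h : At M f x y) : At M f y x := by
  unfold At
  rw [trav_comm]
  exact h

/-- The edge `xy` is on the side `I`. -/
def side (M : FacialWalks G F) (I : Finset F) (x y : V) : Prop := ∃ f ∈ I, At M f x y

theorem side_comm (M : FacialWalks G F) (I : Finset F) (x y : V) :
    side M I x y ↔ side M I y x :=
  ⟨fun ⟨f, h1, h2⟩ => ⟨f, h1, h2.symm⟩, fun ⟨f, h1, h2⟩ => ⟨f, h1, h2.symm⟩⟩

/-- (J1) If `xy` is not an edge of the boundary of `I`, then all faces at `xy` are on the same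
side. -/
theorem mem_iff_side (M : FacialWalks G F) (I : Finset F) {x y : V} (h : G.Adj x y)
    (hb : bd M I x y ≠ 1) {f : F} (hf : At M f x y) : f ∈ I ↔ side M I x y := by
  classical
  constructor
  · intro h1
    exact ⟨f, h1, hf⟩
  · rintro ⟨g, h1, h2⟩
    by_contra h3
    have h4 := M.twice x y h
    have h5 : bd M I x y + ∑ f ∈ Iᶜ, trav (M.len f) (M.walk f) x y = 2 := by
      rw [← h4]
      exact sum_add_sum_compl I _
    have h6 : trav (M.len g) (M.walk g) x y ≤ bd M I x y :=
      single_le_sum (f := fun f => trav (M.len f) (M.walk f) x y) (fun _ _ => Nat.zero_le _) h1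
    have h7 : trav (M.len f) (M.walk f) x y ≤ ∑ f ∈ Iᶜ, trav (M.len f) (M.walk f) x y :=
      single_le_sum (f := fun f => trav (M.len f) (M.walk f) x y) (fun _ _ => Nat.zero_le _)
        (mem_compl.2 h3)
    unfold At at hf h2
    omega

theorem at_of_end (M : FacialWalks G F) {x y : V} {e : Σ _ : F, ℕ × Bool}
    (he : e ∈ ends M x y) : At M e.1 x y := by
  unfold At
  rw [← card_fends (M.closed e.1) (adj_nbr M he).ne]
  unfold ends at he
  rw [mem_sigma] at he
  exact card_ne_zero.2 ⟨e.2, he.2⟩

/-- (J2) If the boundary of `I` has no edge at `x`, then all edges at `x` are on the same side. -/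
theorem side_const (M : FacialWalks G F) (hL : Link M) (I : Finset F) {x : V}
    (hb : ∀ y, G.Adj x y → bd M I x y ≠ 1) {y z : V} (hy : G.Adj x y) (hz : G.Adj x z)
    (h : side M I x y) : side M I x z := by
  by_contra hcon
  obtain ⟨u, ⟨hu1, hu2⟩, e, he, hN⟩ := link_split M hL x {u | G.Adj x u ∧ side M I x u}
    ⟨y, ⟨hy, h⟩, hy⟩ ⟨z, fun h1 => hcon h1.2, hz⟩
  apply hN
  have h1 := opp_mem M he
  have h2 := adj_nbr M h1
  refine ⟨h2, ?_⟩
  have h3 := (mem_iff_side M I hu1 (hb u hu1) (at_of_end M he)).2 hu2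
  exact (mem_iff_side M I h2 (hb _ h2) (at_of_end M h1)).1 h3

/-- (J3) Along a connected set which avoids the boundary of `I` the side does not change. -/
theorem side_path (M : FacialWalks G F) (hL : Link M) (I : Finset F) (L : Set V)
    (hb : ∀ x ∈ L, ∀ y, G.Adj x y → bd M I x y ≠ 1) {a b : V} (ha : a ∈ L)
    (hab : Relation.ReflTransGen (fun x y => y ∈ L ∧ G.Adj x y) a b) {a' b' : V}
    (haa : G.Adj a a') (hbb : G.Adj b b') : side M I a a' ↔ side M I b b' := by
  have hconst : ∀ x ∈ L, ∀ y z, G.Adj x y → G.Adj x z → (side M I x y ↔ side M I x z) :=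
    fun x hx y z hy hz => ⟨side_const M hL I (hb x hx) hy hz, side_const M hL I (hb x hx) hz hy⟩
  induction hab generalizing b' with
  | refl => exact hconst a ha a' b' haa hbb
  | @tail c d h1 h2 ih =>
    have hc : c ∈ L := by
      rcases h1.cases_tail with h3 | ⟨e, _, h3⟩
      · rw [h3]
        exact ha
      · exact h3.1
    have h3 : side M I a a' ↔ side M I c d := ih h2.2
    rw [h3, side_comm]
    exact hconst d h2.1 c b' h2.2.symm hbb

section rot

variable {M : FacialWalks G F} {v : V} {d : ℕ} {ν : ℕ → V} {fc : ℕ → F}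

theorem IsRot.adj' (h : IsRot M v d ν fc) (i : ℕ) : G.Adj v (ν i) := by
  have hd : 0 < d := by have := h.three; omega
  have hper : ∀ k j, ν (j + d * k) = ν j := by
    intro k
    induction k with
    | zero => intro j; rfl
    | succ k ih =>
      intro j
      rw [Nat.mul_succ, ← add_assoc, h.per]
      exact ih j
  rw [h.adj]
  refine ⟨i % d, Nat.mod_lt _ hd, ?_⟩
  have h1 := hper (i / d) (i % d)
  rw [Nat.mod_add_div] at h1
  exact h1.symm

theorem IsRot.bd_eq (h : IsRot M v d ν fc) [DecidableEq F] (I : Finset F) (i : ℕ) :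
    bd M I v (ν (i + 1)) = (if fc i ∈ I then 1 else 0) + (if fc (i + 1) ∈ I then 1 else 0) :=
  h.cnt I i

theorem IsRot.at_left (h : IsRot M v d ν fc) (i : ℕ) : At M (fc i) v (ν (i + 1)) := by
  classical
  have h1 := h.bd_eq {fc i} i
  rw [if_pos (mem_singleton_self _)] at h1
  unfold At
  unfold bd at h1
  rw [sum_singleton] at h1
  omega

theorem IsRot.at_right (h : IsRot M v d ν fc) (i : ℕ) : At M (fc (i + 1)) v (ν (i + 1)) := by
  classical
  have h1 := h.bd_eq {fc (i + 1)} i
  rw [if_pos (mem_singleton_self (fc (i + 1)))] at h1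
  unfold At
  unfold bd at h1
  rw [sum_singleton] at h1
  omega

/-- The sides of two consecutive corners agree iff the edge between them is not in the
boundary. -/
theorem IsRot.step (h : IsRot M v d ν fc) (I : Finset F) (i : ℕ) :
    bd M I v (ν (i + 1)) ≠ 1 ↔ (fc i ∈ I ↔ fc (i + 1) ∈ I) := by
  classical
  rw [h.bd_eq I i]
  by_cases h1 : fc i ∈ I
  · by_cases h2 : fc (i + 1) ∈ I
    · simp [h1, h2]
    · simp [h1, h2]
  · by_cases h2 : fc (i + 1) ∈ I
    · simp [h1, h2]
    · simp [h1, h2]

theorem IsRot.const (h : IsRot M v d ν fc) (I : Finset F) (p : ℕ) (k : ℕ)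
    (hk : ∀ j, p < j → j ≤ p + k → bd M I v (ν j) ≠ 1) : fc p ∈ I ↔ fc (p + k) ∈ I := by
  induction k with
  | zero => exact Iff.rfl
  | succ k ih =>
    rw [ih fun j h1 h2 => hk j h1 (by omega)]
    exact (h.step I (p + k)).1 (hk (p + k + 1) (by omega) (by omega))

/-- (J4) Non-crossing: if the boundary of `I` has exactly the two edges to `ν p` and `ν q` at `v`, a
connected set `L` avoids the boundary, then `L` does not contain neighbours of `v` on both sides of
`ν p`, `ν q`. -/
theorem noncross (h : IsRot M v d ν fc) (hL : Link M) (I : Finset F) (p q : ℕ) (hpq : p < q)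
    (hq : bd M I v (ν q) = 1)
    (hout : ∀ j, p < j → j < p + d → j ≠ q → bd M I v (ν j) ≠ 1)
    (L : Set V) (hb : ∀ x ∈ L, ∀ y, G.Adj x y → bd M I x y ≠ 1)
    (j k : ℕ) (hj1 : p < j) (hj2 : j < q) (hk1 : q < k) (hk2 : k < p + d) (hjL : ν j ∈ L)
    (hjk : Relation.ReflTransGen (fun x y => y ∈ L ∧ G.Adj x y) (ν j) (ν k)) : False := by
  -- the sides at `v`
  have h1 : side M I v (ν j) ↔ fc p ∈ I := by
    have h2 : fc p ∈ I ↔ fc (p + (j - p)) ∈ I :=
      h.const I p (j - p) fun i h3 h4 => hout i h3 (by omega) (by omega)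
    rw [h2, show p + (j - p) = j by omega]
    have h3 := h.at_right (j - 1)
    rw [show j - 1 + 1 = j by omega] at h3
    exact (mem_iff_side M I (h.adj' j) (hout j hj1 (by omega) (by omega)) h3).symm
  have h2 : side M I v (ν k) ↔ fc q ∈ I := by
    have h2 : fc q ∈ I ↔ fc (q + (k - q)) ∈ I :=
      h.const I q (k - q) fun i h3 h4 => hout i (by omega) (by omega) (by omega)
    rw [h2, show q + (k - q) = k by omega]
    have h3 := h.at_right (k - 1)
    rw [show k - 1 + 1 = k by omega] at h3
    exact (mem_iff_side M I (h.adj' k) (hout k (by omega) hk2 (by omega)) h3).symm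
  have h3 : ¬ (fc p ∈ I ↔ fc q ∈ I) := by
    have h4 : fc p ∈ I ↔ fc (p + (q - 1 - p)) ∈ I :=
      h.const I p (q - 1 - p) fun i h5 h6 => hout i h5 (by omega) (by omega)
    rw [show p + (q - 1 - p) = q - 1 by omega] at h4
    have h5 := h.step I (q - 1)
    rw [show q - 1 + 1 = q by omega] at h5
    rw [h4]
    intro h6
    exact h5.2 h6 hq
  have h4 := side_path M hL I L hb hjL hjk (h.adj' j).symm (h.adj' k).symm
  rw [side_comm, side_comm M I (ν k) v, h1, h2] at h4
  exact h3 h4

end rot

end Pool.Agent.W986
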