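import Pool.Agent.W986.LayTop

/-!
# Layered graphs on the projective plane
-/

set_option autoImplicit false
set_option linter.unusedSectionVars false

open Finset

namespace Pool.Agent.W986.Lay

open Pool.Agent.DC76 Pool.Agent.W986

section counts

variable {U : Type} [Fintype U] [DecidableEq U]

open Classical in
/-- The number of vertices with the property `p` and the colour `l`. -/
noncomputable def cnt (p : U → Prop) (φ : U → Fin 4) (l : Fin 4) : ℕ := #{w | p w ∧ φ w = l}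

open Classical in
theorem sum_cnt (p : U → Prop) (φ : U → Fin 4) : ∑ l, cnt p φ l = #{w | p w} := by
  rw [card_eq_sum_card_fiberwise (f := φ) (t := univ) (fun _ _ => by simp)]
  refine sum_congr rfl fun l _ => ?_
  unfold cnt
  rw [filter_filter]

theorem cnt_congr {p : U → Prop} {φ ψ : U → Fin 4} (h : ∀ w, p w → φ w = ψ w) (l : Fin 4) :
    cnt p φ l = cnt p ψ l := by
  classical
  unfold cnt
  congr 1
  ext w
  simp only [mem_filter, mem_univ, true_and]
  constructor
  · rintro ⟨h1, h2⟩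
    exact ⟨h1, by rw [← h w h1, h2]⟩
  · rintro ⟨h1, h2⟩
    exact ⟨h1, by rw [h w h1, h2]⟩

theorem cnt_pos {p : U → Prop} {φ : U → Fin 4} {l : Fin 4} {w : U} (h1 : p w) (h2 : φ w = l) :
    1 ≤ cnt p φ l := by
  classical
  unfold cnt
  exact card_pos.2 ⟨w, by simp [h1, h2]⟩

theorem cnt_two {p : U → Prop} {φ : U → Fin 4} {l : Fin 4} {w w' : U} (h1 : p w) (h2 : φ w = l)
    (h3 : p w') (h4 : φ w' = l) (h5 : w ≠ w') : 2 ≤ cnt p φ l := by
  classical
  unfold cnt
  rw [← card_pair h5]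
  refine card_le_card fun y hy => ?_
  rcases mem_insert.1 hy with rfl | hy
  · simp [h1, h2]
  · rw [mem_singleton.1 hy]
    simp [h3, h4]

theorem cnt_zero {p : U → Prop} {φ : U → Fin 4} {l : Fin 4} (h : cnt p φ l = 0) {w : U}
    (h1 : p w) : φ w ≠ l := by
  intro h2
  have := cnt_pos h1 h2
  omega

open Classical in
theorem cnt_update (p : U → Prop) (φ : U → Fin 4) (x : U) (l c : Fin 4) :
    cnt p (Function.update φ x l) c + (if p x ∧ φ x = c then 1 else 0) =
      cnt p φ c + (if p x ∧ l = c then 1 else 0) := by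
  unfold cnt
  rw [card_filter, card_filter, ← add_sum_erase univ _ (mem_univ x),
    ← add_sum_erase univ (fun w => if p w ∧ φ w = c then 1 else 0) (mem_univ x)]
  have h1 : ∑ w ∈ univ.erase x, (if p w ∧ Function.update φ x l w = c then 1 else 0) =
      ∑ w ∈ univ.erase x, (if p w ∧ φ w = c then 1 else 0) := by
    refine sum_congr rfl fun w hw => ?_
    rw [Function.update_of_ne (ne_of_mem_erase hw)]
  rw [h1, Function.update_self]
  omega

variable (H : SimpleGraph U) (ρ : U → ℕ)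

/-- Upper neighbours. -/
def up (x w : U) : Prop := H.Adj x w ∧ ρ x < ρ w

/-- Neighbours of the same rank. -/
def sm (x w : U) : Prop := H.Adj x w ∧ ρ w = ρ x

/-- Lower neighbours. -/
def lo (x w : U) : Prop := H.Adj x w ∧ ρ w < ρ x

open Classical in
/-- number of upper neighbours -/
noncomputable def nu (x : U) : ℕ := #{w | up H ρ x w}

open Classical in
/-- number of neighbours of the same rank -/
noncomputable def ns (x : U) : ℕ := #{w | sm H ρ x w}

open Classical in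
/-- number of lower neighbours -/
noncomputable def nl (x : U) : ℕ := #{w | lo H ρ x w}

/-- the cost of the colour `l` at `x` -/
noncomputable def own (φ : U → Fin 4) (x : U) (l : Fin 4) : ℕ :=
  2 * cnt (up H ρ x) φ l + cnt (sm H ρ x) φ l

/-- light vertices -/
def Light (x : U) : Prop := 2 * nu H ρ x + ns H ρ x ≤ 7

/-- safe vertices -/
def Safe (x : U) : Prop := ns H ρ x = 0 ∨ 2 * nu H ρ x + ns H ρ x + nl H ρ x ≤ 7

variable {H ρ}

theorem sum_own (φ : U → Fin 4) (x : U) : ∑ l, own H ρ φ x l = 2 * nu H ρ x + ns H ρ x := by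
  unfold own
  rw [sum_add_distrib, ← mul_sum, sum_cnt, sum_cnt]
  rfl

theorem own_le_one {φ : U → Fin 4} {x : U} (hx : Light H ρ x)
    (h : ∀ l, own H ρ φ x (φ x) ≤ own H ρ φ x l) : own H ρ φ x (φ x) ≤ 1 := by
  have h1 := sum_own (H := H) (ρ := ρ) φ x
  have h2 : 4 * own H ρ φ x (φ x) ≤ ∑ l, own H ρ φ x l := by
    calc 4 * own H ρ φ x (φ x) = ∑ _l : Fin 4, own H ρ φ x (φ x) := by simp
      _ ≤ _ := sum_le_sum fun l _ => h l
  unfold Light at hx
  omega

/-- the potential of a class -/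
noncomputable def Dp (H : SimpleGraph U) (ρ : U → ℕ) (L : Finset U) (φ : U → Fin 4) : ℕ :=
  ∑ x ∈ L, (4 * cnt (up H ρ x) φ (φ x) + cnt (sm H ρ x) φ (φ x))

theorem Dp_update (L : Finset U) (φ : U → Fin 4) {t : ℕ} (hr : ∀ z ∈ L, ρ z = t)
    (hcl : ∀ z ∈ L, ∀ w, H.Adj z w → ρ w = t → w ∈ L) {x : U} (hx : x ∈ L) (l : Fin 4) :
    Dp H ρ L (Function.update φ x l) + 2 * own H ρ φ x (φ x) =
      Dp H ρ L φ + 2 * own H ρ φ x l := by
  classical
  unfold Dp
  rw [← add_sum_erase L _ hx, ← add_sum_erase L (fun x => 4 * cnt (up H ρ x) φ (φ x) +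
    cnt (sm H ρ x) φ (φ x)) hx, Function.update_self]
  have hne : ∀ w, H.Adj x w → Function.update φ x l w = φ w := fun w hw =>
    Function.update_of_ne hw.ne' _ _
  have h1 : cnt (up H ρ x) (Function.update φ x l) l = cnt (up H ρ x) φ l :=
    cnt_congr (fun w hw => hne w hw.1) l
  have h2 : cnt (sm H ρ x) (Function.update φ x l) l = cnt (sm H ρ x) φ l :=
    cnt_congr (fun w hw => hne w hw.1) l
  have h3 : ∀ c : Fin 4, ∑ z ∈ L.erase x, (if sm H ρ z x ∧ c = φ z then 1 else 0) =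
      cnt (sm H ρ x) φ c := by
    intro c
    unfold cnt
    rw [← card_filter]
    congr 1
    ext w
    simp only [mem_filter, mem_erase, mem_univ, true_and]
    constructor
    · rintro ⟨⟨h4, h5⟩, h6, h7⟩
      exact ⟨⟨h6.1.symm, h6.2.symm⟩, h7.symm⟩
    · rintro ⟨⟨h4, h5⟩, h6⟩
      exact ⟨⟨h4.ne', hcl x hx w h4 (by rw [h5, hr x hx])⟩, ⟨h4.symm, h5.symm⟩, h6.symm⟩
  have h4 : ∑ z ∈ L.erase x, (4 * cnt (up H ρ z) (Function.update φ x l)
        (Function.update φ x l z) + cnt (sm H ρ z) (Function.update φ x l)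
        (Function.update φ x l z)) + cnt (sm H ρ x) φ (φ x) =
      ∑ z ∈ L.erase x, (4 * cnt (up H ρ z) φ (φ z) + cnt (sm H ρ z) φ (φ z)) +
        cnt (sm H ρ x) φ l := by
    rw [← h3 (φ x), ← h3 l, ← sum_add_distrib, ← sum_add_distrib]
    refine sum_congr rfl fun z hz => ?_
    rw [Function.update_of_ne (ne_of_mem_erase hz)]
    have h5 : cnt (up H ρ z) (Function.update φ x l) (φ z) = cnt (up H ρ z) φ (φ z) := by
      refine cnt_congr (fun w hw => ?_) _
      rw [Function.update_of_ne]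
      rintro rfl
      have h6 := hw.2
      rw [hr z (mem_of_mem_erase hz), hr w hx] at h6
      exact lt_irrefl _ h6
    have h6 := cnt_update (sm H ρ z) φ x l (φ z)
    rw [h5]
    omega
  have h7 : own H ρ φ x (φ x) = 2 * cnt (up H ρ x) φ (φ x) + cnt (sm H ρ x) φ (φ x) := rfl
  have h8 : own H ρ φ x l = 2 * cnt (up H ρ x) φ l + cnt (sm H ρ x) φ l := rfl
  rw [h1, h2]
  omega

end counts

section good

variable {V : Type} [Fintype V] [DecidableEq V] {G : SimpleGraph V} {F : Type} [Fintype F]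
  {U : Type} [Fintype U] [DecidableEq U]

/-- `Q` is a good class of colourings of the set `S`. -/
structure Good (H : SimpleGraph U) (ρ : U → ℕ) (M : FacialWalks G F) (f : U → V) (S : Set U)
    (Q : (U → Fin 4) → Prop) (E : Finset (Sym2 U)) (r : ℕ) : Prop where
  ne : ∃ φ, Q φ
  cl : ∀ φ ψ, Q φ → (∀ x ∈ S, ∀ y ∈ S, H.Adj x y → (φ x = φ y ↔ ψ x = ψ y)) → Q ψ
  mn : ∀ φ, Q φ → ∀ x ∈ S, Light H ρ x → ∀ l, own H ρ φ x (φ x) ≤ own H ρ φ x l
  ex : ∀ φ, Q φ → ∀ x ∈ S, Light H ρ x → ∀ l, own H ρ φ x l = own H ρ φ x (φ x) →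
    (∀ w ∈ S, H.Adj x w → ρ w < ρ x → φ w ≠ φ x ∧ φ w ≠ l) →
    Q (Function.update φ x l)
  tm : ∀ φ, Q φ → ∀ x ∈ S, ∀ y ∈ S, H.Adj x y → φ x = φ y → ρ x = ρ y ∨ s(x, y) ∈ E
  eS : ∀ φ, Q φ → ∀ x y, s(x, y) ∈ E → x ∈ S ∧ y ∈ S ∧ φ x = φ y
  mt : ∀ φ, Q φ → ∀ x ∈ S, ∀ y ∈ S, ∀ z ∈ S, H.Adj x y → H.Adj x z → φ y = φ x → φ z = φ x → y = z
  cr : E.card ≤ r
  dt : ∀ φ, Q φ → ∃ D : Finset (Fin 3), r ≤ D.card ∧ ∀ s ∈ D, Det M f S φ s

variable {H : SimpleGraph U} {ρ : U → ℕ} {M : FacialWalks G F} {f : U → V} {S : Set U}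
  {Q : (U → Fin 4) → Prop} {E : Finset (Sym2 U)} {r : ℕ}

theorem Det.congr {S : Set U} {φ ψ : U → Fin 4} (h : ∀ x ∈ S, φ x = ψ x) {s : Fin 3}
    (h1 : Det M f S φ s) : Det M f S ψ s := by
  obtain ⟨b, z, hz, hzB, h2⟩ := h1
  refine ⟨b, z, hz, hzB, fun x y hxy => ?_⟩
  obtain ⟨u, hu, h3, h4⟩ := h2 x y hxy
  exact ⟨u, hu, h3, by rw [← h u hu, h4]⟩

theorem good_empty (M : FacialWalks G F) (f : U → V) :
    Good H ρ M f (∅ : Set U) (fun _ => True) ∅ 0 where
  ne := ⟨fun _ => 0, trivial⟩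
  cl := fun _ _ _ _ => trivial
  mn := fun _ _ _ hx => absurd hx (Set.notMem_empty _)
  ex := fun _ _ _ _ _ _ _ _ => trivial
  tm := fun _ _ _ hx => absurd hx (Set.notMem_empty _)
  eS := fun _ _ _ _ h => absurd h (notMem_empty _)
  mt := fun _ _ _ hx => absurd hx (Set.notMem_empty _)
  cr := le_rfl
  dt := fun _ _ => ⟨∅, le_rfl, fun _ h => absurd h (notMem_empty _)⟩

theorem Good.step_class (h : Good H ρ M f S Q E r) {t : ℕ} (hS : ∀ y, y ∈ S ↔ t < ρ y)
    (L : Finset U) (hρ : ∀ x ∈ L, ρ x = t) (hcl : ∀ x ∈ L, ∀ w, H.Adj x w → ρ w = t → w ∈ L)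
    (hlight : ∀ x ∈ L, Light H ρ x) : ∃ Q', Good H ρ M f (S ∪ ↑L) Q' E r := by
  classical
  have hLS : ∀ x ∈ L, x ∉ S := fun x hx h1 => by
    have h2 := (hS x).1 h1
    rw [hρ x hx] at h2
    exact lt_irrefl _ h2
  let Q' : (U → Fin 4) → Prop := fun φ => Q φ ∧ ∀ ψ, Q ψ → Dp H ρ L φ ≤ Dp H ρ L ψ
  have hupd : ∀ φ, Q φ → ∀ x ∈ L, ∀ l, Q (Function.update φ x l) := by
    intro φ hφ x hx l
    refine h.cl φ _ hφ fun a ha b hb _ => ?_
    rw [Function.update_of_ne (by rintro rfl; exact hLS _ hx ha),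
      Function.update_of_ne (by rintro rfl; exact hLS _ hx hb)]
  have hmn : ∀ φ, Q' φ → ∀ x ∈ L, ∀ l, own H ρ φ x (φ x) ≤ own H ρ φ x l := by
    intro φ hφ x hx l
    have h1 := hφ.2 _ (hupd φ hφ.1 x hx l)
    have h2 := Dp_update (H := H) (ρ := ρ) L φ hρ hcl hx l
    omega
  have hone : ∀ φ, Q' φ → ∀ x ∈ L, own H ρ φ x (φ x) ≤ 1 := fun φ hφ x hx =>
    own_le_one (hlight x hx) (hmn φ hφ x hx)
  have hnoup : ∀ φ, Q' φ → ∀ x ∈ L, ∀ y ∈ S, H.Adj x y → φ y ≠ φ x := by
    intro φ hφ x hx y hy hxy h1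
    have h2 := cnt_pos (p := up H ρ x) (φ := φ) (l := φ x) (w := y)
      ⟨hxy, by rw [hρ x hx]; exact (hS y).1 hy⟩ h1
    have h3 := hone φ hφ x hx
    unfold own at h3
    omega
  have hDp : ∀ φ ψ, (∀ x ∈ S ∪ (L : Set U), ∀ y ∈ S ∪ (L : Set U), H.Adj x y →
      (φ x = φ y ↔ ψ x = ψ y)) → Dp H ρ L φ = Dp H ρ L ψ := by
    intro φ ψ h1
    unfold Dp
    refine sum_congr rfl fun x hx => ?_
    have h2 : cnt (up H ρ x) φ (φ x) = cnt (up H ρ x) ψ (ψ x) := by
      unfold cnt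
      congr 1
      ext w
      simp only [mem_filter, mem_univ, true_and]
      constructor
      · rintro ⟨h3, h4⟩
        exact ⟨h3, ((h1 x (Or.inr hx) w (Or.inl ((hS w).2 (by rw [← hρ x hx]; exact h3.2)))
          h3.1).1 h4.symm).symm⟩
      · rintro ⟨h3, h4⟩
        exact ⟨h3, ((h1 x (Or.inr hx) w (Or.inl ((hS w).2 (by rw [← hρ x hx]; exact h3.2)))
          h3.1).2 h4.symm).symm⟩
    have h5 : cnt (sm H ρ x) φ (φ x) = cnt (sm H ρ x) ψ (ψ x) := by
      unfold cnt
      congr 1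
      ext w
      simp only [mem_filter, mem_univ, true_and]
      constructor
      · rintro ⟨h3, h4⟩
        exact ⟨h3, ((h1 x (Or.inr hx) w (Or.inr (hcl x hx w h3.1 (by rw [h3.2, hρ x hx])))
          h3.1).1 h4.symm).symm⟩
      · rintro ⟨h3, h4⟩
        exact ⟨h3, ((h1 x (Or.inr hx) w (Or.inr (hcl x hx w h3.1 (by rw [h3.2, hρ x hx])))
          h3.1).2 h4.symm).symm⟩
    rw [h2, h5]
  refine ⟨Q', ⟨?_, ?_, ?_, ?_, ?_, ?_, ?_, h.cr, ?_⟩⟩
  · obtain ⟨φ0, h0⟩ := h.ne
    obtain ⟨φ, hφ, hmin⟩ := exists_min_image ((univ : Finset (U → Fin 4)).filter fun φ => Q φ)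
      (fun φ => Dp H ρ L φ) ⟨φ0, by simp [h0]⟩
    simp only [mem_filter, mem_univ, true_and] at hφ hmin
    exact ⟨φ, hφ, hmin⟩
  · intro φ ψ hφ h1
    refine ⟨h.cl φ ψ hφ.1 fun x hx y hy => h1 x (Or.inl hx) y (Or.inl hy), fun χ hχ => ?_⟩
    rw [← hDp φ ψ h1]
    exact hφ.2 χ hχ
  · rintro φ hφ x (hx | hx) hl l
    · exact h.mn φ hφ.1 x hx hl l
    · exact hmn φ hφ x hx l
  · rintro φ hφ x (hx | hx) hl l h1 h2
    · have h3 := h.ex φ hφ.1 x hx hl l h1 fun w hw => h2 w (Or.inl hw)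
      refine ⟨h3, fun χ hχ => ?_⟩
      have h4 : Dp H ρ L (Function.update φ x l) =
          Dp H ρ L φ := by
        unfold Dp
        refine sum_congr rfl fun z hz => ?_
        have hzx : z ≠ x := by
          rintro rfl
          exact hLS _ hz hx
        rw [Function.update_of_ne hzx]
        have h5 : cnt (sm H ρ z) (Function.update φ x l)
            (φ z) = cnt (sm H ρ z) φ (φ z) := by
          refine cnt_congr (fun w hw => ?_) _
          rw [Function.update_of_ne]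
          rintro rfl
          exact hLS _ (hcl z hz w hw.1 (by rw [hw.2, hρ z hz])) hx
        have h6 : cnt (up H ρ z) (Function.update φ x l)
            (φ z) = cnt (up H ρ z) φ (φ z) := by
          by_cases hzx' : H.Adj x z
          · have h7 : ρ z < ρ x := by rw [hρ z hz]; exact (hS x).1 hx
            obtain ⟨h8, h9⟩ := h2 z (Or.inr hz) hzx' h7
            unfold cnt
            congr 1
            ext w
            simp only [mem_filter, mem_univ, true_and]
            by_cases hwx : w = x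
            · subst hwx
              rw [Function.update_self]
              constructor
              · rintro ⟨_, h10⟩
                exact absurd h10.symm h9
              · rintro ⟨_, h10⟩
                exact absurd h10.symm h8
            · rw [Function.update_of_ne hwx]
          · refine cnt_congr (fun w hw => ?_) _
            rw [Function.update_of_ne]
            rintro rfl
            exact hzx' hw.1.symm
        rw [h5, h6]
      rw [h4]
      exact hφ.2 χ hχ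
    · have h3 := Dp_update (H := H) (ρ := ρ) L φ hρ hcl hx l
      refine ⟨hupd φ hφ.1 x hx l, fun χ hχ => ?_⟩
      have h5 := hφ.2 χ hχ
      omega
  · rintro φ hφ x (hx | hx) y (hy | hy) hxy h1
    · exact h.tm φ hφ.1 x hx y hy hxy h1
    · exact absurd h1 (hnoup φ hφ y hy x hx hxy.symm)
    · exact absurd h1.symm (hnoup φ hφ x hx y hy hxy)
    · exact Or.inl (by rw [hρ x hx, hρ y hy])
  · intro φ hφ x y hxy
    obtain ⟨h1, h2, h3⟩ := h.eS φ hφ.1 x y hxy
    exact ⟨Or.inl h1, Or.inl h2, h3⟩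
  · rintro φ hφ x (hx | hx) y hy z hz hxy hxz h1 h2
    · have hyS : y ∈ S := by
        rcases hy with hy | hy
        · exact hy
        · exact absurd h1.symm (hnoup φ hφ y hy x hx hxy.symm)
      have hzS : z ∈ S := by
        rcases hz with hz | hz
        · exact hz
        · exact absurd h2.symm (hnoup φ hφ z hz x hx hxz.symm)
      exact h.mt φ hφ.1 x hx y hyS z hzS hxy hxz h1 h2
    · have hyL : y ∈ L := by
        rcases hy with hy | hy
        · exact absurd h1 (hnoup φ hφ x hx y hy hxy)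
        · exact hy
      have hzL : z ∈ L := by
        rcases hz with hz | hz
        · exact absurd h2 (hnoup φ hφ x hx z hz hxz)
        · exact hz
      by_contra hne
      have h3 := cnt_two (p := sm H ρ x) (φ := φ) (l := φ x)
        ⟨hxy, by rw [hρ x hx, hρ y hyL]⟩ h1 ⟨hxz, by rw [hρ x hx, hρ z hzL]⟩ h2 hne
      have h4 := hone φ hφ x hx
      unfold own at h4
      omega
  · intro φ hφ
    obtain ⟨D, h1, h2⟩ := h.dt φ hφ.1
    exact ⟨D, h1, fun s hs => (h2 s hs).mono Set.subset_union_left⟩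

end good

end Pool.Agent.W986.Lay
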