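import Pool.Agent.W986.Lay2
import Pool.Agent.W986.Precise

/-!
# Layered projective-planar graphs: the final statements
-/

set_option autoImplicit false

open Finset

namespace Pool.Agent.W986

open Pool.Agent.DC76

section defs

variable {U : Type}

/-- The neighbours of `v` of higher rank. -/
def Up (H : SimpleGraph U) (ρ : U → ℕ) (v : U) : Set U := {w | H.Adj v w ∧ ρ v < ρ w}

/-- The neighbours of `v` of the same rank. -/
def Same (H : SimpleGraph U) (ρ : U → ℕ) (v : U) : Set U := {w | H.Adj v w ∧ ρ w = ρ v}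

end defs

theorem layered {U : Type} (H : SimpleGraph U) (h : ProjectivePlanar H) (ρ : U → ℕ)
    (hyp : ∀ v, 2 * (Up H ρ v).ncard + (Same H ρ v).ncard ≤ 7 ∨
      ((Up H ρ v).ncard = 4 ∧ Same H ρ v = ∅ ∧
        ∃ x, ∀ w ∈ Up H ρ v, w ≠ x →
          Same H ρ w = ∅ ∨ (H.neighborSet w).ncard + (Up H ρ w).ncard ≤ 7)) :
    ∃ c : U → Fin 4, Defective H 1 c := by
  classical
  obtain ⟨V, F, _, _, _, G, f, hf, hHG, hG, ⟨M, hL, _⟩, hχ⟩ := h
  have _ : Fintype U := Fintype.ofInjective f hf
  have hu : ∀ v, Lay.nu H ρ v = (Up H ρ v).ncard := by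
    intro v
    rw [Set.ncard_eq_toFinset_card']
    unfold Lay.nu
    congr 1
    ext w
    simp [Up, Lay.up]
  have hs : ∀ v, Lay.ns H ρ v = (Same H ρ v).ncard := by
    intro v
    rw [Set.ncard_eq_toFinset_card']
    unfold Lay.ns
    congr 1
    ext w
    simp [Same, Lay.sm]
  have hd : ∀ v, (H.neighborSet v).ncard = Lay.nu H ρ v + Lay.ns H ρ v + Lay.nl H ρ v := by
    intro v
    rw [Set.ncard_eq_toFinset_card']
    unfold Lay.nu Lay.ns Lay.nl
    rw [← card_union_of_disjoint, ← card_union_of_disjoint]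
    · congr 1
      ext w
      simp only [Set.mem_toFinset, SimpleGraph.mem_neighborSet, mem_union, mem_filter, mem_univ,
        true_and, Lay.up, Lay.sm, Lay.lo]
      constructor
      · intro h1
        rcases lt_trichotomy (ρ v) (ρ w) with h2 | h2 | h2
        · exact Or.inl (Or.inl ⟨h1, h2⟩)
        · exact Or.inl (Or.inr ⟨h1, h2.symm⟩)
        · exact Or.inr ⟨h1, h2⟩
      · rintro ((h1 | h1) | h1) <;> exact h1.1
    · rw [disjoint_left]
      intro w h1 h2
      simp only [mem_union, mem_filter, mem_univ, true_and, Lay.up, Lay.sm, Lay.lo] at h1 h2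
      rcases h1 with h1 | h1 <;> omega
    · rw [disjoint_left]
      intro w h1 h2
      simp only [mem_filter, mem_univ, true_and, Lay.up, Lay.sm] at h1 h2
      omega
  refine Lay.layers (H := H) (ρ := ρ) (M := M) (f := f) hf hHG (conn_univ hG) hL hχ.ge
    fun v => ?_
  rcases hyp v with h1 | ⟨h1, h2, x, hx⟩
  · left
    unfold Lay.Light
    rw [hu, hs]
    exact h1
  · right
    refine ⟨by rw [hu, h1], by rw [hs, h2, Set.ncard_empty], {x}, by simp, fun w hw hwx => ?_⟩
    rcases hx w hw (by simpa using hwx) with h3 | h3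
    · left
      rw [hs, h3, Set.ncard_empty]
    · right
      rw [hd w, ← hu w] at h3
      omega

theorem core {U : Type} (H : SimpleGraph U) (h : ProjectivePlanar H) (W : Set U)
    (hW : ∀ w ∈ W, (H.neighborSet w).ncard ≤ 7)
    (hd : ∀ X, W ⊂ X → ∃ v ∈ X \ W, (H.neighborSet v ∩ X).ncard ≤ 4) :
    ∃ c : U → Fin 4, Defective H 1 c := by
  classical
  have hfin : Finite U := by
    obtain ⟨V, F, _, _, _, G, f, hf, _⟩ := h
    exact Finite.of_injective f hf
  have _ : Fintype U := Fintype.ofFinite U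
  -- an elimination ranking
  have key : ∀ n (X : Set U), W ⊆ X → (X \ W).ncard = n → ∃ ρ : U → ℕ,
      (∀ w ∈ W, ρ w = n) ∧ (∀ v ∈ X \ W, ρ v < n) ∧
      (∀ v ∈ X \ W, ∀ w ∈ X \ W, ρ v = ρ w → v = w) ∧
      ∀ v ∈ X \ W, {w ∈ X | H.Adj v w ∧ ρ v < ρ w}.ncard ≤ 4 := by
    intro n
    induction n with
    | zero =>
      intro X hWX hX
      have h1 : X \ W = ∅ := (Set.ncard_eq_zero (Set.toFinite _)).1 hX
      refine ⟨fun _ => 0, fun _ _ => rfl, ?_, ?_, ?_⟩ <;> intro v hv <;>
        exact absurd (h1 ▸ hv) (Set.notMem_empty v)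
    | succ n ih =>
      intro X hWX hX
      have h1 : W ⊂ X := by
        refine ⟨hWX, fun h2 => ?_⟩
        rw [Set.sdiff_eq_empty.2 h2, Set.ncard_empty] at hX
        omega
      obtain ⟨v, hv, hv4⟩ := hd X h1
      have h2 : (X \ {v}) \ W = (X \ W) \ {v} := by
        ext y
        simp only [Set.mem_sdiff, Set.mem_singleton_iff]
        tauto
      obtain ⟨ρ, r1, r2, r3, r4⟩ := ih (X \ {v})
        (fun y hy => ⟨hWX hy, fun h3 => hv.2 (by rwa [← Set.mem_singleton_iff.1 h3])⟩)
        (by rw [h2, Set.ncard_sdiff_singleton_of_mem hv, hX]; rfl)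
      have hvne : ∀ y ∈ X \ W, y ≠ v → y ∈ (X \ {v}) \ W := fun y hy h3 =>
        ⟨⟨hy.1, h3⟩, hy.2⟩
      refine ⟨fun y => if y = v then 0 else ρ y + 1, ?_, ?_, ?_, ?_⟩
      · intro w hw
        have h3 : w ≠ v := by rintro rfl; exact hv.2 hw
        simp [h3, r1 w hw]
      · intro y hy
        by_cases h3 : y = v
        · simp [h3]
        · have := r2 y (hvne y hy h3)
          simp only [h3, if_false]
          omega
      · intro y hy z hz h3
        by_cases h4 : y = v <;> by_cases h5 : z = v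
        · rw [h4, h5]
        · simp [h4, h5] at h3
        · simp [h4, h5] at h3
        · simp only [h4, h5, if_false] at h3
          exact r3 y (hvne y hy h4) z (hvne z hz h5) (by omega)
      · intro y hy
        by_cases h4 : y = v
        · subst h4
          refine (Set.ncard_le_ncard (fun w hw => ?_) (Set.toFinite _)).trans hv4
          exact ⟨hw.2.1, hw.1⟩
        · refine (Set.ncard_le_ncard (fun w hw => ?_) (Set.toFinite _)).trans
            (r4 y (hvne y hy h4))
          obtain ⟨w1, w2, w3⟩ := hw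
          have h5 : w ≠ v := by
            rintro rfl
            simp [h4] at w3
          simp only [h4, h5, if_false] at w3
          exact ⟨⟨w1, h5⟩, w2, by omega⟩
  obtain ⟨ρ, r1, r2, r3, r4⟩ := key _ Set.univ (Set.subset_univ _) rfl
  have hup : ∀ v ∉ W, (Up H ρ v).ncard ≤ 4 := by
    intro v hv
    refine (Set.ncard_le_ncard (fun w hw => ?_) (Set.toFinite _)).trans (r4 v ⟨trivial, hv⟩)
    exact ⟨trivial, hw⟩
  have hsm : ∀ v ∉ W, Same H ρ v = ∅ := by
    intro v hv
    ext w
    simp only [Same, Set.mem_ofPred_eq, Set.mem_empty_iff_false, iff_false, not_and]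
    intro hvw h1
    by_cases hw : w ∈ W
    · have := r2 v ⟨trivial, hv⟩
      have := r1 w hw
      omega
    · exact hvw.ne' (r3 w ⟨trivial, hw⟩ v ⟨trivial, hv⟩ h1)
  have htop : ∀ w ∈ W, Up H ρ w = ∅ := by
    intro w hw
    ext y
    simp only [Up, Set.mem_ofPred_eq, Set.mem_empty_iff_false, iff_false, not_and, not_lt]
    intro _
    rw [r1 w hw]
    by_cases hy : y ∈ W
    · rw [r1 y hy]
    · exact (r2 y ⟨trivial, hy⟩).le
  refine layered H h ρ fun v => ?_
  by_cases hv : v ∈ W
  · left
    rw [htop v hv, Set.ncard_empty]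
    have h1 : (Same H ρ v).ncard ≤ (H.neighborSet v).ncard :=
      Set.ncard_le_ncard (fun w hw => hw.1) (Set.toFinite _)
    have := hW v hv
    omega
  · rw [hsm v hv, Set.ncard_empty]
    have h4 := hup v hv
    by_cases h5 : (Up H ρ v).ncard ≤ 3
    · left
      omega
    · right
      refine ⟨by omega, rfl, v, fun w _ _ => ?_⟩
      by_cases hw : w ∈ W
      · right
        rw [htop w hw, Set.ncard_empty]
        exact hW w hw
      · left
        exact hsm w hw

end Pool.Agent.W986
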