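import Pool.Agent.W986.Levels
import Pool.Agent.W986.Precise

/-!
# Critical graphs and the sum over the vertices
-/

set_option autoImplicit false

open Finset

namespace Pool.Agent.W986

open Pool.Agent.DC76

/-- `G` has no `(k, 1)`-colouring, but `G - v` has one for every vertex `v`. -/
def Critical (k : ℕ) {V : Type} (G : SimpleGraph V) : Prop :=
  (∀ c : V → Fin k, ¬ Defective G 1 c) ∧ ∀ v, ∃ φ : V → Fin k, State G v φ

/-- A class which is closed under induced subgraphs and contains a finite graph without a
`(k, 1)`-colouring contains a critical graph. -/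
theorem exists_critical {k : ℕ} (hk : 0 < k) (C : ∀ {U : Type}, SimpleGraph U → Prop)
    (hC : ∀ {U W : Type} (H : SimpleGraph U) (f : W → U), Function.Injective f → C H →
      C (H.comap f))
    {U : Type} [Finite U] (H : SimpleGraph U) (hH : C H)
    (hno : ∀ c : U → Fin k, ¬ Defective H 1 c) :
    ∃ (W : Type) (_ : Finite W) (K : SimpleGraph W), C K ∧ Critical k K := by
  classical
  have key : ∀ n, ∀ (U : Type) (_ : Finite U) (H : SimpleGraph U), Nat.card U = n → C H →
      (∀ c : U → Fin k, ¬ Defective H 1 c) →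
      ∃ (W : Type) (_ : Finite W) (K : SimpleGraph W), C K ∧ Critical k K := by
    intro n
    induction n using Nat.strong_induction_on with
    | _ n ih =>
      intro U _ H hn hH hno
      by_cases hcrit : ∀ v, ∃ φ : U → Fin k, State H v φ
      · exact ⟨U, inferInstance, H, hH, hno, hcrit⟩
      · push Not at hcrit
        obtain ⟨v, hv⟩ := hcrit
        have hcard : Nat.card {x : U // x ≠ v} < n := by
          rw [← hn]
          haveI : Fintype U := Fintype.ofFinite U
          rw [Nat.card_eq_fintype_card, Nat.card_eq_fintype_card]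
          exact Fintype.card_subtype_lt (x := v) (by simp)
        refine ih _ hcard {x : U // x ≠ v} inferInstance (H.comap Subtype.val) rfl
          (hC H _ Subtype.val_injective hH) ?_
        intro c hc
        apply hv (fun x => if h : x ≠ v then c ⟨x, h⟩ else ⟨0, hk⟩)
        intro u hu
        refine le_trans ?_ (hc ⟨u, hu⟩)
        rw [← Set.ncard_image_of_injective _ (Subtype.val_injective (p := fun x => x ≠ v))]
        refine Set.ncard_le_ncard ?_ (Set.toFinite _)
        rintro w ⟨hw, hadj, hcol⟩
        beta_reduce at hcol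
        rw [dif_pos hw, dif_pos hu] at hcol
        exact ⟨⟨w, hw⟩, ⟨hadj, hcol⟩, rfl⟩
  exact key _ U inferInstance H rfl hH hno

/-- The degree of `v`. -/
noncomputable def dg {V : Type} (G : SimpleGraph V) (v : V) : ℕ := {u | G.Adj v u}.ncard

/-- The number of neighbours of `v` which are lower than `v`. -/
noncomputable def outd (k : ℕ) {V : Type} (G : SimpleGraph V) (v : V) : ℕ :=
  {u | G.Adj v u ∧ lev k G u < lev k G v}.ncard

/-- The number of neighbours of `v` which are higher than `v`. -/
noncomputable def ind (k : ℕ) {V : Type} (G : SimpleGraph V) (v : V) : ℕ :=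
  {u | G.Adj v u ∧ lev k G v < lev k G u}.ncard

section count

variable {V : Type} [Fintype V] (G : SimpleGraph V)

theorem ncard_eq_sum (P : V → Prop) [DecidablePred P] :
    {u | P u}.ncard = ∑ u, if P u then 1 else 0 := by
  rw [Set.ncard_eq_toFinset_card', Set.toFinset_setOf, card_filter]

theorem sum_out_eq (k : ℕ) : ∑ v, outd k G v = ∑ v, ind k G v := by
  classical
  unfold outd ind
  simp only [ncard_eq_sum]
  rw [sum_comm]
  refine sum_congr rfl fun u _ => sum_congr rfl fun v _ => ?_
  simp only [G.adj_comm u v]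

theorem sum_dg : ∑ v, dg G v = 2 * G.edgeSet.ncard := by
  classical
  have h1 : ∀ v, dg G v = G.degree v := by
    intro v
    unfold dg
    rw [← SimpleGraph.card_neighborFinset_eq_degree, ← Set.ncard_coe_finset]
    congr 1
    ext u
    simp
  simp only [h1]
  rw [SimpleGraph.sum_degrees_eq_twice_card_edges, ← SimpleGraph.coe_edgeFinset,
    Set.ncard_coe_finset]

theorem ein_univ : ein G univ = G.edgeSet.ncard := by
  unfold ein
  congr 1
  ext e
  simp

/-- If every vertex satisfies `4 d + out - in ≥ 24 - δ` with `∑ δ ≤ 23`, then `G` has at least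
`3n - 2` edges. -/
theorem count {k : ℕ} (δ : V → ℤ)
    (h : ∀ v, (24 : ℤ) ≤ 4 * dg G v + outd k G v - ind k G v + δ v) :
    24 * (Fintype.card V : ℤ) ≤ 8 * G.edgeSet.ncard + ∑ v, δ v := by
  have h1 : ∑ _v : V, (24 : ℤ) ≤ ∑ v, (4 * (dg G v : ℤ) + outd k G v - ind k G v + δ v) :=
    sum_le_sum fun v _ => h v
  rw [sum_const, card_univ, nsmul_eq_mul, sum_add_distrib, sum_sub_distrib, sum_add_distrib,
    ← mul_sum] at h1
  have h2 : (∑ v, (outd k G v : ℤ)) = ∑ v, (ind k G v : ℤ) := by
    exact_mod_cast sum_out_eq G k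
  have h3 : (∑ v, (dg G v : ℤ)) = 2 * (G.edgeSet.ncard : ℤ) := by
    exact_mod_cast sum_dg G
  rw [h2, h3] at h1
  linarith

end count

theorem Embeds.comap {o : Prop} {χ : ℤ} {U W : Type} (H : SimpleGraph U) (f : W → U)
    (hf : Function.Injective f) (h : Embeds o χ H) : Embeds o χ (H.comap f) := by
  obtain ⟨V, F, i1, i2, i3, G, g, hg, hHG, h⟩ := h
  exact ⟨V, F, i1, i2, i3, G, g ∘ f, hg.comp hf, fun x y hxy => hHG _ _ hxy, h⟩

/-- The scheme of the proof for the projective plane: it suffices to bound the total deficit of a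
critical graph by `23`. -/
theorem projective_of_levels
    (hmain : ∀ (U : Type) (_ : Fintype U) (H : SimpleGraph U), ProjectivePlanar H →
      Critical 4 H → ∃ δ : U → ℤ,
        (∀ v, (24 : ℤ) ≤ 4 * dg H v + outd 4 H v - ind 4 H v + δ v) ∧ ∑ v, δ v ≤ 23)
    {U : Type} (H : SimpleGraph U) (hH : ProjectivePlanar H) :
    ∃ c : U → Fin 4, Defective H 1 c := by
  classical
  by_contra hcon
  push Not at hcon
  haveI : Finite U := by
    obtain ⟨V, F, _, _, _, G, f, hf, _⟩ := hH
    exact Finite.of_injective f hf
  obtain ⟨W, _, K, hK, hcrit⟩ := exists_critical (by norm_num) @ProjectivePlanar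
    (fun H f hf h => Embeds.comap H f hf h) H hH hcon
  haveI : Fintype W := Fintype.ofFinite W
  obtain ⟨δ, h1, h2⟩ := hmain W inferInstance K hK hcrit
  have h3 := count K δ h1
  have hne : (univ : Finset W).Nonempty := by
    by_contra hemp
    rw [not_nonempty_iff_eq_empty, univ_eq_empty_iff] at hemp
    exact hcrit.1 (fun x => hemp.elim x) (fun x => hemp.elim x)
  have h4 := ein_le_three_sub K 1 le_rfl hK.onSurface univ hne
  rw [ein_univ, card_univ] at h4
  omega

end Pool.Agent.W986
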