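import Pool.Agent.DC76.Defs

/-!
# Colourings of `G - v` with the least number of monochromatic edges
-/

set_option autoImplicit false

open Finset

namespace Pool.Agent.W986

open Pool.Agent.DC76

variable {V : Type} {k : ℕ}

/-- `φ` is a colouring of `G - v` in which every vertex has at most one neighbour of its own colour
(the colour of `v` is irrelevant). -/
def State (G : SimpleGraph V) (v : V) (φ : V → Fin k) : Prop :=
  ∀ u, u ≠ v → {w | w ≠ v ∧ G.Adj u w ∧ φ w = φ u}.ncard ≤ 1

/-- The vertices of `G - v` with a neighbour of their own colour in `G - v`. -/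
def sat (G : SimpleGraph V) (v : V) (φ : V → Fin k) : Set V :=
  {u | u ≠ v ∧ ∃ w, w ≠ v ∧ G.Adj u w ∧ φ w = φ u}

/-- The neighbours of `v` with the colour `i`. -/
def nc (G : SimpleGraph V) (v : V) (φ : V → Fin k) (i : Fin k) : Set V :=
  {w | G.Adj v w ∧ φ w = i}

/-- The least number of saturated vertices of a colouring of `G - v` (twice the least number of
monochromatic edges). -/
noncomputable def lev (k : ℕ) (G : SimpleGraph V) (v : V) : ℕ :=
  sInf {m | ∃ φ : V → Fin k, State G v φ ∧ (sat G v φ).ncard = m}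

/-- An optimal colouring of `G - v`. -/
def Opt (G : SimpleGraph V) (v : V) (φ : V → Fin k) : Prop :=
  State G v φ ∧ (sat G v φ).ncard = lev k G v

theorem lev_le {G : SimpleGraph V} {v : V} {φ : V → Fin k} (h : State G v φ) :
    lev k G v ≤ (sat G v φ).ncard :=
  Nat.sInf_le ⟨φ, h, rfl⟩

theorem exists_opt {G : SimpleGraph V} {v : V} (h : ∃ φ : V → Fin k, State G v φ) :
    ∃ φ : V → Fin k, Opt G v φ := by
  obtain ⟨φ, hφ⟩ := h
  have h1 : {m | ∃ φ : V → Fin k, State G v φ ∧ (sat G v φ).ncard = m}.Nonempty :=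
    ⟨_, φ, hφ, rfl⟩
  obtain ⟨ψ, h2, h3⟩ := Nat.sInf_mem h1
  exact ⟨ψ, h2, h3⟩

/-- Two neighbours of the same colour. -/
theorem State.two [Finite V] {G : SimpleGraph V} {v : V} {φ : V → Fin k} (h : State G v φ)
    {u x y : V} (hu : u ≠ v) (hx : x ≠ v) (hy : y ≠ v) (hux : G.Adj u x) (huy : G.Adj u y)
    (hcx : φ x = φ u) (hcy : φ y = φ u) : x = y := by
  by_contra hxy
  have h1 := h u hu
  have h2 : ({x, y} : Set V) ⊆ {w | w ≠ v ∧ G.Adj u w ∧ φ w = φ u} := by
    rintro w (rfl | rfl)
    · exact ⟨hx, hux, hcx⟩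
    · exact ⟨hy, huy, hcy⟩
  have h3 := Set.ncard_le_ncard h2 (Set.toFinite _)
  rw [Set.ncard_pair hxy] at h3
  omega

theorem ncard_le_one_of {S : Set V} (h : ∀ x ∈ S, ∀ y ∈ S, x = y) : S.ncard ≤ 1 := by
  rcases S.eq_empty_or_nonempty with h1 | ⟨a, ha⟩
  · rw [h1, Set.ncard_empty]
    omega
  · have h2 : S ⊆ {a} := fun x hx => Set.mem_singleton_iff.2 (h x hx a ha)
    have h3 := Set.ncard_le_ncard h2 (Set.finite_singleton a)
    rw [Set.ncard_singleton] at h3
    exact h3

/-- In a graph without a `(k, 1)`-colouring every colour class at `v` is non-empty. -/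
theorem nc_nonempty [Finite V] {G : SimpleGraph V}
    (hG : ∀ c : V → Fin k, ¬ Defective G 1 c) {v : V} {φ : V → Fin k} (h : State G v φ)
    (i : Fin k) : (nc G v φ i).Nonempty := by
  classical
  by_contra hcon
  have hno : ∀ w, G.Adj v w → φ w ≠ i := fun w hw hc => hcon ⟨w, hw, hc⟩
  apply hG (Function.update φ v i)
  intro u
  apply ncard_le_one_of
  by_cases hu : u = v
  · subst hu
    rintro x ⟨hx, hcx⟩
    rw [Function.update_self, Function.update_of_ne hx.ne'] at hcx
    exact absurd hcx (hno x hx)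
  · rintro x ⟨hx, hcx⟩ y ⟨hy, hcy⟩
    rw [Function.update_of_ne hu] at hcx hcy
    have hxv : x ≠ v := by
      rintro rfl
      rw [Function.update_self] at hcx
      exact hno u hx.symm hcx.symm
    have hyv : y ≠ v := by
      rintro rfl
      rw [Function.update_self] at hcy
      exact hno u hy.symm hcy.symm
    rw [Function.update_of_ne hxv] at hcx
    rw [Function.update_of_ne hyv] at hcy
    exact h.two hu hxv hyv hx hy hcx hcy

/-- In a graph without a `(k, 1)`-colouring the only neighbour of `v` of some colour is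
saturated. -/
theorem single_sat [Finite V] {G : SimpleGraph V}
    (hG : ∀ c : V → Fin k, ¬ Defective G 1 c) {v : V} {φ : V → Fin k} (h : State G v φ)
    {i : Fin k} {u : V} (hu : nc G v φ i = {u}) : u ∈ sat G v φ := by
  classical
  have hu1 : G.Adj v u ∧ φ u = i := by
    have : u ∈ nc G v φ i := by rw [hu]; rfl
    exact this
  have hu2 : ∀ w, G.Adj v w → φ w = i → w = u := by
    intro w h1 h2
    have : w ∈ nc G v φ i := ⟨h1, h2⟩
    rw [hu] at this
    exact this
  by_contra hcon
  have hno : ∀ w, w ≠ v → G.Adj u w → φ w ≠ φ u := fun w h1 h2 h3 =>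
    hcon ⟨hu1.1.ne', w, h1, h2, h3⟩
  apply hG (Function.update φ v i)
  intro x
  apply ncard_le_one_of
  by_cases hx : x = v
  · subst hx
    rintro y ⟨hy, hcy⟩ z ⟨hz, hcz⟩
    rw [Function.update_self, Function.update_of_ne hy.ne'] at hcy
    rw [Function.update_self, Function.update_of_ne hz.ne'] at hcz
    rw [hu2 y hy hcy, hu2 z hz hcz]
  · by_cases hxu : x = u
    · subst hxu
      rintro y ⟨hy, hcy⟩ z ⟨hz, hcz⟩
      rw [Function.update_of_ne hx] at hcy hcz
      have h1 : y = v := by
        by_contra h1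
        rw [Function.update_of_ne h1] at hcy
        exact hno y h1 hy hcy
      have h2 : z = v := by
        by_contra h2
        rw [Function.update_of_ne h2] at hcz
        exact hno z h2 hz hcz
      rw [h1, h2]
    · rintro y ⟨hy, hcy⟩ z ⟨hz, hcz⟩
      rw [Function.update_of_ne hx] at hcy hcz
      have h1 : y ≠ v := by
        rintro rfl
        rw [Function.update_self] at hcy
        exact hxu (hu2 x hy.symm hcy.symm)
      have h2 : z ≠ v := by
        rintro rfl
        rw [Function.update_self] at hcz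
        exact hxu (hu2 x hz.symm hcz.symm)
      rw [Function.update_of_ne h1] at hcy
      rw [Function.update_of_ne h2] at hcz
      exact h.two hx h1 h2 hy hz hcy hcz

/-- The hole moves from `v` to the only neighbour `u` of `v` of some colour, and the number of
saturated vertices goes down by two. -/
theorem hole_move [Finite V] {G : SimpleGraph V} {v : V} {φ : V → Fin k} (h : State G v φ)
    {i : Fin k} {u : V} (hu : nc G v φ i = {u}) (hs : u ∈ sat G v φ) :
    ∃ ψ : V → Fin k, State G u ψ ∧ (sat G u ψ).ncard + 2 = (sat G v φ).ncard ∧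
      (∀ x, x ≠ v → ψ x = φ x) ∧ ψ v = i := by
  classical
  have hu1 : G.Adj v u ∧ φ u = i := by
    have : u ∈ nc G v φ i := by rw [hu]; rfl
    exact this
  have hu2 : ∀ w, G.Adj v w → φ w = i → w = u := by
    intro w h1 h2
    have : w ∈ nc G v φ i := ⟨h1, h2⟩
    rw [hu] at this
    exact this
  obtain ⟨huv, u', hu'v, huu', hcu'⟩ := hs
  -- the monochromatic edges of the new colouring
  have key : ∀ x y, x ≠ u → y ≠ u → G.Adj x y →
      Function.update φ v i x = Function.update φ v i y → x ≠ v ∧ y ≠ v ∧ φ x = φ y := by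
    intro x y hx hy hxy hc
    by_cases hxv : x = v
    · subst hxv
      rw [Function.update_self, Function.update_of_ne hxy.ne'] at hc
      exact absurd (hu2 y hxy hc.symm) hy
    · by_cases hyv : y = v
      · subst hyv
        rw [Function.update_self, Function.update_of_ne hxy.ne] at hc
        exact absurd (hu2 x hxy.symm hc) hx
      · rw [Function.update_of_ne hxv, Function.update_of_ne hyv] at hc
        exact ⟨hxv, hyv, hc⟩
  refine ⟨Function.update φ v i, ?_, ?_, fun x hx => Function.update_of_ne hx _ _,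
    Function.update_self _ _ _⟩
  · intro x hx
    apply ncard_le_one_of
    rintro y ⟨hy, hxy, hcy⟩ z ⟨hz, hxz, hcz⟩
    obtain ⟨h1, h2, h3⟩ := key x y hx hy hxy hcy.symm
    obtain ⟨_, h4, h5⟩ := key x z hx hz hxz hcz.symm
    exact h.two h1 h2 h4 hxy hxz h3.symm h5.symm
  · have huu'ne : u ≠ u' := huu'.ne
    have h1 : sat G v φ = insert u (insert u' (sat G u (Function.update φ v i))) := by
      ext x
      simp only [Set.mem_insert_iff]
      constructor
      · rintro ⟨hx, y, hy, hxy, hc⟩
        by_cases h2 : x = u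
        · exact Or.inl h2
        · right
          by_cases h3 : y = u
          · left
            subst h3
            exact h.two hy hx hu'v hxy.symm huu' hc.symm hcu'
          · right
            exact ⟨h2, y, h3, hxy, by rw [Function.update_of_ne hy, Function.update_of_ne hx, hc]⟩
      · rintro (rfl | rfl | ⟨hx, y, hy, hxy, hc⟩)
        · exact ⟨huv, u', hu'v, huu', hcu'⟩
        · exact ⟨hu'v, u, huv, huu'.symm, hcu'.symm⟩
        · obtain ⟨h2, h3, h4⟩ := key x y hx hy hxy hc.symm
          exact ⟨h2, y, h3, hxy, h4.symm⟩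
    have h2 : u ∉ insert u' (sat G u (Function.update φ v i)) := by
      rintro (h3 | ⟨h3, _⟩)
      · exact huu'ne h3
      · exact h3 rfl
    have h3 : u' ∉ sat G u (Function.update φ v i) := by
      rintro ⟨_, y, hy, hxy, hc⟩
      obtain ⟨h4, h5, h6⟩ := key u' y huu'ne.symm hy hxy hc.symm
      have h7 := h.two hu'v h5 huv hxy huu'.symm h6.symm hcu'.symm
      exact hy h7
    rw [h1, Set.ncard_insert_of_notMem h2 (Set.toFinite _),
      Set.ncard_insert_of_notMem h3 (Set.toFinite _)]

/-- The only neighbour of `v` of some colour in an optimal colouring is lower than `v`. -/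
theorem lev_lt [Finite V] {G : SimpleGraph V} (hG : ∀ c : V → Fin k, ¬ Defective G 1 c) {v : V}
    {φ : V → Fin k} (h : Opt G v φ) {i : Fin k} {u : V} (hu : nc G v φ i = {u}) :
    lev k G u < lev k G v := by
  obtain ⟨ψ, h1, h2, _⟩ := hole_move h.1 hu (single_sat hG h.1 hu)
  have h3 := lev_le h1
  have h4 := h.2
  omega

/-! ### Kempe swaps -/

/-- `X` is a union of components of the graph induced by the colours `i` and `j` on `G - v`. -/
def KClosed (G : SimpleGraph V) (v : V) (φ : V → Fin k) (i j : Fin k) (X : Set V) : Prop :=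
  (∀ x ∈ X, x ≠ v ∧ (φ x = i ∨ φ x = j)) ∧
    ∀ x ∈ X, ∀ y, y ≠ v → G.Adj x y → (φ y = i ∨ φ y = j) → y ∈ X

open Classical in
/-- The colours `i` and `j` exchanged on `X`. -/
noncomputable def kswap (φ : V → Fin k) (i j : Fin k) (X : Set V) (x : V) : Fin k :=
  if x ∈ X then Equiv.swap i j (φ x) else φ x

theorem kswap_mem {φ : V → Fin k} {i j : Fin k} {X : Set V} {x : V} (h : x ∈ X) :
    kswap φ i j X x = Equiv.swap i j (φ x) := by
  unfold kswap
  rw [if_pos h]

theorem kswap_notMem {φ : V → Fin k} {i j : Fin k} {X : Set V} {x : V} (h : x ∉ X) :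
    kswap φ i j X x = φ x := by
  unfold kswap
  rw [if_neg h]

/-- A swap keeps the monochromatic edges. -/
theorem KClosed.mono {G : SimpleGraph V} {v : V} {φ : V → Fin k} {i j : Fin k} {X : Set V}
    (hX : KClosed G v φ i j X) {x y : V} (hx : x ≠ v) (hy : y ≠ v) (hxy : G.Adj x y) :
    kswap φ i j X y = kswap φ i j X x ↔ φ y = φ x := by
  have aux : ∀ x y, x ≠ v → y ≠ v → G.Adj x y → x ∈ X → y ∉ X →
      (kswap φ i j X y = kswap φ i j X x ↔ φ y = φ x) := by
    intro x y hx hy hxy h1 h2
    rw [kswap_mem h1, kswap_notMem h2]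
    have h3 : φ y ≠ i ∧ φ y ≠ j := by
      constructor
      · intro h4
        exact h2 (hX.2 x h1 y hy hxy (Or.inl h4))
      · intro h4
        exact h2 (hX.2 x h1 y hy hxy (Or.inr h4))
    have h4 := (hX.1 x h1).2
    constructor
    · intro h5
      rcases h4 with h4 | h4
      · rw [h4, Equiv.swap_apply_left] at h5
        exact absurd h5 h3.2
      · rw [h4, Equiv.swap_apply_right] at h5
        exact absurd h5 h3.1
    · intro h5
      rcases h4 with h4 | h4
      · exact absurd (h5.trans h4) h3.1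
      · exact absurd (h5.trans h4) h3.2
  by_cases h1 : x ∈ X
  · by_cases h2 : y ∈ X
    · rw [kswap_mem h1, kswap_mem h2]
      exact (Equiv.swap i j).injective.eq_iff
    · exact aux x y hx hy hxy h1 h2
  · by_cases h2 : y ∈ X
    · have h3 := aux y x hy hx hxy.symm h2 h1
      constructor
      · intro h4
        exact (h3.1 h4.symm).symm
      · intro h4
        exact (h3.2 h4.symm).symm
    · rw [kswap_notMem h1, kswap_notMem h2]

theorem KClosed.state {G : SimpleGraph V} {v : V} {φ : V → Fin k} {i j : Fin k} {X : Set V}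
    (hX : KClosed G v φ i j X) (h : State G v φ) : State G v (kswap φ i j X) := by
  intro u hu
  refine le_trans (le_of_eq ?_) (h u hu)
  congr 1
  ext w
  constructor
  · rintro ⟨h1, h2, h3⟩
    exact ⟨h1, h2, (hX.mono hu h1 h2).1 h3⟩
  · rintro ⟨h1, h2, h3⟩
    exact ⟨h1, h2, (hX.mono hu h1 h2).2 h3⟩

theorem KClosed.sat_eq {G : SimpleGraph V} {v : V} {φ : V → Fin k} {i j : Fin k} {X : Set V}
    (hX : KClosed G v φ i j X) : sat G v (kswap φ i j X) = sat G v φ := by
  ext u
  constructor
  · rintro ⟨hu, w, h1, h2, h3⟩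
    exact ⟨hu, w, h1, h2, (hX.mono hu h1 h2).1 h3⟩
  · rintro ⟨hu, w, h1, h2, h3⟩
    exact ⟨hu, w, h1, h2, (hX.mono hu h1 h2).2 h3⟩

theorem KClosed.opt {G : SimpleGraph V} {v : V} {φ : V → Fin k} {i j : Fin k} {X : Set V}
    (hX : KClosed G v φ i j X) (h : Opt G v φ) : Opt G v (kswap φ i j X) :=
  ⟨hX.state h.1, by rw [hX.sat_eq, h.2]⟩

/-- The class `i` at `v` after the swap of `i` and `j` on `X`. -/
theorem nc_swap_left {G : SimpleGraph V} {v : V} {φ : V → Fin k} {i j : Fin k} {X : Set V}
    (hX : KClosed G v φ i j X) :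
    nc G v (kswap φ i j X) i = (nc G v φ i \ X) ∪ (nc G v φ j ∩ X) := by
  ext w
  by_cases hw : w ∈ X
  · constructor
    · rintro ⟨h1, h2⟩
      rw [kswap_mem hw, Equiv.swap_apply_eq_iff, Equiv.swap_apply_left] at h2
      exact Or.inr ⟨⟨h1, h2⟩, hw⟩
    · rintro (⟨_, h1⟩ | ⟨⟨h1, h2⟩, _⟩)
      · exact absurd hw h1
      · refine ⟨h1, ?_⟩
        rw [kswap_mem hw, h2, Equiv.swap_apply_right]
  · constructor
    · rintro ⟨h1, h2⟩
      rw [kswap_notMem hw] at h2
      exact Or.inl ⟨⟨h1, h2⟩, hw⟩
    · rintro (⟨⟨h1, h2⟩, _⟩ | ⟨_, h1⟩)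
      · refine ⟨h1, ?_⟩
        rw [kswap_notMem hw, h2]
      · exact absurd h1 hw

theorem kswap_comm (φ : V → Fin k) (i j : Fin k) (X : Set V) : kswap φ i j X = kswap φ j i X := by
  funext x
  unfold kswap
  rw [Equiv.swap_comm]

theorem KClosed.comm {G : SimpleGraph V} {v : V} {φ : V → Fin k} {i j : Fin k} {X : Set V}
    (hX : KClosed G v φ i j X) : KClosed G v φ j i X :=
  ⟨fun x hx => ⟨(hX.1 x hx).1, (hX.1 x hx).2.symm⟩,
    fun x hx y hy hxy h => hX.2 x hx y hy hxy h.symm⟩

theorem nc_swap_right {G : SimpleGraph V} {v : V} {φ : V → Fin k} {i j : Fin k} {X : Set V}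
    (hX : KClosed G v φ i j X) :
    nc G v (kswap φ i j X) j = (nc G v φ j \ X) ∪ (nc G v φ i ∩ X) := by
  rw [kswap_comm]
  exact nc_swap_left hX.comm

/-- The other classes do not change. -/
theorem nc_swap_other {G : SimpleGraph V} {v : V} {φ : V → Fin k} {i j : Fin k} {X : Set V}
    (hX : KClosed G v φ i j X) {l : Fin k} (hi : l ≠ i) (hj : l ≠ j) :
    nc G v (kswap φ i j X) l = nc G v φ l := by
  ext w
  by_cases hw : w ∈ X
  · have h3 := (hX.1 w hw).2
    constructor
    · rintro ⟨h1, h2⟩
      rw [kswap_mem hw] at h2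
      rcases h3 with h3 | h3
      · rw [h3, Equiv.swap_apply_left] at h2
        exact absurd h2.symm hj
      · rw [h3, Equiv.swap_apply_right] at h2
        exact absurd h2.symm hi
    · rintro ⟨h1, h2⟩
      rcases h3 with h3 | h3
      · exact absurd (h2.symm.trans h3) hi
      · exact absurd (h2.symm.trans h3) hj
  · constructor
    · rintro ⟨h1, h2⟩
      rw [kswap_notMem hw] at h2
      exact ⟨h1, h2⟩
    · rintro ⟨h1, h2⟩
      exact ⟨h1, by rw [kswap_notMem hw, h2]⟩

/-- The component of `x` in the graph induced by the colours `i` and `j` on `G - v`. -/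
def kcomp (G : SimpleGraph V) (v : V) (φ : V → Fin k) (i j : Fin k) (x : V) : Set V :=
  {y | Relation.ReflTransGen (fun a b => (b ≠ v ∧ (φ b = i ∨ φ b = j)) ∧ G.Adj a b) x y}

theorem mem_kcomp_self {G : SimpleGraph V} {v : V} {φ : V → Fin k} {i j : Fin k} {x : V} :
    x ∈ kcomp G v φ i j x := Relation.ReflTransGen.refl

theorem kcomp_closed {G : SimpleGraph V} {v : V} {φ : V → Fin k} {i j : Fin k} {x : V}
    (hx : x ≠ v) (hc : φ x = i ∨ φ x = j) : KClosed G v φ i j (kcomp G v φ i j x) := by
  refine ⟨?_, ?_⟩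
  · intro y hy
    induction hy with
    | refl => exact ⟨hx, hc⟩
    | tail _ h _ => exact h.1
  · intro y hy z hz hyz hcz
    exact Relation.ReflTransGen.tail hy ⟨⟨hz, hcz⟩, hyz⟩

theorem kcomp_conn {G : SimpleGraph V} {v : V} {φ : V → Fin k} {i j : Fin k} {x : V}
    (hx : x ≠ v) (hc : φ x = i ∨ φ x = j) : Conn G (kcomp G v φ i j x) := by
  have hcl := kcomp_closed (G := G) hx hc
  have h1 : ∀ y ∈ kcomp G v φ i j x,
      Relation.ReflTransGen (fun a b => b ∈ kcomp G v φ i j x ∧ G.Adj a b) x y := by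
    intro y hy
    induction hy with
    | refl => exact Relation.ReflTransGen.refl
    | tail h3 h4 ih => exact ih.tail ⟨Relation.ReflTransGen.tail h3 h4, h4.2⟩
  have h2 : ∀ y ∈ kcomp G v φ i j x,
      Relation.ReflTransGen (fun a b => b ∈ kcomp G v φ i j x ∧ G.Adj a b) y x := by
    intro y hy
    induction hy with
    | refl => exact Relation.ReflTransGen.refl
    | tail h3 h4 ih =>
      rename_i b c
      have h5 : b ∈ kcomp G v φ i j x := h3
      exact Relation.ReflTransGen.head ⟨h5, h4.2.symm⟩ ih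
  intro y hy z hz
  exact (h2 y hy).trans (h1 z hz)

/-- Components with a common vertex are equal: membership is symmetric. -/
theorem kcomp_symm {G : SimpleGraph V} {v : V} {φ : V → Fin k} {i j : Fin k} {x y : V}
    (hx : x ≠ v) (hc : φ x = i ∨ φ x = j) (hy : y ∈ kcomp G v φ i j x) :
    x ∈ kcomp G v φ i j y := by
  have hcl := kcomp_closed (G := G) hx hc
  induction hy with
  | refl => exact mem_kcomp_self
  | tail h3 h4 ih =>
    rename_i b c
    have h5 : b ∈ kcomp G v φ i j x := h3
    have h6 := hcl.1 b h5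
    exact Relation.ReflTransGen.head ⟨⟨h6.1, h6.2⟩, h4.2.symm⟩ ih

end Pool.Agent.W986
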