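import Pool.Agent.W986.MGLCol
import Pool.Agent.W986.Precise

/-!
# Four colours, a matching and three edges
-/

set_option autoImplicit false

open Finset

namespace Pool.Agent.W986.MGL

open Pool.Agent.DC76 Pool.Agent.W986 Pool.Agent.W986.Lay

section

variable {V : Type} [Fintype V] [DecidableEq V] {G : SimpleGraph V} {F : Type} [Fintype F]
  {U : Type} [Fintype U] [DecidableEq U] {H : SimpleGraph U} {M : FacialWalks G F} {f : U → V}

theorem four_le {N : Finset U} {φ : U → Fin 4} (h : ∀ c, ∃ y ∈ N, φ y = c) : 4 ≤ N.card := by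
  have h1 : (univ : Finset (Fin 4)) ⊆ N.image φ := by
    intro c _
    obtain ⟨y, hy, hyc⟩ := h c
    exact mem_image.2 ⟨y, hy, hyc⟩
  have h2 := card_le_card h1
  rw [card_univ, Fintype.card_fin] at h2
  exact h2.trans card_image_le

theorem main_list (hf : Function.Injective f)
    (hHG : ∀ x y, H.Adj x y → G.Adj (f x) (f y)) (hG : Conn G Set.univ) (hL : Link M)
    (hχ : (1 : ℤ) ≤ (Fintype.card V : ℤ) - G.edgeSet.ncard + Fintype.card F) :
    ∀ (l : List U) (K : Finset U), l.Nodup → Plan H ∅ K l →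
      ∃ Q E r, GM H M f {y | y ∈ l} K Q E r
  | [], K, _, _ => by
    refine ⟨fun _ => True, ∅, 0, ?_⟩
    have h1 : {y : U | y ∈ ([] : List U)} = ∅ := by
      ext y
      simp
    rw [h1]
    exact gm_empty M f K
  | v :: l, K, hnd, hpl => by
    classical
    rw [List.nodup_cons] at hnd
    obtain ⟨hvl, hnd⟩ := hnd
    have hins : {y : U | y ∈ v :: l} = insert v {y : U | y ∈ l} := by
      ext y
      simp
    rw [hins]
    have hvS : v ∉ {y : U | y ∈ l} := hvl
    let N : Finset U := l.toFinset.filter fun y => H.Adj v y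
    have hNmem : ∀ y, y ∈ N ↔ y ∈ {y : U | y ∈ l} ∧ H.Adj v y := by
      intro y
      simp only [N, mem_filter, List.mem_toFinset, Set.mem_ofPred_eq]
    have hNc : N.card = dg H (∅ ∪ l.toFinset) v := by
      rw [empty_union]
      exact card_ib _ _
    rcases hpl with ⟨hd, hpl⟩ | ⟨hd, hvK, x, hx, hvx, hxK, hpl⟩
    · obtain ⟨Q, E, r, h⟩ := main_list hf hHG hG hL hχ l K hnd hpl
      by_cases hfree : ∃ φ, Q φ ∧ ∃ c, ∀ y ∈ {y : U | y ∈ l}, H.Adj v y → φ y ≠ c
      · obtain ⟨Q', h'⟩ := h.step_free hvS subset_rfl hfree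
        exact ⟨Q', E, r, h'⟩
      · push Not at hfree
        have hr : ∀ φ, Q φ → ∀ c, ∃ y ∈ N, φ y = c := by
          intro φ hφ c
          obtain ⟨y, hy, hvy, hyc⟩ := hfree φ hφ c
          exact ⟨y, (hNmem y).2 ⟨hy, hvy⟩, hyc⟩
        obtain ⟨φ, hφ⟩ := h.ne
        have hd' : N.card ≤ 4 := hNc.trans_le hd
        obtain ⟨Q', E', r', h'⟩ := h.step_rigid hf hHG hG hL hχ hvS subset_rfl N
          (fun y hy => (hNmem y).1 hy) (le_antisymm hd' (four_le (hr φ hφ))) hr ∅
          (Nat.zero_le _) hφ (fun x0 hx0 _ y hy hvy hyx => rainbow_inj hd' (hr φ hφ) y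
            ((hNmem y).2 ⟨hy, hvy⟩) x0 hx0 hyx)
        exact ⟨Q', E', r', h'⟩
    · obtain ⟨Q, E, r, h⟩ := main_list hf hHG hG hL hχ l (insert x K) hnd hpl
      by_cases hfree : ∃ φ, Q φ ∧ ∃ c, ∀ y ∈ {y : U | y ∈ l}, H.Adj v y → φ y ≠ c
      · obtain ⟨Q', h'⟩ := h.step_free hvS (subset_insert x K) hfree
        exact ⟨Q', E, r, h'⟩
      by_cases hhost : ∃ φ, Q φ ∧ ∀ y ∈ {y : U | y ∈ l}, H.Adj v y → φ y = φ x → y = x
      · obtain ⟨Q', h'⟩ := h.step_host hvS hx hvx (mem_insert_self x K) (subset_insert x K) hvK hxK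
          hhost
        exact ⟨Q', E, r, h'⟩
      push Not at hfree hhost
      have hxN : x ∈ N := (hNmem x).2 ⟨hx, hvx⟩
      have hc4 : (N.erase x).card ≤ 4 := by
        have h1 := card_erase_of_mem hxN
        omega
      have hr : ∀ φ, Q φ → ∀ c, ∃ y ∈ N.erase x, φ y = c := by
        intro φ hφ c
        obtain ⟨y, hy, hvy, hyc⟩ := hfree φ hφ c
        by_cases hyx : y = x
        · subst hyx
          obtain ⟨z, hz, hvz, hzc, hzy⟩ := hhost φ hφ
          exact ⟨z, mem_erase.2 ⟨hzy, (hNmem z).2 ⟨hz, hvz⟩⟩, hzc.trans hyc⟩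
        · exact ⟨y, mem_erase.2 ⟨hyx, (hNmem y).2 ⟨hy, hvy⟩⟩, hyc⟩
      obtain ⟨φ, hφ⟩ := h.ne
      obtain ⟨y0, hy0, hy0x⟩ := hr φ hφ (φ x)
      obtain ⟨Q', E', r', h'⟩ := h.step_rigid hf hHG hG hL hχ hvS (subset_insert x K) (N.erase x)
        (fun y hy => (hNmem y).1 (mem_of_mem_erase hy)) (le_antisymm hc4 (four_le (hr φ hφ))) hr
        {y0} (card_singleton y0).le hφ (fun x0 hx0 hx0B y hy hvy hyx => by
          refine rainbow_inj hc4 (hr φ hφ) y (mem_erase.2 ⟨?_, (hNmem y).2 ⟨hy, hvy⟩⟩) x0 hx0 hyx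
          rintro rfl
          exact hx0B (mem_singleton.2
            (rainbow_inj hc4 (hr φ hφ) x0 hx0 y0 hy0 (hyx.symm.trans hy0x.symm))))
      exact ⟨Q', E', r', h'⟩

end

/-- Every projective-planar graph has a colouring with four colours and a set `E` of at most three
pairwise disjoint edges such that every vertex has at most one neighbour of its own colour when the
edges in `E` are deleted. -/
theorem three_extra {U : Type} (H : SimpleGraph U) (h : ProjectivePlanar H) :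
    ∃ (c : U → Fin 4) (E : Finset (Sym2 U)), (E : Set (Sym2 U)) ⊆ H.edgeSet ∧ E.card ≤ 3 ∧
      (∀ e ∈ E, ∀ e' ∈ E, ∀ v, v ∈ e → v ∈ e' → e = e') ∧ Defective (H.deleteEdges E) 1 c := by
  classical
  have hS := h.onSurface
  obtain ⟨V, F, _, _, _, G, f, hf, hHG, hG, ⟨M, hL, _⟩, hχ⟩ := h
  have _ : Fintype U := Fintype.ofInjective f hf
  obtain ⟨l, hl1, hl2, hl3⟩ := exists_plan (H := H) (fun X hX => by
    have h1 := ein_le_three_sub H 1 le_rfl hS X hX
    have h2 := dd_ein H X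
    omega) (fun Y Z hYZ => by
    by_cases hne : (Y ∪ Z).Nonempty
    · have h1 := dd_le_proj le_rfl hS hYZ hne
      omega
    · rw [not_nonempty_iff_eq_empty, union_eq_empty] at hne
      rw [hne.1]
      unfold dd
      rw [sum_empty]
      exact Nat.zero_le _) _ ∅ ∅ univ rfl (disjoint_empty_left _) (fun Y _ => by
    by_cases hY : Y.Nonempty
    · have h1 := ein_le_three_sub H 1 le_rfl hS Y hY
      have h2 := dd_ein H Y
      have h3 : dd H Y ∅ = 0 := by
        unfold dd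
        exact sum_eq_zero fun _ _ => sum_empty
      rw [h3, empty_inter, card_empty]
      omega
    · rw [not_nonempty_iff_eq_empty] at hY
      rw [hY]
      unfold dd
      simp)
  obtain ⟨Q, E, r, hg⟩ := main_list hf hHG (conn_univ hG) hL hχ.ge l ∅ hl1 hl3
  obtain ⟨φ, hφ⟩ := hg.ne
  have hmem : ∀ y : U, y ∈ {y : U | y ∈ l} := by
    intro y
    have h1 : y ∈ l.toFinset := by
      rw [hl2]
      exact mem_univ y
    exact List.mem_toFinset.1 h1
  refine ⟨φ, E.filter fun e => e ∈ H.edgeSet, ?_, ?_, fun e he e' he' =>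
    hg.dj e (mem_filter.1 he).1 e' (mem_filter.1 he').1, ?_⟩
  · intro e he
    rw [mem_coe, mem_filter] at he
    exact he.2
  · obtain ⟨D, hD, _⟩ := hg.dt φ hφ
    have h1 := card_filter_le E fun e => e ∈ H.edgeSet
    have h2 := hg.cr
    have h3 : D.card ≤ 3 := by
      have h4 := card_le_univ D
      rw [Fintype.card_fin] at h4
      exact h4
    omega
  · intro v
    rw [Set.ncard_le_one (Set.toFinite _)]
    have hE : ∀ y, H.Adj v y → (H.deleteEdges ↑(E.filter fun e => e ∈ H.edgeSet)).Adj v y →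
        s(v, y) ∉ E := by
      intro y hvy h1 h2
      rw [SimpleGraph.deleteEdges_adj] at h1
      refine h1.2 ?_
      rw [mem_coe, mem_filter]
      exact ⟨h2, hvy⟩
    rintro x ⟨hvx, hx⟩ y ⟨hvy, hy⟩
    have h1 : H.Adj v x := (SimpleGraph.deleteEdges_adj.1 hvx).1
    have h2 : H.Adj v y := (SimpleGraph.deleteEdges_adj.1 hvy).1
    exact hg.mt φ hφ v (hmem v) x (hmem x) y (hmem y) h1 h2 hx hy (hE x h1 hvx) (hE y h2 hvy)

end Pool.Agent.W986.MGL
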