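import Pool.Agent.W986.MGLPlan
import Pool.Agent.W986.LayTop

/-!
# Colouring along an order with private hosts
-/

set_option autoImplicit false
set_option linter.unusedSectionVars false

open Finset

namespace Pool.Agent.W986.MGL

open Pool.Agent.DC76 Pool.Agent.W986 Pool.Agent.W986.Lay

variable {V : Type} [Fintype V] [DecidableEq V] {G : SimpleGraph V} {F : Type} [Fintype F]
  {U : Type} [Fintype U] [DecidableEq U] {H : SimpleGraph U} {M : FacialWalks G F}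
  {f : U → V} {S : Set U} {Q : (U → Fin 4) → Prop} {E : Finset (Sym2 U)} {r : ℕ}

/-- `Q` is closed under changes of the colouring which keep the monochromatic edges inside `S`. -/
def Cl (H : SimpleGraph U) (S : Set U) (Q : (U → Fin 4) → Prop) : Prop :=
  ∀ φ ψ, Q φ → (∀ x ∈ S, ∀ y ∈ S, H.Adj x y → (φ x = φ y ↔ ψ x = ψ y)) → Q ψ

theorem rainbow_inj {N : Finset U} (hN : N.card ≤ 4) {φ : U → Fin 4}
    (h : ∀ c, ∃ y ∈ N, φ y = c) : ∀ y ∈ N, ∀ y' ∈ N, φ y = φ y' → y = y' := by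
  have h1 : N.image φ = univ := by
    ext c
    simp only [mem_image, mem_univ, iff_true]
    exact h c
  have h2 : (N.image φ).card = N.card := by
    have h3 : (N.image φ).card = 4 := by
      rw [h1]
      rfl
    have h4 := card_image_le (s := N) (f := φ)
    omega
  exact fun y hy y' hy' h3 => card_image_iff.1 h2 hy hy' h3

/-- If `N` is rainbow in every state, then any two of its members are in the same Kempe chain. -/
theorem link (h : Cl H S Q) {N : Finset U} (hNS : ∀ y ∈ N, y ∈ S) (hN : N.card ≤ 4)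
    (hr : ∀ φ, Q φ → ∀ c, ∃ y ∈ N, φ y = c) {φ : U → Fin 4} (hφ : Q φ) (x : Fin 4 → U)
    (hx : ∀ i, x i ∈ N) (hxφ : ∀ i, φ (x i) = i) (i j : Fin 4) (hij : i ≠ j) :
    Relation.ReflTransGen (fun a b => (b ∈ S ∧ (φ b = i ∨ φ b = j)) ∧ H.Adj a b) (x i) (x j) := by
  classical
  by_contra hcon
  let X : Set U := {y | Relation.ReflTransGen
    (fun a b => (b ∈ S ∧ (φ b = i ∨ φ b = j)) ∧ H.Adj a b) (x i) y}
  have hX : ∀ y ∈ X, y ∈ S ∧ (φ y = i ∨ φ y = j) := by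
    intro y hy
    rcases Relation.ReflTransGen.cases_tail hy with h1 | ⟨c, _, h1⟩
    · rw [h1]
      exact ⟨hNS _ (hx i), Or.inl (hxφ i)⟩
    · exact h1.1
  have hstep : ∀ a ∈ X, ∀ b ∈ S, H.Adj a b → (φ b = i ∨ φ b = j) → b ∈ X := by
    intro a ha b hb hab h1
    exact Relation.ReflTransGen.tail ha ⟨⟨hb, h1⟩, hab⟩
  let ψ : U → Fin 4 := fun y => if y ∈ X then Equiv.swap i j (φ y) else φ y
  have hψX : ∀ y, y ∈ X → ψ y = Equiv.swap i j (φ y) := fun y hy => if_pos hy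
  have hψn : ∀ y, y ∉ X → ψ y = φ y := fun y hy => if_neg hy
  have hsw : ∀ c : Fin 4, (c = i ∨ c = j) → (Equiv.swap i j c = i ∨ Equiv.swap i j c = j) := by
    rintro c (rfl | rfl)
    · exact Or.inr (Equiv.swap_apply_left _ _)
    · exact Or.inl (Equiv.swap_apply_right _ _)
  have hψ : Q ψ := by
    refine h φ ψ hφ fun a ha b hb hab => ?_
    by_cases h1 : a ∈ X <;> by_cases h2 : b ∈ X
    · rw [hψX a h1, hψX b h2]
      exact (Equiv.swap i j).injective.eq_iff.symm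
    · rw [hψX a h1, hψn b h2]
      have h3 : ¬ (φ b = i ∨ φ b = j) := fun h3 => h2 (hstep a h1 b hb hab h3)
      constructor
      · intro h4
        exact absurd (h4 ▸ (hX a h1).2) h3
      · intro h4
        exact absurd (h4 ▸ hsw _ (hX a h1).2) h3
    · rw [hψn a h1, hψX b h2]
      have h3 : ¬ (φ a = i ∨ φ a = j) := fun h3 => h1 (hstep b h2 a ha hab.symm h3)
      constructor
      · intro h4
        exact absurd (h4.symm ▸ (hX b h2).2) h3
      · intro h4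
        exact absurd (h4.symm ▸ hsw _ (hX b h2).2) h3
    · rw [hψn a h1, hψn b h2]
  have huniq := rainbow_inj hN (hr φ hφ)
  obtain ⟨y, hyN, hy⟩ := hr ψ hψ i
  by_cases h1 : y ∈ X
  · rw [hψX y h1] at hy
    rcases (hX y h1).2 with h2 | h2
    · rw [h2, Equiv.swap_apply_left] at hy
      exact hij hy.symm
    · have h3 : y = x j := huniq y hyN _ (hx j) (by rw [h2, hxφ])
      rw [h3] at h1
      exact hcon h1
  · rw [hψn y h1] at hy
    have h3 : y = x i := huniq y hyN _ (hx i) (by rw [hy, hxφ])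
    rw [h3] at h1
    exact h1 Relation.ReflTransGen.refl

/-- `Q` is a class of colourings of `S` in which the monochromatic edges outside `E` form a matching
which avoids `K`, and the edges in `E` are pairwise disjoint. -/
structure GM (H : SimpleGraph U) (M : FacialWalks G F) (f : U → V) (S : Set U) (K : Finset U)
    (Q : (U → Fin 4) → Prop) (E : Finset (Sym2 U)) (r : ℕ) : Prop where
  ne : ∃ φ, Q φ
  cl : Cl H S Q
  mt : ∀ φ, Q φ → ∀ x ∈ S, ∀ y ∈ S, ∀ z ∈ S, H.Adj x y → H.Adj x z → φ y = φ x → φ z = φ x →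
    s(x, y) ∉ E → s(x, z) ∉ E → y = z
  fr : ∀ φ, Q φ → ∀ x ∈ S, x ∈ K → ∀ y ∈ S, H.Adj x y → φ y = φ x → s(x, y) ∈ E
  eS : ∀ φ, Q φ → ∀ x y, s(x, y) ∈ E → x ∈ S ∧ y ∈ S ∧ φ x = φ y
  dj : ∀ e ∈ E, ∀ e' ∈ E, ∀ v, v ∈ e → v ∈ e' → e = e'
  cr : E.card ≤ r
  dt : ∀ φ, Q φ → ∃ D : Finset (Fin 3), r ≤ D.card ∧ ∀ s ∈ D, Det M f S φ s

variable {K K' : Finset U}

theorem gm_empty (M : FacialWalks G F) (f : U → V) (K : Finset U) :
    GM H M f (∅ : Set U) K (fun _ => True) ∅ 0 where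
  ne := ⟨fun _ => 0, trivial⟩
  cl := fun _ _ _ _ => trivial
  mt := fun _ _ _ hx => absurd hx (Set.notMem_empty _)
  fr := fun _ _ _ hx => absurd hx (Set.notMem_empty _)
  eS := fun _ _ _ _ h => absurd h (notMem_empty _)
  dj := fun _ h => absurd h (notMem_empty _)
  cr := le_rfl
  dt := fun _ _ => ⟨∅, le_rfl, fun _ h => absurd h (notMem_empty _)⟩

/-- The new vertex gets a colour which does not occur at its neighbours. -/
theorem GM.step_free (h : GM H M f S K Q E r) {v : U} (hv : v ∉ S) (hK : K' ⊆ K)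
    (hfree : ∃ φ, Q φ ∧ ∃ c, ∀ y ∈ S, H.Adj v y → φ y ≠ c) :
    ∃ Q', GM H M f (insert v S) K' Q' E r := by
  refine ⟨fun φ => Q φ ∧ ∀ y ∈ S, H.Adj v y → φ v ≠ φ y,
    ⟨?_, ?_, ?_, ?_, fun φ hφ x y hxy => ?_, h.dj, h.cr, ?_⟩⟩
  · obtain ⟨φ, hφ, c, hc⟩ := hfree
    refine ⟨Function.update φ v c, h.cl φ _ hφ fun a ha b hb _ => ?_, fun y hy hvy => ?_⟩
    · rw [Function.update_of_ne (by rintro rfl; exact hv ha),
        Function.update_of_ne (by rintro rfl; exact hv hb)]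
    · rw [Function.update_self, Function.update_of_ne (by rintro rfl; exact hv hy)]
      exact (hc y hy hvy).symm
  · rintro φ ψ ⟨hφ, h1⟩ h2
    refine ⟨h.cl φ ψ hφ fun x hx y hy => h2 x (Or.inr hx) y (Or.inr hy), fun y hy hvy h3 => ?_⟩
    exact h1 y hy hvy ((h2 v (Or.inl rfl) y (Or.inr hy) hvy).2 h3)
  · rintro φ ⟨hφ, h1⟩ x (rfl | hx) y (rfl | hy) z (rfl | hz) hxy hxz h2 h3 h4 h5
    · rfl
    · exact absurd hxy H.irrefl
    · exact absurd hxz H.irrefl
    · exact absurd h2.symm (h1 y hy hxy)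
    · rfl
    · exact absurd h2 (h1 x hx hxy.symm)
    · exact absurd h3 (h1 x hx hxz.symm)
    · exact h.mt φ hφ x hx y hy z hz hxy hxz h2 h3 h4 h5
  · rintro φ ⟨hφ, h1⟩ x (rfl | hx) hxK y (rfl | hy) hxy h2
    · exact absurd hxy H.irrefl
    · exact absurd h2.symm (h1 y hy hxy)
    · exact absurd h2 (h1 x hx hxy.symm)
    · exact h.fr φ hφ x hx (hK hxK) y hy hxy h2
  · obtain ⟨h1, h2, h3⟩ := h.eS φ hφ.1 x y hxy
    exact ⟨Or.inr h1, Or.inr h2, h3⟩
  · rintro φ ⟨hφ, _⟩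
    obtain ⟨D, h1, h2⟩ := h.dt φ hφ
    exact ⟨D, h1, fun s hs => (h2 s hs).mono (Set.subset_insert _ _)⟩

/-- The new vertex gets the colour of its private host. -/
theorem GM.step_host (h : GM H M f S K Q E r) {v x0 : U} (hv : v ∉ S) (hx0 : x0 ∈ S)
    (hvx0 : H.Adj v x0) (hxK : x0 ∈ K) (hK : K' ⊆ K) (hvK : v ∉ K') (hxK' : x0 ∉ K')
    (hhost : ∃ φ, Q φ ∧ ∀ y ∈ S, H.Adj v y → φ y = φ x0 → y = x0) :
    ∃ Q', GM H M f (insert v S) K' Q' E r := by
  refine ⟨fun φ => Q φ ∧ ∀ y ∈ S, H.Adj v y → (φ v = φ y ↔ y = x0),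
    ⟨?_, ?_, ?_, ?_, fun φ hφ x y hxy => ?_, h.dj, h.cr, ?_⟩⟩
  · obtain ⟨φ, hφ, h1⟩ := hhost
    refine ⟨Function.update φ v (φ x0), h.cl φ _ hφ fun a ha b hb _ => ?_, fun y hy hvy => ?_⟩
    · rw [Function.update_of_ne (by rintro rfl; exact hv ha),
        Function.update_of_ne (by rintro rfl; exact hv hb)]
    · rw [Function.update_self, Function.update_of_ne (by rintro rfl; exact hv hy)]
      constructor
      · intro h2
        exact h1 y hy hvy h2.symm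
      · rintro rfl
        rfl
  · rintro φ ψ ⟨hφ, h1⟩ h2
    refine ⟨h.cl φ ψ hφ fun x hx y hy => h2 x (Or.inr hx) y (Or.inr hy), fun y hy hvy => ?_⟩
    rw [← h2 v (Or.inl rfl) y (Or.inr hy) hvy]
    exact h1 y hy hvy
  · have hno : ∀ φ, Q φ → ∀ z ∈ S, H.Adj x0 z → φ z = φ x0 → s(x0, z) ∉ E → False := by
      intro φ hφ z hz hxz h1 h2
      exact h2 (h.fr φ hφ x0 hx0 hxK z hz hxz h1)
    rintro φ ⟨hφ, h1⟩ x (rfl | hx) y (rfl | hy) z (rfl | hz) hxy hxz h2 h3 h4 h5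
    · rfl
    · exact absurd hxy H.irrefl
    · exact absurd hxz H.irrefl
    · rw [(h1 y hy hxy).1 h2.symm, (h1 z hz hxz).1 h3.symm]
    · rfl
    · have h6 := (h1 x hx hxy.symm).1 h2
      subst h6
      exact (hno φ hφ z hz hxz h3 h5).elim
    · have h6 := (h1 x hx hxz.symm).1 h3
      subst h6
      exact (hno φ hφ y hy hxy h2 h4).elim
    · exact h.mt φ hφ x hx y hy z hz hxy hxz h2 h3 h4 h5
  · rintro φ ⟨hφ, h1⟩ x (rfl | hx) hxK2 y (rfl | hy) hxy h2
    · exact absurd hxy H.irrefl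
    · exact absurd hxK2 hvK
    · have h6 := (h1 x hx hxy.symm).1 h2
      subst h6
      exact absurd hxK2 hxK'
    · exact h.fr φ hφ x hx (hK hxK2) y hy hxy h2
  · obtain ⟨h1, h2, h3⟩ := h.eS φ hφ.1 x y hxy
    exact ⟨Or.inr h1, Or.inr h2, h3⟩
  · rintro φ ⟨hφ, _⟩
    obtain ⟨D, h1, h2⟩ := h.dt φ hφ
    exact ⟨D, h1, fun s hs => (h2 s hs).mono (Set.subset_insert _ _)⟩

/-- The new vertex gets the colour of a neighbour, and the edge becomes exceptional. -/
theorem GM.step_rigid (hf : Function.Injective f)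
    (hHG : ∀ x y, H.Adj x y → G.Adj (f x) (f y)) (hG : Conn G Set.univ) (hL : Link M)
    (hχ : (1 : ℤ) ≤ (Fintype.card V : ℤ) - G.edgeSet.ncard + Fintype.card F)
    (h : GM H M f S K Q E r) {v : U} (hv : v ∉ S) (hK : K' ⊆ K) (N : Finset U)
    (hN : ∀ y ∈ N, y ∈ S ∧ H.Adj v y) (hNc : N.card = 4)
    (hr : ∀ φ, Q φ → ∀ c, ∃ y ∈ N, φ y = c) (B : Finset U) (hB : B.card ≤ 1) {φ0 : U → Fin 4}
    (hφ0 : Q φ0)
    (hone : ∀ x0 ∈ N, x0 ∉ B → ∀ y ∈ S, H.Adj v y → φ0 y = φ0 x0 → y = x0) :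
    ∃ Q' E' r', GM H M f (insert v S) K' Q' E' r' := by
  classical
  have hcross : ∀ φ, Q φ → ∃ s, ¬ Det M f S φ s ∧
      ∀ ψ : U → Fin 4, (∀ y ∈ S, ψ y = φ y) → Det M f (insert v S) ψ s := by
    intro φ hφ
    choose x hx hxφ using hr φ hφ
    exact cross f hf hHG hG hL hχ hv x (fun i => (hN _ (hx i)).1) (fun i => (hN _ (hx i)).2) hxφ
      (fun i j hij => link h.cl (fun y hy => (hN y hy).1) hNc.le hr hφ x hx hxφ i j hij)
  have hr2 : r ≤ 2 := by
    obtain ⟨s, hs, _⟩ := hcross φ0 hφ0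
    obtain ⟨D, hD1, hD2⟩ := h.dt φ0 hφ0
    have h1 : D ⊆ univ.erase s := by
      intro s' hs'
      refine mem_erase.2 ⟨?_, mem_univ _⟩
      rintro rfl
      exact hs (hD2 _ hs')
    have h2 := card_le_card h1
    rw [card_erase_of_mem (mem_univ s), card_univ, Fintype.card_fin] at h2
    omega
  have huniq := rainbow_inj hNc.le (hr φ0 hφ0)
  -- at most one end of an exceptional edge is a neighbour
  have hcov : (N.filter fun y => ∃ e ∈ E, y ∈ e).card ≤ E.card := by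
    have h1 : ∀ y, y ∈ N.filter (fun y => ∃ e ∈ E, y ∈ e) → ∃ e, e ∈ E ∧ y ∈ e := fun y hy =>
      (mem_filter.1 hy).2
    choose g hg1 hg2 using h1
    refine card_le_card_of_injOn (fun y => if hy : y ∈ N.filter (fun y => ∃ e ∈ E, y ∈ e) then
      g y hy else s(v, v)) ?_ ?_
    · intro y hy
      have hy' : y ∈ N.filter (fun y => ∃ e ∈ E, y ∈ e) := hy
      simp only [hy', dif_pos]
      exact hg1 y hy'
    · intro y hy y' hy' hyy
      have h3 : y ∈ N.filter (fun y => ∃ e ∈ E, y ∈ e) := hy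
      have h4 : y' ∈ N.filter (fun y => ∃ e ∈ E, y ∈ e) := hy'
      simp only [h3, h4, dif_pos] at hyy
      by_contra hne
      have h5 : g y h3 = s(y, y') :=
        ((Sym2.mem_and_mem_iff hne).1 ⟨hg2 y h3, by rw [hyy]; exact hg2 y' h4⟩)
      have h6 : s(y, y') ∈ E := h5 ▸ hg1 y h3
      exact hne (huniq y (mem_filter.1 h3).1 y' (mem_filter.1 h4).1 (h.eS φ0 hφ0 y y' h6).2.2)
  obtain ⟨x0, hx0N, hx0B, hx0E⟩ : ∃ x0 ∈ N, x0 ∉ B ∧ ∀ e ∈ E, x0 ∉ e := by
    by_contra hcon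
    push Not at hcon
    have h1 : N ⊆ B ∪ N.filter (fun y => ∃ e ∈ E, y ∈ e) := by
      intro y hy
      by_cases hyB : y ∈ B
      · exact mem_union_left _ hyB
      · exact mem_union_right _ (mem_filter.2 ⟨hy, hcon y hy hyB⟩)
    have h2 := card_le_card h1
    have h3 := card_union_le B (N.filter (fun y => ∃ e ∈ E, y ∈ e))
    have h4 := h.cr
    omega
  obtain ⟨hx0, hvx0⟩ := hN x0 hx0N
  have hvE : ∀ e ∈ E, v ∉ e := by
    intro e he hve
    obtain ⟨w, rfl⟩ := Sym2.mem_iff_exists.1 hve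
    exact hv (h.eS φ0 hφ0 v w he).1
  refine ⟨fun φ => Q φ ∧ ∀ y ∈ S, H.Adj v y → (φ v = φ y ↔ y = x0), insert s(v, x0) E, r + 1,
    ⟨?_, ?_, ?_, ?_, ?_, ?_, ?_, ?_⟩⟩
  · have h1 := hone x0 hx0N hx0B
    refine ⟨Function.update φ0 v (φ0 x0), h.cl φ0 _ hφ0 fun a ha b hb _ => ?_, fun y hy hvy => ?_⟩
    · rw [Function.update_of_ne (by rintro rfl; exact hv ha),
        Function.update_of_ne (by rintro rfl; exact hv hb)]
    · rw [Function.update_self, Function.update_of_ne (by rintro rfl; exact hv hy)]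
      constructor
      · intro h2
        exact h1 y hy hvy h2.symm
      · rintro rfl
        rfl
  · rintro φ ψ ⟨hφ, h1⟩ h2
    refine ⟨h.cl φ ψ hφ fun x hx y hy => h2 x (Or.inr hx) y (Or.inr hy), fun y hy hvy => ?_⟩
    rw [← h2 v (Or.inl rfl) y (Or.inr hy) hvy]
    exact h1 y hy hvy
  · have hE : ∀ e : Sym2 U, e ∉ insert s(v, x0) E → e ≠ s(v, x0) ∧ e ∉ E := by
      intro e he
      rw [mem_insert] at he
      push Not at he
      exact he
    rintro φ ⟨hφ, h1⟩ x (rfl | hx) y (rfl | hy) z (rfl | hz) hxy hxz h2 h3 h4 h5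
    · rfl
    · exact absurd hxy H.irrefl
    · exact absurd hxz H.irrefl
    · rw [(h1 y hy hxy).1 h2.symm, (h1 z hz hxz).1 h3.symm]
    · rfl
    · have h6 := (h1 x hx hxy.symm).1 h2
      subst h6
      exact absurd Sym2.eq_swap (hE _ h4).1
    · have h6 := (h1 x hx hxz.symm).1 h3
      subst h6
      exact absurd Sym2.eq_swap (hE _ h5).1
    · exact h.mt φ hφ x hx y hy z hz hxy hxz h2 h3 (hE _ h4).2 (hE _ h5).2
  · rintro φ ⟨hφ, h1⟩ x (rfl | hx) hxK2 y (rfl | hy) hxy h2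
    · exact absurd hxy H.irrefl
    · rw [(h1 y hy hxy).1 h2.symm]
      exact mem_insert_self _ _
    · rw [(h1 x hx hxy.symm).1 h2, Sym2.eq_swap]
      exact mem_insert_self _ _
    · exact mem_insert_of_mem (h.fr φ hφ x hx (hK hxK2) y hy hxy h2)
  · rintro φ ⟨hφ, h1⟩ x y hxy
    rcases mem_insert.1 hxy with h2 | h2
    · rcases Sym2.eq_iff.1 h2 with ⟨rfl, rfl⟩ | ⟨rfl, rfl⟩
      · exact ⟨Or.inl rfl, Or.inr hx0, (h1 y hx0 hvx0).2 rfl⟩
      · exact ⟨Or.inr hx0, Or.inl rfl, ((h1 x hx0 hvx0).2 rfl).symm⟩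
    · obtain ⟨h3, h4, h5⟩ := h.eS φ hφ x y h2
      exact ⟨Or.inr h3, Or.inr h4, h5⟩
  · have hnew : ∀ e ∈ E, ∀ w, w ∈ e → w ∉ s(v, x0) := by
      intro e he w hw h1
      rcases Sym2.mem_iff.1 h1 with rfl | rfl
      · exact hvE e he hw
      · exact hx0E e he hw
    intro e he e' he' w hw hw'
    rcases mem_insert.1 he with rfl | he
    · rcases mem_insert.1 he' with rfl | he'
      · rfl
      · exact absurd hw (hnew e' he' w hw')
    · rcases mem_insert.1 he' with rfl | he'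
      · exact absurd hw' (hnew e he w hw)
      · exact h.dj e he e' he' w hw hw'
  · have h1 := card_insert_le s(v, x0) E
    have h2 := h.cr
    omega
  · rintro φ ⟨hφ, _⟩
    obtain ⟨D, h1, h2⟩ := h.dt φ hφ
    obtain ⟨s, hs1, hs2⟩ := hcross φ hφ
    refine ⟨insert s D, ?_, fun s' hs' => ?_⟩
    · rw [card_insert_of_notMem fun h3 => hs1 (h2 s h3)]
      omega
    · rcases mem_insert.1 hs' with rfl | h3
      · exact hs2 φ fun _ _ => rfl
      · exact (h2 s' h3).mono (Set.subset_insert _ _)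

end Pool.Agent.W986.MGL
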