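import Pool.Agent.W986.Bip

/-!
# Orders with private hosts

Every graph with fewer than `3|X|` edges inside every nonempty set `X` and at most
`2(|Y| + |Z|)` edges between disjoint sets `Y`, `Z` has an order in which every vertex has at most
five later neighbours, and every vertex `v` with exactly five has a later neighbour `x(v)` with at
most four later neighbours, such that `x(v) ≠ x(w)` for `v ≠ w`.
-/

set_option autoImplicit false

open Finset

namespace Pool.Agent.W986.MGL

open Pool.Agent.DC76 Pool.Agent.W986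

variable {U : Type} [DecidableEq U]

/-- The number of neighbours of `v` in `A`. -/
noncomputable def dg (H : SimpleGraph U) (A : Finset U) (v : U) : ℕ := ∑ y ∈ A, ib (H.Adj v y)

/-- The list is an order of its members in which every member `v` has at most five neighbours in
`R` or later in the list; if there are five then `v` is not in `M` and owns a later neighbour `x`,
not in `M`, which is added to `M`. -/
def Plan (H : SimpleGraph U) : Finset U → Finset U → List U → Prop
  | _, _, [] => True
  | R, M, v :: l => (dg H (R ∪ l.toFinset) v ≤ 4 ∧ Plan H R M l) ∨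
      (dg H (R ∪ l.toFinset) v = 5 ∧ v ∉ M ∧
        ∃ x ∈ l, H.Adj v x ∧ x ∉ M ∧ Plan H R (insert x M) l)

variable {H : SimpleGraph U}

theorem dg_union {A B : Finset U} (h : Disjoint A B) (v : U) :
    dg H (A ∪ B) v = dg H A v + dg H B v := sum_union h

theorem dd_sum (X Y : Finset U) : dd H X Y = ∑ x ∈ X, dg H Y x := rfl

theorem dg_erase {A : Finset U} (v : U) : dg H (A.erase v) v = dg H A v := by
  unfold dg
  by_cases hv : v ∈ A
  · rw [← add_sum_erase A _ hv, ib_neg (H.loopless.irrefl v), zero_add]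
  · rw [erase_eq_of_notMem hv]

theorem dg_pos {A : Finset U} {v : U} (h : 0 < dg H A v) : ∃ x ∈ A, H.Adj v x := by
  by_contra hcon
  push Not at hcon
  have h1 : dg H A v = 0 := sum_eq_zero fun x hx => ib_neg (hcon x hx)
  omega

theorem dg_congr {A B : Finset U} {v : U} (h : ∀ x, H.Adj v x → (x ∈ A ↔ x ∈ B)) :
    dg H A v = dg H B v := by
  classical
  unfold dg
  rw [← card_ib, ← card_ib]
  congr 1
  ext x
  simp only [mem_filter]
  constructor
  · rintro ⟨h1, h2⟩
    exact ⟨(h x h2).1 h1, h2⟩
  · rintro ⟨h1, h2⟩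
    exact ⟨(h x h2).2 h1, h2⟩

theorem plan_congr {R : Finset U} : ∀ (l : List U) (M M' : Finset U),
    (∀ v ∈ l, v ∈ M ↔ v ∈ M') → Plan H R M l → Plan H R M' l
  | [], _, _, _, _ => trivial
  | v :: l, M, M', h, hp => by
    rcases hp with ⟨h1, h2⟩ | ⟨h1, h2, x, hx, hvx, hxM, h3⟩
    · exact Or.inl ⟨h1, plan_congr l M M' (fun w hw => h w (List.mem_cons_of_mem _ hw)) h2⟩
    · refine Or.inr ⟨h1, fun h4 => h2 ((h v List.mem_cons_self).2 h4), x, hx, hvx,
        fun h4 => hxM ((h x (List.mem_cons_of_mem _ hx)).2 h4),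
        plan_congr l _ _ (fun w hw => ?_) h3⟩
      rw [mem_insert, mem_insert, h w (List.mem_cons_of_mem _ hw)]

theorem plan_append {R T : Finset U} {l2 : List U} (hT : l2.toFinset = T) :
    ∀ (l1 : List U) (M : Finset U), (∀ v ∈ l1, v ∉ T) → Plan H (R ∪ T) M l1 → Plan H R M l2 →
      Plan H R M (l1 ++ l2)
  | [], _, _, _, h => h
  | v :: l1, M, hd, hp, h => by
    have hd' : ∀ w ∈ l1, w ∉ T := fun w hw => hd w (List.mem_cons_of_mem _ hw)
    have e : R ∪ (l1 ++ l2).toFinset = R ∪ T ∪ l1.toFinset := by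
      rw [List.toFinset_append, hT, union_comm l1.toFinset T, union_assoc]
    rcases hp with ⟨h1, h2⟩ | ⟨h1, h2, x, hx, hvx, hxM, h3⟩
    · rw [← e] at h1
      exact Or.inl ⟨h1, plan_append hT l1 M hd' h2 h⟩
    · rw [← e] at h1
      refine Or.inr ⟨h1, h2, x, List.mem_append_left _ hx, hvx, hxM,
        plan_append hT l1 _ hd' h3 (plan_congr l2 M _ (fun w hw => ?_) h)⟩
      rw [mem_insert]
      constructor
      · exact Or.inr
      · rintro (rfl | h4)
        · exact absurd (hT ▸ List.mem_toFinset.2 hw) (hd' w hx)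
        · exact h4

/-- The potential. -/
def Ok (H : SimpleGraph U) (R M Z : Finset U) : Prop :=
  ∀ Y ⊆ Z, dd H Y Y + 2 * dd H Y R + 2 * (M ∩ Y).card ≤ 6 * Y.card

theorem Ok.mono {R M Z Z' : Finset U} (h : Ok H R M Z) (hZ : Z' ⊆ Z) : Ok H R M Z' :=
  fun Y hY => h Y (hY.trans hZ)

theorem Ok.above {R M Z T : Finset U} (h : Ok H R M Z) (hRZ : Disjoint R Z) (hT : T ⊆ Z)
    (htight : dd H T T + 2 * dd H T R + 2 * (M ∩ T).card = 6 * T.card) :
    Ok H (R ∪ T) M (Z \ T) := by
  intro Y hY
  have hYT : Disjoint Y T := disjoint_of_subset_left hY sdiff_disjoint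
  have hRT : Disjoint R T := disjoint_of_subset_right hT hRZ
  have h1 := h (Y ∪ T) (union_subset (hY.trans sdiff_subset) hT)
  rw [dd_union_left _ hYT, dd_union_right _ hYT, dd_union_right _ hYT, dd_union_left _ hYT,
    inter_union_distrib_left, card_union_of_disjoint hYT, card_union_of_disjoint
      (disjoint_of_subset_left inter_subset_right (disjoint_of_subset_right inter_subset_right
        hYT)), dd_comm _ T Y] at h1
  rw [dd_union_right _ hRT]
  omega

theorem exists_plan (h3 : ∀ X : Finset U, X.Nonempty → dd H X X < 6 * X.card)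
    (h2 : ∀ Y Z : Finset U, Disjoint Y Z → dd H Y Z ≤ 2 * (Y.card + Z.card)) :
    ∀ (n : ℕ) (R M Z : Finset U), Z.card = n → Disjoint R Z → Ok H R M Z →
      ∃ l : List U, l.Nodup ∧ l.toFinset = Z ∧ Plan H R M l := by
  intro n
  induction n using Nat.strong_induction_on with
  | _ n ih =>
    intro R M Z hn hRZ hok
    by_cases hZ : Z = ∅
    · exact ⟨[], List.nodup_nil, by rw [hZ]; rfl, trivial⟩
    have hZne : Z.Nonempty := nonempty_iff_ne_empty.2 hZ
    by_cases ha : ∃ T ⊆ Z, T.Nonempty ∧ T ≠ Z ∧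
        dd H T T + 2 * dd H T R + 2 * (M ∩ T).card = 6 * T.card
    · obtain ⟨T, hT, hTne, hTZ, htight⟩ := ha
      have hc : T.card < Z.card := card_lt_card (hT.ssubset_of_ne hTZ)
      have hc2 : (Z \ T).card < Z.card := by
        have h4 := card_sdiff_add_card_eq_card hT
        have h5 := card_pos.2 hTne
        omega
      obtain ⟨l1, h11, h12, h13⟩ := ih _ (by omega) (R ∪ T) M (Z \ T) rfl (by
        rw [disjoint_union_left]
        exact ⟨disjoint_of_subset_right sdiff_subset hRZ, disjoint_sdiff⟩)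
        (hok.above hRZ hT htight)
      obtain ⟨l2, h21, h22, h23⟩ := ih _ (by omega) R M T rfl
        (disjoint_of_subset_right hT hRZ) (hok.mono hT)
      have hd : ∀ v ∈ l1, v ∉ T := by
        intro v hv
        have h4 := List.mem_toFinset.2 hv
        rw [h12] at h4
        exact (mem_sdiff.1 h4).2
      refine ⟨l1 ++ l2, ?_, ?_, plan_append h22 l1 M hd h13 h23⟩
      · rw [List.nodup_append]
        refine ⟨h11, h21, fun a ha b hb hab => ?_⟩
        subst hab
        exact hd a ha (h22 ▸ List.mem_toFinset.2 hb)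
      · rw [List.toFinset_append, h12, h22]
        exact sdiff_union_of_subset hT
    push Not at ha
    -- removing the lowest vertex
    have hcons : ∀ v ∈ Z, ∀ M', Ok H R M' (Z.erase v) → (∀ l : List U, l.Nodup →
        l.toFinset = Z.erase v → Plan H R M' l → Plan H R M (v :: l)) →
        ∃ l : List U, l.Nodup ∧ l.toFinset = Z ∧ Plan H R M l := by
      intro v hv M' hok' hpl
      obtain ⟨l, hl1, hl2, hl3⟩ := ih _ (by
        rw [← hn]
        exact card_erase_lt_of_mem hv) R M' (Z.erase v) rfl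
        (disjoint_of_subset_right (erase_subset _ _) hRZ) hok'
      refine ⟨v :: l, ?_, ?_, hpl l hl1 hl2 hl3⟩
      · rw [List.nodup_cons]
        refine ⟨fun h => ?_, hl1⟩
        have h4 := List.mem_toFinset.2 h
        rw [hl2] at h4
        exact notMem_erase v Z h4
      · rw [List.toFinset_cons, hl2, insert_erase hv]
    have hdg : ∀ v ∈ Z, ∀ l : List U, l.toFinset = Z.erase v →
        dg H (R ∪ l.toFinset) v = dg H Z v + dg H R v := by
      intro v hv l hl
      rw [hl, dg_union (disjoint_of_subset_right (erase_subset _ _) hRZ), dg_erase, add_comm]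
    by_cases hb : ∃ v ∈ Z, dg H Z v + dg H R v ≤ 4
    · obtain ⟨v, hv, h4⟩ := hb
      refine hcons v hv M (hok.mono (erase_subset _ _)) fun l hl1 hl2 hl3 => Or.inl ⟨?_, hl3⟩
      rw [hdg v hv l hl2]
      exact h4
    push Not at hb
    by_cases hc : ∃ v ∈ Z, v ∉ M ∧ dg H Z v + dg H R v = 5 ∧ ∃ x ∈ Z, H.Adj v x ∧ x ∉ M
    · obtain ⟨v, hv, hvM, h4, x, hx, hvx, hxM⟩ := hc
      refine hcons v hv (insert x M) ?_ fun l hl1 hl2 hl3 => Or.inr ⟨?_, hvM, x, ?_, hvx, hxM, hl3⟩
      · intro Y hY
        have h5 := hok Y (hY.trans (erase_subset _ _))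
        by_cases hxY : x ∈ Y
        · have h6 := ha Y (hY.trans (erase_subset _ _)) ⟨x, hxY⟩ (by
            rintro rfl
            exact notMem_erase v Y (hY hv))
          have h7 : ((insert x M) ∩ Y).card = (M ∩ Y).card + 1 := by
            rw [insert_inter_of_mem hxY, card_insert_of_notMem fun h8 => hxM (mem_inter.1 h8).1]
          have h8 := dd_ein H Y
          omega
        · rw [insert_inter_of_notMem hxY]
          exact h5
      · rw [hdg v hv l hl2]
        exact h4
      · rw [← List.mem_toFinset, hl2]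
        exact mem_erase.2 ⟨hvx.ne', hx⟩
    exfalso
    push Not at hc
    -- the count
    let Y : Finset U := Z.filter fun v => v ∉ M ∧ dg H Z v = 5 ∧ dg H R v = 0
    have hsum : dd H Z Z + 2 * dd H Z R + 2 * (M ∩ Z).card ≤ 6 * Z.card := hok Z subset_rfl
    have hMZ : (M ∩ Z).card = ∑ v ∈ Z, ib (v ∈ M) := by
      classical
      rw [← card_ib]
      congr 1
      ext v
      simp only [mem_inter, mem_filter, and_comm]
    have hYc : Y.card = ∑ v ∈ Z, ib (v ∉ M ∧ dg H Z v = 5 ∧ dg H R v = 0) := card_ib _ _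
    have hMY : (M ∩ Z).card ≤ Y.card := by
      have h4 : ∑ v ∈ Z, (6 + ib (v ∈ M)) ≤ ∑ v ∈ Z, (dg H Z v + 2 * dg H R v + 2 * ib (v ∈ M) +
          ib (v ∉ M ∧ dg H Z v = 5 ∧ dg H R v = 0)) := by
        refine sum_le_sum fun v hv => ?_
        have h5 := hb v hv
        by_cases hvM : v ∈ M
        · rw [ib_pos hvM]
          omega
        · rw [ib_neg hvM]
          by_cases h6 : dg H Z v = 5 ∧ dg H R v = 0
          · rw [ib_pos ⟨hvM, h6⟩]
            omega
          · omega
      rw [sum_add_distrib, sum_add_distrib, sum_add_distrib, sum_add_distrib, ← mul_sum, ← mul_sum,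
        ← hMZ, ← hYc, ← dd_sum, ← dd_sum, sum_const, smul_eq_mul] at h4
      omega
    by_cases hYe : Y.card = 0
    · have hM0 : ∀ v ∈ Z, v ∉ M := by
        intro v hv hvM
        have h4 : 0 < (M ∩ Z).card := card_pos.2 ⟨v, mem_inter.2 ⟨hvM, hv⟩⟩
        omega
      have h6 : ∀ v ∈ Z, 6 ≤ dg H Z v + 2 * dg H R v ∧
          (dg H Z v + 2 * dg H R v = 6 → dg H Z v = 6) := by
        intro v hv
        have h5 := hb v hv
        by_cases h7 : dg H Z v + dg H R v = 5
        · have h8 : dg H Z v = 0 := by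
            by_contra h9
            obtain ⟨x, hx, hvx⟩ := dg_pos (H := H) (A := Z) (v := v) (by omega)
            exact hM0 x hx (hc v hv (hM0 v hv) h7 x hx hvx)
          omega
        · omega
      have h7 : ∑ _v ∈ Z, 6 = ∑ v ∈ Z, (dg H Z v + 2 * dg H R v) := by
        apply le_antisymm
        · exact sum_le_sum fun v hv => (h6 v hv).1
        · rw [sum_add_distrib, ← mul_sum, ← dd_sum, ← dd_sum, sum_const, smul_eq_mul]
          omega
      have h8 := (sum_eq_sum_iff_of_le fun v hv => (h6 v hv).1).1 h7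
      have h9 : dd H Z Z = 6 * Z.card := by
        rw [dd_sum, sum_congr rfl fun v hv => (h6 v hv).2 (h8 v hv).symm, sum_const, smul_eq_mul,
          mul_comm]
      have h10 := h3 Z hZne
      omega
    · have hdis : Disjoint Y (M ∩ Z) := by
        rw [disjoint_left]
        intro v hv hv2
        exact (mem_filter.1 hv).2.1 (mem_inter.1 hv2).1
      have h4 : dd H Y (M ∩ Z) = 5 * Y.card := by
        rw [dd_sum, sum_congr rfl (g := fun _ => 5) fun v hv => ?_, sum_const, smul_eq_mul,
          mul_comm]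
        obtain ⟨hvZ, hvM, h5, h6⟩ := mem_filter.1 hv
        rw [← h5]
        refine dg_congr fun x hvx => ⟨fun h7 => (mem_inter.1 h7).2, fun h7 => mem_inter.2
          ⟨hc v hvZ hvM (by omega) x h7 hvx, h7⟩⟩
      have h5 := h2 Y (M ∩ Z) hdis
      omega

end Pool.Agent.W986.MGL
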