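import Pool.Agent.W986.Ring
import Pool.Agent.W986.L2

/-!
# Planar graphs with marked vertices

A planar graph has a colouring with four colours in which every vertex has at most one neighbour of
its own colour and the marked vertices have none, if a counting condition holds.
-/

set_option autoImplicit false

open Finset

namespace Pool.Agent.W986

open Pool.Agent.DC76 Pool.Agent.W986.BT

section levels

variable {V : Type} {k : ℕ}

/-- Every vertex has at most one neighbour of its own colour, and a vertex of `U` has none. -/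
def Good (G : SimpleGraph V) (U : Set V) (c : V → Fin k) : Prop :=
  Defective G 1 c ∧ ∀ u ∈ U, ∀ w, G.Adj u w → c w ≠ c u

/-- A colouring of `G - v` with this property. -/
def MState (G : SimpleGraph V) (U : Set V) (v : V) (φ : V → Fin k) : Prop :=
  State G v φ ∧ ∀ u ∈ U, u ∉ sat G v φ

/-- The least number of saturated vertices of such a colouring. -/
noncomputable def mlev (k : ℕ) (G : SimpleGraph V) (U : Set V) (v : V) : ℕ :=
  sInf {m | ∃ φ : V → Fin k, MState G U v φ ∧ (sat G v φ).ncard = m}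

/-- The best colourings of `G - v`. -/
def MOpt (G : SimpleGraph V) (U : Set V) (v : V) (φ : V → Fin k) : Prop :=
  MState G U v φ ∧ (sat G v φ).ncard = mlev k G U v

theorem mlev_le {G : SimpleGraph V} {U : Set V} {v : V} {φ : V → Fin k} (h : MState G U v φ) :
    mlev k G U v ≤ (sat G v φ).ncard :=
  Nat.sInf_le ⟨φ, h, rfl⟩

theorem exists_mopt {G : SimpleGraph V} {U : Set V} {v : V} (h : ∃ φ : V → Fin k, MState G U v φ) :
    ∃ φ : V → Fin k, MOpt G U v φ := by
  obtain ⟨φ, hφ⟩ := h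
  have h1 : {m | ∃ φ : V → Fin k, MState G U v φ ∧ (sat G v φ).ncard = m}.Nonempty :=
    ⟨_, φ, hφ, rfl⟩
  obtain ⟨ψ, h2, h3⟩ := Nat.sInf_mem h1
  exact ⟨ψ, h2, h3⟩

theorem MOpt.swap {G : SimpleGraph V} {U : Set V} {v : V} {φ : V → Fin k} (h : MOpt G U v φ)
    {i j : Fin k} {X : Set V} (hX : KClosed G v φ i j X) : MOpt G U v (kswap φ i j X) :=
  ⟨⟨hX.state h.1.1, fun u hu => by rw [hX.sat_eq]; exact h.1.2 u hu⟩, by rw [hX.sat_eq, h.2]⟩

/-- In a graph without a good colouring all the classes at `v` are non-empty. -/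
theorem MState.nc_nonempty [Finite V] {G : SimpleGraph V} {U : Set V}
    (hG : ∀ c : V → Fin k, ¬ Good G U c) {v : V} {φ : V → Fin k} (h : MState G U v φ)
    (i : Fin k) : (nc G v φ i).Nonempty := by
  classical
  by_contra hcon
  have hno : ∀ w, G.Adj v w → φ w ≠ i := fun w hw hc => hcon ⟨w, hw, hc⟩
  -- the monochromatic edges of the new colouring avoid `v`
  have key : ∀ x y, G.Adj x y → Function.update φ v i y = Function.update φ v i x →
      x ≠ v ∧ y ≠ v ∧ φ y = φ x := by
    intro x y hxy hc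
    by_cases hx : x = v
    · subst hx
      rw [Function.update_self, Function.update_of_ne hxy.ne'] at hc
      exact absurd hc (hno y hxy)
    · by_cases hy : y = v
      · subst hy
        rw [Function.update_self, Function.update_of_ne hxy.ne] at hc
        exact absurd hc.symm (hno x hxy.symm)
      · rw [Function.update_of_ne hx, Function.update_of_ne hy] at hc
        exact ⟨hx, hy, hc⟩
  refine hG (Function.update φ v i) ⟨?_, ?_⟩
  · intro u
    apply ncard_le_one_of
    rintro x ⟨hx, hcx⟩ y ⟨hy, hcy⟩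
    obtain ⟨h1, h2, h3⟩ := key u x hx hcx
    obtain ⟨_, h4, h5⟩ := key u y hy hcy
    exact h.1.two h1 h2 h4 hx hy h3 h5
  · intro u hu w hw hc
    obtain ⟨h1, h2, h3⟩ := key u w hw hc
    exact h.2 u hu ⟨h1, w, h2, hw, h3⟩

/-- In a graph without a good colouring the only neighbour of an unmarked vertex `v` of some colour
is marked or saturated. -/
theorem MState.single_sat [Finite V] {G : SimpleGraph V} {U : Set V}
    (hG : ∀ c : V → Fin k, ¬ Good G U c) {v : V} {φ : V → Fin k} (h : MState G U v φ)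
    {i : Fin k} {u : V} (hu : nc G v φ i = {u}) (hvU : v ∉ U) (huU : u ∉ U) : u ∈ sat G v φ := by
  classical
  have hu1 : G.Adj v u ∧ φ u = i := by
    have : u ∈ nc G v φ i := by rw [hu]; rfl
    exact this
  have hu2 : ∀ w, G.Adj v w → φ w = i → w = u := by
    intro w h1 h2
    have : w ∈ nc G v φ i := ⟨h1, h2⟩
    rw [hu] at this
    exact this
  by_contra hcon
  have hno : ∀ w, w ≠ v → G.Adj u w → φ w ≠ φ u := fun w h1 h2 h3 =>
    hcon ⟨hu1.1.ne', w, h1, h2, h3⟩
  have key : ∀ x y, G.Adj x y → Function.update φ v i y = Function.update φ v i x →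
      (x = v ∧ y = u) ∨ (x = u ∧ y = v) ∨
        (x ≠ v ∧ y ≠ v ∧ x ≠ u ∧ y ≠ u ∧ φ y = φ x) := by
    intro x y hxy hc
    by_cases hx : x = v
    · subst hx
      rw [Function.update_self, Function.update_of_ne hxy.ne'] at hc
      exact Or.inl ⟨rfl, hu2 y hxy hc⟩
    · by_cases hy : y = v
      · subst hy
        rw [Function.update_self, Function.update_of_ne hxy.ne] at hc
        exact Or.inr (Or.inl ⟨hu2 x hxy.symm hc.symm, rfl⟩)
      · rw [Function.update_of_ne hx, Function.update_of_ne hy] at hc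
        refine Or.inr (Or.inr ⟨hx, hy, ?_, ?_, hc⟩)
        · rintro rfl
          exact hno y hy hxy hc
        · rintro rfl
          exact hno x hx hxy.symm hc.symm
  refine hG (Function.update φ v i) ⟨?_, ?_⟩
  · intro x
    apply ncard_le_one_of
    rintro y ⟨hy, hcy⟩ z ⟨hz, hcz⟩
    rcases key x y hy hcy with ⟨h1, h2⟩ | ⟨h1, h2⟩ | ⟨h1, h2, h3, h4, h5⟩
    · rcases key x z hz hcz with ⟨h6, h7⟩ | ⟨h6, h7⟩ | ⟨h6, _⟩
      · rw [h2, h7]
      · exact absurd (h1.symm.trans h6) hu1.1.ne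
      · exact absurd h1 h6
    · rcases key x z hz hcz with ⟨h6, h7⟩ | ⟨h6, h7⟩ | ⟨_, _, h6, _⟩
      · exact absurd (h6.symm.trans h1) hu1.1.ne
      · rw [h2, h7]
      · exact absurd h1 h6
    · rcases key x z hz hcz with ⟨h6, _⟩ | ⟨h6, _⟩ | ⟨h6, h7, _, _, h8⟩
      · exact absurd h6 h1
      · exact absurd h6 h3
      · exact h.1.two h1 h2 h7 hy hz h5 h8
  · intro x hx y hxy hc
    rcases key x y hxy hc with ⟨h1, _⟩ | ⟨h1, _⟩ | ⟨h1, h2, _, _, h5⟩
    · exact hvU (h1 ▸ hx)
    · exact huU (h1 ▸ hx)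
    · exact h.2 x hx ⟨h1, y, h2, hxy, h5⟩

/-- The hole moves from `v` to the only neighbour `u` of `v` of some colour. -/
theorem MState.move [Finite V] {G : SimpleGraph V} {U : Set V} {v : V} {φ : V → Fin k}
    (h : MState G U v φ) {i : Fin k} {u : V} (hu : nc G v φ i = {u}) :
    ∃ ψ : V → Fin k, MState G U u ψ ∧ (sat G u ψ).ncard ≤ (sat G v φ).ncard ∧
      (u ∈ sat G v φ → (sat G u ψ).ncard + 2 = (sat G v φ).ncard) := by
  classical
  have hu2 : ∀ w, G.Adj v w → φ w = i → w = u := by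
    intro w h1 h2
    have : w ∈ nc G v φ i := ⟨h1, h2⟩
    rw [hu] at this
    exact this
  have key : ∀ x y, x ≠ u → y ≠ u → G.Adj x y →
      Function.update φ v i y = Function.update φ v i x → x ≠ v ∧ y ≠ v ∧ φ y = φ x := by
    intro x y hx hy hxy hc
    by_cases hxv : x = v
    · subst hxv
      rw [Function.update_self, Function.update_of_ne hxy.ne'] at hc
      exact absurd (hu2 y hxy hc) hy
    · by_cases hyv : y = v
      · subst hyv
        rw [Function.update_self, Function.update_of_ne hxy.ne] at hc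
        exact absurd (hu2 x hxy.symm hc.symm) hx
      · rw [Function.update_of_ne hxv, Function.update_of_ne hyv] at hc
        exact ⟨hxv, hyv, hc⟩
  have hsub : sat G u (Function.update φ v i) ⊆ sat G v φ := by
    rintro x ⟨hx, y, hy, hxy, hc⟩
    obtain ⟨h1, h2, h3⟩ := key x y hx hy hxy hc
    exact ⟨h1, y, h2, hxy, h3⟩
  refine ⟨Function.update φ v i, ⟨?_, ?_⟩, Set.ncard_le_ncard hsub (Set.toFinite _), ?_⟩
  · intro x hx
    apply ncard_le_one_of
    rintro y ⟨hy, hxy, hcy⟩ z ⟨hz, hxz, hcz⟩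
    obtain ⟨h1, h2, h3⟩ := key x y hx hy hxy hcy
    obtain ⟨_, h4, h5⟩ := key x z hx hz hxz hcz
    exact h.1.two h1 h2 h4 hxy hxz h3 h5
  · intro x hx hs
    exact h.2 x hx (hsub hs)
  · intro hs
    obtain ⟨ψ, _, h2, h3, h4⟩ := hole_move h.1 hu hs
    have h5 : ψ = Function.update φ v i := by
      funext x
      by_cases hx : x = v
      · rw [hx, Function.update_self, h4]
      · rw [Function.update_of_ne hx, h3 x hx]
    rw [← h5]
    exact h2

/-- `G` has no good colouring, but `G - v` has one for every vertex `v`. -/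
def MCritical (k : ℕ) (G : SimpleGraph V) (U : Set V) : Prop :=
  (∀ c : V → Fin k, ¬ Good G U c) ∧ ∀ v, ∃ φ : V → Fin k, MState G U v φ

end levels

/-- A graph without a good colouring contains a critical graph. -/
theorem exists_mcritical {k : ℕ} (hk : 0 < k) {V : Type} [Finite V] (G : SimpleGraph V)
    (U : Set V) (hno : ∀ c : V → Fin k, ¬ Good G U c) :
    ∃ (W : Type) (_ : Finite W) (f : W → V), Function.Injective f ∧
      MCritical k (G.comap f) (f ⁻¹' U) := by
  classical
  have key : ∀ n, ∀ (W : Type) (_ : Finite W) (f : W → V), Function.Injective f →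
      Nat.card W = n → (∀ c : W → Fin k, ¬ Good (G.comap f) (f ⁻¹' U) c) →
      ∃ (W : Type) (_ : Finite W) (f : W → V), Function.Injective f ∧
        MCritical k (G.comap f) (f ⁻¹' U) := by
    intro n
    induction n using Nat.strong_induction_on with
    | _ n ih =>
      intro W _ f hf hn hno
      by_cases hcrit : ∀ v, ∃ φ : W → Fin k, MState (G.comap f) (f ⁻¹' U) v φ
      · exact ⟨W, inferInstance, f, hf, hno, hcrit⟩
      · push Not at hcrit
        obtain ⟨v, hv⟩ := hcrit
        have hcard : Nat.card {x : W // x ≠ v} < n := by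
          rw [← hn]
          haveI : Fintype W := Fintype.ofFinite W
          rw [Nat.card_eq_fintype_card, Nat.card_eq_fintype_card]
          exact Fintype.card_subtype_lt (x := v) (by simp)
        refine ih _ hcard {x : W // x ≠ v} inferInstance (f ∘ Subtype.val)
          (hf.comp Subtype.val_injective) rfl ?_
        rintro c ⟨hc1, hc2⟩
        refine hv (fun x => if h : x ≠ v then c ⟨x, h⟩ else ⟨0, hk⟩) ⟨?_, ?_⟩
        · intro u hu
          refine le_trans ?_ (hc1 ⟨u, hu⟩)
          rw [← Set.ncard_image_of_injective _ (Subtype.val_injective (p := fun x => x ≠ v))]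
          refine Set.ncard_le_ncard ?_ (Set.toFinite _)
          rintro w ⟨hw, hadj, hcol⟩
          beta_reduce at hcol
          rw [dif_pos hw, dif_pos hu] at hcol
          exact ⟨⟨w, hw⟩, ⟨hadj, hcol⟩, rfl⟩
        · rintro u hu ⟨huv, w, hw, hadj, hcol⟩
          beta_reduce at hcol
          rw [dif_pos hw, dif_pos huv] at hcol
          exact hc2 ⟨u, huv⟩ hu ⟨w, hw⟩ hadj hcol
  exact key _ V inferInstance id Function.injective_id rfl hno

section count

variable {V : Type} [Fintype V] [DecidableEq V] (G : SimpleGraph V)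

/-- The sum over the ordered pairs. -/
theorem mark_count (U : Set V) [DecidablePred (· ∈ U)] (O : V → Set V)
    (hO : ∀ v, ∀ u ∈ O v, G.Adj v u)
    (hOO : ∀ v u, v ∉ U → u ∉ U → u ∈ O v → v ∉ O u) (T : Finset V)
    (h10 : ∀ v ∈ T, 10 ≤ dg G v + (O v).ncard) :
    10 * T.card + ein G (T.filter (· ∉ U)) + 2 * ein G Tᶜ ≤ 2 * ein G T + 2 * ein G univ := by
  classical
  let a : V → V → ℤ := fun v u => if G.Adj v u then 1 else 0
  let o : V → V → ℤ := fun v u => if u ∈ O v then 1 else 0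
  have hE : ∀ X : Finset V, (2 * ein G X : ℤ) = ∑ v ∈ X, ∑ u ∈ X, a v u := by
    intro X
    have h1 := E2_eq_ein G X
    have h2 : (E2 G X : ℤ) = ∑ v ∈ X, ∑ u ∈ X, a v u := by
      unfold E2
      push_cast
      refine sum_congr rfl fun v _ => ?_
      rw [card_filter]
      push_cast
      rfl
    rw [← h2, h1]
    push_cast
    rfl
  have hdg : ∀ v, (dg G v : ℤ) = ∑ u, a v u := by
    intro v
    unfold dg
    rw [ncard_eq_sum]
    push_cast
    rfl
  have hOc : ∀ v, ((O v).ncard : ℤ) = ∑ u, o v u := by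
    intro v
    have h1 : (O v).ncard = {u | u ∈ O v}.ncard := rfl
    rw [h1, ncard_eq_sum]
    push_cast
    rfl
  have hsymm : ∀ v u, a v u = a u v := by
    intro v u
    change (if G.Adj v u then (1 : ℤ) else 0) = if G.Adj u v then 1 else 0
    simp only [G.adj_comm v u]
  -- pointwise bounds
  have hb1 : ∀ v u, o v u ≤ a v u := by
    intro v u
    change (if u ∈ O v then (1 : ℤ) else 0) ≤ if G.Adj v u then 1 else 0
    by_cases h : u ∈ O v
    · rw [if_pos h, if_pos (hO v u h)]
    · rw [if_neg h]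
      split_ifs <;> norm_num
  have ha0 : ∀ v u, 0 ≤ a v u := by
    intro v u
    change (0 : ℤ) ≤ if G.Adj v u then 1 else 0
    split_ifs <;> norm_num
  have hb2 : ∀ v u, v ∉ U → u ∉ U → o v u + o u v ≤ a v u := by
    intro v u hv hu
    by_cases h : u ∈ O v
    · have h1 : o v u = 1 := if_pos h
      have h2 : o u v = 0 := if_neg (hOO v u hv hu h)
      have h3 : a v u = 1 := if_pos (hO v u h)
      rw [h1, h2, h3]
      norm_num
    · have h1 : o v u = 0 := if_neg h
      rw [h1, zero_add, hsymm]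
      exact hb1 u v
  -- the sum of the hypothesis
  have hS1 : (10 * T.card : ℤ) ≤ ∑ v ∈ T, ∑ u, (a v u + o v u) := by
    have h1 : ∑ _v ∈ T, (10 : ℤ) ≤ ∑ v ∈ T, ((dg G v : ℤ) + ((O v).ncard : ℤ)) :=
      sum_le_sum fun v hv => by exact_mod_cast h10 v hv
    rw [sum_const, nsmul_eq_mul] at h1
    have h2 : ∑ v ∈ T, ((dg G v : ℤ) + ((O v).ncard : ℤ)) = ∑ v ∈ T, ∑ u, (a v u + o v u) := by
      refine sum_congr rfl fun v _ => ?_
      rw [hdg, hOc, sum_add_distrib]
    linarith
  have hS2 : ∑ v ∈ T, ∑ u, (a v u + o v u) =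
      ∑ v ∈ T, ∑ u ∈ T, (a v u + o v u) + ∑ v ∈ T, ∑ u ∈ Tᶜ, (a v u + o v u) := by
    rw [← sum_add_distrib]
    refine sum_congr rfl fun v _ => ?_
    rw [sum_add_sum_compl]
  have hS3 : ∑ v ∈ T, ∑ u ∈ Tᶜ, (a v u + o v u) ≤ 2 * ∑ v ∈ T, ∑ u ∈ Tᶜ, a v u := by
    rw [mul_sum]
    refine sum_le_sum fun v _ => ?_
    rw [mul_sum]
    refine sum_le_sum fun u _ => ?_
    have := hb1 v u
    linarith
  have hS4 : 2 * ∑ v ∈ T, ∑ u ∈ T, (a v u + o v u) =
      ∑ v ∈ T, ∑ u ∈ T, (2 * a v u + (o v u + o u v)) := by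
    have h1 : ∑ v ∈ T, ∑ u ∈ T, o u v = ∑ v ∈ T, ∑ u ∈ T, o v u := sum_comm
    simp only [sum_add_distrib, ← mul_sum]
    rw [h1]
    ring
  have hS5 : ∑ v ∈ T, ∑ u ∈ T, (2 * a v u + (o v u + o u v)) ≤
      ∑ v ∈ T, ∑ u ∈ T, 4 * a v u -
        ∑ v ∈ T.filter (· ∉ U), ∑ u ∈ T.filter (· ∉ U), a v u := by
    have h1 : ∑ v ∈ T.filter (· ∉ U), ∑ u ∈ T.filter (· ∉ U), a v u =
        ∑ v ∈ T, ∑ u ∈ T, if v ∉ U ∧ u ∉ U then a v u else 0 := by
      rw [sum_filter]
      refine sum_congr rfl fun v _ => ?_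
      by_cases hv : v ∉ U
      · rw [if_pos hv, sum_filter]
        refine sum_congr rfl fun u _ => ?_
        simp only [hv, not_false_eq_true, true_and]
      · rw [if_neg hv]
        symm
        apply sum_eq_zero
        intro u _
        rw [if_neg fun h => hv h.1]
    rw [h1, ← sum_sub_distrib]
    refine sum_le_sum fun v _ => ?_
    rw [← sum_sub_distrib]
    refine sum_le_sum fun u _ => ?_
    by_cases h : v ∉ U ∧ u ∉ U
    · rw [if_pos h]
      have := hb2 v u h.1 h.2
      linarith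
    · rw [if_neg h]
      have h2 := hb1 v u
      have h3 := hb1 u v
      have h4 := hsymm v u
      linarith
  have hS6 : ∑ v ∈ T, ∑ u ∈ Tᶜ, a v u = ∑ v ∈ Tᶜ, ∑ u ∈ T, a v u := by
    rw [sum_comm]
    refine sum_congr rfl fun v _ => sum_congr rfl fun u _ => hsymm _ _
  have hS7 : ∑ v, ∑ u, a v u = ∑ v ∈ T, ∑ u ∈ T, a v u + ∑ v ∈ T, ∑ u ∈ Tᶜ, a v u +
      (∑ v ∈ Tᶜ, ∑ u ∈ T, a v u + ∑ v ∈ Tᶜ, ∑ u ∈ Tᶜ, a v u) := by
    rw [← sum_add_sum_compl T fun v => ∑ u, a v u, ← sum_add_distrib, ← sum_add_distrib]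
    congr 1
    · refine sum_congr rfl fun v _ => ?_
      rw [sum_add_sum_compl]
    · refine sum_congr rfl fun v _ => ?_
      rw [sum_add_sum_compl]
  have hE1 := hE T
  have hE2 := hE (T.filter (· ∉ U))
  have hE3 := hE Tᶜ
  have hE4 := hE univ
  have h4 : ∑ v ∈ T, ∑ u ∈ T, 4 * a v u = 4 * ∑ v ∈ T, ∑ u ∈ T, a v u := by
    rw [mul_sum]
    refine sum_congr rfl fun v _ => ?_
    rw [mul_sum]
  have hfin : (10 * T.card + ein G (T.filter (· ∉ U)) + 2 * ein G Tᶜ : ℤ) ≤
      2 * ein G T + 2 * ein G univ := by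
    linarith
  exact_mod_cast hfin

end count

/-- Planar graphs with marked vertices. -/
theorem planar_marks {V : Type} [Finite V] {G : SimpleGraph V} {o : Prop} (hG : Embeds o 2 G)
    (U : Set V) [DecidablePred (· ∈ U)] [DecidableEq V]
    (hcount : ∀ W : Finset V, W.Nonempty → ∃ T ⊆ W,
      2 * ein G T + 2 * ein G W < 10 * T.card + ein G (T.filter (· ∉ U)) + 2 * ein G (W \ T)) :
    ∃ c : V → Fin 4, Good G U c := by
  classical
  by_contra hcon
  push Not at hcon
  obtain ⟨W, _, f, hf, hcrit⟩ := exists_mcritical (by norm_num) G U hcon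
  have : Fintype W := Fintype.ofFinite W
  set K := G.comap f with hK
  set U' := f ⁻¹' U with hU'
  have hKe : Embeds o 2 K := Embeds.comap G f hf hG
  have hne : (univ : Finset W).Nonempty := by
    by_contra hemp
    rw [not_nonempty_iff_eq_empty, univ_eq_empty_iff] at hemp
    exact hcrit.1 (fun x => hemp.elim x) ⟨fun x => hemp.elim x, fun x => hemp.elim x⟩
  let O : W → Set W := fun v => {u | ∃ φ ∈ {φ : W → Fin 4 | MOpt K U' v φ}, ∃ i, nc K v φ i = {u}}
  have h10 : ∀ v, 10 ≤ dg K v + (O v).ncard := by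
    intro v
    refine ten hKe {φ : W → Fin 4 | MOpt K U' v φ} ?_ ?_ ?_
    · exact exists_mopt (hcrit.2 v)
    · intro φ hφ i j X hX
      exact MOpt.swap hφ hX
    · intro φ hφ i
      exact MState.nc_nonempty hcrit.1 hφ.1 i
  have hO : ∀ v, ∀ u ∈ O v, K.Adj v u := by
    rintro v u ⟨φ, _, i, hu⟩
    have h1 : u ∈ nc K v φ i := by
      rw [hu]
      rfl
    exact h1.1
  have hlt : ∀ v u, v ∉ U' → u ∉ U' → u ∈ O v → mlev 4 K U' u < mlev 4 K U' v := by
    rintro v u hv hu ⟨φ, hφ, i, hi⟩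
    obtain ⟨ψ, h1, _, h2⟩ := MState.move hφ.1 hi
    have h3 := h2 (MState.single_sat hcrit.1 hφ.1 hi hv hu)
    have h4 := mlev_le h1
    have h5 : (sat K v φ).ncard = mlev 4 K U' v := hφ.2
    omega
  have hOO : ∀ v u, v ∉ U' → u ∉ U' → u ∈ O v → v ∉ O u := by
    intro v u hv hu h1 h2
    have h3 := hlt v u hv hu h1
    have h4 := hlt u v hu hv h2
    omega
  obtain ⟨T, hT, hlt⟩ := hcount ((univ : Finset W).map ⟨f, hf⟩) (by simpa using hne)
  -- the corresponding set of vertices of the critical graph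
  let T' : Finset W := univ.filter fun x => f x ∈ T
  have hT' : T'.map ⟨f, hf⟩ = T := by
    ext x
    simp only [T', mem_map, mem_filter, mem_univ, true_and, Function.Embedding.coeFn_mk]
    constructor
    · rintro ⟨y, hy, rfl⟩
      exact hy
    · intro hx
      obtain ⟨y, _, hy⟩ := mem_map.1 (hT hx)
      change f y = x at hy
      exact ⟨y, by rw [hy]; exact hx, hy⟩
  have hT'' : (T'.filter (· ∉ U')).map ⟨f, hf⟩ = T.filter (· ∉ U) := by
    ext x
    simp only [mem_map, mem_filter, Function.Embedding.coeFn_mk]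
    constructor
    · rintro ⟨y, ⟨hy1, hy2⟩, rfl⟩
      refine ⟨?_, hy2⟩
      rw [← hT']
      exact mem_map.2 ⟨y, hy1, rfl⟩
    · rintro ⟨hx1, hx2⟩
      rw [← hT'] at hx1
      obtain ⟨y, hy1, hy2⟩ := mem_map.1 hx1
      change f y = x at hy2
      refine ⟨y, ⟨hy1, ?_⟩, hy2⟩
      intro h
      apply hx2
      rw [← hy2]
      exact h
  have hTc : T'ᶜ.map ⟨f, hf⟩ = (univ : Finset W).map ⟨f, hf⟩ \ T := by
    ext x
    simp only [mem_map, mem_compl, mem_sdiff, mem_univ, true_and, Function.Embedding.coeFn_mk]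
    constructor
    · rintro ⟨y, hy, rfl⟩
      refine ⟨⟨y, rfl⟩, ?_⟩
      intro h
      exact hy (mem_filter.2 ⟨mem_univ _, h⟩)
    · rintro ⟨⟨y, rfl⟩, hy⟩
      exact ⟨y, fun h => hy (mem_filter.1 h).2, rfl⟩
  have h := mark_count K U' O hO hOO T' (fun v _ => h10 v)
  have e1 : ein K T' = ein G T := by
    rw [hK, ein_comap G f hf, hT']
  have e2 : ein K (T'.filter (· ∉ U')) = ein G (T.filter (· ∉ U)) := by
    rw [hK, ein_comap G f hf, hT'']
  have e3 : ein K T'ᶜ = ein G ((univ : Finset W).map ⟨f, hf⟩ \ T) := by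
    rw [hK, ein_comap G f hf, hTc]
  have e4 : ein K univ = ein G ((univ : Finset W).map ⟨f, hf⟩) := by
    rw [hK, ein_comap G f hf]
  have e5 : T'.card = T.card := by
    rw [← hT', card_map]
  rw [e1, e2, e3, e4, e5] at h
  omega

end Pool.Agent.W986
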