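import Pool.Agent.W986.MinPair

/-!
# In a pair of minimal cost the live edges at a vertex are consecutive
-/

set_option autoImplicit false

open Finset

namespace Pool.Agent.W986

open Pool.Agent.DC76

section rot

variable {V : Type} [DecidableEq V] {G : SimpleGraph V} {F : Type} [Fintype F]

theorem adj_of_tri {w : ℕ → V} (h01 : G.Adj (w 0) (w 1)) (h12 : G.Adj (w 1) (w 2))
    (h20 : G.Adj (w 2) (w 0)) (h3 : w 3 = w 0) {v a b : V} (hab : a ≠ b)
    (ha : trav 3 w v a ≠ 0) (hb : trav 3 w v b ≠ 0) : G.Adj a b := by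
  unfold trav at ha hb
  obtain ⟨t, ht⟩ := card_ne_zero.1 ha
  obtain ⟨s, hs⟩ := card_ne_zero.1 hb
  rw [mem_filter, mem_range] at ht hs
  obtain ⟨ht1, ht2⟩ := ht
  obtain ⟨hs1, hs2⟩ := hs
  have key : ∀ t, t < 3 → ∀ v a, (w t = v ∧ w (t + 1) = a ∨ w t = a ∧ w (t + 1) = v) →
      (v = w 0 ∧ a = w 1) ∨ (v = w 1 ∧ a = w 0) ∨ (v = w 1 ∧ a = w 2) ∨ (v = w 2 ∧ a = w 1) ∨
      (v = w 2 ∧ a = w 0) ∨ (v = w 0 ∧ a = w 2) := by
    intro t ht v a h
    interval_cases t
    · rcases h with ⟨h1, h2⟩ | ⟨h1, h2⟩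
      · exact Or.inl ⟨h1.symm, h2.symm⟩
      · exact Or.inr (Or.inl ⟨h2.symm, h1.symm⟩)
    · rcases h with ⟨h1, h2⟩ | ⟨h1, h2⟩
      · exact Or.inr (Or.inr (Or.inl ⟨h1.symm, h2.symm⟩))
      · exact Or.inr (Or.inr (Or.inr (Or.inl ⟨h2.symm, h1.symm⟩)))
    · rcases h with ⟨h1, h2⟩ | ⟨h1, h2⟩
      · exact Or.inr (Or.inr (Or.inr (Or.inr (Or.inl ⟨h1.symm, h2.symm.trans h3⟩))))
      · exact Or.inr (Or.inr (Or.inr (Or.inr (Or.inr ⟨h2.symm.trans h3, h1.symm⟩))))
  have n01 := h01.ne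
  have n12 := h12.ne
  have n20 := h20.ne
  rcases key t ht1 v a ht2 with ⟨p1, p2⟩ | ⟨p1, p2⟩ | ⟨p1, p2⟩ | ⟨p1, p2⟩ | ⟨p1, p2⟩ | ⟨p1, p2⟩ <;>
  rcases key s hs1 v b hs2 with ⟨q1, q2⟩ | ⟨q1, q2⟩ | ⟨q1, q2⟩ | ⟨q1, q2⟩ | ⟨q1, q2⟩ | ⟨q1, q2⟩ <;>
  first
  | exact absurd (p2.trans q2.symm) hab
  | exact absurd (p1.symm.trans q1) n01
  | exact absurd (p1.symm.trans q1) n12
  | exact absurd (p1.symm.trans q1) n20
  | exact absurd (q1.symm.trans p1) n01
  | exact absurd (q1.symm.trans p1) n12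
  | exact absurd (q1.symm.trans p1) n20
  | (rw [p2, q2]; exact h01)
  | (rw [p2, q2]; exact h12)
  | (rw [p2, q2]; exact h20)
  | (rw [p2, q2]; exact h01.symm)
  | (rw [p2, q2]; exact h12.symm)
  | (rw [p2, q2]; exact h20.symm)

/-- Consecutive neighbours of a vertex of a triangulation are adjacent. -/
theorem fan_rot_tri {M : FacialWalks G F} (hlen : ∀ f, M.len f = 3) {v : V} {d : ℕ} {ν : ℕ → V}
    {fc : ℕ → F} (h : IsRot M v d ν fc) (i : ℕ) : G.Adj (ν i) (ν (i + 1)) := by
  have h1 : At M (fc i) v (ν (i + 1)) := h.at_left i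
  have h2 : At M (fc i) v (ν i) := by
    have h3 := h.at_right (i + (d - 1))
    have hd := h.three
    have h4 : i + (d - 1) + 1 = i + d := by omega
    rw [h4, h.perf, h.per] at h3
    exact h3
  have h3 : ν i ≠ ν (i + 1) := h.ne (by omega) (by have := h.three; omega)
  have h01 := M.adj (fc i) 0 (by rw [hlen]; omega)
  have h12 := M.adj (fc i) 1 (by rw [hlen]; omega)
  have h23 := M.adj (fc i) 2 (by rw [hlen]; omega)
  have hc := M.closed (fc i)
  rw [hlen] at hc
  unfold At at h1 h2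
  rw [hlen] at h1 h2
  have h20 : G.Adj (M.walk (fc i) 2) (M.walk (fc i) 0) := by
    rw [← hc]
    exact h23
  exact adj_of_tri h01 h12 h20 hc h3 h2 h1

end rot

section objects

variable {V : Type} [Fintype V] [DecidableEq V] {G : SimpleGraph V} {F : Type} [Fintype F]

/-- An edge set with boundary `a, b` inside a component. -/
theorem Rch.path {X : V → V → ZMod 2} (hX : ∀ x y, X x y = X y x) {T : Finset V} {a b : V}
    (h : Rch G X T a b) : ∃ J : V → V → ZMod 2, (∀ u v, J u v = J v u) ∧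
      (∀ u v, J u v ≠ 0 → Hr G X T u v ∧ Rch G X T a u ∧ Rch G X T a v) ∧
      ∀ v, ∑ w, J v w = (if v = a then 1 else 0) + (if v = b then 1 else 0) := by
  refine join_path (H := fun u v => Hr G X T u v ∧ Rch G X T a u ∧ Rch G X T a v)
    (fun u v h => ⟨⟨h.1.1.symm, h.1.2.2.1, h.1.2.1, by rw [hX]; exact h.1.2.2.2⟩, h.2.2, h.2.1⟩)
    (fun u h => G.loopless.irrefl u h.1.1) ?_
  unfold Rch at h
  induction h with
  | refl => exact Relation.ReflTransGen.refl
  | tail h1 h2 ih => exact ih.tail ⟨h2, h1, h1.tail h2⟩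

/-- The vertex `u` belongs to the component of `r`, or it is in `S` and both its lifts are
adjacent to the first copy of this component; and there is an odd cycle in this component
and `u`. -/
structure Obj (G : SimpleGraph V) (X : V → V → ZMod 2) (T S : Finset V) (u r : V) : Prop where
  off : r ∉ T
  cyc : ∃ z ∈ Z G Set.univ, ev X z = 1 ∧ ∀ a b, z a b ≠ 0 → Rch G X T r a ∨ a = u
  mem : u ∉ S → Rch G X T r u
  att : u ∈ S → ∀ c : ZMod 2, ∃ v, Rch G X T r v ∧ G.Adj u v ∧ c + X u v = 0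

theorem MinPair.obj_live {M : FacialWalks G F} {X : V → V → ZMod 2} {S : Finset V}
    (h : MinPair M X S) {x : V} (hx : x ∉ S) (h2 : (fan G X S x).card = 2) {u y : V}
    (hu : u ∉ insert x S) (hy : y ∉ insert x S) (huy : G.Adj u y) (hX : X u y ≠ 0) :
    Obj G X (insert x S) S u u := by
  have hcost := h.cost_insert hx h2
  have h3 : Rch G X (insert x S) u y := h.no_leave (T := insert x S) (by omega)
    Relation.ReflTransGen.refl huy hu hy
  obtain ⟨J, hJ1, hJ2, hJ3⟩ := h3.path h.coc.symm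
  refine ⟨hu, ⟨J + ed u y, ⟨fun a b => ?_, fun a b hab => ⟨?_, Set.mem_univ _, Set.mem_univ _⟩,
    fun a => ?_⟩, ?_, fun a b hab => ?_⟩, fun _ => Relation.ReflTransGen.refl,
    fun h4 => absurd (mem_insert_of_mem h4) hu⟩
  · simp only [Pi.add_apply]
    rw [hJ1 a b, ed_symm u y a b]
  · by_contra hcon
    have h4 : J a b = 0 := by
      by_contra h5
      exact hcon (hJ2 a b h5).1.1
    have h5 : ed u y a b = 0 := by
      by_contra h5
      rcases ed_eq h5 with ⟨rfl, rfl⟩ | ⟨rfl, rfl⟩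
      · exact hcon huy
      · exact hcon huy.symm
    apply hab
    simp only [Pi.add_apply]
    rw [h4, h5, add_zero]
  · simp only [Pi.add_apply]
    rw [Finset.sum_add_distrib, hJ3, ed_bd huy.ne a]
    have h4 : ∀ p q : ZMod 2, p + q + (p + q) = 0 := by decide
    exact h4 _ _
  · rw [map_add, ev_ed h.coc.symm huy.ne, ev_zero (fun a b h4 => (hJ2 a b h4).1.2.2.2), zero_add]
    revert hX
    generalize X u y = c
    revert c
    decide
  · by_contra hcon
    push Not at hcon
    have h4 : J a b = 0 := by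
      by_contra h5
      exact hcon.1 (hJ2 a b h5).2.1
    have h5 : ed u y a b = 0 := by
      by_contra h5
      rcases ed_eq h5 with ⟨h6, _⟩ | ⟨h6, _⟩
      · exact hcon.2 h6
      · exact hcon.1 (h6 ▸ h3)
    apply hab
    simp only [Pi.add_apply]
    rw [h4, h5, add_zero]

theorem MinPair.obj_mem {M : FacialWalks G F} {X : V → V → ZMod 2} {S : Finset V}
    (h : MinPair M X S) {x : V} (hx : x ∉ S) (h2 : (fan G X S x).card = 2) {u : V}
    (hu : u ∈ S) : ∃ r, Obj G X (insert x S) S u r := by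
  obtain ⟨v, w, hv, hw, huv, huw, h3, h4⟩ := h.needed hx h2 hu
  obtain ⟨J, hJ1, hJ2, hJ3⟩ := h3.path h.coc.symm
  refine ⟨v, hv, ⟨J + ed u v + ed u w, ⟨fun a b => ?_, fun a b hab => ⟨?_, Set.mem_univ _,
    Set.mem_univ _⟩, fun a => ?_⟩, ?_, fun a b hab => ?_⟩, fun h5 => absurd hu h5,
    fun _ c => ?_⟩
  · simp only [Pi.add_apply]
    rw [hJ1 a b, ed_symm u v a b, ed_symm u w a b]
  · by_contra hcon
    have h5 : J a b = 0 := by
      by_contra h5
      exact hcon (hJ2 a b h5).1.1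
    have h6 : ed u v a b = 0 := by
      by_contra h5
      rcases ed_eq h5 with ⟨rfl, rfl⟩ | ⟨rfl, rfl⟩
      · exact hcon huv
      · exact hcon huv.symm
    have h7 : ed u w a b = 0 := by
      by_contra h5
      rcases ed_eq h5 with ⟨rfl, rfl⟩ | ⟨rfl, rfl⟩
      · exact hcon huw
      · exact hcon huw.symm
    apply hab
    simp only [Pi.add_apply]
    rw [h5, h6, h7]
    rfl
  · simp only [Pi.add_apply]
    rw [Finset.sum_add_distrib, Finset.sum_add_distrib, hJ3, ed_bd huv.ne a, ed_bd huw.ne a]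
    have h5 : ∀ p q s : ZMod 2, p + q + (s + p) + (s + q) = 0 := by decide
    exact h5 _ _ _
  · rw [map_add, map_add, ev_ed h.coc.symm huv.ne, ev_ed h.coc.symm huw.ne,
      ev_zero (fun a b h4 => (hJ2 a b h4).1.2.2.2), zero_add]
    revert h4
    generalize X u v = c
    generalize X u w = d
    revert c d
    decide
  · by_contra hcon
    push Not at hcon
    have h5 : J a b = 0 := by
      by_contra h5
      exact hcon.1 (hJ2 a b h5).2.1
    have h6 : ed u v a b = 0 := by
      by_contra h5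
      rcases ed_eq h5 with ⟨h6, _⟩ | ⟨h6, _⟩
      · exact hcon.2 h6
      · exact hcon.1 (h6 ▸ Relation.ReflTransGen.refl)
    have h7 : ed u w a b = 0 := by
      by_contra h5
      rcases ed_eq h5 with ⟨h6, _⟩ | ⟨h6, _⟩
      · exact hcon.2 h6
      · exact hcon.1 (h6 ▸ h3)
    apply hab
    simp only [Pi.add_apply]
    rw [h5, h6, h7]
    rfl
  · by_cases h5 : c + X u v = 0
    · exact ⟨v, Relation.ReflTransGen.refl, huv, h5⟩
    · refine ⟨w, h3, huw, ?_⟩
      revert h4 h5
      generalize X u v = p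
      generalize X u w = q
      revert c p q
      decide

/-- Two objects belong to the same component. -/
theorem MinPair.obj_same {M : FacialWalks G F} (hG : G.Connected)
    (hχ : (1 : ℤ) ≤ (Fintype.card V : ℤ) - G.edgeSet.ncard + Fintype.card F)
    {X : V → V → ZMod 2} {S : Finset V} (h : MinPair M X S) {x u u' r r' : V} (hne : u ≠ u')
    (hu : Obj G X (insert x S) S u r) (hu' : Obj G X (insert x S) S u' r') :
    Rch G X (insert x S) r r' := by
  by_contra hcon
  obtain ⟨z, hz, hz1, hz2⟩ := hu.cyc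
  obtain ⟨z', hz', hz1', hz2'⟩ := hu'.cyc
  have hsymm := h.coc.symm
  have hdis : ∀ a, Rch G X (insert x S) r a → ¬ Rch G X (insert x S) r' a := fun a h1 h2 =>
    hcon (h1.trans (h2.symm hsymm))
  rcases disjoint_cycles (conn_univ hG) M hχ {a | Rch G X (insert x S) r a ∨ a = u} hz hz'
      (fun a b hab => hz2 a b hab) (fun a b hab => by
        rintro (h3 | h3)
        · rcases hz2' a b hab with h4 | h4
          · exact hdis a h3 h4
          · by_cases h5 : u' ∈ S
            · exact h3.off hu.off (h4 ▸ mem_insert_of_mem h5)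
            · exact hdis a h3 (h4 ▸ hu'.mem h5)
        · rcases hz2' a b hab with h4 | h4
          · by_cases h5 : u ∈ S
            · exact h4.off hu'.off (h3 ▸ mem_insert_of_mem h5)
            · exact hdis a (h3 ▸ hu.mem h5) h4
          · exact hne (h3.symm.trans h4)) with h3 | h3
  · have h4 := ev_Bnd M hsymm h.coc.even h3
    rw [hz1] at h4
    exact one_ne_zero h4
  · have h4 := ev_Bnd M hsymm h.coc.even h3
    rw [hz1'] at h4
    exact one_ne_zero h4

omit [Fintype V] [DecidableEq V] in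
/-- A path of edges with `X = 0` lies in one sheet of the cover. -/
theorem lnk_of_rch {X : V → V → ZMod 2} (hX : ∀ x y, X x y = X y x) {T : Finset V} {a b : V}
    (h : Rch G X T a b) (K : Set (V × ZMod 2)) (c : ZMod 2)
    (hK : ∀ v, Rch G X T a v → (v, c) ∈ K) : Lnk (cover G X hX) K (a, c) (b, c) := by
  unfold Rch at h
  induction h with
  | refl => exact Relation.ReflTransGen.refl
  | @tail b b' h1 h2 ih =>
    refine Relation.ReflTransGen.tail ih ⟨hK _ (h1.tail h2), h2.1, ?_⟩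
    change c = c + X b b'
    rw [h2.2.2.2, add_zero]

/-- **Fans.** In a pair of minimal cost the two live edges at a vertex are consecutive. -/
theorem MinPair.fans {M : FacialWalks G F} (hL : Link M) (hG : G.Connected)
    (hχ : (Fintype.card V : ℤ) - G.edgeSet.ncard + Fintype.card F = 1)
    (hlen : ∀ f, M.len f = 3) {X : V → V → ZMod 2} {S : Finset V} (h : MinPair M X S) {x : V}
    (hx : x ∉ S) (hd : ∀ a b, ∃ c, G.Adj x c ∧ c ≠ a ∧ c ≠ b) {y y' : V} (hy : y ∉ S)
    (hy' : y' ∉ S) (hne : y ≠ y') (hxy : G.Adj x y) (hxy' : G.Adj x y') (h1 : X x y ≠ 0)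
    (h2 : X x y' ≠ 0) : G.Adj y y' ∧ X y y' = 0 := by
  classical
  have h01 : ∀ a : ZMod 2, a ≠ 0 → a = 1 := by decide
  have hsymm := h.coc.symm
  obtain ⟨M', hL', hlen', -⟩ := exists_cover M hL hG hsymm h.coc.even h.coc.odd
  -- the fan of `x`
  have hyf : y ∈ fan G X S x := mem_fan.2 ⟨hxy, hy, h1⟩
  have hyf' : y' ∈ fan G X S x := mem_fan.2 ⟨hxy', hy', h2⟩
  have hsub : ({y, y'} : Finset V) ⊆ fan G X S x := by
    intro u hu
    rw [mem_insert, mem_singleton] at hu
    rcases hu with rfl | rfl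
    · exact hyf
    · exact hyf'
  have hc2 : ({y, y'} : Finset V).card = 2 := card_pair hne
  have hle := h.card_fan hx
  have hcard : (fan G X S x).card = 2 := by
    have h3 := card_le_card hsub
    omega
  have heq : ({y, y'} : Finset V) = fan G X S x := eq_of_subset_of_card_le hsub (by omega)
  have hfan : ∀ u, G.Adj x u → u ∉ S → X x u ≠ 0 → u = y ∨ u = y' := by
    intro u h3 h4 h5
    have h6 : u ∈ fan G X S x := mem_fan.2 ⟨h3, h4, h5⟩
    rw [← heq, mem_insert, mem_singleton] at h6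
    exact h6
  have hX1 := h01 _ h1
  have hX2 := h01 _ h2
  -- the rotation in the cover
  have hd' : ∀ a b : V × ZMod 2, ∃ c, (cover G X hsymm).Adj (x, 0) c ∧ c ≠ a ∧ c ≠ b := by
    intro a b
    obtain ⟨c, hc, hca, hcb⟩ := hd a.1 b.1
    exact ⟨(c, 0 + X x c), ⟨hc, rfl⟩, fun h3 => hca (by rw [← h3]), fun h3 => hcb (by rw [← h3])⟩
  obtain ⟨d, ν, fc, hrot⟩ := exists_rot M' hL' hd'
  have hlen3 : ∀ g, M'.len g = 3 := fun g => by rw [hlen', hlen]
  have hd3 := hrot.three
  obtain ⟨i0, hi0, hνi⟩ := (hrot.adj (y, 1)).1 ⟨hxy, by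
    change (1 : ZMod 2) = 0 + X x y
    rw [hX1, zero_add]⟩
  obtain ⟨j0, hj0, hνj0⟩ := (hrot.adj (y', 1)).1 ⟨hxy', by
    change (1 : ZMod 2) = 0 + X x y'
    rw [hX2, zero_add]⟩
  obtain ⟨j, hj1, hj2, hνj⟩ : ∃ j, i0 < j ∧ j < i0 + d ∧ ν j = (y', 1) := by
    rcases lt_trichotomy i0 j0 with h3 | h3 | h3
    · exact ⟨j0, h3, by omega, hνj0⟩
    · rw [h3, hνj0] at hνi
      exact absurd (congrArg Prod.fst hνi).symm hne
    · exact ⟨j0 + d, by omega, by omega, by rw [hrot.per]; exact hνj0⟩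
  have hνk : ν (i0 + d) = (y, 1) := by rw [hrot.per]; exact hνi
  by_cases hja : j = i0 + 1
  · have h3 := fan_rot_tri hlen3 hrot i0
    rw [← hja, hνi, hνj] at h3
    obtain ⟨h4, h5⟩ := h3
    change (1 : ZMod 2) = 1 + X y y' at h5
    refine ⟨h4, ?_⟩
    revert h5
    generalize X y y' = c
    revert c
    decide
  by_cases hjb : j = i0 + (d - 1)
  · have h3 := fan_rot_tri hlen3 hrot j
    have h4 : j + 1 = i0 + d := by omega
    rw [h4, hνk, hνj] at h3
    obtain ⟨h4, h5⟩ := h3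
    change (1 : ZMod 2) = 1 + X y' y at h5
    refine ⟨h4.symm, ?_⟩
    rw [hsymm]
    revert h5
    generalize X y' y = c
    revert c
    decide
  exfalso
  -- the objects on both sides of `y`
  have key : ∀ u a, (cover G X hsymm).Adj (x, 0) (u, a) → (u, a) ≠ (y, 1) → (u, a) ≠ (y', 1) →
      (cover G X hsymm).Adj (y, 1) (u, a) →
      (u ∉ S → a = 0) ∧ ∃ r, Obj G X (insert x S) S u r := by
    rintro u a ⟨h3, h4⟩ h5 h6 ⟨h7, h8⟩
    change G.Adj x u at h3
    change a = 0 + X x u at h4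
    change G.Adj y u at h7
    change a = 1 + X y u at h8
    rw [zero_add] at h4
    have h9 : u ∉ S → a = 0 := by
      intro h9
      by_contra h10
      rw [h4] at h10
      rcases hfan u h3 h9 h10 with rfl | rfl
      · exact h5 (by rw [h4, hX1])
      · exact h6 (by rw [h4, hX2])
    refine ⟨h9, ?_⟩
    by_cases hu : u ∈ S
    · exact h.obj_mem hx hcard hu
    · refine ⟨u, h.obj_live hx hcard (y := y) ?_ ?_ h7.symm ?_⟩
      · rw [mem_insert]
        rintro (h10 | h10)
        · exact h3.ne h10.symm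
        · exact hu h10
      · rw [mem_insert]
        rintro (h10 | h10)
        · exact hxy.ne h10.symm
        · exact hy h10
      · rw [hsymm]
        intro h10
        rw [h10, h9 hu] at h8
        exact absurd h8 (by decide)
  obtain ⟨up, ap, hνp⟩ : ∃ u a, ν (i0 + 1) = (u, a) := ⟨_, _, rfl⟩
  obtain ⟨uq, aq, hνq⟩ : ∃ u a, ν (i0 + (d - 1)) = (u, a) := ⟨_, _, rfl⟩
  have hadjp : (cover G X hsymm).Adj (x, 0) (up, ap) := by
    rw [← hνp]
    exact hrot.adj' _
  have hadjq : (cover G X hsymm).Adj (x, 0) (uq, aq) := by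
    rw [← hνq]
    exact hrot.adj' _
  obtain ⟨hp0, rp, hp⟩ := key up ap hadjp
    (by rw [← hνp, ← hνi]; exact (hrot.ne (by omega) (by omega)).symm)
    (by rw [← hνp, ← hνj]; exact hrot.ne (by omega) (by omega))
    (by rw [← hνp, ← hνi]; exact fan_rot_tri hlen3 hrot i0)
  obtain ⟨hq0, rq, hq⟩ := key uq aq hadjq
    (by rw [← hνq, ← hνk]; exact hrot.ne (by omega) (by omega))
    (by rw [← hνq, ← hνj]; exact (hrot.ne (by omega) (by omega)).symm)
    (by
      rw [← hνq, ← hνk]
      have h3 := fan_rot_tri hlen3 hrot (i0 + (d - 1))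
      have h4 : i0 + (d - 1) + 1 = i0 + d := by omega
      rw [h4] at h3
      exact h3.symm)
  have hpq : up ≠ uq := by
    rintro rfl
    have h3 : ap = aq := hadjp.2.trans hadjq.2.symm
    apply hrot.ne (i := i0 + 1) (j := i0 + (d - 1)) (by omega) (by omega)
    rw [hνp, hνq, h3]
  have hsame := h.obj_same hG (by omega) hpq hp hq
  -- the two connected sets
  let K : Set (V × ZMod 2) := {c | (c.2 = 0 ∧ Rch G X (insert x S) rp c.1) ∨ c = (up, ap) ∨
    c = (uq, aq)}
  let L : Set (V × ZMod 2) := {c | c.2 = 1 ∧ Rch G X S x c.1}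
  have hxy1 : Rch G X S x y := h.no_leave (T := S) (by omega) Relation.ReflTransGen.refl hxy hx hy
  have hxy1' : Rch G X S x y' :=
    h.no_leave (T := S) (by omega) Relation.ReflTransGen.refl hxy' hx hy'
  have hK0 : ∀ v, Rch G X (insert x S) rp v → (v, (0 : ZMod 2)) ∈ K := fun v h3 => Or.inl ⟨rfl, h3⟩
  -- the way from `(u, a)` to the first sheet
  have hway : ∀ u a r, (u ∉ S → a = 0) → Obj G X (insert x S) S u r →
      Rch G X (insert x S) rp r → (u, a) ∈ K → ∃ v, Rch G X (insert x S) rp v ∧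
      Lnk (cover G X hsymm) K (u, a) (v, 0) := by
    intro u a r h3 h4 h5 _
    by_cases h6 : u ∈ S
    · obtain ⟨v, hv1, hv2, hv3⟩ := h4.att h6 a
      refine ⟨v, h5.trans hv1, Relation.ReflTransGen.tail Relation.ReflTransGen.refl
        ⟨hK0 v (h5.trans hv1), hv2, ?_⟩⟩
      change (0 : ZMod 2) = a + X u v
      exact hv3.symm
    · refine ⟨u, h5.trans (h4.mem h6), ?_⟩
      rw [h3 h6]
      exact Relation.ReflTransGen.refl
  have hpK : (up, ap) ∈ K := Or.inr (Or.inl rfl)
  have hqK : (uq, aq) ∈ K := Or.inr (Or.inr rfl)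
  obtain ⟨vp, hvp1, hvp2⟩ := hway up ap rp hp0 hp Relation.ReflTransGen.refl hpK
  obtain ⟨vq, hvq1, hvq2⟩ := hway uq aq rq hq0 hq hsame hqK
  have hmid : Lnk (cover G X hsymm) K (vp, 0) (vq, 0) :=
    lnk_of_rch hsymm ((hvp1.symm hsymm).trans hvq1) K 0
      (fun v h3 => hK0 v (hvp1.trans h3))
  have hfull : Lnk (cover G X hsymm) K (up, ap) (uq, aq) :=
    (hvp2.trans hmid).trans (hvq2.symm hqK)
  have hLL : Lnk (cover G X hsymm) L (y', 1) (y, 1) :=
    lnk_of_rch hsymm ((hxy1'.symm hsymm).trans hxy1) L 1 (fun v h3 => ⟨rfl, hxy1'.trans h3⟩)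
  have hdisj : Disjoint K L := by
    rw [Set.disjoint_left]
    rintro ⟨c1, c2⟩ (⟨h3, _⟩ | h3 | h3) ⟨h4, h5⟩
    · change c2 = 0 at h3
      change c2 = 1 at h4
      rw [h3] at h4
      exact absurd h4 (by decide)
    · rw [Prod.mk.injEq] at h3
      change c2 = 1 at h4
      change Rch G X S x c1 at h5
      have h6 : up ∉ S := by
        rw [← h3.1]
        exact h5.off hx
      rw [h3.2, hp0 h6] at h4
      exact absurd h4 (by decide)
    · rw [Prod.mk.injEq] at h3
      change c2 = 1 at h4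
      change Rch G X S x c1 at h5
      have h6 : uq ∉ S := by
        rw [← h3.1]
        exact h5.off hx
      rw [h3.2, hq0 h6] at h4
      exact absurd h4 (by decide)
  have hxK : ((x, 0) : V × ZMod 2) ∉ K := by
    rintro (⟨_, h3⟩ | h3 | h3)
    · exact h3.off hp.off (mem_insert_self x S)
    · rw [h3] at hadjp
      exact (cover G X hsymm).loopless.irrefl _ hadjp
    · rw [h3] at hadjq
      exact (cover G X hsymm).loopless.irrefl _ hadjq
  have hxL : ((x, 0) : V × ZMod 2) ∉ L := by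
    rintro ⟨h3, _⟩
    have h4 : (0 : ZMod 2) = 1 := h3
    exact absurd h4 (by decide)
  refine sphere_noncross (G := cover G X hsymm) (conn_univ (cover_connected hG h.coc.odd)) ?_ hrot
    hL' hdisj hxK hxL (p := i0 + 1) (j := j) (q := i0 + (d - 1)) (k := i0 + d) (by omega)
    (by omega) (by omega) (by omega) ?_ ?_ ?_ ?_
  · rw [cover_euler (G := G) (X := X) (hX := hsymm) (F := F), hχ]
    norm_num
  · rw [hνp]
    exact hpK
  · rw [hνp, hνq]
    exact hfull
  · rw [hνj]
    exact ⟨rfl, hxy1'⟩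
  · rw [hνj, hνk]
    exact hLL

end objects

end Pool.Agent.W986
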