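import Pool.Agent.W986.Final2

/-!
# Pairs of a cocycle and a set of vertices with minimal cost
-/

set_option autoImplicit false

open Finset

namespace Pool.Agent.W986

open Pool.Agent.DC76

section pairing

variable {V : Type} [Fintype V] [DecidableEq V] {G : SimpleGraph V} {F : Type} [Fintype F]

/-- The number of a vertex. -/
noncomputable def idx (x : V) : ℕ := (Fintype.equivFin V x : ℕ)

omit [DecidableEq V] in
theorem idx_inj {x y : V} (h : idx x = idx y) : x = y :=
  (Fintype.equivFin V).injective (Fin.ext h)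

/-- The value of the cochain `X` on a set `z` of edges. -/
noncomputable def ev (X : V → V → ZMod 2) : (V → V → ZMod 2) →ₗ[ZMod 2] ZMod 2 where
  toFun z := ∑ x, ∑ y, if idx x < idx y then X x y * z x y else 0
  map_add' y z := by
    rw [← sum_add_distrib]
    refine sum_congr rfl fun a _ => ?_
    rw [← sum_add_distrib]
    refine sum_congr rfl fun b _ => ?_
    split
    · rw [Pi.add_apply, Pi.add_apply, mul_add]
    · rw [add_zero]
  map_smul' c z := by
    rw [RingHom.id_apply, smul_eq_mul, mul_sum]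
    refine sum_congr rfl fun a _ => ?_
    rw [mul_sum]
    refine sum_congr rfl fun b _ => ?_
    split
    · rw [Pi.smul_apply, Pi.smul_apply, smul_eq_mul]
      ring
    · rw [mul_zero]

omit [DecidableEq V] in
theorem ev_apply (X z : V → V → ZMod 2) :
    ev X z = ∑ x, ∑ y, if idx x < idx y then X x y * z x y else 0 := rfl

theorem ev_ed {X : V → V → ZMod 2} (hX : ∀ x y, X x y = X y x) {a b : V} (hab : a ≠ b) :
    ev X (ed a b) = X a b := by
  have key : ∀ a b : V, idx a < idx b → ev X (ed a b) = X a b := by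
    intro a b h
    rw [ev_apply, sum_eq_single a, sum_eq_single b, if_pos h, ed_left, mul_one]
    · intro y _ hy
      by_cases h1 : ed a b a y = 0
      · rw [h1, mul_zero, ite_self]
      · rcases ed_eq h1 with ⟨_, h2⟩ | ⟨h2, _⟩
        · exact absurd h2 hy
        · rw [h2] at h
          exact absurd h (lt_irrefl _)
    · intro h1
      exact absurd (mem_univ b) h1
    · intro x _ hx
      refine sum_eq_zero fun y _ => ?_
      by_cases h1 : ed a b x y = 0
      · rw [h1, mul_zero, ite_self]
      · rcases ed_eq h1 with ⟨h2, _⟩ | ⟨h2, h3⟩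
        · exact absurd h2 hx
        · rw [if_neg]
          rw [h2, h3]
          exact h.asymm
    · intro h1
      exact absurd (mem_univ a) h1
  rcases lt_trichotomy (idx a) (idx b) with h | h | h
  · exact key a b h
  · exact absurd (idx_inj h) hab
  · have h1 : ed a b = ed b a := by
      funext u v
      unfold ed
      by_cases h2 : (u = a ∧ v = b) ∨ (u = b ∧ v = a)
      · rw [if_pos h2, if_pos (by tauto)]
      · rw [if_neg h2, if_neg (by tauto)]
    rw [h1, key b a h, hX]

omit [Fintype V] in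
theorem face_eq (M : FacialWalks G F) (f : F) :
    face M f = ∑ t ∈ range (M.len f), ed (M.walk f t) (M.walk f (t + 1)) := by
  funext u v
  rw [Finset.sum_apply, Finset.sum_apply]
  unfold face trav
  rw [card_filter, Nat.cast_sum]
  refine sum_congr rfl fun t _ => ?_
  unfold ed
  by_cases h : (M.walk f t = u ∧ M.walk f (t + 1) = v) ∨ (M.walk f t = v ∧ M.walk f (t + 1) = u)
  · rw [if_pos h, if_pos, Nat.cast_one]
    rcases h with h | h
    · exact Or.inl ⟨h.1.symm, h.2.symm⟩
    · exact Or.inr ⟨h.2.symm, h.1.symm⟩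
  · rw [if_neg h, if_neg, Nat.cast_zero]
    rintro (h1 | h1)
    · exact h (Or.inl ⟨h1.1.symm, h1.2.symm⟩)
    · exact h (Or.inr ⟨h1.2.symm, h1.1.symm⟩)

theorem ev_face (M : FacialWalks G F) {X : V → V → ZMod 2} (hX : ∀ x y, X x y = X y x) (f : F) :
    ev X (face M f) = ∑ t ∈ range (M.len f), X (M.walk f t) (M.walk f (t + 1)) := by
  rw [face_eq, map_sum]
  refine sum_congr rfl fun t ht => ?_
  exact ev_ed hX (M.adj f t (mem_range.1 ht)).ne

theorem ev_Bnd (M : FacialWalks G F) {X : V → V → ZMod 2} (hX : ∀ x y, X x y = X y x)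
    (he : ∀ f, ∑ t ∈ range (M.len f), X (M.walk f t) (M.walk f (t + 1)) = 0)
    {z : V → V → ZMod 2} (hz : z ∈ Bnd M) : ev X z = 0 := by
  have h1 : Bnd M ≤ LinearMap.ker (ev X) := by
    refine Submodule.span_le.2 ?_
    rintro _ ⟨f, rfl⟩
    rw [SetLike.mem_coe, LinearMap.mem_ker, ev_face M hX, he]
  exact LinearMap.mem_ker.1 (h1 hz)

omit [DecidableEq V] in
theorem ev_zero {X z : V → V → ZMod 2} (h : ∀ x y, z x y ≠ 0 → X x y = 0) : ev X z = 0 := by
  rw [ev_apply]
  refine sum_eq_zero fun x _ => sum_eq_zero fun y _ => ?_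
  by_cases h1 : z x y = 0
  · rw [h1, mul_zero, ite_self]
  · rw [h x y h1, zero_mul, ite_self]

end pairing

section cocycles

variable {V : Type} [DecidableEq V] {G : SimpleGraph V} {F : Type} [Fintype F]

/-- A cocycle which is not a coboundary. -/
structure Coc (M : FacialWalks G F) (X : V → V → ZMod 2) : Prop where
  symm : ∀ x y, X x y = X y x
  even : ∀ f, ∑ t ∈ range (M.len f), X (M.walk f t) (M.walk f (t + 1)) = 0
  odd : ¬ ∃ h : V → ZMod 2, ∀ x y, G.Adj x y → h x + h y = X x y

/-- Adding a coboundary. -/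
def shift (X : V → V → ZMod 2) (σ : V → ZMod 2) : V → V → ZMod 2 := fun x y => X x y + (σ x + σ y)

theorem Coc.shift {M : FacialWalks G F} {X : V → V → ZMod 2} (h : Coc M X) (σ : V → ZMod 2) :
    Coc M (shift X σ) := by
  refine ⟨fun x y => ?_, fun f => ?_, ?_⟩
  · unfold W986.shift
    rw [h.symm x y, add_comm (σ x)]
  · unfold W986.shift
    rw [sum_add_distrib, h.even f, zero_add, sum_add_distrib]
    have h1 := sum_range_succ (fun t => σ (M.walk f t)) (M.len f)
    have h2 := sum_range_succ' (fun t => σ (M.walk f t)) (M.len f)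
    rw [h1, M.closed] at h2
    have h3 := add_right_cancel h2
    rw [h3, CharTwo.add_self_eq_zero]
  · rintro ⟨g, hg⟩
    refine h.odd ⟨fun x => g x + σ x, fun x y hxy => ?_⟩
    have h1 := hg x y hxy
    have h2 : ∀ a b c d e : ZMod 2, a + b = e + (c + d) → a + c + (b + d) = e := by decide
    exact h2 _ _ _ _ _ h1

end cocycles

section cost

variable {V : Type} [Fintype V] [DecidableEq V] (G : SimpleGraph V)

open Classical in
/-- The ordered pairs of adjacent vertices outside `S` with `X = 1`. -/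
noncomputable def live (X : V → V → ZMod 2) (S : Finset V) : Finset (V × V) :=
  univ.filter fun p => G.Adj p.1 p.2 ∧ p.1 ∉ S ∧ p.2 ∉ S ∧ X p.1 p.2 ≠ 0

open Classical in
/-- The neighbours of `x` outside `S` with `X = 1`. -/
noncomputable def fan (X : V → V → ZMod 2) (S : Finset V) (x : V) : Finset V :=
  univ.filter fun y => G.Adj x y ∧ y ∉ S ∧ X x y ≠ 0

/-- The cost of a pair: twice the number of live edges and five times the number of vertices. -/
noncomputable def cost (X : V → V → ZMod 2) (S : Finset V) : ℕ := (live G X S).card + 5 * S.card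

variable {G}

theorem mem_live {X : V → V → ZMod 2} {S : Finset V} {a b : V} :
    (a, b) ∈ live G X S ↔ G.Adj a b ∧ a ∉ S ∧ b ∉ S ∧ X a b ≠ 0 := by
  unfold live
  simp

theorem mem_fan {X : V → V → ZMod 2} {S : Finset V} {x y : V} :
    y ∈ fan G X S x ↔ G.Adj x y ∧ y ∉ S ∧ X x y ≠ 0 := by
  unfold fan
  simp

theorem card_live_insert {X : V → V → ZMod 2} (hX : ∀ x y, X x y = X y x) {S : Finset V} {x : V}
    (hx : x ∉ S) :
    (live G X (insert x S)).card + 2 * (fan G X S x).card = (live G X S).card := by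
  have h1 : live G X S = (live G X (insert x S) ∪ (fan G X S x).image fun y => (x, y)) ∪
      (fan G X S x).image fun y => (y, x) := by
    ext ⟨a, b⟩
    simp only [mem_union, mem_image, mem_live, mem_fan, mem_insert, Prod.mk.injEq]
    constructor
    · rintro ⟨h1, h2, h3, h4⟩
      by_cases ha : a = x
      · subst ha
        exact Or.inl (Or.inr ⟨b, ⟨h1, h3, h4⟩, rfl, rfl⟩)
      · by_cases hb : b = x
        · subst hb
          exact Or.inr ⟨a, ⟨h1.symm, h2, by rw [hX]; exact h4⟩, rfl, rfl⟩
        · exact Or.inl (Or.inl ⟨h1, by tauto, by tauto, h4⟩)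
    · rintro ((⟨h1, h2, h3, h4⟩ | ⟨y, ⟨h1, h2, h3⟩, rfl, rfl⟩) | ⟨y, ⟨h1, h2, h3⟩, rfl, rfl⟩)
      · exact ⟨h1, by tauto, by tauto, h4⟩
      · exact ⟨h1, hx, h2, h3⟩
      · exact ⟨h1.symm, h2, hx, by rw [hX]; exact h3⟩
  have h2 : Disjoint (live G X (insert x S)) ((fan G X S x).image fun y => (x, y)) := by
    rw [Finset.disjoint_left]
    rintro ⟨a, b⟩ h1 h2
    simp only [mem_image, mem_live, mem_fan, mem_insert, Prod.mk.injEq] at h1 h2
    obtain ⟨y, _, rfl, rfl⟩ := h2
    exact h1.2.1 (Or.inl rfl)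
  have h3 : Disjoint (live G X (insert x S) ∪ (fan G X S x).image fun y => (x, y))
      ((fan G X S x).image fun y => (y, x)) := by
    rw [Finset.disjoint_left]
    rintro ⟨a, b⟩ h1 h2
    simp only [mem_union, mem_image, mem_live, mem_fan, mem_insert, Prod.mk.injEq] at h1 h2
    obtain ⟨y, hy, rfl, rfl⟩ := h2
    rcases h1 with h1 | ⟨z, _, h1, h4⟩
    · exact h1.2.2.1 (Or.inl rfl)
    · rw [← h1] at hy
      exact G.loopless.irrefl x hy.1
  rw [h1, card_union_of_disjoint h3, card_union_of_disjoint h2,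
    card_image_of_injective _ (fun a b h => (Prod.mk.inj h).2),
    card_image_of_injective _ (fun a b h => (Prod.mk.inj h).1)]
  omega

end cost

section minimal

variable {V : Type} [Fintype V] [DecidableEq V] {G : SimpleGraph V} {F : Type} [Fintype F]

/-- A pair of minimal cost. -/
structure MinPair (M : FacialWalks G F) (X : V → V → ZMod 2) (S : Finset V) : Prop where
  coc : Coc M X
  le : ∀ X' S', Coc M X' → cost G X S ≤ cost G X' S'

theorem exists_minPair (M : FacialWalks G F) {X0 : V → V → ZMod 2} (h0 : Coc M X0) :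
    ∃ X S, MinPair M X S := by
  classical
  have hP : ∃ n, ∃ X S, Coc M X ∧ cost G X S = n := ⟨_, X0, ∅, h0, rfl⟩
  obtain ⟨X, S, h1, h2⟩ := Nat.find_spec hP
  exact ⟨X, S, h1, fun X' S' h' => by rw [h2]; exact Nat.find_min' hP ⟨X', S', h', rfl⟩⟩

variable (G) in
/-- Adjacent vertices outside `T` with `X = 0`. -/
def Hr (X : V → V → ZMod 2) (T : Finset V) (a b : V) : Prop :=
  G.Adj a b ∧ a ∉ T ∧ b ∉ T ∧ X a b = 0

variable (G) in
/-- Connected by edges outside `T` with `X = 0`. -/
def Rch (X : V → V → ZMod 2) (T : Finset V) : V → V → Prop := Relation.ReflTransGen (Hr G X T)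

omit [Fintype V] [DecidableEq V] in
theorem Rch.symm {X : V → V → ZMod 2} (hX : ∀ x y, X x y = X y x) {T : Finset V} {a b : V}
    (h : Rch G X T a b) : Rch G X T b a := by
  unfold Rch at h ⊢
  induction h with
  | refl => exact Relation.ReflTransGen.refl
  | tail _ h2 ih =>
    exact Relation.ReflTransGen.head ⟨h2.1.symm, h2.2.2.1, h2.2.1, by rw [hX]; exact h2.2.2.2⟩ ih

omit [Fintype V] [DecidableEq V] in
theorem Rch.off {X : V → V → ZMod 2} {T : Finset V} {a b : V}
    (h : Rch G X T a b) (ha : a ∉ T) : b ∉ T := by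
  rcases h.cases_tail with h1 | ⟨c, _, h1⟩
  · rw [h1]
    exact ha
  · exact h1.2.2.1

/-- After deleting `T` no edge leaves a component of the edges with `X = 0`. -/
theorem MinPair.no_leave {M : FacialWalks G F} {X : V → V → ZMod 2} {S T : Finset V}
    (h : MinPair M X S) (hT : cost G X T ≤ cost G X S + 1) {r a b : V} (ha : Rch G X T r a)
    (hab : G.Adj a b) (haT : a ∉ T) (hbT : b ∉ T) : Rch G X T r b := by
  classical
  by_contra hb
  let σ : V → ZMod 2 := fun v => if Rch G X T r v then 1 else 0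
  have h1 : ∀ u v, G.Adj u v → u ∉ T → v ∉ T → σ u ≠ σ v → X u v ≠ 0 := by
    intro u v huv hu hv hne h0
    apply hne
    have h2 : Rch G X T r u ↔ Rch G X T r v :=
      ⟨fun h3 => h3.tail ⟨huv, hu, hv, h0⟩,
        fun h3 => h3.tail ⟨huv.symm, hv, hu, by rw [h.coc.symm]; exact h0⟩⟩
    change (if Rch G X T r u then (1 : ZMod 2) else 0) = if Rch G X T r v then 1 else 0
    by_cases h3 : Rch G X T r u
    · rw [if_pos h3, if_pos (h2.1 h3)]
    · rw [if_neg h3, if_neg (fun h4 => h3 (h2.2 h4))]
  have hσa : σ a = 1 := if_pos ha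
  have hσb : σ b = 0 := if_neg hb
  have hXab : X a b = 1 := by
    have h2 := h1 a b hab haT hbT (by rw [hσa, hσb]; exact one_ne_zero)
    revert h2
    generalize X a b = c
    revert c
    decide
  have h2 : live G (shift X σ) T ⊆ ((live G X T).erase (a, b)).erase (b, a) := by
    rintro ⟨u, v⟩ huv
    rw [mem_live] at huv
    obtain ⟨h3, h4, h5, h6⟩ := huv
    unfold shift at h6
    have h7 : X u v ≠ 0 := by
      by_cases h7 : σ u = σ v
      · rw [h7, CharTwo.add_self_eq_zero, add_zero] at h6
        exact h6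
      · exact h1 u v h3 h4 h5 h7
    rw [mem_erase, mem_erase, mem_live]
    refine ⟨?_, ?_, h3, h4, h5, h7⟩
    · intro h8
      rw [Prod.mk.injEq] at h8
      rw [h8.1, h8.2, hσa, hσb, h.coc.symm, hXab] at h6
      exact h6 (by decide)
    · intro h8
      rw [Prod.mk.injEq] at h8
      rw [h8.1, h8.2, hσa, hσb, hXab] at h6
      exact h6 (by decide)
  have h3 : (a, b) ∈ live G X T := mem_live.2 ⟨hab, haT, hbT, by rw [hXab]; exact one_ne_zero⟩
  have h4 : (b, a) ∈ (live G X T).erase (a, b) := by
    rw [mem_erase, mem_live]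
    refine ⟨fun h5 => hab.ne (Prod.mk.inj h5).2, hab.symm, hbT, haT, ?_⟩
    rw [h.coc.symm, hXab]
    exact one_ne_zero
  have h5 := card_le_card h2
  rw [card_erase_of_mem h4, card_erase_of_mem h3] at h5
  have h6 := h.le _ T (h.coc.shift σ)
  unfold cost at h6 hT
  have h7 : 0 < (live G X T).card := card_pos.2 ⟨_, h3⟩
  have h8 : 0 < ((live G X T).erase (a, b)).card := card_pos.2 ⟨_, h4⟩
  rw [card_erase_of_mem h3] at h8
  omega

/-- There are at most two live edges at a vertex. -/
theorem MinPair.card_fan {M : FacialWalks G F} {X : V → V → ZMod 2} {S : Finset V}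
    (h : MinPair M X S) {x : V} (hx : x ∉ S) : (fan G X S x).card ≤ 2 := by
  have h1 := card_live_insert (G := G) h.coc.symm hx
  have h2 := h.le X (insert x S) h.coc
  unfold cost at h2
  rw [card_insert_of_notMem hx] at h2
  omega

/-- The cost after passing a vertex with two live edges. -/
theorem MinPair.cost_insert {M : FacialWalks G F} {X : V → V → ZMod 2} {S : Finset V}
    (h : MinPair M X S) {x : V} (hx : x ∉ S) (h2 : (fan G X S x).card = 2) :
    cost G X (insert x S) = cost G X S + 1 := by
  have h1 := card_live_insert (G := G) h.coc.symm hx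
  unfold cost
  rw [card_insert_of_notMem hx]
  omega

/-- A vertex of `S` has at least three neighbours outside `S` with `X = 1`. -/
theorem MinPair.three_one {M : FacialWalks G F} {X : V → V → ZMod 2} {S : Finset V}
    (h : MinPair M X S) {s : V} (hs : s ∈ S) : 3 ≤ (fan G X S s).card := by
  have h1 := card_live_insert (G := G) h.coc.symm (notMem_erase s S)
  rw [insert_erase hs] at h1
  have h2 := h.le X (S.erase s) h.coc
  have h3 : fan G X (S.erase s) s = fan G X S s := by
    ext y
    rw [mem_fan, mem_fan, mem_erase]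
    constructor
    · rintro ⟨h3, h4, h5⟩
      exact ⟨h3, fun h6 => h4 ⟨h3.ne', h6⟩, h5⟩
    · rintro ⟨h3, h4, h5⟩
      exact ⟨h3, fun h6 => h4 h6.2, h5⟩
  have h4 : 0 < S.card := card_pos.2 ⟨s, hs⟩
  rw [h3] at h1
  unfold cost at h2
  rw [card_erase_of_mem hs] at h2
  omega

/-- The pair obtained by adding the coboundary of a vertex of `S` is minimal, too. -/
theorem MinPair.flip {M : FacialWalks G F} {X : V → V → ZMod 2} {S : Finset V}
    (h : MinPair M X S) {s : V} (hs : s ∈ S) :
    MinPair M (shift X fun v => if v = s then 1 else 0) S := by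
  have h1 : cost G (shift X fun v => if v = s then 1 else 0) S = cost G X S := by
    unfold cost
    congr 2
    ext ⟨a, b⟩
    rw [mem_live, mem_live]
    have key : a ∉ S → b ∉ S → shift X (fun v => if v = s then 1 else 0) a b = X a b := by
      intro h2 h3
      have h4 : a ≠ s := fun h5 => h2 (by rw [h5]; exact hs)
      have h5 : b ≠ s := fun h6 => h3 (by rw [h6]; exact hs)
      change X a b + ((if a = s then 1 else 0) + (if b = s then 1 else 0)) = X a b
      rw [if_neg h4, if_neg h5, add_zero, add_zero]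
    constructor
    · rintro ⟨h1, h2, h3, h4⟩
      rw [key h2 h3] at h4
      exact ⟨h1, h2, h3, h4⟩
    · rintro ⟨h1, h2, h3, h4⟩
      rw [← key h2 h3] at h4
      exact ⟨h1, h2, h3, h4⟩
  exact ⟨h.coc.shift _, fun X' S' h' => by rw [h1]; exact h.le X' S' h'⟩

open Classical in
/-- A vertex of `S` has at least three neighbours outside `S` with `X = 0`. -/
theorem MinPair.three_zero {M : FacialWalks G F} {X : V → V → ZMod 2} {S : Finset V}
    (h : MinPair M X S) {s : V} (hs : s ∈ S) :
    3 ≤ (univ.filter fun y => G.Adj s y ∧ y ∉ S ∧ X s y = 0).card := by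
  have h1 := (h.flip hs).three_one hs
  refine le_trans h1 (card_le_card ?_)
  intro y hy
  rw [mem_fan] at hy
  rw [mem_filter]
  refine ⟨mem_univ _, hy.1, hy.2.1, ?_⟩
  have h2 : X s y + ((if s = s then 1 else 0) + (if y = s then 1 else 0)) ≠ 0 := hy.2.2
  rw [if_pos rfl, if_neg hy.1.ne', add_zero] at h2
  revert h2
  generalize X s y = c
  revert c
  decide

/-- After passing a vertex `x` with two live edges every vertex `s` of `S` is still needed: it has
two neighbours `v`, `w` in one component with `X s v ≠ X s w`. -/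
theorem MinPair.needed {M : FacialWalks G F} {X : V → V → ZMod 2} {S : Finset V}
    (h : MinPair M X S) {x : V} (hx : x ∉ S) (h2 : (fan G X S x).card = 2) {s : V} (hs : s ∈ S) :
    ∃ v w, v ∉ insert x S ∧ w ∉ insert x S ∧ G.Adj s v ∧ G.Adj s w ∧ Rch G X (insert x S) v w ∧
      X s v ≠ X s w := by
  classical
  by_contra hcon
  push Not at hcon
  have hcost := h.cost_insert hx h2
  have hsT : s ∈ insert x S := mem_insert_of_mem hs
  have hsx : s ≠ x := fun h3 => hx (h3 ▸ hs)
  let g : V → ZMod 2 := fun v =>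
    if h3 : ∃ w, Rch G X (insert x S) v w ∧ w ∉ insert x S ∧ G.Adj s w then X s h3.choose else 0
  have hg : ∀ v w, Rch G X (insert x S) v w → w ∉ insert x S → G.Adj s w → g v = X s w := by
    intro v w h3 h4 h5
    have h6 : ∃ w, Rch G X (insert x S) v w ∧ w ∉ insert x S ∧ G.Adj s w := ⟨w, h3, h4, h5⟩
    change (if h3 : ∃ w, Rch G X (insert x S) v w ∧ w ∉ insert x S ∧ G.Adj s w then
      X s h3.choose else 0) = X s w
    rw [dif_pos h6]
    obtain ⟨h7, h8, h9⟩ := h6.choose_spec
    exact hcon _ _ h8 h4 h9 h5 ((h7.symm h.coc.symm).trans h3)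
  have hg0 : ∀ v, (¬ ∃ w, Rch G X (insert x S) v w ∧ w ∉ insert x S ∧ G.Adj s w) → g v = 0 :=
    fun v h3 => dif_neg h3
  have hgs : g s = 0 := by
    apply hg0
    rintro ⟨w, h3, h4, h5⟩
    rcases h3.cases_head with h6 | ⟨c, h6, _⟩
    · exact h4 (h6 ▸ hsT)
    · exact h6.2.1 hsT
  have hconst : ∀ u v, Rch G X (insert x S) u v → g u = g v := by
    intro u v h3
    by_cases h4 : ∃ w, Rch G X (insert x S) v w ∧ w ∉ insert x S ∧ G.Adj s w
    · obtain ⟨w, h5, h6, h7⟩ := h4
      rw [hg v w h5 h6 h7, hg u w (h3.trans h5) h6 h7]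
    · rw [hg0 v h4, hg0 u]
      rintro ⟨w, h5, h6, h7⟩
      exact h4 ⟨w, (h3.symm h.coc.symm).trans h5, h6, h7⟩
  have hlive : live G (shift X g) (insert x S) = live G X (insert x S) := by
    ext ⟨a, b⟩
    rw [mem_live, mem_live]
    have h3 : G.Adj a b → a ∉ insert x S → b ∉ insert x S → shift X g a b = X a b := by
      intro h3 h4 h5
      have h6 := h.no_leave (T := insert x S) (by omega) (r := a) Relation.ReflTransGen.refl h3 h4 h5
      unfold shift
      rw [hconst a b h6, CharTwo.add_self_eq_zero, add_zero]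
    constructor
    · rintro ⟨h4, h5, h6, h7⟩
      exact ⟨h4, h5, h6, by rw [← h3 h4 h5 h6]; exact h7⟩
    · rintro ⟨h4, h5, h6, h7⟩
      exact ⟨h4, h5, h6, by rw [h3 h4 h5 h6]; exact h7⟩
  have hfan : fan G (shift X g) ((insert x S).erase s) s = ∅ := by
    rw [eq_empty_iff_forall_notMem]
    intro y hy
    rw [mem_fan, mem_erase] at hy
    obtain ⟨h3, h4, h5⟩ := hy
    have h6 : y ∉ insert x S := fun h7 => h4 ⟨h3.ne', h7⟩
    apply h5
    unfold shift
    rw [hgs, hg y y Relation.ReflTransGen.refl h6 h3, zero_add, CharTwo.add_self_eq_zero]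
  have h3 := card_live_insert (G := G) (X := shift X g) (h.coc.shift g).symm
    (notMem_erase s (insert x S))
  rw [insert_erase hsT, hfan, card_empty, mul_zero, add_zero, hlive] at h3
  have h4 := h.le (shift X g) ((insert x S).erase s) (h.coc.shift g)
  unfold cost at h4 hcost
  rw [card_erase_of_mem hsT, card_insert_of_notMem hx] at h4
  rw [card_insert_of_notMem hx] at hcost
  omega

end minimal

end Pool.Agent.W986
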