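import Pool.Agent.W986.Marks

/-!
# Minors of graphs on the sphere
-/

set_option autoImplicit false

open Finset

namespace Pool.Agent.W986

open Pool.Agent.DC76

/-- `H` is a minor of a graph embedded in the sphere, where the vertices in `A` have branch sets
with one element. -/
def SphereMinor {U : Type} (H : SimpleGraph U) (A : Set U) : Prop :=
  ∃ (V F : Type) (_ : Fintype V) (_ : DecidableEq V) (_ : Fintype F) (G : SimpleGraph V)
    (f : U → Set V), (∀ u, (f u).Nonempty) ∧ (∀ u, Conn G (f u)) ∧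
      (∀ u w, u ≠ w → Disjoint (f u) (f w)) ∧
      (∀ u w, H.Adj u w → ∃ x ∈ f u, ∃ y ∈ f w, G.Adj x y) ∧ (∀ u ∈ A, ∃ x, f u = {x}) ∧
      G.Connected ∧ (∃ M : FacialWalks G F, Link M) ∧
      (Fintype.card V : ℤ) - G.edgeSet.ncard + Fintype.card F = 2

theorem SphereMinor.comap {U W : Type} {H : SimpleGraph U} {A : Set U} (e : W → U)
    (he : Function.Injective e) (h : SphereMinor H A) : SphereMinor (H.comap e) (e ⁻¹' A) := by
  obtain ⟨V, F, i1, i2, i3, G, f, h1, h2, h3, h4, h5, h⟩ := h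
  exact ⟨V, F, i1, i2, i3, G, f ∘ e, fun u => h1 _, fun u => h2 _,
    fun u w huw => h3 _ _ (he.ne huw), fun u w huw => h4 _ _ huw, fun u hu => h5 _ hu, h⟩

theorem SphereMinor.mono {U : Type} {H H' : SimpleGraph U} {A : Set U} (hle : H' ≤ H)
    (h : SphereMinor H A) : SphereMinor H' A := by
  obtain ⟨V, F, i1, i2, i3, G, f, h1, h2, h3, h4, h5, h⟩ := h
  exact ⟨V, F, i1, i2, i3, G, f, h1, h2, h3, fun u w huw => h4 _ _ (hle huw), h5, h⟩

theorem Lnk.minor {U V : Type} {H : SimpleGraph U} {G : SimpleGraph V} {f : U → Set V}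
    (hconn : ∀ u, Conn G (f u)) (hadj : ∀ u w, H.Adj u w → ∃ x ∈ f u, ∃ y ∈ f w, G.Adj x y)
    {K : Set U} {a b : U} (ha : a ∈ K) (h : Lnk H K a b) :
    ∀ x ∈ f a, ∀ y ∈ f b, Lnk G (⋃ u ∈ K, f u) x y := by
  have hin : ∀ u ∈ K, ∀ x ∈ f u, ∀ y ∈ f u, Lnk G (⋃ u ∈ K, f u) x y := by
    intro u hu x hx y hy
    refine Relation.ReflTransGen.mono ?_ _ _ (hconn u x hx y hy)
    rintro p q ⟨h1, h2⟩
    exact ⟨Set.mem_biUnion hu h1, h2⟩
  induction h with
  | refl => exact hin a ha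
  | @tail c d h1 h2 ih =>
    intro x hx y hy
    obtain ⟨x', hx', y', hy', hxy⟩ := hadj c d h2.2
    have h3 := ih x hx x' hx'
    have h4 : Lnk G (⋃ u ∈ K, f u) x y' := h3.tail ⟨Set.mem_biUnion h2.1 hy', hxy⟩
    exact h4.trans (hin d h2.1 y' hy' y hy)

theorem SphereMinor.exists_Slots {U : Type} [Finite U] {H : SimpleGraph U} {A : Set U}
    (hH : SphereMinor H A) {v : U} (hvA : v ∈ A)
    (h3 : ∀ a b : U, ∃ c, H.Adj v c ∧ c ≠ a ∧ c ≠ b) (O : Set U)
    (hO : ∀ u ∈ O, H.Adj v u) (hcard : dg H v + O.ncard ≤ 9) :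
    ∃ g : Fin 9 → U, Slots H v g ∧ (∀ u, H.Adj v u → ∃ s, g s = u) ∧
      ∀ u ∈ O, ∃ s t, s ≠ t ∧ g s = u ∧ g t = u := by
  classical
  obtain ⟨V, F, _, _, _, G, f, hf1, hf2, hf3, hf4, hf5, hG, ⟨M, hL⟩, hχ⟩ := hH
  obtain ⟨v', hv'⟩ := hf5 v hvA
  -- every neighbour has a vertex next to `v'`
  have hnb : ∀ u, H.Adj v u → ∃ y ∈ f u, G.Adj v' y := by
    intro u hu
    obtain ⟨x, hx, y, hy, hxy⟩ := hf4 v u hu
    rw [hv', Set.mem_singleton_iff] at hx
    rw [hx] at hxy
    exact ⟨y, hy, hxy⟩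
  have huniq : ∀ u w y, y ∈ f u → y ∈ f w → u = w := by
    intro u w y hu hw
    by_contra hne
    exact Set.disjoint_left.1 (hf3 u w hne) hu hw
  have hd : ∀ a b : V, ∃ c, G.Adj v' c ∧ c ≠ a ∧ c ≠ b := by
    intro a b
    by_contra hcon
    push Not at hcon
    obtain ⟨x, hx, _, _⟩ := h3 v v
    obtain ⟨y, hy, hyx, _⟩ := h3 x x
    obtain ⟨z, hz, hzx, hzy⟩ := h3 x y
    have key : ∀ c, H.Adj v c → a ∈ f c ∨ b ∈ f c := by
      intro c hc
      obtain ⟨y, hy, hvy⟩ := hnb c hc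
      by_cases h : y = a
      · exact Or.inl (h ▸ hy)
      · exact Or.inr (hcon _ hvy h ▸ hy)
    rcases key x hx with h1 | h1 <;> rcases key y hy with h2 | h2 <;>
      rcases key z hz with h4 | h4
    · exact hyx (huniq _ _ _ h2 h1)
    · exact hyx (huniq _ _ _ h2 h1)
    · exact hzx (huniq _ _ _ h4 h1)
    · exact hzy (huniq _ _ _ h4 h2)
    · exact hzy (huniq _ _ _ h4 h2)
    · exact hzx (huniq _ _ _ h4 h1)
    · exact hyx (huniq _ _ _ h2 h1)
    · exact hyx (huniq _ _ _ h2 h1)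
  obtain ⟨d, ν, fc, hrot⟩ := exists_rot M hL hd
  have hd0 : 0 < d := by
    have := hrot.three
    omega
  have hper : ∀ k j, ν (j + d * k) = ν j := by
    intro k
    induction k with
    | zero => intro j; rfl
    | succ k ih =>
      intro j
      rw [Nat.mul_succ, ← add_assoc, hrot.per]
      exact ih j
  have hmod : ∀ j, ν (j % d) = ν j := by
    intro j
    have h := hper (j / d) (j % d)
    rw [Nat.mod_add_div] at h
    exact h.symm
  -- an index for every neighbour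
  have hidx : ∀ u, H.Adj v u → ∃ i, i < d ∧ ν i ∈ f u := by
    intro u hu
    obtain ⟨y, hy, hvy⟩ := hnb u hu
    obtain ⟨i, hi, hiy⟩ := (hrot.adj y).1 hvy
    exact ⟨i, hi, hiy ▸ hy⟩
  choose! r hr1 hr2 using hidx
  have hrinj : ∀ u w, H.Adj v u → H.Adj v w → r u = r w → u = w := by
    intro u w hu hw h
    have h1 := hr2 u hu
    rw [h] at h1
    exact huniq u w _ h1 (hr2 w hw)
  have hcount : ∀ N : Set U, (∀ u ∈ N, H.Adj v u) →
      (∑ i ∈ range d, if ∃ u, u ∈ N ∧ r u = i then 1 else 0) = N.ncard := by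
    intro N hN
    rw [← card_filter]
    have h1 : (((range d).filter fun i => ∃ u, u ∈ N ∧ r u = i : Finset ℕ) : Set ℕ) = r '' N := by
      ext i
      simp only [coe_filter, Set.mem_image, mem_range, Set.mem_ofPred_eq]
      constructor
      · rintro ⟨_, u, hu, hfu⟩
        exact ⟨u, hu, hfu⟩
      · rintro ⟨u, hu, rfl⟩
        exact ⟨hr1 u (hN u hu), u, hu, rfl⟩
    rw [← Set.ncard_coe_finset, h1, Set.InjOn.ncard_image]
    intro u hu w hw h
    exact hrinj u w (hN u hu) (hN w hw) h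
  obtain ⟨x0, hx0, _, _⟩ := h3 v v
  let P : ℕ → Prop := fun i => ∃ u, u ∈ {u | H.Adj v u} ∧ r u = i % d
  let Q : ℕ → Prop := fun i => ∃ u, u ∈ O ∧ r u = i % d
  let w : ℕ → ℕ := fun i => (if P i then 1 else 0) + (if Q i then 1 else 0) +
    (if i % d = r x0 then 9 - (dg H v + O.ncard) else 0)
  have hw : ∀ i, w (i + d) = w i := by
    intro i
    have h1 : P (i + d) ↔ P i := by
      change (∃ u, u ∈ {u | H.Adj v u} ∧ r u = (i + d) % d) ↔ _
      rw [Nat.add_mod_right]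
    have h2 : Q (i + d) ↔ Q i := by
      change (∃ u, u ∈ O ∧ r u = (i + d) % d) ↔ _
      rw [Nat.add_mod_right]
    change (if P (i + d) then 1 else 0) + (if Q (i + d) then 1 else 0) +
      (if (i + d) % d = r x0 then 9 - (dg H v + O.ncard) else 0) = _
    simp only [h1, h2, Nat.add_mod_right]
    rfl
  have hsum : ∑ i ∈ range d, w i = 9 := by
    have h1 := hcount {u | H.Adj v u} (fun u hu => hu)
    have h2 := hcount O hO
    have h4 : (∑ i ∈ range d, if i % d = r x0 then 9 - (dg H v + O.ncard) else 0) =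
        9 - (dg H v + O.ncard) := by
      rw [sum_eq_single (r x0)]
      · rw [if_pos (Nat.mod_eq_of_lt (hr1 x0 hx0))]
      · intro j hj hji
        rw [if_neg]
        rw [Nat.mod_eq_of_lt (mem_range.1 hj)]
        exact hji
      · intro h
        exact absurd (mem_range.2 (hr1 x0 hx0)) h
    have h5 : (∑ i ∈ range d, if P i then 1 else 0) = dg H v := by
      rw [← show ({u | H.Adj v u} : Set U).ncard = dg H v from rfl, ← h1]
      refine sum_congr rfl fun i hi => ?_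
      change (if ∃ u, u ∈ {u | H.Adj v u} ∧ r u = i % d then 1 else 0) = _
      rw [Nat.mod_eq_of_lt (mem_range.1 hi)]
    have h6 : (∑ i ∈ range d, if Q i then 1 else 0) = O.ncard := by
      rw [← h2]
      refine sum_congr rfl fun i hi => ?_
      change (if ∃ u, u ∈ O ∧ r u = i % d then 1 else 0) = _
      rw [Nat.mod_eq_of_lt (mem_range.1 hi)]
    change ∑ i ∈ range d, ((if P i then 1 else 0) + (if Q i then 1 else 0) +
      (if i % d = r x0 then 9 - (dg H v + O.ncard) else 0)) = 9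
    rw [sum_add_distrib, sum_add_distrib, h4, h5, h6]
    omega
  obtain ⟨m, hm1, hm2, hm3, hm4, hm5⟩ := exists_slots w hw hsum
  have hP : ∀ i, 0 < w i → ∃ u, H.Adj v u ∧ ν i ∈ f u ∧ r u = i % d := by
    intro i hi
    have hgo : ∀ u, H.Adj v u → r u = i % d → ∃ u, H.Adj v u ∧ ν i ∈ f u ∧ r u = i % d := by
      intro u hu hru
      refine ⟨u, hu, ?_, hru⟩
      have h1 := hr2 u hu
      rw [hru, hmod] at h1
      exact h1
    by_contra hcon
    have h0 : ¬ P i := by
      rintro ⟨u, hu, hru⟩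
      exact hcon (hgo u hu hru)
    have h1 : ¬ Q i := by
      rintro ⟨u, hu, hru⟩
      exact hcon (hgo u (hO u hu) hru)
    have h2 : i % d ≠ r x0 := fun h => hcon (hgo x0 hx0 h.symm)
    have h4 : w i = 0 := by
      change (if P i then 1 else 0) + (if Q i then 1 else 0) +
        (if i % d = r x0 then 9 - (dg H v + O.ncard) else 0) = 0
      rw [if_neg h0, if_neg h1, if_neg h2]
    omega
  choose g hg1 hg2 hg3 using fun s : ℕ => hP (m s) (hm3 s)
  have hgper : ∀ s, g (s + 9) = g s := by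
    intro s
    apply hrinj _ _ (hg1 _) (hg1 _)
    rw [hg3, hg3, hm2, Nat.add_mod_right]
  refine ⟨fun s => g s.val, ⟨fun s => hg1 s.val, ?_⟩, ?_, ?_⟩
  · intro K L hKL hvK hvL a b p q hp hq haK hab hpL hpq
    unfold btw at hp hq
    simp only [Bool.and_eq_true, decide_eq_true_eq] at hp hq
    set p' := a.val + (p.val + 9 - a.val) % 9 with hp'
    set b' := a.val + (b.val + 9 - a.val) % 9 with hb'
    set q' := b' + (q.val + 9 - b.val) % 9 with hq'
    have ha9 := a.2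
    have hb9 := b.2
    have hp9 := p.2
    have hq9 := q.2
    have hgp : g p' = g p.val := by
      have h1 : p' = p.val ∨ p' = p.val + 9 := by omega
      rcases h1 with h1 | h1
      · rw [h1]
      · rw [h1, hgper]
    have hgb : g b' = g b.val := by
      have h1 : b' = b.val ∨ b' = b.val + 9 := by omega
      rcases h1 with h1 | h1
      · rw [h1]
      · rw [h1, hgper]
    have hgq : g q' = g q.val := by
      have h1 : q' = q.val ∨ q' = q.val + 9 := by omega
      rcases h1 with h1 | h1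
      · rw [h1]
      · rw [h1, hgper]
    have hlt1 : a.val < p' := by omega
    have hlt2 : p' < b' := by omega
    have hlt3 : b' < q' := by omega
    have hlt4 : q' < a.val + 9 := by omega
    have hbK : g b.val ∈ K := hab.mem haK
    have hqL : g q.val ∈ L := hpq.mem hpL
    have hne : ∀ s t, g s ∈ K → g t ∈ L → ν (m s) ≠ ν (m t) := by
      intro s t hs ht hst
      have h1 := hg2 s
      rw [hst] at h1
      have h2 := huniq _ _ _ h1 (hg2 t)
      rw [h2] at hs
      exact Set.disjoint_left.1 hKL hs ht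
    rw [← hgp] at hpL
    rw [← hgb] at hbK
    rw [← hgq] at hqL
    have hmne : ∀ s t, ν s ≠ ν t → s ≠ t := by
      rintro s t h rfl
      exact h rfl
    have h1 : m a.val < m p' := lt_of_le_of_ne (hm1 _ _ hlt1.le) (hmne _ _ (hne _ _ haK hpL))
    have h2 : m p' < m b' := lt_of_le_of_ne (hm1 _ _ hlt2.le) (hmne _ _ (hne _ _ hbK hpL).symm)
    have h4 : m b' < m q' := lt_of_le_of_ne (hm1 _ _ hlt3.le) (hmne _ _ (hne _ _ hbK hqL))
    have h5 : m q' < m a.val + d := by
      rw [← hm2]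
      refine lt_of_le_of_ne (hm1 _ _ hlt4.le) (hmne _ _ ?_)
      rw [hm2, hrot.per]
      exact (hne _ _ haK hqL).symm
    have hvf : ∀ u, u ≠ v → v' ∉ f u := by
      intro u hu h
      have h1 : v' ∈ f v := by
        rw [hv']
        rfl
      exact hu (huniq _ _ _ h h1)
    refine sphere_noncross (conn_univ hG) hχ.ge hrot hL (K := ⋃ u ∈ K, f u) (L := ⋃ u ∈ L, f u)
      ?_ ?_ ?_ h1 h2 h4 h5 ?_ ?_ ?_ ?_
    · rw [Set.disjoint_left]
      intro x hx hx'
      simp only [Set.mem_iUnion] at hx hx'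
      obtain ⟨u, hu, hxu⟩ := hx
      obtain ⟨w, hw, hxw⟩ := hx'
      rw [huniq _ _ _ hxu hxw] at hu
      exact Set.disjoint_left.1 hKL hu hw
    · intro h
      simp only [Set.mem_iUnion] at h
      obtain ⟨u, hu, hxu⟩ := h
      refine hvf u ?_ hxu
      rintro rfl
      exact hvK hu
    · intro h
      simp only [Set.mem_iUnion] at h
      obtain ⟨u, hu, hxu⟩ := h
      refine hvf u ?_ hxu
      rintro rfl
      exact hvL hu
    · exact Set.mem_biUnion haK (hg2 _)
    · refine Lnk.minor hf2 hf4 haK hab _ (hg2 _) _ ?_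
      rw [← hgb]
      exact hg2 _
    · exact Set.mem_biUnion hpL (hg2 _)
    · rw [hgp] at hpL
      refine Lnk.minor hf2 hf4 hpL hpq _ ?_ _ ?_
      · rw [← hgp]
        exact hg2 _
      · rw [← hgq]
        exact hg2 _
  · intro u hu
    have hPi : P (r u) := ⟨u, hu, (Nat.mod_eq_of_lt (hr1 u hu)).symm⟩
    have h1 : 0 < w (r u) := by
      change 0 < (if P (r u) then 1 else 0) + (if Q (r u) then 1 else 0) +
        (if r u % d = r x0 then 9 - (dg H v + O.ncard) else 0)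
      rw [if_pos hPi]
      omega
    obtain ⟨s, hs, hms⟩ := hm4 (r u) (hr1 u hu) h1
    refine ⟨⟨s, hs⟩, ?_⟩
    apply hrinj _ _ (hg1 _) hu
    rw [hg3, hms, Nat.mod_eq_of_lt (hr1 u hu)]
  · intro u hu
    have hu' := hO u hu
    have hPi : P (r u) := ⟨u, hu', (Nat.mod_eq_of_lt (hr1 u hu')).symm⟩
    have hQi : Q (r u) := ⟨u, hu, (Nat.mod_eq_of_lt (hr1 u hu')).symm⟩
    have h1 : 1 < w (r u) := by
      change 1 < (if P (r u) then 1 else 0) + (if Q (r u) then 1 else 0) +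
        (if r u % d = r x0 then 9 - (dg H v + O.ncard) else 0)
      rw [if_pos hPi, if_pos hQi]
      omega
    obtain ⟨s, hs, hms, hms'⟩ := hm5 (r u) (hr1 u hu') h1
    refine ⟨⟨s, by omega⟩, ⟨s + 1, hs⟩, ?_, ?_, ?_⟩
    · intro h
      have := congrArg Fin.val h
      simp at this
    · apply hrinj _ _ (hg1 _) hu'
      rw [hg3, hms, Nat.mod_eq_of_lt (hr1 u hu')]
    · apply hrinj _ _ (hg1 _) hu'
      rw [hg3, hms', Nat.mod_eq_of_lt (hr1 u hu')]

/-- The neighbours which can be made single, if slots exist. -/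
theorem ten_of_slots {U : Type} [Finite U] {H : SimpleGraph U} {v : U}
    (hslots : ∀ O : Set U, (∀ a b : U, ∃ c, H.Adj v c ∧ c ≠ a ∧ c ≠ b) →
      (∀ u ∈ O, H.Adj v u) → dg H v + O.ncard ≤ 9 →
      ∃ g : Fin 9 → U, Slots H v g ∧ (∀ u, H.Adj v u → ∃ s, g s = u) ∧
        ∀ u ∈ O, ∃ s t, s ≠ t ∧ g s = u ∧ g t = u)
    (A : Set (U → Fin 4)) (hne : A.Nonempty)
    (hA : ∀ φ ∈ A, ∀ i j X, KClosed H v φ i j X → kswap φ i j X ∈ A)
    (hnc : ∀ φ ∈ A, ∀ i, (nc H v φ i).Nonempty) :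
    10 ≤ dg H v + {u | ∃ φ ∈ A, ∃ i, nc H v φ i = {u}}.ncard := by
  by_contra hcon
  set O : Set U := {u | ∃ φ ∈ A, ∃ i, nc H v φ i = {u}} with hO
  obtain ⟨φ₀, hφ₀⟩ := hne
  have hOadj : ∀ u ∈ O, H.Adj v u := by
    rintro u ⟨φ, _, i, hu⟩
    have h1 : u ∈ nc H v φ i := by
      rw [hu]
      rfl
    exact h1.1
  have h3 : ∀ a b : U, ∃ c, H.Adj v c ∧ c ≠ a ∧ c ≠ b := by
    intro a b
    obtain ⟨i, hi1, hi2⟩ : ∃ i : Fin 4, i ≠ φ₀ a ∧ i ≠ φ₀ b := by
      have : ∀ x y : Fin 4, ∃ i : Fin 4, i ≠ x ∧ i ≠ y := by decide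
      exact this _ _
    obtain ⟨c, hc1, hc2⟩ := hnc φ₀ hφ₀ i
    refine ⟨c, hc1, ?_, ?_⟩
    · rintro rfl
      exact hi1 hc2.symm
    · rintro rfl
      exact hi2 hc2.symm
  obtain ⟨g, hg, hcov, hcov2⟩ := hslots O h3 hOadj (by omega)
  obtain ⟨w, ⟨φ, hφ, rfl⟩, c, hc⟩ := (hg.sys A hA).exists_small (w := fun s => φ₀ (g s))
    ⟨φ₀, hφ₀, rfl⟩
  rw [card_le_one] at hc
  simp only [mem_filter, mem_univ, true_and] at hc
  obtain ⟨u, hu1, hu2⟩ := hnc φ hφ c
  obtain ⟨s, rfl⟩ := hcov u hu1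
  by_cases hu : nc H v φ c = {g s}
  · obtain ⟨t, t', htt, ht, ht'⟩ := hcov2 (g s) ⟨φ, hφ, c, hu⟩
    refine htt (hc t ?_ t' ?_)
    · rw [ht]
      exact hu2
    · rw [ht']
      exact hu2
  · obtain ⟨u', hu', hne'⟩ : ∃ u' ∈ nc H v φ c, u' ≠ g s := by
      by_contra h
      push Not at h
      exact hu (Set.eq_singleton_iff_unique_mem.2 ⟨⟨hu1, hu2⟩, h⟩)
    obtain ⟨t, rfl⟩ := hcov u' hu'.1
    have h1 := hc t hu'.2 s hu2
    rw [h1] at hne'
    exact hne' rfl

/-- Minors of graphs on the sphere, with marked vertices, where the vertices outside `A` are never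
holes. -/
theorem minor_marks {V : Type} [Finite V] {G : SimpleGraph V} {A : Set V} (hG : SphereMinor G A)
    (hind : ∀ u w, u ∉ A → w ∉ A → ¬ G.Adj u w) (U : Set V) [DecidablePred (· ∈ U)]
    [DecidableEq V]
    (hcount : ∀ W : Finset V, (∃ v ∈ W, v ∈ A) → ∃ T ⊆ W, (∀ v ∈ T, v ∈ A) ∧
      2 * ein G T + 2 * ein G W < 10 * T.card + ein G (T.filter (· ∉ U)) + 2 * ein G (W \ T)) :
    ∃ c : V → Fin 4, Good G U c := by
  classical
  by_contra hcon
  push Not at hcon
  obtain ⟨W, _, f, hf, hcrit⟩ := exists_mcritical (by norm_num) G U hcon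
  have : Fintype W := Fintype.ofFinite W
  set K := G.comap f with hK
  set U' := f ⁻¹' U with hU'
  have hKe : SphereMinor K (f ⁻¹' A) := hG.comap f hf
  have hne : ∃ v : W, f v ∈ A := by
    by_contra hemp
    push Not at hemp
    refine hcrit.1 (fun _ => 0) ⟨?_, ?_⟩
    · intro v
      apply ncard_le_one_of
      rintro x ⟨hx, _⟩
      exact absurd hx (hind _ _ (hemp v) (hemp x))
    · intro u _ w hw
      exact absurd hw (hind _ _ (hemp u) (hemp w))
  let O : W → Set W := fun v => {u | ∃ φ ∈ {φ : W → Fin 4 | MOpt K U' v φ}, ∃ i, nc K v φ i = {u}}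
  have h10 : ∀ v, f v ∈ A → 10 ≤ dg K v + (O v).ncard := by
    intro v hv
    refine ten_of_slots (fun O h1 h2 h3 => hKe.exists_Slots hv h1 O h2 h3)
      {φ : W → Fin 4 | MOpt K U' v φ} ?_ ?_ ?_
    · exact exists_mopt (hcrit.2 v)
    · intro φ hφ i j X hX
      exact MOpt.swap hφ hX
    · intro φ hφ i
      exact MState.nc_nonempty hcrit.1 hφ.1 i
  have hO : ∀ v, ∀ u ∈ O v, K.Adj v u := by
    rintro v u ⟨φ, _, i, hu⟩
    have h1 : u ∈ nc K v φ i := by
      rw [hu]
      rfl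
    exact h1.1
  have hlt : ∀ v u, v ∉ U' → u ∉ U' → u ∈ O v → mlev 4 K U' u < mlev 4 K U' v := by
    rintro v u hv hu ⟨φ, hφ, i, hi⟩
    obtain ⟨ψ, h1, _, h2⟩ := MState.move hφ.1 hi
    have h3 := h2 (MState.single_sat hcrit.1 hφ.1 hi hv hu)
    have h4 := mlev_le h1
    have h5 : (sat K v φ).ncard = mlev 4 K U' v := hφ.2
    omega
  have hOO : ∀ v u, v ∉ U' → u ∉ U' → u ∈ O v → v ∉ O u := by
    intro v u hv hu h1 h2
    have h3 := hlt v u hv hu h1
    have h4 := hlt u v hu hv h2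
    omega
  obtain ⟨T, hT, hTA, hlt⟩ := hcount ((univ : Finset W).map ⟨f, hf⟩) (by
    obtain ⟨v, hv⟩ := hne
    exact ⟨f v, mem_map.2 ⟨v, mem_univ _, rfl⟩, hv⟩)
  -- the corresponding set of vertices of the critical graph
  let T' : Finset W := univ.filter fun x => f x ∈ T
  have hT' : T'.map ⟨f, hf⟩ = T := by
    ext x
    simp only [T', mem_map, mem_filter, mem_univ, true_and, Function.Embedding.coeFn_mk]
    constructor
    · rintro ⟨y, hy, rfl⟩
      exact hy
    · intro hx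
      obtain ⟨y, _, hy⟩ := mem_map.1 (hT hx)
      change f y = x at hy
      exact ⟨y, by rw [hy]; exact hx, hy⟩
  have hT'' : (T'.filter (· ∉ U')).map ⟨f, hf⟩ = T.filter (· ∉ U) := by
    ext x
    simp only [mem_map, mem_filter, Function.Embedding.coeFn_mk]
    constructor
    · rintro ⟨y, ⟨hy1, hy2⟩, rfl⟩
      refine ⟨?_, hy2⟩
      rw [← hT']
      exact mem_map.2 ⟨y, hy1, rfl⟩
    · rintro ⟨hx1, hx2⟩
      rw [← hT'] at hx1
      obtain ⟨y, hy1, hy2⟩ := mem_map.1 hx1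
      change f y = x at hy2
      refine ⟨y, ⟨hy1, ?_⟩, hy2⟩
      intro h
      apply hx2
      rw [← hy2]
      exact h
  have hTc : T'ᶜ.map ⟨f, hf⟩ = (univ : Finset W).map ⟨f, hf⟩ \ T := by
    ext x
    simp only [mem_map, mem_compl, mem_sdiff, mem_univ, true_and, Function.Embedding.coeFn_mk]
    constructor
    · rintro ⟨y, hy, rfl⟩
      refine ⟨⟨y, rfl⟩, ?_⟩
      intro h
      exact hy (mem_filter.2 ⟨mem_univ _, h⟩)
    · rintro ⟨⟨y, rfl⟩, hy⟩
      exact ⟨y, fun h => hy (mem_filter.1 h).2, rfl⟩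
  have h := mark_count K U' O hO hOO T' (fun v hv => h10 v (hTA _ (mem_filter.1 hv).2))
  have e1 : ein K T' = ein G T := by
    rw [hK, ein_comap G f hf, hT']
  have e2 : ein K (T'.filter (· ∉ U')) = ein G (T.filter (· ∉ U)) := by
    rw [hK, ein_comap G f hf, hT'']
  have e3 : ein K T'ᶜ = ein G ((univ : Finset W).map ⟨f, hf⟩ \ T) := by
    rw [hK, ein_comap G f hf, hTc]
  have e4 : ein K univ = ein G ((univ : Finset W).map ⟨f, hf⟩) := by
    rw [hK, ein_comap G f hf]
  have e5 : T'.card = T.card := by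
    rw [← hT', card_map]
  rw [e1, e2, e3, e4, e5] at h
  omega

end Pool.Agent.W986
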