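import Pool.Agent.W986.Minor
import Pool.Agent.W986.Count

/-!
# Cycle families and counting bounds for minors of graphs on the sphere
-/

set_option autoImplicit false

open Finset

namespace Pool.Agent.W986

open Pool.Agent.DC76

/-- The members of `b` are cycles of `H` which generate all the cycles, cover every edge at most
twice and have sum `0`. -/
structure Fam {U : Type} [Fintype U] (H : SimpleGraph U) {ι : Type} [Fintype ι]
    (b : ι → U → U → ZMod 2) : Prop where
  /-- the members are cycles -/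
  mem : ∀ j, b j ∈ Z H Set.univ
  /-- every edge is covered at most twice -/
  cov : ∀ u v, {j | b j u v ≠ 0}.ncard ≤ 2
  /-- the sum of all members is zero -/
  sum : ∑ j, b j = 0
  /-- all the cycles are generated -/
  gen : Z H Set.univ ≤ Submodule.span (ZMod 2) (Set.range b)

section walks

variable {V : Type} [Fintype V] [DecidableEq V]

/-- In the sphere the merged faces of a subgraph form a family of this kind. -/
theorem fam_bsum {G : SimpleGraph V} (hG : Conn G Set.univ) (hV : Nonempty V) {F : Type}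
    [Fintype F] (M : FacialWalks G F)
    (hχ : (Fintype.card V : ℤ) - G.edgeSet.ncard + Fintype.card F = 2)
    {K : SimpleGraph V} (hK : K ≤ G) [Fintype (Quotient (cls M K))] : Fam K (bsum M K) := by
  have hle : Z K Set.univ ≤ Z G Set.univ := fun z hz =>
    ⟨hz.1, fun u v h => ⟨hK (hz.2.1 u v h).1, Set.mem_univ _, Set.mem_univ _⟩, hz.2.2⟩
  have hWle : Submodule.span (ZMod 2) (Set.range (face M)) ≤ Z G Set.univ := by
    rw [Submodule.span_le]
    rintro _ ⟨f, rfl⟩
    exact face_mem M f
  have heq : Submodule.span (ZMod 2) (Set.range (face M)) = Z G Set.univ := by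
    refine Submodule.eq_of_le_of_finrank_le hWle ?_
    have h1 := face_rank M
    have h2 := finrank_Z hG hV
    omega
  refine ⟨fun j => bsum_mem M K j, bsum_cov M K, sum_bsum M K, ?_⟩
  refine le_trans (le_inf ?_ le_rfl) (inf_le_span M K)
  rw [heq]
  exact hle

end walks

section count

variable {U : Type} [Fintype U] [DecidableEq U]

theorem Fam.count {H : SimpleGraph U} {ι : Type} [Fintype ι] {b : ι → U → U → ZMod 2}
    (hb : Fam H b) (hne : Nonempty U) (q : ℕ)
    (hq : ∀ z ∈ Z H Set.univ, z ≠ 0 → q ≤ cnt z) :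
    H.edgeSet.ncard + 1 ≤ Fintype.card U ∨
      q * (H.edgeSet.ncard + 2) ≤ 4 * H.edgeSet.ncard + q * Fintype.card U := by
  classical
  have h1 := finrank_Z_ge H univ (univ_nonempty_iff.2 hne) (fun u v _ => ⟨mem_univ _, mem_univ _⟩)
  rw [card_univ] at h1
  have h2 := Submodule.finrank_mono hb.gen
  by_cases hn : (univ.filter fun j => b j ≠ 0).Nonempty
  · right
    have h7 := rank_le b hb.sum hn
    have h8 := cnt_sum_le H b (fun j u v h => by
      by_contra hc
      exact h ((hb.mem j).2.1 u v hc).1) hb.cov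
    have h9 : q * (univ.filter fun j => b j ≠ 0).card ≤ ∑ j, cnt (b j) := by
      rw [mul_comm, ← smul_eq_mul, ← Finset.sum_const]
      refine le_trans (Finset.sum_le_sum fun j hj => ?_)
        (Finset.sum_le_sum_of_subset (Finset.subset_univ _))
      exact hq _ (hb.mem j) (mem_filter.1 hj).2
    have h10 : H.edgeSet.ncard + 2 ≤
        Fintype.card U + (univ.filter fun j => b j ≠ 0).card := by omega
    have h11 : q * (H.edgeSet.ncard + 2) ≤
        q * (Fintype.card U + (univ.filter fun j => b j ≠ 0).card) := Nat.mul_le_mul_left q h10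
    rw [mul_add q (Fintype.card U)] at h11
    omega
  · left
    have h7 : Submodule.span (ZMod 2) (Set.range b) = ⊥ := by
      rw [Submodule.span_eq_bot]
      rintro _ ⟨j, rfl⟩
      by_contra h
      exact hn ⟨j, mem_filter.2 ⟨mem_univ _, h⟩⟩
    rw [h7, finrank_bot] at h2
    omega

/-- A nonzero cycle of a bipartite graph has at least four edges. -/
theorem eight_le_cnt {K : SimpleGraph U} {P : Set U} (hP : ∀ u v, K.Adj u v → (u ∈ P ↔ v ∉ P))
    {z : U → U → ZMod 2} (hz : z ∈ Z K Set.univ) (h0 : z ≠ 0) : 8 ≤ cnt z := by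
  obtain ⟨hz1, hz2, hz3⟩ := hz
  have h1 : ∃ u v, z u v ≠ 0 := by
    by_contra h
    push Not at h
    exact h0 (funext fun u => funext fun v => h u v)
  obtain ⟨u, v, huv⟩ := h1
  obtain ⟨w, hw, huw⟩ := row_two huv (hz3 u)
  have hvu : z v u ≠ 0 := by rw [hz1]; exact huv
  obtain ⟨t, ht, hvt⟩ := row_two hvu (hz3 v)
  have a1 := hP u v (hz2 u v huv).1
  have a2 := hP u w (hz2 u w huw).1
  have a3 := hP v t (hz2 v t hvt).1
  have hne1 : u ≠ v := (hz2 u v huv).1.ne
  have hne2 : u ≠ w := (hz2 u w huw).1.ne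
  have hne3 : v ≠ t := (hz2 v t hvt).1.ne
  have hne4 : w ≠ t := by
    rintro rfl
    tauto
  have r1 := row_card huv (hz3 u)
  have r2 := row_card hvu (hz3 v)
  have r3 := row_card (u := w) (v := u) (by rw [hz1 w u]; exact huw) (hz3 w)
  have r4 := row_card (u := t) (v := v) (by rw [hz1 t v]; exact hvt) (hz3 t)
  have h2 : ∑ x ∈ ({u, v, w, t} : Finset U), (univ.filter fun y => z x y ≠ 0).card ≤ cnt z :=
    Finset.sum_le_sum_of_subset (Finset.subset_univ _)
  rw [Finset.sum_insert (by simp [hne1, hne2, ht.symm]), Finset.sum_insert (by simp [hw.symm, hne3]),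
    Finset.sum_pair hne4] at h2
  omega

end count

section push

variable {U V : Type} [Fintype U] [Fintype V]

open Classical in
/-- A function on the pairs of vertices of `G` as a function on the pairs of vertices of `H`, if
`p u w`, `p w u` is the edge of `G` for the edge `uw` of `H`. -/
noncomputable def push (H : SimpleGraph U) (p : U → U → V) :
    (V → V → ZMod 2) →ₗ[ZMod 2] (U → U → ZMod 2) where
  toFun z u w := if H.Adj u w then z (p u w) (p w u) else 0
  map_add' := by
    intro y z
    funext u w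
    by_cases h : H.Adj u w <;> simp [h]
  map_smul' := by
    intro c z
    funext u w
    by_cases h : H.Adj u w <;> simp [h]

omit [Fintype U] [Fintype V] in
open Classical in
theorem push_apply (H : SimpleGraph U) (p : U → U → V) (z : V → V → ZMod 2) (u w : U) :
    push H p z u w = if H.Adj u w then z (p u w) (p w u) else 0 := rfl

/-- The edges of `G` inside the sets `f u` and the edges given by `p`. -/
def spanG (G : SimpleGraph V) (H : SimpleGraph U) (f : U → Set V) (p : U → U → V) :
    SimpleGraph V where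
  Adj x y := G.Adj x y ∧ ((∃ u, x ∈ f u ∧ y ∈ f u) ∨ ∃ u w, H.Adj u w ∧ x = p u w ∧ y = p w u)
  symm := ⟨by
    rintro x y ⟨h1, h2⟩
    refine ⟨h1.symm, ?_⟩
    rcases h2 with ⟨u, hx, hy⟩ | ⟨u, w, h, hx, hy⟩
    · exact Or.inl ⟨u, hy, hx⟩
    · exact Or.inr ⟨w, u, h.symm, hy, hx⟩⟩
  loopless := ⟨fun x h => G.loopless.irrefl x h.1⟩

omit [Fintype V] in
/-- A symmetric function which vanishes on the diagonal has an even sum over a square. -/
theorem square_sum {z : V → V → ZMod 2} (h1 : ∀ u v, z u v = z v u) (h2 : ∀ u, z u u = 0)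
    (S : Finset V) : ∑ x ∈ S, ∑ y ∈ S, z x y = 0 := by
  classical
  induction S using Finset.induction_on with
  | empty => simp
  | insert a S ha ih =>
    rw [Finset.sum_insert ha, Finset.sum_insert ha, h2, zero_add]
    have h3 : ∑ x ∈ S, ∑ y ∈ insert a S, z x y = ∑ x ∈ S, z x a + ∑ x ∈ S, ∑ y ∈ S, z x y := by
      rw [← Finset.sum_add_distrib]
      exact Finset.sum_congr rfl fun x _ => Finset.sum_insert ha
    rw [h3, ih, add_zero]
    have h4 : ∑ y ∈ S, z a y = ∑ x ∈ S, z x a := Finset.sum_congr rfl fun x _ => h1 a x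
    rw [h4]
    exact CharTwo.add_self_eq_zero _

variable {G : SimpleGraph V} {H : SimpleGraph U} {f : U → Set V} {p : U → U → V}

theorem push_mem (huniq : ∀ u w y, y ∈ f u → y ∈ f w → u = w)
    (hp : ∀ u w, H.Adj u w → p u w ∈ f u ∧ G.Adj (p u w) (p w u))
    {z : V → V → ZMod 2} (hz : z ∈ Z (spanG G H f p) Set.univ) : push H p z ∈ Z H Set.univ := by
  classical
  obtain ⟨hz1, hz2, hz3⟩ := hz
  have hz0 : ∀ u, z u u = 0 := by
    intro u
    by_contra h
    exact (spanG G H f p).loopless.irrefl u (hz2 u u h).1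
  refine ⟨?_, ?_, ?_⟩
  · intro u w
    rw [push_apply, push_apply]
    by_cases h : H.Adj u w
    · rw [if_pos h, if_pos h.symm, hz1]
    · rw [if_neg h, if_neg (fun h' => h h'.symm)]
  · intro u w h
    refine ⟨?_, Set.mem_univ _, Set.mem_univ _⟩
    by_contra h'
    rw [push_apply, if_neg h'] at h
    exact h rfl
  · intro u
    -- the sum over one pair of branch sets
    have key : ∀ w, ∑ x ∈ univ.filter (· ∈ f u), ∑ y ∈ univ.filter (· ∈ f w), z x y =
        push H p z u w := by
      intro w
      by_cases huw : u = w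
      · subst huw
        rw [square_sum hz1 hz0, push_apply, if_neg (H.loopless.irrefl u)]
      · have hsupp : ∀ x ∈ f u, ∀ y ∈ f w, z x y ≠ 0 → H.Adj u w ∧ x = p u w ∧ y = p w u := by
          intro x hx y hy h
          rcases (hz2 x y h).1.2 with ⟨v, hxv, hyv⟩ | ⟨v, v', hvv, hxv, hyv⟩
          · exact absurd ((huniq _ _ _ hx hxv).trans (huniq _ _ _ hyv hy)) huw
          · have e1 := huniq u v x hx (hxv ▸ (hp v v' hvv).1)
            have e2 := huniq w v' y hy (hyv ▸ (hp v' v hvv.symm).1)
            subst e1 e2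
            exact ⟨hvv, hxv, hyv⟩
        rw [push_apply]
        by_cases h : H.Adj u w
        · rw [if_pos h, Finset.sum_eq_single (p u w), Finset.sum_eq_single (p w u)]
          · intro y hy hne
            by_contra hc
            exact hne (hsupp _ (hp u w h).1 y (mem_filter.1 hy).2 hc).2.2
          · intro hn
            exact absurd (mem_filter.2 ⟨mem_univ _, (hp w u h.symm).1⟩) hn
          · intro x hx hne
            refine Finset.sum_eq_zero fun y hy => ?_
            by_contra hc
            exact hne (hsupp x (mem_filter.1 hx).2 y (mem_filter.1 hy).2 hc).2.1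
          · intro hn
            exact absurd (mem_filter.2 ⟨mem_univ _, (hp u w h).1⟩) hn
        · rw [if_neg h]
          refine Finset.sum_eq_zero fun x hx => Finset.sum_eq_zero fun y hy => ?_
          by_contra hc
          exact h (hsupp x (mem_filter.1 hx).2 y (mem_filter.1 hy).2 hc).1
    rw [← Finset.sum_congr rfl fun w _ => key w, Finset.sum_comm]
    refine Finset.sum_eq_zero fun x hx => ?_
    rw [← hz3 x]
    simp_rw [Finset.sum_filter]
    rw [Finset.sum_comm]
    refine Finset.sum_congr rfl fun y _ => ?_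
    by_cases h : z x y = 0
    · simp [h]
    · have hy : ∃ w, y ∈ f w := by
        rcases (hz2 x y h).1.2 with ⟨v, hxv, hyv⟩ | ⟨v, v', hvv, hxv, hyv⟩
        · exact ⟨v, hyv⟩
        · exact ⟨v', hyv ▸ (hp v' v hvv.symm).1⟩
      obtain ⟨w, hw⟩ := hy
      rw [Finset.sum_eq_single w]
      · rw [if_pos hw]
      · intro w' _ hne
        rw [if_neg]
        intro hw'
        exact hne (huniq _ _ _ hw' hw)
      · intro hn
        exact absurd (mem_univ _) hn

theorem push_surj (hconn : ∀ u, Conn G (f u)) (huniq : ∀ u w y, y ∈ f u → y ∈ f w → u = w)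
    (hp : ∀ u w, H.Adj u w → p u w ∈ f u ∧ G.Adj (p u w) (p w u))
    {y : U → U → ZMod 2} (hy : y ∈ Z H Set.univ) :
    ∃ z ∈ Z (spanG G H f p) Set.univ, push H p z = y := by
  classical
  obtain ⟨hy1, hy2, hy3⟩ := hy
  -- the edges between the branch sets
  set z0 : V → V → ZMod 2 := fun x x' =>
    ∑ u, ∑ w, if H.Adj u w ∧ x = p u w ∧ x' = p w u then y u w else 0 with hz0
  have z0symm : ∀ x x', z0 x x' = z0 x' x := by
    intro x x'
    rw [hz0]
    simp only
    rw [Finset.sum_comm]
    refine Finset.sum_congr rfl fun u _ => Finset.sum_congr rfl fun w _ => ?_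
    have h1 : (H.Adj w u ∧ x = p w u ∧ x' = p u w) ↔ (H.Adj u w ∧ x' = p u w ∧ x = p w u) :=
      ⟨fun h => ⟨h.1.symm, h.2.2, h.2.1⟩, fun h => ⟨h.1.symm, h.2.2, h.2.1⟩⟩
    rw [hy1 w u]
    by_cases h : H.Adj u w ∧ x' = p u w ∧ x = p w u
    · rw [if_pos h, if_pos (h1.2 h)]
    · rw [if_neg h, if_neg (fun h' => h (h1.1 h'))]
  have z0supp : ∀ x x', z0 x x' ≠ 0 → ∃ u w, H.Adj u w ∧ x = p u w ∧ x' = p w u := by
    intro x x' h
    by_contra hc
    push Not at hc
    apply h
    refine Finset.sum_eq_zero fun u _ => Finset.sum_eq_zero fun w _ => ?_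
    rw [if_neg]
    rintro ⟨h1, h2, h3⟩
    exact hc u w h1 h2 h3
  -- its boundary
  set r : V → ZMod 2 := fun x => ∑ x', z0 x x' with hr
  have hr1 : ∀ x, r x = ∑ u, ∑ w, if H.Adj u w ∧ x = p u w then y u w else 0 := by
    intro x
    rw [hr]
    simp only [hz0]
    rw [Finset.sum_comm]
    refine Finset.sum_congr rfl fun u _ => ?_
    rw [Finset.sum_comm]
    refine Finset.sum_congr rfl fun w _ => ?_
    by_cases h : H.Adj u w ∧ x = p u w
    · rw [if_pos h, Finset.sum_eq_single (p w u)]
      · rw [if_pos ⟨h.1, h.2, rfl⟩]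
      · intro x' _ hne
        rw [if_neg]
        rintro ⟨_, _, h3⟩
        exact hne h3
      · intro hn
        exact absurd (mem_univ _) hn
    · rw [if_neg h]
      refine Finset.sum_eq_zero fun x' _ => ?_
      rw [if_neg]
      rintro ⟨h1, h2, _⟩
      exact h ⟨h1, h2⟩
  have hr2 : ∀ u, ∑ x, (if x ∈ f u then r x else 0) = 0 := by
    intro u
    have h1 : ∀ x, (if x ∈ f u then r x else 0) =
        ∑ w, if H.Adj u w ∧ x = p u w then y u w else 0 := by
      intro x
      by_cases hx : x ∈ f u
      · rw [if_pos hx, hr1, Finset.sum_eq_single u]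
        · intro v _ hne
          refine Finset.sum_eq_zero fun w _ => ?_
          rw [if_neg]
          rintro ⟨h1, h2⟩
          exact hne (huniq _ _ _ (h2 ▸ (hp v w h1).1) hx)
        · intro hn
          exact absurd (mem_univ _) hn
      · rw [if_neg hx]
        symm
        refine Finset.sum_eq_zero fun w _ => ?_
        rw [if_neg]
        rintro ⟨h1, h2⟩
        exact hx (h2 ▸ (hp u w h1).1)
    rw [Finset.sum_congr rfl fun x _ => h1 x, Finset.sum_comm]
    refine Eq.trans (Finset.sum_congr rfl fun w _ => ?_) (hy3 u)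
    by_cases h : H.Adj u w
    · rw [Finset.sum_eq_single (p u w)]
      · rw [if_pos ⟨h, rfl⟩]
      · intro x _ hne
        rw [if_neg]
        rintro ⟨_, h2⟩
        exact hne h2
      · intro hn
        exact absurd (mem_univ _) hn
    · have h0 : y u w = 0 := by
        by_contra hc
        exact h (hy2 u w hc).1
      rw [h0]
      simp
  have hjoin : ∀ u, ∃ J : V → V → ZMod 2, (∀ x x', J x x' = J x' x) ∧
      (∀ x x', J x x' ≠ 0 → G.Adj x x' ∧ x ∈ f u ∧ x' ∈ f u) ∧
      ∀ x, ∑ x', J x x' = if x ∈ f u then r x else 0 := by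
    intro u
    refine join (hconn u) (fun x => if x ∈ f u then r x else 0) ?_ (hr2 u)
    intro x hx
    by_contra h
    exact hx (if_neg h)
  choose J hJ1 hJ2 hJ3 using hjoin
  refine ⟨fun x x' => z0 x x' + ∑ u, J u x x', ⟨?_, ?_, ?_⟩, ?_⟩
  · intro x x'
    change z0 x x' + ∑ u, J u x x' = z0 x' x + ∑ u, J u x' x
    rw [z0symm x x', Finset.sum_congr rfl fun u _ => hJ1 u x x']
  · intro x x' h
    refine ⟨?_, Set.mem_univ _, Set.mem_univ _⟩
    change z0 x x' + ∑ u, J u x x' ≠ 0 at h
    by_cases h0 : z0 x x' = 0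
    · rw [h0, zero_add] at h
      obtain ⟨u, _, hu⟩ := Finset.exists_ne_zero_of_sum_ne_zero h
      obtain ⟨h1, h2, h3⟩ := hJ2 u x x' hu
      exact ⟨h1, Or.inl ⟨u, h2, h3⟩⟩
    · obtain ⟨u, w, h1, h2, h3⟩ := z0supp x x' h0
      refine ⟨?_, Or.inr ⟨u, w, h1, h2, h3⟩⟩
      rw [h2, h3]
      exact (hp u w h1).2
  · intro x
    change ∑ x', (z0 x x' + ∑ u, J u x x') = 0
    have hJ4 : ∑ x', ∑ u, J u x x' = ∑ u, if x ∈ f u then r x else 0 := by
      rw [Finset.sum_comm]
      exact Finset.sum_congr rfl fun u _ => hJ3 u x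
    rw [Finset.sum_add_distrib, hJ4]
    change r x + _ = 0
    by_cases hx : ∃ u, x ∈ f u
    · obtain ⟨u, hu⟩ := hx
      rw [Finset.sum_eq_single u]
      · rw [if_pos hu]
        exact CharTwo.add_self_eq_zero _
      · intro w _ hne
        rw [if_neg]
        intro hw
        exact hne (huniq _ _ _ hw hu)
      · intro hn
        exact absurd (mem_univ _) hn
    · have h1 : r x = 0 := by
        rw [hr1]
        refine Finset.sum_eq_zero fun u _ => Finset.sum_eq_zero fun w _ => ?_
        rw [if_neg]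
        rintro ⟨h1, h2⟩
        exact hx ⟨u, h2 ▸ (hp u w h1).1⟩
      rw [h1, zero_add]
      refine Finset.sum_eq_zero fun u _ => ?_
      rw [if_neg]
      intro hu
      exact hx ⟨u, hu⟩
  · funext u w
    rw [push_apply]
    by_cases h : H.Adj u w
    · rw [if_pos h]
      have h1 : z0 (p u w) (p w u) = y u w := by
        change (∑ u', ∑ w', if H.Adj u' w' ∧ p u w = p u' w' ∧ p w u = p w' u' then y u' w'
          else 0) = y u w
        rw [Finset.sum_eq_single u, Finset.sum_eq_single w]
        · rw [if_pos ⟨h, rfl, rfl⟩]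
        · intro w' _ hne
          rw [if_neg]
          rintro ⟨h1, h2, h3⟩
          exact hne (huniq _ _ _ (h3 ▸ (hp w' u h1.symm).1) (hp w u h.symm).1)
        · intro hn
          exact absurd (mem_univ _) hn
        · intro u' _ hne
          refine Finset.sum_eq_zero fun w' _ => ?_
          rw [if_neg]
          rintro ⟨h1, h2, h3⟩
          exact hne (huniq _ _ _ (h2 ▸ (hp u' w' h1).1) (hp u w h).1)
        · intro hn
          exact absurd (mem_univ _) hn
      have h2 : ∑ v, J v (p u w) (p w u) = 0 := by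
        refine Finset.sum_eq_zero fun v _ => ?_
        by_contra hc
        obtain ⟨_, h3, h4⟩ := hJ2 v _ _ hc
        have e1 := huniq _ _ _ h3 (hp u w h).1
        have e2 := huniq _ _ _ h4 (hp w u h.symm).1
        exact h.ne (e1.symm.trans e2)
      change z0 (p u w) (p w u) + ∑ v, J v (p u w) (p w u) = y u w
      rw [h1, h2, add_zero]
    · rw [if_neg h]
      by_contra hc
      exact h (hy2 u w (fun h0 => hc h0.symm)).1

end push

/-- A minor of a graph on the sphere has a family of cycles as in the criterion of MacLane. -/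
theorem SphereMinor.exists_fam {U : Type} [Fintype U] [DecidableEq U] {H : SimpleGraph U}
    {A : Set U} (hH : SphereMinor H A) :
    ∃ (ι : Type) (_ : Fintype ι) (b : ι → U → U → ZMod 2), Fam H b := by
  classical
  obtain ⟨V, F, _, _, _, G, f, hf1, hf2, hf3, hf4, hf5, hG, ⟨M, hL⟩, hχ⟩ := hH
  have huniq : ∀ u w y, y ∈ f u → y ∈ f w → u = w := by
    intro u w y hu hw
    by_contra hne
    exact Set.disjoint_left.1 (hf3 u w hne) hu hw
  -- a symmetric choice of the edges
  have hlin : ∃ lt : U → U → Prop, (∀ u w, u ≠ w → (lt u w ↔ ¬ lt w u)) := by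
    refine ⟨WellOrderingRel, fun u w huw => ⟨fun h h' => ?_, fun h => ?_⟩⟩
    · exact asymm h h'
    · rcases trichotomous_of WellOrderingRel u w with h1 | h1 | h1
      · exact h1
      · exact absurd h1 huw
      · exact absurd h1 h
  obtain ⟨lt, hlt⟩ := hlin
  have hV : Nonempty V := hG.nonempty
  choose! P hP Q hQ hPQ using hf4
  let p : U → U → V := fun u w => if lt u w then P u w else Q w u
  have hp : ∀ u w, H.Adj u w → p u w ∈ f u ∧ G.Adj (p u w) (p w u) := by
    intro u w h
    change (if lt u w then P u w else Q w u) ∈ f u ∧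
      G.Adj (if lt u w then P u w else Q w u) (if lt w u then P w u else Q u w)
    by_cases h1 : lt u w
    · have h2 : ¬ lt w u := (hlt u w h.ne).1 h1
      rw [if_pos h1, if_neg h2]
      exact ⟨hP u w h, hPQ u w h⟩
    · have h2 : lt w u := (hlt w u h.ne').2 h1
      rw [if_neg h1, if_pos h2]
      exact ⟨hQ w u h.symm, (hPQ w u h.symm).symm⟩
  have hfin : Fintype (Quotient (cls M (spanG G H f p))) := Fintype.ofFinite _
  have hfam := fam_bsum (conn_univ hG) hV M hχ (K := spanG G H f p) (fun x y h => h.1)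
  refine ⟨_, hfin, fun j => push H p (bsum M (spanG G H f p) j), ?_, ?_, ?_, ?_⟩
  · intro j
    exact push_mem huniq hp (hfam.mem j)
  · intro u w
    refine le_trans (Set.ncard_le_ncard ?_ (Set.toFinite _)) (hfam.cov (p u w) (p w u))
    intro j hj
    change push H p (bsum M (spanG G H f p) j) u w ≠ 0 at hj
    rw [push_apply] at hj
    by_cases h : H.Adj u w
    · rw [if_pos h] at hj
      exact hj
    · rw [if_neg h] at hj
      exact absurd rfl hj
  · rw [← map_sum, hfam.sum, map_zero]
  · intro y hy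
    obtain ⟨z, hz, rfl⟩ := push_surj hf2 huniq hp hy
    have h1 := Submodule.mem_map_of_mem (f := push H p) (hfam.gen hz)
    rw [Submodule.map_span, ← Set.range_comp] at h1
    exact h1

theorem SphereMinor.edges {U : Type} [Fintype U] [DecidableEq U] {H : SimpleGraph U}
    {A : Set U} (hH : SphereMinor H A) (hne : Nonempty U) :
    H.edgeSet.ncard + 1 ≤ Fintype.card U ∨ H.edgeSet.ncard + 6 ≤ 3 * Fintype.card U := by
  obtain ⟨ι, _, b, hb⟩ := hH.exists_fam
  rcases hb.count hne 6 (fun z hz h0 => six_le_cnt hz h0) with h | h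
  · exact Or.inl h
  · right
    omega

theorem SphereMinor.edges_bip {U : Type} [Fintype U] [DecidableEq U] {H : SimpleGraph U}
    {A : Set U} (hH : SphereMinor H A) (hne : Nonempty U) {P : Set U}
    (hP : ∀ u v, H.Adj u v → (u ∈ P ↔ v ∉ P)) :
    H.edgeSet.ncard + 1 ≤ Fintype.card U ∨ H.edgeSet.ncard + 4 ≤ 2 * Fintype.card U := by
  obtain ⟨ι, _, b, hb⟩ := hH.exists_fam
  rcases hb.count hne 8 (fun z hz h0 => eight_le_cnt hP hz h0) with h | h
  · exact Or.inl h
  · right
    omega

theorem ein_comap_subtype {U : Type} [DecidableEq U] (H : SimpleGraph U) (X : Finset U) :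
    (H.comap (Subtype.val : {u // u ∈ X} → U)).edgeSet.ncard = ein H X := by
  have h1 := ein_comap H (Subtype.val : {u // u ∈ X} → U) Subtype.val_injective univ
  have h2 : (univ : Finset {u // u ∈ X}).map ⟨Subtype.val, Subtype.val_injective⟩ = X := by
    ext u
    simp
  rw [h2] at h1
  rw [← h1]
  unfold ein
  congr 1
  ext e
  simp

/-- At most `3|X| - 6` (or at most `|X| - 1`) edges inside a set of vertices. -/
theorem SphereMinor.ein_le {U : Type} [DecidableEq U] {H : SimpleGraph U}
    {A : Set U} (hH : SphereMinor H A) (X : Finset U) (hX : X.Nonempty) :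
    ein H X + 1 ≤ X.card ∨ ein H X + 6 ≤ 3 * X.card := by
  have h1 := SphereMinor.edges (hH.comap (Subtype.val : {u // u ∈ X} → U) Subtype.val_injective)
    ⟨⟨_, hX.choose_spec⟩⟩
  rw [ein_comap_subtype, Fintype.card_coe] at h1
  exact h1

/-- The bipartite case. -/
theorem SphereMinor.ein_le_bip {U : Type} [DecidableEq U] {H : SimpleGraph U}
    {A : Set U} (hH : SphereMinor H A) (X : Finset U) (hX : X.Nonempty) {P : Set U}
    (hP : ∀ u ∈ X, ∀ v ∈ X, H.Adj u v → (u ∈ P ↔ v ∉ P)) :
    ein H X + 1 ≤ X.card ∨ ein H X + 4 ≤ 2 * X.card := by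
  have h1 := SphereMinor.edges_bip
    (hH.comap (Subtype.val : {u // u ∈ X} → U) Subtype.val_injective)
    ⟨⟨_, hX.choose_spec⟩⟩ (P := Subtype.val ⁻¹' P) (fun u v h => hP u.1 u.2 v.1 v.2 h)
  rw [ein_comap_subtype, Fintype.card_coe] at h1
  exact h1

end Pool.Agent.W986
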