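import Mathlib

/-!
# Nine slots around a hole

Nine points on a circle are coloured with four colours, and for each of the three ways of forming
two pairs of colours, the components of the two pairs do not cross. Then some colouring obtained by
swaps of components has a class with at most one point.
-/

set_option autoImplicit false

open Finset

namespace Pool.Agent.W986

/-- The colours of nine slots, in cyclic order. -/
abbrev Word := Fin 9 → Fin 4

/-- The colours `i` and `j` exchanged on the slots in `X`. -/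
def wswap (i j : Fin 4) (X : Fin 9 → Bool) (w : Word) : Word :=
  fun s => if X s then Equiv.swap i j (w s) else w s

/-- The slot `s` comes after `a` and before `b`. -/
def btw (a b s : Fin 9) : Bool :=
  decide (0 < (s.val + 9 - a.val) % 9) && decide ((s.val + 9 - a.val) % 9 < (b.val + 9 - a.val) % 9)

/-- Four different colours. -/
def Four (i j k l : Fin 4) : Prop := i ≠ j ∧ i ≠ k ∧ i ≠ l ∧ j ≠ k ∧ j ≠ l ∧ k ≠ l

/-- `S` is closed under swaps: for every set `X` of slots either the swap of `i` and `j` on `X`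
is possible, or some component of the colours `i` and `j` contains a slot `a` of `X` and a slot `b`
outside `X`, and then the swap of the other colours between `a` and `b` is possible. -/
def Sys (S : Set Word) : Prop :=
  ∀ w ∈ S, ∀ i j k l : Fin 4, Four i j k l → ∀ X : Fin 9 → Bool,
    wswap i j X w ∈ S ∨ ∃ a b, X a = true ∧ X b = false ∧ (w a = i ∨ w a = j) ∧
      (w b = i ∨ w b = j) ∧ wswap k l (btw a b) w ∈ S

/-- Some colour occurs at most once. -/
def Small (w : Word) : Prop := ∃ c : Fin 4, (univ.filter fun s => w s = c).card ≤ 1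

/-- From the word `w` one always reaches a word with a small class. -/
inductive Win : Word → Prop
  | small (w : Word) (h : Small w) : Win w
  | step (w : Word) (i j k l : Fin 4) (hd : Four i j k l) (X : Fin 9 → Bool)
      (h1 : Win (wswap i j X w))
      (h2 : ∀ a b, X a = true → X b = false → (w a = i ∨ w a = j) → (w b = i ∨ w b = j) →
        Win (wswap k l (btw a b) w)) : Win w

theorem Win.sound {S : Set Word} (hS : Sys S) {w : Word} (h : Win w) (hw : w ∈ S) :
    ∃ w' ∈ S, Small w' := by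
  induction h with
  | small w h => exact ⟨w, hw, h⟩
  | step w i j k l hd X _ _ ih1 ih2 =>
    rcases hS w hw i j k l hd X with h3 | ⟨a, b, ha, hb, hca, hcb, h3⟩
    · exact ih1 h3
    · exact ih2 a b ha hb hca hcb h3

theorem wswap_perm (σ : Equiv.Perm (Fin 4)) (i j : Fin 4) (X : Fin 9 → Bool) (w : Word) :
    wswap (σ i) (σ j) X (σ ∘ w) = σ ∘ wswap i j X w := by
  funext s
  unfold wswap
  by_cases h : X s = true
  · simp only [h, if_true, Function.comp_apply]
    exact σ.injective.swap_apply i j (w s)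
  · simp [h]

theorem Win.perm (σ : Equiv.Perm (Fin 4)) {w : Word} (h : Win w) : Win (σ ∘ w) := by
  induction h with
  | small w h =>
    obtain ⟨c, hc⟩ := h
    refine Win.small _ ⟨σ c, ?_⟩
    have h1 : (univ.filter fun s => (σ ∘ w) s = σ c) = univ.filter fun s => w s = c := by
      ext s
      simp
    rw [h1]
    exact hc
  | step w i j k l hd X _ _ ih1 ih2 =>
    obtain ⟨h1, h2, h3, h4, h5, h6⟩ := hd
    refine Win.step _ (σ i) (σ j) (σ k) (σ l) ⟨σ.injective.ne h1, σ.injective.ne h2,
      σ.injective.ne h3, σ.injective.ne h4, σ.injective.ne h5, σ.injective.ne h6⟩ X ?_ ?_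
    · rw [wswap_perm]
      exact ih1
    · intro a b ha hb hca hcb
      rw [wswap_perm]
      refine ih2 a b ha hb ?_ ?_
      · rcases hca with h | h
        · exact Or.inl (σ.injective h)
        · exact Or.inr (σ.injective h)
      · rcases hcb with h | h
        · exact Or.inl (σ.injective h)
        · exact Or.inr (σ.injective h)

/-! ### Words as numbers -/

/-- The digit `s` of `n` in base `4`. -/
def dig (n s : ℕ) : ℕ := n / 4 ^ s % 4

theorem dig_lt (n s : ℕ) : dig n s < 4 := Nat.mod_lt _ (by norm_num)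

/-- The word with the number `n`. -/
def dec (n : ℕ) : Word := fun s => ⟨dig n s.val, dig_lt n s.val⟩

/-- The number with the digits `f 0, .., f 8`. -/
def enc (f : ℕ → ℕ) : ℕ :=
  f 0 + 4 * (f 1 + 4 * (f 2 + 4 * (f 3 + 4 * (f 4 + 4 * (f 5 + 4 * (f 6 + 4 * (f 7 + 4 * f 8)))))))

theorem dig_enc (f : ℕ → ℕ) (hf : ∀ s, f s < 4) (s : Fin 9) : dig (enc f) s.val = f s.val := by
  have h0 := hf 0
  have h1 := hf 1
  have h2 := hf 2
  have h3 := hf 3
  have h4 := hf 4
  have h5 := hf 5
  have h6 := hf 6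
  have h7 := hf 7
  have h8 := hf 8
  unfold dig enc
  fin_cases s <;> simp <;> omega

/-- The colours `i` and `j` exchanged. -/
def swp (i j c : ℕ) : ℕ := bif c == i then j else bif c == j then i else c

/-- The swap on the digits in `X`. -/
def swn (i j : ℕ) (X : ℕ → Bool) (n : ℕ) : ℕ :=
  enc fun s => bif X s then swp i j (dig n s) else dig n s

theorem swp_lt {i j c : ℕ} (hi : i < 4) (hj : j < 4) (hc : c < 4) : swp i j c < 4 := by
  unfold swp
  cases c == i <;> cases c == j <;> simp [*]

theorem swp_eq (i j c : Fin 4) : swp i.val j.val c.val = (Equiv.swap i j c).val := by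
  revert i j c
  decide

theorem dec_swn (i j : Fin 4) (X : ℕ → Bool) (n : ℕ) :
    dec (swn i.val j.val X n) = wswap i j (fun s => X s.val) (dec n) := by
  funext s
  apply Fin.ext
  unfold dec wswap swn
  change dig _ s.val = _
  rw [dig_enc]
  · cases h : X s.val
    · simp [h]
    · simp only [h, cond_true, if_true]
      exact swp_eq i j ⟨dig n s.val, dig_lt n s.val⟩
  · intro t
    cases X t
    · exact dig_lt n t
    · exact swp_lt i.2 j.2 (dig_lt n t)

/-- The numbers of the digits `0, 1, 2, 3`, in base `16`. -/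
def cc (n : ℕ) : ℕ :=
  16 ^ dig n 0 + 16 ^ dig n 1 + 16 ^ dig n 2 + 16 ^ dig n 3 + 16 ^ dig n 4 + 16 ^ dig n 5 +
    16 ^ dig n 6 + 16 ^ dig n 7 + 16 ^ dig n 8

/-- Some digit occurs at most once. -/
def smalln (m : ℕ) : Bool :=
  Nat.ble (m % 16) 1 || Nat.ble (m / 16 % 16) 1 || Nat.ble (m / 256 % 16) 1 ||
    Nat.ble (m / 4096 % 16) 1

theorem cc_eq (n : ℕ) :
    cc n = (univ.filter fun s : Fin 9 => dec n s = 0).card +
      16 * (univ.filter fun s : Fin 9 => dec n s = 1).card +
      256 * (univ.filter fun s : Fin 9 => dec n s = 2).card +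
      4096 * (univ.filter fun s : Fin 9 => dec n s = 3).card := by
  have key : ∀ c : Fin 4, 16 ^ c.val = (if c = 0 then 1 else 0) + 16 * (if c = 1 then 1 else 0) +
      256 * (if c = 2 then 1 else 0) + 4096 * (if c = 3 then 1 else 0) := by decide
  have h1 : cc n = ∑ s : Fin 9, 16 ^ (dec n s).val := by
    rw [Fin.sum_univ_castSucc, Fin.sum_univ_eight]
    rfl
  rw [h1, card_filter, card_filter, card_filter, card_filter, mul_sum, mul_sum, mul_sum,
    ← sum_add_distrib, ← sum_add_distrib, ← sum_add_distrib]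
  exact sum_congr rfl fun s _ => key _

theorem small_of {n : ℕ} (h : smalln (cc n) = true) : Small (dec n) := by
  have hle : ∀ c : Fin 4, (univ.filter fun s : Fin 9 => dec n s = c).card ≤ 9 := fun c =>
    (card_filter_le _ _).trans (by simp)
  have h0 := hle 0
  have h1 := hle 1
  have h2 := hle 2
  have h3 := hle 3
  rw [cc_eq] at h
  unfold smalln at h
  simp only [Bool.or_eq_true, Nat.ble_eq] at h
  rcases h with ((h | h) | h) | h
  · exact ⟨0, by omega⟩
  · exact ⟨1, by omega⟩
  · exact ⟨2, by omega⟩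
  · exact ⟨3, by omega⟩

/-- The splits of the colours. -/
def spl : ℕ → Fin 4 × Fin 4 × Fin 4 × Fin 4
  | 0 => (0, 1, 2, 3)
  | 1 => (0, 2, 1, 3)
  | 2 => (0, 3, 1, 2)
  | 3 => (2, 3, 0, 1)
  | 4 => (1, 3, 0, 2)
  | _ => (1, 2, 0, 3)

theorem spl_four (h : ℕ) : Four (spl h).1 (spl h).2.1 (spl h).2.2.1 (spl h).2.2.2 := by
  unfold spl Four
  split <;> decide

/-- The slot `s` comes after `a` and before `b`. -/
def btwn (a b s : ℕ) : Bool :=
  Nat.blt 0 ((s + 9 - a) % 9) && Nat.blt ((s + 9 - a) % 9) ((b + 9 - a) % 9)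

/-- The slot `s` is in the set with the number `X`. -/
def bit (X s : ℕ) : Bool := X / 2 ^ s % 2 == 1

/-- The slot `s` has one of the colours `i` and `j`. -/
def isP (i j n s : ℕ) : Bool := dig n s == i || dig n s == j

/-- The slots `0, .., 8`. -/
def slots : List ℕ := [0, 1, 2, 3, 4, 5, 6, 7, 8]

/-- The words required by a hint. -/
def reqs (i j k l X n : ℕ) : List ℕ :=
  swn i j (bit X) n :: slots.flatMap fun a =>
    bif bit X a && isP i j n a then
      slots.flatMap fun b => bif !bit X b && isP i j n b then [swn k l (btwn a b) n] else []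
    else []

theorem reqs_win {i j k l : Fin 4} (hd : Four i j k l) {X n : ℕ}
    (h : ∀ m ∈ reqs i.val j.val k.val l.val X n, Win (dec m)) : Win (dec n) := by
  refine Win.step _ i j k l hd (fun s => bit X s.val) ?_ ?_
  · rw [← dec_swn]
    exact h _ (List.mem_cons_self)
  · intro a b ha hb hca hcb
    have hP : ∀ s : Fin 9, (dec n s = i ∨ dec n s = j) → isP i.val j.val n s.val = true := by
      intro s hs
      unfold isP
      rcases hs with hs | hs
      · rw [← hs]
        simp [dec]
      · rw [← hs]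
        simp [dec]
    have hb' : btw a b = fun s : Fin 9 => btwn a.val b.val s.val := by
      funext s
      unfold btw btwn
      rw [Bool.eq_iff_iff]
      simp only [Bool.and_eq_true, decide_eq_true_eq, Nat.blt_eq]
    have hsl : ∀ s : Fin 9, s.val ∈ slots := by decide
    rw [hb', ← dec_swn]
    apply h
    refine List.mem_cons_of_mem _ (List.mem_flatMap.2 ⟨a.val, hsl a, ?_⟩)
    rw [ha, hP a hca]
    simp only [Bool.and_self, cond_true]
    refine List.mem_flatMap.2 ⟨b.val, hsl b, ?_⟩
    rw [hb, hP b hcb]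
    simp

/-- The check of a list of words with the help of a list of hints. -/
def run : List ℕ → List ℕ → Bool
  | [], [] => true
  | [], _ :: _ => false
  | _ :: _, [] => true
  | h :: hs, n :: st =>
    run hs (((reqs (spl (h / 512)).1.val (spl (h / 512)).2.1.val (spl (h / 512)).2.2.1.val
      (spl (h / 512)).2.2.2.val (h % 512) n).filter fun m => !smalln (cc m)) ++ st)

theorem run_win : ∀ (hs st : List ℕ), run hs st = true → ∀ n ∈ st, Win (dec n) := by
  intro hs
  induction hs with
  | nil =>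
    intro st h n hn
    cases st with
    | nil => simp at hn
    | cons a st => simp [run] at h
  | cons x hs ih =>
    intro st h n hn
    cases st with
    | nil => simp at hn
    | cons a st =>
      have h1 := ih _ h
      rcases List.mem_cons.1 hn with rfl | hn
      · refine reqs_win (spl_four (x / 512)) (X := x % 512) ?_
        intro m hm
        by_cases hsm : smalln (cc m) = true
        · exact Win.small _ (small_of hsm)
        · exact h1 m (List.mem_append_left _ (List.mem_filter.2 ⟨hm, by simpa using hsm⟩))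
      · exact h1 n (List.mem_append_right _ hn)

/-- The words of length `n + r` which extend `p`, up to the names of the colours not used. -/
def gen : ℕ → ℕ → ℕ → ℕ → List ℕ
  | 0, p, _, _ => [p]
  | r + 1, p, n, k => (List.range (min (k + 1) 4)).flatMap fun c =>
      gen r (p + c * 4 ^ n) (n + 1) (max k (c + 1))

theorem dig_add {p n c s : ℕ} (hp : p < 4 ^ n) (hc : c < 4) :
    dig (p + c * 4 ^ n) s = if s = n then c else dig p s := by
  unfold dig
  by_cases h : s = n
  · rw [if_pos h, h, Nat.add_mul_div_right _ _ (by positivity), Nat.div_eq_of_lt hp, zero_add,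
      Nat.mod_eq_of_lt hc]
  · rw [if_neg h]
    rcases Nat.lt_or_gt_of_ne h with h1 | h1
    · obtain ⟨t, rfl⟩ : ∃ t, n = s + 1 + t := ⟨n - (s + 1), by omega⟩
      have h2 : c * 4 ^ (s + 1 + t) = (4 * (c * 4 ^ t)) * 4 ^ s := by ring
      rw [h2, Nat.add_mul_div_right _ _ (by positivity), Nat.add_mul_mod_self_left]
    · have h2 : 4 ^ (n + 1) ≤ 4 ^ s := Nat.pow_le_pow_right (by norm_num) h1
      have h3 : p + c * 4 ^ n < 4 ^ s := by
        refine lt_of_lt_of_le ?_ h2
        have h4 : c * 4 ^ n ≤ 3 * 4 ^ n := Nat.mul_le_mul_right _ (by omega)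
        rw [pow_succ]
        omega
      have h5 : p < 4 ^ s := by omega
      rw [Nat.div_eq_of_lt h3, Nat.div_eq_of_lt h5]

theorem gen_win : ∀ (r p n k : ℕ), n + r = 9 → p < 4 ^ n → k ≤ 4 → (∀ s, s < n → dig p s < k) →
    (∀ m ∈ gen r p n k, Win (dec m)) → ∀ w : Word, (∀ s : Fin 9, s.val < n → (w s).val = dig p s) →
    Win w := by
  intro r
  induction r with
  | zero =>
    intro p n k hn hp hk hd h w hw
    have h1 : w = dec p := by
      funext s
      apply Fin.ext
      rw [hw s (by omega)]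
      rfl
    rw [h1]
    exact h p (by simp [gen])
  | succ r ih =>
    intro p n k hn hp hk hd h w hw
    have hn9 : n < 9 := by omega
    -- the claim when the next letter is at most `k`
    have key : ∀ w : Word, (∀ s : Fin 9, s.val < n → (w s).val = dig p s) →
        (w ⟨n, hn9⟩).val ≤ k → Win w := by
      intro w hw hc
      set c := (w ⟨n, hn9⟩).val with hcdef
      have hc4 : c < 4 := (w ⟨n, hn9⟩).2
      have hp' : p + c * 4 ^ n < 4 ^ (n + 1) := by
        have h4 : c * 4 ^ n ≤ 3 * 4 ^ n := Nat.mul_le_mul_right _ (by omega)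
        rw [pow_succ]
        omega
      refine ih (p + c * 4 ^ n) (n + 1) (max k (c + 1)) (by omega) hp' (by omega) ?_ ?_ w ?_
      · intro s hs
        rw [dig_add hp hc4]
        by_cases h1 : s = n
        · rw [if_pos h1]
          omega
        · rw [if_neg h1]
          have := hd s (by omega)
          omega
      · intro m hm
        apply h m
        unfold gen
        refine List.mem_flatMap.2 ⟨c, List.mem_range.2 (by omega), hm⟩
      · intro s hs
        rw [dig_add hp hc4]
        by_cases h1 : s.val = n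
        · rw [if_pos h1, hcdef]
          congr 2
          exact Fin.ext h1
        · rw [if_neg h1]
          exact hw s (by omega)
    by_cases hc : (w ⟨n, hn9⟩).val ≤ k
    · exact key w hw hc
    · push Not at hc
      have hk4 : k < 4 := lt_trans hc (w ⟨n, hn9⟩).2
      have h1 : Win (Equiv.swap (w ⟨n, hn9⟩) ⟨k, hk4⟩ ∘ w) := by
        refine key _ ?_ ?_
        · intro s hs
          have h2 := hd s.val hs
          have h3 := hw s hs
          have h4 : (w s).val < k := by omega
          rw [Function.comp_apply, Equiv.swap_apply_of_ne_of_ne]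
          · exact h3
          · intro h5
            rw [h5] at h4
            omega
          · intro h5
            rw [h5] at h4
            exact lt_irrefl _ h4
        · rw [Function.comp_apply, Equiv.swap_apply_left]
      have h2 := h1.perm (Equiv.swap (w ⟨n, hn9⟩) ⟨k, hk4⟩)
      have h3 : (Equiv.swap (w ⟨n, hn9⟩) ⟨k, hk4⟩) ∘ (Equiv.swap (w ⟨n, hn9⟩) ⟨k, hk4⟩) ∘ w = w := by
        funext s
        simp
      rw [h3] at h2
      exact h2

/-- The hints. -/
def hints : List ℕ := [
  2072, 2112, 2816, 1552, 1552, 1552, 2056, 1792, 2056, 2056, 2056, 1792, 2056, 1792, 2056, 2068,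
  2304, 2816, 1552, 1552, 1552, 2052, 1792, 2052, 2304, 2816, 1792, 2816, 1792, 2304, 2060, 2304,
  2816, 515, 544, 544, 2060, 2304, 2816, 515, 1088, 528, 2060, 515, 2060, 2060, 515, 2060,
  2060, 515, 2060, 515, 528, 2816, 515, 528, 2624, 528, 1056, 2080, 528, 592, 515, 2816,
  528, 2688, 528, 1027, 528, 528, 576, 2304, 2816, 2052, 2052, 2052, 2304, 2816, 1792, 576,
  2816, 128, 2304, 2052, 515, 2816, 576, 1088, 1544, 2052, 80, 2068, 2052, 144, 515, 1544,
  2068, 552, 16, 2052, 2816, 2304, 2816, 2052, 144, 1056, 1544, 2624, 584, 16, 2052, 144,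
  1544, 2308, 1027, 16, 16, 2052, 2052, 2052, 2052, 1560, 32, 2052, 160, 32, 2052, 32,
  2052, 32, 32, 64, 128, 2052, 2052, 2052, 2052, 1056, 2052, 1664, 2880, 2052, 64, 128,
  2052, 2052, 2052, 1027, 2052, 2688, 2052, 2816, 648, 2816, 2052, 2052, 128, 520, 2052, 2052,
  1552, 2304, 1152, 2052, 1792, 1028, 2304, 2052, 2052, 1168, 584, 515, 2052, 1792, 1028, 2052,
  2308, 1088, 2052, 520, 2052, 2052, 2052, 1792, 648, 1664, 2064, 2052, 2816, 64, 128, 1152,
  2052, 2052, 1088, 2052, 1792, 2052, 648, 2816, 520, 2052, 2052, 1792, 1664, 2308, 64, 2052,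
  520, 2052, 2052, 576, 584, 520, 2304, 520, 128, 520, 2064, 2064, 2064, 1552, 1552, 1552,
  2562, 1792, 2818, 2576, 2576, 1792, 2576, 1792, 2576, 517, 640, 2592, 256, 1041, 517, 544,
  544, 517, 32, 2304, 2816, 32, 2082, 2304, 2816, 517, 2058, 1028, 644, 2058, 2056, 2058,
  2058, 2056, 513, 528, 528, 2304, 2816, 528, 128, 528, 2304, 2176, 2080, 1664, 528, 516,
  1025, 1544, 513, 528, 528, 1152, 2688, 2312, 1025, 528, 516, 576, 2304, 2592, 1041, 64,
  1088, 1041, 1568, 1280, 1568, 768, 128, 576, 1152, 128, 640, 1060, 545, 2816, 544, 576,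
  1544, 1544, 16, 80, 1028, 544, 144, 513, 1544, 2066, 2562, 16, 16, 16, 2304, 2816,
  16, 544, 144, 2304, 1544, 16, 1152, 1544, 1025, 16, 16, 144, 1544, 640, 16, 1025,
  16, 16, 1060, 128, 1029, 577, 1560, 32, 32, 160, 32, 2050, 2818, 32, 32, 64,
  128, 1025, 577, 577, 1056, 1056, 1028, 1664, 2626, 2626, 64, 128, 1028, 641, 2050, 1029,
  1028, 513, 1028, 513, 545, 524, 1152, 128, 1152, 128, 640, 1092, 769, 1040, 2304, 2568,
  1600, 2568, 2568, 2304, 2176, 2568, 2824, 513, 1600, 2568, 2568, 2688, 2568, 2594, 513, 1544,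
  2816, 1092, 64, 2568, 2568, 64, 1792, 1028, 2304, 1664, 2568, 2824, 64, 128, 1152, 544,
  2568, 64, 2688, 1088, 1792, 1028, 1028, 513, 4, 2304, 2816, 2568, 1600, 2568, 2112, 1156,
  1792, 1664, 2568, 64, 2568, 2568, 1156, 2176, 576, 2562, 2568, 2304, 2568, 128, 513, 2566,
  2592, 2592, 513, 513, 1025, 1064, 640, 1033, 513, 513, 1025, 64, 513, 513, 1032, 641,
  513, 1032, 2054, 513, 1032, 513, 513, 2704, 1033, 513, 2576, 1056, 1032, 2304, 2176, 1032,
  2832, 513, 1033, 1032, 2688, 1032, 1025, 2576, 2576, 513, 513, 1025, 513, 513, 1025, 513,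
  513, 769, 513, 528, 513, 528, 528, 528, 1544, 1544, 1544, 513, 513, 2816, 80, 513,
  1040, 144, 513, 513, 2054, 513, 2848, 16, 1544, 513, 1544, 1025, 513, 16, 144, 513,
  2568, 2304, 2176, 1544, 1025, 2056, 16, 144, 16, 2688, 1544, 1025, 16, 16, 513, 513,
  1025, 513, 513, 769, 513, 1025, 513, 1056, 520, 520, 1560, 513, 32, 160, 513, 32,
  2054, 513, 32, 32, 513, 513, 769, 64, 128, 2054, 1792, 577, 513, 2054, 1664, 2080,
  64, 513, 769, 128, 2054, 2054, 641, 2054, 641, 769, 2054, 769, 520, 2064, 2320, 520,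
  520, 520, 513, 520, 520, 1025, 8, 513, 520, 520, 2688, 520, 1025, 2320, 2816, 513,
  520, 1025, 513, 769, 520, 520, 1792, 520, 513, 2592, 520, 2848, 64, 2054, 520, 128,
  1040, 2064, 520, 552, 2054, 520, 552, 769, 1792, 520, 2688, 520, 64, 520, 520, 520,
  520, 2624, 520, 2880, 520, 520, 1281, 520, 128, 520, 576, 2592, 2592, 1568, 2592, 1540,
  1568, 1568, 1540, 1056, 1540, 128, 1540, 2624, 1537, 545, 1033, 576, 1088, 1033, 64, 2066,
  2066, 513, 544, 2066, 513, 544, 2066, 544, 1033, 513, 24, 529, 1033, 2304, 2816, 1056,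
  3, 2577, 1056, 2176, 2832, 2576, 513, 1033, 128, 1033, 2688, 640, 2576, 1033, 2576, 2576,
  2624, 1537, 513, 1600, 40, 577, 1552, 513, 32, 2050, 1552, 513, 2050, 8, 32, 2304,
  8, 64, 1088, 2050, 577, 72, 1056, 1056, 513, 2050, 2576, 2832, 513, 513, 1792, 2816,
  641, 2050, 1540, 1796, 513, 513, 8, 545, 1152, 524, 128, 1152, 128, 640, 8, 513,
  1088, 769, 264, 1552, 1152, 136, 2432, 8, 2304, 2176, 8, 1552, 513, 136, 8, 2688,
  8, 1088, 8, 513, 2816, 3, 1090, 72, 3, 544, 544, 8, 1584, 513, 1664, 544,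
  8, 2576, 524, 2824, 8, 513, 128, 1025, 1152, 8, 2112, 2688, 1088, 1796, 1540, 2050,
  1540, 2304, 8, 8, 2178, 72, 2624, 8, 8, 64, 8, 64, 8, 8, 2624, 8,
  2176, 576, 1796, 8, 1088, 2304, 8, 8, 8, 2624, 644, 2056, 2082, 1088, 1, 2816,
  516, 513, 64, 1040, 1040, 2050, 2592, 513, 2050, 2592, 2848, 513, 529, 1025, 2056, 24,
  2304, 2816, 529, 3, 2080, 513, 769, 1152, 528, 528, 513, 516, 528, 1152, 2688, 2312,
  1025, 528, 516, 1056, 544, 544, 1568, 544, 544, 1568, 1025, 1056, 1056, 1025, 1540, 1552,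
  513, 2624, 513, 8, 2050, 1040, 32, 513, 2050, 32, 32, 2304, 8, 2082, 128, 1025,
  1600, 40, 64, 2112, 2058, 2080, 2080, 513, 2050, 2080, 2816, 2080, 513, 2624, 513, 72,
  513, 769, 1540, 2312, 532, 528, 2058, 532, 8, 1552, 1552, 2114, 2816, 2050, 1040, 136,
  513, 2050, 1152, 1552, 1552, 513, 8, 136, 2688, 1552, 2688, 1025, 8, 513, 2816, 513,
  1088, 2176, 256, 513, 1600, 2176, 128, 2688, 2592, 2592, 513, 2050, 64, 2592, 2848, 513,
  2114, 72, 1040, 1040, 1540, 2112, 548, 2050, 2592, 548, 8, 2050, 2178, 2050, 64, 64,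
  8, 8, 2816, 72, 1540, 2624, 1796, 2624, 2178, 1281, 8, 8, 8, 2624, 1600, 1548,
  577, 1040, 513, 2050, 1552, 1040, 2050, 513, 2050, 2848, 2592, 513, 2050, 2050, 16, 577,
  80, 2050, 2576, 1568, 16, 2050, 16, 16, 513, 16, 2050, 16, 641, 2050, 1025, 16,
  16, 16, 16, 2064, 2066, 2050, 545, 2066, 513, 2050, 2066, 2064, 513, 576, 1600, 1548,
  2050, 2050, 16, 1568, 16, 577, 16, 2050, 64, 16, 513, 2304, 80, 2050, 16, 2050,
  2306, 16, 16, 16, 2050, 16, 16, 1056, 32, 32, 2050, 32, 32, 2050, 64, 1056,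
  64, 1025, 2050, 2064, 1664, 545, 2064, 545, 2050, 2064, 2064, 2050, 2050, 2050, 545, 2050,
  1025, 2064, 2050, 545, 32, 2592, 1040, 2050, 2050, 2050, 2848, 1040, 64, 513, 1040, 1040,
  2050, 2050, 1600, 2306, 2050, 2050, 2720, 2050, 32, 2050, 64, 2050, 64, 2050, 2050, 2306,
  2050, 576, 576, 577, 2050, 2816, 2050, 2306, 2050, 2624, 1281, 2050, 2624, 2050, 2050, 513,
  2688, 644, 2056, 1600, 516, 1600, 516, 529, 1216, 516, 2312, 1152, 529, 2082, 529, 580,
  2082, 580, 2082, 516, 2056, 2688, 2944, 2056, 1088, 2312, 2816, 516, 516, 192, 516, 1568,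
  644, 2050, 516, 2592, 516, 1568, 768, 64, 128, 1152, 516, 2050, 1088, 1632, 580, 2050,
  644, 2816, 516, 516, 516, 1568, 64, 1568, 516, 64, 2312, 516, 2816, 516, 516, 576,
  580, 1632, 2050, 529, 2816, 1540, 128, 640, 2576, 2050, 16, 2114, 2072, 2816, 2050, 16,
  128, 2050, 16, 1056, 2050, 2832, 769, 2576, 513, 516, 8, 2072, 136, 2050, 1544, 2566,
  2112, 1025, 2112, 1120, 2050, 516, 2816, 1088, 576, 1032, 1600, 2176, 1600, 1088, 1568, 192,
  2114, 513, 2050, 64, 769, 1569, 64, 2114, 1664, 1026, 128, 2176, 2050, 2112, 548, 2050,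
  2050, 1096, 548, 769, 1568, 2178, 2050, 64, 64, 2050, 1025, 1538, 2050, 1152, 1664, 1026,
  2050, 2624, 516, 1056, 2050, 2178, 1056, 2050, 128, 516, 2576, 1664, 2576, 2050, 1056, 644,
  2050, 516, 32, 2832, 1056, 128, 2562, 2050, 1152, 516, 2050, 1600, 1600, 2050, 644, 32,
  2080, 2082, 2608, 513, 2050, 2082, 2566, 576, 2050, 2312, 1664, 128, 2562, 580, 1600, 32,
  516, 1600, 2050, 2056, 2050, 2688, 32, 1088, 64, 2112, 64, 2112, 1088, 2080, 2050, 576,
  576, 2050, 1664, 2050, 2050, 2050, 2056, 1568, 516, 2624, 2050, 1056, 2050, 1664, 2050, 513,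
  1152, 1538, 580, 640, 2688, 516, 1664, 516, 544, 516, 2114, 544, 2114, 516, 516, 2050,
  1600, 32, 516, 516, 32, 516, 516, 516, 2050, 2178, 2050, 516, 1568, 1088, 2592, 516,
  1025, 1152, 1664, 1600, 516, 1056, 32, 516, 1600, 2178, 32, 2050, 516, 516, 2592, 2050,
  1088, 516, 1089, 516, 513, 516, 2050, 2114, 548, 2050, 544, 548, 516, 1152, 2176, 516,
  516, 516, 64, 516, 64, 513, 516]

theorem run_ok : run hints ((gen 9 0 0 0).filter fun m => !smalln (cc m)) = true := by
  decide +kernel

theorem win_all (w : Word) : Win w := by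
  refine gen_win 9 0 0 0 rfl (by norm_num) (by norm_num) (by omega) ?_ w (by omega)
  intro m hm
  by_cases hsm : smalln (cc m) = true
  · exact Win.small _ (small_of hsm)
  · exact run_win _ _ run_ok m (List.mem_filter.2 ⟨hm, by simpa using hsm⟩)

/-- A system of words contains a word with a small class. -/
theorem Sys.exists_small {S : Set Word} (hS : Sys S) {w : Word} (hw : w ∈ S) :
    ∃ w' ∈ S, Small w' :=
  (win_all w).sound hS hw

end Pool.Agent.W986
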