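import Pool.Agent.W986.HubComp
import Pool.Agent.W986.Disjoint
import Pool.Agent.W986.Cover

/-!
# Two disjoint sets of a projective plane are not both unbalanced
-/

set_option autoImplicit false

open Finset

namespace Pool.Agent.W986

open Pool.Agent.DC76

/-- The restriction of `X` to the edges inside `K` is a coboundary. -/
def Bal {V : Type} (G : SimpleGraph V) (X : V → V → ZMod 2) (K : Set V) : Prop :=
  ∃ h : V → ZMod 2, ∀ x ∈ K, ∀ y ∈ K, G.Adj x y → h x + h y = X x y

theorem Bal.mono {V : Type} {G : SimpleGraph V} {X : V → V → ZMod 2} {K L : Set V}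
    (h : Bal G X L) (hKL : K ⊆ L) : Bal G X K := by
  obtain ⟨g, hg⟩ := h
  exact ⟨g, fun x hx y hy => hg x (hKL hx) y (hKL hy)⟩

theorem exists_half (V : Type) : ∃ lt : V → V → Prop, ∀ u w, u ≠ w → (lt u w ↔ ¬ lt w u) := by
  refine ⟨WellOrderingRel, fun u w huw => ⟨fun h h' => ?_, fun h => ?_⟩⟩
  · exact asymm h h'
  · rcases trichotomous_of WellOrderingRel u w with h1 | h1 | h1
    · exact h1
    · exact absurd h1 huw
    · exact absurd h1 h

section

variable {V : Type} [Fintype V] [DecidableEq V] {G : SimpleGraph V}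

/-- The functional given by `X`. -/
theorem exists_pairing {X : V → V → ZMod 2} (hX : ∀ x y, X x y = X y x) :
    ∃ ψ : (V → V → ZMod 2) →ₗ[ZMod 2] ZMod 2, ∀ x y, x ≠ y → ψ (ed x y) = X x y := by
  classical
  obtain ⟨lt, hlt⟩ := exists_half V
  refine ⟨{ toFun := fun z => ∑ u, ∑ v, if lt u v ∧ u ≠ v then X u v * z u v else 0
            map_add' := ?_
            map_smul' := ?_ }, ?_⟩
  · intro y z
    rw [← Finset.sum_add_distrib]
    refine Finset.sum_congr rfl fun u _ => ?_
    rw [← Finset.sum_add_distrib]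
    refine Finset.sum_congr rfl fun v _ => ?_
    by_cases h : lt u v ∧ u ≠ v
    · rw [if_pos h, if_pos h, if_pos h]
      change X u v * (y u v + z u v) = _
      ring
    · rw [if_neg h, if_neg h, if_neg h, add_zero]
  · intro c z
    rw [RingHom.id_apply, smul_eq_mul, Finset.mul_sum]
    refine Finset.sum_congr rfl fun u _ => ?_
    rw [Finset.mul_sum]
    refine Finset.sum_congr rfl fun v _ => ?_
    by_cases h : lt u v ∧ u ≠ v
    · rw [if_pos h, if_pos h]
      change X u v * (c * z u v) = _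
      ring
    · rw [if_neg h, if_neg h, mul_zero]
  · intro x y hxy
    change (∑ u, ∑ v, if lt u v ∧ u ≠ v then X u v * ed x y u v else 0) = X x y
    -- the only nonzero term
    have key : ∀ a b : V, a ≠ b → lt a b → (∀ u v, ed x y u v = ed a b u v) → X a b = X x y →
        (∑ u, ∑ v, if lt u v ∧ u ≠ v then X u v * ed x y u v else 0) = X x y := by
      intro a b hab hl he hXe
      rw [Finset.sum_eq_single a, Finset.sum_eq_single b]
      · rw [if_pos ⟨hl, hab⟩, he, ed_left, mul_one, hXe]
      · intro v _ hv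
        by_cases h : lt a v ∧ a ≠ v
        · rw [if_pos h, he]
          by_cases h2 : ed a b a v = 0
          · rw [h2, mul_zero]
          · rcases ed_eq h2 with ⟨_, h3⟩ | ⟨h3, _⟩
            · exact absurd h3 hv
            · exact absurd h3 hab
        · rw [if_neg h]
      · intro h
        exact absurd (mem_univ _) h
      · intro u _ hu
        refine Finset.sum_eq_zero fun v _ => ?_
        by_cases h : lt u v ∧ u ≠ v
        · rw [if_pos h, he]
          by_cases h2 : ed a b u v = 0
          · rw [h2, mul_zero]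
          · rcases ed_eq h2 with ⟨h3, _⟩ | ⟨h3, h4⟩
            · exact absurd h3 hu
            · rw [h3, h4] at h
              exact absurd h.1 ((hlt a b hab).1 hl)
        · rw [if_neg h]
      · intro h
        exact absurd (mem_univ _) h
    by_cases h : lt x y
    · exact key x y hxy h (fun _ _ => rfl) rfl
    · refine key y x hxy.symm ((hlt y x hxy.symm).2 h) (fun u v => ?_) (hX y x)
      unfold ed
      by_cases h1 : (u = x ∧ v = y) ∨ (u = y ∧ v = x)
      · rw [if_pos h1, if_pos (by tauto)]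
      · rw [if_neg h1, if_neg (by tauto)]

omit [Fintype V] in
theorem face_sum {F : Type} [Fintype F] (M : FacialWalks G F) (f : F) :
    face M f = ∑ t ∈ range (M.len f), ed (M.walk f t) (M.walk f (t + 1)) := by
  funext u v
  rw [Finset.sum_apply, Finset.sum_apply]
  unfold face trav ed
  rw [Finset.card_filter, Nat.cast_sum]
  refine Finset.sum_congr rfl fun t _ => ?_
  by_cases h : (M.walk f t = u ∧ M.walk f (t + 1) = v) ∨ (M.walk f t = v ∧ M.walk f (t + 1) = u)
  · rw [if_pos h, if_pos]
    · simp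
    · rcases h with ⟨h1, h2⟩ | ⟨h1, h2⟩
      · exact Or.inl ⟨h1.symm, h2.symm⟩
      · exact Or.inr ⟨h2.symm, h1.symm⟩
  · rw [if_neg h, if_neg]
    · simp
    · rintro (⟨h1, h2⟩ | ⟨h1, h2⟩)
      · exact h (Or.inl ⟨h1.symm, h2.symm⟩)
      · exact h (Or.inr ⟨h2.symm, h1.symm⟩)

omit [Fintype V] in
/-- The functional given by a cocycle vanishes on the boundaries. -/
theorem pairing_Bnd {F : Type} [Fintype F] (M : FacialWalks G F) {X : V → V → ZMod 2}
    (hf : ∀ f, ∑ t ∈ range (M.len f), X (M.walk f t) (M.walk f (t + 1)) = 0)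
    {ψ : (V → V → ZMod 2) →ₗ[ZMod 2] ZMod 2} (hψ : ∀ x y, x ≠ y → ψ (ed x y) = X x y)
    {z : V → V → ZMod 2} (hz : z ∈ Bnd M) : ψ z = 0 := by
  have h1 : Bnd M ≤ LinearMap.ker ψ := by
    rw [Submodule.span_le]
    rintro _ ⟨f, rfl⟩
    change ψ (face M f) = 0
    rw [face_sum, map_sum, ← hf f]
    refine Finset.sum_congr rfl fun t ht => ?_
    exact hψ _ _ (M.adj f t (mem_range.1 ht)).ne
  exact h1 hz

/-- In an unbalanced set there is a cycle with an odd number of edges in `X`. -/
theorem exists_odd_cycle {X : V → V → ZMod 2}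
    {ψ : (V → V → ZMod 2) →ₗ[ZMod 2] ZMod 2} (hψ : ∀ x y, x ≠ y → ψ (ed x y) = X x y)
    {K : Set V} (hK : ¬ Bal G X K) : ∃ z ∈ Z G K, ψ z ≠ 0 := by
  classical
  by_contra hcon
  push Not at hcon
  apply hK
  by_cases hne : K.Nonempty
  swap
  · exact ⟨fun _ => 0, fun x hx => absurd ⟨x, hx⟩ hne⟩
  obtain ⟨r0, hr0⟩ := hne
  -- representatives of the components
  let rep : Set V → V := fun C => if h : C.Nonempty then h.some else r0
  have hrep : ∀ x, rep (comp G K x) ∈ comp G K x := by
    intro x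
    have h1 : (comp G K x).Nonempty := ⟨x, comp_self⟩
    have h2 : rep (comp G K x) = h1.some := dif_pos h1
    rw [h2]
    exact h1.some_mem
  have hpath : ∀ x ∈ K, ∃ J : V → V → ZMod 2, (∀ u v, J u v = J v u) ∧
      (∀ u v, J u v ≠ 0 → (G.Adj u v ∧ u ∈ K ∧ v ∈ K)) ∧
      ∀ v, ∑ w, J v w = (if v = rep (comp G K x) then 1 else 0) + (if v = x then 1 else 0) := by
    intro x hx
    have h1 := hrep x
    have h2 : rep (comp G K x) ∈ K := comp_sub hx h1
    exact join_path (H := fun u v => G.Adj u v ∧ u ∈ K ∧ v ∈ K)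
      (fun u v h => ⟨h.1.symm, h.2.2, h.2.1⟩) (fun u h => G.loopless.irrefl u h.1)
      (Lnk.both (Lnk.symm h1 hx) h2)
  choose! J hJ1 hJ2 hJ3 using hpath
  refine ⟨fun x => ψ (J x), fun x hx y hy hxy => ?_⟩
  have hcomp : comp G K x = comp G K y := by
    have h1 : y ∈ comp G K x := comp_adj comp_self hy hxy
    ext z
    exact ⟨fun h => comp_trans (comp_symm hx h1) h, fun h => comp_trans h1 h⟩
  have hmem : J x + J y + ed x y ∈ Z G K := by
    refine ⟨fun u v => ?_, fun u v h => ?_, fun v => ?_⟩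
    · simp only [Pi.add_apply]
      rw [hJ1 x hx u v, hJ1 y hy u v, ed_symm x y u v]
    · by_contra hc
      have h1 : J x u v = 0 := by
        by_contra h2
        exact hc (hJ2 x hx u v h2)
      have h2 : J y u v = 0 := by
        by_contra h2
        exact hc (hJ2 y hy u v h2)
      have h3 : ed x y u v = 0 := by
        by_contra h3
        rcases ed_eq h3 with ⟨rfl, rfl⟩ | ⟨rfl, rfl⟩
        · exact hc ⟨hxy, hx, hy⟩
        · exact hc ⟨hxy.symm, hy, hx⟩
      apply h
      simp only [Pi.add_apply]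
      rw [h1, h2, h3]
      rfl
    · simp only [Pi.add_apply]
      rw [Finset.sum_add_distrib, Finset.sum_add_distrib, hJ3 x hx, hJ3 y hy, hcomp,
        ed_bd hxy.ne v]
      have h4 : ∀ p q s : ZMod 2, p + q + (p + s) + (q + s) = 0 := by decide
      exact h4 _ _ _
  have h1 := hcon _ hmem
  rw [map_add, map_add, hψ x y hxy.ne] at h1
  exact CharTwo.add_eq_zero.1 h1

/-- On a surface of Euler characteristic at least `1` one of two disjoint sets is balanced. -/
theorem no_two_odd {F : Type} [Fintype F] (hG : G.Connected) (M : FacialWalks G F)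
    (hχ : (1 : ℤ) ≤ (Fintype.card V : ℤ) - G.edgeSet.ncard + Fintype.card F)
    {X : V → V → ZMod 2} (hX : ∀ x y, X x y = X y x)
    (hf : ∀ f, ∑ t ∈ range (M.len f), X (M.walk f t) (M.walk f (t + 1)) = 0)
    {K L : Set V} (hKL : Disjoint K L) : Bal G X K ∨ Bal G X L := by
  classical
  by_contra hcon
  push Not at hcon
  obtain ⟨ψ, hψ⟩ := exists_pairing hX
  obtain ⟨z, hz, hz1⟩ := exists_odd_cycle hψ hcon.1
  obtain ⟨z', hz', hz1'⟩ := exists_odd_cycle hψ hcon.2
  have hsub : ∀ {S : Set V} {y : V → V → ZMod 2}, y ∈ Z G S → y ∈ Z G Set.univ :=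
    fun hy => ⟨hy.1, fun u v h => ⟨(hy.2.1 u v h).1, Set.mem_univ _, Set.mem_univ _⟩, hy.2.2⟩
  rcases disjoint_cycles (conn_univ hG) M hχ K (hsub hz) (hsub hz')
    (fun x y h => (hz.2.1 x y h).2.1)
    (fun x y h h1 => Set.disjoint_left.1 hKL h1 (hz'.2.1 x y h).2.1) with h | h
  · exact hz1 (pairing_Bnd M hf hψ h)
  · exact hz1' (pairing_Bnd M hf hψ h)

end

section cover

variable {V : Type} {G : SimpleGraph V} {X : V → V → ZMod 2}

/-- The two sheets over a set. -/
def sheets (K : Set V) : Set (V × ZMod 2) := {p | p.1 ∈ K}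

theorem sheets_shift {hX : ∀ x y, X x y = X y x} {K : Set V} {p q : V × ZMod 2}
    (h : Lnk (cover G X hX) (sheets K) p q) (s : ZMod 2) :
    Lnk (cover G X hX) (sheets K) (p.1, p.2 + s) (q.1, q.2 + s) := by
  induction h with
  | refl => exact Relation.ReflTransGen.refl
  | @tail b c _ h2 ih =>
    refine Relation.ReflTransGen.tail ih ⟨h2.1, h2.2.1, ?_⟩
    change c.2 + s = b.2 + s + X b.1 c.1
    rw [h2.2.2]
    ring

theorem sheets_lift {hX : ∀ x y, X x y = X y x} {K : Set V} {x y : V} (h : Lnk G K x y)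
    (a : ZMod 2) : ∃ b, Lnk (cover G X hX) (sheets K) (x, a) (y, b) := by
  induction h with
  | refl => exact ⟨a, Relation.ReflTransGen.refl⟩
  | @tail c d _ h2 ih =>
    obtain ⟨b, hb⟩ := ih
    exact ⟨b + X c d, hb.tail ⟨h2.1, h2.2, rfl⟩⟩

/-- The two sheets over a connected unbalanced set are connected. -/
theorem sheets_conn {hX : ∀ x y, X x y = X y x} {K : Set V} (hK : Conn G K) (hb : ¬ Bal G X K) :
    Conn (cover G X hX) (sheets K) := by
  classical
  by_cases hne : K.Nonempty
  swap
  · intro x hx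
    exact absurd ⟨_, hx⟩ hne
  obtain ⟨r, hr⟩ := hne
  have h01 : ∀ a : ZMod 2, a ≠ 0 → a = 1 := by decide
  -- the two vertices over `r` are linked
  have hrr : Lnk (cover G X hX) (sheets K) (r, 0) (r, 1) := by
    by_contra hcon
    apply hb
    have h1 : ∀ x ∈ K, ∃ b, Lnk (cover G X hX) (sheets K) (r, 0) (x, b) :=
      fun x hx => sheets_lift (hK r hr x hx) 0
    choose! h hh using h1
    have huniq : ∀ x ∈ K, ∀ b, Lnk (cover G X hX) (sheets K) (r, 0) (x, b) → b = h x := by
      intro x hx b hxb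
      by_contra hne
      apply hcon
      have h2 := sheets_shift hxb 1
      change Lnk (cover G X hX) (sheets K) (r, 0 + 1) (x, b + 1) at h2
      have h3 : b + 1 = h x := by
        have : ∀ p q : ZMod 2, p ≠ q → p + 1 = q := by decide
        exact this _ _ hne
      rw [h3, zero_add] at h2
      exact (hh x hx).trans (Lnk.symm h2 hr)
    refine ⟨h, fun x hx y hy hxy => ?_⟩
    have h2 : Lnk (cover G X hX) (sheets K) (r, 0) (y, h x + X x y) :=
      (hh x hx).tail ⟨hy, hxy, rfl⟩
    have h3 := huniq y hy _ h2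
    rw [← h3]
    have : ∀ p q : ZMod 2, p + (p + q) = q := by decide
    exact this _ _
  -- every vertex is linked with `(r, 0)`
  have hall : ∀ p ∈ sheets K, Lnk (cover G X hX) (sheets K) (r, 0) p := by
    rintro ⟨x, a⟩ hx
    obtain ⟨b, hxb⟩ := sheets_lift (hX := hX) (hK r hr x hx) 0
    by_cases hab : a = b
    · rw [hab]
      exact hxb
    · have h2 := sheets_shift hxb 1
      change Lnk (cover G X hX) (sheets K) (r, 0 + 1) (x, b + 1) at h2
      have h3 : b + 1 = a := by
        have : ∀ p q : ZMod 2, p ≠ q → q + 1 = p := by decide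
        exact this _ _ hab
      rw [h3, zero_add] at h2
      exact hrr.trans h2
  intro p hp q hq
  exact (Lnk.symm (hall p hp) hr).trans (hall q hq)

/-- The potential gives one of the two sheets over a connected balanced set. -/
theorem sheet_conn {hX : ∀ x y, X x y = X y x} {K : Set V} (hK : Conn G K) {h : V → ZMod 2}
    (hh : ∀ x ∈ K, ∀ y ∈ K, G.Adj x y → h x + h y = X x y) (s : ZMod 2) :
    Conn (cover G X hX) {p | p.1 ∈ K ∧ p.2 = h p.1 + s} := by
  have key : ∀ x ∈ K, ∀ y, Lnk G K x y →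
      Relation.ReflTransGen (fun a b => b ∈ {p : V × ZMod 2 | p.1 ∈ K ∧ p.2 = h p.1 + s} ∧
        (cover G X hX).Adj a b) (x, h x + s) (y, h y + s) := by
    intro x hx y hxy
    induction hxy with
    | refl => exact Relation.ReflTransGen.refl
    | @tail c d h1 h2 ih =>
      refine ih.tail ⟨⟨h2.1, rfl⟩, h2.2, ?_⟩
      change h d + s = h c + s + X c d
      rw [← hh c (Lnk.mem h1 hx) d h2.1 h2.2]
      have : ∀ p q r : ZMod 2, p + q = r + q + (r + p) := by decide
      exact this _ _ _
  rintro ⟨x, a⟩ ⟨hx, ha⟩ ⟨y, b⟩ ⟨hy, hb⟩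
  change a = h x + s at ha
  change b = h y + s at hb
  rw [ha, hb]
  exact key x hx y (hK x hx y hy)

end cover

end Pool.Agent.W986
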