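import Pool.Agent.W986.HomDim
import Pool.Agent.W986.LayTop

/-!
# A potential which counts pivotal vertices on every surface
-/

set_option autoImplicit false

open Finset

namespace Pool.Agent.W986

open Pool.Agent.DC76

variable {V : Type} [Fintype V] [DecidableEq V] {G : SimpleGraph V} {F : Type} [Fintype F]

/-- If connected sets `K`, `L` outside `v` are disjoint and contain neighbours of `v` which
interleave in the rotation at `v`, then the closed curves through `v` and `K` are not homologous to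
cycles inside `K`. -/
theorem Curve.not_mem_sup {M : FacialWalks G F} {v : V} {d : ℕ} {ν : ℕ → V} {fc : ℕ → F}
    (h : IsRot M v d ν fc) (hL : Link M) {K L : Set V} (hKL : Disjoint K L) (hvK : v ∉ K)
    (hvL : v ∉ L) {p j q k : ℕ} (hpj : p < j) (hjq : j < q) (hqk : q < k) (hkp : k < p + d)
    (hjL : ν j ∈ L) (hjk : Lnk G L (ν j) (ν k)) {z : V → V → ZMod 2}
    (hz : Curve G K v (ν p) (ν q) z) : z ∉ Z G K ⊔ Bnd M := by
  intro hcon
  obtain ⟨y, hy, b, hb, hyb⟩ := Submodule.mem_sup.1 hcon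
  have hy' := mem_Z_iff.1 hy
  have h2 : z + y = b := by
    rw [← hyb]
    funext a c
    simp only [Pi.add_apply]
    have h3 : ∀ p q : ZMod 2, p + q + p = q := by decide
    exact h3 _ _
  have hcur : Curve G K v (ν p) (ν q) (z + y) := by
    refine ⟨Submodule.add_mem _ hz.cyc hy'.1, fun a c hac => ?_, fun x => ?_⟩
    · by_cases h3 : z a c = 0
      · left
        refine hy'.2 a c fun h4 => hac ?_
        rw [Pi.add_apply, Pi.add_apply, h3, h4, add_zero]
      · exact hz.supp a c h3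
    · have h3 : y v x = 0 := by
        by_contra h3
        exact hvK (hy'.2 v x h3)
      rw [Pi.add_apply, Pi.add_apply, h3, add_zero]
      exact hz.at_v x
  exact hcur.not_bnd h hL hKL hvL hpj hjq hqk hkp hjL hjk (h2 ▸ hb)

omit [DecidableEq V] in
theorem Curve.mem {K K' : Set V} {v a b : V} {z : V → V → ZMod 2} (h : Curve G K v a b z)
    (hK : K ⊆ K') (hv : v ∈ K') : z ∈ Z G K' := by
  refine mem_Z_iff.2 ⟨h.cyc, fun x y hxy => ?_⟩
  rcases h.supp x y hxy with h1 | h1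
  · exact hK h1
  · rw [h1]
    exact hv

/-- The dimension of the classes of the cycles inside `A`. -/
noncomputable def hdim (M : FacialWalks G F) (A : Set V) : ℕ :=
  Module.finrank (ZMod 2) (Z G A ⊔ Bnd M : Submodule (ZMod 2) (V → V → ZMod 2)) -
    Module.finrank (ZMod 2) (Bnd M)

theorem hdim_mono (M : FacialWalks G F) {A B : Set V} (h : A ⊆ B) : hdim M A ≤ hdim M B := by
  have h1 : (Z G A ⊔ Bnd M : Submodule (ZMod 2) (V → V → ZMod 2)) ≤ Z G B ⊔ Bnd M :=
    sup_le_sup_right (Z_mono h) _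
  exact Nat.sub_le_sub_right (Submodule.finrank_mono h1) _

theorem hdim_lt (M : FacialWalks G F) {A B : Set V} (h : A ⊆ B) {z : V → V → ZMod 2}
    (hz : z ∈ Z G B) (hz' : z ∉ Z G A ⊔ Bnd M) : hdim M A + 1 ≤ hdim M B := by
  have h1 : (Z G A ⊔ Bnd M : Submodule (ZMod 2) (V → V → ZMod 2)) < Z G B ⊔ Bnd M := by
    refine lt_of_le_of_ne (sup_le_sup_right (Z_mono h) _) fun h2 => hz' ?_
    rw [h2]
    exact Submodule.mem_sup_left hz
  have h2 := Submodule.finrank_lt_finrank_of_lt h1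
  have h3 : Module.finrank (ZMod 2) (Bnd M) ≤ Module.finrank (ZMod 2)
      (Z G A ⊔ Bnd M : Submodule (ZMod 2) (V → V → ZMod 2)) :=
    Submodule.finrank_mono le_sup_right
  unfold hdim
  omega

theorem hdim_add_le (hG : Conn G Set.univ) (M : FacialWalks G F) (r : V) {A B : Set V}
    (h : Disjoint A B) (χ : ℤ)
    (hχ : χ ≤ (Fintype.card V : ℤ) - G.edgeSet.ncard + Fintype.card F) :
    ((hdim M A + hdim M B : ℕ) : ℤ) ≤ 2 - χ := by
  have h1 := dim_disjoint hG M A r
  have h2 : Fintype.card F ≤ Module.finrank (ZMod 2) (Bnd M) + 1 := face_rank M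
  have h3 := finrank_Z hG ⟨r⟩
  have h4 : hdim M B ≤ hdim M Aᶜ := hdim_mono M (Set.subset_compl_iff_disjoint_left.2 h)
  have h5 : Module.finrank (ZMod 2) (Bnd M) ≤ Module.finrank (ZMod 2)
      (Z G A ⊔ Bnd M : Submodule (ZMod 2) (V → V → ZMod 2)) :=
    Submodule.finrank_mono le_sup_right
  have h6 : Module.finrank (ZMod 2) (Bnd M) ≤ Module.finrank (ZMod 2)
      (Z G Aᶜ ⊔ Bnd M : Submodule (ZMod 2) (V → V → ZMod 2)) :=
    Submodule.finrank_mono le_sup_right
  unfold hdim at h4 ⊢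
  omega

end Pool.Agent.W986

namespace Pool.Agent.W986.Lay

open Pool.Agent.DC76 Pool.Agent.W986

variable {V : Type} [Fintype V] [DecidableEq V] {G : SimpleGraph V} {F : Type} [Fintype F]
  {U : Type} {H : SimpleGraph U}

/-- The vertices of `S` on the side `b` of the split `s`. -/
def cs (f : U → V) (S : Set U) (φ : U → Fin 4) (s : Fin 3) (b : Bool) : Set V :=
  {y | ∃ u ∈ S, f u = y ∧ sd s (φ u) = b}

/-- The sum over the three splits of the dimensions of the classes of cycles in the two sides. -/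
noncomputable def pot (M : FacialWalks G F) (f : U → V) (S : Set U) (φ : U → Fin 4) : ℕ :=
  ∑ s : Fin 3, ∑ b : Bool, hdim M (cs f S φ s b)

omit [Fintype V] [DecidableEq V] in
theorem cs_mono {f : U → V} {S T : Set U} (hST : S ⊆ T) {φ ψ : U → Fin 4}
    (h : ∀ x ∈ S, φ x = ψ x) (s : Fin 3) (b : Bool) : cs f S φ s b ⊆ cs f T ψ s b := by
  rintro y ⟨u, hu, h1, h2⟩
  exact ⟨u, hST hu, h1, by rw [← h u hu]; exact h2⟩

theorem pot_mono' {M : FacialWalks G F} {f : U → V} {S T : Set U} (hST : S ⊆ T)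
    {φ ψ : U → Fin 4} (h : ∀ x ∈ S, φ x = ψ x) : pot M f S φ ≤ pot M f T ψ :=
  Finset.sum_le_sum fun s _ => Finset.sum_le_sum fun b _ => hdim_mono M (cs_mono hST h s b)

theorem pot_mono {M : FacialWalks G F} {f : U → V} {S T : Set U} (hST : S ⊆ T)
    {φ : U → Fin 4} : pot M f S φ ≤ pot M f T φ :=
  pot_mono' hST fun _ _ => rfl

theorem pot_congr {M : FacialWalks G F} {f : U → V} {S : Set U} {φ ψ : U → Fin 4}
    (h : ∀ x ∈ S, φ x = ψ x) : pot M f S φ = pot M f S ψ :=
  le_antisymm (pot_mono' (subset_refl S) h) (pot_mono' (subset_refl S) fun x hx => (h x hx).symm)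

theorem pot_le (f : U → V) (hf : Function.Injective f) (hG : Conn G Set.univ)
    (M : FacialWalks G F) (χ : ℤ)
    (hχ : χ ≤ (Fintype.card V : ℤ) - G.edgeSet.ncard + Fintype.card F) (hV : Nonempty V)
    (S : Set U) (φ : U → Fin 4) : (pot M f S φ : ℤ) ≤ 3 * (2 - χ) := by
  obtain ⟨r⟩ := hV
  have h1 : ∀ s : Fin 3, ((∑ b : Bool, hdim M (cs f S φ s b) : ℕ) : ℤ) ≤ 2 - χ := by
    intro s
    rw [Fintype.sum_bool]
    refine hdim_add_le hG M r ?_ χ hχ
    rw [Set.disjoint_left]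
    rintro y ⟨u, hu, h2, h3⟩ ⟨u', hu', h4, h5⟩
    have h6 := hf (h2.trans h4.symm)
    subst h6
    rw [h3] at h5
    exact absurd h5 (by decide)
  have h2 := h1 0
  have h3 := h1 1
  have h4 := h1 2
  unfold pot
  rw [Fin.sum_univ_three]
  push_cast at h2 h3 h4 ⊢
  linarith

/-- A vertex which sees all four colours, pairwise linked by Kempe chains, raises the potential,
whatever its colour. -/
theorem cross_pot (f : U → V) (hf : Function.Injective f)
    (hHG : ∀ x y, H.Adj x y → G.Adj (f x) (f y)) {M : FacialWalks G F} (hL : Link M)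
    {S : Set U} {v : U} (hv : v ∉ S) {φ : U → Fin 4} (x : Fin 4 → U) (hx : ∀ i, x i ∈ S)
    (hvx : ∀ i, H.Adj v (x i)) (hφ : ∀ i, φ (x i) = i)
    (hlink : ∀ i j, i ≠ j → Relation.ReflTransGen
      (fun a b => (b ∈ S ∧ (φ b = i ∨ φ b = j)) ∧ H.Adj a b) (x i) (x j)) :
    ∀ ψ : U → Fin 4, (∀ y ∈ S, ψ y = φ y) → pot M f S φ + 1 ≤ pot M f (insert v S) ψ := by
  intro ψ hψ
  have hxinj : Function.Injective x := by
    intro i j hij
    rw [← hφ i, ← hφ j, hij]
  obtain ⟨d, ν, fc, hrot⟩ := exists_rot M hL (v := f v) (by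
    intro a b
    by_contra hcon
    push Not at hcon
    have h1 : ∀ i, f (x i) = a ∨ f (x i) = b := fun i => by
      by_cases h2 : f (x i) = a
      · exact Or.inl h2
      · exact Or.inr (hcon _ (hHG _ _ (hvx i)) h2)
    have h2 : ∀ i j : Fin 4, i ≠ j → f (x i) ≠ f (x j) := fun i j hij h3 => hij (hxinj (hf h3))
    have h01 := h2 0 1 (by decide)
    have h02 := h2 0 2 (by decide)
    have h12 := h2 1 2 (by decide)
    rcases h1 0 with h3 | h3 <;> rcases h1 1 with h4 | h4 <;> rcases h1 2 with h5 | h5 <;>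
      simp_all)
  choose t ht using fun i => (hrot.adj (f (x i))).1 (hHG _ _ (hvx i))
  have htinj : Function.Injective t := by
    intro i j hij
    apply hxinj
    apply hf
    rw [← (ht i).2, ← (ht j).2, hij]
  have hsm : StrictMono (t ∘ Tuple.sort t) :=
    (Tuple.monotone_sort t).strictMono_of_injective (htinj.comp (Tuple.sort t).injective)
  obtain ⟨σ, hσ⟩ : ∃ σ : Equiv.Perm (Fin 4), StrictMono (t ∘ σ) := ⟨Tuple.sort t, hsm⟩
  have h01 : t (σ 0) < t (σ 1) := hσ (show (0 : Fin 4) < 1 by decide)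
  have h12 : t (σ 1) < t (σ 2) := hσ (show (1 : Fin 4) < 2 by decide)
  have h23 : t (σ 2) < t (σ 3) := hσ (show (2 : Fin 4) < 3 by decide)
  have hne : ∀ i j : Fin 4, i ≠ j → σ i ≠ σ j := fun i j hij h => hij (σ.injective h)
  obtain ⟨s, hs1, hs2, hs3⟩ := split (σ 0) (σ 2) (σ 1) (σ 3) (hne _ _ (by decide))
    (hne _ _ (by decide)) (hne _ _ (by decide)) (hne _ _ (by decide)) (hne _ _ (by decide))
    (hne _ _ (by decide))
  have hPQ : Disjoint (cs f S φ s (sd s (σ 0))) (cs f S φ s (sd s (σ 1))) := by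
    rw [Set.disjoint_left]
    rintro y ⟨u, _, rfl, h2⟩ ⟨u', _, h3, h4⟩
    have h5 := hf h3
    subst h5
    exact hs3 (h2.symm.trans h4)
  have hvc : ∀ b, f v ∉ cs f S φ s b := by
    rintro b ⟨u, hu, h1, _⟩
    rw [hf h1] at hu
    exact hv hu
  have hlift : ∀ i j, i ≠ j → (∀ c, sd s c = sd s i ↔ (c = i ∨ c = j)) →
      Lnk G (cs f S φ s (sd s i)) (f (x i)) (f (x j)) := by
    intro i j hij hc
    refine (hlink i j hij).lift f fun a b hab => ⟨⟨b, hab.1.1, rfl, ?_⟩, hHG _ _ hab.2⟩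
    exact (hc _).2 hab.1.2
  have hpP : ν (t (σ 0)) ∈ cs f S φ s (sd s (σ 0)) := ⟨x (σ 0), hx _, (ht _).2.symm, by rw [hφ]⟩
  have hjQ : ν (t (σ 1)) ∈ cs f S φ s (sd s (σ 1)) := ⟨x (σ 1), hx _, (ht _).2.symm, by rw [hφ]⟩
  have hPl : Lnk G (cs f S φ s (sd s (σ 0))) (ν (t (σ 0))) (ν (t (σ 2))) := by
    rw [(ht _).2, (ht _).2]
    exact hlift _ _ (hne _ _ (by decide)) hs1
  have hQl : Lnk G (cs f S φ s (sd s (σ 1))) (ν (t (σ 1))) (ν (t (σ 3))) := by
    rw [(ht _).2, (ht _).2]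
    exact hlift _ _ (hne _ _ (by decide)) hs2
  have hkp : t (σ 3) < t (σ 0) + d := by
    have := (ht (σ 3)).1
    omega
  have hside : sd s (ψ v) = sd s (σ 0) ∨ sd s (ψ v) = sd s (σ 1) := by
    revert hs3
    generalize sd s (σ 0) = b1
    generalize sd s (σ 1) = b2
    generalize sd s (ψ v) = b
    revert b b1 b2
    decide
  have hmono : ∀ s b, hdim M (cs f S φ s b) ≤ hdim M (cs f (insert v S) ψ s b) := fun s b =>
    hdim_mono M (cs_mono (Set.subset_insert _ _) (fun x hx => (hψ x hx).symm) s b)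
  have hone : ∃ b, hdim M (cs f S φ s b) + 1 ≤ hdim M (cs f (insert v S) ψ s b) := by
    rcases hside with hb | hb
    · refine ⟨sd s (σ 0), ?_⟩
      obtain ⟨z, hz⟩ := exists_curve (hvc (sd s (σ 0))) hpP
        (hrot.ne (show t (σ 0) < t (σ 2) by omega) (by omega)) (hrot.adj' _) (hrot.adj' _) hPl
      have hsub := cs_mono (f := f) (Set.subset_insert v S) (fun x hx => (hψ x hx).symm) s
        (sd s (σ 0))
      refine hdim_lt M hsub (hz.mem hsub ⟨v, Set.mem_insert _ _, rfl, hb⟩) ?_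
      exact hz.not_mem_sup hrot hL hPQ (hvc _) (hvc _) h01 h12 h23 hkp hjQ hQl
    · refine ⟨sd s (σ 1), ?_⟩
      obtain ⟨z, hz⟩ := exists_curve (hvc (sd s (σ 1))) hjQ
        (hrot.ne (show t (σ 1) < t (σ 3) by omega) (by omega)) (hrot.adj' _) (hrot.adj' _) hQl
      have hsub := cs_mono (f := f) (Set.subset_insert v S) (fun x hx => (hψ x hx).symm) s
        (sd s (σ 1))
      refine hdim_lt M hsub (hz.mem hsub ⟨v, Set.mem_insert _ _, rfl, hb⟩) ?_
      have hqK := hPl.mem hpP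
      refine hz.not_mem_sup hrot hL hPQ.symm (hvc _) (hvc _) (p := t (σ 1)) (j := t (σ 2))
        (q := t (σ 3)) (k := t (σ 0) + d) h12 h23 hkp (by omega) hqK ?_
      rw [hrot.per]
      exact hPl.symm hpP
  obtain ⟨b, hb⟩ := hone
  unfold pot
  rw [← Finset.add_sum_erase univ _ (mem_univ s), ← Finset.add_sum_erase univ
    (fun s => ∑ b : Bool, hdim M (cs f (insert v S) ψ s b)) (mem_univ s)]
  have h5 : ∑ x ∈ univ.erase s, ∑ b : Bool, hdim M (cs f S φ x b) ≤
      ∑ x ∈ univ.erase s, ∑ b : Bool, hdim M (cs f (insert v S) ψ x b) :=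
    Finset.sum_le_sum fun x _ => Finset.sum_le_sum fun b _ => hmono x b
  have h6 : (∑ b : Bool, hdim M (cs f S φ s b)) + 1 ≤
      ∑ b : Bool, hdim M (cs f (insert v S) ψ s b) := by
    rw [Fintype.sum_bool, Fintype.sum_bool]
    have h7 := hmono s true
    have h8 := hmono s false
    cases b <;> omega
  omega

end Pool.Agent.W986.Lay
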