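import Pool.Agent.W986.Jordan
import Pool.Agent.DC76.Main

/-!
# Disjoint cycles on the sphere and the projective plane
-/

set_option autoImplicit false

open Finset

namespace Pool.Agent.W986

open Pool.Agent.DC76

variable {V : Type} [Fintype V] [DecidableEq V] {G : SimpleGraph V} {F : Type} [Fintype F]

/-- The boundaries modulo `2`. -/
abbrev Bnd (M : FacialWalks G F) : Submodule (ZMod 2) (V → V → ZMod 2) :=
  Submodule.span (ZMod 2) (Set.range (face M))

theorem bd_cast (M : FacialWalks G F) (I : Finset F) (x y : V) :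
    ((bd M I x y : ℕ) : ZMod 2) = (∑ f ∈ I, face M f) x y := by
  unfold bd
  rw [Nat.cast_sum, Finset.sum_apply, Finset.sum_apply]
  rfl

theorem mem_Bnd (M : FacialWalks G F) (z : V → V → ZMod 2) :
    z ∈ Bnd M ↔ ∃ I : Finset F, z = ∑ f ∈ I, face M f := by
  classical
  constructor
  · intro h
    obtain ⟨c, hc⟩ := (Submodule.mem_span_range_iff_exists_fun (ZMod 2)).1 h
    refine ⟨univ.filter fun f => c f ≠ 0, ?_⟩
    rw [← hc, Finset.sum_filter]
    refine Finset.sum_congr rfl fun f _ => ?_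
    have h01 : ∀ x : ZMod 2, x ≠ 0 → x = 1 := by decide
    by_cases h1 : c f = 0
    · simp [h1]
    · rw [if_pos h1, h01 _ h1, one_smul]
  · rintro ⟨I, rfl⟩
    exact Submodule.sum_mem _ fun f _ => Submodule.subset_span ⟨f, rfl⟩

theorem Bnd_le (M : FacialWalks G F) : Bnd M ≤ Z G Set.univ := by
  rw [Submodule.span_le]
  rintro _ ⟨f, rfl⟩
  exact face_mem M f

/-- On a surface of Euler characteristic at least `1` the sum of two cycles which are not boundaries
is a boundary. -/
theorem add_mem_Bnd (hG : Conn G Set.univ) (M : FacialWalks G F)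
    (hχ : (1 : ℤ) ≤ (Fintype.card V : ℤ) - G.edgeSet.ncard + Fintype.card F) (hV : Nonempty V)
    {z z' : V → V → ZMod 2} (hz : z ∈ Z G Set.univ) (hz' : z' ∈ Z G Set.univ)
    (h : z ∉ Bnd M) (h' : z' ∉ Bnd M) : z + z' ∈ Bnd M := by
  have h1 : Fintype.card F ≤ Module.finrank (ZMod 2) (Bnd M) + 1 := face_rank M
  have h2 := finrank_Z hG hV
  have hlt : Bnd M < Bnd M ⊔ Submodule.span (ZMod 2) {z} := by
    refine lt_of_le_of_ne le_sup_left fun heq => h ?_
    rw [heq]
    exact Submodule.mem_sup_right (Submodule.mem_span_singleton_self z)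
  have h3 := Submodule.finrank_lt_finrank_of_lt hlt
  have hle : Bnd M ⊔ Submodule.span (ZMod 2) {z} ≤ Z G Set.univ := by
    refine sup_le (Bnd_le M) ?_
    rw [Submodule.span_singleton_le_iff_mem]
    exact hz
  have heq : Bnd M ⊔ Submodule.span (ZMod 2) {z} = Z G Set.univ := by
    refine Submodule.eq_of_le_of_finrank_le hle ?_
    omega
  rw [← heq, Submodule.mem_sup] at hz'
  obtain ⟨w, hw, y, hy, hwy⟩ := hz'
  obtain ⟨c, rfl⟩ := Submodule.mem_span_singleton.1 hy
  have h01 : ∀ c : ZMod 2, c = 0 ∨ c = 1 := by decide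
  rcases h01 c with rfl | rfl
  · exfalso
    apply h'
    rw [← hwy, zero_smul, add_zero]
    exact hw
  · rw [← hwy, one_smul]
    have : z + (w + z) = w := by
      funext a b
      simp only [Pi.add_apply]
      have h4 : ∀ p q : ZMod 2, p + (q + p) = q := by decide
      exact h4 _ _
    rw [this]
    exact hw

/-- The pairing with the edges between `A` and its complement which are on the side `I`. -/
noncomputable def psi (M : FacialWalks G F) (I : Finset F) (A : Set V) :
    (V → V → ZMod 2) →ₗ[ZMod 2] ZMod 2 := by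
  classical
  exact
    { toFun := fun y => ∑ x, ∑ u, if x ∈ A ∧ u ∉ A ∧ side M I x u then y x u else 0
      map_add' := by
        intro y z
        rw [← Finset.sum_add_distrib]
        refine Finset.sum_congr rfl fun x _ => ?_
        rw [← Finset.sum_add_distrib]
        refine Finset.sum_congr rfl fun u _ => ?_
        by_cases h : x ∈ A ∧ u ∉ A ∧ side M I x u
        · simp [h]
        · simp only [if_neg h, add_zero]
      map_smul' := by
        intro c z
        simp only [RingHom.id_apply, smul_eq_mul, Pi.smul_apply]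
        rw [Finset.mul_sum]
        refine Finset.sum_congr rfl fun x _ => ?_
        rw [Finset.mul_sum]
        refine Finset.sum_congr rfl fun u _ => ?_
        by_cases h : x ∈ A ∧ u ∉ A ∧ side M I x u
        · simp only [if_pos h]
        · simp only [if_neg h, mul_zero] }

open Classical in
theorem psi_apply (M : FacialWalks G F) (I : Finset F) (A : Set V) (y : V → V → ZMod 2) :
    psi M I A y = ∑ x, ∑ u, if x ∈ A ∧ u ∉ A ∧ side M I x u then y x u else 0 := rfl

/-- A closed walk crosses from `A` to its complement an even number of times. -/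
theorem cross_even (A : Set V) (n : ℕ) (w : ℕ → V) (hc : w n = w 0) [DecidablePred (· ∈ A)] :
    ∑ x, ∑ u, (if x ∈ A ∧ u ∉ A then ((trav n w x u : ℕ) : ZMod 2) else 0) = 0 := by
  have h1 : ∀ x u, (if x ∈ A ∧ u ∉ A then ((trav n w x u : ℕ) : ZMod 2) else 0) =
      ∑ t ∈ range n, (if x ∈ A ∧ u ∉ A ∧ ((w t = x ∧ w (t + 1) = u) ∨
        (w t = u ∧ w (t + 1) = x)) then (1 : ZMod 2) else 0) := by
    intro x u
    by_cases h : x ∈ A ∧ u ∉ A
    · rw [if_pos h]
      unfold trav
      rw [card_filter, Nat.cast_sum]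
      refine Finset.sum_congr rfl fun t _ => ?_
      by_cases h2 : (w t = x ∧ w (t + 1) = u) ∨ (w t = u ∧ w (t + 1) = x)
      · rw [if_pos h2, if_pos ⟨h.1, h.2, h2⟩, Nat.cast_one]
      · rw [if_neg h2, if_neg (fun h3 => h2 h3.2.2), Nat.cast_zero]
    · rw [if_neg h]
      refine (Finset.sum_eq_zero fun t _ => ?_).symm
      rw [if_neg fun h3 => h ⟨h3.1, h3.2.1⟩]
  simp only [h1]
  have h2 : ∀ t, ∑ x, ∑ u, (if x ∈ A ∧ u ∉ A ∧ ((w t = x ∧ w (t + 1) = u) ∨
        (w t = u ∧ w (t + 1) = x)) then (1 : ZMod 2) else 0) =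
      (if w t ∈ A then 1 else 0) + (if w (t + 1) ∈ A then 1 else 0) := by
    intro t
    by_cases ha : w t ∈ A
    · by_cases hb : w (t + 1) ∈ A
      · rw [if_pos ha, if_pos hb]
        rw [Finset.sum_eq_zero]
        · rfl
        · intro x _
          refine Finset.sum_eq_zero fun u _ => ?_
          rw [if_neg]
          rintro ⟨_, h3, (⟨h4, h5⟩ | ⟨h4, h5⟩)⟩
          · exact h3 (h5 ▸ hb)
          · exact h3 (h4 ▸ ha)
      · rw [if_pos ha, if_neg hb, add_zero]
        rw [Finset.sum_eq_single (w t), Finset.sum_eq_single (w (t + 1))]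
        · rw [if_pos ⟨ha, hb, Or.inl ⟨rfl, rfl⟩⟩]
        · intro u _ hu
          rw [if_neg]
          rintro ⟨_, h3, (⟨h4, h5⟩ | ⟨h4, h5⟩)⟩
          · exact hu h5.symm
          · exact h3 (h4 ▸ ha)
        · intro h
          exact absurd (mem_univ _) h
        · intro x _ hx
          refine Finset.sum_eq_zero fun u _ => ?_
          rw [if_neg]
          rintro ⟨h2, h3, (⟨h4, h5⟩ | ⟨h4, h5⟩)⟩
          · exact hx h4.symm
          · exact hb (h5 ▸ h2)
        · intro h
          exact absurd (mem_univ _) h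
    · by_cases hb : w (t + 1) ∈ A
      · rw [if_neg ha, if_pos hb, zero_add]
        rw [Finset.sum_eq_single (w (t + 1)), Finset.sum_eq_single (w t)]
        · rw [if_pos ⟨hb, ha, Or.inr ⟨rfl, rfl⟩⟩]
        · intro u _ hu
          rw [if_neg]
          rintro ⟨_, h3, (⟨h4, h5⟩ | ⟨h4, h5⟩)⟩
          · exact h3 (h5 ▸ hb)
          · exact hu h4.symm
        · intro h
          exact absurd (mem_univ _) h
        · intro x _ hx
          refine Finset.sum_eq_zero fun u _ => ?_
          rw [if_neg]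
          rintro ⟨h2, h3, (⟨h4, h5⟩ | ⟨h4, h5⟩)⟩
          · exact ha (h4 ▸ h2)
          · exact hx h5.symm
        · intro h
          exact absurd (mem_univ _) h
      · rw [if_neg ha, if_neg hb, add_zero]
        refine Finset.sum_eq_zero fun x _ => Finset.sum_eq_zero fun u _ => ?_
        rw [if_neg]
        rintro ⟨h2, h3, (⟨h4, h5⟩ | ⟨h4, h5⟩)⟩
        · exact ha (h4 ▸ h2)
        · exact hb (h5 ▸ h2)
  have h4 : ∑ t ∈ range n, (if w (t + 1) ∈ A then (1 : ZMod 2) else 0) =
      ∑ t ∈ range n, (if w t ∈ A then (1 : ZMod 2) else 0) := by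
    have e1 := sum_range_succ (fun t => if w t ∈ A then (1 : ZMod 2) else 0) n
    have e2 := sum_range_succ' (fun t => if w t ∈ A then (1 : ZMod 2) else 0) n
    rw [e1] at e2
    simp only [hc] at e2
    exact (add_right_cancel e2).symm
  calc ∑ x, ∑ u, ∑ t ∈ range n, (if x ∈ A ∧ u ∉ A ∧ ((w t = x ∧ w (t + 1) = u) ∨
        (w t = u ∧ w (t + 1) = x)) then (1 : ZMod 2) else 0)
      = ∑ x, ∑ t ∈ range n, ∑ u, (if x ∈ A ∧ u ∉ A ∧ ((w t = x ∧ w (t + 1) = u) ∨
        (w t = u ∧ w (t + 1) = x)) then (1 : ZMod 2) else 0) :=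
        Finset.sum_congr rfl fun x _ => Finset.sum_comm
    _ = ∑ t ∈ range n, ∑ x, ∑ u, (if x ∈ A ∧ u ∉ A ∧ ((w t = x ∧ w (t + 1) = u) ∨
        (w t = u ∧ w (t + 1) = x)) then (1 : ZMod 2) else 0) := Finset.sum_comm
    _ = ∑ t ∈ range n, ((if w t ∈ A then (1 : ZMod 2) else 0) +
        (if w (t + 1) ∈ A then 1 else 0)) := Finset.sum_congr rfl fun t _ => h2 t
    _ = 0 := by
        rw [sum_add_distrib, h4]
        exact CharTwo.add_self_eq_zero _

theorem psi_face (M : FacialWalks G F) (I : Finset F) (A : Set V)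
    (hb : ∀ x u, x ∈ A → u ∉ A → bd M I x u ≠ 1) (f : F) : psi M I A (face M f) = 0 := by
  classical
  rw [psi_apply]
  have hadj : ∀ x u, face M f x u ≠ 0 → G.Adj x u := fun x u h => ((face_mem M f).2.1 x u h).1
  have hAt : ∀ x u, face M f x u ≠ 0 → At M f x u := by
    intro x u h h1
    apply h
    unfold face
    rw [h1, Nat.cast_zero]
  by_cases hf : f ∈ I
  · refine Eq.trans ?_ (cross_even A (M.len f) (M.walk f) (M.closed f))
    refine Finset.sum_congr rfl fun x _ => Finset.sum_congr rfl fun u _ => ?_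
    by_cases h1 : x ∈ A ∧ u ∉ A
    · rw [if_pos h1]
      by_cases h2 : face M f x u = 0
      · have h3 : ((trav (M.len f) (M.walk f) x u : ℕ) : ZMod 2) = 0 := h2
        rw [h3, h2]
        simp
      · rw [if_pos]
        · rfl
        · exact ⟨h1.1, h1.2, f, hf, hAt x u h2⟩
    · rw [if_neg h1, if_neg fun h2 => h1 ⟨h2.1, h2.2.1⟩]
  · refine Finset.sum_eq_zero fun x _ => Finset.sum_eq_zero fun u _ => ?_
    by_cases h1 : x ∈ A ∧ u ∉ A ∧ side M I x u
    · rw [if_pos h1]
      by_contra h2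
      exact hf ((mem_iff_side M I (hadj x u h2) (hb x u h1.1 h1.2.1) (hAt x u h2)).2 h1.2.2)
    · rw [if_neg h1]

theorem psi_Bnd (M : FacialWalks G F) (I : Finset F) (A : Set V)
    (hb : ∀ x u, x ∈ A → u ∉ A → bd M I x u ≠ 1) {y : V → V → ZMod 2} (hy : y ∈ Bnd M) :
    psi M I A y = 0 := by
  have h1 : Bnd M ≤ LinearMap.ker (psi M I A) := by
    rw [Submodule.span_le]
    rintro _ ⟨f, rfl⟩
    exact LinearMap.mem_ker.2 (psi_face M I A hb f)
  exact LinearMap.mem_ker.1 (h1 hy)

open Classical in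
theorem psi_ed (M : FacialWalks G F) (I : Finset F) (A : Set V) {x y : V} (hxy : x ≠ y) :
    psi M I A (ed x y) = if (x ∈ A ∧ y ∉ A ∨ y ∈ A ∧ x ∉ A) ∧ side M I x y then 1 else 0 := by
  rw [psi_apply]
  have key : ∀ a b : V, a ≠ b → a ∈ A → b ∉ A → ∑ x, ∑ u, (if x ∈ A ∧ u ∉ A ∧ side M I x u then
      ed a b x u else 0) = if side M I a b then 1 else 0 := by
    intro a b hab ha hb
    rw [Finset.sum_eq_single a, Finset.sum_eq_single b]
    · by_cases h : side M I a b
      · rw [if_pos ⟨ha, hb, h⟩, if_pos h, ed_left]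
      · rw [if_neg fun h1 => h h1.2.2, if_neg h]
    · intro u _ hu
      by_cases h : a ∈ A ∧ u ∉ A ∧ side M I a u
      · rw [if_pos h]
        by_contra h1
        rcases ed_eq h1 with ⟨_, h2⟩ | ⟨h2, _⟩
        · exact hu h2
        · exact hab h2
      · rw [if_neg h]
    · intro h
      exact absurd (mem_univ _) h
    · intro x _ hx
      refine Finset.sum_eq_zero fun u _ => ?_
      by_cases h : x ∈ A ∧ u ∉ A ∧ side M I x u
      · rw [if_pos h]
        by_contra h1
        rcases ed_eq h1 with ⟨h2, _⟩ | ⟨h2, _⟩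
        · exact hx h2
        · exact hb (h2 ▸ h.1)
      · rw [if_neg h]
    · intro h
      exact absurd (mem_univ _) h
  by_cases hx : x ∈ A
  · by_cases hy : y ∈ A
    · rw [if_neg (by tauto)]
      refine Finset.sum_eq_zero fun a _ => Finset.sum_eq_zero fun u _ => ?_
      by_cases h : a ∈ A ∧ u ∉ A ∧ side M I a u
      · rw [if_pos h]
        by_contra h1
        rcases ed_eq h1 with ⟨_, h2⟩ | ⟨_, h2⟩
        · exact h.2.1 (h2 ▸ hy)
        · exact h.2.1 (h2 ▸ hx)
      · rw [if_neg h]
    · rw [key x y hxy hx hy]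
      by_cases h : side M I x y
      · rw [if_pos h, if_pos ⟨Or.inl ⟨hx, hy⟩, h⟩]
      · rw [if_neg h, if_neg fun h1 => h h1.2]
  · by_cases hy : y ∈ A
    · have h1 : (ed x y : V → V → ZMod 2) = ed y x := by
        funext a b
        unfold ed
        congr 1
        exact propext or_comm
      rw [h1, key y x hxy.symm hy hx]
      by_cases h : side M I y x
      · rw [if_pos h, if_pos ⟨Or.inr ⟨hy, hx⟩, (side_comm M I y x).1 h⟩]
      · rw [if_neg h, if_neg fun h1 => h ((side_comm M I x y).1 h1.2)]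
    · rw [if_neg (by tauto)]
      refine Finset.sum_eq_zero fun a _ => Finset.sum_eq_zero fun u _ => ?_
      by_cases h : a ∈ A ∧ u ∉ A ∧ side M I a u
      · rw [if_pos h]
        by_contra h1
        rcases ed_eq h1 with ⟨h2, _⟩ | ⟨h2, _⟩
        · exact hx (h2 ▸ h.1)
        · exact hy (h2 ▸ h.1)
      · rw [if_neg h]

end Pool.Agent.W986
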