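import Pool.Agent.W986.C2Crit

/-!
# The list version (QL) of (C2)

Every vertex `v` has a list `L v` of colours, some vertices are marked.  `hq G L S X` is
`SUM_X (|L v| - 1) - e(X) - |S n X|`.  A triple is legal (with constant `k`) if `hq ≥ 0` on all
nonempty sets and `pot ≥ k` on all sets with at least two vertices.  The gap lemma: in a critical
triple every nonempty proper set has `hq` larger than the whole set.
-/

set_option autoImplicit false

open Finset

namespace Pool.Agent.W986.C2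

open Pool.Agent.W986

variable {V : Type}

/-- `SUM_X (|L v| - 1) - e(X) - |S n X|`. -/
noncomputable def hq (G : SimpleGraph V) (L : V → Finset (Fin 4)) (S X : Finset V) : ℤ :=
  (∑ x ∈ X, (((L x).card : ℤ) - 1)) - (ein G X : ℤ) - (mk S X : ℤ)

/-- `hq` is `pot` minus the number of missing colours. -/
theorem hq_eq (G : SimpleGraph V) (L : V → Finset (Fin 4)) (S X : Finset V) :
    hq G L S X = pot G S X - ∑ x ∈ X, (4 - ((L x).card : ℤ)) := by
  unfold hq pot
  have h : ∑ x ∈ X, (((L x).card : ℤ) - 1) + ∑ x ∈ X, (4 - ((L x).card : ℤ))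
      = 3 * (X.card : ℤ) := by
    rw [← Finset.sum_add_distrib]
    have h2 : ∀ x ∈ X, ((((L x).card : ℤ) - 1) + (4 - ((L x).card : ℤ))) = 3 := by
      intro x _
      ring
    rw [Finset.sum_congr rfl h2, Finset.sum_const]
    simp only [nsmul_eq_mul]
    ring
  linarith

theorem hq_full (G : SimpleGraph V) {L : V → Finset (Fin 4)} {S X : Finset V}
    (h : ∀ x ∈ X, L x = Finset.univ) : hq G L S X = pot G S X := by
  rw [hq_eq]
  have h2 : ∑ x ∈ X, (4 - ((L x).card : ℤ)) = 0 := by
    refine Finset.sum_eq_zero fun x hx => ?_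
    rw [h x hx, Finset.card_univ, Fintype.card_fin]
    norm_num
  linarith

theorem card_list_le (L : Finset (Fin 4)) : (L.card : ℤ) ≤ 4 := by
  have h := Finset.card_le_univ L
  rw [Fintype.card_fin] at h
  exact_mod_cast h

theorem hq_le_pot (G : SimpleGraph V) (L : V → Finset (Fin 4)) (S X : Finset V) :
    hq G L S X ≤ pot G S X := by
  rw [hq_eq]
  have h : 0 ≤ ∑ x ∈ X, (4 - ((L x).card : ℤ)) :=
    Finset.sum_nonneg fun x _ => by
      have := card_list_le (L x)
      linarith
  linarith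

theorem hq_union [DecidableEq V] (G : SimpleGraph V) (L : V → Finset (Fin 4)) (S : Finset V)
    {X Y : Finset V} (h : Disjoint X Y) :
    hq G L S (X ∪ Y) = hq G L S X + hq G L S Y - (dd G X Y : ℤ) := by
  rw [hq_eq, hq_eq, hq_eq, pot_union G S h, Finset.sum_union h]
  ring

theorem hq_inter_union [DecidableEq V] (G : SimpleGraph V) (L : V → Finset (Fin 4))
    (S X Y : Finset V) :
    hq G L S (X ∪ Y) + hq G L S (X ∩ Y) + (dd G (X \ Y) (Y \ X) : ℤ)
      = hq G L S X + hq G L S Y := by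
  rw [hq_eq, hq_eq, hq_eq, hq_eq]
  have h := pot_inter_union G S X Y
  have h2 : ∑ x ∈ X ∪ Y, (4 - ((L x).card : ℤ)) + ∑ x ∈ X ∩ Y, (4 - ((L x).card : ℤ))
      = ∑ x ∈ X, (4 - ((L x).card : ℤ)) + ∑ x ∈ Y, (4 - ((L x).card : ℤ)) :=
    Finset.sum_union_inter
  linarith

theorem hq_submod [DecidableEq V] (G : SimpleGraph V) (L : V → Finset (Fin 4))
    (S X Y : Finset V) :
    hq G L S (X ∪ Y) + hq G L S (X ∩ Y) ≤ hq G L S X + hq G L S Y := by
  have h := hq_inter_union G L S X Y
  have h2 : (0 : ℤ) ≤ (dd G (X \ Y) (Y \ X) : ℤ) := Int.natCast_nonneg _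
  linarith

theorem hq_empty (G : SimpleGraph V) (L : V → Finset (Fin 4)) (S : Finset V) :
    hq G L S ∅ = 0 := by
  rw [hq_eq, pot_empty, Finset.sum_empty]
  ring

theorem hq_singleton (G : SimpleGraph V) (L : V → Finset (Fin 4)) (S : Finset V) (v : V) :
    hq G L S {v} = ((L v).card : ℤ) - 1 - (ib (v ∈ S) : ℤ) := by
  rw [hq_eq, pot_singleton, Finset.sum_singleton]
  ring

theorem hq_insert (G : SimpleGraph V) (L : V → Finset (Fin 4)) (S : Finset V) [DecidableEq V]
    {X : Finset V} {v : V} (hv : v ∉ X) :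
    hq G L S (insert v X)
      = hq G L S X + (((L v).card : ℤ) - 1) - (nb G X v : ℤ) - (ib (v ∈ S) : ℤ) := by
  have hd : Disjoint ({v} : Finset V) X := Finset.disjoint_singleton_left.2 hv
  have h := hq_union G L S hd
  rw [dd_single] at h
  have h3 := hq_singleton G L S v
  rw [Finset.insert_eq, h, h3]
  ring

/-- The change of `hq` when the lists shrink. -/
theorem hq_lists (G : SimpleGraph V) {L L' : V → Finset (Fin 4)} {S X : Finset V} {g : V → ℕ}
    (h : ∀ x ∈ X, (L x).card ≤ (L' x).card + g x) :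
    hq G L S X ≤ hq G L' S X + ((∑ x ∈ X, g x : ℕ) : ℤ) := by
  rw [hq_eq, hq_eq]
  have h2 : ∑ x ∈ X, (4 - ((L' x).card : ℤ))
      ≤ ∑ x ∈ X, (4 - ((L x).card : ℤ)) + ((∑ x ∈ X, g x : ℕ) : ℤ) := by
    push_cast
    rw [← Finset.sum_add_distrib]
    refine Finset.sum_le_sum fun x hx => ?_
    have h3 : ((L x).card : ℤ) ≤ ((L' x).card : ℤ) + (g x : ℤ) := by exact_mod_cast h x hx
    linarith
  linarith

theorem hq_mark [DecidableEq V] (G : SimpleGraph V) (L : V → Finset (Fin 4)) (S X : Finset V)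
    (z : V) : hq G L S X - (ib (z ∈ X) : ℤ) ≤ hq G L (insert z S) X := by
  rw [hq_eq, hq_eq]
  have h := pot_mark G S X z
  linarith

/-- Legal triples, with constant `k`. -/
def LegQ (k : ℤ) (G : SimpleGraph V) (L : V → Finset (Fin 4)) (S U : Finset V) : Prop :=
  (∀ X : Finset V, X ⊆ U → X.Nonempty → 0 ≤ hq G L S X) ∧
  (∀ X : Finset V, X ⊆ U → 2 ≤ X.card → k ≤ pot G S X)

theorem LegQ.mono {k : ℤ} {G : SimpleGraph V} {L : V → Finset (Fin 4)} {S U U' : Finset V}
    (h : LegQ k G L S U) (hU : U' ⊆ U) : LegQ k G L S U' :=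
  ⟨fun X hX hne => h.1 X (hX.trans hU) hne, fun X hX h2 => h.2 X (hX.trans hU) h2⟩

/-- Good colourings from the lists. -/
def GoodL (G : SimpleGraph V) (L : V → Finset (Fin 4)) (S U : Finset V) (c : V → Fin 4) : Prop :=
  Good G S U c ∧ ∀ v ∈ U, c v ∈ L v

/-- The triple has a good colouring. -/
def ColL (G : SimpleGraph V) (L : V → Finset (Fin 4)) (S U : Finset V) : Prop :=
  ∃ c, GoodL G L S U c

/-- The statement (QL) with constant `k`. -/
def QLStmt (k : ℤ) : Prop :=
  ∀ (V : Type) (_ : Finite V) (G : SimpleGraph V) (L : V → Finset (Fin 4)) (S U : Finset V),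
    LegQ k G L S U → ColL G L S U

/-- A critical triple: legal, not colourable, all legal triples with fewer vertices are colourable,
and so are all legal triples with the same number of vertices and larger `hq`. -/
structure CritQ (k : ℤ) (G : SimpleGraph V) (L : V → Finset (Fin 4)) (S U : Finset V) : Prop where
  leg : LegQ k G L S U
  ncol : ¬ ColL G L S U
  sub : ∀ (G' : SimpleGraph V) (L' : V → Finset (Fin 4)) (S' U' : Finset V),
    U'.card < U.card → LegQ k G' L' S' U' → ColL G' L' S' U'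
  top : ∀ (G' : SimpleGraph V) (L' : V → Finset (Fin 4)) (S' U' : Finset V),
    U'.card = U.card → LegQ k G' L' S' U' → hq G L S U < hq G' L' S' U' → ColL G' L' S' U'

theorem exists_critQ {k : ℤ} {G : SimpleGraph V} {L : V → Finset (Fin 4)} {S U : Finset V}
    (h1 : LegQ k G L S U) (h2 : ¬ ColL G L S U) :
    ∃ (G' : SimpleGraph V) (L' : V → Finset (Fin 4)) (S' U' : Finset V), CritQ k G' L' S' U' := by
  classical
  have hex : ∃ n, ∃ (G' : SimpleGraph V) (L' : V → Finset (Fin 4)) (S' U' : Finset V),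
      LegQ k G' L' S' U' ∧ ¬ ColL G' L' S' U' ∧ U'.card = n := ⟨U.card, G, L, S, U, h1, h2, rfl⟩
  set n := Nat.find hex with hn
  have hn1 := Nat.find_spec hex
  have hex2 : ∃ m : ℕ, ∃ (G' : SimpleGraph V) (L' : V → Finset (Fin 4)) (S' U' : Finset V),
      LegQ k G' L' S' U' ∧ ¬ ColL G' L' S' U' ∧
      U'.card = n ∧ 3 * (n : ℤ) - hq G' L' S' U' = (m : ℤ) := by
    obtain ⟨G', L', S', U', h3, h4, h5⟩ := hn1
    refine ⟨(3 * (n : ℤ) - hq G' L' S' U').toNat, G', L', S', U', h3, h4, h5, ?_⟩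
    have h6 := (hq_le_pot G' L' S' U').trans (pot_le_card G' S' U')
    rw [h5] at h6
    rw [Int.toNat_of_nonneg (by linarith)]
  obtain ⟨G', L', S', U', h3, h4, h5, h6⟩ := Nat.find_spec hex2
  refine ⟨G', L', S', U', h3, h4, ?_, ?_⟩
  · intro G'' L'' S'' U'' h7 h8
    by_contra h9
    have h10 := Nat.find_min' hex ⟨G'', L'', S'', U'', h8, h9, rfl⟩
    rw [h5] at h7
    exact absurd h10 (by omega)
  · intro G'' L'' S'' U'' h7 h8 h9
    by_contra h10
    have h11 := (hq_le_pot G'' L'' S'' U'').trans (pot_le_card G'' S'' U'')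
    rw [h7, h5] at h11
    have h12 := Nat.find_min' hex2 (m := (3 * (n : ℤ) - hq G'' L'' S'' U'').toNat)
      ⟨G'', L'', S'', U'', h8, h10, h7.trans h5, by rw [Int.toNat_of_nonneg (by linarith)]⟩
    have h14 : ((3 * (n : ℤ) - hq G'' L'' S'' U'').toNat : ℤ) = 3 * (n : ℤ) - hq G'' L'' S'' U'' :=
      Int.toNat_of_nonneg (by linarith)
    have h13 : ((Nat.find hex2 : ℕ) : ℤ) ≤ 3 * (n : ℤ) - hq G'' L'' S'' U'' := by
      rw [← h14]
      exact_mod_cast h12
    rw [← h6] at h13
    linarith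

section combine

variable [DecidableEq V]

/-- Colour `Y` first, delete the colours used at the neighbours, colour the rest. -/
theorem GoodL.combine {G : SimpleGraph V} {L L' : V → Finset (Fin 4)} {S Y U : Finset V}
    {c₀ c' : V → Fin 4} (h0 : GoodL G L S Y c₀) (h1 : GoodL G L' S (U \ Y) c')
    (hL : ∀ w ∈ U \ Y, L' w ⊆ L w)
    (hcross : ∀ w ∈ U \ Y, ∀ y ∈ Y, G.Adj w y → c₀ y ∉ L' w) :
    GoodL G L S U (fun w => if w ∈ Y then c₀ w else c' w) := by
  have key : ∀ w ∈ U, w ∉ Y → ∀ y ∈ Y, G.Adj w y → c₀ y ≠ c' w := by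
    intro w hw hwY y hy hwy h2
    have hwU : w ∈ U \ Y := Finset.mem_sdiff.2 ⟨hw, hwY⟩
    apply hcross w hwU y hy hwy
    rw [h2]
    exact h1.2 w hwU
  have same : ∀ v ∈ U, ∀ y ∈ U, G.Adj v y →
      (if y ∈ Y then c₀ y else c' y) = (if v ∈ Y then c₀ v else c' v) →
      (v ∈ Y ∧ y ∈ Y ∧ c₀ y = c₀ v) ∨ (v ∉ Y ∧ y ∉ Y ∧ c' y = c' v) := by
    intro v hv y hy hvy h2
    by_cases hvY : v ∈ Y
    · by_cases hyY : y ∈ Y
      · rw [if_pos hvY, if_pos hyY] at h2
        exact Or.inl ⟨hvY, hyY, h2⟩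
      · rw [if_pos hvY, if_neg hyY] at h2
        exact absurd h2.symm (key y hy hyY v hvY hvy.symm)
    · by_cases hyY : y ∈ Y
      · rw [if_neg hvY, if_pos hyY] at h2
        exact absurd h2 (key v hv hvY y hyY hvy)
      · rw [if_neg hvY, if_neg hyY] at h2
        exact Or.inr ⟨hvY, hyY, h2⟩
  refine ⟨⟨?_, ?_⟩, ?_⟩
  · intro v hv y hy z hz e1 e2 e3 e4
    rcases same v hv y hy e1 e3 with ⟨a1, a2, a3⟩ | ⟨a1, a2, a3⟩
    · rcases same v hv z hz e2 e4 with ⟨b1, b2, b3⟩ | ⟨b1, b2, b3⟩
      · exact h0.1.1 v a1 y a2 z b2 e1 e2 a3 b3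
      · exact absurd a1 b1
    · rcases same v hv z hz e2 e4 with ⟨b1, b2, b3⟩ | ⟨b1, b2, b3⟩
      · exact absurd b1 a1
      · exact h1.1.1 v (Finset.mem_sdiff.2 ⟨hv, a1⟩) y (Finset.mem_sdiff.2 ⟨hy, a2⟩)
          z (Finset.mem_sdiff.2 ⟨hz, b2⟩) e1 e2 a3 b3
  · intro v hv hS y hy e1 e2
    rcases same v hv y hy e1 e2 with ⟨a1, a2, a3⟩ | ⟨a1, a2, a3⟩
    · exact h0.1.2 v a1 hS y a2 e1 a3
    · exact h1.1.2 v (Finset.mem_sdiff.2 ⟨hv, a1⟩) hS y (Finset.mem_sdiff.2 ⟨hy, a2⟩) e1 a3
  · intro v hv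
    by_cases hvY : v ∈ Y
    · show (if v ∈ Y then c₀ v else c' v) ∈ L v
      rw [if_pos hvY]
      exact h0.2 v hvY
    · show (if v ∈ Y then c₀ v else c' v) ∈ L v
      rw [if_neg hvY]
      have hvU : v ∈ U \ Y := Finset.mem_sdiff.2 ⟨hv, hvY⟩
      exact hL v hvU (h1.2 v hvU)

open Classical in
/-- The lists after colouring `Y` by `c`. -/
noncomputable def cutL (G : SimpleGraph V) (L : V → Finset (Fin 4)) (Y : Finset V)
    (c : V → Fin 4) (w : V) : Finset (Fin 4) :=
  (L w).filter (fun i => ∀ y ∈ Y, G.Adj w y → c y ≠ i)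

open Classical in
/-- The number of colours deleted at `w`. -/
noncomputable def usedL (G : SimpleGraph V) (L : V → Finset (Fin 4)) (Y : Finset V)
    (c : V → Fin 4) (w : V) : ℕ :=
  ((L w).filter (fun i => ∃ y ∈ Y, G.Adj w y ∧ c y = i)).card

theorem cutL_card (G : SimpleGraph V) (L : V → Finset (Fin 4)) (Y : Finset V)
    (c : V → Fin 4) (w : V) : (L w).card = (cutL G L Y c w).card + usedL G L Y c w := by
  classical
  unfold cutL usedL
  rw [← Finset.card_filter_add_card_filter_not (s := L w)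
    (fun i => ∀ y ∈ Y, G.Adj w y → c y ≠ i)]
  congr 2
  ext i
  simp only [Finset.mem_filter]
  refine and_congr_right fun _ => ?_
  push Not
  rfl

theorem usedL_le (G : SimpleGraph V) (L : V → Finset (Fin 4)) (Y : Finset V)
    (c : V → Fin 4) (w : V) : usedL G L Y c w ≤ nb G Y w := by
  classical
  rw [nb_eq]
  unfold usedL
  have h : (L w).filter (fun i => ∃ y ∈ Y, G.Adj w y ∧ c y = i)
      ⊆ (Y.filter (fun y => G.Adj w y)).image c := by
    intro i hi
    rw [Finset.mem_filter] at hi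
    obtain ⟨y, hy, h1, h2⟩ := hi.2
    exact Finset.mem_image.2 ⟨y, Finset.mem_filter.2 ⟨hy, h1⟩, h2⟩
  exact (Finset.card_le_card h).trans Finset.card_image_le

end combine

section crit

variable {k : ℤ} {G : SimpleGraph V} {L : V → Finset (Fin 4)} {S U : Finset V}

theorem CritQ.nonempty (h : CritQ k G L S U) : U.Nonempty := by
  by_contra h0
  rw [Finset.not_nonempty_iff_eq_empty] at h0
  apply h.ncol
  refine ⟨fun _ => 0, ⟨?_, ?_⟩, ?_⟩
  · intro v hv
    rw [h0] at hv
    exact absurd hv (Finset.notMem_empty _)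
  · intro v hv
    rw [h0] at hv
    exact absurd hv (Finset.notMem_empty _)
  · intro v hv
    rw [h0] at hv
    exact absurd hv (Finset.notMem_empty _)

theorem CritQ.zero_le (h : CritQ k G L S U) : 0 ≤ hq G L S U :=
  h.leg.1 U (Finset.Subset.refl _) h.nonempty

variable [DecidableEq V]

/-- A general way to use a colouring of a proper set: if the cut lists are legal, then the whole
triple is colourable.  So in a critical triple they are not: some nonempty set `X` outside `Y` has
too small `hq`. -/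
theorem CritQ.first (h : CritQ k G L S U) {Y : Finset V} (hY : Y ⊆ U) (hne : Y.Nonempty)
    {c : V → Fin 4} (hc : GoodL G L S Y c) :
    ∃ X : Finset V, X ⊆ U \ Y ∧ X.Nonempty ∧
      hq G L S X < ((∑ x ∈ X, usedL G L Y c x : ℕ) : ℤ) := by
  classical
  by_contra hcon
  push Not at hcon
  have hcard : (U \ Y).card < U.card := by
    rw [Finset.card_sdiff_of_subset hY]
    have h1 := Finset.card_pos.2 hne
    have h2 := Finset.card_le_card hY
    omega
  have hleg : LegQ k G (cutL G L Y c) S (U \ Y) := by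
    refine ⟨?_, ?_⟩
    · intro X hX hXne
      have h1 := hcon X hX hXne
      have h2 := hq_lists G (L := L) (L' := cutL G L Y c) (S := S) (X := X)
        (g := usedL G L Y c) (fun x _ => le_of_eq (cutL_card G L Y c x))
      linarith
    · intro X hX h2
      exact h.leg.2 X (hX.trans Finset.sdiff_subset) h2
  obtain ⟨c', hc'⟩ := h.sub G (cutL G L Y c) S (U \ Y) hcard hleg
  apply h.ncol
  refine ⟨_, hc.combine hc' ?_ ?_⟩
  · intro w _
    exact Finset.filter_subset _ _
  · intro w _ y hy hwy h3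
    have h4 := (Finset.mem_filter.1 h3).2
    exact h4 y hy hwy rfl

/-- The gap lemma: every nonempty proper set has larger `hq` than the whole set. -/
theorem CritQ.gap (h : CritQ k G L S U) {Y : Finset V} (hY : Y ⊆ U) (hYU : Y ≠ U)
    (hne : Y.Nonempty) : hq G L S U + 1 ≤ hq G L S Y := by
  classical
  by_contra hcon
  have hcon' : hq G L S Y ≤ hq G L S U := by linarith [Int.lt_iff_add_one_le.1 (not_le.1 hcon)]
  set T : Finset (Finset V) := U.powerset.filter
    (fun Z => Z ≠ U ∧ Z.Nonempty ∧ hq G L S Z ≤ hq G L S U) with hT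
  have hTne : T.Nonempty :=
    ⟨Y, Finset.mem_filter.2 ⟨Finset.mem_powerset.2 hY, hYU, hne, hcon'⟩⟩
  obtain ⟨Y, hYT, hmin⟩ := Finset.exists_min_image T (fun Z => hq G L S Z) hTne
  obtain ⟨hY, hYU, hne, hYp⟩ := Finset.mem_filter.1 hYT
  rw [Finset.mem_powerset] at hY
  have hmono : ∀ Z : Finset V, Z ⊆ U → Y ⊆ Z → hq G L S Y ≤ hq G L S Z := by
    intro Z hZ hYZ
    by_cases hZU : Z = U
    · rw [hZU]
      exact hYp
    · by_cases hZp : hq G L S Z ≤ hq G L S U
      · exact hmin Z (Finset.mem_filter.2 ⟨Finset.mem_powerset.2 hZ, hZU, hne.mono hYZ, hZp⟩)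
      · linarith
  have hYlt : Y.card < U.card := Finset.card_lt_card (Finset.ssubset_iff_subset_ne.2 ⟨hY, hYU⟩)
  obtain ⟨c, hc⟩ := h.sub G L S Y hYlt (h.leg.mono hY)
  obtain ⟨X, hX, _, hlt⟩ := h.first hY hne hc
  have hd : Disjoint X Y := by
    rw [Finset.disjoint_left]
    intro a ha
    exact (Finset.mem_sdiff.1 (hX ha)).2
  have h1 := hq_union G L S hd
  have h2 := hmono (X ∪ Y) (Finset.union_subset (hX.trans Finset.sdiff_subset) hY)
    Finset.subset_union_right
  have h3 : ∑ x ∈ X, usedL G L Y c x ≤ dd G X Y := by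
    rw [dd_eq_sum]
    exact Finset.sum_le_sum fun x _ => usedL_le G L Y c x
  have h3' : ((∑ x ∈ X, usedL G L Y c x : ℕ) : ℤ) ≤ (dd G X Y : ℤ) := by exact_mod_cast h3
  linarith

/-- Nonempty proper sets have `hq ≥ 1`. -/
theorem CritQ.one_le (h : CritQ k G L S U) {Y : Finset V} (hY : Y ⊆ U) (hYU : Y ≠ U)
    (hne : Y.Nonempty) : 1 ≤ hq G L S Y := by
  have h1 := h.gap hY hYU hne
  have h2 := h.zero_le
  linarith

/-- A critical triple has at least two vertices. -/
theorem CritQ.two_le_card (h : CritQ k G L S U) : 2 ≤ U.card := by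
  by_contra h1
  have h2 := Finset.card_pos.2 h.nonempty
  obtain ⟨v, hv⟩ := Finset.card_eq_one.1 (show U.card = 1 by omega)
  subst hv
  have h3 := h.zero_le
  rw [hq_singleton] at h3
  have h4 : 0 < (L v).card := by
    have h5 : (0 : ℤ) ≤ (ib (v ∈ S) : ℤ) := Int.natCast_nonneg _
    have h6 : (1 : ℤ) ≤ ((L v).card : ℤ) := by linarith
    have h7 : 1 ≤ (L v).card := by exact_mod_cast h6
    omega
  obtain ⟨i, hi⟩ := Finset.card_pos.1 h4
  apply h.ncol
  refine ⟨fun _ => i, ⟨?_, ?_⟩, ?_⟩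
  · intro w _ y hy z hz _ _ _ _
    rw [Finset.mem_singleton.1 hy, Finset.mem_singleton.1 hz]
  · intro w hw _ y hy h1 _
    rw [Finset.mem_singleton.1 hw, Finset.mem_singleton.1 hy] at h1
    exact h1.ne rfl
  · intro w hw
    rw [Finset.mem_singleton.1 hw]
    exact hi

theorem CritQ.single_ne (h : CritQ k G L S U) (v : V) : ({v} : Finset V) ≠ U := by
  intro h1
  have h2 := h.two_le_card
  rw [← h1, Finset.card_singleton] at h2
  omega

/-- The list of a vertex. -/
theorem CritQ.list (h : CritQ k G L S U) {v : V} (hv : v ∈ U) :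
    hq G L S U + 2 + (ib (v ∈ S) : ℤ) ≤ ((L v).card : ℤ) := by
  have h1 := h.gap (Finset.singleton_subset_iff.2 hv) (h.single_ne v)
    (Finset.singleton_nonempty v)
  rw [hq_singleton] at h1
  linarith

theorem CritQ.le_two (h : CritQ k G L S U) : hq G L S U ≤ 2 := by
  obtain ⟨v, hv⟩ := h.nonempty
  have h1 := h.list hv
  have h2 := card_list_le (L v)
  have h3 : (0 : ℤ) ≤ (ib (v ∈ S) : ℤ) := Int.natCast_nonneg _
  linarith

/-- Colouring a vertex greedily. -/
theorem GoodL.free {v : V} {i : Fin 4} {c : V → Fin 4} (h : GoodL G L S (U.erase v) c)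
    (hiL : i ∈ L v) (hi : ∀ y ∈ U, G.Adj v y → c y ≠ i) :
    GoodL G L S U (Function.update c v i) := by
  refine ⟨h.1.free hi, ?_⟩
  intro w hw
  by_cases hwv : w = v
  · subst hwv
    rw [Function.update_self]
    exact hiL
  · rw [Function.update_of_ne hwv]
    exact h.2 w (Finset.mem_erase.2 ⟨hwv, hw⟩)

/-- The degree is at least the size of the list. -/
theorem CritQ.list_le (h : CritQ k G L S U) {v : V} (hv : v ∈ U) : (L v).card ≤ nb G U v := by
  classical
  by_contra h4
  obtain ⟨c, hc⟩ := h.sub G L S (U.erase v) (Finset.card_erase_lt_of_mem hv)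
    (h.leg.mono (Finset.erase_subset _ _))
  have h5 : ((U.filter (fun y => G.Adj v y)).image c).card < (L v).card := by
    refine lt_of_le_of_lt Finset.card_image_le ?_
    rw [nb_eq] at h4
    omega
  obtain ⟨i, hiL, hi⟩ := Finset.exists_mem_notMem_of_card_lt_card h5
  refine h.ncol ⟨_, hc.free hiL fun y hy hvy h6 => ?_⟩
  exact hi (Finset.mem_image.2 ⟨y, Finset.mem_filter.2 ⟨hy, hvy⟩, h6⟩)

/-- `v` unmarked, as many neighbours as colours, `z` an unmarked neighbour: a colouring of the rest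
with `z` marked extends. -/
theorem GoodL.host {v z : V} {c : V → Fin 4} (h : GoodL G L (insert z S) (U.erase v) c)
    (hvS : v ∉ S) (hzS : z ∉ S) (hz : z ∈ U) (hvz : G.Adj v z) (hd : nb G U v ≤ (L v).card) :
    ColL G L S U := by
  classical
  by_cases hi : ∃ i ∈ L v, ∀ y ∈ U, G.Adj v y → c y ≠ i
  · obtain ⟨i, hiL, hi⟩ := hi
    have h1 : GoodL G L S (U.erase v) c :=
      ⟨h.1.mono (Finset.Subset.refl _) (fun _ _ _ _ h => h)
        (fun _ _ h => Finset.mem_insert_of_mem h), h.2⟩
    exact ⟨_, h1.free hiL hi⟩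
  · push Not at hi
    -- every colour of the list occurs, so all neighbours have different colours of the list
    have hsub : L v ⊆ (U.filter (fun y => G.Adj v y)).image c := by
      intro i hiL
      obtain ⟨y, hy, h1, h2⟩ := hi i hiL
      exact Finset.mem_image.2 ⟨y, Finset.mem_filter.2 ⟨hy, h1⟩, h2⟩
    have hcard : (U.filter (fun y => G.Adj v y)).card
        ≤ ((U.filter (fun y => G.Adj v y)).image c).card := by
      rw [nb_eq] at hd
      exact hd.trans (Finset.card_le_card hsub)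
    have himg : ((U.filter (fun y => G.Adj v y)).image c).card
        = (U.filter (fun y => G.Adj v y)).card := le_antisymm Finset.card_image_le hcard
    have hinj := Finset.card_image_iff.1 himg
    have heq : L v = (U.filter (fun y => G.Adj v y)).image c := by
      refine Finset.eq_of_subset_of_card_le hsub ?_
      rw [himg]
      rw [nb_eq] at hd
      exact hd
    have hzm : z ∈ U.filter (fun y => G.Adj v y) := Finset.mem_filter.2 ⟨hz, hvz⟩
    refine ⟨Function.update c v (c z), h.1.host hvS hzS hz hvz ?_, ?_⟩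
    · intro y hy hvy hyz
      exact hinj (Finset.mem_coe.2 (Finset.mem_filter.2 ⟨hy, hvy⟩)) (Finset.mem_coe.2 hzm) hyz
    · intro w hw
      by_cases hwv : w = v
      · subst hwv
        rw [Function.update_self, heq]
        exact Finset.mem_image_of_mem _ hzm
      · rw [Function.update_of_ne hwv]
        exact h.2 w (Finset.mem_erase.2 ⟨hwv, hw⟩)

/-- An unmarked vertex with as many neighbours as colours and an unmarked neighbour `z`: some tight
set contains `z` and not `v`. -/
theorem CritQ.low (h : CritQ k G L S U) {v z : V} (hv : v ∈ U) (hvS : v ∉ S)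
    (hd : nb G U v ≤ (L v).card) (hz : z ∈ U) (hzS : z ∉ S) (hvz : G.Adj v z) :
    ∃ X : Finset V, X ⊆ U ∧ v ∉ X ∧ z ∈ X ∧ 2 ≤ X.card ∧ pot G S X = k := by
  classical
  by_contra hcon
  push Not at hcon
  have hleg : LegQ k G L (insert z S) (U.erase v) := by
    refine ⟨?_, ?_⟩
    · intro X hX hne
      have hXU : X ⊆ U := hX.trans (Finset.erase_subset _ _)
      have hXne : X ≠ U := by
        rintro rfl
        exact Finset.notMem_erase v X (hX hv)
      have h1 := h.one_le hXU hXne hne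
      have h2 := hq_mark G L S X z
      have h3 : (ib (z ∈ X) : ℤ) ≤ 1 := by exact_mod_cast ib_le _
      linarith
    · intro X hX h2
      have hXU : X ⊆ U := hX.trans (Finset.erase_subset _ _)
      have h1 := h.leg.2 X hXU h2
      have h3 := pot_mark G S X z
      by_cases hzX : z ∈ X
      · have h4 := hcon X hXU (fun hvX => Finset.notMem_erase v U (hX hvX)) hzX h2
        rw [ib_pos hzX] at h3
        push_cast at h3
        have h5 : k + 1 ≤ pot G S X := by
          rcases lt_or_eq_of_le h1 with h6 | h6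
          · exact Int.add_one_le_iff.2 h6
          · exact absurd h6.symm h4
        linarith
      · rw [ib_neg hzX] at h3
        push_cast at h3
        linarith
  obtain ⟨c, hc⟩ := h.sub G L (insert z S) (U.erase v) (Finset.card_erase_lt_of_mem hv) hleg
  exact h.ncol (hc.host hvS hzS hz hvz hd)

/-- Colour `v` by `a` first: in a critical triple this is not legal, so some set `X` has `hq` less
than the number of its neighbours of `v` whose list contains `a`. -/
theorem CritQ.colour (h : CritQ k G L S U) {v : V} (hv : v ∈ U) {a : Fin 4} (ha : a ∈ L v) :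
    ∃ X : Finset V, X ⊆ U ∧ v ∉ X ∧ X.Nonempty ∧
      hq G L S X < ((∑ x ∈ X, ib (G.Adj x v ∧ a ∈ L x) : ℕ) : ℤ) := by
  classical
  have hc : GoodL G L S {v} (fun _ => a) := by
    refine ⟨⟨?_, ?_⟩, ?_⟩
    · intro w _ y hy z hz _ _ _ _
      rw [Finset.mem_singleton.1 hy, Finset.mem_singleton.1 hz]
    · intro w hw _ y hy h1 _
      rw [Finset.mem_singleton.1 hw, Finset.mem_singleton.1 hy] at h1
      exact h1.ne rfl
    · intro w hw
      rw [Finset.mem_singleton.1 hw]
      exact ha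
  obtain ⟨X, hX, hne, hlt⟩ := h.first (Finset.singleton_subset_iff.2 hv)
    (Finset.singleton_nonempty v) hc
  refine ⟨X, hX.trans Finset.sdiff_subset, ?_, hne, lt_of_lt_of_le hlt ?_⟩
  · intro hvX
    exact (Finset.mem_sdiff.1 (hX hvX)).2 (Finset.mem_singleton_self v)
  · have h1 : ∑ x ∈ X, usedL G L {v} (fun _ => a) x ≤ ∑ x ∈ X, ib (G.Adj x v ∧ a ∈ L x) := by
      refine Finset.sum_le_sum fun x _ => ?_
      unfold usedL
      by_cases hx : G.Adj x v ∧ a ∈ L x
      · rw [ib_pos hx, Finset.card_le_one]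
        intro i hi j hj
        rw [Finset.mem_filter] at hi hj
        obtain ⟨-, y, -, -, h3⟩ := hi
        obtain ⟨-, y', -, -, h4⟩ := hj
        rw [← h3, ← h4]
      · rw [ib_neg hx, Nat.le_zero, Finset.card_eq_zero, Finset.filter_eq_empty_iff]
        intro i hi
        rintro ⟨y, hy, h2, h3⟩
        rw [Finset.mem_singleton.1 hy] at h2
        have h3' : a = i := h3
        rw [← h3'] at hi
        exact hx ⟨h2, hi⟩
    exact_mod_cast h1

end crit

/-- (QL) with constant `2` implies (C2). -/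
theorem col_of_QL (h : QLStmt 2) (V : Type) (hV : Finite V) (G : SimpleGraph V) (A U : Finset V)
    (hleg : Leg G A U) : Col G A U := by
  have hl : LegQ 2 G (fun _ => Finset.univ) A U := by
    refine ⟨?_, ?_⟩
    · intro X hX hne
      rw [hq_full G (fun _ _ => rfl)]
      have := hleg X hX hne
      linarith
    · intro X hX h2
      exact hleg X hX (Finset.card_pos.1 (by omega))
  obtain ⟨c, hc⟩ := h V hV G (fun _ => Finset.univ) A U hl
  exact ⟨c, hc.1⟩

/-- (QL) with constant `3`: unmarked graphs with `e(X) ≤ 3|X| - 3` are colourable. -/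
theorem col_of_QL3 (h : QLStmt 3) (V : Type) (hV : Finite V) (G : SimpleGraph V) (U : Finset V)
    (hleg : ∀ X : Finset V, X ⊆ U → X.Nonempty → 3 ≤ pot G ∅ X) : Col G ∅ U := by
  have hl : LegQ 3 G (fun _ => Finset.univ) ∅ U := by
    refine ⟨?_, ?_⟩
    · intro X hX hne
      rw [hq_full G (fun _ _ => rfl)]
      have := hleg X hX hne
      linarith
    · intro X hX h2
      exact hleg X hX (Finset.card_pos.1 (by omega))
  obtain ⟨c, hc⟩ := h V hV G (fun _ => Finset.univ) ∅ U hl
  exact ⟨c, hc.1⟩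

end Pool.Agent.W986.C2
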