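import Pool.Agent.W986.Triang
import Pool.Agent.W986.EvenTri
import Pool.Agent.W986.Final

/-!
# Reduction to triangulations without separating triangles
-/

set_option autoImplicit false

open Finset

namespace Pool.Agent.W986

open Pool.Agent.DC76

/-- All the triangulations of the projective plane in which every triangle which is even for the
cocycle is a face have `(4, 1)`-colourings. -/
def TriCol : Prop :=
  ∀ (V F : Type) [Fintype V] [DecidableEq V] [Fintype F] (G : SimpleGraph V)
    (M : FacialWalks G F), G.Connected → Link M → (∀ f, M.len f = 3) →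
    (Fintype.card V : ℤ) - G.edgeSet.ncard + Fintype.card F = 1 →
    ∀ X : V → V → ZMod 2, (∀ x y, X x y = X y x) →
    (∀ f, ∑ t ∈ range (M.len f), X (M.walk f t) (M.walk f (t + 1)) = 0) →
    (¬ ∃ h : V → ZMod 2, ∀ x y, G.Adj x y → h x + h y = X x y) →
    (∀ x y z, G.Adj x y → G.Adj y z → G.Adj z x → X x y + X y z + X z x = 0 → Facial M x y z) →
    ∃ c : V → Fin 4, Defective G 1 c

/-- All the triangulations of the projective plane. -/
theorem triangulation_colour (h : TriCol) : ∀ (n : ℕ) (V F : Type) [Fintype V] [DecidableEq V]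
    [Fintype F] (G : SimpleGraph V) (M : FacialWalks G F), Fintype.card V ≤ n → G.Connected →
    Link M → (∀ f, M.len f = 3) →
    (Fintype.card V : ℤ) - G.edgeSet.ncard + Fintype.card F = 1 →
    ∃ c : V → Fin 4, Defective G 1 c := by
  intro n
  induction n with
  | zero =>
    intro V F _ _ _ G M hn hG
    obtain ⟨v⟩ := hG.nonempty
    have h1 : 0 < Fintype.card V := Fintype.card_pos_iff.2 ⟨v⟩
    omega
  | succ n ih =>
    intro V F _ _ _ G M hn hG hL h3 hχ
    by_cases hE : ∃ x y, G.Adj x y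
    · obtain ⟨X, hX, hf, hodd⟩ := exists_cocycle M hχ hE
      by_cases htri : ∀ x y z, G.Adj x y → G.Adj y z → G.Adj z x →
          X x y + X y z + X z x = 0 → Facial M x y z
      · exact h V F G M hG hL h3 hχ X hX hf hodd htri
      · push Not at htri
        obtain ⟨x, y, z, hxy, hyz, hzx, h0, hnf⟩ := htri
        obtain ⟨I, hI⟩ := exists_cut M hG hχ hX hf hodd hxy hyz hzx h0
        refine septri hI hL h3 hG hxy hyz hzx hχ hnf ?_
        intro V' F' _ _ _ G' M' hlt
        exact ih V' F' G' M' (by omega)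
    · refine ⟨fun _ => 0, fun v => ?_⟩
      have h1 : {u | G.Adj v u ∧ (0 : Fin 4) = 0} = ∅ := by
        rw [Set.eq_empty_iff_forall_notMem]
        rintro u ⟨hu, _⟩
        exact hE ⟨v, u, hu⟩
      rw [h1, Set.ncard_empty]
      omega

/-- Every projective-planar graph has a `(4, 1)`-colouring, if the triangulations without
separating triangles have one. -/
theorem projective_of_tri (h : TriCol) : AllCol @ProjectivePlanar 4 1 := by
  intro U H hH
  obtain ⟨V, F, _, _, _, G, f, hf, hHG, hG, ⟨M, hL, _⟩, hχ⟩ := hH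
  by_cases hE : ∃ x y, G.Adj x y
  · obtain ⟨V', F', _, _, _, G', e, he, hGG', hG', ⟨M', hL', h3⟩, hχ'⟩ :=
      exists_ring hG M hL (three_le_len M hχ hE)
    obtain ⟨c, hc⟩ := triangulation_colour h _ V' F' G' M' le_rfl hG' hL' h3 (hχ'.trans hχ)
    refine ⟨fun u => c (e (f u)), fun u => ?_⟩
    apply ncard_le_one_of
    rintro x ⟨hx, hcx⟩ y ⟨hy, hcy⟩
    have h1 := hc (e (f u))
    rw [Set.ncard_le_one (Set.toFinite _)] at h1
    exact hf (he (h1 _ ⟨hGG' _ _ (hHG _ _ hx), hcx⟩ _ ⟨hGG' _ _ (hHG _ _ hy), hcy⟩))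
  · refine ⟨fun _ => 0, fun v => ?_⟩
    have h1 : {u | H.Adj v u ∧ (0 : Fin 4) = 0} = ∅ := by
      rw [Set.eq_empty_iff_forall_notMem]
      rintro u ⟨hu, _⟩
      exact hE ⟨_, _, hHG _ _ hu⟩
    rw [h1, Set.ncard_empty]
    omega

end Pool.Agent.W986
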