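import Pool.Agent.W986.Cross
import Pool.Agent.W986.LevCount
import Pool.Agent.W986.Nine

/-!
# The neighbours of a hole in the plane which can be made single
-/

set_option autoImplicit false

open Finset

namespace Pool.Agent.W986

open Pool.Agent.DC76

/-- Repeating the index `i` exactly `w i` times. -/
theorem exists_slots {D : ℕ} (w : ℕ → ℕ) (hw : ∀ i, w (i + D) = w i)
    (hsum : ∑ i ∈ range D, w i = 9) :
    ∃ m : ℕ → ℕ, (∀ s t, s ≤ t → m s ≤ m t) ∧ (∀ s, m (s + 9) = m s + D) ∧ (∀ s, 0 < w (m s)) ∧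
      (∀ i, i < D → 0 < w i → ∃ s, s < 9 ∧ m s = i) ∧
      (∀ i, i < D → 1 < w i → ∃ s, s + 1 < 9 ∧ m s = i ∧ m (s + 1) = i) := by
  classical
  set S : ℕ → ℕ := fun i => ∑ j ∈ range i, w j with hS
  have hSs : ∀ i, S (i + 1) = S i + w i := fun i => sum_range_succ _ _
  have hmono : ∀ i j, i ≤ j → S i ≤ S j := by
    intro i j hij
    induction j, hij using Nat.le_induction with
    | base => exact le_rfl
    | succ j _ ih =>
      rw [hSs]
      omega
  have hper : ∀ i, S (i + D) = S i + 9 := by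
    intro i
    induction i with
    | zero =>
      rw [zero_add]
      change ∑ j ∈ range D, w j = ∑ j ∈ range 0, w j + 9
      rw [hsum, sum_range_zero]
    | succ i ih =>
      have h1 : i + 1 + D = i + D + 1 := by omega
      rw [h1, hSs, ih, hw, hSs]
      omega
  have hunb : ∀ s, ∃ i, s < S (i + 1) := by
    intro s
    have h1 : ∀ k, S (k * D) = 9 * k := by
      intro k
      induction k with
      | zero => rw [Nat.zero_mul]; rfl
      | succ k ih =>
        have h2 : (k + 1) * D = k * D + D := by ring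
        rw [h2, hper, ih]
        ring
    refine ⟨(s + 1) * D, ?_⟩
    have h2 := hmono ((s + 1) * D) ((s + 1) * D + 1) (by omega)
    have h3 := h1 (s + 1)
    omega
  set m : ℕ → ℕ := fun s => Nat.find (hunb s) with hm
  have hup : ∀ s, s < S (m s + 1) := fun s => Nat.find_spec (hunb s)
  have hmin : ∀ s j, j < m s → S (j + 1) ≤ s := fun s j hj => by
    have := Nat.find_min (hunb s) hj
    omega
  have hlow : ∀ s, S (m s) ≤ s := by
    intro s
    rcases Nat.eq_zero_or_pos (m s) with h | h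
    · rw [h]
      exact Nat.zero_le _
    · have h1 := hmin s (m s - 1) (by omega)
      have h2 : m s - 1 + 1 = m s := by omega
      rw [h2] at h1
      exact h1
  have huniq : ∀ s i, S i ≤ s → s < S (i + 1) → m s = i := by
    intro s i h1 h2
    have h3 : m s ≤ i := Nat.find_min' (hunb s) h2
    rcases Nat.lt_or_ge (m s) i with h4 | h4
    · have h5 := hmono (m s + 1) i h4
      have h6 := hup s
      omega
    · omega
  have hS9 : ∀ i, i < D → S (i + 1) ≤ 9 := by
    intro i hi
    have h1 := hmono (i + 1) D hi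
    have h2 : S D = 9 := hsum
    omega
  refine ⟨m, ?_, ?_, ?_, ?_, ?_⟩
  · intro s t hst
    exact Nat.find_min' (hunb s) (lt_of_le_of_lt hst (hup t))
  · intro s
    apply huniq
    · rw [hper]
      have := hlow s
      omega
    · have h1 : m s + D + 1 = m s + 1 + D := by omega
      rw [h1, hper]
      have := hup s
      omega
  · intro s
    have h1 := hlow s
    have h2 := hup s
    rw [hSs] at h2
    omega
  · intro i hi hwi
    have h1 := hS9 i hi
    rw [hSs] at h1
    exact ⟨S i, by omega, huniq _ _ le_rfl (by rw [hSs]; omega)⟩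
  · intro i hi hwi
    have h1 := hS9 i hi
    rw [hSs] at h1
    exact ⟨S i, by omega, huniq _ _ le_rfl (by rw [hSs]; omega),
      huniq _ _ (by omega) (by rw [hSs]; omega)⟩

/-- The neighbours `g 0, .., g 8` of `v` (with repetitions) are in the order of a rotation at `v`
for which connected sets do not cross. -/
structure Slots {U : Type} (H : SimpleGraph U) (v : U) (g : Fin 9 → U) : Prop where
  adj : ∀ s, H.Adj v (g s)
  cross : ∀ K L : Set U, Disjoint K L → v ∉ K → v ∉ L → ∀ a b p q : Fin 9, btw a b p = true →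
    btw b a q = true → g a ∈ K → Lnk H K (g a) (g b) → g p ∈ L → Lnk H L (g p) (g q) → False

theorem Lnk.image {U V : Type} {H : SimpleGraph U} {G : SimpleGraph V} {f : U → V}
    (hHG : ∀ x y, H.Adj x y → G.Adj (f x) (f y)) {K : Set U} {a b : U} (h : Lnk H K a b) :
    Lnk G (f '' K) (f a) (f b) := by
  induction h with
  | refl => exact Relation.ReflTransGen.refl
  | tail _ h2 ih => exact ih.tail ⟨⟨_, h2.1, rfl⟩, hHG _ _ h2.2⟩

theorem exists_Slots {U : Type} [Finite U] {H : SimpleGraph U} {o : Prop} (hH : Embeds o 2 H)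
    {v : U} (h3 : ∀ a b : U, ∃ c, H.Adj v c ∧ c ≠ a ∧ c ≠ b) (O : Set U)
    (hO : ∀ u ∈ O, H.Adj v u) (hcard : dg H v + O.ncard ≤ 9) :
    ∃ g : Fin 9 → U, Slots H v g ∧ (∀ u, H.Adj v u → ∃ s, g s = u) ∧
      ∀ u ∈ O, ∃ s t, s ≠ t ∧ g s = u ∧ g t = u := by
  classical
  obtain ⟨V, F, _, _, _, G, f, hf, hHG, hG, ⟨M, hL, _⟩, hχ⟩ := hH
  have hd : ∀ a b : V, ∃ c, G.Adj (f v) c ∧ c ≠ a ∧ c ≠ b := by
    intro a b
    by_contra hcon
    push Not at hcon
    obtain ⟨x, hx, _, _⟩ := h3 v v
    obtain ⟨y, hy, hyx, _⟩ := h3 x x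
    obtain ⟨z, hz, hzx, hzy⟩ := h3 x y
    have key : ∀ c, H.Adj v c → f c = a ∨ f c = b := by
      intro c hc
      by_cases h : f c = a
      · exact Or.inl h
      · exact Or.inr (hcon _ (hHG _ _ hc) h)
    rcases key x hx with h1 | h1 <;> rcases key y hy with h2 | h2 <;>
      rcases key z hz with h4 | h4
    · exact hyx (hf (h2.trans h1.symm))
    · exact hyx (hf (h2.trans h1.symm))
    · exact hzx (hf (h4.trans h1.symm))
    · exact hzy (hf (h4.trans h2.symm))
    · exact hzy (hf (h4.trans h2.symm))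
    · exact hzx (hf (h4.trans h1.symm))
    · exact hyx (hf (h2.trans h1.symm))
    · exact hyx (hf (h2.trans h1.symm))
  obtain ⟨d, ν, fc, hrot⟩ := exists_rot M hL hd
  have hd0 : 0 < d := by
    have := hrot.three
    omega
  have hper : ∀ k j, ν (j + d * k) = ν j := by
    intro k
    induction k with
    | zero => intro j; rfl
    | succ k ih =>
      intro j
      rw [Nat.mul_succ, ← add_assoc, hrot.per]
      exact ih j
  have hmod : ∀ j, ν (j % d) = ν j := by
    intro j
    have h := hper (j / d) (j % d)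
    rw [Nat.mod_add_div] at h
    exact h.symm
  -- the indices of the neighbours
  let P : ℕ → Prop := fun i => ∃ u, H.Adj v u ∧ f u = ν i
  let Q : ℕ → Prop := fun i => ∃ u, u ∈ O ∧ f u = ν i
  have hcount : ∀ N : Set U, (∀ u ∈ N, H.Adj v u) →
      (∑ i ∈ range d, if ∃ u, u ∈ N ∧ f u = ν i then 1 else 0) = N.ncard := by
    intro N hN
    rw [← card_filter]
    have h1 : (((range d).filter fun i => ∃ u, u ∈ N ∧ f u = ν i).image ν : Set V) = f '' N := by
      ext y
      simp only [coe_image, coe_filter, Set.mem_image, mem_range]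
      constructor
      · rintro ⟨i, ⟨_, u, hu, hfu⟩, rfl⟩
        exact ⟨u, hu, hfu⟩
      · rintro ⟨u, hu, rfl⟩
        obtain ⟨i, hi, hi2⟩ := (hrot.adj (f u)).1 (hHG _ _ (hN u hu))
        exact ⟨i, ⟨hi, u, hu, hi2.symm⟩, hi2⟩
    rw [← Set.ncard_image_of_injective N hf, ← h1, Set.ncard_coe_finset, card_image_of_injOn]
    intro i hi j hj hij
    have hi' := (mem_filter.1 hi).1
    have hj' := (mem_filter.1 hj).1
    exact hrot.inj i (mem_range.1 hi') j (mem_range.1 hj') hij
  obtain ⟨x0, hx0, _, _⟩ := h3 v v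
  obtain ⟨i0, hi0, hνi0⟩ := (hrot.adj (f x0)).1 (hHG _ _ hx0)
  let w : ℕ → ℕ := fun i => (if P i then 1 else 0) + (if Q i then 1 else 0) +
    (if i % d = i0 then 9 - (dg H v + O.ncard) else 0)
  have hw : ∀ i, w (i + d) = w i := by
    intro i
    change (if P (i + d) then 1 else 0) + (if Q (i + d) then 1 else 0) +
      (if (i + d) % d = i0 then 9 - (dg H v + O.ncard) else 0) = _
    have h1 : P (i + d) ↔ P i := by
      change (∃ u, H.Adj v u ∧ f u = ν (i + d)) ↔ _
      rw [hrot.per]
    have h2 : Q (i + d) ↔ Q i := by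
      change (∃ u, u ∈ O ∧ f u = ν (i + d)) ↔ _
      rw [hrot.per]
    simp only [h1, h2, Nat.add_mod_right]
    rfl
  have hsum : ∑ i ∈ range d, w i = 9 := by
    have h1 := hcount {u | H.Adj v u} (fun u hu => hu)
    have h2 := hcount O hO
    have h4 : (∑ i ∈ range d, if i % d = i0 then 9 - (dg H v + O.ncard) else 0) =
        9 - (dg H v + O.ncard) := by
      rw [sum_eq_single i0]
      · rw [if_pos (Nat.mod_eq_of_lt hi0)]
      · intro j hj hji
        rw [if_neg]
        rw [Nat.mod_eq_of_lt (mem_range.1 hj)]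
        exact hji
      · intro h
        exact absurd (mem_range.2 hi0) h
    change ∑ i ∈ range d, ((if P i then 1 else 0) + (if Q i then 1 else 0) +
      (if i % d = i0 then 9 - (dg H v + O.ncard) else 0)) = 9
    rw [sum_add_distrib, sum_add_distrib, h4]
    have h5 : (∑ i ∈ range d, if P i then 1 else 0) = dg H v := h1
    have h6 : (∑ i ∈ range d, if Q i then 1 else 0) = O.ncard := h2
    rw [h5, h6]
    omega
  obtain ⟨m, hm1, hm2, hm3, hm4, hm5⟩ := exists_slots w hw hsum
  have hP : ∀ i, 0 < w i → P i := by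
    intro i hi
    by_contra hcon
    have h1 : ¬ Q i := by
      rintro ⟨u, hu, hfu⟩
      exact hcon ⟨u, hO u hu, hfu⟩
    have h2 : i % d ≠ i0 := by
      intro h
      apply hcon
      refine ⟨x0, hx0, ?_⟩
      rw [← hνi0, ← h, hmod]
    have h4 : w i = 0 := by
      change (if P i then 1 else 0) + (if Q i then 1 else 0) +
        (if i % d = i0 then 9 - (dg H v + O.ncard) else 0) = 0
      rw [if_neg hcon, if_neg h1, if_neg h2]
    omega
  choose g hg1 hg2 using fun s : ℕ => hP (m s) (hm3 s)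
  have hgper : ∀ s, g (s + 9) = g s := by
    intro s
    apply hf
    rw [hg2, hg2, hm2, hrot.per]
  refine ⟨fun s => g s.val, ⟨fun s => hg1 s.val, ?_⟩, ?_, ?_⟩
  · intro K L hKL hvK hvL a b p q hp hq haK hab hpL hpq
    unfold btw at hp hq
    simp only [Bool.and_eq_true, decide_eq_true_eq] at hp hq
    set p' := a.val + (p.val + 9 - a.val) % 9 with hp'
    set b' := a.val + (b.val + 9 - a.val) % 9 with hb'
    set q' := b' + (q.val + 9 - b.val) % 9 with hq'
    have ha9 := a.2
    have hb9 := b.2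
    have hp9 := p.2
    have hq9 := q.2
    have hgp : g p' = g p.val := by
      have h1 : p' = p.val ∨ p' = p.val + 9 := by omega
      rcases h1 with h1 | h1
      · rw [h1]
      · rw [h1, hgper]
    have hgb : g b' = g b.val := by
      have h1 : b' = b.val ∨ b' = b.val + 9 := by omega
      rcases h1 with h1 | h1
      · rw [h1]
      · rw [h1, hgper]
    have hgq : g q' = g q.val := by
      have h1 : q' = q.val ∨ q' = q.val + 9 := by omega
      rcases h1 with h1 | h1
      · rw [h1]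
      · rw [h1, hgper]
    have hlt1 : a.val < p' := by omega
    have hlt2 : p' < b' := by omega
    have hlt3 : b' < q' := by omega
    have hlt4 : q' < a.val + 9 := by omega
    have hbK : g b.val ∈ K := hab.mem haK
    have hqL : g q.val ∈ L := hpq.mem hpL
    have hne : ∀ s t, g s ∈ K → g t ∈ L → ν (m s) ≠ ν (m t) := by
      intro s t hs ht hst
      rw [← hg2, ← hg2] at hst
      have h1 := hf hst
      rw [h1] at hs
      exact Set.disjoint_left.1 hKL hs ht
    rw [← hgp] at hpL
    rw [← hgb] at hbK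
    rw [← hgq] at hqL
    have hmne : ∀ s t, ν s ≠ ν t → s ≠ t := by
      rintro s t h rfl
      exact h rfl
    have h1 : m a.val < m p' := lt_of_le_of_ne (hm1 _ _ hlt1.le) (hmne _ _ (hne _ _ haK hpL))
    have h2 : m p' < m b' := lt_of_le_of_ne (hm1 _ _ hlt2.le) (hmne _ _ (hne _ _ hbK hpL).symm)
    have h4 : m b' < m q' := lt_of_le_of_ne (hm1 _ _ hlt3.le) (hmne _ _ (hne _ _ hbK hqL))
    have h5 : m q' < m a.val + d := by
      rw [← hm2]
      refine lt_of_le_of_ne (hm1 _ _ hlt4.le) (hmne _ _ ?_)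
      rw [hm2, hrot.per]
      exact (hne _ _ haK hqL).symm
    refine sphere_noncross (conn_univ hG) hχ.ge hrot hL (K := f '' K) (L := f '' L) ?_ ?_ ?_
      h1 h2 h4 h5 ?_ ?_ ?_ ?_
    · rw [Set.disjoint_left]
      rintro _ ⟨x, hx, rfl⟩ ⟨y, hy, hxy⟩
      exact Set.disjoint_left.1 hKL hx (hf hxy ▸ hy)
    · rintro ⟨x, hx, hxv⟩
      exact hvK (hf hxv ▸ hx)
    · rintro ⟨x, hx, hxv⟩
      exact hvL (hf hxv ▸ hx)
    · rw [← hg2]
      exact ⟨_, haK, rfl⟩
    · rw [← hg2, ← hg2, hgb]
      exact hab.image hHG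
    · rw [← hg2]
      exact ⟨_, hpL, rfl⟩
    · rw [← hg2, ← hg2, hgq, hgp]
      exact hpq.image hHG
  · intro u hu
    obtain ⟨i, hi, hi2⟩ := (hrot.adj (f u)).1 (hHG _ _ hu)
    have hPi : P i := ⟨u, hu, hi2.symm⟩
    have h1 : 0 < w i := by
      change 0 < (if P i then 1 else 0) + (if Q i then 1 else 0) +
        (if i % d = i0 then 9 - (dg H v + O.ncard) else 0)
      rw [if_pos hPi]
      omega
    obtain ⟨s, hs, hms⟩ := hm4 i hi h1
    refine ⟨⟨s, hs⟩, ?_⟩
    apply hf
    rw [hg2, hms, hi2]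
  · intro u hu
    obtain ⟨i, hi, hi2⟩ := (hrot.adj (f u)).1 (hHG _ _ (hO u hu))
    have hPi : P i := ⟨u, hO u hu, hi2.symm⟩
    have hQi : Q i := ⟨u, hu, hi2.symm⟩
    have h1 : 1 < w i := by
      change 1 < (if P i then 1 else 0) + (if Q i then 1 else 0) +
        (if i % d = i0 then 9 - (dg H v + O.ncard) else 0)
      rw [if_pos hPi, if_pos hQi]
      omega
    obtain ⟨s, hs, hms, hms'⟩ := hm5 i hi h1
    refine ⟨⟨s, by omega⟩, ⟨s + 1, hs⟩, ?_, ?_, ?_⟩
    · intro h
      have := congrArg Fin.val h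
      simp at this
    · apply hf
      rw [hg2, hms, hi2]
    · apply hf
      rw [hg2, hms', hi2]

theorem btw_other : ∀ a b s : Fin 9, a ≠ b → btw a b s = false → s ≠ a → s ≠ b →
    btw b a s = true := by
  decide

/-- The words of a set of colourings which is closed under Kempe swaps form a system. -/
theorem Slots.sys {U : Type} {H : SimpleGraph U} {v : U} {g : Fin 9 → U} (hg : Slots H v g)
    (A : Set (U → Fin 4))
    (hA : ∀ φ ∈ A, ∀ i j X, KClosed H v φ i j X → kswap φ i j X ∈ A) :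
    Sys {w | ∃ φ ∈ A, w = fun s => φ (g s)} := by
  rintro w ⟨φ, hφ, rfl⟩ i j k l ⟨hij, hik, hil, hjk, hjl, hkl⟩ X
  have hgv : ∀ s, g s ≠ v := fun s => (hg.adj s).ne'
  -- the union of the components which meet `X`
  let K : Set U := {y | ∃ a, X a = true ∧ (φ (g a) = i ∨ φ (g a) = j) ∧
    y ∈ kcomp H v φ i j (g a)}
  have hK : KClosed H v φ i j K := by
    refine ⟨?_, ?_⟩
    · rintro x ⟨a, _, ha, hx⟩
      exact (kcomp_closed (hgv a) ha).1 x hx
    · rintro x ⟨a, hXa, ha, hx⟩ y hy hxy hc
      exact ⟨a, hXa, ha, (kcomp_closed (hgv a) ha).2 x hx y hy hxy hc⟩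
  by_cases hcase : ∀ b, X b = false → (φ (g b) = i ∨ φ (g b) = j) → g b ∉ K
  · left
    refine ⟨kswap φ i j K, hA φ hφ i j K hK, ?_⟩
    funext s
    unfold wswap
    cases hXs : X s
    · simp only [Bool.false_eq_true, if_false]
      by_cases hc : φ (g s) = i ∨ φ (g s) = j
      · rw [kswap_notMem (hcase s hXs hc)]
      · rw [kswap_notMem fun h => hc (hK.1 _ h).2]
    · simp only [if_true]
      by_cases hc : φ (g s) = i ∨ φ (g s) = j
      · rw [kswap_mem (show g s ∈ K from ⟨s, hXs, hc, mem_kcomp_self⟩)]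
      · rw [kswap_notMem fun h => hc (hK.1 _ h).2]
        push Not at hc
        rw [Equiv.swap_apply_of_ne_of_ne hc.1 hc.2]
  · right
    push Not at hcase
    obtain ⟨b, hXb, hcb, a, hXa, hca, hab⟩ := hcase
    refine ⟨a, b, hXa, hXb, hca, hcb, ?_⟩
    have habne : a ≠ b := by
      rintro rfl
      rw [hXa] at hXb
      exact absurd hXb (by decide)
    let L : Set U := {y | ∃ p, btw a b p = true ∧ (φ (g p) = k ∨ φ (g p) = l) ∧
      y ∈ kcomp H v φ k l (g p)}
    have hLc : KClosed H v φ k l L := by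
      refine ⟨?_, ?_⟩
      · rintro x ⟨p, _, hp, hx⟩
        exact (kcomp_closed (hgv p) hp).1 x hx
      · rintro x ⟨p, hp1, hp, hx⟩ y hy hxy hc
        exact ⟨p, hp1, hp, (kcomp_closed (hgv p) hp).2 x hx y hy hxy hc⟩
    refine ⟨kswap φ k l L, hA φ hφ k l L hLc, ?_⟩
    funext s
    unfold wswap
    by_cases hc : φ (g s) = k ∨ φ (g s) = l
    · cases hs : btw a b s
      · simp only [Bool.false_eq_true, if_false]
        rw [kswap_notMem]
        rintro ⟨p, hp1, hp, hsp⟩
        have hsa : s ≠ a := by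
          rintro rfl
          rcases hca with h | h <;> rcases hc with h' | h' <;>
            simp_all
        have hsb : s ≠ b := by
          rintro rfl
          rcases hcb with h | h <;> rcases hc with h' | h' <;>
            simp_all
        have hbs := btw_other a b s habne hs hsa hsb
        have hKa := kcomp_closed (G := H) (hgv a) hca
        have hLp := kcomp_closed (G := H) (hgv p) hp
        refine hg.cross (kcomp H v φ i j (g a)) (kcomp H v φ k l (g p)) ?_ ?_ ?_ a b p s hp1 hbs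
          mem_kcomp_self (kcomp_conn (hgv a) hca _ mem_kcomp_self _ hab) mem_kcomp_self
          (kcomp_conn (hgv p) hp _ mem_kcomp_self _ hsp)
        · rw [Set.disjoint_left]
          intro x hx1 hx2
          rcases (hKa.1 x hx1).2 with h | h <;> rcases (hLp.1 x hx2).2 with h' | h' <;>
            simp_all
        · intro h
          exact (hKa.1 v h).1 rfl
        · intro h
          exact (hLp.1 v h).1 rfl
      · simp only [if_true]
        rw [kswap_mem (show g s ∈ L from ⟨s, hs, hc, mem_kcomp_self⟩)]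
    · rw [kswap_notMem fun h => hc (hLc.1 _ h).2]
      push Not at hc
      cases btw a b s
      · simp
      · simp only [if_true]
        rw [Equiv.swap_apply_of_ne_of_ne hc.1 hc.2]

/-- In the plane: if no colouring in a set of colourings of `H - v`, which is closed under Kempe
swaps, has an empty class at `v`, then at least `10 - d` neighbours of `v` are the only member of
their class in some colouring, where `d` is the degree of `v`. -/
theorem ten {U : Type} [Finite U] {H : SimpleGraph U} {o : Prop} (hH : Embeds o 2 H) {v : U}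
    (A : Set (U → Fin 4)) (hne : A.Nonempty)
    (hA : ∀ φ ∈ A, ∀ i j X, KClosed H v φ i j X → kswap φ i j X ∈ A)
    (hnc : ∀ φ ∈ A, ∀ i, (nc H v φ i).Nonempty) :
    10 ≤ dg H v + {u | ∃ φ ∈ A, ∃ i, nc H v φ i = {u}}.ncard := by
  by_contra hcon
  set O : Set U := {u | ∃ φ ∈ A, ∃ i, nc H v φ i = {u}} with hO
  obtain ⟨φ₀, hφ₀⟩ := hne
  have hOadj : ∀ u ∈ O, H.Adj v u := by
    rintro u ⟨φ, _, i, hu⟩
    have h1 : u ∈ nc H v φ i := by
      rw [hu]
      rfl
    exact h1.1
  have h3 : ∀ a b : U, ∃ c, H.Adj v c ∧ c ≠ a ∧ c ≠ b := by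
    intro a b
    obtain ⟨i, hi1, hi2⟩ : ∃ i : Fin 4, i ≠ φ₀ a ∧ i ≠ φ₀ b := by
      have : ∀ x y : Fin 4, ∃ i : Fin 4, i ≠ x ∧ i ≠ y := by decide
      exact this _ _
    obtain ⟨c, hc1, hc2⟩ := hnc φ₀ hφ₀ i
    refine ⟨c, hc1, ?_, ?_⟩
    · rintro rfl
      exact hi1 hc2.symm
    · rintro rfl
      exact hi2 hc2.symm
  obtain ⟨g, hg, hcov, hcov2⟩ := exists_Slots hH h3 O hOadj (by omega)
  obtain ⟨w, ⟨φ, hφ, rfl⟩, c, hc⟩ := (hg.sys A hA).exists_small (w := fun s => φ₀ (g s))
    ⟨φ₀, hφ₀, rfl⟩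
  rw [card_le_one] at hc
  simp only [mem_filter, mem_univ, true_and] at hc
  obtain ⟨u, hu1, hu2⟩ := hnc φ hφ c
  obtain ⟨s, rfl⟩ := hcov u hu1
  by_cases hu : nc H v φ c = {g s}
  · obtain ⟨t, t', htt, ht, ht'⟩ := hcov2 (g s) ⟨φ, hφ, c, hu⟩
    refine htt (hc t ?_ t' ?_)
    · rw [ht]
      exact hu2
    · rw [ht']
      exact hu2
  · obtain ⟨u', hu', hne'⟩ : ∃ u' ∈ nc H v φ c, u' ≠ g s := by
      by_contra h
      push Not at h
      exact hu (Set.eq_singleton_iff_unique_mem.2 ⟨⟨hu1, hu2⟩, h⟩)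
    obtain ⟨t, rfl⟩ := hcov u' hu'.1
    have h1 := hc t hu'.2 s hu2
    rw [h1] at hne'
    exact hne' rfl

end Pool.Agent.W986
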