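import Pool.Agent.W986.TriBasic

/-!
# A triangulation which contains a given graph with facial walks

Into every face one puts a ring of vertices and a centre.
-/

set_option autoImplicit false

open Finset

namespace Pool.Agent.W986

open Pool.Agent.DC76

section

variable {V R F : Type}

/-- The new graph. -/
def ringGraph (G : SimpleGraph V) (nxt : R ≃ R) (hn : ∀ r, nxt r ≠ r) (a0 : R → V) (fc : R → F) :
    SimpleGraph (V ⊕ (R ⊕ F)) where
  Adj p q := match p, q with
    | .inl a, .inl b => G.Adj a b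
    | .inl a, .inr (.inl r) => a = a0 r ∨ a = a0 (nxt r)
    | .inl _, .inr (.inr _) => False
    | .inr (.inl r), .inl a => a = a0 r ∨ a = a0 (nxt r)
    | .inr (.inl r), .inr (.inl s) => s = nxt r ∨ r = nxt s
    | .inr (.inl r), .inr (.inr f) => f = fc r
    | .inr (.inr _), .inl _ => False
    | .inr (.inr f), .inr (.inl r) => f = fc r
    | .inr (.inr _), .inr (.inr _) => False
  symm := ⟨by
    rintro (a | r | f) (b | s | g) h
    · exact h.symm
    · exact h
    · exact h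
    · exact h
    · exact Or.symm h
    · exact h
    · exact h
    · exact h
    · exact h⟩
  loopless := ⟨by
    rintro (a | r | f) h
    · exact G.loopless.irrefl a h
    · rcases h with h | h
      · exact hn r h.symm
      · exact hn r h.symm
    · exact h⟩

/-- The new facial walks. -/
def ringWalk (nxt : R ≃ R) (a0 : R → V) (fc : R → F) : R × Fin 3 → ℕ → V ⊕ (R ⊕ F)
  | (r, 0) => tw (.inl (a0 r)) (.inl (a0 (nxt r))) (.inr (.inl r))
  | (r, 1) => tw (.inl (a0 (nxt r))) (.inr (.inl (nxt r))) (.inr (.inl r))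
  | (r, 2) => tw (.inr (.inl r)) (.inr (.inl (nxt r))) (.inr (.inr (fc r)))

variable {G : SimpleGraph V} {nxt : R ≃ R} {hn : ∀ r, nxt r ≠ r} {a0 : R → V} {fc : R → F}

theorem ring_adj (hadj : ∀ r, G.Adj (a0 r) (a0 (nxt r))) (hfc : ∀ r, fc (nxt r) = fc r)
    (f : R × Fin 3) (t : ℕ) (ht : t < 3) :
    (ringGraph G nxt hn a0 fc).Adj (ringWalk nxt a0 fc f t) (ringWalk nxt a0 fc f (t + 1)) := by
  have h : t = 0 ∨ t = 1 ∨ t = 2 := by omega
  obtain ⟨r, i⟩ := f
  fin_cases i
  · rcases h with rfl | rfl | rfl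
    · exact hadj r
    · exact Or.inr rfl
    · exact Or.inl rfl
  · rcases h with rfl | rfl | rfl
    · exact Or.inl rfl
    · exact Or.inr rfl
    · exact Or.inr rfl
  · rcases h with rfl | rfl | rfl
    · exact Or.inl rfl
    · exact (hfc r).symm
    · exact rfl

section sums

variable [Fintype R] [DecidableEq R]

theorem sum_if_eq (P : R → Prop) [DecidablePred P] (s : R) (hs : P s) :
    ∑ r, (if P r ∧ r = s then 1 else 0) = 1 := by
  rw [sum_eq_single s]
  · rw [if_pos ⟨hs, rfl⟩]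
  · intro r _ hr
    rw [if_neg fun h => hr h.2]
  · intro h
    exact absurd (mem_univ _) h

theorem sum_if_zero (P : R → Prop) [DecidablePred P] (s : R) (hs : ¬ P s) :
    ∑ r, (if P r ∧ r = s then 1 else 0) = 0 := by
  refine sum_eq_zero fun r _ => ?_
  rw [if_neg]
  rintro ⟨h1, rfl⟩
  exact hs h1

end sums

variable [DecidableEq V] [DecidableEq R] [DecidableEq F] [Fintype R]

theorem ring_trav (p q : V ⊕ (R ⊕ F)) : ∑ f : R × Fin 3, trav 3 (ringWalk nxt a0 fc f) p q =
    ∑ r, ((if ise (Sum.inl (a0 r)) (.inl (a0 (nxt r))) p q then 1 else 0) +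
      (if ise (Sum.inl (a0 (nxt r))) (.inr (.inl r)) p q then 1 else 0) +
      (if ise (.inr (.inl r)) (Sum.inl (a0 r)) p q then 1 else 0)) +
    ∑ r, ((if ise (Sum.inl (a0 (nxt r))) (.inr (.inl (nxt r))) p q then 1 else 0) +
      (if ise (.inr (.inl (nxt r))) (.inr (.inl r)) p q then 1 else 0) +
      (if ise (.inr (.inl r)) (Sum.inl (a0 (nxt r))) p q then 1 else 0)) +
    ∑ r, ((if ise (.inr (.inl r)) (.inr (.inl (nxt r))) p q then 1 else 0) +
      (if ise (.inr (.inl (nxt r))) (.inr (.inr (fc r))) p q then 1 else 0) +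
      (if ise (.inr (.inr (fc r))) (.inr (.inl r)) p q then 1 else 0)) := by
  rw [Fintype.sum_prod_type, ← sum_add_distrib, ← sum_add_distrib]
  refine sum_congr rfl fun r _ => ?_
  rw [Fin.sum_univ_three]
  rw [← trav_tw, ← trav_tw, ← trav_tw]
  rfl

theorem ring_twice (hadj : ∀ r, G.Adj (a0 r) (a0 (nxt r))) (hfc : ∀ r, fc (nxt r) = fc r)
    (hn2 : ∀ r, nxt (nxt r) ≠ r)
    (htwice : ∀ u v, G.Adj u v → ∑ r, (if ise (a0 r) (a0 (nxt r)) u v then 1 else 0) = 2)
    (p q : V ⊕ (R ⊕ F)) (hpq : (ringGraph G nxt hn a0 fc).Adj p q) :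
    ∑ f : R × Fin 3, trav 3 (ringWalk nxt a0 fc f) p q = 2 := by
  have hcomm : ∀ p q : V ⊕ (R ⊕ F), ∑ f : R × Fin 3, trav 3 (ringWalk nxt a0 fc f) p q =
      ∑ f : R × Fin 3, trav 3 (ringWalk nxt a0 fc f) q p := fun p q =>
    sum_congr rfl fun _ _ => by
      unfold trav
      congr 1
      refine filter_congr fun t _ => ?_
      exact or_comm
  have hVR : ∀ a s, (a = a0 s ∨ a = a0 (nxt s)) →
      ∑ f : R × Fin 3, trav 3 (ringWalk nxt a0 fc f) (.inl a) (.inr (.inl s)) = 2 := by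
    intro a s h
    rw [ring_trav]
    have e1 : ∀ r, ise (Sum.inl (a0 r)) (.inl (a0 (nxt r))) (.inl a : V ⊕ (R ⊕ F))
        (.inr (.inl s)) ↔ False := by
      intro r
      simp [ise]
    have e2 : ∀ r, ise (Sum.inl (a0 (nxt r))) (.inr (.inl r)) (.inl a : V ⊕ (R ⊕ F))
        (.inr (.inl s)) ↔ a0 (nxt r) = a ∧ r = s := by
      intro r
      simp [ise]
    have e3 : ∀ r, ise (.inr (.inl r)) (Sum.inl (a0 r)) (.inl a : V ⊕ (R ⊕ F))
        (.inr (.inl s)) ↔ a0 r = a ∧ r = s := by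
      intro r
      simp [ise, and_comm]
    have e4 : ∀ r, ise (Sum.inl (a0 (nxt r))) (.inr (.inl (nxt r))) (.inl a : V ⊕ (R ⊕ F))
        (.inr (.inl s)) ↔ a0 (nxt r) = a ∧ nxt r = s := by
      intro r
      simp [ise]
    have e5 : ∀ r, ise (.inr (.inl (nxt r))) (.inr (.inl r)) (.inl a : V ⊕ (R ⊕ F))
        (.inr (.inl s)) ↔ False := by
      intro r
      simp [ise]
    have e6 : ∀ r, ise (.inr (.inl r)) (Sum.inl (a0 (nxt r))) (.inl a : V ⊕ (R ⊕ F))
        (.inr (.inl s)) ↔ a0 (nxt r) = a ∧ r = s := by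
      intro r
      simp [ise, and_comm]
    have e7 : ∀ r, ise (.inr (.inl r)) (.inr (.inl (nxt r))) (.inl a : V ⊕ (R ⊕ F))
        (.inr (.inl s)) ↔ False := by
      intro r
      simp [ise]
    have e8 : ∀ r, ise (.inr (.inl (nxt r))) (.inr (.inr (fc r))) (.inl a : V ⊕ (R ⊕ F))
        (.inr (.inl s)) ↔ False := by
      intro r
      simp [ise]
    have e9 : ∀ r, ise (.inr (.inr (fc r))) (.inr (.inl r)) (.inl a : V ⊕ (R ⊕ F))
        (.inr (.inl s)) ↔ False := by
      intro r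
      simp [ise]
    simp only [e1, e2, e3, e4, e5, e6, e7, e8, e9, if_false, zero_add, add_zero, sum_add_distrib,
      sum_const_zero]
    have e10 : ∑ r, (if a0 (nxt r) = a ∧ nxt r = s then 1 else 0) =
        ∑ r, (if a0 r = a ∧ r = s then 1 else 0) :=
      Equiv.sum_comp nxt fun r => if a0 r = a ∧ r = s then 1 else 0
    rw [e10]
    have hne := (hadj s).ne
    rcases h with h | h
    · have h' : ¬ a0 (nxt s) = a := fun h' => hne (h.symm.trans h'.symm)
      rw [sum_if_eq (fun r => a0 r = a) s h.symm, sum_if_zero (fun r => a0 (nxt r) = a) s h']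
      rfl
    · have h' : ¬ a0 s = a := fun h' => hne (h'.trans h)
      rw [sum_if_eq (fun r => a0 (nxt r) = a) s h.symm, sum_if_zero (fun r => a0 r = a) s h']
      rfl
  have hRR : ∀ r s, s = nxt r →
      ∑ f : R × Fin 3, trav 3 (ringWalk nxt a0 fc f) (.inr (.inl r)) (.inr (.inl s)) = 2 := by
    rintro t _ rfl
    rw [ring_trav]
    have hk : ∀ r, (nxt r = t ∧ r = nxt t) ∨ (nxt r = nxt t ∧ r = t) ↔ True ∧ r = t := by
      intro r
      constructor
      · rintro (⟨h1, h2⟩ | ⟨_, h2⟩)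
        · rw [h2] at h1
          exact absurd h1 (hn2 t)
        · exact ⟨trivial, h2⟩
      · rintro ⟨_, rfl⟩
        exact Or.inr ⟨rfl, rfl⟩
    have e1 : ∀ r, ise (Sum.inl (a0 r)) (.inl (a0 (nxt r))) (.inr (.inl t) : V ⊕ (R ⊕ F))
        (.inr (.inl (nxt t))) ↔ False := by
      intro r
      simp [ise]
    have e2 : ∀ r, ise (Sum.inl (a0 (nxt r))) (.inr (.inl r)) (.inr (.inl t) : V ⊕ (R ⊕ F))
        (.inr (.inl (nxt t))) ↔ False := by
      intro r
      simp [ise]
    have e3 : ∀ r, ise (.inr (.inl r)) (Sum.inl (a0 r)) (.inr (.inl t) : V ⊕ (R ⊕ F))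
        (.inr (.inl (nxt t))) ↔ False := by
      intro r
      simp [ise]
    have e4 : ∀ r, ise (Sum.inl (a0 (nxt r))) (.inr (.inl (nxt r))) (.inr (.inl t) : V ⊕ (R ⊕ F))
        (.inr (.inl (nxt t))) ↔ False := by
      intro r
      simp [ise]
    have e5 : ∀ r, ise (.inr (.inl (nxt r))) (.inr (.inl r)) (.inr (.inl t) : V ⊕ (R ⊕ F))
        (.inr (.inl (nxt t))) ↔ True ∧ r = t := by
      intro r
      rw [← hk r]
      simp [ise]
    have e6 : ∀ r, ise (.inr (.inl r)) (Sum.inl (a0 (nxt r))) (.inr (.inl t) : V ⊕ (R ⊕ F))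
        (.inr (.inl (nxt t))) ↔ False := by
      intro r
      simp [ise]
    have e7 : ∀ r, ise (.inr (.inl r)) (.inr (.inl (nxt r))) (.inr (.inl t) : V ⊕ (R ⊕ F))
        (.inr (.inl (nxt t))) ↔ True ∧ r = t := by
      intro r
      rw [← hk r]
      simp only [ise, Sum.inr.injEq, Sum.inl.injEq]
      tauto
    have e8 : ∀ r, ise (.inr (.inl (nxt r))) (.inr (.inr (fc r))) (.inr (.inl t) : V ⊕ (R ⊕ F))
        (.inr (.inl (nxt t))) ↔ False := by
      intro r
      simp [ise]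
    have e9 : ∀ r, ise (.inr (.inr (fc r))) (.inr (.inl r)) (.inr (.inl t) : V ⊕ (R ⊕ F))
        (.inr (.inl (nxt t))) ↔ False := by
      intro r
      simp [ise]
    simp only [e1, e2, e3, e4, e5, e6, e7, e8, e9, if_false, zero_add, add_zero, sum_const_zero]
    rw [sum_if_eq (fun _ => True) t trivial]
  have hRF : ∀ s f, f = fc s →
      ∑ g : R × Fin 3, trav 3 (ringWalk nxt a0 fc g) (.inr (.inl s)) (.inr (.inr f)) = 2 := by
    rintro s _ rfl
    rw [ring_trav]
    have e1 : ∀ r, ise (Sum.inl (a0 r)) (.inl (a0 (nxt r))) (.inr (.inl s) : V ⊕ (R ⊕ F))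
        (.inr (.inr (fc s))) ↔ False := by
      intro r
      simp [ise]
    have e2 : ∀ r, ise (Sum.inl (a0 (nxt r))) (.inr (.inl r)) (.inr (.inl s) : V ⊕ (R ⊕ F))
        (.inr (.inr (fc s))) ↔ False := by
      intro r
      simp [ise]
    have e3 : ∀ r, ise (.inr (.inl r)) (Sum.inl (a0 r)) (.inr (.inl s) : V ⊕ (R ⊕ F))
        (.inr (.inr (fc s))) ↔ False := by
      intro r
      simp [ise]
    have e4 : ∀ r, ise (Sum.inl (a0 (nxt r))) (.inr (.inl (nxt r))) (.inr (.inl s) : V ⊕ (R ⊕ F))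
        (.inr (.inr (fc s))) ↔ False := by
      intro r
      simp [ise]
    have e5 : ∀ r, ise (.inr (.inl (nxt r))) (.inr (.inl r)) (.inr (.inl s) : V ⊕ (R ⊕ F))
        (.inr (.inr (fc s))) ↔ False := by
      intro r
      simp [ise]
    have e6 : ∀ r, ise (.inr (.inl r)) (Sum.inl (a0 (nxt r))) (.inr (.inl s) : V ⊕ (R ⊕ F))
        (.inr (.inr (fc s))) ↔ False := by
      intro r
      simp [ise]
    have e7 : ∀ r, ise (.inr (.inl r)) (.inr (.inl (nxt r))) (.inr (.inl s) : V ⊕ (R ⊕ F))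
        (.inr (.inr (fc s))) ↔ False := by
      intro r
      simp [ise]
    have e8 : ∀ r, ise (.inr (.inl (nxt r))) (.inr (.inr (fc r))) (.inr (.inl s) : V ⊕ (R ⊕ F))
        (.inr (.inr (fc s))) ↔ fc (nxt r) = fc s ∧ nxt r = s := by
      intro r
      rw [hfc]
      simp [ise, and_comm]
    have e9 : ∀ r, ise (.inr (.inr (fc r))) (.inr (.inl r)) (.inr (.inl s) : V ⊕ (R ⊕ F))
        (.inr (.inr (fc s))) ↔ fc r = fc s ∧ r = s := by
      intro r
      simp [ise]
    simp only [e1, e2, e3, e4, e5, e6, e7, e8, e9, if_false, zero_add, add_zero, sum_add_distrib,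
      sum_const_zero]
    have e10 : ∑ r, (if fc (nxt r) = fc s ∧ nxt r = s then 1 else 0) =
        ∑ r, (if fc r = fc s ∧ r = s then 1 else 0) :=
      Equiv.sum_comp nxt fun r => if fc r = fc s ∧ r = s then 1 else 0
    rw [e10, sum_if_eq (fun r => fc r = fc s) s rfl]
  rcases p with a | r | f <;> rcases q with b | s | g
  · rw [ring_trav, ← htwice a b hpq]
    have e1 : ∀ r, ise (Sum.inl (a0 r)) (.inl (a0 (nxt r))) (.inl a : V ⊕ (R ⊕ F))
        (.inl b) ↔ ise (a0 r) (a0 (nxt r)) a b := by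
      intro r
      simp [ise]
    have e2 : ∀ r, ise (Sum.inl (a0 (nxt r))) (.inr (.inl r)) (.inl a : V ⊕ (R ⊕ F))
        (.inl b) ↔ False := by
      intro r
      simp [ise]
    have e3 : ∀ r, ise (.inr (.inl r)) (Sum.inl (a0 r)) (.inl a : V ⊕ (R ⊕ F))
        (.inl b) ↔ False := by
      intro r
      simp [ise]
    have e4 : ∀ r, ise (Sum.inl (a0 (nxt r))) (.inr (.inl (nxt r))) (.inl a : V ⊕ (R ⊕ F))
        (.inl b) ↔ False := by
      intro r
      simp [ise]
    have e5 : ∀ r, ise (.inr (.inl (nxt r))) (.inr (.inl r)) (.inl a : V ⊕ (R ⊕ F))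
        (.inl b) ↔ False := by
      intro r
      simp [ise]
    have e6 : ∀ r, ise (.inr (.inl r)) (Sum.inl (a0 (nxt r))) (.inl a : V ⊕ (R ⊕ F))
        (.inl b) ↔ False := by
      intro r
      simp [ise]
    have e7 : ∀ r, ise (.inr (.inl r)) (.inr (.inl (nxt r))) (.inl a : V ⊕ (R ⊕ F))
        (.inl b) ↔ False := by
      intro r
      simp [ise]
    have e8 : ∀ r, ise (.inr (.inl (nxt r))) (.inr (.inr (fc r))) (.inl a : V ⊕ (R ⊕ F))
        (.inl b) ↔ False := by
      intro r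
      simp [ise]
    have e9 : ∀ r, ise (.inr (.inr (fc r))) (.inr (.inl r)) (.inl a : V ⊕ (R ⊕ F))
        (.inl b) ↔ False := by
      intro r
      simp [ise]
    simp only [e1, e2, e3, e4, e5, e6, e7, e8, e9, if_false, add_zero, sum_const_zero]
  · exact hVR a s hpq
  · exact absurd hpq id
  · rw [hcomm]
    exact hVR b r hpq
  · rcases hpq with h | h
    · exact hRR r s h
    · rw [hcomm]
      exact hRR s r h
  · exact hRF r g hpq
  · exact absurd hpq id
  · rw [hcomm]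
    exact hRF s f hpq
  · exact absurd hpq id

omit [DecidableEq V] [DecidableEq R] [DecidableEq F] [Fintype R] in
theorem ring_link (hadj : ∀ r, G.Adj (a0 r) (a0 (nxt r))) (hfc : ∀ r, fc (nxt r) = fc r)
    (hL : ∀ (v : V) (N : Set V), (∃ a ∈ N, G.Adj v a) → (∃ a, a ∉ N ∧ G.Adj v a) →
      ∃ r, a0 (nxt r) = v ∧ ¬ (a0 r ∈ N ↔ a0 (nxt (nxt r)) ∈ N))
    (horb : ∀ P : R → Prop, (∀ r, P r ↔ P (nxt r)) → ∀ r s, fc r = fc s → (P r ↔ P s))
    (p : V ⊕ (R ⊕ F)) (N : Set (V ⊕ (R ⊕ F)))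
    (h1 : ∃ a ∈ N, (ringGraph G nxt hn a0 fc).Adj p a)
    (h2 : ∃ a, a ∉ N ∧ (ringGraph G nxt hn a0 fc).Adj p a) :
    ∃ (f : R × Fin 3) (t : ℕ), t < 3 ∧ ringWalk nxt a0 fc f (t + 1) = p ∧
      ¬ (ringWalk nxt a0 fc f t ∈ N ↔ ringWalk nxt a0 fc f ((t + 1) % 3 + 1) ∈ N) := by
  by_contra hcon
  push Not at hcon
  suffices hall : ∃ P : Prop, ∀ a, (ringGraph G nxt hn a0 fc).Adj p a → (a ∈ N ↔ P) by
    obtain ⟨P, hP⟩ := hall
    obtain ⟨a, ha, ha'⟩ := h1
    obtain ⟨b, hb, hb'⟩ := h2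
    exact hb ((hP b hb').2 ((hP a ha').1 ha))
  rcases p with v | s | f
  · -- corners at an old vertex
    have c1 : ∀ r, a0 (nxt r) = v →
        (Sum.inl (a0 r) ∈ N ↔ Sum.inr (Sum.inl r) ∈ N) := by
      intro r hr
      exact hcon (r, 0) 0 (by omega) (congrArg Sum.inl hr)
    have c2 : ∀ r, a0 (nxt r) = v →
        ((Sum.inr (Sum.inl r) : V ⊕ (R ⊕ F)) ∈ N ↔ Sum.inr (Sum.inl (nxt r)) ∈ N) := by
      intro r hr
      exact hcon (r, 1) 2 (by omega) (congrArg Sum.inl hr)
    have c3 : ∀ r, a0 r = v →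
        ((Sum.inr (Sum.inl r) : V ⊕ (R ⊕ F)) ∈ N ↔ Sum.inl (a0 (nxt r)) ∈ N) := by
      intro r hr
      exact hcon (r, 0) 2 (by omega) (congrArg Sum.inl hr)
    have hV : ∀ a b, G.Adj v a → G.Adj v b → ((Sum.inl a : V ⊕ (R ⊕ F)) ∈ N ↔ Sum.inl b ∈ N) := by
      have key : ∀ a b, G.Adj v a → G.Adj v b → (Sum.inl a : V ⊕ (R ⊕ F)) ∈ N →
          (Sum.inl b : V ⊕ (R ⊕ F)) ∈ N := by
        intro a b ha hb h
        by_contra h'
        obtain ⟨r, hr, hN⟩ := hL v {a | (Sum.inl a : V ⊕ (R ⊕ F)) ∈ N} ⟨a, h, ha⟩ ⟨b, h', hb⟩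
        exact hN ((c1 r hr).trans ((c2 r hr).trans (c3 (nxt r) hr)))
      exact fun a b ha hb => ⟨key a b ha hb, key b a hb ha⟩
    by_cases hex : ∃ a, G.Adj v a
    · obtain ⟨a, ha⟩ := hex
      refine ⟨(Sum.inl a : V ⊕ (R ⊕ F)) ∈ N, ?_⟩
      rintro (b | s | g) hb
      · exact hV b a hb ha
      · change v = a0 s ∨ v = a0 (nxt s) at hb
        rcases hb with h | h
        · rw [c3 s h.symm]
          refine hV _ a ?_ ha
          rw [h]
          exact hadj s
        · rw [← c1 s h.symm]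
          refine hV _ a ?_ ha
          rw [h]
          exact (hadj s).symm
      · exact absurd hb id
    · refine ⟨True, ?_⟩
      rintro (b | s | g) hb
      · exact absurd ⟨b, hb⟩ hex
      · exfalso
        change v = a0 s ∨ v = a0 (nxt s) at hb
        rcases hb with h | h
        · exact hex ⟨_, by rw [h]; exact hadj s⟩
        · exact hex ⟨_, by rw [h]; exact (hadj s).symm⟩
      · exact absurd hb id
  · -- corners at a ring vertex
    obtain ⟨r, rfl⟩ := nxt.surjective s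
    have c1 : (Sum.inl (a0 (nxt (nxt r))) : V ⊕ (R ⊕ F)) ∈ N ↔ Sum.inl (a0 (nxt r)) ∈ N :=
      hcon (nxt r, 0) 1 (by omega) rfl
    have c2 : (Sum.inr (Sum.inl (nxt (nxt r))) : V ⊕ (R ⊕ F)) ∈ N ↔
        Sum.inl (a0 (nxt (nxt r))) ∈ N := hcon (nxt r, 1) 1 (by omega) rfl
    have c3 : (Sum.inl (a0 (nxt r)) : V ⊕ (R ⊕ F)) ∈ N ↔ Sum.inr (Sum.inl r) ∈ N :=
      hcon (r, 1) 0 (by omega) rfl
    have c4 : (Sum.inr (Sum.inr (fc (nxt r))) : V ⊕ (R ⊕ F)) ∈ N ↔
        Sum.inr (Sum.inl (nxt (nxt r))) ∈ N := hcon (nxt r, 2) 2 (by omega) rfl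
    refine ⟨(Sum.inl (a0 (nxt r)) : V ⊕ (R ⊕ F)) ∈ N, ?_⟩
    rintro (b | s | g) hb
    · change b = a0 (nxt r) ∨ b = a0 (nxt (nxt r)) at hb
      rcases hb with rfl | rfl
      · exact Iff.rfl
      · exact c1
    · change s = nxt (nxt r) ∨ nxt r = nxt s at hb
      rcases hb with rfl | h
      · exact c2.trans c1
      · rw [← nxt.injective h]
        exact c3.symm
    · change g = fc (nxt r) at hb
      rw [hb]
      exact c4.trans (c2.trans c1)
  · -- corners at a centre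
    have key := horb (fun r => fc r = f ∧ (Sum.inr (Sum.inl r) : V ⊕ (R ⊕ F)) ∈ N) (by
      intro r
      rw [hfc]
      refine and_congr_right fun h => ?_
      exact (hcon (r, 2) 1 (by omega) (congrArg (fun g => Sum.inr (Sum.inr g)) h)).symm)
    by_cases hex : ∃ r, fc r = f
    · obtain ⟨r, hr⟩ := hex
      refine ⟨(Sum.inr (Sum.inl r) : V ⊕ (R ⊕ F)) ∈ N, ?_⟩
      rintro (b | s | g) hb
      · exact absurd hb id
      · change f = fc s at hb
        have h := key s r (hb.symm.trans hr.symm)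
        rw [and_iff_right hb.symm, and_iff_right hr] at h
        exact h
      · exact absurd hb id
    · refine ⟨True, ?_⟩
      rintro (b | s | g) hb
      · exact absurd hb id
      · exact absurd ⟨s, Eq.symm hb⟩ hex
      · exact absurd hb id

omit [DecidableEq V] [DecidableEq R] [DecidableEq F] [Fintype R] in
theorem ring_connected (hG : G.Connected) (hfs : Function.Surjective fc) :
    (ringGraph G nxt hn a0 fc).Connected := by
  have hV : ∀ u v : V, (ringGraph G nxt hn a0 fc).Reachable (.inl u) (.inl v) := by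
    intro u v
    obtain ⟨w⟩ := hG.preconnected u v
    induction w with
    | nil => exact SimpleGraph.Reachable.refl _
    | cons h _ ih =>
      exact SimpleGraph.Reachable.trans
        (SimpleGraph.Adj.reachable (show (ringGraph G nxt hn a0 fc).Adj (.inl _) (.inl _) from h)) ih
  have hR : ∀ r, (ringGraph G nxt hn a0 fc).Reachable (.inr (.inl r)) (.inl (a0 r)) := fun r =>
    SimpleGraph.Adj.reachable
      (show (ringGraph G nxt hn a0 fc).Adj (.inr (.inl r)) (.inl (a0 r)) from Or.inl rfl)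
  have hF : ∀ r, (ringGraph G nxt hn a0 fc).Reachable (.inr (.inr (fc r))) (.inr (.inl r)) := fun r =>
    SimpleGraph.Adj.reachable
      (show (ringGraph G nxt hn a0 fc).Adj (.inr (.inr (fc r))) (.inr (.inl r)) from rfl)
  obtain ⟨v0⟩ := hG.nonempty
  have hall : ∀ p, (ringGraph G nxt hn a0 fc).Reachable p (.inl v0) := by
    rintro (v | r | f)
    · exact hV v v0
    · exact (hR r).trans (hV _ v0)
    · obtain ⟨r, rfl⟩ := hfs f
      exact (hF r).trans ((hR r).trans (hV _ v0))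
  have : Nonempty (V ⊕ (R ⊕ F)) := ⟨.inl v0⟩
  exact ⟨fun p q => (hall p).trans (hall q).symm⟩

end

end Pool.Agent.W986
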