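import Pool.Agent.W986.Ends

/-!
# The rotation at a vertex
-/

set_option autoImplicit false

open Finset

namespace Pool.Agent.W986

open Pool.Agent.DC76

variable {V : Type} [DecidableEq V] {G : SimpleGraph V} {F : Type} [Fintype F]

theorem ends_pair (M : FacialWalks G F) {v x : V} {e₁ e₂ : Σ _ : F, ℕ × Bool}
    (h1 : e₁ ∈ ends M v x) (h2 : e₂ ∈ ends M v x) (hne : e₁ ≠ e₂) {e : Σ _ : F, ℕ × Bool}
    (h : e ∈ ends M v x) : e = e₁ ∨ e = e₂ := by
  classical
  have hc := card_ends M (adj_nbr M h1)
  by_contra hcon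
  push Not at hcon
  have h3 : ({e, e₁, e₂} : Finset (Σ _ : F, ℕ × Bool)).card = 3 := by
    rw [card_eq_three]
    exact ⟨e, e₁, e₂, hcon.1, hcon.2, hne, rfl⟩
  have h4 : ({e, e₁, e₂} : Finset (Σ _ : F, ℕ × Bool)) ⊆ ends M v x := by
    intro y hy
    simp only [mem_insert, mem_singleton] at hy
    rcases hy with rfl | rfl | rfl
    · exact h
    · exact h1
    · exact h2
  have h5 := card_le_card h4
  omega

theorem exists_other (M : FacialWalks G F) {v x : V} {e₁ : Σ _ : F, ℕ × Bool}
    (h1 : e₁ ∈ ends M v x) : ∃ e₂ ∈ ends M v x, e₁ ≠ e₂ := by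
  classical
  have hc := card_ends M (adj_nbr M h1)
  have h2 : 1 < (ends M v x).card := by omega
  obtain ⟨e₂, h3, h4⟩ := exists_mem_ne h2 e₁
  exact ⟨e₂, h3, h4.symm⟩

/-- At a vertex with at least three neighbours the two corners at a neighbour `x` lead to two
different other neighbours. -/
theorem two_nbrs (M : FacialWalks G F) (hL : Link M) {v : V} (hd : ∀ a b : V, ∃ c, G.Adj v c ∧
    c ≠ a ∧ c ≠ b) {x : V} (hx : G.Adj v x) :
    ∃ e₁ ∈ ends M v x, ∃ e₂ ∈ ends M v x, e₁ ≠ e₂ ∧ nbr M (opp e₁) ≠ x ∧ nbr M (opp e₂) ≠ x ∧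
      nbr M (opp e₁) ≠ nbr M (opp e₂) := by
  obtain ⟨c, hc1, hc2, _⟩ := hd x x
  obtain ⟨x', hx', e₁, he₁, hne⟩ := link_split M hL v {x} ⟨x, rfl, hx⟩ ⟨c, hc2, hc1⟩
  rw [Set.mem_singleton_iff] at hx' hne
  rw [hx'] at he₁
  obtain ⟨e₂, he₂, h12⟩ := exists_other M he₁
  have h3 : nbr M (opp e₂) ≠ x := by
    intro h4
    have h5 := opp_mem M he₂
    rw [h4] at h5
    rcases ends_pair M he₁ he₂ h12 h5 with h6 | h6
    · apply hne
      rw [← h6, opp_opp]
      exact ((mem_ends M v x e₂).1 he₂).2.2
    · exact opp_ne e₂ h6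
  refine ⟨e₁, he₁, e₂, he₂, h12, hne, h3, ?_⟩
  intro h4
  set y := nbr M (opp e₁) with hy
  obtain ⟨z, hz1, hz2, hz3⟩ := hd x y
  obtain ⟨u, hu, e, he, hN⟩ := link_split M hL v {x, y} ⟨x, Or.inl rfl, hx⟩
    ⟨z, by simp [hz2, hz3], hz1⟩
  have hN' : nbr M (opp e) ≠ x ∧ nbr M (opp e) ≠ y := by
    constructor
    · intro h
      exact hN (Or.inl h)
    · intro h
      exact hN (Or.inr h)
  rcases hu with hu | hu
  · rw [hu] at he
    rcases ends_pair M he₁ he₂ h12 he with h6 | h6
    · exact hN'.2 (by rw [h6])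
    · exact hN'.2 (by rw [h6, ← h4])
  · rw [Set.mem_singleton_iff] at hu
    rw [hu] at he
    have h5 := opp_mem M he₁
    have h6 := opp_mem M he₂
    rw [← h4] at h6
    rw [← hy] at h5
    have h7 : opp e₁ ≠ opp e₂ := by
      intro h
      apply h12
      rw [← opp_opp e₁, h, opp_opp]
    rcases ends_pair M h5 h6 h7 he with h8 | h8
    · apply hN'.1
      rw [h8, opp_opp]
      exact ((mem_ends M v x e₁).1 he₁).2.2
    · apply hN'.1
      rw [h8, opp_opp]
      exact ((mem_ends M v x e₂).1 he₂).2.2

theorem lk_cycles (M : FacialWalks G F) (hL : Link M) {v : V} (hd : ∀ a b : V, ∃ c, G.Adj v c ∧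
    c ≠ a ∧ c ≠ b) : (Lk M v).IsCycles := by
  rintro x ⟨y, hxy⟩
  obtain ⟨_, e, he, _⟩ := hxy
  obtain ⟨e₁, he₁, e₂, he₂, h12, h3, h4, h5⟩ := two_nbrs M hL hd (adj_nbr M he)
  have h6 : (Lk M v).neighborSet x = {nbr M (opp e₁), nbr M (opp e₂)} := by
    ext z
    rw [SimpleGraph.mem_neighborSet, Set.mem_insert_iff, Set.mem_singleton_iff]
    constructor
    · rintro ⟨_, e', he', h7⟩
      rcases ends_pair M he₁ he₂ h12 he' with h8 | h8
      · left
        rw [← h7, h8]
      · right
        rw [← h7, h8]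
    · rintro (h7 | h7)
      · exact ⟨by rw [h7]; exact h3.symm, e₁, he₁, h7.symm⟩
      · exact ⟨by rw [h7]; exact h4.symm, e₂, he₂, h7.symm⟩
  rw [h6, Set.ncard_pair h5]

theorem lk_supp (M : FacialWalks G F) (hL : Link M) {v x : V} (hx : G.Adj v x) :
    ((Lk M v).connectedComponentMk x).supp = {y | G.Adj v y} := by
  have hsub : ∀ y, (Lk M v).Reachable x y → G.Adj v y := by
    intro y h
    obtain ⟨p⟩ := h
    induction p with
    | nil => exact hx
    | cons h p ih =>
      refine ih ?_
      obtain ⟨_, e, he, h2⟩ := h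
      rw [← h2]
      exact adj_nbr M (opp_mem M he)
  ext y
  rw [SimpleGraph.ConnectedComponent.mem_supp_iff, SimpleGraph.ConnectedComponent.eq,
    Set.mem_ofPred_eq]
  constructor
  · intro h
    exact hsub y h.symm
  · intro hy
    by_contra hcon
    obtain ⟨a, ha, e, he, hN⟩ := link_split M hL v {z | (Lk M v).Reachable z x}
      ⟨x, SimpleGraph.Reachable.refl x, hx⟩ ⟨y, hcon, hy⟩
    apply hN
    by_cases h1 : a = nbr M (opp e)
    · rw [← h1]
      exact ha
    · have h2 : (Lk M v).Adj a (nbr M (opp e)) := ⟨h1, e, he, rfl⟩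
      exact h2.symm.reachable.trans ha

/-- The rotation at a vertex `v` with at least three neighbours: the neighbours are `ν 0, ..,
ν (d - 1)`, indices modulo `d`, the corner between `ν i` and `ν (i + 1)` belongs to the face `fc i`,
and these are all the corners at `v`. -/
structure IsRot (M : FacialWalks G F) (v : V) (d : ℕ) (ν : ℕ → V) (fc : ℕ → F) : Prop where
  three : 3 ≤ d
  per : ∀ i, ν (i + d) = ν i
  perf : ∀ i, fc (i + d) = fc i
  inj : ∀ i, i < d → ∀ j, j < d → ν i = ν j → i = j
  adj : ∀ x, G.Adj v x ↔ ∃ i, i < d ∧ ν i = x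
  cnt : ∀ [DecidableEq F] (I : Finset F) (i : ℕ),
    ∑ f ∈ I, trav (M.len f) (M.walk f) v (ν (i + 1)) =
      (if fc i ∈ I then 1 else 0) + (if fc (i + 1) ∈ I then 1 else 0)

theorem exists_rot [Finite V] (M : FacialWalks G F) (hL : Link M) {v : V}
    (hd : ∀ a b : V, ∃ c, G.Adj v c ∧ c ≠ a ∧ c ≠ b) :
    ∃ d ν fc, IsRot M v d ν fc := by
  classical
  obtain ⟨x0, hx0, _⟩ := hd v v
  have hcyc := lk_cycles M hL hd
  have hn : ((Lk M v).neighborSet x0).Nonempty := by
    obtain ⟨e₁, he₁, _, _, _, h3, _⟩ := two_nbrs M hL hd hx0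
    exact ⟨nbr M (opp e₁), h3.symm, e₁, he₁, rfl⟩
  obtain ⟨p, hp, hverts⟩ := hcyc.exists_cycle_toSubgraph_verts_eq_connectedComponentSupp
    (c := (Lk M v).connectedComponentMk x0) rfl hn
  rw [lk_supp M hL hx0] at hverts
  have h3 : 3 ≤ p.length := hp.three_le_length
  -- consecutive vertices
  have hadj : ∀ i, (Lk M v).Adj (p.getVert (i % p.length)) (p.getVert ((i + 1) % p.length)) := by
    intro i
    have hlt : i % p.length < p.length := Nat.mod_lt _ (by omega)
    have h4 := p.adj_getVert_succ hlt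
    by_cases h5 : i % p.length + 1 < p.length
    · have h6 : (i + 1) % p.length = i % p.length + 1 := by
        rw [Nat.add_mod, Nat.mod_eq_of_lt (show 1 < p.length by omega), Nat.mod_eq_of_lt h5]
      rw [h6]
      exact h4
    · have h6 : i % p.length + 1 = p.length := by omega
      have h7 : (i + 1) % p.length = 0 := by
        rw [Nat.add_mod, Nat.mod_eq_of_lt (show 1 < p.length by omega), h6, Nat.mod_self]
      rw [h6, SimpleGraph.Walk.getVert_length] at h4
      rw [h7, SimpleGraph.Walk.getVert_zero]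
      exact h4
  choose e he using fun i => (hadj i).2
  have hinj : ∀ i, i < p.length → ∀ j, j < p.length → p.getVert i = p.getVert j → i = j := by
    intro i hi j hj hij
    have h4 := hp.getVert_injOn'
    exact h4 (by simp only [Set.mem_ofPred_eq]; omega) (by simp only [Set.mem_ofPred_eq]; omega) hij
  let ν : ℕ → V := fun i => p.getVert (i % p.length)
  refine ⟨p.length, ν, fun i => (e (i % p.length)).1, h3, ?_, ?_, ?_, ?_, ?_⟩
  · intro i
    change p.getVert ((i + p.length) % p.length) = p.getVert (i % p.length)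
    rw [Nat.add_mod_right]
  · intro i
    change (e ((i + p.length) % p.length)).1 = (e (i % p.length)).1
    rw [Nat.add_mod_right]
  · intro i hi j hj hij
    change p.getVert (i % p.length) = p.getVert (j % p.length) at hij
    rw [Nat.mod_eq_of_lt hi, Nat.mod_eq_of_lt hj] at hij
    exact hinj i hi j hj hij
  · intro x
    have h4 : G.Adj v x ↔ x ∈ p.support := by
      rw [← SimpleGraph.Walk.mem_verts_toSubgraph, hverts]
      exact Iff.rfl
    rw [h4, SimpleGraph.Walk.mem_support_iff_exists_getVert]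
    constructor
    · rintro ⟨i, hi, hi2⟩
      by_cases h5 : i < p.length
      · exact ⟨i, h5, by change p.getVert (i % p.length) = x; rw [Nat.mod_eq_of_lt h5]; exact hi⟩
      · have h6 : i = p.length := by omega
        refine ⟨0, by omega, ?_⟩
        change p.getVert (0 % p.length) = x
        rw [Nat.zero_mod, SimpleGraph.Walk.getVert_zero, ← hi, h6,
          SimpleGraph.Walk.getVert_length]
    · rintro ⟨i, hi, hi2⟩
      change p.getVert (i % p.length) = x at hi2
      rw [Nat.mod_eq_of_lt hi] at hi2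
      exact ⟨i, hi2, hi.le⟩
  · intro _ I i
    -- the two ends at `ν (i + 1)`
    have hi1 : (i + 1) % p.length = (i % p.length + 1) % p.length := by
      rw [Nat.mod_add_mod]
    have hνi : ν (i % p.length) = ν i := by
      change p.getVert (i % p.length % p.length) = p.getVert (i % p.length)
      rw [Nat.mod_mod]
    have he1 := he (i % p.length)
    have he2 := he ((i + 1) % p.length)
    have hx : ν (i + 1) = nbr M (opp (e (i % p.length))) := by
      rw [he1.2]
      change p.getVert ((i + 1) % p.length) = p.getVert ((i % p.length + 1) % p.length)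
      rw [hi1]
    have hA : opp (e (i % p.length)) ∈ ends M v (ν (i + 1)) := by
      rw [hx]
      exact opp_mem M he1.1
    have hB : e ((i + 1) % p.length) ∈ ends M v (ν (i + 1)) := by
      have h5 := he2.1
      rw [Nat.mod_mod] at h5
      exact h5
    have hne : opp (e (i % p.length)) ≠ e ((i + 1) % p.length) := by
      intro h5
      have h6 : nbr M (opp (opp (e (i % p.length)))) = nbr M (opp (e ((i + 1) % p.length))) := by
        rw [h5]
      rw [opp_opp, he2.2] at h6
      have h7 : nbr M (e (i % p.length)) = p.getVert (i % p.length % p.length) :=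
        ((mem_ends M v _ _).1 he1.1).2.2
      rw [h7, Nat.mod_mod] at h6
      have h8 := hinj _ (Nat.mod_lt _ (by omega)) _ (Nat.mod_lt _ (by omega)) h6
      have h9 : i % p.length < p.length := Nat.mod_lt _ (by omega)
      rw [hi1, Nat.mod_add_mod] at h8
      by_cases h10 : i % p.length + 2 < p.length
      · rw [show i % p.length + 1 + 1 = i % p.length + 2 from rfl, Nat.mod_eq_of_lt h10] at h8
        omega
      · have h11 : (i % p.length + 1 + 1) % p.length = i % p.length + 2 - p.length := by
          rw [Nat.mod_eq_sub_mod (by omega), Nat.mod_eq_of_lt (by omega)]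
        omega
    have hadjv := adj_nbr M hA
    rw [← card_ends_filter M I hadjv.ne]
    have hE : ends M v (ν (i + 1)) = {opp (e (i % p.length)), e ((i + 1) % p.length)} := by
      ext z
      rw [mem_insert, mem_singleton]
      constructor
      · intro hz
        exact ends_pair M hA hB hne hz
      · rintro (rfl | rfl)
        · exact hA
        · exact hB
    rw [hE, filter_insert, filter_singleton]
    have h12 : (opp (e (i % p.length))).1 = (e (i % p.length)).1 := rfl
    by_cases h13 : (e (i % p.length)).1 ∈ I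
    · by_cases h14 : (e ((i + 1) % p.length)).1 ∈ I
      · rw [h12, if_pos h13, if_pos h14, if_pos h13, if_pos h14, card_insert_of_notMem (by
          rw [mem_singleton]
          exact hne), card_singleton]
      · rw [h12, if_pos h13, if_neg h14, if_pos h13, if_neg h14]
        simp
    · by_cases h14 : (e ((i + 1) % p.length)).1 ∈ I
      · rw [h12, if_neg h13, if_pos h14, if_neg h13, if_pos h14]
        simp
      · rw [h12, if_neg h13, if_neg h14, if_neg h13, if_neg h14]
        simp

end Pool.Agent.W986
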