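import Mathlib

/-!
# The cyclic order of the neighbours of a vertex
-/

set_option autoImplicit false

open Finset

namespace Pool.Agent.W986

section

variable {W : Type}

/-- The cyclic order of the neighbours of `x`. -/
structure Rotn (H : SimpleGraph W) (T : W → W → W → Prop) (x : W) (d : ℕ) (ν : ℕ → W) : Prop where
  three : 3 ≤ d
  per : ∀ i, ν (i + d) = ν i
  inj : ∀ i, i < d → ∀ j, j < d → ν i = ν j → i = j
  adj : ∀ y, H.Adj x y ↔ ∃ i, i < d ∧ ν i = y
  tri : ∀ i y, T x (ν (i + 1)) y ↔ y = ν i ∨ y = ν (i + 2)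

end

section

variable {W : Type} {H : SimpleGraph W} {T : W → W → W → Prop} {x : W} {d : ℕ} {ν : ℕ → W}

theorem Rotn.ne (h : Rotn H T x d ν) {i j : ℕ} (hij : i < j) (hj : j < i + d) : ν i ≠ ν j := by
  have hd : 0 < d := by have := h.three; omega
  have hper : ∀ k j, ν (j + d * k) = ν j := by
    intro k
    induction k with
    | zero => intro j; rfl
    | succ k ih =>
      intro j
      rw [Nat.mul_succ, ← add_assoc, h.per]
      exact ih j
  have hmod : ∀ i, ν i = ν (i % d) := by
    intro i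
    have h1 := hper (i / d) (i % d)
    rw [Nat.mod_add_div] at h1
    exact h1
  intro heq
  rw [hmod i, hmod j] at heq
  have h1 := h.inj _ (Nat.mod_lt _ hd) _ (Nat.mod_lt _ hd) heq
  have h2 : (j - i) % d = 0 := by
    rw [← Nat.ModEq.eq_1] at h1
    exact Nat.sub_mod_eq_zero_of_mod_eq h1.symm
  have h4 : (j - i) % d = j - i := Nat.mod_eq_of_lt (by omega)
  omega

theorem Rotn.modEq (h : Rotn H T x d ν) {i j : ℕ} (hij : i ≡ j [MOD d]) : ν i = ν j := by
  have hper : ∀ k j, ν (j + d * k) = ν j := by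
    intro k
    induction k with
    | zero => intro j; rfl
    | succ k ih =>
      intro j
      rw [Nat.mul_succ, ← add_assoc, h.per]
      exact ih j
  have hmod : ∀ i, ν i = ν (i % d) := by
    intro i
    have h1 := hper (i / d) (i % d)
    rw [Nat.mod_add_div] at h1
    exact h1
  rw [hmod i, hmod j, hij]

theorem Rotn.adj_nu (h : Rotn H T x d ν) (i : ℕ) : H.Adj x (ν i) := by
  refine (h.adj _).2 ⟨i % d, Nat.mod_lt _ (by have := h.three; omega), ?_⟩
  exact h.modEq (Nat.mod_modEq i d)

/-- Every neighbour is in every window of length `d`. -/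
theorem Rotn.window (h : Rotn H T x d ν) (i : ℕ) {y : W} (hy : H.Adj x y) :
    ∃ m, i ≤ m ∧ m < i + d ∧ ν m = y := by
  obtain ⟨j, hj, rfl⟩ := (h.adj y).1 hy
  have hd : 0 < d := by have := h.three; omega
  have hi := Nat.mod_lt i hd
  refine ⟨i + (j + (d - i % d)) % d, by omega, by have := Nat.mod_lt (j + (d - i % d)) hd; omega,
    h.modEq ?_⟩
  have h1 : i + (j + (d - i % d)) % d ≡ i + (j + (d - i % d)) [MOD d] :=
    (Nat.mod_modEq _ _).add_left i
  refine h1.trans ?_
  have h2 : i + (j + (d - i % d)) = j + d * (i / d + 1) := by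
    have h3 := Nat.mod_add_div i d
    have h4 : d * (i / d + 1) = d * (i / d) + d := Nat.mul_succ _ _
    omega
  rw [h2]
  exact (Nat.modEq_iff_dvd' (by omega)).2 (by rw [Nat.add_sub_cancel_left]; exact ⟨_, rfl⟩) |>.symm

theorem Rotn.tri_next (h : Rotn H T x d ν) (i : ℕ) : T x (ν i) (ν (i + 1)) := by
  have hd : 3 ≤ d := h.three
  have e : ν i = ν (i + d - 1 + 1) := by
    rw [show i + d - 1 + 1 = i + d by omega, h.per]
  have e2 : ν (i + 1) = ν (i + d - 1 + 2) := by
    rw [show i + d - 1 + 2 = i + 1 + d by omega, h.per]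
  rw [e, e2]
  exact (h.tri _ _).2 (Or.inr rfl)

theorem Rotn.card (h : Rotn H T x d ν) : {y | H.Adj x y}.ncard = d := by
  classical
  have h1 : {y | H.Adj x y} = (((range d).image ν : Finset W) : Set W) := by
    ext y
    rw [Set.mem_ofPred_eq, h.adj, mem_coe, mem_image]
    constructor
    · rintro ⟨i, h1, h2⟩
      exact ⟨i, mem_range.2 h1, h2⟩
    · rintro ⟨i, h1, h2⟩
      exact ⟨i, mem_range.1 h1, h2⟩
  rw [h1, Set.ncard_coe_finset, card_image_of_injOn, card_range]
  intro i hi j hj
  exact h.inj i (mem_range.1 hi) j (mem_range.1 hj)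

end

end Pool.Agent.W986
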