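import Pool.Agent.W986.Minor

/-!
# Seams

A set `X` of edges is deleted and a set `S` of vertices is identified to one vertex; a colouring of
the result with marked vertices gives a colouring of the graph.
-/

set_option autoImplicit false

open Finset

namespace Pool.Agent.W986

open Pool.Agent.DC76

section seam

variable {V : Type} (G : SimpleGraph V) (X : V → V → ZMod 2) (S : Set V)

/-- The graph on the vertices outside `S` and a hub `none`: the edges of `X` are deleted, the
vertices of `S` are identified to the hub. -/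
def seamGraph : SimpleGraph (Option {v : V // v ∉ S}) where
  Adj x y := match x, y with
    | some a, some b => G.Adj a b ∧ X a b = 0 ∧ X b a = 0
    | some a, none => ∃ s ∈ S, G.Adj a s
    | none, some b => ∃ s ∈ S, G.Adj b s
    | none, none => False
  symm := ⟨by
    rintro (_ | a) (_ | b) h
    · exact h
    · exact h
    · exact h
    · exact ⟨h.1.symm, h.2.2, h.2.1⟩⟩
  loopless := ⟨by
    rintro (_ | a) h
    · exact h
    · exact G.loopless.irrefl a.1 h.1⟩

/-- The ends of the edges of `X` outside `S`. -/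
def seamEnds : Set V := {x | x ∉ S ∧ ∃ y, y ∉ S ∧ G.Adj x y ∧ X x y ≠ 0}

/-- The marked vertices: the hub and the ends of the edges of `X` outside `S`. -/
def seamMarks : Set (Option {v : V // v ∉ S}) :=
  {x | match x with
    | some a => (a : V) ∈ seamEnds G X S
    | none => True}

/-- The graph `seamGraph` with the hub joined to all the marked vertices. -/
def seamPlus : SimpleGraph (Option {v : V // v ∉ S}) where
  Adj x y := match x, y with
    | some a, some b => G.Adj a b ∧ X a b = 0 ∧ X b a = 0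
    | some a, none => (∃ s ∈ S, G.Adj a s) ∨ (a : V) ∈ seamEnds G X S
    | none, some b => (∃ s ∈ S, G.Adj b s) ∨ (b : V) ∈ seamEnds G X S
    | none, none => False
  symm := ⟨by
    rintro (_ | a) (_ | b) h
    · exact h
    · exact h
    · exact h
    · exact ⟨h.1.symm, h.2.2, h.2.1⟩⟩
  loopless := ⟨by
    rintro (_ | a) h
    · exact h
    · exact G.loopless.irrefl a.1 h.1⟩

theorem seamGraph_le_plus : seamGraph G X S ≤ seamPlus G X S := by
  rintro (_ | a) (_ | b) h
  · exact h
  · exact Or.inl h
  · exact Or.inl h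
  · exact h

/-- The double cover of `G` given by `X`. -/
def cover (hX : ∀ x y, X x y = X y x) : SimpleGraph (V × ZMod 2) where
  Adj p q := G.Adj p.1 q.1 ∧ q.2 = p.2 + X p.1 q.1
  symm := ⟨by
    rintro ⟨x, a⟩ ⟨y, b⟩ ⟨h1, h2⟩
    refine ⟨h1.symm, ?_⟩
    change a = b + X y x
    change b = a + X x y at h2
    rw [h2, hX y x, add_assoc, CharTwo.add_self_eq_zero, add_zero]⟩
  loopless := ⟨by
    rintro ⟨x, a⟩ ⟨h1, _⟩
    exact G.loopless.irrefl x h1⟩

variable {G X S}

/-- A good colouring of a graph `P` above `seamGraph`, in which two `X`-neighbours of a vertex are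
always adjacent, gives a colouring of `G`. -/
theorem seam_colouring [Finite V] (hX : ∀ x y, X x y = X y x)
    (hS : ∀ v ∈ S, {u | u ∈ S ∧ G.Adj v u}.ncard ≤ 1)
    (P : SimpleGraph (Option {v : V // v ∉ S})) (hP : seamGraph G X S ≤ P)
    (hF : ∀ x ∉ S, ∀ (y y' : {v : V // v ∉ S}), y ≠ y' → G.Adj x y → G.Adj x y' → X x y ≠ 0 →
      X x y' ≠ 0 → P.Adj (some y) (some y'))
    {c : Option {v : V // v ∉ S} → Fin 4} (hc : Good P (seamMarks G X S) c) :
    ∃ c : V → Fin 4, Defective G 1 c := by
  classical
  let c' : V → Fin 4 := fun x => if h : x ∉ S then c (some ⟨x, h⟩) else c none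
  have hin : ∀ x, x ∈ S → c' x = c none := fun x hx => dif_neg (fun h => h hx)
  have hout : ∀ x (hx : x ∉ S), c' x = c (some ⟨x, hx⟩) := fun x hx => dif_pos hx
  -- no monochromatic edge between `S` and its complement
  have hhub : ∀ x, x ∉ S → ∀ s ∈ S, G.Adj x s → c' x ≠ c' s := by
    intro x hx s hs hxs
    rw [hin s hs, hout x hx]
    exact hc.2 none trivial (some ⟨x, hx⟩) (hP (show (seamGraph G X S).Adj none (some ⟨x, hx⟩) from
      ⟨s, hs, hxs⟩))
  refine ⟨c', ?_⟩
  intro v
  apply ncard_le_one_of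
  rintro x ⟨hx, hcx⟩ y ⟨hy, hcy⟩
  by_cases hv : v ∈ S
  · have hx' : x ∈ S := by
      by_contra h
      exact hhub x h v hv hx.symm hcx
    have hy' : y ∈ S := by
      by_contra h
      exact hhub y h v hv hy.symm hcy
    by_contra hne
    have h1 := hS v hv
    have h2 : ({x, y} : Set V) ⊆ {u | u ∈ S ∧ G.Adj v u} := by
      rintro w (rfl | rfl)
      · exact ⟨hx', hx⟩
      · exact ⟨hy', hy⟩
    have h3 := Set.ncard_le_ncard h2 (Set.toFinite _)
    rw [Set.ncard_pair hne] at h3
    omega
  · have hx' : x ∉ S := fun h => hhub v hv x h hx hcx.symm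
    have hy' : y ∉ S := fun h => hhub v hv y h hy hcy.symm
    rw [hout x hx', hout v hv] at hcx
    rw [hout y hy', hout v hv] at hcy
    -- the edges which are not in `X`
    have hP0 : ∀ w (hw : w ∉ S), G.Adj v w → X v w = 0 → P.Adj (some ⟨v, hv⟩) (some ⟨w, hw⟩) := by
      intro w hw h1 h2
      exact hP (show (seamGraph G X S).Adj (some ⟨v, hv⟩) (some ⟨w, hw⟩) from
        ⟨h1, h2, by rw [hX]; exact h2⟩)
    have hmark : ∀ w, w ∉ S → G.Adj v w → X v w ≠ 0 →
        some ⟨v, hv⟩ ∈ seamMarks G X S := fun w hw h1 h2 => ⟨hv, w, hw, h1, h2⟩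
    by_cases h1 : X v x = 0
    · by_cases h2 : X v y = 0
      · by_contra hne
        have h3 := hc.1 (some ⟨v, hv⟩)
        have h4 : ({some ⟨x, hx'⟩, some ⟨y, hy'⟩} : Set (Option {v : V // v ∉ S})) ⊆
            {u | P.Adj (some ⟨v, hv⟩) u ∧ c u = c (some ⟨v, hv⟩)} := by
          rintro w (rfl | rfl)
          · exact ⟨hP0 x hx' hx h1, hcx⟩
          · exact ⟨hP0 y hy' hy h2, hcy⟩
        have h5 := Set.ncard_le_ncard h4 (Set.toFinite _)
        rw [Set.ncard_pair (by
          intro h
          apply hne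
          have h6 := Option.some_injective _ h
          exact congrArg Subtype.val h6)] at h5
        omega
      · exact absurd hcx (hc.2 _ (hmark y hy' hy h2) _ (hP0 x hx' hx h1))
    · by_cases h2 : X v y = 0
      · exact absurd hcy (hc.2 _ (hmark x hx' hx h1) _ (hP0 y hy' hy h2))
      · by_contra hne
        have h3 := hF v hv ⟨x, hx'⟩ ⟨y, hy'⟩ (fun h => hne (congrArg Subtype.val h)) hx hy h1 h2
        have h4 : some ⟨x, hx'⟩ ∈ seamMarks G X S := by
          refine ⟨hx', v, hv, hx.symm, ?_⟩
          rw [hX]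
          exact h1
        exact hc.2 _ h4 _ h3 (hcy.trans hcx.symm)

/-- The graph `seamPlus` is a minor of the double cover. -/
theorem seam_minor [Fintype V] [DecidableEq V] (hX : ∀ x y, X x y = X y x) {F : Type} [Fintype F]
    (hcov : (cover G X hX).Connected) (hM : ∃ M : FacialWalks (cover G X hX) F, Link M)
    (hχ : (Fintype.card (V × ZMod 2) : ℤ) - (cover G X hX).edgeSet.ncard + Fintype.card F = 2)
    (hconn : ∀ x y, Relation.ReflTransGen (fun a b => G.Adj a b ∧ X a b = 0) x y)
    (hne : Nonempty V) (hSX : ∀ s ∈ S, ∃ y, G.Adj s y ∧ X s y ≠ 0) :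
    SphereMinor (seamPlus G X S) {x | x ≠ none} := by
  classical
  have h01 : ∀ a : ZMod 2, a ≠ 0 → a = 1 := by decide
  have h0n1 : ¬ ((0 : ZMod 2) = 1) := by decide
  let f : Option {v : V // v ∉ S} → Set (V × ZMod 2) := fun x => match x with
    | some a => {((a : V), 0)}
    | none => {p | p.2 = 1 ∨ p.1 ∈ S}
  have hcopy : ∀ x y : V, Relation.ReflTransGen
      (fun a b => b ∈ f none ∧ (cover G X hX).Adj a b) (x, 1) (y, 1) := by
    intro x y
    have h := hconn x y
    induction h with
    | refl => exact Relation.ReflTransGen.refl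
    | tail _ h2 ih =>
      refine ih.tail ⟨Or.inl rfl, h2.1, ?_⟩
      change (1 : ZMod 2) = 1 + X _ _
      rw [h2.2, add_zero]
  -- every vertex of the hub is connected with the second copy, in both directions
  have hto : ∀ p ∈ f none, ∃ y : V, Relation.ReflTransGen
      (fun a b => b ∈ f none ∧ (cover G X hX).Adj a b) p (y, 1) ∧ Relation.ReflTransGen
      (fun a b => b ∈ f none ∧ (cover G X hX).Adj a b) (y, 1) p := by
    rintro ⟨x, a⟩ hp
    by_cases ha : a = 1
    · subst ha
      exact ⟨x, Relation.ReflTransGen.refl, Relation.ReflTransGen.refl⟩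
    · have ha0 : a = 0 := by
        by_contra h
        exact ha (h01 a h)
      subst ha0
      have hxS : x ∈ S := by
        rcases hp with h | h
        · exact absurd h h0n1
        · exact h
      obtain ⟨y, hy, hXy⟩ := hSX x hxS
      have h1 : (cover G X hX).Adj (x, 0) (y, 1) := by
        refine ⟨hy, ?_⟩
        change (1 : ZMod 2) = 0 + X x y
        rw [h01 _ hXy, zero_add]
      exact ⟨y, Relation.ReflTransGen.single ⟨Or.inl rfl, h1⟩,
        Relation.ReflTransGen.single ⟨Or.inr hxS, h1.symm⟩⟩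
  refine ⟨V × ZMod 2, F, inferInstance, inferInstance, inferInstance, cover G X hX, f, ?_, ?_, ?_,
    ?_, ?_, hcov, hM, hχ⟩
  · rintro (_ | a)
    · obtain ⟨x⟩ := hne
      exact ⟨(x, 1), Or.inl rfl⟩
    · exact ⟨_, rfl⟩
  · rintro (_ | a)
    · intro p hp q hq
      obtain ⟨y, h1, _⟩ := hto p hp
      obtain ⟨z, _, h2⟩ := hto q hq
      exact (h1.trans (hcopy y z)).trans h2
    · intro p hp q hq
      rw [show p = q from hp.trans hq.symm]
  · rintro (_ | a) (_ | b) hab
    · exact absurd rfl hab
    · rw [Set.disjoint_left]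
      rintro p hp hp'
      rw [show p = ((b : V), 0) from hp'] at hp
      rcases hp with h | h
      · exact absurd h h0n1
      · exact b.2 h
    · rw [Set.disjoint_left]
      rintro p hp' hp
      rw [show p = ((a : V), 0) from hp'] at hp
      rcases hp with h | h
      · exact absurd h h0n1
      · exact a.2 h
    · rw [Set.disjoint_left]
      rintro p hp hp'
      apply hab
      have h1 : ((a : V), (0 : ZMod 2)) = ((b : V), 0) :=
        (show p = ((a : V), 0) from hp).symm.trans hp'
      rw [Subtype.ext (congrArg Prod.fst h1)]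
  · have key : ∀ a : {v : V // v ∉ S}, ((∃ s ∈ S, G.Adj a s) ∨ (a : V) ∈ seamEnds G X S) →
        ∃ q ∈ f none, (cover G X hX).Adj ((a : V), 0) q := by
      rintro a (⟨s, hs, has⟩ | ⟨_, y, _, hay, hXy⟩)
      · refine ⟨(s, X a s), Or.inr hs, has, ?_⟩
        change X a s = 0 + X a s
        rw [zero_add]
      · refine ⟨(y, 1), Or.inl rfl, hay, ?_⟩
        change (1 : ZMod 2) = 0 + X a y
        rw [h01 _ hXy, zero_add]
    rintro (_ | a) (_ | b) h
    · exact absurd h id
    · obtain ⟨q, hq, hq2⟩ := key b h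
      exact ⟨q, hq, _, rfl, hq2.symm⟩
    · obtain ⟨q, hq, hq2⟩ := key a h
      exact ⟨_, rfl, q, hq, hq2⟩
    · refine ⟨_, rfl, _, rfl, h.1, ?_⟩
      change (0 : ZMod 2) = 0 + X a b
      rw [h.2.1, add_zero]
  · rintro (_ | a) ha
    · exact absurd rfl ha
    · exact ⟨_, rfl⟩

end seam

end Pool.Agent.W986
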