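import Pool.Agent.W986.TriBasic
import Pool.Agent.W986.Jordan

/-!
# Splitting a triangulation along a triangle
-/

set_option autoImplicit false

open Finset

namespace Pool.Agent.W986

open Pool.Agent.DC76

section

variable {V : Type} [DecidableEq V] {G : SimpleGraph V} {F : Type} [Fintype F]

/-- The boundary of `I` is the set of the edges inside `T`. -/
def Cut (M : FacialWalks G F) (I : Finset F) (T : Set V) : Prop :=
  ∀ u v, G.Adj u v → (bd M I u v = 1 ↔ u ∈ T ∧ v ∈ T)

theorem bd_compl (M : FacialWalks G F) [DecidableEq F] (I : Finset F) {x y : V} (h : G.Adj x y) :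
    bd M I x y + bd M Iᶜ x y = 2 := by
  rw [← M.twice x y h]
  exact sum_add_sum_compl I _

theorem Cut.compl {M : FacialWalks G F} [DecidableEq F] {I : Finset F} {T : Set V}
    (h : Cut M I T) : Cut M Iᶜ T := by
  intro u v huv
  rw [← h u v huv]
  have h1 := bd_compl M I huv
  omega

/-- The vertices of `T` and the vertices on the side `I`. -/
def part (M : FacialWalks G F) (I : Finset F) (T : Set V) : Set V :=
  {v | v ∈ T ∨ ∃ w, G.Adj v w ∧ side M I v w}

variable {M : FacialWalks G F} {I : Finset F} {T : Set V}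

theorem Cut.side (hc : Cut M I T) (hL : Link M) {v w : V} (hv : v ∉ T) (hp : v ∈ part M I T)
    (hw : G.Adj v w) : side M I v w := by
  rcases hp with h | ⟨u, hu, hs⟩
  · exact absurd h hv
  · exact side_const M hL I (fun y hy h1 => hv ((hc v y hy).1 h1).1) hu hw hs

theorem Cut.closed (hc : Cut M I T) (hL : Link M) {v w : V} (hv : v ∉ T) (hp : v ∈ part M I T)
    (hw : G.Adj v w) : w ∈ part M I T :=
  Or.inr ⟨v, hw.symm, (side_comm M I v w).1 (hc.side hL hv hp hw)⟩

theorem At_walk (M : FacialWalks G F) {f : F} {t : ℕ} (ht : t < M.len f) :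
    At M f (M.walk f t) (M.walk f (t + 1)) := by
  have h := trav_pos_of (w := M.walk f) ht
  unfold At
  omega

theorem mem_part (M : FacialWalks G F) {f : F} (hf : f ∈ I) {t : ℕ} (ht : t < M.len f) :
    M.walk f t ∈ part M I T :=
  Or.inr ⟨_, M.adj f t ht, f, hf, At_walk M ht⟩

theorem not_mem_part (hc : Cut M I T) (hL : Link M) {f : F} (hf : f ∉ I) {t : ℕ}
    (ht : t < M.len f) (hT : M.walk f t ∉ T) : M.walk f t ∉ part M I T := by
  intro hp
  have h1 := hc.side hL hT hp (M.adj f t ht)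
  exact hf ((mem_iff_side M I (M.adj f t ht) (fun h => hT ((hc _ _ (M.adj f t ht)).1 h).1)
    (At_walk M ht)).2 h1)

theorem part_union [DecidableEq F] (M : FacialWalks G F) (I : Finset F) (T : Set V) {v w : V}
    (hvw : G.Adj v w) : v ∈ part M I T ∨ v ∈ part M Iᶜ T := by
  have h1 := bd_compl M I hvw
  have h2 : ∀ J : Finset F, bd M J v w ≠ 0 → v ∈ part M J T := by
    intro J hJ
    obtain ⟨f, hf, hf2⟩ := exists_ne_zero_of_sum_ne_zero hJ
    exact Or.inr ⟨w, hvw, f, hf, hf2⟩
  by_cases h3 : bd M I v w = 0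
  · exact Or.inr (h2 _ (by omega))
  · exact Or.inl (h2 _ h3)

theorem part_inter [DecidableEq F] (hc : Cut M I T) (hL : Link M) {v w : V} (hvw : G.Adj v w)
    (h1 : v ∈ part M I T) (h2 : v ∈ part M Iᶜ T) : v ∈ T := by
  by_contra hv
  obtain ⟨f, hf, hf2⟩ := hc.side hL hv h1 hvw
  have h3 := (mem_iff_side M Iᶜ hvw (fun h => hv ((hc.compl _ _ hvw).1 h).1) hf2).2
    (hc.compl.side hL hv h2 hvw)
  exact (mem_compl.1 h3) hf

end

section

variable {V : Type} [DecidableEq V] {G : SimpleGraph V} {F : Type} [Fintype F]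
  {M : FacialWalks G F} {I : Finset F} {x y z : V}

/-- The walks of the part `I`: the faces of `I` and the triangle. -/
def pwalk (M : FacialWalks G F) (h3 : ∀ f, M.len f = 3) (I : Finset F) (x y z : V) :
    Option {f // f ∈ I} → ℕ → {v // v ∈ part M I {x, y, z}}
  | none => tw ⟨x, Or.inl (by simp)⟩ ⟨y, Or.inl (by simp)⟩ ⟨z, Or.inl (by simp)⟩
  | some f => tw ⟨M.walk f.1 0, mem_part M f.2 (by rw [h3]; omega)⟩
      ⟨M.walk f.1 1, mem_part M f.2 (by rw [h3]; omega)⟩
      ⟨M.walk f.1 2, mem_part M f.2 (by rw [h3]; omega)⟩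

theorem pwalk_none (M : FacialWalks G F) (h3 : ∀ f, M.len f = 3) (I : Finset F) (x y z : V)
    (t : ℕ) : (pwalk M h3 I x y z none t).1 = tw x y z t :=
  map_tw Subtype.val t

theorem pwalk_some (M : FacialWalks G F) (h3 : ∀ f, M.len f = 3) (I : Finset F) (x y z : V)
    (f : {f // f ∈ I}) {t : ℕ} (ht : t ≤ 3) :
    (pwalk M h3 I x y z (some f) t).1 = M.walk f.1 t := by
  have h1 : (pwalk M h3 I x y z (some f) t).1 =
      tw (M.walk f.1 0) (M.walk f.1 1) (M.walk f.1 2) t := map_tw Subtype.val t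
  rw [h1]
  refine tw_eq ?_ ht
  rw [← M.closed f.1, h3]

theorem pwalk_adj (h3 : ∀ f, M.len f = 3) (hxy : G.Adj x y) (hyz : G.Adj y z) (hzx : G.Adj z x)
    (f : Option {f // f ∈ I}) (t : ℕ) (ht : t < 3) :
    (G.comap (Subtype.val : {v // v ∈ part M I {x, y, z}} → V)).Adj (pwalk M h3 I x y z f t)
      (pwalk M h3 I x y z f (t + 1)) := by
  change G.Adj _ _
  rcases f with _ | f
  · rw [pwalk_none, pwalk_none]
    have h : t = 0 ∨ t = 1 ∨ t = 2 := by omega
    rcases h with rfl | rfl | rfl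
    · exact hxy
    · exact hyz
    · exact hzx
  · rw [pwalk_some M h3 I x y z f (by omega), pwalk_some M h3 I x y z f (by omega)]
    exact M.adj f.1 t (by rw [h3]; exact ht)

theorem pwalk_twice (hc : Cut M I {x, y, z}) (hL : Link M) (h3 : ∀ f, M.len f = 3)
    (hxy : G.Adj x y) (hyz : G.Adj y z) (hzx : G.Adj z x)
    (u v : {v // v ∈ part M I {x, y, z}}) (huv : G.Adj u.1 v.1) :
    ∑ f, trav 3 (pwalk M h3 I x y z f) u v = 2 := by
  classical
  rw [Fintype.sum_option]
  have h1 : trav 3 (pwalk M h3 I x y z none) u v = trav 3 (tw x y z) u.1 v.1 := by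
    rw [← trav_inj Subtype.val Subtype.val_injective]
    exact trav_congr (fun t _ => pwalk_none M h3 I x y z t) _ _
  have h2 : ∑ f : {f // f ∈ I}, trav 3 (pwalk M h3 I x y z (some f)) u v = bd M I u.1 v.1 := by
    unfold bd
    rw [← sum_coe_sort I]
    refine sum_congr rfl fun f _ => ?_
    rw [h3, ← trav_inj Subtype.val Subtype.val_injective]
    exact trav_congr (fun t ht => pwalk_some M h3 I x y z f ht) _ _
  rw [h1, h2]
  by_cases hu : u.1 ∈ ({x, y, z} : Set V)
  · by_cases hv : v.1 ∈ ({x, y, z} : Set V)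
    · rw [(hc _ _ huv).2 ⟨hu, hv⟩, trav_tw]
      have hne := huv.ne
      have n1 := hxy.ne
      have n2 := hyz.ne
      have n3 := hzx.ne
      have n1' := hxy.ne'
      have n2' := hyz.ne'
      have n3' := hzx.ne'
      simp only [Set.mem_insert_iff, Set.mem_singleton_iff] at hu hv
      unfold ise
      rcases hu with hu | hu | hu <;> rcases hv with hv | hv | hv <;>
        first
        | exact absurd (hu.trans hv.symm) hne
        | simp [hu, hv, n1, n2, n3, n1', n2', n3']
    · have h4 : bd M I u.1 v.1 ≠ 1 := fun h => hv ((hc _ _ huv).1 h).2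
      have h5 : bd M I u.1 v.1 ≤ 2 := bd_le M I huv
      have h6 : bd M I u.1 v.1 ≠ 0 := by
        obtain ⟨f, hf, hf2⟩ := hc.side hL hv v.2 huv.symm
        intro h0
        unfold bd at h0
        rw [sum_eq_zero_iff] at h0
        exact hf2.symm (h0 f hf)
      rw [trav_tw]
      have h7 : ∀ a ∈ ({x, y, z} : Set V), ∀ b ∈ ({x, y, z} : Set V), ¬ ise a b u.1 v.1 := by
        rintro a ha b hb (⟨_, h⟩ | ⟨h, _⟩)
        · exact hv (h ▸ hb)
        · exact hv (h ▸ ha)
      rw [if_neg (h7 x (by simp) y (by simp)), if_neg (h7 y (by simp) z (by simp)),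
        if_neg (h7 z (by simp) x (by simp))]
      omega
  · have h4 : bd M I u.1 v.1 ≠ 1 := fun h => hu ((hc _ _ huv).1 h).1
    have h5 : bd M I u.1 v.1 ≤ 2 := bd_le M I huv
    have h6 : bd M I u.1 v.1 ≠ 0 := by
      obtain ⟨f, hf, hf2⟩ := hc.side hL hu u.2 huv
      intro h0
      unfold bd at h0
      rw [sum_eq_zero_iff] at h0
      exact hf2 (h0 f hf)
    rw [trav_tw]
    have h7 : ∀ a ∈ ({x, y, z} : Set V), ∀ b ∈ ({x, y, z} : Set V), ¬ ise a b u.1 v.1 := by
      rintro a ha b hb (⟨h, _⟩ | ⟨_, h⟩)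
      · exact hu (h ▸ ha)
      · exact hu (h ▸ hb)
    rw [if_neg (h7 x (by simp) y (by simp)), if_neg (h7 y (by simp) z (by simp)),
      if_neg (h7 z (by simp) x (by simp))]
    omega

theorem pwalk_link (hc : Cut M I {x, y, z}) (hL : Link M) (h3 : ∀ f, M.len f = 3)
    (v : {v // v ∈ part M I {x, y, z}}) (N : Set {v // v ∈ part M I {x, y, z}})
    (h1 : ∃ a ∈ N, G.Adj v.1 a.1) (h2 : ∃ a, a ∉ N ∧ G.Adj v.1 a.1) :
    ∃ f t, t < 3 ∧ pwalk M h3 I x y z f (t + 1) = v ∧
      ¬ (pwalk M h3 I x y z f t ∈ N ↔ pwalk M h3 I x y z f ((t + 1) % 3 + 1) ∈ N) := by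
  classical
  by_contra hcon
  push Not at hcon
  -- the value outside of the part
  obtain ⟨P, hP⟩ : ∃ P : Prop, v.1 ∈ ({x, y, z} : Set V) →
      ∀ w : {v // v ∈ part M I {x, y, z}}, w.1 ∈ ({x, y, z} : Set V) → w ≠ v → (w ∈ N ↔ P) := by
    by_cases hv : v.1 ∈ ({x, y, z} : Set V)
    · let X : {v // v ∈ part M I {x, y, z}} := ⟨x, Or.inl (by simp)⟩
      let Y : {v // v ∈ part M I {x, y, z}} := ⟨y, Or.inl (by simp)⟩
      let Z : {v // v ∈ part M I {x, y, z}} := ⟨z, Or.inl (by simp)⟩
      have hw : ∀ w : {v // v ∈ part M I {x, y, z}}, w.1 ∈ ({x, y, z} : Set V) →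
          w = X ∨ w = Y ∨ w = Z := by
        intro w hw
        simp only [Set.mem_insert_iff, Set.mem_singleton_iff] at hw
        rcases hw with h | h | h
        · exact Or.inl (Subtype.ext h)
        · exact Or.inr (Or.inl (Subtype.ext h))
        · exact Or.inr (Or.inr (Subtype.ext h))
      rcases hw v hv with rfl | rfl | rfl
      · refine ⟨Y ∈ N, fun _ w hw1 hne => ?_⟩
        have h4 := hcon none 2 (by omega) rfl
        change (Z ∈ N ↔ Y ∈ N) at h4
        rcases hw w hw1 with rfl | rfl | rfl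
        · exact absurd rfl hne
        · exact Iff.rfl
        · exact h4
      · refine ⟨X ∈ N, fun _ w hw1 hne => ?_⟩
        have h4 := hcon none 0 (by omega) rfl
        change (X ∈ N ↔ Z ∈ N) at h4
        rcases hw w hw1 with rfl | rfl | rfl
        · exact Iff.rfl
        · exact absurd rfl hne
        · exact h4.symm
      · refine ⟨X ∈ N, fun _ w hw1 hne => ?_⟩
        have h4 := hcon none 1 (by omega) rfl
        change (Y ∈ N ↔ X ∈ N) at h4
        rcases hw w hw1 with rfl | rfl | rfl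
        · exact Iff.rfl
        · exact h4
        · exact absurd rfl hne
    · exact ⟨True, fun h => absurd h hv⟩
  let N' : Set V := {w | (∃ h : w ∈ part M I {x, y, z}, (⟨w, h⟩ : {v // v ∈ part M I {x, y, z}}) ∈ N) ∨
    (w ∉ part M I {x, y, z} ∧ P)}
  have hN' : ∀ w : {v // v ∈ part M I {x, y, z}}, w.1 ∈ N' ↔ w ∈ N := by
    intro w
    constructor
    · rintro (⟨_, h⟩ | ⟨h, _⟩)
      · exact h
      · exact absurd w.2 h
    · intro h
      exact Or.inl ⟨w.2, h⟩
  obtain ⟨a, ha, hva⟩ := h1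
  obtain ⟨b, hb, hvb⟩ := h2
  obtain ⟨f, t, ht, hv, hN⟩ := hL v.1 N' ⟨a.1, (hN' a).2 ha, hva⟩
    ⟨b.1, fun h => hb ((hN' b).1 h), hvb⟩
  rw [h3] at ht hN
  have hlt : (t + 1) % 3 < 3 := Nat.mod_lt _ (by omega)
  by_cases hf : f ∈ I
  · have h4 := hcon (some ⟨f, hf⟩) t ht
    have h5 : pwalk M h3 I x y z (some ⟨f, hf⟩) (t + 1) = v := by
      apply Subtype.ext
      rw [pwalk_some M h3 I x y z _ (by omega)]
      exact hv
    have h6 := h4 h5
    rw [← hN', ← hN', pwalk_some M h3 I x y z _ (by omega),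
      pwalk_some M h3 I x y z _ (by omega)] at h6
    exact hN h6
  · have hvT : v.1 ∈ ({x, y, z} : Set V) := by
      by_contra hvT
      have h4 : M.walk f ((t + 1) % 3) = v.1 := by
        rw [← hv, ← h3 f]
        exact shift_closed (M.closed f) (by rw [h3]; exact ht)
      have h5 := not_mem_part hc hL hf (t := (t + 1) % 3) (by rw [h3]; exact hlt)
        (by rw [h4]; exact hvT)
      rw [h4] at h5
      exact h5 v.2
    have key : ∀ s, s < 3 → M.walk f s ≠ v.1 → (M.walk f s ∈ N' ↔ P) := by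
      intro s hs hne
      by_cases h4 : M.walk f s ∈ ({x, y, z} : Set V)
      · have h5 := hP hvT ⟨M.walk f s, Or.inl h4⟩ h4 (fun h => hne (congrArg Subtype.val h))
        rw [← h5]
        exact hN' ⟨M.walk f s, Or.inl h4⟩
      · have h5 := not_mem_part hc hL hf (t := s) (by rw [h3]; exact hs) h4
        constructor
        · rintro (⟨h6, _⟩ | ⟨_, h6⟩)
          · exact absurd h6 h5
          · exact h6
        · intro h6
          exact Or.inr ⟨h5, h6⟩
    have hadj := M.adj f
    rw [h3] at hadj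
    have hcl := M.closed f
    rw [h3] at hcl
    have h7 : M.walk f t ≠ v.1 := by
      rw [← hv]
      exact (hadj t ht).ne
    have h8 : M.walk f ((t + 1) % 3 + 1) ≠ v.1 := by
      rw [← hv]
      have h : t = 0 ∨ t = 1 ∨ t = 2 := by omega
      rcases h with rfl | rfl | rfl
      · exact (hadj 1 (by omega)).ne'
      · exact (hadj 2 (by omega)).ne'
      · change M.walk f 1 ≠ M.walk f 3
        rw [hcl]
        exact (hadj 0 (by omega)).ne'
    have h9 := key t ht h7
    have h10 : M.walk f ((t + 1) % 3 + 1) ∈ N' ↔ P := by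
      by_cases h11 : (t + 1) % 3 + 1 < 3
      · exact key _ h11 h8
      · have h12 : (t + 1) % 3 + 1 = 3 := by omega
        rw [h12, hcl] at h8 ⊢
        exact key 0 (by omega) h8
    exact hN (h9.trans h10.symm)

/-- The part is connected. -/
theorem part_connected (hc : Cut M I {x, y, z}) (hL : Link M) (hG : G.Connected)
    (hxy : G.Adj x y) (hzx : G.Adj z x) :
    (G.comap (Subtype.val : {v // v ∈ part M I {x, y, z}} → V)).Connected := by
  have hx : x ∈ part M I {x, y, z} := Or.inl (by simp)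
  have key : ∀ u w : V, G.Walk u w → w = x → ∀ hu : u ∈ part M I {x, y, z},
      (G.comap (Subtype.val : {v // v ∈ part M I {x, y, z}} → V)).Reachable ⟨u, hu⟩ ⟨x, hx⟩ := by
    intro u w p
    induction p with
    | nil =>
      rintro rfl hu
      exact SimpleGraph.Reachable.refl _
    | @cons a b c h p ih =>
      intro hcx ha
      by_cases hb : b ∈ part M I {x, y, z}
      · exact SimpleGraph.Reachable.trans
          (SimpleGraph.Adj.reachable (show (G.comap Subtype.val).Adj ⟨a, ha⟩ ⟨b, hb⟩ from h))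
          (ih hcx hb)
      · have haT : a ∈ ({x, y, z} : Set V) := by
          by_contra haT
          exact hb (hc.closed hL haT ha h)
        simp only [Set.mem_insert_iff, Set.mem_singleton_iff] at haT
        rcases haT with rfl | rfl | rfl
        · exact SimpleGraph.Reachable.refl _
        · exact SimpleGraph.Adj.reachable (show G.Adj _ _ from hxy.symm)
        · exact SimpleGraph.Adj.reachable (show G.Adj _ _ from hzx)
  have : Nonempty {v // v ∈ part M I {x, y, z}} := ⟨⟨x, hx⟩⟩
  refine ⟨fun u w => ?_⟩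
  obtain ⟨p⟩ := hG.preconnected u.1 x
  obtain ⟨q⟩ := hG.preconnected w.1 x
  exact (key _ _ p rfl u.2).trans (key _ _ q rfl w.2).symm

end

end Pool.Agent.W986
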