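import Pool.Agent.W986.SplitLink

/-!
# The splitting statement with capacities and allowed vertices

`c : V → ℤ` is the capacity of the vertices, `A` the set of allowed vertices (those which may be put
into the set `S`).  `hc G A c X = SUM_X (c + [allowed]) - e(X)`.  Hypothesis `SHyp`: `hc ≥ -1` on
all sets and `hc ≥ 0` on sets without allowed vertices.  A solution `S` consists of allowed
vertices, every vertex of `S` has at most one neighbour in `S`, and `e(X) ≤ c(X)` for all `X`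
disjoint from `S`.
-/

set_option autoImplicit false

namespace Pool.Agent.W986.C2

open Pool.Agent.W986

variable {V : Type}

theorem ein_union [DecidableEq V] (G : SimpleGraph V) {X Y : Finset V} (h : Disjoint X Y) :
    ein G (X ∪ Y) = ein G X + ein G Y + dd G X Y := by
  have h1 := dd_ein G (X ∪ Y)
  have h2 := dd_ein G X
  have h3 := dd_ein G Y
  have h4 : dd G (X ∪ Y) (X ∪ Y) = dd G X X + dd G Y Y + 2 * dd G X Y := by
    rw [dd_union_left G h, dd_union_right G h, dd_union_right G h, dd_comm G Y X]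
    ring
  omega

theorem ein_inter_union [DecidableEq V] (G : SimpleGraph V) (X Y : Finset V) :
    ein G (X ∪ Y) + ein G (X ∩ Y) = ein G X + ein G Y + dd G (X \ Y) (Y \ X) := by
  have h := pot_inter_union G ∅ X Y
  unfold pot at h
  rw [mk_none, mk_none, mk_none, mk_none] at h
  have h2 := Finset.card_union_add_card_inter X Y
  have h2' : ((X ∪ Y).card : ℤ) + ((X ∩ Y).card : ℤ) = (X.card : ℤ) + (Y.card : ℤ) := by
    exact_mod_cast h2
  have h3 : (ein G (X ∪ Y) : ℤ) + (ein G (X ∩ Y) : ℤ)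
      = (ein G X : ℤ) + (ein G Y : ℤ) + (dd G (X \ Y) (Y \ X) : ℤ) := by
    push_cast at h
    linarith
  exact_mod_cast h3

theorem ein_empty (G : SimpleGraph V) : ein G (∅ : Finset V) = 0 := by
  have h1 := dd_ein G (∅ : Finset V)
  have h2 : dd G ∅ (∅ : Finset V) = 0 := by
    unfold dd
    exact Finset.sum_empty
  omega

theorem ein_singleton (G : SimpleGraph V) (v : V) : ein G ({v} : Finset V) = 0 := by
  have h1 := dd_ein G ({v} : Finset V)
  have h2 := dd_singleton_self (H := G) v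
  omega

/-- `SUM_X (c + [allowed]) - e(X)`. -/
noncomputable def hc (G : SimpleGraph V) (A : Finset V) (c : V → ℤ) (X : Finset V) : ℤ :=
  (∑ x ∈ X, (c x + (ib (x ∈ A) : ℤ))) - (ein G X : ℤ)

theorem hc_empty (G : SimpleGraph V) (A : Finset V) (c : V → ℤ) : hc G A c ∅ = 0 := by
  unfold hc
  rw [ein_empty, Finset.sum_empty]
  norm_num

theorem hc_singleton (G : SimpleGraph V) (A : Finset V) (c : V → ℤ) (v : V) :
    hc G A c {v} = c v + (ib (v ∈ A) : ℤ) := by
  unfold hc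
  rw [ein_singleton, Finset.sum_singleton]
  push_cast
  ring

theorem hc_union [DecidableEq V] (G : SimpleGraph V) (A : Finset V) (c : V → ℤ)
    {X Y : Finset V} (h : Disjoint X Y) :
    hc G A c (X ∪ Y) = hc G A c X + hc G A c Y - (dd G X Y : ℤ) := by
  unfold hc
  rw [Finset.sum_union h, ein_union G h]
  push_cast
  ring

theorem hc_insert [DecidableEq V] (G : SimpleGraph V) (A : Finset V) (c : V → ℤ)
    {X : Finset V} {v : V} (hv : v ∉ X) :
    hc G A c (insert v X) = hc G A c X + (c v + (ib (v ∈ A) : ℤ)) - (nb G X v : ℤ) := by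
  have hd : Disjoint ({v} : Finset V) X := Finset.disjoint_singleton_left.2 hv
  have h := hc_union G A c hd
  rw [dd_single, hc_singleton] at h
  rw [Finset.insert_eq, h]
  ring

theorem hc_submod [DecidableEq V] (G : SimpleGraph V) (A : Finset V) (c : V → ℤ)
    (X Y : Finset V) :
    hc G A c (X ∪ Y) + hc G A c (X ∩ Y) ≤ hc G A c X + hc G A c Y := by
  have h1 := ein_inter_union G X Y
  have h2 : ∑ x ∈ X ∪ Y, (c x + (ib (x ∈ A) : ℤ)) + ∑ x ∈ X ∩ Y, (c x + (ib (x ∈ A) : ℤ))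
      = ∑ x ∈ X, (c x + (ib (x ∈ A) : ℤ)) + ∑ x ∈ Y, (c x + (ib (x ∈ A) : ℤ)) :=
    Finset.sum_union_inter
  have h1' : (ein G (X ∪ Y) : ℤ) + (ein G (X ∩ Y) : ℤ)
      = (ein G X : ℤ) + (ein G Y : ℤ) + (dd G (X \ Y) (Y \ X) : ℤ) := by exact_mod_cast h1
  have h3 : (0 : ℤ) ≤ (dd G (X \ Y) (Y \ X) : ℤ) := Int.natCast_nonneg _
  unfold hc
  linarith

/-- The hypothesis. -/
def SHyp (G : SimpleGraph V) (A : Finset V) (c : V → ℤ) (U : Finset V) : Prop :=
  ∀ X : Finset V, X ⊆ U → -1 ≤ hc G A c X ∧ (Disjoint X A → 0 ≤ hc G A c X)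

/-- `S` is a solution. -/
def SSol (G : SimpleGraph V) (A : Finset V) (c : V → ℤ) (U S : Finset V) : Prop :=
  S ⊆ U ∧ S ⊆ A ∧ MatchLike G S ∧
    ∀ X : Finset V, X ⊆ U → Disjoint X S → (ein G X : ℤ) ≤ ∑ x ∈ X, c x

/-- There is a solution. -/
def Solv (G : SimpleGraph V) (A : Finset V) (c : V → ℤ) (U : Finset V) : Prop :=
  ∃ S, SSol G A c U S

theorem SHyp.mono {G : SimpleGraph V} {A U U' : Finset V} {c : V → ℤ} (h : SHyp G A c U)
    (hU : U' ⊆ U) : SHyp G A c U' := fun X hX => h X (hX.trans hU)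

/-- Vertices of `A` without neighbours in `S`. -/
noncomputable def restA (G : SimpleGraph V) (A S : Finset V) : Finset V := by
  classical
  exact A.filter (fun x => nb G S x = 0)

theorem mem_restA {G : SimpleGraph V} {A S : Finset V} {x : V} :
    x ∈ restA G A S ↔ x ∈ A ∧ nb G S x = 0 := by
  classical
  unfold restA
  exact Finset.mem_filter

/-- The capacity outside after the edges to `R` are charged to the outer end, except those of `F`,
which are paid by the end in `R`. -/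
noncomputable def restC (G : SimpleGraph V) (c : V → ℤ) (F : V → V → Prop) (R : Finset V)
    (x : V) : ℤ := c x - (nb G R x : ℤ) + ((∑ y ∈ R, ib (F x y) : ℕ) : ℤ)

theorem nb_sum (G : SimpleGraph V) (X : Finset V) (v : V) : nb G X v = ∑ y ∈ X, ib (G.Adj v y) := by
  classical
  rw [nb_eq, card_ib]

theorem nb_zero {G : SimpleGraph V} {X : Finset V} {v : V} :
    nb G X v = 0 ↔ ∀ y ∈ X, ¬ G.Adj v y := by
  classical
  rw [nb_eq, Finset.card_eq_zero, Finset.filter_eq_empty_iff]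

/-- Solve `Y` first, then the rest. -/
theorem SSol.compose [DecidableEq V] {G : SimpleGraph V} {A U Y S S' : Finset V} {c : V → ℤ}
    {F : V → V → Prop} (hF : ∀ x y, F x y → G.Adj x y) (hY : Y ⊆ U)
    (h0 : SSol G A (fun y => c y - ((∑ z ∈ U \ Y, ib (F z y) : ℕ) : ℤ)) Y S)
    (h1 : SSol G (restA G A S) (restC G c F (Y \ S)) (U \ Y) S') :
    SSol G A c U (S ∪ S') := by
  obtain ⟨a1, a2, a3, a4⟩ := h0
  obtain ⟨b1, b2, b3, b4⟩ := h1
  have hno : ∀ v ∈ S', ∀ y ∈ S, ¬ G.Adj v y := fun v hv => nb_zero.1 (mem_restA.1 (b2 hv)).2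
  refine ⟨?_, ?_, ?_, ?_⟩
  · exact Finset.union_subset (a1.trans hY) (b1.trans Finset.sdiff_subset)
  · exact Finset.union_subset a2 (fun v hv => (mem_restA.1 (b2 hv)).1)
  · intro v hv y hy z hz e1 e2
    rcases Finset.mem_union.1 hv with hv | hv
    · rcases Finset.mem_union.1 hy with hy | hy
      · rcases Finset.mem_union.1 hz with hz | hz
        · exact a3 v hv y hy z hz e1 e2
        · exact absurd e2.symm (hno z hz v hv)
      · exact absurd e1.symm (hno y hy v hv)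
    · rcases Finset.mem_union.1 hy with hy | hy
      · exact absurd e1 (hno v hv y hy)
      · rcases Finset.mem_union.1 hz with hz | hz
        · exact absurd e2 (hno v hv z hz)
        · exact b3 v hv y hy z hz e1 e2
  · intro X hX hd
    set X1 := X ∩ Y with hX1
    set X2 := X \ Y with hX2
    have hX12 : X2 ∪ X1 = X := by
      rw [hX1, hX2]
      exact Finset.sdiff_union_inter X Y
    have hdis : Disjoint X2 X1 := by
      rw [hX1, hX2]
      exact Finset.disjoint_sdiff_inter X Y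
    have hX1S : X1 ⊆ Y \ S := by
      intro x hx
      obtain ⟨h2, h3⟩ := Finset.mem_inter.1 hx
      refine Finset.mem_sdiff.2 ⟨h3, fun h4 => ?_⟩
      exact Finset.disjoint_left.1 hd h2 (Finset.mem_union_left _ h4)
    have hX2U : X2 ⊆ U \ Y := by
      intro x hx
      obtain ⟨h2, h3⟩ := Finset.mem_sdiff.1 hx
      exact Finset.mem_sdiff.2 ⟨hX h2, h3⟩
    have e1 := a4 X1 Finset.inter_subset_right (by
      rw [Finset.disjoint_left]
      intro x hx
      exact (Finset.mem_sdiff.1 (hX1S hx)).2)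
    have e2 := b4 X2 hX2U (by
      rw [Finset.disjoint_left]
      intro x hx h3
      exact Finset.disjoint_left.1 hd (Finset.mem_sdiff.1 hx).1 (Finset.mem_union_right _ h3))
    have e3 := ein_union G hdis
    rw [hX12] at e3
    have e4 : ∑ x ∈ X, c x = ∑ x ∈ X2, c x + ∑ x ∈ X1, c x := by
      rw [← hX12, Finset.sum_union hdis]
    -- the cross edges
    have e5 : (dd G X2 X1 : ℤ) ≤ (∑ z ∈ X2, ((nb G (Y \ S) z : ℤ)
        - ((∑ y ∈ Y \ S, ib (F z y) : ℕ) : ℤ)))
        + ∑ y ∈ X1, ((∑ z ∈ U \ Y, ib (F z y) : ℕ) : ℤ) := by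
      have f1 : ∀ z ∈ X2, ((∑ y ∈ X1, ib (G.Adj z y) : ℕ) : ℤ) ≤ ((nb G (Y \ S) z : ℤ)
          - ((∑ y ∈ Y \ S, ib (F z y) : ℕ) : ℤ)) + ((∑ y ∈ X1, ib (F z y) : ℕ) : ℤ) := by
        intro z _
        rw [nb_sum]
        have g1 : ∑ y ∈ Y \ S, ib (G.Adj z y)
            = ∑ y ∈ X1, ib (G.Adj z y) + ∑ y ∈ (Y \ S) \ X1, ib (G.Adj z y) := by
          rw [add_comm]
          exact (Finset.sum_sdiff hX1S).symm
        have g2 : ∑ y ∈ Y \ S, ib (F z y)
            = ∑ y ∈ X1, ib (F z y) + ∑ y ∈ (Y \ S) \ X1, ib (F z y) := by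
          rw [add_comm]
          exact (Finset.sum_sdiff hX1S).symm
        have g3 : ∑ y ∈ (Y \ S) \ X1, ib (F z y) ≤ ∑ y ∈ (Y \ S) \ X1, ib (G.Adj z y) := by
          refine Finset.sum_le_sum fun y _ => ?_
          by_cases h : F z y
          · rw [ib_pos h, ib_pos (hF z y h)]
          · rw [ib_neg h]
            exact Nat.zero_le _
        have g3' : ((∑ y ∈ (Y \ S) \ X1, ib (F z y) : ℕ) : ℤ)
            ≤ ((∑ y ∈ (Y \ S) \ X1, ib (G.Adj z y) : ℕ) : ℤ) := by exact_mod_cast g3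
        rw [g1, g2]
        push_cast at g3' ⊢
        linarith
      have f2 := Finset.sum_le_sum f1
      rw [Finset.sum_add_distrib] at f2
      have f3 : ∑ z ∈ X2, ((∑ y ∈ X1, ib (F z y) : ℕ) : ℤ)
          ≤ ∑ y ∈ X1, ((∑ z ∈ U \ Y, ib (F z y) : ℕ) : ℤ) := by
        have g1 : ∑ z ∈ X2, ∑ y ∈ X1, ib (F z y) ≤ ∑ y ∈ X1, ∑ z ∈ U \ Y, ib (F z y) := by
          rw [Finset.sum_comm]
          refine Finset.sum_le_sum fun y _ => ?_
          exact Finset.sum_le_sum_of_subset hX2U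
        exact_mod_cast g1
      have f4 : (dd G X2 X1 : ℤ) = ∑ z ∈ X2, ((∑ y ∈ X1, ib (G.Adj z y) : ℕ) : ℤ) := by
        unfold dd
        push_cast
        rfl
      rw [f4]
      linarith
    have e6 : ∑ x ∈ X2, restC G c F (Y \ S) x = ∑ x ∈ X2, c x
        - ∑ z ∈ X2, ((nb G (Y \ S) z : ℤ) - ((∑ y ∈ Y \ S, ib (F z y) : ℕ) : ℤ)) := by
      rw [← Finset.sum_sub_distrib]
      refine Finset.sum_congr rfl fun x _ => ?_
      unfold restC
      ring
    have e7 : ∑ x ∈ X1, (c x - ((∑ z ∈ U \ Y, ib (F z x) : ℕ) : ℤ))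
        = ∑ x ∈ X1, c x - ∑ y ∈ X1, ((∑ z ∈ U \ Y, ib (F z y) : ℕ) : ℤ) := by
      rw [← Finset.sum_sub_distrib]
    rw [e3, e4]
    push_cast
    rw [e6] at e2
    rw [e7] at e1
    linarith

/-- The gain at a vertex outside `Y`. -/
noncomputable def gain (G : SimpleGraph V) (A : Finset V) (F : V → V → Prop) (S R : Finset V)
    (z : V) : ℤ :=
  (nb G S z : ℤ) + (ib (z ∈ restA G A S) : ℤ) - (ib (z ∈ A) : ℤ) + ((∑ y ∈ R, ib (F z y) : ℕ) : ℤ)

theorem gain_nonneg (G : SimpleGraph V) (A : Finset V) (F : V → V → Prop) (S R : Finset V)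
    (z : V) : ((∑ y ∈ R, ib (F z y) : ℕ) : ℤ) ≤ gain G A F S R z := by
  unfold gain
  by_cases hA : z ∈ A
  · by_cases h0 : nb G S z = 0
    · rw [ib_pos hA, ib_pos (mem_restA.2 ⟨hA, h0⟩), h0]
      norm_num
    · rw [ib_pos hA]
      have h1 : 1 ≤ nb G S z := Nat.one_le_iff_ne_zero.2 h0
      have h1' : (1 : ℤ) ≤ (nb G S z : ℤ) := by exact_mod_cast h1
      have h2 : (0 : ℤ) ≤ (ib (z ∈ restA G A S) : ℤ) := Int.natCast_nonneg _
      push_cast
      linarith
  · rw [ib_neg hA]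
    have h1 : (0 : ℤ) ≤ (nb G S z : ℤ) := Int.natCast_nonneg _
    have h2 : (0 : ℤ) ≤ (ib (z ∈ restA G A S) : ℤ) := Int.natCast_nonneg _
    push_cast
    linarith

theorem gain_nonneg' (G : SimpleGraph V) (A : Finset V) (F : V → V → Prop) (S R : Finset V)
    (z : V) : 0 ≤ gain G A F S R z :=
  (Int.natCast_nonneg _).trans (gain_nonneg G A F S R z)

/-- Two neighbours in `S`, or one for a vertex which is not allowed: a gain. -/
theorem gain_two (G : SimpleGraph V) (A : Finset V) (F : V → V → Prop) (S R : Finset V)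
    {z : V} (h : 2 ≤ nb G S z) : 1 ≤ gain G A F S R z := by
  unfold gain
  have h1 : (2 : ℤ) ≤ (nb G S z : ℤ) := by exact_mod_cast h
  have h2 : (0 : ℤ) ≤ (ib (z ∈ restA G A S) : ℤ) := Int.natCast_nonneg _
  have h3 : (ib (z ∈ A) : ℤ) ≤ 1 := by exact_mod_cast ib_le _
  have h4 : (0 : ℤ) ≤ ((∑ y ∈ R, ib (F z y) : ℕ) : ℤ) := Int.natCast_nonneg _
  linarith

/-- The value of `hc` outside after solving `Y`. -/
theorem hc_rest [DecidableEq V] (G : SimpleGraph V) (A : Finset V) (c : V → ℤ) (F : V → V → Prop)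
    {S Y Z : Finset V} (hS : S ⊆ Y) (hd : Disjoint Z Y) :
    hc G (restA G A S) (restC G c F (Y \ S)) Z
      = hc G A c (Y ∪ Z) - hc G A c Y + ∑ z ∈ Z, gain G A F S (Y \ S) z := by
  rw [Finset.union_comm, hc_union G A c hd, dd_eq_sum]
  have h1 : ∀ z ∈ Z, (nb G Y z : ℤ) = (nb G S z : ℤ) + (nb G (Y \ S) z : ℤ) := by
    intro z _
    rw [nb_sum, nb_sum, nb_sum, ← Finset.sum_sdiff hS]
    push_cast
    ring
  unfold hc
  push_cast
  rw [Finset.sum_congr rfl h1]
  have h2 : ∑ z ∈ Z, (restC G c F (Y \ S) z + (ib (z ∈ restA G A S) : ℤ))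
      = ∑ z ∈ Z, (c z + (ib (z ∈ A) : ℤ)) - ∑ z ∈ Z, ((nb G S z : ℤ) + (nb G (Y \ S) z : ℤ))
        + ∑ z ∈ Z, gain G A F S (Y \ S) z := by
    rw [← Finset.sum_sub_distrib, ← Finset.sum_add_distrib]
    refine Finset.sum_congr rfl fun z _ => ?_
    unfold restC gain
    ring
  rw [h2]
  ring

end Pool.Agent.W986.C2
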