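import Pool.Agent.W986.SplitBasic

/-!
# Critical instances of the splitting statement

A minimal counterexample: all vertices are allowed, all capacities are `≥ 0`, `hc = -1` on the whole
set, `hc ≥ 0` on all nonempty proper sets and `hc ≥ 1` on all nonempty sets which miss at least two
vertices.
-/

set_option autoImplicit false

namespace Pool.Agent.W986.C2

open Pool.Agent.W986

variable {V : Type}

section del

/-- The graph without the edge `zy`. -/
def delE (G : SimpleGraph V) (z y : V) : SimpleGraph V := G.deleteEdges {s(z, y)}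

theorem delE_adj {G : SimpleGraph V} {z y a b : V} :
    (delE G z y).Adj a b ↔ G.Adj a b ∧ ¬ ((a = z ∧ b = y) ∨ (a = y ∧ b = z)) := by
  unfold delE
  rw [SimpleGraph.deleteEdges_adj, Set.mem_singleton_iff, Sym2.eq_iff]

theorem ein_delE [DecidableEq V] {G : SimpleGraph V} {z y : V} (h : G.Adj z y) (X : Finset V) :
    ein G X = ein (delE G z y) X + ib (z ∈ X ∧ y ∈ X) := by
  have h1 := dd_ein G X
  have h2 := dd_ein (delE G z y) X
  have hsum : ∀ a b : V, ∑ x ∈ X, ∑ t ∈ X, ib (x = a ∧ t = b) = ib (a ∈ X ∧ b ∈ X) := by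
    intro a b
    by_cases hab : a ∈ X ∧ b ∈ X
    · rw [ib_pos hab, Finset.sum_eq_single a, Finset.sum_eq_single b]
      · exact ib_pos ⟨rfl, rfl⟩
      · intro t _ ht
        exact ib_neg fun h3 => ht h3.2
      · intro h3
        exact absurd hab.2 h3
      · intro x _ hx
        exact Finset.sum_eq_zero fun t _ => ib_neg fun h3 => hx h3.1
      · intro h3
        exact absurd hab.1 h3
    · rw [ib_neg hab]
      refine Finset.sum_eq_zero fun x hx => Finset.sum_eq_zero fun t ht => ib_neg ?_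
      rintro ⟨rfl, rfl⟩
      exact hab ⟨hx, ht⟩
  have h3 : dd G X X = dd (delE G z y) X X + 2 * ib (z ∈ X ∧ y ∈ X) := by
    have h4 : dd G X X = dd (delE G z y) X X + (∑ x ∈ X, ∑ t ∈ X, ib (x = z ∧ t = y)
        + ∑ x ∈ X, ∑ t ∈ X, ib (x = y ∧ t = z)) := by
      unfold dd
      rw [← Finset.sum_add_distrib, ← Finset.sum_add_distrib]
      refine Finset.sum_congr rfl fun x _ => ?_
      rw [← Finset.sum_add_distrib, ← Finset.sum_add_distrib]
      refine Finset.sum_congr rfl fun t _ => ?_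
      by_cases hG : G.Adj x t
      · by_cases e1 : x = z ∧ t = y
        · have e2 : ¬ (x = y ∧ t = z) := by
            rintro ⟨e3, _⟩
            exact h.ne (e1.1.symm.trans e3)
          rw [ib_pos hG, ib_pos e1, ib_neg e2,
            ib_neg (fun h5 : (delE G z y).Adj x t => (delE_adj.1 h5).2 (Or.inl e1))]
          norm_num
        · by_cases e2 : x = y ∧ t = z
          · rw [ib_pos hG, ib_neg e1, ib_pos e2,
              ib_neg (fun h5 : (delE G z y).Adj x t => (delE_adj.1 h5).2 (Or.inr e2))]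
            norm_num
          · rw [ib_pos hG, ib_neg e1, ib_neg e2,
              ib_pos (delE_adj.2 ⟨hG, fun h5 => h5.elim e1 e2⟩ : (delE G z y).Adj x t)]
            norm_num
      · have e1 : ¬ (x = z ∧ t = y) := by
          rintro ⟨rfl, rfl⟩
          exact hG h
        have e2 : ¬ (x = y ∧ t = z) := by
          rintro ⟨rfl, rfl⟩
          exact hG h.symm
        rw [ib_neg hG, ib_neg e1, ib_neg e2,
          ib_neg (fun h5 : (delE G z y).Adj x t => hG (delE_adj.1 h5).1)]
        norm_num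
    rw [h4, hsum, hsum]
    have h5 : ib (y ∈ X ∧ z ∈ X) = ib (z ∈ X ∧ y ∈ X) := by
      by_cases h6 : z ∈ X ∧ y ∈ X
      · rw [ib_pos h6, ib_pos ⟨h6.2, h6.1⟩]
      · rw [ib_neg h6, ib_neg fun h7 => h6 ⟨h7.2, h7.1⟩]
    rw [h5]
    ring
  omega

end del

/-- A minimal counterexample. -/
structure SCrit (G : SimpleGraph V) (A : Finset V) (c : V → ℤ) (U : Finset V) : Prop where
  hyp : SHyp G A c U
  nsol : ¬ Solv G A c U
  sub : ∀ (G' : SimpleGraph V) (A' : Finset V) (c' : V → ℤ) (U' : Finset V),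
    U'.card < U.card → SHyp G' A' c' U' → Solv G' A' c' U'
  sub2 : ∀ (G' : SimpleGraph V) (A' : Finset V) (c' : V → ℤ) (U' : Finset V),
    U'.card = U.card → ein G' U' < ein G U → SHyp G' A' c' U' → Solv G' A' c' U'
  sub3 : ∀ (G' : SimpleGraph V) (A' : Finset V) (c' : V → ℤ) (U' : Finset V),
    U'.card = U.card → ein G' U' = ein G U → mk A' U' < mk A U → SHyp G' A' c' U' →
    Solv G' A' c' U'

theorem exists_scrit {G : SimpleGraph V} {A U : Finset V} {c : V → ℤ} (h1 : SHyp G A c U)
    (h2 : ¬ Solv G A c U) :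
    ∃ (G' : SimpleGraph V) (A' : Finset V) (c' : V → ℤ) (U' : Finset V), SCrit G' A' c' U' := by
  classical
  have hex : ∃ n, ∃ (G' : SimpleGraph V) (A' : Finset V) (c' : V → ℤ) (U' : Finset V),
      SHyp G' A' c' U' ∧ ¬ Solv G' A' c' U' ∧ U'.card = n := ⟨U.card, G, A, c, U, h1, h2, rfl⟩
  have hex2 : ∃ m, ∃ (G' : SimpleGraph V) (A' : Finset V) (c' : V → ℤ) (U' : Finset V),
      SHyp G' A' c' U' ∧ ¬ Solv G' A' c' U' ∧ U'.card = Nat.find hex ∧ ein G' U' = m := by
    obtain ⟨G', A', c', U', h3, h4, h5⟩ := Nat.find_spec hex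
    exact ⟨_, G', A', c', U', h3, h4, h5, rfl⟩
  have hex3 : ∃ l, ∃ (G' : SimpleGraph V) (A' : Finset V) (c' : V → ℤ) (U' : Finset V),
      SHyp G' A' c' U' ∧ ¬ Solv G' A' c' U' ∧ U'.card = Nat.find hex ∧
      ein G' U' = Nat.find hex2 ∧ mk A' U' = l := by
    obtain ⟨G', A', c', U', h3, h4, h5, h6⟩ := Nat.find_spec hex2
    exact ⟨_, G', A', c', U', h3, h4, h5, h6, rfl⟩
  obtain ⟨G', A', c', U', h3, h4, h5, h6, h7⟩ := Nat.find_spec hex3
  refine ⟨G', A', c', U', h3, h4, ?_, ?_, ?_⟩
  · intro G'' A'' c'' U'' h8 h9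
    by_contra h10
    have h11 := Nat.find_min' hex ⟨G'', A'', c'', U'', h9, h10, rfl⟩
    rw [h5] at h8
    omega
  · intro G'' A'' c'' U'' h8 h9 h10
    by_contra h11
    have h12 := Nat.find_min' hex2 ⟨G'', A'', c'', U'', h10, h11, h8.trans h5, rfl⟩
    rw [h6] at h9
    omega
  · intro G'' A'' c'' U'' h8 h9 h10 h11
    by_contra h12
    have h13 := Nat.find_min' hex3
      ⟨G'', A'', c'', U'', h11, h12, h8.trans h5, h9.trans h6, rfl⟩
    rw [h7] at h10
    omega

section crit

variable {G : SimpleGraph V} {A U : Finset V} {c : V → ℤ}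

theorem restA_empty (G : SimpleGraph V) (A : Finset V) : restA G A ∅ = A := by
  ext x
  rw [mem_restA]
  refine ⟨fun h => h.1, fun h => ⟨h, ?_⟩⟩
  rw [nb_zero]
  intro y hy
  exact absurd hy (Finset.notMem_empty _)

/-- A solution of a set `Y` does not leave a legal rest. -/
theorem SCrit.step [DecidableEq V] (h : SCrit G A c U) {Y S : Finset V} {F : V → V → Prop}
    (hF : ∀ x y, F x y → G.Adj x y) (hY : Y ⊆ U) (hne : Y.Nonempty)
    (h0 : SSol G A (fun y => c y - ((∑ z ∈ U \ Y, ib (F z y) : ℕ) : ℤ)) Y S) :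
    ∃ Z : Finset V, Z ⊆ U \ Y ∧ Z.Nonempty ∧
      (hc G A c (Y ∪ Z) - hc G A c Y + ∑ z ∈ Z, gain G A F S (Y \ S) z ≤ -2 ∨
      ((∀ z ∈ Z, z ∈ A → nb G S z ≠ 0) ∧
        hc G A c (Y ∪ Z) - hc G A c Y + ∑ z ∈ Z, gain G A F S (Y \ S) z ≤ -1)) := by
  by_contra hcon
  push Not at hcon
  have hcard : (U \ Y).card < U.card := by
    rw [Finset.card_sdiff_of_subset hY]
    have h1 := Finset.card_pos.2 hne
    have h2 := Finset.card_le_card hY
    omega
  have hhyp : SHyp G (restA G A S) (restC G c F (Y \ S)) (U \ Y) := by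
    intro Z hZ
    by_cases hZe : Z.Nonempty
    · obtain ⟨h1, h2⟩ := hcon Z hZ hZe
      have hd : Disjoint Z Y := by
        rw [Finset.disjoint_left]
        intro a ha
        exact (Finset.mem_sdiff.1 (hZ ha)).2
      have h3 := hc_rest G A c F h0.1 hd
      rw [h3]
      refine ⟨by linarith, fun h4 => ?_⟩
      have h5 := h2 (fun z hz hzA h6 =>
        Finset.disjoint_left.1 h4 hz (mem_restA.2 ⟨hzA, h6⟩))
      linarith
    · rw [Finset.not_nonempty_iff_eq_empty] at hZe
      rw [hZe, hc_empty]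
      exact ⟨by norm_num, fun _ => le_rfl⟩
  obtain ⟨S', hS'⟩ := h.sub G (restA G A S) (restC G c F (Y \ S)) (U \ Y) hcard hhyp
  exact h.nsol ⟨_, h0.compose hF hY hS'⟩

theorem sum_false (T : Finset V) : ∑ _z ∈ T, ib False = 0 :=
  Finset.sum_eq_zero fun _ _ => ib_false

/-- The same without charged edges. -/
theorem SCrit.step0 [DecidableEq V] (h : SCrit G A c U) {Y S : Finset V} (hY : Y ⊆ U)
    (hne : Y.Nonempty) (h0 : SSol G A c Y S) :
    ∃ Z : Finset V, Z ⊆ U \ Y ∧ Z.Nonempty ∧
      (hc G A c (Y ∪ Z) - hc G A c Y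
        + ∑ z ∈ Z, gain G A (fun _ _ => False) S (Y \ S) z ≤ -2 ∨
      ((∀ z ∈ Z, z ∈ A → nb G S z ≠ 0) ∧ hc G A c (Y ∪ Z) - hc G A c Y
        + ∑ z ∈ Z, gain G A (fun _ _ => False) S (Y \ S) z ≤ -1)) := by
  refine h.step (F := fun _ _ => False) (fun _ _ h1 => h1.elim) hY hne ?_
  have h1 : (fun y => c y - ((∑ z ∈ U \ Y, ib ((fun _ _ => False : V → V → Prop) z y) : ℕ) : ℤ))
      = c := by
    funext y
    have h2 : ∑ z ∈ U \ Y, ib ((fun _ _ => False : V → V → Prop) z y) = 0 := sum_false _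
    rw [h2]
    push_cast
    ring
  rw [h1]
  exact h0

theorem SCrit.nonempty (h : SCrit G A c U) : U.Nonempty := by
  by_contra h0
  rw [Finset.not_nonempty_iff_eq_empty] at h0
  apply h.nsol
  refine ⟨∅, Finset.empty_subset _, Finset.empty_subset _, ?_, ?_⟩
  · intro v hv
    exact absurd hv (Finset.notMem_empty _)
  · intro X hX _
    rw [h0, Finset.subset_empty] at hX
    rw [hX, ein_empty, Finset.sum_empty]
    norm_num

theorem SCrit.neg_one_le (h : SCrit G A c U) {X : Finset V} (hX : X ⊆ U) : -1 ≤ hc G A c X :=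
  (h.hyp X hX).1

/-- The gap lemma. -/
theorem SCrit.gap (h : SCrit G A c U) {Y : Finset V} (hY : Y ⊆ U) (hYU : Y ≠ U)
    (hne : Y.Nonempty) : hc G A c U + 1 ≤ hc G A c Y := by
  classical
  by_contra hcon
  have hcon' : hc G A c Y ≤ hc G A c U := by linarith [Int.lt_iff_add_one_le.1 (not_le.1 hcon)]
  set T : Finset (Finset V) := U.powerset.filter
    (fun Z => Z ≠ U ∧ Z.Nonempty ∧ hc G A c Z ≤ hc G A c U) with hT
  have hTne : T.Nonempty :=
    ⟨Y, Finset.mem_filter.2 ⟨Finset.mem_powerset.2 hY, hYU, hne, hcon'⟩⟩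
  obtain ⟨Y, hYT, hmin⟩ := Finset.exists_min_image T (fun Z => hc G A c Z) hTne
  obtain ⟨hY, hYU, hne, hYp⟩ := Finset.mem_filter.1 hYT
  rw [Finset.mem_powerset] at hY
  have hmono : ∀ Z : Finset V, Z ⊆ U → Y ⊆ Z → hc G A c Y ≤ hc G A c Z := by
    intro Z hZ hYZ
    by_cases hZU : Z = U
    · rw [hZU]
      exact hYp
    · by_cases hZp : hc G A c Z ≤ hc G A c U
      · exact hmin Z (Finset.mem_filter.2 ⟨Finset.mem_powerset.2 hZ, hZU, hne.mono hYZ, hZp⟩)
      · linarith
  have hYlt : Y.card < U.card := Finset.card_lt_card (Finset.ssubset_iff_subset_ne.2 ⟨hY, hYU⟩)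
  obtain ⟨S, hS⟩ := h.sub G A c Y hYlt (h.hyp.mono hY)
  obtain ⟨Z, hZ, _, hlt⟩ := h.step0 hY hne hS
  have h1 := hmono (Y ∪ Z) (Finset.union_subset hY (hZ.trans Finset.sdiff_subset))
    Finset.subset_union_left
  have h2 : 0 ≤ ∑ z ∈ Z, gain G A (fun _ _ => False) S (Y \ S) z :=
    Finset.sum_nonneg fun z _ => gain_nonneg' _ _ _ _ _ _
  rcases hlt with hlt | ⟨_, hlt⟩ <;> linarith

theorem SCrit.nonneg (h : SCrit G A c U) {Y : Finset V} (hY : Y ⊆ U) (hYU : Y ≠ U) :
    0 ≤ hc G A c Y := by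
  by_cases hne : Y.Nonempty
  · have h1 := h.gap hY hYU hne
    have h2 := h.neg_one_le (Finset.Subset.refl U)
    linarith
  · rw [Finset.not_nonempty_iff_eq_empty] at hne
    rw [hne, hc_empty]

theorem hc_erase [DecidableEq V] (G : SimpleGraph V) {A : Finset V} (c : V → ℤ) {v : V}
    (hv : v ∈ A) (X : Finset V) : hc G (A.erase v) c X = hc G A c X - (ib (v ∈ X) : ℤ) := by
  unfold hc
  have h1 : ∑ x ∈ X, (c x + (ib (x ∈ A) : ℤ))
      = ∑ x ∈ X, (c x + (ib (x ∈ A.erase v) : ℤ)) + (ib (v ∈ X) : ℤ) := by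
    have h2 : ∀ x ∈ X, (c x + (ib (x ∈ A) : ℤ))
        = (c x + (ib (x ∈ A.erase v) : ℤ)) + (ib (x = v) : ℤ) := by
      intro x _
      by_cases hxv : x = v
      · subst hxv
        rw [ib_pos hv, ib_neg (Finset.notMem_erase x A), ib_pos rfl]
        push_cast
        ring
      · by_cases hxA : x ∈ A
        · rw [ib_pos hxA, ib_pos (Finset.mem_erase.2 ⟨hxv, hxA⟩), ib_neg hxv]
          push_cast
          ring
        · rw [ib_neg hxA, ib_neg (fun h3 => hxA (Finset.mem_of_mem_erase h3)), ib_neg hxv]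
          push_cast
          ring
    rw [Finset.sum_congr rfl h2, Finset.sum_add_distrib]
    congr 1
    by_cases hvX : v ∈ X
    · rw [ib_pos hvX, Finset.sum_eq_single v]
      · rw [ib_pos rfl]
      · intro b _ hb
        rw [ib_neg hb]
        rfl
      · intro h3
        exact absurd hvX h3
    · rw [ib_neg hvX]
      refine Finset.sum_eq_zero fun x hx => ?_
      rw [ib_neg]
      · rfl
      · rintro rfl
        exact hvX hx
  rw [h1]
  ring

/-- The whole set has `hc = -1`. -/
theorem SCrit.total (h : SCrit G A c U) : hc G A c U = -1 := by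
  classical
  by_contra hcon
  have h0 : 0 ≤ hc G A c U := by
    have h1 := h.neg_one_le (Finset.Subset.refl U)
    omega
  have hpos : ∀ Y : Finset V, Y ⊆ U → Y ≠ U → Y.Nonempty → 1 ≤ hc G A c Y := by
    intro Y hY hYU hne
    have h1 := h.gap hY hYU hne
    linarith
  by_cases hA : ∃ v ∈ U, v ∈ A
  · obtain ⟨v, hvU, hvA⟩ := hA
    by_cases hle : SHyp G (A.erase v) c U
    · obtain ⟨S, a1, a2, a3, a4⟩ := h.sub3 G (A.erase v) c U rfl rfl (by
        show ∑ x ∈ U, ib (x ∈ A.erase v) < ∑ x ∈ U, ib (x ∈ A)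
        refine Finset.sum_lt_sum (fun x _ => ?_) ⟨v, hvU, ?_⟩
        · by_cases hx : x ∈ A.erase v
          · rw [ib_pos hx, ib_pos (Finset.mem_of_mem_erase hx)]
          · rw [ib_neg hx]
            exact Nat.zero_le _
        · rw [ib_pos hvA, ib_neg (Finset.notMem_erase v A)]
          exact Nat.zero_lt_one) hle
      exact h.nsol ⟨S, a1, a2.trans (Finset.erase_subset _ _), a3, a4⟩
    · unfold SHyp at hle
      push Not at hle
      obtain ⟨X, hX, hle⟩ := hle
      have hvX : v ∈ X := by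
        by_contra hvX
        have h2 := hc_erase G c hvA X
        rw [ib_neg hvX] at h2
        push_cast at h2
        have h3 := h.hyp X hX
        have h4 := hle (by linarith [h3.1])
        have h5 : Disjoint X A := by
          rw [Finset.disjoint_left]
          intro x hx hxA
          refine Finset.disjoint_left.1 h4.1 hx (Finset.mem_erase.2 ⟨?_, hxA⟩)
          rintro rfl
          exact hvX hx
        have h6 := h3.2 h5
        linarith [h4.2]
      have h2 := hc_erase G c hvA X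
      rw [ib_pos hvX] at h2
      push_cast at h2
      have hX0 : 0 ≤ hc G A c X := by
        by_cases hXU : X = U
        · rw [hXU]
          exact h0
        · linarith [hpos X hX hXU ⟨v, hvX⟩]
      have h4 := hle (by linarith)
      have hXU : X = U := by
        by_contra hXU
        linarith [hpos X hX hXU ⟨v, hvX⟩, h4.2]
      subst hXU
      -- `v` is the only allowed vertex
      apply h.nsol
      refine ⟨{v}, Finset.singleton_subset_iff.2 hvX, Finset.singleton_subset_iff.2 hvA, ?_, ?_⟩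
      · intro a _ y hy z hz _ _
        rw [Finset.mem_singleton.1 hy, Finset.mem_singleton.1 hz]
      · intro Z hZ hd
        have hvZ : v ∉ Z := fun h5 => Finset.disjoint_left.1 hd h5 (Finset.mem_singleton_self v)
        have h5 : Disjoint Z A := by
          rw [Finset.disjoint_left]
          intro x hx hxA
          refine Finset.disjoint_left.1 h4.1 (hZ hx) (Finset.mem_erase.2 ⟨?_, hxA⟩)
          rintro rfl
          exact hvZ hx
        have h6 := (h.hyp Z hZ).2 h5
        unfold hc at h6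
        have h7 : ∑ x ∈ Z, (c x + (ib (x ∈ A) : ℤ)) = ∑ x ∈ Z, c x := by
          refine Finset.sum_congr rfl fun x hx => ?_
          rw [ib_neg (Finset.disjoint_left.1 h5 hx)]
          push_cast
          ring
        rw [h7] at h6
        linarith
  · push Not at hA
    apply h.nsol
    refine ⟨∅, Finset.empty_subset _, Finset.empty_subset _, ?_, ?_⟩
    · intro v hv
      exact absurd hv (Finset.notMem_empty _)
    · intro X hX _
      have h5 : Disjoint X A := by
        rw [Finset.disjoint_left]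
        intro x hx
        exact hA x (hX hx)
      have h6 := (h.hyp X hX).2 h5
      unfold hc at h6
      have h7 : ∑ x ∈ X, (c x + (ib (x ∈ A) : ℤ)) = ∑ x ∈ X, c x := by
        refine Finset.sum_congr rfl fun x hx => ?_
        rw [ib_neg (hA x (hX hx))]
        push_cast
        ring
      rw [h7] at h6
      linarith

theorem SCrit.two_le_card (h : SCrit G A c U) : 2 ≤ U.card := by
  classical
  by_contra h1
  have h2 := Finset.card_pos.2 h.nonempty
  obtain ⟨v, hv⟩ := Finset.card_eq_one.1 (show U.card = 1 by omega)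
  subst hv
  have h3 := h.total
  have hvA : v ∈ A := by
    by_contra hvA
    have h4 := (h.hyp {v} (Finset.Subset.refl _)).2 (Finset.disjoint_singleton_left.2 hvA)
    linarith
  apply h.nsol
  refine ⟨{v}, Finset.Subset.refl _, Finset.singleton_subset_iff.2 hvA, ?_, ?_⟩
  · intro a _ y hy z hz _ _
    rw [Finset.mem_singleton.1 hy, Finset.mem_singleton.1 hz]
  · intro X hX hd
    have h4 : X = ∅ := by
      rw [Finset.eq_empty_iff_forall_notMem]
      intro x hx
      exact Finset.disjoint_left.1 hd hx (hX hx)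
    rw [h4, ein_empty, Finset.sum_empty]
    norm_num

theorem SCrit.single_ne (h : SCrit G A c U) (v : V) : ({v} : Finset V) ≠ U := by
  intro h1
  have h2 := h.two_le_card
  rw [← h1, Finset.card_singleton] at h2
  omega

/-- All vertices are allowed. -/
theorem SCrit.allowed (h : SCrit G A c U) : U ⊆ A := by
  classical
  intro z hzU
  by_contra hzA
  have hzS : Disjoint ({z} : Finset V) A := Finset.disjoint_singleton_left.2 hzA
  have hz1 : ({z} : Finset V) ⊆ U := Finset.singleton_subset_iff.2 hzU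
  have hcz := (h.hyp {z} hz1).2 hzS
  rw [hc_singleton, ib_neg hzA] at hcz
  push_cast at hcz
  have hsol : SSol G A c {z} ∅ := by
    refine ⟨Finset.empty_subset _, Finset.empty_subset _, ?_, ?_⟩
    · intro v hv
      exact absurd hv (Finset.notMem_empty _)
    · intro X hX _
      rcases Finset.subset_singleton_iff.1 hX with h1 | h1
      · rw [h1, ein_empty, Finset.sum_empty]
        norm_num
      · rw [h1, ein_singleton, Finset.sum_singleton]
        push_cast
        linarith
  have hd : ∀ Z : Finset V, Z ⊆ U \ {z} → (∀ x ∈ Z, x ∈ A → nb G ∅ x ≠ 0) →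
      Disjoint ({z} ∪ Z) A := by
    intro Z _ h1
    rw [Finset.disjoint_left]
    intro x hx hxA
    rcases Finset.mem_union.1 hx with h2 | h2
    · rw [Finset.mem_singleton.1 h2] at hxA
      exact hzA hxA
    · exact h1 x h2 hxA (nb_zero.2 fun y hy => absurd hy (Finset.notMem_empty _))
  -- the vertex has capacity and a neighbour
  have hkey : ∃ y ∈ U, G.Adj z y ∧ ∀ X : Finset V, X ⊆ U → z ∈ X → Disjoint X A →
      hc G A c X = 0 → y ∈ X := by
    set T : Finset (Finset V) := U.powerset.filter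
      (fun X => z ∈ X ∧ Disjoint X A ∧ hc G A c X = 0) with hT
    by_cases hTe : T.Nonempty
    · obtain ⟨X0, hX0, hmin⟩ := Finset.exists_min_image T Finset.card hTe
      obtain ⟨hX0U, hzX0, hX0A, hX00⟩ := Finset.mem_filter.1 hX0
      rw [Finset.mem_powerset] at hX0U
      have hsub : ∀ X : Finset V, X ⊆ U → z ∈ X → Disjoint X A → hc G A c X = 0 → X0 ⊆ X := by
        intro X hX hzX hXA hX1
        have h1 := hc_submod G A c X0 X
        have hd1 : Disjoint (X0 ∪ X) A := Finset.disjoint_union_left.2 ⟨hX0A, hXA⟩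
        have hd2 : Disjoint (X0 ∩ X) A := Finset.disjoint_of_subset_left
          Finset.inter_subset_left hX0A
        have h2 := (h.hyp (X0 ∪ X) (Finset.union_subset hX0U hX)).2 hd1
        have h3 := (h.hyp (X0 ∩ X) (Finset.inter_subset_left.trans hX0U)).2 hd2
        have h4 : X0 ∩ X ∈ T := Finset.mem_filter.2 ⟨Finset.mem_powerset.2
          (Finset.inter_subset_left.trans hX0U), Finset.mem_inter.2 ⟨hzX0, hzX⟩, hd2,
          by linarith⟩
        have h5 := hmin _ h4
        have h6 : X0 ∩ X = X0 := Finset.eq_of_subset_of_card_le Finset.inter_subset_left h5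
        rw [← h6]
        exact Finset.inter_subset_right
      by_cases hny : ∃ y ∈ X0, G.Adj z y
      · obtain ⟨y, hy, hzy⟩ := hny
        exact ⟨y, hX0U hy, hzy, fun X hX hzX hXA hX1 => hsub X hX hzX hXA hX1 hy⟩
      · exfalso
        push Not at hny
        have h1 : nb G (X0.erase z) z = 0 := nb_zero.2 fun y hy =>
          hny y (Finset.mem_of_mem_erase hy)
        have h2 := hc_insert G A c (Finset.notMem_erase z X0)
        rw [Finset.insert_erase hzX0, h1, ib_neg hzA, hX00] at h2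
        push_cast at h2
        have h3 := (h.hyp (X0.erase z) ((Finset.erase_subset _ _).trans hX0U)).2
          (Finset.disjoint_of_subset_left (Finset.erase_subset _ _) hX0A)
        have hcz0 : c z = 0 := by linarith
        -- `{z}` is tight: delete it
        obtain ⟨Z, hZ, hZne, hlt⟩ := h.step0 hz1 (Finset.singleton_nonempty z) hsol
        have h4 : 0 ≤ ∑ x ∈ Z, gain G A (fun _ _ => False) ∅ ({z} \ ∅) x :=
          Finset.sum_nonneg fun x _ => gain_nonneg' _ _ _ _ _ _
        have h5 : hc G A c {z} = 0 := by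
          rw [hc_singleton, ib_neg hzA, hcz0]
          norm_num
        have h6 := h.hyp ({z} ∪ Z) (Finset.union_subset hz1 (hZ.trans Finset.sdiff_subset))
        rcases hlt with hlt | ⟨h7, hlt⟩
        · linarith [h6.1]
        · have h8 := h6.2 (hd Z hZ h7)
          linarith
    · by_cases hny : ∃ y ∈ U, G.Adj z y
      · obtain ⟨y, hy, hzy⟩ := hny
        refine ⟨y, hy, hzy, fun X hX hzX hXA hX1 => ?_⟩
        exact absurd ⟨X, Finset.mem_filter.2 ⟨Finset.mem_powerset.2 hX, hzX, hXA, hX1⟩⟩ hTe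
      · exfalso
        push Not at hny
        obtain ⟨Z, hZ, hZne, hlt⟩ := h.step0 hz1 (Finset.singleton_nonempty z) hsol
        have h4 : 0 ≤ ∑ x ∈ Z, gain G A (fun _ _ => False) ∅ ({z} \ ∅) x :=
          Finset.sum_nonneg fun x _ => gain_nonneg' _ _ _ _ _ _
        have hZU : Z ⊆ U := hZ.trans Finset.sdiff_subset
        have h5 : hc G A c ({z} ∪ Z) = hc G A c Z + c z := by
          have h6 : z ∉ Z := fun h6 =>
            (Finset.mem_sdiff.1 (hZ h6)).2 (Finset.mem_singleton_self z)
          rw [← Finset.insert_eq, hc_insert G A c h6, ib_neg hzA,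
            nb_zero.2 (fun y hy => hny y (hZU hy))]
          push_cast
          ring
        have h6 : hc G A c {z} = c z := by
          rw [hc_singleton, ib_neg hzA]
          push_cast
          ring
        have h7 := h.hyp Z hZU
        rcases hlt with hlt | ⟨h8, hlt⟩
        · linarith [h7.1]
        · have h9 := h7.2 (Finset.disjoint_of_subset_left Finset.subset_union_right (hd Z hZ h8))
          linarith
  obtain ⟨y, hyU, hzy, hall⟩ := hkey
  -- `z` pays for the edge `zy`
  have hhyp : SHyp (delE G z y) A (fun x => c x - (ib (x = z) : ℤ)) U := by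
    intro X hX
    have h1 := ein_delE hzy X
    have h1' : (ein G X : ℤ) = (ein (delE G z y) X : ℤ) + (ib (z ∈ X ∧ y ∈ X) : ℤ) := by
      exact_mod_cast h1
    have h2 : hc (delE G z y) A (fun x => c x - (ib (x = z) : ℤ)) X
        = hc G A c X - (ib (z ∈ X) : ℤ) + (ib (z ∈ X ∧ y ∈ X) : ℤ) := by
      unfold hc
      have h3 : ∑ x ∈ X, (c x - (ib (x = z) : ℤ) + (ib (x ∈ A) : ℤ))
          = ∑ x ∈ X, (c x + (ib (x ∈ A) : ℤ)) - (ib (z ∈ X) : ℤ) := by
        have h4 : ∑ x ∈ X, (ib (x = z) : ℤ) = (ib (z ∈ X) : ℤ) := by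
          by_cases hzX : z ∈ X
          · rw [ib_pos hzX, Finset.sum_eq_single z]
            · rw [ib_pos rfl]
            · intro b _ hb
              rw [ib_neg hb]
              rfl
            · intro h3
              exact absurd hzX h3
          · rw [ib_neg hzX]
            refine Finset.sum_eq_zero fun x hx => ?_
            rw [ib_neg]
            · rfl
            · rintro rfl
              exact hzX hx
        rw [← h4, ← Finset.sum_sub_distrib]
        refine Finset.sum_congr rfl fun x _ => ?_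
        ring
      rw [h3, h1']
      ring
    have h3 := h.hyp X hX
    by_cases hzX : z ∈ X
    · by_cases hyX : y ∈ X
      · rw [ib_pos hzX, ib_pos ⟨hzX, hyX⟩] at h2
        push_cast at h2
        rw [h2]
        exact ⟨by linarith [h3.1], fun h4 => by linarith [h3.2 h4]⟩
      · rw [ib_pos hzX, ib_neg (fun h4 => hyX h4.2)] at h2
        push_cast at h2
        rw [h2]
        have hXU : X ≠ U := by
          rintro rfl
          exact hyX hyU
        have h4 := h.nonneg hX hXU
        refine ⟨by linarith, fun h5 => ?_⟩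
        have h6 : hc G A c X ≠ 0 := fun h6 => hyX (hall X hX hzX h5 h6)
        have h7 : 1 ≤ hc G A c X := by omega
        linarith
    · rw [ib_neg hzX, ib_neg (fun h4 => hzX h4.1)] at h2
      push_cast at h2
      rw [h2]
      exact ⟨by linarith [h3.1], fun h4 => by linarith [h3.2 h4]⟩
  have hlt : ein (delE G z y) U < ein G U := by
    have h1 := ein_delE hzy U
    rw [ib_pos ⟨hzU, hyU⟩] at h1
    omega
  obtain ⟨S, a1, a2, a3, a4⟩ := h.sub2 _ A _ U rfl hlt hhyp
  have hzS' : z ∉ S := fun h1 => hzA (a2 h1)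
  apply h.nsol
  refine ⟨S, a1, a2, ?_, ?_⟩
  · intro v hv y1 hy1 z1 hz1 e1 e2
    refine a3 v hv y1 hy1 z1 hz1 (delE_adj.2 ⟨e1, ?_⟩) (delE_adj.2 ⟨e2, ?_⟩)
    · rintro (⟨h1, _⟩ | ⟨_, h1⟩)
      · exact hzS' (h1 ▸ hv)
      · exact hzS' (h1 ▸ hy1)
    · rintro (⟨h1, _⟩ | ⟨_, h1⟩)
      · exact hzS' (h1 ▸ hv)
      · exact hzS' (h1 ▸ hz1)
  · intro X hX hdX
    have h1 := a4 X hX hdX
    have h2 := ein_delE hzy X
    have h2' : (ein G X : ℤ) = (ein (delE G z y) X : ℤ) + (ib (z ∈ X ∧ y ∈ X) : ℤ) := by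
      exact_mod_cast h2
    have h4 : ∑ x ∈ X, (ib (x = z) : ℤ) = (ib (z ∈ X) : ℤ) := by
      by_cases hzX : z ∈ X
      · rw [ib_pos hzX, Finset.sum_eq_single z]
        · rw [ib_pos rfl]
        · intro b _ hb
          rw [ib_neg hb]
          rfl
        · intro h3
          exact absurd hzX h3
      · rw [ib_neg hzX]
        refine Finset.sum_eq_zero fun x hx => ?_
        rw [ib_neg]
        · rfl
        · rintro rfl
          exact hzX hx
    rw [Finset.sum_sub_distrib, h4] at h1
    have h5 : (ib (z ∈ X ∧ y ∈ X) : ℤ) ≤ (ib (z ∈ X) : ℤ) := by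
      by_cases hzX : z ∈ X
      · rw [ib_pos hzX]
        exact_mod_cast ib_le _
      · rw [ib_neg hzX, ib_neg (fun h6 => hzX h6.1)]
    linarith

theorem SCrit.hc_sum (h : SCrit G A c U) {X : Finset V} (hX : X ⊆ U) :
    hc G A c X = ∑ x ∈ X, c x + (X.card : ℤ) - (ein G X : ℤ) := by
  unfold hc
  have h1 : ∑ x ∈ X, (c x + (ib (x ∈ A) : ℤ)) = ∑ x ∈ X, c x + (X.card : ℤ) := by
    rw [Finset.sum_add_distrib]
    congr 1
    have h2 : ∀ x ∈ X, (ib (x ∈ A) : ℤ) = 1 := by
      intro x hx
      rw [ib_pos (h.allowed (hX hx))]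
      rfl
    rw [Finset.sum_congr rfl h2, Finset.sum_const]
    simp
  rw [h1]

/-- All capacities are nonnegative. -/
theorem SCrit.pos (h : SCrit G A c U) {v : V} (hv : v ∈ U) : 0 ≤ c v := by
  classical
  by_contra hneg
  have hvA := h.allowed hv
  have hv1 : ({v} : Finset V) ⊆ U := Finset.singleton_subset_iff.2 hv
  have h1 := h.nonneg hv1 (h.single_ne v)
  have h1s := hc_singleton G A c v
  rw [ib_pos hvA] at h1s
  push_cast at h1s
  have hcv : c v = -1 := by omega
  have hsol : SSol G A c {v} {v} := by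
    refine ⟨Finset.Subset.refl _, Finset.singleton_subset_iff.2 hvA, ?_, ?_⟩
    · intro a _ y hy z hz _ _
      rw [Finset.mem_singleton.1 hy, Finset.mem_singleton.1 hz]
    · intro X hX hd
      have h4 : X = ∅ := by
        rw [Finset.eq_empty_iff_forall_notMem]
        intro x hx
        exact Finset.disjoint_left.1 hd hx (hX hx)
      rw [h4, ein_empty, Finset.sum_empty]
      norm_num
  obtain ⟨Z, hZ, hZne, hlt⟩ := h.step0 hv1 (Finset.singleton_nonempty v) hsol
  have h4 : 0 ≤ ∑ x ∈ Z, gain G A (fun _ _ => False) {v} ({v} \ {v}) x :=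
    Finset.sum_nonneg fun x _ => gain_nonneg' _ _ _ _ _ _
  have hZU : Z ⊆ U := hZ.trans Finset.sdiff_subset
  have hvZ : v ∉ Z := fun h6 => (Finset.mem_sdiff.1 (hZ h6)).2 (Finset.mem_singleton_self v)
  have h5 : -1 ≤ hc G A c ({v} ∪ Z) := h.neg_one_le (Finset.union_subset hv1 hZU)
  have hall : ∀ x ∈ Z, G.Adj x v := by
    rcases hlt with hlt | ⟨h7, _⟩
    · exfalso
      linarith
    · intro x hx
      have h8 := h7 x hx (h.allowed (hZU hx))
      by_contra h9
      apply h8
      rw [nb_zero]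
      intro y hy
      rw [Finset.mem_singleton.1 hy]
      exact h9
  have hfull : {v} ∪ Z = U := by
    by_contra hne
    have h8 := h.nonneg (Finset.union_subset hv1 hZU) hne
    rcases hlt with hlt | ⟨_, hlt⟩ <;> linarith
  obtain ⟨x, hx⟩ := hZne
  have hxv : x ≠ v := fun h6 => hvZ (h6 ▸ hx)
  apply h.nsol
  refine ⟨{v, x}, ?_, ?_, ?_, ?_⟩
  · intro a ha
    rcases Finset.mem_insert.1 ha with h6 | h6
    · rw [h6]
      exact hv
    · rw [Finset.mem_singleton.1 h6]
      exact hZU hx
  · intro a ha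
    rcases Finset.mem_insert.1 ha with h6 | h6
    · rw [h6]
      exact hvA
    · rw [Finset.mem_singleton.1 h6]
      exact h.allowed (hZU hx)
  · intro a ha y hy z hz e1 e2
    have hm : ∀ t ∈ ({v, x} : Finset V), t = v ∨ t = x := by
      intro t ht
      rcases Finset.mem_insert.1 ht with h6 | h6
      · exact Or.inl h6
      · exact Or.inr (Finset.mem_singleton.1 h6)
    rcases hm a ha with h6 | h6 <;> rcases hm y hy with h7 | h7 <;>
      rcases hm z hz with h8 | h8 <;> subst h6 <;> subst h7 <;> subst h8 <;>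
      first
        | rfl
        | exact absurd e1 (G.loopless.irrefl _)
        | exact absurd e2 (G.loopless.irrefl _)
  · intro X hX hd
    have hvX : v ∉ X := fun h6 => Finset.disjoint_left.1 hd h6 (Finset.mem_insert_self _ _)
    have hxX : x ∉ X := fun h6 => Finset.disjoint_left.1 hd h6
      (Finset.mem_insert_of_mem (Finset.mem_singleton_self _))
    have hne : insert v X ≠ U := by
      intro h6
      have h7 : x ∈ insert v X := by
        rw [h6]
        exact hZU hx
      rcases Finset.mem_insert.1 h7 with h8 | h8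
      · exact hxv h8
      · exact hxX h8
    have h6 := h.nonneg (Finset.insert_subset hv hX) hne
    rw [hc_insert G A c hvX, hcv, ib_pos hvA, h.hc_sum hX] at h6
    have h7 : nb G X v = X.card := by
      rw [nb_eq, Finset.filter_true_of_mem]
      intro y hy
      have h8 : y ∈ {v} ∪ Z := by
        rw [hfull]
        exact hX hy
      rcases Finset.mem_union.1 h8 with h9 | h9
      · exact absurd (Finset.mem_singleton.1 h9 ▸ hy) hvX
      · exact (hall y h9).symm
    rw [h7] at h6
    push_cast at h6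
    linarith

theorem SCrit.union_eq [DecidableEq V] (h : SCrit G A c U) {Y Z : Finset V} (hY : Y ⊆ U)
    (hZ : Z ⊆ U \ Y) (h1 : hc G A c (Y ∪ Z) < 0) : Z = U \ Y := by
  have h2 : Y ∪ Z = U := by
    by_contra hne
    have h3 := h.nonneg (Finset.union_subset hY (hZ.trans Finset.sdiff_subset)) hne
    linarith
  refine Finset.Subset.antisymm hZ ?_
  intro x hx
  obtain ⟨h3, h4⟩ := Finset.mem_sdiff.1 hx
  rw [← h2] at h3
  rcases Finset.mem_union.1 h3 with h5 | h5
  · exact absurd h5 h4
  · exact h5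

/-- A solution of a proper tight set: every vertex outside has exactly one neighbour in it. -/
theorem SCrit.one_nb [DecidableEq V] (h : SCrit G A c U) {Y S : Finset V} (hY : Y ⊆ U)
    (hne : Y.Nonempty) (h0 : hc G A c Y = 0) (hS : SSol G A c Y S) {w : V} (hw : w ∈ U \ Y) :
    nb G S w = 1 := by
  obtain ⟨Z, hZ, hZne, hlt⟩ := h.step0 hY hne hS
  have h4 : 0 ≤ ∑ x ∈ Z, gain G A (fun _ _ => False) S (Y \ S) x :=
    Finset.sum_nonneg fun x _ => gain_nonneg' _ _ _ _ _ _
  have h5 : -1 ≤ hc G A c (Y ∪ Z) :=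
    h.neg_one_le (Finset.union_subset hY (hZ.trans Finset.sdiff_subset))
  have h6 : Z = U \ Y := by
    refine h.union_eq hY hZ ?_
    rcases hlt with hlt | ⟨_, hlt⟩ <;> linarith
  rcases hlt with hlt | ⟨h7, hlt⟩
  · exfalso
    linarith
  · have hsum : ∑ x ∈ Z, gain G A (fun _ _ => False) S (Y \ S) x = 0 := by linarith
    have hz := (Finset.sum_eq_zero_iff_of_nonneg
      (fun x _ => gain_nonneg' G A (fun _ _ => False) S (Y \ S) x)).1 hsum
    rw [← h6] at hw
    have h8 := hz w hw
    have h9 : nb G S w ≠ 0 := h7 w hw (h.allowed ((hZ.trans Finset.sdiff_subset) hw))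
    by_contra h10
    have h11 : 2 ≤ nb G S w := by omega
    have h12 := gain_two G A (fun _ _ => False) S (Y \ S) h11
    linarith

/-- ... and this neighbour has a neighbour in the solution. -/
theorem SCrit.mated [DecidableEq V] (h : SCrit G A c U) {Y S : Finset V} (hY : Y ⊆ U)
    (hne : Y.Nonempty) (h0 : hc G A c Y = 0) (hS : SSol G A c Y S) {w s : V} (hw : w ∈ U \ Y)
    (hs : s ∈ S) (hws : G.Adj w s) : ∃ t ∈ S, G.Adj s t := by
  classical
  by_contra hcon
  push Not at hcon
  have hone := h.one_nb hY hne h0 hS hw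
  obtain ⟨hwU, hwY⟩ := Finset.mem_sdiff.1 hw
  have huniq : ∀ y ∈ S, G.Adj w y → y = s := by
    intro y hy hwy
    rw [nb_eq] at hone
    exact Finset.card_le_one.1 (le_of_eq hone) y (Finset.mem_filter.2 ⟨hy, hwy⟩) s
      (Finset.mem_filter.2 ⟨hs, hws⟩)
  apply h.nsol
  refine ⟨insert w S, ?_, ?_, ?_, ?_⟩
  · exact Finset.insert_subset hwU (hS.1.trans hY)
  · exact Finset.insert_subset (h.allowed hwU) hS.2.1
  · intro v hv y hy z hz e1 e2
    rcases Finset.mem_insert.1 hv with hv | hv
    · rw [hv] at e1 e2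
      rcases Finset.mem_insert.1 hy with hy | hy
      · rw [hy] at e1
        exact absurd e1 (G.loopless.irrefl _)
      · rcases Finset.mem_insert.1 hz with hz | hz
        · rw [hz] at e2
          exact absurd e2 (G.loopless.irrefl _)
        · rw [huniq y hy e1, huniq z hz e2]
    · rcases Finset.mem_insert.1 hy with hy | hy
      · rcases Finset.mem_insert.1 hz with hz | hz
        · rw [hy, hz]
        · rw [hy] at e1
          have h5 := huniq v hv e1.symm
          rw [h5] at e2
          exact absurd e2 (hcon z hz)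
      · rcases Finset.mem_insert.1 hz with hz | hz
        · rw [hz] at e2
          have h5 := huniq v hv e2.symm
          rw [h5] at e1
          exact absurd e1 (hcon y hy)
        · exact hS.2.2.1 v hv y hy z hz e1 e2
  · intro X hX hd
    set X1 := X ∩ Y with hX1
    set X2 := X \ Y with hX2
    have hX12 : X2 ∪ X1 = X := Finset.sdiff_union_inter X Y
    have hdis : Disjoint X2 X1 := Finset.disjoint_sdiff_inter X Y
    have hX1S : X1 ⊆ Y \ S := by
      intro x hx
      obtain ⟨h2, h3⟩ := Finset.mem_inter.1 hx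
      refine Finset.mem_sdiff.2 ⟨h3, fun h4 => ?_⟩
      exact Finset.disjoint_left.1 hd h2 (Finset.mem_insert_of_mem h4)
    have hX2U : X2 ⊆ U \ Y := by
      intro x hx
      obtain ⟨h2, h3⟩ := Finset.mem_sdiff.1 hx
      exact Finset.mem_sdiff.2 ⟨hX h2, h3⟩
    have hwX : w ∉ X := fun h4 => Finset.disjoint_left.1 hd h4 (Finset.mem_insert_self _ _)
    have hprop : Y ∪ X2 ≠ U := by
      intro h4
      rw [← h4] at hwU
      rcases Finset.mem_union.1 hwU with h5 | h5
      · exact hwY h5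
      · exact hwX (Finset.mem_sdiff.1 h5).1
    have h5 := h.nonneg (Finset.union_subset hY (hX2U.trans Finset.sdiff_subset)) hprop
    have hd2 : Disjoint X2 Y := by
      rw [Finset.disjoint_left]
      intro x hx
      exact (Finset.mem_sdiff.1 hx).2
    rw [Finset.union_comm, hc_union G A c hd2, h0, h.hc_sum (hX2U.trans Finset.sdiff_subset),
      dd_eq_sum] at h5
    have e1 := hS.2.2.2 X1 Finset.inter_subset_right (by
      rw [Finset.disjoint_left]
      intro x hx
      exact (Finset.mem_sdiff.1 (hX1S hx)).2)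
    have e3 := ein_union G hdis
    rw [hX12, dd_eq_sum] at e3
    have e4 : ∑ x ∈ X, c x = ∑ x ∈ X2, c x + ∑ x ∈ X1, c x := by
      rw [← hX12, Finset.sum_union hdis]
    have e5 : ∑ x ∈ X2, nb G X1 x + X2.card ≤ ∑ x ∈ X2, nb G Y x := by
      rw [Finset.card_eq_sum_ones, ← Finset.sum_add_distrib]
      refine Finset.sum_le_sum fun x hx => ?_
      have f1 := h.one_nb hY hne h0 hS (hX2U hx)
      have f2 : nb G X1 x ≤ nb G (Y \ S) x := nb_mono G hX1S x
      have f3 : nb G Y x = nb G (Y \ S) x + nb G S x := by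
        rw [nb_sum, nb_sum, nb_sum, Finset.sum_sdiff hS.1]
      omega
    have e5' : ((∑ x ∈ X2, nb G X1 x : ℕ) : ℤ) + (X2.card : ℤ)
        ≤ ((∑ x ∈ X2, nb G Y x : ℕ) : ℤ) := by exact_mod_cast e5
    rw [e3, e4]
    push_cast at h5 e5' ⊢
    linarith

/-- No spare capacity at a vertex of `Y` with a neighbour outside. -/
theorem SCrit.no_slack [DecidableEq V] (h : SCrit G A c U) {Y S : Finset V} (hY : Y ⊆ U)
    (hne : Y.Nonempty) (h0 : hc G A c Y = 0) {y0 w0 : V} (hy0 : y0 ∈ Y) (hy0S : y0 ∉ S)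
    (hw0 : w0 ∈ U \ Y) (hadj : G.Adj w0 y0)
    (hS : SSol G A (fun y => c y - (ib (y = y0) : ℤ)) Y S) : False := by
  have hsum : (fun y => c y - ((∑ z ∈ U \ Y, ib (z = w0 ∧ y = y0) : ℕ) : ℤ))
      = (fun y => c y - (ib (y = y0) : ℤ)) := by
    funext y
    have h1 : ∑ z ∈ U \ Y, ib (z = w0 ∧ y = y0) = ib (y = y0) := by
      rw [Finset.sum_eq_single w0]
      · by_cases h2 : y = y0
        · rw [ib_pos h2, ib_pos ⟨rfl, h2⟩]
        · rw [ib_neg h2, ib_neg (fun h3 => h2 h3.2)]
      · intro b _ hb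
        exact ib_neg fun h3 => hb h3.1
      · intro h3
        exact absurd hw0 h3
    rw [h1]
  obtain ⟨Z, hZ, hZne, hlt⟩ := h.step (F := fun z y => z = w0 ∧ y = y0)
    (fun x y hxy => by
      rw [hxy.1, hxy.2]
      exact hadj) hY hne (by
      rw [hsum]
      exact hS)
  have h4 : 0 ≤ ∑ x ∈ Z, gain G A (fun z y => z = w0 ∧ y = y0) S (Y \ S) x :=
    Finset.sum_nonneg fun x _ => gain_nonneg' _ _ _ _ _ _
  have h5 : -1 ≤ hc G A c (Y ∪ Z) :=
    h.neg_one_le (Finset.union_subset hY (hZ.trans Finset.sdiff_subset))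
  have h6 : Z = U \ Y := by
    refine h.union_eq hY hZ ?_
    rcases hlt with hlt | ⟨_, hlt⟩ <;> linarith
  have h7 : ∑ x ∈ Z, gain G A (fun z y => z = w0 ∧ y = y0) S (Y \ S) x ≤ 0 := by
    rcases hlt with hlt | ⟨_, hlt⟩ <;> linarith
  have h8 : gain G A (fun z y => z = w0 ∧ y = y0) S (Y \ S) w0
      ≤ ∑ x ∈ Z, gain G A (fun z y => z = w0 ∧ y = y0) S (Y \ S) x :=
    Finset.single_le_sum (fun x _ => gain_nonneg' _ _ _ _ _ _) (by
      rw [h6]
      exact hw0)
  have h9 := gain_nonneg G A (fun z y => z = w0 ∧ y = y0) S (Y \ S) w0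
  have h10 : ∑ y ∈ Y \ S, ib (w0 = w0 ∧ y = y0) = 1 := by
    rw [Finset.sum_eq_single y0]
    · exact ib_pos ⟨rfl, rfl⟩
    · intro b _ hb
      exact ib_neg fun h3 => hb h3.2
    · intro h3
      exact absurd (Finset.mem_sdiff.2 ⟨hy0, hy0S⟩) h3
  have h11 : ((∑ y ∈ Y \ S, ib (w0 = w0 ∧ y = y0) : ℕ) : ℤ) = 1 := by
    rw [h10]
    rfl
  linarith

/-- Lemma A: a tight nonempty set misses at most one vertex. -/
theorem SCrit.lemmaA (h : SCrit G A c U) {Y : Finset V} (hY : Y ⊆ U) (hne : Y.Nonempty)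
    (hcard : Y.card + 2 ≤ U.card) : hc G A c Y ≠ 0 := by
  classical
  intro h0
  have hYU : Y ≠ U := by
    rintro rfl
    omega
  obtain ⟨S0, hS0⟩ := h.sub G A c Y (by omega) (h.hyp.mono hY)
  obtain ⟨w, hwU, hwY⟩ := Finset.exists_of_ssubset (Finset.ssubset_iff_subset_ne.2 ⟨hY, hYU⟩)
  have hw : w ∈ U \ Y := Finset.mem_sdiff.2 ⟨hwU, hwY⟩
  have hk1 : 1 ≤ nb G Y w := by
    have h1 := h.one_nb hY hne h0 hS0 hw
    have h2 := nb_mono G hS0.1 w
    omega
  -- the instance on `Y + w` where `w` has capacity `k - 2`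
  set c' : V → ℤ := Function.update c w ((nb G Y w : ℤ) - 2) with hc'
  have hcY : ∀ X : Finset V, X ⊆ Y → ∑ x ∈ X, c' x = ∑ x ∈ X, c x := by
    intro X hX
    refine Finset.sum_congr rfl fun x hx => ?_
    rw [hc', Function.update_of_ne]
    rintro rfl
    exact hwY (hX hx)
  have hhcY : ∀ X : Finset V, X ⊆ Y → hc G A c' X = hc G A c X := by
    intro X hX
    unfold hc
    congr 1
    rw [Finset.sum_add_distrib, Finset.sum_add_distrib, hcY X hX]
  have hhyp : SHyp G A c' (insert w Y) := by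
    intro X hX
    by_cases hwX : w ∈ X
    · have hX' : X.erase w ⊆ Y := by
        intro x hx
        obtain ⟨h1, h2⟩ := Finset.mem_erase.1 hx
        rcases Finset.mem_insert.1 (hX h2) with h3 | h3
        · exact absurd h3 h1
        · exact h3
      have h1 := hc_insert G A c' (Finset.notMem_erase w X)
      rw [Finset.insert_erase hwX, hhcY _ hX', ib_pos (h.allowed hwU), hc',
        Function.update_self] at h1
      have h2 := h.nonneg (hX'.trans hY) (by
        rintro h3
        rw [← h3] at hwU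
        exact hwY (hX' hwU))
      have h3 : (nb G (X.erase w) w : ℤ) ≤ (nb G Y w : ℤ) := by
        exact_mod_cast nb_mono G hX' w
      rw [← hc'] at h1
      push_cast at h1
      refine ⟨by rw [h1]; linarith, fun h4 => ?_⟩
      exact absurd (h.allowed hwU) (Finset.disjoint_left.1 h4 hwX)
    · have hX' : X ⊆ Y := by
        intro x hx
        rcases Finset.mem_insert.1 (hX hx) with h3 | h3
        · exact absurd (h3 ▸ hx) hwX
        · exact h3
      rw [hhcY X hX']
      exact h.hyp X (hX'.trans hY)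
  have hlt : (insert w Y).card < U.card := by
    rw [Finset.card_insert_of_notMem hwY]
    omega
  obtain ⟨S', b1, b2, b3, b4⟩ := h.sub G A c' (insert w Y) hlt hhyp
  set S := S' ∩ Y with hSdef
  have hSY : SSol G A c Y S := by
    refine ⟨Finset.inter_subset_right, Finset.inter_subset_left.trans b2, ?_, ?_⟩
    · intro v hv y hy z hz
      exact b3 v (Finset.mem_inter.1 hv).1 y (Finset.mem_inter.1 hy).1 z (Finset.mem_inter.1 hz).1
    · intro X hX hd
      rw [← hcY X hX]
      refine b4 X (hX.trans (Finset.subset_insert _ _)) ?_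
      rw [Finset.disjoint_left]
      intro x hx hxS
      exact Finset.disjoint_left.1 hd hx (Finset.mem_inter.2 ⟨hxS, hX hx⟩)
  have hone := h.one_nb hY hne h0 hSY hw
  obtain ⟨s, hs⟩ : ∃ s, s ∈ S.filter (fun y => G.Adj w y) := by
    rw [nb_eq] at hone
    exact Finset.card_pos.1 (by omega)
  obtain ⟨hsS, hws⟩ := Finset.mem_filter.1 hs
  obtain ⟨t, htS, hst⟩ := h.mated hY hne h0 hSY hw hsS hws
  have hwS' : w ∉ S' := by
    intro hwS'
    have h1 := b3 s (Finset.mem_inter.1 hsS).1 t (Finset.mem_inter.1 htS).1 w hwS' hst hws.symm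
    rw [h1] at htS
    exact hwY (Finset.mem_inter.1 htS).2
  -- tight subsets of the rest
  set T : Finset (Finset V) := (Y \ S).powerset.filter
    (fun X => (ein G X : ℤ) = ∑ x ∈ X, c x) with hT
  have hTe : T.Nonempty := by
    refine ⟨∅, Finset.mem_filter.2 ⟨Finset.mem_powerset.2 (Finset.empty_subset _), ?_⟩⟩
    rw [ein_empty, Finset.sum_empty]
    norm_num
  obtain ⟨X0, hX0, hmax⟩ := Finset.exists_max_image T Finset.card hTe
  obtain ⟨hX0Y, hX0t⟩ := Finset.mem_filter.1 hX0
  rw [Finset.mem_powerset] at hX0Y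
  have hle : ∀ X : Finset V, X ⊆ Y \ S → (ein G X : ℤ) ≤ ∑ x ∈ X, c x := by
    intro X hX
    refine hSY.2.2.2 X (hX.trans Finset.sdiff_subset) ?_
    rw [Finset.disjoint_left]
    intro x hx
    exact (Finset.mem_sdiff.1 (hX hx)).2
  have hsub : ∀ X : Finset V, X ⊆ Y \ S → (ein G X : ℤ) = ∑ x ∈ X, c x → X ⊆ X0 := by
    intro X hX hXt
    have h1 := ein_inter_union G X0 X
    have h2 : ∑ x ∈ X0 ∪ X, c x + ∑ x ∈ X0 ∩ X, c x = ∑ x ∈ X0, c x + ∑ x ∈ X, c x :=
      Finset.sum_union_inter
    have h3 := hle (X0 ∪ X) (Finset.union_subset hX0Y hX)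
    have h4 := hle (X0 ∩ X) (Finset.inter_subset_left.trans hX0Y)
    have h1' : (ein G (X0 ∪ X) : ℤ) + (ein G (X0 ∩ X) : ℤ)
        = (ein G X0 : ℤ) + (ein G X : ℤ) + (dd G (X0 \ X) (X \ X0) : ℤ) := by exact_mod_cast h1
    have h5 : (0 : ℤ) ≤ (dd G (X0 \ X) (X \ X0) : ℤ) := Int.natCast_nonneg _
    have h6 : X0 ∪ X ∈ T := Finset.mem_filter.2
      ⟨Finset.mem_powerset.2 (Finset.union_subset hX0Y hX), by linarith⟩
    have h7 := hmax _ h6
    have h8 : X0 = X0 ∪ X := Finset.eq_of_subset_of_card_le Finset.subset_union_left h7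
    rw [h8]
    exact Finset.subset_union_right
  have hin : ∀ y ∈ Y \ S, G.Adj w y → y ∈ X0 := by
    intro y hy hwy
    obtain ⟨hyY, hyS⟩ := Finset.mem_sdiff.1 hy
    have hns : ¬ SSol G A (fun x => c x - (ib (x = y) : ℤ)) Y S :=
      fun h1 => h.no_slack hY hne h0 hyY hyS hw hwy h1
    have h1 : ∃ X : Finset V, X ⊆ Y ∧ Disjoint X S ∧
        ∑ x ∈ X, (c x - (ib (x = y) : ℤ)) < (ein G X : ℤ) := by
      by_contra hcon
      push Not at hcon
      exact hns ⟨hSY.1, hSY.2.1, hSY.2.2.1, hcon⟩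
    obtain ⟨X, hX, hd, hlt'⟩ := h1
    have hXS : X ⊆ Y \ S := fun x hx =>
      Finset.mem_sdiff.2 ⟨hX hx, Finset.disjoint_left.1 hd hx⟩
    have h2 := hle X hXS
    rw [Finset.sum_sub_distrib] at hlt'
    have hyX : y ∈ X := by
      by_contra hyX
      have h3 : ∑ x ∈ X, (ib (x = y) : ℤ) = 0 := by
        refine Finset.sum_eq_zero fun x hx => ?_
        rw [ib_neg]
        · rfl
        · rintro rfl
          exact hyX hx
      linarith
    have h3 : ∑ x ∈ X, (ib (x = y) : ℤ) = 1 := by
      rw [Finset.sum_eq_single y]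
      · rw [ib_pos rfl]
        rfl
      · intro b _ hb
        rw [ib_neg hb]
        rfl
      · intro h4
        exact absurd hyX h4
    exact hsub X hXS (by omega) hyX
  -- contradiction at `X0 + w`
  have hnbX0 : nb G X0 w + 1 = nb G Y w := by
    have h1 : nb G Y w = nb G (Y \ S) w + nb G S w := by
      rw [nb_sum, nb_sum, nb_sum, Finset.sum_sdiff hSY.1]
    have h2 : nb G X0 w = nb G (Y \ S) w := by
      refine le_antisymm (nb_mono G hX0Y w) ?_
      rw [nb_eq, nb_eq]
      refine Finset.card_le_card fun y hy => ?_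
      obtain ⟨h3, h4⟩ := Finset.mem_filter.1 hy
      exact Finset.mem_filter.2 ⟨hin y h3 h4, h4⟩
    omega
  have hX0Y' : X0 ⊆ Y := hX0Y.trans Finset.sdiff_subset
  have hwX0 : w ∉ X0 := fun h1 => hwY (hX0Y' h1)
  have h1 := b4 (insert w X0) (Finset.insert_subset_insert w hX0Y') (by
    rw [Finset.disjoint_left]
    intro x hx hxS
    rcases Finset.mem_insert.1 hx with h2 | h2
    · exact hwS' (h2 ▸ hxS)
    · exact (Finset.mem_sdiff.1 (hX0Y h2)).2 (Finset.mem_inter.2 ⟨hxS, hX0Y' h2⟩))
  have h2 : ein G (insert w X0) = ein G X0 + nb G X0 w := by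
    have hd : Disjoint ({w} : Finset V) X0 := Finset.disjoint_singleton_left.2 hwX0
    have h3 := ein_union G hd
    rw [← Finset.insert_eq, ein_singleton, dd_single] at h3
    omega
  rw [Finset.sum_insert hwX0, hcY X0 hX0Y', hc', Function.update_self, h2, ← hnbX0] at h1
  push_cast at h1
  linarith

/-- `hc ≥ 1` on all nonempty sets which miss at least two vertices. -/
theorem SCrit.strong (h : SCrit G A c U) {Y : Finset V} (hY : Y ⊆ U) (hne : Y.Nonempty)
    (hcard : Y.card + 2 ≤ U.card) : 1 ≤ hc G A c Y := by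
  have hYU : Y ≠ U := by
    rintro rfl
    omega
  have h1 := h.nonneg hY hYU
  have h2 := h.lemmaA hY hne hcard
  omega

theorem SCrit.erase [DecidableEq V] (h : SCrit G A c U) {v : V} (hv : v ∈ U) :
    hc G A c (U.erase v) = (nb G U v : ℤ) - c v - 2 := by
  classical
  have h1 := hc_insert G A c (Finset.notMem_erase v U)
  rw [Finset.insert_erase hv, h.total, ib_pos (h.allowed hv)] at h1
  have h2 : nb G (U.erase v) v = nb G U v := by
    rw [nb_eq, nb_eq]
    congr 1
    ext y
    simp only [Finset.mem_filter, Finset.mem_erase]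
    constructor
    · rintro ⟨⟨_, h3⟩, h4⟩
      exact ⟨h3, h4⟩
    · rintro ⟨h3, h4⟩
      exact ⟨⟨h4.ne.symm, h3⟩, h4⟩
  rw [h2] at h1
  push_cast at h1
  linarith

/-- The degree is at least the capacity plus two. -/
theorem SCrit.degree (h : SCrit G A c U) {v : V} (hv : v ∈ U) : c v + 2 ≤ (nb G U v : ℤ) := by
  classical
  have h1 := h.nonneg (Finset.erase_subset v U) (by
    intro h2
    have h3 := Finset.notMem_erase v U
    rw [h2] at h3
    exact h3 hv)
  rw [h.erase hv] at h1
  linarith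

/-- `SUM (d - 2(c + 1)) = 2`. -/
theorem SCrit.degree_sum (h : SCrit G A c U) :
    ∑ v ∈ U, ((nb G U v : ℤ) - 2 * (c v + 1)) = 2 := by
  have h1 := h.total
  rw [h.hc_sum (Finset.Subset.refl U)] at h1
  have h2 := dd_ein G U
  rw [dd_eq_sum] at h2
  have h2' : ∑ v ∈ U, (nb G U v : ℤ) = 2 * (ein G U : ℤ) := by exact_mod_cast h2
  have h3 : ∑ v ∈ U, ((nb G U v : ℤ) - 2 * (c v + 1))
      = ∑ v ∈ U, (nb G U v : ℤ) - 2 * (∑ v ∈ U, c v + (U.card : ℤ)) := by
    rw [Finset.sum_sub_distrib, ← Finset.mul_sum, Finset.sum_add_distrib]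
    simp
  rw [h3, h2']
  linarith

end crit

/-- The splitting statement with capacities. -/
def SplitFull : Prop :=
  ∀ (V : Type) (_ : Finite V) (G : SimpleGraph V) (A : Finset V) (c : V → ℤ) (U : Finset V),
    SHyp G A c U → Solv G A c U

/-- It is enough to exclude critical instances. -/
theorem splitFull_of_no_crit
    (hno : ∀ (V : Type) (_ : Finite V) (G : SimpleGraph V) (A : Finset V) (c : V → ℤ)
      (U : Finset V), ¬ SCrit G A c U) : SplitFull := by
  intro V hV G A c U h
  by_contra hcon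
  obtain ⟨G', A', c', U', h'⟩ := exists_scrit h hcon
  exact hno V hV G' A' c' U' h'

/-- The splitting statement with capacities gives the splitting statement. -/
theorem splitStmt_of_full (h : SplitFull) : SplitStmt := by
  intro V hV G U hU
  obtain ⟨S, a1, _, a3, a4⟩ := h V hV G U (fun _ => 2) U (by
    intro X hX
    have h1 : hc G U (fun _ => 2) X = 3 * (X.card : ℤ) - (ein G X : ℤ) := by
      unfold hc
      congr 1
      have h2 : ∀ x ∈ X, ((2 : ℤ) + (ib (x ∈ U) : ℤ)) = 3 := by
        intro x hx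
        rw [ib_pos (hX hx)]
        norm_num
      rw [Finset.sum_congr rfl h2, Finset.sum_const, nsmul_eq_mul]
      ring
    have h2 : (ein G X : ℤ) ≤ 3 * (X.card : ℤ) := by exact_mod_cast hU X hX
    rw [h1]
    exact ⟨by linarith, fun _ => by linarith⟩)
  refine ⟨S, a1, a3, fun X hX hd => ?_⟩
  have h1 := a4 X hX hd
  rw [Finset.sum_const, nsmul_eq_mul] at h1
  have h2 : (ein G X : ℤ) ≤ ((2 * X.card : ℕ) : ℤ) := by
    push_cast
    linarith
  exact_mod_cast h2

/-- Both answers from the splitting statement with capacities. -/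
theorem both_of_full (h : SplitFull) (k d : ℕ) :
    (AllCol @Toroidal k d ↔ (3 ≤ k ∧ 2 ≤ d) ∨ (4 ≤ k ∧ 1 ≤ d) ∨ 7 ≤ k) ∧
      (AllCol @ProjectivePlanar k d ↔ (3 ≤ k ∧ 2 ≤ d) ∨ (4 ≤ k ∧ 1 ≤ d) ∨ 6 ≤ k) :=
  both_of_split (splitStmt_of_full h) k d

end Pool.Agent.W986.C2
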