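import Pool.Agent.W986.ThreeOne
import Pool.Agent.W986.C2Main

/-!
# Splitting off one colour class

If `U` has a subset `T` in which every vertex has at most one neighbour (marked vertices none), and
`2|X| - e(X) - |A n X| ≥ 0` for all `X ⊆ U \ T`, then `(G, A)` has a good 4-colouring.  Hence the
statement `SplitStmt` answers both questions.
-/

set_option autoImplicit false

namespace Pool.Agent.W986.C2

open Pool.Agent.W986 Pool.Agent.DC76

variable {V : Type}

/-- Every vertex of `T` has at most one neighbour in `T`. -/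
def MatchLike (G : SimpleGraph V) (T : Finset V) : Prop :=
  ∀ v ∈ T, ∀ y ∈ T, ∀ z ∈ T, G.Adj v y → G.Adj v z → y = z

/-- Three colours. -/
theorem col3 (G : SimpleGraph V) (A U : Finset V)
    (h : ∀ X : Finset V, X ⊆ U → X.Nonempty →
      (ein G X : ℤ) + (mk A X : ℤ) ≤ 2 * (X.card : ℤ)) :
    ∃ c : V → Fin 4, Good G A U c ∧ ∀ v ∈ U, c v ≠ 3 := by
  have hleg : Leg3 G (fun _ => ({0, 1, 2} : Finset (Fin 4))) A U := by
    have h0 : ({0, 1, 2} : Finset (Fin 4)).card = 3 := by decide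
    refine ⟨fun v _ => le_of_eq h0, ?_⟩
    intro X hX hne
    have h1 := h X hX hne
    have h2 : ∑ x ∈ X, (((({0, 1, 2} : Finset (Fin 4)).card : ℕ) : ℤ) - 1)
        = 2 * (X.card : ℤ) := by
      have h3 : ({0, 1, 2} : Finset (Fin 4)).card = 3 := by decide
      rw [h3, Finset.sum_const, nsmul_eq_mul]
      push_cast
      ring
    unfold hq
    rw [h2]
    linarith
  obtain ⟨c, hc⟩ := colL_of_leg3 G _ A U hleg
  refine ⟨c, hc.1, fun v hv h3 => ?_⟩
  have h4 : c v ∈ ({0, 1, 2} : Finset (Fin 4)) := hc.2 v hv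
  rw [h3] at h4
  have h5 : (3 : Fin 4) ∉ ({0, 1, 2} : Finset (Fin 4)) := by decide
  exact h5 h4

/-- A split gives a good 4-colouring. -/
theorem col_of_split (G : SimpleGraph V) (A U T : Finset V)
    (hm : MatchLike G T) (hA : ∀ v ∈ T, v ∈ A → ∀ y ∈ T, ¬ G.Adj v y)
    (h : ∀ X : Finset V, X ⊆ U → Disjoint X T → X.Nonempty →
      (ein G X : ℤ) + (mk A X : ℤ) ≤ 2 * (X.card : ℤ)) : Col G A U := by
  classical
  obtain ⟨c, hc, hc3⟩ := col3 G A (U \ T) (by
    intro X hX hne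
    refine h X (hX.trans Finset.sdiff_subset) ?_ hne
    rw [Finset.disjoint_left]
    intro x hx
    exact (Finset.mem_sdiff.1 (hX hx)).2)
  have hsame : ∀ v ∈ U, ∀ y ∈ U,
      (if y ∈ T then (3 : Fin 4) else c y) = (if v ∈ T then (3 : Fin 4) else c v) →
      (v ∈ T ∧ y ∈ T) ∨ (v ∈ U \ T ∧ y ∈ U \ T ∧ c y = c v) := by
    intro v hv y hy h1
    by_cases hvT : v ∈ T
    · by_cases hyT : y ∈ T
      · exact Or.inl ⟨hvT, hyT⟩
      · rw [if_neg hyT, if_pos hvT] at h1
        exact absurd h1 (hc3 y (Finset.mem_sdiff.2 ⟨hy, hyT⟩))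
    · by_cases hyT : y ∈ T
      · rw [if_pos hyT, if_neg hvT] at h1
        exact absurd h1.symm (hc3 v (Finset.mem_sdiff.2 ⟨hv, hvT⟩))
      · rw [if_neg hyT, if_neg hvT] at h1
        exact Or.inr ⟨Finset.mem_sdiff.2 ⟨hv, hvT⟩, Finset.mem_sdiff.2 ⟨hy, hyT⟩, h1⟩
  refine ⟨fun v => if v ∈ T then 3 else c v, ?_, ?_⟩
  · intro v hv y hy z hz h1 h2 h3 h4
    rcases hsame v hv y hy h3 with ⟨a1, a2⟩ | ⟨a1, a2, a3⟩
    · rcases hsame v hv z hz h4 with ⟨b1, b2⟩ | ⟨b1, b2, b3⟩
      · exact hm v a1 y a2 z b2 h1 h2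
      · exact absurd a1 (Finset.mem_sdiff.1 b1).2
    · rcases hsame v hv z hz h4 with ⟨b1, b2⟩ | ⟨b1, b2, b3⟩
      · exact absurd b1 (Finset.mem_sdiff.1 a1).2
      · exact hc.1 v a1 y a2 z b2 h1 h2 a3 b3
  · intro v hv hvA y hy h1 h2
    rcases hsame v hv y hy h2 with ⟨a1, a2⟩ | ⟨a1, a2, a3⟩
    · exact hA v a1 hvA y a2 h1
    · exact hc.2 v a1 hvA y a2 h1 a3

/-- Every graph with `e(X) ≤ 3|X|` for all `X` splits into a set in which every vertex has at most
one neighbour and a rest with `e(X) ≤ 2|X|`. -/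
def SplitStmt : Prop :=
  ∀ (V : Type) (_ : Finite V) (G : SimpleGraph V) (U : Finset V),
    (∀ X : Finset V, X ⊆ U → ein G X ≤ 3 * X.card) →
    ∃ T : Finset V, T ⊆ U ∧ MatchLike G T ∧
      ∀ X : Finset V, X ⊆ U → Disjoint X T → ein G X ≤ 2 * X.card

/-- The same for graphs with `e(X) ≤ 3|X| - 3` for nonempty `X`. -/
def SplitStmt3 : Prop :=
  ∀ (V : Type) (_ : Finite V) (G : SimpleGraph V) (U : Finset V),
    (∀ X : Finset V, X ⊆ U → X.Nonempty → ein G X + 3 ≤ 3 * X.card) →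
    ∃ T : Finset V, T ⊆ U ∧ MatchLike G T ∧
      ∀ X : Finset V, X ⊆ U → Disjoint X T → ein G X ≤ 2 * X.card

theorem mk_none (X : Finset V) : mk (∅ : Finset V) X = 0 := by
  unfold mk
  exact Finset.sum_eq_zero fun x _ => ib_neg (Finset.notMem_empty x)

/-- A split without marks. -/
theorem col_of_split_unmarked (G : SimpleGraph V) (U T : Finset V)
    (hm : MatchLike G T)
    (h : ∀ X : Finset V, X ⊆ U → Disjoint X T → ein G X ≤ 2 * X.card) : Col G ∅ U := by
  refine col_of_split G ∅ U T hm (fun v _ hv => absurd hv (Finset.notMem_empty v)) ?_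
  intro X hX hd _
  rw [mk_none]
  push_cast
  have h1 : (ein G X : ℤ) ≤ 2 * (X.card : ℤ) := by exact_mod_cast h X hX hd
  linarith

theorem projective_of_split3 (h : SplitStmt3) : AllCol @ProjectivePlanar 4 1 := by
  intro U H hH
  have : Finite U := projective_finite hH
  have : Fintype U := Fintype.ofFinite U
  obtain ⟨T, -, hm, hX⟩ := h U inferInstance H Finset.univ
    (fun X _ hne => ein_le_three_sub H 1 le_rfl hH.onSurface X hne)
  obtain ⟨c, hc⟩ := col_of_split_unmarked H Finset.univ T hm hX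
  exact ⟨c, defective_of_good hc⟩

theorem toroidal_of_split (h : SplitStmt) : AllCol @Toroidal 4 1 := by
  intro U H hH
  have : Finite U := toroidal_finite hH
  have : Fintype U := Fintype.ofFinite U
  obtain ⟨T, -, hm, hX⟩ := h U inferInstance H Finset.univ
    (fun X _ => ein_le_three H 0 le_rfl hH.onSurface X)
  obtain ⟨c, hc⟩ := col_of_split_unmarked H Finset.univ T hm hX
  exact ⟨c, defective_of_good hc⟩

theorem SplitStmt.three (h : SplitStmt) : SplitStmt3 := by
  intro V hV G U hU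
  refine h V hV G U fun X hX => ?_
  by_cases hne : X.Nonempty
  · have := hU X hX hne
    omega
  · rw [Finset.not_nonempty_iff_eq_empty] at hne
    subst hne
    have h1 := dd_ein G (∅ : Finset V)
    have h2 : dd G ∅ (∅ : Finset V) = 0 := by
      unfold dd
      exact Finset.sum_empty
    omega

/-- Both answers from the split. -/
theorem both_of_split (h : SplitStmt) (k d : ℕ) :
    (AllCol @Toroidal k d ↔ (3 ≤ k ∧ 2 ≤ d) ∨ (4 ≤ k ∧ 1 ≤ d) ∨ 7 ≤ k) ∧
      (AllCol @ProjectivePlanar k d ↔ (3 ≤ k ∧ 2 ≤ d) ∨ (4 ≤ k ∧ 1 ≤ d) ∨ 6 ≤ k) :=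
  ⟨torus_iff (toroidal_of_split h) k d, projective_iff (projective_of_split3 h.three) k d⟩

/-- The projective plane from the weaker split. -/
theorem projective_iff_of_split3 (h : SplitStmt3) (k d : ℕ) :
    AllCol @ProjectivePlanar k d ↔ (3 ≤ k ∧ 2 ≤ d) ∨ (4 ≤ k ∧ 1 ≤ d) ∨ 6 ≤ k :=
  projective_iff (projective_of_split3 h) k d

end Pool.Agent.W986.C2
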