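import Pool.Agent.W986.TriDefs

/-!
# The edges which leave a connected set with connected complement form one cycle
-/

set_option autoImplicit false

open Finset

namespace Pool.Agent.W986

open Pool.Agent.DC76

section two

variable {W : Type} {H : SimpleGraph W} {T : W → W → W → Prop} {x : W} {d : ℕ} {ν : ℕ → W}

variable [Fintype W]

/-- Every edge belongs to exactly two triangles. -/
theorem TriSphere.two (h : TriSphere H T) {x y : W} (hxy : H.Adj x y) :
    ∃ a b, a ≠ b ∧ T x y a ∧ T x y b ∧ ∀ c, T x y c → c = a ∨ c = b := by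
  obtain ⟨d, ν, hν⟩ := h.rotation x
  obtain ⟨i, hi, rfl⟩ := (hν.adj y).1 hxy
  have h3 := hν.three
  -- the index `i` shifted so that it is a successor
  have h1 : ν i = ν (i + d - 1 + 1) := by
    rw [show i + d - 1 + 1 = i + d by omega, hν.per]
  refine ⟨ν (i + d - 1), ν (i + d - 1 + 2), hν.ne (by omega) (by omega), ?_, ?_, ?_⟩
  · rw [h1]
    exact (hν.tri _ _).2 (Or.inl rfl)
  · rw [h1]
    exact (hν.tri _ _).2 (Or.inr rfl)
  · intro c hc
    rw [h1] at hc
    exact (hν.tri _ _).1 hc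

theorem TriSphere.adj2 (h : TriSphere H T) {x y z : W} (hT : T x y z) :
    H.Adj x y ∧ H.Adj y z ∧ H.Adj z x :=
  ⟨h.adj _ _ _ hT, h.adj _ _ _ (h.rot _ _ _ hT), h.adj _ _ _ (h.rot _ _ _ (h.rot _ _ _ hT))⟩

end two

section graph

variable {W : Type}

/-- The edges which leave `N`. -/
abbrev CutE (H : SimpleGraph W) (N : Set W) : Type :=
  {p : W × W // p.1 ∈ N ∧ p.2 ∉ N ∧ H.Adj p.1 p.2}

/-- Two edges which leave `N` are neighbours if they belong to one triangle. -/
def cutG (H : SimpleGraph W) (T : W → W → W → Prop) (N : Set W)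
    (hrot : ∀ x y z, T x y z → T y z x) (hswap : ∀ x y z, T x y z → T y x z) :
    SimpleGraph (CutE H N) where
  Adj p q := p ≠ q ∧ ((p.1.1 = q.1.1 ∧ T p.1.1 p.1.2 q.1.2) ∨ (p.1.2 = q.1.2 ∧ T p.1.1 p.1.2 q.1.1))
  symm := ⟨by
    rintro p q ⟨h1, h2 | h2⟩
    · refine ⟨h1.symm, Or.inl ⟨h2.1.symm, ?_⟩⟩
      rw [← h2.1]
      exact hswap _ _ _ (hrot _ _ _ (hrot _ _ _ h2.2))
    · refine ⟨h1.symm, Or.inr ⟨h2.1.symm, ?_⟩⟩
      rw [← h2.1]
      exact hswap _ _ _ (hrot _ _ _ h2.2)⟩
  loopless := ⟨fun p h => h.1 rfl⟩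

end graph

section strip

variable {W : Type} [Fintype W] {H : SimpleGraph W} {T : W → W → W → Prop} {N : Set W}

theorem cutG_cycles (h : TriSphere H T) : (cutG H T N h.rot h.swap).IsCycles := by
  classical
  rintro ⟨⟨x, y⟩, hx, hy, hxy⟩ _
  change x ∈ N at hx
  change y ∉ N at hy
  change H.Adj x y at hxy
  obtain ⟨a, b, hab, ha, hb, honly⟩ := h.two hxy
  -- the neighbour which belongs to a third vertex
  have key : ∀ c, T x y c → ∃ q : CutE H N,
      (cutG H T N h.rot h.swap).Adj ⟨(x, y), hx, hy, hxy⟩ q ∧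
        (c ∈ N → q.1 = (c, y)) ∧ (c ∉ N → q.1 = (x, c)) := by
    intro c hc
    obtain ⟨h1, h2, h3⟩ := h.adj2 hc
    by_cases hcN : c ∈ N
    · refine ⟨⟨(c, y), hcN, hy, h2.symm⟩, ⟨?_, Or.inr ⟨rfl, hc⟩⟩, fun _ => rfl,
        fun h => absurd hcN h⟩
      intro h4
      exact h3.ne (congrArg (fun q : CutE H N => q.1.1) h4).symm
    · refine ⟨⟨(x, c), hx, hcN, h3.symm⟩, ⟨?_, Or.inl ⟨rfl, hc⟩⟩, fun h => absurd h hcN,
        fun _ => rfl⟩
      intro h4
      exact h2.ne (congrArg (fun q : CutE H N => q.1.2) h4)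
  obtain ⟨qa, hqa, hqa1, hqa2⟩ := key a ha
  obtain ⟨qb, hqb, hqb1, hqb2⟩ := key b hb
  have hne : qa ≠ qb := by
    rintro rfl
    by_cases haN : a ∈ N
    · have e1 := hqa1 haN
      by_cases hbN : b ∈ N
      · rw [hqb1 hbN] at e1
        exact hab (congrArg Prod.fst e1).symm
      · rw [hqb2 hbN] at e1
        have e2 : x = a := congrArg Prod.fst e1
        exact (h.adj2 ha).2.2.ne e2.symm
    · have e1 := hqa2 haN
      by_cases hbN : b ∈ N
      · rw [hqb1 hbN] at e1
        have e2 : b = x := congrArg Prod.fst e1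
        exact (h.adj2 hb).2.2.ne e2
      · rw [hqb2 hbN] at e1
        exact hab (congrArg Prod.snd e1).symm
  have hset : (cutG H T N h.rot h.swap).neighborSet ⟨(x, y), hx, hy, hxy⟩ = {qa, qb} := by
    ext q
    rw [SimpleGraph.mem_neighborSet, Set.mem_insert_iff, Set.mem_singleton_iff]
    constructor
    · rintro ⟨_, h1 | h1⟩
      · have hq : q.1 = (x, q.1.2) := Prod.ext h1.1.symm rfl
        rcases honly _ h1.2 with h2 | h2
        · left
          apply Subtype.ext
          rw [hq, hqa2 (h2 ▸ q.2.2.1), h2]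
        · right
          apply Subtype.ext
          rw [hq, hqb2 (h2 ▸ q.2.2.1), h2]
      · have hq : q.1 = (q.1.1, y) := Prod.ext rfl h1.1.symm
        rcases honly _ h1.2 with h2 | h2
        · left
          apply Subtype.ext
          rw [hq, hqa1 (h2 ▸ q.2.1), h2]
        · right
          apply Subtype.ext
          rw [hq, hqb1 (h2 ▸ q.2.1), h2]
    · rintro (rfl | rfl)
      · exact hqa
      · exact hqb
  rw [hset, Set.ncard_pair hne]

/-- The graph of the edges which leave `N` is connected. -/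
theorem cutG_reach (h : TriSphere H T) (hN : Conn H N) (hNc : Conn H Nᶜ) (p q : CutE H N) :
    (cutG H T N h.rot h.swap).Reachable p q := by
  classical
  let Γ := cutG H T N h.rot h.swap
  let O : CutE H N → Prop := fun r => Γ.Reachable p r
  let Y : W → W → Prop := fun x y => ∃ (h1 : x ∈ N ∧ y ∉ N ∧ H.Adj x y), O ⟨(x, y), h1⟩
  let X : W → W → ZMod 2 := fun x y => (if Y x y then 1 else 0) + (if Y y x then 1 else 0)
  have hXs : ∀ x y, X x y = X y x := fun x y => add_comm _ _
  have hYN : ∀ x y, y ∈ N → ¬ Y x y := fun x y hy h => h.1.2.1 hy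
  have hYN' : ∀ x y, x ∉ N → ¬ Y x y := fun x y hx h => hx h.1.1
  have hX1 : ∀ x y, x ∈ N → y ∈ N → X x y = 0 := by
    intro x y hx hy
    change (if Y x y then (1 : ZMod 2) else 0) + (if Y y x then 1 else 0) = 0
    rw [if_neg (hYN x y hy), if_neg (hYN y x hx), add_zero]
  have hX2 : ∀ x y, x ∉ N → y ∉ N → X x y = 0 := by
    intro x y hx hy
    change (if Y x y then (1 : ZMod 2) else 0) + (if Y y x then 1 else 0) = 0
    rw [if_neg (hYN' x y hx), if_neg (hYN' y x hy), add_zero]
  have hX3 : ∀ x y, x ∈ N → X x y = if Y x y then 1 else 0 := by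
    intro x y hx
    change (if Y x y then (1 : ZMod 2) else 0) + (if Y y x then 1 else 0) = _
    rw [if_neg (hYN y x hx), add_zero]
  -- two edges of a triangle which leave `N`
  have hA : ∀ x y z, T x y z → x ∈ N → y ∉ N → z ∉ N → (Y x y ↔ Y x z) := by
    have key : ∀ x y z, T x y z → x ∈ N → y ∉ N → z ∉ N → Y x y → Y x z := by
      rintro x y z hT hx hy hz ⟨h1, h2⟩
      obtain ⟨_, h4, h5⟩ := h.adj2 hT
      refine ⟨⟨hx, hz, h5.symm⟩, SimpleGraph.Reachable.trans h2 (SimpleGraph.Adj.reachable ?_)⟩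
      refine ⟨?_, Or.inl ⟨rfl, hT⟩⟩
      intro h6
      exact h4.ne (congrArg (fun q : CutE H N => q.1.2) h6)
    intro x y z hT hx hy hz
    exact ⟨key x y z hT hx hy hz,
      key x z y (h.swap _ _ _ (h.rot _ _ _ (h.rot _ _ _ hT))) hx hz hy⟩
  have hB : ∀ x y z, T x y z → x ∈ N → y ∈ N → z ∉ N → (Y x z ↔ Y y z) := by
    have key : ∀ x y z, T x y z → x ∈ N → y ∈ N → z ∉ N → Y x z → Y y z := by
      rintro x y z hT hx hy hz ⟨h1, h2⟩
      obtain ⟨h3, h4, _⟩ := h.adj2 hT
      refine ⟨⟨hy, hz, h4⟩, SimpleGraph.Reachable.trans h2 (SimpleGraph.Adj.reachable ?_)⟩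
      refine ⟨?_, Or.inr ⟨rfl, ?_⟩⟩
      · intro h6
        exact h3.ne (congrArg (fun q : CutE H N => q.1.1) h6)
      · exact h.swap _ _ _ (h.rot _ _ _ (h.rot _ _ _ hT))
    intro x y z hT hx hy hz
    exact ⟨key x y z hT hx hy hz, key y x z (h.swap _ _ _ hT) hy hx hz⟩
  have hXT : ∀ x y z, T x y z → X x y + X y z + X z x = 0 := by
    intro x y z hT
    have hT2 := h.rot _ _ _ hT
    have hT3 := h.rot _ _ _ hT2
    by_cases hx : x ∈ N
    · by_cases hy : y ∈ N
      · by_cases hz : z ∈ N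
        · rw [hX1 x y hx hy, hX1 y z hy hz, hX1 z x hz hx, add_zero, add_zero]
        · rw [hX1 x y hx hy, zero_add, hX3 y z hy, hXs z x, hX3 x z hx,
            if_congr (hB x y z hT hx hy hz) rfl rfl, CharTwo.add_self_eq_zero]
      · by_cases hz : z ∈ N
        · rw [hX1 z x hz hx, add_zero, hX3 x y hx, hXs y z, hX3 z y hz,
            if_congr (hB z x y hT3 hz hx hy) rfl rfl, CharTwo.add_self_eq_zero]
        · rw [hX2 y z hy hz, add_zero, hX3 x y hx, hXs z x, hX3 x z hx,
            if_congr (hA x y z hT hx hy hz) rfl rfl, CharTwo.add_self_eq_zero]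
    · by_cases hy : y ∈ N
      · by_cases hz : z ∈ N
        · rw [hX1 y z hy hz, add_zero, hXs x y, hX3 y x hy, hX3 z x hz,
            if_congr (hB y z x hT2 hy hz hx) rfl rfl, CharTwo.add_self_eq_zero]
        · rw [hX2 z x hz hx, add_zero, hXs x y, hX3 y x hy, hX3 y z hy,
            if_congr (hA y z x hT2 hy hz hx) rfl rfl, CharTwo.add_self_eq_zero]
      · by_cases hz : z ∈ N
        · rw [hX2 x y hx hy, zero_add, hXs y z, hX3 z y hz, hX3 z x hz,
            if_congr (hA z x y hT3 hz hx hy) rfl rfl, CharTwo.add_self_eq_zero]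
        · rw [hX2 x y hx hy, hX2 y z hy hz, hX2 z x hz hx, add_zero, add_zero]
  obtain ⟨g, hg⟩ := h.cob X hXs hXT
  have hconst : ∀ (S : Set W), Conn H S → (∀ x ∈ S, ∀ y ∈ S, X x y = 0) →
      ∀ x ∈ S, ∀ y ∈ S, g x = g y := by
    intro S hS h0 x hx y hy
    have h1 : ∀ z, Lnk H S x z → z ∈ S ∧ g x = g z := by
      intro z hz
      induction hz with
      | refl => exact ⟨hx, rfl⟩
      | @tail u v _ h2 ih =>
        have h3 := hg u v h2.2
        rw [h0 u ih.1 v h2.1] at h3
        exact ⟨h2.1, ih.2.trans (CharTwo.add_eq_zero.1 h3)⟩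
    exact (h1 y (hS x hx y hy)).2
  have h1 := hconst N hN (fun x hx y hy => hX1 x y hx hy) p.1.1 p.2.1 q.1.1 q.2.1
  have h2 := hconst Nᶜ hNc (fun x hx y hy => hX2 x y hx hy) p.1.2 p.2.2.1 q.1.2 q.2.2.1
  have h3 := hg p.1.1 p.1.2 p.2.2.2
  have h4 := hg q.1.1 q.1.2 q.2.2.2
  rw [h1, h2, h4, hX3 _ _ p.2.1, hX3 _ _ q.2.1,
    if_pos (show Y p.1.1 p.1.2 from ⟨p.2, SimpleGraph.Reachable.refl _⟩)] at h3
  by_contra hcon
  have h5 : ¬ Y q.1.1 q.1.2 := by
    rintro ⟨_, h6⟩
    exact hcon h6
  rw [if_neg h5] at h3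
  exact absurd h3 (by decide)

/-- **The strip.** The edges which leave a connected set with connected complement have a cyclic
order in which consecutive edges belong to one triangle. -/
theorem exists_strip (h : TriSphere H T) (hN : Conn H N) (hNc : Conn H Nᶜ) (hNn : N.Nonempty)
    (hNcn : Nᶜ.Nonempty) : ∃ k a b c, Strip H T N k a b c := by
  classical
  -- an edge which leaves `N`
  have hex : ∃ x y, x ∈ N ∧ y ∉ N ∧ H.Adj x y := by
    by_contra hcon
    push Not at hcon
    obtain ⟨x, hx⟩ := hNn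
    obtain ⟨y, hy⟩ := hNcn
    have h1 : Set.univ ⊆ N := conn_closed h.conn (Set.mem_univ x) hx
      fun u hu v _ huv => by
        by_contra hv
        exact hcon u v hu hv huv
    exact hy (h1 (Set.mem_univ y))
  obtain ⟨x0, y0, hx0, hy0, hxy0⟩ := hex
  set Γ := cutG H T N h.rot h.swap with hΓ
  let p0 : CutE H N := ⟨(x0, y0), hx0, hy0, hxy0⟩
  have hcyc : Γ.IsCycles := cutG_cycles h
  have hn : (Γ.neighborSet p0).Nonempty := by
    obtain ⟨a, _, _, ha, _⟩ := h.two hxy0
    obtain ⟨h1, h2, h3⟩ := h.adj2 ha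
    by_cases haN : a ∈ N
    · refine ⟨⟨(a, y0), haN, hy0, h2.symm⟩, ?_, Or.inr ⟨rfl, ha⟩⟩
      intro h4
      exact h3.ne (congrArg (fun q : CutE H N => q.1.1) h4).symm
    · refine ⟨⟨(x0, a), hx0, haN, h3.symm⟩, ?_, Or.inl ⟨rfl, ha⟩⟩
      intro h4
      exact h2.ne (congrArg (fun q : CutE H N => q.1.2) h4)
  obtain ⟨p, hp, hverts⟩ := hcyc.exists_cycle_toSubgraph_verts_eq_connectedComponentSupp
    (c := Γ.connectedComponentMk p0) rfl hn
  have hsupp : ∀ q : CutE H N, q ∈ p.support := by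
    intro q
    rw [← SimpleGraph.Walk.mem_verts_toSubgraph, hverts,
      SimpleGraph.ConnectedComponent.mem_supp_iff, SimpleGraph.ConnectedComponent.eq]
    exact cutG_reach h hN hNc q p0
  have h3 : 3 ≤ p.length := hp.three_le_length
  let e : ℕ → CutE H N := fun i => p.getVert (i % p.length)
  have hper : ∀ i, e (i + p.length) = e i := by
    intro i
    change p.getVert ((i + p.length) % p.length) = p.getVert (i % p.length)
    rw [Nat.add_mod_right]
  have hadj : ∀ i, Γ.Adj (e i) (e (i + 1)) := by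
    intro i
    change Γ.Adj (p.getVert (i % p.length)) (p.getVert ((i + 1) % p.length))
    have hlt : i % p.length < p.length := Nat.mod_lt _ (by omega)
    have h4 := p.adj_getVert_succ hlt
    by_cases h5 : i % p.length + 1 < p.length
    · have h6 : (i + 1) % p.length = i % p.length + 1 := by
        rw [Nat.add_mod, Nat.mod_eq_of_lt (show 1 < p.length by omega), Nat.mod_eq_of_lt h5]
      rw [h6]
      exact h4
    · have h6 : i % p.length + 1 = p.length := by omega
      have h7 : (i + 1) % p.length = 0 := by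
        rw [Nat.add_mod, Nat.mod_eq_of_lt (show 1 < p.length by omega), h6, Nat.mod_self]
      rw [h6, SimpleGraph.Walk.getVert_length] at h4
      rw [h7, SimpleGraph.Walk.getVert_zero]
      exact h4
  have hinj : ∀ i, i < p.length → ∀ j, j < p.length → e i = e j → i = j := by
    intro i hi j hj hij
    change p.getVert (i % p.length) = p.getVert (j % p.length) at hij
    rw [Nat.mod_eq_of_lt hi, Nat.mod_eq_of_lt hj] at hij
    have h4 := hp.getVert_injOn'
    exact h4 (by simp only [Set.mem_ofPred_eq]; omega) (by simp only [Set.mem_ofPred_eq]; omega) hij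
  have hne2 : ∀ i, e i ≠ e (i + 2) := by
    intro i heq
    have hlt : i % p.length < p.length := Nat.mod_lt _ (by omega)
    have hm : e (i + 2) = e ((i + 2) % p.length) := by
      change p.getVert ((i + 2) % p.length) = p.getVert ((i + 2) % p.length % p.length)
      rw [Nat.mod_mod]
    have hm' : e i = e (i % p.length) := by
      change p.getVert (i % p.length) = p.getVert (i % p.length % p.length)
      rw [Nat.mod_mod]
    rw [hm, hm'] at heq
    have h4 := hinj _ hlt _ (Nat.mod_lt _ (by omega)) heq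
    rw [Nat.add_mod, Nat.mod_eq_of_lt (show 2 < p.length by omega)] at h4
    generalize i % p.length = m at h4 hlt
    by_cases h5 : m + 2 < p.length
    · rw [Nat.mod_eq_of_lt h5] at h4
      omega
    · have h11 : (m + 2) % p.length = m + 2 - p.length := by
        rw [Nat.mod_eq_sub_mod (by omega), Nat.mod_eq_of_lt (by omega)]
      omega
  let a : ℕ → W := fun i => (e i).1.1
  let b : ℕ → W := fun i => (e i).1.2
  let c : ℕ → W := fun i => if a (i + 1) = a i then b (i + 1) else a (i + 1)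
  have ha : ∀ i, a i ∈ N := fun i => (e i).2.1
  have hb : ∀ i, b i ∉ N := fun i => (e i).2.2.1
  have hext : ∀ i j, a i = a j → b i = b j → e i = e j := fun i j h1 h2 =>
    Subtype.ext (Prod.ext h1 h2)
  have hcase : ∀ i, (a (i + 1) = a i ∧ c i = b (i + 1) ∧ T (a i) (b i) (c i)) ∨
      (a (i + 1) ≠ a i ∧ b (i + 1) = b i ∧ c i = a (i + 1) ∧ T (a i) (b i) (c i)) := by
    intro i
    obtain ⟨h1, h2⟩ := hadj i
    by_cases h4 : a (i + 1) = a i
    · left
      have h5 : c i = b (i + 1) := if_pos h4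
      refine ⟨h4, h5, ?_⟩
      rw [h5]
      rcases h2 with h2 | h2
      · exact h2.2
      · exact absurd (hext i (i + 1) h4.symm h2.1) h1
    · right
      have h5 : c i = a (i + 1) := if_neg h4
      rcases h2 with h2 | h2
      · exact absurd h2.1.symm h4
      · refine ⟨h4, h2.1.symm, h5, ?_⟩
        rw [h5]
        exact h2.2
  have hs1 : ∀ i, c i ∈ N → a (i + 1) = c i ∧ b (i + 1) = b i := by
    intro i hi
    rcases hcase i with h1 | h1
    · rw [h1.2.1] at hi
      exact absurd hi (hb _)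
    · exact ⟨h1.2.2.1.symm, h1.2.1⟩
  have hs2 : ∀ i, c i ∉ N → a (i + 1) = a i ∧ b (i + 1) = c i := by
    intro i hi
    rcases hcase i with h1 | h1
    · exact ⟨h1.1, h1.2.1.symm⟩
    · rw [h1.2.2.1] at hi
      exact absurd (ha _) hi
  refine ⟨p.length, a, b, c, h3, fun i => ?_, fun i => ?_, fun i => ?_, ha, hb,
    fun i => (e i).2.2.2, ?_, ?_, fun i => ?_, hs1, hs2, ?_, ?_⟩
  · change (e (i + p.length)).1.1 = (e i).1.1
    rw [hper]
  · change (e (i + p.length)).1.2 = (e i).1.2
    rw [hper]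
  · change (if (e (i + p.length + 1)).1.1 = (e (i + p.length)).1.1 then (e (i + p.length + 1)).1.2
      else (e (i + p.length + 1)).1.1) = if (e (i + 1)).1.1 = (e i).1.1 then (e (i + 1)).1.2 else
        (e (i + 1)).1.1
    rw [show i + p.length + 1 = i + 1 + p.length by omega, hper, hper]
  · intro x hx y hy hxy
    have h4 := hsupp ⟨(x, y), hx, hy, hxy⟩
    rw [SimpleGraph.Walk.mem_support_iff_exists_getVert] at h4
    obtain ⟨i, hi, hi2⟩ := h4
    by_cases h5 : i < p.length
    · refine ⟨i, h5, ?_, ?_⟩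
      · change (p.getVert (i % p.length)).1.1 = x
        rw [Nat.mod_eq_of_lt h5, hi]
      · change (p.getVert (i % p.length)).1.2 = y
        rw [Nat.mod_eq_of_lt h5, hi]
    · have h6 : i = p.length := by omega
      have h7 : e 0 = ⟨(x, y), hx, hy, hxy⟩ := by
        change p.getVert (0 % p.length) = _
        rw [Nat.zero_mod, SimpleGraph.Walk.getVert_zero, ← hi, h6,
          SimpleGraph.Walk.getVert_length]
      refine ⟨0, by omega, ?_, ?_⟩
      · change (e 0).1.1 = x
        rw [h7]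
      · change (e 0).1.2 = y
        rw [h7]
  · intro i hi j hj h1 h2
    exact hinj i hi j hj (hext i j h1 h2)
  · rcases hcase i with h1 | h1
    · exact h1.2.2
    · exact h1.2.2.2
  · intro i hi h4
    have h5 := hs1 i hi
    have h6 := hs1 (i + 1) (by rw [h4]; exact ha i)
    exact hne2 i (hext i (i + 2) (h6.1.trans h4).symm (h6.2.trans h5.2).symm)
  · intro i hi h4
    have h5 := hs2 i hi
    have h6 := hs2 (i + 1) (by rw [h4]; exact hb i)
    exact hne2 i (hext i (i + 2) (h6.1.trans h5.1).symm (h6.2.trans h4).symm)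

end strip

end Pool.Agent.W986
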