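import Pool.Agent.W986.StripEx

/-!
# Disjoint connected sets do not interleave on a strip
-/

set_option autoImplicit false

open Finset

namespace Pool.Agent.W986

open Pool.Agent.DC76

section

variable {W : Type} [Fintype W] {H : SimpleGraph W} {T : W → W → W → Prop}

omit [Fintype W] in
/-- The symmetries of a function of triangles. -/
theorem perm3 {s : W → W → W → ZMod 2} (h1 : ∀ x y w, s x y w = s y w x)
    (h2 : ∀ x y w, s x y w = s y x w) (x y w : W) : s x y w = s x w y := by
  rw [h2 x y w, h1 y x w]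

/-- If `z` has no edge at `y`, then all the triangles at `y` are on the same side of `z`. -/
theorem TriSphere.side_const (h : TriSphere H T) {s : W → W → W → ZMod 2}
    {z : W → W → ZMod 2} (h1 : ∀ x y w, s x y w = s y w x) (h2 : ∀ x y w, s x y w = s y x w)
    (h3 : ∀ x y a b, a ≠ b → T x y a → T x y b → s x y a + s x y b = z x y) {y : W}
    (h0 : ∀ u, z y u = 0) {u v u' v' : W} (hT : T y u v) (hT' : T y u' v') :
    s y u v = s y u' v' := by
  obtain ⟨d, ν, hν⟩ := h.rotation y
  have hd := hν.three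
  have hstep : ∀ m, s y (ν m) (ν (m + 1)) = s y (ν (m + 1)) (ν (m + 2)) := by
    intro m
    have h4 := h3 y (ν (m + 1)) (ν m) (ν (m + 2)) (hν.ne (by omega) (by omega))
      ((hν.tri _ _).2 (Or.inl rfl)) ((hν.tri _ _).2 (Or.inr rfl))
    rw [h0, perm3 h1 h2 y (ν (m + 1)) (ν m)] at h4
    exact CharTwo.add_eq_zero.1 h4
  have hall : ∀ m, s y (ν m) (ν (m + 1)) = s y (ν 0) (ν 1) := by
    intro m
    induction m with
    | zero => rfl
    | succ m ih =>
      rw [← hstep m]
      exact ih
  have key : ∀ u v, T y u v → s y u v = s y (ν 0) (ν 1) := by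
    intro u v hT
    obtain ⟨i, hi, rfl⟩ := (hν.adj u).1 (h.adj _ _ _ hT)
    have e : ν i = ν (i + d - 1 + 1) := by
      rw [show i + d - 1 + 1 = i + d by omega, hν.per]
    rw [e] at hT ⊢
    rcases (hν.tri _ _).1 hT with rfl | rfl
    · rw [perm3 h1 h2 y, hall]
    · exact hall _
  rw [key u v hT, key u' v' hT']

/-- If `z` has no edge at the vertices of a connected set, then all the triangles at these vertices
are on the same side of `z`. -/
theorem TriSphere.side_conn (h : TriSphere H T) {s : W → W → W → ZMod 2}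
    {z : W → W → ZMod 2} (h1 : ∀ x y w, s x y w = s y w x) (h2 : ∀ x y w, s x y w = s y x w)
    (h3 : ∀ x y a b, a ≠ b → T x y a → T x y b → s x y a + s x y b = z x y) {L : Set W}
    (hL : Conn H L) (h0 : ∀ y ∈ L, ∀ u, z y u = 0) {y y' u v u' v' : W} (hy : y ∈ L)
    (hy' : y' ∈ L) (hT : T y u v) (hT' : T y' u' v') : s y u v = s y' u' v' := by
  have key : ∀ w, Lnk H L y w → ∀ u' v', T w u' v' → s y u v = s w u' v' := by
    intro w hw
    induction hw with
    | refl =>
      intro u' v' hT'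
      exact h.side_const h1 h2 h3 (h0 y hy) hT hT'
    | @tail p q hp hq ih =>
      intro u' v' hT'
      have hpL : p ∈ L := Lnk.mem hp hy
      obtain ⟨a, _, _, ha, _⟩ := h.two hq.2
      rw [ih q a ha, h2 p q a]
      exact h.side_const h1 h2 h3 (h0 q hq.1) (h.swap _ _ _ ha) hT'
  exact key y' (hL y hy y' hy') u' v' hT'

variable {N : Set W} {k : ℕ} {a b c : ℕ → W}

omit [Fintype W] in
theorem Strip.per (h : Strip H T N k a b c) (m j : ℕ) :
    a (j + k * m) = a j ∧ b (j + k * m) = b j ∧ c (j + k * m) = c j := by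
  induction m with
  | zero => exact ⟨rfl, rfl, rfl⟩
  | succ m ih =>
    rw [Nat.mul_succ, ← add_assoc, h.pera, h.perb, h.perc]
    exact ih

omit [Fintype W] in
theorem Strip.mod (h : Strip H T N k a b c) (i : ℕ) :
    a (i % k) = a i ∧ b (i % k) = b i ∧ c (i % k) = c i := by
  have h1 := h.per (i / k) (i % k)
  rw [Nat.mod_add_div] at h1
  exact ⟨h1.1.symm, h1.2.1.symm, h1.2.2.symm⟩

omit [Fintype W] in
/-- Different indices inside one period give different edges. -/
theorem Strip.ne (h : Strip H T N k a b c) {i j : ℕ} (hij : i < j) (hj : j < i + k)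
    (ha : a i = a j) : b i ≠ b j := by
  intro hb
  have hk := h.three
  have h1 := h.inj (i % k) (Nat.mod_lt _ (by omega)) (j % k) (Nat.mod_lt _ (by omega))
    (by rw [(h.mod i).1, (h.mod j).1, ha]) (by rw [(h.mod i).2.1, (h.mod j).2.1, hb])
  have h4 : i ≡ j [MOD k] := h1
  have h5 := (Nat.modEq_iff_dvd' hij.le).1 h4
  have h6 := Nat.le_of_dvd (by omega) h5
  omega

omit [Fintype W] in
/-- Going along the strip. -/
theorem Strip.side_step (h : Strip H T N k a b c) {s : W → W → W → ZMod 2}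
    {z : W → W → ZMod 2} (h1 : ∀ x y w, s x y w = s y w x) (h2 : ∀ x y w, s x y w = s y x w)
    (h3 : ∀ x y a b, a ≠ b → T x y a → T x y b → s x y a + s x y b = z x y)
    (hrot : ∀ x y z, T x y z → T y z x) (hswap : ∀ x y z, T x y z → T y x z) (m : ℕ) :
    s (a m) (b m) (c m) + s (a (m + 1)) (b (m + 1)) (c (m + 1)) = z (a (m + 1)) (b (m + 1)) := by
  by_cases hm : c m ∈ N
  · obtain ⟨e1, e2⟩ := h.step1 m hm
    have h4 : T (a (m + 1)) (b (m + 1)) (a m) := by
      rw [e1, e2]
      exact hswap _ _ _ (hrot _ _ _ (h.tri m))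
    have h5 := h3 _ _ _ _ (h.turn1 m hm).symm h4 (h.tri (m + 1))
    rw [← h5]
    congr 1
    rw [e1, e2, h1 (a m) (b m) (c m), h2]
  · obtain ⟨e1, e2⟩ := h.step2 m hm
    have h4 : T (a (m + 1)) (b (m + 1)) (b m) := by
      rw [e1, e2]
      exact hswap _ _ _ (hrot _ _ _ (hrot _ _ _ (h.tri m)))
    have h5 := h3 _ _ _ _ (h.turn2 m hm).symm h4 (h.tri (m + 1))
    rw [← h5]
    congr 1
    rw [e1, e2, perm3 h1 h2]

/-- Disjoint connected sets outside `N` do not interleave on the strip. -/
theorem strip_noncross (h : TriSphere H T) (hN : Conn H N) (hS : Strip H T N k a b c)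
    {K L : Set W} (hK : Conn H K) (hL : Conn H L) (hKL : Disjoint K L) (hKN : ∀ x ∈ K, x ∉ N)
    (hLN : ∀ x ∈ L, x ∉ N) {i p j q : ℕ} (hip : i < p) (hpj : p < j) (hjq : j < q)
    (hqi : q < i + k) (hbi : b i ∈ K) (hbj : b j ∈ K) (hbp : b p ∈ L) (hbq : b q ∈ L) : False := by
  classical
  obtain ⟨J, hJ1, hJ2, hJ3⟩ := join_path (H := fun x y => H.Adj x y ∧ x ∈ K ∧ y ∈ K)
    (fun x y h => ⟨h.1.symm, h.2.2, h.2.1⟩) (fun x h => H.loopless.irrefl x h.1)
    (Lnk.both (hK _ hbi _ hbj) hbi)
  obtain ⟨J', hJ1', hJ2', hJ3'⟩ := join_path (H := fun x y => H.Adj x y ∧ x ∈ N ∧ y ∈ N)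
    (fun x y h => ⟨h.1.symm, h.2.2, h.2.1⟩) (fun x h => H.loopless.irrefl x h.1)
    (Lnk.both (hN _ (hS.mema i) _ (hS.mema j)) (hS.mema i))
  have hadji := hS.adj i
  have hadjj := hS.adj j
  set z : W → W → ZMod 2 := fun x y =>
    J x y + J' x y + (ed (a i) (b i) x y + ed (a j) (b j) x y) with hz
  have hzZ : z ∈ Z H Set.univ := by
    refine ⟨fun x y => ?_, fun x y h4 => ⟨?_, Set.mem_univ _, Set.mem_univ _⟩, fun x => ?_⟩
    · change J x y + J' x y + (ed (a i) (b i) x y + ed (a j) (b j) x y) = _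
      rw [hJ1 x y, hJ1' x y, ed_symm (a i) (b i) x y, ed_symm (a j) (b j) x y]
    · by_contra hcon
      apply h4
      change J x y + J' x y + (ed (a i) (b i) x y + ed (a j) (b j) x y) = 0
      have e1 : J x y = 0 := by
        by_contra h5
        exact hcon (hJ2 x y h5).1
      have e2 : J' x y = 0 := by
        by_contra h5
        exact hcon (hJ2' x y h5).1
      have e3 : ed (a i) (b i) x y = 0 := by
        by_contra h5
        rcases ed_eq h5 with ⟨rfl, rfl⟩ | ⟨rfl, rfl⟩
        · exact hcon hadji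
        · exact hcon hadji.symm
      have e4 : ed (a j) (b j) x y = 0 := by
        by_contra h5
        rcases ed_eq h5 with ⟨rfl, rfl⟩ | ⟨rfl, rfl⟩
        · exact hcon hadjj
        · exact hcon hadjj.symm
      rw [e1, e2, e3, e4]
      rfl
    · change ∑ w, (J x w + J' x w + (ed (a i) (b i) x w + ed (a j) (b j) x w)) = 0
      rw [sum_add_distrib, sum_add_distrib, sum_add_distrib, hJ3, hJ3', ed_bd hadji.ne,
        ed_bd hadjj.ne]
      have h5 : ∀ p q r s : ZMod 2, p + q + (r + s) + (r + p + (s + q)) = 0 := by decide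
      exact h5 _ _ _ _
  obtain ⟨s, hs1, hs2, hs3⟩ := h.bnd z hzZ
  -- no edge of the cycle at `L`
  have h0 : ∀ y ∈ L, ∀ u, z y u = 0 := by
    intro y hy u
    change J y u + J' y u + (ed (a i) (b i) y u + ed (a j) (b j) y u) = 0
    have hyK : y ∉ K := fun h5 => Set.disjoint_left.1 hKL h5 hy
    have e1 : J y u = 0 := by
      by_contra h5
      exact hyK (hJ2 y u h5).2.1
    have e2 : J' y u = 0 := by
      by_contra h5
      exact hLN y hy (hJ2' y u h5).2.1
    have e3 : ed (a i) (b i) y u = 0 := by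
      by_contra h5
      rcases ed_eq h5 with ⟨h6, _⟩ | ⟨h6, _⟩
      · exact hLN y hy (h6 ▸ hS.mema i)
      · exact hyK (h6 ▸ hbi)
    have e4 : ed (a j) (b j) y u = 0 := by
      by_contra h5
      rcases ed_eq h5 with ⟨h6, _⟩ | ⟨h6, _⟩
      · exact hLN y hy (h6 ▸ hS.mema j)
      · exact hyK (h6 ▸ hbj)
    rw [e1, e2, e3, e4]
    rfl
  -- the edges of the strip which belong to the cycle
  have hcut : ∀ m, z (a m) (b m) = (if a m = a i ∧ b m = b i then 1 else 0) +
      (if a m = a j ∧ b m = b j then 1 else 0) := by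
    intro m
    change J (a m) (b m) + J' (a m) (b m) + (ed (a i) (b i) (a m) (b m) +
      ed (a j) (b j) (a m) (b m)) = _
    have e1 : J (a m) (b m) = 0 := by
      by_contra h5
      exact hKN _ (hJ2 _ _ h5).2.1 (hS.mema m)
    have e2 : J' (a m) (b m) = 0 := by
      by_contra h5
      exact hS.memb m (hJ2' _ _ h5).2.2
    have e3 : ∀ l, ed (a l) (b l) (a m) (b m) = if a m = a l ∧ b m = b l then 1 else 0 := by
      intro l
      unfold ed
      refine if_congr ⟨fun h5 => h5.resolve_right fun h6 => ?_, Or.inl⟩ rfl rfl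
      exact hS.memb l (h6.1 ▸ hS.mema m)
    rw [e1, e2, e3, e3, add_zero, zero_add]
  have hzero : ∀ m, i < m → m < i + k → m ≠ j → z (a m) (b m) = 0 := by
    intro m h4 h5 h6
    rw [hcut, if_neg, if_neg, add_zero]
    · rintro ⟨h7, h8⟩
      rcases Nat.lt_or_gt_of_ne h6 with h9 | h9
      · exact hS.ne h9 (by omega) h7 h8
      · exact hS.ne h9 (by omega) h7.symm h8.symm
    · rintro ⟨h7, h8⟩
      exact hS.ne h4 h5 h7.symm h8.symm
  have hone : z (a j) (b j) = 1 := by
    rw [hcut, if_neg, if_pos ⟨rfl, rfl⟩, zero_add]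
    rintro ⟨h7, h8⟩
    exact hS.ne (show i < j by omega) (by omega) h7.symm h8.symm
  have hstep := fun m => hS.side_step hs1 hs2 hs3 h.rot h.swap m
  -- constant before and after `j`
  have hrun : ∀ l m, (∀ x, l < x → x ≤ l + m → z (a x) (b x) = 0) →
      s (a l) (b l) (c l) = s (a (l + m)) (b (l + m)) (c (l + m)) := by
    intro l m
    induction m with
    | zero =>
      intro _
      rfl
    | succ m ih =>
      intro h4
      rw [ih fun x h5 h6 => h4 x h5 (by omega)]
      have h5 := hstep (l + m)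
      rw [h4 (l + m + 1) (by omega) (by omega)] at h5
      exact CharTwo.add_eq_zero.1 h5
  have e1 : s (a p) (b p) (c p) = s (a (j - 1)) (b (j - 1)) (c (j - 1)) := by
    have h4 := hrun p (j - 1 - p) fun x h5 h6 => hzero x (by omega) (by omega) (by omega)
    rw [show p + (j - 1 - p) = j - 1 by omega] at h4
    exact h4
  have e2 : s (a j) (b j) (c j) = s (a q) (b q) (c q) := by
    have h4 := hrun j (q - j) fun x h5 h6 => hzero x (by omega) (by omega) (by omega)
    rw [show j + (q - j) = q by omega] at h4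
    exact h4
  have e3 := hstep (j - 1)
  rw [show j - 1 + 1 = j by omega, hone] at e3
  have e4 : s (a p) (b p) (c p) = s (a q) (b q) (c q) := by
    rw [hs2 (a p), hs2 (a q)]
    exact h.side_conn hs1 hs2 hs3 hL h0 hbp hbq (h.swap _ _ _ (hS.tri p))
      (h.swap _ _ _ (hS.tri q))
  rw [← e1, e2, e4, CharTwo.add_self_eq_zero] at e3
  exact absurd e3 (by decide)

end

end Pool.Agent.W986
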