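import Pool.Agent.W986.SubOcc

/-!
# Patches: fast checks

Boolean versions of the checks of `SubOcc` which are quick in the kernel, closing of a label whose
known neighbours wrap around it, and identification of labels.
-/

set_option autoImplicit false

open Finset

namespace Pool.Agent.W986

section fast

variable {W : Type} {H : SimpleGraph W} {T : W → W → W → Prop}

theorem nat_beq {a b : ℕ} (h : Nat.beq a b = true) : a = b := Nat.eq_of_beq_eq_true h

/-- `x`, `w`, `y` are consecutive in the list (in one of the two directions). -/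
def winAux (x w y : ℕ) : List ℕ → Bool
  | a :: b :: c :: l =>
    (Nat.beq b w && ((Nat.beq a x && Nat.beq c y) || (Nat.beq a y && Nat.beq c x))) ||
      winAux x w y (b :: c :: l)
  | _ => false

theorem winAux_iff (x w y : ℕ) : ∀ l : List ℕ, winAux x w y l = true →
    ∃ t, t + 2 < l.length ∧ l.getD (t + 1) 0 = w ∧
      ((l.getD t 0 = x ∧ l.getD (t + 2) 0 = y) ∨ (l.getD t 0 = y ∧ l.getD (t + 2) 0 = x))
  | [], h => by simp [winAux] at h
  | [_], h => by simp [winAux] at h
  | [_, _], h => by simp [winAux] at h
  | a :: b :: c :: l, h => by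
    rw [winAux, Bool.or_eq_true] at h
    rcases h with h | h
    · rw [Bool.and_eq_true, Bool.or_eq_true, Bool.and_eq_true, Bool.and_eq_true] at h
      refine ⟨0, by simp, nat_beq h.1, ?_⟩
      rcases h.2 with h1 | h1
      · exact Or.inl ⟨nat_beq h1.1, nat_beq h1.2⟩
      · exact Or.inr ⟨nat_beq h1.1, nat_beq h1.2⟩
    · obtain ⟨t, h1, h2, h3⟩ := winAux_iff x w y (b :: c :: l) h
      refine ⟨t + 1, ?_, h2, h3⟩
      simp only [List.length_cons] at h1 ⊢
      omega

/-- `x`, `w`, `y` are consecutive in the cyclic list `l`. -/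
def winB (l : List ℕ) (x w y : ℕ) : Bool := winAux x w y (l ++ l.take 2)

theorem lab_append_take (l : List ℕ) {t : ℕ} (ht : t < (l ++ l.take 2).length) (h2 : 2 ≤ l.length) :
    (l ++ l.take 2).getD t 0 = lab l t := by
  unfold lab
  by_cases h : t < l.length
  · rw [List.getD_append _ _ _ _ h, Nat.mod_eq_of_lt h]
  · push Not at h
    rw [List.length_append, List.length_take] at ht
    rw [List.getD_append_right _ _ _ _ h]
    have h3 : t % l.length = t - l.length := by
      rw [Nat.mod_eq_sub_mod h, Nat.mod_eq_of_lt (by omega)]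
    have h4 : t - l.length < (l.take 2).length := by
      rw [List.length_take]
      omega
    rw [h3, List.getD_eq_getElem _ _ h4, List.getD_eq_getElem _ _ (by omega),
      List.getElem_take]

theorem winB_iff {l : List ℕ} {x w y : ℕ} (h : winB l x w y = true) (h2 : 2 ≤ l.length) :
    ∃ t, lab l (t + 1) = w ∧
      ((lab l t = x ∧ lab l (t + 2) = y) ∨ (lab l t = y ∧ lab l (t + 2) = x)) := by
  obtain ⟨t, h1, h3, h4⟩ := winAux_iff x w y _ h
  refine ⟨t, ?_, ?_⟩
  · rw [← lab_append_take l (by omega) h2, h3]
  · rw [← lab_append_take l (t := t) (by omega) h2, ← lab_append_take l (t := t + 2) h1 h2]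
    exact h4

/-- The closed list of the label `a`. -/
def look (P : List (ℕ × List ℕ)) (a : ℕ) : List ℕ :=
  match P with
  | [] => []
  | q :: P => bif Nat.beq q.1 a then q.2 else look P a

theorem look_mem : ∀ (P : List (ℕ × List ℕ)) (a : ℕ), look P a ≠ [] → (a, look P a) ∈ P
  | [], a, h => absurd rfl h
  | q :: P, a, h => by
    rw [look] at h ⊢
    cases hq : Nat.beq q.1 a
    · rw [hq, cond_false] at h
      rw [cond_false]
      exact List.mem_cons_of_mem _ (look_mem P a h)
    · rw [cond_true, ← nat_beq hq]
      exact List.mem_cons_self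

/-- The windows around `w`: all the inner elements of the arc are closed and have `w` between
their neighbours in the arc. -/
def arcAux (P : List (ℕ × List ℕ)) (w : ℕ) : List ℕ → Bool
  | a :: b :: c :: l => winB (look P b) a w c && arcAux P w (b :: c :: l)
  | _ => true

/-- The labels `arc` are known consecutive neighbours of `w`. -/
def arcB (P : List (ℕ × List ℕ)) (w : ℕ) (arc : List ℕ) : Bool :=
  Nat.ble 3 arc.length && arcAux P w arc

theorem arcAux_iff (P : List (ℕ × List ℕ)) (w : ℕ) : ∀ arc : List ℕ, arcAux P w arc = true →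
    ∀ t, t + 2 < arc.length →
      winB (look P (arc.getD (t + 1) 0)) (arc.getD t 0) w (arc.getD (t + 2) 0) = true
  | [], _ => fun t ht => by simp at ht
  | [_], _ => fun t ht => by simp at ht
  | [_, _], _ => fun t ht => by simp at ht
  | a :: b :: c :: l, h => by
    rw [arcAux, Bool.and_eq_true] at h
    intro t ht
    rcases t with _ | t
    · exact h.1
    · refine arcAux_iff P w (b :: c :: l) h.2 t ?_
      simp only [List.length_cons] at ht ⊢
      omega

theorem winB_nil (x w y : ℕ) : winB [] x w y = false := rfl

/-- A window gives two triangles and two different vertices. -/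
theorem OccL.window {P : List (ℕ × List ℕ)} {f : ℕ → W} (hT : TriRel H T) (h : OccL H T P f)
    {b x w y : ℕ} (hw : winB (look P b) x w y = true) :
    T (f w) (f x) (f b) ∧ T (f w) (f b) (f y) ∧ f x ≠ f y ∧
      (∃ q ∈ P, q.1 = b ∧ x ∈ q.2 ∧ w ∈ q.2 ∧ y ∈ q.2) := by
  have hne : look P b ≠ [] := by
    intro hc
    rw [hc, winB_nil] at hw
    exact Bool.false_ne_true hw
  have hmem := look_mem P b hne
  have hrot := h _ hmem
  change Rotn H T (f b) (look P b).length (fun t => f (lab (look P b) t)) at hrot
  have hd := hrot.three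
  obtain ⟨t, h1, h2⟩ := winB_iff hw (by omega)
  have h3 := hrot.tri_next t
  have h4 := hrot.tri_next (t + 1)
  have h5 := hrot.ne' (i := t) (j := t + 2) (by omega) (by omega) (by omega)
  beta_reduce at h3 h4 h5
  rw [h1] at h3 h4
  rw [show t + 1 + 1 = t + 2 by omega] at h4
  have hm : ∀ s, lab (look P b) s ∈ look P b := fun s => mem_lab s (by omega)
  rcases h2 with ⟨e1, e2⟩ | ⟨e1, e2⟩
  · rw [e1] at h3 h5
    rw [e2] at h4 h5
    exact ⟨hT.rot _ _ _ (hT.rot _ _ _ (hT.swap _ _ _ h3)), hT.swap _ _ _ h4, h5, _, hmem, rfl,
      e1 ▸ hm t, h1 ▸ hm (t + 1), e2 ▸ hm (t + 2)⟩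
  · rw [e1] at h3 h5
    rw [e2] at h4 h5
    exact ⟨hT.rot _ _ _ h4, hT.rot _ _ _ (hT.rot _ _ _ h3), h5.symm, _, hmem, rfl,
      e2 ▸ hm (t + 2), h1 ▸ hm (t + 1), e1 ▸ hm t⟩

/-- The labels in a checked arc are labels of the patch. -/
theorem arcB_lt {P : List (ℕ × List ℕ)} {f : ℕ → W} (hT : TriRel H T) (h : OccL H T P f)
    {n w : ℕ} {arc : List ℕ} (hn : ∀ q ∈ P, q.1 < n ∧ ∀ c ∈ q.2, c < n)
    (ha : arcB P w arc = true) : w < n ∧ ∀ c ∈ arc, c < n := by
  rw [arcB, Bool.and_eq_true] at ha
  have h3 : 3 ≤ arc.length := Nat.le_of_ble_eq_true ha.1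
  have hwin := arcAux_iff P w arc ha.2
  have key : ∀ t, t + 2 < arc.length →
      arc.getD t 0 < n ∧ arc.getD (t + 1) 0 < n ∧ arc.getD (t + 2) 0 < n ∧ w < n := by
    intro t ht
    obtain ⟨_, _, _, q, hq, h1, h2, h4, h5⟩ := h.window hT (hwin t ht)
    exact ⟨(hn q hq).2 _ h2, h1 ▸ (hn q hq).1, (hn q hq).2 _ h5, (hn q hq).2 _ h4⟩
  refine ⟨(key 0 (by omega)).2.2.2, ?_⟩
  intro c hc
  obtain ⟨t, ht, rfl⟩ := List.mem_iff_getElem.1 hc
  rw [← List.getD_eq_getElem _ 0 ht]
  rcases Nat.lt_or_ge (t + 2) arc.length with h4 | h4
  · exact (key t h4).1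
  · rcases Nat.lt_or_ge (t + 1) arc.length with h5 | h5
    · have h6 := (key (t - 1) (by omega)).2.1
      rwa [show t - 1 + 1 = t by omega] at h6
    · have h6 := (key (t - 2) (by omega)).2.2.1
      rwa [show t - 2 + 2 = t by omega] at h6

/-- The known arc at `w` is the beginning of a rotation at `w`. -/
theorem OccL.arcF {P : List (ℕ × List ℕ)} {f : ℕ → W} (hT : TriRel H T) (h : OccL H T P f)
    {w : ℕ} {arc : List ℕ} (ha : arcB P w arc = true) {d : ℕ} {ν : ℕ → W}
    (hν : Rotn H T (f w) d ν) :
    ∃ ν', Rotn H T (f w) d ν' ∧ ∀ t, t < arc.length → ν' t = f (arc.getD t 0) := by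
  rw [arcB, Bool.and_eq_true] at ha
  have h3 : 3 ≤ arc.length := Nat.le_of_ble_eq_true ha.1
  have hwin := arcAux_iff P w arc ha.2
  obtain ⟨ν', h4, h5⟩ := hν.follow hT.adj (fun t => f (arc.getD t 0)) (arc.length - 1) (by omega)
    (fun t ht => by
      rcases Nat.eq_zero_or_pos t with rfl | h0
      · exact (h.window hT (hwin 0 (by omega))).1
      · have h6 := (h.window hT (hwin (t - 1) (by omega))).2.1
        rwa [show t - 1 + 1 = t by omega, show t - 1 + 2 = t + 1 by omega] at h6)
    (fun t ht => (h.window hT (hwin t (by omega))).2.2.1)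
  exact ⟨ν', h4, fun t ht => h5 t (by omega)⟩

/-- The label `w` is closed: its known neighbours are `arc`, and it has `k` new neighbours
`n, .., n + k - 1`. -/
theorem OccL.closeF {P : List (ℕ × List ℕ)} {f : ℕ → W} (hT : TriRel H T) (h : OccL H T P f)
    {n w k : ℕ} {arc : List ℕ} (hn : ∀ q ∈ P, q.1 < n ∧ ∀ c ∈ q.2, c < n)
    (ha : arcB P w arc = true) {ν : ℕ → W} (hν : Rotn H T (f w) (arc.length + k) ν) :
    ∃ f', (∀ c, c < n → f' c = f c) ∧ OccL H T ((w, arc ++ List.range' n k) :: P) f' ∧
      ∀ q ∈ (w, arc ++ List.range' n k) :: P, q.1 < n + k ∧ ∀ c ∈ q.2, c < n + k := by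
  obtain ⟨hwn, harc⟩ := arcB_lt hT h hn ha
  obtain ⟨ν', h3, h4⟩ := h.arcF hT ha hν
  have hd := h3.three
  let f' : ℕ → W := fun c => if c < n then f c else ν' (arc.length + (c - n))
  have hf : ∀ c, c < n → f' c = f c := fun c hc => if_pos hc
  have hlen : (arc ++ List.range' n k).length = arc.length + k := by
    rw [List.length_append, List.length_range']
  have key : ∀ t, t < arc.length + k → f' (lab (arc ++ List.range' n k) t) = ν' t := by
    intro t ht
    unfold lab
    rw [hlen, Nat.mod_eq_of_lt ht]
    by_cases h5 : t < arc.length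
    · rw [List.getD_append _ _ _ _ h5, h4 t h5]
      apply hf
      apply harc
      rw [List.getD_eq_getElem _ _ h5]
      exact List.getElem_mem h5
    · push Not at h5
      rw [List.getD_append_right _ _ _ _ h5]
      have h6 : t - arc.length < (List.range' n k).length := by
        rw [List.length_range']
        omega
      rw [List.getD_eq_getElem _ _ h6, List.getElem_range']
      have h7 : ¬ n + 1 * (t - arc.length) < n := by omega
      change (if n + 1 * (t - arc.length) < n then _ else _) = _
      rw [if_neg h7]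
      congr 1
      omega
  refine ⟨f', hf, ?_, ?_⟩
  · intro q hq
    rcases List.mem_cons.1 hq with rfl | hq
    · have h5 : (fun t => f' (lab (arc ++ List.range' n k) t)) = ν' := by
        funext t
        have h6 : ν' t = ν' (t % (arc.length + k)) := h3.modEq (Nat.mod_modEq _ _).symm
        rw [h6, ← key _ (Nat.mod_lt _ (by omega))]
        congr 1
        apply lab_congr
        rw [hlen, Nat.mod_mod]
      change Rotn H T (f' w) (arc ++ List.range' n k).length
        (fun t => f' (lab (arc ++ List.range' n k) t))
      rw [h5, hf w hwn, hlen]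
      exact h3
    · exact h.congr hn hf q hq
  · intro q hq
    rcases List.mem_cons.1 hq with rfl | hq
    · refine ⟨Nat.lt_add_right _ hwn, ?_⟩
      intro c hc
      rcases List.mem_append.1 hc with hc | hc
      · exact Nat.lt_add_right _ (harc c hc)
      · rw [List.mem_range'_1] at hc
        exact hc.2
    · obtain ⟨h1, h2⟩ := hn q hq
      exact ⟨Nat.lt_add_right _ h1, fun c hc => Nat.lt_add_right _ (h2 c hc)⟩

/-- The known neighbours of `w` wrap around `w`: its degree is `d ≤ arc.length`. -/
theorem OccL.wrap {P : List (ℕ × List ℕ)} {f : ℕ → W} (hT : TriRel H T) (h : OccL H T P f)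
    {w d : ℕ} {arc : List ℕ} (ha : arcB P w arc = true) {ν : ℕ → W} (hν : Rotn H T (f w) d ν)
    (hd : d ≤ arc.length) : OccL H T ((w, arc.take d) :: P) f ∧
      ∀ t, t + d < arc.length → f (arc.getD (t + d) 0) = f (arc.getD t 0) := by
  obtain ⟨ν', h3, h4⟩ := h.arcF hT ha hν
  have hd3 := h3.three
  have hlen : (arc.take d).length = d := by
    rw [List.length_take]
    omega
  refine ⟨?_, ?_⟩
  · intro q hq
    rcases List.mem_cons.1 hq with rfl | hq
    · have h5 : (fun t => f (lab (arc.take d) t)) = ν' := by
        funext t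
        have h6 : ν' t = ν' (t % d) := h3.modEq (Nat.mod_modEq _ _).symm
        have h7 : t % d < d := Nat.mod_lt _ (by omega)
        unfold lab
        rw [hlen, h6, h4 _ (by omega)]
        congr 1
        rw [List.getD_eq_getElem _ _ (by rw [hlen]; exact h7),
          List.getD_eq_getElem _ _ (by omega), List.getElem_take]
      change Rotn H T (f w) (arc.take d).length (fun t => f (lab (arc.take d) t))
      rw [h5, hlen]
      exact h3
    · exact h q hq
  · intro t ht
    rw [← h4 _ ht, ← h4 t (by omega), h3.per]

/-- The label `b` becomes `a`. -/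
def sub1 (a b c : ℕ) : ℕ := bif Nat.beq c b then a else c

/-- The patch in which the label `b` becomes `a`. -/
def substP (P : List (ℕ × List ℕ)) (a b : ℕ) : List (ℕ × List ℕ) :=
  P.map (fun q => (sub1 a b q.1, q.2.map (sub1 a b)))

theorem sub1_eq {f : ℕ → W} {a b : ℕ} (hab : f a = f b) (c : ℕ) : f (sub1 a b c) = f c := by
  unfold sub1
  cases hc : Nat.beq c b
  · rw [cond_false]
  · rw [cond_true, hab, nat_beq hc]

/-- Two labels of the same vertex can be identified. -/
theorem OccL.subst {P : List (ℕ × List ℕ)} {f : ℕ → W} (h : OccL H T P f) {a b : ℕ}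
    (hab : f a = f b) : OccL H T (substP P a b) f := by
  intro q hq
  obtain ⟨p, hp, rfl⟩ := List.mem_map.1 hq
  have h1 := h p hp
  have hd := h1.three
  have h2 : (fun t => f (lab (p.2.map (sub1 a b)) t)) = fun t => f (lab p.2 t) := by
    funext t
    rw [lab_map _ _ _ (by omega), sub1_eq hab]
  change Rotn H T (f (sub1 a b p.1)) (p.2.map (sub1 a b)).length
    (fun t => f (lab (p.2.map (sub1 a b)) t))
  rw [h2, sub1_eq hab, List.length_map]
  exact h1

/-- Equality of lists. -/
def eqL : List ℕ → List ℕ → Bool
  | [], [] => true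
  | a :: l, b :: l' => Nat.beq a b && eqL l l'
  | _, _ => false

theorem eqL_iff : ∀ l l' : List ℕ, eqL l l' = true → l = l'
  | [], [], _ => rfl
  | [], _ :: _, h => by simp [eqL] at h
  | _ :: _, [], h => by simp [eqL] at h
  | a :: l, b :: l', h => by
    rw [eqL, Bool.and_eq_true] at h
    rw [nat_beq h.1, eqL_iff l l' h.2]

/-- The cyclic list `l` started at the place `s`, and reversed. -/
def rotL (l : List ℕ) (s : ℕ) (r : Bool) : List ℕ :=
  bif r then (l.drop s ++ l.take s).reverse else l.drop s ++ l.take s

theorem rotn_drop {l : List ℕ} {s : ℕ} (hs : s ≤ l.length) {x : W} {f : ℕ → W}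
    (h : Rotn H T x l.length (fun t => f (lab l t))) :
    Rotn H T x (l.drop s ++ l.take s).length (fun t => f (lab (l.drop s ++ l.take s) t)) := by
  have hd := h.three
  have hlen : (l.drop s ++ l.take s).length = l.length := by
    rw [List.length_append, List.length_drop, List.length_take]
    omega
  have h1 := h.shift s
  have h2 : (fun t => (fun t => f (lab l t)) (t + s)) =
      fun t => f (lab (l.drop s ++ l.take s) t) := by
    funext t
    change f (lab l (t + s)) = f (lab (l.drop s ++ l.take s) t)
    congr 1
    unfold lab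
    rw [hlen]
    have h3 : t % l.length < l.length := Nat.mod_lt _ (by omega)
    have h4 : (t + s) % l.length = (t % l.length + s) % l.length := by
      rw [Nat.mod_add_mod]
    rw [h4]
    by_cases h5 : t % l.length + s < l.length
    · rw [Nat.mod_eq_of_lt h5, List.getD_append _ _ _ _ (by rw [List.length_drop]; omega),
        List.getD_eq_getElem _ _ h5,
        List.getD_eq_getElem _ _ (by rw [List.length_drop]; omega), List.getElem_drop]
      congr 1
      omega
    · push Not at h5
      have h6 : (t % l.length + s) % l.length = t % l.length + s - l.length := by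
        rw [Nat.mod_eq_sub_mod h5, Nat.mod_eq_of_lt (by omega)]
      rw [h6, List.getD_append_right _ _ _ _ (by rw [List.length_drop]; omega),
        List.getD_eq_getElem _ _ (by omega),
        List.getD_eq_getElem _ _ (by rw [List.length_take, List.length_drop]; omega),
        List.getElem_take]
      congr 1
      rw [List.length_drop]
      omega
  rw [h2, ← hlen] at h1
  exact h1

theorem rotn_reverse {l : List ℕ} {x : W} {f : ℕ → W}
    (h : Rotn H T x l.length (fun t => f (lab l t))) :
    Rotn H T x l.reverse.length (fun t => f (lab l.reverse t)) := by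
  have hd := h.three
  have h1 := (h.shift (l.length - 1)).flip
  have h2 : (fun t => (fun t => (fun t => f (lab l t)) (t + (l.length - 1)))
      (l.length - t % l.length)) = fun t => f (lab l.reverse t) := by
    funext t
    change f (lab l (l.length - t % l.length + (l.length - 1))) = f (lab l.reverse t)
    congr 1
    unfold lab
    rw [List.length_reverse]
    have h3 : t % l.length < l.length := Nat.mod_lt _ (by omega)
    have h4 : (l.length - t % l.length + (l.length - 1)) % l.length =
        l.length - 1 - t % l.length := by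
      rw [show l.length - t % l.length + (l.length - 1) =
        l.length - 1 - t % l.length + l.length by omega, Nat.add_mod_right,
        Nat.mod_eq_of_lt (by omega)]
    rw [h4, List.getD_eq_getElem _ _ (by omega),
      List.getD_eq_getElem _ _ (by rw [List.length_reverse]; exact h3), List.getElem_reverse]
  rw [h2] at h1
  rw [List.length_reverse]
  exact h1

/-- The inner labels of the configuration are closed in the patch, with the same lists: the places
and the directions are given by `cert`. -/
def embedAux (P : List (ℕ × List ℕ)) (mm : List ℕ) : ℕ → List (List ℕ) → List (ℕ × Bool) → Bool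
  | _, [], _ => true
  | i, l :: links, c :: cert =>
    (let q := look P (mm.getD i 0)
     Nat.ble 1 q.length && Nat.ble c.1 q.length &&
      eqL (l.map (fun a => mm.getD a 0)) (rotL q c.1 c.2)) && embedAux P mm (i + 1) links cert
  | _, _ :: _, [] => false

theorem embedAux_iff {P : List (ℕ × List ℕ)} {f : ℕ → W} (h : OccL H T P f) (mm : List ℕ) :
    ∀ (links : List (List ℕ)) (i : ℕ) (cert : List (ℕ × Bool)),
      embedAux P mm i links cert = true → ∀ j, j < links.length →
      Rotn H T (f (mm.getD (i + j) 0)) (lk links j).length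
        (fun t => f (mm.getD (lab (lk links j) t) 0))
  | [], _, _, _, j, hj => by simp at hj
  | l :: links, i, [], hc, _, _ => by simp [embedAux] at hc
  | l :: links, i, c :: cert, hc, j, hj => by
    rw [embedAux, Bool.and_eq_true, Bool.and_eq_true, Bool.and_eq_true] at hc
    obtain ⟨⟨⟨h1, h2⟩, h3⟩, h4⟩ := hc
    rcases j with _ | j
    · have h1' : 1 ≤ (look P (mm.getD i 0)).length := Nat.le_of_ble_eq_true h1
      have h2' : c.1 ≤ (look P (mm.getD i 0)).length := Nat.le_of_ble_eq_true h2
      have hne : look P (mm.getD i 0) ≠ [] := by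
        intro hcon
        rw [hcon] at h1'
        simp at h1'
      have h5 := h _ (look_mem P _ hne)
      change Rotn H T (f (mm.getD i 0)) (look P (mm.getD i 0)).length
        (fun t => f (lab (look P (mm.getD i 0)) t)) at h5
      have h6 : Rotn H T (f (mm.getD i 0)) (rotL (look P (mm.getD i 0)) c.1 c.2).length
          (fun t => f (lab (rotL (look P (mm.getD i 0)) c.1 c.2) t)) := by
        unfold rotL
        cases c.2
        · exact rotn_drop h2' h5
        · exact rotn_reverse (rotn_drop h2' h5)
      rw [← eqL_iff _ _ h3] at h6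
      have hd := h6.three
      rw [List.length_map] at h6 hd
      have h7 : (fun t => f (lab (l.map (fun a => mm.getD a 0)) t)) =
          fun t => f (mm.getD (lab l t) 0) := by
        funext t
        rw [lab_map _ _ _ (by omega)]
      rw [h7] at h6
      exact h6
    · have h5 := embedAux_iff h mm links (i + 1) cert h4 j (by
        simp only [List.length_cons] at hj
        omega)
      rw [show i + 1 + j = i + (j + 1) by omega] at h5
      exact h5

/-- The configuration `links` (lists of the inner labels only) is contained in the patch. -/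
def embedB (P : List (ℕ × List ℕ)) (links : List (List ℕ)) (mm : List ℕ)
    (cert : List (ℕ × Bool)) : Bool := embedAux P mm 0 links cert

theorem OccL.embedF {P : List (ℕ × List ℕ)} {f : ℕ → W} (h : OccL H T P f)
    {links : List (List ℕ)} {mm : List ℕ} {cert : List (ℕ × Bool)}
    (hm : embedB P links mm cert = true) :
    Occ H T links links.length (fun c => f (mm.getD c 0)) := by
  intro i hi
  have h1 := embedAux_iff h mm links 0 cert hm i hi
  rw [Nat.zero_add] at h1
  exact h1

end fast

end Pool.Agent.W986
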