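import Pool.Agent.W986.SubEnv
import Pool.Agent.W986.SubOccFast

/-!
# The ends of a known arc are different

At a vertex `z` the consecutive neighbours `x, k 1, .., k t, y` are known, and the vertices `k i`
belong to the region. If `z` belongs to the region and has degree at least `t + 2`, or if `z` is an
outer vertex, then `x` and `y` are different.
-/

set_option autoImplicit false

open Finset

namespace Pool.Agent.W986

open Pool.Agent.DC76

section arc

variable {V : Type} {S I : Finset V} {G : SimpleGraph V} {T : V → V → V → Prop}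

/-- An outer vertex with an inner neighbour has two different outer neighbours. -/
theorem Region.outer_two (hadj : ∀ x y z, T x y z → G.Adj x y) (R : Region S G T I) {z k : V}
    (hz : z ∉ I) (hk : k ∈ I) (hkz : G.Adj k z) :
    ∃ u v, u ∉ I ∧ v ∉ I ∧ u ≠ v ∧ G.Adj z u ∧ G.Adj z v := by
  rcases R.bdry with ⟨h1, _⟩ | ⟨c, p, hc, hp, hcI, hpI, hcinj, hpinj, hT, hout, _, _⟩
  · exact absurd (h1 k hk z hkz) hz
  · obtain ⟨i, rfl⟩ := hout k hk z hz hkz
    refine ⟨c (i + 1), c (i + 3), hcI _, hcI _, ?_, hadj _ _ _ (hT i), ?_⟩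
    · intro hcon
      have hper : Function.Periodic c 4 := hc
      rw [← hper.map_mod_nat (i + 1), ← hper.map_mod_nat (i + 3)] at hcon
      have h2 := hcinj _ (Nat.mod_lt _ (by omega)) _ (Nat.mod_lt _ (by omega)) hcon
      omega
    · have h2 := hadj _ _ _ (hT (i + 3))
      rw [show i + 3 + 1 = i + 4 by omega, hc] at h2
      exact h2.symm

/-- The ends of a known arc are different. -/
theorem arc_ends_ne (h : TriLoc S G T) (R : Region S G T I) {z : V} {w : ℕ → V} {t : ℕ}
    (ht : 1 ≤ t) (h1 : ∀ i, i ≤ t → T z (w i) (w (i + 1))) (h2 : ∀ i, i < t → w i ≠ w (i + 2))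
    (h3 : ∀ i, 1 ≤ i → i ≤ t → w i ∈ I) (hd : z ∈ I → t + 2 ≤ dgI G I z) :
    w 0 ≠ w (t + 1) := by
  have hz1 : G.Adj z (w 1) := by
    have h4 := h1 1 ht
    exact h.adj _ _ _ h4
  obtain ⟨d, ν, hν⟩ := h.rotation z (h.mem _ _ hz1)
  obtain ⟨μ, hμ, hw⟩ := hν.follow h.adj w (t + 1) (by omega) (fun i hi => h1 i (by omega))
    (fun i hi => h2 i (by omega))
  intro hcon
  have h0 : μ 0 = μ (t + 1) := by rw [hw 0 (by omega), hw (t + 1) (by omega), hcon]
  have hdt : d ≤ t + 1 := by
    by_contra hlt
    have h4 := hμ.inj 0 (by omega) (t + 1) (by omega) h0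
    omega
  by_cases hz : z ∈ I
  · have h4 := hμ.dgI_eq hz
    have h5 := hd hz
    omega
  · obtain ⟨u, v, hu, hv, huv, hzu, hzv⟩ := R.outer_two h.adj hz (h3 1 le_rfl ht) hz1.symm
    have key : ∀ y, G.Adj z y → y ∉ I → y = w 0 := by
      intro y hy hyI
      obtain ⟨j, hj, rfl⟩ := (hμ.adj y).1 hy
      rcases Nat.eq_zero_or_pos j with rfl | hj0
      · exact hw 0 (by omega)
      · rw [hw j (by omega)] at hyI
        exact absurd (h3 j hj0 (by omega)) hyI
    exact huv ((key u hzu hu).trans (key v hzv hv).symm)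

theorem TriLoc.rel (h : TriLoc S G T) : TriRel G T := ⟨h.rot, h.swap, h.adj⟩

/-- The ends of a known arc of a patch are different. -/
theorem OccL.arc_ends_ne {P : List (ℕ × List ℕ)} {f : ℕ → V} (h : TriLoc S G T)
    (R : Region S G T I) (hO : OccL G T P f) (hI : ∀ q ∈ P, f q.1 ∈ I) {w : ℕ} {arc : List ℕ}
    (ha : arcB P w arc = true) (hd : f w ∈ I → arc.length ≤ dgI G I (f w)) :
    f (arc.getD 0 0) ≠ f (arc.getD (arc.length - 1) 0) := by
  rw [arcB, Bool.and_eq_true] at ha
  have h3 : 3 ≤ arc.length := Nat.le_of_ble_eq_true ha.1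
  have hwin : ∀ t, t + 2 < arc.length → _ := fun t ht =>
    hO.window h.rel (arcAux_iff P w arc ha.2 t ht)
  have h4 := Pool.Agent.W986.arc_ends_ne h R (z := f w) (w := fun t => f (arc.getD t 0))
    (t := arc.length - 2) (by omega) ?_ (fun i hi => (hwin i (by omega)).2.2.1) ?_
    (fun hz => by have := hd hz; omega)
  · rw [show arc.length - 2 + 1 = arc.length - 1 by omega] at h4
    exact h4
  · intro i hi
    by_cases h5 : i + 2 < arc.length
    · exact (hwin i h5).1
    · have h6 := (hwin (i - 1) (by omega)).2.1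
      rwa [show i - 1 + 1 = i by omega, show i - 1 + 2 = i + 1 by omega] at h6
  · intro i hi0 hi
    obtain ⟨q, hq, hq1, _⟩ := (hwin (i - 1) (by omega)).2.2.2
    rw [show i - 1 + 1 = i by omega] at hq1
    rw [← hq1]
    exact hI q hq

/-- The patch of the first `a` lists. -/
theorem Occ.toL {H : SimpleGraph V} {T : V → V → V → Prop} {links : List (List ℕ)} {a : ℕ}
    {f : ℕ → V} (h : Occ H T links a f) :
    OccL H T ((List.range a).map fun i => (i, lk links i)) f := by
  intro q hq
  obtain ⟨i, hi, rfl⟩ := List.mem_map.1 hq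
  exact h i (List.mem_range.1 hi)

/-- The ends of a known arc of a configuration are different. -/
theorem Occ.arc_ends_ne {links : List (List ℕ)} {a : ℕ} {f : ℕ → V} (h : TriLoc S G T)
    (R : Region S G T I) (hO : Occ G T links a f) (hI : ∀ i < a, f i ∈ I) {w : ℕ} {arc : List ℕ}
    (ha : arcB ((List.range a).map fun i => (i, lk links i)) w arc = true)
    (hd : f w ∈ I → arc.length ≤ dgI G I (f w)) :
    f (arc.getD 0 0) ≠ f (arc.getD (arc.length - 1) 0) := by
  refine OccL.arc_ends_ne h R hO.toL ?_ ha hd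
  intro q hq
  obtain ⟨i, hi, rfl⟩ := List.mem_map.1 hq
  exact hI i (List.mem_range.1 hi)

end arc

section tree

variable {V : Type} {χ : ℤ} {S I : Finset V} {G : SimpleGraph V} {T : V → V → V → Prop}

theorem ST.Env.Real.arcW_mem {E : ST.Env V} {lk : List (ℕ × List ℕ)} {lb : List (ℕ × ℕ)}
    {f : ℕ → V} (h : E.Real lk lb f) {v : ℕ} {l : List ℕ} {a b : ℕ}
    (h1 : ST.arcW lk v l a b = true) :
    ∀ j, j < l.length → E.I (f (ST.lnth (a :: b :: l) (j + 1))) := by
  induction l generalizing a b with
  | nil => intro j hj; simp at hj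
  | cons c l ih =>
    change ST.cf (ST.scn2 v a c (ST.findL lk b)) (ST.arcW lk v l b c) false = true at h1
    cases h2 : ST.scn2 v a c (ST.findL lk b) with
    | false => rw [h2] at h1; exact absurd h1 Bool.false_ne_true
    | true =>
      rw [h2, ST.cf_true] at h1
      intro j hj
      cases j with
      | zero =>
        have h5 : ST.findL lk b ≠ [] := by
          intro h6
          rw [h6] at h2
          exact absurd h2 Bool.false_ne_true
        exact (h.find h5).1
      | succ j => exact ih h1 j (by simpa using hj)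

/-- The inner labels of a known arc belong to inner vertices. -/
theorem ST.Env.Real.arc_mem {E : ST.Env V} {lk : List (ℕ × List ℕ)} {lb : List (ℕ × ℕ)}
    {f : ℕ → V} (h : E.Real lk lb f) {v : ℕ} {l : List ℕ} (h1 : ST.arcOK lk v l = true) :
    ∀ j, j + 2 < l.length → E.I (f (ST.lnth l (j + 1))) := by
  rcases l with _ | ⟨a, _ | ⟨b, l⟩⟩
  · exact absurd h1 Bool.false_ne_true
  · exact absurd h1 Bool.false_ne_true
  · intro j hj
    exact h.arcW_mem h1 j (by simpa using hj)

/-- The ends of a known arc of a realised patch are different. -/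
theorem ST.Env.Real.arc_ends_ne (hT : TriOn χ S G T) (R : Region S G T I) (s : ℤ)
    {lk : List (ℕ × List ℕ)} {lb : List (ℕ × ℕ)} {f : ℕ → V}
    (hf : (regEnv hT R s).Real lk lb f) {v : ℕ} {l : List ℕ} (h1 : ST.arcOK lk v l = true)
    (hl : 3 ≤ l.length) (hd : l.length ≤ dgI G I (f v)) :
    f (ST.lnth l 0) ≠ f (ST.lnth l (l.length - 1)) := by
  have harc := hf.arc h1
  have h4 := Pool.Agent.W986.arc_ends_ne hT.toTriLoc R (z := f v)
    (w := fun t => f (ST.lnth l t)) (t := l.length - 2) (by omega) ?_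
    (fun i hi => (harc i (by omega)).2.2) ?_ (fun _ => by omega)
  · rw [show l.length - 2 + 1 = l.length - 1 by omega] at h4
    exact h4
  · intro i hi
    by_cases h5 : i + 2 < l.length
    · exact (harc i h5).1
    · have h6 := (harc (i - 1) (by omega)).2.1
      rwa [show i - 1 + 1 = i by omega, show i - 1 + 2 = i + 1 by omega] at h6
  · intro i hi0 hi
    have h6 := hf.arc_mem h1 (i - 1) (by omega)
    rw [show i - 1 + 1 = i by omega] at h6
    exact h6

end tree

end Pool.Agent.W986
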