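import Pool.Agent.W986.SubCheckK
import Pool.Agent.W986.SubFast47

/-!
# Configurations: soundness of the fast check
-/

set_option autoImplicit false

namespace Pool.Agent.W986

namespace SubF

/-! ### Lists and bits -/

theorem nbr_iff (i r : ℕ) (l : List (ℕ × ℕ)) : i ∈ nbr r l ↔ (i, r) ∈ l := by
  induction l with
  | nil => simp [nbr]
  | cons p l ih =>
    obtain ⟨p1, p2⟩ := p
    rw [nbr, List.mem_cons, Prod.mk.injEq]
    change i ∈ (bif Nat.beq p2 r then p1 :: nbr r l else nbr r l) ↔ _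
    cases h : Nat.beq p2 r with
    | true =>
      have h1 := (CData.beq_iff _ _).1 h
      rw [cond_true, List.mem_cons, ih, h1]
      simp
    | false =>
      have h1 := (CData.beq_false_iff _ _).1 h
      rw [cond_false, ih]
      constructor
      · exact Or.inr
      · rintro (⟨-, h2⟩ | h2)
        · exact absurd h2.symm h1
        · exact h2

theorem mem_inter (x : ℕ) (l l' : List ℕ) (h : x ∈ l) (h' : x ∈ l') : x ∈ inter l l' := by
  induction l' with
  | nil => simp at h'
  | cons y l' ih =>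
    rw [inter]
    cases hy : mem1 y l with
    | true =>
      rw [cond_true, List.mem_cons]
      rcases List.mem_cons.1 h' with h1 | h1
      · exact Or.inl h1
      · exact Or.inr (ih h1)
    | false =>
      rw [cond_false]
      rcases List.mem_cons.1 h' with h1 | h1
      · rw [← h1, (mem1_iff x l).2 h] at hy
        exact absurd hy (by decide)
      · exact ih h1

theorem anyT_iff {α : Type} (f : α → Bool) (l : List α) :
    anyT f l = true ↔ ∃ x ∈ l, f x = true := by
  induction l with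
  | nil => simp [anyT]
  | cons y l ih =>
    rw [anyT]
    cases h : f y with
    | true => simp [h]
    | false => simp [h, ih]

theorem sel4_eq (t x0 x1 x2 x3 : ℕ) (f : ℕ → ℕ) (ht : t < 4) (h0 : f 0 = x0) (h1 : f 1 = x1)
    (h2 : f 2 = x2) (h3 : f 3 = x3) : sel4 t x0 x1 x2 x3 = f t := by
  subst h0 h1 h2 h3
  interval_cases t <;> rfl

theorem testBit_kill (A X i : ℕ) : (kill A X).testBit i = (A.testBit i && !X.testBit i) := by
  change (A ^^^ (A &&& X)).testBit i = _
  rw [Nat.testBit_xor, Nat.testBit_and]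
  cases A.testBit i <;> cases X.testBit i <;> rfl

theorem testBit_lor (x y i : ℕ) :
    (Nat.lor x y).testBit i = true ↔ x.testBit i = true ∨ y.testBit i = true := by
  change (x ||| y).testBit i = true ↔ _
  rw [Nat.testBit_or, Bool.or_eq_true]

theorem testBit_land (x y i : ℕ) :
    (Nat.land x y).testBit i = true ↔ x.testBit i = true ∧ y.testBit i = true := by
  change (x &&& y).testBit i = true ↔ _
  rw [Nat.testBit_and, Bool.and_eq_true]

theorem testBit_same (cc : ℕ → ℕ) (h : ∀ j, cc j < 4) (N i j : ℕ) (hi : i < N) (hj : j < N) :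
    (same N i j).testBit (senc cc N) = true ↔ cc i = cc j := by
  rw [same]
  simp only [testBit_lor, testBit_land, testBit_msk cc h N i _ hi (show 0 < 4 by omega),
    testBit_msk cc h N j _ hj (show 0 < 4 by omega), testBit_msk cc h N i _ hi (show 1 < 4 by omega),
    testBit_msk cc h N j _ hj (show 1 < 4 by omega), testBit_msk cc h N i _ hi (show 2 < 4 by omega),
    testBit_msk cc h N j _ hj (show 2 < 4 by omega), testBit_msk cc h N i _ hi (show 3 < 4 by omega),
    testBit_msk cc h N j _ hj (show 3 < 4 by omega), decide_eq_true_iff]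
  have h1 := h i
  have h2 := h j
  omega

theorem senc_congr (cc cc' : ℕ → ℕ) (n : ℕ) (h : ∀ x, x < n → cc x = cc' x) :
    senc cc n = senc cc' n := by
  induction n with
  | zero => rfl
  | succ n ih => rw [senc, senc, ih fun x hx => h x (by omega), h n (by omega)]

theorem senc_add (cc : ℕ → ℕ) (n m : ℕ) :
    senc cc (n + m) = senc cc n + 4 ^ n * senc (fun x => cc (n + x)) m := by
  induction m with
  | zero => simp [senc]
  | succ m ih =>
    rw [← add_assoc, senc, ih, senc, pow_add]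
    ring

theorem sdg_senc (cc : ℕ → ℕ) (h : ∀ j, cc j < 4) (n x : ℕ) (hx : x < n) :
    sdg (senc cc n) x = cc x := by
  induction n with
  | zero => omega
  | succ n ih =>
    have h1 := senc_lt cc h n
    by_cases hn : x = n
    · subst hn
      rw [sdg_eq, senc, Nat.add_mul_div_left _ _ (by positivity), Nat.div_eq_of_lt h1, zero_add,
        Nat.mod_eq_of_lt (h x)]
    · rw [← ih (by omega), ← sdg_mod (senc cc (n + 1)) n x (by omega), senc,
        Nat.add_mul_mod_self_left, Nat.mod_eq_of_lt h1]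

theorem senc_sdg (t a : ℕ) (ht : t < 4 ^ a) : senc (sdg t) a = t := by
  have h : ∀ n, senc (sdg t) n = t % 4 ^ n := by
    intro n
    induction n with
    | zero => simp [senc, Nat.mod_one]
    | succ n ih => rw [senc, ih, sdg_eq, ← Nat.mod_mul, ← pow_succ]
  rw [h, Nat.mod_eq_of_lt ht]

theorem testBit_foldD (qq a X e : ℕ) (h : (foldD qq a X).testBit e = true) :
    ∃ t < 4 ^ a, X.testBit (e + 4 ^ qq * t) = true := by
  induction a generalizing X with
  | zero => exact ⟨0, by simp, by simpa [foldD] using h⟩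
  | succ a ih =>
    rw [foldD] at h
    obtain ⟨t, ht, h1⟩ := ih _ h
    rw [testBit_land] at h1
    obtain ⟨h1, h2⟩ := h1
    rw [testBit_fullSet, decide_eq_true_iff] at h2
    have h3 : ∃ s < 4, X.testBit (e + 4 ^ qq * t + s * 4 ^ (qq + a)) = true := by
      rw [testBit_lor, testBit_lor, testBit_lor] at h1
      rcases h1 with (h1 | h1) | (h1 | h1)
      · exact ⟨0, by omega, by simpa using h1⟩
      · refine ⟨1, by omega, ?_⟩
        change (X >>> (4 ^ (qq + a))).testBit _ = true at h1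
        rw [Nat.testBit_shiftRight] at h1
        rw [one_mul, add_comm]
        exact h1
      · refine ⟨2, by omega, ?_⟩
        change (X >>> (2 * 4 ^ (qq + a))).testBit _ = true at h1
        rw [Nat.testBit_shiftRight] at h1
        rw [add_comm]
        exact h1
      · refine ⟨3, by omega, ?_⟩
        change (X >>> (3 * 4 ^ (qq + a))).testBit _ = true at h1
        rw [Nat.testBit_shiftRight] at h1
        rw [add_comm]
        exact h1
    obtain ⟨s, hs, h3⟩ := h3
    refine ⟨t + s * 4 ^ a, ?_, ?_⟩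
    · have : s * 4 ^ a ≤ 3 * 4 ^ a := Nat.mul_le_mul_right _ (by omega)
      rw [pow_succ]
      omega
    · have h4 : e + 4 ^ qq * (t + s * 4 ^ a) = e + 4 ^ qq * t + s * 4 ^ (qq + a) := by
        rw [pow_add]
        ring
      rw [h4]
      exact h3

theorem four_spec (br : ℕ → ℕ → Bool) (u : ℕ) (hu : u ≤ 4) (h : four br u = true) (t : ℕ)
    (ht : t < 4) (htu : t ≤ u) : ∃ u' ≤ 4, u ≤ u' ∧ t < u' ∧ br t u' = true := by
  have h0 : br 0 (bif Nat.beq 0 u then 1 else u) = true := by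
    rw [four] at h
    cases h' : br 0 (bif Nat.beq 0 u then 1 else u) with
    | true => rfl
    | false =>
      rw [h', cond_false] at h
      exact h
  rw [four, h0, cond_true] at h
  by_cases hu0 : u = 0
  · subst hu0
    obtain rfl : t = 0 := by omega
    exact ⟨1, by omega, by omega, by omega, h0⟩
  have e0 : Nat.beq 0 u = false := (CData.beq_false_iff _ _).2 (Ne.symm hu0)
  rw [e0, cond_false] at h0
  have e0' : Nat.ble u 0 = false := by
    rw [← Bool.not_eq_true, CData.ble_iff]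
    omega
  rw [e0', cond_false] at h
  have h1 : br 1 (bif Nat.beq 1 u then 2 else u) = true := by
    cases h' : br 1 (bif Nat.beq 1 u then 2 else u) with
    | true => rfl
    | false =>
      rw [h', cond_false] at h
      exact h
  rw [h1, cond_true] at h
  by_cases ht0 : t = 0
  · subst ht0
    exact ⟨u, hu, le_rfl, by omega, h0⟩
  by_cases hu1 : u = 1
  · subst hu1
    obtain rfl : t = 1 := by omega
    exact ⟨2, by omega, by omega, by omega, h1⟩
  have e1 : Nat.beq 1 u = false := (CData.beq_false_iff _ _).2 (Ne.symm hu1)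
  rw [e1, cond_false] at h1
  have e1' : Nat.ble u 1 = false := by
    rw [← Bool.not_eq_true, CData.ble_iff]
    omega
  rw [e1', cond_false] at h
  have h2 : br 2 (bif Nat.beq 2 u then 3 else u) = true := by
    cases h' : br 2 (bif Nat.beq 2 u then 3 else u) with
    | true => rfl
    | false =>
      rw [h', cond_false] at h
      exact h
  rw [h2, cond_true] at h
  by_cases ht1 : t = 1
  · subst ht1
    exact ⟨u, hu, le_rfl, by omega, h1⟩
  by_cases hu2 : u = 2
  · subst hu2
    obtain rfl : t = 2 := by omega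
    exact ⟨3, by omega, by omega, by omega, h2⟩
  have e2 : Nat.beq 2 u = false := (CData.beq_false_iff _ _).2 (Ne.symm hu2)
  rw [e2, cond_false] at h2
  have e2' : Nat.ble u 2 = false := by
    rw [← Bool.not_eq_true, CData.ble_iff]
    omega
  rw [e2', cond_false] at h
  by_cases ht2 : t = 2
  · subst ht2
    exact ⟨u, hu, le_rfl, by omega, h2⟩
  obtain rfl : t = 3 := by omega
  exact ⟨4, le_rfl, hu, by omega, h⟩

/-- The colouring of the places: the classes from `P` on, and the inner vertices. -/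
def glue (P qq : ℕ) (cc d : ℕ → ℕ) (x : ℕ) : ℕ := if x < qq then cc (P + x) else d (x - qq)

theorem glue_lt (P qq : ℕ) (cc d : ℕ → ℕ) (h1 : ∀ x, cc x < 4) (h2 : ∀ x, d x < 4) (x : ℕ) :
    glue P qq cc d x < 4 := by
  rw [glue]
  split_ifs
  · exact h1 _
  · exact h2 _

theorem glue_add (P qq : ℕ) (cc d : ℕ → ℕ) (i : ℕ) : glue P qq cc d (qq + i) = d i := by
  rw [glue, if_neg (by omega)]
  congr 1
  omega

theorem glue_sub (P qq : ℕ) (cc d : ℕ → ℕ) (A : ℕ) (h1 : P ≤ A) (h2 : A < P + qq) :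
    glue P qq cc d (A - P) = cc A := by
  rw [glue, if_pos (by omega)]
  congr 1
  omega

end SubF

open SubF

namespace KData

variable (D : KData) (F : FData)

/-- The contents of `wfF`. -/
structure WfF (D : KData) (F : FData) : Prop where
  k_eq : F.P + F.qq = D.k
  len : F.rows.length = F.P
  q_lt : ∀ r, r < D.L → D.q r < D.k
  rng : ∀ r s, (r, s) ∈ D.rng → r < D.L ∧ s < D.L
  chq : ∀ A B, (A, B) ∈ D.chq → A < D.k ∧ B < D.k
  inn : ∀ i j, (i, j) ∈ D.inn → i < D.a ∧ j < D.a ∧ (j, i) ∈ D.inn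
  mix : ∀ i r, (i, r) ∈ D.mix → i < D.a ∧ r < D.L
  rows : D.rowsOk F 0 F.rows = true
  leaf : ∀ t ∈ F.leaf, D.tOk t = true
  cover : ∀ r, r < D.L → F.P ≤ D.q r ∨ ∃ row ∈ F.rows, r ∈ row.ap
  pv : ∀ i r r', (i, r) ∈ D.mix → (i, r') ∈ D.mix → r < r' →
    F.P ≤ D.q r ∨ F.P ≤ D.q r' ∨ r' ∈ nthL F.pv r ∨ r ∈ nthL F.pv r'

theorem wfF_iff (h : D.wfF F = true) : WfF D F := by
  unfold wfF at h
  simp only [Bool.and_eq_true, all2_iff, CData.blt_iff, CData.ble_iff, CData.beq_iff, mem1_iff,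
    mem2_iff, List.all_eq_true, List.any_eq_true, List.mem_range, Bool.or_eq_true] at h
  obtain ⟨⟨⟨⟨⟨⟨⟨⟨⟨⟨h1, h2⟩, h3⟩, h4⟩, h5⟩, h6⟩, h7⟩, h8⟩, h9⟩, h10⟩, h11⟩ := h
  refine ⟨h1, h2, h3, fun r s h => h4 r s h, fun A B h => h5 A B h, fun i j h => ?_,
    fun i r h => h7 i r h, h8, h9, h10, ?_⟩
  · obtain ⟨⟨a, b⟩, c⟩ := h6 i j h
    exact ⟨a, b, c⟩
  · intro i r r' hir hir' hrr'
    have h := h11 i r hir i r' hir'
    rw [(CData.beq_iff i i).2 rfl, (CData.blt_iff r r').2 hrr', cond_true, cond_true] at h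
    simp only [Bool.or_eq_true, CData.ble_iff, mem1_iff] at h
    tauto

/-- The ring vertex `r` may be saturated. -/
def SatP (p : List ℕ) (cc : ℕ → ℕ) (r : ℕ) : Prop :=
  r ∈ p ∧ ∀ B, (D.q r, B) ∈ D.chq → cc (D.q r) ≠ cc B

/-- The conditions at the ring vertex `r`. -/
def Cond (p : List ℕ) (cc d : ℕ → ℕ) (r : ℕ) : Prop :=
  (∀ i, (i, r) ∈ D.mix → d i ≠ cc (D.q r)) ∨
    (¬ D.SatP p cc r ∧
      (∀ i i', (i, r) ∈ D.mix → (i', r) ∈ D.mix → i ≠ i' →
        ¬ (d i = cc (D.q r) ∧ d i' = cc (D.q r))) ∧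
      (∀ i j, (i, r) ∈ D.mix → (j, i) ∈ D.inn → ¬ (d i = cc (D.q r) ∧ d j = cc (D.q r))) ∧
      ∀ r' ∈ nthL F.pv r, ∀ i, (i, r) ∈ D.mix → (i, r') ∈ D.mix →
        ¬ (cc (D.q r') = cc (D.q r) ∧ d i = cc (D.q r)))

/-- The conditions which do not depend on the first classes. -/
def Stat (cc d : ℕ → ℕ) : Prop :=
  (∀ i j j', (i, j) ∈ D.inn → (i, j') ∈ D.inn → j < j' → ¬ (d i = d j ∧ d i = d j')) ∧
    ∀ i r, (i, r) ∈ D.mix → F.P ≤ D.q r → d i ≠ cc (D.q r)

/-- The colouring of the classes is possible. -/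
structure Poss (p : List ℕ) (cc : ℕ → ℕ) : Prop where
  a : ∀ r s, (r, s) ∈ D.rng → r ∉ p → cc (D.q r) ≠ cc (D.q s)
  b : ∀ r s s', (r, s) ∈ D.rng → (r, s') ∈ D.rng → s ≠ s' →
    ¬ (cc (D.q r) = cc (D.q s) ∧ cc (D.q r) = cc (D.q s'))
  c : ∀ A B B', (A, B) ∈ D.chq → (A, B') ∈ D.chq → B ≠ B' → ¬ (cc A = cc B ∧ cc A = cc B')
  d : ∀ A B r s, (A, B) ∈ D.chq → (r, s) ∈ D.rng → A = D.q r →
    ¬ (cc A = cc B ∧ cc (D.q r) = cc (D.q s))

/-- The number of a colouring of the places. -/
def num (cc d : ℕ → ℕ) : ℕ := senc (glue F.P F.qq cc d) (F.qq + D.a)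

variable {D F}

section bits

variable {cc d : ℕ → ℕ} (hc : ∀ x, cc x < 4) (hd : ∀ x, d x < 4)

include hc hd

theorem bit_inner {i t : ℕ} (hi : i < D.a) (ht : t < 4) :
    (msk (F.qq + D.a) (F.qq + i) t).testBit (D.num F cc d) = true ↔ d i = t := by
  rw [num, testBit_msk _ (glue_lt F.P F.qq cc d hc hd) _ _ _ (by omega) ht, decide_eq_true_iff,
    glue_add]

theorem bit_K1 {t i : ℕ} {l : List ℕ} (hi : i ∈ l) (hia : i < D.a) (ht : t < 4) (hdi : d i = t) :
    (K1 F (F.qq + D.a) t l).testBit (D.num F cc d) = true := by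
  rw [K1, testBit_or1]
  exact ⟨i, hi, (bit_inner hc hd hia ht).2 hdi⟩

theorem bit_K2 {t : ℕ} {l : List ℕ} (ht : t < 4) : ∀ i ∈ l, ∀ i' ∈ l, i ≠ i' → i < D.a → i' < D.a →
    d i = t → d i' = t → (K2 F (F.qq + D.a) t l).testBit (D.num F cc d) = true := by
  induction l with
  | nil => simp
  | cons x l ih =>
    intro i hi i' hi' hne hia hia' h1 h2
    rw [K2, testBit_lor, testBit_land]
    rcases List.mem_cons.1 hi with e | g
    · rcases List.mem_cons.1 hi' with e' | g'
      · exact absurd (e.trans e'.symm) hne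
      · subst e
        exact Or.inl ⟨(bit_inner hc hd hia ht).2 h1, bit_K1 hc hd g' hia' ht h2⟩
    · rcases List.mem_cons.1 hi' with e' | g'
      · subst e'
        exact Or.inl ⟨(bit_inner hc hd hia' ht).2 h2, bit_K1 hc hd g hia ht h1⟩
      · exact Or.inr (ih i g i' g' hne hia hia' h1 h2)

theorem bit_KV {t i j : ℕ} {l : List ℕ} (hi : i ∈ l) (hia : i < D.a) (hja : j < D.a)
    (hj : (j, i) ∈ D.inn) (ht : t < 4) (h1 : d i = t) (h2 : d j = t) :
    (KV D F (F.qq + D.a) t l).testBit (D.num F cc d) = true := by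
  rw [KV, testBit_or1]
  refine ⟨i, hi, ?_⟩
  rw [testBit_land]
  exact ⟨(bit_inner hc hd hia ht).2 h1, bit_K1 hc hd ((nbr_iff _ _ _).2 hj) hja ht h2⟩

/-- One ring vertex. -/
theorem cond_of_kill (W : WfF D F) {p : List ℕ} {n w r A : ℕ} (hr : D.aOk F n r = true)
    (hw : w = senc cc (n + 1))
    (h : (kill A (sel4 (sdg w (D.q r)) (appK D F (F.qq + D.a) p w r 0)
      (appK D F (F.qq + D.a) p w r 1) (appK D F (F.qq + D.a) p w r 2)
      (appK D F (F.qq + D.a) p w r 3))).testBit (D.num F cc d) = true) :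
    A.testBit (D.num F cc d) = true ∧ D.Cond F p cc d r := by
  unfold aOk at hr
  simp only [Bool.and_eq_true, List.all_eq_true, CData.ble_iff, mem2_iff] at hr
  obtain ⟨⟨hr1, hr2⟩, hr3⟩ := hr
  have hdg : ∀ x, x ≤ n → sdg w x = cc x := by
    intro x hx
    rw [hw]
    exact sdg_senc cc hc (n + 1) x (by omega)
  rw [hdg _ hr1, testBit_kill, Bool.and_eq_true, Bool.not_eq_true'] at h
  obtain ⟨h1, h2⟩ := h
  refine ⟨h1, ?_⟩
  have ht := hc (D.q r)
  rw [sel4_eq (cc (D.q r)) _ _ _ _ (fun t => appK D F (F.qq + D.a) p w r t) ht rfl rfl rfl rfl] at h2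
  have hm : ∀ i, (i, r) ∈ D.mix → i < D.a := fun i h => (W.mix i r h).1
  rw [appK] at h2
  cases hs : satq F p w r (cc (D.q r)) with
  | true =>
    rw [hs, cond_true] at h2
    left
    intro i hi hdi
    rw [bit_K1 hc hd ((nbr_iff _ _ _).2 hi) (hm i hi) ht hdi] at h2
    exact absurd h2 (by decide)
  | false =>
    rw [hs, cond_false] at h2
    right
    have hK0 : ∀ x : Prop, (x → (K0 D F (F.qq + D.a) w r (cc (D.q r))).testBit (D.num F cc d) =
        true) → ¬ x := by
      intro x hx h3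
      rw [hx h3] at h2
      exact absurd h2 (by decide)
    refine ⟨?_, ?_, ?_, ?_⟩
    · rintro ⟨hp, hch⟩
      rw [satq, (mem1_iff _ _).2 hp, cond_true, Bool.not_eq_false', anyT_iff] at hs
      obtain ⟨B, hB, hB'⟩ := hs
      rw [hdg _ (hr3 B hB).2, CData.beq_iff] at hB'
      exact hch B (hr3 B hB).1 hB'.symm
    · intro i i' hi hi' hne
      apply hK0
      rintro ⟨e1, e2⟩
      rw [K0, testBit_lor, testBit_lor]
      exact Or.inl (Or.inl (bit_K2 hc hd ht i ((nbr_iff _ _ _).2 hi) i' ((nbr_iff _ _ _).2 hi') hne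
        (hm i hi) (hm i' hi') e1 e2))
    · intro i j hi hj
      apply hK0
      rintro ⟨e1, e2⟩
      rw [K0, testBit_lor, testBit_lor]
      exact Or.inl (Or.inr (bit_KV hc hd ((nbr_iff _ _ _).2 hi) (hm i hi) (W.inn j i hj).1 hj ht
        e1 e2))
    · intro r' hr' i hi hi'
      apply hK0
      rintro ⟨e1, e2⟩
      rw [K0, testBit_lor, testBit_or1]
      refine Or.inr ⟨r', hr', ?_⟩
      rw [hdg _ (hr2 r' hr'), (CData.beq_iff _ _).2 e1, cond_true]
      exact bit_K1 hc hd (mem_inter i _ _ ((nbr_iff _ _ _).2 hi) ((nbr_iff _ _ _).2 hi')) (hm i hi)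
        ht e2

theorem conds_of_appl (W : WfF D F) {p : List ℕ} {n w : ℕ} (hw : w = senc cc (n + 1))
    (l : List ℕ) : ∀ A, (∀ r ∈ l, D.aOk F n r = true) →
    (D.appl F (F.qq + D.a) p w l A).testBit (D.num F cc d) = true →
    A.testBit (D.num F cc d) = true ∧ ∀ r ∈ l, D.Cond F p cc d r := by
  induction l with
  | nil =>
    intro A _ h
    exact ⟨h, by simp⟩
  | cons r l ih =>
    intro A hl h
    rw [appl] at h
    obtain ⟨h1, h2⟩ := ih _ (fun r hr => hl r (List.mem_cons_of_mem _ hr)) h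
    obtain ⟨h3, h4⟩ := cond_of_kill hc hd W (hl r List.mem_cons_self) hw h1
    refine ⟨h3, fun r' hr' => ?_⟩
    rcases List.mem_cons.1 hr' with rfl | hr'
    · exact h4
    · exact h2 r' hr'

/-- The start. -/
theorem stat_of_A0 (W : WfF D F) (h : (D.A0 F).testBit (D.num F cc d) = true) :
    D.Stat F cc d := by
  rw [A0, testBit_kill, Bool.and_eq_true, Bool.not_eq_true'] at h
  obtain ⟨-, h⟩ := h
  have hx : ∀ x : Prop, (x → (Nat.lor
    (or2 (fun i j => or2 (fun i' j' => bif (bif Nat.beq i i' then Nat.blt j j' else false) then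
      Nat.land (same (F.qq + D.a) (F.qq + i) (F.qq + j))
        (same (F.qq + D.a) (F.qq + i) (F.qq + j')) else 0) D.inn) D.inn)
    (or2 (fun i r => bif Nat.blt (D.q r) F.P then 0 else
      same (F.qq + D.a) (F.qq + i) (D.q r - F.P)) D.mix)).testBit (D.num F cc d) = true) →
      ¬ x := by
    intro x hx h3
    rw [hx h3] at h
    exact absurd h (by decide)
  have hg := glue_lt F.P F.qq cc d hc hd
  constructor
  · intro i j j' hij hij' hjj'
    apply hx
    rintro ⟨e1, e2⟩
    rw [testBit_lor]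
    left
    rw [testBit_or2]
    refine ⟨i, j, hij, ?_⟩
    rw [testBit_or2]
    refine ⟨i, j', hij', ?_⟩
    rw [(CData.beq_iff i i).2 rfl, cond_true, (CData.blt_iff j j').2 hjj', cond_true, testBit_land]
    have h1 := W.inn i j hij
    have h2 := W.inn i j' hij'
    rw [num, testBit_same _ hg _ _ _ (by omega) (by omega),
      testBit_same _ hg _ _ _ (by omega) (by omega), glue_add, glue_add, glue_add]
    exact ⟨e1, e2⟩
  · intro i r hir hP
    apply hx
    intro e
    rw [testBit_lor]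
    right
    rw [testBit_or2]
    refine ⟨i, r, hir, ?_⟩
    have h1 := W.mix i r hir
    have h2 := W.q_lt r h1.2
    have h3 := W.k_eq
    rw [(CData.blt_false_iff _ _).2 (by omega), cond_false, num,
      testBit_same _ hg _ _ _ (by omega) (by omega), glue_add, glue_sub _ _ _ _ _ hP (by omega)]
    exact e

end bits

/-- Equality of two classes at the end. -/
theorem eqm_sound (W : WfF D F) {cc : ℕ → ℕ} (hc : ∀ x, cc x < 4) {A B w : ℕ} (hA : A < D.k)
    (hB : B < D.k) (hw : w = senc cc F.P)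
    (h : (eqm F w A B).testBit (senc (fun x => cc (F.P + x)) F.qq) = true) : cc A = cc B := by
  have hk := W.k_eq
  have hdg : ∀ x, x < F.P → sdg w x = cc x := by
    intro x hx
    rw [hw]
    exact sdg_senc cc hc F.P x hx
  have hm : ∀ x t, ¬ x < F.P → x < D.k → t < 4 →
      (msk F.qq (x - F.P) t).testBit (senc (fun x => cc (F.P + x)) F.qq) = true → cc x = t := by
    intro x t h1 h2 ht h3
    rw [testBit_msk (fun x => cc (F.P + x)) (fun x => hc _) _ _ _ (by omega) ht,
      decide_eq_true_iff] at h3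
    have h4 : F.P + (x - F.P) = x := by omega
    rw [h4] at h3
    exact h3
  rw [eqm] at h
  cases h1 : Nat.blt A F.P with
  | true =>
    have h1' := (CData.blt_iff _ _).1 h1
    rw [h1, cond_true] at h
    cases h2 : Nat.blt B F.P with
    | true =>
      have h2' := (CData.blt_iff _ _).1 h2
      rw [h2, cond_true] at h
      cases h3 : eqc w A B with
      | true =>
        rw [eqc, CData.beq_iff, hdg _ h1', hdg _ h2'] at h3
        exact h3
      | false =>
        rw [h3, cond_false, Nat.zero_testBit] at h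
        exact absurd h (by decide)
    | false =>
      have h2' := (CData.blt_false_iff _ _).1 h2
      rw [h2, cond_false, hdg _ h1',
        sel4_eq (cc A) _ _ _ _ (fun t => msk F.qq (B - F.P) t) (hc A) rfl rfl rfl rfl] at h
      exact (hm B _ h2' hB (hc A) h).symm
  | false =>
    have h1' := (CData.blt_false_iff _ _).1 h1
    rw [h1, cond_false] at h
    cases h2 : Nat.blt B F.P with
    | true =>
      have h2' := (CData.blt_iff _ _).1 h2
      rw [h2, cond_true, hdg _ h2',
        sel4_eq (cc B) _ _ _ _ (fun t => msk F.qq (A - F.P) t) (hc B) rfl rfl rfl rfl] at h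
      exact hm A _ h1' hA (hc B) h
    | false =>
      have h2' := (CData.blt_false_iff _ _).1 h2
      rw [h2, cond_false, testBit_same (fun x => cc (F.P + x)) (fun x => hc _) _ _ _ (by omega)
        (by omega)] at h
      have h4 : F.P + (A - F.P) = A := by omega
      have h5 : F.P + (B - F.P) = B := by omega
      rw [h4, h5] at h
      exact h

theorem testBit_orT (f : Tst → ℕ) (l : List Tst) (i : ℕ) :
    (orT f l).testBit i = true ↔ ∃ x ∈ l, (f x).testBit i = true := by
  induction l with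
  | nil => simp [orT]
  | cons y l ih =>
    rw [orT, testBit_lor, ih]
    simp

/-- The end of the search. -/
theorem leaf_sound (W : WfF D F) {p : List ℕ} {cc : ℕ → ℕ} (hc : ∀ x, cc x < 4) {w A : ℕ}
    (hw : w = senc cc F.P) (hP : D.Poss p cc) (h : D.leafOk F p w A = true) :
    ∃ d : ℕ → ℕ, (∀ x, d x < 4) ∧ A.testBit (D.num F cc d) = true := by
  rw [leafOk, CData.beq_iff] at h
  have he : senc (fun x => cc (F.P + x)) F.qq < 4 ^ F.qq := senc_lt _ (fun x => hc _) _
  have h1 : (fullSet F.qq).testBit (senc (fun x => cc (F.P + x)) F.qq) = true := by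
    rw [testBit_fullSet, decide_eq_true_iff]
    exact he
  rw [← h, testBit_lor] at h1
  rcases h1 with h1 | h1
  · obtain ⟨t, ht, h2⟩ := testBit_foldD _ _ _ _ h1
    refine ⟨sdg t, fun x => CData.sdg_lt t x, ?_⟩
    have h3 : D.num F cc (sdg t) = senc (fun x => cc (F.P + x)) F.qq + 4 ^ F.qq * t := by
      rw [num, senc_add]
      congr 1
      · apply senc_congr
        intro x hx
        rw [glue, if_pos hx]
      · congr 1
        rw [← senc_sdg t D.a ht]
        apply senc_congr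
        intro x _
        rw [glue_add, senc_sdg t D.a ht]
    rw [h3]
    exact h2
  · exfalso
    rw [testBit_orT] at h1
    obtain ⟨t, ht, h1⟩ := h1
    have hok := W.leaf t ht
    cases t with
    | a r s =>
      rw [tOk, mem2_iff] at hok
      have hb := W.rng r s hok
      rw [hm] at h1
      cases hp : mem1 r p with
      | true =>
        rw [hp, cond_true, Nat.zero_testBit] at h1
        exact absurd h1 (by decide)
      | false =>
        rw [hp, cond_false] at h1
        refine hP.a r s hok ?_ (eqm_sound W hc (W.q_lt _ hb.1) (W.q_lt _ hb.2) hw h1)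
        intro h3
        rw [(mem1_iff _ _).2 h3] at hp
        exact absurd hp (by decide)
    | b r s s' =>
      rw [tOk, Bool.and_eq_true, Bool.and_eq_true, mem2_iff, mem2_iff, Bool.not_eq_true',
        CData.beq_false_iff] at hok
      obtain ⟨⟨h2, h3⟩, h4⟩ := hok
      have hb := W.rng r s h2
      have hb' := W.rng r s' h3
      rw [hm, testBit_land] at h1
      exact hP.b r s s' h2 h3 h4 ⟨eqm_sound W hc (W.q_lt _ hb.1) (W.q_lt _ hb.2) hw h1.1,
        eqm_sound W hc (W.q_lt _ hb.1) (W.q_lt _ hb'.2) hw h1.2⟩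
    | c A B B' =>
      rw [tOk, Bool.and_eq_true, Bool.and_eq_true, mem2_iff, mem2_iff, Bool.not_eq_true',
        CData.beq_false_iff] at hok
      obtain ⟨⟨h2, h3⟩, h4⟩ := hok
      have hb := W.chq A B h2
      have hb' := W.chq A B' h3
      rw [hm, testBit_land] at h1
      exact hP.c A B B' h2 h3 h4 ⟨eqm_sound W hc hb.1 hb.2 hw h1.1,
        eqm_sound W hc hb.1 hb'.2 hw h1.2⟩
    | d A B r s =>
      rw [tOk, Bool.and_eq_true, Bool.and_eq_true, mem2_iff, mem2_iff, CData.beq_iff] at hok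
      obtain ⟨⟨h2, h3⟩, h4⟩ := hok
      have hb := W.chq A B h2
      have hb' := W.rng r s h3
      rw [hm, testBit_land] at h1
      exact hP.d A B r s h2 h3 h4 ⟨eqm_sound W hc hb.1 hb.2 hw h1.1,
        eqm_sound W hc (W.q_lt _ hb'.1) (W.q_lt _ hb'.2) hw h1.2⟩

/-- A test which holds contradicts the possibility. -/
theorem hold_sound {p : List ℕ} {cc : ℕ → ℕ} (hc : ∀ x, cc x < 4) {n w : ℕ}
    (hw : w = senc cc (n + 1)) (hP : D.Poss p cc) (t : Tst) (hok : D.tOk t = true)
    (hle : D.tLe n t = true) (h : D.hold p w t = true) : False := by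
  have hdg : ∀ x, x ≤ n → sdg w x = cc x := by
    intro x hx
    rw [hw]
    exact sdg_senc cc hc (n + 1) x (by omega)
  have heq : ∀ A B, A ≤ n → B ≤ n → eqc w A B = true → cc A = cc B := by
    intro A B hA hB h
    rw [eqc, CData.beq_iff, hdg A hA, hdg B hB] at h
    exact h
  cases t with
  | a r s =>
    rw [tOk, mem2_iff] at hok
    rw [tLe, Bool.and_eq_true, CData.ble_iff, CData.ble_iff] at hle
    rw [hold] at h
    cases hp : mem1 r p with
    | true =>
      rw [hp, cond_true] at h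
      exact absurd h (by decide)
    | false =>
      rw [hp, cond_false] at h
      refine hP.a r s hok ?_ (heq _ _ hle.1 hle.2 h)
      intro h3
      rw [(mem1_iff _ _).2 h3] at hp
      exact absurd hp (by decide)
  | b r s s' =>
    rw [tOk, Bool.and_eq_true, Bool.and_eq_true, mem2_iff, mem2_iff, Bool.not_eq_true',
      CData.beq_false_iff] at hok
    obtain ⟨⟨h2, h3⟩, h4⟩ := hok
    rw [tLe, Bool.and_eq_true, Bool.and_eq_true, CData.ble_iff, CData.ble_iff, CData.ble_iff] at hle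
    obtain ⟨⟨l1, l2⟩, l3⟩ := hle
    rw [hold] at h
    cases h5 : eqc w (D.q r) (D.q s) with
    | true =>
      rw [h5, cond_true] at h
      exact hP.b r s s' h2 h3 h4 ⟨heq _ _ l1 l2 h5, heq _ _ l1 l3 h⟩
    | false =>
      rw [h5, cond_false] at h
      exact absurd h (by decide)
  | c A B B' =>
    rw [tOk, Bool.and_eq_true, Bool.and_eq_true, mem2_iff, mem2_iff, Bool.not_eq_true',
      CData.beq_false_iff] at hok
    obtain ⟨⟨h2, h3⟩, h4⟩ := hok
    rw [tLe, Bool.and_eq_true, Bool.and_eq_true, CData.ble_iff, CData.ble_iff, CData.ble_iff] at hle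
    obtain ⟨⟨l1, l2⟩, l3⟩ := hle
    rw [hold] at h
    cases h5 : eqc w A B with
    | true =>
      rw [h5, cond_true] at h
      exact hP.c A B B' h2 h3 h4 ⟨heq _ _ l1 l2 h5, heq _ _ l1 l3 h⟩
    | false =>
      rw [h5, cond_false] at h
      exact absurd h (by decide)
  | d A B r s =>
    rw [tOk, Bool.and_eq_true, Bool.and_eq_true, mem2_iff, mem2_iff, CData.beq_iff] at hok
    obtain ⟨⟨h2, h3⟩, h4⟩ := hok
    rw [tLe, Bool.and_eq_true, Bool.and_eq_true, Bool.and_eq_true, CData.ble_iff, CData.ble_iff,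
      CData.ble_iff, CData.ble_iff] at hle
    obtain ⟨⟨⟨l1, l2⟩, l3⟩, l4⟩ := hle
    rw [hold] at h
    cases h5 : eqc w A B with
    | true =>
      rw [h5, cond_true] at h
      exact hP.d A B r s h2 h3 h4 ⟨heq _ _ l1 l2 h5, heq _ _ l3 l4 h⟩
    | false =>
      rw [h5, cond_false] at h
      exact absurd h (by decide)

/-! ### Renaming of the colours -/

theorem Poss.perm {p : List ℕ} {cc : ℕ → ℕ} (hP : D.Poss p cc) (σ : ℕ → ℕ)
    (hσ : Function.Injective σ) : D.Poss p (fun x => σ (cc x)) := by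
  constructor
  · intro r s h1 h2 h3
    exact hP.a r s h1 h2 (hσ h3)
  · rintro r s s' h1 h2 h3 ⟨h4, h5⟩
    exact hP.b r s s' h1 h2 h3 ⟨hσ h4, hσ h5⟩
  · rintro A B B' h1 h2 h3 ⟨h4, h5⟩
    exact hP.c A B B' h1 h2 h3 ⟨hσ h4, hσ h5⟩
  · rintro A B r s h1 h2 h3 ⟨h4, h5⟩
    exact hP.d A B r s h1 h2 h3 ⟨hσ h4, hσ h5⟩

theorem Cond.perm {p : List ℕ} {cc d : ℕ → ℕ} {r : ℕ} (σ : ℕ → ℕ) (hσ : Function.Injective σ)
    (h : D.Cond F p (fun x => σ (cc x)) (fun x => σ (d x)) r) : D.Cond F p cc d r := by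
  unfold Cond SatP at h ⊢
  simpa only [hσ.eq_iff, ne_eq] using h

theorem Stat.perm {cc d : ℕ → ℕ} (σ : ℕ → ℕ) (hσ : Function.Injective σ)
    (h : D.Stat F (fun x => σ (cc x)) (fun x => σ (d x))) : D.Stat F cc d := by
  unfold Stat at h ⊢
  simpa only [hσ.eq_iff, ne_eq] using h

/-- **The search is sound.** -/
theorem goF_sound (W : WfF D F) (p : List ℕ) (rows : List Row) : ∀ n u w A,
    D.goF F p rows n u w A = true → D.rowsOk F n rows = true → n + rows.length = F.P → u ≤ 4 →
    ∀ R : ℕ → Prop,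
    (∀ cc d : ℕ → ℕ, (∀ x, cc x < 4) → (∀ x, d x < 4) → w = senc cc n →
      A.testBit (D.num F cc d) = true → D.Stat F cc d ∧ ∀ r, R r → D.Cond F p cc d r) →
    ∀ cc : ℕ → ℕ, (∀ x, cc x < 4) → w = senc cc n → (∀ x, x < n → cc x < u) → D.Poss p cc →
    ∃ d : ℕ → ℕ, (∀ x, d x < 4) ∧ D.Stat F cc d ∧
      ∀ r, (R r ∨ ∃ row ∈ rows, r ∈ row.ap) → D.Cond F p cc d r := by
  induction rows with
  | nil =>
    intro n u w A h _ hn _ R hinv cc hc hw _ hP
    have hn' : n = F.P := by simpa using hn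
    subst hn'
    obtain ⟨d, hd, h1⟩ := leaf_sound W hc hw hP h
    obtain ⟨h2, h3⟩ := hinv cc d hc hd hw h1
    refine ⟨d, hd, h2, fun r hr => ?_⟩
    rcases hr with hr | ⟨row, hrow, -⟩
    · exact h3 r hr
    · simp at hrow
  | cons row rows ih =>
    intro n u w A h hok hn hu R hinv cc hc hw hlt hP
    change four (fun t u' => D.branch F p row (D.goF F p rows) n w A t u') u = true at h
    rw [rowsOk, Bool.and_eq_true, Bool.and_eq_true, List.all_eq_true, List.all_eq_true] at hok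
    obtain ⟨⟨hok1, hok2⟩, hok3⟩ := hok
    -- one branch
    have key : ∀ t u', t < 4 → u ≤ u' → t < u' → u' ≤ 4 →
        D.branch F p row (D.goF F p rows) n w A t u' = true →
        ∀ cc : ℕ → ℕ, (∀ x, cc x < 4) → w = senc cc n → (∀ x, x < n → cc x < u) → D.Poss p cc →
        cc n = t → ∃ d : ℕ → ℕ, (∀ x, d x < 4) ∧ D.Stat F cc d ∧
          ∀ r, (R r ∨ ∃ row' ∈ row :: rows, r ∈ row'.ap) → D.Cond F p cc d r := by
      intro t u' ht huu' htu' hu' hb cc hc hw hlt hP hcn
      rw [branch, fce_eq] at hb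
      have hw' : w + t * 4 ^ n = senc cc (n + 1) := by
        rw [senc, hw, hcn, mul_comm]
      cases htst : anyT (D.hold p (w + t * 4 ^ n)) row.ts with
      | true =>
        exfalso
        rw [anyT_iff] at htst
        obtain ⟨x, hx, hx'⟩ := htst
        have h1 := hok1 x hx
        rw [Bool.and_eq_true] at h1
        exact hold_sound hc hw' hP x h1.1 h1.2 hx'
      | false =>
        rw [htst, cond_false] at hb
        obtain ⟨d, hd, h1, h2⟩ := ih (n + 1) u' _ _ hb hok3 (by
            rw [List.length_cons] at hn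
            omega) hu' (fun r => R r ∨ r ∈ row.ap) (by
          intro cc' d' hc' hd' hw'' hA
          obtain ⟨h1, h2⟩ := conds_of_appl hc' hd' W hw'' row.ap A hok2 hA
          have h3 : w = senc cc' n := by
            have h4 := hw''
            rw [senc] at h4
            have h5 := senc_lt cc' hc' n
            have h6 : w < 4 ^ n := by
              rw [hw]
              exact senc_lt cc hc n
            have h7 : (w + t * 4 ^ n) % 4 ^ n = (senc cc' n + 4 ^ n * cc' n) % 4 ^ n := by rw [h4]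
            rw [Nat.add_mul_mod_self_right, Nat.add_mul_mod_self_left, Nat.mod_eq_of_lt h6,
              Nat.mod_eq_of_lt h5] at h7
            exact h7
          obtain ⟨h4, h5⟩ := hinv cc' d' hc' hd' h3 h1
          refine ⟨h4, fun r hr => ?_⟩
          rcases hr with hr | hr
          · exact h5 r hr
          · exact h2 r hr) cc hc hw' (by
          intro x hx
          by_cases hxn : x = n
          · rw [hxn, hcn]
            exact htu'
          · exact lt_of_lt_of_le (hlt x (by omega)) huu') hP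
        refine ⟨d, hd, h1, fun r hr => h2 r ?_⟩
        rcases hr with hr | ⟨row', hrow', hr⟩
        · exact Or.inl (Or.inl hr)
        · rcases List.mem_cons.1 hrow' with rfl | hrow'
          · exact Or.inl (Or.inr hr)
          · exact Or.inr ⟨row', hrow', hr⟩
    have hcn := hc n
    by_cases hcu : cc n ≤ u
    · obtain ⟨u', h1, h2, h3, h4⟩ := four_spec _ u hu h (cc n) hcn hcu
      exact key (cc n) u' hcn h2 h3 h1 h4 cc hc hw hlt hP rfl
    · -- rename the colours
      push Not at hcu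
      have hu3 : u < 4 := by omega
      obtain ⟨u', h1, h2, h3, h4⟩ := four_spec _ u hu h u hu3 le_rfl
      let σ : Equiv.Perm ℕ := Equiv.swap (cc n) u
      have hσ4 : ∀ x, x < 4 → σ x < 4 := by
        intro x hx
        change Equiv.swap (cc n) u x < 4
        rw [Equiv.swap_apply_def]
        split_ifs <;> omega
      have hσσ : ∀ x, σ (σ x) = x := fun x => Equiv.swap_apply_self _ _ _
      have hfix : ∀ x, x < u → σ x = x := by
        intro x hx
        exact Equiv.swap_apply_of_ne_of_ne (by omega) (by omega)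
      obtain ⟨d, hd, h5, h6⟩ := key u u' hu3 h2 h3 h1 h4 (fun x => σ (cc x))
        (fun x => hσ4 _ (hc x)) (by
          rw [hw]
          apply senc_congr
          intro x hx
          exact (hfix _ (hlt x hx)).symm) (by
          intro x hx
          rw [hfix _ (hlt x hx)]
          exact hlt x hx) (hP.perm σ σ.injective) (Equiv.swap_apply_left _ _)
      have hdd : d = fun x => σ (σ (d x)) := by
        funext x
        rw [hσσ]
      refine ⟨fun x => σ (d x), fun x => hσ4 _ (hd x), ?_, fun r hr => ?_⟩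
      · rw [hdd] at h5
        exact Stat.perm σ σ.injective h5
      · have h7 := h6 r hr
        rw [hdd] at h7
        exact Cond.perm σ σ.injective h7

/-- **The check is sound.** -/
theorem redF (D : KData) (F : FData) (h : D.checkF F = true) : D.conf.Red := by
  classical
  rw [checkF, Bool.and_eq_true] at h
  obtain ⟨hw, hall⟩ := h
  have W := wfF_iff D F hw
  intro c m hs
  -- colours of the classes
  let cc : ℕ → ℕ := fun x => if h : x < D.kp + 1 then (c ⟨x, h⟩).val else 0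
  have hcc4 : ∀ x, cc x < 4 := by
    intro x
    change (if h : x < D.kp + 1 then (c ⟨x, h⟩).val else 0) < 4
    split_ifs
    · exact (c _).isLt
    · omega
  have hccA : ∀ A : Fin (D.kp + 1), cc A = (c A).val := by
    intro A
    change (if h : A.val < D.kp + 1 then (c ⟨A.val, h⟩).val else 0) = _
    rw [dif_pos A.2]
  have hclv : ∀ r : Fin D.L, (D.conf.cls r).val = D.q r := by
    intro r
    change D.q r % (D.kp + 1) = D.q r
    exact Nat.mod_eq_of_lt (W.q_lt r r.2)
  have hcls : ∀ r s : Fin D.L, D.q r = D.q s → D.conf.cls r = D.conf.cls s := by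
    intro r s hrs
    rw [Fin.ext_iff, hclv, hclv, hrs]
  have hcc : ∀ r : Fin D.L, cc (D.q r) = (c (D.conf.cls r)).val := by
    intro r
    rw [← hccA, hclv]
  have hceq : ∀ r s : Fin D.L, cc (D.q r) = cc (D.q s) → c (D.conf.cls r) = c (D.conf.cls s) := by
    intro r s h
    rw [hcc, hcc] at h
    exact Fin.ext h
  have hceqA : ∀ A B : Fin (D.kp + 1), cc A = cc B → c A = c B := by
    intro A B h
    rw [hccA, hccA] at h
    exact Fin.ext h
  -- the saturated vertices
  obtain ⟨p, hp, hpm⟩ := exists_pat (fun r => ∃ h : r < D.L, m ⟨r, h⟩ = true)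
    ((List.range D.k).map D.mem) (by
      intro C hC r hr s hs' hmr hms
      rw [List.mem_map] at hC
      obtain ⟨x, -, rfl⟩ := hC
      rw [mem, List.mem_filter, CData.beq_iff] at hr hs'
      obtain ⟨h1, h2⟩ := hmr
      obtain ⟨h3, h4⟩ := hms
      have h5 := hs.one ⟨r, h1⟩ ⟨s, h3⟩ (hcls _ _ (by rw [hr.2, hs'.2])) h2 h4
      exact congrArg Fin.val h5)
  have hpm' : ∀ r : Fin D.L, m r = true → r.val ∈ p := by
    intro r hr
    refine hpm (D.mem (D.q r)) ?_ r.val ?_ ⟨r.2, hr⟩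
    · exact List.mem_map.2 ⟨D.q r, List.mem_range.2 (W.q_lt r r.2), rfl⟩
    · rw [mem, List.mem_filter, CData.beq_iff]
      exact ⟨List.mem_range.2 r.2, rfl⟩
  have hrngT : ∀ r s : Fin D.L, (r.val, s.val) ∈ D.rng → D.conf.rng r s = true := by
    intro r s h
    exact (mem2_iff _ _ _).2 h
  have hchdT : ∀ A B : Fin (D.kp + 1), (A.val, B.val) ∈ D.chq → D.conf.chd A B = true := by
    intro r s h
    exact (mem2_iff _ _ _).2 h
  -- the colouring is possible
  have hposs : D.Poss p cc := by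
    constructor
    · intro r s hrs hrp he
      obtain ⟨hr, hs1⟩ := W.rng r s hrs
      exact hrp (hpm' ⟨r, hr⟩ (hs.rng ⟨r, hr⟩ ⟨s, hs1⟩ (hrngT ⟨r, hr⟩ ⟨s, hs1⟩ hrs)
        (hceq ⟨r, hr⟩ ⟨s, hs1⟩ he)))
    · rintro r s s' hrs hrs' hne ⟨e1, e2⟩
      obtain ⟨hr, hs1⟩ := W.rng r s hrs
      obtain ⟨-, hs2⟩ := W.rng r s' hrs'
      have h6 := hs.two ⟨r, hr⟩ ⟨s, hs1⟩ ⟨s', hs2⟩ (hrngT ⟨r, hr⟩ ⟨s, hs1⟩ hrs)
        (hrngT ⟨r, hr⟩ ⟨s', hs2⟩ hrs') (hceq ⟨r, hr⟩ ⟨s, hs1⟩ e1) (hceq ⟨r, hr⟩ ⟨s', hs2⟩ e2)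
      exact hne (congrArg Fin.val h6)
    · rintro A B B' hAB hAB' hne ⟨e1, e2⟩
      obtain ⟨hA, hB⟩ := W.chq A B hAB
      obtain ⟨-, hB'⟩ := W.chq A B' hAB'
      have h6 := hs.chd2 ⟨A, hA⟩ ⟨B, hB⟩ ⟨B', hB'⟩ (hchdT ⟨A, hA⟩ ⟨B, hB⟩ hAB)
        (hchdT ⟨A, hA⟩ ⟨B', hB'⟩ hAB') (hceqA ⟨A, hA⟩ ⟨B, hB⟩ e1) (hceqA ⟨A, hA⟩ ⟨B', hB'⟩ e2)
      exact hne (congrArg Fin.val h6)
    · rintro A B r s hAB hrs hAr ⟨e1, e2⟩
      obtain ⟨hA, hB⟩ := W.chq A B hAB
      obtain ⟨hr, hs1⟩ := W.rng r s hrs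
      have h6 := (hs.chd ⟨A, hA⟩ ⟨B, hB⟩ (hchdT ⟨A, hA⟩ ⟨B, hB⟩ hAB)
        (hceqA ⟨A, hA⟩ ⟨B, hB⟩ e1)).1 ⟨r, hr⟩ (by rw [Fin.ext_iff, hclv]; exact hAr.symm)
      have h7 := hs.rng ⟨r, hr⟩ ⟨s, hs1⟩ (hrngT ⟨r, hr⟩ ⟨s, hs1⟩ hrs) (hceq ⟨r, hr⟩ ⟨s, hs1⟩ e2)
      rw [h6] at h7
      exact absurd h7 (by decide)
  have hsatP : ∀ r : Fin D.L, m r = true → D.SatP p cc r := by
    intro r hmr
    refine ⟨hpm' r hmr, fun B hB he => ?_⟩
    obtain ⟨h1, h2⟩ := W.chq _ _ hB
    have h6 := (hs.chd ⟨D.q r, h1⟩ ⟨B, h2⟩ (hchdT ⟨D.q r, h1⟩ ⟨B, h2⟩ hB)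
      (hceqA ⟨D.q r, h1⟩ ⟨B, h2⟩ he)).1 r (by rw [Fin.ext_iff, hclv])
    rw [hmr] at h6
    exact absurd h6 (by decide)
  -- the search
  obtain ⟨d, hd, hstat, hcond⟩ := goF_sound W p F.rows 0 0 0 (D.A0 F)
    (CData.allL_iff _ _ hall p hp) W.rows (by rw [zero_add, W.len]) (by omega) (fun _ => False)
    (fun cc' d' hc' hd' _ hA => ⟨stat_of_A0 hc' hd' W hA, fun r hr => hr.elim⟩)
    cc hcc4 rfl (fun x hx => absurd hx (by omega)) hposs
  have hcov : ∀ r : Fin D.L, F.P ≤ D.q r ∨ D.Cond F p cc d r := by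
    intro r
    rcases W.cover r r.2 with h | h
    · exact Or.inl h
    · exact Or.inr (hcond r (Or.inr h))
  -- the extension
  have hII : ∀ i j j', (i, j) ∈ D.inn → (i, j') ∈ D.inn → j < j' → ¬ (d j = d i ∧ d j' = d i) := by
    rintro i j j' hij hij' hjj' ⟨e1, e2⟩
    exact hstat.1 i j j' hij hij' hjj' ⟨e1.symm, e2.symm⟩
  have hIR : ∀ (i j : ℕ) (r : Fin D.L), (i, j) ∈ D.inn → (i, r.val) ∈ D.mix →
      ¬ (d j = d i ∧ cc (D.q r) = d i) := by
    rintro i j r hij hir ⟨e1, e2⟩
    rcases hcov r with h | h | ⟨-, -, h, -⟩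
    · exact hstat.2 i r hir h e2.symm
    · exact h i hir e2.symm
    · exact h i j hir (W.inn i j hij).2.2 ⟨e2.symm, e1.trans e2.symm⟩
  have hRR : ∀ (i : ℕ) (r s : Fin D.L), (i, r.val) ∈ D.mix → (i, s.val) ∈ D.mix → r < s →
      ¬ (cc (D.q r) = d i ∧ cc (D.q s) = d i) := by
    rintro i r s hir his hrs ⟨e1, e2⟩
    rcases hcov r with h | h | ⟨-, -, -, h⟩
    · exact hstat.2 i r hir h e1.symm
    · exact h i hir e1.symm
    rcases hcov s with h' | h' | ⟨-, -, -, h'⟩
    · exact hstat.2 i s his h' e2.symm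
    · exact h' i his e2.symm
    rcases W.pv i r s hir his hrs with h1 | h1 | h1 | h1
    · exact hstat.2 i r hir h1 e1.symm
    · exact hstat.2 i s his h1 e2.symm
    · exact h s h1 i hir his ⟨e2.trans e1.symm, e1.symm⟩
    · exact h' r h1 i his hir ⟨e1.trans e2.symm, e2.symm⟩
  have hRI : ∀ (i i' : ℕ) (r : Fin D.L), (i, r.val) ∈ D.mix → (i', r.val) ∈ D.mix → i < i' →
      ¬ (d i = cc (D.q r) ∧ d i' = cc (D.q r)) := by
    rintro i i' r hir hir' hii' ⟨e1, e2⟩
    rcases hcov r with h | h | ⟨-, h, -, -⟩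
    · exact hstat.2 i r hir h e1
    · exact h i hir e1
    · exact h i i' hir hir' (by omega) ⟨e1, e2⟩
  refine ⟨fun i => ⟨d i, hd i⟩, ?_, ?_, ?_⟩
  · intro i
    refine ncard_add_ncard_le_one _ _ ?_ ?_ ?_
    · rintro x ⟨hx, ex⟩ y ⟨hy, ey⟩
      rw [Fin.mk.injEq] at ex ey
      have hx' := (mem2_iff _ _ _).1 hx
      have hy' := (mem2_iff _ _ _).1 hy
      rcases lt_trichotomy x y with h | h | h
      · exact absurd ⟨ex, ey⟩ (hII i x y hx' hy' h)
      · exact h
      · exact absurd ⟨ey, ex⟩ (hII i y x hy' hx' h)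
    · rintro x ⟨hx, ex⟩ y ⟨hy, ey⟩
      rw [Fin.ext_iff, ← hcc] at ex ey
      have hx' := (mem2_iff _ _ _).1 hx
      have hy' := (mem2_iff _ _ _).1 hy
      rcases lt_trichotomy x y with h | h | h
      · exact absurd ⟨ex, ey⟩ (hRR i x y hx' hy' h)
      · exact h
      · exact absurd ⟨ey, ex⟩ (hRR i y x hy' hx' h)
    · rintro x ⟨hx, ex⟩ y ⟨hy, ey⟩
      rw [Fin.mk.injEq] at ex
      rw [Fin.ext_iff, ← hcc] at ey
      exact hIR i x y ((mem2_iff _ _ _).1 hx) ((mem2_iff _ _ _).1 hy) ⟨ex, ey⟩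
  · intro r
    rw [Set.ncard_le_one (Set.toFinite _)]
    rintro x ⟨hx, ex⟩ y ⟨hy, ey⟩
    rw [Fin.ext_iff, ← hcc] at ex ey
    have hx' := (mem2_iff _ _ _).1 hx
    have hy' := (mem2_iff _ _ _).1 hy
    rcases lt_trichotomy x y with h | h | h
    · exact absurd ⟨ex, ey⟩ (hRI x y r hx' hy' h)
    · exact h
    · exact absurd ⟨ey, ex⟩ (hRI y x r hy' hx' h)
  · intro r i hmr hir hde
    rw [Fin.ext_iff, ← hcc] at hde
    have hir' := (mem2_iff _ _ _).1 hir
    rcases hcov r with h | h | ⟨h, -⟩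
    · exact hstat.2 i r hir' h hde
    · exact h i hir' hde
    · exact h (hsatP r hmr)

end KData

end Pool.Agent.W986
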