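import Pool.Agent.W986.RotnB
import Pool.Agent.W986.SubTreeB

/-!
# A certificate checker for discharging

A patch is what is known around a vertex of a triangulation: the cyclic lists of the neighbours
of some vertices (labels), and lower bounds for the degrees of the others. A certificate is a tree
of case distinctions, written as a number; its leaves are reducible configurations or numerical
bounds for the final charge. The certificate is evaluated by the kernel.
-/

set_option autoImplicit false

open Finset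

namespace Pool.Agent.W986

section rotn

variable {W : Type} {H : SimpleGraph W} {T : W → W → W → Prop} {x : W} {d : ℕ} {ν : ℕ → W}

theorem Rotn.tShift (h : Rotn H T x d ν) (s : ℕ) : Rotn H T x d (fun i => ν (i + s)) := by
  refine ⟨h.three, fun i => ?_, ?_, fun y => ?_, fun i y => ?_⟩
  · change ν (i + d + s) = ν (i + s)
    rw [show i + d + s = i + s + d by omega, h.per]
  · intro i hi j hj hij
    rcases lt_trichotomy i j with h1 | h1 | h1
    · exact absurd hij (h.ne (by omega) (by omega))
    · exact h1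
    · exact absurd hij.symm (h.ne (by omega) (by omega))
  · constructor
    · intro hy
      obtain ⟨m, h1, h2, h3⟩ := h.window s hy
      exact ⟨m - s, by omega, by rw [Nat.sub_add_cancel h1]; exact h3⟩
    · rintro ⟨i, _, rfl⟩
      exact h.adj_nu _
  · have h1 := h.tri (i + s) y
    rw [show i + s + 1 = i + 1 + s by omega, show i + s + 2 = i + 2 + s by omega] at h1
    exact h1

/-- The other orientation. -/
theorem Rotn.tReflect (h : Rotn H T x d ν) : Rotn H T x d (fun i => ν ((d - 1) * i)) := by
  have hd := h.three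
  have e1 : ∀ i, (d - 1) * i = d * i - i := fun i => by rw [Nat.sub_mul, one_mul]
  have le : ∀ i, i ≤ d * i := fun i => Nat.le_mul_of_pos_left i (by omega)
  have hne : ∀ i j, i < j → j < d → ν (d * i - i) ≠ ν (d * j - j) := by
    intro i j hij hj heq
    have h1 : ν (d * i - i) = ν (d * j - i) := by
      refine h.modEq ?_
      have h2 : d * j - i = (d * i - i) + d * (j - i) := by
        have h3 : d * (j - i) = d * j - d * i := Nat.mul_sub _ _ _
        have h4 : d * i ≤ d * j := Nat.mul_le_mul_left _ hij.le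
        have := le i
        omega
      rw [h2]
      exact (Nat.modEq_iff_dvd' (by omega)).2 (by rw [Nat.add_sub_cancel_left]; exact ⟨_, rfl⟩)
    have h4 := le j
    exact h.ne (i := d * j - j) (j := d * j - i) (by omega) (by omega) (by rw [← heq, h1])
  refine ⟨hd, fun i => ?_, ?_, fun y => ?_, fun i y => ?_⟩
  · change ν ((d - 1) * (i + d)) = ν ((d - 1) * i)
    refine (h.modEq ?_).symm
    rw [mul_add]
    exact (Nat.modEq_iff_dvd' (by omega)).2 (by rw [Nat.add_sub_cancel_left]; exact ⟨d - 1, by ring⟩)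
  · intro i hi j hj hij
    change ν ((d - 1) * i) = ν ((d - 1) * j) at hij
    rw [e1, e1] at hij
    rcases lt_trichotomy i j with h1 | h1 | h1
    · exact absurd hij (hne i j h1 hj)
    · exact h1
    · exact absurd hij.symm (hne j i h1 hi)
  · constructor
    · intro hy
      obtain ⟨j, hj, rfl⟩ := (h.adj y).1 hy
      by_cases hj0 : j = 0
      · subst hj0
        exact ⟨0, by omega, rfl⟩
      · refine ⟨d - j, by omega, ?_⟩
        change ν ((d - 1) * (d - j)) = ν j
        rw [e1]
        refine (h.modEq ?_).symm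
        have h1 := le (d - j)
        have h2 : d * (d - j) = d * (d - j - 1) + d := by
          obtain ⟨k, hk⟩ : ∃ k, d - j = k + 1 := ⟨d - j - 1, by omega⟩
          rw [hk, Nat.add_sub_cancel, Nat.mul_succ]
        refine (Nat.modEq_iff_dvd' (by omega)).2 ⟨d - j - 1, by omega⟩
    · rintro ⟨i, _, rfl⟩
      exact h.adj_nu _
  · change T x (ν ((d - 1) * (i + 1))) y ↔ y = ν ((d - 1) * i) ∨ y = ν ((d - 1) * (i + 2))
    rw [e1, e1, e1]
    have h1 := le i
    have h3 : d * (i + 1) = d * i + d := by ring
    have h4 : d * (i + 2) = d * i + d + d := by ring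
    have h5 := h.tri (d * (i + 1) - i - 2) y
    have h6 : d * (i + 1) - i - 2 + 1 = d * (i + 1) - (i + 1) := by omega
    have h7 : ν (d * (i + 1) - i - 2 + 2) = ν (d * i - i) := by
      rw [show d * (i + 1) - i - 2 + 2 = d * i - i + d by omega, h.per]
    have h8 : ν (d * (i + 1) - i - 2) = ν (d * (i + 2) - (i + 2)) := by
      rw [show d * (i + 2) - (i + 2) = d * (i + 1) - i - 2 + d by omega, h.per]
    rw [h6, h7, h8] at h5
    rw [h5]
    exact Or.comm

theorem Rotn.tExt {μ : ℕ → W} (h : Rotn H T x d ν) (h0 : ∀ i, ν i = μ i) : Rotn H T x d μ := by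
  have : ν = μ := funext h0
  rwa [← this]

theorem Rotn.tDeg {d' : ℕ} {ν' : ℕ → W} (h : Rotn H T x d ν) (h' : Rotn H T x d' ν') :
    d = d' := by
  rw [← h.card, h'.card]

/-- A walk in the link, without turning back, is a part of the rotation. -/
theorem Rotn.tAlign (h : Rotn H T x d ν) (m : ℕ) (a : ℕ → W) (h1 : 1 ≤ m)
    (hT : ∀ j < m, T x (a j) (a (j + 1))) (hne : ∀ j, j + 2 ≤ m → a j ≠ a (j + 2))
    (hadj : H.Adj x (a 0)) : ∃ μ, Rotn H T x d μ ∧ ∀ j ≤ m, μ j = a j := by
  have hd := h.three
  obtain ⟨k, hk1, hk2, hk⟩ := h.window 1 hadj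
  obtain ⟨μ, hμ, h0, h1'⟩ : ∃ μ, Rotn H T x d μ ∧ μ 0 = a 0 ∧ μ 1 = a 1 := by
    have h2 := hT 0 (by omega)
    obtain ⟨i, rfl⟩ : ∃ i, k = i + 1 := ⟨k - 1, by omega⟩
    rw [← hk] at h2
    rcases (h.tri i _).1 h2 with h3 | h3
    · -- the other orientation
      have h4 := h.tReflect
      have h5 := h4.tShift ((d - 1) * (i + 1))
      have e1 : ∀ i, (d - 1) * i = d * i - i := fun i => by rw [Nat.sub_mul, one_mul]
      have key : ∀ t, t ≤ i + 1 → ν ((d - 1) * (t + (d - 1) * (i + 1))) = ν (i + 1 - t) := by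
        intro t ht
        refine (h.modEq ?_).symm
        obtain ⟨e, rfl⟩ : ∃ e, d = e + 1 := ⟨d - 1, by omega⟩
        rw [Nat.add_sub_cancel]
        have h6 : e * (t + e * (i + 1)) = (i + 1 - t) + (e + 1) * ((e - 1) * (i + 1) + t) := by
          obtain ⟨g, rfl⟩ : ∃ g, e = g + 1 := ⟨e - 1, by omega⟩
          rw [Nat.add_sub_cancel]
          obtain ⟨w, hw⟩ : ∃ w, i + 1 = t + w := ⟨i + 1 - t, by omega⟩
          rw [hw, Nat.add_sub_cancel_left]
          ring
        rw [h6]
        exact (Nat.modEq_iff_dvd' (by omega)).2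
          (by rw [Nat.add_sub_cancel_left]; exact ⟨_, rfl⟩)
      refine ⟨_, h5, ?_, ?_⟩
      · change ν ((d - 1) * (0 + (d - 1) * (i + 1))) = a 0
        rw [key 0 (by omega)]
        exact hk
      · change ν ((d - 1) * (1 + (d - 1) * (i + 1))) = a 1
        rw [key 1 (by omega), Nat.add_sub_cancel]
        exact h3.symm
    · refine ⟨_, h.tShift (i + 1), ?_, ?_⟩
      · change ν (0 + (i + 1)) = a 0
        rw [zero_add]
        exact hk
      · change ν (1 + (i + 1)) = a 1
        rw [show 1 + (i + 1) = i + 2 by omega]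
        exact h3.symm
  refine ⟨μ, hμ, ?_⟩
  have hind : ∀ j, j + 1 ≤ m → μ j = a j ∧ μ (j + 1) = a (j + 1) := by
    intro j
    induction j with
    | zero => intro _; exact ⟨h0, h1'⟩
    | succ j ih =>
      intro hj
      obtain ⟨h2, h3⟩ := ih (by omega)
      refine ⟨h3, ?_⟩
      have h4 := hT (j + 1) (by omega)
      rw [← h3] at h4
      rcases (hμ.tri j _).1 h4 with h5 | h5
      · exact absurd (h5.trans h2).symm (hne j (by omega))
      · exact h5.symm
  intro j hj
  rcases Nat.lt_or_ge j m with h2 | h2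
  · exact (hind j (by omega)).1
  · have h3 : j = m := by omega
    obtain ⟨e, rfl⟩ : ∃ e, m = e + 1 := ⟨m - 1, by omega⟩
    rw [h3]
    exact (hind e (by omega)).2

theorem Rotn.tTwo {W : Type} {H : SimpleGraph W} {T : W → W → W → Prop} {x : W} {d : ℕ}
    {ν μ : ℕ → W} (h : Rotn H T x d ν) (h' : Rotn H T x d μ) (h0 : μ 0 = ν 0) :
    (∀ i, μ i = ν i) ∨ ∀ i, μ i = ν ((d - 1) * i) := by
  have hd := h.three
  have key : ∀ ν : ℕ → W, Rotn H T x d ν → μ 0 = ν 0 → μ 1 = ν 1 → ∀ i, μ i = ν i := by
    intro ν h h0 h1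
    have h2 : ∀ i, μ i = ν i ∧ μ (i + 1) = ν (i + 1) := by
      intro i
      induction i with
      | zero => exact ⟨h0, h1⟩
      | succ i ih =>
        refine ⟨ih.2, ?_⟩
        have h3 := h'.tri_next (i + 1)
        rw [ih.2] at h3
        rcases (h.tri i _).1 h3 with h4 | h4
        · rw [← ih.1] at h4
          exact absurd h4.symm (h'.ne (by omega) (by omega))
        · exact h4
    exact fun i => (h2 i).1
  have h1 := h'.tri_next 0
  rw [h0, ← h.per 0, zero_add] at h1
  obtain ⟨e, rfl⟩ : ∃ e, d = e + 1 := ⟨d - 1, by omega⟩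
  rcases (h.tri e _).1 h1 with h2 | h2
  · refine Or.inr (key _ h.tReflect ?_ ?_)
    · rw [h0]
      rfl
    · rw [zero_add] at h2
      rw [h2, Nat.add_sub_cancel, mul_one]
  · refine Or.inl (key ν h h0 ?_)
    rw [zero_add] at h2
    rw [h2, show e + 2 = 1 + (e + 1) by omega, h.per]

theorem Rotn.tReflect2 {W : Type} {H : SimpleGraph W} {T : W → W → W → Prop} {x : W} {d : ℕ}
    {ν : ℕ → W} (h : Rotn H T x d ν) (i : ℕ) : ν ((d - 1) * ((d - 1) * i)) = ν i := by
  have hd := h.three
  refine (h.modEq ?_).symm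
  obtain ⟨e, rfl⟩ : ∃ e, d = e + 2 := ⟨d - 2, by omega⟩
  have h1 : (e + 2 - 1) * ((e + 2 - 1) * i) = i + (e + 2) * (e * i) := by
    rw [show e + 2 - 1 = e + 1 by omega]
    ring
  rw [h1]
  exact (Nat.modEq_iff_dvd' (by omega)).2 (by rw [Nat.add_sub_cancel_left]; exact ⟨_, rfl⟩)

end rotn

namespace ST

/-! ### Lists; the definitions use the recursors, for the evaluation by the kernel -/

theorem frc_eq {α : Type} (n : ℕ) (f : ℕ → α) : frc n f = f n := by
  cases n <;> rfl

theorem frcH_eq {α : Type} (l : List ℕ) (f : List ℕ → α) : frcH l f = f l := by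
  cases l <;> rfl

theorem cf_true {α : Type} (x y : α) : cf true x y = x := rfl
theorem cf_false {α : Type} (x y : α) : cf false x y = y := rfl

@[simp] theorem lnth_nil (n : ℕ) : lnth [] n = 0 := rfl
@[simp] theorem lnth_cons_zero (x : ℕ) (l : List ℕ) : lnth (x :: l) 0 = x := rfl
@[simp] theorem lnth_cons_succ (x : ℕ) (l : List ℕ) (n : ℕ) :
    lnth (x :: l) (n + 1) = lnth l n := rfl

theorem lnth_append_left (l l' : List ℕ) (n : ℕ) (h : n < l.length) :
    lnth (l ++ l') n = lnth l n := by
  induction l generalizing n with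
  | nil => simp at h
  | cons x l ih =>
    cases n with
    | zero => rfl
    | succ n => exact ih n (by simpa using h)

theorem lnth_append_right (l l' : List ℕ) (n : ℕ) : lnth (l ++ l') (l.length + n) = lnth l' n := by
  induction l with
  | nil => simp
  | cons x l ih =>
    rw [List.length_cons, show l.length + 1 + n = (l.length + n) + 1 by omega]
    exact ih

theorem lnth_drop (l : List ℕ) (i n : ℕ) : lnth (l.drop i) n = lnth l (i + n) := by
  induction l generalizing i with
  | nil => simp
  | cons x l ih =>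
    cases i with
    | zero => simp
    | succ i =>
      rw [List.drop_succ_cons, ih, show i + 1 + n = (i + n) + 1 by omega]
      rfl

theorem lnth_map (g : ℕ → ℕ) (l : List ℕ) (n : ℕ) (h : n < l.length) :
    lnth (l.map g) n = g (lnth l n) := by
  induction l generalizing n with
  | nil => simp at h
  | cons x l ih =>
    cases n with
    | zero => rfl
    | succ n => exact ih n (by simpa using h)

theorem lnth_mem (l : List ℕ) (n : ℕ) (h : n < l.length) : lnth l n ∈ l := by
  induction l generalizing n with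
  | nil => simp at h
  | cons x l ih =>
    cases n with
    | zero => exact List.mem_cons_self
    | succ n => exact List.mem_cons_of_mem _ (ih n (by simpa using h))

theorem lnth_reverse (l : List ℕ) (n : ℕ) (h : n < l.length) :
    lnth l.reverse n = lnth l (l.length - 1 - n) := by
  induction l generalizing n with
  | nil => simp at h
  | cons x l ih =>
    rw [List.reverse_cons]
    rw [List.length_cons] at h ⊢
    by_cases h1 : n < l.length
    · rw [lnth_append_left _ _ _ (by rw [List.length_reverse]; exact h1), ih n h1,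
        show l.length + 1 - 1 - n = (l.length - 1 - n) + 1 by omega]
      rfl
    · have h2 : n = l.reverse.length + 0 := by rw [List.length_reverse]; omega
      rw [h2, lnth_append_right, List.length_reverse,
        show l.length + 1 - 1 - (l.length + 0) = 0 by omega]
      rfl

theorem len_eq (l : List ℕ) : len l = l.length := by
  induction l with
  | nil => rfl
  | cons x l ih =>
    change Nat.succ (len l) = _
    rw [ih]
    rfl

theorem app_eq (a b : List ℕ) : app a b = a ++ b := by
  induction a with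
  | nil => rfl
  | cons x l ih =>
    change x :: app l b = _
    rw [ih]
    rfl

theorem drp_eq (l : List ℕ) (n : ℕ) : drp l n = l.drop n := by
  induction l generalizing n with
  | nil => simp [drp]
  | cons x l ih =>
    cases n with
    | zero => rfl
    | succ n =>
      change drp l n = _
      rw [ih]
      rfl

theorem tke_eq (l : List ℕ) (n : ℕ) : tke l n = l.take n := by
  induction l generalizing n with
  | nil => simp [tke]
  | cons x l ih =>
    cases n with
    | zero => rfl
    | succ n =>
      change x :: tke l n = _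
      rw [ih]
      rfl

theorem mpL_eq (g : ℕ → ℕ) (l : List ℕ) : mpL g l = l.map g := by
  induction l with
  | nil => rfl
  | cons x l ih =>
    change g x :: mpL g l = _
    rw [ih]
    rfl

theorem rvs_eq (l a : List ℕ) : rvs l a = l.reverse ++ a := by
  induction l generalizing a with
  | nil => rfl
  | cons x l ih =>
    change rvs l (x :: a) = _
    rw [ih]
    simp

theorem posn_cons (x : ℕ) (l : List ℕ) (v : ℕ) :
    posn (x :: l) v = cf (Nat.beq x v) 0 (Nat.succ (posn l v)) := rfl

theorem posn_spec (l : List ℕ) (v : ℕ) (h : posn l v < l.length) : lnth l (posn l v) = v := by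
  induction l with
  | nil => simp at h
  | cons x l ih =>
    rw [posn_cons] at h ⊢
    cases hc : Nat.beq x v with
    | true => exact Nat.eq_of_beq_eq_true hc
    | false =>
      rw [hc, cf_false, List.length_cons] at h
      exact ih (by omega)

theorem posn_le (l : List ℕ) (v : ℕ) : posn l v ≤ l.length := by
  induction l with
  | nil => exact le_refl _
  | cons x l ih =>
    rw [posn_cons, List.length_cons]
    cases Nat.beq x v with
    | true => exact Nat.zero_le _
    | false => exact Nat.succ_le_succ ih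

/-! ### The graph -/

/-- A graph with triangles, in which the rotation at the vertices of `I` is known; `D` is the
degree at these vertices, and large at the others. -/
structure Env (V : Type) where
  /-- the graph -/
  H : SimpleGraph V
  /-- the triangles -/
  T : V → V → V → Prop
  /-- the inner vertices -/
  I : V → Prop
  /-- the degrees -/
  D : V → ℕ
  /-- another quantity -/
  kap : V → ℤ
  rot : ∀ x y z, T x y z → T y z x
  swap : ∀ x y z, T x y z → T y x z
  adjT : ∀ x y z, T x y z → H.Adj x y
  ex : ∀ x, I x → ∃ ν, Rotn H T x (D x) ν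
  min4 : ∀ x, 4 ≤ D x
  big : ∀ x, ¬ I x → 12 ≤ D x

variable {V : Type}

/-- The rotation at the inner vertex `f v` is given by the list `l`. -/
def Env.Lk (E : Env V) (f : ℕ → V) (v : ℕ) (l : List ℕ) : Prop :=
  E.I (f v) ∧ Rotn E.H E.T (f v) l.length (fun i => f (lnth l (i % l.length)))

section env

variable (E : Env V) {f : ℕ → V} {v : ℕ} {l : List ℕ}

theorem Env.Lk.deg {E : Env V} (h : E.Lk f v l) : E.D (f v) = l.length := by
  obtain ⟨ν, hν⟩ := E.ex _ h.1
  exact hν.tDeg h.2

theorem Env.Lk.three {E : Env V} (h : E.Lk f v l) : 3 ≤ l.length := h.2.three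

theorem Env.Lk.congr {E : Env V} {g : ℕ → V} (h : E.Lk f v l) (hv : g v = f v)
    (hl : ∀ x ∈ l, g x = f x) : E.Lk g v l := by
  refine ⟨by rw [hv]; exact h.1, ?_⟩
  rw [hv]
  refine h.2.tExt fun i => ?_
  have h3 := h.three
  exact (hl _ (lnth_mem l _ (Nat.mod_lt _ (by omega)))).symm

/-- Change of labels. -/
theorem Env.Lk.map {E : Env V} {g : ℕ → V} (σ : ℕ → ℕ) (h : E.Lk (fun x => g (σ x)) v l) :
    E.Lk g (σ v) (l.map σ) := by
  refine ⟨h.1, ?_⟩
  rw [List.length_map]
  refine h.2.tExt fun i => ?_
  have h3 := h.three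
  rw [lnth_map _ _ _ (Nat.mod_lt _ (by omega))]

theorem Env.Lk.map' {E : Env V} {g : ℕ → V} (σ : ℕ → ℕ) (h : E.Lk g (σ v) (l.map σ)) :
    E.Lk (fun x => g (σ x)) v l := by
  have h3 := h.three
  refine ⟨h.1, ?_⟩
  have h2 := h.2
  rw [List.length_map] at h2 h3
  refine h2.tExt fun i => ?_
  rw [lnth_map _ _ _ (Nat.mod_lt _ (by omega))]

end env

/-! ### Rotations given by lists -/

theorem pre_nth (p l : List ℕ) (h : pre p l = true) : ∀ j < p.length, lnth p j = lnth l j := by
  induction p generalizing l with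
  | nil => simp
  | cons x p ih =>
    cases l with
    | nil => exact absurd h Bool.false_ne_true
    | cons y l =>
      change cf (Nat.beq x y) (pre p l) false = true at h
      cases hc : Nat.beq x y with
      | false => rw [hc] at h; exact absurd h Bool.false_ne_true
      | true =>
        rw [hc, cf_true] at h
        intro j hj
        cases j with
        | zero => exact Nat.eq_of_beq_eq_true hc
        | succ j => exact ih l h j (by simpa using hj)

theorem lnth_twice (l : List ℕ) (n : ℕ) (h : n < 2 * l.length) :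
    lnth (l ++ l) n = lnth l (n % l.length) := by
  by_cases h1 : n < l.length
  · rw [lnth_append_left _ _ _ h1, Nat.mod_eq_of_lt h1]
  · obtain ⟨m, rfl⟩ : ∃ m, n = l.length + m := ⟨n - l.length, by omega⟩
    rw [lnth_append_right, Nat.add_mod_left, Nat.mod_eq_of_lt (by omega)]

theorem Env.Lk.same {E : Env V} {f : ℕ → V} {v : ℕ} {l p : List ℕ} (h : E.Lk f v l)
    (hs : same l p = true) : E.Lk f v p := by
  have h3 := h.three
  refine ⟨h.1, ?_⟩
  cases p with
  | nil => exact absurd hs Bool.false_ne_true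
  | cons x p =>
    change cf (Nat.beq (len l) (Nat.succ (len p)))
        (frc (posn l x) fun i => frcH (drp (app l l) i) fun r =>
          cf (pre (x :: p) r) true (pre (x :: rvs p []) r)) false = true at hs
    rw [frc_eq, frcH_eq, len_eq, len_eq, app_eq, drp_eq, rvs_eq, List.append_nil] at hs
    cases hc : Nat.beq l.length (Nat.succ p.length) with
    | false => rw [hc] at hs; exact absurd hs Bool.false_ne_true
    | true =>
      rw [hc, cf_true] at hs
      have hlen : l.length = p.length + 1 := Nat.eq_of_beq_eq_true hc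
      have hd : 0 < l.length := by omega
      have hi := posn_le l x
      generalize posn l x = i at hs hi
      rw [show (x :: p).length = l.length by rw [List.length_cons, hlen]]
      cases hc2 : pre (x :: p) ((l ++ l).drop i) with
      | true =>
        have h1 := pre_nth _ _ hc2
        rw [List.length_cons, ← hlen] at h1
        refine (h.2.tShift i).tExt fun j => ?_
        have h4 := Nat.mod_lt j hd
        have h5 : lnth (x :: p) (j % l.length) = lnth l ((j + i) % l.length) := by
          rw [h1 _ h4, lnth_drop, lnth_twice _ _ (by omega), Nat.add_mod_mod, add_comm i]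
        rw [h5]
      | false =>
        rw [hc2, cf_false] at hs
        have h1 := pre_nth _ _ hs
        rw [List.length_cons, List.length_reverse, ← hlen] at h1
        refine ((h.2.tShift i).tReflect).tExt fun j => ?_
        have h4 := Nat.mod_lt j hd
        have h5 : lnth (x :: p) (j % l.length) =
            lnth l (((l.length - 1) * j + i) % l.length) := by
          have h7 := Nat.mod_add_div j l.length
          have h9 : (l.length - 1) * j = l.length * j - j := by rw [Nat.sub_mul, one_mul]
          have h11 : l.length * (j / l.length) ≤ l.length * j :=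
            Nat.mul_le_mul_left _ (Nat.div_le_self _ _)
          have h12 : j ≤ l.length * j := Nat.le_mul_of_pos_left j hd
          by_cases h0 : j % l.length = 0
          · have h6 := h1 0 hd
            rw [lnth_drop, lnth_twice _ _ (by omega)] at h6
            rw [h0]
            rw [h0] at h7
            have h8 : (l.length - 1) * j + i = (i + 0) + l.length * (j - j / l.length) := by
              have h10 : l.length * (j - j / l.length) = l.length * j - l.length * (j / l.length) :=
                Nat.mul_sub _ _ _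
              omega
            rw [h8, Nat.add_mul_mod_self_left]
            exact h6
          · have h6 := h1 (l.length - j % l.length) (by omega)
            rw [lnth_drop, lnth_twice _ _ (by omega)] at h6
            obtain ⟨e, he⟩ : ∃ e, l.length - j % l.length = e + 1 :=
              ⟨l.length - j % l.length - 1, by omega⟩
            have h13 : lnth (x :: p.reverse) (l.length - j % l.length) =
                lnth (x :: p) (j % l.length) := by
              rw [he]
              obtain ⟨g, hg⟩ : ∃ g, j % l.length = g + 1 := ⟨j % l.length - 1, by omega⟩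
              rw [hg, lnth_cons_succ, lnth_cons_succ, lnth_reverse _ _ (by omega)]
              congr 1
              omega
            rw [← h13, h6]
            congr 1
            have h8 : (l.length - 1) * j + i + l.length =
                (i + (l.length - j % l.length)) + l.length * (j - j / l.length) := by
              have h10 : l.length * (j - j / l.length) = l.length * j - l.length * (j / l.length) :=
                Nat.mul_sub _ _ _
              omega
            have h14 : ((l.length - 1) * j + i) % l.length =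
                ((l.length - 1) * j + i + l.length) % l.length := by
              rw [Nat.add_mod_right]
            rw [h14, h8, Nat.add_mul_mod_self_left]
        rw [h5]

/-! ### Patches -/

theorem findL_cons (p : ℕ × List ℕ) (l : List (ℕ × List ℕ)) (v : ℕ) :
    findL (p :: l) v = cf (Nat.beq p.1 v) p.2 (findL l v) := rfl

theorem findB_cons (p : ℕ × ℕ) (l : List (ℕ × ℕ)) (v : ℕ) :
    findB (p :: l) v = cf (Nat.beq p.1 v) p.2 (findB l v) := rfl

/-- `f` realises what is known. -/
def Env.Real {V : Type} (E : Env V) (lk : List (ℕ × List ℕ)) (lb : List (ℕ × ℕ)) (f : ℕ → V) :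
    Prop :=
  (∀ p ∈ lk, E.Lk f p.1 p.2) ∧ ∀ p ∈ lb, p.2 ≤ E.D (f p.1)

section patch

variable {V : Type} {E : Env V} {lk : List (ℕ × List ℕ)} {lb : List (ℕ × ℕ)} {f : ℕ → V}

theorem findL_spec (lk : List (ℕ × List ℕ)) (v : ℕ) (h : findL lk v ≠ []) :
    (v, findL lk v) ∈ lk := by
  induction lk with
  | nil => exact absurd rfl h
  | cons p l ih =>
    rw [findL_cons] at h ⊢
    cases hc : Nat.beq p.1 v with
    | true =>
      have h1 := Nat.eq_of_beq_eq_true hc
      rw [cf_true, ← h1]
      exact List.mem_cons_self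
    | false =>
      rw [hc, cf_false] at h
      exact List.mem_cons_of_mem _ (ih h)

theorem Env.Real.find (h : E.Real lk lb f) {v : ℕ} (hv : findL lk v ≠ []) :
    E.Lk f v (findL lk v) := h.1 _ (findL_spec lk v hv)

theorem Env.Real.findB (h : E.Real lk lb f) (v : ℕ) : findB lb v ≤ E.D (f v) := by
  have h2 := h.2
  clear h
  induction lb with
  | nil => exact E.min4 _
  | cons p l ih =>
    rw [findB_cons]
    cases hc : Nat.beq p.1 v with
    | true =>
      have h1 := Nat.eq_of_beq_eq_true hc
      rw [cf_true, ← h1]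
      exact h2 _ List.mem_cons_self
    | false =>
      rw [cf_false]
      exact ih fun p hp => h2 p (List.mem_cons_of_mem _ hp)

theorem Env.Real.lo (h : E.Real lk lb f) (v : ℕ) : loP lk lb v ≤ E.D (f v) := by
  rw [loP]
  cases hl : findL lk v with
  | nil => exact h.findB v
  | cons x l =>
    have h1 := h.find (v := v) (by rw [hl]; simp)
    change Nat.succ (len l) ≤ _
    rw [h1.deg, hl, len_eq]
    exact le_refl _

theorem Env.Real.ex (h : E.Real lk lb f) (v : ℕ) (hv : exP lk v = true) :
    E.D (f v) = loP lk lb v := by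
  rw [exP] at hv
  rw [loP]
  cases hl : findL lk v with
  | nil => rw [hl] at hv; exact absurd hv Bool.false_ne_true
  | cons x l =>
    have h1 := h.find (v := v) (by rw [hl]; simp)
    change _ = Nat.succ (len l)
    rw [h1.deg, hl, len_eq]
    rfl

/-- Change of labels. -/
theorem Env.Real.relabel {g : ℕ → V} (σ : ℕ → ℕ) (hf : ∀ x, g (σ x) = f x)
    (h : E.Real lk lb f) :
    E.Real (lk.map fun p => (σ p.1, p.2.map σ)) (lb.map fun p => (σ p.1, p.2)) g := by
  have hf' : (fun x => g (σ x)) = f := funext hf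
  constructor
  · intro p hp
    obtain ⟨q, hq, rfl⟩ := List.mem_map.1 hp
    have h1 := h.1 q hq
    rw [← hf'] at h1
    exact h1.map σ
  · intro p hp
    obtain ⟨q, hq, rfl⟩ := List.mem_map.1 hp
    rw [hf]
    exact h.2 q hq

/-- Labels below `n`. -/
def Below (n : ℕ) (lk : List (ℕ × List ℕ)) (lb : List (ℕ × ℕ)) : Prop :=
  (∀ p ∈ lk, p.1 < n ∧ ∀ x ∈ p.2, x < n) ∧ ∀ p ∈ lb, p.1 < n

theorem Env.Real.congr {n : ℕ} {g : ℕ → V} (h : E.Real lk lb f) (hn : Below n lk lb)
    (hg : ∀ x < n, g x = f x) : E.Real lk lb g := by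
  constructor
  · intro p hp
    have h1 := hn.1 p hp
    exact (h.1 p hp).congr (hg _ h1.1) fun x hx => hg _ (h1.2 x hx)
  · intro p hp
    rw [hg _ (hn.2 p hp)]
    exact h.2 p hp

end patch

/-! ### Walks in a link -/

theorem scn_spec (v a c : ℕ) (l : List ℕ) (x y : ℕ) (h : scn v a c l x y = true) :
    ∃ i, i < l.length ∧ lnth (x :: y :: l) (i + 1) = v ∧
      ((lnth (x :: y :: l) i = a ∧ lnth (x :: y :: l) (i + 2) = c) ∨
        (lnth (x :: y :: l) i = c ∧ lnth (x :: y :: l) (i + 2) = a)) := by
  induction l generalizing x y with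
  | nil => exact absurd h Bool.false_ne_true
  | cons z l ih =>
    change cf (Nat.beq y v)
      (cf (Nat.beq x a) (Nat.beq z c) (cf (Nat.beq x c) (Nat.beq z a) false)) (scn v a c l y z) =
      true at h
    cases h1 : Nat.beq y v with
    | false =>
      rw [h1, cf_false] at h
      obtain ⟨i, hi, h2⟩ := ih y z h
      exact ⟨i + 1, by simpa using hi, h2⟩
    | true =>
      rw [h1, cf_true] at h
      refine ⟨0, by simp, Nat.eq_of_beq_eq_true h1, ?_⟩
      cases h2 : Nat.beq x a with
      | true =>
        rw [h2, cf_true] at h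
        exact Or.inl ⟨Nat.eq_of_beq_eq_true h2, Nat.eq_of_beq_eq_true h⟩
      | false =>
        rw [h2, cf_false] at h
        cases h3 : Nat.beq x c with
        | true =>
          rw [h3, cf_true] at h
          exact Or.inr ⟨Nat.eq_of_beq_eq_true h3, Nat.eq_of_beq_eq_true h⟩
        | false =>
          rw [h3, cf_false] at h
          exact absurd h Bool.false_ne_true

theorem scn2_spec (v a c : ℕ) (l : List ℕ) (h : scn2 v a c l = true) :
    ∃ i, lnth l ((i + 1) % l.length) = v ∧
      ((lnth l (i % l.length) = a ∧ lnth l ((i + 2) % l.length) = c) ∨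
        (lnth l (i % l.length) = c ∧ lnth l ((i + 2) % l.length) = a)) := by
  rcases l with _ | ⟨x, _ | ⟨y, l⟩⟩
  · exact absurd h Bool.false_ne_true
  · exact absurd h Bool.false_ne_true
  · change scn v a c (app l (x :: y :: [])) x y = true at h
    rw [app_eq] at h
    obtain ⟨i, hi, h1⟩ := scn_spec _ _ _ _ _ _ h
    rw [List.length_append] at hi
    have h2 : ∀ j, j ≤ i + 2 → lnth (x :: y :: (l ++ [x, y])) j =
        lnth (x :: y :: l) (j % (x :: y :: l).length) := by
      intro j hj
      have hi' : i < l.length + 2 := hi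
      change lnth ((x :: y :: l) ++ [x, y]) j = _
      by_cases h3 : j < (x :: y :: l).length
      · rw [lnth_append_left _ _ _ h3, Nat.mod_eq_of_lt h3]
      · have h5 : (x :: y :: l).length = l.length + 2 := rfl
        obtain ⟨m, rfl⟩ : ∃ m, j = (x :: y :: l).length + m :=
          ⟨j - (x :: y :: l).length, by omega⟩
        rw [lnth_append_right, Nat.add_mod_left]
        have h4 : m < 2 := by omega
        rw [Nat.mod_eq_of_lt (by omega)]
        interval_cases m <;> rfl
    rw [h2 _ (by omega), h2 _ (by omega), h2 _ (by omega)] at h1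
    exact ⟨i, h1⟩

section arc

variable {V : Type} {E : Env V} {lk : List (ℕ × List ℕ)} {lb : List (ℕ × ℕ)} {f : ℕ → V}

theorem Env.Real.occ (h : E.Real lk lb f) {a v b c : ℕ}
    (h1 : scn2 v a c (findL lk b) = true) :
    E.T (f v) (f a) (f b) ∧ E.T (f v) (f b) (f c) ∧ f a ≠ f c := by
  obtain ⟨i, h3, h2⟩ := scn2_spec _ _ _ _ h1
  have h5 : findL lk b ≠ [] := by
    intro h6
    rw [h6] at h1
    exact absurd h1 Bool.false_ne_true
  have h6 := h.find h5
  have h7 := h6.2.tri_next i
  have h8 := h6.2.tri_next (i + 1)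
  have h9 := h6.2.ne (i := i) (j := i + 2) (by omega) (by have := h6.three; omega)
  rw [h3] at h7
  rw [h3, show i + 1 + 1 = i + 2 by omega] at h8
  rcases h2 with ⟨h2, h4⟩ | ⟨h2, h4⟩
  · rw [h2] at h7
    rw [h4] at h8
    rw [h2, h4] at h9
    exact ⟨E.rot _ _ _ (E.swap _ _ _ (E.rot _ _ _ (E.rot _ _ _ h7))), E.swap _ _ _ h8, h9⟩
  · rw [h2] at h7
    rw [h4] at h8
    rw [h2, h4] at h9
    have key : ∀ x y z, E.T x y z → E.T x z y := fun x y z h6 =>
      E.swap _ _ _ (E.rot _ _ _ (E.rot _ _ _ h6))
    exact ⟨key _ _ _ (E.swap _ _ _ h8),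
      key _ _ _ (E.rot _ _ _ (E.swap _ _ _ (E.rot _ _ _ (E.rot _ _ _ h7)))), h9.symm⟩

theorem Env.Real.arcW (h : E.Real lk lb f) {v : ℕ} {l : List ℕ} {a b : ℕ}
    (h1 : Pool.Agent.W986.ST.arcW lk v l a b = true) :
    ∀ j, j < l.length → E.T (f v) (f (lnth (a :: b :: l) j)) (f (lnth (a :: b :: l) (j + 1))) ∧
      E.T (f v) (f (lnth (a :: b :: l) (j + 1))) (f (lnth (a :: b :: l) (j + 2))) ∧
      f (lnth (a :: b :: l) j) ≠ f (lnth (a :: b :: l) (j + 2)) := by
  induction l generalizing a b with
  | nil => intro j hj; simp at hj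
  | cons c l ih =>
    change cf (scn2 v a c (findL lk b)) (Pool.Agent.W986.ST.arcW lk v l b c) false = true at h1
    cases h2 : scn2 v a c (findL lk b) with
    | false => rw [h2] at h1; exact absurd h1 Bool.false_ne_true
    | true =>
      rw [h2, cf_true] at h1
      intro j hj
      cases j with
      | zero => exact h.occ h2
      | succ j => exact ih h1 j (by simpa using hj)

theorem Env.Real.arc (h : E.Real lk lb f) {v : ℕ} {l : List ℕ} (h1 : arcOK lk v l = true) :
    ∀ j, j + 2 < l.length → E.T (f v) (f (lnth l j)) (f (lnth l (j + 1))) ∧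
      E.T (f v) (f (lnth l (j + 1))) (f (lnth l (j + 2))) ∧ f (lnth l j) ≠ f (lnth l (j + 2)) := by
  rcases l with _ | ⟨a, _ | ⟨b, l⟩⟩
  · exact absurd h1 Bool.false_ne_true
  · exact absurd h1 Bool.false_ne_true
  · intro j hj
    exact h.arcW h1 j (by simpa using hj)

/-- A known walk in the link of `v` is a part of the rotation at `v`. -/
theorem Env.Real.rotn (h : E.Real lk lb f) {v : ℕ} {l : List ℕ} (h1 : arcOK lk v l = true)
    (hl : 3 ≤ l.length) (hv : E.I (f v)) :
    ∃ μ, Rotn E.H E.T (f v) (E.D (f v)) μ ∧ ∀ j < l.length, μ j = f (lnth l j) := by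
  have h2 := h.arc h1
  obtain ⟨ν, hν⟩ := E.ex _ hv
  have hT : ∀ j < l.length - 1, E.T (f v) (f (lnth l j)) (f (lnth l (j + 1))) := by
    intro j hj
    by_cases h3 : j + 2 < l.length
    · exact (h2 j h3).1
    · have h4 := (h2 (j - 1) (by omega)).2.1
      rw [show j - 1 + 1 = j by omega, show j - 1 + 2 = j + 1 by omega] at h4
      exact h4
  obtain ⟨μ, hμ, h3⟩ := hν.tAlign (l.length - 1) (fun j => f (lnth l j)) (by omega) hT
    (fun j hj => (h2 j (by omega)).2.2) (E.adjT _ _ _ (hT 0 (by omega)))
  exact ⟨μ, hμ, fun j hj => h3 j (by omega)⟩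

theorem news_succ (k n : ℕ) : news (k + 1) n = n :: news k (n + 1) := rfl

theorem length_news (k n : ℕ) : (news k n).length = k := by
  induction k generalizing n with
  | zero => rfl
  | succ k ih => rw [news_succ, List.length_cons, ih]

theorem lnth_news (k n i : ℕ) (h : i < k) : lnth (news k n) i = n + i := by
  induction k generalizing n i with
  | zero => omega
  | succ k ih =>
    cases i with
    | zero => rfl
    | succ i =>
      change lnth (news k (n + 1)) i = _
      rw [ih _ _ (by omega)]
      omega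

theorem mem_news (k n x : ℕ) (h : x ∈ news k n) : n ≤ x ∧ x < n + k := by
  induction k generalizing n with
  | zero => exact absurd h (by change ¬ x ∈ ([] : List ℕ); simp)
  | succ k ih =>
    rw [news_succ, List.mem_cons] at h
    rcases h with rfl | h
    · omega
    · have := ih _ h
      omega

/-- The rotation at `v` becomes known. -/
theorem Env.Real.close {n : ℕ} (h : E.Real lk lb f) (hn : Below n lk lb) {v : ℕ} {l : List ℕ}
    (h1 : arcOK lk v l = true) (hl : 3 ≤ l.length) (hvn : v < n) (hln : ∀ x ∈ l, x < n)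
    (hv : E.I (f v)) (hd : l.length ≤ E.D (f v)) :
    ∃ g : ℕ → V, (∀ x < n, g x = f x) ∧
      E.Real ((v, l ++ news (E.D (f v) - l.length) n) :: lk) lb g ∧
      Below (n + (E.D (f v) - l.length)) ((v, l ++ news (E.D (f v) - l.length) n) :: lk) lb := by
  obtain ⟨μ, hμ, h2⟩ := h.rotn h1 hl hv
  have hg : ∀ x < n, (fun x => if x < n then f x else μ (l.length + (x - n))) x = f x :=
    fun x hx => if_pos hx
  refine ⟨fun x => if x < n then f x else μ (l.length + (x - n)), hg, ?_, ?_⟩
  · have h3 := h.congr hn hg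
    refine ⟨?_, h3.2⟩
    intro p hp
    rcases List.mem_cons.1 hp with rfl | hp
    · have hlen : (l ++ news (E.D (f v) - l.length) n).length = E.D (f v) := by
        rw [List.length_append, length_news]
        omega
      constructor
      · change E.I (if v < n then f v else _)
        rw [if_pos hvn]
        exact hv
      · dsimp only
        rw [if_pos hvn, hlen]
        refine hμ.tExt fun i => ?_
        have h4 := Nat.mod_lt i (show 0 < E.D (f v) by omega)
        have h5 : μ i = μ (i % E.D (f v)) := hμ.modEq (Nat.mod_modEq _ _).symm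
        rw [h5]
        by_cases h6 : i % E.D (f v) < l.length
        · rw [lnth_append_left _ _ _ h6, if_pos (hln _ (lnth_mem _ _ h6)), h2 _ h6]
        · obtain ⟨j, hj⟩ : ∃ j, i % E.D (f v) = l.length + j :=
            ⟨i % E.D (f v) - l.length, by omega⟩
          rw [hj, lnth_append_right, lnth_news _ _ _ (by omega), if_neg (by omega),
            show n + j - n = j by omega]
    · exact h3.1 p hp
  · refine ⟨?_, fun p hp => (hn.2 p hp).trans_le (by omega)⟩
    intro p hp
    rcases List.mem_cons.1 hp with rfl | hp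
    · refine ⟨by dsimp only; omega, fun x hx => ?_⟩
      rcases List.mem_append.1 hx with hx | hx
      · have := hln x hx
        omega
      · exact (mem_news _ _ _ hx).2
    · have h3 := hn.1 p hp
      exact ⟨by omega, fun x hx => (h3.2 x hx).trans_le (by omega)⟩

/-- The rotation at `v` becomes known, the ends of the walk coincide. -/
theorem Env.Real.close' (h : E.Real lk lb f) {v : ℕ} {l : List ℕ}
    (h1 : arcOK lk v l = true) (hl : 3 ≤ l.length) (hv : E.I (f v))
    (hd : l.length = E.D (f v) + 1) :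
    E.Real ((v, l.take (E.D (f v))) :: lk) lb f ∧ f (lnth l (E.D (f v))) = f (lnth l 0) := by
  obtain ⟨μ, hμ, h2⟩ := h.rotn h1 hl hv
  have h3 : f (lnth l (E.D (f v))) = f (lnth l 0) := by
    rw [← h2 _ (by omega), ← h2 _ (by omega)]
    have := hμ.per 0
    rwa [zero_add] at this
  refine ⟨⟨?_, h.2⟩, h3⟩
  intro p hp
  rcases List.mem_cons.1 hp with rfl | hp
  · refine ⟨hv, ?_⟩
    dsimp only
    have hlen : (l.take (E.D (f v))).length = E.D (f v) := by
      rw [List.length_take]
      omega
    rw [hlen]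
    refine hμ.tExt fun i => ?_
    have h4 := Nat.mod_lt i (show 0 < E.D (f v) by omega)
    have h5 : μ i = μ (i % E.D (f v)) := hμ.modEq (Nat.mod_modEq _ _).symm
    have h6 : lnth (l.take (E.D (f v))) (i % E.D (f v)) = lnth l (i % E.D (f v)) := by
      have h7 : l = l.take (E.D (f v)) ++ l.drop (E.D (f v)) := (List.take_append_drop _ _).symm
      conv_rhs => rw [h7]
      rw [lnth_append_left _ _ _ (by rw [hlen]; exact h4)]
    rw [h5, h6, h2 _ (by omega)]
  · exact h.1 p hp

end arc

/-! ### Evaluation -/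

theorem frcL_eq {α : Type} (l : List ℕ) (k : List ℕ → α) : frcL l k = k l := by
  induction l generalizing k with
  | nil => rfl
  | cons x l ih =>
    change frc x (fun x => frcL l fun l => k (x :: l)) = _
    rw [frc_eq, ih]

theorem frcB_eq {α : Type} (l : List (ℕ × ℕ)) (k : List (ℕ × ℕ) → α) : frcB l k = k l := by
  induction l generalizing k with
  | nil => rfl
  | cons x l ih =>
    change frc x.1 (fun a => frc x.2 fun b => frcB l fun l => k ((a, b) :: l)) = _
    rw [frc_eq, frc_eq, ih]

theorem frcK_eq {α : Type} (l : List (ℕ × List ℕ)) (k : List (ℕ × List ℕ) → α) :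
    frcK l k = k l := by
  induction l generalizing k with
  | nil => rfl
  | cons x l ih =>
    change frc x.1 (fun a => frcL x.2 fun b => frcK l fun l => k ((a, b) :: l)) = _
    rw [frc_eq, frcL_eq, ih]

theorem allLt_spec (n : ℕ) (l : List ℕ) (h : allLt n l = true) : ∀ x ∈ l, x < n := by
  induction l with
  | nil => simp
  | cons y l ih =>
    change cf (Nat.ble (Nat.succ y) n) (allLt n l) false = true at h
    cases hc : Nat.ble (Nat.succ y) n with
    | false => rw [hc] at h; exact absurd h Bool.false_ne_true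
    | true =>
      rw [hc, cf_true] at h
      intro x hx
      rcases List.mem_cons.1 hx with rfl | hx
      · exact Nat.le_of_ble_eq_true hc
      · exact ih h x hx

/-! ### Facts -/

section sat

variable {V : Type} (E : Env V)

/-- `f` realises the patch. -/
structure Env.Sat (P : Patch) (f : ℕ → V) : Prop where
  real : E.Real P.lk P.lb f
  kb : ∀ p ∈ P.kb, E.kap (f p.1) ≤ -(p.2 : ℤ)
  kg : ∀ p ∈ P.kg, -(p.2 : ℤ) < E.kap (f p.1)

/-- All labels are smaller than `n`. -/
structure Patch.Ok (P : Patch) : Prop where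
  below : Below P.n P.lk P.lb
  kb : ∀ p ∈ P.kb, p.1 < P.n
  kg : ∀ p ∈ P.kg, p.1 < P.n

/-- The fact is true. -/
def Env.Holds (Phi : (ℕ → V) → Prop) (F : Fact) : Prop :=
  ∀ f, E.Sat F.P f → F.imp = false ∧ Phi f

end sat

/-! ### The check -/

theorem hasGe_spec (v c : ℕ) (l : List (ℕ × ℕ)) (h : hasGe v c l = true) :
    ∃ b, c ≤ b ∧ (v, b) ∈ l := by
  induction l with
  | nil => exact absurd h Bool.false_ne_true
  | cons p l ih =>
    change cf (Nat.beq p.1 v) (cf (Nat.ble c p.2) true (hasGe v c l)) (hasGe v c l) = true at h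
    cases h1 : Nat.beq p.1 v with
    | false =>
      rw [h1, cf_false] at h
      obtain ⟨b, h2, h3⟩ := ih h
      exact ⟨b, h2, List.mem_cons_of_mem _ h3⟩
    | true =>
      rw [h1, cf_true] at h
      cases h2 : Nat.ble c p.2 with
      | false =>
        rw [h2, cf_false] at h
        obtain ⟨b, h2, h3⟩ := ih h
        exact ⟨b, h2, List.mem_cons_of_mem _ h3⟩
      | true =>
        refine ⟨p.2, Nat.le_of_ble_eq_true h2, ?_⟩
        rw [← Nat.eq_of_beq_eq_true h1]
        exact List.mem_cons_self

theorem hasLe_spec (v c : ℕ) (l : List (ℕ × ℕ)) (h : hasLe v c l = true) :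
    ∃ b, b ≤ c ∧ (v, b) ∈ l := by
  induction l with
  | nil => exact absurd h Bool.false_ne_true
  | cons p l ih =>
    change cf (Nat.beq p.1 v) (cf (Nat.ble p.2 c) true (hasLe v c l)) (hasLe v c l) = true at h
    cases h1 : Nat.beq p.1 v with
    | false =>
      rw [h1, cf_false] at h
      obtain ⟨b, h2, h3⟩ := ih h
      exact ⟨b, h2, List.mem_cons_of_mem _ h3⟩
    | true =>
      rw [h1, cf_true] at h
      cases h2 : Nat.ble p.2 c with
      | false =>
        rw [h2, cf_false] at h
        obtain ⟨b, h2, h3⟩ := ih h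
        exact ⟨b, h2, List.mem_cons_of_mem _ h3⟩
      | true =>
        refine ⟨p.2, Nat.le_of_ble_eq_true h2, ?_⟩
        rw [← Nat.eq_of_beq_eq_true h1]
        exact List.mem_cons_self

/-! ### Soundness -/

theorem cf_ne {b : Bool} {x : List ℕ} (h : cf b x [] ≠ []) : b = true ∧ x ≠ [] := by
  cases b with
  | true => exact ⟨rfl, h⟩
  | false => exact absurd rfl h

theorem cf_tt {b c : Bool} (h : cf b c false = true) : b = true ∧ c = true := by
  cases b with
  | true => exact ⟨rfl, h⟩
  | false => exact absurd h Bool.false_ne_true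

theorem cf_or {b : Bool} {x y : List ℕ} (h : cf b x y ≠ []) :
    (b = true ∧ x ≠ []) ∨ y ≠ [] := by
  cases b with
  | true => exact Or.inl ⟨rfl, h⟩
  | false => exact Or.inr h

theorem andThen_ne {s : List ℕ} {k : List ℕ → List ℕ} (h : andThen s k ≠ []) :
    s ≠ [] ∧ k s ≠ [] := by
  cases s with
  | nil => exact absurd rfl h
  | cons x s => exact ⟨List.cons_ne_nil _ _, h⟩

section sound

variable {V : Type} {E : Env V} {Phi : (ℕ → V) → Prop}

theorem emb_spec {lk : List (ℕ × List ℕ)} {lb : List (ℕ × ℕ)} {f : ℕ → V}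
    (h : E.Real lk lb f) (m : ℕ → ℕ) (l : List (ℕ × List ℕ)) (hl : emb lk m l = true) :
    ∀ p ∈ l, E.Lk (fun x => f (m x)) p.1 p.2 := by
  induction l with
  | nil => simp
  | cons q l ih =>
    change (frc (m q.1) fun a => frcL (mpL m q.2) fun b => frcH (findL lk a) fun c =>
      cf (same c b) (emb lk m l) false) = true at hl
    rw [frc_eq, frcL_eq, frcH_eq, mpL_eq] at hl
    obtain ⟨h1, h2⟩ := cf_tt hl
    intro p hp
    rcases List.mem_cons.1 hp with rfl | hp
    · have h3 : findL lk (m p.1) ≠ [] := by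
        intro h4
        rw [h4] at h1
        cases h5 : p.2.map m with
        | nil => rw [h5] at h1; exact absurd h1 Bool.false_ne_true
        | cons y l =>
          rw [h5] at h1
          exact absurd h1 Bool.false_ne_true
      exact ((h.find h3).same h1).map' m
    · exact ih h2 p hp

theorem embB_spec {lk : List (ℕ × List ℕ)} {lb : List (ℕ × ℕ)} {f : ℕ → V}
    (h : E.Real lk lb f) (m : ℕ → ℕ) (l : List (ℕ × ℕ)) (hl : embB lk lb m l = true) :
    ∀ p ∈ l, p.2 ≤ E.D (f (m p.1)) := by
  induction l with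
  | nil => simp
  | cons q l ih =>
    change (frc (m q.1) fun a => cf (Nat.ble q.2 (loP lk lb a)) (embB lk lb m l) false) = true at hl
    rw [frc_eq] at hl
    obtain ⟨h1, h2⟩ := cf_tt hl
    intro p hp
    rcases List.mem_cons.1 hp with rfl | hp
    · exact (Nat.le_of_ble_eq_true h1).trans (h.lo _)
    · exact ih h2 p hp

theorem embK_spec (g : ℕ → ℕ → Bool) (m : ℕ → ℕ) (l : List (ℕ × ℕ)) (hl : embK g m l = true) :
    ∀ p ∈ l, g (m p.1) p.2 = true := by
  induction l with
  | nil => simp
  | cons q l ih =>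
    change (frc (m q.1) fun a => cf (g a q.2) (embK g m l) false) = true at hl
    rw [frc_eq] at hl
    obtain ⟨h1, h2⟩ := cf_tt hl
    intro p hp
    rcases List.mem_cons.1 hp with rfl | hp
    · exact h1
    · exact ih h2 p hp

theorem fixes_spec (m : ℕ → ℕ) (n : ℕ) (h : fixes m n = true) : ∀ x < n, m x = x := by
  induction n with
  | zero => intro x hx; omega
  | succ n ih =>
    obtain ⟨h1, h2⟩ := cf_tt h
    intro x hx
    rcases Nat.lt_succ_iff_lt_or_eq.1 hx with h3 | rfl
    · exact ih h2 x h3
    · exact Nat.eq_of_beq_eq_true h1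

/-- The conclusion for the patch `P`. -/
def GoodP (E : Env V) (Phi : (ℕ → V) → Prop) (P : Patch) : Prop := ∀ f, E.Sat P f → Phi f

theorem applies_sound {n0 : ℕ} {q : Bool} {P : Patch} {m : ℕ → ℕ} {F : Fact}
    (hPhi : ∀ f g : ℕ → V, (∀ x < n0, g x = f x) → Phi g → Phi f)
    (hF : ∀ f, E.Sat F.P f → F.imp = false ∧ (q = true → Phi f))
    (h : applies n0 q P m F = true) : GoodP E Phi P := by
  intro f hf
  obtain ⟨h1, h⟩ := cf_tt h
  obtain ⟨h2, h⟩ := cf_tt h
  obtain ⟨h3, h⟩ := cf_tt h
  obtain ⟨h4, h⟩ := cf_tt h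
  have h5 : E.Sat F.P (fun x => f (m x)) := by
    refine ⟨⟨emb_spec hf.real m _ h1, embB_spec hf.real m _ h2⟩, ?_, ?_⟩
    · intro p hp
      obtain ⟨b, h6, h7⟩ := hasGe_spec _ _ _ (embK_spec _ m _ h3 p hp)
      have h8 := hf.kb _ h7
      dsimp only at h8 ⊢
      omega
    · intro p hp
      obtain ⟨b, h6, h7⟩ := hasLe_spec _ _ _ (embK_spec _ m _ h4 p hp)
      have h8 := hf.kg _ h7
      dsimp only at h8 ⊢
      omega
  obtain ⟨h6, h7⟩ := hF _ h5
  rw [h6, cf_false] at h
  obtain ⟨h8, h⟩ := cf_tt h
  exact hPhi _ _ (fun x hx => by rw [fixes_spec m n0 h x hx]) (h7 h8)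

theorem Env.Sat.congr {P : Patch} {f g : ℕ → V} (h : E.Sat P f) (hP : P.Ok)
    (hg : ∀ x < P.n, g x = f x) : E.Sat P g := by
  refine ⟨h.real.congr hP.below hg, ?_, ?_⟩
  · intro p hp
    rw [hg _ (hP.kb p hp)]
    exact h.kb p hp
  · intro p hp
    rw [hg _ (hP.kg p hp)]
    exact h.kg p hp

/-- One more lower bound. -/
theorem Env.Sat.more {P : Patch} {f : ℕ → V} (h : E.Sat P f) {v t : ℕ} (ht : t ≤ E.D (f v)) :
    E.Sat ⟨P.n, P.lk, (v, t) :: P.lb, P.kb, P.kg⟩ f := by
  refine ⟨⟨h.real.1, ?_⟩, h.kb, h.kg⟩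
  intro p hp
  rcases List.mem_cons.1 hp with rfl | hp
  · exact ht
  · exact h.real.2 p hp

theorem Patch.Ok.more {P : Patch} (h : P.Ok) {v t : ℕ} (hv : v < P.n) :
    Patch.Ok ⟨P.n, P.lk, (v, t) :: P.lb, P.kb, P.kg⟩ := by
  refine ⟨⟨h.below.1, ?_⟩, h.kb, h.kg⟩
  intro p hp
  rcases List.mem_cons.1 hp with rfl | hp
  · exact hv
  · exact h.below.2 p hp

theorem closeP_sound {n0 : ℕ} {ih : Patch → List ℕ → List ℕ} {s : List ℕ}
    (hPhi : ∀ f g : ℕ → V, (∀ x < n0, g x = f x) → Phi g → Phi f)
    (hih : ∀ P s, ih P s ≠ [] → P.Ok → n0 ≤ P.n → GoodP E Phi P)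
    {P : Patch} (hP : P.Ok) (hn : n0 ≤ P.n) {v t : ℕ} {a : List ℕ}
    (ht : t ≤ 11) (ha3 : 3 ≤ a.length) (hv : v < P.n) (hal : ∀ x ∈ a, x < P.n)
    (harc : arcOK P.lk v a = true) (h : closeP P v t a (fun Q => ih Q s) ≠ []) :
    ∀ f, E.Sat P f → E.D (f v) = t → Phi f := by
  intro f hf hD
  have hI : E.I (f v) := by
    by_contra h1
    have := E.big _ h1
    omega
  rw [closeP, frc_eq, len_eq] at h
  cases h1 : Nat.ble a.length t with
  | true =>
    rw [h1, cf_true, frcL_eq, frc_eq, app_eq] at h
    have h2 := Nat.le_of_ble_eq_true h1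
    obtain ⟨g, hg, h3, h4⟩ := hf.real.close hP.below harc ha3 hv hal hI (by omega)
    rw [hD] at h3 h4
    refine hPhi f g (fun x hx => hg x (by omega)) (hih _ s h ?_ ?_ g ?_)
    · exact ⟨h4, fun p hp => (hP.kb p hp).trans_le (Nat.le_add_right _ _),
        fun p hp => (hP.kg p hp).trans_le (Nat.le_add_right _ _)⟩
    · exact hn.trans (Nat.le_add_right _ _)
    · have h5 := hf.congr hP hg
      exact ⟨h3, h5.kb, h5.kg⟩
  | false =>
    rw [h1, cf_false] at h
    obtain ⟨h2, h⟩ := cf_ne h
    have h3 : a.length = t + 1 := Nat.eq_of_beq_eq_true h2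
    rw [frc_eq, frc_eq, frcK_eq, frcB_eq, frcB_eq, frcB_eq] at h
    obtain ⟨h4, h5⟩ := hf.real.close' harc ha3 hI (by omega)
    rw [hD] at h4 h5
    have h6 : ∀ x, f (rpl (lnth a t) (lnth a 0) x) = f x := by
      intro x
      rw [rpl]
      cases h7 : Nat.beq x (lnth a t) with
      | true =>
        rw [cf_true, Nat.eq_of_beq_eq_true h7]
        exact h5.symm
      | false => rfl
    have h8 : ∀ x < P.n, rpl (lnth a t) (lnth a 0) x < P.n := by
      intro x hx
      rw [rpl]
      cases Nat.beq x (lnth a t) with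
      | true => exact hal _ (lnth_mem _ _ (by omega))
      | false => exact hx
    have h9 := h4.relabel _ h6
    refine hih _ s h ⟨⟨?_, ?_⟩, ?_, ?_⟩ hn f ⟨h9, ?_, ?_⟩
    · intro p hp
      obtain ⟨q, hq, rfl⟩ := List.mem_map.1 hp
      have h10 : q.1 < P.n ∧ ∀ x ∈ q.2, x < P.n := by
        rcases List.mem_cons.1 hq with rfl | hq
        · exact ⟨hv, fun x hx => hal _ (List.mem_of_mem_take hx)⟩
        · exact hP.below.1 q hq
      refine ⟨h8 _ h10.1, fun x hx => ?_⟩
      obtain ⟨y, hy, rfl⟩ := List.mem_map.1 hx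
      exact h8 _ (h10.2 y hy)
    · intro p hp
      obtain ⟨q, hq, rfl⟩ := List.mem_map.1 hp
      exact h8 _ (hP.below.2 q hq)
    · intro p hp
      obtain ⟨q, hq, rfl⟩ := List.mem_map.1 hp
      exact h8 _ (hP.kb q hq)
    · intro p hp
      obtain ⟨q, hq, rfl⟩ := List.mem_map.1 hp
      exact h8 _ (hP.kg q hq)
    · intro p hp
      obtain ⟨q, hq, rfl⟩ := List.mem_map.1 hp
      rw [h6]
      exact hf.kb q hq
    · intro p hp
      obtain ⟨q, hq, rfl⟩ := List.mem_map.1 hp
      rw [h6]
      exact hf.kg q hq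

theorem differ_spec {lk : List (ℕ × List ℕ)} {lb : List (ℕ × ℕ)} {f : ℕ → V}
    (h : E.Real lk lb f) {w x y : ℕ} (hd : differ (findL lk w) x y = true) : f x ≠ f y := by
  rw [differ, frc_eq, frc_eq, frc_eq, len_eq] at hd
  obtain ⟨h1, hd⟩ := cf_tt hd
  obtain ⟨h2, hd⟩ := cf_tt hd
  have h1 : posn (findL lk w) x < (findL lk w).length := Nat.le_of_ble_eq_true h1
  have h2 : posn (findL lk w) y < (findL lk w).length := Nat.le_of_ble_eq_true h2
  have h3 : posn (findL lk w) x ≠ posn (findL lk w) y := by
    intro h4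
    rw [h4, Nat.beq_refl] at hd
    exact absurd hd Bool.false_ne_true
  have h4 : findL lk w ≠ [] := by
    intro h5
    rw [h5] at h1
    simp at h1
  have h5 := h.find h4
  intro h6
  have h7 := h5.2.inj _ h1 _ h2 (by
    rw [Nat.mod_eq_of_lt h1, Nat.mod_eq_of_lt h2, posn_spec _ _ h1, posn_spec _ _ h2, h6])
  exact h3 h7

theorem dupL_spec (l : List ℕ) (h : dupL l = true) :
    ∃ i j, i < j ∧ j < l.length ∧ lnth l i = lnth l j := by
  induction l with
  | nil => exact absurd h Bool.false_ne_true
  | cons x l ih =>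
    change (frc (posn l x) fun i => frc (len l) fun n =>
      cf (Nat.ble (Nat.succ i) n) true (dupL l)) = true at h
    rw [frc_eq, frc_eq, len_eq] at h
    cases h1 : Nat.ble (Nat.succ (posn l x)) l.length with
    | true =>
      have h2 := Nat.le_of_ble_eq_true h1
      refine ⟨0, posn l x + 1, Nat.succ_pos _, ?_, ?_⟩
      · rw [List.length_cons]
        omega
      · exact (posn_spec l x h2).symm
    | false =>
      rw [h1, cf_false] at h
      obtain ⟨i, j, h2, h3, h4⟩ := ih h
      refine ⟨i + 1, j + 1, by omega, ?_, h4⟩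
      rw [List.length_cons]
      omega

theorem badAt_spec {P : Patch} {v : ℕ} (h : badAt P v = true) (f : ℕ → V) : ¬ E.Sat P f := by
  intro hf
  rw [badAt, frcH_eq, frc_eq, len_eq] at h
  cases h1 : Nat.beq (findL P.lk v).length 0 with
  | true => rw [h1] at h; exact absurd h Bool.false_ne_true
  | false =>
    rw [h1, cf_false] at h
    have h2 : findL P.lk v ≠ [] := by
      intro h3
      rw [h3] at h1
      exact absurd h1 (by decide)
    have h3 := hf.real.find h2
    cases h4 : dupL (findL P.lk v) with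
    | true =>
      obtain ⟨i, j, h5, h6, h7⟩ := dupL_spec _ h4
      have h8 := h3.2.inj i (by omega) j h6 (by
        change f (lnth _ (i % _)) = f (lnth _ (j % _))
        rw [Nat.mod_eq_of_lt (by omega), Nat.mod_eq_of_lt h6, h7])
      omega
    | false =>
      rw [h4, cf_false, frc_eq] at h
      cases h5 : Nat.ble (Nat.succ (posn (findL P.lk v) v)) (findL P.lk v).length with
      | true =>
        have h6 := Nat.le_of_ble_eq_true h5
        have h7 : E.H.Adj (f v) (f v) := (h3.2.adj (f v)).2 ⟨posn (findL P.lk v) v, h6, by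
          change f (lnth _ (_ % _)) = f v
          rw [Nat.mod_eq_of_lt h6, posn_spec _ _ h6]⟩
        exact E.H.loopless.irrefl _ h7
      | false =>
        rw [h5, cf_false] at h
        obtain ⟨b, h6, h7⟩ := hasGe_spec _ _ _ h
        have h8 := hf.real.2 _ h7
        have h9 := h3.deg
        change b ≤ E.D (f v) at h8
        omega

section

variable {n0 : ℕ} {ih : Patch → List ℕ → List ℕ}
  (hPhi : ∀ f g : ℕ → V, (∀ x < n0, g x = f x) → Phi g → Phi f)
  (hih : ∀ P s, ih P s ≠ [] → P.Ok → n0 ≤ P.n → GoodP E Phi P)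

include hPhi hih in
theorem split_sound {P : Patch} {v : ℕ} {a s : List ℕ} (hP : P.Ok) (hn : n0 ≤ P.n)
    (h : split P v (findB P.lb v) a ih s ≠ []) : GoodP E Phi P := by
  obtain ⟨h1, h⟩ := cf_ne h
  obtain ⟨h2, h⟩ := cf_ne h
  obtain ⟨h3, h⟩ := cf_ne h
  obtain ⟨h5, h⟩ := cf_ne h
  obtain ⟨h6, h⟩ := cf_ne h
  have h2 := Nat.le_of_ble_eq_true h2
  rw [len_eq] at h2
  have h3 : v < P.n := Nat.le_of_ble_eq_true h3
  obtain ⟨h7, h⟩ := andThen_ne h
  rw [frc_eq] at h
  have h8 := closeP_sound hPhi hih hP hn (Nat.le_of_ble_eq_true h1) h2 h3 (allLt_spec _ _ h5) h6 h7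
  have h10 := hih _ _ h (hP.more h3) hn
  intro f hf
  have h11 := hf.real.findB v
  rcases Nat.lt_or_ge (findB P.lb v) (E.D (f v)) with h12 | h12
  · exact h10 f (hf.more h12)
  · exact h8 f hf (le_antisymm h12 h11)

include hih in
theorem nosplit_sound {P : Patch} {v j w : ℕ} {a s : List ℕ} (hP : P.Ok) (hn : n0 ≤ P.n)
    (h : nosplit P v (findB P.lb v) a j w ih s ≠ []) : GoodP E Phi P := by
  obtain ⟨h1, h⟩ := cf_ne h
  obtain ⟨h2, h⟩ := cf_ne h
  obtain ⟨h3, h⟩ := cf_ne h
  obtain ⟨h5, h⟩ := cf_ne h
  obtain ⟨h6, h⟩ := cf_ne h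
  obtain ⟨h7, h⟩ := cf_ne h
  rw [frc_eq] at h
  have h1 := Nat.le_of_ble_eq_true h1
  have h2 := Nat.le_of_ble_eq_true h2
  rw [len_eq] at h2
  have h3 : v < P.n := Nat.le_of_ble_eq_true h3
  have h5 : j + findB P.lb v < len a := Nat.le_of_ble_eq_true h5
  rw [len_eq] at h5
  have h10 := hih _ _ h (hP.more h3) hn
  intro f hf
  have h11 := hf.real.findB v
  rcases Nat.lt_or_ge (findB P.lb v) (E.D (f v)) with h12 | h12
  · exact h10 f (hf.more h12)
  · exfalso
    have hD : E.D (f v) = findB P.lb v := le_antisymm h12 h11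
    have hI : E.I (f v) := by
      by_contra h1
      have := E.big _ h1
      omega
    obtain ⟨μ, hμ, h13⟩ := hf.real.rotn h7 h2 hI
    have h14 := differ_spec hf.real h6
    change f (lnth a j) ≠ f (lnth a (j + findB P.lb v)) at h14
    rw [← h13 j (by omega), ← h13 _ h5, ← hD] at h14
    exact h14 (hμ.per j).symm

include hih in
theorem kdich_sound {P : Patch} {y c : ℕ} {s : List ℕ} (hP : P.Ok) (hn : n0 ≤ P.n)
    (h : kdich P y c ih s ≠ []) : GoodP E Phi P := by
  obtain ⟨h1, h⟩ := cf_ne h
  have h1 : y < P.n := Nat.le_of_ble_eq_true h1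
  obtain ⟨h2, h3⟩ := andThen_ne h
  have h4 := hih _ _ h2 ⟨hP.below, fun p hp => by
    rcases List.mem_cons.1 hp with rfl | hp
    · exact h1
    · exact hP.kb p hp, hP.kg⟩ hn
  have h5 := hih _ _ h3 ⟨hP.below, hP.kb, fun p hp => by
    rcases List.mem_cons.1 hp with rfl | hp
    · exact h1
    · exact hP.kg p hp⟩ hn
  intro f hf
  by_cases h6 : E.kap (f y) ≤ -(c : ℤ)
  · refine h4 f ⟨hf.real, fun p hp => ?_, hf.kg⟩
    rcases List.mem_cons.1 hp with rfl | hp
    · exact h6
    · exact hf.kb p hp
  · refine h5 f ⟨hf.real, hf.kb, fun p hp => ?_⟩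
    rcases List.mem_cons.1 hp with rfl | hp
    · exact not_le.1 h6
    · exact hf.kg p hp

include hPhi hih in
theorem stepF_sound {q : Bool} {leaf : Patch → Bool} {fl : ℕ → Option Fact} {bd : ℕ}
    (hleaf : ∀ P f, leaf P = true → E.Sat P f → Phi f)
    (hfs : ∀ c < bd, ∀ F, fl c = some F →
      ∀ f, E.Sat F.P f → F.imp = false ∧ (q = true → Phi f))
    (P : Patch) (x : ℕ) (s : List ℕ) (h : stepF n0 q leaf fl bd ih P x s ≠ []) (hP : P.Ok)
    (hn : n0 ≤ P.n) : GoodP E Phi P := by
  rw [stepF, frc_eq, frc_eq] at h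
  rcases cf_or h with ⟨_, h⟩ | h
  · exact fun f hf => hleaf P f (cf_ne h).1 hf
  rcases cf_or h with ⟨_, h⟩ | h
  · rw [frc_eq, frc_eq] at h
    cases hF : fl (Nat.land (Nat.shiftRight x 12) 4095) with
    | none => rw [hF] at h; exact absurd rfl h
    | some F =>
      rw [hF] at h
      obtain ⟨h1, _⟩ := cf_ne h
      obtain ⟨h2, h3⟩ := cf_tt h1
      exact applies_sound hPhi (hfs _ (Nat.le_of_ble_eq_true h2) F hF) h3
  rcases cf_or h with ⟨_, h⟩ | h
  · rw [frc_eq, frc_eq, frcL_eq, frc_eq] at h
    exact split_sound hPhi hih hP hn h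
  rcases cf_or h with ⟨_, h⟩ | h
  · rw [frc_eq, frc_eq, frcL_eq, frc_eq, frc_eq, frc_eq] at h
    exact nosplit_sound hih hP hn h
  rcases cf_or h with ⟨_, h⟩ | h
  · rw [frc_eq, frc_eq] at h
    exact kdich_sound hih hP hn h
  rcases cf_or h with ⟨_, h⟩ | h
  · rw [frc_eq, frc_eq] at h
    cases hF : fl (Nat.land (Nat.shiftRight x 12) 16777215) with
    | none => rw [hF] at h; exact absurd rfl h
    | some F =>
      rw [hF] at h
      obtain ⟨h1, _⟩ := cf_ne h
      obtain ⟨h2, h3⟩ := cf_tt h1
      exact applies_sound hPhi (hfs _ (Nat.le_of_ble_eq_true h2) F hF) h3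
  rcases cf_or h with ⟨_, h⟩ | h
  · rw [frc_eq] at h
    exact fun f hf => absurd hf (badAt_spec (cf_ne h).1 f)
  · exact absurd rfl h

end

theorem chkF_sound {n0 : ℕ} {q : Bool} {leaf : Patch → Bool} {fl : ℕ → Option Fact} {bd : ℕ}
    (hleaf : ∀ P f, leaf P = true → E.Sat P f → Phi f)
    (hfs : ∀ c < bd, ∀ F, fl c = some F →
      ∀ f, E.Sat F.P f → F.imp = false ∧ (q = true → Phi f))
    (hPhi : ∀ f g : ℕ → V, (∀ x < n0, g x = f x) → Phi g → Phi f) (fuel : ℕ) :
    ∀ P s, chkF n0 q leaf fl bd fuel P s ≠ [] → P.Ok → n0 ≤ P.n → GoodP E Phi P := by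
  induction fuel with
  | zero => intro P s h; exact absurd rfl h
  | succ fuel ih =>
    intro P s h
    cases s with
    | nil => exact absurd rfl h
    | cons x s => exact stepF_sound hPhi ih hleaf hfs P x s h

theorem chk_sound {n0 : ℕ} {q : Bool} {leaf : Patch → Bool} {fs : List Fact} {bd : ℕ}
    (hleaf : ∀ P f, leaf P = true → E.Sat P f → Phi f)
    (hfs : ∀ c < bd, ∀ F, fnth fs c = some F →
      ∀ f, E.Sat F.P f → F.imp = false ∧ (q = true → Phi f))
    (hPhi : ∀ f g : ℕ → V, (∀ x < n0, g x = f x) → Phi g → Phi f) (fuel : ℕ) :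
    ∀ P s, chk n0 q leaf fs bd fuel P s ≠ [] → P.Ok → n0 ≤ P.n → GoodP E Phi P :=
  chkF_sound (fl := fnth fs) hleaf hfs hPhi fuel

theorem okL_spec (n : ℕ) (l : List (ℕ × List ℕ)) (h : okL n l = true) :
    ∀ p ∈ l, p.1 < n ∧ ∀ x ∈ p.2, x < n := by
  induction l with
  | nil => simp
  | cons q l ih =>
    obtain ⟨h1, h⟩ := cf_tt h
    obtain ⟨h2, h⟩ := cf_tt h
    intro p hp
    rcases List.mem_cons.1 hp with rfl | hp
    · exact ⟨Nat.le_of_ble_eq_true h1, allLt_spec _ _ h2⟩
    · exact ih h p hp

theorem okB_spec (n : ℕ) (l : List (ℕ × ℕ)) (h : okB n l = true) : ∀ p ∈ l, p.1 < n := by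
  induction l with
  | nil => simp
  | cons q l ih =>
    obtain ⟨h1, h⟩ := cf_tt h
    intro p hp
    rcases List.mem_cons.1 hp with rfl | hp
    · exact Nat.le_of_ble_eq_true h1
    · exact ih h p hp

theorem cons?_spec {l : List ℕ} (h : cons? l = true) : l ≠ [] := by
  rintro rfl
  exact absurd h Bool.false_ne_true

/-- Everything proved by `runF` is true; the facts are given by the function `fl`. -/
theorem runF_sound {n0 : ℕ} {leafI leafF : Patch → Bool} {fl : ℕ → Option Fact} {fuel : ℕ}
    (hI : ∀ P f, leafI P = true → ¬ E.Sat P f)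
    (hleaf : ∀ P f, leafF P = true → E.Sat P f → Phi f)
    (hPhi : ∀ f g : ℕ → V, (∀ x < n0, g x = f x) → Phi g → Phi f) (l : List (List ℕ)) :
    ∀ a, (∀ c < a, ∀ F, fl c = some F → E.Holds Phi F) →
      runF n0 leafI leafF fl fuel l a = true →
      ∀ c < a + l.length, ∀ F, fl c = some F → E.Holds Phi F := by
  induction l with
  | nil => intro a h _ c hc; exact h c hc
  | cons s l ih =>
    intro a h1 h2
    change (frc a fun a => @Option.rec Fact (fun _ => Bool) false
      (fun F =>
        cf (cf (okL F.P.n F.P.lk) (cf (okB F.P.n F.P.lb) (cf (okB F.P.n F.P.kb)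
          (cf (okB F.P.n F.P.kg) (Nat.ble n0 F.P.n) false) false) false) false)
          (cf (cons? (cf F.imp (chkF 0 false leafI fl a fuel F.P s)
            (chkF n0 true leafF fl a fuel F.P s))) (runF n0 leafI leafF fl fuel l (Nat.succ a))
              false) false)
      (fl a)) = true at h2
    rw [frc_eq] at h2
    cases hF : fl a with
    | none => rw [hF] at h2; exact absurd h2 Bool.false_ne_true
    | some F =>
      rw [hF] at h2
      obtain ⟨h3, h4⟩ := cf_tt h2
      obtain ⟨h5, h3⟩ := cf_tt h3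
      obtain ⟨h6, h3⟩ := cf_tt h3
      obtain ⟨h7, h3⟩ := cf_tt h3
      obtain ⟨h8, h9⟩ := cf_tt h3
      have hP : F.P.Ok := ⟨⟨okL_spec _ _ h5, okB_spec _ _ h6⟩, okB_spec _ _ h7, okB_spec _ _ h8⟩
      have h10 := Nat.le_of_ble_eq_true h9
      obtain ⟨h4, h13⟩ := cf_tt h4
      have h4 := cons?_spec h4
      have h11 : E.Holds Phi F := by
        cases hi : F.imp with
        | true =>
          rw [hi, cf_true] at h4
          intro f hf
          exact (chkF_sound (E := E) (Phi := fun _ => False) (n0 := 0) (q := false)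
            (fun P f h h' => hI P f h h')
            (fun c hc F hF f hf => ⟨(h1 c hc F hF f hf).1, fun h => absurd h Bool.false_ne_true⟩)
            (fun _ _ _ h => h) fuel F.P s h4 hP (Nat.zero_le _) f hf).elim
        | false =>
          rw [hi, cf_false] at h4
          intro f hf
          refine ⟨hi, ?_⟩
          exact chkF_sound (E := E) (Phi := Phi) (q := true) hleaf
            (fun c hc F hF f hf => ⟨(h1 c hc F hF f hf).1, fun _ => (h1 c hc F hF f hf).2⟩)
            hPhi fuel F.P s h4 hP h10 f hf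
      have h12 := ih (a + 1) (fun c hc G hG => by
        rcases Nat.lt_succ_iff_lt_or_eq.1 hc with h13 | rfl
        · exact h1 c h13 G hG
        · rw [hF] at hG
          rw [← Option.some.inj hG]
          exact h11) h13
      intro c hc
      exact h12 c (by rw [List.length_cons] at hc; omega)

/-- The soundness of the check. -/
theorem run_sound {n0 : ℕ} {leafI leafF : Patch → Bool} {fs : List Fact} {fuel : ℕ}
    (hI : ∀ P f, leafI P = true → ¬ E.Sat P f)
    (hleaf : ∀ P f, leafF P = true → E.Sat P f → Phi f)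
    (hPhi : ∀ f g : ℕ → V, (∀ x < n0, g x = f x) → Phi g → Phi f) (l : List (List ℕ)) :
    ∀ a, (∀ c < a, ∀ F, fnth fs c = some F → E.Holds Phi F) →
      run n0 leafI leafF fs fuel l a = true →
      ∀ c < a + l.length, ∀ F, fnth fs c = some F → E.Holds Phi F :=
  runF_sound (fl := fnth fs) hI hleaf hPhi l

end sound

/-! ### Long lists of facts -/

/-- `ts` is the list of the ends of its first entry from the numbers `0`, `64`, `128`, ... on. -/
def EndsOK : List (List Fact) → Prop
  | [] => True
  | [_] => True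
  | a :: b :: l => a.drop 64 = b ∧ EndsOK (b :: l)

theorem fnth_drop (l : List Fact) (i j : ℕ) : fnth (l.drop i) j = fnth l (i + j) := by
  induction l generalizing i with
  | nil =>
    cases i with
    | zero => rw [List.drop_zero, Nat.zero_add]
    | succ i => rfl
  | cons x l ih =>
    cases i with
    | zero => rw [List.drop_zero, Nat.zero_add]
    | succ i =>
      rw [List.drop_succ_cons, ih, Nat.succ_add]
      rfl

theorem tnth_drop (ts : List (List Fact)) (h : EndsOK ts) (i : ℕ) (hi : i < ts.length) :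
    tnth ts i = (tnth ts 0).drop (64 * i) := by
  induction ts generalizing i with
  | nil => exact absurd hi (Nat.not_lt_zero _)
  | cons a l ih =>
    cases i with
    | zero => rfl
    | succ i =>
      cases l with
      | nil =>
        rw [List.length_singleton] at hi
        omega
      | cons b l =>
        obtain ⟨h1, h2⟩ := h
        have h3 := ih h2 i (by rw [List.length_cons] at hi; omega)
        change tnth (b :: l) i = a.drop (64 * (i + 1))
        rw [h3]
        change b.drop (64 * i) = _
        rw [← h1, List.drop_drop]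
        congr 1
        omega

theorem fidx_eq {a : List Fact} {ts : List (List Fact)} (h : EndsOK (a :: ts)) {n : ℕ}
    (hn : n < 64 * (ts.length + 1)) : fidx (a :: ts) n = fnth a n := by
  rw [fidx, frc_eq, frc_eq]
  have h1 : Nat.shiftRight n 6 = n / 64 := Nat.shiftRight_eq_div_pow n 6
  have h2 : Nat.land n 63 = n % 64 := Nat.and_two_pow_sub_one_eq_mod n 6
  rw [h1, h2, tnth_drop _ h _ (by rw [List.length_cons]; omega), fnth_drop]
  change fnth a _ = _
  congr 1
  omega

end ST

end Pool.Agent.W986
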