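import Pool.Agent.W986.SubCovB
import Pool.Agent.W986.SubFastS47
import Pool.Agent.W986.SubTree

/-!
# Configurations: soundness of the check by covers
-/

set_option autoImplicit false

namespace Pool.Agent.W986

namespace KData

/-- The colouring `d` of the inner vertices extends the colouring `cc` of the classes, for all
saturated sets contained in `p`. -/
structure Exd (D : KData) (p : List ℕ) (cc d : ℕ → ℕ) : Prop where
  ii : ∀ i j j', (i, j) ∈ D.inn → (i, j') ∈ D.inn → j ≠ j' → ¬ (d j = d i ∧ d j' = d i)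
  ir : ∀ i j r, (i, j) ∈ D.inn → (i, r) ∈ D.mix → ¬ (d j = d i ∧ cc (D.q r) = d i)
  rr : ∀ i r s, (i, r) ∈ D.mix → (i, s) ∈ D.mix → r ≠ s → ¬ (cc (D.q r) = d i ∧ cc (D.q s) = d i)
  ri : ∀ i i' r, (i, r) ∈ D.mix → (i', r) ∈ D.mix → i ≠ i' →
    ¬ (d i = cc (D.q r) ∧ d i' = cc (D.q r))
  sa : ∀ i r, (i, r) ∈ D.mix → D.SatP p cc r → d i ≠ cc (D.q r)

theorem Exd.perm {D : KData} {p : List ℕ} {cc d : ℕ → ℕ} (σ : ℕ → ℕ) (hσ : Function.Injective σ)
    (h : D.Exd p (fun x => σ (cc x)) (fun x => σ (d x))) : D.Exd p cc d := by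
  obtain ⟨h1, h2, h3, h4, h5⟩ := h
  unfold SatP at h5
  simp only [hσ.eq_iff, ne_eq] at h1 h2 h3 h4 h5
  exact ⟨h1, h2, h3, h4, h5⟩

/-- A criterion. -/
theorem red_of_exd (D : KData) (hq : ∀ r, r < D.L → D.q r < D.k)
    (hrng : ∀ r s, (r, s) ∈ D.rng → r < D.L ∧ s < D.L)
    (hchq : ∀ A B, (A, B) ∈ D.chq → A < D.k ∧ B < D.k)
    (hex : ∀ p ∈ pats ((List.range D.k).map D.mem), ∀ cc : ℕ → ℕ, (∀ x, cc x < 4) → D.Poss p cc →
      ∃ d : ℕ → ℕ, (∀ x, d x < 4) ∧ D.Exd p cc d) : D.conf.Red := by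
  classical
  intro c m hs
  -- colours of the classes
  let cc : ℕ → ℕ := fun x => if h : x < D.kp + 1 then (c ⟨x, h⟩).val else 0
  have hcc4 : ∀ x, cc x < 4 := by
    intro x
    change (if h : x < D.kp + 1 then (c ⟨x, h⟩).val else 0) < 4
    split_ifs
    · exact (c _).isLt
    · omega
  have hccA : ∀ A : Fin (D.kp + 1), cc A = (c A).val := by
    intro A
    change (if h : A.val < D.kp + 1 then (c ⟨A.val, h⟩).val else 0) = _
    rw [dif_pos A.2]
  have hclv : ∀ r : Fin D.L, (D.conf.cls r).val = D.q r := by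
    intro r
    change D.q r % (D.kp + 1) = D.q r
    exact Nat.mod_eq_of_lt (hq r r.2)
  have hcls : ∀ r s : Fin D.L, D.q r = D.q s → D.conf.cls r = D.conf.cls s := by
    intro r s hrs
    rw [Fin.ext_iff, hclv, hclv, hrs]
  have hcc : ∀ r : Fin D.L, cc (D.q r) = (c (D.conf.cls r)).val := by
    intro r
    rw [← hccA, hclv]
  have hceq : ∀ r s : Fin D.L, cc (D.q r) = cc (D.q s) → c (D.conf.cls r) = c (D.conf.cls s) := by
    intro r s h
    rw [hcc, hcc] at h
    exact Fin.ext h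
  have hceqA : ∀ A B : Fin (D.kp + 1), cc A = cc B → c A = c B := by
    intro A B h
    rw [hccA, hccA] at h
    exact Fin.ext h
  -- the saturated vertices
  obtain ⟨p, hp, hpm⟩ := exists_pat (fun r => ∃ h : r < D.L, m ⟨r, h⟩ = true)
    ((List.range D.k).map D.mem) (by
      intro C hC r hr s hs' hmr hms
      rw [List.mem_map] at hC
      obtain ⟨x, -, rfl⟩ := hC
      rw [mem, List.mem_filter, CData.beq_iff] at hr hs'
      obtain ⟨h1, h2⟩ := hmr
      obtain ⟨h3, h4⟩ := hms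
      have h5 := hs.one ⟨r, h1⟩ ⟨s, h3⟩ (hcls _ _ (by rw [hr.2, hs'.2])) h2 h4
      exact congrArg Fin.val h5)
  have hpm' : ∀ r : Fin D.L, m r = true → r.val ∈ p := by
    intro r hr
    refine hpm (D.mem (D.q r)) ?_ r.val ?_ ⟨r.2, hr⟩
    · exact List.mem_map.2 ⟨D.q r, List.mem_range.2 (hq r r.2), rfl⟩
    · rw [mem, List.mem_filter, CData.beq_iff]
      exact ⟨List.mem_range.2 r.2, rfl⟩
  have hrngT : ∀ r s : Fin D.L, (r.val, s.val) ∈ D.rng → D.conf.rng r s = true := by
    intro r s h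
    exact (mem2_iff _ _ _).2 h
  have hchdT : ∀ A B : Fin (D.kp + 1), (A.val, B.val) ∈ D.chq → D.conf.chd A B = true := by
    intro r s h
    exact (mem2_iff _ _ _).2 h
  -- the colouring is possible
  have hposs : D.Poss p cc := by
    constructor
    · intro r s hrs hrp he
      obtain ⟨hr, hs1⟩ := hrng r s hrs
      exact hrp (hpm' ⟨r, hr⟩ (hs.rng ⟨r, hr⟩ ⟨s, hs1⟩ (hrngT ⟨r, hr⟩ ⟨s, hs1⟩ hrs)
        (hceq ⟨r, hr⟩ ⟨s, hs1⟩ he)))
    · rintro r s s' hrs hrs' hne ⟨e1, e2⟩
      obtain ⟨hr, hs1⟩ := hrng r s hrs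
      obtain ⟨-, hs2⟩ := hrng r s' hrs'
      have h6 := hs.two ⟨r, hr⟩ ⟨s, hs1⟩ ⟨s', hs2⟩ (hrngT ⟨r, hr⟩ ⟨s, hs1⟩ hrs)
        (hrngT ⟨r, hr⟩ ⟨s', hs2⟩ hrs') (hceq ⟨r, hr⟩ ⟨s, hs1⟩ e1) (hceq ⟨r, hr⟩ ⟨s', hs2⟩ e2)
      exact hne (congrArg Fin.val h6)
    · rintro A B B' hAB hAB' hne ⟨e1, e2⟩
      obtain ⟨hA, hB⟩ := hchq A B hAB
      obtain ⟨-, hB'⟩ := hchq A B' hAB'
      have h6 := hs.chd2 ⟨A, hA⟩ ⟨B, hB⟩ ⟨B', hB'⟩ (hchdT ⟨A, hA⟩ ⟨B, hB⟩ hAB)
        (hchdT ⟨A, hA⟩ ⟨B', hB'⟩ hAB') (hceqA ⟨A, hA⟩ ⟨B, hB⟩ e1) (hceqA ⟨A, hA⟩ ⟨B', hB'⟩ e2)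
      exact hne (congrArg Fin.val h6)
    · rintro A B r s hAB hrs hAr ⟨e1, e2⟩
      obtain ⟨hA, hB⟩ := hchq A B hAB
      obtain ⟨hr, hs1⟩ := hrng r s hrs
      have h6 := (hs.chd ⟨A, hA⟩ ⟨B, hB⟩ (hchdT ⟨A, hA⟩ ⟨B, hB⟩ hAB)
        (hceqA ⟨A, hA⟩ ⟨B, hB⟩ e1)).1 ⟨r, hr⟩ (by rw [Fin.ext_iff, hclv]; exact hAr.symm)
      have h7 := hs.rng ⟨r, hr⟩ ⟨s, hs1⟩ (hrngT ⟨r, hr⟩ ⟨s, hs1⟩ hrs) (hceq ⟨r, hr⟩ ⟨s, hs1⟩ e2)
      rw [h6] at h7
      exact absurd h7 (by decide)
  have hsatP : ∀ r : Fin D.L, m r = true → D.SatP p cc r := by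
    intro r hmr
    refine ⟨hpm' r hmr, fun B hB he => ?_⟩
    obtain ⟨h1, h2⟩ := hchq _ _ hB
    have h6 := (hs.chd ⟨D.q r, h1⟩ ⟨B, h2⟩ (hchdT ⟨D.q r, h1⟩ ⟨B, h2⟩ hB)
      (hceqA ⟨D.q r, h1⟩ ⟨B, h2⟩ he)).1 r (by rw [Fin.ext_iff, hclv])
    rw [hmr] at h6
    exact absurd h6 (by decide)
  -- the extension
  obtain ⟨d, hd, H⟩ := hex p hp cc hcc4 hposs
  refine ⟨fun i => ⟨d i, hd i⟩, ?_, ?_, ?_⟩
  · intro i
    refine ncard_add_ncard_le_one _ _ ?_ ?_ ?_
    · rintro x ⟨hx, ex⟩ y ⟨hy, ey⟩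
      rw [Fin.mk.injEq] at ex ey
      by_contra hne
      exact H.ii i x y ((mem2_iff _ _ _).1 hx) ((mem2_iff _ _ _).1 hy)
        (fun h => hne (Fin.ext h)) ⟨ex, ey⟩
    · rintro x ⟨hx, ex⟩ y ⟨hy, ey⟩
      rw [Fin.ext_iff, ← hcc] at ex ey
      by_contra hne
      exact H.rr i x y ((mem2_iff _ _ _).1 hx) ((mem2_iff _ _ _).1 hy)
        (fun h => hne (Fin.ext h)) ⟨ex, ey⟩
    · rintro x ⟨hx, ex⟩ y ⟨hy, ey⟩
      rw [Fin.mk.injEq] at ex
      rw [Fin.ext_iff, ← hcc] at ey
      exact H.ir i x y ((mem2_iff _ _ _).1 hx) ((mem2_iff _ _ _).1 hy) ⟨ex, ey⟩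
  · intro r
    rw [Set.ncard_le_one (Set.toFinite _)]
    rintro x ⟨hx, ex⟩ y ⟨hy, ey⟩
    rw [Fin.ext_iff, ← hcc] at ex ey
    by_contra hne
    exact H.ri x y r ((mem2_iff _ _ _).1 hx) ((mem2_iff _ _ _).1 hy)
      (fun h => hne (Fin.ext h)) ⟨ex, ey⟩
  · intro r i hmr hir hde
    rw [Fin.ext_iff, ← hcc] at hde
    exact H.sa i r ((mem2_iff _ _ _).1 hir) (hsatP r hmr) hde

end KData

namespace Cov

open Pool.Agent.W986.ST

/-! ### Lists -/

theorem orL_bit {α : Type} (f : α → ℕ) (l : List α) (i : ℕ) :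
    (orL f l).testBit i = true ↔ ∃ x ∈ l, (f x).testBit i = true := by
  induction l with
  | nil => simp [orL]
  | cons y l ih =>
    change (Nat.lor (f y) (orL f l)).testBit i = true ↔ _
    rw [SubF.testBit_lor, ih]
    simp

theorem mm_iff (x : ℕ) (l : List ℕ) : mm x l = true ↔ x ∈ l := by
  induction l with
  | nil => simp [mm]
  | cons y l ih =>
    change cf (Nat.beq y x) true (mm x l) = true ↔ _
    cases h : Nat.beq y x with
    | true =>
      rw [cf_true, (CData.beq_iff y x).1 h]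
      simp
    | false =>
      have h1 := (CData.beq_false_iff y x).1 h
      rw [cf_false, ih, List.mem_cons]
      constructor
      · exact Or.inr
      · rintro (h2 | h2)
        · exact absurd h2.symm h1
        · exact h2

theorem mm2_iff (x y : ℕ) (l : List (ℕ × ℕ)) : mm2 x y l = true ↔ (x, y) ∈ l := by
  induction l with
  | nil => simp [mm2]
  | cons p l ih =>
    obtain ⟨a, b⟩ := p
    change cf (Nat.beq a x) (cf (Nat.beq b y) true (mm2 x y l)) (mm2 x y l) = true ↔ _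
    rw [List.mem_cons, Prod.mk.injEq, ← ih]
    cases h : Nat.beq a x with
    | true =>
      cases h' : Nat.beq b y with
      | true =>
        rw [cf_true, cf_true, (CData.beq_iff a x).1 h, (CData.beq_iff b y).1 h']
        simp
      | false =>
        have h1 := (CData.beq_false_iff b y).1 h'
        rw [cf_true, cf_false]
        constructor
        · exact Or.inr
        · rintro (⟨-, h2⟩ | h2)
          · exact absurd h2.symm h1
          · exact h2
    | false =>
      have h1 := (CData.beq_false_iff a x).1 h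
      rw [cf_false]
      constructor
      · exact Or.inr
      · rintro (⟨h2, -⟩ | h2)
        · exact absurd h2.symm h1
        · exact h2

theorem ms_iff (x y : ℕ) (l : List (ℕ × ℕ)) : ms x y l = true ↔ (x, y) ∈ l ∨ (y, x) ∈ l := by
  unfold ms
  rw [← mm2_iff, ← mm2_iff]
  cases mm2 x y l
  · simp [cf_false]
  · simp [cf_true]

theorem al_iff {α : Type} (f : α → Bool) (l : List α) : al f l = true ↔ ∀ x ∈ l, f x = true := by
  induction l with
  | nil => simp [al]
  | cons y l ih =>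
    change cf (f y) (al f l) false = true ↔ _
    cases h : f y with
    | true =>
      rw [cf_true, ih]
      simp [h]
    | false =>
      rw [cf_false]
      simp [h]

theorem alN_iff (f : ℕ → Bool) (n : ℕ) : alN f n = true ↔ ∀ x < n, f x = true := by
  induction n with
  | zero => simp [alN]
  | succ n ih =>
    change cf (f n) (alN f n) false = true ↔ _
    cases h : f n with
    | true =>
      rw [cf_true, ih]
      constructor
      · intro h1 x hx
        by_cases hxn : x = n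
        · rw [hxn, h]
        · exact h1 x (by omega)
      · intro h1 x hx
        exact h1 x (by omega)
    | false =>
      rw [cf_false]
      constructor
      · intro h1
        exact absurd h1 (by decide)
      · intro h1
        rw [← h]
        exact h1 n (by omega)

theorem al2_spec (f : ℕ → ℕ → Bool) (l : List ℕ) (h : al2 f l = true) :
    ∀ x ∈ l, ∀ y ∈ l, x ≠ y → f x y = true ∨ f y x = true := by
  induction l with
  | nil =>
    intro x hx
    simp at hx
  | cons z l ih =>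
    change cf (al (f z) l) (al2 f l) false = true at h
    obtain ⟨h1, h2⟩ := cf_tt h
    rw [al_iff] at h1
    intro x hx y hy hxy
    rcases List.mem_cons.1 hx with hx | hx
    · rcases List.mem_cons.1 hy with hy | hy
      · exact absurd (hx.trans hy.symm) hxy
      · left
        rw [hx]
        exact h1 y hy
    · rcases List.mem_cons.1 hy with hy | hy
      · right
        rw [hy]
        exact h1 x hx
      · exact ih h2 x hx y hy hxy

theorem mem_nb (i j : ℕ) (l : List (ℕ × ℕ)) : j ∈ nb i l ↔ (i, j) ∈ l := by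
  induction l with
  | nil => simp [nb]
  | cons p l ih =>
    obtain ⟨a, b⟩ := p
    change j ∈ cf (Nat.beq a i) (b :: nb i l) (nb i l) ↔ _
    rw [List.mem_cons, Prod.mk.injEq, ← ih]
    cases h : Nat.beq a i with
    | true =>
      rw [cf_true, List.mem_cons, (CData.beq_iff a i).1 h]
      simp
    | false =>
      have h1 := (CData.beq_false_iff a i).1 h
      rw [cf_false]
      constructor
      · exact Or.inr
      · rintro (⟨h2, -⟩ | h2)
        · exact absurd h2.symm h1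
        · exact h2

theorem mem_nb' (r j : ℕ) (l : List (ℕ × ℕ)) : j ∈ nb' r l ↔ (j, r) ∈ l := by
  induction l with
  | nil => simp [nb']
  | cons p l ih =>
    obtain ⟨a, b⟩ := p
    change j ∈ cf (Nat.beq b r) (a :: nb' r l) (nb' r l) ↔ _
    rw [List.mem_cons, Prod.mk.injEq, ← ih]
    cases h : Nat.beq b r with
    | true =>
      rw [cf_true, List.mem_cons, (CData.beq_iff b r).1 h]
      simp
    | false =>
      have h1 := (CData.beq_false_iff b r).1 h
      rw [cf_false]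
      constructor
      · exact Or.inr
      · rintro (⟨-, h2⟩ | h2)
        · exact absurd h2.symm h1
        · exact h2

theorem lvn_eq (l : List LevC) (n : ℕ) (h : n < l.length) : lvn l n = l[n] := by
  induction l generalizing n with
  | nil => simp at h
  | cons x l ih =>
    cases n with
    | zero => rfl
    | succ n =>
      change lvn l n = _
      rw [ih n (by simpa using h)]
      rfl

/-! ### Bits -/

section bits

variable {P N w : ℕ} {cc : ℕ → ℕ}

theorem dg_eq (code j : ℕ) : dg code j = sdg code j := rfl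

theorem mk_eq (N j t : ℕ) : mk N j t = msk N j t := by
  induction N with
  | zero => rfl
  | succ N ih =>
    change cf (Nat.beq j N) (Nat.shiftLeft (fl N) (Nat.mul t (Nat.pow 4 N)))
      (rp (Nat.pow 4 N) (mk N j t)) = _
    rw [msk, ih]
    unfold rp
    rw [frc_eq]
    cases Nat.beq j N <;> rfl

theorem kil_bit (A X i : ℕ) : (kil A X).testBit i = (A.testBit i && !X.testBit i) :=
  SubF.testBit_kill A X i

/-- The number of the colouring of the classes from `P` on. -/
def ix (P N : ℕ) (cc : ℕ → ℕ) : ℕ := senc (fun x => cc (P + x)) N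

theorem fl_bit (hc : ∀ x, cc x < 4) : (fl N).testBit (ix P N cc) = true := by
  change (fullSet N).testBit _ = true
  rw [testBit_fullSet, decide_eq_true_iff]
  exact senc_lt _ (fun x => hc _) N

theorem em_bit (hc : ∀ x, cc x < 4) (hw : w = senc cc P) {c t : ℕ} (hk : c < P + N) (ht : t < 4) :
    (em P N w c t).testBit (ix P N cc) = true ↔ cc c = t := by
  unfold em
  cases h : Nat.ble (Nat.succ c) P with
  | true =>
    have h1 : c < P := Nat.le_of_ble_eq_true h
    rw [cf_true, dg_eq, hw, SubF.sdg_senc cc hc P c h1]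
    cases h2 : Nat.beq (cc c) t with
    | true =>
      rw [cf_true, fl_bit hc, (CData.beq_iff _ _).1 h2]
      simp
    | false =>
      rw [cf_false, Nat.zero_testBit]
      have h3 := (CData.beq_false_iff _ _).1 h2
      constructor
      · intro h4
        exact absurd h4 (by decide)
      · intro h4
        exact absurd h4 h3
  | false =>
    have h1 : P ≤ c := by
      by_contra h2
      have h3 : Nat.ble (Nat.succ c) P = true := Nat.ble_eq_true_of_le (by omega)
      rw [h] at h3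
      exact absurd h3 (by decide)
    have e : Nat.sub c P = c - P := rfl
    rw [cf_false, frc_eq, mk_eq, ix, e, testBit_msk _ (fun x => hc _) N (c - P) t (by omega) ht,
      decide_eq_true_iff]
    have h2 : P + (c - P) = c := by omega
    rw [h2]

theorem eqm_bit (hc : ∀ x, cc x < 4) (hw : w = senc cc P) {A B : ℕ} (hA : A < P + N)
    (hB : B < P + N) : (eqm P N w A B).testBit (ix P N cc) = true ↔ cc A = cc B := by
  unfold eqm
  simp only [SubF.testBit_lor, SubF.testBit_land, em_bit hc hw hA (show 0 < 4 by omega),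
    em_bit hc hw hA (show 1 < 4 by omega), em_bit hc hw hA (show 2 < 4 by omega),
    em_bit hc hw hA (show 3 < 4 by omega), em_bit hc hw hB (show 0 < 4 by omega),
    em_bit hc hw hB (show 1 < 4 by omega), em_bit hc hw hB (show 2 < 4 by omega),
    em_bit hc hw hB (show 3 < 4 by omega)]
  have h1 := hc A
  have h2 := hc B
  omega

end bits

/-! ### The search -/

section search

variable {P N : ℕ} {p : List ℕ} {w : ℕ}

/-- The excluded colourings. -/
def exc (P N : ℕ) (p : List ℕ) (w : ℕ) (lv : LevC) (code t : ℕ) : ℕ :=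
  cf (anyP code t lv.A) (fl N) (Nat.lor (orB P N w code t lv.B) (stat P N p w lv t))

/-- One of the four steps. -/
def sp (P N : ℕ) (p : List ℕ) (w : ℕ) (lv : LevC) (ih : ℕ → ℕ → ℕ → ℕ → ℕ → ℕ × ℕ)
    (n code R m t : ℕ) (s : ℕ × ℕ) : ℕ × ℕ :=
  cf (Nat.beq (Nat.land m (2 ^ t)) (2 ^ t)) (child P N p w lv ih n code R t s) s

theorem gd_cons (lv : LevC) (rest : List LevC) (n code R U g : ℕ) :
    gd P N p w (lv :: rest) n code R U g =
      sp P N p w lv (gd P N p w rest) n code R (Nat.land g 15) 3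
        (sp P N p w lv (gd P N p w rest) n code R (Nat.land g 15) 2
          (sp P N p w lv (gd P N p w rest) n code R (Nat.land g 15) 1
            (sp P N p w lv (gd P N p w rest) n code R (Nat.land g 15) 0
              (U, Nat.shiftRight g 4)))) := by
  have e : gd P N p w (lv :: rest) n code R U g =
      frc n fun n => frc (Nat.land g 15) fun m => frc (Nat.shiftRight g 4) fun g =>
        sp P N p w lv (gd P N p w rest) n code R m 3
          (sp P N p w lv (gd P N p w rest) n code R m 2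
            (sp P N p w lv (gd P N p w rest) n code R m 1
              (sp P N p w lv (gd P N p w rest) n code R m 0 (U, g)))) := rfl
  rw [e, frc_eq, frc_eq, frc_eq]

theorem child_sound {i : ℕ} (lv : LevC) (rest : List LevC) (n code R t : ℕ) (s : ℕ × ℕ)
    (ht : t < 4)
    (ih : ∀ n code R U g, U.testBit i = true → (gd P N p w rest n code R U g).1.testBit i = false →
      R.testBit i = true ∧ GoodFrom (exc P N p w) i rest n code)
    (hs : s.1.testBit i = true)
    (h : (child P N p w lv (gd P N p w rest) n code R t s).1.testBit i = false) :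
    R.testBit i = true ∧ GoodFrom (exc P N p w) i (lv :: rest) n code := by
  unfold child at h
  cases hA : anyP code t lv.A with
  | true =>
    rw [hA, cf_true, hs] at h
    exact absurd h (by decide)
  | false =>
    rw [hA, cf_false, frc_eq, frc_eq] at h
    obtain ⟨h1, h2⟩ := ih _ _ _ s.1 s.2 hs h
    rw [kil_bit, Bool.and_eq_true, Bool.not_eq_true'] at h1
    refine ⟨h1.1, t, ht, ?_, h2⟩
    unfold exc
    rw [hA, cf_false]
    exact h1.2

theorem gd_sound {i : ℕ} (lev : List LevC) : ∀ n code R U g, U.testBit i = true →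
    (gd P N p w lev n code R U g).1.testBit i = false →
    R.testBit i = true ∧ GoodFrom (exc P N p w) i lev n code := by
  induction lev with
  | nil =>
    intro n code R U g hU h
    change (frc (kil U R) fun U => ((U, g) : ℕ × ℕ)).1.testBit i = false at h
    rw [frc_eq, kil_bit, hU] at h
    refine ⟨?_, trivial⟩
    simpa using h
  | cons lv rest ih =>
    intro n code R U g hU h
    rw [gd_cons] at h
    generalize Nat.land g 15 = m at h
    have key : ∀ t (s : ℕ × ℕ), t < 4 → s.1.testBit i = true →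
        (sp P N p w lv (gd P N p w rest) n code R m t s).1.testBit i = false →
        R.testBit i = true ∧ GoodFrom (exc P N p w) i (lv :: rest) n code := by
      intro t s ht hs hh
      unfold sp at hh
      cases hb : Nat.beq (Nat.land m (2 ^ t)) (2 ^ t) with
      | true =>
        rw [hb, cf_true] at hh
        exact child_sound lv rest n code R t s ht ih hs hh
      | false =>
        rw [hb, cf_false, hs] at hh
        exact absurd hh (by decide)
    generalize hs0 : sp P N p w lv (gd P N p w rest) n code R m 0 (U, Nat.shiftRight g 4) = s0 at h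
    generalize hs1 : sp P N p w lv (gd P N p w rest) n code R m 1 s0 = s1 at h
    generalize hs2 : sp P N p w lv (gd P N p w rest) n code R m 2 s1 = s2 at h
    cases h0 : s0.1.testBit i with
    | false => exact key 0 (U, Nat.shiftRight g 4) (by omega) hU (by rw [hs0]; exact h0)
    | true =>
      cases h1 : s1.1.testBit i with
      | false => exact key 1 s0 (by omega) h0 (by rw [hs1]; exact h1)
      | true =>
        cases h2 : s2.1.testBit i with
        | false => exact key 2 s1 (by omega) h1 (by rw [hs2]; exact h2)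
        | true => exact key 3 s2 (by omega) h2 h

theorem one_sound {F : CovD} {g : ℕ} {cc : ℕ → ℕ} (hc : ∀ x, cc x < 4)
    (h : one F P N p w g = true) (hb : (bad F P N p w).testBit (ix P N cc) = false) :
    GoodFrom (exc P N p w) (ix P N cc) F.lev 0 0 := by
  unfold one at h
  rw [frc_eq] at h
  change Nat.beq (gd P N p w F.lev 0 0 (fl N) (kil (fl N) (bad F P N p w)) g).1 0 = true at h
  rw [CData.beq_iff] at h
  refine (gd_sound F.lev 0 0 (fl N) (kil (fl N) (bad F P N p w)) g ?_ ?_).2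
  · rw [kil_bit, fl_bit hc, hb]
    rfl
  · rw [h, Nat.zero_testBit]

end search

/-! ### The colourings up to the names of the colours -/

theorem can_spec (n : ℕ) (cc : ℕ → ℕ) (hc : ∀ x, cc x < 4) : ∃ σ τ : ℕ → ℕ,
    (∀ x, τ (σ x) = x) ∧ (∀ x, σ (τ x) = x) ∧ (∀ x, x < 4 → σ x < 4) ∧ (∀ x, x < 4 → τ x < 4) ∧
      ∃ u, u ≤ 4 ∧ (senc (fun x => σ (cc x)) n, u) ∈ can n ∧ ∀ x, x < n → σ (cc x) < u := by
  induction n with
  | zero =>
    refine ⟨id, id, fun x => rfl, fun x => rfl, fun x h => h, fun x h => h, 0, by omega, ?_,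
      fun x hx => absurd hx (by omega)⟩
    change ((0, 0) : ℕ × ℕ) ∈ [(0, 0)]
    exact List.mem_singleton.2 rfl
  | succ n ih =>
    obtain ⟨σ, τ, h1, h2, h3, h4, u, hu, h5, h6⟩ := ih
    have key : ∀ t, t ≤ min u 3 → ∀ w, (w, u) ∈ can n →
        (w + 4 ^ n * t, max u (t + 1)) ∈ can (n + 1) := by
      intro t ht w hw
      change _ ∈ (can n).flatMap fun x => (List.range (Nat.succ (min x.2 3))).map fun t =>
        (x.1 + 4 ^ n * t, max x.2 (t + 1))
      rw [List.mem_flatMap]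
      refine ⟨(w, u), hw, List.mem_map.2 ⟨t, List.mem_range.2 (by
        change t < min u 3 + 1
        omega), rfl⟩⟩
    have hcn := h3 _ (hc n)
    by_cases hcu : σ (cc n) ≤ u
    · refine ⟨σ, τ, h1, h2, h3, h4, max u (σ (cc n) + 1), by omega, ?_, ?_⟩
      · exact key (σ (cc n)) (by omega) _ h5
      · intro x hx
        by_cases hxn : x = n
        · rw [hxn]
          omega
        · have := h6 x (by omega)
          omega
    · push Not at hcu
      let ρ : Equiv.Perm ℕ := Equiv.swap (σ (cc n)) u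
      have hρ4 : ∀ x, x < 4 → ρ x < 4 := by
        intro x hx
        change Equiv.swap (σ (cc n)) u x < 4
        rw [Equiv.swap_apply_def]
        split_ifs <;> omega
      have hρρ : ∀ x, ρ (ρ x) = x := fun x => Equiv.swap_apply_self _ _ _
      have hfix : ∀ x, x < u → ρ x = x := by
        intro x hx
        exact Equiv.swap_apply_of_ne_of_ne (by omega) (by omega)
      have hρn : ρ (σ (cc n)) = u := Equiv.swap_apply_left _ _
      refine ⟨fun x => ρ (σ x), fun x => τ (ρ x), fun x => ?_, fun x => ?_,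
        fun x hx => hρ4 _ (h3 x hx), fun x hx => h4 _ (hρ4 x hx), max u (u + 1), by omega, ?_, ?_⟩
      · change τ (ρ (ρ (σ x))) = x
        rw [hρρ, h1]
      · change ρ (σ (τ (ρ x))) = x
        rw [h2, hρρ]
      · have h7 := key u (by omega) _ h5
        have h8 : senc (fun x => ρ (σ (cc x))) (n + 1) =
            senc (fun x => σ (cc x)) n + 4 ^ n * u := by
          rw [senc, hρn]
          congr 1
          apply SubF.senc_congr
          intro x hx
          exact hfix _ (h6 x hx)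
        rw [h8]
        exact h7
      · intro x hx
        change ρ (σ (cc x)) < _
        by_cases hxn : x = n
        · rw [hxn, hρn]
          omega
        · rw [hfix _ (h6 x (by omega))]
          have := h6 x (by omega)
          omega

theorem oneL_spec (f : ℕ → ℕ → Bool) (ws : List (ℕ × ℕ)) (l : List ℕ)
    (h : oneL f ws l = true) : ∀ x ∈ ws, ∃ g, f x.1 g = true := by
  induction ws generalizing l with
  | nil =>
    intro x hx
    simp at hx
  | cons y ws ih =>
    cases l with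
    | nil => exact absurd h Bool.false_ne_true
    | cons g gs =>
      change cf (frc y.1 fun w => frc g fun g => f w g) (oneL f ws gs) false = true at h
      rw [frc_eq, frc_eq] at h
      obtain ⟨h1, h2⟩ := cf_tt h
      intro x hx
      rcases List.mem_cons.1 hx with hx | hx
      · rw [hx]
        exact ⟨g, h1⟩
      · exact ih gs h2 x hx

theorem oneP_spec (f : List ℕ → List ℕ → Bool) (ps : List (List ℕ)) (l : List (List ℕ))
    (h : oneP f ps l = true) : ∀ p ∈ ps, ∃ g, f p g = true := by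
  induction ps generalizing l with
  | nil =>
    intro x hx
    simp at hx
  | cons y ws ih =>
    cases l with
    | nil => exact absurd h Bool.false_ne_true
    | cons g gs =>
      change cf (frcL y fun p => f p g) (oneP f ws gs) false = true at h
      rw [frcL_eq] at h
      obtain ⟨h1, h2⟩ := cf_tt h
      intro x hx
      rcases List.mem_cons.1 hx with hx | hx
      · rw [hx]
        exact ⟨g, h1⟩
      · exact ih gs h2 x hx

/-! ### The lists are complete -/

/-- The contents of `wf`. -/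
structure Wf (D : KData) (F : CovD) : Prop where
  k_eq : F.P + F.N = D.k
  len : F.lev.length = D.a
  oI : ∀ i, i < D.a → okI D F i = true
  oR : ∀ r, r < D.L → okR D F r = true
  oC : ∀ lv ∈ F.lev, ∀ e ∈ lv.S, ∀ B ∈ e.2.2, (e.2.1, B) ∈ D.chq
  rng : ∀ r s, (r, s) ∈ D.rng → r < D.L ∧ s < D.L
  chq : ∀ A B, (A, B) ∈ D.chq → A < D.k ∧ B < D.k
  inn : ∀ i j, (i, j) ∈ D.inn → i < D.a ∧ j < D.a
  mix : ∀ i r, (i, r) ∈ D.mix → i < D.a ∧ r < D.L
  ta : ∀ x ∈ F.Ta, (x.1.1, x.1.2) ∈ D.rng ∧ D.q x.1.1 = x.2.1 ∧ D.q x.1.2 = x.2.2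
  tb : ∀ x ∈ F.Tb, (x.1.1, x.1.2.1) ∈ D.rng ∧ (x.1.1, x.1.2.2) ∈ D.rng ∧ x.1.2.1 ≠ x.1.2.2 ∧
    D.q x.1.1 = x.2.1 ∧ D.q x.1.2.1 = x.2.2.1 ∧ D.q x.1.2.2 = x.2.2.2
  tc : ∀ x ∈ F.Tc, (x.1, x.2.1) ∈ D.chq ∧ (x.1, x.2.2) ∈ D.chq ∧ x.2.1 ≠ x.2.2
  td : ∀ x ∈ F.Td, (x.1.1, x.1.2) ∈ D.chq ∧ (x.2.1.1, x.2.1.2) ∈ D.rng ∧
    D.q x.2.1.1 = x.1.1 ∧ D.q x.2.1.2 = x.2.2

theorem cf_ff {b : Bool} (h : cf b false true = true) : b = false := by
  cases b with
  | true => exact absurd h (by decide)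
  | false => rfl

theorem cf_fx {b c : Bool} (h : cf b false c = true) : b = false ∧ c = true := by
  cases b with
  | true => exact absurd h Bool.false_ne_true
  | false => exact ⟨rfl, h⟩

theorem cf_tx {b c : Bool} (h : cf b true c = true) : b = true ∨ c = true := by
  cases b with
  | true => exact Or.inl rfl
  | false => exact Or.inr h

theorem ble_lt {x y : ℕ} (h : Nat.ble (Nat.succ x) y = true) : x < y := Nat.le_of_ble_eq_true h

theorem wf_iff (D : KData) (F : CovD) (h : wf D F = true) : Wf D F := by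
  unfold wf at h
  obtain ⟨h1, h⟩ := cf_tt h
  obtain ⟨h2, h⟩ := cf_tt h
  obtain ⟨h3, h⟩ := cf_tt h
  obtain ⟨h4, h⟩ := cf_tt h
  obtain ⟨h5, h⟩ := cf_tt h
  obtain ⟨h6, h⟩ := cf_tt h
  obtain ⟨h7, h⟩ := cf_tt h
  obtain ⟨h8, h⟩ := cf_tt h
  obtain ⟨h9, h⟩ := cf_tt h
  obtain ⟨h10, h⟩ := cf_tt h
  obtain ⟨h11, h⟩ := cf_tt h
  obtain ⟨h12, h13⟩ := cf_tt h
  rw [alN_iff] at h3 h4
  rw [al_iff] at h5 h6 h7 h8 h9 h10 h11 h12 h13
  refine ⟨(CData.beq_iff _ _).1 h1, (CData.beq_iff _ _).1 h2, h3, h4, ?_, ?_, ?_, ?_, ?_, ?_, ?_,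
    ?_, ?_⟩
  · intro lv hlv e he B hB
    have h := h5 lv hlv
    unfold okC at h
    rw [al_iff] at h
    have h' := h e he
    rw [al_iff] at h'
    exact (mm2_iff _ _ _).1 (h' B hB)
  · intro r s hrs
    obtain ⟨a, b⟩ := cf_tt (h6 (r, s) hrs)
    exact ⟨ble_lt a, ble_lt b⟩
  · intro r s hrs
    obtain ⟨a, b⟩ := cf_tt (h7 (r, s) hrs)
    exact ⟨ble_lt a, ble_lt b⟩
  · intro r s hrs
    obtain ⟨a, b⟩ := cf_tt (h8 (r, s) hrs)
    exact ⟨ble_lt a, ble_lt b⟩
  · intro r s hrs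
    obtain ⟨a, b⟩ := cf_tt (h9 (r, s) hrs)
    exact ⟨ble_lt a, ble_lt b⟩
  · intro x hx
    obtain ⟨a, b⟩ := cf_tt (h10 x hx)
    obtain ⟨b, c⟩ := cf_tt b
    exact ⟨(mm2_iff _ _ _).1 a, (CData.beq_iff _ _).1 b, (CData.beq_iff _ _).1 c⟩
  · intro x hx
    obtain ⟨a, b⟩ := cf_tt (h11 x hx)
    obtain ⟨b, c⟩ := cf_tt b
    obtain ⟨c, d⟩ := cf_fx c
    obtain ⟨d, e⟩ := cf_tt d
    obtain ⟨e, f⟩ := cf_tt e
    exact ⟨(mm2_iff _ _ _).1 a, (mm2_iff _ _ _).1 b, (CData.beq_false_iff _ _).1 c,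
      (CData.beq_iff _ _).1 d, (CData.beq_iff _ _).1 e, (CData.beq_iff _ _).1 f⟩
  · intro x hx
    obtain ⟨a, b⟩ := cf_tt (h12 x hx)
    obtain ⟨b, c⟩ := cf_tt b
    exact ⟨(mm2_iff _ _ _).1 a, (mm2_iff _ _ _).1 b, (CData.beq_false_iff _ _).1 (cf_ff c)⟩
  · intro x hx
    obtain ⟨a, b⟩ := cf_tt (h13 x hx)
    obtain ⟨b, c⟩ := cf_tt b
    obtain ⟨c, d⟩ := cf_tt c
    exact ⟨(mm2_iff _ _ _).1 a, (mm2_iff _ _ _).1 b, (CData.beq_iff _ _).1 c,
      (CData.beq_iff _ _).1 d⟩

section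

variable {D : KData} {F : CovD} {p : List ℕ} {cc : ℕ → ℕ} {w : ℕ}

/-- A possible colouring is not crossed out at the beginning. -/
theorem bad_bit (W : Wf D F) (hc : ∀ x, cc x < 4) (hw : w = senc cc F.P) (hP : D.Poss p cc)
    (hq : ∀ r, r < D.L → D.q r < D.k) :
    (bad F F.P F.N p w).testBit (ix F.P F.N cc) = false := by
  have hk : ∀ r, r < D.L → D.q r < F.P + F.N := by
    intro r hr
    rw [W.k_eq]
    exact hq r hr
  rw [← Bool.not_eq_true]
  intro h
  unfold bad bad1 at h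
  rw [SubF.testBit_lor, SubF.testBit_lor, SubF.testBit_lor, orL_bit, orL_bit, orL_bit,
    orL_bit] at h
  rcases h with ⟨x, hx, h⟩ | ⟨x, hx, h⟩ | ⟨x, hx, h⟩ | ⟨x, hx, h⟩
  · obtain ⟨a, b, c⟩ := W.ta x hx
    obtain ⟨l1, l2⟩ := W.rng _ _ a
    cases hm : mm x.1.1 p with
    | true =>
      rw [hm, cf_true, Nat.zero_testBit] at h
      exact absurd h (by decide)
    | false =>
      rw [hm, cf_false, ← b, ← c, eqm_bit hc hw (hk _ l1) (hk _ l2)] at h
      refine hP.a _ _ a ?_ h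
      intro h1
      rw [← mm_iff, hm] at h1
      exact absurd h1 (by decide)
  · obtain ⟨a, b, c, d, e, f⟩ := W.tb x hx
    obtain ⟨l1, l2⟩ := W.rng _ _ a
    obtain ⟨-, l3⟩ := W.rng _ _ b
    rw [← d, ← e, ← f, SubF.testBit_land, eqm_bit hc hw (hk _ l1) (hk _ l2),
      eqm_bit hc hw (hk _ l1) (hk _ l3)] at h
    exact hP.b _ _ _ a b c h
  · obtain ⟨a, b, c⟩ := W.tc x hx
    obtain ⟨l1, l2⟩ := W.chq _ _ a
    obtain ⟨-, l3⟩ := W.chq _ _ b
    rw [← W.k_eq] at l1 l2 l3
    rw [SubF.testBit_land, eqm_bit hc hw l1 l2, eqm_bit hc hw l1 l3] at h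
    exact hP.c _ _ _ a b c h
  · obtain ⟨a, b, c, d⟩ := W.td x hx
    obtain ⟨l1, l2⟩ := W.chq _ _ a
    obtain ⟨l3, l4⟩ := W.rng _ _ b
    rw [← W.k_eq] at l1 l2
    rw [← d, SubF.testBit_land, eqm_bit hc hw l1 l2, eqm_bit hc hw l1 (hk _ l4)] at h
    refine hP.d _ _ _ _ a b c.symm ⟨h.1, ?_⟩
    rw [c]
    exact h.2

end

section

variable {D : KData} {F : CovD} {p : List ℕ} {cc : ℕ → ℕ} {w E : ℕ}

theorem anyP_false (code t : ℕ) (l : List (ℕ × ℕ)) (h : anyP code t l = false) :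
    ∀ x y, (x, y) ∈ l → ¬ (sdg code x = t ∧ sdg code y = t) := by
  induction l with
  | nil =>
    intro x y hx
    simp at hx
  | cons z l ih =>
    obtain ⟨a, b⟩ := z
    change cf (Nat.beq (dg code a) t) (cf (Nat.beq (dg code b) t) true (anyP code t l))
      (anyP code t l) = false at h
    rintro x y hxy ⟨e1, e2⟩
    cases h1 : Nat.beq (dg code a) t with
    | true =>
      rw [h1, cf_true] at h
      cases h2 : Nat.beq (dg code b) t with
      | true =>
        rw [h2, cf_true] at h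
        exact Bool.false_ne_true h.symm
      | false =>
        rw [h2, cf_false] at h
        rcases List.mem_cons.1 hxy with h3 | h3
        · rw [Prod.mk.injEq] at h3
          rw [← h3.2] at h2
          exact (CData.beq_false_iff _ _).1 h2 e2
        · exact ih h x y h3 ⟨e1, e2⟩
    | false =>
      rw [h1, cf_false] at h
      rcases List.mem_cons.1 hxy with h3 | h3
      · rw [Prod.mk.injEq] at h3
        rw [← h3.1] at h1
        exact (CData.beq_false_iff _ _).1 h1 e1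
      · exact ih h x y h3 ⟨e1, e2⟩

theorem orB_bit (P N w code t i : ℕ) (l : List (ℕ × ℕ)) {x c : ℕ} (hx : (x, c) ∈ l)
    (hd : sdg code x = t) (hb : (em P N w c t).testBit i = true) :
    (orB P N w code t l).testBit i = true := by
  induction l with
  | nil => simp at hx
  | cons z l ih =>
    obtain ⟨a, b⟩ := z
    change (cf (Nat.beq (dg code a) t) (Nat.lor (em P N w b t) (orB P N w code t l))
      (orB P N w code t l)).testBit i = true
    rcases List.mem_cons.1 hx with h3 | h3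
    · rw [Prod.mk.injEq] at h3
      rw [← h3.1, ← h3.2, (CData.beq_iff (dg code x) t).2 hd, cf_true, SubF.testBit_lor]
      exact Or.inl hb
    · cases Nat.beq (dg code a) t with
      | true =>
        rw [cf_true, SubF.testBit_lor]
        exact Or.inr (ih h3)
      | false =>
        rw [cf_false]
        exact ih h3

/-- The conditions at the inner vertex `n`. -/
theorem parts (W : Wf D F) (hc : ∀ x, cc x < 4) (hw : w = senc cc F.P)
    (hq : ∀ r, r < D.L → D.q r < D.k)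
    (hE : ∀ n (h : n < F.lev.length),
        (exc F.P F.N p w F.lev[n] (E % 4 ^ n) (sdg E n)).testBit (ix F.P F.N cc) = false)
    (n : ℕ) (hn : n < D.a) :
    (∀ x y, x < n → y < n → ms x y (lvn F.lev n).A = true →
      ¬ (sdg E x = sdg E n ∧ sdg E y = sdg E n)) ∧
    (∀ x r, x < n → r < D.L → (x, D.q r) ∈ (lvn F.lev n).B → sdg E x = sdg E n →
      cc (D.q r) ≠ sdg E n) ∧
    (∀ r s, r < D.L → s < D.L → ms (D.q r) (D.q s) (lvn F.lev n).C = true →
      ¬ (cc (D.q r) = sdg E n ∧ cc (D.q s) = sdg E n)) ∧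
    (∀ r, r < D.L → D.q r ∈ (lvn F.lev n).E → cc (D.q r) ≠ sdg E n) ∧
    (∀ r, r < D.L → D.SatP p cc r → (∃ e ∈ (lvn F.lev n).S, e.1 = r ∧ e.2.1 = D.q r) →
      cc (D.q r) ≠ sdg E n) := by
  have hk : ∀ r, r < D.L → D.q r < F.P + F.N := by
    intro r hr
    rw [W.k_eq]
    exact hq r hr
  have hn' : n < F.lev.length := by
    rw [W.len]
    exact hn
  have h1 := hE n hn'
  rw [← lvn_eq _ _ hn'] at h1
  have hmem : lvn F.lev n ∈ F.lev := by
    rw [lvn_eq _ _ hn']
    exact List.getElem_mem hn'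
  have ht : sdg E n < 4 := CData.sdg_lt E n
  unfold exc at h1
  cases hA : anyP (E % 4 ^ n) (sdg E n) (lvn F.lev n).A with
  | true =>
    rw [hA, cf_true, fl_bit hc] at h1
    exact absurd h1.symm Bool.false_ne_true
  | false =>
    rw [hA, cf_false, ← Bool.not_eq_true, SubF.testBit_lor, not_or] at h1
    obtain ⟨hB, hS⟩ := h1
    unfold stat at hS
    rw [SubF.testBit_lor, SubF.testBit_lor, orL_bit, orL_bit, orL_bit, not_or, not_or] at hS
    obtain ⟨h2, h3, h4⟩ := hS
    have hAA : ∀ x y, x < n → y < n → (x, y) ∈ (lvn F.lev n).A →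
        ¬ (sdg E x = sdg E n ∧ sdg E y = sdg E n) := by
      intro x y hx hy hxy
      have h5 := anyP_false _ _ _ hA x y hxy
      rw [sdg_mod E n x hx, sdg_mod E n y hy] at h5
      exact h5
    refine ⟨?_, ?_, ?_, ?_, ?_⟩
    · intro x y hx hy hxy
      rcases (ms_iff _ _ _).1 hxy with h5 | h5
      · exact hAA x y hx hy h5
      · intro h6
        exact hAA y x hy hx h5 ⟨h6.2, h6.1⟩
    · intro x r hx hr hxr hd hcr
      refine hB (orB_bit _ _ _ _ _ _ _ hxr ?_ ((em_bit hc hw (hk r hr) ht).2 hcr))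
      rw [sdg_mod E n x hx]
      exact hd
    · intro r s hr hs hrs hcr
      rcases (ms_iff _ _ _).1 hrs with h5 | h5
      · refine h3 ⟨_, h5, ?_⟩
        rw [SubF.testBit_land]
        exact ⟨(em_bit hc hw (hk r hr) ht).2 hcr.1, (em_bit hc hw (hk s hs) ht).2 hcr.2⟩
      · refine h3 ⟨_, h5, ?_⟩
        rw [SubF.testBit_land]
        exact ⟨(em_bit hc hw (hk s hs) ht).2 hcr.2, (em_bit hc hw (hk r hr) ht).2 hcr.1⟩
    · intro r hr h5 hcr
      exact h2 ⟨_, h5, (em_bit hc hw (hk r hr) ht).2 hcr⟩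
    · rintro r hr hsat ⟨e, he, e1, e2⟩ hcr
      refine h4 ⟨e, he, ?_⟩
      unfold lockm
      rw [e1, (mm_iff _ _).2 hsat.1, cf_true, e2, kil_bit, (em_bit hc hw (hk r hr) ht).2 hcr,
        Bool.true_and, Bool.not_eq_true', ← Bool.not_eq_true, orL_bit]
      rintro ⟨B, hB1, hB2⟩
      have hch := W.oC _ hmem e he B hB1
      obtain ⟨-, l2⟩ := W.chq _ _ hch
      rw [← W.k_eq] at l2
      have h6 := (em_bit hc hw l2 ht).1 hB2
      rw [e2] at hch
      exact hsat.2 B hch (hcr.trans h6.symm)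

theorem okS_spec {i r : ℕ} (h : okS D F i r = true) :
    (r ∈ F.pl ∧ D.q r ∈ (lvn F.lev i).E) ∨
      (r ∉ F.pl ∧ ∃ e ∈ (lvn F.lev i).S, e.1 = r ∧ e.2.1 = D.q r) := by
  unfold okS at h
  cases hm : mm r F.pl with
  | true =>
    rw [hm, cf_true] at h
    exact Or.inl ⟨(mm_iff _ _).1 hm, (mm_iff _ _).1 h⟩
  | false =>
    rw [hm, cf_false] at h
    right
    refine ⟨fun h1 => ?_, ?_⟩
    · rw [← mm_iff, hm] at h1
      exact Bool.false_ne_true h1
    · generalize (lvn F.lev i).S = l at h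
      induction l with
      | nil => exact absurd h Bool.false_ne_true
      | cons e l ih =>
        change cf (Nat.beq e.1 r) (cf (Nat.beq e.2.1 (D.q r)) true _) _ = true at h
        cases h1 : Nat.beq e.1 r with
        | true =>
          rw [h1, cf_true] at h
          rcases cf_tx h with h2 | h2
          · exact ⟨e, List.mem_cons_self, (CData.beq_iff _ _).1 h1, (CData.beq_iff _ _).1 h2⟩
          · obtain ⟨e', h3, h4⟩ := ih h2
            exact ⟨e', List.mem_cons_of_mem _ h3, h4⟩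
        | false =>
          rw [h1, cf_false] at h
          obtain ⟨e', h3, h4⟩ := ih h
          exact ⟨e', List.mem_cons_of_mem _ h3, h4⟩

theorem okI_spec {i : ℕ} (h : okI D F i = true) :
    (∀ j j', (i, j) ∈ D.inn → (i, j') ∈ D.inn → j ≠ j' →
      okA F i j j' = true ∨ okA F i j' j = true) ∧
    (∀ r j, (i, r) ∈ D.mix → (i, j) ∈ D.inn → r ∉ F.pl → okB' F i j (D.q r) = true) ∧
    (∀ r r', (i, r) ∈ D.mix → (i, r') ∈ D.mix → r ≠ r' → r ∉ F.pl → r' ∉ F.pl →
      ms (D.q r) (D.q r') (lvn F.lev i).C = true ∨ ms (D.q r') (D.q r) (lvn F.lev i).C = true) ∧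
    (∀ r, (i, r) ∈ D.mix → okS D F i r = true) := by
  unfold okI at h
  rw [frcL_eq, frcL_eq] at h
  obtain ⟨h1, h⟩ := cf_tt h
  obtain ⟨h2, h⟩ := cf_tt h
  obtain ⟨h3, h4⟩ := cf_tt h
  have hpl : ∀ r, r ∉ F.pl → mm r F.pl = false := by
    intro r hr
    cases hm : mm r F.pl with
    | true => exact absurd ((mm_iff _ _).1 hm) hr
    | false => rfl
  refine ⟨?_, ?_, ?_, ?_⟩
  · intro j j' hj hj' hne
    exact al2_spec _ _ h1 j ((mem_nb _ _ _).2 hj) j' ((mem_nb _ _ _).2 hj') hne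
  · intro r j hr hj hrp
    have h5 := (al_iff _ _).1 h2 r ((mem_nb _ _ _).2 hr)
    rw [hpl r hrp, cf_false, frc_eq] at h5
    exact (al_iff _ _).1 h5 j ((mem_nb _ _ _).2 hj)
  · intro r r' hr hr' hne hp hp'
    have h5 := al2_spec _ _ h3 r ((mem_nb _ _ _).2 hr) r' ((mem_nb _ _ _).2 hr') hne
    rw [hpl r hp, hpl r' hp', cf_false, cf_false, cf_false, cf_false] at h5
    exact h5
  · intro r hr
    exact (al_iff _ _).1 h4 r ((mem_nb _ _ _).2 hr)

theorem okR_spec {r : ℕ} (h : okR D F r = true) : D.q r < D.k ∧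
    (r ∉ F.pl → ∀ i i', (i, r) ∈ D.mix → (i', r) ∈ D.mix → i ≠ i' →
      okB' F i i' (D.q r) = true ∨ okB' F i' i (D.q r) = true) := by
  unfold okR at h
  obtain ⟨h1, h2⟩ := cf_tt h
  refine ⟨ble_lt h1, fun hr i i' hi hi' hne => ?_⟩
  cases hm : mm r F.pl with
  | true => exact absurd ((mm_iff _ _).1 hm) hr
  | false =>
    rw [hm, cf_false, frcL_eq, frc_eq] at h2
    exact al2_spec _ _ h2 i ((mem_nb' _ _ _).2 hi) i' ((mem_nb' _ _ _).2 hi') hne

theorem ble_cases (x y : ℕ) : (Nat.ble (Nat.succ x) y = true ∧ x < y) ∨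
    (Nat.ble (Nat.succ x) y = false ∧ y ≤ x) := by
  cases h : Nat.ble (Nat.succ x) y with
  | true => exact Or.inl ⟨rfl, ble_lt h⟩
  | false =>
    right
    refine ⟨rfl, ?_⟩
    by_contra h2
    have h3 : Nat.ble (Nat.succ x) y = true := Nat.ble_eq_true_of_le (by omega)
    rw [h] at h3
    exact Bool.false_ne_true h3

theorem okB'_spec {i j c : ℕ} (h : okB' F i j c = true) :
    (i < j ∧ (i, c) ∈ (lvn F.lev j).B) ∨ (j < i ∧ (j, c) ∈ (lvn F.lev i).B) := by
  unfold okB' at h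
  rcases ble_cases i j with ⟨e, h1⟩ | ⟨e, h1⟩
  · rw [e, cf_true] at h
    exact Or.inl ⟨h1, (mm2_iff _ _ _).1 h⟩
  · rw [e, cf_false] at h
    obtain ⟨h2, h3⟩ := cf_tt h
    exact Or.inr ⟨ble_lt h2, (mm2_iff _ _ _).1 h3⟩

theorem okA_spec {i j j' : ℕ} (h : okA F i j j' = true) :
    (i < j' ∧ j < j' ∧ ms i j (lvn F.lev j').A = true) ∨
      (i < j ∧ j' < j ∧ ms i j' (lvn F.lev j).A = true) ∨
      (j < i ∧ j' < i ∧ ms j j' (lvn F.lev i).A = true) := by
  unfold okA at h
  rcases ble_cases i j with ⟨e, h1⟩ | ⟨e, h1⟩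
  · rw [e, cf_true] at h
    rcases ble_cases j j' with ⟨e2, h2⟩ | ⟨e2, h2⟩
    · rw [e2, cf_true] at h
      exact Or.inl ⟨by omega, h2, h⟩
    · rw [e2, cf_false] at h
      obtain ⟨h3, h4⟩ := cf_tt h
      exact Or.inr (Or.inl ⟨h1, ble_lt h3, h4⟩)
  · rw [e, cf_false] at h
    rcases ble_cases i j' with ⟨e2, h2⟩ | ⟨e2, h2⟩
    · rw [e2, cf_true] at h
      obtain ⟨h3, h4⟩ := cf_tt h
      have := ble_lt h3
      exact Or.inl ⟨h2, by omega, h4⟩
    · rw [e2, cf_false] at h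
      obtain ⟨h3, h4⟩ := cf_tt h
      obtain ⟨h4, h5⟩ := cf_tt h4
      exact Or.inr (Or.inr ⟨ble_lt h3, ble_lt h4, h5⟩)

/-- One colouring of the classes. -/
theorem exd_of_exc (W : Wf D F) (hc : ∀ x, cc x < 4) (hw : w = senc cc F.P)
    (hE : ∀ n (h : n < F.lev.length),
        (exc F.P F.N p w F.lev[n] (E % 4 ^ n) (sdg E n)).testBit (ix F.P F.N cc) = false) :
    D.Exd p cc (sdg E) := by
  have hq : ∀ r, r < D.L → D.q r < D.k := fun r hr => (okR_spec (W.oR r hr)).1
  have hp := parts (p := p) (E := E) W hc hw hq hE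
  -- a condition at two inner vertices and a class
  have hB : ∀ i j r, i < D.a → j < D.a → r < D.L → okB' F i j (D.q r) = true →
      ¬ (sdg E j = sdg E i ∧ cc (D.q r) = sdg E i) := by
    rintro i j r hi hj hr h ⟨e1, e2⟩
    rcases okB'_spec h with ⟨h1, h2⟩ | ⟨h1, h2⟩
    · exact (hp j hj).2.1 i r h1 hr h2 e1.symm (e2.trans e1.symm)
    · exact (hp i hi).2.1 j r h1 hr h2 e1 e2
  have hA : ∀ i j j', i < D.a → j < D.a → j' < D.a → okA F i j j' = true →
      ¬ (sdg E j = sdg E i ∧ sdg E j' = sdg E i) := by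
    rintro i j j' hi hj hj' h ⟨e1, e2⟩
    rcases okA_spec h with ⟨h1, h2, h3⟩ | ⟨h1, h2, h3⟩ | ⟨h1, h2, h3⟩
    · exact (hp j' hj').1 i j h1 h2 h3 ⟨e2.symm, e1.trans e2.symm⟩
    · exact (hp j hj).1 i j' h1 h2 h3 ⟨e1.symm, e2.trans e1.symm⟩
    · exact (hp i hi).1 j j' h1 h2 h3 ⟨e1, e2⟩
  -- plain ring vertices
  have hpl : ∀ i r, (i, r) ∈ D.mix → r ∈ F.pl → cc (D.q r) ≠ sdg E i := by
    intro i r hir hr
    obtain ⟨hi, hr'⟩ := W.mix i r hir
    rcases okS_spec ((okI_spec (W.oI i hi)).2.2.2 r hir) with ⟨-, h⟩ | ⟨h, -⟩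
    · exact (hp i hi).2.2.2.1 r hr' h
    · exact absurd hr h
  constructor
  · rintro i j j' hij hij' hne ⟨e1, e2⟩
    obtain ⟨hi, hj⟩ := W.inn i j hij
    obtain ⟨-, hj'⟩ := W.inn i j' hij'
    rcases (okI_spec (W.oI i hi)).1 j j' hij hij' hne with h | h
    · exact hA i j j' hi hj hj' h ⟨e1, e2⟩
    · exact hA i j' j hi hj' hj h ⟨e2, e1⟩
  · rintro i j r hij hir ⟨e1, e2⟩
    obtain ⟨hi, hj⟩ := W.inn i j hij
    obtain ⟨-, hr⟩ := W.mix i r hir
    by_cases h : r ∈ F.pl
    · exact hpl i r hir h e2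
    · exact hB i j r hi hj hr ((okI_spec (W.oI i hi)).2.1 r j hir hij h) ⟨e1, e2⟩
  · rintro i r s hir his hne ⟨e1, e2⟩
    obtain ⟨hi, hr⟩ := W.mix i r hir
    obtain ⟨-, hs⟩ := W.mix i s his
    by_cases h : r ∈ F.pl
    · exact hpl i r hir h e1
    by_cases h' : s ∈ F.pl
    · exact hpl i s his h' e2
    rcases (okI_spec (W.oI i hi)).2.2.1 r s hir his hne h h' with h1 | h1
    · exact (hp i hi).2.2.1 r s hr hs h1 ⟨e1, e2⟩
    · exact (hp i hi).2.2.1 s r hs hr h1 ⟨e2, e1⟩
  · rintro i i' r hir hir' hne ⟨e1, e2⟩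
    obtain ⟨hi, hr⟩ := W.mix i r hir
    obtain ⟨hi', -⟩ := W.mix i' r hir'
    by_cases h : r ∈ F.pl
    · exact hpl i r hir h e1.symm
    rcases (okR_spec (W.oR r hr)).2 h i i' hir hir' hne with h1 | h1
    · exact hB i i' r hi hi' hr h1 ⟨e2.trans e1.symm, e1.symm⟩
    · exact hB i' i r hi' hi hr h1 ⟨e1.trans e2.symm, e2.symm⟩
  · intro i r hir hsat he
    obtain ⟨hi, hr⟩ := W.mix i r hir
    rcases okS_spec ((okI_spec (W.oI i hi)).2.2.2 r hir) with ⟨h, -⟩ | ⟨-, h⟩
    · exact hpl i r hir h he.symm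
    · exact (hp i hi).2.2.2.2 r hr hsat h he.symm

end

/-- **The check is sound.** -/
theorem red (D : KData) (F : CovD) (h : check D F = true) : D.conf.Red := by
  unfold check at h
  obtain ⟨hw, h⟩ := cf_tt h
  rw [frc_eq, frc_eq] at h
  have W := wf_iff D F hw
  have hq : ∀ r, r < D.L → D.q r < D.k := fun r hr => (okR_spec (W.oR r hr)).1
  refine KData.red_of_exd D hq W.rng W.chq fun p hp cc hc hP => ?_
  obtain ⟨gs, hgs⟩ := oneP_spec _ _ _ h p hp
  obtain ⟨σ, τ, h1, h2, h3, h4, u, -, h5, -⟩ := can_spec F.P cc hc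
  obtain ⟨g, hg⟩ := oneL_spec _ _ _ hgs _ h5
  have hσ : Function.Injective σ := by
    intro x y hxy
    rw [← h1 x, ← h1 y, hxy]
  have hc' : ∀ x, σ (cc x) < 4 := fun x => h3 _ (hc x)
  have hP' : D.Poss p (fun x => σ (cc x)) := hP.perm σ hσ
  obtain ⟨E, -, hE⟩ := GoodFrom.exists _ _ F.lev 0 0 (by simp)
    (one_sound hc' hg (bad_bit W hc' rfl hP' hq))
  simp only [zero_add] at hE
  refine ⟨fun x => τ (sdg E x), fun x => h4 _ (CData.sdg_lt E x), ?_⟩
  refine KData.Exd.perm σ hσ ?_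
  have h6 : (fun x => σ (τ (sdg E x))) = sdg E := by
    funext x
    exact h2 _
  change D.Exd p (fun x => σ (cc x)) (fun x => σ (τ (sdg E x)))
  rw [h6]
  exact exd_of_exc W hc' rfl hE

end Cov

end Pool.Agent.W986
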