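import Pool.Agent.W986.SubDef
import Pool.Agent.W986.RotnB

/-!
# Occurrences of configurations in a triangulation

A configuration is given by the cyclic lists of labels of its inner vertices `0, .., k - 1`. If the
degrees of the inner vertices are the lengths of these lists, then there is a labelled copy of the
configuration in the triangulation: a map from labels to vertices which sends every list to a
rotation.
-/

set_option autoImplicit false

open Finset

namespace Pool.Agent.W986

section rotn

variable {W : Type} {H : SimpleGraph W} {T : W → W → W → Prop} {x : W} {d : ℕ} {ν : ℕ → W}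

theorem Rotn.ne' (h : Rotn H T x d ν) {i j : ℕ} (hij : i ≠ j) (h1 : i < j + d) (h2 : j < i + d) :
    ν i ≠ ν j := by
  rcases Nat.lt_or_gt_of_ne hij with h3 | h3
  · exact h.ne h3 h2
  · exact (h.ne h3 h1).symm

/-- A rotation can start anywhere. -/
theorem Rotn.shift (h : Rotn H T x d ν) (s : ℕ) : Rotn H T x d (fun t => ν (t + s)) where
  three := h.three
  per i := by
    rw [show i + d + s = i + s + d by omega, h.per]
  inj i hi j hj hij := by
    by_contra hne
    exact h.ne' (i := i + s) (j := j + s) (by omega) (by omega) (by omega) hij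
  adj y := by
    constructor
    · intro hy
      obtain ⟨m, h1, h2, h3⟩ := h.window s hy
      refine ⟨m - s, by omega, ?_⟩
      rw [show m - s + s = m by omega, h3]
    · rintro ⟨i, _, hi⟩
      rw [← hi]
      exact h.adj_nu _
  tri i y := by
    have h1 := h.tri (i + s) y
    change T x (ν (i + 1 + s)) y ↔ y = ν (i + s) ∨ y = ν (i + 2 + s)
    rw [show i + 1 + s = i + s + 1 by omega, show i + 2 + s = i + s + 2 by omega]
    exact h1

/-- The reversed rotation. -/
theorem Rotn.flip (h : Rotn H T x d ν) : Rotn H T x d (fun t => ν (d - t % d)) where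
  three := h.three
  per i := by
    rw [Nat.add_mod_right]
  inj i hi j hj hij := by
    by_contra hne
    change ν (d - i % d) = ν (d - j % d) at hij
    rw [Nat.mod_eq_of_lt hi, Nat.mod_eq_of_lt hj] at hij
    exact h.ne' (i := d - i) (j := d - j) (by omega) (by omega) (by omega) hij
  adj y := by
    constructor
    · intro hy
      obtain ⟨m, h1, h2, h3⟩ := h.window 1 hy
      refine ⟨d - m, by omega, ?_⟩
      rw [Nat.mod_eq_of_lt (by omega : d - m < d), show d - (d - m) = m by omega, h3]
    · rintro ⟨i, _, hi⟩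
      rw [← hi]
      exact h.adj_nu _
  tri i y := by
    have hd := h.three
    change T x (ν (d - (i + 1) % d)) y ↔ y = ν (d - i % d) ∨ y = ν (d - (i + 2) % d)
    have hr : i % d < d := Nat.mod_lt _ (by omega)
    have e1 : (i + 1) % d = if i % d + 1 = d then 0 else i % d + 1 := by
      rw [Nat.add_mod, Nat.mod_eq_of_lt (by omega : 1 < d)]
      split_ifs with h1
      · rw [h1, Nat.mod_self]
      · exact Nat.mod_eq_of_lt (by omega)
    have e2 : (i + 2) % d = if i % d + 2 < d then i % d + 2 else i % d + 2 - d := by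
      rw [Nat.add_mod, Nat.mod_eq_of_lt (by omega : 2 < d)]
      split_ifs with h1
      · exact Nat.mod_eq_of_lt h1
      · rw [Nat.mod_eq_sub_mod (by omega), Nat.mod_eq_of_lt (by omega)]
    rw [e1, e2]
    rcases Nat.lt_trichotomy (i % d + 2) d with h1 | h1 | h1
    · rw [if_neg (by omega), if_pos h1]
      have h2 := h.tri (d - (i % d + 2)) y
      rw [show d - (i % d + 2) + 1 = d - (i % d + 1) by omega,
        show d - (i % d + 2) + 2 = d - i % d by omega] at h2
      rw [h2]
      exact or_comm
    · rw [if_neg (by omega), if_neg (by omega)]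
      have h2 := h.tri 0 y
      rw [show d - (i % d + 1) = 0 + 1 by omega, h2, show d - i % d = 0 + 2 by omega,
        show d - (i % d + 2 - d) = 0 + d by omega, h.per]
      exact or_comm
    · rw [if_pos (by omega), if_neg (by omega)]
      have h2 := h.tri (d - 1) y
      rw [show d - 0 = d - 1 + 1 by omega, h2, show d - i % d = 1 by omega,
        show d - 1 + 2 = 1 + d by omega, h.per, show d - (i % d + 2 - d) = d - 1 by omega]
      exact or_comm

/-- A rotation starts with any given path of triangles around `x`. -/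
theorem Rotn.follow (hadj : ∀ x y z, T x y z → H.Adj x y) (h : Rotn H T x d ν) (c : ℕ → W)
    (p : ℕ) (hp : 1 ≤ p) (hc : ∀ t, t < p → T x (c t) (c (t + 1)))
    (hne : ∀ t, t + 1 < p → c t ≠ c (t + 2)) :
    ∃ ν', Rotn H T x d ν' ∧ ∀ t, t ≤ p → ν' t = c t := by
  have hd := h.three
  obtain ⟨m, hm1, hm2, hm3⟩ := h.window 1 (hadj _ _ _ (hc 0 hp))
  have h1 := hc 0 hp
  rw [← hm3] at h1
  have h2 := h.tri (m - 1) (c 1)
  rw [show m - 1 + 1 = m by omega, show m - 1 + 2 = m + 1 by omega] at h2
  have key : ∃ ν', Rotn H T x d ν' ∧ ν' 0 = c 0 ∧ ν' 1 = c 1 := by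
    rcases h2.1 h1 with h3 | h3
    · -- reversed
      refine ⟨_, (h.shift m).flip, ?_, ?_⟩
      · rw [Nat.zero_mod, show d - 0 + m = m + d by omega, h.per, hm3]
      · rw [Nat.mod_eq_of_lt (by omega : 1 < d), show d - 1 + m = m - 1 + d by omega, h.per, h3]
    · refine ⟨_, h.shift m, ?_, ?_⟩
      · rw [Nat.zero_add, hm3]
      · rw [Nat.add_comm, h3]
  obtain ⟨ν', hν, h0, h1'⟩ := key
  refine ⟨ν', hν, ?_⟩
  have hall : ∀ t, t + 1 ≤ p → ν' t = c t ∧ ν' (t + 1) = c (t + 1) := by
    intro t
    induction t with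
    | zero => intro _; exact ⟨h0, h1'⟩
    | succ t ih =>
      intro ht
      obtain ⟨e1, e2⟩ := ih (by omega)
      refine ⟨e2, ?_⟩
      have h3 := hc (t + 1) (by omega)
      rw [← e2] at h3
      rcases (hν.tri t _).1 h3 with h4 | h4
      · exfalso
        apply hne t (by omega)
        rw [← e1, ← h4]
      · exact h4.symm
  intro t ht
  rcases Nat.eq_zero_or_pos t with rfl | h3
  · exact h0
  · have h4 := (hall (t - 1) (by omega)).2
    rw [show t - 1 + 1 = t by omega] at h4
    exact h4

end rotn

section labels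

theorem lab_per (l : List ℕ) (t : ℕ) : lab l (t + l.length) = lab l t := by
  unfold lab
  rw [Nat.add_mod_right]

theorem lab_congr (l : List ℕ) {s t : ℕ} (h : s % l.length = t % l.length) : lab l s = lab l t := by
  unfold lab
  rw [h]

/-- The label `c` occurs in one of the first `i` lists. -/
def Known (links : List (List ℕ)) (i c : ℕ) : Prop :=
  c = 0 ∨ ∃ m, m < i ∧ ∃ t, t < (lk links m).length ∧ lab (lk links m) t = c

instance (links : List (List ℕ)) (i c : ℕ) : Decidable (Known links i c) := by
  unfold Known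
  infer_instance

/-- `a` and `b` are neighbours in the cyclic list `l`. -/
def Consec (l : List ℕ) (a b : ℕ) : Prop :=
  ∃ t, t < l.length ∧ ((lab l t = a ∧ lab l (t + 1) = b) ∨ (lab l t = b ∧ lab l (t + 1) = a))

instance (l : List ℕ) (a b : ℕ) : Decidable (Consec l a b) := by
  unfold Consec
  infer_instance

/-- The triangle `i a b` is a triangle at `a` or at `b`, one of the first `i` labels. -/
def KnownTri (links : List (List ℕ)) (i a b : ℕ) : Prop :=
  (a < i ∧ Consec (lk links a) i b) ∨ (b < i ∧ Consec (lk links b) i a)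

instance (links : List (List ℕ)) (i a b : ℕ) : Decidable (KnownTri links i a b) := by
  unfold KnownTri
  infer_instance

/-- The labels `a` and `b` belong to different vertices, since they are different neighbours of
a vertex or adjacent. -/
def KnownNe (links : List (List ℕ)) (i a b : ℕ) : Prop :=
  (∃ m, m < i ∧ ∃ t, t < (lk links m).length ∧ ∃ t', t' < (lk links m).length ∧ t ≠ t' ∧
    lab (lk links m) t = a ∧ lab (lk links m) t' = b) ∨
  (a < i ∧ ∃ t, t < (lk links a).length ∧ lab (lk links a) t = b) ∨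
  (b < i ∧ ∃ t, t < (lk links b).length ∧ lab (lk links b) t = a)

instance (links : List (List ℕ)) (i a b : ℕ) : Decidable (KnownNe links i a b) := by
  unfold KnownNe
  infer_instance

/-- The list of `i` can be added to the first `i` lists: from the place `s` on, the first `p + 1`
labels are known, the others are new. -/
structure StepOK (links : List (List ℕ)) (i s p : ℕ) : Prop where
  one : 1 ≤ p
  lt : p < (lk links i).length
  slt : s < (lk links i).length
  self : ∀ m, m ≤ i → Known links i m
  known : ∀ t, t ≤ p → Known links i (lab (lk links i) (s + t))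
  new : ∀ t, t < (lk links i).length → p < t → ¬ Known links i (lab (lk links i) (s + t))
  inj : ∀ t, t < (lk links i).length → ∀ t', t' < (lk links i).length →
    lab (lk links i) (s + t) = lab (lk links i) (s + t') → t = t'
  tri : ∀ t, t < p → KnownTri links i (lab (lk links i) (s + t)) (lab (lk links i) (s + (t + 1)))
  ne : ∀ t, t < p → t + 1 < p →
    KnownNe links i (lab (lk links i) (s + t)) (lab (lk links i) (s + (t + 2)))

theorem stepOK_iff (links : List (List ℕ)) (i s p : ℕ) : StepOK links i s p ↔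
    (1 ≤ p ∧ p < (lk links i).length ∧ s < (lk links i).length ∧
      (∀ m, m ≤ i → Known links i m) ∧
      (∀ t, t ≤ p → Known links i (lab (lk links i) (s + t))) ∧
      (∀ t, t < (lk links i).length → p < t → ¬ Known links i (lab (lk links i) (s + t))) ∧
      (∀ t, t < (lk links i).length → ∀ t', t' < (lk links i).length →
        lab (lk links i) (s + t) = lab (lk links i) (s + t') → t = t') ∧
      (∀ t, t < p →
        KnownTri links i (lab (lk links i) (s + t)) (lab (lk links i) (s + (t + 1)))) ∧
      (∀ t, t < p → t + 1 < p →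
        KnownNe links i (lab (lk links i) (s + t)) (lab (lk links i) (s + (t + 2))))) :=
  ⟨fun h => ⟨h.one, h.lt, h.slt, h.self, h.known, h.new, h.inj, h.tri, h.ne⟩,
    fun ⟨h1, h2, h3, h4, h5, h6, h7, h8, h9⟩ => ⟨h1, h2, h3, h4, h5, h6, h7, h8, h9⟩⟩

instance (links : List (List ℕ)) (i s p : ℕ) : Decidable (StepOK links i s p) :=
  decidable_of_iff' _ (stepOK_iff links i s p)

end labels

section occ

variable {W : Type} {H : SimpleGraph W} {T : W → W → W → Prop}

/-- The map `f` sends the first `m` lists to rotations. -/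
def Occ (H : SimpleGraph W) (T : W → W → W → Prop) (links : List (List ℕ)) (m : ℕ) (f : ℕ → W) :
    Prop :=
  ∀ i, i < m → Rotn H T (f i) (lk links i).length (fun t => f (lab (lk links i) t))

/-- The maps agree on all the labels of the first `i` lists. -/
def Agree (links : List (List ℕ)) (i : ℕ) (f f' : ℕ → W) : Prop :=
  ∀ c, Known links i c → f' c = f c

theorem Known.mono {links : List (List ℕ)} {i j c : ℕ} (hij : i ≤ j) (h : Known links i c) :
    Known links j c := by
  rcases h with h | ⟨m, hm, h⟩
  · exact Or.inl h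
  · exact Or.inr ⟨m, by omega, h⟩

theorem Agree.refl (links : List (List ℕ)) (i : ℕ) (f : ℕ → W) : Agree links i f f :=
  fun _ _ => rfl

theorem Agree.trans {links : List (List ℕ)} {i j : ℕ} {f g h : ℕ → W} (hij : i ≤ j)
    (h1 : Agree links i f g) (h2 : Agree links j g h) : Agree links i f h :=
  fun c hc => (h2 c (hc.mono hij)).trans (h1 c hc)

/-- The symmetries of the triangle relation. -/
structure TriRel (H : SimpleGraph W) (T : W → W → W → Prop) : Prop where
  rot : ∀ x y z, T x y z → T y z x
  swap : ∀ x y z, T x y z → T y x z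
  adj : ∀ x y z, T x y z → H.Adj x y

theorem Occ.tri {links : List (List ℕ)} {i : ℕ} {f : ℕ → W} (hT : TriRel H T)
    (h : Occ H T links i f) {a b : ℕ} (hab : KnownTri links i a b) : T (f i) (f a) (f b) := by
  rcases hab with ⟨ha, t, _, h1⟩ | ⟨hb, t, _, h1⟩
  · have h2 := (h a ha).tri_next t
    beta_reduce at h2
    rcases h1 with ⟨e1, e2⟩ | ⟨e1, e2⟩
    · rw [e1, e2] at h2
      exact hT.swap _ _ _ h2
    · rw [e1, e2] at h2
      exact hT.rot _ _ _ (hT.rot _ _ _ h2)
  · have h2 := (h b hb).tri_next t
    beta_reduce at h2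
    rcases h1 with ⟨e1, e2⟩ | ⟨e1, e2⟩
    · rw [e1, e2] at h2
      exact hT.rot _ _ _ h2
    · rw [e1, e2] at h2
      exact hT.rot _ _ _ (hT.rot _ _ _ (hT.swap _ _ _ h2))

theorem Occ.ne {links : List (List ℕ)} {i : ℕ} {f : ℕ → W} (h : Occ H T links i f) {a b : ℕ}
    (hab : KnownNe links i a b) : f a ≠ f b := by
  rcases hab with ⟨m, hm, t, ht, t', ht', hne, h1, h2⟩ | ⟨ha, t, _, h1⟩ | ⟨hb, t, _, h1⟩
  · intro heq
    rw [← h1, ← h2] at heq
    exact hne ((h m hm).inj t ht t' ht' heq)
  · have h2 := (h a ha).adj_nu t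
    beta_reduce at h2
    rw [h1] at h2
    exact h2.ne
  · have h2 := (h b hb).adj_nu t
    beta_reduce at h2
    rw [h1] at h2
    exact h2.ne'

theorem Occ.congr {links : List (List ℕ)} {i : ℕ} {f f' : ℕ → W} (h : Occ H T links i f)
    (hself : ∀ m, m < i → Known links i m) (hf : Agree links i f f') : Occ H T links i f' := by
  intro m hm
  have h1 : (fun t => f' (lab (lk links m) t)) = fun t => f (lab (lk links m) t) := by
    funext t
    refine hf _ (Or.inr ⟨m, hm, t % (lk links m).length, ?_, ?_⟩)
    · exact Nat.mod_lt _ (by have := (h m hm).three; omega)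
    · exact lab_congr _ (Nat.mod_mod _ _)
  rw [h1, hf m (hself m hm)]
  exact h m hm

/-- One more list. -/
theorem Occ.step {links : List (List ℕ)} {i s p : ℕ} {f : ℕ → W} (hT : TriRel H T)
    (h : Occ H T links i f) {ν : ℕ → W} (hν : Rotn H T (f i) (lk links i).length ν)
    (hb : StepOK links i s p) : ∃ f', Agree links i f f' ∧ Occ H T links (i + 1) f' := by
  classical
  obtain ⟨ν', h1, h2⟩ := hν.follow hT.adj (fun t => f (lab (lk links i) (s + t))) p hb.one
    (fun t ht => h.tri hT (hb.tri t ht)) (fun t ht => h.ne (hb.ne t (by omega) ht))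
  set l := lk links i with hl
  set d := l.length with hd
  have hd3 : 3 ≤ d := h1.three
  let f' : ℕ → W := fun c => if Known links i c then f c else
    if hc : ∃ t, t < d ∧ lab l (s + t) = c then ν' hc.choose else f c
  have hf : Agree links i f f' := fun c hc => if_pos hc
  have hf' : ∀ t, t < d → f' (lab l (s + t)) = ν' t := by
    intro t ht
    by_cases hc : Known links i (lab l (s + t))
    · have h3 : t ≤ p := by
        by_contra hcon
        exact hb.new t ht (by omega) hc
      rw [hf _ hc, h2 t h3]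
    · have hex : ∃ t', t' < d ∧ lab l (s + t') = lab l (s + t) := ⟨t, ht, rfl⟩
      have h3 : f' (lab l (s + t)) = ν' hex.choose := by
        change (if Known links i (lab l (s + t)) then f (lab l (s + t)) else
          if hc : ∃ t', t' < d ∧ lab l (s + t') = lab l (s + t) then ν' hc.choose
          else f (lab l (s + t))) = _
        rw [if_neg hc, dif_pos hex]
      rw [h3, hb.inj _ hex.choose_spec.1 t ht hex.choose_spec.2]
  refine ⟨f', hf, ?_⟩
  intro m hm
  rcases Nat.lt_succ_iff_lt_or_eq.1 hm with hm | rfl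
  · exact h.congr (fun m hm => hb.self m (by omega)) hf m hm
  · have h3 := h1.shift (d - s)
    have hs : s < d := hb.slt
    have h4 : (fun t => ν' (t + (d - s))) = fun t => f' (lab l t) := by
      funext t
      have h5 : ν' (t + (d - s)) = ν' ((t + (d - s)) % d) := h1.modEq (Nat.mod_modEq _ _).symm
      rw [h5, ← hf' _ (Nat.mod_lt _ (by omega))]
      congr 1
      apply lab_congr
      rw [← hd, Nat.add_mod_mod, show s + (t + (d - s)) = t + d by omega, Nat.add_mod_right]
    rw [h4] at h3
    rw [hf m (hb.self m le_rfl)]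
    exact h3

/-- The first list. -/
theorem occ_one {links : List (List ℕ)} {x : W} {ν : ℕ → W}
    (h : Rotn H T x (lk links 0).length ν) (h0 : 0 ∉ lk links 0) (hnd : (lk links 0).Nodup) :
    ∃ f : ℕ → W, f 0 = x ∧ (∀ t, t < (lk links 0).length → f (lab (lk links 0) t) = ν t) ∧
      Occ H T links 1 f := by
  classical
  set l := lk links 0 with hl
  have hd3 : 3 ≤ l.length := h.three
  have hlab : ∀ t (ht : t < l.length), lab l t = l[t] := by
    intro t ht
    unfold lab
    rw [Nat.mod_eq_of_lt ht, List.getD_eq_getElem _ _ ht]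
  let f : ℕ → W := fun c => if c = 0 then x else
    if hc : ∃ t, t < l.length ∧ lab l t = c then ν hc.choose else x
  have hf : ∀ t, t < l.length → f (lab l t) = ν t := by
    intro t ht
    have h1 : lab l t ≠ 0 := by
      intro hc
      rw [hlab t ht] at hc
      exact h0 (hc ▸ List.getElem_mem ht)
    have hex : ∃ t', t' < l.length ∧ lab l t' = lab l t := ⟨t, ht, rfl⟩
    have h2 : f (lab l t) = ν hex.choose := by
      change (if lab l t = 0 then x else
        if hc : ∃ t', t' < l.length ∧ lab l t' = lab l t then ν hc.choose else x) = _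
      rw [if_neg h1, dif_pos hex]
    rw [h2]
    obtain ⟨h3, h4⟩ := hex.choose_spec
    have h5 : l[hex.choose] = l[t] := (hlab _ h3).symm.trans (h4.trans (hlab _ ht))
    rw [(List.Nodup.getElem_inj_iff hnd).1 h5]
  refine ⟨f, rfl, hf, ?_⟩
  intro i hi
  obtain rfl : i = 0 := by omega
  have h4 : (fun t => f (lab l t)) = ν := by
    funext t
    have h5 : ν t = ν (t % l.length) := h.modEq (Nat.mod_modEq _ _).symm
    rw [h5, ← hf _ (Nat.mod_lt _ (by omega))]
    congr 1
    exact lab_congr _ (Nat.mod_mod _ _).symm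
  rw [h4]
  exact h

/-- All the lists: the places where the steps start are given by the list `sp`. -/
theorem occ_all {links : List (List ℕ)} (hT : TriRel H T) {k : ℕ} (sp : List (ℕ × ℕ))
    (hchk : ∀ i, i < k → 1 ≤ i → StepOK links i (sp.getD i (0, 0)).1 (sp.getD i (0, 0)).2)
    {f : ℕ → W} (h1 : Occ H T links 1 f)
    (hrot : ∀ i, i < k → 1 ≤ i → ∀ f', Agree links 1 f f' → Occ H T links i f' →
      ∃ ν, Rotn H T (f' i) (lk links i).length ν) :
    ∃ f', Agree links 1 f f' ∧ Occ H T links k f' := by
  have key : ∀ i, 1 ≤ i → i ≤ k → ∃ f', Agree links 1 f f' ∧ Occ H T links i f' := by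
    intro i hi
    induction i, hi using Nat.le_induction with
    | base => intro _; exact ⟨f, Agree.refl _ _ _, h1⟩
    | succ i hi ih =>
      intro hik
      obtain ⟨f', h2, h3⟩ := ih (by omega)
      obtain ⟨ν, hν⟩ := hrot i (by omega) hi f' h2 h3
      obtain ⟨f'', h4, h5⟩ := h3.step hT hν (hchk i (by omega) hi)
      exact ⟨f'', h2.trans hi h4, h5⟩
  rcases Nat.eq_zero_or_pos k with rfl | hk
  · exact ⟨f, Agree.refl _ _ _, fun i hi => absurd hi (by omega)⟩
  · exact key k hk le_rfl

end occ

/-! ### Closed labels in any order -/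

section patch

variable {W : Type} {H : SimpleGraph W} {T : W → W → W → Prop}

/-- A patch is a list of closed labels with their cyclic lists of neighbours; `f` sends every list
to a rotation. -/
def OccL (H : SimpleGraph W) (T : W → W → W → Prop) (P : List (ℕ × List ℕ)) (f : ℕ → W) : Prop :=
  ∀ q ∈ P, Rotn H T (f q.1) q.2.length (fun t => f (lab q.2 t))

/-- The triangle `w a b` is a triangle at `a` or at `b`, which is closed. -/
def TriL (P : List (ℕ × List ℕ)) (w a b : ℕ) : Prop :=
  ∃ q ∈ P, (q.1 = a ∧ Consec q.2 w b) ∨ (q.1 = b ∧ Consec q.2 w a)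

instance (P : List (ℕ × List ℕ)) (w a b : ℕ) : Decidable (TriL P w a b) := by
  unfold TriL
  infer_instance

/-- The labels `a` and `b` belong to different vertices. -/
def NeL (P : List (ℕ × List ℕ)) (a b : ℕ) : Prop :=
  ∃ q ∈ P, (a ≠ b ∧ a ∈ q.2 ∧ b ∈ q.2) ∨ (q.1 = a ∧ b ∈ q.2) ∨ (q.1 = b ∧ a ∈ q.2)

instance (P : List (ℕ × List ℕ)) (a b : ℕ) : Decidable (NeL P a b) := by
  unfold NeL
  infer_instance

theorem lab_mem {l : List ℕ} {a : ℕ} (ha : a ∈ l) : ∃ t, t < l.length ∧ lab l t = a := by
  obtain ⟨t, ht, h⟩ := List.mem_iff_getElem.1 ha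
  refine ⟨t, ht, ?_⟩
  unfold lab
  rw [Nat.mod_eq_of_lt ht, List.getD_eq_getElem _ _ ht, h]

theorem mem_lab {l : List ℕ} (t : ℕ) (hl : 0 < l.length) : lab l t ∈ l := by
  unfold lab
  rw [List.getD_eq_getElem _ _ (Nat.mod_lt _ hl)]
  exact List.getElem_mem _

theorem OccL.adj {P : List (ℕ × List ℕ)} {f : ℕ → W} (h : OccL H T P f) {q : ℕ × List ℕ}
    (hq : q ∈ P) {a : ℕ} (ha : a ∈ q.2) : H.Adj (f q.1) (f a) := by
  obtain ⟨t, _, rfl⟩ := lab_mem ha
  exact (h q hq).adj_nu t

theorem OccL.tri {P : List (ℕ × List ℕ)} {f : ℕ → W} (hT : TriRel H T) (h : OccL H T P f)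
    {w a b : ℕ} (hab : TriL P w a b) : T (f w) (f a) (f b) := by
  obtain ⟨q, hq, ⟨rfl, t, _, h1⟩ | ⟨rfl, t, _, h1⟩⟩ := hab
  · have h2 := (h q hq).tri_next t
    beta_reduce at h2
    rcases h1 with ⟨e1, e2⟩ | ⟨e1, e2⟩
    · rw [e1, e2] at h2
      exact hT.swap _ _ _ h2
    · rw [e1, e2] at h2
      exact hT.rot _ _ _ (hT.rot _ _ _ h2)
  · have h2 := (h q hq).tri_next t
    beta_reduce at h2
    rcases h1 with ⟨e1, e2⟩ | ⟨e1, e2⟩
    · rw [e1, e2] at h2
      exact hT.rot _ _ _ h2
    · rw [e1, e2] at h2
      exact hT.rot _ _ _ (hT.rot _ _ _ (hT.swap _ _ _ h2))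

theorem OccL.ne {P : List (ℕ × List ℕ)} {f : ℕ → W} (h : OccL H T P f) {a b : ℕ}
    (hab : NeL P a b) : f a ≠ f b := by
  obtain ⟨q, hq, ⟨hne, ha, hb⟩ | ⟨rfl, hb⟩ | ⟨rfl, ha⟩⟩ := hab
  · obtain ⟨t, ht, h1⟩ := lab_mem ha
    obtain ⟨t', ht', h2⟩ := lab_mem hb
    intro heq
    rw [← h1, ← h2] at heq
    have h3 := (h q hq).inj t ht t' ht' heq
    rw [h3, h2] at h1
    exact hne h1.symm
  · exact (h.adj hq hb).ne
  · exact (h.adj hq ha).ne'

theorem OccL.congr {P : List (ℕ × List ℕ)} {f f' : ℕ → W} (h : OccL H T P f) {n : ℕ}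
    (hn : ∀ q ∈ P, q.1 < n ∧ ∀ c ∈ q.2, c < n) (hf : ∀ c, c < n → f' c = f c) :
    OccL H T P f' := by
  intro q hq
  have h0 : 0 < q.2.length := by
    have := (h q hq).three
    omega
  have h1 : (fun t => f' (lab q.2 t)) = fun t => f (lab q.2 t) := by
    funext t
    exact hf _ ((hn q hq).2 _ (mem_lab t h0))
  rw [h1, hf _ (hn q hq).1]
  exact h q hq

/-- The labels `arc` are known neighbours of `w` in their order. -/
structure ArcOK (P : List (ℕ × List ℕ)) (n w : ℕ) (arc : List ℕ) : Prop where
  two : 2 ≤ arc.length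
  w_lt : w < n
  lt : ∀ c ∈ arc, c < n
  nodup : arc.Nodup
  tri : ∀ t, t < arc.length → t + 1 < arc.length → TriL P w (arc.getD t 0) (arc.getD (t + 1) 0)
  ne : ∀ t, t < arc.length → t + 2 < arc.length → NeL P (arc.getD t 0) (arc.getD (t + 2) 0)

theorem arcOK_iff (P : List (ℕ × List ℕ)) (n w : ℕ) (arc : List ℕ) : ArcOK P n w arc ↔
    (2 ≤ arc.length ∧ w < n ∧ (∀ c ∈ arc, c < n) ∧ arc.Nodup ∧
      (∀ t, t < arc.length → t + 1 < arc.length →
        TriL P w (arc.getD t 0) (arc.getD (t + 1) 0)) ∧
      (∀ t, t < arc.length → t + 2 < arc.length →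
        NeL P (arc.getD t 0) (arc.getD (t + 2) 0))) :=
  ⟨fun h => ⟨h.two, h.w_lt, h.lt, h.nodup, h.tri, h.ne⟩,
    fun ⟨h1, h2, h3, h4, h5, h6⟩ => ⟨h1, h2, h3, h4, h5, h6⟩⟩

instance (P : List (ℕ × List ℕ)) (n w : ℕ) (arc : List ℕ) : Decidable (ArcOK P n w arc) :=
  decidable_of_iff' _ (arcOK_iff P n w arc)

/-- The known arc at `w` is the beginning of a rotation at `w`. -/
theorem OccL.arc {P : List (ℕ × List ℕ)} {f : ℕ → W} (hT : TriRel H T) (h : OccL H T P f)
    {n w : ℕ} {arc : List ℕ} (ha : ArcOK P n w arc) {d : ℕ} {ν : ℕ → W}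
    (hν : Rotn H T (f w) d ν) :
    ∃ ν', Rotn H T (f w) d ν' ∧ ∀ t, t < arc.length → ν' t = f (arc.getD t 0) := by
  have h2 := ha.two
  obtain ⟨ν', h3, h4⟩ := hν.follow hT.adj (fun t => f (arc.getD t 0)) (arc.length - 1) (by omega)
    (fun t ht => h.tri hT (ha.tri t (by omega) (by omega)))
    (fun t ht => h.ne (ha.ne t (by omega) (by omega)))
  exact ⟨ν', h3, fun t ht => h4 t (by omega)⟩

/-- The known arc at `w` is not longer than the degree of `w`. -/
theorem OccL.arc_le {P : List (ℕ × List ℕ)} {f : ℕ → W} (hT : TriRel H T) (h : OccL H T P f)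
    {n w : ℕ} {arc : List ℕ} (ha : ArcOK P n w arc) {d : ℕ} {ν : ℕ → W}
    (hν : Rotn H T (f w) d ν)
    (hne : ∀ a ∈ arc, ∀ b ∈ arc, a ≠ b → f a ≠ f b) : arc.length ≤ d := by
  obtain ⟨ν', h3, h4⟩ := h.arc hT ha hν
  have hd := h3.three
  by_contra hcon
  push Not at hcon
  have h5 : ν' d = ν' 0 := by
    have := h3.per 0
    rwa [Nat.zero_add] at this
  rw [h4 d hcon, h4 0 (by omega)] at h5
  have h0 : 0 < arc.length := by omega
  rw [List.getD_eq_getElem _ _ hcon, List.getD_eq_getElem _ _ h0] at h5
  refine hne _ (List.getElem_mem hcon) _ (List.getElem_mem h0) ?_ h5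
  intro heq
  have := (List.Nodup.getElem_inj_iff ha.nodup).1 heq
  omega

/-- The label `w` is closed: its known neighbours are `arc`, and it has `k` new neighbours
`n, .., n + k - 1`. -/
theorem OccL.close {P : List (ℕ × List ℕ)} {f : ℕ → W} (hT : TriRel H T) (h : OccL H T P f)
    {n w k : ℕ} {arc : List ℕ} (hn : ∀ q ∈ P, q.1 < n ∧ ∀ c ∈ q.2, c < n)
    (ha : ArcOK P n w arc) {ν : ℕ → W} (hν : Rotn H T (f w) (arc.length + k) ν) :
    ∃ f', (∀ c, c < n → f' c = f c) ∧ OccL H T ((w, arc ++ List.range' n k) :: P) f' := by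
  obtain ⟨ν', h3, h4⟩ := h.arc hT ha hν
  have hd := h3.three
  let f' : ℕ → W := fun c => if c < n then f c else ν' (arc.length + (c - n))
  have hf : ∀ c, c < n → f' c = f c := fun c hc => if_pos hc
  have hlen : (arc ++ List.range' n k).length = arc.length + k := by
    rw [List.length_append, List.length_range']
  have key : ∀ t, t < arc.length + k → f' (lab (arc ++ List.range' n k) t) = ν' t := by
    intro t ht
    unfold lab
    rw [hlen, Nat.mod_eq_of_lt ht]
    by_cases h5 : t < arc.length
    · rw [List.getD_append _ _ _ _ h5, h4 t h5]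
      apply hf
      apply ha.lt
      rw [List.getD_eq_getElem _ _ h5]
      exact List.getElem_mem h5
    · push Not at h5
      rw [List.getD_append_right _ _ _ _ h5]
      have h6 : t - arc.length < (List.range' n k).length := by
        rw [List.length_range']
        omega
      rw [List.getD_eq_getElem _ _ h6, List.getElem_range']
      have h7 : ¬ n + 1 * (t - arc.length) < n := by omega
      change (if n + 1 * (t - arc.length) < n then _ else _) = _
      rw [if_neg h7]
      congr 1
      omega
  refine ⟨f', hf, ?_⟩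
  intro q hq
  rcases List.mem_cons.1 hq with rfl | hq
  · have h5 : (fun t => f' (lab (arc ++ List.range' n k) t)) = ν' := by
      funext t
      have h6 : ν' t = ν' (t % (arc.length + k)) := h3.modEq (Nat.mod_modEq _ _).symm
      rw [h6, ← key _ (Nat.mod_lt _ (by omega))]
      congr 1
      apply lab_congr
      rw [hlen, Nat.mod_mod]
    change Rotn H T (f' w) (arc ++ List.range' n k).length
      (fun t => f' (lab (arc ++ List.range' n k) t))
    rw [h5, hf w ha.w_lt, hlen]
    exact h3
  · exact h.congr hn hf q hq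

/-- The bound for the labels after a closing. -/
theorem close_lt {P : List (ℕ × List ℕ)} {n w k : ℕ} {arc : List ℕ}
    (hn : ∀ q ∈ P, q.1 < n ∧ ∀ c ∈ q.2, c < n) (ha : ArcOK P n w arc) :
    ∀ q ∈ (w, arc ++ List.range' n k) :: P, q.1 < n + k ∧ ∀ c ∈ q.2, c < n + k := by
  intro q hq
  rcases List.mem_cons.1 hq with rfl | hq
  · refine ⟨Nat.lt_add_right _ ha.w_lt, ?_⟩
    intro c hc
    rcases List.mem_append.1 hc with hc | hc
    · exact Nat.lt_add_right _ (ha.lt c hc)
    · rw [List.mem_range'_1] at hc
      exact hc.2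
  · obtain ⟨h1, h2⟩ := hn q hq
    exact ⟨Nat.lt_add_right _ h1, fun c hc => Nat.lt_add_right _ (h2 c hc)⟩

/-- The first closed label `0` with the neighbours `1, .., d`. -/
theorem occL_one {x : W} {d : ℕ} {ν : ℕ → W} (h : Rotn H T x d ν) :
    ∃ f : ℕ → W, f 0 = x ∧ (∀ t, t < d → f (t + 1) = ν t) ∧
      OccL H T [(0, List.range' 1 d)] f := by
  have hd := h.three
  refine ⟨fun c => if c = 0 then x else ν (c - 1), rfl, fun t _ => rfl, ?_⟩
  intro q hq
  rw [List.mem_singleton] at hq
  subst hq
  have h1 : (fun t => (fun c => if c = 0 then x else ν (c - 1)) (lab (List.range' 1 d) t)) = ν := by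
    funext t
    have h2 : t % d < (List.range' 1 d).length := by
      rw [List.length_range']
      exact Nat.mod_lt _ (by omega)
    have h3 : lab (List.range' 1 d) t = 1 + 1 * (t % d) := by
      unfold lab
      have h4 : (List.range' 1 d).length = d := List.length_range'
      rw [h4, List.getD_eq_getElem _ _ h2, List.getElem_range']
    rw [h3]
    have h5 : ¬ (1 + 1 * (t % d) = 0) := by omega
    change (if 1 + 1 * (t % d) = 0 then x else ν (1 + 1 * (t % d) - 1)) = ν t
    rw [if_neg h5, show 1 + 1 * (t % d) - 1 = t % d by omega]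
    exact h.modEq (Nat.mod_modEq _ _)
  change Rotn H T x (List.range' 1 d).length _
  rw [h1, List.length_range']
  exact h

/-- The cyclic lists are equal up to rotation and reflection. -/
def SameCyc (l l' : List ℕ) : Prop :=
  l.length = l'.length ∧ ∃ s, s < l.length ∧ ((∀ t, t < l.length → lab l t = lab l' (t + s)) ∨
    (∀ t, t < l.length → lab l t = lab l' (l.length - t + s)))

instance (l l' : List ℕ) : Decidable (SameCyc l l') := by
  unfold SameCyc
  infer_instance

theorem SameCyc.rotn {l l' : List ℕ} (hl : SameCyc l l') {x : W} {f : ℕ → W}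
    (h : Rotn H T x l'.length (fun t => f (lab l' t))) :
    Rotn H T x l.length (fun t => f (lab l t)) := by
  obtain ⟨h1, s, _, h2⟩ := hl
  have hd := h.three
  have hmod : ∀ t, t % l.length < l.length := fun t => Nat.mod_lt _ (by omega)
  rcases h2 with h2 | h2
  · have h3 := h.shift s
    have h4 : (fun t => (fun t => f (lab l' t)) (t + s)) = fun t => f (lab l t) := by
      funext t
      change f (lab l' (t + s)) = f (lab l t)
      congr 1
      rw [← lab_congr l (s := t % l.length) (t := t) (Nat.mod_mod _ _), h2 _ (hmod t)]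
      apply lab_congr
      rw [← h1]
      exact ((Nat.mod_modEq t l.length).add_right s).symm
    rw [h4, ← h1] at h3
    exact h3
  · have h3 := (h.shift s).flip
    have h4 : (fun t => (fun t => (fun t => f (lab l' t)) (t + s)) (l'.length - t % l'.length)) =
        fun t => f (lab l t) := by
      funext t
      change f (lab l' (l'.length - t % l'.length + s)) = f (lab l t)
      congr 1
      rw [← lab_congr l (s := t % l.length) (t := t) (Nat.mod_mod _ _), h2 _ (hmod t), h1]
    rw [h4, ← h1] at h3
    exact h3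

theorem lab_map (l : List ℕ) (m : ℕ → ℕ) (t : ℕ) (hl : 0 < l.length) :
    lab (l.map m) t = m (lab l t) := by
  unfold lab
  have h1 : t % l.length < l.length := Nat.mod_lt _ hl
  rw [List.length_map, List.getD_eq_getElem _ _ (by rw [List.length_map]; exact h1),
    List.getD_eq_getElem _ _ h1, List.getElem_map]

/-- The inner labels of the configuration are closed in the patch, with the same lists. -/
def SubEmbeds (P : List (ℕ × List ℕ)) (links : List (List ℕ)) (k : ℕ) (mm : List ℕ) : Prop :=
  ∀ i, i < k → ∃ q ∈ P, q.1 = mm.getD i 0 ∧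
    SameCyc ((lk links i).map (fun c => mm.getD c 0)) q.2

instance (P : List (ℕ × List ℕ)) (links : List (List ℕ)) (k : ℕ) (mm : List ℕ) :
    Decidable (SubEmbeds P links k mm) := by
  unfold SubEmbeds
  infer_instance

/-- A configuration which is contained in the patch occurs. -/
theorem OccL.embed {P : List (ℕ × List ℕ)} {f : ℕ → W} (h : OccL H T P f)
    {links : List (List ℕ)} {k : ℕ} {mm : List ℕ} (hm : SubEmbeds P links k mm) :
    Occ H T links k (fun c => f (mm.getD c 0)) := by
  intro i hi
  obtain ⟨q, hq, h1, h2⟩ := hm i hi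
  have h3 := h2.rotn (h q hq)
  have hd := h3.three
  rw [List.length_map] at h3 hd
  have h4 : (fun t => f (lab ((lk links i).map (fun c => mm.getD c 0)) t)) =
      fun t => f (mm.getD (lab (lk links i) t) 0) := by
    funext t
    rw [lab_map _ _ _ (by omega)]
  rw [h4, h1] at h3
  exact h3

end patch

end Pool.Agent.W986
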