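import Pool.Agent.DC76.Defs

/-!
# Substitution and merging: the lifting lemma with surviving inner vertices

As in `SubMerge.lean`, but the classes `0, .., k - 1` are vertices of `G'`, and a class may contain
no ring vertex (an inner vertex of `G'`).
-/

set_option autoImplicit false

open Finset

namespace Pool.Agent.W986

open Pool.Agent.DC76

/-- The finite data of a configuration: adjacency of the inner vertices, adjacency between inner
vertices and ring vertices, the classes of the ring vertices, the new edges between the classes, and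
the edges of the ring. -/
structure ConfK (a L k : ℕ) where
  /-- adjacency of the inner vertices -/
  inn : Fin a → Fin a → Bool
  /-- adjacency between inner and ring vertices -/
  mix : Fin a → Fin L → Bool
  /-- the class of a ring vertex -/
  cls : Fin L → Fin k
  /-- the new edges between classes -/
  chd : Fin k → Fin k → Bool
  /-- the edges of the ring -/
  rng : Fin L → Fin L → Bool

variable {a L k : ℕ}

/-- The colouring `d` of the inner vertices extends the colouring `c` of the ring, where the ring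
vertices in `m` get no new mates. -/
def ConfK.Ext (C : ConfK a L k) (c : Fin L → Fin 4) (m : Fin L → Bool) (d : Fin a → Fin 4) :
    Prop :=
  (∀ i, {j | C.inn i j = true ∧ d j = d i}.ncard + {r | C.mix i r = true ∧ c r = d i}.ncard ≤ 1) ∧
    (∀ r, {i | C.mix i r = true ∧ d i = c r}.ncard ≤ 1) ∧
    ∀ r i, m r = true → C.mix i r = true → d i ≠ c r

/-- The colouring `c` of the classes and the set `m` of saturated vertices of the ring can come from
`G'`. -/
structure ConfK.State (C : ConfK a L k) (c : Fin k → Fin 4) (m : Fin L → Bool) : Prop where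
  /-- at most one vertex of a class is saturated -/
  one : ∀ r s, C.cls r = C.cls s → m r = true → m s = true → r = s
  /-- the ends of a new edge have different colours or are not saturated -/
  chd : ∀ A B, C.chd A B = true → c A = c B →
    (∀ t, C.cls t = A → m t = false) ∧ ∀ t, C.cls t = B → m t = false
  /-- the ends of an edge of the ring with equal colours are saturated -/
  rng : ∀ r s, C.rng r s = true → c (C.cls r) = c (C.cls s) → m r = true
  /-- at most one edge of the ring at a vertex has ends of the same colour -/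
  two : ∀ r s t, C.rng r s = true → C.rng r t = true → c (C.cls r) = c (C.cls s) →
    c (C.cls r) = c (C.cls t) → s = t
  /-- at most one new edge at a class has ends of the same colour -/
  chd2 : ∀ A B B', C.chd A B = true → C.chd A B' = true → c A = c B → c A = c B' → B = B'

/-- Every state extends. -/
def ConfK.Red (C : ConfK a L k) : Prop :=
  ∀ c m, C.State c m → ∃ d, C.Ext (fun r => c (C.cls r)) m d

section

variable {V V' : Type} [Finite V] [Finite V']

/-- The lifting lemma; the colouring of `G` is the colouring of `G'` outside the configuration. -/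
theorem ConfK.lift (C : ConfK a L k) (hC : C.Red) (G : SimpleGraph V) (G' : SimpleGraph V')
    (κ : Fin a → V) (ρ : Fin L → V) (χ : Fin k → V') (q : V → V')
    -- the inner vertices and the ring
    (hκ : Function.Injective κ) (hρ : Function.Injective ρ) (hκρ : ∀ i r, κ i ≠ ρ r)
    (hinn : ∀ i j, G.Adj (κ i) (κ j) ↔ C.inn i j = true)
    (hmix : ∀ i r, G.Adj (κ i) (ρ r) ↔ C.mix i r = true)
    (hnb : ∀ i v, G.Adj (κ i) v → (∃ j, v = κ j) ∨ ∃ r, v = ρ r)
    (hrng : ∀ r s, C.rng r s = true → G.Adj (ρ r) (ρ s))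
    -- the map
    (hq : ∀ u v, (∀ i, κ i ≠ u) → (∀ i, κ i ≠ v) → G.Adj u v → G'.Adj (q u) (q v))
    (hχ : Function.Injective χ) (hcls : ∀ r, q (ρ r) = χ (C.cls r))
    (hout : ∀ u v, (∀ i, κ i ≠ u) → (∀ i, κ i ≠ v) → q u = q v → u = v ∨ ∃ r s, u = ρ r ∧ v = ρ s)
    -- no vertex outside is adjacent to two vertices of a class
    (hV : ∀ v r s, (∀ i, κ i ≠ v) → q (ρ r) = q (ρ s) → G.Adj v (ρ r) → G.Adj v (ρ s) → r = s)
    -- there is at most one edge between two classes
    (hW : ∀ r s t u, q (ρ r) = q (ρ s) → q (ρ t) = q (ρ u) → G.Adj (ρ r) (ρ t) →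
      G.Adj (ρ s) (ρ u) → r = s ∧ t = u)
    -- the new edges
    (hchd : ∀ A B, C.chd A B = true → G'.Adj (χ A) (χ B))
    (hnew : ∀ A B u v, C.chd A B = true → (∀ i, κ i ≠ u) → (∀ i, κ i ≠ v) → q u = χ A →
      q v = χ B → ¬ G.Adj u v)
    (c' : V' → Fin 4) (hc' : Defective G' 1 c') :
    ∃ c : V → Fin 4, Defective G 1 c ∧ ∀ v, (∀ i, κ i ≠ v) → c v = c' (q v) := by
  classical
  -- two mates of a vertex of `G'` are equal
  have huniq : ∀ x y z, G'.Adj x y → c' y = c' x → G'.Adj x z → c' z = c' x → y = z := by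
    intro x y z h1 h2 h3 h4
    have h := hc' x
    rw [Set.ncard_le_one (Set.toFinite _)] at h
    exact h y ⟨h1, h2⟩ z ⟨h3, h4⟩
  let Out : V → Prop := fun v => ∀ i, κ i ≠ v
  have hρo : ∀ r, Out (ρ r) := fun r i => hκρ i r
  let c0 : Fin L → Fin 4 := fun r => c' (χ (C.cls r))
  let m : Fin L → Bool := fun r =>
    decide (∃ v, Out v ∧ G.Adj (ρ r) v ∧ c' (q v) = c' (q (ρ r)))
  have hm : ∀ r, m r = true ↔ ∃ v, Out v ∧ G.Adj (ρ r) v ∧ c' (q v) = c' (q (ρ r)) :=
    fun r => decide_eq_true_iff
  have hstate : C.State (fun A => c' (χ A)) m := by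
    refine ⟨?_, ?_, ?_, ?_, ?_⟩
    · intro r s h hr hs
      have h' : q (ρ r) = q (ρ s) := by rw [hcls, hcls, h]
      obtain ⟨u, hu, hru, hcu⟩ := (hm r).1 hr
      obtain ⟨w, hw, hsw, hcw⟩ := (hm s).1 hs
      have h1 := hq _ _ (hρo r) hu hru
      have h2 := hq _ _ (hρo s) hw hsw
      rw [← h'] at h2 hcw
      have h3 := huniq _ _ _ h1 hcu h2 hcw
      rcases hout u w hu hw h3 with h4 | ⟨t, u', rfl, rfl⟩
      · subst h4
        exact hV u r s hu h' hru.symm hsw.symm
      · exact (hW r s t u' h' h3 hru hsw).1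
    · intro A B h hc
      have h1 := hchd A B h
      change c' _ = c' _ at hc
      constructor
      · intro t ht
        rw [← Bool.not_eq_true]
        intro hmt
        obtain ⟨v, hv, htv, hcv⟩ := (hm t).1 hmt
        have h2 := hq _ _ (hρo t) hv htv
        have h' : q (ρ t) = χ A := by rw [hcls, ht]
        rw [h'] at h2 hcv
        have h3 := huniq _ _ _ h1 hc.symm h2 hcv
        exact hnew A B (ρ t) v h (hρo t) hv h' h3.symm htv
      · intro t ht
        rw [← Bool.not_eq_true]
        intro hmt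
        obtain ⟨v, hv, htv, hcv⟩ := (hm t).1 hmt
        have h2 := hq _ _ (hρo t) hv htv
        have h' : q (ρ t) = χ B := by rw [hcls, ht]
        rw [h'] at h2 hcv
        have h3 := huniq _ _ _ h1.symm hc h2 hcv
        exact hnew A B v (ρ t) h hv (hρo t) h3.symm h' htv.symm
    · intro r s h hc
      refine (hm r).2 ⟨ρ s, hρo s, hrng r s h, ?_⟩
      rw [hcls, hcls]
      exact hc.symm
    · intro r s t h1 h2 hc1 hc2
      have e1 : c' (q (ρ s)) = c' (q (ρ r)) := by
        rw [hcls, hcls]
        exact hc1.symm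
      have e2 : c' (q (ρ t)) = c' (q (ρ r)) := by
        rw [hcls, hcls]
        exact hc2.symm
      have h3 := huniq _ _ _ (hq _ _ (hρo r) (hρo s) (hrng r s h1)) e1
        (hq _ _ (hρo r) (hρo t) (hrng r t h2)) e2
      exact hV (ρ r) s t (hρo r) h3 (hrng r s h1) (hrng r t h2)
    · intro A B B' h1 h2 hc1 hc2
      exact hχ (huniq _ _ _ (hchd A B h1) hc1.symm (hchd A B' h2) hc2.symm)
  obtain ⟨d, hd1, hd2, hd3⟩ := hC _ m hstate
  let c : V → Fin 4 := fun v => if h : ∃ i, κ i = v then d h.choose else c' (q v)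
  have hcκ : ∀ i, c (κ i) = d i := by
    intro i
    have h : ∃ j, κ j = κ i := ⟨i, rfl⟩
    change (if h : ∃ j, κ j = κ i then d h.choose else _) = _
    rw [dif_pos h, hκ h.choose_spec]
  have hco : ∀ v, Out v → c v = c' (q v) := by
    intro v hv
    change (if h : ∃ j, κ j = v then d h.choose else _) = _
    rw [dif_neg]
    rintro ⟨i, hi⟩
    exact hv i hi
  have hcρ : ∀ r, c (ρ r) = c0 r := by
    intro r
    rw [hco _ (hρo r), hcls]
  -- the mates outside
  have hout1 : ∀ v, Out v → ∀ u w, Out u → Out w → G.Adj v u → G.Adj v w → c u = c v →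
      c w = c v → u = w := by
    intro v hv u w hu hw hvu hvw hcu hcw
    rw [hco u hu, hco v hv] at hcu
    rw [hco w hw, hco v hv] at hcw
    have h3 := huniq _ _ _ (hq v u hv hu hvu) hcu (hq v w hv hw hvw) hcw
    rcases hout u w hu hw h3 with h4 | ⟨t, s, rfl, rfl⟩
    · exact h4
    · rw [hV v t s hv h3 hvu hvw]
  refine ⟨c, fun v => ?_, hco⟩
  by_cases hv : ∃ i, κ i = v
  · obtain ⟨i, rfl⟩ := hv
    have hsub : {u | G.Adj (κ i) u ∧ c u = c (κ i)} ⊆
        κ '' {j | C.inn i j = true ∧ d j = d i} ∪ ρ '' {r | C.mix i r = true ∧ c0 r = d i} := by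
      rintro u ⟨h1, h2⟩
      rcases hnb i u h1 with ⟨j, rfl⟩ | ⟨r, rfl⟩
      · rw [hcκ, hcκ] at h2
        exact Or.inl ⟨j, ⟨(hinn i j).1 h1, h2⟩, rfl⟩
      · rw [hcκ, hcρ] at h2
        exact Or.inr ⟨r, ⟨(hmix i r).1 h1, h2⟩, rfl⟩
    refine (Set.ncard_le_ncard hsub (Set.toFinite _)).trans ((Set.ncard_union_le _ _).trans ?_)
    rw [Set.ncard_image_of_injective _ hκ, Set.ncard_image_of_injective _ hρ]
    exact hd1 i
  · have hv' : Out v := fun i hi => hv ⟨i, hi⟩
    rw [Set.ncard_le_one (Set.toFinite _)]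
    rintro u ⟨hvu, hcu⟩ w ⟨hvw, hcw⟩
    by_cases hr : ∃ r, v = ρ r
    · obtain ⟨r, rfl⟩ := hr
      -- an outer mate excludes inner mates
      have hex : ∀ x i, Out x → G.Adj (ρ r) x → c x = c (ρ r) → G.Adj (ρ r) (κ i) →
          c (κ i) = c (ρ r) → False := by
        intro x i hx h1 h2 h3 h4
        rw [hco x hx, hco _ hv'] at h2
        rw [hcκ, hcρ] at h4
        exact hd3 r i ((hm r).2 ⟨x, hx, h1, h2⟩) ((hmix i r).1 h3.symm) h4
      by_cases hu : ∃ i, κ i = u
      · obtain ⟨i, rfl⟩ := hu
        by_cases hw : ∃ i, κ i = w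
        · obtain ⟨j, rfl⟩ := hw
          have h := hd2 r
          rw [Set.ncard_le_one (Set.toFinite _)] at h
          rw [hcκ, hcρ] at hcu hcw
          rw [h i ⟨(hmix i r).1 hvu.symm, hcu⟩ j ⟨(hmix j r).1 hvw.symm, hcw⟩]
        · exact (hex w i (fun i hi => hw ⟨i, hi⟩) hvw hcw hvu hcu).elim
      · by_cases hw : ∃ i, κ i = w
        · obtain ⟨j, rfl⟩ := hw
          exact (hex u j (fun i hi => hu ⟨i, hi⟩) hvu hcu hvw hcw).elim
        · exact hout1 _ hv' u w (fun i hi => hu ⟨i, hi⟩) (fun i hi => hw ⟨i, hi⟩) hvu hvw hcu hcw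
    · have hno : ∀ i, ¬ G.Adj v (κ i) := by
        intro i h
        rcases hnb i v h.symm with ⟨j, rfl⟩ | ⟨r, rfl⟩
        · exact hv ⟨j, rfl⟩
        · exact hr ⟨r, rfl⟩
      refine hout1 v hv' u w ?_ ?_ hvu hvw hcu hcw
      · rintro i rfl
        exact hno i hvu
      · rintro i rfl
        exact hno i hvw

end

end Pool.Agent.W986
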