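import Pool.Agent.W986.SubCheck

/-!
# Configurations: soundness of the check
-/

set_option autoImplicit false

namespace Pool.Agent.W986

theorem ncard_add_ncard_le_one {α β : Type} [Finite α] [Finite β] (S : Set α) (T : Set β)
    (h1 : ∀ x ∈ S, ∀ y ∈ S, x = y) (h2 : ∀ x ∈ T, ∀ y ∈ T, x = y)
    (h3 : ∀ x ∈ S, ∀ y ∈ T, False) : S.ncard + T.ncard ≤ 1 := by
  rcases S.eq_empty_or_nonempty with h | ⟨x, hx⟩
  · rw [h, Set.ncard_empty, zero_add, Set.ncard_le_one (Set.toFinite _)]
    exact h2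
  · have h4 : T = ∅ := by
      rw [Set.eq_empty_iff_forall_notMem]
      intro y hy
      exact h3 x hx y hy
    rw [h4, Set.ncard_empty, add_zero, Set.ncard_le_one (Set.toFinite _)]
    exact h1

namespace CData

variable {D : CData}

/-- The contents of `wf`. -/
structure Wf (D : CData) : Prop where
  len : D.lev.length = D.a
  kL : D.k ≤ D.L
  q_lt : ∀ r, r < D.L → D.q r < D.k
  rng : ∀ r s, (r, s) ∈ D.rng → r < D.L ∧ s < D.L ∧ (s, r) ∈ D.rng
  chd : ∀ r s, (r, s) ∈ D.chd → r < D.L ∧ s < D.L ∧ (s, r) ∈ D.chd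
  inn : ∀ i j, (i, j) ∈ D.inn → i < D.a ∧ j < D.a ∧ (j, i) ∈ D.inn ∧ i ≠ j
  mix : ∀ i r, (i, r) ∈ D.mix → i < D.a ∧ r < D.L ∧ r ∈ (levAt D.lev i).E
  hA : ∀ i j j', (i, j) ∈ D.inn → (i, j') ∈ D.inn → j < j' →
    (i < j' → memS i j (levAt D.lev j').A = true) ∧
      (¬ i < j' → memS j j' (levAt D.lev i).A = true)
  hB : ∀ i j r, (i, j) ∈ D.inn → (i, r) ∈ D.mix →
    (j < i → (j, D.q r) ∈ (levAt D.lev i).B) ∧ (¬ j < i → (i, D.q r) ∈ (levAt D.lev j).B)
  hB' : ∀ i i' r, (i, r) ∈ D.mix → (i', r) ∈ D.mix → i < i' → (i, D.q r) ∈ (levAt D.lev i').B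
  hC : ∀ i r r', (i, r) ∈ D.mix → (i, r') ∈ D.mix → r < r' →
    memS (D.q r) (D.q r') (levAt D.lev i).C = true

theorem blt_iff (x y : ℕ) : Nat.blt x y = true ↔ x < y := by
  rw [Nat.blt_eq]

theorem ble_iff (x y : ℕ) : Nat.ble x y = true ↔ x ≤ y := by
  rw [Nat.ble_eq]

theorem beq_iff (x y : ℕ) : Nat.beq x y = true ↔ x = y := by
  rw [Nat.beq_eq]

theorem blt_false_iff (x y : ℕ) : Nat.blt x y = false ↔ ¬ x < y := by
  rw [← blt_iff, Bool.not_eq_true]

theorem beq_false_iff (x y : ℕ) : Nat.beq x y = false ↔ x ≠ y := by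
  rw [ne_eq, ← beq_iff, Bool.not_eq_true]

theorem wf_iff (h : D.wf = true) : Wf D := by
  unfold wf at h
  simp only [Bool.and_eq_true, all2_iff, blt_iff, ble_iff, beq_iff, mem1_iff, mem2_iff,
    List.all_eq_true, List.mem_range, Bool.not_eq_true', beq_false_iff] at h
  obtain ⟨⟨⟨⟨⟨⟨⟨⟨⟨⟨h1, h2⟩, h3⟩, h4⟩, h5⟩, h6⟩, h7⟩, h8⟩, h9⟩, h10⟩, h11⟩ := h
  refine ⟨h1, h2, h3, fun r s h => ?_, fun r s h => ?_, fun i j h => ?_, fun i r h => ?_, ?_, ?_,
    ?_, ?_⟩
  · obtain ⟨⟨a, b⟩, c⟩ := h4 r s h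
    exact ⟨a, b, c⟩
  · obtain ⟨⟨a, b⟩, c⟩ := h5 r s h
    exact ⟨a, b, c⟩
  · obtain ⟨⟨⟨a, b⟩, c⟩, d⟩ := h6 i j h
    exact ⟨a, b, c, d⟩
  · obtain ⟨⟨a, b⟩, c⟩ := h7 i r h
    exact ⟨a, b, c⟩
  · intro i j j' hij hij' hjj'
    have h := h8 i j hij i j' hij'
    have e1 : (Nat.beq i i && Nat.blt j j') = true := by
      rw [Bool.and_eq_true, beq_iff, blt_iff]
      exact ⟨rfl, hjj'⟩
    rw [e1, cond_true] at h
    constructor
    · intro h'
      rw [(blt_iff i j').2 h', cond_true] at h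
      exact h
    · intro h'
      rw [(blt_false_iff i j').2 h', cond_false] at h
      exact h
  · intro i j r hij hir
    have h := h9 i j hij i r hir
    rw [(beq_iff i i).2 rfl, cond_true] at h
    constructor
    · intro h'
      rw [(blt_iff j i).2 h', cond_true, mem2_iff] at h
      exact h
    · intro h'
      rw [(blt_false_iff j i).2 h', cond_false, mem2_iff] at h
      exact h
  · intro i i' r hir hir' hii'
    have h := h10 i r hir i' r hir'
    have e1 : (Nat.beq r r && Nat.blt i i') = true := by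
      rw [Bool.and_eq_true, beq_iff, blt_iff]
      exact ⟨rfl, hii'⟩
    rw [e1, cond_true, mem2_iff] at h
    exact h
  · intro i r r' hir hir' hrr'
    have h := h11 i r hir i r' hir'
    have e1 : (Nat.beq i i && Nat.blt r r') = true := by
      rw [Bool.and_eq_true, beq_iff, blt_iff]
      exact ⟨rfl, hrr'⟩
    rw [e1, cond_true] at h
    exact h

theorem allL_iff (f : List ℕ → Bool) (l : List (List ℕ)) (h : allL f l = true) :
    ∀ p ∈ l, f p = true := by
  induction l with
  | nil => simp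
  | cons x l ih =>
    rw [allL] at h
    cases hx : f x with
    | true =>
      rw [hx, cond_true] at h
      intro p hp
      rcases List.mem_cons.1 hp with rfl | hp
      · exact hx
      · exact ih h p hp
    | false =>
      rw [hx, cond_false] at h
      exact absurd h (by decide)

theorem levAt_eq (l : List Lev) (n : ℕ) (h : n < l.length) : levAt l n = l[n] := by
  induction l generalizing n with
  | nil => simp at h
  | cons x l ih =>
    cases n with
    | zero => rfl
    | succ n => exact ih n (by simpa using h)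

theorem anyA_false (code t : ℕ) (l : List (ℕ × ℕ)) (h : anyA code t l = false) (x y : ℕ)
    (hxy : (x, y) ∈ l) : ¬ (sdg code x = t ∧ sdg code y = t) := by
  induction l with
  | nil => simp at hxy
  | cons p l ih =>
    obtain ⟨p1, p2⟩ := p
    rw [anyA] at h
    change (bif (bif Nat.beq (sdg code p1) t then Nat.beq (sdg code p2) t else false) then true
      else anyA code t l) = false at h
    cases h1 : Nat.beq (sdg code p1) t with
    | true =>
      cases h2 : Nat.beq (sdg code p2) t with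
      | true =>
        rw [h1, h2, cond_true, cond_true] at h
        exact absurd h (by decide)
      | false =>
        rw [h1, h2, cond_true, cond_false] at h
        rcases List.mem_cons.1 hxy with h3 | h3
        · rw [Prod.mk.injEq] at h3
          rintro ⟨-, h4⟩
          rw [h3.2] at h4
          exact (beq_false_iff _ _).1 h2 h4
        · exact ih h h3
    | false =>
      rw [h1, cond_false, cond_false] at h
      rcases List.mem_cons.1 hxy with h3 | h3
      · rw [Prod.mk.injEq] at h3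
        rintro ⟨h4, -⟩
        rw [h3.1] at h4
        exact (beq_false_iff _ _).1 h1 h4
      · exact ih h h3

theorem sdg_lt (E i : ℕ) : sdg E i < 4 := by
  rw [sdg_eq]
  exact Nat.mod_lt _ (by omega)

/-- **The check is sound.** -/
theorem red (D : CData) (h : D.check = true) : D.conf.Red := by
  classical
  rw [check, Bool.and_eq_true] at h
  obtain ⟨hw, hall⟩ := h
  have W := wf_iff hw
  intro c m hs
  -- colours of the classes
  let cc : ℕ → ℕ := fun x => if h : ∃ r : Fin D.L, D.q r = x then (c h.choose).val else 0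
  have hcc4 : ∀ x, cc x < 4 := by
    intro x
    change (if h : ∃ r : Fin D.L, D.q r = x then (c h.choose).val else 0) < 4
    split_ifs
    · exact (c _).isLt
    · omega
  have hcls : ∀ r s : Fin D.L, D.q r = D.q s → D.conf.cls r = D.conf.cls s := by
    intro r s hrs
    have h1 : D.q r < D.L := lt_of_lt_of_le (W.q_lt r r.2) W.kL
    have h2 : D.q s < D.L := lt_of_lt_of_le (W.q_lt s s.2) W.kL
    change (if h : D.q r < D.L then (⟨D.q r, h⟩ : Fin D.L) else r) =
      if h : D.q s < D.L then (⟨D.q s, h⟩ : Fin D.L) else s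
    rw [dif_pos h1, dif_pos h2]
    simp only [hrs]
  have hcls' : ∀ r s : Fin D.L, D.conf.cls r = D.conf.cls s → D.q r = D.q s := by
    intro r s hrs
    have h1 : D.q r < D.L := lt_of_lt_of_le (W.q_lt r r.2) W.kL
    have h2 : D.q s < D.L := lt_of_lt_of_le (W.q_lt s s.2) W.kL
    change (if h : D.q r < D.L then (⟨D.q r, h⟩ : Fin D.L) else r) =
      (if h : D.q s < D.L then (⟨D.q s, h⟩ : Fin D.L) else s) at hrs
    rw [dif_pos h1, dif_pos h2, Fin.mk.injEq] at hrs
    exact hrs
  have hcc : ∀ r : Fin D.L, cc (D.q r) = (c r).val := by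
    intro r
    have h1 : ∃ s : Fin D.L, D.q s = D.q r := ⟨r, rfl⟩
    change (if h : ∃ s : Fin D.L, D.q s = D.q r then (c h.choose).val else 0) = _
    rw [dif_pos h1]
    rw [hs.cls _ _ (hcls _ _ h1.choose_spec)]
  -- bits
  have hmsk : ∀ (r : Fin D.L) t, t < 4 →
      ((msk D.k (D.q r) t).testBit (senc cc D.k) = true ↔ (c r).val = t) := by
    intro r t ht
    rw [testBit_msk cc hcc4 D.k _ t (W.q_lt r r.2) ht, decide_eq_true_iff, hcc]
  have hfull : (fullSet D.k).testBit (senc cc D.k) = true := by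
    rw [testBit_fullSet, decide_eq_true_iff]
    exact senc_lt cc hcc4 D.k
  have hmono : ∀ r s : Fin D.L,
      ((D.mono (D.q r) (D.q s)).testBit (senc cc D.k) = true ↔ c r = c s) := by
    intro r s
    change (((msk D.k (D.q r) 0 &&& msk D.k (D.q s) 0) |||
      (msk D.k (D.q r) 1 &&& msk D.k (D.q s) 1)) |||
      ((msk D.k (D.q r) 2 &&& msk D.k (D.q s) 2) |||
      (msk D.k (D.q r) 3 &&& msk D.k (D.q s) 3))).testBit (senc cc D.k) = true ↔ _
    simp only [Nat.testBit_or, Nat.testBit_and, Bool.or_eq_true, Bool.and_eq_true,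
      hmsk r _ (show 0 < 4 by omega), hmsk s _ (show 0 < 4 by omega),
      hmsk r _ (show 1 < 4 by omega), hmsk s _ (show 1 < 4 by omega),
      hmsk r _ (show 2 < 4 by omega), hmsk s _ (show 2 < 4 by omega),
      hmsk r _ (show 3 < 4 by omega), hmsk s _ (show 3 < 4 by omega), Fin.ext_iff]
    have := (c r).2
    omega
  -- the saturated vertices
  obtain ⟨p, hp, hpm⟩ := exists_pat (fun r => ∃ h : r < D.L, m ⟨r, h⟩ = true)
    ((List.range D.k).map D.mem) (by
      intro C hC r hr s hs' hmr hms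
      rw [List.mem_map] at hC
      obtain ⟨x, -, rfl⟩ := hC
      rw [mem, List.mem_filter, beq_iff] at hr hs'
      obtain ⟨h1, h2⟩ := hmr
      obtain ⟨h3, h4⟩ := hms
      have h5 := hs.one ⟨r, h1⟩ ⟨s, h3⟩ (hcls _ _ (by rw [hr.2, hs'.2])) h2 h4
      exact congrArg Fin.val h5)
  have hpm' : ∀ r : Fin D.L, m r = true → r.val ∈ p := by
    intro r hr
    refine hpm (D.mem (D.q r)) ?_ r.val ?_ ⟨r.2, hr⟩
    · exact List.mem_map.2 ⟨D.q r, List.mem_range.2 (W.q_lt r r.2), rfl⟩
    · rw [mem, List.mem_filter, beq_iff]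
      exact ⟨List.mem_range.2 r.2, rfl⟩
  have hrngT : ∀ r s : Fin D.L, (r.val, s.val) ∈ D.rng → D.conf.rng r s = true := by
    intro r s h
    exact (mem2_iff _ _ _).2 h
  have hchdT : ∀ r s : Fin D.L, (r.val, s.val) ∈ D.chd → D.conf.chd r s = true := by
    intro r s h
    exact (mem2_iff _ _ _).2 h
  -- the colouring is possible
  have hstart : (D.start p).testBit (senc cc D.k) = true := by
    change (fullSet D.k ^^^ (((or2 (fun r s => bif mem1 r p then 0 else D.mono (D.q r) (D.q s))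
      D.rng) ||| _) ||| (_ ||| _))).testBit (senc cc D.k) = true
    rw [Nat.testBit_xor, hfull, Nat.testBit_or, Nat.testBit_or, Nat.testBit_or]
    have t1 : (or2 (fun r s => bif mem1 r p then 0 else D.mono (D.q r) (D.q s)) D.rng).testBit
        (senc cc D.k) = false := by
      rw [← Bool.not_eq_true, testBit_or2]
      rintro ⟨r, s, hrs, h⟩
      obtain ⟨hr, hs1, -⟩ := W.rng r s hrs
      cases hm : mem1 r p with
      | true =>
        rw [hm, cond_true, Nat.zero_testBit] at h
        exact absurd h (by decide)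
      | false =>
        rw [hm, cond_false] at h
        have h1 := (hmono ⟨r, hr⟩ ⟨s, hs1⟩).1 h
        have h2 := hs.rng ⟨r, hr⟩ ⟨s, hs1⟩ (hrngT ⟨r, hr⟩ ⟨s, hs1⟩ hrs) h1
        have h3 := (mem1_iff r p).2 (hpm' ⟨r, hr⟩ h2)
        rw [h3] at hm
        exact absurd hm (by decide)
    have t2 : (or2 (fun r s => or2 (fun r' s' => bif (bif Nat.beq r r' then Nat.beq s s' else true)
        then 0 else Nat.land (D.mono (D.q r) (D.q s)) (D.mono (D.q r') (D.q s'))) D.rng)
        D.rng).testBit (senc cc D.k) = false := by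
      rw [← Bool.not_eq_true, testBit_or2]
      rintro ⟨r, s, hrs, h⟩
      rw [testBit_or2] at h
      obtain ⟨r', s', hrs', h⟩ := h
      obtain ⟨hr, hs1, -⟩ := W.rng r s hrs
      obtain ⟨hr', hs1', -⟩ := W.rng r' s' hrs'
      cases h1 : Nat.beq r r' with
      | false =>
        rw [h1, cond_false, cond_true, Nat.zero_testBit] at h
        exact absurd h (by decide)
      | true =>
        cases h2 : Nat.beq s s' with
        | true =>
          rw [h1, h2, cond_true, cond_true, Nat.zero_testBit] at h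
          exact absurd h (by decide)
        | false =>
          rw [h1, h2, cond_true, cond_false] at h
          change (D.mono (D.q r) (D.q s) &&& D.mono (D.q r') (D.q s')).testBit _ = true at h
          rw [Nat.testBit_and, Bool.and_eq_true] at h
          have h3 := (hmono ⟨r, hr⟩ ⟨s, hs1⟩).1 h.1
          have h4 := (hmono ⟨r', hr'⟩ ⟨s', hs1'⟩).1 h.2
          have h5 := (beq_iff r r').1 h1
          subst h5
          have h6 := hs.two ⟨r, hr⟩ ⟨s, hs1⟩ ⟨s', hs1'⟩ (hrngT ⟨r, hr⟩ ⟨s, hs1⟩ hrs)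
            (hrngT ⟨r, hr⟩ ⟨s', hs1'⟩ hrs') h3 h4
          exact (beq_false_iff s s').1 h2 (congrArg Fin.val h6)
    have t3 : (or2 (fun r s => or2 (fun r' s' => bif (bif Nat.beq (D.q r) (D.q r') then
        Nat.beq (D.q s) (D.q s') else true) then 0
        else Nat.land (D.mono (D.q r) (D.q s)) (D.mono (D.q r') (D.q s'))) D.chd) D.chd).testBit
        (senc cc D.k) = false := by
      rw [← Bool.not_eq_true, testBit_or2]
      rintro ⟨r, s, hrs, h⟩
      rw [testBit_or2] at h
      obtain ⟨r', s', hrs', h⟩ := h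
      obtain ⟨hr, hs1, -⟩ := W.chd r s hrs
      obtain ⟨hr', hs1', -⟩ := W.chd r' s' hrs'
      cases h1 : Nat.beq (D.q r) (D.q r') with
      | false =>
        rw [h1, cond_false, cond_true, Nat.zero_testBit] at h
        exact absurd h (by decide)
      | true =>
        cases h2 : Nat.beq (D.q s) (D.q s') with
        | true =>
          rw [h1, h2, cond_true, cond_true, Nat.zero_testBit] at h
          exact absurd h (by decide)
        | false =>
          rw [h1, h2, cond_true, cond_false] at h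
          change (D.mono (D.q r) (D.q s) &&& D.mono (D.q r') (D.q s')).testBit _ = true at h
          rw [Nat.testBit_and, Bool.and_eq_true] at h
          have h3 := (hmono ⟨r, hr⟩ ⟨s, hs1⟩).1 h.1
          have h4 := (hmono ⟨r', hr'⟩ ⟨s', hs1'⟩).1 h.2
          have h5 := (beq_iff _ _).1 h1
          have h6 := hs.chd2 ⟨r, hr⟩ ⟨s, hs1⟩ ⟨r', hr'⟩ ⟨s', hs1'⟩
            (hchdT ⟨r, hr⟩ ⟨s, hs1⟩ hrs) (hchdT ⟨r', hr'⟩ ⟨s', hs1'⟩ hrs') (hcls _ _ h5) h3 h4
          exact (beq_false_iff _ _).1 h2 (hcls' _ _ h6)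
    have t4 : (or2 (fun r s => or2 (fun r' s' => bif Nat.beq (D.q r) (D.q r') then
        Nat.land (D.mono (D.q r) (D.q s)) (D.mono (D.q r') (D.q s')) else 0) D.rng) D.chd).testBit
        (senc cc D.k) = false := by
      rw [← Bool.not_eq_true, testBit_or2]
      rintro ⟨r, s, hrs, h⟩
      rw [testBit_or2] at h
      obtain ⟨r', s', hrs', h⟩ := h
      obtain ⟨hr, hs1, -⟩ := W.chd r s hrs
      obtain ⟨hr', hs1', -⟩ := W.rng r' s' hrs'
      cases h1 : Nat.beq (D.q r) (D.q r') with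
      | false =>
        rw [h1, cond_false, Nat.zero_testBit] at h
        exact absurd h (by decide)
      | true =>
        rw [h1, cond_true] at h
        change (D.mono (D.q r) (D.q s) &&& D.mono (D.q r') (D.q s')).testBit _ = true at h
        rw [Nat.testBit_and, Bool.and_eq_true] at h
        have h3 := (hmono ⟨r, hr⟩ ⟨s, hs1⟩).1 h.1
        have h4 := (hmono ⟨r', hr'⟩ ⟨s', hs1'⟩).1 h.2
        have h5 := (beq_iff _ _).1 h1
        have h6 := (hs.chd ⟨r, hr⟩ ⟨s, hs1⟩ (hchdT ⟨r, hr⟩ ⟨s, hs1⟩ hrs) h3).1 ⟨r', hr'⟩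
          (hcls _ _ h5.symm)
        have h7 := hs.rng ⟨r', hr'⟩ ⟨s', hs1'⟩ (hrngT ⟨r', hr'⟩ ⟨s', hs1'⟩ hrs') h4
        rw [h6] at h7
        exact absurd h7 (by decide)
    rw [t1, t2, t3, t4]
    rfl
  -- the search
  have hdfs := allL_iff _ _ hall p hp
  rw [beq_iff, fce_eq] at hdfs
  have h0 : (dfs (D.exc p) D.lev 0 0 0 (D.start p)).testBit (senc cc D.k) = false := by
    rw [hdfs, Nat.zero_testBit]
  obtain ⟨-, hgood⟩ := dfs_sound (D.exc p) (senc cc D.k) D.lev 0 0 0 _ hstart h0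
  obtain ⟨E, -, hE⟩ := GoodFrom.exists (D.exc p) (senc cc D.k) D.lev 0 0 (by simp) hgood
  have hlev : ∀ n, n < D.a →
      (D.exc p (levAt D.lev n) (E % 4 ^ n) (sdg E n)).testBit (senc cc D.k) = false := by
    intro n hn
    have hn' : n < D.lev.length := by
      rw [W.len]
      exact hn
    have h1 := hE n hn'
    rw [zero_add] at h1
    rw [levAt_eq _ _ hn']
    exact h1
  have parts : ∀ n, n < D.a →
      ((∀ x y, x < n → y < n → (x, y) ∈ (levAt D.lev n).A → ¬ (sdg E x = sdg E n ∧ sdg E y = sdg E n)) ∧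
      (∀ x (r : Fin D.L), x < n → (x, D.q r) ∈ (levAt D.lev n).B → sdg E x = sdg E n →
        (c r).val ≠ sdg E n)) ∧
      ((∀ r s : Fin D.L, memS (D.q r) (D.q s) (levAt D.lev n).C = true →
        ¬ ((c r).val = sdg E n ∧ (c s).val = sdg E n)) ∧
      (∀ r : Fin D.L, r.val ∈ (levAt D.lev n).E → m r = true → (c r).val ≠ sdg E n)) := by
    intro n hn
    have h1 := hlev n hn
    change (((bif anyA (E % 4 ^ n) (sdg E n) (levAt D.lev n).A then fullSet D.k else 0) |||
      (or2 (fun j c => bif Nat.beq (sdg (E % 4 ^ n) j) (sdg E n) then msk D.k c (sdg E n) else 0)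
        (levAt D.lev n).B)) |||
      ((or2 (fun c c' => Nat.land (msk D.k c (sdg E n)) (msk D.k c' (sdg E n))) (levAt D.lev n).C) |||
      (or1 (fun r => D.lock p r (sdg E n)) (levAt D.lev n).E))).testBit (senc cc D.k) = false at h1
    rw [Nat.testBit_or, Nat.testBit_or, Nat.testBit_or, Bool.or_eq_false_iff,
      Bool.or_eq_false_iff, Bool.or_eq_false_iff] at h1
    obtain ⟨⟨hA, hB⟩, hC, hL⟩ := h1
    refine ⟨⟨?_, ?_⟩, ?_, ?_⟩
    · intro x y hx hy hxy
      cases h2 : anyA (E % 4 ^ n) (sdg E n) (levAt D.lev n).A with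
      | true =>
        rw [h2, cond_true, hfull] at hA
        exact absurd hA (by decide)
      | false =>
        have h3 := anyA_false _ _ _ h2 x y hxy
        rw [sdg_mod E n x hx, sdg_mod E n y hy] at h3
        exact h3
    · intro x r hx hxr hd hcr
      rw [← Bool.not_eq_true, testBit_or2] at hB
      refine hB ⟨x, D.q r, hxr, ?_⟩
      rw [sdg_mod E n x hx, (beq_iff _ _).2 hd, cond_true]
      exact (hmsk r _ (sdg_lt E n)).2 hcr
    · intro r s hrs hcr
      rw [← Bool.not_eq_true, testBit_or2] at hC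
      have h3 : ∀ r s : Fin D.L, (D.q r, D.q s) ∈ (levAt D.lev n).C →
          ¬ ((c r).val = sdg E n ∧ (c s).val = sdg E n) := by
        intro r s hrs hcr
        refine hC ⟨D.q r, D.q s, hrs, ?_⟩
        change (msk D.k (D.q r) (sdg E n) &&& msk D.k (D.q s) (sdg E n)).testBit (senc cc D.k) = true
        rw [Nat.testBit_and, Bool.and_eq_true]
        exact ⟨(hmsk r _ (sdg_lt E n)).2 hcr.1, (hmsk s _ (sdg_lt E n)).2 hcr.2⟩
      rw [memS, Bool.or_eq_true, mem2_iff, mem2_iff] at hrs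
      rcases hrs with hrs | hrs
      · exact h3 r s hrs hcr
      · exact h3 s r hrs ⟨hcr.2, hcr.1⟩
    · intro r hr hmr hcr
      rw [← Bool.not_eq_true, testBit_or1] at hL
      refine hL ⟨r.val, hr, ?_⟩
      rw [lock, (mem1_iff _ _).2 (hpm' r hmr), cond_true]
      change (msk D.k (D.q r) (sdg E n) &&& (fullSet D.k ^^^ or2 (fun s s' =>
        bif Nat.beq (D.q s) (D.q r) then D.mono (D.q s) (D.q s') else 0) D.chd)).testBit
        (senc cc D.k) = true
      rw [Nat.testBit_and, Nat.testBit_xor, hfull, (hmsk r _ (sdg_lt E n)).2 hcr]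
      have h4 : (or2 (fun s s' => bif Nat.beq (D.q s) (D.q r) then D.mono (D.q s) (D.q s') else 0)
          D.chd).testBit (senc cc D.k) = false := by
        rw [← Bool.not_eq_true, testBit_or2]
        rintro ⟨s, s', hss, h⟩
        obtain ⟨hs1, hs2, -⟩ := W.chd s s' hss
        cases h5 : Nat.beq (D.q s) (D.q r) with
        | false =>
          rw [h5, cond_false, Nat.zero_testBit] at h
          exact absurd h (by decide)
        | true =>
          rw [h5, cond_true] at h
          have h6 := (hmono ⟨s, hs1⟩ ⟨s', hs2⟩).1 h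
          have h7 := (hs.chd ⟨s, hs1⟩ ⟨s', hs2⟩ (hchdT ⟨s, hs1⟩ ⟨s', hs2⟩ hss) h6).1 r
            (hcls r ⟨s, hs1⟩ ((beq_iff _ _).1 h5).symm)
          rw [hmr] at h7
          exact absurd h7 (by decide)
      rw [h4]
      rfl
  -- the extension
  have memS_comm : ∀ x y l, memS x y l = memS y x l := by
    intro x y l
    rw [memS, memS, Bool.or_comm]
  have hAA : ∀ n x y, n < D.a → x < n → y < n → memS x y (levAt D.lev n).A = true →
      ¬ (sdg E x = sdg E n ∧ sdg E y = sdg E n) := by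
    intro n x y hn hx hy h
    rw [memS, Bool.or_eq_true, mem2_iff, mem2_iff] at h
    rcases h with h | h
    · exact (parts n hn).1.1 x y hx hy h
    · intro h'
      exact (parts n hn).1.1 y x hy hx h ⟨h'.2, h'.1⟩
  -- two inner neighbours of an inner vertex
  have hII : ∀ i j j', (i, j) ∈ D.inn → (i, j') ∈ D.inn → j < j' →
      ¬ (sdg E j = sdg E i ∧ sdg E j' = sdg E i) := by
    intro i j j' hij hij' hjj' ⟨e1, e2⟩
    obtain ⟨hia, hja, -, hne⟩ := W.inn i j hij
    obtain ⟨-, hja', -, hne'⟩ := W.inn i j' hij'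
    obtain ⟨h1, h2⟩ := W.hA i j j' hij hij' hjj'
    by_cases h3 : i < j'
    · exact hAA j' i j hja' h3 hjj' (h1 h3) ⟨e2.symm, e1.trans e2.symm⟩
    · exact hAA i j j' hia (by omega) (by omega) (h2 h3) ⟨e1, e2⟩
  have hIR : ∀ (i j : ℕ) (r : Fin D.L), (i, j) ∈ D.inn → (i, r.val) ∈ D.mix →
      ¬ (sdg E j = sdg E i ∧ (c r).val = sdg E i) := by
    intro i j r hij hir ⟨e1, e2⟩
    obtain ⟨hia, hja, -, hne⟩ := W.inn i j hij
    obtain ⟨h1, h2⟩ := W.hB i j r hij hir
    by_cases h3 : j < i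
    · exact (parts i hia).1.2 j r h3 (h1 h3) e1 e2
    · exact (parts j hja).1.2 i r (by omega) (h2 h3) e1.symm (e2.trans e1.symm)
  have hRR : ∀ (i : ℕ) (r s : Fin D.L), (i, r.val) ∈ D.mix → (i, s.val) ∈ D.mix → r < s →
      ¬ ((c r).val = sdg E i ∧ (c s).val = sdg E i) := by
    intro i r s hir his hrs
    obtain ⟨hia, -, -⟩ := W.mix i r hir
    exact (parts i hia).2.1 r s (W.hC i r s hir his hrs)
  have hRI : ∀ (i i' : ℕ) (r : Fin D.L), (i, r.val) ∈ D.mix → (i', r.val) ∈ D.mix → i < i' →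
      ¬ (sdg E i = (c r).val ∧ sdg E i' = (c r).val) := by
    intro i i' r hir hir' hii' ⟨e1, e2⟩
    obtain ⟨hia, -, -⟩ := W.mix i' r hir'
    exact (parts i' hia).1.2 i r hii' (W.hB' i i' r hir hir' hii') (e1.trans e2.symm) e2.symm
  refine ⟨fun i => ⟨sdg E i, sdg_lt E i⟩, ?_, ?_, ?_⟩
  · intro i
    refine ncard_add_ncard_le_one _ _ ?_ ?_ ?_
    · rintro x ⟨hx, ex⟩ y ⟨hy, ey⟩
      rw [Fin.mk.injEq] at ex ey
      have hx' := (mem2_iff _ _ _).1 hx
      have hy' := (mem2_iff _ _ _).1 hy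
      rcases lt_trichotomy x y with h | h | h
      · exact absurd ⟨ex, ey⟩ (hII i x y hx' hy' h)
      · exact h
      · exact absurd ⟨ey, ex⟩ (hII i y x hy' hx' h)
    · rintro x ⟨hx, ex⟩ y ⟨hy, ey⟩
      rw [Fin.ext_iff] at ex ey
      have hx' := (mem2_iff _ _ _).1 hx
      have hy' := (mem2_iff _ _ _).1 hy
      rcases lt_trichotomy x y with h | h | h
      · exact absurd ⟨ex, ey⟩ (hRR i x y hx' hy' h)
      · exact h
      · exact absurd ⟨ey, ex⟩ (hRR i y x hy' hx' h)
    · rintro x ⟨hx, ex⟩ y ⟨hy, ey⟩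
      rw [Fin.mk.injEq] at ex
      rw [Fin.ext_iff] at ey
      exact hIR i x y ((mem2_iff _ _ _).1 hx) ((mem2_iff _ _ _).1 hy) ⟨ex, ey⟩
  · intro r
    rw [Set.ncard_le_one (Set.toFinite _)]
    rintro x ⟨hx, ex⟩ y ⟨hy, ey⟩
    rw [Fin.ext_iff] at ex ey
    have hx' := (mem2_iff _ _ _).1 hx
    have hy' := (mem2_iff _ _ _).1 hy
    rcases lt_trichotomy x y with h | h | h
    · exact absurd ⟨ex, ey⟩ (hRI x y r hx' hy' h)
    · exact h
    · exact absurd ⟨ey, ex⟩ (hRI y x r hy' hx' h)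
  · intro r i hmr hir hd
    rw [Fin.ext_iff] at hd
    have hir' := (mem2_iff _ _ _).1 hir
    obtain ⟨-, -, h1⟩ := W.mix i r hir'
    exact (parts i i.2).2.2 r h1 hmr hd.symm

end CData

end Pool.Agent.W986
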