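import Pool.Agent.W986.SubDef
import Pool.Agent.W986.SubSound
import Pool.Agent.W986.SubMergeK

/-!
# Configurations with surviving inner vertices: a check by the kernel

`KData` is a configuration given by lists of numbers. `KData.check D = true` is evaluated by the
kernel, and implies that every state of the ring of the configuration `KData.conf D` extends.
-/

set_option autoImplicit false

namespace Pool.Agent.W986

namespace KData

variable (D : KData)

/-- The configuration. -/
def conf : ConfK D.a D.L (D.kp + 1) where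
  inn i j := mem2 i j D.inn
  mix i r := mem2 i r D.mix
  cls r := Fin.ofNat (D.kp + 1) (D.q r)
  chd A B := mem2 A B D.chq
  rng r s := mem2 r s D.rng

/-- The colourings in which the classes `c`, `c'` have the same colour. -/
def mono (c c' : ℕ) : ℕ :=
  Nat.lor (Nat.lor (Nat.land (msk D.k c 0) (msk D.k c' 0)) (Nat.land (msk D.k c 1) (msk D.k c' 1)))
    (Nat.lor (Nat.land (msk D.k c 2) (msk D.k c' 2)) (Nat.land (msk D.k c 3) (msk D.k c' 3)))

/-- The colourings of the classes which are possible if only members of `p` are saturated. -/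
def start (p : List ℕ) : ℕ :=
  Nat.xor (fullSet D.k) (Nat.lor
    (Nat.lor
      (or2 (fun r s => bif mem1 r p then 0 else D.mono (D.q r) (D.q s)) D.rng)
      (or2 (fun r s => or2 (fun r' s' => bif (bif Nat.beq r r' then Nat.beq s s' else true) then 0
        else Nat.land (D.mono (D.q r) (D.q s)) (D.mono (D.q r') (D.q s'))) D.rng) D.rng))
    (Nat.lor
      (or2 (fun A B => or2 (fun A' B' => bif (bif Nat.beq A A' then Nat.beq B B' else true) then 0
        else Nat.land (D.mono A B) (D.mono A' B')) D.chq) D.chq)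
      (or2 (fun A B => or2 (fun r' s' => bif Nat.beq A (D.q r') then
        Nat.land (D.mono A B) (D.mono (D.q r') (D.q s')) else 0) D.rng) D.chq)))

/-- The colourings in which `r` has the colour `t` and may be saturated. -/
def lock (p : List ℕ) (r t : ℕ) : ℕ :=
  bif mem1 r p then Nat.land (msk D.k (D.q r) t) (Nat.xor (fullSet D.k)
    (or2 (fun A B => bif Nat.beq A (D.q r) then D.mono A B else 0) D.chq))
  else 0

/-- The colourings excluded by the choice of the colour `t`. -/
def exc (p : List ℕ) (lv : Lev) (code t : ℕ) : ℕ :=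
  Nat.lor
    (Nat.lor (bif CData.anyA code t lv.A then fullSet D.k else 0)
      (or2 (fun j c => bif Nat.beq (sdg code j) t then msk D.k c t else 0) lv.B))
    (Nat.lor (or2 (fun c c' => Nat.land (msk D.k c t) (msk D.k c' t)) lv.C)
      (or1 (fun r => D.lock p r t) lv.E))

/-- The lists are complete. -/
def wf : Bool :=
  Nat.beq D.lev.length D.a &&
    (List.range D.L).all (fun r => Nat.blt (D.q r) D.k) &&
    all2 (fun r s => Nat.blt r D.L && Nat.blt s D.L && mem2 s r D.rng) D.rng &&
    all2 (fun A B => Nat.blt A D.k && Nat.blt B D.k && mem2 B A D.chq) D.chq &&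
    all2 (fun i j => Nat.blt i D.a && Nat.blt j D.a && mem2 j i D.inn && !Nat.beq i j) D.inn &&
    all2 (fun i r => Nat.blt i D.a && Nat.blt r D.L && mem1 r (CData.levAt D.lev i).E) D.mix &&
    all2 (fun i j => all2 (fun i' j' => bif Nat.beq i i' && Nat.blt j j' then
      (bif Nat.blt i j' then CData.memS i j (CData.levAt D.lev j').A
        else CData.memS j j' (CData.levAt D.lev i).A)
      else true) D.inn) D.inn &&
    all2 (fun i j => all2 (fun i' r => bif Nat.beq i i' then
      (bif Nat.blt j i then mem2 j (D.q r) (CData.levAt D.lev i).B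
        else mem2 i (D.q r) (CData.levAt D.lev j).B)
      else true) D.mix) D.inn &&
    all2 (fun i r => all2 (fun i' r' => bif Nat.beq r r' && Nat.blt i i' then
      mem2 i (D.q r) (CData.levAt D.lev i').B else true) D.mix) D.mix &&
    all2 (fun i r => all2 (fun i' r' => bif Nat.beq i i' && Nat.blt r r' then
      CData.memS (D.q r) (D.q r') (CData.levAt D.lev i).C else true) D.mix) D.mix

/-- The check. -/
def check : Bool :=
  D.wf && CData.allL (fun p => Nat.beq (fce (D.start p) fun R => dfs (D.exc p) D.lev 0 0 0 R) 0)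
    (pats ((List.range D.k).map D.mem))

/-- The contents of `wf`. -/
structure Wf (D : KData) : Prop where
  len : D.lev.length = D.a
  q_lt : ∀ r, r < D.L → D.q r < D.k
  rng : ∀ r s, (r, s) ∈ D.rng → r < D.L ∧ s < D.L ∧ (s, r) ∈ D.rng
  chq : ∀ A B, (A, B) ∈ D.chq → A < D.k ∧ B < D.k ∧ (B, A) ∈ D.chq
  inn : ∀ i j, (i, j) ∈ D.inn → i < D.a ∧ j < D.a ∧ (j, i) ∈ D.inn ∧ i ≠ j
  mix : ∀ i r, (i, r) ∈ D.mix → i < D.a ∧ r < D.L ∧ r ∈ (CData.levAt D.lev i).E
  hA : ∀ i j j', (i, j) ∈ D.inn → (i, j') ∈ D.inn → j < j' →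
    (i < j' → CData.memS i j (CData.levAt D.lev j').A = true) ∧
      (¬ i < j' → CData.memS j j' (CData.levAt D.lev i).A = true)
  hB : ∀ i j r, (i, j) ∈ D.inn → (i, r) ∈ D.mix →
    (j < i → (j, D.q r) ∈ (CData.levAt D.lev i).B) ∧
      (¬ j < i → (i, D.q r) ∈ (CData.levAt D.lev j).B)
  hB' : ∀ i i' r, (i, r) ∈ D.mix → (i', r) ∈ D.mix → i < i' → (i, D.q r) ∈ (CData.levAt D.lev i').B
  hC : ∀ i r r', (i, r) ∈ D.mix → (i, r') ∈ D.mix → r < r' →
    CData.memS (D.q r) (D.q r') (CData.levAt D.lev i).C = true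

theorem wf_iff (h : D.wf = true) : Wf D := by
  unfold wf at h
  simp only [Bool.and_eq_true, all2_iff, CData.blt_iff, CData.beq_iff, mem1_iff, mem2_iff,
    List.all_eq_true, List.mem_range, Bool.not_eq_true', CData.beq_false_iff] at h
  obtain ⟨⟨⟨⟨⟨⟨⟨⟨⟨h1, h3⟩, h4⟩, h5⟩, h6⟩, h7⟩, h8⟩, h9⟩, h10⟩, h11⟩ := h
  refine ⟨h1, h3, fun r s h => ?_, fun r s h => ?_, fun i j h => ?_, fun i r h => ?_, ?_, ?_,
    ?_, ?_⟩
  · obtain ⟨⟨a, b⟩, c⟩ := h4 r s h
    exact ⟨a, b, c⟩
  · obtain ⟨⟨a, b⟩, c⟩ := h5 r s h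
    exact ⟨a, b, c⟩
  · obtain ⟨⟨⟨a, b⟩, c⟩, d⟩ := h6 i j h
    exact ⟨a, b, c, d⟩
  · obtain ⟨⟨a, b⟩, c⟩ := h7 i r h
    exact ⟨a, b, c⟩
  · intro i j j' hij hij' hjj'
    have h := h8 i j hij i j' hij'
    have e1 : (Nat.beq i i && Nat.blt j j') = true := by
      rw [Bool.and_eq_true, CData.beq_iff, CData.blt_iff]
      exact ⟨rfl, hjj'⟩
    rw [e1, cond_true] at h
    constructor
    · intro h'
      rw [(CData.blt_iff i j').2 h', cond_true] at h
      exact h
    · intro h'
      rw [(CData.blt_false_iff i j').2 h', cond_false] at h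
      exact h
  · intro i j r hij hir
    have h := h9 i j hij i r hir
    rw [(CData.beq_iff i i).2 rfl, cond_true] at h
    constructor
    · intro h'
      rw [(CData.blt_iff j i).2 h', cond_true, mem2_iff] at h
      exact h
    · intro h'
      rw [(CData.blt_false_iff j i).2 h', cond_false, mem2_iff] at h
      exact h
  · intro i i' r hir hir' hii'
    have h := h10 i r hir i' r hir'
    have e1 : (Nat.beq r r && Nat.blt i i') = true := by
      rw [Bool.and_eq_true, CData.beq_iff, CData.blt_iff]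
      exact ⟨rfl, hii'⟩
    rw [e1, cond_true, mem2_iff] at h
    exact h
  · intro i r r' hir hir' hrr'
    have h := h11 i r hir i r' hir'
    have e1 : (Nat.beq i i && Nat.blt r r') = true := by
      rw [Bool.and_eq_true, CData.beq_iff, CData.blt_iff]
      exact ⟨rfl, hrr'⟩
    rw [e1, cond_true] at h
    exact h

/-- **The check is sound.** -/
theorem red (D : KData) (h : D.check = true) : D.conf.Red := by
  classical
  rw [check, Bool.and_eq_true] at h
  obtain ⟨hw, hall⟩ := h
  have W := wf_iff D hw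
  intro c m hs
  -- colours of the classes
  let cc : ℕ → ℕ := fun x => if h : x < D.kp + 1 then (c ⟨x, h⟩).val else 0
  have hcc4 : ∀ x, cc x < 4 := by
    intro x
    change (if h : x < D.kp + 1 then (c ⟨x, h⟩).val else 0) < 4
    split_ifs
    · exact (c _).isLt
    · omega
  have hccA : ∀ A : Fin (D.kp + 1), cc A = (c A).val := by
    intro A
    change (if h : A.val < D.kp + 1 then (c ⟨A.val, h⟩).val else 0) = _
    rw [dif_pos A.2]
  have hclv : ∀ r : Fin D.L, (D.conf.cls r).val = D.q r := by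
    intro r
    change D.q r % (D.kp + 1) = D.q r
    exact Nat.mod_eq_of_lt (W.q_lt r r.2)
  have hcls : ∀ r s : Fin D.L, D.q r = D.q s → D.conf.cls r = D.conf.cls s := by
    intro r s hrs
    rw [Fin.ext_iff, hclv, hclv, hrs]
  have hcc : ∀ r : Fin D.L, cc (D.q r) = (c (D.conf.cls r)).val := by
    intro r
    rw [← hccA, hclv]
  -- bits
  have hmsk : ∀ (r : Fin D.L) t, t < 4 →
      ((msk D.k (D.q r) t).testBit (senc cc D.k) = true ↔ (c (D.conf.cls r)).val = t) := by
    intro r t ht
    rw [testBit_msk cc hcc4 D.k _ t (W.q_lt r r.2) ht, decide_eq_true_iff, hcc]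
  have hmskA : ∀ (A : Fin (D.kp + 1)) t, t < 4 →
      ((msk D.k A t).testBit (senc cc D.k) = true ↔ (c A).val = t) := by
    intro A t ht
    rw [testBit_msk cc hcc4 D.k _ t A.2 ht, decide_eq_true_iff, hccA]
  have hfull : (fullSet D.k).testBit (senc cc D.k) = true := by
    rw [testBit_fullSet, decide_eq_true_iff]
    exact senc_lt cc hcc4 D.k
  have hmonoA : ∀ A B : Fin (D.kp + 1),
      ((D.mono A B).testBit (senc cc D.k) = true ↔ c A = c B) := by
    intro r s
    change (((msk D.k r 0 &&& msk D.k s 0) ||| (msk D.k r 1 &&& msk D.k s 1)) |||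
      ((msk D.k r 2 &&& msk D.k s 2) |||
      (msk D.k r 3 &&& msk D.k s 3))).testBit (senc cc D.k) = true ↔ _
    simp only [Nat.testBit_or, Nat.testBit_and, Bool.or_eq_true, Bool.and_eq_true,
      hmskA r _ (show 0 < 4 by omega), hmskA s _ (show 0 < 4 by omega),
      hmskA r _ (show 1 < 4 by omega), hmskA s _ (show 1 < 4 by omega),
      hmskA r _ (show 2 < 4 by omega), hmskA s _ (show 2 < 4 by omega),
      hmskA r _ (show 3 < 4 by omega), hmskA s _ (show 3 < 4 by omega), Fin.ext_iff]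
    have := (c r).2
    omega
  have hmono : ∀ r s : Fin D.L,
      ((D.mono (D.q r) (D.q s)).testBit (senc cc D.k) = true ↔
        c (D.conf.cls r) = c (D.conf.cls s)) := by
    intro r s
    have h := hmonoA (D.conf.cls r) (D.conf.cls s)
    rw [hclv, hclv] at h
    exact h
  -- the saturated vertices
  obtain ⟨p, hp, hpm⟩ := exists_pat (fun r => ∃ h : r < D.L, m ⟨r, h⟩ = true)
    ((List.range D.k).map D.mem) (by
      intro C hC r hr s hs' hmr hms
      rw [List.mem_map] at hC
      obtain ⟨x, -, rfl⟩ := hC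
      rw [mem, List.mem_filter, CData.beq_iff] at hr hs'
      obtain ⟨h1, h2⟩ := hmr
      obtain ⟨h3, h4⟩ := hms
      have h5 := hs.one ⟨r, h1⟩ ⟨s, h3⟩ (hcls _ _ (by rw [hr.2, hs'.2])) h2 h4
      exact congrArg Fin.val h5)
  have hpm' : ∀ r : Fin D.L, m r = true → r.val ∈ p := by
    intro r hr
    refine hpm (D.mem (D.q r)) ?_ r.val ?_ ⟨r.2, hr⟩
    · exact List.mem_map.2 ⟨D.q r, List.mem_range.2 (W.q_lt r r.2), rfl⟩
    · rw [mem, List.mem_filter, CData.beq_iff]
      exact ⟨List.mem_range.2 r.2, rfl⟩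
  have hrngT : ∀ r s : Fin D.L, (r.val, s.val) ∈ D.rng → D.conf.rng r s = true := by
    intro r s h
    exact (mem2_iff _ _ _).2 h
  have hchdT : ∀ A B : Fin (D.kp + 1), (A.val, B.val) ∈ D.chq → D.conf.chd A B = true := by
    intro r s h
    exact (mem2_iff _ _ _).2 h
  -- the colouring is possible
  have hstart : (D.start p).testBit (senc cc D.k) = true := by
    change (fullSet D.k ^^^ (((or2 (fun r s => bif mem1 r p then 0 else D.mono (D.q r) (D.q s))
      D.rng) ||| _) ||| (_ ||| _))).testBit (senc cc D.k) = true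
    rw [Nat.testBit_xor, hfull, Nat.testBit_or, Nat.testBit_or, Nat.testBit_or]
    have t1 : (or2 (fun r s => bif mem1 r p then 0 else D.mono (D.q r) (D.q s)) D.rng).testBit
        (senc cc D.k) = false := by
      rw [← Bool.not_eq_true, testBit_or2]
      rintro ⟨r, s, hrs, h⟩
      obtain ⟨hr, hs1, -⟩ := W.rng r s hrs
      cases hm : mem1 r p with
      | true =>
        rw [hm, cond_true, Nat.zero_testBit] at h
        exact absurd h (by decide)
      | false =>
        rw [hm, cond_false] at h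
        have h1 := (hmono ⟨r, hr⟩ ⟨s, hs1⟩).1 h
        have h2 := hs.rng ⟨r, hr⟩ ⟨s, hs1⟩ (hrngT ⟨r, hr⟩ ⟨s, hs1⟩ hrs) h1
        have h3 := (mem1_iff r p).2 (hpm' ⟨r, hr⟩ h2)
        rw [h3] at hm
        exact absurd hm (by decide)
    have t2 : (or2 (fun r s => or2 (fun r' s' => bif (bif Nat.beq r r' then Nat.beq s s' else true)
        then 0 else Nat.land (D.mono (D.q r) (D.q s)) (D.mono (D.q r') (D.q s'))) D.rng)
        D.rng).testBit (senc cc D.k) = false := by
      rw [← Bool.not_eq_true, testBit_or2]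
      rintro ⟨r, s, hrs, h⟩
      rw [testBit_or2] at h
      obtain ⟨r', s', hrs', h⟩ := h
      obtain ⟨hr, hs1, -⟩ := W.rng r s hrs
      obtain ⟨hr', hs1', -⟩ := W.rng r' s' hrs'
      cases h1 : Nat.beq r r' with
      | false =>
        rw [h1, cond_false, cond_true, Nat.zero_testBit] at h
        exact absurd h (by decide)
      | true =>
        cases h2 : Nat.beq s s' with
        | true =>
          rw [h1, h2, cond_true, cond_true, Nat.zero_testBit] at h
          exact absurd h (by decide)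
        | false =>
          rw [h1, h2, cond_true, cond_false] at h
          change (D.mono (D.q r) (D.q s) &&& D.mono (D.q r') (D.q s')).testBit _ = true at h
          rw [Nat.testBit_and, Bool.and_eq_true] at h
          have h3 := (hmono ⟨r, hr⟩ ⟨s, hs1⟩).1 h.1
          have h4 := (hmono ⟨r', hr'⟩ ⟨s', hs1'⟩).1 h.2
          have h5 := (CData.beq_iff r r').1 h1
          subst h5
          have h6 := hs.two ⟨r, hr⟩ ⟨s, hs1⟩ ⟨s', hs1'⟩ (hrngT ⟨r, hr⟩ ⟨s, hs1⟩ hrs)
            (hrngT ⟨r, hr⟩ ⟨s', hs1'⟩ hrs') h3 h4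
          exact (CData.beq_false_iff s s').1 h2 (congrArg Fin.val h6)
    have t3 : (or2 (fun A B => or2 (fun A' B' => bif (bif Nat.beq A A' then Nat.beq B B' else true)
        then 0 else Nat.land (D.mono A B) (D.mono A' B')) D.chq) D.chq).testBit
        (senc cc D.k) = false := by
      rw [← Bool.not_eq_true, testBit_or2]
      rintro ⟨r, s, hrs, h⟩
      rw [testBit_or2] at h
      obtain ⟨r', s', hrs', h⟩ := h
      obtain ⟨hr, hs1, -⟩ := W.chq r s hrs
      obtain ⟨hr', hs1', -⟩ := W.chq r' s' hrs'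
      cases h1 : Nat.beq r r' with
      | false =>
        rw [h1, cond_false, cond_true, Nat.zero_testBit] at h
        exact absurd h (by decide)
      | true =>
        cases h2 : Nat.beq s s' with
        | true =>
          rw [h1, h2, cond_true, cond_true, Nat.zero_testBit] at h
          exact absurd h (by decide)
        | false =>
          rw [h1, h2, cond_true, cond_false] at h
          change (D.mono r s &&& D.mono r' s').testBit _ = true at h
          rw [Nat.testBit_and, Bool.and_eq_true] at h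
          have h3 := (hmonoA ⟨r, hr⟩ ⟨s, hs1⟩).1 h.1
          have h4 := (hmonoA ⟨r', hr'⟩ ⟨s', hs1'⟩).1 h.2
          have h5 := (CData.beq_iff _ _).1 h1
          subst h5
          have h6 := hs.chd2 ⟨r, hr⟩ ⟨s, hs1⟩ ⟨s', hs1'⟩
            (hchdT ⟨r, hr⟩ ⟨s, hs1⟩ hrs) (hchdT ⟨r, hr⟩ ⟨s', hs1'⟩ hrs') h3 h4
          exact (CData.beq_false_iff _ _).1 h2 (congrArg Fin.val h6)
    have t4 : (or2 (fun A B => or2 (fun r' s' => bif Nat.beq A (D.q r') then
        Nat.land (D.mono A B) (D.mono (D.q r') (D.q s')) else 0) D.rng) D.chq).testBit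
        (senc cc D.k) = false := by
      rw [← Bool.not_eq_true, testBit_or2]
      rintro ⟨r, s, hrs, h⟩
      rw [testBit_or2] at h
      obtain ⟨r', s', hrs', h⟩ := h
      obtain ⟨hr, hs1, -⟩ := W.chq r s hrs
      obtain ⟨hr', hs1', -⟩ := W.rng r' s' hrs'
      cases h1 : Nat.beq r (D.q r') with
      | false =>
        rw [h1, cond_false, Nat.zero_testBit] at h
        exact absurd h (by decide)
      | true =>
        rw [h1, cond_true] at h
        change (D.mono r s &&& D.mono (D.q r') (D.q s')).testBit _ = true at h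
        rw [Nat.testBit_and, Bool.and_eq_true] at h
        have h3 := (hmonoA ⟨r, hr⟩ ⟨s, hs1⟩).1 h.1
        have h4 := (hmono ⟨r', hr'⟩ ⟨s', hs1'⟩).1 h.2
        have h5 := (CData.beq_iff _ _).1 h1
        have h6 := (hs.chd ⟨r, hr⟩ ⟨s, hs1⟩ (hchdT ⟨r, hr⟩ ⟨s, hs1⟩ hrs) h3).1 ⟨r', hr'⟩
          (by rw [Fin.ext_iff, hclv]; exact h5.symm)
        have h7 := hs.rng ⟨r', hr'⟩ ⟨s', hs1'⟩ (hrngT ⟨r', hr'⟩ ⟨s', hs1'⟩ hrs') h4
        rw [h6] at h7
        exact absurd h7 (by decide)
    rw [t1, t2, t3, t4]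
    rfl
  -- the search
  have hdfs := CData.allL_iff _ _ hall p hp
  rw [CData.beq_iff, fce_eq] at hdfs
  have h0 : (dfs (D.exc p) D.lev 0 0 0 (D.start p)).testBit (senc cc D.k) = false := by
    rw [hdfs, Nat.zero_testBit]
  obtain ⟨-, hgood⟩ := dfs_sound (D.exc p) (senc cc D.k) D.lev 0 0 0 _ hstart h0
  obtain ⟨E, -, hE⟩ := GoodFrom.exists (D.exc p) (senc cc D.k) D.lev 0 0 (by simp) hgood
  have hlev : ∀ n, n < D.a →
      (D.exc p (CData.levAt D.lev n) (E % 4 ^ n) (sdg E n)).testBit (senc cc D.k) = false := by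
    intro n hn
    have hn' : n < D.lev.length := by
      rw [W.len]
      exact hn
    have h1 := hE n hn'
    rw [zero_add] at h1
    rw [CData.levAt_eq _ _ hn']
    exact h1
  have parts : ∀ n, n < D.a →
      ((∀ x y, x < n → y < n → (x, y) ∈ (CData.levAt D.lev n).A →
        ¬ (sdg E x = sdg E n ∧ sdg E y = sdg E n)) ∧
      (∀ x (r : Fin D.L), x < n → (x, D.q r) ∈ (CData.levAt D.lev n).B → sdg E x = sdg E n →
        (c (D.conf.cls r)).val ≠ sdg E n)) ∧
      ((∀ r s : Fin D.L, CData.memS (D.q r) (D.q s) (CData.levAt D.lev n).C = true →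
        ¬ ((c (D.conf.cls r)).val = sdg E n ∧ (c (D.conf.cls s)).val = sdg E n)) ∧
      (∀ r : Fin D.L, r.val ∈ (CData.levAt D.lev n).E → m r = true →
        (c (D.conf.cls r)).val ≠ sdg E n)) := by
    intro n hn
    have h1 := hlev n hn
    change (((bif CData.anyA (E % 4 ^ n) (sdg E n) (CData.levAt D.lev n).A then
      fullSet D.k else 0) |||
      (or2 (fun j c => bif Nat.beq (sdg (E % 4 ^ n) j) (sdg E n) then msk D.k c (sdg E n) else 0)
        (CData.levAt D.lev n).B)) |||
      ((or2 (fun c c' => Nat.land (msk D.k c (sdg E n)) (msk D.k c' (sdg E n)))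
        (CData.levAt D.lev n).C) |||
      (or1 (fun r => D.lock p r (sdg E n)) (CData.levAt D.lev n).E))).testBit
        (senc cc D.k) = false at h1
    rw [Nat.testBit_or, Nat.testBit_or, Nat.testBit_or, Bool.or_eq_false_iff,
      Bool.or_eq_false_iff, Bool.or_eq_false_iff] at h1
    obtain ⟨⟨hA, hB⟩, hC, hL⟩ := h1
    refine ⟨⟨?_, ?_⟩, ?_, ?_⟩
    · intro x y hx hy hxy
      cases h2 : CData.anyA (E % 4 ^ n) (sdg E n) (CData.levAt D.lev n).A with
      | true =>
        rw [h2, cond_true, hfull] at hA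
        exact absurd hA (by decide)
      | false =>
        have h3 := CData.anyA_false _ _ _ h2 x y hxy
        rw [sdg_mod E n x hx, sdg_mod E n y hy] at h3
        exact h3
    · intro x r hx hxr hd hcr
      rw [← Bool.not_eq_true, testBit_or2] at hB
      refine hB ⟨x, D.q r, hxr, ?_⟩
      rw [sdg_mod E n x hx, (CData.beq_iff _ _).2 hd, cond_true]
      exact (hmsk r _ (CData.sdg_lt E n)).2 hcr
    · intro r s hrs hcr
      rw [← Bool.not_eq_true, testBit_or2] at hC
      have h3 : ∀ r s : Fin D.L, (D.q r, D.q s) ∈ (CData.levAt D.lev n).C →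
          ¬ ((c (D.conf.cls r)).val = sdg E n ∧ (c (D.conf.cls s)).val = sdg E n) := by
        intro r s hrs hcr
        refine hC ⟨D.q r, D.q s, hrs, ?_⟩
        change (msk D.k (D.q r) (sdg E n) &&& msk D.k (D.q s) (sdg E n)).testBit (senc cc D.k) = true
        rw [Nat.testBit_and, Bool.and_eq_true]
        exact ⟨(hmsk r _ (CData.sdg_lt E n)).2 hcr.1, (hmsk s _ (CData.sdg_lt E n)).2 hcr.2⟩
      rw [CData.memS, Bool.or_eq_true, mem2_iff, mem2_iff] at hrs
      rcases hrs with hrs | hrs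
      · exact h3 r s hrs hcr
      · exact h3 s r hrs ⟨hcr.2, hcr.1⟩
    · intro r hr hmr hcr
      rw [← Bool.not_eq_true, testBit_or1] at hL
      refine hL ⟨r.val, hr, ?_⟩
      rw [lock, (mem1_iff _ _).2 (hpm' r hmr), cond_true]
      change (msk D.k (D.q r) (sdg E n) &&& (fullSet D.k ^^^ or2 (fun A B =>
        bif Nat.beq A (D.q r) then D.mono A B else 0) D.chq)).testBit (senc cc D.k) = true
      rw [Nat.testBit_and, Nat.testBit_xor, hfull, (hmsk r _ (CData.sdg_lt E n)).2 hcr]
      have h4 : (or2 (fun A B => bif Nat.beq A (D.q r) then D.mono A B else 0)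
          D.chq).testBit (senc cc D.k) = false := by
        rw [← Bool.not_eq_true, testBit_or2]
        rintro ⟨s, s', hss, h⟩
        obtain ⟨hs1, hs2, -⟩ := W.chq s s' hss
        cases h5 : Nat.beq s (D.q r) with
        | false =>
          rw [h5, cond_false, Nat.zero_testBit] at h
          exact absurd h (by decide)
        | true =>
          rw [h5, cond_true] at h
          have h6 := (hmonoA ⟨s, hs1⟩ ⟨s', hs2⟩).1 h
          have h7 := (hs.chd ⟨s, hs1⟩ ⟨s', hs2⟩ (hchdT ⟨s, hs1⟩ ⟨s', hs2⟩ hss) h6).1 r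
            (by rw [Fin.ext_iff, hclv]; exact ((CData.beq_iff _ _).1 h5).symm)
          rw [hmr] at h7
          exact absurd h7 (by decide)
      rw [h4]
      rfl
  -- the extension
  have memS_comm : ∀ x y l, CData.memS x y l = CData.memS y x l := by
    intro x y l
    rw [CData.memS, CData.memS, Bool.or_comm]
  have hAA : ∀ n x y, n < D.a → x < n → y < n → CData.memS x y (CData.levAt D.lev n).A = true →
      ¬ (sdg E x = sdg E n ∧ sdg E y = sdg E n) := by
    intro n x y hn hx hy h
    rw [CData.memS, Bool.or_eq_true, mem2_iff, mem2_iff] at h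
    rcases h with h | h
    · exact (parts n hn).1.1 x y hx hy h
    · intro h'
      exact (parts n hn).1.1 y x hy hx h ⟨h'.2, h'.1⟩
  -- two inner neighbours of an inner vertex
  have hII : ∀ i j j', (i, j) ∈ D.inn → (i, j') ∈ D.inn → j < j' →
      ¬ (sdg E j = sdg E i ∧ sdg E j' = sdg E i) := by
    intro i j j' hij hij' hjj' ⟨e1, e2⟩
    obtain ⟨hia, hja, -, hne⟩ := W.inn i j hij
    obtain ⟨-, hja', -, hne'⟩ := W.inn i j' hij'
    obtain ⟨h1, h2⟩ := W.hA i j j' hij hij' hjj'
    by_cases h3 : i < j'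
    · exact hAA j' i j hja' h3 hjj' (h1 h3) ⟨e2.symm, e1.trans e2.symm⟩
    · exact hAA i j j' hia (by omega) (by omega) (h2 h3) ⟨e1, e2⟩
  have hIR : ∀ (i j : ℕ) (r : Fin D.L), (i, j) ∈ D.inn → (i, r.val) ∈ D.mix →
      ¬ (sdg E j = sdg E i ∧ (c (D.conf.cls r)).val = sdg E i) := by
    intro i j r hij hir ⟨e1, e2⟩
    obtain ⟨hia, hja, -, hne⟩ := W.inn i j hij
    obtain ⟨h1, h2⟩ := W.hB i j r hij hir
    by_cases h3 : j < i
    · exact (parts i hia).1.2 j r h3 (h1 h3) e1 e2
    · exact (parts j hja).1.2 i r (by omega) (h2 h3) e1.symm (e2.trans e1.symm)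
  have hRR : ∀ (i : ℕ) (r s : Fin D.L), (i, r.val) ∈ D.mix → (i, s.val) ∈ D.mix → r < s →
      ¬ ((c (D.conf.cls r)).val = sdg E i ∧ (c (D.conf.cls s)).val = sdg E i) := by
    intro i r s hir his hrs
    obtain ⟨hia, -, -⟩ := W.mix i r hir
    exact (parts i hia).2.1 r s (W.hC i r s hir his hrs)
  have hRI : ∀ (i i' : ℕ) (r : Fin D.L), (i, r.val) ∈ D.mix → (i', r.val) ∈ D.mix → i < i' →
      ¬ (sdg E i = (c (D.conf.cls r)).val ∧ sdg E i' = (c (D.conf.cls r)).val) := by
    intro i i' r hir hir' hii' ⟨e1, e2⟩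
    obtain ⟨hia, -, -⟩ := W.mix i' r hir'
    exact (parts i' hia).1.2 i r hii' (W.hB' i i' r hir hir' hii') (e1.trans e2.symm) e2.symm
  refine ⟨fun i => ⟨sdg E i, CData.sdg_lt E i⟩, ?_, ?_, ?_⟩
  · intro i
    refine ncard_add_ncard_le_one _ _ ?_ ?_ ?_
    · rintro x ⟨hx, ex⟩ y ⟨hy, ey⟩
      rw [Fin.mk.injEq] at ex ey
      have hx' := (mem2_iff _ _ _).1 hx
      have hy' := (mem2_iff _ _ _).1 hy
      rcases lt_trichotomy x y with h | h | h
      · exact absurd ⟨ex, ey⟩ (hII i x y hx' hy' h)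
      · exact h
      · exact absurd ⟨ey, ex⟩ (hII i y x hy' hx' h)
    · rintro x ⟨hx, ex⟩ y ⟨hy, ey⟩
      rw [Fin.ext_iff] at ex ey
      have hx' := (mem2_iff _ _ _).1 hx
      have hy' := (mem2_iff _ _ _).1 hy
      rcases lt_trichotomy x y with h | h | h
      · exact absurd ⟨ex, ey⟩ (hRR i x y hx' hy' h)
      · exact h
      · exact absurd ⟨ey, ex⟩ (hRR i y x hy' hx' h)
    · rintro x ⟨hx, ex⟩ y ⟨hy, ey⟩
      rw [Fin.mk.injEq] at ex
      rw [Fin.ext_iff] at ey
      exact hIR i x y ((mem2_iff _ _ _).1 hx) ((mem2_iff _ _ _).1 hy) ⟨ex, ey⟩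
  · intro r
    rw [Set.ncard_le_one (Set.toFinite _)]
    rintro x ⟨hx, ex⟩ y ⟨hy, ey⟩
    rw [Fin.ext_iff] at ex ey
    have hx' := (mem2_iff _ _ _).1 hx
    have hy' := (mem2_iff _ _ _).1 hy
    rcases lt_trichotomy x y with h | h | h
    · exact absurd ⟨ex, ey⟩ (hRI x y r hx' hy' h)
    · exact h
    · exact absurd ⟨ey, ex⟩ (hRI y x r hy' hx' h)
  · intro r i hmr hir hd
    rw [Fin.ext_iff] at hd
    have hir' := (mem2_iff _ _ _).1 hir
    obtain ⟨-, -, h1⟩ := W.mix i r hir'
    exact (parts i i.2).2.2 r h1 hmr hd.symm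

end KData

end Pool.Agent.W986
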