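import Mathlib

/-!
# Sequences of contractions given by finite data: the Boolean part

This file does not need the theory of triangulations, see `SubPlan` for the meaning.
-/

set_option autoImplicit false

namespace Pool.Agent.W986

/-- A plan of contractions. -/
structure Plan where
  /-- the number of inner labels -/
  a : ℕ
  /-- the number of labels -/
  N : ℕ
  /-- known adjacencies -/
  nb : List ℕ
  /-- known triangles -/
  tri : List (ℕ × ℕ × ℕ)
  /-- the representative of the class of every label -/
  fin : List ℕ
  /-- the chords: pairs of classes without an edge outside the inner vertices -/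
  chd : List (ℕ × ℕ)
  /-- the contractions: the class of the second label is added to the class of the first -/
  steps : List (ℕ × ℕ)

namespace Plan

/-- The masks of the labels `i` with `lo ≤ i < hi` in the class `x`. -/
def nbm (m σ : List ℕ) (x lo hi : ℕ) : ℕ :=
  (List.range hi).foldl (fun acc l =>
    bif Nat.ble lo l && Nat.beq (σ.getD l 0) x then acc ||| m.getD l 0 else acc) 0

/-- Some known triangle has the classes `x`, `y`, `z`. -/
def triOK (P : Plan) (σ : List ℕ) (x y z : ℕ) : Bool :=
  P.tri.any fun t =>
    let i := σ.getD t.1 0
    let j := σ.getD t.2.1 0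
    let k := σ.getD t.2.2 0
    (Nat.beq i x && Nat.beq j y && Nat.beq k z) || (Nat.beq i x && Nat.beq k y && Nat.beq j z) ||
    (Nat.beq j x && Nat.beq i y && Nat.beq k z) || (Nat.beq j x && Nat.beq k y && Nat.beq i z) ||
    (Nat.beq k x && Nat.beq i y && Nat.beq j z) || (Nat.beq k x && Nat.beq j y && Nat.beq i z)

/-- The check of one contraction. -/
def stepOK (P : Plan) (σ : List ℕ) (x y : ℕ) : Bool :=
  let X := nbm P.nb σ x 0 P.N
  let Y := nbm P.nb σ y 0 P.N
  !Nat.beq x y && Nat.blt x P.N && Nat.blt y P.N && Nat.beq (P.fin.getD x 0) (P.fin.getD y 0) &&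
  ((List.range P.N).any fun l => Nat.beq (σ.getD l 0) y && X.testBit l) &&
  ((List.range P.N).all fun l =>
    Nat.beq (σ.getD l 0) x || Nat.beq (σ.getD l 0) y || !X.testBit l ||
    ((List.range P.N).all fun l' =>
      !Nat.beq (σ.getD l' 0) (σ.getD l 0) || !Y.testBit l' ||
      P.triOK σ x y (σ.getD l 0)))

/-- Two classes which are adjacent through an inner vertex are joined by a known edge between
labels which are not inner or by a chord. -/
def joinOK (P : Plan) : Bool :=
  (List.range P.N).all fun i =>
    let A := P.fin.getD i 0
    let R := nbm P.nb P.fin A P.a P.N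
    (List.range P.N).all fun j =>
      let B := P.fin.getD j 0
      !(P.nb.getD i 0).testBit j || (Nat.ble P.a i && Nat.ble P.a j) || Nat.beq A B ||
      (P.chd.any fun c => (Nat.beq c.1 A && Nat.beq c.2 B) || (Nat.beq c.1 B && Nat.beq c.2 A)) ||
      ((List.range P.N).any fun s => Nat.ble P.a s && Nat.beq (P.fin.getD s 0) B && R.testBit s)

/-- The check of the rest of the contractions. -/
def run (P : Plan) : List (ℕ × ℕ) → List ℕ → Bool
  | [], σ => (List.range P.N).all fun l => Nat.beq (σ.getD l 0) (P.fin.getD l 0)
  | s :: st, σ => P.stepOK σ s.1 s.2 &&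
      P.run st (σ.map fun c => bif Nat.beq c s.2 then s.1 else c)

/-- The check of the plan. -/
def check (P : Plan) : Bool :=
  Nat.ble P.a P.N && P.joinOK && P.run P.steps (List.range P.N)

/-- There are at least four classes, and every label has a known neighbour. -/
def bigOK (P : Plan) : Bool :=
  Nat.ble (P.steps.length + 4) P.N &&
  ((List.range P.N).all fun i => (List.range P.N).any fun j => (P.nb.getD i 0).testBit j)

end Plan

end Pool.Agent.W986
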