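import Pool.Agent.W986.SubCtr
import Pool.Agent.W986.SubPlanB

/-!
# Sequences of contractions given by finite data

The vertices `e 0, ..., e (N - 1)` of a triangulation are labelled; the labels below `a` are inner:
all their neighbours have labels. `nb` is a list of bit masks: if the bit `j` of `nb[i]` is set,
`e i` and `e j` are adjacent, and the converse holds if one of the labels is inner. The plan
contracts edges; a Boolean check shows that all the graphs are triangulations.
-/

set_option autoImplicit false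

open Finset

namespace Pool.Agent.W986

open Pool.Agent.DC76

namespace Plan

/-- The labelled vertices of a triangulation fit the plan. -/
structure Fits (P : Plan) {V : Type} (G : SimpleGraph V) (T : V → V → V → Prop) (e : ℕ → V) :
    Prop where
  inj : ∀ i j, i < P.N → j < P.N → e i = e j → i = j
  nb : ∀ i j, i < P.N → j < P.N → (P.nb.getD i 0).testBit j = true → G.Adj (e i) (e j)
  nbi : ∀ i j, i < P.N → j < P.N → G.Adj (e i) (e j) → i < P.a ∨ j < P.a →
    (P.nb.getD i 0).testBit j = true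
  /-- the neighbours of the inner vertices have labels -/
  inner : ∀ i v, i < P.a → G.Adj (e i) v → ∃ j, j < P.N ∧ e j = v
  tri : ∀ t ∈ P.tri, t.1 < P.N ∧ t.2.1 < P.N ∧ t.2.2 < P.N ∧ T (e t.1) (e t.2.1) (e t.2.2)
  /-- two vertices of a class which are not inner are not adjacent -/
  na : ∀ r s, P.a ≤ r → r < P.N → P.a ≤ s → s < P.N → P.fin.getD r 0 = P.fin.getD s 0 →
    ¬ G.Adj (e r) (e s)
  /-- a common neighbour of two vertices of a class which are not inner is inner -/
  nc : ∀ r s v, P.a ≤ r → r < P.N → P.a ≤ s → s < P.N → r ≠ s →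
    P.fin.getD r 0 = P.fin.getD s 0 → G.Adj v (e r) → G.Adj v (e s) → ∃ i, i < P.a ∧ e i = v
  /-- two classes are joined by at most one edge between vertices which are not inner -/
  nw : ∀ r r' s s', P.a ≤ r → r < P.N → P.a ≤ r' → r' < P.N → P.a ≤ s → s < P.N → P.a ≤ s' →
    s' < P.N → P.fin.getD r 0 = P.fin.getD r' 0 → P.fin.getD s 0 = P.fin.getD s' 0 →
    G.Adj (e r) (e s) → G.Adj (e r') (e s') → r = r' ∧ s = s'
  /-- classes joined by a chord are not joined by an edge between vertices which are not inner -/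
  nh : ∀ c ∈ P.chd, ∀ r s, P.a ≤ r → r < P.N → P.a ≤ s → s < P.N → P.fin.getD r 0 = c.1 →
    P.fin.getD s 0 = c.2 → ¬ G.Adj (e r) (e s)

end Plan

section mp

variable {V : Type}

open Classical in
/-- The map of the vertices given by a map of the labels. -/
noncomputable def mp (e : ℕ → V) (N : ℕ) (σ : ℕ → ℕ) (v : V) : V :=
  if h : ∃ i, i < N ∧ e i = v then e (σ (Classical.choose h)) else v

theorem mp_lab {e : ℕ → V} {N : ℕ} {σ : ℕ → ℕ} (he : ∀ i j, i < N → j < N → e i = e j → i = j)
    {i : ℕ} (hi : i < N) : mp e N σ (e i) = e (σ i) := by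
  unfold mp
  have h : ∃ j, j < N ∧ e j = e i := ⟨i, hi, rfl⟩
  rw [dif_pos h]
  have h1 := Classical.choose_spec h
  rw [he _ _ h1.1 hi h1.2]

theorem mp_out {e : ℕ → V} {N : ℕ} {σ : ℕ → ℕ} {v : V} (h : ¬ ∃ i, i < N ∧ e i = v) :
    mp e N σ v = v := by
  unfold mp
  rw [dif_neg h]

theorem mp_congr {e : ℕ → V} {N : ℕ} {σ τ : ℕ → ℕ}
    (he : ∀ i j, i < N → j < N → e i = e j → i = j) (h : ∀ i, i < N → σ i = τ i) :
    mp e N σ = mp e N τ := by
  funext v
  by_cases hv : ∃ i, i < N ∧ e i = v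
  · obtain ⟨i, hi, rfl⟩ := hv
    rw [mp_lab he hi, mp_lab he hi, h i hi]
  · rw [mp_out hv, mp_out hv]

theorem mp_id {e : ℕ → V} {N : ℕ} {σ : ℕ → ℕ} (he : ∀ i j, i < N → j < N → e i = e j → i = j)
    (h : ∀ i, i < N → σ i = i) (v : V) : mp e N σ v = v := by
  by_cases hv : ∃ i, i < N ∧ e i = v
  · obtain ⟨i, hi, rfl⟩ := hv
    rw [mp_lab he hi, h i hi]
  · rw [mp_out hv]

/-- The vertices which are mapped to a label. -/
theorem mp_eq_lab {e : ℕ → V} {N : ℕ} {σ : ℕ → ℕ} (he : ∀ i j, i < N → j < N → e i = e j → i = j)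
    (hσ : ∀ i, i < N → σ i < N) {v : V} {j : ℕ} (hj : j < N) (h : mp e N σ v = e j) :
    ∃ i, i < N ∧ e i = v ∧ σ i = j := by
  by_cases hv : ∃ i, i < N ∧ e i = v
  · obtain ⟨i, hi, rfl⟩ := hv
    rw [mp_lab he hi] at h
    exact ⟨i, hi, rfl, he _ _ (hσ i hi) hj h⟩
  · rw [mp_out hv] at h
    exact absurd ⟨j, hj, h.symm⟩ hv

variable [DecidableEq V]

theorem mv_mp {e : ℕ → V} {N : ℕ} {σ : ℕ → ℕ} (he : ∀ i j, i < N → j < N → e i = e j → i = j)
    (hσ : ∀ i, i < N → σ i < N) {x y : ℕ} (hy : y < N) (v : V) :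
    mv (e x) (e y) (mp e N σ v) = mp e N (fun i => if σ i = y then x else σ i) v := by
  by_cases hv : ∃ i, i < N ∧ e i = v
  · obtain ⟨i, hi, rfl⟩ := hv
    rw [mp_lab he hi, mp_lab he hi]
    unfold mv
    by_cases h : σ i = y
    · rw [if_pos (by rw [h]), if_pos h]
    · rw [if_neg (fun h' => h (he _ _ (hσ i hi) hy h')), if_neg h]
  · rw [mp_out hv, mp_out hv]
    exact mv_ne (fun h => hv ⟨y, hy, h.symm⟩)

end mp

section quot

variable {V : Type} {G : SimpleGraph V} {T : V → V → V → Prop}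

theorem quot_quot (f g : V → V) : quot (quot G f) g = quot G (fun v => g (f v)) := by
  ext u v
  constructor
  · rintro ⟨h1, a, b, ha, hb, _, a', b', ha', hb', hab⟩
    exact ⟨h1, a', b', (congrArg g ha').trans ha, (congrArg g hb').trans hb, hab⟩
  · rintro ⟨h1, a, b, ha, hb, hab⟩
    refine ⟨h1, f a, f b, ha, hb, ?_, a, b, rfl, rfl, hab⟩
    intro h
    apply h1
    rw [← ha, ← hb]
    exact congrArg g h

theorem quotT_quotT (f g : V → V) :
    quotT (quotT T f) g = quotT T (fun v => g (f v)) := by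
  funext u v w
  apply propext
  constructor
  · rintro ⟨h1, h2, h3, a, b, c, ha, hb, hc, _, _, _, a', b', c', ha', hb', hc', hT⟩
    exact ⟨h1, h2, h3, a', b', c', (congrArg g ha').trans ha, (congrArg g hb').trans hb,
      (congrArg g hc').trans hc, hT⟩
  · rintro ⟨h1, h2, h3, a, b, c, ha, hb, hc, hT⟩
    refine ⟨h1, h2, h3, f a, f b, f c, ha, hb, hc, ?_, ?_, ?_, a, b, c, rfl, rfl, rfl, hT⟩
    · intro h
      apply h1
      rw [← ha, ← hb]
      exact congrArg g h
    · intro h
      apply h2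
      rw [← hb, ← hc]
      exact congrArg g h
    · intro h
      apply h3
      rw [← hc, ← ha]
      exact congrArg g h

theorem quot_id : quot G (fun v => v) = G := by
  ext u v
  constructor
  · rintro ⟨_, a, b, rfl, rfl, h⟩
    exact h
  · intro h
    exact ⟨h.ne, u, v, rfl, rfl, h⟩

end quot

namespace Plan

theorem nbm_iff (m σ : List ℕ) (x lo hi j : ℕ) : (nbm m σ x lo hi).testBit j = true ↔
    ∃ l, lo ≤ l ∧ l < hi ∧ σ.getD l 0 = x ∧ (m.getD l 0).testBit j = true := by
  unfold nbm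
  induction hi with
  | zero =>
    simp
  | succ n ih =>
    rw [List.range_succ, List.foldl_append, List.foldl_cons, List.foldl_nil]
    by_cases hc : lo ≤ n ∧ σ.getD n 0 = x
    · have h1 : (Nat.ble lo n && Nat.beq (σ.getD n 0) x) = true := by
        rw [Bool.and_eq_true, Nat.ble_eq, Nat.beq_eq]
        exact hc
      rw [h1, cond_true, Nat.testBit_lor, Bool.or_eq_true, ih]
      constructor
      · rintro (⟨l, h2, h3, h4⟩ | h2)
        · exact ⟨l, h2, by omega, h4⟩
        · exact ⟨n, hc.1, by omega, hc.2, h2⟩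
      · rintro ⟨l, h2, h3, h4, h5⟩
        by_cases hl : l = n
        · rw [hl] at h5
          exact Or.inr h5
        · exact Or.inl ⟨l, h2, by omega, h4, h5⟩
    · have h1 : (Nat.ble lo n && Nat.beq (σ.getD n 0) x) = false := by
        rw [← Bool.not_eq_true, Bool.and_eq_true, Nat.ble_eq, Nat.beq_eq]
        exact hc
      rw [h1, cond_false, ih]
      constructor
      · rintro ⟨l, h2, h3, h4⟩
        exact ⟨l, h2, by omega, h4⟩
      · rintro ⟨l, h2, h3, h4, h5⟩
        refine ⟨l, h2, ?_, h4, h5⟩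
        by_contra hcon
        have hl : l = n := by omega
        rw [hl] at h2 h4
        exact hc ⟨h2, h4⟩

variable {V : Type} {G : SimpleGraph V} {T : V → V → V → Prop} {e : ℕ → V}

theorem Fits.triOK {P : Plan} (hf : P.Fits G T e) (hrot : ∀ x y z, T x y z → T y z x)
    (hswap : ∀ x y z, T x y z → T y x z) {σ : List ℕ} {x y z : ℕ} (hxy : e x ≠ e y)
    (hyz : e y ≠ e z) (hzx : e z ≠ e x) (h : P.triOK σ x y z = true) :
    quotT T (mp e P.N fun i => σ.getD i 0) (e x) (e y) (e z) := by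
  unfold Plan.triOK at h
  rw [List.any_eq_true] at h
  obtain ⟨t, ht, h⟩ := h
  obtain ⟨h1, h2, h3, hT⟩ := hf.tri t ht
  have key : ∀ i j k, i < P.N → j < P.N → k < P.N → T (e i) (e j) (e k) → σ.getD i 0 = x →
      σ.getD j 0 = y → σ.getD k 0 = z →
      quotT T (mp e P.N fun i => σ.getD i 0) (e x) (e y) (e z) := by
    intro i j k hi hj hk hT ei ej ek
    refine ⟨hxy, hyz, hzx, e i, e j, e k, ?_, ?_, ?_, hT⟩
    · rw [mp_lab hf.inj hi, ei]
    · rw [mp_lab hf.inj hj, ej]
    · rw [mp_lab hf.inj hk, ek]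
  have t1 := hrot _ _ _ hT
  have t2 := hrot _ _ _ t1
  have t3 := hswap _ _ _ hT
  have t4 := hswap _ _ _ t1
  have t5 := hswap _ _ _ t2
  simp only [Bool.or_eq_true, Bool.and_eq_true, Nat.beq_eq] at h
  rcases h with ((((h | h) | h) | h) | h) | h
  · exact key _ _ _ h1 h2 h3 hT h.1.1 h.1.2 h.2
  · exact key _ _ _ h1 h3 h2 t5 h.1.1 h.1.2 h.2
  · exact key _ _ _ h2 h1 h3 t3 h.1.1 h.1.2 h.2
  · exact key _ _ _ h2 h3 h1 t1 h.1.1 h.1.2 h.2
  · exact key _ _ _ h3 h1 h2 t2 h.1.1 h.1.2 h.2
  · exact key _ _ _ h3 h2 h1 t4 h.1.1 h.1.2 h.2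

/-- An edge between classes which are adjacent through an inner vertex is known. -/
theorem Fits.known {P : Plan} (hf : P.Fits G T e) (hj : P.joinOK = true) {i j r s : ℕ}
    (hi : i < P.N) (hj' : j < P.N) (hr : r < P.N) (hs : s < P.N) (hij : G.Adj (e i) (e j))
    (hin : i < P.a ∨ j < P.a) (hne : P.fin.getD i 0 ≠ P.fin.getD j 0) (hra : P.a ≤ r)
    (hsa : P.a ≤ s) (hri : P.fin.getD r 0 = P.fin.getD i 0)
    (hsj : P.fin.getD s 0 = P.fin.getD j 0) (hrs : G.Adj (e r) (e s)) :
    (P.nb.getD r 0).testBit s = true := by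
  unfold joinOK at hj
  rw [List.all_eq_true] at hj
  have h1 := hj i (List.mem_range.2 hi)
  rw [List.all_eq_true] at h1
  have h2 := h1 j (List.mem_range.2 hj')
  simp only [Bool.or_eq_true, Bool.not_eq_true', Bool.and_eq_true, Nat.ble_eq, Nat.beq_eq] at h2
  rcases h2 with (((h2 | h2) | h2) | h2) | h2
  · rw [hf.nbi i j hi hj' hij hin] at h2
    exact Bool.noConfusion h2
  · omega
  · exact absurd h2 hne
  · rw [List.any_eq_true] at h2
    obtain ⟨c, hc, h3⟩ := h2
    simp only [Bool.or_eq_true, Bool.and_eq_true, Nat.beq_eq] at h3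
    exfalso
    rcases h3 with h3 | h3
    · exact hf.nh c hc r s hra hr hsa hs (hri.trans h3.1.symm) (hsj.trans h3.2.symm) hrs
    · exact hf.nh c hc s r hsa hs hra hr (hsj.trans h3.1.symm) (hri.trans h3.2.symm) hrs.symm
  · rw [List.any_eq_true] at h2
    obtain ⟨s', hs', h3⟩ := h2
    rw [List.mem_range] at hs'
    simp only [Bool.and_eq_true, Nat.beq_eq, Nat.ble_eq, nbm_iff] at h3
    obtain ⟨⟨h4, h5⟩, r', h6, h7, h8, h9⟩ := h3
    have h10 := hf.nw r r' s s' hra hr h6 h7 hsa hs h4 hs' (hri.trans h8.symm)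
      (hsj.trans h5.symm) hrs (hf.nb r' s' h7 hs' h9)
    rw [h10.1, h10.2]
    exact h9

/-- The conditions for the contraction. -/
theorem Fits.step {P : Plan} (hf : P.Fits G T e) (hrot : ∀ x y z, T x y z → T y z x)
    (hswap : ∀ x y z, T x y z → T y x z) (hj : P.joinOK = true) (haN : P.a ≤ P.N) {σ : List ℕ}
    (hlt : ∀ i, i < P.N → σ.getD i 0 < P.N)
    (hfin : ∀ i, i < P.N → P.fin.getD (σ.getD i 0) 0 = P.fin.getD i 0) {x y : ℕ}
    (h : P.stepOK σ x y = true) :
    x < P.N ∧ y < P.N ∧ P.fin.getD x 0 = P.fin.getD y 0 ∧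
    (quot G (mp e P.N fun i => σ.getD i 0)).Adj (e x) (e y) ∧
    ∀ z, (quot G (mp e P.N fun i => σ.getD i 0)).Adj (e x) z →
      (quot G (mp e P.N fun i => σ.getD i 0)).Adj (e y) z →
      quotT T (mp e P.N fun i => σ.getD i 0) (e x) (e y) z := by
  unfold stepOK at h
  simp only [Bool.and_eq_true, Bool.not_eq_true'] at h
  obtain ⟨⟨⟨⟨⟨h1, h2⟩, h3⟩, h4⟩, h5⟩, h6⟩ := h
  rw [Nat.blt_eq] at h2 h3
  rw [Nat.beq_eq] at h4
  have hxy : x ≠ y := fun h => by
    rw [h, Nat.beq_refl] at h1
    exact Bool.noConfusion h1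
  have hexy : e x ≠ e y := fun h => hxy (hf.inj _ _ h2 h3 h)
  rw [List.any_eq_true] at h5
  rw [List.all_eq_true] at h6
  refine ⟨h2, h3, h4, ?_, ?_⟩
  · obtain ⟨l, hl, h5⟩ := h5
    rw [List.mem_range] at hl
    rw [Bool.and_eq_true, Nat.beq_eq, nbm_iff] at h5
    obtain ⟨h7, l', _, hl', h8, h9⟩ := h5
    refine ⟨hexy, e l', e l, ?_, ?_, hf.nb _ _ hl' hl h9⟩
    · rw [mp_lab hf.inj hl', h8]
    · rw [mp_lab hf.inj hl, h7]
  · rintro z ⟨hxz, a1, b1, ha1, hb1, hab⟩ ⟨hyz, c1, d1, hc1, hd1, hcd⟩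
    obtain ⟨l1, hl1, rfl, hl1x⟩ := mp_eq_lab hf.inj hlt h2 ha1
    obtain ⟨l2, hl2, rfl, hl2y⟩ := mp_eq_lab hf.inj hlt h3 hc1
    have hfl : P.fin.getD l1 0 = P.fin.getD l2 0 := by
      rw [← hfin l1 hl1, ← hfin l2 hl2]
      rw [hl1x, hl2y, h4]
    have hne : l1 ≠ l2 := by
      rintro rfl
      exact hxy (hl1x.symm.trans hl2y)
    by_cases hz : ∃ i, i < P.N ∧ e i = z
    · obtain ⟨l3, hl3, rfl⟩ := hz
      obtain ⟨l4, hl4, rfl, hl4z⟩ := mp_eq_lab hf.inj hlt hl3 hb1
      obtain ⟨l5, hl5, rfl, hl5z⟩ := mp_eq_lab hf.inj hlt hl3 hd1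
      have hfz : P.fin.getD l4 0 = P.fin.getD l5 0 := by
        rw [← hfin l4 hl4, ← hfin l5 hl5, hl4z, hl5z]
      -- both edges are known
      have kn : ∀ p q u v, p < P.N → q < P.N → u < P.N → v < P.N → p ≠ u →
          P.fin.getD p 0 = P.fin.getD u 0 → P.fin.getD q 0 = P.fin.getD v 0 →
          G.Adj (e p) (e q) → G.Adj (e u) (e v) → (P.nb.getD p 0).testBit q = true := by
        intro p q u v hp hq hu hv hpu hpu' hqv hpq huv
        by_cases hp1 : p < P.a ∨ q < P.a
        · exact hf.nbi _ _ hp hq hpq hp1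
        · push Not at hp1
          by_cases hu1 : u < P.a ∨ v < P.a
          · by_cases hc : P.fin.getD u 0 = P.fin.getD v 0
            · exact absurd hpq (hf.na p q hp1.1 hp hp1.2 hq (by rw [hpu', hc, hqv]))
            · exact hf.known hj hu hv hp hq huv hu1 hc hp1.1 hp1.2 hpu' hqv hpq
          · push Not at hu1
            exact absurd (hf.nw p u q v hp1.1 hp hu1.1 hu hp1.2 hq hu1.2 hv hpu' hqv hpq huv).1 hpu
      have k1 := kn l1 l4 l2 l5 hl1 hl4 hl2 hl5 hne hfl hfz hab hcd
      have k2 := kn l2 l5 l1 l4 hl2 hl5 hl1 hl4 hne.symm hfl.symm hfz.symm hcd hab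
      have h7 := h6 l4 (List.mem_range.2 hl4)
      simp only [Bool.or_eq_true, Bool.not_eq_true', Nat.beq_eq] at h7
      rcases h7 with ((h7 | h7) | h7) | h7
      · exact absurd (by rw [← hl4z, h7]) hxz
      · exact absurd (by rw [← hl4z, h7]) hyz
      · exfalso
        rw [← Bool.not_eq_true] at h7
        exact h7 ((nbm_iff _ _ _ _ _ _).2 ⟨l1, Nat.zero_le _, hl1, hl1x, k1⟩)
      · rw [List.all_eq_true] at h7
        have h8 := h7 l5 (List.mem_range.2 hl5)
        simp only [Bool.or_eq_true, Bool.not_eq_true'] at h8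
        rcases h8 with (h8 | h8) | h8
        · exfalso
          rw [hl4z, hl5z, Nat.beq_refl] at h8
          exact Bool.noConfusion h8
        · exfalso
          rw [← Bool.not_eq_true] at h8
          exact h8 ((nbm_iff _ _ _ _ _ _).2 ⟨l2, Nat.zero_le _, hl2, hl2y, k2⟩)
        · rw [hl4z] at h8
          exact hf.triOK hrot hswap hexy hyz hxz.symm h8
    · exfalso
      have hb1' : b1 = z := by
        by_cases hb : ∃ i, i < P.N ∧ e i = b1
        · obtain ⟨i, hi, rfl⟩ := hb
          rw [mp_lab hf.inj hi] at hb1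
          exact absurd ⟨_, hlt i hi, hb1⟩ hz
        · rw [mp_out hb] at hb1
          exact hb1
      have hd1' : d1 = z := by
        by_cases hb : ∃ i, i < P.N ∧ e i = d1
        · obtain ⟨i, hi, rfl⟩ := hb
          rw [mp_lab hf.inj hi] at hd1
          exact absurd ⟨_, hlt i hi, hd1⟩ hz
        · rw [mp_out hb] at hd1
          exact hd1
      subst hb1'
      subst hd1'
      have hl1a : P.a ≤ l1 := by
        by_contra hcon
        exact hz (hf.inner l1 _ (by omega) hab)
      have hl2a : P.a ≤ l2 := by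
        by_contra hcon
        exact hz (hf.inner l2 _ (by omega) hcd)
      obtain ⟨i, hi, hi'⟩ := hf.nc l1 l2 d1 hl1a hl1 hl2a hl2 hne hfl hab.symm hcd.symm
      exact hz ⟨i, by omega, hi'⟩

end Plan

theorem TriLoc.deg_le {V : Type} [DecidableEq V] {G : SimpleGraph V} {T : V → V → V → Prop}
    {S : Finset V} (h : TriLoc S G T) {x : V} (hx : x ∈ S) :
    {y | G.Adj x y}.ncard + 1 ≤ S.card := by
  have h1 : {y | G.Adj x y}.ncard ≤ (S.erase x).card := by
    rw [← Set.ncard_coe_finset]
    refine Set.ncard_le_ncard ?_ (Finset.finite_toSet _)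
    intro y hy
    have hy' : G.Adj x y := hy
    rw [mem_coe, mem_erase]
    exact ⟨hy'.ne', h.mem _ _ hy'.symm⟩
  have h2 := card_erase_add_one hx
  omega

/-- A triangulation with `χ ≤ 1` has at least six vertices. -/
theorem TriOn.six_le {V : Type} [DecidableEq V] {G : SimpleGraph V} {T : V → V → V → Prop}
    {S : Finset V} {χ : ℤ} (h : TriOn χ S G T) (hχ : χ ≤ 1) {x : V} (hx : x ∈ S) :
    6 ≤ S.card := by
  obtain ⟨d, ν, hν⟩ := h.rotation x hx
  have hd := hν.three
  have h1 := h.toTriLoc.deg_le hx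
  rw [hν.card] at h1
  have h2 : (∑ x ∈ S, ({y | G.Adj x y}.ncard : ℤ)) ≤ ∑ x ∈ S, ((S.card : ℤ) - 1) := by
    refine Finset.sum_le_sum fun y hy => ?_
    have h3 := h.toTriLoc.deg_le hy
    omega
  rw [Finset.sum_const, nsmul_eq_mul] at h2
  have h3 := h.euler
  by_contra hcon
  have h4 : S.card = 4 ∨ S.card = 5 := by omega
  rcases h4 with h4 | h4
  · rw [h4] at h2 h3
    push_cast at h2 h3
    linarith
  · rw [h4] at h2 h3
    push_cast at h2 h3
    linarith

namespace Plan

variable {V : Type} {G : SimpleGraph V} {T : V → V → V → Prop} {e : ℕ → V}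

theorem getD_map_lt {f : ℕ → ℕ} {σ : List ℕ} {i : ℕ} (hi : i < σ.length) :
    (σ.map f).getD i 0 = f (σ.getD i 0) := by
  rw [List.getD_eq_getElem _ _ (by rw [List.length_map]; exact hi), List.getElem_map,
    List.getD_eq_getElem _ _ hi]

/-- The contractions. -/
theorem Fits.run [Finite V] [DecidableEq V] {P : Plan} (hf : P.Fits G T e)
    (hrot : ∀ x y z, T x y z → T y z x) (hswap : ∀ x y z, T x y z → T y x z)
    (hj : P.joinOK = true) (haN : P.a ≤ P.N) {χ : ℤ} : ∀ (st : List (ℕ × ℕ)) (σ : List ℕ) (S : Finset V),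
      TriOn χ S (quot G (mp e P.N fun i => σ.getD i 0)) (quotT T (mp e P.N fun i => σ.getD i 0)) →
      σ.length = P.N → (∀ i, i < P.N → σ.getD i 0 < P.N) →
      (∀ i, i < P.N → P.fin.getD (σ.getD i 0) 0 = P.fin.getD i 0) →
      (χ ≤ 1 ∨ st.length + 4 ≤ S.card) → P.run st σ = true →
      ∃ S' : Finset V, TriOn χ S' (quot G (mp e P.N fun i => P.fin.getD i 0))
        (quotT T (mp e P.N fun i => P.fin.getD i 0)) ∧ S'.card + st.length = S.card ∧
        ∀ v, mp e P.N (fun i => σ.getD i 0) v ∈ S → mp e P.N (fun i => P.fin.getD i 0) v ∈ S' := by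
  intro st
  induction st with
  | nil =>
    intro σ S h _ _ _ _ hrun
    unfold Plan.run at hrun
    rw [List.all_eq_true] at hrun
    have heq : ∀ i, i < P.N → σ.getD i 0 = P.fin.getD i 0 := by
      intro i hi
      have h1 := hrun i (List.mem_range.2 hi)
      rw [Nat.beq_eq] at h1
      exact h1
    rw [mp_congr hf.inj heq] at h
    exact ⟨S, h, rfl, fun v hv => by rw [mp_congr hf.inj heq] at hv; exact hv⟩
  | cons s st ih =>
    intro σ S h hlen hlt hfin hcard hrun
    unfold Plan.run at hrun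
    rw [Bool.and_eq_true] at hrun
    obtain ⟨hs, hrun⟩ := hrun
    obtain ⟨hx, hy, hxy, hadj, h2⟩ := hf.step hrot hswap hj haN hlt hfin hs
    have h5 : 5 ≤ S.card := by
      rcases hcard with hc | hc
      · have := h.six_le hc (h.mem _ _ hadj)
        omega
      · rw [List.length_cons] at hc
        omega
    have hc := h.contract h5 hadj h2
    rw [quot_quot, quotT_quotT] at hc
    set σ' := σ.map fun c => bif Nat.beq c s.2 then s.1 else c with hσ'
    have hget : ∀ i, i < P.N → σ'.getD i 0 = if σ.getD i 0 = s.2 then s.1 else σ.getD i 0 := by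
      intro i hi
      rw [hσ', getD_map_lt (by rw [hlen]; exact hi)]
      by_cases h3 : σ.getD i 0 = s.2
      · rw [if_pos h3, h3, Nat.beq_refl, cond_true]
      · rw [if_neg h3]
        have h4 : Nat.beq (σ.getD i 0) s.2 = false := by
          rw [← Bool.not_eq_true, Nat.beq_eq]
          exact h3
        rw [h4, cond_false]
    have hmap : (fun v => mv (e s.1) (e s.2) (mp e P.N (fun i => σ.getD i 0) v)) =
        mp e P.N fun i => σ'.getD i 0 := by
      funext v
      rw [mv_mp hf.inj hlt hy]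
      exact congrFun (mp_congr hf.inj fun i hi => (hget i hi).symm) v
    rw [hmap] at hc
    have hyS : e s.2 ∈ S := h.mem _ _ hadj.symm
    have hce : (S.erase (e s.2)).card + 1 = S.card := card_erase_add_one hyS
    obtain ⟨S', h3, h4, h6⟩ := ih σ' (S.erase (e s.2)) hc (by rw [hσ', List.length_map, hlen])
      (by
        intro i hi
        rw [hget i hi]
        split_ifs
        · exact hx
        · exact hlt i hi)
      (by
        intro i hi
        rw [hget i hi]
        split_ifs with h7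
        · rw [← hfin i hi, h7, hxy]
        · exact hfin i hi)
      (by
        rcases hcard with hc | hc
        · exact Or.inl hc
        · right
          rw [List.length_cons] at hc
          omega) hrun
    refine ⟨S', h3, by rw [List.length_cons]; omega, fun v hv => h6 v ?_⟩
    rw [← hmap, mem_erase]
    refine ⟨mv_ne_y ?_ _, ?_⟩
    · intro h7
      exact hadj.ne h7
    · change mv _ _ _ ∈ S
      unfold mv
      split_ifs
      · exact h.mem _ _ hadj
      · exact hv

/-- **The quotient of a triangulation by a plan.** -/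
theorem Fits.exists_quot [Finite V] [DecidableEq V] {P : Plan} (hP : P.check = true)
    (hf : P.Fits G T e) {χ : ℤ} {S : Finset V} (h : TriOn χ S G T)
    (hcard : χ ≤ 1 ∨ P.steps.length + 4 ≤ S.card) :
    ∃ S' : Finset V, TriOn χ S' (quot G (mp e P.N fun i => P.fin.getD i 0))
      (quotT T (mp e P.N fun i => P.fin.getD i 0)) ∧ S'.card + P.steps.length = S.card ∧
      ∀ v ∈ S, mp e P.N (fun i => P.fin.getD i 0) v ∈ S' := by
  unfold check at hP
  rw [Bool.and_eq_true, Bool.and_eq_true, Nat.ble_eq] at hP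
  have hr : ∀ i, i < P.N → (List.range P.N).getD i 0 = i := by
    intro i hi
    rw [List.getD_eq_getElem _ _ (by rw [List.length_range]; exact hi), List.getElem_range]
  have hid : (mp e P.N fun i => (List.range P.N).getD i 0) = fun v => v := by
    funext v
    exact mp_id hf.inj hr v
  obtain ⟨S', h1, h2, h3⟩ := hf.run h.rot h.swap hP.1.2 hP.1.1 P.steps (List.range P.N) S (by
      rw [hid, quot_id]
      have h4 : quotT T (fun v => v) = T := by
        funext u v w
        apply propext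
        constructor
        · rintro ⟨_, _, _, a, b, c, rfl, rfl, rfl, hT⟩
          exact hT
        · intro hT
          have e := h.toTriLoc.adj2 hT
          exact ⟨e.1.ne, e.2.1.ne, e.2.2.ne, u, v, w, rfl, rfl, rfl, hT⟩
      rw [h4]
      exact h)
    List.length_range (fun i hi => by rw [hr i hi]; exact hi) (fun i hi => by rw [hr i hi])
    hcard hP.2
  exact ⟨S', h1, h2, fun v hv => h3 v (by rw [hid]; exact hv)⟩

/-- **The quotient of a triangulation by a plan**, with the set of the vertices. -/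
theorem Fits.exists_quot_image [Finite V] [DecidableEq V] {P : Plan} (hP : P.check = true)
    (hf : P.Fits G T e) {χ : ℤ} {S : Finset V} (h : TriOn χ S G T)
    (hcard : χ ≤ 1 ∨ P.steps.length + 4 ≤ S.card) :
    TriOn χ (S.image (mp e P.N fun i => P.fin.getD i 0))
      (quot G (mp e P.N fun i => P.fin.getD i 0)) (quotT T (mp e P.N fun i => P.fin.getD i 0)) ∧
      (S.image (mp e P.N fun i => P.fin.getD i 0)).card + P.steps.length = S.card := by
  obtain ⟨S', h1, h2, h3⟩ := hf.exists_quot hP h hcard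
  have h4 : S.image (mp e P.N fun i => P.fin.getD i 0) = S' := by
    ext u
    rw [mem_image]
    constructor
    · rintro ⟨v, hv, rfl⟩
      exact h3 v hv
    · intro hu
      obtain ⟨d, ν, hν⟩ := h1.rotation u hu
      obtain ⟨_, a, b, ha, _, hab⟩ := hν.adj_nu 0
      exact ⟨a, h.mem _ _ hab, ha⟩
  rw [h4]
  exact ⟨h1, h2⟩

theorem Fits.card_le [DecidableEq V] {P : Plan} (hf : P.Fits G T e) {S : Finset V}
    (h : TriLoc S G T) (hP : P.bigOK = true) : P.steps.length + 4 ≤ S.card := by
  unfold bigOK at hP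
  rw [Bool.and_eq_true, Nat.ble_eq, List.all_eq_true] at hP
  obtain ⟨h1, h2⟩ := hP
  refine h1.trans ?_
  have h3 : (range P.N).card ≤ S.card := by
    refine card_le_card_of_injOn e ?_ ?_
    · intro i hi
      rw [mem_coe, mem_range] at hi
      have h4 := h2 i (List.mem_range.2 hi)
      rw [List.any_eq_true] at h4
      obtain ⟨j, hj, h5⟩ := h4
      exact h.mem _ _ (hf.nb i j hi (List.mem_range.1 hj) h5)
    · intro i hi j hj hij
      rw [mem_coe, mem_range] at hi hj
      exact hf.inj i j hi hj hij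
  rw [card_range] at h3
  exact h3

/-- **The quotient of a triangulation by a plan**, for every `χ`. -/
theorem Fits.exists_quot_any [Finite V] [DecidableEq V] {P : Plan} (hP : P.check = true)
    (hb : P.bigOK = true) (hf : P.Fits G T e) {χ : ℤ} {S : Finset V} (h : TriOn χ S G T) :
    TriOn χ (S.image (mp e P.N fun i => P.fin.getD i 0))
      (quot G (mp e P.N fun i => P.fin.getD i 0)) (quotT T (mp e P.N fun i => P.fin.getD i 0)) ∧
      (S.image (mp e P.N fun i => P.fin.getD i 0)).card + P.steps.length = S.card :=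
  hf.exists_quot_image hP h (Or.inr (hf.card_le h.toTriLoc hb))

end Plan

end Pool.Agent.W986
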