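import Pool.Agent.W986.SubIface
import Pool.Agent.W986.SubPlan
import Pool.Agent.W986.SubCheckK

/-!
# Substitution and merging: colourings with saturated vertices, and configurations with labels

`ConfK.liftM`: the lifting lemma for colourings `MDef G W M c` (the vertices in `W` are deleted, the
vertices in `M` have no mates).

`KData.lift`: the lifting lemma for a configuration which occurs in `G` under the labels
`0, .., a - 1` (inner vertices) and `a, .., a + L - 1` (ring vertices).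
-/

set_option autoImplicit false

open Finset

namespace Pool.Agent.W986

open Pool.Agent.DC76

theorem mdef_iff_defective {V : Type} [Finite V] (G : SimpleGraph V) (c : V → Fin 4) :
    MDef G ∅ ∅ c ↔ Defective G 1 c := by
  constructor
  · intro h v
    have h1 := (h v (by simp)).1
    refine (Set.ncard_le_ncard ?_ (Set.toFinite _)).trans h1
    rintro u ⟨h2, h3⟩
    exact ⟨by simp, h2, h3⟩
  · intro h v _
    refine ⟨(Set.ncard_le_ncard ?_ (Set.toFinite _)).trans (h v), fun hv => absurd hv (by simp)⟩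
    rintro u ⟨_, h2, h3⟩
    exact ⟨h2, h3⟩

theorem MDef.one {V : Type} [Finite V] {G : SimpleGraph V} {W M : Set V} {c : V → Fin 4}
    (h : MDef G W M c) {v x y : V} (hv : v ∉ W) (hx : x ∉ W) (hy : y ∉ W) (hvx : G.Adj v x)
    (hvy : G.Adj v y) (hcx : c x = c v) (hcy : c y = c v) : x = y := by
  have h1 := (h v hv).1
  rw [Set.ncard_le_one (Set.toFinite _)] at h1
  exact h1 x ⟨hx, hvx, hcx⟩ y ⟨hy, hvy, hcy⟩

section leaves

variable {V V' : Type} (P : Set V)

/-- The graph `G' - Z'` with a new vertex at the vertex `q p` for every `p` in `P`. -/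
def leafGraph (G' : SimpleGraph V') (Z' : Set V') (q : V → V') : SimpleGraph (V' ⊕ P) where
  Adj
    | Sum.inl u, Sum.inl v => G'.Adj u v ∧ u ∉ Z' ∧ v ∉ Z'
    | Sum.inl u, Sum.inr p => u = q p.1
    | Sum.inr p, Sum.inl u => u = q p.1
    | Sum.inr _, Sum.inr _ => False
  symm := by
    constructor
    rintro (u | p) (v | r) h
    · exact ⟨h.1.symm, h.2.2, h.2.1⟩
    · exact h
    · exact h
    · exact h
  loopless := by
    constructor
    rintro (u | p) h
    · exact G'.loopless.irrefl u h.1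
    · exact h

end leaves

section

variable {V V' : Type} [Finite V] [Finite V'] {a L k : ℕ}

/-- The lifting lemma for colourings with deleted vertices and saturated vertices. -/
theorem ConfK.liftM (C : ConfK a L k) (hC : C.Red) (G : SimpleGraph V) (G' : SimpleGraph V')
    (W M : Set V) (W' M' : Set V')
    (κ : Fin a → V) (ρ : Fin L → V) (χ : Fin k → V') (q : V → V')
    (hκ : Function.Injective κ) (hρ : Function.Injective ρ) (hκρ : ∀ i r, κ i ≠ ρ r)
    (hκW : ∀ i, κ i ∉ W) (hρW : ∀ r, ρ r ∉ W) (hκM : ∀ i, κ i ∉ M)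
    (hinn : ∀ i j, G.Adj (κ i) (κ j) ↔ C.inn i j = true)
    (hmix : ∀ i r, G.Adj (κ i) (ρ r) ↔ C.mix i r = true)
    (hnb : ∀ i v, G.Adj (κ i) v → (∃ j, v = κ j) ∨ ∃ r, v = ρ r)
    (hrng : ∀ r s, C.rng r s = true → G.Adj (ρ r) (ρ s))
    (hW' : ∀ v, v ∉ W → q v ∉ W') (hM' : ∀ v, v ∈ M → v ∉ W → q v ∈ M')
    (hPi : ∀ u v, u ∈ M → u ∉ W → v ∈ M → v ∉ W → q u = q v → u = v)
    (hq : ∀ u v, (∀ i, κ i ≠ u) → (∀ i, κ i ≠ v) → G.Adj u v → G'.Adj (q u) (q v))
    (hχ : Function.Injective χ) (hχW : ∀ A, χ A ∉ W') (hcls : ∀ r, q (ρ r) = χ (C.cls r))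
    (hout : ∀ u v, (∀ i, κ i ≠ u) → (∀ i, κ i ≠ v) → q u = q v → u = v ∨ ∃ r s, u = ρ r ∧ v = ρ s)
    (hV : ∀ v r s, (∀ i, κ i ≠ v) → q (ρ r) = q (ρ s) → G.Adj v (ρ r) → G.Adj v (ρ s) → r = s)
    (hW : ∀ r s t u, q (ρ r) = q (ρ s) → q (ρ t) = q (ρ u) → G.Adj (ρ r) (ρ t) →
      G.Adj (ρ s) (ρ u) → r = s ∧ t = u)
    (hchd : ∀ A B, C.chd A B = true → G'.Adj (χ A) (χ B))
    (hnew : ∀ A B u v, C.chd A B = true → (∀ i, κ i ≠ u) → (∀ i, κ i ≠ v) → q u = χ A →
      q v = χ B → ¬ G.Adj u v)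
    (c' : V' → Fin 4) (hc' : MDef G' W' M' c') :
    ∃ c : V → Fin 4, MDef G W M c ∧ ∀ v, (∀ i, κ i ≠ v) → c v = c' (q v) := by
  classical
  let P : Set V := {v | v ∈ M ∧ v ∉ W}
  let H : SimpleGraph (V ⊕ P) := leafGraph P G W id
  let H' : SimpleGraph (V' ⊕ P) := leafGraph P G' W' q
  let Q : V ⊕ P → V' ⊕ P := Sum.map q id
  have hdef : Defective H' 1 (Sum.elim c' fun p => c' (q p.1)) := by
    intro x
    rw [Set.ncard_le_one (Set.toFinite _)]
    rintro y ⟨hxy, hy⟩ z ⟨hxz, hz⟩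
    rcases x with x | p
    · rcases y with y | p1
      · rcases z with z | p2
        · have h1 : G'.Adj x y ∧ x ∉ W' ∧ y ∉ W' := hxy
          have h2 : G'.Adj x z ∧ x ∉ W' ∧ z ∉ W' := hxz
          rw [hc'.one h1.2.1 h1.2.2 h2.2.2 h1.1 h2.1 hy hz]
        · have h1 : G'.Adj x y ∧ x ∉ W' ∧ y ∉ W' := hxy
          have h2 : x = q p2.1 := hxz
          exact absurd hy ((hc' x h1.2.1).2 (by rw [h2]; exact hM' _ p2.2.1 p2.2.2) y h1.2.2 h1.1)
      · rcases z with z | p2
        · have h1 : G'.Adj x z ∧ x ∉ W' ∧ z ∉ W' := hxz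
          have h2 : x = q p1.1 := hxy
          exact absurd hz ((hc' x h1.2.1).2 (by rw [h2]; exact hM' _ p1.2.1 p1.2.2) z h1.2.2 h1.1)
        · have h1 : x = q p1.1 := hxy
          have h2 : x = q p2.1 := hxz
          have h3 : p1 = p2 :=
            Subtype.ext (hPi _ _ p1.2.1 p1.2.2 p2.2.1 p2.2.2 (h1.symm.trans h2))
          rw [h3]
    · rcases y with y | p1
      · rcases z with z | p2
        · have h1 : y = q p.1 := hxy
          have h2 : z = q p.1 := hxz
          rw [h1, h2]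
        · exact (hxz : False).elim
      · exact (hxy : False).elim
  obtain ⟨c, hc1, hc2⟩ := C.lift hC H H' (fun i => Sum.inl (κ i)) (fun r => Sum.inl (ρ r))
    (fun A => Sum.inl (χ A)) Q
    (fun i j h => hκ (Sum.inl_injective h)) (fun i j h => hρ (Sum.inl_injective h))
    (fun i r h => hκρ i r (Sum.inl_injective h))
    (fun i j => ⟨fun h => (hinn i j).1 h.1, fun h => ⟨(hinn i j).2 h, hκW i, hκW j⟩⟩)
    (fun i r => ⟨fun h => (hmix i r).1 h.1, fun h => ⟨(hmix i r).2 h, hκW i, hρW r⟩⟩)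
    (by
      rintro i (v | p) h
      · rcases hnb i v h.1 with ⟨j, rfl⟩ | ⟨r, rfl⟩
        · exact Or.inl ⟨j, rfl⟩
        · exact Or.inr ⟨r, rfl⟩
      · have h1 : κ i = p.1 := h
        exact absurd p.2.1 (by rw [← h1]; exact hκM i))
    (fun r s h => ⟨hrng r s h, hρW r, hρW s⟩)
    (by
      rintro (u | p) (v | r) hu hv h
      · exact ⟨hq u v (fun i hi => hu i (by rw [hi])) (fun i hi => hv i (by rw [hi])) h.1,
          hW' u h.2.1, hW' v h.2.2⟩
      · have h1 : u = r.1 := h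
        change q u = q r.1
        rw [h1]
      · have h1 : v = p.1 := h
        change q v = q p.1
        rw [h1]
      · exact h)
    (fun A B h => hχ (Sum.inl_injective h))
    (fun r => congrArg Sum.inl (hcls r))
    (by
      rintro (u | p) (v | r) hu hv h
      · rcases hout u v (fun i hi => hu i (by rw [hi])) (fun i hi => hv i (by rw [hi]))
          (Sum.inl_injective h) with h1 | ⟨r, s, h1, h2⟩
        · exact Or.inl (by rw [h1])
        · exact Or.inr ⟨r, s, by rw [h1], by rw [h2]⟩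
      · exact absurd h (by intro h; cases h)
      · exact absurd h (by intro h; cases h)
      · have h1 : p = r := Sum.inr_injective h
        exact Or.inl (by rw [h1]))
    (by
      rintro (v | p) r s hv hrs h1 h2
      · exact hV v r s (fun i hi => hv i (by rw [hi])) (Sum.inl_injective hrs) h1.1 h2.1
      · have h3 : ρ r = p.1 := h1
        have h4 : ρ s = p.1 := h2
        exact hρ (h3.trans h4.symm))
    (fun r s t u h1 h2 h3 h4 => hW r s t u (Sum.inl_injective h1) (Sum.inl_injective h2) h3.1 h4.1)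
    (fun A B h => ⟨hchd A B h, hχW A, hχW B⟩)
    (by
      rintro A B (u | p) (v | r) h hu hv h1 h2 h3
      · exact hnew A B u v h (fun i hi => hu i (by rw [hi])) (fun i hi => hv i (by rw [hi]))
          (Sum.inl_injective h1) (Sum.inl_injective h2) h3.1
      · cases h2
      · cases h1
      · exact h3)
    _ hdef
  have hco : ∀ v, (∀ i, κ i ≠ v) → c (Sum.inl v) = c' (q v) := by
    intro v hv
    exact hc2 (Sum.inl v) (fun i hi => hv i (Sum.inl_injective hi))
  refine ⟨fun v => c (Sum.inl v), ?_, hco⟩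
  intro v hv
  have h5 := hc1 (Sum.inl v)
  rw [Set.ncard_le_one (Set.toFinite _)] at h5
  constructor
  · rw [Set.ncard_le_one (Set.toFinite _)]
    rintro x ⟨hx, h1, h3⟩ y ⟨hy, h2, h4⟩
    exact Sum.inl_injective (h5 (Sum.inl x) ⟨⟨h1, hv, hx⟩, h3⟩ (Sum.inl y) ⟨⟨h2, hv, hy⟩, h4⟩)
  · intro hvM x hx h1 h2
    have h6 : c (Sum.inr ⟨v, hvM, hv⟩) = c (Sum.inl v) := by
      rw [hco v (fun i hi => hκM i (by rw [hi]; exact hvM))]
      exact hc2 (Sum.inr ⟨v, hvM, hv⟩) (fun i hi => by cases hi)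
    have h7 := h5 (Sum.inl x) ⟨⟨h1, hv, hx⟩, h2⟩ (Sum.inr ⟨v, hvM, hv⟩) ⟨rfl, h6⟩
    cases h7

end

/-! ### Labels -/

/-- The configuration `D` occurs in `G`, and the merges and chords are legal. -/
structure KData.Occurs {V : Type} (D : KData) (G : SimpleGraph V) (lk : ℕ → List ℕ)
    (f : ℕ → V) : Prop where
  /-- the labels are different vertices -/
  inj : ∀ x y, x < D.a + D.L → y < D.a + D.L → f x = f y → x = y
  /-- the neighbours of an inner vertex -/
  lk : ∀ i, i < D.a → ∀ v, G.Adj (f i) v ↔ ∃ x, x ∈ lk i ∧ f x = v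
  /-- the edges of the ring -/
  rng : ∀ r s, (r, s) ∈ D.rng → G.Adj (f (D.a + r)) (f (D.a + s))
  /-- merged vertices are not adjacent -/
  na : ∀ r s, r < D.L → s < D.L → D.q r = D.q s → ¬ G.Adj (f (D.a + r)) (f (D.a + s))
  /-- every common neighbour of two merged vertices is an inner vertex -/
  nc : ∀ r s, r < D.L → s < D.L → r ≠ s → D.q r = D.q s → ∀ v, G.Adj v (f (D.a + r)) →
    G.Adj v (f (D.a + s)) → ∃ i, i < D.a ∧ f i = v
  /-- there is at most one edge between two classes -/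
  nw : ∀ r s t u, r < D.L → s < D.L → t < D.L → u < D.L → D.q r = D.q s → D.q t = D.q u →
    G.Adj (f (D.a + r)) (f (D.a + t)) → G.Adj (f (D.a + s)) (f (D.a + u)) → r = s ∧ t = u
  /-- the classes joined by a new edge are not adjacent -/
  nh : ∀ A B t u, (A, B) ∈ D.chq → t < D.L → u < D.L → D.q t = A → D.q u = B →
    ¬ G.Adj (f (D.a + t)) (f (D.a + u))

/-- The data of the configuration and of the contraction fit together; `rep A` is the label of the
class `A`. -/
structure KData.Fits (D : KData) (lk : ℕ → List ℕ) (blk rep : ℕ → ℕ) : Prop where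
  /-- the links -/
  lk_lt : ∀ i x, i < D.a → x ∈ lk i → x < D.a + D.L
  inn : ∀ i j, i < D.a → j < D.a → ((i, j) ∈ D.inn ↔ j ∈ lk i)
  mix : ∀ i r, i < D.a → r < D.L → ((i, r) ∈ D.mix ↔ D.a + r ∈ lk i)
  /-- the blocks -/
  blk_lt : ∀ x, x < D.a + D.L → blk x < D.a + D.L
  rep_lt : ∀ A, A < D.k → rep A < D.a + D.L
  rep_inj : ∀ A B, A < D.k → B < D.k → rep A = rep B → A = B
  blk_q : ∀ r, r < D.L → blk (D.a + r) = rep (D.q r)
  /-- the chords come from the contraction -/
  chq : ∀ A B, (A, B) ∈ D.chq → A ≠ B ∧ ∃ i x, i < D.a ∧ x ∈ lk i ∧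
    ((blk i = rep A ∧ blk x = rep B) ∨ (blk i = rep B ∧ blk x = rep A))

section

variable {V : Type} [Finite V]

/-- The lifting lemma for a configuration with labels. -/
theorem KData.lift (D : KData) (hD : D.conf.Red) (hql : ∀ r, r < D.L → D.q r < D.k)
    (G : SimpleGraph V) (lk : ℕ → List ℕ) (blk rep : ℕ → ℕ) (f : ℕ → V) (hf : D.Fits lk blk rep)
    (ho : D.Occurs G lk f) (W M : Set V)
    (hfW : ∀ x, x < D.a + D.L → f x ∉ W) (hfM : ∀ i, i < D.a → f i ∉ M)
    (hMi : ∀ r s, r < D.L → s < D.L → D.q r = D.q s → f (D.a + r) ∈ M → f (D.a + s) ∈ M → r = s)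
    (c' : V → Fin 4)
    (hc' : MDef (quot G (mp f (D.a + D.L) blk)) W (mp f (D.a + D.L) blk '' M) c') :
    ∃ c : V → Fin 4, MDef G W M c ∧
      ∀ v, (∀ i, i < D.a → f i ≠ v) → c v = c' (mp f (D.a + D.L) blk v) := by
  let q := mp f (D.a + D.L) blk
  have hq1 : ∀ x, x < D.a + D.L → q (f x) = f (blk x) := fun x hx => mp_lab ho.inj hx
  have hq2 : ∀ v, (∀ x, x < D.a + D.L → f x ≠ v) → q v = v := fun v hv =>
    mp_out (by rintro ⟨x, hx, h⟩; exact hv x hx h)
  have hlab : ∀ v, (∀ i : Fin D.a, f i ≠ v) → (∃ r : Fin D.L, v = f (D.a + r)) ∨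
      ∀ x, x < D.a + D.L → f x ≠ v := by
    intro v hv
    by_cases h : ∃ r : Fin D.L, v = f (D.a + r)
    · exact Or.inl h
    · right
      intro x hx hxv
      by_cases h1 : x < D.a
      · exact hv ⟨x, h1⟩ hxv
      · apply h
        refine ⟨⟨x - D.a, by omega⟩, ?_⟩
        change v = f (D.a + (x - D.a))
        rw [show D.a + (x - D.a) = x by omega, hxv]
  have hqlt : ∀ r : Fin D.L, D.q r < D.k := fun r => hql r r.2
  have hqr : ∀ r s : Fin D.L, q (f (D.a + r)) = q (f (D.a + s)) ↔ D.q r = D.q s := by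
    intro r s
    rw [hq1 _ (by omega), hq1 _ (by omega), hf.blk_q r r.2, hf.blk_q s s.2]
    constructor
    · intro h
      exact hf.rep_inj _ _ (hqlt r) (hqlt s)
        (ho.inj _ _ (hf.rep_lt _ (hqlt r)) (hf.rep_lt _ (hqlt s)) h)
    · intro h
      rw [h]
  have hcl : ∀ r : Fin D.L, (D.conf.cls r : ℕ) = D.q r := by
    intro r
    change (Fin.ofNat (D.kp + 1) (D.q r) : ℕ) = D.q r
    exact Nat.mod_eq_of_lt (hqlt r)
  obtain ⟨c, hc1, hc2⟩ := D.conf.liftM hD G (quot G q) W M W (q '' M)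
    (fun i => f i) (fun r => f (D.a + r)) (fun A => f (rep A)) q
    (fun i j h => Fin.ext (ho.inj _ _ (by omega) (by omega) h))
    (fun r s h => Fin.ext (by have := ho.inj _ _ (by omega) (by omega) h; omega))
    (fun i r h => by have := ho.inj _ _ (by omega) (by omega) h; omega)
    (fun i => hfW i (by omega)) (fun r => hfW _ (by omega)) (fun i => hfM i i.2)
    (by
      intro i j
      change _ ↔ mem2 i j D.inn = true
      rw [mem2_iff, hf.inn i j i.2 j.2, ho.lk i i.2]
      constructor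
      · rintro ⟨x, hx, h⟩
        rwa [ho.inj _ _ (by have := hf.lk_lt i x i.2 hx; omega) (by omega) h] at hx
      · intro h
        exact ⟨j, h, rfl⟩)
    (by
      intro i r
      change _ ↔ mem2 i r D.mix = true
      rw [mem2_iff, hf.mix i r i.2 r.2, ho.lk i i.2]
      constructor
      · rintro ⟨x, hx, h⟩
        rwa [ho.inj _ _ (by have := hf.lk_lt i x i.2 hx; omega) (by omega) h] at hx
      · intro h
        exact ⟨_, h, rfl⟩)
    (by
      intro i v h
      obtain ⟨x, hx, rfl⟩ := (ho.lk i i.2 v).1 h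
      have h1 := hf.lk_lt i x i.2 hx
      by_cases h2 : x < D.a
      · exact Or.inl ⟨⟨x, h2⟩, rfl⟩
      · refine Or.inr ⟨⟨x - D.a, by omega⟩, ?_⟩
        change f x = f (D.a + (x - D.a))
        rw [show D.a + (x - D.a) = x by omega])
    (by
      intro r s h
      change mem2 r s D.rng = true at h
      rw [mem2_iff] at h
      exact ho.rng r s h)
    (by
      intro v hv
      by_cases h : ∃ x, x < D.a + D.L ∧ f x = v
      · obtain ⟨x, hx, rfl⟩ := h
        rw [hq1 x hx]
        exact hfW _ (hf.blk_lt x hx)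
      · rw [hq2 v (fun x hx hxv => h ⟨x, hx, hxv⟩)]
        exact hv)
    (fun v hv _ => ⟨v, hv, rfl⟩)
    (by
      intro u v hu _ hv _ h
      rcases hlab u (fun i hi => hfM i i.2 (by rw [hi]; exact hu)) with ⟨r, rfl⟩ | h1
      · rcases hlab v (fun i hi => hfM i i.2 (by rw [hi]; exact hv)) with ⟨s, rfl⟩ | h2
        · have h3 := hMi r s r.2 s.2 ((hqr r s).1 h) hu hv
          rw [h3]
        · rw [hq2 v h2, hq1 _ (by omega)] at h
          exact absurd h (h2 _ (hf.blk_lt _ (by omega)))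
      · rcases hlab v (fun i hi => hfM i i.2 (by rw [hi]; exact hv)) with ⟨s, rfl⟩ | h2
        · rw [hq2 u h1, hq1 _ (by omega)] at h
          exact absurd h.symm (h1 _ (hf.blk_lt _ (by omega)))
        · rwa [hq2 u h1, hq2 v h2] at h)
    (by
      intro u v hu hv h
      refine ⟨?_, u, v, rfl, rfl, h⟩
      intro h0
      rcases hlab u hu with ⟨r, rfl⟩ | h1
      · rcases hlab v hv with ⟨s, rfl⟩ | h2
        · exact ho.na r s r.2 s.2 ((hqr r s).1 h0) h
        · rw [hq2 v h2, hq1 _ (by omega)] at h0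
          exact absurd h0 (h2 _ (hf.blk_lt _ (by omega)))
      · rcases hlab v hv with ⟨s, rfl⟩ | h2
        · rw [hq2 u h1, hq1 _ (by omega)] at h0
          exact absurd h0.symm (h1 _ (hf.blk_lt _ (by omega)))
        · rw [hq2 u h1, hq2 v h2] at h0
          exact h.ne h0)
    (by
      intro A B h
      exact Fin.ext (hf.rep_inj _ _ A.2 B.2
        (ho.inj _ _ (hf.rep_lt _ A.2) (hf.rep_lt _ B.2) h)))
    (fun A => hfW _ (hf.rep_lt _ A.2))
    (by
      intro r
      rw [hq1 _ (by omega), hf.blk_q r r.2, hcl])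
    (by
      intro u v hu hv h
      rcases hlab u hu with ⟨r, rfl⟩ | h1
      · rcases hlab v hv with ⟨s, rfl⟩ | h2
        · exact Or.inr ⟨r, s, rfl, rfl⟩
        · rw [hq2 v h2, hq1 _ (by omega)] at h
          exact absurd h (h2 _ (hf.blk_lt _ (by omega)))
      · rcases hlab v hv with ⟨s, rfl⟩ | h2
        · rw [hq2 u h1, hq1 _ (by omega)] at h
          exact absurd h.symm (h1 _ (hf.blk_lt _ (by omega)))
        · rw [hq2 u h1, hq2 v h2] at h
          exact Or.inl h)
    (by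
      intro v r s hv h h1 h2
      by_contra hrs
      obtain ⟨i, hi, hiv⟩ := ho.nc r s r.2 s.2 (fun h => hrs (Fin.ext h)) ((hqr r s).1 h) v h1 h2
      exact hv ⟨i, hi⟩ hiv)
    (by
      intro r s t u h1 h2 h3 h4
      have h5 := ho.nw r s t u r.2 s.2 t.2 u.2 ((hqr r s).1 h1) ((hqr t u).1 h2) h3 h4
      exact ⟨Fin.ext h5.1, Fin.ext h5.2⟩)
    (by
      intro A B h
      change mem2 A B D.chq = true at h
      rw [mem2_iff] at h
      obtain ⟨h1, i, x, hi, hx, h2⟩ := hf.chq A B h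
      have hxn := hf.lk_lt i x hi hx
      have h5 := (ho.lk i hi _).2 ⟨x, hx, rfl⟩
      have h6 : f (rep A) ≠ f (rep B) := by
        intro h4
        exact h1 (hf.rep_inj _ _ A.2 B.2 (ho.inj _ _ (hf.rep_lt _ A.2) (hf.rep_lt _ B.2) h4))
      rcases h2 with ⟨h2, h3⟩ | ⟨h2, h3⟩
      · exact ⟨h6, f i, f x, by rw [hq1 _ (by omega), h2], by rw [hq1 _ hxn, h3], h5⟩
      · exact ⟨h6, f x, f i, by rw [hq1 _ hxn, h3], by rw [hq1 _ (by omega), h2], h5.symm⟩)
    (by
      intro A B u v h hu hv h1 h2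
      change mem2 A B D.chq = true at h
      rw [mem2_iff] at h
      rcases hlab u hu with ⟨r, rfl⟩ | h3
      · rcases hlab v hv with ⟨s, rfl⟩ | h4
        · rw [hq1 _ (by omega), hf.blk_q r r.2] at h1
          rw [hq1 _ (by omega), hf.blk_q s s.2] at h2
          have h5 := hf.rep_inj _ _ (hqlt r) A.2
            (ho.inj _ _ (hf.rep_lt _ (hqlt r)) (hf.rep_lt _ A.2) h1)
          have h6 := hf.rep_inj _ _ (hqlt s) B.2
            (ho.inj _ _ (hf.rep_lt _ (hqlt s)) (hf.rep_lt _ B.2) h2)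
          exact ho.nh A B r s h r.2 s.2 h5 h6
        · rw [hq2 v h4] at h2
          exact absurd h2.symm (h4 _ (hf.rep_lt _ B.2))
      · rw [hq2 u h3] at h1
        exact absurd h1.symm (h3 _ (hf.rep_lt _ A.2)))
    c' hc'
  refine ⟨c, hc1, fun v hv => hc2 v fun i hi => hv i i.2 hi⟩

end

end Pool.Agent.W986
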