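import Pool.Agent.W986.SubDef
import Pool.Agent.W986.SubRed
import Pool.Agent.W986.SubOcc

/-!
# Substitution and merging: the reduction given by a configuration

`SCfg` is a configuration with its contraction. If it occurs inside a region, its labels are
different vertices and its merges are legal, then there is a reduction `HasRed`.
-/

set_option autoImplicit false

open Finset

namespace Pool.Agent.W986

open Pool.Agent.DC76

namespace SCfg

variable (C : SCfg)

/-- The contents of `fitb`. -/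
structure Fit : Prop where
  a : C.P.a = C.D.a
  N : C.P.N = C.D.a + C.D.L
  q_lt : ∀ r, r < C.D.L → C.D.q r < C.D.k
  fnq : ∀ r, r < C.D.L → C.fn (C.D.a + r) = C.rp (C.D.q r)
  rp_lt : ∀ A, A < C.D.k → C.rp A < C.D.a + C.D.L
  rp_inj : ∀ A B, A < C.D.k → B < C.D.k → C.rp A = C.rp B → A = B
  fn_lt : ∀ x, x < C.D.a + C.D.L → C.fn x < C.D.a + C.D.L
  lk_lt : ∀ i x, i < C.D.a → x ∈ C.lnk i → x < C.D.a + C.D.L
  inn : ∀ i j, i < C.D.a → j < C.D.a → ((i, j) ∈ C.D.inn ↔ j ∈ C.lnk i)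
  mix : ∀ i r, i < C.D.a → r < C.D.L → ((i, r) ∈ C.D.mix ↔ C.D.a + r ∈ C.lnk i)
  rng : ∀ r s, (r, s) ∈ C.D.rng →
    ∃ i, i < C.D.a ∧ consb (C.lnk i) (C.D.a + r) (C.D.a + s) = true
  cov : ∀ r, r < C.D.L → ∃ i, i < C.D.a ∧ C.D.a + r ∈ C.lnk i
  chq : ∀ A B, (A, B) ∈ C.D.chq → A ≠ B ∧
    ∃ i x, i < C.D.a ∧ x ∈ C.lnk i ∧ ((C.fn i = C.rp A ∧ C.fn x = C.rp B) ∨
      (C.fn i = C.rp B ∧ C.fn x = C.rp A))

theorem fit_of (h : C.fitb = true) : C.Fit := by
  unfold fitb at h
  simp only [Bool.and_eq_true, allN_iff, all2_iff, anyN_iff, CData.blt_iff, CData.beq_iff,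
    List.all_eq_true, List.any_eq_true, Bool.or_eq_true, Bool.not_eq_true', CData.beq_false_iff,
    eqb_iff, mem1_iff, mem2_iff] at h
  obtain ⟨⟨⟨⟨⟨⟨⟨⟨⟨⟨⟨h1, h2⟩, h0⟩, h3⟩, h4⟩, h5⟩, h6⟩, h7⟩, h8⟩, h9⟩, h10⟩, h11⟩ := h
  refine ⟨h1, h2, h0, h3, fun A hA => (h4 A hA).1, ?_, h5, fun i x hi hx => h6 i hi x hx,
    fun i j hi hj => h7 i hi j hj, fun i r hi hr => h8 i hi r hr, h9, h10, ?_⟩
  · intro A B hA hB hAB
    rcases (h4 A hA).2 B hB with h | h
    · exact absurd hAB h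
    · exact h
  · intro A B hAB
    obtain ⟨h12, i, hi, x, hx, h13⟩ := h11 A B hAB
    exact ⟨h12, i, x, hi, hx, h13⟩

/-- The contents of `planb`. -/
structure PlanFit : Prop where
  nb : ∀ i j, i < C.P.N → j < C.P.N → (C.P.nb.getD i 0).testBit j = true → C.adjb i j = true
  nbi : ∀ i x, i < C.D.a → x ∈ C.lnk i →
    (C.P.nb.getD i 0).testBit x = true ∧ (C.P.nb.getD x 0).testBit i = true
  tri : ∀ t ∈ C.P.tri, t.1 < C.P.N ∧ t.2.1 < C.P.N ∧ t.2.2 < C.P.N ∧
    C.trib t.1 t.2.1 t.2.2 = true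
  big : C.P.bigOK = true
  pos : 0 < C.P.steps.length
  check : C.P.check = true

theorem planFit_of (h : C.planb = true) : C.PlanFit := by
  unfold planb at h
  simp only [Bool.and_eq_true, allN_iff, CData.blt_iff, List.all_eq_true, Bool.or_eq_true,
    Bool.not_eq_true'] at h
  obtain ⟨⟨⟨⟨⟨h1, h2⟩, h3⟩, h4⟩, h5⟩, h6⟩ := h
  refine ⟨?_, fun i x hi hx => h2 i hi x hx, ?_, h4, h5, h6⟩
  · intro i j hi hj hb
    rcases h1 i hi j hj with h | h
    · rw [hb] at h
      exact absurd h (by decide)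
    · exact h
  · intro t ht
    obtain ⟨⟨⟨h7, h8⟩, h9⟩, h10⟩ := h3 t ht
    exact ⟨h7, h8, h9, h10⟩

/-- The contents of `legb`. -/
structure Leg (na nc : ℕ → ℕ → Bool) : Prop where
  same : ∀ r s, r < C.D.L → s < C.D.L → r ≠ s → C.D.q r = C.D.q s →
    na (C.D.a + r) (C.D.a + s) = true ∧ nc (C.D.a + r) (C.D.a + s) = true ∧
      ∃ i, i < C.D.a ∧ C.D.a + r ∈ C.lnk i ∧ C.D.a + s ∈ C.lnk i
  nw : ∀ r s t u, r < C.D.L → s < C.D.L → t < C.D.L → u < C.D.L → r ≠ s → t ≠ u →
    C.D.q r = C.D.q s → C.D.q t = C.D.q u →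
    na (C.D.a + r) (C.D.a + t) = true ∨ na (C.D.a + s) (C.D.a + u) = true
  nhq : ∀ A B t u, (A, B) ∈ C.D.chq → t < C.D.L → u < C.D.L → C.D.q t = A → C.D.q u = B →
    na (C.D.a + t) (C.D.a + u) = true
  nhp : ∀ x y t u, (x, y) ∈ C.P.chd → t < C.D.L → u < C.D.L → C.fn (C.D.a + t) = x →
    C.fn (C.D.a + u) = y → na (C.D.a + t) (C.D.a + u) = true
  near : ∀ r s, r < C.D.L → s < C.D.L → C.D.q r ≠ C.D.q s → C.near r s = true ∨
    ((∀ i x, i < C.D.a → x ∈ C.lnk i → ¬ (C.fn i = C.fn (C.D.a + r) ∧ C.fn x = C.fn (C.D.a + s)) ∧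
      ¬ (C.fn i = C.fn (C.D.a + s) ∧ C.fn x = C.fn (C.D.a + r))) ∧
    ∀ r' s', r' < C.D.L → s' < C.D.L → r ≠ r' → s ≠ s' → C.D.q r' = C.D.q r →
      C.D.q s' = C.D.q s → na (C.D.a + r') (C.D.a + s') = true)

theorem leg_of {na nc : ℕ → ℕ → Bool} (h : C.legb na nc = true) : C.Leg na nc := by
  unfold legb at h
  simp only [Bool.and_eq_true, allN_iff, all2_iff, CData.beq_iff, List.all_eq_true,
    Bool.or_eq_true, Bool.not_eq_true', CData.beq_false_iff, com, anyN_iff, mem1_iff] at h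
  obtain ⟨⟨⟨⟨h1, h2⟩, h3⟩, h4⟩, h5⟩ := h
  refine ⟨?_, ?_, ?_, ?_, ?_⟩
  · intro r s hr hs hrs hq
    rcases h1 r hr s hs with (h | h) | h
    · exact absurd h hrs
    · exact absurd hq h
    · obtain ⟨⟨h6, h7⟩, i, hi, h8⟩ := h
      exact ⟨h6, h7, i, hi, h8.1, h8.2⟩
  · intro r s t u hr hs ht hu hrs htu hq hq'
    rcases h2 r hr s hs with (h | h) | h
    · exact absurd h hrs
    · exact absurd hq h
    · rcases h t ht u hu with ((h | h) | h) | h
      · exact absurd h htu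
      · exact absurd hq' h
      · exact Or.inl h
      · exact Or.inr h
  · intro A B t u hAB ht hu hA hB
    rcases h3 A B hAB t ht u hu with (h | h) | h
    · exact absurd hA h
    · exact absurd hB h
    · exact h
  · intro A B t u hAB ht hu hA hB
    rcases h4 A B hAB t ht u hu with (h | h) | h
    · exact absurd hA h
    · exact absurd hB h
    · exact h
  · intro r s hr hs hq
    rcases h5 r hr s hs with (h | h) | ⟨h, h'⟩
    · exact absurd h hq
    · exact Or.inl h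
    · refine Or.inr ⟨?_, ?_⟩
      · intro i x hi hx
        have h6 := h i hi x hx
        constructor
        · rintro ⟨h7, h8⟩
          have h9 : Nat.beq (C.fn i) (C.fn (C.D.a + r)) = true := (CData.beq_iff _ _).2 h7
          have h10 : Nat.beq (C.fn x) (C.fn (C.D.a + s)) = true := (CData.beq_iff _ _).2 h8
          rw [h9, h10] at h6
          exact absurd h6.1 (by decide)
        · rintro ⟨h7, h8⟩
          have h9 : Nat.beq (C.fn i) (C.fn (C.D.a + s)) = true := (CData.beq_iff _ _).2 h7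
          have h10 : Nat.beq (C.fn x) (C.fn (C.D.a + r)) = true := (CData.beq_iff _ _).2 h8
          rw [h9, h10] at h6
          exact absurd h6.2 (by decide)
      · intro r' s' hr' hs' hrr hss hq1 hq2
        rcases h' r' hr' s' hs' with (((h | h) | h) | h) | h
        · exact absurd h hrr
        · exact absurd h hss
        · exact absurd hq1 h
        · exact absurd hq2 h
        · exact h

/-- The configuration occurs: the labels are different, the links are rotations, and the tables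
`na` (not adjacent), `nc` (every common neighbour is inner) are correct. -/
structure At {V : Type} (na nc : ℕ → ℕ → Bool) (G : SimpleGraph V) (T : V → V → V → Prop)
    (f : ℕ → V) : Prop where
  occ : Occ G T C.links C.D.a f
  inj : ∀ x y, x < C.D.a + C.D.L → y < C.D.a + C.D.L → f x = f y → x = y
  na : ∀ x y, x < C.D.a + C.D.L → y < C.D.a + C.D.L → na x y = true → ¬ G.Adj (f x) (f y)
  nc : ∀ x y, x < C.D.a + C.D.L → y < C.D.a + C.D.L → nc x y = true → ∀ v, G.Adj v (f x) →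
    G.Adj v (f y) → ∃ i, i < C.D.a ∧ f i = v

section

variable {C} {V : Type} {G : SimpleGraph V} {T : V → V → V → Prop} {f : ℕ → V}
  {na nc : ℕ → ℕ → Bool}

theorem At.lk (h : C.At na nc G T f) {i : ℕ} (hi : i < C.D.a) (v : V) :
    G.Adj (f i) v ↔ ∃ x, x ∈ C.lnk i ∧ f x = v := by
  have h1 := h.occ i hi
  have h2 : 0 < (Pool.Agent.W986.lk C.links i).length := by
    have := h1.three
    omega
  rw [h1.adj]
  constructor
  · rintro ⟨t, ht, hv⟩
    exact ⟨_, mem_lab t h2, hv⟩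
  · rintro ⟨x, hx, hv⟩
    obtain ⟨t, ht, htx⟩ := lab_mem hx
    exact ⟨t, ht, (congrArg f htx).trans hv⟩

theorem At.tri (h : C.At na nc G T f) (rot : ∀ x y z, T x y z → T y z x)
    (swap : ∀ x y z, T x y z → T y x z) {i x y : ℕ} (hi : i < C.D.a)
    (hc : consb (C.lnk i) x y = true) : T (f i) (f x) (f y) := by
  have h1 := h.occ i hi
  unfold consb at hc
  rw [anyN_iff] at hc
  obtain ⟨t, _, ht⟩ := hc
  rw [Bool.or_eq_true, Bool.and_eq_true, Bool.and_eq_true, CData.beq_iff, CData.beq_iff,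
    CData.beq_iff, CData.beq_iff] at ht
  have h2 : T (f i) (f (lab (C.lnk i) (t + 1))) (f (lab (C.lnk i) t)) :=
    (h1.tri t _).2 (Or.inl rfl)
  rcases ht with ⟨h3, h4⟩ | ⟨h3, h4⟩
  · rw [h3, h4] at h2
    exact rot _ _ _ (swap _ _ _ h2) |> fun h5 => by
      exact h5
  · rw [h3, h4] at h2
    exact h2

theorem At.adj (h : C.At na nc G T f) (rot : ∀ x y z, T x y z → T y z x)
    (swap : ∀ x y z, T x y z → T y x z) (adj : ∀ x y z, T x y z → G.Adj x y) {i j : ℕ}
    (hij : C.adjb i j = true) : G.Adj (f i) (f j) := by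
  unfold adjb inb at hij
  rw [Bool.or_eq_true, Bool.or_eq_true, Bool.and_eq_true, Bool.and_eq_true, CData.blt_iff,
    CData.blt_iff, mem1_iff, mem1_iff, anyN_iff] at hij
  rcases hij with (⟨h1, h2⟩ | ⟨h1, h2⟩) | ⟨k, hk, h2⟩
  · exact (h.lk h1 _).2 ⟨j, h2, rfl⟩
  · exact ((h.lk h1 _).2 ⟨i, h2, rfl⟩).symm
  · exact adj _ _ _ (rot _ _ _ (h.tri rot swap hk h2))

theorem At.trib (h : C.At na nc G T f) (rot : ∀ x y z, T x y z → T y z x)
    (swap : ∀ x y z, T x y z → T y x z) {i j k : ℕ}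
    (hij : C.trib i j k = true) : T (f i) (f j) (f k) := by
  unfold SCfg.trib at hij
  rw [Bool.or_eq_true, Bool.or_eq_true, Bool.and_eq_true, Bool.and_eq_true, Bool.and_eq_true,
    CData.blt_iff, CData.blt_iff, CData.blt_iff] at hij
  rcases hij with (⟨h1, h2⟩ | ⟨h1, h2⟩) | ⟨h1, h2⟩
  · exact h.tri rot swap h1 h2
  · exact swap _ _ _ (h.tri rot swap h1 h2)
  · exact rot _ _ _ (h.tri rot swap h1 h2)

/-- The configuration occurs in the sense of `KData.Occurs`. -/
theorem At.occurs (h : C.At na nc G T f) (rot : ∀ x y z, T x y z → T y z x)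
    (swap : ∀ x y z, T x y z → T y x z) (adj : ∀ x y z, T x y z → G.Adj x y) (hf : C.Fit)
    (hl : C.Leg na nc) : C.D.Occurs G C.lnk f := by
  have hnc : ∀ r s, r < C.D.L → s < C.D.L → r ≠ s → C.D.q r = C.D.q s →
      ∀ v, G.Adj v (f (C.D.a + r)) → G.Adj v (f (C.D.a + s)) → ∃ i, i < C.D.a ∧ f i = v := by
    intro r s hr hs hrs hq
    exact h.nc _ _ (by omega) (by omega) (hl.same r s hr hs hrs hq).2.1
  refine ⟨h.inj, fun i hi v => h.lk hi v, ?_, ?_, hnc, ?_, ?_⟩
  · intro r s hrs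
    obtain ⟨i, hi, hc⟩ := hf.rng r s hrs
    exact adj _ _ _ (rot _ _ _ (h.tri rot swap hi hc))
  · intro r s hr hs hq
    by_cases hrs : r = s
    · rw [hrs]
      exact G.loopless.irrefl _
    · exact h.na _ _ (by omega) (by omega) (hl.same r s hr hs hrs hq).1
  · intro r s t u hr hs ht hu hq hq' h1 h2
    by_cases hrs : r = s
    · subst hrs
      refine ⟨rfl, ?_⟩
      by_contra htu
      obtain ⟨i, hi, hi'⟩ := hnc t u ht hu htu hq' _ h1 h2
      have := h.inj _ _ (by omega) (by omega) hi'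
      omega
    · exfalso
      by_cases htu : t = u
      · subst htu
        obtain ⟨i, hi, hi'⟩ := hnc r s hr hs hrs hq _ h1.symm h2.symm
        have := h.inj _ _ (by omega) (by omega) hi'
        omega
      · rcases hl.nw r s t u hr hs ht hu hrs htu hq hq' with h3 | h3
        · exact h.na _ _ (by omega) (by omega) h3 h1
        · exact h.na _ _ (by omega) (by omega) h3 h2
  · intro A B t u hAB ht hu hA hB
    exact h.na _ _ (by omega) (by omega) (hl.nhq A B t u hAB ht hu hA hB)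

theorem Fit.fits (hf : C.Fit) : C.D.Fits C.lnk C.fn C.rp :=
  ⟨hf.lk_lt, hf.inn, hf.mix, hf.fn_lt, hf.rp_lt, hf.rp_inj, hf.fnq, hf.chq⟩

/-- The contraction fits. -/
theorem At.fits (h : C.At na nc G T f) (rot : ∀ x y z, T x y z → T y z x)
    (swap : ∀ x y z, T x y z → T y x z) (adj : ∀ x y z, T x y z → G.Adj x y) (hf : C.Fit)
    (hl : C.Leg na nc) (hp : C.PlanFit) : C.P.Fits G T f := by
  have ho := h.occurs rot swap adj hf hl
  have hN := hf.N
  have ha := hf.a
  have hfq : ∀ r s, C.P.a ≤ r → r < C.P.N → C.P.a ≤ s → s < C.P.N →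
      C.P.fin.getD r 0 = C.P.fin.getD s 0 → C.D.q (r - C.D.a) = C.D.q (s - C.D.a) := by
    intro r s hr hr' hs hs' he
    have h1 := hf.fnq (r - C.D.a) (by omega)
    have h2 := hf.fnq (s - C.D.a) (by omega)
    rw [show C.D.a + (r - C.D.a) = r by omega] at h1
    rw [show C.D.a + (s - C.D.a) = s by omega] at h2
    refine hf.rp_inj _ _ (hf.q_lt _ (by omega)) (hf.q_lt _ (by omega)) ?_
    rw [← h1, ← h2]
    exact he
  refine ⟨?_, ?_, ?_, ?_, ?_, ?_, ?_, ?_, ?_⟩
  · intro i j hi hj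
    exact h.inj i j (by omega) (by omega)
  · intro i j hi hj hb
    exact h.adj rot swap adj (hp.nb i j hi hj hb)
  · intro i j hi hj hij ho'
    rcases ho' with h1 | h1
    · obtain ⟨x, hx, hxj⟩ := (h.lk (by omega) _).1 hij
      have h2 := h.inj x j (hf.lk_lt i x (by omega) hx) (by omega) hxj
      subst h2
      exact (hp.nbi i x (by omega) hx).1
    · obtain ⟨x, hx, hxj⟩ := (h.lk (i := j) (by omega) _).1 hij.symm
      have h2 := h.inj x i (hf.lk_lt j x (by omega) hx) (by omega) hxj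
      subst h2
      exact (hp.nbi j x (by omega) hx).2
  · intro i v hi hv
    obtain ⟨x, hx, hxv⟩ := (h.lk (by omega) _).1 hv
    exact ⟨x, by have := hf.lk_lt i x (by omega) hx; omega, hxv⟩
  · intro t ht
    obtain ⟨h1, h2, h3, h4⟩ := hp.tri t ht
    exact ⟨h1, h2, h3, h.trib rot swap h4⟩
  · intro r s hr hr' hs hs' he
    have h1 := ho.na (r - C.D.a) (s - C.D.a) (by omega) (by omega) (hfq r s hr hr' hs hs' he)
    rwa [show C.D.a + (r - C.D.a) = r by omega, show C.D.a + (s - C.D.a) = s by omega] at h1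
  · intro r s v hr hr' hs hs' hrs he h1 h2
    have h3 := ho.nc (r - C.D.a) (s - C.D.a) (by omega) (by omega) (by omega)
      (hfq r s hr hr' hs hs' he) v
    rw [show C.D.a + (r - C.D.a) = r by omega, show C.D.a + (s - C.D.a) = s by omega] at h3
    obtain ⟨i, hi, hi'⟩ := h3 h1 h2
    exact ⟨i, by omega, hi'⟩
  · intro r r' s s' h1 h2 h3 h4 h5 h6 h7 h8 he he' h9 h10
    have h11 := ho.nw (r - C.D.a) (r' - C.D.a) (s - C.D.a) (s' - C.D.a) (by omega) (by omega)
      (by omega) (by omega) (hfq r r' h1 h2 h3 h4 he) (hfq s s' h5 h6 h7 h8 he')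
    rw [show C.D.a + (r - C.D.a) = r by omega, show C.D.a + (s - C.D.a) = s by omega,
      show C.D.a + (r' - C.D.a) = r' by omega, show C.D.a + (s' - C.D.a) = s' by omega] at h11
    have h12 := h11 h9 h10
    omega
  · intro c hc r s hr hr' hs hs' h1 h2
    have h3 := hl.nhp c.1 c.2 (r - C.D.a) (s - C.D.a) hc (by omega) (by omega)
    rw [show C.D.a + (r - C.D.a) = r by omega, show C.D.a + (s - C.D.a) = s by omega] at h3
    exact h.na _ _ (by omega) (by omega) (h3 h1 h2)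

theorem inner_or (x : ℕ) (hx : x < C.D.a + C.D.L) : x < C.D.a ∨ ∃ r, r < C.D.L ∧ x = C.D.a + r := by
  by_cases h : x < C.D.a
  · exact Or.inl h
  · exact Or.inr ⟨x - C.D.a, by omega, by omega⟩

/-- **The reduction given by a configuration.** -/
theorem hasRed_of [Fintype V] [DecidableEq V] (C : SCfg) (hD : C.D.conf.Red) (hf : C.Fit)
    (hp : C.PlanFit) {na nc : ℕ → ℕ → Bool} (hl : C.Leg na nc) {χ : ℤ}
    {S I : Finset V} (h : TriOn χ S G T) (hR : Region S G T I) (hat : C.At na nc G T f)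
    (hI : ∀ i, i < C.D.a → f i ∈ I) : HasRed χ S G T I := by
  have hN := hf.N
  have ho := hat.occurs h.rot h.swap h.adj hf hl
  have hpf := hat.fits h.rot h.swap h.adj hf hl hp
  have hex := hpf.exists_quot_any hp.check hp.big h
  have hρ : (mp f C.P.N fun i => C.P.fin.getD i 0) = mp f (C.D.a + C.D.L) C.fn := by
    rw [hN]
    rfl
  rw [hρ] at hex
  obtain ⟨hT, hcard⟩ := hex
  have hρ1 : ∀ x, x < C.D.a + C.D.L → mp f (C.D.a + C.D.L) C.fn (f x) = f (C.fn x) :=
    fun x hx => mp_lab hat.inj hx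
  have hρ2 : ∀ v, (∀ x, x < C.D.a + C.D.L → f x ≠ v) → mp f (C.D.a + C.D.L) C.fn v = v :=
    fun v hv => mp_out (by rintro ⟨x, hx, hxv⟩; exact hv x hx hxv)
  -- labels are vertices
  have hlabS : ∀ x, x < C.D.a + C.D.L → f x ∈ S := by
    intro x hx
    rcases inner_or (C := C) x hx with h1 | ⟨r, hr, rfl⟩
    · exact hR.sub (hI x h1)
    · obtain ⟨i, hi, hxi⟩ := hf.cov r hr
      exact h.mem _ _ ((hat.lk hi _).2 ⟨_, hxi, rfl⟩).symm
  -- outer vertices are ring labels or not labels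
  have hcase : ∀ v, v ∉ I → (∃ r, r < C.D.L ∧ v = f (C.D.a + r)) ∨
      ∀ x, x < C.D.a + C.D.L → f x ≠ v := by
    intro v hv
    by_cases h1 : ∃ x, x < C.D.a + C.D.L ∧ f x = v
    · obtain ⟨x, hx, rfl⟩ := h1
      rcases inner_or (C := C) x hx with h2 | ⟨r, hr, rfl⟩
      · exact absurd (hI x h2) hv
      · exact Or.inl ⟨r, hr, rfl⟩
    · right
      intro x hx hxv
      exact h1 ⟨x, hx, hxv⟩
  -- two different outer vertices are not in one class
  have hsame : ∀ r s, r < C.D.L → s < C.D.L → C.D.q r = C.D.q s → f (C.D.a + r) ∉ I →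
      f (C.D.a + s) ∉ I → r = s := by
    intro r s hr hs hq h1 h2
    by_contra hrs
    obtain ⟨h3, _, i, hi, h4, h5⟩ := hl.same r s hr hs hrs hq
    refine hat.na _ _ (by omega) (by omega) h3 (hR.out (f i) (hI i hi) _ _ h1 h2 ?_ ?_ ?_)
    · intro h6
      have := hat.inj _ _ (by omega) (by omega) h6
      omega
    · exact (hat.lk hi _).2 ⟨_, h4, rfl⟩
    · exact (hat.lk hi _).2 ⟨_, h5, rfl⟩
  -- the classes of ring labels
  have hcls : ∀ r s, r < C.D.L → s < C.D.L → C.fn (C.D.a + r) = C.fn (C.D.a + s) →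
      C.D.q r = C.D.q s := by
    intro r s hr hs he
    rw [hf.fnq r hr, hf.fnq s hs] at he
    exact hf.rp_inj _ _ (hf.q_lt r hr) (hf.q_lt s hs) he
  -- a path through a merged vertex
  have hvia : ∀ r r', r < C.D.L → r' < C.D.L → r ≠ r' → C.D.q r = C.D.q r' → f (C.D.a + r) ∉ I →
      f (C.D.a + r') ∈ I ∧ ∃ k ∈ I, G.Adj (f (C.D.a + r)) k ∧ G.Adj k (f (C.D.a + r')) := by
    intro r r' hr hr' hrr hq h1
    constructor
    · by_contra h2
      exact hrr (hsame r r' hr hr' hq h1 h2)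
    · obtain ⟨_, _, i, hi, h4, h5⟩ := hl.same r r' hr hr' hrr hq
      exact ⟨f i, hI i hi, ((hat.lk hi _).2 ⟨_, h4, rfl⟩).symm, (hat.lk hi _).2 ⟨_, h5, rfl⟩⟩
  have hfix : ∀ v, (∀ x, x < C.D.a + C.D.L → f x ≠ v) → ∀ w,
      mp f (C.D.a + C.D.L) C.fn w = mp f (C.D.a + C.D.L) C.fn v → w = v := by
    intro v hv w hw
    rw [hρ2 v hv] at hw
    by_cases h1 : ∃ x, x < C.D.a + C.D.L ∧ f x = w
    · obtain ⟨x, hx, rfl⟩ := h1
      rw [hρ1 x hx] at hw
      exact absurd hw (hv _ (hf.fn_lt x hx))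
    · rwa [hρ2 w (fun x hx hxu => h1 ⟨x, hx, hxu⟩)] at hw
  have hlab : ∀ r, r < C.D.L → ∀ w,
      mp f (C.D.a + C.D.L) C.fn w = mp f (C.D.a + C.D.L) C.fn (f (C.D.a + r)) →
      ∃ z, z < C.D.a + C.D.L ∧ w = f z ∧ C.fn z = C.fn (C.D.a + r) := by
    intro r hr w hw
    rw [hρ1 _ (by omega)] at hw
    by_cases h1 : ∃ x, x < C.D.a + C.D.L ∧ f x = w
    · obtain ⟨x, hx, rfl⟩ := h1
      rw [hρ1 x hx] at hw
      exact ⟨x, hx, rfl, hat.inj _ _ (hf.fn_lt x hx) (hf.fn_lt _ (by omega)) hw⟩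
    · rw [hρ2 w (fun x hx hxu => h1 ⟨x, hx, hxu⟩)] at hw
      exact absurd ⟨_, hf.fn_lt _ (by omega), hw.symm⟩ h1
  have hnear : ∀ r s, r < C.D.L → s < C.D.L → f (C.D.a + r) ∉ I → f (C.D.a + s) ∉ I →
      C.near r s = true → G.Adj (f (C.D.a + r)) (f (C.D.a + s)) ∨
      (∃ k ∈ I, G.Adj (f (C.D.a + r)) k ∧ G.Adj k (f (C.D.a + s))) ∨
      ∃ k ∈ I, ∃ l ∈ I, G.Adj (f (C.D.a + r)) k ∧ G.Adj k l ∧ G.Adj l (f (C.D.a + s)) := by
    intro r s hr hs h1 h2 hn
    unfold near com dist at hn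
    simp only [Bool.or_eq_true, Bool.and_eq_true, anyN_iff, mem1_iff, CData.beq_iff] at hn
    rcases hn with ((⟨i, hi, h3, h4⟩ | ⟨i, hi, h3, j, hj, h4, h5⟩) | ⟨r', hr', h3, h4⟩) |
      ⟨s', hs', h3, h4⟩
    · exact Or.inr (Or.inl ⟨f i, hI i hi, ((hat.lk hi _).2 ⟨_, h3, rfl⟩).symm,
        (hat.lk hi _).2 ⟨_, h4, rfl⟩⟩)
    · exact Or.inr (Or.inr ⟨f i, hI i hi, f j, hI j hj, ((hat.lk hi _).2 ⟨_, h3, rfl⟩).symm,
        (hat.lk hi _).2 ⟨_, h4, rfl⟩, (hat.lk hj _).2 ⟨_, h5, rfl⟩⟩)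
    · have h5 := hat.adj h.rot h.swap h.adj h4
      by_cases hrr : r = r'
      · rw [← hrr] at h5
        exact Or.inl h5
      · obtain ⟨h6, k, hk, h7, h8⟩ := hvia r r' hr hr' hrr h3.symm h1
        exact Or.inr (Or.inr ⟨k, hk, _, h6, h7, h8, h5⟩)
    · have h5 := hat.adj h.rot h.swap h.adj h4
      by_cases hss : s = s'
      · rw [← hss] at h5
        exact Or.inl h5
      · obtain ⟨h6, k, hk, h7, h8⟩ := hvia s s' hs hs' hss h3.symm h2
        exact Or.inr (Or.inr ⟨_, h6, k, hk, h5, h8.symm, h7.symm⟩)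
  refine ⟨mp f (C.D.a + C.D.L) C.fn, (range C.D.a).image f, ?_, ?_, ?_, hT, ?_, ?_, ?_, ?_⟩
  · intro v hv
    rw [mem_image] at hv
    obtain ⟨i, hi, rfl⟩ := hv
    exact hI i (mem_range.1 hi)
  · intro v hv
    rw [mem_image] at hv
    obtain ⟨u, hu, rfl⟩ := hv
    by_cases h1 : ∃ x, x < C.D.a + C.D.L ∧ f x = u
    · obtain ⟨x, hx, rfl⟩ := h1
      rw [hρ1 x hx]
      exact hlabS _ (hf.fn_lt x hx)
    · rw [hρ2 u (fun x hx hxu => h1 ⟨x, hx, hxu⟩)]
      exact hu
  · have := hp.pos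
    omega
  · -- vertices which are not near `K`
    intro v hv hk u
    have hv' : ∀ x, x < C.D.a + C.D.L → f x ≠ v := by
      intro x hx hxv
      rcases inner_or (C := C) x hx with h2 | ⟨r, hr, rfl⟩
      · exact hv (mem_image.2 ⟨x, mem_range.2 h2, hxv⟩)
      · obtain ⟨i, hi, hxi⟩ := hf.cov r hr
        apply hk (f i) (mem_image_of_mem _ (mem_range.2 hi))
        rw [← hxv]
        exact (hat.lk hi _).2 ⟨_, hxi, rfl⟩
    constructor
    · intro huv
      by_cases h1 : ∃ x, x < C.D.a + C.D.L ∧ f x = u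
      · obtain ⟨x, hx, rfl⟩ := h1
        rw [hρ1 x hx] at huv
        exact absurd huv (hv' _ (hf.fn_lt x hx))
      · rw [hρ2 u (fun x hx hxu => h1 ⟨x, hx, hxu⟩)] at huv
        exact huv
    · rintro rfl
      exact hρ2 _ hv'
  · -- two outer vertices are not merged
    intro u v hu hv huv
    rcases hcase u hu with ⟨r, hr, rfl⟩ | h1
    · rcases hcase v hv with ⟨s, hs, rfl⟩ | h2
      · rw [hρ1 _ (by omega), hρ1 _ (by omega)] at huv
        have h3 := hat.inj _ _ (hf.fn_lt _ (by omega)) (hf.fn_lt _ (by omega)) huv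
        rw [hsame r s hr hs (hcls r s hr hs h3) hu hv]
      · rw [hρ1 _ (by omega), hρ2 v h2] at huv
        exact absurd huv (h2 _ (hf.fn_lt _ (by omega)))
    · rcases hcase v hv with ⟨s, hs, rfl⟩ | h2
      · rw [hρ1 _ (by omega), hρ2 u h1] at huv
        exact absurd huv.symm (h1 _ (hf.fn_lt _ (by omega)))
      · rwa [hρ2 u h1, hρ2 v h2] at huv
  · -- outer vertices which become adjacent
    rintro u v hu hv ⟨hne, x, y, hx, hy, hxy⟩
    rcases hcase u hu with ⟨r, hr, rfl⟩ | h1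
    · rcases hcase v hv with ⟨s, hs, rfl⟩ | h2
      · obtain ⟨z, hz, rfl, hzr⟩ := hlab r hr x hx
        obtain ⟨w, hw, rfl, hws⟩ := hlab s hs y hy
        have hqrs : C.D.q r ≠ C.D.q s := by
          intro hq
          apply hne
          rw [hρ1 _ (by omega), hρ1 _ (by omega), hf.fnq r hr, hf.fnq s hs, hq]
        rcases hl.near r s hr hs hqrs with hn | ⟨hn1, hn2⟩
        · exact hnear r s hr hs hu hv hn
        · rcases inner_or (C := C) z hz with hz' | ⟨r', hr', rfl⟩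
          · obtain ⟨t, ht, htw⟩ := (hat.lk hz' _).1 hxy
            have h3 := hat.inj _ _ (hf.lk_lt z t hz' ht) hw htw
            subst h3
            exact absurd ⟨hzr, hws⟩ (hn1 z t hz' ht).1
          · rcases inner_or (C := C) w hw with hw' | ⟨s', hs', rfl⟩
            · obtain ⟨t, ht, htw⟩ := (hat.lk hw' _).1 hxy.symm
              have h3 := hat.inj _ _ (hf.lk_lt w t hw' ht) hz htw
              subst h3
              exact absurd ⟨hws, hzr⟩ (hn1 w _ hw' ht).2
            · have hq1 := hcls r' r hr' hr hzr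
              have hq2 := hcls s' s hs' hs hws
              by_cases hrr : r = r'
              · by_cases hss : s = s'
                · rw [hrr, hss]
                  exact Or.inl hxy
                · obtain ⟨h6, k, hk, h7, h8⟩ := hvia s s' hs hs' hss hq2.symm hv
                  rw [← hrr] at hxy
                  exact Or.inr (Or.inr ⟨_, h6, k, hk, hxy, h8.symm, h7.symm⟩)
              · by_cases hss : s = s'
                · obtain ⟨h6, k, hk, h7, h8⟩ := hvia r r' hr hr' hrr hq1.symm hu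
                  rw [← hss] at hxy
                  exact Or.inr (Or.inr ⟨k, hk, _, h6, h7, h8, hxy⟩)
                · exact absurd hxy (hat.na _ _ hz hw (hn2 r' s' hr' hs' hrr hss hq1 hq2))
      · obtain ⟨z, hz, rfl, hzr⟩ := hlab r hr x hx
        have h3 := hfix v h2 y hy
        subst h3
        rcases inner_or (C := C) z hz with hz' | ⟨r', hr', rfl⟩
        · obtain ⟨t, ht, htw⟩ := (hat.lk hz' _).1 hxy
          exact absurd htw (h2 t (hf.lk_lt z t hz' ht))
        · by_cases hrr : r = r'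
          · rw [hrr]
            exact Or.inl hxy
          · obtain ⟨h6, k, hk, h7, h8⟩ := hvia r r' hr hr' hrr (hcls r' r hr' hr hzr).symm hu
            exact Or.inr (Or.inr ⟨k, hk, _, h6, h7, h8, hxy⟩)
    · have h3 := hfix u h1 x hx
      subst h3
      rcases hcase v hv with ⟨s, hs, rfl⟩ | h2
      · obtain ⟨w, hw, rfl, hws⟩ := hlab s hs y hy
        rcases inner_or (C := C) w hw with hw' | ⟨s', hs', rfl⟩
        · obtain ⟨t, ht, htw⟩ := (hat.lk hw' _).1 hxy.symm
          exact absurd htw (h1 t (hf.lk_lt w t hw' ht))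
        · by_cases hss : s = s'
          · rw [hss]
            exact Or.inl hxy
          · obtain ⟨h6, k, hk, h7, h8⟩ := hvia s s' hs hs' hss (hcls s' s hs' hs hws).symm hv
            exact Or.inr (Or.inr ⟨_, h6, k, hk, hxy, h8.symm, h7.symm⟩)
      · have h4 := hfix v h2 y hy
        subst h4
        exact Or.inl hxy
  · -- colourings
    intro W M hW hM c' hc'
    obtain ⟨c, hc1, hc2⟩ := C.D.lift hD hf.q_lt G C.lnk C.fn C.rp f hf.fits ho W M
      (by
        intro x hx hxW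
        rcases inner_or (C := C) x hx with h2 | ⟨r, hr, rfl⟩
        · exact (hW _ hxW).1 (mem_image_of_mem _ (mem_range.2 h2))
        · obtain ⟨i, hi, hxi⟩ := hf.cov r hr
          exact (hW _ hxW).2 (f i) (mem_image_of_mem _ (mem_range.2 hi))
            ((hat.lk hi _).2 ⟨_, hxi, rfl⟩))
      (fun i hi hiM => hM _ hiM (hI i hi))
      (fun r s hr hs hq h1 h2 => hsame r s hr hs hq (hM _ h1) (hM _ h2)) c' hc'
    refine ⟨c, hc1, fun v hv => hc2 v fun i hi hiv => hv ?_⟩
    exact mem_image.2 ⟨i, mem_range.2 hi, hiv⟩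

/-- **The reduction given by a configuration**, Boolean form. -/
theorem hasRed [Fintype V] [DecidableEq V] (C : SCfg) (hD : C.D.conf.Red) (hfit : C.fitb = true)
    (hplan : C.planb = true) {na nc : ℕ → ℕ → Bool} (hleg : C.legb na nc = true) {χ : ℤ}
    {S I : Finset V} (h : TriOn χ S G T) (hR : Region S G T I) (hat : C.At na nc G T f)
    (hI : ∀ i, i < C.D.a → f i ∈ I) : HasRed χ S G T I :=
  hasRed_of C hD (C.fit_of hfit) (C.planFit_of hplan) (C.leg_of hleg) h hR hat hI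

end

end SCfg

end Pool.Agent.W986
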