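import Pool.Agent.W986.SubGlueFastB
import Pool.Agent.W986.SubGlue

/-!
# The checks of a configuration, fast version: soundness
-/

set_option autoImplicit false

namespace Pool.Agent.W986

namespace GF

theorem frc_eq {α : Type} (n : ℕ) (f : ℕ → α) : frc n f = f n := by
  cases n <;> rfl

theorem an_iff (b c : Bool) : an b c = true ↔ b = true ∧ c = true := by
  cases b <;> cases c <;> decide

theorem orb_iff (b c : Bool) : orb b c = true ↔ b = true ∨ c = true := by
  cases b <;> cases c <;> decide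

theorem nt_iff (b : Bool) : nt b = true ↔ ¬ b = true := by
  cases b <;> decide

theorem nt_iff' (b : Bool) : (Bool.rec true false b : Bool) = true ↔ ¬ b = true := by
  cases b <;> decide

theorem beq_iff (x y : ℕ) : Nat.beq x y = true ↔ x = y :=
  ⟨Nat.eq_of_beq_eq_true, fun h => h ▸ Nat.beq_refl x⟩

theorem blt_iff (x y : ℕ) : Nat.blt x y = true ↔ x < y := by
  rw [Nat.blt_eq]

theorem ble_iff (x y : ℕ) : Nat.ble x y = true ↔ x ≤ y := by
  rw [Nat.ble_eq]

theorem tb_eq (m i : ℕ) : tb m i = m.testBit i := by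
  unfold tb
  rw [Nat.testBit, Bool.eq_iff_iff, bne_iff_ne, beq_iff]
  change (m >>> i) &&& 1 = 1 ↔ 1 &&& (m >>> i) ≠ 0
  rw [Nat.and_comm 1, Nat.and_one_is_mod]
  omega

theorem tb_lor (m n i : ℕ) : tb (Nat.lor m n) i = true ↔ tb m i = true ∨ tb n i = true := by
  rw [tb_eq, tb_eq, tb_eq, ← Bool.or_eq_true]
  change (m ||| n).testBit i = true ↔ _
  rw [Nat.testBit_or]

theorem tb_zero (i : ℕ) : ¬ tb 0 i = true := by
  rw [tb_eq, Nat.zero_testBit]
  decide

theorem tb_sgl (i j : ℕ) : tb (sgl i) j = true ↔ i = j := by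
  rw [tb_eq]
  change (1 <<< i).testBit j = true ↔ _
  rw [Nat.testBit_shiftLeft, Bool.and_eq_true, decide_eq_true_eq,
    Nat.testBit_one_eq_true_iff_self_eq_zero]
  omega

theorem tb_land {m n : ℕ} (h : Nat.beq (Nat.land m n) m = true) {i : ℕ} (hi : tb m i = true) :
    tb n i = true := by
  rw [beq_iff] at h
  rw [tb_eq] at hi ⊢
  have h1 : (m &&& n).testBit i = true := by
    change (Nat.land m n).testBit i = true
    rw [h]
    exact hi
  rw [Nat.testBit_and, Bool.and_eq_true] at h1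
  exact h1.2

theorem ix_inj {x y x' y' : ℕ} (hy : y < 32) (hy' : y' < 32) (h : ix x y = ix x' y') :
    x = x' ∧ y = y' := by
  change 32 * x + y = 32 * x' + y' at h
  omega

theorem rall_iff {α : Type} (p : α → Bool) (l : List α) :
    rall p l = true ↔ ∀ x ∈ l, p x = true := by
  induction l with
  | nil => simp [rall]
  | cons y l ih =>
    change an (p y) (rall p l) = true ↔ _
    rw [an_iff, ih]
    simp

theorem nall_iff (p : ℕ → Bool) (n : ℕ) : nall p n = true ↔ ∀ i < n, p i = true := by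
  induction n with
  | zero => simp [nall]
  | succ n ih =>
    change an (p n) (nall p n) = true ↔ _
    rw [an_iff, ih]
    constructor
    · rintro ⟨h1, h2⟩ i hi
      by_cases h : i = n
      · rw [h]; exact h1
      · exact h2 i (by omega)
    · intro h
      exact ⟨h n (by omega), fun i hi => h i (by omega)⟩

theorem rlen_eq {α : Type} (l : List α) : rlen l = l.length := by
  induction l with
  | nil => rfl
  | cons y l ih =>
    change Nat.succ (rlen l) = _
    rw [ih, List.length_cons]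

theorem rget_eq (l : List ℕ) (i : ℕ) : rget l i = l.getD i 0 := by
  induction l generalizing i with
  | nil => rfl
  | cons y l ih =>
    cases i with
    | zero => rfl
    | succ i =>
      change rget l i = _
      rw [ih, List.getD_cons_succ]

theorem orm_iff {α : Type} (f : α → ℕ) (l : List α) (i : ℕ) :
    tb (orm f l) i = true ↔ ∃ x ∈ l, tb (f x) i = true := by
  induction l with
  | nil =>
    constructor
    · intro h
      exact absurd h (tb_zero i)
    · rintro ⟨x, hx, _⟩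
      exact absurd hx (List.not_mem_nil)
  | cons y l ih =>
    change tb (Nat.lor (f y) (orm f l)) i = true ↔ _
    rw [tb_lor, ih]
    simp

theorem app_mem {α β : Type} (g : α → β) (r : List β) (l : List α) (z : β) :
    z ∈ app g r l ↔ (∃ x ∈ l, g x = z) ∨ z ∈ r := by
  induction l with
  | nil =>
    change z ∈ r ↔ _
    simp
  | cons y l ih =>
    change z ∈ g y :: app g r l ↔ _
    rw [List.mem_cons, ih]
    simp only [List.mem_cons, exists_eq_or_imp]
    constructor
    · rintro (h | h | h)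
      · exact Or.inl (Or.inl h.symm)
      · exact Or.inl (Or.inr h)
      · exact Or.inr h
    · rintro ((h | h) | h)
      · exact Or.inl h.symm
      · exact Or.inr (Or.inl h)
      · exact Or.inr (Or.inr h)

theorem prs_mem (ls : List (List ℕ)) (k i x : ℕ) :
    (i, x) ∈ prs ls k ↔ ∃ j, j < ls.length ∧ i = k + j ∧ x ∈ lk ls j := by
  induction ls generalizing k with
  | nil =>
    change (i, x) ∈ [] ↔ _
    simp
  | cons l ls ih =>
    change (i, x) ∈ app (fun x => (k, x)) (prs ls (Nat.succ k)) l ↔ _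
    rw [app_mem, ih]
    constructor
    · rintro (⟨y, hy, h⟩ | ⟨j, hj, h, hx⟩)
      · rw [Prod.mk.injEq] at h
        refine ⟨0, by simp, by omega, ?_⟩
        rw [← h.2]
        exact hy
      · refine ⟨j + 1, by simpa using hj, by omega, ?_⟩
        exact hx
    · rintro ⟨j, hj, h, hx⟩
      cases j with
      | zero => exact Or.inl ⟨x, hx, by rw [h]; rfl⟩
      | succ j => exact Or.inr ⟨j, by simpa using hj, by omega, hx⟩

theorem cpt_mem (z : ℕ) (l : List ℕ) (p x y : ℕ) :
    (x, y) ∈ cpt z l p ↔ ∃ t, t ≤ l.length ∧ (p :: l).getD t 0 = x ∧ (l ++ [z]).getD t 0 = y := by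
  induction l generalizing p with
  | nil =>
    change (x, y) ∈ [(p, z)] ↔ _
    rw [List.mem_singleton, Prod.mk.injEq]
    constructor
    · rintro ⟨h1, h2⟩
      exact ⟨0, le_refl _, h1.symm, h2.symm⟩
    · rintro ⟨t, ht, h1, h2⟩
      have : t = 0 := by simpa using ht
      subst this
      exact ⟨h1.symm, h2.symm⟩
  | cons c l ih =>
    change (x, y) ∈ (p, c) :: cpt z l c ↔ _
    rw [List.mem_cons, ih, Prod.mk.injEq]
    constructor
    · rintro (⟨h1, h2⟩ | ⟨t, ht, h1, h2⟩)
      · exact ⟨0, by omega, h1.symm, h2.symm⟩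
      · refine ⟨t + 1, by rw [List.length_cons]; omega, ?_, ?_⟩
        · rw [List.getD_cons_succ]; exact h1
        · rw [List.cons_append, List.getD_cons_succ]; exact h2
    · rintro ⟨t, ht, h1, h2⟩
      cases t with
      | zero => exact Or.inl ⟨h1.symm, h2.symm⟩
      | succ t =>
        rw [List.getD_cons_succ] at h1
        rw [List.cons_append, List.getD_cons_succ] at h2
        rw [List.length_cons] at ht
        exact Or.inr ⟨t, by omega, h1, h2⟩

theorem cps_mem (l : List ℕ) (x y : ℕ) (h : (x, y) ∈ cps l) : consb l x y = true := by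
  cases l with
  | nil =>
    change (x, y) ∈ [] at h
    exact absurd h List.not_mem_nil
  | cons z l =>
    change (x, y) ∈ cpt z l z at h
    rw [cpt_mem] at h
    obtain ⟨t, ht, h1, h2⟩ := h
    unfold consb
    rw [anyN_iff]
    refine ⟨t, by rw [List.length_cons]; omega, ?_⟩
    rw [Bool.or_eq_true, Bool.and_eq_true, beq_iff, beq_iff]
    left
    unfold lab
    rw [List.length_cons, Nat.mod_eq_of_lt (by omega : t < l.length + 1)]
    refine ⟨h1, ?_⟩
    by_cases h3 : t = l.length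
    · rw [h3, Nat.mod_self, List.getD_cons_zero, ← h2, h3, List.getD_append_right _ _ _ _ le_rfl]
      simp
    · rw [Nat.mod_eq_of_lt (by omega), List.getD_cons_succ, ← h2,
        List.getD_append _ _ _ _ (by omega)]

theorem trs_mem (ls : List (List ℕ)) (k : ℕ) (i : ℕ) (p : ℕ × ℕ) :
    (i, p) ∈ trs ls k ↔ ∃ j, j < ls.length ∧ i = k + j ∧ p ∈ cps (lk ls j) := by
  induction ls generalizing k with
  | nil =>
    change (i, p) ∈ [] ↔ _
    simp
  | cons l ls ih =>
    change (i, p) ∈ app (fun p => (k, p)) (trs ls (Nat.succ k)) (cps l) ↔ _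
    rw [app_mem, ih]
    constructor
    · rintro (⟨y, hy, h⟩ | ⟨j, hj, h, hx⟩)
      · rw [Prod.mk.injEq] at h
        refine ⟨0, by simp, by omega, ?_⟩
        rw [← h.2]
        exact hy
      · refine ⟨j + 1, by simpa using hj, by omega, ?_⟩
        exact hx
    · rintro ⟨j, hj, h, hx⟩
      cases j with
      | zero => exact Or.inl ⟨p, hx, by rw [h]; rfl⟩
      | succ j => exact Or.inr ⟨j, by simpa using hj, by omega, hx⟩

end GF

namespace GF

theorem getD_mem {l : List ℕ} {i : ℕ} (h : i < l.length) : l.getD i 0 ∈ l := by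
  rw [List.getD_eq_getElem _ _ h]
  exact List.getElem_mem h

theorem lk_mem {ls : List (List ℕ)} {i : ℕ} (h : i < ls.length) : lk ls i ∈ ls := by
  unfold lk
  rw [List.getD_eq_getElem _ _ h]
  exact List.getElem_mem h

theorem nth_getD (l : List ℕ) (i : ℕ) : nth l i = l.getD i 0 := by
  induction l generalizing i with
  | nil => rfl
  | cons y l ih =>
    cases i with
    | zero => rfl
    | succ i =>
      change nth l i = _
      rw [ih, List.getD_cons_succ]

/-- The entries of the lists are small. -/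
def SmL (ls : List (List ℕ)) : Prop := ∀ l ∈ ls, ∀ x ∈ l, x < 32

theorem bLk_iff {ls : List (List ℕ)} (hs : SmL ls) {i x : ℕ} (hx : x < 32) :
    tb (bLk (prs ls 0)) (ix i x) = true ↔ i < ls.length ∧ x ∈ lk ls i := by
  unfold bLk
  rw [orm_iff]
  constructor
  · rintro ⟨⟨j, y⟩, hp, h⟩
    rw [tb_sgl] at h
    rw [prs_mem] at hp
    obtain ⟨j', h1, h2, h3⟩ := hp
    have h4 := hs _ (lk_mem h1) y h3
    obtain ⟨h5, h6⟩ := ix_inj h4 hx h
    have h7 : i = j' := by
      change j = i at h5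
      omega
    rw [h7, ← h6]
    exact ⟨h1, h3⟩
  · rintro ⟨h1, h2⟩
    refine ⟨(i, x), (prs_mem _ _ _ _).2 ⟨i, h1, by omega, h2⟩, ?_⟩
    rw [tb_sgl]

theorem bKl_iff {ls : List (List ℕ)} {i x : ℕ} (hl : ls.length ≤ 32) (hi : i < 32) :
    tb (bKl (prs ls 0)) (ix x i) = true ↔ i < ls.length ∧ x ∈ lk ls i := by
  unfold bKl
  rw [orm_iff]
  constructor
  · rintro ⟨⟨j, y⟩, hp, h⟩
    rw [tb_sgl] at h
    rw [prs_mem] at hp
    obtain ⟨j', h1, h2, h3⟩ := hp
    have h2' : j = j' := by omega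
    subst h2'
    obtain ⟨h5, h6⟩ := ix_inj (by change j < 32; omega) hi h
    change y = x at h5
    change j = i at h6
    rw [← h6, ← h5]
    exact ⟨h1, h3⟩
  · rintro ⟨h1, h2⟩
    refine ⟨(i, x), (prs_mem _ _ _ _).2 ⟨i, h1, by omega, h2⟩, ?_⟩
    rw [tb_sgl]

theorem consb_swap {l : List ℕ} {x y : ℕ} (h : consb l x y = true) : consb l y x = true := by
  unfold consb at h ⊢
  rw [anyN_iff] at h ⊢
  obtain ⟨t, ht, h⟩ := h
  refine ⟨t, ht, ?_⟩
  rw [Bool.or_eq_true, Bool.and_eq_true, Bool.and_eq_true] at h ⊢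
  exact h.symm

theorem consb_mem {l : List ℕ} {x y : ℕ} (h : consb l x y = true) : x ∈ l ∧ y ∈ l := by
  unfold consb at h
  rw [anyN_iff] at h
  obtain ⟨t, ht, h⟩ := h
  rw [Bool.or_eq_true, Bool.and_eq_true, Bool.and_eq_true, beq_iff, beq_iff, beq_iff, beq_iff] at h
  have hl : 0 < l.length := by omega
  rcases h with ⟨h1, h2⟩ | ⟨h1, h2⟩
  · rw [← h1, ← h2]
    exact ⟨mem_lab t hl, mem_lab (t + 1) hl⟩
  · rw [← h1, ← h2]
    exact ⟨mem_lab (t + 1) hl, mem_lab t hl⟩

theorem bCo_of {ls : List (List ℕ)} (hs : SmL ls) {x y : ℕ} (hy : y < 32)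
    (h : tb (bCo (trs ls 0)) (ix x y) = true) :
    ∃ i, i < ls.length ∧ consb (lk ls i) x y = true := by
  unfold bCo at h
  rw [orm_iff] at h
  obtain ⟨⟨i, p, q⟩, hp, h⟩ := h
  rw [trs_mem] at hp
  obtain ⟨j, h1, h2, h3⟩ := hp
  have h4 := cps_mem _ _ _ h3
  have h5 := consb_mem h4
  have h6 := hs _ (lk_mem h1) _ h5.1
  have h7 := hs _ (lk_mem h1) _ h5.2
  rw [tb_lor, tb_sgl, tb_sgl] at h
  rcases h with h | h
  · obtain ⟨h8, h9⟩ := ix_inj h7 hy h
    change p = x at h8
    change q = y at h9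
    rw [h8, h9] at h4
    exact ⟨j, h1, h4⟩
  · obtain ⟨h8, h9⟩ := ix_inj h6 hy h
    change q = x at h8
    change p = y at h9
    rw [h8, h9] at h4
    exact ⟨j, h1, consb_swap h4⟩

theorem bTr_of {ls : List (List ℕ)} (hs : SmL ls) {i x y : ℕ} (hx : x < 32) (hy : y < 32)
    (h : tb (bTr (trs ls 0)) (ix (ix i x) y) = true) :
    i < ls.length ∧ consb (lk ls i) x y = true := by
  unfold bTr at h
  rw [orm_iff] at h
  obtain ⟨⟨i', p, q⟩, hp, h⟩ := h
  rw [trs_mem] at hp
  obtain ⟨j, h1, h2, h3⟩ := hp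
  have h4 := cps_mem _ _ _ h3
  have h5 := consb_mem h4
  have h6 := hs _ (lk_mem h1) _ h5.1
  have h7 := hs _ (lk_mem h1) _ h5.2
  rw [tb_lor, tb_sgl, tb_sgl] at h
  rcases h with h | h
  · obtain ⟨h8, h9⟩ := ix_inj h7 hy h
    obtain ⟨h10, h11⟩ := ix_inj h6 hx h8
    change i' = i at h10
    change p = x at h11
    change q = y at h9
    have h12 : i = j := by omega
    rw [h11, h9] at h4
    rw [h12]
    exact ⟨h1, h4⟩
  · obtain ⟨h8, h9⟩ := ix_inj h6 hy h
    obtain ⟨h10, h11⟩ := ix_inj h7 hx h8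
    change i' = i at h10
    change q = x at h11
    change p = y at h9
    have h12 : i = j := by omega
    rw [h11, h9] at h4
    rw [h12]
    exact ⟨h1, consb_swap h4⟩

theorem tb_shl (m k i : ℕ) : tb (Nat.shiftLeft m k) i = true ↔ k ≤ i ∧ tb m (i - k) = true := by
  rw [tb_eq, tb_eq]
  change (m <<< k).testBit i = true ↔ _
  rw [Nat.testBit_shiftLeft, Bool.and_eq_true, decide_eq_true_eq]

theorem cat_iff {l : List ℕ} (hl : ∀ m ∈ l, m < 2 ^ 32) {i j : ℕ} (hj : j < 32) :
    tb (cat l) (ix i j) = true ↔ tb (l.getD i 0) j = true := by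
  induction l generalizing i with
  | nil =>
    rw [List.getD_nil]
    constructor
    · intro h
      exact absurd h (tb_zero _)
    · intro h
      exact absurd h (tb_zero _)
  | cons m l ih =>
    change tb (Nat.lor m (Nat.shiftLeft (cat l) 32)) (ix i j) = true ↔ _
    rw [tb_lor, tb_shl]
    cases i with
    | zero =>
      rw [List.getD_cons_zero]
      have h1 : ix 0 j = j := by
        change 32 * 0 + j = j
        omega
      rw [h1]
      constructor
      · rintro (h | h)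
        · exact h
        · omega
      · exact Or.inl
    | succ i =>
      rw [List.getD_cons_succ, ← ih (fun m hm => hl m (List.mem_cons_of_mem _ hm))]
      have h1 : ix (i + 1) j - 32 = ix i j := by
        change 32 * (i + 1) + j - 32 = 32 * i + j
        omega
      have h2 : 32 ≤ ix (i + 1) j := by
        change 32 ≤ 32 * (i + 1) + j
        omega
      rw [h1]
      constructor
      · rintro (h | h)
        · exfalso
          rw [tb_eq] at h
          have h3 := hl m List.mem_cons_self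
          have h4 : m < 2 ^ ix (i + 1) j := lt_of_lt_of_le h3 (Nat.pow_le_pow_right (by omega) h2)
          rw [Nat.testBit_lt_two_pow h4] at h
          exact Bool.noConfusion h
        · exact h.2
      · intro h
        exact Or.inr ⟨h2, h⟩

theorem bQ_iff {fin : List ℕ} (hf : ∀ x, fin.getD x 0 < 32) {ls : List (List ℕ)} {A B : ℕ}
    (hB : B < 32) : tb (bQ fin (prs ls 0)) (ix A B) = true ↔
      ∃ i x, i < ls.length ∧ x ∈ lk ls i ∧ ((fin.getD i 0 = A ∧ fin.getD x 0 = B) ∨
        (fin.getD i 0 = B ∧ fin.getD x 0 = A)) := by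
  unfold bQ
  rw [orm_iff]
  constructor
  · rintro ⟨⟨i, x⟩, hp, h⟩
    rw [prs_mem] at hp
    obtain ⟨j, h1, h2, h3⟩ := hp
    have h2' : i = j := by omega
    subst h2'
    rw [frc_eq, frc_eq, rget_eq, rget_eq, tb_lor, tb_sgl, tb_sgl] at h
    refine ⟨i, x, h1, h3, ?_⟩
    rcases h with h | h
    · obtain ⟨h4, h5⟩ := ix_inj (hf _) hB h
      exact Or.inl ⟨h4, h5⟩
    · obtain ⟨h4, h5⟩ := ix_inj (hf _) hB h
      exact Or.inr ⟨h5, h4⟩
  · rintro ⟨i, x, h1, h3, h⟩
    refine ⟨(i, x), (prs_mem _ _ _ _).2 ⟨i, h1, by omega, h3⟩, ?_⟩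
    rw [frc_eq, frc_eq, rget_eq, rget_eq, tb_lor, tb_sgl, tb_sgl]
    rcases h with ⟨h4, h5⟩ | ⟨h4, h5⟩
    · left
      change ix (fin.getD i 0) (fin.getD x 0) = _
      rw [h4, h5]
    · right
      change ix (fin.getD x 0) (fin.getD i 0) = _
      rw [h4, h5]

end GF

namespace SCfg

open GF

variable {C : SCfg}

/-- The contents of `szF`. -/
structure Szs (C : SCfg) : Prop where
  a : C.P.a = C.D.a
  N : C.P.N = C.D.a + C.D.L
  le : C.D.a + C.D.L ≤ 32
  links : C.links.length = C.D.a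
  fin : C.P.fin.length = C.D.a + C.D.L
  cl : C.D.cl.length = C.D.L
  rep : C.rep.length = C.D.k
  nb : C.P.nb.length = C.D.a + C.D.L
  fin_lt : ∀ x ∈ C.P.fin, x < C.D.a + C.D.L
  cl_lt : ∀ x ∈ C.D.cl, x < C.D.k
  rep_lt : ∀ x ∈ C.rep, x < C.D.a + C.D.L
  nb_lt : ∀ m ∈ C.P.nb, 0 < m ∧ m < 2 ^ (C.D.a + C.D.L)
  lk_lt : ∀ l ∈ C.links, ∀ x ∈ l, x < C.D.a + C.D.L

theorem szs_of (h : C.szF C.D.a C.D.L (C.D.a + C.D.L) C.D.k = true) : Szs C := by
  unfold szF at h
  simp only [an_iff, beq_iff, ble_iff, blt_iff, rall_iff, rlen_eq] at h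
  obtain ⟨h1, h2, h3, h4, h5, h6, h7, h8, h9, h10, h11, h12, h13⟩ := h
  refine ⟨h1, h2, h3, h4, h5, h6, h7, h8, h9, h10, h11, ?_, h13⟩
  intro m hm
  obtain ⟨h14, h15⟩ := h12 m hm
  change m < 1 <<< (C.D.a + C.D.L) at h15
  rw [Nat.one_shiftLeft] at h15
  exact ⟨h14, h15⟩

theorem Szs.small (h : Szs C) : SmL C.links := by
  intro l hl x hx
  have h1 := h.lk_lt l hl x hx
  have h2 := h.le
  omega

theorem Szs.fn_lt (h : Szs C) {x : ℕ} (hx : x < C.D.a + C.D.L) :
    C.P.fin.getD x 0 < C.D.a + C.D.L :=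
  h.fin_lt _ (getD_mem (by rw [h.fin]; exact hx))

theorem Szs.fn32 (h : Szs C) (x : ℕ) : C.P.fin.getD x 0 < 32 := by
  have h2 := h.le
  by_cases hx : x < C.P.fin.length
  · have h1 := h.fin_lt _ (getD_mem hx)
    omega
  · rw [List.getD_eq_default _ _ (by omega)]
    omega

theorem Szs.rp32 (h : Szs C) (x : ℕ) : C.rep.getD x 0 < 32 := by
  have h2 := h.le
  by_cases hx : x < C.rep.length
  · have h1 := h.rep_lt _ (getD_mem hx)
    omega
  · rw [List.getD_eq_default _ _ (by omega)]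
    omega

theorem Szs.lnk_lt (h : Szs C) {i x : ℕ} (hi : i < C.D.a) (hx : x ∈ C.lnk i) :
    x < C.D.a + C.D.L :=
  h.lk_lt _ (lk_mem (by rw [h.links]; exact hi)) x hx

/-- The contents of the fast checks of the data. -/
theorem fit_of_fast (hz : Szs C) (hc : C.clF C.D.a C.D.L C.D.k = true)
    (hl : C.liF C.D.a C.D.L C.D.k (bLk (prs C.links 0)) (bCo (trs C.links 0))
      (bQ C.P.fin (prs C.links 0)) (orm (fun p => sgl p.2) (prs C.links 0)) = true) : C.Fit := by
  have hle := hz.le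
  unfold clF at hc
  simp only [an_iff, nall_iff, frc_eq, beq_iff, rget_eq, nt_iff'] at hc
  obtain ⟨hc1, hc2⟩ := hc
  unfold liF at hl
  simp only [an_iff, nall_iff, rall_iff, beq_iff, blt_iff, rget_eq, nt_iff'] at hl
  obtain ⟨hl1, hl2, hl3, hl4, hl5, hl6⟩ := hl
  have hB : ∀ i x, x < 32 → (tb (bLk (prs C.links 0)) (ix i x) = true ↔
      i < C.D.a ∧ x ∈ C.lnk i) := by
    intro i x hx
    rw [bLk_iff hz.small hx, hz.links]
    rfl
  have hor : ∀ i x, x < 32 → ((∃ p ∈ C.D.inn, ix p.1 p.2 = ix i x) ∨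
      (∃ p ∈ C.D.mix, ix p.1 (C.D.a + p.2) = ix i x) ↔ i < C.D.a ∧ x ∈ C.lnk i) := by
    intro i x hx
    rw [← hB i x hx, ← hl1, tb_lor, orm_iff, orm_iff]
    simp only [tb_sgl]
    rfl
  refine ⟨hz.a, hz.N, ?_, ?_, ?_, ?_, ?_, ?_, ?_, ?_, ?_, ?_, ?_⟩
  · intro r hr
    unfold KData.q
    rw [nth_getD]
    exact hz.cl_lt _ (getD_mem (by rw [hz.cl]; exact hr))
  · intro r hr
    unfold KData.q
    rw [nth_getD]
    exact hc1 r hr
  · intro A hA
    exact hz.rep_lt _ (getD_mem (by rw [hz.rep]; exact hA))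
  · intro A B hA hB hAB
    unfold rp at hAB
    rcases Nat.lt_trichotomy A B with h | h | h
    · exact absurd hAB (hc2 B hB A h)
    · exact h
    · exact absurd hAB.symm (hc2 A hA B h)
  · intro x hx
    exact hz.fn_lt hx
  · intro i x hi hx
    exact hz.lnk_lt hi hx
  · intro i j hi hj
    constructor
    · intro h
      exact ((hor i j (by omega)).1 (Or.inl ⟨(i, j), h, rfl⟩)).2
    · intro h
      rcases (hor i j (by omega)).2 ⟨hi, h⟩ with ⟨p, hp, h1⟩ | ⟨p, hp, h1⟩
      · have h2 := hl2 p hp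
        obtain ⟨h3, h4⟩ := ix_inj (by omega) (by omega) h1
        obtain ⟨p1, p2⟩ := p
        change p1 = i at h3
        change p2 = j at h4
        rw [h3, h4] at hp
        exact hp
      · exfalso
        have h2 := hl3 p hp
        obtain ⟨h3, h4⟩ := ix_inj (by omega) (by omega) h1
        omega
  · intro i r hi hr
    constructor
    · intro h
      exact ((hor i (C.D.a + r) (by omega)).1 (Or.inr ⟨(i, r), h, rfl⟩)).2
    · intro h
      rcases (hor i (C.D.a + r) (by omega)).2 ⟨hi, h⟩ with ⟨p, hp, h1⟩ | ⟨p, hp, h1⟩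
      · exfalso
        have h2 := hl2 p hp
        obtain ⟨h3, h4⟩ := ix_inj (by omega) (by omega) h1
        omega
      · have h2 := hl3 p hp
        obtain ⟨h3, h4⟩ := ix_inj (by omega) (by omega) h1
        obtain ⟨p1, p2⟩ := p
        change p1 = i at h3
        change C.D.a + p2 = C.D.a + r at h4
        rw [h3, show p2 = r by omega] at hp
        exact hp
  · intro r s hrs
    obtain ⟨h1, h2⟩ := hl4 (r, s) hrs
    change s < C.D.L at h1
    change tb (bCo (trs C.links 0)) (ix (C.D.a + r) (C.D.a + s)) = true at h2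
    obtain ⟨i, h3, h4⟩ := bCo_of hz.small (by omega) h2
    rw [hz.links] at h3
    exact ⟨i, h3, h4⟩
  · intro r hr
    have h1 := hl5 r hr
    rw [orm_iff] at h1
    obtain ⟨⟨i, x⟩, hp, h2⟩ := h1
    rw [tb_sgl] at h2
    rw [prs_mem] at hp
    obtain ⟨j, h3, h4, h5⟩ := hp
    rw [hz.links] at h3
    change x = C.D.a + r at h2
    rw [h2] at h5
    exact ⟨j, h3, h5⟩
  · intro A B hAB
    obtain ⟨h1, h2, h3⟩ := hl6 (A, B) hAB
    change ¬ A = B at h2
    change tb _ (ix (C.rep.getD A 0) (C.rep.getD B 0)) = true at h3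
    rw [bQ_iff hz.fn32 (hz.rp32 B), hz.links] at h3
    obtain ⟨i, x, h4, h5, h6⟩ := h3
    exact ⟨h2, i, x, h4, h5, h6⟩

end SCfg

namespace GF

theorem cps_of_consb {l : List ℕ} {x y : ℕ} (h : consb l x y = true) :
    (x, y) ∈ cps l ∨ (y, x) ∈ cps l := by
  have key : ∀ t, t < l.length → (lab l t, lab l (t + 1)) ∈ cps l := by
    intro t ht
    cases l with
    | nil => exact absurd ht (by simp)
    | cons z l =>
      change _ ∈ cpt z l z
      rw [cpt_mem]
      rw [List.length_cons] at ht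
      refine ⟨t, by omega, ?_, ?_⟩
      · unfold lab
        rw [List.length_cons, Nat.mod_eq_of_lt ht]
      · unfold lab
        rw [List.length_cons]
        by_cases h3 : t = l.length
        · rw [h3, Nat.mod_self, List.getD_cons_zero, List.getD_append_right _ _ _ _ le_rfl]
          simp
        · rw [Nat.mod_eq_of_lt (by omega), List.getD_cons_succ,
            List.getD_append _ _ _ _ (by omega)]
  unfold consb at h
  rw [anyN_iff] at h
  obtain ⟨t, ht, h⟩ := h
  rw [Bool.or_eq_true, Bool.and_eq_true, Bool.and_eq_true, beq_iff, beq_iff, beq_iff, beq_iff] at h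
  have h1 := key t ht
  rcases h with ⟨h2, h3⟩ | ⟨h2, h3⟩
  · rw [h2, h3] at h1
    exact Or.inl h1
  · rw [h2, h3] at h1
    exact Or.inr h1

theorem cps_of_mem {l : List ℕ} {x : ℕ} (h : x ∈ l) : ∃ y, (x, y) ∈ cps l := by
  obtain ⟨t, ht, h1⟩ := lab_mem h
  have h2 : consb l x (lab l (t + 1)) = true := by
    unfold consb
    rw [anyN_iff]
    refine ⟨t, ht, ?_⟩
    rw [Bool.or_eq_true, Bool.and_eq_true, beq_iff, beq_iff]
    exact Or.inl ⟨h1, rfl⟩
  cases l with
  | nil => exact absurd ht (by simp)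
  | cons z l =>
    refine ⟨(l ++ [z]).getD t 0, ?_⟩
    change _ ∈ cpt z l z
    rw [cpt_mem]
    rw [List.length_cons] at ht
    refine ⟨t, by omega, ?_, rfl⟩
    unfold lab at h1
    rw [List.length_cons, Nat.mod_eq_of_lt ht] at h1
    exact h1

theorem orX_iff (x : ℕ) (nb σ : List ℕ) (j : ℕ) : tb (orX x nb σ) j = true ↔
    ∃ l, l < nb.length ∧ l < σ.length ∧ σ.getD l 0 = x ∧ tb (nb.getD l 0) j = true := by
  induction nb generalizing σ with
  | nil =>
    constructor
    · intro h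
      exact absurd h (tb_zero j)
    · rintro ⟨l, h, _⟩
      exact absurd h (by simp)
  | cons m nb ih =>
    cases σ with
    | nil =>
      constructor
      · intro h
        exact absurd h (tb_zero j)
      · rintro ⟨l, _, h, _⟩
        exact absurd h (by simp)
    | cons c t =>
      have h0 : orX x (m :: nb) (c :: t) =
          (Bool.rec (orX x nb t) (Nat.lor m (orX x nb t)) (Nat.beq c x) : ℕ) := rfl
      rw [h0]
      have hrec : (∃ l, l < nb.length ∧ l < t.length ∧ t.getD l 0 = x ∧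
          tb (nb.getD l 0) j = true) → ∃ l, l < (m :: nb).length ∧ l < (c :: t).length ∧
          (c :: t).getD l 0 = x ∧ tb ((m :: nb).getD l 0) j = true := by
        rintro ⟨l, h1, h2, h3, h4⟩
        refine ⟨l + 1, by rw [List.length_cons]; omega, by rw [List.length_cons]; omega, ?_, ?_⟩
        · rw [List.getD_cons_succ]; exact h3
        · rw [List.getD_cons_succ]; exact h4
      cases hb : Nat.beq c x with
      | true =>
        change tb (Nat.lor m (orX x nb t)) j = true ↔ _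
        rw [beq_iff] at hb
        rw [tb_lor, ih]
        constructor
        · rintro (h | h)
          · exact ⟨0, by simp, by simp, hb, h⟩
          · exact hrec h
        · rintro ⟨l, h1, h2, h3, h4⟩
          cases l with
          | zero => exact Or.inl h4
          | succ l =>
            rw [List.length_cons] at h1 h2
            rw [List.getD_cons_succ] at h3 h4
            exact Or.inr ⟨l, by omega, by omega, h3, h4⟩
      | false =>
        change tb (orX x nb t) j = true ↔ _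
        rw [ih]
        constructor
        · exact hrec
        · rintro ⟨l, h1, h2, h3, h4⟩
          cases l with
          | zero =>
            change c = x at h3
            rw [← beq_iff, hb] at h3
            exact Bool.noConfusion h3
          | succ l =>
            rw [List.length_cons] at h1 h2
            rw [List.getD_cons_succ] at h3 h4
            exact ⟨l, by omega, by omega, h3, h4⟩

theorem clsOf_iff (σ : List ℕ) (m c : ℕ) : tb (clsOf σ m) c = true ↔
    ∃ l, l < σ.length ∧ tb m l = true ∧ σ.getD l 0 = c := by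
  induction σ generalizing m with
  | nil =>
    constructor
    · intro h
      exact absurd h (tb_zero c)
    · rintro ⟨l, h, _⟩
      exact absurd h (by simp)
  | cons d t ih =>
    have h0 : clsOf (d :: t) m = frc (Nat.div m 2) fun m' =>
        (Bool.rec (clsOf t m') (Nat.lor (sgl d) (clsOf t m')) (Nat.beq (Nat.mod m 2) 1) : ℕ) := rfl
    rw [h0, frc_eq]
    have hdiv : ∀ l, tb (Nat.div m 2) l = tb m (l + 1) := by
      intro l
      rw [tb_eq, tb_eq]
      change (m / 2).testBit l = _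
      rw [Nat.testBit_succ]
    have hmod : Nat.beq (Nat.mod m 2) 1 = tb m 0 := by
      rw [tb_eq, Bool.eq_iff_iff, beq_iff, Nat.testBit_zero, decide_eq_true_eq]
      rfl
    have hrec : (∃ l, l < t.length ∧ tb (Nat.div m 2) l = true ∧ t.getD l 0 = c) →
        ∃ l, l < (d :: t).length ∧ tb m l = true ∧ (d :: t).getD l 0 = c := by
      rintro ⟨l, h1, h2, h3⟩
      rw [hdiv] at h2
      exact ⟨l + 1, by rw [List.length_cons]; omega, h2, by rw [List.getD_cons_succ]; exact h3⟩
    rw [hmod]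
    cases hb : tb m 0 with
    | true =>
      change tb (Nat.lor (sgl d) (clsOf t (Nat.div m 2))) c = true ↔ _
      rw [tb_lor, tb_sgl, ih]
      constructor
      · rintro (h | h)
        · exact ⟨0, by simp, hb, h⟩
        · exact hrec h
      · rintro ⟨l, h1, h2, h3⟩
        cases l with
        | zero => exact Or.inl h3
        | succ l =>
          rw [List.length_cons] at h1
          rw [List.getD_cons_succ] at h3
          rw [← hdiv] at h2
          exact Or.inr ⟨l, by omega, h2, h3⟩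
    | false =>
      change tb (clsOf t (Nat.div m 2)) c = true ↔ _
      rw [ih]
      constructor
      · exact hrec
      · rintro ⟨l, h1, h2, h3⟩
        cases l with
        | zero =>
          rw [hb] at h2
          exact Bool.noConfusion h2
        | succ l =>
          rw [List.length_cons] at h1
          rw [List.getD_cons_succ] at h3
          rw [← hdiv] at h2
          exact ⟨l, by omega, h2, h3⟩

theorem c3_iff (b : Bool) (z r i : ℕ) : tb (c3 b z r) i = true ↔
    (b = true ∧ z = i) ∨ tb r i = true := by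
  cases b with
  | true =>
    change tb (Nat.lor (sgl z) r) i = true ↔ _
    rw [tb_lor, tb_sgl]
    simp
  | false =>
    change tb r i = true ↔ _
    simp

theorem thirds_of (x y z : ℕ) (τ : List (ℕ × ℕ × ℕ)) (h : tb (thirds x y τ) z = true) :
    ∃ t ∈ τ, (t.1 = x ∧ t.2.1 = y ∧ t.2.2 = z) ∨ (t.1 = x ∧ t.2.2 = y ∧ t.2.1 = z) ∨
      (t.2.1 = x ∧ t.1 = y ∧ t.2.2 = z) ∨ (t.2.1 = x ∧ t.2.2 = y ∧ t.1 = z) ∨
      (t.2.2 = x ∧ t.1 = y ∧ t.2.1 = z) ∨ (t.2.2 = x ∧ t.2.1 = y ∧ t.1 = z) := by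
  induction τ with
  | nil => exact absurd h (tb_zero z)
  | cons t τ ih =>
    have h0 : thirds x y (t :: τ) =
      c3 (orb (an (Nat.beq t.1 x) (Nat.beq t.2.1 y)) (an (Nat.beq t.1 y) (Nat.beq t.2.1 x))) t.2.2
      (c3 (orb (an (Nat.beq t.1 x) (Nat.beq t.2.2 y)) (an (Nat.beq t.1 y) (Nat.beq t.2.2 x))) t.2.1
      (c3 (orb (an (Nat.beq t.2.1 x) (Nat.beq t.2.2 y)) (an (Nat.beq t.2.1 y) (Nat.beq t.2.2 x)))
        t.1 (thirds x y τ))) := rfl
    rw [h0] at h
    simp only [c3_iff, orb_iff, an_iff, beq_iff] at h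
    rcases h with ⟨h1 | h1, h2⟩ | ⟨h1 | h1, h2⟩ | ⟨h1 | h1, h2⟩ | h
    · exact ⟨t, List.mem_cons_self, Or.inl ⟨h1.1, h1.2, h2⟩⟩
    · exact ⟨t, List.mem_cons_self, Or.inr (Or.inr (Or.inl ⟨h1.2, h1.1, h2⟩))⟩
    · exact ⟨t, List.mem_cons_self, Or.inr (Or.inl ⟨h1.1, h1.2, h2⟩)⟩
    · exact ⟨t, List.mem_cons_self, Or.inr (Or.inr (Or.inr (Or.inr (Or.inl ⟨h1.2, h1.1, h2⟩))))⟩
    · exact ⟨t, List.mem_cons_self, Or.inr (Or.inr (Or.inr (Or.inl ⟨h1.1, h1.2, h2⟩)))⟩
    · exact ⟨t, List.mem_cons_self, Or.inr (Or.inr (Or.inr (Or.inr (Or.inr ⟨h1.2, h1.1, h2⟩))))⟩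
    · obtain ⟨s, hs, h1⟩ := ih h
      exact ⟨s, List.mem_cons_of_mem _ hs, h1⟩

theorem mv_eq (x y c : ℕ) : mv x y c = bif Nat.beq c y then x else c := by
  unfold mv
  cases Nat.beq c y <;> rfl

theorem mvl_eq (x y : ℕ) (σ : List ℕ) : mvl x y σ = σ.map fun c => bif Nat.beq c y then x else c := by
  induction σ with
  | nil => rfl
  | cons c σ ih =>
    change (frc (mv x y c) fun c' => c' :: mvl x y σ) = _
    rw [frc_eq, ih, List.map_cons, mv_eq]

theorem mvt_eq (x y : ℕ) (τ : List (ℕ × ℕ × ℕ)) : mvt x y τ = τ.map fun t =>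
    (mv x y t.1, mv x y t.2.1, mv x y t.2.2) := by
  induction τ with
  | nil => rfl
  | cons t τ ih =>
    change (frc (mv x y t.1) fun p => frc (mv x y t.2.1) fun q =>
      frc (mv x y t.2.2) fun r => (p, q, r) :: mvt x y τ) = _
    rw [frc_eq, frc_eq, frc_eq, ih, List.map_cons]

theorem eql_iff (l m : List ℕ) : eql l m = true ↔ l = m := by
  induction l generalizing m with
  | nil =>
    cases m with
    | nil => exact ⟨fun _ => rfl, fun _ => rfl⟩
    | cons y t =>
      constructor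
      · intro h
        exact Bool.noConfusion h
      · intro h
        exact List.noConfusion rfl (heq_of_eq h)
  | cons x l ih =>
    cases m with
    | nil =>
      constructor
      · intro h
        exact Bool.noConfusion h
      · intro h
        exact absurd h (by simp)
    | cons y t =>
      change an (Nat.beq x y) (eql l t) = true ↔ _
      rw [an_iff, beq_iff, ih, List.cons.injEq]

theorem upto_eq (n k : ℕ) : upto n k = List.range' k n := by
  induction n generalizing k with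
  | zero => rfl
  | succ n ih =>
    change (frc k fun k => k :: upto n (Nat.succ k)) = _
    rw [frc_eq, ih, List.range'_succ]

end GF

namespace SCfg

open GF

variable {C : SCfg}

theorem stepF_ok {P : Plan} (hnb : P.nb.length = P.N) {σ : List ℕ} {τ : List (ℕ × ℕ × ℕ)}
    (hσ : σ.length = P.N)
    (hτ : τ = P.tri.map fun t => (σ.getD t.1 0, σ.getD t.2.1 0, σ.getD t.2.2 0)) {x y : ℕ}
    (h : stepF P σ τ x y = true) : P.stepOK σ x y = true := by
  unfold stepF at h
  simp only [an_iff, nt_iff', beq_iff, blt_iff, rget_eq, frc_eq] at h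
  obtain ⟨h1, h2, h3, h4, h5, h6⟩ := h
  have hX : ∀ z j, (Plan.nbm P.nb σ z 0 P.N).testBit j = true ↔ tb (orX z P.nb σ) j = true := by
    intro z j
    rw [Plan.nbm_iff, orX_iff]
    constructor
    · rintro ⟨l, _, h7, h8, h9⟩
      exact ⟨l, by omega, by omega, h8, by rw [tb_eq]; exact h9⟩
    · rintro ⟨l, h7, h7', h8, h9⟩
      exact ⟨l, by omega, by omega, h8, by rw [tb_eq] at h9; exact h9⟩
  unfold Plan.stepOK
  simp only [Bool.and_eq_true, Bool.not_eq_true', Nat.blt_eq, List.any_eq_true, List.all_eq_true,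
    List.mem_range, Bool.or_eq_true, Nat.beq_eq]
  refine ⟨⟨⟨⟨⟨?_, h2⟩, h3⟩, h4⟩, ?_⟩, ?_⟩
  · rw [← Bool.not_eq_true, Nat.beq_eq]
    exact h1
  · rw [clsOf_iff] at h5
    obtain ⟨l, h7, h8, h9⟩ := h5
    exact ⟨l, by omega, h9, (hX x l).2 h8⟩
  · intro l hl
    by_cases hlx : σ.getD l 0 = x
    · exact Or.inl (Or.inl (Or.inl hlx))
    by_cases hly : σ.getD l 0 = y
    · exact Or.inl (Or.inl (Or.inr hly))
    by_cases hlX : (Plan.nbm P.nb σ x 0 P.N).testBit l = true
    · right
      intro l' hl'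
      by_cases hll : σ.getD l' 0 = σ.getD l 0
      · by_cases hlY : (Plan.nbm P.nb σ y 0 P.N).testBit l' = true
        · right
          have h7 : tb (clsOf σ (orX x P.nb σ)) (σ.getD l 0) = true :=
            (clsOf_iff _ _ _).2 ⟨l, by omega, (hX x l).1 hlX, rfl⟩
          have h8 : tb (clsOf σ (orX y P.nb σ)) (σ.getD l 0) = true :=
            (clsOf_iff _ _ _).2 ⟨l', by omega, (hX y l').1 hlY, hll⟩
          have h9 : tb (Nat.land (clsOf σ (orX x P.nb σ)) (clsOf σ (orX y P.nb σ)))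
              (σ.getD l 0) = true := by
            rw [tb_eq] at h7 h8 ⊢
            change ((clsOf σ (orX x P.nb σ)) &&& (clsOf σ (orX y P.nb σ))).testBit _ = true
            rw [Nat.testBit_and, h7, h8]
            rfl
          have h10 := tb_land ((beq_iff _ _).2 h6) h9
          rw [tb_lor, tb_lor, tb_sgl, tb_sgl] at h10
          rcases h10 with h10 | h10 | h10
          · obtain ⟨t, ht, h11⟩ := thirds_of _ _ _ _ h10
            rw [hτ, List.mem_map] at ht
            obtain ⟨s, hs, rfl⟩ := ht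
            unfold Plan.triOK
            rw [List.any_eq_true]
            refine ⟨s, hs, ?_⟩
            simp only [Bool.or_eq_true, Bool.and_eq_true, Nat.beq_eq]
            rcases h11 with h | h | h | h | h | h
            · exact Or.inl (Or.inl (Or.inl (Or.inl (Or.inl ⟨⟨h.1, h.2.1⟩, h.2.2⟩))))
            · exact Or.inl (Or.inl (Or.inl (Or.inl (Or.inr ⟨⟨h.1, h.2.1⟩, h.2.2⟩))))
            · exact Or.inl (Or.inl (Or.inl (Or.inr ⟨⟨h.1, h.2.1⟩, h.2.2⟩)))
            · exact Or.inl (Or.inl (Or.inr ⟨⟨h.1, h.2.1⟩, h.2.2⟩))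
            · exact Or.inl (Or.inr ⟨⟨h.1, h.2.1⟩, h.2.2⟩)
            · exact Or.inr ⟨⟨h.1, h.2.1⟩, h.2.2⟩
          · exact absurd h10.symm hlx
          · exact absurd h10.symm hly
        · exact Or.inl (Or.inr (by rw [← Bool.not_eq_true]; exact hlY))
      · exact Or.inl (Or.inl (by rw [← Bool.not_eq_true, Nat.beq_eq]; exact hll))
    · exact Or.inl (Or.inr (by rw [← Bool.not_eq_true]; exact hlX))

theorem runF_ok {P : Plan} (hnb : P.nb.length = P.N)
    (htri : ∀ t ∈ P.tri, t.1 < P.N ∧ t.2.1 < P.N ∧ t.2.2 < P.N) (st : List (ℕ × ℕ)) {σ : List ℕ}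
    {τ : List (ℕ × ℕ × ℕ)} (hσ : σ.length = P.N)
    (hτ : τ = P.tri.map fun t => (σ.getD t.1 0, σ.getD t.2.1 0, σ.getD t.2.2 0))
    (h : runF P st σ τ = true) : P.run st σ = true := by
  induction st generalizing σ τ with
  | nil =>
    change eql σ P.fin = true at h
    rw [eql_iff] at h
    unfold Plan.run
    rw [List.all_eq_true]
    intro l _
    rw [h, Nat.beq_eq]
  | cons s st ih =>
    change an (stepF P σ τ s.1 s.2) (runF P st (mvl s.1 s.2 σ) (mvt s.1 s.2 τ)) = true at h
    rw [an_iff] at h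
    unfold Plan.run
    rw [Bool.and_eq_true]
    refine ⟨stepF_ok hnb hσ hτ h.1, ?_⟩
    rw [← mvl_eq]
    refine ih (by rw [mvl_eq, List.length_map]; exact hσ) ?_ h.2
    rw [mvt_eq, mvl_eq, hτ, List.map_map]
    refine List.map_congr_left fun t ht => ?_
    obtain ⟨h1, h2, h3⟩ := htri t ht
    rw [Plan.getD_map_lt (by omega), Plan.getD_map_lt (by omega), Plan.getD_map_lt (by omega)]
    simp only [Function.comp_apply, mv_eq]

end SCfg

namespace SCfg

open GF

variable {C : SCfg}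

/-- The contents of `fastA`. -/
theorem fastA_iff (h : C.fastA = true) : Szs C ∧ C.clF C.D.a C.D.L C.D.k = true ∧
    C.liF C.D.a C.D.L C.D.k (bLk (prs C.links 0)) (bCo (trs C.links 0))
      (bQ C.P.fin (prs C.links 0)) (orm (fun p => sgl p.2) (prs C.links 0)) = true ∧
    cat C.P.nb = Nat.lor (Nat.lor (bLk (prs C.links 0)) (bKl (prs C.links 0)))
      (bCo (trs C.links 0)) ∧
    triF (bTr (trs C.links 0)) (C.D.a + C.D.L) C.P.tri = true ∧
    C.P.steps.length + 4 ≤ C.D.a + C.D.L ∧ 0 < C.P.steps.length ∧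
    (∀ p ∈ C.P.chd, p.1 < C.D.a + C.D.L ∧ p.2 < C.D.a + C.D.L) ∧
    joinF C.D.a (Nat.lor (bCh C.P.chd) (bRR C.D.a C.P.fin (trs C.links 0))) C.P.fin
      (trs C.links 0) = true ∧
    runF C.P C.P.steps (List.range (C.D.a + C.D.L)) C.P.tri = true := by
  unfold fastA at h
  simp only [frc_eq, an_iff, beq_iff, ble_iff, blt_iff, rall_iff, rlen_eq, upto_eq] at h
  obtain ⟨h1, h2, h3, h4, h5, h6, h7, h8, h9, h10⟩ := h
  refine ⟨szs_of h1, h2, h3, h4, h5, h6, h7, h8, h9, ?_⟩
  rw [List.range_eq_range']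
  exact h10

section

variable (hz : Szs C)
  (hcat : cat C.P.nb = Nat.lor (Nat.lor (bLk (prs C.links 0)) (bKl (prs C.links 0)))
    (bCo (trs C.links 0)))

include hz hcat

theorem nb_iff {i j : ℕ} (_ : i < 32) (hj : j < 32) : tb (C.P.nb.getD i 0) j = true ↔
    (i < C.D.a ∧ j ∈ C.lnk i) ∨ (j < C.D.a ∧ i ∈ C.lnk j) ∨
      tb (bCo (trs C.links 0)) (ix i j) = true := by
  have hle := hz.le
  have hll : C.links.length ≤ 32 := by rw [hz.links]; omega
  rw [← cat_iff (fun m hm => (hz.nb_lt m hm).2.trans_le (Nat.pow_le_pow_right (by omega) hle)) hj,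
    hcat, tb_lor, tb_lor, bLk_iff hz.small hj, bKl_iff hll hj, hz.links, or_assoc]
  rfl

theorem nb_co {i j : ℕ} (hi : i < 32) (hj : j < 32)
    (h : tb (bCo (trs C.links 0)) (ix i j) = true) : tb (C.P.nb.getD i 0) j = true :=
  (nb_iff hz hcat hi hj).2 (Or.inr (Or.inr h))

end

theorem bCo_mem {ls : List (List ℕ)} {k x y : ℕ} (h : (k, x, y) ∈ trs ls 0) :
    tb (bCo (trs ls 0)) (ix x y) = true ∧ tb (bCo (trs ls 0)) (ix y x) = true := by
  unfold bCo
  rw [orm_iff, orm_iff]
  constructor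
  · refine ⟨(k, x, y), h, ?_⟩
    rw [tb_lor, tb_sgl]
    exact Or.inl rfl
  · refine ⟨(k, x, y), h, ?_⟩
    rw [tb_lor, tb_sgl, tb_sgl]
    exact Or.inr rfl

theorem trs_lt (hz : Szs C) {k x y : ℕ} (h : (k, x, y) ∈ trs C.links 0) :
    k < C.D.a ∧ x ∈ C.lnk k ∧ y ∈ C.lnk k ∧ x < C.D.a + C.D.L ∧ y < C.D.a + C.D.L ∧
      consb (C.lnk k) x y = true := by
  rw [trs_mem] at h
  obtain ⟨j, h1, h2, h3⟩ := h
  have h2' : k = j := by omega
  subst h2'
  rw [hz.links] at h1
  have h4 := cps_mem _ _ _ h3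
  have h5 := consb_mem h4
  exact ⟨h1, h5.1, h5.2, hz.lnk_lt h1 h5.1, hz.lnk_lt h1 h5.2, h4⟩

/-- The meaning of the table of the known edges between classes. -/
theorem J_cases (hz : Szs C)
    (hcat : cat C.P.nb = Nat.lor (Nat.lor (bLk (prs C.links 0)) (bKl (prs C.links 0)))
      (bCo (trs C.links 0)))
    (hch : ∀ p ∈ C.P.chd, p.1 < C.D.a + C.D.L ∧ p.2 < C.D.a + C.D.L) {A B : ℕ} (hB : B < 32)
    (h : tb (Nat.lor (bCh C.P.chd) (bRR C.D.a C.P.fin (trs C.links 0))) (ix A B) = true) :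
    (∃ c ∈ C.P.chd, (c.1 = A ∧ c.2 = B) ∨ (c.1 = B ∧ c.2 = A)) ∨
      ∃ r s, C.D.a ≤ r ∧ r < C.D.a + C.D.L ∧ C.D.a ≤ s ∧ s < C.D.a + C.D.L ∧
        C.P.fin.getD r 0 = A ∧ C.P.fin.getD s 0 = B ∧ tb (C.P.nb.getD r 0) s = true ∧
        tb (C.P.nb.getD s 0) r = true := by
  have hle := hz.le
  rw [tb_lor] at h
  rcases h with h | h
  · left
    unfold bCh at h
    rw [orm_iff] at h
    obtain ⟨c, hc, h⟩ := h
    have h1 := hch c hc
    rw [tb_lor, tb_sgl, tb_sgl] at h
    rcases h with h | h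
    · obtain ⟨h2, h3⟩ := ix_inj (by omega) hB h
      exact ⟨c, hc, Or.inl ⟨h2, h3⟩⟩
    · obtain ⟨h2, h3⟩ := ix_inj (by omega) hB h
      exact ⟨c, hc, Or.inr ⟨h3, h2⟩⟩
  · right
    unfold bRR at h
    rw [orm_iff] at h
    obtain ⟨⟨k, x, y⟩, ht, h⟩ := h
    obtain ⟨_, _, _, hx, hy, _⟩ := trs_lt hz ht
    obtain ⟨hco1, hco2⟩ := bCo_mem ht
    have hn1 := nb_co hz hcat (i := x) (j := y) (by omega) (by omega) hco1
    have hn2 := nb_co hz hcat (i := y) (j := x) (by omega) (by omega) hco2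
    change tb (Bool.rec 0 (frc (rget C.P.fin x) fun A => frc (rget C.P.fin y) fun B =>
      Nat.lor (sgl (ix A B)) (sgl (ix B A))) (an (Nat.ble C.D.a x) (Nat.ble C.D.a y)) : ℕ)
      (ix A B) = true at h
    cases hb : an (Nat.ble C.D.a x) (Nat.ble C.D.a y) with
    | false =>
      rw [hb] at h
      exact absurd h (tb_zero _)
    | true =>
      rw [hb] at h
      rw [an_iff, ble_iff, ble_iff] at hb
      change tb (frc (rget C.P.fin x) fun A => frc (rget C.P.fin y) fun B =>
        Nat.lor (sgl (ix A B)) (sgl (ix B A))) (ix A B) = true at h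
      rw [frc_eq, frc_eq, rget_eq, rget_eq, tb_lor, tb_sgl, tb_sgl] at h
      rcases h with h | h
      · obtain ⟨h2, h3⟩ := ix_inj (hz.fn32 _) hB h
        exact ⟨x, y, hb.1, hx, hb.2, hy, h2, h3, hn1, hn2⟩
      · obtain ⟨h2, h3⟩ := ix_inj (hz.fn32 _) hB h
        exact ⟨y, x, hb.2, hy, hb.1, hx, h2, h3, hn2, hn1⟩

theorem planFit_of_fast (h : C.fastA = true) : C.PlanFit := by
  obtain ⟨hz, _, _, hcat, htri, hst, hpos, hch, hjo, hrun⟩ := fastA_iff h
  have hle := hz.le
  have hN := hz.N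
  have hPa := hz.a
  have hn := fun {i j : ℕ} (hi : i < 32) (hj : j < 32) => nb_iff hz hcat hi hj
  unfold triF at htri
  simp only [rall_iff, an_iff, blt_iff] at htri
  refine ⟨?_, ?_, ?_, ?_, hpos, ?_⟩
  · intro i j hi hj hb
    rw [hN] at hi hj
    rw [← tb_eq, hn (by omega) (by omega)] at hb
    unfold adjb inb
    rw [Bool.or_eq_true, Bool.or_eq_true, Bool.and_eq_true, Bool.and_eq_true, blt_iff, blt_iff,
      mem1_iff, mem1_iff, anyN_iff]
    rcases hb with hb | hb | hb
    · exact Or.inl (Or.inl hb)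
    · exact Or.inl (Or.inr hb)
    · obtain ⟨k, hk, h1⟩ := bCo_of hz.small (by omega) hb
      rw [hz.links] at hk
      exact Or.inr ⟨k, hk, h1⟩
  · intro i x hi hx
    have h1 := hz.lnk_lt hi hx
    constructor
    · rw [← tb_eq, hn (by omega) (by omega)]
      exact Or.inl ⟨hi, hx⟩
    · rw [← tb_eq, hn (by omega) (by omega)]
      exact Or.inr (Or.inl ⟨hi, hx⟩)
  · intro t ht
    obtain ⟨h1, h2, h3, h4⟩ := htri t ht
    rw [hN]
    refine ⟨h1, h2, h3, ?_⟩
    obtain ⟨h5, h6⟩ := bTr_of hz.small (by omega) (by omega) h4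
    rw [hz.links] at h5
    unfold trib
    rw [Bool.or_eq_true, Bool.or_eq_true, Bool.and_eq_true, blt_iff]
    exact Or.inl (Or.inl ⟨h5, h6⟩)
  · unfold Plan.bigOK
    rw [Bool.and_eq_true, Nat.ble_eq, List.all_eq_true]
    refine ⟨by omega, ?_⟩
    intro i hi
    rw [List.mem_range, hN] at hi
    rw [List.any_eq_true]
    obtain ⟨h1, h2⟩ := hz.nb_lt _ (getD_mem (by rw [hz.nb]; exact hi))
    obtain ⟨j, hj⟩ := Nat.exists_testBit_of_ne_zero (x := C.P.nb.getD i 0) (by omega)
    refine ⟨j, ?_, hj⟩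
    rw [List.mem_range, hN]
    by_contra hcon
    rw [Nat.testBit_lt_two_pow (h2.trans_le (Nat.pow_le_pow_right (by omega) (by omega)))] at hj
    exact Bool.noConfusion hj
  · unfold Plan.check
    rw [Bool.and_eq_true, Bool.and_eq_true, Nat.ble_eq]
    refine ⟨⟨by omega, ?_⟩, ?_⟩
    · -- `joinOK`
      unfold joinF at hjo
      simp only [rall_iff, frc_eq, rget_eq, an_iff, orb_iff, beq_iff, ble_iff] at hjo
      -- the table contains the classes
      have hJ : ∀ i j, i < C.D.a + C.D.L → j < C.D.a + C.D.L → tb (C.P.nb.getD i 0) j = true →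
          ¬ (C.D.a ≤ i ∧ C.D.a ≤ j) → C.P.fin.getD i 0 ≠ C.P.fin.getD j 0 →
          tb (Nat.lor (bCh C.P.chd) (bRR C.D.a C.P.fin (trs C.links 0)))
            (ix (C.P.fin.getD i 0) (C.P.fin.getD j 0)) = true ∨
          tb (Nat.lor (bCh C.P.chd) (bRR C.D.a C.P.fin (trs C.links 0)))
            (ix (C.P.fin.getD j 0) (C.P.fin.getD i 0)) = true := by
        intro i j hi hj hb hna hne
        rw [hn (by omega) (by omega)] at hb
        rcases hb with ⟨h1, h2⟩ | ⟨h1, h2⟩ | hb
        · obtain ⟨y, hy⟩ := cps_of_mem h2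
          have h3 := (hjo (i, j, y) ((trs_mem _ _ _ _).2
            ⟨i, by rw [hz.links]; exact h1, by omega, hy⟩)).1
          rcases h3 with h3 | h3
          · exact absurd h3 hne
          · exact Or.inl h3
        · obtain ⟨y, hy⟩ := cps_of_mem h2
          have h3 := (hjo (j, i, y) ((trs_mem _ _ _ _).2
            ⟨j, by rw [hz.links]; exact h1, by omega, hy⟩)).1
          rcases h3 with h3 | h3
          · exact absurd h3.symm hne
          · exact Or.inr h3
        · obtain ⟨k, hk, h1⟩ := bCo_of hz.small (by omega) hb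
          rcases cps_of_consb h1 with h2 | h2
          · have h3 := (hjo (k, i, j) ((trs_mem _ _ _ _).2 ⟨k, hk, by omega, h2⟩)).2
            rcases h3 with h3 | h3 | h3
            · exact absurd h3 hna
            · exact absurd h3 hne
            · exact Or.inl h3
          · have h3 := (hjo (k, j, i) ((trs_mem _ _ _ _).2 ⟨k, hk, by omega, h2⟩)).2
            rcases h3 with h3 | h3 | h3
            · exact absurd h3.symm hna
            · exact absurd h3.symm hne
            · exact Or.inr h3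
      have hfin : ∀ i j, i < C.D.a + C.D.L → j < C.D.a + C.D.L →
          tb (C.P.nb.getD i 0) j = true →
          ¬ (C.D.a ≤ i ∧ C.D.a ≤ j) → C.P.fin.getD i 0 ≠ C.P.fin.getD j 0 →
          (∃ c ∈ C.P.chd, (c.1 = C.P.fin.getD i 0 ∧ c.2 = C.P.fin.getD j 0) ∨
            (c.1 = C.P.fin.getD j 0 ∧ c.2 = C.P.fin.getD i 0)) ∨
          ∃ r s, C.D.a ≤ r ∧ r < C.D.a + C.D.L ∧ C.D.a ≤ s ∧ s < C.D.a + C.D.L ∧
            C.P.fin.getD r 0 = C.P.fin.getD i 0 ∧ C.P.fin.getD s 0 = C.P.fin.getD j 0 ∧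
            tb (C.P.nb.getD r 0) s = true := by
        intro i j hi hj hb hna hne
        rcases hJ i j hi hj hb hna hne with h1 | h1
        · rcases J_cases hz hcat hch (hz.fn32 _) h1 with h2 | ⟨r, s, h2⟩
          · exact Or.inl h2
          · exact Or.inr ⟨r, s, h2.1, h2.2.1, h2.2.2.1, h2.2.2.2.1, h2.2.2.2.2.1,
              h2.2.2.2.2.2.1, h2.2.2.2.2.2.2.1⟩
        · rcases J_cases hz hcat hch (hz.fn32 _) h1 with ⟨c, hc, h2⟩ | ⟨r, s, h2⟩
          · exact Or.inl ⟨c, hc, h2.symm⟩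
          · exact Or.inr ⟨s, r, h2.2.2.1, h2.2.2.2.1, h2.1, h2.2.1, h2.2.2.2.2.2.1,
              h2.2.2.2.2.1, h2.2.2.2.2.2.2.2⟩
      unfold Plan.joinOK
      rw [List.all_eq_true]
      intro i hi
      rw [List.all_eq_true]
      intro j hj
      rw [List.mem_range, hN] at hi hj
      rw [Bool.or_eq_true, Bool.or_eq_true, Bool.or_eq_true, Bool.or_eq_true, Bool.and_eq_true,
        Nat.ble_eq, Nat.ble_eq, hPa, Nat.beq_eq, List.any_eq_true, List.any_eq_true]
      by_cases h1 : (C.P.nb.getD i 0).testBit j = true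
      · by_cases h2 : C.D.a ≤ i ∧ C.D.a ≤ j
        · exact Or.inl (Or.inl (Or.inl (Or.inr h2)))
        · by_cases h3 : C.P.fin.getD i 0 = C.P.fin.getD j 0
          · exact Or.inl (Or.inl (Or.inr h3))
          · rcases hfin i j hi hj (by rw [tb_eq]; exact h1) h2 h3 with ⟨c, hc, h4⟩ |
              ⟨r, s, h4, h5, h6, h7, h8, h9, h10⟩
            · refine Or.inl (Or.inr ⟨c, hc, ?_⟩)
              rw [Bool.or_eq_true, Bool.and_eq_true, Bool.and_eq_true, Nat.beq_eq, Nat.beq_eq,
                Nat.beq_eq, Nat.beq_eq]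
              exact h4
            · refine Or.inr ⟨s, by rw [List.mem_range, hN]; exact h7, ?_⟩
              rw [Bool.and_eq_true, Bool.and_eq_true, Nat.ble_eq, Nat.beq_eq, Plan.nbm_iff]
              exact ⟨⟨h6, h9⟩, r, h4, by omega, h8, by rw [← tb_eq]; exact h10⟩
      · refine Or.inl (Or.inl (Or.inl (Or.inl ?_)))
        rw [Bool.not_eq_true] at h1
        rw [h1]
        rfl
    · -- the contractions
      rw [hN]
      refine runF_ok (by rw [hz.nb, hN]) ?_ _ (by rw [List.length_range, hN]) ?_ hrun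
      · intro t ht
        obtain ⟨h1, h2, h3, _⟩ := htri t ht
        rw [hN]
        exact ⟨h1, h2, h3⟩
      · have hr : ∀ i, i < C.D.a + C.D.L → (List.range (C.D.a + C.D.L)).getD i 0 = i := by
          intro i hi
          rw [List.getD_eq_getElem _ _ (by rw [List.length_range]; exact hi), List.getElem_range]
        have h1 : C.P.tri = C.P.tri.map id := (List.map_id _).symm
        rw [h1, List.map_map]
        refine List.map_congr_left fun t ht => ?_
        obtain ⟨h2, h3, h4, _⟩ := htri t ht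
        simp only [Function.comp_apply, id, hr _ h2, hr _ h3, hr _ h4]

/-- **Soundness of the fast check.** -/
theorem fit_of_fastA (h : C.fastA = true) : C.Fit := by
  obtain ⟨hz, h1, h2, _⟩ := fastA_iff h
  exact fit_of_fast hz h1 h2

end SCfg

namespace GF

theorem lcf_iff (a : ℕ) (fin : List ℕ) (k x c : ℕ) : (x, c) ∈ lcf a fin k ↔
    ∃ j, j < fin.length ∧ x = k + j ∧ a ≤ x ∧ c = fin.getD j 0 := by
  induction fin generalizing k with
  | nil =>
    change (x, c) ∈ [] ↔ _
    simp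
  | cons d fin ih =>
    have h0 : lcf a (d :: fin) k = frc k fun i =>
      (Bool.rec (lcf a fin (Nat.succ i)) ((i, d) :: lcf a fin (Nat.succ i)) (Nat.ble a i) :
        List (ℕ × ℕ)) := rfl
    rw [h0, frc_eq]
    have hrec : (∃ j, j < fin.length ∧ x = Nat.succ k + j ∧ a ≤ x ∧ c = fin.getD j 0) →
        ∃ j, j < (d :: fin).length ∧ x = k + j ∧ a ≤ x ∧ c = (d :: fin).getD j 0 := by
      rintro ⟨j, h1, h2, h3, h4⟩
      exact ⟨j + 1, by rw [List.length_cons]; omega, by omega, h3,
        by rw [List.getD_cons_succ]; exact h4⟩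
    cases hb : Nat.ble a k with
    | true =>
      change (x, c) ∈ (k, d) :: lcf a fin (Nat.succ k) ↔ _
      rw [ble_iff] at hb
      rw [List.mem_cons, ih, Prod.mk.injEq]
      constructor
      · rintro (⟨h1, h2⟩ | h)
        · exact ⟨0, by simp, by omega, by omega, h2⟩
        · exact hrec h
      · rintro ⟨j, h1, h2, h3, h4⟩
        cases j with
        | zero => exact Or.inl ⟨by omega, h4⟩
        | succ j =>
          rw [List.length_cons] at h1
          rw [List.getD_cons_succ] at h4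
          exact Or.inr ⟨j, by omega, by omega, h3, h4⟩
    | false =>
      change (x, c) ∈ lcf a fin (Nat.succ k) ↔ _
      have hb' : ¬ a ≤ k := by
        rw [← ble_iff, hb]
        decide
      rw [ih]
      constructor
      · exact hrec
      · rintro ⟨j, h1, h2, h3, h4⟩
        cases j with
        | zero => omega
        | succ j =>
          rw [List.length_cons] at h1
          rw [List.getD_cons_succ] at h4
          exact ⟨j, by omega, by omega, h3, h4⟩

theorem lcf_mem {a : ℕ} {fin : List ℕ} {x : ℕ} (hx : x < fin.length) (ha : a ≤ x) :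
    (x, fin.getD x 0) ∈ lcf a fin 0 :=
  (lcf_iff _ _ _ _ _).2 ⟨x, hx, by omega, ha, rfl⟩

theorem dps_mem {lc : List (ℕ × ℕ)} {x y c : ℕ} (hx : (x, c) ∈ lc) (hy : (y, c) ∈ lc)
    (hxy : x ≠ y) : (x, y) ∈ dps lc := by
  have inner : ∀ (p : ℕ × ℕ) (r : List (ℕ × ℕ)) (l : List (ℕ × ℕ)) (z : ℕ × ℕ),
      z ∈ r ∨ (∃ q ∈ l, p.2 = q.2 ∧ p.1 ≠ q.1 ∧ z = (p.1, q.1)) →
      z ∈ (List.rec r (fun q _ ih' =>
        Bool.rec ih' ((p.1, q.1) :: ih') (an (Nat.beq p.2 q.2) (nt (Nat.beq p.1 q.1)))) l :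
        List (ℕ × ℕ)) := by
    intro p r l z h
    induction l with
    | nil =>
      rcases h with h | ⟨q, hq, _⟩
      · exact h
      · exact absurd hq List.not_mem_nil
    | cons q l ih =>
      have h0 : (List.rec r (fun q _ ih' =>
        Bool.rec ih' ((p.1, q.1) :: ih') (an (Nat.beq p.2 q.2) (nt (Nat.beq p.1 q.1)))) (q :: l) :
        List (ℕ × ℕ)) = Bool.rec (List.rec r (fun q _ ih' =>
        Bool.rec ih' ((p.1, q.1) :: ih') (an (Nat.beq p.2 q.2) (nt (Nat.beq p.1 q.1)))) l)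
        ((p.1, q.1) :: (List.rec r (fun q _ ih' =>
        Bool.rec ih' ((p.1, q.1) :: ih') (an (Nat.beq p.2 q.2) (nt (Nat.beq p.1 q.1)))) l))
        (an (Nat.beq p.2 q.2) (nt (Nat.beq p.1 q.1))) := rfl
      rw [h0]
      cases hb : an (Nat.beq p.2 q.2) (nt (Nat.beq p.1 q.1)) with
      | true =>
        change z ∈ _ :: _
        rw [List.mem_cons]
        rcases h with h | ⟨q', hq', h1, h2, h3⟩
        · exact Or.inr (ih (Or.inl h))
        · rw [List.mem_cons] at hq'
          rcases hq' with hq' | hq'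
          · rw [hq'] at h3
            exact Or.inl h3
          · exact Or.inr (ih (Or.inr ⟨q', hq', h1, h2, h3⟩))
      | false =>
        rcases h with h | ⟨q', hq', h1, h2, h3⟩
        · exact ih (Or.inl h)
        · rw [List.mem_cons] at hq'
          rcases hq' with hq' | hq'
          · exfalso
            rw [hq'] at h1 h2
            have h4 : an (Nat.beq p.2 q.2) (nt (Nat.beq p.1 q.1)) = true := by
              rw [an_iff, nt_iff, beq_iff, beq_iff]
              exact ⟨h1, h2⟩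
            rw [h4] at hb
            exact Bool.noConfusion hb
          · exact ih (Or.inr ⟨q', hq', h1, h2, h3⟩)
  have outer : ∀ l : List (ℕ × ℕ), (x, c) ∈ l → (x, y) ∈ (List.rec [] (fun p _ ih =>
      List.rec ih (fun q _ ih' =>
        Bool.rec ih' ((p.1, q.1) :: ih') (an (Nat.beq p.2 q.2) (nt (Nat.beq p.1 q.1)))) lc) l :
        List (ℕ × ℕ)) := by
    intro l hl
    induction l with
    | nil => exact absurd hl List.not_mem_nil
    | cons p l ih =>
      rw [List.mem_cons] at hl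
      rcases hl with hl | hl
      · refine inner p _ lc (x, y) (Or.inr ⟨(y, c), hy, ?_, ?_, ?_⟩)
        · rw [← hl]
        · rw [← hl]; exact hxy
        · rw [← hl]
      · exact inner p _ lc (x, y) (Or.inl (ih hl))
  exact outer lc hx

theorem sgl_mem (l : List ℕ) (x : ℕ) : tb (orm sgl l) x = true ↔ x ∈ l := by
  rw [orm_iff]
  constructor
  · rintro ⟨y, hy, h⟩
    rw [tb_sgl] at h
    rwa [h] at hy
  · intro h
    exact ⟨x, h, (tb_sgl _ _).2 rfl⟩

theorem comF_of {ls : List (List ℕ)} {x y : ℕ} (h : comF ls x y = true) :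
    ∃ j, j < ls.length ∧ x ∈ lk ls j ∧ y ∈ lk ls j := by
  induction ls with
  | nil => exact Bool.noConfusion h
  | cons l ls ih =>
    change (frc (orm sgl l) fun m => orb (an (tb m x) (tb m y)) (comF ls x y)) = true at h
    rw [frc_eq, orb_iff, an_iff, sgl_mem, sgl_mem] at h
    rcases h with h | h
    · exact ⟨0, by simp, h.1, h.2⟩
    · obtain ⟨j, h1, h2, h3⟩ := ih h
      exact ⟨j + 1, by rw [List.length_cons]; omega, h2, h3⟩

theorem msk_getD (ls : List (List ℕ)) (j : ℕ) : (msk ls).getD j 0 = orm sgl (lk ls j) := by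
  induction ls generalizing j with
  | nil =>
    change ([] : List ℕ).getD j 0 = _
    unfold lk
    rw [List.getD_nil, List.getD_nil]
    rfl
  | cons l ls ih =>
    change ((frc (orm sgl l) fun m => m :: msk ls) : List ℕ).getD j 0 = _
    rw [frc_eq]
    cases j with
    | zero => rfl
    | succ j =>
      rw [List.getD_cons_succ, ih]
      rfl

theorem tb_row {M x y z : ℕ} (hM : ∀ j, tb M j = true → j < 32) (hy : y < 32)
    (h : tb (Nat.shiftLeft M (Nat.mul 32 z)) (ix x y) = true) : z = x ∧ tb M y = true := by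
  rw [tb_shl] at h
  change 32 * z ≤ 32 * x + y ∧ tb M (32 * x + y - 32 * z) = true at h
  obtain ⟨h1, h2⟩ := h
  have h3 := hM _ h2
  have h4 : z = x := by omega
  subst h4
  rw [show 32 * z + y - 32 * z = y by omega] at h2
  exact ⟨rfl, h2⟩

theorem bNR_of {a : ℕ} {ls : List (List ℕ)} (hs : SmL ls) (ha : a ≤ ls.length) {x y : ℕ}
    (hy : y < 32) (h : tb (bNR a ls) (ix x y) = true) :
    ∃ i, i < ls.length ∧ x ∈ lk ls i ∧ (y ∈ lk ls i ∨ ∃ j, j < a ∧ j ∈ lk ls i ∧ y ∈ lk ls j) := by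
  unfold bNR at h
  rw [orm_iff] at h
  obtain ⟨l, hl, h⟩ := h
  rw [frc_eq, orm_iff] at h
  obtain ⟨z, hz, h⟩ := h
  have hE : ∀ j, tb (Nat.lor (orm sgl l) (uni (msk ls) a l)) j = true →
      j ∈ l ∨ ∃ k, k < a ∧ k ∈ l ∧ j ∈ lk ls k := by
    intro j hj
    rw [tb_lor, sgl_mem] at hj
    rcases hj with hj | hj
    · exact Or.inl hj
    · unfold uni at hj
      rw [orm_iff] at hj
      obtain ⟨k, hk, hj⟩ := hj
      cases hb : Nat.blt k a with
      | false =>
        rw [hb] at hj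
        exact absurd hj (tb_zero _)
      | true =>
        rw [hb] at hj
        change tb (rget (msk ls) k) j = true at hj
        rw [blt_iff] at hb
        rw [rget_eq, msk_getD, sgl_mem] at hj
        exact Or.inr ⟨k, hb, hk, hj⟩
  have h32 : ∀ j, tb (Nat.lor (orm sgl l) (uni (msk ls) a l)) j = true → j < 32 := by
    intro j hj
    rcases hE j hj with h1 | ⟨k, h1, _, h2⟩
    · exact hs l hl j h1
    · exact hs _ (lk_mem (by omega)) j h2
  obtain ⟨h1, h2⟩ := tb_row h32 hy h
  subst h1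
  obtain ⟨i, hi, hil⟩ := List.mem_iff_getElem.1 hl
  have hlk : lk ls i = l := by
    unfold lk
    rw [List.getD_eq_getElem _ _ hi, hil]
  refine ⟨i, hi, by rw [hlk]; exact hz, ?_⟩
  rw [hlk]
  exact hE y h2

end GF

namespace SCfg

open GF

variable {C : SCfg}

theorem nb_ring (hz : Szs C)
    (hcat : cat C.P.nb = Nat.lor (Nat.lor (bLk (prs C.links 0)) (bKl (prs C.links 0)))
      (bCo (trs C.links 0))) {x y : ℕ} (hx : C.D.a ≤ x) (hy : C.D.a ≤ y) (hx' : x < 32)
    (hy' : y < 32) (h : tb (C.P.nb.getD x 0) y = true) :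
    ∃ k, k < C.D.a ∧ consb (C.lnk k) x y = true := by
  rw [nb_iff hz hcat hx' hy'] at h
  rcases h with h | h | h
  · omega
  · omega
  · obtain ⟨k, hk, h1⟩ := bCo_of hz.small hy' h
    rw [hz.links] at hk
    exact ⟨k, hk, h1⟩

theorem bCR_of (hz : Szs C) {x y : ℕ} (hy : y < 32)
    (h : tb (bCR C.P.nb (lcf C.D.a C.P.fin 0)) (ix x y) = true) :
    ∃ x', C.D.a ≤ x' ∧ x' < C.D.a + C.D.L ∧ C.P.fin.getD x' 0 = C.P.fin.getD x 0 ∧
      tb (C.P.nb.getD x' 0) y = true := by
  have hle := hz.le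
  unfold bCR at h
  rw [orm_iff] at h
  obtain ⟨⟨z, c⟩, hp, h⟩ := h
  have hmem : ∀ j, tb (orm (fun q => Bool.rec 0 (rget C.P.nb q.1) (Nat.beq q.2 c))
      (lcf C.D.a C.P.fin 0)) j = true → ∃ x', C.D.a ≤ x' ∧ x' < C.D.a + C.D.L ∧
      C.P.fin.getD x' 0 = c ∧ tb (C.P.nb.getD x' 0) j = true := by
    intro j hj
    rw [orm_iff] at hj
    obtain ⟨⟨q, d⟩, hq, hj⟩ := hj
    rw [lcf_iff] at hq
    obtain ⟨q', h1, h2, h3, h4⟩ := hq
    have h2' : q = q' := by omega
    subst h2'
    rw [hz.fin] at h1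
    change tb (Bool.rec 0 (rget C.P.nb q) (Nat.beq d c)) j = true at hj
    cases hb : Nat.beq d c with
    | false =>
      rw [hb] at hj
      exact absurd hj (tb_zero _)
    | true =>
      rw [hb] at hj
      change tb (rget C.P.nb q) j = true at hj
      rw [beq_iff] at hb
      rw [rget_eq] at hj
      exact ⟨q, h3, h1, by rw [← h4, hb], hj⟩
  have h32 : ∀ j, tb (orm (fun q => Bool.rec 0 (rget C.P.nb q.1) (Nat.beq q.2 c))
      (lcf C.D.a C.P.fin 0)) j = true → j < 32 := by
    intro j hj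
    obtain ⟨x', h1, h2, _, h3⟩ := hmem j hj
    have h4 := (hz.nb_lt _ (getD_mem (l := C.P.nb) (i := x') (by rw [hz.nb]; exact h2))).2
    by_contra hcon
    rw [tb_eq, Nat.testBit_lt_two_pow (h4.trans_le (Nat.pow_le_pow_right (by omega)
      (by omega)))] at h3
    exact Bool.noConfusion h3
  obtain ⟨h1, h2⟩ := tb_row h32 hy h
  change z = x at h1
  subst h1
  obtain ⟨x', h3, h4, h5, h6⟩ := hmem y h2
  rw [lcf_iff] at hp
  obtain ⟨j, h7, h8, _, h9⟩ := hp
  have h8' : z = j := by omega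
  subst h8'
  exact ⟨x', h3, h4, by rw [h5, h9], h6⟩

/-- **Soundness of the fast check of the legality.** -/
theorem leg_of_fast (h : C.fastA = true) {na nc : ℕ → ℕ → Bool} (hl : C.legF na nc = true) :
    C.Leg na nc := by
  obtain ⟨hz, hcl, hli, hcat, _⟩ := fastA_iff h
  have hfit := fit_of_fast hz hcl hli
  have hle := hz.le
  -- classes
  have hq : ∀ r s, r < C.D.L → s < C.D.L → (C.D.q r = C.D.q s ↔
      C.P.fin.getD (C.D.a + r) 0 = C.P.fin.getD (C.D.a + s) 0) := by
    intro r s hr hs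
    have h1 : C.P.fin.getD (C.D.a + r) 0 = C.rp (C.D.q r) := hfit.fnq r hr
    have h2 : C.P.fin.getD (C.D.a + s) 0 = C.rp (C.D.q s) := hfit.fnq s hs
    rw [h1, h2]
    constructor
    · intro h
      rw [h]
    · intro h
      exact hfit.rp_inj _ _ (hfit.q_lt r hr) (hfit.q_lt s hs) h
  have hlc : ∀ r, r < C.D.L →
      (C.D.a + r, C.P.fin.getD (C.D.a + r) 0) ∈ lcf C.D.a C.P.fin 0 := by
    intro r hr
    exact lcf_mem (by rw [hz.fin]; omega) (by omega)
  have hdp : ∀ r s, r < C.D.L → s < C.D.L → r ≠ s → C.D.q r = C.D.q s →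
      (C.D.a + r, C.D.a + s) ∈ dps (lcf C.D.a C.P.fin 0) := by
    intro r s hr hs hrs hqq
    have h1 := hlc s hs
    rw [← (hq r s hr hs).1 hqq] at h1
    exact dps_mem (hlc r hr) h1 (by omega)
  have hliq : ∀ A B, (A, B) ∈ C.D.chq → A < C.D.k ∧ B < C.D.k := by
    unfold liF at hli
    simp only [an_iff, nall_iff, rall_iff, beq_iff, blt_iff, rget_eq, nt_iff'] at hli
    obtain ⟨_, _, _, _, _, hl6⟩ := hli
    intro A B hAB
    exact (hl6 (A, B) hAB).1
  unfold legF at hl
  simp only [frc_eq, an_iff, rall_iff, rget_eq, orb_iff, nt_iff, beq_iff] at hl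
  obtain ⟨h1, h2, h3, h4, h5⟩ := hl
  have hnhq : ∀ A B t u, (A, B) ∈ C.D.chq → t < C.D.L → u < C.D.L → C.D.q t = A → C.D.q u = B →
      na (C.D.a + t) (C.D.a + u) = true := by
    intro A B t u hAB ht hu hA hB
    rcases h3 (A, B) hAB _ (hlc t ht) with h6 | h6
    · exfalso
      apply h6
      have h7 : C.P.fin.getD (C.D.a + t) 0 = C.rp (C.D.q t) := hfit.fnq t ht
      rw [hA] at h7
      exact h7
    · rcases h6 _ (hlc u hu) with h7 | h7
      · exfalso
        apply h7
        have h8 : C.P.fin.getD (C.D.a + u) 0 = C.rp (C.D.q u) := hfit.fnq u hu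
        rw [hB] at h8
        exact h8
      · exact h7
  have hadj : ∀ x y, C.D.a ≤ x → C.D.a ≤ y → x < 32 → y < 32 →
      tb (C.P.nb.getD x 0) y = true → C.adjb x y = true ∧ C.adjb y x = true := by
    intro x y hx hy hx' hy' h
    obtain ⟨k, hk, hc⟩ := nb_ring hz hcat hx hy hx' hy' h
    unfold adjb
    constructor
    · rw [Bool.or_eq_true, anyN_iff]
      exact Or.inr ⟨k, hk, hc⟩
    · rw [Bool.or_eq_true, anyN_iff]
      exact Or.inr ⟨k, hk, consb_swap hc⟩
  refine ⟨?_, ?_, hnhq, ?_, ?_⟩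
  · intro r s hr hs hrs hqq
    obtain ⟨h6, h7, h8⟩ := h1 _ (hdp r s hr hs hrs hqq)
    obtain ⟨j, h9, h10, h11⟩ := comF_of h8
    rw [hz.links] at h9
    exact ⟨h6, h7, j, h9, h10, h11⟩
  · intro r s t u hr hs ht hu hrs htu hqq hqq'
    exact h2 _ (hdp r s hr hs hrs hqq) _ (hdp t u ht hu htu hqq')
  · intro x y t u hxy ht hu hx hy
    have h6 := h4 (x, y) hxy
    rw [orm_iff] at h6
    obtain ⟨⟨A, B⟩, hAB, h6⟩ := h6
    rw [tb_sgl] at h6
    have hy32 : y < 32 := by
      have h9 := hz.fn32 (C.D.a + u)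
      change C.P.fin.getD (C.D.a + u) 0 = y at hy
      omega
    obtain ⟨h7, h8⟩ := ix_inj (hz.rp32 _) hy32 h6
    change C.rp A = x at h7
    change C.rp B = y at h8
    obtain ⟨hA, hB⟩ := hliq A B hAB
    refine hnhq A B t u hAB ht hu ?_ ?_
    · refine hfit.rp_inj _ _ (hfit.q_lt t ht) hA ?_
      rw [h7, ← hx]
      exact (hfit.fnq t ht).symm
    · refine hfit.rp_inj _ _ (hfit.q_lt u hu) hB ?_
      rw [h8, ← hy]
      exact (hfit.fnq u hu).symm
  · intro r s hr hs hqq
    have hne : ¬ C.P.fin.getD (C.D.a + r) 0 = C.P.fin.getD (C.D.a + s) 0 := by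
      intro h
      exact hqq ((hq r s hr hs).2 h)
    rcases h5 _ (hlc r hr) _ (hlc s hs) with h6 | h6 | h6 | h6 | ⟨h6, h7⟩
    · exact absurd h6 hne
    · left
      obtain ⟨i, h7, h8, h9⟩ := bNR_of hz.small (by rw [hz.links]) (by omega) h6
      rw [hz.links] at h7
      unfold near com dist
      rw [Bool.or_eq_true, Bool.or_eq_true, Bool.or_eq_true, anyN_iff, anyN_iff]
      rcases h9 with h9 | ⟨j, h9, h10, h11⟩
      · refine Or.inl (Or.inl (Or.inl ⟨i, h7, ?_⟩))
        rw [Bool.and_eq_true, mem1_iff, mem1_iff]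
        exact ⟨h8, h9⟩
      · refine Or.inl (Or.inl (Or.inr ⟨i, h7, ?_⟩))
        rw [Bool.and_eq_true, mem1_iff, anyN_iff]
        refine ⟨h8, j, h9, ?_⟩
        rw [Bool.and_eq_true, mem1_iff, mem1_iff]
        exact ⟨h10, h11⟩
    · left
      obtain ⟨x', h7, h8, h9, h10⟩ := bCR_of hz (by omega) h6
      unfold near
      rw [Bool.or_eq_true, Bool.or_eq_true, Bool.or_eq_true, anyN_iff, anyN_iff]
      refine Or.inl (Or.inr ⟨x' - C.D.a, by omega, ?_⟩)
      have h11 : C.D.a + (x' - C.D.a) = x' := by omega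
      rw [Bool.and_eq_true, beq_iff, hq _ _ (by omega) hr, h11]
      exact ⟨h9, (hadj _ _ h7 (by omega) (by omega) (by omega) h10).1⟩
    · left
      obtain ⟨x', h7, h8, h9, h10⟩ := bCR_of hz (by omega) h6
      unfold near
      rw [Bool.or_eq_true, Bool.or_eq_true, Bool.or_eq_true, anyN_iff, anyN_iff]
      refine Or.inr ⟨x' - C.D.a, by omega, ?_⟩
      have h11 : C.D.a + (x' - C.D.a) = x' := by omega
      rw [Bool.and_eq_true, beq_iff, hq _ _ (by omega) hs, h11]
      exact ⟨h9, (hadj _ _ h7 (by omega) (by omega) (by omega) h10).2⟩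
    · right
      refine ⟨?_, ?_⟩
      · intro i x hi hx
        have key : ∀ A B, B < 32 → ¬ tb (bQ C.P.fin (prs C.links 0)) (ix A B) = true →
            ¬ ((C.fn i = A ∧ C.fn x = B) ∨ (C.fn i = B ∧ C.fn x = A)) := by
          intro A B hB hn hh
          exact hn ((bQ_iff hz.fn32 hB).2 ⟨i, x, by rw [hz.links]; exact hi, hx, hh⟩)
        have h8 := key _ _ (hz.fn32 _) h6
        exact ⟨fun h => h8 (Or.inl h), fun h => h8 (Or.inr h)⟩
      · intro r' s' hr' hs' hrr hss hq1 hq2
        rcases h7 _ (hdp r r' hr hr' hrr hq1.symm) with h8 | h8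
        · exact absurd rfl h8
        · rcases h8 _ (hdp s s' hs hs' hss hq2.symm) with h9 | h9
          · exact absurd rfl h9
          · exact h9

end SCfg

end Pool.Agent.W986
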