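import Pool.Agent.W986.SubTreeB

/-!
# Numerical leaves for the proportional rule: the Boolean functions

The functions of `SubLeaf.lean` which are evaluated by the kernel.

`up`, `neg`, `pos`, `lo`: bounds for the charge `kap` at a label of a patch. A vertex `u` with
positive charge distributes the amount `gk u` to its neighbours in proportion to the weights
`wt (kap y) = min (- kap y) 4`. `leafB` checks that the hub (the label 0) does not receive more
than it can take.
-/

set_option autoImplicit false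

namespace Pool.Agent.W986.ST.LB

/-- The larger number. -/
def mx (a b : ℕ) : ℕ := frc a fun a => frc b fun b => cf (Nat.ble a b) b a

/-- The smaller number. -/
def mn (a b : ℕ) : ℕ := frc a fun a => frc b fun b => cf (Nat.ble a b) a b

/-- The largest entry of `y`, or 0. -/
def lookM (y : ℕ) (l : List (ℕ × ℕ)) : ℕ :=
  @List.rec (ℕ × ℕ) (fun _ => ℕ) 0
    (fun p _ ih => @Prod.rec ℕ ℕ (fun _ => ℕ) (fun a b => cf (Nat.beq a y) (mx b ih) ih) p) l

/-- The largest entry of `y` plus 1, or 0. -/
def lookN (y : ℕ) (l : List (ℕ × ℕ)) : ℕ :=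
  @List.rec (ℕ × ℕ) (fun _ => ℕ) 0
    (fun p _ ih => @Prod.rec ℕ ℕ (fun _ => ℕ)
      (fun a b => cf (Nat.beq a y) (mx (Nat.succ b) ih) ih) p) l

/-- The smallest entry of `y` plus 1, or 0. -/
def lookG (y : ℕ) (l : List (ℕ × ℕ)) : ℕ :=
  @List.rec (ℕ × ℕ) (fun _ => ℕ) 0
    (fun p _ ih => @Prod.rec ℕ ℕ (fun _ => ℕ) (fun a b => cf (Nat.beq a y)
      (frc ih fun r => cf (Nat.beq r 0) (Nat.succ b) (mn (Nat.succ b) r)) ih) p) l

/-- Is the list empty? -/
def nil (l : List ℕ) : Bool := @List.rec ℕ (fun _ => Bool) true (fun _ _ _ => false) l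

/-- Can `z` be a vertex of degree 4? -/
def p4 (P : Patch) (z : ℕ) : Bool :=
  frcH (findL P.lk z) fun l => cf (nil l)
    (cf (Nat.ble (findB P.lb z) 4) (Nat.beq (lookM z P.kb) 0) false) (Nat.beq (len l) 4)

/-- The number of the possible vertices of degree 4 in a list. -/
def c4 (P : Patch) (l : List ℕ) : ℕ :=
  @List.rec ℕ (fun _ => ℕ) 0 (fun z _ ih => cf (p4 P z) (Nat.succ ih) ih) l

/-- The number of the vertices in a list which have degree 4. -/
def s4 (P : Patch) (l : List ℕ) : ℕ :=
  @List.rec ℕ (fun _ => ℕ) 0 (fun z _ ih => cf (Nat.beq (len (findL P.lk z)) 4) (Nat.succ ih) ih) l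

/-- A number `e` with `kap ≤ 12 - e`, from the lists and the lower bounds for the degrees. -/
def up (P : Patch) (y : ℕ) : ℕ :=
  frcH (findL P.lk y) fun l => cf (nil l)
    (frc (mn (findB P.lb y) 12) fun t => cf (Nat.ble t 4) 8 (Nat.sub (Nat.mul 2 t) (Nat.div t 2)))
    (frc (len l) fun d => cf (Nat.beq d 4) 12
      (Nat.sub (Nat.mul 2 d) (mn (c4 P l) (Nat.div d 2))))

/-- A number `c` with `kap ≤ - c`, if it is positive. -/
def neg (P : Patch) (y : ℕ) : ℕ := mx (Nat.sub (up P y) 12) (lookM y P.kb)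

/-- An upper bound for `kap`. -/
def pos (P : Patch) (y : ℕ) : ℕ :=
  frc (Nat.sub 12 (up P y)) fun p => cf (Nat.beq p 0) 0 (cf (Nat.beq (lookN y P.kb) 0) p 0)

/-- A number `e` with `12 - e ≤ kap`. -/
def lo (P : Patch) (y : ℕ) : ℕ :=
  mn (frc (lookG y P.kg) fun g => cf (Nat.beq g 0) 1000 (Nat.add 10 g))
    (frcH (findL P.lk y) fun l => cf (nil l) 1000 (frc (len l) fun d => cf (Nat.beq d 4) 12
      (Nat.sub (Nat.mul 2 d) (s4 P l))))

/-- The bounds for the charge at one of the labels of the list contradict each other. -/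
def contra (P : Patch) (l : List (ℕ × ℕ)) : Bool :=
  @List.rec (ℕ × ℕ) (fun _ => Bool) false
    (fun p _ ih => @Prod.rec ℕ ℕ (fun _ => Bool) (fun a _ => cf (Nat.blt (lo P a) (mn 1000 (mx
      (up P a) (frc (lookN a P.kb) fun k => cf (Nat.beq k 0) 0 (Nat.add 11 k))))) true ih) p) l

/-- One of the lower bounds for the degrees is larger than the number of the neighbours. -/
def lbad (P : Patch) (l : List (ℕ × ℕ)) : Bool :=
  @List.rec (ℕ × ℕ) (fun _ => Bool) false
    (fun p _ ih => @Prod.rec ℕ ℕ (fun _ => Bool) (fun a b => frcH (findL P.lk a) fun l =>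
      cf (nil l) ih (cf (Nat.blt (len l) b) true ih)) p) l

/-- The leaf for patches which do not occur. -/
def leafI (P : Patch) : Bool :=
  cf (contra P P.kg) true (cf (contra P P.kb) true (lbad P P.lb))

/-- A lower bound for the sum of the weights. -/
def sw (P : Patch) (l : List ℕ) : ℕ :=
  @List.rec ℕ (fun _ => ℕ) 0 (fun y _ ih => Nat.add (mn (neg P y) 4) ih) l

/-- Check `num / den + (sum over the list) ≤ K / M`; `ctr` recognises the vertices which give
away less than their charge. -/
def sumOK (ctr : Patch → ℕ → Bool) (P : Patch) (K M : ℕ) (l : List ℕ) : ℕ → ℕ → Bool :=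
  @List.rec ℕ (fun _ => ℕ → ℕ → Bool)
    (fun num den => Nat.ble (Nat.mul num M) (Nat.mul K den))
    (fun u _ ih num den =>
      @Nat.rec (fun _ => Bool) (ih num den) (fun p _ =>
        @Nat.rec (fun _ => Bool) false (fun b _ =>
          frc (cf (ctr P u) p (Nat.succ p)) fun a =>
            frc (Nat.add (Nat.mul num (Nat.succ b)) (Nat.mul a den)) fun num =>
              frc (Nat.mul den (Nat.succ b)) fun den => ih num den)
          (sw P (findL P.lk u))) (pos P u)) l

/-- The leaf for the hub. -/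
def leafB (ctr : Patch → ℕ → Bool) (ex : Patch → ℕ) (P : Patch) : Bool :=
  cf (leafI P) true
    (frcH (findL P.lk 0) fun l => cf (nil l) false
      (frc (neg P 0) fun K => frc (ex P) fun e =>
        cf (Nat.beq K 0)
          (cf (Nat.ble (lo P 0) 12)
            (cf (Nat.beq e 0) (cf (Nat.beq (pos P 0) 0) true (Nat.blt 0 (sw P l))) false) false)
          (cf (Nat.ble e K) (sumOK ctr P (Nat.sub K e) (mn K 4) l 0 1) false)))

/-! ### The exceptional senders

`u` has degree 5, its neighbours are `m, X, n, n', Y` in this order, `m` has degree 4, `X`, `Y` have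
degree 7 and charge -1, `n`, `n'` have degree 6 and charge 0. Then `m` gives 1 more (twice the
charge) to the vertex opposite to `u` and 1 less to `u`. -/

/-- conjunction -/
def an (a b : Bool) : Bool := cf a b false

/-- `y` has degree `d` and `kap ≤ 12 - k ≤ kap`. -/
def isD (P : Patch) (d k y : ℕ) : Bool :=
  an (Nat.beq (len (findL P.lk y)) d)
    (an (Nat.ble (lo P y) k)
      (cf (Nat.ble k 12) (Nat.beq (pos P y) 0) (Nat.ble k (Nat.add 12 (neg P y)))))

/-- `y` may have degree `d` and charge `12 - k` (`12 ≤ k`). -/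
def mayD (P : Patch) (d k y : ℕ) : Bool :=
  frcH (findL P.lk y) fun l =>
    an (cf (nil l) (Nat.ble (findB P.lb y) d) (Nat.beq (len l) d))
      (an (Nat.ble (up P y) k) (an (Nat.ble (Nat.add 12 (lookM y P.kb)) k) (Nat.ble k (lo P y))))

/-- `u` is certainly an exceptional sender. -/
def ctrU (P : Patch) (u : ℕ) : Bool :=
  frcH (findL P.lk u) fun l => an (Nat.beq (len l) 5)
    (frc (@List.rec ℕ (fun _ => ℕ) 0 (fun z _ ih =>
      cf (Nat.beq (len (findL P.lk z)) 4) 0 (Nat.succ ih)) l) fun i =>
      an (Nat.beq (len (findL P.lk (lnth l (Nat.mod i 5)))) 4)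
        (an (isD P 7 13 (lnth l (Nat.mod (Nat.add i 1) 5)))
          (an (isD P 6 12 (lnth l (Nat.mod (Nat.add i 2) 5)))
            (an (isD P 6 12 (lnth l (Nat.mod (Nat.add i 3) 5)))
              (isD P 7 13 (lnth l (Nat.mod (Nat.add i 4) 5)))))))

/-- `u` may be an exceptional sender with the vertex `m` of degree 4. -/
def mayU (P : Patch) (m u : ℕ) : Bool :=
  frcH (findL P.lk u) fun l => cf (nil l)
    (an (Nat.ble (findB P.lb u) 5) (Nat.beq (lookN u P.kb) 0))
    (an (Nat.beq (len l) 5)
      (frc (posn l m) fun j => cf (Nat.ble 5 j) true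
        (an (mayD P 7 13 (lnth l (Nat.mod (Nat.add j 1) 5)))
          (an (mayD P 6 12 (lnth l (Nat.mod (Nat.add j 2) 5)))
            (an (mayD P 6 12 (lnth l (Nat.mod (Nat.add j 3) 5)))
              (mayD P 7 13 (lnth l (Nat.mod (Nat.add j 4) 5))))))))

/-- The vertex opposite to the hub at its neighbour `m` may be an exceptional sender. -/
def mayM (P : Patch) (m : ℕ) : Bool :=
  frcH (findL P.lk m) fun l => cf (nil l) true
    (frc (posn l 0) fun j => cf (Nat.ble 4 j) true
      (frc (lnth l (Nat.mod (Nat.add j 2) 4)) fun u => mayU P m u))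

/-- An upper bound for the number of the vertices of degree 4 which give more to the hub. -/
def exU (P : Patch) : ℕ :=
  frcH (findL P.lk 0) fun l => frc (len l) fun d =>
    @Nat.rec (fun _ => ℕ) 0 (fun i ih => frc (lnth l i) fun m =>
      cf (an (p4 P m) (an (mayD P 7 13 (lnth l (Nat.mod (Nat.add i 1) d)))
        (an (mayD P 7 13 (lnth l (Nat.mod (Nat.add i (Nat.sub d 1)) d))) (mayM P m))))
        (Nat.succ ih) ih) d

end Pool.Agent.W986.ST.LB
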