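import Pool.Agent.W986.SubIface

/-!
# The global side of the discharging

`dgI`: the degree, 12 outside of the region `I`. `n4`: the number of the neighbours of degree 4
in `I`. `kap2`: twice the charge after every vertex of degree 4 in `I` has given 1/2 to each
neighbour. `give_false`: the exchange of the sums for arbitrary amounts; `prop_false`: the same for
the proportional rule.
-/

set_option autoImplicit false

open Finset

namespace Pool.Agent.W986

variable {V : Type}

open Classical in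
/-- The degree of the vertices of `I`; 12 for the other vertices. -/
noncomputable def dgI (G : SimpleGraph V) (I : Finset V) (x : V) : ℕ :=
  if x ∈ I then {y | G.Adj x y}.ncard else 12

/-- The number of the neighbours of degree 4 in `I`. -/
noncomputable def n4 (G : SimpleGraph V) (I : Finset V) (x : V) : ℕ :=
  {y | G.Adj x y ∧ dgI G I y = 4}.ncard

open Classical in
/-- Twice the charge after the vertices of degree 4 have given 1/2 to each neighbour; the value
`- s` outside of `I`. -/
noncomputable def kap2 (G : SimpleGraph V) (I : Finset V) (s : ℤ) (x : V) : ℤ :=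
  if x ∈ I then (if dgI G I x = 4 then 0 else 12 - 2 * (dgI G I x : ℤ) + (n4 G I x : ℤ)) else - s

section basic

variable {G : SimpleGraph V} {I : Finset V} {s : ℤ} {x : V}

theorem dgI_mem (hx : x ∈ I) : dgI G I x = {y | G.Adj x y}.ncard := if_pos hx

theorem dgI_not_mem (hx : x ∉ I) : dgI G I x = 12 := if_neg hx

theorem mem_of_dgI (hx : dgI G I x < 12) : x ∈ I := by
  by_contra h
  rw [dgI_not_mem h] at hx
  omega

theorem kap2_four (h4 : dgI G I x = 4) : kap2 G I s x = 0 := by
  unfold kap2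
  rw [if_pos (mem_of_dgI (by omega : dgI G I x < 12)), if_pos h4]

theorem kap2_mem (hx : x ∈ I) (h4 : dgI G I x ≠ 4) :
    kap2 G I s x = 12 - 2 * (dgI G I x : ℤ) + (n4 G I x : ℤ) := by
  unfold kap2
  rw [if_pos hx, if_neg h4]

theorem kap2_not_mem (hx : x ∉ I) : kap2 G I s x = - s := if_neg hx

end basic

section rotn

variable {G : SimpleGraph V} {I : Finset V} {s : ℤ} {T : V → V → V → Prop} {x : V} {d : ℕ}
  {ν : ℕ → V}

theorem Rotn.ncard_adj (h : Rotn G T x d ν) : {y | G.Adj x y}.ncard = d := by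
  classical
  have h1 : {y | G.Adj x y} = (((Finset.range d).image ν : Finset V) : Set V) := by
    ext y
    simp only [Set.mem_ofPred_eq, Finset.coe_image, Finset.coe_range, Set.mem_image, Set.mem_Iio]
    rw [h.adj]
  rw [h1, Set.ncard_coe_finset, Finset.card_image_of_injOn, Finset.card_range]
  intro i hi j hj hij
  rw [Finset.coe_range, Set.mem_Iio] at hi hj
  exact h.inj i hi j hj hij

theorem Rotn.dgI_eq (h : Rotn G T x d ν) (hx : x ∈ I) : dgI G I x = d := by
  rw [dgI_mem hx, h.ncard_adj]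

open Classical in
/-- The number of the neighbours of degree 4, counted along the rotation. -/
theorem Rotn.n4_eq (h : Rotn G T x d ν) :
    n4 G I x = ((Finset.range d).filter (fun t => dgI G I (ν t) = 4)).card := by
  have h1 : {y | G.Adj x y ∧ dgI G I y = 4} =
      ((((Finset.range d).filter (fun t => dgI G I (ν t) = 4)).image ν : Finset V) : Set V) := by
    ext y
    simp only [Set.mem_ofPred_eq, Finset.coe_image, Finset.coe_filter, Set.mem_image,
      Finset.mem_range]
    rw [h.adj]
    constructor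
    · rintro ⟨⟨i, hi, rfl⟩, h2⟩
      exact ⟨i, ⟨hi, h2⟩, rfl⟩
    · rintro ⟨i, ⟨hi, h2⟩, rfl⟩
      exact ⟨⟨i, hi, rfl⟩, h2⟩
  unfold n4
  rw [h1, Set.ncard_coe_finset, Finset.card_image_of_injOn]
  intro i hi j hj hij
  rw [Finset.coe_filter, Set.mem_ofPred_eq, Finset.mem_range] at hi hj
  exact h.inj i hi.1 j hj.1 hij

/-- If no two vertices of degree 4 are adjacent, then at most half of the neighbours have
degree 4. -/
theorem Rotn.n4_le (hadj : ∀ x y z, T x y z → G.Adj x y) (hrot : ∀ x y z, T x y z → T y z x)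
    (h : Rotn G T x d ν) (h44 : ∀ x y, G.Adj x y → dgI G I x = 4 → dgI G I y ≠ 4) :
    2 * n4 G I x ≤ d := by
  classical
  rw [h.n4_eq]
  set A := (Finset.range d).filter (fun t => dgI G I (ν t) = 4) with hA
  have hd := h.three
  -- the successors
  have hinj : Set.InjOn (fun t => (t + 1) % d) (A : Set ℕ) := by
    intro i hi j hj hij
    have hi' : i < d := by
      have := (Finset.mem_filter.1 (Finset.mem_coe.1 hi)).1
      exact Finset.mem_range.1 this
    have hj' : j < d := by
      have := (Finset.mem_filter.1 (Finset.mem_coe.1 hj)).1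
      exact Finset.mem_range.1 this
    change (i + 1) % d = (j + 1) % d at hij
    by_cases h1 : i + 1 < d <;> by_cases h2 : j + 1 < d
    · rw [Nat.mod_eq_of_lt h1, Nat.mod_eq_of_lt h2] at hij
      omega
    · rw [Nat.mod_eq_of_lt h1, show j + 1 = d by omega, Nat.mod_self] at hij
      omega
    · rw [Nat.mod_eq_of_lt h2, show i + 1 = d by omega, Nat.mod_self] at hij
      omega
    · omega
  have hdisj : Disjoint A (A.image (fun t => (t + 1) % d)) := by
    rw [Finset.disjoint_left]
    intro t ht ht'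
    obtain ⟨r, hr, hrt⟩ := Finset.mem_image.1 ht'
    have h1 := (Finset.mem_filter.1 ht).2
    have h2 := (Finset.mem_filter.1 hr).2
    have h3 : ν t = ν (r + 1) := by
      rw [← hrt]
      exact h.modEq (Nat.mod_modEq _ _)
    have h4 : G.Adj (ν r) (ν (r + 1)) := hadj _ _ _ (hrot _ _ _ (h.tri_next r))
    rw [h3] at h1
    exact h44 _ _ h4 h2 h1
  have h5 : (A ∪ A.image (fun t => (t + 1) % d)).card ≤ (Finset.range d).card := by
    apply Finset.card_le_card
    intro t ht
    rcases Finset.mem_union.1 ht with h1 | h1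
    · exact (Finset.mem_filter.1 h1).1
    · obtain ⟨r, _, rfl⟩ := Finset.mem_image.1 h1
      exact Finset.mem_range.2 (Nat.mod_lt _ (by omega))
  rw [Finset.card_union_of_disjoint hdisj, Finset.card_image_of_injOn hinj,
    Finset.card_range] at h5
  omega

open Classical in
/-- The value of `kap2` at a vertex of the region which is not of degree 4. -/
theorem Rotn.kap2_eq (h : Rotn G T x d ν) (hx : x ∈ I) (h4 : d ≠ 4) :
    kap2 G I s x = 12 - 2 * (d : ℤ) +
      (((Finset.range d).filter (fun t => dgI G I (ν t) = 4)).card : ℤ) := by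
  rw [kap2_mem hx (by rw [h.dgI_eq hx]; exact h4), h.dgI_eq hx, h.n4_eq]

/-- The value of `kap2` is at most `12 - 2 d + d / 2`. -/
theorem Rotn.kap2_le (hadj : ∀ x y z, T x y z → G.Adj x y) (hrot : ∀ x y z, T x y z → T y z x)
    (h : Rotn G T x d ν) (h44 : ∀ x y, G.Adj x y → dgI G I x = 4 → dgI G I y ≠ 4)
    (hx : x ∈ I) (h4 : d ≠ 4) :
    kap2 G I s x ≤ 12 - 2 * (d : ℤ) + ((d / 2 : ℕ) : ℤ) := by
  have h1 := h.n4_le hadj hrot h44
  rw [kap2_mem hx (by rw [h.dgI_eq hx]; exact h4), h.dgI_eq hx]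
  omega

end rotn

section sums

variable [Fintype V] {S I : Finset V} {G : SimpleGraph V} {T : V → V → V → Prop} {s : ℤ}

open Classical in
/-- The sum over all the vertices. -/
theorem sum_split {M : Type} [AddCommMonoid M] (I : Finset V) (F : V → M) :
    ∑ x, F x = ∑ x ∈ I, F x + ∑ x ∈ univ.filter (fun y => y ∉ I), F x := by
  rw [← Finset.sum_filter_add_sum_filter_not univ (fun y => y ∈ I)]
  congr 1
  apply Finset.sum_congr _ fun _ _ => rfl
  ext y
  simp

open Classical in
/-- The sum over `I`. -/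
theorem sum_mem {M : Type} [AddCommMonoid M] (I : Finset V) (F : V → M) :
    ∑ x ∈ I, F x = ∑ x, if x ∈ I then F x else 0 := by
  rw [← Finset.sum_filter]
  apply Finset.sum_congr _ fun _ _ => rfl
  ext y
  simp

open Classical in
/-- The sum over the neighbours along a rotation. -/
theorem Rotn.sum_adj {M : Type} [AddCommMonoid M] {x : V} {d : ℕ} {ν : ℕ → V}
    (h : Rotn G T x d ν) (F : V → M) :
    ∑ y ∈ univ.filter (fun y => G.Adj x y), F y = ∑ t ∈ range d, F (ν t) := by
  have h1 : univ.filter (fun y => G.Adj x y) = (range d).image ν := by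
    ext y
    simp only [Finset.mem_filter, Finset.mem_univ, true_and, Finset.mem_image, Finset.mem_range]
    rw [h.adj]
  rw [h1, Finset.sum_image]
  intro i hi j hj hij
  rw [Finset.coe_range, Set.mem_Iio] at hi hj
  exact h.inj i hi j hj hij

open Classical in
/-- The number of the neighbours of degree 4, as a sum. -/
theorem n4_sum (x : V) : n4 G I x = ∑ y, if G.Adj x y ∧ dgI G I y = 4 then 1 else 0 := by
  rw [← Finset.card_filter, n4, ← Set.ncard_coe_finset]
  congr 1
  ext y
  simp

open Classical in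
/-- Every vertex of degree 4 in `I` is counted four times. -/
theorem n4_total : ∑ x, n4 G I x = 4 * (I.filter (fun z => dgI G I z = 4)).card := by
  simp_rw [n4_sum]
  rw [Finset.sum_comm]
  have h1 : ∀ y : V, (∑ x, if G.Adj x y ∧ dgI G I y = 4 then 1 else 0) =
      if dgI G I y = 4 then 4 else 0 := by
    intro y
    by_cases h4 : dgI G I y = 4
    · rw [if_pos h4]
      have hy : y ∈ I := mem_of_dgI (G := G) (by omega)
      have h2 := h4
      rw [dgI_mem hy] at h2
      rw [← Finset.card_filter]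
      have h3 : {y_1 | G.Adj y y_1} = ((univ.filter (fun x => G.Adj x y ∧ dgI G I y = 4) :
          Finset V) : Set V) := by
        ext x
        simp [h4, G.adj_comm]
      rw [h3, Set.ncard_coe_finset] at h2
      exact h2
    · rw [if_neg h4]
      simp [h4]
  simp_rw [h1]
  rw [← Finset.sum_filter, Finset.sum_const, smul_eq_mul, mul_comm]
  congr 1
  apply congrArg
  ext z
  simp only [Finset.mem_filter, Finset.mem_univ, true_and]
  constructor
  · intro h
    exact ⟨mem_of_dgI (G := G) (by omega), h⟩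
  · exact fun h => h.2

open Classical in
theorem sum_kap2 (h44 : ∀ x y, G.Adj x y → dgI G I x = 4 → dgI G I y ≠ 4) :
    ∑ x ∈ I, kap2 G I s x + ∑ y ∈ univ.filter (fun y => y ∉ I), (n4 G I y : ℤ) =
      2 * ∑ x ∈ I, (6 - ({y | G.Adj x y}.ncard : ℤ)) := by
  have h1 : ∀ x ∈ I, kap2 G I s x = 2 * (6 - ({y | G.Adj x y}.ncard : ℤ)) + (n4 G I x : ℤ) -
      (if dgI G I x = 4 then 4 else 0) := by
    intro x hx
    by_cases h4 : dgI G I x = 4
    · rw [kap2_four h4, if_pos h4, ← dgI_mem hx, h4]
      have h2 : n4 G I x = 0 := by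
        unfold n4
        rw [Set.ncard_eq_zero]
        ext y
        simp only [Set.mem_ofPred_eq, Set.mem_empty_iff_false, iff_false, not_and]
        exact fun h => h44 x y h h4
      rw [h2]
      norm_num
    · rw [kap2_mem hx h4, if_neg h4, dgI_mem hx]
      ring
  rw [Finset.sum_congr rfl h1, Finset.sum_sub_distrib, Finset.sum_add_distrib, ← Finset.mul_sum]
  have h2 : (∑ x ∈ I, (if dgI G I x = 4 then (4 : ℤ) else 0)) =
      ((4 * (I.filter (fun z => dgI G I z = 4)).card : ℕ) : ℤ) := by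
    rw [← Finset.sum_filter, Finset.sum_const]
    push_cast
    rw [nsmul_eq_mul, mul_comm]
  have h3 : ∑ x ∈ I, (n4 G I x : ℤ) + ∑ y ∈ univ.filter (fun y => y ∉ I), (n4 G I y : ℤ) =
      ((4 * (I.filter (fun z => dgI G I z = 4)).card : ℕ) : ℤ) := by
    rw [← n4_total, sum_split I]
    push_cast
    rfl
  rw [h2, ← h3]
  ring

open Classical in
theorem eout_eq : eout G I = ∑ y ∈ univ.filter (fun y => y ∉ I), {u | G.Adj u y ∧ u ∈ I}.ncard := by
  unfold eout
  have h1 : ∀ x, {y | G.Adj x y ∧ y ∉ I}.ncard = ∑ y ∈ univ.filter (fun y => y ∉ I),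
      if G.Adj x y then 1 else 0 := by
    intro x
    rw [← Finset.card_filter, ← Set.ncard_coe_finset]
    congr 1
    ext y
    simp [and_comm]
  have h2 : ∀ y, {u | G.Adj u y ∧ u ∈ I}.ncard = ∑ u ∈ I, if G.Adj u y then 1 else 0 := by
    intro y
    rw [← Finset.card_filter, ← Set.ncard_coe_finset]
    congr 1
    ext u
    simp [and_comm]
  simp_rw [h1, h2]
  rw [Finset.sum_comm]

/-- The exchange of the sums. The vertex `u` gives the amount `g u y` (twice the charge) to `y`; if
all the vertices of `I` end with a charge at most 0 and the others receive at most 7/10 along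
each edge, then this contradicts the inequality of the region. -/
theorem give_false (R : Region S G T I)
    (h44 : ∀ x y, G.Adj x y → dgI G I x = 4 → dgI G I y ≠ 4) (g : V → V → ℚ)
    (hub : ∀ x ∈ I, (kap2 G I s x : ℚ) + ∑ u ∈ I, g u x ≤ ∑ y, g x y)
    (sink : ∀ y, y ∉ I → (n4 G I y : ℚ) + ∑ u ∈ I, g u y ≤
      7 / 5 * ({u | G.Adj u y ∧ u ∈ I}.ncard : ℚ)) : False := by
  classical
  have h1 : ∑ x ∈ I, ((kap2 G I s x : ℚ) + ∑ u ∈ I, g u x) ≤ ∑ x ∈ I, ∑ y, g x y :=
    Finset.sum_le_sum hub
  rw [Finset.sum_add_distrib] at h1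
  have h2 : ∑ x ∈ I, ∑ y, g x y = ∑ x ∈ I, ∑ u ∈ I, g u x +
      ∑ y ∈ univ.filter (fun y => y ∉ I), ∑ u ∈ I, g u y := by
    rw [Finset.sum_comm (s := I) (t := I)]
    rw [Finset.sum_comm (s := univ.filter (fun y => y ∉ I)) (t := I), ← Finset.sum_add_distrib]
    apply Finset.sum_congr rfl
    intro x _
    exact sum_split I _
  have h3 : ∑ y ∈ univ.filter (fun y => y ∉ I), ((n4 G I y : ℚ) + ∑ u ∈ I, g u y) ≤
      ∑ y ∈ univ.filter (fun y => y ∉ I), 7 / 5 * ({u | G.Adj u y ∧ u ∈ I}.ncard : ℚ) := by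
    apply Finset.sum_le_sum
    intro y hy
    exact sink y (Finset.mem_filter.1 hy).2
  rw [Finset.sum_add_distrib, ← Finset.mul_sum] at h3
  have h5 := sum_kap2 (s := s) h44
  have h6 := R.sum
  have h7 : (eout G I : ℚ) = ∑ y ∈ univ.filter (fun y => y ∉ I),
      ({u | G.Adj u y ∧ u ∈ I}.ncard : ℚ) := by
    rw [eout_eq]
    push_cast
    rfl
  rw [← h7] at h3
  have h8 : (∑ x ∈ I, (kap2 G I s x : ℚ)) + ∑ y ∈ univ.filter (fun y => y ∉ I), (n4 G I y : ℚ) =
      2 * ((∑ x ∈ I, (6 - ({y | G.Adj x y}.ncard : ℤ)) : ℤ) : ℚ) := by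
    have h9 := congrArg (fun z : ℤ => (z : ℚ)) h5
    push_cast at h9 ⊢
    exact h9
  have h10 : (7 : ℚ) * (eout G I : ℚ) <
      10 * ((∑ x ∈ I, (6 - ({y | G.Adj x y}.ncard : ℤ)) : ℤ) : ℚ) := by
    exact_mod_cast h6
  linarith

open Classical in
/-- The sum of the weights of the neighbours. -/
noncomputable def Wsum (G : SimpleGraph V) (w : V → ℕ) (u : V) : ℕ :=
  ∑ y ∈ univ.filter (fun y => G.Adj u y), w y

theorem Rotn.Wsum_eq {x : V} {d : ℕ} {ν : ℕ → V} (h : Rotn G T x d ν) (w : V → ℕ) :
    Wsum G w x = ∑ t ∈ range d, w (ν t) := h.sum_adj w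

open Classical in
/-- The proportional rule: a vertex `u` with positive charge distributes it to its neighbours in
proportion to the weights `w`. -/
theorem prop_false (R : Region S G T I)
    (h44 : ∀ x y, G.Adj x y → dgI G I x = 4 → dgI G I y ≠ 4) (w : V → ℕ)
    (hw : ∀ x ∈ I, 0 ≤ kap2 G I s x → w x = 0)
    (hub : ∀ x ∈ I, kap2 G I s x < 0 →
      ∑ u ∈ univ.filter (fun u => G.Adj x u),
        (if u ∈ I ∧ 0 < kap2 G I s u then (kap2 G I s u : ℚ) * w x / Wsum G w u else 0) ≤
        - (kap2 G I s x : ℚ))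
    (pos : ∀ u ∈ I, 0 < kap2 G I s u → 0 < Wsum G w u)
    (sink : ∀ u ∈ I, 0 < kap2 G I s u → ∀ y, y ∉ I → G.Adj u y →
      5 * kap2 G I s u * w y ≤ 7 * (Wsum G w u : ℤ)) : False := by
  let g : V → V → ℚ := fun u y => if (u ∈ I ∧ 0 < kap2 G I s u) ∧ G.Adj u y then
    (kap2 G I s u : ℚ) * w y / Wsum G w u else 0
  have hg : ∀ u y, g u y = if (u ∈ I ∧ 0 < kap2 G I s u) ∧ G.Adj u y then
    (kap2 G I s u : ℚ) * w y / Wsum G w u else 0 := fun _ _ => rfl
  -- what is received
  have hin : ∀ x, ∑ u ∈ I, g u x = ∑ u ∈ univ.filter (fun u => G.Adj x u),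
      (if u ∈ I ∧ 0 < kap2 G I s u then (kap2 G I s u : ℚ) * w x / Wsum G w u else 0) := by
    intro x
    rw [sum_mem I, Finset.sum_filter]
    apply Finset.sum_congr rfl
    intro u _
    rw [hg]
    by_cases h1 : u ∈ I <;> by_cases h2 : G.Adj x u <;>
      simp [h1, h2, G.adj_comm u x]
  -- what is given
  have hout : ∀ x ∈ I, ∑ y, g x y = if 0 < kap2 G I s x then (kap2 G I s x : ℚ) else 0 := by
    intro x hx
    by_cases h1 : 0 < kap2 G I s x
    · rw [if_pos h1]
      have h2 : ∑ y, g x y = ∑ y ∈ univ.filter (fun y => G.Adj x y),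
          (kap2 G I s x : ℚ) * w y / Wsum G w x := by
        rw [Finset.sum_filter]
        apply Finset.sum_congr rfl
        intro y _
        rw [hg]
        by_cases h3 : G.Adj x y <;> simp [h1, hx, h3]
      rw [h2, ← Finset.sum_div, ← Finset.mul_sum]
      have h3 := pos x hx h1
      have h4 : (∑ y ∈ univ.filter (fun y => G.Adj x y), (w y : ℚ)) = (Wsum G w x : ℚ) := by
        unfold Wsum
        push_cast
        rfl
      rw [h4]
      have h5 : (Wsum G w x : ℚ) ≠ 0 := by
        exact_mod_cast h3.ne'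
      field_simp
    · rw [if_neg h1]
      apply Finset.sum_eq_zero
      intro y _
      rw [hg, if_neg]
      exact fun h => h1 h.1.2
  refine give_false (s := s) R h44 g ?_ ?_
  · intro x hx
    rw [hout x hx]
    rcases lt_trichotomy (kap2 G I s x) 0 with h1 | h1 | h1
    · rw [if_neg (by omega), hin]
      have := hub x hx h1
      linarith
    · rw [if_neg (by omega), h1]
      have h2 : w x = 0 := hw x hx h1.ge
      have h3 : ∑ u ∈ I, g u x = 0 := by
        apply Finset.sum_eq_zero
        intro u _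
        rw [hg, h2]
        simp
      rw [h3]
      simp
    · rw [if_pos h1]
      have h2 : w x = 0 := hw x hx h1.le
      have h3 : ∑ u ∈ I, g u x = 0 := by
        apply Finset.sum_eq_zero
        intro u _
        rw [hg, h2]
        simp
      rw [h3]
      simp
  · intro y hy
    have h1 : (n4 G I y : ℚ) = ∑ u ∈ I, if G.Adj u y ∧ dgI G I u = 4 then (1 : ℚ) else 0 := by
      rw [n4_sum, sum_mem I]
      push_cast
      apply Finset.sum_congr rfl
      intro u _
      by_cases h5 : u ∈ I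
      · rw [if_pos h5]
        simp [G.adj_comm]
      · rw [if_neg h5, if_neg]
        intro h6
        have h7 := h6.2
        exact h5 (mem_of_dgI (by rw [h7]; norm_num))
    have h2 : ({u | G.Adj u y ∧ u ∈ I}.ncard : ℚ) = ∑ u ∈ I, if G.Adj u y then (1 : ℚ) else 0 := by
      have h3 : {u | G.Adj u y ∧ u ∈ I}.ncard = (I.filter (fun u => G.Adj u y)).card := by
        rw [← Set.ncard_coe_finset]
        congr 1
        ext u
        simp [and_comm]
      rw [h3, Finset.card_filter]
      push_cast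
      rfl
    rw [h1, h2, Finset.mul_sum, ← Finset.sum_add_distrib]
    apply Finset.sum_le_sum
    intro u hu
    rw [hg]
    by_cases h3 : G.Adj u y
    · by_cases h4 : dgI G I u = 4
      · rw [kap2_four h4]
        simp [h3, h4]
        norm_num
      · by_cases h5 : 0 < kap2 G I s u
        · have h6 := sink u hu h5 y hy h3
          have h7 := pos u hu h5
          have h8 : (0 : ℚ) < (Wsum G w u : ℚ) := by exact_mod_cast h7
          have h9 : (5 : ℚ) * kap2 G I s u * w y ≤ 7 * (Wsum G w u : ℚ) := by exact_mod_cast h6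
          simp only [h3, h4, h5, hu, and_self, and_false, if_true, if_false, zero_add, mul_one]
          rw [div_le_iff₀ h8]
          linarith
        · simp only [h3, h4, h5, and_false, false_and, if_true, if_false]
          norm_num
    · simp [h3]

end sums

/-! ### Corners without a cap per edge -/

section corners

variable [Fintype V] {I : Finset V} {G : SimpleGraph V} {T : V → V → V → Prop} {s : ℤ}

/-- The number of the neighbours outside of `I`. -/
noncomputable def sout (G : SimpleGraph V) (I : Finset V) (u : V) : ℕ :=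
  {y | G.Adj u y ∧ y ∉ I}.ncard

open Classical in
theorem n4_out : ∑ y ∈ univ.filter (fun y => y ∉ I), (n4 G I y : ℚ) =
    ∑ u ∈ I, if dgI G I u = 4 then (sout G I u : ℚ) else 0 := by
  have h1 : ∀ u ∈ I, (if dgI G I u = 4 then (sout G I u : ℚ) else 0) =
      ∑ y ∈ univ.filter (fun y => y ∉ I), if G.Adj y u ∧ dgI G I u = 4 then (1 : ℚ) else 0 := by
    intro u _
    by_cases h4 : dgI G I u = 4
    · rw [if_pos h4]
      have h2 : sout G I u = ((univ.filter (fun y => y ∉ I)).filter (fun y => G.Adj y u)).card := by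
        unfold sout
        rw [← Set.ncard_coe_finset]
        congr 1
        ext y
        simp [and_comm, G.adj_comm]
      rw [h2, Finset.card_filter]
      push_cast
      apply Finset.sum_congr rfl
      intro y _
      simp [h4]
    · simp [h4]
  rw [Finset.sum_congr rfl h1, Finset.sum_comm]
  apply Finset.sum_congr rfl
  intro y _
  rw [n4_sum, sum_mem I]
  push_cast
  apply Finset.sum_congr rfl
  intro u _
  by_cases h5 : u ∈ I
  · rw [if_pos h5]
  · rw [if_neg h5, if_neg]
    intro h6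
    have h7 := h6.2
    exact h5 (mem_of_dgI (by rw [h7]; norm_num))

open Classical in
/-- The exchange of the sums, general form: `g u y` is the amount (twice the charge, of any sign)
which `u` gives to `y` in addition to the 1/2 which the vertices of degree 4 give to each
neighbour. If all the vertices of `I` end with a charge at most 0, then the total charge goes to
the outside. -/
theorem give_sum (h44 : ∀ x y, G.Adj x y → dgI G I x = 4 → dgI G I y ≠ 4) (g : V → V → ℚ)
    (hub : ∀ x ∈ I, (kap2 G I s x : ℚ) + ∑ u ∈ I, g u x ≤ ∑ y, g x y) :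
    2 * ((∑ x ∈ I, (6 - ({y | G.Adj x y}.ncard : ℤ)) : ℤ) : ℚ) ≤
      ∑ u ∈ I, (∑ y ∈ univ.filter (fun y => y ∉ I), g u y +
        (if dgI G I u = 4 then (sout G I u : ℚ) else 0)) := by
  have h1 : ∑ x ∈ I, ((kap2 G I s x : ℚ) + ∑ u ∈ I, g u x) ≤ ∑ x ∈ I, ∑ y, g x y :=
    Finset.sum_le_sum hub
  rw [Finset.sum_add_distrib] at h1
  have h2 : ∑ x ∈ I, ∑ y, g x y = ∑ x ∈ I, ∑ u ∈ I, g u x +
      ∑ u ∈ I, ∑ y ∈ univ.filter (fun y => y ∉ I), g u y := by
    rw [Finset.sum_comm (s := I) (t := I), ← Finset.sum_add_distrib]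
    apply Finset.sum_congr rfl
    intro x _
    exact sum_split I _
  have h5 := sum_kap2 (s := s) h44
  have h8 : (∑ x ∈ I, (kap2 G I s x : ℚ)) + ∑ y ∈ univ.filter (fun y => y ∉ I), (n4 G I y : ℚ) =
      2 * ((∑ x ∈ I, (6 - ({y | G.Adj x y}.ncard : ℤ)) : ℤ) : ℚ) := by
    have h9 := congrArg (fun z : ℤ => (z : ℚ)) h5
    push_cast at h9 ⊢
    exact h9
  rw [n4_out] at h8
  rw [Finset.sum_add_distrib]
  linarith

open Classical in
/-- The exchange of the sums for a disc with four corners (or the whole surface, `eout = 0`). Here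
the amounts (twice the charge) which a vertex gives to the outside are at most twice the number of
its outer neighbours, and less by one for the vertices with two outer neighbours. -/
theorem give_false2 (heu : (eout G I : ℤ) ≤ ∑ x ∈ I, (6 - ({y | G.Adj x y}.ncard : ℤ)) + 2)
    (hpos : 0 < ∑ x ∈ I, (6 - ({y | G.Adj x y}.ncard : ℤ)))
    (side : eout G I = 0 ∨ ∃ P : Finset V, P ⊆ I ∧ 4 ≤ P.card ∧ ∀ p ∈ P, sout G I p = 2)
    (h44 : ∀ x y, G.Adj x y → dgI G I x = 4 → dgI G I y ≠ 4) (g : V → V → ℚ)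
    (hub : ∀ x ∈ I, (kap2 G I s x : ℚ) + ∑ u ∈ I, g u x ≤ ∑ y, g x y)
    (out1 : ∀ u ∈ I, dgI G I u ≠ 4 →
      ∑ y ∈ univ.filter (fun y => y ∉ I), g u y ≤ 2 * (sout G I u : ℚ))
    (out2 : ∀ u ∈ I, dgI G I u ≠ 4 → sout G I u = 2 →
      ∑ y ∈ univ.filter (fun y => y ∉ I), g u y < 3)
    (out4 : ∀ u ∈ I, dgI G I u = 4 → ∑ y ∈ univ.filter (fun y => y ∉ I), g u y ≤ 0) : False := by
  have h10 := give_sum h44 g hub
  set F : V → ℚ := fun u => ∑ y ∈ univ.filter (fun y => y ∉ I), g u y +
    (if dgI G I u = 4 then (sout G I u : ℚ) else 0) with hF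
  have h11 : ∀ u ∈ I, F u ≤ 2 * (sout G I u : ℚ) := by
    intro u hu
    by_cases h4 : dgI G I u = 4
    · have h12 := out4 u hu h4
      simp only [hF, h4, if_true]
      have h13 : (0 : ℚ) ≤ (sout G I u : ℚ) := Nat.cast_nonneg _
      linarith
    · have h12 := out1 u hu h4
      simp only [hF, h4, if_false, add_zero]
      exact h12
  have h14 : (eout G I : ℚ) = ∑ u ∈ I, (sout G I u : ℚ) := by
    unfold eout sout
    push_cast
    rfl
  rcases side with h0 | ⟨P, hP, hcard, h2s⟩
  · rw [h0] at h14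
    have h15 : ∑ u ∈ I, F u ≤ ∑ u ∈ I, 2 * (sout G I u : ℚ) := Finset.sum_le_sum h11
    rw [← Finset.mul_sum, ← h14] at h15
    have h16 : (0 : ℚ) < ((∑ x ∈ I, (6 - ({y | G.Adj x y}.ncard : ℤ)) : ℤ) : ℚ) := by
      exact_mod_cast hpos
    norm_num at h15
    linarith
  · have h15 : ∀ p ∈ P, F p < 2 * (sout G I p : ℚ) - 1 := by
      intro p hp
      have hpI := hP hp
      by_cases h4 : dgI G I p = 4
      · have h12 := out4 p hpI h4
        simp only [hF, h4, if_true, h2s p hp]
        push_cast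
        linarith
      · have h12 := out2 p hpI h4 (h2s p hp)
        simp only [hF, h4, if_false, add_zero, h2s p hp]
        push_cast
        linarith
    have hne : P.Nonempty := Finset.card_pos.1 (by omega)
    have h16 : ∑ p ∈ P, F p < ∑ p ∈ P, (2 * (sout G I p : ℚ) - 1) :=
      Finset.sum_lt_sum_of_nonempty hne h15
    have h17 : ∑ u ∈ I \ P, F u ≤ ∑ u ∈ I \ P, 2 * (sout G I u : ℚ) :=
      Finset.sum_le_sum fun u hu => h11 u (Finset.mem_sdiff.1 hu).1
    have h18 : ∑ u ∈ I, F u = ∑ u ∈ I \ P, F u + ∑ p ∈ P, F p :=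
      (Finset.sum_sdiff hP).symm
    have h19 : ∑ u ∈ I, 2 * (sout G I u : ℚ) =
        ∑ u ∈ I \ P, 2 * (sout G I u : ℚ) + ∑ p ∈ P, 2 * (sout G I p : ℚ) :=
      (Finset.sum_sdiff hP).symm
    rw [Finset.sum_sub_distrib, Finset.sum_const, nsmul_eq_mul, mul_one] at h16
    rw [← Finset.mul_sum, ← h14] at h19
    have h20 : (4 : ℚ) ≤ (P.card : ℚ) := by exact_mod_cast hcard
    have h21 : (eout G I : ℚ) ≤
        ((∑ x ∈ I, (6 - ({y | G.Adj x y}.ncard : ℤ)) : ℤ) : ℚ) + 2 := by
      exact_mod_cast heu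
    linarith

open Classical in
/-- The proportional rule; all the vertices outside of `I` have the same weight `w0`. -/
theorem prop_false2 (heu : (eout G I : ℤ) ≤ ∑ x ∈ I, (6 - ({y | G.Adj x y}.ncard : ℤ)) + 2)
    (hsum : 0 < ∑ x ∈ I, (6 - ({y | G.Adj x y}.ncard : ℤ)))
    (side : eout G I = 0 ∨ ∃ P : Finset V, P ⊆ I ∧ 4 ≤ P.card ∧ ∀ p ∈ P, sout G I p = 2)
    (h44 : ∀ x y, G.Adj x y → dgI G I x = 4 → dgI G I y ≠ 4) (w : V → ℕ) (w0 : ℕ)
    (hw0 : ∀ y, y ∉ I → w y = w0)
    (hw : ∀ x ∈ I, 0 ≤ kap2 G I s x → w x = 0)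
    (hub : ∀ x ∈ I, kap2 G I s x < 0 →
      ∑ u ∈ univ.filter (fun u => G.Adj x u),
        (if u ∈ I ∧ 0 < kap2 G I s u then (kap2 G I s u : ℚ) * w x / Wsum G w u else 0) ≤
        - (kap2 G I s x : ℚ))
    (pos : ∀ u ∈ I, 0 < kap2 G I s u → 0 < Wsum G w u)
    (out1 : ∀ u ∈ I, 0 < kap2 G I s u → 0 < sout G I u →
      kap2 G I s u * w0 ≤ 2 * (Wsum G w u : ℤ))
    (out2 : ∀ u ∈ I, 0 < kap2 G I s u → sout G I u = 2 →
      2 * kap2 G I s u * w0 < 3 * (Wsum G w u : ℤ)) : False := by
  let g : V → V → ℚ := fun u y => if (u ∈ I ∧ 0 < kap2 G I s u) ∧ G.Adj u y then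
    (kap2 G I s u : ℚ) * w y / Wsum G w u else 0
  have hg : ∀ u y, g u y = if (u ∈ I ∧ 0 < kap2 G I s u) ∧ G.Adj u y then
    (kap2 G I s u : ℚ) * w y / Wsum G w u else 0 := fun _ _ => rfl
  have hin : ∀ x, ∑ u ∈ I, g u x = ∑ u ∈ univ.filter (fun u => G.Adj x u),
      (if u ∈ I ∧ 0 < kap2 G I s u then (kap2 G I s u : ℚ) * w x / Wsum G w u else 0) := by
    intro x
    rw [sum_mem I, Finset.sum_filter]
    apply Finset.sum_congr rfl
    intro u _
    rw [hg]
    by_cases h1 : u ∈ I <;> by_cases h2 : G.Adj x u <;>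
      simp [h1, h2, G.adj_comm u x]
  have hout : ∀ x ∈ I, ∑ y, g x y = if 0 < kap2 G I s x then (kap2 G I s x : ℚ) else 0 := by
    intro x hx
    by_cases h1 : 0 < kap2 G I s x
    · rw [if_pos h1]
      have h2 : ∑ y, g x y = ∑ y ∈ univ.filter (fun y => G.Adj x y),
          (kap2 G I s x : ℚ) * w y / Wsum G w x := by
        rw [Finset.sum_filter]
        apply Finset.sum_congr rfl
        intro y _
        rw [hg]
        by_cases h3 : G.Adj x y <;> simp [h1, hx, h3]
      rw [h2, ← Finset.sum_div, ← Finset.mul_sum]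
      have h3 := pos x hx h1
      have h4 : (∑ y ∈ univ.filter (fun y => G.Adj x y), (w y : ℚ)) = (Wsum G w x : ℚ) := by
        unfold Wsum
        push_cast
        rfl
      rw [h4]
      have h5 : (Wsum G w x : ℚ) ≠ 0 := by
        exact_mod_cast h3.ne'
      field_simp
    · rw [if_neg h1]
      apply Finset.sum_eq_zero
      intro y _
      rw [hg, if_neg]
      exact fun h => h1 h.1.2
  -- the amount which is given to the outside
  have hS : ∀ u ∈ I, ∑ y ∈ univ.filter (fun y => y ∉ I), g u y =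
      if 0 < kap2 G I s u then (sout G I u : ℚ) * ((kap2 G I s u : ℚ) * w0 / Wsum G w u) else 0 := by
    intro u hu
    by_cases h1 : 0 < kap2 G I s u
    · rw [if_pos h1]
      have h2 : sout G I u = ((univ.filter (fun y => y ∉ I)).filter (fun y => G.Adj u y)).card := by
        unfold sout
        rw [← Set.ncard_coe_finset]
        congr 1
        ext y
        simp [and_comm]
      rw [h2, ← nsmul_eq_mul, ← Finset.sum_const, Finset.sum_filter (fun y => G.Adj u y)]
      apply Finset.sum_congr rfl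
      intro y hy
      have h3 := (Finset.mem_filter.1 hy).2
      rw [hg, hw0 y h3]
      by_cases h4 : G.Adj u y <;> simp [h1, hu, h4]
    · rw [if_neg h1]
      apply Finset.sum_eq_zero
      intro y _
      rw [hg, if_neg]
      exact fun h => h1 h.1.2
  refine give_false2 (s := s) heu hsum side h44 g ?_ ?_ ?_ ?_
  · intro x hx
    rw [hout x hx]
    rcases lt_trichotomy (kap2 G I s x) 0 with h1 | h1 | h1
    · rw [if_neg (by omega), hin]
      have := hub x hx h1
      linarith
    · rw [if_neg (by omega), h1]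
      have h2 : w x = 0 := hw x hx h1.ge
      have h3 : ∑ u ∈ I, g u x = 0 := by
        apply Finset.sum_eq_zero
        intro u _
        rw [hg, h2]
        simp
      rw [h3]
      simp
    · rw [if_pos h1]
      have h2 : w x = 0 := hw x hx h1.le
      have h3 : ∑ u ∈ I, g u x = 0 := by
        apply Finset.sum_eq_zero
        intro u _
        rw [hg, h2]
        simp
      rw [h3]
      simp
  · intro u hu _
    rw [hS u hu]
    by_cases h1 : 0 < kap2 G I s u
    · rw [if_pos h1]
      rcases Nat.eq_zero_or_pos (sout G I u) with h2 | h2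
      · rw [h2]
        simp
      · have h3 := out1 u hu h1 h2
        have h4 : (0 : ℚ) < (Wsum G w u : ℚ) := by exact_mod_cast pos u hu h1
        have h5 : (kap2 G I s u : ℚ) * w0 ≤ 2 * (Wsum G w u : ℚ) := by exact_mod_cast h3
        have h6 : (kap2 G I s u : ℚ) * w0 / Wsum G w u ≤ 2 := by
          rw [div_le_iff₀ h4]
          exact h5
        have h7 : (0 : ℚ) ≤ (sout G I u : ℚ) := Nat.cast_nonneg _
        rw [mul_comm 2]
        exact mul_le_mul_of_nonneg_left h6 h7
    · rw [if_neg h1]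
      positivity
  · intro u hu _ h2
    rw [hS u hu]
    by_cases h1 : 0 < kap2 G I s u
    · rw [if_pos h1, h2]
      have h3 := out2 u hu h1 h2
      have h4 : (0 : ℚ) < (Wsum G w u : ℚ) := by exact_mod_cast pos u hu h1
      have h5 : 2 * (kap2 G I s u : ℚ) * w0 < 3 * (Wsum G w u : ℚ) := by exact_mod_cast h3
      have h6 : ((2 : ℕ) : ℚ) * ((kap2 G I s u : ℚ) * w0 / Wsum G w u) =
          (2 * (kap2 G I s u : ℚ) * w0) / Wsum G w u := by
        push_cast
        ring
      rw [h6, div_lt_iff₀ h4]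
      exact h5
    · rw [if_neg h1]
      norm_num
  · intro u hu h4
    rw [hS u hu, kap2_four h4]
    simp

end corners

/-! ### The vertices with outer neighbours give everything to the outside -/

section all

variable [Fintype V] {I : Finset V} {G : SimpleGraph V} {T : V → V → V → Prop} {s : ℤ}

/-- The vertex has a positive charge and a neighbour outside of `I`. -/
def BadV (G : SimpleGraph V) (I : Finset V) (s : ℤ) (x : V) : Prop :=
  0 < kap2 G I s x ∧ ∃ y, G.Adj x y ∧ y ∉ I

open Classical in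
/-- A vertex with a positive charge, all of whose neighbours are in `I`, gives `gk u` to its
neighbours in proportion to the weights; `ext x` is what `x` receives in addition, and `e u` what
`u` has given away before. -/
theorem prop_sum (w : V → ℕ) (gk e ext : V → ℚ) (X : ℚ) (term : V → ℚ)
    (hterm : ∀ u, term u = if u ∈ I ∧ 0 < kap2 G I s u ∧ ∀ y, G.Adj u y → y ∈ I then
      gk u / Wsum G w u else 0)
    (hw : ∀ x ∈ I, 0 ≤ kap2 G I s x → w x = 0)
    (hub : ∀ x ∈ I, kap2 G I s x < 0 →
      (∑ u ∈ univ.filter (fun u => G.Adj x u), term u) * w x + ext x ≤ - (kap2 G I s x : ℚ))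
    (ext0 : ∀ x ∈ I, 0 ≤ kap2 G I s x → ext x = 0)
    (pos : ∀ u ∈ I, 0 < kap2 G I s u → (∀ y, G.Adj u y → y ∈ I) → 0 < Wsum G w u)
    (he : ∀ u, gk u = kap2 G I s u - e u)
    (hX : ∑ u ∈ I.filter (fun u => 0 < kap2 G I s u ∧ ∀ y, G.Adj u y → y ∈ I), e u ≤
      ∑ x ∈ I, ext x + X) :
    ∑ x ∈ I.filter (fun x => ¬ BadV G I s x), (kap2 G I s x : ℚ) ≤ X := by
  set P := I.filter (fun u => 0 < kap2 G I s u ∧ ∀ y, G.Adj u y → y ∈ I) with hP
  set N := I.filter (fun x => kap2 G I s x < 0) with hN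
  -- the sum of the charges
  have h1 : ∑ x ∈ I.filter (fun x => ¬ BadV G I s x), (kap2 G I s x : ℚ) =
      ∑ u ∈ P, (kap2 G I s u : ℚ) + ∑ x ∈ N, (kap2 G I s x : ℚ) := by
    rw [hP, hN, Finset.sum_filter, Finset.sum_filter, Finset.sum_filter,
      ← Finset.sum_add_distrib]
    apply Finset.sum_congr rfl
    intro x _
    rcases lt_trichotomy (kap2 G I s x) 0 with h2 | h2 | h2
    · have h3 : ¬ BadV G I s x := fun h => by have := h.1; omega
      rw [if_pos h3, if_neg (by omega), if_pos h2, zero_add]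
    · have h3 : ¬ BadV G I s x := fun h => by have := h.1; omega
      rw [if_pos h3, if_neg (by omega), if_neg (by omega), h2]
      norm_num
    · by_cases h4 : ∀ y, G.Adj x y → y ∈ I
      · have h3 : ¬ BadV G I s x := by
          rintro ⟨_, y, hy, hyI⟩
          exact hyI (h4 y hy)
        rw [if_pos h3, if_pos ⟨h2, h4⟩, if_neg (by omega), add_zero]
      · have h3 : BadV G I s x := by
          push Not at h4
          obtain ⟨y, hy, hyI⟩ := h4
          exact ⟨h2, y, hy, hyI⟩
        rw [if_neg (by simpa using h3), if_neg (fun h => h4 h.2), if_neg (by omega), add_zero]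
  -- what is given
  have h2 : ∀ u ∈ P, gk u = ∑ y ∈ univ.filter (fun y => G.Adj u y), term u * w y := by
    intro u hu
    obtain ⟨huI, h3, h4⟩ := Finset.mem_filter.1 hu
    have h5 := pos u huI h3 h4
    rw [← Finset.mul_sum, hterm, if_pos ⟨huI, h3, h4⟩]
    have h6 : (∑ y ∈ univ.filter (fun y => G.Adj u y), (w y : ℚ)) = (Wsum G w u : ℚ) := by
      unfold Wsum
      push_cast
      rfl
    rw [h6]
    have h7 : (Wsum G w u : ℚ) ≠ 0 := by exact_mod_cast h5.ne'
    field_simp
  have h3 : ∑ u ∈ P, gk u = ∑ x ∈ N, (∑ u ∈ univ.filter (fun u => G.Adj x u), term u) * w x := by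
    rw [Finset.sum_congr rfl h2]
    have h4 : ∑ u ∈ P, ∑ y ∈ univ.filter (fun y => G.Adj u y), term u * w y =
        ∑ u, ∑ y, (if u ∈ P then (if G.Adj u y then term u * (w y : ℚ) else 0) else 0) := by
      rw [sum_mem P]
      apply Finset.sum_congr rfl
      intro u _
      by_cases hu : u ∈ P
      · simp only [hu, if_true]
        rw [Finset.sum_filter]
      · simp [hu]
    have h5 : ∑ x ∈ N, (∑ u ∈ univ.filter (fun u => G.Adj x u), term u) * w x =
        ∑ x, ∑ u, (if x ∈ N then (if G.Adj x u then term u * (w x : ℚ) else 0) else 0) := by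
      rw [sum_mem N]
      apply Finset.sum_congr rfl
      intro x _
      by_cases hx : x ∈ N
      · simp only [hx, if_true]
        rw [Finset.sum_mul, Finset.sum_filter]
      · simp [hx]
    rw [h4, h5, Finset.sum_comm]
    apply Finset.sum_congr rfl
    intro x _
    apply Finset.sum_congr rfl
    intro u _
    by_cases h6 : G.Adj x u
    · have h6' : G.Adj u x := h6.symm
      simp only [h6, h6', if_true]
      by_cases hu : u ∈ P
      · rw [if_pos hu]
        by_cases hx : x ∈ N
        · rw [if_pos hx]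
        · rw [if_neg hx]
          have hxI : x ∈ I := (Finset.mem_filter.1 hu).2.2 x h6'
          have h7 : 0 ≤ kap2 G I s x := by
            by_contra hcon
            exact hx (Finset.mem_filter.2 ⟨hxI, by omega⟩)
          rw [hw x hxI h7]
          simp
      · rw [if_neg hu]
        by_cases hx : x ∈ N
        · rw [if_pos hx]
          have h7 : term u = 0 := by
            rw [hterm, if_neg]
            rintro ⟨ha, hb, hc⟩
            exact hu (Finset.mem_filter.2 ⟨ha, hb, hc⟩)
          rw [h7, zero_mul]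
        · rw [if_neg hx]
    · have h6' : ¬ G.Adj u x := fun h => h6 h.symm
      simp [h6, h6']
  have h4 : ∑ x ∈ N, ((∑ u ∈ univ.filter (fun u => G.Adj x u), term u) * w x + ext x) ≤
      ∑ x ∈ N, - (kap2 G I s x : ℚ) := by
    apply Finset.sum_le_sum
    intro x hx
    obtain ⟨hxI, hx0⟩ := Finset.mem_filter.1 hx
    exact hub x hxI hx0
  rw [Finset.sum_add_distrib, Finset.sum_neg_distrib] at h4
  have h5 : ∑ x ∈ N, ext x = ∑ x ∈ I, ext x := by
    rw [hN, Finset.sum_filter]
    apply Finset.sum_congr rfl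
    intro x hx
    by_cases h6 : kap2 G I s x < 0
    · rw [if_pos h6]
    · rw [if_neg h6, ext0 x hx (by omega)]
  have h6 : ∑ u ∈ P, gk u = ∑ u ∈ P, (kap2 G I s u : ℚ) - ∑ u ∈ P, e u := by
    rw [← Finset.sum_sub_distrib]
    exact Finset.sum_congr rfl fun u _ => he u
  rw [h1]
  linarith

open Classical in
/-- The contradiction. -/
theorem prop_false3 (h44 : ∀ x y, G.Adj x y → dgI G I x = 4 → dgI G I y ≠ 4) (X : ℚ)
    (hP : ∑ x ∈ I.filter (fun x => ¬ BadV G I s x), (kap2 G I s x : ℚ) ≤ X)
    (hb : ((∀ x ∈ I, ∀ y, G.Adj x y → y ∈ I) ∧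
        ∑ x ∈ I, (6 - ({y | G.Adj x y}.ncard : ℤ)) = 6 ∧ X ≤ 0) ∨
      (∑ x ∈ I, (6 - ({y | G.Adj x y}.ncard : ℤ)) = eout G I - 2 ∧
        4 + X < ∑ u ∈ I, (2 * (sout G I u : ℚ) -
          (if dgI G I u = 4 then (sout G I u : ℚ) else 0) -
          (if 0 < kap2 G I s u ∧ 0 < sout G I u then (kap2 G I s u : ℚ) else 0)))) : False := by
  have h5 := sum_kap2 (s := s) h44
  have h8 : (∑ x ∈ I, (kap2 G I s x : ℚ)) + ∑ y ∈ univ.filter (fun y => y ∉ I), (n4 G I y : ℚ) =
      2 * ((∑ x ∈ I, (6 - ({y | G.Adj x y}.ncard : ℤ)) : ℤ) : ℚ) := by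
    have h9 := congrArg (fun z : ℤ => (z : ℚ)) h5
    push_cast at h9 ⊢
    exact h9
  rw [n4_out] at h8
  have hbad : ∀ u ∈ I, BadV G I s u ↔ 0 < kap2 G I s u ∧ 0 < sout G I u := by
    intro u _
    unfold BadV sout
    constructor
    · rintro ⟨h1, y, hy, hyI⟩
      exact ⟨h1, Set.ncard_pos (Set.toFinite _) |>.2 ⟨y, hy, hyI⟩⟩
    · rintro ⟨h1, h2⟩
      obtain ⟨y, hy, hyI⟩ := (Set.ncard_pos (Set.toFinite _)).1 h2
      exact ⟨h1, y, hy, hyI⟩
  have h1 : ∑ x ∈ I, (kap2 G I s x : ℚ) =
      ∑ x ∈ I.filter (fun x => ¬ BadV G I s x), (kap2 G I s x : ℚ) +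
      ∑ u ∈ I, (if 0 < kap2 G I s u ∧ 0 < sout G I u then (kap2 G I s u : ℚ) else 0) := by
    rw [Finset.sum_filter, ← Finset.sum_add_distrib]
    apply Finset.sum_congr rfl
    intro u hu
    by_cases h2 : BadV G I s u
    · rw [if_neg (by simpa using h2), if_pos ((hbad u hu).1 h2), zero_add]
    · rw [if_pos h2, if_neg (fun h => h2 ((hbad u hu).2 h)), add_zero]
  rcases hb with ⟨hc, hsum, hX⟩ | ⟨hsum, hsink⟩
  · have h2 : ∀ u ∈ I, sout G I u = 0 := by
      intro u hu
      unfold sout
      rw [Set.ncard_eq_zero]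
      ext y
      simp only [Set.mem_ofPred_eq, Set.mem_empty_iff_false, iff_false, not_and, not_not]
      exact fun h => hc u hu y h
    have h3 : ∑ u ∈ I, (if 0 < kap2 G I s u ∧ 0 < sout G I u then (kap2 G I s u : ℚ) else 0) =
        0 := by
      apply Finset.sum_eq_zero
      intro u hu
      rw [if_neg]
      rw [h2 u hu]
      omega
    have h4 : ∑ u ∈ I, (if dgI G I u = 4 then (sout G I u : ℚ) else 0) = 0 := by
      apply Finset.sum_eq_zero
      intro u hu
      rw [h2 u hu]
      simp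
    rw [h4, h1, h3, hsum] at h8
    push_cast at h8
    linarith
  · rw [hsum] at h8
    rw [Finset.sum_sub_distrib, Finset.sum_sub_distrib, ← Finset.mul_sum] at hsink
    have h14 : (eout G I : ℚ) = ∑ u ∈ I, (sout G I u : ℚ) := by
      unfold eout sout
      push_cast
      rfl
    rw [← h14] at hsink
    push_cast at h8
    linarith

end all

end Pool.Agent.W986
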