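import Pool.Agent.W986.SubTree
import Pool.Agent.W986.SubProp
import Pool.Agent.W986.SubLeafB

/-!
# Numerical leaves for the proportional rule

The functions of `SubLeafB.lean` are correct.
-/

set_option autoImplicit false

open Finset

namespace Pool.Agent.W986.ST.LB

open Pool.Agent.W986 Pool.Agent.W986.ST

/-! ### Evaluation -/

theorem mx_eq (a b : ℕ) : mx a b = max a b := by
  rw [mx, frc_eq, frc_eq]
  cases h : Nat.ble a b with
  | true => rw [cf_true, max_eq_right (Nat.le_of_ble_eq_true h)]
  | false =>
    rw [cf_false, max_eq_left]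
    by_contra h1
    rw [Nat.ble_eq_true_of_le (by omega)] at h
    exact absurd h (by decide)

theorem mn_eq (a b : ℕ) : mn a b = min a b := by
  rw [mn, frc_eq, frc_eq]
  cases h : Nat.ble a b with
  | true => rw [cf_true, min_eq_left (Nat.le_of_ble_eq_true h)]
  | false =>
    rw [cf_false, min_eq_right]
    by_contra h1
    rw [Nat.ble_eq_true_of_le (by omega)] at h
    exact absurd h (by decide)

theorem lookM_cons (y : ℕ) (p : ℕ × ℕ) (l : List (ℕ × ℕ)) :
    lookM y (p :: l) = cf (Nat.beq p.1 y) (mx p.2 (lookM y l)) (lookM y l) := rfl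

theorem lookN_cons (y : ℕ) (p : ℕ × ℕ) (l : List (ℕ × ℕ)) :
    lookN y (p :: l) = cf (Nat.beq p.1 y) (mx (Nat.succ p.2) (lookN y l)) (lookN y l) := rfl

theorem lookG_cons (y : ℕ) (p : ℕ × ℕ) (l : List (ℕ × ℕ)) :
    lookG y (p :: l) = cf (Nat.beq p.1 y) (frc (lookG y l) fun r =>
      cf (Nat.beq r 0) (Nat.succ p.2) (mn (Nat.succ p.2) r)) (lookG y l) := rfl

theorem c4_cons (P : Patch) (z : ℕ) (l : List ℕ) :
    c4 P (z :: l) = cf (p4 P z) (Nat.succ (c4 P l)) (c4 P l) := rfl

theorem s4_cons (P : Patch) (z : ℕ) (l : List ℕ) :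
    s4 P (z :: l) = cf (Nat.beq (len (findL P.lk z)) 4) (Nat.succ (s4 P l)) (s4 P l) := rfl

theorem contra_cons (P : Patch) (p : ℕ × ℕ) (l : List (ℕ × ℕ)) :
    contra P (p :: l) = cf (Nat.blt (lo P p.1) (mn 1000 (mx (up P p.1)
      (frc (lookN p.1 P.kb) fun k => cf (Nat.beq k 0) 0 (Nat.add 11 k))))) true (contra P l) := rfl

theorem sw_cons (P : Patch) (y : ℕ) (l : List ℕ) :
    sw P (y :: l) = Nat.add (mn (neg P y) 4) (sw P l) := rfl

theorem sumOK_cons (ctr : Patch → ℕ → Bool) (P : Patch) (K M u : ℕ) (l : List ℕ) (num den : ℕ) :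
    sumOK ctr P K M (u :: l) num den =
      @Nat.rec (fun _ => Bool) (sumOK ctr P K M l num den) (fun p _ =>
        @Nat.rec (fun _ => Bool) false (fun b _ =>
          frc (cf (ctr P u) p (Nat.succ p)) fun a =>
            frc (Nat.add (Nat.mul num (Nat.succ b)) (Nat.mul a den)) fun num =>
              frc (Nat.mul den (Nat.succ b)) fun den => sumOK ctr P K M l num den)
          (sw P (findL P.lk u))) (pos P u) := rfl

theorem lbad_cons (P : Patch) (p : ℕ × ℕ) (l : List (ℕ × ℕ)) :
    lbad P (p :: l) = frcH (findL P.lk p.1) fun k =>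
      cf (nil k) (lbad P l) (cf (Nat.blt (len k) p.2) true (lbad P l)) := rfl

/-! ### Semantics -/

variable {V : Type}

/-- The rules for the charges. -/
structure KapOK (E : Env V) : Prop where
  four : ∀ v, E.D v = 4 → E.kap v = 0
  inn : ∀ v, E.I v → E.D v ≠ 4 → ∀ ν, Rotn E.H E.T v (E.D v) ν →
    E.kap v = 12 - 2 * (E.D v : ℤ) + ((range (E.D v)).filter fun i => E.D (ν i) = 4).card
  half : ∀ v, E.I v → E.D v ≠ 4 → E.kap v ≤ 12 - 2 * (E.D v : ℤ) + (E.D v / 2 : ℕ)
  out : ∀ v, ¬ E.I v → E.kap v ≤ -6

theorem KapOK.bnd {E : Env V} (h : KapOK E) (v : V) (t : ℕ) (h1 : 5 ≤ t) (h2 : t ≤ 12)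
    (h3 : t ≤ E.D v) : E.kap v ≤ 12 - 2 * (t : ℤ) + (t / 2 : ℕ) := by
  by_cases hI : E.I v
  · have := h.half v hI (by omega)
    omega
  · have := h.out v hI
    omega

theorem KapOK.small {E : Env V} (h : KapOK E) (v : V) : E.kap v ≤ 4 := by
  have h4 := E.min4 v
  rcases Nat.lt_or_ge 4 (E.D v) with h1 | h1
  · have := h.bnd v 5 le_rfl (by norm_num) h1
    omega
  · rw [h.four v (by omega)]
    norm_num

theorem nil_false {l : List ℕ} (h : nil l = false) : l ≠ [] := by
  intro h1
  rw [h1] at h
  exact absurd h (by decide)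

theorem nil_true {l : List ℕ} (h : nil l = true) : l = [] := by
  cases l with
  | nil => rfl
  | cons a l => exact absurd h (by simp [nil])

theorem lookM_mem (y : ℕ) (l : List (ℕ × ℕ)) (h : lookM y l ≠ 0) : (y, lookM y l) ∈ l := by
  induction l with
  | nil => exact absurd rfl h
  | cons p l ih =>
    rw [lookM_cons] at h ⊢
    cases hc : Nat.beq p.1 y with
    | true =>
      rw [hc, cf_true] at h
      rw [cf_true]
      have h1 := Nat.eq_of_beq_eq_true hc
      rw [mx_eq] at h ⊢
      rcases le_total p.2 (lookM y l) with h2 | h2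
      · rw [max_eq_right h2] at h ⊢
        exact List.mem_cons_of_mem _ (ih h)
      · rw [max_eq_left h2, ← h1]
        exact List.mem_cons_self
    | false =>
      rw [hc, cf_false] at h
      rw [cf_false]
      exact List.mem_cons_of_mem _ (ih h)

theorem lookN_mem (y : ℕ) (l : List (ℕ × ℕ)) (h : lookN y l ≠ 0) :
    ∃ c, lookN y l = c + 1 ∧ (y, c) ∈ l := by
  induction l with
  | nil => exact absurd rfl h
  | cons p l ih =>
    rw [lookN_cons] at h ⊢
    cases hc : Nat.beq p.1 y with
    | true =>
      have h1 := Nat.eq_of_beq_eq_true hc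
      rw [cf_true, mx_eq]
      have h0 : (y, p.2) ∈ p :: l := by
        rw [← h1]
        exact List.mem_cons_self
      rcases le_total (Nat.succ p.2) (lookN y l) with h2 | h2
      · obtain ⟨c, h3, h4⟩ := ih (by
          have : 0 < Nat.succ p.2 := Nat.succ_pos _
          omega)
        exact ⟨c, (max_eq_right h2).trans h3, List.mem_cons_of_mem _ h4⟩
      · exact ⟨p.2, max_eq_left h2, h0⟩
    | false =>
      rw [hc, cf_false] at h
      rw [cf_false]
      obtain ⟨c, h1, h2⟩ := ih h
      exact ⟨c, h1, List.mem_cons_of_mem _ h2⟩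

theorem lookG_mem (y : ℕ) (l : List (ℕ × ℕ)) (h : lookG y l ≠ 0) :
    ∃ c, lookG y l = c + 1 ∧ (y, c) ∈ l := by
  induction l with
  | nil => exact absurd rfl h
  | cons p l ih =>
    rw [lookG_cons] at h ⊢
    cases hc : Nat.beq p.1 y with
    | true =>
      have h1 := Nat.eq_of_beq_eq_true hc
      rw [cf_true, frc_eq]
      have h0 : (y, p.2) ∈ p :: l := by
        rw [← h1]
        exact List.mem_cons_self
      cases hr : Nat.beq (lookG y l) 0 with
      | true => exact ⟨p.2, rfl, h0⟩
      | false =>
        rw [cf_false, mn_eq]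
        have h2 : lookG y l ≠ 0 := by
          intro h3
          rw [h3] at hr
          exact absurd hr (by decide)
        obtain ⟨c, h3, h4⟩ := ih h2
        rcases le_total (Nat.succ p.2) (lookG y l) with h5 | h5
        · exact ⟨p.2, min_eq_left h5, h0⟩
        · exact ⟨c, (min_eq_right h5).trans h3, List.mem_cons_of_mem _ h4⟩
    | false =>
      rw [hc, cf_false] at h
      rw [cf_false]
      obtain ⟨c, h1, h2⟩ := ih h
      exact ⟨c, h1, List.mem_cons_of_mem _ h2⟩

section sat

variable {E : Env V} {P : Patch} {f : ℕ → V}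

theorem kap_kb (h : E.Sat P f) {y : ℕ} (hy : lookM y P.kb ≠ 0) :
    E.kap (f y) ≤ -(lookM y P.kb : ℤ) := h.kb _ (lookM_mem y P.kb hy)

theorem kap_kbN (h : E.Sat P f) {y : ℕ} (hy : lookN y P.kb ≠ 0) :
    E.kap (f y) ≤ 1 - (lookN y P.kb : ℤ) := by
  obtain ⟨c, h1, h2⟩ := lookN_mem y P.kb hy
  have h3 := h.kb _ h2
  dsimp only at h3
  rw [h1]
  push_cast
  omega

theorem link (h : E.Sat P f) {y : ℕ} (hy : nil (findL P.lk y) = false) :
    E.Lk f y (findL P.lk y) := h.real.find (nil_false hy)

theorem not_four (hK : KapOK E) (h : E.Sat P f) {z : ℕ} (hz : p4 P z = false) :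
    E.D (f z) ≠ 4 := by
  intro h4
  rw [p4, frcH_eq] at hz
  cases hn : nil (findL P.lk z) with
  | false =>
    rw [hn, cf_false] at hz
    have h1 := (link h hn).deg
    rw [len_eq, ← h1, h4] at hz
    exact absurd hz (by decide)
  | true =>
    rw [hn, cf_true] at hz
    cases h5 : Nat.ble (findB P.lb z) 4 with
    | false =>
      have h6 := h.real.findB z
      have h7 : ¬ findB P.lb z ≤ 4 := by
        intro h8
        rw [Nat.ble_eq_true_of_le h8] at h5
        exact absurd h5 (by decide)
      omega
    | true =>
      rw [h5, cf_true] at hz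
      have h6 : lookM z P.kb ≠ 0 := by
        intro h7
        rw [h7] at hz
        exact absurd hz (by decide)
      have h7 := kap_kb h h6
      have h8 := hK.four _ h4
      omega

theorem card_cons (z : ℕ) (l : List ℕ) :
    ((range (z :: l).length).filter fun i => E.D (f (lnth (z :: l) i)) = 4).card =
      (if E.D (f z) = 4 then 1 else 0) +
        ((range l.length).filter fun i => E.D (f (lnth l i)) = 4).card := by
  rw [card_filter, card_filter, List.length_cons, sum_range_succ', add_comm]
  rfl

theorem c4_le (hK : KapOK E) (h : E.Sat P f) (l : List ℕ) :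
    ((range l.length).filter fun i => E.D (f (lnth l i)) = 4).card ≤ c4 P l := by
  induction l with
  | nil => exact le_rfl
  | cons z l ih =>
    rw [card_cons, c4_cons]
    cases hz : p4 P z with
    | false =>
      rw [cf_false, if_neg (not_four hK h hz)]
      omega
    | true =>
      rw [cf_true]
      split_ifs <;> omega

theorem s4_le (h : E.Sat P f) (l : List ℕ) :
    s4 P l ≤ ((range l.length).filter fun i => E.D (f (lnth l i)) = 4).card := by
  induction l with
  | nil => exact le_rfl
  | cons z l ih =>
    rw [card_cons, s4_cons]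
    cases hz : Nat.beq (len (findL P.lk z)) 4 with
    | false =>
      rw [cf_false]
      omega
    | true =>
      rw [cf_true]
      have h1 := Nat.eq_of_beq_eq_true hz
      have h2 : E.D (f z) = 4 := by
        rw [len_eq] at h1
        have h3 : findL P.lk z ≠ [] := by
          intro h4
          rw [h4] at h1
          simp at h1
        rw [(h.real.find h3).deg, h1]
      rw [if_pos h2]
      omega

theorem c4_le_length (l : List ℕ) : c4 P l ≤ l.length := by
  induction l with
  | nil => exact le_rfl
  | cons z l ih =>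
    rw [List.length_cons, c4_cons]
    cases p4 P z with
    | false =>
      rw [cf_false]
      omega
    | true =>
      rw [cf_true]
      omega

theorem beq_false {a b : ℕ} (h : a ≠ b) : Nat.beq a b = false := by
  cases h6 : Nat.beq a b with
  | false => rfl
  | true => exact absurd (Nat.eq_of_beq_eq_true h6) h

theorem ble_false {a b : ℕ} (h : Nat.ble a b = false) : b < a := by
  by_contra h1
  rw [Nat.ble_eq_true_of_le (by omega)] at h
  exact absurd h (by decide)

/-- The formula for `kap` with the list. -/
theorem kap_list (hK : KapOK E) (h : E.Sat P f) {y : ℕ} (hn : nil (findL P.lk y) = false)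
    (h4 : (findL P.lk y).length ≠ 4) :
    E.kap (f y) = 12 - 2 * ((findL P.lk y).length : ℤ) +
      ((range (findL P.lk y).length).filter fun i => E.D (f (lnth (findL P.lk y) i)) = 4).card := by
  have h1 := link h hn
  have h2 := h1.2
  have h3 := h1.deg
  rw [← h3] at h2
  have h5 := hK.inn _ h1.1 (by rw [h3]; exact h4) _ h2
  rw [h5, h3]
  congr 2
  refine congrArg _ (filter_congr fun i hi => ?_)
  rw [mem_range] at hi
  rw [Nat.mod_eq_of_lt hi]

theorem up_le (hK : KapOK E) (h : E.Sat P f) (y : ℕ) : E.kap (f y) ≤ 12 - (up P y : ℤ) := by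
  rw [up, frcH_eq]
  cases hn : nil (findL P.lk y) with
  | false =>
    rw [cf_false, frc_eq, len_eq]
    by_cases h4 : (findL P.lk y).length = 4
    · rw [h4]
      have h5 := hK.four (f y) ((link h hn).deg.trans h4)
      rw [h5]
      change (0 : ℤ) ≤ 12 - ((12 : ℕ) : ℤ)
      norm_num
    · rw [beq_false h4, cf_false, mn_eq]
      have h6 := kap_list hK h hn h4
      have h7 := c4_le hK h (findL P.lk y)
      have h8 := c4_le_length (P := P) (findL P.lk y)
      have h9 := (link h hn).three
      have h11 := (link h hn).deg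
      have h10 := hK.half (f y) (link h hn).1 (by rw [h11]; exact h4)
      rw [h11] at h10
      change _ ≤ 12 - ((2 * (findL P.lk y).length -
        min (c4 P (findL P.lk y)) ((findL P.lk y).length / 2) : ℕ) : ℤ)
      rcases le_total (c4 P (findL P.lk y)) ((findL P.lk y).length / 2) with h12 | h12
      · rw [min_eq_left h12]
        omega
      · rw [min_eq_right h12]
        omega
  | true =>
    rw [cf_true, frc_eq, mn_eq]
    have h1 := h.real.findB y
    cases h5 : Nat.ble (min (findB P.lb y) 12) 4 with
    | true =>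
      rw [cf_true]
      have := hK.small (f y)
      omega
    | false =>
      rw [cf_false]
      have h6 := ble_false h5
      have h7 := hK.bnd (f y) (min (findB P.lb y) 12) h6 (min_le_right _ _)
        ((min_le_left _ _).trans h1)
      change _ ≤ 12 - ((2 * min (findB P.lb y) 12 - min (findB P.lb y) 12 / 2 : ℕ) : ℤ)
      omega

theorem neg_le (hK : KapOK E) (h : E.Sat P f) (y : ℕ) (h0 : neg P y ≠ 0) :
    E.kap (f y) ≤ -(neg P y : ℤ) := by
  have h1 := up_le hK h y
  have h2 : neg P y = max (up P y - 12) (lookM y P.kb) := mx_eq _ _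
  rcases le_total (up P y - 12) (lookM y P.kb) with h3 | h3
  · rw [max_eq_right h3] at h2
    rw [h2] at h0 ⊢
    exact kap_kb h h0
  · rw [max_eq_left h3] at h2
    omega

theorem pos_le (hK : KapOK E) (h : E.Sat P f) (y : ℕ) : E.kap (f y) ≤ (pos P y : ℤ) := by
  have h1 := up_le hK h y
  rw [pos, frc_eq]
  cases h2 : Nat.beq (Nat.sub 12 (up P y)) 0 with
  | true =>
    rw [cf_true]
    have h3 : 12 - up P y = 0 := Nat.eq_of_beq_eq_true h2
    omega
  | false =>
    rw [cf_false]
    cases h3 : Nat.beq (lookN y P.kb) 0 with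
    | true =>
      rw [cf_true]
      change _ ≤ ((12 - up P y : ℕ) : ℤ)
      omega
    | false =>
      rw [cf_false]
      have h5 : lookN y P.kb ≠ 0 := by
        intro h5
        rw [h5] at h3
        exact absurd h3 (by decide)
      have h4 := kap_kbN h h5
      omega

theorem lo_le (hK : KapOK E) (h : E.Sat P f) (y : ℕ) (h0 : lo P y < 1000) :
    12 - (lo P y : ℤ) ≤ E.kap (f y) := by
  rw [lo, mn_eq, frcH_eq] at h0 ⊢
  set a := frc (lookG y P.kg) fun g => cf (Nat.beq g 0) 1000 (Nat.add 10 g) with ha
  set b := cf (nil (findL P.lk y)) 1000 (frc (len (findL P.lk y)) fun d => cf (Nat.beq d 4) 12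
      (Nat.sub (Nat.mul 2 d) (s4 P (findL P.lk y)))) with hb
  have hA : a < 1000 → 12 - (a : ℤ) ≤ E.kap (f y) := by
    intro h1
    rw [frc_eq] at ha
    cases h2 : Nat.beq (lookG y P.kg) 0 with
    | true =>
      rw [h2, cf_true] at ha
      omega
    | false =>
      rw [h2, cf_false] at ha
      obtain ⟨c, h3, h4⟩ := lookG_mem y P.kg (by
        intro h5
        rw [h5] at h2
        exact absurd h2 (by decide))
      have h5 := h.kg _ h4
      dsimp only at h5
      have h6 : a = 10 + lookG y P.kg := ha
      omega
  have hB : b < 1000 → 12 - (b : ℤ) ≤ E.kap (f y) := by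
    intro h1
    cases h2 : nil (findL P.lk y) with
    | true =>
      rw [h2, cf_true] at hb
      omega
    | false =>
      rw [h2, cf_false, frc_eq, len_eq] at hb
      by_cases h4 : (findL P.lk y).length = 4
      · rw [h4] at hb
        have h5 := hK.four (f y) ((link h h2).deg.trans h4)
        rw [h5]
        have h6 : b = 12 := hb
        omega
      · rw [beq_false h4, cf_false] at hb
        have h6 := kap_list hK h h2 h4
        have h7 := s4_le h (findL P.lk y)
        have h8 : b = 2 * (findL P.lk y).length - s4 P (findL P.lk y) := hb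
        omega
  rcases le_total a b with h1 | h1
  · rw [min_eq_left h1] at h0 ⊢
    exact hA h0
  · rw [min_eq_right h1] at h0 ⊢
    exact hB h0

theorem contra_false (hK : KapOK E) (h : E.Sat P f) (l : List (ℕ × ℕ))
    (hl : contra P l = true) : False := by
  induction l with
  | nil => exact absurd hl (by simp [contra])
  | cons p l ih =>
    rw [contra_cons] at hl
    cases hc : Nat.blt (lo P p.1) (mn 1000 (mx (up P p.1)
      (frc (lookN p.1 P.kb) fun k => cf (Nat.beq k 0) 0 (Nat.add 11 k)))) with
    | false =>
      rw [hc, cf_false] at hl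
      exact ih hl
    | true =>
      have h1 : lo P p.1 < mn 1000 (mx (up P p.1)
        (frc (lookN p.1 P.kb) fun k => cf (Nat.beq k 0) 0 (Nat.add 11 k))) :=
        Nat.le_of_ble_eq_true hc
      rw [mn_eq, mx_eq, frc_eq] at h1
      have h2 := up_le hK h p.1
      have h3 := lo_le hK h p.1 (h1.trans_le (min_le_left _ _))
      have h4 := h1.trans_le (min_le_right _ _)
      rcases lt_max_iff.1 h4 with h5 | h5
      · omega
      · cases h6 : Nat.beq (lookN p.1 P.kb) 0 with
        | true =>
          rw [h6, cf_true] at h5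
          omega
        | false =>
          rw [h6, cf_false] at h5
          have h7 := kap_kbN h (y := p.1) (by
            intro h8
            rw [h8] at h6
            exact absurd h6 (by decide))
          have h8 : lo P p.1 < 11 + lookN p.1 P.kb := h5
          omega

theorem lbad_false (h : E.Sat P f) (l : List (ℕ × ℕ)) (hsub : ∀ p ∈ l, p ∈ P.lb)
    (hl : lbad P l = true) : False := by
  induction l with
  | nil => exact absurd hl (by simp [lbad])
  | cons p l ih =>
    have ih := ih fun q hq => hsub q (List.mem_cons_of_mem _ hq)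
    rw [lbad_cons, frcH_eq] at hl
    cases hn : nil (findL P.lk p.1) with
    | true =>
      rw [hn, cf_true] at hl
      exact ih hl
    | false =>
      rw [hn, cf_false] at hl
      cases hb : Nat.blt (len (findL P.lk p.1)) p.2 with
      | false =>
        rw [hb, cf_false] at hl
        exact ih hl
      | true =>
        have h1 : len (findL P.lk p.1) < p.2 := Nat.le_of_ble_eq_true hb
        have h2 := (link h hn).deg
        have h3 := h.real.2 p (hsub p List.mem_cons_self)
        rw [len_eq] at h1
        omega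

theorem leafI_sound (hK : KapOK E) (hl : leafI P = true) : ¬ E.Sat P f := by
  intro h
  rw [leafI] at hl
  cases hc : contra P P.kg with
  | true => exact contra_false hK h _ hc
  | false =>
    rw [hc, cf_false] at hl
    cases hd : contra P P.kb with
    | true => exact contra_false hK h _ hd
    | false =>
      rw [hd, cf_false] at hl
      exact lbad_false h _ (fun _ h1 => h1) hl

end sat

/-! ### The proportional rule -/

/-- The weight of a vertex with charge `k`. -/
def wt (k : ℤ) : ℕ := min (-k).toNat 4

section rule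

variable [Fintype V]

open Classical in
/-- What `u` gives, divided by the sum of the weights of its neighbours. -/
noncomputable def term (E : Env V) (gk : V → ℤ) (u : V) : ℚ :=
  if E.I u ∧ 0 < E.kap u ∧ ∀ y, E.H.Adj u y → E.I y then
    (gk u : ℚ) / Wsum E.H (fun y => wt (E.kap y)) u else 0

open Classical in
/-- The final charge of `x` is not positive. -/
def FinB (E : Env V) (gk : V → ℤ) (ext : V → ℕ) (x : V) : Prop :=
  (E.kap x < 0 → (∑ u ∈ univ.filter (fun u => E.H.Adj x u), term E gk u) * (wt (E.kap x) : ℚ) +
    (ext x : ℚ) ≤ - (E.kap x : ℚ)) ∧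
  (0 ≤ E.kap x → ext x = 0) ∧
  (0 < E.kap x → 0 < Wsum E.H (fun y => wt (E.kap y)) x)

variable {E : Env V} {P : Patch} {f : ℕ → V} {gk : V → ℤ} {ext : V → ℕ}

omit [Fintype V] in
theorem wt_le (hK : KapOK E) (h : E.Sat P f) (y : ℕ) : mn (neg P y) 4 ≤ wt (E.kap (f y)) := by
  rw [mn_eq, wt]
  rcases Nat.eq_zero_or_pos (neg P y) with h3 | h3
  · omega
  · have := neg_le hK h y (by omega)
    omega

theorem sum_lnth {M : Type} [AddCommMonoid M] (g : ℕ → M) (l : List ℕ) :
    ∑ i ∈ range l.length, g (lnth l i) = (l.map g).sum := by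
  induction l with
  | nil => simp
  | cons z l ih =>
    rw [List.length_cons, sum_range_succ', List.map_cons, List.sum_cons, ← ih, add_comm]
    rfl

open Classical in
/-- A sum over the neighbours is a sum over the list. -/
theorem sum_link {M : Type} [AddCommMonoid M] {u : ℕ} {l : List ℕ} (h : E.Lk f u l) (g : V → M) :
    ∑ y ∈ univ.filter (fun y => E.H.Adj (f u) y), g y = (l.map fun y => g (f y)).sum := by
  rw [h.2.sum_adj, ← sum_lnth (fun y => g (f y)) l]
  refine sum_congr rfl fun i hi => ?_
  rw [mem_range] at hi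
  rw [Nat.mod_eq_of_lt hi]

theorem sw_le (hK : KapOK E) (h : E.Sat P f) (u : ℕ) :
    sw P (findL P.lk u) ≤ Wsum E.H (fun y => wt (E.kap y)) (f u) := by
  classical
  have key : ∀ l : List ℕ, sw P l ≤ (l.map fun y => wt (E.kap (f y))).sum := by
    intro l
    induction l with
    | nil => exact le_rfl
    | cons z l ih =>
      rw [List.map_cons, List.sum_cons]
      exact Nat.add_le_add (wt_le hK h z) ih
  cases hn : nil (findL P.lk u) with
  | false =>
    rw [Wsum, sum_link (link h hn)]
    exact key _
  | true =>
    rw [nil_true hn]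
    exact Nat.zero_le _

theorem term_le (hK : KapOK E) (h : E.Sat P f) (u : ℕ) (a b : ℕ)
    (hp : E.I (f u) → 0 < E.kap (f u) → gk (f u) ≤ a) (hb : sw P (findL P.lk u) = b + 1) :
    term E gk (f u) ≤ (a : ℚ) / (b + 1 : ℕ) := by
  have h2 := sw_le hK h u
  rw [hb] at h2
  rw [term]
  have h3 : (0 : ℚ) < ((b + 1 : ℕ) : ℚ) := by positivity
  split_ifs with h4
  · have h5 : ((gk (f u) : ℤ) : ℚ) ≤ (a : ℚ) := by exact_mod_cast hp h4.1 h4.2.1
    have h6 : ((b + 1 : ℕ) : ℚ) ≤ (Wsum E.H (fun y => wt (E.kap y)) (f u) : ℚ) := by
      exact_mod_cast h2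
    exact div_le_div₀ (by positivity) h5 h3 h6
  · positivity

variable {ctr : Patch → ℕ → Bool} {ex : Patch → ℕ}

theorem sumOK_le (hK : KapOK E) (h : E.Sat P f) (hgk : ∀ u, gk u ≤ E.kap u)
    (hctr : ∀ u, ctr P u = true → gk (f u) ≤ E.kap (f u) - 1) {K M : ℕ} (hM : 0 < M)
    (l : List ℕ) (num den : ℕ) (hden : 0 < den) (hs : sumOK ctr P K M l num den = true) :
    (num : ℚ) / den + (l.map fun u => term E gk (f u)).sum ≤ (K : ℚ) / M := by
  induction l generalizing num den with
  | nil =>
    rw [List.map_nil, List.sum_nil, add_zero]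
    have h1 : Nat.ble (Nat.mul num M) (Nat.mul K den) = true := hs
    have h2 : num * M ≤ K * den := Nat.le_of_ble_eq_true h1
    rw [div_le_div_iff₀ (by positivity) (by positivity)]
    exact_mod_cast h2
  | cons u l ih =>
    rw [List.map_cons, List.sum_cons]
    rw [sumOK_cons] at hs
    cases hp : pos P u with
    | zero =>
      rw [hp] at hs
      have h1 := pos_le hK h u
      rw [hp] at h1
      have h2 : term E gk (f u) = 0 := by
        rw [term, if_neg]
        rintro ⟨_, h3, _⟩
        simp at h1
        omega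
      rw [h2, zero_add]
      exact ih num den hden hs
    | succ p =>
      rw [hp] at hs
      cases hb : sw P (findL P.lk u) with
      | zero =>
        rw [hb] at hs
        exact absurd hs Bool.false_ne_true
      | succ b =>
        rw [hb] at hs
        simp only [frc_eq] at hs
        have h0 := pos_le hK h u
        rw [hp] at h0
        set a := cf (ctr P u) p (Nat.succ p) with ha
        have h2 := term_le (gk := gk) hK h u a b (by
          intro _ _
          cases hc : ctr P u with
          | true =>
            rw [hc, cf_true] at ha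
            have := hctr u hc
            push_cast at h0
            omega
          | false =>
            rw [hc, cf_false] at ha
            have := hgk (f u)
            push_cast at h0
            rw [ha]
            push_cast
            omega) hb
        have h1 := ih (num * (b + 1) + a * den) (den * (b + 1)) (by positivity) hs
        have h3 : ((num * (b + 1) + a * den : ℕ) : ℚ) / ((den * (b + 1) : ℕ) : ℚ) =
            (num : ℚ) / den + (a : ℚ) / ((b + 1 : ℕ) : ℚ) := by
          have h4 : (den : ℚ) ≠ 0 := by positivity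
          have h5 : ((b : ℚ) + 1) ≠ 0 := by positivity
          push_cast
          field_simp
        rw [h3] at h1
        linarith

theorem arith {k : ℤ} {K e x : ℕ} {s : ℚ} (hK : 0 < K) (hM : 0 < min K 4) (h3 : e ≤ K)
    (hx : x ≤ e) (h1 : k ≤ -(K : ℤ)) (h4 : s ≤ ((K - e : ℕ) : ℚ) / (min K 4 : ℕ)) :
    s * (wt k : ℚ) + (x : ℚ) ≤ - (k : ℚ) := by
  obtain ⟨n, rfl⟩ : ∃ n : ℕ, k = -(n : ℤ) := ⟨(-k).toNat, by omega⟩
  have h5 : wt (-(n : ℤ)) = min n 4 := by
    rw [wt, neg_neg, Int.toNat_natCast]
  have h6 : K ≤ n := by omega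
  obtain ⟨c, rfl⟩ : ∃ c, K = e + c := ⟨K - e, by omega⟩
  rw [Nat.add_sub_cancel_left] at h4
  rw [h5]
  have hx' : (x : ℚ) ≤ e := by exact_mod_cast hx
  have h7 : (((-(n : ℤ) : ℤ)) : ℚ) = -(n : ℚ) := by push_cast; ring
  rw [h7, neg_neg]
  have h6' : ((e : ℚ) + c) ≤ n := by exact_mod_cast h6
  have hm : (0 : ℚ) < (min (e + c) 4 : ℕ) := by exact_mod_cast hM
  rw [le_div_iff₀ hm] at h4
  rcases Nat.lt_or_ge (e + c) 4 with h8 | h8
  · rw [min_eq_left h8.le] at h4 hm
    push_cast at h4 hm
    have h9 : ((min n 4 : ℕ) : ℚ) ≤ n := by exact_mod_cast min_le_left n 4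
    have h10 : (0 : ℚ) ≤ (min n 4 : ℕ) := by positivity
    have h11 : s ≤ c / (e + c) := by
      rw [le_div_iff₀ hm]
      exact h4
    have h12 : (0 : ℚ) ≤ c / (e + c) := by positivity
    have h13 : s * (min n 4 : ℕ) ≤ c / (e + c) * n :=
      (mul_le_mul_of_nonneg_right h11 h10).trans (mul_le_mul_of_nonneg_left h9 h12)
    have h14 : (c : ℚ) / (e + c) * n + e ≤ n := by
      have h15 : (c : ℚ) / (e + c) * n = n - e * n / (e + c) := by
        field_simp
        ring
      rw [h15]
      have h16 : (e : ℚ) ≤ e * n / (e + c) := by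
        rw [le_div_iff₀ hm]
        exact mul_le_mul_of_nonneg_left h6' (by positivity)
      linarith
    linarith
  · rw [min_eq_right h8] at h4
    have h9 : min n 4 = 4 := min_eq_right (by omega)
    rw [h9]
    linarith

open Classical in
theorem leafB_sound (hK : KapOK E) (h : E.Sat P f) (hgk : ∀ u, gk u ≤ E.kap u)
    (hctr : ∀ u, ctr P u = true → gk (f u) ≤ E.kap (f u) - 1)
    (hex : ext (f 0) ≤ ex P) (hl : leafB ctr ex P = true) : FinB E gk ext (f 0) := by
  rw [leafB, frcH_eq] at hl
  cases hc : leafI P with
  | true => exact absurd h (leafI_sound hK hc)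
  | false =>
    rw [hc, cf_false] at hl
    cases hn : nil (findL P.lk 0) with
    | true =>
      rw [hn, cf_true] at hl
      exact absurd hl Bool.false_ne_true
    | false =>
      rw [hn, cf_false, frc_eq, frc_eq] at hl
      cases hK0 : Nat.beq (neg P 0) 0 with
      | true =>
        rw [hK0, cf_true] at hl
        cases h1 : Nat.ble (lo P 0) 12 with
        | false =>
          rw [h1, cf_false] at hl
          exact absurd hl Bool.false_ne_true
        | true =>
          rw [h1, cf_true] at hl
          have h2 := Nat.le_of_ble_eq_true h1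
          have h3 := lo_le hK h 0 (by omega)
          cases h4 : Nat.beq (ex P) 0 with
          | false =>
            rw [h4, cf_false] at hl
            exact absurd hl Bool.false_ne_true
          | true =>
            rw [h4, cf_true] at hl
            have h5 := Nat.eq_of_beq_eq_true h4
            refine ⟨fun h6 => by omega, fun _ => by omega, fun h6 => ?_⟩
            cases h7 : Nat.beq (pos P 0) 0 with
            | true =>
              have h8 := Nat.eq_of_beq_eq_true h7
              have h9 := pos_le hK h 0
              omega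
            | false =>
              rw [h7, cf_false] at hl
              have h8 : 0 < sw P (findL P.lk 0) := Nat.le_of_ble_eq_true hl
              exact h8.trans_le (sw_le hK h 0)
      | false =>
        rw [hK0, cf_false] at hl
        have h0 : neg P 0 ≠ 0 := by
          intro h1
          rw [h1] at hK0
          exact absurd hK0 (by decide)
        have h1 := neg_le hK h 0 h0
        cases h2 : Nat.ble (ex P) (neg P 0) with
        | false =>
          rw [h2, cf_false] at hl
          exact absurd hl Bool.false_ne_true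
        | true =>
          rw [h2, cf_true] at hl
          have h3 := Nat.le_of_ble_eq_true h2
          refine ⟨fun _ => ?_, fun h6 => by omega, fun h6 => by omega⟩
          have hM : 0 < mn (neg P 0) 4 := by
            rw [mn_eq]
            omega
          have h4 := sumOK_le hK h hgk hctr hM _ _ _ Nat.one_pos hl
          rw [← sum_link (link h hn) (fun u => term E gk u)] at h4
          rw [mn_eq] at h4 hM
          exact arith (by omega) hM h3 hex h1 (by simpa using h4)

end rule

end Pool.Agent.W986.ST.LB
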