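import Pool.Agent.W986.SubTree
import Pool.Agent.W986.SubProp

/-!
# Local facts from the smallest configurations

If certain patches with 2, 3 or 4 vertices do not occur, then: no two vertices of degree 4 are
adjacent, no two vertices of degree 5 are adjacent, a vertex of degree 5 has at most one neighbour
of degree 4, a vertex of degree 6 does not have neighbours of degrees 4 and 5, two adjacent vertices
of degree 6 have at most one common neighbour of degree 4, and a vertex of degree 4 has at most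
one neighbour of degree 5.
-/

set_option autoImplicit false

open Finset

namespace Pool.Agent.W986.ST

variable {V : Type} {E : Env V}

theorem Env.inI (E : Env V) {x : V} (h : E.D x < 12) : E.I x := by
  by_contra h1
  have := E.big x h1
  omega

/-- A rotation gives a patch with one vertex. -/
theorem Env.real_one (E : Env V) {x : V} {d : ℕ} {μ : ℕ → V} (hx : E.I x)
    (hμ : Rotn E.H E.T x d μ) :
    E.Real [(0, news d 1)] [] (fun n => if n = 0 then x else μ (n - 1)) := by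
  refine ⟨?_, by simp⟩
  intro p hp
  rw [List.mem_singleton] at hp
  subst hp
  have hd := hμ.three
  refine ⟨hx, ?_⟩
  dsimp only
  rw [length_news, if_pos rfl]
  refine hμ.tExt fun i => ?_
  have h1 := Nat.mod_lt i (show 0 < d by omega)
  rw [lnth_news _ _ _ h1, if_neg (by omega), show 1 + i % d - 1 = i % d by omega]
  exact hμ.modEq (Nat.mod_modEq _ _).symm

theorem below_one (d : ℕ) : Below (d + 1) [(0, news d 1)] [] := by
  refine ⟨?_, by simp⟩
  intro p hp
  rw [List.mem_singleton] at hp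
  subst hp
  refine ⟨by dsimp only; omega, fun x hx => ?_⟩
  have := mem_news _ _ _ hx
  omega

/-- Two neighbours of a vertex. -/
theorem Env.root (E : Env V) {x y z : V} (hx : E.I x) (hy : E.H.Adj x y) (hz : E.H.Adj x z)
    (hne : y ≠ z) : ∃ (f : ℕ → V) (i : ℕ), E.Real [(0, news (E.D x) 1)] [] f ∧ f 0 = x ∧
      f 1 = y ∧ f (i + 1) = z ∧ 1 ≤ i ∧ 2 * i ≤ E.D x := by
  obtain ⟨ν, hν⟩ := E.ex x hx
  obtain ⟨k, _, _, hk⟩ := hν.window 0 hy
  have h1 := hν.tShift k
  obtain ⟨j, hj0, hj1, hj⟩ := h1.window 0 hz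
  have hd := hν.three
  set d := E.D x with hdd
  have hj2 : j ≠ 0 := by
    rintro rfl
    apply hne
    rw [← hk, ← hj, zero_add]
  by_cases h2 : 2 * j ≤ d
  · refine ⟨_, j, E.real_one hx h1, rfl, ?_, ?_, by omega, h2⟩
    · change ν (0 + k) = y
      rw [zero_add, hk]
    · change ν (j + k) = z
      exact hj
  · have h3 := h1.tReflect
    refine ⟨_, d - j, E.real_one hx h3, rfl, ?_, ?_, by omega, by omega⟩
    · change ν ((d - 1) * 0 + k) = y
      rw [mul_zero, zero_add, hk]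
    · change ν ((d - 1) * (d - j) + k) = z
      rw [← hj]
      refine (hν.modEq ?_).symm
      obtain ⟨m, hm⟩ : ∃ m, d = j + m := ⟨d - j, by omega⟩
      have h4 : (d - 1) * (d - j) + k = (j + k) + d * (m - 1) := by
        rw [hm, Nat.add_sub_cancel_left]
        obtain ⟨m', rfl⟩ : ∃ m', m = m' + 1 := ⟨m - 1, by omega⟩
        rw [Nat.add_sub_cancel, show j + (m' + 1) - 1 = j + m' by omega]
        ring
      rw [h4]
      exact (Nat.modEq_iff_dvd' (by omega)).2 (by rw [Nat.add_sub_cancel_left]; exact ⟨_, rfl⟩)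

/-- Closing a vertex of given degree. -/
theorem Env.Real.cl {lk : List (ℕ × List ℕ)} {lb : List (ℕ × ℕ)} {f : ℕ → V} {n : ℕ}
    (h : E.Real lk lb f) (hn : Below n lk lb) (v t : ℕ) (l : List ℕ)
    (h1 : arcOK lk v l = true) (hl : 3 ≤ l.length) (hvn : v < n) (hln : ∀ x ∈ l, x < n)
    (hD : E.D (f v) = t) (ht : t < 12) (htl : l.length ≤ t) :
    ∃ g : ℕ → V, (∀ x < n, g x = f x) ∧ E.Real ((v, l ++ news (t - l.length) n) :: lk) lb g ∧
      Below (n + (t - l.length)) ((v, l ++ news (t - l.length) n) :: lk) lb := by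
  have h2 := h.close hn h1 hl hvn hln (E.inI (by omega)) (by omega)
  rw [hD] at h2
  exact h2

theorem Env.Real.sat {lk : List (ℕ × List ℕ)} {lb : List (ℕ × ℕ)} {f : ℕ → V} {n : ℕ}
    (h : E.Real lk lb f) : E.Sat ⟨n, lk, lb, [], []⟩ f :=
  ⟨h, by simp, by simp⟩

/-- Two adjacent vertices of degree 4. -/
def P44 : Patch := ⟨6, [(1, [2, 0, 4, 5]), (0, [1, 2, 3, 4])], [], [], []⟩

/-- Two adjacent vertices of degree 5. -/
def P55 : Patch := ⟨8, [(1, [2, 0, 5, 6, 7]), (0, [1, 2, 3, 4, 5])], [], [], []⟩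

/-- A vertex of degree 5 with two neighbours of degree 4. -/
def P454 : Patch :=
  ⟨8, [(3, [4, 0, 2, 7]), (1, [2, 0, 5, 6]), (0, [1, 2, 3, 4, 5])], [], [], []⟩

/-- A vertex of degree 6 with neighbours of degrees 4 and 5 at distance 1. -/
def P645a : Patch :=
  ⟨9, [(2, [3, 0, 1, 7, 8]), (1, [2, 0, 6, 7]), (0, [1, 2, 3, 4, 5, 6])], [], [], []⟩

/-- A vertex of degree 6 with neighbours of degrees 4 and 5 at distance 2. -/
def P645b : Patch :=
  ⟨10, [(3, [4, 0, 2, 8, 9]), (1, [2, 0, 6, 7]), (0, [1, 2, 3, 4, 5, 6])], [], [], []⟩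

/-- A vertex of degree 6 with neighbours of degrees 4 and 5 at distance 3. -/
def P645c : Patch :=
  ⟨10, [(4, [5, 0, 3, 8, 9]), (1, [2, 0, 6, 7]), (0, [1, 2, 3, 4, 5, 6])], [], [], []⟩

/-- Two adjacent vertices of degree 6 with two common neighbours of degree 4. -/
def P66 : Patch :=
  ⟨10, [(6, [5, 0, 1, 7]), (2, [3, 0, 1, 9]), (1, [2, 0, 6, 7, 8, 9]),
    (0, [1, 2, 3, 4, 5, 6])], [], [], []⟩

/-- A vertex of degree 4 with two opposite neighbours of degree 5. -/
def P545 : Patch :=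
  ⟨9, [(3, [4, 0, 2, 7, 8]), (1, [2, 0, 4, 5, 6]), (0, [1, 2, 3, 4])], [], [], []⟩

/-- The eight patches. -/
def small : List Patch := [P44, P55, P454, P645a, P645b, P645c, P66, P545]

section facts

theorem adj44 (h : ∀ f, ¬ E.Sat P44 f) {x y : V} (hxy : E.H.Adj x y) (hx : E.D x = 4) :
    E.D y ≠ 4 := by
  intro hy
  obtain ⟨ν, hν⟩ := E.ex x (E.inI (by omega))
  obtain ⟨z, hz, hne⟩ : ∃ z, E.H.Adj x z ∧ y ≠ z := by
    by_cases h0 : y = ν 0
    · exact ⟨ν 1, hν.adj_nu 1, by rw [h0]; exact hν.ne (by omega) (by have := hν.three; omega)⟩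
    · exact ⟨ν 0, hν.adj_nu 0, h0⟩
  obtain ⟨f, i, hf, h0, h1, _, _, _⟩ := E.root (E.inI (by omega)) hxy hz hne
  rw [hx] at hf
  obtain ⟨g, hg, hr, _⟩ := hf.cl (below_one 4) 1 4 [2, 0, 4] rfl (by decide) (by decide)
    (by decide) (by rw [h1, hy]) (by decide) (by decide)
  exact h g hr.sat

theorem adj55 (h : ∀ f, ¬ E.Sat P55 f) {x y : V} (hxy : E.H.Adj x y) (hx : E.D x = 5) :
    E.D y ≠ 5 := by
  intro hy
  obtain ⟨ν, hν⟩ := E.ex x (E.inI (by omega))
  obtain ⟨z, hz, hne⟩ : ∃ z, E.H.Adj x z ∧ y ≠ z := by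
    by_cases h0 : y = ν 0
    · exact ⟨ν 1, hν.adj_nu 1, by rw [h0]; exact hν.ne (by omega) (by have := hν.three; omega)⟩
    · exact ⟨ν 0, hν.adj_nu 0, h0⟩
  obtain ⟨f, i, hf, h0, h1, _, _, _⟩ := E.root (E.inI (by omega)) hxy hz hne
  rw [hx] at hf
  obtain ⟨g, hg, hr, _⟩ := hf.cl (below_one 5) 1 5 [2, 0, 5] rfl (by decide) (by decide)
    (by decide) (by rw [h1, hy]) (by decide) (by decide)
  exact h g hr.sat

/-- Consecutive neighbours are adjacent. -/
theorem Env.adj_two (E : Env V) {x : V} {f : ℕ → V} {lk : List (ℕ × List ℕ)}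
    {lb : List (ℕ × ℕ)} (h : E.Real ((0, news (E.D x) 1) :: lk) lb f) (_h3 : 2 ≤ E.D x) :
    E.H.Adj (f 1) (f 2) := by
  have h1 := h.1 _ List.mem_cons_self
  have h2 := h1.2.tri_next 0
  dsimp only at h2
  rw [length_news] at h2
  have h4 := h1.three
  dsimp only at h4
  rw [length_news] at h4
  rw [Nat.zero_mod, zero_add, Nat.mod_eq_of_lt (show 1 < E.D x by omega),
    lnth_news _ _ _ (by omega), lnth_news _ _ _ (by omega)] at h2
  exact E.adjT _ _ _ (E.rot _ _ _ h2)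

theorem adj54 (h4 : ∀ f, ¬ E.Sat P44 f) (h : ∀ f, ¬ E.Sat P454 f) {x y z : V}
    (hxy : E.H.Adj x y) (hxz : E.H.Adj x z) (hne : y ≠ z) (hx : E.D x = 5) (hy : E.D y = 4) :
    E.D z ≠ 4 := by
  intro hz
  obtain ⟨f, i, hf, h0, h1, h2, hi1, hi2⟩ := E.root (E.inI (by omega)) hxy hxz hne
  have hadj := E.adj_two hf (by omega)
  rw [hx] at hf hi2
  have hi : i = 1 ∨ i = 2 := by omega
  rcases hi with rfl | rfl
  · rw [h1, h2] at hadj
    exact adj44 h4 hadj hy hz
  · obtain ⟨g, hg, hr, hb⟩ := hf.cl (below_one 5) 1 4 [2, 0, 5] rfl (by decide) (by decide)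
      (by decide) (by rw [h1, hy]) (by decide) (by decide)
    obtain ⟨g2, hg2, hr2, _⟩ := hr.cl hb 3 4 [4, 0, 2] rfl (by decide) (by decide)
      (by decide) (by rw [hg 3 (by decide), h2, hz]) (by decide) (by decide)
    exact h g2 hr2.sat

theorem adj645 (ha : ∀ f, ¬ E.Sat P645a f) (hb : ∀ f, ¬ E.Sat P645b f)
    (hc : ∀ f, ¬ E.Sat P645c f) {x y z : V} (hxy : E.H.Adj x y) (hxz : E.H.Adj x z)
    (hx : E.D x = 6) (hy : E.D y = 4) : E.D z ≠ 5 := by
  intro hz
  have hne : y ≠ z := by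
    rintro rfl
    omega
  obtain ⟨f, i, hf, h0, h1, h2, hi1, hi2⟩ := E.root (E.inI (by omega)) hxy hxz hne
  rw [hx] at hf hi2
  obtain ⟨g, hg, hr, hB⟩ := hf.cl (below_one 6) 1 4 [2, 0, 6] rfl (by decide) (by decide)
    (by decide) (by rw [h1, hy]) (by decide) (by decide)
  have hi : i = 1 ∨ i = 2 ∨ i = 3 := by omega
  rcases hi with rfl | rfl | rfl
  · obtain ⟨g2, hg2, hr2, _⟩ := hr.cl hB 2 5 [3, 0, 1, 7] rfl (by decide) (by decide)
      (by decide) (by rw [hg 2 (by decide), h2, hz]) (by decide) (by decide)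
    exact ha g2 hr2.sat
  · obtain ⟨g2, hg2, hr2, _⟩ := hr.cl hB 3 5 [4, 0, 2] rfl (by decide) (by decide)
      (by decide) (by rw [hg 3 (by decide), h2, hz]) (by decide) (by decide)
    exact hb g2 hr2.sat
  · obtain ⟨g2, hg2, hr2, _⟩ := hr.cl hB 4 5 [5, 0, 3] rfl (by decide) (by decide)
      (by decide) (by rw [hg 4 (by decide), h2, hz]) (by decide) (by decide)
    exact hc g2 hr2.sat

theorem adj66 (h : ∀ f, ¬ E.Sat P66 f) {x y a b : V} (ha : E.T x y a) (hb : E.T x y b)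
    (hab : a ≠ b) (hx : E.D x = 6) (hy : E.D y = 6) (h4 : E.D a = 4) : E.D b ≠ 4 := by
  intro h5
  have hxy := E.adjT _ _ _ ha
  have hxa := E.adjT _ _ _ (E.swap _ _ _ (E.rot _ _ _ (E.rot _ _ _ ha)))
  have hya : y ≠ a := by
    rintro rfl
    omega
  obtain ⟨f, i, hf, h0, h1, _, _, _⟩ := E.root (E.inI (by omega)) hxy hxa hya
  -- the two common neighbours are `f 2`, `f 6`
  have hL := hf.1 _ List.mem_cons_self
  have hR := hL.2
  dsimp only at hR
  rw [length_news, h0, hx] at hR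
  have hR' : Rotn E.H E.T x 6 (fun i => f (1 + i % 6)) := by
    refine hR.tExt fun i => ?_
    rw [lnth_news _ _ _ (Nat.mod_lt _ (by omega))]
  have h6 : ∀ c, E.T x y c → c = f 6 ∨ c = f 2 := by
    intro c hc
    have h7 := (hR'.tri 5 c).1 (by
      change E.T x (f (1 + 6 % 6)) c
      rw [show 1 + 6 % 6 = 1 from rfl, h1]
      exact hc)
    exact h7
  rw [hx] at hf
  obtain ⟨g, hg, hr, hB⟩ := hf.cl (below_one 6) 1 6 [2, 0, 6] rfl (by decide) (by decide)
    (by decide) (by rw [h1, hy]) (by decide) (by decide)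
  have h26 : E.D (f 2) = 4 ∧ E.D (f 6) = 4 := by
    rcases h6 a ha with h7 | h7 <;> rcases h6 b hb with h8 | h8
    · exact absurd (h7.trans h8.symm) hab
    · exact ⟨by rw [← h8, h5], by rw [← h7, h4]⟩
    · exact ⟨by rw [← h7, h4], by rw [← h8, h5]⟩
    · exact absurd (h7.trans h8.symm) hab
  obtain ⟨g2, hg2, hr2, hB2⟩ := hr.cl hB 2 4 [3, 0, 1, 9] rfl (by decide) (by decide)
    (by decide) (by rw [hg 2 (by decide), h26.1]) (by decide) (by decide)
  obtain ⟨g3, hg3, hr3, _⟩ := hr2.cl hB2 6 4 [5, 0, 1, 7] rfl (by decide) (by decide)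
    (by decide) (by rw [hg2 6 (by decide), hg 6 (by decide), h26.2]) (by decide) (by decide)
  exact h g3 hr3.sat

theorem adj545 (h5 : ∀ f, ¬ E.Sat P55 f) (h : ∀ f, ¬ E.Sat P545 f) {m y z : V}
    (hmy : E.H.Adj m y) (hmz : E.H.Adj m z) (hne : y ≠ z) (hm : E.D m = 4) (hy : E.D y = 5) :
    E.D z ≠ 5 := by
  intro hz
  obtain ⟨f, i, hf, h0, h1, h2, hi1, hi2⟩ := E.root (E.inI (by omega)) hmy hmz hne
  have hadj := E.adj_two hf (by omega)
  rw [hm] at hf hi2
  have hi : i = 1 ∨ i = 2 := by omega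
  rcases hi with rfl | rfl
  · rw [h1, h2] at hadj
    exact adj55 h5 hadj hy hz
  · obtain ⟨g, hg, hr, hb⟩ := hf.cl (below_one 4) 1 5 [2, 0, 4] rfl (by decide) (by decide)
      (by decide) (by rw [h1, hy]) (by decide) (by decide)
    obtain ⟨g2, hg2, hr2, _⟩ := hr.cl hb 3 5 [4, 0, 2] rfl (by decide) (by decide)
      (by decide) (by rw [hg 3 (by decide), h2, hz]) (by decide) (by decide)
    exact h g2 hr2.sat

end facts

/-- The local facts, from the eight patches. -/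
theorem Env.local_facts (E : Env V) (h : ∀ P ∈ small, ∀ f, ¬ E.Sat P f) :
    (∀ x y, E.H.Adj x y → E.D x = 4 → E.D y ≠ 4) ∧
    (∀ x y, E.H.Adj x y → E.D x = 5 → E.D y ≠ 5) ∧
    (∀ x y z, E.H.Adj x y → E.H.Adj x z → y ≠ z → E.D x = 5 → E.D y = 4 → E.D z ≠ 4) ∧
    (∀ x y z, E.H.Adj x y → E.H.Adj x z → E.D x = 6 → E.D y = 4 → E.D z ≠ 5) ∧
    (∀ x y a b, E.T x y a → E.T x y b → a ≠ b → E.D x = 6 → E.D y = 6 → E.D a = 4 →
      E.D b ≠ 4) ∧
    (∀ m y z, E.H.Adj m y → E.H.Adj m z → y ≠ z → E.D m = 4 → E.D y = 5 → E.D z ≠ 5) := by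
  have h1 := h P44 (by simp [small])
  have h2 := h P55 (by simp [small])
  have h3 := h P454 (by simp [small])
  have h4 := h P645a (by simp [small])
  have h5 := h P645b (by simp [small])
  have h6 := h P645c (by simp [small])
  have h7 := h P66 (by simp [small])
  have h8 := h P545 (by simp [small])
  exact ⟨fun x y => adj44 h1, fun x y => adj55 h2, fun x y z => adj54 h1 h3,
    fun x y z => adj645 h4 h5 h6, fun x y a b => adj66 h7, fun m y z => adj545 h2 h8⟩

/-- A vertex of degree 5 has at most one neighbour of degree 4. -/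
theorem n4_le_one {V : Type} [Finite V] {G : SimpleGraph V} {I : Finset V}
    (h : ∀ x y z, G.Adj x y → G.Adj x z → y ≠ z → dgI G I x = 5 → dgI G I y = 4 →
      dgI G I z ≠ 4) {x : V} (hx : dgI G I x = 5) : n4 G I x ≤ 1 := by
  unfold n4
  rw [Set.ncard_le_one (Set.toFinite _)]
  rintro y ⟨hy1, hy2⟩ z ⟨hz1, hz2⟩
  by_contra hne
  exact h x y z hy1 hz1 hne hx hy2 hz2

end Pool.Agent.W986.ST
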