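import Pool.Agent.W986.SubProp

/-!
# The global side of the discharging, final form

The rule. Every vertex of degree 4 in `I` gives 1/2 to each neighbour. A vertex `u` of `I` whose
charge is then positive gives everything to its neighbours outside of `I` if there is one, and
otherwise distributes it among its neighbours in proportion to the weights `w`. Moreover there is
a set `Mid` of vertices `m` of degree 4 which take 1/2 back from `cen m` and give it to `opp m`.
-/

set_option autoImplicit false

open Finset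

namespace Pool.Agent.W986

variable {V : Type}

open Classical in
/-- The number of the elements of `A` which `f` maps to `x`. -/
noncomputable def pcnt (A : Finset V) (f : V → V) (x : V) : ℕ := (A.filter (fun m => f m = x)).card

open Classical in
/-- Twice the charge which `u` gives to the vertices outside of `I`. -/
noncomputable def sinkF (G : SimpleGraph V) (I : Finset V) (s : ℤ) (Mid : Finset V) (opp : V → V)
    (u : V) : ℤ :=
  (if dgI G I u = 4 then (sout G I u : ℤ) else 0) +
  (if 0 < kap2 G I s u ∧ 0 < sout G I u then kap2 G I s u else 0) +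
  (if u ∈ Mid ∧ opp u ∉ I then 1 else 0)

open Classical in
/-- The contribution of `u` to the neighbour `x` is `pterm u` times the weight of `x`. -/
noncomputable def pterm [Fintype V] (G : SimpleGraph V) (I : Finset V) (s : ℤ) (Mid : Finset V)
    (cen : V → V) (w : V → ℕ) (u : V) : ℚ :=
  if u ∈ I ∧ 0 < kap2 G I s u ∧ ∀ y, G.Adj u y → y ∈ I then
    ((kap2 G I s u : ℚ) - pcnt Mid cen u) / Wsum G w u else 0

open Classical in
theorem pcnt_sum {I : Finset V} (A : Finset V) (hA : A ⊆ I) (f : V → V) (x : V) :
    (pcnt A f x : ℚ) = ∑ u ∈ I, if u ∈ A ∧ f u = x then (1 : ℚ) else 0 := by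
  unfold pcnt
  rw [← Finset.sum_filter, Finset.sum_const, nsmul_eq_mul, mul_one]
  congr 2
  ext m
  simp only [Finset.mem_filter]
  constructor
  · rintro ⟨h1, h2⟩
    exact ⟨hA h1, h1, h2⟩
  · rintro ⟨_, h1, h2⟩
    exact ⟨h1, h2⟩

open Classical in
theorem pcnt_pos {A : Finset V} {f : V → V} {x : V} (h : 0 < pcnt A f x) : ∃ m ∈ A, f m = x := by
  obtain ⟨m, hm⟩ := Finset.card_pos.1 h
  exact ⟨m, (Finset.mem_filter.1 hm).1, (Finset.mem_filter.1 hm).2⟩

variable [Fintype V] {S I : Finset V} {G : SimpleGraph V} {T : V → V → V → Prop} {s : ℤ}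

theorem sout_pos (u : V) : 0 < sout G I u ↔ ¬ ∀ y, G.Adj u y → y ∈ I := by
  unfold sout
  rw [Set.ncard_pos (Set.toFinite _)]
  constructor
  · rintro ⟨y, hy1, hy2⟩ h
    exact hy2 (h y hy1)
  · intro h
    push Not at h
    obtain ⟨y, hy1, hy2⟩ := h
    exact ⟨y, hy1, hy2⟩

open Classical in
/-- **The discharging contradicts the Euler characteristic.** -/
theorem give_fin (R : Region S G T I)
    (h44 : ∀ x y, G.Adj x y → dgI G I x = 4 → dgI G I y ≠ 4) (w : V → ℕ)
    (hw : ∀ x ∈ I, 0 ≤ kap2 G I s x → w x = 0)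
    (Mid : Finset V) (cen opp : V → V) (hM : ∀ m ∈ Mid, dgI G I m = 4)
    (hc : ∀ m ∈ Mid, cen m ∈ I ∧ 0 < kap2 G I s (cen m) ∧ ∀ y, G.Adj (cen m) y → y ∈ I)
    (ho : ∀ m ∈ Mid, G.Adj m (opp m))
    (hub : ∀ x ∈ I, dgI G I x ≠ 4 → (kap2 G I s x < 0 ∨ ∃ m ∈ Mid, opp m = x) →
      (∑ u ∈ univ.filter (fun u => G.Adj x u), pterm G I s Mid cen w u) * w x + pcnt Mid opp x ≤
        - (kap2 G I s x : ℚ))
    (pos : ∀ u ∈ I, 0 < kap2 G I s u → (∀ y, G.Adj u y → y ∈ I) → 0 < Wsum G w u)
    (sink : 0 < eout G I → 4 < ∑ u ∈ I, (2 * (sout G I u : ℤ) - sinkF G I s Mid opp u)) :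
    False := by
  have hMI : Mid ⊆ I := fun m hm => mem_of_dgI (G := G) (by rw [hM m hm]; norm_num)
  let A : V → V → ℚ := fun u y => if (u ∈ I ∧ 0 < kap2 G I s u) ∧ G.Adj u y then
    (if ∀ z, G.Adj u z → z ∈ I then ((kap2 G I s u : ℚ) - pcnt Mid cen u) / Wsum G w u * w y
      else if y ∉ I then (kap2 G I s u : ℚ) / sout G I u else 0) else 0
  let B : V → V → ℚ := fun u y => (if u ∈ Mid ∧ opp u = y then 1 else 0) -
    (if u ∈ Mid ∧ cen u = y then 1 else 0)
  have hA : ∀ u y, A u y = if (u ∈ I ∧ 0 < kap2 G I s u) ∧ G.Adj u y then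
    (if ∀ z, G.Adj u z → z ∈ I then ((kap2 G I s u : ℚ) - pcnt Mid cen u) / Wsum G w u * w y
      else if y ∉ I then (kap2 G I s u : ℚ) / sout G I u else 0) else 0 := fun _ _ => rfl
  have hB : ∀ u y, B u y = (if u ∈ Mid ∧ opp u = y then 1 else 0) -
    (if u ∈ Mid ∧ cen u = y then 1 else 0) := fun _ _ => rfl
  -- the amounts received by the vertices of the region
  have hAin : ∀ x ∈ I, ∑ u ∈ I, A u x =
      (∑ u ∈ univ.filter (fun u => G.Adj x u), pterm G I s Mid cen w u) * w x := by
    intro x hx
    rw [sum_mem I, Finset.sum_mul, Finset.sum_filter]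
    apply Finset.sum_congr rfl
    intro u _
    rw [hA, pterm]
    by_cases h1 : u ∈ I <;> by_cases h2 : G.Adj x u <;> by_cases h3 : 0 < kap2 G I s u <;>
      by_cases h4 : ∀ z, G.Adj u z → z ∈ I <;> simp [h1, h2, h3, h4, hx, G.adj_comm u x]
  have hBin : ∀ x, ∑ u ∈ I, B u x = (pcnt Mid opp x : ℚ) - pcnt Mid cen x := by
    intro x
    rw [pcnt_sum Mid hMI, pcnt_sum Mid hMI, ← Finset.sum_sub_distrib]
  -- the amounts given by the vertices of the region
  have hAout : ∀ x ∈ I, ∑ y, A x y =
      if 0 < kap2 G I s x then (kap2 G I s x : ℚ) - pcnt Mid cen x else 0 := by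
    intro x hx
    by_cases h1 : 0 < kap2 G I s x
    · rw [if_pos h1]
      by_cases h2 : ∀ z, G.Adj x z → z ∈ I
      · have h3 : ∑ y, A x y = ∑ y ∈ univ.filter (fun y => G.Adj x y),
            ((kap2 G I s x : ℚ) - pcnt Mid cen x) / Wsum G w x * w y := by
          rw [Finset.sum_filter]
          apply Finset.sum_congr rfl
          intro y _
          rw [hA]
          by_cases h4 : G.Adj x y
          · rw [if_pos ⟨⟨hx, h1⟩, h4⟩, if_pos h2, if_pos h4]
          · rw [if_neg (fun h => h4 h.2), if_neg h4]
        rw [h3, ← Finset.mul_sum]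
        have h4 : (∑ y ∈ univ.filter (fun y => G.Adj x y), (w y : ℚ)) = (Wsum G w x : ℚ) := by
          unfold Wsum
          push_cast
          rfl
        rw [h4]
        have h5 : (Wsum G w x : ℚ) ≠ 0 := by
          exact_mod_cast (pos x hx h1 h2).ne'
        field_simp
      · have h3 : ∑ y, A x y = ∑ y ∈ univ.filter (fun y => G.Adj x y ∧ y ∉ I),
            (kap2 G I s x : ℚ) / sout G I x := by
          rw [Finset.sum_filter]
          apply Finset.sum_congr rfl
          intro y _
          rw [hA]
          by_cases h4 : G.Adj x y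
          · rw [if_pos ⟨⟨hx, h1⟩, h4⟩, if_neg h2]
            by_cases h5 : y ∉ I
            · rw [if_pos h5, if_pos ⟨h4, h5⟩]
            · rw [if_neg h5, if_neg (fun h => h5 h.2)]
          · rw [if_neg (fun h => h4 h.2), if_neg (fun h => h4 h.1)]
        have h4 : sout G I x = (univ.filter (fun y => G.Adj x y ∧ y ∉ I)).card := by
          unfold sout
          rw [← Set.ncard_coe_finset]
          congr 1
          ext y
          simp
        have h5 : 0 < sout G I x := (sout_pos x).2 h2
        have h6 : pcnt Mid cen x = 0 := by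
          by_contra h7
          obtain ⟨m, hm, rfl⟩ := pcnt_pos (Nat.pos_of_ne_zero h7)
          exact h2 (hc m hm).2.2
        rw [h3, Finset.sum_const, ← h4, h6, nsmul_eq_mul]
        have h7 : (sout G I x : ℚ) ≠ 0 := by
          exact_mod_cast h5.ne'
        field_simp
        simp
    · rw [if_neg h1]
      apply Finset.sum_eq_zero
      intro y _
      rw [hA, if_neg]
      exact fun h => h1 h.1.2
  have hBout : ∀ x, ∑ y, B x y = 0 := by
    intro x
    simp_rw [hB]
    rw [Finset.sum_sub_distrib]
    by_cases h1 : x ∈ Mid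
    · simp [h1]
    · simp [h1]
  -- the inequality at every vertex
  have hhub : ∀ x ∈ I, (kap2 G I s x : ℚ) + ∑ u ∈ I, (A u x + B u x) ≤ ∑ y, (A x y + B x y) := by
    intro x hx
    rw [Finset.sum_add_distrib, Finset.sum_add_distrib, hAin x hx, hBin, hAout x hx, hBout,
      add_zero]
    have hcen : kap2 G I s x ≤ 0 → pcnt Mid cen x = 0 := by
      intro h1
      by_contra h2
      obtain ⟨m, hm, rfl⟩ := pcnt_pos (Nat.pos_of_ne_zero h2)
      have := (hc m hm).2.1
      omega
    by_cases h4 : dgI G I x = 4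
    · have h5 : kap2 G I s x = 0 := kap2_four h4
      have h6 : w x = 0 := hw x hx h5.ge
      have h7 : pcnt Mid opp x = 0 := by
        by_contra h8
        obtain ⟨m, hm, rfl⟩ := pcnt_pos (Nat.pos_of_ne_zero h8)
        exact h44 _ _ (ho m hm) (hM m hm) h4
      rw [if_neg (by omega), h5, h6, h7, hcen h5.le]
      simp
    · rcases lt_or_ge (kap2 G I s x) 0 with h5 | h5
      · have h6 := hub x hx h4 (Or.inl h5)
        rw [if_neg (by omega), hcen h5.le]
        push_cast
        linarith
      · have h6 : w x = 0 := hw x hx h5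
        have h7 : pcnt Mid opp x = 0 := by
          by_contra h8
          have h9 := hub x hx h4 (Or.inr (pcnt_pos (Nat.pos_of_ne_zero h8)))
          rw [h6] at h9
          have h10 : (0 : ℚ) ≤ (kap2 G I s x : ℚ) := by exact_mod_cast h5
          have h11 : (0 : ℚ) < (pcnt Mid opp x : ℚ) := by
            exact_mod_cast Nat.pos_of_ne_zero h8
          push_cast at h9
          linarith
        rw [h6, h7]
        by_cases h8 : 0 < kap2 G I s x
        · rw [if_pos h8]
          push_cast
          linarith
        · rw [if_neg h8, hcen (by omega)]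
          have h9 : kap2 G I s x = 0 := by omega
          rw [h9]
          simp
  have key := give_sum (s := s) h44 (fun u y => A u y + B u y) hhub
  -- the amounts given to the outside
  have hout : ∀ u ∈ I, ∑ y ∈ univ.filter (fun y => y ∉ I), (A u y + B u y) +
      (if dgI G I u = 4 then (sout G I u : ℚ) else 0) = (sinkF G I s Mid opp u : ℚ) := by
    intro u hu
    rw [Finset.sum_add_distrib]
    have h1 : ∑ y ∈ univ.filter (fun y => y ∉ I), A u y =
        if 0 < kap2 G I s u ∧ 0 < sout G I u then (kap2 G I s u : ℚ) else 0 := by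
      by_cases h2 : 0 < kap2 G I s u ∧ 0 < sout G I u
      · rw [if_pos h2]
        have h3 : ∑ y ∈ univ.filter (fun y => y ∉ I), A u y =
            ∑ y ∈ univ.filter (fun y => G.Adj u y ∧ y ∉ I), (kap2 G I s u : ℚ) / sout G I u := by
          rw [Finset.sum_filter, Finset.sum_filter]
          apply Finset.sum_congr rfl
          intro y _
          by_cases h5 : y ∉ I
          · rw [if_pos h5, hA]
            by_cases h4 : G.Adj u y
            · rw [if_pos ⟨⟨hu, h2.1⟩, h4⟩, if_neg ((sout_pos u).1 h2.2), if_pos h5,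
                if_pos ⟨h4, h5⟩]
            · rw [if_neg (fun h => h4 h.2), if_neg (fun h => h4 h.1)]
          · rw [if_neg h5, if_neg (fun h => h5 h.2)]
        have h4 : sout G I u = (univ.filter (fun y => G.Adj u y ∧ y ∉ I)).card := by
          unfold sout
          rw [← Set.ncard_coe_finset]
          congr 1
          ext y
          simp
        rw [h3, Finset.sum_const, ← h4, nsmul_eq_mul]
        have h7 : (sout G I u : ℚ) ≠ 0 := by
          exact_mod_cast h2.2.ne'
        field_simp
      · rw [if_neg h2]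
        apply Finset.sum_eq_zero
        intro y hy
        have h5 := (Finset.mem_filter.1 hy).2
        rw [hA]
        by_cases h3 : (u ∈ I ∧ 0 < kap2 G I s u) ∧ G.Adj u y
        · exfalso
          exact h2 ⟨h3.1.2, (sout_pos u).2 fun h => h5 (h y h3.2)⟩
        · rw [if_neg h3]
    have h2 : ∑ y ∈ univ.filter (fun y => y ∉ I), B u y =
        if u ∈ Mid ∧ opp u ∉ I then (1 : ℚ) else 0 := by
      simp_rw [hB]
      rw [Finset.sum_sub_distrib]
      by_cases h3 : u ∈ Mid
      · have h4 : cen u ∈ I := (hc u h3).1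
        have h5 : ∑ y ∈ univ.filter (fun y => y ∉ I),
            (if u ∈ Mid ∧ cen u = y then (1 : ℚ) else 0) = 0 := by
          apply Finset.sum_eq_zero
          intro y hy
          rw [if_neg]
          rintro ⟨_, rfl⟩
          exact (Finset.mem_filter.1 hy).2 h4
        rw [h5, sub_zero, Finset.sum_filter]
        by_cases h6 : opp u ∈ I
        · rw [if_neg (fun h => h.2 h6)]
          apply Finset.sum_eq_zero
          intro y _
          by_cases h7 : y ∉ I
          · rw [if_pos h7, if_neg]
            rintro ⟨_, rfl⟩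
            exact h7 h6
          · rw [if_neg h7]
        · rw [if_pos ⟨h3, h6⟩, Finset.sum_eq_single (opp u)]
          · rw [if_pos h6, if_pos ⟨h3, rfl⟩]
          · intro y _ hy
            by_cases h7 : y ∉ I
            · rw [if_pos h7, if_neg]
              rintro ⟨_, h8⟩
              exact hy h8.symm
            · rw [if_neg h7]
          · intro h
            exact absurd (Finset.mem_univ _) h
      · simp [h3]
    rw [h1, h2, sinkF]
    push_cast
    by_cases h3 : dgI G I u = 4 <;> by_cases h4 : 0 < kap2 G I s u ∧ 0 < sout G I u <;>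
      by_cases h5 : u ∈ Mid ∧ opp u ∉ I <;> simp [h3, h4, h5] <;> ring
  rw [Finset.sum_congr rfl hout] at key
  have key2 : 2 * ∑ x ∈ I, (6 - ({y | G.Adj x y}.ncard : ℤ)) ≤
      ∑ u ∈ I, sinkF G I s Mid opp u := by
    exact_mod_cast key
  have heo : (eout G I : ℤ) = ∑ u ∈ I, (sout G I u : ℤ) := by
    unfold eout sout
    push_cast
    rfl
  rcases R.bdry with ⟨h1, h2⟩ | ⟨c, p, _, _, _, _, _, _, _, _, h1, h2⟩
  · -- the closed surface
    have h3 : ∀ u ∈ I, sinkF G I s Mid opp u = 0 := by
      intro u hu
      have h4 : sout G I u = 0 := by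
        by_contra h5
        exact (sout_pos u).1 (Nat.pos_of_ne_zero h5) (h1 u hu)
      have h5 : ¬ (u ∈ Mid ∧ opp u ∉ I) := fun h => h.2 (h1 u hu _ (ho u h.1))
      unfold sinkF
      rw [h4, if_neg h5]
      simp
    rw [Finset.sum_congr rfl h3, h2] at key2
    simp at key2
  · have h3 := sink (by omega)
    rw [Finset.sum_sub_distrib, ← Finset.mul_sum, ← heo] at h3
    omega

end Pool.Agent.W986
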