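import Pool.Agent.W986.SubTree

/-!
# The exceptional senders

`ExS E m u`: the vertex `u` has degree 5, its neighbours are `m, X, n, n', Y` in this order, `m`
has degree 4, `X` and `Y` have degree 7 and charge -1 (twice the charge), `n` and `n'` have degree
6 and charge 0. Then `m` takes 1 from `u` and gives it to the vertex opposite to `u`.
-/

set_option autoImplicit false

open Finset

namespace Pool.Agent.W986.ST

open Pool.Agent.W986

variable {V : Type}

/-- The vertex `u` is an exceptional sender, and `m` is its neighbour of degree 4. -/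
def ExS (E : Env V) (m u : V) : Prop :=
  E.I u ∧ E.D u = 5 ∧ ∃ ν, Rotn E.H E.T u 5 ν ∧ ν 0 = m ∧ E.D m = 4 ∧
    (E.D (ν 1) = 7 ∧ E.kap (ν 1) = -1) ∧ (E.D (ν 2) = 6 ∧ E.kap (ν 2) = 0) ∧
    (E.D (ν 3) = 6 ∧ E.kap (ν 3) = 0) ∧ (E.D (ν 4) = 7 ∧ E.kap (ν 4) = -1)

/-- The vertex opposite to `u` at the vertex `m` of degree 4. -/
noncomputable def oppV (E : Env V) (m u : V) : V :=
  open Classical in if h : ∃ μ, Rotn E.H E.T m 4 μ ∧ μ 0 = u then h.choose 2 else m

/-- The exceptional sender at `m`. -/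
noncomputable def cenV (E : Env V) (m : V) : V :=
  open Classical in if h : ∃ u, ExS E m u then h.choose else m

/-- The vertex which receives more because of `m`. -/
noncomputable def oppM (E : Env V) (m : V) : V := oppV E m (cenV E m)

/-- The set of the vertices of degree 4 at the exceptional senders. -/
noncomputable def midS [Fintype V] (E : Env V) : Finset V :=
  open Classical in univ.filter fun m => ∃ u, ExS E m u

variable {E : Env V} {m u x : V}

theorem Env.I_of (h : E.D x < 12) : E.I x := by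
  by_contra h1
  have := E.big x h1
  omega

/-- A rotation which starts at a given neighbour. -/
theorem Env.rot_at (hx : E.I x) {y : V} (hy : E.H.Adj x y) :
    ∃ μ, Rotn E.H E.T x (E.D x) μ ∧ μ 0 = y := by
  obtain ⟨ν, hν⟩ := E.ex x hx
  obtain ⟨i, _, hi⟩ := (hν.adj y).1 hy
  refine ⟨fun j => ν (j + i), hν.tShift i, ?_⟩
  change ν (0 + i) = y
  rw [zero_add]
  exact hi

theorem oppV_eq {μ : ℕ → V} (h : Rotn E.H E.T m 4 μ) : oppV E m (μ 0) = μ 2 := by
  classical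
  have h1 : ∃ ν, Rotn E.H E.T m 4 ν ∧ ν 0 = μ 0 := ⟨μ, h, rfl⟩
  rw [oppV, dif_pos h1]
  obtain ⟨h2, h3⟩ := h1.choose_spec
  rcases h.tTwo h2 h3 with h4 | h4
  · exact h4 2
  · rw [h4 2]
    exact h.per 2

theorem ExS.adj (h : ExS E m u) : E.H.Adj u m := by
  obtain ⟨_, _, ν, hν, h0, _⟩ := h
  rw [← h0]
  exact hν.adj_nu 0

theorem ExS.four (h : ExS E m u) : E.D m = 4 := by
  obtain ⟨_, _, ν, _, _, h4, _⟩ := h
  exact h4

theorem ExS.inner (h : ExS E m u) : E.I m := E.I_of (by rw [h.four]; omega)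

theorem ExS.nb (h : ExS E m u) {y : V} (hy : E.H.Adj u y) : E.I y := by
  obtain ⟨_, _, ν, hν, h0, h4, h1, h2, h3, h5⟩ := h
  obtain ⟨i, hi, rfl⟩ := (hν.adj y).1 hy
  apply E.I_of
  have : i = 0 ∨ i = 1 ∨ i = 2 ∨ i = 3 ∨ i = 4 := by omega
  rcases this with rfl | rfl | rfl | rfl | rfl
  · rw [h0]
    omega
  · omega
  · omega
  · omega
  · omega

/-- The link of `m`. -/
theorem ExS.link (h : ExS E m u) {μ : ℕ → V} (hμ : Rotn E.H E.T m 4 μ) (h0 : μ 0 = u) :
    (E.D (μ 1) = 7 ∧ E.kap (μ 1) = -1) ∧ (E.D (μ 3) = 7 ∧ E.kap (μ 3) = -1) := by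
  obtain ⟨_, _, ν, hν, hm, _, h1, _, _, h5⟩ := h
  have key : ∀ y, E.T u m y → E.D y = 7 ∧ E.kap y = -1 := by
    intro y hy
    have e5 : ν 5 = m := by rw [show (5 : ℕ) = 0 + 5 from rfl, hν.per, hm]
    have e6 : ν 6 = ν 1 := by rw [show (6 : ℕ) = 1 + 5 from rfl, hν.per]
    rw [← e5] at hy
    rcases (hν.tri 4 y).1 hy with rfl | rfl
    · exact h5
    · rw [e6]
      exact h1
  refine ⟨key _ ?_, key _ ?_⟩
  · have h2 := hμ.tri_next 0
    rw [h0] at h2
    exact E.swap _ _ _ h2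
  · have h2 := hμ.tri_next 3
    rw [show μ (3 + 1) = μ 0 from hμ.per 0, h0] at h2
    exact E.rot _ _ _ (E.rot _ _ _ h2)

theorem ExS.rotn (h : ExS E m u) : ∃ μ, Rotn E.H E.T m 4 μ ∧ μ 0 = u := by
  have h1 := E.rot_at h.inner h.adj.symm
  rw [h.four] at h1
  exact h1

/-- If no vertex of degree 4 has two neighbours of degree 5, then `u` is determined by `m`. -/
theorem ExS.uniq (h545 : ∀ m y z, E.H.Adj m y → E.H.Adj m z → y ≠ z → E.D m = 4 →
    E.D y = 5 → E.D z ≠ 5) (h : ExS E m u) {u' : V} (h' : ExS E m u') : u' = u := by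
  by_contra hne
  exact h545 m u' u h'.adj.symm h.adj.symm hne h.four h'.2.1 h.2.1

section fin

variable [Fintype V]

theorem mem_midS : m ∈ midS E ↔ ∃ u, ExS E m u := by
  classical
  unfold midS
  rw [Finset.mem_filter]
  exact ⟨fun h => h.2, fun h => ⟨Finset.mem_univ _, h⟩⟩

omit [Fintype V] in
theorem cenV_exS (h : ∃ u, ExS E m u) : ExS E m (cenV E m) := by
  classical
  rw [cenV, dif_pos h]
  exact h.choose_spec

theorem cenV_spec (h : m ∈ midS E) : ExS E m (cenV E m) := cenV_exS (mem_midS.1 h)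

omit [Fintype V] in
theorem cenV_eq (h545 : ∀ m y z, E.H.Adj m y → E.H.Adj m z → y ≠ z → E.D m = 4 →
    E.D y = 5 → E.D z ≠ 5) (h : ExS E m u) : cenV E m = u :=
  h.uniq h545 (cenV_exS ⟨u, h⟩)

/-- The link of a vertex of `midS`. -/
theorem midS_link (h : m ∈ midS E) : ∃ μ, Rotn E.H E.T m 4 μ ∧ μ 0 = cenV E m ∧
    μ 2 = oppM E m ∧ (E.D (μ 1) = 7 ∧ E.kap (μ 1) = -1) ∧
    (E.D (μ 3) = 7 ∧ E.kap (μ 3) = -1) := by
  have h1 := cenV_spec h
  obtain ⟨μ, hμ, h0⟩ := h1.rotn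
  obtain ⟨h2, h3⟩ := h1.link hμ h0
  exact ⟨μ, hμ, h0, by rw [oppM, ← h0, oppV_eq hμ], h2, h3⟩

theorem midS_four (h : m ∈ midS E) : E.D m = 4 := (cenV_spec h).four

theorem midS_cen (h : m ∈ midS E) : E.I (cenV E m) ∧ E.D (cenV E m) = 5 ∧
    ∀ y, E.H.Adj (cenV E m) y → E.I y :=
  ⟨(cenV_spec h).1, (cenV_spec h).2.1, fun _ hy => (cenV_spec h).nb hy⟩

theorem midS_opp (h : m ∈ midS E) : E.H.Adj m (oppM E m) := by
  obtain ⟨μ, hμ, _, h2, _⟩ := midS_link h
  rw [← h2]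
  exact hμ.adj_nu 2

/-- The neighbours of `m` except the opposite vertex are inner. -/
theorem midS_nb (h : m ∈ midS E) {y : V} (hy : E.H.Adj m y) (hne : y ≠ oppM E m) : E.I y := by
  obtain ⟨μ, hμ, h0, h2, h1, h3⟩ := midS_link h
  obtain ⟨i, hi, rfl⟩ := (hμ.adj y).1 hy
  have : i = 0 ∨ i = 1 ∨ i = 2 ∨ i = 3 := by omega
  rcases this with rfl | rfl | rfl | rfl
  · rw [h0]
    exact (midS_cen h).1
  · exact E.I_of (by omega)
  · exact absurd h2 hne
  · exact E.I_of (by omega)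

/-- The common neighbours of `m` and the opposite vertex. -/
theorem midS_flank (h : m ∈ midS E) {y : V} (hy : E.T m (oppM E m) y) :
    E.D y = 7 ∧ E.kap y = -1 := by
  obtain ⟨μ, hμ, _, h2, h1, h3⟩ := midS_link h
  rw [← h2] at hy
  rcases (hμ.tri 1 y).1 hy with rfl | rfl
  · exact h1
  · exact h3

end fin

end Pool.Agent.W986.ST
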