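import Pool.Agent.W986.SubLeaf
import Pool.Agent.W986.SubMid
import Pool.Agent.W986.SubGiveFin

/-!
# The exceptional senders in the numerical leaves

`ctrU` recognises exceptional senders, and `exU` bounds the number of the vertices of degree 4
which give more to the hub.
-/

set_option autoImplicit false

open Finset

namespace Pool.Agent.W986.ST.LB

open Pool.Agent.W986 Pool.Agent.W986.ST

variable {V : Type} {E : Env V} {P : Patch} {f : ℕ → V}

theorem an_true {a b : Bool} (h : an a b = true) : a = true ∧ b = true := by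
  cases a with
  | true => exact ⟨rfl, h⟩
  | false => exact absurd h (by simp [an, cf_false])

theorem an_intro {a b : Bool} (ha : a = true) (hb : b = true) : an a b = true := by
  rw [ha, hb]
  rfl

theorem beq_true {a b : ℕ} (h : a = b) : Nat.beq a b = true := by
  rw [h]
  exact Nat.beq_refl b

theorem nil_of_ne {l : List ℕ} (h : l ≠ []) : nil l = false := by
  cases l with
  | nil => exact absurd rfl h
  | cons a l => rfl

theorem nil_of_len {l : List ℕ} {d : ℕ} (h : l.length = d) (hd : 0 < d) : nil l = false :=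
  nil_of_ne (by
    rintro rfl
    simp at h
    omega)

/-- A label with a known link. -/
theorem deg_len (h : E.Sat P f) {y : ℕ} (hn : nil (findL P.lk y) = false) :
    (findL P.lk y).length = E.D (f y) := (link h hn).deg.symm

theorem isD_spec (hK : KapOK E) (h : E.Sat P f) {d k y : ℕ} (hd : 0 < d) (h12 : 12 ≤ k)
    (hk : k < 1000) (hi : isD P d k y = true) : E.D (f y) = d ∧ E.kap (f y) = 12 - (k : ℤ) := by
  obtain ⟨h1, h2⟩ := an_true hi
  obtain ⟨h3, h4⟩ := an_true h2
  have h1 := Nat.eq_of_beq_eq_true h1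
  rw [len_eq] at h1
  have hn := nil_of_len h1 hd
  have h5 := Nat.le_of_ble_eq_true h3
  have h6 := lo_le hK h y (by omega)
  refine ⟨by rw [← deg_len h hn, h1], ?_⟩
  cases h7 : Nat.ble k 12 with
  | true =>
    rw [h7, cf_true] at h4
    have h8 := Nat.eq_of_beq_eq_true h4
    have h9 := pos_le hK h y
    have h10 := Nat.le_of_ble_eq_true h7
    omega
  | false =>
    rw [h7, cf_false] at h4
    have h8 : k ≤ 12 + neg P y := Nat.le_of_ble_eq_true h4
    have h9 := ble_false h7
    have h10 := neg_le hK h y (by omega)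
    omega

theorem mayD_intro (hK : KapOK E) (h : E.Sat P f) {d k y : ℕ} (h12 : 12 ≤ k) (hk : k < 1000)
    (hD : E.D (f y) = d) (hkap : E.kap (f y) = 12 - (k : ℤ)) : mayD P d k y = true := by
  unfold mayD
  rw [frcH_eq]
  refine an_intro ?_ (an_intro (Nat.ble_eq_true_of_le ?_)
    (an_intro (Nat.ble_eq_true_of_le ?_) (Nat.ble_eq_true_of_le ?_)))
  · cases hn : nil (findL P.lk y) with
    | true =>
      rw [cf_true]
      exact Nat.ble_eq_true_of_le (hD ▸ h.real.findB y)
    | false =>
      rw [cf_false, len_eq, deg_len h hn, hD]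
      exact beq_true rfl
  · have h1 := up_le hK h y
    omega
  · change 12 + lookM y P.kb ≤ k
    by_cases h1 : lookM y P.kb = 0
    · omega
    · have h2 := kap_kb h h1
      omega
  · by_cases h1 : lo P y < 1000
    · have h2 := lo_le hK h y h1
      omega
    · omega

/-- The rotation at a label with a known link, from the entry number `j`. -/
theorem rot_from (h : E.Sat P f) {y j : ℕ} (hn : nil (findL P.lk y) = false) {d : ℕ}
    (hd : (findL P.lk y).length = d) :
    Rotn E.H E.T (f y) d (fun k => f (lnth (findL P.lk y) ((k + j) % d))) := by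
  have h1 := (link h hn).2.tShift j
  rw [hd] at h1
  exact h1

theorem ctrU_spec (hK : KapOK E) (h : E.Sat P f) {u : ℕ} (hc : ctrU P u = true) :
    ∃ z, ExS E (f z) (f u) := by
  unfold ctrU at hc
  rw [frcH_eq] at hc
  obtain ⟨h1, h2⟩ := an_true hc
  rw [frc_eq] at h2
  generalize (@List.rec ℕ (fun _ => ℕ) 0 (fun z _ ih =>
      cf (Nat.beq (len (findL P.lk z)) 4) 0 (Nat.succ ih)) (findL P.lk u) : ℕ) = i at h2
  obtain ⟨h3, h4⟩ := an_true h2
  obtain ⟨h5, h6⟩ := an_true h4
  obtain ⟨h7, h8⟩ := an_true h6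
  obtain ⟨h9, h10⟩ := an_true h8
  have h1 := Nat.eq_of_beq_eq_true h1
  have h3 := Nat.eq_of_beq_eq_true h3
  rw [len_eq] at h1 h3
  have hn := nil_of_len h1 (by norm_num)
  have hn4 := nil_of_len h3 (by norm_num)
  have hrot := rot_from h (j := i) hn h1
  refine ⟨lnth (findL P.lk u) (i % 5), (link h hn).1, by rw [← deg_len h hn, h1], _, hrot, ?_, ?_,
    ?_, ?_, ?_, ?_⟩
  · simp only [zero_add]
  · exact (deg_len h hn4).symm.trans h3
  · have := isD_spec hK h (by norm_num) (by norm_num) (by norm_num) h5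
    simp only [add_comm 1 i]
    exact ⟨this.1, this.2.trans (by norm_num)⟩
  · have := isD_spec hK h (by norm_num) (by norm_num) (by norm_num) h7
    simp only [add_comm 2 i]
    exact ⟨this.1, this.2.trans (by norm_num)⟩
  · have := isD_spec hK h (by norm_num) (by norm_num) (by norm_num) h9
    simp only [add_comm 3 i]
    exact ⟨this.1, this.2.trans (by norm_num)⟩
  · have := isD_spec hK h (by norm_num) (by norm_num) (by norm_num) h10
    simp only [add_comm 4 i]
    exact ⟨this.1, this.2.trans (by norm_num)⟩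

/-- The neighbours of an exceptional sender, from `m`. -/
theorem ExS.all {m u : V} (h : ExS E m u) {ν : ℕ → V} (hν : Rotn E.H E.T u 5 ν) (h0 : ν 0 = m) :
    (E.D (ν 1) = 7 ∧ E.kap (ν 1) = -1) ∧ (E.D (ν 2) = 6 ∧ E.kap (ν 2) = 0) ∧
    (E.D (ν 3) = 6 ∧ E.kap (ν 3) = 0) ∧ (E.D (ν 4) = 7 ∧ E.kap (ν 4) = -1) := by
  obtain ⟨_, _, μ, hμ, hm, _, h1, h2, h3, h4⟩ := h
  rcases hμ.tTwo hν (h0.trans hm.symm) with h5 | h5
  · rw [h5, h5, h5, h5]
    exact ⟨h1, h2, h3, h4⟩
  · have e1 : μ ((5 - 1) * 1) = μ 4 := rfl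
    have e2 : μ ((5 - 1) * 2) = μ 3 := hμ.per 3
    have e3 : μ ((5 - 1) * 3) = μ 2 := (hμ.per 7).trans (hμ.per 2)
    have e4 : μ ((5 - 1) * 4) = μ 1 := ((hμ.per 11).trans (hμ.per 6)).trans (hμ.per 1)
    rw [h5, h5, h5, h5, e1, e2, e3, e4]
    exact ⟨h4, h3, h2, h1⟩

theorem ExS.kap_pos (hK : KapOK E) {m u : V} (h : ExS E m u) : 0 < E.kap u := by
  obtain ⟨ν, hν⟩ := E.ex u h.1
  have h1 := hK.inn u h.1 (by rw [h.2.1]; norm_num) ν hν
  rw [h.2.1] at h1
  rw [h1]
  push_cast
  positivity

theorem mayU_intro (hK : KapOK E) (h : E.Sat P f) {m u : ℕ} (hx : ExS E (f m) (f u)) :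
    mayU P m u = true := by
  unfold mayU
  rw [frcH_eq]
  cases hn : nil (findL P.lk u) with
  | true =>
    rw [cf_true]
    refine an_intro (Nat.ble_eq_true_of_le ?_) (beq_true ?_)
    · exact hx.2.1 ▸ h.real.findB u
    · by_contra h1
      have h2 := kap_kbN h h1
      have h3 := ExS.kap_pos hK hx
      omega
  | false =>
    rw [cf_false, len_eq, frc_eq]
    have hl := deg_len h hn
    rw [hx.2.1] at hl
    refine an_intro (beq_true hl) ?_
    cases hj : Nat.ble 5 (posn (findL P.lk u) m) with
    | true => rfl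
    | false =>
      rw [cf_false]
      have hj := ble_false hj
      have h1 := posn_spec (findL P.lk u) m (by omega)
      set j := posn (findL P.lk u) m with hjd
      have hrot := rot_from h (j := j) hn hl
      obtain ⟨h2, h3, h4, h5⟩ := ExS.all hx hrot (by
        rw [zero_add, Nat.mod_eq_of_lt hj, h1])
      simp only [add_comm _ j] at h2 h3 h4 h5
      exact an_intro (mayD_intro hK h (by norm_num) (by norm_num) h2.1 (h2.2.trans (by norm_num)))
        (an_intro (mayD_intro hK h (by norm_num) (by norm_num) h3.1 (h3.2.trans (by norm_num)))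
        (an_intro (mayD_intro hK h (by norm_num) (by norm_num) h4.1 (h4.2.trans (by norm_num)))
        (mayD_intro hK h (by norm_num) (by norm_num) h5.1 (h5.2.trans (by norm_num)))))

variable [Fintype V]

/-- The link of `m`, from the vertex which receives more. -/
theorem midS_from {m o : V} (hm : m ∈ midS E) (ho : oppM E m = o) {ν : ℕ → V}
    (hν : Rotn E.H E.T m 4 ν) (h0 : ν 0 = o) : ν 2 = cenV E m := by
  obtain ⟨μ, hμ, h1, h2, _⟩ := midS_link hm
  have h3 := hμ.tShift 2
  have h4 : ν 0 = (fun i => μ (i + 2)) 0 := by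
    rw [h0, ← ho, ← h2]
  rcases h3.tTwo hν h4 with h5 | h5
  · rw [h5, ← h1]
    exact hμ.per 0
  · rw [h5, ← h1]
    exact (hμ.per 4).trans (hμ.per 0)

theorem mayM_intro (hK : KapOK E) (h : E.Sat P f) {m : ℕ} (hm : f m ∈ midS E)
    (ho : oppM E (f m) = f 0) : mayM P m = true := by
  unfold mayM
  rw [frcH_eq]
  cases hn : nil (findL P.lk m) with
  | true => rfl
  | false =>
    rw [cf_false, frc_eq]
    have hl := deg_len h hn
    rw [midS_four hm] at hl
    cases hj : Nat.ble 4 (posn (findL P.lk m) 0) with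
    | true => rfl
    | false =>
      rw [cf_false, frc_eq]
      have hj := ble_false hj
      have h1 := posn_spec (findL P.lk m) 0 (by omega)
      set j := posn (findL P.lk m) 0 with hjd
      have hrot := rot_from h (j := j) hn hl
      have h2 := midS_from hm ho hrot (by rw [zero_add, Nat.mod_eq_of_lt hj, h1])
      simp only [add_comm _ j] at h2
      exact mayU_intro hK h (h2 ▸ cenV_spec hm)

theorem rec_card (b : ℕ → Bool) (n : ℕ) :
    (@Nat.rec (fun _ => ℕ) 0 (fun i ih => cf (b i) (Nat.succ ih) ih) n : ℕ) =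
      ((range n).filter fun i => b i = true).card := by
  induction n with
  | zero => rfl
  | succ n ih =>
    rw [range_add_one, filter_insert]
    change cf (b n) (Nat.succ _) _ = _
    rw [ih]
    cases hb : b n with
    | true =>
      rw [cf_true, if_pos rfl, card_insert_of_notMem (by simp)]
    | false =>
      rw [cf_false, if_neg Bool.false_ne_true]

/-- The bound for what the hub receives more. -/
theorem exU_ge (hK : KapOK E) (h : E.Sat P f) (hn : nil (findL P.lk 0) = false) :
    pcnt (midS E) (oppM E) (f 0) ≤ exU P := by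
  classical
  unfold exU
  rw [frcH_eq, frc_eq, len_eq]
  simp only [frc_eq]
  set l := findL P.lk 0 with hl
  have hlk := link h hn
  have hd := hlk.three
  rw [rec_card (fun i => an (p4 P (lnth l i)) (an (mayD P 7 13 (lnth l (Nat.mod (Nat.add i 1)
    l.length))) (an (mayD P 7 13 (lnth l (Nat.mod (Nat.add i (Nat.sub l.length 1)) l.length)))
    (mayM P (lnth l i)))))]
  unfold pcnt
  have hsub : (midS E).filter (fun m => oppM E m = f 0) ⊆
      (((range l.length).filter fun i => an (p4 P (lnth l i)) (an (mayD P 7 13 (lnth l (Nat.mod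
        (Nat.add i 1) l.length))) (an (mayD P 7 13 (lnth l (Nat.mod (Nat.add i
        (Nat.sub l.length 1)) l.length))) (mayM P (lnth l i)))) = true).image
        fun i => f (lnth l i)) := by
    intro m hm
    obtain ⟨hm, ho⟩ := mem_filter.1 hm
    have hadj : E.H.Adj (f 0) m := by
      rw [← ho]
      exact (midS_opp hm).symm
    obtain ⟨i, hi, him⟩ := (hlk.2.adj m).1 hadj
    rw [Nat.mod_eq_of_lt hi] at him
    subst him
    refine mem_image.2 ⟨i, mem_filter.2 ⟨mem_range.2 hi, ?_⟩, rfl⟩
    have hfl : ∀ y, E.T (f (lnth l i)) (f 0) y → E.D y = 7 ∧ E.kap y = -1 := by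
      intro y hy
      rw [← ho] at hy
      exact midS_flank hm hy
    have hT1 := hlk.2.tri_next i
    rw [Nat.mod_eq_of_lt hi] at hT1
    have hT2 := hlk.2.tri_next (i + (l.length - 1))
    rw [add_assoc i (l.length - 1) 1, Nat.sub_add_cancel (le_trans (by norm_num) hd),
      Nat.add_mod_right, Nat.mod_eq_of_lt hi] at hT2
    have h1 := hfl _ (E.swap _ _ _ hT1)
    have h2 := hfl _ (E.rot _ _ _ (E.rot _ _ _ hT2))
    refine an_intro ?_ (an_intro (mayD_intro hK h (by norm_num) (by norm_num) h1.1
      (h1.2.trans (by norm_num))) (an_intro (mayD_intro hK h (by norm_num) (by norm_num) h2.1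
      (h2.2.trans (by norm_num))) (mayM_intro hK h hm ho)))
    cases h3 : p4 P (lnth l i) with
    | true => rfl
    | false => exact absurd (midS_four hm) (not_four hK h h3)
  exact (card_le_card hsub).trans card_image_le

theorem ctrU_pcnt (hK : KapOK E) (h : E.Sat P f) (h545 : ∀ m y z, E.H.Adj m y → E.H.Adj m z →
    y ≠ z → E.D m = 4 → E.D y = 5 → E.D z ≠ 5) {u : ℕ} (hc : ctrU P u = true) :
    0 < pcnt (midS E) (cenV E) (f u) := by
  classical
  obtain ⟨z, hz⟩ := ctrU_spec hK h hc
  unfold pcnt
  rw [card_pos]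
  exact ⟨f z, mem_filter.2 ⟨mem_midS.2 ⟨_, hz⟩, cenV_eq h545 hz⟩⟩

/-- What the vertex `u` gives away. -/
noncomputable def gkM (E : Env V) (u : V) : ℤ := E.kap u - pcnt (midS E) (cenV E) u

/-- What the vertex `x` receives more. -/
noncomputable def extM (E : Env V) (x : V) : ℕ := pcnt (midS E) (oppM E) x

/-- The soundness of the leaves, with the exceptional senders. -/
theorem leafU_sound (hK : KapOK E) (h545 : ∀ m y z, E.H.Adj m y → E.H.Adj m z →
    y ≠ z → E.D m = 4 → E.D y = 5 → E.D z ≠ 5) (h : E.Sat P f)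
    (hl : leafB ctrU exU P = true) : FinB E (gkM E) (extM E) (f 0) := by
  have hn : nil (findL P.lk 0) = false := by
    cases hn : nil (findL P.lk 0) with
    | false => rfl
    | true =>
      rw [leafB, frcH_eq, hn] at hl
      cases hc : leafI P with
      | true => exact absurd h (leafI_sound hK hc)
      | false =>
        rw [hc, cf_false, cf_true] at hl
        exact absurd hl Bool.false_ne_true
  refine leafB_sound hK h (fun u => ?_) (fun u hu => ?_) (exU_ge hK h hn) hl
  · unfold gkM
    omega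
  · have h1 := ctrU_pcnt hK h h545 hu
    unfold gkM
    omega

end Pool.Agent.W986.ST.LB
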