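import Pool.Agent.W986.SubGiveFin
import Pool.Agent.W986.SubOcc

/-!
# The corners of a disc

In a disc with four corners a vertex with a positive charge and a neighbour outside of the region
gives its whole charge to the corners. `sink_sum`: the charge which remains in the region is
positive.
-/

set_option autoImplicit false
set_option linter.unusedSectionVars false

open Finset

namespace Pool.Agent.W986

variable {V : Type} {S I : Finset V} {G : SimpleGraph V} {T : V → V → V → Prop} {s : ℤ}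

/-! ### Rotations which start at a given neighbour -/

theorem TriLoc.rotn_at (h : TriLoc S G T) {x c : V} (hx : x ∈ I) (hxc : G.Adj x c) :
    ∃ ν, Rotn G T x (dgI G I x) ν ∧ ν 0 = c := by
  obtain ⟨d, ν, hν⟩ := h.rotation x (h.mem _ _ hxc)
  obtain ⟨i, hi⟩ := hν.exists_pred hxc
  rw [hν.dgI_eq hx]
  exact ⟨_, hν.shift (i + 1), by rw [zero_add]; exact hi⟩

theorem Rotn.tri_zero {x : V} {d : ℕ} {ν : ℕ → V} (h : Rotn G T x d ν) {z : V} :
    T x (ν 0) z ↔ z = ν 1 ∨ z = ν (d - 1) := by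
  have hd := h.three
  have h1 := h.tri (d - 1) z
  have h2 : ν (d - 1 + 1) = ν 0 := by
    rw [show d - 1 + 1 = 0 + d by omega, h.per]
  have h3 : ν (d - 1 + 2) = ν 1 := by
    rw [show d - 1 + 2 = 1 + d by omega, h.per]
  rw [h2, h3] at h1
  rw [h1]
  exact or_comm

open Classical in
theorem Rotn.n4_range {x : V} {d : ℕ} {ν : ℕ → V} (h : Rotn G T x d ν) :
    n4 G I x = ∑ t ∈ range d, if dgI G I (ν t) = 4 then 1 else 0 := by
  rw [h.n4_eq, card_filter]

section loc

variable (h : TriLoc S G T) (h44 : ∀ x y, G.Adj x y → dgI G I x = 4 → dgI G I y ≠ 4)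

include h h44 in
open Classical in
theorem two_le {x : V} {d : ℕ} {ν : ℕ → V} (hν : Rotn G T x d ν) (i : ℕ) :
    ((if dgI G I (ν i) = 4 then 1 else 0) + if dgI G I (ν (i + 1)) = 4 then 1 else 0) ≤ 1 := by
  have h1 : G.Adj (ν i) (ν (i + 1)) := (h.adj2 (hν.tri_next i)).2.1
  have h2 := h44 _ _ h1
  by_cases h3 : dgI G I (ν i) = 4
  · rw [if_pos h3, if_neg (h2 h3)]
  · rw [if_neg h3]
    split_ifs <;> omega

include h h44 in
/-- A vertex of degree 6 with three neighbours of degree 4. -/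
theorem alt {u x a : V} (hu : dgI G I u = 6) (hn : n4 G I u = 3) (hux : G.Adj u x)
    (hx : dgI G I x ≠ 4) (hT : T u x a) : dgI G I a = 4 := by
  classical
  obtain ⟨ν, hν, h0⟩ := h.rotn_at (mem_of_dgI (by omega : dgI G I u < 12)) hux
  have h1 := hν.n4_range (I := I)
  rw [hn, hu] at h1
  simp only [sum_range_succ, range_zero, sum_empty] at h1
  rw [hu] at hν
  have h2 := two_le h h44 hν 1
  have h3 := two_le h h44 hν 3
  have h4 := two_le h h44 hν 2
  have h5 := two_le h h44 hν 4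
  norm_num at h2 h3 h4 h5
  rw [h0, if_neg hx] at h1
  rw [← h0, hν.tri_zero] at hT
  rcases hT with rfl | rfl
  · by_contra h6
    rw [if_neg h6] at h1 h2
    omega
  · by_contra h6
    norm_num at h6
    rw [if_neg h6] at h1 h5
    omega

include h h44 in
/-- A vertex of degree 7 with three consecutive neighbours which are not of degree 4. -/
theorem seven {v u : V} (hv : dgI G I v = 7) (hvu : G.Adj v u) (hu : dgI G I u ≠ 4)
    (hz : ∀ z, T v u z → dgI G I z ≠ 4) : n4 G I v ≤ 2 := by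
  classical
  obtain ⟨ν, hν, h0⟩ := h.rotn_at (mem_of_dgI (by omega : dgI G I v < 12)) hvu
  have h1 := hν.n4_range (I := I)
  rw [hv] at h1 hν
  simp only [sum_range_succ, range_zero, sum_empty] at h1
  have h2 := two_le h h44 hν 2
  have h3 := two_le h h44 hν 4
  norm_num at h2 h3
  have h4 := hz (ν 1) (by rw [← h0, hν.tri_zero]; exact Or.inl rfl)
  have h5 := hz (ν 6) (by rw [← h0, hν.tri_zero]; exact Or.inr rfl)
  rw [h0, if_neg hu, if_neg h4, if_neg h5] at h1
  omega

include h in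
/-- A vertex of degree 5 with one neighbour of degree 4. -/
theorem five {u c : V} (hu : dgI G I u = 5) (hn : n4 G I u = 1) (huc : G.Adj u c)
    (hc : dgI G I c ≠ 4) : ∃ v, T u c v ∧ dgI G I v ≠ 4 ∧ ∀ z, T u v z → dgI G I z ≠ 4 := by
  classical
  obtain ⟨ν, hν, h0⟩ := h.rotn_at (mem_of_dgI (by omega : dgI G I u < 12)) huc
  have h1 := hν.n4_range (I := I)
  rw [hn, hu] at h1
  rw [hu] at hν
  simp only [sum_range_succ, range_zero, sum_empty] at h1
  rw [h0, if_neg hc] at h1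
  by_cases h2 : dgI G I (ν 1) = 4 ∨ dgI G I (ν 2) = 4
  · have h3 : dgI G I (ν 3) ≠ 4 := by
      intro h3
      rw [if_pos h3] at h1
      rcases h2 with h2 | h2 <;> rw [if_pos h2] at h1 <;> omega
    have h4 : dgI G I (ν 4) ≠ 4 := by
      intro h4
      rw [if_pos h4] at h1
      rcases h2 with h2 | h2 <;> rw [if_pos h2] at h1 <;> omega
    refine ⟨ν 4, by rw [← h0, hν.tri_zero]; exact Or.inr rfl, h4, fun z hz => ?_⟩
    rw [hν.tri 3 z] at hz
    rcases hz with rfl | rfl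
    · exact h3
    · have h5 : ν (3 + 2) = ν 0 := hν.per 0
      rw [h5, h0]
      exact hc
  · push Not at h2
    refine ⟨ν 1, by rw [← h0, hν.tri_zero]; exact Or.inl rfl, h2.1, fun z hz => ?_⟩
    rw [hν.tri 0 z] at hz
    rcases hz with rfl | rfl
    · rw [h0]
      exact hc
    · exact h2.2

end loc

/-! ### The outer neighbours -/

section outer

variable (h : TriLoc S G T) (R : Region S G T I)

include R in
/-- Two outer neighbours of an inner vertex are consecutive. -/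
theorem outer_tri {v c c' : V} (hv : v ∈ I) (hc : c ∉ I) (hc' : c' ∉ I) (hcc : c ≠ c')
    (h1 : G.Adj v c) (h2 : G.Adj v c') : T v c c' :=
  R.three v hv c c' h1 (R.out v hv c c' hc hc' hcc h1 h2) h2.symm

include h R in
/-- There are at most two outer neighbours. -/
theorem outer_two {v a b c : V} (hv : v ∈ I) (ha : a ∉ I) (hb : b ∉ I) (hc : c ∉ I)
    (h1 : G.Adj v a) (h2 : G.Adj v b) (h3 : G.Adj v c) (hab : a ≠ b) (hac : a ≠ c) : b = c := by
  by_contra hbc
  have hT1 := outer_tri R hv ha hb hab h1 h2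
  have hT2 := outer_tri R hv ha hc hac h1 h3
  have hT3 := outer_tri R hv hb hc hbc h2 h3
  obtain ⟨ν, hν, h0⟩ := h.rotn_at hv h1
  have hd : 4 ≤ dgI G I v := by
    rw [dgI_mem hv]
    exact R.deg v hv
  generalize dgI G I v = d at hν hd
  have h4 : T v (ν 1) (ν (d - 1)) := by
    rw [← h0, hν.tri_zero] at hT1 hT2
    rcases hT1 with rfl | rfl <;> rcases hT2 with rfl | rfl
    · exact absurd rfl hbc
    · exact hT3
    · exact h.flip hT3
    · exact absurd rfl hbc
  rw [hν.tri 0] at h4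
  rcases h4 with h4 | h4
  · exact absurd (hν.inj _ (by omega) _ (by omega) h4) (by omega)
  · exact absurd (hν.inj _ (by omega) _ (by omega) h4) (by omega)

include h R in
/-- The number of the outer neighbours is at most 2. -/
theorem sout_le [Finite V] {v : V} (hv : v ∈ I) : sout G I v ≤ 2 := by
  by_contra hcon
  push Not at hcon
  unfold sout at hcon
  obtain ⟨a, b, c, ha, hb, hc, hab, hac, hbc⟩ := (Set.two_lt_ncard_iff (Set.toFinite _)).1 hcon
  exact hbc (outer_two h R hv ha.2 hb.2 hc.2 ha.1 hb.1 hc.1 hab hac)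

theorem sout_zero [Finite V] {v : V} (hv : sout G I v = 0) {c : V} (hc : c ∉ I) :
    ¬ G.Adj v c := by
  intro h1
  unfold sout at hv
  rw [Set.ncard_eq_zero (Set.toFinite _)] at hv
  exact (Set.eq_empty_iff_forall_notMem.1 hv) c ⟨h1, hc⟩

theorem sout_one {v : V} (hv : sout G I v = 1) :
    ∃ c, c ∉ I ∧ G.Adj v c ∧ ∀ c', c' ∉ I → G.Adj v c' → c' = c := by
  unfold sout at hv
  obtain ⟨c, hc⟩ := Set.ncard_eq_one.1 hv
  have h1 : c ∈ {y | G.Adj v y ∧ y ∉ I} := by
    rw [hc]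
    rfl
  refine ⟨c, h1.2, h1.1, fun c' h2 h3 => ?_⟩
  have h4 : c' ∈ {y | G.Adj v y ∧ y ∉ I} := ⟨h3, h2⟩
  rw [hc] at h4
  exact h4

theorem sout_two {v : V} (hv : sout G I v = 2) :
    ∃ c c', c ≠ c' ∧ c ∉ I ∧ c' ∉ I ∧ G.Adj v c ∧ G.Adj v c' ∧
      ∀ x, x ∉ I → G.Adj v x → x = c ∨ x = c' := by
  unfold sout at hv
  obtain ⟨c, c', hcc, hc⟩ := Set.ncard_eq_two.1 hv
  have h1 : c ∈ {y | G.Adj v y ∧ y ∉ I} := by
    rw [hc]
    exact Or.inl rfl
  have h2 : c' ∈ {y | G.Adj v y ∧ y ∉ I} := by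
    rw [hc]
    exact Or.inr rfl
  refine ⟨c, c', hcc, h1.2, h2.2, h1.1, h2.1, fun x h3 h4 => ?_⟩
  have h5 : x ∈ {y | G.Adj v y ∧ y ∉ I} := ⟨h4, h3⟩
  rw [hc] at h5
  exact h5

theorem sout_ge [Finite V] {v c c' : V} (hcc : c ≠ c') (hc : c ∉ I) (hc' : c' ∉ I)
    (h1 : G.Adj v c) (h2 : G.Adj v c') : 2 ≤ sout G I v := by
  unfold sout
  have h3 : ({c, c'} : Set V) ⊆ {y | G.Adj v y ∧ y ∉ I} := by
    rintro x (rfl | rfl)
    · exact ⟨h1, hc⟩
    · exact ⟨h2, hc'⟩
  rw [← Set.ncard_pair hcc]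
  exact Set.ncard_le_ncard h3 (Set.toFinite _)

/-- `u` and `v` are in a triangle with an outer vertex. -/
def Nx (T : V → V → V → Prop) (I : Finset V) (v u : V) : Prop := ∃ c, c ∉ I ∧ T v c u

include h in
theorem Nx.symm {v u : V} (hn : Nx T I v u) : Nx T I u v := by
  obtain ⟨c, hc, hT⟩ := hn
  exact ⟨c, hc, h.rot _ _ _ (h.swap _ _ _ (h.rot _ _ _ (h.rot _ _ _ hT)))⟩

include h R in
/-- At most two vertices of `I` are next to `v` around an outer vertex. -/
theorem nx_two [Finite V] {v : V} (hv : v ∈ I) :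
    ∃ a b, ∀ u ∈ I, Nx T I v u → u = a ∨ u = b := by
  have hs := sout_le h R hv
  rcases (by omega : sout G I v = 0 ∨ sout G I v = 1 ∨ sout G I v = 2) with h1 | h1 | h1
  · refine ⟨v, v, fun u _ hn => ?_⟩
    obtain ⟨c, hc, hT⟩ := hn
    exact absurd (h.adj _ _ _ hT) (sout_zero h1 hc)
  · obtain ⟨c, hc, hvc, huniq⟩ := sout_one h1
    obtain ⟨a, b, _, hab⟩ := h.two hvc
    refine ⟨a, b, fun u _ hn => ?_⟩
    obtain ⟨c', hc', hT⟩ := hn
    have h2 := huniq c' hc' (h.adj _ _ _ hT)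
    rw [h2] at hT
    exact (hab u).1 hT
  · obtain ⟨c, c', hcc, hc, hc', hvc, hvc', hall⟩ := sout_two h1
    have hT := outer_tri R hv hc hc' hcc hvc hvc'
    have hT' := h.flip hT
    obtain ⟨x, hx⟩ : ∃ x, ∀ u ∈ I, T v c u → u = x := by
      obtain ⟨a, b, _, hab⟩ := h.two hvc
      rcases (hab c').1 hT with h2 | h2
      · refine ⟨b, fun u hu h3 => ((hab u).1 h3).resolve_left fun h4 => ?_⟩
        rw [h4, ← h2] at hu
        exact hc' hu
      · refine ⟨a, fun u hu h3 => ((hab u).1 h3).resolve_right fun h4 => ?_⟩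
        rw [h4, ← h2] at hu
        exact hc' hu
    obtain ⟨y, hy⟩ : ∃ x, ∀ u ∈ I, T v c' u → u = x := by
      obtain ⟨a, b, _, hab⟩ := h.two hvc'
      rcases (hab c).1 hT' with h2 | h2
      · refine ⟨b, fun u hu h3 => ((hab u).1 h3).resolve_left fun h4 => ?_⟩
        rw [h4, ← h2] at hu
        exact hc hu
      · refine ⟨a, fun u hu h3 => ((hab u).1 h3).resolve_right fun h4 => ?_⟩
        rw [h4, ← h2] at hu
        exact hc hu
    refine ⟨x, y, fun u hu hn => ?_⟩
    obtain ⟨z, hz, hTz⟩ := hn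
    rcases hall z hz (h.adj _ _ _ hTz) with rfl | rfl
    · exact Or.inl (hx u hu hTz)
    · exact Or.inr (hy u hu hTz)

end outer

/-- The two other neighbours of a vertex of degree 4. -/
theorem fourth (h : TriLoc S G T) {x c c' u u' : V} (hx : x ∈ I) (h4 : dgI G I x = 4)
    (hT : T x c c') (h1 : u ≠ c) (h2 : u ≠ c') (h3 : u' ≠ c) (h5 : u' ≠ c') (huu : u ≠ u')
    (hu : G.Adj x u) (hu' : G.Adj x u') : T x u u' := by
  obtain ⟨ν, hν, h0⟩ := h.rotn_at hx (h.adj _ _ _ hT)
  rw [h4] at hν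
  rw [← h0] at hT h1 h3
  rw [hν.tri_zero] at hT
  obtain ⟨i, hi, hiu⟩ := (hν.adj u).1 hu
  obtain ⟨j, hj, hju⟩ := (hν.adj u').1 hu'
  have h12 := hν.tri_next 1
  have h23 := hν.tri_next 2
  norm_num at h12 h23
  have hi0 : i ≠ 0 := by
    rintro rfl
    exact h1 hiu.symm
  have hj0 : j ≠ 0 := by
    rintro rfl
    exact h3 hju.symm
  have hij : i ≠ j := by
    rintro rfl
    exact huu (hiu.symm.trans hju)
  norm_num at hT
  rcases hT with rfl | rfl
  · have hi1 : i ≠ 1 := by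
      rintro rfl
      exact h2 hiu.symm
    have hj1 : j ≠ 1 := by
      rintro rfl
      exact h5 hju.symm
    rcases (by omega : i = 2 ∧ j = 3 ∨ i = 3 ∧ j = 2) with ⟨rfl, rfl⟩ | ⟨rfl, rfl⟩
    · rw [← hiu, ← hju]
      exact h23
    · rw [← hiu, ← hju]
      exact h.flip h23
  · have hi1 : i ≠ 3 := by
      rintro rfl
      exact h2 hiu.symm
    have hj1 : j ≠ 3 := by
      rintro rfl
      exact h5 hju.symm
    rcases (by omega : i = 1 ∧ j = 2 ∨ i = 2 ∧ j = 1) with ⟨rfl, rfl⟩ | ⟨rfl, rfl⟩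
    · rw [← hiu, ← hju]
      exact h12
    · rw [← hiu, ← hju]
      exact h.flip h12

/-! ### Payments between the neighbours of a corner -/

open Classical in
/-- Four times the charge which `v` pays to `u`. -/
noncomputable def pay (G : SimpleGraph V) (T : V → V → V → Prop) (I : Finset V) (s : ℤ)
    (v u : V) : ℤ :=
  if Nx T I v u ∧ sout G I u = 1 then
    (if dgI G I v = 4 then (if dgI G I u = 6 ∧ n4 G I u = 3 then 1 else 0)
      else if kap2 G I s v ≤ 0 ∧ dgI G I u = 5 ∧ n4 G I u = 1 then 2 else 0)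
  else 0

theorem pay_nonneg (v u : V) : 0 ≤ pay G T I s v u := by
  unfold pay
  split_ifs <;> norm_num

theorem pay_le (v u : V) : pay G T I s v u ≤ 2 := by
  unfold pay
  split_ifs <;> norm_num

theorem pay_four {v : V} (hv : dgI G I v = 4) (u : V) : pay G T I s v u ≤ 1 := by
  unfold pay
  rw [if_pos hv]
  split_ifs <;> norm_num

theorem pay_pos {v : V} (hv : dgI G I v ≠ 4) (hk : 0 < kap2 G I s v) (u : V) :
    pay G T I s v u = 0 := by
  unfold pay
  rw [if_neg hv]
  split_ifs with h1 h2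
  · exact absurd h2.1 (by omega)
  · rfl
  · rfl

theorem pay_not {v u : V} (hn : ¬ Nx T I v u) : pay G T I s v u = 0 := by
  unfold pay
  rw [if_neg fun h => hn h.1]

theorem pay_not_one {v u : V} (hn : sout G I u ≠ 1) : pay G T I s v u = 0 := by
  unfold pay
  rw [if_neg fun h => hn h.2]

theorem sum_two {f : V → ℤ} {a b : V} {k : ℤ} (h0 : ∀ u, f u ≤ k) (hk : 0 ≤ k)
    (hz : ∀ u ∈ I, u ≠ a → u ≠ b → f u = 0) : ∑ u ∈ I, f u ≤ 2 * k := by
  classical
  have h1 : ∑ u ∈ I, f u ≤ ∑ u ∈ I, ((if u = a then k else 0) + if u = b then k else 0) := by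
    refine sum_le_sum fun u hu => ?_
    by_cases ha : u = a
    · rw [if_pos ha]
      have h2 := h0 u
      split_ifs <;> omega
    · by_cases hb : u = b
      · rw [if_neg ha, if_pos hb]
        have h2 := h0 u
        omega
      · rw [hz u hu ha hb, if_neg ha, if_neg hb, add_zero]
  have h2 : ∀ c, ∑ u ∈ I, (if u = c then k else 0) ≤ k := by
    intro c
    rw [sum_ite_eq']
    split_ifs
    · exact le_rfl
    · exact hk
  rw [sum_add_distrib] at h1
  have h3 := h2 a
  have h4 := h2 b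
  omega

theorem sum_one {f : V → ℤ} {b : V} {k : ℤ} (h0 : ∀ u, f u ≤ k) (hk : 0 ≤ k)
    (hz : ∀ u ∈ I, u ≠ b → f u = 0) : ∑ u ∈ I, f u ≤ k := by
  classical
  have h1 : ∑ u ∈ I, f u ≤ ∑ u ∈ I, (if u = b then k else 0) := by
    refine sum_le_sum fun u hu => ?_
    by_cases hb : u = b
    · rw [if_pos hb]
      exact h0 u
    · rw [hz u hu hb, if_neg hb]
  rw [sum_ite_eq'] at h1
  refine h1.trans ?_
  split_ifs
  · exact le_rfl
  · exact hk

section pays

variable [Fintype V] (h : TriLoc S G T) (R : Region S G T I)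
  (h44 : ∀ x y, G.Adj x y → dgI G I x = 4 → dgI G I y ≠ 4)
  (h55 : ∀ x y, G.Adj x y → dgI G I x = 5 → dgI G I y ≠ 5)
  (h5 : ∀ x, dgI G I x = 5 → n4 G I x ≤ 1)
  (h645 : ∀ x y z, G.Adj x y → G.Adj x z → dgI G I x = 6 → dgI G I y = 4 → dgI G I z ≠ 5)

include h R h44 in
theorem n4_half {v : V} (hv : v ∈ I) : 2 * n4 G I v ≤ dgI G I v := by
  obtain ⟨d, ν, hν⟩ := h.rotation v (R.sub hv)
  rw [hν.dgI_eq hv]
  exact hν.n4_le h.adj h.rot h44

include h R h44 h5 in
/-- The largest charge is `3 / 2`. -/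
theorem kap_le {v : V} (hv : v ∈ I) (h4 : dgI G I v ≠ 4) : kap2 G I s v ≤ 3 ∧
    (kap2 G I s v = 3 → (dgI G I v = 5 ∧ n4 G I v = 1) ∨ (dgI G I v = 6 ∧ n4 G I v = 3)) := by
  have h1 := n4_half h R h44 hv
  have h2 := R.deg v hv
  rw [← dgI_mem hv] at h2
  have h3 := h5 v
  rw [kap2_mem hv h4]
  omega

include h R h44 h55 h645 in
/-- A vertex of degree at least 6 which is next to a vertex of degree 5. -/
theorem kap_next {u v : V} (hv : v ∈ I) (hvu : G.Adj v u) (hu : dgI G I u = 5)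
    (h4 : dgI G I v ≠ 4) : kap2 G I s v ≤ 1 ∧
      ((∀ z, T v u z → dgI G I z ≠ 4) → kap2 G I s v ≤ 0) := by
  have h1 := n4_half h R h44 hv
  have h2 := R.deg v hv
  rw [← dgI_mem hv] at h2
  have h3 : dgI G I v ≠ 5 := h55 u v hvu.symm hu
  have h6 : dgI G I v = 6 → n4 G I v = 0 := by
    intro h6
    unfold n4
    rw [Set.ncard_eq_zero (Set.toFinite _), Set.eq_empty_iff_forall_notMem]
    rintro y ⟨h7, h8⟩
    exact h645 v y u h7 hvu h6 h8 hu
  have h7 : dgI G I v = 7 → (∀ z, T v u z → dgI G I z ≠ 4) → n4 G I v ≤ 2 := fun h7 h8 =>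
    seven h h44 h7 hvu (by omega) h8
  rw [kap2_mem hv h4]
  refine ⟨by omega, fun h8 => ?_⟩
  by_cases h9 : dgI G I v = 7
  · have h10 := h7 h9 h8
    omega
  · omega

include h R h44 h55 h5 h645 in
/-- The vertices with charge `3 / 2` and one outer neighbour receive enough. -/
theorem receive {u : V} (hu : u ∈ I) (h4 : dgI G I u ≠ 4) (hk : kap2 G I s u = 3)
    (hs : sout G I u = 1) : 2 ≤ ∑ v ∈ I, pay G T I s v u := by
  classical
  obtain ⟨c, hc, huc, huniq⟩ := sout_one hs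
  have hc12 := dgI_not_mem (G := G) hc
  rcases (kap_le (s := s) h R h44 h5 hu h4).2 hk with ⟨hd, hn⟩ | ⟨hd, hn⟩
  · obtain ⟨v, hT, hv4, hz⟩ := five h hd hn huc (by omega)
    obtain ⟨_, hcv, hvu⟩ := h.adj2 hT
    have hv : v ∈ I := by
      by_contra hv
      exact G.loopless.irrefl c ((huniq v hv hvu.symm) ▸ hcv)
    have h1 := (kap_next (s := s) h R h44 h55 h645 hv hvu hd hv4).2 fun z hTz =>
      hz z (h.swap _ _ _ hTz)
    have h2 : pay G T I s v u = 2 := by
      unfold pay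
      rw [if_pos ⟨⟨c, hc, h.rot _ _ _ (h.swap _ _ _ (h.rot _ _ _ (h.rot _ _ _ hT)))⟩, hs⟩,
        if_neg hv4, if_pos ⟨h1, hd, hn⟩]
    rw [← h2]
    exact single_le_sum (f := fun v => pay G T I s v u) (fun x _ => pay_nonneg x u) hv
  · obtain ⟨a, b, hab, hT⟩ := h.two huc
    have ha := (hT a).2 (Or.inl rfl)
    have hb := (hT b).2 (Or.inr rfl)
    have ha4 := alt h h44 hd hn huc (by omega) ha
    have hb4 := alt h h44 hd hn huc (by omega) hb
    have hp : ∀ x, T u c x → dgI G I x = 4 → pay G T I s x u = 1 := by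
      intro x hx hx4
      unfold pay
      rw [if_pos ⟨⟨c, hc, h.rot _ _ _ (h.swap _ _ _ (h.rot _ _ _ (h.rot _ _ _ hx)))⟩, hs⟩,
        if_pos hx4, if_pos ⟨hd, hn⟩]
    have haI : a ∈ I := mem_of_dgI (G := G) (by omega)
    have hbI : b ∈ I := mem_of_dgI (G := G) (by omega)
    have h1 : ∑ v ∈ {a, b}, pay G T I s v u ≤ ∑ v ∈ I, pay G T I s v u :=
      sum_le_sum_of_subset_of_nonneg (by
        intro x hx
        rcases mem_insert.1 hx with rfl | hx
        · exact haI
        · rw [mem_singleton.1 hx]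
          exact hbI) fun x _ _ => pay_nonneg x u
    rw [sum_pair hab, hp a ha ha4, hp b hb hb4] at h1
    omega

end pays

/-! ### The balance -/

section balance

variable [Fintype V] {Mid : Finset V} {opp : V → V}

/-- Four times what `v` keeps of the outer edges, after the payments. -/
noncomputable def bal (G : SimpleGraph V) (T : V → V → V → Prop) (I : Finset V) (s : ℤ)
    (Mid : Finset V) (opp : V → V) (v : V) : ℤ :=
  2 * (2 * (sout G I v : ℤ) - sinkF G I s Mid opp v) + ∑ u ∈ I, pay G T I s u v -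
    ∑ u ∈ I, pay G T I s v u

theorem bal_sum : ∑ v ∈ I, bal G T I s Mid opp v =
    2 * ∑ v ∈ I, (2 * (sout G I v : ℤ) - sinkF G I s Mid opp v) := by
  unfold bal
  rw [sum_sub_distrib, sum_add_distrib, sum_comm (f := fun v u => pay G T I s u v), mul_sum]
  ring

variable (h : TriLoc S G T) (R : Region S G T I)
  (h44 : ∀ x y, G.Adj x y → dgI G I x = 4 → dgI G I y ≠ 4)
  (h55 : ∀ x y, G.Adj x y → dgI G I x = 5 → dgI G I y ≠ 5)
  (h5 : ∀ x, dgI G I x = 5 → n4 G I x ≤ 1)
  (h645 : ∀ x y z, G.Adj x y → G.Adj x z → dgI G I x = 6 → dgI G I y = 4 → dgI G I z ≠ 5)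
  (hM : ∀ m ∈ Mid, dgI G I m = 4) (ho : ∀ m ∈ Mid, G.Adj m (opp m))
  (hI : ∀ m ∈ Mid, ∀ y, G.Adj m y → y ≠ opp m → y ∈ I)
  (h7 : ∀ m ∈ Mid, ∀ y, T m (opp m) y → 7 ≤ dgI G I y)

include h in
theorem inc_nonneg (v : V) : 0 ≤ ∑ u ∈ I, pay G T I s u v :=
  sum_nonneg fun u _ => pay_nonneg u v

include h R in
/-- What `v` pays, if each payment is at most `k`. -/
theorem out_le {v : V} (hv : v ∈ I) {k : ℤ} (hk : 0 ≤ k) (hp : ∀ u, pay G T I s v u ≤ k) :
    ∑ u ∈ I, pay G T I s v u ≤ 2 * k := by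
  obtain ⟨a, b, hab⟩ := nx_two h R hv
  exact sum_two hp hk fun u hu ha hb => pay_not fun hn => (hab u hu hn).elim ha hb

include h R in
/-- The same if one of the neighbours around the corners receives nothing. -/
theorem out_le_one {v p : V} (hv : v ∈ I) (hp : p ∈ I) (hn : Nx T I v p)
    (h0 : pay G T I s v p = 0) {k : ℤ} (hk : 0 ≤ k) (hp : ∀ u, pay G T I s v u ≤ k) :
    ∑ u ∈ I, pay G T I s v u ≤ k := by
  obtain ⟨a, b, hab⟩ := nx_two h R hv
  rcases hab p ‹p ∈ I› hn with rfl | rfl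
  · refine sum_one (b := b) hp hk fun u hu hb => ?_
    by_cases hup : u = p
    · rw [hup]
      exact h0
    · exact pay_not fun hn => (hab u hu hn).elim hup hb
  · refine sum_one (b := a) hp hk fun u hu ha => ?_
    by_cases hup : u = p
    · rw [hup]
      exact h0
    · exact pay_not fun hn => (hab u hu hn).elim ha hup

include h in
theorem out_zero {v : V} (hs : sout G I v = 0) : ∑ u ∈ I, pay G T I s v u = 0 :=
  sum_eq_zero fun u _ => pay_not fun hn => by
    obtain ⟨c, hc, hT⟩ := hn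
    exact sout_zero hs hc (h.adj _ _ _ hT)

theorem sinkF_pos {v : V} (h4 : dgI G I v ≠ 4) (hM : ∀ m ∈ Mid, dgI G I m = 4)
    (hk : 0 < kap2 G I s v) (hs : 0 < sout G I v) : sinkF G I s Mid opp v = kap2 G I s v := by
  unfold sinkF
  rw [if_neg h4, if_pos ⟨hk, hs⟩, if_neg fun h1 => h4 (hM v h1.1)]
  ring

theorem sinkF_neg {v : V} (h4 : dgI G I v ≠ 4) (hM : ∀ m ∈ Mid, dgI G I m = 4)
    (hk : ¬ (0 < kap2 G I s v ∧ 0 < sout G I v)) : sinkF G I s Mid opp v = 0 := by
  unfold sinkF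
  rw [if_neg h4, if_neg hk, if_neg fun h1 => h4 (hM v h1.1)]
  ring

theorem sinkF_four {v : V} (h4 : dgI G I v = 4) (hn : ¬ (v ∈ Mid ∧ opp v ∉ I)) :
    sinkF G I s Mid opp v = sout G I v := by
  unfold sinkF
  rw [if_pos h4, kap2_four h4, if_neg (by simp), if_neg hn]
  ring

include h R hM ho hI h7 in
/-- A vertex of degree 4 which gives 1 to a corner. -/
theorem mid_case {v : V} (hm : v ∈ Mid) (hop : opp v ∉ I) : sout G I v = 1 ∧
    sinkF G I s Mid opp v = 2 ∧ ∀ u ∈ I, Nx T I v u → 7 ≤ dgI G I u := by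
  have h4 := hM v hm
  have h1 : sout G I v = 1 := by
    unfold sout
    rw [Set.ncard_eq_one]
    refine ⟨opp v, ?_⟩
    ext y
    simp only [Set.mem_ofPred_eq, Set.mem_singleton_iff]
    constructor
    · rintro ⟨h2, h3⟩
      by_contra h4
      exact h3 (hI v hm y h2 h4)
    · rintro rfl
      exact ⟨ho v hm, hop⟩
  refine ⟨h1, ?_, ?_⟩
  · unfold sinkF
    rw [if_pos h4, kap2_four h4, if_neg (by simp), if_pos ⟨hm, hop⟩, h1]
    norm_num
  · rintro u _ ⟨c, hc, hT⟩
    have h2 : c = opp v := by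
      by_contra h3
      exact hc (hI v hm c (h.adj _ _ _ hT) h3)
    rw [h2] at hT
    exact h7 v hm u hT

include h R h44 h55 h5 h645 hM ho hI h7 in
theorem bal_ge {v : V} (hv : v ∈ I) : 0 ≤ bal G T I s Mid opp v ∧
    (sout G I v = 2 → 2 ≤ bal G T I s Mid opp v) := by
  have hs2 := sout_le h R hv
  have hinc := inc_nonneg (I := I) (s := s) h v
  unfold bal
  by_cases h4 : dgI G I v = 4
  · by_cases hm : v ∈ Mid ∧ opp v ∉ I
    · obtain ⟨h1, h2, h3⟩ := mid_case (s := s) h R hM ho hI h7 hm.1 hm.2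
      have h8 : ∑ u ∈ I, pay G T I s v u = 0 := by
        refine sum_eq_zero fun u hu => ?_
        by_cases hn : Nx T I v u
        · have h9 := h3 u hu hn
          unfold pay
          rw [if_pos h4]
          split_ifs with h10 h11
          · omega
          · rfl
          · rfl
        · exact pay_not hn
      rw [h2, h8]
      omega
    · rw [sinkF_four h4 hm]
      have h8 := out_le (s := s) h R hv zero_le_one (pay_four h4)
      by_cases hs : sout G I v = 0
      · rw [out_zero (s := s) h hs]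
        omega
      · omega
  · by_cases hk : 0 < kap2 G I s v
    · have h8 : ∑ u ∈ I, pay G T I s v u = 0 := sum_eq_zero fun u _ => pay_pos h4 hk u
      have h9 := kap_le (s := s) h R h44 h5 hv h4
      rw [h8]
      by_cases hs : 0 < sout G I v
      · rw [sinkF_pos h4 hM hk hs]
        by_cases h10 : kap2 G I s v = 3
        · by_cases h11 : sout G I v = 1
          · have h12 := receive h R h44 h55 h5 h645 hv h4 h10 h11
            omega
          · omega
        · omega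
      · rw [sinkF_neg h4 hM fun h10 => hs h10.2]
        omega
    · rw [sinkF_neg h4 hM fun h10 => hk h10.1]
      have h8 := out_le (s := s) h R hv zero_le_two (pay_le v)
      by_cases hs : sout G I v = 0
      · rw [out_zero (s := s) h hs]
        omega
      · omega

include h R h44 h55 h5 h645 hM ho hI h7 in
/-- **The charge which remains in a disc is positive.** -/
theorem sink_sum (h66 : ∀ x y a b, dgI G I x = 6 → dgI G I y = 6 → T x y a → T x y b → a ≠ b →
    dgI G I a = 4 → dgI G I b ≠ 4) (hout : 0 < eout G I) :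
    4 < ∑ u ∈ I, (2 * (sout G I u : ℤ) - sinkF G I s Mid opp u) := by
  classical
  obtain ⟨c, p, hc, hp, hcI, hpI, hcinj, hpinj, hT, _⟩ : ∃ c p : ℕ → V, (∀ i, c (i + 4) = c i) ∧
      (∀ i, p (i + 4) = p i) ∧ (∀ i, c i ∉ I) ∧ (∀ i, p i ∈ I) ∧
      (∀ i < 4, ∀ j < 4, c i = c j → i = j) ∧ (∀ i < 4, ∀ j < 4, p i = p j → i = j) ∧
      (∀ i, T (c i) (c (i + 1)) (p i)) ∧ True := by
    rcases R.bdry with ⟨h1, _⟩ | ⟨c, p, h1, h2, h3, h4, h5, h6, h7, _⟩
    · exact absurd (eout_eq_zero h1) hout.ne'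
    · exact ⟨c, p, h1, h2, h3, h4, h5, h6, h7, trivial⟩
  by_contra hcon
  push Not at hcon
  let P : Finset V := (range 4).image p
  have hPc : P.card = 4 := by
    rw [card_image_of_injOn, card_range]
    intro i hi j hj hij
    rw [coe_range, Set.mem_Iio] at hi hj
    exact hpinj i hi j hj hij
  have hPI : P ⊆ I := by
    intro x hx
    obtain ⟨i, _, rfl⟩ := mem_image.1 hx
    exact hpI i
  have hps : ∀ x ∈ P, sout G I x = 2 ∧ ∃ c c', c ∉ I ∧ c' ∉ I ∧ T x c c' := by
    intro x hx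
    obtain ⟨i, _, rfl⟩ := mem_image.1 hx
    obtain ⟨h1, h2, h3⟩ := h.adj2 (hT i)
    have h4 := sout_ge h1.ne (hcI i) (hcI (i + 1)) h3 h2.symm
    have h5 := sout_le h R (hpI i)
    exact ⟨by omega, c i, c (i + 1), hcI i, hcI (i + 1), h.rot _ _ _ (h.rot _ _ _ (hT i))⟩
  have hge := fun v (hv : v ∈ I) => bal_ge (s := s) h R h44 h55 h5 h645 hM ho hI h7 hv
  have hlow : ∀ v ∈ I, (if v ∈ P then (2 : ℤ) else 0) ≤ bal G T I s Mid opp v := by
    intro v hv
    split_ifs with h1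
    · exact (hge v hv).2 (hps v h1).1
    · exact (hge v hv).1
  have hsum : ∑ v ∈ I, (if v ∈ P then (2 : ℤ) else 0) = 8 := by
    rw [← sum_filter]
    have h1 : I.filter (fun v => v ∈ P) = P := by
      ext x
      rw [mem_filter]
      exact ⟨fun h => h.2, fun h => ⟨hPI h, h⟩⟩
    rw [h1, sum_const, hPc]
    rfl
  have hbs := bal_sum (I := I) (G := G) (T := T) (s := s) (Mid := Mid) (opp := opp)
  have heq : ∀ v ∈ I, (if v ∈ P then (2 : ℤ) else 0) = bal G T I s Mid opp v := by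
    refine (sum_eq_sum_iff_of_le hlow).1 (le_antisymm (sum_le_sum hlow) ?_)
    rw [hbs, hsum]
    omega
  -- the vertices between two corners have degree 5
  have hfive : ∀ x ∈ P, dgI G I x = 5 := by
    intro x hx
    obtain ⟨hs, c, c', hc, hc', hTx⟩ := hps x hx
    have hxI := hPI hx
    have h1 := heq x hxI
    rw [if_pos hx] at h1
    have hc12 := dgI_not_mem (G := G) hc
    have hc12' := dgI_not_mem (G := G) hc'
    have hinc := inc_nonneg (T := T) (G := G) (I := I) (s := s) h x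
    unfold bal at h1
    by_cases h4 : dgI G I x = 4
    · exfalso
      have hnm : ¬ (x ∈ Mid ∧ opp x ∉ I) := by
        intro hm
        have h2 := (mid_case (s := s) h R hM ho hI h7 hm.1 hm.2).1
        omega
      rw [sinkF_four h4 hnm, hs] at h1
      have hex : ∀ b, ∃ u ∈ I, u ≠ b ∧ pay G T I s x u ≠ 0 := by
        intro b
        by_contra h8
        push Not at h8
        have h9 := sum_one (I := I) (b := b) (pay_four (T := T) (s := s) h4) zero_le_one h8
        omega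
      obtain ⟨u, hu, _, hpu⟩ := hex x
      obtain ⟨u', hu', huu, hpu'⟩ := hex u
      have hpay : ∀ u, pay G T I s x u ≠ 0 → Nx T I x u ∧ dgI G I u = 6 ∧ n4 G I u = 3 := by
        intro u hu
        unfold pay at hu
        rw [if_pos h4] at hu
        split_ifs at hu with h8 h9
        · exact ⟨h8.1, h9⟩
        · exact absurd rfl hu
        · exact absurd rfl hu
      obtain ⟨⟨e, _, hTe⟩, hu6, hun⟩ := hpay u hpu
      obtain ⟨⟨e', _, hTe'⟩, hu6', _⟩ := hpay u' hpu'
      have hxu : G.Adj x u := (h.adj2 hTe).2.2.symm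
      have hxu' : G.Adj x u' := (h.adj2 hTe').2.2.symm
      have hTuu : T x u u' := fourth h hxI h4 hTx (fun h8 => hc (h8 ▸ hu))
        (fun h8 => hc' (h8 ▸ hu)) (fun h8 => hc (h8 ▸ hu')) (fun h8 => hc' (h8 ▸ hu')) huu.symm
        hxu hxu'
      obtain ⟨a, b, hab, hT2⟩ := h.two (h.adj2 hTuu).2.1
      have ha := (hT2 a).2 (Or.inl rfl)
      have hb := (hT2 b).2 (Or.inr rfl)
      have huv := (h.adj2 hTuu).2.1
      exact h66 u u' a b hu6 hu6' ha hb hab (alt h h44 hu6 hun huv (by omega) ha)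
        (alt h h44 hu6 hun huv (by omega) hb)
    · by_cases hk : 0 < kap2 G I s x
      · have h8 : ∑ u ∈ I, pay G T I s x u = 0 := sum_eq_zero fun u _ => pay_pos h4 hk u
        rw [sinkF_pos h4 hM hk (by omega), h8, hs] at h1
        have h9 := kap_le (s := s) h R h44 h5 hxI h4
        rcases h9.2 (by omega) with h10 | h10
        · exact h10.1
        · have h11 := alt h h44 h10.1 h10.2 (h.adj _ _ _ hTx) (by omega) hTx
          omega
      · rw [sinkF_neg h4 hM fun h10 => hk h10.1, hs] at h1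
        have h8 := out_le (s := s) h R hxI zero_le_two (pay_le x)
        omega
  -- the vertex next to `p 0` around the corner `c 1`
  have hp0 : p 0 ∈ P := mem_image.2 ⟨0, by simp, rfl⟩
  have hp5 := hfive _ hp0
  obtain ⟨h01, h1p, hp0c⟩ := h.adj2 (hT 0)
  rw [zero_add] at h01 h1p
  have hT0 : T (p 0) (c 1) (c 0) := h.flip (h.rot _ _ _ (h.rot _ _ _ (hT 0)))
  obtain ⟨v, hTv, hvc⟩ : ∃ v, T (p 0) (c 1) v ∧ v ≠ c 0 := by
    obtain ⟨a, b, hab, h1⟩ := h.two h1p.symm
    rcases (h1 _).1 hT0 with h2 | h2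
    · exact ⟨b, (h1 b).2 (Or.inr rfl), fun h3 => hab (h2.symm.trans h3.symm)⟩
    · exact ⟨a, (h1 a).2 (Or.inl rfl), fun h3 => hab (h3.trans h2)⟩
  obtain ⟨_, h1v, hvp⟩ := h.adj2 hTv
  have hv : v ∈ I := by
    by_contra hv
    exact hvc (outer_two h R (hpI 0) (hcI 1) (hcI 0) hv h1p.symm hp0c hvp.symm h01.ne.symm
      h1v.ne).symm
  have hvP : v ∉ P := fun h1 => h55 _ _ hvp (hfive v h1) hp5
  have h1 := heq v hv
  rw [if_neg hvP] at h1
  have hs2 := sout_le h R hv
  have hs0 : sout G I v ≠ 0 := fun h2 => sout_zero h2 (hcI 1) h1v.symm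
  have hs1 : sout G I v = 1 := by
    have h2 := (hge v hv).2
    omega
  have hn : Nx T I v (p 0) := ⟨c 1, hcI 1, h.flip (h.rot _ _ _ (h.rot _ _ _ hTv))⟩
  have h0 : pay G T I s v (p 0) = 0 := pay_not_one (by
    have h2 := (hps _ hp0).1
    omega)
  have hinc := inc_nonneg (T := T) (G := G) (I := I) (s := s) h v
  unfold bal at h1
  by_cases h4 : dgI G I v = 4
  · have hnm : ¬ (v ∈ Mid ∧ opp v ∉ I) := by
      intro hm
      have h2 := (mid_case (s := s) h R hM ho hI h7 hm.1 hm.2).2.2 _ (hpI 0) hn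
      omega
    rw [sinkF_four h4 hnm, hs1] at h1
    have h8 := out_le_one h R hv (hpI 0) hn h0 zero_le_one (pay_four h4)
    omega
  · have h9 := (kap_next (s := s) h R h44 h55 h645 hv hvp hp5 h4).1
    by_cases hk : 0 < kap2 G I s v
    · have h8 : ∑ u ∈ I, pay G T I s v u = 0 := sum_eq_zero fun u _ => pay_pos h4 hk u
      rw [sinkF_pos h4 hM hk (by omega), h8, hs1] at h1
      omega
    · rw [sinkF_neg h4 hM fun h10 => hk h10.1, hs1] at h1
      have h8 := out_le_one h R hv (hpI 0) hn h0 zero_le_two (pay_le v)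
      omega

end balance

open Classical in
/-- The discharging contradicts the Euler characteristic, in a closed region and in a disc. -/
theorem give_false_fin [Fintype V] (h : TriLoc S G T) (R : Region S G T I)
    (h44 : ∀ x y, G.Adj x y → dgI G I x = 4 → dgI G I y ≠ 4)
    (h55 : ∀ x y, G.Adj x y → dgI G I x = 5 → dgI G I y ≠ 5)
    (h5 : ∀ x, dgI G I x = 5 → n4 G I x ≤ 1)
    (h645 : ∀ x y z, G.Adj x y → G.Adj x z → dgI G I x = 6 → dgI G I y = 4 → dgI G I z ≠ 5)
    (h66 : ∀ x y a b, dgI G I x = 6 → dgI G I y = 6 → T x y a → T x y b → a ≠ b →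
      dgI G I a = 4 → dgI G I b ≠ 4)
    (w : V → ℕ) (hw : ∀ x ∈ I, 0 ≤ kap2 G I s x → w x = 0)
    (Mid : Finset V) (cen opp : V → V) (hM : ∀ m ∈ Mid, dgI G I m = 4)
    (hc : ∀ m ∈ Mid, cen m ∈ I ∧ 0 < kap2 G I s (cen m) ∧ ∀ y, G.Adj (cen m) y → y ∈ I)
    (ho : ∀ m ∈ Mid, G.Adj m (opp m))
    (hI : ∀ m ∈ Mid, ∀ y, G.Adj m y → y ≠ opp m → y ∈ I)
    (h7 : ∀ m ∈ Mid, ∀ y, T m (opp m) y → 7 ≤ dgI G I y)
    (hub : ∀ x ∈ I, dgI G I x ≠ 4 → (kap2 G I s x < 0 ∨ ∃ m ∈ Mid, opp m = x) →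
      (∑ u ∈ univ.filter (fun u => G.Adj x u), pterm G I s Mid cen w u) * w x + pcnt Mid opp x ≤
        - (kap2 G I s x : ℚ))
    (pos : ∀ u ∈ I, 0 < kap2 G I s u → (∀ y, G.Adj u y → y ∈ I) → 0 < Wsum G w u) : False :=
  give_fin R h44 w hw Mid cen opp hM hc ho hub pos
    (sink_sum h R h44 h55 h5 h645 hM ho hI h7 h66)

end Pool.Agent.W986
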