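import Pool.Agent.W986.SubEnv
import Pool.Agent.W986.SubMidB
import Pool.Agent.W986.SubLeaf
import Pool.Agent.W986.SubLocal
import Pool.Agent.W986.SubSink

/-!
# Regions have reductions

The frame of the proof: a region without a reduction contradicts the discharging. The inputs are
the facts of a table: configurations, facts proved by trees, the root patches of the hubs; and the
inequality at the vertices of degree at least 12.
-/

set_option autoImplicit false

open Finset

namespace Pool.Agent.W986

open Pool.Agent.DC76 ST ST.LB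

section rule

variable {V : Type} [Fintype V]

/-- Twice the charge which `u` distributes in proportion to the weights. -/
noncomputable def gkU (E : Env V) (u : V) : ℤ := E.kap u - pcnt (midS E) (cenV E) u

/-- What `x` receives in addition. -/
noncomputable def extU (E : Env V) (x : V) : ℕ := pcnt (midS E) (oppM E) x

/-- The final charge of `x` is not positive. -/
def FinU (E : Env V) (x : V) : Prop := FinB E (gkU E) (extU E) x

theorem gkU_le (E : Env V) (u : V) : gkU E u ≤ E.kap u := by
  unfold gkU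
  omega

end rule

section region

variable {V : Type} {χ : ℤ} {S I : Finset V} {G : SimpleGraph V} {T : V → V → V → Prop}

theorem kapOK_regEnv (hT : TriOn χ S G T) (R : Region S G T I) {s : ℤ} (hs : 6 ≤ s)
    (h44 : ∀ x y, G.Adj x y → dgI G I x = 4 → dgI G I y ≠ 4) : KapOK (regEnv hT R s) := by
  classical
  refine ⟨fun v h => kap2_four h, ?_, ?_, ?_⟩
  · intro v hv h4 ν hν
    have h1 := Rotn.kap2_eq (s := s) hν hv h4
    rw [regEnv_kap]
    refine h1.trans ?_
    congr 2
  · intro v hv h4
    obtain ⟨ν, hν⟩ := (regEnv hT R s).ex v hv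
    exact Rotn.kap2_le (s := s) hT.adj hT.rot hν h44 hv h4
  · intro v hv
    rw [regEnv_kap, kap2_not_mem hv]
    omega

/-- The contradiction from the inequality at the vertices. -/
theorem region_false [Fintype V] (hT : TriOn χ S G T) (R : Region S G T I) {s : ℤ} (hs : 6 ≤ s)
    (hsmall : ∀ P ∈ small, ∀ f, ¬ (regEnv hT R s).Sat P f)
    (hhub : ∀ x ∈ I, dgI G I x ≠ 4 → FinU (regEnv hT R s) x) : False := by
  classical
  obtain ⟨h44, h55, h5, h645, h66, h545⟩ := (regEnv hT R s).local_facts hsmall
  have hK := kapOK_regEnv hT R hs h44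
  have hterm : ∀ u, pterm G I s (midS (regEnv hT R s)) (cenV (regEnv hT R s))
      (fun y => wt (kap2 G I s y)) u = term (regEnv hT R s) (gkU (regEnv hT R s)) u := by
    intro u
    unfold pterm term gkU
    have e : ((regEnv hT R s).I u ∧ 0 < (regEnv hT R s).kap u ∧
        ∀ y, (regEnv hT R s).H.Adj u y → (regEnv hT R s).I y) ↔
        (u ∈ I ∧ 0 < kap2 G I s u ∧ ∀ y, G.Adj u y → y ∈ I) := Iff.rfl
    by_cases h : u ∈ I ∧ 0 < kap2 G I s u ∧ ∀ y, G.Adj u y → y ∈ I
    · rw [if_pos h, if_pos (e.2 h)]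
      push_cast
      rfl
    · rw [if_neg h, if_neg (fun h' => h (e.1 h'))]
  refine give_false_fin (s := s) hT.toTriLoc R h44 h55 (fun x hx => n4_le_one h5 hx) h645
    (fun x y a b hx hy ha hb hab => h66 x y a b ha hb hab hx hy)
    (fun y => wt (kap2 G I s y)) ?_ (midS (regEnv hT R s)) (cenV (regEnv hT R s))
    (oppM (regEnv hT R s)) (fun m hm => midS_four hm) ?_ (fun m hm => midS_opp hm)
    (fun m hm y hy hne => midS_nb hm hy hne) (fun m hm y hy => ?_) ?_ ?_
  · intro x _ h0
    unfold wt
    omega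
  · intro m hm
    obtain ⟨h1, h2, h3⟩ := midS_cen hm
    refine ⟨h1, ?_, h3⟩
    rw [kap2_mem h1 (by rw [show dgI G I (cenV (regEnv hT R s) m) = 5 from h2]; omega),
      show dgI G I (cenV (regEnv hT R s) m) = 5 from h2]
    omega
  · have := (midS_flank hm hy).1
    rw [regEnv_D] at this
    omega
  · intro x hx h4 hor
    have h1 := hhub x hx h4
    rcases lt_or_ge (kap2 G I s x) 0 with h2 | h2
    · have h3 := h1.1 h2
      rw [Finset.sum_congr rfl fun u _ => hterm u]
      exact h3
    · exfalso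
      rcases hor with h3 | ⟨m, hm, hmx⟩
      · omega
      · have h3 : pcnt (midS (regEnv hT R s)) (oppM (regEnv hT R s)) x = 0 := h1.2.1 h2
        rw [pcnt, Finset.card_eq_zero, Finset.filter_eq_empty_iff] at h3
        exact h3 hm hmx
  · intro u hu hk _
    have h4 : dgI G I u ≠ 4 := by
      intro h4
      rw [kap2_four h4] at hk
      exact lt_irrefl _ hk
    exact (hhub u hu h4).2.2 hk

end region

/-! ### The facts of the table -/

/-- The facts number `a`, ..., `b - 1` are proved by trees; the facts are given by `fl`. -/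
inductive RunsF (n0 : ℕ) (leafI leafF : Patch → Bool) (fl : ℕ → Option Fact) : ℕ → ℕ → Prop
  | refl (a : ℕ) : RunsF n0 leafI leafF fl a a
  | step {a b : ℕ} (fuel : ℕ) (l : List (List ℕ)) (h : RunsF n0 leafI leafF fl a b)
      (hr : ST.runF n0 leafI leafF fl fuel l b = true) :
      RunsF n0 leafI leafF fl a (b + l.length)

theorem RunsF.sound {V : Type} {E : Env V} {Phi : (ℕ → V) → Prop} {n0 : ℕ}
    {leafI leafF : Patch → Bool} {fl : ℕ → Option Fact} {a b : ℕ}
    (h : RunsF n0 leafI leafF fl a b)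
    (hI : ∀ P f, leafI P = true → ¬ E.Sat P f)
    (hleaf : ∀ P f, leafF P = true → E.Sat P f → Phi f)
    (hPhi : ∀ f g : ℕ → V, (∀ x < n0, g x = f x) → Phi g → Phi f)
    (h0 : ∀ c < a, ∀ F, fl c = some F → E.Holds Phi F) :
    ∀ c < b, ∀ F, fl c = some F → E.Holds Phi F := by
  induction h with
  | refl => exact h0
  | step fuel l _ hr ih => exact runF_sound hI hleaf hPhi l _ ih hr

/-- The facts number `a`, ..., `b - 1` of the list are proved by trees. -/
abbrev Runs (n0 : ℕ) (leafI leafF : Patch → Bool) (fs : List Fact) (a b : ℕ) : Prop :=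
  RunsF n0 leafI leafF (fnth fs) a b

theorem Runs.refl {n0 : ℕ} {leafI leafF : Patch → Bool} {fs : List Fact} (a : ℕ) :
    Runs n0 leafI leafF fs a a := RunsF.refl a

theorem Runs.step {n0 : ℕ} {leafI leafF : Patch → Bool} {fs : List Fact} {a b : ℕ} (fuel : ℕ)
    (l : List (List ℕ)) (h : Runs n0 leafI leafF fs a b)
    (hr : ST.run n0 leafI leafF fs fuel l b = true) : Runs n0 leafI leafF fs a (b + l.length) :=
  RunsF.step fuel l h hr

theorem Runs.sound {V : Type} {E : Env V} {Phi : (ℕ → V) → Prop} {n0 : ℕ}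
    {leafI leafF : Patch → Bool} {fs : List Fact} {a b : ℕ} (h : Runs n0 leafI leafF fs a b)
    (hI : ∀ P f, leafI P = true → ¬ E.Sat P f)
    (hleaf : ∀ P f, leafF P = true → E.Sat P f → Phi f)
    (hPhi : ∀ f g : ℕ → V, (∀ x < n0, g x = f x) → Phi g → Phi f)
    (h0 : ∀ c < a, ∀ F, fnth fs c = some F → E.Holds Phi F) :
    ∀ c < b, ∀ F, fnth fs c = some F → E.Holds Phi F :=
  RunsF.sound h hI hleaf hPhi h0

/-- The table of the facts: the facts below `a` are the configurations, those below `b` are proved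
with the leaf `l0`, those below `n` with the leaves `lI` (for impossible patches) and `lF`. -/
structure TableF (l0 lI lF : Patch → Bool) (fl : ℕ → Option Fact) (a b n : ℕ) : Prop where
  run0 : RunsF 0 l0 l0 fl a b
  runs : RunsF 1 lI lF fl b n
  le : b ≤ n
  small : ∀ P ∈ small, ∃ c < b, ∃ F, fl c = some F ∧ F.imp = true ∧ F.P = P
  root : ∀ d, 5 ≤ d → d ≤ 11 → ∃ c < n, ∃ F, fl c = some F ∧ F.imp = false ∧
    F.P = rootP d

/-- The table, given by a list. -/
abbrev TableG (l0 lI lF : Patch → Bool) (fs : List Fact) (a b n : ℕ) : Prop :=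
  TableF l0 lI lF (fnth fs) a b n

/-- The table with the numerical leaves. -/
abbrev Table (fs : List Fact) (a b n : ℕ) : Prop :=
  TableG (fun _ => false) leafI (leafB ctrU exU) fs a b n

/-- The leaves are correct in the environments of the regions. -/
structure LeavesOK (l0 lI lF : Patch → Bool) : Prop where
  s0 : ∀ (χ : ℤ) (V : Type) [Fintype V] [DecidableEq V] (S : Finset V) (G : SimpleGraph V)
    (T : V → V → V → Prop) (I : Finset V) (hT : TriOn χ S G T) (R : Region S G T I),
    ∀ P f, l0 P = true → ¬ (regEnv hT R 6).Sat P f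
  sI : ∀ (χ : ℤ) (V : Type) [Fintype V] [DecidableEq V] (S : Finset V) (G : SimpleGraph V)
    (T : V → V → V → Prop) (I : Finset V) (hT : TriOn χ S G T) (R : Region S G T I),
    KapOK (regEnv hT R 6) → (∀ P ∈ small, ∀ f, ¬ (regEnv hT R 6).Sat P f) →
    ∀ P f, lI P = true → ¬ (regEnv hT R 6).Sat P f
  sF : ∀ (χ : ℤ) (V : Type) [Fintype V] [DecidableEq V] (S : Finset V) (G : SimpleGraph V)
    (T : V → V → V → Prop) (I : Finset V) (hT : TriOn χ S G T) (R : Region S G T I),
    KapOK (regEnv hT R 6) → (∀ P ∈ small, ∀ f, ¬ (regEnv hT R 6).Sat P f) →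
    ∀ P f, lF P = true → (regEnv hT R 6).Sat P f → FinU (regEnv hT R 6) (f 0)

theorem leavesOK_std : LeavesOK (fun _ => false) leafI (leafB ctrU exU) :=
  ⟨fun _ _ _ _ _ _ _ _ _ _ _ _ h => absurd h Bool.false_ne_true,
    fun _ _ _ _ _ _ _ _ _ _ hK _ _ _ h => leafI_sound hK h,
    fun _ _ _ _ _ _ _ _ _ _ hK h1 _ _ h hf => leafU_sound hK
      ((Env.local_facts _ h1).2.2.2.2.2) hf h⟩

/-- One more leaf `c` for impossible patches. -/
theorem LeavesOK.or {l0 lI lF c : Patch → Bool} (h : LeavesOK l0 lI lF)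
    (hc : ∀ (χ : ℤ) (V : Type) [Fintype V] [DecidableEq V] (S : Finset V) (G : SimpleGraph V)
      (T : V → V → V → Prop) (I : Finset V) (hT : TriOn χ S G T) (R : Region S G T I),
      ∀ P f, c P = true → ¬ (regEnv hT R 6).Sat P f) :
    LeavesOK (fun P => cf (l0 P) true (c P)) (fun P => cf (lI P) true (c P))
      (fun P => cf (lF P) true (c P)) := by
  have key : ∀ {a b : Bool}, cf a true b = true → a = true ∨ b = true := by
    intro a b
    cases a with
    | true => exact fun _ => Or.inl rfl
    | false => exact fun h => Or.inr h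
  refine ⟨?_, ?_, ?_⟩
  · intro χ V _ _ S G T I hT R P f h1
    rcases key h1 with h2 | h2
    · exact h.s0 χ V S G T I hT R P f h2
    · exact hc χ V S G T I hT R P f h2
  · intro χ V _ _ S G T I hT R hK hs P f h1
    rcases key h1 with h2 | h2
    · exact h.sI χ V S G T I hT R hK hs P f h2
    · exact hc χ V S G T I hT R P f h2
  · intro χ V _ _ S G T I hT R hK hs P f h1 hf
    rcases key h1 with h2 | h2
    · exact h.sF χ V S G T I hT R hK hs P f h2 hf
    · exact absurd hf (hc χ V S G T I hT R P f h2)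

/-- The configurations of the table do not occur in a region without a reduction. -/
def BaseF (fl : ℕ → Option Fact) (a : ℕ) : Prop :=
  ∀ (χ : ℤ) (V : Type) [Fintype V] [DecidableEq V] (S : Finset V) (G : SimpleGraph V)
    (T : V → V → V → Prop) (I : Finset V) (hT : TriOn χ S G T) (R : Region S G T I),
    ¬ HasRed χ S G T I → ∀ c < a, ∀ F, fl c = some F → ∀ f, ¬ (regEnv hT R 6).Sat F.P f

/-- The inequality at the vertices of degree at least 12: the facts below `b` are impossible,
those below `n` hold. -/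
def BigF (fl : ℕ → Option Fact) (b n : ℕ) : Prop :=
  ∀ (χ : ℤ) (V : Type) [Fintype V] [DecidableEq V] (S : Finset V) (G : SimpleGraph V)
    (T : V → V → V → Prop) (I : Finset V) (hT : TriOn χ S G T) (R : Region S G T I),
    KapOK (regEnv hT R 6) → (∀ P ∈ small, ∀ f, ¬ (regEnv hT R 6).Sat P f) →
    (∀ c < b, ∀ F, fl c = some F → ∀ f, ¬ (regEnv hT R 6).Sat F.P f) →
    (∀ c < n, ∀ F, fl c = some F →
      (regEnv hT R 6).Holds (fun f => FinU (regEnv hT R 6) (f 0)) F) →
    ∀ x ∈ I, 12 ≤ dgI G I x → FinU (regEnv hT R 6) x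

/-- The configurations of the table do not occur in a region without a reduction. -/
abbrev BaseOK (fs : List Fact) (a : ℕ) : Prop := BaseF (fnth fs) a

/-- The inequality at the vertices of degree at least 12. -/
abbrev BigOK (fs : List Fact) (b n : ℕ) : Prop := BigF (fnth fs) b n

theorem BaseF.congr {fl fl' : ℕ → Option Fact} {a : ℕ} (h : BaseF fl a)
    (he : ∀ c < a, fl' c = fl c) : BaseF fl' a := by
  intro χ V _ _ S G T I hT R hno c hc F hF
  rw [he c hc] at hF
  exact h χ V S G T I hT R hno c hc F hF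

theorem BigF.congr {fl fl' : ℕ → Option Fact} {b n : ℕ} (h : BigF fl b n)
    (he : ∀ c, c < b ∨ c < n → fl' c = fl c) : BigF fl' b n := by
  intro χ V _ _ S G T I hT R hK h1 h2 h3
  refine h χ V S G T I hT R hK h1 (fun c hc F hF => ?_) (fun c hc F hF => ?_)
  · rw [← he c (Or.inl hc)] at hF
    exact h2 c hc F hF
  · rw [← he c (Or.inr hc)] at hF
    exact h3 c hc F hF

/-- **Regions have reductions**, for arbitrary leaves and an arbitrary form of the table. -/
theorem regionRed_ofF {χ : ℤ} {l0 lI lF : Patch → Bool} {fl : ℕ → Option Fact} {a b n : ℕ}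
    (hL : LeavesOK l0 lI lF) (hF : TableF l0 lI lF fl a b n) (hbase : BaseF fl a)
    (hbig : BigF fl b n) : RegionRed χ := by
  intro V _ _ S G T I hT R
  by_contra hno
  have h0 : ∀ c < b, ∀ F, fl c = some F →
      (regEnv hT R 6).Holds (fun _ => False) F :=
    hF.run0.sound (fun P f h => hL.s0 χ V S G T I hT R P f h)
      (fun P f h hf => hL.s0 χ V S G T I hT R P f h hf) (fun _ _ _ h => h)
      (fun c hc F hFc f hf => absurd hf (hbase χ V S G T I hT R hno c hc F hFc f))
  have h1 : ∀ P ∈ small, ∀ f, ¬ (regEnv hT R 6).Sat P f := by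
    intro P hP f hf
    obtain ⟨c, hc, F, hFc, _, rfl⟩ := hF.small P hP
    exact (h0 c hc F hFc f hf).2
  have hK := kapOK_regEnv hT R le_rfl ((regEnv hT R 6).local_facts h1).1
  have h2 : ∀ c < n, ∀ F, fl c = some F →
      (regEnv hT R 6).Holds (fun f => FinU (regEnv hT R 6) (f 0)) F := by
    refine hF.runs.sound (fun P f h => hL.sI χ V S G T I hT R hK h1 P f h)
      (fun P f h hf => hL.sF χ V S G T I hT R hK h1 P f h hf)
      (fun f g hfg h => ?_) (fun c hc F hFc f hf => absurd (h0 c hc F hFc f hf).2 (fun h => h))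
    rw [hfg 0 one_pos] at h
    exact h
  refine region_false hT R le_rfl h1 fun x hx h4 => ?_
  rcases lt_or_ge (dgI G I x) 12 with h12 | h12
  · have h5' : 5 ≤ dgI G I x := by
      have := (regEnv hT R 6).min4 x
      rw [regEnv_D] at this
      omega
    obtain ⟨c, hc, F, hFc, hi, hP⟩ := hF.root _ h5' (by omega)
    obtain ⟨ν, hν⟩ := (regEnv hT R 6).ex x hx
    have h6 := rootP_sat (regEnv hT R 6) hx hν
    have h7 := h2 c hc F hFc _ (by rw [hP]; exact h6)
    exact h7.2
  · exact hbig χ V S G T I hT R hK h1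
      (fun c hc F hFc f hf => (h0 c hc F hFc f hf).2) h2 x hx h12

/-- **Regions have reductions**, for arbitrary leaves. -/
theorem regionRed_ofG {χ : ℤ} {l0 lI lF : Patch → Bool} {fs : List Fact} {a b n : ℕ}
    (hL : LeavesOK l0 lI lF) (hF : TableG l0 lI lF fs a b n) (hbase : BaseOK fs a)
    (hbig : BigOK fs b n) : RegionRed χ :=
  regionRed_ofF hL hF hbase hbig

/-- **Regions have reductions.** -/
theorem regionRed_of {χ : ℤ} {fs : List Fact} {a b n : ℕ} (hF : Table fs a b n)
    (hbase : BaseOK fs a) (hbig : BigOK fs b n) : RegionRed χ :=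
  regionRed_ofF leavesOK_std hF hbase hbig

end Pool.Agent.W986
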