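import Pool.Agent.W986.SubProp
import Pool.Agent.W986.SubTree

/-!
# The environment of a region

The environment for the trees which is given by a region, and the root patch of a vertex.
-/

set_option autoImplicit false

open Finset

namespace Pool.Agent.W986

open Pool.Agent.DC76

section env

variable {V : Type} {χ : ℤ} {S I : Finset V} {G : SimpleGraph V} {T : V → V → V → Prop}

/-- The environment given by a region. -/
noncomputable def regEnv (hT : TriOn χ S G T) (R : Region S G T I) (s : ℤ) : ST.Env V where
  H := G
  T := T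
  I := fun x => x ∈ I
  D := dgI G I
  kap := kap2 G I s
  rot := hT.rot
  swap := hT.swap
  adjT := hT.adj
  ex := by
    intro x hx
    obtain ⟨d, ν, hν⟩ := hT.rotation x (R.sub hx)
    rw [hν.dgI_eq hx]
    exact ⟨ν, hν⟩
  min4 := by
    intro x
    by_cases hx : x ∈ I
    · rw [dgI_mem hx]
      exact R.deg x hx
    · rw [dgI_not_mem hx]
      omega
  big := fun x hx => (dgI_not_mem hx).ge

variable (hT : TriOn χ S G T) (R : Region S G T I) (s : ℤ)

@[simp] theorem regEnv_H : (regEnv hT R s).H = G := rfl
@[simp] theorem regEnv_T : (regEnv hT R s).T = T := rfl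
@[simp] theorem regEnv_I {x : V} : (regEnv hT R s).I x ↔ x ∈ I := Iff.rfl
@[simp] theorem regEnv_D : (regEnv hT R s).D = dgI G I := rfl
@[simp] theorem regEnv_kap : (regEnv hT R s).kap = kap2 G I s := rfl

end env

section root

variable {V : Type} (E : ST.Env V)

/-- The root patch of a vertex of degree `d`. -/
def rootP (d : ℕ) : ST.Patch := ⟨d + 1, [(0, ST.news d 1)], [], [], []⟩

/-- The root patch is realised at every vertex of degree `d`. -/
theorem rootP_sat {x : V} (hx : E.I x) {ν : ℕ → V} (h : Rotn E.H E.T x (E.D x) ν) :
    E.Sat (rootP (E.D x)) (fun i => if i = 0 then x else ν (i - 1)) := by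
  refine ⟨⟨?_, ?_⟩, ?_, ?_⟩
  · intro p hp
    rw [rootP, List.mem_singleton] at hp
    subst hp
    refine ⟨by simpa using hx, ?_⟩
    change Rotn E.H E.T (if 0 = 0 then x else ν (0 - 1)) (ST.news (E.D x) 1).length _
    rw [if_pos rfl, ST.length_news]
    refine h.tExt fun i => ?_
    have h3 := h.three
    rw [ST.lnth_news _ _ _ (Nat.mod_lt _ (by omega))]
    change ν i = if 1 + i % E.D x = 0 then x else ν (1 + i % E.D x - 1)
    rw [if_neg (by omega), show 1 + i % E.D x - 1 = i % E.D x by omega]
    exact (h.modEq (Nat.mod_modEq i (E.D x))).symm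
  · intro p hp
    exact absurd hp (by simp [rootP])
  · intro p hp
    exact absurd hp (by simp [rootP])
  · intro p hp
    exact absurd hp (by simp [rootP])

end root

end Pool.Agent.W986
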