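import Pool.Agent.W986.SubPatB
import Pool.Agent.W986.SubEnv
import Pool.Agent.W986.SubOcc

/-!
# Realised patches and occurrences of configurations
-/

set_option autoImplicit false

open Finset

namespace Pool.Agent.W986

open Pool.Agent.DC76

theorem lnth_eq_getD (l : List ℕ) (i : ℕ) : ST.lnth l i = l.getD i 0 := by
  induction l generalizing i with
  | nil => rfl
  | cons x l ih =>
    cases i with
    | zero => rfl
    | succ i => exact ih i

theorem pre_eq (p l : List ℕ) (h : ST.pre p l = true) (hl : p.length = l.length) : p = l := by
  induction p generalizing l with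
  | nil => exact (List.length_eq_zero_iff.1 hl.symm).symm
  | cons x p ih =>
    cases l with
    | nil => exact absurd h Bool.false_ne_true
    | cons y l =>
      change ST.cf (Nat.beq x y) (ST.pre p l) false = true at h
      cases hc : Nat.beq x y with
      | false => rw [hc] at h; exact absurd h Bool.false_ne_true
      | true =>
        rw [hc] at h
        rw [Nat.eq_of_beq_eq_true hc, ih l h (by simpa using hl)]

namespace SCfg

theorem lenL_eq (l : List (List ℕ)) : lenL l = l.length := by
  induction l with
  | nil => rfl
  | cons x l ih =>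
    change Nat.succ (lenL l) = _
    rw [ih, List.length_cons]

theorem lkB_spec (l : List (List ℕ)) (q : List (ℕ × List ℕ)) (i : ℕ) (h : lkB l q i = true) :
    ∀ j, j < l.length → (i + j, l.getD j []) ∈ q := by
  induction l generalizing q i with
  | nil => simp
  | cons m l ih =>
    cases q with
    | nil => exact absurd h Bool.false_ne_true
    | cons p q =>
      change ST.cf (Nat.beq p.1 i) (ST.cf (Nat.beq (ST.len p.2) (ST.len m))
        (ST.cf (ST.pre p.2 m) (lkB l q (Nat.succ i)) false) false) false = true at h
      cases h1 : Nat.beq p.1 i with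
      | false => rw [h1] at h; exact absurd h Bool.false_ne_true
      | true =>
        rw [h1] at h
        change ST.cf (Nat.beq (ST.len p.2) (ST.len m))
          (ST.cf (ST.pre p.2 m) (lkB l q (Nat.succ i)) false) false = true at h
        cases h2 : Nat.beq (ST.len p.2) (ST.len m) with
        | false => rw [h2] at h; exact absurd h Bool.false_ne_true
        | true =>
          rw [h2] at h
          change ST.cf (ST.pre p.2 m) (lkB l q (Nat.succ i)) false = true at h
          cases h3 : ST.pre p.2 m with
          | false => rw [h3] at h; exact absurd h Bool.false_ne_true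
          | true =>
            rw [h3] at h
            change lkB l q (Nat.succ i) = true at h
            have h4 := Nat.eq_of_beq_eq_true h1
            have h5 := Nat.eq_of_beq_eq_true h2
            rw [ST.len_eq, ST.len_eq] at h5
            have h6 := pre_eq _ _ h3 h5
            intro j hj
            cases j with
            | zero =>
              rw [Nat.add_zero, List.getD_cons_zero, ← h6, ← h4]
              exact List.mem_cons_self
            | succ j =>
              rw [List.getD_cons_succ]
              refine List.mem_cons_of_mem _ ?_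
              have h7 := ih q (Nat.succ i) h j (by simpa using hj)
              rwa [show Nat.succ i + j = i + (j + 1) by omega] at h7

theorem patB_spec {C : SCfg} {P : ST.Patch} (h : C.patB P = true) :
    P.n = C.D.a + C.D.L ∧ C.links.length = C.D.a ∧
      ∀ i, i < C.D.a → (i, lk C.links i) ∈ P.lk := by
  unfold patB at h
  cases h1 : Nat.beq P.n (Nat.add C.D.a C.D.L) with
  | false => rw [h1] at h; exact absurd h Bool.false_ne_true
  | true =>
    rw [h1] at h
    change ST.cf (Nat.beq (lenL C.links) C.D.a) (lkB C.links P.lk 0) false = true at h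
    cases h2 : Nat.beq (lenL C.links) C.D.a with
    | false => rw [h2] at h; exact absurd h Bool.false_ne_true
    | true =>
      rw [h2] at h
      change lkB C.links P.lk 0 = true at h
      have h3 := Nat.eq_of_beq_eq_true h1
      have h4 := Nat.eq_of_beq_eq_true h2
      rw [lenL_eq] at h4
      refine ⟨h3, h4, fun i hi => ?_⟩
      have h5 := lkB_spec _ _ _ h i (by omega)
      rwa [Nat.zero_add] at h5

/-- A realised patch is an occurrence of the configuration. -/
theorem occ_of_sat {V : Type} {E : ST.Env V} {C : SCfg} {P : ST.Patch} {f : ℕ → V}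
    (h : E.Sat P f) (hp : C.patB P = true) :
    Occ E.H E.T C.links C.D.a f ∧ (∀ i, i < C.D.a → E.I (f i)) ∧
      ∀ p ∈ P.lb, p.2 ≤ E.D (f p.1) := by
  obtain ⟨_, _, h1⟩ := patB_spec hp
  refine ⟨fun i hi => ?_, fun i hi => (h.real.1 _ (h1 i hi)).1, h.real.2⟩
  have h2 := (h.real.1 _ (h1 i hi)).2
  refine h2.tExt fun t => ?_
  rw [lnth_eq_getD]
  rfl

/-- The same for the environment of a region. -/
theorem occ_of_regEnv {V : Type} {χ : ℤ} {S I : Finset V} {G : SimpleGraph V}
    {T : V → V → V → Prop} {hT : TriOn χ S G T} {R : Region S G T I} {s : ℤ} {C : SCfg}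
    {P : ST.Patch} {f : ℕ → V} (h : (regEnv hT R s).Sat P f) (hp : C.patB P = true) :
    Occ G T C.links C.D.a f ∧ (∀ i, i < C.D.a → f i ∈ I) ∧
      ∀ p ∈ P.lb, f p.1 ∈ I → p.2 ≤ {y | G.Adj (f p.1) y}.ncard := by
  obtain ⟨h1, h2, h3⟩ := occ_of_sat h hp
  refine ⟨h1, h2, fun p hq hpI => ?_⟩
  have h4 := h3 p hq
  rwa [regEnv_D, dgI_mem hpI] at h4

end SCfg

end Pool.Agent.W986
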