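import Pool.Agent.W986.SubVar
import Pool.Agent.W986.SubArc
import Pool.Agent.W986.SubSatOcc
import Pool.Agent.W986.SubRegRed
import Pool.Agent.W986.SubFastS47
import Pool.Agent.W986.SubGlueFast
import Pool.Agent.W986.SubLegS
import Pool.Agent.W986.SubCov
import Pool.Agent.W986.SubAltB

/-!
# The entries of the table do not occur

The configurations of the table do not occur in a region without a reduction. The labels of a
configuration which occurs belong to different vertices, since otherwise there is an earlier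
configuration.
-/

set_option autoImplicit false

open Finset

namespace Pool.Agent.W986

open Pool.Agent.DC76

namespace ST

section

variable {V : Type} {E : Env V}

theorem arcsOK_spec {P : Patch} (l : List (ℕ × List ℕ)) (hl : arcsOK P l = true) :
    ∀ v ∈ l, 3 ≤ v.2.length ∧ v.2.length ≤ loP P.lk P.lb v.1 ∧ arcOK P.lk v.1 v.2 = true := by
  induction l with
  | nil => intro v hv; cases hv
  | cons u l ih =>
    obtain ⟨h1, h2⟩ := cf_tt hl
    obtain ⟨h3, h4⟩ := cf_tt h2
    obtain ⟨h5, h6⟩ := cf_tt h4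
    intro v hv
    rcases List.mem_cons.1 hv with rfl | hv
    · have h7 := Nat.le_of_ble_eq_true h1
      have h8 := Nat.le_of_ble_eq_true h3
      rw [len_eq] at h7 h8
      exact ⟨h7, h8, h5⟩
    · exact ih h6 v hv

theorem degsOK_sound {P : Patch} {f : ℕ → V} (h : E.Real P.lk P.lb f) (l : List (ℕ × ℕ))
    (hl : degsOK P l = true) : ∀ v ∈ l, f v.1 ≠ f v.2 := by
  induction l with
  | nil => intro v hv; cases hv
  | cons u l ih =>
    obtain ⟨h1, h2⟩ := cf_tt hl
    obtain ⟨h3, h4⟩ := cf_tt h2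
    intro v hv
    rcases List.mem_cons.1 hv with rfl | hv
    · intro heq
      have h5 := h.ex _ h1
      have h6 := h.lo v.2
      have h7 : loP P.lk P.lb v.1 + 1 ≤ loP P.lk P.lb v.2 := Nat.le_of_ble_eq_true h3
      rw [heq] at h5
      omega
    · exact ih h4 v hv

theorem mem_ne0 {arcs : List (ℕ × List ℕ)} {degs : List (ℕ × ℕ)} {far : List (ℕ × ℕ × List ℕ)}
    {p : ℕ × ℕ} (h : p ∈ ne0 arcs degs far) :
    (∃ v ∈ arcs, p = (lnth v.2 0, lnth v.2 (v.2.length - 1))) ∨ p ∈ degs ∨
      ∃ v ∈ far, p = (v.1, v.2.1) := by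
  induction arcs with
  | nil =>
    right
    induction far with
    | nil => exact Or.inl h
    | cons v far ih =>
      change p ∈ (v.1, v.2.1) :: ne0 [] degs far at h
      rcases List.mem_cons.1 h with h | h
      · exact Or.inr ⟨v, List.mem_cons_self, h⟩
      · rcases ih h with h | ⟨w, hw, h⟩
        · exact Or.inl h
        · exact Or.inr ⟨w, List.mem_cons_of_mem _ hw, h⟩
  | cons v arcs ih =>
    change p ∈ (lnth v.2 0, lnth v.2 (Nat.pred (len v.2))) :: ne0 arcs degs far at h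
    rcases List.mem_cons.1 h with h | h
    · left
      refine ⟨v, List.mem_cons_self, ?_⟩
      rw [h, len_eq, Nat.pred_eq_sub_one]
    · rcases ih h with ⟨w, hw, h⟩ | h
      · exact Or.inl ⟨w, List.mem_cons_of_mem _ hw, h⟩
      · exact Or.inr h

theorem mem_neM {farm : List (ℕ × List ℕ × List ℕ)} {l : List (ℕ × ℕ)} {p : ℕ × ℕ}
    (h : p ∈ neM farm l) :
    (∃ v ∈ farm, p = (lnth v.2.1 0, lnth v.2.1 (v.2.1.length - 1))) ∨ p ∈ l := by
  induction farm with
  | nil => exact Or.inr h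
  | cons v farm ih =>
    change p ∈ (lnth v.2.1 0, lnth v.2.1 (Nat.pred (len v.2.1))) :: neM farm l at h
    rcases List.mem_cons.1 h with h | h
    · left
      refine ⟨v, List.mem_cons_self, ?_⟩
      rw [h, len_eq, Nat.pred_eq_sub_one]
    · rcases ih h with ⟨w, hw, h⟩ | h
      · exact Or.inl ⟨w, List.mem_cons_of_mem _ hw, h⟩
      · exact Or.inr h

end

section sound

variable {V : Type} {E : Env V}

/-- The labels `x`, `y` do not coincide. -/
theorem pairF_sound {leafI : Patch → Bool} {fl : ℕ → Option Fact} {fuel c : ℕ} {P : Patch}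
    (hI : ∀ P f, leafI P = true → ¬ E.Sat P f)
    (hfs : ∀ c' < c, ∀ F, fl c' = some F → ∀ f, ¬ E.Sat F.P f)
    (hP : P.Ok) {x y : ℕ} {s : List ℕ} (h : pairF leafI fl fuel c P x y s = true) {f : ℕ → V}
    (hf : E.Sat P f) : f x ≠ f y := by
  intro hxy
  obtain ⟨h1, h2⟩ := cf_tt h
  have h2 := cons?_spec h2
  have hx : x < P.n := Nat.le_of_ble_eq_true h1
  rw [subP, frcK_eq, frcB_eq, frcB_eq, frcB_eq] at h2
  have h6 : ∀ z, f (rpl y x z) = f z := by
    intro z
    rw [rpl]
    cases h7 : Nat.beq z y with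
    | true =>
      rw [cf_true, Nat.eq_of_beq_eq_true h7]
      exact hxy
    | false => rfl
  have h8 : ∀ z < P.n, rpl y x z < P.n := by
    intro z hz
    rw [rpl]
    cases Nat.beq z y with
    | true => exact hx
    | false => exact hz
  have h9 := hf.real.relabel _ h6
  refine chkF_sound (E := E) (Phi := fun _ => False) (n0 := 0) (q := false)
    (fun P f h h' => hI P f h h')
    (fun c' hc' F hF f hf => absurd hf (hfs c' hc' F hF f))
    (fun _ _ _ h => h) fuel _ s h2 ⟨⟨?_, ?_⟩, ?_, ?_⟩ (Nat.zero_le _) f ⟨h9, ?_, ?_⟩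
  · intro p hp
    obtain ⟨q, hq, rfl⟩ := List.mem_map.1 hp
    have h10 := hP.below.1 q hq
    refine ⟨h8 _ h10.1, fun z hz => ?_⟩
    obtain ⟨w, hw, rfl⟩ := List.mem_map.1 hz
    exact h8 _ (h10.2 w hw)
  · intro p hp
    obtain ⟨q, hq, rfl⟩ := List.mem_map.1 hp
    exact h8 _ (hP.below.2 q hq)
  · intro p hp
    obtain ⟨q, hq, rfl⟩ := List.mem_map.1 hp
    exact h8 _ (hP.kb q hq)
  · intro p hp
    obtain ⟨q, hq, rfl⟩ := List.mem_map.1 hp
    exact h8 _ (hP.kg q hq)
  · intro p hp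
    obtain ⟨q, hq, rfl⟩ := List.mem_map.1 hp
    rw [h6]
    exact hf.kb q hq
  · intro p hp
    obtain ⟨q, hq, rfl⟩ := List.mem_map.1 hp
    rw [h6]
    exact hf.kg q hq

theorem pairsF_sound {leafI : Patch → Bool} {fl : ℕ → Option Fact} {fuel c : ℕ} {P : Patch}
    (hI : ∀ P f, leafI P = true → ¬ E.Sat P f)
    (hfs : ∀ c' < c, ∀ F, fl c' = some F → ∀ f, ¬ E.Sat F.P f)
    (hP : P.Ok) {f : ℕ → V} (hf : E.Sat P f) (l : List (ℕ × ℕ × List ℕ))
    (h : pairsF leafI fl fuel c P l = true) : ∀ v ∈ l, f v.1 ≠ f v.2.1 := by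
  induction l with
  | nil => intro v hv; cases hv
  | cons u l ih =>
    obtain ⟨h1, h2⟩ := cf_tt h
    intro v hv
    rcases List.mem_cons.1 hv with rfl | hv
    · exact pairF_sound hI hfs hP h1 hf
    · exact ih h2 v hv

end sound

/-- The ends of the walks belong to different vertices. -/
theorem farmF_sound {V : Type} {χ : ℤ} {S I : Finset V} {G : SimpleGraph V}
    {T : V → V → V → Prop} (hT : TriOn χ S G T) (R : Region S G T I) (s : ℤ)
    {leafI : Patch → Bool} {fl : ℕ → Option Fact} {fuel c : ℕ} {P : Patch}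
    (hI : ∀ P f, leafI P = true → ¬ (regEnv hT R s).Sat P f)
    (hfs : ∀ c' < c, ∀ F, fl c' = some F → ∀ f, ¬ (regEnv hT R s).Sat F.P f) (hP : P.Ok)
    {f : ℕ → V} (hf : (regEnv hT R s).Sat P f) (l : List (ℕ × List ℕ × List ℕ))
    (h : farmF leafI fl fuel c P l = true) :
    ∀ v ∈ l, f (lnth v.2.1 0) ≠ f (lnth v.2.1 (v.2.1.length - 1)) := by
  induction l with
  | nil => intro v hv; cases hv
  | cons u l ih =>
    change (frc (len u.2.1) fun d => cf (Nat.ble 3 d) (cf (Nat.ble d 8)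
      (cf (allLt P.n u.2.1) (cf (Nat.ble (Nat.succ u.1) P.n) (cf (arcOK P.lk u.1 u.2.1)
        (cf (pairF leafI fl fuel c
          ⟨P.n, (u.1, tke u.2.1 (Nat.pred d)) :: P.lk, P.lb, P.kb, P.kg⟩
          (lnth u.2.1 0) (lnth u.2.1 (Nat.pred d)) u.2.2) (farmF leafI fl fuel c P l) false)
        false) false) false) false) false) = true at h
    rw [frc_eq, len_eq, Nat.pred_eq_sub_one, tke_eq] at h
    obtain ⟨h1, h⟩ := cf_tt h
    obtain ⟨h2, h⟩ := cf_tt h
    obtain ⟨h3, h⟩ := cf_tt h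
    obtain ⟨h4, h⟩ := cf_tt h
    obtain ⟨h5, h⟩ := cf_tt h
    obtain ⟨h6, h⟩ := cf_tt h
    intro v hv
    rcases List.mem_cons.1 hv with rfl | hv
    · obtain ⟨m, a, t⟩ := v
      dsimp only at h1 h2 h3 h4 h5 h6 ⊢
      have h1 : 3 ≤ a.length := Nat.le_of_ble_eq_true h1
      have h2 : a.length ≤ 8 := Nat.le_of_ble_eq_true h2
      have h4 : m < P.n := Nat.le_of_ble_eq_true h4
      intro heq
      have hd : dgI G I (f m) < a.length := by
        by_contra hcon
        exact hf.real.arc_ends_ne hT R s h5 h1 (by omega) heq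
      have hm : f m ∈ I := mem_of_dgI (G := G) (by omega)
      have h7 : (regEnv hT R s).D (f m) = dgI G I (f m) := rfl
      have h8 := (regEnv hT R s).min4 (f m)
      obtain ⟨μ, hμ, h9⟩ := hf.real.rotn h5 h1 hm
      have h10 : dgI G I (f m) = a.length - 1 := by
        by_contra hcon
        have h11 : μ (a.length - 1) = μ (a.length - 1 - dgI G I (f m)) := by
          have h12 := hμ.per (a.length - 1 - dgI G I (f m))
          rw [h7] at h12
          rw [← h12]
          congr 1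
          omega
        refine hμ.ne (i := 0) (j := a.length - 1 - dgI G I (f m)) (by omega) (by omega) ?_
        rw [← h11, h9 _ (by omega), h9 _ (by omega), heq]
      obtain ⟨h11, -⟩ := hf.real.close' h5 h1 hm (by omega)
      rw [h7, h10] at h11
      refine pairF_sound (E := regEnv hT R s)
        (P := ⟨P.n, (m, List.take (a.length - 1) a) :: P.lk, P.lb, P.kb, P.kg⟩) hI hfs
        (Patch.Ok.mk ⟨?_, hP.below.2⟩ hP.kb hP.kg) h6 (Env.Sat.mk h11 hf.kb hf.kg) heq
      intro p hp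
      rcases List.mem_cons.1 hp with rfl | hp
      · exact ⟨h4, fun x hx => allLt_spec _ _ h3 x (List.mem_of_mem_take hx)⟩
      · exact hP.below.1 p hp
    · exact ih h v hv

/-- The test of the legality is correct. -/
def LegOK (leg : SCfg → Patch → List (ℕ × ℕ) → Bool) : Prop :=
  ∀ (χ : ℤ) (V : Type) [Fintype V] [DecidableEq V] (S : Finset V) (G : SimpleGraph V)
    (T : V → V → V → Prop) (I : Finset V) (hT : TriOn χ S G T) (R : Region S G T I)
    (C : SCfg) (P : Patch) (ne : List (ℕ × ℕ)) (f : ℕ → V), C.D.conf.Red → C.fastA = true →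
    C.patB P = true → leg C P ne = true → (regEnv hT R 6).Sat P f →
    (∀ p ∈ ne, f p.1 ≠ f p.2) → HasRed χ S G T I

/-- The test for contradictions is correct. -/
def CtrOK (ctr : Patch → List (ℕ × ℕ) → Bool) : Prop :=
  ∀ (χ : ℤ) (V : Type) [Fintype V] [DecidableEq V] (S : Finset V) (G : SimpleGraph V)
    (T : V → V → V → Prop) (I : Finset V) (hT : TriOn χ S G T) (R : Region S G T I) (P : Patch)
    (ne : List (ℕ × ℕ)) (f : ℕ → V), ctr P ne = true → (regEnv hT R 6).Sat P f →
    ¬ ∀ p ∈ ne, f p.1 ≠ f p.2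

/-- The test for impossible patches is correct. -/
def LeafOK (leafI : Patch → Bool) : Prop :=
  ∀ (χ : ℤ) (V : Type) [Fintype V] [DecidableEq V] (S : Finset V) (G : SimpleGraph V)
    (T : V → V → V → Prop) (I : Finset V) (hT : TriOn χ S G T) (R : Region S G T I) (P : Patch)
    (f : ℕ → V), leafI P = true → ¬ (regEnv hT R 6).Sat P f

theorem CtrOK.leaf {ctr : Patch → List (ℕ × ℕ) → Bool} (h : CtrOK ctr) :
    LeafOK fun P => ctr P [] :=
  fun χ V _ _ S G T I hT R P f hP hf =>
    h χ V S G T I hT R P [] f hP hf fun _ hp => absurd hp List.not_mem_nil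

/-- What is known about the vertices of the labels of a realised patch. -/
theorem hyp_of_sat {V : Type} {χ : ℤ} {S I : Finset V} {G : SimpleGraph V}
    {T : V → V → V → Prop} {hT : TriOn χ S G T} {R : Region S G T I} {s : ℤ} {P : Patch}
    {f : ℕ → V} (h : (regEnv hT R s).Sat P f) {ne : List (ℕ × ℕ)}
    (hne : ∀ p ∈ ne, f p.1 ≠ f p.2) : LegF.Hyp G T I f P.lk P.lb ne where
  rot p hp := (h.real.1 p hp).2.tExt fun t => by rw [lnth_eq_getD]; rfl
  rel := ⟨hT.rot, hT.swap, hT.adj⟩
  mem p hp := (h.real.1 p hp).1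
  three := R.three
  four := R.four
  lb p hp hI := by
    have h1 := h.real.2 p hp
    rwa [regEnv_D, dgI_mem hI] at h1
  ne0 := hne

theorem lkB_lt (l : List (List ℕ)) (q : List (ℕ × List ℕ)) (i : ℕ)
    (h : SCfg.lkB l q i = true) : ∀ p ∈ q, p.1 < i + l.length := by
  induction l generalizing q i with
  | nil =>
    cases q with
    | nil => exact fun p hp => absurd hp List.not_mem_nil
    | cons p q => exact absurd h Bool.false_ne_true
  | cons m l ih =>
    cases q with
    | nil => exact absurd h Bool.false_ne_true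
    | cons r q =>
      obtain ⟨h1, h2⟩ := cf_tt h
      obtain ⟨_, h2⟩ := cf_tt h2
      obtain ⟨_, h3⟩ := cf_tt h2
      have h4 := Nat.eq_of_beq_eq_true h1
      intro p hp
      rw [List.length_cons]
      rcases List.mem_cons.1 hp with rfl | hp
      · omega
      · have := ih q (i + 1) h3 p hp
        omega

theorem patB_lt {C : SCfg} {P : Patch} (h : C.patB P = true) : ∀ p ∈ P.lk, p.1 < C.D.a := by
  obtain ⟨_, hl, _⟩ := SCfg.patB_spec h
  obtain ⟨_, h2⟩ := cf_tt h
  obtain ⟨_, h3⟩ := cf_tt h2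
  intro p hp
  have := lkB_lt _ _ _ h3 p hp
  omega

theorem ctrC_ok : CtrOK ctrC :=
  fun _ _ _ _ _ _ _ _ _ _ _ _ _ h hf hne => (hyp_of_sat hf hne).contra h

theorem legC_ok : LegOK legC := by
  intro χ V _ _ S G T I hT R C P ne f hred hfast hpat hleg hf hne
  have h := hyp_of_sat hf hne
  obtain ⟨hocc, hI, -⟩ := SCfg.occ_of_regEnv hf hpat
  obtain ⟨hn, -, hlk⟩ := SCfg.patB_spec hpat
  rw [legC, frc_eq] at hleg
  have hw := LegF.clo_wf hleg
  obtain ⟨J, E, A, _, hE, hA, hk⟩ := h.clo_sound hleg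
  obtain ⟨hall, hl⟩ := cf_tt hk
  have hinj := LegF.allNe_inj hE hw.hn hall
  have h32 := hw.hn
  rw [hn] at hinj h32
  refine C.hasRed_of hred (C.fit_of_fastA hfast) (C.planFit_of_fast hfast)
    (C.leg_of_fast hfast hl) hT R ⟨hocc, hinj, ?_, ?_⟩ hI
  · intro x y hx hy hna
    refine hA x y (by omega) (by omega) ?_
    rwa [LegF.sb_eq] at hna
  · intro x y hx hy hnc v hvx hvy
    obtain ⟨p, hp, hpv⟩ := h.nc_sound hw hE hA (by omega) (by omega) hnc hvx hvy
    exact ⟨p.1, patB_lt hpat p hp, hpv⟩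

/-- **The entries of the table do not occur in a region without a reduction.** -/
theorem baseF_ofG {col : KData → Prop} (hcol : ∀ D, col D → D.conf.Red)
    {fl : ℕ → Option Fact} {fuel a : ℕ} (h : ∀ c < a, GoodG col fl fuel c) : BaseF fl a := by
  intro χ V _ _ S G T I hT R hno c
  induction c using Nat.strong_induction_on with
  | _ c ih =>
  intro hc F hF
  have hI : ∀ P f, leafC P = true → ¬ (regEnv hT R 6).Sat P f :=
    fun P f => ctrC_ok.leaf χ V S G T I hT R P f
  have hfs : ∀ c' < c, ∀ F, fl c' = some F → ∀ f, ¬ (regEnv hT R 6).Sat F.P f :=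
    fun c' hc' F' hF' => ih c' hc' (by omega) F' hF'
  have key : ∀ (farm : List (ℕ × List ℕ × List ℕ)) (arcs : List (ℕ × List ℕ))
      (degs : List (ℕ × ℕ)) (far : List (ℕ × ℕ × List ℕ)),
      sepF leafC fl fuel c farm arcs degs far F.P = true → ∀ f, (regEnv hT R 6).Sat F.P f →
      ∀ p ∈ neM farm (ne0 arcs degs far), f p.1 ≠ f p.2 := by
    intro farm arcs degs far hs f hf p hp
    obtain ⟨h0, hs⟩ := cf_tt hs
    obtain ⟨h1, hs⟩ := cf_tt hs
    obtain ⟨h2, hs⟩ := cf_tt hs
    obtain ⟨h3, h4⟩ := cf_tt hs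
    rcases mem_neM hp with ⟨v, hv, rfl⟩ | hp
    · exact farmF_sound hT R 6 hI hfs (okP_spec h0) hf _ h2 v hv
    rcases mem_ne0 hp with ⟨v, hv, rfl⟩ | hp | ⟨v, hv, rfl⟩
    · obtain ⟨h10, h11, h12⟩ := arcsOK_spec _ h3 v hv
      exact hf.real.arc_ends_ne hT R 6 h12 h10 (h11.trans (hf.real.lo _))
    · exact degsOK_sound hf.real _ h4 p hp
    · exact pairsF_sound hI hfs (okP_spec h0) hf _ h1 v hv
  rcases h c hc with ⟨farm, e, hred, he⟩ | ⟨farm, arcs, degs, far, he⟩
  · have he' : entFM fl fuel c farm e F = true := by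
      rw [entM, hF] at he
      exact he
    obtain ⟨h1, he'⟩ := cf_tt he'
    obtain ⟨h2, he'⟩ := cf_tt he'
    obtain ⟨h5, h6⟩ := cf_tt he'
    rw [frcB_eq] at h6
    exact fun f hf => hno (legC_ok χ V S G T I hT R e.C F.P _ f (hcol _ hred) h5 h1 h6 hf
      (key _ _ _ _ h2 f hf))
  · rw [ctrM, hF] at he
    obtain ⟨h2, h6⟩ := cf_tt he
    rw [frcB_eq] at h6
    exact fun f hf => ctrC_ok χ V S G T I hT R F.P _ f h6 hf (key _ _ _ _ h2 f hf)

theorem ColF.red {D : KData} (h : ColF D) : D.conf.Red := by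
  rcases h with ⟨F, hF⟩ | ⟨F, hF⟩
  · exact D.redF F hF
  · exact Cov.red D F hF

/-- **The entries of the table do not occur in a region without a reduction.** -/
theorem baseF_of {fl : ℕ → Option Fact} {fuel a : ℕ} (h : ∀ c < a, GoodF fl fuel c) :
    BaseF fl a := baseF_ofG (fun _ hD => hD.red) h

/-- The same for a list of facts. -/
theorem baseOK_of {fs : List Fact} {fuel a : ℕ} (h : ∀ c < a, Good fs fuel c) : BaseOK fs a :=
  baseF_of h

theorem Rng.all {p : ℕ → Prop} {a : ℕ} (h : Rng p 0 a) : ∀ c < a, p c :=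
  fun c hc => h c (Nat.zero_le c) hc

end ST

end Pool.Agent.W986
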