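import Pool.Agent.W986.SubAsmB
import Pool.Agent.W986.SubLeaves

/-!
# The assembly of the table

The hypotheses on the table from Boolean checks and from the data modules.
-/

set_option autoImplicit false

namespace Pool.Agent.W986

open Pool.Agent.W986.ST

namespace ST

theorem fjoin_lt {b : ℕ} {f g : ℕ → Option Fact} {c : ℕ} (h : c < b) : fjoin b f g c = f c := by
  rw [fjoin, frc_eq, Nat.ble_eq_true_of_le (show Nat.succ c ≤ b from h), cf_true]

theorem eqL_spec (a b : List ℕ) (h : eqL a b = true) : a = b := by
  induction a generalizing b with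
  | nil =>
    cases b with
    | nil => rfl
    | cons y b => exact absurd h Bool.false_ne_true
  | cons x a ih =>
    cases b with
    | nil => exact absurd h Bool.false_ne_true
    | cons y b =>
      obtain ⟨h1, h2⟩ := cf_tt h
      rw [Nat.eq_of_beq_eq_true h1, ih b h2]

theorem eqB_spec (a b : List (ℕ × ℕ)) (h : eqB a b = true) : a = b := by
  induction a generalizing b with
  | nil =>
    cases b with
    | nil => rfl
    | cons y b => exact absurd h Bool.false_ne_true
  | cons x a ih =>
    cases b with
    | nil => exact absurd h Bool.false_ne_true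
    | cons y b =>
      obtain ⟨h1, h2⟩ := cf_tt h
      obtain ⟨h2, h3⟩ := cf_tt h2
      rw [Prod.ext (Nat.eq_of_beq_eq_true h1) (Nat.eq_of_beq_eq_true h2), ih b h3]

theorem eqK_spec (a b : List (ℕ × List ℕ)) (h : eqK a b = true) : a = b := by
  induction a generalizing b with
  | nil =>
    cases b with
    | nil => rfl
    | cons y b => exact absurd h Bool.false_ne_true
  | cons x a ih =>
    cases b with
    | nil => exact absurd h Bool.false_ne_true
    | cons y b =>
      obtain ⟨h1, h2⟩ := cf_tt h
      obtain ⟨h2, h3⟩ := cf_tt h2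
      rw [Prod.ext (Nat.eq_of_beq_eq_true h1) (eqL_spec _ _ h2), ih b h3]

theorem eqP_spec {P Q : Patch} (h : eqP P Q = true) : P = Q := by
  obtain ⟨h1, h⟩ := cf_tt h
  obtain ⟨h2, h⟩ := cf_tt h
  obtain ⟨h3, h⟩ := cf_tt h
  obtain ⟨h4, h5⟩ := cf_tt h
  cases P
  cases Q
  simp only [Patch.mk.injEq]
  exact ⟨Nat.eq_of_beq_eq_true h1, eqK_spec _ _ h2, eqB_spec _ _ h3, eqB_spec _ _ h4,
    eqB_spec _ _ h5⟩

theorem eqT_spec {a b : Bool} (h : eqT a b = true) : a = b := by
  cases a <;> cases b <;> first | rfl | exact absurd h Bool.false_ne_true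

theorem inTab_spec {fl : ℕ → Option Fact} {b : ℕ} {imp : Bool} (l : List Patch) (m : List ℕ)
    (h : inTab fl b imp l m = true) :
    ∀ P ∈ l, ∃ c < b, ∃ F, fl c = some F ∧ F.imp = imp ∧ F.P = P := by
  induction l generalizing m with
  | nil => exact fun P hP => absurd hP List.not_mem_nil
  | cons Q l ih =>
    cases m with
    | nil => exact absurd h Bool.false_ne_true
    | cons c m =>
      obtain ⟨h1, h2⟩ := cf_tt h
      obtain ⟨h2, h3⟩ := cf_tt h2
      intro P hP
      rcases List.mem_cons.1 hP with rfl | hP
      · cases hF : fl c with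
        | none =>
          rw [hF] at h2
          exact absurd h2 Bool.false_ne_true
        | some F =>
          rw [hF] at h2
          obtain ⟨h4, h5⟩ := cf_tt h2
          exact ⟨c, Nat.le_of_ble_eq_true h1, F, hF, eqT_spec h4, eqP_spec h5⟩
      · exact ih m h3 P hP

theorem impB_spec (l : List Fact) (a : ℕ) (h : impB l a = true) :
    ∀ c < a, ∀ F, fnth l c = some F → F.imp = true := by
  induction l generalizing a with
  | nil =>
    intro c _ F hF
    change none = some F at hF
    exact absurd hF (by simp)
  | cons G l ih =>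
    cases a with
    | zero => exact fun c hc => absurd hc (Nat.not_lt_zero c)
    | succ a =>
      obtain ⟨h1, h2⟩ := cf_tt h
      intro c hc F hF
      cases c with
      | zero =>
        change some G = some F at hF
        rw [← Option.some.inj hF]
        exact h1
      | succ c =>
        change fnth l c = some F at hF
        exact ih a h2 c (Nat.lt_of_succ_lt_succ hc) F hF

end ST

/-- The next facts, with the number of the facts as a Boolean check. -/
theorem RunsF.next {n0 : ℕ} {leafI leafF : Patch → Bool} {fl : ℕ → Option Fact} {a b : ℕ}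
    (h : RunsF n0 leafI leafF fl a b) (fuel : ℕ) (l : List (List ℕ)) (k : ℕ)
    (hr : ST.runF n0 leafI leafF fl fuel l b = true) (hk : Nat.beq (b + l.length) k = true) :
    RunsF n0 leafI leafF fl a k := by
  rw [← Nat.eq_of_beq_eq_true hk]
  exact h.step fuel l hr

theorem RunsF.trans {n0 : ℕ} {leafI leafF : Patch → Bool} {fl : ℕ → Option Fact} {a b c : ℕ}
    (h : RunsF n0 leafI leafF fl a b) (h' : RunsF n0 leafI leafF fl b c) :
    RunsF n0 leafI leafF fl a c := by
  induction h' with
  | refl => exact h
  | step fuel l _ hr ih => exact RunsF.step fuel l ih hr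

/-- **The table from the checks.** -/
theorem tableF_of {fl : ℕ → Option Fact} {a b n : ℕ} (ls lr : List ℕ)
    (run0 : RunsF 0 lC lC fl a b) (runs : RunsF 1 lI lF fl b n) (le : Nat.ble b n = true)
    (hs : inTab fl b true small ls = true)
    (hr : inTab fl n false
      [rootP 5, rootP 6, rootP 7, rootP 8, rootP 9, rootP 10, rootP 11] lr = true) :
    TableF lC lI lF fl a b n where
  run0 := run0
  runs := runs
  le := Nat.le_of_ble_eq_true le
  small := inTab_spec _ _ hs
  root d h5 h11 := by
    refine inTab_spec _ _ hr (rootP d) ?_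
    interval_cases d <;> simp

end Pool.Agent.W986
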