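import Pool.Agent.W986.SubBigSum
import Pool.Agent.W986.SubGiveFin
import Pool.Agent.W986.SubLeaf
import Pool.Agent.W986.SubMid
import Pool.Agent.W986.SubLocal

/-!
# Big hubs, the global part

`x` is a vertex of degree at least 12 of the region. What its neighbours give is moved along the
link of `x`: a neighbour `v` which gives more than 1 (twice the charge) sends the excess `exV` to
the two sides, as described by `snd4`; vertices of degree 4 pass on what they get. If the local
inequality `HLoc` holds at every neighbour then the mean is at most 1 (`flow_sum`) and the final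
charge of `x` is not positive (`finB_of_hloc`).
-/

set_option autoImplicit false

open Finset

namespace Pool.Agent.W986

/-! ### The abstract transfer lemma -/

/-- `a i` is sent from `i` to `i + 1` and `b i` from `i + 1` to `i`. -/
theorem transfer_sum {d : ℕ} {g a b : ℕ → ℚ} (hg : ∀ i, g (i + d) = g i)
    (ha : ∀ i, a (i + d) = a i) (hb : ∀ i, b (i + d) = b i)
    (h : ∀ i, g (i + 1) + a i + b (i + 1) ≤ 1 + a (i + 1) + b i) :
    ∑ t ∈ range d, g t ≤ d := by
  have h1 : ∑ t ∈ range d, (g (t + 1) + a t + b (t + 1)) ≤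
      ∑ t ∈ range d, (1 + a (t + 1) + b t) := Finset.sum_le_sum fun t _ => h t
  simp only [Finset.sum_add_distrib, Finset.sum_const, Finset.card_range, nsmul_eq_mul,
    mul_one] at h1
  rw [BigSum.sum_shift hg, BigSum.sum_shift ha, BigSum.sum_shift hb] at h1
  linarith

/-- The mean is at most 1 if the local inequality holds. `four i`: the vertex number `i` has
degree 4; `F i`: what it gives otherwise; `e i`: what it gives in addition to 1 if `four i`;
`R i`, `L i`: what is sent from `i` to the right and to the left if not `four i`. A vertex of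
degree 4 passes on what it gets. -/
theorem flow_sum {d : ℕ} {four : ℕ → Prop} [DecidablePred four] {F e R L : ℕ → ℚ}
    (h4p : ∀ i, four (i + d) ↔ four i) (hFp : ∀ i, F (i + d) = F i)
    (hep : ∀ i, e (i + d) = e i) (hRp : ∀ i, R (i + d) = R i) (hLp : ∀ i, L (i + d) = L i)
    (h44 : ∀ i, four i → ¬ four (i + 1))
    (h : ∀ i, ¬ four (i + 2) →
      F (i + 2) - 1 + (if four (i + 3) then L (i + 4) + e (i + 3) / 2 else L (i + 3)) +
        (if four (i + 1) then R i + e (i + 1) / 2 else R (i + 1)) ≤ R (i + 2) + L (i + 2)) :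
    ∑ t ∈ range d, (if four t then 1 + e t else F t) ≤ d := by
  -- the flow from `i + 1` to `i + 2`
  let A : ℕ → ℚ := fun i => if four (i + 1) then R i + e (i + 1) / 2 else R (i + 1)
  -- the flow from `i + 2` to `i + 1`
  let B : ℕ → ℚ := fun i => if four (i + 2) then L (i + 3) + e (i + 2) / 2 else L (i + 2)
  let g : ℕ → ℚ := fun t => if four t then 1 + e t else F t
  have hg : ∀ i, g (i + d) = g i := by
    intro i
    simp only [g, h4p, hFp, hep]
  have p1 : ∀ i k, i + d + k = i + k + d := fun i k => by omega
  have hA : ∀ i, A (i + d) = A i := by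
    intro i
    simp only [A, p1, h4p, hRp, hep]
  have hB : ∀ i, B (i + d) = B i := by
    intro i
    simp only [B, p1, h4p, hLp, hep]
  have key : ∀ i, g (i + 1 + 1) + A i + B (i + 1) ≤ 1 + A (i + 1) + B i := by
    intro i
    simp only [g, A, B]
    have e1 : i + 1 + 1 = i + 2 := rfl
    have e2 : i + 1 + 2 = i + 3 := rfl
    have e3 : i + 1 + 3 = i + 4 := rfl
    rw [e1, e2, e3]
    by_cases c2 : four (i + 2)
    · have c3 : ¬ four (i + 3) := h44 _ c2
      have c1 : ¬ four (i + 1) := fun c1 => h44 _ c1 c2
      simp only [if_pos c2, if_neg c1, if_neg c3]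
      linarith
    · have h1 := h i c2
      simp only [if_neg c2]
      linarith
  have h1 := transfer_sum (g := fun i => g (i + 1)) (a := A) (b := B)
    (fun i => by
      change g (i + d + 1) = g (i + 1)
      rw [p1, hg]) hA hB key
  rw [BigSum.sum_shift hg 1] at h1
  exact h1

/-! ### The hub -/

open ST ST.LB

variable {V : Type} [Fintype V]

/-- The excess over 1. -/
def exV (q : ℚ) : ℚ := max (q - 1) 0

/-- What `v` sends towards `y`; its other neighbour in the link of the hub is `y'`. -/
def snd4 (E : Env V) (F : V → ℚ) (v y y' : V) : ℚ :=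
  if E.D y = 4 then
    (if E.D y' = 4 then min (exV (F v) / 2) (1 / 2) else min (exV (F v) / 2) (2 / 5))
  else (if E.D y' = 4 then max (exV (F v) / 2) (exV (F v) - 2 / 5) else exV (F v) / 2)

/-- **The local inequality** at the neighbour `v` of the hub; the order in the link of the hub is
`w', z', y', v, y, z, w`. `F` is what the vertices give, `e` what the vertices of degree 4 give in
addition. -/
def HLoc (E : Env V) (F e : V → ℚ) (v y z w y' z' w' : V) : Prop :=
  F v - 1 + (if E.D y = 4 then snd4 E F z y w + e y / 2 else snd4 E F y v z) +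
      (if E.D y' = 4 then snd4 E F z' y' w' + e y' / 2 else snd4 E F y' v z') ≤
    snd4 E F v y y' + snd4 E F v y' y

/-- The amount for a hub of weight 4. -/
noncomputable def big4 (E : Env V) (gk : V → ℤ) (u : V) : ℚ := 4 * term E gk u

open Classical in
/-- 1 if `m` gives 1 more to `x`. -/
noncomputable def bigE (E : Env V) (x m : V) : ℚ := if m ∈ midS E ∧ oppM E m = x then 1 else 0

section snd

omit [Fintype V]

variable {E : Env V} {F : V → ℚ} {v y y' : V}

theorem exV_nonneg (q : ℚ) : 0 ≤ exV q := le_max_right _ _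

theorem exV_mono {q r : ℚ} (h : q ≤ r) : exV q ≤ exV r :=
  max_le_max_right 0 (by linarith)

theorem snd4_nonneg : 0 ≤ snd4 E F v y y' := by
  have h := exV_nonneg (F v)
  unfold snd4
  split_ifs
  · exact le_min (by linarith) (by norm_num)
  · exact le_min (by linarith) (by norm_num)
  · exact le_max_of_le_left (by linarith)
  · linarith

/-- Everything is sent, except that at most 1 is sent across two vertices of degree 4. -/
theorem snd4_add (h : E.D y = 4 → E.D y' ≠ 4) :
    snd4 E F v y y' + snd4 E F v y' y = exV (F v) := by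
  unfold snd4
  by_cases h1 : E.D y = 4
  · have h2 := h h1
    simp only [h1, h2, if_true, if_false]
    rcases le_total (exV (F v) / 2) (2 / 5) with h3 | h3
    · rw [min_eq_left h3, max_eq_left (by linarith)]
      ring
    · rw [min_eq_right h3, max_eq_right (by linarith)]
      ring
  · by_cases h2 : E.D y' = 4
    · simp only [h1, h2, if_true, if_false]
      rcases le_total (exV (F v) / 2) (2 / 5) with h3 | h3
      · rw [min_eq_left h3, max_eq_left (by linarith)]
        ring
      · rw [min_eq_right h3, max_eq_right (by linarith)]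
        ring
    · simp only [h1, h2, if_false]
      ring

/-- Everything is sent if it is at most 1. -/
theorem snd4_add' (h : exV (F v) ≤ 1) : snd4 E F v y y' + snd4 E F v y' y = exV (F v) := by
  by_cases h1 : E.D y = 4 ∧ E.D y' = 4
  · unfold snd4
    rw [if_pos h1.1, if_pos h1.2, if_pos h1.1, if_pos h1.2, min_eq_left (by linarith)]
    ring
  · exact snd4_add fun h2 h3 => h1 ⟨h2, h3⟩

theorem min_le_snd4_add : min (exV (F v)) 1 ≤ snd4 E F v y y' + snd4 E F v y' y := by
  rcases le_total (exV (F v)) 1 with h | h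
  · rw [snd4_add' h]
    exact min_le_left _ _
  · by_cases h1 : E.D y = 4 ∧ E.D y' = 4
    · unfold snd4
      rw [if_pos h1.1, if_pos h1.2, if_pos h1.1, if_pos h1.2, min_eq_right (by linarith)]
      have h4 : min (exV (F v)) 1 ≤ 1 := min_le_right _ _
      have h5 : (1 / 2 : ℚ) ≤ exV (F v) / 2 := by linarith
      rw [min_eq_right h5]
      linarith
    · rw [snd4_add fun h2 h3 => h1 ⟨h2, h3⟩]
      exact min_le_left _ _

/-- At most one half is sent across a vertex of degree 4. -/
theorem snd4_le_half (h : E.D y = 4) : snd4 E F v y y' ≤ exV (F v) / 2 := by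
  unfold snd4
  rw [if_pos h]
  split_ifs
  · exact min_le_left _ _
  · exact min_le_left _ _

/-- At most 1/2 is sent across a vertex of degree 4. -/
theorem snd4_le_half' (h : E.D y = 4) : snd4 E F v y y' ≤ 1 / 2 := by
  unfold snd4
  rw [if_pos h]
  split_ifs
  · exact min_le_right _ _
  · exact (min_le_right _ _).trans (by norm_num)

theorem snd4_le_max : snd4 E F v y y' ≤ max (exV (F v) / 2) (exV (F v) - 2 / 5) := by
  unfold snd4
  split_ifs
  · exact (min_le_left _ _).trans (le_max_left _ _)
  · exact (min_le_left _ _).trans (le_max_left _ _)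
  · exact le_rfl
  · exact le_max_left _ _

theorem snd4_le : snd4 E F v y y' ≤ exV (F v) := by
  have h := exV_nonneg (F v)
  exact snd4_le_max.trans (max_le (by linarith) (by linarith))

theorem snd4_zero (h : F v ≤ 1) : snd4 E F v y y' = 0 := by
  have h1 : exV (F v) = 0 := max_eq_right (by linarith)
  have h2 : snd4 E F v y y' ≤ exV (F v) := snd4_le
  exact le_antisymm (h1 ▸ h2) snd4_nonneg

end snd

theorem kap_big {E : Env V} (hK : KapOK E) {x : V} (hx : E.I x) (h12 : 12 ≤ E.D x) :
    E.kap x ≤ -6 := by
  have := hK.half x hx (by omega)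
  omega

theorem wt_big {E : Env V} (hK : KapOK E) {x : V} (hx : E.I x) (h12 : 12 ≤ E.D x) :
    wt (E.kap x) = 4 := by
  have := kap_big hK hx h12
  unfold wt
  omega

theorem term_four {E : Env V} (hK : KapOK E) {gk : V → ℤ} {u : V} (h : E.D u = 4) :
    term E gk u = 0 := by
  unfold term
  rw [if_neg]
  rintro ⟨_, h1, _⟩
  rw [hK.four u h] at h1
  exact lt_irrefl _ h1

open Classical in
/-- The final charge of the hub from the sum over the rotation. -/
theorem finB_of_sum {E : Env V} (hK : KapOK E) {x : V} (hx : E.I x) (h12 : 12 ≤ E.D x)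
    {ν : ℕ → V} (hν : Rotn E.H E.T x (E.D x) ν) (gk : V → ℤ)
    (hs : ∑ t ∈ range (E.D x), (if E.D (ν t) = 4 then 1 + bigE E x (ν t)
      else big4 E gk (ν t)) ≤ E.D x) :
    FinB E gk (fun y => pcnt (midS E) (oppM E) y) x := by
  have hk := kap_big hK hx h12
  refine ⟨fun _ => ?_, fun h => ?_, fun h => ?_⟩
  · have h1 : (pcnt (midS E) (oppM E) x : ℚ) = ∑ t ∈ range (E.D x), bigE E x (ν t) := by
      rw [← hν.sum_adj (fun u => bigE E x u)]
      unfold bigE
      rw [pcnt, ← Finset.sum_filter, Finset.sum_const, nsmul_eq_mul, mul_one,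
        Finset.filter_filter]
      congr 2
      ext m
      simp only [Finset.mem_filter, Finset.mem_univ, true_and]
      constructor
      · rintro ⟨h2, h3⟩
        refine ⟨?_, h2, h3⟩
        have h5 := midS_opp h2
        rw [h3] at h5
        exact h5.symm
      · rintro ⟨_, h2, h3⟩
        exact ⟨h2, h3⟩
    have h2 : (E.kap x : ℚ) = 12 - 2 * (E.D x : ℚ) +
        ∑ t ∈ range (E.D x), if E.D (ν t) = 4 then (1 : ℚ) else 0 := by
      rw [hK.inn x hx (by omega) ν hν, Finset.card_filter]
      push_cast
      rfl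
    have h3 : ∑ t ∈ range (E.D x), (if E.D (ν t) = 4 then 1 + bigE E x (ν t)
        else big4 E gk (ν t)) = ∑ t ∈ range (E.D x), big4 E gk (ν t) +
        ∑ t ∈ range (E.D x), bigE E x (ν t) +
        ∑ t ∈ range (E.D x), (if E.D (ν t) = 4 then (1 : ℚ) else 0) := by
      rw [← Finset.sum_add_distrib, ← Finset.sum_add_distrib]
      apply Finset.sum_congr rfl
      intro t _
      by_cases h4 : E.D (ν t) = 4
      · rw [if_pos h4, if_pos h4, big4, term_four hK h4]
        ring
      · rw [if_neg h4, if_neg h4]
        have h5 : bigE E x (ν t) = 0 := by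
          unfold bigE
          rw [if_neg]
          rintro ⟨h6, _⟩
          exact h4 (midS_four h6)
        rw [h5]
        ring
    rw [h3] at hs
    have h4 : ∑ t ∈ range (E.D x), big4 E gk (ν t) =
        (∑ u ∈ univ.filter (fun u => E.H.Adj x u), term E gk u) * 4 := by
      rw [hν.sum_adj, Finset.sum_mul]
      apply Finset.sum_congr rfl
      intro t _
      unfold big4
      ring
    have h5 : (12 : ℚ) ≤ (E.D x : ℚ) := by exact_mod_cast h12
    rw [wt_big hK hx h12, h1, h2]
    push_cast
    linarith
  · exact absurd h (by omega)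
  · exact absurd h (by omega)

/-- **Big hubs.** The local inequality at all the neighbours implies that the final charge is not
positive. -/
theorem finB_of_hloc {E : Env V} (hK : KapOK E)
    (h44 : ∀ x y, E.H.Adj x y → E.D x = 4 → E.D y ≠ 4)
    {x : V} (hx : E.I x) (h12 : 12 ≤ E.D x) (gk : V → ℤ)
    (hloc : ∀ v y z w y' z' w', E.H.Adj x v → E.D v ≠ 4 → E.T x v y → E.T x v y' → y ≠ y' →
      E.T x y z → z ≠ v → E.T x z w → w ≠ y → E.T x y' z' → z' ≠ v → E.T x z' w' → w' ≠ y' →
      HLoc E (big4 E gk) (bigE E x) v y z w y' z' w') :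
    FinB E gk (fun y => pcnt (midS E) (oppM E) y) x := by
  obtain ⟨ν, hν⟩ := E.ex x hx
  refine finB_of_sum hK hx h12 (hν.tShift 1) gk ?_
  have h3 := hν.three
  have per : ∀ i k, ν (i + E.D x + k) = ν (i + k) := by
    intro i k
    rw [show i + E.D x + k = i + k + E.D x by omega]
    exact hν.per _
  refine flow_sum (d := E.D x) (four := fun t => E.D (ν (t + 1)) = 4)
    (F := fun t => big4 E gk (ν (t + 1))) (e := fun t => bigE E x (ν (t + 1)))
    (R := fun t => snd4 E (big4 E gk) (ν (t + 1)) (ν (t + 2)) (ν t))
    (L := fun t => snd4 E (big4 E gk) (ν (t + 1)) (ν t) (ν (t + 2))) ?_ ?_ ?_ ?_ ?_ ?_ ?_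
  · intro i
    simp only [per]
  · intro i
    simp only [per]
  · intro i
    simp only [per]
  · intro i
    simp only [per, hν.per]
  · intro i
    simp only [per, hν.per]
  · intro i h1 h2
    exact h44 _ _ (E.adjT _ _ _ (E.rot _ _ _ (hν.tri_next (i + 1)))) h1 h2
  · intro i h1
    have h5 := hloc (ν (i + 3)) (ν (i + 4)) (ν (i + 5)) (ν (i + 6)) (ν (i + 2)) (ν (i + 1))
      (ν i) (hν.adj_nu _) h1 ((hν.tri (i + 2) _).2 (Or.inr rfl))
      ((hν.tri (i + 2) _).2 (Or.inl rfl)) (hν.ne (by omega) (by omega)).symm
      ((hν.tri (i + 3) _).2 (Or.inr rfl)) (hν.ne (by omega) (by omega)).symm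
      ((hν.tri (i + 4) _).2 (Or.inr rfl)) (hν.ne (by omega) (by omega)).symm
      ((hν.tri (i + 1) _).2 (Or.inl rfl)) (hν.ne (by omega) (by omega))
      ((hν.tri i _).2 (Or.inl rfl)) (hν.ne (by omega) (by omega))
    exact h5

end Pool.Agent.W986
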