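import Pool.Agent.W986.SubBigB
import Pool.Agent.W986.SubBigG
import Pool.Agent.W986.SubMidB

/-!
# Big hubs, the soundness of the test in the leaves
-/

set_option autoImplicit false

open Finset

namespace Pool.Agent.W986.ST.LB

open Pool.Agent.W986 Pool.Agent.W986.ST

variable {V : Type} {E : Env V} {P : Patch} {f : ℕ → V}

theorem othK_spec (h : E.Sat P f) {y p : ℕ} {k : ℕ → Bool} (hk : othK P y p k = true) :
    ∃ b, k b = true ∧ E.T (f 0) (f y) (f p) ∧
      ∀ z, E.T (f 0) (f y) z → z ≠ f p → z = f b := by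
  unfold othK at hk
  rw [frcH_eq, frc_eq, frc_eq, len_eq] at hk
  set l := findL P.lk y with hl
  cases hj : Nat.blt (posn l 0) l.length with
  | false =>
    rw [hj, cf_false] at hk
    exact absurd hk Bool.false_ne_true
  | true =>
    rw [hj, cf_true, frc_eq, frc_eq] at hk
    have hj : posn l 0 < l.length := Nat.le_of_ble_eq_true hj
    have hne : l ≠ [] := by
      intro h0
      rw [h0] at hj
      simp at hj
    have hn : nil l = false := nil_of_ne hne
    have h1 := posn_spec l 0 hj
    have hrot := (link h hn).2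
    have h3 := (link h hn).three
    set j := posn l 0 with hjd
    have key : ∀ z, E.T (f 0) (f y) z ↔ z = f (lnth l ((j + (l.length - 1)) % l.length)) ∨
        z = f (lnth l ((j + 1) % l.length)) := by
      intro z
      have h4 := hrot.tri (j + (l.length - 1)) z
      have e1 : (j + (l.length - 1) + 1) % l.length = j := by
        rw [show j + (l.length - 1) + 1 = j + l.length by omega, Nat.add_mod_right,
          Nat.mod_eq_of_lt hj]
      have e2 : (j + (l.length - 1) + 2) % l.length = (j + 1) % l.length := by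
        rw [show j + (l.length - 1) + 2 = (j + 1) + l.length by omega, Nat.add_mod_right]
      simp only [← hl] at h4
      rw [e1, e2, h1] at h4
      exact ⟨fun h5 => h4.1 (E.swap _ _ _ h5), fun h5 => E.swap _ _ _ (h4.2 h5)⟩
    change cf (Nat.beq (lnth l ((j + 1) % l.length)) p)
      (k (lnth l ((j + (l.length - 1)) % l.length)))
      (cf (Nat.beq (lnth l ((j + (l.length - 1)) % l.length)) p)
        (k (lnth l ((j + 1) % l.length))) false) = true at hk
    cases ha : Nat.beq (lnth l ((j + 1) % l.length)) p with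
    | true =>
      rw [ha, cf_true] at hk
      have ha := Nat.eq_of_beq_eq_true ha
      rw [ha] at key
      refine ⟨_, hk, (key _).2 (Or.inr rfl), fun z hz hzp => ?_⟩
      rcases (key z).1 hz with h5 | h5
      · exact h5
      · exact absurd h5 hzp
    | false =>
      rw [ha, cf_false] at hk
      cases hb : Nat.beq (lnth l ((j + (l.length - 1)) % l.length)) p with
      | true =>
        rw [hb, cf_true] at hk
        have hb := Nat.eq_of_beq_eq_true hb
        rw [hb] at key
        refine ⟨_, hk, (key _).2 (Or.inl rfl), fun z hz hzp => ?_⟩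
        rcases (key z).1 hz with h5 | h5
        · exact absurd h5 hzp
        · exact h5
      | false =>
        rw [hb, cf_false] at hk
        exact absurd hk Bool.false_ne_true

theorem farN_spec (hK : KapOK E) (h : E.Sat P f) {y p : ℕ} (hf : farN P y p = true) :
    ∀ z, E.T (f 0) (f y) z → z ≠ f p → E.D z ≠ 4 := by
  obtain ⟨b, h1, _, h2⟩ := othK_spec h hf
  intro z hz hzp
  rw [h2 z hz hzp]
  refine not_four hK h ?_
  cases h3 : p4 P b with
  | false => rfl
  | true =>
    rw [h3, cf_true] at h1
    exact absurd h1 Bool.false_ne_true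

section rule

variable [Fintype V] {gk : V → ℤ}

theorem term_le_div {u : V} {a D : ℕ} (hp : E.I u → 0 < E.kap u → gk u ≤ a)
    (hW : a ≠ 0 → 0 < D ∧ D ≤ Wsum E.H (fun y => wt (E.kap y)) u) :
    term E gk u ≤ (a : ℚ) / D := by
  rw [term]
  split_ifs with h4
  · have h5 : ((gk u : ℤ) : ℚ) ≤ (a : ℚ) := by exact_mod_cast hp h4.1 h4.2.1
    rcases Nat.eq_zero_or_pos a with h6 | h6
    · subst h6
      rw [Nat.cast_zero, zero_div]
      rw [Nat.cast_zero] at h5
      exact div_nonpos_of_nonpos_of_nonneg h5 (by positivity)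
    · obtain ⟨h7, h8⟩ := hW (by omega)
      have h9 : (0 : ℚ) < (D : ℚ) := by exact_mod_cast h7
      have h10 : (D : ℚ) ≤ (Wsum E.H (fun y => wt (E.kap y)) u : ℚ) := by exact_mod_cast h8
      exact div_le_div₀ (by positivity) h5 h9 h10
  · positivity

theorem fN_le (hK : KapOK E) (h : E.Sat P f) (hgk : ∀ u, gk u ≤ E.kap u)
    (hctr : ∀ u, ctrU P u = true → gk (f u) ≤ E.kap (f u) - 1) (u : ℕ) :
    ∃ a : ℕ, fN P u = 4 * a ∧ (E.I (f u) → 0 < E.kap (f u) → gk (f u) ≤ a) := by
  have h0 := pos_le hK h u
  refine ⟨cf (ctrU P u) (Nat.sub (pos P u) 1) (pos P u), by rw [fN, frc_eq]; rfl, ?_⟩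
  intro _ h2
  cases hc : ctrU P u with
  | true =>
    rw [cf_true]
    have h3 := hctr u hc
    have h4 : ((pos P u - 1 : ℕ) : ℤ) = (pos P u : ℤ) - 1 := by omega
    change gk (f u) ≤ ((pos P u - 1 : ℕ) : ℤ)
    omega
  | false =>
    rw [cf_false]
    exact (hgk _).trans h0

/-- The bound for the amount, from a weight sum. -/
theorem big4_le_of (hK : KapOK E) (h : E.Sat P f) (hgk : ∀ u, gk u ≤ E.kap u)
    (hctr : ∀ u, ctrU P u = true → gk (f u) ≤ E.kap (f u) - 1) {u D : ℕ}
    (hW : fN P u ≠ 0 → 0 < D ∧ D ≤ Wsum E.H (fun y => wt (E.kap y)) (f u)) :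
    big4 E gk (f u) ≤ (fN P u : ℚ) / D := by
  obtain ⟨a, h1, h2⟩ := fN_le hK h hgk hctr u
  have h3 := term_le_div (E := E) (gk := gk) (u := f u) (a := a) (D := D) h2
    (fun h4 => hW (by omega))
  rw [big4, h1]
  push_cast
  rw [mul_div_assoc]
  linarith

theorem big4_le_fD (hK : KapOK E) (h : E.Sat P f) (hgk : ∀ u, gk u ≤ E.kap u)
    (hctr : ∀ u, ctrU P u = true → gk (f u) ≤ E.kap (f u) - 1) (h0 : 4 ≤ neg P 0) {u : ℕ}
    (hadj : E.H.Adj (f u) (f 0)) : big4 E gk (f u) ≤ (fN P u : ℚ) / fD P u := by
  refine big4_le_of hK h hgk hctr fun _ => ?_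
  rw [fD, mx_eq]
  refine ⟨by omega, max_le (sw_le hK h u) ?_⟩
  have h1 := neg_le hK h 0 (by omega)
  have h2 : wt (E.kap (f 0)) = 4 := by
    unfold wt
    omega
  classical
  unfold Wsum
  have h3 : (fun y => wt (E.kap y)) (f 0) ≤
      ∑ y ∈ univ.filter (fun y => E.H.Adj (f u) y), wt (E.kap y) :=
    Finset.single_le_sum (f := fun y => wt (E.kap y)) (fun _ _ => Nat.zero_le _)
      (mem_filter.2 ⟨mem_univ _, hadj⟩)
  exact h2 ▸ h3

theorem fD_pos (u : ℕ) : 0 < fD P u := by
  rw [fD, mx_eq]
  omega

/-- The bound for the excess. -/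
theorem exV_le_div {q : ℚ} {n d : ℕ} (hd : 0 < d) (h : q ≤ (n : ℚ) / d) :
    exV q ≤ ((n - d : ℕ) : ℚ) / d := by
  have hd' : (0 : ℚ) < d := by exact_mod_cast hd
  unfold exV
  refine max_le ?_ (by positivity)
  rcases le_total n d with h1 | h1
  · have h2 : (n : ℚ) / d ≤ 1 := by
      rw [div_le_one hd']
      exact_mod_cast h1
    have h3 : (0 : ℚ) ≤ ((n - d : ℕ) : ℚ) / d := by positivity
    linarith
  · rw [Nat.cast_sub h1, sub_div, div_self hd'.ne']
    linarith

theorem mayE_intro (hK : KapOK E) (h : E.Sat P f) {y z : ℕ} (h1 : E.T (f 0) (f y) (f 1))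
    (hz : E.T (f 0) (f y) (f z)) (hm : f y ∈ midS E) (ho : oppM E (f y) = f 0) :
    mayE P y z = true := by
  have key : ∀ b, E.T (f 0) (f y) (f b) → mayD P 7 13 b = true := by
    intro b hb
    have h2 := midS_flank hm (y := f b) (by rw [ho]; exact E.swap _ _ _ hb)
    exact mayD_intro hK h (by norm_num) (by norm_num) h2.1 (h2.2.trans (by norm_num))
  exact an_intro (key 1 h1) (an_intro (key z hz) (mayM_intro hK h hm ho))

theorem bigE_le_one (x m : V) : bigE E x m ≤ 1 := by
  unfold bigE
  split_ifs <;> norm_num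

/-- What arrives at the label 1. -/
theorem arr_spec (hK : KapOK E) (h : E.Sat P f) (hgk : ∀ u, gk u ≤ E.kap u)
    (hctr : ∀ u, ctrU P u = true → gk (f u) ≤ E.kap (f u) - 1) (h0 : 4 ≤ neg P 0) {y : ℕ}
    {k : ℕ → ℕ → Bool} (hk : arr P y k = true) :
    ∃ n d : ℕ, 0 < d ∧ k n d = true ∧ ∀ z w, E.T (f 0) (f y) z → z ≠ f 1 → E.T (f 0) z w →
      w ≠ f y → (if E.D (f y) = 4 then snd4 E (big4 E gk) z (f y) w + bigE E (f 0) (f y) / 2
        else snd4 E (big4 E gk) (f y) (f 1) z) ≤ (n : ℚ) / d := by
  unfold arr at hk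
  cases h4 : p4 P y with
  | true =>
    rw [h4, cf_true] at hk
    cases hl : Nat.beq (len (findL P.lk y)) 4 with
    | false =>
      rw [hl, cf_false] at hk
      exact absurd hk Bool.false_ne_true
    | true =>
      rw [hl, cf_true] at hk
      have hl := Nat.eq_of_beq_eq_true hl
      rw [len_eq] at hl
      have hD : E.D (f y) = 4 := by
        rw [← deg_len h (nil_of_len hl (by norm_num)), hl]
      obtain ⟨b, hk, h1, hb⟩ := othK_spec h hk
      rw [frc_eq, frc_eq, frc_eq] at hk
      set d := fD P b with hd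
      have hd0 : 0 < d := fD_pos b
      set e := Nat.sub (fN P b) d with he
      set n := cf (farN P b y) (mn (Nat.mul 5 e) (Nat.mul 4 d)) (mn (Nat.mul 5 e) (Nat.mul 5 d))
        with hn
      have hdq : (0 : ℚ) < d := by exact_mod_cast hd0
      have h10 : (0 : ℕ) < Nat.mul 10 d := by
        change 0 < 10 * d
        omega
      have hc10 : ((Nat.mul 10 d : ℕ) : ℚ) = 10 * d := by
        change ((10 * d : ℕ) : ℚ) = _
        push_cast
        ring
      -- the amount across `y`
      have hamt : ∀ z w, E.T (f 0) (f y) z → z ≠ f 1 → E.T (f 0) z w → w ≠ f y →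
          snd4 E (big4 E gk) z (f y) w ≤ (n : ℚ) / (10 * d) := by
        intro z w hz hz1 hw hwy
        have hzb := hb z hz hz1
        subst hzb
        have hadj : E.H.Adj (f b) (f 0) := (E.adjT _ _ _ hw).symm
        have h5 := exV_le_div hd0 (big4_le_fD hK h hgk hctr h0 hadj)
        have h5 : exV (big4 E gk (f b)) ≤ (e : ℚ) / d := h5
        have h6 : exV (big4 E gk (f b)) / 2 ≤ (5 * e : ℚ) / (10 * d) := by
          have : (5 * e : ℚ) / (10 * d) = (e : ℚ) / d / 2 := by
            field_simp
            ring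
          rw [this]
          linarith
        have h7 : (5 * d : ℚ) / (10 * d) = 1 / 2 := by
          field_simp
          ring
        have h8 : (4 * d : ℚ) / (10 * d) = 2 / 5 := by
          field_simp
          ring
        cases hf : farN P b y with
        | true =>
          have hw4 := farN_spec hK h hf w hw hwy
          have hn' : n = min (5 * e) (4 * d) := by
            rw [hn, hf, cf_true, mn_eq]
            rfl
          have h9 : (n : ℚ) = min (5 * e : ℚ) (4 * d : ℚ) := by
            rw [hn']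
            push_cast
            rfl
          unfold snd4
          rw [if_pos hD, if_neg hw4, h9]
          rcases le_total (5 * e : ℚ) (4 * d : ℚ) with h11 | h11
          · rw [min_eq_left h11]
            exact (min_le_left _ _).trans h6
          · rw [min_eq_right h11, h8]
            exact min_le_right _ _
        | false =>
          have hn' : n = min (5 * e) (5 * d) := by
            rw [hn, hf, cf_false, mn_eq]
            rfl
          have h9 : (n : ℚ) = min (5 * e : ℚ) (5 * d : ℚ) := by
            rw [hn']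
            push_cast
            rfl
          rw [h9]
          rcases le_total (5 * e : ℚ) (5 * d : ℚ) with h11 | h11
          · rw [min_eq_left h11]
            exact (snd4_le_half hD).trans h6
          · rw [min_eq_right h11, h7]
            exact snd4_le_half' hD
      cases hm : mayE P y b with
      | true =>
        rw [hm, cf_true] at hk
        refine ⟨_, _, h10, hk, fun z w hz hz1 hw hwy => ?_⟩
        rw [if_pos hD, hc10]
        have h5 := hamt z w hz hz1 hw hwy
        have h6 := bigE_le_one (E := E) (f 0) (f y)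
        have h7 : ((Nat.add n (Nat.mul 5 d) : ℕ) : ℚ) / (10 * d) = (n : ℚ) / (10 * d) + 1 / 2 := by
          change ((n + 5 * d : ℕ) : ℚ) / (10 * d) = _
          push_cast
          field_simp
          ring
        rw [h7]
        linarith
      | false =>
        rw [hm, cf_false] at hk
        refine ⟨_, _, h10, hk, fun z w hz hz1 hw hwy => ?_⟩
        rw [if_pos hD, hc10]
        have h5 := hamt z w hz hz1 hw hwy
        have h6 : bigE E (f 0) (f y) = 0 := by
          unfold bigE
          rw [if_neg]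
          rintro ⟨h7, h8⟩
          have hzb := hb z hz hz1
          rw [mayE_intro hK h h1 (hzb ▸ hz) h7 h8] at hm
          exact Bool.false_ne_true hm.symm
        rw [h6]
        linarith
  | false =>
    rw [h4, cf_false, frc_eq, frc_eq] at hk
    have hD : E.D (f y) ≠ 4 := not_four hK h h4
    set d := fD P y with hd
    have hd0 : 0 < d := fD_pos y
    set e := Nat.sub (fN P y) d with he
    have hdq : (0 : ℚ) < d := by exact_mod_cast hd0
    have hex : ∀ z, E.T (f 0) (f y) z → exV (big4 E gk (f y)) ≤ (e : ℚ) / d := by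
      intro z hz
      exact exV_le_div hd0 (big4_le_fD hK h hgk hctr h0 (E.adjT _ _ _ hz).symm)
    cases hf : farN P y 1 with
    | true =>
      rw [hf, cf_true] at hk
      refine ⟨_, _, ?_, hk, fun z w hz hz1 _ _ => ?_⟩
      · change 0 < 2 * d
        omega
      · have hz4 := farN_spec hK h hf z hz hz1
        have h5 := hex z hz
        rw [if_neg hD]
        have h6 : snd4 E (big4 E gk) (f y) (f 1) z ≤ exV (big4 E gk (f y)) / 2 := by
          unfold snd4
          split_ifs with h7
          · exact min_le_left _ _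
          · exact le_rfl
        have h7 : ((Nat.mul 2 d : ℕ) : ℚ) = 2 * d := by
          change ((2 * d : ℕ) : ℚ) = _
          push_cast
          ring
        rw [h7]
        have h8 : (e : ℚ) / (2 * d) = (e : ℚ) / d / 2 := by
          field_simp
        rw [h8]
        linarith
    | false =>
      rw [hf, cf_false] at hk
      refine ⟨_, _, ?_, hk, fun z w hz hz1 _ _ => ?_⟩
      · change 0 < 10 * d
        omega
      · have h5 := hex z hz
        rw [if_neg hD]
        have h6 : snd4 E (big4 E gk) (f y) (f 1) z ≤ _ := snd4_le_max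
        refine h6.trans ?_
        have h7 : ((Nat.mul 10 d : ℕ) : ℚ) = 10 * d := by
          change ((10 * d : ℕ) : ℚ) = _
          push_cast
          ring
        have h8 : ((mx (Nat.mul 5 e) (Nat.sub (Nat.mul 10 e) (Nat.mul 4 d)) : ℕ) : ℚ) =
            max (5 * e : ℚ) ((10 * e - 4 * d : ℕ) : ℚ) := by
          rw [mx_eq]
          change ((max (5 * e) (10 * e - 4 * d) : ℕ) : ℚ) = _
          rw [Nat.cast_max]
          push_cast
          rfl
        rw [h7, h8]
        have h9 : (5 * e : ℚ) / (10 * d) = (e : ℚ) / d / 2 := by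
          field_simp
          ring
        have h11 : (10 * e - 4 * d : ℚ) / (10 * d) = (e : ℚ) / d - 2 / 5 := by
          field_simp
          ring
        have h12 : (0 : ℚ) < 10 * d := by positivity
        refine max_le ?_ ?_
        · refine le_trans ?_ ((div_le_div_iff_of_pos_right h12).2 (le_max_left _ _))
          rw [h9]
          linarith
        · refine le_trans ?_ ((div_le_div_iff_of_pos_right h12).2 (le_max_right _ _))
          have h13 : (10 * e - 4 * d : ℚ) ≤ ((10 * e - 4 * d : ℕ) : ℚ) := by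
            rcases le_total (4 * d) (10 * e) with h14 | h14
            · rw [Nat.cast_sub h14]
              push_cast
              linarith
            · have h15 : (10 * e : ℚ) ≤ 4 * d := by exact_mod_cast h14
              have h16 : (0 : ℚ) ≤ ((10 * e - 4 * d : ℕ) : ℚ) := by positivity
              linarith
          refine le_trans ?_ ((div_le_div_iff_of_pos_right h12).2 h13)
          rw [h11]
          linarith

/-- **The soundness of `leafG`.** -/
theorem leafG_spec (hK : KapOK E) (h : E.Sat P f) (hgk : ∀ u, gk u ≤ E.kap u)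
    (hctr : ∀ u, ctrU P u = true → gk (f u) ≤ E.kap (f u) - 1) (hl : leafG P = true)
    {z w z' w' : V} (hz : E.T (f 0) (f 2) z) (hz1 : z ≠ f 1) (hw : E.T (f 0) z w)
    (hw2 : w ≠ f 2) (hz' : E.T (f 0) (f 3) z') (hz1' : z' ≠ f 1) (hw' : E.T (f 0) z' w')
    (hw3 : w' ≠ f 3) :
    HLoc E (big4 E gk) (bigE E (f 0)) (f 1) (f 2) z w (f 3) z' w' := by
  unfold leafG at hl
  cases hI : leafI P with
  | true => exact absurd h (leafI_sound hK hI)
  | false =>
  rw [hI, cf_false] at hl
  cases h0 : Nat.ble 4 (neg P 0) with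
  | false =>
    rw [h0, cf_false] at hl
    exact absurd hl Bool.false_ne_true
  | true =>
  rw [h0, cf_true] at hl
  have h0 := Nat.le_of_ble_eq_true h0
  cases hn : nil (findL P.lk 1) with
  | true =>
    rw [hn, cf_true] at hl
    exact absurd hl Bool.false_ne_true
  | false =>
  rw [hn, cf_false, frc_eq, frc_eq] at hl
  set n1 := fN P 1 with hn1
  set d1 := sw P (findL P.lk 1) with hd1
  obtain ⟨hc, hl⟩ := cf_tt hl
  obtain ⟨n2, d2, hd2, hl, hA⟩ := arr_spec hK h hgk hctr h0 hl
  obtain ⟨n3, d3, hd3, hl, hB⟩ := arr_spec hK h hgk hctr h0 hl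
  obtain ⟨hs, hl⟩ := cf_tt hl
  have hA := hA z w hz hz1 hw hw2
  have hB := hB z' w' hz' hz1' hw' hw3
  have hm1 : mx d1 1 = max d1 1 := mx_eq _ _
  set D := mx d1 1 with hDd
  have hDpos : 0 < D := by omega
  have hF : big4 E gk (f 1) ≤ (n1 : ℚ) / D := by
    refine big4_le_of hK h hgk hctr fun h1 => ?_
    have h2 : 0 < d1 := by
      cases h3 : Nat.beq n1 0 with
      | true => exact absurd (Nat.eq_of_beq_eq_true h3) h1
      | false =>
        rw [h3, cf_false] at hc
        exact Nat.le_of_ble_eq_true hc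
    have h3 : D = d1 := by omega
    rw [h3]
    exact ⟨h2, sw_le hK h 1⟩
  have hs : (n2 * d3 + n3 * d2) * D ≤ (D - n1) * (d2 * d3) := Nat.le_of_ble_eq_true hs
  have q2 : (0 : ℚ) < d2 := by exact_mod_cast hd2
  have q3 : (0 : ℚ) < d3 := by exact_mod_cast hd3
  have qD : (0 : ℚ) < D := by exact_mod_cast hDpos
  have hsum : (n2 : ℚ) / d2 + (n3 : ℚ) / d3 ≤ ((D - n1 : ℕ) : ℚ) / D := by
    rw [div_add_div _ _ q2.ne' q3.ne', div_le_div_iff₀ (by positivity) qD]
    have : ((n2 : ℚ) * d3 + d2 * n3) * D = (((n2 * d3 + n3 * d2) * D : ℕ) : ℚ) := by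
      push_cast
      ring
    rw [this]
    have h2 : ((D - n1 : ℕ) : ℚ) * (d2 * d3) = (((D - n1) * (d2 * d3) : ℕ) : ℚ) := by
      push_cast
      ring
    rw [h2]
    exact_mod_cast hs
  unfold HLoc
  rcases le_total n1 D with h1 | h1
  · have h2 : ((D - n1 : ℕ) : ℚ) / D = 1 - (n1 : ℚ) / D := by
      rw [Nat.cast_sub h1, sub_div, div_self qD.ne']
    have h3 : (0 : ℚ) ≤ snd4 E (big4 E gk) (f 1) (f 2) (f 3) := snd4_nonneg
    have h4 : (0 : ℚ) ≤ snd4 E (big4 E gk) (f 1) (f 3) (f 2) := snd4_nonneg
    linarith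
  · have h2 : ((D - n1 : ℕ) : ℚ) / D = 0 := by
      rw [Nat.sub_eq_zero_of_le h1, Nat.cast_zero, zero_div]
    have h3 : big4 E gk (f 1) - 1 ≤ exV (big4 E gk (f 1)) := le_max_left _ _
    have h4 : snd4 E (big4 E gk) (f 1) (f 2) (f 3) + snd4 E (big4 E gk) (f 1) (f 3) (f 2) =
        exV (big4 E gk (f 1)) := by
      cases h5 : an (p4 P 2) (p4 P 3) with
      | true =>
        rw [h5, cf_true] at hl
        have hl : n1 ≤ 2 * D := Nat.le_of_ble_eq_true hl
        refine snd4_add' ?_
        unfold exV
        refine max_le ?_ (by norm_num)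
        have h6 : (n1 : ℚ) / D ≤ 2 := by
          rw [div_le_iff₀ qD]
          exact_mod_cast hl
        linarith
      | false =>
        refine snd4_add fun h6 h7 => ?_
        have h8 : an (p4 P 2) (p4 P 3) = true := by
          refine an_intro ?_ ?_
          · cases h9 : p4 P 2 with
            | true => rfl
            | false => exact absurd h6 (not_four hK h h9)
          · cases h9 : p4 P 3 with
            | true => rfl
            | false => exact absurd h7 (not_four hK h h9)
        rw [h8] at h5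
        exact Bool.false_ne_true h5.symm
    linarith

/-- The soundness of `leafG`, with the exceptional senders. -/
theorem leafG_sound (hK : KapOK E) (h545 : ∀ m y z, E.H.Adj m y → E.H.Adj m z →
    y ≠ z → E.D m = 4 → E.D y = 5 → E.D z ≠ 5) (h : E.Sat P f) (hl : leafG P = true) :
    ∀ z w z' w', E.T (f 0) (f 2) z → z ≠ f 1 → E.T (f 0) z w → w ≠ f 2 → E.T (f 0) (f 3) z' →
      z' ≠ f 1 → E.T (f 0) z' w' → w' ≠ f 3 →
      HLoc E (big4 E (gkM E)) (bigE E (f 0)) (f 1) (f 2) z w (f 3) z' w' := by
  intro z w z' w' hz hz1 hw hw2 hz' hz1' hw' hw3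
  refine leafG_spec hK h (fun u => ?_) (fun u hu => ?_) hl hz hz1 hw hw2 hz' hz1' hw' hw3
  · unfold gkM
    omega
  · have h1 := ctrU_pcnt hK h h545 hu
    unfold gkM
    omega

end rule

end Pool.Agent.W986.ST.LB
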