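import Pool.Agent.W986.SubBigG

/-!
# Big hubs: the root patches

`rootB d`: the label 0 is a hub of degree at least 12, the label 1 its neighbour of degree `d`.
`PhiG`: the local inequality, as a statement about the labels 0, 1, 2, 3. If it holds for all
the realisations of `rootB 5`, ..., `rootB 10` and at the neighbours of degree at least 11 then the
final charge of every vertex of degree at least 12 is not positive.
-/

set_option autoImplicit false

open Finset

namespace Pool.Agent.W986

open ST ST.LB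

variable {V : Type} [Fintype V]

omit [Fintype V] in
theorem HLoc.swap {E : Env V} {F e : V → ℚ} {v y z w y' z' w' : V}
    (h : HLoc E F e v y z w y' z' w') : HLoc E F e v y' z' w' y z w := by
  unfold HLoc at h ⊢
  linarith

/-- The local inequality at the label 1; the hub is the label 0, the labels 2 and 3 are the
neighbours of the label 1 in the link of the hub. -/
def PhiG (E : Env V) (gk : V → ℤ) (f : ℕ → V) : Prop :=
  ∀ z w z' w', E.T (f 0) (f 2) z → z ≠ f 1 → E.T (f 0) z w → w ≠ f 2 →
    E.T (f 0) (f 3) z' → z' ≠ f 1 → E.T (f 0) z' w' → w' ≠ f 3 →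
    HLoc E (big4 E gk) (bigE E (f 0)) (f 1) (f 2) z w (f 3) z' w'

theorem PhiG.congr {E : Env V} {gk : V → ℤ} {f g : ℕ → V} (h : PhiG E gk g)
    (hfg : ∀ i < 4, g i = f i) : PhiG E gk f := by
  unfold PhiG at h ⊢
  rw [hfg 0 (by norm_num), hfg 1 (by norm_num), hfg 2 (by norm_num), hfg 3 (by norm_num)] at h
  exact h

/-- The root patch. -/
def rootB (d : ℕ) : Patch := ⟨d + 1, [(1, 0 :: 2 :: (news (d - 3) 4 ++ [3]))], [(0, 12)], [], []⟩

omit [Fintype V] in
/-- The root patch is realised at every neighbour `v` of degree at least 3 of a hub `x`. -/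
theorem rootB_sat {E : Env V} {x v : V} (h12 : 12 ≤ E.D x) (hv : E.I v) {μ : ℕ → V}
    (h : Rotn E.H E.T v (E.D v) μ) (h0 : μ 0 = x) (h4 : 4 ≤ E.D v) :
    ∃ f, E.Sat (rootB (E.D v)) f ∧ f 0 = x ∧ f 1 = v ∧ f 2 = μ 1 ∧ f 3 = μ (E.D v - 1) := by
  refine ⟨fun i => if i = 0 then x else if i = 1 then v else if i = 2 then μ 1 else
    if i = 3 then μ (E.D v - 1) else μ (i - 2), ⟨⟨?_, ?_⟩, ?_, ?_⟩, rfl, rfl, rfl, rfl⟩
  · intro p hp
    rw [rootB, List.mem_singleton] at hp
    subst hp
    refine ⟨by simpa using hv, ?_⟩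
    have hlen : (0 :: 2 :: (news (E.D v - 3) 4 ++ [3])).length = E.D v := by
      simp only [List.length_cons, List.length_append, length_news, List.length_nil]
      omega
    change Rotn E.H E.T v (0 :: 2 :: (news (E.D v - 3) 4 ++ [3])).length _
    rw [hlen]
    refine h.tExt fun i => ?_
    have h1 : μ i = μ (i % E.D v) := (h.modEq (Nat.mod_modEq i (E.D v))).symm
    have h2 : i % E.D v < E.D v := Nat.mod_lt _ (by omega)
    rw [h1]
    generalize i % E.D v = j at h2
    rcases Nat.lt_or_ge j 1 with h3 | h3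
    · have h4 : j = 0 := by omega
      subst h4
      change μ 0 = _
      rw [h0]
      rfl
    rcases Nat.lt_or_ge j 2 with h5 | h5
    · have h6 : j = 1 := by omega
      subst h6
      rfl
    · obtain ⟨k, rfl⟩ : ∃ k, j = k + 2 := ⟨j - 2, by omega⟩
      have e1 : lnth (0 :: 2 :: (news (E.D v - 3) 4 ++ [3])) (k + 2) =
          lnth (news (E.D v - 3) 4 ++ [3]) k := rfl
      rw [e1]
      rcases Nat.lt_or_ge k (E.D v - 3) with h6 | h6
      · rw [lnth_append_left _ _ _ (by rw [length_news]; exact h6), lnth_news _ _ _ h6]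
        beta_reduce
        rw [if_neg (by omega), if_neg (by omega), if_neg (by omega), if_neg (by omega)]
        congr 1
        omega
      · have h7 : k = (news (E.D v - 3) 4).length + 0 := by
          rw [length_news]
          omega
        have h8 : lnth (news (E.D v - 3) 4 ++ [3]) k = 3 := by
          rw [h7, lnth_append_right]
          rfl
        rw [h8]
        change μ (k + 2) = μ (E.D v - 1)
        congr 1
        omega
  · intro p hp
    rw [rootB, List.mem_singleton] at hp
    subst hp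
    exact h12
  · intro p hp
    exact absurd hp (by simp [rootB])
  · intro p hp
    exact absurd hp (by simp [rootB])

/-- **Big hubs.** -/
theorem finB_of_phiG {E : Env V} (hK : KapOK E)
    (h44 : ∀ x y, E.H.Adj x y → E.D x = 4 → E.D y ≠ 4) {gk : V → ℤ}
    {x : V} (hx : E.I x) (h12 : 12 ≤ E.D x)
    (hbig : ∀ v y z w y' z' w', 11 ≤ E.D v → E.T x v y → E.T x v y' → y ≠ y' →
      E.T x y z → z ≠ v → E.T x z w → w ≠ y → E.T x y' z' → z' ≠ v → E.T x z' w' → w' ≠ y' →
      HLoc E (big4 E gk) (bigE E x) v y z w y' z' w')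
    (hroot : ∀ d, 5 ≤ d → d ≤ 10 → ∀ f, E.Sat (rootB d) f → PhiG E gk f) :
    FinB E gk (fun y => pcnt (midS E) (oppM E) y) x := by
  refine finB_of_hloc hK h44 hx h12 gk ?_
  intro v y z w y' z' w' hxv hv4 hy hy' hne hz hzv hw hwy hz' hzv' hw' hwy'
  rcases Nat.lt_or_ge 10 (E.D v) with h11 | h11
  · exact hbig v y z w y' z' w' h11 hy hy' hne hz hzv hw hwy hz' hzv' hw' hwy'
  · have h4 := E.min4 v
    have hvI : E.I v := E.I_of (by omega)
    obtain ⟨μ, hμ, h0⟩ := E.rot_at hvI hxv.symm
    obtain ⟨f, hf, f0, f1, f2, f3⟩ := rootB_sat h12 hvI hμ h0 h4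
    have hΦ := hroot (E.D v) (by omega) h11 f hf
    unfold PhiG at hΦ
    rw [f0, f1, f2, f3] at hΦ
    have key : ∀ a, E.T x v a → a = μ 1 ∨ a = μ (E.D v - 1) := by
      intro a ha
      have h1 : E.T v x a := E.swap _ _ _ ha
      have h2 : μ (E.D v - 1 + 1) = x := by
        rw [show E.D v - 1 + 1 = 0 + E.D v by omega, hμ.per, h0]
      have h3 := (hμ.tri (E.D v - 1) a).1 (by rw [h2]; exact h1)
      rcases h3 with h3 | h3
      · exact Or.inr h3
      · left
        rw [h3, show E.D v - 1 + 2 = 1 + E.D v by omega, hμ.per]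
    rcases key y hy with h1 | h1 <;> rcases key y' hy' with h2 | h2
    · exact absurd (h1.trans h2.symm) hne
    · rw [h1] at hz hwy ⊢
      rw [h2] at hz' hwy' ⊢
      exact hΦ z w z' w' hz hzv hw hwy hz' hzv' hw' hwy'
    · rw [h1] at hz hwy ⊢
      rw [h2] at hz' hwy' ⊢
      exact (hΦ z' w' z w hz' hzv' hw' hwy' hz hzv hw hwy).swap
    · exact absurd (h1.trans h2.symm) hne

end Pool.Agent.W986
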