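import Pool.Agent.W986.SubBigG

/-!
# Big hubs: the neighbours of degree at least 11

A vertex with two different neighbours of large degree gives at most 3/2 (twice the charge) to
each of them. Hence the local inequality `HLoc` holds at a neighbour `v` of the hub `x` which has
degree at least 11 itself (or is an outer vertex).
-/

set_option autoImplicit false

open Finset

namespace Pool.Agent.W986.BigV

open Pool.Agent.W986 Pool.Agent.W986.ST Pool.Agent.W986.ST.LB

variable {V : Type} {E : Env V}

theorem kap_eleven (hK : KapOK E) {v : V} (hv : 11 ≤ E.D v) : E.kap v ≤ -5 := by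
  by_cases hI : E.I v
  · have := hK.half v hI (by omega)
    omega
  · have := hK.out v hI
    omega

theorem wt_four {k : ℤ} (h : k ≤ -4) : wt k = 4 := by
  unfold wt
  omega

/-- If a vertex of degree 5 has at most one neighbour of degree 4 then no charge is larger than
3 (twice the charge). -/
theorem kap_le_three (hK : KapOK E)
    (h5 : ∀ x y z, E.H.Adj x y → E.H.Adj x z → y ≠ z → E.D x = 5 → E.D y = 4 → E.D z ≠ 4)
    (v : V) : E.kap v ≤ 3 := by
  have h4 := E.min4 v
  rcases Nat.lt_or_ge 5 (E.D v) with h | h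
  · have := hK.bnd v 6 (by norm_num) (by norm_num) h
    omega
  · rcases Nat.lt_or_ge 4 (E.D v) with h6 | h6
    · have hd : E.D v = 5 := by omega
      have hI : E.I v := by
        by_contra h7
        have := E.big v h7
        omega
      obtain ⟨ν, hν⟩ := E.ex v hI
      rw [hK.inn v hI (by omega) ν hν, hd]
      rw [hd] at hν
      have h7 : ((range 5).filter fun i => E.D (ν i) = 4).card ≤ 1 := by
        rw [card_le_one]
        intro i hi j hj
        rw [mem_filter, mem_range] at hi hj
        by_contra hne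
        exact h5 v (ν i) (ν j) (hν.adj_nu i) (hν.adj_nu j)
          (fun h8 => hne (hν.inj i hi.1 j hj.1 h8)) hd hi.2 hj.2
      omega
    · rw [hK.four v (by omega)]
      norm_num

variable [Fintype V] {gk : V → ℤ} {x v u : V}

/-- What a vertex without positive charge gives. -/
theorem term_zero (h : E.kap u ≤ 0) : term E gk u = 0 := by
  rw [term, if_neg]
  rintro ⟨_, h1, _⟩
  omega

/-- Two neighbours of weight 4. -/
theorem eight_le_Wsum (hx : E.kap x ≤ -4) (hv : E.kap v ≤ -4) (hne : x ≠ v)
    (hux : E.H.Adj u x) (huv : E.H.Adj u v) :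
    8 ≤ Wsum E.H (fun y => wt (E.kap y)) u := by
  classical
  rw [Wsum]
  have h1 : ({x, v} : Finset V) ⊆ univ.filter (fun y => E.H.Adj u y) := by
    intro y hy
    rw [mem_insert, mem_singleton] at hy
    rw [mem_filter]
    rcases hy with rfl | rfl
    · exact ⟨mem_univ _, hux⟩
    · exact ⟨mem_univ _, huv⟩
  refine le_trans ?_ (sum_le_sum_of_subset h1)
  rw [sum_pair hne, wt_four hx, wt_four hv]

/-- A vertex with two neighbours of weight 4 gives at most 3/2 to each of them. -/
theorem big4_le (h3 : ∀ u, E.kap u ≤ 3) (hgk : ∀ u, gk u ≤ E.kap u) (hx : E.kap x ≤ -4)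
    (hv : E.kap v ≤ -4) (hne : x ≠ v) (hux : E.H.Adj u x) (huv : E.H.Adj u v) :
    big4 E gk u ≤ 3 / 2 := by
  rw [big4, term]
  split_ifs with h
  · have h1 := eight_le_Wsum hx hv hne hux huv
    have h2 : gk u ≤ 3 := (hgk u).trans (h3 u)
    have h3 : (8 : ℚ) ≤ (Wsum E.H (fun y => wt (E.kap y)) u : ℚ) := by exact_mod_cast h1
    have h4 : (gk u : ℚ) ≤ 3 := by exact_mod_cast h2
    have h5 : (gk u : ℚ) / Wsum E.H (fun y => wt (E.kap y)) u ≤ 3 / 8 := by
      rw [div_le_div_iff₀ (by linarith) (by norm_num)]
      linarith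
    linarith
  · norm_num

/-- The vertices of degree 4 which give more to `x` are not adjacent to vertices of large degree,
except `x`. -/
theorem not_mid {m : V} (hm : E.T x v m) (hv : 11 ≤ E.D v) :
    ¬ (m ∈ midS E ∧ oppM E m = x) := by
  rintro ⟨h1, h2⟩
  have h3 : E.T m (oppM E m) v := by
    rw [h2]
    exact E.rot _ _ _ (E.rot _ _ _ hm)
  have := (midS_flank h1 h3).1
  omega

omit [Fintype V] in
/-- What is sent towards a vertex of degree 4. -/
theorem snd4_four {F : V → ℚ} {y y' : V} (h : E.D y = 4) : snd4 E F v y y' ≤ 1 / 2 := by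
  rw [snd4, if_pos h]
  split_ifs
  · exact min_le_right _ _
  · exact (min_le_right _ _).trans (by norm_num)

omit [Fintype V] in
/-- What is sent towards another vertex if the amount is at most 3/2. -/
theorem snd4_small {F : V → ℚ} {y y' : V} (h : E.D y ≠ 4) (hF : F v ≤ 3 / 2) :
    snd4 E F v y y' ≤ 1 / 2 := by
  have h1 : exV (F v) ≤ 1 / 2 := max_le (by linarith) (by norm_num)
  have h2 : 0 ≤ exV (F v) := le_max_right _ _
  rw [snd4, if_neg h]
  split_ifs
  · exact max_le (by linarith) (by linarith)
  · linarith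

omit [Fintype V] in
theorem snd4_nn {F : V → ℚ} {y y' : V} : 0 ≤ snd4 E F v y y' := by
  have h2 : 0 ≤ exV (F v) := le_max_right _ _
  unfold snd4
  split_ifs
  · exact le_min (by linarith) (by norm_num)
  · exact le_min (by linarith) (by norm_num)
  · exact le_max_of_le_left (by linarith)
  · linarith

open Classical in
/-- What arrives at a neighbour of degree at least 11 from one side. -/
theorem arr_le (hK : KapOK E) (h3 : ∀ u, E.kap u ≤ 3) (hgk : ∀ u, gk u ≤ E.kap u)
    (hx : 11 ≤ E.D x) (hv : 11 ≤ E.D v) {y : V} (z w : V) (hy : E.T x v y) :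
    (if E.D y = 4 then snd4 E (big4 E gk) z y w + bigE E x y / 2
      else snd4 E (big4 E gk) y v z) ≤ 1 / 2 := by
  split_ifs with h
  · rw [bigE, if_neg (not_mid hy hv)]
    have := snd4_four (v := z) (F := big4 E gk) (y' := w) h
    linarith
  · have h1 := kap_eleven hK hx
    have h2 := kap_eleven hK hv
    exact snd4_small (by omega) (big4_le h3 hgk (by omega) (by omega) (E.adjT _ _ _ hy).ne
      (E.adjT _ _ _ (E.rot _ _ _ (E.rot _ _ _ hy))) (E.adjT _ _ _ (E.rot _ _ _ hy)).symm)

/-- **The local inequality at the neighbours of degree at least 11.** -/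
theorem hloc_big (hK : KapOK E) (h3 : ∀ u, E.kap u ≤ 3) (hgk : ∀ u, gk u ≤ E.kap u)
    (hx : 11 ≤ E.D x) (hv : 11 ≤ E.D v) {y y' : V} (z w z' w' : V) (hy : E.T x v y)
    (hy' : E.T x v y') : HLoc E (big4 E gk) (bigE E x) v y z w y' z' w' := by
  have h0 : big4 E gk v = 0 := by
    have := kap_eleven hK hv
    rw [big4, term_zero (by omega), mul_zero]
  have h1 := arr_le (gk := gk) hK h3 hgk hx hv z w hy
  have h2 := arr_le (gk := gk) hK h3 hgk hx hv z' w' hy'
  have h5 := snd4_nn (E := E) (F := big4 E gk) (v := v) (y := y) (y' := y')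
  have h6 := snd4_nn (E := E) (F := big4 E gk) (v := v) (y := y') (y' := y)
  rw [HLoc, h0]
  linarith

end Pool.Agent.W986.BigV
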