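import Pool.Agent.W986.SubRegRed
import Pool.Agent.W986.SubBigR
import Pool.Agent.W986.SubBigV
import Pool.Agent.W986.SubBigF

/-!
# Big hubs: the second run

A second table, with the leaves for the local inequality at the neighbours of a big hub, gives the
inequality at the vertices of degree at least 12.
-/

set_option autoImplicit false

open Finset

namespace Pool.Agent.W986

open ST ST.LB

/-- The second table `fl2`: its facts below `b2` are impossible facts of the first table, the
others are proved by trees with the leaves `lI` and `lG`. -/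
structure TableBF (lI lG : Patch → Bool) (fl fl2 : ℕ → Option Fact) (b b2 n2 : ℕ) : Prop where
  base : ∀ c < b2, ∀ F, fl2 c = some F → ∃ c' < b, ∃ F', fl c' = some F' ∧ F'.P = F.P
  runs : RunsF 4 lI lG fl2 b2 n2
  root : ∀ d, 5 ≤ d → d ≤ 10 → ∃ c < n2, ∃ F, fl2 c = some F ∧ F.P = rootB d

/-- The second table continues the impossible facts of the first one. -/
theorem TableBF.of_agree {lI lG : Patch → Bool} {fl fl2 : ℕ → Option Fact} {b b2 n2 : ℕ}
    (hb : b2 ≤ b) (agree : ∀ c < b2, fl2 c = fl c) (runs : RunsF 4 lI lG fl2 b2 n2)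
    (root : ∀ d, 5 ≤ d → d ≤ 10 → ∃ c < n2, ∃ F, fl2 c = some F ∧ F.P = rootB d) :
    TableBF lI lG fl fl2 b b2 n2 :=
  ⟨fun c hc F hF => ⟨c, by omega, F, by rw [← agree c hc]; exact hF, rfl⟩, runs, root⟩

/-- The leaf `lG` of the second run is correct in the environments of the regions. -/
def LeafGOK (lG : Patch → Bool) : Prop :=
  ∀ (χ : ℤ) (V : Type) [Fintype V] [DecidableEq V] (S : Finset V) (G : SimpleGraph V)
    (T : V → V → V → Prop) (I : Finset V) (hT : TriOn χ S G T) (R : Region S G T I),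
    KapOK (regEnv hT R 6) → (∀ P ∈ small, ∀ f, ¬ (regEnv hT R 6).Sat P f) →
    ∀ P f, lG P = true → (regEnv hT R 6).Sat P f → PhiG (regEnv hT R 6) (gkU (regEnv hT R 6)) f

/-- One more leaf for impossible patches. -/
theorem LeafGOK.or {lG c : Patch → Bool} (h : LeafGOK lG)
    (hc : ∀ (χ : ℤ) (V : Type) [Fintype V] [DecidableEq V] (S : Finset V) (G : SimpleGraph V)
      (T : V → V → V → Prop) (I : Finset V) (hT : TriOn χ S G T) (R : Region S G T I),
      ∀ P f, c P = true → ¬ (regEnv hT R 6).Sat P f) :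
    LeafGOK (fun P => cf (lG P) true (c P)) := by
  intro χ V _ _ S G T I hT R hK hs P f h1 hf
  have key : ∀ {a b : Bool}, cf a true b = true → a = true ∨ b = true := by
    intro a b
    cases a with
    | true => exact fun _ => Or.inl rfl
    | false => exact fun h => Or.inr h
  rcases key h1 with h2 | h2
  · exact h χ V S G T I hT R hK hs P f h2 hf
  · exact absurd hf (hc χ V S G T I hT R P f h2)

/-- The leaf `leafG` is correct. -/
theorem leafGOK : LeafGOK leafG := by
  intro χ V _ _ S G T I hT R hK hs P f hl hf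
  obtain ⟨_, _, _, _, _, h545⟩ := (regEnv hT R 6).local_facts hs
  exact leafG_sound hK h545 hf hl

/-- The inequality at the vertices of degree at least 12, in one environment. -/
theorem finU_of_phiG {V : Type} [Fintype V] {E : Env V} (hK : KapOK E)
    (hs : ∀ P ∈ small, ∀ f, ¬ E.Sat P f) {x : V} (hx : E.I x) (h12 : 12 ≤ E.D x)
    (hroot : ∀ d, 5 ≤ d → d ≤ 10 → ∀ f, E.Sat (rootB d) f → PhiG E (gkU E) f) : FinU E x := by
  obtain ⟨h44, h55, h5, h645, h66, h545⟩ := E.local_facts hs
  refine finB_of_phiG hK h44 hx h12 ?_ hroot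
  intro v y z w y' z' w' h11 hy hy' _ _ _ _ _ _ _ _ _
  exact BigV.hloc_big hK (BigV.kap_le_three hK h5) (gkU_le E) (by omega) h11 z w z' w' hy hy'

/-- **Big hubs.** -/
theorem bigF_of {l0 lI lF lG : Patch → Bool} {fl fl2 : ℕ → Option Fact} {b n b2 n2 : ℕ}
    (hL : LeavesOK l0 lI lF) (hG : LeafGOK lG) (hT2 : TableBF lI lG fl fl2 b b2 n2) :
    BigF fl b n := by
  intro χ V _ _ S G T I hT R hK hs hb _ x hx h12
  refine finU_of_phiG hK hs hx h12 fun d h5 h10 f hf => ?_
  have h1 : ∀ c < n2, ∀ F, fl2 c = some F →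
      (regEnv hT R 6).Holds (PhiG (regEnv hT R 6) (gkU (regEnv hT R 6))) F := by
    refine hT2.runs.sound (fun P f h => hL.sI χ V S G T I hT R hK hs P f h)
      (fun P f h hf => hG χ V S G T I hT R hK hs P f h hf)
      (fun f g hfg h => h.congr hfg) fun c hc F hF f hf => ?_
    obtain ⟨c', hc', F', hF', hP⟩ := hT2.base c hc F hF
    rw [← hP] at hf
    exact absurd hf (hb c' hc' F' hF' f)
  obtain ⟨c, hc, F, hF, hP⟩ := hT2.root d h5 h10
  exact (h1 c hc F hF f (by rw [hP]; exact hf)).2

end Pool.Agent.W986
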