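import Pool.Agent.W986.SubQ2
import Pool.Agent.W986.SubAsm
import Pool.Agent.W986.SubAlt
import Pool.Agent.W986.SubBigOK

/-!
# The answer for projective-planar graphs from the data

The table of facts: the facts below `a` are configurations, those below `b` are proved with the
leaf `lC`, those below `n` with the leaves `lI` and `lF`. The second run, for the big hubs, has the
leaves `lI` and `lG`. It is done in the same table (`projective_of_data`; it uses only the facts
below `b` and those from `n` on) or in a second table (`projective_of_data2`).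
-/

set_option autoImplicit false

open Finset

namespace Pool.Agent.W986

open Pool.Agent.DC76 ST ST.LB

theorem flm_spec {fl : ℕ → Option Fact} {b n c : ℕ} {F : Fact} (h : flm fl b n c = some F) :
    fl c = some F ∧ (c < b ∨ n ≤ c) := by
  unfold flm at h
  cases h1 : Nat.ble (Nat.succ c) b with
  | true =>
    rw [h1] at h
    exact ⟨h, Or.inl (Nat.le_of_ble_eq_true h1)⟩
  | false =>
    rw [h1] at h
    cases h2 : Nat.ble n c with
    | true =>
      rw [h2] at h
      exact ⟨h, Or.inr (Nat.le_of_ble_eq_true h2)⟩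
    | false =>
      rw [h2] at h
      exact absurd h (by intro h; cases h)

/-- The roots of the second run. -/
def rootsB : List Patch := [rootB 5, rootB 6, rootB 7, rootB 8, rootB 9, rootB 10]

theorem rootsB_spec {fl : ℕ → Option Fact} {n2 : ℕ} {lg : List ℕ}
    (h : inTab fl n2 false rootsB lg = true) (d : ℕ) (h5 : 5 ≤ d) (h10 : d ≤ 10) :
    ∃ c < n2, ∃ F, fl c = some F ∧ F.P = rootB d := by
  obtain ⟨c, hc, F, hF, _, hP⟩ := inTab_spec _ _ h (rootB d) (by
    rw [rootsB]
    interval_cases d <;> simp)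
  exact ⟨c, hc, F, hF, hP⟩

/-- **The answer for projective-planar graphs from the data**, one table. -/
theorem projective_of_data {lG : Patch → Bool} (hG : LeafGOK lG) {fl : ℕ → Option Fact}
    {fuel a b n n2 : ℕ} (ls lr lg : List ℕ) (le : Nat.ble b n = true)
    (hs : inTab fl b true small ls = true)
    (hr : inTab fl n false
      [rootP 5, rootP 6, rootP 7, rootP 8, rootP 9, rootP 10, rootP 11] lr = true)
    (hg : inTab (flm fl b n) n2 false rootsB lg = true) (hgood : Rng (GoodF fl fuel) 0 a)
    (run0 : RunsF 0 lC lC fl a b) (run1 : RunsF 1 lI lF fl b n)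
    (run4 : RunsF 4 lI lG (flm fl b n) n n2) (k d : ℕ) :
    AllCol @ProjectivePlanar k d ↔ (3 ≤ k ∧ 2 ≤ d) ∨ (4 ≤ k ∧ 1 ≤ d) ∨ 6 ≤ k := by
  refine projective_of_table leavesOK (tableF_of ls lr run0 run1 le hs hr)
    (baseF_of hgood.all) (bigF_of leavesOK hG (fl2 := flm fl b n) (b2 := n)
      (n2 := n2) ⟨fun c hc F hF => ?_, run4, rootsB_spec hg⟩) k d
  obtain ⟨h2, h3⟩ := flm_spec hF
  exact ⟨c, by omega, F, h2, rfl⟩

/-- **The answer for projective-planar graphs from the data**, two tables. -/
theorem projective_of_data2 {lG : Patch → Bool} (hG : LeafGOK lG) {fl g : ℕ → Option Fact}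
    {fuel a b n b2 n2 : ℕ} (ls lr lg : List ℕ) (le : Nat.ble b n = true)
    (le2 : Nat.ble b2 b = true) (hs : inTab fl b true small ls = true)
    (hr : inTab fl n false
      [rootP 5, rootP 6, rootP 7, rootP 8, rootP 9, rootP 10, rootP 11] lr = true)
    (hg : inTab (fjoin b2 fl g) n2 false rootsB lg = true) (hgood : Rng (GoodF fl fuel) 0 a)
    (run0 : RunsF 0 lC lC fl a b) (run1 : RunsF 1 lI lF fl b n)
    (run4 : RunsF 4 lI lG (fjoin b2 fl g) b2 n2) (k d : ℕ) :
    AllCol @ProjectivePlanar k d ↔ (3 ≤ k ∧ 2 ≤ d) ∨ (4 ≤ k ∧ 1 ≤ d) ∨ 6 ≤ k :=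
  projective_of_table leavesOK (tableF_of ls lr run0 run1 le hs hr)
    (baseF_of hgood.all) (bigF_of leavesOK hG (TableBF.of_agree
      (Nat.le_of_ble_eq_true le2) (fun _ hc => fjoin_lt hc) run4 (rootsB_spec hg))) k d

end Pool.Agent.W986
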