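import Pool.Agent.W986.SubTreeB

/-!
# Two tables with the same beginning

The lookup function which takes the first facts from one table and the others from another table,
and a Boolean check that certain facts are in the table. Only the functions which are evaluated by
the kernel.
-/

set_option autoImplicit false

namespace Pool.Agent.W986

namespace ST

/-- The first `b` facts are given by `f`, the others by `g`. -/
def fjoin (b : ℕ) (f g : ℕ → Option Fact) (c : ℕ) : Option Fact :=
  frc c fun c => cf (Nat.ble (Nat.succ c) b) (f c) (frc (Nat.sub c b) g)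

/-- Equality of lists of numbers. -/
def eqL (a : List ℕ) : List ℕ → Bool :=
  @List.rec ℕ (fun _ => List ℕ → Bool)
    (@List.rec ℕ (fun _ => Bool) true (fun _ _ _ => false))
    (fun x _ ih => @List.rec ℕ (fun _ => Bool) false
      (fun y b _ => cf (Nat.beq x y) (ih b) false)) a

/-- Equality of lists of pairs. -/
def eqB (a : List (ℕ × ℕ)) : List (ℕ × ℕ) → Bool :=
  @List.rec (ℕ × ℕ) (fun _ => List (ℕ × ℕ) → Bool)
    (@List.rec (ℕ × ℕ) (fun _ => Bool) true (fun _ _ _ => false))
    (fun x _ ih => @List.rec (ℕ × ℕ) (fun _ => Bool) false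
      (fun y b _ => cf (Nat.beq x.1 y.1) (cf (Nat.beq x.2 y.2) (ih b) false) false)) a

/-- Equality of lists of lists. -/
def eqK (a : List (ℕ × List ℕ)) : List (ℕ × List ℕ) → Bool :=
  @List.rec (ℕ × List ℕ) (fun _ => List (ℕ × List ℕ) → Bool)
    (@List.rec (ℕ × List ℕ) (fun _ => Bool) true (fun _ _ _ => false))
    (fun x _ ih => @List.rec (ℕ × List ℕ) (fun _ => Bool) false
      (fun y b _ => cf (Nat.beq x.1 y.1) (cf (eqL x.2 y.2) (ih b) false) false)) a

/-- Equality of patches. -/
def eqP (P Q : Patch) : Bool :=
  cf (Nat.beq P.n Q.n) (cf (eqK P.lk Q.lk) (cf (eqB P.lb Q.lb)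
    (cf (eqB P.kb Q.kb) (eqB P.kg Q.kg) false) false) false) false

/-- Equality of truth values. -/
def eqT (a b : Bool) : Bool := cf a b (cf b false true)

/-- The facts number `m 0`, `m 1`, .. (smaller than `b`) are those with the patches of the list. -/
def inTab (fl : ℕ → Option Fact) (b : ℕ) (imp : Bool) (l : List Patch) : List ℕ → Bool :=
  @List.rec Patch (fun _ => List ℕ → Bool) (fun _ => true)
    (fun P _ ih => @List.rec ℕ (fun _ => Bool) false
      (fun c m _ => cf (Nat.ble (Nat.succ c) b)
        (cf (@Option.rec Fact (fun _ => Bool) false (fun F => cf (eqT F.imp imp) (eqP F.P P) false)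
          (fl c)) (ih m) false) false)) l

/-- The first facts of a list are impossible ones. -/
def impB (l : List Fact) : ℕ → Bool :=
  @List.rec Fact (fun _ => ℕ → Bool) (fun _ => true)
    (fun F _ ih a => @Nat.rec (fun _ => Bool) true (fun a _ => cf F.imp (ih a) false) a) l

end ST

end Pool.Agent.W986
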