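import Mathlib

/-!
# Cyclic words which avoid patterns

The last step of a discharging proof as a kernel computation.  The link of a vertex is a cyclic word
over the letters `0, …, m - 1`; a pattern is a list of bit masks (bit `a` of the mask at place `j`
says that the letter `a` is allowed there); the table of reducible configurations is a list `P` of
patterns which do not occur.  `walk` runs through all words without a pattern.
-/

set_option autoImplicit false

namespace Pool.Agent.W986.Word

/-- The word starts with a match of the pattern. -/
def pre : List ℕ → List ℕ → Bool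
  | [], _ => true
  | _ :: _, [] => false
  | p :: ps, a :: w => Nat.testBit p a && pre ps w

/-- The word starts with a match of one of the patterns. -/
def starts (P : List (List ℕ)) (w : List ℕ) : Bool := P.any fun p => pre p w

/-- The test holds for all words `u ++ w` with `|u| = l` such that no pattern starts inside `u`. -/
def walk (m : ℕ) (P : List (List ℕ)) (test : List ℕ → Bool) : ℕ → List ℕ → Bool
  | 0, w => test w
  | l + 1, w => (List.range m).all fun a => starts P (a :: w) || walk m P test l (a :: w)

theorem pre_append {p w : List ℕ} (x : List ℕ) (h : pre p w = true) : pre p (w ++ x) = true := by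
  induction p generalizing w with
  | nil => simp [pre]
  | cons a p ih =>
    cases w with
    | nil => simp [pre] at h
    | cons b w =>
      simp only [pre, Bool.and_eq_true] at h
      simp only [List.cons_append, pre, Bool.and_eq_true]
      exact ⟨h.1, ih h.2⟩

theorem starts_append {P : List (List ℕ)} {w : List ℕ} (x : List ℕ) (h : starts P w = true) :
    starts P (w ++ x) = true := by
  simp only [starts, List.any_eq_true] at h ⊢
  obtain ⟨p, hp, h⟩ := h
  exact ⟨p, hp, pre_append x h⟩

theorem pre_iff {p w : List ℕ} : pre p w = true ↔
    p.length ≤ w.length ∧ ∀ j, j < p.length → Nat.testBit (p.getD j 0) (w.getD j 0) = true := by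
  induction p generalizing w with
  | nil => simp [pre]
  | cons a p ih =>
    cases w with
    | nil => simp [pre]
    | cons b w =>
      simp only [pre, Bool.and_eq_true, ih, List.length_cons, Nat.add_le_add_iff_right]
      constructor
      · rintro ⟨h1, h2, h3⟩
        refine ⟨h2, fun j hj => ?_⟩
        cases j with
        | zero => simpa using h1
        | succ j => simpa using h3 j (by omega)
      · rintro ⟨h1, h2⟩
        refine ⟨by simpa using h2 0 (by omega), h1, fun j hj => ?_⟩
        simpa using h2 (j + 1) (by omega)

/-- Soundness of `walk`. -/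
theorem walk_sound {m : ℕ} {P : List (List ℕ)} {test : List ℕ → Bool} {l : ℕ} {w : List ℕ}
    (h : walk m P test l w = true) (u : List ℕ) (hl : u.length = l) (hm : ∀ a ∈ u, a < m)
    (hP : ∀ i, i < l → starts P (u.drop i ++ w) = false) : test (u ++ w) = true := by
  induction l generalizing w u with
  | zero =>
    have : u = [] := List.length_eq_zero_iff.1 hl
    subst this
    simpa [walk] using h
  | succ l ih =>
    rcases List.eq_nil_or_concat u with hu | ⟨v, a, hu⟩
    · subst hu
      simp at hl
    · rw [List.concat_eq_append] at hu
      subst hu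
      have hv : v.length = l := by simpa using hl
      simp only [walk, List.all_eq_true, List.mem_range, Bool.or_eq_true] at h
      have h1 := h a (hm a (by simp))
      have h2 : starts P (a :: w) = false := by
        have := hP l (by omega)
        rwa [List.drop_append_of_le_length (by omega), ← hv, List.drop_length, List.nil_append,
          List.singleton_append] at this
      rw [h2] at h1
      have h3 : walk m P test l (a :: w) = true := by simpa using h1
      have := ih h3 v hv (fun b hb => hm b (by simp [hb])) (fun i hi => by
        have := hP i (by omega)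
        rw [List.drop_append_of_le_length (by omega)] at this
        simpa using this)
      simpa using this

/-- The word of length `n` which starts at place `i`. -/
def win (w : ℕ → ℕ) (i n : ℕ) : List ℕ := (List.range n).map fun j => w (i + j)

@[simp] theorem win_length (w : ℕ → ℕ) (i n : ℕ) : (win w i n).length = n := by simp [win]

theorem win_getD {w : ℕ → ℕ} {i n j : ℕ} (h : j < n) : (win w i n).getD j 0 = w (i + j) := by
  simp [win, List.getD_eq_getElem?_getD, h]

theorem win_append (w : ℕ → ℕ) (i a b : ℕ) : win w i a ++ win w (i + a) b = win w i (a + b) := by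
  simp only [win]
  rw [List.range_add, List.map_append, List.map_map]
  congr 1
  apply List.map_congr_left
  intro j _
  simp [Nat.add_assoc]

theorem win_take {w : ℕ → ℕ} {i n k : ℕ} (h : k ≤ n) : (win w i n).take k = win w i k := by
  rw [win, ← List.map_take, List.take_range, min_eq_left h, win]

theorem win_drop {w : ℕ → ℕ} {i n k : ℕ} (h : k ≤ n) :
    (win w i n).drop k = win w (i + k) (n - k) := by
  have := win_append w i k (n - k)
  rw [Nat.add_sub_cancel' h] at this
  rw [← this, List.drop_append_of_le_length (by simp)]
  have h1 : (win w i k).drop k = [] := by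
    apply List.drop_eq_nil_of_le
    simp
  rw [h1, List.nil_append]

/-- The patterns do not occur in the cyclic word `w` of length `n`. -/
def Avoid (P : List (List ℕ)) (w : ℕ → ℕ) (n : ℕ) : Prop :=
  ∀ p ∈ P, p.length ≤ n → ∀ i, ¬ ∀ j, j < p.length → Nat.testBit (p.getD j 0) (w (i + j)) = true

theorem Avoid.starts {P : List (List ℕ)} {w : ℕ → ℕ} {n : ℕ} (h : Avoid P w n) (i k : ℕ)
    (hk : k ≤ n) : starts P (win w i k) = false := by
  by_contra hc
  rw [Bool.not_eq_false] at hc
  simp only [Word.starts, List.any_eq_true] at hc
  obtain ⟨p, hp, hc⟩ := hc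
  rw [pre_iff] at hc
  simp only [win_length] at hc
  refine h p hp (hc.1.trans hk) i fun j hj => ?_
  have := hc.2 j hj
  rwa [win_getD (by omega)] at this

/-- A pattern starts at one of the places of the cyclic word. -/
def cycBad (P : List (List ℕ)) (l : List ℕ) : Bool :=
  (List.range l.length).any fun i => starts P (l.drop i ++ l.take i)

theorem Avoid.cycBad {P : List (List ℕ)} {w : ℕ → ℕ} {n : ℕ} (h : Avoid P w n)
    (hper : ∀ i, w (i + n) = w i) (i : ℕ) : cycBad P (win w i n) = false := by
  by_contra hc
  rw [Bool.not_eq_false] at hc
  simp only [Word.cycBad, List.any_eq_true, List.mem_range, win_length] at hc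
  obtain ⟨k, hk, hc⟩ := hc
  rw [win_drop hk.le, win_take hk.le] at hc
  have h1 : win w i k = win w (i + k + (n - k)) k := by
    have : i + k + (n - k) = i + n := by omega
    rw [this]
    simp only [win]
    apply List.map_congr_left
    intro j _
    rw [show i + n + j = i + j + n by omega, hper]
  rw [h1, win_append, Nat.sub_add_cancel hk.le, h.starts _ _ le_rfl] at hc
  exact absurd hc (by simp)

/-- The check for one length: the value of every cyclic word of length `n` is at most `C`. -/
def chk (m : ℕ) (P : List (List ℕ)) (f : List ℕ → ℕ) (n C : ℕ) : Bool :=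
  walk m P (fun l => cycBad P l || Nat.ble (f l) C) n []

theorem chk_sound {m : ℕ} {P : List (List ℕ)} {f : List ℕ → ℕ} {n C : ℕ}
    (h : chk m P f n C = true) {w : ℕ → ℕ} (hper : ∀ i, w (i + n) = w i) (hm : ∀ i, w i < m)
    (hP : Avoid P w n) (i : ℕ) : f (win w i n) ≤ C := by
  have := walk_sound h (win w i n) (by simp) (fun a ha => by
    simp only [win, List.mem_map] at ha
    obtain ⟨j, _, rfl⟩ := ha
    exact hm _) (fun j hj => by
      rw [List.append_nil, win_drop hj.le]
      exact hP.starts _ _ (by omega))
  rw [List.append_nil, hP.cycBad hper i, Bool.false_or] at this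
  exact Nat.le_of_ble_eq_true this

/-- The check for all large lengths: `g` = value of a window of length `k`, `φ` = potential of a
window of length `k - 1`. -/
def pot (m : ℕ) (P : List (List ℕ)) (k : ℕ) (g φ : List ℕ → ℕ) (c : ℕ) : Bool :=
  walk m P (fun l => Nat.ble (g l + φ l.tail) (c + φ (l.take (k - 1)))) k []

theorem pot_sound {m : ℕ} {P : List (List ℕ)} {k : ℕ} {g φ : List ℕ → ℕ} {c : ℕ}
    (h : pot m P k g φ c = true) (hk : 1 ≤ k) {n : ℕ} (hn : k ≤ n) {w : ℕ → ℕ}
    (hper : ∀ i, w (i + n) = w i) (hm : ∀ i, w i < m) (hP : Avoid P w n) :
    ∑ i ∈ Finset.range n, g (win w i k) ≤ n * c := by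
  have h1 : ∀ i, g (win w i k) + φ (win w (i + 1) (k - 1)) ≤ c + φ (win w i (k - 1)) := by
    intro i
    have := walk_sound h (win w i k) (by simp) (fun a ha => by
      simp only [win, List.mem_map] at ha
      obtain ⟨j, _, rfl⟩ := ha
      exact hm _) (fun j hj => by
        rw [List.append_nil, win_drop hj.le]
        exact hP.starts _ _ (by omega))
    rw [List.append_nil] at this
    have h2 := Nat.le_of_ble_eq_true this
    rwa [← List.drop_one, win_drop hk, win_take (by omega)] at h2
  have h2 : ∀ N, ∑ i ∈ Finset.range N, g (win w i k) + φ (win w N (k - 1)) ≤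
      N * c + φ (win w 0 (k - 1)) := by
    intro N
    induction N with
    | zero => simp
    | succ N ih =>
      rw [Finset.sum_range_succ, Nat.succ_mul]
      have := h1 N
      omega
  have h3 := h2 n
  have h4 : win w n (k - 1) = win w 0 (k - 1) := by
    simp only [win]
    apply List.map_congr_left
    intro j _
    rw [show n + j = j + n by omega, hper]
    simp
  rw [h4] at h3
  omega

/-- The sum of the values of the cyclic windows of length `k`. -/
def wsum (g : List ℕ → ℕ) (k : ℕ) (l : List ℕ) : ℕ :=
  ((List.range l.length).map fun i => g ((l.drop i ++ l.take i).take k)).sum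

theorem wsum_win {g : List ℕ → ℕ} {k n : ℕ} (hk : k ≤ n) {w : ℕ → ℕ} (hper : ∀ i, w (i + n) = w i)
    (a : ℕ) : wsum g k (win w a n) = ∑ i ∈ Finset.range n, g (win w (a + i) k) := by
  have : ∀ i ∈ List.range n, g (((win w a n).drop i ++ (win w a n).take i).take k) =
      g (win w (a + i) k) := by
    intro i hi
    have hi := List.mem_range.1 hi
    rw [win_drop hi.le, win_take hi.le]
    have h1 : win w a i = win w (a + i + (n - i)) i := by
      have : a + i + (n - i) = a + n := by omega
      rw [this]
      simp only [win]
      apply List.map_congr_left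
      intro j _
      rw [show a + n + j = a + j + n by omega, hper]
    rw [h1, win_append, Nat.sub_add_cancel hi.le, win_take hk]
  rw [wsum, win_length, List.map_congr_left this, Finset.sum_range, ← List.sum_ofFn]
  congr 1
  apply List.ext_getElem
  · simp
  · intro i h1 h2
    simp

/-- The check for one length with a value which is a sum over windows. -/
def chkSum (m : ℕ) (P : List (List ℕ)) (g : List ℕ → ℕ) (k n C : ℕ) : Bool :=
  chk m P (wsum g k) n C

theorem chkSum_sound {m : ℕ} {P : List (List ℕ)} {g : List ℕ → ℕ} {k n C : ℕ} (hk : k ≤ n)
    (h : chkSum m P g k n C = true) {w : ℕ → ℕ} (hper : ∀ i, w (i + n) = w i)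
    (hm : ∀ i, w i < m) (hP : Avoid P w n) : ∑ i ∈ Finset.range n, g (win w i k) ≤ C := by
  have h1 := chk_sound h hper hm hP 0
  rw [wsum_win hk hper] at h1
  simpa using h1

end Pool.Agent.W986.Word
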