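import Pool.Agent.W986.SubGiveFin
import Pool.Agent.W986.SubWord

/-!
# Big hubs

The inequality of `give_fin` at a vertex of large degree: what the neighbours give, counted along
the rotation (`bigB`), is compared with the degree (`hub_of_sum`).  For degree at least 12 it is
enough that the mean is at most 1 (`hub_of_mean`), and this follows from a potential
(`hub_of_pot`) or from the certificate `Word.pot` for words of letters (`hub_of_word`).
-/

set_option autoImplicit false

open Finset

namespace Pool.Agent.W986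

variable {V : Type}

open Classical in
/-- What the hub `x` receives from its neighbour `u`, including the amounts of `u` if `u` has
degree 4 (everything is twice the charge). -/
noncomputable def bigB [Fintype V] (G : SimpleGraph V) (I : Finset V) (s : ℤ) (Mid : Finset V)
    (cen opp : V → V) (w : V → ℕ) (x u : V) : ℚ :=
  pterm G I s Mid cen w u * w x + (if dgI G I u = 4 then 1 else 0) +
    (if u ∈ Mid ∧ opp u = x then 1 else 0)

section rotation

variable [Fintype V] {I : Finset V} {G : SimpleGraph V} {T : V → V → V → Prop} {s : ℤ}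
  {Mid : Finset V} {cen opp : V → V} {w : V → ℕ} {x : V} {d : ℕ} {ν : ℕ → V}

open Classical in
/-- The inequality at the hub from the sum along the rotation. -/
theorem hub_of_sum (h : Rotn G T x d ν) (hx : x ∈ I) (h4 : d ≠ 4)
    (ho : ∀ m ∈ Mid, G.Adj m (opp m))
    (hs : ∑ t ∈ range d, bigB G I s Mid cen opp w x (ν t) ≤ 2 * (d : ℚ) - 12) :
    (∑ u ∈ univ.filter (fun u => G.Adj x u), pterm G I s Mid cen w u) * w x + pcnt Mid opp x ≤
      - (kap2 G I s x : ℚ) := by
  have h1 : (pcnt Mid opp x : ℚ) =
      ∑ t ∈ range d, if ν t ∈ Mid ∧ opp (ν t) = x then (1 : ℚ) else 0 := by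
    rw [← h.sum_adj (fun u => if u ∈ Mid ∧ opp u = x then (1 : ℚ) else 0), pcnt,
      ← Finset.sum_filter, Finset.sum_const, nsmul_eq_mul, mul_one, Finset.filter_filter]
    congr 2
    ext m
    simp only [Finset.mem_filter, Finset.mem_univ, true_and]
    constructor
    · rintro ⟨h2, h3⟩
      refine ⟨?_, h2, h3⟩
      have h5 := ho m h2
      rw [h3] at h5
      exact h5.symm
    · rintro ⟨_, h2, h3⟩
      exact ⟨h2, h3⟩
  have h2 : (kap2 G I s x : ℚ) = 12 - 2 * (d : ℚ) +
      ∑ t ∈ range d, if dgI G I (ν t) = 4 then (1 : ℚ) else 0 := by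
    rw [h.kap2_eq hx h4, Finset.card_filter]
    push_cast
    rfl
  rw [h.sum_adj, h1, h2, Finset.sum_mul]
  unfold bigB at hs
  rw [Finset.sum_add_distrib, Finset.sum_add_distrib] at hs
  linarith

open Classical in
/-- A mean of at most 1 is enough if the degree is at least 12. -/
theorem hub_of_mean (h : Rotn G T x d ν) (hx : x ∈ I) (h12 : 12 ≤ d)
    (ho : ∀ m ∈ Mid, G.Adj m (opp m))
    (hs : ∑ t ∈ range d, bigB G I s Mid cen opp w x (ν t) ≤ (d : ℚ)) :
    (∑ u ∈ univ.filter (fun u => G.Adj x u), pterm G I s Mid cen w u) * w x + pcnt Mid opp x ≤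
      - (kap2 G I s x : ℚ) := by
  refine hub_of_sum h hx (by omega) ho (hs.trans ?_)
  have h1 : (12 : ℚ) ≤ (d : ℚ) := by exact_mod_cast h12
  linarith

open Classical in
/-- The potential `φ` shows that the mean is at most 1. -/
theorem hub_of_pot (h : Rotn G T x d ν) (hx : x ∈ I) (h12 : 12 ≤ d)
    (ho : ∀ m ∈ Mid, G.Adj m (opp m)) (φ : ℕ → ℚ) (hφ : φ d = φ 0)
    (hs : ∀ t < d, bigB G I s Mid cen opp w x (ν t) + φ (t + 1) ≤ 1 + φ t) :
    (∑ u ∈ univ.filter (fun u => G.Adj x u), pterm G I s Mid cen w u) * w x + pcnt Mid opp x ≤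
      - (kap2 G I s x : ℚ) := by
  refine hub_of_mean h hx h12 ho ?_
  have h1 : ∀ n ≤ d, ∑ t ∈ range n, bigB G I s Mid cen opp w x (ν t) + φ n ≤ n + φ 0 := by
    intro n
    induction n with
    | zero => simp
    | succ n ih =>
      intro hn
      have h2 := ih (by omega)
      have h3 := hs n (by omega)
      rw [Finset.sum_range_succ]
      push_cast
      linarith
  have h2 := h1 d le_rfl
  rw [hφ] at h2
  linarith

/-- The sum over a period does not depend on the starting point. -/
theorem sum_period {F : ℕ → ℚ} (hF : ∀ i, F (i + d) = F i) (c : ℕ) :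
    ∑ t ∈ range d, F (t + c) = ∑ t ∈ range d, F t := by
  induction c with
  | zero => simp
  | succ c ih =>
    rw [← ih]
    have h1 := Finset.sum_range_succ (fun t => F (t + c)) d
    have h2 := Finset.sum_range_succ' (fun t => F (t + c)) d
    rw [h1] at h2
    have h3 : F (d + c) = F (0 + c) := by
      rw [Nat.add_comm d c, hF, Nat.zero_add]
    have h4 : ∑ t ∈ range d, F (t + 1 + c) = ∑ t ∈ range d, F (t + (c + 1)) := by
      apply Finset.sum_congr rfl
      intro t _
      congr 1
      omega
    rw [h3, h4] at h2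
    linarith

open Classical in
/-- The certificate `Word.pot` for the words of letters which avoid the patterns of `P`; the
window for the neighbour `ν (t + c)` starts at the place `t`. -/
theorem hub_of_word {m M k : ℕ} {P : List (List ℕ)} {g φ : List ℕ → ℕ}
    (hpot : Word.pot m P k g φ M = true) (hk : 1 ≤ k) (hk12 : k ≤ 12) (hM : 0 < M)
    (h : Rotn G T x d ν) (hx : x ∈ I) (h12 : 12 ≤ d) (ho : ∀ m ∈ Mid, G.Adj m (opp m))
    (L : ℕ → ℕ) (hper : ∀ i, L (i + d) = L i) (hm : ∀ i, L i < m) (hP : Word.Avoid P L d) (c : ℕ)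
    (hs : ∀ t, (M : ℚ) * bigB G I s Mid cen opp w x (ν (t + c)) ≤ g (Word.win L t k)) :
    (∑ u ∈ univ.filter (fun u => G.Adj x u), pterm G I s Mid cen w u) * w x + pcnt Mid opp x ≤
      - (kap2 G I s x : ℚ) := by
  refine hub_of_mean h hx h12 ho ?_
  have h1 := Word.pot_sound hpot hk (by omega : k ≤ d) hper hm hP
  have h0 : ∑ t ∈ range d, bigB G I s Mid cen opp w x (ν (t + c)) =
      ∑ t ∈ range d, bigB G I s Mid cen opp w x (ν t) :=
    sum_period (F := fun t => bigB G I s Mid cen opp w x (ν t)) (fun i => by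
      change bigB G I s Mid cen opp w x (ν (i + d)) = _
      rw [h.per]) c
  have h2 : (M : ℚ) * ∑ t ∈ range d, bigB G I s Mid cen opp w x (ν t) ≤ M * d := by
    rw [← h0, Finset.mul_sum]
    refine (Finset.sum_le_sum fun t _ => hs t).trans ?_
    have h3 : ((∑ t ∈ range d, g (Word.win L t k) : ℕ) : ℚ) ≤ ((d * M : ℕ) : ℚ) := by
      exact_mod_cast h1
    push_cast at h3
    linarith
  have h3 : (0 : ℚ) < (M : ℚ) := by exact_mod_cast hM
  exact le_of_mul_le_mul_left h2 h3

end rotation

end Pool.Agent.W986
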