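import Pool.Agent.W986.SubLeafB

/-!
# Big hubs, the test in the leaves

The hub is the label 0 (its rotation is not known), `v` is the label 1, and the labels 2 and 3 are
the neighbours of `v` in the link of the hub. `leafG` checks the local inequality `HLoc` at `v`.
-/

set_option autoImplicit false

namespace Pool.Agent.W986.ST.LB

open Pool.Agent.W986 Pool.Agent.W986.ST

/-- The numerator of a bound for the amount which `u` gives to a neighbour of weight 4. -/
def fN (P : Patch) (u : ℕ) : ℕ :=
  frc (pos P u) fun p => Nat.mul 4 (cf (ctrU P u) (Nat.sub p 1) p)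

/-- The denominator, if the hub is a neighbour. -/
def fD (P : Patch) (u : ℕ) : ℕ := mx (sw P (findL P.lk u)) 4

/-- Continue with the neighbour of 0 in the link of `y` which is not `p`. -/
def othK (P : Patch) (y p : ℕ) (k : ℕ → Bool) : Bool :=
  frcH (findL P.lk y) fun l => frc (len l) fun n => frc (posn l 0) fun j =>
    cf (Nat.blt j n)
      (frc (lnth l (Nat.mod (Nat.add j 1) n)) fun a =>
        frc (lnth l (Nat.mod (Nat.add j (Nat.sub n 1)) n)) fun b =>
          cf (Nat.beq a p) (k b) (cf (Nat.beq b p) (k a) false)) false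

/-- The vertex beyond `y`, from `p`, has not degree 4. -/
def farN (P : Patch) (y p : ℕ) : Bool := othK P y p fun w => cf (p4 P w) false true

/-- `y` may have degree 4 and give more to the hub; `z` is the other neighbour. -/
def mayE (P : Patch) (y z : ℕ) : Bool := an (mayD P 7 13 1) (an (mayD P 7 13 z) (mayM P y))

/-- What arrives at `v = 1` from the side of `y` is at most `n / d`; continue with `n`, `d`. -/
def arr (P : Patch) (y : ℕ) (k : ℕ → ℕ → Bool) : Bool :=
  cf (p4 P y)
    -- `y` has degree 4
    (cf (Nat.beq (len (findL P.lk y)) 4)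
      (othK P y 1 fun z =>
        frc (fD P z) fun d => frc (Nat.sub (fN P z) d) fun e =>
          -- `e / (2 d)`, at most 2/5 or 1/2
          frc (cf (farN P z y) (mn (Nat.mul 5 e) (Nat.mul 4 d)) (mn (Nat.mul 5 e) (Nat.mul 5 d)))
            fun n => cf (mayE P y z) (k (Nat.add n (Nat.mul 5 d)) (Nat.mul 10 d))
              (k n (Nat.mul 10 d)))
      false)
    -- `y` has not degree 4
    (frc (fD P y) fun d => frc (Nat.sub (fN P y) d) fun e =>
      cf (farN P y 1) (k e (Nat.mul 2 d))
        (k (mx (Nat.mul 5 e) (Nat.sub (Nat.mul 10 e) (Nat.mul 4 d))) (Nat.mul 10 d)))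

/-- The leaf for the local inequality at the label 1. -/
def leafG (P : Patch) : Bool :=
  cf (leafI P) true
    (cf (Nat.ble 4 (neg P 0))
      (cf (nil (findL P.lk 1)) false
        (frc (fN P 1) fun n1 => frc (sw P (findL P.lk 1)) fun d1 =>
          cf (cf (Nat.beq n1 0) true (Nat.blt 0 d1))
            (arr P 2 fun n2 d2 => arr P 3 fun n3 d3 =>
              cf (Nat.ble (Nat.mul (Nat.add (Nat.mul n2 d3) (Nat.mul n3 d2)) (mx d1 1))
                  (Nat.mul (Nat.sub (mx d1 1) n1) (Nat.mul d2 d3)))
                (cf (an (p4 P 2) (p4 P 3)) (Nat.ble n1 (Nat.mul 2 (mx d1 1))) true) false)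
            false))
      false)

end Pool.Agent.W986.ST.LB
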