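import Pool.Agent.W986.SubBigG
import Pool.Agent.W986.SubMidB

/-!
# Big hubs: bounds from the patch

Upper bounds for `bigE` and `big4` at the labels of a patch whose label 0 is the hub.
-/

set_option autoImplicit false

open Finset

namespace Pool.Agent.W986.BigE

open Pool.Agent.W986 Pool.Agent.W986.ST Pool.Agent.W986.ST.LB

variable {V : Type} [Fintype V] {E : Env V} {P : Patch} {f : ℕ → V}

theorem bigE_le_one (x m : V) : bigE E x m ≤ 1 := by
  unfold bigE
  split_ifs
  · exact le_rfl
  · norm_num

theorem bigE_nonneg (x m : V) : 0 ≤ bigE E x m := by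
  unfold bigE
  split_ifs
  · norm_num
  · exact le_rfl

theorem of_bigE {x m : V} (h : bigE E x m ≠ 0) : m ∈ midS E ∧ oppM E m = x := by
  unfold bigE at h
  by_contra h1
  exact h (if_neg h1)

/-- The flanks of a vertex which gives more to the hub. -/
theorem mayD_of_bigE (hK : KapOK E) (h : E.Sat P f) {y u : ℕ} (hne : bigE E (f 0) (f y) ≠ 0)
    (hT : E.T (f 0) (f y) (f u)) : mayD P 7 13 u = true := by
  obtain ⟨h1, h2⟩ := of_bigE hne
  have h3 : E.T (f y) (oppM E (f y)) (f u) := by
    rw [h2]
    exact E.swap _ _ _ hT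
  obtain ⟨h4, h5⟩ := midS_flank h1 h3
  exact mayD_intro hK h (by norm_num) (by norm_num) h4 (by rw [h5]; norm_num)

theorem mayM_of_bigE (hK : KapOK E) (h : E.Sat P f) {y : ℕ} (hne : bigE E (f 0) (f y) ≠ 0) :
    mayM P y = true := by
  obtain ⟨h1, h2⟩ := of_bigE hne
  exact mayM_intro hK h h1 h2

/-- The test for the vertices which give more to the hub. -/
theorem bigE_zero (hK : KapOK E) (h : E.Sat P f) {y u z : ℕ} (hu : E.T (f 0) (f y) (f u))
    (hz : E.T (f 0) (f y) (f z))
    (hm : an (mayD P 7 13 u) (an (mayD P 7 13 z) (mayM P y)) = false) :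
    bigE E (f 0) (f y) = 0 := by
  by_contra hne
  rw [an_intro (mayD_of_bigE hK h hne hu) (an_intro (mayD_of_bigE hK h hne hz)
    (mayM_of_bigE hK h hne))] at hm
  exact absurd hm (by decide)

/-- The same with one flank only. -/
theorem bigE_zero' (hK : KapOK E) (h : E.Sat P f) {y u : ℕ} (hu : E.T (f 0) (f y) (f u))
    (hm : an (mayD P 7 13 u) (mayM P y) = false) : bigE E (f 0) (f y) = 0 := by
  by_contra hne
  rw [an_intro (mayD_of_bigE hK h hne hu) (mayM_of_bigE hK h hne)] at hm
  exact absurd hm (by decide)

variable {gk : V → ℤ}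

theorem wt_le_Wsum {u x : V} (hux : E.H.Adj u x) :
    wt (E.kap x) ≤ Wsum E.H (fun y => wt (E.kap y)) u := by
  classical
  rw [Wsum]
  exact single_le_sum (f := fun y => wt (E.kap y)) (fun _ _ => Nat.zero_le _)
    (mem_filter.2 ⟨mem_univ _, hux⟩)

/-- The upper bound for what the label `u` gives to a hub of weight 4: `4 a / b` where `b` is at
most the sum of the weights or at most 4. -/
theorem big4_le (hK : KapOK E) (h : E.Sat P f) (hgk : ∀ u, gk u ≤ E.kap u)
    (hctr : ∀ u, ctrU P u = true → gk (f u) ≤ E.kap (f u) - 1)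
    (hx : E.kap (f 0) ≤ -4) {u : ℕ} (hux : E.H.Adj (f u) (f 0)) {a b : ℕ}
    (ha : pos P u ≤ cf (ctrU P u) (a + 1) a) (hb0 : 0 < b)
    (hb : b ≤ max (sw P (findL P.lk u)) 4) :
    big4 E gk (f u) ≤ ((4 * a : ℕ) : ℚ) / (b : ℚ) := by
  have hbQ : (0 : ℚ) < (b : ℚ) := by exact_mod_cast hb0
  rw [big4, term]
  split_ifs with h1
  · have h2 : gk (f u) ≤ (a : ℤ) := by
      have h3 := pos_le hK h u
      cases hc : ctrU P u with
      | true =>
        rw [hc, cf_true] at ha
        have := hctr u hc
        omega
      | false =>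
        rw [hc, cf_false] at ha
        have := hgk (f u)
        omega
    have h3 : b ≤ Wsum E.H (fun y => wt (E.kap y)) (f u) := by
      have h4 := sw_le hK h u
      have h5 := wt_le_Wsum hux
      have h6 : wt (E.kap (f 0)) = 4 := by
        unfold wt
        omega
      rw [h6] at h5
      exact hb.trans (max_le h4 h5)
    have h4 : ((gk (f u) : ℤ) : ℚ) ≤ (a : ℚ) := by exact_mod_cast h2
    have h5 : (b : ℚ) ≤ (Wsum E.H (fun y => wt (E.kap y)) (f u) : ℚ) := by exact_mod_cast h3
    have h6 : (gk (f u) : ℚ) / Wsum E.H (fun y => wt (E.kap y)) (f u) ≤ (a : ℚ) / b :=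
      div_le_div₀ (by positivity) h4 hbQ h5
    push_cast
    rw [mul_div_assoc]
    linarith
  · rw [mul_zero]
    positivity

/-- A label without positive charge. -/
theorem big4_zero (hK : KapOK E) (h : E.Sat P f) {u : ℕ} (hp : pos P u = 0) :
    big4 E gk (f u) = 0 := by
  have h1 := pos_le hK h u
  rw [big4, term, if_neg, mul_zero]
  rintro ⟨_, h2, _⟩
  rw [hp] at h1
  push_cast at h1
  omega

omit [Fintype V] in
/-- The two neighbours of the hub in the link of a label. -/
theorem two_nb (h : E.Sat P f) {y : ℕ} (hn : nil (findL P.lk y) = false)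
    (hj : posn (findL P.lk y) 0 < (findL P.lk y).length) {z : V} (hz : E.T (f 0) (f y) z) :
    z = f (lnth (findL P.lk y)
      (Nat.mod (Nat.add (posn (findL P.lk y) 0) 1) (findL P.lk y).length)) ∨
    z = f (lnth (findL P.lk y) (Nat.mod (Nat.add (posn (findL P.lk y) 0)
      (Nat.sub (findL P.lk y).length 1)) (findL P.lk y).length)) := by
  have hl := (link h hn).2
  have h3 := hl.three
  have h0 := posn_spec (findL P.lk y) 0 hj
  generalize posn (findL P.lk y) 0 = j at hj h0 ⊢
  generalize findL P.lk y = l at hl h3 hj h0 ⊢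
  have h1 : f (lnth l ((j + l.length - 1 + 1) % l.length)) = f 0 := by
    rw [show j + l.length - 1 + 1 = j + l.length by omega, Nat.add_mod_right,
      Nat.mod_eq_of_lt hj, h0]
  have h2 := hl.tri (j + l.length - 1) z
  rw [h1] at h2
  rcases h2.1 (E.swap _ _ _ hz) with h4 | h4
  · right
    rw [h4]
    change f (lnth l ((j + l.length - 1) % l.length)) = f (lnth l ((j + (l.length - 1)) % l.length))
    congr 2
    congr 1
    omega
  · left
    rw [h4]
    change f (lnth l ((j + l.length - 1 + 2) % l.length)) = f (lnth l ((j + 1) % l.length))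
    rw [show j + l.length - 1 + 2 = j + 1 + l.length by omega, Nat.add_mod_right]

/-- The neighbour of 0 different from `p` in the link of `y`, plus 1, or 0. -/
def oth (P : Patch) (y p : ℕ) : ℕ :=
  frcH (findL P.lk y) fun l => cf (nil l) 0
    (frc (len l) fun n => frc (posn l 0) fun j => cf (Nat.ble n j) 0
      (frc (lnth l (Nat.mod (Nat.add j 1) n)) fun a =>
        frc (lnth l (Nat.mod (Nat.add j (Nat.sub n 1)) n)) fun b =>
          cf (Nat.beq a p) (Nat.succ b) (cf (Nat.beq b p) (Nat.succ a) 0)))

omit [Fintype V] in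
theorem oth_spec (h : E.Sat P f) {y p o : ℕ} (ho : oth P y p = o + 1) {z : V}
    (hz : E.T (f 0) (f y) z) (hne : z ≠ f p) : z = f o := by
  unfold oth at ho
  rw [frcH_eq] at ho
  cases hn : nil (findL P.lk y) with
  | true =>
    rw [hn, cf_true] at ho
    omega
  | false =>
    rw [hn, cf_false, frc_eq, frc_eq, len_eq] at ho
    cases hb : Nat.ble (findL P.lk y).length (posn (findL P.lk y) 0) with
    | true =>
      rw [hb, cf_true] at ho
      omega
    | false =>
      rw [hb, cf_false, frc_eq, frc_eq] at ho
      have h2 := two_nb h hn (ble_false hb) hz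
      generalize lnth (findL P.lk y)
        (Nat.mod (Nat.add (posn (findL P.lk y) 0) 1) (findL P.lk y).length) = a at ho h2
      generalize lnth (findL P.lk y) (Nat.mod (Nat.add (posn (findL P.lk y) 0)
        (Nat.sub (findL P.lk y).length 1)) (findL P.lk y).length) = b at ho h2
      cases ha : Nat.beq a p with
      | true =>
        rw [ha, cf_true] at ho
        have h3 := Nat.eq_of_beq_eq_true ha
        subst h3
        rcases h2 with h2 | h2
        · exact absurd h2 hne
        · rw [h2, Nat.succ.inj ho]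
      | false =>
        rw [ha, cf_false] at ho
        cases hb' : Nat.beq b p with
        | true =>
          rw [hb', cf_true] at ho
          have h3 := Nat.eq_of_beq_eq_true hb'
          subst h3
          rcases h2 with h2 | h2
          · rw [h2, Nat.succ.inj ho]
          · exact absurd h2 hne
        | false =>
          rw [hb', cf_false] at ho
          omega

end Pool.Agent.W986.BigE
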