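import Mathlib

/-!
# The sum along the link of a big hub

Every position of a cyclic sequence whose amount `F` is larger than 1 ships a part of the excess
to its two neighbours, over a position `four` to the next one. If at every position which is not
`four` the balance is right, then the sum of the amounts is at most the length.
-/

set_option autoImplicit false

open Finset

namespace Pool.Agent.W986

namespace BigSum

/-- The part of the excess shipped to a direct neighbour. -/
def inT (x : ℚ) : ℚ := max (x / 2) (x - 1 / 2)

/-- The part of the excess shipped over a position `four`. -/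
def inQ (x : ℚ) : ℚ := min (x / 2) (1 / 2)

/-- The excess. -/
def exc (F : ℕ → ℚ) (i : ℕ) : ℚ := max (F i - 1) 0

/-- The sum over a period does not depend on the starting point. -/
theorem sum_shift {d : ℕ} {F : ℕ → ℚ} (hF : ∀ i, F (i + d) = F i) (c : ℕ) :
    ∑ t ∈ range d, F (t + c) = ∑ t ∈ range d, F t := by
  induction c with
  | zero => simp
  | succ c ih =>
    rw [← ih]
    have h1 := Finset.sum_range_succ (fun t => F (t + c)) d
    have h2 := Finset.sum_range_succ' (fun t => F (t + c)) d
    rw [h1] at h2
    have h3 : F (d + c) = F (0 + c) := by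
      rw [Nat.add_comm d c, hF, Nat.zero_add]
    have h4 : ∑ t ∈ range d, F (t + 1 + c) = ∑ t ∈ range d, F (t + (c + 1)) := by
      apply Finset.sum_congr rfl
      intro t _
      congr 1
      omega
    rw [h3, h4] at h2
    linarith

section flow

variable {d : ℕ} {four : ℕ → Prop} [DecidablePred four] {F e : ℕ → ℚ}

/-- What is shipped from `i` to `i + 1`. -/
def flR (d : ℕ) (four : ℕ → Prop) [DecidablePred four] (F : ℕ → ℚ) (i : ℕ) : ℚ :=
  if four i then inQ (exc F (i + d - 1)) else if four (i + 1) then inQ (exc F i)
  else inT (exc F i)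

/-- What is shipped from `i + 1` to `i`. -/
def flL (four : ℕ → Prop) [DecidablePred four] (F : ℕ → ℚ) (i : ℕ) : ℚ :=
  if four (i + 1) then inQ (exc F (i + 2)) else if four i then inQ (exc F (i + 1))
  else inT (exc F (i + 1))

/-- The inequality at one position. -/
theorem flow_local (hd : 1 ≤ d) (hF : ∀ i, F (i + d) = F i)
    (h44 : ∀ i, four i → ¬ four (i + 1))
    (H : ∀ i, ¬ four (i + 1) →
      F (i + 1) - 1 + (if four (i + 2) then inQ (exc F (i + 3)) + e (i + 2) / 2
          else inT (exc F (i + 2))) +
        (if four i then inQ (exc F (i + d - 1)) + e i / 2 else inT (exc F i)) ≤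
      (if four (i + 2) then inQ (exc F (i + 1)) else inT (exc F (i + 1))) +
        (if four i then inQ (exc F (i + 1)) else inT (exc F (i + 1)))) (i : ℕ) :
    (if four (i + 1) then 1 + e (i + 1) else F (i + 1)) + flL four F (i + 1) + flR d four F i +
        (if four (i + 2) then e (i + 2) / 2 else 0) + (if four i then e i / 2 else 0) ≤
      1 + flR d four F (i + 1) + flL four F i + 2 * (if four (i + 1) then e (i + 1) / 2 else 0) := by
  by_cases h : four (i + 1)
  · have h0 : ¬ four i := fun h1 => h44 i h1 h
    have h2 : ¬ four (i + 2) := h44 (i + 1) h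
    have e1 : flL four F (i + 1) = inQ (exc F (i + 2)) := by
      unfold flL
      rw [if_neg (by exact h2), if_pos h]
    have e2 : flL four F i = inQ (exc F (i + 2)) := by
      unfold flL
      rw [if_pos h]
    have e3 : flR d four F i = inQ (exc F i) := by
      unfold flR
      rw [if_neg h0, if_pos h]
    have e4 : flR d four F (i + 1) = inQ (exc F i) := by
      unfold flR
      rw [if_pos h, show i + 1 + d - 1 = i + d by omega]
      unfold exc
      rw [hF]
    rw [e1, e2, e3, e4, if_pos h, if_neg h2, if_neg h0, if_pos h]
    linarith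
  · have h1 := H i h
    have e1 : flL four F (i + 1) = if four (i + 2) then inQ (exc F (i + 3))
        else inT (exc F (i + 2)) := by
      unfold flL
      rw [if_neg h]
    have e2 : flL four F i = if four i then inQ (exc F (i + 1)) else inT (exc F (i + 1)) := by
      unfold flL
      rw [if_neg h]
    have e3 : flR d four F i = if four i then inQ (exc F (i + d - 1)) else inT (exc F i) := by
      unfold flR
      rw [if_neg h]
    have e4 : flR d four F (i + 1) = if four (i + 2) then inQ (exc F (i + 1))
        else inT (exc F (i + 1)) := by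
      unfold flR
      rw [if_neg h]
    rw [e1, e2, e3, e4, if_neg h, if_neg h]
    by_cases h2 : four (i + 2) <;> by_cases h0 : four i
    · simp only [h2, h0, if_true] at h1 ⊢
      linarith
    · simp only [h2, h0, if_true, if_false] at h1 ⊢
      linarith
    · simp only [h2, h0, if_true, if_false] at h1 ⊢
      linarith
    · simp only [h2, h0, if_false] at h1 ⊢
      linarith

/-- The sum of the amounts is at most the length. -/
theorem flow_sum (hd : 3 ≤ d) (h4 : ∀ i, four (i + d) ↔ four i) (hF : ∀ i, F (i + d) = F i)
    (he : ∀ i, e (i + d) = e i) (h44 : ∀ i, four i → ¬ four (i + 1))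
    (H : ∀ i, ¬ four (i + 1) →
      F (i + 1) - 1 + (if four (i + 2) then inQ (exc F (i + 3)) + e (i + 2) / 2
          else inT (exc F (i + 2))) +
        (if four i then inQ (exc F (i + d - 1)) + e i / 2 else inT (exc F i)) ≤
      (if four (i + 2) then inQ (exc F (i + 1)) else inT (exc F (i + 1))) +
        (if four i then inQ (exc F (i + 1)) else inT (exc F (i + 1)))) :
    ∑ i ∈ range d, (if four i then 1 + e i else F i) ≤ d := by
  have pE : ∀ i, exc F (i + d) = exc F i := fun i => by
    unfold exc
    rw [hF]
  have pg : ∀ i, (if four (i + d) then 1 + e (i + d) else F (i + d)) =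
      if four i then 1 + e i else F i := fun i => by
    by_cases h : four i
    · rw [if_pos h, if_pos ((h4 i).2 h), he]
    · rw [if_neg h, if_neg (fun h1 => h ((h4 i).1 h1)), hF]
  have pq : ∀ i, (if four (i + d) then e (i + d) / 2 else 0) = if four i then e i / 2 else 0 :=
    fun i => by
    by_cases h : four i
    · rw [if_pos h, if_pos ((h4 i).2 h), he]
    · rw [if_neg h, if_neg (fun h1 => h ((h4 i).1 h1))]
  have pR : ∀ i, flR d four F (i + d) = flR d four F i := fun i => by
    unfold flR
    have e1 : four (i + d + 1) ↔ four (i + 1) := by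
      rw [show i + d + 1 = i + 1 + d by omega]
      exact h4 _
    have e2 : exc F (i + d + d - 1) = exc F (i + d - 1) := by
      rw [show i + d + d - 1 = i + d - 1 + d by omega, pE]
    by_cases h : four i
    · rw [if_pos h, if_pos ((h4 i).2 h), e2]
    · rw [if_neg h, if_neg (fun h1 => h ((h4 i).1 h1)), pE]
      by_cases h1 : four (i + 1)
      · rw [if_pos h1, if_pos (e1.2 h1)]
      · rw [if_neg h1, if_neg (fun h2 => h1 (e1.1 h2))]
  have pL : ∀ i, flL four F (i + d) = flL four F i := fun i => by
    unfold flL
    have e1 : four (i + d + 1) ↔ four (i + 1) := by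
      rw [show i + d + 1 = i + 1 + d by omega]
      exact h4 _
    rw [show i + d + 2 = i + 2 + d by omega, pE, show i + d + 1 = i + 1 + d by omega, pE]
    by_cases h : four (i + 1)
    · rw [if_pos h, if_pos ((h4 _).2 h)]
    · rw [if_neg h, if_neg (fun h1 => h ((h4 _).1 h1))]
      by_cases h1 : four i
      · rw [if_pos h1, if_pos ((h4 i).2 h1)]
      · rw [if_neg h1, if_neg (fun h2 => h1 ((h4 i).1 h2))]
  have h1 := Finset.sum_le_sum fun i (_ : i ∈ range d) => flow_local (by omega) hF h44 H i
  simp only [Finset.sum_add_distrib, ← Finset.mul_sum] at h1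
  have s1 := sum_shift (d := d) (F := fun i => if four i then 1 + e i else F i) pg 1
  have s2 := sum_shift (d := d) (F := flL four F) pL 1
  have s3 := sum_shift (d := d) (F := flR d four F) pR 1
  have s4 := sum_shift (d := d) (F := fun i => if four i then e i / 2 else 0) pq 1
  have s5 := sum_shift (d := d) (F := fun i => if four i then e i / 2 else 0) pq 2
  beta_reduce at s1 s4 s5
  rw [s1, s2, s3, s4, s5] at h1
  simp only [Finset.sum_const, Finset.card_range, nsmul_eq_mul, mul_one] at h1
  linarith

end flow

section shares

variable {d : ℕ} {four : ℕ → Prop} [DecidablePred four] {F e toR toL : ℕ → ℚ}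

/-- What is shipped from `i` to `i + 1`. -/
def shR (d : ℕ) (four : ℕ → Prop) [DecidablePred four] (toR : ℕ → ℚ) (i : ℕ) : ℚ :=
  if four i then toR (i + d - 1) else toR i

/-- What is shipped from `i + 1` to `i`. -/
def shL (four : ℕ → Prop) [DecidablePred four] (toL : ℕ → ℚ) (i : ℕ) : ℚ :=
  if four (i + 1) then toL (i + 2) else toL (i + 1)

/-- The inequality at one position, for arbitrary shares `toR`, `toL`. -/
theorem share_local (hd : 1 ≤ d) (hR : ∀ i, toR (i + d) = toR i)
    (h44 : ∀ i, four i → ¬ four (i + 1))
    (H : ∀ i, ¬ four (i + 1) →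
      F (i + 1) - 1 + (if four (i + 2) then toL (i + 3) + e (i + 2) / 2 else toL (i + 2)) +
        (if four i then toR (i + d - 1) + e i / 2 else toR i) ≤ toR (i + 1) + toL (i + 1))
    (i : ℕ) :
    (if four (i + 1) then 1 + e (i + 1) else F (i + 1)) + shL four toL (i + 1) +
        shR d four toR i +
        (if four (i + 2) then e (i + 2) / 2 else 0) + (if four i then e i / 2 else 0) ≤
      1 + shR d four toR (i + 1) + shL four toL i +
        2 * (if four (i + 1) then e (i + 1) / 2 else 0) := by
  by_cases h : four (i + 1)
  · have h0 : ¬ four i := fun h1 => h44 i h1 h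
    have h2 : ¬ four (i + 2) := h44 (i + 1) h
    have e1 : shL four toL (i + 1) = toL (i + 2) := by
      unfold shL
      rw [if_neg (by exact h2)]
    have e2 : shL four toL i = toL (i + 2) := by
      unfold shL
      rw [if_pos h]
    have e3 : shR d four toR i = toR i := by
      unfold shR
      rw [if_neg h0]
    have e4 : shR d four toR (i + 1) = toR i := by
      unfold shR
      rw [if_pos h, show i + 1 + d - 1 = i + d by omega, hR]
    rw [e1, e2, e3, e4, if_pos h, if_neg h2, if_neg h0, if_pos h]
    linarith
  · have h1 := H i h
    have e1 : shL four toL (i + 1) = if four (i + 2) then toL (i + 3) else toL (i + 2) := rfl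
    have e2 : shL four toL i = toL (i + 1) := by
      unfold shL
      rw [if_neg h]
    have e3 : shR d four toR i = if four i then toR (i + d - 1) else toR i := rfl
    have e4 : shR d four toR (i + 1) = toR (i + 1) := by
      unfold shR
      rw [if_neg h]
    rw [e1, e2, e3, e4, if_neg h, if_neg h]
    by_cases h2 : four (i + 2) <;> by_cases h0 : four i
    · simp only [h2, h0, if_true] at h1 ⊢
      linarith
    · simp only [h2, h0, if_true, if_false] at h1 ⊢
      linarith
    · simp only [h2, h0, if_true, if_false] at h1 ⊢
      linarith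
    · simp only [h2, h0, if_false] at h1 ⊢
      linarith

/-- The sum of the amounts is at most the length, for arbitrary shares `toR i` (what `i` ships to
the right) and `toL i` (to the left). -/
theorem share_sum (hd : 1 ≤ d) (h4 : ∀ i, four (i + d) ↔ four i) (hF : ∀ i, F (i + d) = F i)
    (he : ∀ i, e (i + d) = e i) (hR : ∀ i, toR (i + d) = toR i) (hL : ∀ i, toL (i + d) = toL i)
    (h44 : ∀ i, four i → ¬ four (i + 1))
    (H : ∀ i, ¬ four (i + 1) →
      F (i + 1) - 1 + (if four (i + 2) then toL (i + 3) + e (i + 2) / 2 else toL (i + 2)) +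
        (if four i then toR (i + d - 1) + e i / 2 else toR i) ≤ toR (i + 1) + toL (i + 1)) :
    ∑ i ∈ range d, (if four i then 1 + e i else F i) ≤ d := by
  have pg : ∀ i, (if four (i + d) then 1 + e (i + d) else F (i + d)) =
      if four i then 1 + e i else F i := fun i => by
    by_cases h : four i
    · rw [if_pos h, if_pos ((h4 i).2 h), he]
    · rw [if_neg h, if_neg (fun h1 => h ((h4 i).1 h1)), hF]
  have pq : ∀ i, (if four (i + d) then e (i + d) / 2 else 0) = if four i then e i / 2 else 0 :=
    fun i => by
    by_cases h : four i
    · rw [if_pos h, if_pos ((h4 i).2 h), he]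
    · rw [if_neg h, if_neg (fun h1 => h ((h4 i).1 h1))]
  have pR : ∀ i, shR d four toR (i + d) = shR d four toR i := fun i => by
    unfold shR
    rw [show i + d + d - 1 = i + d - 1 + d by omega, hR, hR]
    by_cases h : four i
    · rw [if_pos h, if_pos ((h4 i).2 h)]
    · rw [if_neg h, if_neg (fun h1 => h ((h4 i).1 h1))]
  have pL : ∀ i, shL four toL (i + d) = shL four toL i := fun i => by
    unfold shL
    rw [show i + d + 2 = i + 2 + d by omega, hL, show i + d + 1 = i + 1 + d by omega, hL]
    by_cases h : four (i + 1)
    · rw [if_pos h, if_pos ((h4 _).2 h)]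
    · rw [if_neg h, if_neg (fun h1 => h ((h4 _).1 h1))]
  have h1 := Finset.sum_le_sum fun i (_ : i ∈ range d) => share_local hd hR h44 H i
  simp only [Finset.sum_add_distrib, ← Finset.mul_sum] at h1
  have s1 := sum_shift (d := d) (F := fun i => if four i then 1 + e i else F i) pg 1
  have s2 := sum_shift (d := d) (F := shL four toL) pL 1
  have s3 := sum_shift (d := d) (F := shR d four toR) pR 1
  have s4 := sum_shift (d := d) (F := fun i => if four i then e i / 2 else 0) pq 1
  have s5 := sum_shift (d := d) (F := fun i => if four i then e i / 2 else 0) pq 2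
  beta_reduce at s1 s4 s5
  rw [s1, s2, s3, s4, s5] at h1
  simp only [Finset.sum_const, Finset.card_range, nsmul_eq_mul, mul_one] at h1
  linarith

end shares

end BigSum

end Pool.Agent.W986
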