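import Pool.Agent.W986.SubCtr
import Pool.Agent.W986.NoSep
import Pool.Agent.W986.MinDeg

/-!
# Triangulations by facial walks and by triangles
-/

set_option autoImplicit false

open Finset

namespace Pool.Agent.W986

open Pool.Agent.DC76

section totype

variable {V : Type} {G : SimpleGraph V} {T : V → V → V → Prop} {χ : ℤ} {S : Finset V}

/-- The vertex set as a type. -/
theorem TriLoc.toType [DecidableEq V] (h : TriLoc S G T) :
    TriLoc (univ : Finset {v // v ∈ S}) (G.comap Subtype.val) (fun x y z => T x.1 y.1 z.1) := by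
  refine ⟨fun x y z => h.rot _ _ _, fun x y z => h.swap _ _ _, fun x y z => h.adj _ _ _,
    fun _ _ _ => mem_univ _, ?_, ?_⟩
  · rintro ⟨x, hx⟩ _
    obtain ⟨d, ν, hν⟩ := h.rotation x hx
    have hS : ∀ i, ν i ∈ S := fun i => h.mem _ _ (hν.adj_nu i).symm
    refine ⟨d, fun i => ⟨ν i, hS i⟩, hν.three, fun i => Subtype.ext (hν.per i),
      fun i hi j hj hij => hν.inj i hi j hj (congrArg Subtype.val hij), ?_, ?_⟩
    · rintro ⟨y, hy⟩
      change G.Adj x y ↔ _
      rw [hν.adj y]
      constructor
      · rintro ⟨i, h1, h2⟩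
        exact ⟨i, h1, Subtype.ext h2⟩
      · rintro ⟨i, h1, h2⟩
        exact ⟨i, h1, congrArg Subtype.val h2⟩
    · rintro i ⟨y, hy⟩
      change T x (ν (i + 1)) y ↔ _
      rw [hν.tri i y]
      constructor
      · rintro (h1 | h1)
        · exact Or.inl (Subtype.ext h1)
        · exact Or.inr (Subtype.ext h1)
      · rintro (h1 | h1)
        · exact Or.inl (congrArg Subtype.val h1)
        · exact Or.inr (congrArg Subtype.val h1)
  · rintro ⟨x, hx⟩ _ ⟨y, hy⟩ _
    obtain ⟨p⟩ := h.conn x hx y hy
    have key : ∀ u w : V, G.Walk u w → ∀ (hu : u ∈ S) (hw : w ∈ S),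
        (G.comap (Subtype.val : {v // v ∈ S} → V)).Reachable ⟨u, hu⟩ ⟨w, hw⟩ := by
      intro u w p
      induction p with
      | nil => exact fun _ _ => SimpleGraph.Reachable.refl _
      | @cons a b c hadj _ ih =>
        intro hu hw
        have hb : b ∈ S := h.mem _ _ hadj.symm
        have h1 : (G.comap (Subtype.val : {v // v ∈ S} → V)).Adj ⟨a, hu⟩ ⟨b, hb⟩ := hadj
        exact h1.reachable.trans (ih hb hw)
    exact key _ _ p hx hy

theorem TriLoc.ncard_toType [DecidableEq V] (h : TriLoc S G T) (x : {v // v ∈ S}) :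
    {y | (G.comap (Subtype.val : {v // v ∈ S} → V)).Adj x y}.ncard = {y | G.Adj x.1 y}.ncard := by
  have h2 : {y | G.Adj x.1 y} =
      Subtype.val '' {y | (G.comap (Subtype.val : {v // v ∈ S} → V)).Adj x y} := by
    ext y
    constructor
    · intro hy
      exact ⟨⟨y, h.mem _ _ (SimpleGraph.Adj.symm hy)⟩, hy, rfl⟩
    · rintro ⟨y', hy, rfl⟩
      exact hy
  rw [h2, Set.ncard_image_of_injective _ Subtype.val_injective]

/-- The vertex set as a type. -/
theorem TriOn.toType [DecidableEq V] (h : TriOn χ S G T) :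
    TriOn χ (univ : Finset {v // v ∈ S}) (G.comap Subtype.val) (fun x y z => T x.1 y.1 z.1) := by
  refine ⟨h.toTriLoc.toType, ?_⟩
  have e := h.euler
  rw [Finset.sum_congr rfl fun x _ => by rw [h.toTriLoc.ncard_toType x]]
  rw [← Finset.sum_coe_sort S (fun x => ({y | G.Adj x y}.ncard : ℤ))] at e
  rw [card_univ, Fintype.card_coe]
  exact e

end totype

section conv

variable {V : Type} [Fintype V] [DecidableEq V] {G : SimpleGraph V} {F : Type} [Fintype F]

/-- A triangulation of the projective plane by facial walks is a triangulation. -/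
theorem triOn_of_walks (M : FacialWalks G F) (hL : Link M) (hG : G.Connected)
    (h3 : ∀ f, M.len f = 3)
    (hχ : (Fintype.card V : ℤ) - G.edgeSet.ncard + Fintype.card F = 1) (hE : ∃ x y, G.Adj x y) :
    TriOn 1 univ G (Tri M) := by
  classical
  have hn : ∀ v, ∃ w, G.Adj v w := by
    intro v
    obtain ⟨x, y, hxy⟩ := hE
    by_cases hv : v = x
    · exact ⟨y, hv ▸ hxy⟩
    · obtain ⟨p⟩ := hG.preconnected v x
      cases p with
      | nil => exact absurd rfl hv
      | cons h _ => exact ⟨_, h⟩
  refine ⟨⟨?_, ?_, ?_, fun _ _ _ => mem_univ _, ?_, fun x _ y _ => hG.preconnected x y⟩, ?_⟩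
  · rintro x y z ⟨f, h1, h2, h4⟩
    exact ⟨f, h2, h4, h1⟩
  · rintro x y z ⟨f, h1, h2, h4⟩
    exact ⟨f, h1.symm, h4.symm, h2.symm⟩
  · rintro x y z ⟨f, h1, _⟩
    exact adj_of_at M h1
  · intro x _
    obtain ⟨w, hw⟩ := hn x
    obtain ⟨d, ν, fc, h⟩ := exists_rot M hL (fun a b => three_nbrs M h3 hχ hw a b)
    exact ⟨d, ν, h.three, h.per, h.inj, h.adj, rot_tri_iff h3 h⟩
  · have h1 := tri_edges M h3
    have h2 := sum_deg (G := G)
    zify at h1 h2
    rw [h2, card_univ]
    linarith

end conv

section back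

variable {V : Type} [DecidableEq V]

theorem sum_ise {a b c u v : V} (hab : a ≠ b) (hbc : b ≠ c) (hca : c ≠ a) (huv : u ≠ v) :
    (if ise a b u v then 1 else 0) + (if ise b c u v then 1 else 0) +
      (if ise c a u v then 1 else 0) =
      if u ∈ ({a, b, c} : Finset V) ∧ v ∈ ({a, b, c} : Finset V) then 1 else 0 := by
  simp only [mem_insert, mem_singleton]
  unfold ise
  by_cases h1 : u = a
  · subst h1
    by_cases h2 : v = b
    · subst h2
      simp [hab, hbc, hca, huv, hab.symm, hbc.symm, hca.symm, huv.symm]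
    · by_cases h3 : v = c
      · subst h3
        simp [hab, hbc, hca, huv, hab.symm, hbc.symm, hca.symm, huv.symm]
      · simp [Ne.symm h2, Ne.symm h3, h2, h3, huv, huv.symm, hab, hca, hab.symm, hca.symm]
  · by_cases h2 : u = b
    · subst h2
      by_cases h3 : v = a
      · subst h3
        simp [hab, hbc, hca, huv, hab.symm, hbc.symm, hca.symm, huv.symm]
      · by_cases h4 : v = c
        · subst h4
          simp [hab, hbc, hca, huv, hab.symm, hbc.symm, hca.symm, huv.symm]
        · simp [Ne.symm h3, Ne.symm h4, h3, h4, huv, huv.symm, hab, hbc, hab.symm, hbc.symm]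
    · by_cases h3 : u = c
      · subst h3
        by_cases h4 : v = a
        · subst h4
          simp [hab, hbc, hca, huv, hab.symm, hbc.symm, hca.symm, huv.symm]
        · by_cases h5 : v = b
          · subst h5
            simp [hab, hbc, hca, huv, hab.symm, hbc.symm, hca.symm, huv.symm]
          · simp [Ne.symm h4, Ne.symm h5, h4, h5, huv, huv.symm, hca, hbc, hca.symm, hbc.symm]
      · simp [h1, h2, h3, Ne.symm h1, Ne.symm h2, Ne.symm h3]

theorem perm_third {T : V → V → V → Prop} (rot : ∀ x y z, T x y z → T y z x)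
    (swap : ∀ x y z, T x y z → T y x z) {a b c u v : V} (h : T a b c) (huv : u ≠ v)
    (hu : u ∈ ({a, b, c} : Finset V)) (hv : v ∈ ({a, b, c} : Finset V)) :
    ∃ w, T u v w ∧ ({a, b, c} : Finset V) = {u, v, w} := by
  have h1 := rot _ _ _ h
  have h2 := rot _ _ _ h1
  have h3 := swap _ _ _ h
  have h4 := swap _ _ _ h1
  have h5 := swap _ _ _ h2
  simp only [mem_insert, mem_singleton] at hu hv
  rcases hu with rfl | rfl | rfl <;> rcases hv with rfl | rfl | rfl
  · exact absurd rfl huv
  · exact ⟨_, h, rfl⟩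
  · exact ⟨_, h5, by ext; simp only [mem_insert, mem_singleton]; tauto⟩
  · exact ⟨_, h3, by ext; simp only [mem_insert, mem_singleton]; tauto⟩
  · exact absurd rfl huv
  · exact ⟨_, h1, by ext; simp only [mem_insert, mem_singleton]; tauto⟩
  · exact ⟨_, h2, by ext; simp only [mem_insert, mem_singleton]; tauto⟩
  · exact ⟨_, h4, by ext; simp only [mem_insert, mem_singleton]; tauto⟩
  · exact absurd rfl huv

/-- The local conditions give facial walks. -/
theorem TriLoc.exists_walks [Fintype V] {G : SimpleGraph V} {T : V → V → V → Prop}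
    (h : TriLoc univ G T) [hne : Nonempty V] :
    G.Connected ∧ ∃ (F : Type) (_ : Fintype F) (M : FacialWalks G F), Link M ∧
      (∀ f, M.len f = 3) ∧ ∀ x y z, T x y z ↔ Tri M x y z := by
  classical
  have hG : G.Connected := ⟨fun x y => h.conn x (mem_univ _) y (mem_univ _)⟩
  refine ⟨hG, ?_⟩
  let F := {s : Finset V // ∃ a b c, T a b c ∧ s = {a, b, c}}
  choose a b c hT hs using fun f : F => f.2
  have hadj : ∀ f t, t < 3 → G.Adj (tw (a f) (b f) (c f) t) (tw (a f) (b f) (c f) (t + 1)) := by
    intro f t ht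
    have e := h.adj2 (hT f)
    have ht' : t = 0 ∨ t = 1 ∨ t = 2 := by omega
    rcases ht' with rfl | rfl | rfl
    · exact e.1
    · exact e.2.1
    · exact e.2.2
  have htw : ∀ u v, G.Adj u v → ∑ f : F, trav 3 (tw (a f) (b f) (c f)) u v = 2 := by
    intro u v huv
    have h1 : ∀ f : F, trav 3 (tw (a f) (b f) (c f)) u v = if u ∈ f.1 ∧ v ∈ f.1 then 1 else 0 := by
      intro f
      have e := h.adj2 (hT f)
      rw [trav_tw, sum_ise e.1.ne e.2.1.ne e.2.2.ne huv.ne, ← hs f]
    rw [sum_congr rfl fun f _ => h1 f, ← card_filter]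
    obtain ⟨p, q, hpq, k⟩ := h.two huv
    have hp := (k p).2 (Or.inl rfl)
    have hq := (k q).2 (Or.inr rfl)
    let fp : F := ⟨{u, v, p}, u, v, p, hp, rfl⟩
    let fq : F := ⟨{u, v, q}, u, v, q, hq, rfl⟩
    have hne' : fp ≠ fq := by
      intro h3
      have h4 : ({u, v, p} : Finset V) = {u, v, q} := congrArg Subtype.val h3
      have h5 : p ∈ ({u, v, q} : Finset V) := by
        rw [← h4]
        simp
      simp only [mem_insert, mem_singleton] at h5
      have e := h.adj2 hp
      rcases h5 with h5 | h5 | h5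
      · exact e.2.2.ne h5
      · exact e.2.1.ne h5.symm
      · exact hpq h5
    have h2 : (univ.filter fun f : F => u ∈ f.1 ∧ v ∈ f.1) = {fp, fq} := by
      ext f
      rw [mem_filter, mem_insert, mem_singleton]
      constructor
      · rintro ⟨_, hu, hv⟩
        rw [hs f] at hu hv
        obtain ⟨w, hw1, hw2⟩ := perm_third h.rot h.swap (hT f) huv.ne hu hv
        rw [← hs f] at hw2
        rcases (k w).1 hw1 with rfl | rfl
        · exact Or.inl (Subtype.ext hw2)
        · exact Or.inr (Subtype.ext hw2)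
      · rintro (rfl | rfl)
        · exact ⟨mem_univ _, by simp [fp], by simp [fp]⟩
        · exact ⟨mem_univ _, by simp [fq], by simp [fq]⟩
    rw [h2, card_pair hne']
  have hlk : ∀ (v : V) (N : Set V), (∃ a ∈ N, G.Adj v a) → (∃ a, a ∉ N ∧ G.Adj v a) →
      ∃ f t, t < 3 ∧ tw (a f) (b f) (c f) (t + 1) = v ∧
        ¬ (tw (a f) (b f) (c f) t ∈ N ↔ tw (a f) (b f) (c f) ((t + 1) % 3 + 1) ∈ N) := by
    rintro v N ⟨p', hp', hvp'⟩ ⟨q', hq', hvq'⟩
    obtain ⟨p, q, hp, hq, hvpq⟩ := h.split N hvp' hp' hvq' hq'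
    have e := h.adj2 hvpq
    let f : F := ⟨{v, p, q}, v, p, q, hvpq, rfl⟩
    have ef := h.adj2 (hT f)
    have hset : ({a f, b f, c f} : Finset V) = {v, p, q} := (hs f).symm
    have hv : v ∈ ({a f, b f, c f} : Finset V) := by rw [hset]; simp
    have hpm : p ∈ ({a f, b f, c f} : Finset V) := by rw [hset]; simp
    have hqm : q ∈ ({a f, b f, c f} : Finset V) := by rw [hset]; simp
    have hvp := e.1.ne
    have hpq := e.2.1.ne
    have hqv := e.2.2.ne
    simp only [mem_insert, mem_singleton] at hv hpm hqm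
    refine ⟨f, ?_⟩
    rcases hv with hv | hv | hv
    · refine ⟨2, by omega, hv.symm, ?_⟩
      change ¬ (c f ∈ N ↔ b f ∈ N)
      rcases hpm with h1 | h1 | h1
      · exact absurd (hv.trans h1.symm) hvp
      · rcases hqm with h2 | h2 | h2
        · exact absurd (hv.trans h2.symm) hqv.symm
        · exact absurd (h1.trans h2.symm) hpq
        · rw [← h1, ← h2]
          tauto
      · rcases hqm with h2 | h2 | h2
        · exact absurd (hv.trans h2.symm) hqv.symm
        · rw [← h1, ← h2]
          tauto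
        · exact absurd (h1.trans h2.symm) hpq
    · refine ⟨0, by omega, hv.symm, ?_⟩
      change ¬ (a f ∈ N ↔ c f ∈ N)
      rcases hpm with h1 | h1 | h1
      · rcases hqm with h2 | h2 | h2
        · exact absurd (h1.trans h2.symm) hpq
        · exact absurd (hv.trans h2.symm) hqv.symm
        · rw [← h1, ← h2]
          tauto
      · exact absurd (hv.trans h1.symm) hvp
      · rcases hqm with h2 | h2 | h2
        · rw [← h1, ← h2]
          tauto
        · exact absurd (hv.trans h2.symm) hqv.symm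
        · exact absurd (h1.trans h2.symm) hpq
    · refine ⟨1, by omega, hv.symm, ?_⟩
      change ¬ (b f ∈ N ↔ a f ∈ N)
      rcases hpm with h1 | h1 | h1
      · rcases hqm with h2 | h2 | h2
        · exact absurd (h1.trans h2.symm) hpq
        · rw [← h1, ← h2]
          tauto
        · exact absurd (hv.trans h2.symm) hqv.symm
      · rcases hqm with h2 | h2 | h2
        · rw [← h1, ← h2]
          tauto
        · exact absurd (h1.trans h2.symm) hpq
        · exact absurd (hv.trans h2.symm) hqv.symm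
      · exact absurd (hv.trans h1.symm) hvp
  let M : FacialWalks G F :=
    ⟨fun _ => 3, fun f => tw (a f) (b f) (c f), fun _ => rfl, hadj, htw,
      dual_of_link (fun _ => 3) (fun f => tw (a f) (b f) (c f)) hadj (fun _ => rfl) htw
        (fun _ => by omega) hG hlk⟩
  refine ⟨F, inferInstance, M, hlk, fun _ => rfl, fun x y z => ?_⟩
  have hvs : ∀ f : F, vs M f = f.1 := fun f => (hs f).symm
  rw [tri_vs M (fun _ => rfl)]
  constructor
  · intro hxyz
    have e := h.adj2 hxyz
    exact ⟨e.1.ne, e.2.1.ne, e.2.2.ne, ⟨{x, y, z}, x, y, z, hxyz, rfl⟩, hvs _⟩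
  · rintro ⟨hxy, hyz, hzx, f, hf⟩
    rw [hvs, hs f] at hf
    obtain ⟨w, hw1, hw2⟩ := perm_third h.rot h.swap (hT f) hxy (by rw [hf]; simp)
      (by rw [hf]; simp)
    have h1 : z ∈ ({x, y, w} : Finset V) := by
      rw [← hw2, hf]
      simp
    simp only [mem_insert, mem_singleton] at h1
    rcases h1 with h1 | h1 | h1
    · exact absurd h1 hzx
    · exact absurd h1.symm hyz
    · rw [h1]
      exact hw1

/-- A triangulation has facial walks. -/
theorem TriOn.exists_walks [Fintype V] {G : SimpleGraph V} {T : V → V → V → Prop} {χ : ℤ}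
    (h : TriOn χ univ G T) [hne : Nonempty V] :
    G.Connected ∧ ∃ (F : Type) (_ : Fintype F) (M : FacialWalks G F), Link M ∧
      (∀ f, M.len f = 3) ∧ (∀ x y z, T x y z ↔ Tri M x y z) ∧
      (Fintype.card V : ℤ) - G.edgeSet.ncard + Fintype.card F = χ := by
  classical
  obtain ⟨hG, F, iF, M, hL, hl, hT⟩ := h.toTriLoc.exists_walks
  refine ⟨hG, F, iF, M, hL, hl, hT, ?_⟩
  have h1 := tri_edges M hl
  have h2 := sum_deg G
  have h3 := h.euler
  zify at h1 h2
  rw [h2, card_univ] at h3
  linarith

end back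

end Pool.Agent.W986
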