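import Pool.Agent.W986.SubDisc
import Pool.Agent.W986.SubConv

/-!
# Simple closed walks in triangulations bound sets of triangles
-/

set_option autoImplicit false

open Finset

namespace Pool.Agent.W986

open Pool.Agent.DC76

/-- `s` tells on which side of the closed walk `w` a triangle is. -/
structure Sides {V : Type} [DecidableEq V] (T : V → V → V → Prop) (n : ℕ) (w : ℕ → V)
    (s : V → V → V → ZMod 2) : Prop where
  rot : ∀ x y z, s x y z = s y z x
  swap : ∀ x y z, s x y z = s y x z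
  edge : ∀ x y a b, a ≠ b → T x y a → T x y b → s x y a + s x y b = chain n w x y

section faces

variable {V : Type} [DecidableEq V] {G : SimpleGraph V} {F : Type} [Fintype F]

/-- The two faces at an edge. -/
theorem faces_at [DecidableEq F] (M : FacialWalks G F) (h3 : ∀ f, M.len f = 3) {x y a b : V}
    (hab : a ≠ b) (ha : Tri M x y a) (hb : Tri M x y b) :
    ∃ f g, f ≠ g ∧ vs M f = {x, y, a} ∧ vs M g = {x, y, b} ∧
      (∀ h, vs M h = {x, y, a} → h = f) ∧ (∀ h, vs M h = {x, y, b} → h = g) ∧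
      ∀ J : Finset F, bd M J x y = (if f ∈ J then 1 else 0) + (if g ∈ J then 1 else 0) := by
  rw [tri_vs M h3] at ha hb
  obtain ⟨hxy, hya, hax, f, hf⟩ := ha
  obtain ⟨_, hyb, hbx, g, hg⟩ := hb
  have hfxy : At M f x y := by
    rw [at_iff M (h3 f), hf]
    exact ⟨hxy, by simp, by simp⟩
  have hgxy : At M g x y := by
    rw [at_iff M (h3 g), hg]
    exact ⟨hxy, by simp, by simp⟩
  have hne : ∀ f' g', vs M f' = {x, y, a} → vs M g' = {x, y, b} → f' ≠ g' := by
    rintro f' g' h1 h2 rfl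
    have h4 : a ∈ ({x, y, b} : Finset V) := by
      rw [← h2, h1]
      simp
    simp only [mem_insert, mem_singleton] at h4
    rcases h4 with h4 | h4 | h4
    · exact hax h4
    · exact hya h4.symm
    · exact hab h4
  have hfg : f ≠ g := hne f g hf hg
  have htw := M.twice x y (adj_of_at M hfxy)
  have honly : ∀ f', At M f' x y → f' = f ∨ f' = g := by
    intro f' h1
    by_contra hcon
    push Not at hcon
    have h2 : ({f', f, g} : Finset F).sum (fun f => trav (M.len f) (M.walk f) x y) ≤ 2 := by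
      rw [← htw]
      exact sum_le_sum_of_subset (subset_univ _)
    rw [sum_insert (by simp [hcon.1, hcon.2]), sum_pair hfg] at h2
    unfold At at h1 hfxy hgxy
    omega
  refine ⟨f, g, hfg, hf, hg, ?_, ?_, ?_⟩
  · intro h h6
    have h7 : At M h x y := by
      rw [at_iff M (h3 h), h6]
      exact ⟨hxy, by simp, by simp⟩
    rcases honly h h7 with h8 | h8
    · exact h8
    · exact absurd h8 (hne h g h6 hg)
  · intro h h6
    have h7 : At M h x y := by
      rw [at_iff M (h3 h), h6]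
      exact ⟨hxy, by simp, by simp⟩
    rcases honly h h7 with h8 | h8
    · exact absurd h8.symm (hne f h hf h6)
    · exact h8
  · have h2 : trav (M.len f) (M.walk f) x y = 1 ∧ trav (M.len g) (M.walk g) x y = 1 := by
      have h4 : ({f, g} : Finset F).sum (fun f => trav (M.len f) (M.walk f) x y) ≤ 2 := by
        rw [← htw]
        exact sum_le_sum_of_subset (subset_univ _)
      rw [sum_pair hfg] at h4
      unfold At at hfxy hgxy
      omega
    intro J
    have h5 : ∀ h ∈ J, trav (M.len h) (M.walk h) x y =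
        (if h = f then 1 else 0) + (if h = g then 1 else 0) := by
      intro h _
      by_cases h6 : h = f
      · rw [if_pos h6, if_neg (fun h7 => hfg (h6.symm.trans h7)), h6, h2.1]
      · by_cases h7 : h = g
        · rw [if_neg h6, if_pos h7, h7, h2.2]
        · rw [if_neg h6, if_neg h7]
          by_contra h8
          rcases honly h h8 with h9 | h9
          · exact h6 h9
          · exact h7 h9
    unfold bd
    rw [sum_congr rfl h5, sum_add_distrib, sum_ite_eq', sum_ite_eq']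

variable [Fintype V] [DecidableEq F] {T : V → V → V → Prop} {n : ℕ} {w : ℕ → V}

/-- A set of faces with boundary `w` gives the sides of the triangles. -/
theorem exists_sides_disc (M : FacialWalks G F) (h3 : ∀ f, M.len f = 3)
    (hT : ∀ x y z, T x y z ↔ Tri M x y z) {J : Finset F} (hJ : fsum M J = chain n w) :
    ∃ s, Sides T n w s := by
  classical
  refine ⟨fun x y z => if ∃ f ∈ J, vs M f = {x, y, z} then 1 else 0, ?_, ?_, ?_⟩
  · intro x y z
    have h1 : ({x, y, z} : Finset V) = {y, z, x} := by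
      ext u
      simp only [mem_insert, mem_singleton]
      tauto
    beta_reduce
    rw [h1]
  · intro x y z
    have h1 : ({x, y, z} : Finset V) = {y, x, z} := by
      ext u
      simp only [mem_insert, mem_singleton]
      tauto
    beta_reduce
    rw [h1]
  · intro x y a b hab ha hb
    beta_reduce
    rw [hT] at ha hb
    obtain ⟨f, g, _, hf, hg, hf1, hg1, hbd⟩ := faces_at M h3 hab ha hb
    have h4 : (∃ h ∈ J, vs M h = {x, y, a}) ↔ f ∈ J := by
      constructor
      · rintro ⟨h, h5, h6⟩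
        rw [← hf1 h h6]
        exact h5
      · intro h5
        exact ⟨f, h5, hf⟩
    have h5 : (∃ h ∈ J, vs M h = {x, y, b}) ↔ g ∈ J := by
      constructor
      · rintro ⟨h, h5, h6⟩
        rw [← hg1 h h6]
        exact h5
      · intro h5
        exact ⟨g, h5, hg⟩
    simp only [h4, h5]
    rw [← hJ, fsum_apply, hbd]
    push_cast
    rfl

/-- A symmetric function of the three vertices of a triangle. -/
theorem sym3 {β : Type} {s : V → V → V → β} (rot : ∀ x y z, s x y z = s y z x)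
    (swap : ∀ x y z, s x y z = s y x z) {a b c x y z : V}
    (h : ({a, b, c} : Finset V) = {x, y, z}) (hxy : x ≠ y) (hyz : y ≠ z) (hzx : z ≠ x) :
    s a b c = s x y z := by
  have hx : x ∈ ({a, b, c} : Finset V) := by rw [h]; simp
  have hy : y ∈ ({a, b, c} : Finset V) := by rw [h]; simp
  have hz : z ∈ ({a, b, c} : Finset V) := by rw [h]; simp
  simp only [mem_insert, mem_singleton] at hx hy hz
  rcases hx with rfl | rfl | rfl <;> rcases hy with rfl | rfl | rfl <;>
    rcases hz with rfl | rfl | rfl <;> first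
      | exact absurd rfl hxy
      | exact absurd rfl hyz
      | exact absurd rfl hzx
      | rfl
      | exact rot _ _ _
      | exact (rot _ _ _).symm
      | exact swap _ _ _
      | exact (rot _ _ _).trans (swap _ _ _)
      | exact (swap _ _ _).trans (rot _ _ _)

/-- The faces on one side. -/
theorem Sides.exists_faces {s : V → V → V → ZMod 2} (hs : Sides T n w s) (M : FacialWalks G F)
    (h3 : ∀ f, M.len f = 3) (hT : ∀ x y z, T x y z ↔ Tri M x y z) (h : TriLoc univ G T)
    (hw : Cyc G n w) (σ : ZMod 2) :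
    ∃ J : Finset F, fsum M J = chain n w ∧
      ∀ x y, (sideG M J).Adj x y ↔ ∃ z, T x y z ∧ s x y z = σ := by
  classical
  let J : Finset F := univ.filter fun f => s (M.walk f 0) (M.walk f 1) (M.walk f 2) = σ
  have hJ : ∀ x y z, T x y z → ∀ f, vs M f = {x, y, z} → (f ∈ J ↔ s x y z = σ) := by
    intro x y z hxyz f hf
    have e := h.adj2 hxyz
    rw [mem_filter, sym3 hs.rot hs.swap (show ({M.walk f 0, M.walk f 1, M.walk f 2} :
      Finset V) = {x, y, z} from hf) e.1.ne e.2.1.ne e.2.2.ne]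
    simp
  have key : ∀ x y, G.Adj x y → ∃ a b, T x y a ∧ T x y b ∧ (∀ z, T x y z ↔ z = a ∨ z = b) ∧
      a ≠ b ∧ bd M J x y = (if s x y a = σ then 1 else 0) + (if s x y b = σ then 1 else 0) := by
    intro x y hxy
    obtain ⟨a, b, hab, k⟩ := h.two hxy
    have ha := (k a).2 (Or.inl rfl)
    have hb := (k b).2 (Or.inr rfl)
    obtain ⟨f, g, _, hf, hg, _, _, hbd⟩ := faces_at M h3 hab ((hT _ _ _).1 ha) ((hT _ _ _).1 hb)
    refine ⟨a, b, ha, hb, k, hab, ?_⟩
    rw [hbd]
    simp only [hJ x y a ha f hf, hJ x y b hb g hg]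
  refine ⟨J, ?_, ?_⟩
  · funext x y
    rw [fsum_apply]
    by_cases hxy : G.Adj x y
    · obtain ⟨a, b, ha, hb, _, hab, hbd⟩ := key x y hxy
      rw [← hs.edge x y a b hab ha hb, hbd]
      have hdec : ∀ p q r : ZMod 2, (((if p = r then 1 else 0) + (if q = r then 1 else 0) : ℕ) :
          ZMod 2) = p + q := by decide
      exact hdec _ _ _
    · rw [bd_off M J hxy]
      have h1 : trav n w x y = 0 := by
        by_contra h2
        exact hxy (hw.adj_of_trav h2)
      unfold chain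
      rw [h1]
  · intro x y
    constructor
    · intro h1
      obtain ⟨a, b, ha, hb, _, hab, hbd⟩ := key x y (sideG_le M J h1)
      change bd M J x y ≠ 0 at h1
      rw [hbd] at h1
      by_cases h2 : s x y a = σ
      · exact ⟨a, ha, h2⟩
      · by_cases h4 : s x y b = σ
        · exact ⟨b, hb, h4⟩
        · rw [if_neg h2, if_neg h4] at h1
          exact absurd rfl h1
    · rintro ⟨z, hz, hsz⟩
      obtain ⟨a, b, ha, hb, k, hab, hbd⟩ := key x y (h.adj _ _ _ hz)
      change bd M J x y ≠ 0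
      rw [hbd]
      rcases (k z).1 hz with rfl | rfl
      · rw [if_pos hsz]
        omega
      · rw [if_pos hsz]
        omega

end faces

section transfer

variable {V : Type} [DecidableEq V] {G : SimpleGraph V} {T : V → V → V → Prop} {S : Finset V}
  {n : ℕ} {w : ℕ → V}

theorem Cyc.mem (hw : Cyc G n w) (h : TriLoc S G T) {t : ℕ} (ht : t ≤ n) : w t ∈ S := by
  have h3 := hw.three
  rcases Nat.lt_or_ge t n with h1 | h1
  · exact h.mem _ _ (hw.adj t h1)
  · rw [show t = n by omega, hw.closed]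
    exact h.mem _ _ (hw.adj 0 (by omega))

/-- The walk in the type of the vertices. -/
def toW (S : Finset V) (w : ℕ → V) (h0 : w 0 ∈ S) (t : ℕ) : {v // v ∈ S} :=
  if h : w t ∈ S then ⟨w t, h⟩ else ⟨w 0, h0⟩

theorem toW_val {h0 : w 0 ∈ S} {t : ℕ} (h : w t ∈ S) : (toW S w h0 t).1 = w t := by
  unfold toW
  rw [dif_pos h]

theorem Cyc.toW (hw : Cyc G n w) (h : TriLoc S G T) :
    Cyc (G.comap (Subtype.val : {v // v ∈ S} → V)) n (toW S w (hw.mem h (Nat.zero_le n))) := by
  have hv : ∀ t, t ≤ n → (Pool.Agent.W986.toW S w (hw.mem h (Nat.zero_le n)) t).1 = w t :=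
    fun t ht => toW_val (hw.mem h ht)
  refine ⟨hw.three, ?_, ?_, ?_⟩
  · apply Subtype.ext
    rw [hv n le_rfl, hv 0 (Nat.zero_le n), hw.closed]
  · intro t ht
    change G.Adj _ _
    rw [hv t ht.le, hv (t + 1) ht]
    exact hw.adj t ht
  · intro s t hs ht hst
    have h1 := congrArg Subtype.val hst
    rw [hv s hs.le, hv t ht.le] at h1
    exact hw.inj s t hs ht h1

theorem chain_toW (hw : Cyc G n w) (h : TriLoc S G T) (x y : {v // v ∈ S}) :
    chain n (toW S w (hw.mem h (Nat.zero_le n))) x y = chain n w x.1 y.1 := by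
  unfold chain
  congr 1
  rw [← trav_inj Subtype.val Subtype.val_injective]
  exact trav_congr (fun t ht => toW_val (hw.mem h ht)) _ _

theorem Sides.down {s : V → V → V → ZMod 2} (hs : Sides T n w s) (hw : Cyc G n w)
    (h : TriLoc S G T) :
    Sides (fun x y z : {v // v ∈ S} => T x.1 y.1 z.1) n (toW S w (hw.mem h (Nat.zero_le n)))
      (fun x y z => s x.1 y.1 z.1) := by
  refine ⟨fun x y z => hs.rot _ _ _, fun x y z => hs.swap _ _ _, ?_⟩
  intro x y a b hab ha hb
  rw [chain_toW hw h]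
  exact hs.edge _ _ _ _ (fun h1 => hab (Subtype.ext h1)) ha hb

theorem Sides.up {s : {v // v ∈ S} → {v // v ∈ S} → {v // v ∈ S} → ZMod 2} (hw : Cyc G n w)
    (h : TriLoc S G T)
    (hs : Sides (fun x y z : {v // v ∈ S} => T x.1 y.1 z.1) n
      (toW S w (hw.mem h (Nat.zero_le n))) s) : ∃ s', Sides T n w s' := by
  classical
  refine ⟨fun x y z => if e : x ∈ S ∧ y ∈ S ∧ z ∈ S then s ⟨x, e.1⟩ ⟨y, e.2.1⟩ ⟨z, e.2.2⟩ else 0,
    ?_, ?_, ?_⟩
  · intro x y z
    beta_reduce
    by_cases e : x ∈ S ∧ y ∈ S ∧ z ∈ S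
    · rw [dif_pos e, dif_pos ⟨e.2.1, e.2.2, e.1⟩]
      exact hs.rot _ _ _
    · rw [dif_neg e, dif_neg (fun e' => e ⟨e'.2.2, e'.1, e'.2.1⟩)]
  · intro x y z
    beta_reduce
    by_cases e : x ∈ S ∧ y ∈ S ∧ z ∈ S
    · rw [dif_pos e, dif_pos ⟨e.2.1, e.1, e.2.2⟩]
      exact hs.swap _ _ _
    · rw [dif_neg e, dif_neg (fun e' => e ⟨e'.2.1, e'.1, e'.2.2⟩)]
  · intro x y a b hab ha hb
    beta_reduce
    obtain ⟨e1, e2, e3⟩ := h.adj2 ha
    obtain ⟨_, e5, e6⟩ := h.adj2 hb
    have hx := h.mem _ _ e1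
    have hy := h.mem _ _ e2
    have ha' := h.mem _ _ e3
    have hb' := h.mem _ _ e6
    rw [dif_pos ⟨hx, hy, ha'⟩, dif_pos ⟨hx, hy, hb'⟩]
    rw [hs.edge ⟨x, hx⟩ ⟨y, hy⟩ ⟨a, ha'⟩ ⟨b, hb'⟩ (fun h1 => hab (congrArg Subtype.val h1)) ha hb]
    exact chain_toW hw h _ _

end transfer

section main

variable {V : Type} [DecidableEq V] {G : SimpleGraph V} {T : V → V → V → Prop} {S : Finset V}
  {n : ℕ} {w : ℕ → V}

/-- On the sphere every simple closed walk has two sides. -/
theorem TriOn.sides_sphere (h : TriOn 2 S G T) (hw : Cyc G n w) : ∃ s, Sides T n w s := by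
  classical
  have hne : Nonempty {v // v ∈ S} := ⟨⟨w 0, hw.mem h.toTriLoc (Nat.zero_le n)⟩⟩
  obtain ⟨hG, F, iF, M, hL, h3, hT, hχ⟩ := h.toType.exists_walks
  obtain ⟨J, hJ, _⟩ := exists_discs (M := M) hG hχ (hw.toW h.toTriLoc)
  obtain ⟨s, hs⟩ := exists_sides_disc M h3 hT hJ.bd
  exact Sides.up hw h.toTriLoc hs

/-- The Euler characteristic of a triangulated surface is at most two. -/
theorem TriOn.le_two {χ : ℤ} (h : TriOn χ S G T) (hS : S.Nonempty) : χ ≤ 2 := by
  classical
  obtain ⟨x, hx⟩ := hS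
  have hne : Nonempty {v // v ∈ S} := ⟨⟨x, hx⟩⟩
  obtain ⟨hG, F, iF, M, hL, h3, hT, hχ⟩ := h.toType.exists_walks
  rw [← hχ]
  exact euler_le_two M hG

/-- A cocycle on the triangles is even on the facial walks. -/
theorem cocycle_faces {W : Type} [DecidableEq W] {H : SimpleGraph W} {F : Type} [Fintype F]
    (M : FacialWalks H F) (h3 : ∀ f, M.len f = 3) {X : W → W → ZMod 2}
    (hX : ∀ x y z, Tri M x y z → X x y + X y z + X z x = 0) (f : F) :
    ∑ t ∈ range (M.len f), X (M.walk f t) (M.walk f (t + 1)) = 0 := by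
  have h01 := (M.adj f 0 (by rw [h3]; omega)).ne
  have h12 := (M.adj f 1 (by rw [h3]; omega)).ne
  have h20 := (M.adj f 2 (by rw [h3]; omega)).ne
  have hc := M.closed f
  rw [h3] at hc
  rw [show 2 + 1 = 3 from rfl, hc] at h20
  have h4 := hX (M.walk f 0) (M.walk f 1) (M.walk f 2)
    ((tri_vs M h3 _ _ _).2 ⟨h01, h12, h20, f, rfl⟩)
  rw [h3, sum_range_succ, sum_range_succ, sum_range_succ, range_zero, sum_empty, zero_add, hc]
  exact h4

theorem pr_Bnd {W : Type} [Fintype W] [DecidableEq W] {H : SimpleGraph W} {F : Type} [Fintype F]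
    (M : FacialWalks H F) {X : W → W → ZMod 2} (hX : ∀ x y, X x y = X y x)
    (hf : ∀ f, ∑ t ∈ range (M.len f), X (M.walk f t) (M.walk f (t + 1)) = 0)
    {z : W → W → ZMod 2} (hz : z ∈ Bnd M) : pr X z = 0 := by
  obtain ⟨I, rfl⟩ := (mem_Bnd M z).1 hz
  rw [map_sum]
  refine Finset.sum_eq_zero fun f _ => ?_
  have h1 : face M f = chain (M.len f) (M.walk f) := rfl
  rw [h1, pr_chain hX fun t ht => (M.adj f t ht).ne]
  exact hf f

/-- A cocycle is even on a simple closed walk with two sides. -/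
theorem Sides.even {s : V → V → V → ZMod 2} (hs : Sides T n w s) (hw : Cyc G n w)
    (h : TriLoc S G T) {X : V → V → ZMod 2} (hX : ∀ x y, X x y = X y x)
    (hT : ∀ x y z, T x y z → X x y + X y z + X z x = 0) :
    ∑ t ∈ range n, X (w t) (w (t + 1)) = 0 := by
  classical
  have hne : Nonempty {v // v ∈ S} := ⟨⟨w 0, hw.mem h (Nat.zero_le n)⟩⟩
  obtain ⟨hG, F, iF, M, hL, h3, hTM⟩ := h.toType.exists_walks
  have hw' := hw.toW h
  obtain ⟨J, hJ, _⟩ := (hs.down hw h).exists_faces M h3 hTM h.toType hw' 0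
  have h0 : chain n (toW S w (hw.mem h (Nat.zero_le n))) ∈ Bnd M := by
    rw [← hJ]
    exact fsum_mem M J
  have hX0 : ∀ x y : {v // v ∈ S}, X x.1 y.1 = X y.1 x.1 := fun x y => hX x.1 y.1
  have hf0 := cocycle_faces M h3 (X := fun x y : {v // v ∈ S} => X x.1 y.1) fun x y z hxyz =>
      hT x.1 y.1 z.1 ((hTM x y z).2 hxyz)
  have h1 := pr_Bnd M hX0 hf0 h0
  rw [pr_chain hX0 fun t ht => (hw'.adj t ht).ne] at h1
  rw [← h1]
  refine sum_congr rfl fun t ht => ?_
  rw [mem_range] at ht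
  rw [toW_val (hw.mem h ht.le), toW_val (hw.mem h (show t + 1 ≤ n from ht))]

/-- A function which is even on the facial walks is a cocycle on the triangles. -/
theorem cocycle_tri {W : Type} [Fintype W] [DecidableEq W] {H : SimpleGraph W} {F : Type}
    [Fintype F] (M : FacialWalks H F) (h3 : ∀ f, M.len f = 3) {X : W → W → ZMod 2}
    (hX : ∀ x y, X x y = X y x)
    (hf : ∀ f, ∑ t ∈ range (M.len f), X (M.walk f t) (M.walk f (t + 1)) = 0) {x y z : W}
    (h : Tri M x y z) : X x y + X y z + X z x = 0 := by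
  obtain ⟨n1, n2, n3, f, hvs⟩ := (tri_vs M h3 _ _ _).1 h
  have h4 := hf f
  have hc := M.closed f
  rw [h3] at hc
  rw [h3, sum_range_succ, sum_range_succ, sum_range_succ, range_zero, sum_empty, zero_add,
    hc] at h4
  have h5 := sym3 (s := fun a b c => X a b + X b c + X c a) (fun a b c => by ring)
    (fun a b c => by
      rw [hX a b, hX b c, hX c a]
      ring) (show ({M.walk f 0, M.walk f 1, M.walk f 2} : Finset W) = {x, y, z} from hvs)
    n1 n2 n3
  exact h5.symm.trans h4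

/-- On the projective plane the simple closed walks with two sides are the even ones. -/
theorem TriOn.sides_p2 (h : TriOn 1 S G T) (hS : S.Nonempty) : ∃ X : V → V → ZMod 2,
    (∀ x y, X x y = X y x) ∧ (∀ x y z, T x y z → X x y + X y z + X z x = 0) ∧
    (¬ ∃ g : V → ZMod 2, ∀ x y, G.Adj x y → g x + g y = X x y) ∧
    ∀ n w, Cyc G n w → ((∃ s, Sides T n w s) ↔ ∑ t ∈ range n, X (w t) (w (t + 1)) = 0) := by
  classical
  obtain ⟨x0, hx0⟩ := hS
  have hne : Nonempty {v // v ∈ S} := ⟨⟨x0, hx0⟩⟩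
  obtain ⟨hG, F, iF, M, hL, h3, hTM, hχ⟩ := h.toType.exists_walks
  have hE : ∃ x y, (G.comap (Subtype.val : {v // v ∈ S} → V)).Adj x y := by
    obtain ⟨d, ν, hν⟩ := h.rotation x0 hx0
    exact ⟨⟨x0, hx0⟩, ⟨ν 0, h.mem _ _ (hν.adj_nu 0).symm⟩, hν.adj_nu 0⟩
  obtain ⟨X, hX, hf, hodd⟩ := exists_cocycle M hχ hE
  obtain ⟨X', hX', hval⟩ : ∃ X' : V → V → ZMod 2, (∀ x y, X' x y = X' y x) ∧
      ∀ x y : {v // v ∈ S}, X' x.1 y.1 = X x y := by
    refine ⟨fun x y => if e : x ∈ S ∧ y ∈ S then X ⟨x, e.1⟩ ⟨y, e.2⟩ else 0, ?_, ?_⟩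
    · intro x y
      beta_reduce
      by_cases e : x ∈ S ∧ y ∈ S
      · rw [dif_pos e, dif_pos ⟨e.2, e.1⟩]
        exact hX _ _
      · rw [dif_neg e, dif_neg (fun e' => e ⟨e'.2, e'.1⟩)]
    · rintro ⟨x, hx⟩ ⟨y, hy⟩
      beta_reduce
      rw [dif_pos ⟨hx, hy⟩]
  have hT' : ∀ x y z, T x y z → X' x y + X' y z + X' z x = 0 := by
    intro x y z hxyz
    obtain ⟨e1, e2, e3⟩ := h.adj2 hxyz
    have hx := h.mem _ _ e1
    have hy := h.mem _ _ e2
    have hz := h.mem _ _ e3
    have h4 := cocycle_tri M h3 hX hf ((hTM ⟨x, hx⟩ ⟨y, hy⟩ ⟨z, hz⟩).1 hxyz)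
    rw [← hval, ← hval, ← hval] at h4
    exact h4
  refine ⟨X', hX', hT', ?_, ?_⟩
  · rintro ⟨g, hg⟩
    apply hodd
    refine ⟨fun x => g x.1, fun x y hxy => ?_⟩
    rw [← hval]
    exact hg _ _ hxy
  · intro n w hw
    constructor
    · rintro ⟨s, hs⟩
      exact hs.even hw h.toTriLoc hX' hT'
    · intro h0
      have hw' := hw.toW h.toTriLoc
      have h4 : chain n (toW S w (hw.mem h.toTriLoc (Nat.zero_le n))) ∈ Bnd M := by
        refine even_mem_Bnd M hG hχ hX hf hodd hw'.closed hw'.adj ?_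
        rw [← h0]
        refine sum_congr rfl fun t ht => ?_
        rw [mem_range] at ht
        rw [← hval, toW_val (hw.mem h.toTriLoc ht.le),
          toW_val (hw.mem h.toTriLoc (show t + 1 ≤ n from ht))]
      obtain ⟨J, hJ⟩ := (mem_Bnd M _).1 h4
      obtain ⟨s, hs⟩ := exists_sides_disc M h3 hTM (J := J) hJ.symm
      exact Sides.up hw h.toTriLoc hs

end main

section inner

variable {V : Type} [DecidableEq V] {G : SimpleGraph V} {T : V → V → V → Prop} {S : Finset V}
  {n : ℕ} {w : ℕ → V} {s : V → V → V → ZMod 2}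

/-- The vertex `v` is inside the side `σ`. -/
def IsInn (S : Finset V) (T : V → V → V → Prop) (n : ℕ) (w : ℕ → V) (s : V → V → V → ZMod 2)
    (σ : ZMod 2) (v : V) : Prop :=
  v ∈ S ∧ v ∉ cycV n w ∧ ∀ y z, T v y z → s v y z = σ

theorem Sides.flip (hs : Sides T n w s) (x y z : V) : s x y z = s x z y :=
  (hs.swap x y z).trans (hs.rot y x z)

theorem chain_one (hw : Cyc G n w) {t : ℕ} (ht : t < n) : chain n w (w t) (w (t + 1)) = 1 := by
  unfold chain
  rw [hw.trav_one (trav_pos' ht)]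
  rfl

theorem mem_cyc (hw : Cyc G n w) (t : ℕ) (ht : t ≤ n) : w t ∈ cycV n w := by
  rcases Nat.lt_or_ge t n with h1 | h1
  · exact mem_cycV.2 ⟨t, h1, rfl⟩
  · rw [show t = n by omega, hw.closed]
    exact mem_cycV.2 ⟨0, by have := hw.three; omega, rfl⟩

theorem chain_zero (hw : Cyc G n w) {v : V} (hv : v ∉ cycV n w) (y : V) : chain n w v y = 0 := by
  have h1 : trav n w v y = 0 := by
    by_contra h2
    obtain ⟨t, ht, ⟨a, _⟩ | ⟨_, b⟩⟩ := trav_ne h2
    · exact hv (a ▸ mem_cyc hw t ht.le)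
    · exact hv (b ▸ mem_cyc hw (t + 1) ht)
  unfold chain
  rw [h1]
  rfl

/-- All the triangles at a vertex off the walk are on the same side. -/
theorem Sides.const (hs : Sides T n w s) (hw : Cyc G n w) (h : TriLoc S G T) {v : V}
    (hv : v ∉ cycV n w) {y z y' z' : V} (h1 : T v y z) (h2 : T v y' z') :
    s v y z = s v y' z' := by
  obtain ⟨d, ν, hν⟩ := h.rotation v (h.mem _ _ (h.adj _ _ _ h1))
  have step : ∀ i, s v (ν i) (ν (i + 1)) = s v (ν (i + 1)) (ν (i + 2)) := by
    intro i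
    have h3 := hs.edge v (ν (i + 1)) (ν i) (ν (i + 2)) (hν.ne_two i)
      ((hν.tri i _).2 (Or.inl rfl)) ((hν.tri i _).2 (Or.inr rfl))
    rw [chain_zero hw hv] at h3
    rw [hs.flip v (ν i)]
    have h4 : ∀ a b : ZMod 2, a + b = 0 → a = b := by decide
    exact h4 _ _ h3
  have all : ∀ i, s v (ν i) (ν (i + 1)) = s v (ν 0) (ν 1) := by
    intro i
    induction i with
    | zero => rfl
    | succ i ih => rw [← step i, ih]
  have key : ∀ a b, T v a b → s v a b = s v (ν 0) (ν 1) := by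
    intro a b hab
    obtain ⟨i, hi⟩ := hν.exists_pred (h.adj _ _ _ hab)
    rw [← hi] at hab ⊢
    rcases (hν.tri i b).1 hab with h3 | h3
    · rw [h3, ← hs.flip, all]
    · rw [h3]
      exact all (i + 1)
  rw [key _ _ h1, key _ _ h2]

theorem isInn_of (hs : Sides T n w s) (hw : Cyc G n w) (h : TriLoc S G T) {v y z : V}
    (hv : v ∉ cycV n w) (h1 : T v y z) : IsInn S T n w s (s v y z) v :=
  ⟨h.mem _ _ (h.adj _ _ _ h1), hv, fun _ _ h2 => hs.const hw h hv h2 h1⟩

/-- Every vertex off the walk is on one side. -/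
theorem isInn_or (hs : Sides T n w s) (hw : Cyc G n w) (h : TriLoc S G T) {v : V} (hvS : v ∈ S)
    (hv : v ∉ cycV n w) : ∃ σ, IsInn S T n w s σ v := by
  obtain ⟨d, ν, hν⟩ := h.rotation v hvS
  exact ⟨_, isInn_of hs hw h hv ((hν.tri 0 _).2 (Or.inl rfl))⟩

/-- The neighbours of an inner vertex are inner vertices of the same side or on the walk. -/
theorem IsInn.nb {σ : ZMod 2} {v u : V} (hv : IsInn S T n w s σ v) (hs : Sides T n w s)
    (hw : Cyc G n w) (h : TriLoc S G T) (hu : G.Adj v u) :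
    u ∈ cycV n w ∨ IsInn S T n w s σ u := by
  by_cases hc : u ∈ cycV n w
  · exact Or.inl hc
  · right
    obtain ⟨a, b, _, k⟩ := h.two hu
    have ha := (k a).2 (Or.inl rfl)
    have h1 := isInn_of hs hw h hc (h.swap _ _ _ ha)
    rw [← hs.swap, hv.2.2 _ _ ha] at h1
    exact h1

/-- The triangle on the side `σ` at an edge of the walk. -/
theorem Sides.tri (hs : Sides T n w s) (hw : Cyc G n w) (h : TriLoc S G T) {t : ℕ} (ht : t < n)
    (σ : ZMod 2) : ∃ a, T (w t) (w (t + 1)) a ∧ s (w t) (w (t + 1)) a = σ := by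
  obtain ⟨a, b, hab, k⟩ := h.two (hw.adj t ht)
  have ha := (k a).2 (Or.inl rfl)
  have hb := (k b).2 (Or.inr rfl)
  have h1 := hs.edge _ _ _ _ hab ha hb
  rw [chain_one hw ht] at h1
  have h2 : ∀ p q r : ZMod 2, p + q = 1 → p = r ∨ q = r := by decide
  rcases h2 _ _ σ h1 with h3 | h3
  · exact ⟨a, ha, h3⟩
  · exact ⟨b, hb, h3⟩

/-- The third vertex of a triangle is an inner vertex of its side or on the walk. -/
theorem Sides.third (hs : Sides T n w s) (hw : Cyc G n w) (h : TriLoc S G T) {x y a : V}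
    (hT : T x y a) : a ∈ cycV n w ∨ IsInn S T n w s (s x y a) a := by
  by_cases hc : a ∈ cycV n w
  · exact Or.inl hc
  · right
    have h1 := isInn_of hs hw h hc (h.rot _ _ _ (h.rot _ _ _ hT))
    rw [← hs.rot, ← hs.rot] at h1
    exact h1

/-- S3. A simple closed walk of length three without inner vertices on one side is a triangle. -/
theorem Sides.three {w : ℕ → V} (hs : Sides T 3 w s) (hw : Cyc G 3 w) (h : TriLoc S G T)
    (σ : ZMod 2) (h0 : ∀ v, ¬ IsInn S T 3 w s σ v) : T (w 0) (w 1) (w 2) := by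
  obtain ⟨a, ha, hsa⟩ := hs.tri hw h (show 0 < 3 by omega) σ
  have e := h.adj2 ha
  rcases hs.third hw h ha with h1 | h1
  · obtain ⟨t, ht, rfl⟩ := mem_cycV.1 h1
    have h2 : t = 0 ∨ t = 1 ∨ t = 2 := by omega
    rcases h2 with rfl | rfl | rfl
    · exact absurd rfl e.2.2.ne
    · exact absurd rfl e.2.1.ne
    · exact ha
  · rw [hsa] at h1
    exact absurd h1 (h0 a)

/-- S4. A simple closed walk of length four with at most one inner vertex on one side has a chord
or is the neighbourhood of the inner vertex. -/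
theorem Sides.four {w : ℕ → V} (hs : Sides T 4 w s) (hw : Cyc G 4 w) (h : TriLoc S G T)
    (σ : ZMod 2) (h1 : ∀ u v, IsInn S T 4 w s σ u → IsInn S T 4 w s σ v → u = v) :
    G.Adj (w 0) (w 2) ∨ G.Adj (w 1) (w 3) ∨
      ∃ m, IsInn S T 4 w s σ m ∧ ∀ y, G.Adj m y ↔ ∃ t, t < 4 ∧ w t = y := by
  by_cases c1 : G.Adj (w 0) (w 2)
  · exact Or.inl c1
  by_cases c2 : G.Adj (w 1) (w 3)
  · exact Or.inr (Or.inl c2)
  right
  right
  have hc : w 4 = w 0 := hw.closed
  have key : ∀ t, t < 4 → ∃ a, T (w t) (w (t + 1)) a ∧ IsInn S T 4 w s σ a := by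
    intro t ht
    obtain ⟨a, ha, hsa⟩ := hs.tri hw h ht σ
    have e := h.adj2 ha
    refine ⟨a, ha, ?_⟩
    rcases hs.third hw h ha with h2 | h2
    · exfalso
      obtain ⟨r, hr, rfl⟩ := mem_cycV.1 h2
      have ht' : t = 0 ∨ t = 1 ∨ t = 2 ∨ t = 3 := by omega
      have hr' : r = 0 ∨ r = 1 ∨ r = 2 ∨ r = 3 := by omega
      rcases ht' with rfl | rfl | rfl | rfl
      · rcases hr' with rfl | rfl | rfl | rfl
        · exact e.2.2.ne rfl
        · exact e.2.1.ne rfl
        · exact c1 e.2.2.symm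
        · exact c2 e.2.1
      · rcases hr' with rfl | rfl | rfl | rfl
        · exact c1 e.2.1.symm
        · exact e.2.2.ne rfl
        · exact e.2.1.ne rfl
        · exact c2 e.2.2.symm
      · rcases hr' with rfl | rfl | rfl | rfl
        · exact c1 e.2.2
        · exact c2 e.2.1.symm
        · exact e.2.2.ne rfl
        · exact e.2.1.ne rfl
      · rw [show 3 + 1 = 4 from rfl, hc] at e
        rcases hr' with rfl | rfl | rfl | rfl
        · exact e.2.1.ne rfl
        · exact c2 e.2.2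
        · exact c1 e.2.1
        · exact e.2.2.ne rfl
    · rw [hsa] at h2
      exact h2
  obtain ⟨m, hm, hmi⟩ := key 0 (by omega)
  obtain ⟨m1, hm1, hmi1⟩ := key 1 (by omega)
  obtain ⟨m2, hm2, hmi2⟩ := key 2 (by omega)
  rw [h1 _ _ hmi1 hmi] at hm1
  rw [h1 _ _ hmi2 hmi] at hm2
  refine ⟨m, hmi, fun y => ⟨fun hy => ?_, ?_⟩⟩
  · rcases hmi.nb hs hw h hy with h2 | h2
    · exact mem_cycV.1 h2
    · exact absurd (h1 _ _ hmi h2) hy.ne
  · rintro ⟨t, ht, rfl⟩
    have ht' : t = 0 ∨ t = 1 ∨ t = 2 ∨ t = 3 := by omega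
    rcases ht' with rfl | rfl | rfl | rfl
    · exact (h.adj2 hm).2.2
    · exact (h.adj2 hm1).2.2
    · exact (h.adj2 hm2).2.2
    · exact (h.adj2 hm2).2.1.symm

end inner

end Pool.Agent.W986
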