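import Pool.Agent.W986.NoSep
import Pool.Agent.W986.SubConv

/-!
# Cutting a triangulation along a cycle and capping one side

`PCyc H L c`: a closed cycle of length `L`. `Side H T c A`: the triangles in `A` form one side of
the cycle. `capG` and `capT`: the closed side with a new vertex `none` which is joined to the
cycle.
-/

set_option autoImplicit false

open Finset

namespace Pool.Agent.W986

open Pool.Agent.DC76

section defs

variable {W : Type}

/-- A closed cycle of length `L`. -/
structure PCyc (H : SimpleGraph W) (L : ℕ) (c : ℕ → W) : Prop where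
  three : 3 ≤ L
  per : ∀ i, c (i + L) = c i
  inj : ∀ i, i < L → ∀ j, j < L → c i = c j → i = j
  adj : ∀ i, H.Adj (c i) (c (i + 1))

/-- The pair `x, y` is an edge of the cycle. -/
def CycE (c : ℕ → W) (x y : W) : Prop :=
  ∃ i, (x = c i ∧ y = c (i + 1)) ∨ (y = c i ∧ x = c (i + 1))

/-- The triangles in `A` form one side of the cycle `c`. -/
structure Side (T : W → W → W → Prop) (c : ℕ → W) (A : W → W → W → Prop) : Prop where
  sub : ∀ x y z, A x y z → T x y z
  rot : ∀ x y z, A x y z → A y z x
  swap : ∀ x y z, A x y z → A y x z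
  bd : ∀ x y a b, a ≠ b → T x y a → T x y b → ((A x y a ↔ A x y b) ↔ ¬ CycE c x y)

/-- The graph of the closed side with a new vertex which is joined to the cycle. -/
def capG (c : ℕ → W) (A : W → W → W → Prop) : SimpleGraph (Option W) where
  Adj p q := match p, q with
    | some x, some y => x ≠ y ∧ ∃ z, A x y z ∨ A y x z
    | some x, none => ∃ i, c i = x
    | none, some y => ∃ i, c i = y
    | none, none => False
  symm := ⟨by
    rintro (_ | x) (_ | y) h
    · exact h
    · exact h
    · exact h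
    · obtain ⟨hne, z, hz⟩ := h
      exact ⟨hne.symm, z, hz.symm⟩⟩
  loopless := ⟨by
    rintro (_ | x) h
    · exact h
    · exact h.1 rfl⟩

/-- The triangles of the closed side and the triangles at the new vertex. -/
def capT (c : ℕ → W) (A : W → W → W → Prop) (p q r : Option W) : Prop :=
  match p, q, r with
  | some x, some y, some z => A x y z
  | none, some y, some z => CycE c y z
  | some x, none, some z => CycE c x z
  | some x, some y, none => CycE c x y
  | _, _, _ => False

end defs

section cyc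

variable {W : Type} {H : SimpleGraph W} {T : W → W → W → Prop} {L : ℕ} {c : ℕ → W}

theorem CycE.symm {x y : W} (h : CycE c x y) : CycE c y x := by
  obtain ⟨i, h1 | h1⟩ := h
  · exact ⟨i, Or.inr h1⟩
  · exact ⟨i, Or.inl h1⟩

theorem PCyc.mod (h : PCyc H L c) (i : ℕ) : c i = c (i % L) := by
  have hper : ∀ k j, c (j + L * k) = c j := by
    intro k
    induction k with
    | zero => intro j; rfl
    | succ k ih =>
      intro j
      rw [Nat.mul_succ, ← add_assoc, h.per]
      exact ih j
  have h1 := hper (i / L) (i % L)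
  rw [Nat.mod_add_div] at h1
  exact h1

theorem PCyc.eq_iff (h : PCyc H L c) {i j : ℕ} : c i = c j ↔ i % L = j % L := by
  have hL : 0 < L := by have := h.three; omega
  constructor
  · intro h1
    rw [h.mod i, h.mod j] at h1
    exact h.inj _ (Nat.mod_lt _ hL) _ (Nat.mod_lt _ hL) h1
  · intro h1
    rw [h.mod i, h.mod j, h1]

theorem PCyc.succ_eq (h : PCyc H L c) {i j : ℕ} (hij : c (i + 1) = c (j + 1)) : c i = c j := by
  rw [h.eq_iff] at hij ⊢
  exact Nat.ModEq.add_right_cancel' 1 hij

theorem PCyc.next_eq (h : PCyc H L c) {i j : ℕ} (hij : c i = c j) : c (i + 1) = c (j + 1) := by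
  rw [h.eq_iff] at hij ⊢
  exact Nat.ModEq.add_right 1 hij

theorem PCyc.ne_two (h : PCyc H L c) (i : ℕ) : c i ≠ c (i + 2) := by
  have h3 := h.three
  intro h1
  rw [h.eq_iff] at h1
  have h2 : (i + 2 - i) % L = 0 := Nat.sub_mod_eq_zero_of_mod_eq h1.symm
  rw [Nat.add_sub_cancel_left] at h2
  rw [Nat.mod_eq_of_lt (by omega)] at h2
  omega

/-- The edges of the cycle at `c (k + 1)`. -/
theorem PCyc.edge_iff (h : PCyc H L c) (k : ℕ) (y : W) :
    CycE c (c (k + 1)) y ↔ y = c k ∨ y = c (k + 2) := by
  constructor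
  · rintro ⟨i, ⟨h1, h2⟩ | ⟨h1, h2⟩⟩
    · right
      rw [h2]
      exact (h.next_eq h1).symm
    · left
      rw [h1]
      exact (h.succ_eq h2).symm
  · rintro (h1 | h1)
    · exact ⟨k, Or.inr ⟨h1, rfl⟩⟩
    · exact ⟨k + 1, Or.inl ⟨rfl, h1⟩⟩

theorem PCyc.pred (h : PCyc H L c) (i : ℕ) : ∃ k, c i = c (k + 1) := by
  have h3 := h.three
  refine ⟨i + L - 1, ?_⟩
  rw [show i + L - 1 + 1 = i + L by omega, h.per]

theorem CycE.mem {x y : W} (h : CycE c x y) : ∃ i, c i = x := by
  obtain ⟨i, ⟨h1, _⟩ | ⟨_, h1⟩⟩ := h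
  · exact ⟨i, h1.symm⟩
  · exact ⟨i + 1, h1.symm⟩

end cyc

section rotn

variable {W : Type} {H : SimpleGraph W} {T : W → W → W → Prop} {x : W} {d : ℕ} {ν : ℕ → W}

/-- The rotation starting at another neighbour. -/
theorem Rotn.shift_left (h : Rotn H T x d ν) (u : ℕ) : Rotn H T x d (fun i => ν (u + i)) := by
  have hd : 0 < d := by have := h.three; omega
  refine ⟨h.three, fun i => ?_, fun i hi j hj hij => ?_, fun y => ?_, fun i y => ?_⟩
  · rw [← add_assoc, h.per]
  · by_contra hne
    rcases Nat.lt_or_gt_of_ne hne with h1 | h1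
    · exact h.ne (i := u + i) (j := u + j) (by omega) (by omega) hij
    · exact h.ne (i := u + j) (j := u + i) (by omega) (by omega) hij.symm
  · constructor
    · intro hy
      obtain ⟨m, h1, h2, h3⟩ := h.window u hy
      exact ⟨m - u, by omega, by rw [show u + (m - u) = m by omega, h3]⟩
    · rintro ⟨i, _, rfl⟩
      exact h.adj_nu _
  · exact h.tri (u + i) y

theorem Rotn.tri' (h : Rotn H T x d ν) (i : ℕ) : T x (ν (i + 1)) (ν i) :=
  (h.tri i _).2 (Or.inl rfl)

theorem Rotn.tri'' (h : Rotn H T x d ν) (i : ℕ) : T x (ν (i + 1)) (ν (i + 2)) :=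
  (h.tri i _).2 (Or.inr rfl)

end rotn

section side

variable {W : Type} {H : SimpleGraph W} {T A : W → W → W → Prop} {L : ℕ} {c : ℕ → W} {x : W}
  {d : ℕ} {ν : ℕ → W}

theorem Side.swap' (hA : Side T c A) {x y z : W} (h : A x y z) : A x z y :=
  hA.rot _ _ _ (hA.swap _ _ _ h)

/-- Consecutive triangles at `x` are on the same side, unless the edge is in the cycle. -/
theorem Side.step (hA : Side T c A) (hx : Rotn H T x d ν) (i : ℕ) :
    (A x (ν i) (ν (i + 1)) ↔ A x (ν (i + 1)) (ν (i + 2))) ↔ ¬ CycE c x (ν (i + 1)) := by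
  have h3 := hx.three
  have h1 := hA.bd x (ν (i + 1)) (ν i) (ν (i + 2)) (hx.ne (by omega) (by omega)) (hx.tri' i)
    (hx.tri'' i)
  have h2 : A x (ν (i + 1)) (ν i) ↔ A x (ν i) (ν (i + 1)) := ⟨hA.swap', hA.swap'⟩
  rw [← h2]
  exact h1

/-- The other side. -/
theorem Side.compl (hA : Side T c A) (hrot : ∀ x y z, T x y z → T y z x)
    (hswap : ∀ x y z, T x y z → T y x z) : Side T c (fun x y z => T x y z ∧ ¬ A x y z) := by
  refine ⟨fun x y z h => h.1, fun x y z h => ⟨hrot _ _ _ h.1, fun h1 => h.2 ?_⟩,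
    fun x y z h => ⟨hswap _ _ _ h.1, fun h1 => h.2 ?_⟩, fun x y a b hab h1 h2 => ?_⟩
  · exact hA.rot _ _ _ (hA.rot _ _ _ h1)
  · exact hA.swap _ _ _ h1
  · rw [← hA.bd x y a b hab h1 h2]
    tauto

/-- At a vertex off the cycle all the triangles are on the same side. -/
theorem Side.inner (hA : Side T c A) (hx : Rotn H T x d ν) (hc : ∀ i, c i ≠ x) (i j : ℕ)
    (h : A x (ν i) (ν (i + 1))) : A x (ν j) (ν (j + 1)) := by
  have hstep : ∀ i, A x (ν i) (ν (i + 1)) ↔ A x (ν (i + 1)) (ν (i + 2)) := by
    intro i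
    refine (hA.step hx i).2 fun h1 => ?_
    obtain ⟨k, hk⟩ := h1.mem
    exact hc k hk
  have h0 : ∀ i, A x (ν 0) (ν 1) ↔ A x (ν i) (ν (i + 1)) := by
    intro i
    induction i with
    | zero => exact Iff.rfl
    | succ i ih => exact ih.trans (hstep i)
  exact (h0 j).1 ((h0 i).2 h)

/-- The triangles of one side at a vertex of the cycle. -/
theorem Side.arc (hA : Side T c A) (hC : PCyc H L c) (k : ℕ) (hx : Rotn H T (c (k + 1)) d ν) :
    ∃ u m, 0 < m ∧ m < d ∧ ((ν u = c k ∧ ν (u + m) = c (k + 2)) ∨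
      (ν u = c (k + 2) ∧ ν (u + m) = c k)) ∧
      (∀ j, j < m → A (c (k + 1)) (ν (u + j)) (ν (u + j + 1))) ∧
      ∀ j, m ≤ j → j < d → ¬ A (c (k + 1)) (ν (u + j)) (ν (u + j + 1)) := by
  have h3 := hx.three
  have hne := hC.ne_two k
  -- the two neighbours in the cycle
  have a1 : H.Adj (c (k + 1)) (c k) := (hC.adj k).symm
  have a2 : H.Adj (c (k + 1)) (c (k + 2)) := hC.adj (k + 1)
  obtain ⟨p, _, _, hp⟩ := hx.window 0 a1
  obtain ⟨q, hq1, hq2, hq⟩ := hx.window p a2
  have hpq : p ≠ q := by
    rintro rfl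
    exact hne (hp.symm.trans hq)
  obtain ⟨e, rfl⟩ : ∃ e, q = p + e := ⟨q - p, by omega⟩
  have he : 0 < e := by omega
  have hed : e < d := by omega
  have hstep := fun i => hA.step hx i
  have hedge : ∀ i, p ≤ i → i < p + d → (CycE c (c (k + 1)) (ν i) ↔ i = p ∨ i = p + e) := by
    intro i h1 h2
    rw [hC.edge_iff]
    constructor
    · rintro (h | h)
      · left
        by_contra h4
        exact hx.ne (i := p) (j := i) (by omega) (by omega) (hp.trans h.symm)
      · right
        by_contra h4
        rcases Nat.lt_or_gt_of_ne h4 with h5 | h5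
        · exact hx.ne (i := i) (j := p + e) (by omega) (by omega) (h.trans hq.symm)
        · exact hx.ne (i := p + e) (j := i) (by omega) (by omega) (hq.trans h.symm)
    · rintro (rfl | rfl)
      · exact Or.inl hp
      · exact Or.inr hq
  -- the first arc
  have f1 : ∀ j, j < e → (A (c (k + 1)) (ν p) (ν (p + 1)) ↔
      A (c (k + 1)) (ν (p + j)) (ν (p + j + 1))) := by
    intro j
    induction j with
    | zero => intro _; exact Iff.rfl
    | succ j ih =>
      intro hj
      refine (ih (by omega)).trans ((hstep (p + j)).2 ?_)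
      rw [hedge _ (by omega) (by omega)]
      omega
  -- the second arc
  have f2 : ∀ j, e + j < d → (A (c (k + 1)) (ν (p + e)) (ν (p + e + 1)) ↔
      A (c (k + 1)) (ν (p + (e + j))) (ν (p + (e + j) + 1))) := by
    intro j
    induction j with
    | zero => intro _; exact Iff.rfl
    | succ j ih =>
      intro hj
      refine (ih (by omega)).trans ((hstep (p + (e + j))).2 ?_)
      rw [hedge _ (by omega) (by omega)]
      omega
  -- the change
  have f3 : ¬ (A (c (k + 1)) (ν p) (ν (p + 1)) ↔ A (c (k + 1)) (ν (p + e)) (ν (p + e + 1))) := by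
    intro h
    have h1 := f1 (e - 1) (by omega)
    have h2 := hstep (p + (e - 1))
    rw [show p + (e - 1) + 1 = p + e by omega, show p + (e - 1) + 2 = p + e + 1 by omega] at h2
    rw [show p + (e - 1) + 1 = p + e by omega] at h1
    exact h2.1 (h1.symm.trans h) ((hedge _ (by omega) (by omega)).2 (Or.inr rfl))
  by_cases hA1 : A (c (k + 1)) (ν p) (ν (p + 1))
  · refine ⟨p, e, he, hed, Or.inl ⟨hp, hq⟩, fun j hj => (f1 j hj).1 hA1, fun j h1 h2 h4 => ?_⟩
    obtain ⟨i, rfl⟩ : ∃ i, j = e + i := ⟨j - e, by omega⟩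
    exact f3 ⟨fun _ => (f2 i h2).2 h4, fun _ => hA1⟩
  · have hA2 : A (c (k + 1)) (ν (p + e)) (ν (p + e + 1)) := by
      by_contra h
      exact f3 ⟨fun h1 => absurd h1 hA1, fun h1 => absurd h1 h⟩
    refine ⟨p + e, d - e, by omega, by omega, Or.inr ⟨hq, ?_⟩, fun j hj => ?_,
      fun j h1 h2 h4 => ?_⟩
    · rw [show p + e + (d - e) = p + d by omega, hx.per]
      exact hp
    · have h1 := (f2 j (by omega)).1 hA2
      rw [← add_assoc] at h1
      exact h1
    · obtain ⟨i, rfl⟩ : ∃ i, j = (d - e) + i := ⟨j - (d - e), by omega⟩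
      have e1 : p + e + (d - e + i) = p + i + d := by omega
      rw [e1, show p + i + d + 1 = (p + i + 1) + d by omega, hx.per, hx.per] at h4
      exact hA1 ((f1 i (by omega)).2 h4)

end side

section cap

variable {W : Type} {H : SimpleGraph W} {T A : W → W → W → Prop} {L : ℕ} {c : ℕ → W} {x : W}
  {d : ℕ} {ν : ℕ → W} {S : Finset W}

theorem Side.adj_iff (hA : Side T c A) (hadj : ∀ x y z, T x y z → H.Adj x y) {x y : W} :
    (capG c A).Adj (some x) (some y) ↔ ∃ z, A x y z := by
  constructor
  · rintro ⟨_, z, h | h⟩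
    · exact ⟨z, h⟩
    · exact ⟨z, hA.swap _ _ _ h⟩
  · rintro ⟨z, h⟩
    exact ⟨(hadj _ _ _ (hA.sub _ _ _ h)).ne, z, Or.inl h⟩

theorem Side.cap_rot (hA : Side T c A) (p q r : Option W) (h : capT c A p q r) :
    capT c A q r p := by
  rcases p with _ | x <;> rcases q with _ | y <;> rcases r with _ | z
  · exact h
  · exact h
  · exact h
  · exact h
  · exact h
  · exact CycE.symm h
  · exact CycE.symm h
  · exact hA.rot _ _ _ h

theorem Side.cap_swap (hA : Side T c A) (p q r : Option W) (h : capT c A p q r) :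
    capT c A q p r := by
  rcases p with _ | x <;> rcases q with _ | y <;> rcases r with _ | z
  · exact h
  · exact h
  · exact h
  · exact h
  · exact h
  · exact h
  · exact CycE.symm h
  · exact hA.swap _ _ _ h

/-- The rotation at an inner vertex of the side. -/
theorem Side.rotn_inner (hA : Side T c A) (hadj : ∀ x y z, T x y z → H.Adj x y)
    (hx : Rotn H T x d ν) (hc : ∀ i, c i ≠ x) (hin : ∃ y z, A x y z) :
    Rotn (capG c A) (capT c A) (some x) d (fun i => some (ν i)) := by
  have hall : ∀ i, A x (ν i) (ν (i + 1)) := by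
    obtain ⟨y, z, h⟩ := hin
    have hT := hA.sub _ _ _ h
    obtain ⟨i, _, hi⟩ := (hx.adj y).1 (hadj _ _ _ hT)
    have h3 := hx.three
    have e : ν (i + d - 1 + 1) = y := by rw [show i + d - 1 + 1 = i + d by omega, hx.per, hi]
    rw [← e] at hT
    rcases (hx.tri _ _).1 hT with h4 | h4
    · intro j
      refine hA.inner hx hc (i + d - 1) j ?_
      rw [e, ← h4]
      exact hA.swap' h
    · intro j
      refine hA.inner hx hc (i + d - 1 + 1) j ?_
      rw [e, ← h4]
      exact h
  refine ⟨hx.three, fun i => congrArg some (hx.per i), fun i hi j hj hij =>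
    hx.inj i hi j hj (Option.some.inj hij), ?_, ?_⟩
  · rintro (_ | y)
    · constructor
      · rintro ⟨i, hi⟩
        exact absurd hi (hc i)
      · rintro ⟨i, _, hi⟩
        exact absurd hi (by simp)
    · rw [hA.adj_iff hadj]
      constructor
      · rintro ⟨z, hz⟩
        obtain ⟨i, hi, rfl⟩ := (hx.adj y).1 (hadj _ _ _ (hA.sub _ _ _ hz))
        exact ⟨i, hi, rfl⟩
      · rintro ⟨i, _, hi⟩
        rw [← Option.some.inj hi]
        exact ⟨_, hall i⟩
  · rintro i (_ | y)
    · constructor
      · intro h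
        obtain ⟨k, hk⟩ := CycE.mem h
        exact absurd hk (hc k)
      · rintro (h | h) <;> exact absurd h (by simp)
    · rw [Option.some.injEq, Option.some.injEq]
      change A x (ν (i + 1)) y ↔ _
      constructor
      · intro h
        exact (hx.tri i y).1 (hA.sub _ _ _ h)
      · rintro (rfl | rfl)
        · exact hA.swap' (hall i)
        · exact hall (i + 1)

/-- The rotation at a vertex of the cycle. -/
theorem Side.rotn_cyc (hA : Side T c A) (hadj : ∀ x y z, T x y z → H.Adj x y) (hC : PCyc H L c)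
    {k m : ℕ} (hx : Rotn H T (c (k + 1)) d ν) (hm : 0 < m) (hmd : m < d)
    (he : (ν 0 = c k ∧ ν m = c (k + 2)) ∨ (ν 0 = c (k + 2) ∧ ν m = c k))
    (h1 : ∀ j, j < m → A (c (k + 1)) (ν j) (ν (j + 1)))
    (h2 : ∀ j, m ≤ j → j < d → ¬ A (c (k + 1)) (ν j) (ν (j + 1))) :
    Rotn (capG c A) (capT c A) (some (c (k + 1))) (m + 2)
      (fun j => if j % (m + 2) ≤ m then some (ν (j % (m + 2))) else none) := by
  have h3 := hx.three
  set x := c (k + 1) with hxdef
  have hedge : ∀ y, CycE c x y ↔ y = ν 0 ∨ y = ν m := by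
    intro y
    rw [hC.edge_iff]
    rcases he with ⟨e1, e2⟩ | ⟨e1, e2⟩
    · rw [e1, e2]
    · rw [e1, e2]
      exact or_comm
  have hne : ∀ i j, i < j → j < d → ν i ≠ ν j := fun i j hi hj => hx.ne hi (by omega)
  -- the neighbours on the side
  have hnb : ∀ y, (∃ z, A x y z) ↔ ∃ r, r ≤ m ∧ ν r = y := by
    intro y
    constructor
    · rintro ⟨z, hz⟩
      have hT := hA.sub _ _ _ hz
      obtain ⟨i, hi, rfl⟩ := (hx.adj y).1 (hadj _ _ _ hT)
      by_contra hcon
      have hi2 : m < i := by
        by_contra h4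
        exact hcon ⟨i, by omega, rfl⟩
      have e : ν (i - 1 + 1) = ν i := by rw [show i - 1 + 1 = i by omega]
      rw [← e] at hT hz
      rcases (hx.tri _ _).1 hT with h4 | h4
      · rw [h4] at hz
        exact h2 (i - 1) (by omega) (by omega) (hA.swap' hz)
      · rw [h4, show i - 1 + 2 = i + 1 by omega, e] at hz
        exact h2 i (by omega) hi hz
    · rintro ⟨r, hr, rfl⟩
      by_cases h4 : r < m
      · exact ⟨_, h1 r h4⟩
      · have h5 := h1 (r - 1) (by omega)
        rw [show r - 1 + 1 = r by omega] at h5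
        exact ⟨_, hA.swap' h5⟩
  have hpos : 0 < m + 2 := by omega
  refine ⟨by omega, fun i => ?_, ?_, ?_, ?_⟩
  · simp only [Nat.add_mod_right]
  · intro i hi j hj hij
    simp only [Nat.mod_eq_of_lt hi, Nat.mod_eq_of_lt hj] at hij
    by_cases h4 : i ≤ m
    · by_cases h5 : j ≤ m
      · rw [if_pos h4, if_pos h5, Option.some.injEq] at hij
        by_contra h6
        rcases Nat.lt_or_gt_of_ne h6 with h7 | h7
        · exact hne i j h7 (by omega) hij
        · exact hne j i h7 (by omega) hij.symm
      · rw [if_pos h4, if_neg h5] at hij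
        exact absurd hij (by simp)
    · by_cases h5 : j ≤ m
      · rw [if_neg h4, if_pos h5] at hij
        exact absurd hij (by simp)
      · omega
  · rintro (_ | y)
    · constructor
      · intro _
        refine ⟨m + 1, by omega, ?_⟩
        simp only [Nat.mod_eq_of_lt (show m + 1 < m + 2 by omega)]
        rw [if_neg (by omega)]
      · intro _
        exact ⟨k + 1, rfl⟩
    · rw [hA.adj_iff hadj, hnb]
      constructor
      · rintro ⟨r, hr, rfl⟩
        refine ⟨r, by omega, ?_⟩
        simp only [Nat.mod_eq_of_lt (show r < m + 2 by omega)]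
        rw [if_pos hr]
      · rintro ⟨r, hr, h⟩
        simp only [Nat.mod_eq_of_lt hr] at h
        by_cases h4 : r ≤ m
        · rw [if_pos h4, Option.some.injEq] at h
          exact ⟨r, h4, h⟩
        · rw [if_neg h4] at h
          exact absurd h (by simp)
  · intro i p
    have hr : i % (m + 2) < m + 2 := Nat.mod_lt _ hpos
    have e1 : (i + 1) % (m + 2) = (i % (m + 2) + 1) % (m + 2) := (Nat.mod_add_mod _ _ _).symm
    have e2 : (i + 2) % (m + 2) = (i % (m + 2) + 2) % (m + 2) := (Nat.mod_add_mod _ _ _).symm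
    simp only [e1, e2]
    clear e1 e2
    generalize i % (m + 2) = r at hr
    have hF : ∀ t, t ≤ m → (if t ≤ m then some (ν t) else none) = some (ν t) :=
      fun t ht => if_pos ht
    have hN : ∀ t, ¬ t ≤ m → (if t ≤ m then some (ν t) else none) = none :=
      fun t ht => if_neg ht
    by_cases c1 : r + 2 ≤ m
    · rw [Nat.mod_eq_of_lt (show r + 1 < m + 2 by omega),
        Nat.mod_eq_of_lt (show r + 2 < m + 2 by omega), hF (r + 1) (by omega), hF r (by omega),
        hF (r + 2) c1]
      rcases p with _ | y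
      · change CycE c x (ν (r + 1)) ↔ _
        rw [hedge]
        constructor
        · rintro (h | h)
          · exact absurd h.symm (hne 0 (r + 1) (by omega) (by omega))
          · exact absurd h (hne (r + 1) m (by omega) hmd)
        · rintro (h | h) <;> exact absurd h (by simp)
      · rw [Option.some.injEq, Option.some.injEq]
        change A x (ν (r + 1)) y ↔ _
        constructor
        · intro h
          exact (hx.tri r y).1 (hA.sub _ _ _ h)
        · rintro (rfl | rfl)
          · exact hA.swap' (h1 r (by omega))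
          · exact h1 (r + 1) (by omega)
    · by_cases c2 : r + 1 = m
      · rw [Nat.mod_eq_of_lt (show r + 1 < m + 2 by omega),
          Nat.mod_eq_of_lt (show r + 2 < m + 2 by omega), hF (r + 1) (by omega), hF r (by omega),
          hN (r + 2) c1]
        rcases p with _ | y
        · change CycE c x (ν (r + 1)) ↔ _
          rw [hedge, c2]
          simp
        · rw [Option.some.injEq]
          change A x (ν (r + 1)) y ↔ _
          constructor
          · intro h
            rcases (hx.tri r y).1 (hA.sub _ _ _ h) with h4 | h4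
            · exact Or.inl h4
            · rw [h4] at h
              rw [show r + 2 = r + 1 + 1 by omega] at h
              exact absurd h (h2 (r + 1) (by omega) (by omega))
          · rintro (h | h)
            · rw [h]
              exact hA.swap' (h1 r (by omega))
            · exact absurd h (by simp)
      · by_cases c3 : r = m
        · subst c3
          rw [Nat.mod_eq_of_lt (show r + 1 < r + 2 by omega), Nat.mod_self,
            hN (r + 1) (by omega), hF r (by omega), hF 0 (by omega)]
          rcases p with _ | y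
          · constructor
            · intro h
              exact absurd h (by simp [capT])
            · rintro (h | h) <;> exact absurd h (by simp)
          · rw [Option.some.injEq, Option.some.injEq]
            change CycE c x y ↔ _
            rw [hedge]
            exact or_comm
        · have c4 : r = m + 1 := by omega
          subst c4
          rw [show m + 1 + 1 = m + 2 by omega, Nat.mod_self,
            show (m + 1 + 2) % (m + 2) = 1 by
              rw [show m + 1 + 2 = 1 + (m + 2) by omega, Nat.add_mod_right]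
              exact Nat.mod_eq_of_lt (by omega)]
          rw [hN (m + 1) (by omega), hF 0 (by omega), hF 1 (by omega)]
          rcases p with _ | y
          · change CycE c x (ν 0) ↔ _
            rw [hedge]
            simp
          · rw [Option.some.injEq]
            change A x (ν 0) y ↔ _
            have e3 : ν (d - 1 + 1) = ν 0 := by
              have := hx.per 0
              rw [Nat.zero_add] at this
              rw [show d - 1 + 1 = d by omega, this]
            have e4 : ν (d - 1 + 2) = ν 1 := by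
              have := hx.per 1
              rw [show d - 1 + 2 = 1 + d by omega, this]
            constructor
            · intro h
              have hT := hA.sub _ _ _ h
              rw [← e3] at hT
              rcases (hx.tri _ _).1 hT with h4 | h4
              · have h5 := hA.swap' h
                rw [h4, ← e3] at h5
                exact absurd h5 (h2 (d - 1) (by omega) (by omega))
              · rw [h4, e4]
                exact Or.inr rfl
            · rintro (h | h)
              · exact absurd h (by simp)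
              · rw [h]
                exact h1 0 hm

/-- The rotation at the new vertex. -/
theorem PCyc.rotn_none (hC : PCyc H L c) :
    Rotn (capG c A) (capT c A) none L (fun i => some (c i)) := by
  have h3 := hC.three
  refine ⟨hC.three, fun i => congrArg some (hC.per i), fun i hi j hj hij =>
    hC.inj i hi j hj (Option.some.inj hij), ?_, ?_⟩
  · rintro (_ | y)
    · constructor
      · intro h
        exact absurd h (by simp [capG])
      · rintro ⟨i, _, hi⟩
        exact absurd hi (by simp)
    · constructor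
      · rintro ⟨i, rfl⟩
        exact ⟨i % L, Nat.mod_lt _ (by omega), congrArg some (hC.mod i).symm⟩
      · rintro ⟨i, _, hi⟩
        exact ⟨i, Option.some.inj hi⟩
  · rintro i (_ | y)
    · constructor
      · intro h
        exact absurd h (by simp [capT])
      · rintro (h | h) <;> exact absurd h (by simp)
    · rw [Option.some.injEq, Option.some.injEq]
      exact hC.edge_iff i y

/-- The vertices with a triangle of `A`. -/
def InS (A : W → W → W → Prop) (x : W) : Prop := ∃ y z, A x y z

open Classical in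
/-- The vertices of the closed side and the new vertex. -/
noncomputable def capS (S : Finset W) (A : W → W → W → Prop) : Finset (Option W) :=
  insertNone (S.filter (InS A))

theorem mem_capS_some {x : W} : some x ∈ capS S A ↔ x ∈ S ∧ InS A x := by
  classical
  rw [capS, some_mem_insertNone, mem_filter]

theorem none_mem_capS : none ∈ capS S A := by
  classical
  exact none_mem_insertNone

/-- The rotation at a vertex of the cycle, starting with the arc of the side. -/
theorem Side.rotn_at (hA : Side T c A) (hC : PCyc H L c) (k : ℕ)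
    (hR : ∃ d ν, Rotn H T (c (k + 1)) d ν) :
    ∃ d ν m, Rotn H T (c (k + 1)) d ν ∧ 0 < m ∧ m < d ∧
      ((ν 0 = c k ∧ ν m = c (k + 2)) ∨ (ν 0 = c (k + 2) ∧ ν m = c k)) ∧
      (∀ j, j < m → A (c (k + 1)) (ν j) (ν (j + 1))) ∧
      ∀ j, m ≤ j → j < d → ¬ A (c (k + 1)) (ν j) (ν (j + 1)) := by
  obtain ⟨d, ν, hν⟩ := hR
  obtain ⟨u, m, hm, hmd, he, h1, h2⟩ := hA.arc hC k hν
  exact ⟨d, fun j => ν (u + j), m, hν.shift_left u, hm, hmd, he, h1, h2⟩

/-- Every vertex of the cycle is in the side. -/
theorem Side.inS_cyc (hA : Side T c A) (hC : PCyc H L c) (i : ℕ)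
    (hR : ∀ x, (∃ i, c i = x) → ∃ d ν, Rotn H T x d ν) : InS A (c i) := by
  obtain ⟨k, hk⟩ := hC.pred i
  obtain ⟨d, ν, m, _, hm, _, _, h1, _⟩ := hA.rotn_at hC k (hR _ ⟨k + 1, rfl⟩)
  rw [hk]
  exact ⟨_, _, h1 0 hm⟩

theorem PCyc.mem (hC : PCyc H L c) (h : TriLoc S H T) (i : ℕ) : c i ∈ S := h.mem _ _ (hC.adj i)

theorem Side.rot_cyc (hC : PCyc H L c) (h : TriLoc S H T) (x : W) (hx : ∃ i, c i = x) :
    ∃ d ν, Rotn H T x d ν := by
  obtain ⟨i, rfl⟩ := hx
  exact h.rotation _ (hC.mem h i)

/-- The closed side with the cap is locally a triangulation. -/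
theorem Side.cap_loc (hA : Side T c A) (hC : PCyc H L c) (h : TriLoc S H T) :
    TriLoc (capS S A) (capG c A) (capT c A) := by
  have hin : ∀ i, InS A (c i) := fun i => hA.inS_cyc hC i (Side.rot_cyc hC h)
  refine ⟨hA.cap_rot, hA.cap_swap, ?_, ?_, ?_, ?_⟩
  · rintro (_ | x) (_ | y) (_ | z) hT
    · exact hT
    · exact hT
    · exact hT.elim
    · exact CycE.mem hT
    · exact hT.elim
    · exact CycE.mem hT
    · rw [hA.adj_iff h.adj]
      obtain ⟨i, hi | hi⟩ := hT
      · obtain ⟨k, hk⟩ := hC.pred i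
        obtain ⟨d, ν, m, hν, hm, hmd, he, h1, h2⟩ :=
          hA.rotn_at hC k (Side.rot_cyc hC h _ ⟨k + 1, rfl⟩)
        have hy : y = c (k + 2) := by
          rw [hi.2]
          exact hC.next_eq hk
        rw [hi.1, hk, hy]
        rcases he with ⟨_, e2⟩ | ⟨e1, _⟩
        · have h5 := h1 (m - 1) (by omega)
          rw [show m - 1 + 1 = m by omega, e2] at h5
          exact ⟨_, hA.swap' h5⟩
        · have h5 := h1 0 hm
          rw [e1] at h5
          exact ⟨_, h5⟩
      · obtain ⟨d, ν, m, hν, hm, hmd, he, h1, h2⟩ :=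
          hA.rotn_at hC i (Side.rot_cyc hC h _ ⟨i + 1, rfl⟩)
        rw [hi.1, hi.2]
        rcases he with ⟨e1, _⟩ | ⟨_, e2⟩
        · have h5 := h1 0 hm
          rw [e1] at h5
          exact ⟨_, h5⟩
        · have h5 := h1 (m - 1) (by omega)
          rw [show m - 1 + 1 = m by omega, e2] at h5
          exact ⟨_, hA.swap' h5⟩
    · rw [hA.adj_iff h.adj]
      exact ⟨z, hT⟩
  · rintro (_ | x) (_ | y) hT
    · exact none_mem_capS
    · exact none_mem_capS
    · obtain ⟨i, rfl⟩ := hT
      exact mem_capS_some.2 ⟨hC.mem h i, hin i⟩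
    · obtain ⟨z, hz⟩ := (hA.adj_iff h.adj).1 hT
      exact mem_capS_some.2 ⟨h.mem _ _ (h.adj _ _ _ (hA.sub _ _ _ hz)), y, z, hz⟩
  · rintro (_ | x) hx
    · exact ⟨L, _, hC.rotn_none⟩
    · obtain ⟨hxS, hxA⟩ := mem_capS_some.1 hx
      by_cases hc : ∃ i, c i = x
      · obtain ⟨i, rfl⟩ := hc
        obtain ⟨k, hk⟩ := hC.pred i
        obtain ⟨d, ν, m, hν, hm, hmd, he, h1, h2⟩ :=
          hA.rotn_at hC k (Side.rot_cyc hC h _ ⟨k + 1, rfl⟩)
        rw [hk]
        exact ⟨_, _, hA.rotn_cyc h.adj hC hν hm hmd he h1 h2⟩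
      · obtain ⟨d, ν, hν⟩ := h.rotation x hxS
        exact ⟨_, _, hA.rotn_inner h.adj hν (fun i hi => hc ⟨i, hi⟩) hxA⟩
  · have key : ∀ u w : W, H.Walk u w → (∃ i, c i = w) → InS A u →
        (capG c A).Reachable (some u) none := by
      intro u w p
      induction p with
      | nil =>
        intro hw _
        exact SimpleGraph.Adj.reachable hw
      | @cons a b e hab p ih =>
        intro hw ha
        by_cases hc : ∃ i, c i = a
        · exact SimpleGraph.Adj.reachable hc
        · obtain ⟨d, ν, hν⟩ := h.rotation a (h.mem _ _ hab)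
          have hr := hA.rotn_inner h.adj hν (fun i hi => hc ⟨i, hi⟩) ha
          obtain ⟨i, hi, rfl⟩ := (hν.adj b).1 hab
          have h1 : (capG c A).Adj (some a) (some (ν i)) := hr.adj_nu i
          obtain ⟨z, hz⟩ := (hA.adj_iff h.adj).1 h1
          exact h1.reachable.trans (ih hw ⟨a, z, hA.swap _ _ _ hz⟩)
    have key2 : ∀ p ∈ capS S A, (capG c A).Reachable p none := by
      rintro (_ | x) hp
      · exact SimpleGraph.Reachable.refl _
      · obtain ⟨h1, h2⟩ := mem_capS_some.1 hp
        obtain ⟨p⟩ := h.conn x h1 (c 0) (hC.mem h 0)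
        exact key x (c 0) p ⟨0, rfl⟩ h2
    intro p hp q hq
    exact (key2 p hp).trans (key2 q hq).symm

/-- The degrees at the vertices off the cycle. -/
theorem Side.deg_inner (hA : Side T c A) (h : TriLoc S H T) (hx : x ∈ S) (hc : ∀ i, c i ≠ x)
    (hin : InS A x) : {q | (capG c A).Adj (some x) q}.ncard = {y | H.Adj x y}.ncard := by
  obtain ⟨d, ν, hν⟩ := h.rotation x hx
  rw [(hA.rotn_inner h.adj hν hc hin).card, hν.card]

/-- The degrees at the vertices of the cycle on both sides. -/
theorem Side.deg_cyc (hA : Side T c A) (hC : PCyc H L c) (h : TriLoc S H T) (i : ℕ) :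
    {q | (capG c A).Adj (some (c i)) q}.ncard +
      {q | (capG c (fun x y z => T x y z ∧ ¬ A x y z)).Adj (some (c i)) q}.ncard =
      {y | H.Adj (c i) y}.ncard + 4 := by
  obtain ⟨k, hk⟩ := hC.pred i
  obtain ⟨d, ν, m, hν, hm, hmd, he, h1, h2⟩ :=
    hA.rotn_at hC k (Side.rot_cyc hC h _ ⟨k + 1, rfl⟩)
  rw [hk, (hA.rotn_cyc h.adj hC hν hm hmd he h1 h2).card, hν.card]
  have hA' := hA.compl h.rot h.swap
  have hν' := hν.shift_left m
  have e0 : ν d = ν 0 := by
    have := hν.per 0
    rwa [Nat.zero_add] at this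
  have hr := hA'.rotn_cyc h.adj hC hν' (m := d - m) (by omega) (by omega) ?_ ?_ ?_
  · rw [hr.card]
    omega
  · rw [show m + 0 = m by omega, show m + (d - m) = d by omega, e0]
    rcases he with ⟨e1, e2⟩ | ⟨e1, e2⟩
    · exact Or.inr ⟨e2, e1⟩
    · exact Or.inl ⟨e2, e1⟩
  · intro j hj
    exact ⟨hν.tri_next (m + j), h2 (m + j) (by omega) (by omega)⟩
  · intro j hj1 hj2 hj3
    refine hj3.2 ?_
    have h4 := h1 (m + j - d) (by omega)
    have e1 : ν (m + j) = ν (m + j - d) := by
      rw [← hν.per (m + j - d), show m + j - d + d = m + j by omega]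
    have e2 : ν (m + (j + 1)) = ν (m + j - d + 1) := by
      rw [← hν.per (m + j - d + 1), show m + j - d + 1 + d = m + (j + 1) by omega]
    rw [e1, e2]
    exact h4

/-- A vertex off the cycle is on exactly one side. -/
theorem Side.one_side (hA : Side T c A) (h : TriLoc S H T) (hx : x ∈ S) (hc : ∀ i, c i ≠ x) :
    ¬ InS A x ↔ InS (fun x y z => T x y z ∧ ¬ A x y z) x := by
  obtain ⟨d, ν, hν⟩ := h.rotation x hx
  constructor
  · intro h1
    exact ⟨ν 0, ν 1, hν.tri_next 0, fun h2 => h1 ⟨_, _, h2⟩⟩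
  · rintro ⟨y, z, h1, h2⟩ h3
    have hr := hA.rotn_inner h.adj hν hc h3
    obtain ⟨i, _, rfl⟩ := (hν.adj y).1 (h.adj _ _ _ h1)
    have h4 := hν.three
    have e : ν (i + d - 1 + 1) = ν i := by rw [show i + d - 1 + 1 = i + d by omega, hν.per]
    rw [← e] at h1 h2
    rcases (hν.tri _ _).1 h1 with h5 | h5
    · rw [h5] at h2
      exact h2 ((hr.tri (i + d - 1) (some (ν (i + d - 1)))).2 (Or.inl rfl))
    · rw [h5] at h2
      exact h2 ((hr.tri (i + d - 1) (some (ν (i + d - 1 + 2)))).2 (Or.inr rfl))

theorem PCyc.card_cyc [DecidableEq W] (hC : PCyc H L c) : ((range L).image c).card = L := by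
  rw [card_image_of_injOn, card_range]
  intro i hi j hj
  exact hC.inj i (mem_range.1 hi) j (mem_range.1 hj)

theorem PCyc.mem_cyc [DecidableEq W] (hC : PCyc H L c) {x : W} :
    x ∈ (range L).image c ↔ ∃ i, c i = x := by
  have h3 := hC.three
  rw [mem_image]
  constructor
  · rintro ⟨i, _, hi⟩
    exact ⟨i, hi⟩
  · rintro ⟨i, hi⟩
    exact ⟨i % L, mem_range.2 (Nat.mod_lt _ (by omega)), (hC.mod i).symm.trans hi⟩

/-- The numbers of vertices of both sides. -/
theorem Side.card_both (hA : Side T c A) (hC : PCyc H L c) (h : TriLoc S H T) :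
    (capS S A).card + (capS S (fun x y z => T x y z ∧ ¬ A x y z)).card = S.card + L + 2 := by
  classical
  have hA' := hA.compl h.rot h.swap
  have hR := Side.rot_cyc hC h
  rw [capS, capS, card_insertNone, card_insertNone, card_filter, card_filter]
  have h1 : ∀ x ∈ S, (if InS A x then 1 else 0) +
      (if InS (fun x y z => T x y z ∧ ¬ A x y z) x then 1 else 0) =
      1 + if x ∈ (range L).image c then 1 else 0 := by
    intro x hx
    by_cases hc : ∃ i, c i = x
    · rw [if_pos (hC.mem_cyc.2 hc)]
      obtain ⟨i, rfl⟩ := hc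
      rw [if_pos (hA.inS_cyc hC i hR), if_pos (hA'.inS_cyc hC i hR)]
    · rw [if_neg (fun h1 => hc (hC.mem_cyc.1 h1))]
      have h2 := hA.one_side h hx (fun i hi => hc ⟨i, hi⟩)
      by_cases h3 : InS A x
      · rw [if_pos h3, if_neg (fun h4 => h2.2 h4 h3)]
      · rw [if_neg h3, if_pos (h2.1 h3)]
  have h2 := sum_congr rfl h1
  rw [sum_add_distrib, sum_add_distrib, sum_const, smul_eq_mul, mul_one, sum_ite_mem,
    sum_const, smul_eq_mul, mul_one] at h2
  have h3 : S ∩ (range L).image c = (range L).image c := by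
    apply inter_eq_right.2
    intro x hx
    obtain ⟨i, rfl⟩ := hC.mem_cyc.1 hx
    exact hC.mem h i
  rw [h3, hC.card_cyc] at h2
  omega

/-- The sums of the degrees of both sides. -/
theorem Side.deg_both (hA : Side T c A) (hC : PCyc H L c) (h : TriLoc S H T) :
    (∑ p ∈ capS S A, {q | (capG c A).Adj p q}.ncard) +
      (∑ p ∈ capS S (fun x y z => T x y z ∧ ¬ A x y z),
        {q | (capG c (fun x y z => T x y z ∧ ¬ A x y z)).Adj p q}.ncard) =
      (∑ x ∈ S, {y | H.Adj x y}.ncard) + 6 * L := by
  classical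
  have hA' := hA.compl h.rot h.swap
  have hR := Side.rot_cyc hC h
  rw [capS, capS, sum_insertNone, sum_insertNone, (hC.rotn_none (A := A)).card,
    (hC.rotn_none (A := fun x y z => T x y z ∧ ¬ A x y z)).card, sum_filter, sum_filter]
  have h1 : ∀ x ∈ S, (if InS A x then {q | (capG c A).Adj (some x) q}.ncard else 0) +
      (if InS (fun x y z => T x y z ∧ ¬ A x y z) x then
        {q | (capG c (fun x y z => T x y z ∧ ¬ A x y z)).Adj (some x) q}.ncard else 0) =
      {y | H.Adj x y}.ncard + if x ∈ (range L).image c then 4 else 0 := by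
    intro x hx
    by_cases hc : ∃ i, c i = x
    · rw [if_pos (hC.mem_cyc.2 hc)]
      obtain ⟨i, rfl⟩ := hc
      rw [if_pos (hA.inS_cyc hC i hR), if_pos (hA'.inS_cyc hC i hR)]
      exact hA.deg_cyc hC h i
    · rw [if_neg (fun h1 => hc (hC.mem_cyc.1 h1))]
      have hc' : ∀ i, c i ≠ x := fun i hi => hc ⟨i, hi⟩
      have h2 := hA.one_side h hx hc'
      by_cases h3 : InS A x
      · rw [if_pos h3, if_neg (fun h4 => h2.2 h4 h3), hA.deg_inner h hx hc' h3]
      · rw [if_neg h3, if_pos (h2.1 h3), hA'.deg_inner h hx hc' (h2.1 h3), zero_add, add_zero]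
  have h2 := sum_congr rfl h1
  rw [sum_add_distrib, sum_add_distrib, sum_ite_mem, sum_const, smul_eq_mul] at h2
  have h3 : S ∩ (range L).image c = (range L).image c := by
    apply inter_eq_right.2
    intro x hx
    obtain ⟨i, rfl⟩ := hC.mem_cyc.1 hx
    exact hC.mem h i
  rw [h3, hC.card_cyc] at h2
  omega

end cap

section euler

variable {W : Type} {H : SimpleGraph W} {T A : W → W → W → Prop} {L : ℕ} {c : ℕ → W}
  {S : Finset W}

/-- A local triangulation has an Euler characteristic, which is at most two. -/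
theorem TriLoc.exists_chi (h : TriLoc S H T) (hS : S.Nonempty) : ∃ χ : ℤ, χ ≤ 2 ∧ TriOn χ S H T := by
  classical
  obtain ⟨v, hv⟩ := hS
  have : Nonempty {v // v ∈ S} := ⟨⟨v, hv⟩⟩
  obtain ⟨hG, F, iF, M, hL, hl, hT⟩ := h.toType.exists_walks
  refine ⟨_, euler_le_two M hG, h, ?_⟩
  have h1 := tri_edges M hl
  have h2 := sum_deg (H.comap (Subtype.val : {v // v ∈ S} → W))
  have h3 : ∑ x : {v // v ∈ S}, {y | (H.comap (Subtype.val : {v // v ∈ S} → W)).Adj x y}.ncard =
      ∑ x ∈ S, {y | H.Adj x y}.ncard := by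
    rw [Finset.sum_congr rfl fun x _ => h.ncard_toType x]
    exact Finset.sum_coe_sort S (fun x => {y | H.Adj x y}.ncard)
  rw [h3] at h2
  rw [Fintype.card_coe]
  zify at h1 h2
  rw [h2]
  linarith

/-- **Cut and cap.** A triangulation is cut along a cycle; both sides with their caps are
triangulations, and the sum of their Euler characteristics is `χ + 2`. -/
theorem TriOn.cap {χ : ℤ} (h : TriOn χ S H T) (hC : PCyc H L c) (hA : Side T c A) :
    ∃ χ1 χ2 : ℤ, χ1 ≤ 2 ∧ χ2 ≤ 2 ∧ χ1 + χ2 = χ + 2 ∧
      TriOn χ1 (capS S A) (capG c A) (capT c A) ∧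
      TriOn χ2 (capS S (fun x y z => T x y z ∧ ¬ A x y z))
        (capG c (fun x y z => T x y z ∧ ¬ A x y z))
        (capT c (fun x y z => T x y z ∧ ¬ A x y z)) := by
  have hA' := hA.compl h.rot h.swap
  obtain ⟨χ1, h1, t1⟩ := (hA.cap_loc hC h.toTriLoc).exists_chi ⟨none, none_mem_capS⟩
  obtain ⟨χ2, h2, t2⟩ := (hA'.cap_loc hC h.toTriLoc).exists_chi ⟨none, none_mem_capS⟩
  refine ⟨χ1, χ2, h1, h2, ?_, t1, t2⟩
  have e1 := hA.card_both hC h.toTriLoc
  have e2 := hA.deg_both hC h.toTriLoc
  have e3 := t1.euler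
  have e4 := t2.euler
  have e5 := h.euler
  zify at e1 e2
  linarith

/-- On the sphere both sides with their caps are spheres. -/
theorem TriOn.cap_sphere (h : TriOn 2 S H T) (hC : PCyc H L c) (hA : Side T c A) :
    TriOn 2 (capS S A) (capG c A) (capT c A) := by
  obtain ⟨χ1, χ2, h1, h2, h3, t1, _⟩ := h.cap hC hA
  have h4 : χ1 = 2 := by omega
  rw [h4] at t1
  exact t1

/-- On the projective plane exactly one of the two sides is a disc. -/
theorem TriOn.cap_proj (h : TriOn 1 S H T) (hC : PCyc H L c) (hA : Side T c A) :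
    TriOn 2 (capS S A) (capG c A) (capT c A) ∨
      TriOn 2 (capS S (fun x y z => T x y z ∧ ¬ A x y z))
        (capG c (fun x y z => T x y z ∧ ¬ A x y z))
        (capT c (fun x y z => T x y z ∧ ¬ A x y z)) := by
  obtain ⟨χ1, χ2, h1, h2, h3, t1, t2⟩ := h.cap hC hA
  by_cases h4 : χ1 = 2
  · rw [h4] at t1
    exact Or.inl t1
  · have h5 : χ2 = 2 := by omega
    rw [h5] at t2
    exact Or.inr t2

/-- A side from a function on the triangles. -/
theorem side_of_fun {s : W → W → W → ZMod 2} (h1 : ∀ x y w, s x y w = s y w x)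
    (h2 : ∀ x y w, s x y w = s y x w) (hrot : ∀ x y z, T x y z → T y z x)
    (hswap : ∀ x y z, T x y z → T y x z)
    (h3 : ∀ x y a b, a ≠ b → T x y a → T x y b → (s x y a + s x y b = 0 ↔ ¬ CycE c x y))
    (e : ZMod 2) : Side T c (fun x y z => T x y z ∧ s x y z = e) := by
  refine ⟨fun x y z h => h.1, fun x y z h => ⟨hrot _ _ _ h.1, (h1 x y z).symm.trans h.2⟩,
    fun x y z h => ⟨hswap _ _ _ h.1, (h2 x y z).symm.trans h.2⟩, fun x y a b hab ha hb => ?_⟩
  rw [← h3 x y a b hab ha hb]
  have key : ∀ p q e : ZMod 2, (p = e ↔ q = e) ↔ p + q = 0 := by decide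
  rw [← key _ _ e]
  constructor
  · intro h
    exact ⟨fun hp => (h.1 ⟨ha, hp⟩).2, fun hq => (h.2 ⟨hb, hq⟩).2⟩
  · intro h
    exact ⟨fun hp => ⟨hb, h.1 hp.2⟩, fun hq => ⟨ha, h.2 hq.2⟩⟩

end euler

end Pool.Agent.W986
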