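import Mathlib

/-!
# Sets of colourings as numbers

A colouring of the classes `0, .., k - 1` with the colours `0, .., 3` is a number below `4 ^ k`
(`senc`); a set of colourings is the number whose binary digits are its elements. `msk k j t` is the
set of the colourings which give the colour `t` to the class `j`. `dfs` goes through all colourings
of the inner vertices of a configuration; all numbers are evaluated by the kernel.
-/

set_option autoImplicit false

namespace Pool.Agent.W986

/-- The value of `f` at `n`, where `n` is evaluated first. -/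
def fce {α : Type} (n : ℕ) (f : ℕ → α) : α := Nat.casesOn n (f 0) fun p => f (p + 1)

theorem fce_eq {α : Type} (n : ℕ) (f : ℕ → α) : fce n f = f n := by
  cases n <;> rfl

/-- Four copies of the digits of `x`, in distance `n`. -/
def rep4 (n x : ℕ) : ℕ :=
  Nat.lor (Nat.lor x (Nat.shiftLeft x n))
    (Nat.lor (Nat.shiftLeft x (2 * n)) (Nat.shiftLeft x (3 * n)))

/-- The set of all colourings. -/
def fullSet (k : ℕ) : ℕ := 2 ^ 4 ^ k - 1

/-- The set of the colourings in which the class `j` has the colour `t`. -/
def msk : ℕ → ℕ → ℕ → ℕ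
  | 0, _, _ => 0
  | k + 1, j, t => bif Nat.beq j k then Nat.shiftLeft (fullSet k) (t * 4 ^ k) else
      rep4 (4 ^ k) (msk k j t)

/-- The number of a colouring. -/
def senc (cc : ℕ → ℕ) : ℕ → ℕ
  | 0 => 0
  | k + 1 => senc cc k + 4 ^ k * cc k

theorem senc_lt (cc : ℕ → ℕ) (h : ∀ j, cc j < 4) (k : ℕ) : senc cc k < 4 ^ k := by
  induction k with
  | zero => simp [senc]
  | succ k ih =>
    have h1 := h k
    rw [senc, pow_succ]
    have h2 : 4 ^ k * cc k ≤ 4 ^ k * 3 := Nat.mul_le_mul_left _ (by omega)
    omega

theorem testBit_fullSet (k i : ℕ) : (fullSet k).testBit i = decide (i < 4 ^ k) := by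
  rw [fullSet, Nat.testBit_two_pow_sub_one]

theorem testBit_rep4 (n x i e : ℕ) (hx : x < 2 ^ n) (hi : i < n) (he : e < 4) :
    (rep4 n x).testBit (i + n * e) = x.testBit i := by
  have h0 : ∀ s : ℕ, (Nat.shiftLeft x (s * n)).testBit (i + n * e) =
      (decide (e = s) && x.testBit i) := by
    intro s
    change (x <<< (s * n)).testBit (i + n * e) = _
    rw [Nat.testBit_shiftLeft]
    rcases lt_trichotomy e s with h | h | h
    · have h1 : ¬ s * n ≤ i + n * e := by
        have h2 : n * (e + 1) ≤ n * s := Nat.mul_le_mul_left n h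
        have h3 : s * n = n * s := mul_comm s n
        rw [Nat.mul_add, mul_one] at h2
        omega
      have h4 : ¬ e = s := by omega
      simp [h1, h4]
    · subst h
      have h1 : e * n ≤ i + n * e := by
        rw [mul_comm]
        omega
      have h2 : i + n * e - e * n = i := by
        rw [mul_comm]
        omega
      simp [h1, h2]
    · have h2 : n * (s + 1) ≤ n * e := Nat.mul_le_mul_left n h
      have h3 : s * n = n * s := mul_comm s n
      rw [Nat.mul_add, mul_one] at h2
      have h4 : n ≤ i + n * e - s * n := by omega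
      have h5 : x.testBit (i + n * e - s * n) = false :=
        Nat.testBit_eq_false_of_lt (lt_of_lt_of_le hx (Nat.pow_le_pow_right (by omega) h4))
      have h6 : ¬ e = s := by omega
      simp [h5, h6]
  have e0 : x = Nat.shiftLeft x (0 * n) := by
    change x = x <<< (0 * n)
    simp
  have e1 : Nat.shiftLeft x n = Nat.shiftLeft x (1 * n) := by rw [one_mul]
  have h1 : rep4 n x = (Nat.shiftLeft x (0 * n) ||| Nat.shiftLeft x (1 * n)) |||
      (Nat.shiftLeft x (2 * n) ||| Nat.shiftLeft x (3 * n)) := by
    rw [← e0, ← e1]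
    rfl
  rw [h1, Nat.testBit_or, Nat.testBit_or, Nat.testBit_or, h0, h0, h0, h0]
  interval_cases e <;> simp

theorem msk_lt (k j t : ℕ) (ht : t < 4) : msk k j t < 2 ^ 4 ^ k := by
  induction k with
  | zero => simp [msk]
  | succ k ih =>
    have hp : 4 ^ (k + 1) = 4 ^ k * 4 := pow_succ 4 k
    refine Nat.lt_pow_two_of_testBit _ fun i hi => ?_
    rw [msk]
    cases Nat.beq j k with
    | true =>
      change ((fullSet k) <<< (t * 4 ^ k)).testBit i = false
      rw [Nat.testBit_shiftLeft, testBit_fullSet]
      have h1 : t * 4 ^ k ≤ 3 * 4 ^ k := Nat.mul_le_mul_right _ (by omega)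
      have h2 : ¬ i - t * 4 ^ k < 4 ^ k := by omega
      simp [h2]
    | false =>
      have h3 : ∀ s, s < 4 → (msk k j t <<< (s * 4 ^ k)).testBit i = false := by
        intro s hs
        rw [Nat.testBit_shiftLeft]
        have h1 : s * 4 ^ k ≤ 3 * 4 ^ k := Nat.mul_le_mul_right _ (by omega)
        have h2 : (msk k j t).testBit (i - s * 4 ^ k) = false :=
          Nat.testBit_eq_false_of_lt (lt_of_lt_of_le ih (Nat.pow_le_pow_right (by omega)
            (by omega)))
        rw [h2, Bool.and_false]
      have e0 : msk k j t = msk k j t <<< (0 * 4 ^ k) := by simp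
      have h4 : (msk k j t).testBit i = false := by
        rw [e0]
        exact h3 0 (by omega)
      have h5 : (msk k j t <<< (4 ^ k)).testBit i = false := by
        have := h3 1 (by omega)
        rwa [one_mul] at this
      change ((msk k j t ||| msk k j t <<< (4 ^ k)) |||
        (msk k j t <<< (2 * 4 ^ k) ||| msk k j t <<< (3 * 4 ^ k))).testBit i = false
      rw [Nat.testBit_or, Nat.testBit_or, Nat.testBit_or, h4, h5, h3 2 (by omega),
        h3 3 (by omega)]
      rfl

theorem testBit_msk (cc : ℕ → ℕ) (h : ∀ j, cc j < 4) (k j t : ℕ) (hj : j < k) (ht : t < 4) :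
    (msk k j t).testBit (senc cc k) = decide (cc j = t) := by
  induction k with
  | zero => omega
  | succ k ih =>
    have h1 := senc_lt cc h k
    rw [msk, senc]
    by_cases hjk : j = k
    · subst hjk
      have h2 : Nat.beq j j = true := Nat.beq_refl j
      rw [h2]
      change ((fullSet j) <<< (t * 4 ^ j)).testBit (senc cc j + 4 ^ j * cc j) = _
      rw [Nat.testBit_shiftLeft, testBit_fullSet, mul_comm (4 ^ j) (cc j)]
      rcases lt_trichotomy (cc j) t with h3 | h3 | h3
      · have h4 : (cc j + 1) * 4 ^ j ≤ t * 4 ^ j := Nat.mul_le_mul_right _ h3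
        rw [add_mul, one_mul] at h4
        have h5 : ¬ t * 4 ^ j ≤ senc cc j + cc j * 4 ^ j := by omega
        have h6 : ¬ cc j = t := by omega
        simp [h5, h6]
      · rw [h3]
        have h5 : senc cc j + t * 4 ^ j - t * 4 ^ j = senc cc j := by omega
        have h6 : t * 4 ^ j ≤ senc cc j + t * 4 ^ j := by omega
        simp [h5, h6, h1]
      · have h4 : (t + 1) * 4 ^ j ≤ cc j * 4 ^ j := Nat.mul_le_mul_right _ h3
        rw [add_mul, one_mul] at h4
        have h5 : ¬ senc cc j + cc j * 4 ^ j - t * 4 ^ j < 4 ^ j := by omega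
        have h6 : ¬ cc j = t := by omega
        simp [h5, h6]
    · have h2 : Nat.beq j k = false := by
        cases h3 : Nat.beq j k with
        | false => rfl
        | true => exact absurd (Nat.eq_of_beq_eq_true h3) hjk
      rw [h2]
      change (rep4 (4 ^ k) (msk k j t)).testBit (senc cc k + 4 ^ k * cc k) = _
      rw [testBit_rep4 _ _ _ _ (msk_lt k j t ht) h1 (h k)]
      exact ih (by omega)

end Pool.Agent.W986
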