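import Pool.Agent.DC76.Defs

/-!
# Substitution and merging: the lifting lemma

`G` is a graph, `κ : Fin a → V` are the inner vertices, `ρ : Fin L → V` the ring vertices of a
configuration. `G'` is a graph on `V'` and `q : V → V'` maps the rest of `G` to `G'`; ring vertices
may be merged, and `G'` may have additional edges (chords). If every colouring of the ring which
comes from `G'` extends to the inner vertices, a `(4, 1)`-colouring of `G'` gives one of `G`.
-/

set_option autoImplicit false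

open Finset

namespace Pool.Agent.W986

open Pool.Agent.DC76

/-- The finite data of a configuration: adjacency of the inner vertices, adjacency between inner
vertices and ring vertices, the classes of the ring vertices which are merged, the chords, and the
edges of the ring. -/
structure Conf (a L : ℕ) where
  /-- adjacency of the inner vertices -/
  inn : Fin a → Fin a → Bool
  /-- adjacency between inner and ring vertices -/
  mix : Fin a → Fin L → Bool
  /-- the class of a ring vertex -/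
  cls : Fin L → Fin L
  /-- the chords -/
  chd : Fin L → Fin L → Bool
  /-- the edges of the ring -/
  rng : Fin L → Fin L → Bool

/-- The colouring `d` of the inner vertices extends the colouring `c` of the ring, where the ring
vertices in `m` get no new mates. -/
def Conf.Ext {a L : ℕ} (C : Conf a L) (c : Fin L → Fin 4) (m : Fin L → Bool) (d : Fin a → Fin 4) :
    Prop :=
  (∀ i, {j | C.inn i j = true ∧ d j = d i}.ncard + {r | C.mix i r = true ∧ c r = d i}.ncard ≤ 1) ∧
    (∀ r, {i | C.mix i r = true ∧ d i = c r}.ncard ≤ 1) ∧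
    ∀ r i, m r = true → C.mix i r = true → d i ≠ c r

/-- The colouring `c` and the set `m` of saturated vertices of the ring can come from `G'`. -/
structure Conf.State {a L : ℕ} (C : Conf a L) (c : Fin L → Fin 4) (m : Fin L → Bool) : Prop where
  /-- merged vertices have the same colour -/
  cls : ∀ r s, C.cls r = C.cls s → c r = c s
  /-- at most one vertex of a class is saturated -/
  one : ∀ r s, C.cls r = C.cls s → m r = true → m s = true → r = s
  /-- the classes of the ends of a chord have different colours or are not saturated -/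
  chd : ∀ r s, C.chd r s = true → c r = c s →
    (∀ t, C.cls t = C.cls r → m t = false) ∧ ∀ t, C.cls t = C.cls s → m t = false
  /-- the ends of an edge of the ring with equal colours are saturated -/
  rng : ∀ r s, C.rng r s = true → c r = c s → m r = true
  /-- at most one edge of the ring at a vertex has ends of the same colour -/
  two : ∀ r s t, C.rng r s = true → C.rng r t = true → c r = c s → c r = c t → s = t
  /-- the chords at a class whose ends have the same colour go to one class -/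
  chd2 : ∀ r s r' t, C.chd r s = true → C.chd r' t = true → C.cls r = C.cls r' → c r = c s →
    c r' = c t → C.cls s = C.cls t

/-- Every state of the ring extends. -/
def Conf.Red {a L : ℕ} (C : Conf a L) : Prop :=
  ∀ c m, C.State c m → ∃ d, C.Ext c m d

section

variable {V V' : Type} [Finite V] [Finite V'] {a L : ℕ}

/-- The lifting lemma; the colouring of `G` is the colouring of `G'` outside the configuration. -/
theorem Conf.lift' (C : Conf a L) (hC : C.Red) (G : SimpleGraph V) (G' : SimpleGraph V')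
    (κ : Fin a → V) (ρ : Fin L → V) (q : V → V')
    -- the inner vertices and the ring
    (hκ : Function.Injective κ) (hρ : Function.Injective ρ) (hκρ : ∀ i r, κ i ≠ ρ r)
    (hinn : ∀ i j, G.Adj (κ i) (κ j) ↔ C.inn i j = true)
    (hmix : ∀ i r, G.Adj (κ i) (ρ r) ↔ C.mix i r = true)
    (hnb : ∀ i v, G.Adj (κ i) v → (∃ j, v = κ j) ∨ ∃ r, v = ρ r)
    (hrng : ∀ r s, C.rng r s = true → G.Adj (ρ r) (ρ s))
    -- the map
    (hq : ∀ u v, (∀ i, κ i ≠ u) → (∀ i, κ i ≠ v) → G.Adj u v → G'.Adj (q u) (q v))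
    (hcls : ∀ r s, C.cls r = C.cls s ↔ q (ρ r) = q (ρ s))
    (hout : ∀ u v, (∀ i, κ i ≠ u) → (∀ i, κ i ≠ v) → q u = q v → u = v ∨ ∃ r s, u = ρ r ∧ v = ρ s)
    -- no vertex outside is adjacent to two vertices of a class
    (hV : ∀ v r s, (∀ i, κ i ≠ v) → q (ρ r) = q (ρ s) → G.Adj v (ρ r) → G.Adj v (ρ s) → r = s)
    -- there is at most one edge between two classes
    (hW : ∀ r s t u, q (ρ r) = q (ρ s) → q (ρ t) = q (ρ u) → G.Adj (ρ r) (ρ t) →
      G.Adj (ρ s) (ρ u) → r = s ∧ t = u)
    -- the chords are new edges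
    (hchd : ∀ r s, C.chd r s = true → G'.Adj (q (ρ r)) (q (ρ s)))
    (hnew : ∀ r s t u, C.chd r s = true → q (ρ t) = q (ρ r) → q (ρ u) = q (ρ s) →
      ¬ G.Adj (ρ t) (ρ u))
    (c' : V' → Fin 4) (hc' : Defective G' 1 c') :
    ∃ c : V → Fin 4, Defective G 1 c ∧ ∀ v, (∀ i, κ i ≠ v) → c v = c' (q v) := by
  classical
  -- two mates of a vertex of `G'` are equal
  have huniq : ∀ x y z, G'.Adj x y → c' y = c' x → G'.Adj x z → c' z = c' x → y = z := by
    intro x y z h1 h2 h3 h4
    have h := hc' x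
    rw [Set.ncard_le_one (Set.toFinite _)] at h
    exact h y ⟨h1, h2⟩ z ⟨h3, h4⟩
  let Out : V → Prop := fun v => ∀ i, κ i ≠ v
  have hρo : ∀ r, Out (ρ r) := fun r i => hκρ i r
  let c0 : Fin L → Fin 4 := fun r => c' (q (ρ r))
  let m : Fin L → Bool := fun r =>
    decide (∃ v, Out v ∧ G.Adj (ρ r) v ∧ c' (q v) = c' (q (ρ r)))
  have hm : ∀ r, m r = true ↔ ∃ v, Out v ∧ G.Adj (ρ r) v ∧ c' (q v) = c' (q (ρ r)) :=
    fun r => decide_eq_true_iff
  have hstate : C.State c0 m := by
    refine ⟨?_, ?_, ?_, ?_, ?_, ?_⟩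
    · intro r s h
      change c' _ = c' _
      rw [(hcls r s).1 h]
    · intro r s h hr hs
      have h' := (hcls r s).1 h
      obtain ⟨u, hu, hru, hcu⟩ := (hm r).1 hr
      obtain ⟨w, hw, hsw, hcw⟩ := (hm s).1 hs
      have h1 := hq _ _ (hρo r) hu hru
      have h2 := hq _ _ (hρo s) hw hsw
      rw [← h'] at h2 hcw
      have h3 := huniq _ _ _ h1 hcu h2 hcw
      rcases hout u w hu hw h3 with h4 | ⟨t, u', rfl, rfl⟩
      · subst h4
        exact hV u r s hu h' hru.symm hsw.symm
      · exact (hW r s t u' h' h3 hru hsw).1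
    · intro r s h hc
      have h1 := hchd r s h
      change c' _ = c' _ at hc
      constructor
      · intro t ht
        rw [← Bool.not_eq_true]
        intro hmt
        obtain ⟨v, hv, htv, hcv⟩ := (hm t).1 hmt
        have h' := (hcls t r).1 ht
        have h2 := hq _ _ (hρo t) hv htv
        rw [h'] at h2 hcv
        have h3 := huniq _ _ _ h1 hc.symm h2 hcv
        rcases hout _ _ hv (hρo s) h3.symm with h4 | ⟨u', s', rfl, h4⟩
        · subst h4
          exact hnew r s t s h h' rfl htv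
        · refine hnew r s t u' h h' ?_ htv
          rw [h3]
      · intro t ht
        rw [← Bool.not_eq_true]
        intro hmt
        obtain ⟨v, hv, htv, hcv⟩ := (hm t).1 hmt
        have h' := (hcls t s).1 ht
        have h2 := hq _ _ (hρo t) hv htv
        rw [h'] at h2 hcv
        have h3 := huniq _ _ _ h1.symm hc h2 hcv
        rcases hout _ _ hv (hρo r) h3.symm with h4 | ⟨u', s', rfl, h4⟩
        · subst h4
          exact hnew r s r t h rfl h' htv.symm
        · refine hnew r s u' t h ?_ h' htv.symm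
          rw [h3]
    · intro r s h hc
      exact (hm r).2 ⟨ρ s, hρo s, hrng r s h, hc.symm⟩
    · intro r s t h1 h2 hc1 hc2
      have h3 := huniq _ _ _ (hq _ _ (hρo r) (hρo s) (hrng r s h1)) hc1.symm
        (hq _ _ (hρo r) (hρo t) (hrng r t h2)) hc2.symm
      exact hV (ρ r) s t (hρo r) h3 (hrng r s h1) (hrng r t h2)
    · intro r s r' t h1 h2 hcl hc1 hc2
      have h4 := (hcls r r').1 hcl
      have h5 := hchd r s h1
      have h6 := hchd r' t h2
      change c' _ = c' _ at hc1 hc2
      rw [← h4] at h6 hc2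
      exact (hcls s t).2 (huniq _ _ _ h5 hc1.symm h6 hc2.symm)
  obtain ⟨d, hd1, hd2, hd3⟩ := hC c0 m hstate
  let c : V → Fin 4 := fun v => if h : ∃ i, κ i = v then d h.choose else c' (q v)
  have hcκ : ∀ i, c (κ i) = d i := by
    intro i
    have h : ∃ j, κ j = κ i := ⟨i, rfl⟩
    change (if h : ∃ j, κ j = κ i then d h.choose else _) = _
    rw [dif_pos h, hκ h.choose_spec]
  have hco : ∀ v, Out v → c v = c' (q v) := by
    intro v hv
    change (if h : ∃ j, κ j = v then d h.choose else _) = _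
    rw [dif_neg]
    rintro ⟨i, hi⟩
    exact hv i hi
  -- the mates outside
  have hout1 : ∀ v, Out v → ∀ u w, Out u → Out w → G.Adj v u → G.Adj v w → c u = c v →
      c w = c v → u = w := by
    intro v hv u w hu hw hvu hvw hcu hcw
    rw [hco u hu, hco v hv] at hcu
    rw [hco w hw, hco v hv] at hcw
    have h3 := huniq _ _ _ (hq v u hv hu hvu) hcu (hq v w hv hw hvw) hcw
    rcases hout u w hu hw h3 with h4 | ⟨t, s, rfl, rfl⟩
    · exact h4
    · rw [hV v t s hv h3 hvu hvw]
  refine ⟨c, fun v => ?_, hco⟩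
  by_cases hv : ∃ i, κ i = v
  · obtain ⟨i, rfl⟩ := hv
    have hsub : {u | G.Adj (κ i) u ∧ c u = c (κ i)} ⊆
        κ '' {j | C.inn i j = true ∧ d j = d i} ∪ ρ '' {r | C.mix i r = true ∧ c0 r = d i} := by
      rintro u ⟨h1, h2⟩
      rcases hnb i u h1 with ⟨j, rfl⟩ | ⟨r, rfl⟩
      · rw [hcκ, hcκ] at h2
        exact Or.inl ⟨j, ⟨(hinn i j).1 h1, h2⟩, rfl⟩
      · rw [hcκ, hco _ (hρo r)] at h2
        exact Or.inr ⟨r, ⟨(hmix i r).1 h1, h2⟩, rfl⟩
    refine (Set.ncard_le_ncard hsub (Set.toFinite _)).trans ((Set.ncard_union_le _ _).trans ?_)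
    rw [Set.ncard_image_of_injective _ hκ, Set.ncard_image_of_injective _ hρ]
    exact hd1 i
  · have hv' : Out v := fun i hi => hv ⟨i, hi⟩
    rw [Set.ncard_le_one (Set.toFinite _)]
    rintro u ⟨hvu, hcu⟩ w ⟨hvw, hcw⟩
    by_cases hr : ∃ r, v = ρ r
    · obtain ⟨r, rfl⟩ := hr
      -- an outer mate excludes inner mates
      have hex : ∀ x i, Out x → G.Adj (ρ r) x → c x = c (ρ r) → G.Adj (ρ r) (κ i) →
          c (κ i) = c (ρ r) → False := by
        intro x i hx h1 h2 h3 h4
        rw [hco x hx, hco _ hv'] at h2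
        rw [hcκ, hco _ hv'] at h4
        exact hd3 r i ((hm r).2 ⟨x, hx, h1, h2⟩) ((hmix i r).1 h3.symm) h4
      by_cases hu : ∃ i, κ i = u
      · obtain ⟨i, rfl⟩ := hu
        by_cases hw : ∃ i, κ i = w
        · obtain ⟨j, rfl⟩ := hw
          have h := hd2 r
          rw [Set.ncard_le_one (Set.toFinite _)] at h
          rw [hcκ, hco _ hv'] at hcu hcw
          rw [h i ⟨(hmix i r).1 hvu.symm, hcu⟩ j ⟨(hmix j r).1 hvw.symm, hcw⟩]
        · exact (hex w i (fun i hi => hw ⟨i, hi⟩) hvw hcw hvu hcu).elim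
      · by_cases hw : ∃ i, κ i = w
        · obtain ⟨j, rfl⟩ := hw
          exact (hex u j (fun i hi => hu ⟨i, hi⟩) hvu hcu hvw hcw).elim
        · exact hout1 _ hv' u w (fun i hi => hu ⟨i, hi⟩) (fun i hi => hw ⟨i, hi⟩) hvu hvw hcu hcw
    · have hno : ∀ i, ¬ G.Adj v (κ i) := by
        intro i h
        rcases hnb i v h.symm with ⟨j, rfl⟩ | ⟨r, rfl⟩
        · exact hv ⟨j, rfl⟩
        · exact hr ⟨r, rfl⟩
      refine hout1 v hv' u w ?_ ?_ hvu hvw hcu hcw
      · rintro i rfl
        exact hno i hvu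
      · rintro i rfl
        exact hno i hvw

/-- The lifting lemma. -/
theorem Conf.lift (C : Conf a L) (hC : C.Red) (G : SimpleGraph V) (G' : SimpleGraph V')
    (κ : Fin a → V) (ρ : Fin L → V) (q : V → V')
    (hκ : Function.Injective κ) (hρ : Function.Injective ρ) (hκρ : ∀ i r, κ i ≠ ρ r)
    (hinn : ∀ i j, G.Adj (κ i) (κ j) ↔ C.inn i j = true)
    (hmix : ∀ i r, G.Adj (κ i) (ρ r) ↔ C.mix i r = true)
    (hnb : ∀ i v, G.Adj (κ i) v → (∃ j, v = κ j) ∨ ∃ r, v = ρ r)
    (hrng : ∀ r s, C.rng r s = true → G.Adj (ρ r) (ρ s))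
    (hq : ∀ u v, (∀ i, κ i ≠ u) → (∀ i, κ i ≠ v) → G.Adj u v → G'.Adj (q u) (q v))
    (hcls : ∀ r s, C.cls r = C.cls s ↔ q (ρ r) = q (ρ s))
    (hout : ∀ u v, (∀ i, κ i ≠ u) → (∀ i, κ i ≠ v) → q u = q v → u = v ∨ ∃ r s, u = ρ r ∧ v = ρ s)
    (hV : ∀ v r s, (∀ i, κ i ≠ v) → q (ρ r) = q (ρ s) → G.Adj v (ρ r) → G.Adj v (ρ s) → r = s)
    (hW : ∀ r s t u, q (ρ r) = q (ρ s) → q (ρ t) = q (ρ u) → G.Adj (ρ r) (ρ t) →
      G.Adj (ρ s) (ρ u) → r = s ∧ t = u)
    (hchd : ∀ r s, C.chd r s = true → G'.Adj (q (ρ r)) (q (ρ s)))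
    (hnew : ∀ r s t u, C.chd r s = true → q (ρ t) = q (ρ r) → q (ρ u) = q (ρ s) →
      ¬ G.Adj (ρ t) (ρ u))
    (c' : V' → Fin 4) (hc' : Defective G' 1 c') : ∃ c : V → Fin 4, Defective G 1 c := by
  obtain ⟨c, h, _⟩ := C.lift' hC G G' κ ρ q hκ hρ hκρ hinn hmix hnb hrng hq hcls hout hV hW hchd
    hnew c' hc'
  exact ⟨c, h⟩

end

end Pool.Agent.W986
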