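import Pool.Agent.W986.SubDef
import Pool.Agent.W986.SubMask
import Pool.Agent.W986.SubMerge

/-!
# Configurations: a check by the kernel

`CData` is a configuration given by lists of numbers. `CData.check D = true` is evaluated by the
kernel, and implies that every state of the ring of the configuration `CData.conf D` extends.
-/

set_option autoImplicit false

namespace Pool.Agent.W986

/-! ### Lists -/

theorem testBit_or1 (f : ℕ → ℕ) (l : List ℕ) (i : ℕ) :
    (or1 f l).testBit i = true ↔ ∃ x ∈ l, (f x).testBit i = true := by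
  induction l with
  | nil => simp [or1]
  | cons y l ih =>
    rw [or1]
    change (f y ||| or1 f l).testBit i = true ↔ _
    rw [Nat.testBit_or, Bool.or_eq_true, ih]
    simp

theorem testBit_or2 (f : ℕ → ℕ → ℕ) (l : List (ℕ × ℕ)) (i : ℕ) :
    (or2 f l).testBit i = true ↔ ∃ x y, (x, y) ∈ l ∧ (f x y).testBit i = true := by
  induction l with
  | nil => simp [or2]
  | cons p l ih =>
    obtain ⟨p1, p2⟩ := p
    rw [or2]
    change (f p1 p2 ||| or2 f l).testBit i = true ↔ _
    rw [Nat.testBit_or, Bool.or_eq_true, ih]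
    constructor
    · rintro (h | ⟨x, y, h1, h2⟩)
      · exact ⟨p1, p2, List.mem_cons_self, h⟩
      · exact ⟨x, y, List.mem_cons_of_mem _ h1, h2⟩
    · rintro ⟨x, y, h1, h2⟩
      rcases List.mem_cons.1 h1 with h3 | h3
      · rw [Prod.mk.injEq] at h3
        rw [h3.1, h3.2] at h2
        exact Or.inl h2
      · exact Or.inr ⟨x, y, h3, h2⟩

/-! ### Colours of the inner vertices -/

theorem sdg_eq (code j : ℕ) : sdg code j = code / 4 ^ j % 4 := by
  change (code >>> (2 * j)) &&& 3 = _
  rw [Nat.shiftRight_eq_div_pow, pow_mul]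
  exact Nat.and_two_pow_sub_one_eq_mod _ 2

theorem sdg_mod (E i j : ℕ) (h : j < i) : sdg (E % 4 ^ i) j = sdg E j := by
  rw [sdg_eq, sdg_eq]
  obtain ⟨n, rfl⟩ : ∃ n, i = j + (n + 1) := ⟨i - j - 1, by omega⟩
  rw [pow_add, Nat.mod_mul_right_div_self, Nat.mod_mod_of_dvd]
  exact ⟨4 ^ n, by rw [pow_succ, mul_comm]⟩

/-- Search for an extension. -/
def dfs {β : Type} (exc : β → ℕ → ℕ → ℕ) : List β → ℕ → ℕ → ℕ → ℕ → ℕ
  | [], _, _, bad, R => Nat.land R bad
  | lv :: rest, i, code, bad, R =>
    let step : ℕ → ℕ → ℕ := fun t R =>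
      fce (Nat.lor bad (exc lv code t)) fun b =>
        bif Nat.beq (Nat.land R b) R then R else dfs exc rest (i + 1) (code + t * 4 ^ i) b R
    fce (step 0 R) fun R0 => fce (step 1 R0) fun R1 => fce (step 2 R1) fun R2 => step 3 R2

/-- The colouring with number `idx` survives. -/
def GoodFrom {β : Type} (exc : β → ℕ → ℕ → ℕ) (idx : ℕ) : List β → ℕ → ℕ → Prop
  | [], _, _ => True
  | lv :: rest, i, code => ∃ t < 4, (exc lv code t).testBit idx = false ∧
      GoodFrom exc idx rest (i + 1) (code + t * 4 ^ i)

theorem dfs_sound {β : Type} (exc : β → ℕ → ℕ → ℕ) (idx : ℕ) (lev : List β) :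
    ∀ i code bad R, R.testBit idx = true → (dfs exc lev i code bad R).testBit idx = false →
      bad.testBit idx = false ∧ GoodFrom exc idx lev i code := by
  induction lev with
  | nil =>
    intro i code bad R h1 h2
    rw [dfs] at h2
    change (R &&& bad).testBit idx = false at h2
    rw [Nat.testBit_and, h1, Bool.true_and] at h2
    exact ⟨h2, trivial⟩
  | cons lv rest ih =>
    intro i code bad R h1 h2
    rw [dfs] at h2
    simp only [fce_eq] at h2
    have key : ∀ t R', t < 4 → R'.testBit idx = true →
        (bif Nat.beq (Nat.land R' (Nat.lor bad (exc lv code t))) R' then R' else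
          dfs exc rest (i + 1) (code + t * 4 ^ i) (Nat.lor bad (exc lv code t)) R').testBit idx =
            false →
        bad.testBit idx = false ∧ GoodFrom exc idx (lv :: rest) i code := by
      intro t R' ht hR h
      cases hc : Nat.beq (Nat.land R' (Nat.lor bad (exc lv code t))) R' with
      | true =>
        rw [hc, cond_true, hR] at h
        exact absurd h (by decide)
      | false =>
        rw [hc, cond_false] at h
        obtain ⟨h3, h4⟩ := ih _ _ _ _ hR h
        change (bad ||| exc lv code t).testBit idx = false at h3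
        rw [Nat.testBit_or, Bool.or_eq_false_iff] at h3
        exact ⟨h3.1, t, ht, h3.2, h4⟩
    generalize hR0 : (bif Nat.beq (Nat.land R (Nat.lor bad (exc lv code 0))) R then R else
      dfs exc rest (i + 1) (code + 0 * 4 ^ i) (Nat.lor bad (exc lv code 0)) R) = R0 at h2
    generalize hR1 : (bif Nat.beq (Nat.land R0 (Nat.lor bad (exc lv code 1))) R0 then R0 else
      dfs exc rest (i + 1) (code + 1 * 4 ^ i) (Nat.lor bad (exc lv code 1)) R0) = R1 at h2
    generalize hR2 : (bif Nat.beq (Nat.land R1 (Nat.lor bad (exc lv code 2))) R1 then R1 else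
      dfs exc rest (i + 1) (code + 2 * 4 ^ i) (Nat.lor bad (exc lv code 2)) R1) = R2 at h2
    cases h3 : R0.testBit idx with
    | false => exact key 0 R (by omega) h1 (by rw [hR0]; exact h3)
    | true =>
      cases h4 : R1.testBit idx with
      | false => exact key 1 R0 (by omega) h3 (by rw [hR1]; exact h4)
      | true =>
        cases h5 : R2.testBit idx with
        | false => exact key 2 R1 (by omega) h4 (by rw [hR2]; exact h5)
        | true => exact key 3 R2 (by omega) h5 h2

theorem GoodFrom.exists {β : Type} (exc : β → ℕ → ℕ → ℕ) (idx : ℕ) (lev : List β) :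
    ∀ i code, code < 4 ^ i → GoodFrom exc idx lev i code → ∃ E, E % 4 ^ i = code ∧
      ∀ n (h : n < lev.length),
        (exc lev[n] (E % 4 ^ (i + n)) (sdg E (i + n))).testBit idx = false := by
  induction lev with
  | nil =>
    intro i code h _
    exact ⟨code, Nat.mod_eq_of_lt h, fun n h => absurd h (by simp)⟩
  | cons lv rest ih =>
    intro i code h ⟨t, ht, h1, h2⟩
    have h3 : code + t * 4 ^ i < 4 ^ (i + 1) := by
      rw [pow_succ]
      have : t * 4 ^ i ≤ 3 * 4 ^ i := Nat.mul_le_mul_right _ (by omega)
      omega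
    obtain ⟨E, hE, h4⟩ := ih (i + 1) _ h3 h2
    have h5 : E % 4 ^ i = code := by
      have h6 : E % 4 ^ (i + 1) % 4 ^ i = E % 4 ^ i :=
        Nat.mod_mod_of_dvd _ ⟨4, pow_succ 4 i⟩
      rw [← h6, hE, Nat.add_mul_mod_self_right, Nat.mod_eq_of_lt h]
    refine ⟨E, h5, fun n hn => ?_⟩
    cases n with
    | zero =>
      have h6 : sdg E (i + 0) = t := by
        have h7 := sdg_mod E (i + 1) i (by omega)
        rw [add_zero, ← h7, hE, sdg_eq, Nat.add_mul_div_right _ _ (by positivity),
          Nat.div_eq_of_lt h, zero_add, Nat.mod_eq_of_lt ht]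
      rw [h6, add_zero, h5]
      exact h1
    | succ n =>
      have h6 := h4 n (by simpa using hn)
      have h7 : i + 1 + n = i + (n + 1) := by omega
      rw [h7] at h6
      exact h6

/-! ### Patterns: the vertices which may be saturated -/

theorem exists_pat (m : ℕ → Prop) (Cs : List (List ℕ))
    (h : ∀ c ∈ Cs, ∀ r ∈ c, ∀ s ∈ c, m r → m s → r = s) :
    ∃ p ∈ pats Cs, ∀ c ∈ Cs, ∀ r ∈ c, m r → r ∈ p := by
  classical
  induction Cs with
  | nil => exact ⟨[], by simp [pats], by simp⟩
  | cons c rest ih =>
    obtain ⟨p, hp, h1⟩ := ih fun c' hc' => h c' (List.mem_cons_of_mem _ hc')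
    have h2 := h c List.mem_cons_self
    cases c with
    | nil =>
      refine ⟨p, hp, fun c hc => ?_⟩
      rcases List.mem_cons.1 hc with rfl | hc
      · intro r hr
        simp at hr
      · exact h1 c hc
    | cons x l =>
      obtain ⟨y, hy, hy'⟩ : ∃ y ∈ x :: l, ∀ r ∈ x :: l, m r → r = y := by
        by_cases h3 : ∃ y ∈ x :: l, m y
        · obtain ⟨y, hy, hm⟩ := h3
          exact ⟨y, hy, fun r hr hr' => h2 r hr y hy hr' hm⟩
        · refine ⟨x, List.mem_cons_self, fun r hr hr' => ?_⟩
          exact absurd ⟨r, hr, hr'⟩ h3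
      refine ⟨y :: p, ?_, ?_⟩
      · change y :: p ∈ (x :: l).flatMap fun r => (pats rest).map fun p => r :: p
        rw [List.mem_flatMap]
        exact ⟨y, hy, List.mem_map.2 ⟨p, hp, rfl⟩⟩
      · intro c hc r hr hm
        rcases List.mem_cons.1 hc with rfl | hc
        · rw [hy' r hr hm]
          exact List.mem_cons_self
        · exact List.mem_cons_of_mem _ (h1 c hc r hr hm)

/-! ### Configurations -/

/-- A configuration: `a` inner vertices, `L` ring vertices, `k` classes of ring vertices; the lists
of edges and chords contain every pair in both orders. -/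
structure CData where
  /-- number of inner vertices -/
  a : ℕ
  /-- number of ring vertices -/
  L : ℕ
  /-- number of classes -/
  k : ℕ
  /-- edges between inner vertices -/
  inn : List (ℕ × ℕ)
  /-- edges between inner vertices and ring vertices -/
  mix : List (ℕ × ℕ)
  /-- the class of a ring vertex -/
  cl : List ℕ
  /-- chords, as pairs of ring vertices -/
  chd : List (ℕ × ℕ)
  /-- edges of the ring -/
  rng : List (ℕ × ℕ)
  /-- forbidden patterns -/
  lev : List Lev

namespace CData

variable (D : CData)

/-- The class of the ring vertex `r`. -/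
def q (r : ℕ) : ℕ := nth D.cl r

/-- The configuration. -/
def conf : Conf D.a D.L where
  inn i j := mem2 i j D.inn
  mix i r := mem2 i r D.mix
  cls r := if h : D.q r < D.L then ⟨D.q r, h⟩ else r
  chd r s := mem2 r s D.chd
  rng r s := mem2 r s D.rng

/-- The members of the class `c`. -/
def mem (c : ℕ) : List ℕ := (List.range D.L).filter fun r => Nat.beq (D.q r) c

/-- The colourings in which the classes `c`, `c'` have the same colour. -/
def mono (c c' : ℕ) : ℕ :=
  Nat.lor (Nat.lor (Nat.land (msk D.k c 0) (msk D.k c' 0)) (Nat.land (msk D.k c 1) (msk D.k c' 1)))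
    (Nat.lor (Nat.land (msk D.k c 2) (msk D.k c' 2)) (Nat.land (msk D.k c 3) (msk D.k c' 3)))

/-- The colourings of the ring which are possible if only members of `p` are saturated. -/
def start (p : List ℕ) : ℕ :=
  Nat.xor (fullSet D.k) (Nat.lor
    (Nat.lor
      (or2 (fun r s => bif mem1 r p then 0 else D.mono (D.q r) (D.q s)) D.rng)
      (or2 (fun r s => or2 (fun r' s' => bif (bif Nat.beq r r' then Nat.beq s s' else true) then 0
        else Nat.land (D.mono (D.q r) (D.q s)) (D.mono (D.q r') (D.q s'))) D.rng) D.rng))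
    (Nat.lor
      (or2 (fun r s => or2 (fun r' s' => bif (bif Nat.beq (D.q r) (D.q r') then
        Nat.beq (D.q s) (D.q s') else true) then 0
        else Nat.land (D.mono (D.q r) (D.q s)) (D.mono (D.q r') (D.q s'))) D.chd) D.chd)
      (or2 (fun r s => or2 (fun r' s' => bif Nat.beq (D.q r) (D.q r') then
        Nat.land (D.mono (D.q r) (D.q s)) (D.mono (D.q r') (D.q s')) else 0) D.rng) D.chd)))

/-- The colourings in which `r` has the colour `t` and may be saturated. -/
def lock (p : List ℕ) (r t : ℕ) : ℕ :=
  bif mem1 r p then Nat.land (msk D.k (D.q r) t) (Nat.xor (fullSet D.k)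
    (or2 (fun s s' => bif Nat.beq (D.q s) (D.q r) then D.mono (D.q s) (D.q s') else 0) D.chd))
  else 0

/-- Some pair of inner vertices has the colour `t`. -/
def anyA (code t : ℕ) : List (ℕ × ℕ) → Bool
  | [] => false
  | p :: l => bif (bif Nat.beq (sdg code p.1) t then Nat.beq (sdg code p.2) t else false) then true
      else anyA code t l

/-- The colourings excluded by the choice of the colour `t`. -/
def exc (p : List ℕ) (lv : Lev) (code t : ℕ) : ℕ :=
  Nat.lor
    (Nat.lor (bif anyA code t lv.A then fullSet D.k else 0)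
      (or2 (fun j c => bif Nat.beq (sdg code j) t then msk D.k c t else 0) lv.B))
    (Nat.lor (or2 (fun c c' => Nat.land (msk D.k c t) (msk D.k c' t)) lv.C)
      (or1 (fun r => D.lock p r t) lv.E))

/-- The forbidden patterns with last vertex `i`. -/
def levAt : List Lev → ℕ → Lev
  | [], _ => ⟨[], [], [], []⟩
  | x :: _, 0 => x
  | _ :: l, n + 1 => levAt l n

/-- The pair is in the list, in some order. -/
def memS (x y : ℕ) (l : List (ℕ × ℕ)) : Bool := mem2 x y l || mem2 y x l

/-- The lists are complete. -/
def wf : Bool :=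
  Nat.beq D.lev.length D.a && Nat.ble D.k D.L &&
    (List.range D.L).all (fun r => Nat.blt (D.q r) D.k) &&
    all2 (fun r s => Nat.blt r D.L && Nat.blt s D.L && mem2 s r D.rng) D.rng &&
    all2 (fun r s => Nat.blt r D.L && Nat.blt s D.L && mem2 s r D.chd) D.chd &&
    all2 (fun i j => Nat.blt i D.a && Nat.blt j D.a && mem2 j i D.inn && !Nat.beq i j) D.inn &&
    all2 (fun i r => Nat.blt i D.a && Nat.blt r D.L && mem1 r (levAt D.lev i).E) D.mix &&
    all2 (fun i j => all2 (fun i' j' => bif Nat.beq i i' && Nat.blt j j' then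
      (bif Nat.blt i j' then memS i j (levAt D.lev j').A else memS j j' (levAt D.lev i).A)
      else true) D.inn) D.inn &&
    all2 (fun i j => all2 (fun i' r => bif Nat.beq i i' then
      (bif Nat.blt j i then mem2 j (D.q r) (levAt D.lev i).B else mem2 i (D.q r) (levAt D.lev j).B)
      else true) D.mix) D.inn &&
    all2 (fun i r => all2 (fun i' r' => bif Nat.beq r r' && Nat.blt i i' then
      mem2 i (D.q r) (levAt D.lev i').B else true) D.mix) D.mix &&
    all2 (fun i r => all2 (fun i' r' => bif Nat.beq i i' && Nat.blt r r' then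
      memS (D.q r) (D.q r') (levAt D.lev i).C else true) D.mix) D.mix

/-- The check. -/
def check : Bool :=
  D.wf && allL (fun p => Nat.beq (fce (D.start p) fun R => dfs (D.exc p) D.lev 0 0 0 R) 0)
    (pats ((List.range D.k).map D.mem))

end CData

end Pool.Agent.W986
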