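import Pool.Agent.W986.SubQDef

/-!
# The inside of a disc with four corners

If opposite corners of a disc are not adjacent and have no common inner neighbour, then the set of
the inner vertices is a region.
-/

set_option autoImplicit false

open Finset

namespace Pool.Agent.W986

variable {V : Type}

section four

/-- The sequence `a, b, c, d, a, b, c, d, …`. -/
def four (a b c d : V) (i : ℕ) : V :=
  if i % 4 = 0 then a else if i % 4 = 1 then b else if i % 4 = 2 then c else d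

theorem four_add (a b c d : V) (i : ℕ) : four a b c d (i + 4) = four a b c d i := by
  simp only [four, Nat.add_mod_right]

theorem four_mod (a b c d : V) (i : ℕ) : four a b c d (i % 4) = four a b c d i := by
  simp only [four, Nat.mod_mod]

theorem four_succ (a b c d : V) (i : ℕ) : four a b c d (i + 1) = four b c d a i := by
  have h4 : i % 4 < 4 := Nat.mod_lt _ (by omega)
  have e1 : (i + 1) % 4 = (i % 4 + 1) % 4 := by omega
  simp only [four, e1]
  generalize i % 4 = m at h4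
  interval_cases m <;> simp

theorem four_all {P : V → Prop} {a b c d : V} (ha : P a) (hb : P b) (hc : P c) (hd : P d)
    (i : ℕ) : P (four a b c d i) := by
  have h4 : i % 4 < 4 := Nat.mod_lt _ (by omega)
  simp only [four]
  generalize i % 4 = m at h4
  interval_cases m <;> simpa

theorem four_inj {a b c d : V} (ab : a ≠ b) (ac : a ≠ c) (ad : a ≠ d) (bc : b ≠ c) (bd : b ≠ d)
    (cd : c ≠ d) : ∀ i < 4, ∀ j < 4, four a b c d i = four a b c d j → i = j := by
  intro i hi j hj e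
  interval_cases i <;> interval_cases j <;> simp [four] at e ⊢ <;> simp_all

theorem four_rel {R : V → V → V → Prop} {a b c d p q r s : V} (h1 : R a b p) (h2 : R b c q)
    (h3 : R c d r) (h4 : R d a s) (i : ℕ) :
    R (four a b c d i) (four a b c d (i + 1)) (four p q r s i) := by
  have h5 : i % 4 < 4 := Nat.mod_lt _ (by omega)
  rw [four_succ]
  simp only [four]
  generalize i % 4 = m at h5
  interval_cases m <;> simpa

theorem four_mem {a b c d y : V} (h : y = a ∨ y = b ∨ y = c ∨ y = d) :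
    ∃ i, y = four a b c d i := by
  rcases h with rfl | rfl | rfl | rfl
  · exact ⟨0, rfl⟩
  · exact ⟨1, rfl⟩
  · exact ⟨2, rfl⟩
  · exact ⟨3, rfl⟩

end four

theorem ncard_and_mem (I : Finset V) (P : V → Prop) [DecidablePred P] :
    {y | P y ∧ y ∈ I}.ncard = ∑ y ∈ I, if P y then 1 else 0 := by
  rw [← Finset.card_filter, ← Set.ncard_coe_finset]
  congr 1
  ext y
  simp [and_comm]

namespace Apex

variable {S : Finset V} {G : SimpleGraph V} {T : V → V → V → Prop} {o a b c d : V}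
  {I : Finset V}

theorem inn_turn (hI : ∀ x, x ∈ I ↔ x ∈ S ∧ x ≠ o ∧ x ≠ a ∧ x ≠ b ∧ x ≠ c ∧ x ≠ d) (x : V) :
    x ∈ I ↔ x ∈ S ∧ x ≠ o ∧ x ≠ b ∧ x ≠ c ∧ x ≠ d ∧ x ≠ a := by
  rw [hI]
  tauto

theorem inn_refl (hI : ∀ x, x ∈ I ↔ x ∈ S ∧ x ≠ o ∧ x ≠ a ∧ x ≠ b ∧ x ≠ c ∧ x ≠ d) (x : V) :
    x ∈ I ↔ x ∈ S ∧ x ≠ o ∧ x ≠ a ∧ x ≠ d ∧ x ≠ c ∧ x ≠ b := by
  rw [hI]
  tauto

/-- The outer neighbours of an inner vertex are corners. -/
theorem outer (h : Apex S G T o a b c d)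
    (hI : ∀ x, x ∈ I ↔ x ∈ S ∧ x ≠ o ∧ x ≠ a ∧ x ≠ b ∧ x ≠ c ∧ x ≠ d) {x y : V} (hx : x ∈ I)
    (hy : y ∉ I) (hxy : G.Adj x y) : y = a ∨ y = b ∨ y = c ∨ y = d := by
  have hyS := h.tri.mem _ _ hxy.symm
  by_contra hcon
  push Not at hcon
  rw [hI] at hx hy
  apply hy
  refine ⟨hyS, ?_, hcon⟩
  rintro rfl
  rcases (h.nb x).1 hxy.symm with e | e | e | e
  · exact hx.2.2.1 e
  · exact hx.2.2.2.1 e
  · exact hx.2.2.2.2.1 e
  · exact hx.2.2.2.2.2 e

theorem oao (h : Apex S G T o a b c d) : T a b o := h.tri.rot _ _ _ h.t1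

/-- The inner triangle at a side. -/
theorem third (h : Apex S G T o a b c d)
    (hI : ∀ x, x ∈ I ↔ x ∈ S ∧ x ≠ o ∧ x ≠ a ∧ x ≠ b ∧ x ≠ c ∧ x ≠ d)
    (hac : ¬ G.Adj a c) (hbd : ¬ G.Adj b d) :
    ∃ p ∈ I, T a b p ∧ ∀ q, T a b q ↔ q = o ∨ q = p := by
  have key : ∀ p, p ≠ o → T a b p → p ∈ I := by
    intro p hp hT
    obtain ⟨_, e2, e3⟩ := h.tri.toTriLoc.adj2 hT
    rw [hI]
    refine ⟨h.tri.mem _ _ e3, hp, e3.ne, e2.ne', ?_, ?_⟩
    · rintro rfl
      exact hac e3.symm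
    · rintro rfl
      exact hbd e2
  obtain ⟨u, v, huv, h2⟩ := h.tri.toTriLoc.two h.adj_ab
  rcases (h2 o).1 h.oao with e | e
  · have h3 : T a b v := (h2 v).2 (Or.inr rfl)
    exact ⟨v, key v (fun e' => huv (e.symm.trans e'.symm)) h3, h3, fun q => by rw [h2 q, e]⟩
  · have h3 : T a b u := (h2 u).2 (Or.inl rfl)
    exact ⟨u, key u (fun e' => huv (e'.trans e)) h3, h3, fun q => by rw [h2 q, e, or_comm]⟩

/-- The cyclic sequences of the corners and of the inner triangles at the sides. -/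
theorem cyc (h : Apex S G T o a b c d)
    (hI : ∀ x, x ∈ I ↔ x ∈ S ∧ x ≠ o ∧ x ≠ a ∧ x ≠ b ∧ x ≠ c ∧ x ≠ d)
    (hac : ¬ G.Adj a c) (hbd : ¬ G.Adj b d) :
    ∃ p ∈ I, ∃ q ∈ I, ∃ r ∈ I, ∃ s ∈ I, T a b p ∧ T b c q ∧ T c d r ∧ T d a s := by
  have hca : ¬ G.Adj c a := fun e => hac e.symm
  have hdb : ¬ G.Adj d b := fun e => hbd e.symm
  obtain ⟨p, hp, h1, _⟩ := h.third hI hac hbd
  obtain ⟨q, hq, h2, _⟩ := h.turn.third (inn_turn hI) hbd hca
  obtain ⟨r, hr, h3, _⟩ := h.turn.turn.third (inn_turn (inn_turn hI)) hca hdb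
  obtain ⟨s, hs, h4, _⟩ := h.turn.turn.turn.third (inn_turn (inn_turn (inn_turn hI))) hdb hac
  exact ⟨p, hp, q, hq, r, hr, s, hs, h1, h2, h3, h4⟩

variable [Finite V]

/-- The degree of a corner. -/
theorem deg_corner (h : Apex S G T o a b c d)
    (hI : ∀ x, x ∈ I ↔ x ∈ S ∧ x ≠ o ∧ x ≠ a ∧ x ≠ b ∧ x ≠ c ∧ x ≠ d) (hac : ¬ G.Adj a c) :
    {y | G.Adj a y}.ncard = {y | G.Adj a y ∧ y ∈ I}.ncard + 3 := by
  have h1 : {y | G.Adj a y} = {y | G.Adj a y ∧ y ∈ I} ∪ {o, b, d} := by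
    ext y
    simp only [Set.mem_ofPred_eq, Set.mem_union, Set.mem_insert_iff, Set.mem_singleton_iff]
    constructor
    · intro hy
      by_contra hcon
      push Not at hcon
      apply hcon.1 hy
      rw [hI]
      refine ⟨h.tri.mem _ _ hy.symm, hcon.2.1, hy.ne', hcon.2.2.1, ?_, hcon.2.2.2⟩
      rintro rfl
      exact hac hy
    · rintro (hy | rfl | rfl | rfl)
      · exact hy.1
      · exact h.oa.symm
      · exact h.adj_ab
      · exact h.adj_da.symm
  have h2 : Disjoint {y | G.Adj a y ∧ y ∈ I} ({o, b, d} : Set V) := by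
    rw [Set.disjoint_left]
    rintro y ⟨_, hy⟩ hy2
    rw [hI] at hy
    simp only [Set.mem_insert_iff, Set.mem_singleton_iff] at hy2
    rcases hy2 with e | e | e
    · exact hy.2.1 e
    · exact hy.2.2.2.1 e
    · exact hy.2.2.2.2.2 e
  rw [h1, Set.ncard_union_eq h2 (Set.toFinite _) (Set.toFinite _)]
  congr 1
  exact Set.ncard_eq_three.2 ⟨o, b, d, h.ob.ne, h.od.ne, h.bd, rfl⟩

omit [Finite V] in
/-- The number of the edges between the inner vertices and the corners. -/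
theorem eout_eq (h : Apex S G T o a b c d)
    (hI : ∀ x, x ∈ I ↔ x ∈ S ∧ x ≠ o ∧ x ≠ a ∧ x ≠ b ∧ x ≠ c ∧ x ≠ d) :
    eout G I = {y | G.Adj a y ∧ y ∈ I}.ncard + {y | G.Adj b y ∧ y ∈ I}.ncard +
      {y | G.Adj c y ∧ y ∈ I}.ncard + {y | G.Adj d y ∧ y ∈ I}.ncard := by
  classical
  have ha : a ∉ I := fun e => ((hI a).1 e).2.2.1 rfl
  have hb : b ∉ I := fun e => ((hI b).1 e).2.2.2.1 rfl
  have hc : c ∉ I := fun e => ((hI c).1 e).2.2.2.2.1 rfl
  have hd : d ∉ I := fun e => ((hI d).1 e).2.2.2.2.2 rfl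
  have h1 : ∀ x ∈ I, {y | G.Adj x y ∧ y ∉ I}.ncard = ((if G.Adj a x then 1 else 0) +
      (if G.Adj b x then 1 else 0) + (if G.Adj c x then 1 else 0) +
      (if G.Adj d x then 1 else 0) : ℕ) := by
    intro x hx
    have h2 : {y | G.Adj x y ∧ y ∉ I} = {y | G.Adj x y ∧ y ∈ ({a, b, c, d} : Finset V)} := by
      ext y
      simp only [Set.mem_ofPred_eq, Finset.mem_insert, Finset.mem_singleton]
      constructor
      · rintro ⟨h3, h4⟩
        exact ⟨h3, h.outer hI hx h4 h3⟩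
      · rintro ⟨h3, rfl | rfl | rfl | rfl⟩ <;> exact ⟨h3, by assumption⟩
    rw [h2, ncard_and_mem, Finset.sum_insert (by simp [h.ab, h.ac, h.ad]),
      Finset.sum_insert (by simp [h.bc, h.bd]), Finset.sum_insert (by simp [h.cd]),
      Finset.sum_singleton]
    simp only [G.adj_comm x, add_assoc]
  unfold eout
  rw [Finset.sum_congr rfl h1, Finset.sum_add_distrib, Finset.sum_add_distrib,
    Finset.sum_add_distrib, ncard_and_mem, ncard_and_mem, ncard_and_mem, ncard_and_mem]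

/-- The sum of the charges of the inner vertices. -/
theorem sum_inn (h : Apex S G T o a b c d)
    (hI : ∀ x, x ∈ I ↔ x ∈ S ∧ x ≠ o ∧ x ≠ a ∧ x ≠ b ∧ x ≠ c ∧ x ≠ d)
    (hac : ¬ G.Adj a c) (hbd : ¬ G.Adj b d) :
    ∑ x ∈ I, (6 - ({y | G.Adj x y}.ncard : ℤ)) = eout G I - 2 := by
  classical
  have hca : ¬ G.Adj c a := fun e => hac e.symm
  have hdb : ¬ G.Adj d b := fun e => hbd e.symm
  have h1 := h.deg_corner hI hac
  have h2 := h.turn.deg_corner (inn_turn hI) hbd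
  have h3 := h.turn.turn.deg_corner (inn_turn (inn_turn hI)) hca
  have h4 := h.turn.turn.turn.deg_corner (inn_turn (inn_turn (inn_turn hI))) hdb
  have h5 : {y | G.Adj o y}.ncard = 4 := by
    obtain ⟨ν, hν, _⟩ := h.rotn
    exact hν.card
  have h6 := h.eout_eq hI
  have h7 : S = ({o, a, b, c, d} : Finset V) ∪ I := by
    ext x
    simp only [Finset.mem_union, Finset.mem_insert, Finset.mem_singleton]
    constructor
    · intro hx
      by_contra hcon
      push Not at hcon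
      apply hcon.2
      rw [hI]
      tauto
    · rintro ((rfl | rfl | rfl | rfl | rfl) | hx)
      · exact h.mem
      · exact h.tri.mem _ _ h.oa.symm
      · exact h.tri.mem _ _ h.ob.symm
      · exact h.tri.mem _ _ h.oc.symm
      · exact h.tri.mem _ _ h.od.symm
      · exact ((hI x).1 hx).1
  have h8 : Disjoint ({o, a, b, c, d} : Finset V) I := by
    rw [Finset.disjoint_right]
    intro x hx
    rw [hI] at hx
    simp only [Finset.mem_insert, Finset.mem_singleton]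
    tauto
  have h9 := h.tri.euler
  have h10 : ∑ x ∈ S, (6 - ({y | G.Adj x y}.ncard : ℤ)) = 12 := by
    rw [Finset.sum_sub_distrib, Finset.sum_const, nsmul_eq_mul]
    linarith
  rw [h7, Finset.sum_union h8,
    Finset.sum_insert (by simp [h.oa.ne, h.ob.ne, h.oc.ne, h.od.ne]),
    Finset.sum_insert (by simp [h.ab, h.ac, h.ad]), Finset.sum_insert (by simp [h.bc, h.bd]),
    Finset.sum_insert (by simp [h.cd]), Finset.sum_singleton, h1, h2, h3, h4, h5] at h10
  rw [h6]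
  push_cast at h10 ⊢
  linarith

/-- Two different inner neighbours of a corner. -/
theorem two_le {p q : V} (hp : p ∈ I) (hq : q ∈ I) (hpq : p ≠ q) (h1 : G.Adj a p)
    (h2 : G.Adj a q) : 2 ≤ {y | G.Adj a y ∧ y ∈ I}.ncard := by
  rw [← Set.ncard_pair hpq]
  apply Set.ncard_le_ncard
  · intro y hy
    simp only [Set.mem_insert_iff, Set.mem_singleton_iff] at hy
    rcases hy with rfl | rfl
    · exact ⟨h1, hp⟩
    · exact ⟨h2, hq⟩
  · exact Set.toFinite _

/-- A corner with one inner neighbour. -/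
theorem corner_one (h : Apex S G T o a b c d)
    (hI : ∀ x, x ∈ I ↔ x ∈ S ∧ x ≠ o ∧ x ≠ a ∧ x ≠ b ∧ x ≠ c ∧ x ≠ d)
    (hac : ¬ G.Adj a c) (hbd : ¬ G.Adj b d) (h1 : {y | G.Adj a y ∧ y ∈ I}.ncard ≤ 1) :
    ∃ p ∈ I, T a b p ∧ T d a p := by
  obtain ⟨p, hp, q, hq, r, hr, s, hs, h2, h3, h4, h5⟩ := h.cyc hI hac hbd
  by_cases hps : p = s
  · exact ⟨p, hp, h2, hps ▸ h5⟩
  · have h6 := two_le hp hs hps (h.tri.toTriLoc.adj2 h2).2.2.symm (h.tri.toTriLoc.adj2 h5).2.1
    omega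

/-- The inner vertices of a disc with four corners form a region. -/
theorem region (h : Apex S G T o a b c d)
    (hI : ∀ x, x ∈ I ↔ x ∈ S ∧ x ≠ o ∧ x ≠ a ∧ x ≠ b ∧ x ≠ c ∧ x ≠ d)
    (hac : ¬ G.Adj a c) (hbd : ¬ G.Adj b d) (nac : ∀ x ∈ I, G.Adj a x → ¬ G.Adj c x)
    (nbd : ∀ x ∈ I, G.Adj b x → ¬ G.Adj d x)
    (hdeg : ∀ x ∈ I, 4 ≤ {y | G.Adj x y}.ncard)
    (hthree : ∀ x ∈ I, ∀ y z, G.Adj x y → G.Adj y z → G.Adj z x → T x y z)
    (hfour : ∀ x ∈ I, ∀ y z w, x ≠ z → y ≠ w → G.Adj x y → G.Adj y z → G.Adj z w → G.Adj w x →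
      G.Adj x z ∨ G.Adj y w ∨ ∃ m ∈ I, ∀ v, G.Adj m v ↔ v = x ∨ v = y ∨ v = z ∨ v = w) :
    Region S G T I := by
  obtain ⟨p, hp, q, hq, r, hr, s, hs, h1, h2, h3, h4⟩ := h.cyc hI hac hbd
  obtain ⟨_, bp, pa⟩ := h.tri.toTriLoc.adj2 h1
  obtain ⟨_, cq, qb⟩ := h.tri.toTriLoc.adj2 h2
  obtain ⟨_, dr, rc⟩ := h.tri.toTriLoc.adj2 h3
  obtain ⟨_, as, sd⟩ := h.tri.toTriLoc.adj2 h4
  have hpq : p ≠ q := by
    rintro rfl
    exact nac p hp pa.symm cq
  have hpr : p ≠ r := by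
    rintro rfl
    exact nac p hp pa.symm rc.symm
  have hps : p ≠ s := by
    rintro rfl
    exact nbd p hp bp sd.symm
  have hqr : q ≠ r := by
    rintro rfl
    exact nbd q hq qb.symm dr
  have hqs : q ≠ s := by
    rintro rfl
    exact nbd q hq qb.symm sd.symm
  have hrs : r ≠ s := by
    rintro rfl
    exact nac r hr as rc.symm
  refine ⟨fun x hx => ((hI x).1 hx).1, hdeg, hthree, hfour, ?_, Or.inr ⟨four a b c d,
    four p q r s, four_add a b c d, four_add p q r s, ?_,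
    four_all (P := fun x => x ∈ I) hp hq hr hs,
    four_inj h.ab h.ac h.ad h.bc h.bd h.cd, four_inj hpq hpr hps hqr hqs hrs,
    four_rel h1 h2 h3 h4, ?_, ?_, h.sum_inn hI hac hbd⟩⟩
  · intro k hk u v hu hv huv h5 h6
    have n1 := nac k hk
    have n2 := nbd k hk
    rcases h.outer hI hk hu h5 with rfl | rfl | rfl | rfl <;>
      rcases h.outer hI hk hv h6 with rfl | rfl | rfl | rfl
    · exact absurd rfl huv
    · exact h.adj_ab
    · exact absurd h6.symm (n1 h5.symm)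
    · exact h.adj_da.symm
    · exact h.adj_ab.symm
    · exact absurd rfl huv
    · exact h.adj_bc
    · exact absurd h6.symm (n2 h5.symm)
    · exact absurd h5.symm (n1 h6.symm)
    · exact h.adj_bc.symm
    · exact absurd rfl huv
    · exact h.adj_cd
    · exact h.adj_da
    · exact absurd h5.symm (n2 h6.symm)
    · exact h.adj_cd.symm
    · exact absurd rfl huv
  · refine four_all (P := fun x => x ∉ I) ?_ ?_ ?_ ?_
    · exact fun e => ((hI a).1 e).2.2.1 rfl
    · exact fun e => ((hI b).1 e).2.2.2.1 rfl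
    · exact fun e => ((hI c).1 e).2.2.2.2.1 rfl
    · exact fun e => ((hI d).1 e).2.2.2.2.2 rfl
  · intro x hx y hy hxy
    exact four_mem (h.outer hI hx hy hxy)
  · rw [h.eout_eq hI]
    have k1 := two_le hp hs hps pa.symm as
    have k2 := two_le hp hq hpq bp qb.symm
    have k3 := two_le hq hr hqr cq rc.symm
    have k4 := two_le hr hs hrs dr sd.symm
    omega

end Apex

end Pool.Agent.W986
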