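import Pool.Agent.W986.SubTri

/-!
# Contraction of an edge in a triangulated surface

If the ends of the edge `xy` have only the two obvious common neighbours, the contraction of `xy`
is a triangulation of the same surface again.
-/

set_option autoImplicit false

open Finset

namespace Pool.Agent.W986

open Pool.Agent.DC76

section basic

variable {V : Type} {G : SimpleGraph V} {T : V → V → V → Prop} {S : Finset V}

theorem TriLoc.flip (h : TriLoc S G T) {x y z : V} (hT : T x y z) : T x z y :=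
  h.rot _ _ _ (h.swap _ _ _ hT)

theorem TriLoc.adj2 (h : TriLoc S G T) {x y z : V} (hT : T x y z) :
    G.Adj x y ∧ G.Adj y z ∧ G.Adj z x :=
  ⟨h.adj _ _ _ hT, h.adj _ _ _ (h.rot _ _ _ hT), h.adj _ _ _ (h.rot _ _ _ (h.rot _ _ _ hT))⟩

/-- An index before the index of `y`. -/
theorem Rotn.exists_pred {x y : V} {d : ℕ} {ν : ℕ → V} (h : Rotn G T x d ν) (hy : G.Adj x y) :
    ∃ i, ν (i + 1) = y := by
  obtain ⟨m, h1, _, h3⟩ := h.window 1 hy
  exact ⟨m - 1, by rw [Nat.sub_add_cancel h1]; exact h3⟩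

theorem Rotn.ne_two {x : V} {d : ℕ} {ν : ℕ → V} (h : Rotn G T x d ν) (i : ℕ) :
    ν i ≠ ν (i + 2) := by
  intro h1
  have hd := h.three
  have h2 : ∀ j, ν j = ν (j % d) := fun j => h.modEq (Nat.mod_modEq j d).symm
  have h3 := h.inj _ (Nat.mod_lt i (by omega)) _ (Nat.mod_lt (i + 2) (by omega))
    (by rw [← h2, ← h2]; exact h1)
  have h9 : i % d < d := Nat.mod_lt _ (by omega)
  rw [Nat.add_mod, show 2 % d = 2 from Nat.mod_eq_of_lt (by omega)] at h3
  generalize i % d = m at h3 h9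
  by_cases h10 : m + 2 < d
  · rw [Nat.mod_eq_of_lt h10] at h3
    omega
  · rw [Nat.mod_eq_sub_mod (by omega), Nat.mod_eq_of_lt (by omega)] at h3
    omega

/-- Exactly two triangles at an edge. -/
theorem TriLoc.two (h : TriLoc S G T) {x y : V} (hxy : G.Adj x y) :
    ∃ a b, a ≠ b ∧ ∀ z, T x y z ↔ z = a ∨ z = b := by
  obtain ⟨d, ν, hν⟩ := h.rotation x (h.mem _ _ hxy)
  obtain ⟨i, hi⟩ := hν.exists_pred hxy
  exact ⟨ν i, ν (i + 2), hν.ne_two i, fun z => by rw [← hi]; exact hν.tri i z⟩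

theorem TriLoc.two_pair (h : TriLoc S G T) {x y a b z : V} (ha : T x y a) (hb : T x y b)
    (hab : a ≠ b) (hz : T x y z) : z = a ∨ z = b := by
  obtain ⟨p, q, _, h2⟩ := h.two (h.adj _ _ _ ha)
  rw [h2] at ha hb hz
  grind

theorem exists_flip_index {P : ℕ → Prop} {m n : ℕ} (hmn : m ≤ n) (hm : P m) (hn : ¬ P n) :
    ∃ i, m ≤ i ∧ i < n ∧ P i ∧ ¬ P (i + 1) := by
  induction n, hmn using Nat.le_induction with
  | base => exact absurd hm hn
  | succ n hmn ih =>
    by_cases h : P n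
    · exact ⟨n, hmn, by omega, h, hn⟩
    · obtain ⟨i, h1, h2, h3⟩ := ih h
      exact ⟨i, h1, by omega, h3⟩

/-- The neighbours of `x` different from `y` form a path. -/
theorem TriLoc.fan (h : TriLoc S G T) {x : V} (y : V) (N : Set V) {p q : V} (hp : G.Adj x p)
    (hpN : p ∈ N) (hpy : p ≠ y) (hq : G.Adj x q) (hqN : q ∉ N) (hqy : q ≠ y) :
    ∃ a b, a ∈ N ∧ b ∉ N ∧ a ≠ y ∧ b ≠ y ∧ T x a b := by
  obtain ⟨d, ν, hν⟩ := h.rotation x (h.mem _ _ hp)
  have hd := hν.three
  -- an interval of indices without `y`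
  obtain ⟨j, n, hj, m1, m2, hm1, hm2, hm1', hm2', e1, e2⟩ : ∃ j n, (∀ m, j ≤ m → m < n → ν m ≠ y) ∧
      ∃ m1 m2, j ≤ m1 ∧ j ≤ m2 ∧ m1 < n ∧ m2 < n ∧ ν m1 = p ∧ ν m2 = q := by
    by_cases hy : G.Adj x y
    · obtain ⟨i, hi, hi'⟩ := (hν.adj y).1 hy
      obtain ⟨m1, h1, h2, h3⟩ := hν.window (i + 1) hp
      obtain ⟨m2, h4, h5, h6⟩ := hν.window (i + 1) hq
      have hlast : ν (i + d) = y := by rw [hν.per]; exact hi'
      have key : ∀ m, i + 1 ≤ m → m < i + d → ν m ≠ y := by
        intro m hm1 hm2 hm3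
        rw [← hi'] at hm3
        by_cases hmd : m < d
        · have := hν.inj m hmd i hi hm3
          omega
        · have e : ν m = ν (m - d) := by
            conv_lhs => rw [show m = m - d + d by omega, hν.per]
          rw [e] at hm3
          have := hν.inj (m - d) (by omega) i hi hm3
          omega
      refine ⟨i + 1, i + d, key, m1, m2, h1, h4, ?_, ?_, h3, h6⟩
      · by_contra hcon
        have : m1 = i + d := by omega
        rw [this, hlast] at h3
        exact hpy h3.symm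
      · by_contra hcon
        have : m2 = i + d := by omega
        rw [this, hlast] at h6
        exact hqy h6.symm
    · obtain ⟨m1, h1, h2, h3⟩ := hν.window 0 hp
      obtain ⟨m2, h4, h5, h6⟩ := hν.window 0 hq
      refine ⟨0, 0 + d, fun m _ _ hm => hy (hm ▸ hν.adj_nu m), m1, m2, h1, h4, h2, h5, h3, h6⟩
  rcases le_total m1 m2 with h12 | h12
  · obtain ⟨i, h1, h2, h3, h4⟩ := exists_flip_index (P := fun m => ν m ∈ N) h12
      (by rw [e1]; exact hpN) (by rw [e2]; exact hqN)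
    exact ⟨ν i, ν (i + 1), h3, h4, hj _ (by omega) (by omega), hj _ (by omega) (by omega),
      hν.tri_next i⟩
  · obtain ⟨i, h1, h2, h3, h4⟩ := exists_flip_index (P := fun m => ν m ∉ N) h12
      (by rw [e2]; exact hqN) (by rw [e1]; exact fun h => h hpN)
    exact ⟨ν (i + 1), ν i, not_not.1 h4, h3, hj _ (by omega) (by omega), hj _ (by omega) (by omega),
      h.flip (hν.tri_next i)⟩

theorem TriLoc.split (h : TriLoc S G T) {x : V} (N : Set V) {p q : V} (hp : G.Adj x p)
    (hpN : p ∈ N) (hq : G.Adj x q) (hqN : q ∉ N) : ∃ a b, a ∈ N ∧ b ∉ N ∧ T x a b := by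
  obtain ⟨a, b, h1, h2, _, _, h3⟩ := h.fan x N hp hpN hp.ne' hq hqN hq.ne'
  exact ⟨a, b, h1, h2, h3⟩

/-- A vertex with three neighbours. -/
theorem TriLoc.three_of (h : TriLoc S G T) {v p q s : V} (h1 : T v p q) (h2 : T v q s)
    (h3 : T v s p) (hpq : p ≠ q) (hqs : q ≠ s) (hsp : s ≠ p) {z : V} (hz : G.Adj v z) :
    z = p ∨ z = q ∨ z = s := by
  by_contra hcon
  push Not at hcon
  obtain ⟨a, b, ha, hb, hT⟩ := h.split ({p, q, s} : Set V) (h.adj _ _ _ h1) (by simp) hz
    (by simp [hcon.1, hcon.2.1, hcon.2.2])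
  simp only [Set.mem_insert_iff, Set.mem_singleton_iff, not_or] at ha hb
  rcases ha with rfl | rfl | rfl
  · rcases h.two_pair h1 (h.flip h3) hqs hT with h4 | h4
    · exact hb.2.1 h4
    · exact hb.2.2 h4
  · rcases h.two_pair (h.flip h1) h2 hsp.symm hT with h4 | h4
    · exact hb.1 h4
    · exact hb.2.2 h4
  · rcases h.two_pair (h.flip h2) h3 hpq.symm hT with h4 | h4
    · exact hb.2.1 h4
    · exact hb.1 h4

/-- There are no four vertices with four triangles. -/
theorem TriLoc.no_four (h : TriLoc S G T) (hS : 5 ≤ S.card) {x y a b : V} (h1 : T x y a)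
    (h2 : T x y b) (h3 : T x a b) (h4 : T y a b) : False := by
  classical
  obtain ⟨e1, e2, e3⟩ := h.adj2 h1
  obtain ⟨_, e5, e6⟩ := h.adj2 h2
  obtain ⟨_, e8, _⟩ := h.adj2 h3
  have hcl : ∀ u ∈ ({x, y, a, b} : Finset V), ∀ v, G.Adj u v → v ∈ ({x, y, a, b} : Finset V) := by
    intro u hu v huv
    have nxy := e1.ne
    have nya := e2.ne
    have nax := e3.ne
    have nyb := e5.ne
    have nbx := e6.ne
    have nab := e8.ne
    have k1 := h.swap _ _ _ h1
    have k2 := h.swap _ _ _ h2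
    have k3 := h.rot _ _ _ (h.rot _ _ _ h1)
    have k4 := h.rot _ _ _ (h.rot _ _ _ h2)
    have k5 := h.swap _ _ _ h3
    have k6 := h.swap _ _ _ h4
    have k7 := h.rot _ _ _ (h.rot _ _ _ h3)
    have k8 := h.rot _ _ _ (h.rot _ _ _ h4)
    simp only [mem_insert, mem_singleton] at hu ⊢
    rcases hu with rfl | rfl | rfl | rfl
    · have := h.three_of h1 h3 (h.flip h2) nya nab nyb.symm huv
      tauto
    · have := h.three_of k1 h4 (h.flip k2) nax.symm nab nbx huv
      tauto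
    · have := h.three_of k3 k6 (h.flip k5) nxy nyb nbx huv
      tauto
    · have := h.three_of k4 k8 (h.flip k7) nxy nya nax huv
      tauto
  have hall : S ⊆ {x, y, a, b} := by
    intro v hv
    obtain ⟨p⟩ := h.conn x (h.mem _ _ e1) v hv
    have key : ∀ u w : V, G.Walk u w → u ∈ ({x, y, a, b} : Finset V) →
        w ∈ ({x, y, a, b} : Finset V) := by
      intro u w p
      induction p with
      | nil => exact id
      | cons hadj _ ih => exact fun hu => ih (hcl _ hu _ hadj)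
    exact key _ _ p (by simp)
  have := card_le_card hall
  have := card_le_four (a := x) (b := y) (c := a) (d := b)
  omega

end basic

section ctr

variable {V : Type}

/-- The quotient of a graph by a map. -/
def quot (G : SimpleGraph V) (ρ : V → V) : SimpleGraph V where
  Adj u v := u ≠ v ∧ ∃ a b, ρ a = u ∧ ρ b = v ∧ G.Adj a b
  symm := ⟨fun _ _ ⟨h1, a, b, h2, h3, h4⟩ => ⟨h1.symm, b, a, h3, h2, h4.symm⟩⟩
  loopless := ⟨fun _ h => h.1 rfl⟩

/-- The triangles of the quotient. -/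
def quotT (T : V → V → V → Prop) (ρ : V → V) (u v w : V) : Prop :=
  u ≠ v ∧ v ≠ w ∧ w ≠ u ∧ ∃ a b c, ρ a = u ∧ ρ b = v ∧ ρ c = w ∧ T a b c

/-- The map which moves `y` to `x`. -/
def mv [DecidableEq V] (x y : V) (a : V) : V := if a = y then x else a

variable [DecidableEq V] {G : SimpleGraph V} {T : V → V → V → Prop} {S : Finset V}
  {x y : V}

omit [DecidableEq V] in
theorem quot_adj {ρ : V → V} {u v : V} :
    (quot G ρ).Adj u v ↔ u ≠ v ∧ ∃ a b, ρ a = u ∧ ρ b = v ∧ G.Adj a b := Iff.rfl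

theorem mv_self : mv x y y = x := if_pos rfl

theorem mv_ne {a : V} (h : a ≠ y) : mv x y a = a := if_neg h

theorem mv_fix : mv x y x = x := by
  unfold mv
  split_ifs with h
  · rfl
  · rfl

theorem mv_ne_y (hxy : x ≠ y) (a : V) : mv x y a ≠ y := by
  unfold mv
  split_ifs with h
  · exact hxy
  · exact h

theorem eq_of_mv {a u : V} (h : mv x y a = u) (hu : u ≠ x) : a = u := by
  unfold mv at h
  split_ifs at h with h1
  · exact absurd h.symm hu
  · exact h

theorem mv_eq_x {a : V} (h : mv x y a = x) : a = x ∨ a = y := by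
  unfold mv at h
  split_ifs at h with h1
  · exact Or.inr h1
  · exact Or.inl h

theorem cadj_x {v : V} (hxy : x ≠ y) :
    (quot G (mv x y)).Adj x v ↔ v ≠ x ∧ v ≠ y ∧ (G.Adj x v ∨ G.Adj y v) := by
  constructor
  · rintro ⟨h1, a, b, h2, h3, h4⟩
    have hb := eq_of_mv h3 h1.symm
    subst hb
    refine ⟨h1.symm, fun h => mv_ne_y hxy b (h3.trans h), ?_⟩
    rcases mv_eq_x h2 with rfl | rfl
    · exact Or.inl h4
    · exact Or.inr h4
  · rintro ⟨h1, h2, h3 | h3⟩
    · exact ⟨h1.symm, x, v, mv_fix, mv_ne h2, h3⟩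
    · exact ⟨h1.symm, y, v, mv_self, mv_ne h2, h3⟩

theorem cadj_ne {u v : V} (hu : u ≠ x) (huy : u ≠ y) :
    (quot G (mv x y)).Adj u v ↔ u ≠ v ∧ ∃ b, mv x y b = v ∧ G.Adj u b := by
  constructor
  · rintro ⟨h1, a, b, h2, h3, h4⟩
    have ha := eq_of_mv h2 hu
    subst ha
    exact ⟨h1, b, h3, h4⟩
  · rintro ⟨h1, b, h2, h3⟩
    exact ⟨h1, u, b, mv_ne huy, h2, h3⟩

theorem ct_ne {u v w : V} (hu : u ≠ x) (huy : u ≠ y) :
    quotT T (mv x y) u v w ↔ u ≠ v ∧ v ≠ w ∧ w ≠ u ∧ ∃ b c, mv x y b = v ∧ mv x y c = w ∧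
      T u b c := by
  constructor
  · rintro ⟨h1, h2, h3, a, b, c, ha, hb, hc, hT⟩
    have ha' := eq_of_mv ha hu
    subst ha'
    exact ⟨h1, h2, h3, b, c, hb, hc, hT⟩
  · rintro ⟨h1, h2, h3, b, c, hb, hc, hT⟩
    exact ⟨h1, h2, h3, u, b, c, mv_ne huy, hb, hc, hT⟩

omit [DecidableEq V] in
theorem TriLoc.quot_rot (h : TriLoc S G T) (ρ : V → V) (u v w : V) (hT : quotT T ρ u v w) :
    quotT T ρ v w u := by
  obtain ⟨h1, h2, h3, a, b, c, ha, hb, hc, hT⟩ := hT
  exact ⟨h2, h3, h1, b, c, a, hb, hc, ha, h.rot _ _ _ hT⟩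

omit [DecidableEq V] in
theorem TriLoc.quot_swap (h : TriLoc S G T) (ρ : V → V) (u v w : V) (hT : quotT T ρ u v w) :
    quotT T ρ v u w := by
  obtain ⟨h1, h2, h3, a, b, c, ha, hb, hc, hT⟩ := hT
  exact ⟨h1.symm, h3.symm, h2.symm, b, a, c, hb, ha, hc, h.swap _ _ _ hT⟩

/-- Exactly two triangles at an edge of the contracted graph. -/
theorem TriLoc.ctr_two_ne (h : TriLoc S G T) (hS : 5 ≤ S.card) (hxy : G.Adj x y)
    (h2 : ∀ z, G.Adj x z → G.Adj y z → T x y z) {u v : V} (hu : u ≠ x)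
    (huv : (quot G (mv x y)).Adj u v) :
    ∃ a b, a ≠ b ∧ ∀ z, quotT T (mv x y) u v z ↔ z = a ∨ z = b := by
  have huy : u ≠ y := by
    rintro rfl
    obtain ⟨_, a, b, h3, _⟩ := huv
    exact mv_ne_y hxy.ne a h3
  by_cases hv : v = x
  · subst hv
    -- the edge from `u` to the new vertex
    have hct : ∀ w, quotT T (mv v y) u v w ↔ w ≠ v ∧ w ≠ y ∧ (T u v w ∨ T u y w) := by
      intro w
      rw [ct_ne hu huy]
      constructor
      · rintro ⟨_, h4, h5, b, c, hb, hc, hT⟩
        have hc' := eq_of_mv hc h4.symm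
        subst hc'
        refine ⟨h4.symm, fun h => mv_ne_y hxy.ne c (hc.trans h), ?_⟩
        rcases mv_eq_x hb with rfl | rfl
        · exact Or.inl hT
        · exact Or.inr hT
      · rintro ⟨h4, h5, h6 | h6⟩
        · exact ⟨hu, h4.symm, (h.adj2 h6).2.2.ne, v, w, mv_fix, mv_ne h5, h6⟩
        · exact ⟨hu, h4.symm, (h.adj2 h6).2.2.ne, y, w, mv_self, mv_ne h5, h6⟩
    have hadj := (cadj_x hxy.ne).1 huv.symm
    by_cases hxu : G.Adj v u
    · by_cases hyu : G.Adj y u
      · have hT := h2 u hxu hyu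
        have t1 : T u v y := h.rot _ _ _ (h.rot _ _ _ hT)
        have t2 : T u y v := h.flip t1
        obtain ⟨a1, b1, hab1, k1⟩ := h.two hxu.symm
        obtain ⟨a2, b2, hab2, k2⟩ := h.two hyu.symm
        obtain ⟨p, hp, hpy, hp'⟩ : ∃ p, T u v p ∧ p ≠ y ∧ ∀ z, T u v z → z = p ∨ z = y := by
          have k3 := (k1 y).1 t1
          rcases k3 with rfl | rfl
          · exact ⟨b1, (k1 _).2 (Or.inr rfl), hab1.symm, fun z hz => by
              have := (k1 z).1 hz; tauto⟩
          · exact ⟨a1, (k1 _).2 (Or.inl rfl), hab1, fun z hz => (k1 z).1 hz⟩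
        obtain ⟨q, hq, hqy, hq'⟩ : ∃ q, T u y q ∧ q ≠ v ∧ ∀ z, T u y z → z = q ∨ z = v := by
          have k3 := (k2 v).1 t2
          rcases k3 with rfl | rfl
          · exact ⟨b2, (k2 _).2 (Or.inr rfl), hab2.symm, fun z hz => by
              have := (k2 z).1 hz; tauto⟩
          · exact ⟨a2, (k2 _).2 (Or.inl rfl), hab2, fun z hz => (k2 z).1 hz⟩
        refine ⟨p, q, ?_, fun w => ?_⟩
        · rintro rfl
          have e1 := h.adj2 hp
          have e2 := h.adj2 hq
          exact h.no_four hS (h.flip (h.flip hT)) (h2 p e1.2.1 e2.2.1) (h.swap _ _ _ hp)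
            (h.swap _ _ _ hq)
        · rw [hct]
          constructor
          · rintro ⟨h4, h5, h6 | h6⟩
            · rcases hp' w h6 with h7 | h7
              · exact Or.inl h7
              · exact absurd h7 h5
            · rcases hq' w h6 with h7 | h7
              · exact Or.inr h7
              · exact absurd h7 h4
          · rintro (rfl | rfl)
            · exact ⟨(h.adj2 hp).2.1.ne', hpy, Or.inl hp⟩
            · exact ⟨hqy, (h.adj2 hq).2.1.ne', Or.inr hq⟩
      · obtain ⟨a1, b1, hab1, k1⟩ := h.two hxu.symm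
        refine ⟨a1, b1, hab1, fun w => ?_⟩
        rw [hct, ← k1]
        constructor
        · rintro ⟨_, _, h6 | h6⟩
          · exact h6
          · exact absurd (h.adj _ _ _ h6).symm hyu
        · intro h6
          refine ⟨(h.adj2 h6).2.1.ne', ?_, Or.inl h6⟩
          rintro rfl
          exact hyu (h.adj2 h6).2.2
    · have hyu : G.Adj y u := by
        rcases hadj.2.2 with h7 | h7
        · exact absurd h7 hxu
        · exact h7
      obtain ⟨a1, b1, hab1, k1⟩ := h.two hyu.symm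
      refine ⟨a1, b1, hab1, fun w => ?_⟩
      rw [hct, ← k1]
      constructor
      · rintro ⟨_, _, h6 | h6⟩
        · exact absurd (h.adj _ _ _ h6).symm hxu
        · exact h6
      · intro h6
        refine ⟨?_, (h.adj2 h6).2.1.ne', Or.inr h6⟩
        rintro rfl
        exact hxu (h.adj2 h6).2.2
  · -- an edge not at the new vertex
    obtain ⟨huv', b, hb, hub⟩ := (cadj_ne hu huy).1 huv
    have hb' := eq_of_mv hb hv
    subst hb'
    have hby : b ≠ y := by
      rintro rfl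
      exact mv_ne_y hxy.ne _ hb
    obtain ⟨a1, b1, hab1, k1⟩ := h.two hub
    refine ⟨mv x y a1, mv x y b1, ?_, fun w => ?_⟩
    · intro he
      have hsub : (a1 = x ∧ b1 = y) ∨ (a1 = y ∧ b1 = x) := by
        unfold mv at he
        split_ifs at he with h3 h4 h4
        · exact absurd (h3.trans h4.symm) hab1
        · exact Or.inr ⟨h3, he.symm⟩
        · exact Or.inl ⟨he, h4⟩
        · exact absurd he hab1
      have t1 : T u b x := (k1 x).2 (by rcases hsub with h3 | h3 <;> simp [h3.1, h3.2])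
      have t2 : T u b y := (k1 y).2 (by rcases hsub with h3 | h3 <;> simp [h3.1, h3.2])
      have e1 := h.adj2 t1
      have e2 := h.adj2 t2
      exact h.no_four hS (h2 u e1.2.2 e2.2.2) (h2 b e1.2.1.symm e2.2.1.symm)
        (h.rot _ _ _ (h.rot _ _ _ t1)) (h.rot _ _ _ (h.rot _ _ _ t2))
    · rw [ct_ne hu huy]
      constructor
      · rintro ⟨_, _, _, b', c, hb', hc, hT⟩
        have := eq_of_mv hb' hv
        subst this
        rcases (k1 c).1 hT with rfl | rfl
        · exact Or.inl hc.symm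
        · exact Or.inr hc.symm
      · have key : ∀ c, T u b c → u ≠ b ∧ b ≠ mv x y c ∧ mv x y c ≠ u ∧
            ∃ b' c', mv x y b' = b ∧ mv x y c' = mv x y c ∧ T u b' c' := by
          intro c hc
          have e := h.adj2 hc
          refine ⟨huv', ?_, ?_, b, c, mv_ne hby, rfl, hc⟩
          · intro h3
            have := eq_of_mv h3.symm hv
            exact e.2.1.ne this.symm
          · intro h3
            have := eq_of_mv h3 hu
            exact e.2.2.ne this
        rintro (rfl | rfl)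
        · exact key _ ((k1 _).2 (Or.inl rfl))
        · exact key _ ((k1 _).2 (Or.inr rfl))

/-- The neighbours in the contracted graph are split by a triangle. -/
theorem TriLoc.ctr_split (h : TriLoc S G T) (hxy : G.Adj x y)
    (h2 : ∀ z, G.Adj x z → G.Adj y z → T x y z) {u : V} (huy : u ≠ y) (N : Set V) {p q : V}
    (hp : (quot G (mv x y)).Adj u p) (hpN : p ∈ N) (hq : (quot G (mv x y)).Adj u q)
    (hqN : q ∉ N) : ∃ a b, a ∈ N ∧ b ∉ N ∧ quotT T (mv x y) u a b := by
  by_cases hu : u = x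
  · subst hu
    rw [cadj_x hxy.ne] at hp hq
    obtain ⟨a0, b0, hab0, k0⟩ := h.two hxy
    have t0 := (k0 a0).2 (Or.inl rfl)
    have e0 := h.adj2 t0
    have fx : ∀ p q, p ≠ u → p ≠ y → q ≠ u → q ≠ y → p ∈ N → q ∉ N → G.Adj u p → G.Adj u q →
        ∃ a b, a ∈ N ∧ b ∉ N ∧ quotT T (mv u y) u a b := by
      intro p q _ h4 _ h6 h7 h8 h9 h10
      obtain ⟨a, b, h11, h12, h13, h14, h15⟩ := h.fan y N h9 h7 h4 h10 h8 h6
      have e := h.adj2 h15
      exact ⟨a, b, h11, h12, e.1.ne, e.2.1.ne, e.2.2.ne, u, a, b, mv_fix, mv_ne h13, mv_ne h14, h15⟩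
    have fy : ∀ p q, p ≠ u → p ≠ y → q ≠ u → q ≠ y → p ∈ N → q ∉ N → G.Adj y p → G.Adj y q →
        ∃ a b, a ∈ N ∧ b ∉ N ∧ quotT T (mv u y) u a b := by
      intro p q h3 h4 h5 h6 h7 h8 h9 h10
      obtain ⟨a, b, h11, h12, h13, h14, h15⟩ := h.fan u N h9 h7 h3 h10 h8 h5
      have e := h.adj2 h15
      exact ⟨a, b, h11, h12, h13.symm, e.2.1.ne, h14, y, a, b, mv_self, mv_ne e.1.ne',
        mv_ne e.2.2.ne, h15⟩
    have ha0u : a0 ≠ u := e0.2.2.ne
    have ha0y : a0 ≠ y := e0.2.1.ne'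
    obtain ⟨hp1, hp2, hp3⟩ := hp
    obtain ⟨hq1, hq2, hq3⟩ := hq
    rcases hp3 with hp3 | hp3
    · rcases hq3 with hq3 | hq3
      · exact fx p q hp1 hp2 hq1 hq2 hpN hqN hp3 hq3
      · by_cases ha : a0 ∈ N
        · exact fy a0 q ha0u ha0y hq1 hq2 ha hqN e0.2.1 hq3
        · exact fx p a0 hp1 hp2 ha0u ha0y hpN ha hp3 e0.2.2.symm
    · rcases hq3 with hq3 | hq3
      · by_cases ha : a0 ∈ N
        · exact fx a0 q ha0u ha0y hq1 hq2 ha hqN e0.2.2.symm hq3
        · exact fy p a0 hp1 hp2 ha0u ha0y hpN ha hp3 e0.2.1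
      · exact fy p q hp1 hp2 hq1 hq2 hpN hqN hp3 hq3
  · obtain ⟨_, b, hb, hub⟩ := (cadj_ne hu huy).1 hp
    obtain ⟨_, c, hc, huc⟩ := (cadj_ne hu huy).1 hq
    obtain ⟨a1, b1, ha1, hb1, hT⟩ := h.split {z | mv x y z ∈ N} hub (by
      change mv x y b ∈ N
      rw [hb]
      exact hpN) huc (by
      change mv x y c ∉ N
      rw [hc]
      exact hqN)
    have e := h.adj2 hT
    refine ⟨mv x y a1, mv x y b1, ha1, hb1, (ct_ne hu huy).2 ⟨?_, ?_, ?_, a1, b1, rfl, rfl, hT⟩⟩
    · intro h3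
      exact e.1.ne (eq_of_mv h3.symm hu).symm
    · intro h3
      apply hb1
      change mv x y b1 ∈ N
      rw [← h3]
      exact ha1
    · intro h3
      exact e.2.2.ne (eq_of_mv h3 hu)

theorem ctr_reach (u v : V) (h : G.Reachable u v) :
    (quot G (mv x y)).Reachable (mv x y u) (mv x y v) := by
  obtain ⟨p⟩ := h
  induction p with
  | nil => exact SimpleGraph.Reachable.refl _
  | @cons a b c hadj _ ih =>
    by_cases h1 : mv x y a = mv x y b
    · rw [h1]
      exact ih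
    · have h2 : (quot G (mv x y)).Adj (mv x y a) (mv x y b) := ⟨h1, a, b, rfl, rfl, hadj⟩
      exact h2.reachable.trans ih

/-- The degrees in the contracted graph. -/
theorem ctr_deg [Finite V] (hxy : x ≠ y) {u : V} (hu : u ≠ x) (huy : u ≠ y) [Decidable (G.Adj x u ∧ G.Adj y u)] :
    {v | (quot G (mv x y)).Adj u v}.ncard + (if G.Adj x u ∧ G.Adj y u then 1 else 0) =
      {v | G.Adj u v}.ncard := by
  have h1 : {v | (quot G (mv x y)).Adj u v} = mv x y '' {v | G.Adj u v} := by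
    ext v
    rw [Set.mem_ofPred_eq, cadj_ne hu huy, Set.mem_image]
    constructor
    · rintro ⟨_, b, hb, hub⟩
      exact ⟨b, hub, hb⟩
    · rintro ⟨b, hub, hb⟩
      refine ⟨?_, b, hb, hub⟩
      rintro rfl
      exact SimpleGraph.Adj.ne hub (eq_of_mv hb hu).symm
  rw [h1]
  split_ifs with h3
  · have h4 : mv x y '' {v | G.Adj u v} = {v | G.Adj u v} \ {y} := by
      ext v
      rw [Set.mem_image, Set.mem_diff, Set.mem_singleton_iff]
      constructor
      · rintro ⟨b, hub, hb⟩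
        by_cases hby : b = y
        · rw [hby, mv_self] at hb
          rw [← hb]
          exact ⟨h3.1.symm, hxy⟩
        · rw [mv_ne hby] at hb
          rw [← hb]
          exact ⟨hub, hby⟩
      · rintro ⟨h5, h6⟩
        exact ⟨v, h5, mv_ne h6⟩
    rw [h4, Set.ncard_diff_singleton_add_one (show y ∈ {v | G.Adj u v} from h3.2.symm)
      (Set.toFinite _)]
  · rw [add_zero]
    refine Set.ncard_image_of_injOn ?_
    intro a ha b hb hab
    by_contra hne
    apply h3
    unfold mv at hab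
    split_ifs at hab with h4 h5 h5
    · exact absurd (h4.trans h5.symm) hne
    · rw [h4] at ha
      rw [← hab] at hb
      exact ⟨SimpleGraph.Adj.symm hb, SimpleGraph.Adj.symm ha⟩
    · rw [h5] at hb
      rw [hab] at ha
      exact ⟨SimpleGraph.Adj.symm ha, SimpleGraph.Adj.symm hb⟩
    · exact absurd hab hne

theorem TriLoc.ctr_deg_x [Finite V] (h : TriLoc S G T) (hxy : G.Adj x y)
    (h2 : ∀ z, G.Adj x z → G.Adj y z → T x y z) :
    {v | (quot G (mv x y)).Adj x v}.ncard + 4 = {v | G.Adj x v}.ncard + {v | G.Adj y v}.ncard := by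
  obtain ⟨a, b, hab, k⟩ := h.two hxy
  have hunion : ({v | G.Adj x v} ∪ {v | G.Adj y v}) =
      insert x (insert y {v | (quot G (mv x y)).Adj x v}) := by
    ext v
    rw [Set.mem_insert_iff, Set.mem_insert_iff, Set.mem_union, Set.mem_ofPred_eq, Set.mem_ofPred_eq,
      Set.mem_ofPred_eq, cadj_x hxy.ne]
    constructor
    · intro h3
      by_cases h4 : v = x
      · exact Or.inl h4
      · by_cases h5 : v = y
        · exact Or.inr (Or.inl h5)
        · exact Or.inr (Or.inr ⟨h4, h5, h3⟩)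
    · rintro (rfl | rfl | ⟨_, _, h3⟩)
      · exact Or.inr hxy.symm
      · exact Or.inl hxy
      · exact h3
  have hinter : ({v | G.Adj x v} ∩ {v | G.Adj y v}) = {a, b} := by
    ext v
    rw [Set.mem_inter_iff, Set.mem_ofPred_eq, Set.mem_ofPred_eq, Set.mem_insert_iff,
      Set.mem_singleton_iff, ← k]
    constructor
    · rintro ⟨h3, h4⟩
      exact h2 v h3 h4
    · intro h3
      have e := h.adj2 h3
      exact ⟨e.2.2.symm, e.2.1⟩
  have h3 := Set.ncard_union_add_ncard_inter {v | G.Adj x v} {v | G.Adj y v} (Set.toFinite _)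
    (Set.toFinite _)
  have i1 : y ∉ {v | (quot G (mv x y)).Adj x v} := by
    rw [Set.mem_ofPred_eq, cadj_x hxy.ne]
    exact fun h4 => h4.2.1 rfl
  have i2 : x ∉ insert y {v | (quot G (mv x y)).Adj x v} := by
    rw [Set.mem_insert_iff, Set.mem_ofPred_eq, cadj_x hxy.ne]
    rintro (h4 | h4)
    · exact hxy.ne h4
    · exact h4.1 rfl
  rw [hunion, hinter, Set.ncard_pair hab, Set.ncard_insert_of_notMem i2 (Set.toFinite _),
    Set.ncard_insert_of_notMem i1 (Set.toFinite _)] at h3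
  omega

/-- Contraction of an edge: the local conditions. -/
theorem TriLoc.contract [Finite V] (h : TriLoc S G T) (hS : 5 ≤ S.card) (hxy : G.Adj x y)
    (h2 : ∀ z, G.Adj x z → G.Adj y z → T x y z) :
    TriLoc (S.erase y) (quot G (mv x y)) (quotT T (mv x y)) := by
  classical
  have hxS := h.mem _ _ hxy
  have hyS := h.mem _ _ hxy.symm
  have hmem : ∀ u v, (quot G (mv x y)).Adj u v → u ∈ S.erase y := by
    rintro u v ⟨_, a, b, ha, _, hab⟩
    rw [mem_erase]
    refine ⟨fun h3 => mv_ne_y hxy.ne a (ha.trans h3), ?_⟩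
    rw [← ha]
    unfold mv
    split_ifs
    · exact hxS
    · exact h.mem _ _ hab
  have hadj : ∀ u v w, quotT T (mv x y) u v w → (quot G (mv x y)).Adj u v := by
    rintro u v w ⟨h3, _, _, a, b, _, ha, hb, _, hT⟩
    exact ⟨h3, a, b, ha, hb, h.adj _ _ _ hT⟩
  refine ⟨h.quot_rot _, h.quot_swap _, hadj, hmem, ?_, ?_⟩
  · intro u hu
    rw [mem_erase] at hu
    refine exists_rotn (h.quot_rot _) (h.quot_swap _) hadj ?_ ?_ ?_
    · by_cases hux : u = x
      · obtain ⟨a, b, _, k⟩ := h.two hxy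
        have e := h.adj2 ((k a).2 (Or.inl rfl))
        exact ⟨a, by rw [hux, cadj_x hxy.ne]; exact ⟨e.2.2.ne, e.2.1.ne', Or.inr e.2.1⟩⟩
      · obtain ⟨d, ν, hν⟩ := h.rotation u hu.2
        refine ⟨mv x y (ν 0), (cadj_ne hux hu.1).2 ⟨?_, ν 0, rfl, hν.adj_nu 0⟩⟩
        intro h3
        exact (hν.adj_nu 0).ne (eq_of_mv h3.symm hux).symm
    · intro v huv
      by_cases hux : u = x
      · subst hux
        have hvx : v ≠ u := huv.1.symm
        obtain ⟨a, b, hab, k⟩ := h.ctr_two_ne hS hxy h2 hvx huv.symm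
        refine ⟨a, b, hab, fun z => ?_⟩
        rw [← k]
        exact ⟨fun h3 => h.quot_swap _ _ _ _ h3, fun h3 => h.quot_swap _ _ _ _ h3⟩
      · exact h.ctr_two_ne hS hxy h2 hux huv
    · rintro N ⟨p, hp, hup⟩ ⟨q, hq, huq⟩
      exact h.ctr_split hxy h2 hu.1 N hup hp huq hq
  · intro u hu v hv
    rw [mem_erase] at hu hv
    have h3 := ctr_reach (x := x) (y := y) u v (h.conn u hu.2 v hv.2)
    rw [mv_ne hu.1, mv_ne hv.1] at h3
    exact h3

/-- Contraction of an edge: the sum of the degrees. -/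
theorem TriLoc.ctr_sum [Finite V] (h : TriLoc S G T) (hxy : G.Adj x y)
    (h2 : ∀ z, G.Adj x z → G.Adj y z → T x y z) :
    (∑ u ∈ S.erase y, ({v | (quot G (mv x y)).Adj u v}.ncard : ℤ)) + 6 =
      ∑ u ∈ S, ({v | G.Adj u v}.ncard : ℤ) := by
  classical
  have hxS := h.mem _ _ hxy
  have hyS := h.mem _ _ hxy.symm
  have hdx := h.ctr_deg_x hxy h2
  have hxe : x ∈ S.erase y := mem_erase.2 ⟨hxy.ne, hxS⟩
  rw [← Finset.add_sum_erase S _ hyS, ← Finset.add_sum_erase (S.erase y) _ hxe,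
    ← Finset.add_sum_erase (S.erase y) _ hxe]
  obtain ⟨a, b, hab, k⟩ := h.two hxy
  have hsum : (∑ u ∈ (S.erase y).erase x, ({v | (quot G (mv x y)).Adj u v}.ncard : ℤ)) + 2 =
      ∑ u ∈ (S.erase y).erase x, ({v | G.Adj u v}.ncard : ℤ) := by
    have h5 : ∑ u ∈ (S.erase y).erase x, (if G.Adj x u ∧ G.Adj y u then (1 : ℤ) else 0) = 2 := by
      rw [← Finset.sum_filter, Finset.sum_const, nsmul_eq_mul, mul_one]
      have h6 : ((S.erase y).erase x).filter (fun u => G.Adj x u ∧ G.Adj y u) = {a, b} := by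
        ext v
        rw [mem_filter, mem_insert, mem_singleton, ← k, mem_erase, mem_erase]
        constructor
        · rintro ⟨_, h7, h8⟩
          exact h2 v h7 h8
        · intro h7
          have e := h.adj2 h7
          exact ⟨⟨e.2.2.ne, e.2.1.ne', h.mem _ _ e.2.2⟩, e.2.2.symm, e.2.1⟩
      rw [h6, card_pair hab]
      rfl
    rw [← h5, ← Finset.sum_add_distrib]
    refine Finset.sum_congr rfl fun u hu => ?_
    rw [mem_erase, mem_erase] at hu
    have h7 := ctr_deg (G := G) hxy.ne hu.1 hu.2.1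
    rw [← h7]
    push_cast
    rfl
  zify at hdx
  linarith

/-- **Contraction of an edge.** -/
theorem TriOn.contract [Finite V] {χ : ℤ} (h : TriOn χ S G T) (hS : 5 ≤ S.card)
    (hxy : G.Adj x y) (h2 : ∀ z, G.Adj x z → G.Adj y z → T x y z) :
    TriOn χ (S.erase y) (quot G (mv x y)) (quotT T (mv x y)) := by
  refine ⟨h.toTriLoc.contract hS hxy h2, ?_⟩
  have h3 := h.toTriLoc.ctr_sum hxy h2
  have h4 := h.euler
  have hc : (S.erase y).card + 1 = S.card := card_erase_add_one (h.mem _ _ hxy.symm)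
  zify at hc
  linarith

end ctr

end Pool.Agent.W986
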