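import Pool.Agent.W986.SubWord

/-!
# Cyclic words of a fixed length

Branch and bound for the cyclic words of length `n` which avoid patterns: a potential `φ` shows
that the mean is at most `c`, the slacks are nonnegative, and only the words whose total slack is
small have to be looked at. By the cycle lemma one may start at a place from which all the partial
sums of the slacks are at most the average.
-/

set_option autoImplicit false

open Finset

namespace Pool.Agent.W986.Word

/-! ### The cycle lemma -/

/-- There is a place from which all the partial sums to the left are at most the average. -/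
theorem cycle_lemma {n : ℕ} (hn : 0 < n) (a : ℕ → ℕ) (hper : ∀ i, a (i + n) = a i) :
    ∃ e, n ≤ e ∧ e < 2 * n ∧ ∀ j ≤ n,
      n * ∑ t ∈ range j, a (e - 1 - t) ≤ (∑ t ∈ range n, a t) * j := by
  set T : ℕ := ∑ t ∈ range n, a t with hT
  -- `f e = n (a 0 + ... + a (e - 1)) - T e`
  let f : ℕ → ℤ := fun e => (n : ℤ) * ((∑ t ∈ range e, a t : ℕ) : ℤ) - (T : ℤ) * e
  have hf : ∀ e, f (e + n) = f e := by
    intro e
    have h1 : ∑ t ∈ range (e + n), a t = ∑ t ∈ range e, a t + T := by
      rw [Finset.sum_range_add]
      congr 1
      have h2 : ∀ e, ∑ t ∈ range n, a (e + t) = T := by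
        intro e
        induction e with
        | zero => simp [hT]
        | succ e ih =>
          rw [← ih]
          have h3 := Finset.sum_range_succ (fun t => a (e + t)) n
          have h4 := Finset.sum_range_succ' (fun t => a (e + t)) n
          rw [h3] at h4
          rw [hper e, Nat.add_zero] at h4
          have h5 : ∑ t ∈ range n, a (e + 1 + t) = ∑ t ∈ range n, a (e + (t + 1)) :=
            Finset.sum_congr rfl fun t _ => by congr 1; omega
          omega
      exact h2 e
    simp only [f]
    rw [h1]
    push_cast
    ring
  obtain ⟨e0, he0, hmin⟩ := Finset.exists_min_image (range n) f ⟨0, Finset.mem_range.2 hn⟩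
  have hmin' : ∀ k, f e0 ≤ f k := by
    intro k
    have h1 : f k = f (k % n) := by
      have h2 : ∀ q r, f (r + n * q) = f r := by
        intro q
        induction q with
        | zero => intro r; rfl
        | succ q ih =>
          intro r
          rw [Nat.mul_succ, ← Nat.add_assoc, hf]
          exact ih r
      have h3 := h2 (k / n) (k % n)
      rw [Nat.mod_add_div] at h3
      exact h3
    rw [h1]
    exact hmin _ (Finset.mem_range.2 (Nat.mod_lt _ hn))
  refine ⟨e0 + n, by omega, by have := Finset.mem_range.1 he0; omega, fun j hj => ?_⟩
  have h1 : ∑ t ∈ range (e0 + n), a t =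
      ∑ t ∈ range (e0 + n - j), a t + ∑ t ∈ range j, a (e0 + n - 1 - t) := by
    have h2 : e0 + n = (e0 + n - j) + j := by omega
    rw [h2, Finset.sum_range_add, Nat.add_sub_cancel]
    congr 1
    rw [← Finset.sum_range_reflect]
    apply Finset.sum_congr rfl
    intro t ht
    have := Finset.mem_range.1 ht
    congr 1
    omega
  have h2 := hmin' (e0 + n - j)
  have h3 : f e0 = f (e0 + n) := (hf e0).symm
  rw [h3] at h2
  simp only [f] at h2
  rw [h1] at h2
  have h4 : ((e0 + n : ℕ) : ℤ) = ((e0 + n - j : ℕ) : ℤ) + (j : ℤ) := by
    have : j ≤ e0 + n := by omega
    omega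
  rw [h4] at h2
  push_cast at h2 ⊢
  zify
  nlinarith [h2]

/-! ### Branch and bound -/

/-- All the words of length `l + |w|` with the suffix `w`; `s` is the sum of the `j` slacks which
are already known, `k` the number of letters which are missing until the first slack is known. -/
def bb (m n D K : ℕ) (P : List (List ℕ)) (sl : List ℕ → ℕ) (test : List ℕ → Bool) :
    ℕ → ℕ → List ℕ → ℕ → ℕ → Bool
  | 0, _, w, _, _ => test w
  | l + 1, 0, w, s, j => (List.range m).all fun a => starts P (a :: w) ||
      (Nat.blt (D * (j + 1)) (n * (s + sl ((a :: w).take (K + 1)))) ||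
        bb m n D K P sl test l 0 (a :: w) (s + sl ((a :: w).take (K + 1))) (j + 1))
  | l + 1, k + 1, w, s, j => (List.range m).all fun a => starts P (a :: w) ||
      bb m n D K P sl test l k (a :: w) s j

/-- The sum of the slacks of the windows of a word. -/
def ssum (K : ℕ) (sl : List ℕ → ℕ) : List ℕ → ℕ
  | [] => 0
  | a :: w => ssum K sl w + (if K ≤ w.length then sl ((a :: w).take (K + 1)) else 0)

theorem bb_sound {m n D K : ℕ} {P : List (List ℕ)} {sl : List ℕ → ℕ} {test : List ℕ → Bool}
    {l : ℕ} {w : List ℕ} {k s j : ℕ} (h : bb m n D K P sl test l k w s j = true)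
    (hk : k = K - w.length) (hs : s = ssum K sl w) (hj : j = w.length - K) (u : List ℕ)
    (hl : u.length = l) (hm : ∀ a ∈ u, a < m)
    (hP : ∀ i, i < l → starts P (u.drop i ++ w) = false)
    (hD : ∀ i, i < l → n * ssum K sl (u.drop i ++ w) ≤ D * ((u.drop i ++ w).length - K)) :
    test (u ++ w) = true := by
  induction l generalizing w u k s j with
  | zero =>
    have : u = [] := List.length_eq_zero_iff.1 hl
    subst this
    simpa [bb] using h
  | succ l ih =>
    rcases List.eq_nil_or_concat u with hu | ⟨v, a, hu⟩
    · subst hu
      simp at hl
    · rw [List.concat_eq_append] at hu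
      subst hu
      have hv : v.length = l := by simpa using hl
      have ha : a < m := hm a (by simp)
      have hdrop : (v ++ [a]).drop l ++ w = a :: w := by
        rw [List.drop_append_of_le_length (by omega), ← hv, List.drop_length, List.nil_append,
          List.singleton_append]
      have h2 : starts P (a :: w) = false := by
        have := hP l (by omega)
        rwa [hdrop] at this
      have hD2 : n * ssum K sl (a :: w) ≤ D * ((a :: w).length - K) := by
        have := hD l (by omega)
        rwa [hdrop] at this
      have hdrop2 : ∀ i, i < l → (v ++ [a]).drop i ++ w = v.drop i ++ (a :: w) := by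
        intro i hi
        rw [List.drop_append_of_le_length (by omega), List.append_assoc, List.singleton_append]
      have hrest : ∀ {k' s' j' : ℕ}, bb m n D K P sl test l k' (a :: w) s' j' = true →
          k' = K - (a :: w).length → s' = ssum K sl (a :: w) → j' = (a :: w).length - K →
          test (v ++ [a] ++ w) = true := by
        intro k' s' j' h3 hk' hs' hj'
        have := ih h3 hk' hs' hj' v hv (fun b hb => hm b (by simp [hb]))
          (fun i hi => by
            have := hP i (by omega)
            rwa [hdrop2 i hi] at this)
          (fun i hi => by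
            have := hD i (by omega)
            rwa [hdrop2 i hi] at this)
        simpa using this
      cases k with
      | zero =>
        simp only [bb, List.all_eq_true, List.mem_range, Bool.or_eq_true] at h
        have hK : K ≤ w.length := by omega
        have hss : ssum K sl (a :: w) = s + sl ((a :: w).take (K + 1)) := by
          rw [ssum, if_pos hK, hs]
        rcases h a ha with h1 | h1 | h1
        · rw [h2] at h1
          exact absurd h1 (by simp)
        · exfalso
          have h4 : D * (j + 1) < n * (s + sl ((a :: w).take (K + 1))) := by
            have := Nat.le_of_ble_eq_true h1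
            omega
          rw [hss] at hD2
          have h5 : (a :: w).length - K = j + 1 := by
            simp only [List.length_cons]
            omega
          rw [h5] at hD2
          omega
        · refine hrest h1 ?_ hss.symm ?_
          · simp only [List.length_cons]
            omega
          · simp only [List.length_cons]
            omega
      | succ k =>
        simp only [bb, List.all_eq_true, List.mem_range, Bool.or_eq_true] at h
        have hK : ¬ K ≤ w.length := by omega
        rcases h a ha with h1 | h1
        · rw [h2] at h1
          exact absurd h1 (by simp)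
        · refine hrest h1 ?_ ?_ ?_
          · simp only [List.length_cons]
            omega
          · rw [ssum, if_neg hK, hs, Nat.add_zero]
          · simp only [List.length_cons]
            omega

theorem ssum_win {K : ℕ} {sl : List ℕ → ℕ} {w : ℕ → ℕ} (i l : ℕ) :
    ssum K sl (win w i l) = ∑ t ∈ range (l - K), sl (win w (i + t) (K + 1)) := by
  induction l generalizing i with
  | zero => simp [win, ssum]
  | succ l ih =>
    have h1 : win w i (l + 1) = w i :: win w (i + 1) l := by
      have := win_append w i 1 l
      rw [Nat.add_comm 1 l] at this
      rw [← this]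
      simp [win]
    rw [h1, ssum, ih, ← h1, win_length]
    by_cases hK : K ≤ l
    · rw [if_pos hK, show l + 1 - K = (l - K) + 1 by omega, Finset.sum_range_succ', Nat.add_zero,
        win_take (by omega)]
      congr 1
      apply Finset.sum_congr rfl
      intro t _
      congr 2
      omega
    · rw [if_neg hK, show l - K = 0 by omega, show l + 1 - K = 0 by omega]
      simp

/-- The check for one length: `c` = bound for the mean, `C` = bound for the sum. -/
def chkC (m : ℕ) (P : List (List ℕ)) (K : ℕ) (g φ : List ℕ → ℕ) (c n C : ℕ) : Bool :=
  pot m P (K + 1) g φ c &&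
    bb m n (n * c - C - 1) K P
      (fun l => c + φ (l.take K) - (g l + φ l.tail))
      (fun l => cycBad P l || Nat.ble (wsum g (K + 1) l) C) n K [] 0 0

theorem chkC_sound {m : ℕ} {P : List (List ℕ)} {K : ℕ} {g φ : List ℕ → ℕ} {c n C : ℕ}
    (h : chkC m P K g φ c n C = true) (hK : K + 1 ≤ n) {w : ℕ → ℕ}
    (hper : ∀ i, w (i + n) = w i) (hm : ∀ i, w i < m) (hP : Avoid P w n) :
    ∑ i ∈ range n, g (win w i (K + 1)) ≤ C := by
  rw [chkC, Bool.and_eq_true] at h
  obtain ⟨hpot, hbb⟩ := h
  have hwin : ∀ i k, win w (i + n) k = win w i k := by
    intro i k
    simp only [win]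
    apply List.map_congr_left
    intro j _
    rw [show i + n + j = i + j + n by omega, hper]
  -- the slacks
  set sl : List ℕ → ℕ := fun l => c + φ (l.take K) - (g l + φ l.tail) with hsl
  have h1 : ∀ i, g (win w i (K + 1)) + φ (win w (i + 1) K) ≤ c + φ (win w i K) := by
    intro i
    have := walk_sound hpot (win w i (K + 1)) (by simp) (fun a ha => by
      simp only [win, List.mem_map] at ha
      obtain ⟨j, _, rfl⟩ := ha
      exact hm _) (fun j hj => by
        rw [List.append_nil, win_drop hj.le]
        exact hP.starts _ _ (by omega))
    rw [List.append_nil] at this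
    have h2 := Nat.le_of_ble_eq_true this
    rwa [← List.drop_one, win_drop (by omega), win_take (by omega), Nat.add_sub_cancel] at h2
  have hslw : ∀ i, sl (win w i (K + 1)) + (g (win w i (K + 1)) + φ (win w (i + 1) K)) =
      c + φ (win w i K) := by
    intro i
    simp only [hsl]
    rw [win_take (by omega), ← List.drop_one, win_drop (by omega), Nat.add_sub_cancel]
    have := h1 i
    omega
  -- the total slack
  have htot : ∑ i ∈ range n, sl (win w i (K + 1)) + ∑ i ∈ range n, g (win w i (K + 1)) =
      n * c := by
    have h2 : ∀ N, ∑ i ∈ range N, sl (win w i (K + 1)) + ∑ i ∈ range N, g (win w i (K + 1)) +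
        φ (win w N K) = N * c + φ (win w 0 K) := by
      intro N
      induction N with
      | zero => simp
      | succ N ih =>
        rw [Finset.sum_range_succ, Finset.sum_range_succ, Nat.succ_mul]
        have := hslw N
        omega
    have h3 := h2 n
    have h4 : win w n K = win w 0 K := by
      have := hwin 0 K
      rwa [Nat.zero_add] at this
    rw [h4] at h3
    omega
  by_contra hC
  have hT : ∑ i ∈ range n, sl (win w i (K + 1)) ≤ n * c - C - 1 := by omega
  obtain ⟨e, he1, he2, hcyc⟩ := cycle_lemma (n := n) (by omega)
    (fun i => sl (win w i (K + 1))) (fun i => by rw [hwin])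
  -- the word ends `K` letters after the place `e`
  have hpos : n ≤ e + K := by omega
  set i0 := e + K - n with hi0
  have hfin := bb_sound hbb (by simp) (by simp [ssum]) (by simp) (win w i0 n) (by simp)
    (fun a ha => by
      simp only [win, List.mem_map] at ha
      obtain ⟨j, _, rfl⟩ := ha
      exact hm _)
    (fun j hj => by
      rw [List.append_nil, win_drop hj.le]
      exact hP.starts _ _ (by omega))
    (fun j hj => by
      rw [List.append_nil, win_drop hj.le, ssum_win, win_length]
      have h5 := hcyc (n - j - K) (by omega)
      have h6 : ∑ t ∈ range (n - j - K), sl (win w (i0 + j + t) (K + 1)) =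
          ∑ t ∈ range (n - j - K), sl (win w (e - 1 - t) (K + 1)) := by
        rw [← Finset.sum_range_reflect]
        apply Finset.sum_congr rfl
        intro t ht
        have := Finset.mem_range.1 ht
        congr 2
        omega
      rw [h6]
      exact h5.trans (Nat.mul_le_mul_right _ hT))
  rw [List.append_nil] at hfin
  simp only [Bool.or_eq_true] at hfin
  rcases hfin with h7 | h7
  · rw [hP.cycBad hper i0] at h7
    exact absurd h7 (by simp)
  · have h8 := Nat.le_of_ble_eq_true h7
    rw [wsum_win hK hper] at h8
    have h9 : ∑ i ∈ range n, g (win w (i0 + i) (K + 1)) =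
        ∑ i ∈ range n, g (win w i (K + 1)) := by
      have key : ∀ q, ∑ i ∈ range n, g (win w (q + i) (K + 1)) =
          ∑ i ∈ range n, g (win w i (K + 1)) := by
        intro q
        induction q with
        | zero => simp
        | succ q ih =>
          rw [← ih]
          have h10 := Finset.sum_range_succ (fun t => g (win w (q + t) (K + 1))) n
          have h11 := Finset.sum_range_succ' (fun t => g (win w (q + t) (K + 1))) n
          rw [h10, hwin] at h11
          simp only [Nat.add_zero] at h11
          have h12 : ∑ t ∈ range n, g (win w (q + 1 + t) (K + 1)) =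
              ∑ t ∈ range n, g (win w (q + (t + 1)) (K + 1)) :=
            Finset.sum_congr rfl fun t _ => by
              rw [show q + 1 + t = q + (t + 1) by omega]
          omega
      exact key i0
    rw [h9] at h8
    exact hC h8

end Pool.Agent.W986.Word
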