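import Pool.Agent.W986.SubTreeB

/-!
# Facts given by numbers

A fact is given by one number; its digits to the base 4096 are, least significant digit first: `1`
if the patch does not occur and `0` otherwise, the number of labels, the number of links, for each
link the label, the length and the entries, and then the three lists of bounds, each with its
length first.
-/

set_option autoImplicit false

namespace Pool.Agent.W986

namespace ST

/-- Read a digit. -/
def rdD {α : Type} (x : ℕ) (k : ℕ → ℕ → α) : α :=
  frc (Nat.land x 4095) fun a => frc (Nat.shiftRight x 12) fun x => k a x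

/-- Read `n` digits. -/
def rdDL {α : Type} (n : ℕ) : ℕ → (List ℕ → ℕ → α) → α :=
  @Nat.rec (fun _ => ℕ → (List ℕ → ℕ → α) → α) (fun x k => k [] x)
    (fun _ ih x k => rdD x fun a x => ih x fun l x => k (a :: l) x) n

/-- Read `n` pairs. -/
def rdDP {α : Type} (n : ℕ) : ℕ → (List (ℕ × ℕ) → ℕ → α) → α :=
  @Nat.rec (fun _ => ℕ → (List (ℕ × ℕ) → ℕ → α) → α) (fun x k => k [] x)
    (fun _ ih x k => rdD x fun a x => rdD x fun b x => ih x fun l x => k ((a, b) :: l) x) n

/-- Read `n` labels with lists. -/
def rdDK {α : Type} (n : ℕ) : ℕ → (List (ℕ × List ℕ) → ℕ → α) → α :=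
  @Nat.rec (fun _ => ℕ → (List (ℕ × List ℕ) → ℕ → α) → α) (fun x k => k [] x)
    (fun _ ih x k => rdD x fun a x => rdD x fun m x => rdDL m x fun b x =>
      ih x fun l x => k ((a, b) :: l) x) n

/-- The fact with the number `x`. -/
def dec (x : ℕ) : Fact :=
  rdD x fun i x => rdD x fun n x => rdD x fun k x => rdDK k x fun lk x =>
    rdD x fun k x => rdDP k x fun lb x => rdD x fun k x => rdDP k x fun kb x =>
      rdD x fun k x => rdDP k x fun kg _ => ⟨Nat.beq i 1, ⟨n, lk, lb, kb, kg⟩⟩

/-- The facts with the numbers in the list, followed by the second list. -/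
def decL (l : List ℕ) (t : List Fact) : List Fact :=
  @List.rec ℕ (fun _ => List Fact) t (fun x _ ih => dec x :: ih) l

end ST

end Pool.Agent.W986
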