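import Pool.Agent.W986.SubTree
import Pool.Agent.W986.SubDecB

/-!
# Facts given by numbers: the ends of the list
-/

set_option autoImplicit false

namespace Pool.Agent.W986

namespace ST

theorem drop_decL {l : List ℕ} {t : List Fact} {k : ℕ} (h : Nat.beq (len l) k = true) :
    (decL l t).drop k = t := by
  rw [← Nat.eq_of_beq_eq_true h]
  clear h
  induction l with
  | nil => rfl
  | cons x l ih => exact ih

/-- The first two ends. -/
theorem EndsOK.cons {a b : List Fact} {ts : List (List Fact)} (h : a.drop 64 = b)
    (h' : EndsOK (b :: ts)) : EndsOK (a :: b :: ts) := ⟨h, h'⟩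

theorem EndsOK.single (a : List Fact) : EndsOK [a] := trivial

end ST

end Pool.Agent.W986
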