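import Pool.Agent.W986.SubMask
import Pool.Agent.W986.SubPlanB

/-!
# Configurations: the data and the Boolean functions

Everything which is evaluated by the kernel: lists, the data of a configuration (`KData`), of a
contraction (`Plan`), the tables of labels (`SLeg`), and the record `SCfg`. This file imports only
Mathlib; the theorems about these functions are in other files.
-/

set_option autoImplicit false

namespace Pool.Agent.W986

/-! ### Lists -/

/-- The entry number `n` of a list. -/
def nth : List ℕ → ℕ → ℕ
  | [], _ => 0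
  | x :: _, 0 => x
  | _ :: l, n + 1 => nth l n

/-- Membership. -/
def mem1 (x : ℕ) : List ℕ → Bool
  | [] => false
  | y :: l => bif Nat.beq y x then true else mem1 x l

/-- Membership of a pair. -/
def mem2 (x y : ℕ) : List (ℕ × ℕ) → Bool
  | [] => false
  | p :: l => bif (bif Nat.beq p.1 x then Nat.beq p.2 y else false) then true else mem2 x y l

/-- A condition for all pairs of a list. -/
def all2 (f : ℕ → ℕ → Bool) : List (ℕ × ℕ) → Bool
  | [] => true
  | p :: l => bif f p.1 p.2 then all2 f l else false

/-- The union of sets. -/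
def or1 (f : ℕ → ℕ) : List ℕ → ℕ
  | [] => 0
  | x :: l => Nat.lor (f x) (or1 f l)

/-- The union of sets. -/
def or2 (f : ℕ → ℕ → ℕ) : List (ℕ × ℕ) → ℕ
  | [] => 0
  | p :: l => Nat.lor (f p.1 p.2) (or2 f l)

theorem mem1_iff (x : ℕ) (l : List ℕ) : mem1 x l = true ↔ x ∈ l := by
  induction l with
  | nil => simp [mem1]
  | cons y l ih =>
    rw [mem1, List.mem_cons]
    cases h : Nat.beq y x with
    | true =>
      have h1 := Nat.eq_of_beq_eq_true h
      simp [h1]
    | false =>
      have h1 : ¬ x = y := fun h2 => by
        rw [h2, Nat.beq_refl] at h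
        exact absurd h (by decide)
      simp [h1, ih]

theorem mem2_iff (x y : ℕ) (l : List (ℕ × ℕ)) : mem2 x y l = true ↔ (x, y) ∈ l := by
  induction l with
  | nil => simp [mem2]
  | cons p l ih =>
    obtain ⟨p1, p2⟩ := p
    rw [mem2, List.mem_cons, Prod.mk.injEq]
    change (bif (bif Nat.beq p1 x then Nat.beq p2 y else false) then true else mem2 x y l) =
      true ↔ _
    cases h : Nat.beq p1 x with
    | true =>
      have h1 := Nat.eq_of_beq_eq_true h
      cases h' : Nat.beq p2 y with
      | true =>
        have h2 := Nat.eq_of_beq_eq_true h'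
        simp [h1, h2]
      | false =>
        have h2 : ¬ y = p2 := fun h3 => by
          rw [h3, Nat.beq_refl] at h'
          exact absurd h' (by decide)
        simp [h2, ih]
    | false =>
      have h1 : ¬ x = p1 := fun h2 => by
        rw [h2, Nat.beq_refl] at h
        exact absurd h (by decide)
      simp [h1, ih]

theorem all2_iff (f : ℕ → ℕ → Bool) (l : List (ℕ × ℕ)) :
    all2 f l = true ↔ ∀ x y, (x, y) ∈ l → f x y = true := by
  induction l with
  | nil => simp [all2]
  | cons p l ih =>
    obtain ⟨p1, p2⟩ := p
    rw [all2]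
    change (bif f p1 p2 then all2 f l else false) = true ↔ _
    cases h : f p1 p2 with
    | true =>
      rw [cond_true, ih]
      constructor
      · intro h1 x y h2
        rcases List.mem_cons.1 h2 with h3 | h3
        · rw [Prod.mk.injEq] at h3
          rw [h3.1, h3.2]
          exact h
        · exact h1 x y h3
      · intro h1 x y h2
        exact h1 x y (List.mem_cons_of_mem _ h2)
    | false =>
      rw [cond_false]
      constructor
      · intro h1
        exact absurd h1 (by decide)
      · intro h1
        have h2 := h1 p1 p2 List.mem_cons_self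
        rw [h] at h2
        exact absurd h2 (by decide)

/-! ### Cyclic lists of labels -/

/-- The label at the place `t` of the cyclic list `l`. -/
def lab (l : List ℕ) (t : ℕ) : ℕ := l.getD (t % l.length) 0

/-- The list of the label `i`. -/
def lk (links : List (List ℕ)) (i : ℕ) : List ℕ := links.getD i []

/-! ### The data for the colourings -/

/-- The colour of the inner vertex `j`. -/
def sdg (code j : ℕ) : ℕ := Nat.land (Nat.shiftRight code (2 * j)) 3

/-- Add a member of `c` to the lists of `ps`. -/
def addAll (c : List ℕ) (ps : List (List ℕ)) : List (List ℕ) :=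
  match c with
  | [] => ps
  | x :: l => (x :: l).flatMap fun r => ps.map fun p => r :: p

/-- All choices of one member of every class. -/
def pats : List (List ℕ) → List (List ℕ)
  | [] => [[]]
  | c :: rest => addAll c (pats rest)

namespace CData

/-- A condition for all lists. -/
def allL (f : List ℕ → Bool) : List (List ℕ) → Bool
  | [] => true
  | p :: l => bif f p then allL f l else false

end CData

/-- The forbidden patterns with last inner vertex `i`: `A`: three inner vertices `i`, `j`, `j'` of
the same colour; `B`: two inner vertices `i`, `j` and a vertex of the class `q`; `C`: the inner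
vertex `i` and two vertices of the classes `q`, `q'`; `E`: the inner vertex `i` and the saturated
ring vertex `r`. -/
structure Lev where
  /-- pairs of inner vertices -/
  A : List (ℕ × ℕ)
  /-- an inner vertex and a class -/
  B : List (ℕ × ℕ)
  /-- pairs of classes -/
  C : List (ℕ × ℕ)
  /-- ring vertices -/
  E : List ℕ

/-- A configuration: `a` inner vertices, `L` ring vertices, `kp + 1` classes (vertices of the
quotient); the lists of edges contain every pair in both orders. -/
structure KData where
  /-- number of inner vertices -/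
  a : ℕ
  /-- number of ring vertices -/
  L : ℕ
  /-- number of classes, minus one -/
  kp : ℕ
  /-- edges between inner vertices -/
  inn : List (ℕ × ℕ)
  /-- edges between inner vertices and ring vertices -/
  mix : List (ℕ × ℕ)
  /-- the class of a ring vertex -/
  cl : List ℕ
  /-- new edges, as pairs of classes -/
  chq : List (ℕ × ℕ)
  /-- edges of the ring -/
  rng : List (ℕ × ℕ)
  /-- forbidden patterns -/
  lev : List Lev

namespace KData

variable (D : KData)

/-- The number of classes. -/
def k : ℕ := D.kp + 1

/-- The class of the ring vertex `r`. -/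
def q (r : ℕ) : ℕ := nth D.cl r

/-- The members of the class `c`. -/
def mem (c : ℕ) : List ℕ := (List.range D.L).filter fun r => Nat.beq (D.q r) c

end KData

/-! ### The tables of labels -/

namespace Leg

/-! ### Bits -/

theorem beq_iff (x y : ℕ) : Nat.beq x y = true ↔ x = y :=
  ⟨Nat.eq_of_beq_eq_true, fun h => h ▸ Nat.beq_refl x⟩

/-- The bit `i` of `m`. -/
def sb (m i : ℕ) : Bool := Nat.beq (Nat.land (Nat.shiftRight m i) 1) 1

theorem sb_eq (m i : ℕ) : sb m i = m.testBit i := by
  unfold sb
  rw [Nat.testBit, Bool.eq_iff_iff, bne_iff_ne, beq_iff]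
  change (m >>> i) &&& 1 = 1 ↔ 1 &&& (m >>> i) ≠ 0
  rw [Nat.and_comm 1, Nat.and_one_is_mod]
  omega

/-- The number of the pair `x, y`. -/
def ix (x y : ℕ) : ℕ := 32 * x + y

/-- The row `x` of a table. -/
def row (m x : ℕ) : ℕ := Nat.land (Nat.shiftRight m (32 * x)) 4294967295

theorem sb_row {m x y : ℕ} (h : sb (row m x) y = true) : y < 32 ∧ sb m (ix x y) = true := by
  rw [sb_eq] at h ⊢
  change ((m >>> (32 * x)) &&& 4294967295).testBit y = true at h
  rw [show (4294967295 : ℕ) = 2 ^ 32 - 1 by norm_num, Nat.testBit_and, Bool.and_eq_true,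
    Nat.testBit_two_pow_sub_one, decide_eq_true_eq, Nat.testBit_shiftRight] at h
  exact ⟨h.2, h.1⟩

/-- Two rows have a common bit. -/
def meet (p q : ℕ) : Bool := !Nat.beq (Nat.land p q) 0

theorem meet_iff {p q : ℕ} (h : meet p q = true) : ∃ i, sb p i = true ∧ sb q i = true := by
  have h1 : p &&& q ≠ 0 := by
    intro h2
    have h3 : Nat.beq (Nat.land p q) 0 = true := (beq_iff _ _).2 h2
    rw [meet, h3] at h
    exact absurd h (by decide)
  obtain ⟨i, hi⟩ := Nat.exists_testBit_of_ne_zero h1
  rw [Nat.testBit_and, Bool.and_eq_true] at hi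
  exact ⟨i, by rw [sb_eq]; exact hi.1, by rw [sb_eq]; exact hi.2⟩

/-- The number whose bits are in the list. -/
def orL : List ℕ → ℕ
  | [] => 0
  | i :: l => Nat.lor (Nat.shiftLeft 1 i) (orL l)

theorem sb_orL {l : List ℕ} {i : ℕ} (h : sb (orL l) i = true) : i ∈ l := by
  induction l with
  | nil =>
    rw [sb_eq, orL, Nat.zero_testBit] at h
    exact absurd h (by decide)
  | cons j l ih =>
    rw [sb_eq, orL] at h
    change ((1 <<< j) ||| orL l).testBit i = true at h
    rw [Nat.testBit_or, Bool.or_eq_true] at h
    rcases h with h | h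
    · rw [Nat.testBit_shiftLeft, Bool.and_eq_true, decide_eq_true_eq,
        Nat.testBit_one_eq_true_iff_self_eq_zero] at h
      rw [show i = j by omega]
      exact List.mem_cons_self
    · rw [← sb_eq] at h
      exact List.mem_cons_of_mem _ (ih h)

/-- The numbers `i < k` with `c i`. -/
def mkRow (c : ℕ → Bool) : ℕ → ℕ
  | 0 => 0
  | k + 1 => bif c k then Nat.lor (Nat.shiftLeft 1 k) (mkRow c k) else mkRow c k

theorem testBit_mkRow {c : ℕ → Bool} {k i : ℕ} (h : (mkRow c k).testBit i = true) :
    i < k ∧ c i = true := by
  induction k with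
  | zero =>
    rw [mkRow, Nat.zero_testBit] at h
    exact absurd h (by decide)
  | succ k ih =>
    rw [mkRow] at h
    cases hc : c k with
    | false =>
      rw [hc, cond_false] at h
      have h1 := ih h
      exact ⟨by omega, h1.2⟩
    | true =>
      rw [hc, cond_true] at h
      change ((1 <<< k) ||| mkRow c k).testBit i = true at h
      rw [Nat.testBit_or, Bool.or_eq_true] at h
      rcases h with h | h
      · rw [Nat.testBit_shiftLeft, Bool.and_eq_true, decide_eq_true_eq,
          Nat.testBit_one_eq_true_iff_self_eq_zero] at h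
        have h1 : i = k := by omega
        rw [h1]
        exact ⟨by omega, hc⟩
      · have h1 := ih h
        exact ⟨by omega, h1.2⟩

/-- The table of the pairs `x, y` with `c x y`. -/
def mkTab (c : ℕ → ℕ → Bool) (n : ℕ) : ℕ → ℕ
  | 0 => 0
  | k + 1 => Nat.lor (Nat.shiftLeft (mkRow (c k) n) (32 * k)) (mkTab c n k)

theorem sb_mkTab {c : ℕ → ℕ → Bool} {n k x y : ℕ} (hn : n ≤ 32) (hy : y < 32)
    (h : sb (mkTab c n k) (ix x y) = true) : x < k ∧ y < n ∧ c x y = true := by
  rw [sb_eq] at h
  induction k with
  | zero =>
    rw [mkTab, Nat.zero_testBit] at h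
    exact absurd h (by decide)
  | succ k ih =>
    rw [mkTab] at h
    change ((mkRow (c k) n <<< (32 * k)) ||| mkTab c n k).testBit (ix x y) = true at h
    rw [Nat.testBit_or, Bool.or_eq_true] at h
    rcases h with h | h
    · rw [Nat.testBit_shiftLeft, Bool.and_eq_true, decide_eq_true_eq] at h
      obtain ⟨h1, h2⟩ := h
      have h3 := testBit_mkRow h2
      unfold ix at h1 h3
      have h4 : x = k := by omega
      subst h4
      rw [show 32 * x + y - 32 * x = y by omega] at h3
      exact ⟨by omega, h3⟩
    · have h1 := ih h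
      exact ⟨by omega, h1.2⟩

/-! ### The data -/

end Leg

open Leg

/-- The data: the number of inner vertices, the number of labels, the cyclic lists of the
neighbours of the inner vertices, and labels which do not belong to inner vertices of degree 4. -/
structure SLeg where
  a : ℕ
  n : ℕ
  links : List (List ℕ)
  ctx : List ℕ

namespace SLeg

variable (D : SLeg)

/-- The pairs of neighbours in a cyclic list. -/
def cyc (l : List ℕ) : List (ℕ × ℕ) := (List.range l.length).map fun t => (lab l t, lab l (t + 1))

/-- Membership in a list of pairs, in one of the two orders. -/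
def memS (x y : ℕ) (l : List (ℕ × ℕ)) : Bool :=
  l.any fun p => bif Nat.beq p.1 x then Nat.beq p.2 y else (bif Nat.beq p.2 x then
    Nat.beq p.1 y else false)

/-- Known edges. -/
def jL : List ℕ := (List.range D.a).flatMap fun i =>
  (lk D.links i).flatMap (fun x => [ix i x, ix x i]) ++
    (cyc (lk D.links i)).flatMap (fun p => [ix p.1 p.2, ix p.2 p.1])

/-- Different neighbours of an inner vertex. -/
def eL : List ℕ := (List.range D.a).flatMap fun i =>
  (lk D.links i).flatMap fun x => (lk D.links i).flatMap fun y =>
    bif Nat.beq x y then [] else [ix x y]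

/-- Neighbours of an inner vertex which are not neighbours in the list. -/
def aL : List ℕ := (List.range D.a).flatMap fun i =>
  (lk D.links i).flatMap fun x => (lk D.links i).flatMap fun y =>
    bif (Nat.beq x y || memS x y (cyc (lk D.links i))) then [] else [ix x y]

/-- The known edges. -/
def J0 : ℕ := orL D.jL

/-- The first table of pairs of different vertices. -/
def E0 : ℕ := orL (D.eL ++ D.jL)

/-- The first table of pairs which are not adjacent. -/
def A0 : ℕ := orL (D.aL ++ (List.range D.n).map fun x => ix x x)

/-- No inner vertex of degree 4 has exactly the neighbours `u`, `x`, `v`, `y`, where `u` is an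
inner vertex. -/
def mref (J E A u x v y : ℕ) : Bool :=
  (lk D.links u).all fun c => Nat.beq c x || Nat.beq c v || Nat.beq c y ||
    sb A (ix c x) || sb A (ix c v) || sb A (ix c y) ||
    (Nat.blt c D.a && !Nat.beq (lk D.links c).length 4) ||
    D.ctx.any (fun z => Nat.beq z c) ||
    meet (Nat.land (Nat.land (row J c) (row E u)) (row E x)) (Nat.land (row E v) (row E y))

/-- `x` and `y` are not adjacent, because of the 4-cycle `x`, `u`, `v`, `y`. -/
def four (J E A x y : ℕ) : Bool :=
  (List.range D.a).any fun u => sb J (ix u x) && sb A (ix u y) && sb E (ix u y) &&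
    (lk D.links u).any fun v => sb J (ix v y) && sb E (ix x v) && sb A (ix x v) &&
      D.mref J E A u x v y

/-- The next table of pairs of different vertices. -/
def nextE (J E A : ℕ) : ℕ := mkTab (fun x y => sb E (ix x y) || meet (row J x) (row A y) ||
  meet (row J y) (row A x)) D.n D.n

/-- The next table of pairs which are not adjacent. -/
def nextA (J E A : ℕ) : ℕ := mkTab (fun x y => sb A (ix x y) || (!sb J (ix x y) &&
  ((Nat.blt x D.a && (lk D.links x).all fun z => sb E (ix z y)) ||
   (Nat.blt y D.a && (lk D.links y).all fun z => sb E (ix z x)) ||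
   D.four J E A x y || D.four J E A y x))) D.n D.n

/-- Rounds of the computation, and a test of the final tables. -/
def rounds (J : ℕ) (k : ℕ → ℕ → Bool) : ℕ → ℕ → ℕ → Bool
  | 0, E, A => k E A
  | m + 1, E, A => fce (D.nextE J E A) fun E' => fce (D.nextA J E' A) fun A' =>
      rounds J k m E' A'

/-- The labels are small, and the lists are complete. -/
def wf : Bool := Nat.ble D.n 32 && Nat.ble D.a D.n &&
  (List.range D.a).all fun i => (lk D.links i).all fun x => Nat.blt x D.n

/-- The computation of the tables, and a test of them. -/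
def run (m : ℕ) (k : ℕ → ℕ → Bool) : Bool :=
  D.wf && fce D.J0 fun J => fce D.E0 fun E => fce D.A0 fun A => D.rounds J k m E A

/-- Every common neighbour of `x` and `y` is one of the first `a` labels. -/
def nc (A x y : ℕ) : Bool := !Nat.beq x y && sb A (ix x y) &&
  (List.range D.a).any fun u => (lk D.links u).any (fun c => Nat.beq c x) &&
    (lk D.links u).any (fun c => Nat.beq c y) &&
    (lk D.links u).all fun c => Nat.beq c x || Nat.beq c y || sb A (ix c x) || sb A (ix c y) ||
      (Nat.blt c D.a && (!Nat.beq (lk D.links c).length 4 ||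
        (lk D.links c).all fun w => Nat.beq w u || Nat.beq w x || Nat.beq w y || Nat.blt w D.a ||
          sb A (ix w x) || sb A (ix w y)))

end SLeg

/-! ### The record -/

/-- A condition for all numbers below `n`. -/
def allN (n : ℕ) (p : ℕ → Bool) : Bool := (List.range n).all p

/-- A condition for some number below `n`. -/
def anyN (n : ℕ) (p : ℕ → Bool) : Bool := (List.range n).any p

theorem allN_iff {n : ℕ} {p : ℕ → Bool} : allN n p = true ↔ ∀ i, i < n → p i = true := by
  rw [allN, List.all_eq_true]
  simp only [List.mem_range]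

theorem anyN_iff {n : ℕ} {p : ℕ → Bool} : anyN n p = true ↔ ∃ i, i < n ∧ p i = true := by
  rw [anyN, List.any_eq_true]
  simp only [List.mem_range]

/-- Two Booleans are equal. -/
def eqb (p q : Bool) : Bool := bif p then q else !q

theorem eqb_iff {p q : Bool} : eqb p q = true ↔ (p = true ↔ q = true) := by
  cases p <;> cases q <;> decide

/-- The labels `a` and `b` are consecutive in the cyclic list `l`. -/
def consb (l : List ℕ) (a b : ℕ) : Bool :=
  anyN l.length fun t => (Nat.beq (lab l t) a && Nat.beq (lab l (t + 1)) b) ||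
    (Nat.beq (lab l t) b && Nat.beq (lab l (t + 1)) a)

/-- A configuration with its contraction: `D` for the colourings, `links` the cyclic lists of the
neighbours of the inner labels, `P` the contractions, `rep` the labels of the classes. -/
structure SCfg where
  D : KData
  links : List (List ℕ)
  P : Plan
  rep : List ℕ

namespace SCfg

variable (C : SCfg)

/-- The cyclic list of the label `i`. -/
def lnk (i : ℕ) : List ℕ := lk C.links i

/-- The class of the label `x`. -/
def fn (x : ℕ) : ℕ := C.P.fin.getD x 0

/-- The label of the class `A`. -/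
def rp (A : ℕ) : ℕ := C.rep.getD A 0

/-- The label `i` is inner and `x` is a neighbour of `i`. -/
def inb (i x : ℕ) : Bool := Nat.blt i C.D.a && mem1 x (C.lnk i)

/-- The labels `i` and `j` are known to be adjacent. -/
def adjb (i j : ℕ) : Bool :=
  C.inb i j || C.inb j i || anyN C.D.a fun k => consb (C.lnk k) i j

/-- The labels `i`, `j`, `k` are known to be a triangle. -/
def trib (i j k : ℕ) : Bool :=
  (Nat.blt i C.D.a && consb (C.lnk i) j k) || (Nat.blt j C.D.a && consb (C.lnk j) i k) ||
    (Nat.blt k C.D.a && consb (C.lnk k) i j)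

/-- The data fit together. -/
def fitb : Bool :=
  Nat.beq C.P.a C.D.a && Nat.beq C.P.N (C.D.a + C.D.L) &&
  (allN C.D.L fun r => Nat.blt (C.D.q r) C.D.k) &&
  (allN C.D.L fun r => Nat.beq (C.fn (C.D.a + r)) (C.rp (C.D.q r))) &&
  (allN C.D.k fun A => Nat.blt (C.rp A) (C.D.a + C.D.L) &&
    allN C.D.k fun B => !Nat.beq (C.rp A) (C.rp B) || Nat.beq A B) &&
  (allN (C.D.a + C.D.L) fun x => Nat.blt (C.fn x) (C.D.a + C.D.L)) &&
  (allN C.D.a fun i => (C.lnk i).all fun x => Nat.blt x (C.D.a + C.D.L)) &&
  (allN C.D.a fun i => allN C.D.a fun j => eqb (mem2 i j C.D.inn) (mem1 j (C.lnk i))) &&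
  (allN C.D.a fun i => allN C.D.L fun r =>
    eqb (mem2 i r C.D.mix) (mem1 (C.D.a + r) (C.lnk i))) &&
  all2 (fun r s => anyN C.D.a fun i => consb (C.lnk i) (C.D.a + r) (C.D.a + s)) C.D.rng &&
  (allN C.D.L fun r => anyN C.D.a fun i => mem1 (C.D.a + r) (C.lnk i)) &&
  all2 (fun A B => !Nat.beq A B && anyN C.D.a fun i => (C.lnk i).any fun x =>
    (Nat.beq (C.fn i) (C.rp A) && Nat.beq (C.fn x) (C.rp B)) ||
    (Nat.beq (C.fn i) (C.rp B) && Nat.beq (C.fn x) (C.rp A))) C.D.chq

/-- The plan fits. -/
def planb : Bool :=
  (allN C.P.N fun i => allN C.P.N fun j => !(C.P.nb.getD i 0).testBit j || C.adjb i j) &&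
  (allN C.D.a fun i => (C.lnk i).all fun x =>
    (C.P.nb.getD i 0).testBit x && (C.P.nb.getD x 0).testBit i) &&
  (C.P.tri.all fun t => Nat.blt t.1 C.P.N && Nat.blt t.2.1 C.P.N && Nat.blt t.2.2 C.P.N &&
    C.trib t.1 t.2.1 t.2.2) &&
  C.P.bigOK && Nat.blt 0 C.P.steps.length && C.P.check

/-- Two ring labels have a common inner neighbour. -/
def com (r s : ℕ) : Bool :=
  anyN C.D.a fun i => mem1 (C.D.a + r) (C.lnk i) && mem1 (C.D.a + s) (C.lnk i)

/-- Two ring labels are joined by a path of length 3 through inner labels. -/
def dist (r s : ℕ) : Bool :=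
  anyN C.D.a fun i => mem1 (C.D.a + r) (C.lnk i) && anyN C.D.a fun j => mem1 j (C.lnk i) &&
    mem1 (C.D.a + s) (C.lnk j)

/-- Two ring labels are joined by a known path of length at most 3. -/
def near (r s : ℕ) : Bool :=
  C.com r s || C.dist r s ||
  (anyN C.D.L fun r' => Nat.beq (C.D.q r') (C.D.q r) && C.adjb (C.D.a + r') (C.D.a + s)) ||
  (anyN C.D.L fun s' => Nat.beq (C.D.q s') (C.D.q s) && C.adjb (C.D.a + r) (C.D.a + s'))

/-- The merges and chords are legal. -/
def legb (na nc : ℕ → ℕ → Bool) : Bool :=
  (allN C.D.L fun r => allN C.D.L fun s => Nat.beq r s || !Nat.beq (C.D.q r) (C.D.q s) ||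
    (na (C.D.a + r) (C.D.a + s) && nc (C.D.a + r) (C.D.a + s) && C.com r s)) &&
  (allN C.D.L fun r => allN C.D.L fun s => Nat.beq r s || !Nat.beq (C.D.q r) (C.D.q s) ||
    allN C.D.L fun t => allN C.D.L fun u => Nat.beq t u || !Nat.beq (C.D.q t) (C.D.q u) ||
      na (C.D.a + r) (C.D.a + t) || na (C.D.a + s) (C.D.a + u)) &&
  all2 (fun A B => allN C.D.L fun t => allN C.D.L fun u => !Nat.beq (C.D.q t) A ||
    !Nat.beq (C.D.q u) B || na (C.D.a + t) (C.D.a + u)) C.D.chq &&
  all2 (fun x y => allN C.D.L fun t => allN C.D.L fun u => !Nat.beq (C.fn (C.D.a + t)) x ||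
    !Nat.beq (C.fn (C.D.a + u)) y || na (C.D.a + t) (C.D.a + u)) C.P.chd &&
  (allN C.D.L fun r => allN C.D.L fun s => Nat.beq (C.D.q r) (C.D.q s) || C.near r s ||
    ((allN C.D.a fun i => (C.lnk i).all fun x =>
      !(Nat.beq (C.fn i) (C.fn (C.D.a + r)) && Nat.beq (C.fn x) (C.fn (C.D.a + s))) &&
      !(Nat.beq (C.fn i) (C.fn (C.D.a + s)) && Nat.beq (C.fn x) (C.fn (C.D.a + r)))) &&
    allN C.D.L fun r' => allN C.D.L fun s' => Nat.beq r r' || Nat.beq s s' ||
      !Nat.beq (C.D.q r') (C.D.q r) || !Nat.beq (C.D.q s') (C.D.q s) ||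
      na (C.D.a + r') (C.D.a + s')))

end SCfg

end Pool.Agent.W986
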