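import Pool.Agent.W986.EvenTri
import Pool.Agent.W986.MinDeg

/-!
# The disc bounded by an even cycle

`M` are the facial walks of a triangulation of the projective plane and `w` a simple closed walk of
length `n` which is a sum of faces.  Then `w` is the boundary of a set `J` of faces such that the
side `J` is a disc: all its cycles are sums of faces of `J`, and its number of edges is
`3 V_J - 3 - n`.
-/

set_option autoImplicit false

open Finset

namespace Pool.Agent.W986

open Pool.Agent.DC76

section cyc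

variable {V : Type} {G : SimpleGraph V}

/-- A simple closed walk. -/
structure Cyc (G : SimpleGraph V) (n : ℕ) (w : ℕ → V) : Prop where
  three : 3 ≤ n
  closed : w n = w 0
  adj : ∀ t, t < n → G.Adj (w t) (w (t + 1))
  inj : ∀ s t, s < n → t < n → w s = w t → s = t

variable {n : ℕ} {w : ℕ → V}

/-- the index modulo `n` of the next vertex -/
def nx (n t : ℕ) : ℕ := if t + 1 < n then t + 1 else 0

theorem Cyc.nx_lt (h : Cyc G n w) (t : ℕ) : nx n t < n := by
  have := h.three
  unfold nx
  split_ifs with h1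
  · exact h1
  · omega

theorem Cyc.nx_eq (h : Cyc G n w) {t : ℕ} (ht : t < n) : w (t + 1) = w (nx n t) := by
  unfold nx
  split_ifs with h1
  · rfl
  · have h2 : t + 1 = n := by omega
    rw [h2]
    exact h.closed

theorem nx_inj {n s t : ℕ} (hs : s < n) (ht : t < n) (h : nx n s = nx n t) : s = t := by
  unfold nx at h
  split_ifs at h <;> omega

theorem nx_nx {n t : ℕ} (hn : 3 ≤ n) (ht : t < n) : nx n (nx n t) ≠ t := by
  unfold nx
  split_ifs <;> omega

variable [DecidableEq V]

theorem Cyc.trav_le (h : Cyc G n w) (u v : V) : trav n w u v ≤ 1 := by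
  unfold trav
  rw [card_le_one]
  intro s hs t ht
  rw [mem_filter, mem_range] at hs ht
  obtain ⟨hs1, hs2⟩ := hs
  obtain ⟨ht1, ht2⟩ := ht
  rw [h.nx_eq hs1] at hs2
  rw [h.nx_eq ht1] at ht2
  rcases hs2 with ⟨a1, a2⟩ | ⟨a1, a2⟩ <;> rcases ht2 with ⟨b1, b2⟩ | ⟨b1, b2⟩
  · exact h.inj s t hs1 ht1 (a1.trans b1.symm)
  · have h1 := h.inj _ _ (h.nx_lt s) ht1 (a2.trans b1.symm)
    have h2 := h.inj _ _ (h.nx_lt t) hs1 (b2.trans a1.symm)
    rw [← h1] at h2
    exact absurd h2 (nx_nx h.three hs1)
  · have h1 := h.inj _ _ (h.nx_lt s) ht1 (a2.trans b1.symm)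
    have h2 := h.inj _ _ (h.nx_lt t) hs1 (b2.trans a1.symm)
    rw [← h1] at h2
    exact absurd h2 (nx_nx h.three hs1)
  · exact h.inj s t hs1 ht1 (a1.trans b1.symm)

theorem trav_ne {n : ℕ} {w : ℕ → V} {u v : V} (h : trav n w u v ≠ 0) :
    ∃ t, t < n ∧ ((w t = u ∧ w (t + 1) = v) ∨ (w t = v ∧ w (t + 1) = u)) := by
  unfold trav at h
  obtain ⟨t, ht⟩ := card_pos.1 (Nat.pos_of_ne_zero h)
  rw [mem_filter, mem_range] at ht
  exact ⟨t, ht⟩

theorem trav_pos' {n : ℕ} {w : ℕ → V} {t : ℕ} (ht : t < n) : trav n w (w t) (w (t + 1)) ≠ 0 := by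
  unfold trav
  rw [Ne, card_eq_zero, ← Ne, ← nonempty_iff_ne_empty]
  exact ⟨t, mem_filter.2 ⟨mem_range.2 ht, Or.inl ⟨rfl, rfl⟩⟩⟩

theorem Cyc.trav_one (h : Cyc G n w) {u v : V} (h1 : trav n w u v ≠ 0) : trav n w u v = 1 := by
  have := h.trav_le u v
  omega

theorem Cyc.chain_ne (h : Cyc G n w) {u v : V} : chain n w u v ≠ 0 ↔ trav n w u v ≠ 0 := by
  unfold chain
  constructor
  · intro h1 h2
    rw [h2] at h1
    exact h1 rfl
  · intro h1
    rw [h.trav_one h1]
    decide

theorem Cyc.adj_of_trav (h : Cyc G n w) {u v : V} (h1 : trav n w u v ≠ 0) : G.Adj u v := by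
  obtain ⟨t, ht, ⟨a, b⟩ | ⟨a, b⟩⟩ := trav_ne h1
  · rw [← a, ← b]
    exact h.adj t ht
  · rw [← a, ← b]
    exact (h.adj t ht).symm

variable [Fintype V]

theorem zmod_two (x : ZMod 2) : x = 0 ∨ x = 1 := by
  revert x
  decide

/-- A cycle supported on a simple closed walk is zero or the whole walk. -/
theorem Cyc.eq_of_support (h : Cyc G n w) {z : V → V → ZMod 2} (hz : z ∈ Z G Set.univ)
    (hs : ∀ u v, z u v ≠ 0 → trav n w u v ≠ 0) : z = 0 ∨ z = chain n w := by
  obtain ⟨hz1, _, hz3⟩ := hz
  have hn := h.three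
  have key : ∀ t, t < n → z (w t) (w (t + 1)) = z (w 0) (w 1) := by
    intro t
    induction t with
    | zero => intro _; rfl
    | succ t ih =>
      intro ht
      have h1 := ih (by omega)
      have h2 := hz3 (w (t + 1))
      have hne : w t ≠ w (t + 1 + 1) := by
        rw [h.nx_eq ht]
        intro h3
        have h4 := h.inj _ _ (show t < n by omega) (h.nx_lt (t + 1)) h3
        unfold nx at h4
        split_ifs at h4 <;> omega
      have h3 : ∑ y, z (w (t + 1)) y = z (w (t + 1)) (w t) + z (w (t + 1)) (w (t + 1 + 1)) := by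
        rw [← sum_pair hne]
        refine (sum_subset (subset_univ _) fun y _ hy => ?_).symm
        by_contra h4
        obtain ⟨s, hs1, hs2⟩ := trav_ne (hs _ _ h4)
        apply hy
        rw [mem_insert, mem_singleton]
        rcases hs2 with ⟨a, b⟩ | ⟨a, b⟩
        · have h5 := h.inj _ _ hs1 ht a
          rw [h5] at b
          exact Or.inr b.symm
        · rw [h.nx_eq hs1] at b
          have h5 := h.inj _ _ (h.nx_lt s) ht b
          have h6 : s = t := by
            refine nx_inj hs1 (by omega) ?_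
            rw [h5]
            unfold nx
            rw [if_pos ht]
          rw [h6] at a
          exact Or.inl a.symm
      rw [h3, hz1 (w (t + 1)) (w t), h1] at h2
      rcases zmod_two (z (w 0) (w 1)) with h4 | h4
      · rw [h4, zero_add] at h2
        rw [h2, h4]
      · rw [h4] at h2
        rcases zmod_two (z (w (t + 1)) (w (t + 1 + 1))) with h5 | h5
        · rw [h5, add_zero] at h2
          exact absurd h2 one_ne_zero
        · rw [h5, h4]
  rcases zmod_two (z (w 0) (w 1)) with h0 | h0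
  · left
    funext u v
    by_contra h1
    obtain ⟨t, ht, ⟨a, b⟩ | ⟨a, b⟩⟩ := trav_ne (hs u v h1)
    · rw [← a, ← b, key t ht, h0] at h1
      exact h1 rfl
    · rw [hz1 u v, ← a, ← b, key t ht, h0] at h1
      exact h1 rfl
  · right
    funext u v
    by_cases h1 : trav n w u v = 0
    · have h2 : z u v = 0 := by
        by_contra h2
        exact hs u v h2 h1
      have h3 : chain n w u v = 0 := by
        unfold chain
        rw [h1]
        rfl
      rw [h2, h3]
    · have h3 : chain n w u v = 1 := by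
        unfold chain
        rw [h.trav_one h1]
        rfl
      rw [h3]
      obtain ⟨t, ht, ⟨a, b⟩ | ⟨a, b⟩⟩ := trav_ne h1
      · rw [← a, ← b, key t ht, h0]
      · rw [hz1 u v, ← a, ← b, key t ht, h0]

end cyc

section faces

variable {V : Type} [Fintype V] [DecidableEq V] {G : SimpleGraph V} {F : Type} [Fintype F]
  [DecidableEq F]

/-- The sum of the faces of `I`. -/
def fsum (M : FacialWalks G F) (I : Finset F) : V → V → ZMod 2 := ∑ f ∈ I, face M f

theorem fsum_apply (M : FacialWalks G F) (I : Finset F) (u v : V) :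
    fsum M I u v = ((bd M I u v : ℕ) : ZMod 2) := (bd_cast M I u v).symm

theorem fsum_mem (M : FacialWalks G F) (I : Finset F) : fsum M I ∈ Bnd M :=
  Submodule.sum_mem _ fun f _ => Submodule.subset_span ⟨f, rfl⟩

theorem fsum_mem_Z (M : FacialWalks G F) (I : Finset F) : fsum M I ∈ Z G Set.univ :=
  Bnd_le M (fsum_mem M I)

theorem fsum_eq_zero (M : FacialWalks G F) {I : Finset F} (h : fsum M I = 0) :
    I = ∅ ∨ I = univ := by
  by_contra hcon
  push Not at hcon
  obtain ⟨u, v, huv⟩ := M.dual I hcon.1 hcon.2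
  have h1 := fsum_apply M I u v
  have h2 : bd M I u v = 1 := huv
  rw [h, h2] at h1
  exact absurd h1 (by simp)

theorem fsum_union (M : FacialWalks G F) {I J : Finset F} (h : Disjoint I J) :
    fsum M (I ∪ J) = fsum M I + fsum M J := sum_union h

theorem bd_off (M : FacialWalks G F) (I : Finset F) {u v : V} (h : ¬ G.Adj u v) :
    bd M I u v = 0 := by
  unfold bd
  refine sum_eq_zero fun f _ => ?_
  by_contra h1
  obtain ⟨t, ht, ⟨a, b⟩ | ⟨a, b⟩⟩ := trav_ne h1
  · exact h (a ▸ b ▸ M.adj f t ht)
  · exact h (a ▸ b ▸ (M.adj f t ht).symm)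

theorem fsum_univ (M : FacialWalks G F) : fsum M univ = 0 := by
  funext u v
  rw [fsum_apply]
  by_cases h : G.Adj u v
  · have h1 : bd M univ u v = 2 := M.twice u v h
    rw [h1]
    rfl
  · rw [bd_off M univ h]
    rfl

theorem fsum_compl (M : FacialWalks G F) (I : Finset F) : fsum M Iᶜ = fsum M I := by
  have h1 : fsum M I + fsum M Iᶜ = 0 := by
    rw [← fsum_union M disjoint_compl_right, union_compl, fsum_univ]
  exact (add_eq_zero_fun h1).symm

/-- The graph of the side `J`. -/
def sideG (M : FacialWalks G F) (J : Finset F) : SimpleGraph V where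
  Adj u v := bd M J u v ≠ 0
  symm := ⟨fun u v h => by rwa [bd_comm]⟩
  loopless := ⟨fun u h => h (bd_off M J (G.loopless.irrefl u))⟩

theorem sideG_le (M : FacialWalks G F) (J : Finset F) {u v : V} (h : (sideG M J).Adj u v) :
    G.Adj u v := by
  by_contra h1
  exact h (bd_off M J h1)

variable {M : FacialWalks G F} {n : ℕ} {w : ℕ → V} {J : Finset F}

/-- The boundary of `J` is the walk `w`. -/
theorem bd_one (hw : Cyc G n w) (hJ : fsum M J = chain n w) {u v : V} (h : G.Adj u v) :
    bd M J u v = 1 ↔ trav n w u v ≠ 0 := by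
  have h1 := fsum_apply M J u v
  rw [hJ] at h1
  have h2 := bd_le M J h
  constructor
  · intro h3
    rw [h3] at h1
    rw [← hw.chain_ne, h1]
    simp
  · intro h3
    rw [← hw.chain_ne, h1] at h3
    have h4 : bd M J u v = 0 ∨ bd M J u v = 1 ∨ bd M J u v = 2 := by omega
    rcases h4 with h4 | h4 | h4
    · rw [h4] at h3
      exact absurd rfl h3
    · exact h4
    · rw [h4] at h3
      exact absurd rfl h3

theorem bd_mono (M : FacialWalks G F) {I J : Finset F} (h : I ⊆ J) (u v : V) :
    bd M I u v ≤ bd M J u v := sum_le_sum_of_subset h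

/-- FACT 3. A sum of faces supported on the side `J` contains all or nothing of the other side. -/
theorem all_or_nothing (hw : Cyc G n w) (hJ : fsum M J = chain n w) {I : Finset F}
    (hI : ∀ u v, fsum M I u v ≠ 0 → (sideG M J).Adj u v) : I ∩ Jᶜ = ∅ ∨ Jᶜ ⊆ I := by
  have hsupp : ∀ u v, fsum M (I ∩ Jᶜ) u v ≠ 0 → trav n w u v ≠ 0 := by
    intro u v h1
    by_contra h2
    have hadj : G.Adj u v := by
      by_contra h3
      rw [fsum_apply, bd_off M _ h3] at h1
      exact h1 rfl
    have h3 : bd M J u v ≠ 1 := fun h3 => (bd_one hw hJ hadj).1 h3 h2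
    have h4 := bd_compl M J hadj
    have h5 : bd M (I ∩ Jᶜ) u v ≤ bd M Jᶜ u v := bd_mono M inter_subset_right u v
    have h6 : bd M (I ∩ Jᶜ) u v ≠ 0 := by
      intro h6
      rw [fsum_apply, h6] at h1
      exact h1 rfl
    have h7 : bd M J u v = 0 := by omega
    have h8 : fsum M I u v = 0 := by
      by_contra h8
      exact hI u v h8 h7
    have h9 : bd M (I ∩ J) u v = 0 := by
      have := bd_mono M (I := I ∩ J) (J := J) inter_subset_right u v
      omega
    have h10 : fsum M I = fsum M (I ∩ J) + fsum M (I ∩ Jᶜ) := by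
      rw [← fsum_union M]
      · congr 1
        ext f
        simp only [mem_union, mem_inter, mem_compl]
        tauto
      · rw [disjoint_left]
        intro f hf1 hf2
        exact (mem_compl.1 (mem_inter.1 hf2).2) (mem_inter.1 hf1).2
    rw [h10, Pi.add_apply, Pi.add_apply, fsum_apply M (I ∩ J), h9] at h8
    push_cast at h8
    rw [zero_add] at h8
    exact h1 h8
  rcases hw.eq_of_support (fsum_mem_Z M _) hsupp with h1 | h1
  · rcases fsum_eq_zero M h1 with h2 | h2
    · exact Or.inl h2
    · right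
      intro f _
      have h3 : f ∈ I ∩ Jᶜ := by
        rw [h2]
        exact mem_univ f
      exact (mem_inter.1 h3).1
  · have hdis : Disjoint (I ∩ Jᶜ) J := by
      rw [disjoint_left]
      intro f hf1 hf2
      exact (mem_compl.1 (mem_inter.1 hf1).2) hf2
    have h2 : fsum M ((I ∩ Jᶜ) ∪ J) = 0 := by
      rw [fsum_union M hdis, h1, hJ]
      funext u v
      rw [Pi.add_apply, Pi.add_apply]
      exact CharTwo.add_self_eq_zero _
    rcases fsum_eq_zero M h2 with h3 | h3
    · left
      rw [union_eq_empty] at h3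
      exact h3.1
    · right
      intro f hf
      have h4 : f ∈ (I ∩ Jᶜ) ∪ J := by
        rw [h3]
        exact mem_univ f
      rcases mem_union.1 h4 with h5 | h5
      · exact (mem_inter.1 h5).1
      · exact absurd h5 (mem_compl.1 hf)

/-- The span of the faces of `J`. -/
def spanF (M : FacialWalks G F) (J : Finset F) : Submodule (ZMod 2) (V → V → ZMod 2) :=
  Submodule.span (ZMod 2) ((J.image (face M) : Finset (V → V → ZMod 2)) :
    Set (V → V → ZMod 2))

theorem fsum_mem_span (M : FacialWalks G F) {I J : Finset F} (h : I ⊆ J) :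
    fsum M I ∈ spanF M J :=
  Submodule.sum_mem _ fun _ hf => Submodule.subset_span (mem_coe.2 (mem_image_of_mem _ (h hf)))

theorem finrank_spanF (M : FacialWalks G F) (J : Finset F) :
    Module.finrank (ZMod 2) (spanF M J) ≤ J.card :=
  (finrank_span_finset_le_card (R := ZMod 2) _).trans card_image_le

theorem inf_le_spanF (hw : Cyc G n w) (hJ : fsum M J = chain n w) :
    Z (sideG M J) Set.univ ⊓ Bnd M ≤ spanF M J := by
  rintro z ⟨hz1, hz2⟩
  obtain ⟨I, rfl⟩ := (mem_Bnd M z).1 hz2
  change fsum M I ∈ _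
  have h1 : I ∩ Jᶜ = ∅ ∨ Jᶜ ⊆ I := all_or_nothing hw hJ fun u v h => (hz1.2.1 u v h).1
  have h10 : fsum M I = fsum M (I ∩ J) + fsum M (I ∩ Jᶜ) := by
    rw [← fsum_union M]
    · congr 1
      ext f
      simp only [mem_union, mem_inter, mem_compl]
      tauto
    · rw [disjoint_left]
      intro f hf1 hf2
      exact (mem_compl.1 (mem_inter.1 hf2).2) (mem_inter.1 hf1).2
  rw [h10]
  refine Submodule.add_mem _ (fsum_mem_span M inter_subset_right) ?_
  rcases h1 with h2 | h2
  · rw [h2]
    exact fsum_mem_span M (empty_subset _)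
  · rw [inter_eq_right.2 h2, fsum_compl]
    exact fsum_mem_span M (Subset.refl _)

open Classical in
theorem sum_adj (K : SimpleGraph V) :
    ∑ u, ∑ v, (if K.Adj u v then 1 else 0) = 2 * K.edgeSet.ncard := by
  have h4 : ∀ u, ∑ v, (if K.Adj u v then 1 else 0) = K.degree u := by
    intro u
    rw [← sum_filter, sum_const, smul_eq_mul, mul_one,
      ← SimpleGraph.card_neighborFinset_eq_degree, SimpleGraph.neighborFinset_eq_filter]
  simp_rw [h4]
  rw [SimpleGraph.sum_degrees_eq_twice_card_edges, ← Set.ncard_coe_finset,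
    SimpleGraph.coe_edgeFinset]

/-- The boundary of `J` in terms of the side `J`. -/
theorem bd_add_trav (hw : Cyc G n w) (hJ : fsum M J = chain n w) (u v : V)
    [Decidable ((sideG M J).Adj u v)] :
    bd M J u v + trav n w u v = 2 * (if (sideG M J).Adj u v then 1 else 0) := by
  by_cases h : G.Adj u v
  · have h1 := bd_one hw hJ h
    have h2 := bd_le M J h
    by_cases h3 : trav n w u v = 0
    · have h4 : bd M J u v ≠ 1 := fun h4 => (h1.1 h4) h3
      by_cases h5 : bd M J u v = 0
      · rw [if_neg (fun h6 : (sideG M J).Adj u v => h6 h5), h5, h3]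
      · rw [if_pos (show (sideG M J).Adj u v from h5)]
        omega
    · have h4 := h1.2 h3
      have h5 := hw.trav_one h3
      rw [if_pos (show (sideG M J).Adj u v from fun h6 => by omega)]
      omega
  · have h1 := bd_off M J h
    have h2 : trav n w u v = 0 := by
      by_contra h3
      exact h (hw.adj_of_trav h3)
    rw [if_neg (fun h6 : (sideG M J).Adj u v => h6 h1), h1, h2]

/-- The number of edges of a side. -/
theorem side_edges (h3 : ∀ f, M.len f = 3) (hw : Cyc G n w) (hJ : fsum M J = chain n w) :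
    3 * J.card + n = 2 * (sideG M J).edgeSet.ncard := by
  classical
  have h1 : ∑ u, ∑ v, bd M J u v = 6 * J.card := by
    unfold bd
    calc ∑ u, ∑ v, ∑ f ∈ J, trav (M.len f) (M.walk f) u v
        = ∑ f ∈ J, ∑ u, ∑ v, trav (M.len f) (M.walk f) u v := by
          simp_rw [sum_comm (t := J)]
      _ = ∑ f ∈ J, 6 := by
          refine sum_congr rfl fun f _ => ?_
          rw [sum_trav_all _ _ fun t ht => (M.adj f t ht).ne, h3 f]
      _ = 6 * J.card := by rw [sum_const, smul_eq_mul, mul_comm]
  have h2 : ∑ u, ∑ v, trav n w u v = 2 * n := sum_trav_all _ _ fun t ht => (hw.adj t ht).ne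
  have h4 := sum_adj (sideG M J)
  have h5 : ∑ u, ∑ v, bd M J u v + ∑ u, ∑ v, trav n w u v =
      2 * ∑ u, ∑ v, (if (sideG M J).Adj u v then 1 else 0) := by
    rw [← sum_add_distrib, mul_sum]
    refine sum_congr rfl fun u _ => ?_
    rw [← sum_add_distrib, mul_sum]
    exact sum_congr rfl fun v _ => bd_add_trav hw hJ u v
  rw [h1, h2, h4] at h5
  omega

open Classical in
/-- The vertices of the side `J`. -/
noncomputable def sideV (M : FacialWalks G F) (J : Finset F) : Finset V :=
  univ.filter fun v => ∃ u, (sideG M J).Adj v u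

open Classical in
theorem mem_sideV {v : V} : v ∈ sideV M J ↔ ∃ u, (sideG M J).Adj v u := by
  unfold sideV
  rw [mem_filter]
  simp

/-- The vertices of the walk. -/
def cycV (n : ℕ) (w : ℕ → V) : Finset V := (range n).image w

omit [Fintype V] in
theorem mem_cycV {v : V} : v ∈ cycV n w ↔ ∃ t, t < n ∧ w t = v := by
  unfold cycV
  rw [mem_image]
  simp

omit [Fintype V] in
theorem Cyc.card (hw : Cyc G n w) : (cycV n w).card = n := by
  unfold cycV
  rw [card_image_of_injOn, card_range]
  intro s hs t ht h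
  exact hw.inj s t (mem_range.1 hs) (mem_range.1 ht) h

omit [Fintype V] in
theorem trav_mem {u v : V} (hw : Cyc G n w) (h : trav n w u v ≠ 0) : u ∈ cycV n w := by
  obtain ⟨t, ht, ⟨a, _⟩ | ⟨_, b⟩⟩ := trav_ne h
  · exact mem_cycV.2 ⟨t, ht, a⟩
  · rw [hw.nx_eq ht] at b
    exact mem_cycV.2 ⟨_, hw.nx_lt t, b⟩

/-- At a vertex off the walk either all the edges or no edge is on the side `J`. -/
theorem off_cyc (hL : Link M) (hw : Cyc G n w) (hJ : fsum M J = chain n w) {v : V}
    (hv : v ∉ cycV n w) (h : v ∈ sideV M J) {u : V} (hu : G.Adj v u) : bd M J v u = 2 := by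
  obtain ⟨y, hy⟩ := mem_sideV.1 h
  have hne : ∀ x, G.Adj v x → bd M J v x ≠ 1 := by
    intro x hx h1
    exact hv (trav_mem hw ((bd_one hw hJ hx).1 h1))
  obtain ⟨f, hf, hf2⟩ := exists_ne_zero_of_sum_ne_zero hy
  obtain ⟨g, hg, hg2⟩ := side_const M hL J hne (sideG_le M J hy) hu ⟨f, hf, hf2⟩
  have h2 : trav (M.len g) (M.walk g) v u ≤ bd M J v u :=
    single_le_sum (f := fun f => trav (M.len f) (M.walk f) v u) (fun _ _ => Nat.zero_le _) hg
  have h3 := hne u hu
  have h4 := bd_le M J hu
  unfold At at hg2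
  omega

theorem cyc_sub_side (hw : Cyc G n w) (hJ : fsum M J = chain n w) : cycV n w ⊆ sideV M J := by
  intro v hv
  obtain ⟨t, ht, rfl⟩ := mem_cycV.1 hv
  refine mem_sideV.2 ⟨w (t + 1), ?_⟩
  have h1 := (bd_one hw hJ (hw.adj t ht)).2 (trav_pos' ht)
  change bd M J _ _ ≠ 0
  omega

theorem side_card (hL : Link M) (hG : G.Connected) (hw : Cyc G n w)
    (hJ : fsum M J = chain n w) :
    (sideV M J).card + (sideV M Jᶜ).card = Fintype.card V + n := by
  have hJ' : fsum M Jᶜ = chain n w := by rw [fsum_compl, hJ]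
  have h1 : sideV M J ∪ sideV M Jᶜ = univ := by
    rw [eq_univ_iff_forall]
    intro v
    have h2 : ∃ u, G.Adj v u := by
      have h3 := (hw.adj 0 (by have := hw.three; omega)).ne
      by_cases h4 : v = w 0
      · rw [h4]
        exact ⟨_, hw.adj 0 (by have := hw.three; omega)⟩
      · obtain ⟨p⟩ := hG.preconnected v (w 0)
        cases p with
        | nil => exact absurd rfl h4
        | cons h _ => exact ⟨_, h⟩
    obtain ⟨u, hu⟩ := h2
    have h3 := bd_compl M J hu
    rw [mem_union, mem_sideV, mem_sideV]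
    by_cases h4 : bd M J v u = 0
    · right
      exact ⟨u, fun h5 => by omega⟩
    · left
      exact ⟨u, h4⟩
  have h2 : sideV M J ∩ sideV M Jᶜ = cycV n w := by
    ext v
    rw [mem_inter]
    constructor
    · rintro ⟨h3, h4⟩
      by_contra hv
      obtain ⟨u, hu⟩ := mem_sideV.1 h3
      have h5 := off_cyc hL hw hJ hv h3 (sideG_le M J hu)
      have h6 := off_cyc hL hw hJ' hv h4 (sideG_le M J hu)
      have h7 := bd_compl M J (sideG_le M J hu)
      omega
    · intro h3
      exact ⟨cyc_sub_side hw hJ h3, cyc_sub_side hw hJ' h3⟩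
  rw [← card_union_add_card_inter, h1, h2, hw.card, card_univ]

theorem side_ne (hw : Cyc G n w) (hJ : fsum M J = chain n w) : (sideV M J).Nonempty :=
  ⟨w 0, cyc_sub_side hw hJ (mem_cycV.2 ⟨0, by have := hw.three; omega, rfl⟩)⟩

theorem side_rank (hw : Cyc G n w) (hJ : fsum M J = chain n w) :
    (sideG M J).edgeSet.ncard + 1 ≤
      (sideV M J).card + Module.finrank (ZMod 2) (Z (sideG M J) Set.univ) :=
  finrank_Z_ge (sideG M J) (sideV M J) (side_ne hw hJ) fun u v h =>
    ⟨mem_sideV.2 ⟨v, h⟩, mem_sideV.2 ⟨u, h.symm⟩⟩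

/-- A side whose cycles are all boundaries. -/
theorem even_side_le (h3 : ∀ f, M.len f = 3) (hw : Cyc G n w) (hJ : fsum M J = chain n w)
    (hev : Z (sideG M J) Set.univ ≤ Bnd M) :
    (sideG M J).edgeSet.ncard + n + 3 ≤ 3 * (sideV M J).card := by
  have h1 := side_rank hw hJ
  have h2 : Z (sideG M J) Set.univ ≤ spanF M J :=
    fun z hz => inf_le_spanF hw hJ ⟨hz, hev hz⟩
  have h4 := Submodule.finrank_mono h2
  have h5 := finrank_spanF M J
  have h6 := side_edges h3 hw hJ
  omega

/-- Any side on a surface of Euler characteristic at least `1`. -/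
theorem side_le (h3 : ∀ f, M.len f = 3) (hG : G.Connected)
    (hχ : (1 : ℤ) ≤ (Fintype.card V : ℤ) - G.edgeSet.ncard + Fintype.card F)
    (hw : Cyc G n w) (hJ : fsum M J = chain n w) :
    (sideG M J).edgeSet.ncard + n ≤ 3 * (sideV M J).card := by
  have h1 := side_rank hw hJ
  have h2 := finrank_Z (conn_univ hG) hG.nonempty
  have h4 : Fintype.card F ≤ Module.finrank (ZMod 2) (Bnd M) + 1 := face_rank M
  have hle : Z (sideG M J) Set.univ ⊔ Bnd M ≤ Z G Set.univ := by
    refine sup_le ?_ (Bnd_le M)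
    rintro z ⟨hz1, hz2, hz3⟩
    exact ⟨hz1, fun u v h => ⟨sideG_le M J (hz2 u v h).1, trivial, trivial⟩, hz3⟩
  have h5 := Submodule.finrank_mono hle
  have h6 := Submodule.finrank_sup_add_finrank_inf_eq (Z (sideG M J) Set.univ) (Bnd M)
  have h7 := Submodule.finrank_mono (inf_le_spanF hw hJ)
  have h8 := finrank_spanF M J
  have h9 := side_edges h3 hw hJ
  omega

/-- One of the two sides has only boundaries. -/
theorem even_or (hG : G.Connected)
    (hχ : (1 : ℤ) ≤ (Fintype.card V : ℤ) - G.edgeSet.ncard + Fintype.card F)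
    (hw : Cyc G n w) (hJ : fsum M J = chain n w) :
    Z (sideG M J) Set.univ ≤ Bnd M ∨ Z (sideG M Jᶜ) Set.univ ≤ Bnd M := by
  by_contra hcon
  rw [not_or] at hcon
  obtain ⟨h1, h2⟩ := hcon
  obtain ⟨z1, hz1, hb1⟩ := SetLike.not_le_iff_exists.1 h1
  obtain ⟨z2, hz2, hb2⟩ := SetLike.not_le_iff_exists.1 h2
  have hle : ∀ I : Finset F, Z (sideG M I) Set.univ ≤ Z G Set.univ := by
    rintro I z ⟨a, b, c⟩
    exact ⟨a, fun u v h => ⟨sideG_le M I (b u v h).1, trivial, trivial⟩, c⟩
  obtain ⟨I, hI⟩ := (mem_Bnd M _).1 (add_mem_Bnd (conn_univ hG) M hχ hG.nonempty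
    (hle J hz1) (hle Jᶜ hz2) hb1 hb2)
  have h10 : fsum M I = fsum M (I ∩ J) + fsum M (I ∩ Jᶜ) := by
    rw [← fsum_union M]
    · congr 1
      ext f
      simp only [mem_union, mem_inter, mem_compl]
      tauto
    · rw [disjoint_left]
      intro f hf1 hf2
      exact (mem_compl.1 (mem_inter.1 hf2).2) (mem_inter.1 hf1).2
  have heq : z1 + fsum M (I ∩ J) = z2 + fsum M (I ∩ Jᶜ) := by
    have h11 : z1 + z2 = fsum M (I ∩ J) + fsum M (I ∩ Jᶜ) := by rw [← h10, hI]; rfl
    have h12 : z1 + z2 + (z2 + fsum M (I ∩ J)) =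
        fsum M (I ∩ J) + fsum M (I ∩ Jᶜ) + (z2 + fsum M (I ∩ J)) := by rw [h11]
    funext u v
    have h13 := congrFun (congrFun h12 u) v
    simp only [Pi.add_apply] at h13 ⊢
    have h14 : ∀ a b c d : ZMod 2, a + b + (b + c) = c + d + (b + c) → a + c = b + d := by
      decide
    exact h14 _ _ _ _ h13
  have hsupp : ∀ u v, (z1 + fsum M (I ∩ J)) u v ≠ 0 → trav n w u v ≠ 0 := by
    intro u v h
    have h5 : (sideG M J).Adj u v := by
      by_contra h6
      apply h
      have h7 : z1 u v = 0 := by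
        by_contra h8
        exact h6 (hz1.2.1 u v h8).1
      have h8 : bd M (I ∩ J) u v = 0 := by
        have := bd_mono M (I := I ∩ J) (J := J) inter_subset_right u v
        have h9 : bd M J u v = 0 := by
          by_contra h9
          exact h6 h9
        omega
      rw [Pi.add_apply, Pi.add_apply, h7, fsum_apply, h8]
      rfl
    have h5' : (sideG M Jᶜ).Adj u v := by
      by_contra h6
      apply h
      rw [heq]
      have h7 : z2 u v = 0 := by
        by_contra h8
        exact h6 (hz2.2.1 u v h8).1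
      have h8 : bd M (I ∩ Jᶜ) u v = 0 := by
        have := bd_mono M (I := I ∩ Jᶜ) (J := Jᶜ) inter_subset_right u v
        have h9 : bd M Jᶜ u v = 0 := by
          by_contra h9
          exact h6 h9
        omega
      rw [Pi.add_apply, Pi.add_apply, h7, fsum_apply, h8]
      rfl
    have h6 := sideG_le M J h5
    have h7 := bd_compl M J h6
    refine (bd_one hw hJ h6).1 ?_
    change bd M J u v ≠ 0 at h5
    change bd M Jᶜ u v ≠ 0 at h5'
    omega
  have hz : z1 + fsum M (I ∩ J) ∈ Bnd M := by
    rcases hw.eq_of_support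
      (Submodule.add_mem _ (hle J hz1) (fsum_mem_Z M _)) hsupp with h5 | h5
    · rw [h5]
      exact Submodule.zero_mem _
    · rw [h5, ← hJ]
      exact fsum_mem M J
  apply hb1
  have h6 := Submodule.add_mem _ hz (fsum_mem M (I ∩ J))
  have h7 : z1 + fsum M (I ∩ J) + fsum M (I ∩ J) = z1 := by
    funext u v
    simp only [Pi.add_apply]
    have h8 : ∀ a b : ZMod 2, a + b + b = a := by decide
    exact h8 _ _
  rwa [h7] at h6

/-- The side `J` of the simple closed walk `w` is a disc. -/
structure Disc (M : FacialWalks G F) (n : ℕ) (w : ℕ → V) (J : Finset F) : Prop where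
  cyc : Cyc G n w
  bd : fsum M J = chain n w
  even : Z (sideG M J) Set.univ ≤ Bnd M

/-- A simple closed walk which is a sum of faces bounds a disc. -/
theorem exists_disc (hG : G.Connected)
    (hχ : (1 : ℤ) ≤ (Fintype.card V : ℤ) - G.edgeSet.ncard + Fintype.card F)
    (hw : Cyc G n w) (h : chain n w ∈ Bnd M) : ∃ J, Disc M n w J := by
  obtain ⟨J, hJ⟩ := (mem_Bnd M _).1 h
  have hJ' : fsum M J = chain n w := hJ.symm
  rcases even_or hG hχ hw hJ' with h1 | h1
  · exact ⟨J, hw, hJ', h1⟩
  · exact ⟨Jᶜ, hw, by rw [fsum_compl, hJ'], h1⟩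

/-- The number of edges of a disc in the projective plane. -/
theorem Disc.edges (hL : Link M) (h3 : ∀ f, M.len f = 3) (hG : G.Connected)
    (hχ : (Fintype.card V : ℤ) - G.edgeSet.ncard + Fintype.card F = 1) (h : Disc M n w J) :
    (sideG M J).edgeSet.ncard + n + 3 = 3 * (sideV M J).card ∧
      (sideG M Jᶜ).edgeSet.ncard + n = 3 * (sideV M Jᶜ).card := by
  have hJ' : fsum M Jᶜ = chain n w := by rw [fsum_compl, h.bd]
  have h1 := even_side_le h3 h.cyc h.bd h.even
  have h2 := side_le h3 hG (by omega) h.cyc hJ'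
  have h4 := side_edges h3 h.cyc h.bd
  have h5 := side_edges h3 h.cyc hJ'
  have h6 := side_card hL hG h.cyc h.bd
  have h7 := tri_edges M h3
  have h8 := card_add_card_compl J
  omega

/-- In the projective plane the other side of a disc is not a disc. -/
theorem Disc.compl_odd (hL : Link M) (h3 : ∀ f, M.len f = 3) (hG : G.Connected)
    (hχ : (Fintype.card V : ℤ) - G.edgeSet.ncard + Fintype.card F = 1) (h : Disc M n w J) :
    ¬ Z (sideG M Jᶜ) Set.univ ≤ Bnd M := by
  intro h1
  have hJ' : fsum M Jᶜ = chain n w := by rw [fsum_compl, h.bd]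
  have h2 := even_side_le h3 h.cyc hJ' h1
  have h4 := (h.edges hL h3 hG hχ).2
  omega

/-- On the sphere every simple closed walk bounds two discs. -/
theorem exists_discs (hG : G.Connected)
    (hχ : (Fintype.card V : ℤ) - G.edgeSet.ncard + Fintype.card F = 2) (hw : Cyc G n w) :
    ∃ J, Disc M n w J ∧ Disc M n w Jᶜ := by
  have h1 : Fintype.card F ≤ Module.finrank (ZMod 2) (Bnd M) + 1 := face_rank M
  have h2 := finrank_Z (conn_univ hG) hG.nonempty
  have h4 : Bnd M = Z G Set.univ :=
    Submodule.eq_of_le_of_finrank_le (Bnd_le M) (by omega)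
  have hle : ∀ I : Finset F, Z (sideG M I) Set.univ ≤ Bnd M := by
    rintro I z ⟨a, b, c⟩
    rw [h4]
    exact ⟨a, fun u v h => ⟨sideG_le M I (b u v h).1, trivial, trivial⟩, c⟩
  have h5 : chain n w ∈ Bnd M := by
    rw [h4]
    exact chain_mem hw.closed hw.adj
  obtain ⟨J, hJ⟩ := (mem_Bnd M _).1 h5
  have hJ' : fsum M J = chain n w := hJ.symm
  exact ⟨J, ⟨hw, hJ', hle J⟩, ⟨hw, by rw [fsum_compl, hJ'], hle Jᶜ⟩⟩

/-- The number of edges of a disc on the sphere. -/
theorem Disc.edges_sphere (hL : Link M) (h3 : ∀ f, M.len f = 3) (hG : G.Connected)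
    (hχ : (Fintype.card V : ℤ) - G.edgeSet.ncard + Fintype.card F = 2) (h : Disc M n w J)
    (h' : Disc M n w Jᶜ) :
    (sideG M J).edgeSet.ncard + n + 3 = 3 * (sideV M J).card := by
  have hJ' : fsum M Jᶜ = chain n w := by rw [fsum_compl, h.bd]
  have h1 := even_side_le h3 h.cyc h.bd h.even
  have h2 := even_side_le h3 h.cyc hJ' h'.even
  have h4 := side_edges h3 h.cyc h.bd
  have h5 := side_edges h3 h.cyc hJ'
  have h6 := side_card hL hG h.cyc h.bd
  have h7 := tri_edges M h3
  have h8 := card_add_card_compl J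
  omega

/-- FACT 7. Discs in a disc. -/
theorem Disc.mono (hL : Link M) (h3 : ∀ f, M.len f = 3) (hG : G.Connected)
    (hχ : (Fintype.card V : ℤ) - G.edgeSet.ncard + Fintype.card F = 1) (h : Disc M n w J)
    {n' : ℕ} {w' : ℕ → V} {J' : Finset F} (h' : Disc M n' w' J')
    (hs : ∀ t, t < n' → (sideG M J).Adj (w' t) (w' (t + 1))) : J' ⊆ J := by
  have hI : ∀ u v, fsum M J' u v ≠ 0 → (sideG M J).Adj u v := by
    intro u v h1
    rw [h'.bd, h'.cyc.chain_ne] at h1
    obtain ⟨t, ht, ⟨a, b⟩ | ⟨a, b⟩⟩ := trav_ne h1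
    · rw [← a, ← b]
      exact hs t ht
    · rw [← a, ← b]
      exact (hs t ht).symm
  rcases all_or_nothing h.cyc h.bd hI with h1 | h1
  · intro f hf
    by_contra h2
    have h4 : f ∈ J' ∩ Jᶜ := mem_inter.2 ⟨hf, mem_compl.2 h2⟩
    rw [h1] at h4
    exact absurd h4 (notMem_empty f)
  · exfalso
    apply h.compl_odd hL h3 hG hχ
    rintro z ⟨a, b, c⟩
    refine h'.even ⟨a, fun u v h2 => ⟨?_, trivial, trivial⟩, c⟩
    have h4 := (b u v h2).1
    have h5 := bd_mono M h1 u v
    change Pool.Agent.W986.bd M Jᶜ u v ≠ 0 at h4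
    change Pool.Agent.W986.bd M J' u v ≠ 0
    omega

/-- The inner vertices of the side `J`. -/
noncomputable def dinn (M : FacialWalks G F) (J : Finset F) (n : ℕ) (w : ℕ → V) : Finset V :=
  sideV M J \ cycV n w

theorem mem_dinn {v : V} : v ∈ dinn M J n w ↔ v ∈ sideV M J ∧ v ∉ cycV n w := mem_sdiff

/-- All the edges at an inner vertex are inside. -/
theorem dinn_bd (hL : Link M) (hw : Cyc G n w) (hJ : fsum M J = chain n w) {v u : V}
    (hv : v ∈ dinn M J n w) (hu : G.Adj v u) : bd M J v u = 2 :=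
  off_cyc hL hw hJ (mem_dinn.1 hv).2 (mem_dinn.1 hv).1 hu

theorem dinn_adj (hL : Link M) (hw : Cyc G n w) (hJ : fsum M J = chain n w) {v u : V}
    (hv : v ∈ dinn M J n w) (hu : G.Adj v u) : (sideG M J).Adj v u := by
  have h := dinn_bd hL hw hJ hv hu
  change bd M J v u ≠ 0
  omega

theorem dinn_nb (hL : Link M) (hw : Cyc G n w) (hJ : fsum M J = chain n w) {v u : V}
    (hv : v ∈ dinn M J n w) (hu : G.Adj v u) : u ∈ dinn M J n w ∨ u ∈ cycV n w := by
  by_cases h : u ∈ cycV n w
  · exact Or.inr h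
  · exact Or.inl (mem_dinn.2 ⟨mem_sideV.2 ⟨v, (dinn_adj hL hw hJ hv hu).symm⟩, h⟩)

open Classical in
/-- Euler's formula for a disc. -/
theorem Disc.count (hL : Link M) (h3 : ∀ f, M.len f = 3) (h : Disc M n w J)
    (hE : (sideG M J).edgeSet.ncard + n + 3 = 3 * (sideV M J).card) :
    ∑ v ∈ dinn M J n w, (univ.filter fun u => G.Adj v u).card +
      ∑ v ∈ dinn M J n w, ((cycV n w).filter fun u => G.Adj v u).card +
      ∑ r ∈ cycV n w, ((cycV n w).filter fun u =>
        (sideG M J).Adj r u ∧ trav n w r u = 0).card + 6 = 6 * (dinn M J n w).card + 2 * n := by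
  have hw := h.cyc
  have hJ := h.bd
  have hcard : (dinn M J n w).card + n = (sideV M J).card := by
    have h1 := card_sdiff_add_card_inter (sideV M J) (cycV n w)
    rw [inter_eq_right.2 (cyc_sub_side hw hJ), hw.card] at h1
    exact h1
  -- the sum of the degrees
  have hsum : ∑ v ∈ sideV M J, (univ.filter fun u => (sideG M J).Adj v u).card =
      2 * (sideG M J).edgeSet.ncard := by
    rw [← sum_adj]
    have h1 : ∀ v, ∑ u, (if (sideG M J).Adj v u then 1 else 0) =
        (univ.filter fun u => (sideG M J).Adj v u).card := by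
      intro v
      rw [card_filter]
    simp_rw [h1]
    refine sum_subset (subset_univ _) fun v _ hv => ?_
    rw [card_eq_zero, filter_eq_empty_iff]
    exact fun u _ hu => hv (mem_sideV.2 ⟨u, hu⟩)
  have hsplit : ∑ v ∈ sideV M J, (univ.filter fun u => (sideG M J).Adj v u).card =
      ∑ v ∈ dinn M J n w, (univ.filter fun u => (sideG M J).Adj v u).card +
        ∑ v ∈ cycV n w, (univ.filter fun u => (sideG M J).Adj v u).card := by
    unfold dinn
    rw [sum_sdiff (cyc_sub_side hw hJ)]
  have hinn : ∑ v ∈ dinn M J n w, (univ.filter fun u => (sideG M J).Adj v u).card =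
      ∑ v ∈ dinn M J n w, (univ.filter fun u => G.Adj v u).card := by
    refine sum_congr rfl fun v hv => ?_
    congr 1
    refine filter_congr fun u _ => ?_
    exact ⟨fun h1 => sideG_le M J h1, fun h1 => dinn_adj hL hw hJ hv h1⟩
  -- the vertices of the boundary
  have hcyc : ∀ r ∈ cycV n w, (univ.filter fun u => (sideG M J).Adj r u).card =
      ((dinn M J n w).filter fun u => G.Adj u r).card + ∑ u, trav n w r u +
        ((cycV n w).filter fun u => (sideG M J).Adj r u ∧ trav n w r u = 0).card := by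
    intro r hr
    have h1 : ∑ u, trav n w r u = ((cycV n w).filter fun u => trav n w r u ≠ 0).card := by
      rw [card_filter]
      rw [← sum_subset (subset_univ (cycV n w))]
      · refine sum_congr rfl fun u _ => ?_
        by_cases h2 : trav n w r u = 0
        · rw [if_neg (fun h3 => h3 h2), h2]
        · rw [if_pos h2, hw.trav_one h2]
      · intro u _ hu
        by_contra h2
        rw [trav_comm] at h2
        exact hu (trav_mem hw h2)
    have h2 : (univ.filter fun u => (sideG M J).Adj r u) =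
        ((dinn M J n w).filter fun u => G.Adj u r) ∪
          (((cycV n w).filter fun u => trav n w r u ≠ 0) ∪
            ((cycV n w).filter fun u => (sideG M J).Adj r u ∧ trav n w r u = 0)) := by
      ext u
      simp only [mem_union, mem_filter, mem_univ, true_and]
      constructor
      · intro h4
        by_cases h5 : u ∈ cycV n w
        · right
          by_cases h6 : trav n w r u = 0
          · exact Or.inr ⟨h5, h4, h6⟩
          · exact Or.inl ⟨h5, h6⟩
        · exact Or.inl ⟨mem_dinn.2 ⟨mem_sideV.2 ⟨r, h4.symm⟩, h5⟩, (sideG_le M J h4).symm⟩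
      · rintro (⟨h4, h5⟩ | ⟨_, h5⟩ | ⟨_, h5, _⟩)
        · exact (dinn_adj hL hw hJ h4 h5).symm
        · have h6 := (bd_one hw hJ (hw.adj_of_trav h5)).2 h5
          change Pool.Agent.W986.bd M J r u ≠ 0
          omega
        · exact h5
    rw [h2, card_union_of_disjoint, card_union_of_disjoint, ← h1, add_assoc]
    · rw [disjoint_left]
      intro u hu1 hu2
      exact (mem_filter.1 hu1).2 (mem_filter.1 hu2).2.2
    · rw [disjoint_left]
      intro u hu1 hu2
      have h4 := (mem_dinn.1 (mem_filter.1 hu1).1).2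
      rcases mem_union.1 hu2 with h5 | h5
      · exact h4 (mem_filter.1 h5).1
      · exact h4 (mem_filter.1 h5).1
  have htrav : ∑ r ∈ cycV n w, ∑ u, trav n w r u = 2 * n := by
    rw [← sum_trav_all n w fun t ht => (hw.adj t ht).ne]
    refine sum_subset (subset_univ _) fun v _ hv => ?_
    refine sum_eq_zero fun u _ => ?_
    by_contra h2
    exact hv (trav_mem hw h2)
  have hdouble : ∑ r ∈ cycV n w, ((dinn M J n w).filter fun u => G.Adj u r).card =
      ∑ v ∈ dinn M J n w, ((cycV n w).filter fun u => G.Adj v u).card := by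
    simp_rw [card_filter]
    exact sum_comm
  rw [hsplit, hinn, sum_congr rfl hcyc, sum_add_distrib, sum_add_distrib, htrav, hdouble] at hsum
  omega

end faces

end Pool.Agent.W986
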