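import Pool.Agent.W986.SubCheckK

/-!
# Configurations: a faster check by the kernel

As in `SubCheckK.lean`, but the colours of the first `f` classes are fixed in an outer loop, up to
permutations of the colours; only the colours of the other classes are digits of a number.
-/

set_option autoImplicit false

namespace Pool.Agent.W986

/-! ### Colours up to permutation -/

/-- A list of colours in which new colours appear in the order `0, 1, 2, 3`; the colours below `m`
are used before. -/
def RG : ℕ → List ℕ → Prop
  | _, [] => True
  | m, t :: s => t ≤ m ∧ t < 4 ∧ RG (max m (t + 1)) s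

theorem exists_perm (l : List (Fin 4)) : ∀ (m : ℕ) (σ0 : Equiv.Perm (Fin 4)),
    ∃ σ : Equiv.Perm (Fin 4), (∀ x, (σ0 x).val < m → σ x = σ0 x) ∧
      RG m (l.map fun x => (σ x).val) := by
  induction l with
  | nil => exact fun m σ0 => ⟨σ0, fun _ _ => rfl, trivial⟩
  | cons x l ih =>
    intro m σ0
    by_cases hx : (σ0 x).val < m
    · obtain ⟨σ, h1, h2⟩ := ih m σ0
      refine ⟨σ, h1, ?_⟩
      rw [List.map_cons, RG, h1 x hx]
      refine ⟨hx.le, (σ0 x).2, ?_⟩
      rw [max_eq_left hx]
      exact h2
    · have hm : m < 4 := lt_of_le_of_lt (not_lt.1 hx) (σ0 x).2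
      obtain ⟨σ, h1, h2⟩ := ih (m + 1) (σ0.trans (Equiv.swap (σ0 x) ⟨m, hm⟩))
      have h3 : (σ0.trans (Equiv.swap (σ0 x) ⟨m, hm⟩)) x = ⟨m, hm⟩ := by
        rw [Equiv.trans_apply, Equiv.swap_apply_left]
      have h4 : σ x = ⟨m, hm⟩ := by
        rw [← h3]
        refine h1 x ?_
        rw [h3]
        exact Nat.lt_succ_self m
      refine ⟨σ, fun y hy => ?_, ?_⟩
      · have h5 : (σ0.trans (Equiv.swap (σ0 x) ⟨m, hm⟩)) y = σ0 y := by
          rw [Equiv.trans_apply, Equiv.swap_apply_of_ne_of_ne]
          · intro h6
            rw [h6] at hy
            exact hx hy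
          · intro h6
            rw [h6] at hy
            exact lt_irrefl _ hy
        rw [← h5]
        refine h1 y ?_
        rw [h5]
        exact Nat.lt_succ_of_lt hy
      · rw [List.map_cons, RG, h4]
        refine ⟨le_rfl, hm, ?_⟩
        rw [max_eq_right (Nat.le_succ m)]
        exact h2

/-- A condition for all lists of `n` further colours. -/
def allR (g : List ℕ → Bool) : ℕ → ℕ → List ℕ → Bool
  | 0, _, pre => g pre
  | n + 1, m, pre =>
    bif allR g n (max m 1) (pre ++ [0]) then
      bif (bif Nat.ble 1 m then allR g n (max m 2) (pre ++ [1]) else true) then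
        bif (bif Nat.ble 2 m then allR g n (max m 3) (pre ++ [2]) else true) then
          (bif Nat.ble 3 m then allR g n (max m 4) (pre ++ [3]) else true)
        else false
      else false
    else false

theorem allR_sound (g : List ℕ → Bool) (n : ℕ) : ∀ m pre, allR g n m pre = true →
    ∀ s : List ℕ, s.length = n → RG m s → g (pre ++ s) = true := by
  induction n with
  | zero =>
    intro m pre h s hs _
    rw [List.length_eq_zero_iff.1 hs, List.append_nil]
    exact h
  | succ n ih =>
    intro m pre h s hs hr
    cases s with
    | nil => simp at hs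
    | cons t s =>
      rw [RG] at hr
      obtain ⟨h1, h2, h3⟩ := hr
      have hs' : s.length = n := by simpa using hs
      rw [allR] at h
      cases e0 : allR g n (max m 1) (pre ++ [0]) with
      | false =>
        rw [e0, cond_false] at h
        exact absurd h (by decide)
      | true =>
        rw [e0, cond_true] at h
        cases e1 : (bif Nat.ble 1 m then allR g n (max m 2) (pre ++ [1]) else true) with
        | false =>
          rw [e1, cond_false] at h
          exact absurd h (by decide)
        | true =>
          rw [e1, cond_true] at h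
          cases e2 : (bif Nat.ble 2 m then allR g n (max m 3) (pre ++ [2]) else true) with
          | false =>
            rw [e2, cond_false] at h
            exact absurd h (by decide)
          | true =>
            rw [e2, cond_true] at h
            have key : ∀ t, t ≤ m → t < 4 → allR g n (max m (t + 1)) (pre ++ [t]) = true := by
              intro t ht ht4
              interval_cases t
              · exact e0
              · rw [(CData.ble_iff 1 m).2 ht, cond_true] at e1
                exact e1
              · rw [(CData.ble_iff 2 m).2 ht, cond_true] at e2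
                exact e2
              · rw [(CData.ble_iff 3 m).2 ht, cond_true] at h
                exact h
            have h4 := ih _ _ (key t h1 h2) s hs' h3
            rw [List.append_assoc] at h4
            exact h4

/-! ### The invariance -/

section

variable {a L k : ℕ}

theorem ConfK.State.perm {C : ConfK a L k} {c : Fin k → Fin 4} {m : Fin L → Bool}
    (h : C.State c m) (σ : Equiv.Perm (Fin 4)) : C.State (fun A => σ (c A)) m where
  one := h.one
  chd A B h1 h2 := h.chd A B h1 (σ.injective h2)
  rng r s h1 h2 := h.rng r s h1 (σ.injective h2)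
  two r s t h1 h2 h3 h4 := h.two r s t h1 h2 (σ.injective h3) (σ.injective h4)
  chd2 A B B' h1 h2 h3 h4 := h.chd2 A B B' h1 h2 (σ.injective h3) (σ.injective h4)

theorem ConfK.Ext.perm {C : ConfK a L k} {c : Fin L → Fin 4} {m : Fin L → Bool}
    {d : Fin a → Fin 4} (σ : Equiv.Perm (Fin 4)) (h : C.Ext (fun r => σ (c r)) m d) :
    C.Ext c m fun i => σ.symm (d i) := by
  obtain ⟨h1, h2, h3⟩ := h
  refine ⟨fun i => ?_, fun r => ?_, fun r i h4 h5 h6 => ?_⟩
  · have e1 : {j | C.inn i j = true ∧ σ.symm (d j) = σ.symm (d i)} =
        {j | C.inn i j = true ∧ d j = d i} := by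
      ext j
      simp only [Set.mem_ofPred_eq, EmbeddingLike.apply_eq_iff_eq]
    have e2 : {r | C.mix i r = true ∧ c r = σ.symm (d i)} =
        {r | C.mix i r = true ∧ σ (c r) = d i} := by
      ext j
      simp only [Set.mem_ofPred_eq]
      rw [Equiv.eq_symm_apply]
    rw [e1, e2]
    exact h1 i
  · have e1 : {i | C.mix i r = true ∧ σ.symm (d i) = c r} =
        {i | C.mix i r = true ∧ d i = σ (c r)} := by
      ext j
      simp only [Set.mem_ofPred_eq]
      rw [Equiv.symm_apply_eq]
    rw [e1]
    exact h2 r
  · rw [Equiv.symm_apply_eq] at h6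
    exact h3 r i h4 h5 h6

/-- It is enough to consider colourings of the classes in which the colours of the first `f` classes
appear in order. -/
theorem ConfK.red_of_rg (C : ConfK a L k) (f : ℕ) (hf : f ≤ k)
    (h : ∀ c m, C.State c m → RG 0 (List.ofFn fun i : Fin f => (c ⟨i.val, by omega⟩).val) →
      ∃ d, C.Ext (fun r => c (C.cls r)) m d) : C.Red := by
  intro c m hs
  obtain ⟨σ, -, h1⟩ := exists_perm (List.ofFn fun i : Fin f => c ⟨i.val, by omega⟩) 0 1
  rw [List.map_ofFn] at h1
  obtain ⟨d, hd⟩ := h (fun A => σ (c A)) m (hs.perm σ) h1
  exact ⟨_, hd.perm σ⟩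

end

/-! ### Configurations -/

/-- The forbidden patterns with last inner vertex `i`, as in `Lev`, but `B` is grouped by the inner
vertex `j`. -/
structure FLev where
  /-- pairs of inner vertices -/
  A : List (ℕ × ℕ)
  /-- an inner vertex and classes -/
  B : List (ℕ × List ℕ)
  /-- pairs of classes -/
  C : List (ℕ × ℕ)
  /-- ring vertices -/
  E : List ℕ

/-- A configuration: `a` inner vertices, `L` ring vertices, `kp + 1` classes (vertices of the
quotient); the lists of edges contain every pair in both orders. The colours of the first `f`
classes are fixed in the outer loop. -/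
structure FData where
  /-- number of inner vertices -/
  a : ℕ
  /-- number of ring vertices -/
  L : ℕ
  /-- number of classes, minus one -/
  kp : ℕ
  /-- number of classes of the outer loop -/
  f : ℕ
  /-- edges between inner vertices -/
  inn : List (ℕ × ℕ)
  /-- edges between inner vertices and ring vertices -/
  mix : List (ℕ × ℕ)
  /-- the class of a ring vertex -/
  cl : List ℕ
  /-- new edges, as pairs of classes -/
  chq : List (ℕ × ℕ)
  /-- edges of the ring -/
  rng : List (ℕ × ℕ)
  /-- forbidden patterns -/
  lev : List FLev

/-- The pair is in the grouped list. -/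
def memB (j c : ℕ) : List (ℕ × List ℕ) → Bool
  | [] => false
  | p :: l => bif (bif Nat.beq p.1 j then mem1 c p.2 else false) then true else memB j c l

/-- Union over a grouped list. -/
def orB (g : ℕ → Bool) (F : ℕ → ℕ) : List (ℕ × List ℕ) → ℕ
  | [] => 0
  | p :: l => bif g p.1 then Nat.lor (or1 F p.2) (orB g F l) else orB g F l

theorem orB_of_mem (g : ℕ → Bool) (F : ℕ → ℕ) (l : List (ℕ × List ℕ)) (j c idx : ℕ)
    (h : memB j c l = true) (hg : g j = true) (hF : (F c).testBit idx = true) :
    (orB g F l).testBit idx = true := by
  induction l with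
  | nil =>
    rw [memB] at h
    exact absurd h (by decide)
  | cons p l ih =>
    obtain ⟨p1, p2⟩ := p
    rw [memB] at h
    change (bif (bif Nat.beq p1 j then mem1 c p2 else false) then true else memB j c l) = true at h
    rw [orB]
    change (bif g p1 then Nat.lor (or1 F p2) (orB g F l) else orB g F l).testBit idx = true
    cases h1 : Nat.beq p1 j with
    | false =>
      rw [h1, cond_false, cond_false] at h
      cases h2 : g p1 with
      | false =>
        rw [cond_false]
        exact ih h
      | true =>
        rw [cond_true]
        change (or1 F p2 ||| orB g F l).testBit idx = true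
        rw [Nat.testBit_or, ih h, Bool.or_true]
    | true =>
      have h2 := (CData.beq_iff _ _).1 h1
      subst h2
      rw [hg, cond_true]
      change (or1 F p2 ||| orB g F l).testBit idx = true
      rw [Nat.testBit_or]
      cases h3 : mem1 c p2 with
      | false =>
        rw [h1, h3, cond_true, cond_false] at h
        rw [ih h, Bool.or_true]
      | true =>
        have h4 : (or1 F p2).testBit idx = true :=
          (testBit_or1 F p2 idx).2 ⟨c, (mem1_iff _ _).1 h3, hF⟩
        rw [h4, Bool.true_or]

namespace FData

variable (D : FData)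

/-- The number of classes. -/
def k : ℕ := D.kp + 1

/-- The number of classes with variable colours. -/
def n : ℕ := D.k - D.f

/-- The class of the ring vertex `r`. -/
def q (r : ℕ) : ℕ := nth D.cl r

/-- The configuration. -/
def conf : ConfK D.a D.L (D.kp + 1) where
  inn i j := mem2 i j D.inn
  mix i r := mem2 i r D.mix
  cls r := Fin.ofNat (D.kp + 1) (D.q r)
  chd A B := mem2 A B D.chq
  rng r s := mem2 r s D.rng

/-- The members of the class `c`. -/
def mem (c : ℕ) : List ℕ := (List.range D.L).filter fun r => Nat.beq (D.q r) c

/-- The colourings in which the class `c` has the colour `t`. -/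
def M (pre : List ℕ) (c t : ℕ) : ℕ :=
  bif Nat.blt c D.f then (bif Nat.beq (nth pre c) t then fullSet D.n else 0)
  else msk D.n (c - D.f) t

/-- The colourings in which the classes `c`, `c'` have the same colour. -/
def mono (pre : List ℕ) (c c' : ℕ) : ℕ :=
  Nat.lor (Nat.lor (Nat.land (D.M pre c 0) (D.M pre c' 0)) (Nat.land (D.M pre c 1) (D.M pre c' 1)))
    (Nat.lor (Nat.land (D.M pre c 2) (D.M pre c' 2)) (Nat.land (D.M pre c 3) (D.M pre c' 3)))

/-- The colourings of the classes which are possible if only members of `p` are saturated. -/
def start (pre p : List ℕ) : ℕ :=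
  Nat.xor (fullSet D.n) (Nat.lor
    (Nat.lor
      (or2 (fun r s => bif mem1 r p then 0 else D.mono pre (D.q r) (D.q s)) D.rng)
      (or2 (fun r s => or2 (fun r' s' => bif (bif Nat.beq r r' then Nat.beq s s' else true) then 0
        else Nat.land (D.mono pre (D.q r) (D.q s)) (D.mono pre (D.q r') (D.q s'))) D.rng) D.rng))
    (Nat.lor
      (or2 (fun A B => or2 (fun A' B' => bif (bif Nat.beq A A' then Nat.beq B B' else true) then 0
        else Nat.land (D.mono pre A B) (D.mono pre A' B')) D.chq) D.chq)
      (or2 (fun A B => or2 (fun r' s' => bif Nat.beq A (D.q r') then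
        Nat.land (D.mono pre A B) (D.mono pre (D.q r') (D.q s')) else 0) D.rng) D.chq)))

/-- The colourings in which `r` has the colour `t` and may be saturated. -/
def lock (pre p : List ℕ) (r t : ℕ) : ℕ :=
  bif mem1 r p then Nat.land (D.M pre (D.q r) t) (Nat.xor (fullSet D.n)
    (or2 (fun A B => bif Nat.beq A (D.q r) then D.mono pre A B else 0) D.chq))
  else 0

/-- The part of `exc` which does not depend on the other inner vertices. -/
def excCE (pre p : List ℕ) (lv : FLev) (t : ℕ) : ℕ :=
  Nat.lor (or2 (fun c c' => Nat.land (D.M pre c t) (D.M pre c' t)) lv.C)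
    (or1 (fun r => D.lock pre p r t) lv.E)

/-- The colourings excluded by the choice of the colour `t`. -/
def exc (pre p : List ℕ) (lv : FLev) (code t : ℕ) : ℕ :=
  Nat.lor
    (Nat.lor (bif CData.anyA code t lv.A then fullSet D.n else 0)
      (orB (fun j => Nat.beq (sdg code j) t) (fun c => D.M pre c t) lv.B))
    (D.excCE pre p lv t)

/-- The forbidden patterns with last vertex `i`. -/
def levAt : List FLev → ℕ → FLev
  | [], _ => ⟨[], [], [], []⟩
  | x :: _, 0 => x
  | _ :: l, n + 1 => levAt l n

/-- The lists are complete. -/
def wf : Bool :=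
  Nat.beq D.lev.length D.a && Nat.ble D.f D.k &&
    (List.range D.L).all (fun r => Nat.blt (D.q r) D.k) &&
    all2 (fun r s => Nat.blt r D.L && Nat.blt s D.L && mem2 s r D.rng) D.rng &&
    all2 (fun A B => Nat.blt A D.k && Nat.blt B D.k && mem2 B A D.chq) D.chq &&
    all2 (fun i j => Nat.blt i D.a && Nat.blt j D.a && mem2 j i D.inn && !Nat.beq i j) D.inn &&
    all2 (fun i r => Nat.blt i D.a && Nat.blt r D.L && mem1 r (levAt D.lev i).E) D.mix &&
    all2 (fun i j => all2 (fun i' j' => bif Nat.beq i i' && Nat.blt j j' then
      (bif Nat.blt i j' then CData.memS i j (levAt D.lev j').A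
        else CData.memS j j' (levAt D.lev i).A)
      else true) D.inn) D.inn &&
    all2 (fun i j => all2 (fun i' r => bif Nat.beq i i' then
      (bif Nat.blt j i then memB j (D.q r) (levAt D.lev i).B
        else memB i (D.q r) (levAt D.lev j).B)
      else true) D.mix) D.inn &&
    all2 (fun i r => all2 (fun i' r' => bif Nat.beq r r' && Nat.blt i i' then
      memB i (D.q r) (levAt D.lev i').B else true) D.mix) D.mix &&
    all2 (fun i r => all2 (fun i' r' => bif Nat.beq i i' && Nat.blt r r' then
      CData.memS (D.q r) (D.q r') (levAt D.lev i).C else true) D.mix) D.mix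

/-- The check for given colours of the first classes. -/
def check1 (pre : List ℕ) : Bool :=
  CData.allL (fun p => Nat.beq (fce (D.start pre p) fun R => dfs (D.exc pre p) D.lev 0 0 0 R) 0)
    (pats ((List.range D.k).map D.mem))

/-- The check. -/
def check : Bool := D.wf && allR D.check1 D.f 0 []

end FData

end Pool.Agent.W986
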