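import Pool.Agent.W986.SubFast47

/-!
# Configurations: the fast check in parts

The search of `KData.checkF` is cut into parts: a part is a choice of the saturated vertices of the
ring and of the colours of the first `s` classes. The parts can be checked by separate theorems.
-/

set_option autoImplicit false

namespace Pool.Agent.W986

namespace SubF

/-- The number of names of colours in use, when the colour `t` is used. -/
def nxt (t u : ℕ) : ℕ := bif Nat.beq t 3 then 4 else bif Nat.beq t u then Nat.succ t else u

/-- The colours at most `u`. -/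
def cols (u : ℕ) : List ℕ :=
  bif Nat.beq u 0 then [0] else bif Nat.beq u 1 then [0, 1] else
    bif Nat.beq u 2 then [0, 1, 2] else [0, 1, 2, 3]

/-- The colourings of `s` classes, up to the names of the colours. -/
def paths : ℕ → ℕ → List (List ℕ)
  | 0, _ => [[]]
  | s + 1, u => (cols u).flatMap fun t => (paths s (nxt t u)).map fun q => t :: q

end SubF

open SubF

namespace KData

variable (D : KData) (F : FData)

/-- The part of the search with the colours `q` of the first classes. -/
noncomputable def goC (p q : List ℕ) : List Row → ℕ → ℕ → ℕ → ℕ → Bool :=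
  List.rec (motive := fun _ => List Row → ℕ → ℕ → ℕ → ℕ → Bool)
    (fun rows n u w A => D.goF F p rows n u w A)
    (fun t _ ih rows n u w A =>
      @List.rec Row (fun _ => Bool) false
        (fun row rows' _ => D.branch F p row (ih rows') n w A t (nxt t u)) rows)
    q

/-- All the parts. -/
def jobs (s : ℕ) : List (List ℕ × List ℕ) :=
  (pats ((List.range D.k).map D.mem)).flatMap fun p => (paths s 0).map fun q => (p, q)

/-- The parts in a list are checked. -/
noncomputable def runJ (l : List (List ℕ × List ℕ)) : Bool :=
  @List.rec (List ℕ × List ℕ) (fun _ => Bool) true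
    (fun j _ ih => bif D.goC F j.1 j.2 F.rows 0 0 0 (D.A0 F) then ih else false) l

/-- The parts with the numbers from `a` on, smaller than `b`, are checked. -/
noncomputable def part (s a b : ℕ) : Bool := D.runJ F (((D.jobs s).drop a).take (b - a))

/-- The parts with the numbers from `a` on, smaller than `b`, are correct. -/
def Parts (s a b : ℕ) : Prop := ∀ i, a ≤ i → i < b → ∀ j, (D.jobs s)[i]? = some j →
  D.goC F j.1 j.2 F.rows 0 0 0 (D.A0 F) = true

theorem Parts.nil (s a : ℕ) : D.Parts F s a a := fun _ h1 h2 => absurd h2 (Nat.not_lt.2 h1)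

theorem runJ_iff (l : List (List ℕ × List ℕ)) (h : D.runJ F l = true) :
    ∀ j ∈ l, D.goC F j.1 j.2 F.rows 0 0 0 (D.A0 F) = true := by
  induction l with
  | nil => intro j hj; cases hj
  | cons x l ih =>
    change (bif D.goC F x.1 x.2 F.rows 0 0 0 (D.A0 F) then D.runJ F l else false) = true at h
    cases hx : D.goC F x.1 x.2 F.rows 0 0 0 (D.A0 F) with
    | true =>
      rw [hx, cond_true] at h
      intro j hj
      rcases List.mem_cons.1 hj with rfl | hj
      · exact hx
      · exact ih h j hj
    | false =>
      rw [hx, cond_false] at h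
      exact absurd h Bool.false_ne_true

variable {D F}

theorem Parts.add {s a b c : ℕ} (h : D.Parts F s a b) (h' : D.part F s b c = true) :
    D.Parts F s a c := by
  intro i h1 h2 j hj
  rcases Nat.lt_or_ge i b with h3 | h3
  · exact h i h1 h3 j hj
  · refine D.runJ_iff F _ h' j ?_
    refine List.mem_of_getElem? (i := i - b) ?_
    rw [List.getElem?_take, if_pos (by omega), List.getElem?_drop, Nat.add_sub_cancel' h3]
    exact hj

theorem Parts.join {s a b c : ℕ} (h : D.Parts F s a b) (h' : D.Parts F s b c) :
    D.Parts F s a c := by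
  intro i h1 h2 j hj
  rcases Nat.lt_or_ge i b with h3 | h3
  · exact h i h1 h3 j hj
  · exact h' i h3 h2 j hj

theorem cols_zero (u : ℕ) : 0 ∈ cols u := by
  rcases u with _ | _ | _ | u
  · exact (List.mem_cons_self : 0 ∈ [0])
  · exact (List.mem_cons_self : 0 ∈ [0, 1])
  · exact (List.mem_cons_self : 0 ∈ [0, 1, 2])
  · exact (List.mem_cons_self : 0 ∈ [0, 1, 2, 3])

theorem four_of (br : ℕ → ℕ → Bool) (u : ℕ) (h : ∀ t ∈ cols u, br t (nxt t u) = true) :
    four br u = true := by
  rcases u with _ | _ | _ | u
  · have h0 : br 0 1 = true := h 0 (cols_zero _)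
    change (bif br 0 1 then true else false) = true
    rw [h0]
    rfl
  · have hc : ∀ t ∈ [0, 1], br t (nxt t 1) = true := h
    have h0 : br 0 1 = true := hc 0 (by simp)
    have h1 : br 1 2 = true := hc 1 (by simp)
    change (bif br 0 1 then (bif br 1 2 then true else false) else false) = true
    rw [h0, h1]
    rfl
  · have hc : ∀ t ∈ [0, 1, 2], br t (nxt t 2) = true := h
    have h0 : br 0 2 = true := hc 0 (by simp)
    have h1 : br 1 2 = true := hc 1 (by simp)
    have h2 : br 2 3 = true := hc 2 (by simp)
    change (bif br 0 2 then (bif br 1 2 then (bif br 2 3 then true else false) else false)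
      else false) = true
    rw [h0, h1, h2]
    rfl
  · have hc : ∀ t ∈ [0, 1, 2, 3], br t (nxt t (u + 3)) = true := h
    have h0 : br 0 (u + 3) = true := hc 0 (by simp)
    have h1 : br 1 (u + 3) = true := hc 1 (by simp)
    have h2 : br 2 (u + 3) = true := hc 2 (by simp)
    have h3 : br 3 4 = true := hc 3 (by simp)
    rw [four]
    cases hb0 : Nat.beq 0 (u + 3) with
    | true => exact absurd (Nat.eq_of_beq_eq_true hb0) (by omega)
    | false =>
      cases hb1 : Nat.beq 1 (u + 3) with
      | true => exact absurd (Nat.eq_of_beq_eq_true hb1) (by omega)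
      | false =>
        cases hb2 : Nat.beq 2 (u + 3) with
        | true => exact absurd (Nat.eq_of_beq_eq_true hb2) (by omega)
        | false =>
          rw [cond_false, cond_false, cond_false, h0, h1, h2, h3]
          cases Nat.ble (u + 3) 0 <;> cases Nat.ble (u + 3) 1 <;> cases Nat.ble (u + 3) 2 <;> rfl

theorem paths_ne (s u : ℕ) : paths s u ≠ [] := by
  induction s generalizing u with
  | zero => simp [paths]
  | succ s ih =>
    intro h
    rw [paths, List.flatMap_eq_nil_iff] at h
    exact ih _ (List.map_eq_nil_iff.1 (h 0 (cols_zero u)))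

theorem goF_of_paths (p : List ℕ) (s : ℕ) : ∀ rows n u w A,
    (∀ q ∈ paths s u, D.goC F p q rows n u w A = true) → D.goF F p rows n u w A = true := by
  induction s with
  | zero =>
    intro rows n u w A h
    exact h [] (by simp [paths])
  | succ s ih =>
    intro rows n u w A h
    have h0 : ∀ t ∈ cols u, ∀ q ∈ paths s (nxt t u), D.goC F p (t :: q) rows n u w A = true := by
      intro t ht q hq
      exact h _ (List.mem_flatMap.2 ⟨t, ht, List.mem_map.2 ⟨q, hq, rfl⟩⟩)
    cases rows with
    | nil =>
      exfalso
      obtain ⟨q, hq⟩ := List.exists_mem_of_ne_nil _ (paths_ne s (nxt 0 u))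
      exact Bool.false_ne_true (h0 0 (cols_zero u) q hq)
    | cons row rows =>
      change four (fun t u' => D.branch F p row (D.goF F p rows) n w A t u') u = true
      refine four_of _ u fun t ht => ?_
      have h1 : ∀ q ∈ paths s (nxt t u),
          D.branch F p row (D.goC F p q rows) n w A t (nxt t u) = true := h0 t ht
      rw [branch, fce_eq]
      cases htst : anyT (D.hold p (w + t * 4 ^ n)) row.ts with
      | true => rfl
      | false =>
        rw [cond_false]
        refine ih rows _ _ _ _ fun q hq => ?_
        have h2 := h1 q hq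
        rw [branch, fce_eq, htst, cond_false] at h2
        exact h2

/-- **The configuration is checked, if all parts are.** -/
theorem checkF_of_parts {s n : ℕ} (h : D.wfF F = true) (h' : D.Parts F s 0 n)
    (hn : Nat.ble (D.jobs s).length n = true) : D.checkF F = true := by
  rw [checkF, h, Bool.true_and]
  have key : ∀ l : List (List ℕ), (∀ p ∈ l, D.goF F p F.rows 0 0 0 (D.A0 F) = true) →
      CData.allL (fun p => D.goF F p F.rows 0 0 0 (D.A0 F)) l = true := by
    intro l
    induction l with
    | nil => intro _; rfl
    | cons p l ih =>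
      intro h1
      rw [CData.allL, h1 p List.mem_cons_self, cond_true]
      exact ih fun p' hp' => h1 p' (List.mem_cons_of_mem _ hp')
  refine key _ fun p hp => goF_of_paths p s _ _ _ _ _ fun q hq => ?_
  have h1 : (p, q) ∈ D.jobs s := List.mem_flatMap.2 ⟨p, hp, List.mem_map.2 ⟨q, hq, rfl⟩⟩
  obtain ⟨i, hi, hi'⟩ := List.getElem_of_mem h1
  refine h' i (Nat.zero_le _) ?_ (p, q) ?_
  · exact Nat.lt_of_lt_of_le hi (Nat.le_of_ble_eq_true hn)
  · rw [List.getElem?_eq_getElem hi, hi']

end KData

end Pool.Agent.W986
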