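import Pool.Agent.W986.SubLeavesB

/-!
# Numerical leaves, fast version: the Boolean functions

A mask `N` (the bit number `v` is 1 if the vertex `v` has not degree 4) and a table `T` with fields
of 6 bits (the charge of the vertex `v` is at most `4 - fld T v`) are computed once for a patch.
`wl u` is a further lower bound for the sum of the weights of the neighbours of `u`.
-/

set_option autoImplicit false

namespace Pool.Agent.W986.ST.LQ

open Pool.Agent.W986.ST.LB

/-- The field number `v`. -/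
def fld (T v : ℕ) : ℕ := Nat.land (Nat.shiftRight T (Nat.mul 6 v)) 63

/-- Raise the field number `v` to `x`. -/
def raise (T v x : ℕ) : ℕ :=
  frc (fld T v) fun c => frc x fun x => cf (Nat.blt c x) (cf (Nat.ble x 63)
    (Nat.xor T (Nat.shiftLeft (Nat.xor c x) (Nat.mul 6 v))) T) T

/-- Is the bit number `z` equal to 0? -/
def bit0 (N z : ℕ) : Bool := Nat.beq (Nat.land (Nat.shiftRight N z) 1) 0

/-- The mask from the known rotations. -/
def mskL (k : ℕ → Bool) (l : List (ℕ × List ℕ)) : ℕ → Bool :=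
  @List.rec (ℕ × List ℕ) (fun _ => ℕ → Bool) k
    (fun p _ ih N => @Prod.rec ℕ (List ℕ) (fun _ => Bool) (fun v l =>
      cf (Nat.beq (len l) 4) (ih N) (frc (Nat.lor N (Nat.shiftLeft 1 v)) ih)) p) l

/-- The mask from the entries which are at least `t`. -/
def mskB (t : ℕ) (k : ℕ → Bool) (l : List (ℕ × ℕ)) : ℕ → Bool :=
  @List.rec (ℕ × ℕ) (fun _ => ℕ → Bool) k
    (fun p _ ih N => @Prod.rec ℕ ℕ (fun _ => Bool) (fun v b =>
      cf (Nat.ble t b) (frc (Nat.lor N (Nat.shiftLeft 1 v)) ih) (ih N)) p) l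

/-- The number of the possible vertices of degree 4 in a list. -/
def c4 (N : ℕ) (l : List ℕ) : ℕ :=
  @List.rec ℕ (fun _ => ℕ) 0 (fun z _ ih => cf (bit0 N z) (Nat.succ ih) ih) l

/-- The number of the vertices in a list which have degree 4. -/
def s4 (lk : List (ℕ × List ℕ)) (l : List ℕ) : ℕ :=
  @List.rec ℕ (fun _ => ℕ) 0 (fun z _ ih => cf (Nat.beq (len (findL lk z)) 4) (Nat.succ ih) ih) l

/-- The entry of the table from a rotation. -/
def xL (N : ℕ) (l : List ℕ) : ℕ :=
  frc (len l) fun d => cf (Nat.beq d 4) 4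
    (Nat.sub (Nat.mul 2 d) (Nat.add 8 (mn (c4 N l) (Nat.div d 2))))

/-- The entry of the table from a lower bound for the degree. -/
def xB (b : ℕ) : ℕ := frc (mn b 12) fun t => Nat.sub (Nat.mul 2 t) (Nat.add 8 (Nat.div t 2))

/-- The table from the known rotations. -/
def tabL (N : ℕ) (k : ℕ → Bool) (l : List (ℕ × List ℕ)) : ℕ → Bool :=
  @List.rec (ℕ × List ℕ) (fun _ => ℕ → Bool) k
    (fun p _ ih T => @Prod.rec ℕ (List ℕ) (fun _ => Bool) (fun v l =>
      frc (raise T v (xL N l)) ih) p) l

/-- The table from the lower bounds for the degrees. -/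
def tabB (k : ℕ → Bool) (l : List (ℕ × ℕ)) : ℕ → Bool :=
  @List.rec (ℕ × ℕ) (fun _ => ℕ → Bool) k
    (fun p _ ih T => @Prod.rec ℕ ℕ (fun _ => Bool) (fun v b =>
      cf (Nat.ble b 5) (ih T) (frc (raise T v (xB b)) ih)) p) l

/-- The table from the upper bounds for the charges. -/
def tabK (k : ℕ → Bool) (l : List (ℕ × ℕ)) : ℕ → Bool :=
  @List.rec (ℕ × ℕ) (fun _ => ℕ → Bool) k
    (fun p _ ih T => @Prod.rec ℕ ℕ (fun _ => Bool) (fun v c =>
      frc (raise T v (Nat.add c 4)) ih) p) l

/-- Compute the mask and the table and continue. -/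
def table (P : Patch) (k : ℕ → ℕ → Bool) : Bool :=
  mskL (mskB 5 (mskB 1 (fun N => tabL N (tabB (tabK (k N) P.kb) P.lb) P.lk 0) P.kb) P.lb) P.lk 0

/-- An upper bound for a charge contradicts the known rotation. -/
def conB (lk : List (ℕ × List ℕ)) (l : List (ℕ × ℕ)) : Bool :=
  @List.rec (ℕ × ℕ) (fun _ => Bool) false
    (fun p _ ih => @Prod.rec ℕ ℕ (fun _ => Bool) (fun v c =>
      frcH (findL lk v) fun l => cf (nil l) ih
        (frc (len l) fun d => cf (Nat.beq d 4) (cf (Nat.beq c 0) ih true)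
          (cf (Nat.blt (Nat.mul 2 d) (Nat.add 12 c)) true
            (cf (Nat.blt (Nat.sub (Nat.mul 2 d) (Nat.div d 2)) (Nat.add 12 c))
              (cf (Nat.blt (Nat.sub (Nat.mul 2 d) (s4 lk l)) (Nat.add 12 c)) true ih) ih)))) p) l

/-- A lower bound for a charge contradicts the table. -/
def con (T : ℕ) (l : List (ℕ × ℕ)) : Bool :=
  @List.rec (ℕ × ℕ) (fun _ => Bool) false
    (fun p _ ih => @Prod.rec ℕ ℕ (fun _ => Bool) (fun v c =>
      cf (Nat.ble (Nat.add 4 c) (fld T v)) true ih) p) l

/-- A lower bound for the sum of the weights, `w` if the rotation is not known. -/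
def sw (T w : ℕ) (l : List ℕ) : ℕ :=
  cf (nil l) w (@List.rec ℕ (fun _ => ℕ) 0
    (fun y _ ih => Nat.add (mn (Nat.sub (fld T y) 4) 4) ih) l)

/-- Check `num / den + (sum over the list) ≤ K / M`. -/
def sumQ (wl : ℕ → ℕ) (ctr : ℕ → Bool) (lk : List (ℕ × List ℕ)) (T K M : ℕ) (l : List ℕ) :
    ℕ → ℕ → Bool :=
  @List.rec ℕ (fun _ => ℕ → ℕ → Bool)
    (fun num den => Nat.ble (Nat.mul num M) (Nat.mul K den))
    (fun u _ ih num den =>
      @Nat.rec (fun _ => Bool) (ih num den) (fun p _ =>
        @Nat.rec (fun _ => Bool) false (fun b _ =>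
          frc (cf (ctr u) p (Nat.succ p)) fun a =>
            frc (Nat.add (Nat.mul num (Nat.succ b)) (Nat.mul a den)) fun num =>
              frc (Nat.mul den (Nat.succ b)) fun den => ih num den)
          (mx (sw T M (findL lk u)) (wl u))) (Nat.sub 4 (fld T u))) l

/-- An upper bound for the number of the vertices of degree 4 which give more to the hub. -/
def exQ (P : Patch) (N : ℕ) (l : List ℕ) : ℕ :=
  frc (len l) fun d =>
    @Nat.rec (fun _ => ℕ) 0 (fun i ih => frc (lnth l i) fun m =>
      cf (an (bit0 N m) (an (mayD P 7 13 (lnth l (Nat.mod (Nat.add i 1) d)))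
        (an (mayD P 7 13 (lnth l (Nat.mod (Nat.add i (Nat.sub d 1)) d))) (mayM P m))))
        (Nat.succ ih) ih) d

/-- The inequality at the hub. -/
def hub (wl : ℕ → ℕ) (P : Patch) (N T : ℕ) : Bool :=
  frcH (findL P.lk 0) fun l => cf (nil l) false
    (frc (Nat.sub (fld T 0) 4) fun K => frc (exQ P N l) fun e =>
      cf (Nat.beq K 0)
        (cf (Nat.ble (lo P 0) 12) (cf (Nat.beq e 0)
          (cf (Nat.beq (fld T 0) 4) true (Nat.blt 0 (sw T 0 l))) false) false)
        (frc (mn K 4) fun M => cf (Nat.ble e K)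
          (cf (sumQ wl (fun _ => false) P.lk T (Nat.sub K e) M l 0 1) true
            (sumQ wl (ctrU P) P.lk T (Nat.sub K e) M l 0 1)) false))

/-- The fast leaf for the hub. -/
def fB (wl : ℕ → ℕ) (P : Patch) : Bool :=
  cf (conB P.lk P.kb) true (table P fun N T => cf (con T P.kg) true (hub wl P N T))

/-- The fast leaf for patches which do not occur. -/
def fI (P : Patch) : Bool :=
  cf (conB P.lk P.kb) true (table P fun _ T => con T P.kg)

end Pool.Agent.W986.ST.LQ

namespace Pool.Agent.W986.ST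

/-- The leaf for impossible patches, fast version first. -/
def lIq (P : Patch) : Bool := cf (LQ.fI P) true (lI P)

/-- The leaf for the inequality at the hub, fast version first. -/
def lFq (P : Patch) : Bool := cf (LQ.fB (fun _ => 0) P) true (lF P)

end Pool.Agent.W986.ST
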