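import Pool.Agent.W986.SubLeaves
import Pool.Agent.W986.SubFastLB

/-!
# Numerical leaves, fast version: correctness
-/

set_option autoImplicit false

open Finset

namespace Pool.Agent.W986.ST.LQ

open Pool.Agent.W986.ST Pool.Agent.W986.ST.LB

/-! ### The fields -/

section bits
theorem fld_def (T v : ℕ) : fld T v = (T >>> (6 * v)) &&& 63 := rfl

theorem testBit_fld (T v j : ℕ) : (fld T v).testBit j = (T.testBit (6 * v + j) && decide (j < 6)) := by
  rw [fld_def, Nat.testBit_and, Nat.testBit_shiftRight]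
  congr 1
  rw [show (63 : ℕ) = 2 ^ 6 - 1 from rfl, Nat.testBit_two_pow_sub_one]

theorem fld_le (T v : ℕ) : fld T v ≤ 63 := by
  rw [fld_def]
  exact Nat.and_le_right

theorem testBit_big {c j : ℕ} (h : c ≤ 63) (hj : 6 ≤ j) : c.testBit j = false := by
  apply Nat.testBit_lt_two_pow
  calc c < 2 ^ 6 := by omega
    _ ≤ 2 ^ j := Nat.pow_le_pow_right (by norm_num) hj

theorem raise_def (T v x : ℕ) : raise T v x =
    cf (Nat.blt (fld T v) x) (cf (Nat.ble x 63)
      (T ^^^ ((fld T v ^^^ x) <<< (6 * v))) T) T := by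
  rw [raise, frc_eq, frc_eq]
  rfl

theorem fld_raise (T v x w : ℕ) :
    fld (raise T v x) w = fld T w ∨ (w = v ∧ fld (raise T v x) w = x) := by
  rw [raise_def]
  cases h1 : Nat.blt (fld T v) x with
  | false => exact Or.inl rfl
  | true =>
    cases h2 : Nat.ble x 63 with
    | false => exact Or.inl rfl
    | true =>
      have hx : x ≤ 63 := Nat.le_of_ble_eq_true h2
      rw [cf_true, cf_true]
      by_cases hw : w = v
      · refine Or.inr ⟨hw, ?_⟩
        subst hw
        apply Nat.eq_of_testBit_eq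
        intro j
        rw [testBit_fld, Nat.testBit_xor, Nat.testBit_shiftLeft, Nat.testBit_xor,
          Nat.add_sub_cancel_left, testBit_fld]
        by_cases hj : j < 6
        · simp [hj]
        · rw [testBit_big hx (by omega)]
          simp [hj]
      · refine Or.inl ?_
        apply Nat.eq_of_testBit_eq
        intro j
        rw [testBit_fld, testBit_fld, Nat.testBit_xor, Nat.testBit_shiftLeft, Nat.testBit_xor]
        by_cases hj : j < 6
        · by_cases hge : 6 * v ≤ 6 * w + j
          · have hb : 6 ≤ 6 * w + j - 6 * v := by omega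
            rw [testBit_big (fld_le T v) hb, testBit_big hx hb]
            simp
          · simp [hge]
        · simp [hj]

theorem bit0_def (N z : ℕ) : bit0 N z = !(N.testBit z) := by
  have h : Nat.beq ((N >>> z) &&& 1) 0 = ((N >>> z) &&& 1 == 0) := by
    rw [Bool.eq_iff_iff, Nat.beq_eq, beq_iff_eq]
  rw [Nat.testBit, bne, Bool.not_not, Nat.and_comm 1]
  exact h

theorem bit0_lor {N v z : ℕ} (h : bit0 (Nat.lor N (Nat.shiftLeft 1 v)) z = false) :
    bit0 N z = false ∨ z = v := by
  rw [bit0_def] at h ⊢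
  have h' : (N ||| (1 <<< v)).testBit z = true := by
    have h2 : (!((N ||| (1 <<< v)).testBit z)) = false := h
    cases h3 : (N ||| (1 <<< v)).testBit z with
    | true => rfl
    | false => rw [h3] at h2; exact absurd h2 (by decide)
  rw [Nat.testBit_or, Nat.testBit_shiftLeft] at h'
  by_cases hz : z = v
  · exact Or.inr hz
  · left
    have h1 : (decide (v ≤ z) && (1 : ℕ).testBit (z - v)) = false := by
      by_cases hv : v ≤ z
      · have : (1 : ℕ).testBit (z - v) = false := by
          rw [show (1 : ℕ) = 2 ^ 0 from rfl]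
          rw [Nat.testBit_two_pow]
          simp
          omega
        rw [this, Bool.and_false]
      · simp [hv]
    have h2 : (decide (z ≥ v) && (1 : ℕ).testBit (z - v)) = false := h1
    rw [h2, Bool.or_false] at h'
    rw [h', Bool.not_true]

theorem fld_zero (v : ℕ) : fld 0 v = 0 := by
  apply Nat.eq_of_testBit_eq
  intro j
  rw [testBit_fld, Nat.zero_testBit, Bool.false_and, Nat.zero_testBit]

theorem bit0_zero (z : ℕ) : bit0 0 z = true := by
  rw [bit0_def, Nat.zero_testBit]
  rfl

theorem bit0_lor_iff (N v z : ℕ) :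
    bit0 (Nat.lor N (Nat.shiftLeft 1 v)) z = false ↔ bit0 N z = false ∨ z = v := by
  refine ⟨bit0_lor, fun h => ?_⟩
  rw [bit0_def] at h ⊢
  have key : (N ||| (1 <<< v)).testBit z = true := by
    rw [Nat.testBit_or, Nat.testBit_shiftLeft]
    rcases h with h | h
    · cases h3 : N.testBit z with
      | true => rfl
      | false => rw [h3] at h; exact absurd h (by decide)
    · subst h
      simp
  show (!((N ||| (1 <<< v)).testBit z)) = false
  rw [key]
  rfl

end bits

/-! ### The mask and the table -/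

section table

/-- `c4` with the mask -/
theorem c4_consQ (N z : ℕ) (l : List ℕ) :
    c4 N (z :: l) = cf (bit0 N z) (Nat.succ (c4 N l)) (c4 N l) := rfl

theorem mskL_cons (k : ℕ → Bool) (v : ℕ) (m : List ℕ) (l : List (ℕ × List ℕ)) (N : ℕ) :
    mskL k ((v, m) :: l) N = cf (Nat.beq (len m) 4) (mskL k l N)
      (mskL k l (Nat.lor N (Nat.shiftLeft 1 v))) := by
  show cf (Nat.beq (len m) 4) (mskL k l N)
    (frc (Nat.lor N (Nat.shiftLeft 1 v)) (mskL k l)) = _
  rw [frc_eq]

theorem mskB_cons (t : ℕ) (k : ℕ → Bool) (v b : ℕ) (l : List (ℕ × ℕ)) (N : ℕ) :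
    mskB t k ((v, b) :: l) N = cf (Nat.ble t b) (mskB t k l (Nat.lor N (Nat.shiftLeft 1 v)))
      (mskB t k l N) := by
  show cf (Nat.ble t b) (frc (Nat.lor N (Nat.shiftLeft 1 v)) (mskB t k l)) (mskB t k l N) = _
  rw [frc_eq]

theorem tabL_cons (N : ℕ) (k : ℕ → Bool) (v : ℕ) (m : List ℕ) (l : List (ℕ × List ℕ)) (T : ℕ) :
    tabL N k ((v, m) :: l) T = tabL N k l (raise T v (xL N m)) := by
  show frc (raise T v (xL N m)) (tabL N k l) = _
  rw [frc_eq]

theorem tabB_cons (k : ℕ → Bool) (v b : ℕ) (l : List (ℕ × ℕ)) (T : ℕ) :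
    tabB k ((v, b) :: l) T = cf (Nat.ble b 5) (tabB k l T) (tabB k l (raise T v (xB b))) := by
  show cf (Nat.ble b 5) (tabB k l T) (frc (raise T v (xB b)) (tabB k l)) = _
  rw [frc_eq]

theorem tabK_cons (k : ℕ → Bool) (v c : ℕ) (l : List (ℕ × ℕ)) (T : ℕ) :
    tabK k ((v, c) :: l) T = tabK k l (raise T v (Nat.add c 4)) := by
  show frc (raise T v (Nat.add c 4)) (tabK k l) = _
  rw [frc_eq]

variable {V : Type} {E : Env V} {P : Patch} {f : ℕ → V}

/-- The mask is correct. -/
def MOK (E : Env V) (f : ℕ → V) (N : ℕ) : Prop := ∀ z, bit0 N z = false → E.D (f z) ≠ 4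

/-- The table is correct. -/
def TOK (E : Env V) (f : ℕ → V) (T : ℕ) : Prop := ∀ v, E.kap (f v) ≤ 4 - (fld T v : ℤ)

theorem MOK.zero : MOK E f 0 := by
  intro z hz
  rw [bit0_zero] at hz
  exact absurd hz (by decide)

theorem MOK.lor {N v : ℕ} (h : MOK E f N) (hv : E.D (f v) ≠ 4) :
    MOK E f (Nat.lor N (Nat.shiftLeft 1 v)) := by
  intro z hz
  rcases bit0_lor hz with h1 | h1
  · exact h z h1
  · rw [h1]
    exact hv

theorem TOK.zero (hK : KapOK E) : TOK E f 0 := by
  intro v
  rw [fld_zero]
  have := hK.small (f v)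
  push_cast
  omega

theorem TOK.raise {T v x : ℕ} (h : TOK E f T) (hv : E.kap (f v) ≤ 4 - (x : ℤ)) :
    TOK E f (raise T v x) := by
  intro w
  rcases fld_raise T v x w with h1 | ⟨h1, h2⟩
  · rw [h1]
    exact h w
  · rw [h2, h1]
    exact hv

theorem mskL_ok {k : ℕ → Bool} {l : List (ℕ × List ℕ)} (hl : ∀ p ∈ l, E.Lk f p.1 p.2) :
    ∀ {N : ℕ}, MOK E f N → mskL k l N = true → ∃ N', MOK E f N' ∧ k N' = true := by
  induction l with
  | nil => exact fun {N} hN h => ⟨N, hN, h⟩
  | cons p l ih =>
    obtain ⟨v, m⟩ := p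
    intro N hN h
    have hl' : ∀ p ∈ l, E.Lk f p.1 p.2 := fun p hp => hl p (List.mem_cons_of_mem _ hp)
    have hv : E.Lk f v m := hl (v, m) List.mem_cons_self
    rw [mskL_cons] at h
    cases h4 : Nat.beq (len m) 4 with
    | true =>
      rw [h4, cf_true] at h
      exact ih hl' hN h
    | false =>
      rw [h4, cf_false] at h
      refine ih hl' (hN.lor ?_) h
      intro h5
      rw [hv.deg] at h5
      rw [len_eq, h5] at h4
      exact absurd h4 (by decide)

theorem mskB_ok {t : ℕ} {k : ℕ → Bool} {l : List (ℕ × ℕ)}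
    (hl : ∀ p ∈ l, t ≤ p.2 → E.D (f p.1) ≠ 4) :
    ∀ {N : ℕ}, MOK E f N → mskB t k l N = true → ∃ N', MOK E f N' ∧ k N' = true := by
  induction l with
  | nil => exact fun {N} hN h => ⟨N, hN, h⟩
  | cons p l ih =>
    obtain ⟨v, b⟩ := p
    intro N hN h
    have hl' : ∀ p ∈ l, t ≤ p.2 → E.D (f p.1) ≠ 4 :=
      fun p hp => hl p (List.mem_cons_of_mem _ hp)
    rw [mskB_cons] at h
    cases h4 : Nat.ble t b with
    | true =>
      rw [h4, cf_true] at h
      exact ih hl' (hN.lor (hl (v, b) List.mem_cons_self (Nat.le_of_ble_eq_true h4))) h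
    | false =>
      rw [h4, cf_false] at h
      exact ih hl' hN h

theorem tabL_ok {N : ℕ} {k : ℕ → Bool} {l : List (ℕ × List ℕ)}
    (hl : ∀ p ∈ l, E.kap (f p.1) ≤ 4 - (xL N p.2 : ℤ)) :
    ∀ {T : ℕ}, TOK E f T → tabL N k l T = true → ∃ T', TOK E f T' ∧ k T' = true := by
  induction l with
  | nil => exact fun {T} hT h => ⟨T, hT, h⟩
  | cons p l ih =>
    obtain ⟨v, m⟩ := p
    intro T hT h
    rw [tabL_cons] at h
    exact ih (fun p hp => hl p (List.mem_cons_of_mem _ hp))
      (hT.raise (hl (v, m) List.mem_cons_self)) h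

theorem tabB_ok {k : ℕ → Bool} {l : List (ℕ × ℕ)}
    (hl : ∀ p ∈ l, 5 < p.2 → E.kap (f p.1) ≤ 4 - (xB p.2 : ℤ)) :
    ∀ {T : ℕ}, TOK E f T → tabB k l T = true → ∃ T', TOK E f T' ∧ k T' = true := by
  induction l with
  | nil => exact fun {T} hT h => ⟨T, hT, h⟩
  | cons p l ih =>
    obtain ⟨v, b⟩ := p
    intro T hT h
    have hl' : ∀ p ∈ l, 5 < p.2 → E.kap (f p.1) ≤ 4 - (xB p.2 : ℤ) :=
      fun p hp => hl p (List.mem_cons_of_mem _ hp)
    rw [tabB_cons] at h
    cases h4 : Nat.ble b 5 with
    | true =>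
      rw [h4, cf_true] at h
      exact ih hl' hT h
    | false =>
      rw [h4, cf_false] at h
      exact ih hl' (hT.raise (hl (v, b) List.mem_cons_self (ble_false h4))) h

theorem tabK_ok {k : ℕ → Bool} {l : List (ℕ × ℕ)}
    (hl : ∀ p ∈ l, E.kap (f p.1) ≤ -(p.2 : ℤ)) :
    ∀ {T : ℕ}, TOK E f T → tabK k l T = true → ∃ T', TOK E f T' ∧ k T' = true := by
  induction l with
  | nil => exact fun {T} hT h => ⟨T, hT, h⟩
  | cons p l ih =>
    obtain ⟨v, c⟩ := p
    intro T hT h
    rw [tabK_cons] at h
    refine ih (fun p hp => hl p (List.mem_cons_of_mem _ hp)) (hT.raise ?_) h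
    have h1 : E.kap (f v) ≤ -(c : ℤ) := hl (v, c) List.mem_cons_self
    change _ ≤ 4 - ((c + 4 : ℕ) : ℤ)
    push_cast
    omega

theorem c4_leQ {N : ℕ} (hN : MOK E f N) (l : List ℕ) :
    ((range l.length).filter fun i => E.D (f (lnth l i)) = 4).card ≤ c4 N l := by
  induction l with
  | nil => exact le_rfl
  | cons z l ih =>
    rw [LB.card_cons, c4_consQ]
    cases hz : bit0 N z with
    | false =>
      rw [cf_false, if_neg (hN z hz)]
      omega
    | true =>
      rw [cf_true]
      split_ifs <;> omega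

theorem xL_ok (hK : KapOK E) {N y : ℕ} (hN : MOK E f N) {m : List ℕ} (hm : E.Lk f y m) :
    E.kap (f y) ≤ 4 - (xL N m : ℤ) := by
  rw [xL, frc_eq, len_eq]
  by_cases h4 : m.length = 4
  · rw [h4]
    have h5 := hK.four (f y) (hm.deg.trans h4)
    rw [h5]
    change (0 : ℤ) ≤ 4 - ((4 : ℕ) : ℤ)
    norm_num
  · rw [beq_false h4, cf_false, mn_eq]
    have h2 := hm.2
    have h3 := hm.deg
    rw [← h3] at h2
    have h5 := hK.inn _ hm.1 (by rw [h3]; exact h4) _ h2
    have h6 : ((range (E.D (f y))).filter fun i =>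
        E.D ((fun i => f (lnth m (i % E.D (f y)))) i) = 4).card ≤ c4 N m := by
      refine le_trans (le_of_eq ?_) (c4_leQ hN m)
      rw [h3]
      refine congrArg _ (filter_congr fun i hi => ?_)
      rw [mem_range] at hi
      dsimp only
      rw [Nat.mod_eq_of_lt hi]
    have h9 := hm.three
    have h10 := hK.half (f y) hm.1 (by rw [h3]; exact h4)
    have h11 := hK.small (f y)
    have h12 := E.min4 (f y)
    rw [h3] at h5 h6 h10 h12
    dsimp only at h5 h6
    change _ ≤ 4 - ((2 * m.length - (8 + min (c4 N m) (m.length / 2)) : ℕ) : ℤ)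
    rcases le_total (c4 N m) (m.length / 2) with h13 | h13
    · rw [min_eq_left h13]
      omega
    · rw [min_eq_right h13]
      omega

theorem xB_ok (hK : KapOK E) {y b : ℕ} (h5 : 5 < b) (h : b ≤ E.D (f y)) :
    E.kap (f y) ≤ 4 - (xB b : ℤ) := by
  rw [xB, frc_eq, mn_eq]
  have h7 := hK.bnd (f y) (min b 12) (by omega) (min_le_right _ _) ((min_le_left _ _).trans h)
  change _ ≤ 4 - ((2 * min b 12 - (8 + min b 12 / 2) : ℕ) : ℤ)
  omega

/-- **The mask and the table are correct.** -/
theorem table_ok (hK : KapOK E) (h : E.Sat P f) {k : ℕ → ℕ → Bool} (ht : table P k = true) :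
    ∃ N T, MOK E f N ∧ TOK E f T ∧ k N T = true := by
  have hlk : ∀ p ∈ P.lk, E.Lk f p.1 p.2 := fun p hp => h.real.1 _ hp
  have hlb : ∀ p ∈ P.lb, p.2 ≤ E.D (f p.1) := fun p hp => h.real.2 _ hp
  obtain ⟨N1, hN1, h1⟩ := mskL_ok hlk MOK.zero ht
  obtain ⟨N2, hN2, h2⟩ := mskB_ok (t := 5) (fun p hp h5 h4 => by
    have := hlb p hp
    omega) hN1 h1
  obtain ⟨N, hN, h3⟩ := mskB_ok (t := 1) (fun p hp h5 h4 => by
    have := h.kb p hp
    have := hK.four _ h4
    omega) hN2 h2
  obtain ⟨T1, hT1, h4⟩ := tabL_ok (fun p hp => xL_ok hK hN (hlk p hp)) (TOK.zero hK) h3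
  obtain ⟨T2, hT2, h5⟩ := tabB_ok (fun p hp h5 => xB_ok hK h5 (hlb p hp)) hT1 h4
  obtain ⟨T, hT, h6⟩ := tabK_ok (fun p hp => h.kb p hp) hT2 h5
  exact ⟨N, T, hN, hT, h6⟩

end table

/-! ### The inequality -/

section

variable {V : Type} {E : Env V} {P : Patch} {f : ℕ → V}

theorem conB_cons (lk : List (ℕ × List ℕ)) (v c : ℕ) (l : List (ℕ × ℕ)) :
    conB lk ((v, c) :: l) = cf (nil (findL lk v)) (conB lk l)
      (cf (Nat.beq (len (findL lk v)) 4) (cf (Nat.beq c 0) (conB lk l) true)
        (cf (Nat.blt (Nat.mul 2 (len (findL lk v))) (Nat.add 12 c)) true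
          (cf (Nat.blt (Nat.sub (Nat.mul 2 (len (findL lk v))) (Nat.div (len (findL lk v)) 2))
              (Nat.add 12 c))
            (cf (Nat.blt (Nat.sub (Nat.mul 2 (len (findL lk v))) (LQ.s4 lk (findL lk v)))
              (Nat.add 12 c)) true (conB lk l)) (conB lk l)))) := by
  change frcH (findL lk v) (fun l' => cf (nil l') (conB lk l)
    (frc (len l') fun d => cf (Nat.beq d 4) (cf (Nat.beq c 0) (conB lk l) true)
      (cf (Nat.blt (Nat.mul 2 d) (Nat.add 12 c)) true
        (cf (Nat.blt (Nat.sub (Nat.mul 2 d) (Nat.div d 2)) (Nat.add 12 c))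
          (cf (Nat.blt (Nat.sub (Nat.mul 2 d) (LQ.s4 lk l')) (Nat.add 12 c)) true (conB lk l))
          (conB lk l))))) = _
  rw [frcH_eq, frc_eq]

theorem blt_lt {a b : ℕ} (h : Nat.blt a b = true) : a < b := Nat.le_of_ble_eq_true h

theorem conB_false (hK : KapOK E) (h : E.Sat P f) (l : List (ℕ × ℕ)) (hsub : ∀ p ∈ l, p ∈ P.kb) :
    conB P.lk l = false := by
  induction l with
  | nil => rfl
  | cons p l ih =>
    obtain ⟨v, c⟩ := p
    have ih := ih fun p hp => hsub p (List.mem_cons_of_mem _ hp)
    have hc : E.kap (f v) ≤ -(c : ℤ) := h.kb (v, c) (hsub _ List.mem_cons_self)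
    rw [conB_cons, ih]
    cases hn : nil (findL P.lk v) with
    | true => rfl
    | false =>
      rw [cf_false]
      by_cases h4 : (findL P.lk v).length = 4
      · have h5 := hK.four (f v) ((link h hn).deg.trans h4)
        have h6 : c = 0 := by omega
        rw [h6, len_eq, h4]
        rfl
      · have h6 := kap_list hK h hn h4
        have h7 := s4_le h (findL P.lk v)
        have h8 : LQ.s4 P.lk (findL P.lk v) = LB.s4 P (findL P.lk v) := rfl
        rw [len_eq, beq_false h4, cf_false, h8]
        have h9 : Nat.blt (Nat.mul 2 (findL P.lk v).length) (Nat.add 12 c) = false := by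
          cases h10 : Nat.blt (Nat.mul 2 (findL P.lk v).length) (Nat.add 12 c) with
          | false => rfl
          | true =>
            have h11 : 2 * (findL P.lk v).length < 12 + c := blt_lt h10
            omega
        have h12 : Nat.blt (Nat.sub (Nat.mul 2 (findL P.lk v).length)
            (LB.s4 P (findL P.lk v))) (Nat.add 12 c) = false := by
          cases h10 : Nat.blt (Nat.sub (Nat.mul 2 (findL P.lk v).length)
            (LB.s4 P (findL P.lk v))) (Nat.add 12 c) with
          | false => rfl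
          | true =>
            have h11 : 2 * (findL P.lk v).length - LB.s4 P (findL P.lk v) < 12 + c := blt_lt h10
            omega
        rw [h9, h12, cf_false, cf_false]
        cases Nat.blt (Nat.sub (Nat.mul 2 (findL P.lk v).length)
            (Nat.div (findL P.lk v).length 2)) (Nat.add 12 c) <;> rfl

theorem con_cons (T v c : ℕ) (l : List (ℕ × ℕ)) :
    con T ((v, c) :: l) = cf (Nat.ble (Nat.add 4 c) (fld T v)) true (con T l) := rfl

theorem con_false {T : ℕ} (h : E.Sat P f) (hT : TOK E f T) (l : List (ℕ × ℕ))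
    (hsub : ∀ p ∈ l, p ∈ P.kg) : con T l = false := by
  induction l with
  | nil => rfl
  | cons p l ih =>
    obtain ⟨v, c⟩ := p
    have ih := ih fun p hp => hsub p (List.mem_cons_of_mem _ hp)
    have hc : -(c : ℤ) < E.kap (f v) := h.kg (v, c) (hsub _ List.mem_cons_self)
    have h1 := hT v
    rw [con_cons, ih]
    cases h2 : Nat.ble (Nat.add 4 c) (fld T v) with
    | false => rfl
    | true =>
      have h3 : 4 + c ≤ fld T v := Nat.le_of_ble_eq_true h2
      omega

/-- The fast leaf for patches which do not occur is correct. -/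
theorem fI_sound (hK : KapOK E) (hl : fI P = true) : ¬ E.Sat P f := by
  intro h
  rw [fI, conB_false hK h P.kb fun _ hp => hp, cf_false] at hl
  obtain ⟨N, T, _, hT, h1⟩ := table_ok hK h hl
  rw [con_false h hT P.kg fun _ hp => hp] at h1
  exact Bool.false_ne_true h1

end

section rule

variable {V : Type} [Fintype V] {E : Env V} {P : Patch} {f : ℕ → V} {gk : V → ℤ} {ext : V → ℕ}

theorem swQ_cons (T w y : ℕ) (l : List ℕ) :
    (@List.rec ℕ (fun _ => ℕ) 0
      (fun y _ ih => Nat.add (mn (Nat.sub (fld T y) 4) 4) ih) (y :: l) : ℕ) =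
      mn (Nat.sub (fld T y) 4) 4 + @List.rec ℕ (fun _ => ℕ) 0
      (fun y _ ih => Nat.add (mn (Nat.sub (fld T y) 4) 4) ih) l := rfl

omit [Fintype V] in
theorem wt_leQ {T : ℕ} (hT : TOK E f T) (y : ℕ) :
    mn (Nat.sub (fld T y) 4) 4 ≤ wt (E.kap (f y)) := by
  have h1 := hT y
  rw [mn_eq, wt]
  change min (fld T y - 4) 4 ≤ _
  omega

/-- The sum of the weights is at least `sw`. -/
theorem sw_leQ {T w : ℕ} (hT : TOK E f T) (h : E.Sat P f) (u : ℕ)
    (hw : w ≤ Wsum E.H (fun y => wt (E.kap y)) (f u)) :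
    LQ.sw T w (findL P.lk u) ≤ Wsum E.H (fun y => wt (E.kap y)) (f u) := by
  classical
  have key : ∀ l : List ℕ, (@List.rec ℕ (fun _ => ℕ) 0
      (fun y _ ih => Nat.add (mn (Nat.sub (fld T y) 4) 4) ih) l : ℕ) ≤
      (l.map fun y => wt (E.kap (f y))).sum := by
    intro l
    induction l with
    | nil => exact le_rfl
    | cons z l ih =>
      rw [List.map_cons, List.sum_cons]
      exact Nat.add_le_add (wt_leQ hT z) ih
  rw [LQ.sw]
  cases hn : nil (findL P.lk u) with
  | false =>
    rw [cf_false, Wsum, sum_link (link h hn)]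
    exact key _
  | true =>
    rw [cf_true]
    exact hw

/-- A bound for what `u` gives. -/
theorem term_leQ {u a b : ℕ} (hp : E.I (f u) → 0 < E.kap (f u) → gk (f u) ≤ a)
    (hb : 0 < E.kap (f u) → b + 1 ≤ Wsum E.H (fun y => wt (E.kap y)) (f u)) :
    term E gk (f u) ≤ (a : ℚ) / (b + 1 : ℕ) := by
  rw [term]
  have h3 : (0 : ℚ) < ((b + 1 : ℕ) : ℚ) := by positivity
  split_ifs with h4
  · have h5 : ((gk (f u) : ℤ) : ℚ) ≤ (a : ℚ) := by exact_mod_cast hp h4.1 h4.2.1
    have h6 : ((b + 1 : ℕ) : ℚ) ≤ (Wsum E.H (fun y => wt (E.kap y)) (f u) : ℚ) := by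
      exact_mod_cast hb h4.2.1
    exact div_le_div₀ (by positivity) h5 h3 h6
  · positivity

theorem wt_le_Wsum {x u : V} (h : E.H.Adj x u) :
    wt (E.kap x) ≤ Wsum E.H (fun y => wt (E.kap y)) u := by
  classical
  rw [Wsum]
  exact single_le_sum (f := fun y => wt (E.kap y)) (fun _ _ => Nat.zero_le _)
    (mem_filter.2 ⟨mem_univ _, h.symm⟩)

theorem sumQ_cons (wl : ℕ → ℕ) (ctr : ℕ → Bool) (lk : List (ℕ × List ℕ)) (T K M u : ℕ)
    (l : List ℕ) (num den : ℕ) :
    sumQ wl ctr lk T K M (u :: l) num den =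
      @Nat.rec (fun _ => Bool) (sumQ wl ctr lk T K M l num den) (fun p _ =>
        @Nat.rec (fun _ => Bool) false (fun b _ =>
          frc (cf (ctr u) p (Nat.succ p)) fun a =>
            frc (Nat.add (Nat.mul num (Nat.succ b)) (Nat.mul a den)) fun num =>
              frc (Nat.mul den (Nat.succ b)) fun den => sumQ wl ctr lk T K M l num den)
          (mx (LQ.sw T M (findL lk u)) (wl u))) (Nat.sub 4 (fld T u)) := rfl

theorem sumQ_le {T : ℕ} (hT : TOK E f T) (h : E.Sat P f) (hgk : ∀ u, gk u ≤ E.kap u)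
    {ctr : ℕ → Bool} (hctr : ∀ u, ctr u = true → gk (f u) ≤ E.kap (f u) - 1) {wl : ℕ → ℕ}
    (hwl : ∀ u, 0 < E.kap (f u) → wl u ≤ Wsum E.H (fun y => wt (E.kap y)) (f u)) {K M : ℕ}
    (hM : 0 < M) (hM0 : M ≤ wt (E.kap (f 0))) (l : List ℕ)
    (hadj : ∀ u ∈ l, E.H.Adj (f 0) (f u)) (num den : ℕ) (hden : 0 < den)
    (hs : sumQ wl ctr P.lk T K M l num den = true) :
    (num : ℚ) / den + (l.map fun u => term E gk (f u)).sum ≤ (K : ℚ) / M := by
  induction l generalizing num den with
  | nil =>
    rw [List.map_nil, List.sum_nil, add_zero]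
    have h1 : Nat.ble (Nat.mul num M) (Nat.mul K den) = true := hs
    have h2 : num * M ≤ K * den := Nat.le_of_ble_eq_true h1
    rw [div_le_div_iff₀ (by positivity) (by positivity)]
    exact_mod_cast h2
  | cons u l ih =>
    have ih := ih fun v hv => hadj v (List.mem_cons_of_mem _ hv)
    have hu := hadj u List.mem_cons_self
    rw [List.map_cons, List.sum_cons]
    rw [sumQ_cons] at hs
    have h1 := hT u
    cases hp : Nat.sub 4 (fld T u) with
    | zero =>
      rw [hp] at hs
      have h0 : 4 - fld T u = 0 := hp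
      have h2 : term E gk (f u) = 0 := by
        rw [term, if_neg]
        rintro ⟨_, h3, _⟩
        omega
      rw [h2, zero_add]
      exact ih num den hden hs
    | succ p =>
      rw [hp] at hs
      have h0 : 4 - fld T u = p + 1 := hp
      cases hb : mx (LQ.sw T M (findL P.lk u)) (wl u) with
      | zero =>
        rw [hb] at hs
        exact absurd hs Bool.false_ne_true
      | succ b =>
        rw [hb] at hs
        simp only [frc_eq] at hs
        set a := cf (ctr u) p (Nat.succ p) with ha
        have h2 := term_leQ (E := E) (f := f) (gk := gk) (u := u) (a := a) (b := b) (by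
          intro _ _
          cases hc : ctr u with
          | true =>
            rw [hc, cf_true] at ha
            have := hctr u hc
            rw [ha]
            omega
          | false =>
            rw [hc, cf_false] at ha
            have := hgk (f u)
            rw [ha]
            push_cast
            omega) (by
          intro h3
          rw [mx_eq] at hb
          have h4 := sw_leQ (w := M) hT h u (hM0.trans (wt_le_Wsum hu))
          have h5 := hwl u h3
          have h6 := max_le h4 h5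
          rw [hb] at h6
          exact h6)
        have h1 := ih (num * (b + 1) + a * den) (den * (b + 1)) (by positivity) hs
        have h3 : ((num * (b + 1) + a * den : ℕ) : ℚ) / ((den * (b + 1) : ℕ) : ℚ) =
            (num : ℚ) / den + (a : ℚ) / ((b + 1 : ℕ) : ℚ) := by
          have h4 : (den : ℚ) ≠ 0 := by positivity
          have h5 : ((b : ℚ) + 1) ≠ 0 := by positivity
          push_cast
          field_simp
        rw [h3] at h1
        linarith

/-- The bound for what the hub receives more. -/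
theorem exQ_ge (hK : KapOK E) (h : E.Sat P f) {N : ℕ} (hN : MOK E f N)
    (hn : nil (findL P.lk 0) = false) :
    pcnt (midS E) (oppM E) (f 0) ≤ exQ P N (findL P.lk 0) := by
  classical
  unfold exQ
  rw [frc_eq, len_eq]
  simp only [frc_eq]
  set l := findL P.lk 0 with hl
  have hlk := link h hn
  have hd := hlk.three
  rw [rec_card (fun i => an (bit0 N (lnth l i)) (an (mayD P 7 13 (lnth l (Nat.mod (Nat.add i 1)
    l.length))) (an (mayD P 7 13 (lnth l (Nat.mod (Nat.add i (Nat.sub l.length 1)) l.length)))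
    (mayM P (lnth l i)))))]
  unfold pcnt
  have hsub : (midS E).filter (fun m => oppM E m = f 0) ⊆
      (((range l.length).filter fun i => an (bit0 N (lnth l i)) (an (mayD P 7 13 (lnth l (Nat.mod
        (Nat.add i 1) l.length))) (an (mayD P 7 13 (lnth l (Nat.mod (Nat.add i
        (Nat.sub l.length 1)) l.length))) (mayM P (lnth l i)))) = true).image
        fun i => f (lnth l i)) := by
    intro m hm
    obtain ⟨hm, ho⟩ := mem_filter.1 hm
    have hadj : E.H.Adj (f 0) m := by
      rw [← ho]
      exact (midS_opp hm).symm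
    obtain ⟨i, hi, him⟩ := (hlk.2.adj m).1 hadj
    rw [Nat.mod_eq_of_lt hi] at him
    subst him
    refine mem_image.2 ⟨i, mem_filter.2 ⟨mem_range.2 hi, ?_⟩, rfl⟩
    have hfl : ∀ y, E.T (f (lnth l i)) (f 0) y → E.D y = 7 ∧ E.kap y = -1 := by
      intro y hy
      rw [← ho] at hy
      exact midS_flank hm hy
    have hT1 := hlk.2.tri_next i
    rw [Nat.mod_eq_of_lt hi] at hT1
    have hT2 := hlk.2.tri_next (i + (l.length - 1))
    rw [add_assoc i (l.length - 1) 1, Nat.sub_add_cancel (le_trans (by norm_num) hd),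
      Nat.add_mod_right, Nat.mod_eq_of_lt hi] at hT2
    have h1 := hfl _ (E.swap _ _ _ hT1)
    have h2 := hfl _ (E.rot _ _ _ (E.rot _ _ _ hT2))
    refine an_intro ?_ (an_intro (mayD_intro hK h (by norm_num) (by norm_num) h1.1
      (h1.2.trans (by norm_num))) (an_intro (mayD_intro hK h (by norm_num) (by norm_num) h2.1
      (h2.2.trans (by norm_num))) (mayM_intro hK h hm ho)))
    cases h3 : bit0 N (lnth l i) with
    | true => rfl
    | false => exact absurd (midS_four hm) (hN _ h3)
  exact (card_le_card hsub).trans card_image_le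

theorem exists_lnth {u : ℕ} {l : List ℕ} (h : u ∈ l) : ∃ i < l.length, lnth l i = u := by
  induction l with
  | nil => exact absurd h (by simp)
  | cons x l ih =>
    rcases List.mem_cons.1 h with h1 | h1
    · exact ⟨0, by simp, h1.symm⟩
    · obtain ⟨i, hi, h2⟩ := ih h1
      exact ⟨i + 1, by simpa using hi, h2⟩

/-- The inequality at the hub is correct. -/
theorem hub_sound (hK : KapOK E) (h : E.Sat P f) {N T : ℕ} (hT : TOK E f T)
    (hgk : ∀ u, gk u ≤ E.kap u)
    (hctr : ∀ u, ctrU P u = true → gk (f u) ≤ E.kap (f u) - 1) {wl : ℕ → ℕ}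
    (hwl : ∀ u, 0 < E.kap (f u) → wl u ≤ Wsum E.H (fun y => wt (E.kap y)) (f u))
    (hex : nil (findL P.lk 0) = false → ext (f 0) ≤ exQ P N (findL P.lk 0))
    (hl : hub wl P N T = true) : FinB E gk ext (f 0) := by
  rw [hub, frcH_eq] at hl
  cases hn : nil (findL P.lk 0) with
  | true =>
    rw [hn, cf_true] at hl
    exact absurd hl Bool.false_ne_true
  | false =>
    have hex := hex hn
    rw [hn, cf_false, frc_eq, frc_eq, frc_eq] at hl
    have h0 := hT 0
    cases hK0 : Nat.beq (Nat.sub (fld T 0) 4) 0 with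
    | true =>
      rw [hK0, cf_true] at hl
      cases h1 : Nat.ble (lo P 0) 12 with
      | false =>
        rw [h1, cf_false] at hl
        exact absurd hl Bool.false_ne_true
      | true =>
        rw [h1, cf_true] at hl
        have h2 := Nat.le_of_ble_eq_true h1
        have h3 := lo_le hK h 0 (by omega)
        cases h4 : Nat.beq (exQ P N (findL P.lk 0)) 0 with
        | false =>
          rw [h4, cf_false] at hl
          exact absurd hl Bool.false_ne_true
        | true =>
          rw [h4, cf_true] at hl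
          have h5 := Nat.eq_of_beq_eq_true h4
          refine ⟨fun h6 => by omega, fun _ => by omega, fun h6 => ?_⟩
          cases h7 : Nat.beq (fld T 0) 4 with
          | true =>
            have h8 := Nat.eq_of_beq_eq_true h7
            omega
          | false =>
            rw [h7, cf_false] at hl
            have h8 : 0 < LQ.sw T 0 (findL P.lk 0) := Nat.le_of_ble_eq_true hl
            exact h8.trans_le (sw_leQ hT h 0 (Nat.zero_le _))
    | false =>
      rw [hK0, cf_false] at hl
      have h9 : fld T 0 - 4 ≠ 0 := by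
        intro h1
        have h2 : Nat.sub (fld T 0) 4 = 0 := h1
        rw [h2] at hK0
        exact absurd hK0 (by decide)
      set K := Nat.sub (fld T 0) 4 with hKd
      have hK1 : K = fld T 0 - 4 := rfl
      have h1 : E.kap (f 0) ≤ -(K : ℤ) := by omega
      have hM : 0 < min K 4 := by omega
      have hM0 : min K 4 ≤ wt (E.kap (f 0)) := by
        rw [wt]
        omega
      cases h2 : Nat.ble (exQ P N (findL P.lk 0)) K with
      | false =>
        rw [h2, cf_false] at hl
        exact absurd hl Bool.false_ne_true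
      | true =>
        rw [h2, cf_true, mn_eq] at hl
        have h3 := Nat.le_of_ble_eq_true h2
        refine ⟨fun _ => ?_, fun h6 => by omega, fun h6 => by omega⟩
        have hadj : ∀ u ∈ findL P.lk 0, E.H.Adj (f 0) (f u) := by
          intro u hu
          obtain ⟨i, hi, hiu⟩ := exists_lnth hu
          have h7 := (link h hn).2.adj_nu i
          rw [Nat.mod_eq_of_lt hi, hiu] at h7
          exact h7
        have h4 : (findL P.lk 0 |>.map fun u => term E gk (f u)).sum ≤
            ((K - exQ P N (findL P.lk 0) : ℕ) : ℚ) / (min K 4 : ℕ) := by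
          cases h5 : sumQ wl (fun _ => false) P.lk T (Nat.sub K (exQ P N (findL P.lk 0)))
              (min K 4) (findL P.lk 0) 0 1 with
          | true =>
            have := sumQ_le (ctr := fun _ => false) hT h hgk
              (fun _ h => absurd h Bool.false_ne_true) hwl hM hM0 _ hadj 0 1 Nat.one_pos h5
            simpa using this
          | false =>
            rw [h5, cf_false] at hl
            have := sumQ_le hT h hgk hctr hwl hM hM0 _ hadj 0 1 Nat.one_pos hl
            simpa using this
        rw [← sum_link (link h hn) (fun u => term E gk u)] at h4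
        exact arith (by omega) hM h3 hex h1 h4

/-- **The fast leaf for the hub is correct.** -/
theorem fB_sound (hK : KapOK E) (h545 : ∀ m y z, E.H.Adj m y → E.H.Adj m z →
    y ≠ z → E.D m = 4 → E.D y = 5 → E.D z ≠ 5) (h : E.Sat P f) {wl : ℕ → ℕ}
    (hwl : ∀ u, 0 < E.kap (f u) → wl u ≤ Wsum E.H (fun y => wt (E.kap y)) (f u))
    (hl : fB wl P = true) : FinB E (gkM E) (extM E) (f 0) := by
  rw [fB, conB_false hK h P.kb fun _ hp => hp, cf_false] at hl
  obtain ⟨N, T, hN, hT, h1⟩ := table_ok hK h hl
  rw [con_false h hT P.kg fun _ hp => hp, cf_false] at h1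
  refine hub_sound hK h hT (fun u => ?_) (fun u hu => ?_) hwl (exQ_ge hK h hN) h1
  · unfold gkM
    omega
  · have h1 := ctrU_pcnt hK h h545 hu
    unfold gkM
    omega

end rule

end Pool.Agent.W986.ST.LQ

namespace Pool.Agent.W986

open Pool.Agent.DC76 ST

/-- The leaves with the fast version are correct in the environments of the regions. -/
theorem leavesOKq : LeavesOK lC lIq lFq :=
  ⟨leavesOK.s0,
    fun χ V _ _ S G T I hT R hK h1 P f h => by
      unfold lIq at h
      cases h2 : LQ.fI P with
      | true => exact LQ.fI_sound hK h2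
      | false =>
        rw [h2, cf_false] at h
        exact leavesOK.sI χ V S G T I hT R hK h1 P f h,
    fun χ V _ _ S G T I hT R hK h1 P f h hf => by
      unfold lFq at h
      cases h2 : LQ.fB (fun _ => 0) P with
      | true =>
        exact LQ.fB_sound hK ((Env.local_facts _ h1).2.2.2.2.2) hf
          (fun _ _ => Nat.zero_le _) h2
      | false =>
        rw [h2, cf_false] at h
        exact leavesOK.sF χ V S G T I hT R hK h1 P f h hf⟩

end Pool.Agent.W986
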