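import Pool.Agent.W986.SubIface

/-!
# Discs with a boundary of length four

A disc with outer cycle `a b c d` is a triangulation of the sphere with an apex `o` of degree `4`
whose link is `a b c d`. `Q1`, `Q2`, `Q3`: the three precolourings of the outer cycle which extend.
-/

set_option autoImplicit false

open Finset

namespace Pool.Agent.W986

variable {V : Type}

/-- A triangulation of the sphere with an apex `o` whose link is the cycle `a b c d`. -/
structure Apex (S : Finset V) (G : SimpleGraph V) (T : V → V → V → Prop) (o a b c d : V) :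
    Prop where
  tri : TriOn 2 S G T
  nb : ∀ y, G.Adj o y ↔ y = a ∨ y = b ∨ y = c ∨ y = d
  ab : a ≠ b
  ac : a ≠ c
  ad : a ≠ d
  bc : b ≠ c
  bd : b ≠ d
  cd : c ≠ d
  t1 : T o a b
  t2 : T o b c
  t3 : T o c d
  t4 : T o d a

/-- The pattern `1, 2, 1, 2` extends, if the corners of the same colour are not adjacent. -/
def Q1 (n : ℕ) : Prop :=
  ∀ (V : Type) [Fintype V] [DecidableEq V] (S : Finset V) (G : SimpleGraph V)
    (T : V → V → V → Prop) (o a b c d : V), S.card ≤ n → Apex S G T o a b c d →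
    ¬ G.Adj a c → ¬ G.Adj b d → ∀ i j : Fin 4, i ≠ j →
    ∃ col : V → Fin 4, MDef G {o} {a, b, c, d} col ∧ col a = i ∧ col b = j ∧ col c = i ∧ col d = j

/-- The pattern `1, 2, 1, 3` extends, if the corners of the same colour are not adjacent. -/
def Q2 (n : ℕ) : Prop :=
  ∀ (V : Type) [Fintype V] [DecidableEq V] (S : Finset V) (G : SimpleGraph V)
    (T : V → V → V → Prop) (o a b c d : V), S.card ≤ n → Apex S G T o a b c d →
    ¬ G.Adj a c → ∀ i j k : Fin 4, i ≠ j → i ≠ k → j ≠ k →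
    ∃ col : V → Fin 4, MDef G {o} {a, b, c, d} col ∧ col a = i ∧ col b = j ∧ col c = i ∧ col d = k

/-- The pattern `1, 2, 3, 4` extends, where the first corner may have a neighbour of its
colour. -/
def Q3 (n : ℕ) : Prop :=
  ∀ (V : Type) [Fintype V] [DecidableEq V] (S : Finset V) (G : SimpleGraph V)
    (T : V → V → V → Prop) (o a b c d : V), S.card ≤ n → Apex S G T o a b c d →
    ∀ i j k l : Fin 4, i ≠ j → i ≠ k → i ≠ l → j ≠ k → j ≠ l → k ≠ l →
    ∃ col : V → Fin 4, MDef G {o} {b, c, d} col ∧ col a = i ∧ col b = j ∧ col c = k ∧ col d = l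

section mdef

variable {G : SimpleGraph V} {W M : Set V} {c : V → Fin 4}

/-- The definition of `MDef` without cardinalities. -/
theorem mdef_iff [Finite V] : MDef G W M c ↔ ∀ v, v ∉ W →
    (∀ u w, u ∉ W → w ∉ W → G.Adj v u → G.Adj v w → c u = c v → c w = c v → u = w) ∧
    (v ∈ M → ∀ u, u ∉ W → G.Adj v u → c u ≠ c v) := by
  unfold MDef
  refine forall_congr' fun v => forall_congr' fun _ => and_congr_left fun _ => ?_
  rw [Set.ncard_le_one (Set.toFinite _)]
  constructor
  · intro h u w hu hw h1 h2 h3 h4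
    exact h u ⟨hu, h1, h3⟩ w ⟨hw, h2, h4⟩
  · rintro h u ⟨hu, h1, h3⟩ w ⟨hw, h2, h4⟩
    exact h u w hu hw h1 h2 h3 h4

theorem MDef.uniq [Finite V] (h : MDef G W M c) {v u w : V} (hv : v ∉ W) (hu : u ∉ W)
    (hw : w ∉ W) (h1 : G.Adj v u) (h2 : G.Adj v w) (h3 : c u = c v) (h4 : c w = c v) : u = w :=
  (mdef_iff.1 h v hv).1 u w hu hw h1 h2 h3 h4

theorem MDef.sat (h : MDef G W M c) {v u : V} (hv : v ∉ W) (hm : v ∈ M) (hu : u ∉ W)
    (h1 : G.Adj v u) : c u ≠ c v :=
  (h v hv).2 hm u hu h1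

theorem MDef.mono {M' : Set V} (h : MDef G W M c) (hM : M' ⊆ M) : MDef G W M' c :=
  fun v hv => ⟨(h v hv).1, fun hm => (h v hv).2 (hM hm)⟩

/-- Permuting the colours. -/
theorem MDef.perm (h : MDef G W M c) {σ : Fin 4 → Fin 4} (hσ : Function.Injective σ) :
    MDef G W M (fun v => σ (c v)) := by
  intro v hv
  obtain ⟨h1, h2⟩ := h v hv
  have h3 : {u | u ∉ W ∧ G.Adj v u ∧ σ (c u) = σ (c v)} = {u | u ∉ W ∧ G.Adj v u ∧ c u = c v} := by
    ext u
    simp only [Set.mem_ofPred_eq]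
    constructor
    · rintro ⟨a, b, e⟩
      exact ⟨a, b, hσ e⟩
    · rintro ⟨a, b, e⟩
      exact ⟨a, b, by rw [e]⟩
  refine ⟨?_, fun hm u hu huv e => h2 hm u hu huv (hσ e)⟩
  rw [h3]
  exact h1

end mdef

namespace Apex

variable {S : Finset V} {G : SimpleGraph V} {T : V → V → V → Prop} {o a b c d : V}

theorem mem (h : Apex S G T o a b c d) : o ∈ S :=
  h.tri.mem o a ((h.nb a).2 (Or.inl rfl))

theorem oa (h : Apex S G T o a b c d) : G.Adj o a := (h.nb a).2 (Or.inl rfl)

theorem ob (h : Apex S G T o a b c d) : G.Adj o b := (h.nb b).2 (Or.inr (Or.inl rfl))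

theorem oc (h : Apex S G T o a b c d) : G.Adj o c := (h.nb c).2 (Or.inr (Or.inr (Or.inl rfl)))

theorem od (h : Apex S G T o a b c d) : G.Adj o d := (h.nb d).2 (Or.inr (Or.inr (Or.inr rfl)))

theorem adj_ab (h : Apex S G T o a b c d) : G.Adj a b := (h.tri.toTriLoc.adj2 h.t1).2.1

theorem adj_bc (h : Apex S G T o a b c d) : G.Adj b c := (h.tri.toTriLoc.adj2 h.t2).2.1

theorem adj_cd (h : Apex S G T o a b c d) : G.Adj c d := (h.tri.toTriLoc.adj2 h.t3).2.1

theorem adj_da (h : Apex S G T o a b c d) : G.Adj d a := (h.tri.toTriLoc.adj2 h.t4).2.1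

/-- Turning the disc. -/
theorem turn (h : Apex S G T o a b c d) : Apex S G T o b c d a where
  tri := h.tri
  nb y := by rw [h.nb y]; tauto
  ab := h.bc
  ac := h.bd
  ad := h.ab.symm
  bc := h.cd
  bd := h.ac.symm
  cd := h.ad.symm
  t1 := h.t2
  t2 := h.t3
  t3 := h.t4
  t4 := h.t1

/-- Reflecting the disc. -/
theorem refl (h : Apex S G T o a b c d) : Apex S G T o a d c b where
  tri := h.tri
  nb y := by rw [h.nb y]; tauto
  ab := h.ad
  ac := h.ac
  ad := h.ab
  bc := h.cd.symm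
  bd := h.bd.symm
  cd := h.bc.symm
  t1 := h.tri.toTriLoc.flip h.t4
  t2 := h.tri.toTriLoc.flip h.t3
  t3 := h.tri.toTriLoc.flip h.t2
  t4 := h.tri.toTriLoc.flip h.t1

theorem of_rotn (h : TriOn 2 S G T) {ν : ℕ → V} (hν : Rotn G T o 4 ν) :
    Apex S G T o (ν 0) (ν 1) (ν 2) (ν 3) where
  tri := h
  nb y := by
    rw [hν.adj]
    constructor
    · rintro ⟨i, hi, rfl⟩
      interval_cases i <;> simp
    · rintro (rfl | rfl | rfl | rfl)
      · exact ⟨0, by omega, rfl⟩
      · exact ⟨1, by omega, rfl⟩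
      · exact ⟨2, by omega, rfl⟩
      · exact ⟨3, by omega, rfl⟩
  ab e := absurd (hν.inj 0 (by omega) 1 (by omega) e) (by omega)
  ac e := absurd (hν.inj 0 (by omega) 2 (by omega) e) (by omega)
  ad e := absurd (hν.inj 0 (by omega) 3 (by omega) e) (by omega)
  bc e := absurd (hν.inj 1 (by omega) 2 (by omega) e) (by omega)
  bd e := absurd (hν.inj 1 (by omega) 3 (by omega) e) (by omega)
  cd e := absurd (hν.inj 2 (by omega) 3 (by omega) e) (by omega)
  t1 := h.toTriLoc.flip ((hν.tri 0 _).2 (Or.inl rfl))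
  t2 := h.toTriLoc.flip ((hν.tri 1 _).2 (Or.inl rfl))
  t3 := h.toTriLoc.flip ((hν.tri 2 _).2 (Or.inl rfl))
  t4 := by
    have h1 := (hν.tri 2 (ν 4)).2 (Or.inr rfl)
    rwa [show ν 4 = ν 0 from hν.per 0] at h1

/-- The triangles at the apex. -/
theorem to_a (h : Apex S G T o a b c d) (y : V) : T o a y ↔ y = b ∨ y = d := by
  refine ⟨fun hy => ?_, ?_⟩
  · exact h.tri.toTriLoc.two_pair h.t1 (h.tri.toTriLoc.flip h.t4) h.bd hy
  · rintro (rfl | rfl)
    · exact h.t1
    · exact h.tri.toTriLoc.flip h.t4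

theorem to_b (h : Apex S G T o a b c d) (y : V) : T o b y ↔ y = c ∨ y = a := h.turn.to_a y

theorem to_c (h : Apex S G T o a b c d) (y : V) : T o c y ↔ y = d ∨ y = b := h.turn.turn.to_a y

theorem to_d (h : Apex S G T o a b c d) (y : V) : T o d y ↔ y = a ∨ y = c :=
  h.turn.turn.turn.to_a y

/-- The rotation at the apex. -/
theorem rotn (h : Apex S G T o a b c d) :
    ∃ ν, Rotn G T o 4 ν ∧ ν 0 = a ∧ ν 1 = b ∧ ν 2 = c ∧ ν 3 = d := by
  let ν : ℕ → V := fun i => if i % 4 = 0 then a else if i % 4 = 1 then b else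
    if i % 4 = 2 then c else d
  refine ⟨ν, ⟨by omega, ?_, ?_, ?_, ?_⟩, rfl, rfl, rfl, rfl⟩
  · intro i
    simp only [ν, Nat.add_mod_right]
  · intro i hi j hj e
    have := h.ab
    have := h.ac
    have := h.ad
    have := h.bc
    have := h.bd
    have := h.cd
    interval_cases i <;> interval_cases j <;> simp [ν] at e ⊢ <;> simp_all
  · intro y
    rw [h.nb y]
    constructor
    · rintro (rfl | rfl | rfl | rfl)
      · exact ⟨0, by omega, rfl⟩
      · exact ⟨1, by omega, rfl⟩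
      · exact ⟨2, by omega, rfl⟩
      · exact ⟨3, by omega, rfl⟩
    · rintro ⟨i, hi, rfl⟩
      interval_cases i
      · exact Or.inl rfl
      · exact Or.inr (Or.inl rfl)
      · exact Or.inr (Or.inr (Or.inl rfl))
      · exact Or.inr (Or.inr (Or.inr rfl))
  · intro i y
    have h4 : i % 4 < 4 := Nat.mod_lt _ (by omega)
    have e1 : (i + 1) % 4 = (i % 4 + 1) % 4 := by omega
    have e2 : (i + 2) % 4 = (i % 4 + 2) % 4 := by omega
    simp only [ν, e1, e2]
    generalize i % 4 = m at h4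
    interval_cases m
    · simpa [or_comm] using h.to_b y
    · simpa [or_comm] using h.to_c y
    · simpa [or_comm] using h.to_d y
    · simpa [or_comm] using h.to_a y

end Apex

end Pool.Agent.W986
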