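import Pool.Agent.W986.SubCap
import Pool.Agent.W986.SubQDef

/-!
# Replacing the inside of a 4-cycle by one vertex

`FillOK`: a colouring of the inside of a cycle. `four_glue`: a colouring of the outside with the
cap and a colouring of the inside give a colouring of the whole graph.
-/

set_option autoImplicit false

open Finset

namespace Pool.Agent.W986

section

variable {W : Type} {H : SimpleGraph W} {T A : W → W → W → Prop} {L : ℕ} {c : ℕ → W}
  {S : Finset W}

/-- The vertices strictly inside the side `A` of the cycle `c`. -/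
def Inn (S : Finset W) (c : ℕ → W) (A : W → W → W → Prop) (x : W) : Prop :=
  x ∈ S ∧ (∀ i, c i ≠ x) ∧ InS A x

/-- A colouring of the inside: the colours `α` on the cycle, every inner vertex has at most one
mate, a vertex of the cycle has at most one mate inside, and none if it is saturated. -/
def FillOK (H : SimpleGraph W) (c : ℕ → W) (I : W → Prop) (α : ℕ → Fin 4) (sat : ℕ → Prop)
    (col : W → Fin 4) : Prop :=
  (∀ i, col (c i) = α i) ∧ (∀ x, I x → {u | H.Adj x u ∧ col u = col x}.ncard ≤ 1) ∧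
    (∀ i, {u | I u ∧ H.Adj (c i) u ∧ col u = α i}.ncard ≤ 1) ∧
    ∀ i, sat i → ∀ u, I u → H.Adj (c i) u → col u ≠ α i

/-- The third vertex of a triangle at an edge. -/
theorem TriLoc.exists_tri (h : TriLoc S H T) {x y : W} (hxy : H.Adj x y) : ∃ z, T x y z := by
  obtain ⟨a, _, _, hz⟩ := h.two hxy
  exact ⟨a, (hz a).2 (Or.inl rfl)⟩

/-- The triangles at an inner vertex are in the side. -/
theorem Side.inner_tri (hA : Side T c A) (h : TriLoc S H T) {x : W} (hx : Inn S c A x) {y z : W}
    (hT : T x y z) : A x y z := by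
  by_contra hn
  exact ((hA.one_side h hx.1 hx.2.1).2 ⟨y, z, hT, hn⟩) hx.2.2

/-- The neighbours of an inner vertex are inner or on the cycle. -/
theorem Side.inner_nb (hA : Side T c A) (h : TriLoc S H T) {x y : W} (hx : Inn S c A x)
    (hxy : H.Adj x y) : Inn S c A y ∨ ∃ i, c i = y := by
  by_cases hy : ∃ i, c i = y
  · exact Or.inr hy
  · left
    push Not at hy
    obtain ⟨z, hz⟩ := h.exists_tri hxy
    have h1 := hA.inner_tri h hx hz
    exact ⟨h.mem _ _ hxy.symm, hy, x, z, hA.swap _ _ _ h1⟩

variable [Finite W]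

/-- **Gluing along a 4-cycle without diagonals.** -/
theorem four_glue (h : TriLoc S H T) (hC : PCyc H 4 c) (hA : Side T c A)
    (hd1 : ¬ H.Adj (c 0) (c 2)) (hd2 : ¬ H.Adj (c 1) (c 3)) {W0 M : Set W}
    (hM : ∀ m ∈ M, ¬ Inn S c A m)
    {col0 : Option W → Fin 4}
    (h0 : MDef (capG c (fun x y z => T x y z ∧ ¬ A x y z)) (some '' W0) (some '' M) col0)
    {col1 : W → Fin 4}
    (h1 : FillOK H c (Inn S c A) (fun i => col0 (some (c i)))
      (fun i => col0 (some (c i)) ≠ col0 none) col1) :
    ∃ col : W → Fin 4, MDef H W0 M col ∧ ∀ x, ¬ Inn S c A x → col x = col0 (some x) := by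
  classical
  obtain ⟨f1, f2, f3, f4⟩ := h1
  have hA' := hA.compl h.rot h.swap
  have hdiag : ∀ i j, H.Adj (c i) (c j) → CycE c (c i) (c j) := by
    intro i j hij
    have key : ∀ a b, a < 4 → b < 4 → H.Adj (c a) (c b) → CycE c (c a) (c b) := by
      intro a b ha hb hab
      have c4 : c 4 = c 0 := hC.per 0
      have ha' : a = 0 ∨ a = 1 ∨ a = 2 ∨ a = 3 := by omega
      have hb' : b = 0 ∨ b = 1 ∨ b = 2 ∨ b = 3 := by omega
      rcases ha' with rfl | rfl | rfl | rfl <;> rcases hb' with rfl | rfl | rfl | rfl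
      · exact absurd rfl hab.ne
      · exact ⟨0, Or.inl ⟨rfl, rfl⟩⟩
      · exact absurd hab hd1
      · exact ⟨3, Or.inr ⟨rfl, c4.symm⟩⟩
      · exact ⟨0, Or.inr ⟨rfl, rfl⟩⟩
      · exact absurd rfl hab.ne
      · exact ⟨1, Or.inl ⟨rfl, rfl⟩⟩
      · exact absurd hab hd2
      · exact absurd hab.symm hd1
      · exact ⟨1, Or.inr ⟨rfl, rfl⟩⟩
      · exact absurd rfl hab.ne
      · exact ⟨2, Or.inl ⟨rfl, rfl⟩⟩
      · exact ⟨3, Or.inl ⟨rfl, c4.symm⟩⟩
      · exact absurd hab.symm hd2
      · exact ⟨2, Or.inr ⟨rfl, rfl⟩⟩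
      · exact absurd rfl hab.ne
    have hi := hC.mod i
    have hj := hC.mod j
    rw [hi, hj] at hij ⊢
    exact key _ _ (Nat.mod_lt _ (by omega)) (Nat.mod_lt _ (by omega)) hij
  -- edges outside
  have hout : ∀ v u, ¬ Inn S c A v → ¬ Inn S c A u → H.Adj v u →
      (capG c (fun x y z => T x y z ∧ ¬ A x y z)).Adj (some v) (some u) := by
    intro v u hv hu hvu
    rw [hA'.adj_iff h.adj]
    obtain ⟨a, b, hab, hz⟩ := h.two hvu
    have ta := (hz a).2 (Or.inl rfl)
    have tb := (hz b).2 (Or.inr rfl)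
    by_cases hvc : ∃ i, c i = v
    · by_cases huc : ∃ i, c i = u
      · obtain ⟨i, rfl⟩ := hvc
        obtain ⟨j, rfl⟩ := huc
        have hE := hdiag i j hvu
        by_cases hAa : A (c i) (c j) a
        · refine ⟨b, tb, fun hAb => ?_⟩
          exact ((hA.bd _ _ _ _ hab ta tb).1 ⟨fun _ => hAb, fun _ => hAa⟩) hE
        · exact ⟨a, ta, hAa⟩
      · push Not at huc
        refine ⟨a, ta, fun hAa => hu ⟨h.mem _ _ hvu.symm, huc, v, a, hA.swap _ _ _ hAa⟩⟩
    · push Not at hvc
      exact ⟨a, ta, fun hAa => hv ⟨h.mem _ _ hvu, hvc, u, a, hAa⟩⟩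
  let col : W → Fin 4 := fun x => if Inn S c A x then col1 x else col0 (some x)
  have hin : ∀ x, Inn S c A x → col x = col1 x := fun x hx => if_pos hx
  have hon : ∀ x, ¬ Inn S c A x → col x = col0 (some x) := fun x hx => if_neg hx
  have hci : ∀ i, ¬ Inn S c A (c i) := fun i hi => hi.2.1 i rfl
  refine ⟨col, ?_, hon⟩
  intro v hv
  by_cases hvi : Inn S c A v
  · -- inside
    refine ⟨(Set.ncard_le_ncard ?_ (Set.toFinite _)).trans (f2 v hvi), fun hm => absurd hvi (hM v hm)⟩
    rintro u ⟨_, hvu, hc⟩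
    refine ⟨hvu, ?_⟩
    rw [hin v hvi] at hc
    rcases hA.inner_nb h hvi hvu with hu | ⟨i, rfl⟩
    · rw [← hc, hin u hu]
    · rw [← hc, hon _ (hci i), f1]
  · have hv' : some v ∉ (some '' W0 : Set (Option W)) := by
      rintro ⟨w, hw, hwv⟩
      rw [Option.some.injEq] at hwv
      exact hv (hwv ▸ hw)
    obtain ⟨g1, g2⟩ := h0 (some v) hv'
    by_cases hvc : ∃ i, c i = v
    · obtain ⟨i, rfl⟩ := hvc
      rw [hon _ hvi]
      by_cases hs : col0 (some (c i)) ≠ col0 none
      · -- saturated: no mate inside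
        have hno : ∀ u, H.Adj (c i) u → col u = col0 (some (c i)) → ¬ Inn S c A u := by
          intro u hu hc hui
          rw [hin u hui] at hc
          exact f4 i hs u hui hu hc
        constructor
        · apply ncard_le_one_of
          rintro x ⟨hx0, hx, hxc⟩ y ⟨hy0, hy, hyc⟩
          rw [Set.ncard_le_one (Set.toFinite _)] at g1
          have hxi := hno x hx hxc
          have hyi := hno y hy hyc
          rw [hon x hxi] at hxc
          rw [hon y hyi] at hyc
          have e1 : some x ∉ (some '' W0 : Set (Option W)) := by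
            rintro ⟨w, hw, hwv⟩
            rw [Option.some.injEq] at hwv
            exact hx0 (hwv ▸ hw)
          have e2 : some y ∉ (some '' W0 : Set (Option W)) := by
            rintro ⟨w, hw, hwv⟩
            rw [Option.some.injEq] at hwv
            exact hy0 (hwv ▸ hw)
          have e := g1 (some x) ⟨e1, hout _ _ hvi hxi hx, hxc⟩ (some y)
            ⟨e2, hout _ _ hvi hyi hy, hyc⟩
          exact Option.some.inj e
        · intro hm u hu hu1 hu2
          have hui := hno u hu1 hu2
          rw [hon u hui] at hu2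
          have e1 : some u ∉ (some '' W0 : Set (Option W)) := by
            rintro ⟨w, hw, hwv⟩
            rw [Option.some.injEq] at hwv
            exact hu (hwv ▸ hw)
          exact g2 ⟨_, hm, rfl⟩ (some u) e1 (hout _ _ hvi hui hu1) hu2
      · -- the vertex `none` is the mate outside
        push Not at hs
        have hno : none ∉ (some '' W0 : Set (Option W)) := by
          rintro ⟨w, _, hw⟩
          exact absurd hw (by simp)
        have hadj : (capG c (fun x y z => T x y z ∧ ¬ A x y z)).Adj (some (c i)) none := ⟨i, rfl⟩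
        have hmi : ∀ u, u ∉ W0 → H.Adj (c i) u → col u = col0 (some (c i)) → Inn S c A u := by
          intro u hu0 hu hc
          by_contra hui
          rw [hon u hui] at hc
          rw [Set.ncard_le_one (Set.toFinite _)] at g1
          have e1 : some u ∉ (some '' W0 : Set (Option W)) := by
            rintro ⟨w, hw, hwv⟩
            rw [Option.some.injEq] at hwv
            exact hu0 (hwv ▸ hw)
          have e := g1 (some u) ⟨e1, hout _ _ hvi hui hu, hc⟩ none ⟨hno, hadj, hs.symm⟩
          exact absurd e (by simp)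
        constructor
        · refine (Set.ncard_le_ncard ?_ (Set.toFinite _)).trans (f3 i)
          rintro u ⟨hu0, hu, hc⟩
          have hui := hmi u hu0 hu hc
          rw [hin u hui] at hc
          exact ⟨hui, hu, hc⟩
        · intro hm
          exact absurd hs.symm (g2 ⟨_, hm, rfl⟩ none hno hadj)
    · -- strictly outside
      push Not at hvc
      have hui : ∀ u, H.Adj v u → ¬ Inn S c A u := by
        intro u hu hui
        rcases hA.inner_nb h hui hu.symm with h5 | ⟨i, h5⟩
        · exact hvi h5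
        · exact hvc i h5
      rw [hon v hvi]
      constructor
      · apply ncard_le_one_of
        rintro x ⟨hx0, hx, hxc⟩ y ⟨hy0, hy, hyc⟩
        rw [Set.ncard_le_one (Set.toFinite _)] at g1
        rw [hon x (hui x hx)] at hxc
        rw [hon y (hui y hy)] at hyc
        have e1 : some x ∉ (some '' W0 : Set (Option W)) := by
          rintro ⟨w, hw, hwv⟩
          rw [Option.some.injEq] at hwv
          exact hx0 (hwv ▸ hw)
        have e2 : some y ∉ (some '' W0 : Set (Option W)) := by
          rintro ⟨w, hw, hwv⟩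
          rw [Option.some.injEq] at hwv
          exact hy0 (hwv ▸ hw)
        exact Option.some.inj (g1 (some x) ⟨e1, hout _ _ hvi (hui x hx) hx, hxc⟩ (some y)
          ⟨e2, hout _ _ hvi (hui y hy) hy, hyc⟩)
      · intro hm u hu hu1 hu2
        rw [hon u (hui u hu1)] at hu2
        have e1 : some u ∉ (some '' W0 : Set (Option W)) := by
          rintro ⟨w, hw, hwv⟩
          rw [Option.some.injEq] at hwv
          exact hu (hwv ▸ hw)
        exact g2 ⟨_, hm, rfl⟩ (some u) e1 (hout _ _ hvi (hui u hu1) hu1) hu2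

end

section fill

variable {W : Type} {H : SimpleGraph W} {I : W → Prop} {p : Fin 4 → W} {α : Fin 4 → Fin 4}
  {sat : Fin 4 → Prop} {col : W → Fin 4}

/-- A colouring of the inside of a 4-cycle. -/
structure Fill4 (H : SimpleGraph W) (I : W → Prop) (p : Fin 4 → W) (α : Fin 4 → Fin 4)
    (sat : Fin 4 → Prop) (col : W → Fin 4) : Prop where
  fcol : ∀ i, col (p i) = α i
  fone : ∀ x, I x → {u | H.Adj x u ∧ col u = col x}.ncard ≤ 1
  ffew : ∀ i, {u | I u ∧ H.Adj (p i) u ∧ col u = α i}.ncard ≤ 1
  fsat : ∀ i, sat i → ∀ u, I u → H.Adj (p i) u → col u ≠ α i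

theorem Fill4.mono {sat' : Fin 4 → Prop} (h : Fill4 H I p α sat col) (hs : ∀ i, sat' i → sat i) :
    Fill4 H I p α sat' col :=
  ⟨h.fcol, h.fone, h.ffew, fun i hi => h.fsat i (hs i hi)⟩

theorem Fill4.turn {s : Fin 4}
    (h : Fill4 H I (fun i => p (i + s)) (fun i => α (i + s)) (fun i => sat (i + s)) col) :
    Fill4 H I p α sat col := by
  refine ⟨fun i => ?_, h.fone, fun i => ?_, fun i hi => ?_⟩
  · have h1 := h.fcol (i - s)
    simpa only [sub_add_cancel] using h1
  · have h1 := h.ffew (i - s)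
    simpa only [sub_add_cancel] using h1
  · have h1 := h.fsat (i - s)
    simp only [sub_add_cancel] at h1
    exact h1 hi

/-- A colouring of the cap gives a colouring of the inside. -/
theorem fill_of_mdef [Finite W] {G' : SimpleGraph (Option W)}
    (hG' : ∀ x u, I x → H.Adj x u → G'.Adj (some x) (some u)) {M' : Set (Option W)}
    {cc : Option W → Fin 4} (hm : MDef G' {none} M' cc) (hc : ∀ i, cc (some (p i)) = α i)
    (hs : ∀ i, sat i → some (p i) ∈ M') : Fill4 H I p α sat (fun x => cc (some x)) := by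
  have hne : ∀ x : W, some x ∉ ({none} : Set (Option W)) := fun x hx => absurd hx (by simp)
  refine ⟨hc, ?_, ?_, ?_⟩
  · intro x hx
    have h1 := (hm (some x) (hne x)).1
    rw [Set.ncard_le_one (Set.toFinite _)] at h1
    apply ncard_le_one_of
    rintro u ⟨hu, hu2⟩ w ⟨hw, hw2⟩
    exact Option.some.inj (h1 (some u) ⟨hne u, hG' x u hx hu, hu2⟩ (some w)
      ⟨hne w, hG' x w hx hw, hw2⟩)
  · intro i
    have h1 := (hm (some (p i)) (hne _)).1
    rw [Set.ncard_le_one (Set.toFinite _)] at h1
    apply ncard_le_one_of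
    rintro u ⟨hi, hu, hu2⟩ w ⟨hj, hw, hw2⟩
    rw [← hc i] at hu2 hw2
    exact Option.some.inj (h1 (some u) ⟨hne u, (hG' u _ hi hu.symm).symm, hu2⟩ (some w)
      ⟨hne w, (hG' w _ hj hw.symm).symm, hw2⟩)
  · intro i hi u hu hu2 hcu
    rw [← hc i] at hcu
    exact (hm (some (p i)) (hne _)).2 (hs i hi) (some u) (hne u) (hG' u _ hu hu2.symm).symm hcu

/-- The colourings of a disc with an adjacent pair of corners of the same colour. -/
def MonoPair (G : SimpleGraph W) (a b c d : W) : Prop :=
  ∀ i j k : Fin 4, i ≠ j → i ≠ k → ∃ col : W → Fin 4, col a = i ∧ col b = i ∧ col c = j ∧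
    col d = k ∧ (∀ v, v ≠ a → v ≠ b → v ≠ c → v ≠ d → ∀ u w, G.Adj v u → G.Adj v w →
      col u = col v → col w = col v → u = w) ∧
    ∀ v, (v = a ∨ v = b ∨ v = c ∨ v = d) → ∀ u, u ≠ a → u ≠ b → u ≠ c → u ≠ d → G.Adj v u →
      col u ≠ col v

variable [Fintype W] [DecidableEq W] {S' : Finset (Option W)} {G' : SimpleGraph (Option W)}
  {T' : Option W → Option W → Option W → Prop}

/-- All the colourings of a disc. -/
theorem exists_fill {n : ℕ} (q1 : Q1 n) (q2 : Q2 n) (q3 : Q3 n) (hn : S'.card ≤ n)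
    (hap : Apex S' G' T' none (some (p 0)) (some (p 1)) (some (p 2)) (some (p 3)))
    (hd1 : ¬ G'.Adj (some (p 0)) (some (p 2))) (hd2 : ¬ G'.Adj (some (p 1)) (some (p 3)))
    (hmono : ∀ s : Fin 4, MonoPair G' (some (p s)) (some (p (s + 1))) (some (p (s + 2)))
      (some (p (s + 3))))
    (hI : ∀ x, I x → ∀ i, x ≠ p i)
    (hG' : ∀ x u, I x → H.Adj x u → G'.Adj (some x) (some u)) {μ : Fin 4}
    (s1 : ∀ i, ¬ (α i = α (i + 1) ∧ α (i + 1) = α (i + 2))) :
    ∃ col : W → Fin 4, Fill4 H I p α (fun i => α i ≠ μ) col := by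
  -- the turned discs
  have hT : ∀ s : Fin 4, Apex S' G' T' none (some (p s)) (some (p (s + 1))) (some (p (s + 2)))
      (some (p (s + 3))) := by
    intro s
    fin_cases s
    · exact hap
    · exact hap.turn
    · exact hap.turn.turn
    · exact hap.turn.turn.turn
  have hD : ∀ s : Fin 4, ¬ G'.Adj (some (p s)) (some (p (s + 2))) := by
    intro s
    fin_cases s
    · exact hd1
    · exact hd2
    · exact fun h => hd1 h.symm
    · exact fun h => hd2 h.symm
  by_cases hm : ∃ s, α s = α (s + 1)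
  · obtain ⟨s, hs⟩ := hm
    have e1 : α (s + 2) ≠ α s := by
      intro h
      exact s1 s ⟨hs, hs.symm.trans h.symm⟩
    have e2 : α (s + 3) ≠ α s := by
      intro h
      have h5 : s + 3 + 1 = s := by
        fin_cases s <;> rfl
      have h6 : s + 3 + 2 = s + 1 := by
        fin_cases s <;> rfl
      refine s1 (s + 3) ⟨?_, ?_⟩
      · rw [h5]
        exact h
      · rw [h5, h6]
        exact hs
    obtain ⟨cc, h2, h3, h4, h5, h6, h7⟩ := hmono s (α s) (α (s + 2)) (α (s + 3)) e1.symm e2.symm
    have hne : ∀ x, I x → ∀ i, some x ≠ some (p i) := fun x hx i h => hI x hx i (Option.some.inj h)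
    have hcol : ∀ i : Fin 4, cc (some (p (i + s))) = α (i + s) := by
      intro i
      fin_cases i
      · change cc (some (p (0 + s))) = α (0 + s)
        rw [zero_add, h2]
      · change cc (some (p (1 + s))) = α (1 + s)
        rw [add_comm 1 s, h3, hs]
      · change cc (some (p (2 + s))) = α (2 + s)
        rw [add_comm 2 s, h4]
      · change cc (some (p (3 + s))) = α (3 + s)
        rw [add_comm 3 s, h5]
    have hno : ∀ i : Fin 4, ∀ u, I u → H.Adj (p (i + s)) u → cc (some u) ≠ α (i + s) := by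
      intro i u hu hiu
      rw [← hcol i]
      refine h7 _ ?_ _ (hne u hu _) (hne u hu _) (hne u hu _) (hne u hu _) (hG' u _ hu hiu.symm).symm
      fin_cases i
      · left
        change some (p (0 + s)) = _
        rw [zero_add]
      · right; left
        change some (p (1 + s)) = _
        rw [add_comm 1 s]
      · right; right; left
        change some (p (2 + s)) = _
        rw [add_comm 2 s]
      · right; right; right
        change some (p (3 + s)) = _
        rw [add_comm 3 s]
    refine ⟨fun x => cc (some x), Fill4.turn (s := s) ⟨hcol, ?_, ?_, ?_⟩⟩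
    · intro x hx
      apply ncard_le_one_of
      rintro u ⟨hu, hu2⟩ w ⟨hw, hw2⟩
      exact Option.some.inj (h6 _ (hne x hx _) (hne x hx _) (hne x hx _) (hne x hx _) _ _
        (hG' x u hx hu) (hG' x w hx hw) hu2 hw2)
    · intro i
      apply ncard_le_one_of
      rintro u ⟨hu, hu2, hu3⟩
      exact absurd hu3 (hno i u hu hu2)
    · intro i _ u hu hu2
      exact hno i u hu hu2
  · push Not at hm
    have hall : ∀ s : Fin 4, ∀ i : Fin 4, True → some (p (i + s)) ∈
        ({some (p s), some (p (s + 1)), some (p (s + 2)), some (p (s + 3))} : Set (Option W)) := by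
      intro s i _
      fin_cases i
      · change some (p (0 + s)) ∈ _
        rw [zero_add]
        simp
      · change some (p (1 + s)) ∈ _
        rw [add_comm 1 s]
        simp
      · change some (p (2 + s)) ∈ _
        rw [add_comm 2 s]
        simp
      · change some (p (3 + s)) ∈ _
        rw [add_comm 3 s]
        simp
    by_cases hd : ∃ s, α s = α (s + 2)
    · obtain ⟨s, hs⟩ := hd
      by_cases e3 : α (s + 1) = α (s + 3)
      · obtain ⟨cc, h1, h2, h3, h4, h5⟩ := q1 (Option W) S' G' T' _ _ _ _ _ hn (hT s) (hD s)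
          (by have h := hD (s + 1); rwa [show s + 1 + 2 = s + 3 by fin_cases s <;> rfl] at h)
          (α s) (α (s + 1)) (hm s)
        refine ⟨_, Fill4.turn (s := s) (fill_of_mdef hG' h1 ?_ (fun i _ => hall s i trivial))⟩
        intro i
        fin_cases i
        · change cc (some (p (0 + s))) = α (0 + s)
          rw [zero_add, h2]
        · change cc (some (p (1 + s))) = α (1 + s)
          rw [add_comm 1 s, h3]
        · change cc (some (p (2 + s))) = α (2 + s)
          rw [add_comm 2 s, h4, hs]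
        · change cc (some (p (3 + s))) = α (3 + s)
          rw [add_comm 3 s, h5, e3]
      · obtain ⟨cc, h1, h2, h3, h4, h5⟩ := q2 (Option W) S' G' T' _ _ _ _ _ hn (hT s) (hD s)
          (α s) (α (s + 1)) (α (s + 3)) (hm s) (by
            have h := hm (s + 3)
            rw [show s + 3 + 1 = s by fin_cases s <;> rfl] at h
            exact h.symm) e3
        refine ⟨_, Fill4.turn (s := s) (fill_of_mdef hG' h1 ?_ (fun i _ => hall s i trivial))⟩
        intro i
        fin_cases i
        · change cc (some (p (0 + s))) = α (0 + s)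
          rw [zero_add, h2]
        · change cc (some (p (1 + s))) = α (1 + s)
          rw [add_comm 1 s, h3]
        · change cc (some (p (2 + s))) = α (2 + s)
          rw [add_comm 2 s, h4, hs]
        · change cc (some (p (3 + s))) = α (3 + s)
          rw [add_comm 3 s, h5]
    · push Not at hd
      -- all different
      have hinj : Function.Injective α := by
        intro i j hij
        by_contra hne
        have key : ∀ i j : Fin 4, i ≠ j → j = i + 1 ∨ j = i + 2 ∨ i = j + 1 := by decide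
        rcases key i j hne with h | h | h
        · rw [h] at hij
          exact hm i hij
        · rw [h] at hij
          exact hd i hij
        · rw [h] at hij
          exact hm j hij.symm
      obtain ⟨s, hs⟩ := (Finite.injective_iff_surjective.1 hinj) μ
      have n01 : α s ≠ α (s + 1) := hm s
      have n02 : α s ≠ α (s + 2) := hd s
      have n03 : α s ≠ α (s + 3) := fun h => by
        have := hinj h
        revert this
        fin_cases s <;> decide
      have n12 : α (s + 1) ≠ α (s + 2) := fun h => by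
        have := hinj h
        revert this
        fin_cases s <;> decide
      have n13 : α (s + 1) ≠ α (s + 3) := fun h => by
        have := hinj h
        revert this
        fin_cases s <;> decide
      have n23 : α (s + 2) ≠ α (s + 3) := fun h => by
        have := hinj h
        revert this
        fin_cases s <;> decide
      obtain ⟨cc, h1, h2, h3, h4, h5⟩ := q3 (Option W) S' G' T' _ _ _ _ _ hn (hT s)
        (α s) (α (s + 1)) (α (s + 2)) (α (s + 3)) n01 n02 n03 n12 n13 n23
      refine ⟨_, Fill4.turn (s := s) (fill_of_mdef hG' h1 ?_ ?_)⟩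
      · intro i
        fin_cases i
        · change cc (some (p (0 + s))) = α (0 + s)
          rw [zero_add, h2]
        · change cc (some (p (1 + s))) = α (1 + s)
          rw [add_comm 1 s, h3]
        · change cc (some (p (2 + s))) = α (2 + s)
          rw [add_comm 2 s, h4]
        · change cc (some (p (3 + s))) = α (3 + s)
          rw [add_comm 3 s, h5]
      · intro i hi
        fin_cases i
        · exfalso
          apply hi
          change α (0 + s) = μ
          rw [zero_add, hs]
        · change some (p (1 + s)) ∈ _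
          rw [add_comm 1 s]
          simp
        · change some (p (2 + s)) ∈ _
          rw [add_comm 2 s]
          simp
        · change some (p (3 + s)) ∈ _
          rw [add_comm 3 s]
          simp

end fill

section four

variable {W : Type} {H : SimpleGraph W} {T A : W → W → W → Prop} {L : ℕ} {c : ℕ → W}
  {S : Finset W}

/-- The Euler characteristic is determined. -/
theorem TriOn.chi_unique {χ χ' : ℤ} (h : TriOn χ S H T) (h' : TriOn χ' S H T) : χ = χ' := by
  have h1 := h.euler
  have h2 := h'.euler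
  omega

/-- The cap of a 4-cycle as a disc. -/
theorem cap_apex (hC : PCyc H 4 c) (hin : TriOn 2 (capS S A) (capG c A) (capT c A)) :
    Apex (capS S A) (capG c A) (capT c A) none (some (c 0)) (some (c 1)) (some (c 2))
      (some (c 3)) := by
  have hne : ∀ i j, i < 4 → j < 4 → i ≠ j → (some (c i) : Option W) ≠ some (c j) :=
    fun i j hi hj hij h => hij (hC.inj i hi j hj (Option.some.inj h))
  have h4 : c 4 = c 0 := hC.per 0
  refine ⟨hin, ?_, hne 0 1 (by omega) (by omega) (by omega), hne 0 2 (by omega) (by omega)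
    (by omega), hne 0 3 (by omega) (by omega) (by omega), hne 1 2 (by omega) (by omega) (by omega),
    hne 1 3 (by omega) (by omega) (by omega), hne 2 3 (by omega) (by omega) (by omega),
    ⟨0, Or.inl ⟨rfl, rfl⟩⟩, ⟨1, Or.inl ⟨rfl, rfl⟩⟩, ⟨2, Or.inl ⟨rfl, rfl⟩⟩,
    ⟨3, Or.inl ⟨rfl, h4.symm⟩⟩⟩
  rintro (_ | y)
  · constructor
    · intro h
      exact h.elim
    · rintro (h | h | h | h) <;> exact absurd h (by simp)
  · change (∃ i, c i = y) ↔ _
    constructor
    · rintro ⟨i, rfl⟩
      rw [hC.mod i]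
      have h5 : i % 4 < 4 := Nat.mod_lt _ (by omega)
      have h6 : i % 4 = 0 ∨ i % 4 = 1 ∨ i % 4 = 2 ∨ i % 4 = 3 := by omega
      rcases h6 with h6 | h6 | h6 | h6 <;> rw [h6] <;> simp
    · rintro (h | h | h | h)
      · exact ⟨0, (Option.some.inj h).symm⟩
      · exact ⟨1, (Option.some.inj h).symm⟩
      · exact ⟨2, (Option.some.inj h).symm⟩
      · exact ⟨3, (Option.some.inj h).symm⟩

/-- The parity of the indices on an edge of a 4-cycle. -/
theorem PCyc.parity (hC : PCyc H 4 c) {i j : ℕ} (h : CycE c (c i) (c j)) : (i + j) % 2 = 1 := by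
  obtain ⟨m, ⟨h1, h2⟩ | ⟨h1, h2⟩⟩ := h
  · rw [hC.eq_iff] at h1 h2
    omega
  · rw [hC.eq_iff] at h1 h2
    omega

/-- The 3-cycles of the cap which avoid the new vertex. -/
theorem cap_three (h : TriLoc S H T) (hC : PCyc H 4 c) (hA : Side T c A)
    (h3 : ∀ x y z, InS A x → InS A y → InS A z → H.Adj x y → H.Adj y z → H.Adj z x → T x y z)
    (x y z : Option W) (hx : x ≠ none) (hy : y ≠ none) (hz : z ≠ none)
    (hxy : (capG c A).Adj x y) (hyz : (capG c A).Adj y z) (hzx : (capG c A).Adj z x) :
    capT c A x y z := by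
  obtain ⟨x, rfl⟩ := Option.ne_none_iff_exists'.1 hx
  obtain ⟨y, rfl⟩ := Option.ne_none_iff_exists'.1 hy
  obtain ⟨z, rfl⟩ := Option.ne_none_iff_exists'.1 hz
  rw [hA.adj_iff h.adj] at hxy hyz hzx
  obtain ⟨p, hp⟩ := hxy
  obtain ⟨q, hq⟩ := hyz
  obtain ⟨r, hr⟩ := hzx
  have hT := h3 x y z ⟨_, _, hp⟩ ⟨_, _, hq⟩ ⟨_, _, hr⟩ (h.adj _ _ _ (hA.sub _ _ _ hp))
    (h.adj _ _ _ (hA.sub _ _ _ hq)) (h.adj _ _ _ (hA.sub _ _ _ hr))
  change A x y z
  by_contra hn
  have key : ∀ u v w t, A u v t → T u v w → ¬ A u v w → CycE c u v := by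
    intro u v w t h1 h2 h4
    by_contra h5
    have hne : t ≠ w := by
      rintro rfl
      exact h4 h1
    exact h4 (((hA.bd u v t w hne (hA.sub _ _ _ h1) h2).2 h5).1 h1)
  have e1 := key x y z p hp hT hn
  have e2 := key y z x q hq (h.rot _ _ _ hT) (fun h5 => hn (hA.rot _ _ _ (hA.rot _ _ _ h5)))
  have e3 := key z x y r hr (h.rot _ _ _ (h.rot _ _ _ hT)) (fun h5 => hn (hA.rot _ _ _ h5))
  obtain ⟨i, rfl⟩ := e1.mem
  obtain ⟨j, rfl⟩ := e2.mem
  obtain ⟨k, rfl⟩ := e3.mem
  have f1 := hC.parity e1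
  have f2 := hC.parity e2
  have f3 := hC.parity e3
  omega

/-- The third vertex of the triangle of the side at an edge of the cycle. -/
theorem Side.exists_third (hA : Side T c A) (h : TriLoc S H T) (hC : PCyc H 4 c) (i : ℕ) :
    ∃ z, A (c i) (c (i + 1)) z := by
  obtain ⟨a, b, hab, hz⟩ := h.two (hC.adj i)
  have ta := (hz a).2 (Or.inl rfl)
  have tb := (hz b).2 (Or.inr rfl)
  by_cases h1 : A (c i) (c (i + 1)) a
  · exact ⟨a, h1⟩
  · refine ⟨b, ?_⟩
    by_contra h2
    exact ((hA.bd _ _ _ _ hab ta tb).1 ⟨fun h3 => absurd h3 h1, fun h3 => absurd h3 h2⟩)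
      ⟨i, Or.inl ⟨rfl, rfl⟩⟩

/-- A 4-cycle without diagonals and without a centre has at least two vertices inside. -/
theorem Side.two_inside (hA : Side T c A) (h : TriLoc S H T) (hC : PCyc H 4 c)
    (hd1 : ¬ H.Adj (c 0) (c 2)) (hd2 : ¬ H.Adj (c 1) (c 3))
    (hm : ¬ ∃ m, Inn S c A m ∧ ∀ v, H.Adj m v ↔ v = c 0 ∨ v = c 1 ∨ v = c 2 ∨ v = c 3) :
    ∃ m m', Inn S c A m ∧ Inn S c A m' ∧ m ≠ m' := by
  have hd : ∀ i, ¬ H.Adj (c i) (c (i + 2)) := by
    intro i hi
    have h5 : i % 4 < 4 := Nat.mod_lt _ (by omega)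
    have h6 : i % 4 = 0 ∨ i % 4 = 1 ∨ i % 4 = 2 ∨ i % 4 = 3 := by omega
    have e2 : c (i + 2) = c (i % 4 + 2) := by
      rw [hC.eq_iff]
      omega
    rw [hC.mod i, e2] at hi
    rcases h6 with h6 | h6 | h6 | h6 <;> rw [h6] at hi
    · exact hd1 hi
    · exact hd2 hi
    · rw [show c (2 + 2) = c 0 from hC.per 0] at hi
      exact hd1 hi.symm
    · rw [show c (3 + 2) = c 1 from hC.per 1] at hi
      exact hd2 hi.symm
  have hthird : ∀ i z, A (c i) (c (i + 1)) z → Inn S c A z := by
    intro i z hz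
    have hT := hA.sub _ _ _ hz
    refine ⟨h.mem z (c i) (h.adj2 hT).2.2, ?_, _, _, hA.rot _ _ _ (hA.rot _ _ _ hz)⟩
    rintro j rfl
    have a1 := (h.adj2 hT).2.1
    have a2 := (h.adj2 hT).2.2
    have n1 := a1.ne
    have n2 := a2.ne
    rw [ne_eq, hC.eq_iff] at n1 n2
    have h7 : j % 4 = (i + 2) % 4 ∨ j % 4 = (i + 3) % 4 := by omega
    rcases h7 with h7 | h7
    · rw [hC.eq_iff.2 h7] at a2
      exact hd i a2.symm
    · rw [hC.eq_iff.2 h7] at a1
      exact hd (i + 1) a1
  obtain ⟨m, h0⟩ := hA.exists_third h hC 0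
  have hmI := hthird 0 m h0
  by_contra hcon
  push Not at hcon
  have hall : ∀ i, A (c i) (c (i + 1)) m := by
    intro i
    obtain ⟨z, hz⟩ := hA.exists_third h hC i
    rw [hcon m z hmI (hthird i z hz)]
    exact hz
  refine hm ⟨m, hmI, fun v => ⟨fun hv => ?_, ?_⟩⟩
  · rcases hA.inner_nb h hmI hv with hv' | ⟨i, rfl⟩
    · exact absurd (hcon m v hmI hv') hv.ne
    · rw [hC.mod i]
      have h5 : i % 4 < 4 := Nat.mod_lt _ (by omega)
      have h6 : i % 4 = 0 ∨ i % 4 = 1 ∨ i % 4 = 2 ∨ i % 4 = 3 := by omega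
      rcases h6 with h6 | h6 | h6 | h6 <;> rw [h6] <;> simp
  · have hadj : ∀ i, H.Adj m (c i) := fun i => (h.adj2 (hA.sub _ _ _ (hall i))).2.2
    rintro (rfl | rfl | rfl | rfl)
    · exact hadj 0
    · exact hadj 1
    · exact hadj 2
    · exact hadj 3

/-- The other side with its cap is smaller. -/
theorem Side.card_lt (hA : Side T c A) (h : TriLoc S H T) (hC : PCyc H 4 c)
    (hm : ∃ m m', Inn S c A m ∧ Inn S c A m' ∧ m ≠ m') :
    (capS S (fun x y z => T x y z ∧ ¬ A x y z)).card < S.card := by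
  classical
  obtain ⟨m, m', hm, hm', hne⟩ := hm
  have h1 := hA.card_both hC h
  have h2 : ({none, some (c 0), some (c 1), some (c 2), some (c 3), some m, some m'} :
      Finset (Option W)) ⊆ capS S A := by
    intro x hx
    simp only [mem_insert, mem_singleton] at hx
    have hc : ∀ i, some (c i) ∈ capS S A := fun i =>
      mem_capS_some.2 ⟨hC.mem h i, hA.inS_cyc hC i (Side.rot_cyc hC h)⟩
    rcases hx with rfl | rfl | rfl | rfl | rfl | rfl | rfl
    · exact none_mem_capS
    · exact hc 0
    · exact hc 1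
    · exact hc 2
    · exact hc 3
    · exact mem_capS_some.2 ⟨hm.1, hm.2.2⟩
    · exact mem_capS_some.2 ⟨hm'.1, hm'.2.2⟩
  have h3 : ({none, some (c 0), some (c 1), some (c 2), some (c 3), some m, some m'} :
      Finset (Option W)).card = 7 := by
    have e : ∀ i j, i < 4 → j < 4 → i ≠ j → c i ≠ c j :=
      fun i j hi hj hij h => hij (hC.inj i hi j hj h)
    rw [card_insert_of_notMem, card_insert_of_notMem, card_insert_of_notMem,
      card_insert_of_notMem, card_insert_of_notMem, card_insert_of_notMem, card_singleton]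
    · simpa using hne
    · simpa using ⟨hm.2.1 3, hm'.2.1 3⟩
    · simpa using ⟨e 2 3 (by omega) (by omega) (by omega), hm.2.1 2, hm'.2.1 2⟩
    · simpa using ⟨e 1 2 (by omega) (by omega) (by omega),
        e 1 3 (by omega) (by omega) (by omega), hm.2.1 1, hm'.2.1 1⟩
    · simpa using ⟨e 0 1 (by omega) (by omega) (by omega),
        e 0 2 (by omega) (by omega) (by omega), e 0 3 (by omega) (by omega) (by omega),
        hm.2.1 0, hm'.2.1 0⟩
    · simp
  have h4 := card_le_card h2
  omega

variable [Fintype W] [DecidableEq W]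

/-- **Filling a 4-cycle.** A colouring of the other side with its cap gives a colouring of the
whole graph. -/
theorem four_fill (h : TriLoc S H T) (hC : PCyc H 4 c) (hA : Side T c A)
    (hd1 : ¬ H.Adj (c 0) (c 2)) (hd2 : ¬ H.Adj (c 1) (c 3))
    (hin : TriOn 2 (capS S A) (capG c A) (capT c A)) {n : ℕ} (hn : (capS S A).card ≤ n)
    (q1 : Q1 n) (q2 : Q2 n) (q3 : Q3 n)
    (hmono : ∀ i, MonoPair (capG c A) (some (c i)) (some (c (i + 1))) (some (c (i + 2)))
      (some (c (i + 3)))) {W0 M : Set W} (hW0 : ∀ i, c i ∉ W0) (hM : ∀ m ∈ M, ¬ Inn S c A m)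
    {col0 : Option W → Fin 4}
    (h0 : MDef (capG c (fun x y z => T x y z ∧ ¬ A x y z)) (some '' W0) (some '' M) col0) :
    ∃ col : W → Fin 4, MDef H W0 M col ∧ ∀ x, ¬ Inn S c A x → col x = col0 (some x) := by
  have hA' := hA.compl h.rot h.swap
  have c4 : ∀ i, c (i + 4) = c i := hC.per
  have hdA : ∀ i, ¬ H.Adj (c i) (c (i + 2)) := by
    intro i hi
    have h5 : i % 4 < 4 := Nat.mod_lt _ (by omega)
    have h6 : i % 4 = 0 ∨ i % 4 = 1 ∨ i % 4 = 2 ∨ i % 4 = 3 := by omega
    have e2 : c (i + 2) = c (i % 4 + 2) := by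
      rw [hC.eq_iff]
      omega
    rw [hC.mod i, e2] at hi
    rcases h6 with h6 | h6 | h6 | h6 <;> rw [h6] at hi
    · exact hd1 hi
    · exact hd2 hi
    · rw [show c (2 + 2) = c 0 from hC.per 0] at hi
      exact hd1 hi.symm
    · rw [show c (3 + 2) = c 1 from hC.per 1] at hi
      exact hd2 hi.symm
  -- the colours on the cycle
  have hcyc : ∀ i, (capG c (fun x y z => T x y z ∧ ¬ A x y z)).Adj (some (c i))
      (some (c (i + 1))) := by
    intro i
    obtain ⟨z, hz⟩ := hA'.exists_third h hC i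
    exact (hA'.adj_iff h.adj).2 ⟨z, hz⟩
  have hs : ∀ i, ¬ (col0 (some (c i)) = col0 (some (c (i + 1))) ∧
      col0 (some (c (i + 1))) = col0 (some (c (i + 2)))) := by
    rintro i ⟨e1, e2⟩
    have hn0 : ∀ j, some (c j) ∉ (some '' W0 : Set (Option W)) := by
      rintro j ⟨w, hw, hwv⟩
      exact hW0 j (Option.some.inj hwv ▸ hw)
    have e := h0.uniq (hn0 (i + 1)) (hn0 i) (hn0 (i + 2)) (hcyc i).symm (hcyc (i + 1)) e1 e2.symm
    exact hC.ne_two i (Option.some.inj e)
  let p : Fin 4 → W := fun i => c i.1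
  have hp : ∀ (i : Fin 4) (m : ℕ), p (i + (Fin.ofNat 4 m)) = c (i.1 + m) := by
    intro i m
    change c ((i.1 + m % 4) % 4) = c (i.1 + m)
    rw [hC.eq_iff]
    omega
  have hap := cap_apex hC hin
  have hG' : ∀ x u, Inn S c A x → H.Adj x u → (capG c A).Adj (some x) (some u) := by
    intro x u hx hxu
    obtain ⟨z, hz⟩ := h.exists_tri hxu
    exact (hA.adj_iff h.adj).2 ⟨z, hA.inner_tri h hx hz⟩
  have hnd : ∀ x y, (capG c A).Adj (some x) (some y) → H.Adj x y := by
    intro x y hxy
    obtain ⟨z, hz⟩ := (hA.adj_iff h.adj).1 hxy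
    exact h.adj _ _ _ (hA.sub _ _ _ hz)
  have hmono' : ∀ s : Fin 4, MonoPair (capG c A) (some (p s)) (some (p (s + 1)))
      (some (p (s + 2))) (some (p (s + 3))) := by
    intro s
    have h5 := hmono s.1
    have e1 := hp s 1
    have e2 := hp s 2
    have e3 := hp s 3
    change MonoPair (capG c A) (some (c s.1)) (some (p (s + Fin.ofNat 4 1)))
      (some (p (s + Fin.ofNat 4 2))) (some (p (s + Fin.ofNat 4 3)))
    rw [e1, e2, e3]
    exact h5
  have hs' : ∀ i : Fin 4, ¬ (col0 (some (p i)) = col0 (some (p (i + 1))) ∧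
      col0 (some (p (i + 1))) = col0 (some (p (i + 2)))) := by
    intro i
    have e1 := hp i 1
    have e2 := hp i 2
    change ¬ (col0 (some (c i.1)) = col0 (some (p (i + Fin.ofNat 4 1))) ∧
      col0 (some (p (i + Fin.ofNat 4 1))) = col0 (some (p (i + Fin.ofNat 4 2))))
    rw [e1, e2]
    exact hs i.1
  obtain ⟨col1, hf⟩ := exists_fill (H := H) (I := Inn S c A) (p := p)
    (α := fun i => col0 (some (p i))) (μ := col0 none) q1 q2 q3 hn hap
    (fun h5 => hd1 (hnd _ _ h5)) (fun h5 => hd2 (hnd _ _ h5)) hmono'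
    (fun x hx i h5 => hx.2.1 i.1 h5.symm) hG' hs'
  refine four_glue h hC hA hd1 hd2 hM h0 (col1 := col1) ⟨?_, hf.fone, ?_, ?_⟩
  · intro i
    have h5 := hf.fcol ⟨i % 4, Nat.mod_lt _ (by omega)⟩
    change col1 (c i) = col0 (some (c i))
    rw [hC.mod i]
    exact h5
  · intro i
    have h5 := hf.ffew ⟨i % 4, Nat.mod_lt _ (by omega)⟩
    change {u | Inn S c A u ∧ H.Adj (c i) u ∧ col1 u = col0 (some (c i))}.ncard ≤ 1
    rw [hC.mod i]
    exact h5
  · intro i hi u hu
    have h5 := hf.fsat ⟨i % 4, Nat.mod_lt _ (by omega)⟩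
    change col0 (some (c i)) ≠ col0 none at hi
    change H.Adj (c i) u → col1 u ≠ col0 (some (c i))
    rw [hC.mod i] at hi ⊢
    exact h5 hi u hu

end four

end Pool.Agent.W986
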