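import Pool.Agent.W986.SubIface
import Pool.Agent.W986.SubConv
import Pool.Agent.W986.Reduce
import Pool.Agent.W986.CovNoSep

/-!
# The projective plane from reductions

Induction on the number of vertices. `ThinCol`: short odd cycles; `FourCol`: even 4-cycles with
more than one vertex inside; `RegionRed 1`: the reduction of a region.
-/

set_option autoImplicit false

open Finset

namespace Pool.Agent.W986

open Pool.Agent.DC76

/-- The triangulations of the projective plane with fewer than `n` vertices have colourings. -/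
def Below (n : ℕ) : Prop :=
  ∀ (V' F' : Type) [Fintype V'] [DecidableEq V'] [Fintype F'] (G' : SimpleGraph V')
    (M' : FacialWalks G' F'), Fintype.card V' < n → G'.Connected → Link M' →
    (∀ f, M'.len f = 3) → (Fintype.card V' : ℤ) - G'.edgeSet.ncard + Fintype.card F' = 1 →
    ∃ c : V' → Fin 4, Defective G' 1 c

/-- A statement about the triangulations of the projective plane in which all smaller ones have
colourings and every even triangle is a face. -/
def TriStep (P : ∀ (V F : Type) [Fintype V] [DecidableEq V] [Fintype F] (G : SimpleGraph V)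
    (_ : FacialWalks G F) (_ : V → V → ZMod 2), Prop) : Prop :=
  ∀ (V F : Type) [Fintype V] [DecidableEq V] [Fintype F] (G : SimpleGraph V)
    (M : FacialWalks G F) (X : V → V → ZMod 2), G.Connected → Link M → (∀ f, M.len f = 3) →
    (Fintype.card V : ℤ) - G.edgeSet.ncard + Fintype.card F = 1 → Below (Fintype.card V) →
    (∀ x y, X x y = X y x) →
    (∀ f, ∑ t ∈ range (M.len f), X (M.walk f t) (M.walk f (t + 1)) = 0) →
    (¬ ∃ h : V → ZMod 2, ∀ x y, G.Adj x y → h x + h y = X x y) →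
    (∀ x y z, G.Adj x y → G.Adj y z → G.Adj z x → X x y + X y z + X z x = 0 → Facial M x y z) →
    P V F G M X

/-- The induction. -/
theorem colour_ind (h : TriStep fun V _ _ _ _ G _ _ => ∃ c : V → Fin 4, Defective G 1 c) :
    ∀ n, Below n := by
  intro n
  induction n with
  | zero =>
    intro V F _ _ _ G M hn hG
    omega
  | succ n ih =>
    intro V F _ _ _ G M hn hG hL h3 hχ
    have hB : Below (Fintype.card V) := fun V' F' _ _ _ G' M' hlt => ih V' F' G' M' (by omega)
    by_cases hE : ∃ x y, G.Adj x y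
    · obtain ⟨X, hX, hf, hodd⟩ := exists_cocycle M hχ hE
      by_cases htri : ∀ x y z, G.Adj x y → G.Adj y z → G.Adj z x →
          X x y + X y z + X z x = 0 → Facial M x y z
      · exact h V F G M X hG hL h3 hχ hB hX hf hodd htri
      · push Not at htri
        obtain ⟨x, y, z, hxy, hyz, hzx, h0, hnf⟩ := htri
        obtain ⟨I, hI⟩ := exists_cut M hG hχ hX hf hodd hxy hyz hzx h0
        exact septri hI hL h3 hG hxy hyz hzx hχ hnf hB
    · refine ⟨fun _ => 0, fun v => ?_⟩
      have h1 : {u | G.Adj v u ∧ (0 : Fin 4) = 0} = ∅ := by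
        rw [Set.eq_empty_iff_forall_notMem]
        rintro u ⟨hu, _⟩
        exact hE ⟨v, u, hu⟩
      rw [h1, Set.ncard_empty]
      omega

/-- Every projective-planar graph has a `(4, 1)`-colouring. -/
theorem projective_of_ind (h : TriStep fun V _ _ _ _ G _ _ => ∃ c : V → Fin 4, Defective G 1 c) :
    AllCol @ProjectivePlanar 4 1 :=
  projective_of_tri fun V F _ _ _ G M hG hL h3 hχ _ _ _ _ _ =>
    colour_ind h (Fintype.card V + 1) V F G M (by omega) hG hL h3 hχ

/-- Short odd cycles. -/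
def ThinCol : Prop :=
  TriStep fun V _ _ _ _ G _ X =>
    ((∃ x y z, G.Adj x y ∧ G.Adj y z ∧ G.Adj z x ∧ X x y + X y z + X z x = 1) ∨
      ∃ x y z w, x ≠ z ∧ y ≠ w ∧ G.Adj x y ∧ G.Adj y z ∧ G.Adj z w ∧ G.Adj w x ∧
        X x y + X y z + X z w + X w x = 1) →
    ∃ c : V → Fin 4, Defective G 1 c

/-- Even 4-cycles without diagonals have at most one vertex inside. -/
def FourCol : Prop :=
  TriStep fun V _ _ _ _ G _ X =>
    ∀ x y z w, x ≠ z → y ≠ w → G.Adj x y → G.Adj y z → G.Adj z w → G.Adj w x →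
      ¬ G.Adj x z → ¬ G.Adj y w → X x y + X y z + X z w + X w x = 0 →
      (¬ ∃ m, ∀ v, G.Adj m v ↔ v = x ∨ v = y ∨ v = z ∨ v = w) →
      ∃ c : V → Fin 4, Defective G 1 c

theorem mdef_of_defective {V : Type} [Finite V] {G : SimpleGraph V} {c : V → Fin 4}
    (h : Defective G 1 c) : MDef G ∅ ∅ c := by
  intro v _
  refine ⟨(Set.ncard_le_ncard ?_ (Set.toFinite _)).trans (h v), fun hv => absurd hv (by simp)⟩
  rintro u ⟨_, h2⟩
  exact h2

theorem defective_of_mdef {V : Type} [Finite V] {G : SimpleGraph V} {c : V → Fin 4}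
    (h : MDef G ∅ ∅ c) : Defective G 1 c := by
  intro v
  refine (Set.ncard_le_ncard ?_ (Set.toFinite _)).trans (h v (by simp)).1
  rintro u hu
  exact ⟨by simp, hu⟩

/-- A colouring of the quotient by induction. -/
theorem colour_quot {V : Type} [Fintype V] [DecidableEq V] {G : SimpleGraph V}
    {T : V → V → V → Prop} {S : Finset V} (h : TriOn 1 S G T) (hne : S.Nonempty)
    (hB : Below (S.card + 1)) : ∃ c : V → Fin 4, Defective G 1 c := by
  obtain ⟨s, hs⟩ := hne
  have : Nonempty {v // v ∈ S} := ⟨⟨s, hs⟩⟩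
  obtain ⟨hG, F, iF, M, hL, hl, _, hχ⟩ := h.toType.exists_walks
  obtain ⟨c, hc⟩ := hB _ F _ M (by rw [Fintype.card_coe]; omega) hG hL hl hχ
  refine ⟨fun v => if h : v ∈ S then c ⟨v, h⟩ else 0, fun v => ?_⟩
  by_cases hv : v ∈ S
  · have h1 := hc ⟨v, hv⟩
    rw [Set.ncard_le_one (Set.toFinite _)] at h1
    apply ncard_le_one_of
    rintro x ⟨hx, hcx⟩ y ⟨hy, hcy⟩
    have hxS := h.mem _ _ hx.symm
    have hyS := h.mem _ _ hy.symm
    change (if h : x ∈ S then c ⟨x, h⟩ else 0) = (if h : v ∈ S then c ⟨v, h⟩ else 0) at hcx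
    change (if h : y ∈ S then c ⟨y, h⟩ else 0) = (if h : v ∈ S then c ⟨v, h⟩ else 0) at hcy
    rw [dif_pos hxS, dif_pos hv] at hcx
    rw [dif_pos hyS, dif_pos hv] at hcy
    exact congrArg Subtype.val (h1 ⟨x, hxS⟩ ⟨hx, hcx⟩ ⟨y, hyS⟩ ⟨hy, hcy⟩)
  · apply ncard_le_one_of
    rintro x ⟨hx, _⟩
    exact absurd (h.mem _ _ hx) hv

/-- **The assembly.** -/
theorem sub_main (hT : ThinCol) (h4 : FourCol) (hR : RegionRed 1) :
    TriStep fun V _ _ _ _ G _ _ => ∃ c : V → Fin 4, Defective G 1 c := by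
  intro V F _ _ _ G M X hG hL h3 hχ hB hX hf hodd htri
  by_contra hcon
  have z2 : ∀ a : ZMod 2, a = 0 ∨ a = 1 := by decide
  -- the short cycles are even
  have e3 : ∀ x y z, G.Adj x y → G.Adj y z → G.Adj z x → X x y + X y z + X z x = 0 := by
    intro x y z hxy hyz hzx
    rcases z2 (X x y + X y z + X z x) with h | h
    · exact h
    · exact absurd (hT V F G M X hG hL h3 hχ hB hX hf hodd htri
        (Or.inl ⟨x, y, z, hxy, hyz, hzx, h⟩)) hcon
  have e4 : ∀ x y z w, x ≠ z → y ≠ w → G.Adj x y → G.Adj y z → G.Adj z w → G.Adj w x →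
      X x y + X y z + X z w + X w x = 0 := by
    intro x y z w hxz hyw hxy hyz hzw hwx
    rcases z2 (X x y + X y z + X z w + X w x) with h | h
    · exact h
    · exact absurd (hT V F G M X hG hL h3 hχ hB hX hf hodd htri
        (Or.inr ⟨x, y, z, w, hxz, hyw, hxy, hyz, hzw, hwx, h⟩)) hcon
  have hE : ∃ x y, G.Adj x y := by
    by_contra hE
    refine hodd ⟨fun _ => 0, fun x y hxy => absurd ⟨x, y, hxy⟩ hE⟩
  obtain ⟨x0, y0, hxy0⟩ := hE
  have hnb : ∀ v, ∃ w, G.Adj v w := by
    intro v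
    by_cases hv : v = x0
    · exact ⟨y0, hv ▸ hxy0⟩
    · obtain ⟨p⟩ := hG.preconnected v x0
      cases p with
      | nil => exact absurd rfl hv
      | cons h _ => exact ⟨_, h⟩
  have hO := triOn_of_walks M hL hG h3 hχ ⟨x0, y0, hxy0⟩
  have hReg : Region univ G (Tri M) univ := by
    refine ⟨subset_univ _, ?_, ?_, ?_, ?_, ?_⟩
    · intro v _
      obtain ⟨w, hw⟩ := hnb v
      obtain ⟨d, ν, hν⟩ := hO.rotation v (mem_univ _)
      rw [hν.card]
      by_contra hd
      have h3d := hν.three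
      have hd3 : d = 3 := by omega
      subst hd3
      obtain ⟨u, hu, h0, h1, h2⟩ := four_nbrs hG M h3 hχ hX hf htri hw (ν 0) (ν 1) (ν 2)
      obtain ⟨i, hi, hi2⟩ := (hν.adj u).1 hu
      have hi' : i = 0 ∨ i = 1 ∨ i = 2 := by omega
      rcases hi' with rfl | rfl | rfl
      · exact h0 hi2.symm
      · exact h1 hi2.symm
      · exact h2 hi2.symm
    · intro a _ b c hab hbc hca
      exact tri_of_facial M h3 hab.ne hbc.ne hca.ne (htri a b c hab hbc hca (e3 a b c hab hbc hca))
    · intro a _ b c d hac hbd hab hbc hcd hda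
      by_contra hno
      push Not at hno
      obtain ⟨n1, n2, n3⟩ := hno
      refine hcon (h4 V F G M X hG hL h3 hχ hB hX hf hodd htri a b c d hac hbd hab hbc hcd hda
        n1 n2 (e4 a b c d hac hbd hab hbc hcd hda) ?_)
      rintro ⟨m, hm⟩
      obtain ⟨x, hx⟩ := n3 m (mem_univ _)
      rcases hx with ⟨h5, h6⟩ | ⟨h5, h6⟩
      · have h7 := (hm x).1 h5
        exact absurd h7 (by push Not; exact ⟨h6.1, h6.2.1, h6.2.2.1, h6.2.2.2⟩)
      · exact h5 ((hm x).2 h6)
    · intro k _ u v hu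
      exact absurd (mem_univ _) hu
    · left
      refine ⟨fun _ _ _ _ => mem_univ _, ?_⟩
      have h6 := hO.euler
      rw [Finset.sum_sub_distrib, Finset.sum_const, nsmul_eq_mul]
      linarith
  obtain ⟨ρ, K, hK, hS, hlt, hq, _, _, _, hlift⟩ := hR V univ G (Tri M) univ hO hReg
  have hne : ((univ : Finset V).image ρ).Nonempty := ⟨ρ x0, mem_image_of_mem _ (mem_univ _)⟩
  obtain ⟨c', hc'⟩ := colour_quot hq hne fun V' F' _ _ _ G' M' hlt' =>
    hB V' F' G' M' (by rw [card_univ] at hlt; omega)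
  obtain ⟨c, hc, _⟩ := hlift ∅ ∅ (fun w hw => absurd hw (by simp)) (fun m hm => absurd hm (by simp))
    c' (by rw [Set.image_empty]; exact mdef_of_defective hc')
  exact hcon ⟨c, defective_of_mdef hc⟩

end Pool.Agent.W986
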