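import Pool.Agent.W986.SubRing
import Pool.Agent.W986.SubCap

/-!
# The capped disc of a one-sided cycle

A triangulation of the projective plane is cut along a one-sided cycle without chords; the disc,
which contains one lift of every other vertex and both lifts of the vertices of the cycle, is
capped with a new vertex.
-/

set_option autoImplicit false

open Finset

namespace Pool.Agent.W986

open Pool.Agent.DC76

section gen

variable {W : Type}

/-- The graph on `D` with a new vertex which is joined to `R`. -/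
def dG (H : SimpleGraph W) (D R : Set W) : SimpleGraph (Option W) where
  Adj p q := match p, q with
    | some x, some y => H.Adj x y ∧ x ∈ D ∧ y ∈ D
    | some x, none => x ∈ R
    | none, some y => y ∈ R
    | none, none => False
  symm := ⟨by
    rintro (_ | x) (_ | y) h
    · exact h
    · exact h
    · exact h
    · exact ⟨h.1.symm, h.2.2, h.2.1⟩⟩
  loopless := ⟨by
    rintro (_ | x) h
    · exact h
    · exact h.1.ne rfl⟩

theorem dG_some {H : SimpleGraph W} {D R : Set W} {x y : W} :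
    (dG H D R).Adj (some x) (some y) ↔ H.Adj x y ∧ x ∈ D ∧ y ∈ D := Iff.rfl

theorem dG_none {H : SimpleGraph W} {D R : Set W} {y : W} :
    (dG H D R).Adj none (some y) ↔ y ∈ R := Iff.rfl

theorem dG_none' {H : SimpleGraph W} {D R : Set W} {x : W} :
    (dG H D R).Adj (some x) none ↔ x ∈ R := Iff.rfl

/-- A triangulation of the sphere. -/
theorem TriSphere.triOn [Fintype W] {H : SimpleGraph W} {T : W → W → W → Prop}
    (h : TriSphere H T) : TriOn 2 univ H T := by
  refine ⟨⟨h.rot, h.swap, h.adj, fun _ _ _ => mem_univ _, fun x _ => h.rotation x, ?_⟩, ?_⟩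
  · intro x _ y _
    have h1 := h.conn x trivial y trivial
    induction h1 with
    | refl => exact SimpleGraph.Reachable.refl _
    | tail _ h2 ih => exact (ih (mem_univ _)).trans h2.2.reachable
  · have h1 := h.euler
    rw [card_univ]
    zify at h1
    linarith

end gen

section cut

variable {V : Type} [Fintype V] [DecidableEq V] {G : SimpleGraph V}
  {X : V → V → ZMod 2} {hX : ∀ x y, X x y = X y x} {w : ℕ} {z : ℕ → V}
  {T : V × ZMod 2 → V × ZMod 2 → V × ZMod 2 → Prop}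
  {s : V × ZMod 2 → V × ZMod 2 → V × ZMod 2 → ZMod 2}

theorem Cutt.pcyc (h : Cutt G X hX w z T s) : PCyc (cover G X hX) (w + w) (lft X z 0) :=
  ⟨by have := h.three; omega, h.cper, h.cinj, h.cadj⟩

/-- The side `s = 1`. -/
def sideA (T : V × ZMod 2 → V × ZMod 2 → V × ZMod 2 → Prop)
    (s : V × ZMod 2 → V × ZMod 2 → V × ZMod 2 → ZMod 2) (p q r : V × ZMod 2) : Prop :=
  T p q r ∧ s p q r = 1

theorem Cutt.side (h : Cutt G X hX w z T s) : Side T (lft X z 0) (sideA T s) := by
  have hw := h.three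
  refine side_of_fun h.rot h.swap h.sph.rot h.sph.swap ?_ 1
  intro x y a b hab ha hb
  rw [h.bdry x y a b hab ha hb]
  constructor
  · rintro h1 ⟨i, ⟨rfl, rfl⟩ | ⟨rfl, rfl⟩⟩
    · rw [trav_ring (by omega) h.cper h.cinj, Nat.cast_one] at h1
      exact one_ne_zero h1
    · rw [trav_comm, trav_ring (by omega) h.cper h.cinj, Nat.cast_one] at h1
      exact one_ne_zero h1
  · intro h1
    have h2 : trav (w + w) (lft X z 0) x y = 0 := by
      by_contra hcon
      obtain ⟨t, _, ht | ht⟩ := trav_ne_zero hcon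
      · exact h1 ⟨t, Or.inl ⟨ht.1.symm, ht.2.symm⟩⟩
      · exact h1 ⟨t, Or.inr ⟨ht.1.symm, ht.2.symm⟩⟩
    rw [h2, Nat.cast_zero]

omit [Fintype V] [DecidableEq V] in
theorem mem_disc {p : V × ZMod 2} : p ∈ disc T s ↔ InS (sideA T s) p := Iff.rfl

theorem Cutt.capG_eq (h : Cutt G X hX w z T s)
    (hind : ∀ i j, G.Adj (z i) (z j) → z j = z (i + 1) ∨ z i = z (j + 1)) :
    capG (lft X z 0) (sideA T s) =
      dG (cover G X hX) (disc T s) {p | p.1 ∈ Set.range z} := by
  have hc : ∀ p : V × ZMod 2, (∃ i, lft X z 0 i = p) ↔ p.1 ∈ Set.range z := by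
    intro p
    constructor
    · rintro ⟨i, rfl⟩
      exact ⟨i, rfl⟩
    · exact h.exists_c
  ext p q
  rcases p with _ | p <;> rcases q with _ | q
  · exact Iff.rfl
  · exact hc q
  · exact hc p
  · rw [h.side.adj_iff h.sph.adj, dG_some]
    constructor
    · rintro ⟨r, h1, h2⟩
      exact ⟨h.sph.adj _ _ _ h1, ⟨_, _, h1, h2⟩,
        ⟨_, _, h.sph.swap _ _ _ h1, (h.swap _ _ _).symm.trans h2⟩⟩
    · rintro ⟨h1, h2, h3⟩
      exact h.tri_of_adj hind h2 h3 h1

/-- **The capped disc of a one-sided cycle.** -/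
theorem thin_disc {F : Type} [Fintype F] (M : FacialWalks G F) (hG : G.Connected) (hL : Link M)
    (h3 : ∀ f, M.len f = 3)
    (hχ : (Fintype.card V : ℤ) - G.edgeSet.ncard + Fintype.card F = 1)
    (hX : ∀ x y, X x y = X y x)
    (hf : ∀ f, ∑ t ∈ range (M.len f), X (M.walk f t) (M.walk f (t + 1)) = 0)
    (hodd : ¬ ∃ h : V → ZMod 2, ∀ x y, G.Adj x y → h x + h y = X x y)
    (htri : ∀ x y z, G.Adj x y → G.Adj y z → G.Adj z x → X x y + X y z + X z x = 0 →
      Facial M x y z)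
    {w : ℕ} {z : ℕ → V} (hw : 3 ≤ w) (hper : ∀ t, z (t + w) = z t)
    (hinj : ∀ i, i < w → ∀ j, j < w → z i = z j → i = j) (hadj : ∀ t, G.Adj (z t) (z (t + 1)))
    (hodd1 : ∑ t ∈ range w, X (z t) (z (t + 1)) = 1)
    (hind : ∀ i j, G.Adj (z i) (z j) → z j = z (i + 1) ∨ z i = z (j + 1)) :
    ∃ (D : Set (V × ZMod 2))
      (T : Option (V × ZMod 2) → Option (V × ZMod 2) → Option (V × ZMod 2) → Prop)
      (S : Finset (Option (V × ZMod 2))),
      TriOn 2 S (dG (cover G X hX) D {p | p.1 ∈ Set.range z}) T ∧ none ∈ S ∧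
      (∀ p, some p ∈ S ↔ p ∈ D) ∧ (∀ v ∈ Set.range z, ∀ a, (v, a) ∈ D) ∧
      (∀ v, v ∉ Set.range z → ∀ a, (v, a) ∈ D ↔ (v, a + 1) ∉ D) ∧
      (∀ p ∈ D, p.1 ∉ Set.range z → ∀ q, (cover G X hX).Adj p q → q ∈ D) ∧
      (∀ t, T none (some (lft X z 0 t)) (some (lft X z 0 (t + 1)))) ∧
      ∀ p q r, (dG (cover G X hX) D {p | p.1 ∈ Set.range z}).Adj p q →
        (dG (cover G X hX) D {p | p.1 ∈ Set.range z}).Adj q r →
        (dG (cover G X hX) D {p | p.1 ∈ Set.range z}).Adj r p → T p q r := by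
  obtain ⟨T, hS, hT, hant, hsep, _⟩ := cover_all M hL hG h3 hχ hX hf hodd htri
  have htwo : ∀ p q, (cover G X hX).Adj p q → ∃ a b, a ≠ b ∧ T p q a ∧ T p q b := by
    intro p q hpq
    obtain ⟨a, b, hab, ha, hb, _⟩ := hS.two hpq
    exact ⟨a, b, hab, ha, hb⟩
  obtain ⟨s, hrot, hswap, hbd, hanti⟩ :=
    exists_lift_sides M hL hG hχ h3 hX hf hodd hT htwo hper hadj hodd1
  have h : Cutt G X hX w z T s :=
    ⟨hS, hant, hw, hper, hinj, hadj, hodd1, hrot, hswap, hbd, hanti⟩
  have h1 : TriOn 2 (capS univ (sideA T s)) (capG (lft X z 0) (sideA T s))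
      (capT (lft X z 0) (sideA T s)) := hS.triOn.cap_sphere h.pcyc h.side
  rw [h.capG_eq hind] at h1
  have hc : ∀ p q : V × ZMod 2, p.1 ∈ Set.range z → q.1 ∈ Set.range z →
      (cover G X hX).Adj p q → CycE (lft X z 0) p q := by
    intro p q hp hq hpq
    obtain ⟨t, ht⟩ := h.consec hind hp hq hpq
    exact ⟨t, ht⟩
  refine ⟨disc T s, capT (lft X z 0) (sideA T s), capS univ (sideA T s), h1, none_mem_capS,
    fun p => ?_, fun v hv a => ?_, fun v hv a => h.one_lift hv a, fun p hp hp' q hpq => ?_,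
    fun t => ?_, ?_⟩
  · rw [mem_capS_some, mem_disc]
    exact ⟨fun h2 => h2.2, fun h2 => ⟨mem_univ _, h2⟩⟩
  · exact h.ring_mem hv
  · exact h.closed hp hp' hpq
  · exact ⟨t, Or.inl ⟨rfl, rfl⟩⟩
  · rintro (_ | p) (_ | q) (_ | r) h2 h4 h5
    · exact h2.elim
    · exact h2.elim
    · exact h5.elim
    · exact hc q r h2 h5 h4.1
    · exact h4.elim
    · exact hc p r h2 h4 h5.1.symm
    · exact hc p q h5 h4 h2.1
    · exact h.tri_of_three hind hsep h2.2.1 h2.2.2 h4.2.2 h2.1 h4.1 h5.1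

end cut

end Pool.Agent.W986
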