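import Pool.Agent.W986.SubThin

/-!
# The shortest odd cycle of a thin triangulation

From an odd 3-cycle or an odd 4-cycle one gets an odd cycle of length 3 or 4 without chords.
-/

set_option autoImplicit false

open Finset

namespace Pool.Agent.W986

section ring3

variable {V : Type}

/-- The periodic sequence `x, y, z`. -/
def seq3 (x y z : V) (t : ℕ) : V := if t % 3 = 0 then x else if t % 3 = 1 then y else z

/-- The periodic sequence `x, y, z, u`. -/
def seq4 (x y z u : V) (t : ℕ) : V :=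
  if t % 4 = 0 then x else if t % 4 = 1 then y else if t % 4 = 2 then z else u

theorem seq3_cases (x y z : V) (t : ℕ) :
    (t % 3 = 0 ∧ seq3 x y z t = x ∧ seq3 x y z (t + 1) = y) ∨
      (t % 3 = 1 ∧ seq3 x y z t = y ∧ seq3 x y z (t + 1) = z) ∨
      (t % 3 = 2 ∧ seq3 x y z t = z ∧ seq3 x y z (t + 1) = x) := by
  have h : t % 3 = 0 ∨ t % 3 = 1 ∨ t % 3 = 2 := by omega
  rcases h with h | h | h
  · left
    have h1 : (t + 1) % 3 = 1 := by omega
    simp [seq3, h, h1]
  · right; left
    have h1 : (t + 1) % 3 = 2 := by omega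
    simp [seq3, h, h1]
  · right; right
    have h1 : (t + 1) % 3 = 0 := by omega
    simp [seq3, h, h1]

theorem seq4_cases (x y z u : V) (t : ℕ) :
    (t % 4 = 0 ∧ seq4 x y z u t = x ∧ seq4 x y z u (t + 1) = y) ∨
      (t % 4 = 1 ∧ seq4 x y z u t = y ∧ seq4 x y z u (t + 1) = z) ∨
      (t % 4 = 2 ∧ seq4 x y z u t = z ∧ seq4 x y z u (t + 1) = u) ∨
      (t % 4 = 3 ∧ seq4 x y z u t = u ∧ seq4 x y z u (t + 1) = x) := by
  have h : t % 4 = 0 ∨ t % 4 = 1 ∨ t % 4 = 2 ∨ t % 4 = 3 := by omega
  rcases h with h | h | h | h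
  · left
    have h1 : (t + 1) % 4 = 1 := by omega
    simp [seq4, h, h1]
  · right; left
    have h1 : (t + 1) % 4 = 2 := by omega
    simp [seq4, h, h1]
  · right; right; left
    have h1 : (t + 1) % 4 = 3 := by omega
    simp [seq4, h, h1]
  · right; right; right
    have h1 : (t + 1) % 4 = 0 := by omega
    simp [seq4, h, h1]

variable {G : SimpleGraph V} {X : V → V → ZMod 2}

/-- An odd cycle of length 3 or 4 without chords. -/
theorem exists_short_ring (hX : ∀ x y, X x y = X y x)
    (h : (∃ x y z, G.Adj x y ∧ G.Adj y z ∧ G.Adj z x ∧ X x y + X y z + X z x = 1) ∨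
      ∃ x y z w, x ≠ z ∧ y ≠ w ∧ G.Adj x y ∧ G.Adj y z ∧ G.Adj z w ∧ G.Adj w x ∧
        X x y + X y z + X z w + X w x = 1) :
    ∃ (w : ℕ) (z : ℕ → V), (w = 3 ∨ w = 4) ∧ (∀ t, z (t + w) = z t) ∧
      (∀ i, i < w → ∀ j, j < w → z i = z j → i = j) ∧ (∀ t, G.Adj (z t) (z (t + 1))) ∧
      ∑ t ∈ range w, X (z t) (z (t + 1)) = 1 ∧
      ∀ i j, G.Adj (z i) (z j) → z j = z (i + 1) ∨ z i = z (j + 1) := by
  by_cases h3 : ∃ x y z, G.Adj x y ∧ G.Adj y z ∧ G.Adj z x ∧ X x y + X y z + X z x = 1
  · obtain ⟨x, y, z, hxy, hyz, hzx, h1⟩ := h3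
    refine ⟨3, seq3 x y z, Or.inl rfl, fun t => ?_, ?_, fun t => ?_, ?_, fun i j hij => ?_⟩
    · simp [seq3]
    · have e0 : seq3 x y z 0 = x := rfl
      have e1 : seq3 x y z 1 = y := rfl
      have e2 : seq3 x y z 2 = z := rfl
      intro i hi j hj hij
      have hi' : i = 0 ∨ i = 1 ∨ i = 2 := by omega
      have hj' : j = 0 ∨ j = 1 ∨ j = 2 := by omega
      rcases hi' with rfl | rfl | rfl <;> rcases hj' with rfl | rfl | rfl <;>
        first
          | rfl
          | (exfalso; rw [e0, e1] at hij; exact hxy.ne hij)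
          | (exfalso; rw [e1, e0] at hij; exact hxy.ne hij.symm)
          | (exfalso; rw [e1, e2] at hij; exact hyz.ne hij)
          | (exfalso; rw [e2, e1] at hij; exact hyz.ne hij.symm)
          | (exfalso; rw [e2, e0] at hij; exact hzx.ne hij)
          | (exfalso; rw [e0, e2] at hij; exact hzx.ne hij.symm)
    · rcases seq3_cases x y z t with ⟨_, e1, e2⟩ | ⟨_, e1, e2⟩ | ⟨_, e1, e2⟩ <;> rw [e1, e2] <;>
        assumption
    · rw [sum_range_succ, sum_range_succ, sum_range_succ, sum_range_zero, zero_add]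
      exact h1
    · rcases seq3_cases x y z i with ⟨_, e1, e2⟩ | ⟨_, e1, e2⟩ | ⟨_, e1, e2⟩ <;>
        rcases seq3_cases x y z j with ⟨_, f1, f2⟩ | ⟨_, f1, f2⟩ | ⟨_, f1, f2⟩ <;>
        rw [e1, f1] at hij <;> rw [e1, f1, e2, f2] <;>
        first
          | exact absurd rfl hij.ne
          | exact Or.inl rfl
          | exact Or.inr rfl
  · have h3' : ∀ x y z, G.Adj x y → G.Adj y z → G.Adj z x → X x y + X y z + X z x = 0 := by
      intro x y z h1 h2 h4
      have z2 : ∀ a : ZMod 2, a = 0 ∨ a = 1 := by decide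
      rcases z2 (X x y + X y z + X z x) with h5 | h5
      · exact h5
      · exact absurd ⟨x, y, z, h1, h2, h4, h5⟩ h3
    obtain ⟨x, y, z, u, hxz, hyu, hxy, hyz, hzu, hux, h1⟩ := h.resolve_left h3
    have n1 : ¬ G.Adj x z := by
      intro hc
      have h4 := h3' x y z hxy hyz hc.symm
      have h5 := h3' x z u hc hzu hux
      rw [hX z x] at h4
      have key : ∀ a b c d e : ZMod 2, a + b + e = 0 → e + c + d = 0 → a + b + c + d = 1 → False := by
        decide
      exact key _ _ _ _ _ h4 h5 h1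
    have n2 : ¬ G.Adj y u := by
      intro hc
      have h4 := h3' y z u hyz hzu hc.symm
      have h5 := h3' x y u hxy hc hux
      rw [hX u y] at h4
      have key : ∀ a b c d e : ZMod 2, b + c + e = 0 → a + e + d = 0 → a + b + c + d = 1 → False := by
        decide
      exact key _ _ _ _ _ h4 h5 h1
    refine ⟨4, seq4 x y z u, Or.inr rfl, fun t => ?_, ?_, fun t => ?_, ?_, fun i j hij => ?_⟩
    · simp [seq4]
    · have e0 : seq4 x y z u 0 = x := rfl
      have e1 : seq4 x y z u 1 = y := rfl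
      have e2 : seq4 x y z u 2 = z := rfl
      have e3 : seq4 x y z u 3 = u := rfl
      intro i hi j hj hij
      have hi' : i = 0 ∨ i = 1 ∨ i = 2 ∨ i = 3 := by omega
      have hj' : j = 0 ∨ j = 1 ∨ j = 2 ∨ j = 3 := by omega
      rcases hi' with rfl | rfl | rfl | rfl <;> rcases hj' with rfl | rfl | rfl | rfl <;>
        first
          | rfl
          | (exfalso; rw [e0, e1] at hij; exact hxy.ne hij)
          | (exfalso; rw [e1, e0] at hij; exact hxy.ne hij.symm)
          | (exfalso; rw [e1, e2] at hij; exact hyz.ne hij)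
          | (exfalso; rw [e2, e1] at hij; exact hyz.ne hij.symm)
          | (exfalso; rw [e2, e0] at hij; exact hxz hij.symm)
          | (exfalso; rw [e0, e2] at hij; exact hxz hij)
          | (exfalso; rw [e2, e3] at hij; exact hzu.ne hij)
          | (exfalso; rw [e3, e2] at hij; exact hzu.ne hij.symm)
          | (exfalso; rw [e3, e0] at hij; exact hux.ne hij)
          | (exfalso; rw [e0, e3] at hij; exact hux.ne hij.symm)
          | (exfalso; rw [e1, e3] at hij; exact hyu hij)
          | (exfalso; rw [e3, e1] at hij; exact hyu hij.symm)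
    · rcases seq4_cases x y z u t with ⟨_, e1, e2⟩ | ⟨_, e1, e2⟩ | ⟨_, e1, e2⟩ | ⟨_, e1, e2⟩ <;>
        rw [e1, e2] <;> assumption
    · rw [sum_range_succ, sum_range_succ, sum_range_succ, sum_range_succ, sum_range_zero, zero_add]
      exact h1
    · rcases seq4_cases x y z u i with ⟨_, e1, e2⟩ | ⟨_, e1, e2⟩ | ⟨_, e1, e2⟩ | ⟨_, e1, e2⟩ <;>
        rcases seq4_cases x y z u j with ⟨_, f1, f2⟩ | ⟨_, f1, f2⟩ | ⟨_, f1, f2⟩ | ⟨_, f1, f2⟩ <;>
        rw [e1, f1] at hij <;> rw [e1, f1, e2, f2] <;>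
        first
          | exact absurd rfl hij.ne
          | exact absurd hij n1
          | exact absurd hij.symm n1
          | exact absurd hij n2
          | exact absurd hij.symm n2
          | exact Or.inl rfl
          | exact Or.inr rfl

end ring3

end Pool.Agent.W986
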