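import Pool.Agent.W986.SubThinCol
import Pool.Agent.W986.SubThin
import Pool.Agent.W986.SubThinRing
import Pool.Agent.W986.SubQDef
import Pool.Agent.W986.SubMain

/-!
# Short one-sided cycles

The triangulations of the projective plane with a one-sided cycle of length three or four, from
the theorem on discs with a boundary of length four.
-/

set_option autoImplicit false

open Finset

namespace Pool.Agent.W986

open Pool.Agent.DC76

/-- A vertex with four neighbours. -/
private theorem TriLoc.four_of {W : Type} {S : Finset W} {H : SimpleGraph W} {T : W → W → W → Prop}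
    (h : TriLoc S H T) {v p q s t : W} (h1 : T v p q) (h2 : T v q s) (h3 : T v s t)
    (h4 : T v t p) (hps : p ≠ s) (hqt : q ≠ t) {y : W} (hy : H.Adj v y) :
    y = p ∨ y = q ∨ y = s ∨ y = t := by
  by_contra hcon
  push Not at hcon
  obtain ⟨a, b, ha, hb, hT⟩ := h.split ({p, q, s, t} : Set W) (h.adj _ _ _ h1) (by simp) hy
    (by simp [hcon.1, hcon.2.1, hcon.2.2.1, hcon.2.2.2])
  simp only [Set.mem_insert_iff, Set.mem_singleton_iff, not_or] at ha hb
  rcases ha with rfl | rfl | rfl | rfl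
  · rcases h.two_pair h1 (h.flip h4) hqt hT with e | e
    · exact hb.2.1 e
    · exact hb.2.2.2 e
  · rcases h.two_pair (h.flip h1) h2 hps hT with e | e
    · exact hb.1 e
    · exact hb.2.2.1 e
  · rcases h.two_pair (h.flip h2) h3 hqt hT with e | e
    · exact hb.2.1 e
    · exact hb.2.2.2 e
  · rcases h.two_pair (h.flip h3) h4 hps.symm hT with e | e
    · exact hb.2.2.1 e
    · exact hb.1 e

/-- `DiscQ1` is `Q1`. -/
theorem discQ1_of_q1 (h : ∀ n, Q1 n) : DiscQ1 := by
  intro W _ _ S H T hT om t0 t1 t2 t3 h1 h2 h3 h4 h02 h13 n02 n13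
  have hL := hT.toTriLoc
  have hA : Apex S H T om t0 t1 t2 t3 := by
    refine ⟨hT, fun y => ⟨fun hy => hL.four_of h1 h2 h3 h4 h02 h13 hy, ?_⟩,
      (hL.adj2 h1).2.1.ne, h02, (hL.adj2 h4).2.1.ne', (hL.adj2 h2).2.1.ne, h13,
      (hL.adj2 h3).2.1.ne, h1, h2, h3, h4⟩
    rintro (rfl | rfl | rfl | rfl)
    · exact (hL.adj2 h1).1
    · exact (hL.adj2 h2).1
    · exact (hL.adj2 h3).1
    · exact (hL.adj2 h4).1
  obtain ⟨c, hc, e1, e2, e3, e4⟩ := h S.card W S H T om t0 t1 t2 t3 le_rfl hA n02 n13 0 1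
    (by decide)
  exact ⟨c, by rw [e1, e3], by rw [e2, e4], by rw [e1, e2]; decide, hc⟩

/-- The cut disc. -/
theorem exists_thinDisc {V F : Type} [Fintype V] [DecidableEq V] [Fintype F]
    {G : SimpleGraph V} {X : V → V → ZMod 2} (M : FacialWalks G F) (hG : G.Connected)
    (hL : Link M) (h3 : ∀ f, M.len f = 3)
    (hχ : (Fintype.card V : ℤ) - G.edgeSet.ncard + Fintype.card F = 1)
    (hX : ∀ x y, X x y = X y x)
    (hf : ∀ f, ∑ t ∈ range (M.len f), X (M.walk f t) (M.walk f (t + 1)) = 0)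
    (hodd : ¬ ∃ h : V → ZMod 2, ∀ x y, G.Adj x y → h x + h y = X x y)
    (htri : ∀ x y z, G.Adj x y → G.Adj y z → G.Adj z x → X x y + X y z + X z x = 0 →
      Facial M x y z) {w : ℕ} {z : ℕ → V} (h : OneSided G X w z) :
    ∃ D S H T, ThinDisc G X hX z D S H T := by
  obtain ⟨D, T, S, hT, h1, h2, h4, h5, h6, h7, h8⟩ := thin_disc M hG hL h3 hχ hX hf hodd htri
    h.three h.per h.inj h.adj h.odd h.ind
  exact ⟨D, S, _, T, hT, h1, h2, fun p q => dG_some, fun t a => h4 _ ⟨t, rfl⟩ a, h5, h6, h7, h8⟩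

/-- **Short one-sided cycles.** -/
theorem thin_col (hQ : ∀ n, Q1 n) : ThinCol := by
  intro V F _ _ _ G M X hG hL h3 hχ _ hX hf hodd htri hshort
  obtain ⟨w, z, hw, hper, hinj, hadj, hodd1, hind⟩ := exists_short_ring hX hshort
  have h : OneSided G X w z := by
    refine ⟨?_, hper, hinj, hadj, hodd1, hind⟩
    omega
  obtain ⟨D, S, H, T, hD⟩ := exists_thinDisc M hG hL h3 hχ hX hf hodd htri h
  rcases hw with rfl | rfl
  · exact hD.colour_three (discQ1_of_q1 hQ) h
  · exact hD.colour_four (discQ1_of_q1 hQ) h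

end Pool.Agent.W986
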