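import Pool.Agent.W986.SubQFin
import Pool.Agent.W986.SubThinMain
import Pool.Agent.W986.Final

/-!
# Projective-planar graphs: the answer from the reductions
-/

set_option autoImplicit false

open Finset

namespace Pool.Agent.W986

open Pool.Agent.DC76

/-- Projective-planar graphs are (4, 1)-colourable, from the reductions in regions and the theorem
on discs. -/
theorem projective_of_red (h1 : RegionRed 1) (hQ : ∀ n, Q1 n ∧ Q2 n ∧ Q3 n) :
    AllCol @ProjectivePlanar 4 1 := by
  have q1 : ∀ n, Q1 n := fun n => (hQ n).1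
  have hT : ThinCol := thin_col q1
  exact projective_of_ind
    (sub_main hT (fourCol apexMono q1 (fun n => (hQ n).2.1) (fun n => (hQ n).2.2) hT) h1)

/-- The set of all pairs `(k, d)` for the projective plane. -/
theorem projective_iff_of_red (h1 : RegionRed 1) (hQ : ∀ n, Q1 n ∧ Q2 n ∧ Q3 n) (k d : ℕ) :
    AllCol @ProjectivePlanar k d ↔ (3 ≤ k ∧ 2 ≤ d) ∨ (4 ≤ k ∧ 1 ≤ d) ∨ 6 ≤ k :=
  projective_iff (projective_of_red h1 hQ) k d

/-- The set of all pairs `(k, d)` for the projective plane, from the reductions in regions. -/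
theorem projective_iff_of_region (h1 : RegionRed 1) (h2 : RegionRed 2) (k d : ℕ) :
    AllCol @ProjectivePlanar k d ↔ (3 ≤ k ∧ 2 ≤ d) ∨ (4 ≤ k ∧ 1 ≤ d) ∨ 6 ≤ k :=
  projective_iff_of_red h1 (thmQ h2) k d

end Pool.Agent.W986
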