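import Pool.Agent.W986.SubCap
import Pool.Agent.W986.SubBound

/-!
# The two sides of a cycle in a triangulation
-/

set_option autoImplicit false

open Finset

namespace Pool.Agent.W986

open Pool.Agent.DC76

section

variable {V : Type} [DecidableEq V] {G : SimpleGraph V} {T : V → V → V → Prop} {S : Finset V}
  {L : ℕ} {c : ℕ → V}

omit [DecidableEq V] in
theorem PCyc.cyc (h : PCyc G L c) : Cyc G L c :=
  ⟨h.three, by rw [← h.per 0, Nat.zero_add], fun t _ => h.adj t, fun s t hs ht => h.inj s hs t ht⟩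

theorem PCyc.chain_ne (h : PCyc G L c) (x y : V) : chain L c x y ≠ 0 ↔ CycE c x y := by
  have h3 := h.three
  rw [h.cyc.chain_ne]
  constructor
  · intro h1
    obtain ⟨t, _, ⟨a, b⟩ | ⟨a, b⟩⟩ := trav_ne h1
    · exact ⟨t, Or.inl ⟨a.symm, b.symm⟩⟩
    · exact ⟨t, Or.inr ⟨a.symm, b.symm⟩⟩
  · rintro ⟨i, h1⟩
    have e1 : c i = c (i % L) := h.mod i
    have e2 : c (i + 1) = c (i % L + 1) := h.next_eq e1
    have h2 := trav_pos' (w := c) (Nat.mod_lt i (show 0 < L by omega))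
    rw [← e1, ← e2] at h2
    rcases h1 with ⟨rfl, rfl⟩ | ⟨rfl, rfl⟩
    · exact h2
    · rwa [trav_comm]

/-- The sides in the sense of `Side`. -/
theorem Sides.side {s : V → V → V → ZMod 2} (hs : Sides T L c s) (hC : PCyc G L c)
    (h : TriLoc S G T) (e : ZMod 2) : Side T c (fun x y z => T x y z ∧ s x y z = e) := by
  refine ⟨fun x y z h1 => h1.1, fun x y z h1 => ⟨h.rot _ _ _ h1.1, ?_⟩,
    fun x y z h1 => ⟨h.swap _ _ _ h1.1, ?_⟩, ?_⟩
  · rw [← hs.rot]
    exact h1.2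
  · rw [← hs.swap]
    exact h1.2
  · intro x y a b hab ha hb
    have h1 := hs.edge x y a b hab ha hb
    rw [← hC.chain_ne, ← h1, not_not]
    have h2 : ∀ p q r : ZMod 2, (p = r ↔ q = r) ↔ p + q = 0 := by decide
    rw [← h2 (s x y a) (s x y b) e]
    constructor
    · intro h4
      exact ⟨fun h5 => (h4.1 ⟨ha, h5⟩).2, fun h5 => (h4.2 ⟨hb, h5⟩).2⟩
    · intro h4
      exact ⟨fun h5 => ⟨hb, h4.1 h5.2⟩, fun h5 => ⟨ha, h4.2 h5.2⟩⟩

open Classical in
theorem Side.sides {A : V → V → V → Prop} (hA : Side T c A) (hC : PCyc G L c) :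
    Sides T L c (fun x y z => if A x y z then 1 else 0) := by
  have hr : ∀ x y z, A x y z ↔ A y z x := fun x y z =>
    ⟨fun h => hA.rot _ _ _ h, fun h => hA.rot _ _ _ (hA.rot _ _ _ h)⟩
  have hw : ∀ x y z, A x y z ↔ A y x z := fun x y z =>
    ⟨fun h => hA.swap _ _ _ h, fun h => hA.swap _ _ _ h⟩
  refine ⟨fun x y z => ?_, fun x y z => ?_, fun x y a b hab ha hb => ?_⟩
  · simp only [hr x y z]
  · simp only [hw x y z]
  · have h1 := hA.bd x y a b hab ha hb
    rw [← hC.chain_ne, not_not] at h1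
    beta_reduce
    have h2 : ∀ p : ZMod 2, p ≠ 0 → p = 1 := by decide
    by_cases e1 : A x y a
    · by_cases e2 : A x y b
      · rw [if_pos e1, if_pos e2, h1.1 ⟨fun _ => e2, fun _ => e1⟩]
        rfl
      · rw [if_pos e1, if_neg e2, h2 _ fun h3 => e2 ((h1.2 h3).1 e1)]
        rfl
    · by_cases e2 : A x y b
      · rw [if_neg e1, if_pos e2, h2 _ fun h3 => e1 ((h1.2 h3).2 e2)]
        rfl
      · rw [if_neg e1, if_neg e2, h1.1 ⟨fun h => absurd h e1, fun h => absurd h e2⟩]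
        rfl

theorem PCyc.not_mem_cycV (hC : PCyc G L c) {v : V} : v ∉ cycV L c ↔ ∀ i, c i ≠ v := by
  have h3 := hC.three
  rw [mem_cycV]
  constructor
  · intro h i hi
    exact h ⟨i % L, Nat.mod_lt _ (by omega), by rw [← hC.mod]; exact hi⟩
  · rintro h ⟨t, _, ht⟩
    exact h t ht

open Classical in
theorem Side.isInn_iff {A : V → V → V → Prop} (hA : Side T c A) (hC : PCyc G L c)
    (h : TriLoc S G T) {v : V} :
    IsInn S T L c (fun x y z => if A x y z then 1 else 0) 1 v ↔ InS A v ∧ ∀ i, c i ≠ v := by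
  constructor
  · rintro ⟨h1, h2, h3⟩
    refine ⟨?_, hC.not_mem_cycV.1 h2⟩
    obtain ⟨d, ν, hν⟩ := h.rotation v h1
    have h4 := h3 _ _ ((hν.tri 0 _).2 (Or.inl rfl))
    beta_reduce at h4
    by_cases h5 : A v (ν (0 + 1)) (ν 0)
    · exact ⟨_, _, h5⟩
    · rw [if_neg h5] at h4
      exact absurd h4 (by decide)
  · rintro ⟨⟨y, z, hyz⟩, h2⟩
    have h3 := isInn_of (hA.sides hC) hC.cyc h (hC.not_mem_cycV.2 h2) (hA.sub _ _ _ hyz)
    rwa [if_pos hyz] at h3

/-- S3. A side of a cycle of length three without inner vertices. -/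
theorem Side.tri_of_empty {A : V → V → V → Prop} (hA : Side T c A) (hC : PCyc G 3 c)
    (h : TriLoc S G T) (h0 : ∀ v, InS A v → ∃ i, c i = v) : T (c 0) (c 1) (c 2) := by
  classical
  refine (hA.sides hC).three hC.cyc h 1 fun v hv => ?_
  obtain ⟨h1, h2⟩ := (hA.isInn_iff hC h).1 hv
  obtain ⟨i, hi⟩ := h0 v h1
  exact h2 i hi

/-- S4. A side of a cycle of length four with at most one inner vertex. -/
theorem Side.four {A : V → V → V → Prop} (hA : Side T c A) (hC : PCyc G 4 c) (h : TriLoc S G T)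
    (h1 : ∀ u v, InS A u → (∀ i, c i ≠ u) → InS A v → (∀ i, c i ≠ v) → u = v) :
    G.Adj (c 0) (c 2) ∨ G.Adj (c 1) (c 3) ∨
      ∃ m, InS A m ∧ (∀ i, c i ≠ m) ∧ ∀ y, G.Adj m y ↔ ∃ i, c i = y := by
  classical
  have h2 := (hA.sides hC).four hC.cyc h 1 fun u v hu hv => by
    rw [hA.isInn_iff hC h] at hu hv
    exact h1 u v hu.1 hu.2 hv.1 hv.2
  rcases h2 with h2 | h2 | ⟨m, hm, hy⟩
  · exact Or.inl h2
  · exact Or.inr (Or.inl h2)
  · rw [hA.isInn_iff hC h] at hm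
    refine Or.inr (Or.inr ⟨m, hm.1, hm.2, fun y => (hy y).trans ⟨?_, ?_⟩⟩)
    · rintro ⟨t, _, ht⟩
      exact ⟨t, ht⟩
    · rintro ⟨i, hi⟩
      exact ⟨i % 4, Nat.mod_lt _ (by omega), by rw [← hC.mod]; exact hi⟩

/-- On the sphere every cycle has two sides. -/
theorem TriOn.exists_side (h : TriOn 2 S G T) (hC : PCyc G L c) : ∃ A, Side T c A := by
  obtain ⟨s, hs⟩ := h.sides_sphere hC.cyc
  exact ⟨_, hs.side hC h.toTriLoc 0⟩

end

section

variable {V : Type} [Fintype V] [DecidableEq V] {G : SimpleGraph V} {F : Type} [Fintype F]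

/-- On the projective plane every even cycle has two sides. -/
theorem exists_side_even (M : FacialWalks G F) (hL : Link M) (hG : G.Connected)
    (h3 : ∀ f, M.len f = 3)
    (hχ : (Fintype.card V : ℤ) - G.edgeSet.ncard + Fintype.card F = 1) {X : V → V → ZMod 2}
    (hX : ∀ x y, X x y = X y x)
    (hf : ∀ f, ∑ t ∈ range (M.len f), X (M.walk f t) (M.walk f (t + 1)) = 0)
    (hodd : ¬ ∃ h : V → ZMod 2, ∀ x y, G.Adj x y → h x + h y = X x y) {L : ℕ} {c : ℕ → V}
    (hC : PCyc G L c) (h0 : ∑ t ∈ range L, X (c t) (c (t + 1)) = 0) :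
    ∃ A, Side (Tri M) c A := by
  classical
  obtain ⟨J, hJ⟩ := (mem_Bnd M _).1
    (even_mem_Bnd M hG hχ hX hf hodd hC.cyc.closed hC.cyc.adj h0)
  obtain ⟨s, hs⟩ := exists_sides_disc M h3 (fun _ _ _ => Iff.rfl) (J := J) hJ.symm
  have hE : ∃ x y, G.Adj x y := ⟨_, _, hC.adj 0⟩
  exact ⟨_, hs.side hC (triOn_of_walks M hL hG h3 hχ hE).toTriLoc 0⟩

end

end Pool.Agent.W986
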