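import Pool.Agent.W986.SubQDef
import Pool.Agent.W986.SubSideP
import Pool.Agent.W986.Glue

/-!
# Discs without separating 3-cycles
-/

set_option autoImplicit false

open Finset

namespace Pool.Agent.W986

open Pool.Agent.DC76

section sphere

variable {V : Type} {S : Finset V} {G : SimpleGraph V} {T : V → V → V → Prop}

/-- A triangulated sphere in the form needed in `Glue`. -/
theorem TriOn.sphereMinor (h : TriOn 2 S G T) (hS : S.Nonempty) :
    SphereMinor (G.comap (Subtype.val : {v // v ∈ (S : Set V)} → V)) Set.univ := by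
  classical
  have h1 := h.toType
  obtain ⟨x, hx⟩ := hS
  have : Nonempty {v // v ∈ S} := ⟨⟨x, hx⟩⟩
  obtain ⟨hG, F, iF, M, hL, _, _, hχ⟩ := h1.exists_walks
  refine ⟨{v // v ∈ S}, F, inferInstance, inferInstance, iF, G.comap Subtype.val,
    fun u => {⟨u.1, u.2⟩}, ?_, ?_, ?_, ?_, ?_, hG, ⟨M, hL⟩, hχ⟩
  · intro u
    exact Set.singleton_nonempty _
  · rintro u a rfl b rfl
    exact Relation.ReflTransGen.refl
  · intro u w huw
    rw [Set.disjoint_singleton]
    intro h2
    exact huw (Subtype.ext (congrArg Subtype.val h2))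
  · intro u w huw
    exact ⟨_, rfl, _, rfl, huw⟩
  · intro u _
    exact ⟨_, rfl⟩

variable [Finite V]

/-- Any three colours which are not all equal on a 3-cycle of a triangulated sphere extend, and no
vertex of the 3-cycle has a mate outside the 3-cycle. -/
theorem TriOn.fill3 (h : TriOn 2 S G T) {x y z : V} (hxy : G.Adj x y) (hyz : G.Adj y z)
    (hzx : G.Adj z x) (i j k : Fin 4) (hijk : ¬ (i = j ∧ j = k)) :
    ∃ col : V → Fin 4, col x = i ∧ col y = j ∧ col z = k ∧
      (∀ v, v ≠ x → v ≠ y → v ≠ z → ∀ u w, G.Adj v u → G.Adj v w → col u = col v →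
        col w = col v → u = w) ∧
      (∀ v, v = x ∨ v = y ∨ v = z → ∀ u, u ≠ x → u ≠ y → u ≠ z → G.Adj v u →
        col u ≠ col v) := by
  have two : ∀ {x y z : V} (_ : G.Adj x y) (_ : G.Adj y z) (_ : G.Adj z x) {i j : Fin 4}
      (_ : i ≠ j), ∃ col : V → Fin 4, col x = i ∧ col y = i ∧ col z = j ∧
      (∀ v, v ≠ x → v ≠ y → v ≠ z → ∀ u w, G.Adj v u → G.Adj v w → col u = col v →
        col w = col v → u = w) ∧
      (∀ v, v = x ∨ v = y ∨ v = z → ∀ u, u ≠ x → u ≠ y → u ≠ z → G.Adj v u →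
        col u ≠ col v) := by
    intro x y z hxy hyz hzx i j hij
    have hx := h.mem _ _ hxy
    obtain ⟨c1, h1, h2, h3, h4, h5⟩ := sphere_two (P := (S : Set V)) (h.sphereMinor ⟨x, hx⟩)
      (x := x) (y := y) (z := z) hx (h.mem _ _ hyz) (h.mem _ _ hzx) hxy hyz hzx hij
    refine ⟨c1, h1, h2, h3, ?_, ?_⟩
    · intro v hv1 hv2 hv3 u w hu hw e1 e2
      have h6 := h4 v (h.mem _ _ hu) (by simp [hv1, hv2, hv3])
      rw [Set.ncard_le_one (Set.toFinite _)] at h6
      exact h6 u ⟨h.mem _ _ hu.symm, hu, e1⟩ w ⟨h.mem _ _ hw.symm, hw, e2⟩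
    · intro v hv u hu1 hu2 hu3 hu
      exact h5 v (by simpa using hv) u (h.mem _ _ hu.symm) (by simp [hu1, hu2, hu3]) hu
  by_cases hij : i = j
  · subst hij
    have hik : i ≠ k := fun e => hijk ⟨rfl, e⟩
    exact two hxy hyz hzx hik
  by_cases hjk : j = k
  · subst hjk
    obtain ⟨col, h1, h2, h3, h4, h5⟩ := two hyz hzx hxy (fun e => hij e.symm)
    exact ⟨col, h3, h1, h2, fun v a b c => h4 v b c a,
      fun v hv u a b c => h5 v (by tauto) u b c a⟩
  by_cases hki : k = i
  · subst hki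
    obtain ⟨col, h1, h2, h3, h4, h5⟩ := two hzx hxy hyz hij
    exact ⟨col, h2, h3, h1, fun v a b c => h4 v c a b,
      fun v hv u a b c => h5 v (by tauto) u c a b⟩
  have hx := h.mem _ _ hxy
  obtain ⟨c1, h1, h2, h3, h4, h5⟩ := sphere_three (P := (S : Set V)) (h.sphereMinor ⟨x, hx⟩)
    (x := x) (y := y) (z := z) hx (h.mem _ _ hyz) (h.mem _ _ hzx) hxy hyz hzx hij hjk
    (fun e => hki e.symm)
  refine ⟨c1, h1, h2, h3, ?_, ?_⟩
  · intro v _ _ _ u w hu hw e1 e2
    have h6 := h4 v (h.mem _ _ hu)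
    rw [Set.ncard_le_one (Set.toFinite _)] at h6
    exact h6 u ⟨h.mem _ _ hu.symm, hu, e1⟩ w ⟨h.mem _ _ hw.symm, hw, e2⟩
  · intro v hv u _ _ _ hu
    exact h5 v (by simpa using hv) u (h.mem _ _ hu.symm) hu

end sphere

section glue

variable {V : Type} {S : Finset V} {G : SimpleGraph V} {T A : V → V → V → Prop} {L : ℕ}
  {c : ℕ → V}

/-- The other side. -/
def co (T A : V → V → V → Prop) : V → V → V → Prop := fun x y z => T x y z ∧ ¬ A x y z

/-- The graph of the closed side. -/
def sideH (c : ℕ → V) (A : V → V → V → Prop) : SimpleGraph V := (capG c A).comap some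

theorem Side.co (hA : Side T c A) (h : TriLoc S G T) : Side T c (co T A) :=
  hA.compl h.rot h.swap

theorem Side.sideH_adj (hA : Side T c A) (h : TriLoc S G T) {u v : V} :
    (sideH c A).Adj u v ↔ ∃ z, A u v z :=
  hA.adj_iff h.adj

theorem Side.sideH_le (hA : Side T c A) (h : TriLoc S G T) {u v : V} (huv : (sideH c A).Adj u v) :
    G.Adj u v := by
  obtain ⟨z, hz⟩ := (hA.sideH_adj h).1 huv
  exact h.adj _ _ _ (hA.sub _ _ _ hz)

theorem Side.sideH_or (hA : Side T c A) (h : TriLoc S G T) {u v : V} (huv : G.Adj u v) :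
    (sideH c A).Adj u v ∨ (sideH c (Pool.Agent.W986.co T A)).Adj u v := by
  obtain ⟨a, b, _, h1⟩ := h.two huv
  have h2 := (h1 a).2 (Or.inl rfl)
  by_cases h3 : A u v a
  · exact Or.inl ((hA.sideH_adj h).2 ⟨a, h3⟩)
  · exact Or.inr (((hA.co h).sideH_adj h).2 ⟨a, h2, h3⟩)

theorem Side.sideH_both (hA : Side T c A) (h : TriLoc S G T) {u v : V}
    (h1 : (sideH c A).Adj u v) (h2 : (sideH c (Pool.Agent.W986.co T A)).Adj u v) :
    CycE c u v := by
  obtain ⟨a, ha⟩ := (hA.sideH_adj h).1 h1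
  obtain ⟨b, hb, hb'⟩ := ((hA.co h).sideH_adj h).1 h2
  by_contra h3
  have hab : a ≠ b := by
    rintro rfl
    exact hb' ha
  exact hb' (((hA.bd u v a b hab (hA.sub _ _ _ ha) hb).2 h3).1 ha)

theorem Side.inS_of_adj (hA : Side T c A) (h : TriLoc S G T) {u v : V}
    (h1 : (sideH c A).Adj u v) : InS A u := by
  obtain ⟨a, ha⟩ := (hA.sideH_adj h).1 h1
  exact ⟨v, a, ha⟩

theorem Side.inS_co_of_not (hA : Side T c A) (h : TriLoc S G T) {u v : V} (hu : ¬ InS A u)
    (huv : G.Adj u v) : (sideH c (Pool.Agent.W986.co T A)).Adj u v := by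
  rcases hA.sideH_or h huv with h1 | h1
  · exact absurd (hA.inS_of_adj h h1) hu
  · exact h1

theorem Side.inS_of_not_co (hA : Side T c A) (h : TriLoc S G T) {u v : V}
    (hu : ¬ InS (Pool.Agent.W986.co T A) u) (huv : G.Adj u v) : (sideH c A).Adj u v := by
  rcases hA.sideH_or h huv with h1 | h1
  · exact h1
  · exact absurd ((hA.co h).inS_of_adj h h1) hu

/-- A vertex on both sides is a vertex of the cycle. -/
theorem Side.mem_of_both (hA : Side T c A) (h : TriLoc S G T) {u : V} (h1 : InS A u)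
    (h2 : InS (Pool.Agent.W986.co T A) u) : ∃ i, c i = u := by
  by_contra hcon
  push Not at hcon
  obtain ⟨y, z, hyz⟩ := h1
  have hu := h.mem _ _ (h.adj _ _ _ (hA.sub _ _ _ hyz))
  exact (hA.one_side h hu hcon).2 h2 ⟨y, z, hyz⟩

variable [Finite V]

open Classical in
/-- Gluing two colourings along a cycle. The vertices of the cycle have no mate strictly inside, or
one mate strictly inside and no mate in the outer part. -/
theorem Side.glue (hA : Side T c A) (h : TriLoc S G T) {W M : Set V} {c1 c2 : V → Fin 4}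
    (hM : ∀ m ∈ M, InS A m → InS (Pool.Agent.W986.co T A) m)
    (hag : ∀ i, c1 (c i) = c2 (c i))
    (hin : ∀ v, ¬ InS (Pool.Agent.W986.co T A) v → ∀ u w, (sideH c A).Adj v u →
      (sideH c A).Adj v w → c1 u = c1 v → c1 w = c1 v → u = w)
    (hcyc : ∀ i, (∀ u, ¬ InS (Pool.Agent.W986.co T A) u → (sideH c A).Adj (c i) u →
        c1 u ≠ c1 (c i)) ∨
      (c i ∉ M ∧ (∀ u w, ¬ InS (Pool.Agent.W986.co T A) u → ¬ InS (Pool.Agent.W986.co T A) w →
        (sideH c A).Adj (c i) u → (sideH c A).Adj (c i) w → c1 u = c1 (c i) →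
        c1 w = c1 (c i) → u = w) ∧
        ∀ u, u ∉ W → (sideH c (Pool.Agent.W986.co T A)).Adj (c i) u → c2 u ≠ c2 (c i)))
    (hout : MDef (sideH c (Pool.Agent.W986.co T A)) W M c2)
    (hcycE : ∀ u v, (sideH c A).Adj u v → InS (Pool.Agent.W986.co T A) u →
      InS (Pool.Agent.W986.co T A) v → (sideH c (Pool.Agent.W986.co T A)).Adj u v) :
    MDef G W M (fun v => if InS (Pool.Agent.W986.co T A) v then c2 v else c1 v) := by
  have hag' : ∀ u, InS A u → InS (Pool.Agent.W986.co T A) u → c1 u = c2 u := by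
    intro u h1 h2
    obtain ⟨i, rfl⟩ := hA.mem_of_both h h1 h2
    exact hag i
  have hv1 : ∀ v, InS (Pool.Agent.W986.co T A) v →
      (if InS (Pool.Agent.W986.co T A) v then c2 v else c1 v) = c2 v := fun v hv => if_pos hv
  have hv2 : ∀ v, ¬ InS (Pool.Agent.W986.co T A) v →
      (if InS (Pool.Agent.W986.co T A) v then c2 v else c1 v) = c1 v := fun v hv => if_neg hv
  have hv3 : ∀ v, InS A v →
      (if InS (Pool.Agent.W986.co T A) v then c2 v else c1 v) = c1 v := by
    intro v hv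
    by_cases h1 : InS (Pool.Agent.W986.co T A) v
    · rw [if_pos h1, hag' v hv h1]
    · rw [if_neg h1]
  -- the neighbours of a vertex of the outer part
  have hnb : ∀ v u, InS (Pool.Agent.W986.co T A) v → G.Adj v u →
      (sideH c (Pool.Agent.W986.co T A)).Adj v u ∨
        ((sideH c A).Adj v u ∧ ¬ InS (Pool.Agent.W986.co T A) u ∧ ∃ i, c i = v) := by
    intro v u hv huv
    rcases hA.sideH_or h huv with h1 | h1
    · by_cases h2 : InS (Pool.Agent.W986.co T A) u
      · exact Or.inl (hcycE _ _ h1 hv h2)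
      · exact Or.inr ⟨h1, h2, hA.mem_of_both h (hA.inS_of_adj h h1) hv⟩
    · exact Or.inl h1
  rw [mdef_iff]
  intro v hv
  by_cases hvo : InS (Pool.Agent.W986.co T A) v
  · constructor
    · intro u w hu hw hvu hvw e1 e2
      rw [hv1 v hvo] at e1 e2
      rcases hnb v u hvo hvu with h1 | ⟨h1, h2, i, hi⟩
      · rw [hv1 u ((hA.co h).inS_of_adj h h1.symm)] at e1
        rcases hnb v w hvo hvw with h3 | ⟨h3, h4, i, hi⟩
        · rw [hv1 w ((hA.co h).inS_of_adj h h3.symm)] at e2
          exact hout.uniq hv hu hw h1 h3 e1 e2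
        · exfalso
          rw [hv2 w h4] at e2
          subst hi
          rcases hcyc i with h5 | ⟨_, _, h7⟩
          · exact h5 w h4 h3 (e2.trans (hag i).symm)
          · exact h7 u hu h1 e1
      · rw [hv2 u h2] at e1
        subst hi
        rcases hnb _ w hvo hvw with h3 | ⟨h3, h4, _⟩
        · exfalso
          rw [hv1 w ((hA.co h).inS_of_adj h h3.symm)] at e2
          rcases hcyc i with h5 | ⟨_, _, h7⟩
          · exact h5 u h2 h1 (e1.trans (hag i).symm)
          · exact h7 w hw h3 e2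
        · rw [hv2 w h4] at e2
          rcases hcyc i with h5 | ⟨_, h6, _⟩
          · exact absurd (e1.trans (hag i).symm) (h5 u h2 h1)
          · exact h6 u w h2 h4 h1 h3 (e1.trans (hag i).symm) (e2.trans (hag i).symm)
    · intro hvM u hu hvu e1
      rw [hv1 v hvo] at e1
      rcases hnb v u hvo hvu with h1 | ⟨h1, h2, i, hi⟩
      · rw [hv1 u ((hA.co h).inS_of_adj h h1.symm)] at e1
        exact hout.sat hv hvM hu h1 e1
      · rw [hv2 u h2] at e1
        subst hi
        rcases hcyc i with h5 | ⟨h6, _, _⟩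
        · exact h5 u h2 h1 (e1.trans (hag i).symm)
        · exact h6 hvM
  · constructor
    · intro u w hu hw hvu hvw e1 e2
      rw [hv2 v hvo] at e1 e2
      have h1 := hA.inS_of_not_co h hvo hvu
      have h2 := hA.inS_of_not_co h hvo hvw
      rw [hv3 u (hA.inS_of_adj h h1.symm)] at e1
      rw [hv3 w (hA.inS_of_adj h h2.symm)] at e2
      exact hin v hvo u w h1 h2 e1 e2
    · intro hvM u hu hvu
      have h1 := hA.inS_of_not_co h hvo hvu
      exact absurd (hM v hvM (hA.inS_of_adj h h1)) hvo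

end glue

section remove

variable {V : Type} [DecidableEq V] {S : Finset V} {G : SimpleGraph V} {T : V → V → V → Prop}
  {v x y z : V}

/-- Removing a vertex of degree three. -/
theorem TriOn.remove3 [Finite V] {χ : ℤ} (h : TriOn χ S G T) (hS : 5 ≤ S.card)
    (hv : ∀ w, G.Adj v w → w = x ∨ w = y ∨ w = z) (h1 : T v x y) (h2 : T v z x) :
    TriOn χ (S.erase v) (quot G (mv x v)) (quotT T (mv x v)) := by
  have hvx := h.adj _ _ _ h1
  refine h.contract hS hvx.symm fun w hw1 hw2 => ?_
  rcases hv w hw2 with rfl | rfl | rfl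
  · exact absurd rfl hw1.ne
  · exact h.swap _ _ _ h1
  · exact h.rot _ _ _ (h.rot _ _ _ h2)

omit [DecidableEq V] in
theorem quot3_adj [DecidableEq V] (hv : ∀ w, G.Adj v w → w = x ∨ w = y ∨ w = z)
    (hxy : G.Adj x y) (hxz : G.Adj x z) {u w : V} (hu : u ≠ v) (hw : w ≠ v) :
    (quot G (mv x v)).Adj u w ↔ G.Adj u w := by
  constructor
  · rintro ⟨hne, p, q, hp, hq, hpq⟩
    by_cases hpv : p = v
    · subst hpv
      rw [mv_self] at hp
      subst hp
      by_cases hqv : q = p
      · exact absurd hqv hpq.ne'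
      · rw [mv_ne hqv] at hq
        subst hq
        rcases hv q hpq with rfl | rfl | rfl
        · exact absurd rfl hne
        · exact hxy
        · exact hxz
    · rw [mv_ne hpv] at hp
      subst hp
      by_cases hqv : q = v
      · subst hqv
        rw [mv_self] at hq
        subst hq
        rcases hv p hpq.symm with rfl | rfl | rfl
        · exact absurd rfl hne
        · exact hxy.symm
        · exact hxz.symm
      · rw [mv_ne hqv] at hq
        subst hq
        exact hpq
  · intro h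
    exact ⟨h.ne, u, w, mv_ne hu, mv_ne hw, h⟩

end remove

section three

variable {V : Type} {S : Finset V} {G : SimpleGraph V} {T A : V → V → V → Prop}
  {x y z : V}

/-- A 3-cycle. -/
def cyc3 (x y z : V) : ℕ → V := fun i => if i % 3 = 0 then x else if i % 3 = 1 then y else z

theorem cyc3_mem (i : ℕ) : cyc3 x y z i = x ∨ cyc3 x y z i = y ∨ cyc3 x y z i = z := by
  unfold cyc3
  split_ifs
  · exact Or.inl rfl
  · exact Or.inr (Or.inl rfl)
  · exact Or.inr (Or.inr rfl)

theorem cyc3_iff {v : V} : (∃ i, cyc3 x y z i = v) ↔ v = x ∨ v = y ∨ v = z := by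
  constructor
  · rintro ⟨i, rfl⟩
    exact cyc3_mem i
  · rintro (rfl | rfl | rfl)
    · exact ⟨0, rfl⟩
    · exact ⟨1, rfl⟩
    · exact ⟨2, rfl⟩

theorem pcyc3 (hxy : G.Adj x y) (hyz : G.Adj y z) (hzx : G.Adj z x) : PCyc G 3 (cyc3 x y z) := by
  refine ⟨le_rfl, ?_, ?_, ?_⟩
  · intro i
    unfold cyc3
    rw [Nat.add_mod_right]
  · intro i hi j hj e
    have h1 := hxy.ne
    have h2 := hyz.ne
    have h3 := hzx.ne
    interval_cases i <;> interval_cases j <;> simp [cyc3] at e ⊢ <;> simp_all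
  · intro i
    have h4 : i % 3 < 3 := Nat.mod_lt _ (by omega)
    have e1 : (i + 1) % 3 = (i % 3 + 1) % 3 := by omega
    simp only [cyc3, e1]
    generalize i % 3 = m at h4
    interval_cases m
    · simpa using hxy
    · simpa using hyz
    · simpa using hzx

theorem cycE3 {u v : V} (huv : u ≠ v) (hu : u = x ∨ u = y ∨ u = z) (hv : v = x ∨ v = y ∨ v = z) :
    CycE (cyc3 x y z) u v := by
  rcases hu with rfl | rfl | rfl <;> rcases hv with rfl | rfl | rfl
  · exact absurd rfl huv
  · exact ⟨0, Or.inl ⟨rfl, rfl⟩⟩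
  · exact ⟨2, Or.inr ⟨rfl, rfl⟩⟩
  · exact ⟨0, Or.inr ⟨rfl, rfl⟩⟩
  · exact absurd rfl huv
  · exact ⟨1, Or.inl ⟨rfl, rfl⟩⟩
  · exact ⟨2, Or.inl ⟨rfl, rfl⟩⟩
  · exact ⟨1, Or.inr ⟨rfl, rfl⟩⟩
  · exact absurd rfl huv

/-- An edge of the cycle is in both sides. -/
theorem Side.cyc_adj {c : ℕ → V} (hA : Side T c A) (h : TriLoc S G T) {u v : V} (huv : G.Adj u v)
    (hc : CycE c u v) : (sideH c A).Adj u v ∧ (sideH c (Pool.Agent.W986.co T A)).Adj u v := by
  obtain ⟨a, b, hab, h1⟩ := h.two huv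
  have ha := (h1 a).2 (Or.inl rfl)
  have hb := (h1 b).2 (Or.inr rfl)
  have h2 := hA.bd u v a b hab ha hb
  have h3 : ¬ (A u v a ↔ A u v b) := fun h4 => (h2.1 h4) hc
  rw [hA.sideH_adj h, (hA.co h).sideH_adj h]
  by_cases h4 : A u v a
  · have h5 : ¬ A u v b := fun h5 => h3 ⟨fun _ => h5, fun _ => h4⟩
    exact ⟨⟨a, h4⟩, ⟨b, hb, h5⟩⟩
  · have h5 : A u v b := by
      by_contra h5
      exact h3 ⟨fun h6 => absurd h6 h4, fun h6 => absurd h6 h5⟩
    exact ⟨⟨b, h5⟩, ⟨a, ha, h4⟩⟩

/-- A side which does not contain the vertex `o`. -/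
theorem Side.avoid {c : ℕ → V} {o a b : V} (h : TriLoc S G T) (hoab : T o a b)
    (ho : ∀ i, c i ≠ o) (hB : ∃ A, Side T c A) : ∃ A, Side T c A ∧ ¬ InS A o := by
  have hoS : o ∈ S := h.mem _ _ (h.adj _ _ _ hoab)
  obtain ⟨A, hA⟩ := hB
  by_cases h1 : A o a b
  · refine ⟨Pool.Agent.W986.co T A, hA.co h, ?_⟩
    intro h2
    exact ((hA.one_side h hoS ho).2 h2) ⟨a, b, h1⟩
  · refine ⟨A, hA, (hA.one_side h hoS ho).2 ⟨a, b, hoab, h1⟩⟩

end three

section sep

variable {V : Type} [Fintype V] [DecidableEq V] {S : Finset V} {G : SimpleGraph V}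
  {T : V → V → V → Prop} {o a b c d x y z : V}

omit [Fintype V] [DecidableEq V] in
/-- The vertices strictly inside a 3-cycle which is not a face. -/
theorem Side.exists_inner3 {A : V → V → V → Prop} (hA : Side T (cyc3 x y z) A)
    (h : TriLoc S G T) (hxy : G.Adj x y) (hyz : G.Adj y z) (hzx : G.Adj z x)
    (hT : ¬ T x y z) : ∃ v ∈ S, InS A v ∧ v ≠ x ∧ v ≠ y ∧ v ≠ z := by
  by_contra hcon
  push Not at hcon
  have hC := pcyc3 hxy hyz hzx
  obtain ⟨u, w, huw⟩ := hA.inS_cyc hC 0 (Side.rot_cyc hC h)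
  change A x u w at huw
  have hT' := hA.sub _ _ _ huw
  have e := h.adj2 hT'
  have key : ∀ t, t ∈ S → InS A t → t = x ∨ t = y ∨ t = z := by
    intro t h1 h2
    by_contra h3
    push Not at h3
    exact h3.2.2 (hcon t h1 h2 h3.1 h3.2.1)
  have k1 := key u (h.mem _ _ e.2.1) ⟨w, x, hA.rot _ _ _ huw⟩
  have k2 := key w (h.mem _ _ e.2.2) ⟨x, u, hA.rot _ _ _ (hA.rot _ _ _ huw)⟩
  rcases k1 with rfl | rfl | rfl
  · exact absurd rfl e.1.ne
  · rcases k2 with rfl | rfl | rfl
    · exact absurd rfl e.2.2.ne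
    · exact absurd rfl e.2.1.ne
    · exact hT hT'
  · rcases k2 with rfl | rfl | rfl
    · exact absurd rfl e.2.2.ne
    · exact hT (h.flip hT')
    · exact absurd rfl e.2.1.ne

/-- A disc with a 3-cycle which is not a face is reduced to a smaller disc. -/
theorem Apex.sep3 (h : Apex S G T o a b c d) (hxy : G.Adj x y) (hyz : G.Adj y z)
    (hzx : G.Adj z x) (hxo : x ≠ o) (hyo : y ≠ o) (hzo : z ≠ o) (hT : ¬ T x y z)
    (hB : ∃ A, Side T (cyc3 x y z) A) :
    ∃ (S' : Finset (Option V)) (G' : SimpleGraph (Option V))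
      (T' : Option V → Option V → Option V → Prop),
      Apex S' G' T' (some o) (some a) (some b) (some c) (some d) ∧ S'.card < S.card ∧
      (∀ u v, G'.Adj (some u) (some v) → G.Adj u v) ∧
      ∀ (M : Set V), M ⊆ {a, b, c, d} → ∀ col' : Option V → Fin 4,
        MDef G' {some o} (some '' M) col' → ∃ col : V → Fin 4, MDef G {o} M col ∧
          col a = col' (some a) ∧ col b = col' (some b) ∧ col c = col' (some c) ∧
          col d = col' (some d) := by
  classical
  have hloc := h.tri.toTriLoc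
  have hC := pcyc3 hxy hyz hzx
  have hoc : ∀ i, cyc3 x y z i ≠ o := by
    intro i hi
    rcases cyc3_iff.1 ⟨i, hi⟩ with h1 | h1 | h1
    · exact hxo h1.symm
    · exact hyo h1.symm
    · exact hzo h1.symm
  obtain ⟨A, hA, hAo⟩ := Side.avoid hloc h.t1 hoc hB
  have hB' := hA.co hloc
  obtain ⟨v0, hv0S, hv0A, hv0x, hv0y, hv0z⟩ := hA.exists_inner3 hloc hxy hyz hzx hT
  have hcin : ∀ v, v = x ∨ v = y ∨ v = z → InS A v ∧ InS (co T A) v := by
    intro v hv
    obtain ⟨i, rfl⟩ := (cyc3_iff (x := x) (y := y) (z := z)).2 hv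
    exact ⟨hA.inS_cyc hC i (Side.rot_cyc hC hloc), hB'.inS_cyc hC i (Side.rot_cyc hC hloc)⟩
  have hboth : ∀ v, InS A v → InS (co T A) v → v = x ∨ v = y ∨ v = z := by
    intro v h1 h2
    obtain ⟨i, rfl⟩ := hA.mem_of_both hloc h1 h2
    exact cyc3_mem i
  have hoin : InS (co T A) o := ⟨a, b, h.t1, fun h1 => hAo ⟨a, b, h1⟩⟩
  -- the two capped sides
  have t1 := h.tri.cap_sphere hC hA
  have t2 := h.tri.cap_sphere hC hB'
  have hcard := hA.card_both hC hloc
  have hcA : 5 ≤ (capS S A).card := by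
    have h1 : ({none, some x, some y, some z, some v0} : Finset (Option V)) ⊆ capS S A := by
      intro p hp
      simp only [mem_insert, mem_singleton] at hp
      rcases hp with rfl | rfl | rfl | rfl | rfl
      · exact none_mem_capS
      · exact mem_capS_some.2 ⟨hloc.mem _ _ hxy, (hcin _ (by simp)).1⟩
      · exact mem_capS_some.2 ⟨hloc.mem _ _ hyz, (hcin _ (by simp)).1⟩
      · exact mem_capS_some.2 ⟨hloc.mem _ _ hzx, (hcin _ (by simp)).1⟩
      · exact mem_capS_some.2 ⟨hv0S, hv0A⟩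
    refine le_trans (le_of_eq ?_) (card_le_card h1)
    have e1 := hxy.ne
    have e2 := hyz.ne
    have e3 := hzx.ne'
    rw [card_insert_of_notMem, card_insert_of_notMem, card_insert_of_notMem,
      card_insert_of_notMem, card_singleton] <;>
    simp [e1, e2, e3, hv0x.symm, hv0y.symm, hv0z.symm]
  have hcB : 5 ≤ (capS S (co T A)).card := by
    have h1 : ({none, some x, some y, some z, some o} : Finset (Option V)) ⊆
        capS S (co T A) := by
      intro p hp
      simp only [mem_insert, mem_singleton] at hp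
      rcases hp with rfl | rfl | rfl | rfl | rfl
      · exact none_mem_capS
      · exact mem_capS_some.2 ⟨hloc.mem _ _ hxy, (hcin _ (by simp)).2⟩
      · exact mem_capS_some.2 ⟨hloc.mem _ _ hyz, (hcin _ (by simp)).2⟩
      · exact mem_capS_some.2 ⟨hloc.mem _ _ hzx, (hcin _ (by simp)).2⟩
      · exact mem_capS_some.2 ⟨h.mem, hoin⟩
    refine le_trans (le_of_eq ?_) (card_le_card h1)
    have e1 := hxy.ne
    have e2 := hyz.ne
    have e3 := hzx.ne'
    rw [card_insert_of_notMem, card_insert_of_notMem, card_insert_of_notMem,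
      card_insert_of_notMem, card_singleton] <;>
    simp [e1, e2, e3, hxo, hyo, hzo]
  -- removing the cap outside
  have hnone : ∀ w, (capG (cyc3 x y z) (co T A)).Adj none w →
      w = some x ∨ w = some y ∨ w = some z := by
    rintro (_ | w) hw
    · exact absurd rfl hw.ne
    · rcases cyc3_iff.1 hw with rfl | rfl | rfl <;> simp
  have hside : ∀ u w, (capG (cyc3 x y z) (co T A)).Adj (some u) (some w) ↔
      (sideH (cyc3 x y z) (co T A)).Adj u w := fun u w => Iff.rfl
  have hsx : ∀ u w, u ≠ w → (u = x ∨ u = y ∨ u = z) → (w = x ∨ w = y ∨ w = z) → G.Adj u w →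
      (sideH (cyc3 x y z) A).Adj u w ∧ (sideH (cyc3 x y z) (co T A)).Adj u w := by
    intro u w huw hu hw hG
    exact hA.cyc_adj hloc hG (cycE3 huw hu hw)
  have t3 := t2.remove3 hcB hnone (x := some x) (y := some y) (z := some z)
    (cycE3 hxy.ne (by simp) (by simp)) (cycE3 hzx.ne (by simp) (by simp))
  have hq : ∀ u w : V, (quot (capG (cyc3 x y z) (co T A)) (mv (some x) none)).Adj (some u) (some w) ↔
      (sideH (cyc3 x y z) (co T A)).Adj u w := by
    intro u w
    rw [quot3_adj hnone (hsx x y hxy.ne (by simp) (by simp) hxy).2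
      (hsx x z hzx.ne' (by simp) (by simp) hzx.symm).2 (by simp) (by simp)]
    exact hside u w
  have hoadj : ∀ u, (sideH (cyc3 x y z) (co T A)).Adj o u ↔ G.Adj o u := by
    intro u
    exact ⟨fun h1 => hB'.sideH_le hloc h1, fun h1 => hA.inS_co_of_not hloc hAo h1⟩
  have hoT : ∀ u w, T o u w → quotT (capT (cyc3 x y z) (co T A)) (mv (some x) none) (some o)
      (some u) (some w) := by
    intro u w hT1
    have e := hloc.adj2 hT1
    refine ⟨?_, ?_, ?_, some o, some u, some w, mv_ne (by simp), mv_ne (by simp),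
      mv_ne (by simp), hT1, fun h1 => hAo ⟨u, w, h1⟩⟩
    · simpa using e.1.ne
    · simpa using e.2.1.ne
    · simpa using e.2.2.ne
  have hin : ∀ v, G.Adj o v → InS (co T A) v := by
    intro v hv
    exact hB'.inS_of_adj hloc ((hoadj v).2 hv).symm
  refine ⟨_, _, _, ⟨t3, ?_, ?_, ?_, ?_, ?_, ?_, ?_, hoT _ _ h.t1, hoT _ _ h.t2, hoT _ _ h.t3,
    hoT _ _ h.t4⟩, ?_, ?_, ?_⟩
  · rintro (_ | u)
    · constructor
      · rintro ⟨_, p, q, _, hq1, _⟩
        exact absurd hq1 (mv_ne_y (by simp) q)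
      · simp
    · rw [hq, hoadj, h.nb u]
      simp
  · simpa using h.ab
  · simpa using h.ac
  · simpa using h.ad
  · simpa using h.bc
  · simpa using h.bd
  · simpa using h.cd
  · rw [card_erase_of_mem none_mem_capS]
    have e : (capS S (fun x y z => T x y z ∧ ¬ A x y z)).card = (capS S (co T A)).card := rfl
    omega
  · intro u v huv
    exact hB'.sideH_le hloc ((hq u v).1 huv)
  · intro M hM col' hcol'
    have hcol := mdef_iff.1 hcol'
    -- the colours of the 3-cycle
    have hne : ¬ (col' (some x) = col' (some y) ∧ col' (some y) = col' (some z)) := by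
      rintro ⟨e1, e2⟩
      have h1 := hcol'.uniq (v := some x) (u := some y) (w := some z) (by simpa using hxo)
        (by simpa using hyo) (by simpa using hzo)
        ((hq x y).2 (hsx x y hxy.ne (by simp) (by simp) hxy).2)
        ((hq x z).2 (hsx x z hzx.ne' (by simp) (by simp) hzx.symm).2) e1.symm
        (e1.trans e2).symm
      exact hyz.ne (Option.some.inj h1)
    obtain ⟨c1, f1, f2, f3, f4, f5⟩ := t1.fill3 (x := some x) (y := some y) (z := some z)
      (hsx x y hxy.ne (by simp) (by simp) hxy).1 (hsx y z hyz.ne (by simp) (by simp) hyz).1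
      (hsx z x hzx.ne (by simp) (by simp) hzx).1 _ _ _ hne
    have hag : ∀ v, (v = x ∨ v = y ∨ v = z) → c1 (some v) = col' (some v) := by
      rintro v (rfl | rfl | rfl)
      · exact f1
      · exact f2
      · exact f3
    refine ⟨_, hA.glue hloc (W := {o}) (M := M) (c1 := fun v => c1 (some v))
      (c2 := fun v => col' (some v)) ?_ ?_ ?_ ?_ ?_ ?_, ?_, ?_, ?_, ?_⟩
    · intro m hm _
      have h1 := hM hm
      simp only [Set.mem_insert_iff, Set.mem_singleton_iff] at h1
      exact hin m ((h.nb m).2 h1)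
    · intro i
      exact hag _ (cyc3_mem i)
    · intro v hv u w hu hw e1 e2
      have hv' : ∀ t, (t = x ∨ t = y ∨ t = z) → v ≠ t := by
        rintro t ht rfl
        exact hv (hcin v ht).2
      have h1 := f4 (some v) (by simpa using hv' x (by simp)) (by simpa using hv' y (by simp))
        (by simpa using hv' z (by simp)) (some u) (some w) hu hw e1 e2
      exact Option.some.inj h1
    · intro i
      left
      intro u hu h1
      have hu' : ∀ t, (t = x ∨ t = y ∨ t = z) → u ≠ t := by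
        rintro t ht rfl
        exact hu (hcin u ht).2
      refine f5 (some (cyc3 x y z i)) ?_ (some u) (by simpa using hu' x (by simp))
        (by simpa using hu' y (by simp)) (by simpa using hu' z (by simp)) h1
      simpa using cyc3_mem i
    · rw [mdef_iff]
      intro v hv
      have hv' : some v ∉ ({some o} : Set (Option V)) := by simpa using hv
      obtain ⟨h1, h2⟩ := hcol (some v) hv'
      constructor
      · intro u w hu hw hvu hvw e1 e2
        exact Option.some.inj (h1 (some u) (some w) (by simpa using hu) (by simpa using hw)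
          ((hq v u).2 hvu) ((hq v w).2 hvw) e1 e2)
      · intro hvM u hu hvu
        exact h2 ⟨v, hvM, rfl⟩ (some u) (by simpa using hu) ((hq v u).2 hvu)
    · intro u v huv hu hv
      have h1 := hboth u (hA.inS_of_adj hloc huv) hu
      have h2 := hboth v (hA.inS_of_adj hloc huv.symm) hv
      exact (hsx u v huv.ne h1 h2 (hA.sideH_le hloc huv)).2
    · exact if_pos (hin a h.oa)
    · exact if_pos (hin b h.ob)
    · exact if_pos (hin c h.oc)
    · exact if_pos (hin d h.od)

/-- All the 3-cycles which avoid the apex are faces. -/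
def Facial3 (G : SimpleGraph V) (T : V → V → V → Prop) (o : V) : Prop :=
  ∀ x y z, x ≠ o → y ≠ o → z ≠ o → G.Adj x y → G.Adj y z → G.Adj z x → T x y z

theorem Apex.sep_Q1 {n : ℕ} (hQ : Q1 n) (hn : S.card ≤ n + 1)
    (h : Apex S G T o a b c d) (hac : ¬ G.Adj a c) (hbd : ¬ G.Adj b d) {i j : Fin 4}
    (hij : i ≠ j) :
    (∃ col : V → Fin 4, MDef G {o} {a, b, c, d} col ∧ col a = i ∧ col b = j ∧ col c = i ∧
      col d = j) ∨ Facial3 G T o := by
  by_contra hcon
  push Not at hcon
  obtain ⟨h1, h2⟩ := hcon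
  apply h2
  intro x y z hx hy hz hxy hyz hzx
  by_contra hT
  obtain ⟨S', G', T', hA, hlt, hle, hcol⟩ := h.sep3 hxy hyz hzx hx hy hz hT
    (h.tri.exists_side (pcyc3 hxy hyz hzx))
  obtain ⟨col', k1, k2, k3, k4, k5⟩ := hQ _ _ _ _ _ _ _ _ _ (by omega) hA
    (fun h3 => hac (hle _ _ h3)) (fun h3 => hbd (hle _ _ h3)) i j hij
  obtain ⟨col, l1, l2, l3, l4, l5⟩ := hcol {a, b, c, d} subset_rfl col'
    (k1.mono (by
      rintro _ ⟨v, hv, rfl⟩
      simpa using hv))
  exact h1 col l1 (l2.trans k2) (l3.trans k3) (l4.trans k4) (l5.trans k5)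

theorem Apex.sep_Q2 {n : ℕ} (hQ : Q2 n) (hn : S.card ≤ n + 1)
    (h : Apex S G T o a b c d) (hac : ¬ G.Adj a c) {i j k : Fin 4}
    (hij : i ≠ j) (hik : i ≠ k) (hjk : j ≠ k) :
    (∃ col : V → Fin 4, MDef G {o} {a, b, c, d} col ∧ col a = i ∧ col b = j ∧ col c = i ∧
      col d = k) ∨ Facial3 G T o := by
  by_contra hcon
  push Not at hcon
  obtain ⟨h1, h2⟩ := hcon
  apply h2
  intro x y z hx hy hz hxy hyz hzx
  by_contra hT
  obtain ⟨S', G', T', hA, hlt, hle, hcol⟩ := h.sep3 hxy hyz hzx hx hy hz hT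
    (h.tri.exists_side (pcyc3 hxy hyz hzx))
  obtain ⟨col', k1, k2, k3, k4, k5⟩ := hQ _ _ _ _ _ _ _ _ _ (by omega) hA
    (fun h3 => hac (hle _ _ h3)) i j k hij hik hjk
  obtain ⟨col, l1, l2, l3, l4, l5⟩ := hcol {a, b, c, d} subset_rfl col'
    (k1.mono (by
      rintro _ ⟨v, hv, rfl⟩
      simpa using hv))
  exact h1 col l1 (l2.trans k2) (l3.trans k3) (l4.trans k4) (l5.trans k5)

theorem Apex.sep_Q3 {n : ℕ} (hQ : Q3 n) (hn : S.card ≤ n + 1)
    (h : Apex S G T o a b c d) {i j k l : Fin 4}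
    (hij : i ≠ j) (hik : i ≠ k) (hil : i ≠ l) (hjk : j ≠ k) (hjl : j ≠ l) (hkl : k ≠ l) :
    (∃ col : V → Fin 4, MDef G {o} {b, c, d} col ∧ col a = i ∧ col b = j ∧ col c = k ∧
      col d = l) ∨ Facial3 G T o := by
  by_contra hcon
  push Not at hcon
  obtain ⟨h1, h2⟩ := hcon
  apply h2
  intro x y z hx hy hz hxy hyz hzx
  by_contra hT
  obtain ⟨S', G', T', hA, hlt, hle, hcol⟩ := h.sep3 hxy hyz hzx hx hy hz hT
    (h.tri.exists_side (pcyc3 hxy hyz hzx))
  obtain ⟨col', k1, k2, k3, k4, k5⟩ := hQ _ _ _ _ _ _ _ _ _ (by omega) hA i j k l hij hik hil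
    hjk hjl hkl
  obtain ⟨col, l1, l2, l3, l4, l5⟩ := hcol {b, c, d} (by
      intro v hv
      exact Or.inr hv) col' (k1.mono (by
      rintro _ ⟨v, hv, rfl⟩
      simpa using hv))
  exact h1 col l1 (l2.trans k2) (l3.trans k3) (l4.trans k4) (l5.trans k5)

omit [Fintype V] in
theorem Apex.card5 (h : Apex S G T o a b c d) : 5 ≤ S.card := by
  have h1 : ({o, a, b, c, d} : Finset V) ⊆ S := by
    intro p hp
    simp only [mem_insert, mem_singleton] at hp
    rcases hp with rfl | rfl | rfl | rfl | rfl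
    · exact h.mem
    · exact h.tri.mem _ _ h.oa.symm
    · exact h.tri.mem _ _ h.ob.symm
    · exact h.tri.mem _ _ h.oc.symm
    · exact h.tri.mem _ _ h.od.symm
  refine le_trans (le_of_eq ?_) (card_le_card h1)
  rw [card_insert_of_notMem, card_insert_of_notMem, card_insert_of_notMem,
    card_insert_of_notMem, card_singleton] <;>
  simp [h.oa.ne, h.ob.ne, h.oc.ne, h.od.ne, h.ab, h.ac, h.ad, h.bc, h.bd, h.cd]

omit [Fintype V] in
/-- The degree of an inner vertex is at least four. -/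
theorem Apex.deg4 [Finite V] (h : Apex S G T o a b c d) (h3 : Facial3 G T o) {v : V}
    (hv : v ∈ S) (hvo : v ≠ o) (hvn : ¬ G.Adj o v) : 4 ≤ {y | G.Adj v y}.ncard := by
  have hloc := h.tri.toTriLoc
  obtain ⟨m, ν, hν⟩ := hloc.rotation v hv
  rw [hν.card]
  by_contra hcon
  have hm : m = 3 := by
    have := hν.three
    omega
  subst hm
  have e3 : ν 3 = ν 0 := hν.per 0
  have t1 := hν.tri_next 0
  have t2 := hν.tri_next 1
  have t3 := hν.tri_next 2
  change T v (ν 0) (ν 1) at t1
  change T v (ν 1) (ν 2) at t2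
  change T v (ν 2) (ν 3) at t3
  rw [e3] at t3
  have a1 := (hloc.adj2 t1).2.1
  have a2 := (hloc.adj2 t2).2.1
  have a3 := (hloc.adj2 t3).2.1
  have n0 : ∀ i, ν i ≠ o := by
    rintro i rfl
    exact hvn (hν.adj_nu i).symm
  have t4 := h3 _ _ _ (n0 0) (n0 1) (n0 2) a1 a2 a3
  exact hloc.no_four h.card5 t1 (hloc.flip t3) t2 t4

omit [Fintype V] [DecidableEq V] in
/-- A set with a closed fan of four triangles. -/
theorem TriLoc.fan4 (h : TriLoc S G T) {v p q r s : V} (h1 : T v p q) (h2 : T v q r)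
    (h3 : T v r s) (h4 : T v s p) (hpr : p ≠ r) (hqs : q ≠ s) {z : V} (hz : G.Adj v z) :
    z = p ∨ z = q ∨ z = r ∨ z = s := by
  by_contra hcon
  push Not at hcon
  obtain ⟨a, b, ha, hb, hT⟩ := h.split ({p, q, r, s} : Set V) (h.adj _ _ _ h1) (by simp) hz
    (by simp [hcon.1, hcon.2.1, hcon.2.2.1, hcon.2.2.2])
  simp only [Set.mem_insert_iff, Set.mem_singleton_iff, not_or] at ha hb
  rcases ha with rfl | rfl | rfl | rfl
  · rcases h.two_pair h1 (h.flip h4) hqs hT with h5 | h5
    · exact hb.2.1 h5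
    · exact hb.2.2.2 h5
  · rcases h.two_pair (h.flip h1) h2 hpr hT with h5 | h5
    · exact hb.1 h5
    · exact hb.2.2.1 h5
  · rcases h.two_pair (h.flip h2) h3 hqs hT with h5 | h5
    · exact hb.2.1 h5
    · exact hb.2.2.2 h5
  · rcases h.two_pair (h.flip h3) h4 hpr.symm hT with h5 | h5
    · exact hb.2.2.1 h5
    · exact hb.1 h5

omit [Fintype V] [DecidableEq V] in
/-- If `b` and `d` are adjacent the disc has no inner vertices. -/
theorem Apex.chord_all (h : Apex S G T o a b c d) (h3 : Facial3 G T o) (hbd : G.Adj b d) {v : V}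
    (hv : v ∈ S) : v = o ∨ v = a ∨ v = b ∨ v = c ∨ v = d := by
  have hloc := h.tri.toTriLoc
  have ta : T a b d := h3 _ _ _ h.oa.ne' h.ob.ne' h.od.ne' h.adj_ab hbd h.adj_da
  have tc : T c d b := h3 _ _ _ h.oc.ne' h.od.ne' h.ob.ne' h.adj_cd hbd.symm h.adj_bc
  have hcl : ∀ u, (u = o ∨ u = a ∨ u = b ∨ u = c ∨ u = d) → ∀ w, G.Adj u w →
      (w = o ∨ w = a ∨ w = b ∨ w = c ∨ w = d) := by
    intro u hu w huw
    rcases hu with rfl | rfl | rfl | rfl | rfl
    · exact Or.inr ((h.nb w).1 huw)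
    · have := hloc.three_of (v := u) (p := o) (q := b) (s := d)
        (hloc.swap _ _ _ h.t1) ta
        (hloc.flip (hloc.rot _ _ _ (hloc.rot _ _ _ h.t4))) h.ob.ne hbd.ne h.od.ne' huw
      tauto
    · have := hloc.fan4 (v := u) (p := o) (q := a) (r := d) (s := c)
        (hloc.rot _ _ _ (hloc.rot _ _ _ h.t1)) (hloc.swap _ _ _ ta)
        (hloc.flip (hloc.rot _ _ _ (hloc.rot _ _ _ tc)))
        (hloc.flip (hloc.swap _ _ _ h.t2)) h.od.ne h.ac huw
      tauto
    · have := hloc.three_of (v := u) (p := o) (q := d) (s := b)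
        (hloc.swap _ _ _ h.t3) tc
        (hloc.flip (hloc.rot _ _ _ (hloc.rot _ _ _ h.t2))) h.od.ne hbd.ne' h.ob.ne' huw
      tauto
    · have := hloc.fan4 (v := u) (p := o) (q := c) (r := b) (s := a)
        (hloc.rot _ _ _ (hloc.rot _ _ _ h.t3)) (hloc.swap _ _ _ tc)
        (hloc.flip (hloc.rot _ _ _ (hloc.rot _ _ _ ta)))
        (hloc.flip (hloc.swap _ _ _ h.t4)) h.ob.ne h.ac.symm huw
      tauto
  obtain ⟨p⟩ := hloc.conn o h.mem v hv
  have key : ∀ u w : V, G.Walk u w → (u = o ∨ u = a ∨ u = b ∨ u = c ∨ u = d) →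
      (w = o ∨ w = a ∨ w = b ∨ w = c ∨ w = d) := by
    intro u w p
    induction p with
    | nil => exact id
    | cons hadj _ ih => exact fun hu => ih (hcl _ hu _ hadj)
  exact key _ _ p (Or.inl rfl)

/-- A disc in which `b` and `d` are adjacent: every colouring of the corners in which adjacent
corners have different colours. -/
theorem Apex.chord_ext (h : Apex S G T o a b c d) (h3 : Facial3 G T o) (hbd : G.Adj b d)
    {i j k l : Fin 4} (hij : i ≠ j) (hjk : j ≠ k) (hkl : k ≠ l) (hil : i ≠ l) (hjl : j ≠ l)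
    (hik : i ≠ k ∨ ¬ G.Adj a c) :
    ∃ col : V → Fin 4, MDef G {o} {a, b, c, d} col ∧ col a = i ∧ col b = j ∧ col c = k ∧
      col d = l := by
  let col : V → Fin 4 := fun v => if v = a then i else if v = b then j else if v = c then k else l
  have ha : col a = i := if_pos rfl
  have hb : col b = j := by
    change (if b = a then i else if b = b then j else if b = c then k else l) = j
    rw [if_neg h.ab.symm, if_pos rfl]
  have hc : col c = k := by
    change (if c = a then i else if c = b then j else if c = c then k else l) = k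
    rw [if_neg h.ac.symm, if_neg h.bc.symm, if_pos rfl]
  have hd : col d = l := by
    change (if d = a then i else if d = b then j else if d = c then k else l) = l
    rw [if_neg h.ad.symm, if_neg h.bd.symm, if_neg h.cd.symm]
  have key : ∀ u v, u ≠ o → v ≠ o → G.Adj u v → col v ≠ col u := by
    intro u v hu hv huv
    have hu' := h.chord_all h3 hbd (h.tri.mem _ _ huv)
    have hv' := h.chord_all h3 hbd (h.tri.mem _ _ huv.symm)
    have hne := huv.ne
    rcases hu' with rfl | rfl | rfl | rfl | rfl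
    · exact absurd rfl hu
    all_goals rcases hv' with rfl | rfl | rfl | rfl | rfl
    all_goals first
      | exact absurd rfl hv
      | exact absurd rfl hne
      | (simp only [ha, hb, hc, hd]
         first
          | assumption
          | exact Ne.symm (by assumption)
          | (rcases hik with hik | hik
             · first
               | exact hik
               | exact hik.symm
             · first
               | exact absurd huv hik
               | exact absurd huv.symm hik))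
  refine ⟨col, ?_, ha, hb, hc, hd⟩
  rw [mdef_iff]
  intro v hv
  exact ⟨fun u w hu hw hvu _ e _ => absurd e (key v u hv hu hvu),
    fun _ u hu hvu => key v u hv hu hvu⟩

/-- A disc whose corners `a` and `b` have the same colour: the other two corners have any other
colours. No corner has a mate inside. -/
theorem Apex.mono (h : Apex S G T o a b c d) (h3 : Facial3 G T o) {i j k : Fin 4}
    (hij : i ≠ j) (_hik : i ≠ k) :
    ∃ col : V → Fin 4, col a = i ∧ col b = i ∧ col c = j ∧ col d = k ∧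
      (∀ v, v ≠ a → v ≠ b → v ≠ c → v ≠ d → ∀ u w, G.Adj v u → G.Adj v w → col u = col v →
        col w = col v → u = w) ∧
      (∀ v, (v = a ∨ v = b ∨ v = c ∨ v = d) → ∀ u, u ≠ a → u ≠ b → u ≠ c → u ≠ d →
        G.Adj v u → col u ≠ col v) := by
  have hloc := h.tri.toTriLoc
  have h2 : ∀ z, G.Adj a z → G.Adj b z → T a b z := by
    intro z hz1 hz2
    by_cases hzo : z = o
    · subst hzo
      exact hloc.rot _ _ _ h.t1
    · exact h3 _ _ _ h.oa.ne' h.ob.ne' hzo h.adj_ab hz2 hz1.symm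
  have hq := h.tri.contract h.card5 h.adj_ab h2
  have e1 : (quot G (mv a b)).Adj a c :=
    (cadj_x h.ab).2 ⟨h.ac.symm, h.bc.symm, Or.inr h.adj_bc⟩
  have e2 : (quot G (mv a b)).Adj c d :=
    ⟨h.cd, c, d, mv_ne h.bc.symm, mv_ne h.bd.symm, h.adj_cd⟩
  have e3 : (quot G (mv a b)).Adj d a :=
    ((cadj_x h.ab).2 ⟨h.ad.symm, h.bd.symm, Or.inl h.adj_da.symm⟩).symm
  obtain ⟨c1, f1, f2, f3, f4, f5⟩ := hq.fill3 e1 e2 e3 i j k (fun e => hij e.1)
  have hmv : ∀ u v, mv a b u ≠ mv a b v → G.Adj u v → (quot G (mv a b)).Adj (mv a b u) (mv a b v) :=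
    fun u v hne huv => ⟨hne, u, v, rfl, rfl, huv⟩
  have hb' : mv a b b = a := mv_self
  refine ⟨fun v => c1 (mv a b v), ?_, ?_, ?_, ?_, ?_, ?_⟩
  · change c1 (mv a b a) = i
    rw [mv_ne h.ab, f1]
  · change c1 (mv a b b) = i
    rw [hb', f1]
  · change c1 (mv a b c) = j
    rw [mv_ne h.bc.symm, f2]
  · change c1 (mv a b d) = k
    rw [mv_ne h.bd.symm, f3]
  · intro v hva hvb hvc hvd u w hu hw eu ew
    change c1 (mv a b u) = c1 (mv a b v) at eu
    change c1 (mv a b w) = c1 (mv a b v) at ew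
    have hv' : mv a b v = v := mv_ne hvb
    rw [hv'] at eu ew
    -- a neighbour with the same colour is neither `a` nor `b`
    have key : ∀ u, G.Adj v u → c1 (mv a b u) = c1 v → u ≠ a ∧ u ≠ b := by
      intro u hu eu
      have h6 : (u = a ∨ u = b) → False := by
        intro h7
        have h8 : mv a b u = a := by
          rcases h7 with rfl | rfl
          · exact mv_ne h.ab
          · exact hb'
        have h9 : (quot G (mv a b)).Adj a v := by
          have := hmv u v (by rw [h8, hv']; exact hva.symm) hu.symm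
          rwa [h8, hv'] at this
        rw [h8] at eu
        exact f5 a (Or.inl rfl) v hva hvc hvd h9 eu.symm
      exact ⟨fun h7 => h6 (Or.inl h7), fun h7 => h6 (Or.inr h7)⟩
    obtain ⟨_, ku2⟩ := key u hu eu
    obtain ⟨_, kw2⟩ := key w hw ew
    rw [mv_ne ku2] at eu
    rw [mv_ne kw2] at ew
    exact f4 v hva hvc hvd u w ⟨hu.ne, v, u, hv', mv_ne ku2, hu⟩
      ⟨hw.ne, v, w, hv', mv_ne kw2, hw⟩ eu ew
  · intro v hv u hua hub huc hud huv
    change c1 (mv a b u) ≠ c1 (mv a b v)
    rw [mv_ne hub]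
    have hv1 : mv a b v = a ∨ mv a b v = c ∨ mv a b v = d := by
      rcases hv with rfl | rfl | rfl | rfl
      · exact Or.inl (mv_ne h.ab)
      · exact Or.inl hb'
      · exact Or.inr (Or.inl (mv_ne h.bc.symm))
      · exact Or.inr (Or.inr (mv_ne h.bd.symm))
    refine f5 (mv a b v) hv1 u hua huc hud ⟨?_, v, u, rfl, mv_ne hub, huv⟩
    rcases hv1 with h6 | h6 | h6 <;> rw [h6]
    · exact hua.symm
    · exact huc.symm
    · exact hud.symm

end sep

end Pool.Agent.W986
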