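import Pool.Agent.W986.SubFill
import Pool.Agent.W986.SubSideP
import Pool.Agent.W986.SubMain
import Pool.Agent.W986.SubQSep

/-!
# 4-cycles in discs and in the projective plane
-/

set_option autoImplicit false

open Finset

namespace Pool.Agent.W986

open Pool.Agent.DC76

/-- Discs with an adjacent pair of corners of the same colour. -/
def ApexMono : Prop :=
  ∀ (V : Type) [Fintype V] [DecidableEq V] (S : Finset V) (G : SimpleGraph V)
    (T : V → V → V → Prop) (o a b c d : V), Apex S G T o a b c d →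
    (∀ x y z, x ≠ o → y ≠ o → z ≠ o → G.Adj x y → G.Adj y z → G.Adj z x → T x y z) →
    MonoPair G a b c d

theorem apexMono : ApexMono := fun _ _ _ _ _ _ _ _ _ _ _ h h3 _ _ _ hij hik => h.mono h3 hij hik

section

variable {W : Type} {H : SimpleGraph W} {T A : W → W → W → Prop} {c : ℕ → W} {S : Finset W}

/-- The cap of a 4-cycle as a disc, from any vertex of the cycle. -/
theorem cap_apex_at (hC : PCyc H 4 c) (hin : TriOn 2 (capS S A) (capG c A) (capT c A)) (i : ℕ) :
    Apex (capS S A) (capG c A) (capT c A) none (some (c i)) (some (c (i + 1)))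
      (some (c (i + 2))) (some (c (i + 3))) := by
  induction i with
  | zero => exact cap_apex hC hin
  | succ i ih =>
    have h := ih.turn
    rw [show i + 1 + 1 = i + 2 by omega, show i + 1 + 2 = i + 3 by omega,
      show i + 1 + 3 = i + 4 by omega, hC.per]
    exact h

theorem cap_mono [Fintype W] [DecidableEq W] (hM : ApexMono) (h : TriLoc S H T)
    (hC : PCyc H 4 c) (hA : Side T c A)
    (hin : TriOn 2 (capS S A) (capG c A) (capT c A))
    (h3 : ∀ x y z, InS A x → InS A y → InS A z → H.Adj x y → H.Adj y z → H.Adj z x → T x y z)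
    (i : ℕ) : MonoPair (capG c A) (some (c i)) (some (c (i + 1))) (some (c (i + 2)))
      (some (c (i + 3))) :=
  hM _ _ _ _ _ _ _ _ _ (cap_apex_at hC hin i) fun x y z hx hy hz hxy hyz hzx =>
    cap_three h hC hA h3 x y z hx hy hz hxy hyz hzx

/-- **A 4-cycle in a disc.** If a 4-cycle without diagonals and without a centre passes through an
inner vertex, the disc can be replaced by a smaller one. -/
theorem four_disc [Fintype W] [DecidableEq W] (hM : ApexMono) {n : ℕ} (q1 : Q1 n) (q2 : Q2 n)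
    (q3 : Q3 n) {o a b d e : W} (hn : S.card ≤ n + 1) (h : Apex S H T o a b d e)
    (h3 : ∀ x y z, x ≠ o → y ≠ o → z ≠ o → H.Adj x y → H.Adj y z → H.Adj z x → T x y z)
    (hC : PCyc H 4 c) (hox : ∀ i, c i ≠ o) (hin : c 0 ≠ a ∧ c 0 ≠ b ∧ c 0 ≠ d ∧ c 0 ≠ e)
    (hd1 : ¬ H.Adj (c 0) (c 2)) (hd2 : ¬ H.Adj (c 1) (c 3))
    (hm : ¬ ∃ m, m ≠ o ∧ ∀ v, H.Adj m v ↔ v = c 0 ∨ v = c 1 ∨ v = c 2 ∨ v = c 3) :
    ∃ (S' : Finset (Option W)) (G' : SimpleGraph (Option W))
      (T' : Option W → Option W → Option W → Prop), S'.card < S.card ∧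
      Apex S' G' T' (some o) (some a) (some b) (some d) (some e) ∧
      (∀ u v, G'.Adj (some u) (some v) → H.Adj u v) ∧
      ∀ M : Set W, M ⊆ {a, b, d, e} → ∀ col0, MDef G' {some o} (some '' M) col0 →
        ∃ col : W → Fin 4, MDef H {o} M col ∧ col a = col0 (some a) ∧ col b = col0 (some b) ∧
          col d = col0 (some d) ∧ col e = col0 (some e) := by
  classical
  have hL := h.tri.toTriLoc
  obtain ⟨A0, hA0⟩ := h.tri.exists_side hC
  -- the side which does not contain `o`
  obtain ⟨A, hA, hoA⟩ : ∃ A, Side T c A ∧ ¬ InS A o := by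
    by_cases ho : InS A0 o
    · refine ⟨_, hA0.compl hL.rot hL.swap, fun h1 => ?_⟩
      exact (hA0.one_side hL h.mem hox).2 h1 ho
    · exact ⟨A0, hA0, ho⟩
  have hA' := hA.compl hL.rot hL.swap
  have hcin := h.tri.cap_sphere hC hA
  have hcout := h.tri.cap_sphere hC hA'
  have hoS : InS (fun x y z => T x y z ∧ ¬ A x y z) o := (hA.one_side hL h.mem hox).1 hoA
  have hTo : ∀ y z, T o y z → ¬ A o y z := fun y z _ h2 => hoA ⟨y, z, h2⟩
  -- the corners are not inside
  have hcor : ∀ v, H.Adj o v → ¬ Inn S c A v := by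
    intro v hv hi
    obtain ⟨z, hz⟩ := hL.exists_tri hv
    exact hTo v z hz (hA.swap _ _ _ (hA.inner_tri hL hi (hL.swap _ _ _ hz)))
  have hcorS : ∀ v, H.Adj o v → some v ∈ capS S (fun x y z => T x y z ∧ ¬ A x y z) := by
    intro v hv
    obtain ⟨z, hz⟩ := hL.exists_tri hv
    exact mem_capS_some.2 ⟨hL.mem _ _ hv.symm, o, z, hL.swap _ _ _ hz,
      fun h5 => hTo _ _ hz (hA.swap _ _ _ h5)⟩
  -- a corner off the cycle
  obtain ⟨v0, hv0, hv0c⟩ : ∃ v, H.Adj o v ∧ ∀ i, c i ≠ v := by
    by_contra hcon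
    push Not at hcon
    have hj : ∀ v, H.Adj o v → v ≠ c 0 → v = c 1 ∨ v = c 2 ∨ v = c 3 := by
      intro v hv hv0
      obtain ⟨i, rfl⟩ := hcon v hv
      have h5 : i % 4 < 4 := Nat.mod_lt _ (by omega)
      have h6 : i % 4 = 0 ∨ i % 4 = 1 ∨ i % 4 = 2 ∨ i % 4 = 3 := by omega
      rw [hC.mod i] at hv0 ⊢
      rcases h6 with h6 | h6 | h6 | h6 <;> rw [h6] at hv0 ⊢
      · exact absurd rfl hv0
      · exact Or.inl rfl
      · exact Or.inr (Or.inl rfl)
      · exact Or.inr (Or.inr rfl)
    have ka := hj a h.oa hin.1.symm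
    have kb := hj b h.ob hin.2.1.symm
    have kd := hj d h.oc hin.2.2.1.symm
    have ke := hj e h.od hin.2.2.2.symm
    have n1 := h.ab
    have n2 := h.ac
    have n3 := h.ad
    have n4 := h.bc
    have n5 := h.bd
    have n6 := h.cd
    rcases ka with ka | ka | ka <;> rcases kb with kb | kb | kb <;>
      rcases kd with kd | kd | kd <;> rcases ke with ke | ke | ke <;>
      first
      | exact n1 (ka.trans kb.symm)
      | exact n2 (ka.trans kd.symm)
      | exact n3 (ka.trans ke.symm)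
      | exact n4 (kb.trans kd.symm)
      | exact n5 (kb.trans ke.symm)
      | exact n6 (kd.trans ke.symm)
  have hcc : ∀ i, some (c i) ∈ capS S (fun x y z => T x y z ∧ ¬ A x y z) := fun i =>
    mem_capS_some.2 ⟨hC.mem hL i, hA'.inS_cyc hC i (Side.rot_cyc hC hL)⟩
  have hcard := hA.card_both hC hL
  have h7 : 7 ≤ (capS S (fun x y z => T x y z ∧ ¬ A x y z)).card := by
    have hsub : ({none, some (c 0), some (c 1), some (c 2), some (c 3), some o, some v0} :
        Finset (Option W)) ⊆ capS S (fun x y z => T x y z ∧ ¬ A x y z) := by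
      intro x hx
      simp only [mem_insert, mem_singleton] at hx
      rcases hx with rfl | rfl | rfl | rfl | rfl | rfl | rfl
      · exact none_mem_capS
      · exact hcc 0
      · exact hcc 1
      · exact hcc 2
      · exact hcc 3
      · exact mem_capS_some.2 ⟨h.mem, hoS⟩
      · exact hcorS v0 hv0
    have e7 : ({none, some (c 0), some (c 1), some (c 2), some (c 3), some o, some v0} :
        Finset (Option W)).card = 7 := by
      have ee : ∀ i j, i < 4 → j < 4 → i ≠ j → c i ≠ c j :=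
        fun i j hi hj hij h => hij (hC.inj i hi j hj h)
      rw [card_insert_of_notMem, card_insert_of_notMem, card_insert_of_notMem,
        card_insert_of_notMem, card_insert_of_notMem, card_insert_of_notMem, card_singleton]
      · simpa using hv0.ne
      · simpa using ⟨hox 3, hv0c 3⟩
      · simpa using ⟨ee 2 3 (by omega) (by omega) (by omega), hox 2, hv0c 2⟩
      · simpa using ⟨ee 1 2 (by omega) (by omega) (by omega),
          ee 1 3 (by omega) (by omega) (by omega), hox 1, hv0c 1⟩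
      · simpa using ⟨ee 0 1 (by omega) (by omega) (by omega),
          ee 0 2 (by omega) (by omega) (by omega), ee 0 3 (by omega) (by omega) (by omega),
          hox 0, hv0c 0⟩
      · simp
    have h4 := card_le_card hsub
    omega
  have h3' : ∀ x y z, InS A x → InS A y → InS A z → H.Adj x y → H.Adj y z → H.Adj z x →
      T x y z := fun x y z hx hy hz => h3 x y z (fun e0 => hoA (e0 ▸ hx)) (fun e0 => hoA (e0 ▸ hy))
    (fun e0 => hoA (e0 ▸ hz))
  refine ⟨capS S (fun x y z => T x y z ∧ ¬ A x y z), capG c (fun x y z => T x y z ∧ ¬ A x y z),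
    capT c (fun x y z => T x y z ∧ ¬ A x y z), ?_, ?_, ?_, ?_⟩
  · refine hA.card_lt hL hC (hA.two_inside hL hC hd1 hd2 ?_)
    rintro ⟨m, hm1, hm2⟩
    exact hm ⟨m, fun e0 => hoA (e0 ▸ hm1.2.2), hm2⟩
  · refine ⟨hcout, ?_, fun h5 => h.ab (Option.some.inj h5), fun h5 => h.ac (Option.some.inj h5),
      fun h5 => h.ad (Option.some.inj h5), fun h5 => h.bc (Option.some.inj h5),
      fun h5 => h.bd (Option.some.inj h5), fun h5 => h.cd (Option.some.inj h5),
      ⟨h.t1, hTo _ _ h.t1⟩, ⟨h.t2, hTo _ _ h.t2⟩, ⟨h.t3, hTo _ _ h.t3⟩, ⟨h.t4, hTo _ _ h.t4⟩⟩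
    rintro (_ | y)
    · constructor
      · rintro ⟨i, hi⟩
        exact absurd hi (hox i)
      · rintro (h5 | h5 | h5 | h5) <;> exact absurd h5 (by simp)
    · rw [hA'.adj_iff hL.adj]
      simp only [Option.some.injEq]
      rw [← h.nb y]
      constructor
      · rintro ⟨z, hz, _⟩
        exact hL.adj _ _ _ hz
      · intro hy
        obtain ⟨z, hz⟩ := hL.exists_tri hy
        exact ⟨z, hz, hTo _ _ hz⟩
  · intro u v huv
    obtain ⟨z, hz, _⟩ := (hA'.adj_iff hL.adj).1 huv
    exact hL.adj _ _ _ hz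
  · intro M hMs col0 h0
    have hMi : ∀ m ∈ M, ¬ Inn S c A m := by
      intro m hm'
      have h5 := hMs hm'
      simp only [Set.mem_insert_iff, Set.mem_singleton_iff] at h5
      exact hcor m ((h.nb m).2 h5)
    obtain ⟨col, hc1, hc2⟩ := four_fill hL hC hA hd1 hd2 hcin (n := n) (by omega) q1 q2 q3
      (cap_mono hM hL hC hA hcin h3') (W0 := {o}) (M := M)
      (fun i hi => hox i (Set.mem_singleton_iff.1 hi)) hMi (col0 := col0)
      (by rw [Set.image_singleton]; exact h0)
    exact ⟨col, hc1, hc2 _ (hcor a h.oa), hc2 _ (hcor b h.ob), hc2 _ (hcor d h.oc),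
      hc2 _ (hcor e h.od)⟩

end

section proj

/-- The cyclic sequence of four vertices. -/
def cyc4 {V : Type} (x y z w : V) (i : ℕ) : V :=
  if i % 4 = 0 then x else if i % 4 = 1 then y else if i % 4 = 2 then z else w

theorem cyc4_pcyc {V : Type} {G : SimpleGraph V} {x y z w : V} (hxz : x ≠ z) (hyw : y ≠ w)
    (hxy : G.Adj x y) (hyz : G.Adj y z) (hzw : G.Adj z w) (hwx : G.Adj w x) :
    PCyc G 4 (cyc4 x y z w) := by
  have n1 := hxy.ne
  have n2 := hyz.ne
  have n3 := hzw.ne
  have n4 := hwx.ne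
  refine ⟨by omega, ?_, ?_, ?_⟩
  · intro i
    unfold cyc4
    rw [Nat.add_mod_right]
  · intro i hi j hj hij
    unfold cyc4 at hij
    have hi' : i = 0 ∨ i = 1 ∨ i = 2 ∨ i = 3 := by omega
    have hj' : j = 0 ∨ j = 1 ∨ j = 2 ∨ j = 3 := by omega
    rcases hi' with rfl | rfl | rfl | rfl <;> rcases hj' with rfl | rfl | rfl | rfl <;>
      simp at hij ⊢ <;> first
      | exact absurd hij n1
      | exact absurd hij n2
      | exact absurd hij n3
      | exact absurd hij n4
      | exact absurd hij n1.symm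
      | exact absurd hij n2.symm
      | exact absurd hij n3.symm
      | exact absurd hij n4.symm
      | exact absurd hij hxz
      | exact absurd hij hyw
      | exact absurd hij hxz.symm
      | exact absurd hij hyw.symm
  · intro i
    unfold cyc4
    have h4 : i % 4 < 4 := Nat.mod_lt _ (by omega)
    have e1 : (i + 1) % 4 = (i % 4 + 1) % 4 := by omega
    rw [e1]
    generalize i % 4 = m at h4
    have hm : m = 0 ∨ m = 1 ∨ m = 2 ∨ m = 3 := by omega
    rcases hm with rfl | rfl | rfl | rfl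
    · exact hxy
    · exact hyz
    · exact hzw
    · exact hwx

/-- **Even 4-cycles in the projective plane.** -/
theorem fourCol (hM : ApexMono) (q1 : ∀ n, Q1 n) (q2 : ∀ n, Q2 n) (q3 : ∀ n, Q3 n)
    (hT : ThinCol) : FourCol := by
  intro V F _ _ _ G M X hG hL h3 hχ hB hX hf hodd htri x y z w hxz hyw hxy hyz hzw hwx n1 n2 h0 hm
  by_contra hcon
  have z2 : ∀ a : ZMod 2, a = 0 ∨ a = 1 := by decide
  -- all 3-cycles are faces
  have e3 : ∀ x y z, G.Adj x y → G.Adj y z → G.Adj z x → Tri M x y z := by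
    intro x y z hxy hyz hzx
    rcases z2 (X x y + X y z + X z x) with h | h
    · exact tri_of_facial M h3 hxy.ne hyz.ne hzx.ne (htri x y z hxy hyz hzx h)
    · exact absurd (hT V F G M X hG hL h3 hχ hB hX hf hodd htri
        (Or.inl ⟨x, y, z, hxy, hyz, hzx, h⟩)) hcon
  have hO := triOn_of_walks M hL hG h3 hχ ⟨x, y, hxy⟩
  have hC := cyc4_pcyc hxz hyw hxy hyz hzw hwx
  obtain ⟨A0, hA0⟩ := exists_side_even M hL hG h3 hχ hX hf hodd hC (by
    rw [sum_range_succ, sum_range_succ, sum_range_succ, sum_range_succ, range_zero, sum_empty,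
      zero_add]
    exact h0)
  have hLo := hO.toTriLoc
  -- the disc side
  obtain ⟨A, hA, hin⟩ : ∃ A, Side (Tri M) (cyc4 x y z w) A ∧
      TriOn 2 (capS univ A) (capG (cyc4 x y z w) A) (capT (cyc4 x y z w) A) := by
    rcases hO.cap_proj hC hA0 with h1 | h1
    · exact ⟨_, hA0, h1⟩
    · exact ⟨_, hA0.compl hLo.rot hLo.swap, h1⟩
  obtain ⟨χ1, χ2, _, _, hs, t1, t2⟩ := hO.cap hC hA
  have e1 := hin.chi_unique t1
  have e2 : χ2 = 1 := by omega
  rw [e2] at t2
  have hd1 : ¬ G.Adj (cyc4 x y z w 0) (cyc4 x y z w 2) := n1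
  have hd2 : ¬ G.Adj (cyc4 x y z w 1) (cyc4 x y z w 3) := n2
  have hlt := hA.card_lt hLo hC (hA.two_inside hLo hC hd1 hd2 (by
    rintro ⟨m, _, hm2⟩
    exact hm ⟨m, hm2⟩))
  obtain ⟨col0, hc0⟩ := colour_quot t2 ⟨none, none_mem_capS⟩ fun V' F' _ _ _ G' M' hlt' =>
    hB V' F' G' M' (by rw [card_univ] at hlt; omega)
  obtain ⟨col, hc, _⟩ := four_fill hLo hC hA hd1 hd2 hin (n := (capS univ A).card) le_rfl
    (q1 _) (q2 _) (q3 _) (cap_mono hM hLo hC hA hin fun a b c _ _ _ hab hbc hca => e3 a b c hab hbc hca)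
    (W0 := ∅) (M := ∅) (fun i hi => absurd hi (by simp)) (fun m hm => absurd hm (by simp))
    (col0 := col0) (by
      simpa using mdef_of_defective hc0)
  exact hcon ⟨col, defective_of_mdef hc⟩

end proj

end Pool.Agent.W986
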