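import Pool.Agent.W986.SubTree

/-!
# Rules given by decision trees

What a vertex `u` gives to its neighbour `x` is a function of the degrees of the neighbours of `u`,
read from `x` in both directions.
-/

set_option autoImplicit false

open Finset

namespace Pool.Agent.W986.ST

/-! ### The rules -/

/-- A decision tree: the entry number `j` is compared with `c`. -/
inductive GT where
  | leaf (a : ℕ)
  | nd (j c : ℕ) (lt ge : GT)

/-- The value for the entries `r`. -/
def GT.eval (r : ℕ → ℕ) : GT → ℕ
  | leaf a => a
  | nd j c l g => bif Nat.blt (r j) c then l.eval r else g.eval r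

/-- The largest value. -/
def GT.top : GT → ℕ
  | leaf a => a
  | nd _ _ l g => max l.top g.top

theorem GT.eval_le_top (r : ℕ → ℕ) (t : GT) : t.eval r ≤ t.top := by
  induction t with
  | leaf a => exact le_refl _
  | nd j c l g hl hg =>
    rw [eval, top]
    cases Nat.blt (r j) c with
    | true => exact hl.trans (le_max_left _ _)
    | false => exact hg.trans (le_max_right _ _)

/-- The decision tree number `n`. -/
def gnth : List GT → ℕ → GT
  | [], _ => .leaf 0
  | x :: _, 0 => x
  | _ :: l, n + 1 => gnth l n

section give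

variable {V : Type} (E : Env V) (R : List GT)

/-- The sum over both orientations. -/
def Env.read (d : ℕ) (ν : ℕ → V) : ℕ :=
  (gnth R d).eval (fun i => E.D (ν i)) + (gnth R d).eval (fun i => E.D (ν ((d - 1) * i)))

theorem Env.read_eq {x : V} {d : ℕ} {ν μ : ℕ → V} (h : Rotn E.H E.T x d ν)
    (h' : Rotn E.H E.T x d μ) (h0 : μ 0 = ν 0) : E.read R d μ = E.read R d ν := by
  rcases h.tTwo h' h0 with h1 | h1
  · have h2 : μ = ν := funext h1
    rw [h2]
  · have h2 : μ = fun i => ν ((d - 1) * i) := funext h1
    rw [h2, Env.read, Env.read, add_comm]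
    simp_rw [h.tReflect2]

open Classical in
/-- What `u` gives to its neighbour `x`. -/
noncomputable def Env.give (u x : V) : ℕ :=
  if h : E.I u ∧ ∃ ν, Rotn E.H E.T u (E.D u) ν ∧ ν 0 = x then E.read R (E.D u) h.2.choose else 0

theorem Env.give_eq {u x : V} {ν : ℕ → V} (hu : E.I u) (h : Rotn E.H E.T u (E.D u) ν)
    (h0 : ν 0 = x) : E.give R u x = E.read R (E.D u) ν := by
  have h1 : E.I u ∧ ∃ ν, Rotn E.H E.T u (E.D u) ν ∧ ν 0 = x := ⟨hu, ν, h, h0⟩
  rw [Env.give, dif_pos h1]
  exact E.read_eq R h h1.2.choose_spec.1 (by rw [h1.2.choose_spec.2, h0])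

theorem Env.give_le (u x : V) : E.give R u x ≤ 2 * (gnth R (E.D u)).top := by
  rw [Env.give]
  split_ifs with h
  · rw [Env.read, two_mul]
    exact Nat.add_le_add (GT.eval_le_top _ _) (GT.eval_le_top _ _)
  · exact Nat.zero_le _

/-- The final charge of `x` is not positive. -/
def Env.Fin (U : ℕ) (x : V) : Prop :=
  E.I x → ∀ ν, Rotn E.H E.T x (E.D x) ν →
    6 * U + ∑ i ∈ range (E.D x), E.give R (ν i) x ≤
      E.D x * U + ∑ i ∈ range (E.D x), E.give R x (ν i)

/-- It is enough to check one rotation. -/
theorem Env.fin_of {U : ℕ} {x : V} {ν : ℕ → V} (h : Rotn E.H E.T x (E.D x) ν)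
    (h1 : 6 * U + ∑ i ∈ range (E.D x), E.give R (ν i) x ≤
      E.D x * U + ∑ i ∈ range (E.D x), E.give R x (ν i)) : E.Fin R U x := by
  classical
  intro _ μ hμ
  have key : ∀ g : V → ℕ, ∑ i ∈ range (E.D x), g (μ i) = ∑ i ∈ range (E.D x), g (ν i) := by
    intro g
    have h2 : ∀ ν : ℕ → V, Rotn E.H E.T x (E.D x) ν →
        ∑ i ∈ range (E.D x), g (ν i) = ∑ y ∈ (range (E.D x)).image ν, g y := by
      intro ν h
      rw [sum_image]
      intro i hi j hj
      exact h.inj i (mem_range.1 hi) j (mem_range.1 hj)
    rw [h2 ν h, h2 μ hμ]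
    congr 1
    ext y
    rw [mem_image, mem_image]
    constructor
    · rintro ⟨i, hi, h3⟩
      obtain ⟨j, hj, h4⟩ := (h.adj y).1 ((hμ.adj y).2 ⟨i, mem_range.1 hi, h3⟩)
      exact ⟨j, mem_range.2 hj, h4⟩
    · rintro ⟨i, hi, h3⟩
      obtain ⟨j, hj, h4⟩ := (hμ.adj y).1 ((h.adj y).2 ⟨i, mem_range.1 hi, h3⟩)
      exact ⟨j, mem_range.2 hj, h4⟩
  rw [key (fun y => E.give R y x), key (fun y => E.give R x y)]
  exact h1

end give


/-! ### Bounds -/

/-- The larger number. -/
def mx (a b : ℕ) : ℕ := frc a fun a => frc b fun b => bif Nat.ble a b then b else a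

/-- The smaller number. -/
def mn (a b : ℕ) : ℕ := frc a fun a => frc b fun b => bif Nat.ble a b then a else b

theorem mx_eq (a b : ℕ) : mx a b = max a b := by
  rw [mx, frc_eq, frc_eq]
  cases h : Nat.ble a b with
  | true => rw [cond_true, max_eq_right (Nat.le_of_ble_eq_true h)]
  | false =>
    rw [cond_false, max_eq_left]
    by_contra h1
    rw [Nat.ble_eq_true_of_le (by omega)] at h
    exact absurd h (by decide)

theorem mn_eq (a b : ℕ) : mn a b = min a b := by
  rw [mn, frc_eq, frc_eq]
  cases h : Nat.ble a b with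
  | true => rw [cond_true, min_eq_left (Nat.le_of_ble_eq_true h)]
  | false =>
    rw [cond_false, min_eq_right]
    by_contra h1
    rw [Nat.ble_eq_true_of_le (by omega)] at h
    exact absurd h (by decide)

/-- Upper bound for the value at the labels `r`. -/
def GT.ub (lk : List (ℕ × List ℕ)) (lb : List (ℕ × ℕ)) (r : ℕ → ℕ) : GT → ℕ
  | leaf a => a
  | nd j c l g =>
    frc (r j) fun x =>
      bif Nat.ble c (loP lk lb x) then g.ub lk lb r
      else bif exP lk x then l.ub lk lb r
      else mx (l.ub lk lb r) (g.ub lk lb r)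

/-- Lower bound for the value at the labels `r`. -/
def GT.lw (lk : List (ℕ × List ℕ)) (lb : List (ℕ × ℕ)) (r : ℕ → ℕ) : GT → ℕ
  | leaf a => a
  | nd j c l g =>
    frc (r j) fun x =>
      bif Nat.ble c (loP lk lb x) then g.lw lk lb r
      else bif exP lk x then l.lw lk lb r
      else mn (l.lw lk lb r) (g.lw lk lb r)

section bounds

variable {V : Type} {E : Env V} {lk : List (ℕ × List ℕ)} {lb : List (ℕ × ℕ)} {f : ℕ → V}

theorem GT.ub_spec (h : E.Real lk lb f) (r : ℕ → ℕ) (t : GT) :
    t.eval (fun i => E.D (f (r i))) ≤ t.ub lk lb r := by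
  induction t with
  | leaf a => exact le_refl _
  | nd j c l g hl hg =>
    rw [eval, ub, frc_eq]
    have h1 := h.lo (r j)
    cases h2 : Nat.ble c (loP lk lb (r j)) with
    | true =>
      have h3 := Nat.le_of_ble_eq_true h2
      have h4 : Nat.blt (E.D (f (r j))) c = false := by
        cases h5 : Nat.blt (E.D (f (r j))) c with
        | false => rfl
        | true =>
          have h6 : E.D (f (r j)) < c := Nat.le_of_ble_eq_true h5
          omega
      rw [h4]
      exact hg
    | false =>
      rw [cond_false]
      cases h3 : exP lk (r j) with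
      | true =>
        have h4 := h.ex _ h3
        have h5 : Nat.blt (E.D (f (r j))) c = true := by
          have h6 : E.D (f (r j)) < c := by
            rw [h4]
            by_contra h7
            rw [Nat.ble_eq_true_of_le (by omega)] at h2
            exact absurd h2 (by decide)
          exact Nat.ble_eq_true_of_le h6
        rw [h5]
        exact hl
      | false =>
        rw [cond_false, mx_eq]
        cases Nat.blt (E.D (f (r j))) c with
        | true => exact hl.trans (le_max_left _ _)
        | false => exact hg.trans (le_max_right _ _)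

theorem GT.lw_spec (h : E.Real lk lb f) (r : ℕ → ℕ) (t : GT) :
    t.lw lk lb r ≤ t.eval (fun i => E.D (f (r i))) := by
  induction t with
  | leaf a => exact le_refl _
  | nd j c l g hl hg =>
    rw [eval, lw, frc_eq]
    have h1 := h.lo (r j)
    cases h2 : Nat.ble c (loP lk lb (r j)) with
    | true =>
      have h3 := Nat.le_of_ble_eq_true h2
      have h4 : Nat.blt (E.D (f (r j))) c = false := by
        cases h5 : Nat.blt (E.D (f (r j))) c with
        | false => rfl
        | true =>
          have h6 : E.D (f (r j)) < c := Nat.le_of_ble_eq_true h5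
          omega
      rw [h4]
      exact hg
    | false =>
      rw [cond_false]
      cases h3 : exP lk (r j) with
      | true =>
        have h4 := h.ex _ h3
        have h5 : Nat.blt (E.D (f (r j))) c = true := by
          have h6 : E.D (f (r j)) < c := by
            rw [h4]
            by_contra h7
            rw [Nat.ble_eq_true_of_le (by omega)] at h2
            exact absurd h2 (by decide)
          exact Nat.ble_eq_true_of_le h6
        rw [h5]
        exact hl
      | false =>
        rw [cond_false, mn_eq]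
        cases Nat.blt (E.D (f (r j))) c with
        | true => exact (min_le_left _ _).trans hl
        | false => exact (min_le_right _ _).trans hg

end bounds

/-- Upper bound for what a vertex of degree at least `b` gives, from the list of decision trees
for the degrees `i`, `i + 1`, ... -/
def topF : List GT → ℕ → ℕ → ℕ
  | [], _, _ => 0
  | x :: l, i, b => max (topF l (i + 1) b) (if b ≤ i then 2 * x.top else 0)

theorem topF_spec (R : List GT) (i b d : ℕ) (h : b ≤ i + d) : 2 * (gnth R d).top ≤ topF R i b := by
  induction R generalizing i d with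
  | nil => simp [gnth, GT.top]
  | cons x l ih =>
    rw [topF]
    cases d with
    | zero =>
      rw [gnth, if_pos (by omega)]
      exact le_max_right _ _
    | succ d => exact (ih (i + 1) d (by omega)).trans (le_max_left _ _)

/-- `tp` bounds what a vertex gives, by the lower bound for its degree. -/
def TopOK (R : List GT) (tp : List ℕ) : Prop :=
  R.length ≤ tp.length ∧ ∀ b < tp.length, topF R 0 b ≤ lnth tp b

theorem gnth_ge (R : List GT) (d : ℕ) (h : R.length ≤ d) : gnth R d = .leaf 0 := by
  induction R generalizing d with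
  | nil => rfl
  | cons x l ih =>
    cases d with
    | zero => simp at h
    | succ d => exact ih d (by simpa using h)

theorem TopOK.spec {R : List GT} {tp : List ℕ} (h : TopOK R tp) {b d : ℕ} (hb : b ≤ d) :
    2 * (gnth R d).top ≤ lnth tp b := by
  by_cases h1 : b < tp.length
  · exact (topF_spec R 0 b d (by omega)).trans (h.2 b h1)
  · rw [gnth_ge R d (by have := h.1; omega)]
    simp [GT.top]

/-- Upper bound for what the label `y` gives to the label `x`. -/
def giveUb (R : List GT) (tp : List ℕ) (lk : List (ℕ × List ℕ)) (lb : List (ℕ × ℕ)) (x y : ℕ) :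
    ℕ :=
  match findL lk y with
  | [] => lnth tp (findB lb y)
  | z :: l =>
    frc (z :: l).length fun d => frc (posn (z :: l) x) fun p =>
      bif Nat.blt p d then
        (gnth R d).ub lk lb (fun j => lnth (z :: l) ((j + p) % d)) +
          (gnth R d).ub lk lb (fun j => lnth (z :: l) (((d - 1) * j + p) % d))
      else lnth tp d

/-- Lower bound for what the label with the list `l` gives to its entry number `p`. -/
def giveLw (R : List GT) (lk : List (ℕ × List ℕ)) (lb : List (ℕ × ℕ)) (l : List ℕ) (d p : ℕ) :
    ℕ :=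
  (gnth R d).lw lk lb (fun j => lnth l ((j + p) % d)) +
    (gnth R d).lw lk lb (fun j => lnth l (((d - 1) * j + p) % d))

section give2

variable {V : Type} {E : Env V} {lk : List (ℕ × List ℕ)} {lb : List (ℕ × ℕ)} {f : ℕ → V}
  {R : List GT} {tp : List ℕ}

theorem lk_read {y : ℕ} {l : List ℕ} (h : E.Lk f y l) {p : ℕ} (hp : p < l.length) :
    E.give R (f y) (f (lnth l p)) =
      (gnth R l.length).eval (fun j => E.D (f (lnth l ((j + p) % l.length)))) +
        (gnth R l.length).eval
          (fun j => E.D (f (lnth l (((l.length - 1) * j + p) % l.length)))) := by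
  have h1 := h.2.tShift p
  rw [← h.deg] at h1
  have h2 := E.give_eq R (x := f (lnth l p)) h.1 h1 (by
    rw [h.deg, zero_add, Nat.mod_eq_of_lt hp])
  rw [h2, Env.read, h.deg]

theorem giveUb_spec (hR : TopOK R tp) (h : E.Real lk lb f) (x y : ℕ) :
    E.give R (f y) (f x) ≤ giveUb R tp lk lb x y := by
  rw [giveUb]
  split
  · exact (E.give_le R _ _).trans (hR.spec (h.findB y))
  · next z l hl =>
    have h1 := h.find (v := y) (by rw [hl]; simp)
    rw [hl] at h1
    rw [frc_eq, frc_eq]
    cases h2 : Nat.blt (posn (z :: l) x) (z :: l).length with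
    | true =>
      have h3 : posn (z :: l) x < (z :: l).length := Nat.le_of_ble_eq_true h2
      have h4 := lk_read (R := R) h1 h3
      rw [posn_spec _ _ h3] at h4
      rw [cond_true, h4]
      exact Nat.add_le_add (GT.ub_spec h _ _) (GT.ub_spec h _ _)
    | false =>
      rw [cond_false, ← h1.deg]
      exact (E.give_le R _ _).trans (hR.spec (le_refl _))

theorem giveLw_spec (h : E.Real lk lb f) {x : ℕ} {l : List ℕ} (hl : E.Lk f x l) {p : ℕ}
    (hp : p < l.length) : giveLw R lk lb l l.length p ≤ E.give R (f x) (f (lnth l p)) := by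
  rw [lk_read hl hp, giveLw]
  exact Nat.add_le_add (GT.lw_spec h _ _) (GT.lw_spec h _ _)

end give2

/-- Sum of the upper bounds. -/
def sumUb (R : List GT) (tp : List ℕ) (lk : List (ℕ × List ℕ)) (lb : List (ℕ × ℕ)) (x : ℕ) :
    List ℕ → ℕ
  | [] => 0
  | y :: l => frc (giveUb R tp lk lb x y) fun a => frc (sumUb R tp lk lb x l) fun b => a + b

/-- Sum of the lower bounds. -/
def sumLw (R : List GT) (lk : List (ℕ × List ℕ)) (lb : List (ℕ × ℕ)) (l : List ℕ) (d : ℕ) :
    ℕ → ℕ
  | 0 => 0
  | p + 1 => frc (giveLw R lk lb l d p) fun a => frc (sumLw R lk lb l d p) fun b => a + b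

/-- The final charge of the label `0` is not positive. -/
def leafA (R : List GT) (tp : List ℕ) (U : ℕ) (P : Patch) : Bool :=
  match findL P.lk 0 with
  | [] => false
  | z :: l =>
    frc (z :: l).length fun d =>
      Nat.ble (6 * U + sumUb R tp P.lk P.lb 0 (z :: l))
        (d * U + sumLw R P.lk P.lb (z :: l) d d)

section leaf

variable {V : Type} {E : Env V} {R : List GT} {tp : List ℕ}

theorem sumUb_spec (hR : TopOK R tp) {lk : List (ℕ × List ℕ)} {lb : List (ℕ × ℕ)} {f : ℕ → V}
    (h : E.Real lk lb f) (x : ℕ) (l : List ℕ) :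
    ∑ i ∈ range l.length, E.give R (f (lnth l i)) (f x) ≤ sumUb R tp lk lb x l := by
  induction l with
  | nil => simp [sumUb]
  | cons y l ih =>
    rw [List.length_cons, sum_range_succ', sumUb, frc_eq, frc_eq, add_comm]
    exact Nat.add_le_add (giveUb_spec hR h x y) ih

theorem sumLw_spec {lk : List (ℕ × List ℕ)} {lb : List (ℕ × ℕ)} {f : ℕ → V}
    (h : E.Real lk lb f) {x : ℕ} {l : List ℕ} (hl : E.Lk f x l) (n : ℕ) (hn : n ≤ l.length) :
    sumLw R lk lb l l.length n ≤ ∑ i ∈ range n, E.give R (f x) (f (lnth l i)) := by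
  induction n with
  | zero => simp [sumLw]
  | succ n ih =>
    rw [sumLw, frc_eq, frc_eq, sum_range_succ, add_comm]
    exact Nat.add_le_add (ih (by omega)) (giveLw_spec h hl (by omega))

theorem leafA_sound (hR : TopOK R tp) {U : ℕ} (P : Patch) (f : ℕ → V)
    (h : leafA R tp U P = true) (hf : E.Sat P f) : E.Fin R U (f 0) := by
  rw [leafA] at h
  split at h
  · exact absurd h Bool.false_ne_true
  · next z l hl =>
    rw [frc_eq] at h
    have h1 := Nat.le_of_ble_eq_true h
    have h2 := hf.real.find (v := 0) (by rw [hl]; simp)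
    rw [hl] at h2
    have h3 := sumUb_spec hR hf.real 0 (z :: l)
    have h4 := sumLw_spec (R := R) hf.real h2 _ (le_refl _)
    have h5 := h2.2
    rw [← h2.deg] at h5
    refine E.fin_of R h5 ?_
    have h6 : ∀ g : V → ℕ, ∑ i ∈ range (E.D (f 0)), g (f (lnth (z :: l) (i % (E.D (f 0))))) =
        ∑ i ∈ range (z :: l).length, g (f (lnth (z :: l) i)) := by
      intro g
      rw [h2.deg]
      refine sum_congr rfl fun i hi => ?_
      rw [Nat.mod_eq_of_lt (mem_range.1 hi)]
    rw [h6 (fun y => E.give R y (f 0)), h6 (fun y => E.give R (f 0) y), h2.deg]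
    omega

end leaf

end Pool.Agent.W986.ST
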