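import Pool.Agent.W986.SubCtr

/-!
# Regions and reductions

`Region S G T I`: the local facts about the set `I` of the inner vertices (of a disc, or of the
whole surface) from which a reduction is obtained. `HasRed χ S G T I`: a smaller triangulation
obtained by contractions inside the region, together with the lifting of colourings.
-/

set_option autoImplicit false

open Finset

namespace Pool.Agent.W986

variable {V : Type}

/-- A colouring of `G - W` in which every vertex has at most one neighbour of its colour and the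
vertices of `M` have none. -/
def MDef (G : SimpleGraph V) (W M : Set V) (c : V → Fin 4) : Prop :=
  ∀ v, v ∉ W → {u | u ∉ W ∧ G.Adj v u ∧ c u = c v}.ncard ≤ 1 ∧
    (v ∈ M → ∀ u, u ∉ W → G.Adj v u → c u ≠ c v)

/-- The number of the edges which leave `I`. -/
noncomputable def eout (G : SimpleGraph V) (I : Finset V) : ℕ :=
  ∑ x ∈ I, {y | G.Adj x y ∧ y ∉ I}.ncard

/-- The local facts about the set `I` of inner vertices. -/
structure Region (S : Finset V) (G : SimpleGraph V) (T : V → V → V → Prop) (I : Finset V) :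
    Prop where
  sub : I ⊆ S
  deg : ∀ x ∈ I, 4 ≤ {y | G.Adj x y}.ncard
  /-- every 3-cycle through an inner vertex is a face -/
  three : ∀ a ∈ I, ∀ b c, G.Adj a b → G.Adj b c → G.Adj c a → T a b c
  /-- every 4-cycle through an inner vertex has a diagonal or one inner vertex of degree 4 -/
  four : ∀ a ∈ I, ∀ b c d, a ≠ c → b ≠ d → G.Adj a b → G.Adj b c → G.Adj c d → G.Adj d a →
    G.Adj a c ∨ G.Adj b d ∨ ∃ m ∈ I, ∀ x, G.Adj m x ↔ x = a ∨ x = b ∨ x = c ∨ x = d
  /-- outer vertices with a common inner neighbour are adjacent -/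
  out : ∀ k ∈ I, ∀ u v, u ∉ I → v ∉ I → u ≠ v → G.Adj k u → G.Adj k v → G.Adj u v
  /-- the region is closed, or it is the inside of a disc with four corners -/
  bdry : ((∀ x ∈ I, ∀ y, G.Adj x y → y ∈ I) ∧
      ∑ x ∈ I, (6 - ({y | G.Adj x y}.ncard : ℤ)) = 6) ∨
    ∃ c p : ℕ → V, (∀ i, c (i + 4) = c i) ∧ (∀ i, p (i + 4) = p i) ∧ (∀ i, c i ∉ I) ∧
      (∀ i, p i ∈ I) ∧ (∀ i < 4, ∀ j < 4, c i = c j → i = j) ∧
      (∀ i < 4, ∀ j < 4, p i = p j → i = j) ∧ (∀ i, T (c i) (c (i + 1)) (p i)) ∧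
      (∀ x ∈ I, ∀ y, y ∉ I → G.Adj x y → ∃ i, y = c i) ∧ 8 ≤ eout G I ∧
      ∑ x ∈ I, (6 - ({y | G.Adj x y}.ncard : ℤ)) = eout G I - 2

theorem eout_eq_zero {G : SimpleGraph V} {I : Finset V} (h : ∀ x ∈ I, ∀ y, G.Adj x y → y ∈ I) :
    eout G I = 0 := by
  unfold eout
  refine Finset.sum_eq_zero fun x hx => ?_
  have h1 : {y | G.Adj x y ∧ y ∉ I} = ∅ := by
    rw [Set.eq_empty_iff_forall_notMem]
    rintro y ⟨h2, h3⟩
    exact h3 (h x hx y h2)
  rw [h1, Set.ncard_empty]

/-- The sum of the charges. -/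
theorem Region.sum {S : Finset V} {G : SimpleGraph V} {T : V → V → V → Prop} {I : Finset V}
    (h : Region S G T I) :
    7 * (eout G I : ℤ) < 10 * ∑ x ∈ I, (6 - ({y | G.Adj x y}.ncard : ℤ)) := by
  rcases h.bdry with ⟨h1, h2⟩ | ⟨c, p, _, _, _, _, _, _, _, _, h1, h2⟩
  · rw [eout_eq_zero h1, h2]
    norm_num
  · rw [h2]
    omega

/-- A smaller triangulation obtained by contractions inside the region, and the lifting of
colourings. The set `K` consists of the inner vertices of the configuration. -/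
def HasRed (χ : ℤ) (S : Finset V) (G : SimpleGraph V) (T : V → V → V → Prop) (I : Finset V)
    [DecidableEq V] : Prop :=
  ∃ (ρ : V → V) (K : Finset V), K ⊆ I ∧ S.image ρ ⊆ S ∧ (S.image ρ).card < S.card ∧
    TriOn χ (S.image ρ) (quot G ρ) (quotT T ρ) ∧
    -- vertices which are not near `K` are not changed
    (∀ v, v ∉ K → (∀ k ∈ K, ¬ G.Adj k v) → ∀ u, ρ u = v ↔ u = v) ∧
    -- two outer vertices are not merged
    (∀ u v, u ∉ I → v ∉ I → ρ u = ρ v → u = v) ∧
    -- outer vertices which become adjacent are joined by a short path through the region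
    (∀ u v, u ∉ I → v ∉ I → (quot G ρ).Adj (ρ u) (ρ v) → G.Adj u v ∨
      (∃ k ∈ I, G.Adj u k ∧ G.Adj k v) ∨ ∃ k ∈ I, ∃ l ∈ I, G.Adj u k ∧ G.Adj k l ∧ G.Adj l v) ∧
    -- colourings can be lifted
    ∀ W M : Set V, (∀ w ∈ W, w ∉ K ∧ ∀ k ∈ K, ¬ G.Adj k w) → (∀ m ∈ M, m ∉ I) → ∀ c' : V → Fin 4,
      MDef (quot G ρ) W (ρ '' M) c' → ∃ c : V → Fin 4, MDef G W M c ∧
        ∀ v, v ∉ K → c v = c' (ρ v)

/-- The statement which the configurations and the discharging have to give. -/
def RegionRed (χ : ℤ) : Prop :=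
  ∀ (V : Type) [Fintype V] [DecidableEq V] (S : Finset V) (G : SimpleGraph V)
    (T : V → V → V → Prop) (I : Finset V), TriOn χ S G T → Region S G T I → HasRed χ S G T I

end Pool.Agent.W986
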