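import Pool.Agent.W986.SubLeafB
import Pool.Agent.W986.SubLegPB

/-!
# Leaves with levels for the amounts: the Boolean functions

An entry `(y, b)` of `kb` with `b < 64` bounds what `y` gives by the fraction number `b` of the
table `R`, an entry `(y, 64 + c)` bounds the charge by `- c`; in the same way for `kg`.
-/

set_option autoImplicit false

namespace Pool.Agent.W986.ST.LT

open Pool.Agent.W986.ST Pool.Agent.W986.ST.LB

/-- The largest entry of `y` which is smaller than 64, or 0. -/
def lookT (y : ℕ) (l : List (ℕ × ℕ)) : ℕ :=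
  @List.rec (ℕ × ℕ) (fun _ => ℕ) 0
    (fun p _ ih => @Prod.rec ℕ ℕ (fun _ => ℕ) (fun a b => cf (Nat.beq a y)
      (cf (Nat.blt b 64) (mx b ih) ih) ih) p) l

/-- The entries of `kb` for the charge. -/
def kbP (l : List (ℕ × ℕ)) : List (ℕ × ℕ) :=
  @List.rec (ℕ × ℕ) (fun _ => List (ℕ × ℕ)) []
    (fun p _ ih => @Prod.rec ℕ ℕ (fun _ => List (ℕ × ℕ)) (fun a b =>
      cf (Nat.blt b 64) ih (frc (Nat.sub b 64) fun c => (a, c) :: ih)) p) l

/-- The entries of `kg` for the charge. -/
def kgP (l : List (ℕ × ℕ)) : List (ℕ × ℕ) :=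
  @List.rec (ℕ × ℕ) (fun _ => List (ℕ × ℕ)) []
    (fun p _ ih => @Prod.rec ℕ ℕ (fun _ => List (ℕ × ℕ)) (fun a b =>
      frc (Nat.sub b 64) fun c => (a, c) :: ih) p) l

/-- The patch with the bounds for the charges. -/
def base (P : Patch) : Patch := ⟨P.n, P.lk, P.lb, kbP P.kb, kgP P.kg⟩

/-- The value at the patch with the bounds for the charges, which is evaluated first. -/
def withB {α : Type} (P : Patch) (k : Patch → α) : α :=
  frcB (kbP P.kb) fun kb => frcB (kgP P.kg) fun kg => k ⟨P.n, P.lk, P.lb, kb, kg⟩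

/-- Numerator of the fraction number `c` (from 1). -/
def rN (R : List (ℕ × ℕ)) : ℕ → ℕ :=
  @List.rec (ℕ × ℕ) (fun _ => ℕ → ℕ) (fun _ => 0)
    (fun p _ ih n => @Nat.rec (fun _ => ℕ) 0 (fun m _ =>
      @Nat.rec (fun _ => ℕ) (@Prod.rec ℕ ℕ (fun _ => ℕ) (fun a _ => a) p) (fun k _ =>
        ih (Nat.succ k)) m) n) R

/-- Denominator of the fraction number `c` (from 1). -/
def rD (R : List (ℕ × ℕ)) : ℕ → ℕ :=
  @List.rec (ℕ × ℕ) (fun _ => ℕ → ℕ) (fun _ => 0)
    (fun p _ ih n => @Nat.rec (fun _ => ℕ) 0 (fun m _ =>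
      @Nat.rec (fun _ => ℕ) (@Prod.rec ℕ ℕ (fun _ => ℕ) (fun _ b => b) p) (fun k _ =>
        ih (Nat.succ k)) m) n) R

/-- The fractions decrease, the denominators are positive. -/
def okR (R : List (ℕ × ℕ)) : Bool :=
  @List.rec (ℕ × ℕ) (fun _ => Bool) true
    (fun p l ih => @Prod.rec ℕ ℕ (fun _ => Bool) (fun a b => cf (Nat.blt 0 b)
      (cf (@List.rec (ℕ × ℕ) (fun _ => Bool) true (fun q _ _ =>
        @Prod.rec ℕ ℕ (fun _ => Bool) (fun c d => Nat.ble (Nat.mul c b) (Nat.mul a d)) q) l)
        ih false) false) p) R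

/-- Some entry of `kg` contradicts the other bounds: what `y` gives is at most the fraction. -/
def badT (R : List (ℕ × ℕ)) (ctr : Patch → ℕ → Bool) (P Q : Patch) (l : List (ℕ × ℕ)) : Bool :=
  @List.rec (ℕ × ℕ) (fun _ => Bool) false
    (fun p _ ih => @Prod.rec ℕ ℕ (fun _ => Bool) (fun y b =>
      cf (Nat.blt b 64)
        (frc (pos Q y) fun a => cf (Nat.beq a 0) true
          (cf (Nat.beq b 0) ih
            (cf (Nat.ble b (lookT y P.kb)) true
              (frcH (findL Q.lk y) fun l => cf (nil l) ih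
                (frc (sw Q l) fun s => frc (rN R b) fun c => frc (rD R b) fun d =>
                  cf (cf (Nat.beq s 0) false (cf (Nat.beq d 0) false
                    (Nat.ble (Nat.mul (cf (ctr Q y) (Nat.sub a 1) a) d)
                      (Nat.mul c s)))) true ih))))) ih) p) l

/-- The leaf for patches which do not occur; `Q` is the patch with the bounds for the charges. -/
def leafQ (R : List (ℕ × ℕ)) (ctr : Patch → ℕ → Bool) (P Q : Patch) : Bool :=
  cf (badT R ctr P Q P.kg) true (leafI Q)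

/-- The leaf for patches which do not occur. -/
def leafIT (R : List (ℕ × ℕ)) (ctr : Patch → ℕ → Bool) (P : Patch) : Bool :=
  withB P fun Q => leafQ R ctr P Q

/-- Pass on the smaller one of the bounds `a / s` and the fraction number `k` (0 means that there
is no bound). -/
def bdT (R : List (ℕ × ℕ)) (k a s : ℕ) (K : ℕ → ℕ → Bool) : Bool :=
  cf (Nat.beq k 0) (cf (Nat.beq s 0) false (K a s))
    (frc (rN R k) fun c => frc (rD R k) fun d =>
      cf (Nat.beq d 0) (cf (Nat.beq s 0) false (K a s))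
        (cf (Nat.beq s 0) (K c d) (cf (Nat.ble (Nat.mul a d) (Nat.mul c s)) (K a s) (K c d))))

/-- Check `num / den + (sum over the list) ≤ K / M`; `M` is a lower bound for the weight of the
hub. -/
def sumT (R : List (ℕ × ℕ)) (ctr : Patch → ℕ → Bool) (P Q : Patch) (K M : ℕ) (l : List ℕ) :
    ℕ → ℕ → Bool :=
  @List.rec ℕ (fun _ => ℕ → ℕ → Bool)
    (fun num den => Nat.ble (Nat.mul num M) (Nat.mul K den))
    (fun u _ ih num den =>
      frc (pos Q u) fun a => cf (Nat.beq a 0) (ih num den)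
        (frc (lookT u P.kb) fun k => frcH (findL Q.lk u) fun l =>
          frc (cf (nil l) M (sw Q l)) fun s =>
            frc (cf (nil l) a (cf (ctr Q u) (Nat.sub a 1) a)) fun a =>
              bdT R k a s fun x y =>
                frc (Nat.add (Nat.mul num y) (Nat.mul x den)) fun num =>
                  frc (Nat.mul den y) fun den => ih num den)) l

/-- The leaf for the hub. -/
def leafBT (R : List (ℕ × ℕ)) (ctr : Patch → ℕ → Bool) (ex : Patch → ℕ) (P : Patch) : Bool :=
  withB P fun Q => cf (leafQ R ctr P Q) true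
    (frcH (findL P.lk 0) fun l => cf (nil l) false
      (frc (neg Q 0) fun K => frc (ex Q) fun e =>
        cf (Nat.beq K 0)
          (cf (Nat.ble (lo Q 0) 12)
            (cf (Nat.beq e 0) (cf (Nat.beq (pos Q 0) 0) true
              (Nat.blt 0 (sw Q l))) false) false)
          (cf (Nat.ble e K) (sumT R ctr P Q (Nat.sub K e) (mn K 4) l 0 1) false)))

/-- The fractions `p / W` with `p ≤ 3` and `W ≤ 28`. -/
def RT : List (ℕ × ℕ) :=
  [(3, 1), (2, 1), (3, 2), (1, 1), (3, 4), (2, 3), (3, 5), (1, 2), (3, 7), (2, 5), (3, 8), (1,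
   3), (3, 10), (2, 7), (3, 11), (1, 4), (3, 13), (2, 9), (3, 14), (1, 5), (3, 16), (2, 11),
   (3, 17), (1, 6), (3, 19), (2, 13), (3, 20), (1, 7), (3, 22), (2, 15), (3, 23), (1, 8), (3,
   25), (2, 17), (3, 26), (1, 9), (3, 28), (2, 19), (1, 10), (2, 21), (1, 11), (2, 23), (1,
   12), (2, 25), (1, 13), (2, 27), (1, 14), (1, 15), (1, 16), (1, 17), (1, 18), (1, 19), (1,
   20), (1, 21), (1, 22), (1, 23), (1, 24), (1, 25), (1, 26), (1, 27), (1, 28)]

/-- The leaf for impossible patches, with levels. -/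
def lIT (P : Patch) : Bool := cf (leafIT RT ctrU P) true (LegF.leafI P)

/-- The leaf for the inequality at the hub, with levels. -/
def lFT (P : Patch) : Bool := cf (leafBT RT ctrU exU P) true (LegF.leafI P)

end Pool.Agent.W986.ST.LT
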