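import Pool.Agent.W986.SubLeaf
import Pool.Agent.W986.SubLeafTB

/-!
# Leaves with levels for the amounts

`levEnv E gk R`: the environment in which the charge of a vertex `v` is replaced by
`kap v - 64` if it is not positive, and by minus the number of the leading fractions of the table
`R` which bound what `v` gives, if it is positive.
-/

set_option autoImplicit false

open Finset

namespace Pool.Agent.W986.ST.LT

open Pool.Agent.W986 Pool.Agent.W986.ST Pool.Agent.W986.ST.LB

/-! ### Unfolding -/

theorem lookT_cons (y : ℕ) (p : ℕ × ℕ) (l : List (ℕ × ℕ)) :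
    lookT y (p :: l) = cf (Nat.beq p.1 y) (cf (Nat.blt p.2 64) (mx p.2 (lookT y l)) (lookT y l))
      (lookT y l) := rfl

theorem kbP_cons (p : ℕ × ℕ) (l : List (ℕ × ℕ)) :
    kbP (p :: l) = cf (Nat.blt p.2 64) (kbP l) (frc (Nat.sub p.2 64) fun c => (p.1, c) :: kbP l) :=
  rfl

theorem kgP_cons (p : ℕ × ℕ) (l : List (ℕ × ℕ)) :
    kgP (p :: l) = frc (Nat.sub p.2 64) fun c => (p.1, c) :: kgP l := rfl

theorem rN_one (p : ℕ × ℕ) (l : List (ℕ × ℕ)) : rN (p :: l) 1 = p.1 := rfl

theorem rN_succ (p : ℕ × ℕ) (l : List (ℕ × ℕ)) (n : ℕ) : rN (p :: l) (n + 2) = rN l (n + 1) := rfl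

theorem rD_one (p : ℕ × ℕ) (l : List (ℕ × ℕ)) : rD (p :: l) 1 = p.2 := rfl

theorem rD_succ (p : ℕ × ℕ) (l : List (ℕ × ℕ)) (n : ℕ) : rD (p :: l) (n + 2) = rD l (n + 1) := rfl

theorem withB_eq {α : Type} (P : Patch) (k : Patch → α) : withB P k = k (base P) := by
  rw [withB, frcB_eq, frcB_eq]
  rfl

theorem lookT_mem (y : ℕ) (l : List (ℕ × ℕ)) (h : lookT y l ≠ 0) :
    (y, lookT y l) ∈ l ∧ lookT y l < 64 := by
  induction l with
  | nil => exact absurd rfl h
  | cons p l ih =>
    rw [lookT_cons] at h ⊢
    cases hc : Nat.beq p.1 y with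
    | true =>
      rw [hc, cf_true] at h
      rw [cf_true]
      have h1 := Nat.eq_of_beq_eq_true hc
      cases hb : Nat.blt p.2 64 with
      | true =>
        rw [hb, cf_true] at h
        rw [cf_true]
        rw [mx_eq] at h ⊢
        rcases le_total p.2 (lookT y l) with h2 | h2
        · rw [max_eq_right h2] at h ⊢
          exact ⟨List.mem_cons_of_mem _ (ih h).1, (ih h).2⟩
        · rw [max_eq_left h2, ← h1]
          exact ⟨List.mem_cons_self, Nat.le_of_ble_eq_true hb⟩
      | false =>
        rw [hb, cf_false] at h
        rw [cf_false]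
        exact ⟨List.mem_cons_of_mem _ (ih h).1, (ih h).2⟩
    | false =>
      rw [hc, cf_false] at h
      rw [cf_false]
      exact ⟨List.mem_cons_of_mem _ (ih h).1, (ih h).2⟩

theorem mem_kbP (l : List (ℕ × ℕ)) (q : ℕ × ℕ) (h : q ∈ kbP l) : (q.1, q.2 + 64) ∈ l := by
  induction l with
  | nil => exact absurd h (by simp [kbP])
  | cons p l ih =>
    rw [kbP_cons] at h
    cases hb : Nat.blt p.2 64 with
    | true =>
      rw [hb, cf_true] at h
      exact List.mem_cons_of_mem _ (ih h)
    | false =>
      rw [hb, cf_false, frc_eq] at h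
      have h1 : 64 ≤ p.2 := by
        by_contra h2
        have h3 : Nat.blt p.2 64 = true := Nat.ble_eq_true_of_le (by omega)
        rw [h3] at hb
        exact absurd hb (by decide)
      rcases List.mem_cons.1 h with rfl | h
      · have h2 : (p.1, Nat.sub p.2 64 + 64) = p := by
          change (p.1, p.2 - 64 + 64) = p
          rw [Nat.sub_add_cancel h1]
        change (p.1, Nat.sub p.2 64 + 64) ∈ _
        rw [h2]
        exact List.mem_cons_self
      · exact List.mem_cons_of_mem _ (ih h)

theorem mem_kgP (l : List (ℕ × ℕ)) (q : ℕ × ℕ) (h : q ∈ kgP l) :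
    ∃ b, (q.1, b) ∈ l ∧ q.2 = b - 64 := by
  induction l with
  | nil => exact absurd h (by simp [kgP])
  | cons p l ih =>
    rw [kgP_cons, frc_eq] at h
    rcases List.mem_cons.1 h with rfl | h
    · exact ⟨p.2, List.mem_cons_self, rfl⟩
    · obtain ⟨b, h1, h2⟩ := ih h
      exact ⟨b, List.mem_cons_of_mem _ h1, h2⟩

/-! ### The environment -/

/-- The number of the leading fractions which are at least `t`. -/
def cnt (t : ℚ) : List (ℕ × ℕ) → ℕ
  | [] => 0
  | p :: l => if t ≤ (p.1 : ℚ) / p.2 then cnt t l + 1 else 0

theorem cnt_le (t : ℚ) (R : List (ℕ × ℕ)) (b : ℕ) (h0 : b ≠ 0) (h : b ≤ cnt t R) :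
    t ≤ (rN R b : ℚ) / rD R b := by
  induction R generalizing b with
  | nil =>
    simp only [cnt] at h
    omega
  | cons p l ih =>
    rw [cnt] at h
    split_ifs at h with h1
    · obtain ⟨c, rfl⟩ : ∃ c, b = c + 1 := ⟨b - 1, by omega⟩
      cases c with
      | zero => exact h1
      | succ c =>
        rw [show c + 1 + 1 = c + 2 by omega, rN_succ, rD_succ]
        exact ih (c + 1) (by omega) (by omega)
    · omega

theorem okR_cons (p : ℕ × ℕ) (l : List (ℕ × ℕ)) (h : okR (p :: l) = true) :
    0 < p.2 ∧ okR l = true ∧ ∀ q l', l = q :: l' → q.1 * p.2 ≤ p.1 * q.2 := by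
  have h0 : okR (p :: l) = cf (Nat.blt 0 p.2)
      (cf (@List.rec (ℕ × ℕ) (fun _ => Bool) true (fun q _ _ =>
        @Prod.rec ℕ ℕ (fun _ => Bool) (fun c d => Nat.ble (Nat.mul c p.2) (Nat.mul p.1 d)) q) l)
        (okR l) false) false := rfl
  rw [h0] at h
  cases h1 : Nat.blt 0 p.2 with
  | false =>
    rw [h1, cf_false] at h
    exact absurd h Bool.false_ne_true
  | true =>
    rw [h1, cf_true] at h
    refine ⟨Nat.le_of_ble_eq_true h1, ?_⟩
    cases l with
    | nil => exact ⟨rfl, fun q l' h2 => by simp at h2⟩
    | cons q l =>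
      have h2 : cf (Nat.ble (Nat.mul q.1 p.2) (Nat.mul p.1 q.2)) (okR (q :: l)) false = true := h
      cases h3 : Nat.ble (Nat.mul q.1 p.2) (Nat.mul p.1 q.2) with
      | false =>
        rw [h3, cf_false] at h2
        exact absurd h2 Bool.false_ne_true
      | true =>
        rw [h3, cf_true] at h2
        refine ⟨h2, fun q' l' h4 => ?_⟩
        have h5 := (List.cons.inj h4).1
        rw [← h5]
        exact Nat.le_of_ble_eq_true h3

theorem rat_le (p : ℕ × ℕ) (l : List (ℕ × ℕ)) (h : okR (p :: l) = true) (b : ℕ)
    (hD : rD (p :: l) b ≠ 0) :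
    (rN (p :: l) b : ℚ) / rD (p :: l) b ≤ (p.1 : ℚ) / p.2 := by
  induction l generalizing p b with
  | nil =>
    cases b with
    | zero => exact absurd rfl hD
    | succ b =>
      cases b with
      | zero => exact le_refl _
      | succ b => exact absurd rfl hD
  | cons q l ih =>
    cases b with
    | zero => exact absurd rfl hD
    | succ b =>
      cases b with
      | zero => exact le_refl _
      | succ b =>
        rw [show b + 1 + 1 = b + 2 by omega, rN_succ, rD_succ]
        rw [show b + 1 + 1 = b + 2 by omega, rD_succ] at hD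
        obtain ⟨h1, h2, h3⟩ := okR_cons _ _ h
        have h4 := ih q h2 (b + 1) hD
        obtain ⟨h5, _, _⟩ := okR_cons _ _ h2
        have h6 := h3 q l rfl
        refine h4.trans ?_
        rw [div_le_div_iff₀ (by exact_mod_cast h5) (by exact_mod_cast h1)]
        exact_mod_cast h6

theorem cnt_lt (t : ℚ) (R : List (ℕ × ℕ)) (hR : okR R = true) (b : ℕ) (h : cnt t R < b)
    (hD : rD R b ≠ 0) : (rN R b : ℚ) / rD R b < t := by
  induction R generalizing b with
  | nil => exact absurd rfl hD
  | cons p l ih =>
    rw [cnt] at h
    split_ifs at h with h1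
    · obtain ⟨c, rfl⟩ : ∃ c, b = c + 2 := ⟨b - 2, by omega⟩
      rw [rN_succ, rD_succ]
      rw [rD_succ] at hD
      exact ih (okR_cons _ _ hR).2.1 (c + 1) (by omega) hD
    · exact (rat_le p l hR b hD).trans_lt (not_le.1 h1)

theorem cnt_length (t : ℚ) (R : List (ℕ × ℕ)) : cnt t R ≤ R.length := by
  induction R with
  | nil => exact le_rfl
  | cons p l ih =>
    rw [cnt, List.length_cons]
    split_ifs <;> omega

variable {V : Type} [Fintype V]

/-- The environment with levels: the amounts of the vertices with positive charge are compared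
with the fractions of `R`. -/
noncomputable def levEnv (E : Env V) (gk : V → ℤ) (R : List (ℕ × ℕ)) : Env V :=
  { E with kap := fun v => if E.kap v ≤ 0 then E.kap v - 64 else -(cnt (term E gk v) R : ℤ) }

variable {E : Env V} {gk : V → ℤ} {R : List (ℕ × ℕ)} {P : Patch} {f : ℕ → V}

theorem lev_kap (v : V) : (levEnv E gk R).kap v =
    if E.kap v ≤ 0 then E.kap v - 64 else -(cnt (term E gk v) R : ℤ) := rfl

/-- The patch with the bounds for the charges, in the old environment. -/
theorem sat_base (hR : R.length < 64) (h : (levEnv E gk R).Sat P f) : E.Sat (base P) f := by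
  refine ⟨⟨fun p hp => ?_, fun p hp => ?_⟩, fun q hq => ?_, fun q hq => ?_⟩
  · exact ⟨(h.real.1 p hp).1, (h.real.1 p hp).2⟩
  · exact h.real.2 p hp
  · have h1 := h.kb _ (mem_kbP _ _ hq)
    rw [lev_kap] at h1
    dsimp only at h1
    have h2 := cnt_length (term E gk (f q.1)) R
    split_ifs at h1 <;> omega
  · obtain ⟨b, h1, h2⟩ := mem_kgP _ _ hq
    have h3 := h.kg _ h1
    rw [lev_kap] at h3
    dsimp only at h3
    have h4 := cnt_length (term E gk (f q.1)) R
    split_ifs at h3 <;> omega

/-- What the vertex gives is at most the fraction. -/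
theorem term_lookT (h : (levEnv E gk R).Sat P f) {y : ℕ}
    (hy : lookT y P.kb ≠ 0) (hp : 0 < E.kap (f y)) :
    term E gk (f y) ≤ (rN R (lookT y P.kb) : ℚ) / rD R (lookT y P.kb) := by
  have h1 := lookT_mem y P.kb hy
  have h2 := h.kb _ h1.1
  rw [lev_kap, if_neg (not_le.2 hp)] at h2
  dsimp only at h2
  exact cnt_le _ _ _ hy (by omega)

theorem exists_lnth (l : List ℕ) (u : ℕ) (h : u ∈ l) : ∃ i, i < l.length ∧ lnth l i = u := by
  induction l with
  | nil => exact absurd h (by simp)
  | cons x l ih =>
    rcases List.mem_cons.1 h with rfl | h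
    · exact ⟨0, by simp, rfl⟩
    · obtain ⟨i, hi, h1⟩ := ih h
      exact ⟨i + 1, by simpa using hi, h1⟩

theorem badT_cons (ctr : Patch → ℕ → Bool) (P Q : Patch) (p : ℕ × ℕ) (l : List (ℕ × ℕ)) :
    badT R ctr P Q (p :: l) = cf (Nat.blt p.2 64)
        (frc (pos Q p.1) fun a => cf (Nat.beq a 0) true
          (cf (Nat.beq p.2 0) (badT R ctr P Q l)
            (cf (Nat.ble p.2 (lookT p.1 P.kb)) true
              (frcH (findL Q.lk p.1) fun l' => cf (nil l') (badT R ctr P Q l)
                (frc (sw Q l') fun s => frc (rN R p.2) fun c => frc (rD R p.2) fun d =>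
                  cf (cf (Nat.beq s 0) false (cf (Nat.beq d 0) false
                    (Nat.ble (Nat.mul (cf (ctr Q p.1) (Nat.sub a 1) a) d) (Nat.mul c s)))) true
                    (badT R ctr P Q l)))))) (badT R ctr P Q l) := rfl

theorem beq_ne {a : ℕ} (h : Nat.beq a 0 = false) : a ≠ 0 := by
  intro h1
  rw [h1] at h
  exact absurd h (by decide)

/-- The bound for what a vertex with a known link gives. -/
theorem term_link {ctr : Patch → ℕ → Bool} (hK : KapOK E) {Q : Patch} (h : E.Sat Q f)
    (hgk : ∀ u, gk u ≤ E.kap u)
    (hctr : ∀ u, ctr Q u = true → gk (f u) ≤ E.kap (f u) - 1) (u : ℕ)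
    (_ : pos Q u ≠ 0) (hs : sw Q (findL Q.lk u) ≠ 0) :
    term E gk (f u) ≤ ((cf (ctr Q u) (Nat.sub (pos Q u) 1) (pos Q u) : ℕ) : ℚ) /
      (sw Q (findL Q.lk u) : ℕ) := by
  obtain ⟨b, hb⟩ : ∃ b, sw Q (findL Q.lk u) = b + 1 := ⟨sw Q (findL Q.lk u) - 1, by omega⟩
  rw [hb]
  refine term_le hK h u _ b ?_ hb
  intro _ _
  have h0 := pos_le hK h u
  cases hc : ctr Q u with
  | true =>
    have h1 := hctr u hc
    change _ ≤ ((pos Q u - 1 : ℕ) : ℤ)
    omega
  | false =>
    have h1 := hgk (f u)
    change _ ≤ ((pos Q u : ℕ) : ℤ)
    omega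

theorem badT_false {ctr : Patch → ℕ → Bool} (hK : KapOK E) (hR : R.length < 64)
    (hR' : okR R = true) (h : (levEnv E gk R).Sat P f) (hgk : ∀ u, gk u ≤ E.kap u)
    (hctr : ∀ u, ctr (base P) u = true → gk (f u) ≤ E.kap (f u) - 1) (l : List (ℕ × ℕ))
    (hsub : ∀ p ∈ l, p ∈ P.kg) (hl : badT R ctr P (base P) l = true) : False := by
  have hb := sat_base hR h
  induction l with
  | nil => exact absurd hl Bool.false_ne_true
  | cons p l ih =>
    rw [badT_cons] at hl
    have ih' := ih fun q hq => hsub q (List.mem_cons_of_mem _ hq)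
    have h1 := h.kg p (hsub p List.mem_cons_self)
    rw [lev_kap] at h1
    cases c1 : Nat.blt p.2 64 with
    | false =>
      rw [c1, cf_false] at hl
      exact ih' hl
    | true =>
      have c1' : p.2 < 64 := Nat.le_of_ble_eq_true c1
      rw [c1, cf_true, frc_eq] at hl
      have h2 : ¬ E.kap (f p.1) ≤ 0 := by
        intro h3
        rw [if_pos h3] at h1
        omega
      rw [if_neg h2] at h1
      have h0 := pos_le hK hb p.1
      cases c2 : Nat.beq (pos (base P) p.1) 0 with
      | true =>
        rw [Nat.eq_of_beq_eq_true c2] at h0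
        push_cast at h0
        omega
      | false =>
        rw [c2, cf_false] at hl
        cases c3 : Nat.beq p.2 0 with
        | true =>
          rw [c3, cf_true] at hl
          exact ih' hl
        | false =>
          rw [c3, cf_false] at hl
          have h3 : cnt (term E gk (f p.1)) R < p.2 := by omega
          cases c4 : Nat.ble p.2 (lookT p.1 P.kb) with
          | true =>
            have h4 := Nat.le_of_ble_eq_true c4
            have h5 := beq_ne c3
            have h6 := lookT_mem p.1 P.kb (by omega)
            have h7 := h.kb _ h6.1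
            rw [lev_kap, if_neg h2] at h7
            dsimp only at h7
            omega
          | false =>
            rw [c4, cf_false, frcH_eq] at hl
            cases c5 : nil (findL (base P).lk p.1) with
            | true =>
              rw [c5, cf_true] at hl
              exact ih' hl
            | false =>
              rw [c5, cf_false, frc_eq, frc_eq, frc_eq] at hl
              cases c6 : Nat.beq (sw (base P) (findL (base P).lk p.1)) 0 with
              | true =>
                rw [c6, cf_true, cf_false] at hl
                exact ih' hl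
              | false =>
                rw [c6, cf_false] at hl
                cases c8 : Nat.beq (rD R p.2) 0 with
                | true =>
                  rw [c8, cf_true, cf_false] at hl
                  exact ih' hl
                | false =>
                  rw [c8, cf_false] at hl
                  cases c7 : Nat.ble (Nat.mul (cf (ctr (base P) p.1)
                      (Nat.sub (pos (base P) p.1) 1) (pos (base P) p.1)) (rD R p.2))
                      (Nat.mul (rN R p.2) (sw (base P) (findL (base P).lk p.1))) with
                  | false =>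
                    rw [c7, cf_false] at hl
                    exact ih' hl
                  | true =>
                    have h4 : (cf (ctr (base P) p.1) (Nat.sub (pos (base P) p.1) 1)
                        (pos (base P) p.1)) * rD R p.2 ≤
                        rN R p.2 * sw (base P) (findL (base P).lk p.1) :=
                      Nat.le_of_ble_eq_true c7
                    have h5 := term_link hK hb hgk hctr p.1 (beq_ne c2) (beq_ne c6)
                    have h8 : (0 : ℚ) < (sw (base P) (findL (base P).lk p.1) : ℕ) := by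
                      have := beq_ne c6
                      exact_mod_cast Nat.pos_of_ne_zero this
                    have h9 := beq_ne c8
                    have h6 := cnt_lt _ R hR' p.2 h3 h9
                    have h7 := h6.trans_le h5
                    rw [div_lt_div_iff₀ (by exact_mod_cast Nat.pos_of_ne_zero h9) h8] at h7
                    have h10 : rN R p.2 * sw (base P) (findL (base P).lk p.1) <
                        (cf (ctr (base P) p.1) (Nat.sub (pos (base P) p.1) 1)
                          (pos (base P) p.1)) * rD R p.2 := by exact_mod_cast h7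
                    omega

theorem leafQ_false {ctr : Patch → ℕ → Bool} (hK : KapOK E) (hR : R.length < 64)
    (hR' : okR R = true) (h : (levEnv E gk R).Sat P f) (hgk : ∀ u, gk u ≤ E.kap u)
    (hctr : ∀ u, ctr (base P) u = true → gk (f u) ≤ E.kap (f u) - 1)
    (hl : leafQ R ctr P (base P) = true) : False := by
  rw [leafQ] at hl
  cases hc : badT R ctr P (base P) P.kg with
  | true => exact badT_false hK hR hR' h hgk hctr P.kg (fun _ h => h) hc
  | false =>
    rw [hc, cf_false] at hl
    exact leafI_sound hK hl (sat_base hR h)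

theorem leafIT_sound {ctr : Patch → ℕ → Bool} (hK : KapOK E) (hR : R.length < 64)
    (hR' : okR R = true) (hgk : ∀ u, gk u ≤ E.kap u)
    (hctr : ∀ Q f, E.Sat Q f → ∀ u, ctr Q u = true → gk (f u) ≤ E.kap (f u) - 1)
    (hl : leafIT R ctr P = true) : ¬ (levEnv E gk R).Sat P f := by
  intro h
  rw [leafIT, withB_eq] at hl
  exact leafQ_false hK hR hR' h hgk (hctr _ _ (sat_base hR h)) hl

theorem sumT_cons (ctr : Patch → ℕ → Bool) (P Q : Patch) (K M u : ℕ) (l : List ℕ)
    (num den : ℕ) :
    sumT R ctr P Q K M (u :: l) num den =
      frc (pos Q u) fun a => cf (Nat.beq a 0) (sumT R ctr P Q K M l num den)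
        (frc (lookT u P.kb) fun k => frcH (findL Q.lk u) fun l' =>
          frc (cf (nil l') M (sw Q l')) fun s =>
            frc (cf (nil l') a (cf (ctr Q u) (Nat.sub a 1) a)) fun a =>
              bdT R k a s fun x y =>
                frc (Nat.add (Nat.mul num y) (Nat.mul x den)) fun num =>
                  frc (Nat.mul den y) fun den => sumT R ctr P Q K M l num den) := rfl

/-- The smaller bound. -/
theorem bdT_spec {k a s : ℕ} {K : ℕ → ℕ → Bool} {t : ℚ} (hs : s ≠ 0 → t ≤ (a : ℚ) / s)
    (hk : k ≠ 0 → t ≤ (rN R k : ℚ) / rD R k) (h : bdT R k a s K = true) :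
    ∃ x y : ℕ, 0 < y ∧ t ≤ (x : ℚ) / y ∧ K x y = true := by
  have h1 : cf (Nat.beq s 0) false (K a s) = true →
      ∃ x y : ℕ, 0 < y ∧ t ≤ (x : ℚ) / y ∧ K x y = true := by
    intro h
    cases c1 : Nat.beq s 0 with
    | true =>
      rw [c1] at h
      exact absurd h Bool.false_ne_true
    | false =>
      rw [c1] at h
      exact ⟨a, s, Nat.pos_of_ne_zero (beq_ne c1), hs (beq_ne c1), h⟩
  rw [bdT] at h
  cases c2 : Nat.beq k 0 with
  | true =>
    rw [c2] at h
    exact h1 h
  | false =>
    rw [c2, cf_false, frc_eq, frc_eq] at h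
    cases c3 : Nat.beq (rD R k) 0 with
    | true =>
      rw [c3] at h
      exact h1 h
    | false =>
      rw [c3, cf_false] at h
      have h2 : K (rN R k) (rD R k) = true →
          ∃ x y : ℕ, 0 < y ∧ t ≤ (x : ℚ) / y ∧ K x y = true := fun h =>
        ⟨_, _, Nat.pos_of_ne_zero (beq_ne c3), hk (beq_ne c2), h⟩
      cases c1 : Nat.beq s 0 with
      | true =>
        rw [c1] at h
        exact h2 h
      | false =>
        rw [c1, cf_false] at h
        cases c4 : Nat.ble (Nat.mul a (rD R k)) (Nat.mul (rN R k) s) with
        | true =>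
          rw [c4] at h
          exact ⟨a, s, Nat.pos_of_ne_zero (beq_ne c1), hs (beq_ne c1), h⟩
        | false =>
          rw [c4] at h
          exact h2 h

theorem sumT_le {ctr : Patch → ℕ → Bool} (hK : KapOK E) (hR : R.length < 64)
    (h : (levEnv E gk R).Sat P f) (hgk : ∀ u, gk u ≤ E.kap u)
    (hctr : ∀ u, ctr (base P) u = true → gk (f u) ≤ E.kap (f u) - 1) {K M : ℕ} (hM : 0 < M)
    {x : V} (hx : M ≤ wt (E.kap x)) (l : List ℕ) (hl : ∀ u ∈ l, E.H.Adj (f u) x)
    (num den : ℕ) (hden : 0 < den) (hs : sumT R ctr P (base P) K M l num den = true) :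
    (num : ℚ) / den + (l.map fun u => term E gk (f u)).sum ≤ (K : ℚ) / M := by
  have hb := sat_base hR h
  induction l generalizing num den with
  | nil =>
    rw [List.map_nil, List.sum_nil, add_zero]
    have h1 : Nat.ble (Nat.mul num M) (Nat.mul K den) = true := hs
    have h2 : num * M ≤ K * den := Nat.le_of_ble_eq_true h1
    rw [div_le_div_iff₀ (by positivity) (by positivity)]
    exact_mod_cast h2
  | cons u l ih =>
    have ih' := ih fun v hv => hl v (List.mem_cons_of_mem _ hv)
    have key : ∀ a s : ℕ, 0 < s → term E gk (f u) ≤ (a : ℚ) / s →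
        sumT R ctr P (base P) K M l (num * s + a * den) (den * s) = true →
        (num : ℚ) / den + ((u :: l).map fun u => term E gk (f u)).sum ≤ (K : ℚ) / M := by
      intro a s h1 h2 h3
      have h4 := ih' _ _ (by positivity) h3
      rw [List.map_cons, List.sum_cons]
      have h5 : ((num * s + a * den : ℕ) : ℚ) / ((den * s : ℕ) : ℚ) =
          (num : ℚ) / den + (a : ℚ) / s := by
        have h6 : (den : ℚ) ≠ 0 := by positivity
        have h7 : (s : ℚ) ≠ 0 := by positivity
        push_cast
        field_simp
      rw [h5] at h4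
      linarith
    rw [sumT_cons, frc_eq] at hs
    have h0 := pos_le hK hb u
    cases c1 : Nat.beq (pos (base P) u) 0 with
    | true =>
      rw [c1, cf_true] at hs
      have h2 : term E gk (f u) = 0 := by
        rw [term, if_neg]
        rintro ⟨_, h3, _⟩
        rw [Nat.eq_of_beq_eq_true c1] at h0
        push_cast at h0
        omega
      rw [List.map_cons, List.sum_cons, h2, zero_add]
      exact ih' num den hden hs
    | false =>
      rw [c1, cf_false, frc_eq, frcH_eq, frc_eq, frc_eq] at hs
      have hk : lookT u P.kb ≠ 0 → term E gk (f u) ≤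
          (rN R (lookT u P.kb) : ℚ) / rD R (lookT u P.kb) := by
        intro h2
        by_cases h3 : 0 < E.kap (f u)
        · exact term_lookT h h2 h3
        · rw [term, if_neg (fun h4 => h3 h4.2.1)]
          positivity
      cases c4 : nil (findL (base P).lk u) with
      | false =>
        rw [c4, cf_false, cf_false] at hs
        obtain ⟨x, y, h1, h2, h3⟩ := bdT_spec
          (fun h => term_link hK hb hgk hctr u (beq_ne c1) h) hk hs
        rw [frc_eq, frc_eq] at h3
        exact key _ _ h1 h2 h3
      | true =>
        rw [c4, cf_true, cf_true] at hs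
        have hm : term E gk (f u) ≤ (pos (base P) u : ℚ) / M := by
          rw [term]
          split_ifs with h4
          · have h5 : ((gk (f u) : ℤ) : ℚ) ≤ (pos (base P) u : ℕ) := by
              exact_mod_cast (hgk (f u)).trans h0
            have h6 : (M : ℚ) ≤ (Wsum E.H (fun y => wt (E.kap y)) (f u) : ℕ) := by
              have h7 : wt (E.kap x) ≤ Wsum E.H (fun y => wt (E.kap y)) (f u) := by
                classical
                rw [Wsum]
                refine Finset.single_le_sum (f := fun y => wt (E.kap y))
                  (fun _ _ => Nat.zero_le _) ?_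
                rw [Finset.mem_filter]
                exact ⟨Finset.mem_univ _, hl u List.mem_cons_self⟩
              exact_mod_cast hx.trans h7
            exact div_le_div₀ (by positivity) h5 (by exact_mod_cast hM) h6
          · positivity
        obtain ⟨x, y, h1, h2, h3⟩ := bdT_spec (fun _ => hm) hk hs
        rw [frc_eq, frc_eq] at h3
        exact key _ _ h1 h2 h3

open Classical in
theorem leafBT_sound {ctr : Patch → ℕ → Bool} {ex : Patch → ℕ} {ext : V → ℕ} (hK : KapOK E)
    (hR : R.length < 64) (hR' : okR R = true) (h : (levEnv E gk R).Sat P f)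
    (hgk : ∀ u, gk u ≤ E.kap u)
    (hctr : ∀ u, ctr (base P) u = true → gk (f u) ≤ E.kap (f u) - 1)
    (hex : nil (findL (base P).lk 0) = false → ext (f 0) ≤ ex (base P))
    (hl : leafBT R ctr ex P = true) : FinB E gk ext (f 0) := by
  have hb := sat_base hR h
  rw [leafBT, withB_eq] at hl
  cases hc : leafQ R ctr P (base P) with
  | true => exact (leafQ_false hK hR hR' h hgk hctr hc).elim
  | false =>
    rw [hc, cf_false, frcH_eq] at hl
    cases hn : nil (findL P.lk 0) with
    | true =>
      rw [hn, cf_true] at hl
      exact absurd hl Bool.false_ne_true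
    | false =>
      have hex' := hex hn
      rw [hn, cf_false, frc_eq, frc_eq] at hl
      cases hK0 : Nat.beq (neg (base P) 0) 0 with
      | true =>
        rw [hK0, cf_true] at hl
        cases h1 : Nat.ble (lo (base P) 0) 12 with
        | false =>
          rw [h1, cf_false] at hl
          exact absurd hl Bool.false_ne_true
        | true =>
          rw [h1, cf_true] at hl
          have h2 := Nat.le_of_ble_eq_true h1
          have h3 := lo_le hK hb 0 (by omega)
          cases h4 : Nat.beq (ex (base P)) 0 with
          | false =>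
            rw [h4, cf_false] at hl
            exact absurd hl Bool.false_ne_true
          | true =>
            rw [h4, cf_true] at hl
            have h5 := Nat.eq_of_beq_eq_true h4
            refine ⟨fun h6 => by omega, fun _ => by omega, fun h6 => ?_⟩
            cases h7 : Nat.beq (pos (base P) 0) 0 with
            | true =>
              have h8 := Nat.eq_of_beq_eq_true h7
              have h9 := pos_le hK hb 0
              omega
            | false =>
              rw [h7, cf_false] at hl
              have h8 : 0 < sw (base P) (findL (base P).lk 0) := Nat.le_of_ble_eq_true hl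
              exact h8.trans_le (sw_le hK hb 0)
      | false =>
        rw [hK0, cf_false] at hl
        have h0 := beq_ne hK0
        have h1 := neg_le hK hb 0 h0
        cases h2 : Nat.ble (ex (base P)) (neg (base P) 0) with
        | false =>
          rw [h2, cf_false] at hl
          exact absurd hl Bool.false_ne_true
        | true =>
          rw [h2, cf_true] at hl
          have h3 := Nat.le_of_ble_eq_true h2
          refine ⟨fun _ => ?_, fun h6 => by omega, fun h6 => by omega⟩
          have hM : 0 < mn (neg (base P) 0) 4 := by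
            rw [mn_eq]
            omega
          have hw : mn (neg (base P) 0) 4 ≤ wt (E.kap (f 0)) := wt_le hK hb 0
          have h5 := link hb (y := 0) hn
          have h4 := sumT_le hK hR h hgk hctr hM hw (findL (base P).lk 0) (fun u hu => by
            have h6 := h5.2.adj (f u)
            refine (h6.2 ?_).symm
            obtain ⟨i, hi, hiu⟩ := exists_lnth _ _ hu
            exact ⟨i, hi, by rw [Nat.mod_eq_of_lt hi, hiu]⟩) _ _ Nat.one_pos hl
          rw [← sum_link h5 (fun u => term E gk u)] at h4
          rw [mn_eq] at h4 hM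
          exact arith (by omega) hM h3 hex' h1 (by simpa using h4)

end Pool.Agent.W986.ST.LT
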