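import Pool.Agent.W986.SubAlt
import Pool.Agent.W986.SubLegEnv

/-!
# The tests for contradictory patches are correct
-/

set_option autoImplicit false

open Finset

namespace Pool.Agent.W986

open Pool.Agent.DC76 ST ST.LB

/-- **The test for contradictions is correct.** -/
theorem LegF.ctrOK : ST.CtrOK LegF.ctr :=
  fun _ _ _ _ _ _ _ _ hT R _ _ _ hP hf hne => (LegF.Hyp.of_sat hT R 6 hf hne).contra hP

/-- **The test for impossible patches is correct.** -/
theorem LegF.leafOK : ST.LeafOK LegF.leafI :=
  fun _ _ _ _ _ _ _ _ hT R _ _ hP => LegF.leafI_sound hT R 6 hP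

/-- The numerical leaves together with the contradictions. -/
theorem leavesOK_leg : LeavesOK (fun P => cf false true (LegF.leafI P))
    (fun P => cf (ST.LB.leafI P) true (LegF.leafI P))
    (fun P => cf (leafB ctrU exU P) true (LegF.leafI P)) :=
  leavesOK_std.or LegF.leafOK

end Pool.Agent.W986
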