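import Pool.Agent.W986.SubDef
import Pool.Agent.W986.SubOcc
import Pool.Agent.W986.SubIface
import Pool.Agent.W986.SubMask

/-!
# Legality: which labels are different, which are not adjacent

The inner vertices `f 0, .., f (a - 1)` of a configuration and the cyclic lists of their
neighbours are given. From these lists and the rules for 3-cycles and 4-cycles through inner
vertices two tables are computed: pairs of labels which belong to different vertices, and pairs of
labels which belong to vertices which are not adjacent. A table is one number, the bit `32 x + y`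
belongs to the pair `x, y`.
-/

set_option autoImplicit false

open Finset

namespace Pool.Agent.W986

open Leg

/-! ### The tables are correct -/

/-- The labels belong to vertices of a graph with triangles, and the inner ones to vertices of the
region. -/
structure SLeg.Env {V : Type} (D : SLeg) (G : SimpleGraph V) (T : V → V → V → Prop) (I : Finset V)
    (f : ℕ → V) : Prop where
  occ : Occ G T D.links D.a f
  rel : TriRel G T
  mem : ∀ i < D.a, f i ∈ I
  three : ∀ a ∈ I, ∀ b c, G.Adj a b → G.Adj b c → G.Adj c a → T a b c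
  four : ∀ a ∈ I, ∀ b c d, a ≠ c → b ≠ d → G.Adj a b → G.Adj b c → G.Adj c d → G.Adj d a →
    G.Adj a c ∨ G.Adj b d ∨ ∃ m ∈ I, ∀ x, G.Adj m x ↔ x = a ∨ x = b ∨ x = c ∨ x = d
  ctx : ∀ z ∈ D.ctx, f z ∉ I ∨ {y | G.Adj (f z) y}.ncard ≠ 4

/-- The tables are correct. -/
structure SLeg.Snd {V : Type} (D : SLeg) (G : SimpleGraph V) (f : ℕ → V) (E A : ℕ) : Prop where
  ne : ∀ x y, x < 32 → y < 32 → sb E (ix x y) = true → f x ≠ f y
  na : ∀ x y, x < 32 → y < 32 → sb A (ix x y) = true → ¬ G.Adj (f x) (f y)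

namespace SLeg

variable {V : Type} {D : SLeg} {G : SimpleGraph V} {T : V → V → V → Prop} {I : Finset V}
  {f : ℕ → V}

theorem Env.adj_iff (h : D.Env G T I f) {i : ℕ} (hi : i < D.a) {v : V} :
    G.Adj (f i) v ↔ ∃ x ∈ lk D.links i, f x = v := by
  have h1 := h.occ i hi
  rw [h1.adj]
  constructor
  · rintro ⟨t, ht, hv⟩
    exact ⟨_, mem_lab t (by omega), hv⟩
  · rintro ⟨x, hx, hv⟩
    obtain ⟨t, ht, h2⟩ := lab_mem hx
    exact ⟨t, ht, by rw [h2, hv]⟩

theorem Env.inj (h : D.Env G T I f) {i : ℕ} (hi : i < D.a) {x y : ℕ} (hx : x ∈ lk D.links i)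
    (hy : y ∈ lk D.links i) (hxy : f x = f y) : x = y := by
  obtain ⟨t, ht, h2⟩ := lab_mem hx
  obtain ⟨s, hs, h3⟩ := lab_mem hy
  have h1 := (h.occ i hi).inj t ht s hs (by rw [h2, h3, hxy])
  rw [← h2, ← h3, h1]

theorem Env.tri (h : D.Env G T I f) {i : ℕ} (hi : i < D.a) {x y : ℕ} (hx : x ∈ lk D.links i)
    (hT : T (f i) (f x) (f y)) (hy : y ∈ lk D.links i) :
    memS x y (cyc (lk D.links i)) = true := by
  obtain ⟨t, ht, h2⟩ := lab_mem hx
  have h1 := h.occ i hi
  have hd := h1.three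
  set l := lk D.links i with hl
  have h3 := h1.tri (t + l.length - 1) (f y)
  beta_reduce at h3
  rw [show t + l.length - 1 + 1 = t + l.length by omega, lab_per, h2,
    show t + l.length - 1 + 2 = t + 1 + l.length by omega, lab_per] at h3
  have hmem : ∀ p ∈ cyc l, (p.1 = x ∧ p.2 = y) ∨ (p.2 = x ∧ p.1 = y) →
      memS x y (cyc l) = true := by
    intro p hp hp'
    unfold memS
    rw [List.any_eq_true]
    refine ⟨p, hp, ?_⟩
    cases hb : Nat.beq p.1 x with
    | true =>
      rw [cond_true, beq_iff]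
      rw [beq_iff] at hb
      rcases hp' with h4 | h4
      · exact h4.2
      · rw [h4.1, ← hb, h4.2]
    | false =>
      rw [cond_false]
      have h4 : p.2 = x ∧ p.1 = y := by
        rcases hp' with h4 | h4
        · rw [h4.1, Nat.beq_refl] at hb
          exact absurd hb (by decide)
        · exact h4
      rw [h4.1, h4.2, Nat.beq_refl, cond_true, Nat.beq_refl]
  rcases h3.1 hT with h4 | h4
  · have h5 := h.inj hi hy (mem_lab (l := l) (t + l.length - 1) (by omega)) h4
    refine hmem (lab l (t + l.length - 1), lab l (t + l.length - 1 + 1)) ?_ ?_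
    · unfold cyc
      rw [List.mem_map]
      refine ⟨(t + l.length - 1) % l.length, List.mem_range.2 (Nat.mod_lt _ (by omega)), ?_⟩
      rw [Prod.mk.injEq]
      exact ⟨lab_congr _ (Nat.mod_mod _ _), lab_congr _ (by
        rw [Nat.add_mod, Nat.mod_mod, ← Nat.add_mod])⟩
    · right
      refine ⟨?_, h5.symm⟩
      change lab l (t + l.length - 1 + 1) = x
      rw [show t + l.length - 1 + 1 = t + l.length by omega, lab_per, h2]
  · have h5 := h.inj hi hy (mem_lab (l := l) (t + 1) (by omega)) h4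
    refine hmem (lab l t, lab l (t + 1)) ?_ ?_
    · unfold cyc
      rw [List.mem_map]
      exact ⟨t, List.mem_range.2 ht, rfl⟩
    · left
      exact ⟨h2, h5.symm⟩

theorem ncard_four {m p q r s : V} (hN : ∀ x, G.Adj m x ↔ x = p ∨ x = q ∨ x = r ∨ x = s)
    (h1 : p ≠ q) (h2 : p ≠ r) (h3 : p ≠ s) (h4 : q ≠ r) (h5 : q ≠ s) (h6 : r ≠ s) :
    {y | G.Adj m y}.ncard = 4 := by
  classical
  have h7 : {y | G.Adj m y} = ((({p, q, r, s} : Finset V)) : Set V) := by
    ext x
    rw [Set.mem_ofPred_eq, hN]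
    simp
  rw [h7, Set.ncard_coe_finset]
  rw [card_insert_of_notMem, card_insert_of_notMem, card_insert_of_notMem, card_singleton]
  · simpa using h6
  · simp [h4, h5]
  · simp [h1, h2, h3]

theorem ix_inj {x y x' y' : ℕ} (hy : y < 32) (hy' : y' < 32) (h : ix x y = ix x' y') :
    x = x' ∧ y = y' := by
  unfold ix at h
  omega

/-- The labels of the lists are small. -/
structure Wf (D : SLeg) : Prop where
  n : D.n ≤ 32
  a : D.a ≤ D.n
  lt : ∀ i < D.a, ∀ x ∈ lk D.links i, x < D.n

theorem wf_of (h : D.wf = true) : D.Wf := by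
  unfold wf at h
  rw [Bool.and_eq_true, Bool.and_eq_true] at h
  obtain ⟨⟨h1, h2⟩, h3⟩ := h
  refine ⟨Nat.le_of_ble_eq_true h1, Nat.le_of_ble_eq_true h2, fun i hi x hx => ?_⟩
  have h4 := List.all_eq_true.1 h3 i (List.mem_range.2 hi)
  have h5 := List.all_eq_true.1 h4 x hx
  exact Nat.le_of_ble_eq_true h5

theorem Env.cyc_adj (h : D.Env G T I f) {i : ℕ} (hi : i < D.a) {p : ℕ × ℕ}
    (hp : p ∈ cyc (lk D.links i)) : G.Adj (f p.1) (f p.2) ∧ p.1 ∈ lk D.links i ∧
      p.2 ∈ lk D.links i := by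
  unfold cyc at hp
  rw [List.mem_map] at hp
  obtain ⟨t, ht, rfl⟩ := hp
  have h1 := (h.occ i hi).tri_next t
  have hd := (h.occ i hi).three
  beta_reduce at h1
  exact ⟨h.rel.adj _ _ _ (h.rel.rot _ _ _ h1), mem_lab _ (by omega), mem_lab _ (by omega)⟩

/-- The known edges are edges. -/
theorem Env.j (h : D.Env G T I f) (hw : D.Wf) {x y : ℕ} (hx : x < 32) (hy : y < 32)
    (hJ : sb D.J0 (ix x y) = true) : G.Adj (f x) (f y) := by
  have h1 := sb_orL hJ
  unfold jL at h1
  rw [List.mem_flatMap] at h1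
  obtain ⟨i, hi, h2⟩ := h1
  rw [List.mem_range] at hi
  have hn := hw.n
  have ha := hw.a
  rw [List.mem_append, List.mem_flatMap, List.mem_flatMap] at h2
  rcases h2 with ⟨u, hu, h3⟩ | ⟨p, hp, h3⟩
  · have hun := hw.lt i hi u hu
    have h4 : G.Adj (f i) (f u) := (h.adj_iff hi).2 ⟨u, hu, rfl⟩
    simp only [List.mem_cons, List.not_mem_nil, or_false] at h3
    rcases h3 with h3 | h3
    · obtain ⟨rfl, rfl⟩ := ix_inj hy (by omega) h3
      exact h4
    · obtain ⟨rfl, rfl⟩ := ix_inj hy (by omega) h3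
      exact h4.symm
  · obtain ⟨h4, h5, h6⟩ := h.cyc_adj hi hp
    have h7 := hw.lt i hi _ h5
    have h8 := hw.lt i hi _ h6
    simp only [List.mem_cons, List.not_mem_nil, or_false] at h3
    rcases h3 with h3 | h3
    · obtain ⟨rfl, rfl⟩ := ix_inj hy (by omega) h3
      exact h4
    · obtain ⟨rfl, rfl⟩ := ix_inj hy (by omega) h3
      exact h4.symm

/-- The first tables are correct. -/
theorem Env.snd0 (h : D.Env G T I f) (hw : D.Wf) : D.Snd G f D.E0 D.A0 := by
  have hn := hw.n
  constructor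
  · intro x y hx hy hE
    have h1 := sb_orL hE
    rw [List.mem_append] at h1
    rcases h1 with h1 | h1
    · unfold eL at h1
      rw [List.mem_flatMap] at h1
      obtain ⟨i, hi, h2⟩ := h1
      rw [List.mem_range] at hi
      rw [List.mem_flatMap] at h2
      obtain ⟨u, hu, h2⟩ := h2
      rw [List.mem_flatMap] at h2
      obtain ⟨v, hv, h2⟩ := h2
      cases huv : Nat.beq u v with
      | true =>
        rw [huv, cond_true] at h2
        exact absurd h2 (List.not_mem_nil)
      | false =>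
        rw [huv, cond_false, List.mem_singleton] at h2
        have h3 := hw.lt i hi v hv
        obtain ⟨rfl, rfl⟩ := ix_inj hy (by omega) h2
        intro h4
        rw [h.inj hi hu hv h4, Nat.beq_refl] at huv
        exact absurd huv (by decide)
    · have h2 : sb D.J0 (ix x y) = true := by
        have h3 : ∀ l : List ℕ, ∀ i ∈ l, sb (orL l) i = true := by
          intro l
          induction l with
          | nil => intro i hi; exact absurd hi (List.not_mem_nil)
          | cons j l ih =>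
            intro i hi
            rw [sb_eq, orL]
            change ((1 <<< j) ||| orL l).testBit i = true
            rw [Nat.testBit_or, Bool.or_eq_true]
            rcases List.mem_cons.1 hi with rfl | hi
            · left
              rw [Nat.testBit_shiftLeft, Bool.and_eq_true, decide_eq_true_eq]
              exact ⟨le_refl _, by rw [Nat.sub_self]; rfl⟩
            · right
              rw [← sb_eq]
              exact ih i hi
        exact h3 _ _ h1
      exact (h.j hw hx hy h2).ne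
  · intro x y hx hy hA
    have h1 := sb_orL hA
    rw [List.mem_append] at h1
    rcases h1 with h1 | h1
    · unfold aL at h1
      rw [List.mem_flatMap] at h1
      obtain ⟨i, hi, h2⟩ := h1
      rw [List.mem_range] at hi
      rw [List.mem_flatMap] at h2
      obtain ⟨u, hu, h2⟩ := h2
      rw [List.mem_flatMap] at h2
      obtain ⟨v, hv, h2⟩ := h2
      cases huv : (Nat.beq u v || memS u v (cyc (lk D.links i))) with
      | true =>
        rw [huv, cond_true] at h2
        exact absurd h2 (List.not_mem_nil)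
      | false =>
        rw [huv, cond_false, List.mem_singleton] at h2
        have h3 := hw.lt i hi v hv
        obtain ⟨rfl, rfl⟩ := ix_inj hy (by omega) h2
        intro h4
        rw [Bool.or_eq_false_iff] at huv
        have h5 := h.tri hi hu (h.three _ (h.mem i hi) _ _ ((h.adj_iff hi).2 ⟨_, hu, rfl⟩) h4
          ((h.adj_iff hi).2 ⟨_, hv, rfl⟩).symm) hv
        rw [huv.2] at h5
        exact absurd h5 (by decide)
    · rw [List.mem_map] at h1
      obtain ⟨u, hu, h2⟩ := h1
      rw [List.mem_range] at hu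
      obtain ⟨rfl, rfl⟩ := ix_inj (by omega) hy h2
      exact G.loopless.irrefl _

/-- The inner vertices of degree 4. -/
theorem Env.four_card (h : D.Env G T I f) {c : ℕ} (hc : c < D.a) {p q r s : V}
    (hN : ∀ x, G.Adj (f c) x ↔ x = p ∨ x = q ∨ x = r ∨ x = s) (h1 : p ≠ q) (h2 : p ≠ r)
    (h3 : p ≠ s) (h4 : q ≠ r) (h5 : q ≠ s) (h6 : r ≠ s) : (lk D.links c).length = 4 := by
  rw [← (h.occ c hc).card]
  exact ncard_four hN h1 h2 h3 h4 h5 h6

/-- The rule for 4-cycles. -/
theorem Env.mref (h : D.Env G T I f) (hw : D.Wf) {E A : ℕ} (hs : D.Snd G f E A) {u x v y : ℕ}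
    (hu : u < D.a) (hx : x < 32) (hv : v < 32) (hy : y < 32)
    (hm : D.mref D.J0 E A u x v y = true) {m : V} (hmI : m ∈ I)
    (hN : ∀ z, G.Adj m z ↔ z = f u ∨ z = f x ∨ z = f v ∨ z = f y)
    (h1 : f u ≠ f x) (h2 : f u ≠ f v) (h3 : f u ≠ f y) (h4 : f x ≠ f v) (h5 : f x ≠ f y)
    (h6 : f v ≠ f y) : False := by
  have hn := hw.n
  have ha := hw.a
  obtain ⟨c, hc, rfl⟩ := (h.adj_iff hu).1 ((hN _).2 (Or.inl rfl)).symm
  have hcn := hw.lt u hu c hc
  have h7 := List.all_eq_true.1 hm c hc
  simp only [Bool.or_eq_true] at h7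
  have hself : ∀ z, z = f u ∨ z = f x ∨ z = f v ∨ z = f y → f c ≠ z := by
    rintro z hz rfl
    exact G.loopless.irrefl _ ((hN _).2 hz)
  rcases h7 with (((((((h7 | h7) | h7) | h7) | h7) | h7) | h7) | h7) | h7
  · rw [beq_iff] at h7
    exact hself _ (Or.inr (Or.inl rfl)) (by rw [h7])
  · rw [beq_iff] at h7
    exact hself _ (Or.inr (Or.inr (Or.inl rfl))) (by rw [h7])
  · rw [beq_iff] at h7
    exact hself _ (Or.inr (Or.inr (Or.inr rfl))) (by rw [h7])
  · exact hs.na c x (by omega) hx h7 ((hN _).2 (Or.inr (Or.inl rfl)))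
  · exact hs.na c v (by omega) hv h7 ((hN _).2 (Or.inr (Or.inr (Or.inl rfl))))
  · exact hs.na c y (by omega) hy h7 ((hN _).2 (Or.inr (Or.inr (Or.inr rfl))))
  · rw [Bool.and_eq_true, Bool.not_eq_true'] at h7
    obtain ⟨h8, h9⟩ := h7
    have h10 : c < D.a := Nat.le_of_ble_eq_true h8
    have h11 := h.four_card h10 hN h1 h2 h3 h4 h5 h6
    rw [h11] at h9
    exact absurd h9 (by decide)
  · rw [List.any_eq_true] at h7
    obtain ⟨z, hz, hzc⟩ := h7
    rw [beq_iff] at hzc
    subst hzc
    rcases h.ctx z hz with h8 | h8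
    · exact h8 hmI
    · exact h8 (ncard_four hN h1 h2 h3 h4 h5 h6)
  · obtain ⟨w, hw1, hw2⟩ := meet_iff h7
    rw [sb_eq] at hw1 hw2
    change ((row D.J0 c &&& row E u) &&& row E x).testBit w = true at hw1
    change (row E v &&& row E y).testBit w = true at hw2
    rw [Nat.testBit_and, Nat.testBit_and, Bool.and_eq_true, Bool.and_eq_true, ← sb_eq, ← sb_eq,
      ← sb_eq] at hw1
    rw [Nat.testBit_and, Bool.and_eq_true, ← sb_eq, ← sb_eq] at hw2
    obtain ⟨⟨g1, g2⟩, g3⟩ := hw1
    obtain ⟨g4, g5⟩ := hw2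
    have k1 := sb_row g1
    have k2 := sb_row g2
    have k3 := sb_row g3
    have k4 := sb_row g4
    have k5 := sb_row g5
    have h8 := h.j hw (by omega) k1.1 k1.2
    rcases (hN _).1 h8 with h9 | h9 | h9 | h9
    · exact hs.ne u w (by omega) k1.1 k2.2 h9.symm
    · exact hs.ne x w hx k1.1 k3.2 h9.symm
    · exact hs.ne v w hv k1.1 k4.2 h9.symm
    · exact hs.ne y w hy k1.1 k5.2 h9.symm

theorem Env.four_sound (h : D.Env G T I f) (hw : D.Wf) {E A : ℕ} (hs : D.Snd G f E A) {x y : ℕ}
    (hx : x < 32) (hy : y < 32) (hf : D.four D.J0 E A x y = true) : ¬ G.Adj (f x) (f y) := by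
  intro hxy
  have hn := hw.n
  have ha := hw.a
  obtain ⟨u, hu, h1⟩ := List.any_eq_true.1 hf
  rw [List.mem_range] at hu
  simp only [Bool.and_eq_true] at h1
  obtain ⟨⟨⟨h2, h3⟩, h4⟩, h5⟩ := h1
  obtain ⟨v, hv, h6⟩ := List.any_eq_true.1 h5
  simp only [Bool.and_eq_true] at h6
  obtain ⟨⟨⟨h7, h8⟩, h9⟩, h10⟩ := h6
  have hvn := hw.lt u hu v hv
  have a1 : G.Adj (f u) (f x) := h.j hw (by omega) hx h2
  have a2 : G.Adj (f u) (f v) := (h.adj_iff hu).2 ⟨v, hv, rfl⟩
  have a3 : G.Adj (f v) (f y) := h.j hw (by omega) hy h7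
  have n1 := hs.ne u y (by omega) hy h4
  have n2 := hs.ne x v hx (by omega) h8
  rcases h.four (f u) (h.mem u hu) (f x) (f y) (f v) n1 n2 a1 hxy a3.symm a2.symm with h11 | h11 |
    ⟨m, hm, hN⟩
  · exact hs.na u y (by omega) hy h3 h11
  · exact hs.na x v hx (by omega) h9 h11
  · refine h.mref hw hs hu hx (by omega) hy h10 hm (fun z => ?_) a1.ne a2.ne n1 n2 hxy.ne a3.ne
    rw [hN z]
    constructor
    · rintro (h | h | h | h)
      · exact Or.inl h
      · exact Or.inr (Or.inl h)
      · exact Or.inr (Or.inr (Or.inr h))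
      · exact Or.inr (Or.inr (Or.inl h))
    · rintro (h | h | h | h)
      · exact Or.inl h
      · exact Or.inr (Or.inl h)
      · exact Or.inr (Or.inr (Or.inr h))
      · exact Or.inr (Or.inr (Or.inl h))

theorem Env.meet_ne (h : D.Env G T I f) (hw : D.Wf) {E A : ℕ} (hs : D.Snd G f E A) {x y : ℕ}
    (hx : x < 32) (hy : y < 32) (hm : meet (row D.J0 x) (row A y) = true) : f x ≠ f y := by
  obtain ⟨z, h1, h2⟩ := meet_iff hm
  have k1 := sb_row h1
  have k2 := sb_row h2
  intro hxy
  have h3 := h.j hw hx k1.1 k1.2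
  rw [hxy] at h3
  exact hs.na y z hy k1.1 k2.2 h3

theorem Env.snd_next (h : D.Env G T I f) (hw : D.Wf) {E A : ℕ} (hs : D.Snd G f E A) :
    D.Snd G f (D.nextE D.J0 E A) A := by
  refine ⟨fun x y hx hy h1 => ?_, hs.na⟩
  have h2 := (sb_mkTab hw.n hy h1).2.2
  simp only [Bool.or_eq_true] at h2
  rcases h2 with (h2 | h2) | h2
  · exact hs.ne x y hx hy h2
  · exact h.meet_ne hw hs hx hy h2
  · exact (h.meet_ne hw hs hy hx h2).symm

theorem Env.snd_nextA (h : D.Env G T I f) (hw : D.Wf) {E A : ℕ} (hs : D.Snd G f E A) :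
    D.Snd G f E (D.nextA D.J0 E A) := by
  refine ⟨hs.ne, fun x y hx hy h1 => ?_⟩
  have h2 := (sb_mkTab hw.n hy h1).2.2
  have hn := hw.n
  simp only [Bool.or_eq_true, Bool.and_eq_true] at h2
  have key : ∀ x y, x < 32 → y < 32 → Nat.blt x D.a = true →
      ((lk D.links x).all fun z => sb E (ix z y)) = true → ¬ G.Adj (f x) (f y) := by
    intro x y hx hy h3 h4 hxy
    have h5 : x < D.a := Nat.le_of_ble_eq_true h3
    obtain ⟨z, hz, hzy⟩ := (h.adj_iff h5).1 hxy
    have h6 := List.all_eq_true.1 h4 z hz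
    have h7 := hw.lt x h5 z hz
    exact hs.ne z y (by omega) hy h6 hzy
  rcases h2 with h2 | ⟨_, (((h2 | h2) | h2) | h2)⟩
  · exact hs.na x y hx hy h2
  · exact key x y hx hy h2.1 h2.2
  · exact fun h3 => key y x hy hx h2.1 h2.2 h3.symm
  · exact h.four_sound hw hs hx hy h2
  · exact fun h3 => h.four_sound hw hs hy hx h2 h3.symm

theorem Env.rounds_sound (h : D.Env G T I f) (hw : D.Wf) {k : ℕ → ℕ → Bool} (m : ℕ) :
    ∀ E A, D.Snd G f E A → D.rounds D.J0 k m E A = true →
      ∃ E' A', D.Snd G f E' A' ∧ k E' A' = true := by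
  induction m with
  | zero => exact fun E A hs hk => ⟨E, A, hs, hk⟩
  | succ m ih =>
    intro E A hs hk
    rw [rounds, fce_eq, fce_eq] at hk
    have h1 := h.snd_next hw hs
    exact ih _ _ (h.snd_nextA hw h1) hk

/-- **The tables are correct.** -/
theorem Env.run_sound (h : D.Env G T I f) {k : ℕ → ℕ → Bool} {m : ℕ} (hk : D.run m k = true) :
    ∃ E A, D.Snd G f E A ∧ k E A = true := by
  unfold run at hk
  rw [Bool.and_eq_true, fce_eq, fce_eq, fce_eq] at hk
  have hw := wf_of hk.1
  exact h.rounds_sound hw m _ _ (h.snd0 hw) hk.2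

/-- **Common neighbours.** -/
theorem Env.nc_sound (h : D.Env G T I f) (hw : D.Wf) {E A : ℕ} (hs : D.Snd G f E A) {x y : ℕ}
    (hx : x < 32) (hy : y < 32) (hnc : D.nc A x y = true) {v : V} (hvx : G.Adj v (f x))
    (hvy : G.Adj v (f y)) : ∃ i < D.a, f i = v := by
  have hn := hw.n
  have ha := hw.a
  unfold nc at hnc
  rw [Bool.and_eq_true, Bool.and_eq_true, Bool.not_eq_true'] at hnc
  obtain ⟨⟨hne, hna⟩, h1⟩ := hnc
  have hne' : x ≠ y := by
    rintro rfl
    rw [Nat.beq_refl] at hne
    exact absurd hne (by decide)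
  obtain ⟨u, hu, h2⟩ := List.any_eq_true.1 h1
  rw [List.mem_range] at hu
  rw [Bool.and_eq_true, Bool.and_eq_true] at h2
  obtain ⟨⟨h3, h4⟩, h5⟩ := h2
  obtain ⟨x', hx', h3⟩ := List.any_eq_true.1 h3
  obtain ⟨y', hy', h4⟩ := List.any_eq_true.1 h4
  rw [beq_iff] at h3 h4
  subst h3 h4
  have hxy : f x' ≠ f y' := fun h6 => hne' (h.inj hu hx' hy' h6)
  have a1 : G.Adj (f u) (f x') := (h.adj_iff hu).2 ⟨x', hx', rfl⟩
  have a2 : G.Adj (f u) (f y') := (h.adj_iff hu).2 ⟨y', hy', rfl⟩
  by_cases hvu : v = f u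
  · exact ⟨u, hu, hvu.symm⟩
  have hna' := hs.na x' y' hx hy hna
  rcases h.four (f u) (h.mem u hu) (f x') v (f y') (Ne.symm hvu) hxy a1 hvx.symm hvy a2.symm with
    h6 | h6 | ⟨m, hm, hN⟩
  · obtain ⟨c, hc, rfl⟩ := (h.adj_iff hu).1 h6
    have hcn := hw.lt u hu c hc
    have h7 := List.all_eq_true.1 h5 c hc
    simp only [Bool.or_eq_true, Bool.and_eq_true] at h7
    rcases h7 with (((h7 | h7) | h7) | h7) | ⟨h7, _⟩
    · rw [beq_iff] at h7
      rw [h7] at hvx
      exact absurd hvx (G.loopless.irrefl _)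
    · rw [beq_iff] at h7
      rw [h7] at hvy
      exact absurd hvy (G.loopless.irrefl _)
    · exact absurd hvx (hs.na c x' (by omega) hx h7)
    · exact absurd hvy (hs.na c y' (by omega) hy h7)
    · exact ⟨c, Nat.le_of_ble_eq_true h7, rfl⟩
  · exact absurd h6 hna'
  · obtain ⟨c, hc, rfl⟩ := (h.adj_iff hu).1 ((hN _).2 (Or.inl rfl)).symm
    have hcn := hw.lt u hu c hc
    have h7 := List.all_eq_true.1 h5 c hc
    have b1 : G.Adj (f c) (f x') := (hN _).2 (Or.inr (Or.inl rfl))
    have b2 : G.Adj (f c) (f y') := (hN _).2 (Or.inr (Or.inr (Or.inr rfl)))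
    have b3 : G.Adj (f c) v := (hN _).2 (Or.inr (Or.inr (Or.inl rfl)))
    simp only [Bool.or_eq_true, Bool.and_eq_true] at h7
    rcases h7 with (((h7 | h7) | h7) | h7) | ⟨h7, h8⟩
    · rw [beq_iff] at h7
      rw [h7] at b1
      exact absurd b1 (G.loopless.irrefl _)
    · rw [beq_iff] at h7
      rw [h7] at b2
      exact absurd b2 (G.loopless.irrefl _)
    · exact absurd b1 (hs.na c x' (by omega) hx h7)
    · exact absurd b2 (hs.na c y' (by omega) hy h7)
    · have h9 : c < D.a := Nat.le_of_ble_eq_true h7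
      rcases h8 with h8 | h8
      · have h10 := h.four_card h9 hN a1.ne (Ne.symm hvu) a2.ne hvx.ne' hxy hvy.ne
        rw [Bool.not_eq_true', h10] at h8
        exact absurd h8 (by decide)
      · obtain ⟨w, hw1, rfl⟩ := (h.adj_iff h9).1 b3
        have hwn := hw.lt c h9 w hw1
        have h10 := List.all_eq_true.1 h8 w hw1
        simp only [Bool.or_eq_true] at h10
        rcases h10 with ((((h10 | h10) | h10) | h10) | h10) | h10
        · rw [beq_iff] at h10
          exact absurd (by rw [h10]) hvu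
        · rw [beq_iff] at h10
          rw [h10] at hvx
          exact absurd hvx (G.loopless.irrefl _)
        · rw [beq_iff] at h10
          rw [h10] at hvy
          exact absurd hvy (G.loopless.irrefl _)
        · exact ⟨w, Nat.le_of_ble_eq_true h10, rfl⟩
        · exact absurd hvx (hs.na w x' (by omega) hx h10)
        · exact absurd hvy (hs.na w y' (by omega) hy h10)

end SLeg

end Pool.Agent.W986
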