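import Pool.Agent.W986.Sphere
import Pool.Agent.W986.Half
import Pool.Agent.W986.EvenTri

/-!
# The two sides of the lift of a one-sided cycle

In the double cover of a triangulation of the projective plane the lift of a one-sided cycle
separates; the two sides are exchanged by the antipodal map.
-/

set_option autoImplicit false

open Finset

namespace Pool.Agent.W986

open Pool.Agent.DC76

section

variable {V : Type} [DecidableEq V] {G : SimpleGraph V} {F : Type} [Fintype F]

open Classical in
/-- The indicator function of the triangles which are faces of `I`. -/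
noncomputable def sdI (M : FacialWalks G F) (I : Finset F) (x y w : V) : ZMod 2 :=
  if ∃ f ∈ I, vs M f = {x, y, w} then 1 else 0

theorem sdI_rot (M : FacialWalks G F) (I : Finset F) (x y w : V) :
    sdI M I x y w = sdI M I y w x := by
  have h1 : ({x, y, w} : Finset V) = {y, w, x} := by
    ext u
    simp only [mem_insert, mem_singleton]
    tauto
  unfold sdI
  rw [h1]

theorem sdI_swap (M : FacialWalks G F) (I : Finset F) (x y w : V) :
    sdI M I x y w = sdI M I y x w := by
  have h1 : ({x, y, w} : Finset V) = {y, x, w} := by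
    ext u
    simp only [mem_insert, mem_singleton]
    tauto
  unfold sdI
  rw [h1]

/-- The two faces at an edge. -/
theorem two_faces2 (M : FacialWalks G F) (h3 : ∀ f, M.len f = 3) {x y a b : V} (hab : a ≠ b)
    (ha : Tri M x y a) (hb : Tri M x y b) : ∃ f g, f ≠ g ∧ vs M f = {x, y, a} ∧
      vs M g = {x, y, b} ∧ (∀ f', At M f' x y → f' = f ∨ f' = g) ∧
      trav (M.len f) (M.walk f) x y = 1 ∧ trav (M.len g) (M.walk g) x y = 1 := by
  classical
  rw [tri_vs M h3] at ha hb
  obtain ⟨hxy, hya, hax, f, hf⟩ := ha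
  obtain ⟨_, hyb, hbx, g, hg⟩ := hb
  have hfxy : At M f x y := by
    rw [at_iff M (h3 f), hf]
    exact ⟨hxy, by simp, by simp⟩
  have hgxy : At M g x y := by
    rw [at_iff M (h3 g), hg]
    exact ⟨hxy, by simp, by simp⟩
  have hfg : f ≠ g := by
    rintro rfl
    have h4 : a ∈ ({x, y, b} : Finset V) := by
      rw [← hg, hf]
      simp
    simp only [mem_insert, mem_singleton] at h4
    rcases h4 with h4 | h4 | h4
    · exact hax h4
    · exact hya h4.symm
    · exact hab h4
  have htw := M.twice x y (adj_of_at M hfxy)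
  refine ⟨f, g, hfg, hf, hg, ?_, ?_⟩
  · intro f' h1
    by_contra hcon
    push Not at hcon
    have h2 : ({f', f, g} : Finset F).sum (fun f => trav (M.len f) (M.walk f) x y) ≤ 2 := by
      rw [← htw]
      exact sum_le_sum_of_subset (subset_univ _)
    rw [sum_insert (by simp [hcon.1, hcon.2]), sum_pair hfg] at h2
    unfold At at h1 hfxy hgxy
    omega
  · have h4 : ({f, g} : Finset F).sum (fun f => trav (M.len f) (M.walk f) x y) ≤ 2 := by
      rw [← htw]
      exact sum_le_sum_of_subset (subset_univ _)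
    rw [sum_pair hfg] at h4
    unfold At at hfxy hgxy
    omega

/-- A face is determined by its vertices, if there are two triangles at every edge. -/
theorem vs_inj2 (M : FacialWalks G F) (h3 : ∀ f, M.len f = 3)
    (htwo : ∀ x y, G.Adj x y → ∃ a b, a ≠ b ∧ Tri M x y a ∧ Tri M x y b) {f g : F}
    (h : vs M f = vs M g) : f = g := by
  classical
  have h01 := M.adj f 0 (by rw [h3]; omega)
  have h12 := M.adj f 1 (by rw [h3]; omega)
  have h20 := M.adj f 2 (by rw [h3]; omega)
  have hc := M.closed f
  rw [h3] at hc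
  rw [show 2 + 1 = 3 from rfl, hc] at h20
  obtain ⟨a, b, hab, ha, hb⟩ := htwo _ _ h01
  obtain ⟨f1, g1, hne, hf1, hg1, honly, _⟩ := two_faces2 M h3 hab ha hb
  have hf : At M f (M.walk f 0) (M.walk f 1) := by
    rw [at_iff M (h3 f)]
    exact ⟨h01.ne, by simp [vs], by simp [vs]⟩
  have hg : At M g (M.walk f 0) (M.walk f 1) := by
    rw [at_iff M (h3 g), ← h]
    exact ⟨h01.ne, by simp [vs], by simp [vs]⟩
  have hcard := vs_card M (h3 f)
  rw [tri_vs M h3] at ha hb
  have key : ∀ f' g' : F, vs M f' = {M.walk f 0, M.walk f 1, a} →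
      vs M g' = {M.walk f 0, M.walk f 1, b} → vs M f' = vs M g' → False := by
    intro f' g' e1 e2 e3
    have h4 : a ∈ ({M.walk f 0, M.walk f 1, b} : Finset V) := by
      rw [← e2, ← e3, e1]
      simp
    simp only [mem_insert, mem_singleton] at h4
    rcases h4 with h4 | h4 | h4
    · exact ha.2.2.1 h4
    · exact ha.2.1 h4.symm
    · exact hab h4
  rcases honly f hf with h5 | h5 <;> rcases honly g hg with h6 | h6
  · rw [h5, h6]
  · subst h5
    subst h6
    exact absurd h fun h => key _ _ hf1 hg1 h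
  · subst h5
    subst h6
    exact absurd h.symm fun h => key _ _ hf1 hg1 h
  · rw [h5, h6]

/-- The boundary of the indicator function. -/
theorem sdI_bd (M : FacialWalks G F) (h3 : ∀ f, M.len f = 3) (I : Finset F) {x y a b : V}
    (hab : a ≠ b) (ha : Tri M x y a) (hb : Tri M x y b) :
    sdI M I x y a + sdI M I x y b = ((bd M I x y : ℕ) : ZMod 2) := by
  classical
  obtain ⟨f, g, hfg, hf, hg, honly, t1, t2⟩ := two_faces2 M h3 hab ha hb
  rw [tri_vs M h3] at ha hb
  obtain ⟨hxy, hya, hax, _⟩ := ha
  obtain ⟨_, hyb, hbx, _⟩ := hb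
  have hne : ∀ f' g', vs M f' = {x, y, a} → vs M g' = {x, y, b} → f' ≠ g' := by
    rintro f' g' h1 h2 rfl
    have h4 : a ∈ ({x, y, b} : Finset V) := by
      rw [← h2, h1]
      simp
    simp only [mem_insert, mem_singleton] at h4
    rcases h4 with h4 | h4 | h4
    · exact hax h4
    · exact hya h4.symm
    · exact hab h4
  have h1 : bd M I x y = (if f ∈ I then 1 else 0) + (if g ∈ I then 1 else 0) := by
    have h5 : ∀ h ∈ I, trav (M.len h) (M.walk h) x y =
        (if h = f then 1 else 0) + (if h = g then 1 else 0) := by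
      intro h _
      by_cases h6 : h = f
      · rw [if_pos h6, if_neg (fun h7 => hfg (h6.symm.trans h7)), h6, t1]
      · by_cases h7 : h = g
        · rw [if_neg h6, if_pos h7, h7, t2]
        · rw [if_neg h6, if_neg h7]
          by_contra h8
          rcases honly h h8 with h9 | h9
          · exact h6 h9
          · exact h7 h9
    unfold bd
    rw [sum_congr rfl h5, sum_add_distrib, sum_ite_eq', sum_ite_eq']
  rw [h1]
  have h4 : (∃ h ∈ I, vs M h = {x, y, a}) ↔ f ∈ I := by
    constructor
    · rintro ⟨h, h5, h6⟩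
      have h7 : At M h x y := by
        rw [at_iff M (h3 h), h6]
        exact ⟨hxy, by simp, by simp⟩
      rcases honly h h7 with h8 | h8
      · rw [← h8]
        exact h5
      · exact absurd h8 (hne h g h6 hg)
    · intro h5
      exact ⟨f, h5, hf⟩
  have h5 : (∃ h ∈ I, vs M h = {x, y, b}) ↔ g ∈ I := by
    constructor
    · rintro ⟨h, h5, h6⟩
      have h7 : At M h x y := by
        rw [at_iff M (h3 h), h6]
        exact ⟨hxy, by simp, by simp⟩
      rcases honly h h7 with h8 | h8
      · exact absurd h8.symm (hne f h hf h6)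
      · rw [← h8]
        exact h5
    · intro h5
      exact ⟨g, h5, hg⟩
  unfold sdI
  simp only [h4, h5]
  push_cast
  rfl

end

section cover

variable {V : Type} [DecidableEq V] {G : SimpleGraph V} {F : Type} [Fintype F]
  {X : V → V → ZMod 2} {hX : ∀ x y, X x y = X y x}

theorem trav_add {W : Type} [DecidableEq W] (n m : ℕ) (u : ℕ → W) (x y : W) :
    trav (n + m) u x y = trav n u x y + trav m (fun t => u (n + t)) x y := by
  unfold trav
  rw [card_filter, card_filter, card_filter, sum_range_add]
  rfl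

theorem trav_anti (n : ℕ) (u : ℕ → V × ZMod 2) (p q : V × ZMod 2) :
    trav n (fun t => anti (u t)) p q = trav n u (anti p) (anti q) := by
  unfold trav
  congr 1
  ext t
  simp only [mem_filter]
  have h : ∀ a b : V × ZMod 2, anti a = b ↔ a = anti b := by
    intro a b
    constructor
    · rintro rfl
      rw [anti_anti]
    · rintro rfl
      rw [anti_anti]
  rw [h, h, h, h]

variable {w : ℕ} {z : ℕ → V}

omit [DecidableEq V] in
theorem lft_one (a : ZMod 2) (t : ℕ) : lft X z (a + 1) t = anti (lft X z a t) := by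
  unfold lft anti
  simp only
  rw [add_right_comm]

omit [DecidableEq V] in
/-- The lift of a one-sided closed walk ends at the antipodal point. -/
theorem lft_add (hper : ∀ t, z (t + w) = z t)
    (h1 : ∑ t ∈ range w, X (z t) (z (t + 1)) = 1) (a : ZMod 2) (t : ℕ) :
    lft X z a (t + w) = anti (lft X z a t) := by
  unfold lft anti
  rw [hper, add_comm t w, sum_range_add, h1]
  have h2 : ∀ i, X (z (w + i)) (z (w + i + 1)) = X (z i) (z (i + 1)) := by
    intro i
    rw [add_comm w i, hper, show i + w + 1 = i + 1 + w by omega, hper]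
  simp only [h2]
  congr 1
  ring

/-- The lift of a one-sided closed walk traverses the lifts of an edge as often as the walk
traverses the edge. -/
theorem trav_lift (hX : ∀ x y, X x y = X y x) (hper : ∀ t, z (t + w) = z t)
    (h1 : ∑ t ∈ range w, X (z t) (z (t + 1)) = 1) {x y : V} (hxy : x ≠ y) (a : ZMod 2) :
    trav (w + w) (lft X z 0) (x, a) (y, a + X x y) = trav w z x y := by
  rw [trav_add, ← sum_trav_lft hX hxy a]
  have h2 : (fun t => lft X z 0 (w + t)) = lft X z 1 := by
    funext t
    rw [add_comm w t, lft_add hper h1, ← lft_one, zero_add]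
  rw [h2]
  exact (Fin.sum_univ_two fun s : Fin 2 => trav w (lft X z (s : ZMod 2)) (x, a) (y, a + X x y)).symm

variable [Fintype V]

/-- **The two sides.** The lift of a one-sided closed walk is the boundary of a set of triangles of
the double cover, which is exchanged with its complement by the antipodal map. -/
theorem exists_lift_sides (M : FacialWalks G F) (hL : Link M) (hG : G.Connected)
    (hχ : (Fintype.card V : ℤ) - G.edgeSet.ncard + Fintype.card F = 1) (h3 : ∀ f, M.len f = 3)
    (hX : ∀ x y, X x y = X y x)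
    (hf : ∀ f, ∑ t ∈ range (M.len f), X (M.walk f t) (M.walk f (t + 1)) = 0)
    (hodd : ¬ ∃ h : V → ZMod 2, ∀ x y, G.Adj x y → h x + h y = X x y)
    {T : V × ZMod 2 → V × ZMod 2 → V × ZMod 2 → Prop}
    (hT : ∀ p q r, T p q r ↔ Tri M p.1 q.1 r.1 ∧ (cover G X hX).Adj p q ∧
      (cover G X hX).Adj q r ∧ (cover G X hX).Adj r p)
    (htwo : ∀ p q, (cover G X hX).Adj p q → ∃ a b, a ≠ b ∧ T p q a ∧ T p q b)
    (hper : ∀ t, z (t + w) = z t) (hadj : ∀ t, G.Adj (z t) (z (t + 1)))
    (h1 : ∑ t ∈ range w, X (z t) (z (t + 1)) = 1) :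
    ∃ s : V × ZMod 2 → V × ZMod 2 → V × ZMod 2 → ZMod 2,
      (∀ p q r, s p q r = s q r p) ∧ (∀ p q r, s p q r = s q p r) ∧
      (∀ p q a b, a ≠ b → T p q a → T p q b →
        s p q a + s p q b = ((trav (w + w) (lft X z 0) p q : ℕ) : ZMod 2)) ∧
      ∀ p q r, T p q r → s (anti p) (anti q) (anti r) = s p q r + 1 := by
  classical
  obtain ⟨M', hL', hlen, hwalk⟩ := exists_cover M hL hG hX hf hodd
  have h3' : ∀ g, M'.len g = 3 := fun g => (hlen g).trans (h3 _)
  have hconn : (cover G X hX).Connected := cover_connected hG hodd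
  have hTri : ∀ p q r, Tri M' p q r ↔ T p q r := by
    intro p q r
    rw [hT]
    constructor
    · intro h
      refine ⟨tri_proj h3 hlen hwalk h, ?_⟩
      obtain ⟨g, h1, h2, h4⟩ := h
      exact ⟨adj_of_at M' h1, adj_of_at M' h2, adj_of_at M' h4⟩
    · rintro ⟨h1, h2, h4, h5⟩
      exact tri_lift h3 hf hlen hwalk h1 h2 h4 h5
  have htwo' : ∀ p q, (cover G X hX).Adj p q → ∃ a b, a ≠ b ∧ Tri M' p q a ∧ Tri M' p q b := by
    intro p q h
    obtain ⟨a, b, h1, h2, h3⟩ := htwo p q h
    exact ⟨a, b, h1, (hTri _ _ _).2 h2, (hTri _ _ _).2 h3⟩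
  set c : ℕ → V × ZMod 2 := lft X z 0 with hc
  have hca : ∀ t, (cover G X hX).Adj (c t) (c (t + 1)) := by
    intro t
    rw [hc, lft_succ]
    exact ⟨hadj t, rfl⟩
  have hcl : c (w + w) = c 0 := by
    rw [hc, lft_add hper h1, ← zero_add w, lft_add hper h1, anti_anti]
  have hch : chain (w + w) c ∈ Z (cover G X hX) Set.univ := chain_mem hcl fun t _ => hca t
  have hχ' : (2 : ℤ) ≤ (Fintype.card (V × ZMod 2) : ℤ) - (cover G X hX).edgeSet.ncard +
      Fintype.card (F × ZMod 2) := by
    have h2 := cover_euler (G := G) (X := X) (hX := hX) (F := F)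
    omega
  obtain ⟨I, hI⟩ := (mem_Bnd M' _).1 (sphere_Bnd (conn_univ hconn) M' ⟨c 0⟩ hχ' hch)
  have hchain : ∀ p q, ((trav (w + w) c p q : ℕ) : ZMod 2) = ∑ g ∈ I, face M' g p q := by
    intro p q
    have h2 := congrFun (congrFun hI p) q
    rw [Finset.sum_apply, Finset.sum_apply] at h2
    exact h2
  -- the boundary is invariant
  have hinv : ∀ p q, trav (w + w) c (anti p) (anti q) = trav (w + w) c p q := by
    intro p q
    by_cases hpq : (cover G X hX).Adj p q
    · obtain ⟨x, a⟩ := p
      obtain ⟨y, b⟩ := q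
      obtain ⟨h2, h4⟩ := hpq
      change b = a + X x y at h4
      have h5 : anti (y, b) = (y, (a + 1) + X x y) := by
        unfold anti
        rw [h4]
        simp only
        congr 1
        ring
      rw [h5]
      change trav (w + w) (lft X z 0) (x, a + 1) (y, a + 1 + X x y) = _
      rw [trav_lift hX hper h1 h2.ne, h4, hc, trav_lift hX hper h1 h2.ne]
    · have h2 : ∀ p q, ¬ (cover G X hX).Adj p q → trav (w + w) c p q = 0 := by
        intro p q h
        unfold trav
        rw [card_eq_zero, filter_eq_empty_iff]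
        rintro t _ (⟨rfl, rfl⟩ | ⟨rfl, rfl⟩)
        · exact h (hca t)
        · exact h (hca t).symm
      rw [h2 p q hpq, h2]
      rwa [anti_adj]
  have hfa : ∀ (g : F × ZMod 2) p q, face M' (g.1, g.2 + 1) p q = face M' g (anti p) (anti q) := by
    intro g p q
    change ((trav (M'.len (g.1, g.2 + 1)) (M'.walk (g.1, g.2 + 1)) p q : ℕ) : ZMod 2) =
      ((trav (M'.len g) (M'.walk g) (anti p) (anti q) : ℕ) : ZMod 2)
    rw [hwalk, hwalk, hlen, hlen, ← trav_anti]
    congr 3
    funext t
    exact lft_one _ _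
  set J : Finset (F × ZMod 2) := univ.filter fun g => (g.1, g.2 + 1) ∈ I with hJ
  have haa : ∀ a : ZMod 2, a + 1 + 1 = a := by decide
  have hJsum : ∀ p q, ∑ g ∈ J, face M' g p q = ∑ g ∈ I, face M' g p q := by
    intro p q
    rw [← hchain, ← hinv, hchain]
    refine sum_bij (fun g _ => (g.1, g.2 + 1)) ?_ ?_ ?_ ?_
    · intro g hg
      exact (mem_filter.1 hg).2
    · rintro ⟨f, a⟩ _ ⟨f', b⟩ _ h
      obtain ⟨h2, h4⟩ := Prod.mk.inj h
      exact Prod.ext h2 (add_right_cancel h4)
    · rintro ⟨f, a⟩ hg
      refine ⟨(f, a + 1), mem_filter.2 ⟨mem_univ _, ?_⟩, ?_⟩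
      · change (f, a + 1 + 1) ∈ I
        rw [haa]
        exact hg
      · change (f, a + 1 + 1) = (f, a)
        rw [haa]
    · intro g _
      rw [← anti_anti p, ← anti_anti q, ← hfa, anti_anti, anti_anti]
  set K : Finset (F × ZMod 2) := univ.filter fun g => ¬ (g ∈ I ↔ g ∈ J) with hK
  have hKsum : ∀ p q, ∑ g ∈ K, face M' g p q = 0 := by
    intro p q
    have h2 : ∑ g ∈ K, face M' g p q = ∑ g ∈ I, face M' g p q + ∑ g ∈ J, face M' g p q := by
      have h4 : ∀ S : Finset (F × ZMod 2), ∑ g ∈ S, face M' g p q =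
          ∑ g, if g ∈ S then face M' g p q else 0 := by
        intro S
        rw [← sum_filter]
        congr 1
        ext g
        simp
      rw [h4 K, h4 I, h4 J, ← sum_add_distrib]
      refine sum_congr rfl fun g _ => ?_
      have h5 : g ∈ K ↔ ¬ (g ∈ I ↔ g ∈ J) := by
        rw [hK, mem_filter]
        exact ⟨fun h => h.2, fun h => ⟨mem_univ _, h⟩⟩
      by_cases h6 : g ∈ I <;> by_cases h7 : g ∈ J
      · rw [if_neg (by tauto), if_pos h6, if_pos h7, CharTwo.add_self_eq_zero]
      · rw [if_pos (by tauto), if_pos h6, if_neg h7, add_zero]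
      · rw [if_pos (by tauto), if_neg h6, if_pos h7, zero_add]
      · rw [if_neg (by tauto), if_neg h6, if_neg h7, add_zero]
    rw [h2, hJsum, CharTwo.add_self_eq_zero]
  have hKall : K = ∅ ∨ K = univ := by
    by_contra hcon
    push Not at hcon
    obtain ⟨u, v, h2⟩ := M'.dual K hcon.1 hcon.2
    have h4 : ((∑ f ∈ K, trav (M'.len f) (M'.walk f) u v : ℕ) : ZMod 2) = 0 := by
      rw [Nat.cast_sum]
      exact hKsum u v
    rw [h2] at h4
    exact absurd h4 (by decide)
  have hKne : K ≠ ∅ := by
    intro h0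
    have hIJ : ∀ g, g ∈ I ↔ (g.1, g.2 + 1) ∈ I := by
      intro g
      by_contra hcon
      have h2 : g ∈ K := by
        rw [hK, mem_filter]
        refine ⟨mem_univ _, fun h => hcon (h.trans ?_)⟩
        rw [hJ, mem_filter]
        exact ⟨fun h => h.2, fun h => ⟨mem_univ _, h⟩⟩
      rw [h0] at h2
      exact absurd h2 (notMem_empty _)
    set I0 : Finset F := univ.filter fun f => (f, (0 : ZMod 2)) ∈ I with hI0
    have hI0' : ∀ f s, (f, s) ∈ I ↔ f ∈ I0 := by
      intro f s
      rw [hI0, mem_filter]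
      rcases zcases s with rfl | rfl
      · exact ⟨fun h => ⟨mem_univ _, h⟩, fun h => h.2⟩
      · rw [hIJ]
        change (f, (1 : ZMod 2) + 1) ∈ I ↔ _
        rw [show (1 : ZMod 2) + 1 = 0 by decide]
        exact ⟨fun h => ⟨mem_univ _, h⟩, fun h => h.2⟩
    have hz : chain w z = ∑ f ∈ I0, face M f := by
      funext x y
      rw [Finset.sum_apply, Finset.sum_apply]
      change ((trav w z x y : ℕ) : ZMod 2) = ∑ f ∈ I0, ((trav (M.len f) (M.walk f) x y : ℕ) : ZMod 2)
      by_cases hxy : G.Adj x y
      · rw [← trav_lift hX hper h1 hxy.ne 0, hchain]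
        have h2 : ∑ g ∈ I, face M' g (x, 0) (y, 0 + X x y) =
            ∑ f ∈ I0, ∑ s : ZMod 2, face M' (f, s) (x, 0) (y, 0 + X x y) := by
          have h4 : I = I0 ×ˢ (univ : Finset (ZMod 2)) := by
            ext ⟨f, s⟩
            rw [mem_product, hI0']
            simp
          rw [h4, sum_product]
        rw [h2]
        refine sum_congr rfl fun f _ => ?_
        rw [← sum_trav_lft hX hxy.ne 0, Nat.cast_sum]
        refine sum_congr rfl fun s _ => ?_
        change ((trav (M'.len (f, s)) (M'.walk (f, s)) _ _ : ℕ) : ZMod 2) = _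
        rw [hwalk, hlen]
      · have h2 : trav w z x y = 0 := by
          unfold trav
          rw [card_eq_zero, filter_eq_empty_iff]
          rintro t _ (⟨rfl, rfl⟩ | ⟨rfl, rfl⟩)
          · exact hxy (hadj t)
          · exact hxy (hadj t).symm
        rw [h2, Nat.cast_zero]
        symm
        refine sum_eq_zero fun f _ => ?_
        by_contra h4
        exact hxy (adj_of_at M (f := f) fun h5 => h4 (by rw [h5, Nat.cast_zero]))
    have hpr : pr X (chain w z) = 0 := by
      rw [hz, map_sum]
      refine sum_eq_zero fun f _ => ?_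
      have h2 : face M f = chain (M.len f) (M.walk f) := rfl
      rw [h2, pr_chain hX fun t ht => (M.adj f t ht).ne]
      exact hf f
    rw [pr_chain hX fun t _ => (hadj t).ne, h1] at hpr
    exact one_ne_zero hpr
  have hKu : ∀ g, (g.1, g.2 + 1) ∈ I ↔ g ∉ I := by
    intro g
    have h2 : g ∈ K := by
      rw [hKall.resolve_left hKne]
      exact mem_univ _
    rw [hK, mem_filter] at h2
    have h4 := h2.2
    rw [hJ, mem_filter] at h4
    have h5 := mem_univ g
    tauto
  refine ⟨sdI M' I, sdI_rot M' I, sdI_swap M' I, ?_, ?_⟩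
  · intro p q a b hab ha hb
    rw [sdI_bd M' h3' I hab ((hTri _ _ _).2 ha) ((hTri _ _ _).2 hb), bd_cast, ← hI]
    rfl
  · intro p q r hT'
    have h2 := (hTri _ _ _).2 hT'
    rw [tri_vs M' h3'] at h2
    obtain ⟨_, _, _, g, hg⟩ := h2
    have hval : ∀ (g : F × ZMod 2) (p q r : V × ZMod 2), vs M' g = {p, q, r} →
        sdI M' I p q r = if g ∈ I then 1 else 0 := by
      intro g p q r hg
      have h4 : (∃ f ∈ I, vs M' f = {p, q, r}) ↔ g ∈ I := by
        constructor
        · rintro ⟨f, h5, h6⟩
          rw [← vs_inj2 M' h3' htwo' (h6.trans hg.symm)]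
          exact h5
        · intro h5
          exact ⟨g, h5, hg⟩
      unfold sdI
      simp only [h4]
    have hg' : vs M' (g.1, g.2 + 1) = {anti p, anti q, anti r} := by
      have h4 : vs M' (g.1, g.2 + 1) = (vs M' g).image anti := by
        unfold vs
        rw [image_insert, image_insert, image_singleton, hwalk, hwalk, lft_one, lft_one, lft_one]
      rw [h4, hg, image_insert, image_insert, image_singleton]
    rw [hval g p q r hg, hval _ _ _ _ hg']
    by_cases h4 : g ∈ I
    · rw [if_pos h4, if_neg fun h => (hKu g).1 h h4]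
      decide
    · rw [if_neg h4, if_pos ((hKu g).2 h4)]
      decide

end cover

end Pool.Agent.W986
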