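import Pool.Agent.W986.SubCtr

/-!
# The contraction of several edges
-/

set_option autoImplicit false

open Finset

namespace Pool.Agent.W986

open Pool.Agent.DC76

section list

variable {W : Type}

/-- A quotient of a quotient. -/
theorem quot_comp (H : SimpleGraph W) (ρ σ : W → W) :
    quot (quot H ρ) σ = quot H (fun v => σ (ρ v)) := by
  ext u v
  constructor
  · rintro ⟨h1, _, _, h2, h3, _, a', b', rfl, rfl, h6⟩
    exact ⟨h1, a', b', h2, h3, h6⟩
  · rintro ⟨h1, a, b, h2, h3, h4⟩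
    change σ (ρ a) = u at h2
    change σ (ρ b) = v at h3
    refine ⟨h1, ρ a, ρ b, h2, h3, ?_, a, b, rfl, rfl, h4⟩
    intro h
    rw [h] at h2
    exact h1 (h2.symm.trans h3)

/-- The triangles of a quotient of a quotient. -/
theorem quotT_comp (T : W → W → W → Prop) (ρ σ : W → W) :
    quotT (quotT T ρ) σ = quotT T (fun v => σ (ρ v)) := by
  funext u v w
  apply propext
  constructor
  · rintro ⟨h1, h2, h3, _, _, _, ha, hb, hc, _, _, _, a', b', c', rfl, rfl, rfl, h⟩
    exact ⟨h1, h2, h3, a', b', c', ha, hb, hc, h⟩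
  · rintro ⟨h1, h2, h3, a, b, c, ha, hb, hc, h⟩
    change σ (ρ a) = u at ha
    change σ (ρ b) = v at hb
    change σ (ρ c) = w at hc
    refine ⟨h1, h2, h3, ρ a, ρ b, ρ c, ha, hb, hc, ?_, ?_, ?_, a, b, c, rfl, rfl, rfl, h⟩
    · intro h'
      rw [h'] at ha
      exact h1 (ha.symm.trans hb)
    · intro h'
      rw [h'] at hb
      exact h2 (hb.symm.trans hc)
    · intro h'
      rw [h'] at hc
      exact h3 (hc.symm.trans ha)

theorem quot_self (H : SimpleGraph W) : quot H (fun v => v) = H := by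
  ext u v
  constructor
  · rintro ⟨_, a, b, rfl, rfl, h⟩
    exact h
  · intro h
    exact ⟨h.ne, u, v, rfl, rfl, h⟩

theorem TriLoc.quotT_self {S : Finset W} {H : SimpleGraph W} {T : W → W → W → Prop}
    (h : TriLoc S H T) : quotT T (fun v => v) = T := by
  funext u v w
  apply propext
  constructor
  · rintro ⟨_, _, _, a, b, c, rfl, rfl, rfl, h⟩
    exact h
  · intro hT
    have e := h.adj2 hT
    exact ⟨e.1.ne, e.2.1.ne, e.2.2.ne, u, v, w, rfl, rfl, rfl, hT⟩

variable [DecidableEq W]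

/-- Several edges are contracted. -/
def mvs : List (W × W) → W → W
  | [], v => v
  | p :: L, v => mvs L (mv p.1 p.2 v)

/-- The edges `p` and `q` have no common end, and no end of `p` is a common neighbour of the ends
of `q` after the contraction of `p`. -/
def Far (H : SimpleGraph W) (p q : W × W) : Prop :=
  q.1 ≠ p.1 ∧ q.1 ≠ p.2 ∧ q.2 ≠ p.1 ∧ q.2 ≠ p.2 ∧
    ¬ ((H.Adj p.1 q.1 ∨ H.Adj p.2 q.1) ∧ (H.Adj p.1 q.2 ∨ H.Adj p.2 q.2))

/-- The contraction of several edges. -/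
theorem TriOn.contract_list [Finite W] {χ : ℤ} : ∀ (L : List (W × W)) {S : Finset W}
    {H : SimpleGraph W} {T : W → W → W → Prop}, TriOn χ S H T → L.length + 4 ≤ S.card →
    (∀ p ∈ L, H.Adj p.1 p.2 ∧ ∀ v, H.Adj p.1 v → H.Adj p.2 v → T p.1 p.2 v) →
    L.Pairwise (Far H) →
    ∃ S' : Finset W, (∀ v, v ∈ S' ↔ v ∈ S ∧ ∀ p ∈ L, v ≠ p.2) ∧
      TriOn χ S' (quot H (mvs L)) (quotT T (mvs L)) := by
  intro L
  induction L with
  | nil =>
    intro S H T h _ _ _
    refine ⟨S, fun v => by simp, ?_⟩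
    have e : (mvs [] : W → W) = fun v => v := rfl
    rw [e, quot_self, h.toTriLoc.quotT_self]
    exact h
  | cons p L ih =>
    intro S H T h hS hp hfar
    rw [List.pairwise_cons] at hfar
    obtain ⟨hf1, hf2⟩ := hfar
    obtain ⟨hadj, hcom⟩ := hp p (List.mem_cons_self ..)
    have h5 : 5 ≤ S.card := by
      rw [List.length_cons] at hS
      omega
    have h' := h.contract h5 hadj hcom
    have hmem : p.2 ∈ S := h.mem _ _ hadj.symm
    have hS' : L.length + 4 ≤ (S.erase p.2).card := by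
      rw [card_erase_of_mem hmem]
      rw [List.length_cons] at hS
      omega
    have hkey : ∀ u, u ≠ p.1 → u ≠ p.2 → ∀ v, v ≠ p.1 → v ≠ p.2 →
        ((quot H (mv p.1 p.2)).Adj u v ↔ H.Adj u v) := by
      intro u hu1 hu2 v hv1 hv2
      rw [cadj_ne hu1 hu2]
      constructor
      · rintro ⟨_, b, hb, hub⟩
        rw [← eq_of_mv hb hv1]
        exact hub
      · intro huv
        exact ⟨huv.ne, v, mv_ne hv2, huv⟩
    have g1 : ∀ q ∈ L, (quot H (mv p.1 p.2)).Adj q.1 q.2 ∧ ∀ v, (quot H (mv p.1 p.2)).Adj q.1 v →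
        (quot H (mv p.1 p.2)).Adj q.2 v → quotT T (mv p.1 p.2) q.1 q.2 v := by
      intro q hq
      obtain ⟨a1, a2, a3, a4, a5⟩ := hf1 q hq
      obtain ⟨hq1, hq2⟩ := hp q (List.mem_cons_of_mem _ hq)
      refine ⟨(hkey _ a1 a2 _ a3 a4).2 hq1, fun v hv1 hv2 => ?_⟩
      by_cases hv : v = p.1
      · exfalso
        subst hv
        have k1 := (cadj_x hadj.ne).1 hv1.symm
        have k2 := (cadj_x hadj.ne).1 hv2.symm
        exact a5 ⟨k1.2.2, k2.2.2⟩
      · have hv' : v ≠ p.2 := by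
          rintro rfl
          obtain ⟨_, _, b, _, hb, _⟩ := hv1
          exact mv_ne_y hadj.ne _ hb
        have hT := hq2 v ((hkey _ a1 a2 _ hv hv').1 hv1) ((hkey _ a3 a4 _ hv hv').1 hv2)
        have e := h.toTriLoc.adj2 hT
        exact ⟨e.1.ne, e.2.1.ne, e.2.2.ne, q.1, q.2, v, mv_ne a2, mv_ne a4, mv_ne hv', hT⟩
    have g2 : L.Pairwise (Far (quot H (mv p.1 p.2))) := by
      refine List.Pairwise.imp_of_mem ?_ hf2
      intro q r hq hr hqr
      obtain ⟨b1, b2, b3, b4, _⟩ := hf1 q hq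
      obtain ⟨c1, c2, c3, c4, _⟩ := hf1 r hr
      obtain ⟨a1, a2, a3, a4, a5⟩ := hqr
      refine ⟨a1, a2, a3, a4, ?_⟩
      rw [hkey _ b1 b2 _ c1 c2, hkey _ b1 b2 _ c3 c4, hkey _ b3 b4 _ c1 c2, hkey _ b3 b4 _ c3 c4]
      exact a5
    obtain ⟨S', hS1, hS2⟩ := ih h' hS' g1 g2
    refine ⟨S', fun v => ?_, ?_⟩
    · rw [hS1 v, mem_erase, List.forall_mem_cons]
      tauto
    · have e : (mvs (p :: L) : W → W) = fun v => mvs L (mv p.1 p.2 v) := rfl
      rw [e, ← quot_comp, ← quotT_comp]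
      exact hS2

theorem mvs_fix : ∀ (L : List (W × W)) (v : W), (∀ p ∈ L, v ≠ p.2) → mvs L v = v := by
  intro L
  induction L with
  | nil => exact fun v _ => rfl
  | cons p L ih =>
    intro v hv
    rw [List.forall_mem_cons] at hv
    change mvs L (mv p.1 p.2 v) = v
    rw [mv_ne hv.1]
    exact ih v hv.2

theorem mvs_snd {H : SimpleGraph W} : ∀ (L : List (W × W)), L.Pairwise (Far H) → ∀ p ∈ L,
    mvs L p.2 = p.1 := by
  intro L
  induction L with
  | nil => exact fun _ p hp => absurd hp (by simp)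
  | cons q L ih =>
    intro h p hp
    rw [List.pairwise_cons] at h
    change mvs L (mv q.1 q.2 p.2) = p.1
    rw [List.mem_cons] at hp
    rcases hp with rfl | hp
    · rw [mv_self]
      exact mvs_fix L _ fun r hr => (h.1 r hr).2.2.1.symm
    · rw [mv_ne (h.1 p hp).2.2.2.1]
      exact ih h.2 p hp

/-- The vertices over a vertex. -/
theorem eq_of_mvs {H : SimpleGraph W} {L : List (W × W)} (hL : L.Pairwise (Far H)) {v u : W}
    (h : mvs L v = u) : v = u ∨ ∃ p ∈ L, p.1 = u ∧ v = p.2 := by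
  by_cases h1 : ∃ p ∈ L, v = p.2
  · obtain ⟨p, hp, rfl⟩ := h1
    exact Or.inr ⟨p, hp, (mvs_snd L hL p hp).symm.trans h, rfl⟩
  · push Not at h1
    exact Or.inl ((mvs_fix L v h1).symm.trans h)

end list

end Pool.Agent.W986
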