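import Pool.Agent.W986.SubPlan
import Pool.Agent.W986.SubOcc

/-!
# Plans for occurrences of configurations
-/

set_option autoImplicit false

open Finset

namespace Pool.Agent.W986

open Pool.Agent.DC76

namespace Plan

/-- The labels `x` and `y` are consecutive in the cyclic list `l`. -/
def nextTo (l : List ℕ) (x y : ℕ) : Bool :=
  (List.range l.length).any fun t =>
    (Nat.beq (lab l t) x && Nat.beq (lab l (t + 1)) y) ||
    (Nat.beq (lab l t) y && Nat.beq (lab l (t + 1)) x)

/-- The mask of the labels in the triangles at the label `c`. -/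
def triMask (c : ℕ) : List (ℕ × ℕ × ℕ) → ℕ
  | [] => 0
  | t :: l =>
    bif Nat.beq t.1 c then (1 <<< t.2.1) ||| (1 <<< t.2.2) ||| triMask c l else
    bif Nat.beq t.2.1 c then (1 <<< t.1) ||| (1 <<< t.2.2) ||| triMask c l else
    bif Nat.beq t.2.2 c then (1 <<< t.1) ||| (1 <<< t.2.1) ||| triMask c l else triMask c l

/-- The lists of labels and the plan agree. -/
def agree (P : Plan) (links : List (List ℕ)) : Bool :=
  Nat.beq P.a links.length &&
  (P.tri.all fun t => Nat.blt t.1 P.a && Nat.blt t.2.1 P.N && Nat.blt t.2.2 P.N &&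
    nextTo (lk links t.1) t.2.1 t.2.2) &&
  ((List.range P.N).all fun i => Nat.beq (P.nb.getD i 0) (triMask i P.tri)) &&
  ((List.range P.a).all fun i => (lk links i).all fun j =>
    Nat.blt j P.N && (P.nb.getD i 0).testBit j && (P.nb.getD j 0).testBit i)

theorem testBit_one_shiftLeft (n m : ℕ) : (1 <<< n).testBit m = true ↔ m = n := by
  rw [Nat.one_shiftLeft, Nat.testBit_two_pow]
  constructor
  · intro h
    exact (of_decide_eq_true h).symm
  · intro h
    exact decide_eq_true h.symm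

theorem triMask_sound (c : ℕ) (l : List (ℕ × ℕ × ℕ)) (j : ℕ)
    (h : (triMask c l).testBit j = true) : ∃ t ∈ l,
      (t.1 = c ∧ (t.2.1 = j ∨ t.2.2 = j)) ∨ (t.2.1 = c ∧ (t.1 = j ∨ t.2.2 = j)) ∨
      (t.2.2 = c ∧ (t.1 = j ∨ t.2.1 = j)) := by
  induction l with
  | nil =>
    rw [triMask, Nat.zero_testBit] at h
    exact Bool.noConfusion h
  | cons t l ih =>
    rw [triMask] at h
    have hrec : (triMask c l).testBit j = true → ∃ t' ∈ t :: l,
        (t'.1 = c ∧ (t'.2.1 = j ∨ t'.2.2 = j)) ∨ (t'.2.1 = c ∧ (t'.1 = j ∨ t'.2.2 = j)) ∨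
        (t'.2.2 = c ∧ (t'.1 = j ∨ t'.2.1 = j)) := by
      intro h1
      obtain ⟨t', ht', h2⟩ := ih h1
      exact ⟨t', List.mem_cons_of_mem _ ht', h2⟩
    cases h1 : Nat.beq t.1 c with
    | true =>
      rw [h1, cond_true, Nat.testBit_lor, Nat.testBit_lor, Bool.or_eq_true, Bool.or_eq_true,
        testBit_one_shiftLeft, testBit_one_shiftLeft] at h
      rw [Nat.beq_eq] at h1
      rcases h with (h | h) | h
      · exact ⟨t, List.mem_cons_self, Or.inl ⟨h1, Or.inl h.symm⟩⟩
      · exact ⟨t, List.mem_cons_self, Or.inl ⟨h1, Or.inr h.symm⟩⟩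
      · exact hrec h
    | false =>
      rw [h1, cond_false] at h
      cases h2 : Nat.beq t.2.1 c with
      | true =>
        rw [h2, cond_true, Nat.testBit_lor, Nat.testBit_lor, Bool.or_eq_true, Bool.or_eq_true,
          testBit_one_shiftLeft, testBit_one_shiftLeft] at h
        rw [Nat.beq_eq] at h2
        rcases h with (h | h) | h
        · exact ⟨t, List.mem_cons_self, Or.inr (Or.inl ⟨h2, Or.inl h.symm⟩)⟩
        · exact ⟨t, List.mem_cons_self, Or.inr (Or.inl ⟨h2, Or.inr h.symm⟩)⟩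
        · exact hrec h
      | false =>
        rw [h2, cond_false] at h
        cases h3 : Nat.beq t.2.2 c with
        | true =>
          rw [h3, cond_true, Nat.testBit_lor, Nat.testBit_lor, Bool.or_eq_true, Bool.or_eq_true,
            testBit_one_shiftLeft, testBit_one_shiftLeft] at h
          rw [Nat.beq_eq] at h3
          rcases h with (h | h) | h
          · exact ⟨t, List.mem_cons_self, Or.inr (Or.inr ⟨h3, Or.inl h.symm⟩)⟩
          · exact ⟨t, List.mem_cons_self, Or.inr (Or.inr ⟨h3, Or.inr h.symm⟩)⟩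
          · exact hrec h
        | false =>
          rw [h3, cond_false] at h
          exact hrec h

variable {V : Type} {G : SimpleGraph V} {T : V → V → V → Prop} {S : Finset V}

/-- The occurrence of a configuration fits the plan. -/
theorem fits_of_occ (P : Plan) {links : List (List ℕ)} {f : ℕ → V} (hT : TriLoc S G T)
    (hocc : Occ G T links P.a f) (hag : P.agree links = true) (haN : P.a ≤ P.N)
    (hinj : ∀ i j, i < P.N → j < P.N → f i = f j → i = j)
    (na : ∀ r s, P.a ≤ r → r < P.N → P.a ≤ s → s < P.N → P.fin.getD r 0 = P.fin.getD s 0 →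
      ¬ G.Adj (f r) (f s))
    (nc : ∀ r s v, P.a ≤ r → r < P.N → P.a ≤ s → s < P.N → r ≠ s →
      P.fin.getD r 0 = P.fin.getD s 0 → G.Adj v (f r) → G.Adj v (f s) → ∃ i, i < P.a ∧ f i = v)
    (nw : ∀ r r' s s', P.a ≤ r → r < P.N → P.a ≤ r' → r' < P.N → P.a ≤ s → s < P.N → P.a ≤ s' →
      s' < P.N → P.fin.getD r 0 = P.fin.getD r' 0 → P.fin.getD s 0 = P.fin.getD s' 0 →
      G.Adj (f r) (f s) → G.Adj (f r') (f s') → r = r' ∧ s = s')
    (nh : ∀ c ∈ P.chd, ∀ r s, P.a ≤ r → r < P.N → P.a ≤ s → s < P.N → P.fin.getD r 0 = c.1 →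
      P.fin.getD s 0 = c.2 → ¬ G.Adj (f r) (f s)) : P.Fits G T f := by
  unfold agree at hag
  simp only [Bool.and_eq_true] at hag
  obtain ⟨⟨⟨_, h2⟩, h3⟩, h4⟩ := hag
  rw [List.all_eq_true] at h2 h3 h4
  -- the triangles
  have htri : ∀ t ∈ P.tri, t.1 < P.N ∧ t.2.1 < P.N ∧ t.2.2 < P.N ∧
      T (f t.1) (f t.2.1) (f t.2.2) := by
    intro t ht
    have h5 := h2 t ht
    simp only [Bool.and_eq_true, Nat.blt_eq] at h5
    obtain ⟨⟨⟨h6, h7⟩, h8⟩, h9⟩ := h5
    refine ⟨by omega, h7, h8, ?_⟩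
    unfold nextTo at h9
    rw [List.any_eq_true] at h9
    obtain ⟨s, _, h9⟩ := h9
    simp only [Bool.or_eq_true, Bool.and_eq_true, Nat.beq_eq] at h9
    have h10 := (hocc t.1 h6).tri_next s
    beta_reduce at h10
    rcases h9 with ⟨e1, e2⟩ | ⟨e1, e2⟩
    · rw [e1, e2] at h10
      exact h10
    · rw [e1, e2] at h10
      exact hT.flip h10
  -- the labels in a list
  have hmem : ∀ i, i < P.a → ∀ v, G.Adj (f i) v → ∃ j ∈ lk links i, f j = v := by
    intro i hi v hv
    obtain ⟨t, ht, h5⟩ := ((hocc i hi).adj v).1 hv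
    refine ⟨lab (lk links i) t, ?_, h5⟩
    unfold lab
    rw [Nat.mod_eq_of_lt ht, List.getD_eq_getElem _ _ ht]
    exact List.getElem_mem ht
  have hlt : ∀ i, i < P.a → ∀ j ∈ lk links i, j < P.N ∧ (P.nb.getD i 0).testBit j = true ∧
      (P.nb.getD j 0).testBit i = true := by
    intro i hi j hj
    have h5 := h4 i (List.mem_range.2 hi)
    rw [List.all_eq_true] at h5
    have h6 := h5 j hj
    simp only [Bool.and_eq_true, Nat.blt_eq] at h6
    exact ⟨h6.1.1, h6.1.2, h6.2⟩
  refine ⟨hinj, ?_, ?_, ?_, htri, na, nc, nw, nh⟩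
  · intro i j hi hj hb
    have h5 := h3 i (List.mem_range.2 hi)
    rw [Nat.beq_eq] at h5
    rw [h5] at hb
    obtain ⟨t, ht, h6⟩ := triMask_sound _ _ _ hb
    have e := hT.adj2 (htri t ht).2.2.2
    rcases h6 with ⟨rfl, h7 | h7⟩ | ⟨rfl, h7 | h7⟩ | ⟨rfl, h7 | h7⟩
    · rw [← h7]
      exact e.1
    · rw [← h7]
      exact e.2.2.symm
    · rw [← h7]
      exact e.1.symm
    · rw [← h7]
      exact e.2.1
    · rw [← h7]
      exact e.2.2
    · rw [← h7]
      exact e.2.1.symm
  · intro i j hi hj hij hin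
    by_cases hia : i < P.a
    · obtain ⟨j', hj', h5⟩ := hmem i hia _ hij
      have h6 := hlt i hia j' hj'
      rw [hinj _ _ h6.1 hj h5] at h6
      exact h6.2.1
    · have hja : j < P.a := by omega
      obtain ⟨i', hi', h5⟩ := hmem j hja _ hij.symm
      have h6 := hlt j hja i' hi'
      rw [hinj _ _ h6.1 hi h5] at h6
      exact h6.2.2
  · intro i v hi hv
    obtain ⟨j, hj, h5⟩ := hmem i hi v hv
    exact ⟨j, (hlt i hi j hj).1, h5⟩

end Plan

end Pool.Agent.W986
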