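import Pool.Agent.W986.SubQCutDef

/-!
# Theorem Q: corners with one inner neighbour, and the contraction of an inner edge

Steps (2) and (4) of Theorem Q: they use only the contraction of one edge.
-/

set_option autoImplicit false

open Finset

namespace Pool.Agent.W986

section colour

variable {V : Type} [Finite V] [DecidableEq V] {G : SimpleGraph V} {o a k x : V} {M M' : Set V}
  {col : V → Fin 4} {i : Fin 4}

/-- A colouring of the graph without the corner `a` is extended to `a`. -/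
theorem MDef.ctr_extend (hoa : o ≠ a) (h : MDef (quot G (mv o a)) {o} M' col)
    (hi : ∀ u, u ≠ o → G.Adj a u → col u ≠ i) (hM : ∀ v ∈ M, v ≠ a → v ∈ M') :
    MDef G {o} M (Function.update col a i) := by
  intro v hv
  have hvo : v ≠ o := hv
  by_cases hva : v = a
  · subst hva
    have key : ∀ u, u ∉ ({o} : Set V) → G.Adj v u →
        Function.update col v i u ≠ Function.update col v i v := by
      intro u hu huv
      rw [Function.update_self, Function.update_of_ne huv.ne']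
      exact hi u hu huv
    refine ⟨?_, fun _ => key⟩
    have : {u | u ∉ ({o} : Set V) ∧ G.Adj v u ∧
        Function.update col v i u = Function.update col v i v} = ∅ := by
      rw [Set.eq_empty_iff_forall_notMem]
      rintro u ⟨h1, h2, h3⟩
      exact key u h1 h2 h3
    rw [this, Set.ncard_empty]
    exact Nat.zero_le _
  · have hcv : Function.update col a i v = col v := Function.update_of_ne hva _ _
    have key : ∀ u, u ∉ ({o} : Set V) → G.Adj v u → Function.update col a i u = col v →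
        (quot G (mv o a)).Adj v u ∧ col u = col v := by
      intro u hu huv hc
      have huo : u ≠ o := hu
      have hua : u ≠ a := by
        rintro rfl
        rw [Function.update_self] at hc
        exact hi v hvo huv.symm hc.symm
      rw [Function.update_of_ne hua] at hc
      exact ⟨(cadj_ne hvo hva).2 ⟨huv.ne, u, mv_ne hua, huv⟩, hc⟩
    obtain ⟨h1, h2⟩ := h v hv
    refine ⟨(Set.ncard_le_ncard ?_ (Set.toFinite _)).trans h1, ?_⟩
    · rintro u ⟨h3, h4, h5⟩
      rw [hcv] at h5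
      obtain ⟨h6, h7⟩ := key u h3 h4 h5
      exact ⟨h3, h6, h7⟩
    · intro hvM u h3 h4 h5
      rw [hcv] at h5
      obtain ⟨h6, h7⟩ := key u h3 h4 h5
      exact h2 (hM v hvM hva) u h3 h6 h7

/-- A colouring of the graph with the edge `kx` contracted: `k` and `x` become mates. -/
theorem MDef.unctr (hkx : G.Adj k x) (hko : k ≠ o) (hxo : x ≠ o)
    (h : MDef (quot G (mv k x)) {o} M' col) (hkM : k ∈ M')
    (hM : ∀ v ∈ M, v ≠ k ∧ v ≠ x ∧ v ∈ M') :
    MDef G {o} M (Function.update col x (col k)) := by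
  have hck : Function.update col x (col k) k = col k := Function.update_of_ne hkx.ne _ _
  have hcx : Function.update col x (col k) x = col k := Function.update_self _ _ _
  have hk2 := (h k hko).2 hkM
  have hadj : ∀ u, u ≠ x → u ≠ k → (G.Adj k u ∨ G.Adj x u) → (quot G (mv k x)).Adj k u := by
    intro u h1 h2 h3
    exact (cadj_x hkx.ne).2 ⟨h2, h1, h3⟩
  intro v hv
  have hvo : v ≠ o := hv
  by_cases hvk : v = k
  · subst hvk
    refine ⟨?_, fun hvM => absurd rfl (hM v hvM).1⟩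
    refine (Set.ncard_le_ncard (t := {x}) ?_ (Set.toFinite _)).trans (Set.ncard_singleton _).le
    rintro u ⟨h3, h4, h5⟩
    by_contra hux
    have hux : u ≠ x := hux
    rw [hck, Function.update_of_ne hux] at h5
    exact hk2 u h3 (hadj u hux h4.ne' (Or.inl h4)) h5
  · by_cases hvx : v = x
    · subst hvx
      refine ⟨?_, fun hvM => absurd rfl (hM v hvM).2.1⟩
      refine (Set.ncard_le_ncard (t := {k}) ?_ (Set.toFinite _)).trans (Set.ncard_singleton _).le
      rintro u ⟨h3, h4, h5⟩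
      by_contra huk
      have huk : u ≠ k := huk
      rw [hcx, Function.update_of_ne h4.ne'] at h5
      exact hk2 u h3 (hadj u h4.ne' huk (Or.inr h4)) h5
    · have hcv : Function.update col x (col k) v = col v := Function.update_of_ne hvx _ _
      have key : ∀ u, u ∉ ({o} : Set V) → G.Adj v u → Function.update col x (col k) u = col v →
          (quot G (mv k x)).Adj v u ∧ col u = col v := by
        intro u hu huv hc
        by_cases hux : u = x
        · subst hux
          rw [hcx] at hc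
          exact absurd hc.symm (hk2 v hv (hadj v hvx hvk (Or.inr huv.symm)))
        · rw [Function.update_of_ne hux] at hc
          exact ⟨(cadj_ne hvk hvx).2 ⟨huv.ne, u, mv_ne hux, huv⟩, hc⟩
      obtain ⟨h1, h2⟩ := h v hv
      refine ⟨(Set.ncard_le_ncard ?_ (Set.toFinite _)).trans h1, ?_⟩
      · rintro u ⟨h3, h4, h5⟩
        rw [hcv] at h5
        obtain ⟨h6, h7⟩ := key u h3 h4 h5
        exact ⟨h3, h6, h7⟩
      · intro hvM u h3 h4 h5
        rw [hcv] at h5
        obtain ⟨h6, h7⟩ := key u h3 h4 h5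
        exact h2 (hM v hvM).2.2 u h3 h6 h7

end colour

section apex

variable {V : Type} {S : Finset V} {G : SimpleGraph V} {T : V → V → V → Prop} {o a b c d q : V}

theorem Apex.adj_oa (h : Apex S G T o a b c d) : G.Adj o a := (h.nb a).2 (Or.inl rfl)

/-- In a disc without chords every corner has an inner neighbour. -/
theorem Apex.exists_inner (h : Apex S G T o a b c d) (hac : ¬ G.Adj a c) (hbd : ¬ G.Adj b d) :
    ∃ q, G.Adj a q ∧ q ≠ o ∧ q ≠ b ∧ q ≠ c ∧ q ≠ d ∧ T a b q := by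
  have hT : T a b o := h.tri.rot _ _ _ h.t1
  obtain ⟨p, r, hpr, k⟩ := h.tri.toTriLoc.two (h.tri.adj _ _ _ hT)
  obtain ⟨q, hqo, hq⟩ : ∃ q, q ≠ o ∧ T a b q := by
    have h1 := (k o).1 hT
    rcases h1 with rfl | rfl
    · exact ⟨r, hpr.symm, (k r).2 (Or.inr rfl)⟩
    · exact ⟨p, hpr, (k p).2 (Or.inl rfl)⟩
  have e := h.tri.toTriLoc.adj2 hq
  refine ⟨q, e.2.2.symm, hqo, e.2.1.ne', ?_, ?_, hq⟩
  · rintro rfl
    exact hac e.2.2.symm
  · rintro rfl
    exact hbd e.2.1

/-- The only inner neighbour of the corner `a` is `q`. -/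
def OneInner (G : SimpleGraph V) (o a b d q : V) : Prop :=
  G.Adj a q ∧ q ≠ o ∧ q ≠ b ∧ q ≠ d ∧ ∀ z, G.Adj a z → z = o ∨ z = b ∨ z = d ∨ z = q

theorem OneInner.symm (h : OneInner G o a b d q) : OneInner G o a d b q :=
  ⟨h.1, h.2.1, h.2.2.2.1, h.2.2.1, fun z hz => by have := h.2.2.2.2 z hz; tauto⟩

theorem OneInner.tri (hq : OneInner G o a b d q) (h : Apex S G T o a b c d) (hac : ¬ G.Adj a c)
    (hbd : ¬ G.Adj b d) : T a b q := by
  obtain ⟨q', h1, h2, h3, h4, h5, h6⟩ := h.exists_inner hac hbd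
  rcases hq.2.2.2.2 q' h1 with rfl | rfl | rfl | rfl
  · exact absurd rfl h2
  · exact absurd rfl h3
  · exact absurd rfl h5
  · exact h6

theorem Apex.card [DecidableEq V] (h : Apex S G T o a b c d) : 5 ≤ S.card := by
  have ho : G.Adj o a := h.adj_oa
  have hb : G.Adj o b := (h.nb b).2 (by tauto)
  have hc : G.Adj o c := (h.nb c).2 (by tauto)
  have hd : G.Adj o d := (h.nb d).2 (by tauto)
  have hsub : ({o, a, b, c, d} : Finset V) ⊆ S := by
    intro v hv
    simp only [mem_insert, mem_singleton] at hv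
    rcases hv with rfl | rfl | rfl | rfl | rfl
    · exact h.tri.mem _ _ ho
    · exact h.tri.mem _ _ ho.symm
    · exact h.tri.mem _ _ hb.symm
    · exact h.tri.mem _ _ hc.symm
    · exact h.tri.mem _ _ hd.symm
  have := card_le_card hsub
  rwa [card_insert_of_notMem (by simp [ho.ne, hb.ne, hc.ne, hd.ne]),
    card_insert_of_notMem (by simp [h.ab, h.ac, h.ad]),
    card_insert_of_notMem (by simp [h.bc, h.bd]), card_pair h.cd] at this

/-- Deleting a corner with one inner neighbour. -/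
theorem Apex.corner [Finite V] [DecidableEq V] (h : Apex S G T o a b c d) (hac : ¬ G.Adj a c)
    (hbd : ¬ G.Adj b d) (hq : OneInner G o a b d q) :
    Apex (S.erase a) (quot G (mv o a)) (quotT T (mv o a)) o q b c d ∧
      (∀ u v, u ≠ o → u ≠ a → v ≠ o → v ≠ a → ((quot G (mv o a)).Adj u v ↔ G.Adj u v)) := by
  have hoa : G.Adj o a := h.adj_oa
  have t1 : T a b q := hq.tri h hac hbd
  have t2 : T a d q := hq.symm.tri h.refl hac (fun h1 => hbd h1.symm)
  have hqc : q ≠ c := by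
    rintro rfl
    exact hac hq.1
  have hoq : o ≠ q := hq.2.1.symm
  have hqa : q ≠ a := hq.1.ne'
  have nob : o ≠ b := ((h.nb b).2 (by tauto)).ne
  have noc : o ≠ c := ((h.nb c).2 (by tauto)).ne
  have nod : o ≠ d := ((h.nb d).2 (by tauto)).ne
  have hkeep : ∀ {u v w : V}, u ≠ v → v ≠ w → w ≠ u → ∀ {u' v' w' : V}, mv o a u' = u →
      mv o a v' = v → mv o a w' = w → T u' v' w' → quotT T (mv o a) u v w :=
    fun h1 h2 h3 _ _ _ e1 e2 e3 hT => ⟨h1, h2, h3, _, _, _, e1, e2, e3, hT⟩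
  have hL := h.tri.toTriLoc
  refine ⟨⟨h.tri.contract h.card hoa ?_, ?_, hq.2.2.1, hqc, hq.2.2.2.1, h.bc, h.bd, h.cd, ?_, ?_,
    ?_, ?_⟩, ?_⟩
  · intro z hz1 hz2
    rcases (h.nb z).1 hz1 with rfl | rfl | rfl | rfl
    · exact absurd rfl hz2.ne
    · exact h.t1
    · exact absurd hz2 hac
    · exact hL.flip h.t4
  · intro y
    rw [cadj_x hoa.ne, h.nb]
    constructor
    · rintro ⟨h1, h2, h3 | h3⟩
      · rcases h3 with rfl | rfl | rfl | rfl <;> tauto
      · rcases hq.2.2.2.2 y h3 with rfl | rfl | rfl | rfl <;> tauto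
    · rintro (rfl | rfl | rfl | rfl)
      · exact ⟨hq.2.1, hqa, Or.inr hq.1⟩
      · exact ⟨nob.symm, h.ab.symm, by tauto⟩
      · exact ⟨noc.symm, h.ac.symm, by tauto⟩
      · exact ⟨nod.symm, h.ad.symm, by tauto⟩
  · exact hkeep hoq hq.2.2.1 nob.symm mv_self (mv_ne hqa) (mv_ne h.ab.symm) (hL.flip t1)
  · exact hkeep nob h.bc noc.symm mv_fix (mv_ne h.ab.symm) (mv_ne h.ac.symm) h.t2
  · exact hkeep noc h.cd nod.symm mv_fix (mv_ne h.ac.symm) (mv_ne h.ad.symm) h.t3
  · exact hkeep nod hq.2.2.2.1.symm hoq.symm mv_self (mv_ne h.ad.symm) (mv_ne hqa) t2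
  · intro u v hu hua hv hva
    rw [cadj_ne hu hua]
    constructor
    · rintro ⟨_, w, hw, h3⟩
      rw [← eq_of_mv hw hv]
      exact h3
    · intro h3
      exact ⟨h3.ne, v, mv_ne hva, h3⟩

/-- A vertex with four neighbours. -/
theorem TriLoc.fan_four (h : TriLoc S G T) {v p q r s : V} (h1 : T v p q) (h2 : T v q r)
    (h3 : T v r s) (h4 : T v s p) (hpr : p ≠ r) (hqs : q ≠ s) {z : V} (hz : G.Adj v z) :
    z = p ∨ z = q ∨ z = r ∨ z = s := by
  by_contra hcon
  push Not at hcon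
  obtain ⟨a, b, ha, hb, hT⟩ := h.split ({p, q, r, s} : Set V) (h.adj _ _ _ h1) (by simp) hz
    (by simp [hcon.1, hcon.2.1, hcon.2.2.1, hcon.2.2.2])
  simp only [Set.mem_insert_iff, Set.mem_singleton_iff, not_or] at ha hb
  rcases ha with rfl | rfl | rfl | rfl
  · rcases h.two_pair h1 (h.flip h4) hqs hT with h5 | h5
    · exact hb.2.1 h5
    · exact hb.2.2.2 h5
  · rcases h.two_pair (h.flip h1) h2 hpr hT with h5 | h5
    · exact hb.1 h5
    · exact hb.2.2.1 h5
  · rcases h.two_pair (h.flip h2) h3 hqs hT with h5 | h5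
    · exact hb.2.1 h5
    · exact hb.2.2.2 h5
  · rcases h.two_pair (h.flip h3) h4 hpr.symm hT with h5 | h5
    · exact hb.2.2.1 h5
    · exact hb.1 h5

/-- A set of vertices which is closed under adjacency is everything. -/
theorem TriLoc.closed_all (h : TriLoc S G T) (A : Set V) {x : V} (hx : x ∈ A) (hxS : x ∈ S)
    (hcl : ∀ u ∈ A, ∀ v, G.Adj u v → v ∈ A) : ∀ v ∈ S, v ∈ A := by
  intro v hv
  obtain ⟨p⟩ := h.conn x hxS v hv
  have key : ∀ u w : V, G.Walk u w → u ∈ A → w ∈ A := by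
    intro u w p
    induction p with
    | nil => exact id
    | cons hadj _ ih => exact fun hu => ih (hcl _ hu _ hadj)
  exact key _ _ p hx

/-- The disc with one inner vertex, adjacent to the four corners. -/
theorem Apex.wheel [Finite V] [DecidableEq V] (h : Apex S G T o a b c d)
    (hface : ∀ x y z, x ≠ o → y ≠ o → z ≠ o → G.Adj x y → G.Adj y z → G.Adj z x → T x y z)
    (hqo : q ≠ o) (hqa : G.Adj q a) (hqb : G.Adj q b) (hqc : G.Adj q c) (hqd : G.Adj q d)
    {i j k l : Fin 4} (hij : i ≠ j) (hik : i ≠ k) (hil : i ≠ l) (hjk : j ≠ k) (hjl : j ≠ l)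
    (hkl : k ≠ l) :
    ∃ col : V → Fin 4, MDef G {o} {b, c, d} col ∧ col a = i ∧ col b = j ∧ col c = k ∧
      col d = l := by
  have hL := h.tri.toTriLoc
  have nao : a ≠ o := ((h.nb a).2 (by tauto)).ne'
  have nbo : b ≠ o := ((h.nb b).2 (by tauto)).ne'
  have nco : c ≠ o := ((h.nb c).2 (by tauto)).ne'
  have ndo : d ≠ o := ((h.nb d).2 (by tauto)).ne'
  have eab := (hL.adj2 h.t1).2.1
  have ebc := (hL.adj2 h.t2).2.1
  have ecd := (hL.adj2 h.t3).2.1
  have eda := (hL.adj2 h.t4).2.1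
  have f1 : T q a b := hface _ _ _ hqo nao nbo hqa eab hqb.symm
  have f2 : T q b c := hface _ _ _ hqo nbo nco hqb ebc hqc.symm
  have f3 : T q c d := hface _ _ _ hqo nco ndo hqc ecd hqd.symm
  have f4 : T q d a := hface _ _ _ hqo ndo nao hqd eda hqa.symm
  have r := hL.rot
  have r2 : ∀ {x y z : V}, T x y z → T y z x := fun h1 => r _ _ _ h1
  have r3 : ∀ {x y z : V}, T x y z → T z x y := fun h1 => r _ _ _ (r _ _ _ h1)
  have fl : ∀ {x y z : V}, T x y z → T x z y := fun h1 => hL.flip h1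
  have Nq : ∀ z, G.Adj q z → z = a ∨ z = b ∨ z = c ∨ z = d := fun z hz =>
    hL.fan_four f1 f2 f3 f4 h.ac h.bd hz
  have Na : ∀ z, G.Adj a z → z = o ∨ z = b ∨ z = q ∨ z = d := fun z hz =>
    hL.fan_four (fl (r2 h.t1)) (r2 f1) (r3 f4) (fl (r3 h.t4)) hqo.symm h.bd hz
  have Nb : ∀ z, G.Adj b z → z = o ∨ z = c ∨ z = q ∨ z = a := fun z hz =>
    hL.fan_four (fl (r2 h.t2)) (r2 f2) (r3 f1) (fl (r3 h.t1)) hqo.symm h.ac.symm hz
  have Nc : ∀ z, G.Adj c z → z = o ∨ z = d ∨ z = q ∨ z = b := fun z hz =>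
    hL.fan_four (fl (r2 h.t3)) (r2 f3) (r3 f2) (fl (r3 h.t2)) hqo.symm h.bd.symm hz
  have Nd : ∀ z, G.Adj d z → z = o ∨ z = a ∨ z = q ∨ z = c := fun z hz =>
    hL.fan_four (fl (r2 h.t4)) (r2 f4) (r3 f3) (fl (r3 h.t3)) hqo.symm h.ac hz
  have hall := hL.closed_all ({o, a, b, c, d, q} : Set V) (x := o) (by simp)
    (hL.mem _ _ h.adj_oa) (by
      intro u hu v huv
      simp only [Set.mem_insert_iff, Set.mem_singleton_iff] at hu ⊢
      rcases hu with rfl | rfl | rfl | rfl | rfl | rfl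
      · have := (h.nb v).1 huv
        tauto
      · have := Na v huv
        tauto
      · have := Nb v huv
        tauto
      · have := Nc v huv
        tauto
      · have := Nd v huv
        tauto
      · have := Nq v huv
        tauto)
  let col : V → Fin 4 := fun v => if v = b then j else if v = c then k else if v = d then l else i
  have cb : col b = j := if_pos rfl
  have cc : col c = k := by simp [col, h.bc.symm]
  have cd : col d = l := by simp [col, h.bd.symm, h.cd.symm]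
  have ca : col a = i := by simp [col, h.ab, h.ac, h.ad]
  have cq : col q = i := by simp [col, hqb.ne, hqc.ne, hqd.ne]
  have key : ∀ v u, v ≠ o → u ≠ o → G.Adj v u → col u = col v →
      (v = a ∧ u = q) ∨ (v = q ∧ u = a) := by
    intro v u hv hu huv hc
    have hvS := hall v (hL.mem _ _ huv)
    simp only [Set.mem_insert_iff, Set.mem_singleton_iff] at hvS
    rcases hvS with rfl | rfl | rfl | rfl | rfl | rfl
    · exact absurd rfl hv
    · rcases Na u huv with rfl | rfl | rfl | rfl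
      · exact absurd rfl hu
      · rw [ca, cb] at hc
        exact absurd hc.symm hij
      · exact Or.inl ⟨rfl, rfl⟩
      · rw [ca, cd] at hc
        exact absurd hc.symm hil
    · rcases Nb u huv with rfl | rfl | rfl | rfl
      · exact absurd rfl hu
      · rw [cb, cc] at hc
        exact absurd hc.symm hjk
      · rw [cb, cq] at hc
        exact absurd hc hij
      · rw [cb, ca] at hc
        exact absurd hc hij
    · rcases Nc u huv with rfl | rfl | rfl | rfl
      · exact absurd rfl hu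
      · rw [cc, cd] at hc
        exact absurd hc.symm hkl
      · rw [cc, cq] at hc
        exact absurd hc hik
      · rw [cc, cb] at hc
        exact absurd hc hjk
    · rcases Nd u huv with rfl | rfl | rfl | rfl
      · exact absurd rfl hu
      · rw [cd, ca] at hc
        exact absurd hc hil
      · rw [cd, cq] at hc
        exact absurd hc hil
      · rw [cd, cc] at hc
        exact absurd hc hkl
    · rcases Nq u huv with rfl | rfl | rfl | rfl
      · exact Or.inr ⟨rfl, rfl⟩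
      · rw [cb, cq] at hc
        exact absurd hc.symm hij
      · rw [cc, cq] at hc
        exact absurd hc.symm hik
      · rw [cd, cq] at hc
        exact absurd hc.symm hil
  refine ⟨col, ?_, ca, cb, cc, cd⟩
  intro v hv
  constructor
  · refine (Set.ncard_le_ncard (t := {if v = a then q else a}) ?_ (Set.toFinite _)).trans
      (Set.ncard_singleton _).le
    rintro u ⟨h1, h2, h3⟩
    rcases key v u hv h1 h2 h3 with ⟨rfl, rfl⟩ | ⟨rfl, rfl⟩
    · simp
    · simp [hqa.ne]
  · intro hvM u h1 h2 h3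
    simp only [Set.mem_insert_iff, Set.mem_singleton_iff] at hvM
    rcases key v u hv h1 h2 h3 with ⟨rfl, rfl⟩ | ⟨rfl, rfl⟩
    · rcases hvM with e | e | e
      · exact h.ab e
      · exact h.ac e
      · exact h.ad e
    · rcases hvM with e | e | e
      · exact hqb.ne e
      · exact hqc.ne e
      · exact hqd.ne e

end apex

/-! ### The corner steps -/

section corners

theorem fourth_colour (i j k : Fin 4) : ∃ l : Fin 4, l ≠ i ∧ l ≠ j ∧ l ≠ k := by
  revert i j k
  decide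

variable {V : Type} [Fintype V] [DecidableEq V] {S : Finset V} {G : SimpleGraph V}
  {T : V → V → V → Prop} {o a b c d q : V} {n : ℕ}

omit [Fintype V] in
theorem Apex.erase_card (h : Apex S G T o a b c d) (hn : S.card ≤ n + 1) :
    (S.erase a).card ≤ n := by
  rw [card_erase_of_mem (h.tri.mem _ _ h.adj_oa.symm)]
  omega

/-- Pattern 1: a corner with one inner neighbour. -/
theorem corner_Q1a (hQ2 : Q2 n) (h : Apex S G T o a b c d) (hn : S.card ≤ n + 1)
    (hac : ¬ G.Adj a c) (hbd : ¬ G.Adj b d) (hq : OneInner G o a b d q) {i j : Fin 4}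
    (hij : i ≠ j) :
    ∃ col : V → Fin 4, MDef G {o} {a, b, c, d} col ∧ col a = i ∧ col b = j ∧ col c = i ∧
      col d = j := by
  obtain ⟨A, hk⟩ := h.corner hac hbd hq
  obtain ⟨l, hli, hlj, -⟩ := fourth_colour i j i
  have nbo : b ≠ o := ((h.nb b).2 (by tauto)).ne'
  have ndo : d ≠ o := ((h.nb d).2 (by tauto)).ne'
  obtain ⟨col, h1, c1, c2, c3, c4⟩ := hQ2 V _ _ _ _ _ _ _ _ (h.erase_card hn) A.turn
    (by rw [hk _ _ nbo h.ab.symm ndo h.ad.symm]; exact hbd) j i l hij.symm hlj.symm hli.symm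
  refine ⟨Function.update col a i, MDef.ctr_extend h.adj_oa.ne h1 ?_ ?_, Function.update_self _ _ _,
    ?_, ?_, ?_⟩
  · intro u hu hau
    rcases hq.2.2.2.2 u hau with rfl | rfl | rfl | rfl
    · exact absurd rfl hu
    · rw [c1]
      exact hij.symm
    · rw [c3]
      exact hij.symm
    · rw [c4]
      exact hli
  · intro v hv hva
    simp only [Set.mem_insert_iff, Set.mem_singleton_iff] at hv ⊢
    tauto
  · rw [Function.update_of_ne h.ab.symm, c1]
  · rw [Function.update_of_ne h.ac.symm, c2]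
  · rw [Function.update_of_ne h.ad.symm, c3]

/-- Pattern 2: a corner of the equal pair with one inner neighbour. -/
theorem corner_Q2a (hQ3 : Q3 n) (h : Apex S G T o a b c d) (hn : S.card ≤ n + 1)
    (hac : ¬ G.Adj a c) (hbd : ¬ G.Adj b d) (hq : OneInner G o a b d q) {i j k : Fin 4}
    (hij : i ≠ j) (hik : i ≠ k) (hjk : j ≠ k) :
    ∃ col : V → Fin 4, MDef G {o} {a, b, c, d} col ∧ col a = i ∧ col b = j ∧ col c = i ∧
      col d = k := by
  obtain ⟨A, hk⟩ := h.corner hac hbd hq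
  obtain ⟨l, hli, hlj, hlk⟩ := fourth_colour i j k
  obtain ⟨col, h1, c1, c2, c3, c4⟩ := hQ3 V _ _ _ _ _ _ _ _ (h.erase_card hn) A l j i k hlj hli
    hlk hij.symm hjk hik
  refine ⟨Function.update col a i, MDef.ctr_extend h.adj_oa.ne h1 ?_ ?_, Function.update_self _ _ _,
    ?_, ?_, ?_⟩
  · intro u hu hau
    rcases hq.2.2.2.2 u hau with rfl | rfl | rfl | rfl
    · exact absurd rfl hu
    · rw [c2]
      exact hij.symm
    · rw [c4]
      exact hik.symm
    · rw [c1]
      exact hli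
  · intro v hv hva
    simp only [Set.mem_insert_iff, Set.mem_singleton_iff] at hv ⊢
    tauto
  · rw [Function.update_of_ne h.ab.symm, c2]
  · rw [Function.update_of_ne h.ac.symm, c3]
  · rw [Function.update_of_ne h.ad.symm, c4]

/-- Pattern 2: a corner of the unequal pair with one inner neighbour. -/
theorem corner_Q2b (hQ2 : Q2 n) (h : Apex S G T o a b c d) (hn : S.card ≤ n + 1)
    (hac : ¬ G.Adj a c) (hbd : ¬ G.Adj b d) (hq : OneInner G o b c a q) {i j k : Fin 4}
    (hij : i ≠ j) (hik : i ≠ k) (hjk : j ≠ k) :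
    ∃ col : V → Fin 4, MDef G {o} {a, b, c, d} col ∧ col a = i ∧ col b = j ∧ col c = i ∧
      col d = k := by
  obtain ⟨A, hk⟩ := h.turn.corner hbd (fun h1 => hac h1.symm) hq
  obtain ⟨l, hli, hlj, hlk⟩ := fourth_colour i j k
  have nao : a ≠ o := ((h.nb a).2 (by tauto)).ne'
  have nco : c ≠ o := ((h.nb c).2 (by tauto)).ne'
  obtain ⟨col, h1, c1, c2, c3, c4⟩ := hQ2 V _ _ _ _ _ _ _ _ (h.turn.erase_card hn) A.turn
    (by rw [hk _ _ nco h.bc.symm nao h.ab]; exact fun h1 => hac h1.symm) i k l hik hli.symm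
    hlk.symm
  refine ⟨Function.update col b j, MDef.ctr_extend h.turn.adj_oa.ne h1 ?_ ?_, ?_,
    Function.update_self _ _ _, ?_, ?_⟩
  · intro u hu hau
    rcases hq.2.2.2.2 u hau with rfl | rfl | rfl | rfl
    · exact absurd rfl hu
    · rw [c1]
      exact hij
    · rw [c3]
      exact hij
    · rw [c4]
      exact hlj
  · intro v hv hva
    simp only [Set.mem_insert_iff, Set.mem_singleton_iff] at hv ⊢
    tauto
  · rw [Function.update_of_ne h.ab, c3]
  · rw [Function.update_of_ne h.bc.symm, c1]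
  · rw [Function.update_of_ne h.bd.symm, c2]

variable (hface : ∀ x y z, x ≠ o → y ≠ o → z ≠ o → G.Adj x y → G.Adj y z → G.Adj z x → T x y z)

include hface in
/-- Pattern 3: the free corner has one inner neighbour. -/
theorem corner_Q3a (hQ2 : Q2 n) (h : Apex S G T o a b c d) (hn : S.card ≤ n + 1)
    (hac : ¬ G.Adj a c) (hbd : ¬ G.Adj b d) (hq : OneInner G o a b d q) {i j k l : Fin 4}
    (hij : i ≠ j) (hik : i ≠ k) (hil : i ≠ l) (hjk : j ≠ k) (hjl : j ≠ l) (hkl : k ≠ l) :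
    ∃ col : V → Fin 4, MDef G {o} {b, c, d} col ∧ col a = i ∧ col b = j ∧ col c = k ∧
      col d = l := by
  have hL := h.tri.toTriLoc
  by_cases hqc : G.Adj q c
  · exact h.wheel hface hq.2.1 hq.1.symm (hL.adj2 (hq.tri h hac hbd)).2.1.symm hqc
      (hL.adj2 (hq.symm.tri h.refl hac (fun h1 => hbd h1.symm))).2.1.symm hij hik hil hjk hjl hkl
  obtain ⟨A, hk⟩ := h.corner hac hbd hq
  have nco : c ≠ o := ((h.nb c).2 (by tauto)).ne'
  obtain ⟨col, h1, c1, c2, c3, c4⟩ := hQ2 V _ _ _ _ _ _ _ _ (h.erase_card hn) A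
    (by rw [hk _ _ hq.2.1 hq.1.ne' nco h.ac.symm]; exact hqc) k j l hjk.symm hkl hjl
  refine ⟨Function.update col a i, MDef.ctr_extend h.adj_oa.ne h1 ?_ ?_, Function.update_self _ _ _,
    ?_, ?_, ?_⟩
  · intro u hu hau
    rcases hq.2.2.2.2 u hau with rfl | rfl | rfl | rfl
    · exact absurd rfl hu
    · rw [c2]
      exact hij.symm
    · rw [c4]
      exact hil.symm
    · rw [c1]
      exact hik.symm
  · intro v hv hva
    simp only [Set.mem_insert_iff, Set.mem_singleton_iff] at hv ⊢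
    tauto
  · rw [Function.update_of_ne h.ab.symm, c2]
  · rw [Function.update_of_ne h.ac.symm, c3]
  · rw [Function.update_of_ne h.ad.symm, c4]

include hface in
/-- Pattern 3: a neighbour of the free corner has one inner neighbour. -/
theorem corner_Q3b (hQ2 : Q2 n) (h : Apex S G T o a b c d) (hn : S.card ≤ n + 1)
    (hac : ¬ G.Adj a c) (hbd : ¬ G.Adj b d) (hq : OneInner G o b c a q) {i j k l : Fin 4}
    (hij : i ≠ j) (hik : i ≠ k) (hil : i ≠ l) (hjk : j ≠ k) (hjl : j ≠ l) (hkl : k ≠ l) :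
    ∃ col : V → Fin 4, MDef G {o} {b, c, d} col ∧ col a = i ∧ col b = j ∧ col c = k ∧
      col d = l := by
  have hL := h.tri.toTriLoc
  have hca : ¬ G.Adj c a := fun h1 => hac h1.symm
  by_cases hqd : G.Adj q d
  · exact h.wheel hface hq.2.1 (hL.adj2 (hq.symm.tri h.turn.refl hbd (fun h1 => hac h1))).2.1.symm
      hq.1.symm (hL.adj2 (hq.tri h.turn hbd hca)).2.1.symm hqd hij hik hil hjk hjl hkl
  obtain ⟨A, hk⟩ := h.turn.corner hbd hca hq
  have ndo : d ≠ o := ((h.nb d).2 (by tauto)).ne'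
  obtain ⟨col, h1, c1, c2, c3, c4⟩ := hQ2 V _ _ _ _ _ _ _ _ (h.turn.erase_card hn) A
    (by rw [hk _ _ hq.2.1 hq.1.ne' ndo h.bd.symm]; exact hqd) l k i hkl.symm hil.symm hik.symm
  refine ⟨Function.update col b j, MDef.ctr_extend h.turn.adj_oa.ne h1 ?_ ?_, ?_,
    Function.update_self _ _ _, ?_, ?_⟩
  · intro u hu hau
    rcases hq.2.2.2.2 u hau with rfl | rfl | rfl | rfl
    · exact absurd rfl hu
    · rw [c2]
      exact hjk.symm
    · rw [c4]
      exact hij
    · rw [c1]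
      exact hjl.symm
  · intro v hv hva
    simp only [Set.mem_insert_iff, Set.mem_singleton_iff] at hv ⊢
    tauto
  · rw [Function.update_of_ne h.ab, c4]
  · rw [Function.update_of_ne h.bc.symm, c2]
  · rw [Function.update_of_ne h.bd.symm, c3]

include hface in
/-- Pattern 3: the corner opposite to the free corner has one inner neighbour. -/
theorem corner_Q3c (hQ2 : Q2 n) (h : Apex S G T o a b c d) (hn : S.card ≤ n + 1)
    (hac : ¬ G.Adj a c) (hbd : ¬ G.Adj b d) (hq : OneInner G o c d b q) {i j k l : Fin 4}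
    (hij : i ≠ j) (hik : i ≠ k) (hil : i ≠ l) (hjk : j ≠ k) (hjl : j ≠ l) (hkl : k ≠ l) :
    ∃ col : V → Fin 4, MDef G {o} {b, c, d} col ∧ col a = i ∧ col b = j ∧ col c = k ∧
      col d = l := by
  have hL := h.tri.toTriLoc
  have hca : ¬ G.Adj c a := fun h1 => hac h1.symm
  have hdb : ¬ G.Adj d b := fun h1 => hbd h1.symm
  by_cases hqa : G.Adj q a
  · exact h.wheel hface hq.2.1 hqa (hL.adj2 (hq.symm.tri h.turn.turn.refl hca hbd)).2.1.symm
      hq.1.symm (hL.adj2 (hq.tri h.turn.turn hca hdb)).2.1.symm hij hik hil hjk hjl hkl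
  obtain ⟨A, hk⟩ := h.turn.turn.corner hca hdb hq
  have nao : a ≠ o := ((h.nb a).2 (by tauto)).ne'
  obtain ⟨col, h1, c1, c2, c3, c4⟩ := hQ2 V _ _ _ _ _ _ _ _ (h.turn.turn.erase_card hn) A
    (by rw [hk _ _ hq.2.1 hq.1.ne' nao h.ac]; exact hqa) i l j hil hij hjl.symm
  refine ⟨Function.update col c k, MDef.ctr_extend h.turn.turn.adj_oa.ne h1 ?_ ?_, ?_, ?_,
    Function.update_self _ _ _, ?_⟩
  · intro u hu hau
    rcases hq.2.2.2.2 u hau with rfl | rfl | rfl | rfl
    · exact absurd rfl hu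
    · rw [c2]
      exact hkl.symm
    · rw [c4]
      exact hjk
    · rw [c1]
      exact hik
  · intro v hv hva
    simp only [Set.mem_insert_iff, Set.mem_singleton_iff] at hv ⊢
    tauto
  · rw [Function.update_of_ne h.ac, c3]
  · rw [Function.update_of_ne h.bc, c4]
  · rw [Function.update_of_ne h.cd.symm, c2]

omit [DecidableEq V] in
/-- A corner of degree at most four has one inner neighbour. -/
theorem Apex.oneInner (h : Apex S G T o a b c d) (hac : ¬ G.Adj a c) (hbd : ¬ G.Adj b d)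
    (hdeg : {y | G.Adj a y}.ncard ≤ 4) : ∃ q, OneInner G o a b d q := by
  obtain ⟨q, h1, h2, h3, _, h5, _⟩ := h.exists_inner hac hbd
  refine ⟨q, h1, h2, h3, h5, ?_⟩
  have hsub : ({o, b, d, q} : Set V) ⊆ {y | G.Adj a y} := by
    intro z hz
    simp only [Set.mem_insert_iff, Set.mem_singleton_iff] at hz
    rcases hz with rfl | rfl | rfl | rfl
    · exact h.oa.symm
    · exact h.adj_ab
    · exact h.adj_da.symm
    · exact h1
  have hcard : ({o, b, d, q} : Set V).ncard = 4 := by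
    rw [Set.ncard_insert_of_notMem, Set.ncard_insert_of_notMem, Set.ncard_pair h5.symm]
    · simp [h.bd, h3.symm]
    · simp [h.ob.ne, h.od.ne, h2.symm]
  have heq := Set.eq_of_subset_of_ncard_le hsub (by rw [hcard]; exact hdeg) (Set.toFinite _)
  intro z hz
  have hz' : z ∈ ({o, b, d, q} : Set V) := by
    rw [heq]
    exact hz
  simpa using hz'

/-- Pattern 1: a corner of degree at most four. -/
theorem corner_Q1 (hQ2 : Q2 n) (h : Apex S G T o a b c d) (hn : S.card ≤ n + 1)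
    (hac : ¬ G.Adj a c) (hbd : ¬ G.Adj b d)
    (hdeg : {y | G.Adj a y}.ncard ≤ 4 ∨ {y | G.Adj b y}.ncard ≤ 4 ∨ {y | G.Adj c y}.ncard ≤ 4 ∨
      {y | G.Adj d y}.ncard ≤ 4) {i j : Fin 4} (hij : i ≠ j) :
    ∃ col : V → Fin 4, MDef G {o} {a, b, c, d} col ∧ col a = i ∧ col b = j ∧ col c = i ∧
      col d = j := by
  have hca : ¬ G.Adj c a := fun h1 => hac h1.symm
  have hdb : ¬ G.Adj d b := fun h1 => hbd h1.symm
  rcases hdeg with hd | hd | hd | hd
  · obtain ⟨q, hq⟩ := h.oneInner hac hbd hd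
    exact corner_Q1a hQ2 h hn hac hbd hq hij
  · obtain ⟨q, hq⟩ := h.turn.oneInner hbd hca hd
    obtain ⟨col, h1, h2, h3, h4, h5⟩ := corner_Q1a hQ2 h.turn hn hbd hca hq hij.symm
    exact ⟨col, h1.mono (by intro v; simp only [Set.mem_insert_iff, Set.mem_singleton_iff]; tauto),
      h5, h2, h3, h4⟩
  · obtain ⟨q, hq⟩ := h.turn.turn.oneInner hca hdb hd
    obtain ⟨col, h1, h2, h3, h4, h5⟩ := corner_Q1a hQ2 h.turn.turn hn hca hdb hq hij
    exact ⟨col, h1.mono (by intro v; simp only [Set.mem_insert_iff, Set.mem_singleton_iff]; tauto),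
      h4, h5, h2, h3⟩
  · obtain ⟨q, hq⟩ := h.turn.turn.turn.oneInner hdb hac hd
    obtain ⟨col, h1, h2, h3, h4, h5⟩ := corner_Q1a hQ2 h.turn.turn.turn hn hdb hac hq hij.symm
    exact ⟨col, h1.mono (by intro v; simp only [Set.mem_insert_iff, Set.mem_singleton_iff]; tauto),
      h3, h4, h5, h2⟩

/-- Pattern 2: a corner of degree at most four. -/
theorem corner_Q2 (hQ2 : Q2 n) (hQ3 : Q3 n) (h : Apex S G T o a b c d) (hn : S.card ≤ n + 1)
    (hac : ¬ G.Adj a c) (hbd : ¬ G.Adj b d)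
    (hdeg : {y | G.Adj a y}.ncard ≤ 4 ∨ {y | G.Adj b y}.ncard ≤ 4 ∨ {y | G.Adj c y}.ncard ≤ 4 ∨
      {y | G.Adj d y}.ncard ≤ 4) {i j k : Fin 4} (hij : i ≠ j) (hik : i ≠ k) (hjk : j ≠ k) :
    ∃ col : V → Fin 4, MDef G {o} {a, b, c, d} col ∧ col a = i ∧ col b = j ∧ col c = i ∧
      col d = k := by
  have hca : ¬ G.Adj c a := fun h1 => hac h1.symm
  have hdb : ¬ G.Adj d b := fun h1 => hbd h1.symm
  rcases hdeg with hd | hd | hd | hd
  · obtain ⟨q, hq⟩ := h.oneInner hac hbd hd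
    exact corner_Q2a hQ3 h hn hac hbd hq hij hik hjk
  · obtain ⟨q, hq⟩ := h.turn.oneInner hbd hca hd
    exact corner_Q2b hQ2 h hn hac hbd hq hij hik hjk
  · obtain ⟨q, hq⟩ := h.turn.turn.oneInner hca hdb hd
    obtain ⟨col, h1, h2, h3, h4, h5⟩ := corner_Q2a hQ3 h.turn.turn hn hca hdb hq hik hij hjk.symm
    exact ⟨col, h1.mono (by intro v; simp only [Set.mem_insert_iff, Set.mem_singleton_iff]; tauto),
      h4, h5, h2, h3⟩
  · obtain ⟨q, hq⟩ := h.turn.turn.turn.oneInner hdb hac hd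
    obtain ⟨col, h1, h2, h3, h4, h5⟩ := corner_Q2b hQ2 h.turn.turn hn hca hdb hq hik hij hjk.symm
    exact ⟨col, h1.mono (by intro v; simp only [Set.mem_insert_iff, Set.mem_singleton_iff]; tauto),
      h4, h5, h2, h3⟩

/-- Pattern 3: a corner of degree at most four. -/
theorem corner_Q3 (hface : ∀ x y z, x ≠ o → y ≠ o → z ≠ o → G.Adj x y → G.Adj y z → G.Adj z x →
      T x y z) (hQ2 : Q2 n) (h : Apex S G T o a b c d) (hn : S.card ≤ n + 1)
    (hac : ¬ G.Adj a c) (hbd : ¬ G.Adj b d)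
    (hdeg : {y | G.Adj a y}.ncard ≤ 4 ∨ {y | G.Adj b y}.ncard ≤ 4 ∨ {y | G.Adj c y}.ncard ≤ 4 ∨
      {y | G.Adj d y}.ncard ≤ 4) {i j k l : Fin 4}
    (hij : i ≠ j) (hik : i ≠ k) (hil : i ≠ l) (hjk : j ≠ k) (hjl : j ≠ l) (hkl : k ≠ l) :
    ∃ col : V → Fin 4, MDef G {o} {b, c, d} col ∧ col a = i ∧ col b = j ∧ col c = k ∧
      col d = l := by
  have hca : ¬ G.Adj c a := fun h1 => hac h1.symm
  have hdb : ¬ G.Adj d b := fun h1 => hbd h1.symm
  rcases hdeg with hd | hd | hd | hd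
  · obtain ⟨q, hq⟩ := h.oneInner hac hbd hd
    exact corner_Q3a hface hQ2 h hn hac hbd hq hij hik hil hjk hjl hkl
  · obtain ⟨q, hq⟩ := h.turn.oneInner hbd hca hd
    exact corner_Q3b hface hQ2 h hn hac hbd hq hij hik hil hjk hjl hkl
  · obtain ⟨q, hq⟩ := h.turn.turn.oneInner hca hdb hd
    exact corner_Q3c hface hQ2 h hn hac hbd hq hij hik hil hjk hjl hkl
  · obtain ⟨q, hq⟩ := h.turn.turn.turn.oneInner hdb hac hd
    obtain ⟨col, h1, h2, h3, h4, h5⟩ := corner_Q3b hface hQ2 h.refl hn hac hdb hq.symm hil hik hij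
      hkl.symm hjl.symm hjk.symm
    exact ⟨col, h1.mono (by intro v; simp only [Set.mem_insert_iff, Set.mem_singleton_iff]; tauto),
      h2, h5, h4, h3⟩

/-! ### Paths of length three between corners of the same colour -/

/-- Contraction of an inner edge. -/
theorem Apex.ctr_inner (h : Apex S G T o a b c d) {k x : V}
    (hface : ∀ x y z, x ≠ o → y ≠ o → z ≠ o → G.Adj x y → G.Adj y z → G.Adj z x → T x y z)
    (hko : k ≠ o) (hka : k ≠ a) (hkb : k ≠ b) (hkc : k ≠ c) (hkd : k ≠ d)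
    (hxo : x ≠ o) (hxa : x ≠ a) (hxb : x ≠ b) (hxc : x ≠ c) (hxd : x ≠ d) (hkx : G.Adj k x) :
    Apex (S.erase x) (quot G (mv k x)) (quotT T (mv k x)) o a b c d ∧
      (∀ u v, u ≠ k → u ≠ x → v ≠ k → v ≠ x → ((quot G (mv k x)).Adj u v ↔ G.Adj u v)) := by
  have hok : ∀ y, G.Adj o y → y ≠ k ∧ y ≠ x := by
    intro y hy
    rcases (h.nb y).1 hy with rfl | rfl | rfl | rfl
    · exact ⟨hka.symm, hxa.symm⟩
    · exact ⟨hkb.symm, hxb.symm⟩
    · exact ⟨hkc.symm, hxc.symm⟩
    · exact ⟨hkd.symm, hxd.symm⟩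
  have hT : ∀ u v, T o u v → G.Adj o u → G.Adj o v → u ≠ v → quotT T (mv k x) o u v := by
    intro u v huv hu hv hne
    exact ⟨hu.ne, hne, hv.ne', o, u, v, mv_ne hxo.symm, mv_ne (hok u hu).2, mv_ne (hok v hv).2,
      huv⟩
  refine ⟨⟨h.tri.contract h.card hkx ?_, ?_, h.ab, h.ac, h.ad, h.bc, h.bd, h.cd,
    hT _ _ h.t1 h.oa h.ob h.ab, hT _ _ h.t2 h.ob h.oc h.bc, hT _ _ h.t3 h.oc h.od h.cd,
    hT _ _ h.t4 h.od h.oa h.ad.symm⟩, ?_⟩
  · intro z h1 h2
    have hzo : z ≠ o := by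
      rintro rfl
      exact (hok k h1.symm).1 rfl
    exact hface _ _ _ hko hxo hzo hkx h2 h1.symm
  · intro y
    rw [cadj_ne hko.symm hxo.symm, ← h.nb]
    constructor
    · rintro ⟨_, w, hw, h3⟩
      have hwx := (hok w h3).2
      rw [mv_ne hwx] at hw
      rw [← hw]
      exact h3
    · intro h3
      exact ⟨h3.ne, y, mv_ne (hok y h3).2, h3⟩
  · intro u v huk hux hvk hvx
    rw [cadj_ne huk hux]
    constructor
    · rintro ⟨_, w, hw, h3⟩
      rw [← eq_of_mv hw hvk]
      exact h3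
    · intro h3
      exact ⟨h3.ne, v, mv_ne hvx, h3⟩

/-- A vertex adjacent to both corners of a non-adjacent pair can get any colour different from
the three colours of the corners, without mates. -/
theorem cut_marked (hC : Cuttable) (hQ2 : Q2 n) (h : Apex S G T o a b c d) (hn : S.card ≤ n + 1)
    (hac : ¬ G.Adj a c) (hbd : ¬ G.Adj b d) {x : V} (hxo : x ≠ o) (hxb : x ≠ b) (hxd : x ≠ d)
    (hxa : G.Adj x a) (hxc : G.Adj x c) {i j k l : Fin 4} (hij : i ≠ j) (hik : i ≠ k)
    (hil : i ≠ l) (hjl : j ≠ l) (hkl : k ≠ l) :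
    ∃ col : V → Fin 4, MDef G {o} {a, b, c, d, x} col ∧ col a = i ∧ col b = j ∧ col c = i ∧
      col d = k ∧ col x = l := by
  obtain ⟨S1, S2, G1, G2, T1, T2, A1, n1, A2, n2, e1, e2, hglue⟩ :=
    hC V S G T o a b c d x h hac hbd hxo hxb hxd hxa hxc
  obtain ⟨c1, m1, p1, p2, p3, p4⟩ := hQ2 (Option V) S1 G1 T1 _ _ _ _ _ (by omega) A1
    (fun h1 => hac (e1 _ _ h1)) i j l hij hil hjl
  obtain ⟨c2, m2, r1, r2, r3, r4⟩ := hQ2 (Option V) S2 G2 T2 _ _ _ _ _ (by omega) A2
    (fun h1 => hac (e2 _ _ h1)) i l k hil hik hkl.symm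
  obtain ⟨col, g1, g2, g3, g4, g5, g6⟩ := hglue {a, b, c, d, x} _ _ c1 c2 (le_refl _)
    (fun _ => ⟨by simp, by simp⟩) (fun _ => by simp) (fun _ => ⟨by simp, by simp⟩)
    (fun _ => by simp) (fun _ => ⟨by simp, by simp⟩) (Or.inl (by simp)) (Or.inl (by simp))
    (Or.inl (by simp)) m1 m2 (by rw [p1, r1]) (by rw [p3, r3]) (by rw [p4, r2])
  exact ⟨col, g1, by rw [g2, p1], by rw [g3, p2], by rw [g4, p3], by rw [g5, r4], by rw [g6, p4]⟩

/-- A path of length three between the corners `a`, `c`: they get the same colour. -/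
theorem path_pair (hC : Cuttable) (hQ2 : Q2 n) (h : Apex S G T o a b c d) (hn : S.card ≤ n + 1)
    (hac : ¬ G.Adj a c) (hbd : ¬ G.Adj b d)
    (hface : ∀ x y z, x ≠ o → y ≠ o → z ≠ o → G.Adj x y → G.Adj y z → G.Adj z x → T x y z)
    {y x : V} (hyo : y ≠ o) (hya : y ≠ a) (hyb : y ≠ b) (hyc : y ≠ c) (hyd : y ≠ d)
    (hxo : x ≠ o) (hxa : x ≠ a) (hxb : x ≠ b) (hxc : x ≠ c) (hxd : x ≠ d)
    (hay : G.Adj a y) (hyx : G.Adj y x) (hxc' : G.Adj x c) {i j k : Fin 4} (hij : i ≠ j)
    (hik : i ≠ k) :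
    ∃ col : V → Fin 4, MDef G {o} {a, b, c, d} col ∧ col a = i ∧ col b = j ∧ col c = i ∧
      col d = k := by
  obtain ⟨A, hk⟩ := h.ctr_inner hface hyo hya hyb hyc hyd hxo hxa hxb hxc hxd hyx
  obtain ⟨l, hli, hlj, hlk⟩ := fourth_colour i j k
  have hcard : (S.erase x).card ≤ n + 1 := (card_le_card (erase_subset _ _)).trans hn
  obtain ⟨col, h1, h2, h3, h4, h5, h6⟩ := cut_marked hC hQ2 A hcard
    (by rw [hk _ _ hya.symm hxa.symm hyc.symm hxc.symm]; exact hac)
    (by rw [hk _ _ hyb.symm hxb.symm hyd.symm hxd.symm]; exact hbd) hyo hyb hyd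
    ((cadj_x hyx.ne).2 ⟨hya.symm, hxa.symm, Or.inl hay.symm⟩)
    ((cadj_x hyx.ne).2 ⟨hyc.symm, hxc.symm, Or.inr hxc'⟩) hij hik hli.symm hlj.symm hlk.symm
  refine ⟨Function.update col x (col y), MDef.unctr hyx hyo hxo h1 (by simp) ?_, ?_, ?_, ?_, ?_⟩
  · intro v hv
    simp only [Set.mem_insert_iff, Set.mem_singleton_iff] at hv ⊢
    rcases hv with rfl | rfl | rfl | rfl
    · exact ⟨hya.symm, hxa.symm, by tauto⟩
    · exact ⟨hyb.symm, hxb.symm, by tauto⟩
    · exact ⟨hyc.symm, hxc.symm, by tauto⟩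
    · exact ⟨hyd.symm, hxd.symm, by tauto⟩
  · rw [Function.update_of_ne hxa.symm, h2]
  · rw [Function.update_of_ne hxb.symm, h3]
  · rw [Function.update_of_ne hxc.symm, h4]
  · rw [Function.update_of_ne hxd.symm, h5]

end corners

end Pool.Agent.W986
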