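import Pool.Agent.W986.SubQRegion
import Pool.Agent.W986.SubQCorner
import Pool.Agent.W986.SubQSep

/-!
# Precoloured discs with a boundary of length four

Theorem Q: the three patterns extend. The proof is by induction on the number of the vertices; in a
smallest counterexample the inner vertices form a region, which has a reduction.
-/

set_option autoImplicit false

open Finset

namespace Pool.Agent.W986

/-- A smaller disc from which the colourings can be lifted. -/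
def SmallerDisc {V : Type} (S : Finset V) (G : SimpleGraph V) (_T : V → V → V → Prop)
    (o a b c d : V) : Prop :=
  ∃ (V' : Type) (_ : Fintype V') (_ : DecidableEq V') (S' : Finset V') (G' : SimpleGraph V')
    (T' : V' → V' → V' → Prop) (o' a' b' c' d' : V'), S'.card < S.card ∧
    Apex S' G' T' o' a' b' c' d' ∧ (G'.Adj a' c' → G.Adj a c) ∧ (G'.Adj b' d' → G.Adj b d) ∧
    ∀ (M : Set V) (M' : Set V') (col' : V' → Fin 4), M ⊆ {a, b, c, d} → (a ∈ M → a' ∈ M') →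
      (b ∈ M → b' ∈ M') → (c ∈ M → c' ∈ M') → (d ∈ M → d' ∈ M') → MDef G' {o'} M' col' →
      ∃ col : V → Fin 4, MDef G {o} M col ∧ col a = col' a' ∧ col b = col' b' ∧
        col c = col' c' ∧ col d = col' d'

/-- A 4-cycle through an inner vertex, without diagonals, which does not have one inner vertex,
gives a smaller disc. -/
def FourDisc : Prop :=
  ∀ (n : ℕ), Q1 n → Q2 n → Q3 n → ∀ (V : Type) [Fintype V] [DecidableEq V] (S : Finset V)
    (G : SimpleGraph V) (T : V → V → V → Prop) (o a b c d : V), S.card ≤ n + 1 →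
    Apex S G T o a b c d → Facial3 G T o → ∀ x y z w, x ≠ a → x ≠ b → x ≠ c → x ≠ d → x ≠ o →
    y ≠ o → z ≠ o → w ≠ o → x ≠ z → y ≠ w → G.Adj x y → G.Adj y z → G.Adj z w → G.Adj w x → ¬ G.Adj x z → ¬ G.Adj y w →
    (¬ ∃ m, m ≠ o ∧ ∀ t, G.Adj m t ↔ t = x ∨ t = y ∨ t = z ∨ t = w) →
    SmallerDisc S G T o a b c d

variable {V : Type} [Fintype V] [DecidableEq V] {S : Finset V} {G : SimpleGraph V}
  {T : V → V → V → Prop} {o a b c d : V} {n : ℕ}

theorem SmallerDisc.e1 (h : SmallerDisc S G T o a b c d) (hQ : Q1 n) (hn : S.card ≤ n + 1)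
    (hac : ¬ G.Adj a c) (hbd : ¬ G.Adj b d) : E1 G o a b c d := by
  intro i j hij
  obtain ⟨V', i1, i2, S', G', T', o', a', b', c', d', h1, h2, h3, h4, h5⟩ := h
  obtain ⟨col', k1, k2, k3, k4, k5⟩ := hQ V' S' G' T' o' a' b' c' d' (by omega) h2
    (fun e => hac (h3 e)) (fun e => hbd (h4 e)) i j hij
  obtain ⟨col, l1, l2, l3, l4, l5⟩ := h5 {a, b, c, d} _ col' subset_rfl (fun _ => by simp)
    (fun _ => by simp) (fun _ => by simp) (fun _ => by simp) k1
  exact ⟨col, l1, l2.trans k2, l3.trans k3, l4.trans k4, l5.trans k5⟩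

theorem SmallerDisc.e2 (h : SmallerDisc S G T o a b c d) (hQ : Q2 n) (hn : S.card ≤ n + 1)
    (hac : ¬ G.Adj a c) : E2 G o a b c d := by
  intro i j k hij hik hjk
  obtain ⟨V', i1, i2, S', G', T', o', a', b', c', d', h1, h2, h3, h4, h5⟩ := h
  obtain ⟨col', k1, k2, k3, k4, k5⟩ := hQ V' S' G' T' o' a' b' c' d' (by omega) h2
    (fun e => hac (h3 e)) i j k hij hik hjk
  obtain ⟨col, l1, l2, l3, l4, l5⟩ := h5 {a, b, c, d} _ col' subset_rfl (fun _ => by simp)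
    (fun _ => by simp) (fun _ => by simp) (fun _ => by simp) k1
  exact ⟨col, l1, l2.trans k2, l3.trans k3, l4.trans k4, l5.trans k5⟩

theorem SmallerDisc.e3 (h : SmallerDisc S G T o a b c d) (hQ : Q3 n) (hn : S.card ≤ n + 1)
    (hA : Apex S G T o a b c d) : E3 G o a b c d := by
  intro i j k l hij hik hil hjk hjl hkl
  obtain ⟨V', i1, i2, S', G', T', o', a', b', c', d', h1, h2, h3, h4, h5⟩ := h
  obtain ⟨col', k1, k2, k3, k4, k5⟩ := hQ V' S' G' T' o' a' b' c' d' (by omega) h2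
    i j k l hij hik hil hjk hjl hkl
  have ha : a ∉ ({b, c, d} : Set V) := by simp [hA.ab, hA.ac, hA.ad]
  obtain ⟨col, l1, l2, l3, l4, l5⟩ := h5 {b, c, d} _ col'
    (fun v hv => Or.inr hv) (fun e => absurd e ha)
    (fun _ => by simp) (fun _ => by simp) (fun _ => by simp) k1
  exact ⟨col, l1, l2.trans k2, l3.trans k3, l4.trans k4, l5.trans k5⟩

/-- If `k` is adjacent to `a`, `b`, `d`, the corner `a` has degree four. -/
theorem Apex.deg_le (h : Apex S G T o a b c d) (h3 : Facial3 G T o) {k : V} (hko : k ≠ o)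
    (hka : G.Adj k a) (hkb : G.Adj k b) (hkd : G.Adj k d) : {y | G.Adj a y}.ncard ≤ 4 := by
  have hloc := h.tri.toTriLoc
  have t1 : T k a b := h3 _ _ _ hko h.oa.ne' h.ob.ne' hka h.adj_ab hkb.symm
  have t2 : T k a d := h3 _ _ _ hko h.oa.ne' h.od.ne' hka h.adj_da.symm hkd.symm
  have hsub : {y | G.Adj a y} ⊆ ({o, b, k, d} : Set V) := by
    intro y hy
    have e1 : T a o b := hloc.swap _ _ _ h.t1
    have e2 : T a b k := hloc.rot _ _ _ t1
    have e3 : T a k d := hloc.swap _ _ _ t2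
    have e4 : T a d o := hloc.flip (hloc.swap _ _ _ (hloc.flip h.t4))
    have := TriLoc.fan_four hloc e1 e2 e3 e4 hko.symm h.bd hy
    simpa using this
  refine (Set.ncard_le_ncard hsub (Set.toFinite _)).trans ?_
  have : ({o, b, k, d} : Set V) = (({o, b, k, d} : Finset V) : Set V) := by simp
  rw [this, Set.ncard_coe_finset]
  exact card_le_four

/-- The region of a disc without simple reductions has a reduction. -/
theorem Apex.red' (hR : RegionRed 2) (h : Apex S G T o a b c d) (hac : ¬ G.Adj a c)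
    (hbd : ¬ G.Adj b d) (h3 : Facial3 G T o)
    (opp1 : ∀ k, k ≠ o → k ≠ b → k ≠ d → G.Adj k a → ¬ G.Adj k c)
    (opp2 : ∀ k, k ≠ o → k ≠ a → k ≠ c → G.Adj k b → ¬ G.Adj k d)
    (hF : FourDisc) (hQ1 : Q1 n) (hQ2 : Q2 n) (hQ3 : Q3 n) (hn : S.card ≤ n + 1)
    (hS : ¬ SmallerDisc S G T o a b c d) :
    ∃ (S' : Finset V) (G' : SimpleGraph V) (T' : V → V → V → Prop) (ρ : V → V),
      S'.card < S.card ∧ Apex S' G' T' o (ρ a) (ρ b) (ρ c) (ρ d) ∧
      (G'.Adj (ρ a) (ρ c) → ∃ k ∈ innQ S o a b c d, ∃ l ∈ innQ S o a b c d,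
        G.Adj a k ∧ G.Adj k l ∧ G.Adj l c) ∧
      (G'.Adj (ρ b) (ρ d) → ∃ k ∈ innQ S o a b c d, ∃ l ∈ innQ S o a b c d,
        G.Adj b k ∧ G.Adj k l ∧ G.Adj l d) ∧
      ∀ M : Set V, M ⊆ {a, b, c, d} → ∀ c' : V → Fin 4, MDef G' {o} (ρ '' M) c' →
        ∃ col : V → Fin 4, MDef G {o} M col ∧ col a = c' (ρ a) ∧ col b = c' (ρ b) ∧
          col c = c' (ρ c) ∧ col d = c' (ρ d) := by
  have hL : Local S G T o a b c d := by
    refine ⟨h, hac, hbd, h3, ?_, opp1, opp2, ?_⟩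
    · intro x hx h1 h2 h4 h5 h6
      refine h.deg4 h3 hx h1 fun h7 => ?_
      rcases (h.nb x).1 h7 with e | e | e | e
      · exact h2 e
      · exact h4 e
      · exact h5 e
      · exact h6 e
    · intro x y z w hxa hxb hxc hxd hx hy hz hw hxz hyw h1 h2 h4 h5
      by_contra hcon
      push Not at hcon
      exact hS (hF n hQ1 hQ2 hQ3 V S G T o a b c d hn h h3 x y z w hxa hxb hxc hxd hx hy hz hw hxz
        hyw h1 h2 h4 h5
        hcon.1 hcon.2.1 (by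
          rintro ⟨m, hm, hm'⟩
          obtain ⟨t, ht⟩ := hcon.2.2 m hm
          have := hm' t
          tauto))
  obtain ⟨S', G', T', ρ, k1, k2, k3, k4⟩ := h.red (hR V S G T _ h.tri hL.region)
  have haI : a ∉ innQ S o a b c d := fun h1 => (mem_innQ.1 h1).2.2.1 rfl
  have hbI : b ∉ innQ S o a b c d := fun h1 => (mem_innQ.1 h1).2.2.2.1 rfl
  have hcI : c ∉ innQ S o a b c d := fun h1 => (mem_innQ.1 h1).2.2.2.2.1 rfl
  have hdI : d ∉ innQ S o a b c d := fun h1 => (mem_innQ.1 h1).2.2.2.2.2 rfl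
  refine ⟨S', G', T', ρ, k1, k2, ?_, ?_, k4⟩
  · intro hadj
    rcases k3 a c haI hcI hadj with e | ⟨k, hk, e1, e2⟩ | e
    · exact absurd e hac
    · obtain ⟨_, m1, m2, m3, m4, m5⟩ := mem_innQ.1 hk
      exact absurd e2 (opp1 k m1 m3 m5 e1.symm)
    · exact e
  · intro hadj
    rcases k3 b d hbI hdI hadj with e | ⟨k, hk, e1, e2⟩ | e
    · exact absurd e hbd
    · obtain ⟨_, m1, m2, m3, m4, m5⟩ := mem_innQ.1 hk
      exact absurd e2 (opp2 k m1 m2 m4 e1.symm)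
    · exact e

/-- The induction step for the pattern `1, 2, 1, 2`. -/
theorem step1 (hC : Cuttable) (hF : FourDisc) (hR : RegionRed 2) (hQ1 : Q1 n) (hQ2 : Q2 n)
    (hQ3 : Q3 n) (hn : S.card ≤ n + 1) (h : Apex S G T o a b c d) (hac : ¬ G.Adj a c)
    (hbd : ¬ G.Adj b d) : E1 G o a b c d := by
  intro i j hij
  by_contra hE
  have hE' : ¬ E1 G o a b c d := fun e => hE (e i j hij)
  have h3 : Facial3 G T o := (h.sep_Q1 hQ1 hn hac hbd hij).resolve_left hE
  have hca : ¬ G.Adj c a := fun e => hac e.symm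
  have hdb : ¬ G.Adj d b := fun e => hbd e.symm
  have opp1 : ∀ k, k ≠ o → k ≠ b → k ≠ d → G.Adj k a → ¬ G.Adj k c := by
    intro k h1 h2 h4 h5 h6
    exact hE' (cut_E1 hQ2 hn hac (hC V S G T o a b c d k h hac hbd h1 h2 h4 h5 h6))
  have opp2 : ∀ k, k ≠ o → k ≠ a → k ≠ c → G.Adj k b → ¬ G.Adj k d := by
    intro k h1 h2 h4 h5 h6
    obtain ⟨col, l1, l2, l3, l4, l5⟩ := cut_E1 hQ2 hn hbd
      (hC V S G T o b c d a k h.turn hbd hca h1 h4 h2 h5 h6) j i hij.symm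
    exact hE ⟨col, l1.mono (by
      intro v; simp only [Set.mem_insert_iff, Set.mem_singleton_iff]; tauto), l5, l2, l3, l4⟩
  obtain ⟨S', G', T', ρ, k1, k2, k3, k4, k5⟩ := h.red' hR hac hbd h3 opp1 opp2 hF hQ1 hQ2 hQ3 hn
    (fun e => hE' (e.e1 hQ1 hn hac hbd))
  have n1 : ¬ G'.Adj (ρ a) (ρ c) := by
    intro hadj
    obtain ⟨k, hk, l, hl, e1, e2, e3⟩ := k3 hadj
    obtain ⟨_, m1, m2, m3, m4, m5⟩ := mem_innQ.1 hk
    obtain ⟨_, p1, p2, p3, p4, p5⟩ := mem_innQ.1 hl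
    exact hE (path_pair hC hQ2 h hn hac hbd h3 m1 m2 m3 m4 m5 p1 p2 p3 p4 p5 e1 e2 e3 hij hij)
  have n2 : ¬ G'.Adj (ρ b) (ρ d) := by
    intro hadj
    obtain ⟨k, hk, l, hl, e1, e2, e3⟩ := k4 hadj
    obtain ⟨_, m1, m2, m3, m4, m5⟩ := mem_innQ.1 hk
    obtain ⟨_, p1, p2, p3, p4, p5⟩ := mem_innQ.1 hl
    obtain ⟨col, l1, l2, l3, l4, l5⟩ := path_pair hC hQ2 h.turn hn hbd hca h3 m1 m3 m4 m5 m2 p1
      p3 p4 p5 p2 e1 e2 e3 hij.symm hij.symm
    exact hE ⟨col, l1.mono (by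
      intro v; simp only [Set.mem_insert_iff, Set.mem_singleton_iff]; tauto), l5, l2, l3, l4⟩
  obtain ⟨col', l1, l2, l3, l4, l5⟩ := hQ1 V S' G' T' o _ _ _ _ (by omega) k2 n1 n2 i j hij
  obtain ⟨col, p1, p2, p3, p4, p5⟩ := k5 {a, b, c, d} subset_rfl col' (l1.mono (by
    rintro _ ⟨v, hv, rfl⟩
    simp only [Set.mem_insert_iff, Set.mem_singleton_iff] at hv ⊢
    rcases hv with rfl | rfl | rfl | rfl <;> simp))
  exact hE ⟨col, p1, p2.trans l2, p3.trans l3, p4.trans l4, p5.trans l5⟩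

/-- The induction step for the pattern `1, 2, 1, 3`. -/
theorem step2 (hC : Cuttable) (hF : FourDisc) (hR : RegionRed 2) (hQ1 : Q1 n) (hQ2 : Q2 n)
    (hQ3 : Q3 n) (hn : S.card ≤ n + 1) (h : Apex S G T o a b c d) (hac : ¬ G.Adj a c) :
    E2 G o a b c d := by
  intro i j m hij him hjm
  by_contra hE
  have hE' : ¬ E2 G o a b c d := fun e => hE (e i j m hij him hjm)
  have h3 : Facial3 G T o := (h.sep_Q2 hQ2 hn hac hij him hjm).resolve_left hE
  have hbd : ¬ G.Adj b d := by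
    intro hbd
    obtain ⟨col, l1, l2, l3, l4, l5⟩ := h.chord_ext h3 hbd (i := i) (j := j) (k := i) (l := m)
      hij hij.symm him him hjm (Or.inr hac)
    exact hE ⟨col, l1, l2, l3, l4, l5⟩
  have hca : ¬ G.Adj c a := fun e => hac e.symm
  have hdb : ¬ G.Adj d b := fun e => hbd e.symm
  have hdeg : ¬ ({y | G.Adj a y}.ncard ≤ 4 ∨ {y | G.Adj b y}.ncard ≤ 4 ∨
      {y | G.Adj c y}.ncard ≤ 4 ∨ {y | G.Adj d y}.ncard ≤ 4) :=
    fun e => hE (corner_Q2 hQ2 hQ3 h hn hac hbd e hij him hjm)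
  have opp1 : ∀ k, k ≠ o → k ≠ b → k ≠ d → G.Adj k a → ¬ G.Adj k c := by
    intro k h1 h2 h4 h5 h6
    exact hE' (cut_E2 hQ2 hn hac (hC V S G T o a b c d k h hac hbd h1 h2 h4 h5 h6))
  have opp2 : ∀ k, k ≠ o → k ≠ a → k ≠ c → G.Adj k b → ¬ G.Adj k d := by
    intro k h1 h2 h4 h5 h6
    refine hE' (cut_E2' hQ2 hn ?_ ?_ (hC V S G T o b c d a k h.turn hbd hca h1 h4 h2 h5 h6))
    · intro h7
      exact hdeg (Or.inl (h.deg_le h3 h1 h7 h5 h6))
    · intro h7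
      exact hdeg (Or.inr (Or.inr (Or.inl (h.turn.turn.deg_le h3 h1 h7 h6 h5))))
  obtain ⟨S', G', T', ρ, k1, k2, k3, k4, k5⟩ := h.red' hR hac hbd h3 opp1 opp2 hF hQ1 hQ2 hQ3 hn
    (fun e => hE' (e.e2 hQ2 hn hac))
  have n1 : ¬ G'.Adj (ρ a) (ρ c) := by
    intro hadj
    obtain ⟨k, hk, l, hl, e1, e2, e3⟩ := k3 hadj
    obtain ⟨_, m1, m2, m3, m4, m5⟩ := mem_innQ.1 hk
    obtain ⟨_, p1, p2, p3, p4, p5⟩ := mem_innQ.1 hl
    exact hE (path_pair hC hQ2 h hn hac hbd h3 m1 m2 m3 m4 m5 p1 p2 p3 p4 p5 e1 e2 e3 hij him)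
  obtain ⟨col', l1, l2, l3, l4, l5⟩ := hQ2 V S' G' T' o _ _ _ _ (by omega) k2 n1 i j m hij him
    hjm
  obtain ⟨col, p1, p2, p3, p4, p5⟩ := k5 {a, b, c, d} subset_rfl col' (l1.mono (by
    rintro _ ⟨v, hv, rfl⟩
    simp only [Set.mem_insert_iff, Set.mem_singleton_iff] at hv ⊢
    rcases hv with rfl | rfl | rfl | rfl <;> simp))
  exact hE ⟨col, p1, p2.trans l2, p3.trans l3, p4.trans l4, p5.trans l5⟩

/-- The induction step for the pattern `1, 2, 3, 4`. -/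
theorem step3 (hC : Cuttable) (hF : FourDisc) (hR : RegionRed 2) (hQ1 : Q1 n) (hQ2 : Q2 n)
    (hQ3 : Q3 n) (hn : S.card ≤ n + 1) (h : Apex S G T o a b c d) : E3 G o a b c d := by
  intro i j m l hij him hil hjm hjl hml
  by_contra hE
  have hE' : ¬ E3 G o a b c d := fun e => hE (e i j m l hij him hil hjm hjl hml)
  have h3 : Facial3 G T o := (h.sep_Q3 hQ3 hn hij him hil hjm hjl hml).resolve_left hE
  have hbd : ¬ G.Adj b d := by
    intro hbd
    obtain ⟨col, l1, l2, l3, l4, l5⟩ := h.chord_ext h3 hbd (i := i) (j := j) (k := m) (l := l)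
      hij hjm hml hil hjl (Or.inl him)
    exact hE ⟨col, l1.mono fun v hv => Or.inr hv, l2, l3, l4, l5⟩
  have hca : ¬ G.Adj c a := by
    intro hca
    obtain ⟨col, l1, l2, l3, l4, l5⟩ := h.turn.chord_ext h3 hca (i := j) (j := m) (k := l) (l := i)
      hjm hml hil.symm hij.symm him.symm (Or.inl hjl)
    exact hE ⟨col, l1.mono (by
      intro v; simp only [Set.mem_insert_iff, Set.mem_singleton_iff]; tauto), l5, l2, l3, l4⟩
  have hac : ¬ G.Adj a c := fun e => hca e.symm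
  have hdb : ¬ G.Adj d b := fun e => hbd e.symm
  have hdeg : ¬ ({y | G.Adj a y}.ncard ≤ 4 ∨ {y | G.Adj b y}.ncard ≤ 4 ∨
      {y | G.Adj c y}.ncard ≤ 4 ∨ {y | G.Adj d y}.ncard ≤ 4) :=
    fun e => hE (corner_Q3 h3 hQ2 h hn hac hbd e hij him hil hjm hjl hml)
  have opp1 : ∀ k, k ≠ o → k ≠ b → k ≠ d → G.Adj k a → ¬ G.Adj k c := by
    intro k h1 h2 h4 h5 h6
    refine hE' (cut_E3 hQ2 hQ3 hn ?_ (hC V S G T o a b c d k h hac hbd h1 h2 h4 h5 h6))
    intro h7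
    exact hdeg (Or.inr (Or.inl (h.turn.deg_le h3 h1 h7 h6 h5)))
  have opp2 : ∀ k, k ≠ o → k ≠ a → k ≠ c → G.Adj k b → ¬ G.Adj k d := by
    intro k h1 h2 h4 h5 h6
    refine hE' (cut_E3' hQ2 hQ3 hn ?_ (hC V S G T o b c d a k h.turn hbd hca h1 h4 h2 h5 h6))
    intro h7
    exact hdeg (Or.inl (h.deg_le h3 h1 h7 h5 h6))
  obtain ⟨S', G', T', ρ, k1, k2, k3, k4, k5⟩ := h.red' hR hac hbd h3 opp1 opp2 hF hQ1 hQ2 hQ3 hn
    (fun e => hE' (e.e3 hQ3 hn h))
  obtain ⟨col', l1, l2, l3, l4, l5⟩ := hQ3 V S' G' T' o _ _ _ _ (by omega) k2 i j m l hij him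
    hil hjm hjl hml
  obtain ⟨col, p1, p2, p3, p4, p5⟩ := k5 {b, c, d} (fun v hv => Or.inr hv) col' (l1.mono (by
    rintro _ ⟨v, hv, rfl⟩
    simp only [Set.mem_insert_iff, Set.mem_singleton_iff] at hv ⊢
    rcases hv with rfl | rfl | rfl <;> simp))
  exact hE ⟨col, p1, p2.trans l2, p3.trans l3, p4.trans l4, p5.trans l5⟩

/-- **Theorem Q.** Every precoloured disc with a boundary of length four extends, in the three
patterns. -/
theorem thmQ' (hC : Cuttable) (hF : FourDisc) (hR : RegionRed 2) :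
    ∀ n, Q1 n ∧ Q2 n ∧ Q3 n := by
  intro n
  induction n with
  | zero =>
    refine ⟨?_, ?_, ?_⟩
    · intro V _ _ S G T o a b c d hn h
      have := h.card
      omega
    · intro V _ _ S G T o a b c d hn h
      have := h.card
      omega
    · intro V _ _ S G T o a b c d hn h
      have := h.card
      omega
  | succ n ih =>
    obtain ⟨hQ1, hQ2, hQ3⟩ := ih
    refine ⟨?_, ?_, ?_⟩
    · intro V _ _ S G T o a b c d hn h hac hbd
      exact step1 hC hF hR hQ1 hQ2 hQ3 hn h hac hbd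
    · intro V _ _ S G T o a b c d hn h hac
      exact step2 hC hF hR hQ1 hQ2 hQ3 hn h hac
    · intro V _ _ S G T o a b c d hn h
      exact step3 hC hF hR hQ1 hQ2 hQ3 hn h

end Pool.Agent.W986
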