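import Pool.Agent.W986.SubQCutDef
import Pool.Agent.W986.SubCount
import Pool.Agent.W986.SubSideP

/-!
# Discs can be cut along a path of length two

The disc with corners `a b c d` is cut along the path `a k c`: the side `A` of the cycle `a b c k`
which does not contain the apex, and the remaining triangles off the apex.
-/

set_option autoImplicit false

open Finset

namespace Pool.Agent.W986

variable {V : Type}

section cyc

variable {G : SimpleGraph V} {T A : V → V → V → Prop} {S : Finset V} {a b c d o k : V}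

theorem pcyc_four (ab : G.Adj a b) (bc : G.Adj b c) (cd : G.Adj c d) (da : G.Adj d a)
    (ac : a ≠ c) (bd : b ≠ d) : PCyc G 4 (four a b c d) := by
  refine ⟨by omega, four_add a b c d, four_inj ab.ne ac da.ne' bc.ne bd cd.ne, fun i => ?_⟩
  exact four_rel (R := fun x y _ => G.Adj x y) (p := a) (q := a) (r := a) (s := a) ab bc cd da i

theorem cycE_four {x y : V} : CycE (four a b c d) x y ↔
    (x = a ∧ y = b) ∨ (x = b ∧ y = a) ∨ (x = b ∧ y = c) ∨ (x = c ∧ y = b) ∨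
    (x = c ∧ y = d) ∨ (x = d ∧ y = c) ∨ (x = d ∧ y = a) ∨ (x = a ∧ y = d) := by
  constructor
  · rintro ⟨i, h⟩
    rw [four_succ] at h
    simp only [four] at h
    have h4 : i % 4 < 4 := Nat.mod_lt _ (by omega)
    generalize i % 4 = m at h h4
    interval_cases m <;> simp at h <;> tauto
  · rintro (⟨rfl, rfl⟩ | ⟨rfl, rfl⟩ | ⟨rfl, rfl⟩ | ⟨rfl, rfl⟩ | ⟨rfl, rfl⟩ | ⟨rfl, rfl⟩ |
      ⟨rfl, rfl⟩ | ⟨rfl, rfl⟩)
    · exact ⟨0, Or.inl ⟨rfl, rfl⟩⟩
    · exact ⟨0, Or.inr ⟨rfl, rfl⟩⟩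
    · exact ⟨1, Or.inl ⟨rfl, rfl⟩⟩
    · exact ⟨1, Or.inr ⟨rfl, rfl⟩⟩
    · exact ⟨2, Or.inl ⟨rfl, rfl⟩⟩
    · exact ⟨2, Or.inr ⟨rfl, rfl⟩⟩
    · exact ⟨3, Or.inl ⟨rfl, rfl⟩⟩
    · exact ⟨3, Or.inr ⟨rfl, rfl⟩⟩

theorem four_ne {x : V} (ha : x ≠ a) (hb : x ≠ b) (hc : x ≠ c) (hd : x ≠ d) (i : ℕ) :
    four a b c d i ≠ x :=
  four_all (P := fun y => y ≠ x) ha.symm hb.symm hc.symm hd.symm i

/-- The cap of a side of a cycle of length four. -/
theorem apex_of_cap (h : TriOn 2 S G T) (hC : PCyc G 4 (four a b c d))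
    (hA : Side T (four a b c d) A) :
    Apex (capS S A) (capG (four a b c d) A) (capT (four a b c d) A) none (some a) (some b)
      (some c) (some d) :=
  Apex.of_rotn (h.cap_sphere hC hA) hC.rotn_none

/-- At a vertex off the cycle which is in the side, all the triangles are in the side. -/
theorem Side.all_of {γ : ℕ → V} (hA : Side T γ A) (h : TriLoc S G T) {x y z : V}
    (hc : ∀ i, γ i ≠ x) (h1 : InS A x) (hT : T x y z) : A x y z := by
  by_contra hcon
  exact (hA.one_side h (h.mem _ _ (h.adj _ _ _ hT)) hc).2 ⟨y, z, hT, hcon⟩ h1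

theorem capS_card_lt {x y : V} (hx : x ∈ S) (hy : y ∈ S) (hxy : x ≠ y) (nx : ¬ InS A x)
    (ny : ¬ InS A y) : (capS S A).card < S.card := by
  classical
  rw [capS, card_insertNone]
  have h1 : S.filter (InS A) ⊆ (S.erase x).erase y := by
    intro z hz
    rw [mem_filter] at hz
    rw [mem_erase, mem_erase]
    refine ⟨?_, ?_, hz.1⟩
    · rintro rfl
      exact ny hz.2
    · rintro rfl
      exact nx hz.2
  have h2 := card_le_card h1
  have h3 : y ∈ S.erase x := mem_erase.2 ⟨hxy.symm, hy⟩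
  have h4 := card_erase_add_one h3
  have h5 := card_erase_add_one hx
  omega

end cyc

section cut

variable {S : Finset V} {G : SimpleGraph V} {T A : V → V → V → Prop} {o a b c d k : V}

/-- The triangles off the apex which are not in `A`. -/
def rest (T : V → V → V → Prop) (o : V) (A : V → V → V → Prop) (x y z : V) : Prop :=
  T x y z ∧ ¬ A x y z ∧ x ≠ o ∧ y ≠ o ∧ z ≠ o

/-- The edges of the link of the apex. -/
theorem Apex.link (h : Apex S G T o a b c d) {x y : V} (hT : T o x y) :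
    CycE (four a b c d) x y := by
  rw [cycE_four]
  rcases (h.nb x).1 (h.tri.adj _ _ _ hT) with rfl | rfl | rfl | rfl
  · rcases (h.to_a y).1 hT with rfl | rfl <;> tauto
  · rcases (h.to_b y).1 hT with rfl | rfl <;> tauto
  · rcases (h.to_c y).1 hT with rfl | rfl <;> tauto
  · rcases (h.to_d y).1 hT with rfl | rfl <;> tauto

theorem Apex.link_iff (h : Apex S G T o a b c d) {x y : V} :
    T o x y ↔ CycE (four a b c d) x y := by
  refine ⟨h.link, fun h1 => ?_⟩
  rw [cycE_four] at h1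
  have hf := fun {x y : V} (hT : T o x y) => h.tri.toTriLoc.flip hT
  rcases h1 with ⟨rfl, rfl⟩ | ⟨rfl, rfl⟩ | ⟨rfl, rfl⟩ | ⟨rfl, rfl⟩ | ⟨rfl, rfl⟩ | ⟨rfl, rfl⟩ |
    ⟨rfl, rfl⟩ | ⟨rfl, rfl⟩
  · exact h.t1
  · exact hf h.t1
  · exact h.t2
  · exact hf h.t2
  · exact h.t3
  · exact hf h.t3
  · exact h.t4
  · exact hf h.t4

/-- The edges of the second cycle. -/
theorem Apex.cyc_iff (h : Apex S G T o a b c d) (ka : k ≠ a) (kb : k ≠ b) (kc : k ≠ c)
    (kd : k ≠ d) {x y : V} : CycE (four a k c d) x y ↔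
      ((CycE (four a b c k) x y ∧ ¬ T o x y) ∨ (¬ CycE (four a b c k) x y ∧ T o x y)) := by
  have ab := h.ab
  have ac := h.ac
  have ad := h.ad
  have bc := h.bc
  have bd := h.bd
  have cd := h.cd
  rw [h.link_iff, cycE_four, cycE_four, cycE_four]
  constructor
  · rintro (⟨rfl, rfl⟩ | ⟨rfl, rfl⟩ | ⟨rfl, rfl⟩ | ⟨rfl, rfl⟩ | ⟨rfl, rfl⟩ | ⟨rfl, rfl⟩ |
      ⟨rfl, rfl⟩ | ⟨rfl, rfl⟩) <;> simp_all [eq_comm]
  · rintro (⟨h1, h2⟩ | ⟨h1, h2⟩)
    · rcases h1 with ⟨rfl, rfl⟩ | ⟨rfl, rfl⟩ | ⟨rfl, rfl⟩ | ⟨rfl, rfl⟩ | ⟨rfl, rfl⟩ | ⟨rfl, rfl⟩ |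
        ⟨rfl, rfl⟩ | ⟨rfl, rfl⟩ <;> simp_all
    · rcases h2 with ⟨rfl, rfl⟩ | ⟨rfl, rfl⟩ | ⟨rfl, rfl⟩ | ⟨rfl, rfl⟩ | ⟨rfl, rfl⟩ | ⟨rfl, rfl⟩ |
        ⟨rfl, rfl⟩ | ⟨rfl, rfl⟩ <;> simp_all

/-- The remaining triangles form a side of the second cycle. -/
theorem Apex.rest_side (h : Apex S G T o a b c d) (ko : k ≠ o) (ka : k ≠ a) (kb : k ≠ b)
    (kc : k ≠ c) (kd : k ≠ d) (hA : Side T (four a b c k) A) (ho : ¬ InS A o) :
    Side T (four a k c d) (rest T o A) := by
  have hr := h.tri.rot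
  have hs := h.tri.swap
  have n1 : ∀ y z, ¬ A o y z := fun y z e => ho ⟨y, z, e⟩
  have n2 : ∀ x z, ¬ A x o z := fun x z e => n1 _ _ (hA.swap _ _ _ e)
  have n3 : ∀ x y, ¬ A x y o := fun x y e => n2 _ _ (hA.rot _ _ _ e)
  refine ⟨fun x y z h1 => h1.1, fun x y z h1 => ⟨hr _ _ _ h1.1, fun h2 =>
    h1.2.1 (hA.rot _ _ _ (hA.rot _ _ _ h2)), h1.2.2.2.1, h1.2.2.2.2, h1.2.2.1⟩,
    fun x y z h1 => ⟨hs _ _ _ h1.1, fun h2 => h1.2.1 (hA.swap _ _ _ h2), h1.2.2.2.1, h1.2.2.1,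
    h1.2.2.2.2⟩, fun x y p q hpq hp hq => ?_⟩
  have h1 := hA.bd x y p q hpq hp hq
  rw [h.cyc_iff ka kb kc kd]
  by_cases hx : x = o
  · subst hx
    have h2 : ¬ CycE (four a b c k) x y := by
      intro h3
      obtain ⟨i, hi⟩ := h3.mem
      exact four_ne h.oa.ne h.ob.ne h.oc.ne ko.symm i hi
    have h4 : ¬ T x x y := fun h5 => (h.tri.adj _ _ _ h5).ne rfl
    simp [rest, h2, h4]
  by_cases hy : y = o
  · subst hy
    have h2 : ¬ CycE (four a b c k) x y := by
      intro h3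
      obtain ⟨i, hi⟩ := h3.symm.mem
      exact four_ne h.oa.ne h.ob.ne h.oc.ne ko.symm i hi
    have h4 : ¬ T y x y := fun h5 => (h.tri.toTriLoc.adj2 h5).2.2.ne rfl
    simp [rest, h2, h4]
  by_cases hpo : p = o
  · subst hpo
    have h2 : T p x y := hr _ _ _ (hr _ _ _ hp)
    have h3 : ¬ A x y p := n3 x y
    have h4 : q ≠ p := hpq.symm
    simp only [rest, h2, not_true_eq_false, and_false, and_true, false_or, ne_eq, hq, hp, hx, hy,
      h4, not_false_eq_true, true_and, h3] at h1 ⊢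
    tauto
  by_cases hqo : q = o
  · subst hqo
    have h2 : T q x y := hr _ _ _ (hr _ _ _ hq)
    have h3 : ¬ A x y q := n3 x y
    simp only [rest, h2, not_true_eq_false, and_false, and_true, false_or, ne_eq, hq, hp, hx, hy,
      hpq, not_false_eq_true, true_and, h3] at h1 ⊢
    tauto
  · have h2 : ¬ T o x y := by
      intro h3
      rcases h.tri.toTriLoc.two_pair hp hq hpq (hr _ _ _ h3) with e | e
      · exact hpo e.symm
      · exact hqo e.symm
    simp only [rest, h2, not_false_eq_true, and_true, and_false, or_false, ne_eq, hq, hp, hx, hy,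
      hpo, hqo, true_and]
    rw [← h1]
    tauto

/-- The colouring of the whole disc. -/
theorem mdef_glue [Finite V] {M : Set V} {W : Set V} {M1 M2 : Set (Option V)}
    {G1 G2 : SimpleGraph (Option V)} {c1 c2 : Option V → Fin 4} {P1 P2 : V → Prop}
    (hcov : ∀ u v, u ∉ W → v ∉ W → G.Adj u v →
      G1.Adj (some u) (some v) ∨ G2.Adj (some u) (some v))
    (h1 : ∀ u v, G1.Adj (some u) (some v) → P1 u) (h2 : ∀ u v, G2.Adj (some u) (some v) → P2 u)
    (hboth : ∀ v, P1 v → P2 v → c1 (some v) = c2 (some v) ∧ (some v ∈ M1 ∨ some v ∈ M2))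
    (hM1 : ∀ v ∈ M, P1 v → some v ∈ M1) (hM2 : ∀ v ∈ M, P2 v → some v ∈ M2)
    (hc1 : MDef G1 {none} M1 c1) (hc2 : MDef G2 {none} M2 c2) :
    ∃ col : V → Fin 4, MDef G W M col ∧ (∀ v, P1 v → col v = c1 (some v)) ∧
      ∀ v, P2 v → col v = c2 (some v) := by
  classical
  let col : V → Fin 4 := fun v => if P1 v then c1 (some v) else c2 (some v)
  have e1 : ∀ v, P1 v → col v = c1 (some v) := fun v hv => if_pos hv
  have e2 : ∀ v, P2 v → col v = c2 (some v) := by
    intro v hv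
    by_cases h3 : P1 v
    · rw [e1 v h3]
      exact (hboth v h3 hv).1
    · exact if_neg h3
  have nn : ∀ v : V, (some v : Option V) ∉ ({none} : Set (Option V)) := by
    intro v h3
    exact absurd h3 (by simp)
  refine ⟨col, fun v hv => ⟨?_, fun hm u hu huv e => ?_⟩, e1, e2⟩
  · rw [Set.ncard_le_one (Set.toFinite _)]
    rintro u ⟨hu, a1, b1⟩ w ⟨hw, a2, b2⟩
    rcases hcov v u hv hu a1 with g1 | g1 <;> rcases hcov v w hv hw a2 with g2 | g2
    · have p1 := h1 _ _ g1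
      rw [e1 v p1, e1 u (h1 _ _ g1.symm)] at b1
      rw [e1 v p1, e1 w (h1 _ _ g2.symm)] at b2
      exact Option.some.inj (hc1.uniq (nn v) (nn u) (nn w) g1 g2 b1 b2)
    · have p1 := h1 _ _ g1
      have p2 := h2 _ _ g2
      rw [e1 v p1, e1 u (h1 _ _ g1.symm)] at b1
      rw [e2 v p2, e2 w (h2 _ _ g2.symm)] at b2
      rcases (hboth v p1 p2).2 with hm | hm
      · exact absurd b1 (hc1.sat (nn v) hm (nn u) g1)
      · exact absurd b2 (hc2.sat (nn v) hm (nn w) g2)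
    · have p1 := h1 _ _ g2
      have p2 := h2 _ _ g1
      rw [e2 v p2, e2 u (h2 _ _ g1.symm)] at b1
      rw [e1 v p1, e1 w (h1 _ _ g2.symm)] at b2
      rcases (hboth v p1 p2).2 with hm | hm
      · exact absurd b2 (hc1.sat (nn v) hm (nn w) g2)
      · exact absurd b1 (hc2.sat (nn v) hm (nn u) g1)
    · have p2 := h2 _ _ g1
      rw [e2 v p2, e2 u (h2 _ _ g1.symm)] at b1
      rw [e2 v p2, e2 w (h2 _ _ g2.symm)] at b2
      exact Option.some.inj (hc2.uniq (nn v) (nn u) (nn w) g1 g2 b1 b2)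
  · rcases hcov v u hv hu huv with g1 | g1
    · have p1 := h1 _ _ g1
      rw [e1 v p1, e1 u (h1 _ _ g1.symm)] at e
      exact hc1.sat (nn v) (hM1 v hm p1) (nn u) g1 e
    · have p2 := h2 _ _ g1
      rw [e2 v p2, e2 u (h2 _ _ g1.symm)] at e
      exact hc2.sat (nn v) (hM2 v hm p2) (nn u) g1 e

/-- A side of the first cycle which does not contain the apex. -/
theorem Apex.exists_off (h : Apex S G T o a b c d) (ko : k ≠ o)
    (hC : PCyc G 4 (four a b c k)) : ∃ A, Side T (four a b c k) A ∧ ¬ InS A o := by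
  classical
  have ho : ∀ i, four a b c k i ≠ o := four_ne h.oa.ne h.ob.ne h.oc.ne ko.symm
  obtain ⟨A, hA⟩ := h.tri.exists_side hC
  by_cases h1 : InS A o
  · exact ⟨_, hA.compl h.tri.rot h.tri.swap,
      fun h2 => (hA.one_side h.tri.toTriLoc h.mem ho).2 h2 h1⟩
  · exact ⟨A, hA, h1⟩

/-- The disc falls into two discs. -/
theorem Apex.cut [Finite V] (h : Apex S G T o a b c d) (ko : k ≠ o)
    (kb : k ≠ b) (kd : k ≠ d) (ha : G.Adj k a) (hc : G.Adj k c) : CutAt S G a b c d o k := by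
  have hC1 : PCyc G 4 (four a b c k) := pcyc_four h.adj_ab h.adj_bc hc.symm ha h.ac kb.symm
  have hC2 : PCyc G 4 (four a k c d) := pcyc_four ha.symm hc h.adj_cd h.adj_da h.ac kd
  obtain ⟨A, hA, ho⟩ := h.exists_off ko hC1
  have hB := h.rest_side ko ha.ne kb hc.ne kd hA ho
  have hL := h.tri.toTriLoc
  have ho2 : ¬ InS (rest T o A) o := by
    rintro ⟨y, z, h1⟩
    exact h1.2.2.1 rfl
  have hd : ¬ InS A d := by
    intro h1
    have h2 := hA.all_of hL (four_ne h.ad.symm h.bd.symm h.cd.symm kd.symm) h1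
      (h.tri.rot _ _ _ h.t4)
    exact ho ⟨d, a, hA.rot _ _ _ (hA.rot _ _ _ h2)⟩
  have hb : ¬ InS (rest T o A) b := by
    intro h1
    have h2 := hB.all_of hL (four_ne h.ab.symm kb.symm h.bc h.bd) h1
      (h.tri.rot _ _ _ (h.tri.rot _ _ _ h.t1))
    exact h2.2.2.2.1 rfl
  have hcov : ∀ u v, u ∉ ({o} : Set V) → v ∉ ({o} : Set V) → G.Adj u v →
      (capG (four a b c k) A).Adj (some u) (some v) ∨
        (capG (four a k c d) (rest T o A)).Adj (some u) (some v) := by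
    intro u v hu hv huv
    rw [hA.adj_iff h.tri.adj, hB.adj_iff h.tri.adj]
    obtain ⟨p, q, hpq, hT⟩ := hL.two huv
    obtain ⟨z, hz, hzo⟩ : ∃ z, T u v z ∧ z ≠ o := by
      by_cases hp : p = o
      · exact ⟨q, (hT q).2 (Or.inr rfl), fun e => hpq (hp.trans e.symm)⟩
      · exact ⟨p, (hT p).2 (Or.inl rfl), hp⟩
    by_cases h1 : A u v z
    · exact Or.inl ⟨z, h1⟩
    · exact Or.inr ⟨z, hz, h1, hu, hv, hzo⟩
  have hboth : ∀ v, InS A v → InS (rest T o A) v → v = a ∨ v = c ∨ v = k := by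
    intro v h1 h2
    by_cases h3 : ∀ i, four a b c k i ≠ v
    · obtain ⟨y, z, h4⟩ := h2
      exact absurd (hA.all_of hL h3 h1 h4.1) h4.2.1
    · push Not at h3
      obtain ⟨i, hi⟩ := h3
      have h4 : four a b c k i = a ∨ four a b c k i = b ∨ four a b c k i = c ∨
          four a b c k i = k := four_all (P := fun y => y = a ∨ y = b ∨ y = c ∨ y = k)
        (by simp) (by simp) (by simp) (by simp) i
      rw [hi] at h4
      rcases h4 with e | e | e | e
      · exact Or.inl e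
      · rw [e] at h2
        exact absurd h2 hb
      · exact Or.inr (Or.inl e)
      · exact Or.inr (Or.inr e)
  have i1 : ∀ i, InS A (four a b c k i) := fun i => hA.inS_cyc hC1 i (Side.rot_cyc hC1 hL)
  have i2 : ∀ i, InS (rest T o A) (four a k c d i) :=
    fun i => hB.inS_cyc hC2 i (Side.rot_cyc hC2 hL)
  refine ⟨capS S A, capS S (rest T o A), capG (four a b c k) A,
    capG (four a k c d) (rest T o A), capT (four a b c k) A, capT (four a k c d) (rest T o A),
    apex_of_cap h.tri hC1 hA, capS_card_lt h.mem (h.tri.mem _ _ h.od.symm) h.od.ne ho hd,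
    apex_of_cap h.tri hC2 hB, capS_card_lt h.mem (h.tri.mem _ _ h.ob.symm) h.ob.ne ho2 hb,
    ?_, ?_, ?_⟩
  · intro u v h1
    obtain ⟨z, hz⟩ := (hA.adj_iff h.tri.adj).1 h1
    exact h.tri.adj _ _ _ (hA.sub _ _ _ hz)
  · intro u v h1
    obtain ⟨z, hz⟩ := (hB.adj_iff h.tri.adj).1 h1
    exact h.tri.adj _ _ _ (hB.sub _ _ _ hz)
  intro M M1 M2 c1 c2 hM ma mb mc md mk sa sc sk d1 d2 ea ec ek
  obtain ⟨col, k1, k2, k3⟩ := mdef_glue (G := G) (W := {o}) (M := M) (P1 := InS A)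
    (P2 := InS (rest T o A)) hcov
    (fun u v h1 => by
      obtain ⟨z, hz⟩ := (hA.adj_iff h.tri.adj).1 h1
      exact ⟨v, z, hz⟩)
    (fun u v h1 => by
      obtain ⟨z, hz⟩ := (hB.adj_iff h.tri.adj).1 h1
      exact ⟨v, z, hz⟩)
    (fun v h1 h2 => by
      rcases hboth v h1 h2 with rfl | rfl | rfl
      · exact ⟨ea, sa⟩
      · exact ⟨ec, sc⟩
      · exact ⟨ek, sk⟩)
    (fun v hv h1 => by
      have h2 := hM hv
      simp only [Set.mem_insert_iff, Set.mem_singleton_iff] at h2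
      rcases h2 with rfl | rfl | rfl | rfl | rfl
      · exact (ma hv).1
      · exact mb hv
      · exact (mc hv).1
      · exact absurd h1 hd
      · exact (mk hv).1)
    (fun v hv h1 => by
      have h2 := hM hv
      simp only [Set.mem_insert_iff, Set.mem_singleton_iff] at h2
      rcases h2 with rfl | rfl | rfl | rfl | rfl
      · exact (ma hv).2
      · exact absurd h1 hb
      · exact (mc hv).2
      · exact md hv
      · exact (mk hv).2) d1 d2
  exact ⟨col, k1, k2 a (i1 0), k2 b (i1 1), k2 c (i1 2), k3 d (i2 3), k2 k (i1 3)⟩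

end cut

/-- **Discs can be cut.** -/
theorem cuttable : Cuttable := by
  intro V _ _ S G T o a b c d k h hac hbd ko kb kd ha hc
  exact h.cut ko kb kd ha hc

end Pool.Agent.W986
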