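import Pool.Agent.W986.SubQ
import Pool.Agent.W986.SubQCut
import Pool.Agent.W986.SubFour

/-!
# Theorem Q from the reductions in discs
-/

set_option autoImplicit false

open Finset

namespace Pool.Agent.W986

theorem fourDisc : FourDisc := by
  intro n q1 q2 q3 V _ _ S G T o a b c d hn h h3 x y z w hxa hxb hxc hxd hxo hyo hzo hwo hxz hyw
    hxy hyz hzw hwx n1 n2 hm
  have hC := cyc4_pcyc hxz hyw hxy hyz hzw hwx
  obtain ⟨S', G', T', h1, h2, h4, h5⟩ := four_disc apexMono q1 q2 q3 hn h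
    (fun x y z hx hy hz => h3 x y z hx hy hz) hC
    (by
      intro i
      have h0 := Nat.mod_lt i (by norm_num : 0 < 4)
      have hi : i % 4 = 0 ∨ i % 4 = 1 ∨ i % 4 = 2 ∨ i % 4 = 3 := by omega
      unfold cyc4
      rcases hi with e | e | e | e <;> rw [e]
      · simpa using hxo
      · simpa using hyo
      · simpa using hzo
      · simpa using hwo)
    (show x ≠ a ∧ x ≠ b ∧ x ≠ c ∧ x ≠ d from ⟨hxa, hxb, hxc, hxd⟩)
    (show ¬ G.Adj x z from n1) (show ¬ G.Adj y w from n2)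
    (show ¬ ∃ m, m ≠ o ∧ ∀ v, G.Adj m v ↔ v = x ∨ v = y ∨ v = z ∨ v = w from hm)
  refine ⟨Option V, inferInstance, inferInstance, S', G', T', some o, some a, some b, some c,
    some d, h1, h2, h4 _ _, h4 _ _, ?_⟩
  intro M M' col' hM ha hb hc hd hcol
  refine h5 M hM col' (hcol.mono ?_)
  rintro _ ⟨v, hv, rfl⟩
  rcases hM hv with e | e | e | e
  · rw [e] at hv ⊢
    exact ha hv
  · rw [e] at hv ⊢
    exact hb hv
  · rw [e] at hv ⊢
    exact hc hv
  · rw [Set.mem_singleton_iff.1 e] at hv ⊢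
    exact hd hv

/-- **Theorem Q.** -/
theorem thmQ (hR : RegionRed 2) : ∀ n, Q1 n ∧ Q2 n ∧ Q3 n := thmQ' cuttable fourDisc hR

end Pool.Agent.W986
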