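import Pool.Agent.W986.SubRegRed
import Pool.Agent.W986.SubFinal
import Pool.Agent.W986.SubQFin

/-!
# The answer for projective-planar graphs from the table
-/

set_option autoImplicit false

open Finset

namespace Pool.Agent.W986

open Pool.Agent.DC76 ST ST.LB

/-- The answer for projective-planar graphs, from the table. -/
theorem projective_of_table {l0 lI lF : Patch → Bool} {fl : ℕ → Option Fact} {a b n : ℕ}
    (hL : LeavesOK l0 lI lF) (hF : TableF l0 lI lF fl a b n) (hbase : BaseF fl a)
    (hbig : BigF fl b n) (k d : ℕ) :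
    AllCol @ProjectivePlanar k d ↔ (3 ≤ k ∧ 2 ≤ d) ∨ (4 ≤ k ∧ 1 ≤ d) ∨ 6 ≤ k :=
  projective_iff_of_red (regionRed_ofF hL hF hbase hbig)
    (thmQ (regionRed_ofF hL hF hbase hbig)) k d

end Pool.Agent.W986
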