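import Pool.Agent.W986.SubQCutDef

/-!
# An inner vertex adjacent to two opposite corners
-/

set_option autoImplicit false

open Finset

namespace Pool.Agent.W986

variable {V : Type}

/-- The pattern `1, 2, 1, 2` extends. -/
def E1 (G : SimpleGraph V) (o a b c d : V) : Prop :=
  ∀ i j : Fin 4, i ≠ j →
    ∃ col : V → Fin 4, MDef G {o} {a, b, c, d} col ∧ col a = i ∧ col b = j ∧ col c = i ∧ col d = j

/-- The pattern `1, 2, 1, 3` extends. -/
def E2 (G : SimpleGraph V) (o a b c d : V) : Prop :=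
  ∀ i j k : Fin 4, i ≠ j → i ≠ k → j ≠ k →
    ∃ col : V → Fin 4, MDef G {o} {a, b, c, d} col ∧ col a = i ∧ col b = j ∧ col c = i ∧ col d = k

/-- The pattern `1, 2, 3, 4` extends, the first corner is free. -/
def E3 (G : SimpleGraph V) (o a b c d : V) : Prop :=
  ∀ i j k l : Fin 4, i ≠ j → i ≠ k → i ≠ l → j ≠ k → j ≠ l → k ≠ l →
    ∃ col : V → Fin 4, MDef G {o} {b, c, d} col ∧ col a = i ∧ col b = j ∧ col c = k ∧ col d = l

variable [Fintype V] [DecidableEq V] {S : Finset V} {G : SimpleGraph V} {T : V → V → V → Prop}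
  {o a b c d k : V} {n : ℕ}

theorem exists_third_col (i j : Fin 4) : ∃ l : Fin 4, l ≠ i ∧ l ≠ j := by
  revert i j
  decide

theorem exists_fourth (i j k : Fin 4) : ∃ l : Fin 4, l ≠ i ∧ l ≠ j ∧ l ≠ k := by
  revert i j k
  decide

section cases

/-- The equal pair, the pattern `1, 2, 1, *`. -/
theorem cut_pair (hQ2 : Q2 n) (hS : S.card ≤ n + 1) (hac : ¬ G.Adj a c)
    (hcut : CutAt S G a b c d o k) {i j m : Fin 4} (hij : i ≠ j) (him : i ≠ m) :
    ∃ col : V → Fin 4, MDef G {o} {a, b, c, d} col ∧ col a = i ∧ col b = j ∧ col c = i ∧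
      col d = m := by
  obtain ⟨S1, S2, G1, G2, T1, T2, h1, hc1, h2, hc2, hs1, hs2, hg⟩ := hcut
  obtain ⟨l, hl1, hl2, hl3⟩ := exists_fourth i j m
  obtain ⟨c1, m1, p1, p2, p3, p4⟩ := hQ2 (Option V) S1 G1 T1 none _ _ _ _ (by omega) h1
    (fun h => hac (hs1 _ _ h)) i j l hij hl1.symm hl2.symm
  obtain ⟨c2, m2, q1, q2, q3, q4⟩ := hQ2 (Option V) S2 G2 T2 none _ _ _ _ (by omega) h2
    (fun h => hac (hs2 _ _ h)) i l m hl1.symm him hl3
  obtain ⟨col, r0, r1, r2, r3, r4, r5⟩ := hg {a, b, c, d} _ _ c1 c2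
    (by intro x hx; simp only [Set.mem_insert_iff, Set.mem_singleton_iff] at hx ⊢; tauto)
    (fun _ => ⟨by simp, by simp⟩) (fun _ => by simp) (fun _ => ⟨by simp, by simp⟩)
    (fun _ => by simp) (fun _ => ⟨by simp, by simp⟩) (by simp) (by simp) (by simp) m1 m2 (by rw [p1, q1]) (by rw [p3, q3])
    (by rw [p4, q2])
  exact ⟨col, r0, by rw [r1, p1], by rw [r2, p2], by rw [r3, p3], by rw [r4, q4]⟩

theorem cut_E1 (hQ2 : Q2 n) (hS : S.card ≤ n + 1) (hac : ¬ G.Adj a c)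
    (hcut : CutAt S G a b c d o k) : E1 G o a b c d :=
  fun _ _ hij => cut_pair hQ2 hS hac hcut hij hij

theorem cut_E2 (hQ2 : Q2 n) (hS : S.card ≤ n + 1) (hac : ¬ G.Adj a c)
    (hcut : CutAt S G a b c d o k) : E2 G o a b c d :=
  fun _ _ _ hij hik _ => cut_pair hQ2 hS hac hcut hij hik

/-- The unequal pair, `k` not adjacent to the other corners. -/
theorem cut_E2' (hQ2 : Q2 n) (hS : S.card ≤ n + 1) (hka : ¬ G.Adj k a) (hkc : ¬ G.Adj k c)
    (hcut : CutAt S G b c d a o k) : E2 G o a b c d := by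
  intro i j m hij him hjm
  obtain ⟨S1, S2, G1, G2, T1, T2, h1, hc1, h2, hc2, hs1, hs2, hg⟩ := hcut
  -- `b c d k` and `b k d a`
  obtain ⟨c1, m1, p1, p2, p3, p4⟩ := hQ2 (Option V) S1 G1 T1 none _ _ _ _ (by omega) h1.turn
    (fun h => hkc (hs1 _ _ h).symm) i m j him hij hjm.symm
  obtain ⟨c2, m2, q1, q2, q3, q4⟩ := hQ2 (Option V) S2 G2 T2 none _ _ _ _ (by omega) h2.turn
    (fun h => hka (hs2 _ _ h)) i m j him hij hjm.symm
  obtain ⟨col, r0, r1, r2, r3, r4, r5⟩ := hg {a, b, c, d} _ _ c1 c2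
    (by intro x hx; simp only [Set.mem_insert_iff, Set.mem_singleton_iff] at hx ⊢; tauto)
    (fun _ => ⟨by simp, by simp⟩) (fun _ => by simp) (fun _ => ⟨by simp, by simp⟩)
    (fun _ => by simp) (fun _ => ⟨by simp, by simp⟩) (by simp) (by simp) (by simp) m1 m2 (by rw [p4, q4]) (by rw [p2, q2])
    (by rw [p3, q1])
  exact ⟨col, r0, by rw [r4, q3], by rw [r1, p4], by rw [r2, p1], by rw [r3, p2]⟩

/-- Four colours, `k` adjacent to the free corner and the opposite one. -/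
theorem cut_E3 (hQ2 : Q2 n) (hQ3 : Q3 n) (hS : S.card ≤ n + 1) (hkb : ¬ G.Adj k b)
    (hcut : CutAt S G a b c d o k) : E3 G o a b c d := by
  intro i j m l hij him hil hjm hjl hml
  obtain ⟨S1, S2, G1, G2, T1, T2, h1, hc1, h2, hc2, hs1, hs2, hg⟩ := hcut
  -- `a b c k`, colours `i j m j`, and `a k c d`, colours `i j m l`
  obtain ⟨c1, m1, p1, p2, p3, p4⟩ := hQ2 (Option V) S1 G1 T1 none _ _ _ _ (by omega) h1.turn
    (fun h => hkb (hs1 _ _ h).symm) j m i hjm hij.symm him.symm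
  obtain ⟨c2, m2, q1, q2, q3, q4⟩ := hQ3 (Option V) S2 G2 T2 none _ _ _ _ (by omega) h2
    i j m l hij him hil hjm hjl hml
  have ha : a ∉ ({b, c, d} : Set V) := by
    have e1 := h1.ab
    have e2 := h1.ac
    have e3 := h2.ad
    simp only [ne_eq, Option.some.injEq] at e1 e2 e3
    simp [e1, e2, e3]
  obtain ⟨col, r0, r1, r2, r3, r4, r5⟩ := hg {b, c, d} _ _ c1 c2
    (by intro x hx; simp only [Set.mem_insert_iff, Set.mem_singleton_iff] at hx ⊢; tauto)
    (fun h => absurd h ha) (fun _ => by simp) (fun _ => ⟨by simp, by simp⟩)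
    (fun _ => by simp) (fun _ => ⟨by simp, by simp⟩) (by simp) (by simp) (by simp) m1 m2 (by rw [p4, q1]) (by rw [p2, q3])
    (by rw [p3, q2])
  exact ⟨col, r0, by rw [r1, p4], by rw [r2, p1], by rw [r3, p2], by rw [r4, q4]⟩

/-- Four colours, `k` adjacent to the two neighbours of the free corner. -/
theorem cut_E3' (hQ2 : Q2 n) (hQ3 : Q3 n) (hS : S.card ≤ n + 1) (hka : ¬ G.Adj k a)
    (hcut : CutAt S G b c d a o k) : E3 G o a b c d := by
  intro i j m l hij him hil hjm hjl hml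
  obtain ⟨S1, S2, G1, G2, T1, T2, h1, hc1, h2, hc2, hs1, hs2, hg⟩ := hcut
  -- `b c d k`, colours `j m l i`, and `b k d a`, colours `j i l i`
  obtain ⟨c1, m1, p1, p2, p3, p4⟩ := hQ3 (Option V) S1 G1 T1 none _ _ _ _ (by omega)
    h1.turn.turn.turn i j m l hij him hil hjm hjl hml
  obtain ⟨c2, m2, q1, q2, q3, q4⟩ := hQ2 (Option V) S2 G2 T2 none _ _ _ _ (by omega) h2.turn
    (fun h => hka (hs2 _ _ h)) i l j hil hij hjl.symm
  have hk : k ∉ ({b, c, d} : Set V) := by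
    have e1 := h1.ad
    have e2 := h1.bd
    have e3 := h1.cd
    simp only [ne_eq, Option.some.injEq] at e1 e2 e3
    simp [Ne.symm e1, Ne.symm e2, Ne.symm e3]
  obtain ⟨col, r0, r1, r2, r3, r4, r5⟩ := hg {b, c, d} _ _ c1 c2
    (by intro x hx; simp only [Set.mem_insert_iff, Set.mem_singleton_iff] at hx ⊢; tauto)
    (fun _ => ⟨by simp, by simp⟩) (fun _ => by simp) (fun _ => ⟨by simp, by simp⟩)
    (fun _ => by simp) (fun h => absurd h hk) (by simp) (by simp) (by simp) m1 m2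
    (by rw [p2, q4]) (by rw [p4, q2]) (by rw [p1, q1])
  exact ⟨col, r0, by rw [r4, q3], by rw [r1, p2], by rw [r2, p3], by rw [r3, p4]⟩

end cases

end Pool.Agent.W986
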