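import Pool.Agent.W986.SubQDef

/-!
# Discs with a boundary of length four: the count

The boundary data of the region inside a disc with an outer cycle of length four, if the corners
have degree at least `5` and opposite corners are not adjacent and have no common inner neighbour.
-/

set_option autoImplicit false

open Finset

namespace Pool.Agent.W986

variable {V : Type}

namespace Apex

variable {S : Finset V} {G : SimpleGraph V} {T : V → V → V → Prop} {o a b c d : V}

/-- The third vertex at the side `a b`. -/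
theorem exists_side (h : Apex S G T o a b c d) (hac : ¬ G.Adj a c) (hbd : ¬ G.Adj b d) :
    ∃ p, T a b p ∧ p ≠ o ∧ p ≠ a ∧ p ≠ b ∧ p ≠ c ∧ p ≠ d ∧ G.Adj p a ∧ G.Adj p b := by
  obtain ⟨x, y, hxy, hT⟩ := h.tri.toTriLoc.two h.adj_ab
  have ho : T a b o := h.tri.toTriLoc.rot _ _ _ h.t1
  obtain ⟨p, hp, hpo⟩ : ∃ p, T a b p ∧ p ≠ o := by
    rcases (hT o).1 ho with rfl | rfl
    · exact ⟨y, (hT y).2 (Or.inr rfl), hxy.symm⟩
    · exact ⟨x, (hT x).2 (Or.inl rfl), hxy⟩
  obtain ⟨e1, e2, e3⟩ := h.tri.toTriLoc.adj2 hp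
  refine ⟨p, hp, hpo, e3.ne, e2.ne', ?_, ?_, e3, e2.symm⟩
  · rintro rfl
    exact hac e3.symm
  · rintro rfl
    exact hbd e2

/-- The third vertices at the two sides at a corner of degree at least `5` are different. -/
theorem side_ne (h : Apex S G T o a b c d) (ha : 5 ≤ {y | G.Adj a y}.ncard) {p q : V}
    (hp : T a b p) (hpo : p ≠ o) (hq : T d a q) : p ≠ q := by
  classical
  rintro rfl
  have L := h.tri.toTriLoc
  have hq' : T a d p := L.swap _ _ _ hq
  have ho1 : T a b o := L.rot _ _ _ h.t1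
  have ho2 : T a d o := L.swap _ _ _ (L.rot _ _ _ h.t4)
  have hsub : {y | G.Adj a y} ⊆ (({o, b, p, d} : Finset V) : Set V) := by
    intro z hz
    by_contra hcon
    obtain ⟨x, y, hx, hy, hT⟩ := L.split ((({o, b, p, d} : Finset V) : Set V)) h.adj_ab
      (by simp) hz hcon
    have hy' : y ≠ o ∧ y ≠ b ∧ y ≠ p ∧ y ≠ d := by
      simpa using hy
    have hx' : x = o ∨ x = b ∨ x = p ∨ x = d := by
      simpa using hx
    rcases hx' with rfl | rfl | rfl | rfl
    · rcases L.two_pair (L.flip ho1) (L.flip ho2) h.bd hT with e | e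
      · exact hy'.2.1 e
      · exact hy'.2.2.2 e
    · rcases L.two_pair ho1 hp (Ne.symm hpo) hT with e | e
      · exact hy'.1 e
      · exact hy'.2.2.1 e
    · rcases L.two_pair (L.flip hp) (L.flip hq') h.bd hT with e | e
      · exact hy'.2.1 e
      · exact hy'.2.2.2 e
    · rcases L.two_pair ho2 hq' (Ne.symm hpo) hT with e | e
      · exact hy'.1 e
      · exact hy'.2.2.1 e
  have h1 := Set.ncard_le_ncard hsub (Finset.finite_toSet _)
  rw [Set.ncard_coe_finset] at h1
  have h2 : ({o, b, p, d} : Finset V).card ≤ 4 := Finset.card_le_four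
  omega

/-- The degree of a corner. -/
theorem deg_corner5 [Fintype V] [DecidableEq V] (h : Apex S G T o a b c d) (hac : ¬ G.Adj a c) :
    {y | G.Adj a y}.ncard =
      3 + {x | x ∈ S \ ({o, a, b, c, d} : Finset V) ∧ G.Adj x a}.ncard := by
  have e1 : {y | G.Adj a y} = (({o, b, d} : Finset V) : Set V) ∪
      {x | x ∈ S \ ({o, a, b, c, d} : Finset V) ∧ G.Adj x a} := by
    ext y
    simp only [Set.mem_ofPred_eq, Set.mem_union, Finset.coe_insert, Finset.coe_singleton,
      Set.mem_insert_iff, Set.mem_singleton_iff, Finset.mem_sdiff, Finset.mem_insert,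
      Finset.mem_singleton]
    constructor
    · intro hy
      by_cases h1 : y = o
      · exact Or.inl (Or.inl h1)
      by_cases h2 : y = b
      · exact Or.inl (Or.inr (Or.inl h2))
      by_cases h3 : y = d
      · exact Or.inl (Or.inr (Or.inr h3))
      refine Or.inr ⟨⟨h.tri.toTriLoc.mem _ _ hy.symm, ?_⟩, hy.symm⟩
      rintro (e | e | e | e | e)
      · exact h1 e
      · exact hy.ne' e
      · exact h2 e
      · rw [e] at hy
        exact hac hy
      · exact h3 e
    · rintro ((rfl | rfl | rfl) | ⟨_, h2⟩)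
      · exact h.oa.symm
      · exact h.adj_ab
      · exact h.adj_da.symm
      · exact h2.symm
  have e2 : (({o, b, d} : Finset V)).card = 3 := by
    rw [Finset.card_eq_three]
    exact ⟨o, b, d, h.ob.ne, h.od.ne, h.bd, rfl⟩
  rw [e1, Set.ncard_union_eq _ (Set.toFinite _) (Set.toFinite _), Set.ncard_coe_finset, e2]
  rw [Set.disjoint_left]
  intro y hy hy'
  have h1 := (Finset.mem_sdiff.1 hy'.1).2
  simp only [Finset.coe_insert, Finset.coe_singleton, Set.mem_insert_iff,
    Set.mem_singleton_iff] at hy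
  apply h1
  simp only [Finset.mem_insert, Finset.mem_singleton]
  tauto

/-- The outer neighbours of an inner vertex are corners. -/
theorem out_corner [DecidableEq V] (h : Apex S G T o a b c d) {x y : V}
    (hx : x ∈ S \ ({o, a, b, c, d} : Finset V)) (hy : y ∉ S \ ({o, a, b, c, d} : Finset V))
    (hxy : G.Adj x y) : y = a ∨ y = b ∨ y = c ∨ y = d := by
  have hyS : y ∈ S := h.tri.toTriLoc.mem _ _ hxy.symm
  simp only [Finset.mem_sdiff, Finset.mem_insert, Finset.mem_singleton] at hx hy
  by_contra hcon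
  have h1 : y = o := by
    by_contra h2
    apply hy
    refine ⟨hyS, ?_⟩
    tauto
  rw [h1] at hxy
  have h3 := (h.nb x).1 hxy.symm
  tauto

/-- The number of the edges which leave the disc. -/
theorem eout_eq5 [Fintype V] [DecidableEq V] (h : Apex S G T o a b c d) :
    eout G (S \ ({o, a, b, c, d} : Finset V)) =
      {x | x ∈ S \ ({o, a, b, c, d} : Finset V) ∧ G.Adj x a}.ncard +
      {x | x ∈ S \ ({o, a, b, c, d} : Finset V) ∧ G.Adj x b}.ncard +
      {x | x ∈ S \ ({o, a, b, c, d} : Finset V) ∧ G.Adj x c}.ncard +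
      {x | x ∈ S \ ({o, a, b, c, d} : Finset V) ∧ G.Adj x d}.ncard := by
  classical
  set I := S \ ({o, a, b, c, d} : Finset V) with hI
  have e1 : ∀ r, {x | x ∈ I ∧ G.Adj x r}.ncard = ∑ x ∈ I, if G.Adj x r then 1 else 0 := by
    intro r
    rw [← Finset.card_filter, ← Set.ncard_coe_finset]
    congr 1
    ext x
    simp
  have e2 : ∀ x ∈ I, {y | G.Adj x y ∧ y ∉ I}.ncard = (if G.Adj x a then 1 else 0) +
      (if G.Adj x b then 1 else 0) + (if G.Adj x c then 1 else 0) +
      (if G.Adj x d then 1 else 0) := by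
    intro x hx
    have e3 : {y | G.Adj x y ∧ y ∉ I} =
        ((({a, b, c, d} : Finset V).filter fun y => G.Adj x y) : Set V) := by
      ext y
      simp only [Set.mem_ofPred_eq, Finset.coe_filter, Finset.mem_insert, Finset.mem_singleton]
      constructor
      · rintro ⟨h1, h2⟩
        exact ⟨h.out_corner hx h2 h1, h1⟩
      · rintro ⟨h1, h2⟩
        refine ⟨h2, ?_⟩
        rw [hI, Finset.mem_sdiff]
        rintro ⟨_, h3⟩
        apply h3
        simp only [Finset.mem_insert, Finset.mem_singleton]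
        tauto
    rw [e3, Set.ncard_coe_finset, Finset.card_filter, Finset.sum_insert, Finset.sum_insert,
      Finset.sum_insert, Finset.sum_singleton]
    · ring
    · simpa using h.cd
    · simpa using ⟨h.bc, h.bd⟩
    · simpa using ⟨h.ab, h.ac, h.ad⟩
  unfold eout
  rw [Finset.sum_congr rfl e2, e1, e1, e1, e1]
  simp only [Finset.sum_add_distrib]

theorem card_eq [DecidableEq V] (h : Apex S G T o a b c d) :
    ({o, a, b, c, d} : Finset V) ⊆ S ∧ ({o, a, b, c, d} : Finset V).card = 5 := by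
  constructor
  · intro y hy
    simp only [Finset.mem_insert, Finset.mem_singleton] at hy
    rcases hy with rfl | rfl | rfl | rfl | rfl
    · exact h.mem
    · exact h.tri.toTriLoc.mem _ _ h.oa.symm
    · exact h.tri.toTriLoc.mem _ _ h.ob.symm
    · exact h.tri.toTriLoc.mem _ _ h.oc.symm
    · exact h.tri.toTriLoc.mem _ _ h.od.symm
  · rw [Finset.card_insert_of_notMem, Finset.card_insert_of_notMem, Finset.card_insert_of_notMem,
      Finset.card_insert_of_notMem, Finset.card_singleton]
    · simpa using h.cd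
    · simpa using ⟨h.bc, h.bd⟩
    · simpa using ⟨h.ab, h.ac, h.ad⟩
    · simpa using ⟨h.oa.ne, h.ob.ne, h.oc.ne, h.od.ne⟩

/-- The degree of the apex. -/
theorem deg_apex [DecidableEq V] (h : Apex S G T o a b c d) : {y | G.Adj o y}.ncard = 4 := by
  have e1 : {y | G.Adj o y} = (({a, b, c, d} : Finset V) : Set V) := by
    ext y
    simp only [Set.mem_ofPred_eq, h.nb, Finset.coe_insert, Finset.coe_singleton,
      Set.mem_insert_iff, Set.mem_singleton_iff]
  rw [e1, Set.ncard_coe_finset, Finset.card_insert_of_notMem, Finset.card_insert_of_notMem,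
    Finset.card_insert_of_notMem, Finset.card_singleton]
  · simpa using h.cd
  · simpa using ⟨h.bc, h.bd⟩
  · simpa using ⟨h.ab, h.ac, h.ad⟩

/-- Euler's formula for the disc. -/
theorem sum_inner [Fintype V] [DecidableEq V] (h : Apex S G T o a b c d) (hac : ¬ G.Adj a c)
    (hbd : ¬ G.Adj b d) :
    ∑ x ∈ S \ ({o, a, b, c, d} : Finset V), (6 - ({y | G.Adj x y}.ncard : ℤ)) =
      eout G (S \ ({o, a, b, c, d} : Finset V)) - 2 := by
  obtain ⟨hsub, hcard⟩ := h.card_eq
  have ea := h.deg_corner5 hac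
  have eb := h.turn.deg_corner5 hbd
  have ec := h.turn.turn.deg_corner5 fun hh => hac hh.symm
  have ed := h.turn.turn.turn.deg_corner5 fun hh => hbd hh.symm
  have s1 : ({o, b, c, d, a} : Finset V) = {o, a, b, c, d} := by
    ext y
    simp only [Finset.mem_insert, Finset.mem_singleton]
    tauto
  have s2 : ({o, c, d, a, b} : Finset V) = {o, a, b, c, d} := by
    ext y
    simp only [Finset.mem_insert, Finset.mem_singleton]
    tauto
  have s3 : ({o, d, a, b, c} : Finset V) = {o, a, b, c, d} := by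
    ext y
    simp only [Finset.mem_insert, Finset.mem_singleton]
    tauto
  rw [s1] at eb
  rw [s2] at ec
  rw [s3] at ed
  have eo := h.deg_apex
  have ee := h.eout_eq5
  have eu := h.tri.euler
  rw [← Finset.sum_sdiff hsub] at eu
  have e5 : ∑ x ∈ ({o, a, b, c, d} : Finset V), ({y | G.Adj x y}.ncard : ℤ) =
      {y | G.Adj o y}.ncard + ({y | G.Adj a y}.ncard + ({y | G.Adj b y}.ncard +
        ({y | G.Adj c y}.ncard + ({y | G.Adj d y}.ncard : ℤ)))) := by
    rw [Finset.sum_insert, Finset.sum_insert, Finset.sum_insert, Finset.sum_insert,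
      Finset.sum_singleton]
    · simpa using h.cd
    · simpa using ⟨h.bc, h.bd⟩
    · simpa using ⟨h.ab, h.ac, h.ad⟩
    · simpa using ⟨h.oa.ne, h.ob.ne, h.oc.ne, h.od.ne⟩
  have e6 : (S \ ({o, a, b, c, d} : Finset V)).card + 5 = S.card := by
    rw [← hcard, Finset.card_sdiff_add_card_eq_card hsub]
  rw [Finset.sum_sub_distrib, Finset.sum_const, nsmul_eq_mul]
  rw [e5] at eu
  generalize (∑ x ∈ S \ ({o, a, b, c, d} : Finset V), ({y | G.Adj x y}.ncard : ℤ)) = X at *
  generalize (S \ ({o, a, b, c, d} : Finset V)).card = k at *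
  rw [ee]
  push_cast
  omega

/-- The boundary data of the disc. -/
theorem bdry [Fintype V] [DecidableEq V] (h : Apex S G T o a b c d) (hac : ¬ G.Adj a c)
    (hbd : ¬ G.Adj b d) (ha : 5 ≤ {y | G.Adj a y}.ncard) (hb : 5 ≤ {y | G.Adj b y}.ncard)
    (hc : 5 ≤ {y | G.Adj c y}.ncard) (hd : 5 ≤ {y | G.Adj d y}.ncard)
    (h1 : ∀ k, k ≠ o → k ≠ b → k ≠ d → G.Adj k a → ¬ G.Adj k c) :
    ∃ c' p : ℕ → V, (∀ i, c' (i + 4) = c' i) ∧ (∀ i, p (i + 4) = p i) ∧
      (∀ i, c' i ∉ S \ ({o, a, b, c, d} : Finset V)) ∧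
      (∀ i, p i ∈ S \ ({o, a, b, c, d} : Finset V)) ∧
      (∀ i < 4, ∀ j < 4, c' i = c' j → i = j) ∧ (∀ i < 4, ∀ j < 4, p i = p j → i = j) ∧
      (∀ i, T (c' i) (c' (i + 1)) (p i)) ∧
      (∀ x ∈ S \ ({o, a, b, c, d} : Finset V), ∀ y, y ∉ S \ ({o, a, b, c, d} : Finset V) →
        G.Adj x y → ∃ i, y = c' i) ∧ 8 ≤ eout G (S \ ({o, a, b, c, d} : Finset V)) ∧
      ∑ x ∈ S \ ({o, a, b, c, d} : Finset V), (6 - ({y | G.Adj x y}.ncard : ℤ)) =
        eout G (S \ ({o, a, b, c, d} : Finset V)) - 2 := by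
  have L := h.tri.toTriLoc
  have hca : ¬ G.Adj c a := fun hh => hac hh.symm
  have hdb : ¬ G.Adj d b := fun hh => hbd hh.symm
  obtain ⟨p, tp, p1, p2, p3, p4, p5, p6, p7⟩ := h.exists_side hac hbd
  obtain ⟨q, tq, q1, q2, q3, q4, q5, q6, q7⟩ := h.turn.exists_side hbd hca
  obtain ⟨r, tr, r1, r2, r3, r4, r5, r6, r7⟩ := h.turn.turn.exists_side hca hdb
  obtain ⟨s, ts, s1, s2, s3, s4, s5, s6, s7⟩ := h.turn.turn.turn.exists_side hdb hac
  have hps : p ≠ s := h.side_ne ha tp p1 ts
  have hqp : q ≠ p := h.turn.side_ne hb tq q1 tp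
  have hrq : r ≠ q := h.turn.turn.side_ne hc tr r1 tq
  have hsr : s ≠ r := h.turn.turn.turn.side_ne hd ts s1 tr
  have hpr : p ≠ r := by
    rintro rfl
    exact h1 p p1 p3 p5 p6 r6
  have hqs : q ≠ s := by
    rintro rfl
    exact h1 q q1 q2 q4 s7 q7
  have mI : ∀ {x u : V}, G.Adj x u → x ≠ o → x ≠ a → x ≠ b → x ≠ c → x ≠ d →
      x ∈ S \ ({o, a, b, c, d} : Finset V) := by
    intro x u hx x1 x2 x3 x4 x5
    simp only [Finset.mem_sdiff, Finset.mem_insert, Finset.mem_singleton]
    refine ⟨L.mem _ _ hx, ?_⟩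
    rintro (e | e | e | e | e)
    · exact x1 e
    · exact x2 e
    · exact x3 e
    · exact x4 e
    · exact x5 e
  have mp := mI p6 p1 p2 p3 p4 p5
  have mq := mI q6 q1 q5 q2 q3 q4
  have mr := mI r6 r1 r4 r5 r2 r3
  have ms := mI s6 s1 s3 s4 s5 s2
  -- two inner neighbours at every corner
  have two : ∀ {u x y : V}, x ∈ S \ ({o, a, b, c, d} : Finset V) →
      y ∈ S \ ({o, a, b, c, d} : Finset V) → x ≠ y → G.Adj x u → G.Adj y u →
      2 ≤ {x | x ∈ S \ ({o, a, b, c, d} : Finset V) ∧ G.Adj x u}.ncard := by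
    intro u x y hx hy hxy ex ey
    rw [← Set.ncard_pair hxy]
    refine Set.ncard_le_ncard ?_ (Set.toFinite _)
    rintro z (rfl | rfl)
    · exact ⟨hx, ex⟩
    · exact ⟨hy, ey⟩
  have n1 := two mp ms hps p6 s7
  have n2 := two mq mp hqp q6 p7
  have n3 := two mr mq hrq r6 q7
  have n4 := two ms mr hsr s6 r7
  let ν : ℕ → V := fun i => if i % 4 = 0 then a else if i % 4 = 1 then b else
    if i % 4 = 2 then c else d
  let π : ℕ → V := fun i => if i % 4 = 0 then p else if i % 4 = 1 then q else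
    if i % 4 = 2 then r else s
  refine ⟨ν, π, ?_, ?_, ?_, ?_, ?_, ?_, ?_, ?_, ?_, h.sum_inner hac hbd⟩
  · intro i
    simp only [ν, Nat.add_mod_right]
  · intro i
    simp only [π, Nat.add_mod_right]
  · intro i
    simp only [ν, Finset.mem_sdiff, Finset.mem_insert, Finset.mem_singleton]
    split_ifs <;> simp
  · intro i
    simp only [π]
    split_ifs
    · exact mp
    · exact mq
    · exact mr
    · exact ms
  · intro i hi j hj e
    have := h.ab
    have := h.ac
    have := h.ad
    have := h.bc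
    have := h.bd
    have := h.cd
    interval_cases i <;> interval_cases j <;> simp [ν] at e ⊢ <;> simp_all
  · intro i hi j hj e
    interval_cases i <;> interval_cases j <;> simp [π] at e ⊢ <;> simp_all
  · intro i
    have h4 : i % 4 < 4 := Nat.mod_lt _ (by omega)
    have e1 : (i + 1) % 4 = (i % 4 + 1) % 4 := by omega
    simp only [ν, π, e1]
    generalize i % 4 = m at h4
    interval_cases m
    · simpa using tp
    · simpa using tq
    · simpa using tr
    · simpa using ts
  · intro x hx y hy hxy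
    rcases h.out_corner hx hy hxy with rfl | rfl | rfl | rfl
    · exact ⟨0, rfl⟩
    · exact ⟨1, rfl⟩
    · exact ⟨2, rfl⟩
    · exact ⟨3, rfl⟩
  · rw [h.eout_eq5]
    omega

end Apex

end Pool.Agent.W986
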