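import Pool.Agent.W986.SubQDef

/-!
# Cutting a disc along a path of length two between opposite corners

`CutAt S G o a b c d k`: the disc `a b c d` falls into the discs `a b c k` and `a k c d`, which have
fewer vertices, and colourings of the two halves which agree on `a`, `k`, `c` can be glued.
-/

set_option autoImplicit false

open Finset

namespace Pool.Agent.W986

variable {V : Type}

/-- The disc with corners `a b c d` can be cut along the path `a k c`. -/
def CutAt (S : Finset V) (G : SimpleGraph V) (a b c d o k : V) : Prop :=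
  ∃ (S1 S2 : Finset (Option V)) (G1 G2 : SimpleGraph (Option V))
    (T1 T2 : Option V → Option V → Option V → Prop),
    Apex S1 G1 T1 none (some a) (some b) (some c) (some k) ∧ S1.card < S.card ∧
    Apex S2 G2 T2 none (some a) (some k) (some c) (some d) ∧ S2.card < S.card ∧
    (∀ u v, G1.Adj (some u) (some v) → G.Adj u v) ∧
    (∀ u v, G2.Adj (some u) (some v) → G.Adj u v) ∧
    ∀ (M : Set V) (M1 M2 : Set (Option V)) (c1 c2 : Option V → Fin 4), M ⊆ {a, b, c, d, k} →
      (a ∈ M → some a ∈ M1 ∧ some a ∈ M2) → (b ∈ M → some b ∈ M1) →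
      (c ∈ M → some c ∈ M1 ∧ some c ∈ M2) → (d ∈ M → some d ∈ M2) →
      (k ∈ M → some k ∈ M1 ∧ some k ∈ M2) →
      (some a ∈ M1 ∨ some a ∈ M2) → (some c ∈ M1 ∨ some c ∈ M2) →
      (some k ∈ M1 ∨ some k ∈ M2) → MDef G1 {none} M1 c1 → MDef G2 {none} M2 c2 →
      c1 (some a) = c2 (some a) → c1 (some c) = c2 (some c) → c1 (some k) = c2 (some k) →
      ∃ col : V → Fin 4, MDef G {o} M col ∧ col a = c1 (some a) ∧ col b = c1 (some b) ∧
        col c = c1 (some c) ∧ col d = c2 (some d) ∧ col k = c1 (some k)

/-- Discs can be cut. -/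
def Cuttable : Prop :=
  ∀ (V : Type) [Fintype V] [DecidableEq V] (S : Finset V) (G : SimpleGraph V)
    (T : V → V → V → Prop) (o a b c d k : V), Apex S G T o a b c d →
    ¬ G.Adj a c → ¬ G.Adj b d → k ≠ o → k ≠ b → k ≠ d → G.Adj k a → G.Adj k c →
    CutAt S G a b c d o k

end Pool.Agent.W986
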