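import Pool.Agent.W986.SubQCase
import Pool.Agent.W986.SubCount

/-!
# The region of a disc, and reductions of discs
-/

set_option autoImplicit false

open Finset

namespace Pool.Agent.W986

variable {V : Type} [Fintype V] [DecidableEq V] {S : Finset V} {G : SimpleGraph V}
  {T : V → V → V → Prop} {o a b c d : V}

/-- The local facts about a disc without simple reductions. -/
structure Local (S : Finset V) (G : SimpleGraph V) (T : V → V → V → Prop) (o a b c d : V) :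
    Prop where
  apex : Apex S G T o a b c d
  hac : ¬ G.Adj a c
  hbd : ¬ G.Adj b d
  three : ∀ x y z, x ≠ o → y ≠ o → z ≠ o → G.Adj x y → G.Adj y z → G.Adj z x → T x y z
  deg : ∀ x ∈ S, x ≠ o → x ≠ a → x ≠ b → x ≠ c → x ≠ d → 4 ≤ {y | G.Adj x y}.ncard
  opp1 : ∀ k, k ≠ o → k ≠ b → k ≠ d → G.Adj k a → ¬ G.Adj k c
  opp2 : ∀ k, k ≠ o → k ≠ a → k ≠ c → G.Adj k b → ¬ G.Adj k d
  four : ∀ x y z w, x ≠ a → x ≠ b → x ≠ c → x ≠ d → x ≠ o → y ≠ o → z ≠ o → w ≠ o → x ≠ z →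
    y ≠ w → G.Adj x y → G.Adj y z → G.Adj z w → G.Adj w x → G.Adj x z ∨ G.Adj y w ∨
      ∃ m, m ≠ o ∧ ∀ t, G.Adj m t ↔ t = x ∨ t = y ∨ t = z ∨ t = w

/-- The inner vertices. -/
def innQ (S : Finset V) (o a b c d : V) : Finset V := S \ {o, a, b, c, d}

omit [Fintype V] in
theorem mem_innQ {x : V} :
    x ∈ innQ S o a b c d ↔ x ∈ S ∧ x ≠ o ∧ x ≠ a ∧ x ≠ b ∧ x ≠ c ∧ x ≠ d := by
  unfold innQ
  simp only [mem_sdiff, mem_insert, mem_singleton, not_or]

omit [Fintype V] in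
theorem Apex.innQ_ne (h : Apex S G T o a b c d) {x y : V} (hx : x ∈ innQ S o a b c d)
    (hxy : G.Adj x y) : y ≠ o := by
  rintro rfl
  have h1 := (h.nb x).1 hxy.symm
  rw [mem_innQ] at hx
  tauto

theorem Local.region (h : Local S G T o a b c d) : Region S G T (innQ S o a b c d) := by
  have hA := h.apex
  have hI : ∀ x, x ∈ innQ S o a b c d ↔ x ∈ S ∧ x ≠ o ∧ x ≠ a ∧ x ≠ b ∧ x ≠ c ∧ x ≠ d :=
    fun x => mem_innQ
  have nac : ∀ x ∈ innQ S o a b c d, G.Adj a x → ¬ G.Adj c x := by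
    intro x hx h1 h2
    obtain ⟨_, k1, k2, k3, k4, k5⟩ := mem_innQ.1 hx
    exact h.opp1 x k1 k3 k5 h1.symm h2.symm
  have nbd : ∀ x ∈ innQ S o a b c d, G.Adj b x → ¬ G.Adj d x := by
    intro x hx h1 h2
    obtain ⟨_, k1, k2, k3, k4, k5⟩ := mem_innQ.1 hx
    exact h.opp2 x k1 k2 k4 h1.symm h2.symm
  have hcor : ∀ k ∈ innQ S o a b c d, ∀ u v, u ≠ v → (u = a ∨ u = b ∨ u = c ∨ u = d) →
      (v = a ∨ v = b ∨ v = c ∨ v = d) → G.Adj k u → G.Adj k v → G.Adj u v := by
    intro k hk u v huv hu hv hku hkv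
    have e1 := hA.adj_ab
    have e2 := hA.adj_bc
    have e3 := hA.adj_cd
    have e4 := hA.adj_da
    rcases hu with rfl | rfl | rfl | rfl <;> rcases hv with rfl | rfl | rfl | rfl
    · exact absurd rfl huv
    · exact e1
    · exact absurd hkv.symm (nac k hk hku.symm)
    · exact e4.symm
    · exact e1.symm
    · exact absurd rfl huv
    · exact e2
    · exact absurd hkv.symm (nbd k hk hku.symm)
    · exact absurd hku.symm (nac k hk hkv.symm)
    · exact e2.symm
    · exact absurd rfl huv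
    · exact e3
    · exact e4
    · exact absurd hku.symm (nbd k hk hkv.symm)
    · exact e3.symm
    · exact absurd rfl huv
  refine hA.region hI h.hac h.hbd nac nbd ?_ ?_ ?_
  · intro x hx
    obtain ⟨h1, h2, h3, h4, h5, h6⟩ := mem_innQ.1 hx
    exact h.deg x h1 h2 h3 h4 h5 h6
  · intro x hx y z hxy hyz hzx
    exact h.three x y z (mem_innQ.1 hx).2.1 (hA.innQ_ne hx hxy) (hA.innQ_ne hx hzx.symm) hxy hyz
      hzx
  · intro x hx y z w hxz hyw hxy hyz hzw hwx
    have hxo := (mem_innQ.1 hx).2.1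
    have hyo := hA.innQ_ne hx hxy
    have hwo := hA.innQ_ne hx hwx.symm
    by_cases hzo : z = o
    · subst hzo
      right
      left
      exact hcor x hx y w hyw ((hA.nb y).1 hyz.symm) ((hA.nb w).1 hzw) hxy hwx.symm
    · obtain ⟨_, _, hxa, hxb, hxc, hxd⟩ := mem_innQ.1 hx
      rcases h.four x y z w hxa hxb hxc hxd hxo hyo hzo hwo hxz hyw hxy hyz hzw hwx with
        h1 | h1 | ⟨m, hm, hm'⟩
      · exact Or.inl h1
      · exact Or.inr (Or.inl h1)
      · refine Or.inr (Or.inr ⟨m, ?_, hm'⟩)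
        have hmx : G.Adj m x := (hm' x).2 (Or.inl rfl)
        have hmo : ¬ G.Adj m o := by
          intro h1
          rcases (hm' o).1 h1 with h2 | h2 | h2 | h2
          · exact hxo h2.symm
          · exact hyo h2.symm
          · exact hzo h2.symm
          · exact hwo h2.symm
        rw [mem_innQ]
        refine ⟨hA.tri.mem _ _ hmx, hm, ?_, ?_, ?_, ?_⟩
        · rintro rfl
          exact hmo hA.oa.symm
        · rintro rfl
          exact hmo hA.ob.symm
        · rintro rfl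
          exact hmo hA.oc.symm
        · rintro rfl
          exact hmo hA.od.symm

omit [Fintype V] in
/-- A reduction of the region gives a smaller disc. -/
theorem Apex.red (h : Apex S G T o a b c d) (hr : HasRed 2 S G T (innQ S o a b c d)) :
    ∃ (S' : Finset V) (G' : SimpleGraph V) (T' : V → V → V → Prop) (ρ : V → V),
      S'.card < S.card ∧ Apex S' G' T' o (ρ a) (ρ b) (ρ c) (ρ d) ∧
      (∀ u v, u ∉ innQ S o a b c d → v ∉ innQ S o a b c d → G'.Adj (ρ u) (ρ v) →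
        G.Adj u v ∨ (∃ k ∈ innQ S o a b c d, G.Adj u k ∧ G.Adj k v) ∨
        ∃ k ∈ innQ S o a b c d, ∃ l ∈ innQ S o a b c d, G.Adj u k ∧ G.Adj k l ∧ G.Adj l v) ∧
      ∀ M : Set V, M ⊆ {a, b, c, d} → ∀ c' : V → Fin 4, MDef G' {o} (ρ '' M) c' →
        ∃ col : V → Fin 4, MDef G {o} M col ∧ col a = c' (ρ a) ∧ col b = c' (ρ b) ∧
          col c = c' (ρ c) ∧ col d = c' (ρ d) := by
  obtain ⟨ρ, K, hKI, hsub, hcard, hT, hfar, hinj, hadj, hlift⟩ := hr
  have hoI : o ∉ innQ S o a b c d := fun h1 => (mem_innQ.1 h1).2.1 rfl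
  have haI : a ∉ innQ S o a b c d := fun h1 => (mem_innQ.1 h1).2.2.1 rfl
  have hbI : b ∉ innQ S o a b c d := fun h1 => (mem_innQ.1 h1).2.2.2.1 rfl
  have hcI : c ∉ innQ S o a b c d := fun h1 => (mem_innQ.1 h1).2.2.2.2.1 rfl
  have hdI : d ∉ innQ S o a b c d := fun h1 => (mem_innQ.1 h1).2.2.2.2.2 rfl
  have hofar : ∀ k ∈ K, ¬ G.Adj k o := fun k hk h1 => h.innQ_ne (hKI hk) h1 rfl
  have hoK : o ∉ K := fun h1 => hoI (hKI h1)
  have ho : ∀ u, ρ u = o ↔ u = o := hfar o hoK hofar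
  have ho' : ρ o = o := (ho o).2 rfl
  have hne : ∀ u, u ≠ o → o ≠ ρ u := fun u hu h1 => hu ((ho u).1 h1.symm)
  have hao := h.oa.ne'
  have hbo := h.ob.ne'
  have hco := h.oc.ne'
  have hdo := h.od.ne'
  refine ⟨S.image ρ, quot G ρ, quotT T ρ, ρ, hcard, ?_, hadj, ?_⟩
  · refine ⟨hT, ?_, ?_, ?_, ?_, ?_, ?_, ?_, ?_, ?_, ?_, ?_⟩
    · intro y
      rw [quot_adj]
      constructor
      · rintro ⟨_, u, v, hu, rfl, huv⟩
        rw [ho] at hu
        subst hu
        rcases (h.nb v).1 huv with rfl | rfl | rfl | rfl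
        · exact Or.inl rfl
        · exact Or.inr (Or.inl rfl)
        · exact Or.inr (Or.inr (Or.inl rfl))
        · exact Or.inr (Or.inr (Or.inr rfl))
      · rintro (rfl | rfl | rfl | rfl)
        · exact ⟨hne _ hao, o, a, ho', rfl, h.oa⟩
        · exact ⟨hne _ hbo, o, b, ho', rfl, h.ob⟩
        · exact ⟨hne _ hco, o, c, ho', rfl, h.oc⟩
        · exact ⟨hne _ hdo, o, d, ho', rfl, h.od⟩
    · exact fun e => h.ab (hinj _ _ haI hbI e)
    · exact fun e => h.ac (hinj _ _ haI hcI e)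
    · exact fun e => h.ad (hinj _ _ haI hdI e)
    · exact fun e => h.bc (hinj _ _ hbI hcI e)
    · exact fun e => h.bd (hinj _ _ hbI hdI e)
    · exact fun e => h.cd (hinj _ _ hcI hdI e)
    · exact ⟨hne _ hao, fun e => h.ab (hinj _ _ haI hbI e), (hne _ hbo).symm, o, a, b, ho', rfl,
        rfl, h.t1⟩
    · exact ⟨hne _ hbo, fun e => h.bc (hinj _ _ hbI hcI e), (hne _ hco).symm, o, b, c, ho', rfl,
        rfl, h.t2⟩
    · exact ⟨hne _ hco, fun e => h.cd (hinj _ _ hcI hdI e), (hne _ hdo).symm, o, c, d, ho', rfl,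
        rfl, h.t3⟩
    · exact ⟨hne _ hdo, fun e => h.ad (hinj _ _ haI hdI e.symm), (hne _ hao).symm, o, d, a, ho',
        rfl, rfl, h.t4⟩
  · intro M hM c' hc'
    obtain ⟨col, h1, h2⟩ := hlift {o} M
      (by
        intro w hw
        rw [Set.mem_singleton_iff] at hw
        subst hw
        exact ⟨hoK, hofar⟩)
      (by
        intro m hm h1
        rw [mem_innQ] at h1
        have h2 := hM hm
        simp only [Set.mem_insert_iff, Set.mem_singleton_iff] at h2
        tauto) c' hc'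
    exact ⟨col, h1, h2 a fun h3 => haI (hKI h3), h2 b fun h3 => hbI (hKI h3),
      h2 c fun h3 => hcI (hKI h3), h2 d fun h3 => hdI (hKI h3)⟩

end Pool.Agent.W986
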