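import Pool.Agent.W986.SubLeavesB

/-!
# The second quantity: the Boolean functions

For the trees of the hubs, an entry `(y, c)` of the lists `kb`, `kg` of a patch has two meanings.
For `1000 ≤ c` it is the entry `(y, c - 1000)` of before, for the charge `k` at `y`. For `c < 1000`
the entry of `kb` means: `k ≤ 0` or `c * k ≤ 12 * W`, where `W` is the sum of the weights of the
neighbours of `y`; the entry of `kg` means the opposite, `0 < k` and `12 * W < c * k`.
-/

set_option autoImplicit false

namespace Pool.Agent.W986.ST.LB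

/-- The entries `(y, c)` with `1000 ≤ c`, as `(y, c - 1000)`. -/
def hiB {α : Type} (l : List (ℕ × ℕ)) : (List (ℕ × ℕ) → α) → α :=
  @List.rec (ℕ × ℕ) (fun _ => (List (ℕ × ℕ) → α) → α) (fun k => k [])
    (fun p _ ih k => cf (Nat.ble 1000 p.2)
      (frc p.1 fun a => frc (Nat.sub p.2 1000) fun c => ih fun l => k ((a, c) :: l)) (ih k)) l

/-- The entries `(y, c)`, as `(y, c - 1000)`. -/
def hiG {α : Type} (l : List (ℕ × ℕ)) : (List (ℕ × ℕ) → α) → α :=
  @List.rec (ℕ × ℕ) (fun _ => (List (ℕ × ℕ) → α) → α) (fun k => k [])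
    (fun p _ ih k =>
      frc p.1 fun a => frc (Nat.sub p.2 1000) fun c => ih fun l => k ((a, c) :: l)) l

/-- The patch with the bounds for the charge only, then `k`. -/
def unK {α : Type} (P : Patch) (k : Patch → α) : α :=
  hiB P.kb fun kb => hiG P.kg fun kg => k ⟨P.n, P.lk, P.lb, kb, kg⟩

/-- The largest `c < 1000` with an entry `(y, c)`, or 0. -/
def rlK (l : List (ℕ × ℕ)) (y : ℕ) : ℕ :=
  @List.rec (ℕ × ℕ) (fun _ => ℕ) 0
    (fun p _ ih => cf (Nat.beq p.1 y) (cf (Nat.ble 1000 p.2) ih (mx p.2 ih)) ih) l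

/-- One of the entries of `kg` below 1000 is impossible. -/
def rbad (rl : ℕ → ℕ) (Q : Patch) (l : List (ℕ × ℕ)) : Bool :=
  @List.rec (ℕ × ℕ) (fun _ => Bool) false
    (fun p _ ih => cf (Nat.ble 1000 p.2) ih (cf (Nat.ble p.2 (rl p.1)) true
      (cf (Nat.ble (Nat.mul (pos Q p.1) p.2) (Nat.mul 12 (sw Q (findL Q.lk p.1)))) true ih))) l

/-- Continue with the smaller one of the fractions `a / b`, `12 / c`; a fraction with the
denominator 0 does not count. -/
def minFr (a b c : ℕ) (k : ℕ → ℕ → Bool) : Bool :=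
  @Nat.rec (fun _ => Bool)
    (@Nat.rec (fun _ => Bool) false (fun c _ => k 12 (Nat.succ c)) c)
    (fun b' _ => cf (Nat.ble (Nat.mul a c) (Nat.mul 12 (Nat.succ b'))) (k a (Nat.succ b'))
      (@Nat.rec (fun _ => Bool) false (fun c _ => k 12 (Nat.succ c)) c)) b

/-- Check `num / den + (sum over the list) ≤ K / M`; `ctr` recognises the vertices which give
away less than their charge, `rl` are the entries below 1000, `M` is a lower bound for the weight
of the hub. -/
def sumOR (rl : ℕ → ℕ) (ctr : Patch → ℕ → Bool) (P : Patch) (K M : ℕ) (l : List ℕ) :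
    ℕ → ℕ → Bool :=
  @List.rec ℕ (fun _ => ℕ → ℕ → Bool)
    (fun num den => Nat.ble (Nat.mul num M) (Nat.mul K den))
    (fun u _ ih num den =>
      @Nat.rec (fun _ => Bool) (ih num den) (fun p _ =>
        frc (cf (ctr P u) p (Nat.succ p)) fun a => frc (rl u) fun c =>
          frc (frcH (findL P.lk u) fun k => cf (nil k) M (sw P k)) fun b =>
            minFr a b c fun a b =>
              frc (Nat.add (Nat.mul num b) (Nat.mul a den)) fun num =>
                frc (Nat.mul den b) fun den => ih num den) (pos P u)) l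

/-- The leaf for the hub, with the entries `rl` below 1000. -/
def leafBR (rl : ℕ → ℕ) (ctr : Patch → ℕ → Bool) (ex : Patch → ℕ) (P : Patch) : Bool :=
  cf (leafI P) true
    (frcH (findL P.lk 0) fun l => cf (nil l) false
      (frc (neg P 0) fun K => frc (ex P) fun e =>
        cf (Nat.beq K 0)
          (cf (Nat.ble (lo P 0) 12)
            (cf (Nat.beq e 0) (cf (Nat.beq (pos P 0) 0) true
              (cf (Nat.beq (rl 0) 0) (Nat.blt 0 (sw P l)) true)) false) false)
          (cf (Nat.ble e K) (frc (mn K 4) fun M => sumOR rl ctr P (Nat.sub K e) M l 0 1) false)))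

/-- As `mayM`; a vertex with an entry `9 ≤ c < 1000` in `kb` is not an exceptional sender. -/
def mayMR (rl : ℕ → ℕ) (P : Patch) (m : ℕ) : Bool :=
  frcH (findL P.lk m) fun l => cf (nil l) true
    (frc (posn l 0) fun j => cf (Nat.ble 4 j) true
      (frc (lnth l (Nat.mod (Nat.add j 2) 4)) fun u => an (Nat.ble (rl u) 8) (mayU P m u)))

/-- As `exU`, with the entries `rl` below 1000. -/
def exUR (rl : ℕ → ℕ) (P : Patch) : ℕ :=
  frcH (findL P.lk 0) fun l => frc (len l) fun d =>
    @Nat.rec (fun _ => ℕ) 0 (fun i ih => frc (lnth l i) fun m =>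
      cf (an (p4 P m) (an (mayD P 7 13 (lnth l (Nat.mod (Nat.add i 1) d)))
        (an (mayD P 7 13 (lnth l (Nat.mod (Nat.add i (Nat.sub d 1)) d))) (mayMR rl P m))))
        (Nat.succ ih) ih) d

end Pool.Agent.W986.ST.LB

namespace Pool.Agent.W986.ST

open LB

/-- The leaf for impossible patches, with the second quantity. -/
def lIR (P : Patch) : Bool :=
  cf (unK P fun Q => cf (rbad (rlK P.kb) Q P.kg) true (leafI Q)) true (LegF.leafI P)

/-- The leaf for the inequality at the hub, with the second quantity. -/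
def lFR (P : Patch) : Bool :=
  cf (unK P fun Q => cf (leafBR (rlK P.kb) ctrU (exUR (rlK P.kb)) Q) true
    (rbad (rlK P.kb) Q P.kg)) true
    (LegF.leafI P)

/-- The lists `kb`, `kg` of the facts below `b` are empty. -/
def flatB (fl : ℕ → Option Fact) (b : ℕ) : Bool :=
  @Nat.rec (fun _ => Bool) true (fun c ih => cf (@Option.rec Fact (fun _ => Bool) true
    (fun F => @List.rec (ℕ × ℕ) (fun _ => Bool) (@List.rec (ℕ × ℕ) (fun _ => Bool) true
      (fun _ _ _ => false) F.P.kg) (fun _ _ _ => false) F.P.kb) (fl c)) ih false) b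

end Pool.Agent.W986.ST
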