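import Pool.Agent.W986.SubRS
import Pool.Agent.W986.SubRegRed
import Pool.Agent.W986.SubLegEnv

/-!
# The leaves with the second quantity, in a region
-/

set_option autoImplicit false

open Finset

namespace Pool.Agent.W986

open Pool.Agent.DC76 Pool.Agent.W986.ST Pool.Agent.W986.ST.LB

section region

variable {V : Type} {χ : ℤ} {S I : Finset V} {G : SimpleGraph V} {T : V → V → V → Prop}

/-- Contradictory patches have no realisation. -/
theorem LegF.leafI_real (hT : TriOn χ S G T) (R : Region S G T I) (s : ℤ) {P : Patch}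
    {f : ℕ → V} (hP : LegF.leafI P = true) : ¬ (regEnv hT R s).Real P.lk P.lb f := fun h =>
  LegF.leafI_sound hT R s (P := ⟨P.n, P.lk, P.lb, [], []⟩) hP
    ⟨h, fun _ hp => absurd hp List.not_mem_nil, fun _ hp => absurd hp List.not_mem_nil⟩

variable [Fintype V]

/-- The leaf for impossible patches, with the second quantity, is correct. -/
theorem lIR_region (hT : TriOn χ S G T) (R : Region S G T I) (hK : KapOK (regEnv hT R 6))
    {P : Patch} {f : ℕ → V} (hl : lIR P = true) : ¬ (rEnv (regEnv hT R 6)).Sat P f :=
  lIR_sound hK (fun h => LegF.leafI_real hT R 6 h) hl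

/-- The leaf for the inequality at the hub, with the second quantity, is correct. -/
theorem lFR_region (hT : TriOn χ S G T) (R : Region S G T I) (hK : KapOK (regEnv hT R 6))
    (hs : ∀ P ∈ small, ∀ f, ¬ (regEnv hT R 6).Sat P f) {P : Patch} {f : ℕ → V}
    (hl : lFR P = true) (h : (rEnv (regEnv hT R 6)).Sat P f) : FinU (regEnv hT R 6) (f 0) :=
  lFR_sound hK ((regEnv hT R 6).local_facts hs).2.2.2.2.2
    (fun h => LegF.leafI_real hT R 6 h) h hl

end region

/-- Patches without bounds have the same realisations. -/
theorem rEnv_sat_iff {V : Type} [Fintype V] {E : ST.Env V} {P : Patch} {f : ℕ → V}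
    (h1 : P.kb = []) (h2 : P.kg = []) : (rEnv E).Sat P f ↔ E.Sat P f := by
  constructor
  · intro h
    refine ⟨h.real, ?_, ?_⟩
    · rw [h1]
      exact fun _ hp => absurd hp List.not_mem_nil
    · rw [h2]
      exact fun _ hp => absurd hp List.not_mem_nil
  · intro h
    refine ⟨h.real, ?_, ?_⟩
    · rw [h1]
      exact fun _ hp => absurd hp List.not_mem_nil
    · rw [h2]
      exact fun _ hp => absurd hp List.not_mem_nil

end Pool.Agent.W986
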