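import Pool.Agent.W986.SubMidB
import Pool.Agent.W986.SubRB

/-!
# The second quantity

`rEnv E` is the environment `E` with another quantity, which contains the charge `k` of a vertex
and the quotient of the sum of the weights of its neighbours and `k`. The leaves of `SubRB.lean`
are correct.
-/

set_option autoImplicit false

open Finset

namespace Pool.Agent.W986.ST.LB

open Pool.Agent.W986 Pool.Agent.W986.ST

/-! ### Evaluation -/

theorem hiB_mem {l : List (ℕ × ℕ)} {α : Type} (k : List (ℕ × ℕ) → α) :
    ∃ l', hiB l k = k l' ∧ ∀ p ∈ l', (p.1, p.2 + 1000) ∈ l := by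
  induction l generalizing k with
  | nil => exact ⟨[], rfl, fun p hp => absurd hp List.not_mem_nil⟩
  | cons p l ih =>
    change ∃ l', cf (Nat.ble 1000 p.2)
      (frc p.1 fun a => frc (Nat.sub p.2 1000) fun c => hiB l fun l => k ((a, c) :: l)) (hiB l k) =
        k l' ∧ _
    cases h : Nat.ble 1000 p.2 with
    | false =>
      obtain ⟨l', h1, h2⟩ := ih k
      exact ⟨l', h1, fun q hq => List.mem_cons_of_mem _ (h2 q hq)⟩
    | true =>
      have h3 := Nat.le_of_ble_eq_true h
      rw [cf_true, frc_eq, frc_eq]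
      obtain ⟨l', h1, h2⟩ := ih fun l => k ((p.1, Nat.sub p.2 1000) :: l)
      refine ⟨(p.1, Nat.sub p.2 1000) :: l', h1, fun q hq => ?_⟩
      rcases List.mem_cons.1 hq with rfl | hq
      · have h4 : Nat.sub p.2 1000 + 1000 = p.2 := Nat.sub_add_cancel h3
        dsimp only
        rw [h4]
        exact List.mem_cons_self
      · exact List.mem_cons_of_mem _ (h2 q hq)

theorem hiG_mem {l : List (ℕ × ℕ)} {α : Type} (k : List (ℕ × ℕ) → α) :
    ∃ l', hiG l k = k l' ∧ ∀ p ∈ l', ∃ c, (p.1, c) ∈ l ∧ p.2 = c - 1000 := by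
  induction l generalizing k with
  | nil => exact ⟨[], rfl, fun p hp => absurd hp List.not_mem_nil⟩
  | cons p l ih =>
    change ∃ l', (frc p.1 fun a => frc (Nat.sub p.2 1000) fun c =>
      hiG l fun l => k ((a, c) :: l)) = k l' ∧ _
    rw [frc_eq, frc_eq]
    obtain ⟨l', h1, h2⟩ := ih fun l => k ((p.1, Nat.sub p.2 1000) :: l)
    refine ⟨(p.1, Nat.sub p.2 1000) :: l', h1, fun q hq => ?_⟩
    rcases List.mem_cons.1 hq with rfl | hq
    · exact ⟨p.2, List.mem_cons_self, rfl⟩
    · obtain ⟨c, h3, h4⟩ := h2 q hq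
      exact ⟨c, List.mem_cons_of_mem _ h3, h4⟩

theorem rlK_cons (y : ℕ) (p : ℕ × ℕ) (l : List (ℕ × ℕ)) :
    rlK (p :: l) y = cf (Nat.beq p.1 y) (cf (Nat.ble 1000 p.2) (rlK l y)
      (mx p.2 (rlK l y))) (rlK l y) := rfl

theorem rlK_mem (y : ℕ) (l : List (ℕ × ℕ)) (h : rlK l y ≠ 0) :
    (y, rlK l y) ∈ l ∧ rlK l y < 1000 := by
  induction l with
  | nil => exact absurd rfl h
  | cons p l ih =>
    rw [rlK_cons] at h ⊢
    cases hc : Nat.beq p.1 y with
    | false =>
      rw [hc, cf_false] at h
      rw [cf_false]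
      exact ⟨List.mem_cons_of_mem _ (ih h).1, (ih h).2⟩
    | true =>
      rw [hc, cf_true] at h
      rw [cf_true]
      have h1 := Nat.eq_of_beq_eq_true hc
      cases hd : Nat.ble 1000 p.2 with
      | true =>
        rw [hd, cf_true] at h
        rw [cf_true]
        exact ⟨List.mem_cons_of_mem _ (ih h).1, (ih h).2⟩
      | false =>
        have h3 := ble_false hd
        rw [hd, cf_false, mx_eq] at h
        rw [cf_false, mx_eq]
        rcases le_total p.2 (rlK l y) with h2 | h2
        · rw [max_eq_right h2] at h ⊢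
          exact ⟨List.mem_cons_of_mem _ (ih h).1, (ih h).2⟩
        · rw [max_eq_left h2, ← h1]
          exact ⟨List.mem_cons_self, h3⟩

theorem rbad_cons (rl : ℕ → ℕ) (Q : Patch) (p : ℕ × ℕ) (l : List (ℕ × ℕ)) :
    rbad rl Q (p :: l) = cf (Nat.ble 1000 p.2) (rbad rl Q l) (cf (Nat.ble p.2 (rl p.1)) true
      (cf (Nat.ble (Nat.mul (pos Q p.1) p.2) (Nat.mul 12 (sw Q (findL Q.lk p.1)))) true
        (rbad rl Q l))) := rfl

theorem minFr_spec {a b c : ℕ} {k : ℕ → ℕ → Bool} (h : minFr a b c k = true) :
    (0 < b ∧ k a b = true) ∨ (0 < c ∧ k 12 c = true) := by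
  have key : (@Nat.rec (fun _ => Bool) false (fun c _ => k 12 (Nat.succ c)) c : Bool) = true →
      0 < c ∧ k 12 c = true := by
    intro h1
    cases c with
    | zero => exact absurd h1 Bool.false_ne_true
    | succ c => exact ⟨Nat.succ_pos c, h1⟩
  cases b with
  | zero => exact Or.inr (key h)
  | succ b =>
    change cf (Nat.ble (Nat.mul a c) (Nat.mul 12 (Nat.succ b))) (k a (Nat.succ b)) _ = true at h
    cases h1 : Nat.ble (Nat.mul a c) (Nat.mul 12 (Nat.succ b)) with
    | true =>
      rw [h1, cf_true] at h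
      exact Or.inl ⟨Nat.succ_pos b, h⟩
    | false =>
      rw [h1, cf_false] at h
      exact Or.inr (key h)

theorem sumOR_cons (rl : ℕ → ℕ) (ctr : Patch → ℕ → Bool) (P : Patch) (K M u : ℕ) (l : List ℕ)
    (num den : ℕ) : sumOR rl ctr P K M (u :: l) num den =
      @Nat.rec (fun _ => Bool) (sumOR rl ctr P K M l num den) (fun p _ =>
        frc (cf (ctr P u) p (Nat.succ p)) fun a => frc (rl u) fun c =>
          frc (frcH (findL P.lk u) fun k => cf (nil k) M (sw P k)) fun b =>
            minFr a b c fun a b =>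
              frc (Nat.add (Nat.mul num b) (Nat.mul a den)) fun num =>
                frc (Nat.mul den b) fun den => sumOR rl ctr P K M l num den) (pos P u) := rfl

/-! ### The environment -/

section env

variable {V : Type} [Fintype V]

/-- The sum of the weights of the neighbours. -/
noncomputable def WS (E : Env V) (x : V) : ℕ := Wsum E.H (fun y => wt (E.kap y)) x

/-- The second quantity. -/
noncomputable def kR (E : Env V) (x : V) : ℤ :=
  if 0 < E.kap x then -(min (12 * (WS E x : ℤ) / E.kap x) 999) else E.kap x - 1000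

/-- The environment with the second quantity. -/
noncomputable def rEnv (E : Env V) : Env V := { E with kap := kR E }

variable {E : Env V} {P Q : Patch} {f : ℕ → V}

theorem kR_pos {x : V} (h : 0 < E.kap x) :
    kR E x = -(min (12 * (WS E x : ℤ) / E.kap x) 999) := if_pos h

theorem kR_nonpos {x : V} (h : ¬ 0 < E.kap x) : kR E x = E.kap x - 1000 := if_neg h

/-- The transport of the patch. -/
theorem unK_spec (h : (rEnv E).Sat P f) {α : Type} (k : Patch → α) :
    ∃ Q, unK P k = k Q ∧ E.Sat Q f := by
  obtain ⟨kb, h1, h2⟩ := hiB_mem (l := P.kb) fun kb =>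
    hiG P.kg fun kg => k ⟨P.n, P.lk, P.lb, kb, kg⟩
  obtain ⟨kg, h3, h4⟩ := hiG_mem (l := P.kg) fun kg => k ⟨P.n, P.lk, P.lb, kb, kg⟩
  refine ⟨⟨P.n, P.lk, P.lb, kb, kg⟩, h1.trans h3, ⟨h.real, ?_, ?_⟩⟩
  · intro p hp
    have h5 := h.kb _ (h2 p hp)
    change kR E (f p.1) ≤ -((p.2 + 1000 : ℕ) : ℤ) at h5
    push_cast at h5
    by_cases h6 : 0 < E.kap (f p.1)
    · rw [kR_pos h6] at h5
      have := min_le_right (12 * (WS E (f p.1) : ℤ) / E.kap (f p.1)) 999
      omega
    · rw [kR_nonpos h6] at h5
      omega
  · intro p hp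
    obtain ⟨c, h5, h6⟩ := h4 p hp
    have h7 := h.kg _ h5
    change -(c : ℤ) < kR E (f p.1) at h7
    rw [h6]
    by_cases h8 : 0 < E.kap (f p.1)
    · omega
    · rw [kR_nonpos h8] at h7
      omega

/-- The entries of `kb` below 1000. -/
theorem rlK_le (h : (rEnv E).Sat P f) {u : ℕ} (hu : 0 < E.kap (f u)) :
    (rlK P.kb u : ℤ) * E.kap (f u) ≤ 12 * (WS E (f u) : ℤ) := by
  rcases Nat.eq_zero_or_pos (rlK P.kb u) with h0 | h0
  · rw [h0]
    push_cast
    rw [zero_mul]
    positivity
  · obtain ⟨h1, _⟩ := rlK_mem u P.kb (by omega)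
    have h3 := h.kb _ h1
    change kR E (f u) ≤ -((rlK P.kb u : ℕ) : ℤ) at h3
    rw [kR_pos hu, neg_le_neg_iff] at h3
    exact (Int.le_ediv_iff_mul_le hu).1 (h3.trans (min_le_left _ _))

theorem kg_lt (h : (rEnv E).Sat P f) {y c : ℕ} (hy : (y, c) ∈ P.kg) (hc : c < 1000) :
    0 < E.kap (f y) ∧ 12 * (WS E (f y) : ℤ) < (c : ℤ) * E.kap (f y) := by
  have h1 := h.kg _ hy
  change -(c : ℤ) < kR E (f y) at h1
  by_cases h2 : 0 < E.kap (f y)
  · rw [kR_pos h2] at h1
    refine ⟨h2, ?_⟩
    have h3 : min (12 * (WS E (f y) : ℤ) / E.kap (f y)) 999 < (c : ℤ) := by omega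
    rcases min_lt_iff.1 h3 with h4 | h4
    · exact (Int.ediv_lt_iff_lt_mul h2).1 h4
    · omega
  · rw [kR_nonpos h2] at h1
    omega

theorem rbad_false (hK : KapOK E) (h : (rEnv E).Sat P f) (hQ : E.Sat Q f)
    (l : List (ℕ × ℕ)) (hsub : ∀ p ∈ l, p ∈ P.kg) (hl : rbad (rlK P.kb) Q l = true) : False := by
  induction l with
  | nil => exact absurd hl Bool.false_ne_true
  | cons p l ih =>
    have ih := ih fun q hq => hsub q (List.mem_cons_of_mem _ hq)
    rw [rbad_cons] at hl
    cases h1 : Nat.ble 1000 p.2 with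
    | true =>
      rw [h1, cf_true] at hl
      exact ih hl
    | false =>
      rw [h1, cf_false] at hl
      obtain ⟨h4, h5⟩ := kg_lt h (y := p.1) (c := p.2) (hsub p List.mem_cons_self)
        (ble_false h1)
      cases h2 : Nat.ble p.2 (rlK P.kb p.1) with
      | true =>
        have h3 := Nat.le_of_ble_eq_true h2
        have h6 := rlK_le h h4
        have h7 : (p.2 : ℤ) * E.kap (f p.1) ≤ (rlK P.kb p.1 : ℤ) * E.kap (f p.1) :=
          mul_le_mul_of_nonneg_right (by exact_mod_cast h3) h4.le
        omega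
      | false =>
        rw [h2, cf_false] at hl
        cases h3 : Nat.ble (Nat.mul (pos Q p.1) p.2) (Nat.mul 12 (sw Q (findL Q.lk p.1))) with
        | false =>
          rw [h3, cf_false] at hl
          exact ih hl
        | true =>
          have h6 : pos Q p.1 * p.2 ≤ 12 * sw Q (findL Q.lk p.1) := Nat.le_of_ble_eq_true h3
          have h7 := pos_le hK hQ p.1
          have h8 : sw Q (findL Q.lk p.1) ≤ WS E (f p.1) := sw_le hK hQ p.1
          have h9 : (p.2 : ℤ) * E.kap (f p.1) ≤ (p.2 : ℤ) * (pos Q p.1 : ℤ) :=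
            mul_le_mul_of_nonneg_left h7 (Nat.cast_nonneg _)
          have h10 : (p.2 : ℤ) * (pos Q p.1 : ℤ) ≤ 12 * (WS E (f p.1) : ℤ) := by
            have h11 : p.2 * pos Q p.1 ≤ 12 * WS E (f p.1) := by
              rw [mul_comm]
              omega
            exact_mod_cast h11
          omega

/-! ### The sum -/

variable {gk : V → ℤ} {ext : V → ℕ} {ctr : Patch → ℕ → Bool} {ex : Patch → ℕ} {rl : ℕ → ℕ}

theorem term_leR {x : V} {a b : ℕ} (hb0 : 0 < b)
    (hb : E.I x → 0 < E.kap x → (gk x : ℤ) * b ≤ a * (WS E x : ℤ)) (h0 : 0 < E.kap x → 0 < WS E x) :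
    term E gk x ≤ (a : ℚ) / b := by
  rw [term]
  have h3 : (0 : ℚ) < (b : ℚ) := by exact_mod_cast hb0
  split_ifs with h4
  · have h5 := h0 h4.2.1
    have h6 : (0 : ℚ) < (WS E x : ℚ) := by exact_mod_cast h5
    change (gk x : ℚ) / (WS E x : ℚ) ≤ _
    rw [div_le_div_iff₀ h6 h3]
    exact_mod_cast hb h4.1 h4.2.1
  · positivity

theorem wt_le_ws {x y : V} (h : E.H.Adj x y) : wt (E.kap y) ≤ WS E x := by
  classical
  unfold WS Wsum
  exact single_le_sum (f := fun y => wt (E.kap y)) (fun _ _ => Nat.zero_le _)
    (mem_filter.2 ⟨mem_univ y, h⟩)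

theorem sumOR_le (hK : KapOK E) (h : E.Sat P f) (hgk : ∀ u, gk u ≤ E.kap u)
    (hctr : ∀ u, ctr P u = true → gk (f u) ≤ E.kap (f u) - 1)
    (hrl : ∀ u, 0 < E.kap (f u) → (rl u : ℤ) * E.kap (f u) ≤ 12 * (WS E (f u) : ℤ)) {K M : ℕ}
    (hM : 0 < M) (hM' : M ≤ wt (E.kap (f 0))) (l : List ℕ) (hadj : ∀ u ∈ l, E.H.Adj (f 0) (f u))
    (num den : ℕ) (hden : 0 < den) (hs : sumOR rl ctr P K M l num den = true) :
    (num : ℚ) / den + (l.map fun u => term E gk (f u)).sum ≤ (K : ℚ) / M := by
  induction l generalizing num den with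
  | nil =>
    rw [List.map_nil, List.sum_nil, add_zero]
    have h1 : Nat.ble (Nat.mul num M) (Nat.mul K den) = true := hs
    have h2 : num * M ≤ K * den := Nat.le_of_ble_eq_true h1
    rw [div_le_div_iff₀ (by positivity) (by positivity)]
    exact_mod_cast h2
  | cons u l ih =>
    have ih := ih fun v hv => hadj v (List.mem_cons_of_mem _ hv)
    rw [List.map_cons, List.sum_cons]
    rw [sumOR_cons] at hs
    cases hp : pos P u with
    | zero =>
      rw [hp] at hs
      have h1 := pos_le hK h u
      rw [hp] at h1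
      have h2 : term E gk (f u) = 0 := by
        rw [term, if_neg]
        rintro ⟨_, h3, _⟩
        simp at h1
        omega
      rw [h2, zero_add]
      exact ih num den hden hs
    | succ p =>
      rw [hp] at hs
      dsimp only at hs
      rw [frc_eq, frc_eq, frc_eq] at hs
      have h0 := pos_le hK h u
      rw [hp] at h0
      -- the numerator
      have ha : 0 < E.kap (f u) → gk (f u) ≤ (cf (ctr P u) p (Nat.succ p) : ℕ) := by
        intro _
        cases hc : ctr P u with
        | true =>
          have := hctr u hc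
          rw [cf_true]
          push_cast at h0
          omega
        | false =>
          have := hgk (f u)
          rw [cf_false]
          push_cast at h0 ⊢
          omega
      -- the denominator
      have hb : (frcH (findL P.lk u) fun k => cf (nil k) M (sw P k)) ≤ WS E (f u) := by
        rw [frcH_eq]
        cases hn : nil (findL P.lk u) with
        | true =>
          rw [cf_true]
          exact hM'.trans (wt_le_ws (hadj u List.mem_cons_self).symm)
        | false =>
          rw [cf_false]
          exact sw_le hK h u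
      have key : ∃ a b : ℕ, 0 < b ∧ term E gk (f u) ≤ (a : ℚ) / b ∧
          sumOR rl ctr P K M l (num * b + a * den) (den * b) = true := by
        rcases minFr_spec hs with ⟨h1, h2⟩ | ⟨h1, h2⟩
        · rw [frc_eq, frc_eq] at h2
          refine ⟨_, _, h1, term_leR h1 (fun _ h3 => ?_) (fun _ => lt_of_lt_of_le h1 hb), h2⟩
          have h4 := ha h3
          refine (mul_le_mul_of_nonneg_right h4 (Nat.cast_nonneg _)).trans ?_
          exact mul_le_mul_of_nonneg_left (by exact_mod_cast hb) (Nat.cast_nonneg _)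
        · rw [frc_eq, frc_eq] at h2
          refine ⟨12, rl u, h1, term_leR h1 (fun _ h3 => ?_) (fun h3 => ?_), h2⟩
          · have h4 := hrl u h3
            have h5 := mul_le_mul_of_nonneg_right (hgk (f u)) (Nat.cast_nonneg (rl u) : (0 : ℤ) ≤ _)
            push_cast
            linarith
          · have h4 := hrl u h3
            have h5 : (0 : ℤ) < (rl u : ℤ) * E.kap (f u) :=
              mul_pos (by exact_mod_cast h1) h3
            omega
      obtain ⟨a, b, hb0, h2, h4⟩ := key
      have h1 := ih (num * b + a * den) (den * b) (by positivity) h4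
      have h3 : ((num * b + a * den : ℕ) : ℚ) / ((den * b : ℕ) : ℚ) =
          (num : ℚ) / den + (a : ℚ) / (b : ℚ) := by
        have h5 : (den : ℚ) ≠ 0 := by positivity
        have h6 : (b : ℚ) ≠ 0 := by positivity
        push_cast
        field_simp
      rw [h3] at h1
      linarith

omit [Fintype V] in
/-- The labels of a list belong to neighbours. -/
theorem link_adj {u : ℕ} {l : List ℕ} (h : E.Lk f u l) {y : ℕ} (hy : y ∈ l) :
    E.H.Adj (f u) (f y) := by
  have key : ∀ l : List ℕ, y ∈ l → ∃ i < l.length, lnth l i = y := by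
    intro l
    induction l with
    | nil => exact fun h => absurd h List.not_mem_nil
    | cons x l ih =>
      intro h1
      rcases List.mem_cons.1 h1 with rfl | h1
      · exact ⟨0, Nat.succ_pos _, rfl⟩
      · obtain ⟨i, hi, h2⟩ := ih h1
        exact ⟨i + 1, Nat.succ_lt_succ hi, h2⟩
  obtain ⟨i, hi, h1⟩ := key l hy
  have h2 := h.2.adj_nu i
  rw [Nat.mod_eq_of_lt hi, h1] at h2
  exact h2

theorem leafBR_sound (hK : KapOK E) (h : E.Sat P f) (hgk : ∀ u, gk u ≤ E.kap u)
    (hctr : ∀ u, ctr P u = true → gk (f u) ≤ E.kap (f u) - 1)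
    (hrl : ∀ u, 0 < E.kap (f u) → (rl u : ℤ) * E.kap (f u) ≤ 12 * (WS E (f u) : ℤ))
    (hex : nil (findL P.lk 0) = false → ext (f 0) ≤ ex P)
    (hl : leafBR rl ctr ex P = true) : FinB E gk ext (f 0) := by
  rw [leafBR, frcH_eq] at hl
  cases hc : leafI P with
  | true => exact absurd h (leafI_sound hK hc)
  | false =>
    rw [hc, cf_false] at hl
    cases hn : nil (findL P.lk 0) with
    | true =>
      rw [hn, cf_true] at hl
      exact absurd hl Bool.false_ne_true
    | false =>
      have hex := hex hn
      rw [hn, cf_false, frc_eq, frc_eq] at hl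
      cases hK0 : Nat.beq (neg P 0) 0 with
      | true =>
        rw [hK0, cf_true] at hl
        cases h1 : Nat.ble (lo P 0) 12 with
        | false =>
          rw [h1, cf_false] at hl
          exact absurd hl Bool.false_ne_true
        | true =>
          rw [h1, cf_true] at hl
          have h2 := Nat.le_of_ble_eq_true h1
          have h3 := lo_le hK h 0 (by omega)
          cases h4 : Nat.beq (ex P) 0 with
          | false =>
            rw [h4, cf_false] at hl
            exact absurd hl Bool.false_ne_true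
          | true =>
            rw [h4, cf_true] at hl
            have h5 := Nat.eq_of_beq_eq_true h4
            refine ⟨fun h6 => by omega, fun _ => by omega, fun h6 => ?_⟩
            cases h7 : Nat.beq (pos P 0) 0 with
            | true =>
              have h8 := Nat.eq_of_beq_eq_true h7
              have h9 := pos_le hK h 0
              omega
            | false =>
              rw [h7, cf_false] at hl
              cases h8 : Nat.beq (rl 0) 0 with
              | true =>
                rw [h8, cf_true] at hl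
                have h9 : 0 < sw P (findL P.lk 0) := Nat.le_of_ble_eq_true hl
                exact h9.trans_le (sw_le hK h 0)
              | false =>
                have h9 : rl 0 ≠ 0 := by
                  intro h9
                  rw [h9] at h8
                  exact absurd h8 (by decide)
                have h10 := hrl 0 h6
                have h11 : (0 : ℤ) < (rl 0 : ℤ) * E.kap (f 0) := mul_pos (by omega) h6
                change 0 < WS E (f 0)
                omega
      | false =>
        rw [hK0, cf_false] at hl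
        have h0 : neg P 0 ≠ 0 := by
          intro h1
          rw [h1] at hK0
          exact absurd hK0 (by decide)
        have h1 := neg_le hK h 0 h0
        cases h2 : Nat.ble (ex P) (neg P 0) with
        | false =>
          rw [h2, cf_false] at hl
          exact absurd hl Bool.false_ne_true
        | true =>
          rw [h2, cf_true, frc_eq] at hl
          have h3 := Nat.le_of_ble_eq_true h2
          refine ⟨fun _ => ?_, fun h6 => by omega, fun h6 => by omega⟩
          have hM : 0 < mn (neg P 0) 4 := by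
            rw [mn_eq]
            omega
          have h4 := sumOR_le hK h hgk hctr hrl hM (wt_le hK h 0) _
            (fun u hu => link_adj (link h hn) hu) _ _ Nat.one_pos hl
          rw [← sum_link (link h hn) (fun u => term E gk u)] at h4
          rw [mn_eq] at h4 hM
          exact arith (by omega) hM h3 hex h1 (by simpa using h4)

/-! ### The exceptional senders -/

/-- The quotient at an exceptional sender. -/
theorem ExS.ratio (hK : KapOK E) {m u : V} (h : ExS E m u) : E.kap u = 3 ∧ WS E u = 2 := by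
  obtain ⟨hI, hD, ν, hν, h0, h4, ⟨d1, k1⟩, ⟨d2, k2⟩, ⟨d3, k3⟩, ⟨d4, k4⟩⟩ := h
  rw [← h0] at h4
  constructor
  · have h1 := hK.inn u hI (by rw [hD]; norm_num) ν (by rw [hD]; exact hν)
    rw [hD] at h1
    have h2 : (range 5).filter (fun i => E.D (ν i) = 4) = {0} := by
      ext i
      rw [mem_filter, mem_range, mem_singleton]
      constructor
      · rintro ⟨hi, h5⟩
        have : i = 0 ∨ i = 1 ∨ i = 2 ∨ i = 3 ∨ i = 4 := by omega
        rcases this with rfl | rfl | rfl | rfl | rfl
        · rfl
        · omega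
        · omega
        · omega
        · omega
      · rintro rfl
        exact ⟨by norm_num, h4⟩
    rw [h2, card_singleton] at h1
    rw [h1]
    norm_num
  · have h1 : WS E u = ∑ t ∈ range 5, wt (E.kap (ν t)) := hν.Wsum_eq _
    rw [h1]
    simp only [sum_range_succ, sum_range_zero]
    rw [hK.four _ h4, k1, k2, k3, k4]
    decide

theorem exS_rl (hK : KapOK E) {m u : V} (h : ExS E m u) {c : ℕ}
    (hc : (c : ℤ) * E.kap u ≤ 12 * (WS E u : ℤ)) : c ≤ 8 := by
  obtain ⟨h1, h2⟩ := ExS.ratio hK h
  rw [h1, h2] at hc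
  push_cast at hc
  omega

theorem mayMR_intro (hK : KapOK E) (h : E.Sat P f)
    (hrl : ∀ u, 0 < E.kap (f u) → (rl u : ℤ) * E.kap (f u) ≤ 12 * (WS E (f u) : ℤ)) {m : ℕ}
    (hm : f m ∈ midS E) (ho : oppM E (f m) = f 0) : mayMR rl P m = true := by
  unfold mayMR
  rw [frcH_eq]
  cases hn : nil (findL P.lk m) with
  | true => rfl
  | false =>
    rw [cf_false, frc_eq]
    have hl := deg_len h hn
    rw [midS_four hm] at hl
    cases hj : Nat.ble 4 (posn (findL P.lk m) 0) with
    | true => rfl
    | false =>
      rw [cf_false, frc_eq]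
      have hj := ble_false hj
      have h1 := posn_spec (findL P.lk m) 0 (by omega)
      set j := posn (findL P.lk m) 0 with hjd
      have hrot := rot_from h (j := j) hn hl
      have h2 := midS_from hm ho hrot (by rw [zero_add, Nat.mod_eq_of_lt hj, h1])
      simp only [add_comm _ j] at h2
      have h3 : ExS E (f m) (f (lnth (findL P.lk m) ((j + 2) % 4))) := h2 ▸ cenV_spec hm
      exact an_intro (Nat.ble_eq_true_of_le (exS_rl hK h3 (hrl _ (ExS.kap_pos hK h3))))
        (mayU_intro hK h h3)

/-- The bound for what the hub receives more. -/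
theorem exUR_ge (hK : KapOK E) (h : E.Sat P f)
    (hrl : ∀ u, 0 < E.kap (f u) → (rl u : ℤ) * E.kap (f u) ≤ 12 * (WS E (f u) : ℤ))
    (hn : nil (findL P.lk 0) = false) : pcnt (midS E) (oppM E) (f 0) ≤ exUR rl P := by
  classical
  unfold exUR
  rw [frcH_eq, frc_eq, len_eq]
  simp only [frc_eq]
  set l := findL P.lk 0 with hl
  have hlk := link h hn
  have hd := hlk.three
  rw [rec_card (fun i => an (p4 P (lnth l i)) (an (mayD P 7 13 (lnth l (Nat.mod (Nat.add i 1)
    l.length))) (an (mayD P 7 13 (lnth l (Nat.mod (Nat.add i (Nat.sub l.length 1)) l.length)))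
    (mayMR rl P (lnth l i)))))]
  unfold pcnt
  have hsub : (midS E).filter (fun m => oppM E m = f 0) ⊆
      (((range l.length).filter fun i => an (p4 P (lnth l i)) (an (mayD P 7 13 (lnth l (Nat.mod
        (Nat.add i 1) l.length))) (an (mayD P 7 13 (lnth l (Nat.mod (Nat.add i
        (Nat.sub l.length 1)) l.length))) (mayMR rl P (lnth l i)))) = true).image
        fun i => f (lnth l i)) := by
    intro m hm
    obtain ⟨hm, ho⟩ := mem_filter.1 hm
    have hadj : E.H.Adj (f 0) m := by
      rw [← ho]
      exact (midS_opp hm).symm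
    obtain ⟨i, hi, him⟩ := (hlk.2.adj m).1 hadj
    rw [Nat.mod_eq_of_lt hi] at him
    subst him
    refine mem_image.2 ⟨i, mem_filter.2 ⟨mem_range.2 hi, ?_⟩, rfl⟩
    have hfl : ∀ y, E.T (f (lnth l i)) (f 0) y → E.D y = 7 ∧ E.kap y = -1 := by
      intro y hy
      rw [← ho] at hy
      exact midS_flank hm hy
    have hT1 := hlk.2.tri_next i
    rw [Nat.mod_eq_of_lt hi] at hT1
    have hT2 := hlk.2.tri_next (i + (l.length - 1))
    rw [add_assoc i (l.length - 1) 1, Nat.sub_add_cancel (le_trans (by norm_num) hd),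
      Nat.add_mod_right, Nat.mod_eq_of_lt hi] at hT2
    have h1 := hfl _ (E.swap _ _ _ hT1)
    have h2 := hfl _ (E.rot _ _ _ (E.rot _ _ _ hT2))
    refine an_intro ?_ (an_intro (mayD_intro hK h (by norm_num) (by norm_num) h1.1
      (h1.2.trans (by norm_num))) (an_intro (mayD_intro hK h (by norm_num) (by norm_num) h2.1
      (h2.2.trans (by norm_num))) (mayMR_intro hK h hrl hm ho)))
    cases h3 : p4 P (lnth l i) with
    | true => rfl
    | false => exact absurd (midS_four hm) (not_four hK h h3)
  exact (card_le_card hsub).trans card_image_le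

/-! ### The leaves -/

theorem orB {a b : Bool} (h : cf a true b = true) : a = true ∨ b = true := by
  cases a with
  | true => exact Or.inl rfl
  | false => exact Or.inr h

/-- The leaf for impossible patches is correct; `hC`: the contradiction leaf. -/
theorem lIR_sound (hK : KapOK E) (hC : LegF.leafI P = true → ¬ E.Real P.lk P.lb f)
    (hl : lIR P = true) : ¬ (rEnv E).Sat P f := by
  intro h
  rcases orB hl with h1 | h1
  · obtain ⟨Q, h2, h3⟩ := unK_spec h fun Q => cf (rbad (rlK P.kb) Q P.kg) true (leafI Q)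
    rw [h2] at h1
    rcases orB h1 with h4 | h4
    · exact rbad_false hK h h3 _ (fun _ h5 => h5) h4
    · exact leafI_sound hK h4 h3
  · exact hC h1 h.real

/-- The leaf for the inequality at the hub is correct; `hC`: the contradiction leaf. -/
theorem lFR_sound (hK : KapOK E) (h545 : ∀ m y z, E.H.Adj m y → E.H.Adj m z →
    y ≠ z → E.D m = 4 → E.D y = 5 → E.D z ≠ 5)
    (hC : LegF.leafI P = true → ¬ E.Real P.lk P.lb f) (h : (rEnv E).Sat P f)
    (hl : lFR P = true) : FinB E (gkM E) (extM E) (f 0) := by
  rcases orB hl with h1 | h1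
  · obtain ⟨Q, h2, h3⟩ := unK_spec h fun Q =>
      cf (leafBR (rlK P.kb) ctrU (exUR (rlK P.kb)) Q) true (rbad (rlK P.kb) Q P.kg)
    rw [h2] at h1
    rcases orB h1 with h4 | h4
    · refine leafBR_sound hK h3 (fun u => ?_) (fun u hu => ?_) (fun u hu => rlK_le h hu)
        (fun hn => exUR_ge hK h3 (fun u hu => rlK_le h hu) hn) h4
      · unfold gkM
        omega
      · have h5 := ctrU_pcnt hK h3 h545 hu
        unfold gkM
        omega
    · exact absurd (rbad_false hK h h3 _ (fun _ h5 => h5) h4) (fun h => h)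
  · exact absurd h.real (hC h1)

end env

end Pool.Agent.W986.ST.LB
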