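import Pool.Agent.W986.SubLiftSide
import Pool.Agent.W986.CovNoSep
import Pool.Agent.W986.StripNC

/-!
# The disc which is obtained by cutting along a one-sided cycle

`disc T s`: the vertices of the triangles on the side `s = 1` of the lift of the one-sided cycle.
-/

set_option autoImplicit false

open Finset

namespace Pool.Agent.W986

open Pool.Agent.DC76

section ring

variable {W : Type} {n : ℕ} {c : ℕ → W}

theorem per_mul (hper : ∀ t, c (t + n) = c t) (k j : ℕ) : c (j + n * k) = c j := by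
  induction k with
  | zero => rfl
  | succ k ih =>
    rw [Nat.mul_succ, ← add_assoc, hper]
    exact ih

theorem per_mod (hper : ∀ t, c (t + n) = c t) (t : ℕ) : c t = c (t % n) := by
  have h1 := per_mul hper (t / n) (t % n)
  rw [Nat.mod_add_div] at h1
  exact h1

theorem per_inj (hn : 0 < n) (hper : ∀ t, c (t + n) = c t)
    (hinj : ∀ i, i < n → ∀ j, j < n → c i = c j → i = j) {i j : ℕ} (h : c i = c j) :
    i ≡ j [MOD n] := by
  rw [per_mod hper i, per_mod hper j] at h
  exact hinj _ (Nat.mod_lt _ hn) _ (Nat.mod_lt _ hn) h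

theorem per_congr (hper : ∀ t, c (t + n) = c t) {i j : ℕ} (h : i ≡ j [MOD n]) : c i = c j := by
  rw [per_mod hper i, per_mod hper j]
  exact congrArg c h

/-- An injective closed walk traverses its edges once. -/
theorem trav_ring [DecidableEq W] (hn : 3 ≤ n) (hper : ∀ t, c (t + n) = c t)
    (hinj : ∀ i, i < n → ∀ j, j < n → c i = c j → i = j) (t : ℕ) :
    trav n c (c t) (c (t + 1)) = 1 := by
  unfold trav
  rw [card_eq_one]
  refine ⟨t % n, ?_⟩
  ext i
  rw [mem_filter, mem_range, mem_singleton]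
  constructor
  · rintro ⟨hi, ⟨h1, _⟩ | ⟨h1, h2⟩⟩
    · have h3 := per_inj (by omega) hper hinj h1
      rw [← Nat.mod_eq_of_lt hi]
      exact h3
    · exfalso
      have h3 := per_inj (by omega) hper hinj h1
      have h4 := per_inj (by omega) hper hinj h2
      have h5 : i + 1 ≡ t + 1 + 1 [MOD n] := Nat.ModEq.add_right 1 h3
      have h6 : t ≡ t + 1 + 1 [MOD n] := h4.symm.trans h5
      have h7 := (Nat.modEq_iff_dvd' (by omega : t ≤ t + 1 + 1)).1 h6
      have h8 := Nat.le_of_dvd (by omega) h7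
      omega
  · rintro rfl
    have hlt : t % n < n := Nat.mod_lt _ (by omega)
    refine ⟨hlt, Or.inl ⟨(per_mod hper t).symm, ?_⟩⟩
    refine per_congr hper ?_
    exact Nat.ModEq.add_right 1 (Nat.mod_modEq t n)

theorem trav_ne_zero [DecidableEq W] {x y : W} (h : trav n c x y ≠ 0) :
    ∃ t, t < n ∧ ((c t = x ∧ c (t + 1) = y) ∨ (c t = y ∧ c (t + 1) = x)) := by
  unfold trav at h
  rw [card_ne_zero, filter_nonempty_iff] at h
  obtain ⟨t, ht, h⟩ := h
  exact ⟨t, mem_range.1 ht, h⟩

end ring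

section disc

variable {V : Type} [Fintype V] [DecidableEq V] {G : SimpleGraph V}
  {X : V → V → ZMod 2} {hX : ∀ x y, X x y = X y x} {w : ℕ} {z : ℕ → V}
  {T : V × ZMod 2 → V × ZMod 2 → V × ZMod 2 → Prop}
  {s : V × ZMod 2 → V × ZMod 2 → V × ZMod 2 → ZMod 2}

/-- The vertices of the triangles on the side `s = 1`. -/
def disc (T : V × ZMod 2 → V × ZMod 2 → V × ZMod 2 → Prop)
    (s : V × ZMod 2 → V × ZMod 2 → V × ZMod 2 → ZMod 2) : Set (V × ZMod 2) :=
  {p | ∃ q r, T p q r ∧ s p q r = 1}

/-- The facts about the lift of a one-sided cycle `z` and its sides. -/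
structure Cutt (G : SimpleGraph V) (X : V → V → ZMod 2) (hX : ∀ x y, X x y = X y x) (w : ℕ)
    (z : ℕ → V) (T : V × ZMod 2 → V × ZMod 2 → V × ZMod 2 → Prop)
    (s : V × ZMod 2 → V × ZMod 2 → V × ZMod 2 → ZMod 2) : Prop where
  sph : TriSphere (cover G X hX) T
  ant : ∀ p q r, T (anti p) (anti q) (anti r) ↔ T p q r
  three : 3 ≤ w
  per : ∀ t, z (t + w) = z t
  inj : ∀ i, i < w → ∀ j, j < w → z i = z j → i = j
  adj : ∀ t, G.Adj (z t) (z (t + 1))
  odd : ∑ t ∈ range w, X (z t) (z (t + 1)) = 1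
  rot : ∀ p q r, s p q r = s q r p
  swap : ∀ p q r, s p q r = s q p r
  bdry : ∀ p q a b, a ≠ b → T p q a → T p q b →
    s p q a + s p q b = ((trav (w + w) (lft X z 0) p q : ℕ) : ZMod 2)
  anti : ∀ p q r, T p q r → s (anti p) (anti q) (anti r) = s p q r + 1

variable (h : Cutt G X hX w z T s)

include h

theorem Cutt.cper' (t : ℕ) :
    lft X z 0 (t + w) = Pool.Agent.W986.anti (lft X z 0 t) :=
  lft_add h.per h.odd 0 t

theorem Cutt.cper (t : ℕ) : lft X z 0 (t + (w + w)) = lft X z 0 t := by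
  rw [← add_assoc, h.cper', h.cper', anti_anti]

theorem Cutt.cinj : ∀ i, i < w + w → ∀ j, j < w + w → lft X z 0 i = lft X z 0 j → i = j := by
  have key : ∀ i j, i ≤ j → i < w + w → j < w + w → lft X z 0 i = lft X z 0 j → i = j := by
    intro i j hle hi hj hij
    have h1 : z i = z j := congrArg Prod.fst hij
    have hw := h.three
    have h2 := per_inj (by omega) h.per h.inj h1
    have h3 := (Nat.modEq_iff_dvd' hle).1 h2
    obtain ⟨k, hk⟩ := h3
    have h4 : k = 0 ∨ k = 1 := by
      rcases k with _ | _ | k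
      · exact Or.inl rfl
      · exact Or.inr rfl
      · exfalso
        have h5 : w * (k + 1 + 1) = w * k + w + w := by ring
        omega
    rcases h4 with rfl | rfl
    · omega
    · exfalso
      have h5 : j = i + w := by omega
      rw [h5, h.cper'] at hij
      exact anti_ne _ hij.symm
  intro i hi j hj hij
  rcases le_total i j with h1 | h1
  · exact key i j h1 hi hj hij
  · exact (key j i h1 hj hi hij.symm).symm

theorem Cutt.cadj (t : ℕ) : (cover G X hX).Adj (lft X z 0 t) (lft X z 0 (t + 1)) := by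
  rw [lft_succ]
  exact ⟨h.adj t, rfl⟩

/-- Every lift of a vertex of the cycle is on the lift of the cycle. -/
theorem Cutt.exists_c {p : V × ZMod 2} (hp : p.1 ∈ Set.range z) : ∃ t, lft X z 0 t = p := by
  obtain ⟨t, ht⟩ := hp
  by_cases h1 : lft X z 0 t = p
  · exact ⟨t, h1⟩
  · refine ⟨t + w, ?_⟩
    rw [h.cper']
    rcases eq_or_anti (p := p) (q := lft X z 0 t) ht.symm with h2 | h2
    · exact absurd h2.symm h1
    · exact h2.symm

omit h [Fintype V] [DecidableEq V] in
theorem lft_fst (t : ℕ) : (lft X z 0 t).1 = z t := rfl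

omit [Fintype V] h in
theorem zero_of_off {p : V × ZMod 2} (hp : p.1 ∉ Set.range z) (u : V × ZMod 2) :
    ((trav (w + w) (lft X z 0) p u : ℕ) : ZMod 2) = 0 := by
  have h1 : trav (w + w) (lft X z 0) p u = 0 := by
    by_contra hcon
    obtain ⟨t, _, ht | ht⟩ := trav_ne_zero hcon
    · exact hp ⟨t, by rw [← ht.1]; rfl⟩
    · exact hp ⟨t + 1, by rw [← ht.2]; rfl⟩
  rw [h1, Nat.cast_zero]

/-- Off the cycle all the triangles at a vertex are on the same side. -/
theorem Cutt.const {p : V × ZMod 2} (hp : p.1 ∉ Set.range z) {u v u' v' : V × ZMod 2}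
    (hT : T p u v) (hT' : T p u' v') : s p u v = s p u' v' :=
  h.sph.side_const (z := fun x y => ((trav (w + w) (lft X z 0) x y : ℕ) : ZMod 2)) h.rot h.swap
    (fun x y a b hab ha hb => h.bdry x y a b hab ha hb) (zero_of_off hp) hT hT'

theorem Cutt.exists_tri (p : V × ZMod 2) : ∃ q r, T p q r := by
  obtain ⟨d, ν, hν⟩ := h.sph.rotation p
  exact ⟨_, _, hν.tri_next 0⟩

/-- (F1) Exactly one lift of a vertex off the cycle is in the disc. -/
theorem Cutt.one_lift {v : V} (hv : v ∉ Set.range z) (a : ZMod 2) :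
    (v, a) ∈ disc T s ↔ (v, a + 1) ∉ disc T s := by
  obtain ⟨q, r, hT⟩ := h.exists_tri (v, a)
  have hT' : T (v, a + 1) (Pool.Agent.W986.anti q) (Pool.Agent.W986.anti r) := (h.ant _ _ _).2 hT
  have h1 : s (v, a + 1) (Pool.Agent.W986.anti q) (Pool.Agent.W986.anti r) = s (v, a) q r + 1 :=
    h.anti _ _ _ hT
  have h2 : (v, a) ∈ disc T s ↔ s (v, a) q r = 1 :=
    ⟨fun ⟨q', r', h3, h4⟩ => (h.const hv hT h3).trans h4, fun h3 => ⟨q, r, hT, h3⟩⟩
  have h3 : (v, a + 1) ∈ disc T s ↔
      s (v, a + 1) (Pool.Agent.W986.anti q) (Pool.Agent.W986.anti r) = 1 :=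
    ⟨fun ⟨q', r', h3, h4⟩ => (h.const hv hT' h3).trans h4, fun h3 => ⟨_, _, hT', h3⟩⟩
  rw [h2, h3, h1]
  generalize s (v, a) q r = x
  revert x
  decide

theorem Cutt.tri_of_mem {p q : V × ZMod 2} (hp : p ∈ disc T s) (hp' : p.1 ∉ Set.range z)
    (hpq : (cover G X hX).Adj p q) : ∃ r, T p q r ∧ s p q r = 1 := by
  obtain ⟨q', r', h1, h2⟩ := hp
  obtain ⟨a, b, hab, ha, _⟩ := h.sph.two hpq
  exact ⟨a, ha, (h.const hp' ha h1).trans h2⟩

/-- (F2) The neighbours of an inner vertex of the disc are in the disc. -/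
theorem Cutt.closed {p q : V × ZMod 2} (hp : p ∈ disc T s) (hp' : p.1 ∉ Set.range z)
    (hpq : (cover G X hX).Adj p q) : q ∈ disc T s := by
  obtain ⟨r, h1, h2⟩ := h.tri_of_mem hp hp' hpq
  exact ⟨p, r, h.sph.swap _ _ _ h1, (h.swap _ _ _).symm.trans h2⟩

theorem Cutt.tri_ring (t : ℕ) :
    ∃ r, T (lft X z 0 t) (lft X z 0 (t + 1)) r ∧ s (lft X z 0 t) (lft X z 0 (t + 1)) r = 1 := by
  obtain ⟨a, b, hab, ha, hb, _⟩ := h.sph.two (h.cadj t)
  have h1 := h.bdry _ _ _ _ hab ha hb
  have hw := h.three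
  rw [trav_ring (by omega) h.cper h.cinj, Nat.cast_one] at h1
  have h2 : ∀ x y : ZMod 2, x + y = 1 → x = 1 ∨ y = 1 := by decide
  rcases h2 _ _ h1 with h3 | h3
  · exact ⟨a, ha, h3⟩
  · exact ⟨b, hb, h3⟩

/-- (F3) The lifts of the cycle are in the disc. -/
theorem Cutt.ring_mem {p : V × ZMod 2} (hp : p.1 ∈ Set.range z) : p ∈ disc T s := by
  obtain ⟨t, rfl⟩ := h.exists_c hp
  obtain ⟨r, h1, h2⟩ := h.tri_ring t
  exact ⟨_, r, h1, h2⟩

variable (hind : ∀ i j, G.Adj (z i) (z j) → z j = z (i + 1) ∨ z i = z (j + 1))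

include hind

/-- Adjacent vertices of the lift of the cycle are consecutive. -/
theorem Cutt.consec {p q : V × ZMod 2} (hp : p.1 ∈ Set.range z) (hq : q.1 ∈ Set.range z)
    (hpq : (cover G X hX).Adj p q) :
    ∃ t, (p = lft X z 0 t ∧ q = lft X z 0 (t + 1)) ∨ (q = lft X z 0 t ∧ p = lft X z 0 (t + 1)) := by
  have key : ∀ p q : V × ZMod 2, ∀ t, p = lft X z 0 t → q.1 = z (t + 1) →
      (cover G X hX).Adj p q → q = lft X z 0 (t + 1) := by
    intro p q t h1 h2 h3
    rw [lft_succ, ← h1]
    refine Prod.ext h2 ?_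
    rw [h3.2, h2, h1]
    rfl
  obtain ⟨i, hi⟩ := h.exists_c hp
  obtain ⟨j, hj⟩ := h.exists_c hq
  have h1 : G.Adj (z i) (z j) := by
    have h2 := hpq.1
    rw [← hi, ← hj] at h2
    exact h2
  rcases hind i j h1 with h2 | h2
  · refine ⟨i, Or.inl ⟨hi.symm, key p q i hi.symm ?_ hpq⟩⟩
    rw [← hj]
    exact h2
  · refine ⟨j, Or.inr ⟨hj.symm, key q p j hj.symm ?_ hpq.symm⟩⟩
    rw [← hi]
    exact h2

/-- (F4) Two adjacent vertices of the disc are in a triangle of the disc. -/
theorem Cutt.tri_of_adj {p q : V × ZMod 2} (hp : p ∈ disc T s) (hq : q ∈ disc T s)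
    (hpq : (cover G X hX).Adj p q) : ∃ r, T p q r ∧ s p q r = 1 := by
  by_cases hp' : p.1 ∈ Set.range z
  · by_cases hq' : q.1 ∈ Set.range z
    · obtain ⟨t, ⟨rfl, rfl⟩ | ⟨rfl, rfl⟩⟩ := h.consec hind hp' hq' hpq
      · exact h.tri_ring t
      · obtain ⟨r, h1, h2⟩ := h.tri_ring t
        exact ⟨r, h.sph.swap _ _ _ h1, (h.swap _ _ _).symm.trans h2⟩
    · obtain ⟨r, h1, h2⟩ := h.tri_of_mem hq hq' hpq.symm
      exact ⟨r, h.sph.swap _ _ _ h1, (h.swap _ _ _).symm.trans h2⟩
  · exact h.tri_of_mem hp hp' hpq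

/-- (F5) Three pairwise adjacent vertices of the disc form a triangle of the disc. -/
theorem Cutt.tri_of_three (hs : NoSep (cover G X hX) T) {p q r : V × ZMod 2}
    (hp : p ∈ disc T s) (hq : q ∈ disc T s) (hr : r ∈ disc T s) (hpq : (cover G X hX).Adj p q)
    (hqr : (cover G X hX).Adj q r) (hrp : (cover G X hX).Adj r p) :
    T p q r ∧ s p q r = 1 := by
  have hT : T p q r := hs p q r hpq hqr hrp
  refine ⟨hT, ?_⟩
  have off : ∀ p q r : V × ZMod 2, p ∈ disc T s → p.1 ∉ Set.range z → T p q r → s p q r = 1 := by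
    intro p q r hp hp' hT
    obtain ⟨q', r', h1, h2⟩ := hp
    exact (h.const hp' hT h1).trans h2
  by_cases hp' : p.1 ∈ Set.range z
  · by_cases hq' : q.1 ∈ Set.range z
    · by_cases hr' : r.1 ∈ Set.range z
      · exfalso
        -- the three vertices are on the cycle
        have hw := h.three
        obtain ⟨i, hi⟩ := h.exists_c hp'
        obtain ⟨j, hj⟩ := h.exists_c hq'
        obtain ⟨k, hk⟩ := h.exists_c hr'
        have c1 : ∀ (a b : ℕ) (p q : V × ZMod 2), lft X z 0 a = p → lft X z 0 b = q →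
            p.1 ∈ Set.range z → q.1 ∈ Set.range z → (cover G X hX).Adj p q →
            (b : ZMod (w + w)) = a + 1 ∨ (a : ZMod (w + w)) = b + 1 := by
          intro a b p q ha hb hp hq hpq
          obtain ⟨t, ⟨h1, h2⟩ | ⟨h1, h2⟩⟩ := h.consec hind hp hq hpq
          · left
            have e1 := (ZMod.natCast_eq_natCast_iff _ _ _).2
              (per_inj (by omega) h.cper h.cinj (ha.trans h1))
            have e2 := (ZMod.natCast_eq_natCast_iff _ _ _).2
              (per_inj (by omega) h.cper h.cinj (hb.trans h2))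
            rw [e1, e2]
            push_cast
            rfl
          · right
            have e1 := (ZMod.natCast_eq_natCast_iff _ _ _).2
              (per_inj (by omega) h.cper h.cinj (ha.trans h2))
            have e2 := (ZMod.natCast_eq_natCast_iff _ _ _).2
              (per_inj (by omega) h.cper h.cinj (hb.trans h1))
            rw [e1, e2]
            push_cast
            rfl
        have n1 : (1 : ZMod (w + w)) ≠ 0 := by
          intro h1
          have h2 : ((1 : ℕ) : ZMod (w + w)) = 0 := by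
            rw [Nat.cast_one]
            exact h1
          rw [ZMod.natCast_eq_zero_iff] at h2
          have h3 := Nat.le_of_dvd (by omega) h2
          omega
        have n3 : (3 : ZMod (w + w)) ≠ 0 := by
          intro h1
          have h2 : ((3 : ℕ) : ZMod (w + w)) = 0 := by
            push_cast
            exact h1
          rw [ZMod.natCast_eq_zero_iff] at h2
          have h3 := Nat.le_of_dvd (by omega) h2
          omega
        rcases c1 i j p q hi hj hp' hq' hpq with a1 | a1 <;>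
          rcases c1 j k q r hj hk hq' hr' hqr with a2 | a2 <;>
          rcases c1 k i r p hk hi hr' hp' hrp with a3 | a3
        · exact n3 (by linear_combination -a1 - a2 - a3)
        · exact n1 (by linear_combination -a1 - a2 + a3)
        · exact n1 (by linear_combination -a1 + a2 - a3)
        · exact n1 (by linear_combination a1 - a2 - a3)
        · exact n1 (by linear_combination a1 - a2 - a3)
        · exact n1 (by linear_combination -a1 + a2 - a3)
        · exact n1 (by linear_combination -a1 - a2 + a3)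
        · exact n3 (by linear_combination -a1 - a2 - a3)
      · have h1 := off r p q hr hr' (h.sph.rot _ _ _ (h.sph.rot _ _ _ hT))
        rw [h.rot, h.rot]
        exact h1
    · have h1 := off q r p hq hq' (h.sph.rot _ _ _ hT)
      rw [h.rot]
      exact h1
  · exact off p q r hp hp' hT

end disc

end Pool.Agent.W986
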