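import Pool.Agent.W986.SubRegRed

/-!
# The table of the facts from Boolean checks

The structure `Table` from checks which are evaluated by the kernel: the first facts are
configurations, the small patches and the root patches are facts of the table.
-/

set_option autoImplicit false

namespace Pool.Agent.W986

open Pool.Agent.W986.ST Pool.Agent.W986.ST.LB

/-- The first `a` facts of the list do not occur. -/
def baseB : List Fact → ℕ → Bool
  | _, 0 => true
  | [], _ + 1 => true
  | F :: l, a + 1 => F.imp && baseB l a

theorem baseB_spec (l : List Fact) (a : ℕ) (h : baseB l a = true) :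
    ∀ c < a, ∀ F, fnth l c = some F → F.imp = true := by
  induction l generalizing a with
  | nil =>
    intro c _ F hF
    change none = some F at hF
    exact absurd hF (by simp)
  | cons G l ih =>
    cases a with
    | zero => exact fun c hc => absurd hc (Nat.not_lt_zero c)
    | succ a =>
      rw [baseB, Bool.and_eq_true] at h
      intro c hc F hF
      cases c with
      | zero =>
        change some G = some F at hF
        rw [← Option.some.inj hF]
        exact h.1
      | succ c =>
        change fnth l c = some F at hF
        exact ih a h.2 c (Nat.lt_of_succ_lt_succ hc) F hF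

/-- Equality of patches. -/
def patEq (P Q : Patch) : Bool :=
  Nat.beq P.n Q.n && (decide (P.lk = Q.lk) && (decide (P.lb = Q.lb) &&
    (decide (P.kb = Q.kb) && decide (P.kg = Q.kg))))

theorem patEq_spec (P Q : Patch) (h : patEq P Q = true) : P = Q := by
  unfold patEq at h
  simp only [Bool.and_eq_true, decide_eq_true_eq] at h
  obtain ⟨h1, h2, h3, h4, h5⟩ := h
  cases P
  cases Q
  simp only [Patch.mk.injEq]
  exact ⟨Nat.eq_of_beq_eq_true h1, h2, h3, h4, h5⟩

/-- The fact number `c` has the patch `P`. -/
def isFact (fs : List Fact) (c : ℕ) (imp : Bool) (P : Patch) : Bool :=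
  match fnth fs c with
  | some F => (F.imp == imp) && patEq F.P P
  | none => false

theorem isFact_spec {fs : List Fact} {c : ℕ} {imp : Bool} {P : Patch}
    (h : isFact fs c imp P = true) : ∃ F, fnth fs c = some F ∧ F.imp = imp ∧ F.P = P := by
  unfold isFact at h
  split at h
  · next F hF =>
    rw [Bool.and_eq_true, beq_iff_eq] at h
    exact ⟨F, hF, h.1, patEq_spec _ _ h.2⟩
  · exact absurd h Bool.false_ne_true

/-- The patches of the first list are the patches of the facts with the numbers in the second
list, which are smaller than `b`. -/
def zipB (fs : List Fact) (b : ℕ) (imp : Bool) : List Patch → List ℕ → Bool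
  | [], _ => true
  | _ :: _, [] => false
  | P :: l, c :: m => Nat.ble (c + 1) b && (isFact fs c imp P && zipB fs b imp l m)

theorem zipB_spec {fs : List Fact} {b : ℕ} {imp : Bool} (l : List Patch) (m : List ℕ)
    (h : zipB fs b imp l m = true) :
    ∀ P ∈ l, ∃ c < b, ∃ F, fnth fs c = some F ∧ F.imp = imp ∧ F.P = P := by
  induction l generalizing m with
  | nil => exact fun P hP => absurd hP (by simp)
  | cons Q l ih =>
    cases m with
    | nil => exact absurd h Bool.false_ne_true
    | cons c m =>
      rw [zipB, Bool.and_eq_true, Bool.and_eq_true] at h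
      intro P hP
      rcases List.mem_cons.1 hP with rfl | hP
      · exact ⟨c, Nat.le_of_ble_eq_true h.1, isFact_spec h.2.1⟩
      · exact ih m h.2.2 P hP

/-- The next facts, with the number of the facts as a Boolean check. -/
theorem Runs.next {n0 : ℕ} {leafI leafF : Patch → Bool} {fs : List Fact} {a b : ℕ} (fuel : ℕ)
    (l : List (List ℕ)) (k : ℕ) (h : Runs n0 leafI leafF fs a b)
    (hr : ST.run n0 leafI leafF fs fuel l b = true) (hk : Nat.beq (b + l.length) k = true) :
    Runs n0 leafI leafF fs a k := by
  rw [← Nat.eq_of_beq_eq_true hk]
  exact h.step fuel l hr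

/-- The table from the Boolean checks. -/
theorem Table.of {fs : List Fact} {a b n : ℕ} (ls lr : List ℕ)
    (run0 : Runs 0 (fun _ => false) (fun _ => false) fs a b)
    (runs : Runs 1 leafI (leafB ctrU exU) fs b n) (le : b ≤ n)
    (hs : zipB fs b true ST.small ls = true)
    (hr : zipB fs n false ((List.range' 5 7).map rootP) lr = true) : Table fs a b n where
  run0 := run0
  runs := runs
  le := le
  small := zipB_spec _ _ hs
  root := fun d h5 h11 => zipB_spec _ _ hr (rootP d)
    (List.mem_map.2 ⟨d, List.mem_range'_1.2 ⟨h5, by omega⟩, rfl⟩)

end Pool.Agent.W986
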