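import Pool.Agent.W986.SubList
import Pool.Agent.W986.SubIface
import Pool.Agent.W986.Cover
import Pool.Agent.W986.Half

/-!
# Colouring a projective triangulation with a short one-sided cycle

The disc which is obtained by cutting along a one-sided cycle of length three or four has a
boundary of length six or eight. After the contraction of some edges of the boundary it is a disc
with a boundary of length four, and a colouring of this disc gives a colouring of the
triangulation.
-/

set_option autoImplicit false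

open Finset

namespace Pool.Agent.W986

open Pool.Agent.DC76

/-- The colourings of a disc with a boundary `t0 t1 t2 t3`: the opposite vertices of the boundary
have the same colour, and no vertex of the boundary has a neighbour of its own colour. -/
def DiscQ1 : Prop :=
  ∀ (W : Type) [Fintype W] [DecidableEq W] (S : Finset W) (H : SimpleGraph W)
    (T : W → W → W → Prop), TriOn 2 S H T →
    ∀ om t0 t1 t2 t3 : W, T om t0 t1 → T om t1 t2 → T om t2 t3 → T om t3 t0 →
    t0 ≠ t2 → t1 ≠ t3 → ¬ H.Adj t0 t2 → ¬ H.Adj t1 t3 →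
    ∃ c : W → Fin 4, c t0 = c t2 ∧ c t1 = c t3 ∧ c t0 ≠ c t1 ∧ MDef H {om} {t0, t1, t2, t3} c

section pull

variable {V : Type} {G : SimpleGraph V} {X : V → V → ZMod 2} {hX : ∀ x y, X x y = X y x}

/-- The colouring of the disc gives a colouring of the triangulation. -/
theorem thin_pull [Finite V] {Z : Set V} {D : Set (V × ZMod 2)}
    {H : SimpleGraph (Option (V × ZMod 2))}
    (hH : ∀ p q, (cover G X hX).Adj p q → p ∈ D → q ∈ D → H.Adj (some p) (some q))
    (hZ : ∀ v ∈ Z, ∀ a, (v, a) ∈ D) (h1 : ∀ v, v ∉ Z → ∃ a, (v, a) ∈ D)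
    (h2 : ∀ p ∈ D, p.1 ∉ Z → ∀ q, (cover G X hX).Adj p q → q ∈ D)
    {ρ : Option (V × ZMod 2) → Option (V × ZMod 2)}
    (hρ : ∀ p : V × ZMod 2, p.1 ∉ Z → ρ (some p) = some p)
    (hρZ : ∀ p : V × ZMod 2, p.1 ∈ Z → ∃ q : V × ZMod 2, q.1 ∈ Z ∧ ρ (some p) = some q)
    {col : Option (V × ZMod 2) → Fin 4}
    (hsat : ∀ p : V × ZMod 2, p.1 ∈ Z → ∀ y, y ≠ none → (quot H ρ).Adj (ρ (some p)) y →
      col y ≠ col (ρ (some p)))
    (hdef : ∀ p : V × ZMod 2, p.1 ∉ Z →
      {y | y ≠ none ∧ (quot H ρ).Adj (some p) y ∧ col y = col (some p)}.ncard ≤ 1)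
    {f : V → Fin 4} (hf : ∀ p ∈ D, col (ρ (some p)) = f p.1)
    (hmate : ∀ v ∈ Z, ∀ u ∈ Z, ∀ u' ∈ Z, G.Adj v u → G.Adj v u' → f u = f v → f u' = f v →
      u = u') : Defective G 1 f := by
  classical
  intro v
  apply ncard_le_one_of
  rintro u ⟨hu, hcu⟩ u' ⟨hu', hcu'⟩
  by_cases hv : v ∈ Z
  · -- the neighbours of `v` with its colour are on the cycle
    have key : ∀ u, G.Adj v u → f u = f v → u ∈ Z := by
      intro u hu hcu
      by_contra huZ
      obtain ⟨a, ha⟩ := h1 u huZ
      let q : V × ZMod 2 := (u, a)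
      let p : V × ZMod 2 := (v, a + X u v)
      have hqp : (cover G X hX).Adj q p := ⟨hu.symm, rfl⟩
      have hp : p ∈ D := hZ v hv _
      have hHpq : H.Adj (some p) (some q) := hH p q hqp.symm hp ha
      obtain ⟨r, hr, hrp⟩ := hρZ p hv
      have hne : ρ (some p) ≠ some q := by
        rw [hrp]
        intro h
        rw [Option.some.injEq] at h
        rw [h] at hr
        exact huZ hr
      apply hsat p hv (some q) (by simp) ⟨hne, some p, some q, rfl, hρ q huZ, hHpq⟩
      rw [hf p hp, ← hρ q huZ, hf q ha]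
      exact hcu
    exact hmate v hv u (key u hu hcu) u' (key u' hu' hcu') hu hu' hcu hcu'
  · obtain ⟨a, ha⟩ := h1 v hv
    let p : V × ZMod 2 := (v, a)
    have hcp : col (some p) = f v := by
      rw [← hρ p hv]
      exact hf p ha
    have key : ∀ u, G.Adj v u → f u = f v → (some (u, a + X v u) : Option (V × ZMod 2)) ∈
        {y | y ≠ none ∧ (quot H ρ).Adj (some p) y ∧ col y = col (some p)} := by
      intro u hu hcu
      let q : V × ZMod 2 := (u, a + X v u)
      have hpq : (cover G X hX).Adj p q := ⟨hu, rfl⟩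
      have hq : q ∈ D := h2 p ha hv q hpq
      have hHpq : H.Adj (some p) (some q) := hH p q hpq ha hq
      have hne : (some p : Option (V × ZMod 2)) ≠ some q := hHpq.ne
      by_cases huZ : u ∈ Z
      · exfalso
        obtain ⟨r, hr, hrq⟩ := hρZ q huZ
        have hne' : ρ (some q) ≠ some p := by
          rw [hrq]
          intro h
          rw [Option.some.injEq] at h
          rw [h] at hr
          exact hv hr
        apply hsat q huZ (some p) (by simp) ⟨hne', some q, some p, rfl, hρ p hv, hHpq.symm⟩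
        rw [hf q hq, hcp]
        exact hcu.symm
      · refine ⟨by simp, ⟨hne, some p, some q, hρ p hv, hρ q huZ, hHpq⟩, ?_⟩
        change col (some q) = _
        rw [hcp, ← hρ q huZ, hf q hq]
        exact hcu
    have h3 := hdef p hv
    rw [Set.ncard_le_one (Set.toFinite _)] at h3
    have h4 := h3 _ (key u hu hcu) _ (key u' hu' hcu')
    rw [Option.some.injEq, Prod.mk.injEq] at h4
    exact h4.1

end pull

section ring

variable {V : Type}

/-- An induced one-sided cycle `z` of length `w`. -/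
structure OneSided (G : SimpleGraph V) (X : V → V → ZMod 2) (w : ℕ) (z : ℕ → V) : Prop where
  three : 3 ≤ w
  per : ∀ t, z (t + w) = z t
  inj : ∀ i < w, ∀ j < w, z i = z j → i = j
  adj : ∀ t, G.Adj (z t) (z (t + 1))
  odd : ∑ t ∈ range w, X (z t) (z (t + 1)) = 1
  ind : ∀ i j, G.Adj (z i) (z j) → z j = z (i + 1) ∨ z i = z (j + 1)

/-- The disc obtained by cutting along a one-sided cycle `z`, with an apex `none`. -/
structure ThinDisc (G : SimpleGraph V) (X : V → V → ZMod 2) (hX : ∀ x y, X x y = X y x)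
    (z : ℕ → V) (D : Set (V × ZMod 2)) (S : Finset (Option (V × ZMod 2)))
    (H : SimpleGraph (Option (V × ZMod 2)))
    (T : Option (V × ZMod 2) → Option (V × ZMod 2) → Option (V × ZMod 2) → Prop) : Prop where
  tri : TriOn 2 S H T
  none_mem : none ∈ S
  mem : ∀ p, some p ∈ S ↔ p ∈ D
  adj : ∀ p q, H.Adj (some p) (some q) ↔ (cover G X hX).Adj p q ∧ p ∈ D ∧ q ∈ D
  ring : ∀ t a, (z t, a) ∈ D
  half : ∀ v, v ∉ Set.range z → ∀ a, ((v, a) ∈ D ↔ (v, a + 1) ∉ D)
  inner : ∀ p ∈ D, p.1 ∉ Set.range z → ∀ q, (cover G X hX).Adj p q → q ∈ D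
  cap : ∀ t, T none (some (lft X z 0 t)) (some (lft X z 0 (t + 1)))
  face : ∀ x y u, H.Adj x y → H.Adj y u → H.Adj u x → T x y u

variable {G : SimpleGraph V} {X : V → V → ZMod 2} {hX : ∀ x y, X x y = X y x} {w : ℕ} {z : ℕ → V}

theorem OneSided.lft_add (h : OneSided G X w z) (t : ℕ) :
    lft X z 0 (t + w) = anti (lft X z 0 t) := by
  induction t with
  | zero =>
    have e := h.per 0
    rw [zero_add] at e
    rw [zero_add]
    unfold lft anti
    rw [h.odd, e, range_zero, sum_empty, add_zero]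
  | succ t ih =>
    have e1 := h.per (t + 1)
    have e0 := h.per t
    rw [show t + 1 + w = t + w + 1 by omega, lft_succ, ih, lft_succ]
    rw [show t + 1 + w = t + w + 1 by omega] at e1
    unfold anti
    rw [e1, e0]
    refine Prod.ext rfl ?_
    change (lft X z 0 t).2 + 1 + X (z t) (z (t + 1)) = (lft X z 0 t).2 + X (z t) (z (t + 1)) + 1
    ring

theorem OneSided.lft_per (h : OneSided G X w z) (t : ℕ) :
    lft X z 0 (t + 2 * w) = lft X z 0 t := by
  rw [show t + 2 * w = t + w + w by ring, h.lft_add, h.lft_add, anti_anti]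

theorem OneSided.lft_inj (h : OneSided G X w z) {i j : ℕ} (hi : i < 2 * w) (hj : j < 2 * w)
    (hij : lft X z 0 i = lft X z 0 j) : i = j := by
  have key : ∀ i j, i < w → w ≤ j → j < 2 * w → lft X z 0 i ≠ lft X z 0 j := by
    intro i j hi hj hj' hij
    obtain ⟨k, rfl⟩ : ∃ k, j = k + w := ⟨j - w, by omega⟩
    rw [h.lft_add] at hij
    have e : z i = z k := congrArg Prod.fst hij
    have e' := h.inj i hi k (by omega) e
    subst e'
    exact anti_ne _ hij.symm
  rcases lt_or_ge i w with h1 | h1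
  · rcases lt_or_ge j w with h2 | h2
    · exact h.inj i h1 j h2 (congrArg Prod.fst hij)
    · exact absurd hij (key i j h1 h2 hj)
  · rcases lt_or_ge j w with h2 | h2
    · exact absurd hij.symm (key j i h2 h1 hi)
    · obtain ⟨k, rfl⟩ : ∃ k, j = k + w := ⟨j - w, by omega⟩
      obtain ⟨l, rfl⟩ : ∃ l, i = l + w := ⟨i - w, by omega⟩
      have e : z (l + w) = z (k + w) := congrArg Prod.fst hij
      rw [h.per, h.per] at e
      rw [h.inj l (by omega) k (by omega) e]

/-- Every point over the cycle is on the boundary. -/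
theorem OneSided.exists_lft (h : OneSided G X w z) {p : V × ZMod 2} (hp : p.1 ∈ Set.range z) :
    ∃ j, j < 2 * w ∧ p = lft X z 0 j := by
  obtain ⟨i, hi⟩ := hp
  obtain ⟨x, a⟩ := p
  change z i = x at hi
  have h3 := h.three
  have hmod : ∀ n k, z (k + n * w) = z k := by
    intro n
    induction n with
    | zero => exact fun k => by rw [zero_mul, add_zero]
    | succ n ih =>
      intro k
      rw [show k + (n + 1) * w = k + n * w + w by ring, h.per, ih]
  have e : z (i % w) = x := by
    rw [← hi]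
    conv_rhs => rw [← Nat.mod_add_div' i w]
    rw [hmod]
  have hlt : i % w < w := Nat.mod_lt _ (by omega)
  generalize i % w = k at e hlt
  by_cases h4 : (lft X z 0 k).2 = a
  · exact ⟨k, by omega, Prod.ext e.symm h4.symm⟩
  · refine ⟨k + w, by omega, ?_⟩
    rw [h.lft_add]
    refine Prod.ext e.symm ?_
    change a = (lft X z 0 k).2 + 1
    revert h4
    generalize (lft X z 0 k).2 = b
    revert a b
    decide

theorem OneSided.cover_adj (h : OneSided G X w z) {i j : ℕ}
    (hij : (cover G X hX).Adj (lft X z 0 i) (lft X z 0 j)) :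
    lft X z 0 j = lft X z 0 (i + 1) ∨ lft X z 0 i = lft X z 0 (j + 1) := by
  rcases h.ind i j hij.1 with h1 | h1
  · left
    rw [lft_succ]
    refine Prod.ext h1 ?_
    have e := hij.2
    change (lft X z 0 j).2 = (lft X z 0 i).2 + X (z i) (z j) at e
    rw [h1] at e
    exact e
  · right
    rw [lft_succ]
    refine Prod.ext h1 ?_
    have e := hij.symm.2
    change (lft X z 0 i).2 = (lft X z 0 j).2 + X (z j) (z i) at e
    rw [h1] at e
    exact e

/-- The edges between the vertices of the boundary. -/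
theorem OneSided.cover_adj_index (h : OneSided G X w z) {i j : ℕ} (hi : i < 2 * w)
    (hj : j < 2 * w) (hij : (cover G X hX).Adj (lft X z 0 i) (lft X z 0 j)) :
    j = i + 1 ∨ i = j + 1 ∨ (i = 0 ∧ j + 1 = 2 * w) ∨ (j = 0 ∧ i + 1 = 2 * w) := by
  have h3 := h.three
  have key : ∀ i j, i < 2 * w → j < 2 * w → lft X z 0 j = lft X z 0 (i + 1) →
      j = i + 1 ∨ (j = 0 ∧ i + 1 = 2 * w) := by
    intro i j hi hj e
    rcases lt_or_ge (i + 1) (2 * w) with h1 | h1
    · exact Or.inl (h.lft_inj hj h1 e)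
    · right
      have h2 : i + 1 = 2 * w := by omega
      rw [h2, show 2 * w = 0 + 2 * w by ring, h.lft_per] at e
      exact ⟨h.lft_inj hj (by omega) e, h2⟩
  rcases h.cover_adj hij with h1 | h1
  · rcases key i j hi hj h1 with h2 | h2
    · exact Or.inl h2
    · exact Or.inr (Or.inr (Or.inr h2))
  · rcases key j i hj hi h1 with h2 | h2
    · exact Or.inr (Or.inl h2)
    · exact Or.inr (Or.inr (Or.inl h2))

end ring

section main

variable {V : Type} {G : SimpleGraph V} {X : V → V → ZMod 2} {hX : ∀ x y, X x y = X y x} {w : ℕ}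
  {z : ℕ → V} {D : Set (V × ZMod 2)} {S : Finset (Option (V × ZMod 2))}
  {H : SimpleGraph (Option (V × ZMod 2))}
  {T : Option (V × ZMod 2) → Option (V × ZMod 2) → Option (V × ZMod 2) → Prop}

/-- A vertex of the boundary. -/
def rg (X : V → V → ZMod 2) (z : ℕ → V) (t : ℕ) : Option (V × ZMod 2) := some (lft X z 0 t)

theorem rg_inj (h : OneSided G X w z) {i j : ℕ} (hi : i < 2 * w) (hj : j < 2 * w)
    (hij : rg X z i = rg X z j) : i = j :=
  h.lft_inj hi hj (Option.some.inj hij)

theorem ThinDisc.lft_mem (hD : ThinDisc G X hX z D S H T) (t : ℕ) : lft X z 0 t ∈ D :=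
  hD.ring t _

theorem ThinDisc.rg_adj (hD : ThinDisc G X hX z D S H T) (h : OneSided G X w z) {i j : ℕ}
    (hi : i < 2 * w) (hj : j < 2 * w) (hij : H.Adj (rg X z i) (rg X z j)) :
    j = i + 1 ∨ i = j + 1 ∨ (i = 0 ∧ j + 1 = 2 * w) ∨ (j = 0 ∧ i + 1 = 2 * w) :=
  h.cover_adj_index hi hj ((hD.adj _ _).1 hij).1

theorem ThinDisc.rg_next (hD : ThinDisc G X hX z D S H T) (h : OneSided G X w z) (i : ℕ) :
    H.Adj (rg X z i) (rg X z (i + 1)) := by
  refine (hD.adj _ _).2 ⟨⟨h.adj i, ?_⟩, hD.lft_mem _, hD.lft_mem _⟩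
  rw [lft_succ]
  rfl

theorem ThinDisc.card_le [DecidableEq V] (hD : ThinDisc G X hX z D S H T)
    (h : OneSided G X w z) : 2 * w + 1 ≤ S.card := by
  have h1 : insert none ((range (2 * w)).image (rg X z)) ⊆ S := by
    intro v hv
    rw [mem_insert, mem_image] at hv
    rcases hv with rfl | ⟨t, _, rfl⟩
    · exact hD.none_mem
    · exact (hD.mem _).2 (hD.lft_mem t)
  have h2 := card_le_card h1
  rw [card_insert_of_notMem, card_image_of_injOn, card_range] at h2
  · exact h2
  · intro i hi j hj hij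
    rw [coe_range, Set.mem_Iio] at hi hj
    exact rg_inj h hi hj hij
  · rw [mem_image]
    rintro ⟨t, _, ht⟩
    exact Option.some_ne_none _ ht

/-- The edges of the boundary which are contracted. -/
def prs (X : V → V → ZMod 2) (z : ℕ → V) (I : List ℕ) :
    List (Option (V × ZMod 2) × Option (V × ZMod 2)) :=
  I.map fun i => (rg X z i, rg X z (i + 1))

theorem ThinDisc.far (hD : ThinDisc G X hX z D S H T) (h : OneSided G X w z) {I : List ℕ}
    (hI : ∀ i ∈ I, i + 1 < 2 * w) (hI2 : I.Pairwise fun i j => i + 2 ≤ j) :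
    (prs X z I).Pairwise (Far H) := by
  have h3 := h.three
  unfold prs
  rw [List.pairwise_map]
  refine List.Pairwise.imp_of_mem ?_ hI2
  intro i j hi hj hij
  have hi' := hI i hi
  have hj' := hI j hj
  refine ⟨?_, ?_, ?_, ?_, ?_⟩
  · intro e
    have := rg_inj h (by omega) (by omega) e
    omega
  · intro e
    have := rg_inj h (by omega) (by omega) e
    omega
  · intro e
    have := rg_inj h (by omega) (by omega) e
    omega
  · intro e
    have := rg_inj h (by omega) (by omega) e
    omega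
  · rintro ⟨e1 | e1, e2 | e2⟩
    · have k1 := hD.rg_adj h (by omega) (by omega) e1
      have k2 := hD.rg_adj h (by omega) (by omega) e2
      omega
    · have k1 := hD.rg_adj h (by omega) (by omega) e1
      have k2 := hD.rg_adj h (by omega) (by omega) e2
      omega
    · have k1 := hD.rg_adj h (by omega) (by omega) e1
      have k2 := hD.rg_adj h (by omega) (by omega) e2
      omega
    · have k1 := hD.rg_adj h (by omega) (by omega) e1
      have k2 := hD.rg_adj h (by omega) (by omega) e2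
      omega

/-- The contracted disc. -/
theorem ThinDisc.contract [Finite V] [DecidableEq V] (hD : ThinDisc G X hX z D S H T)
    (h : OneSided G X w z) {I : List ℕ} (hI : ∀ i ∈ I, i + 1 < 2 * w)
    (hI2 : I.Pairwise fun i j => i + 2 ≤ j) (hI3 : I.length + 4 ≤ 2 * w + 1) :
    ∃ S', TriOn 2 S' (quot H (mvs (prs X z I))) (quotT T (mvs (prs X z I))) := by
  obtain ⟨S', _, hS'⟩ := hD.tri.contract_list (prs X z I) (by
      have := hD.card_le h
      unfold prs
      rw [List.length_map]
      omega) (by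
      intro p hp
      unfold prs at hp
      rw [List.mem_map] at hp
      obtain ⟨i, hi, rfl⟩ := hp
      have e := hD.rg_next h i
      exact ⟨e, fun v h1 h2 => hD.face _ _ _ e h2 h1.symm⟩) (hD.far h hI hI2)
  exact ⟨S', hS'⟩

theorem rg_fix [DecidableEq V] (h : OneSided G X w z) {I : List ℕ}
    (hI : ∀ i ∈ I, i + 1 < 2 * w) {j : ℕ} (hj : j < 2 * w) (hj2 : ∀ i ∈ I, j ≠ i + 1) :
    mvs (prs X z I) (rg X z j) = rg X z j := by
  apply mvs_fix
  intro p hp
  unfold prs at hp
  rw [List.mem_map] at hp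
  obtain ⟨i, hi, rfl⟩ := hp
  intro e
  exact hj2 i hi (rg_inj h hj (hI i hi) e)

theorem ThinDisc.rg_move [DecidableEq V] (hD : ThinDisc G X hX z D S H T) (h : OneSided G X w z)
    {I : List ℕ} (hI : ∀ i ∈ I, i + 1 < 2 * w) (hI2 : I.Pairwise fun i j => i + 2 ≤ j) {i : ℕ}
    (hi : i ∈ I) : mvs (prs X z I) (rg X z (i + 1)) = rg X z i :=
  mvs_snd _ (hD.far h hI hI2) (rg X z i, rg X z (i + 1)) (by
    unfold prs
    rw [List.mem_map]
    exact ⟨i, hi, rfl⟩)

theorem ThinDisc.rg_fibre [DecidableEq V] (hD : ThinDisc G X hX z D S H T)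
    (h : OneSided G X w z) {I : List ℕ} (hI : ∀ i ∈ I, i + 1 < 2 * w)
    (hI2 : I.Pairwise fun i j => i + 2 ≤ j) {j : ℕ} (hj : j < 2 * w)
    {v : Option (V × ZMod 2)} (hv : mvs (prs X z I) v = rg X z j) :
    v = rg X z j ∨ (j ∈ I ∧ v = rg X z (j + 1)) := by
  rcases eq_of_mvs (hD.far h hI hI2) hv with h1 | ⟨p, hp, h1, h2⟩
  · exact Or.inl h1
  · right
    unfold prs at hp
    rw [List.mem_map] at hp
    obtain ⟨i, hi, rfl⟩ := hp
    have e := rg_inj h (by have := hI i hi; omega) hj h1
    subst e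
    exact ⟨hi, h2⟩

/-- Vertices of the boundary which do not become adjacent. -/
theorem ThinDisc.not_adj [DecidableEq V] (hD : ThinDisc G X hX z D S H T)
    (h : OneSided G X w z) {I : List ℕ} (hI : ∀ i ∈ I, i + 1 < 2 * w)
    (hI2 : I.Pairwise fun i j => i + 2 ≤ j) {i j : ℕ} (hj : j < 2 * w)
    (hij : i + 3 ≤ j) (hij2 : j + 3 ≤ i + 2 * w) :
    ¬ (quot H (mvs (prs X z I))).Adj (rg X z i) (rg X z j) := by
  rintro ⟨_, a, b, ha, hb, hab⟩
  rcases hD.rg_fibre h hI hI2 (by omega) ha with rfl | ⟨_, rfl⟩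
  · rcases hD.rg_fibre h hI hI2 (by omega) hb with rfl | ⟨hjI, rfl⟩
    · have := hD.rg_adj h (by omega) (by omega) hab
      omega
    · have := hD.rg_adj h (by omega) (hI j hjI) hab
      omega
  · rcases hD.rg_fibre h hI hI2 (by omega) hb with rfl | ⟨hjI, rfl⟩
    · have := hD.rg_adj h (by omega) (by omega) hab
      omega
    · have := hD.rg_adj h (by omega) (hI j hjI) hab
      omega

/-- A triangle of the contracted disc at the apex. -/
theorem ThinDisc.cap' [DecidableEq V] (hD : ThinDisc G X hX z D S H T) {I : List ℕ} {a i j : ℕ}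
    (h1 : mvs (prs X z I) (rg X z a) = rg X z i)
    (h2 : mvs (prs X z I) (rg X z (a + 1)) = rg X z j) (hij : rg X z i ≠ rg X z j) :
    quotT T (mvs (prs X z I)) none (rg X z i) (rg X z j) := by
  refine ⟨(Option.some_ne_none _).symm, hij, Option.some_ne_none _, none, rg X z a,
    rg X z (a + 1), ?_, h1, h2, hD.cap a⟩
  apply mvs_fix
  intro p hp
  unfold prs at hp
  rw [List.mem_map] at hp
  obtain ⟨i, hi, rfl⟩ := hp
  exact (Option.some_ne_none _).symm

/-- The colouring of the triangulation from a colouring of the contracted disc. -/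
theorem ThinDisc.colour [Finite V] (hD : ThinDisc G X hX z D S H T)
    (h : OneSided G X w z) {ρ : Option (V × ZMod 2) → Option (V × ZMod 2)}
    (hρ : ∀ p : V × ZMod 2, p.1 ∉ Set.range z → ρ (some p) = some p) {r : ℕ → ℕ}
    (hr : ∀ j < 2 * w, ρ (rg X z j) = rg X z (r j)) {M : Set (Option (V × ZMod 2))}
    (hM : ∀ j < 2 * w, rg X z (r j) ∈ M) {col : Option (V × ZMod 2) → Fin 4}
    (hcol : MDef (quot H ρ) {none} M col)
    (hrr : ∀ j < w, col (rg X z (r j)) = col (rg X z (r (j + w))))
    (hmate : ∀ i < w, ∀ j < w, ∀ k < w, i ≠ j → i ≠ k → col (rg X z (r j)) = col (rg X z (r i)) →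
      col (rg X z (r k)) = col (rg X z (r i)) → j = k) : ∃ f : V → Fin 4, Defective G 1 f := by
  classical
  have h3 := h.three
  have key : ∀ p ∈ D, ∀ q ∈ D, p.1 = q.1 → col (ρ (some p)) = col (ρ (some q)) := by
    intro p hp q hq hpq
    by_cases hz : p.1 ∈ Set.range z
    · obtain ⟨j, hj, rfl⟩ := h.exists_lft hz
      obtain ⟨k, hk, rfl⟩ := h.exists_lft (hpq ▸ hz)
      have hjk : z j = z k := hpq
      change col (ρ (rg X z j)) = col (ρ (rg X z k))
      rw [hr j hj, hr k hk]
      have hred : ∀ n < 2 * w, ∃ m < w, z m = z n ∧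
          col (rg X z (r n)) = col (rg X z (r m)) := by
        intro n hn
        rcases lt_or_ge n w with h1 | h1
        · exact ⟨n, h1, rfl, rfl⟩
        · obtain ⟨m, rfl⟩ : ∃ m, n = m + w := ⟨n - w, by omega⟩
          exact ⟨m, by omega, (h.per m).symm, (hrr m (by omega)).symm⟩
      obtain ⟨m, hm, hm1, hm2⟩ := hred j hj
      obtain ⟨n, hn, hn1, hn2⟩ := hred k hk
      rw [hm2, hn2, h.inj m hm n hn (by rw [hm1, hn1, hjk])]
    · have : p = q := by
        obtain ⟨x, a⟩ := p
        obtain ⟨y, b⟩ := q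
        change x = y at hpq
        subst hpq
        by_contra hne
        have k : ∀ a b : ZMod 2, a ≠ b → b = a + 1 := by decide
        have hab : b = a + 1 := k a b fun e => hne (by rw [e])
        rw [hab] at hq
        exact (hD.half x hz a).1 hp hq
      rw [this]
  let f : V → Fin 4 := fun v => if hv : ∃ p ∈ D, p.1 = v then col (ρ (some hv.choose)) else 0
  have hf : ∀ p ∈ D, col (ρ (some p)) = f p.1 := by
    intro p hp
    have hv : ∃ q ∈ D, q.1 = p.1 := ⟨p, hp, rfl⟩
    have e : f p.1 = col (ρ (some hv.choose)) := dif_pos hv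
    rw [e]
    exact key p hp _ hv.choose_spec.1 hv.choose_spec.2.symm
  have hfz : ∀ j < 2 * w, f (z j) = col (rg X z (r j)) := by
    intro j hj
    rw [← hr j hj]
    exact (hf _ (hD.lft_mem j)).symm
  have hlt : ∀ v ∈ Set.range z, ∃ j < w, z j = v := by
    intro v hv
    obtain ⟨j, hj, e⟩ := h.exists_lft (p := (v, 0)) hv
    have e' : z j = v := (congrArg Prod.fst e).symm
    rcases lt_or_ge j w with h1 | h1
    · exact ⟨j, h1, e'⟩
    · obtain ⟨m, rfl⟩ : ∃ m, j = m + w := ⟨j - w, by omega⟩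
      rw [h.per] at e'
      exact ⟨m, by omega, e'⟩
  refine ⟨f, thin_pull (Z := Set.range z) (fun p q h1 h2 h3 => (hD.adj p q).2 ⟨h1, h2, h3⟩) ?_ ?_
    hD.inner hρ ?_ (col := col) ?_ ?_ hf ?_⟩
  · rintro _ ⟨t, rfl⟩ a
    exact hD.ring t a
  · intro v hv
    by_cases h1 : (v, (0 : ZMod 2)) ∈ D
    · exact ⟨0, h1⟩
    · refine ⟨1, ?_⟩
      by_contra h2
      apply h1
      rw [hD.half v hv 0, zero_add]
      exact h2
  · intro p hp
    obtain ⟨j, hj, rfl⟩ := h.exists_lft hp
    exact ⟨lft X z 0 (r j), ⟨r j, rfl⟩, hr j hj⟩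
  · intro p hp y hy hadj
    obtain ⟨j, hj, rfl⟩ := h.exists_lft hp
    change (quot H ρ).Adj (ρ (rg X z j)) y at hadj
    change col y ≠ col (ρ (rg X z j))
    rw [hr j hj] at hadj ⊢
    exact (hcol (rg X z (r j)) (Option.some_ne_none _)).2 (hM j hj) y hy hadj
  · intro p hp
    have h1 := (hcol (some p) (Option.some_ne_none _)).1
    exact h1
  · intro v hv u hu u' hu' hvu hvu' e e'
    obtain ⟨i, hi, rfl⟩ := hlt v hv
    obtain ⟨j, hj, rfl⟩ := hlt u hu
    obtain ⟨k, hk, rfl⟩ := hlt u' hu'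
    rw [hfz i (by omega), hfz j (by omega)] at e
    rw [hfz i (by omega), hfz k (by omega)] at e'
    rw [hmate i hi j hj k hk (fun h => hvu.ne (by rw [h])) (fun h => hvu'.ne (by rw [h])) e e']

/-- The case of a cycle of length three. -/
theorem ThinDisc.colour_three [Fintype V] [DecidableEq V] (hQ : DiscQ1)
    (hD : ThinDisc G X hX z D S H T) (h : OneSided G X 3 z) :
    ∃ f : V → Fin 4, Defective G 1 f := by
  classical
  have hI : ∀ i ∈ [0, 3], i + 1 < 2 * 3 := by decide
  have hI2 : [0, 3].Pairwise fun i j => i + 2 ≤ j := by decide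
  obtain ⟨S', hS'⟩ := hD.contract h hI hI2 (by decide)
  have hne : ∀ i j, i < 2 * 3 → j < 2 * 3 → i ≠ j → rg X z i ≠ rg X z j :=
    fun i j hi hj hij e => hij (rg_inj h hi hj e)
  have r0 : mvs (prs X z [0, 3]) (rg X z 0) = rg X z 0 := rg_fix h hI (by omega) (by decide)
  have r1 : mvs (prs X z [0, 3]) (rg X z 1) = rg X z 0 := hD.rg_move h hI hI2 (by decide)
  have r2 : mvs (prs X z [0, 3]) (rg X z 2) = rg X z 2 := rg_fix h hI (by omega) (by decide)
  have r3 : mvs (prs X z [0, 3]) (rg X z 3) = rg X z 3 := rg_fix h hI (by omega) (by decide)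
  have r4 : mvs (prs X z [0, 3]) (rg X z 4) = rg X z 3 := hD.rg_move h hI hI2 (by decide)
  have r5 : mvs (prs X z [0, 3]) (rg X z 5) = rg X z 5 := rg_fix h hI (by omega) (by decide)
  have r6 : mvs (prs X z [0, 3]) (rg X z (5 + 1)) = rg X z 0 := by
    have e : rg X z (5 + 1) = rg X z 0 := congrArg some (h.lft_per 0)
    rw [e, r0]
  obtain ⟨col, c1, c2, c3, c4⟩ := hQ _ S' _ _ hS' none (rg X z 0) (rg X z 2) (rg X z 3) (rg X z 5)
    (hD.cap' r1 r2 (hne _ _ (by omega) (by omega) (by omega)))
    (hD.cap' r2 r3 (hne _ _ (by omega) (by omega) (by omega)))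
    (hD.cap' r4 r5 (hne _ _ (by omega) (by omega) (by omega)))
    (hD.cap' r5 r6 (hne _ _ (by omega) (by omega) (by omega)))
    (hne _ _ (by omega) (by omega) (by omega)) (hne _ _ (by omega) (by omega) (by omega))
    (hD.not_adj h hI hI2 (by omega) (by omega) (by omega))
    (hD.not_adj h hI hI2 (by omega) (by omega) (by omega))
  refine hD.colour h (r := fun j => [0, 0, 2, 3, 3, 5].getD j 0) ?_ ?_ ?_ c4 ?_ ?_
  · intro p hp
    apply mvs_fix
    intro q hq
    unfold prs at hq
    rw [List.mem_map] at hq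
    obtain ⟨i, hi, rfl⟩ := hq
    intro e
    exact hp ⟨i + 1, (congrArg Prod.fst (Option.some.inj e)).symm⟩
  · intro j hj
    interval_cases j
    · exact r0
    · exact r1
    · exact r2
    · exact r3
    · exact r4
    · exact r5
  · intro j hj
    interval_cases j <;> simp
  · intro j hj
    interval_cases j
    · exact c1
    · exact c1
    · exact c2
  · have key : ∀ i < 3, ∀ j < 3, i ≠ j → col (rg X z ([0, 0, 2, 3, 3, 5].getD j 0)) =
        col (rg X z ([0, 0, 2, 3, 3, 5].getD i 0)) → i + j = 1 := by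
      intro i hi j hj hij e
      interval_cases i <;> interval_cases j
      · omega
      · rfl
      · exact absurd e.symm c3
      · rfl
      · omega
      · exact absurd e.symm c3
      · exact absurd e c3
      · exact absurd e c3
      · omega
    intro i hi j hj k hk hij hik e1 e2
    have k1 := key i hi j hj hij e1
    have k2 := key i hi k hk hik e2
    omega

/-- The case of a cycle of length four. -/
theorem ThinDisc.colour_four [Fintype V] [DecidableEq V] (hQ : DiscQ1)
    (hD : ThinDisc G X hX z D S H T) (h : OneSided G X 4 z) :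
    ∃ f : V → Fin 4, Defective G 1 f := by
  classical
  have hI : ∀ i ∈ [0, 2, 4, 6], i + 1 < 2 * 4 := by decide
  have hI2 : [0, 2, 4, 6].Pairwise fun i j => i + 2 ≤ j := by decide
  obtain ⟨S', hS'⟩ := hD.contract h hI hI2 (by decide)
  have hne : ∀ i j, i < 2 * 4 → j < 2 * 4 → i ≠ j → rg X z i ≠ rg X z j :=
    fun i j hi hj hij e => hij (rg_inj h hi hj e)
  have r0 : mvs (prs X z [0, 2, 4, 6]) (rg X z 0) = rg X z 0 :=
    rg_fix h hI (by omega) (by decide)
  have r1 : mvs (prs X z [0, 2, 4, 6]) (rg X z 1) = rg X z 0 := hD.rg_move h hI hI2 (by decide)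
  have r2 : mvs (prs X z [0, 2, 4, 6]) (rg X z 2) = rg X z 2 :=
    rg_fix h hI (by omega) (by decide)
  have r3 : mvs (prs X z [0, 2, 4, 6]) (rg X z 3) = rg X z 2 := hD.rg_move h hI hI2 (by decide)
  have r4 : mvs (prs X z [0, 2, 4, 6]) (rg X z 4) = rg X z 4 :=
    rg_fix h hI (by omega) (by decide)
  have r5 : mvs (prs X z [0, 2, 4, 6]) (rg X z 5) = rg X z 4 := hD.rg_move h hI hI2 (by decide)
  have r6 : mvs (prs X z [0, 2, 4, 6]) (rg X z 6) = rg X z 6 :=
    rg_fix h hI (by omega) (by decide)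
  have r7 : mvs (prs X z [0, 2, 4, 6]) (rg X z 7) = rg X z 6 := hD.rg_move h hI hI2 (by decide)
  have r8 : mvs (prs X z [0, 2, 4, 6]) (rg X z (7 + 1)) = rg X z 0 := by
    have e : rg X z (7 + 1) = rg X z 0 := congrArg some (h.lft_per 0)
    rw [e, r0]
  obtain ⟨col, c1, c2, c3, c4⟩ := hQ _ S' _ _ hS' none (rg X z 0) (rg X z 2) (rg X z 4) (rg X z 6)
    (hD.cap' r1 r2 (hne _ _ (by omega) (by omega) (by omega)))
    (hD.cap' r3 r4 (hne _ _ (by omega) (by omega) (by omega)))
    (hD.cap' r5 r6 (hne _ _ (by omega) (by omega) (by omega)))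
    (hD.cap' r7 r8 (hne _ _ (by omega) (by omega) (by omega)))
    (hne _ _ (by omega) (by omega) (by omega)) (hne _ _ (by omega) (by omega) (by omega))
    (hD.not_adj h hI hI2 (by omega) (by omega) (by omega))
    (hD.not_adj h hI hI2 (by omega) (by omega) (by omega))
  refine hD.colour h (r := fun j => [0, 0, 2, 2, 4, 4, 6, 6].getD j 0) ?_ ?_ ?_ c4 ?_ ?_
  · intro p hp
    apply mvs_fix
    intro q hq
    unfold prs at hq
    rw [List.mem_map] at hq
    obtain ⟨i, hi, rfl⟩ := hq
    intro e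
    exact hp ⟨i + 1, (congrArg Prod.fst (Option.some.inj e)).symm⟩
  · intro j hj
    interval_cases j
    · exact r0
    · exact r1
    · exact r2
    · exact r3
    · exact r4
    · exact r5
    · exact r6
    · exact r7
  · intro j hj
    interval_cases j <;> simp
  · intro j hj
    interval_cases j
    · exact c1
    · exact c1
    · exact c2
    · exact c2
  · have key : ∀ i < 4, ∀ j < 4, i ≠ j → col (rg X z ([0, 0, 2, 2, 4, 4, 6, 6].getD j 0)) =
        col (rg X z ([0, 0, 2, 2, 4, 4, 6, 6].getD i 0)) → i + j = 1 ∨ i + j = 5 := by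
      intro i hi j hj hij e
      have a1 : ∀ k, k < 2 → rg X z ([0, 0, 2, 2, 4, 4, 6, 6].getD k 0) = rg X z 0 := by
        intro k hk
        interval_cases k <;> rfl
      have a2 : ∀ k, 2 ≤ k → k < 4 →
          rg X z ([0, 0, 2, 2, 4, 4, 6, 6].getD k 0) = rg X z 2 := by
        intro k hk hk2
        interval_cases k <;> rfl
      rcases lt_or_ge i 2 with h1 | h1
      · rcases lt_or_ge j 2 with h2 | h2
        · omega
        · rw [a1 i h1, a2 j h2 hj] at e
          exact absurd e.symm c3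
      · rcases lt_or_ge j 2 with h2 | h2
        · rw [a2 i h1 hi, a1 j h2] at e
          exact absurd e c3
        · omega
    intro i hi j hj k hk hij hik e1 e2
    have k1 := key i hi j hj hij e1
    have k2 := key i hi k hk hik e2
    omega

end main

end Pool.Agent.W986
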