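import Pool.Agent.DC76.Defs
import Pool.Agent.W986.RotnB

/-!
# Triangulated surfaces inside a fixed type

`TriOn χ S G T`: the graph `G` with the triangles `T` is a triangulation of a closed surface of
Euler characteristic `χ` with vertex set `S`.
-/

set_option autoImplicit false

open Finset

namespace Pool.Agent.W986

open Pool.Agent.DC76

section defs

variable {V : Type}

/-- The local conditions for a triangulation of a closed surface with vertex set `S`. -/
structure TriLoc (S : Finset V) (G : SimpleGraph V) (T : V → V → V → Prop) : Prop where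
  /-- the order of the vertices of a triangle does not matter -/
  rot : ∀ x y z, T x y z → T y z x
  swap : ∀ x y z, T x y z → T y x z
  adj : ∀ x y z, T x y z → G.Adj x y
  mem : ∀ x y, G.Adj x y → x ∈ S
  /-- the triangles at a vertex form one cycle -/
  rotation : ∀ x ∈ S, ∃ d ν, Rotn G T x d ν
  conn : ∀ x ∈ S, ∀ y ∈ S, G.Reachable x y

/-- A triangulation of a closed surface of Euler characteristic `χ` with vertex set `S`. -/
structure TriOn (χ : ℤ) (S : Finset V) (G : SimpleGraph V) (T : V → V → V → Prop) : Prop extends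
    TriLoc S G T where
  /-- Euler's formula -/
  euler : (∑ x ∈ S, ({y | G.Adj x y}.ncard : ℤ)) + 6 * χ = 6 * S.card

end defs

variable {V : Type} {G : SimpleGraph V} {T : V → V → V → Prop}

/-- The rotation at a vertex, from the local conditions. -/
theorem exists_rotn [Finite V] {v : V} (hrot : ∀ x y z, T x y z → T y z x)
    (hswap : ∀ x y z, T x y z → T y x z) (hadj : ∀ x y z, T x y z → G.Adj x y)
    (hne : ∃ y, G.Adj v y)
    (two : ∀ y, G.Adj v y → ∃ a b, a ≠ b ∧ ∀ z, T v y z ↔ z = a ∨ z = b)
    (split : ∀ N : Set V, (∃ a ∈ N, G.Adj v a) → (∃ a, a ∉ N ∧ G.Adj v a) →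
      ∃ a b, a ∈ N ∧ b ∉ N ∧ T v a b) :
    ∃ d ν, Rotn G T v d ν := by
  classical
  have hflip : ∀ a b, T v a b → T v b a := fun a b h => hrot _ _ _ (hswap _ _ _ h) |> fun h' => h'
  let L : SimpleGraph V :=
    { Adj := fun a b => T v a b
      symm := ⟨fun a b h => hflip a b h⟩
      loopless := ⟨fun a h => G.loopless.irrefl a (hadj _ _ _ (hrot _ _ _ h))⟩ }
  have hcyc : L.IsCycles := by
    rintro x ⟨y, hxy⟩
    have hvx : G.Adj v x := hadj _ _ _ hxy
    obtain ⟨a, b, hab, h⟩ := two x hvx
    have h6 : L.neighborSet x = {a, b} := by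
      ext z
      rw [SimpleGraph.mem_neighborSet, Set.mem_insert_iff, Set.mem_singleton_iff]
      exact h z
    rw [h6, Set.ncard_pair hab]
  have hsub : ∀ x y, G.Adj v x → L.Reachable x y → G.Adj v y := by
    rintro x y hx ⟨p⟩
    induction p with
    | nil => exact hx
    | cons h p ih => exact ih (hadj _ _ _ (hflip _ _ h))
  obtain ⟨x0, hx0⟩ := hne
  have hn : (L.neighborSet x0).Nonempty := by
    obtain ⟨a, b, _, h⟩ := two x0 hx0
    exact ⟨a, (h a).2 (Or.inl rfl)⟩
  obtain ⟨p, hp, hverts⟩ := hcyc.exists_cycle_toSubgraph_verts_eq_connectedComponentSupp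
    (c := L.connectedComponentMk x0) rfl hn
  have hsupp : (L.connectedComponentMk x0).supp = {y | G.Adj v y} := by
    ext y
    rw [SimpleGraph.ConnectedComponent.mem_supp_iff, SimpleGraph.ConnectedComponent.eq,
      Set.mem_ofPred_eq]
    constructor
    · intro h
      exact hsub x0 y hx0 h.symm
    · intro hy
      by_contra hcon
      obtain ⟨a, b, ha, hb, hT⟩ := split {z | L.Reachable z x0}
        ⟨x0, SimpleGraph.Reachable.refl x0, hx0⟩ ⟨y, hcon, hy⟩
      apply hb
      have h2 : L.Adj b a := hflip _ _ hT
      exact h2.reachable.trans ha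
  rw [hsupp] at hverts
  have h3 : 3 ≤ p.length := hp.three_le_length
  have hadj' : ∀ i, L.Adj (p.getVert (i % p.length)) (p.getVert ((i + 1) % p.length)) := by
    intro i
    have hlt : i % p.length < p.length := Nat.mod_lt _ (by omega)
    have h4 := p.adj_getVert_succ hlt
    by_cases h5 : i % p.length + 1 < p.length
    · have h6 : (i + 1) % p.length = i % p.length + 1 := by
        rw [Nat.add_mod, Nat.mod_eq_of_lt (show 1 < p.length by omega), Nat.mod_eq_of_lt h5]
      rw [h6]
      exact h4
    · have h6 : i % p.length + 1 = p.length := by omega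
      have h7 : (i + 1) % p.length = 0 := by
        rw [Nat.add_mod, Nat.mod_eq_of_lt (show 1 < p.length by omega), h6, Nat.mod_self]
      rw [h6, SimpleGraph.Walk.getVert_length] at h4
      rw [h7, SimpleGraph.Walk.getVert_zero]
      exact h4
  have hinj : ∀ i, i < p.length → ∀ j, j < p.length → p.getVert i = p.getVert j → i = j := by
    intro i hi j hj hij
    have h4 := hp.getVert_injOn'
    exact h4 (by simp only [Set.mem_ofPred_eq]; omega) (by simp only [Set.mem_ofPred_eq]; omega) hij
  let ν : ℕ → V := fun i => p.getVert (i % p.length)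
  refine ⟨p.length, ν, h3, ?_, ?_, ?_, ?_⟩
  · intro i
    change p.getVert ((i + p.length) % p.length) = p.getVert (i % p.length)
    rw [Nat.add_mod_right]
  · intro i hi j hj hij
    change p.getVert (i % p.length) = p.getVert (j % p.length) at hij
    rw [Nat.mod_eq_of_lt hi, Nat.mod_eq_of_lt hj] at hij
    exact hinj i hi j hj hij
  · intro x
    have h4 : G.Adj v x ↔ x ∈ p.support := by
      rw [← SimpleGraph.Walk.mem_verts_toSubgraph, hverts]
      exact Iff.rfl
    rw [h4, SimpleGraph.Walk.mem_support_iff_exists_getVert]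
    constructor
    · rintro ⟨i, hi, hi2⟩
      by_cases h5 : i < p.length
      · exact ⟨i, h5, by change p.getVert (i % p.length) = x; rw [Nat.mod_eq_of_lt h5]; exact hi⟩
      · have h6 : i = p.length := by omega
        refine ⟨0, by omega, ?_⟩
        change p.getVert (0 % p.length) = x
        rw [Nat.zero_mod, SimpleGraph.Walk.getVert_zero, ← hi, h6,
          SimpleGraph.Walk.getVert_length]
    · rintro ⟨i, hi, hi2⟩
      change p.getVert (i % p.length) = x at hi2
      rw [Nat.mod_eq_of_lt hi] at hi2
      exact ⟨i, hi2, hi.le⟩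
  · intro i y
    have h1 : T v (ν (i + 1)) (ν i) := hflip _ _ (hadj' i)
    have h2 : T v (ν (i + 1)) (ν (i + 2)) := hadj' (i + 1)
    have hne : ν i ≠ ν (i + 2) := by
      intro h
      have h8 := hinj _ (Nat.mod_lt _ (by omega)) _ (Nat.mod_lt _ (by omega)) h
      have h9 : i % p.length < p.length := Nat.mod_lt _ (by omega)
      rw [Nat.add_mod, show 2 % p.length = 2 from Nat.mod_eq_of_lt (by omega)] at h8
      generalize i % p.length = m at h8 h9
      by_cases h10 : m + 2 < p.length
      · rw [Nat.mod_eq_of_lt h10] at h8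
        omega
      · rw [Nat.mod_eq_sub_mod (by omega), Nat.mod_eq_of_lt (by omega)] at h8
        omega
    obtain ⟨a, b, hab, h⟩ := two _ (hadj _ _ _ h1)
    rw [h] at h1 h2 ⊢
    grind
end Pool.Agent.W986
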