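import Pool.Agent.W986.SubTreeB

/-!
# Coinciding labels: the Boolean functions

Different labels of a patch may belong to the same vertex. The functions check certificates for
the patches in which a label `y` is replaced by a label `x`. Soundness is in `SubVar.lean`.
-/

set_option autoImplicit false

namespace Pool.Agent.W986

namespace ST

/-- The label `y` is replaced by `x`, then `k`. -/
def subP (x y : ℕ) (P : Patch) (k : Patch → List ℕ) : List ℕ :=
  frcK (P.lk.map fun p => (rpl y x p.1, p.2.map (rpl y x))) fun lk =>
    frcB (P.lb.map fun p => (rpl y x p.1, p.2)) fun lb =>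
      frcB (P.kb.map fun p => (rpl y x p.1, p.2)) fun kb =>
        frcB (P.kg.map fun p => (rpl y x p.1, p.2)) fun kg => k ⟨P.n, lk, lb, kb, kg⟩

/-- The certificate `s` and the facts below `c` show that the labels `x`, `y` do not coincide. -/
def pairOK (leafI : Patch → Bool) (fs : List Fact) (fuel c : ℕ) (P : Patch) (x y : ℕ)
    (s : List ℕ) : Bool :=
  cf (Nat.ble (Nat.succ x) P.n) (cons? (subP x y P fun Q => chk 0 false leafI fs c fuel Q s)) false

/-- All the certificates are correct. -/
def pairsOK (leafI : Patch → Bool) (fs : List Fact) (fuel c : ℕ) (P : Patch)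
    (vs : List (ℕ × ℕ × List ℕ)) : Bool :=
  @List.rec (ℕ × ℕ × List ℕ) (fun _ => Bool) true
    (fun v _ ih => cf (pairOK leafI fs fuel c P v.1 v.2.1 v.2.2) ih false) vs

/-- All labels of the patch are smaller than `n`. -/
def okP (P : Patch) : Bool :=
  cf (okL P.n P.lk) (cf (okB P.n P.lb) (cf (okB P.n P.kb) (okB P.n P.kg) false) false) false

/-- The pairs of labels of the patch `P` in the list `vs` do not coincide; the certificates use
the facts below `c`. -/
def varOK (leafI : Patch → Bool) (fs : List Fact) (fuel c : ℕ) (P : Patch)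
    (vs : List (ℕ × ℕ × List ℕ)) : Bool :=
  cf (okP P) (pairsOK leafI fs fuel c P vs) false

/-- The bit `y` of `m`. -/
def bitB (m y : ℕ) : Bool := Nat.beq (Nat.land (Nat.shiftRight m y) 1) 1

/-- The labels `y` for which there is a certificate for `x`, `y`. -/
def farMask (x : ℕ) (vs : List (ℕ × ℕ × List ℕ)) : ℕ :=
  @List.rec (ℕ × ℕ × List ℕ) (fun _ => ℕ) 0
    (fun v _ ih => cf (Nat.beq v.1 x) (Nat.lor (Nat.shiftLeft 1 v.2.1) ih) ih) vs

/-- Every pair `x`, `y` with `x < k` is in the table or has a certificate. -/
def colOK (M : List ℕ) (vs : List (ℕ × ℕ × List ℕ)) (y k : ℕ) : Bool :=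
  @Nat.rec (fun _ => Bool) true
    (fun x ih => cf (bitB (Nat.lor (lnth M x) (farMask x vs)) y) ih false) k

/-- Every pair `x < y < n` is in the table or has a certificate. -/
def covOK (M : List ℕ) (vs : List (ℕ × ℕ × List ℕ)) (n : ℕ) : Bool :=
  @Nat.rec (fun _ => Bool) true (fun y ih => cf (colOK M vs y y) ih false) n

/-- The coincidences of labels of the patch `P` are excluded by the table `M` (bit `y` of the
number `x`) and the certificates `vs`, which use the facts below `c`. -/
def entOK (leafI : Patch → Bool) (fs : List Fact) (fuel c : ℕ) (P : Patch) (M : List ℕ)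
    (vs : List (ℕ × ℕ × List ℕ)) : Bool :=
  cf (covOK M vs P.n) (varOK leafI fs fuel c P vs) false

end ST

end Pool.Agent.W986
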