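import Pool.Agent.W986.SubTree
import Pool.Agent.W986.SubVarB

/-!
# Coinciding labels

Different labels of a patch may belong to the same vertex. If it is known that a patch does not
occur with certain pairs of labels different (since it is reducible then), it remains to exclude
that the labels `x`, `y` of such a pair coincide: the patch in which `y` is replaced by `x` is
excluded by a certificate, which uses the facts proved before.
-/

set_option autoImplicit false

open Finset

namespace Pool.Agent.W986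

namespace ST

theorem okP_spec {P : Patch} (h : okP P = true) : P.Ok := by
  obtain ⟨h1, h⟩ := cf_tt h
  obtain ⟨h2, h⟩ := cf_tt h
  obtain ⟨h3, h4⟩ := cf_tt h
  exact ⟨⟨okL_spec _ _ h1, okB_spec _ _ h2⟩, okB_spec _ _ h3, okB_spec _ _ h4⟩

theorem pairsOK_spec {leafI : Patch → Bool} {fs : List Fact} {fuel c : ℕ} {P : Patch}
    {vs : List (ℕ × ℕ × List ℕ)} (h : pairsOK leafI fs fuel c P vs = true) :
    ∀ v ∈ vs, pairOK leafI fs fuel c P v.1 v.2.1 v.2.2 = true := by
  induction vs with
  | nil => intro v hv; exact absurd hv List.not_mem_nil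
  | cons w vs ih =>
    obtain ⟨h1, h2⟩ := cf_tt (c := pairsOK leafI fs fuel c P vs) h
    intro v hv
    rcases List.mem_cons.1 hv with rfl | hv
    · exact h1
    · exact ih h2 v hv

section sound

variable {V : Type} {E : Env V}

/-- The labels `x`, `y` do not coincide. -/
theorem pairOK_sound {leafI : Patch → Bool} {fs : List Fact} {fuel c : ℕ} {P : Patch}
    (hI : ∀ P f, leafI P = true → ¬ E.Sat P f)
    (hfs : ∀ c' < c, ∀ F, fnth fs c' = some F → F.imp = true → ∀ f, ¬ E.Sat F.P f)
    (hP : P.Ok) {x y : ℕ} {s : List ℕ} (h : pairOK leafI fs fuel c P x y s = true) {f : ℕ → V}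
    (hf : E.Sat P f) : f x ≠ f y := by
  intro hxy
  obtain ⟨h1, h2⟩ := cf_tt h
  have h2 := cons?_spec h2
  have hx : x < P.n := Nat.le_of_ble_eq_true h1
  rw [subP, frcK_eq, frcB_eq, frcB_eq, frcB_eq] at h2
  have h6 : ∀ z, f (rpl y x z) = f z := by
    intro z
    rw [rpl]
    cases h7 : Nat.beq z y with
    | true =>
      rw [cf_true, Nat.eq_of_beq_eq_true h7]
      exact hxy
    | false => rfl
  have h8 : ∀ z < P.n, rpl y x z < P.n := by
    intro z hz
    rw [rpl]
    cases Nat.beq z y with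
    | true => exact hx
    | false => exact hz
  have h9 := hf.real.relabel _ h6
  refine chk_sound (E := E) (Phi := fun _ => False) (n0 := 0) (q := false)
    (fun P f h h' => hI P f h h')
    (fun c' hc' F hF f hf => ⟨?_, fun h => absurd h Bool.false_ne_true⟩)
    (fun _ _ _ h => h) fuel _ s h2 ⟨⟨?_, ?_⟩, ?_, ?_⟩ (Nat.zero_le _) f ⟨h9, ?_, ?_⟩
  · cases hF' : F.imp with
    | true => exact absurd hf (hfs c' hc' F hF hF' f)
    | false => rfl
  · intro p hp
    obtain ⟨q, hq, rfl⟩ := List.mem_map.1 hp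
    have h10 := hP.below.1 q hq
    refine ⟨h8 _ h10.1, fun z hz => ?_⟩
    obtain ⟨w, hw, rfl⟩ := List.mem_map.1 hz
    exact h8 _ (h10.2 w hw)
  · intro p hp
    obtain ⟨q, hq, rfl⟩ := List.mem_map.1 hp
    exact h8 _ (hP.below.2 q hq)
  · intro p hp
    obtain ⟨q, hq, rfl⟩ := List.mem_map.1 hp
    exact h8 _ (hP.kb q hq)
  · intro p hp
    obtain ⟨q, hq, rfl⟩ := List.mem_map.1 hp
    exact h8 _ (hP.kg q hq)
  · intro p hp
    obtain ⟨q, hq, rfl⟩ := List.mem_map.1 hp
    rw [h6]
    exact hf.kb q hq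
  · intro p hp
    obtain ⟨q, hq, rfl⟩ := List.mem_map.1 hp
    rw [h6]
    exact hf.kg q hq

/-- The pairs of labels in the list `vs` do not coincide. -/
theorem varOK_ne {leafI : Patch → Bool} {fs : List Fact} {fuel c : ℕ} {P : Patch}
    {vs : List (ℕ × ℕ × List ℕ)}
    (hI : ∀ P f, leafI P = true → ¬ E.Sat P f)
    (hfs : ∀ c' < c, ∀ F, fnth fs c' = some F → F.imp = true → ∀ f, ¬ E.Sat F.P f)
    (h : varOK leafI fs fuel c P vs = true) {f : ℕ → V} (hf : E.Sat P f) :
    ∀ v ∈ vs, f v.1 ≠ f v.2.1 := by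
  obtain ⟨h1, h2⟩ := cf_tt h
  intro v hv
  exact pairOK_sound hI hfs (okP_spec h1) (pairsOK_spec h2 v hv) hf

/-- The patch does not occur, if it does not occur with the pairs of labels in the list `vs`
different. -/
theorem varOK_sound {leafI : Patch → Bool} {fs : List Fact} {fuel c : ℕ} {P : Patch}
    {vs : List (ℕ × ℕ × List ℕ)}
    (hI : ∀ P f, leafI P = true → ¬ E.Sat P f)
    (hfs : ∀ c' < c, ∀ F, fnth fs c' = some F → F.imp = true → ∀ f, ¬ E.Sat F.P f)
    (h : varOK leafI fs fuel c P vs = true)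
    (hinj : ∀ f, E.Sat P f → ¬ ∀ v ∈ vs, f v.1 ≠ f v.2.1) : ∀ f, ¬ E.Sat P f :=
  fun f hf => hinj f hf (varOK_ne hI hfs h hf)

/-- **The table.** Every entry is excluded if the pairs of labels in a list are different, and the
coincidences are excluded by the entries before. -/
theorem vars_sound {leafI : Patch → Bool} {fs : List Fact} {fuel bd : ℕ}
    (hI : ∀ P f, leafI P = true → ¬ E.Sat P f)
    (h : ∀ c < bd, ∀ F, fnth fs c = some F → ∃ vs, varOK leafI fs fuel c F.P vs = true ∧
      ∀ f, E.Sat F.P f → ¬ ∀ v ∈ vs, f v.1 ≠ f v.2.1) :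
    ∀ c < bd, ∀ F, fnth fs c = some F → ∀ f, ¬ E.Sat F.P f := by
  intro c
  induction c using Nat.strong_induction_on with
  | _ c ih =>
    intro hc F hF
    obtain ⟨vs, h1, h2⟩ := h c hc F hF
    exact varOK_sound hI (fun c' hc' F' hF' _ => ih c' hc' (hc'.trans hc) F' hF') h1 h2

/-- The base of `run_sound`. -/
theorem vars_holds {Phi : (ℕ → V) → Prop} {leafI : Patch → Bool} {fs : List Fact}
    {fuel bd : ℕ} (hI : ∀ P f, leafI P = true → ¬ E.Sat P f)
    (h : ∀ c < bd, ∀ F, fnth fs c = some F → ∃ vs, varOK leafI fs fuel c F.P vs = true ∧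
      ∀ f, E.Sat F.P f → ¬ ∀ v ∈ vs, f v.1 ≠ f v.2.1) :
    ∀ c < bd, ∀ F, fnth fs c = some F → E.Holds Phi F :=
  fun c hc F hF f hf => absurd hf (vars_sound hI h c hc F hF f)

end sound

/-! ### The version with a table of the pairs which are always different -/

theorem bitB_iff (m y : ℕ) : bitB m y = true ↔ m.testBit y = true := by
  have h1 : Nat.land (Nat.shiftRight m y) 1 = (m >>> y) % 2 := by
    change (m >>> y) &&& 1 = _
    exact Nat.and_one_is_mod _
  have h2 : bitB m y = Nat.beq ((m >>> y) % 2) 1 := by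
    rw [bitB, h1]
  rw [h2, Nat.testBit_eq_decide_div_mod_eq, ← Nat.shiftRight_eq_div_pow]
  constructor
  · intro h
    exact decide_eq_true (Nat.eq_of_beq_eq_true h)
  · intro h
    rw [of_decide_eq_true h]
    rfl

theorem farMask_spec (x y : ℕ) (vs : List (ℕ × ℕ × List ℕ)) (h : (farMask x vs).testBit y = true) :
    ∃ v ∈ vs, v.1 = x ∧ v.2.1 = y := by
  induction vs with
  | nil =>
    change Nat.testBit 0 y = true at h
    rw [Nat.zero_testBit] at h
    exact absurd h Bool.false_ne_true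
  | cons v vs ih =>
    change (cf (Nat.beq v.1 x) (Nat.lor (Nat.shiftLeft 1 v.2.1) (farMask x vs))
      (farMask x vs)).testBit y = true at h
    cases h1 : Nat.beq v.1 x with
    | false =>
      rw [h1, cf_false] at h
      obtain ⟨w, h2, h3⟩ := ih h
      exact ⟨w, List.mem_cons_of_mem _ h2, h3⟩
    | true =>
      rw [h1, cf_true] at h
      change ((1 <<< v.2.1) ||| farMask x vs).testBit y = true at h
      rw [Nat.testBit_or, Bool.or_eq_true] at h
      rcases h with h | h
      · refine ⟨v, List.mem_cons_self, Nat.eq_of_beq_eq_true h1, ?_⟩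
        rw [Nat.one_shiftLeft, Nat.testBit_two_pow] at h
        exact of_decide_eq_true h
      · obtain ⟨w, h2, h3⟩ := ih h
        exact ⟨w, List.mem_cons_of_mem _ h2, h3⟩

theorem colOK_spec {M : List ℕ} {vs : List (ℕ × ℕ × List ℕ)} {y : ℕ} : ∀ k, colOK M vs y k = true →
    ∀ x < k, bitB (lnth M x) y = true ∨ ∃ v ∈ vs, v.1 = x ∧ v.2.1 = y
  | 0, _, x, hx => absurd hx (Nat.not_lt_zero x)
  | k + 1, h, x, hx => by
    obtain ⟨h1, h2⟩ := cf_tt (c := colOK M vs y k) h
    rcases Nat.lt_succ_iff_lt_or_eq.1 hx with h3 | rfl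
    · exact colOK_spec k h2 x h3
    · rw [bitB_iff] at h1
      change (lnth M x ||| farMask x vs).testBit y = true at h1
      rw [Nat.testBit_or, Bool.or_eq_true] at h1
      rcases h1 with h1 | h1
      · exact Or.inl ((bitB_iff _ _).2 h1)
      · exact Or.inr (farMask_spec x y vs h1)

theorem covOK_spec {M : List ℕ} {vs : List (ℕ × ℕ × List ℕ)} : ∀ n, covOK M vs n = true →
    ∀ y < n, ∀ x < y, bitB (lnth M x) y = true ∨ ∃ v ∈ vs, v.1 = x ∧ v.2.1 = y
  | 0, _, y, hy => absurd hy (Nat.not_lt_zero y)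
  | n + 1, h, y, hy => by
    obtain ⟨h1, h2⟩ := cf_tt (c := covOK M vs n) h
    rcases Nat.lt_succ_iff_lt_or_eq.1 hy with h3 | rfl
    · exact covOK_spec n h2 y h3
    · exact colOK_spec y h1

section sound

variable {V : Type} {E : Env V}

/-- The patch does not occur, if it does not occur with different labels. -/
theorem entOK_sound {leafI : Patch → Bool} {fs : List Fact} {fuel c : ℕ} {P : Patch}
    {M : List ℕ} {vs : List (ℕ × ℕ × List ℕ)}
    (hI : ∀ P f, leafI P = true → ¬ E.Sat P f)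
    (hfs : ∀ c' < c, ∀ F, fnth fs c' = some F → F.imp = true → ∀ f, ¬ E.Sat F.P f)
    (h : entOK leafI fs fuel c P M vs = true)
    (hsep : ∀ f, E.Sat P f → ∀ x y, x < y → y < P.n → bitB (lnth M x) y = true → f x ≠ f y)
    (hinj : ∀ f, E.Sat P f → ¬ ∀ x < P.n, ∀ y < P.n, f x = f y → x = y) :
    ∀ f, ¬ E.Sat P f := by
  obtain ⟨h2, h3⟩ := cf_tt h
  intro f hf
  have h4 := varOK_ne hI hfs h3 hf
  have h5 : ∀ y < P.n, ∀ x < y, f x ≠ f y := by
    intro y hy x hxy
    rcases covOK_spec P.n h2 y hy x hxy with h6 | ⟨v, hv, rfl, rfl⟩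
    · exact hsep f hf x y hxy hy h6
    · exact h4 v hv
  refine hinj f hf fun x hx y hy hxy => ?_
  rcases lt_trichotomy x y with h6 | h6 | h6
  · exact absurd hxy (h5 y hy x h6)
  · exact h6
  · exact absurd hxy.symm (h5 x hx y h6)

end sound

end ST

end Pool.Agent.W986
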