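import Pool.Agent.W986.SubTreeB

/-!
# The first facts of a table have no bounds in `kb` and `kg`
-/

set_option autoImplicit false

namespace Pool.Agent.W986.ST

/-- The list is empty. -/
def nilB (l : List (ℕ × ℕ)) : Bool :=
  @List.rec (ℕ × ℕ) (fun _ => Bool) true (fun _ _ _ => false) l

/-- The fact has no bounds in `kb` and `kg`. -/
def noK (F : Option Fact) : Bool :=
  @Option.rec Fact (fun _ => Bool) true (fun F => cf (nilB F.P.kb) (nilB F.P.kg) false) F

/-- The facts number `64 i`, ..., `64 i + 63` which are smaller than `b` have no bounds in `kb` and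
`kg`. -/
def noK64 (fl : ℕ → Option Fact) (b i : ℕ) : Bool :=
  @Nat.rec (fun _ => Bool) true (fun j ih =>
    frc (Nat.add (Nat.mul 64 i) j) fun c =>
      cf (cf (Nat.ble b c) true (noK (fl c))) ih false) 64

/-- The facts smaller than `b` have no bounds in `kb` and `kg`. -/
def noKB (fl : ℕ → Option Fact) (b m : ℕ) : Bool :=
  cf (Nat.ble b (Nat.mul 64 m))
    (@Nat.rec (fun _ => Bool) true (fun i ih => cf (noK64 fl b i) ih false) m) false

end Pool.Agent.W986.ST
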