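import Pool.Agent.W986.SubAll
import Pool.Agent.W986.SubRR
import Pool.Agent.W986.SubXB

/-!
# The answer for projective-planar graphs from the data, with a change of the environments

As `SubAll.lean`; the first run is done in the environments `X E`, where `X` changes only the
quantity `kap`, which is bounded by the entries of `kb` and `kg`. `HubX`: the inequality at the
vertices of degree `d` follows from the facts of the table.
-/

set_option autoImplicit false

open Finset

namespace Pool.Agent.W986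

open Pool.Agent.DC76 ST ST.LB

/-- The facts below `b` have no bounds. -/
theorem noKB_spec {fl : ℕ → Option Fact} {b m : ℕ} (h : noKB fl b m = true) :
    ∀ c < b, ∀ F, fl c = some F → F.P.kb = [] ∧ F.P.kg = [] := by
  obtain ⟨h1, h2⟩ := cf_tt h
  have h1 := Nat.le_of_ble_eq_true h1
  have h1' : b ≤ 64 * m := h1
  have h3 : ∀ m : ℕ, (@Nat.rec (fun _ => Bool) true
      (fun i ih => cf (noK64 fl b i) ih false) m : Bool) = true →
      ∀ i < m, noK64 fl b i = true := by
    intro m
    induction m with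
    | zero => exact fun _ i hi => absurd hi (Nat.not_lt_zero i)
    | succ m ih =>
      intro h4 i hi
      obtain ⟨h5, h6⟩ := cf_tt h4
      rcases Nat.lt_succ_iff_lt_or_eq.1 hi with h7 | h7
      · exact ih h6 i h7
      · rw [h7]
        exact h5
  have h4 : ∀ i n : ℕ, (@Nat.rec (fun _ => Bool) true (fun j ih =>
      frc (Nat.add (Nat.mul 64 i) j) fun c =>
        cf (cf (Nat.ble b c) true (noK (fl c))) ih false) n : Bool) = true →
      ∀ j < n, Nat.ble b (64 * i + j) = true ∨ noK (fl (64 * i + j)) = true := by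
    intro i n
    induction n with
    | zero => exact fun _ j hj => absurd hj (Nat.not_lt_zero j)
    | succ n ih =>
      intro h4 j hj
      have h4' : frc (Nat.add (Nat.mul 64 i) n) (fun c =>
        cf (cf (Nat.ble b c) true (noK (fl c))) (@Nat.rec (fun _ => Bool) true (fun j ih =>
      frc (Nat.add (Nat.mul 64 i) j) fun c =>
        cf (cf (Nat.ble b c) true (noK (fl c))) ih false) n : Bool) false) = true := h4
      rw [frc_eq] at h4'
      obtain ⟨h5, h6⟩ := cf_tt h4'
      rcases Nat.lt_succ_iff_lt_or_eq.1 hj with h7 | h7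
      · exact ih h6 j h7
      · subst h7
        change cf (Nat.ble b (64 * i + j)) true (noK (fl (64 * i + j))) = true at h5
        cases h8 : Nat.ble b (64 * i + j) with
        | true => exact Or.inl rfl
        | false =>
          rw [h8, cf_false] at h5
          exact Or.inr h5
  have hnil : ∀ l : List (ℕ × ℕ), nilB l = true → l = [] := by
    intro l hl
    cases l with
    | nil => rfl
    | cons p l => exact absurd hl Bool.false_ne_true
  intro c hc F hF
  have h5 := h4 (c / 64) 64 (h3 m h2 (c / 64) (by omega)) (c % 64) (Nat.mod_lt _ (by norm_num))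
  rw [Nat.div_add_mod] at h5
  rcases h5 with h5 | h5
  · have := Nat.le_of_ble_eq_true h5
    omega
  · rw [hF] at h5
    obtain ⟨h6, h7⟩ := cf_tt h5
    exact ⟨hnil _ h6, hnil _ h7⟩

/-- The leaves of the first run are correct in the changed environments of the regions. -/
structure LeavesX (X : {V : Type} → [Fintype V] → Env V → Env V) (lIX lFX : Patch → Bool) :
    Prop where
  same : ∀ (V : Type) [Fintype V] (E : Env V) (P : Patch) (f : ℕ → V), P.kb = [] → P.kg = [] →
    ((X E).Sat P f ↔ E.Sat P f)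
  sI : ∀ (χ : ℤ) (V : Type) [Fintype V] [DecidableEq V] (S : Finset V) (G : SimpleGraph V)
    (T : V → V → V → Prop) (I : Finset V) (hT : TriOn χ S G T) (R : Region S G T I),
    KapOK (regEnv hT R 6) → (∀ P ∈ small, ∀ f, ¬ (regEnv hT R 6).Sat P f) →
    ∀ P f, lIX P = true → ¬ (X (regEnv hT R 6)).Sat P f
  sF : ∀ (χ : ℤ) (V : Type) [Fintype V] [DecidableEq V] (S : Finset V) (G : SimpleGraph V)
    (T : V → V → V → Prop) (I : Finset V) (hT : TriOn χ S G T) (R : Region S G T I),
    KapOK (regEnv hT R 6) → (∀ P ∈ small, ∀ f, ¬ (regEnv hT R 6).Sat P f) →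
    ∀ P f, lFX P = true → (X (regEnv hT R 6)).Sat P f → FinU (regEnv hT R 6) (f 0)

/-- The inequality at the vertices of degree `d` follows from the facts: those below `b` are
impossible, those below `n` hold in the changed environments. -/
def HubX (X : {V : Type} → [Fintype V] → Env V → Env V) (fl : ℕ → Option Fact) (b n d : ℕ) :
    Prop :=
  ∀ (χ : ℤ) (V : Type) [Fintype V] [DecidableEq V] (S : Finset V) (G : SimpleGraph V)
    (T : V → V → V → Prop) (I : Finset V) (hT : TriOn χ S G T) (R : Region S G T I),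
    KapOK (regEnv hT R 6) → (∀ P ∈ small, ∀ f, ¬ (regEnv hT R 6).Sat P f) →
    (∀ c < b, ∀ F, fl c = some F → ∀ f, ¬ (regEnv hT R 6).Sat F.P f) →
    (∀ c < n, ∀ F, fl c = some F →
      (X (regEnv hT R 6)).Holds (fun f => FinU (regEnv hT R 6) (f 0)) F) →
    ∀ x ∈ I, dgI G I x = d → FinU (regEnv hT R 6) x

/-- The table, where the first run is done in the changed environments. -/
structure TableX (X : {V : Type} → [Fintype V] → Env V → Env V) (lIX lFX : Patch → Bool)
    (fl : ℕ → Option Fact) (a b n : ℕ) : Prop where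
  run0 : RunsF 0 lC lC fl a b
  nok : ∀ c < b, ∀ F, fl c = some F → F.P.kb = [] ∧ F.P.kg = []
  runs : RunsF 1 lIX lFX fl b n
  small : ∀ P ∈ small, ∃ c < b, ∃ F, fl c = some F ∧ F.imp = true ∧ F.P = P
  hub : ∀ d, 5 ≤ d → d ≤ 11 → HubX X fl b n d

/-- **Regions have reductions.** -/
theorem regionRed_ofX {χ : ℤ} {X : {V : Type} → [Fintype V] → Env V → Env V}
    {lIX lFX : Patch → Bool} (hL : LeavesX X lIX lFX) {fl : ℕ → Option Fact} {a b n : ℕ}
    (hF : TableX X lIX lFX fl a b n) (hbase : BaseF fl a) (hbig : BigF fl b b) :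
    RegionRed χ := by
  intro V _ _ S G T I hT R
  by_contra hno
  have h0 : ∀ c < b, ∀ F, fl c = some F →
      (regEnv hT R 6).Holds (fun _ => False) F :=
    hF.run0.sound (fun P f h => leavesOK.s0 χ V S G T I hT R P f h)
      (fun P f h hf => leavesOK.s0 χ V S G T I hT R P f h hf) (fun _ _ _ h => h)
      (fun c hc F hFc f hf => absurd hf (hbase χ V S G T I hT R hno c hc F hFc f))
  have h1 : ∀ P ∈ ST.small, ∀ f, ¬ (regEnv hT R 6).Sat P f := by
    intro P hP f hf
    obtain ⟨c, hc, F, hFc, _, rfl⟩ := hF.small P hP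
    exact (h0 c hc F hFc f hf).2
  have hK := kapOK_regEnv hT R le_rfl ((regEnv hT R 6).local_facts h1).1
  have h2 : ∀ c < n, ∀ F, fl c = some F →
      (X (regEnv hT R 6)).Holds (fun f => FinU (regEnv hT R 6) (f 0)) F := by
    refine hF.runs.sound (fun P f h hf => hL.sI χ V S G T I hT R hK h1 P f h hf)
      (fun P f h hf => hL.sF χ V S G T I hT R hK h1 P f h hf)
      (fun f g hfg h => ?_) (fun c hc F hFc f hf => ?_)
    · rw [hfg 0 one_pos] at h
      exact h
    · obtain ⟨h3, h4⟩ := hF.nok c hc F hFc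
      exact absurd (h0 c hc F hFc f ((hL.same V _ F.P f h3 h4).1 hf)).2 (fun h => h)
  refine region_false hT R le_rfl h1 fun x hx h4 => ?_
  rcases lt_or_ge (dgI G I x) 12 with h12 | h12
  · have h5' : 5 ≤ dgI G I x := by
      have := (regEnv hT R 6).min4 x
      rw [regEnv_D] at this
      omega
    exact hF.hub _ h5' (by omega) χ V S G T I hT R hK h1
      (fun c hc F hFc f hf => (h0 c hc F hFc f hf).2) h2 x hx rfl
  · exact hbig χ V S G T I hT R hK h1
      (fun c hc F hFc f hf => (h0 c hc F hFc f hf).2)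
      (fun c hc F hFc f hf => absurd (h0 c hc F hFc f hf).2 (fun h => h)) x hx h12

/-- A hub which is a fact of the table. -/
theorem HubX.of_root {X : {V : Type} → [Fintype V] → Env V → Env V} {lIX lFX : Patch → Bool}
    (hL : LeavesX X lIX lFX) {fl : ℕ → Option Fact} {b n d : ℕ}
    (h : ∃ c < n, ∃ F, fl c = some F ∧ F.P = rootP d) : HubX X fl b n d := by
  intro χ V _ _ S G T I hT R _ _ _ h2 x hx hd
  obtain ⟨c, hc, F, hFc, hP⟩ := h
  obtain ⟨ν, hν⟩ := (regEnv hT R 6).ex x hx
  have h6 := rootP_sat (regEnv hT R 6) hx hν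
  rw [regEnv_D, hd] at h6
  exact (h2 c hc F hFc _ (by rw [hP]; exact (hL.same V _ _ _ rfl rfl).2 h6)).2

/-- The hubs of the degrees in the list `ds` are facts of the table. -/
theorem hubX_of {X : {V : Type} → [Fintype V] → Env V → Env V} {lIX lFX : Patch → Bool}
    (hL : LeavesX X lIX lFX) {fl : ℕ → Option Fact} {b n : ℕ} (ds lr : List ℕ)
    (hr : inTab fl n false (ds.map rootP) lr = true) : ∀ d ∈ ds, HubX X fl b n d := by
  intro d hd
  obtain ⟨c, hc, F, hF, _, hP⟩ := inTab_spec _ _ hr (rootP d) (List.mem_map.2 ⟨d, hd, rfl⟩)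
  exact HubX.of_root hL ⟨c, hc, F, hF, hP⟩

/-- **The answer for projective-planar graphs from the data**, with a change of the environments.
The hubs of degree 5, ..., 11 are given by `hub`. -/
theorem projective_of_dataX {X : {V : Type} → [Fintype V] → Env V → Env V}
    {lIX lFX lG : Patch → Bool} (hL : LeavesX X lIX lFX) (hG : LeafGOK lG)
    {fl : ℕ → Option Fact} {fuel a b n n2 m : ℕ} (ls lg : List ℕ) (le : Nat.ble b n = true)
    (hs : inTab fl b true small ls = true) (hub : ∀ d, 5 ≤ d → d ≤ 11 → HubX X fl b n d)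
    (hg : inTab (flm fl b n) n2 false rootsB lg = true) (hgood : Rng (GoodF fl fuel) 0 a)
    (run0 : RunsF 0 lC lC fl a b) (hk : noKB fl b m = true) (run1 : RunsF 1 lIX lFX fl b n)
    (run4 : RunsF 4 lI lG (flm fl b n) n n2) (k d : ℕ) :
    AllCol @ProjectivePlanar k d ↔ (3 ≤ k ∧ 2 ≤ d) ∨ (4 ≤ k ∧ 1 ≤ d) ∨ 6 ≤ k := by
  have key : ∀ χ, RegionRed χ := by
    intro χ
    refine regionRed_ofX hL ⟨run0, noKB_spec hk, run1, inTab_spec _ _ hs, hub⟩
      (baseF_of hgood.all) (bigF_of leavesOK hG (fl2 := flm fl b n) (b2 := n) (n2 := n2)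
        ⟨fun c hc F hF => ?_, run4, rootsB_spec hg⟩)
    obtain ⟨h2, h3⟩ := flm_spec hF
    have := Nat.le_of_ble_eq_true le
    exact ⟨c, by omega, F, h2, rfl⟩
  exact projective_iff_of_red (key _) (thmQ (key _)) k d

/-- All the hubs are facts of the table. -/
theorem hubX_all {X : {V : Type} → [Fintype V] → Env V → Env V} {lIX lFX : Patch → Bool}
    (hL : LeavesX X lIX lFX) {fl : ℕ → Option Fact} {b n : ℕ} (lr : List ℕ)
    (hr : inTab fl n false
      [rootP 5, rootP 6, rootP 7, rootP 8, rootP 9, rootP 10, rootP 11] lr = true) :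
    ∀ d, 5 ≤ d → d ≤ 11 → HubX X fl b n d := by
  intro d h5 h11
  refine hubX_of hL [5, 6, 7, 8, 9, 10, 11] lr hr d ?_
  interval_cases d <;> simp

/-- The hubs of degree at most 8 are facts of the table, the others are given. -/
theorem hubX_low {X : {V : Type} → [Fintype V] → Env V → Env V} {lIX lFX : Patch → Bool}
    (hL : LeavesX X lIX lFX) {fl : ℕ → Option Fact} {b n : ℕ} (lr : List ℕ)
    (hr : inTab fl n false [rootP 5, rootP 6, rootP 7, rootP 8] lr = true)
    (h9 : HubX X fl b n 9) (h10 : HubX X fl b n 10) (h11 : HubX X fl b n 11) :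
    ∀ d, 5 ≤ d → d ≤ 11 → HubX X fl b n d := by
  intro d h5 h11'
  rcases Nat.lt_or_ge d 9 with h | h
  · refine hubX_of hL [5, 6, 7, 8] lr hr d ?_
    interval_cases d <;> simp
  · interval_cases d
    · exact h9
    · exact h10
    · exact h11

/-- The leaves with the second quantity are correct. -/
theorem leavesR : LeavesX (fun E => rEnv E) lIR lFR where
  same _ _ _ _ _ h1 h2 := rEnv_sat_iff h1 h2
  sI _ _ _ _ _ _ _ _ hT R hK _ _ _ h := lIR_region hT R hK h
  sF _ _ _ _ _ _ _ _ hT R hK hs _ _ h hf := lFR_region hT R hK hs h hf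

/-- **The answer for projective-planar graphs from the data**, with the second quantity. -/
theorem projective_of_dataR {lG : Patch → Bool} (hG : LeafGOK lG)
    {fl : ℕ → Option Fact} {fuel a b n n2 m : ℕ} (ls lr lg : List ℕ) (le : Nat.ble b n = true)
    (hs : inTab fl b true small ls = true)
    (hr : inTab fl n false
      [rootP 5, rootP 6, rootP 7, rootP 8, rootP 9, rootP 10, rootP 11] lr = true)
    (hg : inTab (flm fl b n) n2 false rootsB lg = true) (hgood : Rng (GoodF fl fuel) 0 a)
    (run0 : RunsF 0 lC lC fl a b) (hk : noKB fl b m = true) (run1 : RunsF 1 lIR lFR fl b n)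
    (run4 : RunsF 4 lI lG (flm fl b n) n n2) (k d : ℕ) :
    AllCol @ProjectivePlanar k d ↔ (3 ≤ k ∧ 2 ≤ d) ∨ (4 ≤ k ∧ 1 ≤ d) ∨ 6 ≤ k :=
  projective_of_dataX leavesR hG ls lg le hs (hubX_all leavesR lr hr) hg hgood run0 hk run1 run4
    k d

end Pool.Agent.W986
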