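import Pool.Agent.W986.SubXB
import Pool.Agent.W986.SubAltB

/-!
# The first facts of a table have no bounds in `kb` and `kg`: check in parts

The kernel reads the facts of one block of 64 facts at a time.
-/

set_option autoImplicit false

namespace Pool.Agent.W986.ST

theorem noKB_of {fl : ℕ → Option Fact} {b m : ℕ} (hb : Nat.ble b (Nat.mul 64 m) = true)
    (h : Rng (fun i => noK64 fl b i = true) 0 m) : noKB fl b m = true := by
  have key : ∀ k : ℕ, k ≤ m → (@Nat.rec (fun _ => Bool) true
      (fun i ih => cf (noK64 fl b i) ih false) k : Bool) = true := by
    intro k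
    induction k with
    | zero => exact fun _ => rfl
    | succ k ih =>
      intro hk
      have h1 : noK64 fl b k = true := h k (Nat.zero_le k) hk
      change cf (noK64 fl b k) _ false = true
      rw [h1]
      exact ih (Nat.le_of_succ_le hk)
  unfold noKB
  rw [hb]
  exact key m (Nat.le_refl m)

end Pool.Agent.W986.ST
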