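import Pool.Agent.W986.SubX
import Pool.Agent.W986.SubLeafT

/-!
# The leaves with levels in the frame

In the first run the entries of `kb` and `kg` below 64 bound what a vertex with positive charge
gives by one of the fractions `p / W` with `p ≤ 3` and `W ≤ 28`.
-/

set_option autoImplicit false

open Finset

namespace Pool.Agent.W986

open Pool.Agent.DC76 ST ST.LB ST.LT

/-- A contradictory patch does not occur in a changed environment. -/
theorem leafI_sound_t {V : Type} [Fintype V] {χ : ℤ} {S I : Finset V} {G : SimpleGraph V}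
    {T : V → V → V → Prop} (hT : TriOn χ S G T) (R : Region S G T I) {E : Env V} {P Q : Patch}
    {f : ℕ → V} (hsat : E.Sat P f → (regEnv hT R 6).Sat Q f) (hn : Q.n = P.n)
    (hk : Q.lk = P.lk) (hb : Q.lb = P.lb) (hP : LegF.leafI P = true) : ¬ E.Sat P f := by
  intro h
  have h1 : LegF.leafI Q = LegF.leafI P := by rw [LegF.leafI, LegF.leafI, hn, hk, hb]
  exact LegF.leafI_sound hT R 6 (h1.trans hP) (hsat h)

theorem cf_or_t {a b : Bool} (h : cf a true b = true) : a = true ∨ b = true := by
  cases a with
  | true => exact Or.inl rfl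
  | false => exact Or.inr h

/-- The environment where the amounts of the vertices with positive charge are compared with the
fractions of `RT`. -/
noncomputable def tEnv {V : Type} [Fintype V] (E : Env V) : Env V := levEnv E (gkM E) RT

section

variable {V : Type} [Fintype V] {E : Env V} {P : Patch} {f : ℕ → V}

theorem okR_RT : okR RT = true := rfl

theorem length_RT : RT.length < 64 := by decide

/-- A patch without bounds. -/
theorem sat_tEnv (hb : P.kb = []) (hg : P.kg = []) : (tEnv E).Sat P f ↔ E.Sat P f := by
  constructor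
  · intro h
    refine ⟨⟨h.real.1, h.real.2⟩, fun p hp => ?_, fun p hp => ?_⟩
    · rw [hb] at hp
      exact absurd hp List.not_mem_nil
    · rw [hg] at hp
      exact absurd hp List.not_mem_nil
  · intro h
    refine ⟨⟨h.real.1, h.real.2⟩, fun p hp => ?_, fun p hp => ?_⟩
    · rw [hb] at hp
      exact absurd hp List.not_mem_nil
    · rw [hg] at hp
      exact absurd hp List.not_mem_nil

theorem gkM_le (u : V) : gkM E u ≤ E.kap u := by
  unfold gkM
  omega

theorem gkM_ctr (hK : KapOK E) (h545 : ∀ m y z, E.H.Adj m y → E.H.Adj m z →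
    y ≠ z → E.D m = 4 → E.D y = 5 → E.D z ≠ 5) (Q : Patch) (f : ℕ → V) (h : E.Sat Q f) (u : ℕ)
    (hc : ctrU Q u = true) : gkM E (f u) ≤ E.kap (f u) - 1 := by
  have h1 := ctrU_pcnt hK h h545 hc
  unfold gkM
  omega

end

/-- The leaves with levels. -/
theorem leavesT : LeavesX (fun E => tEnv E) lIT lFT where
  same _ _ _ _ _ h1 h2 := sat_tEnv h1 h2
  sI χ V _ _ S G T I hT R hK hs P f h := by
    obtain ⟨_, _, _, _, _, h545⟩ := (regEnv hT R 6).local_facts hs
    rcases cf_or_t h with h3 | h3
    · exact leafIT_sound hK length_RT okR_RT gkM_le (gkM_ctr hK h545) h3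
    · exact leafI_sound_t hT R (Q := base P) (fun h => sat_base length_RT h) rfl rfl rfl h3
  sF χ V _ _ S G T I hT R hK hs P f h hf := by
    obtain ⟨_, _, _, _, _, h545⟩ := (regEnv hT R 6).local_facts hs
    have hb := sat_base length_RT hf
    rcases cf_or_t h with h3 | h3
    · exact leafBT_sound hK length_RT okR_RT hf gkM_le (gkM_ctr hK h545 _ _ hb) (exU_ge hK hb) h3
    · exact absurd hf
        (leafI_sound_t hT R (Q := base P) (fun h => sat_base length_RT h) rfl rfl rfl h3)

end Pool.Agent.W986
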