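import Pool.Agent.W986.Count
import Pool.Agent.DC76.Main

/-!
# The number of edges of a graph on a surface
-/

set_option autoImplicit false

open Finset

namespace Pool.Agent.W986

open Pool.Agent.DC76

/-- A graph `H` on a surface of Euler characteristic `χ` has at most `3|X| - 3χ` or at most
`|X| + 1 - χ` edges inside every nonempty set `X` of vertices. -/
theorem edge_bound {U : Type} (H : SimpleGraph U) (χ : ℤ) (h : OnSurface χ H) (X : Finset U)
    (hX : X.Nonempty) :
    (ein H X : ℤ) ≤ 3 * X.card - 3 * χ ∨ (ein H X : ℤ) ≤ X.card + 1 - χ := by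
  classical
  obtain ⟨V, F, _, _, _, G, f, hf, hHG, hG, ⟨M⟩, hM⟩ := h
  have hconn := conn_univ hG
  let K : SimpleGraph V :=
    { Adj := fun a b => ∃ x ∈ X, ∃ y ∈ X, H.Adj x y ∧ f x = a ∧ f y = b
      symm := ⟨by
        rintro a b ⟨x, hx, y, hy, hxy, h1, h2⟩
        exact ⟨y, hy, x, hx, hxy.symm, h2, h1⟩⟩
      loopless := ⟨by
        rintro a ⟨x, hx, y, hy, hxy, h1, h2⟩
        exact hxy.ne (hf (h1.trans h2.symm))⟩ }
  have hcard : K.edgeSet.ncard = ein H X := by
    unfold ein
    rw [← Set.ncard_image_of_injective _ (Sym2.map.injective hf)]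
    congr 1
    ext e
    constructor
    · intro he
      induction e using Sym2.ind with
      | _ a b =>
        obtain ⟨x, hx, y, hy, hxy, h1, h2⟩ := (K.mem_edgeSet).1 he
        refine ⟨s(x, y), ⟨(H.mem_edgeSet).2 hxy, ?_⟩, ?_⟩
        · intro v hv
          rcases Sym2.mem_iff.1 hv with rfl | rfl
          · exact hx
          · exact hy
        · rw [Sym2.map_mk, h1, h2]
    · rintro ⟨e', ⟨he1, he2⟩, rfl⟩
      induction e' using Sym2.ind with
      | _ x y =>
        rw [Sym2.map_mk]
        exact (K.mem_edgeSet).2 ⟨x, he2 x (Sym2.mem_mk_left x y), y,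
          he2 y (Sym2.mem_mk_right x y), (H.mem_edgeSet).1 he1, rfl, rfl⟩
  have h1 := sub_bound hconn M χ hM K
    (by
      rintro a b ⟨x, hx, y, hy, hxy, rfl, rfl⟩
      exact hHG x y hxy)
    (X.map ⟨f, hf⟩) (by simpa using hX)
    (by
      rintro a b ⟨x, hx, y, hy, hxy, rfl, rfl⟩
      exact ⟨Finset.mem_map.2 ⟨x, hx, rfl⟩, Finset.mem_map.2 ⟨y, hy, rfl⟩⟩)
  rw [hcard, Finset.card_map] at h1
  exact h1

/-- On a surface of Euler characteristic at least `0` there are at most `3|X|` edges inside `X`. -/
theorem ein_le_three {U : Type} (H : SimpleGraph U) (χ : ℤ) (hχ : 0 ≤ χ) (h : OnSurface χ H)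
    (X : Finset U) : ein H X ≤ 3 * X.card := by
  classical
  by_cases hX : X.Nonempty
  · have h1 := edge_bound H χ h X hX
    have h2 : 0 < X.card := Finset.card_pos.2 hX
    omega
  · rw [Finset.not_nonempty_iff_eq_empty] at hX
    subst hX
    have : ein H ∅ = 0 := by
      unfold ein
      rw [Set.ncard_eq_zero (Set.Finite.subset (Set.finite_empty) _)]
      · ext e
        simp only [Set.mem_ofPred_eq, Set.mem_empty_iff_false, iff_false]
        rintro ⟨_, h2⟩
        induction e using Sym2.ind with
        | _ a b => exact absurd (h2 a (Sym2.mem_mk_left a b)) (Finset.notMem_empty a)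
      · rintro e ⟨_, h2⟩
        induction e using Sym2.ind with
        | _ a b => exact absurd (h2 a (Sym2.mem_mk_left a b)) (Finset.notMem_empty a)
    rw [this]
    exact Nat.zero_le _

/-- In the projective plane there are at most `3|X| - 3` edges inside the nonempty set `X`. -/
theorem ein_le_three_sub {U : Type} (H : SimpleGraph U) (χ : ℤ) (hχ : 1 ≤ χ) (h : OnSurface χ H)
    (X : Finset U) (hX : X.Nonempty) : ein H X + 3 ≤ 3 * X.card := by
  classical
  have h1 := edge_bound H χ h X hX
  have h2 : 0 < X.card := Finset.card_pos.2 hX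
  by_cases h3 : X.card = 1
  · obtain ⟨x, rfl⟩ := Finset.card_eq_one.1 h3
    have : ein H {x} = 0 := by
      unfold ein
      have h4 : {e ∈ H.edgeSet | ∀ v ∈ e, v ∈ ({x} : Finset U)} = ∅ := by
        ext e
        simp only [Set.mem_ofPred_eq, Set.mem_empty_iff_false, iff_false]
        rintro ⟨h1, h2⟩
        induction e using Sym2.ind with
        | _ a b =>
          have ha := Finset.mem_singleton.1 (h2 a (Sym2.mem_mk_left a b))
          have hb := Finset.mem_singleton.1 (h2 b (Sym2.mem_mk_right a b))
          rw [ha, hb] at h1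
          exact ((H.mem_edgeSet).1 h1).ne rfl
      rw [h4, Set.ncard_empty]
    rw [this, h3]
  · omega

end Pool.Agent.W986
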