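import Pool.Agent.W986.QLBasic

/-!
# Three colours, at most one mate: lists and marks

`hq G L S X = SUM_X (|L v| - 1) - e(X) - |S n X|`.  If all lists have at most three colours and
`hq ≥ 0` on all nonempty sets, then there is a colouring from the lists in which every vertex has at
most one neighbour of its own colour and the marked vertices (those of `S`) have none.  In
particular every graph with `e(X) ≤ 2|X|` for all `X` has a 3-colouring with defect one, also from
lists.
-/

set_option autoImplicit false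

namespace Pool.Agent.W986.C2

open Pool.Agent.W986

variable {V : Type}

/-- Twice `hq` as a sum over the vertices. -/
theorem two_hq (G : SimpleGraph V) (L : V → Finset (Fin 4)) (S X : Finset V) :
    2 * hq G L S X
      = ∑ x ∈ X, (2 * (((L x).card : ℤ) - 1 - (ib (x ∈ S) : ℤ)) - (nb G X x : ℤ)) := by
  have h1 := dd_ein G X
  have h2 := dd_eq_sum G X X
  have h3 : (∑ x ∈ X, (nb G X x : ℤ)) = 2 * (ein G X : ℤ) := by
    have h4 : ∑ x ∈ X, nb G X x = 2 * ein G X := by rw [← h2, h1]
    exact_mod_cast h4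
  have h5 : (mk S X : ℤ) = ∑ x ∈ X, (ib (x ∈ S) : ℤ) := by
    unfold mk
    push_cast
    rfl
  have h6 : ∑ x ∈ X, (2 * (((L x).card : ℤ) - 1 - (ib (x ∈ S) : ℤ)) - (nb G X x : ℤ))
      = 2 * (∑ x ∈ X, (((L x).card : ℤ) - 1)) - 2 * (∑ x ∈ X, (ib (x ∈ S) : ℤ))
        - ∑ x ∈ X, (nb G X x : ℤ) := by
    rw [Finset.mul_sum, Finset.mul_sum, ← Finset.sum_sub_distrib, ← Finset.sum_sub_distrib]
    refine Finset.sum_congr rfl fun x _ => ?_
    ring
  rw [h6, h3, ← h5]
  unfold hq
  ring

section local_search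

/-- The number of ordered pairs of adjacent vertices of the same colour. -/
noncomputable def phi (G : SimpleGraph V) (U : Finset V) (c : V → Fin 4) : ℕ :=
  ∑ x ∈ U, ∑ y ∈ U, ib (G.Adj x y ∧ c x = c y)

theorem phi_split [DecidableEq V] (G : SimpleGraph V) {U : Finset V} (c : V → Fin 4) {v : V}
    (hv : v ∈ U) :
    phi G U c = 2 * (∑ y ∈ U.erase v, ib (G.Adj v y ∧ c v = c y)) + phi G (U.erase v) c := by
  unfold phi
  have e1 : ∀ x, ∑ y ∈ U, ib (G.Adj x y ∧ c x = c y)
      = ib (G.Adj x v ∧ c x = c v) + ∑ y ∈ U.erase v, ib (G.Adj x y ∧ c x = c y) := by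
    intro x
    exact (Finset.add_sum_erase U (fun y => ib (G.Adj x y ∧ c x = c y)) hv).symm
  have e2 : ∑ x ∈ U, ∑ y ∈ U, ib (G.Adj x y ∧ c x = c y)
      = (∑ y ∈ U, ib (G.Adj v y ∧ c v = c y))
        + ∑ x ∈ U.erase v, ∑ y ∈ U, ib (G.Adj x y ∧ c x = c y) :=
    (Finset.add_sum_erase U (fun x => ∑ y ∈ U, ib (G.Adj x y ∧ c x = c y)) hv).symm
  have e3 : ib (G.Adj v v ∧ c v = c v) = 0 := ib_neg fun h => h.1.ne rfl
  have e4 : ∑ x ∈ U.erase v, ib (G.Adj x v ∧ c x = c v)
      = ∑ y ∈ U.erase v, ib (G.Adj v y ∧ c v = c y) := by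
    refine Finset.sum_congr rfl fun y _ => ?_
    by_cases h : G.Adj v y ∧ c v = c y
    · rw [ib_pos h, ib_pos ⟨h.1.symm, h.2.symm⟩]
    · rw [ib_neg h, ib_neg (fun h' => h ⟨h'.1.symm, h'.2.symm⟩)]
  rw [e2, e1 v, e3, Finset.sum_congr rfl (fun x _ => e1 x), Finset.sum_add_distrib, e4]
  ring

/-- Local search: lists of more than half the degree. -/
theorem exists_local (G : SimpleGraph V) (L : V → Finset (Fin 4)) (S U : Finset V)
    (hS : ∀ v ∈ U, v ∉ S) (h : ∀ v ∈ U, nb G U v < 2 * (L v).card) : ColL G L S U := by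
  classical
  have h0 : ∃ n, ∃ c : V → Fin 4, (∀ v ∈ U, c v ∈ L v) ∧ phi G U c = n := by
    have h1 : ∀ v, ∃ i : Fin 4, v ∈ U → i ∈ L v := by
      intro v
      by_cases hv : v ∈ U
      · have h2 := h v hv
        obtain ⟨i, hi⟩ := Finset.card_pos.1 (show 0 < (L v).card by omega)
        exact ⟨i, fun _ => hi⟩
      · exact ⟨0, fun h3 => absurd h3 hv⟩
    choose c hc using h1
    exact ⟨_, c, fun v hv => hc v hv, rfl⟩
  obtain ⟨c, hcL, hcn⟩ := Nat.find_spec h0
  have hmin : ∀ c' : V → Fin 4, (∀ v ∈ U, c' v ∈ L v) → phi G U c ≤ phi G U c' := by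
    intro c' hc'
    rw [hcn]
    exact Nat.find_min' h0 ⟨c', hc', rfl⟩
  have key : ∀ v ∈ U, (U.filter (fun y => G.Adj v y ∧ c y = c v)).card ≤ 1 := by
    intro v hv
    by_contra h2
    push Not at h2
    -- a colour with at most one neighbour
    have h3 : ∃ i ∈ L v, (U.filter (fun y => G.Adj v y ∧ c y = i)).card ≤ 1 := by
      by_contra h4
      push Not at h4
      have h5 : ∑ i ∈ L v, (U.filter (fun y => G.Adj v y ∧ c y = i)).card ≤ nb G U v := by
        rw [nb_eq, ← Finset.card_biUnion]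
        · refine Finset.card_le_card fun y hy => ?_
          obtain ⟨i, _, hyi⟩ := Finset.mem_biUnion.1 hy
          have h6 := Finset.mem_filter.1 hyi
          exact Finset.mem_filter.2 ⟨h6.1, h6.2.1⟩
        · intro i _ j _ hij
          show Disjoint _ _
          rw [Finset.disjoint_left]
          intro y hy hy'
          apply hij
          rw [← (Finset.mem_filter.1 hy).2.2, ← (Finset.mem_filter.1 hy').2.2]
      have h6 : ∑ _i ∈ L v, 2 ≤ ∑ i ∈ L v, (U.filter (fun y => G.Adj v y ∧ c y = i)).card :=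
        Finset.sum_le_sum fun i hi => h4 i hi
      rw [Finset.sum_const, smul_eq_mul] at h6
      have h7 := h v hv
      omega
    obtain ⟨i, hiL, hi⟩ := h3
    have hne : i ≠ c v := by
      rintro rfl
      omega
    have h4 := hmin (Function.update c v i) (by
      intro w hw
      by_cases hwv : w = v
      · subst hwv
        rw [Function.update_self]
        exact hiL
      · rw [Function.update_of_ne hwv]
        exact hcL w hw)
    rw [phi_split G c hv, phi_split G (Function.update c v i) hv] at h4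
    have h5 : phi G (U.erase v) (Function.update c v i) = phi G (U.erase v) c := by
      unfold phi
      refine Finset.sum_congr rfl fun x hx => Finset.sum_congr rfl fun y hy => ?_
      rw [Function.update_of_ne (Finset.ne_of_mem_erase hx),
        Function.update_of_ne (Finset.ne_of_mem_erase hy)]
    have h6 : ∀ (d : V → Fin 4), ∑ y ∈ U.erase v, ib (G.Adj v y ∧ d v = d y)
        = (U.filter (fun y => G.Adj v y ∧ d y = d v)).card := by
      intro d
      rw [card_ib, ← Finset.add_sum_erase U (fun y => ib (G.Adj v y ∧ d y = d v)) hv,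
        ib_neg (fun h' : G.Adj v v ∧ d v = d v => h'.1.ne rfl), zero_add]
      refine Finset.sum_congr rfl fun y _ => ?_
      by_cases h' : G.Adj v y ∧ d v = d y
      · rw [ib_pos h', ib_pos ⟨h'.1, h'.2.symm⟩]
      · rw [ib_neg h', ib_neg (fun h'' => h' ⟨h''.1, h''.2.symm⟩)]
    rw [h6, h6, h5, Function.update_self] at h4
    have h7 : (U.filter (fun y => G.Adj v y ∧ Function.update c v i y = i)).card
        ≤ (U.filter (fun y => G.Adj v y ∧ c y = i)).card := by
      refine Finset.card_le_card fun y hy => ?_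
      obtain ⟨h8, h9, h10⟩ := Finset.mem_filter.1 hy
      rw [Function.update_of_ne h9.ne.symm] at h10
      exact Finset.mem_filter.2 ⟨h8, h9, h10⟩
    omega
  refine ⟨c, ⟨?_, ?_⟩, hcL⟩
  · intro v hv y hy z hz h1 h2 h3 h4
    exact Finset.card_le_one.1 (key v hv) y (Finset.mem_filter.2 ⟨hy, h1, h3⟩)
      z (Finset.mem_filter.2 ⟨hz, h2, h4⟩)
  · intro v hv hvS
    exact absurd hvS (hS v hv)

end local_search

/-- Legal triples for lists of at most three colours. -/
def Leg3 (G : SimpleGraph V) (L : V → Finset (Fin 4)) (S U : Finset V) : Prop :=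
  (∀ v ∈ U, (L v).card ≤ 3) ∧ (∀ X : Finset V, X ⊆ U → X.Nonempty → 0 ≤ hq G L S X)

theorem Leg3.mono {G : SimpleGraph V} {L : V → Finset (Fin 4)} {S U U' : Finset V}
    (h : Leg3 G L S U) (hU : U' ⊆ U) : Leg3 G L S U' :=
  ⟨fun v hv => h.1 v (hU hv), fun X hX hne => h.2 X (hX.trans hU) hne⟩

/-- A critical triple. -/
structure Crit3 (G : SimpleGraph V) (L : V → Finset (Fin 4)) (S U : Finset V) : Prop where
  leg : Leg3 G L S U
  ncol : ¬ ColL G L S U
  sub : ∀ (L' : V → Finset (Fin 4)) (S' U' : Finset V),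
    U'.card < U.card → Leg3 G L' S' U' → ColL G L' S' U'

section crit

variable {G : SimpleGraph V} {L : V → Finset (Fin 4)} {S U : Finset V}

theorem Crit3.nonempty (h : Crit3 G L S U) : U.Nonempty := by
  by_contra h0
  rw [Finset.not_nonempty_iff_eq_empty] at h0
  apply h.ncol
  refine ⟨fun _ => 0, ⟨?_, ?_⟩, ?_⟩
  · intro v hv
    rw [h0] at hv
    exact absurd hv (Finset.notMem_empty _)
  · intro v hv
    rw [h0] at hv
    exact absurd hv (Finset.notMem_empty _)
  · intro v hv
    rw [h0] at hv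
    exact absurd hv (Finset.notMem_empty _)

theorem Crit3.zero_le (h : Crit3 G L S U) : 0 ≤ hq G L S U :=
  h.leg.2 U (Finset.Subset.refl _) h.nonempty

/-- A colouring of a proper set: the cut lists are not legal. -/
theorem Crit3.first [DecidableEq V] (h : Crit3 G L S U) {Y : Finset V} (hY : Y ⊆ U)
    (hne : Y.Nonempty) {c : V → Fin 4} (hc : GoodL G L S Y c) :
    ∃ X : Finset V, X ⊆ U \ Y ∧ X.Nonempty ∧
      hq G L S X < ((∑ x ∈ X, usedL G L Y c x : ℕ) : ℤ) := by
  classical
  by_contra hcon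
  push Not at hcon
  have hcard : (U \ Y).card < U.card := by
    rw [Finset.card_sdiff_of_subset hY]
    have h1 := Finset.card_pos.2 hne
    have h2 := Finset.card_le_card hY
    omega
  have hleg : Leg3 G (cutL G L Y c) S (U \ Y) := by
    refine ⟨?_, ?_⟩
    · intro v hv
      exact (Finset.card_le_card (Finset.filter_subset _ _)).trans
        (h.leg.1 v (Finset.mem_sdiff.1 hv).1)
    · intro X hX hXne
      have h1 := hcon X hX hXne
      have h2 := hq_lists G (L := L) (L' := cutL G L Y c) (S := S) (X := X)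
        (g := usedL G L Y c) (fun x _ => le_of_eq (cutL_card G L Y c x))
      linarith
  obtain ⟨c', hc'⟩ := h.sub (cutL G L Y c) S (U \ Y) hcard hleg
  apply h.ncol
  refine ⟨_, hc.combine hc' ?_ ?_⟩
  · intro w _
    exact Finset.filter_subset _ _
  · intro w _ y hy hwy h3
    have h4 := (Finset.mem_filter.1 h3).2
    exact h4 y hy hwy rfl

/-- The gap lemma. -/
theorem Crit3.gap (h : Crit3 G L S U) {Y : Finset V} (hY : Y ⊆ U) (hYU : Y ≠ U)
    (hne : Y.Nonempty) : hq G L S U + 1 ≤ hq G L S Y := by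
  classical
  by_contra hcon
  have hcon' : hq G L S Y ≤ hq G L S U := by linarith [Int.lt_iff_add_one_le.1 (not_le.1 hcon)]
  set T : Finset (Finset V) := U.powerset.filter
    (fun Z => Z ≠ U ∧ Z.Nonempty ∧ hq G L S Z ≤ hq G L S U) with hT
  have hTne : T.Nonempty :=
    ⟨Y, Finset.mem_filter.2 ⟨Finset.mem_powerset.2 hY, hYU, hne, hcon'⟩⟩
  obtain ⟨Y, hYT, hmin⟩ := Finset.exists_min_image T (fun Z => hq G L S Z) hTne
  obtain ⟨hY, hYU, hne, hYp⟩ := Finset.mem_filter.1 hYT
  rw [Finset.mem_powerset] at hY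
  have hmono : ∀ Z : Finset V, Z ⊆ U → Y ⊆ Z → hq G L S Y ≤ hq G L S Z := by
    intro Z hZ hYZ
    by_cases hZU : Z = U
    · rw [hZU]
      exact hYp
    · by_cases hZp : hq G L S Z ≤ hq G L S U
      · exact hmin Z (Finset.mem_filter.2 ⟨Finset.mem_powerset.2 hZ, hZU, hne.mono hYZ, hZp⟩)
      · linarith
  have hYlt : Y.card < U.card := Finset.card_lt_card (Finset.ssubset_iff_subset_ne.2 ⟨hY, hYU⟩)
  obtain ⟨c, hc⟩ := h.sub L S Y hYlt (h.leg.mono hY)
  obtain ⟨X, hX, _, hlt⟩ := h.first hY hne hc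
  have hd : Disjoint X Y := by
    rw [Finset.disjoint_left]
    intro a ha
    exact (Finset.mem_sdiff.1 (hX ha)).2
  have h1 := hq_union G L S hd
  have h2 := hmono (X ∪ Y) (Finset.union_subset (hX.trans Finset.sdiff_subset) hY)
    Finset.subset_union_right
  have h3 : ∑ x ∈ X, usedL G L Y c x ≤ dd G X Y := by
    rw [dd_eq_sum]
    exact Finset.sum_le_sum fun x _ => usedL_le G L Y c x
  have h3' : ((∑ x ∈ X, usedL G L Y c x : ℕ) : ℤ) ≤ (dd G X Y : ℤ) := by exact_mod_cast h3
  linarith

/-- A critical triple has at least two vertices. -/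
theorem Crit3.two_le_card (h : Crit3 G L S U) : 2 ≤ U.card := by
  by_contra h1
  have h2 := Finset.card_pos.2 h.nonempty
  obtain ⟨v, hv⟩ := Finset.card_eq_one.1 (show U.card = 1 by omega)
  subst hv
  have h3 := h.zero_le
  rw [hq_singleton] at h3
  have h4 : 0 < (L v).card := by
    have h5 : (0 : ℤ) ≤ (ib (v ∈ S) : ℤ) := Int.natCast_nonneg _
    have h6 : (1 : ℤ) ≤ ((L v).card : ℤ) := by linarith
    have h7 : 1 ≤ (L v).card := by exact_mod_cast h6
    omega
  obtain ⟨i, hi⟩ := Finset.card_pos.1 h4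
  apply h.ncol
  refine ⟨fun _ => i, ⟨?_, ?_⟩, ?_⟩
  · intro w _ y hy z hz _ _ _ _
    rw [Finset.mem_singleton.1 hy, Finset.mem_singleton.1 hz]
  · intro w hw _ y hy h1 _
    rw [Finset.mem_singleton.1 hw, Finset.mem_singleton.1 hy] at h1
    exact h1.ne rfl
  · intro w hw
    rw [Finset.mem_singleton.1 hw]
    exact hi

theorem Crit3.single_ne (h : Crit3 G L S U) (v : V) : ({v} : Finset V) ≠ U := by
  intro h1
  have h2 := h.two_le_card
  rw [← h1, Finset.card_singleton] at h2
  omega

/-- The list of a vertex. -/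
theorem Crit3.list (h : Crit3 G L S U) {v : V} (hv : v ∈ U) :
    hq G L S U + 2 + (ib (v ∈ S) : ℤ) ≤ ((L v).card : ℤ) := by
  have h1 := h.gap (Finset.singleton_subset_iff.2 hv) (h.single_ne v)
    (Finset.singleton_nonempty v)
  rw [hq_singleton] at h1
  linarith

/-- The degree is at least the size of the list. -/
theorem Crit3.list_le (h : Crit3 G L S U) {v : V} (hv : v ∈ U) : (L v).card ≤ nb G U v := by
  classical
  by_contra h4
  obtain ⟨c, hc⟩ := h.sub L S (U.erase v) (Finset.card_erase_lt_of_mem hv)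
    (h.leg.mono (Finset.erase_subset _ _))
  have h5 : ((U.filter (fun y => G.Adj v y)).image c).card < (L v).card := by
    refine lt_of_le_of_lt Finset.card_image_le ?_
    rw [nb_eq] at h4
    omega
  obtain ⟨i, hiL, hi⟩ := Finset.exists_mem_notMem_of_card_lt_card h5
  refine h.ncol ⟨_, hc.free hiL fun y hy hvy h6 => ?_⟩
  exact hi (Finset.mem_image.2 ⟨y, Finset.mem_filter.2 ⟨hy, hvy⟩, h6⟩)

/-- An unmarked vertex with as many neighbours as colours has only marked neighbours. -/
theorem Crit3.low (h : Crit3 G L S U) {v z : V} (hv : v ∈ U) (hvS : v ∉ S)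
    (hd : nb G U v ≤ (L v).card) (hz : z ∈ U) (hvz : G.Adj v z) : z ∈ S := by
  classical
  by_contra hzS
  have hleg : Leg3 G L (insert z S) (U.erase v) := by
    refine ⟨fun w hw => h.leg.1 w (Finset.mem_of_mem_erase hw), ?_⟩
    intro X hX hne
    have hXU : X ⊆ U := hX.trans (Finset.erase_subset _ _)
    have hXne : X ≠ U := by
      rintro rfl
      exact Finset.notMem_erase v X (hX hv)
    have h1 := h.gap hXU hXne hne
    have h0 := h.zero_le
    have h2 := hq_mark G L S X z
    have h3 : (ib (z ∈ X) : ℤ) ≤ 1 := by exact_mod_cast ib_le _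
    linarith
  obtain ⟨c, hc⟩ := h.sub L (insert z S) (U.erase v) (Finset.card_erase_lt_of_mem hv) hleg
  exact h.ncol (hc.host hvS hzS hz hvz hd)

/-- A set of vertices without edges to the rest has `hq` equal to the sum over its vertices. -/
theorem two_hq_closed {A : Finset V} (hA : A ⊆ U) (hcl : ∀ x ∈ A, ∀ y ∈ U, G.Adj x y → y ∈ A) :
    2 * hq G L S A
      = ∑ x ∈ A, (2 * (((L x).card : ℤ) - 1 - (ib (x ∈ S) : ℤ)) - (nb G U x : ℤ)) := by
  classical
  rw [two_hq]
  refine Finset.sum_congr rfl fun x hx => ?_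
  have h1 : nb G A x = nb G U x := by
    rw [nb_eq, nb_eq]
    congr 1
    ext y
    simp only [Finset.mem_filter]
    constructor
    · rintro ⟨h2, h3⟩
      exact ⟨hA h2, h3⟩
    · rintro ⟨h2, h3⟩
      exact ⟨hcl x hx y h2 h3, h3⟩
  rw [h1]

/-- Unmarked vertices with three colours and three neighbours. -/
noncomputable def F3 (G : SimpleGraph V) (L : V → Finset (Fin 4)) (S U : Finset V) : Finset V := by
  classical
  exact U.filter (fun v => v ∉ S ∧ (L v).card = 3 ∧ nb G U v = 3)

theorem mem_F3 {v : V} : v ∈ F3 G L S U ↔ v ∈ U ∧ v ∉ S ∧ (L v).card = 3 ∧ nb G U v = 3 := by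
  classical
  unfold F3
  exact Finset.mem_filter

/-- The final charge. -/
noncomputable def ch (G : SimpleGraph V) (L : V → Finset (Fin 4)) (S U : Finset V) (x : V) : ℤ :=
  3 * (2 * (((L x).card : ℤ) - 1 - (ib (x ∈ S) : ℤ)) - (nb G U x : ℤ))
    - 3 * (ib (x ∈ F3 G L S U) : ℤ) + (nb G (F3 G L S U) x : ℤ)

theorem sum_ch : ∑ x ∈ U, ch G L S U x = 6 * hq G L S U := by
  classical
  have hF : F3 G L S U ⊆ U := fun x hx => (mem_F3.1 hx).1
  have h1 : ∑ x ∈ U, nb G (F3 G L S U) x = 3 * (F3 G L S U).card := by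
    rw [← dd_eq_sum, dd_comm, dd_eq_sum, Finset.sum_congr rfl (fun x hx => (mem_F3.1 hx).2.2.2),
      Finset.sum_const, smul_eq_mul]
    ring
  have h2 : ∑ x ∈ U, ib (x ∈ F3 G L S U) = (F3 G L S U).card := by
    rw [← card_ib U (fun x => x ∈ F3 G L S U), Finset.filter_mem_eq_inter,
      Finset.inter_eq_right.2 hF]
  have h3 := two_hq G L S U
  have h1' : ∑ x ∈ U, (nb G (F3 G L S U) x : ℤ) = 3 * ((F3 G L S U).card : ℤ) := by
    exact_mod_cast h1
  have h2' : ∑ x ∈ U, (ib (x ∈ F3 G L S U) : ℤ) = ((F3 G L S U).card : ℤ) := by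
    exact_mod_cast h2
  unfold ch
  rw [Finset.sum_add_distrib, h1', Finset.sum_sub_distrib, ← Finset.mul_sum, ← Finset.mul_sum,
    h2', ← h3]
  ring

/-- The final charges are not positive, and zero only in the tight cases. -/
theorem Crit3.ch_le (h : Crit3 G L S U) {x : V} (hx : x ∈ U) :
    ch G L S U x ≤ 0 ∧ (ch G L S U x = 0 →
      (x ∈ F3 G L S U) ∨ (x ∉ S ∧ (L x).card = 3 ∧ nb G U x = 4) ∨
      (x ∉ S ∧ (L x).card = 2 ∧ nb G U x = 2) ∨
      (x ∈ S ∧ (L x).card = 3 ∧ nb G U x = 3 ∧ ∀ y ∈ U, G.Adj x y → y ∈ F3 G L S U)) := by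
  classical
  have hl := h.list hx
  have h0 := h.zero_le
  have h3 := h.leg.1 x hx
  have hd := h.list_le hx
  have hF : F3 G L S U ⊆ U := fun x hx => (mem_F3.1 hx).1
  by_cases hxS : x ∈ S
  · rw [ib_pos hxS] at hl
    push_cast at hl
    have h4 : (3 : ℤ) ≤ ((L x).card : ℤ) := by linarith
    have h5 : 3 ≤ (L x).card := by exact_mod_cast h4
    have h6 : (L x).card = 3 := le_antisymm h3 h5
    have h7 : x ∉ F3 G L S U := fun h8 => (mem_F3.1 h8).2.1 hxS
    have h8 : nb G (F3 G L S U) x ≤ nb G U x := nb_mono G hF x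
    have hv : ch G L S U x = 6 - 3 * (nb G U x : ℤ) + (nb G (F3 G L S U) x : ℤ) := by
      unfold ch
      rw [ib_pos hxS, ib_neg h7, h6]
      push_cast
      ring
    have h8' : (nb G (F3 G L S U) x : ℤ) ≤ (nb G U x : ℤ) := by exact_mod_cast h8
    have h9 : (3 : ℤ) ≤ (nb G U x : ℤ) := by exact_mod_cast (h5.trans hd)
    refine ⟨by rw [hv]; linarith, ?_⟩
    intro h10
    rw [hv] at h10
    have h11 : (nb G U x : ℤ) = 3 := by linarith
    have h12 : nb G U x = 3 := by exact_mod_cast h11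
    have h13 : (nb G (F3 G L S U) x : ℤ) = (nb G U x : ℤ) := by linarith
    have h14 : nb G (F3 G L S U) x = nb G U x := by exact_mod_cast h13
    refine Or.inr (Or.inr (Or.inr ⟨hxS, h6, h12, ?_⟩))
    intro y hy hxy
    rw [nb_eq, nb_eq] at h14
    have h15 : (F3 G L S U).filter (fun y => G.Adj x y) = U.filter (fun y => G.Adj x y) :=
      Finset.eq_of_subset_of_card_le (Finset.filter_subset_filter _ hF) (le_of_eq h14.symm)
    have h16 : y ∈ U.filter (fun y => G.Adj x y) := Finset.mem_filter.2 ⟨hy, hxy⟩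
    rw [← h15] at h16
    exact (Finset.mem_filter.1 h16).1
  · rw [ib_neg hxS] at hl
    push_cast at hl
    have h4 : (2 : ℤ) ≤ ((L x).card : ℤ) := by linarith
    have h5 : 2 ≤ (L x).card := by exact_mod_cast h4
    have h6 : nb G (F3 G L S U) x = 0 := by
      rw [nb_eq, Finset.card_eq_zero, Finset.filter_eq_empty_iff]
      intro y hy hxy
      obtain ⟨h7, h8, h9, h10⟩ := mem_F3.1 hy
      exact hxS (h.low h7 h8 (by rw [h9, h10]) hx hxy.symm)
    by_cases hxF : x ∈ F3 G L S U
    · obtain ⟨-, -, h9, h10⟩ := mem_F3.1 hxF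
      have hv : ch G L S U x = 0 := by
        unfold ch
        rw [ib_neg hxS, ib_pos hxF, h9, h10, h6]
        norm_num
      exact ⟨le_of_eq hv, fun _ => Or.inl hxF⟩
    · have hv : ch G L S U x = 6 * (((L x).card : ℤ) - 1) - 3 * (nb G U x : ℤ) := by
        unfold ch
        rw [ib_neg hxS, ib_neg hxF, h6]
        push_cast
        ring
      rcases Nat.lt_or_ge (L x).card 3 with h7 | h7
      · have h8 : (L x).card = 2 := by omega
        rw [h8] at hv hd
        push_cast at hv
        have hd' : (2 : ℤ) ≤ (nb G U x : ℤ) := by exact_mod_cast hd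
        refine ⟨by rw [hv]; linarith, ?_⟩
        intro h10
        rw [hv] at h10
        have h11 : (nb G U x : ℤ) = 2 := by linarith
        have h12 : nb G U x = 2 := by exact_mod_cast h11
        exact Or.inr (Or.inr (Or.inl ⟨hxS, h8, h12⟩))
      · have h8 : (L x).card = 3 := le_antisymm h3 h7
        have h9 : nb G U x ≠ 3 := fun h10 => hxF (mem_F3.2 ⟨hx, hxS, h8, h10⟩)
        rw [h8] at hv hd
        push_cast at hv
        have hd4 : 4 ≤ nb G U x := by omega
        have hd' : (4 : ℤ) ≤ (nb G U x : ℤ) := by exact_mod_cast hd4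
        refine ⟨by rw [hv]; linarith, ?_⟩
        intro h10
        rw [hv] at h10
        have h11 : (nb G U x : ℤ) = 4 := by linarith
        have h12 : nb G U x = 4 := by exact_mod_cast h11
        exact Or.inr (Or.inl ⟨hxS, h8, h12⟩)

theorem Crit3.ch_eq (h : Crit3 G L S U) : hq G L S U = 0 ∧ ∀ x ∈ U, ch G L S U x = 0 := by
  have h1 : ∑ x ∈ U, ch G L S U x = 6 * hq G L S U := sum_ch
  have h2 := h.zero_le
  have h3 : ∑ x ∈ U, ch G L S U x ≤ 0 := Finset.sum_nonpos fun x hx => (h.ch_le hx).1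
  have h4 : hq G L S U = 0 := by linarith
  refine ⟨h4, ?_⟩
  have h5 : ∑ x ∈ U, ch G L S U x = 0 := by linarith
  exact (Finset.sum_eq_zero_iff_of_nonpos fun x hx => (h.ch_le hx).1).1 h5

/-- The three kinds of vertices of a critical triple. -/
theorem Crit3.kinds (h : Crit3 G L S U) {x : V} (hx : x ∈ U) :
    (x ∉ S ∧ (L x).card = 3 ∧ nb G U x = 3 ∧ ∀ y ∈ U, G.Adj x y → y ∈ S) ∨
    (x ∉ S ∧ (L x).card = 3 ∧ nb G U x = 4) ∨
    (x ∈ S ∧ (L x).card = 3 ∧ nb G U x = 3 ∧
      ∀ y ∈ U, G.Adj x y → y ∉ S ∧ (L y).card = 3 ∧ nb G U y = 3) := by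
  classical
  have hz := h.ch_eq.2
  rcases (h.ch_le hx).2 (hz x hx) with h1 | h1 | h1 | h1
  · obtain ⟨-, h2, h3, h4⟩ := mem_F3.1 h1
    exact Or.inl ⟨h2, h3, h4, fun y hy hxy => h.low hx h2 (by rw [h3, h4]) hy hxy⟩
  · exact Or.inr (Or.inl h1)
  · exfalso
    obtain ⟨h2, h3, h4⟩ := h1
    have h5 : 0 < (U.filter (fun y => G.Adj x y)).card := by
      rw [nb_eq] at h4
      omega
    obtain ⟨y, hy⟩ := Finset.card_pos.1 h5
    obtain ⟨hyU, hxy⟩ := Finset.mem_filter.1 hy
    have hyS := h.low hx h2 (by rw [h3, h4]) hyU hxy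
    rcases (h.ch_le hyU).2 (hz y hyU) with h6 | h6 | h6 | h6
    · exact (mem_F3.1 h6).2.1 hyS
    · exact h6.1 hyS
    · exact h6.1 hyS
    · have h7 := h6.2.2.2 x hx hxy.symm
      have h8 := (mem_F3.1 h7).2.2.1
      omega
  · refine Or.inr (Or.inr ⟨h1.1, h1.2.1, h1.2.2.1, ?_⟩)
    intro y hy hxy
    exact (mem_F3.1 (h1.2.2.2 y hy hxy)).2

/-- Colouring a marked vertex first: its colours are in the lists of its neighbours. -/
theorem Crit3.sublist (h : Crit3 G L S U) {v w : V} (hv : v ∈ U) (hvS : v ∈ S) (hw : w ∈ U)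
    (hvw : G.Adj v w) : L v ⊆ L w := by
  classical
  intro i hi
  by_contra hiw
  have hc : GoodL G L S {v} (fun _ => i) := by
    refine ⟨⟨?_, ?_⟩, ?_⟩
    · intro w _ y hy z hz _ _ _ _
      rw [Finset.mem_singleton.1 hy, Finset.mem_singleton.1 hz]
    · intro w hw _ y hy h1 _
      rw [Finset.mem_singleton.1 hw, Finset.mem_singleton.1 hy] at h1
      exact h1.ne rfl
    · intro w hw
      rw [Finset.mem_singleton.1 hw]
      exact hi
  obtain ⟨X, hX, hne, hlt⟩ := h.first (Finset.singleton_subset_iff.2 hv)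
    (Finset.singleton_nonempty v) hc
  have hXU : X ⊆ U := hX.trans Finset.sdiff_subset
  have hvX : v ∉ X := fun h1 => (Finset.mem_sdiff.1 (hX h1)).2 (Finset.mem_singleton_self v)
  have h1 : hq G L S (insert v X)
      = hq G L S X + (((L v).card : ℤ) - 1) - (nb G X v : ℤ) - (ib (v ∈ S) : ℤ) :=
    hq_insert G L S hvX
  have h3 : (L v).card = 3 := by
    rcases h.kinds hv with h4 | h4 | h4
    · exact absurd hvS h4.1
    · exact absurd hvS h4.1
    · exact h4.2.1
  rw [h3, ib_pos hvS] at h1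
  push_cast at h1
  -- the number of deleted colours
  have hused : ∀ x ∈ X, usedL G L {v} (fun _ => i) x ≤ ib (G.Adj v x ∧ x ≠ w) := by
    intro x hx
    unfold usedL
    by_cases hxv : G.Adj v x ∧ x ≠ w
    · rw [ib_pos hxv, Finset.card_le_one]
      intro a ha b hb
      rw [Finset.mem_filter] at ha hb
      obtain ⟨-, y, -, -, h5⟩ := ha
      obtain ⟨-, y', -, -, h6⟩ := hb
      rw [← h5, ← h6]
    · rw [ib_neg hxv, Nat.le_zero, Finset.card_eq_zero, Finset.filter_eq_empty_iff]
      intro a ha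
      rintro ⟨y, hy, h5, h6⟩
      rw [Finset.mem_singleton.1 hy] at h5
      have h6' : i = a := h6
      rw [← h6'] at ha
      apply hxv
      refine ⟨h5.symm, ?_⟩
      rintro rfl
      exact hiw ha
  have h5 : ∑ x ∈ X, usedL G L {v} (fun _ => i) x ≤ ∑ x ∈ X, ib (G.Adj v x ∧ x ≠ w) :=
    Finset.sum_le_sum hused
  rw [← card_ib X (fun x => G.Adj v x ∧ x ≠ w)] at h5
  by_cases hwX : w ∈ X
  · -- then the number is smaller than the number of neighbours
    have h6 : (X.filter (fun x => G.Adj v x ∧ x ≠ w)).card + 1 ≤ nb G X v := by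
      rw [nb_eq]
      have h7 : X.filter (fun x => G.Adj v x ∧ x ≠ w) ⊂ X.filter (fun x => G.Adj v x) := by
        rw [Finset.ssubset_iff_of_subset]
        · exact ⟨w, Finset.mem_filter.2 ⟨hwX, hvw⟩,
            fun h8 => (Finset.mem_filter.1 h8).2.2 rfl⟩
        · intro x hx
          obtain ⟨h8, h9⟩ := Finset.mem_filter.1 hx
          exact Finset.mem_filter.2 ⟨h8, h9.1⟩
      exact Finset.card_lt_card h7
    have h7 : 0 ≤ hq G L S (insert v X) :=
      h.leg.2 _ (Finset.insert_subset hv hXU) (Finset.insert_nonempty _ _)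
    have h5' : ((∑ x ∈ X, usedL G L {v} (fun _ => i) x : ℕ) : ℤ) + 1 ≤ (nb G X v : ℤ) := by
      exact_mod_cast (Nat.add_le_add_right h5 1).trans h6
    linarith
  · -- then the set is proper
    have h6 : (X.filter (fun x => G.Adj v x ∧ x ≠ w)).card ≤ nb G X v := by
      rw [nb_eq]
      refine Finset.card_le_card fun x hx => ?_
      obtain ⟨h8, h9⟩ := Finset.mem_filter.1 hx
      exact Finset.mem_filter.2 ⟨h8, h9.1⟩
    have hpr : insert v X ≠ U := by
      rintro h7
      rw [← h7] at hw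
      rcases Finset.mem_insert.1 hw with h8 | h8
      · exact hvw.ne h8.symm
      · exact hwX h8
    have h7 := h.gap (Finset.insert_subset hv hXU) hpr (Finset.insert_nonempty _ _)
    have h8 := h.zero_le
    have h5' : ((∑ x ∈ X, usedL G L {v} (fun _ => i) x : ℕ) : ℤ) ≤ (nb G X v : ℤ) := by
      exact_mod_cast h5.trans h6
    linarith

/-- There is no critical triple. -/
theorem Crit3.false (h : Crit3 G L S U) : False := by
  classical
  set A : Finset V := U.filter (fun v => v ∉ S ∧ (L v).card = 3 ∧ nb G U v = 4) with hA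
  have hAU : A ⊆ U := Finset.filter_subset _ _
  have hcl : ∀ x ∈ A, ∀ y ∈ U, G.Adj x y → y ∈ A := by
    intro x hx y hy hxy
    obtain ⟨hxU, hxS, hx3, hx4⟩ := Finset.mem_filter.1 hx
    rcases h.kinds hy with h1 | h1 | h1
    · exact absurd (h1.2.2.2 x hxU hxy.symm) hxS
    · exact Finset.mem_filter.2 ⟨hy, h1⟩
    · have h2 := (h1.2.2.2 x hxU hxy.symm).2.2
      omega
  have hh : hq G L S A = 0 := by
    have h1 := two_hq_closed (L := L) (S := S) hAU hcl
    have h2 : ∑ x ∈ A, (2 * (((L x).card : ℤ) - 1 - (ib (x ∈ S) : ℤ)) - (nb G U x : ℤ)) = 0 := by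
      refine Finset.sum_eq_zero fun x hx => ?_
      obtain ⟨hxU, hxS, hx3, hx4⟩ := Finset.mem_filter.1 hx
      rw [hx3, hx4, ib_neg hxS]
      norm_num
    linarith
  by_cases hAe : A.Nonempty
  · have hAU' : A = U := by
      by_contra hne
      have h1 := h.gap hAU hne hAe
      have h2 := h.zero_le
      linarith
    apply h.ncol
    refine exists_local G L S U ?_ ?_
    · intro v hv
      rw [← hAU'] at hv
      exact (Finset.mem_filter.1 hv).2.1
    · intro v hv
      rw [← hAU'] at hv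
      have h1 := (Finset.mem_filter.1 hv).2
      omega
  · rw [Finset.not_nonempty_iff_eq_empty] at hAe
    -- cubic bipartite: unmarked vertices and marked vertices, equal lists
    have hk : ∀ x ∈ U, (x ∉ S ∧ ∀ y ∈ U, G.Adj x y → y ∈ S) ∨
        (x ∈ S ∧ ∀ y ∈ U, G.Adj x y → y ∉ S) := by
      intro x hx
      rcases h.kinds hx with h1 | h1 | h1
      · exact Or.inl ⟨h1.1, h1.2.2.2⟩
      · exfalso
        have h2 : x ∈ A := Finset.mem_filter.2 ⟨hx, h1⟩
        rw [hAe] at h2
        exact absurd h2 (Finset.notMem_empty _)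
      · exact Or.inr ⟨h1.1, fun y hy hxy => (h1.2.2.2 y hy hxy).1⟩
    have hl3 : ∀ x ∈ U, (L x).card = 3 := by
      intro x hx
      rcases h.kinds hx with h1 | h1 | h1
      · exact h1.2.1
      · exact h1.2.1
      · exact h1.2.1
    have hlist : ∀ x ∈ U, ∀ y ∈ U, G.Adj x y → L x = L y := by
      intro x hx y hy hxy
      rcases hk x hx with h1 | h1
      · have h2 := h1.2 y hy hxy
        have h3 := h.sublist hy h2 hx hxy.symm
        exact (Finset.eq_of_subset_of_card_le h3 (by rw [hl3 x hx, hl3 y hy])).symm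
      · have h3 := h.sublist hx h1.1 hy hxy
        exact Finset.eq_of_subset_of_card_le h3 (by rw [hl3 x hx, hl3 y hy])
    have h2c : ∀ T : Finset (Fin 4), ∃ p : Fin 4 × Fin 4, T.card = 3 → p.1 ∈ T ∧ p.2 ∈ T ∧
        p.1 ≠ p.2 := by
      intro T
      by_cases hT : T.card = 3
      · obtain ⟨a, b, ha, hb, hab⟩ := Finset.one_lt_card_iff.1 (show 1 < T.card by omega)
        exact ⟨(a, b), fun _ => ⟨ha, hb, hab⟩⟩
      · exact ⟨(0, 0), fun h4 => absurd h4 hT⟩
    choose p hp using h2c
    apply h.ncol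
    set c : V → Fin 4 := fun v => if v ∈ S then (p (L v)).1 else (p (L v)).2 with hc
    have hcne : ∀ x ∈ U, ∀ y ∈ U, G.Adj x y → c y ≠ c x := by
      intro x hx y hy hxy
      have h4 := hlist x hx y hy hxy
      have h5 := hp (L x) (hl3 x hx)
      rcases hk x hx with h1 | h1
      · have h6 := h1.2 y hy hxy
        rw [hc]
        show (if y ∈ S then (p (L y)).1 else (p (L y)).2)
          ≠ (if x ∈ S then (p (L x)).1 else (p (L x)).2)
        rw [if_pos h6, if_neg h1.1, ← h4]
        exact h5.2.2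
      · have h6 := h1.2 y hy hxy
        rw [hc]
        show (if y ∈ S then (p (L y)).1 else (p (L y)).2)
          ≠ (if x ∈ S then (p (L x)).1 else (p (L x)).2)
        rw [if_neg h6, if_pos h1.1, ← h4]
        exact h5.2.2.symm
    refine ⟨c, ⟨?_, ?_⟩, ?_⟩
    · intro v hv y hy z hz h1 h2 h3 h4
      exact absurd h3 (hcne v hv y hy h1)
    · intro v hv _ y hy h1
      exact hcne v hv y hy h1
    · intro v hv
      have h5 := hp (L v) (hl3 v hv)
      rw [hc]
      show (if v ∈ S then (p (L v)).1 else (p (L v)).2) ∈ L v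
      by_cases hvS : v ∈ S
      · rw [if_pos hvS]
        exact h5.1
      · rw [if_neg hvS]
        exact h5.2.1

end crit

/-- **Three colours, defect one, with lists and marks.**  If all lists have at most three colours
and `SUM_X (|L v| - 1) - e(X) - |S n X| ≥ 0` for all nonempty `X`, then there is a colouring from
the lists in which every vertex has at most one mate and the vertices of `S` have none. -/
theorem colL_of_leg3 (G : SimpleGraph V) (L : V → Finset (Fin 4)) (S U : Finset V)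
    (h : Leg3 G L S U) : ColL G L S U := by
  classical
  have key : ∀ n : ℕ, ∀ (L : V → Finset (Fin 4)) (S U : Finset V), U.card = n →
      Leg3 G L S U → ColL G L S U := by
    intro n
    induction n using Nat.strong_induction_on with
    | _ n ih =>
      intro L S U hn hleg
      by_contra hcon
      have hcr : Crit3 G L S U := ⟨hleg, hcon, fun L' S' U' hlt hleg' =>
        ih U'.card (by omega) L' S' U' rfl hleg'⟩
      exact hcr.false
  exact key U.card L S U rfl h

end Pool.Agent.W986.C2
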