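import Pool.Agent.W986.MinFan
import Pool.Agent.W986.ExistsCoc
import Pool.Agent.W986.HubMarks

/-!
# Triangulations of the projective plane in which heavy vertices are far apart
-/

set_option autoImplicit false

open Finset

namespace Pool.Agent.W986

open Pool.Agent.DC76

section

variable {V : Type} [Fintype V] [DecidableEq V] {G : SimpleGraph V} {F : Type} [Fintype F]

/-- The degree of a vertex of `S` of a pair of minimal cost is at least `6` plus the number of its
neighbours in `S`. -/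
theorem MinPair.degree {M : FacialWalks G F} {X : V → V → ZMod 2} {S : Finset V}
    (h : MinPair M X S) {s : V} (hs : s ∈ S) :
    6 + {u | u ∈ S ∧ G.Adj s u}.ncard ≤ {u | G.Adj s u}.ncard := by
  classical
  have h1 := h.three_one hs
  have h0 := h.three_zero hs
  have e1 : {u | u ∈ S ∧ G.Adj s u}.ncard = (univ.filter fun u => u ∈ S ∧ G.Adj s u).card := by
    rw [← Set.ncard_coe_finset]
    congr 1
    ext u
    simp
  have e2 : {u | G.Adj s u}.ncard = (univ.filter fun u => G.Adj s u).card := by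
    rw [← Set.ncard_coe_finset]
    congr 1
    ext u
    simp
  rw [e1, e2]
  have d1 : Disjoint (fan G X S s) (univ.filter fun y => G.Adj s y ∧ y ∉ S ∧ X s y = 0) := by
    rw [Finset.disjoint_left]
    intro u hu hu'
    exact (mem_fan.1 hu).2.2 (mem_filter.1 hu').2.2.2
  have d2 : Disjoint (fan G X S s ∪ univ.filter fun y => G.Adj s y ∧ y ∉ S ∧ X s y = 0)
      (univ.filter fun u => u ∈ S ∧ G.Adj s u) := by
    rw [Finset.disjoint_left]
    intro u hu hu'
    rw [mem_union] at hu
    rcases hu with hu | hu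
    · exact (mem_fan.1 hu).2.1 (mem_filter.1 hu').2.1
    · exact (mem_filter.1 hu).2.2.1 (mem_filter.1 hu').2.1
  have h3 := card_union_of_disjoint d1
  have h4 := card_union_of_disjoint d2
  have h5 : (fan G X S s ∪ (univ.filter fun y => G.Adj s y ∧ y ∉ S ∧ X s y = 0)) ∪
      (univ.filter fun u => u ∈ S ∧ G.Adj s u) ⊆ univ.filter fun u => G.Adj s u := by
    intro u hu
    rw [mem_filter]
    refine ⟨mem_univ _, ?_⟩
    rw [mem_union, mem_union] at hu
    rcases hu with (hu | hu) | hu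
    · exact (mem_fan.1 hu).1
    · exact (mem_filter.1 hu).2.1
    · exact (mem_filter.1 hu).2.2
  have h6 := card_le_card h5
  omega

/-- **Theorem.** If no vertex of degree at least `8` has two neighbours of degree at least `7`, then
a triangulation of the projective plane is `(4, 1)`-colourable. -/
theorem tri_colour (M : FacialWalks G F) (hL : Link M) (hG : G.Connected)
    (hχ : (Fintype.card V : ℤ) - G.edgeSet.ncard + Fintype.card F = 1)
    (hlen : ∀ f, M.len f = 3) (hd : ∀ x a b, ∃ c, G.Adj x c ∧ c ≠ a ∧ c ≠ b)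
    (h8 : ∀ x y z, G.Adj x y → G.Adj x z → y ≠ z → 8 ≤ {u | G.Adj x u}.ncard →
      7 ≤ {u | G.Adj y u}.ncard → {u | G.Adj z u}.ncard ≤ 6) :
    ∃ c : V → Fin 4, Defective G 1 c := by
  classical
  obtain ⟨v0⟩ := hG.nonempty
  have hF : Nonempty F := by
    obtain ⟨c, hc, -, -⟩ := hd v0 v0 v0
    by_contra hF
    rw [not_nonempty_iff] at hF
    have h1 := M.twice v0 c hc
    simp at h1
  obtain ⟨X0, h0⟩ := exists_coc M hF ⟨v0⟩ hχ
  obtain ⟨X, S, h⟩ := exists_minPair M h0
  have hX : IsSeam M (↑S : Set V) X :=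
    ⟨h.coc.symm, h.coc.even, h.coc.odd, fun x hx y hy y' hy' hne h1 h2 h3 h4 =>
      h.fans hL hG hχ hlen (fun h5 => hx h5) (hd x) (fun h5 => hy h5) (fun h5 => hy' h5)
        hne h1 h2 h3 h4⟩
  refine seam_final hubMarks M hL hG hχ ?_ hX
  intro v hv
  by_contra hcon
  push Not at hcon
  obtain ⟨y, hy, z, hz, hyz⟩ := (Set.one_lt_ncard (Set.toFinite _)).1 hcon
  have hv' : v ∈ S := hv
  have hy1 : y ∈ S := hy.1
  have hz1 : z ∈ S := hz.1
  have d1 := h.degree hv'
  have d2 := h.degree hy1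
  have d3 := h.degree hz1
  have e1 : {u | u ∈ (↑S : Set V) ∧ G.Adj v u}.ncard = {u | u ∈ S ∧ G.Adj v u}.ncard := rfl
  have e2 : 1 ≤ {u | u ∈ S ∧ G.Adj y u}.ncard := by
    rw [Nat.one_le_iff_ne_zero, ne_eq, Set.ncard_eq_zero (Set.toFinite _)]
    intro h4
    have h5 : v ∈ ({u | u ∈ S ∧ G.Adj y u} : Set V) := ⟨hv', hy.2.symm⟩
    rw [h4] at h5
    exact h5
  have e3 : 1 ≤ {u | u ∈ S ∧ G.Adj z u}.ncard := by
    rw [Nat.one_le_iff_ne_zero, ne_eq, Set.ncard_eq_zero (Set.toFinite _)]
    intro h4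
    have h5 : v ∈ ({u | u ∈ S ∧ G.Adj z u} : Set V) := ⟨hv', hz.2.symm⟩
    rw [h4] at h5
    exact h5
  have h9 := h8 v y z hy.2 hz.2 hyz (by omega) (by omega)
  omega

end

end Pool.Agent.W986
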