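import Pool.Agent.W986.Cover
import Pool.Agent.W986.Precise

/-!
# Triangular faces
-/

set_option autoImplicit false

open Finset

namespace Pool.Agent.W986

open Pool.Agent.DC76

/-- The walk `a, b, c, a, b, c, ...` -/
def tw {V : Type} (a b c : V) (n : ℕ) : V :=
  if n % 3 = 0 then a else if n % 3 = 1 then b else c

section

variable {V : Type} {a b c : V}

@[simp] theorem tw_zero : tw a b c 0 = a := rfl
@[simp] theorem tw_one : tw a b c 1 = b := rfl
@[simp] theorem tw_two : tw a b c 2 = c := rfl
@[simp] theorem tw_three : tw a b c 3 = a := rfl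

theorem map_tw {W : Type} (f : V → W) (n : ℕ) : f (tw a b c n) = tw (f a) (f b) (f c) n := by
  unfold tw
  split_ifs <;> rfl

theorem tw_eq {w : ℕ → V} (hw : w 3 = w 0) {t : ℕ} (ht : t ≤ 3) :
    tw (w 0) (w 1) (w 2) t = w t := by
  have h : t = 0 ∨ t = 1 ∨ t = 2 ∨ t = 3 := by omega
  rcases h with rfl | rfl | rfl | rfl
  · rfl
  · rfl
  · rfl
  · rw [hw]
    rfl

/-- is `uv` the edge `ab`? -/
def ise {V : Type} (a b u v : V) : Prop := (a = u ∧ b = v) ∨ (a = v ∧ b = u)

instance [DecidableEq V] (a b u v : V) : Decidable (ise a b u v) := by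
  unfold ise
  infer_instance

theorem trav_three [DecidableEq V] (w : ℕ → V) (u v : V) : trav 3 w u v =
    (if ise (w 0) (w 1) u v then 1 else 0) + (if ise (w 1) (w 2) u v then 1 else 0) +
      (if ise (w 2) (w 3) u v then 1 else 0) := by
  unfold trav
  rw [card_filter, sum_range_succ, sum_range_succ, sum_range_succ, range_zero, sum_empty, zero_add]
  rfl

theorem trav_tw [DecidableEq V] (a b c u v : V) : trav 3 (tw a b c) u v =
    (if ise a b u v then 1 else 0) + (if ise b c u v then 1 else 0) +
      (if ise c a u v then 1 else 0) := by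
  rw [trav_three]
  rfl

theorem trav_congr [DecidableEq V] {n : ℕ} {w w' : ℕ → V} (h : ∀ t ≤ n, w t = w' t) (u v : V) :
    trav n w u v = trav n w' u v := by
  unfold trav
  congr 1
  refine filter_congr fun t ht => ?_
  rw [mem_range] at ht
  rw [h t (by omega), h (t + 1) (by omega)]

theorem trav_inj {W : Type} [DecidableEq V] [DecidableEq W] {n : ℕ} {w : ℕ → V} (f : V → W)
    (hf : Function.Injective f) (u v : V) :
    trav n (fun t => f (w t)) (f u) (f v) = trav n w u v := by
  unfold trav
  congr 1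
  refine filter_congr fun t _ => ?_
  rw [hf.eq_iff, hf.eq_iff, hf.eq_iff, hf.eq_iff]

end

section

variable {V : Type} [Fintype V] [DecidableEq V] {G : SimpleGraph V} {F : Type} [Fintype F]

theorem sum_trav_all (n : ℕ) (w : ℕ → V) (hw : ∀ t < n, w t ≠ w (t + 1)) :
    ∑ u, ∑ v, trav n w u v = 2 * n := by
  have h1 : ∀ u v, trav n w u v = ∑ t ∈ range n,
      ((if w t = u ∧ w (t + 1) = v then 1 else 0) + (if w t = v ∧ w (t + 1) = u then 1 else 0)) := by
    intro u v
    unfold trav
    rw [card_filter]
    refine sum_congr rfl fun t ht => ?_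
    have h2 := hw t (mem_range.1 ht)
    by_cases h3 : w t = u ∧ w (t + 1) = v
    · by_cases h4 : w t = v ∧ w (t + 1) = u
      · exact absurd (h4.1.trans h3.2.symm) h2
      · simp [h3]
        intro h5
        exact absurd (h3.1.trans (h5.trans h3.2.symm)) h2
    · by_cases h4 : w t = v ∧ w (t + 1) = u
      · simp [h4]
        intro h5 h6
        exact absurd (h4.1.trans (h5.trans h4.2.symm)) h2
      · simp [h3, h4]
  simp_rw [h1]
  have h2 : ∀ t ∈ range n, ∑ u, ∑ v,
      ((if w t = u ∧ w (t + 1) = v then 1 else 0) + (if w t = v ∧ w (t + 1) = u then 1 else 0)) =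
        2 := by
    intro t _
    simp_rw [sum_add_distrib]
    have h3 : ∑ u, ∑ v, (if w t = u ∧ w (t + 1) = v then 1 else 0) = 1 := by
      rw [sum_eq_single (w t), sum_eq_single (w (t + 1))]
      · simp
      · intro v _ hv
        rw [if_neg]
        exact fun h => hv h.2.symm
      · intro h
        exact absurd (mem_univ _) h
      · intro u _ hu
        refine sum_eq_zero fun v _ => ?_
        rw [if_neg]
        exact fun h => hu h.1.symm
      · intro h
        exact absurd (mem_univ _) h
    have h4 : ∑ u, ∑ v, (if w t = v ∧ w (t + 1) = u then 1 else 0) = 1 := by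
      rw [sum_comm]
      exact h3
    rw [h3, h4]
  calc ∑ u, ∑ v, ∑ t ∈ range n, ((if w t = u ∧ w (t + 1) = v then 1 else 0) +
        (if w t = v ∧ w (t + 1) = u then 1 else 0))
      = ∑ t ∈ range n, ∑ u, ∑ v, ((if w t = u ∧ w (t + 1) = v then 1 else 0) +
        (if w t = v ∧ w (t + 1) = u then 1 else 0)) := by
        simp_rw [sum_comm (t := range n)]
    _ = ∑ t ∈ range n, 2 := sum_congr rfl h2
    _ = 2 * n := by
      rw [sum_const, card_range, smul_eq_mul, mul_comm]

/-- The lengths of the facial walks add up to twice the number of edges. -/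
theorem sum_len (len : F → ℕ) (walk : F → ℕ → V)
    (adj : ∀ f t, t < len f → G.Adj (walk f t) (walk f (t + 1)))
    (twice : ∀ u v, G.Adj u v → ∑ f, trav (len f) (walk f) u v = 2) :
    ∑ f, len f = 2 * G.edgeSet.ncard := by
  classical
  have h1 : ∑ u, ∑ v, ∑ f, trav (len f) (walk f) u v = 2 * ∑ f, len f := by
    calc ∑ u, ∑ v, ∑ f, trav (len f) (walk f) u v
        = ∑ f, ∑ u, ∑ v, trav (len f) (walk f) u v := by
          simp_rw [sum_comm (t := (univ : Finset F))]
      _ = ∑ f, 2 * len f := sum_congr rfl fun f _ => sum_trav_all _ _ fun t ht => (adj f t ht).ne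
      _ = 2 * ∑ f, len f := by rw [mul_sum]
  have h2 : ∀ u v, ∑ f, trav (len f) (walk f) u v = if G.Adj u v then 2 else 0 := by
    intro u v
    by_cases h : G.Adj u v
    · rw [if_pos h, twice u v h]
    · rw [if_neg h]
      refine sum_eq_zero fun f _ => ?_
      unfold trav
      rw [card_eq_zero, filter_eq_empty_iff]
      rintro t ht (⟨h3, h4⟩ | ⟨h3, h4⟩)
      · exact h (h3 ▸ h4 ▸ adj f t (mem_range.1 ht))
      · exact h (h3 ▸ h4 ▸ (adj f t (mem_range.1 ht))).symm
  simp_rw [h2] at h1
  have h3 : ∑ u, ∑ v, (if G.Adj u v then 2 else 0) = 2 * (2 * G.edgeSet.ncard) := by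
    have h4 : ∀ u, ∑ v, (if G.Adj u v then 2 else 0) = 2 * G.degree u := by
      intro u
      rw [← sum_filter, sum_const, smul_eq_mul, mul_comm, ← SimpleGraph.card_neighborFinset_eq_degree,
        SimpleGraph.neighborFinset_eq_filter]
    simp_rw [h4]
    rw [← mul_sum, SimpleGraph.sum_degrees_eq_twice_card_edges, ← Set.ncard_coe_finset,
      SimpleGraph.coe_edgeFinset]
  rw [h3] at h1
  omega

end

end Pool.Agent.W986
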