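import Pool.Agent.W986.Closure
import Pool.Agent.W986.RotnB

/-!
# Triangulated spheres

`TriSphere H T`: the facts about a triangulation of the sphere with graph `H` and triangles `T`
from which everything about half-spaces is deduced. `Strip H T N k a b`: the edges which leave the
set `N` in their cyclic order.
-/

set_option autoImplicit false

open Finset

namespace Pool.Agent.W986

open Pool.Agent.DC76

section defs

variable {W : Type}

/-- A triangulation of the sphere. -/
structure TriSphere [Fintype W] (H : SimpleGraph W) (T : W → W → W → Prop) : Prop where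
  /-- the order of the vertices of a triangle does not matter -/
  rot : ∀ x y z, T x y z → T y z x
  swap : ∀ x y z, T x y z → T y x z
  adj : ∀ x y z, T x y z → H.Adj x y
  /-- the triangles at a vertex form one cycle -/
  rotation : ∀ x, ∃ d ν, Rotn H T x d ν
  /-- every cocycle is a coboundary -/
  cob : ∀ X : W → W → ZMod 2, (∀ x y, X x y = X y x) →
    (∀ x y z, T x y z → X x y + X y z + X z x = 0) →
    ∃ h : W → ZMod 2, ∀ x y, H.Adj x y → h x + h y = X x y
  /-- every cycle is a boundary -/
  bnd : ∀ z ∈ Z H Set.univ, ∃ s : W → W → W → ZMod 2,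
    (∀ x y w, s x y w = s y w x) ∧ (∀ x y w, s x y w = s y x w) ∧
    ∀ x y a b, a ≠ b → T x y a → T x y b → s x y a + s x y b = z x y
  conn : Conn H Set.univ
  /-- Euler's formula -/
  euler : ∑ x, {y | H.Adj x y}.ncard + 12 = 6 * Fintype.card W

/-- The edges which leave `N`, in cyclic order: the `i`-th edge is `a i, b i` with `a i` in `N`;
`c i` is the third vertex of the triangle between the `i`-th and the `i + 1`-st edge; the two
triangles at an edge are different. -/
structure Strip (H : SimpleGraph W) (T : W → W → W → Prop) (N : Set W) (k : ℕ) (a b c : ℕ → W) :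
    Prop where
  three : 3 ≤ k
  pera : ∀ i, a (i + k) = a i
  perb : ∀ i, b (i + k) = b i
  perc : ∀ i, c (i + k) = c i
  mema : ∀ i, a i ∈ N
  memb : ∀ i, b i ∉ N
  adj : ∀ i, H.Adj (a i) (b i)
  all : ∀ x ∈ N, ∀ y, y ∉ N → H.Adj x y → ∃ i, i < k ∧ a i = x ∧ b i = y
  inj : ∀ i, i < k → ∀ j, j < k → a i = a j → b i = b j → i = j
  tri : ∀ i, T (a i) (b i) (c i)
  step1 : ∀ i, c i ∈ N → a (i + 1) = c i ∧ b (i + 1) = b i
  step2 : ∀ i, c i ∉ N → a (i + 1) = a i ∧ b (i + 1) = c i
  turn1 : ∀ i, c i ∈ N → c (i + 1) ≠ a i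
  turn2 : ∀ i, c i ∉ N → c (i + 1) ≠ b i

end defs

end Pool.Agent.W986
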