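import Pool.Agent.W986.RingSub
import Pool.Agent.W986.SepTri

/-!
# Every graph on the projective plane lies in a triangulation
-/

set_option autoImplicit false

open Finset

namespace Pool.Agent.W986

open Pool.Agent.DC76

/-- The rotation of `Fin n`. -/
noncomputable def rotFin (n : ℕ) : Fin n ≃ Fin n :=
  Equiv.ofBijective (fun t => ⟨(t.1 + 1) % n, Nat.mod_lt _ (by have := t.2; omega)⟩) (by
    refine Finite.injective_iff_bijective.1 ?_
    intro a b h
    have h1 : (a.1 + 1) % n = (b.1 + 1) % n := congrArg Fin.val h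
    apply Fin.ext
    have ha := a.2
    have hb := b.2
    by_cases h2 : a.1 + 1 < n
    · by_cases h3 : b.1 + 1 < n
      · rw [Nat.mod_eq_of_lt h2, Nat.mod_eq_of_lt h3] at h1
        omega
      · have h4 : b.1 + 1 = n := by omega
        rw [Nat.mod_eq_of_lt h2, h4, Nat.mod_self] at h1
        omega
    · have h4 : a.1 + 1 = n := by omega
      by_cases h3 : b.1 + 1 < n
      · rw [Nat.mod_eq_of_lt h3, h4, Nat.mod_self] at h1
        omega
      · omega)

theorem rotFin_val {n : ℕ} (t : Fin n) : (rotFin n t).1 = (t.1 + 1) % n := rfl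

section

variable {V : Type} [Fintype V] [DecidableEq V] {G : SimpleGraph V} {F : Type} [Fintype F]

/-- All faces have length at least `3`, if the Euler characteristic is `1`. -/
theorem three_le_len (M : FacialWalks G F)
    (hχ : (Fintype.card V : ℤ) - G.edgeSet.ncard + Fintype.card F = 1)
    (hE : ∃ x y, G.Adj x y) (f : F) : 3 ≤ M.len f := by
  classical
  have h0 := len_pos M hE f
  by_contra hlt
  have hcl := M.closed f
  have h12 : M.len f = 1 ∨ M.len f = 2 := by omega
  rcases h12 with h | h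
  · have h1 := M.adj f 0 (by omega)
    rw [h] at hcl
    rw [show M.walk f (0 + 1) = M.walk f 0 from hcl] at h1
    exact h1.ne rfl
  · rw [h] at hcl
    have h1 := M.adj f 0 (by omega)
    have ht : ∀ u v, trav (M.len f) (M.walk f) u v = 0 ∨ trav (M.len f) (M.walk f) u v = 2 := by
      intro u v
      rw [h]
      unfold trav
      rw [card_filter, sum_range_succ, sum_range_succ, range_zero, sum_empty, zero_add]
      change (if _ then 1 else 0) + (if (M.walk f 1 = u ∧ M.walk f 2 = v) ∨
        (M.walk f 1 = v ∧ M.walk f 2 = u) then 1 else 0) = 0 ∨ _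
      rw [hcl]
      by_cases h2 : (M.walk f 0 = u ∧ M.walk f (0 + 1) = v) ∨
          (M.walk f 0 = v ∧ M.walk f (0 + 1) = u)
      · right
        rw [if_pos h2, if_pos]
        rcases h2 with h2 | h2
        · exact Or.inr ⟨h2.2, h2.1⟩
        · exact Or.inl ⟨h2.2, h2.1⟩
      · left
        rw [if_neg h2, if_neg]
        rintro (h3 | h3)
        · exact h2 (Or.inr ⟨h3.2, h3.1⟩)
        · exact h2 (Or.inl ⟨h3.2, h3.1⟩)
    have hF : ({f} : Finset F) = univ := by
      by_contra hne
      obtain ⟨u, v, h2⟩ := M.dual {f} (singleton_nonempty f) hne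
      rw [sum_singleton] at h2
      rcases ht u v with h3 | h3 <;> omega
    have hcF : Fintype.card F = 1 := by rw [← card_univ, ← hF, card_singleton]
    have hs := sum_len M.len M.walk M.adj M.twice
    rw [← hF, sum_singleton, h] at hs
    -- one edge and one vertex, impossible
    have hV : 2 ≤ Fintype.card V := by
      have h3 : ({M.walk f 0, M.walk f 1} : Finset V).card = 2 := card_pair h1.ne
      rw [← h3]
      exact card_le_univ _
    push_cast at *
    omega

/-- The facial walks of the triangulation. -/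
theorem exists_ring (hG : G.Connected) (M : FacialWalks G F) (hL : Link M)
    (hlen : ∀ f, 3 ≤ M.len f) :
    ∃ (V' F' : Type) (_ : Fintype V') (_ : DecidableEq V') (_ : Fintype F') (G' : SimpleGraph V')
      (e : V → V'), Function.Injective e ∧ (∀ x y, G.Adj x y → G'.Adj (e x) (e y)) ∧
        G'.Connected ∧ (∃ M' : FacialWalks G' F', Link M' ∧ ∀ f, M'.len f = 3) ∧
        (Fintype.card V' : ℤ) - G'.edgeSet.ncard + Fintype.card F' =
          (Fintype.card V : ℤ) - G.edgeSet.ncard + Fintype.card F := by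
  classical
  let R : Type := Σ f : F, Fin (M.len f)
  let nxt : R ≃ R := Equiv.sigmaCongrRight fun f => rotFin (M.len f)
  let a0 : R → V := fun r => M.walk r.1 r.2.1
  let fc : R → F := fun r => r.1
  have hnv : ∀ (f : F) (t : Fin (M.len f)), nxt ⟨f, t⟩ = ⟨f, rotFin _ t⟩ := fun f t => rfl
  have ha1 : ∀ (f : F) (t : Fin (M.len f)), a0 (nxt ⟨f, t⟩) = M.walk f (t.1 + 1) := by
    intro f t
    rw [hnv]
    change M.walk f (rotFin _ t).1 = _
    rw [rotFin_val]
    exact shift_closed (M.closed f) t.2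
  have hadj : ∀ r, G.Adj (a0 r) (a0 (nxt r)) := by
    rintro ⟨f, t⟩
    rw [ha1]
    exact M.adj f t.1 t.2
  have hn : ∀ r, nxt r ≠ r := by
    intro r h
    have h1 := hadj r
    rw [h] at h1
    exact h1.ne rfl
  have hn2 : ∀ r, nxt (nxt r) ≠ r := by
    rintro ⟨f, t⟩ h
    rw [hnv, hnv] at h
    have h1 : rotFin _ (rotFin _ t) = t := eq_of_heq (Sigma.mk.inj_iff.1 h).2
    have h2 := congrArg Fin.val h1
    rw [rotFin_val, rotFin_val] at h2
    have h3 := hlen f
    have h4 := t.2
    by_cases h5 : t.1 + 1 < M.len f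
    · rw [Nat.mod_eq_of_lt h5] at h2
      by_cases h6 : t.1 + 1 + 1 < M.len f
      · rw [Nat.mod_eq_of_lt h6] at h2
        omega
      · have h7 : t.1 + 1 + 1 = M.len f := by omega
        rw [h7, Nat.mod_self] at h2
        omega
    · have h7 : t.1 + 1 = M.len f := by omega
      rw [h7, Nat.mod_self, Nat.mod_eq_of_lt (by omega)] at h2
      omega
  have hfc : ∀ r, fc (nxt r) = fc r := fun r => rfl
  have hsum : ∀ g : F → ℕ → ℕ, ∑ r : R, g r.1 r.2.1 = ∑ f, ∑ t ∈ range (M.len f), g f t := by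
    intro g
    rw [Fintype.sum_sigma]
    refine sum_congr rfl fun f _ => ?_
    exact Fin.sum_univ_eq_sum_range (fun t => g f t) (M.len f)
  have htwice : ∀ u v, G.Adj u v → ∑ r, (if ise (a0 r) (a0 (nxt r)) u v then 1 else 0) = 2 := by
    intro u v huv
    rw [← M.twice u v huv]
    have h1 : ∀ r : R, (if ise (a0 r) (a0 (nxt r)) u v then 1 else 0) =
        (if ise (M.walk r.1 r.2.1) (M.walk r.1 (r.2.1 + 1)) u v then 1 else 0) := by
      rintro ⟨f, t⟩
      rw [ha1]
    rw [sum_congr rfl fun r _ => h1 r,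
      hsum fun f t => if ise (M.walk f t) (M.walk f (t + 1)) u v then 1 else 0]
    refine sum_congr rfl fun f _ => ?_
    unfold trav
    rw [card_filter]
    rfl
  have hL' : ∀ (v : V) (N : Set V), (∃ a ∈ N, G.Adj v a) → (∃ a, a ∉ N ∧ G.Adj v a) →
      ∃ r, a0 (nxt r) = v ∧ ¬ (a0 r ∈ N ↔ a0 (nxt (nxt r)) ∈ N) := by
    intro v N h1 h2
    obtain ⟨f, t, ht, hv, hN⟩ := hL v N h1 h2
    refine ⟨⟨f, ⟨t, ht⟩⟩, ?_, ?_⟩
    · rw [ha1]
      exact hv
    · have h3 := ha1 f (rotFin _ ⟨t, ht⟩)
      rw [rotFin_val] at h3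
      change ¬ (M.walk f t ∈ N ↔ a0 (nxt ⟨f, rotFin _ ⟨t, ht⟩⟩) ∈ N)
      rw [h3]
      exact hN
  have horb : ∀ P : R → Prop, (∀ r, P r ↔ P (nxt r)) → ∀ r s, fc r = fc s → (P r ↔ P s) := by
    intro P hP
    have h0 : ∀ (f : F) (h : 0 < M.len f) (t : ℕ) (ht : t < M.len f),
        P ⟨f, ⟨t, ht⟩⟩ ↔ P ⟨f, ⟨0, h⟩⟩ := by
      intro f h t
      induction t with
      | zero => exact fun _ => Iff.rfl
      | succ t ih =>
        intro ht
        rw [← ih (by omega), hP ⟨f, ⟨t, by omega⟩⟩, hnv]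
        have h1 : rotFin (M.len f) ⟨t, by omega⟩ = ⟨t + 1, ht⟩ := by
          apply Fin.ext
          rw [rotFin_val]
          exact Nat.mod_eq_of_lt ht
        rw [h1]
    rintro ⟨f, t⟩ ⟨g, s⟩ (rfl : f = g)
    rw [h0 f (by have := t.2; omega) t.1 t.2, h0 f (by have := t.2; omega) s.1 s.2]
  have hfs : Function.Surjective fc := fun f => ⟨⟨f, ⟨0, by have := hlen f; omega⟩⟩, rfl⟩
  have hconn := ring_connected (hn := hn) (a0 := a0) hG hfs
  have hclosed : ∀ f : R × Fin 3, ringWalk nxt a0 fc f 3 = ringWalk nxt a0 fc f 0 := by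
    rintro ⟨r, i⟩
    fin_cases i <;> rfl
  have hadj' := fun (f : R × Fin 3) (t : ℕ) (ht : t < 3) =>
    ring_adj (hn := hn) (fc := fc) hadj hfc f t ht
  have htw' := fun p q hpq => ring_twice (hn := hn) hadj hfc hn2 htwice p q hpq
  have hlk' := fun p N h1 h2 => ring_link (hn := hn) hadj hfc hL' horb p N h1 h2
  let M' : FacialWalks (ringGraph G nxt hn a0 fc) (R × Fin 3) :=
    ⟨fun _ => 3, ringWalk nxt a0 fc, hclosed, hadj', htw',
      dual_of_link (fun _ => 3) (ringWalk nxt a0 fc) hadj' hclosed htw' (fun _ => by omega)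
        hconn hlk'⟩
  refine ⟨V ⊕ (R ⊕ F), R × Fin 3, inferInstance, inferInstance, inferInstance,
    ringGraph G nxt hn a0 fc, Sum.inl, Sum.inl_injective, fun _ _ h => h, hconn,
    ⟨M', hlk', fun _ => rfl⟩, ?_⟩
  have e1 := tri_edges M' (fun _ => rfl)
  have e2 := sum_len M.len M.walk M.adj M.twice
  have e3 : Fintype.card R = ∑ f, M.len f := by
    rw [Fintype.card_sigma]
    exact sum_congr rfl fun f _ => Fintype.card_fin _
  rw [Fintype.card_prod, Fintype.card_fin] at e1
  rw [Fintype.card_sum, Fintype.card_sum, Fintype.card_prod, Fintype.card_fin]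
  push_cast
  omega

end

end Pool.Agent.W986
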